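import Pool.Agent.Work.MLCM.C02

section
set_option autoImplicit false

/-! # The inverse Boettcher coordinate near infinity  (helper56)

`Eb c u` is a function holomorphic in both variables on `Near c u : ‖u‖ * (4 * (‖c‖ + 2)) < 1` with
`Eb c u ^ 2 = Eb c (u ^ 2) - c * u ^ 2` and `bo c (w * Eb c w⁻¹) = w`. -/

namespace Pool.Agent.Work.MLC

open Filter Topology Metric Set

/-! ### injectivity of `bo` -/

lemma norm_exp_SB_sub_one {c z : ℂ} (h : Far c z) : ‖Complex.exp (SB c z) - 1‖ ≤ 3 / 8 := by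
  have h1 := norm_SB_le' h
  have h2 := Complex.norm_exp_sub_one_le (x := SB c z) (by linarith)
  linarith

lemma le_norm_bo {c z : ℂ} (h : Far c z) : 5 / 8 * ‖z‖ ≤ ‖bo c z‖ := by
  have h1 := norm_exp_SB_sub_one h
  have h2 : 1 - 3 / 8 ≤ ‖Complex.exp (SB c z)‖ := by
    have h3 : ‖(1 : ℂ)‖ ≤ ‖Complex.exp (SB c z)‖ + ‖Complex.exp (SB c z) - 1‖ := by
      have := norm_sub_le (Complex.exp (SB c z)) (Complex.exp (SB c z) - 1)
      rwa [sub_sub_cancel] at this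
    rw [norm_one] at h3; linarith
  unfold bo
  rw [norm_mul]
  nlinarith [norm_nonneg z]

lemma norm_bo_le {c z : ℂ} (h : Far c z) : ‖bo c z‖ ≤ 11 / 8 * ‖z‖ := by
  have h1 := norm_exp_SB_sub_one h
  have h2 : ‖Complex.exp (SB c z)‖ ≤ 1 + 3 / 8 := by
    have := norm_add_le (1 : ℂ) (Complex.exp (SB c z) - 1)
    rw [add_sub_cancel, norm_one] at this; linarith
  unfold bo
  rw [norm_mul]
  nlinarith [norm_nonneg z]

lemma bo_mul_exp_neg {c z : ℂ} : bo c z * Complex.exp (-SB c z) = z := by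
  unfold bo
  rw [mul_assoc, ← Complex.exp_add, add_neg_cancel, Complex.exp_zero, mul_one]

lemma norm_exp_neg_SB_sub_one {c z : ℂ} (h : Far c z) :
    ‖Complex.exp (-SB c z) - 1‖ ≤ 3 * (‖c‖ / ‖z‖ ^ 2) := by
  have h1 := norm_SB_le' h
  have h3 := norm_SB_le h
  have h2 := Complex.norm_exp_sub_one_le (x := -SB c z) (by rw [norm_neg]; linarith)
  rw [norm_neg] at h2
  linarith

lemma norm_sub_le_of_bo_eq {c z₁ z₂ : ℂ} (h1 : Far c z₁) (h2 : Far c z₂)
    (h : bo c z₁ = bo c z₂) : ‖z₁ - z₂‖ ≤ 12 * ‖c‖ / ‖bo c z₁‖ := by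
  have e1 := norm_exp_neg_SB_sub_one h1
  have e2 := norm_exp_neg_SB_sub_one h2
  have hb : 0 < ‖bo c z₁‖ := norm_pos_iff.2 (bo_ne_zero h1)
  have b1 := norm_bo_le h1
  have b2 := norm_bo_le h2
  rw [← h] at b2
  have hz1 : 0 < ‖z₁‖ := by have := h1.norm_gt; linarith
  have hz2 : 0 < ‖z₂‖ := by have := h2.norm_gt; linarith
  have f1 : ‖c‖ / ‖z₁‖ ^ 2 ≤ 2 * ‖c‖ / ‖bo c z₁‖ ^ 2 := by
    rw [div_le_div_iff₀ (by positivity) (by positivity)]
    have : ‖bo c z₁‖ ^ 2 ≤ 2 * ‖z₁‖ ^ 2 := by nlinarith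
    nlinarith [norm_nonneg c]
  have f2 : ‖c‖ / ‖z₂‖ ^ 2 ≤ 2 * ‖c‖ / ‖bo c z₁‖ ^ 2 := by
    rw [div_le_div_iff₀ (by positivity) (by positivity)]
    have : ‖bo c z₁‖ ^ 2 ≤ 2 * ‖z₂‖ ^ 2 := by nlinarith
    nlinarith [norm_nonneg c]
  have g : z₁ - z₂ = bo c z₁ * ((Complex.exp (-SB c z₁) - 1) - (Complex.exp (-SB c z₂) - 1)) := by
    rw [mul_sub, mul_sub, mul_sub, mul_one, bo_mul_exp_neg]
    rw [h, bo_mul_exp_neg]
    ring
  rw [g, norm_mul]
  have g2 := norm_sub_le (Complex.exp (-SB c z₁) - 1) (Complex.exp (-SB c z₂) - 1)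
  calc ‖bo c z₁‖ * ‖(Complex.exp (-SB c z₁) - 1) - (Complex.exp (-SB c z₂) - 1)‖
      ≤ ‖bo c z₁‖ * (12 * ‖c‖ / ‖bo c z₁‖ ^ 2) := by
        apply mul_le_mul_of_nonneg_left _ hb.le
        have : 12 * ‖c‖ / ‖bo c z₁‖ ^ 2 = 6 * (2 * ‖c‖ / ‖bo c z₁‖ ^ 2) := by ring
        rw [this]
        linarith
    _ = _ := by field_simp

lemma one_le_norm_add_of_bo_eq {c z₁ z₂ : ℂ} (h1 : Far c z₁) (h2 : Far c z₂)
    (h : bo c z₁ = bo c z₂) : 1 ≤ ‖z₁ + z₂‖ := by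
  have e1 : ‖Complex.exp (-SB c z₁) - 1‖ ≤ 3 / 8 := by
    have := norm_exp_neg_SB_sub_one h1
    have h3 := h1.norm_div_le
    rw [norm_div, norm_pow] at h3
    linarith
  have e2 : ‖Complex.exp (-SB c z₂) - 1‖ ≤ 3 / 8 := by
    have := norm_exp_neg_SB_sub_one h2
    have h3 := h2.norm_div_le
    rw [norm_div, norm_pow] at h3
    linarith
  have g : z₁ + z₂ =
      bo c z₁ * (2 + ((Complex.exp (-SB c z₁) - 1) + (Complex.exp (-SB c z₂) - 1))) := by
    have e : bo c z₁ * (2 + ((Complex.exp (-SB c z₁) - 1) + (Complex.exp (-SB c z₂) - 1))) =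
      bo c z₁ * Complex.exp (-SB c z₁) + bo c z₁ * Complex.exp (-SB c z₂) := by ring
    rw [e, bo_mul_exp_neg, h, bo_mul_exp_neg]
  have hb := le_norm_bo h1
  have hz := h1.norm_gt
  set a := (Complex.exp (-SB c z₁) - 1) + (Complex.exp (-SB c z₂) - 1) with ha
  have ha' : ‖a‖ ≤ 3 / 4 := by
    have := norm_add_le (Complex.exp (-SB c z₁) - 1) (Complex.exp (-SB c z₂) - 1)
    rw [← ha] at this; linarith
  have h5 : 5 / 4 ≤ ‖2 + a‖ := by
    have h6 : ‖(2 : ℂ)‖ ≤ ‖2 + a‖ + ‖a‖ := by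
      have := norm_sub_le (2 + a) a
      rwa [add_sub_cancel_right] at this
    rw [Complex.norm_two] at h6; linarith
  rw [g, norm_mul]
  nlinarith

lemma norm_sub_le_it {c z₁ z₂ : ℂ} (h1 : Far c z₁) (h2 : Far c z₂)
    (h : bo c z₁ = bo c z₂) (n : ℕ) : ‖z₁ - z₂‖ ≤ ‖it c n z₁ - it c n z₂‖ := by
  induction n with
  | zero => simp
  | succ n ih =>
    refine ih.trans ?_
    have h3 : bo c (it c n z₁) = bo c (it c n z₂) := by rw [bo_it h1, bo_it h2, h]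
    have h4 := one_le_norm_add_of_bo_eq (h1.it n) (h2.it n) h3
    have h5 : it c (n + 1) z₁ - it c (n + 1) z₂ =
        (it c n z₁ - it c n z₂) * (it c n z₁ + it c n z₂) := by
      rw [it_succ, it_succ]; unfold f; ring
    rw [h5, norm_mul]
    nlinarith [norm_nonneg (it c n z₁ - it c n z₂)]

/-- the Boettcher coordinate is injective near infinity -/
theorem bo_inj {c z₁ z₂ : ℂ} (h1 : Far c z₁) (h2 : Far c z₂) (h : bo c z₁ = bo c z₂) :
    z₁ = z₂ := by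
  have hb : 1 < ‖bo c z₁‖ := by
    have := le_norm_bo h1
    have := h1.norm_gt
    linarith
  have key : ∀ n : ℕ, ‖z₁ - z₂‖ ≤ 12 * ‖c‖ / ‖bo c z₁‖ ^ 2 ^ n := by
    intro n
    refine (norm_sub_le_it h1 h2 h n).trans ?_
    have h3 : bo c (it c n z₁) = bo c (it c n z₂) := by rw [bo_it h1, bo_it h2, h]
    have := norm_sub_le_of_bo_eq (h1.it n) (h2.it n) h3
    rwa [bo_it h1, norm_pow] at this
  have h4 : Tendsto (fun n : ℕ => 12 * ‖c‖ / ‖bo c z₁‖ ^ 2 ^ n) atTop (𝓝 0) := by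
    have h5 : Tendsto (fun n : ℕ => ‖bo c z₁‖ ^ 2 ^ n) atTop atTop :=
      (tendsto_pow_atTop_atTop_of_one_lt hb).comp
        (tendsto_pow_atTop_atTop_of_one_lt (by norm_num : (1 : ℕ) < 2))
    exact h5.const_div_atTop _
  have h5 : ‖z₁ - z₂‖ ≤ 0 := ge_of_tendsto' h4 key
  exact sub_eq_zero.1 (norm_le_zero_iff.1 h5)

/-! ### principal square roots near `1` -/

/-- principal square root -/
noncomputable def csq (x : ℂ) : ℂ := Complex.exp (Complex.log x / 2)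

lemma csq_sq {x : ℂ} (hx : x ≠ 0) : csq x ^ 2 = x := by
  unfold csq
  rw [← Complex.exp_nat_mul]
  have : ((2 : ℕ) : ℂ) * (Complex.log x / 2) = Complex.log x := by push_cast; ring
  rw [this, Complex.exp_log hx]

lemma csq_one : csq 1 = 1 := by simp [csq]

lemma csq_re_nonneg (x : ℂ) : 0 ≤ (csq x).re := by
  unfold csq
  rw [Complex.exp_re]
  refine mul_nonneg (Real.exp_pos _).le (Real.cos_nonneg_of_mem_Icc ?_)
  have h1 : (Complex.log x / 2).im = Complex.arg x / 2 := by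
    have : (2 : ℂ) = ((2 : ℝ) : ℂ) := by norm_num
    rw [this, Complex.div_ofReal_im, Complex.log_im]
  rw [h1]
  have h2 := Complex.neg_pi_lt_arg x
  have h3 := Complex.arg_le_pi x
  constructor <;> linarith

lemma ne_zero_of_near_one {x : ℂ} (hx : ‖x - 1‖ ≤ 1 / 8) : x ≠ 0 := by
  intro h; rw [h, zero_sub, norm_neg, norm_one] at hx; norm_num at hx

lemma csq_near {x : ℂ} (hx : ‖x - 1‖ ≤ 1 / 8) : ‖csq x - 1‖ ≤ 8 / 15 * ‖x - 1‖ := by
  have h0 := csq_sq (ne_zero_of_near_one hx)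
  have h1 : ‖csq x - 1‖ * ‖csq x + 1‖ = ‖x - 1‖ := by
    rw [← norm_mul]
    congr 1
    linear_combination h0
  have h2 : 1 ≤ ‖csq x + 1‖ := by
    have h3 := Complex.re_le_norm (csq x + 1)
    have h4 := csq_re_nonneg x
    rw [Complex.add_re, Complex.one_re] at h3
    linarith
  have h3 : ‖csq x - 1‖ ≤ 1 / 8 := by nlinarith [norm_nonneg (csq x - 1)]
  have h4 : 15 / 8 ≤ ‖csq x + 1‖ := by
    have h5 : ‖(2 : ℂ)‖ ≤ ‖csq x + 1‖ + ‖csq x - 1‖ := by
      have := norm_sub_le (csq x + 1) (csq x - 1)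
      have e : csq x + 1 - (csq x - 1) = 2 := by ring
      rwa [e] at this
    rw [Complex.norm_two] at h5; linarith
  nlinarith [norm_nonneg (csq x - 1)]

lemma csq_sub {x y : ℂ} (hx : ‖x - 1‖ ≤ 1 / 8) (hy : ‖y - 1‖ ≤ 1 / 8) :
    ‖csq x - csq y‖ ≤ 3 / 5 * ‖x - y‖ := by
  have h0 := csq_sq (ne_zero_of_near_one hx)
  have h0' := csq_sq (ne_zero_of_near_one hy)
  have h1 : ‖csq x - csq y‖ * ‖csq x + csq y‖ = ‖x - y‖ := by
    rw [← norm_mul]
    congr 1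
    linear_combination h0 - h0'
  have a1 := csq_near hx
  have a2 := csq_near hy
  have h4 : 5 / 3 ≤ ‖csq x + csq y‖ := by
    have h5 : ‖(2 : ℂ)‖ ≤ ‖csq x + csq y‖ + (‖csq x - 1‖ + ‖csq y - 1‖) := by
      have := norm_sub_le (csq x + csq y) ((csq x - 1) + (csq y - 1))
      have e : csq x + csq y - ((csq x - 1) + (csq y - 1)) = 2 := by ring
      rw [e] at this
      have h6 := norm_add_le (csq x - 1) (csq y - 1)
      linarith
    rw [Complex.norm_two] at h5; linarith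
  nlinarith [norm_nonneg (csq x - csq y)]

/-! ### the inverse near infinity -/

/-- region of small `u` -/
def Near (c u : ℂ) : Prop := ‖u‖ * (4 * (‖c‖ + 2)) < 1

namespace Near
variable {c u : ℂ}

lemma norm_lt (h : Near c u) : ‖u‖ < 1 / 8 := by
  unfold Near at h
  nlinarith [norm_nonneg c, norm_nonneg u]

lemma mono {v : ℂ} (h : Near c u) (hv : ‖v‖ ≤ ‖u‖) : Near c v := by
  unfold Near at h ⊢
  nlinarith [norm_nonneg c, norm_nonneg u, norm_nonneg v]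

lemma sq (h : Near c u) : Near c (u ^ 2) := by
  apply h.mono
  rw [norm_pow]
  have := h.norm_lt
  nlinarith [norm_nonneg u]

lemma norm_mul_sq_le (h : Near c u) : ‖c * u ^ 2‖ ≤ 1 / 128 := by
  rw [norm_mul, norm_pow]
  unfold Near at h
  have h1 : ‖u‖ * (‖c‖ + 2) < 1 / 4 := by linarith
  have h2 : (‖u‖ * (‖c‖ + 2)) ^ 2 ≤ 1 / 16 := by
    have : 0 ≤ ‖u‖ * (‖c‖ + 2) := by positivity
    nlinarith
  have h3 : 8 * ‖c‖ ≤ (‖c‖ + 2) ^ 2 := by nlinarith [sq_nonneg (‖c‖ - 2)]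
  have h4 : ‖u‖ ^ 2 * (8 * ‖c‖) ≤ ‖u‖ ^ 2 * (‖c‖ + 2) ^ 2 := by gcongr
  nlinarith

end Near

lemma isOpen_Near : IsOpen {p : ℂ × ℂ | Near p.1 p.2} := by
  unfold Near
  exact isOpen_lt (by fun_prop) continuous_const

/-- approximants of `Eb` -/
noncomputable def EE : ℕ → ℂ → ℂ → ℂ
  | 0, _, _ => 1
  | k + 1, c, u => csq (EE k c (u ^ 2) - c * u ^ 2)

lemma EE_zero (c u : ℂ) : EE 0 c u = 1 := rfl
lemma EE_succ (k : ℕ) (c u : ℂ) : EE (k + 1) c u = csq (EE k c (u ^ 2) - c * u ^ 2) := rfl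

lemma EE_at_zero (k : ℕ) (c : ℂ) : EE k c 0 = 1 := by
  induction k with
  | zero => rfl
  | succ k ih => rw [EE_succ]; simp [ih, csq_one]

lemma EE_bound {c : ℂ} (k : ℕ) : ∀ {u : ℂ}, Near c u → ‖EE k c u - 1‖ ≤ 1 / 16 := by
  induction k with
  | zero => intro u _; simp [EE_zero]
  | succ k ih =>
    intro u hu
    have h1 := ih hu.sq
    have h2 := hu.norm_mul_sq_le
    have h3 : ‖(EE k c (u ^ 2) - c * u ^ 2) - 1‖ ≤ 1 / 16 + 1 / 128 := by
      have e : (EE k c (u ^ 2) - c * u ^ 2) - 1 = (EE k c (u ^ 2) - 1) - c * u ^ 2 := by ring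
      rw [e]
      exact (norm_sub_le _ _).trans (by linarith)
    have h4 := csq_near (x := EE k c (u ^ 2) - c * u ^ 2) (by linarith)
    rw [EE_succ]; linarith

lemma EE_arg {c u : ℂ} (hu : Near c u) (k : ℕ) :
    ‖(EE k c (u ^ 2) - c * u ^ 2) - 1‖ ≤ 1 / 8 := by
  have h1 := EE_bound k hu.sq
  have h2 := hu.norm_mul_sq_le
  have e : (EE k c (u ^ 2) - c * u ^ 2) - 1 = (EE k c (u ^ 2) - 1) - c * u ^ 2 := by ring
  rw [e]
  exact (norm_sub_le _ _).trans (by linarith)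

lemma EE_diff {c : ℂ} (k : ℕ) : ∀ {u : ℂ}, Near c u →
    ‖EE (k + 1) c u - EE k c u‖ ≤ 1 / 16 * (3 / 5 : ℝ) ^ k := by
  induction k with
  | zero =>
    intro u hu
    have := EE_bound 1 hu
    simpa [EE_zero] using this
  | succ k ih =>
    intro u hu
    have h1 := ih hu.sq
    have h2 := csq_sub (EE_arg hu (k + 1)) (EE_arg hu k)
    have e : (EE (k + 1) c (u ^ 2) - c * u ^ 2) - (EE k c (u ^ 2) - c * u ^ 2) =
        EE (k + 1) c (u ^ 2) - EE k c (u ^ 2) := by ring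
    rw [e] at h2
    have h3 : (3 / 5 : ℝ) ^ (k + 1) = (3 / 5 : ℝ) ^ k * (3 / 5) := pow_succ _ _
    have h4 : EE (k + 1 + 1) c u = csq (EE (k + 1) c (u ^ 2) - c * u ^ 2) := rfl
    have h5 : EE (k + 1) c u = csq (EE k c (u ^ 2) - c * u ^ 2) := rfl
    rw [h4, h5, h3]
    linarith

/-- the inverse Boettcher function near infinity is `w ↦ w * Eb c w⁻¹` -/
noncomputable def Eb (c u : ℂ) : ℂ := limUnder atTop fun k => EE k c u

lemma tendsto_EE {c u : ℂ} (h : Near c u) : Tendsto (fun k => EE k c u) atTop (𝓝 (Eb c u)) := by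
  have h1 : CauchySeq fun k => EE k c u := by
    refine cauchySeq_of_le_geometric (3 / 5) (1 / 16) (by norm_num) fun k => ?_
    rw [dist_comm, dist_eq_norm]
    exact EE_diff k h
  exact h1.tendsto_limUnder

lemma norm_EE_sub_Eb {c u : ℂ} (h : Near c u) (k : ℕ) :
    ‖EE k c u - Eb c u‖ ≤ 1 / 16 * (3 / 5 : ℝ) ^ k / (1 - 3 / 5) := by
  have h2 : ∀ n, dist (EE n c u) (EE (n + 1) c u) ≤ 1 / 16 * (3 / 5 : ℝ) ^ n := by
    intro n
    rw [dist_comm, dist_eq_norm]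
    exact EE_diff n h
  have := dist_le_of_le_geometric_of_tendsto (3 / 5) (1 / 16) (by norm_num) h2 (tendsto_EE h) k
  rwa [dist_eq_norm] at this

lemma Eb_bound {c u : ℂ} (h : Near c u) : ‖Eb c u - 1‖ ≤ 1 / 16 := by
  have h1 : Tendsto (fun k => ‖EE k c u - 1‖) atTop (𝓝 ‖Eb c u - 1‖) :=
    ((tendsto_EE h).sub_const 1).norm
  exact le_of_tendsto' h1 fun k => EE_bound k h

@[simp] lemma Eb_at_zero (c : ℂ) : Eb c 0 = 1 := by
  have h : Near c 0 := by unfold Near; simp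
  have h1 := tendsto_EE h
  simp only [EE_at_zero] at h1
  exact (tendsto_nhds_unique h1 tendsto_const_nhds)

theorem Eb_sq {c u : ℂ} (h : Near c u) : Eb c u ^ 2 = Eb c (u ^ 2) - c * u ^ 2 := by
  have h1 := ((tendsto_EE h).comp (tendsto_add_atTop_nat 1)).pow 2
  have h2 := (tendsto_EE h.sq).sub_const (c * u ^ 2)
  refine tendsto_nhds_unique h1 (h2.congr fun k => ?_)
  simp only [Function.comp]
  rw [EE_succ, csq_sq (ne_zero_of_near_one (EE_arg h k))]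

lemma continuousOn_EE (k : ℕ) : ContinuousOn (fun p : ℂ × ℂ => EE k p.1 p.2) {p | Near p.1 p.2} := by
  induction k with
  | zero => exact continuousOn_const
  | succ k ih =>
    have h1 : ContinuousOn (fun p : ℂ × ℂ => EE k p.1 (p.2 ^ 2)) {p | Near p.1 p.2} := by
      have hm : MapsTo (fun p : ℂ × ℂ => (p.1, p.2 ^ 2)) {p | Near p.1 p.2}
          {p | Near p.1 p.2} := fun p hp => Near.sq hp
      exact ih.comp (f := fun p : ℂ × ℂ => (p.1, p.2 ^ 2)) (by fun_prop) hm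
    have h2 : ContinuousOn (fun p : ℂ × ℂ => EE k p.1 (p.2 ^ 2) - p.1 * p.2 ^ 2)
        {p | Near p.1 p.2} := h1.sub (by fun_prop)
    show ContinuousOn (fun p : ℂ × ℂ => csq (EE k p.1 (p.2 ^ 2) - p.1 * p.2 ^ 2)) _
    unfold csq
    refine ((h2.clog fun p hp => ?_).div_const 2).cexp
    have hp' : Near p.1 p.2 := hp
    have h3 := EE_arg hp' k
    have e : EE k p.1 (p.2 ^ 2) - p.1 * p.2 ^ 2 =
      1 + ((EE k p.1 (p.2 ^ 2) - p.1 * p.2 ^ 2) - 1) := by ring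
    rw [e]
    exact Complex.mem_slitPlane_of_norm_lt_one (h3.trans_lt (by norm_num))

lemma differentiableOn_EE (k : ℕ) {U : Set ℂ} : ∀ {γ δ : ℂ → ℂ}
    (_ : DifferentiableOn ℂ γ U) (_ : DifferentiableOn ℂ δ U)
    (_ : ∀ t ∈ U, Near (γ t) (δ t)), DifferentiableOn ℂ (fun t => EE k (γ t) (δ t)) U := by
  induction k with
  | zero => intro γ δ _ _ _; exact differentiableOn_const _
  | succ k ih =>
    intro γ δ hγ hδ h
    have h1 := ih hγ (hδ.pow 2) fun t ht => (h t ht).sq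
    have h2 : DifferentiableOn ℂ (fun t => EE k (γ t) ((δ t) ^ 2) - γ t * (δ t) ^ 2) U :=
      h1.sub (hγ.mul (hδ.pow 2))
    show DifferentiableOn ℂ (fun t => csq (EE k (γ t) ((δ t) ^ 2) - γ t * (δ t) ^ 2)) U
    unfold csq
    refine ((h2.clog fun t ht => ?_).div_const 2).cexp
    have h3 := EE_arg (h t ht) k
    have e : EE k (γ t) ((δ t) ^ 2) - γ t * (δ t) ^ 2 =
      1 + ((EE k (γ t) ((δ t) ^ 2) - γ t * (δ t) ^ 2) - 1) := by ring
    rw [e]
    exact Complex.mem_slitPlane_of_norm_lt_one (h3.trans_lt (by norm_num))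

lemma tendsto_geom_zero :
    Tendsto (fun k : ℕ => 1 / 16 * (3 / 5 : ℝ) ^ k / (1 - 3 / 5)) atTop (𝓝 0) := by
  have h1 := tendsto_pow_atTop_nhds_zero_of_lt_one (r := (3 / 5 : ℝ)) (by norm_num)
    (by norm_num)
  have h2 := (h1.const_mul (1 / 16)).div_const (1 - 3 / 5)
  simpa using h2

lemma continuousOn_Eb : ContinuousOn (fun p : ℂ × ℂ => Eb p.1 p.2) {p | Near p.1 p.2} := by
  have h1 : TendstoUniformlyOn (fun (k : ℕ) (p : ℂ × ℂ) => EE k p.1 p.2)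
      (fun p => Eb p.1 p.2) atTop {p | Near p.1 p.2} := by
    rw [Metric.tendstoUniformlyOn_iff]
    intro ε hε
    filter_upwards [tendsto_geom_zero.eventually (gt_mem_nhds hε)] with k hk p hp
    rw [dist_comm, dist_eq_norm]
    exact (norm_EE_sub_Eb hp k).trans_lt hk
  exact h1.continuousOn (Eventually.frequently (Eventually.of_forall continuousOn_EE))

lemma differentiableOn_Eb {U : Set ℂ} (hU : IsOpen U) {γ δ : ℂ → ℂ}
    (hγ : DifferentiableOn ℂ γ U) (hδ : DifferentiableOn ℂ δ U)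
    (h : ∀ t ∈ U, Near (γ t) (δ t)) : DifferentiableOn ℂ (fun t => Eb (γ t) (δ t)) U := by
  have h1 : TendstoUniformlyOn (fun (k : ℕ) (t : ℂ) => EE k (γ t) (δ t))
      (fun t => Eb (γ t) (δ t)) atTop U := by
    rw [Metric.tendstoUniformlyOn_iff]
    intro ε hε
    filter_upwards [tendsto_geom_zero.eventually (gt_mem_nhds hε)] with k hk t ht
    rw [dist_comm, dist_eq_norm]
    exact (norm_EE_sub_Eb (h t ht) k).trans_lt hk
  exact h1.tendstoLocallyUniformlyOn.differentiableOn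
    (Eventually.of_forall fun k => differentiableOn_EE k hγ hδ h) hU

/-- a number all whose `2 ^ n`-th powers stay near `1` is `1` -/
lemma eq_one_of_pow_near {y : ℂ} (h : ∀ n : ℕ, ‖y ^ 2 ^ n - 1‖ ≤ 1 / 2) : y = 1 := by
  have h1 : ∀ n : ℕ, ‖y - 1‖ * (3 / 2 : ℝ) ^ n ≤ ‖y ^ 2 ^ n - 1‖ := by
    intro n
    induction n with
    | zero => simp
    | succ n ih =>
      have e : y ^ 2 ^ (n + 1) - 1 = (y ^ 2 ^ n - 1) * (y ^ 2 ^ n + 1) := by
        rw [pow_succ, pow_mul]; ring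
      have h2 : 3 / 2 ≤ ‖y ^ 2 ^ n + 1‖ := by
        have h5 : ‖(2 : ℂ)‖ ≤ ‖y ^ 2 ^ n + 1‖ + ‖y ^ 2 ^ n - 1‖ := by
          have := norm_sub_le (y ^ 2 ^ n + 1) (y ^ 2 ^ n - 1)
          have e : y ^ 2 ^ n + 1 - (y ^ 2 ^ n - 1) = 2 := by ring
          rwa [e] at this
        rw [Complex.norm_two] at h5
        have := h n
        linarith
      rw [e, norm_mul, pow_succ]
      have h3 : 0 ≤ ‖y ^ 2 ^ n - 1‖ := norm_nonneg _
      have h4 : 0 ≤ ‖y - 1‖ * (3 / 2 : ℝ) ^ n := by positivity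
      nlinarith
  have h2 : ∀ n : ℕ, ‖y - 1‖ ≤ 1 / 2 * (2 / 3 : ℝ) ^ n := by
    intro n
    have h3 := (h1 n).trans (h n)
    have h4 : (3 / 2 : ℝ) ^ n * (2 / 3 : ℝ) ^ n = 1 := by
      rw [← mul_pow]; norm_num
    have h5 : (0 : ℝ) < (2 / 3 : ℝ) ^ n := by positivity
    calc ‖y - 1‖ = (‖y - 1‖ * (3 / 2 : ℝ) ^ n) * (2 / 3 : ℝ) ^ n := by
          rw [mul_assoc, h4, mul_one]
      _ ≤ _ := by gcongr
  have h3 : Tendsto (fun n : ℕ => 1 / 2 * (2 / 3 : ℝ) ^ n) atTop (𝓝 0) := by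
    have := (tendsto_pow_atTop_nhds_zero_of_lt_one (r := (2 / 3 : ℝ)) (by norm_num)
      (by norm_num)).const_mul (1 / 2)
    simpa using this
  have h4 : ‖y - 1‖ ≤ 0 := ge_of_tendsto' h3 h2
  exact sub_eq_zero.1 (norm_le_zero_iff.1 h4)

section psib
variable {c w : ℂ}

lemma Far_psib (h : Near c w⁻¹) (hw : w ≠ 0) : Far c (w * Eb c w⁻¹) := by
  have h1 := Eb_bound h
  have h2 : 15 / 16 ≤ ‖Eb c w⁻¹‖ := by
    have h3 : ‖(1 : ℂ)‖ ≤ ‖Eb c w⁻¹‖ + ‖Eb c w⁻¹ - 1‖ := by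
      have := norm_sub_le (Eb c w⁻¹) (Eb c w⁻¹ - 1)
      rwa [sub_sub_cancel] at this
    rw [norm_one] at h3; linarith
  unfold Near at h
  rw [norm_inv] at h
  have hw' : 0 < ‖w‖ := norm_pos_iff.2 hw
  have h3 : 4 * (‖c‖ + 2) < ‖w‖ := by
    rwa [inv_mul_lt_iff₀ hw', mul_one] at h
  unfold Far
  rw [norm_mul]
  nlinarith [norm_nonneg c]

lemma psib_sq (h : Near c w⁻¹) (hw : w ≠ 0) :
    w ^ 2 * Eb c (w ^ 2)⁻¹ = f c (w * Eb c w⁻¹) := by
  have h1 := Eb_sq h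
  unfold f
  rw [mul_pow, h1, inv_pow]
  field_simp
  ring

/-- the inverse function property near infinity -/
theorem bo_psib (h : Near c w⁻¹) (hw : w ≠ 0) : bo c (w * Eb c w⁻¹) = w := by
  -- `β v = bo (ψ v) / v` stays near `1` and satisfies `β (v ^ 2) = (β v) ^ 2`
  have hNear : ∀ n : ℕ, Near c (w ^ 2 ^ n)⁻¹ := by
    intro n
    refine h.mono ?_
    rw [← inv_pow, norm_pow]
    have h1 := h.norm_lt
    exact pow_le_of_le_one (norm_nonneg _) (by linarith) (by positivity)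
  have hβ : ∀ n : ℕ, bo c (w ^ 2 ^ n * Eb c (w ^ 2 ^ n)⁻¹) = bo c (w * Eb c w⁻¹) ^ 2 ^ n := by
    intro n
    induction n with
    | zero => simp
    | succ n ih =>
      have h1 := psib_sq (hNear n) (pow_ne_zero _ hw)
      rw [← pow_mul, ← pow_succ] at h1
      rw [h1, bo_f (Far_psib (hNear n) (pow_ne_zero _ hw)), ih, ← pow_mul, ← pow_succ]
  have h2 : bo c (w * Eb c w⁻¹) / w = 1 := by
    apply eq_one_of_pow_near
    intro n
    rw [div_pow, ← hβ n]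
    have hv : w ^ 2 ^ n ≠ 0 := pow_ne_zero _ hw
    have hF := Far_psib (hNear n) hv
    have e : bo c (w ^ 2 ^ n * Eb c (w ^ 2 ^ n)⁻¹) / w ^ 2 ^ n =
        Eb c (w ^ 2 ^ n)⁻¹ * Complex.exp (SB c (w ^ 2 ^ n * Eb c (w ^ 2 ^ n)⁻¹)) := by
      unfold bo; field_simp
    rw [e]
    have a1 := Eb_bound (hNear n)
    have a2 := norm_exp_SB_sub_one hF
    set A := Eb c (w ^ 2 ^ n)⁻¹
    set B := Complex.exp (SB c (w ^ 2 ^ n * A))
    have e2 : A * B - 1 = (A - 1) * (B - 1) + (A - 1) + (B - 1) := by ring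
    rw [e2]
    have a3 := norm_add_le ((A - 1) * (B - 1) + (A - 1)) (B - 1)
    have a4 := norm_add_le ((A - 1) * (B - 1)) (A - 1)
    rw [norm_mul] at a4
    nlinarith [norm_nonneg (A - 1), norm_nonneg (B - 1)]
  rwa [div_eq_one_iff_eq hw] at h2

lemma G_psib (h : Near c w⁻¹) (hw : w ≠ 0) : G c (w * Eb c w⁻¹) = Real.log ‖w‖ := by
  rw [← log_norm_bo (Far_psib h hw), bo_psib h hw]

/-- surjectivity onto a neighbourhood of infinity -/
theorem psib_bo {z : ℂ} (h : 8 * (‖c‖ + 2) < ‖z‖) : bo c z * Eb c (bo c z)⁻¹ = z := by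
  have hF : Far c z := by unfold Far; linarith [norm_nonneg c]
  have h1 := le_norm_bo hF
  have h0 := bo_ne_zero hF
  have hN : Near c (bo c z)⁻¹ := by
    unfold Near
    rw [norm_inv, inv_mul_lt_iff₀ (norm_pos_iff.2 h0), mul_one]
    linarith [norm_nonneg c]
  exact bo_inj (Far_psib hN h0) hF (bo_psib hN h0)

end psib

end Pool.Agent.Work.MLC
end

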