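import Mathlib
import Pool.Agent.Work.MLCM.C01

section
set_option autoImplicit false

/-! # The Boettcher coordinate of `z ^ 2 + c` near infinity  (helper56)

`bo c z` is defined and holomorphic in both variables on the region `Far c z : ‖c‖ + 2 < ‖z‖`,
`bo c (f c z) = bo c z ^ 2` and `Real.log ‖bo c z‖ = G c z`. -/

namespace Pool.Agent.Work.MLC

open Filter Topology Metric Set

/-- the region near infinity where the Boettcher coordinate is given by a series -/
def Far (c z : ℂ) : Prop := ‖c‖ + 2 < ‖z‖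

namespace Far

variable {c z : ℂ}

lemma norm_gt (h : Far c z) : 2 < ‖z‖ := by
  unfold Far at h; linarith [norm_nonneg c]

lemma ne_zero (h : Far c z) : z ≠ 0 := by
  intro h0; have := h.norm_gt; rw [h0, norm_zero] at this; linarith

lemma neg (h : Far c z) : Far c (-z) := by unfold Far at h ⊢; rwa [norm_neg]

lemma two_mul_le (h : Far c z) : 2 * ‖z‖ ≤ ‖f c z‖ := by
  have h1 : ‖z‖ ^ 2 - ‖c‖ ≤ ‖f c z‖ := by
    have := norm_sub_norm_le (z ^ 2) (-c)
    rw [norm_pow, norm_neg, sub_neg_eq_add] at this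
    exact this
  have h2 := h.norm_gt
  unfold Far at h
  nlinarith [norm_nonneg c]

lemma f (h : Far c z) : Far c (f c z) := by
  have h1 := h.two_mul_le
  have h2 := h.norm_gt
  unfold Far at h ⊢; linarith

lemma it (h : Far c z) (n : ℕ) : Far c (it c n z) := by
  induction n with
  | zero => exact h
  | succ n ih => rw [it_succ]; exact ih.f

lemma two_pow_mul_le (h : Far c z) (n : ℕ) : 2 ^ n * ‖z‖ ≤ ‖MLC.it c n z‖ := by
  induction n with
  | zero => simp
  | succ n ih =>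
    rw [it_succ, pow_succ]
    have := (h.it n).two_mul_le
    nlinarith

lemma norm_div_le (h : Far c z) : ‖c / z ^ 2‖ ≤ 1 / 8 := by
  rw [norm_div, norm_pow, div_le_iff₀ (by have := h.norm_gt; positivity)]
  unfold Far at h
  nlinarith [norm_nonneg c, sq_nonneg (‖c‖ - 2)]

lemma one_add_mem (h : Far c z) : 1 + c / z ^ 2 ∈ Complex.slitPlane :=
  Complex.mem_slitPlane_of_norm_lt_one (h.norm_div_le.trans_lt (by norm_num))

lemma one_add_ne (h : Far c z) : 1 + c / z ^ 2 ≠ 0 := Complex.slitPlane_ne_zero h.one_add_mem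

end Far

/-- the terms of the series of `log (bo c z / z)` -/
noncomputable def St (c : ℂ) (n : ℕ) (z : ℂ) : ℂ :=
  Complex.log (1 + c / (it c n z) ^ 2) / 2 ^ (n + 1)

lemma norm_St_le {c z : ℂ} (h : Far c z) (n : ℕ) : ‖St c n z‖ ≤ 1 / 2 ^ (n + 1) := by
  have h1 := (h.it n).norm_div_le
  have h2 := Complex.norm_log_one_add_half_le_self (z := c / (it c n z) ^ 2) (by linarith)
  unfold St
  rw [norm_div, norm_pow, Complex.norm_two]
  gcongr
  linarith

lemma norm_St_le' {c z : ℂ} (h : Far c z) (n : ℕ) :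
    ‖St c n z‖ ≤ (3 / 2 * (‖c‖ / ‖z‖ ^ 2)) * (1 / 2 ^ (n + 1)) := by
  have h1 := (h.it n).norm_div_le
  have h2 := Complex.norm_log_one_add_half_le_self (z := c / (it c n z) ^ 2) (by linarith)
  have hz := h.norm_gt
  have h3 : ‖z‖ ≤ ‖it c n z‖ := by
    have := h.two_pow_mul_le n
    have h4 : (1 : ℝ) ≤ 2 ^ n := one_le_pow₀ (by norm_num)
    nlinarith
  have h4 : ‖c / (it c n z) ^ 2‖ ≤ ‖c‖ / ‖z‖ ^ 2 := by
    rw [norm_div, norm_pow]; gcongr
  unfold St
  rw [norm_div, norm_pow, Complex.norm_two, div_eq_mul_one_div]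
  gcongr
  exact h2.trans (by gcongr)

lemma summable_half : Summable fun n : ℕ => (1 : ℝ) / 2 ^ (n + 1) := by
  have := summable_geometric_two.mul_left (1 / 2 : ℝ)
  refine this.congr fun n => ?_
  rw [pow_succ, one_div_pow]; field_simp

lemma tsum_half : ∑' n : ℕ, (1 : ℝ) / 2 ^ (n + 1) = 1 := by
  have h1 : (fun n : ℕ => (1 : ℝ) / 2 ^ (n + 1)) = fun n => (1 / 2 : ℝ) * (1 / 2) ^ n := by
    funext n; rw [pow_succ, one_div_pow]; field_simp
  rw [h1, tsum_mul_left, tsum_geometric_two]; norm_num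

lemma summable_St {c z : ℂ} (h : Far c z) : Summable fun n => St c n z :=
  Summable.of_norm_bounded summable_half (norm_St_le h)

/-- `log (bo c z / z)` -/
noncomputable def SB (c z : ℂ) : ℂ := ∑' n, St c n z

lemma norm_SB_le {c z : ℂ} (h : Far c z) : ‖SB c z‖ ≤ 3 / 2 * (‖c‖ / ‖z‖ ^ 2) := by
  have h1 : Summable fun n => (3 / 2 * (‖c‖ / ‖z‖ ^ 2)) * ((1 : ℝ) / 2 ^ (n + 1)) :=
    summable_half.mul_left _
  refine (tsum_of_norm_bounded h1.hasSum (norm_St_le' h)).trans (le_of_eq ?_)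
  rw [tsum_mul_left, tsum_half, mul_one]

lemma norm_SB_le' {c z : ℂ} (h : Far c z) : ‖SB c z‖ ≤ 3 / 16 := by
  refine (norm_SB_le h).trans ?_
  have := h.norm_div_le
  rw [norm_div, norm_pow] at this
  linarith

lemma SB_f {c z : ℂ} (h : Far c z) :
    SB c (f c z) = 2 * SB c z - Complex.log (1 + c / z ^ 2) := by
  have h1 := (summable_St h).sum_add_tsum_nat_add 1
  have h2 : SB c z = ∑' n, St c n z := rfl
  rw [← h2] at h1
  have h3 : ∑' n, St c (n + 1) z = SB c (f c z) / 2 := by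
    unfold SB
    rw [← tsum_div_const]
    apply tsum_congr
    intro n
    unfold St
    rw [it_succ', pow_succ (2 : ℂ) (n + 1)]
    field_simp
  rw [Finset.sum_range_one, h3] at h1
  unfold St at h1
  rw [it_zero] at h1
  rw [← h1]
  ring

/-- the Boettcher coordinate near infinity -/
noncomputable def bo (c z : ℂ) : ℂ := z * Complex.exp (SB c z)

lemma bo_ne_zero {c z : ℂ} (h : Far c z) : bo c z ≠ 0 :=
  mul_ne_zero h.ne_zero (Complex.exp_ne_zero _)

theorem bo_f {c z : ℂ} (h : Far c z) : bo c (f c z) = bo c z ^ 2 := by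
  unfold bo
  rw [SB_f h, Complex.exp_sub, Complex.exp_log h.one_add_ne, mul_pow, ← Complex.exp_nat_mul]
  have h1 := h.ne_zero
  have h2 := h.one_add_ne
  have h3 : f c z = z ^ 2 * (1 + c / z ^ 2) := by unfold f; field_simp
  rw [h3, mul_assoc, mul_comm (1 + c / z ^ 2), div_mul_cancel₀ _ h2]
  push_cast
  rfl

lemma bo_it {c z : ℂ} (h : Far c z) (n : ℕ) : bo c (it c n z) = bo c z ^ 2 ^ n := by
  induction n with
  | zero => simp
  | succ n ih => rw [it_succ, bo_f (h.it n), ih, ← pow_mul, pow_succ]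

theorem norm_bo {c z : ℂ} (h : Far c z) : ‖bo c z‖ = Real.exp (G c z) := by
  -- both sides satisfy the same functional equation and are comparable
  have h1 : ∀ {w : ℂ}, Far c w → |Real.log ‖bo c w‖ - G c w| ≤ 3 / 16 + Real.log (1 + ‖c‖) := by
    intro w hw
    have hw0 := hw.norm_gt
    have h2 : Real.log ‖bo c w‖ = Real.log ‖w‖ + (SB c w).re := by
      unfold bo
      rw [norm_mul, Complex.norm_exp, Real.log_mul (by linarith) (Real.exp_pos _).ne',
        Real.log_exp]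
    have h3 := norm_SB_le' hw
    have h4 := Complex.abs_re_le_norm (SB c w)
    have h5 := abs_G_sub_posLog c w
    rw [Real.posLog_eq_log (by rw [abs_of_nonneg (norm_nonneg _)]; linarith)] at h5
    rw [h2]
    rw [abs_le] at h4 h5 ⊢
    constructor <;> linarith
  have h2 : ∀ n : ℕ, |Real.log ‖bo c z‖ - G c z| ≤
      (3 / 16 + Real.log (1 + ‖c‖)) / 2 ^ n := by
    intro n
    have h3 := h1 (h.it n)
    rw [bo_it h, norm_pow, Real.log_pow, G_it] at h3
    push_cast at h3
    rw [← mul_sub, abs_mul, abs_of_pos (by positivity : (0 : ℝ) < 2 ^ n)] at h3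
    rw [le_div_iff₀ (by positivity)]
    linarith
  have h3 : |Real.log ‖bo c z‖ - G c z| ≤ 0 := by
    have h4 : Tendsto (fun n : ℕ => (3 / 16 + Real.log (1 + ‖c‖)) / (2 : ℝ) ^ n) atTop (𝓝 0) := by
      have := tendsto_pow_atTop_nhds_zero_of_lt_one (r := (1 / 2 : ℝ)) (by norm_num)
        (by norm_num)
      have h3 := this.const_mul (3 / 16 + Real.log (1 + ‖c‖))
      rw [mul_zero] at h3
      refine h3.congr fun n => ?_
      rw [one_div, inv_pow]; rfl
    exact ge_of_tendsto' h4 h2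
  have h4 : Real.log ‖bo c z‖ = G c z := by
    have := abs_nonpos_iff.1 h3; linarith
  rw [← h4, Real.exp_log (norm_pos_iff.2 (bo_ne_zero h))]

lemma log_norm_bo {c z : ℂ} (h : Far c z) : Real.log ‖bo c z‖ = G c z := by
  rw [norm_bo h, Real.log_exp]

lemma G_pos_of_Far {c z : ℂ} (h : Far c z) : 0 < G c z := by
  rw [G_pos_iff]
  intro h0
  have := norm_le_of_G_zero h0
  unfold Far at h; linarith

/-- explicit form of the Green function near infinity -/
lemma G_eq_log_add {c z : ℂ} (h : Far c z) : G c z = Real.log ‖z‖ + (SB c z).re := by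
  rw [← log_norm_bo h]
  unfold bo
  rw [norm_mul, Complex.norm_exp, Real.log_mul (by have := h.norm_gt; linarith)
    (Real.exp_pos _).ne', Real.log_exp]

/-! ### holomorphic dependence -/

lemma differentiableOn_St {U : Set ℂ} {γ δ : ℂ → ℂ} (hγ : DifferentiableOn ℂ γ U)
    (hδ : DifferentiableOn ℂ δ U) (h : ∀ t ∈ U, Far (γ t) (δ t)) (n : ℕ) :
    DifferentiableOn ℂ (fun t => St (γ t) n (δ t)) U := by
  have h1 : DifferentiableOn ℂ (fun t => it (γ t) n (δ t)) U :=
    (differentiable_it n).comp_differentiableOn (hγ.prodMk hδ)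
  unfold St
  refine DifferentiableOn.div_const (DifferentiableOn.clog ?_ ?_) _
  · refine (differentiableOn_const _).add (hγ.div (h1.pow 2) ?_)
    intro t ht
    exact pow_ne_zero _ ((h t ht).it n).ne_zero
  · intro t ht
    exact ((h t ht).it n).one_add_mem

/-- `SB` is holomorphic along holomorphic curves in parameter x dynamical space -/
theorem differentiableOn_SB {U : Set ℂ} (hU : IsOpen U) {γ δ : ℂ → ℂ}
    (hγ : DifferentiableOn ℂ γ U) (hδ : DifferentiableOn ℂ δ U)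
    (h : ∀ t ∈ U, Far (γ t) (δ t)) : DifferentiableOn ℂ (fun t => SB (γ t) (δ t)) U :=
  Complex.differentiableOn_tsum_of_summable_norm summable_half
    (fun n => differentiableOn_St hγ hδ h n) hU fun n t ht => norm_St_le (h t ht) n

theorem differentiableOn_bo {U : Set ℂ} (hU : IsOpen U) {γ δ : ℂ → ℂ}
    (hγ : DifferentiableOn ℂ γ U) (hδ : DifferentiableOn ℂ δ U)
    (h : ∀ t ∈ U, Far (γ t) (δ t)) : DifferentiableOn ℂ (fun t => bo (γ t) (δ t)) U :=
  hδ.mul (differentiableOn_SB hU hγ hδ h).cexp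

end Pool.Agent.Work.MLC
end

section
set_option autoImplicit false

/-! # Common definitions for the exterior PLY inequality (files `Ply*.lean`)  (helper14)

Angles are in radians here: `E ζ` is the point with Boettcher coordinate `exp ζ`. -/

namespace Pool.Agent.Work.MLC

open Filter Topology Metric Set Complex

/-- properties of the logarithmic inverse Boettcher map `E = eta_c` on `{g / 2 < Re}`
(`g = G c c`, `c = E (g + i th)`) that the exterior PLY inequality uses. -/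
structure BD (c : ℂ) (g th : ℝ) (E : ℂ → ℂ) : Prop where
  pos : 0 < g
  G_c : G c c = g
  hol : DifferentiableOn ℂ E {z | g / 2 < z.re}
  dbl : ∀ z : ℂ, g / 2 < z.re → E (2 * z) = f c (E z)
  per : ∀ z : ℂ, g / 2 < z.re → E (z + 2 * Real.pi * I) = E z
  odd : ∀ z : ℂ, g / 2 < z.re → E (z + Real.pi * I) = - E z
  inj : ∀ z z' : ℂ, g / 2 < z.re → g / 2 < z'.re → E z = E z' →
    ∃ k : ℤ, z = z' + k * (2 * Real.pi * I)
  G_E : ∀ z : ℂ, g / 2 < z.re → G c (E z) = z.re
  surj : ∀ y : ℂ, g / 2 < G c y → ∃ z : ℂ, z.re = G c y ∧ E z = y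
  crit : E (g + th * I) = c
  asym : Tendsto (fun z => E z / Complex.exp z) (comap Complex.re atTop) (𝓝 1)

/-- the ray above the critical value -/
def ray (E : ℂ → ℂ) (g th : ℝ) : Set ℂ := {z | ∃ r : ℝ, g ≤ r ∧ z = E (r + th * I)}

/-- the inverse branch `s = s₀` of `z ^ 2 + c` off the ray above the critical value -/
structure SQ (c : ℂ) (g th : ℝ) (E s : ℂ → ℂ) : Prop where
  hol : DifferentiableOn ℂ s (ray E g th)ᶜ
  sq : ∀ z ∉ ray E g th, s z ^ 2 = z - c
  log : ∃ l : ℂ → ℂ, ContinuousOn l (ray E g th)ᶜ ∧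
    ∀ z ∉ ray E g th, s z = Complex.exp (l z)
  norm0 : ∀ z : ℂ, g < z.re → th < z.im → z.im < th + 2 * Real.pi → s (E z) = E (z / 2)

/-- the two branches `s_e = (-1) ^ e s`, `e : ℤ` (only the parity of `e` matters) -/
noncomputable def sb (s : ℂ → ℂ) (e : ℤ) (z : ℂ) : ℂ := (-1) ^ e * s z

/-- the composition `g_m = s_{w 0} ∘ ... ∘ s_{w (m - 1)}` -/
noncomputable def gc (s : ℂ → ℂ) (w : ℕ → ℤ) : ℕ → ℂ → ℂ
  | 0, z => z
  | m + 1, z => gc s w m (sb s (w m) z)

/-- the disc `{G < g}` -/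
def Ug (c : ℂ) (g : ℝ) : Set ℂ := {z | G c z < g}

/-- Koenigs data on `U = {G < g}` for a periodic word `w` of period `n`:
`b` is the fixed point of `g_n`, `ρ` its multiplier under `f^n`, `h` the Koenigs map. -/
structure KD (c : ℂ) (g : ℝ) (s : ℂ → ℂ) (w : ℕ → ℤ) (n : ℕ) (b ρ : ℂ) (h : ℂ → ℂ) : Prop where
  b_mem : b ∈ Ug c g
  fix : gc s w n b = b
  rho : ρ = deriv (it c n) b
  one_lt : 1 < ‖ρ‖
  hol : DifferentiableOn ℂ h (Ug c g)
  inj : InjOn h (Ug c g)
  zero : h b = 0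
  koe : ∀ z ∈ Ug c g, h (gc s w n z) = h z / ρ
  /-- `h z = ρ ^ k h₀ (g_n^k z)` with the local Koenigs map `h₀ y = (y - b) u(y)`, `|u - 1| < 1`. -/
  form : ∃ (k : ℕ) (q : ℂ → ℂ), ContinuousOn q (Ug c g) ∧ (∀ z ∈ Ug c g, ‖q z - 1‖ < 1) ∧
    ∀ z ∈ Ug c g, h z = ρ ^ k * (gc s w (n * k) z - b) * q z

lemma gc_zero (s : ℂ → ℂ) (w : ℕ → ℤ) (z : ℂ) : gc s w 0 z = z := rfl

lemma gc_succ (s : ℂ → ℂ) (w : ℕ → ℤ) (m : ℕ) (z : ℂ) :
    gc s w (m + 1) z = gc s w m (sb s (w m) z) := rfl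

lemma gc_add (s : ℂ → ℂ) (w : ℕ → ℤ) (m k : ℕ) (z : ℂ) :
    gc s w (m + k) z = gc s w m (gc s (fun i => w (m + i)) k z) := by
  induction k generalizing z with
  | zero => rfl
  | succ k ih => rw [← add_assoc, gc_succ, ih, gc_succ]

lemma gc_succ' (s : ℂ → ℂ) (w : ℕ → ℤ) (m : ℕ) (z : ℂ) :
    gc s w (m + 1) z = sb s (w 0) (gc s (fun i => w (i + 1)) m z) := by
  rw [add_comm, gc_add, gc_succ, gc_zero]
  congr 2
  funext i
  rw [add_comm]

end Pool.Agent.Work.MLC
end

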