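import Mathlib
import Pool.Agent.Work.MLCM.C03
import Pool.Agent.Work.MLCM.C04
import Pool.Agent.Work.MLCM.C11

section
set_option autoImplicit false

/-! # Extension of the inverse Boettcher function to `{‖u‖ * exp (G c 0) < 1}`  (helper56) -/

namespace Pool.Agent.Work.MLC

open Filter Topology Metric Set unitInterval

/-- the region of definition in the coordinate `u = 1 / w` -/
def Om : Set (ℂ × ℂ) := {p | ‖p.2‖ * Real.exp (G p.1 0) < 1}

lemma isOpen_Om : IsOpen Om := by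
  have h1 : Continuous fun p : ℂ × ℂ => G p.1 0 := by
    have h2 : Continuous fun p : ℂ × ℂ => ((p.1, 0) : ℂ × ℂ) := by fun_prop
    have h3 : Continuous ((fun p : ℂ × ℂ => G p.1 p.2) ∘ fun p : ℂ × ℂ => ((p.1, 0) : ℂ × ℂ)) :=
      Continuous.comp continuous_G h2
    exact h3
  exact isOpen_lt (by fun_prop) continuous_const

lemma Om_smaller {c u v : ℂ} (h : (c, u) ∈ Om) (hv : ‖v‖ ≤ ‖u‖) : (c, v) ∈ Om := by
  have h' : ‖u‖ * Real.exp (G c 0) < 1 := h
  show ‖v‖ * Real.exp (G c 0) < 1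
  have := Real.exp_pos (G c 0)
  nlinarith

lemma norm_lt_one_of_Om {c u : ℂ} (h : (c, u) ∈ Om) : ‖u‖ < 1 := by
  have h' : ‖u‖ * Real.exp (G c 0) < 1 := h
  have h1 : (1 : ℝ) ≤ Real.exp (G c 0) := Real.one_le_exp (G_nonneg c 0)
  nlinarith [norm_nonneg u]

lemma Om_sq {c u : ℂ} (h : (c, u) ∈ Om) : (c, u ^ 2) ∈ Om := by
  apply Om_smaller h
  rw [norm_pow]
  nlinarith [norm_nonneg u, norm_lt_one_of_Om h]

lemma G_zero_le (c : ℂ) : G c 0 ≤ Real.log (1 + ‖c‖) := by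
  have := (abs_le.1 (abs_G_sub_posLog c 0)).2
  simpa using this

lemma Near.mem_Om {c u : ℂ} (h : Near c u) : (c, u) ∈ Om := by
  show ‖u‖ * Real.exp (G c 0) < 1
  have h1 : Real.exp (G c 0) ≤ 1 + ‖c‖ := by
    have := Real.exp_le_exp.2 (G_zero_le c)
    rwa [Real.exp_log (by linarith [norm_nonneg c])] at this
  unfold Near at h
  nlinarith [norm_nonneg c, norm_nonneg u]

/-- the regions exhausting `Om` -/
def An (n : ℕ) : Set (ℂ × ℂ) := {p | p ∈ Om ∧ Near p.1 (p.2 ^ 2 ^ n)}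

lemma isOpen_An (n : ℕ) : IsOpen (An n) := by
  have h1 : Continuous fun p : ℂ × ℂ => ((p.1, p.2 ^ 2 ^ n) : ℂ × ℂ) := by fun_prop
  exact isOpen_Om.inter (isOpen_Near.preimage h1)

lemma mem_An_zero {c u : ℂ} : (c, u) ∈ An 0 ↔ Near c u := by
  constructor
  · intro h; have := h.2; simpa using this
  · intro h; exact ⟨h.mem_Om, by simpa using h⟩

lemma An_smaller {n : ℕ} {c u v : ℂ} (h : (c, u) ∈ An n) (hv : ‖v‖ ≤ ‖u‖) : (c, v) ∈ An n := by
  refine ⟨Om_smaller h.1 hv, Near.mono h.2 ?_⟩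
  simp only [norm_pow]
  gcongr

lemma An_sq {n : ℕ} {c u : ℂ} (h : (c, u) ∈ An (n + 1)) : (c, u ^ 2) ∈ An n := by
  refine ⟨Om_sq h.1, ?_⟩
  have h2 : Near c (u ^ 2 ^ (n + 1)) := h.2
  have e : (u ^ 2) ^ 2 ^ n = u ^ 2 ^ (n + 1) := by rw [← pow_mul, pow_succ]; ring_nf
  show Near c ((u ^ 2) ^ 2 ^ n)
  rwa [e]

lemma An_sq' {n : ℕ} {c u : ℂ} (h : (c, u) ∈ An n) : (c, u ^ 2) ∈ An n := by
  apply An_smaller h
  rw [norm_pow]
  nlinarith [norm_nonneg u, norm_lt_one_of_Om h.1]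

lemma An_succ {n : ℕ} {p : ℂ × ℂ} (h : p ∈ An n) : p ∈ An (n + 1) := by
  refine ⟨h.1, ?_⟩
  have h2 := Near.sq h.2
  rwa [← pow_mul, ← pow_succ] at h2

lemma An_mono {n m : ℕ} (hnm : n ≤ m) {p : ℂ × ℂ} (h : p ∈ An n) : p ∈ An m := by
  induction m, hnm using Nat.le_induction with
  | base => exact h
  | succ m _ ih => exact An_succ ih

lemma exists_mem_An {p : ℂ × ℂ} (h : p ∈ Om) : ∃ n, p ∈ An n := by
  have h1 : ‖p.2‖ < 1 := norm_lt_one_of_Om (c := p.1) (u := p.2) h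
  have h2 : Tendsto (fun n : ℕ => ‖p.2‖ ^ 2 ^ n * (4 * (‖p.1‖ + 2))) atTop (𝓝 0) := by
    have h3 : Tendsto (fun n : ℕ => ‖p.2‖ ^ 2 ^ n) atTop (𝓝 0) :=
      (tendsto_pow_atTop_nhds_zero_of_lt_one (norm_nonneg _) h1).comp
        (tendsto_pow_atTop_atTop_of_one_lt (by norm_num : (1 : ℕ) < 2))
    simpa using h3.mul_const (4 * (‖p.1‖ + 2))
  obtain ⟨n, hn⟩ := (h2.eventually (gt_mem_nhds one_pos)).exists
  refine ⟨n, h, ?_⟩
  unfold Near
  rwa [norm_pow]

/-- a solution of the functional equation on `An n` -/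
structure Good (n : ℕ) (E : ℂ × ℂ → ℂ) : Prop where
  cont : ContinuousOn E (An n)
  eqn : ∀ c u : ℂ, (c, u) ∈ An n → E (c, u) ^ 2 = E (c, u ^ 2) - c * u ^ 2
  base : ∀ c u : ℂ, Near c u → E (c, u) = Eb c u

namespace Good

variable {n : ℕ} {E : ℂ × ℂ → ℂ}

lemma mono {m : ℕ} (h : Good n E) (hm : m ≤ n) : Good m E :=
  ⟨h.cont.mono fun _ hp => An_mono hm hp, fun c u hu => h.eqn c u (An_mono hm hu), h.base⟩

lemma at_zero (h : Good n E) (c : ℂ) : E (c, 0) = 1 := by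
  rw [h.base c 0 (by unfold Near; simp), Eb_at_zero]

lemma G_eq (h : Good n E) : ∀ m ≤ n, ∀ c u : ℂ, (c, u) ∈ An m → u ≠ 0 →
    G c (E (c, u) / u) = - Real.log ‖u‖ := by
  intro m
  induction m with
  | zero =>
    intro _ c u hu h0
    rw [mem_An_zero] at hu
    have h1 := G_psib (c := c) (w := u⁻¹) (by rwa [inv_inv]) (inv_ne_zero h0)
    rw [inv_inv, norm_inv, Real.log_inv] at h1
    rw [h.base c u hu, div_eq_inv_mul, h1]
  | succ m ih =>
    intro hm c u hu h0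
    have h1 := ih (by omega) c (u ^ 2) (An_sq hu) (pow_ne_zero 2 h0)
    have h2 := h.eqn c u (An_mono hm hu)
    have h3 : f c (E (c, u) / u) = E (c, u ^ 2) / u ^ 2 := by
      unfold f; rw [div_pow, h2]; field_simp; ring
    have h4 := G_f c (E (c, u) / u)
    rw [h3, h1, norm_pow, Real.log_pow] at h4
    push_cast at h4
    linarith

lemma G_eq' (h : Good n E) {c u : ℂ} (hu : (c, u) ∈ An n) (h0 : u ≠ 0) :
    G c (E (c, u) / u) = - Real.log ‖u‖ := h.G_eq n le_rfl c u hu h0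

/-- the right side of the functional equation does not vanish -/
lemma rhs_ne (h : Good n E) {c v : ℂ} (hv : (c, v) ∈ Om) (hv2 : (c, v ^ 2) ∈ An n) :
    E (c, v ^ 2) - c * v ^ 2 ≠ 0 := by
  intro h0
  by_cases hv0 : v = 0
  · rw [hv0] at h0
    norm_num [h.at_zero] at h0
  · have h1 := h.G_eq' hv2 (pow_ne_zero 2 hv0)
    have h2 : E (c, v ^ 2) / v ^ 2 = c := by
      rw [sub_eq_zero.1 h0]; field_simp
    have h3 := G_f c 0
    have h4 : f c 0 = c := by simp [f]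
    rw [h4] at h3
    rw [h2, h3, norm_pow, Real.log_pow] at h1
    push_cast at h1
    have h5 : ‖v‖ * Real.exp (G c 0) < 1 := hv
    have h6 : G c 0 = - Real.log ‖v‖ := by linarith
    rw [h6, Real.exp_neg, Real.exp_log (norm_pos_iff.2 hv0),
      mul_inv_cancel₀ (norm_ne_zero_iff.2 hv0)] at h5
    exact lt_irrefl _ h5

lemma ne_zero (h : Good n E) {c u : ℂ} (hu : (c, u) ∈ An n) : E (c, u) ≠ 0 := by
  intro h0
  have h1 := h.eqn c u hu
  rw [h0] at h1
  exact h.rhs_ne hu.1 (An_sq' hu) (by rw [← h1]; norm_num)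

end Good

/-- lifting a homotopy through the squaring map -/
lemma sqrt_lift {A : Type*} [TopologicalSpace A] (q : C(I × A, {z : ℂ // z ≠ 0}))
    (r : C(A, {z : ℂ // z ≠ 0})) (h0 : ∀ a, (q (0, a) : ℂ) = (r a : ℂ) ^ 2) :
    ∃ x : C(I × A, {z : ℂ // z ≠ 0}), (∀ p, (x p : ℂ) ^ 2 = q p) ∧ ∀ a, x (0, a) = r a := by
  have cov := isCoveringMap_npow (𝕜 := ℂ) 2 (by norm_num)
  have H0 : ∀ a, q (0, a) = (fun x : {x : ℂ // x ≠ 0} ↦
      (⟨x ^ 2, pow_ne_zero 2 x.2⟩ : {x : ℂ // x ≠ 0})) (r a) := by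
    intro a
    apply Subtype.ext
    exact h0 a
  refine ⟨cov.liftHomotopy q r H0, fun p => ?_, fun a => cov.liftHomotopy_zero q r H0 a⟩
  have := congr_fun (cov.liftHomotopy_lifts q r H0) p
  exact congr_arg Subtype.val this

lemma norm_ofReal_mul_le {s : ℝ} (hs : s ∈ I) (u : ℂ) : ‖(s : ℂ) * u‖ ≤ ‖u‖ := by
  rw [norm_mul, Complex.norm_real, Real.norm_of_nonneg hs.1]
  nlinarith [norm_nonneg u, hs.2]

/-- comparison of two continuous square roots along rays -/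
lemma eq_of_ray {g₁ g₂ : ℝ → ℂ} (h1 : ContinuousOn g₁ (Icc 0 1)) (h2 : ContinuousOn g₂ (Icc 0 1))
    (hsq : ∀ s ∈ Icc (0 : ℝ) 1, g₁ s ^ 2 = g₂ s ^ 2) (hne : ∀ s ∈ Icc (0 : ℝ) 1, g₂ s ≠ 0)
    (h0 : g₁ 0 = g₂ 0) : g₁ 1 = g₂ 1 := by
  have h3 : IsPreconnected (Icc (0 : ℝ) 1) := isPreconnected_Icc
  exact h3.eq_of_sq_eq h1 h2 (fun s hs => hsq s hs) (fun {s} hs => hne s hs)
    (y := 0) (by simp) h0 (by simp)

lemma continuousOn_ray {E : ℂ × ℂ → ℂ} {n : ℕ} (hE : ContinuousOn E (An n)) {c u : ℂ}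
    (hu : (c, u) ∈ An n) : ContinuousOn (fun s : ℝ => E (c, (s : ℂ) * u)) (Icc 0 1) := by
  have h1 : ContinuousOn (fun s : ℝ => ((c, (s : ℂ) * u) : ℂ × ℂ)) (Icc 0 1) := by fun_prop
  exact hE.comp h1 fun s hs => An_smaller hu (norm_ofReal_mul_le hs u)

theorem Good.step {n : ℕ} {E : ℂ × ℂ → ℂ} (h : Good n E) : ∃ E', Good (n + 1) E' := by
  classical
  have hmem : ∀ (s : I) (p : An (n + 1)), (p.1.1, ((s : ℝ) : ℂ) * p.1.2) ∈ An (n + 1) :=
    fun s p => An_smaller (u := p.1.2) p.2 (norm_ofReal_mul_le s.2 _)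
  have hmem2 : ∀ (s : I) (p : An (n + 1)), (p.1.1, (((s : ℝ) : ℂ) * p.1.2) ^ 2) ∈ An n :=
    fun s p => An_sq (hmem s p)
  have hne : ∀ q : I × An (n + 1), E (q.2.1.1, (((q.1 : ℝ) : ℂ) * q.2.1.2) ^ 2) -
      q.2.1.1 * (((q.1 : ℝ) : ℂ) * q.2.1.2) ^ 2 ≠ 0 := fun q =>
    h.rhs_ne (hmem q.1 q.2).1 (hmem2 q.1 q.2)
  have hcont : Continuous fun q : I × An (n + 1) =>
      E (q.2.1.1, (((q.1 : ℝ) : ℂ) * q.2.1.2) ^ 2) := by
    have h1 : Continuous fun q : I × An (n + 1) =>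
      ((q.2.1.1, (((q.1 : ℝ) : ℂ) * q.2.1.2) ^ 2) : ℂ × ℂ) := by fun_prop
    exact h.cont.comp_continuous h1 fun q => hmem2 q.1 q.2
  obtain ⟨x, hx, hx0⟩ := sqrt_lift (A := An (n + 1))
    (⟨fun q => ⟨_, hne q⟩, by
      apply Continuous.subtype_mk
      exact hcont.sub (by fun_prop)⟩ : C(I × (An (n + 1)), {z : ℂ // z ≠ 0}))
    (⟨fun _ => ⟨1, one_ne_zero⟩, continuous_const⟩ : C(An (n + 1), {z : ℂ // z ≠ 0}))
    (by
      intro a
      simp only [ContinuousMap.coe_mk, Icc.coe_zero, Complex.ofReal_zero, zero_mul]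
      norm_num [h.at_zero])
  set E' : ℂ × ℂ → ℂ := fun p => if hp : p ∈ An (n + 1) then (x (1, ⟨p, hp⟩) : ℂ) else 0 with hE'
  have hE'1 : ∀ p (hp : p ∈ An (n + 1)), E' p = x (1, ⟨p, hp⟩) := by
    intro p hp; simp only [hE', hp, dif_pos]
  -- agreement with `E` on `An n`
  have hag : ∀ c u : ℂ, (c, u) ∈ An n → E' (c, u) = E (c, u) := by
    intro c u hu
    have hu' := An_succ hu
    rw [hE'1 _ hu']
    have hg1 : ContinuousOn (fun s : ℝ => (x (projIcc 0 1 zero_le_one s, ⟨(c, u), hu'⟩) : ℂ))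
        (Icc 0 1) := by
      apply Continuous.continuousOn
      fun_prop
    have hg2 := continuousOn_ray h.cont hu
    have key := eq_of_ray hg1 hg2 ?_ ?_ ?_
    · simpa using key
    · intro s hs
      have e1 : (projIcc (0 : ℝ) 1 zero_le_one s : ℝ) = s := by
        rw [projIcc_of_mem zero_le_one hs]
      have e2 := hx (projIcc 0 1 zero_le_one s, ⟨(c, u), hu'⟩)
      simp only [ContinuousMap.coe_mk, e1] at e2
      rw [e2, h.eqn c _ (An_smaller hu (norm_ofReal_mul_le hs u))]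
    · intro s hs
      exact h.ne_zero (An_smaller hu (norm_ofReal_mul_le hs u))
    · have e3 : projIcc (0 : ℝ) 1 zero_le_one 0 = 0 := by
        rw [projIcc_of_mem zero_le_one (by simp)]; rfl
      simp only [e3]
      rw [hx0]
      simp [h.at_zero]
  refine ⟨E', ⟨?_, ?_, ?_⟩⟩
  · rw [continuousOn_iff_continuous_domRestrict]
    have : (An (n + 1)).domRestrict E' = fun p : An (n + 1) => (x (1, p) : ℂ) := by
      funext p
      rw [Set.domRestrict_apply, hE'1 _ p.2]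
    rw [this]
    fun_prop
  · intro c u hu
    rw [hE'1 _ hu, hag c (u ^ 2) (An_sq hu)]
    have e2 := hx (1, ⟨(c, u), hu⟩)
    simp only [ContinuousMap.coe_mk, Icc.coe_one, Complex.ofReal_one, one_mul] at e2
    exact e2
  · intro c u hu
    have hu0 : (c, u) ∈ An n := An_mono (Nat.zero_le n) (mem_An_zero.2 hu)
    rw [hag c u hu0, h.base c u hu]

lemma good_zero : Good 0 (fun p => Eb p.1 p.2) := by
  refine ⟨?_, ?_, fun c u _ => rfl⟩
  · exact continuousOn_Eb.mono fun p hp => mem_An_zero.1 hp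
  · intro c u hu
    exact Eb_sq (mem_An_zero.1 hu)

lemma exists_good (n : ℕ) : ∃ E, Good n E := by
  induction n with
  | zero => exact ⟨_, good_zero⟩
  | succ n ih => obtain ⟨E, hE⟩ := ih; exact hE.step

lemma Good.unique {n : ℕ} {E E' : ℂ × ℂ → ℂ} (h : Good n E) (h' : Good n E') :
    ∀ m ≤ n, ∀ c u : ℂ, (c, u) ∈ An m → E (c, u) = E' (c, u) := by
  intro m
  induction m with
  | zero =>
    intro _ c u hu
    rw [mem_An_zero] at hu
    rw [h.base c u hu, h'.base c u hu]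
  | succ m ih =>
    intro hm c u hu
    have hu' := An_mono hm hu
    have key := eq_of_ray (continuousOn_ray h.cont hu') (continuousOn_ray h'.cont hu') ?_ ?_ ?_
    · simpa using key
    · intro s hs
      have h1 := An_smaller hu (norm_ofReal_mul_le hs u)
      rw [h.eqn _ _ (An_mono hm h1), h'.eqn _ _ (An_mono hm h1), ih (by omega) c _ (An_sq h1)]
    · intro s hs
      exact h'.ne_zero (An_smaller hu' (norm_ofReal_mul_le hs u))
    · simp [h.at_zero, h'.at_zero]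

/-- existence of the continuous function `E` on `Om` with `psi c w = w * E (c, 1 / w)` -/
theorem exists_E : ∃ E : ℂ × ℂ → ℂ, ∀ n, Good n E := by
  classical
  choose Es hEs using exists_good
  set E : ℂ × ℂ → ℂ := fun p => if hp : p ∈ Om then Es (Nat.find (exists_mem_An hp)) p else 0
    with hE
  have hEn : ∀ n p, p ∈ An n → E p = Es n p := by
    intro n p hp
    have hOm : p ∈ Om := hp.1
    have h1 : E p = Es (Nat.find (exists_mem_An hOm)) p := by simp only [hE, hOm, dif_pos]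
    rw [h1]
    have h2 := Nat.find_spec (exists_mem_An hOm)
    have h3 : Nat.find (exists_mem_An hOm) ≤ n := Nat.find_min' _ hp
    exact (hEs _).unique ((hEs n).mono h3) _ le_rfl p.1 p.2 h2
  refine ⟨E, fun n => ⟨?_, ?_, ?_⟩⟩
  · exact (hEs n).cont.congr fun p hp => hEn n p hp
  · intro c u hu
    rw [hEn n _ hu, hEn n _ (An_sq' hu)]
    exact (hEs n).eqn c u hu
  · intro c u hu
    rw [hEn 0 _ (mem_An_zero.2 hu)]
    exact (hEs 0).base c u hu

/-- the function `E` -/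
noncomputable def Ef : ℂ × ℂ → ℂ := exists_E.choose

lemma good_Ef (n : ℕ) : Good n Ef := exists_E.choose_spec n

lemma continuousOn_Ef : ContinuousOn Ef Om := by
  intro p hp
  obtain ⟨n, hn⟩ := exists_mem_An hp
  exact ((good_Ef n).cont.continuousAt ((isOpen_An n).mem_nhds hn)).continuousWithinAt

lemma Ef_ne_zero {c u : ℂ} (h : (c, u) ∈ Om) : Ef (c, u) ≠ 0 := by
  obtain ⟨n, hn⟩ := exists_mem_An h
  exact (good_Ef n).ne_zero hn

lemma Ef_sq {c u : ℂ} (h : (c, u) ∈ Om) : Ef (c, u) ^ 2 = Ef (c, u ^ 2) - c * u ^ 2 := by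
  obtain ⟨n, hn⟩ := exists_mem_An h
  exact (good_Ef n).eqn c u hn

lemma Ef_near {c u : ℂ} (h : Near c u) : Ef (c, u) = Eb c u := (good_Ef 0).base c u h

@[simp] lemma Ef_at_zero (c : ℂ) : Ef (c, 0) = 1 := (good_Ef 0).at_zero c

lemma G_Ef {c u : ℂ} (h : (c, u) ∈ Om) (h0 : u ≠ 0) : G c (Ef (c, u) / u) = - Real.log ‖u‖ := by
  obtain ⟨n, hn⟩ := exists_mem_An h
  exact (good_Ef n).G_eq' hn h0

lemma Ef_neg {c u : ℂ} (h : (c, u) ∈ Om) : Ef (c, -u) = Ef (c, u) := by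
  obtain ⟨n, hn⟩ := exists_mem_An h
  have hn' : (c, -u) ∈ An n := An_smaller hn (by rw [norm_neg])
  have key := eq_of_ray (continuousOn_ray (good_Ef n).cont hn')
    (continuousOn_ray (good_Ef n).cont hn) ?_ ?_ ?_
  · simpa using key
  · intro s hs
    rw [(good_Ef n).eqn _ _ (An_smaller hn' (norm_ofReal_mul_le hs _)),
      (good_Ef n).eqn _ _ (An_smaller hn (norm_ofReal_mul_le hs _)), mul_neg, neg_sq]
  · intro s hs
    exact (good_Ef n).ne_zero (An_smaller hn (norm_ofReal_mul_le hs u))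
  · simp

end Pool.Agent.Work.MLC
end

section
set_option autoImplicit false

/-! # The inverse Boettcher coordinate on `{G c z > G c 0}`  (helper56)

`psi c w` is defined for `Real.exp (G c 0) < ‖w‖`, `eta c L = psi c (exp L)` for `G c 0 < re L`. -/

namespace Pool.Agent.Work.MLC

open Filter Topology Metric Set

/-- the inverse Boettcher coordinate -/
noncomputable def psi (c w : ℂ) : ℂ := w * Ef (c, w⁻¹)

/-- the inverse Boettcher coordinate in the logarithmic coordinate -/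
noncomputable def eta (c L : ℂ) : ℂ := psi c (Complex.exp L)

/-! ### the coordinate `w` -/

section psi

variable {c w : ℂ}

lemma ne_zero_of_dom (h : Real.exp (G c 0) < ‖w‖) : w ≠ 0 := by
  intro h0; rw [h0, norm_zero] at h; linarith [Real.exp_pos (G c 0)]

lemma mem_Om_of_dom (h : Real.exp (G c 0) < ‖w‖) : (c, w⁻¹) ∈ Om := by
  show ‖w⁻¹‖ * Real.exp (G c 0) < 1
  have h0 : 0 < ‖w‖ := norm_pos_iff.2 (ne_zero_of_dom h)
  rw [norm_inv, inv_mul_lt_iff₀ h0, mul_one]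
  exact h

lemma one_lt_of_dom (h : Real.exp (G c 0) < ‖w‖) : 1 < ‖w‖ :=
  (Real.one_le_exp (G_nonneg c 0)).trans_lt h

lemma dom_sq (h : Real.exp (G c 0) < ‖w‖) : Real.exp (G c 0) < ‖w ^ 2‖ := by
  rw [norm_pow]; nlinarith [one_lt_of_dom h]

lemma dom_pow (h : Real.exp (G c 0) < ‖w‖) (n : ℕ) : Real.exp (G c 0) < ‖w ^ 2 ^ n‖ := by
  rw [norm_pow]
  exact h.trans_le (le_self_pow₀ (one_lt_of_dom h).le (by positivity))

theorem G_psi (h : Real.exp (G c 0) < ‖w‖) : G c (psi c w) = Real.log ‖w‖ := by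
  have h0 := ne_zero_of_dom h
  have h1 := G_Ef (mem_Om_of_dom h) (inv_ne_zero h0)
  have h2 : psi c w = Ef (c, w⁻¹) / w⁻¹ := by
    unfold psi; field_simp
  rw [h2, h1, norm_inv, Real.log_inv, neg_neg]

theorem f_psi (h : Real.exp (G c 0) < ‖w‖) : f c (psi c w) = psi c (w ^ 2) := by
  have h0 := ne_zero_of_dom h
  have h1 := Ef_sq (mem_Om_of_dom h)
  unfold f psi
  rw [mul_pow, h1, inv_pow]
  field_simp
  ring

theorem it_psi (h : Real.exp (G c 0) < ‖w‖) (n : ℕ) :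
    it c n (psi c w) = psi c (w ^ 2 ^ n) := by
  induction n with
  | zero => simp
  | succ n ih => rw [it_succ, ih, f_psi (dom_pow h n), ← pow_mul, ← pow_succ]

theorem psi_neg (h : Real.exp (G c 0) < ‖w‖) : psi c (-w) = - psi c w := by
  unfold psi
  rw [inv_neg, Ef_neg (mem_Om_of_dom h)]; ring

lemma psi_ne_zero (h : Real.exp (G c 0) < ‖w‖) : psi c w ≠ 0 :=
  mul_ne_zero (ne_zero_of_dom h) (Ef_ne_zero (mem_Om_of_dom h))

lemma psi_near (h : Near c w⁻¹) : psi c w = w * Eb c w⁻¹ := by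
  unfold psi; rw [Ef_near h]

/-- the powers `w ^ 2 ^ n` reach the region near infinity -/
lemma eventually_near_pow (h : Real.exp (G c 0) < ‖w‖) : ∀ᶠ n : ℕ in atTop,
    Near c (w ^ 2 ^ n)⁻¹ := by
  obtain ⟨n, hn⟩ := exists_mem_An (mem_Om_of_dom h)
  filter_upwards [eventually_ge_atTop n] with m hm
  have := (An_mono hm hn).2
  rwa [inv_pow] at this

lemma bo_it_psi (h : Real.exp (G c 0) < ‖w‖) {n : ℕ} (hn : Near c (w ^ 2 ^ n)⁻¹) :
    bo c (it c n (psi c w)) = w ^ 2 ^ n := by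
  rw [it_psi h, psi_near hn, bo_psib hn (pow_ne_zero _ (ne_zero_of_dom h))]

theorem psi_inj {w' : ℂ} (h : Real.exp (G c 0) < ‖w‖) (h' : Real.exp (G c 0) < ‖w'‖)
    (he : psi c w = psi c w') : w = w' := by
  have key : ∀ n : ℕ, ∀ w w' : ℂ, Real.exp (G c 0) < ‖w‖ → Real.exp (G c 0) < ‖w'‖ →
      psi c w = psi c w' → w ^ 2 ^ n = w' ^ 2 ^ n → w = w' := by
    intro n
    induction n with
    | zero => intro w w' _ _ _ h; simpa using h
    | succ n ih =>
      intro w w' h h' he hp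
      have h1 : psi c (w ^ 2) = psi c (w' ^ 2) := by rw [← f_psi h, ← f_psi h', he]
      have h2 : (w ^ 2) ^ 2 ^ n = (w' ^ 2) ^ 2 ^ n := by
        rw [← pow_mul, ← pow_mul, ← pow_succ']; exact hp
      have h3 := ih _ _ (dom_sq h) (dom_sq h') h1 h2
      rcases sq_eq_sq_iff_eq_or_eq_neg.1 h3 with h4 | h4
      · exact h4
      · exfalso
        rw [h4, psi_neg h'] at he
        have : psi c w' = 0 := by
          have h5 : psi c w' + psi c w' = 0 := by nth_rewrite 1 [← he]; ring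
          have h6 : (2 : ℂ) * psi c w' = 0 := by rw [two_mul]; exact h5
          simpa using h6
        exact psi_ne_zero h' this
  obtain ⟨n, hn, hn'⟩ := ((eventually_near_pow h).and (eventually_near_pow h')).exists
  refine key n w w' h h' he ?_
  rw [← bo_it_psi h hn, ← bo_it_psi h' hn', he]

theorem psi_surj {z : ℂ} (h : G c 0 < G c z) :
    ∃ w : ℂ, ‖w‖ = Real.exp (G c z) ∧ psi c w = z := by
  have key : ∀ n : ℕ, ∀ z : ℂ, G c 0 < G c z →
      (∃ w : ℂ, ‖w‖ = Real.exp (2 ^ n * G c z) ∧ psi c w = it c n z) →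
      ∃ w : ℂ, ‖w‖ = Real.exp (G c z) ∧ psi c w = z := by
    intro n
    induction n with
    | zero => intro z _ h; simpa using h
    | succ n ih =>
      intro z hz hw
      have h1 : G c 0 < G c (f c z) := by rw [G_f]; linarith [G_nonneg c z]
      obtain ⟨w', hw', hw'2⟩ := ih (f c z) h1 (by
        obtain ⟨w, hw1, hw2⟩ := hw
        refine ⟨w, ?_, ?_⟩
        · rw [hw1, G_f, pow_succ]; ring_nf
        · rw [hw2, it_succ'])
      rw [G_f] at hw'
      obtain ⟨w, hw⟩ : ∃ w : ℂ, w ^ 2 = w' := IsAlgClosed.exists_pow_nat_eq w' (by norm_num)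
      have hn : ‖w‖ = Real.exp (G c z) := by
        have h2 : ‖w‖ ^ 2 = Real.exp (G c z) ^ 2 := by
          rw [← norm_pow, hw, hw', ← Real.exp_nat_mul]; push_cast; rfl
        exact (pow_left_inj₀ (norm_nonneg _) (Real.exp_pos _).le two_ne_zero).1 h2
      have hd : Real.exp (G c 0) < ‖w‖ := by rw [hn]; exact Real.exp_lt_exp.2 hz
      have h3 := f_psi hd
      rw [hw, hw'2] at h3
      unfold f at h3
      have h4 : psi c w ^ 2 = z ^ 2 := add_right_cancel h3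
      rcases sq_eq_sq_iff_eq_or_eq_neg.1 h4 with h5 | h5
      · exact ⟨w, hn, h5⟩
      · refine ⟨-w, by rw [norm_neg, hn], ?_⟩
        rw [psi_neg hd, h5, neg_neg]
  have hpos : 0 < G c z := (G_nonneg c 0).trans_lt h
  obtain ⟨n, hn⟩ := ((tendsto_it_of_G_pos hpos).eventually_gt_atTop (8 * (‖c‖ + 2))).exists
  refine key n z h ⟨bo c (it c n z), ?_, ?_⟩
  · have hF : Far c (it c n z) := by unfold Far; linarith [norm_nonneg c]
    rw [norm_bo hF, G_it]
  · have hF : Far c (it c n z) := by unfold Far; linarith [norm_nonneg c]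
    have h1 := le_norm_bo hF
    have h0 := bo_ne_zero hF
    have hN : Near c (bo c (it c n z))⁻¹ := by
      unfold Near
      rw [norm_inv, inv_mul_lt_iff₀ (norm_pos_iff.2 h0), mul_one]
      linarith [norm_nonneg c]
    rw [psi_near hN, psib_bo hn]

end psi

lemma isOpen_dom : IsOpen {p : ℂ × ℂ | Real.exp (G p.1 0) < ‖p.2‖} := by
  have h1 : Continuous fun p : ℂ × ℂ => G p.1 0 := by
    have h2 : Continuous fun p : ℂ × ℂ => ((p.1, 0) : ℂ × ℂ) := by fun_prop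
    have h3 : Continuous ((fun p : ℂ × ℂ => G p.1 p.2) ∘ fun p : ℂ × ℂ => ((p.1, 0) : ℂ × ℂ)) :=
      Continuous.comp continuous_G h2
    exact h3
  exact isOpen_lt (by fun_prop) (by fun_prop)

theorem continuousOn_psi :
    ContinuousOn (fun p : ℂ × ℂ => psi p.1 p.2) {p | Real.exp (G p.1 0) < ‖p.2‖} := by
  unfold psi
  have h1 : ContinuousOn (fun p : ℂ × ℂ => ((p.1, p.2⁻¹) : ℂ × ℂ))
      {p | Real.exp (G p.1 0) < ‖p.2‖} :=
    continuousOn_fst.prodMk (continuousOn_snd.inv₀ fun p hp => ne_zero_of_dom hp)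
  exact continuousOn_snd.mul (continuousOn_Ef.comp h1 fun p hp => mem_Om_of_dom hp)

/-- a continuous square root of a holomorphic function without zeros is holomorphic -/
lemma differentiableAt_of_sq {h : ℂ → ℂ} {t₀ : ℂ} (hc : ContinuousAt h t₀) (h0 : h t₀ ≠ 0)
    (hd : DifferentiableAt ℂ (fun t => h t ^ 2) t₀) : DifferentiableAt ℂ h t₀ := by
  have h1 := hd.hasDerivAt
  rw [hasDerivAt_iff_tendsto_slope] at h1
  have h2 : Tendsto (fun t => h t + h t₀) (𝓝[≠] t₀) (𝓝 (h t₀ + h t₀)) :=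
    (hc.tendsto.add_const _).mono_left nhdsWithin_le_nhds
  have h3 : h t₀ + h t₀ ≠ 0 := by rw [← two_mul]; exact mul_ne_zero two_ne_zero h0
  have h4 := h1.div h2 h3
  have h5 : HasDerivAt h (deriv (fun t => h t ^ 2) t₀ / (h t₀ + h t₀)) t₀ := by
    rw [hasDerivAt_iff_tendsto_slope]
    refine h4.congr' ?_
    filter_upwards [h2.eventually_ne h3, self_mem_nhdsWithin] with t ht ht'
    have ht'' : t - t₀ ≠ 0 := sub_ne_zero.2 ht'
    simp only [Pi.div_apply, slope_def_field]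
    field_simp
    ring
  exact h5.differentiableAt

lemma differentiableOn_of_sq {h : ℂ → ℂ} {U : Set ℂ} (hU : IsOpen U) (hc : ContinuousOn h U)
    (h0 : ∀ t ∈ U, h t ≠ 0) (hd : DifferentiableOn ℂ (fun t => h t ^ 2) U) :
    DifferentiableOn ℂ h U := fun t ht =>
  (differentiableAt_of_sq (hc.continuousAt (hU.mem_nhds ht)) (h0 t ht)
    (hd.differentiableAt (hU.mem_nhds ht))).differentiableWithinAt

lemma differentiableOn_of_pow {h : ℂ → ℂ} {U : Set ℂ} (hU : IsOpen U) (hc : ContinuousOn h U)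
    (h0 : ∀ t ∈ U, h t ≠ 0) (n : ℕ) (hd : DifferentiableOn ℂ (fun t => h t ^ 2 ^ n) U) :
    DifferentiableOn ℂ h U := by
  induction n with
  | zero => simpa using hd
  | succ n ih =>
    refine ih (differentiableOn_of_sq hU (hc.pow _) (fun t ht => pow_ne_zero _ (h0 t ht)) ?_)
    refine hd.congr fun t _ => ?_
    show (h t ^ 2 ^ n) ^ 2 = h t ^ 2 ^ (n + 1)
    rw [← pow_mul, pow_succ]

/-- `Ef` is holomorphic along holomorphic curves -/
theorem differentiableOn_Ef {U : Set ℂ} (hU : IsOpen U) {γ δ : ℂ → ℂ}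
    (hγ : DifferentiableOn ℂ γ U) (hδ : DifferentiableOn ℂ δ U)
    (h : ∀ t ∈ U, (γ t, δ t) ∈ Om) : DifferentiableOn ℂ (fun t => Ef (γ t, δ t)) U := by
  have key : ∀ n : ℕ, ∀ (U : Set ℂ) (γ δ : ℂ → ℂ), IsOpen U → DifferentiableOn ℂ γ U →
      DifferentiableOn ℂ δ U → (∀ t ∈ U, (γ t, δ t) ∈ An n) →
      DifferentiableOn ℂ (fun t => Ef (γ t, δ t)) U := by
    intro n
    induction n with
    | zero =>
      intro U γ δ hU hγ hδ h
      refine (differentiableOn_Eb hU hγ hδ fun t ht => mem_An_zero.1 (h t ht)).congr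
        fun t ht => ?_
      exact Ef_near (mem_An_zero.1 (h t ht))
    | succ n ih =>
      intro U γ δ hU hγ hδ h
      have h1 : ContinuousOn (fun t => ((γ t, δ t) : ℂ × ℂ)) U :=
        hγ.continuousOn.prodMk hδ.continuousOn
      have h2 : ContinuousOn (fun t => Ef (γ t, δ t)) U :=
        continuousOn_Ef.comp h1 fun t ht => (h t ht).1
      refine differentiableOn_of_sq hU h2 (fun t ht => Ef_ne_zero (h t ht).1) ?_
      have h3 := (ih U γ (fun t => δ t ^ 2) hU hγ (hδ.pow 2) fun t ht => An_sq (h t ht)).sub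
        (hγ.mul (hδ.pow 2))
      exact h3.congr fun t ht => Ef_sq (h t ht).1
  intro t₀ ht₀
  obtain ⟨n, hn⟩ := exists_mem_An (h t₀ ht₀)
  have h1 : ContinuousOn (fun t => ((γ t, δ t) : ℂ × ℂ)) U :=
    hγ.continuousOn.prodMk hδ.continuousOn
  have hV : IsOpen (U ∩ (fun t => ((γ t, δ t) : ℂ × ℂ)) ⁻¹' An n) :=
    h1.isOpen_inter_preimage hU (isOpen_An n)
  have h2 := key n _ γ δ hV (hγ.mono inter_subset_left) (hδ.mono inter_subset_left)
    fun t ht => ht.2
  exact (h2.differentiableAt (hV.mem_nhds ⟨ht₀, hn⟩)).differentiableWithinAt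

/-- `psi` is holomorphic along holomorphic curves -/
theorem differentiableOn_psi {U : Set ℂ} (hU : IsOpen U) {γ δ : ℂ → ℂ}
    (hγ : DifferentiableOn ℂ γ U) (hδ : DifferentiableOn ℂ δ U)
    (h : ∀ t ∈ U, Real.exp (G (γ t) 0) < ‖δ t‖) :
    DifferentiableOn ℂ (fun t => psi (γ t) (δ t)) U := by
  unfold psi
  have h1 : DifferentiableOn ℂ (fun t => (δ t)⁻¹) U := hδ.inv fun t ht => ne_zero_of_dom (h t ht)
  exact hδ.mul (differentiableOn_Ef hU hγ h1 fun t ht => mem_Om_of_dom (h t ht))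

/-! ### the coordinate `L` -/

lemma dom_exp {c L : ℂ} (h : G c 0 < L.re) : Real.exp (G c 0) < ‖Complex.exp L‖ := by
  rw [Complex.norm_exp]; exact Real.exp_lt_exp.2 h

theorem G_eta {c L : ℂ} (h : G c 0 < L.re) : G c (eta c L) = L.re := by
  unfold eta
  rw [G_psi (dom_exp h), Complex.norm_exp, Real.log_exp]

theorem f_eta {c L : ℂ} (h : G c 0 < L.re) : f c (eta c L) = eta c (2 * L) := by
  unfold eta
  rw [f_psi (dom_exp h), ← Complex.exp_nat_mul]
  push_cast; rfl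

theorem it_eta {c L : ℂ} (h : G c 0 < L.re) (n : ℕ) : it c n (eta c L) = eta c (2 ^ n * L) := by
  unfold eta
  rw [it_psi (dom_exp h), ← Complex.exp_nat_mul]
  push_cast; rfl

theorem eta_add_two_pi (c L : ℂ) : eta c (L + 2 * Real.pi * Complex.I) = eta c L := by
  unfold eta
  have := Complex.exp_periodic L
  rw [this]

theorem eta_add_int (c L : ℂ) (k : ℤ) : eta c (L + 2 * Real.pi * Complex.I * k) = eta c L := by
  unfold eta
  congr 1
  rw [Complex.exp_eq_exp_iff_exists_int]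
  exact ⟨k, by ring⟩

theorem eta_add_pi {c L : ℂ} (h : G c 0 < L.re) :
    eta c (L + Real.pi * Complex.I) = - eta c L := by
  unfold eta
  have : Complex.exp (L + Real.pi * Complex.I) = - Complex.exp L := by
    rw [Complex.exp_add, Complex.exp_pi_mul_I]; ring
  rw [this, psi_neg (dom_exp h)]

theorem eta_eq_iff {c L L' : ℂ} (h : G c 0 < L.re) (h' : G c 0 < L'.re) :
    eta c L = eta c L' ↔ ∃ k : ℤ, L' = L + 2 * Real.pi * Complex.I * k := by
  constructor
  · intro he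
    have h1 := psi_inj (dom_exp h) (dom_exp h') he
    obtain ⟨k, hk⟩ := Complex.exp_eq_exp_iff_exists_int.1 h1.symm
    exact ⟨k, by rw [hk]; ring⟩
  · rintro ⟨k, rfl⟩
    exact (eta_add_int c L k).symm

theorem eta_surj {c z : ℂ} (h : G c 0 < G c z) : ∃ L : ℂ, L.re = G c z ∧ eta c L = z := by
  obtain ⟨w, hw, hw2⟩ := psi_surj h
  have hw0 : w ≠ 0 := by
    intro h0; rw [h0, norm_zero] at hw; linarith [Real.exp_pos (G c z)]
  refine ⟨Complex.log w, ?_, ?_⟩
  · rw [Complex.log_re, hw, Real.log_exp]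
  · unfold eta; rw [Complex.exp_log hw0, hw2]

theorem continuousOn_eta :
    ContinuousOn (fun p : ℂ × ℂ => eta p.1 p.2) {p | G p.1 0 < p.2.re} := by
  unfold eta
  have h1 : ContinuousOn (fun p : ℂ × ℂ => ((p.1, Complex.exp p.2) : ℂ × ℂ))
      {p | G p.1 0 < p.2.re} := by fun_prop
  exact continuousOn_psi.comp h1 fun p hp => dom_exp hp

/-- holomorphic along holomorphic curves in parameter x coordinate space -/
theorem differentiableOn_eta {U : Set ℂ} (hU : IsOpen U) {γ δ : ℂ → ℂ}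
    (hγ : DifferentiableOn ℂ γ U) (hδ : DifferentiableOn ℂ δ U)
    (h : ∀ t ∈ U, G (γ t) 0 < (δ t).re) : DifferentiableOn ℂ (fun t => eta (γ t) (δ t)) U :=
  differentiableOn_psi hU hγ hδ.cexp fun t ht => dom_exp (h t ht)

theorem differentiableOn_eta_right (c : ℂ) :
    DifferentiableOn ℂ (eta c) {L | G c 0 < L.re} :=
  differentiableOn_eta (γ := fun _ => c) (δ := fun L => L)
    (isOpen_lt continuous_const Complex.continuous_re)
    (differentiableOn_const c) differentiableOn_id fun _ h => h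

lemma differentiableAt_eta {c L : ℂ} (h : G c 0 < L.re) : DifferentiableAt ℂ (eta c) L :=
  (differentiableOn_eta_right c).differentiableAt
    ((isOpen_lt continuous_const Complex.continuous_re).mem_nhds h)

theorem deriv_eta_ne_zero {c L : ℂ} (h : G c 0 < L.re) : deriv (eta c) L ≠ 0 := by
  have key : ∀ n : ℕ, ∀ L : ℂ, G c 0 < L.re → Near c (Complex.exp (2 ^ n * L))⁻¹ →
      deriv (eta c) L ≠ 0 := by
    intro n
    induction n with
    | zero =>
      intro L hL hN h0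
      rw [pow_zero, one_mul] at hN
      -- `bo c (eta c L) = exp L` near `L`
      have hopen : ∀ᶠ x in 𝓝 L, Near c (Complex.exp x)⁻¹ := by
        have h1 : Continuous fun x : ℂ => (c, (Complex.exp x)⁻¹) := by
          refine continuous_const.prodMk (Complex.continuous_exp.inv₀ Complex.exp_ne_zero)
        exact h1.continuousAt.eventually (isOpen_Near.mem_nhds hN)
      have h2 : (fun x => bo c (eta c x)) =ᶠ[𝓝 L] Complex.exp := by
        filter_upwards [hopen] with x hx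
        unfold eta
        rw [psi_near hx, bo_psib hx (Complex.exp_ne_zero _)]
      have hF : Far c (eta c L) := by
        unfold eta
        rw [psi_near hN]
        exact Far_psib hN (Complex.exp_ne_zero _)
      have hFo : IsOpen {z | Far c z} := by
        unfold Far; exact isOpen_lt continuous_const continuous_norm
      have h3 : DifferentiableAt ℂ (bo c) (eta c L) :=
        (differentiableOn_bo (γ := fun _ => c) (δ := fun z => z) hFo (differentiableOn_const c)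
          differentiableOn_id fun _ h => h).differentiableAt (hFo.mem_nhds hF)
      have h4 : HasDerivAt (fun x => bo c (eta c x)) (deriv (bo c) (eta c L) * deriv (eta c) L) L :=
        h3.hasDerivAt.comp L (differentiableAt_eta hL).hasDerivAt
      have h5 := h4.unique ((Complex.hasDerivAt_exp L).congr_of_eventuallyEq h2)
      rw [h0, mul_zero] at h5
      exact Complex.exp_ne_zero L h5.symm
    | succ n ih =>
      intro L hL hN h0
      have hL2 : G c 0 < (2 * L).re := by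
        have : (2 * L).re = 2 * L.re := by simp
        rw [this]; linarith [G_nonneg c 0]
      have e : (2 : ℂ) ^ n * (2 * L) = 2 ^ (n + 1) * L := by rw [pow_succ]; ring
      have h1 := ih (2 * L) hL2 (by rw [e]; exact hN)
      have hev : (fun x => eta c (2 * x)) =ᶠ[𝓝 L] fun x => f c (eta c x) := by
        have : ∀ᶠ x : ℂ in 𝓝 L, G c 0 < x.re :=
          (isOpen_lt continuous_const Complex.continuous_re).mem_nhds hL
        filter_upwards [this] with x hx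
        exact (f_eta hx).symm
      have h2 : HasDerivAt (fun x => eta c (2 * x)) (deriv (eta c) (2 * L) * (2 * 1)) L :=
        (differentiableAt_eta hL2).hasDerivAt.comp L ((hasDerivAt_id L).const_mul 2)
      have h3 : HasDerivAt (fun x => f c (eta c x))
          (((2 : ℕ) : ℂ) * eta c L ^ (2 - 1) * deriv (eta c) L) L := by
        unfold f
        exact ((differentiableAt_eta hL).hasDerivAt.pow 2).add_const c
      have h4 := h2.unique (h3.congr_of_eventuallyEq hev)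
      rw [h0, mul_zero] at h4
      apply h1
      have h5 : deriv (eta c) (2 * L) * 2 = 0 := by rw [← h4]; ring
      simpa using h5
  obtain ⟨n, hn⟩ := (eventually_near_pow (dom_exp h)).exists
  refine key n L h ?_
  rw [← Complex.exp_nat_mul] at hn
  push_cast at hn
  exact hn

lemma near_of_re {c L : ℂ} (h : Real.log (4 * (‖c‖ + 2)) < L.re) : Near c (Complex.exp L)⁻¹ := by
  unfold Near
  have h0 : 0 < 4 * (‖c‖ + 2) := by positivity
  rw [norm_inv, inv_mul_lt_iff₀ (norm_pos_iff.2 (Complex.exp_ne_zero L)), mul_one,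
    Complex.norm_exp, ← Real.log_lt_iff_lt_exp h0]
  exact h

lemma eta_div_exp (c L : ℂ) : eta c L / Complex.exp L = Ef (c, Complex.exp (-L)) := by
  unfold eta psi
  rw [Complex.exp_neg]
  field_simp [Complex.exp_ne_zero L]

/-- `eta c L / exp L → 1` as `re L → ∞`, with an explicit rate -/
theorem norm_eta_div_exp_sub_one {c L : ℂ} (h : Real.log (4 * (‖c‖ + 2)) < L.re) :
    ‖eta c L / Complex.exp L - 1‖ ≤ 1 / 16 := by
  rw [eta_div_exp, Complex.exp_neg, Ef_near (near_of_re h)]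
  exact Eb_bound (near_of_re h)

theorem tendsto_eta_div_exp (c : ℂ) (ε : ℝ) (hε : 0 < ε) :
    ∃ R : ℝ, ∀ L : ℂ, R < L.re → ‖eta c L / Complex.exp L - 1‖ < ε := by
  have h0 : (c, (0 : ℂ)) ∈ Om := by show ‖(0 : ℂ)‖ * _ < 1; simp
  have h1 : ContinuousAt (fun u : ℂ => Ef (c, u)) 0 := by
    have h2 : ContinuousAt Ef ((fun u : ℂ => ((c, u) : ℂ × ℂ)) 0) :=
      continuousOn_Ef.continuousAt (isOpen_Om.mem_nhds h0)
    have h3 : Continuous (fun u : ℂ => ((c, u) : ℂ × ℂ)) := by fun_prop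
    exact ContinuousAt.comp h2 h3.continuousAt
  rw [Metric.continuousAt_iff] at h1
  obtain ⟨δ, hδ, h2⟩ := h1 ε hε
  refine ⟨- Real.log δ, fun L hL => ?_⟩
  rw [eta_div_exp]
  have h3 := h2 (x := Complex.exp (-L)) (by
    rw [dist_zero_right, Complex.norm_exp, ← Real.lt_log_iff_exp_lt hδ, Complex.neg_re]
    linarith)
  rwa [Ef_at_zero, dist_eq_norm] at h3

/-! ### the inverse function -/

open Classical in
/-- the Boettcher coordinate on `{G c 0 < G c z}` -/
noncomputable def phi (c z : ℂ) : ℂ := if h : G c 0 < G c z then (psi_surj h).choose else 0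

lemma norm_phi {c z : ℂ} (h : G c 0 < G c z) : ‖phi c z‖ = Real.exp (G c z) := by
  unfold phi; rw [dif_pos h]; exact (psi_surj h).choose_spec.1

theorem psi_phi {c z : ℂ} (h : G c 0 < G c z) : psi c (phi c z) = z := by
  unfold phi; rw [dif_pos h]; exact (psi_surj h).choose_spec.2

lemma dom_phi {c z : ℂ} (h : G c 0 < G c z) : Real.exp (G c 0) < ‖phi c z‖ := by
  rw [norm_phi h]; exact Real.exp_lt_exp.2 h

theorem phi_psi {c w : ℂ} (h : Real.exp (G c 0) < ‖w‖) : phi c (psi c w) = w := by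
  have h1 : G c 0 < G c (psi c w) := by
    rw [G_psi h, ← Real.exp_lt_exp, Real.exp_log (norm_pos_iff.2 (ne_zero_of_dom h))]
    exact h
  exact psi_inj (dom_phi h1) h (psi_phi h1)

theorem phi_eta {c L : ℂ} (h : G c 0 < L.re) : phi c (eta c L) = Complex.exp L :=
  phi_psi (dom_exp h)

lemma phi_ne_zero {c z : ℂ} (h : G c 0 < G c z) : phi c z ≠ 0 := ne_zero_of_dom (dom_phi h)

theorem continuousOn_phi :
    ContinuousOn (fun p : ℂ × ℂ => phi p.1 p.2) {p | G p.1 0 < G p.1 p.2} := by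
  intro p₀ hp₀
  have hp₀' : G p₀.1 0 < G p₀.1 p₀.2 := hp₀
  set D : Set (ℂ × ℂ) := {p | G p.1 0 < G p.1 p.2} with hD
  have hnorm : Tendsto (fun p : ℂ × ℂ => ‖phi p.1 p.2‖) (𝓝[D] p₀)
      (𝓝 (Real.exp (G p₀.1 p₀.2))) := by
    have h1 : Tendsto (fun p : ℂ × ℂ => Real.exp (G p.1 p.2)) (𝓝[D] p₀)
        (𝓝 (Real.exp (G p₀.1 p₀.2))) :=
      ((Real.continuous_exp.comp continuous_G).tendsto p₀).mono_left nhdsWithin_le_nhds
    refine h1.congr' ?_
    filter_upwards [self_mem_nhdsWithin] with p hp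
    exact (norm_phi hp).symm
  have hcpt : IsCompact (closedBall (0 : ℂ) (Real.exp (G p₀.1 p₀.2) + 1)) :=
    isCompact_closedBall _ _
  refine hcpt.tendsto_nhds_of_unique_mapClusterPt ?_ ?_
  · filter_upwards [hnorm.eventually (gt_mem_nhds (lt_add_one _))] with p hp
    rw [mem_closedBall_zero_iff]; exact hp.le
  · intro y _ hy
    rw [mapClusterPt_iff_ultrafilter] at hy
    obtain ⟨F, hF, hFy⟩ := hy
    have h1 : ‖y‖ = Real.exp (G p₀.1 p₀.2) :=
      tendsto_nhds_unique hFy.norm (hnorm.mono_left hF)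
    have hyd : Real.exp (G p₀.1 0) < ‖y‖ := by rw [h1]; exact Real.exp_lt_exp.2 hp₀'
    have h2 : ContinuousAt (fun p : ℂ × ℂ => psi p.1 p.2) (p₀.1, y) :=
      continuousOn_psi.continuousAt (isOpen_dom.mem_nhds hyd)
    have hF1 : Tendsto (fun p : ℂ × ℂ => p.1) F (𝓝 p₀.1) :=
      (continuous_fst.tendsto p₀).mono_left (hF.trans nhdsWithin_le_nhds)
    have hF2 : Tendsto (fun p : ℂ × ℂ => p.2) F (𝓝 p₀.2) :=
      (continuous_snd.tendsto p₀).mono_left (hF.trans nhdsWithin_le_nhds)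
    have h3 : Tendsto (fun p : ℂ × ℂ => (p.1, phi p.1 p.2)) F (𝓝 (p₀.1, y)) :=
      hF1.prodMk_nhds hFy
    have h4 : Tendsto (fun p : ℂ × ℂ => psi p.1 (phi p.1 p.2)) F (𝓝 (psi p₀.1 y)) :=
      h2.tendsto.comp h3
    have h5 : Tendsto (fun p : ℂ × ℂ => psi p.1 (phi p.1 p.2)) F (𝓝 p₀.2) := by
      refine hF2.congr' ?_
      have : D ∈ (F : Filter (ℂ × ℂ)) := hF self_mem_nhdsWithin
      filter_upwards [this] with p hp
      exact (psi_phi hp).symm
    have h6 := tendsto_nhds_unique h4 h5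
    apply psi_inj hyd (dom_phi hp₀')
    rw [h6, psi_phi hp₀']

theorem differentiableOn_phi {U : Set ℂ} (hU : IsOpen U) {γ δ : ℂ → ℂ}
    (hγ : DifferentiableOn ℂ γ U) (hδ : DifferentiableOn ℂ δ U)
    (h : ∀ t ∈ U, G (γ t) 0 < G (γ t) (δ t)) :
    DifferentiableOn ℂ (fun t => phi (γ t) (δ t)) U := by
  have h1 : ContinuousOn (fun t => ((γ t, δ t) : ℂ × ℂ)) U :=
    hγ.continuousOn.prodMk hδ.continuousOn
  have h2' : ContinuousOn ((fun p : ℂ × ℂ => phi p.1 p.2) ∘ fun t => ((γ t, δ t) : ℂ × ℂ)) U :=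
    ContinuousOn.comp continuousOn_phi h1 fun t ht => h t ht
  have h2 : ContinuousOn (fun t => phi (γ t) (δ t)) U := h2'
  clear h2'
  intro t₀ ht₀
  obtain ⟨n, hn⟩ := (eventually_near_pow (dom_phi (h t₀ ht₀))).exists
  -- the same on a neighbourhood
  have h3 : ContinuousOn (fun t => ((γ t, ((phi (γ t) (δ t)) ^ 2 ^ n)⁻¹) : ℂ × ℂ)) U :=
    hγ.continuousOn.prodMk ((h2.pow _).inv₀ fun t ht => pow_ne_zero _ (phi_ne_zero (h t ht)))
  have hV := h3.isOpen_inter_preimage hU isOpen_Near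
  set V := U ∩ (fun t => ((γ t, ((phi (γ t) (δ t)) ^ 2 ^ n)⁻¹) : ℂ × ℂ)) ⁻¹'
    {p : ℂ × ℂ | Near p.1 p.2} with hVdef
  have hVU : V ⊆ U := inter_subset_left
  have hb : ∀ t ∈ V, bo (γ t) (it (γ t) n (δ t)) = phi (γ t) (δ t) ^ 2 ^ n := by
    intro t ht
    have := bo_it_psi (dom_phi (h t ht.1)) ht.2
    rwa [psi_phi (h t ht.1)] at this
  have hfar : ∀ t ∈ V, Far (γ t) (it (γ t) n (δ t)) := by
    intro t ht
    have h4 := it_psi (dom_phi (h t ht.1)) n
    rw [psi_phi (h t ht.1), psi_near ht.2] at h4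
    rw [h4]
    exact Far_psib ht.2 (pow_ne_zero _ (phi_ne_zero (h t ht.1)))
  have hit : DifferentiableOn ℂ (fun t => it (γ t) n (δ t)) V :=
    (differentiable_it n).comp_differentiableOn ((hγ.mono hVU).prodMk (hδ.mono hVU))
  have h5 : DifferentiableOn ℂ (fun t => phi (γ t) (δ t)) V := by
    refine differentiableOn_of_pow hV (h2.mono hVU)
      (fun t ht => phi_ne_zero (h t (hVU ht))) n ?_
    exact (differentiableOn_bo hV (hγ.mono hVU) hit hfar).congr fun t ht => (hb t ht).symm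
  exact (h5.differentiableAt (hV.mem_nhds ⟨ht₀, hn⟩)).differentiableWithinAt

/-- the coordinate of a point: continuity of the inverse (in exponential form) -/
theorem exists_phi : ∃ phi : ℂ → ℂ → ℂ,
    (∀ c z, G c 0 < G c z → ‖phi c z‖ = Real.exp (G c z) ∧ psi c (phi c z) = z) ∧
    (∀ c L, G c 0 < L.re → phi c (eta c L) = Complex.exp L) ∧
    ContinuousOn (fun p : ℂ × ℂ => phi p.1 p.2) {p | G p.1 0 < G p.1 p.2} ∧
    (∀ (U : Set ℂ) (γ δ : ℂ → ℂ), IsOpen U → DifferentiableOn ℂ γ U → DifferentiableOn ℂ δ U →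
      (∀ t ∈ U, G (γ t) 0 < G (γ t) (δ t)) →
      DifferentiableOn ℂ (fun t => phi (γ t) (δ t)) U) :=
  ⟨phi, fun _ _ h => ⟨norm_phi h, psi_phi h⟩, fun _ _ h => phi_eta h, continuousOn_phi,
    fun _ _ _ hU hγ hδ h => differentiableOn_phi hU hγ hδ h⟩

end Pool.Agent.Work.MLC
end

section
set_option autoImplicit false

/-! # Definitions for the MLC project (project manager: helper50)

Names from `Green`/`Eta` (helper56): `f c z = z ^ 2 + c`, `it c k = (f c)^[k]`, `G c z` Green function,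
`eta c L` inverse Böttcher map in logarithmic coordinates (defined for `G c 0 < L.re`).
Names from `Circle` (helper54): `Circ.tdbl`, `Circ.gw w θ n`, `Circ.nu w n θ`.
Angles (`θ`, `β`) are in turns; `L.im = 2 * π * angle`. -/

namespace Pool.Agent.Work.MLC

open Filter Topology Metric Set Complex

/-- the Mandelbrot set -/
abbrev MM : Set ℂ := N62a1eb23.mandelbrotSet

/-- multiplier of `it c n` at `b` -/
noncomputable def mult (n : ℕ) (c b : ℂ) : ℂ := ∏ i ∈ Finset.range n, (2 * it c i b)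

/-- `b` has exact period `n` under `z ^ 2 + c` -/
def PerN (n : ℕ) (c b : ℂ) : Prop := 0 < n ∧ Function.minimalPeriod (f c) b = n

/-! ### parameters outside the Mandelbrot set -/

/-- `h` continues `eta c` to the half strip `Re L > G c c / 4`, `Im L ∈ (π s, π (s + 1))`
(used for `c ∉ MM` and `s` with `s ≡` external angle of `c` mod 1) -/
def IsHalf (c : ℂ) (s : ℝ) (h : ℂ → ℂ) : Prop :=
  DifferentiableOn ℂ h {L | G c c / 4 < L.re ∧ Real.pi * s < L.im ∧ L.im < Real.pi * (s + 1)} ∧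
  (∀ L : ℂ, G c c / 4 < L.re → Real.pi * s < L.im → L.im < Real.pi * (s + 1) →
    f c (h L) = eta c (2 * L)) ∧
  (∀ L : ℂ, G c c / 2 < L.re → Real.pi * s < L.im → L.im < Real.pi * (s + 1) → h L = eta c L)

/-- `ψ` is the inverse branch of `f c` on `{G c < G c c}` with values in the lobe of
`{G c < G c c / 2}` of the external angles in `(s / 2, (s + 1) / 2)` -/
def IsInv (c : ℂ) (s : ℝ) (ψ : ℂ → ℂ) : Prop :=
  DifferentiableOn ℂ ψ {v | G c v < G c c} ∧ (∀ v : ℂ, G c v < G c c → f c (ψ v) = v) ∧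
  ∃ h, IsHalf c s h ∧ ∀ L : ℂ, G c c / 4 < L.re → L.re < G c c / 2 → Real.pi * s < L.im →
    L.im < Real.pi * (s + 1) → ψ (eta c (2 * L)) = h L

/-- `z` lies in the lobe of the angles in `(s / 2, (s + 1) / 2)` -/
def Side (c : ℂ) (s : ℝ) (z : ℂ) : Prop := G c (f c z) < G c c ∧ ∃ ψ, IsInv c s ψ ∧ ψ (f c z) = z

/-- `c ∉ MM` has external angle `θ`, `b` is fixed by `it c n` and has itinerary `w` (bits `0, 1`)
with respect to `θ` -/
def Ext (n : ℕ) (c b : ℂ) (θ : ℝ) (w : ℕ → ℤ) : Prop :=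
  0 < G c c ∧ eta c ((G c c : ℂ) + 2 * Real.pi * θ * I) = c ∧ (0 < n ∧ it c n b = b) ∧
  (∀ i, w i = 0 ∨ w i = 1) ∧ (∀ i, w (i + n) = w i) ∧ ∀ i, Side c (θ + w i) (it c i b)

/-- bits, `n`-periodic, no smaller period -/
def Word (n : ℕ) (w : ℕ → ℤ) : Prop :=
  (∀ i, w i = 0 ∨ w i = 1) ∧ (∀ i, w (i + n) = w i) ∧ ∀ d, 0 < d → d < n → ∃ i, w (i + d) ≠ w i

/-! ### rays landing at repelling points (parameters in the Mandelbrot set) -/

/-- `β` has exact period `n * q` relative to the period `n`: `2 ^ (n q) β ≡ β` mod 1 and no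
`0 < j < q` has `2 ^ (n j) β ≡ β` mod 1 -/
def PerAngle (n q : ℕ) (β : ℝ) : Prop :=
  0 < q ∧ (∃ k : ℤ, (2 : ℝ) ^ (n * q) * β - β = k) ∧
  ∀ j, 0 < j → j < q → ¬ ∃ k : ℤ, (2 : ℝ) ^ (n * j) * β - β = k

/-- the ray of angle `β` (`q` = its period under `2 ^ n`) lands at `b`; used for `c ∈ MM` -/
def Land (n : ℕ) (c b : ℂ) (β : ℝ) (q : ℕ) : Prop :=
  PerAngle n q β ∧ Tendsto (fun x : ℝ => eta c ((x : ℂ) + 2 * Real.pi * β * I)) (𝓝[>] 0) (𝓝 b)

/-- turning number `p` of the landing ray with respect to the logarithm `ℓ` of the multiplier -/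
def Rot (n : ℕ) (c b : ℂ) (β : ℝ) (q : ℕ) (ℓ : ℂ) (p : ℤ) : Prop :=
  ∃ F : ℝ → ℂ, ContinuousOn F (Ioi 0) ∧
    (∀ x : ℝ, 0 < x → exp (F x) = eta c ((x : ℂ) + 2 * Real.pi * β * I) - b) ∧
    Tendsto (fun x : ℝ => F (2 ^ (n * q) * x) - F x) (𝓝[>] 0) (𝓝 (q * ℓ - 2 * Real.pi * p * I))

/-- all doublings of `β` lie in the open half circles given by `θ + w i` -/
def Compat (β θ : ℝ) (w : ℕ → ℤ) : Prop :=
  ∀ i, ∃ k : ℤ, (θ + w i) / 2 + k < 2 ^ i * β ∧ 2 ^ i * β < (θ + w i) / 2 + k + 1 / 2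

/-- `(θ, w)` and `(θ', w')` describe the same strip: after adding an integer `m` to `θ'` the words
agree, and the rotation number does not meet an integer between `θ` and `θ' + m` -/
def SameStrip (n : ℕ) (θ : ℝ) (w : ℕ → ℤ) (θ' : ℝ) (w' : ℕ → ℤ) : Prop :=
  ∃ m : ℤ, (∀ i, Even (w' i - w i - m)) ∧
    ∀ θ'' ∈ Set.uIcc θ (θ' + m), ∀ k : ℤ, Circ.nu w n θ'' ≠ k

/-! ### hyperbolic components -/

/-- `W` is a hyperbolic component of period `n` -/
def HypComp (n : ℕ) (W : Set ℂ) : Prop :=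
  ∃ c ∈ {c | ∃ b, PerN n c b ∧ ‖mult n c b‖ < 1},
    W = connectedComponentIn {c | ∃ b, PerN n c b ∧ ‖mult n c b‖ < 1} c

end Pool.Agent.Work.MLC
end

section
/-!
# MLC project, module Comb (helper67)

A finite family `A i` (`i : ℕ`, `n`-periodic) of `ℤ`-invariant subsets of `ℝ` (i.e. finite
subsets of the circle) with `2 A i = A (i+1)`, every `A i` contained in an open half circle and
having at least two points, pairwise equal or unlinked (and disjoint).  Then the set of the `θ`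
whose diameter `{θ/2, (θ+1)/2}` separates no `A i` (nor meets one of their hulls) is one
nonempty open arc.
-/

namespace Pool.Agent.MLC

/-- `A` (a `ℤ`-invariant set of reals) lies in the open half circle
`((θ+e)/2, (θ+e)/2 + 1/2)` modulo `1`. -/
def InHalf (A : Set ℝ) (θ : ℝ) (e : ℤ) : Prop :=
  ∀ a ∈ A, ∃ k : ℤ, (θ + e) / 2 < a + k ∧ a + k < (θ + e) / 2 + 1 / 2

/-- weakly linked: two points of `A` and two of `B` alternate on the circle (equalities allowed,
so a common point counts as linked). -/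
def Linked (A B : Set ℝ) : Prop :=
  ∃ a ∈ A, ∃ b ∈ B, ∃ c ∈ A, ∃ d ∈ B, a ≤ b ∧ b ≤ c ∧ c ≤ d ∧ d ≤ a + 1

/-- A finite portrait of period `n` (lifted to `ℝ`). -/
structure Portrait (n : ℕ) (A : ℕ → Set ℝ) : Prop where
  per : ∀ i, A (i + n) = A i
  shift : ∀ i, ∀ a ∈ A i, ∀ k : ℤ, a + k ∈ A i
  fin : ∀ i, (A i ∩ Set.Ico 0 1).Finite
  dbl : ∀ i, ∀ a ∈ A i, 2 * a ∈ A (i + 1)
  sur : ∀ i, ∀ b ∈ A (i + 1), ∃ a ∈ A i, ∃ k : ℤ, 2 * a = b + k
  two : ∀ i, ∃ a ∈ A i, ∃ b ∈ A i, a < b ∧ b < a + 1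
  half : ∀ i, ∃ s : ℝ, ∀ a ∈ A i, ∃ k : ℤ, s < a + k ∧ a + k < s + 1 / 2
  unl : ∀ i j, A i = A j ∨ ¬ Linked (A i) (A j)

namespace Portrait

variable {n : ℕ} {A : ℕ → Set ℝ}

/-- the set of differences `b - a`, `a < b < a + 1`, `a, b` in the same `A i`. -/
def diffs (A : ℕ → Set ℝ) : Set ℝ :=
  {g | ∃ i, ∃ a ∈ A i, ∃ b ∈ A i, a < b ∧ b < a + 1 ∧ g = b - a}

theorem per_mod (hP : Portrait n A) (hn : 0 < n) (i : ℕ) : A i = A (i % n) := by
  induction i using Nat.strong_induction_on with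
  | _ i ih =>
    by_cases h : i < n
    · rw [Nat.mod_eq_of_lt h]
    · push Not at h
      have h1 : A ((i - n) + n) = A (i - n) := hP.per (i - n)
      rw [Nat.sub_add_cancel h] at h1
      rw [h1, ih (i - n) (by omega), Nat.mod_eq_sub_mod h]

theorem diffs_finite (hP : Portrait n A) (hn : 0 < n) : (diffs A).Finite := by
  classical
  -- the finite set of all representatives
  have hfin2 : ∀ i, (A i ∩ Set.Ico 0 2).Finite := by
    intro i
    have h1 : (A i ∩ Set.Ico (0 : ℝ) 2) ⊆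
        (A i ∩ Set.Ico 0 1) ∪ ((fun x : ℝ => x + 1) '' (A i ∩ Set.Ico 0 1)) := by
      rintro x ⟨hx, hx0, hx2⟩
      by_cases h : x < 1
      · exact Or.inl ⟨hx, hx0, h⟩
      · push Not at h
        refine Or.inr ⟨x - 1, ⟨?_, by constructor <;> linarith⟩, by ring⟩
        have := hP.shift i x hx (-1)
        simpa [sub_eq_add_neg] using this
    exact ((hP.fin i).union ((hP.fin i).image _)).subset h1
  have : (diffs A) ⊆ ⋃ i ∈ Finset.range n,
      ((fun p : ℝ × ℝ => p.2 - p.1) '' ((A i ∩ Set.Ico 0 1) ×ˢ (A i ∩ Set.Ico 0 2))) := by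
    rintro g ⟨i, a, ha, b, hb, hab, hba, rfl⟩
    rw [hP.per_mod hn i] at ha hb
    simp only [Set.mem_iUnion, Finset.mem_range]
    refine ⟨i % n, Nat.mod_lt _ hn, ⟨(a + (-⌊a⌋ : ℤ), b + (-⌊a⌋ : ℤ)), ⟨⟨?_, ?_⟩, ⟨?_, ?_⟩⟩, ?_⟩⟩
    · exact hP.shift _ a ha _
    · push_cast
      have h1 := Int.floor_le a
      have h2 := Int.lt_floor_add_one a
      constructor <;> linarith
    · exact hP.shift _ b hb _
    · push_cast
      have h1 := Int.floor_le a
      have h2 := Int.lt_floor_add_one a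
      constructor <;> linarith
    · simp only; ring
  refine Set.Finite.subset ?_ this
  refine Set.Finite.biUnion (Finset.finite_toSet _) ?_
  intro i _
  exact ((hP.fin i).prod (hfin2 i)).image _

/-- given `a, b` in `A i`, there is a translate of `b` at distance `< 1/2` of `a`. -/
theorem near (hP : Portrait n A) (i : ℕ) {a b : ℝ} (ha : a ∈ A i) (hb : b ∈ A i) :
    ∃ k : ℤ, b + k ∈ A i ∧ a - 1 / 2 < b + k ∧ b + k < a + 1 / 2 := by
  obtain ⟨s, hs⟩ := hP.half i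
  obtain ⟨k, hk1, hk2⟩ := hs a ha
  obtain ⟨l, hl1, hl2⟩ := hs b hb
  refine ⟨l - k, hP.shift i b hb _, ?_, ?_⟩ <;> push_cast <;> linarith

theorem near_ne (hP : Portrait n A) (i : ℕ) {a : ℝ} (ha : a ∈ A i) :
    ∃ b ∈ A i, b ≠ a ∧ a - 1 / 2 < b ∧ b < a + 1 / 2 := by
  obtain ⟨u, hu, v, hv, huv, hvu⟩ := hP.two i
  obtain ⟨k, hk, hk1, hk2⟩ := hP.near i ha hu
  obtain ⟨l, hl, hl1, hl2⟩ := hP.near i ha hv
  by_cases h : u + k = a
  · refine ⟨v + l, hl, ?_, hl1, hl2⟩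
    intro h'
    have h3 : v - u = ((k - l : ℤ) : ℝ) := by push_cast; linarith
    have h4 : (0 : ℝ) < ((k - l : ℤ) : ℝ) := by rw [← h3]; linarith
    have h5 : ((k - l : ℤ) : ℝ) < 1 := by rw [← h3]; linarith
    have h6 : 0 < k - l := by exact_mod_cast h4
    have h7 : k - l < 1 := by exact_mod_cast h5
    omega
  · exact ⟨u + k, hk, h, hk1, hk2⟩

/-- the longest short chord. -/
theorem exists_max (hP : Portrait n A) (hn : 0 < n) :
    ∃ i, ∃ x ∈ A i, ∃ y ∈ A i, x < y ∧ y < x + 1 / 2 ∧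
      ∀ j, ∀ a ∈ A j, ∀ b ∈ A j, a ≤ b → b < a + 1 / 2 → b - a ≤ y - x := by
  classical
  have hfin : (diffs A ∩ Set.Iio (1 / 2)).Finite := (hP.diffs_finite hn).subset Set.inter_subset_left
  have hne : (diffs A ∩ Set.Iio (1 / 2)).Nonempty := by
    obtain ⟨a, ha, -⟩ := hP.two 0
    obtain ⟨b, hb, hne, h1, h2⟩ := hP.near_ne 0 ha
    rcases lt_or_gt_of_ne hne with h | h
    · exact ⟨a - b, ⟨0, b, hb, a, ha, h, by linarith, rfl⟩, by simp only [Set.mem_Iio]; linarith⟩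
    · exact ⟨b - a, ⟨0, a, ha, b, hb, h, by linarith, rfl⟩, by simp only [Set.mem_Iio]; linarith⟩
  obtain ⟨g, hg⟩ := hfin.exists_maximal hne
  obtain ⟨⟨i, x, hx, y, hy, hxy, hyx, hg1⟩, hg2⟩ := hg.1
  simp only [Set.mem_Iio] at hg2
  refine ⟨i, x, hx, y, hy, hxy, by linarith, ?_⟩
  intro j a ha b hb hab hba
  rcases hab.eq_or_lt with h | h
  · rw [h]; linarith
  by_contra hcon
  push Not at hcon
  have hmem : b - a ∈ diffs A ∩ Set.Iio (1 / 2) :=
    ⟨⟨j, a, ha, b, hb, h, by linarith, rfl⟩, by simp only [Set.mem_Iio]; linarith⟩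
  have := hg.2 hmem (by rw [hg1]; exact hcon.le)
  rw [hg1] at this
  linarith

/-- every distance is at least `1 - 2 (y-x)`. -/
theorem min_dist (hP : Portrait n A) (hn : 0 < n) {L : ℝ}
    (hL : ∀ j, ∀ a ∈ A j, ∀ b ∈ A j, a ≤ b → b < a + 1 / 2 → b - a ≤ L) :
    ∀ j, ∀ a ∈ A j, ∀ b ∈ A j, a < b → 1 - 2 * L ≤ b - a := by
  classical
  -- it suffices to treat differences < 1
  have hL0 : 0 ≤ L := by
    obtain ⟨a, ha, -⟩ := hP.two 0
    have := hL 0 a ha a ha le_rfl (by linarith)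
    linarith
  have key : ∀ g ∈ diffs A, 1 - 2 * L ≤ g := by
    have hne : (diffs A).Nonempty := by
      obtain ⟨a, ha, b, hb, h1, h2⟩ := hP.two 0
      exact ⟨b - a, 0, a, ha, b, hb, h1, h2, rfl⟩
    obtain ⟨g, hg⟩ := (hP.diffs_finite hn).exists_minimal hne
    obtain ⟨i, a, ha, b, hb, hab, hba, hg1⟩ := hg.1
    have hgmin : ∀ g' ∈ diffs A, g ≤ g' := by
      intro g' hg'
      by_contra hcon
      push Not at hcon
      exact absurd (hg.2 hg' hcon.le) (not_le.mpr hcon)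
    suffices h : 1 - 2 * L ≤ g by
      intro g' hg'
      exact h.trans (hgmin g' hg')
    -- pull back
    have hAi : A i = A ((i + n - 1) + 1) := by
      rw [← hP.per i]
      congr 1
      omega
    rw [hAi] at ha hb
    set m := i + n - 1 with hm
    obtain ⟨a', ha', k, hk⟩ := hP.sur m a ha
    obtain ⟨b₀, hb₀, l₀, hl₀⟩ := hP.sur m b hb
    obtain ⟨q, hb', hq1, hq2⟩ := hP.near m ha' hb₀
    set b' := b₀ + q with hb'def
    have hl : 2 * b' = b + ((l₀ + 2 * q : ℤ) : ℝ) := by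
      push_cast; rw [hb'def]; linarith
    set l := l₀ + 2 * q with hldef
    -- 2 (b' - a') = g + (l - k)
    have h1 : 2 * (b' - a') = g + ((l - k : ℤ) : ℝ) := by
      push_cast; rw [hg1]; linarith
    have h2 : -1 < g + ((l - k : ℤ) : ℝ) := by rw [← h1]; linarith
    have h3 : g + ((l - k : ℤ) : ℝ) < 1 := by rw [← h1]; linarith
    have hg0 : 0 < g := by rw [hg1]; linarith
    have hg1' : g < 1 := by rw [hg1]; linarith
    have h4 : (-2 : ℝ) < ((l - k : ℤ) : ℝ) := by linarith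
    have h5 : ((l - k : ℤ) : ℝ) < 1 := by linarith
    have h4' : -2 < l - k := by exact_mod_cast h4
    have h5' : l - k < 1 := by exact_mod_cast h5
    have h6 : l - k = -1 ∨ l - k = 0 := by omega
    rcases h6 with h6 | h6
    · -- b' - a' = (g-1)/2
      rw [h6] at h1
      push_cast at h1
      have h7 : a' - b' ≤ L := by
        apply hL m b' hb' a' ha'
        · linarith
        · linarith
      linarith
    · rw [h6] at h1
      push_cast at h1
      have h7 : b' - a' ∈ diffs A := ⟨m, a', ha', b', hb', by linarith, by linarith, rfl⟩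
      have := hgmin _ h7
      linarith
  intro j a ha b hb hab
  by_cases h : b < a + 1
  · exact key _ ⟨j, a, ha, b, hb, hab, h, rfl⟩
  · push Not at h
    linarith

/-- extremality of the longest short chord inside its own `A i`. -/
theorem extreme (hP : Portrait n A) {i : ℕ} {x y : ℝ} (hx : x ∈ A i) (hy : y ∈ A i)
    (hxy : x < y) (hyx : y < x + 1 / 2)
    (hmax : ∀ j, ∀ a ∈ A j, ∀ b ∈ A j, a ≤ b → b < a + 1 / 2 → b - a ≤ y - x) :
    ∀ a ∈ A i, ∃ k : ℤ, x ≤ a + k ∧ a + k ≤ y := by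
  intro a ha
  obtain ⟨s, hs⟩ := hP.half i
  obtain ⟨p, hp1, hp2⟩ := hs x hx
  obtain ⟨q, hq1, hq2⟩ := hs y hy
  obtain ⟨k, hk1, hk2⟩ := hs a ha
  have h1 : ((q - p : ℤ) : ℝ) < 1 := by push_cast; linarith
  have h2 : (-1 : ℝ) < ((q - p : ℤ) : ℝ) := by push_cast; linarith
  have h1' : q - p < 1 := by exact_mod_cast h1
  have h2' : -1 < q - p := by exact_mod_cast h2
  have hpq : q = p := by omega
  subst hpq
  refine ⟨k - q, ?_, ?_⟩
  · by_contra hcon
    push Not at hcon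
    push_cast at hcon
    have := hmax i (a + k) (hP.shift i a ha k) (y + q) (hP.shift i y hy q) (by linarith) (by linarith)
    linarith
  · by_contra hcon
    push Not at hcon
    push_cast at hcon
    have := hmax i (x + q) (hP.shift i x hx q) (a + k) (hP.shift i a ha k) (by linarith) (by linarith)
    linarith

/-- the doubled longest gap contains no point of the next set. -/
theorem gap_next (hP : Portrait n A) {i : ℕ} {x y : ℝ}
    (hex : ∀ a ∈ A i, ∃ k : ℤ, x ≤ a + k ∧ a + k ≤ y) :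
    ∀ b ∈ A (i + 1), 2 * y < b → b < 2 * x + 1 → False := by
  intro b hb h1 h2
  obtain ⟨a, ha, k, hk⟩ := hP.sur i b hb
  obtain ⟨l, hl1, hl2⟩ := hex a ha
  have h3 : (0 : ℝ) < ((-k - 2 * l : ℤ) : ℝ) + 1 - 1 := by
    push_cast
    have : b + k = 2 * a := hk.symm
    nlinarith
  have h4 : ((-k - 2 * l : ℤ) : ℝ) < 1 + 0 := by
    push_cast
    have : b + k = 2 * a := hk.symm
    nlinarith
  have h3' : (0 : ℝ) < ((-k - 2 * l : ℤ) : ℝ) := by linarith
  have h4' : ((-k - 2 * l : ℤ) : ℝ) < 1 := by linarith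
  have h5 : 0 < -k - 2 * l := by exact_mod_cast h3'
  have h6 : -k - 2 * l < 1 := by exact_mod_cast h4'
  omega

/-- no point of any `A j` doubles into the characteristic arc. -/
theorem no_point (hP : Portrait n A) (hn : 0 < n) {i : ℕ} {x y : ℝ} (hx : x ∈ A i) (hy : y ∈ A i)
    (_hxy : x < y) (_hyx : y < x + 1 / 2)
    (hmax : ∀ j, ∀ a ∈ A j, ∀ b ∈ A j, a ≤ b → b < a + 1 / 2 → b - a ≤ y - x)
    (hex : ∀ a ∈ A i, ∃ k : ℤ, x ≤ a + k ∧ a + k ≤ y)
    (j : ℕ) {a : ℝ} (ha : a ∈ A j) (m₀ : ℤ) (h1 : 2 * y < 2 * a + m₀) (h2 : 2 * a + m₀ < 2 * x + 1) :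
    False := by
  have hmin := hP.min_dist hn hmax
  obtain ⟨b, hb, hne, hb1, hb2⟩ := hP.near_ne j ha
  have ha2 : 2 * a + m₀ ∈ A (j + 1) := hP.shift _ _ (hP.dbl j a ha) _
  have hb2' : 2 * b ∈ A (j + 1) := hP.dbl j b hb
  rcases hP.unl (i + 1) (j + 1) with heq | hunl
  · rw [← heq] at ha2
    exact hP.gap_next hex _ ha2 h1 h2
  · -- normalise 2 b into [2 y, 2 y + 1)
    set m : ℤ := -⌊2 * b - 2 * y⌋ with hm
    have hm1 : 2 * y ≤ 2 * b + m := by
      have := Int.floor_le (2 * b - 2 * y)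
      push_cast [hm]; linarith
    have hm2 : 2 * b + m < 2 * y + 1 := by
      have := Int.lt_floor_add_one (2 * b - 2 * y)
      push_cast [hm]; linarith
    have hb3 : 2 * b + m ∈ A (j + 1) := hP.shift _ _ hb2' _
    have hy2 : 2 * y ∈ A (i + 1) := hP.dbl i y hy
    have hx2 : 2 * x + 1 ∈ A (i + 1) := by
      have := hP.shift _ _ (hP.dbl i x hx) 1
      simpa using this
    by_cases hcase : 2 * x + 1 ≤ 2 * b + m
    · exact hunl ⟨2 * y, hy2, 2 * a + m₀, ha2, 2 * x + 1, hx2, 2 * b + m, hb3,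
        h1.le, h2.le, hcase, hm2.le⟩
    · push Not at hcase
      -- both in the characteristic arc
      -- 2 b - 2 a = (m₀ - m) + small
      by_cases hmm : m₀ = m
      · subst hmm
        rcases lt_or_gt_of_ne hne with h | h
        · have := hmin j b hb a ha h
          linarith
        · have := hmin j a ha b hb h
          linarith
      · rcases lt_or_gt_of_ne hmm with h | h
        · -- m₀ < m
          have h' : (m₀ : ℝ) + 1 ≤ m := by exact_mod_cast h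
          have := hmax j b hb a ha (by linarith) (by linarith)
          linarith
        · have h' : (m : ℝ) + 1 ≤ m₀ := by exact_mod_cast h
          have := hmax j a ha b hb (by linarith) (by linarith)
          linarith

/-- no short chord of any `A j` contains a half of an angle of the characteristic arc. -/
theorem no_sep (hP : Portrait n A) (hn : 0 < n) {i : ℕ} {x y : ℝ} (hx : x ∈ A i) (hy : y ∈ A i)
    (hxy : x < y) (hyx : y < x + 1 / 2)
    (hmax : ∀ j, ∀ a ∈ A j, ∀ b ∈ A j, a ≤ b → b < a + 1 / 2 → b - a ≤ y - x)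
    (hex : ∀ a ∈ A i, ∃ k : ℤ, x ≤ a + k ∧ a + k ≤ y)
    (j : ℕ) {a b : ℝ} (ha : a ∈ A j) (hb : b ∈ A j) (_hab : a ≤ b) (hba : b < a + 1 / 2)
    {θ : ℝ} (m : ℤ) (h1 : 2 * y < θ) (h2 : θ < 2 * x + 1)
    (h3 : a ≤ (θ + m) / 2) (h4 : (θ + m) / 2 ≤ b) : False := by
  -- 2 a, 2 b are not in the arc
  have ha1 : 2 * a ≤ 2 * y + m := by
    by_contra hcon
    push Not at hcon
    exact hP.no_point hn hx hy hxy hyx hmax hex j ha (-m) (by push_cast; linarith)
      (by push_cast; linarith)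
  have hb1 : 2 * x + 1 + m ≤ 2 * b := by
    by_contra hcon
    push Not at hcon
    exact hP.no_point hn hx hy hxy hyx hmax hex j hb (-m) (by push_cast; linarith)
      (by push_cast; linarith)
  obtain ⟨m', hm' | hm'⟩ := Int.even_or_odd' m
  · have hm'' : (m : ℝ) = 2 * m' := by rw [hm']; push_cast; ring
    have c1 : x + m' ∈ A i := hP.shift i x hx m'
    have c2 : y + m' ∈ A i := hP.shift i y hy m'
    rcases hP.unl i j with heq | hunl
    · rw [← heq] at hb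
      obtain ⟨k, hk1, hk2⟩ := hex b hb
      have e1 : ((m' + k : ℤ) : ℝ) < 0 + 0 := by push_cast; linarith
      have e2 : (-1 : ℝ) < ((m' + k : ℤ) : ℝ) := by push_cast; linarith
      have e1' : ((m' + k : ℤ) : ℝ) < 0 := by linarith
      have e3 : m' + k < 0 := by exact_mod_cast e1'
      have e4 : -1 < m' + k := by exact_mod_cast e2
      omega
    · exact hunl ⟨x + m', c1, a, ha, y + m', c2, b, hb, by linarith, by linarith, by linarith,
        by linarith⟩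
  · have hm'' : (m : ℝ) = 2 * m' + 1 := by rw [hm']; push_cast; ring
    have c1 : y + m' ∈ A i := hP.shift i y hy m'
    have c2 : x + m' + 1 ∈ A i := by
      have := hP.shift i x hx (m' + 1)
      push_cast at this
      rwa [← add_assoc] at this
    rcases hP.unl i j with heq | hunl
    · rw [← heq] at ha
      obtain ⟨k, hk1, hk2⟩ := hex a ha
      have e1 : ((m' + k : ℤ) : ℝ) < 0 + 0 := by push_cast; linarith
      have e2 : (-1 : ℝ) < ((m' + k : ℤ) : ℝ) := by push_cast; linarith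
      have e1' : ((m' + k : ℤ) : ℝ) < 0 := by linarith
      have e3 : m' + k < 0 := by exact_mod_cast e1'
      have e4 : -1 < m' + k := by exact_mod_cast e2
      omega
    · exact hunl ⟨y + m', c1, a, ha, x + m' + 1, c2, b, hb, by linarith, by linarith, by linarith,
        by linarith⟩

theorem _root_.Pool.Agent.MLC.InHalf.add_two {A : Set ℝ} {θ : ℝ} {e : ℤ} (h : InHalf A θ e)
    (j : ℤ) : InHalf A θ (e + 2 * j) := by
  intro a ha
  obtain ⟨k, h1, h2⟩ := h a ha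
  refine ⟨k + j, ?_, ?_⟩ <;> push_cast <;> linarith

theorem _root_.Pool.Agent.MLC.InHalf.shift {A : Set ℝ} {θ : ℝ} {e : ℤ} (h : InHalf A θ e)
    (j : ℤ) : InHalf A (θ + j) (e - j) := by
  intro a ha
  obtain ⟨k, h1, h2⟩ := h a ha
  refine ⟨k, ?_, ?_⟩ <;> push_cast <;> linarith

/-- the index of the half circle is determined modulo `2`. -/
theorem _root_.Pool.Agent.MLC.InHalf.unique {A : Set ℝ} (hne : A.Nonempty) {θ : ℝ} {e e' : ℤ}
    (h : InHalf A θ e) (h' : InHalf A θ e') : ∃ j : ℤ, e' = e + 2 * j := by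
  obtain ⟨a, ha⟩ := hne
  obtain ⟨k, h1, h2⟩ := h a ha
  obtain ⟨l, h3, h4⟩ := h' a ha
  refine ⟨l - k, ?_⟩
  have f1 : ((e' - e - 2 * (l - k) : ℤ) : ℝ) < 1 := by push_cast; linarith
  have f2 : (-1 : ℝ) < ((e' - e - 2 * (l - k) : ℤ) : ℝ) := by push_cast; linarith
  have f3 : e' - e - 2 * (l - k) < 1 := by exact_mod_cast f1
  have f4 : -1 < e' - e - 2 * (l - k) := by exact_mod_cast f2
  omega

/-- **Comb.** There are `s < t < s + 1` in one `A i` and a word `w` such that for `θ ∈ (s, t)`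
every `A i` is in the open half circle number `w i` of `θ`; and every `θ` whose diameter
separates no `A i` is, modulo `1`, in `(s, t)`. -/
theorem arc_word (hP : Portrait n A) (hn : 0 < n) :
    ∃ s t : ℝ, s < t ∧ t < s + 1 ∧ (∃ i, s ∈ A i ∧ t ∈ A i) ∧
      (∃ w : ℕ → ℤ, (∀ i, w i = 0 ∨ w i = 1) ∧
        ∀ i, ∀ θ ∈ Set.Ioo s t, InHalf (A i) θ (w i)) ∧
      ∀ θ : ℝ, (∀ i, ∃ e : ℤ, InHalf (A i) θ e) → ∃ k : ℤ, s < θ + k ∧ θ + k < t := by
  obtain ⟨i, x, hx, y, hy, hxy, hyx, hmax⟩ := hP.exists_max hn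
  have hex := hP.extreme hx hy hxy hyx hmax
  refine ⟨2 * y, 2 * x + 1, by linarith, by linarith, ⟨i + 1, hP.dbl i y hy, ?_⟩, ?_, ?_⟩
  · have := hP.shift _ _ (hP.dbl i x hx) 1
    simpa using this
  · -- the word
    choose a₀ ha₀ _ using hP.two
    set θ₀ : ℝ := (2 * y + (2 * x + 1)) / 2 with hθ₀
    have hw : ∀ j, ∀ θ ∈ Set.Ioo (2 * y) (2 * x + 1), ∃ m : ℤ, m = ⌊2 * a₀ j - θ₀⌋ ∧
        InHalf (A j) θ m := by
      intro j θ hθ
      obtain ⟨hk1, hk2⟩ := hθ
      set m : ℤ := ⌊2 * a₀ j - θ⌋ with hm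
      have hm1 : (θ + m) / 2 ≤ a₀ j := by
        have := Int.floor_le (2 * a₀ j - θ)
        rw [← hm] at this; linarith
      have hm2 : a₀ j < (θ + m) / 2 + 1 / 2 := by
        have := Int.lt_floor_add_one (2 * a₀ j - θ)
        rw [← hm] at this; linarith
      have hm1' : (θ + m) / 2 < a₀ j := by
        rcases hm1.lt_or_eq with h | h
        · exact h
        · exfalso
          exact hP.no_sep hn hx hy hxy hyx hmax hex j (ha₀ j) (ha₀ j) le_rfl (by linarith)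
            (θ := θ) m hk1 hk2 (by rw [h]) (by rw [h])
      refine ⟨m, ?_, ?_⟩
      · -- the floor is constant
        symm
        rw [Int.floor_eq_iff]
        constructor
        · by_contra hcon
          push Not at hcon
          -- 2 a₀ - θ₀ < m ≤ 2 a₀ - θ
          refine hP.no_point hn hx hy hxy hyx hmax hex j (ha₀ j) (-m) ?_ ?_
          · push_cast; linarith
          · push_cast; rw [hθ₀] at hcon; linarith
        · by_contra hcon
          push Not at hcon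
          -- 2 a₀ - θ < m + 1 ≤ 2 a₀ - θ₀
          refine hP.no_point hn hx hy hxy hyx hmax hex j (ha₀ j) (-(m + 1)) ?_ ?_
          · push_cast; rw [hθ₀] at hcon; linarith
          · push_cast; linarith
      · intro b hb
        obtain ⟨q, hq, hq1, hq2⟩ := hP.near j (ha₀ j) hb
        refine ⟨q, ?_, ?_⟩
        · by_contra hcon
          push Not at hcon
          exact hP.no_sep hn hx hy hxy hyx hmax hex j hq (ha₀ j) (by linarith) (by linarith)
            (θ := θ) m hk1 hk2 (by linarith) hm1'.le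
        · by_contra hcon
          push Not at hcon
          exact hP.no_sep hn hx hy hxy hyx hmax hex j (ha₀ j) hq (by linarith) (by linarith)
            (θ := θ) (m + 1) hk1 hk2 (by push_cast; linarith) (by push_cast; linarith)
    refine ⟨fun j => ⌊2 * a₀ j - θ₀⌋ % 2, fun j => Int.emod_two_eq_zero_or_one _, ?_⟩
    intro j θ hθ
    obtain ⟨m, hm, hin⟩ := hw j θ hθ
    show InHalf (A j) θ (⌊2 * a₀ j - θ₀⌋ % 2)
    rw [← hm]
    have h2 : m % 2 = m + 2 * (-(m / 2)) := by omega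
    rw [h2]
    exact hin.add_two _
  · intro θ h
    obtain ⟨e, he⟩ := h i
    by_contra hcon
    push Not at hcon
    -- a translate of θ in [2x, 2y]
    set m : ℤ := -⌊θ - 2 * x⌋ with hm
    have hm1 : 2 * x ≤ θ + m := by
      have := Int.floor_le (θ - 2 * x)
      push_cast [hm]; linarith
    have hm2 : θ + m < 2 * x + 1 := by
      have := Int.lt_floor_add_one (θ - 2 * x)
      push_cast [hm]; linarith
    have hm3 : θ + m ≤ 2 * y := by
      by_contra h'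
      push Not at h'
      exact absurd (hcon m h') (by push Not; exact hm2)
    obtain ⟨k, hk1, hk2⟩ := he x hx
    obtain ⟨l, hl1, hl2⟩ := he y hy
    have e1 : ((l - k : ℤ) : ℝ) < 1 := by push_cast; linarith
    have e2 : (-1 : ℝ) < ((l - k : ℤ) : ℝ) := by push_cast; linarith
    have e3 : l - k < 1 := by exact_mod_cast e1
    have e4 : -1 < l - k := by exact_mod_cast e2
    have e5 : l = k := by omega
    subst e5
    have f1 : ((e - 2 * l : ℤ) : ℝ) < m := by push_cast; linarith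
    have f2 : (m : ℝ) < ((e - 2 * l + 1 : ℤ) : ℝ) := by push_cast; linarith
    have f3 : e - 2 * l < m := by exact_mod_cast f1
    have f4 : m < e - 2 * l + 1 := by exact_mod_cast f2
    omega

end Portrait

end Pool.Agent.MLC
end

section
set_option autoImplicit false

/-! # The linearizer at a repelling periodic point  (helper56)

For `it c n b = b` with multiplier `ρ = mult n c b`, `1 < ‖ρ‖`, the function `Lz n c b` is entire,
`Lz n c b 0 = b`, `HasDerivAt (Lz n c b) 1 0`, `Lz n c b (ρ * ζ) = it c n (Lz n c b ζ)`, and it is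
jointly continuous in `(c, b, ζ)` and holomorphic along holomorphic curves. -/

namespace Pool.Agent.Work.MLC

open Filter Topology Metric Set

/-! ### algebra of iterates -/

/-- divided difference of the iterate -/
noncomputable def DD (n : ℕ) (c x y : ℂ) : ℂ := ∏ i ∈ Finset.range n, (it c i x + it c i y)

lemma it_sub_it (n : ℕ) (c x y : ℂ) : it c n x - it c n y = (x - y) * DD n c x y := by
  induction n with
  | zero => simp [DD]
  | succ n ih =>
    have h1 : DD (n + 1) c x y = DD n c x y * (it c n x + it c n y) := by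
      unfold DD; rw [Finset.prod_range_succ]
    rw [h1, ← mul_assoc, ← ih, it_succ, it_succ]
    unfold f; ring

lemma DD_self (n : ℕ) (c b : ℂ) : DD n c b b = mult n c b := by
  unfold DD mult
  exact Finset.prod_congr rfl fun i _ => by ring

lemma continuous_DD (n : ℕ) : Continuous fun p : ℂ × ℂ × ℂ => DD n p.1 p.2.1 p.2.2 := by
  unfold DD
  refine continuous_finsetProd _ fun i _ => ?_
  have h1 : Continuous fun p : ℂ × ℂ × ℂ => ((p.1, p.2.1) : ℂ × ℂ) := by fun_prop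
  have h2 : Continuous fun p : ℂ × ℂ × ℂ => ((p.1, p.2.2) : ℂ × ℂ) := by fun_prop
  have h3 : Continuous ((fun p : ℂ × ℂ => it p.1 i p.2) ∘
    fun p : ℂ × ℂ × ℂ => ((p.1, p.2.1) : ℂ × ℂ)) := Continuous.comp (continuous_it i) h1
  have h4 : Continuous ((fun p : ℂ × ℂ => it p.1 i p.2) ∘
    fun p : ℂ × ℂ × ℂ => ((p.1, p.2.2) : ℂ × ℂ)) := Continuous.comp (continuous_it i) h2
  exact h3.add h4

lemma mult_succ (n : ℕ) (c b : ℂ) : mult (n + 1) c b = mult n c b * (2 * it c n b) := by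
  unfold mult; rw [Finset.prod_range_succ]

@[simp] lemma mult_zero (c b : ℂ) : mult 0 c b = 1 := by simp [mult]

@[fun_prop] lemma continuous_mult (n : ℕ) : Continuous fun p : ℂ × ℂ => mult n p.1 p.2 := by
  unfold mult
  exact continuous_finsetProd _ fun i _ => continuous_const.mul (continuous_it i)

@[fun_prop] lemma differentiable_mult (n : ℕ) :
    Differentiable ℂ fun p : ℂ × ℂ => mult n p.1 p.2 := by
  induction n with
  | zero => simp only [mult_zero]; exact differentiable_const _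
  | succ n ih =>
    simp only [mult_succ]
    exact ih.mul ((differentiable_it n).const_mul 2)

theorem hasDerivAt_it_mult (c : ℂ) (n : ℕ) (z : ℂ) : HasDerivAt (it c n) (mult n c z) z := by
  induction n with
  | zero =>
    have : it c 0 = id := by funext x; rfl
    rw [this, mult_zero]; exact hasDerivAt_id z
  | succ n ih =>
    have h1 : it c (n + 1) = fun x => (it c n x) ^ 2 + c := by funext x; rw [it_succ]; rfl
    rw [h1, mult_succ]
    have h2 := (ih.pow 2).add_const c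
    have e : mult n c z * (2 * it c n z) = ((2 : ℕ) : ℂ) * it c n z ^ (2 - 1) * mult n c z := by
      norm_num; ring
    rw [e]; exact h2

/-- quadratic remainder of the iterate -/
noncomputable def RR : ℕ → ℂ → ℂ → ℂ → ℂ
  | 0, _, _, _ => 0
  | n + 1, c, z, h => 2 * it c n z * RR n c z h + (mult n c z + h * RR n c z h) ^ 2

lemma it_add_eq (n : ℕ) (c z h : ℂ) :
    it c n (z + h) = it c n z + mult n c z * h + h ^ 2 * RR n c z h := by
  induction n with
  | zero => simp [RR]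
  | succ n ih =>
    rw [it_succ, it_succ, ih, mult_succ, RR]
    unfold f; ring

lemma continuous_RR (n : ℕ) : Continuous fun p : (ℂ × ℂ) × ℂ => RR n p.1.1 p.1.2 p.2 := by
  induction n with
  | zero => exact continuous_const
  | succ n ih =>
    simp only [RR]
    have h1 : Continuous ((fun p : ℂ × ℂ => it p.1 n p.2) ∘ fun p : (ℂ × ℂ) × ℂ => p.1) :=
      Continuous.comp (continuous_it n) continuous_fst
    have h2 : Continuous ((fun p : ℂ × ℂ => mult n p.1 p.2) ∘ fun p : (ℂ × ℂ) × ℂ => p.1) :=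
      Continuous.comp (continuous_mult n) continuous_fst
    exact ((continuous_const.mul h1).mul ih).add ((h2.add (continuous_snd.mul ih)).pow 2)

/-! ### the approximants -/

/-- pairs (parameter, repelling fixed point of the `n`-th iterate) -/
def Rep (n : ℕ) : Set (ℂ × ℂ) := {p | it p.1 n p.2 = p.2 ∧ 1 < ‖mult n p.1 p.2‖}

/-- approximants of the linearizer -/
noncomputable def Lk (n : ℕ) (c b : ℂ) (k : ℕ) (ζ : ℂ) : ℂ := it c (n * k) (b + ζ / mult n c b ^ k)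

/-- the linearizer -/
noncomputable def Lz (n : ℕ) (c b ζ : ℂ) : ℂ := limUnder atTop fun k => Lk n c b k ζ

lemma Lk_zero (n : ℕ) (c b ζ : ℂ) : Lk n c b 0 ζ = b + ζ := by simp [Lk]

lemma Lk_add (n : ℕ) (c b : ℂ) (k m : ℕ) (ζ : ℂ) :
    Lk n c b (k + m) ζ = it c (n * m) (Lk n c b k (ζ / mult n c b ^ m)) := by
  unfold Lk
  rw [← it_add, div_div, ← pow_add]
  congr 1
  · ring
  · rw [add_comm m k]

lemma Lk_succ (n : ℕ) (c b : ℂ) (k : ℕ) (ζ : ℂ) :
    Lk n c b (k + 1) ζ = it c n (Lk n c b k (ζ / mult n c b)) := by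
  rw [Lk_add, mul_one, pow_one]

/-- constants for the convergence near the fixed point -/
structure LD (n : ℕ) (c b : ℂ) (σ Λ K r : ℝ) : Prop where
  fix : it c n b = b
  hσ : 1 < σ
  hρ : σ ≤ ‖mult n c b‖
  hr : 0 < r
  hK : 0 ≤ K
  hΛ0 : 0 ≤ Λ
  hΛ : Λ < σ ^ 2
  hKr : K * r ≤ σ ^ 2 - Λ
  hD : ∀ x y, ‖x - b‖ ≤ 2 * r → ‖y - b‖ ≤ 2 * r → ‖DD n c x y‖ ≤ Λ
  hR : ∀ h, ‖h‖ ≤ r → ‖RR n c b h‖ ≤ K

theorem exists_LD {n : ℕ} {c₀ b₀ : ℂ} (h : 1 < ‖mult n c₀ b₀‖) : ∃ σ Λ K r : ℝ,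
    ∀ᶠ p : ℂ × ℂ in 𝓝 (c₀, b₀), it p.1 n p.2 = p.2 → LD n p.1 p.2 σ Λ K r := by
  set R₀ := ‖mult n c₀ b₀‖ with hR₀
  obtain ⟨σ, hσ1, hσ2⟩ : ∃ σ, Real.sqrt R₀ < σ ∧ σ < R₀ := by
    apply exists_between
    rw [Real.sqrt_lt' (by linarith)]
    nlinarith
  have hs1 : 1 < Real.sqrt R₀ := by
    rw [Real.lt_sqrt (by norm_num)]; linarith
  have hσ3 : R₀ < σ ^ 2 := by
    have := Real.sq_sqrt (show 0 ≤ R₀ by linarith)
    nlinarith
  obtain ⟨Λ, hΛ1, hΛ2⟩ := exists_between hσ3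
  set K : ℝ := ‖RR n c₀ b₀ 0‖ + 1 with hK
  -- neighbourhoods
  have e1 : ∀ᶠ p : ℂ × ℂ in 𝓝 (c₀, b₀), σ < ‖mult n p.1 p.2‖ :=
    (continuous_mult n).norm.continuousAt.eventually (lt_mem_nhds (by exact hσ2))
  have e2 : ∀ᶠ q : (ℂ × ℂ) × ℂ in 𝓝 ((c₀, b₀), (0 : ℂ)), ‖RR n q.1.1 q.1.2 q.2‖ < K :=
    (continuous_RR n).norm.continuousAt.eventually (gt_mem_nhds (by simp only [hK]; linarith))
  have e3 : ∀ᶠ q : ℂ × ℂ × ℂ in 𝓝 (c₀, b₀, b₀), ‖DD n q.1 q.2.1 q.2.2‖ < Λ :=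
    (continuous_DD n).norm.continuousAt.eventually
      (gt_mem_nhds (by simp only [DD_self]; exact hΛ1))
  obtain ⟨ε₂, hε₂, he2⟩ := Metric.eventually_nhds_iff.1 e2
  obtain ⟨ε₃, hε₃, he3⟩ := Metric.eventually_nhds_iff.1 e3
  obtain ⟨r, hr0, hr⟩ : ∃ r : ℝ, 0 < r ∧ r < ε₂ ∧ 4 * r < ε₃ ∧ K * r ≤ σ ^ 2 - Λ := by
    have hKpos : 0 < K := by positivity
    refine ⟨min (ε₂ / 2) (min (ε₃ / 8) ((σ ^ 2 - Λ) / K)), ?_, ?_, ?_, ?_⟩
    · have : 0 < (σ ^ 2 - Λ) / K := div_pos (by linarith) hKpos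
      positivity
    · exact (min_le_left _ _).trans_lt (by linarith)
    · have : min (ε₂ / 2) (min (ε₃ / 8) ((σ ^ 2 - Λ) / K)) ≤ ε₃ / 8 :=
        (min_le_right _ _).trans (min_le_left _ _)
      linarith
    · have : min (ε₂ / 2) (min (ε₃ / 8) ((σ ^ 2 - Λ) / K)) ≤ (σ ^ 2 - Λ) / K :=
        (min_le_right _ _).trans (min_le_right _ _)
      calc K * _ ≤ K * ((σ ^ 2 - Λ) / K) := by gcongr
        _ = _ := by field_simp
  refine ⟨σ, Λ, K, r, ?_⟩
  have e4 : ∀ᶠ p : ℂ × ℂ in 𝓝 (c₀, b₀), dist p (c₀, b₀) < min ε₂ (ε₃ / 2) := by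
    exact Metric.eventually_nhds_iff.2 ⟨min ε₂ (ε₃ / 2), by positivity, fun _ hy => hy⟩
  filter_upwards [e1, e4] with p hp1 hp4 hfix
  rw [Prod.dist_eq, max_lt_iff] at hp4
  obtain ⟨h41, h42⟩ := hp4
  simp only at h41 h42
  have hΛ0 : 0 ≤ Λ := by linarith
  refine ⟨hfix, by linarith, hp1.le, hr0, by positivity, hΛ0, hΛ2, hr.2.2, ?_, ?_⟩
  · intro x y hx hy
    have : dist (p.1, x, y) (c₀, b₀, b₀) < ε₃ := by
      rw [Prod.dist_eq, Prod.dist_eq, max_lt_iff, max_lt_iff]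
      refine ⟨h41.trans_le ((min_le_right _ _).trans (by linarith)), ?_, ?_⟩
      · have h5 := dist_triangle x p.2 b₀
        rw [dist_eq_norm x p.2] at h5
        have h6 := h42.trans_le (min_le_right _ _)
        simp only
        linarith [hr.2.1]
      · have h5 := dist_triangle y p.2 b₀
        rw [dist_eq_norm y p.2] at h5
        have h6 := h42.trans_le (min_le_right _ _)
        simp only
        linarith [hr.2.1]
    exact (he3 this).le
  · intro h hh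
    have : dist (p, h) ((c₀, b₀), (0 : ℂ)) < ε₂ := by
      rw [Prod.dist_eq, Prod.dist_eq, max_lt_iff, max_lt_iff]
      refine ⟨⟨h41.trans_le (min_le_left _ _), h42.trans_le (min_le_left _ _)⟩, ?_⟩
      simp only
      rw [dist_zero_right]; exact hh.trans_lt hr.1
    exact (he2 this).le

namespace LD

variable {n : ℕ} {c b : ℂ} {σ Λ K r : ℝ}

lemma mult_ne (h : LD n c b σ Λ K r) : mult n c b ≠ 0 := by
  rw [← norm_pos_iff]; linarith [h.hσ, h.hρ]

lemma norm_div_le (h : LD n c b σ Λ K r) (ζ : ℂ) : ‖ζ / mult n c b‖ ≤ ‖ζ‖ := by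
  rw [norm_div]
  exact div_le_self (norm_nonneg _) (by linarith [h.hσ, h.hρ])

lemma sq_div_le (h : LD n c b σ Λ K r) (ζ : ℂ) : ‖ζ / mult n c b‖ ^ 2 ≤ ‖ζ‖ ^ 2 / σ ^ 2 := by
  rw [norm_div, div_pow]
  have := h.hσ
  have := h.hρ
  gcongr

lemma ratio_nonneg (h : LD n c b σ Λ K r) : 0 ≤ Λ / σ ^ 2 := div_nonneg h.hΛ0 (by positivity)

lemma ratio_lt_one (h : LD n c b σ Λ K r) : Λ / σ ^ 2 < 1 := by
  have : 0 < σ ^ 2 := by have := h.hσ; positivity
  rw [div_lt_one this]; exact h.hΛ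

lemma sum_le (h : LD n c b σ Λ K r) (k : ℕ) :
    K / σ ^ 2 * ∑ j ∈ Finset.range k, (Λ / σ ^ 2) ^ j ≤ K / (σ ^ 2 - Λ) := by
  have hs : 0 < σ ^ 2 := by have := h.hσ; positivity
  have h1 : ∑ j ∈ Finset.range k, (Λ / σ ^ 2) ^ j ≤ (1 - Λ / σ ^ 2)⁻¹ := by
    have h2 := (summable_geometric_of_lt_one h.ratio_nonneg h.ratio_lt_one).sum_le_tsum
      (Finset.range k) (fun j _ => pow_nonneg h.ratio_nonneg j)
    rwa [tsum_geometric_of_lt_one h.ratio_nonneg h.ratio_lt_one] at h2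
  have hK := h.hK
  calc K / σ ^ 2 * ∑ j ∈ Finset.range k, (Λ / σ ^ 2) ^ j ≤ K / σ ^ 2 * (1 - Λ / σ ^ 2)⁻¹ := by
        gcongr
    _ = K / (σ ^ 2 - Λ) := by
        have h3 : 0 < σ ^ 2 - Λ := by linarith [h.hΛ]
        rw [one_sub_div hs.ne', inv_div, div_mul_div_cancel₀ hs.ne']

lemma sum_le' (h : LD n c b σ Λ K r) (k : ℕ) {ζ : ℂ} (hζ : ‖ζ‖ ≤ r) :
    K / σ ^ 2 * (∑ j ∈ Finset.range k, (Λ / σ ^ 2) ^ j) * ‖ζ‖ ^ 2 ≤ ‖ζ‖ := by
  have h1 := h.sum_le k
  have h3 : 0 < σ ^ 2 - Λ := by linarith [h.hΛ]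
  have h4 : K / (σ ^ 2 - Λ) * r ≤ 1 := by
    rw [div_mul_eq_mul_div, div_le_one h3]; exact h.hKr
  have h5 : 0 ≤ K / (σ ^ 2 - Λ) := div_nonneg h.hK h3.le
  calc K / σ ^ 2 * (∑ j ∈ Finset.range k, (Λ / σ ^ 2) ^ j) * ‖ζ‖ ^ 2
      ≤ K / (σ ^ 2 - Λ) * ‖ζ‖ ^ 2 := by gcongr
    _ = K / (σ ^ 2 - Λ) * ‖ζ‖ * ‖ζ‖ := by ring
    _ ≤ K / (σ ^ 2 - Λ) * r * ‖ζ‖ := by gcongr
    _ ≤ 1 * ‖ζ‖ := by gcongr
    _ = ‖ζ‖ := one_mul _

theorem key (h : LD n c b σ Λ K r) (k : ℕ) : ∀ ζ : ℂ, ‖ζ‖ ≤ r →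
    ‖Lk n c b k ζ - b - ζ‖ ≤ K / σ ^ 2 * (∑ j ∈ Finset.range k, (Λ / σ ^ 2) ^ j) * ‖ζ‖ ^ 2 ∧
    ‖Lk n c b (k + 1) ζ - Lk n c b k ζ‖ ≤ K / σ ^ 2 * (Λ / σ ^ 2) ^ k * ‖ζ‖ ^ 2 := by
  have hstep : ∀ k : ℕ, ∀ ζ : ℂ,
      (‖Lk n c b k ζ - b - ζ‖ ≤
        K / σ ^ 2 * (∑ j ∈ Finset.range k, (Λ / σ ^ 2) ^ j) * ‖ζ‖ ^ 2 ∧
      ‖Lk n c b (k + 1) ζ - Lk n c b k ζ‖ ≤ K / σ ^ 2 * (Λ / σ ^ 2) ^ k * ‖ζ‖ ^ 2) →
      ‖Lk n c b (k + 1) ζ - b - ζ‖ ≤
        K / σ ^ 2 * (∑ j ∈ Finset.range (k + 1), (Λ / σ ^ 2) ^ j) * ‖ζ‖ ^ 2 := by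
    intro k ζ hh
    have e : Lk n c b (k + 1) ζ - b - ζ =
      (Lk n c b k ζ - b - ζ) + (Lk n c b (k + 1) ζ - Lk n c b k ζ) := by ring
    rw [e, Finset.sum_range_succ]
    refine (norm_add_le _ _).trans ?_
    have := hh.1
    have := hh.2
    nlinarith
  induction k with
  | zero =>
    intro ζ hζ
    refine ⟨by simp [Lk_zero], ?_⟩
    have h1 := it_add_eq n c b (ζ / mult n c b)
    rw [h.fix, mul_div_cancel₀ _ h.mult_ne] at h1
    have h2 : Lk n c b (0 + 1) ζ - Lk n c b 0 ζ =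
        (ζ / mult n c b) ^ 2 * RR n c b (ζ / mult n c b) := by
      rw [Lk_succ, Lk_zero, Lk_zero, h1]; ring
    rw [h2, norm_mul, norm_pow, pow_zero, mul_one]
    have h3 := h.hR _ ((h.norm_div_le ζ).trans hζ)
    have h4 := h.sq_div_le ζ
    calc ‖ζ / mult n c b‖ ^ 2 * ‖RR n c b (ζ / mult n c b)‖ ≤ (‖ζ‖ ^ 2 / σ ^ 2) * K := by
          gcongr
      _ = _ := by ring
  | succ k ih =>
    intro ζ hζ
    have hb1 := hstep k ζ (ih ζ hζ)
    refine ⟨hb1, ?_⟩
    have hζ' := (h.norm_div_le ζ).trans hζ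
    obtain ⟨i1, i2⟩ := ih _ hζ'
    have i3 := hstep k _ ⟨i1, i2⟩
    have g1 : ‖Lk n c b k (ζ / mult n c b) - b‖ ≤ 2 * r := by
      have e : Lk n c b k (ζ / mult n c b) - b =
        (Lk n c b k (ζ / mult n c b) - b - ζ / mult n c b) + ζ / mult n c b := by ring
      rw [e]
      refine (norm_add_le _ _).trans ?_
      have := h.sum_le' k hζ'
      linarith
    have g2 : ‖Lk n c b (k + 1) (ζ / mult n c b) - b‖ ≤ 2 * r := by
      have e : Lk n c b (k + 1) (ζ / mult n c b) - b =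
        (Lk n c b (k + 1) (ζ / mult n c b) - b - ζ / mult n c b) + ζ / mult n c b := by ring
      rw [e]
      refine (norm_add_le _ _).trans ?_
      have := h.sum_le' (k + 1) hζ'
      linarith
    have e1 := Lk_succ n c b (k + 1) ζ
    have e2 := Lk_succ n c b k ζ
    rw [e1, e2, it_sub_it, norm_mul]
    have g3 := h.hD _ _ g2 g1
    have h4 := h.sq_div_le ζ
    have hK := h.hK
    have hrn := h.ratio_nonneg
    have hΛ0 := h.hΛ0
    calc ‖Lk n c b (k + 1) (ζ / mult n c b) - Lk n c b k (ζ / mult n c b)‖ *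
          ‖DD n c (Lk n c b (k + 1) (ζ / mult n c b)) (Lk n c b k (ζ / mult n c b))‖
        ≤ (K / σ ^ 2 * (Λ / σ ^ 2) ^ k * ‖ζ / mult n c b‖ ^ 2) * Λ := by gcongr
      _ ≤ (K / σ ^ 2 * (Λ / σ ^ 2) ^ k * (‖ζ‖ ^ 2 / σ ^ 2)) * Λ := by gcongr
      _ = _ := by rw [pow_succ]; ring

lemma norm_Lk_sub_le (h : LD n c b σ Λ K r) (k : ℕ) {ζ : ℂ} (hζ : ‖ζ‖ ≤ r) :
    ‖Lk n c b (k + 1) ζ - Lk n c b k ζ‖ ≤ (K / σ ^ 2 * r ^ 2) * (Λ / σ ^ 2) ^ k := by
  have h1 := (h.key k ζ hζ).2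
  have hK := h.hK
  have hrn := h.ratio_nonneg
  calc _ ≤ K / σ ^ 2 * (Λ / σ ^ 2) ^ k * ‖ζ‖ ^ 2 := h1
    _ ≤ K / σ ^ 2 * (Λ / σ ^ 2) ^ k * r ^ 2 := by gcongr
    _ = _ := by ring

lemma tendsto_of_le (h : LD n c b σ Λ K r) {ζ : ℂ} (hζ : ‖ζ‖ ≤ r) :
    Tendsto (fun k => Lk n c b k ζ) atTop (𝓝 (Lz n c b ζ)) := by
  have h1 : CauchySeq fun k => Lk n c b k ζ := by
    refine cauchySeq_of_le_geometric (Λ / σ ^ 2) (K / σ ^ 2 * r ^ 2) h.ratio_lt_one fun k => ?_
    rw [dist_comm, dist_eq_norm]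
    exact h.norm_Lk_sub_le k hζ
  exact h1.tendsto_limUnder

lemma norm_Lk_sub_Lz (h : LD n c b σ Λ K r) {ζ : ℂ} (hζ : ‖ζ‖ ≤ r) (k : ℕ) :
    ‖Lk n c b k ζ - Lz n c b ζ‖ ≤
      (K / σ ^ 2 * r ^ 2) * (Λ / σ ^ 2) ^ k / (1 - Λ / σ ^ 2) := by
  have h2 : ∀ k, dist (Lk n c b k ζ) (Lk n c b (k + 1) ζ) ≤
      (K / σ ^ 2 * r ^ 2) * (Λ / σ ^ 2) ^ k := by
    intro k
    rw [dist_comm, dist_eq_norm]
    exact h.norm_Lk_sub_le k hζ
  have := dist_le_of_le_geometric_of_tendsto (Λ / σ ^ 2) (K / σ ^ 2 * r ^ 2) h.ratio_lt_one h2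
    (h.tendsto_of_le hζ) k
  rwa [dist_eq_norm] at this

/-- `Lz` is tangent to the translation by `b`, with a uniform constant -/
theorem norm_Lz_sub (h : LD n c b σ Λ K r) {ζ : ℂ} (hζ : ‖ζ‖ ≤ r) :
    ‖Lz n c b ζ - b - ζ‖ ≤ K / (σ ^ 2 - Λ) * ‖ζ‖ ^ 2 := by
  have h1 : Tendsto (fun k => ‖Lk n c b k ζ - b - ζ‖) atTop (𝓝 ‖Lz n c b ζ - b - ζ‖) :=
    (((h.tendsto_of_le hζ).sub_const b).sub_const ζ).norm
  refine le_of_tendsto' h1 fun k => ((h.key k ζ hζ).1).trans ?_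
  have := h.sum_le k
  gcongr

/-- some division by a power of the multiplier brings `ζ` into the small disc -/
lemma exists_pow (h : LD n c b σ Λ K r) (ζ : ℂ) : ∃ m : ℕ, ‖ζ / mult n c b ^ m‖ < r := by
  have h1 : Tendsto (fun m : ℕ => ‖ζ‖ / ‖mult n c b‖ ^ m) atTop (𝓝 0) :=
    (tendsto_pow_atTop_atTop_of_one_lt (by linarith [h.hσ, h.hρ])).const_div_atTop _
  obtain ⟨m, hm⟩ := (h1.eventually (gt_mem_nhds h.hr)).exists
  exact ⟨m, by rwa [norm_div, norm_pow]⟩

end LD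

/-! ### the linearizer -/

section Lz

variable {n : ℕ} {c b : ℂ}

lemma LD_of_Rep (h : (c, b) ∈ Rep n) : ∃ σ Λ K r : ℝ, LD n c b σ Λ K r := by
  obtain ⟨σ, Λ, K, r, h1⟩ := exists_LD h.2
  exact ⟨σ, Λ, K, r, h1.self_of_nhds h.1⟩

lemma tendsto_aux (ζ : ℂ) {σ Λ K r : ℝ} (hL : LD n c b σ Λ K r) {m : ℕ}
    (hm : ‖ζ / mult n c b ^ m‖ ≤ r) : Tendsto (fun k => Lk n c b k ζ) atTop
      (𝓝 (it c (n * m) (Lz n c b (ζ / mult n c b ^ m)))) := by
  have h1 := hL.tendsto_of_le hm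
  have h2 : Tendsto (fun k => Lk n c b (k + m) ζ) atTop
      (𝓝 (it c (n * m) (Lz n c b (ζ / mult n c b ^ m)))) := by
    simp only [Lk_add]
    exact ((continuous_it_right c (n * m)).tendsto _).comp h1
  exact (tendsto_add_atTop_iff_nat m).1 h2

theorem tendsto_Lk (h : (c, b) ∈ Rep n) (ζ : ℂ) :
    Tendsto (fun k => Lk n c b k ζ) atTop (𝓝 (Lz n c b ζ)) := by
  obtain ⟨σ, Λ, K, r, hL⟩ := LD_of_Rep h
  obtain ⟨m, hm⟩ := hL.exists_pow ζ
  have h1 := tendsto_aux ζ hL hm.le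
  have h2 : Lz n c b ζ = it c (n * m) (Lz n c b (ζ / mult n c b ^ m)) := h1.limUnder_eq
  rw [h2]; exact h1

theorem Lz_zero (h : (c, b) ∈ Rep n) : Lz n c b 0 = b := by
  have h1 : ∀ k, it c (n * k) b = b := by
    intro k
    induction k with
    | zero => simp
    | succ k ih => rw [mul_add, mul_one, add_comm, it_add, ih, h.1]
  refine tendsto_nhds_unique (tendsto_Lk h 0) ?_
  have : (fun k => Lk n c b k 0) = fun _ => b := by
    funext k; unfold Lk; rw [zero_div, add_zero, h1]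
  rw [this]; exact tendsto_const_nhds

lemma mult_ne_of_Rep (h : (c, b) ∈ Rep n) : mult n c b ≠ 0 := by
  have h2 : 1 < ‖mult n c b‖ := h.2
  rw [← norm_pos_iff]; linarith

/-- the functional equation -/
theorem Lz_mul (h : (c, b) ∈ Rep n) (ζ : ℂ) :
    Lz n c b (mult n c b * ζ) = it c n (Lz n c b ζ) := by
  have h1 : Tendsto (fun k => Lk n c b (k + 1) (mult n c b * ζ)) atTop
      (𝓝 (Lz n c b (mult n c b * ζ))) :=
    (tendsto_Lk h _).comp (tendsto_add_atTop_nat 1)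
  have h2 : Tendsto (fun k => it c n (Lk n c b k ζ)) atTop (𝓝 (it c n (Lz n c b ζ))) :=
    ((continuous_it_right c n).tendsto _).comp (tendsto_Lk h ζ)
  refine tendsto_nhds_unique h1 (h2.congr fun k => ?_)
  rw [Lk_succ, mul_div_cancel_left₀ _ (mult_ne_of_Rep h)]

theorem Lz_pow_mul (h : (c, b) ∈ Rep n) (m : ℕ) (ζ : ℂ) :
    Lz n c b (mult n c b ^ m * ζ) = it c (n * m) (Lz n c b ζ) := by
  induction m with
  | zero => simp
  | succ m ih =>
    rw [pow_succ', mul_assoc, Lz_mul h, ih, mul_add, mul_one, add_comm (n * m), it_add]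

theorem Lz_eq_it (h : (c, b) ∈ Rep n) (m : ℕ) (ζ : ℂ) :
    Lz n c b ζ = it c (n * m) (Lz n c b (ζ / mult n c b ^ m)) := by
  rw [← Lz_pow_mul h, mul_div_cancel₀ _ (pow_ne_zero _ (mult_ne_of_Rep h))]

end Lz

lemma continuous_Lk_aux (n k : ℕ) : ContinuousOn
    (fun q : (ℂ × ℂ) × ℂ => Lk n q.1.1 q.1.2 k q.2) {q | mult n q.1.1 q.1.2 ≠ 0} := by
  unfold Lk
  have h1 : Continuous ((fun p : ℂ × ℂ => mult n p.1 p.2) ∘ fun q : (ℂ × ℂ) × ℂ => q.1) :=
    Continuous.comp (continuous_mult n) continuous_fst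
  have h1' : Continuous fun q : (ℂ × ℂ) × ℂ => mult n q.1.1 q.1.2 := h1
  have h2 : ContinuousOn (fun q : (ℂ × ℂ) × ℂ => q.1.2 + q.2 / mult n q.1.1 q.1.2 ^ k)
      {q | mult n q.1.1 q.1.2 ≠ 0} :=
    (continuous_fst.snd).continuousOn.add
      (continuous_snd.continuousOn.div (h1'.pow k).continuousOn fun q hq => pow_ne_zero _ hq)
  have h3 : ContinuousOn (fun q : (ℂ × ℂ) × ℂ =>
      ((q.1.1, q.1.2 + q.2 / mult n q.1.1 q.1.2 ^ k) : ℂ × ℂ))
      {q | mult n q.1.1 q.1.2 ≠ 0} :=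
    (continuous_fst.fst).continuousOn.prodMk h2
  exact Continuous.comp_continuousOn (g := fun p : ℂ × ℂ => it p.1 (n * k) p.2)
    (continuous_it (n * k)) h3

/-- uniform convergence of the approximants near a point -/
lemma tendstoUniformlyOn_Lk {n : ℕ} {σ Λ K r : ℝ} {α : Type*} {S : Set α} {c b δ : α → ℂ}
    (h : ∀ t ∈ S, LD n (c t) (b t) σ Λ K r ∧ ‖δ t‖ ≤ r) :
    TendstoUniformlyOn (fun (k : ℕ) (t : α) => Lk n (c t) (b t) k (δ t))
      (fun t => Lz n (c t) (b t) (δ t)) atTop S := by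
  rw [Metric.tendstoUniformlyOn_iff]
  intro ε hε
  by_cases hS : S.Nonempty
  · obtain ⟨t₀, ht₀⟩ := hS
    have hL := (h t₀ ht₀).1
    have h1 : Tendsto (fun k : ℕ => (K / σ ^ 2 * r ^ 2) * (Λ / σ ^ 2) ^ k / (1 - Λ / σ ^ 2))
        atTop (𝓝 0) := by
      have := ((tendsto_pow_atTop_nhds_zero_of_lt_one hL.ratio_nonneg hL.ratio_lt_one).const_mul
        (K / σ ^ 2 * r ^ 2)).div_const (1 - Λ / σ ^ 2)
      simpa using this
    filter_upwards [h1.eventually (gt_mem_nhds hε)] with k hk t ht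
    rw [dist_comm, dist_eq_norm]
    exact ((h t ht).1.norm_Lk_sub_Lz (h t ht).2 k).trans_lt hk
  · rw [not_nonempty_iff_eq_empty] at hS
    exact Eventually.of_forall fun k t ht => by rw [hS] at ht; exact absurd ht (notMem_empty _)

/-- joint continuity of the linearizer -/
theorem continuousOn_Lz (n : ℕ) : ContinuousOn (fun q : (ℂ × ℂ) × ℂ => Lz n q.1.1 q.1.2 q.2)
    {q | q.1 ∈ Rep n} := by
  intro q₀ hq₀
  have hq₀' : q₀.1 ∈ Rep n := hq₀
  obtain ⟨σ, Λ, K, r, hev⟩ := exists_LD (n := n) (c₀ := q₀.1.1) (b₀ := q₀.1.2) hq₀'.2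
  have hL₀ : LD n q₀.1.1 q₀.1.2 σ Λ K r := hev.self_of_nhds hq₀'.1
  obtain ⟨m, hm⟩ := hL₀.exists_pow q₀.2
  obtain ⟨N, hN, hNo, hq₀N⟩ := _root_.eventually_nhds_iff.1 hev
  have h1 : Continuous fun q : (ℂ × ℂ) × ℂ => mult n q.1.1 q.1.2 := by
    have : Continuous ((fun p : ℂ × ℂ => mult n p.1 p.2) ∘ fun q : (ℂ × ℂ) × ℂ => q.1) :=
      Continuous.comp (continuous_mult n) continuous_fst
    exact this
  have hc1 : ContinuousOn (fun q : (ℂ × ℂ) × ℂ => ((q.1, q.2 / mult n q.1.1 q.1.2 ^ m) :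
      (ℂ × ℂ) × ℂ)) {q | q.1 ∈ Rep n} :=
    continuousOn_fst.prodMk (continuousOn_snd.div (h1.pow m).continuousOn fun q hq =>
      pow_ne_zero _ (mult_ne_of_Rep (c := q.1.1) (b := q.1.2) hq))
  set T : Set ((ℂ × ℂ) × ℂ) := {q | q.1 ∈ Rep n ∧ q.1 ∈ N ∧ ‖q.2‖ < r} with hT
  have hcL : ContinuousOn (fun q : (ℂ × ℂ) × ℂ => Lz n q.1.1 q.1.2 q.2) T := by
    have hu := tendstoUniformlyOn_Lk (n := n) (S := T) (c := fun q => q.1.1)
      (b := fun q => q.1.2) (δ := fun q => q.2) (σ := σ) (Λ := Λ) (K := K) (r := r)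
      (fun q hq => ⟨hN q.1 hq.2.1 hq.1.1, hq.2.2.le⟩)
    refine hu.continuousOn (Eventually.frequently (Eventually.of_forall fun k => ?_))
    exact (continuous_Lk_aux n k).mono fun q hq =>
      mult_ne_of_Rep (c := q.1.1) (b := q.1.2) hq.1
  -- the point `(q.1, q.2 / ρ ^ m)` lies in `T` near `q₀`
  have hmem : (q₀.1, q₀.2 / mult n q₀.1.1 q₀.1.2 ^ m) ∈ T := ⟨hq₀', hq₀N, hm⟩
  have hTn : ∀ᶠ q in 𝓝[{q | q.1 ∈ Rep n}] q₀,
      ((q.1, q.2 / mult n q.1.1 q.1.2 ^ m) : (ℂ × ℂ) × ℂ) ∈ T := by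
    have hopen : IsOpen {q : (ℂ × ℂ) × ℂ | q.1 ∈ N ∧ ‖q.2‖ < r} :=
      (hNo.preimage continuous_fst).inter (isOpen_lt continuous_snd.norm continuous_const)
    have h5 := (hc1 q₀ hq₀).eventually (hopen.mem_nhds (show _ ∈ _ from ⟨hq₀N, hm⟩))
    filter_upwards [h5, self_mem_nhdsWithin] with q hq1 hq2
    exact ⟨hq2, hq1⟩
  have h6 : ContinuousWithinAt (fun q : (ℂ × ℂ) × ℂ =>
      Lz n q.1.1 q.1.2 (q.2 / mult n q.1.1 q.1.2 ^ m)) {q | q.1 ∈ Rep n} q₀ := by
    have h7 : Tendsto (fun q : (ℂ × ℂ) × ℂ => ((q.1, q.2 / mult n q.1.1 q.1.2 ^ m) :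
        (ℂ × ℂ) × ℂ)) (𝓝[{q | q.1 ∈ Rep n}] q₀)
        (𝓝[T] (q₀.1, q₀.2 / mult n q₀.1.1 q₀.1.2 ^ m)) :=
      tendsto_nhdsWithin_iff.2 ⟨hc1 q₀ hq₀, hTn⟩
    have h7' : Tendsto ((fun q : (ℂ × ℂ) × ℂ => Lz n q.1.1 q.1.2 q.2) ∘
        fun q : (ℂ × ℂ) × ℂ => ((q.1, q.2 / mult n q.1.1 q.1.2 ^ m) : (ℂ × ℂ) × ℂ))
        (𝓝[{q | q.1 ∈ Rep n}] q₀)
        (𝓝 (Lz n q₀.1.1 q₀.1.2 (q₀.2 / mult n q₀.1.1 q₀.1.2 ^ m))) :=
      Tendsto.comp (hcL _ hmem).tendsto h7
    exact h7'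
  have h8 : ContinuousWithinAt (fun q : (ℂ × ℂ) × ℂ => it q.1.1 (n * m)
      (Lz n q.1.1 q.1.2 (q.2 / mult n q.1.1 q.1.2 ^ m))) {q | q.1 ∈ Rep n} q₀ := by
    have h9 : ContinuousWithinAt (fun q : (ℂ × ℂ) × ℂ => ((q.1.1,
      Lz n q.1.1 q.1.2 (q.2 / mult n q.1.1 q.1.2 ^ m)) : ℂ × ℂ)) {q | q.1 ∈ Rep n} q₀ :=
      (continuous_fst.fst).continuousWithinAt.prodMk h6
    have h10 : Tendsto ((fun p : ℂ × ℂ => it p.1 (n * m) p.2) ∘
        fun q : (ℂ × ℂ) × ℂ => ((q.1.1,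
          Lz n q.1.1 q.1.2 (q.2 / mult n q.1.1 q.1.2 ^ m)) : ℂ × ℂ))
        (𝓝[{q | q.1 ∈ Rep n}] q₀) (𝓝 (it q₀.1.1 (n * m)
          (Lz n q₀.1.1 q₀.1.2 (q₀.2 / mult n q₀.1.1 q₀.1.2 ^ m)))) :=
      Tendsto.comp ((continuous_it (n * m)).tendsto _) h9
    exact h10
  refine h8.congr (fun q hq => ?_) ?_
  · exact Lz_eq_it (c := q.1.1) (b := q.1.2) hq m q.2
  · exact Lz_eq_it (c := q₀.1.1) (b := q₀.1.2) hq₀' m q₀.2

/-- the linearizer is holomorphic along holomorphic curves of (parameter, fixed point, variable) -/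
theorem differentiableOn_Lz {n : ℕ} {U : Set ℂ} (hU : IsOpen U) {γ β δ : ℂ → ℂ}
    (hγ : DifferentiableOn ℂ γ U) (hβ : DifferentiableOn ℂ β U) (hδ : DifferentiableOn ℂ δ U)
    (h : ∀ t ∈ U, (γ t, β t) ∈ Rep n) :
    DifferentiableOn ℂ (fun t => Lz n (γ t) (β t) (δ t)) U := by
  intro t₀ ht₀
  obtain ⟨σ, Λ, K, r, hev⟩ := exists_LD (h t₀ ht₀).2
  have hL₀ : LD n (γ t₀) (β t₀) σ Λ K r := hev.self_of_nhds (h t₀ ht₀).1
  obtain ⟨m, hm⟩ := hL₀.exists_pow (δ t₀)
  obtain ⟨N, hN, hNo, hN₀⟩ := _root_.eventually_nhds_iff.1 hev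
  have hmu : DifferentiableOn ℂ (fun t => mult n (γ t) (β t)) U :=
    (differentiable_mult n).comp_differentiableOn (hγ.prodMk hβ)
  have hd1 : DifferentiableOn ℂ (fun t => δ t / mult n (γ t) (β t) ^ m) U :=
    hδ.div (hmu.pow m) fun t ht => pow_ne_zero _ (mult_ne_of_Rep (h t ht))
  have hc1 : ContinuousOn (fun t => (((γ t, β t), δ t / mult n (γ t) (β t) ^ m) :
      (ℂ × ℂ) × ℂ)) U :=
    (hγ.continuousOn.prodMk hβ.continuousOn).prodMk hd1.continuousOn
  have hopen : IsOpen {q : (ℂ × ℂ) × ℂ | q.1 ∈ N ∧ ‖q.2‖ < r} :=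
    (hNo.preimage continuous_fst).inter (isOpen_lt continuous_snd.norm continuous_const)
  have hV := hc1.isOpen_inter_preimage hU hopen
  set V := U ∩ (fun t => (((γ t, β t), δ t / mult n (γ t) (β t) ^ m) :
      (ℂ × ℂ) × ℂ)) ⁻¹' {q : (ℂ × ℂ) × ℂ | q.1 ∈ N ∧ ‖q.2‖ < r} with hVdef
  have hVU : V ⊆ U := inter_subset_left
  have h1 : DifferentiableOn ℂ (fun t => Lz n (γ t) (β t) (δ t / mult n (γ t) (β t) ^ m)) V := by
    have hu := tendstoUniformlyOn_Lk (n := n) (S := V) (c := γ)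
      (b := β) (δ := fun t => δ t / mult n (γ t) (β t) ^ m) (σ := σ) (Λ := Λ) (K := K) (r := r)
      (fun t ht => ⟨hN (γ t, β t) ht.2.1 (h t ht.1).1, le_of_lt ht.2.2⟩)
    refine hu.tendstoLocallyUniformlyOn.differentiableOn (Eventually.of_forall fun k => ?_) hV
    unfold Lk
    have h2 : DifferentiableOn ℂ (fun t => β t + δ t / mult n (γ t) (β t) ^ m /
        mult n (γ t) (β t) ^ k) V :=
      (hβ.mono hVU).add (((hd1.mono hVU)).div ((hmu.mono hVU).pow k) fun t ht =>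
        pow_ne_zero _ (mult_ne_of_Rep (h t (hVU ht))))
    exact (differentiable_it (n * k)).comp_differentiableOn ((hγ.mono hVU).prodMk h2)
  have h3 : DifferentiableOn ℂ (fun t => it (γ t) (n * m)
      (Lz n (γ t) (β t) (δ t / mult n (γ t) (β t) ^ m))) V :=
    (differentiable_it (n * m)).comp_differentiableOn ((hγ.mono hVU).prodMk h1)
  have h4 : DifferentiableOn ℂ (fun t => Lz n (γ t) (β t) (δ t)) V :=
    h3.congr fun t ht => Lz_eq_it (h t (hVU ht)) m (δ t)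
  exact (h4.differentiableAt (hV.mem_nhds ⟨ht₀, hN₀, hm⟩)).differentiableWithinAt

section Lz2

variable {n : ℕ} {c b : ℂ}

/-- the linearizer is entire -/
theorem differentiable_Lz (h : (c, b) ∈ Rep n) : Differentiable ℂ (Lz n c b) := by
  rw [← differentiableOn_univ]
  exact differentiableOn_Lz (γ := fun _ => c) (β := fun _ => b) (δ := fun t => t) isOpen_univ
    (differentiableOn_const c) (differentiableOn_const b) differentiableOn_id fun _ _ => h

theorem hasDerivAt_Lz_zero (h : (c, b) ∈ Rep n) : HasDerivAt (Lz n c b) 1 0 := by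
  obtain ⟨σ, Λ, K, r, hL⟩ := LD_of_Rep h
  rw [hasDerivAt_iff_isLittleO_nhds_zero]
  simp only [zero_add, Lz_zero h, smul_eq_mul, mul_one]
  rw [Asymptotics.isLittleO_iff]
  intro ε hε
  have h3 : 0 < σ ^ 2 - Λ := by linarith [hL.hΛ]
  have h5 : 0 ≤ K / (σ ^ 2 - Λ) := div_nonneg hL.hK h3.le
  have hpos : 0 < min r (ε / (K / (σ ^ 2 - Λ) + 1)) := lt_min hL.hr (by positivity)
  filter_upwards [Metric.ball_mem_nhds (0 : ℂ) hpos] with ζ hζ
  rw [mem_ball_zero_iff, lt_min_iff] at hζ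
  have h6 := hL.norm_Lz_sub hζ.1.le
  have h7 : (K / (σ ^ 2 - Λ)) * ‖ζ‖ ≤ ε := by
    have h8 := hζ.2
    rw [lt_div_iff₀ (by positivity)] at h8
    nlinarith [norm_nonneg ζ]
  calc ‖Lz n c b ζ - b - ζ‖ ≤ K / (σ ^ 2 - Λ) * ‖ζ‖ ^ 2 := h6
    _ = (K / (σ ^ 2 - Λ) * ‖ζ‖) * ‖ζ‖ := by ring
    _ ≤ ε * ‖ζ‖ := by gcongr

end Lz2

end Pool.Agent.Work.MLC
end

section
set_option autoImplicit false

/-! # `BD` from `Eta`; itineraries  (helper54) -/

namespace Pool.Agent.Work.MLC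

open Filter Topology Metric Set Complex

lemma f_zero_right (c : ℂ) : f c 0 = c := by rw [f_apply]; ring

lemma G_zero_eq (c : ℂ) : G c 0 = G c c / 2 := by
  have h := G_f c 0
  rw [f_zero_right] at h
  linarith

/-- block (0): the inverse Boettcher map of a parameter outside the Mandelbrot set -/
theorem BD_eta {c : ℂ} {th : ℝ} (hc : 0 < G c c) (hth : eta c (G c c + th * I) = c) :
    BD c (G c c) th (eta c) := by
  have h0 := G_zero_eq c
  refine ⟨hc, rfl, ?_, ?_, ?_, ?_, ?_, ?_, ?_, hth, ?_⟩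
  · have := differentiableOn_eta_right c
    rwa [h0] at this
  · intro z hz
    rw [f_eta (by rw [h0]; exact hz)]
  · intro z _
    exact eta_add_two_pi c z
  · intro z hz
    exact eta_add_pi (by rw [h0]; exact hz)
  · intro z z' hz hz' h
    obtain ⟨k, hk⟩ := (eta_eq_iff (by rw [h0]; exact hz') (by rw [h0]; exact hz)).1 h.symm
    exact ⟨k, by rw [hk]; ring⟩
  · intro z hz
    exact G_eta (by rw [h0]; exact hz)
  · intro y hy
    exact eta_surj (by rw [h0]; exact hy)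
  · rw [Metric.tendsto_nhds]
    intro ε hε
    obtain ⟨R, hR⟩ := tendsto_eta_div_exp c ε hε
    refine (tendsto_comap.eventually (eventually_gt_atTop R)).mono fun z hz => ?_
    rw [dist_eq_norm]
    exact hR z hz

theorem exists_BD {c : ℂ} (hc : 0 < G c c) : ∃ th : ℝ, BD c (G c c) th (eta c) := by
  obtain ⟨L, hL, hLc⟩ := eta_surj (c := c) (z := c) (by rw [G_zero_eq]; linarith)
  refine ⟨L.im, BD_eta hc ?_⟩
  rw [← hL, Complex.re_add_im]
  exact hLc

variable {c : ℂ} {g th : ℝ} {E s : ℂ → ℂ}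

lemma sq_eq_one_iff_of_side' {w : ℂ} (h : w ^ 2 = 1) : w = 1 ∨ w = -1 := by
  have : (w - 1) * (w + 1) = 0 := by linear_combination h
  rcases mul_eq_zero.1 this with h | h
  · exact Or.inl (by linear_combination h)
  · exact Or.inr (by linear_combination h)

/-- a point is on the side of the branch `e` -/
def OnSide (c : ℂ) (s : ℂ → ℂ) (e : ℤ) (z : ℂ) : Prop := z = sb s e (f c z)

lemma onSide_or (hS : SQ c g th E s) {z : ℂ} (hz : f c z ∉ ray E g th) :
    OnSide c s 0 z ∨ OnSide c s 1 z := hS.eq_sb hz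

/-- sides are constant along connected sets which avoid the preimage of the critical value ray -/
lemma onSide_const (hS : SQ c g th E s) {S : Set ℂ} (hSc : IsPreconnected S)
    (hr : ∀ z ∈ S, f c z ∉ ray E g th) {e : ℤ} {x y : ℂ} (hx : x ∈ S) (hy : y ∈ S)
    (hxe : OnSide c s e x) : OnSide c s e y := by
  have hne : ∀ z ∈ S, sb s e (f c z) ≠ 0 := fun z hz => hS.sb_ne_zero (hr z hz) e
  have hcont : ContinuousOn (fun z => z / sb s e (f c z)) S := by
    refine continuousOn_id.div ?_ hne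
    have hf : ContinuousOn (fun z => f c z) S := by
      have : Continuous fun z => f c z := by unfold f; fun_prop
      exact this.continuousOn
    exact ((hS.differentiableOn_sb e).continuousOn).comp hf fun z hz => hr z hz
  have hmaps : MapsTo (fun z => z / sb s e (f c z)) S ({1, -1} : Set ℂ) := by
    intro z hz
    have h1 : (z / sb s e (f c z)) ^ 2 = 1 := by
      rw [div_pow, sb_sq, hS.sq _ (hr z hz), f_apply]
      have : z ^ 2 + c - c = z ^ 2 := by ring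
      rw [this, div_self]
      intro h0
      apply hne z hz
      have h2 : sb s e (f c z) ^ 2 = 0 := by
        rw [sb_sq, hS.sq _ (hr z hz), f_apply, this, h0]
      exact pow_eq_zero_iff (two_ne_zero) |>.1 h2
    rcases sq_eq_one_iff_of_side' h1 with h | h <;> simp [h]
  have := hSc.constant_of_mapsTo (Set.toFinite _).isDiscrete hcont hmaps hx hy
  unfold OnSide at hxe ⊢
  have hx1 : x / sb s e (f c x) = 1 := by
    rw [div_eq_one_iff_eq (hne x hx)]; exact hxe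
  rw [hx1] at this
  exact ((div_eq_one_iff_eq (hne y hy)).1 this.symm)

/-- points on external rays: the side is the half circle of the angle -/
lemma onSide_E (hB : BD c g th E) (hS : SQ c g th E s) {z : ℂ} (hz : g / 2 < z.re) (e k : ℤ)
    (h1 : th / 2 + e * Real.pi + k * (2 * Real.pi) < z.im)
    (h2 : z.im < th / 2 + (e + 1) * Real.pi + k * (2 * Real.pi)) :
    OnSide c s e (E z) := by
  unfold OnSide
  rw [← hB.dbl z hz]
  exact (SQ.sb_E hB hS hz e k h1 h2).symm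

/-- the letter (a bit) of a point -/
noncomputable def letter (c : ℂ) (s : ℂ → ℂ) (z : ℂ) : ℤ := by
  classical exact if OnSide c s 0 z then 0 else 1

lemma letter_bit (c : ℂ) (s : ℂ → ℂ) (z : ℂ) : letter c s z = 0 ∨ letter c s z = 1 := by
  unfold letter
  split_ifs
  · exact Or.inl rfl
  · exact Or.inr rfl

lemma onSide_letter (hS : SQ c g th E s) {z : ℂ} (hz : f c z ∉ ray E g th) :
    OnSide c s (letter c s z) z := by
  unfold letter
  split_ifs with h
  · exact h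
  · exact (onSide_or hS hz).resolve_left h

/-- the itinerary (a sequence of bits) of a point -/
noncomputable def itin (c : ℂ) (s : ℂ → ℂ) (b : ℂ) (m : ℕ) : ℤ := letter c s (it c m b)

lemma itin_bit (c : ℂ) (s : ℂ → ℂ) (b : ℂ) (m : ℕ) : itin c s b m = 0 ∨ itin c s b m = 1 :=
  letter_bit _ _ _

lemma G_it_zero {b : ℂ} (hb : G c b = 0) (m : ℕ) : G c (it c m b) = 0 := by
  induction m with
  | zero => exact hb
  | succ m ih => rw [it_succ, G_f, ih, mul_zero]

lemma notMem_ray_of_G_zero (hB : BD c g th E) {z : ℂ} (hz : G c z = 0) : z ∉ ray E g th :=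
  fun h => absurd (hB.G_ray h) (by rw [hz]; exact not_le.2 hB.pos)

lemma itin_spec (hB : BD c g th E) (hS : SQ c g th E s) {b : ℂ} (hb : G c b = 0) (m : ℕ) :
    it c m b = sb s (itin c s b m) (it c (m + 1) b) := by
  have h : f c (it c m b) ∉ ray E g th := by
    rw [← it_succ]; exact notMem_ray_of_G_zero hB (G_it_zero hb _)
  have := onSide_letter hS h
  unfold OnSide at this
  rw [← it_succ] at this
  exact this

lemma itin_shift {b : ℂ} (m k : ℕ) : itin c s b (m + k) = itin c s (it c k b) m := by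
  unfold itin; rw [it_add]

lemma itin_per {n : ℕ} {b : ℂ} (hn : it c n b = b) (m : ℕ) :
    itin c s b (m + n) = itin c s b m := by
  rw [itin_shift, hn]

/-- `g_m (b_m) = b` along the itinerary -/
lemma gc_itin {b : ℂ} {w : ℕ → ℤ}
    (h : ∀ m, it c m b = sb s (w m) (it c (m + 1) b)) (m : ℕ) : gc s w m (it c m b) = b := by
  induction m with
  | zero => rfl
  | succ m ih => rw [gc_succ, ← h m, ih]

/-- bounded orbits have `G = 0` -/
lemma G_zero_of_per {n : ℕ} (hn : 0 < n) {b : ℂ} (h : it c n b = b) : G c b = 0 := by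
  have h1 : G c (it c n b) = 2 ^ n * G c b := by
    clear h hn
    induction n with
    | zero => simp
    | succ n ih => rw [it_succ, G_f, ih, pow_succ]; ring
  rw [h] at h1
  have h2 : (2 : ℝ) ≤ 2 ^ n := by
    calc (2 : ℝ) = 2 ^ 1 := by norm_num
      _ ≤ 2 ^ n := pow_le_pow_right₀ (by norm_num) hn
  have h3 := G_nonneg c b
  nlinarith

/-- **the itinerary of a periodic point** -/
theorem exists_word (hB : BD c g th E) (hS : SQ c g th E s) {n : ℕ} (hn : 0 < n) {b : ℂ}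
    (h : it c n b = b) : ∃ w : ℕ → ℤ, (∀ i, w i = 0 ∨ w i = 1) ∧ (∀ i, w (i + n) = w i) ∧
      b ∈ Ug c g ∧ gc s w n b = b ∧ (∀ m, it c m b = sb s (w m) (it c (m + 1) b)) := by
  have hb := G_zero_of_per hn h
  refine ⟨itin c s b, itin_bit c s b, itin_per h, ?_, ?_, itin_spec hB hS hb⟩
  · show G c b < g
    rw [hb]; exact hB.pos
  · have := gc_itin (itin_spec hB hS hb) n
    rwa [h] at this

end Pool.Agent.Work.MLC
end

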