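import Pool.Agent.Work.MLCM.C08
import Pool.Agent.Work.MLCM.C09
import Pool.Agent.Work.MLCM.C12
import Pool.Agent.Work.MLCM.C13
import Pool.Agent.Work.MLCM.C14
import Pool.Agent.Work.MLCM.C15

section
set_option autoImplicit false

/-! # Portraits of landing rays: definitions (helper59) -/

namespace Pool.Agent.Work.MLC

open Filter Topology Metric Set Complex

/-- the angles of the doubling orbits (mod 1) of `B` whose rays land at the point `it c i b` -/
def port (c b : ℂ) (B : Set ℝ) (i : ℕ) : Set ℝ :=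
  {a | (∃ β ∈ B, ∃ j : ℕ, ∃ k : ℤ, a = 2 ^ j * β + k) ∧ Lands c a (it c i b)}

/-- a finite family of periodic angles landing at `b`, at least one of them not fixed by `2 ^ n` -/
structure Fam (n : ℕ) (c b : ℂ) (B : Set ℝ) : Prop where
  fin : B.Finite
  per : ∀ β ∈ B, ∃ q, PerAngle n q β
  land : ∀ β ∈ B, Lands c β b
  two : ∃ β ∈ B, ∃ q, 2 ≤ q ∧ PerAngle n q β

end Pool.Agent.Work.MLC
end

section
set_option autoImplicit false

/-! # Stability of landing angles near a repelling point of a parameter in the Mandelbrot set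
(helper4), in terms of the common definitions. -/

namespace Pool.Agent.Work.MLC

open Filter Topology Metric Set

/-- all doublings of a landing angle lie in the open half circles of the itinerary; no exact
period is needed -/
theorem compat_of_lands' {c b : ℂ} {θ β : ℝ} {w : ℕ → ℤ} (hc : 0 < G c c)
    (hθ : eta c ((G c c : ℂ) + 2 * Real.pi * θ * Complex.I) = c)
    (hS : ∀ i, Side c (θ + w i) (it c i b)) (hL : Lands c β b) : Compat β θ w := by
  obtain ⟨R, hR⟩ := hL
  intro i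
  exact half_of_side (hR.push_it i) hc hθ rfl (hS i)

/-- (5e') half circles, per point -/
theorem inHalfO_of_side {c z : ℂ} {θ a : ℝ} {e : ℤ} (hc : 0 < G c c)
    (hθ : eta c ((G c c : ℂ) + 2 * Real.pi * θ * Complex.I) = c)
    (hS : Side c (θ + e) z) (hL : Lands c a z) : Circ.InHalfO (θ + e) a := by
  obtain ⟨R, hR⟩ := hL
  exact half_of_side hR hc hθ rfl hS

lemma eR_eq (c : ℂ) (β x : ℝ) : eta c ((x : ℂ) + 2 * Real.pi * β * Complex.I) = eR c β x := by
  unfold eR
  congr 1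
  ring

theorem PerAngle.exists_pow {n q : ℕ} {β : ℝ} (h : PerAngle n q β) :
    ∃ m : ℤ, 2 ^ (n * q) * β = β + m := by
  obtain ⟨-, ⟨k, hk⟩, -⟩ := h
  exact ⟨k, by linarith⟩

/-- `Land` (for `c ∈ MM`) gives an extended ray -/
theorem Land.lands {n q : ℕ} {c b : ℂ} {β : ℝ} (hM : G c 0 = 0) (h : Land n c b β q) :
    Lands c β b := by
  obtain ⟨-, h2⟩ := h
  simp only [eR_eq] at h2
  exact ⟨_, Ray.of_mem hM h2⟩

theorem land_of_lands {n q : ℕ} {c b : ℂ} {β : ℝ} (hM : G c 0 = 0) (hq : PerAngle n q β)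
    (h : Lands c β b) : Land n c b β q := by
  refine ⟨hq, ?_⟩
  simp only [eR_eq]
  obtain ⟨R, hR⟩ := h
  refine hR.lands.congr' ?_
  filter_upwards [self_mem_nhdsWithin] with t ht
  exact hR.far (by rw [hM]; exact ht)

/-- **Stability (5e)**: a periodic ray landing at a repelling point of period `n` of a parameter of
the Mandelbrot set lands at the continuation of the point for all nearby parameters, in or out of
the Mandelbrot set. -/
theorem lands_nhds {n q : ℕ} (hn : 0 < n) {c₀ b₀ : ℂ} {β : ℝ} (hM : G c₀ 0 = 0)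
    (hfix : it c₀ n b₀ = b₀) (hρ : 1 < ‖mult n c₀ b₀‖) (hL : Land n c₀ b₀ β q) :
    ∀ᶠ x : ℂ × ℂ in 𝓝 (c₀, b₀), it x.1 n x.2 = x.2 → Lands x.1 β x.2 := by
  obtain ⟨m, hm⟩ := hL.1.exists_pow
  have hq : 0 < q := hL.1.1
  have hmul : ∀ j : ℕ, deriv (it c₀ (n * j)) b₀ = mult n c₀ b₀ ^ j := by
    intro j
    induction j with
    | zero =>
      have : it c₀ (n * 0) = id := by funext x; rfl
      rw [this]; simp
    | succ j ih =>
      have hfixj : it c₀ (n * j) b₀ = b₀ := by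
        rw [it_mul]
        exact Function.iterate_fixed hfix j
      have h1 : it c₀ (n * (j + 1)) = fun z => it c₀ n (it c₀ (n * j) z) := by
        funext z
        have : n * (j + 1) = n + n * j := by ring
        rw [this, it_add]
      have h2 : HasDerivAt (it c₀ (n * j)) (mult n c₀ b₀ ^ j) b₀ := by
        rw [← ih]; exact (differentiable_it_right c₀ _ _).hasDerivAt
      have h3 : HasDerivAt (it c₀ n) (mult n c₀ b₀) (it c₀ (n * j) b₀) := by
        rw [hfixj]; exact hasDerivAt_it_mult c₀ n b₀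
      have h4 := h3.comp b₀ h2
      rw [h1]
      have h5 : HasDerivAt (fun z => it c₀ n (it c₀ (n * j) z))
          (mult n c₀ b₀ * mult n c₀ b₀ ^ j) b₀ := h4
      rw [h5.deriv, pow_succ]; ring
  have hρ' : 1 < ‖deriv (it c₀ (n * q)) b₀‖ := by
    rw [hmul q, norm_pow]
    exact one_lt_pow₀ hρ hq.ne'
  obtain ⟨r₀, hr₀, hst⟩ := ray_stable (Nat.mul_pos hn hq) hm hM (hL.lands hM) hρ'
  obtain ⟨δ, hδ, hst'⟩ := hst r₀ hr₀ le_rfl
  have h1 : ∀ᶠ x : ℂ × ℂ in 𝓝 (c₀, b₀), x.1 ∈ ball c₀ δ ∧ x.2 ∈ closedBall b₀ r₀ := by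
    have e1 : ∀ᶠ x : ℂ × ℂ in 𝓝 (c₀, b₀), x.1 ∈ ball c₀ δ :=
      continuous_fst.continuousAt.eventually (ball_mem_nhds c₀ hδ)
    have e2 : ∀ᶠ x : ℂ × ℂ in 𝓝 (c₀, b₀), x.2 ∈ closedBall b₀ r₀ :=
      continuous_snd.continuousAt.eventually (closedBall_mem_nhds b₀ hr₀)
    exact e1.and e2
  filter_upwards [h1] with x hx hxn
  refine (hst' x.1 hx.1).2 x.2 hx.2 ?_
  rw [it_mul]
  exact Function.iterate_fixed hxn q

/-- (5e) in the form used for the strip map -/
theorem land_nhds {n q : ℕ} (hn : 0 < n) {c₀ b₀ : ℂ} {β : ℝ} (hM : G c₀ 0 = 0)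
    (hfix : it c₀ n b₀ = b₀) (hρ : 1 < ‖mult n c₀ b₀‖) (hL : Land n c₀ b₀ β q) :
    ∀ᶠ x : ℂ × ℂ in 𝓝 (c₀, b₀), it x.1 n x.2 = x.2 →
      (G x.1 0 = 0 → Land n x.1 x.2 β q) ∧
      ∀ (θ : ℝ) (w : ℕ → ℤ), 0 < G x.1 x.1 →
        eta x.1 ((G x.1 x.1 : ℂ) + 2 * Real.pi * θ * Complex.I) = x.1 →
        (∀ i, Side x.1 (θ + w i) (it x.1 i x.2)) → Compat β θ w := by
  filter_upwards [lands_nhds hn hM hfix hρ hL] with x hx hxn
  exact ⟨fun hM' => land_of_lands hM' hL.1 (hx hxn),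
    fun θ w h1 h2 h3 => compat_of_lands' h1 h2 h3 (hx hxn)⟩

end Pool.Agent.Work.MLC
end

section
set_option autoImplicit false

/-! # Strips: rotation number of compatible angles, the relation `SameStrip`  (helper54) -/

namespace Pool.Agent.Work.MLC

open Set

/-! ### (a) compatible angles -/

/-- a compatible periodic angle determines the rotation number, in lowest terms -/
theorem nu_of_compat {n q : ℕ} {β θ : ℝ} {w : ℕ → ℤ} (hβ : PerAngle n q β)
    (hw : ∀ i, w (i + n) = w i) (h : Compat β θ w) :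
    ∃ P : ℤ, IsCoprime P (q : ℤ) ∧ Circ.nu w n θ = P / q := by
  obtain ⟨hq, hk, hex⟩ := hβ
  obtain ⟨p, hp, _, hp2⟩ := Circ.nu_of_compat_coprime w θ β n q hq hw h hk
    (fun j h0 hj m hm => hex j h0 hj ⟨m, hm⟩)
  exact ⟨p, hp, hp2⟩

/-- the return map of a compatible periodic angle -/
theorem gw_of_compat {n q : ℕ} {β θ : ℝ} {w : ℕ → ℤ} (hβ : PerAngle n q β)
    (hw : ∀ i, w (i + n) = w i) (h : Compat β θ w) :
    ∃ P : ℤ, IsCoprime P (q : ℤ) ∧ (Circ.gw w θ n ^ q) β = β + P ∧ Circ.nu w n θ = P / q := by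
  obtain ⟨hq, hk, hex⟩ := hβ
  exact Circ.nu_of_compat_coprime w θ β n q hq hw h hk (fun j h0 hj m hm => hex j h0 hj ⟨m, hm⟩)

theorem nu_ne_int_of_compat {n q : ℕ} (hq : 2 ≤ q) {β θ : ℝ} {w : ℕ → ℤ} (hβ : PerAngle n q β)
    (hw : ∀ i, w (i + n) = w i) (h : Compat β θ w) (k : ℤ) : Circ.nu w n θ ≠ k := by
  obtain ⟨_, hk, hex⟩ := hβ
  exact Circ.nu_not_int_of_compat w θ β n q hq hw h hk
    (fun j h0 hj m hm => hex j h0 hj ⟨m, hm⟩) k

/-! ### (c) translation -/

theorem nu_parity {w w' : ℕ → ℤ} {m : ℤ} (h : ∀ i, Even (w' i - w i - m)) (n : ℕ) :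
    ∃ k : ℤ, ∀ θ : ℝ, Circ.nu w' n θ = Circ.nu w n (θ + m) + k := by
  choose u hu using h
  refine ⟨∑ i ∈ Finset.range n, u i, fun θ => ?_⟩
  have e : w' = fun i => (w i + m) + 2 * u i := by
    funext i; have := hu i; omega
  have h1 := Circ.nu_shift (fun i => w i + m) u θ n
  rw [e, h1, Circ.nu_add_theta]
  push_cast; ring

/-- the words agree and the angle is translated by an even integer -/
theorem nu_add_even (w : ℕ → ℤ) (n : ℕ) (m : ℤ) (θ : ℝ) :
    Circ.nu w n (θ + 2 * m) = Circ.nu w n θ + n * m := by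
  have h1 := Circ.nu_shift w (fun _ => m) θ n
  have h2 := Circ.nu_add_theta w θ (2 * m) n
  push_cast at h2
  rw [h2, h1]
  simp

/-! ### (b) the relation -/

theorem SameStrip.left {n : ℕ} {θ θ' : ℝ} {w w' : ℕ → ℤ} (h : SameStrip n θ w θ' w') (k : ℤ) :
    Circ.nu w n θ ≠ k := by
  obtain ⟨m, _, h2⟩ := h
  exact h2 θ left_mem_uIcc k

theorem SameStrip.right {n : ℕ} {θ θ' : ℝ} {w w' : ℕ → ℤ} (h : SameStrip n θ w θ' w') (k : ℤ) :
    Circ.nu w' n θ' ≠ k := by
  obtain ⟨m, h1, h2⟩ := h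
  obtain ⟨j, hj⟩ := nu_parity h1 n
  intro h0
  refine h2 (θ' + m) right_mem_uIcc (k - j) ?_
  have := hj θ'
  push_cast
  linarith

theorem SameStrip.symm {n : ℕ} {θ θ' : ℝ} {w w' : ℕ → ℤ} (h : SameStrip n θ w θ' w') :
    SameStrip n θ' w' θ w := by
  obtain ⟨m, h1, h2⟩ := h
  obtain ⟨j, hj⟩ := nu_parity h1 n
  refine ⟨-m, fun i => ?_, ?_⟩
  · obtain ⟨a, ha⟩ := h1 i
    exact ⟨-a, by omega⟩
  · intro t ht k hk
    have ht' : t + m ∈ uIcc θ (θ' + m) := by
      push_cast at ht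
      rcases mem_uIcc.1 ht with h | h
      · exact mem_uIcc.2 (Or.inr ⟨by linarith, by linarith⟩)
      · exact mem_uIcc.2 (Or.inl ⟨by linarith, by linarith⟩)
    refine h2 (t + m) ht' (k - j) ?_
    have := hj t
    push_cast
    linarith

theorem SameStrip.trans {n : ℕ} {θ θ' θ'' : ℝ} {w w' w'' : ℕ → ℤ} (h : SameStrip n θ w θ' w')
    (h' : SameStrip n θ' w' θ'' w'') : SameStrip n θ w θ'' w'' := by
  obtain ⟨m, h1, h2⟩ := h
  obtain ⟨m', h1', h2'⟩ := h'
  obtain ⟨j, hj⟩ := nu_parity h1 n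
  refine ⟨m + m', fun i => ?_, ?_⟩
  · obtain ⟨a, ha⟩ := h1 i
    obtain ⟨b, hb⟩ := h1' i
    exact ⟨a + b, by omega⟩
  · intro t ht k hk
    have ht2 : t ∈ uIcc θ (θ' + m) ∪ uIcc (θ' + m) (θ'' + ((m + m' : ℤ) : ℝ)) :=
      uIcc_subset_uIcc_union_uIcc ht
    rcases ht2 with h | h
    · exact h2 t h k hk
    · have h3 : t - m ∈ uIcc θ' (θ'' + m') := by
        push_cast at h
        rcases mem_uIcc.1 h with h | h
        · exact mem_uIcc.2 (Or.inl ⟨by linarith, by linarith⟩)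
        · exact mem_uIcc.2 (Or.inr ⟨by linarith, by linarith⟩)
      refine h2' (t - m) h3 (k + j) ?_
      have := hj (t - m)
      rw [sub_add_cancel] at this
      rw [this, hk]
      push_cast; ring

/-- the return map of the same point read in two equivalent descriptions -/
theorem compat_parity {β θ : ℝ} {w w' : ℕ → ℤ} {m : ℤ} (h : ∀ i, Even (w' i - w i - m)) :
    Compat β θ w' ↔ Compat β (θ + m) w := by
  unfold Compat
  refine forall_congr' fun i => ?_
  obtain ⟨u, hu⟩ := h i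
  have e : (w' i : ℝ) = w i + m + 2 * u := by
    have : w' i = w i + m + 2 * u := by omega
    rw [this]; push_cast; ring
  constructor
  · rintro ⟨k, h1, h2⟩
    refine ⟨k + u, ?_, ?_⟩ <;> push_cast <;> rw [e] at h1 h2 <;> linarith
  · rintro ⟨k, h1, h2⟩
    refine ⟨k - u, ?_, ?_⟩ <;> push_cast <;> rw [e] <;> linarith

end Pool.Agent.Work.MLC
end

section
/-!
# Rotation types at a repelling point (helper51)

`TypeL c Λ L q N`: there is a curve `g` in the logarithmic coordinate of the linearizing plane,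
with `G c (Λ (exp (g s))) > 0` and `g (s + 1) = g s + (q L + 2 π i N)`.
-/

set_option autoImplicit false

open Complex Filter Topology Set Metric

namespace Pool.Agent.Work.MLC.Tr

/-- rotation type `(q, N)` -/
def TypeL (c : ℂ) (Λ : ℂ → ℂ) (L : ℂ) (q : ℕ) (N : ℤ) : Prop :=
  ∃ g : ℝ → ℂ, Continuous g ∧ (∀ s, 0 < G c (Λ (exp (g s)))) ∧
    ∀ s, g (s + 1) = g s + (q * L + N * (2 * Real.pi * I))

variable {c b ρ : ℂ} {n : ℕ} {Λ : ℂ → ℂ}

/-- two linearizers differ by a scaling -/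
theorem Lin.unique {Λ' : ℂ → ℂ} (h : Lin c b ρ n Λ) (h' : Lin c b ρ n Λ') :
    ∃ κ : ℂ, κ ≠ 0 ∧ ∀ x, Λ' x = Λ (κ * x) := by
  obtain ⟨g, δ, r, hδ, hr, hgd, hg1, hg2, hg3⟩ := h.exists_local_inverse
  have hρ0 := h.rho_ne
  have hnb : ∀ᶠ x in 𝓝 (0 : ℂ), Λ' x ∈ ball b δ := by
    apply h'.diff.continuous.continuousAt.eventually_mem
    rw [h'.zero]; exact ball_mem_nhds b hδ
  obtain ⟨r', hr', hball⟩ := Metric.eventually_nhds_iff_ball.1 hnb
  set H : ℂ → ℂ := fun x => g (Λ' x) with hH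
  have hstep : ∀ x ∈ ball (0 : ℂ) r', H x = ρ * H (ρ⁻¹ * x) := by
    intro x hx
    have hx2 : ρ⁻¹ * x ∈ ball (0 : ℂ) r' := by
      rw [mem_ball_zero_iff] at hx ⊢
      rw [norm_mul, norm_inv]
      calc ‖ρ‖⁻¹ * ‖x‖ ≤ 1 * ‖x‖ := by
            gcongr
            exact inv_le_one_of_one_le₀ h.rho.le
        _ < r' := by rw [one_mul]; exact hx
    have h1 : it c n (Λ' (ρ⁻¹ * x)) = Λ' x := by
      rw [← h'.eqn, ← mul_assoc, mul_inv_cancel₀ hρ0, one_mul]
    have h2 := hg2 (Λ' (ρ⁻¹ * x)) (hball _ hx2) (by rw [h1]; exact hball x hx)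
    rw [h1] at h2
    exact h2
  have hpow : ∀ k : ℕ, ∀ x ∈ ball (0 : ℂ) r', H x = ρ ^ k * H (ρ⁻¹ ^ k * x) := by
    intro k
    induction k with
    | zero => intro x _; simp
    | succ k ih =>
      intro x hx
      have hx2 : ρ⁻¹ * x ∈ ball (0 : ℂ) r' := by
        rw [mem_ball_zero_iff] at hx ⊢
        rw [norm_mul, norm_inv]
        calc ‖ρ‖⁻¹ * ‖x‖ ≤ 1 * ‖x‖ := by
              gcongr
              exact inv_le_one_of_one_le₀ h.rho.le
          _ < r' := by rw [one_mul]; exact hx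
      rw [hstep x hx, ih _ hx2, pow_succ, pow_succ]
      ring_nf
  have hH0 : H 0 = 0 := by
    have h1 := (hg3 0 (mem_ball_self hr)).2
    rw [h.zero] at h1
    simp only [hH, h'.zero, h1]
  have hHd : HasDerivAt H (deriv H 0) 0 := by
    have h1 : DifferentiableAt ℂ g (Λ' 0) := by
      rw [h'.zero]
      exact hgd.differentiableAt (ball_mem_nhds b hδ)
    exact (h1.comp 0 (h'.diff 0)).hasDerivAt
  set κ := deriv H 0 with hκ
  have hlin : ∀ x ∈ ball (0 : ℂ) r', H x = κ * x := by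
    intro x hx
    rw [← sub_eq_zero, ← norm_eq_zero]
    apply le_antisymm _ (norm_nonneg _)
    apply le_of_forall_pos_le_add
    intro ε hε
    rw [zero_add]
    have h1 := hHd.isLittleO
    simp only [hH0, sub_zero, smul_eq_mul] at h1
    have hε2 : 0 < ε / (‖x‖ + 1) := by positivity
    have h2 := h1.bound hε2
    have hx0 : Tendsto (fun k : ℕ => ρ⁻¹ ^ k * x) atTop (𝓝 0) := by
      have h1 : Tendsto (fun k : ℕ => ρ⁻¹ ^ k) atTop (𝓝 0) := by
        apply tendsto_pow_atTop_nhds_zero_of_norm_lt_one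
        rw [norm_inv]
        exact inv_lt_one_of_one_lt₀ h.rho
      simpa using h1.mul_const x
    obtain ⟨k, hk⟩ := (hx0.eventually h2).exists
    have h3 : H x - κ * x = ρ ^ k * (H (ρ⁻¹ ^ k * x) - ρ⁻¹ ^ k * x * κ) := by
      rw [hpow k x hx, mul_sub]
      congr 1
      rw [← mul_assoc, ← mul_assoc, ← mul_pow, mul_inv_cancel₀ hρ0, one_pow, one_mul, mul_comm]
    rw [h3, norm_mul, norm_pow]
    calc ‖ρ‖ ^ k * ‖H (ρ⁻¹ ^ k * x) - ρ⁻¹ ^ k * x * κ‖
        ≤ ‖ρ‖ ^ k * (ε / (‖x‖ + 1) * ‖ρ⁻¹ ^ k * x‖) := by gcongr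
      _ = ε / (‖x‖ + 1) * ‖x‖ := by
          have h4 : ‖ρ‖ ≠ 0 := norm_ne_zero_iff.2 hρ0
          rw [norm_mul, norm_pow, norm_inv]
          have h5 : ‖ρ‖ ^ k * (‖ρ‖⁻¹ ^ k) = 1 := by
            rw [← mul_pow, mul_inv_cancel₀ h4, one_pow]
          linear_combination (ε / (‖x‖ + 1) * ‖x‖) * h5
      _ ≤ ε := by
          rw [div_mul_eq_mul_div, div_le_iff₀ (by positivity)]
          nlinarith [norm_nonneg x]
  have hloc : ∀ x ∈ ball (0 : ℂ) r', Λ' x = Λ (κ * x) := by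
    intro x hx
    rw [← hlin x hx]
    exact (hg1 _ (hball x hx)).symm
  have hev : Λ' =ᶠ[𝓝 0] fun x => Λ (κ * x) := by
    filter_upwards [ball_mem_nhds (0 : ℂ) hr'] with x hx
    exact hloc x hx
  have hd2 : Differentiable ℂ fun x => Λ (κ * x) := h.diff.comp (by fun_prop)
  have heq : Λ' = fun x => Λ (κ * x) := by
    have h1 : AnalyticOnNhd ℂ Λ' univ := fun x _ => h'.diff.analyticAt x
    have h2 : AnalyticOnNhd ℂ (fun x => Λ (κ * x)) univ := fun x _ => hd2.analyticAt x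
    exact h1.eq_of_eventuallyEq h2 hev
  refine ⟨κ, ?_, fun x => by rw [heq]⟩
  intro h0
  apply h'.der
  rw [heq, h0]
  simp

theorem TypeL.indep {Λ' : ℂ → ℂ} (h : Lin c b ρ n Λ) (h' : Lin c b ρ n Λ') {L : ℂ} {q : ℕ}
    {N : ℤ} (hT : TypeL c Λ L q N) : TypeL c Λ' L q N := by
  obtain ⟨κ, hκ, hκ2⟩ := h'.unique h
  obtain ⟨g, hg, hpos, hper⟩ := hT
  refine ⟨fun s => g s + log κ, hg.add continuous_const, ?_, ?_⟩
  · intro s
    have h1 := hpos s
    rw [hκ2] at h1
    rw [exp_add, exp_log hκ, mul_comm]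
    exact h1
  · intro s
    simp only [hper s]; ring

/-- the type of a tract -/
theorem Tract.typeL {ψ F : ℂ → ℂ} {q : ℕ} {a N : ℤ} (h : Lin c b ρ n Λ) (hc : G c 0 = 0)
    (T : Tract c b ρ n Λ ψ q a) {L : ℂ}
    (hF : DifferentiableOn ℂ F {z : ℂ | 0 < z.re})
    (hFe : ∀ z : ℂ, 0 < z.re → exp (F z) = ψ z)
    (hFN : ∀ z : ℂ, 0 < z.re → F (2 ^ (n * q) * z + 2 * Real.pi * I * a)
        = F z + (q * L + N * (2 * Real.pi * I))) : TypeL c Λ L q N := by
  have hm : 0 < n * q := Nat.mul_pos h.hn T.hq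
  have hre : ∀ s : ℝ, 0 < (cen (n * q) a + ((2 ^ ((n * q : ℕ) * s) : ℝ) : ℂ)).re := by
    intro s
    rw [add_re, cen_re, zero_add, ofReal_re]
    positivity
  refine ⟨fun s => F (cen (n * q) a + ((2 ^ ((n * q : ℕ) * s) : ℝ) : ℂ)), ?_, ?_, ?_⟩
  · have h1 : Continuous fun s : ℝ => (2 : ℝ) ^ (((n * q : ℕ) : ℝ) * s) :=
      (Real.continuous_const_rpow (by norm_num)).comp (by fun_prop)
    exact hF.continuousOn.comp_continuous
      (continuous_const.add (continuous_ofReal.comp h1)) hre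
  · intro s
    rw [hFe _ (hre s), T.lift _ (hre s), G_eta (by rw [hc]; exact hre s)]
    exact hre s
  · intro s
    have h3 := cen_eq hm a
    have h4 : ((2 ^ (((n * q : ℕ) : ℝ) * (s + 1)) : ℝ) : ℂ)
        = 2 ^ (n * q) * ((2 ^ (((n * q : ℕ) : ℝ) * s) : ℝ) : ℂ) := by
      rw [mul_add, mul_one, Real.rpow_add (by norm_num), Real.rpow_natCast]
      push_cast
      ring
    have h5 := hFN _ (hre s)
    have h6 : cen (n * q) a + ((2 ^ (((n * q : ℕ) : ℝ) * (s + 1)) : ℝ) : ℂ)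
        = 2 ^ (n * q) * (cen (n * q) a + ((2 ^ (((n * q : ℕ) : ℝ) * s) : ℝ) : ℂ))
          + 2 * Real.pi * I * a := by
      rw [h4]
      linear_combination (-1 : ℂ) * h3
    simp only [h6]
    exact h5

/-- **(R1)** existence of a type together with PLY (`c` in the Mandelbrot set). -/
theorem exists_type (h : Lin c b ρ n Λ) (hc : G c 0 = 0) {L : ℂ} (hL : exp L = ρ) :
    ∃ (q : ℕ) (N : ℤ), 0 < q ∧ TypeL c Λ L q N ∧
      ‖q * L + N * (2 * Real.pi * I)‖ ^ 2 ≤ 2 * (n * q) * Real.log 2 * L.re := by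
  obtain ⟨x0, hx0⟩ := exists_pos h
  obtain ⟨ψ, q, a, T, -⟩ := exists_tract h hc hx0
  obtain ⟨F, N, hF, hFe, hFN, hply⟩ := T.ply h hL
  exact ⟨q, N, T.hq, T.typeL h hc hF hFe hFN, hply⟩

/-! **(R2)** (helper25, Cross/RotUniq file): for `h : Lin c b ρ n Λ`, `hc : G c 0 = 0`,
`hL : exp L = ρ`, `0 < q`, `0 < q'`, `TypeL c Λ L q N → TypeL c Λ L q' N' → N * q' = N' * q`. -/

end Pool.Agent.Work.MLC.Tr
end

section
/-!
# Landing rays and their turning numbers from tracts (helper51)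
-/

set_option autoImplicit false

open Complex Filter Topology Set Metric

namespace Pool.Agent.Work.MLC.Tr

variable {c b ρ : ℂ} {n : ℕ} {Λ : ℂ → ℂ}

/-- the angle (in turns) of the ray of the tract -/
noncomputable def ang (m : ℕ) (a : ℤ) : ℝ := -(a : ℝ) / (2 ^ m - 1)

theorem cen_eq_ang (m : ℕ) (a : ℤ) : cen m a = 2 * Real.pi * (ang m a : ℝ) * I := by
  rw [cen, ang]
  push_cast
  ring

theorem ang_eq {m : ℕ} (hm : 0 < m) (a : ℤ) : (2 : ℝ) ^ m * ang m a - ang m a = ((-a : ℤ) : ℝ) := by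
  have h2m : (1 : ℝ) < 2 ^ m := one_lt_pow₀ (by norm_num) hm.ne'
  have h2 : (2 : ℝ) ^ m - 1 ≠ 0 := by linarith
  rw [ang]
  push_cast
  field_simp
  ring

theorem cen_re_pos {m : ℕ} {a : ℤ} {s : ℝ} (hs : 0 < s) : 0 < (cen m a + s).re := by
  rw [add_re, cen_re, zero_add, ofReal_re]; exact hs

theorem Tract.land {ψ : ℂ → ℂ} {q : ℕ} {a : ℤ} (h : Lin c b ρ n Λ) (hc : G c 0 = 0)
    (T : Tract c b ρ n Λ ψ q a) : Land n c b (ang (n * q) a) q := by
  have hm : 0 < n * q := Nat.mul_pos h.hn T.hq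
  refine ⟨⟨T.hq, ⟨-a, ang_eq hm a⟩, ?_⟩, ?_⟩
  · rintro j hj hjq ⟨k, hk⟩
    obtain ⟨g, δ, r, hδ, hr, hgd, hg1, hg2, hg3⟩ := h.exists_local_inverse
    have ht := T.tendsto_zero h
    have e1 : ∀ᶠ s : ℝ in 𝓝[>] 0, ρ ^ j * ψ (cen (n * q) a + s) ∈ ball (0 : ℂ) r := by
      have h1 := ht.const_mul (ρ ^ j)
      rw [mul_zero] at h1
      exact h1.eventually (ball_mem_nhds 0 hr)
    have e2 : ∀ᶠ s : ℝ in 𝓝[>] 0, ψ (cen (n * q) a + ((2 ^ (n * j) * s : ℝ) : ℂ))
        ∈ ball (0 : ℂ) r := by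
      have h1 : Tendsto (fun s : ℝ => 2 ^ (n * j) * s) (𝓝[>] 0) (𝓝[>] 0) := by
        apply tendsto_nhdsWithin_iff.2
        constructor
        · have h2 : Tendsto (fun s : ℝ => 2 ^ (n * j) * s) (𝓝 0) (𝓝 (2 ^ (n * j) * 0)) :=
            (continuous_const.mul continuous_id).tendsto 0
          rw [mul_zero] at h2
          exact h2.mono_left nhdsWithin_le_nhds
        · filter_upwards [self_mem_nhdsWithin] with s hs
          have : (0 : ℝ) < s := hs
          show (0 : ℝ) < _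
          positivity
      exact (ht.comp h1).eventually (ball_mem_nhds 0 hr)
    obtain ⟨s, ⟨hs1, hs2⟩, hs3⟩ := ((e1.and e2).and self_mem_nhdsWithin).exists
    have hs : 0 < s := hs3
    have h3 : Λ (ρ ^ j * ψ (cen (n * q) a + s))
        = Λ (ψ (cen (n * q) a + ((2 ^ (n * j) * s : ℝ) : ℂ))) := by
      rw [h.eqn_pow, T.lift _ (cen_re_pos hs), it_eta hc (cen_re_pos hs),
        T.lift _ (cen_re_pos (by positivity))]
      rw [← eta_period hc (z := cen (n * q) a + ((2 ^ (n * j) * s : ℝ) : ℂ))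
        (cen_re_pos (by positivity)) k]
      congr 1
      have h4 : ((2 : ℂ) ^ (n * j) * (ang (n * q) a : ℝ) - (ang (n * q) a : ℝ)) = k := by
        exact_mod_cast congrArg (fun t : ℝ => (t : ℂ)) hk
      rw [cen_eq_ang]
      push_cast
      linear_combination (2 * Real.pi * I) * h4
    have h5 := (hg3 _ hs1).2
    rw [h3, (hg3 _ hs2).2] at h5
    exact T.disj j hj hjq _ _ (cen_re_pos (by positivity)) (cen_re_pos hs) h5
  · have h1 := T.landing h
    apply h1.congr
    intro s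
    rw [cen_eq_ang, add_comm]

/-- a continuous logarithm of a function with a nonzero limit converges -/
theorem log_tendsto {E D : ℝ → ℂ} (hE : ContinuousOn E (Ioi 0)) (hED : ∀ x, 0 < x → exp (E x) = D x)
    {d : ℂ} (hd : d ≠ 0) (hD : Tendsto D (𝓝[>] 0) (𝓝 d)) :
    ∃ e : ℂ, Tendsto E (𝓝[>] 0) (𝓝 e) := by
  have hDd : Tendsto (fun x => D x / d) (𝓝[>] 0) (𝓝 1) := by
    have := hD.div_const d
    rwa [div_self hd] at this
  have hslit : ∀ᶠ x : ℝ in 𝓝[>] 0, D x / d ∈ slitPlane := by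
    apply hDd.eventually
    exact isOpen_slitPlane.mem_nhds (by simp)
  obtain ⟨ε, hε, hball⟩ : ∃ ε > 0, ∀ x, 0 < x → x < ε → D x / d ∈ slitPlane := by
    rw [eventually_nhdsWithin_iff, Metric.eventually_nhds_iff] at hslit
    obtain ⟨ε, hε, h⟩ := hslit
    exact ⟨ε, hε, fun x hx hx2 => h (by rw [Real.dist_eq, sub_zero, abs_of_pos hx]; exact hx2) hx⟩
  set N : ℝ → ℂ := fun x => (E x - log (D x / d) - log d) / (2 * Real.pi * I) with hN
  have hDc : ContinuousOn D (Ioo 0 ε) := by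
    have h1 : ContinuousOn (fun x => exp (E x)) (Ioo 0 ε) :=
      continuous_exp.comp_continuousOn (hE.mono Ioo_subset_Ioi_self)
    exact h1.congr (fun x hx => (hED x hx.1).symm)
  have hNc : ContinuousOn N (Ioo 0 ε) := by
    apply ContinuousOn.div_const
    apply ContinuousOn.sub _ continuousOn_const
    apply ContinuousOn.sub (hE.mono Ioo_subset_Ioi_self)
    intro x hx
    exact ((hDc x hx).div_const d).clog (hball x hx.1 hx.2)
  have hint : ∀ x ∈ Ioo 0 ε, ∃ k : ℤ, N x = k := by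
    intro x hx
    have h1 : exp (E x - log (D x / d) - log d) = 1 := by
      have hne : D x / d ≠ 0 := slitPlane_ne_zero (hball x hx.1 hx.2)
      rw [exp_sub, exp_sub, hED x hx.1, exp_log hne, exp_log hd]
      have : D x ≠ 0 := by
        intro h0; rw [h0, zero_div] at hne; exact hne rfl
      field_simp
    obtain ⟨k, hk⟩ := exp_eq_one_iff.1 h1
    refine ⟨k, ?_⟩
    simp only [hN]
    rw [hk]
    field_simp [two_pi_I_ne_zero]
  have hε2 : ε / 2 ∈ Ioo 0 ε := ⟨by linarith, by linarith⟩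
  obtain ⟨k, hk⟩ := hint _ hε2
  have hconst : ∀ x ∈ Ioo 0 ε, N x = k := by
    intro x hx
    have hre : (fun x => (N x).re) x = (fun x => (N x).re) (ε / 2) := by
      have hpre : IsPreconnected ((fun x => (N x).re) '' Ioo 0 ε) :=
        isPreconnected_Ioo.image _ (continuous_re.comp_continuousOn hNc)
      have hcount : ((fun x => (N x).re) '' Ioo 0 ε).Countable := by
        apply (countable_range (fun n : ℤ => (n : ℝ))).mono
        rintro _ ⟨y, hy, rfl⟩
        obtain ⟨j, hj⟩ := hint y hy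
        exact ⟨j, by simp [hj]⟩
      exact hcount.isTotallyDisconnected _ subset_rfl hpre ⟨x, hx, rfl⟩ ⟨_, hε2, rfl⟩
    obtain ⟨j, hj⟩ := hint x hx
    simp only [hj, hk, intCast_re, Int.cast_inj] at hre
    rw [hj, hre]
  refine ⟨log d + k * (2 * Real.pi * I), ?_⟩
  have h1 : Tendsto (fun x => log (D x / d) + (log d + k * (2 * Real.pi * I))) (𝓝[>] 0)
      (𝓝 (log 1 + (log d + k * (2 * Real.pi * I)))) := by
    apply Tendsto.add _ tendsto_const_nhds
    exact (continuousAt_clog (by simp)).tendsto.comp hDd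
  rw [log_one, zero_add] at h1
  apply h1.congr'
  filter_upwards [Ioo_mem_nhdsGT hε] with x hx
  have h2 := hconst x hx
  simp only [hN] at h2
  rw [div_eq_iff two_pi_I_ne_zero] at h2
  linear_combination (-1 : ℂ) * h2

theorem Tract.rot {ψ Fψ : ℂ → ℂ} {q : ℕ} {a N : ℤ} (h : Lin c b ρ n Λ) (hc : G c 0 = 0)
    (T : Tract c b ρ n Λ ψ q a) {L : ℂ}
    (hF : DifferentiableOn ℂ Fψ {z : ℂ | 0 < z.re})
    (hFe : ∀ z : ℂ, 0 < z.re → exp (Fψ z) = ψ z)
    (hFN : ∀ z : ℂ, 0 < z.re → Fψ (2 ^ (n * q) * z + 2 * Real.pi * I * a)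
        = Fψ z + (q * L + N * (2 * Real.pi * I))) :
    Rot n c b (ang (n * q) a) q L (-N) := by
  have hm : 0 < n * q := Nat.mul_pos h.hn T.hq
  set D : ℂ → ℂ := dslope Λ 0 with hD
  have hDd : Differentiable ℂ D := by
    rw [← differentiableOn_univ]
    exact (Complex.differentiableOn_dslope univ_mem).2 h.diff.differentiableOn
  have hD0 : D 0 ≠ 0 := by rw [hD, dslope_same]; exact h.der
  have hDmul : ∀ y, y * D y = Λ y - b := by
    intro y
    have := sub_smul_dslope Λ 0 y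
    rw [sub_zero, smul_eq_mul, h.zero] at this
    exact this
  have hDψ : ∀ z : ℂ, 0 < z.re → D (ψ z) ≠ 0 := by
    intro z hz h0
    have h1 := hDmul (ψ z)
    rw [h0, mul_zero, T.lift z hz] at h1
    have h2 : eta c z = b := (sub_eq_zero.1 h1.symm)
    have h3 := G_eta (c := c) (L := z) (by rw [hc]; exact hz)
    rw [h2, h.G_b] at h3
    linarith
  obtain ⟨E, hE, hEe⟩ := exists_log_RH (ψ := fun z => D (ψ z)) (hDd.comp_differentiableOn T.diff) hDψ
  refine ⟨fun x => Fψ (cen (n * q) a + x) + E (cen (n * q) a + x), ?_, ?_, ?_⟩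
  · apply ContinuousOn.add
    · exact hF.continuousOn.comp (by fun_prop) (fun x hx => cen_re_pos hx)
    · exact hE.continuousOn.comp (by fun_prop) (fun x hx => cen_re_pos hx)
  · intro x hx
    rw [exp_add, hFe _ (cen_re_pos hx), hEe _ (cen_re_pos hx), hDmul, T.lift _ (cen_re_pos hx),
      cen_eq_ang, add_comm]
  · obtain ⟨e, he⟩ := log_tendsto (E := fun x : ℝ => E (cen (n * q) a + x))
      (D := fun x : ℝ => D (ψ (cen (n * q) a + x)))
      (hE.continuousOn.comp (by fun_prop) (fun x hx => cen_re_pos hx))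
      (fun x hx => hEe _ (cen_re_pos hx)) hD0
      ((hDd.continuous.tendsto 0).comp (T.tendsto_zero h))
    have h1 : Tendsto (fun s : ℝ => 2 ^ (n * q) * s) (𝓝[>] 0) (𝓝[>] 0) := by
      apply tendsto_nhdsWithin_iff.2
      constructor
      · have h2 : Tendsto (fun s : ℝ => 2 ^ (n * q) * s) (𝓝 0) (𝓝 (2 ^ (n * q) * 0)) :=
          (continuous_const.mul continuous_id).tendsto 0
        rw [mul_zero] at h2
        exact h2.mono_left nhdsWithin_le_nhds
      · filter_upwards [self_mem_nhdsWithin] with s hs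
        have : (0 : ℝ) < s := hs
        show (0 : ℝ) < _
        positivity
    have h2 := (he.comp h1).sub he
    rw [sub_self] at h2
    have h3 := h2.const_add (q * L + N * (2 * Real.pi * I))
    have h4 : (q * L + N * (2 * Real.pi * I) + 0 : ℂ) = q * L - 2 * Real.pi * ((-N : ℤ) : ℂ) * I := by
      push_cast; ring
    rw [h4] at h3
    apply h3.congr'
    filter_upwards [self_mem_nhdsWithin] with x hx
    have hx0 : 0 < x := hx
    have h5 := hFN _ (cen_re_pos (m := n * q) (a := a) hx0)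
    have h6 : 2 ^ (n * q) * (cen (n * q) a + (x : ℂ)) + 2 * Real.pi * I * a
        = cen (n * q) a + ((2 ^ (n * q) * x : ℝ) : ℂ) := by
      have := cen_eq hm a
      push_cast
      linear_combination this
    rw [h6] at h5
    simp only [Function.comp]
    rw [h5]; ring

/-- **Repelling points of parameters in the Mandelbrot set are landing points of periodic rays,
with the Pommerenke-Levin-Yoccoz inequality.** -/
theorem exists_land_rot (h : Lin c b ρ n Λ) (hc : G c 0 = 0) {L : ℂ} (hL : exp L = ρ) :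
    ∃ (β : ℝ) (q : ℕ) (p : ℤ), 0 < q ∧ Land n c b β q ∧ Rot n c b β q L p ∧
      TypeL c Λ L q (-p) ∧
      ‖L - 2 * Real.pi * (p / q : ℂ) * I‖ ^ 2 ≤ 2 * n * Real.log 2 / q * L.re := by
  obtain ⟨x0, hx0⟩ := exists_pos h
  obtain ⟨ψ, q, a, T, -⟩ := exists_tract h hc hx0
  obtain ⟨F, N, hF, hFe, hFN, hply⟩ := T.ply h hL
  refine ⟨ang (n * q) a, q, -N, T.hq, T.land h hc, T.rot h hc hF hFe hFN, ?_, ?_⟩
  · rw [neg_neg]; exact T.typeL h hc hF hFe hFN
  · have hq : (0 : ℝ) < q := by exact_mod_cast T.hq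
    have hqc : (q : ℂ) ≠ 0 := by exact_mod_cast T.hq.ne'
    have h1 : (q : ℂ) * L + N * (2 * Real.pi * I)
        = q * (L - 2 * Real.pi * (((-N : ℤ) : ℂ) / q) * I) := by
      push_cast; field_simp; ring
    rw [h1, norm_mul, mul_pow, norm_natCast] at hply
    rw [div_mul_eq_mul_div, le_div_iff₀ hq]
    have h2 : (q : ℝ) * (‖L - 2 * Real.pi * (((-N : ℤ) : ℂ) / q) * I‖ ^ 2 * q)
        ≤ q * (2 * n * Real.log 2 * L.re) := by nlinarith
    exact le_of_mul_le_mul_left h2 hq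

end Pool.Agent.Work.MLC.Tr
end

section
set_option autoImplicit false

/-! # Bounded multiplier gives bounded potential of the parameter  (helper13) -/

namespace Pool.Agent.Work.MLC

theorem G_le_four_of_norm_le {c : ℂ} (hc : ‖c‖ ≤ 4) : G c c ≤ 4 := by
  have h1 := abs_le.1 (abs_G_sub_posLog c c)
  have h2 : Real.posLog ‖c‖ ≤ Real.log 4 := by
    unfold Real.posLog
    rcases eq_or_lt_of_le (norm_nonneg c) with h | h
    · rw [← h]; simp; exact Real.log_nonneg (by norm_num)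
    · exact max_le (Real.log_nonneg (by norm_num)) (Real.log_le_log h hc)
  have h3 : Real.log (1 + ‖c‖) ≤ Real.log 5 := by
    refine Real.log_le_log (by positivity) (by linarith)
  have h4 : Real.log 4 + Real.log 5 ≤ 4 := by
    rw [← Real.log_mul (by norm_num) (by norm_num)]
    have h5 : Real.log (4 * 5 : ℝ) ≤ Real.log (Real.exp 4) := by
      refine Real.log_le_log (by norm_num) ?_
      have h6 : (2.7 : ℝ) ≤ Real.exp 1 := by
        have := Real.exp_one_gt_d9; linarith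
      calc (4 * 5 : ℝ) ≤ 2.7 ^ 4 := by norm_num
        _ ≤ Real.exp 1 ^ 4 := by gcongr
        _ = Real.exp 4 := by rw [← Real.exp_nat_mul]; norm_num
    rwa [Real.log_exp] at h5
  linarith [h1.2]

theorem G_le_four_of_mul_lt {n : ℕ} (hn : 0 < n) {c b : ℂ} (hb : it c n b = b)
    (hm : ‖mul n (c, b)‖ < 23 / 10) : G c c ≤ 4 :=
  G_le_four_of_norm_le (Per_bdd hn (x := (c, b)) hb hm).1

end Pool.Agent.Work.MLC
end

section
/-!
# The parameter map (Douady-Hubbard) from the dynamical Boettcher map (helper34)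
-/

set_option autoImplicit false

namespace Pool.Agent.Work.MLC

open Filter Topology Metric Set MLC34

lemma f_zero (c : ℂ) : f c 0 = c := by simp [f]

lemma G_self (c : ℂ) : G c c = 2 * G c 0 := by
  have h := G_f c 0
  rwa [f_zero] at h

/-- the complement of the Mandelbrot set -/
def Mc : Set ℂ := {c | 0 < G c c}

lemma mem_Mc {c : ℂ} : c ∈ Mc ↔ 0 < G c c := Iff.rfl

lemma mem_Mc_iff {c : ℂ} : c ∈ Mc ↔ c ∉ N62a1eb23.mandelbrotSet := by
  rw [mem_M_iff', mem_Mc, G_pos_iff]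

lemma G0_lt_of_mem {c : ℂ} (h : c ∈ Mc) : G c 0 < G c c := by
  have h1 := G_self c
  rw [mem_Mc] at h
  linarith

lemma continuous_G_diag : Continuous fun c : ℂ => G c c := by
  have h1 : Continuous (fun z : ℂ => ((z, z) : ℂ × ℂ)) := by fun_prop
  have h2 : Continuous ((fun p : ℂ × ℂ => G p.1 p.2) ∘ fun z : ℂ => ((z, z) : ℂ × ℂ)) :=
    Continuous.comp continuous_G h1
  exact h2

lemma isOpen_Mc : IsOpen Mc := isOpen_lt continuous_const continuous_G_diag

lemma eta_of_exp {c z L : ℂ} (h : G c 0 < G c z) (hL : Complex.exp L = phi c z) :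
    eta c L = z := by
  rw [eta, hL, psi_phi h]

/-- The Riemann map of the complement of `M` -/
noncomputable def Phi (c : ℂ) : ℂ := phi c c

lemma norm_Phi {c : ℂ} (hc : c ∈ Mc) : ‖Phi c‖ = Real.exp (G c c) := norm_phi (G0_lt_of_mem hc)

lemma one_lt_norm_Phi {c : ℂ} (hc : c ∈ Mc) : 1 < ‖Phi c‖ := by
  rw [norm_Phi hc]; exact Real.one_lt_exp_iff.2 hc

lemma Phi_ne_zero {c : ℂ} (hc : c ∈ Mc) : Phi c ≠ 0 := by
  rw [← norm_pos_iff]; linarith [one_lt_norm_Phi hc]

lemma differentiableOn_Phi : DifferentiableOn ℂ Phi Mc :=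
  differentiableOn_phi isOpen_Mc (γ := fun t => t) (δ := fun t => t) differentiableOn_id
    differentiableOn_id fun _ ht => G0_lt_of_mem ht

lemma norm_sq_sub_le (c : ℂ) : ‖c‖ ^ 2 - ‖c‖ ≤ ‖f c c‖ := by
  have := norm_sub_norm_le (c ^ 2) (-c)
  rw [norm_pow, norm_neg, sub_neg_eq_add] at this
  exact this

lemma Far_f_self {c : ℂ} (hc : 10 < ‖c‖) : Far c (f c c) := by
  have h1 := norm_sq_sub_le c
  unfold Far
  nlinarith

lemma log_norm_f_le {c : ℂ} (hc : 10 < ‖c‖) :
    Real.log ‖f c c‖ - 3 / 16 ≤ 2 * G c c ∧ 2 * G c c ≤ Real.log ‖f c c‖ + 3 / 16 := by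
  have hF := Far_f_self hc
  have h1 := G_eq_log_add hF
  rw [G_f] at h1
  have h2 := (Complex.abs_re_le_norm (SB c (f c c))).trans (norm_SB_le' hF)
  have h3 := abs_le.1 h2
  constructor <;> linarith [h3.1, h3.2]

lemma mem_Mc_of_large {c : ℂ} (hc : 10 < ‖c‖) : c ∈ Mc := by
  have h1 := G_pos_of_Far (Far_f_self hc)
  rw [G_f] at h1
  rw [mem_Mc]; linarith

/-- closeness of the square -/
lemma norm_Phi_sq {c : ℂ} (hc : 1000 < ‖c‖) : ‖(Phi c / c) ^ 2 - 1‖ ≤ 17 / 250 := by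
  have hc10 : 10 < ‖c‖ := by linarith
  have hcM := mem_Mc_of_large hc10
  have hF := Far_f_self hc10
  have hc0 : c ≠ 0 := by rw [← norm_pos_iff]; linarith
  set L := Complex.log (Phi c) with hL
  have hexp : Complex.exp L = Phi c := Complex.exp_log (Phi_ne_zero hcM)
  have hLre : L.re = G c c := by
    rw [hL, Complex.log_re, norm_Phi hcM, Real.log_exp]
  have h0 : G c 0 < L.re := by rw [hLre]; exact G0_lt_of_mem hcM
  have hη : eta c L = c := eta_of_exp (G0_lt_of_mem hcM) hexp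
  have h1 : eta c (2 * L) = f c c := by rw [← f_eta h0, hη]
  have h2 : (2 * L).re = 2 * G c c := by
    rw [← hLre]; simp
  have h3 : Real.log (4 * (‖c‖ + 2)) < (2 * L).re := by
    rw [h2]
    have h4 := (log_norm_f_le hc10).1
    have h5 : Real.log (4 * (‖c‖ + 2)) < Real.log ‖f c c‖ - 3 / 16 := by
      have h6 : Real.log (4 * (‖c‖ + 2)) + 1 ≤ Real.log ‖f c c‖ := by
        have h7 : Real.log (4 * (‖c‖ + 2)) + 1 = Real.log (4 * (‖c‖ + 2) * Real.exp 1) := by
          rw [Real.log_mul (by positivity) (Real.exp_pos 1).ne', Real.log_exp]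
        rw [h7]
        apply Real.log_le_log (by positivity)
        have h8 := norm_sq_sub_le c
        have h9 := Real.exp_one_lt_d9
        have h10 : 4 * (‖c‖ + 2) * Real.exp 1 ≤ 4 * (‖c‖ + 2) * 3 := by
          gcongr; linarith
        nlinarith
      linarith
    linarith
  have h4 := norm_eta_div_exp_sub_one h3
  have hexp2 : Complex.exp (2 * L) = Phi c ^ 2 := by
    rw [two_mul, Complex.exp_add, hexp, sq]
  rw [h1, hexp2] at h4
  have hP0 := Phi_ne_zero hcM
  set a : ℂ := f c c / Phi c ^ 2 with ha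
  have ha1 : 15 / 16 ≤ ‖a‖ := by
    have h5 := norm_sub_norm_le (1 : ℂ) (1 - a)
    rw [norm_one, show (1 : ℂ) - (1 - a) = a by ring, norm_sub_rev] at h5
    linarith
  have ha0 : a ≠ 0 := by rw [← norm_pos_iff]; linarith
  have hx : (Phi c / c) ^ 2 - 1 = (c⁻¹ - (a - 1)) / a := by
    have h6 : (Phi c / c) ^ 2 * a = 1 + c⁻¹ := by
      rw [ha, f]; field_simp
    rw [eq_div_iff ha0, sub_mul, h6]; ring
  rw [hx, norm_div, div_le_iff₀ (by linarith)]
  have h7 : ‖c⁻¹ - (a - 1)‖ ≤ 1 / 1000 + 1 / 16 := by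
    refine (norm_sub_le _ _).trans (add_le_add ?_ h4)
    rw [norm_inv, inv_eq_one_div]
    exact one_div_le_one_div_of_le (by norm_num) hc.le
  linarith

lemma re_ne_zero_of_sq {x : ℂ} (h : ‖x ^ 2 - 1‖ ≤ 17 / 250) : x.re ≠ 0 := by
  intro h0
  have h1 : (x ^ 2 - 1).re = -(x.im) ^ 2 - 1 := by
    rw [sq, Complex.sub_re, Complex.mul_re, h0, Complex.one_re]; ring
  have h2 := Complex.abs_re_le_norm (x ^ 2 - 1)
  rw [h1] at h2
  have h3 := (abs_le.1 (h2.trans h)).1
  nlinarith [sq_nonneg x.im]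

lemma norm_sub_one_of_sq {x : ℂ} (h : ‖x ^ 2 - 1‖ ≤ 17 / 250) (hre : 0 < x.re) :
    ‖x - 1‖ ≤ 1 / 25 := by
  have h1 : ‖x ^ 2 - 1‖ = ‖x - 1‖ * ‖x + 1‖ := by
    rw [← norm_mul]; congr 1; ring
  have h2 : 1 ≤ ‖x + 1‖ := by
    have h3 := Complex.abs_re_le_norm (x + 1)
    rw [Complex.add_re, Complex.one_re, abs_of_pos (by linarith)] at h3
    linarith
  have h3 : ‖x - 1‖ ≤ 17 / 250 := by
    rw [h1] at h
    nlinarith [norm_nonneg (x - 1)]
  have h4 : 2 - 17 / 250 ≤ ‖x + 1‖ := by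
    have h5 := norm_sub_norm_le (2 : ℂ) (1 - x)
    rw [show (2 : ℂ) - (1 - x) = x + 1 by ring, norm_sub_rev 1 x, Complex.norm_two] at h5
    linarith
  rw [h1] at h
  nlinarith [norm_nonneg (x - 1)]

theorem exists_sign : ∃ s : ℂ, ‖s‖ = 1 ∧ ∀ c : ℂ, 1000 < ‖c‖ → ‖Phi c - s * c‖ ≤ ‖c‖ / 25 := by
  have hpre : IsPreconnected {c : ℂ | 1000 < ‖c‖} := by
    have h1 : {c : ℂ | 1000 < ‖c‖} = (fun z : ℂ => 1000 * z) '' {z : ℂ | 1 < ‖z‖} := by
      ext c
      constructor
      · intro hc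
        have hc' : 1000 < ‖c‖ := hc
        refine ⟨c / 1000, ?_, by simp only; ring⟩
        show 1 < ‖c / 1000‖
        rw [norm_div]
        have : ‖(1000 : ℂ)‖ = 1000 := by simp
        rw [this, lt_div_iff₀ (by norm_num)]; linarith
      · rintro ⟨z, hz, rfl⟩
        have hz' : 1 < ‖z‖ := hz
        show 1000 < ‖1000 * z‖
        rw [norm_mul]
        have : ‖(1000 : ℂ)‖ = 1000 := by simp
        rw [this]; linarith
    rw [h1]
    exact isPreconnected_ext.image _ (by fun_prop)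
  have hcont : ContinuousOn (fun c : ℂ => (Phi c / c).re) {c : ℂ | 1000 < ‖c‖} := by
    refine Complex.continuous_re.comp_continuousOn (ContinuousOn.div ?_ continuousOn_id ?_)
    · refine differentiableOn_Phi.continuousOn.mono fun c hc => ?_
      have hc' : 1000 < ‖c‖ := hc
      exact mem_Mc_of_large (by linarith)
    · intro c hc
      have hc' : 1000 < ‖c‖ := hc
      show c ≠ 0
      rw [← norm_pos_iff]; linarith
  have himg := hpre.image _ hcont
  have h0 : (0 : ℝ) ∉ (fun c : ℂ => (Phi c / c).re) '' {c : ℂ | 1000 < ‖c‖} := by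
    rintro ⟨c, hc, hc0⟩
    exact re_ne_zero_of_sq (norm_Phi_sq hc) hc0
  have hdich : (∀ c : ℂ, 1000 < ‖c‖ → 0 < (Phi c / c).re) ∨
      (∀ c : ℂ, 1000 < ‖c‖ → (Phi c / c).re < 0) := by
    by_contra hcon
    push Not at hcon
    obtain ⟨⟨a, ha, ha'⟩, ⟨b, hb, hb'⟩⟩ := hcon
    exact h0 (himg.ordConnected.out (mem_image_of_mem _ ha) (mem_image_of_mem _ hb) ⟨ha', hb'⟩)
  rcases hdich with hpos | hneg
  · refine ⟨1, norm_one, fun c hc => ?_⟩
    have hc0 : c ≠ 0 := by rw [← norm_pos_iff]; linarith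
    have h1 := norm_sub_one_of_sq (norm_Phi_sq hc) (hpos c hc)
    have h2 : Phi c - 1 * c = c * (Phi c / c - 1) := by field_simp
    rw [h2, norm_mul]
    nlinarith [norm_nonneg c]
  · refine ⟨-1, by simp, fun c hc => ?_⟩
    have hc0 : c ≠ 0 := by rw [← norm_pos_iff]; linarith
    have h1 := norm_sub_one_of_sq (x := -(Phi c / c)) (by rw [neg_sq]; exact norm_Phi_sq hc)
      (by rw [Complex.neg_re]; linarith [hneg c hc])
    have h2 : Phi c - -1 * c = -(c * (-(Phi c / c) - 1)) := by field_simp; ring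
    rw [h2, norm_neg, norm_mul]
    nlinarith [norm_nonneg c]

lemma exp_3_16 : Real.exp (3 / 16) ≤ 2 := by
  have h7 := Real.exp_one_lt_d9
  have h8 : Real.exp (3 / 16) ≤ Real.exp (1 / 2) := Real.exp_le_exp.2 (by norm_num)
  have h9 : Real.exp (1 / 2) * Real.exp (1 / 2) = Real.exp 1 := by
    rw [← Real.exp_add]; norm_num
  nlinarith [Real.exp_pos (1 / 2)]

/-- parameters with bounded Green function are bounded -/
lemma norm_le_of_G_le {c : ℂ} {b : ℝ} (h : G c c ≤ b) : ‖c‖ ≤ 2 * Real.exp b + 100 := by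
  by_contra hcon
  push Not at hcon
  have hexp : 0 < Real.exp b := Real.exp_pos b
  have hc10 : 10 < ‖c‖ := by linarith
  have h4 := (log_norm_f_le hc10).1
  have h5 : ‖f c c‖ ≤ Real.exp (2 * b + 3 / 16) := by
    have h6 : Real.log ‖f c c‖ ≤ 2 * b + 3 / 16 := by linarith
    rwa [Real.log_le_iff_le_exp (by have := (Far_f_self hc10).norm_gt; linarith)] at h6
  have h6 : Real.exp (2 * b + 3 / 16) ≤ 2 * Real.exp b ^ 2 := by
    rw [Real.exp_add, two_mul, Real.exp_add]
    have := exp_3_16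
    nlinarith [mul_pos hexp hexp]
  have h7 := norm_sq_sub_le c
  nlinarith

theorem properHol_Phi : ProperHol Phi Mc {z | 1 < ‖z‖} := by
  refine ⟨isOpen_Mc, isOpen_ext, differentiableOn_Phi, fun c hc => one_lt_norm_Phi hc,
    fun K hK hKc => ?_⟩
  rcases K.eq_empty_or_nonempty with rfl | hKne
  · simp
  -- bounds on `K`
  obtain ⟨w₀, hw₀, hmin⟩ := hKc.exists_isMinOn hKne continuous_norm.continuousOn
  obtain ⟨w₁, hw₁, hmax⟩ := hKc.exists_isMaxOn hKne continuous_norm.continuousOn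
  have ha : 1 < ‖w₀‖ := hK hw₀
  have hb : 1 < ‖w₁‖ := hK hw₁
  have ha0 : 0 < Real.log ‖w₀‖ := Real.log_pos ha
  have hG : ∀ c ∈ Mc ∩ Phi ⁻¹' K, Real.log ‖w₀‖ ≤ G c c ∧ G c c ≤ Real.log ‖w₁‖ := by
    intro c hc
    have h1 : ‖w₀‖ ≤ ‖Phi c‖ := hmin hc.2
    have h2 : ‖Phi c‖ ≤ ‖w₁‖ := hmax hc.2
    rw [norm_Phi hc.1] at h1 h2
    constructor
    · rw [Real.log_le_iff_le_exp (by linarith)]; exact h1
    · rw [Real.le_log_iff_exp_le (by linarith)]; exact h2
  -- the set is closed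
  have hcl : IsClosed (Mc ∩ Phi ⁻¹' K) := by
    have h1 : Mc ∩ Phi ⁻¹' K = {c | Real.log ‖w₀‖ ≤ G c c} ∩ Phi ⁻¹' K := by
      ext c
      constructor
      · intro hc; exact ⟨(hG c hc).1, hc.2⟩
      · intro hc; exact ⟨lt_of_lt_of_le ha0 hc.1, hc.2⟩
    rw [h1]
    have h2 : ContinuousOn Phi {c | Real.log ‖w₀‖ ≤ G c c} :=
      differentiableOn_Phi.continuousOn.mono fun c hc => lt_of_lt_of_le ha0 hc
    exact h2.preimage_isClosed_of_isClosed (isClosed_le continuous_const continuous_G_diag)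
      hKc.isClosed
  -- and bounded
  have hbd : Mc ∩ Phi ⁻¹' K ⊆ closedBall 0 (2 * Real.exp (Real.log ‖w₁‖) + 100) := by
    intro c hc
    rw [mem_closedBall_zero_iff]
    exact norm_le_of_G_le (hG c hc).2
  exact (isCompact_closedBall (0 : ℂ) _).of_isClosed_subset hcl hbd

theorem bijOn_Phi : BijOn Phi Mc {z | 1 < ‖z‖} ∧ ∀ c ∈ Mc, deriv Phi c ≠ 0 := by
  obtain ⟨s, hs, hB⟩ := exists_sign
  obtain ⟨B', hB'⟩ := (isCompact_closedBall (0 : ℂ) 1000).exists_bound_of_continuousOn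
    (f := fun c => G c c) continuous_G_diag.continuousOn
  refine bij_exterior properHol_Phi (R := 1000) (B' := Real.exp B') hs
    (fun c hc => mem_Mc_of_large (by linarith)) hB ?_
  intro c hc hcR
  rw [norm_Phi hc]
  apply Real.exp_le_exp.2
  have h1 := hB' c (by rwa [mem_closedBall_zero_iff])
  rw [Real.norm_eq_abs] at h1
  exact (le_abs_self _).trans h1

theorem exists_Psi : ∃ g : ℂ → ℂ, DifferentiableOn ℂ g {z | 1 < ‖z‖} ∧
    MapsTo g {z | 1 < ‖z‖} Mc ∧ (∀ z ∈ Mc, g (Phi z) = z) ∧ ∀ w ∈ {z : ℂ | 1 < ‖z‖}, Phi (g w) = w :=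
  differentiableOn_inv isOpen_Mc differentiableOn_Phi bijOn_Phi.1 bijOn_Phi.2

/-- the inverse of the Riemann map -/
noncomputable def Psi : ℂ → ℂ := exists_Psi.choose

/-- **The parameter map**: `cOf L` is the parameter with external coordinate `L`
(potential `re L`, angle `im L / 2 pi`). -/
noncomputable def cOf (L : ℂ) : ℂ := Psi (Complex.exp L)

lemma exp_mem_ext {L : ℂ} (hL : 0 < L.re) : Complex.exp L ∈ {z : ℂ | 1 < ‖z‖} := by
  show 1 < ‖Complex.exp L‖
  rw [Complex.norm_exp]; exact Real.one_lt_exp_iff.2 hL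

theorem cOf_mem {L : ℂ} (hL : 0 < L.re) : cOf L ∈ Mc :=
  exists_Psi.choose_spec.2.1 (exp_mem_ext hL)

theorem Phi_cOf {L : ℂ} (hL : 0 < L.re) : Phi (cOf L) = Complex.exp L :=
  exists_Psi.choose_spec.2.2.2 _ (exp_mem_ext hL)

theorem G_cOf {L : ℂ} (hL : 0 < L.re) : G (cOf L) (cOf L) = L.re := by
  have h1 := norm_Phi (cOf_mem hL)
  rw [Phi_cOf hL, Complex.norm_exp] at h1
  exact (Real.exp_injective h1).symm

/-- the critical value of `f (cOf L)` has Boettcher coordinate `L` -/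
theorem eta_cOf {L : ℂ} (hL : 0 < L.re) : eta (cOf L) L = cOf L :=
  eta_of_exp (G0_lt_of_mem (cOf_mem hL)) (Phi_cOf hL).symm

theorem differentiableOn_cOf : DifferentiableOn ℂ cOf {L | 0 < L.re} :=
  exists_Psi.choose_spec.1.comp Complex.differentiable_exp.differentiableOn
    fun _ hL => exp_mem_ext hL

theorem continuousOn_cOf : ContinuousOn cOf {L | 0 < L.re} := differentiableOn_cOf.continuousOn

/-- uniqueness of the parameter with given external coordinate -/
theorem cOf_unique {c L : ℂ} (hc : c ∉ N62a1eb23.mandelbrotSet) (hL : G c 0 < L.re)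
    (h : eta c L = c) : cOf L = c := by
  have hcM := mem_Mc_iff.2 hc
  have h1 : Phi c = Complex.exp L := by
    have h2 := phi_eta hL
    rw [h] at h2; exact h2
  rw [cOf, ← h1]
  exact exists_Psi.choose_spec.2.2.1 c hcM

/-- surjectivity -/
theorem exists_cOf {c : ℂ} (hc : c ∉ N62a1eb23.mandelbrotSet) :
    ∃ L : ℂ, L.re = G c c ∧ 0 < L.re ∧ cOf L = c := by
  have hcM := mem_Mc_iff.2 hc
  obtain ⟨L, hL, hη⟩ := eta_surj (G0_lt_of_mem hcM)
  exact ⟨L, hL, by rw [hL]; exact hcM, cOf_unique hc (by rw [hL]; exact G0_lt_of_mem hcM) hη⟩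

theorem cOf_eq_iff {L L' : ℂ} (hL : 0 < L.re) (hL' : 0 < L'.re) :
    cOf L = cOf L' ↔ ∃ k : ℤ, L' = L + 2 * Real.pi * Complex.I * k := by
  have h1 : cOf L = cOf L' ↔ Complex.exp L' = Complex.exp L := by
    constructor
    · intro h; rw [← Phi_cOf hL, ← Phi_cOf hL', h]
    · intro h; rw [cOf, cOf, h]
  rw [h1, Complex.exp_eq_exp_iff_exists_int]
  constructor
  · rintro ⟨k, hk⟩; exact ⟨k, by rw [hk]; ring⟩
  · rintro ⟨k, hk⟩; exact ⟨k, by rw [hk]; ring⟩

theorem deriv_cOf_ne_zero {L : ℂ} (hL : 0 < L.re) : deriv cOf L ≠ 0 := by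
  have hopen : IsOpen {L : ℂ | 0 < L.re} := isOpen_lt continuous_const Complex.continuous_re
  have h1 : HasDerivAt cOf (deriv cOf L) L :=
    (differentiableOn_cOf.differentiableAt (hopen.mem_nhds hL)).hasDerivAt
  have h2 : HasDerivAt Phi (deriv Phi (cOf L)) (cOf L) :=
    (differentiableOn_Phi.differentiableAt (isOpen_Mc.mem_nhds (cOf_mem hL))).hasDerivAt
  have h3 : HasDerivAt (Phi ∘ cOf) (deriv Phi (cOf L) * deriv cOf L) L := h2.comp L h1
  have h4 : HasDerivAt Complex.exp (deriv Phi (cOf L) * deriv cOf L) L := by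
    refine h3.congr_of_eventuallyEq ?_
    filter_upwards [hopen.mem_nhds hL] with u hu
    exact (Phi_cOf hu).symm
  intro h0
  rw [h0, mul_zero] at h4
  exact Complex.exp_ne_zero L ((Complex.hasDerivAt_exp L).unique h4)

end Pool.Agent.Work.MLC
end

section
set_option autoImplicit false

/-! # Labels fill the half disc, and the count (helper57, count argument of helper59)

`B` is a preconnected open set in the logarithmic plane, `F` a locally constant map on the part of the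
curve `Per n` over `exp '' B` with values in a finite set of labels. If every label occurs, then
every label occurs over every point of `B`; if the number of labels is the maximal number of points
of the curve over one multiplier, then the multiplier is locally injective over `B`. -/

namespace Pool.Agent.Work.MLC

open Filter Topology Metric Set

/-- every label occurs over every point -/
theorem labels_fill {n : ℕ} (hn : 0 < n) {B : Set ℂ} (hB : IsOpen B) (hBc : IsPreconnected B)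
    (h1 : ∀ L ∈ B, Complex.exp L ≠ 1) (h2 : ∀ L ∈ B, ‖Complex.exp L‖ < 23 / 10)
    {Lab : Type*} (F : ℂ × ℂ → Lab)
    (hF : ∀ x ∈ Per n, ∀ L ∈ B, mul n x = Complex.exp L → ∀ᶠ x' in 𝓝 x, x' ∈ Per n → F x' = F x)
    {j : Lab} {x₀ : ℂ × ℂ} (hx₀ : x₀ ∈ Per n) {L₀ : ℂ} (hL₀ : L₀ ∈ B)
    (hm₀ : mul n x₀ = Complex.exp L₀) (hj : F x₀ = j) :
    ∀ L ∈ B, ∃ x ∈ Per n, mul n x = Complex.exp L ∧ F x = j := by
  set S : Set ℂ := {L | ∃ x ∈ Per n, mul n x = Complex.exp L ∧ F x = j} with hS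
  -- interior
  have hopen : ∀ L ∈ B, L ∈ S → ∀ᶠ L' in 𝓝 L, L' ∈ S := by
    rintro L hL ⟨x, hx, hm, hFx⟩
    have h3 := mul_open hn hx (by rw [hm]; exact h1 L hL) (by rw [hm]; exact h2 L hL)
      (hF x hx L hL hm)
    rw [hm] at h3
    filter_upwards [Complex.continuous_exp.continuousAt.eventually h3] with L' hL'
    obtain ⟨x', ⟨hx'1, hx'2⟩, hx'3⟩ := hL'
    exact ⟨x', hx'2, hx'3, (hx'1 hx'2).trans hFx⟩
  -- closedness
  have hclosed : ∀ L ∈ B, L ∈ closure S → L ∈ S := by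
    intro L hL hcl
    obtain ⟨r, hr, hrB⟩ := Metric.mem_nhds_iff.1 (hB.mem_nhds hL)
    obtain ⟨u, hu, hut⟩ := mem_closure_iff_seq_limit.1 hcl
    choose x hx hm hFx using hu
    have hev : ∀ᶠ k in atTop, u k ∈ closedBall L (r / 2) :=
      hut.eventually (Metric.closedBall_mem_nhds L (by linarith))
    have hKB : closedBall L (r / 2) ⊆ B := fun z hz => hrB (by
      rw [mem_closedBall] at hz; rw [mem_ball]; linarith)
    have hK : IsCompact (Per n ∩ mul n ⁻¹' (Complex.exp '' closedBall L (r / 2))) := by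
      refine isCompact_Per hn (((isCompact_closedBall L (r / 2)).image
        Complex.continuous_exp).isClosed) ?_
      rintro _ ⟨L', hL', rfl⟩
      exact h2 L' (hKB hL')
    obtain ⟨N, hN⟩ := eventually_atTop.1 hev
    obtain ⟨a, ha, φ, hφ, hφt⟩ := hK.tendsto_subseq (x := fun k => x (k + N)) fun k =>
      ⟨hx _, by
        refine ⟨u (k + N), hN _ (by omega), ?_⟩
        exact (hm _).symm⟩
    have hut' : Tendsto (fun k => u (φ k + N)) atTop (𝓝 L) :=
      hut.comp ((tendsto_add_atTop_nat N).comp hφ.tendsto_atTop)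
    have hma : mul n a = Complex.exp L := by
      have h3 : Tendsto (fun k => mul n (x (φ k + N))) atTop (𝓝 (mul n a)) :=
        ((continuous_mul' n).tendsto a).comp hφt
      have h4 : Tendsto (fun k => Complex.exp (u (φ k + N))) atTop (𝓝 (Complex.exp L)) :=
        (Complex.continuous_exp.tendsto L).comp hut'
      refine tendsto_nhds_unique h3 (h4.congr fun k => (hm _).symm)
    have h5 := hF a ha.1 L hL hma
    obtain ⟨k, hk⟩ := (hφt.eventually h5).exists
    exact ⟨a, ha.1, hma, (hk (hx _)).symm.trans (hFx _)⟩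
  intro L hL
  by_contra hcon
  have hpre := hBc (interior S) (closure S)ᶜ isOpen_interior isClosed_closure.isOpen_compl
    (by
      intro L' hL'
      by_cases h : L' ∈ closure S
      · left
        exact mem_interior_iff_mem_nhds.2 (hopen L' hL' (hclosed L' hL' h))
      · exact Or.inr h)
    ⟨L₀, hL₀, mem_interior_iff_mem_nhds.2 (hopen L₀ hL₀ ⟨x₀, hx₀, hm₀, hj⟩)⟩
    ⟨L, hL, fun h => hcon (hclosed L hL h)⟩
  obtain ⟨z, -, hz1, hz2⟩ := hpre
  exact hz2 (subset_closure (interior_subset hz1))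

/-- **the count**: if all labels occur and the number of labels is the maximal number of points over
one multiplier then the multiplier is locally injective over `B` -/
theorem locInj_of_labels {n : ℕ} (hn : 0 < n) {B : Set ℂ} (hB : IsOpen B)
    (hBc : IsPreconnected B) (h1 : ∀ L ∈ B, Complex.exp L ≠ 1)
    (h2 : ∀ L ∈ B, ‖Complex.exp L‖ < 23 / 10) {Lab : Type*} [Fintype Lab] (F : ℂ × ℂ → Lab)
    (hF : ∀ x ∈ Per n, ∀ L ∈ B, mul n x = Complex.exp L → ∀ᶠ x' in 𝓝 x, x' ∈ Per n → F x' = F x)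
    (hall : ∀ j : Lab, ∃ x ∈ Per n, ∃ L ∈ B, mul n x = Complex.exp L ∧ F x = j)
    (hcount : ∀ (S : Finset (ℂ × ℂ)) (l : ℂ), l ≠ 1 → (∀ x ∈ S, x ∈ Per n ∧ mul n x = l) →
      S.card ≤ Fintype.card Lab ∧ (S.card = Fintype.card Lab → ∀ x ∈ S, LocInj n x)) :
    ∀ x ∈ Per n, ∀ L ∈ B, mul n x = Complex.exp L → LocInj n x := by
  classical
  intro x hx L hL hm
  have h3 : ∀ j : Lab, ∃ x ∈ Per n, mul n x = Complex.exp L ∧ F x = j := by
    intro j
    obtain ⟨x₀, hx₀, L₀, hL₀, hm₀, hj⟩ := hall j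
    exact labels_fill hn hB hBc h1 h2 F hF hx₀ hL₀ hm₀ hj L hL
  choose g hg1 hg2 hg3 using h3
  have hginj : Function.Injective g := fun i j hij => by rw [← hg3 i, ← hg3 j, hij]
  set S : Finset (ℂ × ℂ) := Finset.univ.image g with hS
  have hScard : S.card = Fintype.card Lab := by
    rw [hS, Finset.card_image_of_injective _ hginj, Finset.card_univ]
  have hSmem : ∀ z ∈ S, z ∈ Per n ∧ mul n z = Complex.exp L := by
    intro z hz
    obtain ⟨j, -, rfl⟩ := Finset.mem_image.1 hz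
    exact ⟨hg1 j, hg2 j⟩
  have hxS : x ∈ S := by
    by_contra hcon
    have h4 := (hcount (insert x S) (Complex.exp L) (h1 L hL) (by
      intro z hz
      rcases Finset.mem_insert.1 hz with rfl | hz
      · exact ⟨hx, hm⟩
      · exact hSmem z hz)).1
    rw [Finset.card_insert_of_notMem hcon, hScard] at h4
    omega
  exact (hcount S (Complex.exp L) (h1 L hL) hSmem).2 hScard x hxS

end Pool.Agent.Work.MLC
end

section
/-!
# Rotation types are open (helper51)
-/

set_option autoImplicit false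

open Complex Filter Topology Set Metric

namespace Pool.Agent.Work.MLC.Tr

/-- the value of `u` along a periodic curve at translated parameters -/
theorem u_translate {c b L : ℂ} {n : ℕ} {Λ : ℂ → ℂ} (h : Lin c b (exp L) n Λ) {g : ℝ → ℂ} {q : ℕ}
    {N : ℤ} (hper : ∀ s, g (s + 1) = g s + (q * L + N * (2 * Real.pi * I))) (s : ℝ) (k : ℤ) :
    G c (Λ (exp (g (s + k)))) = ((2 : ℝ) ^ n) ^ (q * k) * G c (Λ (exp (g s))) := by
  have h1 : ∀ k : ℕ, ∀ s : ℝ, g (s + k) = g s + k * (q * L + N * (2 * Real.pi * I)) := by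
    intro k
    induction k with
    | zero => intro s; simp
    | succ k ih =>
      intro s
      push_cast
      rw [← add_assoc, hper, ih]; ring
  have h2 : g (s + k) = g s + k * (q * L + N * (2 * Real.pi * I)) := by
    rcases le_or_gt 0 k with hk | hk
    · obtain ⟨k', rfl⟩ := Int.eq_ofNat_of_zero_le hk
      exact_mod_cast h1 k' s
    · obtain ⟨k', hk'⟩ := Int.eq_ofNat_of_zero_le (show 0 ≤ -k by omega)
      have hk2 : k = -(k' : ℤ) := by omega
      subst hk2
      have := h1 k' (s + ((-(k' : ℤ) : ℤ) : ℝ))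
      push_cast at this ⊢
      rw [neg_add_cancel_right] at this
      rw [this]; ring
  have h3 : exp (g (s + k)) = exp L ^ ((q : ℤ) * k) * exp (g s) := by
    rw [h2, exp_add, mul_comm (exp (g s))]
    congr 1
    have h4 : (k : ℂ) * (q * L + N * (2 * Real.pi * I))
        = ((q * k : ℤ) : ℂ) * L + ((k * N : ℤ) : ℂ) * (2 * Real.pi * I) := by
      push_cast; ring
    rw [h4, exp_add, exp_int_mul_two_pi_mul_I, mul_one, exp_int_mul]
  rw [h3, h.u_zpow]

theorem continuous_G_comp {X : Type*} [TopologicalSpace X] {c w : X → ℂ} (hc : Continuous c)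
    (hw : Continuous w) : Continuous fun x => G (c x) (w x) := by
  have h1 : Continuous fun x => (c x, w x) := hc.prodMk hw
  have h2 := continuous_G
  generalize hg : (fun p : ℂ × ℂ => G p.1 p.2) = F at h2
  have h3 : (fun x => G (c x) (w x)) = fun x => F (c x, w x) := by
    funext x
    rw [← hg]
  rw [h3]
  exact h2.comp h1

/-- **(R3)** rotation types are open. `P` is any space of parameters. -/
theorem isOpen_type {P : Type*} [TopologicalSpace P] {n : ℕ} {c b L : P → ℂ} {Λ : P → ℂ → ℂ}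
    (hc : Continuous c) (hL : Continuous L) (hΛ : Continuous fun x : P × ℂ => Λ x.1 x.2)
    (hlin : ∀ p, Lin (c p) (b p) (exp (L p)) n (Λ p)) (q : ℕ) (N : ℤ) :
    IsOpen {p | TypeL (c p) (Λ p) (L p) q N} := by
  rw [isOpen_iff_mem_nhds]
  rintro p0 ⟨g, hg, hpos, hper⟩
  set γ : P → ℝ → ℂ := fun p s => g s + s * (q * (L p - L p0)) with hγ
  have hu : Continuous fun x : P × ℝ => G (c x.1) (Λ x.1 (exp (γ x.1 x.2))) := by
    have h1 : Continuous fun x : P × ℝ => γ x.1 x.2 := by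
      have h1a : Continuous fun x : P × ℝ => L x.1 := hL.comp continuous_fst
      have h1b : Continuous fun x : P × ℝ => (x.2 : ℂ) := continuous_ofReal.comp continuous_snd
      exact (hg.comp continuous_snd).add
        (h1b.mul (continuous_const.mul (h1a.sub continuous_const)))
    have h2 : Continuous fun x : P × ℝ => (x.1, exp (γ x.1 x.2)) :=
      continuous_fst.prodMk (continuous_exp.comp h1)
    have h2b : Continuous fun x : P × ℝ => Λ x.1 (exp (γ x.1 x.2)) :=
      Continuous.comp (g := fun x : P × ℂ => Λ x.1 x.2) hΛ h2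
    have h2c : Continuous fun x : P × ℝ => c x.1 := hc.comp continuous_fst
    exact continuous_G_comp h2c h2b
  have hopen : IsOpen {x : P × ℝ | 0 < G (c x.1) (Λ x.1 (exp (γ x.1 x.2)))} :=
    isOpen_lt continuous_const hu
  have hsub : ({p0} : Set P) ×ˢ (Icc (0 : ℝ) 1)
      ⊆ {x : P × ℝ | 0 < G (c x.1) (Λ x.1 (exp (γ x.1 x.2)))} := by
    rintro ⟨p, s⟩ ⟨hp, -⟩
    rw [mem_singleton_iff] at hp
    subst hp
    show 0 < G (c p) (Λ p (exp (γ p s)))
    have : γ p s = g s := by simp [hγ]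
    rw [this]; exact hpos s
  obtain ⟨U, V, hU, -, hpU, hV, hUV⟩ := generalized_tube_lemma isCompact_singleton isCompact_Icc
    hopen hsub
  filter_upwards [hU.mem_nhds (hpU rfl)] with p hp
  have hperγ : ∀ s, γ p (s + 1) = γ p s + (q * L p + N * (2 * Real.pi * I)) := by
    intro s
    simp only [hγ]
    rw [hper s]; push_cast; ring
  refine ⟨γ p, ?_, ?_, hperγ⟩
  · simp only [hγ]; fun_prop
  · intro s
    have h1 : s = Int.fract s + (⌊s⌋ : ℤ) := (Int.fract_add_floor s).symm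
    rw [h1, u_translate (hlin p) hperγ]
    have h2 : 0 < G (c p) (Λ p (exp (γ p (Int.fract s)))) := by
      have h3 : ((p, Int.fract s) : P × ℝ) ∈ U ×ˢ V :=
        ⟨hp, hV ⟨Int.fract_nonneg s, (Int.fract_lt_one s).le⟩⟩
      have h4 := hUV h3
      simp only [mem_ofPred_eq] at h4
      exact h4
    positivity

end Pool.Agent.Work.MLC.Tr
end

section
/-!
# Uniqueness of the rotation type (helper25)

`c` in the Mandelbrot set (`G c 0 = 0`), `Λ` a linearizer at a repelling point of multiplier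
`ρ = exp L`. A curve of type `(q, N)` is a continuous `g : ℝ → ℂ` with `g (s + 1) = g s + (q L + 2 π i N)`
and `0 < G c (Λ (exp (g s)))`.

* `Tract.image_nhds`: `ψ(RH)` is a neighbourhood of each of its points;
* `Tract.type_of_meet`: a curve of type `(q, N)` through a tract of type `(qT, NT)` has
  `(q, N) = k (qT, NT)`;
* `type_unique`: two types at the same point are proportional, `N q' = N' q`.
-/

set_option autoImplicit false

open Complex Filter Topology Set Metric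

namespace Pool.Agent.Work.MLC.Tr

theorem isOpen_RH : IsOpen {z : ℂ | 0 < z.re} := isOpen_lt continuous_const continuous_re

/-- a lift of `eta c` is open at every point -/
theorem lift_map_nhds {c b ρ : ℂ} {n : ℕ} {Λ ψ : ℂ → ℂ} (h : Lin c b ρ n Λ) (hc : G c 0 = 0)
    (hψ : DifferentiableOn ℂ ψ {z : ℂ | 0 < z.re})
    (hlift : ∀ z : ℂ, 0 < z.re → Λ (ψ z) = eta c z) {ζ : ℂ} (hζ : 0 < ζ.re) :
    map ψ (𝓝 ζ) = 𝓝 (ψ ζ) := by
  have hnb : {z : ℂ | 0 < z.re} ∈ 𝓝 ζ := isOpen_RH.mem_nhds hζ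
  have h1 : HasDerivAt ψ (deriv ψ ζ) ζ := (hψ.differentiableAt hnb).hasDerivAt
  have h2 : HasDerivAt Λ (deriv Λ (ψ ζ)) (ψ ζ) := (h.diff _).hasDerivAt
  have h3 : HasDerivAt (Λ ∘ ψ) (deriv Λ (ψ ζ) * deriv ψ ζ) ζ := h2.comp ζ h1
  have h4 : (Λ ∘ ψ) =ᶠ[𝓝 ζ] eta c := by
    filter_upwards [hnb] with z hz
    exact hlift z hz
  have h5 : deriv (eta c) ζ = deriv Λ (ψ ζ) * deriv ψ ζ := by
    rw [← h4.deriv_eq]; exact h3.deriv
  have h6 : deriv (eta c) ζ ≠ 0 := deriv_eta_ne_zero (by rw [hc]; exact hζ)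
  have h7 : deriv ψ ζ ≠ 0 := by
    intro h0
    rw [h0, mul_zero] at h5
    exact h6 h5
  have h8 : HasStrictDerivAt ψ (deriv ψ ζ) ζ := (hψ.analyticAt hnb).hasStrictDerivAt
  exact h8.map_nhds_eq h7

/-- a curve in `{u > 0}` that meets a lift stays in the lift -/
theorem curve_in_lift {c b ρ : ℂ} {n : ℕ} {Λ ψ : ℂ → ℂ} (h : Lin c b ρ n Λ) (hc : G c 0 = 0)
    (hψ : DifferentiableOn ℂ ψ {z : ℂ | 0 < z.re})
    (hlift : ∀ z : ℂ, 0 < z.re → Λ (ψ z) = eta c z) {x : ℝ → ℂ} (hx : Continuous x)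
    (hpos : ∀ s, 0 < G c (Λ (x s))) {s0 : ℝ} {z0 : ℂ} (hz0 : 0 < z0.re) (hmeet : ψ z0 = x s0) :
    ∀ s, ∃ z : ℂ, 0 < z.re ∧ ψ z = x s := by
  set S : Set ℝ := {s | ∃ z : ℂ, 0 < z.re ∧ ψ z = x s} with hS
  have hopen : IsOpen S := by
    rw [isOpen_iff_mem_nhds]
    rintro s ⟨z, hz, hzs⟩
    have h1 : ψ '' {z : ℂ | 0 < z.re} ∈ 𝓝 (x s) := by
      rw [← hzs, ← lift_map_nhds h hc hψ hlift hz]
      exact image_mem_map (isOpen_RH.mem_nhds hz)
    filter_upwards [hx.continuousAt.eventually_mem h1] with t ht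
    obtain ⟨w, hw, hwt⟩ := ht
    exact ⟨w, hw, hwt⟩
  have hopen2 : IsOpen Sᶜ := by
    rw [isOpen_iff_mem_nhds]
    intro s hs
    obtain ⟨ζ, hζ1, hζ2⟩ := eta_surj (c := c) (z := Λ (x s)) (by rw [hc]; exact hpos s)
    have hζ0 : 0 < ζ.re := by rw [hζ1]; exact hpos s
    obtain ⟨ψ', hψ', hlift', hζψ, -⟩ := exists_lift h hc hζ0 hζ2
    have h1 : ψ' '' {z : ℂ | 0 < z.re} ∈ 𝓝 (x s) := by
      rw [← hζψ, ← lift_map_nhds h hc hψ' hlift' hζ0]
      exact image_mem_map (isOpen_RH.mem_nhds hζ0)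
    filter_upwards [hx.continuousAt.eventually_mem h1] with t ht
    rintro ⟨z, hz, hzt⟩
    obtain ⟨w, hw, hwt⟩ := ht
    have hw' : 0 < w.re := hw
    obtain ⟨m, -, hm⟩ := lift_meet h hc ⟨hψ'.continuousOn, hlift'⟩ ⟨hψ.continuousOn, hlift⟩ hw' hz
      (by rw [hwt, hzt])
    apply hs
    refine ⟨ζ + 2 * Real.pi * I * m, ?_, ?_⟩
    · have : (ζ + 2 * Real.pi * I * m).re = ζ.re := by simp [mul_comm]
      rw [this]; exact hζ0
    · rw [← hm ζ hζ0, hζψ]
  have hclopen : IsClopen S := ⟨⟨hopen2⟩, hopen⟩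
  have huniv : S = univ := hclopen.eq_univ ⟨s0, z0, hz0, hmeet⟩
  intro s
  have : s ∈ S := by rw [huniv]; exact mem_univ s
  exact this

/-- a continuous map `D : ℝ → ℂ` with `exp D = 1` is constant -/
theorem const_of_exp_eq_one {D : ℝ → ℂ} (hD : Continuous D) (h1 : ∀ s, exp (D s) = 1) (s t : ℝ) :
    D s = D t := by
  have hre : ∀ s, (D s).re = 0 := by
    intro s
    obtain ⟨N, hN⟩ := exp_eq_one_iff.1 (h1 s)
    rw [hN]; simp
  have him : (D s).im = (D t).im := by
    have hpre : IsPreconnected (range fun s => (D s).im) :=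
      isPreconnected_range (by fun_prop)
    have hcount : (range fun s => (D s).im).Countable := by
      apply (countable_range (fun N : ℤ => (N : ℝ) * (2 * Real.pi))).mono
      rintro _ ⟨s, rfl⟩
      obtain ⟨N, hN⟩ := exp_eq_one_iff.1 (h1 s)
      refine ⟨N, ?_⟩
      simp only [hN]
      simp
    exact (hcount.isTotallyDisconnected _ subset_rfl hpre) ⟨s, rfl⟩ ⟨t, rfl⟩
  apply Complex.ext
  · rw [hre, hre]
  · exact him

theorem Tract.pow_shift {c b ρ : ℂ} {n : ℕ} {Λ ψ : ℂ → ℂ} {qT : ℕ} {a : ℤ}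
    (T : Tract c b ρ n Λ ψ qT a) {F : ℂ → ℂ} {v : ℂ}
    (hFs : ∀ z : ℂ, 0 < z.re → F (2 ^ (n * qT) * z + 2 * Real.pi * I * a) = F z + v)
    (k : ℕ) {z : ℂ} (hz : 0 < z.re) :
    ∃ z' : ℂ, 0 < z'.re ∧ ψ z' = ρ ^ (qT * k) * ψ z ∧ F z' = F z + k * v := by
  induction k with
  | zero => exact ⟨z, hz, by simp, by simp⟩
  | succ k ih =>
    obtain ⟨w, hw, h1, h2⟩ := ih
    refine ⟨2 ^ (n * qT) * w + 2 * Real.pi * I * a, ?_, ?_, ?_⟩
    · have h3 : (2 * Real.pi * I * a : ℂ).re = 0 := by simp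
      rw [add_re, re_pow_mul, h3, add_zero]
      positivity
    · rw [T.per w hw, h1, mul_add, mul_one, pow_add]
      ring
    · rw [hFs w hw, h2]
      push_cast
      ring

/-- a curve of type `(q, N)` through a tract of type `(qT, NT)` has `(q, N) = k (qT, NT)` -/
theorem Tract.type_of_meet {c b ρ : ℂ} {n : ℕ} {Λ ψ : ℂ → ℂ} {qT : ℕ} {a : ℤ}
    (h : Lin c b ρ n Λ) (hc : G c 0 = 0) (T : Tract c b ρ n Λ ψ qT a) {L : ℂ} (hL : exp L = ρ)
    {F : ℂ → ℂ} {NT : ℤ} (hF : ContinuousOn F {z : ℂ | 0 < z.re})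
    (hFe : ∀ z : ℂ, 0 < z.re → exp (F z) = ψ z)
    (hFs : ∀ z : ℂ, 0 < z.re → F (2 ^ (n * qT) * z + 2 * Real.pi * I * a)
      = F z + (qT * L + NT * (2 * Real.pi * I)))
    {g : ℝ → ℂ} (hg : Continuous g) (hpos : ∀ s, 0 < G c (Λ (exp (g s)))) {q : ℕ} {N : ℤ}
    (hper : ∀ s, g (s + 1) = g s + (q * L + N * (2 * Real.pi * I))) {s0 : ℝ} {z0 : ℂ}
    (hz0 : 0 < z0.re) (hmeet : ψ z0 = exp (g s0)) :
    ∃ k : ℕ, q = k * qT ∧ N = k * NT := by
  have hall := curve_in_lift h hc T.diff T.lift (x := fun s => exp (g s)) (by fun_prop) hpos hz0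
    hmeet
  choose ζ hζre hζ using hall
  have hζc : Continuous ζ := by
    rw [continuous_iff_continuousAt]
    intro s V hV
    have h1 : V ∩ {z : ℂ | 0 < z.re} ∈ 𝓝 (ζ s) := inter_mem hV (isOpen_RH.mem_nhds (hζre s))
    have h2 : ψ '' (V ∩ {z : ℂ | 0 < z.re}) ∈ 𝓝 (exp (g s)) := by
      rw [← hζ s, ← lift_map_nhds h hc T.diff T.lift (hζre s)]
      exact image_mem_map h1
    have h3 : ContinuousAt (fun s => exp (g s)) s := by fun_prop
    rw [mem_map]
    filter_upwards [h3.eventually_mem h2] with t ht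
    obtain ⟨w, ⟨hwV, hw⟩, hwt⟩ := ht
    have h4 : ζ t = w := T.inj _ _ (hζre t) hw (by rw [hζ t, hwt])
    show ζ t ∈ V
    rw [h4]; exact hwV
  have hD : Continuous fun s => g s - F (ζ s) := by
    apply hg.sub
    exact hF.comp_continuous hζc hζre
  have hD1 : ∀ s, exp (g s - F (ζ s)) = 1 := by
    intro s
    rw [exp_sub, hFe _ (hζre s), hζ s]
    exact div_self (exp_ne_zero _)
  have hconst := const_of_exp_eq_one hD hD1 (s0 + 1) s0
  rw [hper s0] at hconst
  have hv : F (ζ (s0 + 1)) = F (ζ s0) + (q * L + N * (2 * Real.pi * I)) := by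
    linear_combination -hconst
  have hρ0 := h.rho_ne
  have h1 : ψ (ζ (s0 + 1)) = ρ ^ q * ψ (ζ s0) := by
    rw [hζ, hζ, hper, exp_add, exp_add, exp_nat_mul, hL, exp_int_mul_two_pi_mul_I]
    ring
  obtain ⟨z', hz', h2, h3⟩ := T.pow_shift hFs (q / qT) (hζre s0)
  have hdm : qT * (q / qT) + q % qT = q := Nat.div_add_mod q qT
  have h4 : ψ (ζ (s0 + 1)) = ρ ^ (q % qT) * ψ z' := by
    rw [h1, h2, ← mul_assoc, ← pow_add, add_comm, hdm]
  have hr : q % qT = 0 := by
    by_contra hne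
    exact T.disj (q % qT) (Nat.pos_of_ne_zero hne) (Nat.mod_lt _ T.hq) _ _ (hζre _) hz' h4
  rw [hr, pow_zero, one_mul] at h4
  have h5 : ζ (s0 + 1) = z' := T.inj _ _ (hζre _) hz' h4
  rw [h5, h3] at hv
  have hq : q = q / qT * qT := by
    rw [hr, add_zero] at hdm
    rw [mul_comm]; exact hdm.symm
  refine ⟨q / qT, hq, ?_⟩
  set k := q / qT with hk
  have h6 : (N : ℂ) * (2 * Real.pi * I) = (k * NT : ℤ) * (2 * Real.pi * I) := by
    have h7 : (q : ℂ) = k * qT := by exact_mod_cast hq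
    rw [h7] at hv
    push_cast
    linear_combination -hv
  have h8 := mul_right_cancel₀ two_pi_I_ne_zero h6
  exact_mod_cast h8

/-- **Uniqueness of the rotation type.** -/
theorem type_unique {c b ρ : ℂ} {n : ℕ} {Λ : ℂ → ℂ} (h : Lin c b ρ n Λ) (hc : G c 0 = 0) {L : ℂ}
    (hL : exp L = ρ) {g g' : ℝ → ℂ} (hg : Continuous g) (hg' : Continuous g')
    (hpos : ∀ s, 0 < G c (Λ (exp (g s)))) (hpos' : ∀ s, 0 < G c (Λ (exp (g' s))))
    {q q' : ℕ} {N N' : ℤ} (hper : ∀ s, g (s + 1) = g s + (q * L + N * (2 * Real.pi * I)))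
    (hper' : ∀ s, g' (s + 1) = g' s + (q' * L + N' * (2 * Real.pi * I))) :
    N * q' = N' * q := by
  by_contra hne
  have hLre : 0 < L.re := by
    have h1 := h.rho
    rw [← hL, norm_exp] at h1
    exact Real.one_lt_exp_iff.1 h1
  have hdet : (q * L + N * (2 * Real.pi * I)).re * (q' * L + N' * (2 * Real.pi * I)).im
      - (q * L + N * (2 * Real.pi * I)).im * (q' * L + N' * (2 * Real.pi * I)).re ≠ 0 := by
    have h1 : (q * L + N * (2 * Real.pi * I)).re * (q' * L + N' * (2 * Real.pi * I)).im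
      - (q * L + N * (2 * Real.pi * I)).im * (q' * L + N' * (2 * Real.pi * I)).re
      = 2 * Real.pi * L.re * ((N' * q - N * q' : ℤ) : ℝ) := by
      simp
      ring
    rw [h1]
    have h2 : ((N' * q - N * q' : ℤ) : ℝ) ≠ 0 := by
      have : (N' * q - N * q' : ℤ) ≠ 0 := by
        intro h0; apply hne; linarith
      exact_mod_cast this
    have := Real.pi_pos
    positivity
  obtain ⟨s, t, hst⟩ := crossing hg hg' hper hper' hdet
  obtain ⟨ψ, qT, a, T, ζ, hζ, hζx⟩ := exists_tract h hc (hpos s)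
  obtain ⟨F, NT, hF, hFe, hFs, -⟩ := T.ply h hL
  obtain ⟨k, hk1, hk2⟩ := T.type_of_meet h hc hL hF.continuousOn hFe hFs hg hpos hper hζ hζx
  obtain ⟨k', hk1', hk2'⟩ := T.type_of_meet h hc hL hF.continuousOn hFe hFs hg' hpos' hper' hζ
    (by rw [hζx, hst])
  apply hne
  rw [hk1, hk1', hk2, hk2']
  push_cast
  ring

/-- **(R2)** uniqueness of the type. -/
theorem TypeL.unique {c b ρ : ℂ} {n : ℕ} {Λ : ℂ → ℂ} (h : Lin c b ρ n Λ) (hc : G c 0 = 0) {L : ℂ}
    (hL : exp L = ρ) {q q' : ℕ} {N N' : ℤ} (hT : TypeL c Λ L q N) (hT' : TypeL c Λ L q' N') :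
    N * q' = N' * q := by
  obtain ⟨g, hg, hpos, hper⟩ := hT
  obtain ⟨g', hg', hpos', hper'⟩ := hT'
  exact type_unique h hc hL hg hg' hpos hpos' hper hper'

end Pool.Agent.Work.MLC.Tr
end

section
/-!
# The Mandelbrot set is compact and connected (helper60)
-/

set_option autoImplicit false

namespace Pool.Agent.Work.MLC

open Filter Topology Metric Set

/-- the sublevel sets of the potential are compact -/
theorem isCompact_G_diag_le (t : ℝ) : IsCompact {c : ℂ | G c c ≤ t} := by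
  refine (isCompact_closedBall (0 : ℂ) (2 * Real.exp t + 100)).of_isClosed_subset
    (isClosed_le continuous_G_diag continuous_const) fun c hc => ?_
  rw [mem_closedBall_zero_iff]
  exact norm_le_of_G_le hc

theorem mem_MM_iff_le {c : ℂ} : c ∈ N62a1eb23.mandelbrotSet ↔ G c c ≤ 0 := by
  rw [mem_M_iff']
  exact ⟨fun h => h.le, fun h => le_antisymm h (G_nonneg c c)⟩

theorem isCompact_MM : IsCompact N62a1eb23.mandelbrotSet := by
  have h : N62a1eb23.mandelbrotSet = {c : ℂ | G c c ≤ 0} := by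
    ext c
    exact mem_MM_iff_le
  rw [h]
  exact isCompact_G_diag_le 0

/-- the level annuli are images of strips -/
theorem image_cOf_strip (s : ℝ) :
    cOf '' {L | 0 < L.re ∧ L.re < s} = {c : ℂ | 0 < G c c ∧ G c c < s} := by
  ext c
  constructor
  · rintro ⟨L, ⟨h1, h2⟩, rfl⟩
    show 0 < G (cOf L) (cOf L) ∧ G (cOf L) (cOf L) < s
    rw [G_cOf h1]
    exact ⟨h1, h2⟩
  · rintro ⟨h1, h2⟩
    obtain ⟨L, hL1, hL2, hL3⟩ := exists_cOf (mem_Mc_iff.1 h1)
    exact ⟨L, ⟨hL2, by rw [hL1]; exact h2⟩, hL3⟩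

theorem isPreconnected_level (s : ℝ) : IsPreconnected {c : ℂ | 0 < G c c ∧ G c c < s} := by
  rw [← image_cOf_strip]
  have hconv : Convex ℝ {L : ℂ | 0 < L.re ∧ L.re < s} :=
    (convex_halfSpace_re_gt 0).inter (convex_halfSpace_re_lt s)
  exact hconv.isPreconnected.image _ (continuousOn_cOf.mono fun L hL => hL.1)

theorem isPreconnected_MM : IsPreconnected N62a1eb23.mandelbrotSet := by
  set M : Set ℂ := N62a1eb23.mandelbrotSet with hM
  -- key step: two disjoint open sets covering `M`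
  have key : ∀ U V : Set ℂ, IsOpen U → IsOpen V → Disjoint U V → M ⊆ U ∪ V → ∀ s : ℝ,
      0 < s → {c : ℂ | 0 < G c c ∧ G c c < s} ⊆ U → V ∩ M = ∅ := by
    intro U V hU hV hUV hMUV s hs hA
    have h1 : V ∩ M = V ∩ {c : ℂ | G c c < s} := by
      ext c
      constructor
      · rintro ⟨hc1, hc2⟩
        refine ⟨hc1, ?_⟩
        have := mem_MM_iff_le.1 hc2
        show G c c < s
        linarith
      · rintro ⟨hc1, hc2⟩
        refine ⟨hc1, ?_⟩
        by_contra h0
        have h2 : 0 < G c c := mem_Mc_iff.2 h0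
        exact (disjoint_left.1 hUV) (hA ⟨h2, hc2⟩) hc1
    have hopen : IsOpen (V ∩ M) := by
      rw [h1]
      exact hV.inter (isOpen_lt continuous_G_diag continuous_const)
    have h2 : V ∩ M = M \ U := by
      ext c
      constructor
      · rintro ⟨hc1, hc2⟩
        exact ⟨hc2, fun h => (disjoint_left.1 hUV) h hc1⟩
      · rintro ⟨hc1, hc2⟩
        rcases hMUV hc1 with h | h
        · exact absurd h hc2
        · exact ⟨h, hc1⟩
    have hcpt : IsCompact (V ∩ M) := by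
      rw [h2]
      exact isCompact_MM.diff hU
    rcases isClopen_iff.1 ⟨hcpt.isClosed, hopen⟩ with h | h
    · exact h
    · exfalso
      rw [h] at hcpt
      exact noncompact_univ ℂ hcpt
  rw [isPreconnected_iff_subset_of_disjoint]
  intro u v hu hv huv hdis
  have hA : IsCompact (M \ v) := isCompact_MM.diff hv
  have hB : IsCompact (M \ u) := isCompact_MM.diff hu
  have hAB : Disjoint (M \ v) (M \ u) := by
    rw [disjoint_left]
    rintro c ⟨hc1, hc2⟩ ⟨-, hc3⟩
    rcases huv hc1 with h | h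
    · exact hc3 h
    · exact hc2 h
  obtain ⟨U, V, hU, hV, hAU, hBV, hUV⟩ := SeparatedNhds.of_isCompact_isCompact hA hB hAB
  have hMUV : M ⊆ U ∪ V := by
    intro c hc
    by_cases h : c ∈ v
    · right
      refine hBV ⟨hc, fun h' => ?_⟩
      have : c ∈ M ∩ (u ∩ v) := ⟨hc, h', h⟩
      rw [hdis] at this
      exact this
    · exact Or.inl (hAU ⟨hc, h⟩)
  -- a small level set is covered
  obtain ⟨s, hs, hsU⟩ : ∃ s : ℝ, 0 < s ∧ {c : ℂ | 0 < G c c ∧ G c c < s} ⊆ U ∪ V := by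
    have hK : IsCompact ({c : ℂ | G c c ≤ 1} \ (U ∪ V)) :=
      (isCompact_G_diag_le 1).diff (hU.union hV)
    rcases ({c : ℂ | G c c ≤ 1} \ (U ∪ V)).eq_empty_or_nonempty with h0 | h0
    · refine ⟨1, one_pos, fun c hc => ?_⟩
      by_contra h
      have : c ∈ {c : ℂ | G c c ≤ 1} \ (U ∪ V) := ⟨hc.2.le, h⟩
      rw [h0] at this
      exact this
    · obtain ⟨c₀, hc₀, hmin⟩ := hK.exists_isMinOn h0 continuous_G_diag.continuousOn
      have hpos : 0 < G c₀ c₀ := by
        refine mem_Mc_iff.2 fun h => hc₀.2 (hMUV h)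
      refine ⟨min 1 (G c₀ c₀), lt_min one_pos hpos, fun c hc => ?_⟩
      by_contra h
      have h1 : c ∈ {c : ℂ | G c c ≤ 1} \ (U ∪ V) :=
        ⟨(hc.2.trans_le (min_le_left _ _)).le, h⟩
      have h2 : G c₀ c₀ ≤ G c c := hmin h1
      have h3 := hc.2.trans_le (min_le_right _ _)
      linarith
  rcases (isPreconnected_level s).subset_or_subset hU hV hUV hsU with h | h
  · left
    have h1 := key U V hU hV hUV hMUV s hs h
    intro c hc
    by_contra hcu
    have : c ∈ V ∩ M := ⟨hBV ⟨hc, hcu⟩, hc⟩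
    rw [h1] at this
    exact this
  · right
    have h1 := key V U hV hU hUV.symm (by rwa [union_comm]) s hs h
    intro c hc
    by_contra hcv
    have : c ∈ U ∩ M := ⟨hAU ⟨hc, hcv⟩, hc⟩
    rw [h1] at this
    exact this

theorem zero_mem_MM : (0 : ℂ) ∈ N62a1eb23.mandelbrotSet := by
  rw [mem_M_iff]
  refine G_zero_of_bdd (B := 1) (Eventually.frequently (Eventually.of_forall fun k => ?_))
  induction k with
  | zero => simp
  | succ k ih =>
    rw [it_succ, f_apply, add_zero, norm_pow]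
    exact pow_le_one₀ (norm_nonneg _) ih

end Pool.Agent.Work.MLC
end

section
set_option autoImplicit false

/-! # Satellites: the multiplier of the bifurcating cycle near the root (helper4)

Let `β e` be the point of the parent cycle for the parameter `c₀ e`, with multiplier
`exp (q e)` for `f^n`. For the other fixed points `z` of `f^n` near `β 0` we have
`mult - 1 = - M (exp (q e) - 1) + O (|e| |z - β e|)` with an integer `M ≥ 1` (the multiplicity of the
parabolic point minus one). No nondegeneracy is used. -/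

namespace Pool.Agent.Work.MLC.SatBif4

open Metric Set Filter Topology Finset

end Pool.Agent.Work.MLC.SatBif4
end

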