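import Pool.Agent.Work.MLCM.C01
import Pool.Agent.Work.MLCM.C13
import Pool.Agent.Work.MLCM.C15
import Pool.Agent.Work.MLCM.C23

section
set_option autoImplicit false

/-! # Final assembly: from sections and rotation numbers to local connectivity (helper6)

Hypotheses used: `SecHyp` (the multiplier is locally injective over the discs
`ball (2 π i x) (κ min(x, 1 - x)² / n)`), `RotData` (rotation numbers of repelling points of
parameters in `M`), `hrep` (for `c ∉ M` all cycles are repelling), `M` compact connected. -/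

namespace Pool.Agent.Work.MLC

open Filter Topology Metric Set

/-- the Mandelbrot set -/
abbrev MS : Set ℂ := N62a1eb23.mandelbrotSet

/-- rotation numbers: `T c b L x` means that `b` is a repelling point with `f_c^n (b) = b`,
`exp L` is its multiplier, `c ∈ M`, and the rotation number relative to `L` is `x` -/
structure RotData (n : ℕ) (A : ℝ) (T : ℂ → ℂ → ℂ → ℚ → Prop) : Prop where
  dom : ∀ c b L x, T c b L x → 0 < L.re ∧ c ∈ MS
  ex : ∀ c b L, (c, b) ∈ Per n → mul n (c, b) = Complex.exp L → 0 < L.re → c ∈ MS →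
    ∃ x, T c b L x
  uniq : ∀ c b L x x', T c b L x → T c b L x' → x = x'
  opn : ∀ c b L x, T c b L x → ∀ᶠ p : ℂ × ℂ × ℂ in 𝓝 (c, b, L), p.1 ∈ MS →
    (p.1, p.2.1) ∈ Per n → mul n (p.1, p.2.1) = Complex.exp p.2.2 → T p.1 p.2.1 p.2.2 x
  ply : ∀ c b L x, T c b L x → ‖L - axisPt x‖ ^ 2 ≤ A / x.den * L.re

section

variable {n : ℕ} {D : Set ℂ} {σ : ℂ → ℂ × ℂ}

/-- the derivative of the parameter along a section is not zero -/
theorem section_deriv_ne_zero (h : GoodDom n D) (hσ : ContinuousOn σ D)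
    (hσ' : ∀ L ∈ D, σ L ∈ Per n ∧ mul n (σ L) = Complex.exp L) {L₁ : ℂ} (hL₁ : L₁ ∈ D) :
    deriv (fun L => (σ L).1) L₁ ≠ 0 := by
  obtain ⟨h1, h2⟩ := hσ' L₁ hL₁
  obtain ⟨β, hβ, hβ0, hβe, hg, hd⟩ := LocInj.chart h.pos h1 (by rw [h2]; exact h.ne_one _ hL₁)
    (by rw [h2]; exact h.lt _ hL₁) (h.inj _ h1 _ hL₁ h2)
  have hDn : D ∈ 𝓝 L₁ := h.isOpen.mem_nhds hL₁
  have hc : ContinuousAt σ L₁ := hσ.continuousAt hDn
  have hdiff : DifferentiableAt ℂ (fun L => (σ L).1) L₁ :=
    (section_differentiableOn h hσ hσ').differentiableAt hDn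
  have h3 : (fun L => mul n ((σ L).1, β (σ L).1)) =ᶠ[𝓝 L₁] Complex.exp := by
    filter_upwards [hDn, hc.eventually hβe] with L hL hL2
    obtain ⟨h4, h5⟩ := hσ' L hL
    have : ((σ L).1, β (σ L).1) = σ L := by rw [hL2.1 h4]
    rw [this, h5]
  have h4 : HasDerivAt (fun L => mul n ((σ L).1, β (σ L).1))
      (deriv (fun c => mul n (c, β c)) (σ L₁).1 * deriv (fun L => (σ L).1) L₁) L₁ :=
    HasDerivAt.comp (h₂ := fun c => mul n (c, β c)) L₁ hg.differentiableAt.hasDerivAt
      hdiff.hasDerivAt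
  have h5 : HasDerivAt Complex.exp
      (deriv (fun c => mul n (c, β c)) (σ L₁).1 * deriv (fun L => (σ L).1) L₁) L₁ :=
    h4.congr_of_eventuallyEq h3.symm
  have h6 := h5.unique (Complex.hasDerivAt_exp L₁)
  intro h0
  rw [h0, mul_zero] at h6
  exact Complex.exp_ne_zero _ h6.symm

theorem section_strict (h : GoodDom n D) (hσ : ContinuousOn σ D)
    (hσ' : ∀ L ∈ D, σ L ∈ Per n ∧ mul n (σ L) = Complex.exp L) {L₁ : ℂ} (hL₁ : L₁ ∈ D) :
    HasStrictDerivAt (fun L => (σ L).1) (deriv (fun L => (σ L).1) L₁) L₁ := by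
  have h1 : DifferentiableOn ℂ (fun L => (σ L).1) D := section_differentiableOn h hσ hσ'
  exact (h1.analyticAt (h.isOpen.mem_nhds hL₁)).hasStrictDerivAt

/-- `LimbData` of a section -/
theorem limbData_of_section {x₀ : ℚ} {R A : ℝ} {T : ℂ → ℂ → ℂ → ℚ → Prop} (hR : 0 < R)
    (hA : 0 < A) (h : GoodDom n (ball (axisPt x₀) R)) (hσ : ContinuousOn σ (ball (axisPt x₀) R))
    (hσ' : ∀ L ∈ ball (axisPt x₀) R, σ L ∈ Per n ∧ mul n (σ L) = Complex.exp L)
    (hT : RotData n A T)
    (hrep : ∀ x ∈ Per n, x.1 ∉ MS → 1 < ‖mul n x‖) :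
    LimbData MS x₀ R A (fun L => (σ L).1)
      (fun L x => L ∈ ball (axisPt x₀) R ∧ T (σ L).1 (σ L).2 L x) := by
  set D := ball (axisPt x₀) R with hD
  have hcen : axisPt x₀ ∈ D := mem_ball_self hR
  refine ⟨hR, hA, continuous_fst.comp_continuousOn hσ, ?_, ?_, ?_, ?_, ?_, ?_, ?_, ?_⟩
  · intro L hL hre
    by_contra hM
    obtain ⟨h1, h2⟩ := hσ' L hL
    have h3 := hrep _ h1 hM
    rw [h2, Complex.norm_exp] at h3
    have h4 : Real.exp L.re ≤ 1 := Real.exp_le_one_iff.2 hre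
    linarith
  · have h1 := section_strict h hσ hσ' hcen
    have h2 := section_deriv_ne_zero h hσ hσ' hcen
    have hs := h1.hasStrictFDerivAt_equiv h2
    have hN : (hs.toOpenPartialHomeomorph _).source ∈ 𝓝 (axisPt x₀) :=
      (hs.toOpenPartialHomeomorph _).open_source.mem_nhds hs.mem_toOpenPartialHomeomorph_source
    have hi : InjOn (fun L => (σ L).1) (hs.toOpenPartialHomeomorph _).source := by
      have := (hs.toOpenPartialHomeomorph _).injOn
      rwa [HasStrictFDerivAt.toOpenPartialHomeomorph_coe] at this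
    obtain ⟨δ, hδ, hδ2⟩ := Metric.mem_nhds_iff.1 hN
    exact ⟨δ, hδ, hi.mono hδ2⟩
  · intro L hL U hU
    have h1 := section_strict h hσ hσ' hL
    have h2 := section_deriv_ne_zero h hσ hσ' hL
    rw [← h1.map_nhds_eq h2]
    exact image_mem_map hU
  · rintro L x ⟨hL, hx⟩
    exact hT.dom _ _ _ _ hx
  · intro L hL hre hM
    obtain ⟨x, hx⟩ := hT.ex (σ L).1 (σ L).2 L (hσ' L hL).1 (hσ' L hL).2 hre hM
    exact ⟨x, hL, hx⟩
  · rintro L x x' ⟨-, h1⟩ ⟨-, h2⟩
    exact hT.uniq _ _ _ _ _ h1 h2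
  · rintro L hL x ⟨-, hx⟩
    have h1 := hT.opn _ _ _ _ hx
    have hDn : D ∈ 𝓝 L := isOpen_ball.mem_nhds hL
    have hc : ContinuousAt (fun L => ((σ L).1, (σ L).2, L)) L := by
      have h2 : ContinuousAt σ L := hσ.continuousAt hDn
      exact (continuous_fst.continuousAt.comp h2).prodMk
        ((continuous_snd.continuousAt.comp h2).prodMk continuousAt_id)
    filter_upwards [hc.eventually h1, hDn] with L' h2 h3 h4
    exact ⟨h3, h2 h4 (hσ' L' h3).1 (hσ' L' h3).2⟩
  · rintro L x ⟨-, hx⟩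
    exact hT.ply _ _ _ _ hx

end

/-- size of the limb piece -/
theorem limb_size {n : ℕ} {x₀ : ℚ} {R A : ℝ} {T : ℂ → ℚ → Prop} {σ : ℂ → ℂ × ℂ}
    (h : GoodDom n (ball (axisPt x₀) R)) (hσ : ContinuousOn σ (ball (axisPt x₀) R))
    (hσ' : ∀ L ∈ ball (axisPt x₀) R, σ L ∈ Per n ∧ mul n (σ L) = Complex.exp L)
    (hL : LimbData MS x₀ R A (fun L => (σ L).1) T) (hadm : A / x₀.den < R) :
    LimbData.K (fun L => (σ L).1) T x₀ ⊆
      closedBall (σ (axisPt x₀)).1 (9 * (A / x₀.den) / R) := by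
  rw [LimbData.K_eq]
  rintro _ ⟨L, hLP, rfl⟩
  have h1 := hL.P_sub x₀ hLP
  have h2 : L ∈ ball (axisPt x₀) R := closedBall_subset_ball hadm h1
  have hd : DifferentiableOn ℂ (fun L => (σ L).1) (ball (axisPt x₀) R) :=
    section_differentiableOn h hσ hσ'
  have hbd : ∀ L ∈ ball (axisPt x₀) R, ‖(σ L).1‖ ≤ 4 := by
    intro L hL
    obtain ⟨h3, h4⟩ := hσ' L hL
    exact (Per_bdd h.pos h3 (by rw [h4]; exact h.lt L hL)).1
  have hcen : axisPt x₀ ∈ ball (axisPt x₀) R := mem_ball_self hL.R_pos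
  have hmaps : MapsTo (fun L => (σ L).1) (ball (axisPt x₀) R)
      (closedBall (σ (axisPt x₀)).1 9) := by
    intro L hL
    rw [mem_closedBall, dist_eq_norm]
    calc ‖(σ L).1 - (σ (axisPt x₀)).1‖ ≤ ‖(σ L).1‖ + ‖(σ (axisPt x₀)).1‖ := norm_sub_le _ _
      _ ≤ 4 + 4 := add_le_add (hbd _ hL) (hbd _ hcen)
      _ ≤ 9 := by norm_num
  have h3 := Complex.dist_le_div_mul_dist_of_mapsTo_ball hd hmaps h2
  rw [mem_closedBall] at h1 ⊢
  calc dist (σ L).1 (σ (axisPt x₀)).1 ≤ 9 / R * dist L (axisPt x₀) := h3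
    _ ≤ 9 / R * (A / x₀.den) := by
        have := hL.R_pos
        gcongr
    _ = 9 * (A / x₀.den) / R := by ring

/-- the open disc of radius `1/4` is in `M` -/
theorem ball_sub_MS : ball (0 : ℂ) (1 / 4) ⊆ MS := by
  intro c hc
  rw [mem_ball_zero_iff] at hc
  rw [mem_M_iff]
  refine G_zero_of_bdd (B := 1 / 2) (Eventually.frequently (Eventually.of_forall ?_))
  intro k
  induction k with
  | zero => simp
  | succ k ih =>
    rw [it_succ, f_apply]
    calc ‖it c k 0 ^ 2 + c‖ ≤ ‖it c k 0‖ ^ 2 + ‖c‖ := by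
          rw [← norm_pow]; exact norm_add_le _ _
      _ ≤ (1 / 2) ^ 2 + 1 / 4 := by gcongr
      _ = 1 / 2 := by norm_num

/-- removing an interior point does not disconnect -/
theorem preconn_diff_interior {M : Set ℂ} (hMc : IsPreconnected M) {r : ℂ} {δ : ℝ} (hδ : 0 < δ)
    (hr : ball r δ ⊆ M) : IsPreconnected (M \ {r}) := by
  -- the punctured ball is connected
  have hpb : IsPreconnected (ball r δ \ {r}) := by
    have h1 : ball r δ \ {r} =
        (fun p : ℝ × ℝ => r + (p.1 : ℂ) * Complex.exp (p.2 * Complex.I)) '' (Ioo 0 δ ×ˢ univ) := by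
      ext z
      constructor
      · rintro ⟨hz, hz2⟩
        have hz3 : z - r ≠ 0 := sub_ne_zero.2 hz2
        refine ⟨(‖z - r‖, Complex.arg (z - r)), ⟨⟨norm_pos_iff.2 hz3, ?_⟩, mem_univ _⟩, ?_⟩
        · rwa [mem_ball, dist_eq_norm] at hz
        · simp only [Complex.norm_mul_exp_arg_mul_I]
          ring
      · rintro ⟨⟨t, s⟩, ⟨⟨ht0, ht⟩, -⟩, rfl⟩
        have hn : ‖(t : ℂ) * Complex.exp (s * Complex.I)‖ = t := by
          rw [norm_mul, Complex.norm_exp_ofReal_mul_I, mul_one, Complex.norm_real,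
            Real.norm_eq_abs, abs_of_pos ht0]
        refine ⟨?_, ?_⟩
        · rw [mem_ball, dist_eq_norm]
          simp only [add_sub_cancel_left]
          rw [hn]; exact ht
        · intro h0
          have h2 : (t : ℂ) * Complex.exp (s * Complex.I) = 0 := by
            have h3 : r + (t : ℂ) * Complex.exp (s * Complex.I) = r := h0
            linear_combination h3
          rw [h2, norm_zero] at hn
          exact ht0.ne hn
    rw [h1]
    refine (isPreconnected_Ioo.prod isPreconnected_univ).image _ ?_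
    fun_prop
  rw [isPreconnected_iff_subset_of_disjoint]
  intro u v hu hv huv hdis
  have hsub : ball r δ \ {r} ⊆ M \ {r} := sdiff_subset_sdiff_left hr
  have key : ∀ u v : Set ℂ, IsOpen u → IsOpen v → M \ {r} ⊆ u ∪ v → M \ {r} ∩ (u ∩ v) = ∅ →
      ball r δ \ {r} ⊆ u → M \ {r} ⊆ u ∨ M \ {r} ⊆ v := by
    intro u v hu hv huv hdis hbu
    left
    have hvb : ∀ z ∈ ball r δ, z ∉ v := by
      intro z hz hzv
      by_cases hzr : z = r
      · -- `v` is a neighbourhood of `r`, so it contains points of the punctured ball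
        subst hzr
        have h1 : v ∩ ball z δ ∈ 𝓝 z := inter_mem (hv.mem_nhds hzv) (ball_mem_nhds _ hδ)
        obtain ⟨ε, hε, hεs⟩ := Metric.mem_nhds_iff.1 h1
        have h2 : z + ((ε / 2 : ℝ) : ℂ) ∈ ball z ε := by
          rw [mem_ball, dist_eq_norm, add_sub_cancel_left, Complex.norm_real, Real.norm_eq_abs,
            abs_of_pos (by positivity)]
          linarith
        have h3 := hεs h2
        have h4 : z + ((ε / 2 : ℝ) : ℂ) ≠ z := by
          intro h0
          have : ((ε / 2 : ℝ) : ℂ) = 0 := by linear_combination h0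
          have h5 : (ε / 2 : ℝ) = 0 := by exact_mod_cast this
          linarith
        have h5 : z + ((ε / 2 : ℝ) : ℂ) ∈ M \ {z} ∩ (u ∩ v) :=
          ⟨hsub ⟨h3.2, h4⟩, hbu ⟨h3.2, h4⟩, h3.1⟩
        rw [hdis] at h5; exact h5
      · have h5 : z ∈ M \ {r} ∩ (u ∩ v) := ⟨hsub ⟨hz, hzr⟩, hbu ⟨hz, hzr⟩, hzv⟩
        rw [hdis] at h5; exact h5
    have hrb : r ∈ ball r δ := mem_ball_self hδ
    have h6 := isPreconnected_iff_subset_of_disjoint.1 hMc (u ∪ ball r δ) v
      (hu.union isOpen_ball) hv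
      (fun z hz => by
        by_cases hzr : z = r
        · left; right; rw [hzr]; exact hrb
        · rcases huv ⟨hz, hzr⟩ with h | h
          · exact Or.inl (Or.inl h)
          · exact Or.inr h)
      (by
        ext z
        simp only [mem_inter_iff, mem_union, mem_empty_iff_false, iff_false, not_and]
        rintro hz (h | h) hzv
        · by_cases hzr : z = r
          · exact hvb z (by rw [hzr]; exact hrb) hzv
          · have h5 : z ∈ M \ {r} ∩ (u ∩ v) := ⟨⟨hz, hzr⟩, h, hzv⟩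
            rw [hdis] at h5; exact h5
        · exact hvb z h hzv)
    rcases h6 with h6 | h6
    · intro z hz
      rcases h6 hz.1 with h | h
      · exact h
      · exact hbu ⟨h, hz.2⟩
    · exact absurd (h6 (hr hrb)) (hvb r hrb)
  have h7 := isPreconnected_iff_subset_of_disjoint.1 hpb u v hu hv (hsub.trans huv) (by
    ext z
    simp only [mem_inter_iff, mem_empty_iff_false, iff_false]
    rintro ⟨h1, h2⟩
    have h5 : z ∈ M \ {r} ∩ (u ∩ v) := ⟨hsub h1, h2⟩
    rw [hdis] at h5; exact h5)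
  rcases h7 with h7 | h7
  · exact key u v hu hv huv hdis h7
  · exact (key v u hv hu (by rwa [union_comm]) (by rwa [inter_comm v u]) h7).symm

/-- `z ^ 2` has no cycle with multiplier of modulus one -/
theorem mul_zero_norm_ne {n : ℕ} (hn : 0 < n) {b : ℂ} (hb : ((0 : ℂ), b) ∈ Per n) :
    ‖mul n ((0 : ℂ), b)‖ ≠ 1 := by
  have hit : ∀ k, it 0 k b = b ^ 2 ^ k := by
    intro k
    induction k with
    | zero => simp
    | succ k ih => rw [it_succ, f_apply, ih, add_zero, ← pow_mul, pow_succ]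
  have h1 : b ^ 2 ^ n = b := by
    have := hb
    simp only [Per, mem_ofPred_eq] at this
    rwa [hit] at this
  have h2 : ‖b‖ ^ 2 ^ n = ‖b‖ := by rw [← norm_pow, h1]
  have h3 : ‖b‖ = 0 ∨ ‖b‖ = 1 := by
    by_cases h0 : ‖b‖ = 0
    · exact Or.inl h0
    · right
      have h4 : ‖b‖ ^ (2 ^ n - 1) = 1 := by
        have h5 : ‖b‖ ^ (2 ^ n - 1) * ‖b‖ = 1 * ‖b‖ := by
          rw [← pow_succ, Nat.sub_add_cancel Nat.one_le_two_pow, h2, one_mul]
        exact mul_right_cancel₀ h0 h5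
      have h6 : 2 ^ n - 1 ≠ 0 := by
        have : 2 ≤ 2 ^ n := by
          calc 2 = 2 ^ 1 := by norm_num
            _ ≤ 2 ^ n := Nat.pow_le_pow_right (by norm_num) hn
        omega
      exact (pow_eq_one_iff_of_nonneg (norm_nonneg _) h6).1 h4
  have h7 : ‖mul n ((0 : ℂ), b)‖ = ∏ i ∈ Finset.range n, 2 * ‖b‖ ^ 2 ^ i := by
    unfold mul
    rw [norm_prod]
    refine Finset.prod_congr rfl fun i _ => ?_
    simp only [hit, norm_mul, norm_pow]
    simp
  rw [h7]
  rcases h3 with h3 | h3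
  · rw [h3]
    rw [Finset.prod_eq_zero (Finset.mem_range.2 hn) (by simp)]
    norm_num
  · rw [h3]
    simp only [one_pow, mul_one, Finset.prod_const, Finset.card_range]
    have : (2 : ℝ) ≤ 2 ^ n := by
      calc (2 : ℝ) = 2 ^ 1 := by norm_num
        _ ≤ 2 ^ n := pow_le_pow_right₀ (by norm_num) hn
    linarith [this]

/-- the hypotheses about the dynamics which are proved in the other files -/
structure Inputs (κ : ℝ) : Prop where
  κ_pos : 0 < κ
  good : ∀ n : ℕ, 0 < n → ∀ x : ℚ, 0 < x → x < 1 →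
    GoodDom n (ball (axisPt x) (κ * (min (x : ℝ) (1 - x)) ^ 2 / n))
  rot : ∀ n : ℕ, 0 < n → ∃ T, RotData n (2 * n * Real.log 2) T
  rep : ∀ n : ℕ, 0 < n → ∀ x ∈ Per n, x.1 ∉ MS → 1 < ‖mul n x‖
  cpt : IsCompact MS
  conn : IsPreconnected MS

end Pool.Agent.Work.MLC
end

section
set_option autoImplicit false

/-! # Final assembly, threshold version (helper6; idea of the compactness argument: helper78)

There is an absolute constant `κ'` such that `M` is locally connected at `c₀` as soon as there are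
arbitrarily large `n` and points `r` separating `c₀` from `0` in `M`, with a point of period
(dividing) `n` and multiplier `exp (2 π i p / q)`, and `n² q ≤ κ' min(p, q - p)²`. -/

namespace Pool.Agent.Work.MLC

open Filter Topology Metric Set

/-- the root of a limb is in the boundary of `M` -/
theorem LimbData.root_frontier {M : Set ℂ} {x₀ : ℚ} {R A : ℝ} {c : ℂ → ℂ} {T : ℂ → ℚ → Prop}
    (h : LimbData M x₀ R A c T) (hM : IsClosed M) : c (axisPt x₀) ∈ frontier M := by
  have hcenR : axisPt x₀ ∈ ball (axisPt x₀) R := mem_ball_self h.R_pos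
  have hrM : c (axisPt x₀) ∈ M := h.left _ hcenR (by rw [axisPt_re])
  rw [hM.frontier_eq]
  refine ⟨hrM, fun hint => ?_⟩
  -- a small disc is mapped into `M`
  have h1 : c ⁻¹' M ∈ 𝓝 (axisPt x₀) :=
    (h.cont.continuousAt (isOpen_ball.mem_nhds hcenR)).preimage_mem_nhds
      (mem_interior_iff_mem_nhds.1 hint)
  obtain ⟨δ, hδ, hδs⟩ := Metric.mem_nhds_iff.1
    (inter_mem h1 (isOpen_ball.mem_nhds hcenR : ball (axisPt x₀) R ∈ 𝓝 (axisPt x₀)))
  set S : Set ℂ := ball (axisPt x₀) δ ∩ {L | 0 < L.re} with hS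
  have hSconv : Convex ℝ S := (convex_ball _ _).inter (convex_halfSpace_re_gt 0)
  have hex : ∀ L ∈ S, ∃ x, T L x := fun L hL =>
    h.T_ex L (hδs hL.1).2 hL.2 (hδs hL.1).1
  classical
  set X : ℂ → ℤ × ℕ := fun L => if hx : ∃ x, T L x then (hx.choose.num, hx.choose.den) else (0, 0)
    with hX
  have hXT : ∀ L x, T L x → X L = (x.num, x.den) := by
    intro L x hx
    have hx' : ∃ x, T L x := ⟨x, hx⟩
    have h2 : hx'.choose = x := h.T_uniq L _ _ hx'.choose_spec hx
    simp only [hX, dif_pos hx', h2]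
  have hcont : ContinuousOn X S := by
    intro L hL
    obtain ⟨x, hx⟩ := hex L hL
    have h2 := h.T_open L (hδs hL.1).2 x hx
    have h3 : ∀ᶠ L' in 𝓝[S] L, X L' = X L := by
      filter_upwards [mem_nhdsWithin_of_mem_nhds h2, self_mem_nhdsWithin] with L' h3 h4
      have h5 := h3 (hδs h4.1).1
      rw [hXT L x hx, hXT L' x h5]
    exact (continuousWithinAt_const (b := X L)).congr_of_eventuallyEq h3 rfl
  have hconst : ∀ L ∈ S, ∀ L' ∈ S, X L = X L' := fun L hL L' hL' =>
    hSconv.isPreconnected.constant hcont hL hL'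
  -- points close to the imaginary axis
  have hpt : ∀ s t : ℝ, |s| < δ / 2 → 0 < t → t < δ / 2 →
      axisPt x₀ + (s : ℂ) * Complex.I + (t : ℂ) ∈ S := by
    intro s t hs ht0 ht
    refine ⟨?_, ?_⟩
    · rw [mem_ball, dist_eq_norm]
      have h2 : axisPt x₀ + (s : ℂ) * Complex.I + (t : ℂ) - axisPt x₀ =
        (s : ℂ) * Complex.I + (t : ℂ) := by ring
      rw [h2]
      calc ‖(s : ℂ) * Complex.I + (t : ℂ)‖ ≤ ‖(s : ℂ) * Complex.I‖ + ‖(t : ℂ)‖ := norm_add_le _ _
        _ = |s| + |t| := by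
            rw [norm_mul, Complex.norm_I, mul_one, Complex.norm_real, Complex.norm_real,
              Real.norm_eq_abs, Real.norm_eq_abs]
        _ < δ := by rw [abs_of_pos ht0]; linarith
    · simp [axisPt_re, ht0]
  obtain ⟨x₁, hx₁⟩ := hex _ (hpt 0 (δ / 4) (by simpa using hδ) (by positivity) (by linarith))
  have hall : ∀ L ∈ S, T L x₁ := by
    intro L hL
    obtain ⟨x, hx⟩ := hex L hL
    have h2 := hconst _ hL _ (hpt 0 (δ / 4) (by simpa using hδ) (by positivity) (by linarith))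
    rw [hXT _ _ hx, hXT _ _ hx₁, Prod.mk.injEq] at h2
    have h3 : x = x₁ := Rat.ext h2.1 h2.2
    rw [← h3]; exact hx
  have hlim : ∀ s : ℝ, |s| < δ / 2 → axisPt x₀ + (s : ℂ) * Complex.I = axisPt x₁ := by
    intro s hs
    have h2 : ∀ᶠ t : ℝ in 𝓝[>] 0,
        ‖axisPt x₀ + (s : ℂ) * Complex.I + (t : ℂ) - axisPt x₁‖ ^ 2 ≤ A / x₁.den * t := by
      have h3 : ∀ᶠ t : ℝ in 𝓝[>] 0, t < δ / 2 :=
        mem_nhdsWithin_of_mem_nhds (gt_mem_nhds (by positivity : (0:ℝ) < δ / 2))
      filter_upwards [h3, self_mem_nhdsWithin] with t h4 h5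
      have h6 := h.ply _ _ (hall _ (hpt s t hs h5 h4))
      have h7 : (axisPt x₀ + (s : ℂ) * Complex.I + (t : ℂ)).re = t := by simp [axisPt_re]
      rwa [h7] at h6
    have h3 : Tendsto (fun t : ℝ => ‖axisPt x₀ + (s : ℂ) * Complex.I + (t : ℂ) - axisPt x₁‖ ^ 2)
        (𝓝[>] 0) (𝓝 (‖axisPt x₀ + (s : ℂ) * Complex.I + ((0 : ℝ) : ℂ) - axisPt x₁‖ ^ 2)) := by
      have : Continuous fun t : ℝ =>
        ‖axisPt x₀ + (s : ℂ) * Complex.I + (t : ℂ) - axisPt x₁‖ ^ 2 := by fun_prop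
      exact this.continuousAt.tendsto.mono_left nhdsWithin_le_nhds
    have h4 : Tendsto (fun t : ℝ => A / x₁.den * t) (𝓝[>] 0) (𝓝 (A / x₁.den * 0)) := by
      have : Continuous fun t : ℝ => A / x₁.den * t := by fun_prop
      exact this.continuousAt.tendsto.mono_left nhdsWithin_le_nhds
    have h5 := le_of_tendsto_of_tendsto h3 h4 h2
    rw [mul_zero] at h5
    have h6 : ‖axisPt x₀ + (s : ℂ) * Complex.I + ((0 : ℝ) : ℂ) - axisPt x₁‖ = 0 := by
      have := norm_nonneg (axisPt x₀ + (s : ℂ) * Complex.I + ((0 : ℝ) : ℂ) - axisPt x₁)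
      nlinarith
    have h7 := norm_eq_zero.1 h6
    push_cast at h7
    linear_combination h7
  have h2 := hlim 0 (by simpa using hδ)
  have h3 := hlim (δ / 4) (by rw [abs_of_pos (by positivity)]; linarith)
  rw [← h2] at h3
  have h4 : ((δ / 4 : ℝ) : ℂ) * Complex.I = 0 := by
    have : ((0 : ℝ) : ℂ) = 0 := rfl
    rw [this] at h3
    linear_combination h3
  have h5 := congrArg Complex.im h4
  simp at h5
  exact hδ.ne' h5

/-- the section and the limb data at a root -/
theorem limb_piece {κ : ℝ} (hI : Inputs κ) {n p q : ℕ} {r b : ℂ}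
    (hn : 0 < n) (hp : 0 < p) (hpq : p < q) (hcop : Nat.Coprime p q) (hb : it r n b = b)
    (hm : mul n (r, b) = Complex.exp (2 * Real.pi * (p / q) * Complex.I)) :
    ∃ (x : ℚ) (σ : ℂ → ℂ × ℂ) (T : ℂ → ℚ → Prop), x.den = q ∧ 
      0 < κ * (min (p : ℝ) (q - p)) ^ 2 / (q ^ 2 * n) ∧
      GoodDom n (ball (axisPt x) (κ * (min (p : ℝ) (q - p)) ^ 2 / (q ^ 2 * n))) ∧
      ContinuousOn σ (ball (axisPt x) (κ * (min (p : ℝ) (q - p)) ^ 2 / (q ^ 2 * n))) ∧
      (∀ L ∈ ball (axisPt x) (κ * (min (p : ℝ) (q - p)) ^ 2 / (q ^ 2 * n)),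
        σ L ∈ Per n ∧ mul n (σ L) = Complex.exp L) ∧
      σ (axisPt x) = (r, b) ∧
      LimbData MS x (κ * (min (p : ℝ) (q - p)) ^ 2 / (q ^ 2 * n)) (2 * n * Real.log 2)
        (fun L => (σ L).1) T := by
  have hκ := hI.κ_pos
  have hlog : 0 < Real.log 2 := Real.log_pos (by norm_num)
  have hq : 0 < q := hp.trans hpq
  have hq' : (0 : ℝ) < q := by exact_mod_cast hq
  have hn' : (0 : ℝ) < n := by exact_mod_cast hn
  have hp' : (0 : ℝ) < p := by exact_mod_cast hp
  have hpq' : (p : ℝ) < q := by exact_mod_cast hpq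
  set x : ℚ := (p : ℚ) / q with hx
  have hxr : (x : ℝ) = p / q := by rw [hx]; push_cast; rfl
  have hx0 : 0 < x := by
    have h1 : (0 : ℚ) < p := by exact_mod_cast hp
    have h2 : (0 : ℚ) < q := by exact_mod_cast hq
    exact div_pos h1 h2
  have hx1 : x < 1 := by
    have h2 : (0 : ℚ) < q := by exact_mod_cast hq
    rw [hx, div_lt_one h2]
    exact_mod_cast hpq
  have hden : x.den = q := by
    have h1 := Rat.den_div_eq_of_coprime (a := (p : ℤ)) (b := (q : ℤ)) (by omega)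
      (by simpa using hcop)
    have h2 : (((p : ℤ) : ℚ) / ((q : ℤ) : ℚ)) = x := by rw [hx]; push_cast; rfl
    rw [h2] at h1
    exact_mod_cast h1
  set m : ℝ := min (p : ℝ) (q - p) with hmdef
  have hm0 : 0 < m := lt_min hp' (by linarith)
  have hmin : min (x : ℝ) (1 - x) = m / q := by
    have h1 : 1 - (p : ℝ) / q = (q - p) / q := by field_simp
    rw [hxr, hmdef, h1, min_div_div_right hq'.le]
  have hR0 : 0 < κ * m ^ 2 / (q ^ 2 * n) := by positivity
  have hRe : κ * (min (x : ℝ) (1 - x)) ^ 2 / n = κ * m ^ 2 / (q ^ 2 * n) := by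
    rw [hmin]; field_simp
  have hG := hI.good n hn x hx0 hx1
  rw [hRe] at hG
  obtain ⟨T, hT⟩ := hI.rot n hn
  have hax : axisPt x = 2 * Real.pi * (p / q) * Complex.I := by
    unfold axisPt
    rw [hxr]; push_cast; ring
  have hPer : ((r, b) : ℂ × ℂ) ∈ Per n := hb
  obtain ⟨σ, hσ, hσ', hσ0⟩ := exists_section hG (convex_ball _ _) hPer (mem_ball_self hR0)
    (by rw [hm, hax])
  have hA : 0 < 2 * n * Real.log 2 := by positivity
  have hL := limbData_of_section hR0 hA hG hσ hσ' hT (fun x hx hxM => hI.rep n hn x hx hxM)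
  exact ⟨x, σ, _, hden, hR0, hG, hσ, hσ', hσ0, hL⟩

end Pool.Agent.Work.MLC
end

section
set_option autoImplicit false

/-! # Existence of parameters satisfying the hypothesis of the main theorem: definitions (helper6)

Plan. (NV1, helper6) near a root `r` (multiplier `exp (2 π i p / q)`, section `σ`) the parameters
`(σ (axisPt x + t)).1`, `0 < t < t₀`, have an attracting point of period `n q`.
(NV2) from an attracting point of period `n` one reaches a root `r'` of period `n` with multiplier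
`exp (2 π i p' / q')`, `q'` large, through a connected set of attracting parameters.
(NV3, helper6) tower of nested limb pieces; a point of the intersection satisfies the hypothesis. -/

namespace Pool.Agent.Work.MLC

open Filter Topology Metric Set

/-- attracting point of period dividing `n` -/
def Attr (n : ℕ) (c b : ℂ) : Prop := (c, b) ∈ Per n ∧ ‖mul n (c, b)‖ < 1

end Pool.Agent.Work.MLC
end

section
set_option autoImplicit false

/-! # From an attracting point to another root (helper13) -/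

namespace Pool.Agent.Work.MLC

open Filter Topology Metric Set

/-- attracting parameters are in the interior of `M` -/
theorem Attr.interior {κ : ℝ} (hI : Inputs κ) {n : ℕ} (hn : 0 < n) {c b : ℂ}
    (h : Attr n c b) : c ∈ interior MS := by
  obtain ⟨hx, hm⟩ := h
  have h1 : mul n (c, b) ≠ 1 := by
    intro h0
    rw [h0, norm_one] at hm
    exact lt_irrefl _ hm
  obtain ⟨β, hβ, hβ0, hβe⟩ := chart hx h1
  have ht := chart_tendsto hβ hβ0
  rw [mem_interior_iff_mem_nhds]
  have h2 : ∀ᶠ x in 𝓝 ((c, b) : ℂ × ℂ), ‖mul n x‖ < 1 :=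
    (continuous_mul' n).norm.continuousAt.eventually (gt_mem_nhds hm)
  filter_upwards [ht.eventually h2, ht.eventually hβe] with c' h3 h4
  by_contra hM
  have h5 := hI.rep n hn _ (h4.2 rfl) hM
  exact absurd h3 (not_lt.2 h5.le)

/-- move to an attracting point with non-zero multiplier -/
theorem Attr.move {κ : ℝ} (hI : Inputs κ) {n : ℕ} (hn : 0 < n) {c b : ℂ}
    (h : Attr n c b) : ∃ (c' b' : ℂ) (W : Set ℂ), Attr n c' b' ∧ mul n (c', b') ≠ 0 ∧
      IsPreconnected W ∧ c ∈ W ∧ c' ∈ W ∧ W ⊆ _root_.interior MS := by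
  have hin := h.interior hI hn
  obtain ⟨hx, hm⟩ := h
  have h1 : mul n (c, b) ≠ 1 := by
    intro h0
    rw [h0, norm_one] at hm
    exact lt_irrefl _ hm
  obtain ⟨ε, hε, hεs⟩ := Metric.mem_nhds_iff.1 (isOpen_interior.mem_nhds hin)
  have hN : {x : ℂ × ℂ | x.1 ∈ ball c ε} ∈ 𝓝 ((c, b) : ℂ × ℂ) :=
    continuous_fst.continuousAt.preimage_mem_nhds (isOpen_ball.mem_nhds (mem_ball_self hε))
  have h2 := mul_open hn hx h1 (by linarith) hN
  have h3 : ∀ᶠ w in 𝓝 (mul n (c, b)), ‖w‖ < 1 :=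
    continuous_norm.continuousAt.eventually (gt_mem_nhds hm)
  have h4 : ∃ᶠ w in 𝓝 (mul n (c, b)), w ≠ 0 := by
    have h6 : ∃ᶠ w in 𝓝[≠] (mul n (c, b)), w ≠ 0 := by
      by_cases h0 : mul n (c, b) = 0
      · rw [h0]
        exact (eventually_mem_nhdsWithin (s := {(0 : ℂ)}ᶜ)).frequently
      · have : ∀ᶠ w in 𝓝 (mul n (c, b)), w ≠ 0 := isOpen_ne.mem_nhds h0
        have h7 : ∀ᶠ w in 𝓝[≠] (mul n (c, b)), w ≠ 0 := this.filter_mono nhdsWithin_le_nhds
        exact h7.frequently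
    exact h6.filter_mono nhdsWithin_le_nhds
  obtain ⟨w, hw0, hw1, ⟨x, ⟨hxN, hxP⟩, hxw⟩⟩ := (h4.and_eventually (h3.and h2)).exists
  refine ⟨x.1, x.2, ball c ε, ⟨hxP, ?_⟩, ?_, (convex_ball _ _).isPreconnected,
    mem_ball_self hε, hxN, hεs⟩
  · show ‖mul n x‖ < 1
    rw [hxw]; exact hw1
  · show mul n x ≠ 0
    rw [hxw]; exact hw0

/-- the left half plane -/
theorem goodDom_left {n : ℕ} (hn : 0 < n) : GoodDom n {L : ℂ | L.re < 0} := by
  have hlt : ∀ L : ℂ, L.re < 0 → ‖Complex.exp L‖ < 1 := by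
    intro L hL
    rw [Complex.norm_exp]
    exact Real.exp_lt_one_iff.2 hL
  refine ⟨hn, isOpen_lt Complex.continuous_re continuous_const, ?_, ?_, ?_⟩
  · intro L hL h0
    have h1 := hlt L hL
    rw [h0, norm_one] at h1
    exact lt_irrefl _ h1
  · intro L hL
    have := hlt L hL
    linarith
  · intro x hx L hL hm
    have h1 := hlt L hL
    refine locInj_of_le hn hx ?_ ?_ ?_
    · rw [hm]
      intro h0
      rw [h0, norm_one] at h1
      exact lt_irrefl _ h1
    · rw [hm]; exact Complex.exp_ne_zero _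
    · rw [hm]; exact h1.le

/-- the multipliers at the parameter `r` are finitely many -/
theorem finite_mults {n : ℕ} (hn : 0 < n) (r : ℂ) :
    {w : ℂ | ∃ b, it r n b = b ∧ mul n (r, b) = w}.Finite := by
  have h1 : ((fun b => mul n (r, b)) '' {b | b ∈ (Cnt.fx r n).roots}).Finite := by
    refine Set.Finite.image _ ?_
    exact Multiset.finite_toSet _
  refine h1.subset ?_
  rintro w ⟨b, hb, rfl⟩
  exact ⟨b, (Cnt.mem_roots_fx hn).2 hb, rfl⟩

theorem exp_axisPt_inj {x y : ℚ} (hx0 : 0 < x) (hx1 : x < 1) (hy0 : 0 < y) (hy1 : y < 1)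
    (h : Complex.exp (axisPt x) = Complex.exp (axisPt y)) : x = y := by
  rw [Complex.exp_eq_exp_iff_exists_int] at h
  obtain ⟨k, hk⟩ := h
  have h1 := congrArg Complex.im hk
  have h2 : ((k : ℂ) * (2 * Real.pi * Complex.I)).im = k * (2 * Real.pi) := by
    simp
  rw [Complex.add_im, LimbData.axisPt_im, LimbData.axisPt_im, h2] at h1
  have hpi := Real.pi_pos
  have h3 : (x : ℝ) = y + k := by
    have : (2 * Real.pi) * ((x : ℝ)) = (2 * Real.pi) * (y + k) := by linarith
    exact mul_left_cancel₀ (by positivity) this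
  have h4 : x = y + k := by exact_mod_cast h3
  have h5 : (k : ℚ) < 1 := by linarith
  have h6 : (-1 : ℚ) < k := by linarith
  have h7 : k < 1 := by exact_mod_cast h5
  have h8 : -1 < k := by exact_mod_cast h6
  have h9 : k = 0 := by omega
  rw [h4, h9]; simp

end Pool.Agent.Work.MLC
end

section
set_option autoImplicit false

/-! # Attracting cycles of period `n q` close to a root (helper6)

`sum_inv`: `∑ 1 / (1 - μ) = 0` over the fixed points of `f_c^m`, when no multiplier is `1`.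
`attr_near`: for small `t > 0` the parameter `(σ (2 π i x + t)).1` has an attracting point of period
dividing `n q`. -/

namespace Pool.Agent.Work.MLC

open Filter Topology Metric Set Polynomial

namespace NV

/-- the fixed points of `f_c^m` -/
noncomputable def fixS (m : ℕ) (c : ℂ) : Finset ℂ := (Cnt.fx c m).roots.toFinset

lemma mem_fixS {m : ℕ} (hm : 0 < m) {c z : ℂ} : z ∈ fixS m c ↔ it c m z = z := by
  rw [fixS, Multiset.mem_toFinset, Cnt.mem_roots_fx hm]

lemma nodup_roots {m : ℕ} (hm : 0 < m) {c : ℂ} (h : ∀ b, it c m b = b → mul m (c, b) ≠ 1) :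
    (Cnt.fx c m).roots.Nodup := by
  rw [Multiset.nodup_iff_count_le_one]
  intro b
  rw [count_roots]
  by_contra hcon
  push Not at hcon
  rw [one_lt_rootMultiplicity_iff_isRoot (Cnt.fx_monic hm c).ne_zero] at hcon
  obtain ⟨h1, h2⟩ := hcon
  have h3 : it c m b = b := by
    have : (Cnt.fx c m).eval b = 0 := h1
    rw [Cnt.eval_fx] at this
    exact sub_eq_zero.1 this
  apply h b h3
  have h4 : (derivative (Cnt.fx c m)).eval b = 0 := h2
  rw [Cnt.fx, derivative_sub, derivative_X, eval_sub, eval_one, Cnt.eval_derivative_pc] at h4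
  exact sub_eq_zero.1 h4

lemma card_fixS {m : ℕ} (hm : 0 < m) {c : ℂ} (h : ∀ b, it c m b = b → mul m (c, b) ≠ 1) :
    (fixS m c).card = 2 ^ m := by
  rw [fixS, Multiset.toFinset_card_of_nodup (nodup_roots hm h), Cnt.card_roots_fx hm]

/-- holomorphic fixed point formula for polynomials -/
theorem sum_inv {m : ℕ} (hm : 0 < m) {c : ℂ} (h : ∀ b, it c m b = b → mul m (c, b) ≠ 1) :
    ∑ b ∈ fixS m c, 1 / (1 - mul m (c, b)) = 0 := by
  classical
  have hnd := nodup_roots hm h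
  have hinj : Set.InjOn (id : ℂ → ℂ) (fixS m c : Set ℂ) := Function.injective_id.injOn
  have hcard := card_fixS hm h
  have h2 : 2 ≤ 2 ^ m := by
    calc 2 = 2 ^ 1 := by norm_num
      _ ≤ 2 ^ m := Nat.pow_le_pow_right (by norm_num) hm
  have hdeg : (1 : ℂ[X]).degree < (fixS m c).card := by
    rw [degree_one, hcard]
    exact_mod_cast (by omega : 0 < 2 ^ m)
  have h3 := Lagrange.coeff_eq_sum hinj hdeg
  rw [hcard, coeff_one, if_neg (by omega)] at h3
  have hnodal : Lagrange.nodal (fixS m c) id = Cnt.fx c m := by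
    rw [Lagrange.nodal_eq]
    have h4 := (IsAlgClosed.splits (Cnt.fx c m)).eq_prod_roots
    rw [(Cnt.fx_monic hm c).leadingCoeff, map_one, one_mul] at h4
    rw [h4, fixS]
    rw [Finset.prod_multiset_map_count]
    refine Finset.prod_congr rfl fun b hb => ?_
    rw [Multiset.count_eq_one_of_mem hnd (Multiset.mem_toFinset.1 hb)]
    simp
  have h5 : ∀ b ∈ fixS m c, (eval (id b) (1 : ℂ[X])) / ∏ j ∈ (fixS m c).erase b, (id b - id j) =
      -(1 / (1 - mul m (c, b))) := by
    intro b hb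
    have h6 := Lagrange.nodalWeight_eq_eval_derivative_nodal (v := (id : ℂ → ℂ)) hb
    rw [hnodal, Lagrange.nodalWeight, Finset.prod_inv_distrib] at h6
    rw [eval_one, one_div, h6, Cnt.fx, derivative_sub, derivative_X, eval_sub, eval_one, id,
      Cnt.eval_derivative_pc, one_div, ← inv_neg, neg_sub]
  rw [Finset.sum_congr rfl h5, Finset.sum_neg_distrib] at h3
  exact neg_eq_zero.1 h3.symm

lemma re_le_half {μ : ℂ} (h : 1 ≤ ‖μ‖) : (1 / (1 - μ)).re ≤ 1 / 2 := by
  by_cases h1 : 1 - μ = 0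
  · rw [h1, div_zero]; norm_num
  rw [one_div, Complex.inv_re]
  have hpos : 0 < Complex.normSq (1 - μ) := Complex.normSq_pos.2 h1
  rw [div_le_iff₀ hpos]
  have h2 : Complex.normSq (1 - μ) = 1 - 2 * μ.re + ‖μ‖ ^ 2 := by
    rw [← Complex.normSq_eq_norm_sq, Complex.normSq_apply, Complex.normSq_apply]
    simp only [Complex.sub_re, Complex.one_re, Complex.sub_im, Complex.one_im]
    ring
  rw [h2, Complex.sub_re, Complex.one_re]
  nlinarith

/-- if one of the fixed points of `f_c^m` has the multiplier `exp s` with small `s > 0`, and no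
multiplier is `1`, then there is an attracting one -/
theorem exists_attr {m : ℕ} (hm : 0 < m) {c : ℂ} (h : ∀ b, it c m b = b → mul m (c, b) ≠ 1)
    {b : ℂ} (hb : it c m b = b) {s : ℝ} (hs : 0 < s) (hs2 : s * 2 ^ m < 1)
    (hmul : mul m (c, b) = Complex.exp s) : ∃ b', Attr m c b' := by
  by_contra hcon
  push Not at hcon
  have hrep : ∀ b', it c m b' = b' → 1 ≤ ‖mul m (c, b')‖ := by
    intro b' hb'
    by_contra h1
    push Not at h1
    exact hcon b' ⟨hb', h1⟩
  have h1 := sum_inv hm h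
  have hbS : b ∈ fixS m c := (mem_fixS hm).2 hb
  rw [← Finset.add_sum_erase _ _ hbS] at h1
  have h2 := congrArg Complex.re h1
  rw [Complex.add_re, Complex.re_sum, Complex.zero_re, hmul] at h2
  have h3 : ∑ b' ∈ (fixS m c).erase b, (1 / (1 - mul m (c, b'))).re ≤
      ∑ b' ∈ (fixS m c).erase b, (1 / 2 : ℝ) := by
    apply Finset.sum_le_sum
    intro b' hb'
    exact re_le_half (hrep b' ((mem_fixS hm).1 (Finset.mem_of_mem_erase hb')))
  rw [Finset.sum_const, Finset.card_erase_of_mem hbS, card_fixS hm h, nsmul_eq_mul] at h3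
  have h4 : (1 / (1 - Complex.exp (s : ℂ))).re = 1 / (1 - Real.exp s) := by
    rw [← Complex.ofReal_exp, ← Complex.ofReal_one, ← Complex.ofReal_sub, ← Complex.ofReal_div,
      Complex.ofReal_re]
  rw [h4] at h2
  have h5 : Real.exp s - 1 ≤ 2 * s := by
    have hs1 : s ≤ 1 := by
      have h6 : (1 : ℝ) ≤ 2 ^ m := one_le_pow₀ (by norm_num)
      nlinarith
    have h6 := Real.abs_exp_sub_one_le (x := s) (by rw [abs_of_pos hs]; exact hs1)
    rw [abs_of_pos hs] at h6
    exact (le_abs_self _).trans h6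
  have h6 : 0 < Real.exp s - 1 := by
    have := Real.add_one_lt_exp hs.ne'
    linarith
  have h7 : 1 / (1 - Real.exp s) ≤ -(1 / (2 * s)) := by
    have h8 : 1 / (2 * s) ≤ 1 / (Real.exp s - 1) := one_div_le_one_div_of_le h6 h5
    have h9 : 1 / (1 - Real.exp s) = -(1 / (Real.exp s - 1)) := by
      rw [← neg_sub, one_div, one_div, inv_neg]
    rw [h9]; linarith
  have h8 : (2 : ℝ) ^ m / 2 < 1 / (2 * s) := by
    rw [div_lt_div_iff₀ (by norm_num) (by positivity)]
    linarith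
  have h9 : (((2 ^ m - 1 : ℕ) : ℝ)) ≤ 2 ^ m := by
    have : (2 ^ m - 1 : ℕ) ≤ 2 ^ m := Nat.sub_le _ _
    exact_mod_cast this
  linarith

/-- parameters with a multiplier `1` are finite in number -/
lemma finite_par {m : ℕ} (hm : 0 < m) : {c : ℂ | ∃ b, it c m b = b ∧ mul m (c, b) = 1}.Finite := by
  classical
  refine ((Cnt.Rp m 1).roots.toFinset.finite_toSet).subset ?_
  rintro c ⟨b, hb, hb1⟩
  rw [Finset.mem_coe, Multiset.mem_toFinset, mem_roots (Cnt.Rp_ne_zero hm 1), IsRoot,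
    Cnt.eval_Rp hm, Multiset.prod_eq_zero_iff, Multiset.mem_map]
  exact ⟨b, (Cnt.mem_roots_fx hm).2 hb, by rw [hb1, sub_self]⟩

lemma it_mul_period {c b : ℂ} {n : ℕ} (hb : it c n b = b) (k : ℕ) : it c (n * k) b = b := by
  induction k with
  | zero => simp
  | succ k ih => rw [Nat.mul_succ, it_add, hb, ih]

lemma mul_mul_period {c b : ℂ} {n : ℕ} (hb : it c n b = b) (k : ℕ) :
    mul (n * k) (c, b) = mul n (c, b) ^ k := by
  induction k with
  | zero => simp [mul]
  | succ k ih =>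
    have h1 : mul (n * (k + 1)) (c, b) = mul (n * k) (c, b) *
        ∏ i ∈ Finset.range n, 2 * it c (n * k + i) b := by
      unfold mul
      rw [Nat.mul_succ, Finset.prod_range_add]
    rw [h1, ih, pow_succ]
    congr 1
    unfold mul
    refine Finset.prod_congr rfl fun i _ => ?_
    simp only
    rw [add_comm, it_add, it_mul_period hb]

/-- **(NV1)** -/
theorem attr_near {n q : ℕ} {x : ℚ} {R : ℝ} {σ : ℂ → ℂ × ℂ} (hxq : x.den = q) (hR : 0 < R)
    (h : GoodDom n (ball (axisPt x) R)) (hσ : ContinuousOn σ (ball (axisPt x) R))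
    (hσ' : ∀ L ∈ ball (axisPt x) R, σ L ∈ Per n ∧ mul n (σ L) = Complex.exp L)
    (hinj : ∃ δ > 0, InjOn (fun L => (σ L).1) (ball (axisPt x) δ)) :
    ∃ t₀ > 0, t₀ < R ∧ ∀ t : ℝ, 0 < t → t < t₀ →
      ∃ b', Attr (n * q) (σ (axisPt x + t)).1 b' := by
  have hn := h.pos
  have hq : 0 < q := by rw [← hxq]; exact x.pos
  have hnq : 0 < n * q := Nat.mul_pos hn hq
  obtain ⟨δ, hδ, hinj⟩ := hinj
  have hcen : axisPt x ∈ ball (axisPt x) R := mem_ball_self hR
  -- parameters near the root have no multiplier `1`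
  have hfin := finite_par hnq
  set F : Set ℂ := {c : ℂ | ∃ b, it c (n * q) b = b ∧ mul (n * q) (c, b) = 1} with hF
  have h1 : ∀ᶠ c in 𝓝 (σ (axisPt x)).1, c ∉ F \ {(σ (axisPt x)).1} := by
    have : IsClosed (F \ {(σ (axisPt x)).1}) := (hfin.subset sdiff_subset).isClosed
    exact this.isOpen_compl.mem_nhds (fun h0 => h0.2 rfl)
  have hc : ContinuousAt (fun L => (σ L).1) (axisPt x) :=
    continuous_fst.continuousAt.comp (hσ.continuousAt (isOpen_ball.mem_nhds hcen))
  obtain ⟨δ', hδ', hev⟩ := Metric.eventually_nhds_iff_ball.1 (hc.eventually h1)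
  set t₀ : ℝ := min (min δ δ') (min (R / 2) (1 / (q * 2 ^ (n * q)))) with ht₀
  have hq' : (0 : ℝ) < q := by exact_mod_cast hq
  have ht₀0 : 0 < t₀ := by
    refine lt_min (lt_min hδ hδ') (lt_min (by positivity) (by positivity))
  refine ⟨t₀, ht₀0, ?_, fun t ht0 ht => ?_⟩
  · have : t₀ ≤ R / 2 := (min_le_right _ _).trans (min_le_left _ _)
    linarith
  have htδ : t < δ := ht.trans_le ((min_le_left _ _).trans (min_le_left _ _))
  have htδ' : t < δ' := ht.trans_le ((min_le_left _ _).trans (min_le_right _ _))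
  have htR : t < R := by
    have : t₀ ≤ R / 2 := (min_le_right _ _).trans (min_le_left _ _)
    linarith
  have htq : t < 1 / (q * 2 ^ (n * q)) := ht.trans_le ((min_le_right _ _).trans (min_le_right _ _))
  have hmem : ∀ ρ : ℝ, t < ρ → axisPt x + t ∈ ball (axisPt x) ρ := by
    intro ρ hρ
    rw [mem_ball, dist_eq_norm, add_sub_cancel_left, Complex.norm_real, Real.norm_eq_abs,
      abs_of_pos ht0]
    exact hρ
  have hL := hmem R htR
  obtain ⟨h2, h3⟩ := hσ' _ hL
  set c := (σ (axisPt x + t)).1 with hcdef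
  have hcF : c ∉ F := by
    intro h4
    refine hev _ (hmem δ' htδ') ⟨h4, ?_⟩
    intro h5
    have h6 := hinj (hmem δ htδ) (mem_ball_self hδ) h5
    have h7 : (t : ℂ) = 0 := by linear_combination h6
    have h8 : t = 0 := by exact_mod_cast h7
    exact ht0.ne' h8
  have hsimple : ∀ b, it c (n * q) b = b → mul (n * q) (c, b) ≠ 1 :=
    fun b hb h4 => hcF ⟨b, hb, h4⟩
  have hbn : it c n (σ (axisPt x + t)).2 = (σ (axisPt x + t)).2 := h2
  have hmulq : mul (n * q) (c, (σ (axisPt x + t)).2) = Complex.exp ((q * t : ℝ) : ℂ) := by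
    rw [mul_mul_period hbn q]
    have h4 : mul n (c, (σ (axisPt x + t)).2) = Complex.exp (axisPt x + t) := h3
    rw [h4, ← Complex.exp_nat_mul]
    have h5 : (q : ℂ) * (axisPt x + t) = (x.num : ℂ) * (2 * Real.pi * Complex.I) + ((q * t : ℝ) : ℂ) := by
      have h6 : (q : ℂ) * ((x : ℝ) : ℂ) = x.num := by
        have h7 : (x : ℚ) * q = x.num := by rw [← hxq]; exact Rat.mul_den_eq_num x
        have h8 : ((x : ℝ) : ℂ) = (x : ℂ) := by push_cast; rfl
        rw [h8, mul_comm]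
        exact_mod_cast congrArg (fun y : ℚ => (y : ℂ)) h7
      unfold axisPt
      push_cast
      push_cast at h6
      linear_combination (2 * Real.pi * Complex.I) * h6
    rw [h5, Complex.exp_add]
    have h6 : Complex.exp ((x.num : ℂ) * (2 * Real.pi * Complex.I)) = 1 :=
      Complex.exp_int_mul_two_pi_mul_I x.num
    rw [h6, one_mul]
  refine exists_attr hnq hsimple (it_mul_period hbn q) (s := q * t) (by positivity) ?_ hmulq
  rw [lt_div_iff₀ (by positivity)] at htq
  calc q * t * 2 ^ (n * q) = t * (q * 2 ^ (n * q)) := by ring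
    _ < 1 := htq

end NV

end Pool.Agent.Work.MLC
end

section
set_option autoImplicit false

/-! # Existence of parameters which satisfy the hypothesis of the main theorem (helper6) -/

namespace Pool.Agent.Work.MLC

open Filter Topology Metric Set

namespace NV

/-- a connected set in `M \ {r}` which meets `K` is contained in `K` -/
lemma conn_sub {M K U : Set ℂ} {r : ℂ} (hM : IsClosed M) (hK : IsClosed K)
    (hKo : ∀ z ∈ K, z ≠ r → K \ {r} ∈ 𝓝[M] z) (hU : IsPreconnected U) (hUM : U ⊆ M \ {r})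
    (hne : (U ∩ K).Nonempty) : U ⊆ K := by
  have hcompl : IsClosed (M \ (K \ {r})) := by
    refine isClosed_of_closure_subset fun v hv => ?_
    have hvM : v ∈ M := closure_minimal sdiff_subset hM hv
    refine ⟨hvM, fun hvK => ?_⟩
    have h3 := hKo v hvK.1 hvK.2
    rw [mem_nhdsWithin_iff_eventually] at h3
    obtain ⟨u, hu, hu2⟩ := ((mem_closure_iff_frequently.1 hv).and_eventually h3).exists
    exact hu.2 (hu2 hu.1)
  by_contra hcon
  obtain ⟨w, hwU, hwK⟩ := not_subset.1 hcon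
  have h4 := isPreconnected_closed_iff.1 hU _ _ hK hcompl
    (fun v hv => by
      by_cases hvK : v ∈ K
      · exact Or.inl hvK
      · exact Or.inr ⟨(hUM hv).1, fun h0 => hvK h0.1⟩)
    hne ⟨w, hwU, (hUM hwU).1, fun h0 => hwK h0.1⟩
  obtain ⟨v, hvU, hv1, hv2⟩ := h4
  exact hv2.2 ⟨hv1, (hUM hvU).2⟩

/-- attracting parameters are interior points of `M` -/
lemma attr_interior {κ : ℝ} (hI : Inputs κ) {n : ℕ} (hn : 0 < n) {c b : ℂ} (h : Attr n c b) :
    c ∈ interior MS := by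
  have h1 : mul n (c, b) ≠ 1 := by
    intro h0
    have := h.2
    rw [h0, norm_one] at this
    exact lt_irrefl _ this
  obtain ⟨β, hβ, hβ0, hβe⟩ := chart h.1 h1
  have ht : Tendsto (fun c' => ((c', β c') : ℂ × ℂ)) (𝓝 c) (𝓝 (c, b)) := chart_tendsto hβ hβ0
  rw [mem_interior_iff_mem_nhds]
  have h2 : ∀ᶠ x : ℂ × ℂ in 𝓝 (c, b), ‖mul n x‖ < 1 :=
    (continuous_mul' n).norm.continuousAt.eventually (gt_mem_nhds h.2)
  filter_upwards [ht.eventually h2, ht.eventually hβe] with c' h3 h4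
  by_contra h5
  have h6 := hI.rep n hn (c', β c') (h4.2 rfl) h5
  linarith

/-- constant type along the segment -/
lemma type_segment {M : Set ℂ} {x₀ : ℚ} {R A : ℝ} {c : ℂ → ℂ} {T : ℂ → ℚ → Prop}
    (h : LimbData M x₀ R A c T) {t₀ : ℝ} (ht₀ : 0 < t₀) (htR : t₀ ≤ R)
    (hM : ∀ t : ℝ, 0 < t → t < t₀ → c (axisPt x₀ + t) ∈ M) :
    ∀ t : ℝ, 0 < t → t < t₀ → T (axisPt x₀ + t) x₀ := by
  set γ : ℝ → ℂ := fun t => axisPt x₀ + t with hγ
  have hγc : Continuous γ := by fun_prop
  have hγD : ∀ t ∈ Ioo 0 t₀, γ t ∈ ball (axisPt x₀) R := by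
    intro t ht
    rw [mem_ball, dist_eq_norm]
    simp only [hγ, add_sub_cancel_left]
    rw [Complex.norm_real, Real.norm_eq_abs, abs_of_pos ht.1]
    exact ht.2.trans_le htR
  have hre : ∀ t, (γ t).re = t := fun t => by simp [hγ, LimbData.axisPt_re]
  have hex : ∀ t ∈ Ioo 0 t₀, ∃ x, T (γ t) x := fun t ht =>
    h.T_ex _ (hγD t ht) (by rw [hre]; exact ht.1) (hM t ht.1 ht.2)
  classical
  set X : ℝ → ℤ × ℕ := fun t =>
    if hx : ∃ x, T (γ t) x then (hx.choose.num, hx.choose.den) else (0, 0) with hX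
  have hXT : ∀ t x, T (γ t) x → X t = (x.num, x.den) := by
    intro t x hx
    have hx' : ∃ x, T (γ t) x := ⟨x, hx⟩
    have h2 : hx'.choose = x := h.T_uniq _ _ _ hx'.choose_spec hx
    simp only [hX, dif_pos hx', h2]
  have hcont : ContinuousOn X (Ioo 0 t₀) := by
    intro t ht
    obtain ⟨x, hx⟩ := hex t ht
    have h2 := h.T_open _ (hγD t ht) x hx
    have h3 : ∀ᶠ t' in 𝓝[Ioo 0 t₀] t, X t' = X t := by
      filter_upwards [mem_nhdsWithin_of_mem_nhds (hγc.continuousAt.eventually h2),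
        self_mem_nhdsWithin] with t' h3 h4
      have h5 := h3 (hM t' h4.1 h4.2)
      rw [hXT t x hx, hXT t' x h5]
    exact (continuousWithinAt_const (b := X t)).congr_of_eventuallyEq h3 rfl
  have hmid : t₀ / 2 ∈ Ioo 0 t₀ := ⟨by positivity, by linarith⟩
  obtain ⟨x₁, hx₁⟩ := hex _ hmid
  have hall : ∀ t ∈ Ioo 0 t₀, T (γ t) x₁ := by
    intro t ht
    obtain ⟨x, hx⟩ := hex t ht
    have h2 := isPreconnected_Ioo.constant hcont ht hmid
    rw [hXT _ _ hx, hXT _ _ hx₁, Prod.mk.injEq] at h2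
    rw [← Rat.ext h2.1 h2.2]; exact hx
  have hlim : axisPt x₀ = axisPt x₁ := by
    have h2 : ∀ᶠ t : ℝ in 𝓝[>] 0, ‖γ t - axisPt x₁‖ ^ 2 ≤ A / x₁.den * t := by
      have h3 : ∀ᶠ t : ℝ in 𝓝[>] 0, t < t₀ :=
        mem_nhdsWithin_of_mem_nhds (gt_mem_nhds ht₀)
      filter_upwards [h3, self_mem_nhdsWithin] with t h4 h5
      have h6 := h.ply _ _ (hall t ⟨h5, h4⟩)
      rwa [hre] at h6
    have h3 : Tendsto (fun t : ℝ => ‖γ t - axisPt x₁‖ ^ 2) (𝓝[>] 0)
        (𝓝 (‖γ 0 - axisPt x₁‖ ^ 2)) := by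
      have : Continuous fun t : ℝ => ‖γ t - axisPt x₁‖ ^ 2 := by fun_prop
      exact this.continuousAt.tendsto.mono_left nhdsWithin_le_nhds
    have h4 : Tendsto (fun t : ℝ => A / x₁.den * t) (𝓝[>] 0) (𝓝 (A / x₁.den * 0)) := by
      have : Continuous fun t : ℝ => A / x₁.den * t := by fun_prop
      exact this.continuousAt.tendsto.mono_left nhdsWithin_le_nhds
    have h5 := le_of_tendsto_of_tendsto h3 h4 h2
    rw [mul_zero] at h5
    have h6 : ‖γ 0 - axisPt x₁‖ = 0 := by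
      have := norm_nonneg (γ 0 - axisPt x₁)
      nlinarith
    have h7 := norm_eq_zero.1 h6
    simp only [hγ, Complex.ofReal_zero, add_zero] at h7
    exact sub_eq_zero.1 h7
  have hxx : x₀ = x₁ := by
    have h3 : ‖axisPt x₀ - axisPt x₁‖ = 0 := by rw [hlim, sub_self, norm_zero]
    rw [LimbData.axisPt_sub] at h3
    have h4 : |(x₀ : ℝ) - x₁| = 0 := by
      rcases mul_eq_zero.1 h3 with h5 | h5
      · exact absurd h5 (by positivity)
      · exact h5
    have h5 : (x₀ : ℝ) = x₁ := by linarith [abs_eq_zero.1 h4]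
    exact_mod_cast h5
  intro t h1 h2
  have h3 := hall t ⟨h1, h2⟩
  rw [← hxx] at h3
  exact h3

/-- one stage of the tower -/
structure Stage (κ : ℝ) (n : ℕ) (K : Set ℂ) (r : ℂ) : Prop where
  npos : 0 < n
  data : ∃ (p q : ℕ) (b : ℂ), 0 < p ∧ p < q ∧ Nat.Coprime p q ∧ it r n b = b ∧
    mul n (r, b) = Complex.exp (2 * Real.pi * (p / q) * Complex.I) ∧
    4 * Real.log 2 * (n : ℝ) ^ 2 * q ≤ κ * (min (p : ℝ) (q - p)) ^ 2
  sub : K ⊆ MS
  cpt : IsCompact K
  conn : IsPreconnected K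
  root : r ∈ K
  opn : ∀ z ∈ K, z ≠ r → K \ {r} ∈ 𝓝[MS] z
  zero : (0 : ℂ) ∉ K
  front : r ∈ frontier MS
  next : ∃ (n₁ : ℕ) (c₁ b₁ : ℂ) (S : Set ℂ), n < n₁ ∧ Attr n₁ c₁ b₁ ∧ IsPreconnected S ∧ r ∈ S ∧
    c₁ ∈ S ∧ c₁ ∈ K ∧ S ⊆ insert r (interior MS)

theorem mk_stage {κ : ℝ} (hI : Inputs κ) {n p q : ℕ} {x : ℚ} {σ : ℂ → ℂ × ℂ} (hn : 0 < n)
    (hp : 0 < p) (hpq : p < q) (hcop : Nat.Coprime p q) (hx : (x : ℝ) = p / q) (hxd : x.den = q)
    (hB : 288 * Real.log 2 / κ * (n : ℝ) ^ 2 * q ≤ (min (p : ℝ) (q - p)) ^ 2)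
    (hσ : ContinuousOn σ (ball (axisPt x) (κ * (min (x : ℝ) (1 - x)) ^ 2 / n)))
    (hσ' : ∀ L ∈ ball (axisPt x) (κ * (min (x : ℝ) (1 - x)) ^ 2 / n),
      σ L ∈ Per n ∧ mul n (σ L) = Complex.exp L) :
    ∃ K : Set ℂ, Stage κ n K (σ (axisPt x)).1 ∧
      ∀ U : Set ℂ, IsPreconnected U → U ⊆ MS \ {(σ (axisPt x)).1} →
        (∀ L ∈ ball (axisPt x) (κ * (min (x : ℝ) (1 - x)) ^ 2 / n), L.re < 0 → (σ L).1 ∈ U) →
        ∀ z ∈ U, z ∉ K := by
  have hκ := hI.κ_pos
  have hlog : 0 < Real.log 2 := Real.log_pos (by norm_num)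
  have hq : 0 < q := hp.trans hpq
  have hq' : (0 : ℝ) < q := by exact_mod_cast hq
  have hn' : (0 : ℝ) < n := by exact_mod_cast hn
  have hp' : (0 : ℝ) < p := by exact_mod_cast hp
  have hpq' : (p : ℝ) < q := by exact_mod_cast hpq
  have hx0 : 0 < x := by
    have : (0 : ℝ) < x := by rw [hx]; positivity
    exact_mod_cast this
  have hx1 : x < 1 := by
    have : (x : ℝ) < 1 := by rw [hx, div_lt_one hq']; exact hpq'
    exact_mod_cast this
  set m : ℝ := min (p : ℝ) (q - p) with hmdef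
  have hm0 : 0 < m := lt_min hp' (by linarith)
  have hmin : min (x : ℝ) (1 - x) = m / q := by
    have h1 : 1 - (p : ℝ) / q = (q - p) / q := by field_simp
    rw [hx, hmdef, h1, min_div_div_right hq'.le]
  set R : ℝ := κ * (min (x : ℝ) (1 - x)) ^ 2 / n with hR
  have hRe : R = κ * m ^ 2 / (q ^ 2 * n) := by rw [hR, hmin]; field_simp
  have hR0 : 0 < R := by rw [hRe]; positivity
  have hG := hI.good n hn x hx0 hx1
  obtain ⟨T, hT⟩ := hI.rot n hn
  have hA : 0 < 2 * n * Real.log 2 := by positivity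
  have hL := limbData_of_section hR0 hA hG hσ hσ' hT (fun x hx hxM => hI.rep n hn x hx hxM)
  have hB' : 288 * Real.log 2 * (n : ℝ) ^ 2 * q ≤ κ * m ^ 2 := by
    have h1 : 288 * Real.log 2 / κ * (n : ℝ) ^ 2 * q = (288 * Real.log 2 * n ^ 2 * q) / κ := by
      ring
    rw [h1, div_le_iff₀ hκ] at hB
    linarith
  have hAR : 9 * (2 * n * Real.log 2 / x.den) / R ≤ 1 / 16 := by
    rw [hxd, hRe]
    have h1 : 9 * (2 * n * Real.log 2 / q) / (κ * m ^ 2 / (q ^ 2 * n)) =
        18 * Real.log 2 * n ^ 2 * q / (κ * m ^ 2) := by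
      field_simp
      ring
    rw [h1, div_le_div_iff₀ (by positivity) (by norm_num)]
    linarith
  have hA1 : 0 < 2 * n * Real.log 2 / x.den := by rw [hxd]; positivity
  have hAR2 : 2 * n * Real.log 2 / x.den < R := by
    rw [div_le_iff₀ hR0] at hAR
    linarith
  have hadm : LimbData.Adm x R (2 * n * Real.log 2) x := by
    unfold LimbData.Adm
    rw [sub_self, abs_zero, mul_zero, add_zero]
    exact hAR2
  set r := (σ (axisPt x)).1 with hr
  have hcen : axisPt x ∈ ball (axisPt x) R := mem_ball_self hR0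
  have hfr : r ∈ frontier MS := hL.root_frontier hI.cpt.isClosed
  have hsize := limb_size hG hσ hσ' hL hAR2
  have hKcl : IsClosed (LimbData.K (fun L => (σ L).1)
      (fun L x_1 => L ∈ ball (axisPt x) R ∧ T (σ L).1 (σ L).2 L x_1) x) :=
    (hL.isCompact_K hI.cpt.isClosed hadm).isClosed
  set K := LimbData.K (fun L => (σ L).1)
      (fun L x_1 => L ∈ ball (axisPt x) R ∧ T (σ L).1 (σ L).2 L x_1) x with hKdef
  have hKo : ∀ z ∈ K, z ≠ r → K \ {r} ∈ 𝓝[MS] z := fun z hz hzr => hL.K_open hadm hz hzr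
  have h0M : (0 : ℂ) ∈ MS := ball_sub_MS (mem_ball_self (by norm_num))
  have h0K : (0 : ℂ) ∉ K := by
    intro h0
    have h1 := hsize h0
    rw [mem_closedBall, dist_zero_left] at h1
    have h2 : r ∈ interior MS := by
      rw [mem_interior]
      refine ⟨ball 0 (1 / 4), ball_sub_MS, isOpen_ball, ?_⟩
      rw [mem_ball_zero_iff]
      have h3 : ‖(σ (axisPt x)).1‖ ≤ 1 / 16 := h1.trans hAR
      have h4 : ‖r‖ ≤ 1 / 16 := h3
      linarith
    exact hfr.2 h2
  have hb := hσ' _ hcen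
  have hax : axisPt x = 2 * Real.pi * (p / q) * Complex.I := by
    unfold axisPt
    rw [hx]; push_cast; ring
  -- attracting parameters near `r`
  obtain ⟨t₀, ht₀, ht₀R, hattr⟩ := attr_near hxd hR0 hG hσ hσ' hL.inj
  have hnq : 0 < n * q := Nat.mul_pos hn hq
  have hint : ∀ t : ℝ, 0 < t → t < t₀ → (σ (axisPt x + t)).1 ∈ interior MS := by
    intro t h1 h2
    obtain ⟨b', hb'⟩ := hattr t h1 h2
    exact attr_interior hI hnq hb'
  have htype := type_segment hL ht₀ ht₀R.le (fun t h1 h2 => interior_subset (hint t h1 h2))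
  refine ⟨K, ⟨hn, ⟨p, q, (σ (axisPt x)).2, hp, hpq, hcop, hb.1, ?_, ?_⟩, hL.K_sub hadm,
    hL.isCompact_K hI.cpt.isClosed hadm, hL.K_conn hI.cpt.isClosed hI.conn hadm, Or.inl rfl, hKo,
    h0K, hfr, ?_⟩, ?_⟩
  · rw [← hax]; exact hb.2
  · have : 0 ≤ Real.log 2 * (n : ℝ) ^ 2 * q := by positivity
    linarith
  · -- the next period
    obtain ⟨b', hb'⟩ := hattr (t₀ / 2) (by positivity) (by linarith)
    refine ⟨n * q, (σ (axisPt x + ((t₀ / 2 : ℝ) : ℂ))).1, b',
      (fun t : ℝ => (σ (axisPt x + t)).1) '' Icc 0 (t₀ / 2), ?_, hb', ?_, ?_, ?_, ?_, ?_⟩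
    · have : 1 < q := by omega
      nlinarith
    · refine isPreconnected_Icc.image _ ?_
      have h1 : ContinuousOn (fun L => (σ L).1) (ball (axisPt x) R) :=
        continuous_fst.comp_continuousOn hσ
      refine h1.comp (by fun_prop) ?_
      intro t ht
      rw [mem_ball, dist_eq_norm, add_sub_cancel_left, Complex.norm_real, Real.norm_eq_abs,
        abs_of_nonneg ht.1]
      linarith [ht.2]
    · exact ⟨0, ⟨le_rfl, by positivity⟩, by simp [hr]⟩
    · exact ⟨t₀ / 2, ⟨by positivity, le_rfl⟩, rfl⟩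
    · exact Or.inr ⟨_, htype (t₀ / 2) (by positivity) (by linarith), rfl⟩
    · rintro _ ⟨t, ht, rfl⟩
      rcases ht.1.eq_or_lt with h1 | h1
      · left
        rw [← h1]; simp [hr]
      · right
        exact hint t h1 (by linarith [ht.2])
  · intro U hU hUM hUL z hzU hzK
    obtain ⟨δ, hδ, hδR, hmain⟩ := hL.main' hI.cpt hI.conn hadm
    obtain ⟨L, hLb, hLre⟩ := LimbData.left_nonempty x hδ
    have h1 := hmain 0 h0M h0K ⟨L, ⟨hLb, hLre⟩, rfl⟩
    have hLU : (σ L).1 ∈ U := hUL L (ball_subset_ball hδR hLb) hLre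
    -- `U ⊆ K` because `z ∈ U ∩ K`
    have h2 : U ⊆ K := conn_sub hI.cpt.isClosed hKcl hKo hU hUM ⟨z, hzU, hzK⟩
    have h3 : (σ L).1 ∈ K := h2 hLU
    have h4 : connectedComponentIn (MS \ {r}) 0 ⊆ K :=
      conn_sub hI.cpt.isClosed hKcl hKo isPreconnected_connectedComponentIn
        (connectedComponentIn_subset _ _) ⟨_, h1, h3⟩
    have h5 : (0 : ℂ) ∈ MS \ {r} := by
      refine ⟨h0M, fun h6 => h0K ?_⟩
      have h7 : (0 : ℂ) = r := h6
      rw [h7]; exact Or.inl rfl
    exact h0K (h4 (mem_connectedComponentIn h5))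

end NV

end Pool.Agent.Work.MLC
end

section
set_option autoImplicit false

/-! # Threshold lemma for the MLC project (helper78)

A holomorphic map `g` of the unit disc into a small neighbourhood `{G c c ≤ e}` of the Mandelbrot
set with `g 0` on the boundary of the Mandelbrot set is nearly constant on `{|z| ≤ 1/2}`. -/

namespace Pool.Agent.Work.MLC

open Filter Topology Metric Set Complex

namespace Thr

/-- small Montel theorem on a ball -/
theorem montel {E : Type*} [NormedAddCommGroup E] [NormedSpace ℂ E] [FiniteDimensional ℂ E]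
    {F : ℕ → ℂ → E} {z : ℂ} {R M : ℝ} (hR : 0 < R)
    (hd : ∀ n, DifferentiableOn ℂ (F n) (ball z R)) (hb : ∀ n, ∀ y ∈ ball z R, ‖F n y‖ ≤ M) :
    ∃ (φ : ℕ → ℕ) (G : ℂ → E), StrictMono φ ∧ DifferentiableOn ℂ G (ball z R) ∧
      TendstoLocallyUniformlyOn (fun n => F (φ n)) G atTop (ball z R) := by
  have : CompleteSpace E := FiniteDimensional.complete ℂ E
  have : ProperSpace E := FiniteDimensional.proper ℂ E
  have hM : 0 ≤ M := (norm_nonneg _).trans (hb 0 z (mem_ball_self hR))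
  -- Taylor coefficients
  let a : ℕ → ℕ → E := fun n k => ((k.factorial : ℂ)⁻¹) • iteratedDeriv k (F n) z
  have ha : ∀ ρ, 0 < ρ → ρ < R → ∀ n k, ‖a n k‖ ≤ M / ρ ^ k := by
    intro ρ hρ hρR n k
    have hcl : closedBall z ρ ⊆ ball z R := closedBall_subset_ball hρR
    have h1 := Complex.norm_iteratedDeriv_le_of_forall_mem_sphere_norm_le (c := z) (R := ρ)
      (C := M) (f := F n) k hρ ((hd n).diffContOnCl_ball hcl)
      (fun y hy => hb n y (hcl (sphere_subset_closedBall hy)))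
    have h2 : (0 : ℝ) < k.factorial := by exact_mod_cast Nat.factorial_pos k
    simp only [a, norm_smul, norm_inv, Complex.norm_natCast]
    calc ((k.factorial : ℝ))⁻¹ * ‖iteratedDeriv k (F n) z‖
        ≤ ((k.factorial : ℝ))⁻¹ * (k.factorial * M / ρ ^ k) := by gcongr
      _ = M / ρ ^ k := by field_simp
  have hsum : ∀ n, ∀ w ∈ ball z R, HasSum (fun k => (w - z) ^ k • a n k) (F n w) := by
    intro n w hw
    have := Complex.hasSum_taylorSeries_on_ball (hd n) hw
    have e : (fun k => (w - z) ^ k • a n k) =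
        fun k : ℕ => ((k.factorial : ℂ)⁻¹) • (w - z) ^ k • iteratedDeriv k (F n) z := by
      funext k
      simp only [a]
      rw [smul_comm]
    rw [e]
    exact this
  let K : Set (ℕ → E) := Set.pi Set.univ fun k => closedBall (0 : E) (M / (R / 2) ^ k)
  have hK : IsCompact K := isCompact_univ_pi fun k => isCompact_closedBall _ _
  have haK : ∀ n, a n ∈ K := by
    intro n k _
    rw [mem_closedBall_zero_iff]
    exact ha (R / 2) (by positivity) (by linarith) n k
  obtain ⟨b, -, φ, hφ, hlim⟩ := hK.tendsto_subseq haK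
  rw [tendsto_pi_nhds] at hlim
  have hbb : ∀ ρ, 0 < ρ → ρ < R → ∀ k, ‖b k‖ ≤ M / ρ ^ k := by
    intro ρ hρ hρR k
    exact le_of_tendsto (hlim k).norm (Eventually.of_forall fun n => ha ρ hρ hρR (φ n) k)
  have hbs : ∀ w ∈ ball z R, Summable fun k => (w - z) ^ k • b k := by
    intro w hw
    rw [mem_ball, dist_eq_norm] at hw
    obtain ⟨ρ, hρ1, hρ2⟩ := exists_between hw
    have hρ0 : 0 < ρ := lt_of_le_of_lt (norm_nonneg _) hρ1
    refine Summable.of_norm_bounded (g := fun k => M * (‖w - z‖ / ρ) ^ k) ?_ fun k => ?_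
    · exact (summable_geometric_of_lt_one (by positivity) ((div_lt_one hρ0).2 hρ1)).mul_left M
    · rw [norm_smul, norm_pow, div_pow]
      calc ‖w - z‖ ^ k * ‖b k‖ ≤ ‖w - z‖ ^ k * (M / ρ ^ k) := by
            gcongr
            exact hbb ρ hρ0 hρ2 k
        _ = M * (‖w - z‖ ^ k / ρ ^ k) := by ring
  let G : ℂ → E := fun w => ∑' k, (w - z) ^ k • b k
  have hunif : TendstoLocallyUniformlyOn (fun n => F (φ n)) G atTop (ball z R) := by
    rw [Metric.tendstoLocallyUniformlyOn_iff]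
    intro ε hε x hx
    have hx' := hx
    rw [mem_ball] at hx'
    obtain ⟨ρ', hρ'1, hρ'2⟩ := exists_between hx'
    obtain ⟨ρ, hρ1, hρ2⟩ := exists_between hρ'2
    have hρ'0 : 0 < ρ' := lt_of_le_of_lt dist_nonneg hρ'1
    have hρ0 : 0 < ρ := hρ'0.trans hρ1
    have hgeo : Summable fun k : ℕ => (M + M) * (ρ' / ρ) ^ k :=
      (summable_geometric_of_lt_one (by positivity) ((div_lt_one hρ0).2 hρ1)).mul_left _
    have hbd : ∀ n k, ‖a (φ n) k - b k‖ * ρ' ^ k ≤ (M + M) * (ρ' / ρ) ^ k := by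
      intro n k
      rw [div_pow]
      calc ‖a (φ n) k - b k‖ * ρ' ^ k ≤ (M / ρ ^ k + M / ρ ^ k) * ρ' ^ k := by
            gcongr
            exact (norm_sub_le _ _).trans
              (add_le_add (ha ρ hρ0 hρ2 (φ n) k) (hbb ρ hρ0 hρ2 k))
        _ = (M + M) * (ρ' ^ k / ρ ^ k) := by ring
    have hS : Tendsto (fun n => ∑' k, ‖a (φ n) k - b k‖ * ρ' ^ k) atTop
        (𝓝 (∑' _ : ℕ, (0 : ℝ))) := by
      refine tendsto_tsum_of_dominated_convergence hgeo (fun k => ?_) ?_
      · have h1 : Tendsto (fun n => ‖a (φ n) k - b k‖) atTop (𝓝 0) := by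
          have := ((hlim k).sub_const (b k)).norm
          simpa using this
        simpa using h1.mul_const (ρ' ^ k)
      · refine Eventually.of_forall fun n k => ?_
        rw [Real.norm_eq_abs, abs_of_nonneg (by positivity)]
        exact hbd n k
    rw [tsum_zero] at hS
    refine ⟨ball z ρ', mem_nhdsWithin_of_mem_nhds (isOpen_ball.mem_nhds hρ'1), ?_⟩
    filter_upwards [hS.eventually_lt_const hε] with n hn y hy
    have hyR : y ∈ ball z R := ball_subset_ball hρ'2.le hy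
    rw [dist_comm, dist_eq_norm]
    refine lt_of_le_of_lt ?_ hn
    have h1 : HasSum (fun k => (y - z) ^ k • a (φ n) k - (y - z) ^ k • b k)
        (F (φ n) y - G y) := (hsum (φ n) y hyR).sub (hbs y hyR).hasSum
    have h2 : Summable fun k => ‖a (φ n) k - b k‖ * ρ' ^ k :=
      Summable.of_nonneg_of_le (fun k => by positivity) (hbd n) hgeo
    refine h1.norm_le_of_bounded h2.hasSum fun k => ?_
    rw [← smul_sub, norm_smul, norm_pow, mul_comm]
    rw [mem_ball, dist_eq_norm] at hy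
    gcongr
  refine ⟨φ, G, hφ, ?_, hunif⟩
  exact hunif.differentiableOn (Eventually.of_forall fun n => hd (φ n)) isOpen_ball

/-- the Green function of the Mandelbrot set -/
noncomputable def Gd (z : ℂ) : ℝ := G z z

lemma continuous_Gd : Continuous Gd := by
  have h1 : Continuous (fun z : ℂ => ((z, z) : ℂ × ℂ)) := by fun_prop
  have h2 : Continuous ((fun p : ℂ × ℂ => G p.1 p.2) ∘ fun z : ℂ => ((z, z) : ℂ × ℂ)) :=
    Continuous.comp continuous_G h1
  exact h2

/-- limit form: no sequence of maps into shrinking neighbourhoods of `M` can oscillate -/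
theorem seq_small {B d : ℝ} (hd : 0 < d) (g : ℕ → ℂ → ℂ)
    (hg : ∀ k, DifferentiableOn ℂ (g k) (ball 0 1))
    (hb : ∀ k, ∀ z ∈ ball (0 : ℂ) 1, ‖g k z‖ ≤ B)
    (hG : ∀ k, ∀ z ∈ ball (0 : ℂ) 1, G (g k z) (g k z) ≤ 1 / ((k : ℝ) + 1))
    (h0 : ∀ k, g k 0 ∈ closure (N62a1eb23.mandelbrotSet)ᶜ)
    (y : ℕ → ℂ) (hy : ∀ k, ‖y k‖ ≤ 1 / 2) (hosc : ∀ k, d ≤ dist (g k (y k)) (g k 0)) : False := by
  obtain ⟨φ, g₀, hφ, hg₀, hlim⟩ := montel one_pos hg hb
  -- `g₀` has values in `M`
  have hpt : ∀ z ∈ ball (0 : ℂ) 1, Tendsto (fun k => g (φ k) z) atTop (𝓝 (g₀ z)) := fun z hz =>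
    hlim.tendsto_at hz
  have hM : ∀ z ∈ ball (0 : ℂ) 1, G (g₀ z) (g₀ z) = 0 := by
    intro z hz
    have h1 : Tendsto (fun k => Gd (g (φ k) z)) atTop (𝓝 (Gd (g₀ z))) :=
      (continuous_Gd.tendsto (g₀ z)).comp (hpt z hz)
    have h2 : Tendsto (fun k => 1 / (((φ k : ℕ) : ℝ) + 1)) atTop (𝓝 0) :=
      tendsto_one_div_add_atTop_nhds_zero_nat.comp hφ.tendsto_atTop
    have h3 : Gd (g₀ z) ≤ 0 := le_of_tendsto_of_tendsto' h1 h2 fun k => hG (φ k) z hz
    exact le_antisymm h3 (G_nonneg _ _)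
  have h00 : g₀ 0 ∈ closure (N62a1eb23.mandelbrotSet)ᶜ :=
    isClosed_closure.mem_of_tendsto (hpt 0 (mem_ball_self one_pos))
      (Eventually.of_forall fun k => h0 (φ k))
  -- `g₀` is constant
  have hconst : ∀ z ∈ ball (0 : ℂ) 1, g₀ z = g₀ 0 := by
    have han : AnalyticOnNhd ℂ g₀ (ball 0 1) := hg₀.analyticOnNhd isOpen_ball
    rcases han.is_constant_or_isOpen (convex_ball (0 : ℂ) 1).isPreconnected with ⟨w, hw⟩ | ho
    · intro z hz
      rw [hw z hz, hw 0 (mem_ball_self one_pos)]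
    · exfalso
      have h1 : IsOpen (g₀ '' ball 0 1) := ho _ subset_rfl isOpen_ball
      have h2 : g₀ 0 ∈ g₀ '' ball 0 1 := mem_image_of_mem _ (mem_ball_self one_pos)
      obtain ⟨x, hx1, hx2⟩ := mem_closure_iff.1 h00 _ h1 h2
      obtain ⟨z, hz, rfl⟩ := hx1
      exact hx2 (mem_M_iff'.2 (hM z hz))
  -- contradiction with the oscillation
  have hcomp : IsCompact (closedBall (0 : ℂ) (1 / 2)) := isCompact_closedBall _ _
  have hsub : closedBall (0 : ℂ) (1 / 2) ⊆ ball 0 1 := closedBall_subset_ball (by norm_num)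
  have hu : TendstoUniformlyOn (fun k => g (φ k)) g₀ atTop (closedBall 0 (1 / 2)) :=
    (tendstoLocallyUniformlyOn_iff_tendstoUniformlyOn_of_compact hcomp).1 (hlim.mono hsub)
  rw [Metric.tendstoUniformlyOn_iff] at hu
  obtain ⟨k, hk⟩ := (hu (d / 2) (by positivity)).exists
  have hyk : y (φ k) ∈ closedBall (0 : ℂ) (1 / 2) := by
    rw [mem_closedBall_zero_iff]; exact hy _
  have e1 := hk (y (φ k)) hyk
  have e2 := hk 0 (mem_closedBall_self (by norm_num))
  rw [hconst _ (hsub hyk)] at e1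
  have e3 := hosc (φ k)
  have e4 := dist_triangle_left (g (φ k) (y (φ k))) (g (φ k) 0) (g₀ 0)
  linarith

/-- **Threshold lemma.** For every `d > 0` there is `e > 0` such that every holomorphic map `g` of
the unit disc with `|g| ≤ B`, `G (g z) (g z) ≤ e` and `g 0` in the closure of the complement of `M`
satisfies `dist (g z) (g 0) ≤ d` for `|z| ≤ 1/2`. -/
theorem threshold (B : ℝ) {d : ℝ} (hd : 0 < d) : ∃ e > 0, ∀ g : ℂ → ℂ,
    DifferentiableOn ℂ g (ball 0 1) → (∀ z ∈ ball (0 : ℂ) 1, ‖g z‖ ≤ B) →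
    (∀ z ∈ ball (0 : ℂ) 1, G (g z) (g z) ≤ e) →
    g 0 ∈ closure (N62a1eb23.mandelbrotSet)ᶜ →
    ∀ z ∈ closedBall (0 : ℂ) (1 / 2), dist (g z) (g 0) ≤ d := by
  by_contra hcon
  push Not at hcon
  choose g h1 h2 h3 h4 y h5 h6 using fun k : ℕ =>
    hcon (1 / ((k : ℝ) + 1)) (by positivity)
  exact seq_small hd g h1 h2 h3 h4 y (fun k => by simpa using h5 k) fun k => (h6 k).le

end Thr

end Pool.Agent.Work.MLC
end

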