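import Pool.Agent.Work.MLCM.C04

section
set_option autoImplicit false

/-! # Labels of strips (helper57)

A strip is given by an angle `θ` and a word `w` of bits with `nu w n θ` not an integer; the label
`lab n θ w` has `n * 2 ^ (n - 1)` values. -/

namespace Pool.Agent.Work.MLC

open Set Circ

/-- bits, `n`-periodic (the period `n` need not be minimal) -/
structure Bits (n : ℕ) (w : ℕ → ℤ) : Prop where
  bit : ∀ i, w i = 0 ∨ w i = 1
  per : ∀ i, w (i + n) = w i

/-- the type of labels -/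
def Lab (n : ℕ) : Type := {v : Fin n → Bool // ∀ i : Fin n, i.val = 0 → v i = false} × ZMod n

noncomputable instance (n : ℕ) [NeZero n] : Fintype (Lab n) := by
  classical
  unfold Lab
  infer_instance

theorem card_Lab (n : ℕ) [NeZero n] : Fintype.card (Lab n) = n * 2 ^ (n - 1) := by
  classical
  have h1 : Fintype.card (Lab n) =
      Fintype.card {v : Fin n → Bool // ∀ i : Fin n, i.val = 0 → v i = false} * n := by
    unfold Lab
    rw [Fintype.card_prod, ZMod.card]
  obtain ⟨m, rfl⟩ : ∃ m, n = m + 1 := ⟨n - 1, by have := NeZero.pos n; omega⟩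
  have e : {v : Fin (m + 1) → Bool // ∀ i : Fin (m + 1), i.val = 0 → v i = false} ≃
      (Fin m → Bool) :=
    { toFun := fun v i => v.1 i.succ
      invFun := fun u => ⟨Fin.cons false u, fun i hi => by
        have : i = 0 := Fin.ext hi
        subst this; simp⟩
      left_inv := by
        rintro ⟨v, hv⟩
        apply Subtype.ext
        funext i
        refine Fin.cases ?_ (fun j => ?_) i
        · simp [hv 0 rfl]
        · simp
      right_inv := fun u => by
        funext i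
        simp }
  rw [h1, Fintype.card_congr e, Fintype.card_fun, Fintype.card_bool, Fintype.card_fin,
    Nat.add_sub_cancel, Nat.mul_comm]

/-- the word with first bit zero -/
def nw (w : ℕ → ℤ) (i : ℕ) : ℤ := (w i - w 0) ^ 2

theorem nw_zero (w : ℕ → ℤ) : nw w 0 = 0 := by simp [nw]

/-- `nw w + w 0 = w + 2 u` with an integer `u` -/
theorem nw_add {n : ℕ} {w : ℕ → ℤ} (hw : Bits n w) (i : ℕ) :
    nw w i + w 0 = w i + 2 * (w 0 * (1 - w i)) := by
  unfold nw
  rcases hw.bit i with h | h <;> rcases hw.bit 0 with h' | h' <;> rw [h, h'] <;> norm_num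

theorem bits_nw {n : ℕ} {w : ℕ → ℤ} (hw : Bits n w) : Bits n (nw w) := by
  constructor
  · intro i
    unfold nw
    rcases hw.bit i with h | h <;> rcases hw.bit 0 with h' | h' <;> rw [h, h'] <;> norm_num
  · intro i
    unfold nw
    rw [hw.per]

/-- `nu` for the normalised word -/
theorem nu_nw {n : ℕ} {w : ℕ → ℤ} (hw : Bits n w) (θ : ℝ) :
    nu (nw w) n (θ + w 0) = nu w n θ + ((∑ i ∈ Finset.range n, w 0 * (1 - w i) : ℤ) : ℝ) := by
  rw [nu_add_theta]
  have h1 : (fun i => nw w i + w 0) = fun i => w i + 2 * (w 0 * (1 - w i)) := by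
    funext i; exact nw_add hw i
  rw [h1, nu_shift w (fun i => w 0 * (1 - w i)) θ n]
  push_cast
  rfl

open Classical in
/-- the label of the strip of `(θ, w)` -/
noncomputable def lab (n : ℕ) (θ : ℝ) (w : ℕ → ℤ) : Lab n :=
  (⟨fun i => decide (nw w i = 1), fun i hi => by
    show decide (nw w i.val = 1) = false
    rw [hi, nw_zero]; simp⟩, ((⌊nu (nw w) n (θ + w 0)⌋ : ℤ) : ZMod n))

theorem Lab.ext' {n : ℕ} {x y : Lab n} (h1 : ∀ i, x.1.1 i = y.1.1 i) (h2 : x.2 = y.2) : x = y :=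
  Prod.ext (Subtype.ext (funext h1)) h2

open Classical in
theorem lab_fst (n : ℕ) (θ : ℝ) (w : ℕ → ℤ) (i : Fin n) :
    (lab n θ w).1.1 i = decide (nw w i = 1) := by
  show (decide (nw w i = 1)) = decide (nw w i = 1)
  rfl

theorem lab_snd (n : ℕ) (θ : ℝ) (w : ℕ → ℤ) :
    (lab n θ w).2 = ((⌊nu (nw w) n (θ + w 0)⌋ : ℤ) : ZMod n) := rfl

theorem nu_add_two_mul (w : ℕ → ℤ) (θ : ℝ) (n : ℕ) (u : ℤ) :
    nu w n (θ + 2 * u) = nu w n θ + n * u := by
  have h := nu_add_theta w θ (2 * u) n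
  have h2 := nu_shift w (fun _ => u) θ n
  have h3 : (fun i => w i + 2 * u) = fun i => w i + 2 * (fun _ : ℕ => u) i := rfl
  push_cast at h
  rw [h, h3, h2]
  simp

theorem lab_congr {n : ℕ} {θ θ' : ℝ} {w w' : ℕ → ℤ} (hw : Bits n w) (hw' : Bits n w') (m : ℤ)
    (hθ : θ' = θ + m) (h : ∀ i, Even (w' i - w i - m)) : lab n θ' w' = lab n θ w := by
  have h1 : nw w' = nw w := by
    funext i
    have h2 := h i
    have h3 := h 0
    unfold nw
    rcases hw.bit i with a | a <;> rcases hw.bit 0 with b | b <;> rcases hw'.bit i with a' | a' <;>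
      rcases hw'.bit 0 with b' | b' <;> rw [a, a'] at h2 <;> rw [b, b'] at h3 <;>
      rw [a, a', b, b'] <;> norm_num <;> rw [Int.even_iff] at h2 h3 <;> omega
  obtain ⟨u, hu⟩ := h 0
  have h4 : θ' + w' 0 = θ + w 0 + 2 * ((u + m : ℤ) : ℝ) := by
    have h5 : (w' 0 : ℝ) - w 0 - m = u + u := by exact_mod_cast hu
    push_cast
    rw [hθ]
    linarith
  refine Lab.ext' (fun i => by rw [lab_fst, lab_fst, h1]) ?_
  rw [lab_snd, lab_snd, h1, h4, nu_add_two_mul]
  have h5 : nu (nw w) n (θ + w 0) + n * ((u + m : ℤ) : ℝ) =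
      nu (nw w) n (θ + w 0) + ((n * (u + m) : ℤ) : ℝ) := by push_cast; ring
  rw [h5, Int.floor_add_intCast]
  push_cast
  simp

/-- the label is constant as long as the rotation number meets no integer -/
theorem lab_of_strip {n : ℕ} {θ θ' : ℝ} {w : ℕ → ℤ} (hw : Bits n w)
    (h : ∀ θ'' ∈ uIcc θ θ', ∀ k : ℤ, nu w n θ'' ≠ k) : lab n θ' w = lab n θ w := by
  wlog hle : θ ≤ θ' generalizing θ θ'
  · exact (this (by rwa [uIcc_comm]) (le_of_not_ge hle)).symm
  rw [uIcc_of_le hle] at h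
  refine Lab.ext' (fun i => by rw [lab_fst, lab_fst]) ?_
  rw [lab_snd, lab_snd]
  rw [nu_nw hw, nu_nw hw, Int.floor_add_intCast, Int.floor_add_intCast]
  have h1 : ⌊nu w n θ'⌋ = ⌊nu w n θ⌋ := by
    have hmono := nu_mono w n hle
    by_contra hne
    have h2 : ⌊nu w n θ⌋ < ⌊nu w n θ'⌋ := lt_of_le_of_ne (Int.floor_le_floor hmono)
      (fun h => hne h.symm)
    have h3 : nu w n θ < ⌊nu w n θ'⌋ := Int.floor_lt.1 h2
    have h4 : ((⌊nu w n θ'⌋ : ℤ) : ℝ) ∈ Icc (nu w n θ) (nu w n θ') :=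
      ⟨h3.le, Int.floor_le _⟩
    obtain ⟨θ'', hθ'', he⟩ := intermediate_value_Icc hle (nu_continuous w n).continuousOn h4
    exact h θ'' hθ'' _ he
  rw [h1]

/-- every label occurs with every fractional part of the rotation number -/
theorem lab_surj {n : ℕ} (hn : 0 < n) (j : Lab n) {τ : ℝ} (h0 : 0 < τ) (h1 : τ < 1) :
    ∃ (θ : ℝ) (w : ℕ → ℤ), Bits n w ∧ lab n θ w = j ∧ Int.fract (nu w n θ) = τ := by
  obtain ⟨⟨v, hv⟩, k⟩ := j
  obtain ⟨K, hK⟩ := ZMod.intCast_surjective k
  set w : ℕ → ℤ := fun i => if v ⟨i % n, Nat.mod_lt _ hn⟩ then 1 else 0 with hw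
  have hw0 : w 0 = 0 := by
    simp only [hw]
    rw [hv _ (by simp)]
    simp
  have hbits : Bits n w := by
    constructor
    · intro i
      simp only [hw]
      split_ifs <;> simp
    · intro i
      simp only [hw, Nat.add_mod_right]
  have hnw : nw w = w := by
    funext i
    unfold nw
    rw [hw0]
    rcases hbits.bit i with h | h <;> rw [h] <;> norm_num
  -- solve for the rotation number
  obtain ⟨θ, hθ⟩ : ∃ θ : ℝ, nu w n θ = K + τ := by
    obtain ⟨u, hu⟩ := exists_nat_ge |(K : ℝ) + τ - nu w n 0|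
    have hn1 : (1 : ℝ) ≤ n := by exact_mod_cast hn
    have hu0 : (0 : ℝ) ≤ u := Nat.cast_nonneg u
    have hun : (u : ℝ) ≤ n * u := by nlinarith
    have h2 := nu_add_two_mul w 0 n (u : ℤ)
    have h3 := nu_add_two_mul w 0 n (-(u : ℤ))
    push_cast at h2 h3
    have h4 := abs_le.1 hu
    have h5 : (K : ℝ) + τ ∈ Icc (nu w n (0 + 2 * -(u : ℝ))) (nu w n (0 + 2 * (u : ℝ))) := by
      rw [h2, h3]
      constructor <;> linarith [h4.1, h4.2]
    obtain ⟨θ, -, hθ⟩ := intermediate_value_Icc (by linarith) (nu_continuous w n).continuousOn h5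
    exact ⟨θ, hθ⟩
  have hfl : ⌊nu w n θ⌋ = K := by
    rw [hθ, Int.floor_eq_iff]
    constructor <;> linarith
  refine ⟨θ, w, hbits, ?_, ?_⟩
  · refine Lab.ext' (fun i => ?_) ?_
    · have h1 : (⟨i.val % n, Nat.mod_lt _ hn⟩ : Fin n) = i := Fin.ext (Nat.mod_eq_of_lt i.2)
      have h2 : w i = if v i then 1 else 0 := by
        simp only [hw]
        rw [h1]
      rw [lab_fst, hnw]
      show decide (w i = 1) = v i
      cases hvi : v i
      · rw [hvi] at h2
        have h3 : w i ≠ 1 := by rw [h2]; simp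
        exact decide_eq_false h3
      · rw [hvi] at h2
        have h3 : w i = 1 := by rw [h2]; simp
        exact decide_eq_true h3
    · rw [lab_snd, hnw, hw0]
      simp only [Int.cast_zero, add_zero, hfl, hK]
  · rw [hθ, Int.fract_eq_iff]
    exact ⟨h0.le, h1, K, by ring⟩

end Pool.Agent.Work.MLC
end

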