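import Mathlib

section
set_option autoImplicit false

/-! # Winding numbers of periodic functions and the symmetry trick  (helper14)

`Wd v k` : the `2 π`-periodic zero free function `v : ℝ → ℂ` has winding number `k`. -/

namespace Pool.Agent.Work.MLC

open Filter Topology Metric Set Complex

/-- `v : ℝ → ℂ` has winding number `k` over the period `2 π`. -/
def Wd (v : ℝ → ℂ) (k : ℤ) : Prop :=
  ∃ F : ℝ → ℂ, Continuous F ∧ (∀ x, Complex.exp (F x) = v x) ∧
    ∀ x, F (x + 2 * Real.pi) = F x + k * (2 * Real.pi * I)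

lemma two_pi_I_ne : (2 * (Real.pi : ℂ) * I) ≠ 0 := by simp [Real.pi_ne_zero]

/-- a continuous function whose exponential is constantly `1` on a preconnected space is constant -/
lemma const_of_exp_eq_one {X : Type*} [TopologicalSpace X] [PreconnectedSpace X] {D : X → ℂ}
    (hD : Continuous D) (h1 : ∀ x, Complex.exp (D x) = 1) :
    ∃ k : ℤ, ∀ x, D x = k * (2 * Real.pi * I) := by
  rcases isEmpty_or_nonempty X with hX | ⟨⟨x₀⟩⟩
  · exact ⟨0, fun x => (hX.false x).elim⟩
  choose n hn using fun x => Complex.exp_eq_one_iff.1 (h1 x)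
  have hcont : Continuous fun x => ((n x : ℤ) : ℝ) := by
    have : (fun x => ((n x : ℤ) : ℝ)) = fun x => (D x / (2 * Real.pi * I)).re := by
      funext x
      rw [hn x, mul_div_assoc, div_self two_pi_I_ne, mul_one]
      simp
    rw [this]
    fun_prop
  have hcont' : Continuous n := Int.isClosedEmbedding_coe_real.isEmbedding.continuous_iff.2 hcont
  refine ⟨n x₀, fun x => ?_⟩
  have hc : n x = n x₀ := PreconnectedSpace.constant inferInstance hcont'
  rw [hn x, hc]

/-- the same on a preconnected set -/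
lemma const_of_exp_eq_one_on {X : Type*} [TopologicalSpace X] {s : Set X} (hs : IsPreconnected s)
    {D : X → ℂ} (hD : ContinuousOn D s) (h1 : ∀ x ∈ s, Complex.exp (D x) = 1) :
    ∃ k : ℤ, ∀ x ∈ s, D x = k * (2 * Real.pi * I) := by
  have : PreconnectedSpace s := Subtype.preconnectedSpace hs
  obtain ⟨k, hk⟩ := const_of_exp_eq_one (X := s) (D := fun x => D x.1)
    (continuousOn_iff_continuous_domRestrict.1 hD) (fun x => h1 x.1 x.2)
  exact ⟨k, fun x hx => hk ⟨x, hx⟩⟩

/-- two continuous logarithms of the same function differ by a constant in `2 π i ℤ` -/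
lemma log_unique_on {X : Type*} [TopologicalSpace X] {s : Set X} (hs : IsPreconnected s)
    {F F' : X → ℂ} (hF : ContinuousOn F s) (hF' : ContinuousOn F' s)
    (h1 : ∀ x ∈ s, Complex.exp (F x) = Complex.exp (F' x)) :
    ∃ k : ℤ, ∀ x ∈ s, F x = F' x + k * (2 * Real.pi * I) := by
  obtain ⟨k, hk⟩ := const_of_exp_eq_one_on hs (D := fun x => F x - F' x) (hF.sub hF') (fun x hx => by
    rw [Complex.exp_sub, h1 x hx, div_self (Complex.exp_ne_zero _)])
  exact ⟨k, fun x hx => by rw [← hk x hx]; ring⟩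

/-- existence of continuous logarithms on open convex sets -/
lemma exists_log_on {E : Type*} [NormedAddCommGroup E] [NormedSpace ℝ E] {s : Set E}
    (hs : Convex ℝ s) (ho : IsOpen s) {v : E → ℂ} (hv : ContinuousOn v s)
    (h0 : ∀ x ∈ s, v x ≠ 0) :
    ∃ F : E → ℂ, ContinuousOn F s ∧ ∀ x ∈ s, Complex.exp (F x) = v x := by
  rcases s.eq_empty_or_nonempty with rfl | hne
  · exact ⟨0, by simp, by simp⟩
  have := hs.contractibleSpace hne
  have hsc : IsSimplyConnected s := SimplyConnectedSpace.ofContractible s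
  obtain ⟨F, hF, hF'⟩ := Complex.exists_continuousOn_eqOn_exp_comp hsc ho hv
    (by rintro ⟨x, hx, hx0⟩; exact h0 x hx hx0)
  exact ⟨F, hF, fun x hx => hF' hx⟩

/-- existence of continuous logarithms on normed spaces -/
lemma exists_log {E : Type*} [NormedAddCommGroup E] [NormedSpace ℝ E] {v : E → ℂ}
    (hv : Continuous v) (h0 : ∀ x, v x ≠ 0) :
    ∃ F : E → ℂ, Continuous F ∧ ∀ x, Complex.exp (F x) = v x := by
  obtain ⟨F, hF, hF'⟩ := exists_log_on (convex_univ (𝕜 := ℝ) (E := E)) isOpen_univ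
    hv.continuousOn (fun x _ => h0 x)
  exact ⟨F, continuousOn_univ.1 hF, fun x => hF' x (mem_univ x)⟩

lemma wd_of_log {v : ℝ → ℂ} {k : ℤ} (h : Wd v k) {F : ℝ → ℂ} (hF : Continuous F)
    (hF' : ∀ x, Complex.exp (F x) = v x) :
    ∀ x, F (x + 2 * Real.pi) = F x + k * (2 * Real.pi * I) := by
  obtain ⟨F₁, h1, h2, h3⟩ := h
  obtain ⟨m, hm⟩ := log_unique_on (X := ℝ) isPreconnected_univ hF.continuousOn h1.continuousOn
    (fun x _ => by rw [hF', h2])
  intro x
  rw [hm _ (mem_univ _), hm x (mem_univ _), h3]; ring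

lemma wd_unique {v : ℝ → ℂ} {k l : ℤ} (h : Wd v k) (h' : Wd v l) : k = l := by
  obtain ⟨F₁, h1, h2, h3⟩ := h
  have := wd_of_log h' h1 h2 0
  rw [h3] at this
  have h4 := add_left_cancel this
  exact_mod_cast mul_right_cancel₀ two_pi_I_ne h4

lemma Wd.mul {v w : ℝ → ℂ} {k l : ℤ} (h : Wd v k) (h' : Wd w l) :
    Wd (fun x => v x * w x) (k + l) := by
  obtain ⟨F₁, h1, h2, h3⟩ := h
  obtain ⟨F₂, h1', h2', h3'⟩ := h'
  refine ⟨fun x => F₁ x + F₂ x, h1.add h1', fun x => ?_, fun x => ?_⟩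
  · rw [Complex.exp_add, h2, h2']
  · simp only [h3, h3']; push_cast; ring

lemma wd_const {a : ℂ} (ha : a ≠ 0) : Wd (fun _ => a) 0 :=
  ⟨fun _ => Complex.log a, continuous_const, fun _ => Complex.exp_log ha, fun _ => by simp⟩

lemma wd_of_periodic_log {l : ℝ → ℂ} (hl : Continuous l) (hp : ∀ x, l (x + 2 * Real.pi) = l x) :
    Wd (fun x => Complex.exp (l x)) 0 :=
  ⟨l, hl, fun _ => rfl, fun x => by simp [hp]⟩

lemma Wd.congr {v w : ℝ → ℂ} {k : ℤ} (h : Wd v k) (he : ∀ x, v x = w x) : Wd w k := by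
  have : v = w := funext he
  rwa [← this]

lemma Wd.ne_zero {v : ℝ → ℂ} {k : ℤ} (h : Wd v k) (x : ℝ) : v x ≠ 0 := by
  obtain ⟨F, _, h2, _⟩ := h
  rw [← h2]; exact Complex.exp_ne_zero _

/-- if `v w` has winding number `k + l` and `w` has winding number `l` then `v` has `k` -/
lemma Wd.of_mul {v w : ℝ → ℂ} {k l : ℤ} (h : Wd (fun x => v x * w x) k) (h' : Wd w l) :
    Wd v (k - l) := by
  obtain ⟨F₁, h1, h2, h3⟩ := h
  obtain ⟨F₂, h1', h2', h3'⟩ := h'
  refine ⟨fun x => F₁ x - F₂ x, h1.sub h1', fun x => ?_, fun x => ?_⟩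
  · rw [Complex.exp_sub, h2, h2', mul_div_assoc, div_self, mul_one]
    rw [← h2']; exact Complex.exp_ne_zero _
  · simp only [h3, h3']; push_cast; ring

lemma wd_near_one {v : ℝ → ℂ} (hv : Continuous v) (hp : ∀ x, v (x + 2 * Real.pi) = v x)
    (h : ∀ x, ‖v x - 1‖ < 1) : Wd v 0 := by
  have hs : ∀ x, v x ∈ Complex.slitPlane := fun x => by
    have := Complex.mem_slitPlane_of_norm_lt_one (h x)
    simpa using this
  refine ⟨fun x => Complex.log (v x), ?_, fun x => ?_, fun x => by simp [hp]⟩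
  · exact Continuous.clog hv hs
  · exact Complex.exp_log (Complex.slitPlane_ne_zero (hs x))

/-- homotopy invariance -/
lemma wd_homotopy {H : ℝ → ℝ → ℂ} (hH : Continuous fun p : ℝ × ℝ => H p.1 p.2)
    (h0 : ∀ t x, H t x ≠ 0) (hp : ∀ t x, H t (x + 2 * Real.pi) = H t x) {k : ℤ} {a : ℝ}
    (ha : Wd (H a) k) (b : ℝ) : Wd (H b) k := by
  obtain ⟨F, hF, hF'⟩ := exists_log (E := ℝ × ℝ) hH (fun p => h0 p.1 p.2)
  obtain ⟨m, hm⟩ := const_of_exp_eq_one (X := ℝ × ℝ)
    (D := fun p => F (p.1, p.2 + 2 * Real.pi) - F p) (by fun_prop) (fun p => by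
      rw [Complex.exp_sub, hF', hF']
      simp only
      rw [hp, div_self (h0 _ _)])
  have hm' : ∀ t, Wd (H t) m := fun t =>
    ⟨fun x => F (t, x), by fun_prop, fun x => hF' (t, x), fun x => by
      have := hm (t, x)
      simp only at this
      rw [← this]; ring⟩
  rw [wd_unique ha (hm' a)]
  exact hm' b

/-- **the symmetry trick** -/
lemma wd_symm {S : ℝ → ℝ → ℂ} (hS : Continuous fun p : ℝ × ℝ => S p.1 p.2)
    (h0 : ∀ x y, S x y ≠ 0) (hsym : ∀ x y, S x y = S y x)
    (hp : ∀ x y, S (x + 2 * Real.pi) y = S x y)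
    (hd : Wd (fun x => S x x) 0) (y : ℝ) : Wd (fun x => S x y) 0 := by
  obtain ⟨F, hF, hF'⟩ := exists_log (E := ℝ × ℝ) hS (fun p => h0 p.1 p.2)
  have hp2 : ∀ x y, S x (y + 2 * Real.pi) = S x y := fun x y => by
    rw [hsym, hp, hsym]
  obtain ⟨m, hm⟩ := const_of_exp_eq_one (X := ℝ × ℝ)
    (D := fun p => F (p.1 + 2 * Real.pi, p.2) - F p) (by fun_prop) (fun p => by
      rw [Complex.exp_sub, hF', hF']
      simp only
      rw [hp, div_self (h0 _ _)])
  obtain ⟨j, hj⟩ := const_of_exp_eq_one (X := ℝ × ℝ)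
    (D := fun p => F (p.2, p.1) - F p) (by fun_prop) (fun p => by
      rw [Complex.exp_sub, hF', hF']
      simp only
      rw [hsym p.2 p.1, div_self (h0 _ _)])
  have hj0 : (j : ℂ) * (2 * Real.pi * I) = 0 := by
    have := hj (0, 0)
    simpa using this.symm
  have hFs : ∀ x y, F (y, x) = F (x, y) := fun x y => by
    have := hj (x, y)
    rw [hj0] at this
    exact sub_eq_zero.1 this
  have h1 : ∀ x y, F (x + 2 * Real.pi, y) = F (x, y) + m * (2 * Real.pi * I) := fun x y => by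
    rw [← hm (x, y)]; ring
  have h2 : ∀ x y, F (x, y + 2 * Real.pi) = F (x, y) + m * (2 * Real.pi * I) := fun x y => by
    rw [hFs (y + 2 * Real.pi) x, h1, hFs y x]
  have hdiag : Wd (fun x => S x x) (2 * m) :=
    ⟨fun x => F (x, x), by fun_prop, fun x => hF' (x, x), fun x => by
      simp only [h1, h2]; push_cast; ring⟩
  have : m = 0 := by
    have := wd_unique hd hdiag
    omega
  exact ⟨fun x => F (x, y), by fun_prop, fun x => hF' (x, y), fun x => by
      simp only [h1, this]⟩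

/-- homotopy invariance along a path connected set of parameters -/
lemma wd_pathConnected {U : Set ℂ} (hU : IsPathConnected U) {H : ℂ → ℝ → ℂ}
    (hH : ContinuousOn (fun p : ℂ × ℝ => H p.1 p.2) (U ×ˢ univ))
    (h0 : ∀ w ∈ U, ∀ x, H w x ≠ 0) (hp : ∀ w ∈ U, ∀ x, H w (x + 2 * Real.pi) = H w x) {k : ℤ}
    {a b : ℂ} (ha : a ∈ U) (hb : b ∈ U) (h : Wd (H a) k) : Wd (H b) k := by
  obtain ⟨γ, hγ⟩ := hU.joinedIn a ha b hb
  have hmem : ∀ t : ℝ, γ.extend t ∈ U := fun t => hγ _
  have := wd_homotopy (H := fun t x => H (γ.extend t) x) (a := 0) (k := k) ?_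
    (fun t x => h0 _ (hmem t) x) (fun t x => hp _ (hmem t) x) (by simpa using h) 1
  · simpa using this
  · refine hH.comp_continuous (f := fun p : ℝ × ℝ => (γ.extend p.1, p.2)) ?_ ?_
    · exact (γ.continuous_extend.comp continuous_fst).prodMk continuous_snd
    · exact fun p => ⟨hmem p.1, mem_univ _⟩

end Pool.Agent.Work.MLC
end

section
/-!
Common definitions for the proof of S05099 (right reversible semigroups of rational functions).
Points of the projective line are nonzero vectors of `ℂ × ℂ` up to scaling.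
-/

set_option autoImplicit false

namespace Pool.Agent.Work.MP_78b16e_an

open Polynomial Metric

/-- Wedge product; nonzero vectors `x`, `y` define the same point of the projective line
iff `wg x y = 0`. -/
def wg (x y : ℂ × ℂ) : ℂ := x.1 * y.2 - x.2 * y.1

/-- Value at `v` of the homogenisation in degree `d` of the polynomial `p`. -/
noncomputable def hform (d : ℕ) (p : ℂ[X]) (v : ℂ × ℂ) : ℂ :=
  ∑ i ∈ Finset.range (d + 1), p.coeff i * v.1 ^ i * v.2 ^ (d - i)

/-- `A` is a homogeneous polynomial map of degree `d` without zeros outside the origin. -/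
structure IsLift (d : ℕ) (A : ℂ × ℂ → ℂ × ℂ) : Prop where
  form : ∃ p q : ℂ[X], ∀ v, A v = (hform d p v, hform d q v)
  nz : ∀ v, v ≠ 0 → A v ≠ 0

/-- A continuous logarithmically homogeneous function (a potential). -/
structure IsPot (g : ℂ × ℂ → ℝ) : Prop where
  cont : ContinuousOn g {0}ᶜ
  smul : ∀ (c : ℂ) (v : ℂ × ℂ), c ≠ 0 → v ≠ 0 → g (c • v) = Real.log ‖c‖ + g v

/-- A lift together with its normalised Green function. -/
structure Dyn (g : ℂ × ℂ → ℝ) (d : ℕ) (A : ℂ × ℂ → ℂ × ℂ) : Prop where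
  lift : IsLift d A
  two : 2 ≤ d
  pot : IsPot g
  inv : ∀ v, v ≠ 0 → g (A v) = (d : ℝ) * g v

/-- `u` is harmonic near `z`: locally the real part of a holomorphic function. -/
def HarmAt (u : ℂ → ℝ) (z : ℂ) : Prop :=
  ∃ r > 0, ∃ e : ℂ → ℂ, DifferentiableOn ℂ e (ball z r) ∧ ∀ y ∈ ball z r, u y = (e y).re

/-- Linearisation data at a repelling fixed point. -/
structure Lin (g : ℂ × ℂ → ℝ) (D : ℕ) (B : ℂ × ℂ → ℂ × ℂ) (lam : ℂ) (ψ : ℂ → ℂ × ℂ)
    (p : ℂ → ℂ) : Prop where
  dyn : Dyn g D B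
  one : 1 < ‖lam‖
  diff : Differentiable ℂ ψ
  nz : ∀ z, ψ z ≠ 0
  imm : wg (ψ 0) (deriv ψ 0) ≠ 0
  pdiff : Differentiable ℂ p
  eqn : ∀ z, B (ψ z) = Complex.exp (p z) • ψ (lam * z)

end Pool.Agent.Work.MP_78b16e_an
end

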