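import Mathlib
import Pool.Agent.Work.MLCM.C10
import Pool.Agent.Work.MLCM.C11
import Pool.Agent.Work.MLCM.C18
import Pool.Agent.Work.MLCM.C19

section
set_option autoImplicit false

/-! # The winding number of `h ∘ g_m` along the equipotential `{G = r}`, `g / 2 < r < g`  (helper14) -/

namespace Pool.Agent.Work.MLC

open Filter Topology Metric Set Complex

variable {c : ℂ} {g th : ℝ} {E s : ℂ → ℂ}

/-- the loop `x ↦ E (r + i x)` -/
noncomputable def lp (E : ℂ → ℂ) (r x : ℝ) : ℂ := E (r + x * I)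

namespace BD

lemma continuousOn_E (hB : BD c g th E) : ContinuousOn E {z | g / 2 < z.re} :=
  hB.hol.continuousOn

lemma continuous_lp2 (hB : BD c g th E) {r : ℝ} (hr : g / 2 < r) :
    Continuous fun p : ℝ × ℝ => lp E (r + |p.1|) p.2 := by
  unfold lp
  refine hB.continuousOn_E.comp_continuous (by fun_prop) (fun p => ?_)
  have := abs_nonneg p.1
  simp only [mem_ofPred_eq, add_re, ofReal_re, mul_re, ofReal_im, I_re, I_im, mul_zero, zero_mul,
    sub_zero, add_zero]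
  linarith

lemma continuous_lp (hB : BD c g th E) {r : ℝ} (hr : g / 2 < r) :
    Continuous fun x : ℝ => lp E r x := by
  have := (hB.continuous_lp2 hr).comp (f := fun x : ℝ => ((0 : ℝ), x)) (by fun_prop)
  simpa [Function.comp_def] using this

lemma lp_per (hB : BD c g th E) {r : ℝ} (hr : g / 2 < r) (x : ℝ) :
    lp E r (x + 2 * Real.pi) = lp E r x := by
  unfold lp
  have := hB.per (r + x * I) (by simpa using hr)
  rw [← this]
  congr 1
  push_cast; ring

lemma lp_mem (hB : BD c g th E) {r : ℝ} (hr : g / 2 < r) {g' : ℝ} (hr' : r < g') (x : ℝ) :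
    lp E r x ∈ Ug c g' :=
  hB.E_mem (by simpa using hr) (by simpa using hr')

lemma G_lp (hB : BD c g th E) {r : ℝ} (hr : g / 2 < r) (x : ℝ) : G c (lp E r x) = r := by
  unfold lp
  rw [hB.G_E _ (by simpa using hr)]
  simp

/-- block (i): the equipotential winds once around every point of `{G < r}` -/
lemma wd_sub (hB : BD c g th E) {r : ℝ} (hr : g / 2 < r) {w : ℂ} (hw : G c w < r) :
    Wd (fun x => lp E r x - w) 1 := by
  -- far away
  have hfar : ∃ t : ℝ, 0 ≤ t ∧ ∀ x : ℝ,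
      ‖(lp E (r + t) x - w) / Complex.exp ((r + t : ℝ) + x * I) - 1‖ < 1 := by
    have h1 := hB.asym
    have h2 : Tendsto (fun z : ℂ => w / Complex.exp z) (comap Complex.re atTop) (𝓝 0) := by
      rw [tendsto_zero_iff_norm_tendsto_zero]
      have : (fun z : ℂ => ‖w / Complex.exp z‖) = (fun t : ℝ => ‖w‖ / Real.exp t) ∘ Complex.re := by
        funext z
        simp [Complex.norm_exp]
      rw [this]
      exact (Tendsto.div_atTop tendsto_const_nhds Real.tendsto_exp_atTop).comp tendsto_comap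
    have h3 := h1.sub h2
    rw [sub_zero] at h3
    have h4 := h3.eventually (Metric.ball_mem_nhds (1 : ℂ) one_pos)
    rw [eventually_comap] at h4
    obtain ⟨T, hT⟩ := h4.exists_forall_of_atTop
    refine ⟨max 0 (T - r), le_max_left _ _, fun x => ?_⟩
    have h5 := hT (r + max 0 (T - r)) (by have := le_max_right 0 (T - r); linarith)
      (((r + max 0 (T - r) : ℝ) : ℂ) + x * I) (by simp)
    have h6 : E (((r + max 0 (T - r) : ℝ) : ℂ) + x * I) /
        Complex.exp (((r + max 0 (T - r) : ℝ) : ℂ) + x * I)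
        - w / Complex.exp (((r + max 0 (T - r) : ℝ) : ℂ) + x * I) ∈ ball (1 : ℂ) 1 := h5
    rw [mem_ball, dist_eq_norm] at h6
    rw [sub_div]
    exact h6
  obtain ⟨t, ht, hfar⟩ := hfar
  have hrt : g / 2 < r + t := by linarith
  have hex : Wd (fun x : ℝ => Complex.exp ((r + t : ℝ) + x * I)) 1 :=
    ⟨fun x => ((r + t : ℝ) : ℂ) + x * I, by fun_prop, fun x => rfl, fun x => by push_cast; ring⟩
  have hq : Wd (fun x : ℝ => (lp E (r + t) x - w) / Complex.exp ((r + t : ℝ) + x * I)) 0 := by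
    refine wd_near_one ?_ ?_ hfar
    · exact ((hB.continuous_lp hrt).sub continuous_const).div (by fun_prop)
        (fun x => Complex.exp_ne_zero _)
    · intro x
      rw [hB.lp_per hrt]
      congr 1
      have : ((r + t : ℝ) : ℂ) + ((x + 2 * Real.pi : ℝ) : ℂ) * I
          = ((r + t : ℝ) : ℂ) + x * I + 2 * Real.pi * I := by push_cast; ring
      rw [this, Complex.exp_add, Complex.exp_two_pi_mul_I, mul_one]
  have hT : Wd (fun x => lp E (r + t) x - w) 1 := by
    have := hq.mul hex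
    rw [zero_add] at this
    refine this.congr (fun x => ?_)
    exact div_mul_cancel₀ _ (Complex.exp_ne_zero _)
  -- homotopy
  have := wd_homotopy (H := fun τ x => lp E (r + |τ|) x - w) (a := t) (k := 1)
    ((hB.continuous_lp2 hr).sub continuous_const) (fun τ x h => ?_) (fun τ x => ?_) ?_ 0
  · simpa using this
  · have h1 : lp E (r + |τ|) x = w := sub_eq_zero.1 h
    have h2 := hB.G_lp (r := r + |τ|) (by have := abs_nonneg τ; linarith) x
    rw [h1] at h2
    have := abs_nonneg τ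
    linarith
  · rw [hB.lp_per (by have := abs_nonneg τ; linarith)]
  · simp only [abs_of_nonneg ht]
    exact hT

end BD

/-- block (iii), (iv) -/
lemma wd_add (hB : BD c g th E) (hS : SQ c g th E s) (hU : IsPathConnected (Ug c g)) {r : ℝ}
    (hr : g / 2 < r) (hr' : r < g) {φ : ℂ → ℂ} (hφ : ContinuousOn φ (Ug c g))
    (hφU : MapsTo φ (Ug c g) (Ug c g)) (e : ℤ) {w : ℂ} (hw : w ∈ Ug c g) :
    Wd (fun x => sb s e (φ (lp E r x)) + sb s e (φ w)) 0 := by
  obtain ⟨l, hl, hls⟩ := hS.log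
  have hmem : ∀ x, lp E r x ∈ Ug c g := fun x => hB.lp_mem hr hr' x
  have hsb : ContinuousOn (sb s e) (Ug c g) := (hS.differentiableOn_sb' hB e).continuousOn
  have hcont : ContinuousOn (fun z => sb s e (φ z)) (Ug c g) := hsb.comp hφ hφU
  have hlp := hB.continuous_lp hr
  have hcl : Continuous fun x => sb s e (φ (lp E r x)) := hcont.comp_continuous hlp hmem
  have hne : ∀ z ∈ Ug c g, ∀ z' ∈ Ug c g, sb s e (φ z) + sb s e (φ z') ≠ 0 := fun z hz z' hz' =>
    hS.sb_add_ne (hB.Ug_ray (hφU hz)) (hB.Ug_ray (hφU hz')) e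
  -- the diagonal
  have hdiag : Wd (fun x => sb s e (φ (lp E r x)) + sb s e (φ (lp E r x))) 0 := by
    have h1 : Wd (fun x => Complex.exp (l (φ (lp E r x)))) 0 := by
      refine wd_of_periodic_log ?_ (fun x => by rw [hB.lp_per hr])
      exact (hl.comp hφ (fun z hz => hB.Ug_ray (hφU hz))).comp_continuous hlp hmem
    rcases sb_eq s e with h | h
    · refine ((wd_const (a := 2) (by norm_num)).mul h1).congr (fun x => ?_)
      rw [h, hls _ (hB.Ug_ray (hφU (hmem x)))]; ring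
    · refine ((wd_const (a := -2) (by norm_num)).mul h1).congr (fun x => ?_)
      rw [h, hls _ (hB.Ug_ray (hφU (hmem x)))]; ring
  have hsym := wd_symm (S := fun x y => sb s e (φ (lp E r x)) + sb s e (φ (lp E r y)))
    ((hcl.comp continuous_fst).add (hcl.comp continuous_snd))
    (fun x y => hne _ (hmem x) _ (hmem y)) (fun x y => add_comm _ _)
    (fun x y => by rw [hB.lp_per hr]) hdiag 0
  refine wd_pathConnected hU (H := fun w x => sb s e (φ (lp E r x)) + sb s e (φ w)) ?_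
    (fun w hw x => hne _ (hmem x) _ hw) (fun w hw x => by rw [hB.lp_per hr])
    (hmem 0) hw hsym
  refine ContinuousOn.add ?_ ?_
  · exact (hcl.comp continuous_snd).continuousOn
  · exact hcont.comp continuousOn_fst (fun p hp => hp.1)

/-- block (iii): induction over the length of the word -/
lemma wd_gc_sub (hB : BD c g th E) (hS : SQ c g th E s) (hU : IsPathConnected (Ug c g)) {r : ℝ}
    (hr : g / 2 < r) (hr' : r < g) (M : ℕ) (w : ℕ → ℤ) {y : ℂ} (hy : G c y < r) :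
    Wd (fun x => gc s w M (lp E r x) - gc s w M y) 1 := by
  have hyU : y ∈ Ug c g := lt_trans hy hr'
  induction M generalizing w with
  | zero => exact hB.wd_sub hr hy
  | succ M ih =>
    have h1 := ih (fun i => w (i + 1))
    have h2 := wd_add hB hS hU hr hr' (φ := gc s (fun i => w (i + 1)) M)
      (differentiableOn_gc hB hS _ _).continuousOn (gc_mapsTo hB hS _ _) (w 0) hyU
    have h3 : Wd (fun x => gc s w (M + 1) (lp E r x) - gc s w (M + 1) y) (1 - 0) := by
      refine Wd.of_mul (w := fun x => sb s (w 0) (gc s (fun i => w (i + 1)) M (lp E r x))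
        + sb s (w 0) (gc s (fun i => w (i + 1)) M y)) (h1.congr (fun x => ?_)) h2
      rw [gc_succ', gc_succ']
      have ha := hS.sq _ (hB.Ug_ray (gc_mem hB hS (fun i => w (i + 1)) M (hB.lp_mem hr hr' x)))
      have hb := hS.sq _ (hB.Ug_ray (gc_mem hB hS (fun i => w (i + 1)) M hyU))
      have ha' := sb_sq s (w 0) (gc s (fun i => w (i + 1)) M (lp E r x))
      have hb' := sb_sq s (w 0) (gc s (fun i => w (i + 1)) M y)
      linear_combination (-1 : ℂ) * ha + hb - ha' + hb'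
    simpa using h3

/-- **the winding number of `V_m = h ∘ g_m ∘ E` is one** -/
theorem wd_V (hB : BD c g th E) (hS : SQ c g th E s) (hU : IsPathConnected (Ug c g))
    {w : ℕ → ℤ} {n : ℕ} (hn : 1 ≤ n) (hw : ∀ i, w (i + n) = w i) {b ρ : ℂ} {h : ℂ → ℂ}
    (hK : KD c g s w n b ρ h) {r : ℝ} (hr : g / 2 < r) (hr' : r < g) (m : ℕ) :
    Wd (fun x => h (gc s w m (lp E r x))) 1 := by
  obtain ⟨k, q, hq, hq1, hform⟩ := hK.form
  obtain ⟨b', hb'U, hb'0, hb'⟩ := exists_pre hB hS hn hw hK.b_mem hK.fix (n * k + m)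
  have hlp := hB.continuous_lp hr
  have hmem : ∀ x, lp E r x ∈ Ug c g := fun x => hB.lp_mem hr hr' x
  have h1 := wd_gc_sub hB hS hU hr hr' (n * k + m) w (y := b')
    (by rw [hb'0]; linarith [hB.pos])
  rw [hb'] at h1
  have h2 : Wd (fun x => q (gc s w m (lp E r x))) 0 := by
    refine wd_near_one ?_ (fun x => by rw [hB.lp_per hr]) (fun x => hq1 _ (gc_mem hB hS w m (hmem x)))
    exact (hq.comp (differentiableOn_gc hB hS w m).continuousOn
      (gc_mapsTo hB hS w m)).comp_continuous hlp hmem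
  have hρ : ρ ≠ 0 := by
    intro h0
    have := hK.one_lt
    rw [h0, norm_zero] at this
    linarith
  have h3 := ((wd_const (pow_ne_zero k hρ)).mul h1).mul h2
  simp only [zero_add, add_zero] at h3
  refine h3.congr (fun x => ?_)
  rw [hform _ (gc_mem hB hS w m (hmem x)), gc_per hw]

end Pool.Agent.Work.MLC
end

section
set_option autoImplicit false

/-! # Logarithms of `V_m = h ∘ g_m ∘ E` and their links  (helper14) -/

namespace Pool.Agent.Work.MLC

open Filter Topology Metric Set Complex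

variable {c : ℂ} {g th : ℝ} {E s h : ℂ → ℂ} {w : ℕ → ℤ} {n : ℕ} {b ρ : ℂ}

/-- the strip `g / 2 < Re < g` -/
def Rs (g : ℝ) : Set ℂ := {z | g / 2 < z.re ∧ z.re < g}

/-- the sheets of the slit annulus -/
def Qs (g th : ℝ) (j : ℤ) : Set ℂ :=
  {z | g / 2 < z.re ∧ z.re < 2 * g ∧ th + j * (2 * Real.pi) < z.im ∧
    z.im < th + (j + 1) * (2 * Real.pi)}

/-- the half strips of the branch `e` -/
def Hs (g th : ℝ) (e k : ℤ) : Set ℂ :=
  {z | g / 2 < z.re ∧ z.re < g ∧ th / 2 + e * Real.pi + k * (2 * Real.pi) < z.im ∧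
    z.im < th / 2 + (e + 1) * Real.pi + k * (2 * Real.pi)}

/-- the function `V_m` -/
noncomputable def Vf (E s h : ℂ → ℂ) (w : ℕ → ℤ) (m : ℕ) (z : ℂ) : ℂ := h (gc s w m (E z))

lemma isOpen_Rs (g : ℝ) : IsOpen (Rs g) :=
  (isOpen_lt continuous_const Complex.continuous_re).inter
    (isOpen_lt Complex.continuous_re continuous_const)

lemma convex_Rs (g : ℝ) : Convex ℝ (Rs g) :=
  (convex_halfSpace_re_gt _).inter (convex_halfSpace_re_lt _)

lemma isOpen_Qs (g th : ℝ) (j : ℤ) : IsOpen (Qs g th j) :=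
  (isOpen_lt continuous_const Complex.continuous_re).inter
    ((isOpen_lt Complex.continuous_re continuous_const).inter
      ((isOpen_lt continuous_const Complex.continuous_im).inter
        (isOpen_lt Complex.continuous_im continuous_const)))

lemma convex_Qs (g th : ℝ) (j : ℤ) : Convex ℝ (Qs g th j) :=
  (convex_halfSpace_re_gt _).inter ((convex_halfSpace_re_lt _).inter
    ((convex_halfSpace_im_gt _).inter (convex_halfSpace_im_lt _)))

lemma convex_Hs (g th : ℝ) (e k : ℤ) : Convex ℝ (Hs g th e k) :=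
  (convex_halfSpace_re_gt _).inter ((convex_halfSpace_re_lt _).inter
    ((convex_halfSpace_im_gt _).inter (convex_halfSpace_im_lt _)))

lemma Hs_sub (g th : ℝ) (e k : ℤ) : Hs g th e k ⊆ Rs g := fun _ hz => ⟨hz.1, hz.2.1⟩

lemma Hs_to_Qs {e k : ℤ} {z : ℂ} (hg : 0 < g) (hz : z ∈ Hs g th e k) :
    2 * z - k * (2 * Real.pi * I) ∈ Qs g th (e + k) := by
  obtain ⟨h1, h2, h3, h4⟩ := hz
  refine ⟨?_, ?_, ?_, ?_⟩
  · simp; linarith
  · simp; linarith
  · simp; linarith
  · simp; linarith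

lemma Hs_shift {e k : ℤ} {z : ℂ} (hz : z ∈ Hs g th e k) (j : ℤ) :
    z + j * (2 * Real.pi * I) ∈ Hs g th e (k + j) := by
  obtain ⟨h1, h2, h3, h4⟩ := hz
  refine ⟨?_, ?_, ?_, ?_⟩
  · simpa using h1
  · simpa using h2
  · simp; linarith
  · simp; linarith

lemma Rs_shift {z : ℂ} (hz : z ∈ Rs g) (j : ℤ) : z + j * (2 * Real.pi * I) ∈ Rs g := by
  obtain ⟨h1, h2⟩ := hz
  exact ⟨by simpa using h1, by simpa using h2⟩

lemma Qs_shift {z : ℂ} {i : ℤ} (hz : z ∈ Qs g th i) (j : ℤ) :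
    z + j * (2 * Real.pi * I) ∈ Qs g th (i + j) := by
  obtain ⟨h1, h2, h3, h4⟩ := hz
  refine ⟨?_, ?_, ?_, ?_⟩
  · simpa using h1
  · simpa using h2
  · simp; linarith
  · simp; linarith

lemma Qs_notMem_ray (hB : BD c g th E) {j : ℤ} {z : ℂ} (hz : z ∈ Qs g th j) :
    E z ∉ ray E g th := by
  refine hB.E_ne_ray hz.1 (fun k hk => ?_)
  obtain ⟨_, _, h3, h4⟩ := hz
  rw [hk] at h3 h4
  have hpi : (0 : ℝ) < 2 * Real.pi := by positivity
  have h5 : (j : ℝ) < k := by
    by_contra hcon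
    have : (k : ℝ) ≤ j := not_lt.1 hcon
    nlinarith
  have h6 : (k : ℝ) < j + 1 := by
    by_contra hcon
    have : (j : ℝ) + 1 ≤ k := not_lt.1 hcon
    nlinarith
  have h7 : j < k := by exact_mod_cast h5
  have h8 : k < j + 1 := by exact_mod_cast h6
  omega

lemma E_mem_of_Rs (hB : BD c g th E) {z : ℂ} (hz : z ∈ Rs g) : E z ∈ Ug c g :=
  hB.E_mem hz.1 hz.2

lemma sb_E_mem_of_Qs (hB : BD c g th E) (hS : SQ c g th E s) {j : ℤ} {z : ℂ}
    (hz : z ∈ Qs g th j) (e : ℤ) : sb s e (E z) ∈ Ug c g :=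
  hS.sb_mem' (Qs_notMem_ray hB hz) (by rw [hB.G_E z hz.1]; exact hz.2.1) e

lemma h_ne_zero (hK : KD c g s w n b ρ h) (hB : BD c g th E) (hS : SQ c g th E s) (hn : 1 ≤ n)
    {z : ℂ} (hz : z ∈ Ug c g) (hG : 0 < G c z) : h z ≠ 0 := by
  intro h0
  have h1 : z = b := hK.inj hz hK.b_mem (by rw [h0, hK.zero])
  rw [h1, G_fix hB hS hn hK.b_mem hK.fix] at hG
  exact lt_irrefl _ hG

lemma Vf_ne_zero_Rs (hB : BD c g th E) (hS : SQ c g th E s) (hK : KD c g s w n b ρ h)
    (hn : 1 ≤ n) (m : ℕ) {z : ℂ} (hz : z ∈ Rs g) : Vf E s h w m z ≠ 0 := by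
  refine h_ne_zero hK hB hS hn (gc_mem hB hS w m (E_mem_of_Rs hB hz)) ?_
  rw [G_gc hB hS w m (E_mem_of_Rs hB hz), hB.G_E z hz.1]
  have h1 := hB.pos
  have h2 := hz.1
  have h3 : 0 < z.re := by linarith
  positivity

lemma Vf_ne_zero_Qs (hB : BD c g th E) (hS : SQ c g th E s) (hK : KD c g s w n b ρ h)
    (hn : 1 ≤ n) (m : ℕ) {j : ℤ} {z : ℂ} (hz : z ∈ Qs g th j) : Vf E s h w (m + 1) z ≠ 0 := by
  have hmem := sb_E_mem_of_Qs hB hS hz (w m)
  refine h_ne_zero hK hB hS hn (z := gc s w m (sb s (w m) (E z))) (gc_mem hB hS w m hmem) ?_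
  rw [G_gc hB hS w m hmem, hS.G_sb (Qs_notMem_ray hB hz), hB.G_E z hz.1]
  have h1 := hB.pos
  have h2 := hz.1
  have h3 : 0 < z.re := by linarith
  positivity

lemma differentiableOn_Vf_Rs (hB : BD c g th E) (hS : SQ c g th E s) (hK : KD c g s w n b ρ h)
    (m : ℕ) : DifferentiableOn ℂ (Vf E s h w m) (Rs g) := by
  refine hK.hol.comp (t := Ug c g) ?_ (fun z hz => gc_mem hB hS w m (E_mem_of_Rs hB hz))
  exact (differentiableOn_gc hB hS w m).comp (hB.hol.mono (fun z hz => hz.1))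
    (fun z hz => E_mem_of_Rs hB hz)

lemma differentiableOn_Vf_Qs (hB : BD c g th E) (hS : SQ c g th E s) (hK : KD c g s w n b ρ h)
    (m : ℕ) (j : ℤ) : DifferentiableOn ℂ (Vf E s h w (m + 1)) (Qs g th j) := by
  refine hK.hol.comp (t := Ug c g) (f := fun z => gc s w m (sb s (w m) (E z))) ?_
    (fun z hz => gc_mem hB hS w m (sb_E_mem_of_Qs hB hS hz _))
  refine (differentiableOn_gc hB hS w m).comp (t := Ug c g) (f := fun z => sb s (w m) (E z)) ?_
    (fun z hz => sb_E_mem_of_Qs hB hS hz _)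
  exact (hS.differentiableOn_sb (w m)).comp (hB.hol.mono (fun z hz => hz.1))
    (fun z hz => Qs_notMem_ray hB hz)

/-- block (S) for `V`: `V_m z = V_{m+1} (2 z - 2 π i k)` -/
lemma Vf_link (hB : BD c g th E) (hS : SQ c g th E s) (m : ℕ) {k : ℤ} {z : ℂ}
    (hz : z ∈ Hs g th (w m) k) :
    Vf E s h w (m + 1) (2 * z - k * (2 * Real.pi * I)) = Vf E s h w m z := by
  unfold Vf
  have h1 : E (2 * z - k * (2 * Real.pi * I)) = E (2 * z) := by
    have hp := hB.pos
    have := hB.per_int (z := 2 * z) (by have := hz.1; simp; linarith) (-k)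
    rw [← this]
    congr 1
    push_cast; ring
  rw [h1, gc_succ]
  rw [SQ.sb_E hB hS hz.1 (w m) k hz.2.2.1 hz.2.2.2]

/-- `F` is a continuous logarithm of `V` on the strip `R`, increasing by `2 π i` over a period. -/
structure LogR (g : ℝ) (V F : ℂ → ℂ) : Prop where
  cont : ContinuousOn F (Rs g)
  exp : ∀ z ∈ Rs g, Complex.exp (F z) = V z
  per : ∀ z ∈ Rs g, ∀ k : ℤ, F (z + k * (2 * Real.pi * I)) = F z + k * (2 * Real.pi * I)

/-- `F` (logarithm of `V_m`) is linked to `F'` (logarithm of `V_{m+1} = V'`) through the branch `e`. -/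
def Link (g th : ℝ) (V' : ℂ → ℂ) (e : ℤ) (F F' : ℂ → ℂ) : Prop :=
  ∀ k : ℤ, ∃ Φ : ℂ → ℂ, ContinuousOn Φ (Qs g th (e + k)) ∧
    (∀ z ∈ Qs g th (e + k), Complex.exp (Φ z) = V' z) ∧
    (∀ z ∈ Qs g th (e + k), z ∈ Rs g → Φ z = F' z) ∧
    ∀ z ∈ Hs g th e k, Φ (2 * z - k * (2 * Real.pi * I)) = F z

lemma exists_LogR (hB : BD c g th E) (hS : SQ c g th E s) (hU : IsPathConnected (Ug c g))
    (hn : 1 ≤ n) (hw : ∀ i, w (i + n) = w i) (hK : KD c g s w n b ρ h) (m : ℕ) :
    ∃ F, LogR g (Vf E s h w m) F := by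
  have hp := hB.pos
  obtain ⟨F, hF, hF'⟩ := exists_log_on (convex_Rs g) (isOpen_Rs g)
    (differentiableOn_Vf_Rs hB hS hK m).continuousOn (fun z hz => Vf_ne_zero_Rs hB hS hK hn m hz)
  refine ⟨F, hF, hF', ?_⟩
  -- the increment is constant
  obtain ⟨j, hj⟩ := const_of_exp_eq_one_on (convex_Rs g).isPreconnected
    (D := fun z => F (z + 2 * Real.pi * I) - F z)
    ((hF.comp (by fun_prop) (fun z hz => by simpa using Rs_shift hz 1)).sub hF) (fun z hz => by
      have h1 : z + 2 * Real.pi * I ∈ Rs g := by simpa using Rs_shift hz 1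
      rw [Complex.exp_sub, hF' _ h1, hF' z hz]
      unfold Vf
      rw [hB.per z hz.1]
      exact div_self (Vf_ne_zero_Rs hB hS hK hn m hz))
  have hr : g / 2 < 3 * g / 4 := by linarith
  have hr' : 3 * g / 4 < g := by linarith
  have hmem : ∀ x : ℝ, (((3 * g / 4 : ℝ) : ℂ) + x * I) ∈ Rs g := fun x => by
    constructor
    · simpa using hr
    · simpa using hr'
  have hwd := wd_V hB hS hU hn hw hK hr hr' m
  have h1 : Wd (fun x => h (gc s w m (lp E (3 * g / 4) x))) j := by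
    refine ⟨fun x => F (((3 * g / 4 : ℝ) : ℂ) + x * I), ?_, fun x => hF' _ (hmem x), fun x => ?_⟩
    · exact hF.comp_continuous (by fun_prop) hmem
    · have h2 := hj _ (hmem x)
      rw [← h2]
      have h3 : (((3 * g / 4 : ℝ) : ℂ) + ((x + 2 * Real.pi : ℝ) : ℂ) * I)
        = (((3 * g / 4 : ℝ) : ℂ) + x * I) + 2 * Real.pi * I := by push_cast; ring
      show F (((3 * g / 4 : ℝ) : ℂ) + ((x + 2 * Real.pi : ℝ) : ℂ) * I) = F (((3 * g / 4 : ℝ) : ℂ) + x * I) + _
      rw [h3]; ring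
  have hj1 : j = 1 := wd_unique h1 hwd
  subst hj1
  have h1 : ∀ z ∈ Rs g, F (z + 2 * Real.pi * I) = F z + 2 * Real.pi * I := fun z hz => by
    have := hj z hz
    simp only [Int.cast_one, one_mul] at this
    linear_combination this
  intro z hz k
  induction k using Int.induction_on with
  | zero => simp
  | succ k ih =>
    have h2 := h1 _ (Rs_shift hz (k : ℤ))
    rw [ih] at h2
    have h3 : z + ((k : ℤ) : ℂ) * (2 * Real.pi * I) + 2 * Real.pi * I
      = z + (((k : ℤ) + 1 : ℤ) : ℂ) * (2 * Real.pi * I) := by push_cast; ring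
    rw [← h3, h2]; push_cast; ring
  | pred k ih =>
    have h2 := h1 _ (Rs_shift hz (-(k : ℤ) - 1))
    have h3 : z + ((-(k : ℤ) - 1 : ℤ) : ℂ) * (2 * Real.pi * I) + 2 * Real.pi * I
      = z + ((-(k : ℤ) : ℤ) : ℂ) * (2 * Real.pi * I) := by push_cast; ring
    rw [h3, ih] at h2
    have h4 : F (z + ((-(k : ℤ) - 1 : ℤ) : ℂ) * (2 * Real.pi * I))
      = F z + ((-(k : ℤ) : ℤ) : ℂ) * (2 * Real.pi * I) - 2 * Real.pi * I := by
      rw [h2]; ring
    rw [h4]; push_cast; ring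

lemma LogR.add_const {V F : ℂ → ℂ} (hF : LogR g V F) (j : ℤ) :
    LogR g V (fun z => F z + j * (2 * Real.pi * I)) := by
  refine ⟨hF.cont.add continuousOn_const, fun z hz => ?_, fun z hz k => ?_⟩
  · rw [Complex.exp_add, hF.exp z hz, Complex.exp_int_mul_two_pi_mul_I, mul_one]
  · rw [hF.per z hz k]; ring

lemma nonempty_Hs (hg : 0 < g) (e k : ℤ) :
    (((3 * g / 4 : ℝ) : ℂ) + ((th / 2 + e * Real.pi + k * (2 * Real.pi) + Real.pi / 2 : ℝ) : ℂ) * I)
      ∈ Hs g th e k := by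
  have hpi := Real.pi_pos
  refine ⟨?_, ?_, ?_, ?_⟩
  · simp; linarith
  · simp; linarith
  · simp; linarith
  · simp; linarith

/-- existence of the linked logarithm -/
lemma exists_Link (hB : BD c g th E) (hS : SQ c g th E s) (hU : IsPathConnected (Ug c g))
    (hn : 1 ≤ n) (hw : ∀ i, w (i + n) = w i) (hK : KD c g s w n b ρ h) (m : ℕ) {F : ℂ → ℂ}
    (hF : LogR g (Vf E s h w m) F) :
    ∃ F', LogR g (Vf E s h w (m + 1)) F' ∧ Link g th (Vf E s h w (m + 1)) (w m) F F' := by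
  have hp := hB.pos
  obtain ⟨F₁, hF₁⟩ := exists_LogR hB hS hU hn hw hK (m + 1)
  -- continuation of `F₁` to the sheets
  have hcont : ∀ j : ℤ, ∃ Φ : ℂ → ℂ, ContinuousOn Φ (Qs g th j) ∧
      (∀ z ∈ Qs g th j, Complex.exp (Φ z) = Vf E s h w (m + 1) z) ∧
      ∀ z ∈ Qs g th j, z ∈ Rs g → Φ z = F₁ z := by
    intro j
    obtain ⟨Φ, h1, h2⟩ := exists_log_on (convex_Qs g th j) (isOpen_Qs g th j)
      (differentiableOn_Vf_Qs hB hS hK m j).continuousOn
      (fun z hz => Vf_ne_zero_Qs hB hS hK hn m hz)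
    obtain ⟨a, ha⟩ := log_unique_on ((convex_Qs g th j).inter (convex_Rs g)).isPreconnected
      (hF₁.cont.mono inter_subset_right) (h1.mono inter_subset_left)
      (fun z hz => by rw [hF₁.exp z hz.2, h2 z hz.1])
    refine ⟨fun z => Φ z + a * (2 * Real.pi * I), h1.add continuousOn_const, fun z hz => ?_,
      fun z hz hz' => (ha z ⟨hz, hz'⟩).symm⟩
    rw [Complex.exp_add, h2 z hz, Complex.exp_int_mul_two_pi_mul_I, mul_one]
  choose Φ hΦ1 hΦ2 hΦ3 using hcont
  -- periodicity of the continuations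
  have hΦper : ∀ i j : ℤ, ∀ z ∈ Qs g th i, Φ (i + j) (z + j * (2 * Real.pi * I)) =
      Φ i z + j * (2 * Real.pi * I) := by
    intro i j
    obtain ⟨a, ha⟩ := log_unique_on (convex_Qs g th i).isPreconnected
      (F := fun z => Φ (i + j) (z + j * (2 * Real.pi * I)))
      (F' := fun z => Φ i z + j * (2 * Real.pi * I))
      ((hΦ1 (i + j)).comp (by fun_prop) (fun z hz => Qs_shift hz j))
      ((hΦ1 i).add continuousOn_const) (fun z hz => by
        rw [hΦ2 _ _ (Qs_shift hz j), Complex.exp_add, hΦ2 _ _ hz,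
          Complex.exp_int_mul_two_pi_mul_I, mul_one]
        unfold Vf
        rw [hB.per_int hz.1])
    -- evaluate at a point of the strip
    have hpi := Real.pi_pos
    set z₀ : ℂ := ((3 * g / 4 : ℝ) : ℂ) + ((th + i * (2 * Real.pi) + Real.pi : ℝ) : ℂ) * I with hz₀
    have hz₀Q : z₀ ∈ Qs g th i := by
      refine ⟨?_, ?_, ?_, ?_⟩
      · rw [hz₀]; simp; linarith
      · rw [hz₀]; simp; linarith
      · rw [hz₀]; simp; linarith
      · rw [hz₀]; simp; linarith
    have hz₀R : z₀ ∈ Rs g := by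
      refine ⟨?_, ?_⟩
      · rw [hz₀]; simp; linarith
      · rw [hz₀]; simp; linarith
    have h1 := ha z₀ hz₀Q
    rw [hΦ3 _ _ (Qs_shift hz₀Q j) (Rs_shift hz₀R j), hF₁.per _ hz₀R, hΦ3 _ _ hz₀Q hz₀R] at h1
    have h2 : (a : ℂ) * (2 * Real.pi * I) = 0 := by linear_combination -h1
    intro z hz
    have h3 := ha z hz
    rw [h3, h2, add_zero]
  -- the constant for `k = 0`
  have hdiff : ∀ k : ℤ, ∃ a : ℤ, ∀ z ∈ Hs g th (w m) k,
      F z = Φ (w m + k) (2 * z - k * (2 * Real.pi * I)) + a * (2 * Real.pi * I) := by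
    intro k
    exact log_unique_on (convex_Hs g th (w m) k).isPreconnected
      (hF.cont.mono (Hs_sub _ _ _ _))
      ((hΦ1 (w m + k)).comp (by fun_prop) (fun z hz => Hs_to_Qs hp hz)) (fun z hz => by
        rw [hF.exp z (Hs_sub _ _ _ _ hz), hΦ2 _ _ (Hs_to_Qs hp hz), Vf_link hB hS m hz])
  choose a ha using hdiff
  have haconst : ∀ k : ℤ, (a k : ℂ) * (2 * Real.pi * I) = a 0 * (2 * Real.pi * I) := by
    intro k
    have hz := nonempty_Hs (th := th) hp (w m) 0
    set z : ℂ := (((3 * g / 4 : ℝ) : ℂ) +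
      ((th / 2 + (w m) * Real.pi + (0 : ℤ) * (2 * Real.pi) + Real.pi / 2 : ℝ) : ℂ) * I) with hzdef
    have h1 := ha 0 z hz
    have h2 := ha k (z + k * (2 * Real.pi * I)) (by simpa using Hs_shift hz k)
    rw [hF.per z (Hs_sub _ _ _ _ hz)] at h2
    have h3 : 2 * (z + k * (2 * Real.pi * I)) - k * (2 * Real.pi * I)
      = (2 * z - (0 : ℤ) * (2 * Real.pi * I)) + k * (2 * Real.pi * I) := by push_cast; ring
    have h4 : 2 * z - (0 : ℤ) * (2 * Real.pi * I) ∈ Qs g th (w m) := by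
      simpa using Hs_to_Qs hp hz
    rw [h3, hΦper (w m) k _ h4] at h2
    rw [add_zero] at h1
    linear_combination h1 - h2
  refine ⟨fun z => F₁ z + a 0 * (2 * Real.pi * I), hF₁.add_const (a 0), fun k => ?_⟩
  refine ⟨fun z => Φ (w m + k) z + a 0 * (2 * Real.pi * I), (hΦ1 _).add continuousOn_const,
    fun z hz => ?_, fun z hz hz' => ?_, fun z hz => ?_⟩
  · rw [Complex.exp_add, hΦ2 _ z hz, Complex.exp_int_mul_two_pi_mul_I, mul_one]
  · simp only [hΦ3 _ z hz hz']
  · rw [ha k z hz, haconst k]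

/-- uniqueness of the linked logarithm -/
lemma Link.unique (hg : 0 < g) {V' : ℂ → ℂ} {e : ℤ} {F F₁ F₂ : ℂ → ℂ}
    (h1 : Link g th V' e F F₁) (h2 : Link g th V' e F F₂) (hl1 : LogR g V' F₁)
    (hl2 : LogR g V' F₂) : ∀ z ∈ Rs g, F₁ z = F₂ z := by
  have hpi := Real.pi_pos
  obtain ⟨Φ₁, a1, a2, a3, a4⟩ := h1 0
  obtain ⟨Φ₂, b1, b2, b3, b4⟩ := h2 0
  obtain ⟨i, hi⟩ := log_unique_on (convex_Qs g th (e + 0)).isPreconnected a1 b1
    (fun z hz => by rw [a2 z hz, b2 z hz])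
  have hz := nonempty_Hs (th := th) hg e 0
  have h3 := hi _ (Hs_to_Qs hg hz)
  rw [a4 _ hz, b4 _ hz] at h3
  have h4 : (i : ℂ) * (2 * Real.pi * I) = 0 := by linear_combination -h3
  obtain ⟨j, hj⟩ := log_unique_on (convex_Rs g).isPreconnected hl1.cont hl2.cont
    (fun z hz => by rw [hl1.exp z hz, hl2.exp z hz])
  set z₀ : ℂ := ((3 * g / 4 : ℝ) : ℂ) + ((th + e * (2 * Real.pi) + Real.pi : ℝ) : ℂ) * I with hz₀
  have hz₀Q : z₀ ∈ Qs g th (e + 0) := by
    rw [add_zero]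
    refine ⟨?_, ?_, ?_, ?_⟩
    · rw [hz₀]; simp; linarith
    · rw [hz₀]; simp; linarith
    · rw [hz₀]; simp; linarith
    · rw [hz₀]; simp; linarith
  have hz₀R : z₀ ∈ Rs g := by
    refine ⟨?_, ?_⟩
    · rw [hz₀]; simp; linarith
    · rw [hz₀]; simp; linarith
  have h5 := hi _ hz₀Q
  rw [a3 _ hz₀Q hz₀R, b3 _ hz₀Q hz₀R, h4, add_zero] at h5
  have h6 := hj _ hz₀R
  rw [h5] at h6
  have h7 : (j : ℂ) * (2 * Real.pi * I) = 0 := by linear_combination -h6
  intro z hz
  rw [hj z hz, h7, add_zero]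

end Pool.Agent.Work.MLC
end

section
/-! Harmonic kit and Montel. -/

set_option autoImplicit false

namespace Pool.Agent.Work.MP_78b16e_an

open Metric Filter Topology InnerProductSpace

theorem harmAt_iff {u : ℂ → ℝ} {z : ℂ} : HarmAt u z ↔ HarmonicAt u z := by
  constructor
  · rintro ⟨r, hr, e, he, hu⟩
    have hz : z ∈ ball z r := mem_ball_self hr
    have ha : AnalyticAt ℂ e z := (he.analyticOnNhd isOpen_ball) z hz
    refine (harmonicAt_congr_nhds ?_).2 ha.harmonicAt_re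
    filter_upwards [isOpen_ball.mem_nhds hz] with y hy using hu y hy
  · intro h
    obtain ⟨ε, h₁ε, h₂ε⟩ := Metric.isOpen_iff.1 (isOpen_setOfPred_harmonicAt (f := u)) z h
    obtain ⟨F, h₁F, h₂F⟩ := InnerProductSpace.HarmonicOnNhd.exists_analyticOnNhd_ball_re_eq
      (fun _ hy ↦ h₂ε hy)
    exact ⟨ε, h₁ε, F, h₁F.differentiableOn, fun y hy => (h₂F hy).symm⟩

theorem HarmAt.add {u v : ℂ → ℝ} {z : ℂ} (hu : HarmAt u z) (hv : HarmAt v z) :
    HarmAt (fun y => u y + v y) z :=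
  harmAt_iff.2 ((harmAt_iff.1 hu).add (harmAt_iff.1 hv))
theorem HarmAt.sub {u v : ℂ → ℝ} {z : ℂ} (hu : HarmAt u z) (hv : HarmAt v z) :
    HarmAt (fun y => u y - v y) z :=
  harmAt_iff.2 ((harmAt_iff.1 hu).sub (harmAt_iff.1 hv))
theorem HarmAt.neg {u : ℂ → ℝ} {z : ℂ} (hu : HarmAt u z) : HarmAt (fun y => - u y) z :=
  harmAt_iff.2 (harmAt_iff.1 hu).neg
theorem HarmAt.const_mul {u : ℂ → ℝ} {z : ℂ} (c : ℝ) (hu : HarmAt u z) :
    HarmAt (fun y => c * u y) z :=
  harmAt_iff.2 ((harmAt_iff.1 hu).const_smul (c := c))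
theorem HarmAt.congr {u v : ℂ → ℝ} {z : ℂ} (hu : HarmAt u z) (h : u =ᶠ[𝓝 z] v) :
    HarmAt v z :=
  harmAt_iff.2 ((harmonicAt_congr_nhds h).1 (harmAt_iff.1 hu))
theorem HarmAt.eventually {u : ℂ → ℝ} {z : ℂ} (hu : HarmAt u z) :
    ∀ᶠ y in 𝓝 z, HarmAt u y := by
  filter_upwards [(harmAt_iff.1 hu).eventually] with y hy using harmAt_iff.2 hy
theorem HarmAt.continuousAt {u : ℂ → ℝ} {z : ℂ} (hu : HarmAt u z) : ContinuousAt u z :=
  (harmAt_iff.1 hu).1.continuousAt
/-- real part of an analytic function -/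
theorem harmAt_re {e : ℂ → ℂ} {z : ℂ} (he : AnalyticAt ℂ e z) : HarmAt (fun y => (e y).re) z :=
  harmAt_iff.2 he.harmonicAt_re
/-- composition with an analytic function -/
theorem HarmAt.comp {u : ℂ → ℝ} {h : ℂ → ℂ} {z : ℂ} (hu : HarmAt u (h z))
    (hh : AnalyticAt ℂ h z) : HarmAt (fun y => u (h y)) z := by
  obtain ⟨r, hr, e, he, hue⟩ := hu
  have hz : h z ∈ ball (h z) r := mem_ball_self hr
  have ha : AnalyticAt ℂ e (h z) := (he.analyticOnNhd isOpen_ball) _ hz
  refine (harmAt_re (ha.comp hh)).congr ?_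
  filter_upwards [hh.continuousAt.preimage_mem_nhds (isOpen_ball.mem_nhds hz)] with y hy
  exact (hue (h y) hy).symm

end Pool.Agent.Work.MP_78b16e_an
end

section
/-! Koenigs linearisation in one variable, and a Taylor remainder lemma.  (owner: helper71) -/

set_option autoImplicit false

namespace Pool.Agent.Work.MP_78b16e_an

open Metric Filter Topology

/-- quadratic remainder of an analytic function vanishing at `0` -/
theorem quad_bound {k : ℂ → ℂ} (hk : AnalyticAt ℂ k 0) (hk0 : k 0 = 0) :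
    ∃ C > 0, ∃ r > 0, ∀ t ∈ ball (0 : ℂ) r, ‖k t - deriv k 0 * t‖ ≤ C * ‖t‖ ^ 2 := by
  obtain ⟨q, hq⟩ := hk
  have h1 := hq.isBigO_sub_partialSum_pow 2
  obtain ⟨C, hC, h2⟩ := h1.exists_pos
  obtain ⟨r, hr, h3⟩ := Metric.eventually_nhds_iff_ball.1 h2.bound
  refine ⟨C, hC, r, hr, fun t ht => ?_⟩
  have h4 := h3 t ht
  have h5 : q.partialSum 2 t = deriv k 0 * t := by
    rw [FormalMultilinearSeries.partialSum, Finset.sum_range_succ, Finset.sum_range_one]
    have h6 : q 0 (fun _ => t) = 0 := by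
      have := hq.coeff_zero (fun _ => t)
      rw [this, hk0]
    rw [h6, zero_add, q.apply_eq_pow_smul_coeff, hq.deriv, pow_one, smul_eq_mul, mul_comm]
    rfl
  rw [zero_add, h5] at h4
  simpa using h4

/-- the Koenigs function of an attracting germ -/
theorem koenigs_fun {k : ℂ → ℂ} (hk : AnalyticAt ℂ k 0) (hk0 : k 0 = 0) {μ : ℂ}
    (hμ : deriv k 0 = μ) (hμ0 : μ ≠ 0) (hμ1 : ‖μ‖ < 1) :
    ∃ Φ : ℂ → ℂ, AnalyticAt ℂ Φ 0 ∧ Φ 0 = 0 ∧ deriv Φ 0 = 1 ∧
      ∀ᶠ t in 𝓝 (0 : ℂ), Φ (k t) = μ * Φ t := by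
  have hμn : 0 < ‖μ‖ := norm_pos_iff.2 hμ0
  obtain ⟨C, hC, r₀, hr₀, hquad⟩ := quad_bound hk hk0
  rw [hμ] at hquad
  -- choose `s` with `|μ| < s < 1`, `s ^ 2 < |μ|`
  obtain ⟨s, hs1, hs2⟩ : ∃ s : ℝ, ‖μ‖ < s ∧ s ^ 2 < ‖μ‖ := by
    have h1 : Tendsto (fun x : ℝ => x ^ 2) (𝓝[>] ‖μ‖) (𝓝 (‖μ‖ ^ 2)) :=
      ((continuous_pow 2).tendsto _).mono_left nhdsWithin_le_nhds
    have h2 : ‖μ‖ ^ 2 < ‖μ‖ := by nlinarith
    obtain ⟨s, h3, h4⟩ := ((h1.eventually_lt_const h2).and self_mem_nhdsWithin).exists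
    exact ⟨s, h4, h3⟩
  have hspos : 0 < s := hμn.trans hs1
  have hs_lt : s < 1 := by nlinarith
  -- a ball on which `k` is an `s`-contraction towards `0`
  obtain ⟨r₁, hr₁, hball⟩ := Metric.eventually_nhds_iff_ball.1 hk.eventually_analyticAt
  set r := min (min r₀ r₁) ((s - ‖μ‖) / C) with hr
  have hrpos : 0 < r := lt_min (lt_min hr₀ hr₁) (div_pos (by linarith) hC)
  have hrr₀ : r ≤ r₀ := (min_le_left _ _).trans (min_le_left _ _)
  have hrr₁ : r ≤ r₁ := (min_le_left _ _).trans (min_le_right _ _)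
  have hrC : C * r ≤ s - ‖μ‖ := by
    have : r ≤ (s - ‖μ‖) / C := min_le_right _ _
    rw [le_div_iff₀ hC] at this
    linarith
  have hcontr : ∀ t ∈ ball (0 : ℂ) r, ‖k t‖ ≤ s * ‖t‖ := by
    intro t ht
    have h1 := hquad t (ball_subset_ball hrr₀ ht)
    rw [mem_ball_zero_iff] at ht
    calc ‖k t‖ ≤ ‖k t - μ * t‖ + ‖μ * t‖ := by simpa using norm_add_le (k t - μ * t) (μ * t)
      _ ≤ C * ‖t‖ ^ 2 + ‖μ‖ * ‖t‖ := by rw [norm_mul]; gcongr
      _ ≤ s * ‖t‖ := by
        have h2 : C * ‖t‖ ≤ s - ‖μ‖ := by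
          calc C * ‖t‖ ≤ C * r := by gcongr
            _ ≤ _ := hrC
        nlinarith [norm_nonneg t]
  have hiter : ∀ n : ℕ, ∀ t ∈ ball (0 : ℂ) r, k^[n] t ∈ ball (0 : ℂ) r ∧
      ‖k^[n] t‖ ≤ s ^ n * ‖t‖ := by
    intro n
    induction n with
    | zero => intro t ht; exact ⟨ht, by simp⟩
    | succ n ih =>
      intro t ht
      obtain ⟨h1, h2⟩ := ih t ht
      rw [Function.iterate_succ_apply']
      have h3 := hcontr _ h1
      refine ⟨?_, ?_⟩
      · rw [mem_ball_zero_iff] at h1 ⊢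
        calc ‖k (k^[n] t)‖ ≤ s * ‖k^[n] t‖ := h3
          _ ≤ 1 * ‖k^[n] t‖ := by gcongr
          _ < r := by rw [one_mul]; exact h1
      · calc ‖k (k^[n] t)‖ ≤ s * ‖k^[n] t‖ := h3
          _ ≤ s * (s ^ n * ‖t‖) := by gcongr
          _ = s ^ (n + 1) * ‖t‖ := by ring
  have hkd : DifferentiableOn ℂ k (ball 0 r) := fun t ht =>
    (hball t (ball_subset_ball hrr₁ ht)).differentiableAt.differentiableWithinAt
  have hkid : ∀ n : ℕ, DifferentiableOn ℂ (k^[n]) (ball 0 r) := by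
    intro n
    induction n with
    | zero => exact differentiableOn_id
    | succ n ih =>
      rw [Function.iterate_succ']
      exact hkd.comp ih fun t ht => (hiter n t ht).1
  -- the series
  set F : ℕ → ℂ → ℂ := fun n t => (μ ^ (n + 1))⁻¹ * (k^[n + 1] t - μ * k^[n] t) with hF
  have hFb : ∀ n : ℕ, ∀ t ∈ ball (0 : ℂ) r,
      ‖F n t‖ ≤ (C / ‖μ‖) * (s ^ 2 / ‖μ‖) ^ n * ‖t‖ ^ 2 := by
    intro n t ht
    obtain ⟨h1, h2⟩ := hiter n t ht
    have h3 := hquad _ (ball_subset_ball hrr₀ h1)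
    rw [hF]
    show ‖(μ ^ (n + 1))⁻¹ * (k^[n + 1] t - μ * k^[n] t)‖ ≤ _
    rw [Function.iterate_succ_apply', norm_mul, norm_inv, norm_pow]
    calc (‖μ‖ ^ (n + 1))⁻¹ * ‖k (k^[n] t) - μ * k^[n] t‖ ≤
        (‖μ‖ ^ (n + 1))⁻¹ * (C * (s ^ n * ‖t‖) ^ 2) := by
          gcongr
          exact h3.trans (by gcongr)
      _ = _ := by
          rw [div_pow, pow_succ]
          field_simp
          ring
  have hgeo : Summable fun n : ℕ => (C / ‖μ‖) * (s ^ 2 / ‖μ‖) ^ n * r ^ 2 := by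
    have h1 : s ^ 2 / ‖μ‖ < 1 := (div_lt_one hμn).2 hs2
    exact ((summable_geometric_of_lt_one (by positivity) h1).mul_left _).mul_right _
  have hgeo' : Summable fun n : ℕ => (C / ‖μ‖) * (s ^ 2 / ‖μ‖) ^ n := by
    have h1 : s ^ 2 / ‖μ‖ < 1 := (div_lt_one hμn).2 hs2
    exact (summable_geometric_of_lt_one (by positivity) h1).mul_left _
  have hFd : ∀ n, DifferentiableOn ℂ (F n) (ball 0 r) := fun n =>
    ((hkid (n + 1)).sub ((hkid n).const_mul μ)).const_mul _
  have hFs : ∀ t ∈ ball (0 : ℂ) r, Summable fun n => F n t := by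
    intro t ht
    refine Summable.of_norm_bounded hgeo fun n => (hFb n t ht).trans ?_
    rw [mem_ball_zero_iff] at ht
    gcongr
  set Φ : ℂ → ℂ := fun t => t + ∑' n, F n t with hΦ
  have hΦd : DifferentiableOn ℂ Φ (ball 0 r) := by
    refine differentiableOn_id.add
      (Complex.differentiableOn_tsum_of_summable_norm hgeo hFd isOpen_ball fun n t ht =>
        (hFb n t ht).trans ?_)
    rw [mem_ball_zero_iff] at ht
    gcongr
  -- partial sums
  have hpart : ∀ (N : ℕ) (t : ℂ), t + ∑ n ∈ Finset.range N, F n t = (μ ^ N)⁻¹ * k^[N] t := by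
    intro N t
    induction N with
    | zero => simp
    | succ N ih =>
      rw [Finset.sum_range_succ, ← add_assoc, ih]
      show (μ ^ N)⁻¹ * k^[N] t + (μ ^ (N + 1))⁻¹ * (k^[N + 1] t - μ * k^[N] t) = _
      rw [pow_succ]
      field_simp
      ring
  have hlim : ∀ t ∈ ball (0 : ℂ) r,
      Tendsto (fun N : ℕ => (μ ^ N)⁻¹ * k^[N] t) atTop (𝓝 (Φ t)) := by
    intro t ht
    have h1 := ((hFs t ht).hasSum.tendsto_sum_nat).const_add t
    exact h1.congr fun N => hpart N t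
  refine ⟨Φ, hΦd.analyticAt (isOpen_ball.mem_nhds (mem_ball_self hrpos)), ?_, ?_, ?_⟩
  · have h1 := hlim 0 (mem_ball_self hrpos)
    have h2 : ∀ N : ℕ, (μ ^ N)⁻¹ * k^[N] 0 = 0 := by
      intro N
      rw [Function.iterate_fixed hk0, mul_zero]
    exact tendsto_nhds_unique h1 (tendsto_const_nhds.congr fun N => (h2 N).symm)
  · -- derivative
    set M := ∑' n : ℕ, (C / ‖μ‖) * (s ^ 2 / ‖μ‖) ^ n with hM
    have hM0 : 0 ≤ M := tsum_nonneg fun n => by positivity
    have hbound : ∀ t ∈ ball (0 : ℂ) r, ‖Φ t - t‖ ≤ M * ‖t‖ ^ 2 := by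
      intro t ht
      have h1 : Φ t - t = ∑' n, F n t := by rw [hΦ]; ring
      rw [h1]
      calc ‖∑' n, F n t‖ ≤ ∑' n : ℕ, (C / ‖μ‖) * (s ^ 2 / ‖μ‖) ^ n * ‖t‖ ^ 2 :=
            tsum_of_norm_bounded (hgeo'.mul_right _).hasSum fun n => hFb n t ht
        _ = M * ‖t‖ ^ 2 := by rw [hM, tsum_mul_right]
    have h0 : Φ 0 = 0 := by
      have := hbound 0 (mem_ball_self hrpos)
      simpa using this
    have hder : HasDerivAt Φ 1 0 := by
      rw [hasDerivAt_iff_isLittleO]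
      have h1 : (fun t : ℂ => Φ t - Φ 0 - (t - 0) • (1 : ℂ)) =O[𝓝 0] fun t => ‖t‖ ^ 2 := by
        refine Asymptotics.IsBigO.of_bound M ?_
        filter_upwards [ball_mem_nhds (0 : ℂ) hrpos] with t ht
        rw [h0, sub_zero, sub_zero, smul_eq_mul, mul_one, norm_pow, norm_norm]
        exact hbound t ht
      refine h1.trans_isLittleO ?_
      rw [Asymptotics.isLittleO_iff]
      intro c hc
      filter_upwards [ball_mem_nhds (0 : ℂ) hc] with t ht
      rw [mem_ball_zero_iff] at ht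
      rw [norm_pow, norm_norm, sub_zero, pow_two]
      gcongr
    exact hder.deriv
  · filter_upwards [ball_mem_nhds (0 : ℂ) hrpos] with t ht
    have h1 := hlim _ (hiter 1 t ht).1
    rw [Function.iterate_one] at h1
    have h2 : Tendsto (fun N : ℕ => μ * ((μ ^ (N + 1))⁻¹ * k^[N + 1] t)) atTop
        (𝓝 (μ * Φ t)) := ((hlim t ht).comp (tendsto_add_atTop_nat 1)).const_mul μ
    refine tendsto_nhds_unique h1 (h2.congr fun N => ?_)
    rw [Function.iterate_succ_apply, pow_succ]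
    field_simp

end Pool.Agent.Work.MP_78b16e_an
end

section
/-!
# Koenigs map of an inverse branch on a bounded domain  (helper13, module P3 of the exterior PLY)

Abstract part: `U` open, preconnected, bounded, `K ⊆ U` compact, `F : U → K` holomorphic and
injective with a fixed point `b`.  Then `‖F' b‖ < 1`, `F^[k] → b` uniformly on `U`, and there is an
injective holomorphic `h` on `U` with `h (F z) = F' b * h z`.
-/

set_option autoImplicit false

namespace Pool.Agent.Work.MLC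

open Metric Filter Topology Set

/-- abstract data: a holomorphic self map of `U` with relatively compact image -/
structure PlySelf (U K : Set ℂ) (F : ℂ → ℂ) (b : ℂ) : Prop where
  openU : IsOpen U
  conn : IsPreconnected U
  bdd : Bornology.IsBounded U
  compK : IsCompact K
  sub : K ⊆ U
  maps : MapsTo F U K
  diff : DifferentiableOn ℂ F U
  inj : InjOn F U
  memb : b ∈ U
  fix : F b = b
  ne : deriv F b ≠ 0

namespace PlySelf

variable {U K : Set ℂ} {F : ℂ → ℂ} {b : ℂ}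

theorem mapsU (D : PlySelf U K F b) : MapsTo F U U := fun _ hz => D.sub (D.maps hz)

theorem iter_maps (D : PlySelf U K F b) (k : ℕ) : MapsTo F^[k] U U := D.mapsU.iterate k

theorem iter_fix (D : PlySelf U K F b) (k : ℕ) : F^[k] b = b := Function.iterate_fixed D.fix k

theorem iter_diff (D : PlySelf U K F b) (k : ℕ) : DifferentiableOn ℂ F^[k] U := by
  induction k with
  | zero => exact differentiableOn_id
  | succ k ih =>
    rw [Function.iterate_succ]
    exact ih.comp D.diff D.mapsU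

theorem iter_inj (D : PlySelf U K F b) (k : ℕ) : InjOn F^[k] U := by
  induction k with
  | zero => exact injOn_id _
  | succ k ih =>
    rw [Function.iterate_succ]
    exact ih.comp D.inj D.mapsU

theorem exists_bound (D : PlySelf U K F b) : ∃ M > 0, ∀ z ∈ U, ‖z‖ ≤ M := by
  obtain ⟨M, hM⟩ := D.bdd.exists_norm_le
  exact ⟨max M 1, by positivity, fun z hz => (hM z hz).trans (le_max_left _ _)⟩

theorem norm_deriv_lt_one (D : PlySelf U K F b) : ‖deriv F b‖ < 1 := by
  obtain ⟨M, hM0, hM⟩ := D.exists_bound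
  -- choose `d`
  obtain ⟨δ, hδ, hth⟩ := D.compK.exists_thickening_subset_open D.openU D.sub
  set d : ℝ := δ / (4 * M) with hd
  have hd0 : 0 < d := by positivity
  set T : ℂ → ℂ := fun z => b + (1 + d) * (F z - b) with hT
  have hTm : MapsTo T U U := by
    intro z hz
    apply hth
    rw [mem_thickening_iff]
    refine ⟨F z, D.maps hz, ?_⟩
    rw [dist_eq_norm]
    have h1 : T z - F z = d * (F z - b) := by simp only [hT]; ring
    rw [h1, norm_mul, Complex.norm_real, Real.norm_of_nonneg hd0.le]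
    have h2 : ‖F z - b‖ ≤ 2 * M := by
      refine (norm_sub_le _ _).trans ?_
      have := hM _ (D.mapsU hz)
      have := hM _ D.memb
      linarith
    have h3 : d * ‖F z - b‖ ≤ d * (2 * M) := by gcongr
    have h4 : d * (2 * M) = δ / 2 := by rw [hd]; field_simp; ring
    linarith
  have hTd : DifferentiableOn ℂ T U :=
    ((D.diff.sub (differentiableOn_const _)).const_mul _).const_add _
  have hTb : T b = b := by simp only [hT]; rw [D.fix]; ring
  have hUb : U ∈ 𝓝 b := D.openU.mem_nhds D.memb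
  have hTder : HasDerivAt T ((1 + d) * deriv F b) b := by
    have h1 : HasDerivAt F (deriv F b) b := (D.diff.differentiableAt hUb).hasDerivAt
    exact ((h1.sub_const b).const_mul (1 + (d : ℂ))).const_add b
  have hit : ∀ k : ℕ, HasDerivAt T^[k] (((1 + d) * deriv F b) ^ k) b := by
    intro k
    exact HasDerivAt.iterate b hTder hTb k
  have hTk : ∀ k : ℕ, DifferentiableOn ℂ T^[k] U := by
    intro k
    induction k with
    | zero => exact differentiableOn_id
    | succ k ih => rw [Function.iterate_succ]; exact ih.comp hTd hTm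
  obtain ⟨r, hr, hrU⟩ := Metric.nhds_basis_closedBall.mem_iff.1 hUb
  have hbd : ∀ k : ℕ, ‖((1 + d) * deriv F b)‖ ^ k ≤ M / r := by
    intro k
    rw [← norm_pow, ← (hit k).deriv]
    refine Complex.norm_deriv_le_of_forall_mem_sphere_norm_le hr ?_ fun z hz => ?_
    · refine ((hTk k).mono ?_).diffContOnCl_ball (U := U) ?_
      · exact subset_rfl
      · exact hrU
    · exact hM _ (hTm.iterate k (hrU (sphere_subset_closedBall hz)))
  have hle : ‖((1 + d) * deriv F b)‖ ≤ 1 := by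
    by_contra hcon
    push Not at hcon
    obtain ⟨k, hk⟩ := pow_unbounded_of_one_lt (M / r) hcon
    exact absurd (hbd k) (not_le.2 hk)
  rw [norm_mul] at hle
  have h5 : ‖(1 + (d : ℂ))‖ = 1 + d := by
    rw [← Complex.ofReal_one, ← Complex.ofReal_add, Complex.norm_real,
      Real.norm_of_nonneg (by positivity)]
  rw [h5] at hle
  by_contra hcon
  push Not at hcon
  nlinarith [norm_nonneg (deriv F b)]

/-- near `b` the map contracts towards `b` -/
theorem exists_contract (D : PlySelf U K F b) (r : ℝ) (hr : 0 < r) :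
    ∃ q < 1, 0 ≤ q ∧ ∃ r₁ > 0, r₁ ≤ r ∧ ball b r₁ ⊆ U ∧
      ∀ z ∈ ball b r₁, ‖F z - b‖ ≤ q * ‖z - b‖ := by
  have hUb : U ∈ 𝓝 b := D.openU.mem_nhds D.memb
  have h1 : HasDerivAt F (deriv F b) b := (D.diff.differentiableAt hUb).hasDerivAt
  have h2 := D.norm_deriv_lt_one
  have h3 := (hasDerivAt_iff_isLittleO.1 h1).def (c := (1 - ‖deriv F b‖) / 2) (by linarith)
  obtain ⟨r₁, hr₁, hr₁'⟩ := Metric.eventually_nhds_iff_ball.1 (h3.and hUb)
  refine ⟨(1 + ‖deriv F b‖) / 2, by linarith, by positivity, min r₁ r, by positivity,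
    min_le_right _ _, fun z hz => ?_, fun z hz => ?_⟩
  · exact (hr₁' z (ball_subset_ball (min_le_left _ _) hz)).2
  · have h4 := (hr₁' z (ball_subset_ball (min_le_left _ _) hz)).1
    rw [D.fix] at h4
    have h5 : ‖F z - b‖ ≤ ‖F z - b - (z - b) • deriv F b‖ + ‖(z - b) • deriv F b‖ := by
      have := norm_add_le (F z - b - (z - b) • deriv F b) ((z - b) • deriv F b)
      simpa using this
    rw [norm_smul] at h5
    nlinarith [norm_nonneg (z - b)]

theorem contract_iter {q r₁ : ℝ} (hq : q < 1) (hq0 : 0 ≤ q)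
    (h : ∀ z ∈ ball b r₁, ‖F z - b‖ ≤ q * ‖z - b‖) (k : ℕ) :
    ∀ z ∈ ball b r₁, F^[k] z ∈ ball b r₁ ∧ ‖F^[k] z - b‖ ≤ q ^ k * ‖z - b‖ := by
  induction k with
  | zero => intro z hz; simpa using hz
  | succ k ih =>
    intro z hz
    obtain ⟨h1, h2⟩ := ih z hz
    rw [Function.iterate_succ_apply']
    have h3 := h _ h1
    refine ⟨?_, ?_⟩
    · rw [mem_ball, dist_eq_norm] at h1 ⊢
      nlinarith [norm_nonneg (F^[k] z - b)]
    · calc ‖F (F^[k] z) - b‖ ≤ q * ‖F^[k] z - b‖ := h3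
        _ ≤ q * (q ^ k * ‖z - b‖) := by gcongr
        _ = q ^ (k + 1) * ‖z - b‖ := by ring

/-- the iterates converge to `b` uniformly on `U` -/
theorem exists_iter_ball (D : PlySelf U K F b) (r : ℝ) (hr : 0 < r) :
    ∃ k₀ : ℕ, ∀ k ≥ k₀, ∀ z ∈ U, F^[k] z ∈ ball b r := by
  obtain ⟨q, hq1, hq0, r₁, hr₁, hr₁r, hrU, hrq⟩ := D.exists_contract r hr
  obtain ⟨M, hM0, hM⟩ := D.exists_bound
  have hrm : MapsTo F (ball b r₁) (ball b r₁) := fun z hz =>
    (contract_iter hq1 hq0 hrq 1 z hz).1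
  set S : ℕ → Set ℂ := fun k => U ∩ F^[k] ⁻¹' ball b r₁ with hS
  have hSo : ∀ k, IsOpen (S k) := fun k =>
    (D.iter_diff k).continuousOn.isOpen_inter_preimage D.openU isOpen_ball
  have hSm : Monotone S := by
    refine monotone_nat_of_le_succ fun k z hz => ⟨hz.1, ?_⟩
    have := hrm hz.2
    rw [mem_preimage, Function.iterate_succ_apply']
    exact this
  -- all of `U`
  have hsub : U ⊆ ⋃ k, S k := by
    refine D.conn.subset_of_closure_inter_subset (isOpen_iUnion hSo) ⟨b, D.memb, ?_⟩ ?_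
    · refine mem_iUnion.2 ⟨0, D.memb, ?_⟩
      simpa using hr₁
    · rintro z ⟨hzc, hzU⟩
      obtain ⟨R, hR, hRU⟩ := Metric.nhds_basis_ball.mem_iff.1 (D.openU.mem_nhds hzU)
      -- a close point of `S`
      set ε : ℝ := min R (r₁ / 2 * R / (2 * M)) with hε
      have hε0 : 0 < ε := by positivity
      obtain ⟨y, hyS, hyz⟩ := Metric.mem_closure_iff.1 hzc ε hε0
      obtain ⟨k, hk⟩ := mem_iUnion.1 hyS
      obtain ⟨j, hj⟩ := exists_pow_lt_of_lt_one (show (0 : ℝ) < 1 / 2 by norm_num) hq1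
      have h1 := contract_iter hq1 hq0 hrq j _ hk.2
      rw [← Function.iterate_add_apply] at h1
      have h2 : ‖F^[j + k] y - b‖ < r₁ / 2 := by
        have h3 : ‖F^[k] y - b‖ < r₁ := by
          have := hk.2
          rwa [mem_preimage, mem_ball, dist_eq_norm] at this
        have h4 : 0 ≤ ‖F^[k] y - b‖ := norm_nonneg _
        have h5 : q ^ j * ‖F^[k] y - b‖ ≤ 1 / 2 * ‖F^[k] y - b‖ := by gcongr
        linarith [h1.2]
      have hyR : y ∈ ball z R := by
        rw [mem_ball, dist_comm]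
        exact lt_of_lt_of_le hyz (min_le_left _ _)
      have h6 := Complex.dist_le_div_mul_dist_of_mapsTo_ball (f := F^[j + k]) (c := z) (R₁ := R)
        (R₂ := 2 * M) ((D.iter_diff _).mono hRU) (fun x hx => by
          rw [mem_closedBall, dist_eq_norm]
          refine (norm_sub_le _ _).trans ?_
          have := hM _ (D.iter_maps (j + k) (hRU hx))
          have := hM _ (D.iter_maps (j + k) hzU)
          linarith) hyR
      have h7 : 2 * M / R * dist y z ≤ r₁ / 2 := by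
        have h8 : dist y z ≤ r₁ / 2 * R / (2 * M) := by
          rw [dist_comm]
          exact hyz.le.trans (min_le_right _ _)
        calc 2 * M / R * dist y z ≤ 2 * M / R * (r₁ / 2 * R / (2 * M)) := by gcongr
          _ = r₁ / 2 := by field_simp
      refine mem_iUnion.2 ⟨j + k, hzU, ?_⟩
      rw [mem_preimage, mem_ball]
      calc dist (F^[j + k] z) b ≤ dist (F^[j + k] z) (F^[j + k] y) + dist (F^[j + k] y) b :=
            dist_triangle _ _ _
        _ < r₁ / 2 + r₁ / 2 := by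
            rw [dist_comm, dist_eq_norm (F^[j + k] y) b]
            refine add_lt_add_of_le_of_lt (h6.trans h7) h2
        _ = r₁ := by ring
  have hcov : K ⊆ ⋃ k, S k := D.sub.trans hsub
  obtain ⟨k₀, hk₀⟩ := D.compK.elim_directed_cover S hSo hcov (directed_of_isDirected_le hSm)
  refine ⟨k₀ + 1, fun k hk z hz => ?_⟩
  obtain ⟨j, rfl⟩ := Nat.exists_eq_add_of_le hk
  have h1 : F z ∈ S (k₀ + j) := hSm (Nat.le_add_right _ _) (hk₀ (D.maps hz))
  have h2 : F^[k₀ + 1 + j] z = F^[k₀ + j] (F z) := by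
    rw [← Function.iterate_succ_apply]; congr 2; omega
  rw [h2]
  exact ball_subset_ball hr₁r h1.2

/-- the Koenigs map on `U` -/
theorem exists_koenigs (D : PlySelf U K F b) :
    ∃ (h h₀ : ℂ → ℂ) (r : ℝ) (k₀ : ℕ), 0 < r ∧ ball b r ⊆ U ∧ DifferentiableOn ℂ h U ∧
      InjOn h U ∧ h b = 0 ∧ (∀ z ∈ U, h (F z) = deriv F b * h z) ∧
      DifferentiableOn ℂ h₀ (ball b r) ∧ InjOn h₀ (ball b r) ∧
      (∀ y ∈ ball b r, ‖h₀ y - (y - b)‖ ≤ 1 / 2 * ‖y - b‖) ∧ h₀ b = 0 ∧ deriv h₀ b = 1 ∧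
      ∀ k ≥ k₀, ∀ z ∈ U, F^[k] z ∈ ball b r ∧ deriv F b ^ k * h z = h₀ (F^[k] z) := by
  have hUb : U ∈ 𝓝 b := D.openU.mem_nhds D.memb
  set μ : ℂ := deriv F b with hμ
  have hFa : AnalyticAt ℂ F b := D.diff.analyticAt hUb
  set κ : ℂ → ℂ := fun t => F (b + t) - b with hκ
  have hκa : AnalyticAt ℂ κ 0 := by
    have h1 : AnalyticAt ℂ (fun t : ℂ => b + t) 0 := analyticAt_const.add analyticAt_id
    have h2 : AnalyticAt ℂ F ((fun t : ℂ => b + t) 0) := by simpa using hFa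
    exact (h2.comp h1).sub analyticAt_const
  have hκ0 : κ 0 = 0 := by simp only [hκ, add_zero]; rw [D.fix, sub_self]
  have hκd : deriv κ 0 = μ := by
    have h1 : HasDerivAt F μ (b + 0) := by
      rw [add_zero]; exact (D.diff.differentiableAt hUb).hasDerivAt
    have h2 := HasDerivAt.comp_const_add b 0 h1
    exact (h2.sub_const b).deriv
  obtain ⟨Φ, hΦa, hΦ0, hΦ1, hΦe⟩ := MP_78b16e_an.koenigs_fun hκa hκ0 hκd D.ne
    D.norm_deriv_lt_one
  set h₀ : ℂ → ℂ := fun y => Φ (y - b) with hh₀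
  have hh₀a : AnalyticAt ℂ h₀ b := by
    have h1 : AnalyticAt ℂ (fun y : ℂ => y - b) b := analyticAt_id.sub analyticAt_const
    have h2 : AnalyticAt ℂ Φ ((fun y : ℂ => y - b) b) := by simpa using hΦa
    exact AnalyticAt.comp (f := fun y : ℂ => y - b) h2 h1
  have hh₀0 : h₀ b = 0 := by simp only [hh₀, sub_self]; exact hΦ0
  have hh₀d : deriv h₀ b = 1 := by
    have h1 : HasDerivAt Φ 1 (b - b) := by
      rw [sub_self, ← hΦ1]; exact hΦa.differentiableAt.hasDerivAt
    exact (HasDerivAt.comp_sub_const b b h1).deriv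
  -- strict derivative
  have hstr : HasStrictDerivAt h₀ 1 b := by rw [← hh₀d]; exact hh₀a.hasStrictDerivAt
  have hlo := hstr.hasStrictFDerivAt.isLittleO.def (c := 1 / 2) (by norm_num)
  have hrel : ∀ᶠ y in 𝓝 b, h₀ (F y) = μ * h₀ y := by
    have h1 : Tendsto (fun y : ℂ => y - b) (𝓝 b) (𝓝 0) := by
      have : Continuous (fun y : ℂ => y - b) := by fun_prop
      simpa using this.tendsto b
    filter_upwards [h1.eventually hΦe] with y hy
    simpa [hκ, hh₀] using hy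
  have hana : ∀ᶠ y in 𝓝 b, AnalyticAt ℂ h₀ y := hh₀a.eventually_analyticAt
  rw [nhds_prod_eq] at hlo
  obtain ⟨r₁, hr₁, hr₁'⟩ := (Metric.nhds_basis_ball.prod_self).eventually_iff.1 hlo
  obtain ⟨r₂, hr₂, hr₂'⟩ := Metric.eventually_nhds_iff_ball.1 (hrel.and (hana.and hUb))
  obtain ⟨q, hq1, hq0, r, hr, hrle, hrU, hrq⟩ := D.exists_contract (min r₁ r₂) (by positivity)
  have hrr₁ : ball b r ⊆ ball b r₁ := ball_subset_ball (hrle.trans (min_le_left _ _))
  have hrr₂ : ball b r ⊆ ball b r₂ := ball_subset_ball (hrle.trans (min_le_right _ _))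
  have hest : ∀ x ∈ ball b r, ∀ y ∈ ball b r, ‖h₀ x - h₀ y - (x - y)‖ ≤ 1 / 2 * ‖x - y‖ := by
    intro x hx y hy
    have := hr₁' (mk_mem_prod (hrr₁ hx) (hrr₁ hy))
    simpa using this
  have hinj : InjOn h₀ (ball b r) := by
    intro x hx y hy hxy
    have := hest x hx y hy
    rw [hxy, sub_self, zero_sub, norm_neg] at this
    have h1 : ‖x - y‖ = 0 := by linarith [norm_nonneg (x - y)]
    exact sub_eq_zero.1 (norm_eq_zero.1 h1)
  have hrelk : ∀ k : ℕ, ∀ y ∈ ball b r, h₀ (F^[k] y) = μ ^ k * h₀ y := by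
    intro k y hy
    induction k with
    | zero => simp
    | succ k ih =>
      rw [Function.iterate_succ_apply']
      have h1 := (contract_iter hq1 hq0 hrq k y hy).1
      rw [(hr₂' _ (hrr₂ h1)).1, ih, pow_succ]
      ring
  obtain ⟨k₀, hk₀⟩ := D.exists_iter_ball r hr
  have hmu : ∀ k : ℕ, μ ^ k ≠ 0 := fun k => pow_ne_zero _ D.ne
  set h : ℂ → ℂ := fun z => (μ ^ k₀)⁻¹ * h₀ (F^[k₀] z) with hh
  have hkey : ∀ k ≥ k₀, ∀ z ∈ U, μ ^ k * h z = h₀ (F^[k] z) := by
    intro k hk z hz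
    obtain ⟨j, rfl⟩ := Nat.exists_eq_add_of_le hk
    have h1 : F^[k₀ + j] z = F^[j] (F^[k₀] z) := by
      rw [← Function.iterate_add_apply, add_comm]
    rw [h1, hrelk j _ (hk₀ k₀ le_rfl z hz), pow_add]
    simp only [hh]
    have := hmu k₀
    field_simp
  refine ⟨h, h₀, r, k₀, hr, hrU, ?_, ?_, ?_, ?_, ?_, hinj, ?_, hh₀0, hh₀d, fun k hk z hz =>
    ⟨hk₀ k hk z hz, hkey k hk z hz⟩⟩
  · refine DifferentiableOn.const_mul ?_ _
    refine DifferentiableOn.comp (g := h₀) (t := ball b r) ?_ (D.iter_diff k₀)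
      fun z hz => hk₀ k₀ le_rfl z hz
    exact fun y hy => (hr₂' y (hrr₂ hy)).2.1.differentiableAt.differentiableWithinAt
  · intro x hx y hy hxy
    have h1 : h₀ (F^[k₀] x) = h₀ (F^[k₀] y) := by
      rw [← hkey k₀ le_rfl x hx, ← hkey k₀ le_rfl y hy, hxy]
    exact D.iter_inj k₀ hx hy (hinj (hk₀ k₀ le_rfl x hx) (hk₀ k₀ le_rfl y hy) h1)
  · simp only [hh]
    rw [D.iter_fix, hh₀0, mul_zero]
  · intro z hz
    have h1 := hkey (k₀ + 1) (Nat.le_succ _) z hz
    have h2 := hkey k₀ le_rfl (F z) (D.mapsU hz)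
    rw [← Function.iterate_succ_apply, ← h1, pow_succ, mul_assoc] at h2
    exact mul_left_cancel₀ (hmu k₀) h2
  · exact fun y hy => (hr₂' y (hrr₂ hy)).2.1.differentiableAt.differentiableWithinAt
  · intro y hy
    have := hest y hy b (mem_ball_self hr)
    rwa [hh₀0, sub_zero] at this

end PlySelf

/-! ## connectedness of `{G < g}` -/

variable {c : ℂ} {g th : ℝ} {E s h : ℂ → ℂ}

theorem isBounded_Ug (c : ℂ) (g : ℝ) : Bornology.IsBounded (Ug c g) :=
  (isCompact_G_le c g).isBounded.subset fun z hz => by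
    have h1 : G c z < g := hz
    exact h1.le

theorem isPreconnected_annulus (hB : BD c g th E) :
    IsPreconnected {z : ℂ | g / 2 < G c z ∧ G c z < g} := by
  have h1 : {z : ℂ | g / 2 < G c z ∧ G c z < g} = E '' {z : ℂ | g / 2 < z.re ∧ z.re < g} := by
    ext y
    constructor
    · rintro ⟨hy1, hy2⟩
      obtain ⟨z, hz, rfl⟩ := hB.surj y hy1
      exact ⟨z, ⟨by rw [hz]; exact hy1, by rw [hz]; exact hy2⟩, rfl⟩
    · rintro ⟨z, ⟨hz1, hz2⟩, rfl⟩
      show g / 2 < G c (E z) ∧ G c (E z) < g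
      rw [hB.G_E z hz1]
      exact ⟨hz1, hz2⟩
  rw [h1]
  have h2 : Convex ℝ {z : ℂ | g / 2 < z.re ∧ z.re < g} :=
    (convex_halfSpace_re_gt _).inter (convex_halfSpace_re_lt _)
  refine h2.isPreconnected.image _ (hB.hol.continuousOn.mono fun z hz => hz.1)

theorem isPreconnected_Ug (hB : BD c g th E) : IsPreconnected (Ug c g) := by
  have hpos := hB.pos
  rw [isPreconnected_iff_subset_of_disjoint]
  -- one side
  have key : ∀ u v : Set ℂ, IsOpen u → IsOpen v → Ug c g ⊆ u ∪ v → Ug c g ∩ (u ∩ v) = ∅ →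
      {z : ℂ | g / 2 < G c z ∧ G c z < g} ⊆ u → Ug c g ⊆ u := by
    intro u v hu hv huv hd hA
    set V : Set ℂ := Ug c g ∩ v with hV
    have hVo : IsOpen V := (isOpen_Ug c g).inter hv
    have hVK : V ⊆ {z | G c z ≤ g / 2} := by
      rintro z ⟨hz1, hz2⟩
      by_contra hcon
      have h3 : z ∈ u := hA ⟨not_le.1 hcon, hz1⟩
      have : z ∈ Ug c g ∩ (u ∩ v) := ⟨hz1, h3, hz2⟩
      rw [hd] at this
      exact this
    have hKc : IsClosed {z | G c z ≤ g / 2} := isClosed_le (continuous_G_right c) continuous_const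
    have hVc : IsClosed V := by
      refine isClosed_of_closure_subset fun z hz => ?_
      have h4 : G c z ≤ g / 2 := closure_minimal hVK hKc hz
      have h5 : z ∈ Ug c g := by show G c z < g; linarith
      rcases huv h5 with h6 | h6
      · exfalso
        obtain ⟨y, hy1, hy2⟩ := mem_closure_iff.1 hz u hu h6
        have : y ∈ Ug c g ∩ (u ∩ v) := ⟨hy2.1, hy1, hy2.2⟩
        rw [hd] at this
        exact this
      · exact ⟨h5, h6⟩
    have hVe : V = ∅ := by
      rcases isClopen_iff.1 ⟨hVc, hVo⟩ with h | h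
      · exact h
      · exfalso
        have h7 : IsCompact (univ : Set ℂ) := by
          rw [← h]; exact (isCompact_G_le c (g / 2)).of_isClosed_subset hVc hVK
        exact noncompact_univ ℂ h7
    intro z hz
    rcases huv hz with h | h
    · exact h
    · have : z ∈ V := ⟨hz, h⟩
      rw [hVe] at this
      exact this.elim
  intro u v hu hv huv hd
  have hsub : {z : ℂ | g / 2 < G c z ∧ G c z < g} ⊆ Ug c g := fun z hz => hz.2
  rcases isPreconnected_iff_subset_of_disjoint.1 (isPreconnected_annulus hB) u v hu hv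
    (hsub.trans huv) (by
      apply eq_empty_of_subset_empty
      rw [← hd]
      exact inter_subset_inter_left _ hsub) with h | h
  · exact Or.inl (key u v hu hv huv hd h)
  · exact Or.inr (key v u hv hu (by rwa [union_comm]) (by rwa [inter_comm v u]) h)

theorem isConnected_Ug (hB : BD c g th E) : IsConnected (Ug c g) := by
  have hpos := hB.pos
  refine ⟨⟨E ((3 * g / 4 : ℝ) : ℂ), hB.E_mem ?_ ?_⟩, isPreconnected_Ug hB⟩
  · rw [Complex.ofReal_re]; linarith
  · rw [Complex.ofReal_re]; linarith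

theorem isPathConnected_Ug (hB : BD c g th E) : IsPathConnected (Ug c g) :=
  (isOpen_Ug c g).isConnected_iff_isPathConnected.1 (isConnected_Ug hB)

/-! ## Koenigs data -/

variable {w : ℕ → ℤ} {n : ℕ} {b : ℂ}

theorem gc_iter (hw : ∀ i, w (i + n) = w i) (k : ℕ) (z : ℂ) :
    (gc s w n)^[k] z = gc s w (n * k) z := by
  induction k generalizing z with
  | zero => rfl
  | succ k ih =>
    rw [Function.iterate_succ_apply, ih, Nat.mul_succ, gc_per hw]

theorem deriv_mul_deriv (hB : BD c g th E) (hS : SQ c g th E s) (hb : b ∈ Ug c g)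
    (hfix : gc s w n b = b) : deriv (it c n) b * deriv (gc s w n) b = 1 := by
  have hUb : Ug c g ∈ 𝓝 b := (isOpen_Ug c g).mem_nhds hb
  have h1 : HasDerivAt (gc s w n) (deriv (gc s w n) b) b :=
    ((differentiableOn_gc hB hS w n).differentiableAt hUb).hasDerivAt
  have h2 : HasDerivAt (it c n) (deriv (it c n) b) (gc s w n b) := by
    rw [hfix]; exact (differentiable_it_right c n b).hasDerivAt
  have h3 := h2.comp b h1
  have h4 : (it c n ∘ gc s w n) =ᶠ[𝓝 b] id := by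
    filter_upwards [hUb] with z hz
    exact it_gc hB hS w n hz
  have h5 := (h4.hasDerivAt_iff.1 h3)
  exact h5.unique (hasDerivAt_id b)

theorem plySelf_gc (hB : BD c g th E) (hS : SQ c g th E s) (hn : 1 ≤ n) (hb : b ∈ Ug c g)
    (hfix : gc s w n b = b) : PlySelf (Ug c g) {z | G c z ≤ g / 2} (gc s w n) b where
  openU := isOpen_Ug c g
  conn := isPreconnected_Ug hB
  bdd := isBounded_Ug c g
  compK := isCompact_G_le c (g / 2)
  sub := fun z hz => by
    have hpos := hB.pos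
    have h1 : G c z ≤ g / 2 := hz
    show G c z < g
    linarith
  maps := fun z hz => by
    have hpos := hB.pos
    have h1 : G c z < g := hz
    show G c (gc s w n z) ≤ g / 2
    rw [G_gc hB hS w n hz]
    have h2 : (2 : ℝ) ≤ 2 ^ n := by
      calc (2 : ℝ) = 2 ^ 1 := by norm_num
        _ ≤ 2 ^ n := pow_le_pow_right₀ (by norm_num) hn
    rw [div_le_div_iff₀ (by positivity) (by norm_num)]
    have h3 := G_nonneg c z
    nlinarith
  diff := differentiableOn_gc hB hS w n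
  inj := gc_injOn hB hS w n
  memb := hb
  fix := hfix
  ne := by
    intro h
    have := deriv_mul_deriv hB hS hb hfix
    rw [h, mul_zero] at this
    exact zero_ne_one this

theorem exists_KD (hB : BD c g th E) (hS : SQ c g th E s) (hn : 1 ≤ n)
    (hw : ∀ i, w (i + n) = w i) (hb : b ∈ Ug c g) (hfix : gc s w n b = b) :
    ∃ h : ℂ → ℂ, KD c g s w n b (deriv (it c n) b) h := by
  have D := plySelf_gc (w := w) hB hS hn hb hfix
  have hmul := deriv_mul_deriv hB hS hb hfix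
  set μ := deriv (gc s w n) b with hμ
  set ρ := deriv (it c n) b with hρ
  have hμ0 : μ ≠ 0 := D.ne
  have hρμ : ρ = μ⁻¹ := eq_inv_of_mul_eq_one_left hmul
  obtain ⟨h, h₀, r, k₀, hr, hrU, hd, hinj, hzero, hkoe, hd₀, hinj₀, hest, hz₀, hd1, hform⟩ :=
    D.exists_koenigs
  have hμn := D.norm_deriv_lt_one
  rw [← hμ] at hμn
  refine ⟨h, hb, hfix, rfl, ?_, hd, hinj, hzero, ?_, ?_⟩
  · rw [hρμ, norm_inv]
    exact one_lt_inv₀ (norm_pos_iff.2 hμ0) |>.2 hμn
  · intro z hz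
    rw [hkoe z hz, hρμ, div_inv_eq_mul, mul_comm]
  · refine ⟨k₀, fun z => dslope h₀ b ((gc s w n)^[k₀] z), ?_, ?_, ?_⟩
    · have h1 : ContinuousOn (dslope h₀ b) (ball b r) := by
        refine (continuousOn_dslope (ball_mem_nhds b hr)).2 ⟨hd₀.continuousOn, ?_⟩
        exact hd₀.differentiableAt (ball_mem_nhds b hr)
      exact h1.comp (D.iter_diff k₀).continuousOn fun z hz => (hform k₀ le_rfl z hz).1
    · intro z hz
      have h2 := (hform k₀ le_rfl z hz).1
      show ‖dslope h₀ b ((gc s w n)^[k₀] z) - 1‖ < 1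
      set y := (gc s w n)^[k₀] z with hy
      by_cases hyb : y = b
      · rw [hyb, dslope_same, hd1]; simp
      · rw [dslope_of_ne _ hyb, slope_def_field, hz₀, sub_zero]
        have h3 := hest y h2
        have h4 : y - b ≠ 0 := sub_ne_zero.2 hyb
        have h5 : h₀ y / (y - b) - 1 = (h₀ y - (y - b)) / (y - b) := by field_simp
        rw [h5, norm_div, div_lt_one (norm_pos_iff.2 h4)]
        have h6 : 0 < ‖y - b‖ := norm_pos_iff.2 h4
        linarith
    · intro z hz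
      obtain ⟨h2, h3⟩ := hform k₀ le_rfl z hz
      rw [← gc_iter hw]
      show h z = ρ ^ k₀ * ((gc s w n)^[k₀] z - b) * dslope h₀ b ((gc s w n)^[k₀] z)
      set y := (gc s w n)^[k₀] z with hy
      have h4 : (y - b) * dslope h₀ b y = h₀ y := by
        have := sub_smul_dslope h₀ b y
        rw [hz₀, sub_zero, smul_eq_mul] at this
        exact this
      rw [mul_assoc, h4, ← h3, ← mul_assoc, hρμ, ← mul_pow, inv_mul_cancel₀ hμ0, one_pow,
        one_mul]

/-! ## the annuli -/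

/-- the annulus `A_m = h (g_m {g / 2 ≤ G < g})` -/
def Akd (c : ℂ) (g : ℝ) (s : ℂ → ℂ) (w : ℕ → ℤ) (h : ℂ → ℂ) (m : ℕ) : Set ℂ :=
  (fun z => h (gc s w m z)) '' {z | g / 2 ≤ G c z ∧ G c z < g}

theorem Akd_measurable (hB : BD c g th E) (hS : SQ c g th E s) {ρ : ℂ}
    (hK : KD c g s w n b ρ h) (m : ℕ) : MeasurableSet (Akd c g s w h m) := by
  have hinj : InjOn (fun z => h (gc s w m z)) (Ug c g) :=
    hK.inj.comp (gc_injOn hB hS w m) (gc_mapsTo hB hS w m)
  have hcont : ContinuousOn (fun z => h (gc s w m z)) (Ug c g) :=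
    (hK.hol.comp (differentiableOn_gc hB hS w m) (gc_mapsTo hB hS w m)).continuousOn
  have hsub : {z | g / 2 ≤ G c z ∧ G c z < g} ⊆ Ug c g := fun z hz => hz.2
  have hmeas : MeasurableSet {z | g / 2 ≤ G c z ∧ G c z < g} :=
    (measurableSet_le measurable_const (continuous_G_right c).measurable).inter
      (measurableSet_lt (continuous_G_right c).measurable measurable_const)
  exact hmeas.image_of_continuousOn_injOn (hcont.mono hsub) (hinj.mono hsub)

theorem Akd_disjoint (hB : BD c g th E) (hS : SQ c g th E s) {ρ : ℂ}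
    (hK : KD c g s w n b ρ h) {m m' : ℕ} (hm : m ≠ m') :
    Disjoint (Akd c g s w h m) (Akd c g s w h m') := by
  have hpos := hB.pos
  rw [Set.disjoint_left]
  rintro _ ⟨z, hz, rfl⟩ ⟨z', hz', he⟩
  have hz1 : z ∈ Ug c g := hz.2
  have hz1' : z' ∈ Ug c g := hz'.2
  have h1 : gc s w m' z' = gc s w m z :=
    hK.inj (gc_mem hB hS w m' hz1') (gc_mem hB hS w m hz1) he
  have h2 : G c z' / 2 ^ m' = G c z / 2 ^ m := by
    rw [← G_gc hB hS w m' hz1', ← G_gc hB hS w m hz1, h1]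
  -- wlog
  have key : ∀ (m m' : ℕ) (a a' : ℝ), m < m' → g / 2 ≤ a → a < g → g / 2 ≤ a' → a' < g →
      a' / 2 ^ m' = a / 2 ^ m → False := by
    intro m m' a a' hlt h1 h2 h3 h4 h5
    obtain ⟨j, rfl⟩ := Nat.exists_eq_add_of_lt hlt
    have h6 : (0 : ℝ) < 2 ^ m := by positivity
    have h7 : a' = a * 2 ^ (j + 1) := by
      rw [div_eq_div_iff (by positivity) (by positivity)] at h5
      have h8 : (2 : ℝ) ^ (m + j + 1) = 2 ^ m * 2 ^ (j + 1) := by ring
      rw [h8] at h5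
      have h9 : 2 ^ m * a' = 2 ^ m * (a * 2 ^ (j + 1)) := by linarith
      exact mul_left_cancel₀ h6.ne' h9
    have h8 : (2 : ℝ) ≤ 2 ^ (j + 1) := by
      calc (2 : ℝ) = 2 ^ 1 := by norm_num
        _ ≤ 2 ^ (j + 1) := pow_le_pow_right₀ (by norm_num) (by omega)
    nlinarith
  rcases lt_or_gt_of_ne hm with hlt | hlt
  · exact key m m' _ _ hlt hz.1 hz.2 hz'.1 hz'.2 h2
  · exact key m' m _ _ hlt hz'.1 hz'.2 hz.1 hz.2 h2.symm

theorem Akd_add (hw : ∀ i, w (i + n) = w i) (hB : BD c g th E) (hS : SQ c g th E s) {ρ : ℂ}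
    (hK : KD c g s w n b ρ h) (m k : ℕ) :
    Akd c g s w h (m + n * k) = (fun z => ρ ^ (-(k : ℤ)) * z) '' Akd c g s w h m := by
  unfold Akd
  rw [image_image]
  refine image_congr fun z hz => ?_
  have hz1 : z ∈ Ug c g := hz.2
  induction k with
  | zero => simp
  | succ k ih =>
    have h1 : m + n * (k + 1) = n * 1 + (m + n * k) := by ring
    show h (gc s w (m + n * (k + 1)) z) = _
    rw [h1, gc_per hw, mul_one, hK.koe _ (gc_mem hB hS w _ hz1)]
    have hρ0 : ρ ≠ 0 := by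
      intro h0
      have := hK.one_lt
      rw [h0, norm_zero] at this
      linarith
    have ih' : h (gc s w (m + n * k) z) = ρ ^ (-(k : ℤ)) * h (gc s w m z) := ih
    rw [ih']
    have h2 : ρ ^ (-((k + 1 : ℕ) : ℤ)) = ρ ^ (-(k : ℤ)) * ρ⁻¹ := by
      rw [← zpow_neg_one, ← zpow_add₀ hρ0]
      congr 1
      push_cast; ring
    rw [h2]
    ring

/-- `ρ ^ j A_m` is disjoint from `A_m'` unless `m - j n = m'` -/
theorem Akd_zpow_disjoint (hw : ∀ i, w (i + n) = w i) (hB : BD c g th E) (hS : SQ c g th E s)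
    {ρ : ℂ} (hK : KD c g s w n b ρ h) {m m' : ℕ} {j : ℤ} (hm : (m : ℤ) - n * j ≠ m') :
    Disjoint ((fun z => ρ ^ j * z) '' Akd c g s w h m) (Akd c g s w h m') := by
  have hρ0 : ρ ≠ 0 := by
    intro h0
    have := hK.one_lt
    rw [h0, norm_zero] at this
    linarith
  rcases le_total j 0 with hj | hj
  · obtain ⟨k, rfl⟩ : ∃ k : ℕ, j = -(k : ℤ) := ⟨j.natAbs, by omega⟩
    rw [← Akd_add hw hB hS hK]
    refine Akd_disjoint hB hS hK fun he => hm ?_
    rw [← he]; push_cast; ring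
  · obtain ⟨k, rfl⟩ : ∃ k : ℕ, j = (k : ℤ) := ⟨j.natAbs, by omega⟩
    have h1 : Disjoint (Akd c g s w h m) (Akd c g s w h (m' + n * k)) := by
      refine Akd_disjoint hB hS hK fun he => hm ?_
      rw [he]; push_cast; ring
    rw [Akd_add hw hB hS hK] at h1
    rw [Set.disjoint_left] at h1 ⊢
    rintro _ ⟨x, hx, rfl⟩ hx'
    refine h1 hx ⟨_, hx', ?_⟩
    show ρ ^ (-(k : ℤ)) * (ρ ^ (k : ℤ) * x) = x
    rw [← mul_assoc, ← zpow_add₀ hρ0]
    simp

end Pool.Agent.Work.MLC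
end

section
set_option autoImplicit false

/-! # One step of the chain  (helper14) -/

namespace Pool.Agent.Work.MLC

open Filter Topology Metric Set Complex MeasureTheory

variable {c : ℂ} {g th : ℝ} {E s h : ℂ → ℂ} {w : ℕ → ℤ} {n : ℕ} {b ρ : ℂ}

/-- the derivative bound of `PlyArea` as a property of the measure -/
def DerBd (μ : Measure ℂ) : Prop :=
  ∀ (V F : ℂ → ℂ) (z : ℂ) (r : ℝ), 0 < r → DifferentiableOn ℂ V (ball z r) →
    InjOn V (ball z r) → (∀ x ∈ ball z r, V x ≠ 0) → ContinuousOn F (ball z r) →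
    (∀ x ∈ ball z r, Complex.exp (F x) = V x) →
    ENNReal.ofReal (‖deriv F z‖ ^ 2 * (Real.pi * r ^ 2)) ≤ μ (V '' ball z r)

lemma DerBd.le {μ : Measure ℂ} (hμ : DerBd μ) {V F : ℂ → ℂ} {z : ℂ} {r A : ℝ} (hr : 0 < r)
    (hV : DifferentiableOn ℂ V (ball z r)) (hinj : InjOn V (ball z r))
    (h0 : ∀ x ∈ ball z r, V x ≠ 0) (hF : ContinuousOn F (ball z r))
    (hexp : ∀ x ∈ ball z r, Complex.exp (F x) = V x) (hA : 0 ≤ A)
    (hA' : μ (V '' ball z r) ≤ ENNReal.ofReal A) :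
    ‖deriv F z‖ ≤ Real.sqrt (A / Real.pi) / r := by
  have h1 := (hμ V F z r hr hV hinj h0 hF hexp).trans hA'
  rw [ENNReal.ofReal_le_ofReal_iff hA] at h1
  have hpi := Real.pi_pos
  rw [le_div_iff₀ hr]
  apply Real.le_sqrt_of_sq_le
  rw [le_div_iff₀ hpi]
  nlinarith

lemma seg_bound {F : ℂ → ℂ} {p q : ℂ} {M : ℝ}
    (hd : ∀ x ∈ segment ℝ p q, DifferentiableAt ℂ F x)
    (hb : ∀ x ∈ segment ℝ p q, ‖deriv F x‖ ≤ M) : ‖F q - F p‖ ≤ M * ‖q - p‖ :=
  (convex_segment p q).norm_image_sub_le_of_norm_deriv_le hd hb (left_mem_segment ℝ p q)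
    (right_mem_segment ℝ p q)

/-- injectivity on small balls -/
lemma eq_of_E_eq (hB : BD c g th E) (hg4 : g ≤ 4) {z₀ z z' : ℂ} (hz : z ∈ ball z₀ (g / 4))
    (hz' : z' ∈ ball z₀ (g / 4)) (h1 : g / 2 < z.re) (h2 : g / 2 < z'.re) (hE : E z = E z') :
    z = z' := by
  obtain ⟨k, hk⟩ := hB.inj z z' h1 h2 hE
  have hd : ‖z - z'‖ < 2 := by
    have := dist_triangle_right z z' z₀
    rw [mem_ball] at hz hz'
    rw [← dist_eq_norm]
    linarith
  have h3 : ‖z - z'‖ = |(k : ℝ)| * (2 * Real.pi) := by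
    rw [hk, add_sub_cancel_left]
    simp [abs_of_pos Real.pi_pos]
  have h4 : k = 0 := by
    by_contra hk0
    have h5 : (1 : ℝ) ≤ |(k : ℝ)| := by exact_mod_cast Int.one_le_abs hk0
    have h6 := Real.pi_gt_three
    nlinarith
  rw [hk, h4]; simp

lemma Vf_inj_Rs (hB : BD c g th E) (hS : SQ c g th E s) (hK : KD c g s w n b ρ h) (m : ℕ)
    {z z' : ℂ} (hz : z ∈ Rs g) (hz' : z' ∈ Rs g) (hV : Vf E s h w m z = Vf E s h w m z') :
    E z = E z' := by
  have h1 := E_mem_of_Rs hB hz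
  have h2 := E_mem_of_Rs hB hz'
  exact gc_injOn hB hS w m h1 h2 (hK.inj (gc_mem hB hS w m h1) (gc_mem hB hS w m h2) hV)

lemma Vf_inj_Qs (hB : BD c g th E) (hS : SQ c g th E s) (hK : KD c g s w n b ρ h) (m : ℕ)
    {j : ℤ} {z z' : ℂ} (hz : z ∈ Qs g th j) (hz' : z' ∈ Qs g th j)
    (hV : Vf E s h w (m + 1) z = Vf E s h w (m + 1) z') : E z = E z' := by
  have h1 := sb_E_mem_of_Qs hB hS hz (w m)
  have h2 := sb_E_mem_of_Qs hB hS hz' (w m)
  have h3 := gc_injOn hB hS w m h1 h2 (hK.inj (gc_mem hB hS w m h1) (gc_mem hB hS w m h2) hV)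
  exact hS.sb_inj (Qs_notMem_ray hB hz) (Qs_notMem_ray hB hz') h3

lemma Vf_mem_Rs (hB : BD c g th E) (m : ℕ) {z : ℂ} (hz : z ∈ Rs g) :
    Vf E s h w m z ∈ Akd c g s w h m :=
  ⟨E z, ⟨by rw [hB.G_E z hz.1]; exact hz.1.le, by rw [hB.G_E z hz.1]; exact hz.2⟩, rfl⟩

lemma Vf_mem_Qs (hB : BD c g th E) (hS : SQ c g th E s) (m : ℕ) {j : ℤ} {z : ℂ}
    (hz : z ∈ Qs g th j) :
    Vf E s h w (m + 1) z ∈ Akd c g s w h (m + 1) ∪ Akd c g s w h m := by
  rcases lt_or_ge z.re g with h1 | h1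
  · left; exact Vf_mem_Rs hB (m + 1) ⟨hz.1, h1⟩
  · right
    refine ⟨sb s (w m) (E z), ⟨?_, ?_⟩, rfl⟩
    · rw [hS.G_sb (Qs_notMem_ray hB hz), hB.G_E z hz.1]; linarith
    · rw [hS.G_sb (Qs_notMem_ray hB hz), hB.G_E z hz.1]; have := hz.2.1; linarith

lemma ball_sub_Rs {z : ℂ} (hz : z.re = 3 * g / 4) : ball z (g / 4) ⊆ Rs g := by
  intro x hx
  rw [mem_ball, dist_eq_norm] at hx
  have h1 := (abs_re_le_norm (x - z)).trans_lt hx
  rw [sub_re, abs_lt, hz] at h1
  exact ⟨by linarith [h1.1], by linarith [h1.2]⟩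

lemma ball_sub_Qs {z : ℂ} {j : ℤ} (h1 : 3 * g / 4 ≤ z.re) (h2 : z.re ≤ 3 * g / 2)
    (h3 : th + j * (2 * Real.pi) + g / 4 ≤ z.im)
    (h4 : z.im ≤ th + (j + 1) * (2 * Real.pi) - g / 4) (hg : 0 < g) :
    ball z (g / 4) ⊆ Qs g th j := by
  intro x hx
  rw [mem_ball, dist_eq_norm] at hx
  have h5 := (abs_re_le_norm (x - z)).trans_lt hx
  have h6 := (abs_im_le_norm (x - z)).trans_lt hx
  rw [sub_re, abs_lt] at h5
  rw [sub_im, abs_lt] at h6
  exact ⟨by linarith [h5.1], by linarith [h5.2], by linarith [h6.1], by linarith [h6.2]⟩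

/-- **one step of the chain** -/
theorem one_step {μ : Measure ℂ} (hμ : DerBd μ) (hB : BD c g th E) (hS : SQ c g th E s)
    (hK : KD c g s w n b ρ h) (hn : 1 ≤ n) (hg4 : g ≤ 4) {a : ℕ → ℝ} (ha0 : ∀ m, 0 ≤ a m)
    (ha : ∀ m, μ (Akd c g s w h m) ≤ ENNReal.ofReal (a m)) (m : ℕ) {F F' : ℂ → ℂ}
    (hF : LogR g (Vf E s h w m) F)
    (hL : Link g th (Vf E s h w (m + 1)) (w m) F F') {T X T' : ℝ} {k : ℤ}
    (hX1 : th / 2 + w m * Real.pi + k * (2 * Real.pi) < X)
    (hX2 : X < th / 2 + (w m + 1) * Real.pi + k * (2 * Real.pi))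
    (hT' : T' = 2 * X - k * (2 * Real.pi))
    (h1 : th + (w m + k) * (2 * Real.pi) + g / 4 ≤ T')
    (h2 : T' ≤ th + (w m + k + 1) * (2 * Real.pi) - g / 4)
    (hXT : |X - T| ≤ 3 * (g / 4) / 2) :
    ‖F' ((3 * g / 4 : ℝ) + T' * I) - F ((3 * g / 4 : ℝ) + T * I)‖ ≤
      9 / (2 * Real.sqrt Real.pi) * Real.sqrt (a (m + 1) + a m) := by
  have hp := hB.pos
  have hpi := Real.pi_pos
  obtain ⟨Φ, c1, c2, c3, c4⟩ := hL k
  -- differentiability
  have hFd : DifferentiableOn ℂ F (Rs g) :=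
    Tr.differentiableOn_of_exp (isOpen_Rs g) (differentiableOn_Vf_Rs hB hS hK m) hF.cont hF.exp
  have hΦd : DifferentiableOn ℂ Φ (Qs g th (w m + k)) :=
    Tr.differentiableOn_of_exp (isOpen_Qs g th _) (differentiableOn_Vf_Qs hB hS hK m _) c1 c2
  -- horizontal move
  have hA : ‖F ((3 * g / 4 : ℝ) + X * I) - F ((3 * g / 4 : ℝ) + T * I)‖ ≤
      Real.sqrt (a m / Real.pi) / (g / 4) * ‖(((3 * g / 4 : ℝ) : ℂ) + X * I)
        - (((3 * g / 4 : ℝ) : ℂ) + T * I)‖ := by
    have hre : ∀ x ∈ segment ℝ (((3 * g / 4 : ℝ) : ℂ) + T * I) (((3 * g / 4 : ℝ) : ℂ) + X * I),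
        x.re = 3 * g / 4 := by
      intro x hx
      have hc : Convex ℝ {z : ℂ | z.re = 3 * g / 4} := by
        have := (convex_halfSpace_re_le (3 * g / 4)).inter (convex_halfSpace_re_ge (3 * g / 4))
        convert this using 1
        ext z
        simp only [mem_ofPred_eq, mem_inter_iff]
        exact ⟨fun h => ⟨h.le, h.ge⟩, fun h => le_antisymm h.1 h.2⟩
      exact hc.segment_subset (by simp) (by simp) hx
    refine seg_bound (fun x hx => ?_) (fun x hx => ?_)
    · have hsub := ball_sub_Rs (hre x hx)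
      exact (hFd x (hsub (mem_ball_self (by linarith)))).differentiableAt
        ((isOpen_Rs g).mem_nhds (hsub (mem_ball_self (by linarith))))
    · have hsub := ball_sub_Rs (hre x hx)
      refine hμ.le (V := Vf E s h w m) (by linarith) ((differentiableOn_Vf_Rs hB hS hK m).mono hsub)
        (fun z hz z' hz' hV => ?_) (fun z hz => Vf_ne_zero_Rs hB hS hK hn m (hsub hz))
        (hF.cont.mono hsub) (fun z hz => hF.exp z (hsub hz)) (ha0 m) ?_
      · exact eq_of_E_eq hB hg4 hz hz' (hsub hz).1 (hsub hz').1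
          (Vf_inj_Rs hB hS hK m (hsub hz) (hsub hz') hV)
      · refine (measure_mono ?_).trans (ha m)
        rintro _ ⟨z, hz, rfl⟩
        exact Vf_mem_Rs hB m (hsub hz)
  -- vertical move
  have hC : ‖Φ ((3 * g / 2 : ℝ) + T' * I) - Φ ((3 * g / 4 : ℝ) + T' * I)‖ ≤
      Real.sqrt ((a (m + 1) + a m) / Real.pi) / (g / 4) * ‖(((3 * g / 2 : ℝ) : ℂ) + T' * I)
        - (((3 * g / 4 : ℝ) : ℂ) + T' * I)‖ := by
    have hre : ∀ x ∈ segment ℝ (((3 * g / 4 : ℝ) : ℂ) + T' * I) (((3 * g / 2 : ℝ) : ℂ) + T' * I),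
        (3 * g / 4 ≤ x.re ∧ x.re ≤ 3 * g / 2) ∧ x.im = T' := by
      intro x hx
      have hc : Convex ℝ {z : ℂ | (3 * g / 4 ≤ z.re ∧ z.re ≤ 3 * g / 2) ∧ z.im = T'} := by
        have := ((convex_halfSpace_re_ge (3 * g / 4)).inter (convex_halfSpace_re_le (3 * g / 2))).inter
          ((convex_halfSpace_im_le T').inter (convex_halfSpace_im_ge T'))
        convert this using 1
        ext z
        simp only [mem_ofPred_eq, mem_inter_iff]
        exact ⟨fun h => ⟨h.1, h.2.le, h.2.ge⟩, fun h => ⟨h.1, le_antisymm h.2.1 h.2.2⟩⟩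
      refine hc.segment_subset ?_ ?_ hx
      · simp; linarith
      · simp; linarith
    have hball : ∀ x ∈ segment ℝ (((3 * g / 4 : ℝ) : ℂ) + T' * I) (((3 * g / 2 : ℝ) : ℂ) + T' * I),
        ball x (g / 4) ⊆ Qs g th (w m + k) := by
      intro x hx
      obtain ⟨⟨e1, e2⟩, e3⟩ := hre x hx
      exact ball_sub_Qs e1 e2 (by rw [e3]; push_cast; exact h1) (by rw [e3]; push_cast; exact h2) hp
    refine seg_bound (fun x hx => ?_) (fun x hx => ?_)
    · have hsub := hball x hx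
      exact (hΦd x (hsub (mem_ball_self (by linarith)))).differentiableAt
        ((isOpen_Qs g th _).mem_nhds (hsub (mem_ball_self (by linarith))))
    · have hsub := hball x hx
      refine hμ.le (V := Vf E s h w (m + 1)) (by linarith)
        ((differentiableOn_Vf_Qs hB hS hK m _).mono hsub)
        (fun z hz z' hz' hV => ?_) (fun z hz => Vf_ne_zero_Qs hB hS hK hn m (hsub hz))
        (c1.mono hsub) (fun z hz => c2 z (hsub hz)) (add_nonneg (ha0 _) (ha0 _)) ?_
      · exact eq_of_E_eq hB hg4 hz hz' (hsub hz).1 (hsub hz').1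
          (Vf_inj_Qs hB hS hK m (hsub hz) (hsub hz') hV)
      · rw [ENNReal.ofReal_add (ha0 _) (ha0 _)]
        refine (measure_mono ?_).trans ((measure_union_le _ _).trans (add_le_add (ha _) (ha _)))
        rintro _ ⟨z, hz, rfl⟩
        exact Vf_mem_Qs hB hS m (hsub hz)
  -- the endpoints
  have hXH : (((3 * g / 4 : ℝ) : ℂ) + X * I) ∈ Hs g th (w m) k := by
    refine ⟨?_, ?_, ?_, ?_⟩
    · simp; linarith
    · simp; linarith
    · simpa using hX1
    · simpa using hX2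
  have e1 : Φ (((3 * g / 2 : ℝ) : ℂ) + T' * I) = F (((3 * g / 4 : ℝ) : ℂ) + X * I) := by
    rw [← c4 _ hXH]
    congr 1
    rw [hT']; push_cast; ring
  have e2 : Φ (((3 * g / 4 : ℝ) : ℂ) + T' * I) = F' (((3 * g / 4 : ℝ) : ℂ) + T' * I) := by
    apply c3
    · have := ball_sub_Qs (z := ((3 * g / 4 : ℝ) : ℂ) + T' * I) (g := g) (th := th) (j := w m + k)
        (by simp) (by simp; linarith) (by simp; linarith) (by simp; linarith) hp
      exact this (mem_ball_self (by linarith))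
    · exact ⟨by simp; linarith, by simp; linarith⟩
  rw [e1, e2] at hC
  have n1 : ‖(((3 * g / 4 : ℝ) : ℂ) + X * I) - (((3 * g / 4 : ℝ) : ℂ) + T * I)‖ = |X - T| := by
    have : (((3 * g / 4 : ℝ) : ℂ) + X * I) - (((3 * g / 4 : ℝ) : ℂ) + T * I)
      = ((X - T : ℝ) : ℂ) * I := by push_cast; ring
    rw [this, norm_mul, norm_I, mul_one, norm_real, Real.norm_eq_abs]
  have n2 : ‖(((3 * g / 2 : ℝ) : ℂ) + T' * I) - (((3 * g / 4 : ℝ) : ℂ) + T' * I)‖ = 3 * g / 4 := by
    have : (((3 * g / 2 : ℝ) : ℂ) + T' * I) - (((3 * g / 4 : ℝ) : ℂ) + T' * I)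
      = ((3 * g / 4 : ℝ) : ℂ) := by push_cast; ring
    rw [this, norm_real, Real.norm_eq_abs, abs_of_pos (by linarith)]
  rw [n1] at hA
  rw [n2] at hC
  have s1 : Real.sqrt (a m / Real.pi) ≤ Real.sqrt ((a (m + 1) + a m) / Real.pi) :=
    Real.sqrt_le_sqrt (by gcongr; linarith [ha0 (m + 1)])
  have s2 : Real.sqrt ((a (m + 1) + a m) / Real.pi) =
      Real.sqrt (a (m + 1) + a m) / Real.sqrt Real.pi := Real.sqrt_div' _ hpi.le
  set Sq := Real.sqrt ((a (m + 1) + a m) / Real.pi) with hSq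
  have hSq0 : 0 ≤ Sq := Real.sqrt_nonneg _
  have hA' : ‖F ((3 * g / 4 : ℝ) + X * I) - F ((3 * g / 4 : ℝ) + T * I)‖ ≤ 3 / 2 * Sq := by
    refine hA.trans ?_
    calc Real.sqrt (a m / Real.pi) / (g / 4) * |X - T| ≤ Sq / (g / 4) * (3 * (g / 4) / 2) := by
          gcongr
      _ = 3 / 2 * Sq := by field_simp
  have hC' : ‖F ((3 * g / 4 : ℝ) + X * I) - F' ((3 * g / 4 : ℝ) + T' * I)‖ ≤ 3 * Sq := by
    refine hC.trans (le_of_eq ?_)
    field_simp
  have hfin : 9 / (2 * Real.sqrt Real.pi) * Real.sqrt (a (m + 1) + a m) = 9 / 2 * Sq := by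
    rw [s2]
    have : Real.sqrt Real.pi ≠ 0 := (Real.sqrt_pos.2 hpi).ne'
    field_simp
  rw [hfin]
  calc ‖F' ((3 * g / 4 : ℝ) + T' * I) - F ((3 * g / 4 : ℝ) + T * I)‖
      = ‖(F ((3 * g / 4 : ℝ) + X * I) - F ((3 * g / 4 : ℝ) + T * I)) -
        (F ((3 * g / 4 : ℝ) + X * I) - F' ((3 * g / 4 : ℝ) + T' * I))‖ := by congr 1; ring
    _ ≤ _ := norm_sub_le _ _
    _ ≤ 3 / 2 * Sq + 3 * Sq := add_le_add hA' hC'
    _ = 9 / 2 * Sq := by ring

end Pool.Agent.Work.MLC
end

section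
/-! # The limit lemma of the exterior PLY inequality (module P7a)  (helper13) -/

set_option autoImplicit false

namespace Pool.Agent.Work.MLC

open Filter Topology Finset

/-- sums of a periodic sequence over `J` periods -/
theorem sum_range_mul_periodic {n : ℕ} {a : ℕ → ℝ} (hper : ∀ m, a (m + n) = a m) (J : ℕ) :
    ∑ m ∈ range (n * J), a m = J * ∑ m ∈ range n, a m := by
  induction J with
  | zero => simp
  | succ J ih =>
    have h1 : ∀ x, a (n * J + x) = a x := by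
      intro x
      clear ih
      induction J with
      | zero => simp
      | succ J ih2 => rw [← ih2, ← hper (n * J + x)]; congr 1; ring
    rw [Nat.mul_succ, sum_range_add, ih, sum_congr rfl fun x _ => h1 x]
    push_cast; ring

theorem sum_range_shift_periodic {n : ℕ} {a : ℕ → ℝ} (hper : ∀ m, a (m + n) = a m) :
    ∑ m ∈ range n, a (m + 1) = ∑ m ∈ range n, a m := by
  have h1 := sum_range_succ' a n
  have h2 := sum_range_succ a n
  have h3 : a n = a 0 := by simpa using hper 0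
  rw [h2, h3] at h1
  linarith

/-- the Cauchy-Schwarz step -/
theorem lim_sum_sqrt_le {n : ℕ} {a : ℕ → ℝ} (ha : ∀ m, 0 ≤ a m) (hper : ∀ m, a (m + n) = a m)
    {B : ℝ} (hB : ∑ m ∈ range n, a m ≤ B) (J : ℕ) :
    ∑ m ∈ range (n * J), √(a m + a (m + 1)) ≤ J * √(2 * n * B) := by
  have hB0 : 0 ≤ B := (sum_nonneg fun m _ => ha m).trans hB
  have h1 : (∑ m ∈ range (n * J), √(a m + a (m + 1))) ^ 2
      ≤ (range (n * J)).card * ∑ m ∈ range (n * J), √(a m + a (m + 1)) ^ 2 :=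
    sq_sum_le_card_mul_sum_sq
  have h2 : ∑ m ∈ range (n * J), √(a m + a (m + 1)) ^ 2 = J * (2 * ∑ m ∈ range n, a m) := by
    have h3 : ∀ m ∈ range (n * J), √(a m + a (m + 1)) ^ 2 = a m + a (m + 1) := fun m _ =>
      Real.sq_sqrt (add_nonneg (ha _) (ha _))
    rw [sum_congr rfl h3, sum_add_distrib, sum_range_mul_periodic hper J,
      sum_range_mul_periodic (a := fun m => a (m + 1)) (fun m => by
        show a (m + n + 1) = a (m + 1)
        rw [add_right_comm, hper]) J, sum_range_shift_periodic hper]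
    ring
  rw [h2, card_range] at h1
  have h4 : (∑ m ∈ range (n * J), √(a m + a (m + 1))) ^ 2 ≤ (J * √(2 * n * B)) ^ 2 := by
    rw [mul_pow, Real.sq_sqrt (by positivity)]
    refine h1.trans ?_
    push_cast
    have h5 : (0 : ℝ) ≤ n * J * J := by positivity
    nlinarith [mul_le_mul_of_nonneg_left hB h5]
  exact (abs_le_of_sq_le_sq' h4 (by positivity)).2

/-- `‖J z‖ ≤ K + J C` for all `J` gives `‖z‖ ≤ C` -/
theorem norm_le_of_mul_le {z : ℂ} {K C : ℝ} (h : ∀ J : ℕ, ‖(J : ℂ) * z‖ ≤ K + J * C) :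
    ‖z‖ ≤ C := by
  have h1 : Tendsto (fun J : ℕ => K / (J : ℝ) + C) atTop (𝓝 (0 + C)) :=
    (tendsto_const_div_atTop_nhds_zero_nat K).add tendsto_const_nhds
  rw [zero_add] at h1
  refine ge_of_tendsto h1 ?_
  filter_upwards [eventually_gt_atTop 0] with J hJ
  have hJ' : (0 : ℝ) < J := by exact_mod_cast hJ
  have h2 := h J
  rw [norm_mul, Complex.norm_natCast] at h2
  have h3 : ‖z‖ = (J * ‖z‖) / J := by field_simp
  rw [h3, div_add' _ _ _ hJ'.ne']
  gcongr
  linarith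

/-- limit lemma -/
theorem ply_lim {L : ℂ} {ν K₀ : ℝ} {n : ℕ} {a : ℕ → ℝ} (ha : ∀ m, 0 ≤ a m)
    (hper : ∀ m, a (m + n) = a m) (hsum : ∑ m ∈ range n, a m ≤ 2 * Real.pi * L.re)
    (h : ∀ J : ℕ, ∃ D : ℝ, |D| ≤ 6 * Real.pi ∧
      ‖(J : ℂ) * L - Complex.I * ((J : ℂ) * (2 * Real.pi * ν) + D)‖ ≤
        K₀ + 9 / (2 * √Real.pi) * ∑ m ∈ range (n * J), √(a m + a (m + 1))) :
    ‖L - 2 * Real.pi * Complex.I * ν‖ ^ 2 ≤ 81 * n * L.re := by
  have hπ : 0 < Real.pi := Real.pi_pos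
  have hL0 : 0 ≤ L.re := by
    have h1 : 0 ≤ 2 * Real.pi * L.re := (sum_nonneg fun m _ => ha m).trans hsum
    by_contra hcon
    push Not at hcon
    nlinarith
  have key : ‖L - 2 * Real.pi * Complex.I * ν‖ ≤
      9 / (2 * √Real.pi) * √(2 * n * (2 * Real.pi * L.re)) := by
    refine norm_le_of_mul_le (K := K₀ + 6 * Real.pi) fun J => ?_
    obtain ⟨D, hD, hJ⟩ := h J
    have h2 : (J : ℂ) * (L - 2 * Real.pi * Complex.I * ν) =
        ((J : ℂ) * L - Complex.I * ((J : ℂ) * (2 * Real.pi * ν) + D)) + Complex.I * D := by ring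
    rw [h2]
    have h3 : ‖Complex.I * (D : ℂ)‖ ≤ 6 * Real.pi := by
      rw [norm_mul, Complex.norm_I, one_mul, Complex.norm_real]; exact hD
    have h4 := lim_sum_sqrt_le ha hper hsum J
    have h5 : 9 / (2 * √Real.pi) * ∑ m ∈ range (n * J), √(a m + a (m + 1)) ≤
        9 / (2 * √Real.pi) * (J * √(2 * n * (2 * Real.pi * L.re))) := by gcongr
    refine (norm_add_le _ _).trans ?_
    linarith
  have h6 : ‖L - 2 * Real.pi * Complex.I * ν‖ ^ 2 ≤
      (9 / (2 * √Real.pi) * √(2 * n * (2 * Real.pi * L.re))) ^ 2 := by gcongr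
  refine h6.trans (le_of_eq ?_)
  rw [mul_pow, div_pow, mul_pow, Real.sq_sqrt hπ.le, Real.sq_sqrt (by positivity)]
  field_simp
  ring

end Pool.Agent.Work.MLC
end

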