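import Mathlib

section
set_option autoImplicit false

/-! # The profile of the loop below the forward slits  (helper65, Lemma C of the primitive case) -/

namespace Pool.Agent.Work.MLC.C65

open Filter Topology Metric Set MeasureTheory

/-- distance to the `i`-th slit angle, cut off from below by the level of its tip -/
noncomputable def q (g th : ℝ) (i : ℕ) (x : ℝ) : ℝ :=
  max (2 ^ i * g) ‖((x - 2 ^ i * th : ℝ) : AddCircle (2 * Real.pi))‖

variable {g th : ℝ}

lemma norm_coe_le_abs (x : ℝ) : ‖(x : AddCircle (2 * Real.pi))‖ ≤ |x| := by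
  rw [← Real.norm_eq_abs]
  exact QuotientAddGroup.norm_mk_le_norm

lemma le_q (hg : 0 < g) (i : ℕ) (x : ℝ) : g ≤ q g th i x := by
  refine le_trans ?_ (le_max_left _ _)
  have : (1 : ℝ) ≤ 2 ^ i := one_le_pow₀ (by norm_num)
  nlinarith

lemma q_pos (hg : 0 < g) (i : ℕ) (x : ℝ) : 0 < q g th i x := hg.trans_le (le_q hg i x)

lemma q_lip (i : ℕ) (x y : ℝ) : |q g th i x - q g th i y| ≤ |x - y| := by
  unfold q
  refine (abs_max_sub_max_le_max _ _ _ _).trans ?_
  rw [sub_self, abs_zero]
  refine max_le (abs_nonneg _) ?_
  refine (abs_norm_sub_norm_le _ _).trans ?_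
  rw [← AddCircle.coe_sub]
  have : x - 2 ^ i * th - (y - 2 ^ i * th) = x - y := by ring
  rw [this]
  exact norm_coe_le_abs _

lemma q_per (i : ℕ) (x : ℝ) : q g th i (x + 2 * Real.pi) = q g th i x := by
  unfold q
  have : x + 2 * Real.pi - 2 ^ i * th = (x - 2 ^ i * th) + 2 * Real.pi := by ring
  rw [this, AddCircle.coe_add_period]

lemma continuous_of_lip {f : ℝ → ℝ} (h : ∀ x y, |f x - f y| ≤ |x - y|) : Continuous f := by
  have : LipschitzWith 1 f := LipschitzWith.of_dist_le_mul fun x y => by
    rw [Real.dist_eq, Real.dist_eq, NNReal.coe_one, one_mul]; exact h x y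
  exact this.continuous

lemma continuous_q (i : ℕ) : Continuous (q g th i) := continuous_of_lip (q_lip i)

/-- the cost of one slit -/
lemma integral_inv_q_le (hg : 0 < g) (i : ℕ) :
    ∫ x in (0 : ℝ)..(2 * Real.pi), 1 / q g th i x ≤ 4 * Real.log (1 + Real.pi / g) := by
  have hpi := Real.pi_pos
  set y : ℝ := 2 ^ i * th with hy
  set a : ℝ := 2 ^ i * g with ha
  have hga : g ≤ a := by
    have : (1 : ℝ) ≤ 2 ^ i := one_le_pow₀ (by norm_num)
    nlinarith
  have ha0 : 0 < a := hg.trans_le hga
  have hper : Function.Periodic (fun x => 1 / q g th i x) (2 * Real.pi) := fun x => by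
    simp only
    rw [q_per]
  have h1 : ∫ x in (0 : ℝ)..(2 * Real.pi), 1 / q g th i x
      = ∫ x in (y - Real.pi)..(y + Real.pi), 1 / q g th i x := by
    have := hper.intervalIntegral_add_eq 0 (y - Real.pi)
    rw [zero_add] at this
    rw [this]
    congr 1; ring
  have h2 : ∫ x in (y - Real.pi)..(y + Real.pi), 1 / q g th i x
      = ∫ u in (-Real.pi)..(Real.pi), 1 / q g th i (u + y) := by
    rw [intervalIntegral.integral_comp_add_right (fun x => 1 / q g th i x)]
    congr 1 <;> ring
  have hcq : Continuous fun u => 1 / q g th i (u + y) := by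
    refine continuous_const.div ((continuous_q i).comp (by fun_prop)) (fun u => ?_)
    exact (q_pos hg i _).ne'
  have hq : ∀ u : ℝ, |u| ≤ Real.pi → q g th i (u + y) = max a |u| := by
    intro u hu
    unfold q
    have : u + y - 2 ^ i * th = u := by rw [hy]; ring
    rw [this, (AddCircle.norm_coe_eq_abs_iff (2 * Real.pi) (by positivity)).2]
    rw [abs_of_pos (by positivity : (0 : ℝ) < 2 * Real.pi)]
    linarith
  have hb : ∀ u : ℝ, |u| ≤ Real.pi → 1 / q g th i (u + y) ≤ 2 / (a + |u|) := by
    intro u hu
    rw [hq u hu, div_le_div_iff₀ (lt_max_of_lt_left ha0) (by positivity)]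
    have := le_max_left a |u|
    have := le_max_right a |u|
    linarith
  -- the two halves
  have hint : ∀ s t : ℝ, IntervalIntegrable (fun u => 1 / q g th i (u + y)) volume s t :=
    fun s t => hcq.intervalIntegrable s t
  have hF : ∫ u in (0 : ℝ)..Real.pi, 2 / (a + u) = 2 * Real.log (1 + Real.pi / a) := by
    have hd : ∀ u ∈ uIcc (0 : ℝ) Real.pi, HasDerivAt (fun u => 2 * Real.log (a + u)) (2 / (a + u)) u := by
      intro u hu
      rw [uIcc_of_le hpi.le] at hu
      have h3 : a + u ≠ 0 := by have := hu.1; positivity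
      have h6 : HasDerivAt (fun u : ℝ => a + u) 1 u := by
        simpa using (hasDerivAt_id u).const_add a
      have h7 := (h6.log h3).const_mul 2
      have h8 : (2 : ℝ) / (a + u) = 2 * (1 / (a + u)) := by ring
      rw [h8]
      exact h7
    have hi : IntervalIntegrable (fun u => 2 / (a + u)) volume 0 Real.pi := by
      apply ContinuousOn.intervalIntegrable
      intro u hu
      rw [uIcc_of_le hpi.le] at hu
      have h3 : a + u ≠ 0 := by have := hu.1; positivity
      exact (continuousAt_const.div (by fun_prop) h3).continuousWithinAt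
    rw [intervalIntegral.integral_eq_sub_of_hasDerivAt hd hi, add_zero, ← mul_sub,
      ← Real.log_div (by positivity) (by positivity)]
    congr 2
    field_simp
  have hr : ∫ u in (0 : ℝ)..Real.pi, 1 / q g th i (u + y) ≤ 2 * Real.log (1 + Real.pi / a) := by
    rw [← hF]
    refine intervalIntegral.integral_mono_on hpi.le (hint _ _) ?_ (fun u hu => ?_)
    · apply ContinuousOn.intervalIntegrable
      intro u hu
      rw [uIcc_of_le hpi.le] at hu
      have h3 : a + u ≠ 0 := by have := hu.1; positivity
      exact (continuousAt_const.div (by fun_prop) h3).continuousWithinAt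
    · have := hb u (by rw [abs_of_nonneg hu.1]; exact hu.2)
      rwa [abs_of_nonneg hu.1] at this
  have hl : ∫ u in (-Real.pi)..0, 1 / q g th i (u + y) ≤ 2 * Real.log (1 + Real.pi / a) := by
    have h4 : ∫ u in (-Real.pi)..0, 1 / q g th i (u + y)
        = ∫ u in (0 : ℝ)..Real.pi, 1 / q g th i (-u + y) := by
      have := intervalIntegral.integral_comp_neg (a := 0) (b := Real.pi)
        (fun u => 1 / q g th i (u + y))
      rw [this, neg_zero]
    rw [h4, ← hF]
    have hcq' : Continuous fun u => 1 / q g th i (-u + y) := by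
      refine continuous_const.div ((continuous_q i).comp (by fun_prop)) (fun u => ?_)
      exact (q_pos hg i _).ne'
    refine intervalIntegral.integral_mono_on hpi.le (hcq'.intervalIntegrable _ _) ?_ (fun u hu => ?_)
    · apply ContinuousOn.intervalIntegrable
      intro u hu
      rw [uIcc_of_le hpi.le] at hu
      have h3 : a + u ≠ 0 := by have := hu.1; positivity
      exact (continuousAt_const.div (by fun_prop) h3).continuousWithinAt
    · have := hb (-u) (by rw [abs_neg, abs_of_nonneg hu.1]; exact hu.2)
      rwa [abs_neg, abs_of_nonneg hu.1] at this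
  rw [h1, h2, ← intervalIntegral.integral_add_adjacent_intervals (hint (-Real.pi) 0) (hint 0 Real.pi)]
  have h5 : Real.log (1 + Real.pi / a) ≤ Real.log (1 + Real.pi / g) := by
    apply Real.log_le_log (by positivity)
    gcongr
  linarith

end Pool.Agent.Work.MLC.C65
end

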