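import Mathlib
import Pool.Agent.Work.MLCM.C04
import Pool.Agent.Work.MLCM.C10

section
set_option autoImplicit false

/-! # Scale invariant area on the plane  (helper65, module P1 of the exterior PLY inequality)

* `mu`: the measure `dA / |z|^2`.
* `mu_image`: `mu (V '' S)` for an injective holomorphic `V`.
* `mu_smul`: `mu` is invariant under multiplication.
* `torus_lemma`: `mu W ≤ 2 π log |ρ|` if `W` is disjoint from all `ρ ^ j W`, `j ≠ 0`.
* `sum_mu_le`: the same for finitely many sets, and `sum_mu_le_mul` for a `n`-periodic sequence.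
* `area_submean`: sub-mean value inequality over a disc.
* `norm_deriv_le_of_log`: derivative of a logarithm of an injective function.
* `norm_log_sub_le`: increment of a logarithm along a segment.
* `exists_area`, `sum_sqrt_le`: real forms.
-/

open Complex MeasureTheory Set Filter Topology Metric
open scoped ENNReal

namespace Pool.Agent.Work.MLC

/-- the scale invariant area `dA / |z|^2` -/
noncomputable def mu : Measure ℂ :=
  (volume : Measure ℂ).withDensity (fun z => ENNReal.ofReal (1 / ‖z‖ ^ 2))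

lemma mu_apply (S : Set ℂ) : mu S = ∫⁻ z in S, ENNReal.ofReal (1 / ‖z‖ ^ 2) := by
  rw [mu, withDensity_apply']

/-- change of variables -/
lemma mu_image {U S : Set ℂ} (hU : IsOpen U) {V : ℂ → ℂ} (hV : DifferentiableOn ℂ V U)
    (hSU : S ⊆ U) (hS : MeasurableSet S) (hinj : InjOn V S) :
    mu (V '' S) = ∫⁻ z in S, ENNReal.ofReal (‖deriv V z‖ ^ 2 / ‖V z‖ ^ 2) := by
  rw [mu_apply, lintegral_image_eq_lintegral_abs_det_fderiv_mul volume
    (f' := fun z => (ContinuousLinearMap.toSpanSingleton ℂ (deriv V z) :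
      ℂ →L[ℂ] ℂ).restrictScalars ℝ) hS ?_ hinj]
  · apply lintegral_congr
    intro z
    rw [Tr.det_restrictScalars_smulRight, abs_of_nonneg (by positivity),
      ← ENNReal.ofReal_mul (by positivity)]
    congr 1
    ring
  · intro z hz
    have h1 : HasDerivAt V (deriv V z) z :=
      (hV.differentiableAt (hU.mem_nhds (hSU hz))).hasDerivAt
    exact (h1.hasFDerivAt.restrictScalars ℝ).hasFDerivWithinAt

lemma measurableSet_image {U S : Set ℂ} {V : ℂ → ℂ} (hV : DifferentiableOn ℂ V U)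
    (hSU : S ⊆ U) (hS : MeasurableSet S) (hinj : InjOn V S) : MeasurableSet (V '' S) :=
  hS.image_of_continuousOn_injOn (hV.continuousOn.mono hSU) hinj

/-- invariance under multiplication -/
lemma mu_smul {a : ℂ} (ha : a ≠ 0) {W : Set ℂ} (hW : MeasurableSet W) :
    mu ((fun z => a * z) '' W) = mu W := by
  rw [mu_image isOpen_univ (V := fun z => a * z) (by fun_prop) (subset_univ _) hW
    (fun z _ w _ h => mul_left_cancel₀ ha h), mu_apply]
  apply lintegral_congr
  intro z
  congr 1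
  have h1 : deriv (fun z => a * z) z = a := by
    rw [deriv_const_mul _ differentiableAt_id]; simp
  rw [h1, norm_mul, mul_pow]
  have : ‖a‖ ^ 2 ≠ 0 := by positivity
  rw [← div_div, div_self this]

/-- **Torus lemma.** -/
theorem torus_lemma {ρ : ℂ} (hρ : 1 < ‖ρ‖) {W : Set ℂ} (hW : MeasurableSet W)
    (hd : ∀ z ∈ W, ∀ w ∈ W, ∀ j : ℤ, z = ρ ^ j * w → j = 0) :
    mu W ≤ ENNReal.ofReal (2 * Real.pi * Real.log ‖ρ‖) := by
  have hρ0 : ρ ≠ 0 := by
    rintro rfl; simp at hρ; linarith
  have h0 : (0 : ℂ) ∉ W := fun h => by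
    have := hd 0 h 0 h 1 (by simp)
    omega
  set A : Set ℂ := {z | 0 ≤ z.im ∧ z.im < 2 * Real.pi} ∩ exp ⁻¹' W with hA
  have hAm : MeasurableSet A := by
    apply MeasurableSet.inter
    · exact measurable_im measurableSet_Ico
    · exact hW.preimage measurable_exp
  have hinj : InjOn exp A := by
    rintro z ⟨⟨hz1, hz2⟩, -⟩ w ⟨⟨hw1, hw2⟩, -⟩ h
    obtain ⟨k, hk⟩ := exp_eq_exp_iff_exists_int.1 h
    have h1 := congrArg Complex.im hk
    simp only [add_im, mul_im, intCast_re, intCast_im, zero_mul, add_zero, mul_re,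
      re_ofNat, im_ofNat, ofReal_re, ofReal_im, I_re, I_im, mul_zero, mul_one, sub_zero] at h1
    have hpi := Real.pi_pos
    have hk0 : k = 0 := by
      have h2 : (k : ℝ) < 1 := by
        by_contra h3
        push Not at h3
        nlinarith
      have h3 : (-1 : ℝ) < k := by
        by_contra h3
        push Not at h3
        nlinarith
      have h4 : k < 1 := by exact_mod_cast h2
      have h5 : -1 < k := by exact_mod_cast h3
      omega
    rw [hk, hk0]; simp
  have himg : exp '' A = W := by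
    ext z
    constructor
    · rintro ⟨w, ⟨-, hw⟩, rfl⟩
      exact hw
    · intro hz
      have hz0 : z ≠ 0 := fun h => h0 (h ▸ hz)
      obtain ⟨m, hm, -⟩ := existsUnique_sub_zsmul_mem_Ico Real.two_pi_pos (log z).im 0
      refine ⟨log z - m * (2 * Real.pi * I), ⟨?_, ?_⟩, ?_⟩
      · simp only [zero_add] at hm
        have e2 : (log z - m * (2 * Real.pi * I)).im = (log z).im - m • (2 * Real.pi) := by
          simp [zsmul_eq_mul]
        show 0 ≤ (log z - m * (2 * Real.pi * I)).im ∧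
          (log z - m * (2 * Real.pi * I)).im < 2 * Real.pi
        rw [e2]
        exact hm
      · show exp _ ∈ W
        rw [exp_sub, exp_int_mul_two_pi_mul_I, div_one, exp_log hz0]
        exact hz
      · rw [exp_sub, exp_int_mul_two_pi_mul_I, div_one, exp_log hz0]
  have hmu : mu W = volume A := by
    rw [← himg, mu_image isOpen_univ differentiable_exp.differentiableOn (subset_univ _) hAm hinj]
    have : ∀ z : ℂ, ENNReal.ofReal (‖deriv exp z‖ ^ 2 / ‖exp z‖ ^ 2) = 1 := by
      intro z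
      have h : ‖exp z‖ ^ 2 ≠ 0 := pow_ne_zero 2 (norm_ne_zero_iff.2 (exp_ne_zero z))
      rw [Complex.deriv_exp, div_self h, ENNReal.ofReal_one]
    simp_rw [this]
    simp
  rw [hmu]
  have hτ : (log ρ).re = Real.log ‖ρ‖ := log_re ρ
  rw [← hτ]
  apply Tr.volume_le_lattice hAm
  · rw [hτ]; exact Real.log_pos hρ
  · rintro z ⟨⟨hz1, hz2⟩, hzW⟩ w ⟨⟨hw1, hw2⟩, hwW⟩ m k h
    have h1 : exp z = ρ ^ k * exp w := by
      rw [h, exp_add, exp_add, exp_int_mul_two_pi_mul_I, mul_one, exp_int_mul, exp_log hρ0]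
      ring
    have hk : k = 0 := hd _ hzW _ hwW k h1
    refine ⟨?_, hk⟩
    rw [hk, zpow_zero, one_mul] at h1
    have h2 := hinj ⟨⟨hz1, hz2⟩, hzW⟩ ⟨⟨hw1, hw2⟩, hwW⟩ h1
    rw [hk, h2] at h
    have h3 : (m : ℂ) * (2 * Real.pi * I) = 0 := by simpa using h
    rcases mul_eq_zero.1 h3 with h4 | h4
    · exact_mod_cast h4
    · exact absurd h4 two_pi_I_ne_zero

/-- Torus lemma for finitely many sets. -/
theorem sum_mu_le {ρ : ℂ} (hρ : 1 < ‖ρ‖) {n : ℕ} {W : ℕ → Set ℂ}
    (hW : ∀ m < n, MeasurableSet (W m))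
    (hd : ∀ m < n, ∀ m' < n, ∀ z ∈ W m, ∀ w ∈ W m', ∀ j : ℤ, z = ρ ^ j * w → m = m' ∧ j = 0) :
    ∑ m ∈ Finset.range n, mu (W m) ≤ ENNReal.ofReal (2 * Real.pi * Real.log ‖ρ‖) := by
  have h1 : ∑ m ∈ Finset.range n, mu (W m) = mu (⋃ m ∈ Finset.range n, W m) := by
    rw [measure_biUnion_finset]
    · intro m hm m' hm' hne
      have hm2 : m < n := by simpa using hm
      have hm3 : m' < n := by simpa using hm'
      rw [Function.onFun, Set.disjoint_left]
      intro z hz hz'
      exact hne (hd m hm2 m' hm3 z hz z hz' 0 (by simp)).1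
    · intro m hm
      exact hW m (Finset.mem_range.1 hm)
  rw [h1]
  apply torus_lemma hρ
  · exact Finset.measurableSet_biUnion _ (fun m hm => hW m (Finset.mem_range.1 hm))
  · intro z hz w hw j h
    simp only [mem_iUnion, Finset.mem_range] at hz hw
    obtain ⟨m, hm, hz⟩ := hz
    obtain ⟨m', hm', hw⟩ := hw
    exact (hd m hm m' hm' z hz w hw j h).2

lemma mu_periodic {ρ : ℂ} (hρ : ρ ≠ 0) {n : ℕ} {W : ℕ → Set ℂ}
    (hW : ∀ m, MeasurableSet (W m))
    (hper : ∀ m, W (m + n) = (fun z => ρ⁻¹ * z) '' W m) (m : ℕ) :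
    mu (W (m + n)) = mu (W m) := by
  rw [hper, mu_smul (inv_ne_zero hρ) (hW m)]

/-- Torus lemma for a sequence of sets which is `n`-periodic up to multiplication by `ρ`. -/
theorem sum_mu_le_mul {ρ : ℂ} (hρ : 1 < ‖ρ‖) {n : ℕ} {W : ℕ → Set ℂ}
    (hW : ∀ m, MeasurableSet (W m))
    (hper : ∀ m, W (m + n) = (fun z => ρ⁻¹ * z) '' W m)
    (hd : ∀ m < n, ∀ m' < n, ∀ z ∈ W m, ∀ w ∈ W m', ∀ j : ℤ, z = ρ ^ j * w → m = m' ∧ j = 0)
    (J : ℕ) :
    ∑ m ∈ Finset.range (n * J), mu (W m) ≤ ENNReal.ofReal (J * (2 * Real.pi * Real.log ‖ρ‖)) := by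
  have hρ0 : ρ ≠ 0 := by
    rintro rfl; simp at hρ; linarith
  have hlog : 0 < Real.log ‖ρ‖ := Real.log_pos hρ
  have hpi := Real.pi_pos
  have hp := mu_periodic hρ0 hW hper
  have hp2 : ∀ J m, mu (W (m + n * J)) = mu (W m) := by
    intro J
    induction J with
    | zero => intro m; simp
    | succ J ih =>
      intro m
      rw [Nat.mul_succ, ← add_assoc, hp, ih]
  induction J with
  | zero => simp
  | succ J ih =>
    rw [Nat.mul_succ, Finset.sum_range_add]
    have h1 : ∑ x ∈ Finset.range n, mu (W (n * J + x)) = ∑ x ∈ Finset.range n, mu (W x) := by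
      apply Finset.sum_congr rfl
      intro x _
      rw [add_comm, hp2]
    rw [h1]
    calc ∑ x ∈ Finset.range (n * J), mu (W x) + ∑ x ∈ Finset.range n, mu (W x)
        ≤ ENNReal.ofReal (J * (2 * Real.pi * Real.log ‖ρ‖))
          + ENNReal.ofReal (2 * Real.pi * Real.log ‖ρ‖) :=
          add_le_add ih (sum_mu_le hρ (fun m _ => hW m) hd)
      _ = ENNReal.ofReal ((J + 1 : ℕ) * (2 * Real.pi * Real.log ‖ρ‖)) := by
          rw [← ENNReal.ofReal_add (by positivity) (by positivity)]
          congr 1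
          push_cast; ring

/-- Sub-mean value inequality over a circle, in `lintegral` form. -/
lemma circle_submean {g : ℂ → ℂ} {z : ℂ} {t r : ℝ} (ht : 0 < t) (htr : t < r)
    (hg : DifferentiableOn ℂ g (ball z r)) :
    ENNReal.ofReal (2 * Real.pi * ‖g z‖) ≤
      ∫⁻ θ in Ioo (-Real.pi) Real.pi, ENNReal.ofReal ‖g (circleMap z t θ)‖ := by
  have hpi := Real.pi_pos
  have hsub : closedBall z t ⊆ ball z r := closedBall_subset_ball htr
  have hav : Real.circleAverage g z t = g z := by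
    apply DiffContOnCl.circleAverage
    rw [abs_of_pos ht]
    apply DifferentiableOn.diffContOnCl
    rw [closure_ball z ht.ne']
    exact hg.mono hsub
  have hcont : Continuous (fun θ : ℝ => g (circleMap z t θ)) := by
    rw [← continuousOn_univ]
    apply hg.continuousOn.comp (continuous_circleMap z t).continuousOn
    intro θ _
    exact hsub (circleMap_mem_closedBall z ht.le θ)
  have h1 : g z = (2 * Real.pi)⁻¹ • ∫ θ in (-Real.pi)..Real.pi, g (circleMap z t θ) := by
    rw [← hav, Real.circleAverage_eq_integral_add (-Real.pi)]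
    congr 1
    rw [intervalIntegral.integral_comp_add_right (fun θ => g (circleMap z t θ))]
    congr 1 <;> ring
  have h2 : 2 * Real.pi * ‖g z‖ ≤ ∫ θ in (-Real.pi)..Real.pi, ‖g (circleMap z t θ)‖ := by
    have h3 : (2 * Real.pi) • g z = ∫ θ in (-Real.pi)..Real.pi, g (circleMap z t θ) := by
      conv_lhs => rw [h1]
      rw [smul_smul, mul_inv_cancel₀ (by positivity), one_smul]
    calc 2 * Real.pi * ‖g z‖ = ‖(2 * Real.pi) • g z‖ := by
          rw [norm_smul, Real.norm_of_nonneg (by positivity)]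
      _ ≤ _ := by
          rw [h3]
          exact intervalIntegral.norm_integral_le_integral_norm (by linarith)
  calc ENNReal.ofReal (2 * Real.pi * ‖g z‖)
      ≤ ENNReal.ofReal (∫ θ in (-Real.pi)..Real.pi, ‖g (circleMap z t θ)‖) :=
        ENNReal.ofReal_le_ofReal h2
    _ = _ := by
        rw [intervalIntegral.integral_of_le (by linarith), integral_Ioc_eq_integral_Ioo,
          ofReal_integral_eq_lintegral_ofReal]
        · exact (hcont.norm.integrableOn_Icc).mono_set Ioo_subset_Icc_self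
        · exact ae_of_all _ (fun θ => norm_nonneg _)

/-- Sub-mean value inequality over a disc. -/
theorem area_submean {g : ℂ → ℂ} (hgm : Measurable g) {z : ℂ} {r : ℝ} (hr : 0 < r)
    (hg : DifferentiableOn ℂ g (ball z r)) :
    ENNReal.ofReal (Real.pi * r ^ 2 * ‖g z‖) ≤ ∫⁻ w in ball z r, ENNReal.ofReal ‖g w‖ := by
  have hpi := Real.pi_pos
  have h1 : ∫⁻ w in ball z r, ENNReal.ofReal ‖g w‖
      = ∫⁻ w, (ball (0 : ℂ) r).indicator (fun w => ENNReal.ofReal ‖g (z + w)‖) w := by
    rw [← lintegral_indicator measurableSet_ball]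
    rw [← lintegral_add_left_eq_self _ z]
    apply lintegral_congr
    intro w
    simp only [indicator, mem_ball, dist_zero_right, dist_self_add_left]
  have hmeas : Measurable ((ball (0 : ℂ) r).indicator (fun w => ENNReal.ofReal ‖g (z + w)‖)) :=
    (hgm.comp (measurable_const_add z)).norm.ennreal_ofReal.indicator measurableSet_ball
  rw [h1, ← Complex.lintegral_comp_polarCoord_symm]
  have htarget : polarCoord.target = Ioi (0 : ℝ) ×ˢ Ioo (-Real.pi) Real.pi := rfl
  rw [htarget, Measure.volume_eq_prod, ← Measure.prod_restrict, lintegral_prod]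
  swap
  · apply Measurable.aemeasurable
    have hpm : Measurable (Complex.polarCoord.symm : ℝ × ℝ → ℂ) := by
      have : (Complex.polarCoord.symm : ℝ × ℝ → ℂ)
          = fun p => (p.1 : ℂ) * (Real.cos p.2 + Real.sin p.2 * Complex.I) := by
        funext p
        exact Complex.polarCoord_symm_apply p
      rw [this]
      fun_prop
    exact (measurable_fst.ennreal_ofReal).smul (hmeas.comp hpm)
  have hinner : ∀ t ∈ Ioo (0 : ℝ) r, ENNReal.ofReal t * ENNReal.ofReal (2 * Real.pi * ‖g z‖) ≤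
      ∫⁻ θ in Ioo (-Real.pi) Real.pi, ENNReal.ofReal (t, θ).1 •
        (ball (0 : ℂ) r).indicator (fun w => ENNReal.ofReal ‖g (z + w)‖)
          (Complex.polarCoord.symm (t, θ)) := by
    rintro t ⟨ht, htr⟩
    simp only [smul_eq_mul]
    rw [lintegral_const_mul']
    swap
    · exact ENNReal.ofReal_ne_top
    refine mul_le_mul_right ((circle_submean ht htr hg).trans (le_of_eq ?_)) _
    apply lintegral_congr
    intro θ
    have h2 : Complex.polarCoord.symm (t, θ) ∈ ball (0 : ℂ) r := by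
      rw [mem_ball_zero_iff, Complex.norm_polarCoord_symm]
      simpa [abs_of_pos ht] using htr
    rw [indicator_of_mem h2]
    congr 3
    rw [Complex.polarCoord_symm_apply, circleMap, exp_mul_I]
    simp
  calc ENNReal.ofReal (Real.pi * r ^ 2 * ‖g z‖)
      = ∫⁻ t in Ioo (0 : ℝ) r, ENNReal.ofReal t * ENNReal.ofReal (2 * Real.pi * ‖g z‖) := by
        rw [lintegral_mul_const' _ _ ENNReal.ofReal_ne_top]
        have h3 : ∫⁻ t in Ioo (0 : ℝ) r, ENNReal.ofReal t = ENNReal.ofReal (r ^ 2 / 2) := by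
          rw [← ofReal_integral_eq_lintegral_ofReal]
          · rw [← integral_Ioc_eq_integral_Ioo, ← intervalIntegral.integral_of_le hr.le]
            rw [integral_id]
            congr 1; ring
          · exact (continuous_id.integrableOn_Icc).mono_set Ioo_subset_Icc_self
          · rw [EventuallyLE, ae_restrict_iff' measurableSet_Ioo]
            exact ae_of_all _ (fun t ht => ht.1.le)
        rw [h3, ← ENNReal.ofReal_mul (by positivity)]
        congr 1
        ring
    _ ≤ ∫⁻ t in Ioo (0 : ℝ) r, ∫⁻ θ in Ioo (-Real.pi) Real.pi, ENNReal.ofReal (t, θ).1 •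
        (ball (0 : ℂ) r).indicator (fun w => ENNReal.ofReal ‖g (z + w)‖)
          (Complex.polarCoord.symm (t, θ)) := setLIntegral_mono' measurableSet_Ioo hinner
    _ ≤ _ := lintegral_mono_set Ioo_subset_Ioi_self

/-- The derivative of a logarithm of an injective function. -/
theorem norm_deriv_le_mu {V F : ℂ → ℂ} {z : ℂ} {r : ℝ} (hr : 0 < r)
    (hV : DifferentiableOn ℂ V (ball z r)) (hF : DifferentiableOn ℂ F (ball z r))
    (hFV : ∀ w ∈ ball z r, exp (F w) = V w) (hinj : InjOn V (ball z r)) :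
    ENNReal.ofReal (Real.pi * r ^ 2 * ‖deriv F z‖ ^ 2) ≤ mu (V '' ball z r) := by
  rw [mu_image isOpen_ball hV subset_rfl measurableSet_ball hinj]
  have h1 : ∀ w ∈ ball z r, ENNReal.ofReal (‖deriv V w‖ ^ 2 / ‖V w‖ ^ 2)
      = ENNReal.ofReal ‖deriv F w ^ 2‖ := by
    intro w hw
    have hd : HasDerivAt V (exp (F w) * deriv F w) w := by
      have h2 : HasDerivAt (fun x => exp (F x)) (exp (F w) * deriv F w) w :=
        (hF.differentiableAt (isOpen_ball.mem_nhds hw)).hasDerivAt.cexp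
      apply h2.congr_of_eventuallyEq
      filter_upwards [isOpen_ball.mem_nhds hw] with x hx
      exact (hFV x hx).symm
    rw [hd.deriv, hFV w hw, norm_mul, mul_pow, norm_pow]
    congr 1
    have : V w ≠ 0 := by rw [← hFV w hw]; exact exp_ne_zero _
    have h3 : ‖V w‖ ^ 2 ≠ 0 := by positivity
    field_simp
  rw [setLIntegral_congr_fun measurableSet_ball h1]
  have h2 := area_submean (g := fun w => deriv F w ^ 2) ((measurable_deriv F).pow_const 2) hr
    ((hF.deriv isOpen_ball).pow 2)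
  rwa [norm_pow] at h2

/-- Torus lemma, in the form with disjointness. -/
theorem torus_lemma' {ρ : ℂ} (hρ : 1 < ‖ρ‖) {W : Set ℂ} (hW : MeasurableSet W)
    (hd : ∀ j : ℤ, j ≠ 0 → Disjoint ((fun z => ρ ^ j * z) '' W) W) :
    mu W ≤ ENNReal.ofReal (2 * Real.pi * Real.log ‖ρ‖) := by
  apply torus_lemma hρ hW
  intro z hz w hw j h
  by_contra hj
  exact Set.disjoint_left.1 (hd j hj) ⟨w, hw, h.symm⟩ hz

/-- Real version of `sum_mu_le_mul`: with `a m = (mu (W m)).toReal` one has `mu (W m) ≤ a m` (as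
`ENNReal.ofReal`), `0 ≤ a m` and `∑_{m < n J} a m ≤ J 2 π log ‖ρ‖`. -/
theorem exists_area {ρ : ℂ} (hρ : 1 < ‖ρ‖) {n : ℕ} (hn : 0 < n) {W : ℕ → Set ℂ}
    (hW : ∀ m, MeasurableSet (W m))
    (hper : ∀ m, W (m + n) = (fun z => ρ⁻¹ * z) '' W m)
    (hd : ∀ m < n, ∀ m' < n, ∀ z ∈ W m, ∀ w ∈ W m', ∀ j : ℤ, z = ρ ^ j * w → m = m' ∧ j = 0) :
    ∃ a : ℕ → ℝ, (∀ m, 0 ≤ a m) ∧ (∀ m, mu (W m) ≤ ENNReal.ofReal (a m)) ∧
      (∀ m, a (m + n) = a m) ∧
      ∀ J : ℕ, ∑ m ∈ Finset.range (n * J), a m ≤ J * (2 * Real.pi * Real.log ‖ρ‖) := by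
  have hρ0 : ρ ≠ 0 := by
    rintro rfl; simp at hρ; linarith
  have hlog : 0 < Real.log ‖ρ‖ := Real.log_pos hρ
  have hpi := Real.pi_pos
  have hfin : ∀ m, mu (W m) ≠ ⊤ := by
    intro m
    have h1 := sum_mu_le_mul hρ hW hper hd (m + 1)
    have h2 : mu (W m) ≤ ∑ m ∈ Finset.range (n * (m + 1)), mu (W m) := by
      apply Finset.single_le_sum (f := fun m => mu (W m)) (fun _ _ => zero_le)
      rw [Finset.mem_range]
      nlinarith
    exact ((h2.trans h1).trans_lt ENNReal.ofReal_lt_top).ne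
  refine ⟨fun m => (mu (W m)).toReal, fun m => ENNReal.toReal_nonneg, fun m => ?_, fun m => ?_,
    fun J => ?_⟩
  · rw [ENNReal.ofReal_toReal (hfin m)]
  · show (mu (W (m + n))).toReal = _
    rw [mu_periodic hρ0 hW hper]
  · rw [← ENNReal.toReal_sum (fun m _ => hfin m)]
    apply ENNReal.toReal_le_of_le_ofReal (by positivity)
    exact sum_mu_le_mul hρ hW hper hd J

end Pool.Agent.Work.MLC
end

section
/-!
MLC project, exterior PLY, block (4): clamping an orbit of the truncated doubling maps.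
Angles are in turns.
-/

set_option autoImplicit false

namespace Pool.Agent.Work.MLC.Circ

open Set CircleDeg1Lift

/-- Displacement of the iterates of a degree one circle map. -/
theorem pow_sub_mul_translationNumber (f : CircleDeg1Lift) (J : ℕ) (x : ℝ) :
    |(f ^ J) x - x - J * translationNumber f| ≤ 2 := by
  have h0 := dist_pow_map_zero_mul_translationNumber_le f J
  rw [Real.dist_eq] at h0
  have h1 : (f ^ J) x = (f ^ J) (Int.fract x) + ⌊x⌋ := by
    rw [← map_add_int, Int.fract_add_floor]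
  have h2 : (f ^ J) 0 ≤ (f ^ J) (Int.fract x) := (f ^ J).monotone (Int.fract_nonneg x)
  have h3 : (f ^ J) (Int.fract x) ≤ (f ^ J) 0 + 1 := by
    have h4 : (f ^ J) (Int.fract x) ≤ (f ^ J) (0 + 1) :=
      (f ^ J).monotone (by rw [zero_add]; exact (Int.fract_lt_one x).le)
    rwa [(f ^ J).map_add_one] at h4
  have h5 := Int.fract_nonneg x
  have h6 := (Int.fract_lt_one x).le
  have h7 := Int.floor_add_fract x
  rw [abs_le] at h0 ⊢
  constructor <;> linarith [h0.1, h0.2]

/-- **Clamp.** For every `N`, `y` and `0 < δ ≤ 1/2` there are angles `T m`, `X m` with `X m` in the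
open half circle of the letter `w m`, `T (m+1) = 2 X m - k m` at distance `≥ δ` from `θ + ℤ`,
`|X m - T m| ≤ 3 δ / 2`; `T 0` is the starting point of the backward orbit of `y` and
`|T N - y| ≤ δ`. -/
theorem ply_clamp (w : ℕ → ℤ) (θ : ℝ) (N : ℕ) (y δ : ℝ) (hδ : 0 < δ) (hδ' : δ ≤ 1 / 2) :
    ∃ (T X : ℕ → ℝ) (k : ℕ → ℤ),
      (∀ m < N, (θ + w m) / 2 + k m < X m ∧ X m < (θ + w m) / 2 + k m + 1 / 2) ∧
      (∀ m < N, T (m + 1) = 2 * X m - k m) ∧
      (∀ m < N, θ + w m + k m + δ ≤ T (m + 1) ∧ T (m + 1) ≤ θ + w m + k m + 1 - δ) ∧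
      (∀ m < N, |X m - T m| ≤ 3 * δ / 2) ∧
      T 0 = hw w θ N y ∧ |T N - y| ≤ δ := by
  have hmem := fun i (hi : i < N) => gw_hw_mem w θ N y i hi
  choose! k hk1 hk2 hk3 using hmem
  set x : ℕ → ℝ := fun m => gw w θ m (hw w θ N y) with hx
  have hxN : x N = y := gw_hw w θ N y
  have hx0 : x 0 = hw w θ N y := rfl
  -- the clamped point, with index shifted
  set C : ℕ → ℝ := fun m => max (θ + w m + k m + δ) (min (x (m + 1)) (θ + w m + k m + 1 - δ))
    with hC
  set T : ℕ → ℝ := fun m => if m = 0 then x 0 else C (m - 1) with hT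
  have hT0 : T 0 = x 0 := by simp [hT]
  have hTs : ∀ m, T (m + 1) = C m := by intro m; simp [hT]
  have hrange : ∀ m < N, θ + w m + k m ≤ x (m + 1) ∧ x (m + 1) ≤ θ + w m + k m + 1 := by
    intro m hm
    have h1 := hk1 m hm
    have h2 := hk2 m hm
    have h3 := hk3 m hm
    simp only [hx]
    constructor <;> linarith
  have hCx : ∀ m < N, |C m - x (m + 1)| ≤ δ := by
    intro m hm
    obtain ⟨h1, h2⟩ := hrange m hm
    simp only [hC]
    rw [abs_le]
    rcases le_total (x (m + 1)) (θ + w m + k m + 1 - δ) with h3 | h3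
    · rw [min_eq_left h3]
      rcases le_total (θ + w m + k m + δ) (x (m + 1)) with h4 | h4
      · rw [max_eq_right h4]; constructor <;> linarith
      · rw [max_eq_left h4]; constructor <;> linarith
    · rw [min_eq_right h3, max_eq_right (by linarith)]
      constructor <;> linarith
  have hCr : ∀ m, θ + w m + k m + δ ≤ C m ∧ C m ≤ θ + w m + k m + 1 - δ := by
    intro m
    simp only [hC]
    refine ⟨le_max_left _ _, max_le (by linarith) (min_le_right _ _)⟩
  refine ⟨T, fun m => (T (m + 1) + k m) / 2, k, ?_, ?_, ?_, ?_, ?_, ?_⟩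
  · intro m _
    obtain ⟨h1, h2⟩ := hCr m
    simp only
    rw [hTs]
    constructor <;> linarith
  · intro m _
    ring
  · intro m _
    rw [hTs]
    exact hCr m
  · intro m hm
    have h1 := hCx m hm
    have h2 : x m = (x (m + 1) + k m) / 2 := by
      have := hk3 m hm
      simp only [hx]
      linarith
    have h3 : |x m - T m| ≤ δ := by
      cases m with
      | zero => rw [hT0]; simpa using hδ.le
      | succ m =>
        rw [hTs, abs_sub_comm]
        exact hCx m (by omega)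
    simp only
    rw [hTs]
    rw [abs_le] at h1 h3 ⊢
    constructor <;> linarith [h1.1, h1.2, h3.1, h3.2]
  · rw [hT0, hx0]
  · rcases Nat.eq_zero_or_pos N with h0 | h0
    · subst h0
      rw [hT0, hxN]
      simpa using hδ.le
    · obtain ⟨M, rfl⟩ : ∃ M, N = M + 1 := ⟨N - 1, by omega⟩
      rw [hTs, ← hxN]
      exact hCx M (by omega)

/-- Clamp over `J` periods: the total displacement is `J ν` up to a bounded error. -/
theorem ply_clamp_period (w : ℕ → ℤ) (θ : ℝ) (n : ℕ) (hw' : ∀ i, w (i + n) = w i) (J : ℕ)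
    (δ : ℝ) (hδ : 0 < δ) (hδ' : δ ≤ 1 / 2) :
    ∃ (T X : ℕ → ℝ) (k : ℕ → ℤ),
      (∀ m < n * J, (θ + w m) / 2 + k m < X m ∧ X m < (θ + w m) / 2 + k m + 1 / 2) ∧
      (∀ m < n * J, T (m + 1) = 2 * X m - k m) ∧
      (∀ m < n * J, θ + w m + k m + δ ≤ T (m + 1) ∧ T (m + 1) ≤ θ + w m + k m + 1 - δ) ∧
      (∀ m < n * J, |X m - T m| ≤ 3 * δ / 2) ∧
      |T (n * J) - T 0 - J * nu w n θ| ≤ 3 := by
  obtain ⟨T, X, k, h1, h2, h3, h4, h5, h6⟩ := ply_clamp w θ (n * J) 0 δ hδ hδ'
  refine ⟨T, X, k, h1, h2, h3, h4, ?_⟩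
  have h7 := gw_hw w θ (n * J) 0
  rw [gw_mul w θ n J hw', ← h5] at h7
  have h8 := pow_sub_mul_translationNumber (gw w θ n) J (T 0)
  rw [h7] at h8
  unfold nu
  rw [abs_le] at h6 h8 ⊢
  constructor <;> linarith [h6.1, h6.2, h8.1, h8.2]

/-- The same with `T 0` in `[0, 1)` replaced by any bounded interval is not needed: only the
difference `T (n J) - T 0` enters. In radians: -/
theorem ply_clamp_rad (w : ℕ → ℤ) (θ : ℝ) (n : ℕ) (hw' : ∀ i, w (i + n) = w i) (J : ℕ)
    (d : ℝ) (hd : 0 < d) (hd' : d ≤ 1) :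
    ∃ (T X : ℕ → ℝ) (k : ℕ → ℤ),
      (∀ m < n * J, Real.pi * (θ + w m) + 2 * Real.pi * k m < X m ∧
        X m < Real.pi * (θ + w m) + 2 * Real.pi * k m + Real.pi) ∧
      (∀ m < n * J, T (m + 1) = 2 * X m - 2 * Real.pi * k m) ∧
      (∀ m < n * J, 2 * Real.pi * (θ + w m + k m) + d ≤ T (m + 1) ∧
        T (m + 1) ≤ 2 * Real.pi * (θ + w m + k m + 1) - d) ∧
      (∀ m < n * J, |X m - T m| ≤ 3 * d / 2) ∧
      |T (n * J) - T 0 - J * (2 * Real.pi * nu w n θ)| ≤ 6 * Real.pi := by
  have hpi := Real.pi_pos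
  have hpi3 := Real.pi_gt_three
  obtain ⟨T, X, k, h1, h2, h3, h4, h5⟩ := ply_clamp_period w θ n hw' J (d / (2 * Real.pi))
    (by positivity) (by
      rw [div_le_iff₀ (by positivity)]
      nlinarith)
  have hd2 : 2 * Real.pi * (d / (2 * Real.pi)) = d := by field_simp
  refine ⟨fun m => 2 * Real.pi * T m, fun m => 2 * Real.pi * X m, k, ?_, ?_, ?_, ?_, ?_⟩
  · intro m hm
    obtain ⟨ha, hb⟩ := h1 m hm
    constructor <;> nlinarith
  · intro m hm
    simp only
    rw [h2 m hm]; ring
  · intro m hm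
    obtain ⟨ha, hb⟩ := h3 m hm
    constructor
    · have := mul_le_mul_of_nonneg_left ha (by positivity : 0 ≤ 2 * Real.pi)
      simp only
      linarith
    · have := mul_le_mul_of_nonneg_left hb (by positivity : 0 ≤ 2 * Real.pi)
      simp only
      linarith
  · intro m hm
    have ha := mul_le_mul_of_nonneg_left (h4 m hm) (by positivity : 0 ≤ 2 * Real.pi)
    simp only
    rw [← mul_sub, abs_mul, abs_of_pos (by positivity : 0 < 2 * Real.pi)]
    linarith
  · have ha := mul_le_mul_of_nonneg_left h5 (by positivity : 0 ≤ 2 * Real.pi)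
    simp only
    have e : 2 * Real.pi * T (n * J) - 2 * Real.pi * T 0 - J * (2 * Real.pi * nu w n θ) =
        2 * Real.pi * (T (n * J) - T 0 - J * nu w n θ) := by ring
    rw [e, abs_mul, abs_of_pos (by positivity : 0 < 2 * Real.pi)]
    linarith

end Pool.Agent.Work.MLC.Circ
end

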