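import Mathlib
import Pool.Agent.Work.MLCM.C20
import Pool.Agent.Work.MLCM.C21
import Pool.Agent.Work.MLCM.C27

section
set_option autoImplicit false

/-! # End of the proof of the exterior PLY inequality  (helper14) -/

namespace Pool.Agent.Work.MLC

open Filter Topology Metric Set Complex MeasureTheory

variable {c : ℂ} {g th : ℝ} {E s h : ℂ → ℂ} {w : ℕ → ℤ} {n : ℕ} {b ρ : ℂ}

theorem derBd_mu : DerBd mu := by
  intro V F z r hr hV hinj h0 hF hexp
  have hFd := Tr.differentiableOn_of_exp isOpen_ball hV hF hexp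
  have := norm_deriv_le_mu hr hV hFd hexp hinj
  convert this using 2
  ring

lemma Vf_add_Rs (hB : BD c g th E) (hS : SQ c g th E s) (hK : KD c g s w n b ρ h)
    (hw : ∀ i, w (i + n) = w i) (m : ℕ) {z : ℂ} (hz : z ∈ Rs g) :
    Vf E s h w (m + n) z = Vf E s h w m z / ρ := by
  unfold Vf
  rw [← hK.koe _ (gc_mem hB hS w m (E_mem_of_Rs hB hz))]
  congr 1
  have := gc_per (s := s) hw 1 m (E z)
  rw [mul_one] at this
  rw [add_comm m n, this]

lemma Vf_add_Qs (hB : BD c g th E) (hS : SQ c g th E s) (hK : KD c g s w n b ρ h)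
    (hw : ∀ i, w (i + n) = w i) (m : ℕ) {j : ℤ} {z : ℂ} (hz : z ∈ Qs g th j) :
    Vf E s h w (m + n + 1) z = Vf E s h w (m + 1) z / ρ := by
  unfold Vf
  rw [gc_succ, gc_succ, hw m, ← hK.koe _ (gc_mem hB hS w m (sb_E_mem_of_Qs hB hS hz _))]
  congr 1
  have := gc_per (s := s) hw 1 m (sb s (w m) (E z))
  rw [mul_one] at this
  rw [add_comm m n, this]

lemma KD.rho_ne (hK : KD c g s w n b ρ h) : ρ ≠ 0 := by
  intro h0
  have := hK.one_lt
  rw [h0, norm_zero] at this
  linarith

/-- the sequence of linked logarithms and the logarithm `L` of the multiplier -/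
theorem exists_chain (hB : BD c g th E) (hS : SQ c g th E s) (hU : IsPathConnected (Ug c g))
    (hn : 1 ≤ n) (hw : ∀ i, w (i + n) = w i) (hK : KD c g s w n b ρ h) :
    ∃ (F : ℕ → ℂ → ℂ) (L : ℂ), (∀ m, LogR g (Vf E s h w m) (F m)) ∧
      (∀ m, Link g th (Vf E s h w (m + 1)) (w m) (F m) (F (m + 1))) ∧
      Complex.exp L = ρ ∧ ∀ m, ∀ z ∈ Rs g, F (m + n) z = F m z - L := by
  have hp := hB.pos
  obtain ⟨F₀, hF₀⟩ := exists_LogR hB hS hU hn hw hK 0
  choose! nx hnx1 hnx2 using fun (m : ℕ) (F : ℂ → ℂ) (hF : LogR g (Vf E s h w m) F) =>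
    exists_Link hB hS hU hn hw hK m hF
  let F : ℕ → ℂ → ℂ := fun m => Nat.rec (motive := fun _ => ℂ → ℂ) F₀ (fun m F => nx m F) m
  have hFs : ∀ m, F (m + 1) = nx m (F m) := fun m => rfl
  have hFl : ∀ m, LogR g (Vf E s h w m) (F m) := by
    intro m
    induction m with
    | zero => exact hF₀
    | succ m ih => rw [hFs]; exact hnx1 m _ ih
  have hFk : ∀ m, Link g th (Vf E s h w (m + 1)) (w m) (F m) (F (m + 1)) := by
    intro m
    rw [hFs]; exact hnx2 m _ (hFl m)
  have hρ := hK.rho_ne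
  -- the constant `L`
  have hconv := convex_Rs g
  set z₀ : ℂ := ((3 * g / 4 : ℝ) : ℂ) with hz₀
  have hz₀R : z₀ ∈ Rs g := ⟨by rw [hz₀, ofReal_re]; linarith, by rw [hz₀, ofReal_re]; linarith⟩
  set L : ℂ := F 0 z₀ - F n z₀ with hL
  have hV : ∀ z ∈ Rs g, Complex.exp (F 0 z - F n z) = ρ := by
    intro z hz
    rw [Complex.exp_sub, (hFl 0).exp z hz, (hFl n).exp z hz]
    have := Vf_add_Rs hB hS hK hw 0 hz
    rw [zero_add] at this
    rw [this]
    have h0 := Vf_ne_zero_Rs hB hS hK hn 0 hz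
    field_simp
  have hexpL : Complex.exp L = ρ := hV z₀ hz₀R
  have h0 : ∀ z ∈ Rs g, F n z = F 0 z - L := by
    obtain ⟨k, hk⟩ := log_unique_on hconv.isPreconnected (F := fun z => F 0 z - F n z)
      (F' := fun _ => L) ((hFl 0).cont.sub (hFl n).cont) continuousOn_const
      (fun z hz => by rw [hV z hz, hexpL])
    have h1 := hk z₀ hz₀R
    have h2 : (k : ℂ) * (2 * Real.pi * I) = 0 := by linear_combination -h1
    intro z hz
    have h3 := hk z hz
    rw [h2] at h3
    linear_combination -h3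
  refine ⟨F, L, hFl, hFk, hexpL, fun m => ?_⟩
  induction m with
  | zero => simpa using h0
  | succ m ih =>
    -- two linked logarithms of `V_{m+1}`
    have hl1 : LogR g (Vf E s h w (m + 1)) (fun z => F (m + 1 + n) z + L) := by
      refine ⟨(hFl _).cont.add continuousOn_const, fun z hz => ?_, fun z hz k => ?_⟩
      · rw [Complex.exp_add, (hFl _).exp z hz, hexpL, Vf_add_Rs hB hS hK hw _ hz]
        field_simp
      · rw [(hFl _).per z hz k]; ring
    have hk1 : Link g th (Vf E s h w (m + 1)) (w m) (F m) (fun z => F (m + 1 + n) z + L) := by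
      intro k
      have h1 := hFk (m + n) k
      rw [hw m] at h1
      obtain ⟨Φ, a1, a2, a3, a4⟩ := h1
      refine ⟨fun z => Φ z + L, a1.add continuousOn_const, fun z hz => ?_, fun z hz hz' => ?_,
        fun z hz => ?_⟩
      · rw [Complex.exp_add, a2 z hz, hexpL, Vf_add_Qs hB hS hK hw _ hz]
        field_simp
      · simp only
        rw [a3 z hz hz']
        have : m + n + 1 = m + 1 + n := by ring
        rw [this]
      · simp only
        rw [a4 z hz, ih z (Hs_sub _ _ _ _ hz)]; ring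
    intro z hz
    have := Link.unique hp hk1 (hFk m) hl1 (hFl (m + 1)) z hz
    rw [← this]; ring

/-- **the exterior PLY inequality**, abstract form -/
theorem ply_end (hB : BD c g th E) (hS : SQ c g th E s) (hn : 1 ≤ n)
    (hw : ∀ i, w (i + n) = w i) (hK : KD c g s w n b ρ h) (hg4 : g ≤ 4) {θ : ℝ}
    (hth : th = 2 * Real.pi * θ) :
    ∃ L : ℂ, Complex.exp L = ρ ∧
      ‖L - 2 * Real.pi * I * (Circ.nu w n θ : ℝ)‖ ^ 2 ≤ 81 * n * L.re := by
  have hp := hB.pos
  have hpi := Real.pi_pos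
  have hU := isPathConnected_Ug hB
  obtain ⟨F, L, hFl, hFk, hexpL, hFn⟩ := exists_chain hB hS hU hn hw hK
  have hρ := hK.rho_ne
  have hre : L.re = Real.log ‖ρ‖ := by
    rw [← hexpL, Complex.norm_exp, Real.log_exp]
  -- the areas
  obtain ⟨a, ha0, ha, haper, hasum⟩ := exists_area hK.one_lt (n := n) (by omega)
    (W := fun m => Akd c g s w h m) (fun m => Akd_measurable hB hS hK m)
    (fun m => by
      have := Akd_add (n := n) hw hB hS hK m 1
      simpa using this)
    (fun m hm m' hm' z hz z' hz' j hj => by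
      have h1 : ¬ ((m' : ℤ) - n * j ≠ m) := by
        intro hne
        have := Set.disjoint_left.1 (Akd_zpow_disjoint hw hB hS hK hne) ⟨z', hz', rfl⟩
        exact this (by simp only; rw [← hj]; exact hz)
      push Not at h1
      have h2 : (n : ℤ) * j = m' - m := by linarith
      have h3 : j = 0 := by
        by_contra hj0
        have h4 := Int.one_le_abs hj0
        have h5 : |(n : ℤ) * j| < n := by
          rw [h2, abs_lt]
          constructor <;> omega
        rw [abs_mul, Nat.abs_cast] at h5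
        nlinarith [Int.natCast_nonneg n]
      rw [h3, mul_zero] at h2
      exact ⟨by omega, h3⟩)
  refine ⟨L, hexpL, ?_⟩
  -- boundedness of `F 0 (3 g / 4 + i x) - i x`
  have hmem : ∀ x : ℝ, (((3 * g / 4 : ℝ) : ℂ) + x * I) ∈ Rs g := fun x => by
    constructor
    · simp; linarith
    · simp; linarith
  have hPc : Continuous fun x : ℝ => F 0 (((3 * g / 4 : ℝ) : ℂ) + x * I) - x * I :=
    ((hFl 0).cont.comp_continuous (by fun_prop) hmem).sub (by fun_prop)
  have hPp : Function.Periodic (fun x : ℝ => F 0 (((3 * g / 4 : ℝ) : ℂ) + x * I) - x * I)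
      (2 * Real.pi) := by
    intro x
    have h1 := (hFl 0).per _ (hmem x) 1
    have h2 : (((3 * g / 4 : ℝ) : ℂ) + x * I) + ((1 : ℤ) : ℂ) * (2 * Real.pi * I)
      = ((3 * g / 4 : ℝ) : ℂ) + ((x + 2 * Real.pi : ℝ) : ℂ) * I := by push_cast; ring
    rw [h2] at h1
    simp only
    rw [h1]; push_cast; ring
  obtain ⟨K, hK'⟩ : ∃ K : ℝ, ∀ x : ℝ, ‖F 0 (((3 * g / 4 : ℝ) : ℂ) + x * I) - x * I‖ ≤ K := by
    obtain ⟨K, hK'⟩ := (isCompact_Icc (a := (0 : ℝ)) (b := 2 * Real.pi)).exists_bound_of_continuousOn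
      hPc.continuousOn
    refine ⟨K, fun x => ?_⟩
    obtain ⟨y, hy, hxy⟩ := hPp.exists_mem_Ico₀ (by positivity) x
    have hxy' : F 0 (((3 * g / 4 : ℝ) : ℂ) + x * I) - x * I
      = F 0 (((3 * g / 4 : ℝ) : ℂ) + y * I) - y * I := hxy
    rw [hxy']
    exact hK' y ⟨hy.1, hy.2.le⟩
  refine ply_lim (K₀ := 2 * K) ha0 haper ?_ ?_
  · have := hasum 1
    rw [mul_one] at this
    rw [hre]
    simpa using this
  · intro J
    obtain ⟨T, X, k, c1, c2, c3, c4, c5⟩ := Circ.ply_clamp_rad w θ n hw J (g / 4) (by linarith)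
      (by linarith)
    have hFJ : ∀ J : ℕ, ∀ z ∈ Rs g, F (n * J) z = F 0 z - J * L := by
      intro J
      induction J with
      | zero => intro z _; simp
      | succ J ih =>
        intro z hz
        have h1 := hFn (n * J) z hz
        have h2 : n * (J + 1) = n * J + n := by ring
        rw [h2, h1, ih z hz]; push_cast; ring
    -- the telescoping sum
    have htel : ∀ N ≤ n * J, ‖F N (((3 * g / 4 : ℝ) : ℂ) + T N * I)
        - F 0 (((3 * g / 4 : ℝ) : ℂ) + T 0 * I)‖
        ≤ ∑ m ∈ Finset.range N, 9 / (2 * Real.sqrt Real.pi) * Real.sqrt (a m + a (m + 1)) := by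
      intro N hN
      induction N with
      | zero => simp
      | succ N ih =>
        rw [Finset.sum_range_succ]
        have hN' : N < n * J := hN
        have hstep := one_step derBd_mu hB hS hK hn hg4 ha0 ha N (hFl N) (hFk N)
          (T := T N) (X := X N) (T' := T (N + 1)) (k := k N)
          (by have := (c1 N hN').1; rw [hth]; linarith)
          (by have := (c1 N hN').2; rw [hth]; linarith)
          (by rw [c2 N hN']; ring)
          (by have := (c3 N hN').1; rw [hth]; linarith)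
          (by have := (c3 N hN').2; rw [hth]; linarith)
          (c4 N hN')
        have h1 := ih hN'.le
        have h2 : F (N + 1) (((3 * g / 4 : ℝ) : ℂ) + T (N + 1) * I)
            - F 0 (((3 * g / 4 : ℝ) : ℂ) + T 0 * I)
            = (F N (((3 * g / 4 : ℝ) : ℂ) + T N * I) - F 0 (((3 * g / 4 : ℝ) : ℂ) + T 0 * I))
            + (F (N + 1) (((3 * g / 4 : ℝ) : ℂ) + T (N + 1) * I)
            - F N (((3 * g / 4 : ℝ) : ℂ) + T N * I)) := by ring
        rw [h2]
        refine (norm_add_le _ _).trans (add_le_add h1 ?_)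
        rw [add_comm (a N)]
        exact hstep
    refine ⟨T (n * J) - T 0 - J * (2 * Real.pi * Circ.nu w n θ), c5, ?_⟩
    have h1 := htel (n * J) le_rfl
    rw [hFJ J _ (hmem _), ← Finset.mul_sum] at h1
    set A : ℂ := F 0 (((3 * g / 4 : ℝ) : ℂ) + T (n * J) * I) with hA
    set B : ℂ := F 0 (((3 * g / 4 : ℝ) : ℂ) + T 0 * I) with hBdef
    have h2 : (J : ℂ) * L - I * ((J : ℂ) * (2 * Real.pi * (Circ.nu w n θ : ℝ)) +
        ((T (n * J) - T 0 - J * (2 * Real.pi * Circ.nu w n θ) : ℝ) : ℂ))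
        = ((A - T (n * J) * I) - (B - T 0 * I)) - ((A - J * L) - B) := by
      push_cast; ring
    have h3 := hK' (T (n * J))
    have h4 := hK' (T 0)
    calc _ = ‖((A - T (n * J) * I) - (B - T 0 * I)) - ((A - J * L) - B)‖ := by rw [← h2]
      _ ≤ ‖(A - T (n * J) * I) - (B - T 0 * I)‖ + ‖(A - J * L) - B‖ := norm_sub_le _ _
      _ ≤ (‖A - T (n * J) * I‖ + ‖B - T 0 * I‖) + ‖(A - J * L) - B‖ := by
          gcongr; exact norm_sub_le _ _
      _ ≤ _ := by linarith

end Pool.Agent.Work.MLC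
end

section
set_option autoImplicit false

/-! # A smooth profile and a Landau type bound  (helper65, Lemma C, second version) -/

namespace Pool.Agent.Work.MLC.C65

open Filter Topology Metric Set Complex MeasureTheory

/-! ### the Landau type bound -/

/-- the logarithmic derivative of a zero free injective function on a ball -/
theorem norm_deriv_le_of_zero_free {F : ℂ → ℂ} {z : ℂ} {R : ℝ} (hR : 0 < R)
    (hF : DifferentiableOn ℂ F (ball z R)) (hinj : InjOn F (ball z R))
    (h0 : ∀ x ∈ ball z R, F x ≠ 0) : ‖deriv F z‖ ≤ 16 * ‖F z‖ / R := by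
  have hpi := Real.pi_pos
  have hz0 : 0 < ‖F z‖ := norm_pos_iff.2 (h0 z (mem_ball_self hR))
  set D : ℂ → ℂ := fun x => deriv F x / F x with hD
  have hDc : ContinuousOn D (ball z R) :=
    (hF.deriv isOpen_ball).continuousOn.div hF.continuousOn h0
  -- the bound on smaller balls
  have key : ∀ R', 0 < R' → R' < R → R' * ‖D z‖ ≤ 16 := by
    intro R' hR' hRR
    have hsub : closedBall z R' ⊆ ball z R := closedBall_subset_ball hRR
    obtain ⟨y, hy, hmax⟩ := (isCompact_closedBall z R').exists_isMaxOn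
      ⟨z, mem_closedBall_self hR'.le⟩ (f := fun x => (R' - ‖x - z‖) * ‖D x‖)
      ((by fun_prop : Continuous fun x : ℂ => R' - ‖x - z‖).continuousOn.mul (hDc.mono hsub).norm)
    set m : ℝ := (R' - ‖y - z‖) * ‖D y‖ with hm
    have hmz : R' * ‖D z‖ ≤ m := by
      have := hmax (mem_closedBall_self (x := z) hR'.le)
      simpa using this
    have hle : ∀ x ∈ closedBall z R', (R' - ‖x - z‖) * ‖D x‖ ≤ m := fun x hx => hmax hx
    rcases le_or_gt m 0 with hm0 | hm0
    · linarith
    refine hmz.trans ?_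
    have hyR : 0 < R' - ‖y - z‖ := by
      rw [mem_closedBall, dist_eq_norm] at hy
      refine lt_of_le_of_ne (by linarith) fun h => ?_
      rw [hm, ← h, zero_mul] at hm0
      exact lt_irrefl _ hm0
    set s : ℝ := (R' - ‖y - z‖) / 2 with hs
    have hs0 : 0 < s := by positivity
    have hin : ∀ x ∈ ball y s, x ∈ closedBall z R' ∧ s ≤ R' - ‖x - z‖ := by
      intro x hx
      rw [mem_ball, dist_eq_norm] at hx
      have h1 : ‖x - z‖ ≤ ‖x - y‖ + ‖y - z‖ := norm_sub_le_norm_sub_add_norm_sub x y z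
      rw [mem_closedBall, dist_eq_norm]
      constructor <;> linarith
    have hsubB : ball y s ⊆ ball z R := fun x hx => hsub (hin x hx).1
    have hFB : DifferentiableOn ℂ F (ball y s) := hF.mono hsubB
    have hinjB : InjOn F (ball y s) := hinj.mono hsubB
    have h0B : ∀ x ∈ ball y s, F x ≠ 0 := fun x hx => h0 x (hsubB hx)
    obtain ⟨Φ, hΦ, hΦF⟩ := exists_log_on (convex_ball y s) isOpen_ball hFB.continuousOn h0B
    have hΦd := Tr.differentiableOn_of_exp isOpen_ball hFB hΦ hΦF
    have hΦ' : ∀ x ∈ ball y s, deriv Φ x = D x := by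
      intro x hx
      have h1 : HasDerivAt Φ (deriv Φ x) x :=
        (hΦd.differentiableAt (isOpen_ball.mem_nhds hx)).hasDerivAt
      have h2 : HasDerivAt F (Complex.exp (Φ x) * deriv Φ x) x := by
        refine (h1.cexp).congr_of_eventuallyEq ?_
        filter_upwards [isOpen_ball.mem_nhds hx] with t ht
        exact (hΦF t ht).symm
      rw [hD]
      simp only
      rw [h2.deriv, hΦF x hx, mul_div_assoc, mul_comm, div_mul_cancel₀]
      exact h0B x hx
    have hosc : ∀ x ∈ ball y s, ∀ x' ∈ ball y s, ‖Φ x - Φ x'‖ < 2 * m := by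
      intro x hx x' hx'
      have h1 := (convex_ball y s).norm_image_sub_le_of_norm_deriv_le (f := Φ) (C := m / s)
        (fun t ht => hΦd.differentiableAt (isOpen_ball.mem_nhds ht)) (fun t ht => by
          rw [hΦ' t ht, le_div_iff₀ hs0, mul_comm]
          obtain ⟨h2, h3⟩ := hin t ht
          exact (mul_le_mul_of_nonneg_right h3 (norm_nonneg _)).trans (hle t h2)) hx' hx
      refine h1.trans_lt ?_
      have h2 : ‖x - x'‖ < 2 * s := by
        rw [mem_ball] at hx hx'
        have := dist_triangle_right x x' y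
        rw [← dist_eq_norm]
        linarith
      calc m / s * ‖x - x'‖ < m / s * (2 * s) := by
            apply mul_lt_mul_of_pos_left h2 (by positivity)
        _ = 2 * m := by field_simp
    have hρ : ‖((Real.exp (2 * m) : ℝ) : ℂ)‖ = Real.exp (2 * m) := by
      rw [Complex.norm_real, Real.norm_of_nonneg (Real.exp_pos _).le]
    have h1 : 1 < ‖((Real.exp (2 * m) : ℝ) : ℂ)‖ := by
      rw [hρ]; exact Real.one_lt_exp_iff.2 (by linarith)
    have hlog : ∀ x ∈ ball y s, Real.log ‖F x‖ = (Φ x).re := fun x hx => by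
      rw [← hΦF x hx, Complex.norm_exp, Real.log_exp]
    have hmu : mu (F '' ball y s) ≤ ENNReal.ofReal (2 * Real.pi * (2 * m)) := by
      have h2 := torus_lemma h1 (measurableSet_image (U := ball y s) hFB subset_rfl
        isOpen_ball.measurableSet hinjB) ?_
      · rwa [hρ, Real.log_exp] at h2
      · rintro _ ⟨x, hx, rfl⟩ _ ⟨x', hx', rfl⟩ j hj
        have h3 : ‖F x‖ = Real.exp (2 * m * j) * ‖F x'‖ := by
          rw [hj, norm_mul, norm_zpow, hρ, ← Real.rpow_intCast, ← Real.exp_mul]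
        have h4 : Real.log ‖F x‖ = 2 * m * j + Real.log ‖F x'‖ := by
          rw [h3, Real.log_mul (Real.exp_ne_zero _) (norm_ne_zero_iff.2 (h0B x' hx')), Real.log_exp]
        rw [hlog x hx, hlog x' hx'] at h4
        have h5 : |2 * m * j| < 2 * m := by
          have h6 : 2 * m * j = (Φ x - Φ x').re := by rw [sub_re]; linarith
          rw [h6]
          exact (abs_re_le_norm _).trans_lt (hosc x hx x' hx')
        rw [abs_mul, abs_of_pos (by linarith : 0 < 2 * m)] at h5
        have h7 : |(j : ℝ)| < 1 := by nlinarith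
        have h8 : |j| < 1 := by exact_mod_cast h7
        exact Int.abs_lt_one_iff.1 h8
    have h2 := derBd_mu.le hs0 hFB hinjB h0B hΦ hΦF (by positivity) hmu
    rw [hΦ' y (mem_ball_self hs0), le_div_iff₀ hs0] at h2
    have h3 : ‖D y‖ * s = m / 2 := by rw [hm, hs]; ring
    have h4 : 2 * Real.pi * (2 * m) / Real.pi = 4 * m := by field_simp; ring
    rw [h3, h4] at h2
    have h5 : (m / 2) ^ 2 ≤ 4 * m := by
      calc (m / 2) ^ 2 ≤ (Real.sqrt (4 * m)) ^ 2 := by gcongr
        _ = 4 * m := Real.sq_sqrt (by linarith)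
    nlinarith
  have hDz : R * ‖D z‖ ≤ 16 := by
    by_contra hcon
    push Not at hcon
    have hDpos : 0 < ‖D z‖ := by
      by_contra h
      have : ‖D z‖ = 0 := le_antisymm (not_lt.1 h) (norm_nonneg _)
      rw [this] at hcon
      linarith
    have h1 : 16 / ‖D z‖ < R := by rw [div_lt_iff₀ hDpos]; exact hcon
    have h2 := key ((16 / ‖D z‖ + R) / 2) (by positivity) (by linarith)
    have h3 : (16 / ‖D z‖ + R) / 2 * ‖D z‖ = (16 + R * ‖D z‖) / 2 := by field_simp
    rw [h3] at h2
    linarith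
  rw [hD] at hDz
  simp only at hDz
  rw [norm_div] at hDz
  rw [le_div_iff₀ hR]
  have h1 : R * (‖deriv F z‖ / ‖F z‖) = (R * ‖deriv F z‖) / ‖F z‖ := by ring
  rw [h1, div_le_iff₀ hz0] at hDz
  linarith

/-! ### the smooth profile -/

/-- smooth distance to the `i`-th slit angle -/
noncomputable def q2 (g th : ℝ) (i : ℕ) (x : ℝ) : ℝ :=
  Real.sqrt ((2 ^ i * (g / 2)) ^ 2 + (2 - 2 * Real.cos (x - 2 ^ i * th)))

variable {g th : ℝ}

lemma q2_arg_pos (hg : 0 < g) (i : ℕ) (x : ℝ) :
    0 < (2 ^ i * (g / 2)) ^ 2 + (2 - 2 * Real.cos (x - 2 ^ i * th)) := by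
  have h1 := Real.cos_le_one (x - 2 ^ i * th)
  have : 0 < (2 ^ i * (g / 2)) ^ 2 := by positivity
  linarith

lemma q2_pos (hg : 0 < g) (i : ℕ) (x : ℝ) : 0 < q2 g th i x := Real.sqrt_pos.2 (q2_arg_pos hg i x)

lemma q2_sq (hg : 0 < g) (i : ℕ) (x : ℝ) :
    q2 g th i x ^ 2 = (2 ^ i * (g / 2)) ^ 2 + (2 - 2 * Real.cos (x - 2 ^ i * th)) :=
  Real.sq_sqrt (q2_arg_pos hg i x).le

lemma q2_per (i : ℕ) (x : ℝ) : q2 g th i (x + 2 * Real.pi) = q2 g th i x := by
  unfold q2
  have : x + 2 * Real.pi - 2 ^ i * th = x - 2 ^ i * th + 2 * Real.pi := by ring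
  rw [this, Real.cos_add_two_pi]

lemma hasDerivAt_q2 (hg : 0 < g) (i : ℕ) (x : ℝ) :
    HasDerivAt (q2 g th i) (Real.sin (x - 2 ^ i * th) / q2 g th i x) x := by
  have h1 : HasDerivAt (fun x : ℝ => x - 2 ^ i * th) 1 x := (hasDerivAt_id x).sub_const _
  have h2 := (((h1.cos).const_mul 2).const_sub 2).const_add ((2 ^ i * (g / 2)) ^ 2)
  have h3 := h2.sqrt (q2_arg_pos (th := th) hg i x).ne'
  refine h3.congr_deriv ?_
  unfold q2
  ring

lemma sin_sq_le (u : ℝ) : Real.sin u ^ 2 ≤ 2 - 2 * Real.cos u := by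
  have h1 := Real.sin_sq_add_cos_sq u
  nlinarith [sq_nonneg (1 - Real.cos u)]

lemma q2_deriv_le (hg : 0 < g) (i : ℕ) (x : ℝ) :
    |Real.sin (x - 2 ^ i * th) / q2 g th i x| ≤ 1 := by
  have hq := q2_pos (th := th) hg i x
  rw [abs_div, abs_of_pos hq, div_le_one hq]
  apply abs_le_of_sq_le_sq _ hq.le
  rw [q2_sq hg]
  have := sin_sq_le (x - 2 ^ i * th)
  have h2 : 0 ≤ (2 ^ i * (g / 2)) ^ 2 := by positivity
  linarith

lemma continuous_q2 (i : ℕ) : Continuous (q2 g th i) := by
  unfold q2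
  fun_prop

/-- comparison with the profile of the first version -/
lemma q_le_q2 (hg : 0 < g) (i : ℕ) (x : ℝ) : 2 / Real.pi * q (g / 2) th i x ≤ q2 g th i x := by
  have hpi := Real.pi_pos
  have hpi3 := Real.pi_gt_three
  unfold q
  have hA : 0 ≤ 2 ^ i * (g / 2) := by positivity
  have h1 : 2 / Real.pi * (2 ^ i * (g / 2)) ≤ q2 g th i x := by
    apply Real.le_sqrt_of_sq_le
    have h2 := Real.cos_le_one (x - 2 ^ i * th)
    have h3 : 2 / Real.pi ≤ 1 := by rw [div_le_one hpi]; linarith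
    have h4 : 2 / Real.pi * (2 ^ i * (g / 2)) ≤ 2 ^ i * (g / 2) := mul_le_of_le_one_left hA h3
    have h5 : (2 / Real.pi * (2 ^ i * (g / 2))) ^ 2 ≤ (2 ^ i * (g / 2)) ^ 2 :=
      pow_le_pow_left₀ (by positivity) h4 2
    linarith
  have h2 : 2 / Real.pi * ‖((x - 2 ^ i * th : ℝ) : AddCircle (2 * Real.pi))‖ ≤ q2 g th i x := by
    apply Real.le_sqrt_of_sq_le
    set t : ℝ := x - 2 ^ i * th with ht
    set k : ℤ := round ((2 * Real.pi)⁻¹ * t) with hk
    set u : ℝ := t - k * (2 * Real.pi) with hu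
    have h3 : ‖(t : AddCircle (2 * Real.pi))‖ = |u| := by
      rw [AddCircle.norm_eq, hu, hk]
    have h4 : Real.cos t = Real.cos u := by
      rw [hu, Real.cos_sub_int_mul_two_pi]
    have h5 : |u| ≤ Real.pi := by
      rw [← h3]
      have := AddCircle.norm_le_half_period (2 * Real.pi) (by positivity) (x := (t : AddCircle (2 * Real.pi)))
      rw [abs_of_pos (by positivity)] at this
      linarith
    have h6 := Real.cos_le_one_sub_mul_cos_sq h5
    rw [h3, mul_pow, sq_abs, h4]
    have h7 : (2 / Real.pi) ^ 2 * u ^ 2 = 2 * (2 / Real.pi ^ 2 * u ^ 2) := by ring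
    have h8 : 0 ≤ (2 ^ i * (g / 2)) ^ 2 := by positivity
    rw [h7]
    linarith
  rw [mul_max_of_nonneg _ _ (by positivity)]
  exact max_le h1 h2

/-- the cost of one slit -/
lemma integral_inv_q2_le (hg : 0 < g) (i : ℕ) :
    ∫ x in (0 : ℝ)..(2 * Real.pi), 1 / q2 g th i x ≤
      2 * Real.pi * Real.log (1 + 2 * Real.pi / g) := by
  have hpi := Real.pi_pos
  have h1 := integral_inv_q_le (g := g / 2) (th := th) (by positivity) i
  have hcq : Continuous fun x => 1 / q (g / 2) th i x :=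
    continuous_const.div (continuous_q i) (fun x => (q_pos (by positivity) i x).ne')
  have hcq2 : Continuous fun x => 1 / q2 g th i x :=
    continuous_const.div (continuous_q2 i) (fun x => (q2_pos hg i x).ne')
  have h2 : ∫ x in (0 : ℝ)..(2 * Real.pi), 1 / q2 g th i x ≤
      ∫ x in (0 : ℝ)..(2 * Real.pi), Real.pi / 2 * (1 / q (g / 2) th i x) := by
    refine intervalIntegral.integral_mono_on (by positivity) (hcq2.intervalIntegrable _ _)
      ((continuous_const.mul hcq).intervalIntegrable _ _) (fun x _ => ?_)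
    have h3 := q_pos (g := g / 2) (th := th) (by positivity) i x
    have h4 := q_le_q2 (th := th) hg i x
    have h5 := q2_pos (th := th) hg i x
    have h6 : Real.pi / 2 * (1 / q (g / 2) th i x) = 1 / (2 / Real.pi * q (g / 2) th i x) := by
      field_simp
    rw [h6]
    exact one_div_le_one_div_of_le (by positivity) h4
  rw [intervalIntegral.integral_const_mul] at h2
  have h7 : Real.pi / (g / 2) = 2 * Real.pi / g := by field_simp
  rw [h7] at h1
  calc _ ≤ Real.pi / 2 * ∫ x in (0 : ℝ)..(2 * Real.pi), 1 / q (g / 2) th i x := h2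
    _ ≤ Real.pi / 2 * (4 * Real.log (1 + 2 * Real.pi / g)) := by gcongr
    _ = _ := by ring

/-- the inverse of the smooth profile -/
noncomputable def S (g th : ℝ) (n : ℕ) (x : ℝ) : ℝ :=
  1 / 4 + ∑ i ∈ Finset.range n, 1 / q2 g th i x

/-- the smooth profile -/
noncomputable def rp (g th : ℝ) (n : ℕ) (x : ℝ) : ℝ := 1 / S g th n x

lemma S_ge (hg : 0 < g) (n : ℕ) (x : ℝ) : 1 / 4 ≤ S g th n x := by
  unfold S
  have : 0 ≤ ∑ i ∈ Finset.range n, 1 / q2 g th i x :=
    Finset.sum_nonneg fun i _ => (by have := q2_pos (th := th) hg i x; positivity)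
  linarith

lemma S_pos (hg : 0 < g) (n : ℕ) (x : ℝ) : 0 < S g th n x := by
  have := S_ge (th := th) hg n x
  linarith

lemma rp_pos (hg : 0 < g) (n : ℕ) (x : ℝ) : 0 < rp g th n x := by
  unfold rp
  have := S_pos (th := th) hg n x
  positivity

lemma rp_le (hg : 0 < g) (n : ℕ) (x : ℝ) : rp g th n x ≤ 4 := by
  unfold rp
  have h1 := S_ge (th := th) hg n x
  have h2 := S_pos (th := th) hg n x
  rw [div_le_iff₀ h2]
  linarith

lemma rp_per (n : ℕ) (x : ℝ) : rp g th n (x + 2 * Real.pi) = rp g th n x := by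
  unfold rp S
  simp only [q2_per]

lemma rp_lt_q2 (hg : 0 < g) {n i : ℕ} (hi : i < n) (x : ℝ) : rp g th n x < q2 g th i x := by
  unfold rp
  have h2 := S_pos (th := th) hg n x
  have hq := q2_pos (th := th) hg i x
  have h3 : 1 / q2 g th i x < S g th n x := by
    unfold S
    have := Finset.single_le_sum (f := fun i => 1 / q2 g th i x)
      (fun j _ => (by have := q2_pos (th := th) hg j x; positivity)) (Finset.mem_range.2 hi)
    linarith
  rw [div_lt_iff₀ h2]
  rw [div_lt_iff₀ hq] at h3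
  linarith

/-- at the slits -/
lemma rp_lt_slit (hg : 0 < g) {n i : ℕ} (hi : i < n) {x : ℝ} {k : ℤ}
    (hx : x = 2 ^ i * th + k * (2 * Real.pi)) : rp g th n x < 2 ^ i * (g / 2) := by
  refine (rp_lt_q2 hg hi x).trans_le ?_
  unfold q2
  have h1 : Real.cos (x - 2 ^ i * th) = 1 := by
    have : x - 2 ^ i * th = k * (2 * Real.pi) := by rw [hx]; ring
    rw [this, Real.cos_int_mul_two_pi]
  rw [h1]
  have h2 : (2 ^ i * (g / 2)) ^ 2 + (2 - 2 * 1) = (2 ^ i * (g / 2)) ^ 2 := by ring
  rw [h2, Real.sqrt_sq (by positivity)]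

/-- the derivative of the profile -/
noncomputable def rp' (g th : ℝ) (n : ℕ) (x : ℝ) : ℝ :=
  (∑ i ∈ Finset.range n, (Real.sin (x - 2 ^ i * th) / q2 g th i x) / q2 g th i x ^ 2)
    / S g th n x ^ 2

lemma hasDerivAt_rp (hg : 0 < g) (n : ℕ) (x : ℝ) : HasDerivAt (rp g th n) (rp' g th n x) x := by
  have h1 : HasDerivAt (S g th n)
      (∑ i ∈ Finset.range n, -((Real.sin (x - 2 ^ i * th) / q2 g th i x) / q2 g th i x ^ 2)) x := by
    have h2 : HasDerivAt (fun x => ∑ i ∈ Finset.range n, 1 / q2 g th i x)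
        (∑ i ∈ Finset.range n, -((Real.sin (x - 2 ^ i * th) / q2 g th i x) / q2 g th i x ^ 2)) x := by
      refine HasDerivAt.fun_sum fun i _ => ?_
      have h3 := (hasDerivAt_q2 (th := th) hg i x).inv (q2_pos hg i x).ne'
      have h4 : (fun x => 1 / q2 g th i x) = fun x => (q2 g th i x)⁻¹ := by
        funext x; rw [one_div]
      rw [h4]
      exact h3.congr_deriv (by ring)
    exact h2.const_add (1 / 4)
  have h2 := h1.inv (S_pos (th := th) hg n x).ne'
  have h3 : rp g th n = fun x => (S g th n x)⁻¹ := by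
    funext x; unfold rp; rw [one_div]
  rw [h3]
  refine h2.congr_deriv ?_
  unfold rp'
  rw [Finset.sum_neg_distrib, neg_neg]

lemma abs_rp'_le (hg : 0 < g) (n : ℕ) (x : ℝ) : |rp' g th n x| ≤ 1 := by
  have hS := S_pos (th := th) hg n x
  unfold rp'
  rw [abs_div, abs_of_pos (by positivity : 0 < S g th n x ^ 2), div_le_one (by positivity)]
  refine (Finset.abs_sum_le_sum_abs _ _).trans ?_
  have h1 : ∀ i ∈ Finset.range n,
      |(Real.sin (x - 2 ^ i * th) / q2 g th i x) / q2 g th i x ^ 2| ≤ (1 / q2 g th i x) ^ 2 := by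
    intro i _
    have hq := q2_pos (th := th) hg i x
    rw [abs_div, abs_of_pos (by positivity : 0 < q2 g th i x ^ 2), one_div, inv_pow, ← one_div]
    exact div_le_div_of_nonneg_right (q2_deriv_le hg i x) (by positivity)
  refine (Finset.sum_le_sum h1).trans ?_
  have h2 : ∀ i ∈ Finset.range n, 0 ≤ 1 / q2 g th i x := fun i _ => by
    have := q2_pos (th := th) hg i x
    positivity
  refine (Finset.sum_sq_le_sq_sum_of_nonneg h2).trans ?_
  apply pow_le_pow_left₀ (Finset.sum_nonneg h2)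
  unfold S
  linarith

lemma continuous_S (hg : 0 < g) (n : ℕ) : Continuous (S g th n) := by
  unfold S
  exact continuous_const.add (continuous_finsetSum _ fun i _ =>
    continuous_const.div (continuous_q2 i) fun x => (q2_pos hg i x).ne')

lemma continuous_rp' (hg : 0 < g) (n : ℕ) : Continuous (rp' g th n) := by
  unfold rp'
  refine Continuous.div (continuous_finsetSum _ fun i _ => ?_) ((continuous_S hg n).pow 2)
    fun x => (pow_pos (S_pos hg n x) 2).ne'
  refine Continuous.div (Continuous.div ?_ (continuous_q2 i) fun x => (q2_pos hg i x).ne')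
    ((continuous_q2 i).pow 2) fun x => (pow_pos (q2_pos hg i x) 2).ne'
  fun_prop

lemma continuous_rp (hg : 0 < g) (n : ℕ) : Continuous (rp g th n) := by
  unfold rp
  exact continuous_const.div (continuous_S hg n) fun x => (S_pos hg n x).ne'

/-- the total cost -/
theorem integral_inv_rp_le (hg : 0 < g) (n : ℕ) :
    ∫ x in (0 : ℝ)..(2 * Real.pi), 1 / rp g th n x ≤
      Real.pi / 2 + n * (2 * Real.pi * Real.log (1 + 2 * Real.pi / g)) := by
  have hpi := Real.pi_pos
  have hcq : ∀ i, Continuous fun x => 1 / q2 g th i x := fun i =>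
    continuous_const.div (continuous_q2 i) (fun x => (q2_pos hg i x).ne')
  have h1 : ∀ x, 1 / rp g th n x = 1 / 4 + ∑ i ∈ Finset.range n, 1 / q2 g th i x := fun x => by
    unfold rp
    rw [one_div_one_div]
    rfl
  simp_rw [h1]
  rw [intervalIntegral.integral_add (by simp)
    ((continuous_finsetSum _ fun i _ => hcq i).intervalIntegrable _ _),
    intervalIntegral.integral_finsetSum fun i _ => (hcq i).intervalIntegrable _ _]
  have h2 : ∑ i ∈ Finset.range n, ∫ x in (0 : ℝ)..(2 * Real.pi), 1 / q2 g th i x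
      ≤ ∑ i ∈ Finset.range n, 2 * Real.pi * Real.log (1 + 2 * Real.pi / g) :=
    Finset.sum_le_sum fun i _ => integral_inv_q2_le hg i
  rw [Finset.sum_const, Finset.card_range, nsmul_eq_mul] at h2
  simp only [intervalIntegral.integral_const, sub_zero, smul_eq_mul]
  linarith

end Pool.Agent.Work.MLC.C65
end

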