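import Mathlib
import Pool.Agent.Work.MLCM.C05
import Pool.Agent.Work.MLCM.C08
import Pool.Agent.Work.MLCM.C12
import Pool.Agent.Work.MLCM.C13
import Pool.Agent.Work.MLCM.C16
import Pool.Agent.Work.MLCM.C17
import Pool.Agent.Work.MLCM.C20
import Pool.Agent.Work.MLCM.C24
import Pool.Agent.Work.MLCM.C27
import Pool.Agent.Work.MLCM.C28

section
set_option autoImplicit false

/-! # (5a) The label at parameters of the Mandelbrot set (helper59)

`labM n c b` = label of the arc of angles fitting the portrait of landing rays of `b`. It is well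
defined (union of two portraits) and locally constant, and near `(c₀, b₀)` it is the label of every
exterior pair. -/

namespace Pool.Agent.Work.MLC

open Filter Topology Metric Set Complex
open Pool.Agent.MLC (InHalf Portrait Linked)

/-- `(θ, w)` fits the portrait generated by `B` -/
def Fits (c b : ℂ) (B : Set ℝ) (θ : ℝ) (w : ℕ → ℤ) : Prop :=
  ∀ i, Pool.Agent.MLC.InHalf (port c b B i) θ (w i)

lemma Lands.push59 {c β b} (h : Lands c β b) (j : ℕ) : Lands c (2 ^ j * β) (it c j b) := by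
  obtain ⟨R, hR⟩ := h
  exact ⟨_, hR.push_it j⟩

lemma Lands.add59 {c β b} (h : Lands c β b) (m : ℤ) : Lands c (β + m) b := by
  obtain ⟨R, hR⟩ := h
  exact ⟨_, hR.add_int m⟩

lemma Lands.uniq59 {c β b b'} (h : Lands c β b) (h' : Lands c β b') : b = b' := by
  obtain ⟨R, hR⟩ := h
  obtain ⟨R', hR'⟩ := h'
  exact hR.b_unique hR'

lemma pow_mem_port {c b : ℂ} {B : Set ℝ} {β : ℝ} (hβ : β ∈ B) (h : Lands c β b) (i : ℕ) :
    2 ^ i * β ∈ port c b B i :=
  ⟨⟨β, hβ, i, 0, by simp⟩, h.push59 i⟩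

lemma port_mono {c b : ℂ} {B B' : Set ℝ} (h : B ⊆ B') (i : ℕ) : port c b B i ⊆ port c b B' i := by
  rintro a ⟨⟨β, hβ, j, k, hk⟩, hl⟩
  exact ⟨⟨β, h hβ, j, k, hk⟩, hl⟩

lemma Fits.mono {c b : ℂ} {B B' : Set ℝ} (h : B ⊆ B') {θ : ℝ} {w : ℕ → ℤ} (hf : Fits c b B' θ w) :
    Fits c b B θ w := fun i a ha => hf i a (port_mono h i ha)

lemma Fits.compat {c b : ℂ} {B : Set ℝ} {θ : ℝ} {w : ℕ → ℤ} (hf : Fits c b B θ w) {β : ℝ}
    (hβ : β ∈ B) (h : Lands c β b) : Compat β θ w := by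
  intro i
  obtain ⟨k, h1, h2⟩ := hf i _ (pow_mem_port hβ h i)
  refine ⟨-k, ?_, ?_⟩ <;> push_cast <;> linarith

lemma Fam.union {n : ℕ} {c b : ℂ} {B B' : Set ℝ} (h : Fam n c b B) (h' : Fam n c b B') :
    Fam n c b (B ∪ B') where
  fin := h.fin.union h'.fin
  per := by
    rintro β (hβ | hβ)
    · exact h.per β hβ
    · exact h'.per β hβ
  land := by
    rintro β (hβ | hβ)
    · exact h.land β hβ
    · exact h'.land β hβ
  two := by
    obtain ⟨β, hβ, h2⟩ := h.two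
    exact ⟨β, Or.inl hβ, h2⟩

lemma bits_eq_of_even {x y : ℤ} (hx : x = 0 ∨ x = 1) (hy : y = 0 ∨ y = 1) {j : ℤ}
    (h : y = x + 2 * j) : y = x := by omega

lemma port_nonempty {n : ℕ} {c b : ℂ} {B : Set ℝ} (hF : Fam n c b B) (i : ℕ) :
    (port c b B i).Nonempty := by
  obtain ⟨β, hβ, -⟩ := hF.two
  exact ⟨_, pow_mem_port hβ (hF.land β hβ) i⟩

/-- the word of the arc is periodic -/
lemma bits_of_inHalf {n : ℕ} {c b : ℂ} {B : Set ℝ} (hF : Fam n c b B)
    (hP : Portrait n (port c b B)) {v : ℕ → ℤ} (hv : ∀ i, v i = 0 ∨ v i = 1) {θ : ℝ}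
    (h : Fits c b B θ v) : Bits n v where
  bit := hv
  per := by
    intro i
    have h1 := h i
    have h2 := h (i + n)
    rw [hP.per i] at h2
    obtain ⟨j, hj⟩ := InHalf.unique (port_nonempty hF i) h1 h2
    exact bits_eq_of_even (hv i) (hv (i + n)) hj

theorem exists_fits {n : ℕ} (hn : 0 < n) {c b : ℂ} {B : Set ℝ} (hF : Fam n c b B)
    (hP : Portrait n (port c b B)) : ∃ θ v, Bits n v ∧ Fits c b B θ v := by
  obtain ⟨s, t, hst, -, -, ⟨v, hv, hvI⟩, -⟩ := hP.arc_word hn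
  have h : Fits c b B ((s + t) / 2) v := fun i => hvI i _ ⟨by linarith, by linarith⟩
  exact ⟨_, v, bits_of_inHalf hF hP hv h, h⟩

/-- all fitting angles and words of one portrait have the same label -/
theorem lab_wd {n : ℕ} (hn : 0 < n) {c b : ℂ} {B : Set ℝ} (hF : Fam n c b B)
    (hP : Portrait n (port c b B)) {θ θ' : ℝ} {w w' : ℕ → ℤ} (hw : Bits n w) (hw' : Bits n w')
    (h : Fits c b B θ w) (h' : Fits c b B θ' w') : lab n θ w = lab n θ' w' := by
  obtain ⟨s, t, hst, -, -, ⟨v, hv, hvI⟩, hall⟩ := hP.arc_word hn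
  have hvB : Bits n v := by
    have h : Fits c b B ((s + t) / 2) v := fun i => hvI i _ ⟨by linarith, by linarith⟩
    exact bits_of_inHalf hF hP hv h
  have key : ∀ (θ : ℝ) (w : ℕ → ℤ), Bits n w → Fits c b B θ w →
      ∃ k : ℤ, θ + k ∈ Ioo s t ∧ lab n (θ + k) v = lab n θ w := by
    intro θ w hw h
    obtain ⟨k, hk1, hk2⟩ := hall θ fun i => ⟨w i, h i⟩
    refine ⟨k, ⟨hk1, hk2⟩, lab_congr hw hvB k rfl fun i => ?_⟩
    have h1 := (h i).shift k
    have h2 := hvI i (θ + k) ⟨hk1, hk2⟩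
    obtain ⟨j, hj⟩ := InHalf.unique (port_nonempty hF i) h1 h2
    exact ⟨j - k, by omega⟩
  obtain ⟨k, hk, hk2⟩ := key θ w hw h
  obtain ⟨k', hk', hk2'⟩ := key θ' w' hw' h'
  rw [← hk2, ← hk2']
  refine (lab_of_strip hvB ?_).symm
  intro x hx m
  have hx' : x ∈ Ioo s t := by
    rcases mem_uIcc.1 hx with h | h
    · exact ⟨hk.1.trans_le h.1, h.2.trans_lt hk'.2⟩
    · exact ⟨hk'.1.trans_le h.1, h.2.trans_lt hk.2⟩
  obtain ⟨β, hβ, q, hq, hpq⟩ := hF.two
  have hfx : Fits c b B x v := fun i => hvI i x hx'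
  exact nu_ne_int_of_compat hq hpq hvB.per (hfx.compat hβ (hF.land β hβ)) m

/-- two families give the same label -/
theorem lab_wd2 {n : ℕ} (hn : 0 < n) {c b : ℂ} {B B' : Set ℝ} (hF : Fam n c b B)
    (hF' : Fam n c b B') (hport : ∀ B, Fam n c b B → Portrait n (port c b B)) {θ θ' : ℝ}
    {w w' : ℕ → ℤ} (hw : Bits n w) (hw' : Bits n w')
    (h : Fits c b B θ w) (h' : Fits c b B' θ' w') : lab n θ w = lab n θ' w' := by
  obtain ⟨φ, v, hv, hφ⟩ := exists_fits hn (hF.union hF') (hport _ (hF.union hF'))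
  have h1 := lab_wd hn hF (hport _ hF) hw hv h (hφ.mono subset_union_left)
  have h2 := lab_wd hn hF' (hport _ hF') hw' hv h' (hφ.mono subset_union_right)
  rw [h1, h2]

instance (n : ℕ) : Nonempty (Lab n) := ⟨⟨⟨fun _ => false, fun _ _ => rfl⟩, 0⟩⟩

/-- the label at a parameter of the Mandelbrot set -/
noncomputable def labM (n : ℕ) (c b : ℂ) : Lab n :=
  Classical.epsilon fun l => ∃ B θ w, Fam n c b B ∧ Bits n w ∧ Fits c b B θ w ∧ l = lab n θ w

theorem labM_eq {n : ℕ} (hn : 0 < n) {c b : ℂ} {B : Set ℝ} (hF : Fam n c b B)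
    (hport : ∀ B, Fam n c b B → Portrait n (port c b B)) {θ : ℝ} {w : ℕ → ℤ} (hw : Bits n w)
    (h : Fits c b B θ w) : labM n c b = lab n θ w := by
  have h1 := Classical.epsilon_spec
    (p := fun l => ∃ B θ w, Fam n c b B ∧ Bits n w ∧ Fits c b B θ w ∧ l = lab n θ w)
    ⟨_, B, θ, w, hF, hw, h, rfl⟩
  obtain ⟨B', θ', w', hF', hw', h', he⟩ := h1
  have h2 : labM n c b = lab n θ' w' := he
  rw [h2]
  exact lab_wd2 hn hF' hF hport hw' hw h' h

/-! ### neighbouring points of the curve -/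

lemma it_add_periodic {c b : ℂ} {n : ℕ} (h : it c n b = b) (i : ℕ) : it c (i + n) b = it c i b := by
  rw [it_add, h]

lemma it_mod_periodic {c b : ℂ} {n : ℕ} (h : it c n b = b) (i : ℕ) :
    it c i b = it c (i % n) b := by
  conv_lhs => rw [← Nat.mod_add_div i n]
  generalize i / n = k
  induction k with
  | zero => simp
  | succ k ih => rw [Nat.mul_succ, ← add_assoc, it_add_periodic h, ih]

lemma it_it_periodic {c b : ℂ} {n : ℕ} (h : it c n b = b) (i : ℕ) :
    it c n (it c i b) = it c i b := by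
  rw [← it_add, add_comm n i, it_add, h]

/-- the multiplier is the same at all points of the cycle -/
lemma mult_it {c b : ℂ} {n : ℕ} (hn : 0 < n) (h : it c n b = b) (hm : mult n c b ≠ 0) (i : ℕ) :
    mult n c (it c i b) = mult n c b := by
  induction i with
  | zero => simp
  | succ i ih =>
    set z := it c i b with hz
    have hzn : it c n z = z := it_it_periodic h i
    have hz0 : z ≠ 0 := by
      intro h0
      apply hm
      rw [← ih]
      unfold mult
      exact Finset.prod_eq_zero (Finset.mem_range.2 hn) (by simp [h0])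
    rw [it_succ, ← hz, ← ih]
    unfold mult
    have h1 : ∀ j, it c j (f c z) = it c (j + 1) z := by
      intro j
      rw [it_add]; rfl
    simp only [h1]
    have h2 := Finset.prod_range_succ (fun j => 2 * it c j z) n
    have h3 := Finset.prod_range_succ' (fun j => 2 * it c j z) n
    rw [h2, hzn] at h3
    simp only [it_zero] at h3
    exact (mul_right_cancel₀ (mul_ne_zero two_ne_zero hz0) h3).symm

/-- near a repelling periodic point the coincidences in the cycle do not change -/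
theorem coinc_nhds {n : ℕ} (hn : 0 < n) {c₀ b₀ : ℂ} (hfix : it c₀ n b₀ = b₀)
    (hρ : 1 < ‖mult n c₀ b₀‖) : ∀ᶠ x : ℂ × ℂ in 𝓝 (c₀, b₀), it x.1 n x.2 = x.2 →
      ∀ i j, (it x.1 i x.2 = it x.1 j x.2 ↔ it c₀ i b₀ = it c₀ j b₀) := by
  have hm0 : mult n c₀ b₀ ≠ 0 := by
    intro h; rw [h, norm_zero] at hρ; linarith
  have hcont : ∀ i, ContinuousAt (fun x : ℂ × ℂ => it x.1 i x.2) (c₀, b₀) := fun i =>
    (continuous_it i).continuousAt
  have h1 : ∀ i j, ∀ᶠ x : ℂ × ℂ in 𝓝 (c₀, b₀), it x.1 n x.2 = x.2 →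
      (it x.1 i x.2 = it x.1 j x.2 ↔ it c₀ i b₀ = it c₀ j b₀) := by
    intro i j
    by_cases hij : it c₀ i b₀ = it c₀ j b₀
    · -- chart at the common point
      set z₀ := it c₀ i b₀ with hz₀
      have hz₀n : ((c₀, z₀) : ℂ × ℂ) ∈ Per n := it_it_periodic hfix i
      have hz₀m : mul n (c₀, z₀) ≠ 1 := by
        have h2 : mul n (c₀, z₀) = mult n c₀ b₀ := mult_it hn hfix hm0 i
        rw [h2]
        intro h; rw [h, norm_one] at hρ; exact lt_irrefl _ hρ
      obtain ⟨β, -, -, hβ⟩ := chart hz₀n hz₀m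
      have hti : Tendsto (fun x : ℂ × ℂ => ((x.1, it x.1 i x.2) : ℂ × ℂ)) (𝓝 (c₀, b₀))
          (𝓝 (c₀, z₀)) := by
        have := (continuous_fst.continuousAt (x := ((c₀, b₀) : ℂ × ℂ))).prodMk (hcont i)
        exact this
      have htj : Tendsto (fun x : ℂ × ℂ => ((x.1, it x.1 j x.2) : ℂ × ℂ)) (𝓝 (c₀, b₀))
          (𝓝 (c₀, z₀)) := by
        have := (continuous_fst.continuousAt (x := ((c₀, b₀) : ℂ × ℂ))).prodMk (hcont j)
        rw [hij]
        exact this
      filter_upwards [hti.eventually hβ, htj.eventually hβ] with x hxi hxj hx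
      refine iff_of_true ?_ hij
      have h2 := hxi.1 (it_it_periodic hx i)
      have h3 := hxj.1 (it_it_periodic hx j)
      exact h2.symm.trans h3
    · have h2 : ∀ᶠ x : ℂ × ℂ in 𝓝 (c₀, b₀), it x.1 i x.2 - it x.1 j x.2 ≠ 0 :=
        ((hcont i).sub (hcont j)).eventually_ne (sub_ne_zero.mpr hij)
      filter_upwards [h2] with x hx _
      exact iff_of_false (sub_ne_zero.mp hx) hij
  have h2 : ∀ᶠ x : ℂ × ℂ in 𝓝 (c₀, b₀), ∀ i ∈ Finset.range n, ∀ j ∈ Finset.range n,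
      it x.1 n x.2 = x.2 → (it x.1 i x.2 = it x.1 j x.2 ↔ it c₀ i b₀ = it c₀ j b₀) := by
    rw [Finset.eventually_all]
    intro i _
    rw [Finset.eventually_all]
    intro j _
    exact h1 i j
  filter_upwards [h2] with x hx hxn i j
  rw [it_mod_periodic hxn i, it_mod_periodic hxn j, it_mod_periodic hfix i, it_mod_periodic hfix j]
  exact hx _ (Finset.mem_range.2 (Nat.mod_lt _ hn)) _ (Finset.mem_range.2 (Nat.mod_lt _ hn)) hxn

/-- the portrait does not change near a repelling point of a parameter of the Mandelbrot set -/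
theorem port_nhds {n : ℕ} (hn : 0 < n) {c₀ b₀ : ℂ} {B : Set ℝ} (hM : G c₀ 0 = 0)
    (hfix : it c₀ n b₀ = b₀) (hρ : 1 < ‖mult n c₀ b₀‖) (hF : Fam n c₀ b₀ B) :
    ∀ᶠ x : ℂ × ℂ in 𝓝 (c₀, b₀), it x.1 n x.2 = x.2 →
      Fam n x.1 x.2 B ∧ ∀ i, port x.1 x.2 B i = port c₀ b₀ B i := by
  have h1 : ∀ᶠ x : ℂ × ℂ in 𝓝 (c₀, b₀), ∀ β ∈ B, it x.1 n x.2 = x.2 → Lands x.1 β x.2 := by
    rw [hF.fin.eventually_all]
    intro β hβ
    obtain ⟨q, hq⟩ := hF.per β hβ
    exact lands_nhds hn hM hfix hρ (land_of_lands hM hq (hF.land β hβ))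
  filter_upwards [h1, coinc_nhds hn hfix hρ] with x hx hxc hxn
  refine ⟨⟨hF.fin, hF.per, fun β hβ => hx β hβ hxn, hF.two⟩, fun i => ?_⟩
  ext a
  constructor
  · rintro ⟨⟨β, hβ, j, k, rfl⟩, hl⟩
    refine ⟨⟨β, hβ, j, k, rfl⟩, ?_⟩
    have h2 := ((hx β hβ hxn).push59 j).add59 k
    have h3 := (hxc hxn j i).1 (h2.uniq59 hl)
    rw [← h3]
    exact ((hF.land β hβ).push59 j).add59 k
  · rintro ⟨⟨β, hβ, j, k, rfl⟩, hl⟩
    refine ⟨⟨β, hβ, j, k, rfl⟩, ?_⟩
    have h2 := ((hF.land β hβ).push59 j).add59 k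
    have h3 := (hxc hxn j i).2 (h2.uniq59 hl)
    rw [← h3]
    exact ((hx β hβ hxn).push59 j).add59 k

/-- hypothesis (5c) -/
def PortHyp (n : ℕ) : Prop := ∀ (c b : ℂ) (B : Set ℝ), G c 0 = 0 → it c n b = b →
  1 < ‖mult n c b‖ → Fam n c b B → Portrait n (port c b B)

/-- **(5a), inside `MM`**: the label is locally constant on the repelling points over `MM` -/
theorem labM_nhds {n : ℕ} (hn : 0 < n) (hPH : PortHyp n) {c₀ b₀ : ℂ} {B : Set ℝ}
    (hM : G c₀ 0 = 0) (hfix : it c₀ n b₀ = b₀) (hρ : 1 < ‖mult n c₀ b₀‖) (hF : Fam n c₀ b₀ B) :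
    ∀ᶠ x : ℂ × ℂ in 𝓝 (c₀, b₀), it x.1 n x.2 = x.2 → G x.1 0 = 0 →
      labM n x.1 x.2 = labM n c₀ b₀ := by
  have hm : ∀ᶠ x : ℂ × ℂ in 𝓝 (c₀, b₀), 1 < ‖mult n x.1 x.2‖ :=
    ((contDiff_mul n).continuous.norm.continuousAt (x := ((c₀, b₀) : ℂ × ℂ))).eventually_const_lt hρ
  obtain ⟨θ, w, hw, hfit⟩ := exists_fits hn hF (hPH _ _ _ hM hfix hρ hF)
  filter_upwards [port_nhds hn hM hfix hρ hF, hm] with x hx hxm hxn hxM
  obtain ⟨hFx, hpx⟩ := hx hxn
  have hfx : Fits x.1 x.2 B θ w := by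
    intro i; rw [hpx i]; exact hfit i
  rw [labM_eq hn hFx (fun B hB => hPH _ _ _ hxM hxn hxm hB) hw hfx,
    labM_eq hn hF (fun B hB => hPH _ _ _ hM hfix hρ hB) hw hfit]

/-- **(5a), outside `MM`**: near a repelling point over `MM` every exterior pair has its label -/
theorem lab_ext_nhds {n : ℕ} (hn : 0 < n) (hPH : PortHyp n) {c₀ b₀ : ℂ} {B : Set ℝ}
    (hM : G c₀ 0 = 0) (hfix : it c₀ n b₀ = b₀) (hρ : 1 < ‖mult n c₀ b₀‖) (hF : Fam n c₀ b₀ B) :
    ∀ᶠ x : ℂ × ℂ in 𝓝 (c₀, b₀), it x.1 n x.2 = x.2 → ∀ (θ : ℝ) (w : ℕ → ℤ), 0 < G x.1 x.1 →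
      eta x.1 ((G x.1 x.1 : ℂ) + 2 * Real.pi * θ * I) = x.1 → Bits n w →
      (∀ i, Side x.1 (θ + w i) (it x.1 i x.2)) → lab n θ w = labM n c₀ b₀ := by
  filter_upwards [port_nhds hn hM hfix hρ hF] with x hx hxn θ w hG hθ hw hS
  obtain ⟨hFx, hpx⟩ := hx hxn
  refine (labM_eq hn hF (fun B hB => hPH _ _ _ hM hfix hρ hB) hw ?_).symm
  intro i a ha
  rw [← hpx i] at ha
  obtain ⟨k, h1, h2⟩ := inHalfO_of_side hG hθ (hS i) ha.2
  refine ⟨-k, ?_, ?_⟩ <;> push_cast <;> linarith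

end Pool.Agent.Work.MLC
end

section
set_option autoImplicit false

/-! # The exterior PLY inequality for the pairs `Ext n c b θ w`  (helper14) -/

namespace Pool.Agent.Work.MLC

open Filter Topology Metric Set Complex

variable {c : ℂ} {θ : ℝ} {sq : ℂ → ℂ}

lemma ext_hasDerivAt_f (c z : ℂ) : HasDerivAt (f c) (2 * z) z := by
  have h : HasDerivAt (fun z : ℂ => z ^ 2 + c) (2 * z) z := by
    simpa using (hasDerivAt_pow 2 z).add_const c
  exact h

lemma ext_hasDerivAt_it (n : ℕ) (c z : ℂ) : HasDerivAt (it c n) (mult n c z) z := by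
  induction n with
  | zero =>
    have h1 : it c 0 = id := rfl
    have h2 : mult 0 c z = 1 := by simp [mult]
    rw [h1, h2]
    exact hasDerivAt_id z
  | succ n ih =>
    have h1 : it c (n + 1) = fun z => f c (it c n z) := by
      funext z; exact it_succ c n z
    have h2 := (ext_hasDerivAt_f c (it c n z)).comp z ih
    rw [h1]
    have h3 : mult (n + 1) c z = 2 * it c n z * mult n c z := by
      unfold mult
      rw [Finset.prod_range_succ, mul_comm]
    rw [h3]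
    exact h2

lemma ext_deriv_it (n : ℕ) (c z : ℂ) : deriv (it c n) z = mult n c z := (ext_hasDerivAt_it n c z).deriv

lemma half_notMem_ray (hB : BD c (G c c) (2 * Real.pi * θ) (eta c)) {e : ℤ} {L : ℂ}
    (h1 : G c c / 4 < L.re) (h2 : Real.pi * (θ + e) < L.im)
    (h3 : L.im < Real.pi * (θ + e + 1)) :
    eta c (2 * L) ∉ ray (eta c) (G c c) (2 * Real.pi * θ) := by
  refine hB.E_ne_ray (by simp; linarith) (fun k hk => ?_)
  have hpi := Real.pi_pos
  have him : (2 * L).im = 2 * L.im := by simp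
  rw [him] at hk
  have h5 : (e : ℝ) < k := by
    by_contra hcon
    have := not_lt.1 hcon
    nlinarith
  have h6 : (k : ℝ) < e + 1 := by
    by_contra hcon
    have := not_lt.1 hcon
    nlinarith
  have h7 : e < k := by exact_mod_cast h5
  have h8 : k < e + 1 := by exact_mod_cast h6
  omega

lemma isHalf_eq (hB : BD c (G c c) (2 * Real.pi * θ) (eta c))
    (hS : SQ c (G c c) (2 * Real.pi * θ) (eta c) sq) {e : ℤ} {h : ℂ → ℂ}
    (hh : IsHalf c (θ + e) h) {L : ℂ} (h1 : G c c / 4 < L.re) (h2 : Real.pi * (θ + e) < L.im)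
    (h3 : L.im < Real.pi * (θ + e + 1)) : h L = sb sq e (eta c (2 * L)) := by
  have hp := hB.pos
  have hpi := Real.pi_pos
  obtain ⟨a1, a2, a3⟩ := hh
  set S : Set ℂ := {L | G c c / 4 < L.re ∧ Real.pi * (θ + e) < L.im ∧ L.im < Real.pi * (θ + e + 1)}
    with hSdef
  have hray : ∀ L ∈ S, eta c (2 * L) ∉ ray (eta c) (G c c) (2 * Real.pi * θ) :=
    fun L hL => half_notMem_ray hB hL.1 hL.2.1 hL.2.2
  have hconv : IsPreconnected S := ((convex_halfSpace_re_gt _).inter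
    ((convex_halfSpace_im_gt _).inter (convex_halfSpace_im_lt _))).isPreconnected
  have hcont : ContinuousOn (fun L => sb sq e (eta c (2 * L))) S := by
    refine ((hS.differentiableOn_sb e).continuousOn).comp (t := (ray (eta c) (G c c) (2 * Real.pi * θ))ᶜ)
      (f := fun L => eta c (2 * L)) ?_ hray
    exact hB.continuousOn_E.comp (f := fun L : ℂ => 2 * L) (by fun_prop) (fun L hL => by
      have := hL.1
      simp only [mem_ofPred_eq, mul_re, re_ofNat, im_ofNat, zero_mul, sub_zero]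
      linarith)
  -- the base point
  set L₀ : ℂ := ((G c c : ℝ) : ℂ) + ((Real.pi * (θ + e) + Real.pi / 2 : ℝ) : ℂ) * I with hL₀
  have hre : L₀.re = G c c := by rw [hL₀]; simp
  have him : L₀.im = Real.pi * (θ + e) + Real.pi / 2 := by rw [hL₀]; simp
  have hL₀S : L₀ ∈ S := ⟨by rw [hre]; linarith, by rw [him]; linarith, by rw [him]; linarith⟩
  have hbase : h L₀ = sb sq e (eta c (2 * L₀)) := by
    rw [a3 L₀ (by rw [hre]; linarith) hL₀S.2.1 hL₀S.2.2]
    exact (SQ.sb_E hB hS (by rw [hre]; linarith) e 0 (by rw [him]; simp; linarith)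
      (by rw [him]; simp; linarith)).symm
  have := hconv.eq_of_sq_eq (f := h) (g := fun L => sb sq e (eta c (2 * L))) a1.continuousOn hcont
    (fun L hL => by
      simp only [Pi.pow_apply]
      rw [sb_sq, hS.sq _ (hray L hL), ← a2 L hL.1 hL.2.1 hL.2.2, f_apply]; ring)
    (fun {L} hL => hS.sb_ne_zero (hray L hL) e) hL₀S hbase
  exact this ⟨h1, h2, h3⟩

lemma isInv_eq (hB : BD c (G c c) (2 * Real.pi * θ) (eta c))
    (hS : SQ c (G c c) (2 * Real.pi * θ) (eta c) sq) {e : ℤ} {ψ : ℂ → ℂ}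
    (hψ : IsInv c (θ + e) ψ) {v : ℂ} (hv : G c v < G c c) : ψ v = sb sq e v := by
  have hp := hB.pos
  have hpi := Real.pi_pos
  obtain ⟨a1, a2, h, hh, a3⟩ := hψ
  set L₀ : ℂ := ((3 * G c c / 8 : ℝ) : ℂ) + ((Real.pi * (θ + e) + Real.pi / 2 : ℝ) : ℂ) * I
    with hL₀
  have hre : L₀.re = 3 * G c c / 8 := by rw [hL₀]; simp
  have him : L₀.im = Real.pi * (θ + e) + Real.pi / 2 := by rw [hL₀]; simp
  have hmem : eta c (2 * L₀) ∈ Ug c (G c c) := by
    refine hB.E_mem ?_ ?_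
    · simp [hre]; linarith
    · simp [hre]; linarith
  have hbase : ψ (eta c (2 * L₀)) = sb sq e (eta c (2 * L₀)) := by
    rw [a3 L₀ (by rw [hre]; linarith) (by rw [hre]; linarith) (by rw [him]; linarith)
      (by rw [him]; linarith)]
    exact isHalf_eq hB hS hh (by rw [hre]; linarith) (by rw [him]; linarith)
      (by rw [him]; linarith)
  have := (isPreconnected_Ug hB).eq_of_sq_eq (f := ψ) (g := sb sq e) a1.continuousOn
    (hS.differentiableOn_sb' hB e).continuousOn (fun z hz => by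
      simp only [Pi.pow_apply]
      have h2 := a2 z hz
      rw [f_apply] at h2
      rw [sb_sq, hS.sq _ (hB.Ug_ray hz)]
      linear_combination h2)
    (fun {z} hz => hS.sb_ne_zero (hB.Ug_ray hz) e) hmem hbase
  exact this hv

/-- `Side` in terms of the branch `sb sq e` -/
lemma side_iff (hB : BD c (G c c) (2 * Real.pi * θ) (eta c))
    (hS : SQ c (G c c) (2 * Real.pi * θ) (eta c) sq) {e : ℤ} {z : ℂ} :
    Side c (θ + e) z ↔ G c (f c z) < G c c ∧ z = sb sq e (f c z) := by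
  have hp := hB.pos
  constructor
  · rintro ⟨h1, ψ, hψ, h2⟩
    exact ⟨h1, by rw [← isInv_eq hB hS hψ h1, h2]⟩
  · rintro ⟨h1, h2⟩
    refine ⟨h1, sb sq e, ⟨hS.differentiableOn_sb' hB e, fun v hv => hS.f_sb (hB.Ug_ray hv) e,
      fun L => sb sq e (eta c (2 * L)), ⟨?_, ?_, ?_⟩, fun L _ _ _ _ => rfl⟩, h2.symm⟩
    · refine (hS.differentiableOn_sb e).comp (t := (ray (eta c) (G c c) (2 * Real.pi * θ))ᶜ)
        (f := fun L => eta c (2 * L)) ?_ (fun L hL => half_notMem_ray hB hL.1 hL.2.1 hL.2.2)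
      exact hB.hol.comp (f := fun L : ℂ => 2 * L) (by fun_prop) (fun L hL => by
        have := hL.1
        simp only [mem_ofPred_eq, mul_re, re_ofNat, im_ofNat, zero_mul, sub_zero]
        linarith)
    · intro L h3 h4 h5
      exact hS.f_sb (half_notMem_ray hB h3 h4 h5) e
    · intro L h3 h4 h5
      refine SQ.sb_E hB hS h3 e 0 ?_ ?_
      · simp only [Int.cast_zero, zero_mul, add_zero]; linarith
      · simp only [Int.cast_zero, zero_mul, add_zero]; linarith

end Pool.Agent.Work.MLC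
end

section
set_option autoImplicit false

/-! # Exterior pairs, lower periods allowed: words, uniqueness, openness (helper57) -/

namespace Pool.Agent.Work.MLC

open Filter Topology Metric Set Complex

/-- `c ∉ MM` has external angle `θ`, `it c n b = b` and `b` has itinerary `w` -/
def ExtP (n : ℕ) (c b : ℂ) (θ : ℝ) (w : ℕ → ℤ) : Prop :=
  0 < G c c ∧ eta c ((G c c : ℂ) + 2 * Real.pi * θ * I) = c ∧ it c n b = b ∧ Bits n w ∧
    ∀ i, Side c (θ + w i) (it c i b)

/-- the angle of `c` -/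
def Ang (c : ℂ) (θ : ℝ) : Prop := 0 < G c c ∧ eta c ((G c c : ℂ) + 2 * Real.pi * θ * I) = c

lemma Ang.BD {c : ℂ} {θ : ℝ} (h : Ang c θ) : BD c (G c c) (2 * Real.pi * θ) (eta c) :=
  BD_eta h.1 (by
    have h1 : ((G c c : ℝ) : ℂ) + ((2 * Real.pi * θ : ℝ) : ℂ) * I
        = (G c c : ℂ) + 2 * Real.pi * θ * I := by push_cast; ring
    rw [h1]; exact h.2)

lemma ExtP.ang {n : ℕ} {c b : ℂ} {θ : ℝ} {w : ℕ → ℤ} (h : ExtP n c b θ w) : Ang c θ := ⟨h.1, h.2.1⟩

lemma mult_eq_mul (n : ℕ) (c b : ℂ) : mult n c b = mul n (c, b) := rfl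

lemma exists_ang {c : ℂ} (hc : 0 < G c c) : ∃ θ : ℝ, Ang c θ := by
  obtain ⟨th, hB⟩ := exists_BD hc
  refine ⟨th / (2 * Real.pi), hc, ?_⟩
  have h1 := hB.crit
  have hpi := Real.pi_pos
  have h2 : ((G c c : ℝ) : ℂ) + 2 * Real.pi * ((th / (2 * Real.pi) : ℝ) : ℂ) * I
      = (G c c : ℂ) + th * I := by
    push_cast
    have : (Real.pi : ℂ) ≠ 0 := by exact_mod_cast hpi.ne'
    field_simp
  rw [h2]; exact h1

lemma ang_cOf {g θ : ℝ} (hg : 0 < g) : Ang (cOf ((g : ℂ) + 2 * Real.pi * θ * I)) θ ∧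
    G (cOf ((g : ℂ) + 2 * Real.pi * θ * I)) (cOf ((g : ℂ) + 2 * Real.pi * θ * I)) = g := by
  set L : ℂ := (g : ℂ) + 2 * Real.pi * θ * I with hL
  have hre : L.re = g := by simp [hL]
  have hLpos : 0 < L.re := by rw [hre]; exact hg
  have h1 := G_cOf hLpos
  rw [hre] at h1
  refine ⟨⟨by rw [h1]; exact hg, ?_⟩, h1⟩
  rw [h1]
  exact eta_cOf hLpos

/-- the data used by the exterior PLY inequality -/
lemma ExtP.data {n : ℕ} (hn : 1 ≤ n) {c b : ℂ} {θ : ℝ} {w : ℕ → ℤ} (h : ExtP n c b θ w)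
    {sq : ℂ → ℂ} (hS : SQ c (G c c) (2 * Real.pi * θ) (eta c) sq) :
    gc sq w n b = b ∧ b ∈ Ug c (G c c) := by
  have hB := h.ang.BD
  obtain ⟨hG, heta, hfix, hw, hside⟩ := h
  have hbs : ∀ m, it c m b = sb sq (w m) (it c (m + 1) b) := by
    intro m
    have := ((side_iff hB hS).1 (hside m)).2
    rw [← it_succ] at this
    exact this
  constructor
  · have := gc_itin hbs n
    rwa [hfix] at this
  · show G c b < G c c
    rw [G_zero_of_per hn hfix]; exact hG

/-- **the exterior PLY inequality** -/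
theorem extP_ply {n : ℕ} (hn : 1 ≤ n) {c b : ℂ} {θ : ℝ} {w : ℕ → ℤ} (h : ExtP n c b θ w)
    (hc : G c c ≤ 4) :
    1 < ‖mult n c b‖ ∧ ∃ ℓ : ℂ, Complex.exp ℓ = mult n c b ∧
      ‖ℓ - 2 * Real.pi * (Circ.nu w n θ : ℝ) * I‖ ^ 2 ≤ 81 * n * ℓ.re := by
  have hB := h.ang.BD
  obtain ⟨sq, hS⟩ := exists_SQ hB
  obtain ⟨hgc, hbU⟩ := h.data hn hS
  have hw := h.2.2.2.1.per
  obtain ⟨hk, hK⟩ := exists_KD hB hS hn hw hbU hgc
  obtain ⟨L, hL1, hL2⟩ := ply_end hB hS hn hw hK hc rfl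
  refine ⟨?_, L, by rw [hL1, ext_deriv_it], ?_⟩
  · have := hK.one_lt
    rwa [ext_deriv_it] at this
  have : (2 * Real.pi * (Circ.nu w n θ : ℝ) * I : ℂ) = 2 * Real.pi * I * (Circ.nu w n θ : ℝ) := by
    ring
  rw [this]
  exact hL2

/-- every periodic point has a word -/
theorem exists_extP_word {n : ℕ} (hn : 0 < n) {c b : ℂ} {θ : ℝ} (h : Ang c θ)
    (hb : it c n b = b) : ∃ w, ExtP n c b θ w := by
  have hB := h.BD
  obtain ⟨sq, hS⟩ := exists_SQ hB
  obtain ⟨w, h1, h2, h3, h4, h5⟩ := exists_word hB hS hn hb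
  refine ⟨w, h.1, h.2, hb, ⟨h1, h2⟩, fun i => ?_⟩
  rw [side_iff hB hS]
  have hG : G c b = 0 := G_zero_of_per hn hb
  refine ⟨?_, ?_⟩
  · rw [← it_succ, G_it_zero hG]
    exact h.1
  · rw [← it_succ]; exact h5 i

/-- the multiplier is repelling -/
theorem one_lt_norm_mult_of_ext {n : ℕ} (hn : 0 < n) {c b : ℂ} (hc : 0 < G c c)
    (hb : it c n b = b) : 1 < ‖mult n c b‖ := by
  obtain ⟨θ, hθ⟩ := exists_ang hc
  obtain ⟨w, h⟩ := exists_extP_word hn hθ hb
  have hB := h.ang.BD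
  obtain ⟨sq, hS⟩ := exists_SQ hB
  obtain ⟨hgc, hbU⟩ := h.data hn hS
  obtain ⟨hk, hK⟩ := exists_KD hB hS hn h.2.2.2.1.per hbU hgc
  have := hK.one_lt
  rwa [ext_deriv_it] at this

/-- the word determines the point -/
theorem extP_inj {n : ℕ} (hn : 0 < n) {c b b' : ℂ} {θ : ℝ} {w : ℕ → ℤ} (h : ExtP n c b θ w)
    (h' : ExtP n c b' θ w) : b = b' := by
  have hB := h.ang.BD
  obtain ⟨sq, hS⟩ := exists_SQ hB
  obtain ⟨hgc, hbU⟩ := h.data hn hS
  obtain ⟨hgc', hbU'⟩ := h'.data hn hS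
  have D := plySelf_gc (w := w) hB hS hn hbU hgc
  by_contra hne
  obtain ⟨k₀, hk₀⟩ := D.exists_iter_ball (dist b b') (dist_pos.2 hne)
  have h1 := hk₀ k₀ le_rfl b' hbU'
  have h2 : (gc sq w n)^[k₀] b' = b' := Function.iterate_fixed hgc' k₀
  rw [h2, mem_ball, dist_comm] at h1
  exact lt_irrefl _ h1

/-- for `c ∉ MM` there are exactly `2 ^ n` points with `it c n b = b` -/
theorem card_fix_ext {n : ℕ} (hn : 0 < n) {c : ℂ} (hc : 0 < G c c) :
    (Cnt.fx c n).roots.toFinset.card = 2 ^ n := by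
  classical
  rw [Multiset.toFinset_card_of_nodup, Cnt.card_roots_fx hn]
  rw [Multiset.nodup_iff_count_le_one]
  intro b
  rw [Polynomial.count_roots]
  by_contra hcon
  push Not at hcon
  have h0 := (Cnt.fx_monic hn c).ne_zero
  obtain ⟨h1, h2⟩ := (Polynomial.one_lt_rootMultiplicity_iff_isRoot h0).1 hcon
  have h3 : it c n b = b := (Cnt.mem_roots_fx hn).1 ((Polynomial.mem_roots h0).2 h1)
  have h4 := one_lt_norm_mult_of_ext hn hc h3
  have h5 : Polynomial.eval b (Polynomial.derivative (Cnt.fx c n)) = mul n (c, b) - 1 := by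
    rw [Cnt.fx, Polynomial.derivative_sub, Polynomial.derivative_X, Polynomial.eval_sub,
      Cnt.eval_derivative_pc, Polynomial.eval_one]
  rw [Polynomial.IsRoot, h5, sub_eq_zero] at h2
  rw [mult_eq_mul, h2] at h4
  simp at h4

/-- every word occurs -/
theorem exists_extP {n : ℕ} (hn : 0 < n) {c : ℂ} {θ : ℝ} (h : Ang c θ) {w : ℕ → ℤ}
    (hw : Bits n w) : ∃ b, ExtP n c b θ w := by
  classical
  set S : Finset ℂ := (Cnt.fx c n).roots.toFinset with hS
  have hmem : ∀ b ∈ S, it c n b = b := fun b hb =>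
    (Cnt.mem_roots_fx hn).1 (Multiset.mem_toFinset.1 hb)
  have hex : ∀ b : S, ∃ w, ExtP n c b θ w := fun b => exists_extP_word hn h (hmem b b.2)
  choose W hW using hex
  set code : S → (Fin n → Bool) := fun b i => decide (W b i = 1) with hcode
  have hWeq : ∀ (u v : ℕ → ℤ), Bits n u → Bits n v → (∀ i : Fin n, u i = 1 ↔ v i = 1) → u = v := by
    intro u v hu hv huv
    have h1 : ∀ m : ℕ, ∀ i : ℕ, ∀ u : ℕ → ℤ, Bits n u → u (i + n * m) = u i := by
      intro m i u hu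
      induction m with
      | zero => simp
      | succ m ih =>
        have : i + n * (m + 1) = (i + n * m) + n := by ring
        rw [this, hu.per, ih]
    funext i
    have h2 : i = i % n + n * (i / n) := (Nat.mod_add_div i n).symm
    rw [h2, h1 _ _ u hu, h1 _ _ v hv]
    have h3 := huv ⟨i % n, Nat.mod_lt _ hn⟩
    simp only at h3
    rcases hu.bit (i % n) with a | a <;> rcases hv.bit (i % n) with b | b <;> rw [a, b] <;>
      rw [a, b] at h3 <;> simp at h3
  have hinj : Function.Injective code := by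
    intro b b' hbb
    have h1 : W b = W b' := by
      refine hWeq _ _ (hW b).2.2.2.1 (hW b').2.2.2.1 fun i => ?_
      have h2 := congrFun hbb i
      simp only [hcode, decide_eq_decide] at h2
      exact h2
    apply Subtype.ext
    have h2 := hW b
    rw [h1] at h2
    exact extP_inj hn h2 (hW b')
  have hcard : Fintype.card S = Fintype.card (Fin n → Bool) := by
    rw [Fintype.card_coe, hS, card_fix_ext hn h.1, Fintype.card_fun, Fintype.card_bool,
      Fintype.card_fin]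
  have hbij : Function.Bijective code := (Fintype.bijective_iff_injective_and_card code).2
    ⟨hinj, hcard⟩
  obtain ⟨b, hb⟩ := hbij.2 (fun i => decide (w i = 1))
  refine ⟨b, ?_⟩
  have h1 : W b = w := by
    refine hWeq _ _ (hW b).2.2.2.1 hw fun i => ?_
    have h2 := congrFun hb i
    simp only [hcode, decide_eq_decide] at h2
    exact h2
  rw [← h1]
  exact hW b

/-- the angle is unique modulo one -/
theorem Ang.unique {c : ℂ} {θ θ' : ℝ} (h : Ang c θ) (h' : Ang c θ') : ∃ m : ℤ, θ' = θ + m := by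
  have hpi := Real.pi_pos
  have hG := h.1
  have h0 : G c 0 < G c c := by rw [G_zero_eq]; linarith
  have h1 : eta c ((G c c : ℂ) + 2 * Real.pi * θ * I) =
      eta c ((G c c : ℂ) + 2 * Real.pi * θ' * I) := h.2.trans h'.2.symm
  rw [eta_eq_iff (by simpa using h0) (by simpa using h0)] at h1
  obtain ⟨k, hk⟩ := h1
  refine ⟨k, ?_⟩
  have h2 := congrArg Complex.im hk
  simp at h2
  have h3 : 2 * Real.pi * (θ' - (θ + k)) = 0 := by linarith
  rcases mul_eq_zero.1 h3 with h4 | h4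
  · exfalso; linarith
  · linarith

/-- **uniqueness** of angle and word -/
theorem extP_unique {n : ℕ} {c b : ℂ} {θ θ' : ℝ} {w w' : ℕ → ℤ}
    (h : ExtP n c b θ w) (h' : ExtP n c b θ' w') :
    ∃ m : ℤ, θ' = θ + m ∧ ∀ i, Even (w' i - w i - m) := by
  obtain ⟨m, hm⟩ := h.ang.unique h'.ang
  refine ⟨m, hm, fun i => ?_⟩
  have hB := h.ang.BD
  obtain ⟨sq, hS⟩ := exists_SQ hB
  have h1 := ((side_iff hB hS).1 (h.2.2.2.2 i)).2
  have h2 := h'.2.2.2.2 i
  have h3 : θ' + w' i = θ + ((m + w' i : ℤ) : ℝ) := by rw [hm]; push_cast; ring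
  rw [h3] at h2
  have h4 := ((side_iff hB hS).1 h2)
  have hnr : f c (it c i b) ∉ ray (eta c) (G c c) (2 * Real.pi * θ) := by
    refine hB.Ug_ray ?_
    exact h4.1
  obtain ⟨-, k, hk⟩ := hS.sb_disj hnr hnr (h1.symm.trans h4.2)
  exact ⟨-k - m, by omega⟩

/-- the label of an exterior pair does not depend on the choices -/
theorem extP_lab_unique {n : ℕ} {c b : ℂ} {θ θ' : ℝ} {w w' : ℕ → ℤ}
    (h : ExtP n c b θ w) (h' : ExtP n c b θ' w') : lab n θ' w' = lab n θ w := by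
  obtain ⟨m, h1, h2⟩ := extP_unique h h'
  exact lab_congr h.2.2.2.1 h'.2.2.2.1 m h1 h2

end Pool.Agent.Work.MLC
end

section
set_option autoImplicit false

/-! # The exterior pairs are stable: word locally constant, angle continuous (helper57) -/

namespace Pool.Agent.Work.MLC

open Filter Topology Metric Set Complex

/-- pairs `(c, z)` with `f c z` off the ray above the critical value -/
def OffRay : Set (ℂ × ℂ) :=
  {p | G p.1 (f p.1 p.2) < G p.1 p.1} ∪
    ({p | 0 < G p.1 p.1 ∧ G p.1 0 < G p.1 (f p.1 p.2)} ∩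
      (fun p : ℂ × ℂ => phi p.1 (f p.1 p.2) / phi p.1 p.1) ⁻¹' {t : ℂ | ¬ (t.im = 0 ∧ 0 ≤ t.re)})

lemma continuous_G_crit : Continuous fun p : ℂ × ℂ => G p.1 (f p.1 p.2) := by
  have h1 : Continuous (fun p : ℂ × ℂ => ((p.1, f p.1 p.2) : ℂ × ℂ)) :=
    continuous_fst.prodMk continuous_f
  have h2 : Continuous ((fun p : ℂ × ℂ => G p.1 p.2) ∘
      fun p : ℂ × ℂ => ((p.1, f p.1 p.2) : ℂ × ℂ)) := Continuous.comp continuous_G h1
  exact h2

lemma continuous_G_diag' : Continuous fun p : ℂ × ℂ => G p.1 p.1 := by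
  have h1 : Continuous (fun p : ℂ × ℂ => ((p.1, p.1) : ℂ × ℂ)) :=
    continuous_fst.prodMk continuous_fst
  have h2 : Continuous ((fun p : ℂ × ℂ => G p.1 p.2) ∘
      fun p : ℂ × ℂ => ((p.1, p.1) : ℂ × ℂ)) := Continuous.comp continuous_G h1
  exact h2

lemma continuous_G_zero' : Continuous fun p : ℂ × ℂ => G p.1 0 := by
  have h1 : Continuous (fun p : ℂ × ℂ => ((p.1, 0) : ℂ × ℂ)) :=
    continuous_fst.prodMk continuous_const
  have h2 : Continuous ((fun p : ℂ × ℂ => G p.1 p.2) ∘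
      fun p : ℂ × ℂ => ((p.1, 0) : ℂ × ℂ)) := Continuous.comp continuous_G h1
  exact h2

lemma isOpen_OffRay : IsOpen OffRay := by
  refine (isOpen_lt continuous_G_crit continuous_G_diag').union ?_
  have hU : IsOpen {p : ℂ × ℂ | 0 < G p.1 p.1 ∧ G p.1 0 < G p.1 (f p.1 p.2)} :=
    (isOpen_lt continuous_const continuous_G_diag').inter
      (isOpen_lt continuous_G_zero' continuous_G_crit)
  have hV : IsOpen {t : ℂ | ¬ (t.im = 0 ∧ 0 ≤ t.re)} := by
    have h1 : IsClosed {t : ℂ | t.im = 0 ∧ 0 ≤ t.re} :=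
      (isClosed_eq continuous_im continuous_const).inter
        (isClosed_le continuous_const continuous_re)
    exact h1.isOpen_compl
  refine ContinuousOn.isOpen_inter_preimage ?_ hU hV
  have h1 : ContinuousOn (fun p : ℂ × ℂ => phi p.1 (f p.1 p.2))
      {p : ℂ × ℂ | 0 < G p.1 p.1 ∧ G p.1 0 < G p.1 (f p.1 p.2)} := by
    have h2 : ContinuousOn (fun p : ℂ × ℂ => ((p.1, f p.1 p.2) : ℂ × ℂ))
        {p : ℂ × ℂ | 0 < G p.1 p.1 ∧ G p.1 0 < G p.1 (f p.1 p.2)} :=
      (continuous_fst.prodMk continuous_f).continuousOn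
    exact continuousOn_phi.comp h2 fun p hp => hp.2
  have h3 : ContinuousOn (fun p : ℂ × ℂ => phi p.1 p.1)
      {p : ℂ × ℂ | 0 < G p.1 p.1 ∧ G p.1 0 < G p.1 (f p.1 p.2)} := by
    have h2 : ContinuousOn (fun p : ℂ × ℂ => ((p.1, p.1) : ℂ × ℂ))
        {p : ℂ × ℂ | 0 < G p.1 p.1 ∧ G p.1 0 < G p.1 (f p.1 p.2)} :=
      (continuous_fst.prodMk continuous_fst).continuousOn
    refine continuousOn_phi.comp h2 fun p hp => ?_
    have := hp.1
    show G p.1 0 < G p.1 p.1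
    rw [G_zero_eq]; linarith
  refine h1.div h3 fun p hp => ?_
  have h4 : G p.1 0 < G p.1 p.1 := by
    have := hp.1
    rw [G_zero_eq]; linarith
  rw [← norm_pos_iff, norm_phi h4]
  exact Real.exp_pos _

lemma offRay_iff {c : ℂ} {θ : ℝ} (h : Ang c θ) {z : ℂ} :
    (c, z) ∈ OffRay ↔ f c z ∉ ray (eta c) (G c c) (2 * Real.pi * θ) := by
  have hG := h.1
  have hB := h.BD
  have h0 : G c 0 < G c c := by rw [G_zero_eq]; linarith
  have hphic : phi c c = Complex.exp ((G c c : ℂ) + 2 * Real.pi * θ * I) := by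
    have h1 : G c 0 < ((G c c : ℂ) + 2 * Real.pi * θ * I).re := by simpa using h0
    have h2 := phi_eta h1
    rwa [h.2] at h2
  constructor
  · rintro (h1 | ⟨⟨h1, h2⟩, h3⟩)
    · intro hr
      have := hB.G_ray hr
      have h1' : G c (f c z) < G c c := h1
      linarith
    · rintro ⟨r, hr, hrE⟩
      apply h3
      simp only
      have h4 : G c 0 < (((r : ℝ) : ℂ) + ((2 * Real.pi * θ : ℝ) : ℂ) * I).re := by
        simp; linarith
      have h5 : phi c (f c z) = Complex.exp (((r : ℝ) : ℂ) + ((2 * Real.pi * θ : ℝ) : ℂ) * I) := by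
        rw [hrE]; exact phi_eta h4
      have h6 : phi c (f c z) / phi c c = ((Real.exp (r - G c c) : ℝ) : ℂ) := by
        rw [h5, hphic, ← Complex.exp_sub]
        push_cast
        congr 1
        ring
      rw [h6]
      exact ⟨Complex.ofReal_im _, by rw [Complex.ofReal_re]; exact (Real.exp_pos _).le⟩
  · intro hnr
    by_cases h1 : G c (f c z) < G c c
    · exact Or.inl h1
    · right
      push Not at h1
      have h2 : G c 0 < G c (f c z) := lt_of_lt_of_le h0 h1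
      refine ⟨⟨hG, h2⟩, ?_⟩
      rintro ⟨him, hre⟩
      simp only at him hre
      apply hnr
      refine ⟨G c (f c z), h1, ?_⟩
      set t := phi c (f c z) / phi c c with ht
      have hphi0 : phi c c ≠ 0 := by rw [hphic]; exact Complex.exp_ne_zero _
      have h3 : t = ((‖t‖ : ℝ) : ℂ) := by
        have h4 : t = ((t.re : ℝ) : ℂ) := by
          apply Complex.ext
          · simp
          · simp [him]
        have h5 : ‖t‖ = t.re := by
          rw [h4, Complex.norm_real, Real.norm_of_nonneg hre, Complex.ofReal_re]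
        rw [h5]; exact h4
      have h4 : ‖t‖ = Real.exp (G c (f c z) - G c c) := by
        rw [ht, norm_div, norm_phi h2, norm_phi h0, Real.exp_sub]
      have h5 : phi c (f c z) = Complex.exp (((G c (f c z) : ℝ) : ℂ) +
          ((2 * Real.pi * θ : ℝ) : ℂ) * I) := by
        have h6 : phi c (f c z) = t * phi c c := by rw [ht, div_mul_cancel₀ _ hphi0]
        rw [h6, h3, h4, hphic, Complex.ofReal_exp, ← Complex.exp_add]
        push_cast
        congr 1
        ring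
      rw [eta, ← h5, psi_phi h2]

/-- **stability of the side** -/
theorem side_nhds {c₀ z₀ : ℂ} {θ₀ : ℝ} (h₀ : Ang c₀ θ₀) {e : ℤ} (hz₀ : Side c₀ (θ₀ + e) z₀) :
    ∃ δ > 0, ∀ᶠ p in 𝓝 (c₀, z₀), ∀ θ : ℝ, |θ - θ₀| < δ → Ang p.1 θ → Side p.1 (θ + e) p.2 := by
  have hpi := Real.pi_pos
  have hB := h₀.BD
  have hg := h₀.1
  obtain ⟨sq, hS⟩ := exists_SQ hB
  obtain ⟨hz1, hz2⟩ := (side_iff hB hS).1 hz₀
  set g : ℝ := G c₀ c₀ with hgdef
  -- the end of the path
  set L₁ : ℂ := ((3 * g / 4 : ℝ) : ℂ) + ((Real.pi * (θ₀ + e) + Real.pi / 2 : ℝ) : ℂ) * I with hL₁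
  have hL₁re : L₁.re = 3 * g / 4 := by simp [hL₁]
  have hL₁im : L₁.im = Real.pi * (θ₀ + e) + Real.pi / 2 := by simp [hL₁]
  set y₀ : ℂ := eta c₀ L₁ with hy₀
  -- the connected compact set
  set v₀ : ℂ := f c₀ z₀ with hv₀
  set I₁ : ℂ := ((Real.pi * (2 * (θ₀ + e)) + Real.pi : ℝ) : ℂ) * I with hI₁
  set v₁ : ℂ := eta c₀ (((3 * g / 4 : ℝ) : ℂ) + I₁) with hv₁
  have hv₁U : v₁ ∈ Ug c₀ g := hB.E_mem (by simp [hI₁]; linarith) (by simp [hI₁]; linarith)
  have hv₀U : v₀ ∈ Ug c₀ g := hz1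
  obtain ⟨γ, hγ⟩ := (isPathConnected_Ug hB).joinedIn v₀ hv₀U v₁ hv₁U
  set V : Set ℂ := range γ ∪ (fun r : ℝ => eta c₀ ((r : ℂ) + I₁)) '' Icc (3 * g / 4) (3 * g / 2)
    with hV
  have hVray : ∀ v ∈ V, v ∉ ray (eta c₀) g (2 * Real.pi * θ₀) := by
    rintro v (⟨t, rfl⟩ | ⟨r, hr, rfl⟩)
    · exact hB.Ug_ray (hγ t)
    · refine hB.E_ne_ray (by simp [hI₁]; linarith [hr.1]) fun k hk => ?_
      have h1 : (((r : ℂ) + I₁)).im = Real.pi * (2 * (θ₀ + e)) + Real.pi := by simp [hI₁]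
      rw [h1] at hk
      have h2 : Real.pi * (2 * (e : ℝ) + 1 - 2 * k) = 0 := by linarith
      rcases mul_eq_zero.1 h2 with h3 | h3
      · linarith
      · have h4 : (2 * e + 1 - 2 * k : ℤ) = 0 := by exact_mod_cast h3
        omega
  have hcη : ContinuousOn (fun r : ℝ => eta c₀ ((r : ℂ) + I₁)) (Icc (3 * g / 4) (3 * g / 2)) := by
    refine ContinuousOn.comp (t := {L : ℂ | g / 2 < L.re}) hB.hol.continuousOn
      (f := fun r : ℝ => (r : ℂ) + I₁) (by fun_prop) fun r hr => ?_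
    show g / 2 < ((r : ℂ) + I₁).re
    simp [hI₁]; linarith [hr.1]
  have hVc : IsCompact V := (isCompact_range γ.continuous).union (isCompact_Icc.image_of_continuousOn hcη)
  have hVp : IsPreconnected V := by
    refine IsPreconnected.union v₁ ⟨1, γ.target⟩ ⟨3 * g / 4, ⟨le_rfl, by linarith⟩, rfl⟩
      (isPreconnected_range γ.continuous) (isPreconnected_Icc.image _ hcη)
  have hVcont : ContinuousOn (sb sq e) V :=
    (hS.differentiableOn_sb e).continuousOn.mono fun v hv => hVray v hv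
  set S₀ : Set ℂ := sb sq e '' V with hS₀
  have hS₀c : IsCompact S₀ := hVc.image_of_continuousOn hVcont
  have hS₀p : IsPreconnected S₀ := hVp.image _ hVcont
  have hz₀S : z₀ ∈ S₀ := ⟨v₀, Or.inl ⟨0, γ.source⟩, hz2.symm⟩
  have hy₀S : y₀ ∈ S₀ := by
    refine ⟨eta c₀ (((3 * g / 2 : ℝ) : ℂ) + I₁), Or.inr ⟨3 * g / 2, ⟨by linarith, le_rfl⟩, rfl⟩, ?_⟩
    have h1 : ((3 * g / 2 : ℝ) : ℂ) + I₁ = 2 * L₁ := by
      rw [hI₁, hL₁]; push_cast; ring
    rw [h1]
    exact SQ.sb_E hB hS (by rw [hL₁re]; linarith) e 0 (by rw [hL₁im]; simp; linarith)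
      (by rw [hL₁im]; simp; linarith)
  have hS₀off : ({c₀} : Set ℂ) ×ˢ S₀ ⊆ OffRay := by
    rintro ⟨c, z⟩ ⟨hc, v, hv, rfl⟩
    rw [mem_singleton_iff] at hc
    simp only at hc
    subst hc
    rw [offRay_iff h₀, hS.f_sb (hVray v hv)]
    exact hVray v hv
  obtain ⟨u, U, hu, hU, hcu, hSU, huU⟩ := generalized_tube_lemma isCompact_singleton hS₀c
    isOpen_OffRay hS₀off
  have hc₀u : c₀ ∈ u := hcu rfl
  obtain ⟨r₁, hr₁, hr₁U⟩ := Metric.isOpen_iff.1 hU z₀ (hSU hz₀S)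
  obtain ⟨r₂, hr₂, hr₂U⟩ := Metric.isOpen_iff.1 hU y₀ (hSU hy₀S)
  set S : Set ℂ := (S₀ ∪ ball z₀ r₁) ∪ ball y₀ r₂ with hSdef
  have hSp : IsPreconnected S := by
    refine IsPreconnected.union y₀ (Or.inl hy₀S) (mem_ball_self hr₂) ?_
      (convex_ball y₀ r₂).isPreconnected
    exact IsPreconnected.union z₀ hz₀S (mem_ball_self hr₁) hS₀p (convex_ball z₀ r₁).isPreconnected
  have hSsub : S ⊆ U := by
    rintro z ((hz | hz) | hz)
    · exact hSU hz
    · exact hr₁U hz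
    · exact hr₂U hz
  -- eventual conditions
  have hevG : ∀ᶠ c in 𝓝 c₀, G c c / 2 < 3 * g / 4 := by
    have h1 : ContinuousAt (fun c : ℂ => G c c / 2) c₀ := (continuous_G_diag.div_const 2).continuousAt
    refine h1.eventually (gt_mem_nhds ?_)
    show G c₀ c₀ / 2 < 3 * g / 4
    rw [← hgdef]; linarith
  have hevη : ∀ᶠ c in 𝓝 c₀, eta c L₁ ∈ ball y₀ r₂ := by
    have hopen : IsOpen {p : ℂ × ℂ | G p.1 0 < p.2.re} :=
      isOpen_lt continuous_G_zero' (continuous_re.comp continuous_snd)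
    have hmem : ((c₀, L₁) : ℂ × ℂ) ∈ {p : ℂ × ℂ | G p.1 0 < p.2.re} := by
      show G c₀ 0 < L₁.re
      rw [G_zero_eq, hL₁re, ← hgdef]; linarith
    have h1 : ContinuousAt (fun p : ℂ × ℂ => eta p.1 p.2) (c₀, L₁) :=
      continuousOn_eta.continuousAt (hopen.mem_nhds hmem)
    have h2 : ContinuousAt (fun c : ℂ => ((c, L₁) : ℂ × ℂ)) c₀ := by fun_prop
    have h3 : ContinuousAt (fun c : ℂ => eta c L₁) c₀ :=
      ContinuousAt.comp (f := fun c : ℂ => ((c, L₁) : ℂ × ℂ)) (x := c₀) h1 h2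
    exact h3.eventually (ball_mem_nhds y₀ hr₂)
  have hev1 : ∀ᶠ p : ℂ × ℂ in 𝓝 (c₀, z₀), G p.1 (f p.1 p.2) < G p.1 p.1 :=
    (isOpen_lt continuous_G_crit continuous_G_diag').mem_nhds hz1
  have hev2 : ∀ᶠ p : ℂ × ℂ in 𝓝 (c₀, z₀), p.1 ∈ u ∧ G p.1 p.1 / 2 < 3 * g / 4 ∧
      eta p.1 L₁ ∈ ball y₀ r₂ := by
    have h1 : ∀ᶠ c in 𝓝 c₀, c ∈ u := hu.mem_nhds hc₀u
    exact (continuous_fst.tendsto (c₀, z₀)).eventually (h1.and (hevG.and hevη))
  have hev3 : ∀ᶠ p : ℂ × ℂ in 𝓝 (c₀, z₀), p.2 ∈ ball z₀ r₁ :=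
    (continuous_snd.tendsto (c₀, z₀)).eventually (ball_mem_nhds z₀ hr₁)
  refine ⟨1 / 4, by norm_num, ?_⟩
  filter_upwards [hev1, hev2, hev3] with p hp1 hp2 hp3 θ hθ hang
  obtain ⟨hpu, hpG, hpη⟩ := hp2
  have hBp := hang.BD
  obtain ⟨s', hS'⟩ := exists_SQ hBp
  rw [side_iff hBp hS']
  refine ⟨hp1, ?_⟩
  have hoff : ∀ z ∈ S, f p.1 z ∉ ray (eta p.1) (G p.1 p.1) (2 * Real.pi * θ) := by
    intro z hz
    rw [← offRay_iff hang]
    exact huU ⟨hpu, hSsub hz⟩
  have hyside : OnSide p.1 s' e (eta p.1 L₁) := by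
    have h1 := abs_lt.1 hθ
    refine onSide_E hBp hS' (by rw [hL₁re]; exact hpG) e 0 ?_ ?_
    · rw [hL₁im]; simp
      nlinarith
    · rw [hL₁im]; simp
      nlinarith
  exact onSide_const hS' hSp hoff (Or.inr hpη) (Or.inl (Or.inr hp3)) hyside

/-- **the angle is continuous** -/
theorem ang_nhds {c₀ : ℂ} {θ₀ : ℝ} (h₀ : Ang c₀ θ₀) {ε : ℝ} (hε : 0 < ε) :
    ∀ᶠ c in 𝓝 c₀, ∃ θ : ℝ, |θ - θ₀| < ε ∧ Ang c θ := by
  have hpi := Real.pi_pos
  set L₀ : ℂ := (G c₀ c₀ : ℂ) + 2 * Real.pi * θ₀ * I with hL₀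
  have hre : L₀.re = G c₀ c₀ := by simp [hL₀]
  have him : L₀.im = 2 * Real.pi * θ₀ := by simp [hL₀]
  have hL₀pos : 0 < L₀.re := by rw [hre]; exact h₀.1
  have hc₀ : cOf L₀ = c₀ := by
    refine cOf_unique ?_ ?_ h₀.2
    · have h1 : c₀ ∈ Mc := h₀.1
      exact mem_Mc_iff.1 h1
    · rw [hre, G_zero_eq]; linarith [h₀.1]
  have hopen : IsOpen {L : ℂ | 0 < L.re} := isOpen_lt continuous_const continuous_re
  have hs : HasStrictDerivAt cOf (deriv cOf L₀) L₀ :=
    (differentiableOn_cOf.analyticAt (hopen.mem_nhds hL₀pos)).hasStrictDerivAt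
  have hmap := hs.map_nhds_eq (deriv_cOf_ne_zero hL₀pos)
  rw [hc₀] at hmap
  have h1 : {L : ℂ | 0 < L.re ∧ |L.im - L₀.im| < 2 * Real.pi * ε} ∈ 𝓝 L₀ := by
    refine IsOpen.mem_nhds ?_ ⟨hL₀pos, ?_⟩
    · exact hopen.inter (isOpen_lt ((continuous_im.sub continuous_const).abs) continuous_const)
    · simp; positivity
  have h2 := image_mem_map (m := cOf) h1
  rw [hmap] at h2
  filter_upwards [h2] with c hc
  obtain ⟨L, ⟨hL1, hL2⟩, rfl⟩ := hc
  have h3 := G_cOf hL1
  refine ⟨L.im / (2 * Real.pi), ?_, ?_⟩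
  · rw [him] at hL2
    have h4 : L.im / (2 * Real.pi) - θ₀ = (L.im - 2 * Real.pi * θ₀) / (2 * Real.pi) := by
      field_simp
    rw [h4, abs_div, abs_of_pos (show 0 < 2 * Real.pi by positivity), div_lt_iff₀ (by positivity)]
    linarith
  · refine ⟨by rw [h3]; exact hL1, ?_⟩
    rw [h3]
    have h4 : ((L.re : ℝ) : ℂ) + 2 * Real.pi * ((L.im / (2 * Real.pi) : ℝ) : ℂ) * I = L := by
      have h5 : (Real.pi : ℂ) ≠ 0 := by exact_mod_cast hpi.ne'
      push_cast
      have h6 : (2 : ℂ) * Real.pi * (L.im / (2 * Real.pi)) = L.im := by field_simp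
      rw [h6]; exact re_add_im L
    rw [h4]
    exact eta_cOf hL1

/-- **stability of exterior pairs** -/
theorem extP_nhds {n : ℕ} (hn : 0 < n) {c₀ b₀ : ℂ} {θ₀ : ℝ} {w : ℕ → ℤ} (h : ExtP n c₀ b₀ θ₀ w)
    {ε : ℝ} (hε : 0 < ε) : ∀ᶠ x in 𝓝 (c₀, b₀), it x.1 n x.2 = x.2 →
      ∃ θ : ℝ, |θ - θ₀| < ε ∧ ExtP n x.1 x.2 θ w := by
  have hside : ∀ i, ∃ δ > 0, ∀ᶠ p in 𝓝 (c₀, it c₀ i b₀), ∀ θ : ℝ, |θ - θ₀| < δ → Ang p.1 θ →
      Side p.1 (θ + w i) p.2 := fun i => side_nhds h.ang (h.2.2.2.2 i)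
  choose δ hδ hev using hside
  obtain ⟨d, hd, hdle⟩ : ∃ d > 0, ∀ i < n, d ≤ δ i := by
    have hne : (Finset.range n).Nonempty := ⟨0, Finset.mem_range.2 hn⟩
    obtain ⟨j, hj, hmin⟩ := Finset.exists_min_image (Finset.range n) δ hne
    exact ⟨δ j, hδ j, fun i hi => hmin i (Finset.mem_range.2 hi)⟩
  have hev' : ∀ᶠ x : ℂ × ℂ in 𝓝 (c₀, b₀), ∀ i ∈ Finset.range n, ∀ θ : ℝ, |θ - θ₀| < δ i →
      Ang x.1 θ → Side x.1 (θ + w i) (it x.1 i x.2) := by
    rw [Filter.eventually_all_finset]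
    intro i _
    have hc : Continuous fun x : ℂ × ℂ => ((x.1, it x.1 i x.2) : ℂ × ℂ) :=
      continuous_fst.prodMk (continuous_it i)
    have ht : Tendsto (fun x : ℂ × ℂ => ((x.1, it x.1 i x.2) : ℂ × ℂ)) (𝓝 (c₀, b₀))
        (𝓝 (c₀, it c₀ i b₀)) := hc.tendsto' _ _ rfl
    exact ht.eventually (hev i)
  have hang : ∀ᶠ x : ℂ × ℂ in 𝓝 (c₀, b₀), ∃ θ : ℝ, |θ - θ₀| < min ε d ∧ Ang x.1 θ :=
    (continuous_fst.tendsto (c₀, b₀)).eventually (ang_nhds h.ang (lt_min hε hd))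
  filter_upwards [hev', hang] with x hx1 hx2 hx3
  obtain ⟨θ, hθ, hA⟩ := hx2
  refine ⟨θ, lt_of_lt_of_le hθ (min_le_left _ _), hA.1, hA.2, hx3, h.2.2.2.1, fun i => ?_⟩
  have h1 : ∀ m : ℕ, ∀ i : ℕ, it x.1 (i + n * m) x.2 = it x.1 i x.2 ∧ w (i + n * m) = w i := by
    intro m i
    induction m with
    | zero => exact ⟨by simp, by simp⟩
    | succ m ih =>
      have h2 : i + n * (m + 1) = (i + n * m) + n := by ring
      rw [h2, Cnt.it_periodic hx3, h.2.2.2.1.per]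
      exact ih
  have h2 : i = i % n + n * (i / n) := (Nat.mod_add_div i n).symm
  have h3 : i % n < n := Nat.mod_lt _ hn
  obtain ⟨h4, h5⟩ := h1 (i / n) (i % n)
  rw [h2, h4, h5]
  exact hx1 (i % n) (Finset.mem_range.2 h3) θ
    (lt_of_lt_of_le hθ ((min_le_right _ _).trans (hdle _ h3))) hA

/-- **the label of exterior pairs is locally constant** where the rotation number is not an
integer -/
theorem extP_lab_nhds {n : ℕ} (hn : 0 < n) {c₀ b₀ : ℂ} {θ₀ : ℝ} {w : ℕ → ℤ}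
    (h : ExtP n c₀ b₀ θ₀ w) (hν : ∀ k : ℤ, Circ.nu w n θ₀ ≠ k) :
    ∀ᶠ x in 𝓝 (c₀, b₀), ∀ (θ : ℝ) (w' : ℕ → ℤ), ExtP n x.1 x.2 θ w' →
      lab n θ w' = lab n θ₀ w := by
  set k := ⌊Circ.nu w n θ₀⌋ with hk
  have h1 : (k : ℝ) < Circ.nu w n θ₀ :=
    lt_of_le_of_ne (Int.floor_le _) fun h => hν k h.symm
  have h2 : Circ.nu w n θ₀ < k + 1 := Int.lt_floor_add_one _
  have hc : ∀ᶠ θ in 𝓝 θ₀, (k : ℝ) < Circ.nu w n θ ∧ Circ.nu w n θ < k + 1 :=
    ((Circ.nu_continuous w n).tendsto θ₀).eventually (Ioo_mem_nhds h1 h2)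
  obtain ⟨ε, hε, hε'⟩ := Metric.eventually_nhds_iff_ball.1 hc
  filter_upwards [extP_nhds hn h hε] with x hx θ' w' hx'
  obtain ⟨θ, hθ, hE⟩ := hx hx'.2.2.1
  rw [extP_lab_unique hE hx']
  refine lab_of_strip h.2.2.2.1 fun θ'' hθ'' j hj => ?_
  have h3 : θ'' ∈ ball θ₀ ε := by
    rw [mem_ball, Real.dist_eq]
    have h4 := abs_lt.1 hθ
    rcases mem_uIcc.1 hθ'' with ⟨h5, h6⟩ | ⟨h5, h6⟩
    · rw [abs_lt]; constructor <;> linarith [h4.1, h4.2]
    · rw [abs_lt]; constructor <;> linarith [h4.1, h4.2]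
  obtain ⟨h4, h5⟩ := hε' θ'' h3
  rw [hj] at h4 h5
  have h6 : k < j := by exact_mod_cast h4
  have h7 : j < k + 1 := by exact_mod_cast h5
  omega

end Pool.Agent.Work.MLC
end

section
/-! # The sum of the areas of the annuli (glue for the exterior PLY)  (helper13) -/

set_option autoImplicit false

namespace Pool.Agent.Work.MLC

open Metric Filter Topology Set MeasureTheory

variable {c : ℂ} {g th : ℝ} {E s h : ℂ → ℂ} {w : ℕ → ℤ} {n : ℕ} {b ρ : ℂ}

/-- the union of one period of annuli is disjoint from its images under `ρ ^ j`, `j ≠ 0` -/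
theorem iUnion_Akd_disjoint (hw : ∀ i, w (i + n) = w i) (hB : BD c g th E)
    (hS : SQ c g th E s) (hK : KD c g s w n b ρ h) {j : ℤ} (hj : j ≠ 0) :
    Disjoint ((fun z => ρ ^ j * z) '' ⋃ m ∈ Finset.range n, Akd c g s w h m)
      (⋃ m ∈ Finset.range n, Akd c g s w h m) := by
  rw [Set.disjoint_left]
  rintro _ ⟨x, hx, rfl⟩ hx'
  simp only [mem_iUnion, Finset.mem_range, exists_prop] at hx hx'
  obtain ⟨m, hm, hx⟩ := hx
  obtain ⟨m', hm', hx'⟩ := hx'
  have h1 : (m : ℤ) - n * j ≠ m' := by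
    intro h
    have h2 : (n : ℤ) * j = m - m' := by linarith
    have h3 : |(n : ℤ) * j| < n := by rw [h2, abs_lt]; constructor <;> linarith [Int.natCast_nonneg m, Int.natCast_nonneg m', Int.ofNat_lt.2 hm, Int.ofNat_lt.2 hm']
    rw [abs_mul, Nat.abs_cast] at h3
    have h4 : 1 ≤ |j| := Int.one_le_abs hj
    nlinarith [Int.natCast_nonneg n]
  exact Set.disjoint_left.1 (Akd_zpow_disjoint hw hB hS hK h1) ⟨x, hx, rfl⟩ hx'

/-- the torus lemma gives the bound for the sum over one period -/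
theorem sum_Akd_le (μ : Measure ℂ) {B : ENNReal} (hw : ∀ i, w (i + n) = w i) (hB : BD c g th E)
    (hS : SQ c g th E s) (hK : KD c g s w n b ρ h)
    (htorus : ∀ W : Set ℂ, MeasurableSet W →
      (∀ j : ℤ, j ≠ 0 → Disjoint ((fun z => ρ ^ j * z) '' W) W) → μ W ≤ B) :
    ∑ m ∈ Finset.range n, μ (Akd c g s w h m) ≤ B := by
  rw [← measure_biUnion_finset (fun m _ m' _ hm => Akd_disjoint hB hS hK hm)
    (fun m _ => Akd_measurable hB hS hK m)]
  refine htorus _ (Finset.measurableSet_biUnion _ fun m _ => Akd_measurable hB hS hK m)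
    fun j hj => iUnion_Akd_disjoint hw hB hS hK hj

end Pool.Agent.Work.MLC
end

section
set_option autoImplicit false

/-! # The multiplier grows with the potential: `n G_M(c) / 2 ≤ log |mult|`  (helper13) -/

namespace Pool.Agent.Work.MLC

open Filter Topology Metric Set Complex MeasureTheory

variable {c : ℂ} {g th : ℝ} {E s h : ℂ → ℂ} {w : ℕ → ℤ} {n : ℕ} {b ρ : ℂ}

/-- every annulus has area at least `π g` -/
theorem le_mu_Akd (hB : BD c g th E) (hS : SQ c g th E s) (hn : 1 ≤ n)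
    (hw : ∀ i, w (i + n) = w i) (hK : KD c g s w n b ρ h) (m : ℕ) :
    ENNReal.ofReal (Real.pi * g) ≤ mu (Akd c g s w h m) := by
  have hp := hB.pos
  have hpi := Real.pi_pos
  obtain ⟨F, hF⟩ := exists_LogR hB hS (isPathConnected_Ug hB) hn hw hK m
  have hVd := differentiableOn_Vf_Rs hB hS hK m (E := E) (w := w)
  have hFd : DifferentiableOn ℂ F (Rs g) :=
    Tr.differentiableOn_of_exp (isOpen_Rs g) hVd hF.cont hF.exp
  -- the rotated functions
  set U : Set ℂ := (fun z : ℂ => I * z) ⁻¹' Rs g with hU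
  have hUo : IsOpen U := (isOpen_Rs g).preimage (by fun_prop)
  have hmaps : MapsTo (fun z : ℂ => I * z) U (Rs g) := fun z hz => hz
  have hId : Differentiable ℂ (fun z : ℂ => I * z) := by fun_prop
  set V : ℂ → ℂ := fun z => Vf E s h w m (I * z) with hV
  set H : ℂ → ℂ := fun z => F (I * z) with hH
  have hVdU : DifferentiableOn ℂ V U := hVd.comp hId.differentiableOn hmaps
  have hHdU : DifferentiableOn ℂ H U := hFd.comp hId.differentiableOn hmaps
  have hexp : ∀ z ∈ U, Complex.exp (H z) = V z := fun z hz => hF.exp _ hz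
  have hmemU : ∀ x y : ℝ, y ∈ Ioo (-g) (-(g / 2)) → ((x : ℂ) + y * I) ∈ U := by
    intro x y hy
    have h1 : I * ((x : ℂ) + y * I) = ((-y : ℝ) : ℂ) + (x : ℂ) * I := by
      push_cast
      linear_combination (y : ℂ) * Complex.I_mul_I
    show I * ((x : ℂ) + y * I) ∈ Rs g
    rw [h1]
    constructor
    · simp; linarith [hy.2]
    · simp; linarith [hy.1]
  have hla := Tr.length_area hUo hHdU (K := 2 * Real.pi) (a := -g) (b := -(g / 2))
    (by positivity) (fun x _ y hy => hmemU x y hy) (d := 2 * Real.pi) (by positivity) (by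
      intro y hy
      have h1 := hF.per (I * ((0 : ℝ) + (y : ℂ) * I)) (hmemU 0 y hy) 1
      have h2 : I * ((0 : ℝ) + (y : ℂ) * I) + ((1 : ℤ) : ℂ) * (2 * Real.pi * I) =
          I * (((2 * Real.pi : ℝ) : ℂ) + y * I) := by push_cast; ring
      rw [h2] at h1
      have h3 : H (((2 * Real.pi : ℝ) : ℂ) + y * I) - H (y * I) = 2 * Real.pi * I := by
        simp only [hH]
        rw [h1]
        simp
      rw [h3]
      simp [abs_of_pos hpi])
  set S : Set ℂ := Ioo 0 (2 * Real.pi) ×ℂ Ioo (-g) (-(g / 2)) with hSdef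
  have hSU : S ⊆ U := by
    intro z hz
    have h1 := hmemU z.re z.im hz.2
    rwa [Complex.re_add_im] at h1
  have hSm : MeasurableSet S :=
    (measurable_re measurableSet_Ioo).inter (measurable_im measurableSet_Ioo)
  have hinj : InjOn V S := by
    intro z hz z' hz' hzz
    have h1 := Vf_inj_Rs hB hS hK m (hSU hz) (hSU hz') hzz
    obtain ⟨k, hk⟩ := hB.inj _ _ (hSU hz).1 (hSU hz').1 h1
    have h2 : z.re = z'.re + k * (2 * Real.pi) := by
      have := congrArg Complex.im hk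
      simpa using this
    have h3 := hz.1
    have h4 := hz'.1
    have h5 : k = 0 := by
      by_contra hk0
      rcases lt_or_gt_of_ne hk0 with h6 | h6
      · have h7 : (k : ℝ) ≤ -1 := by exact_mod_cast Int.le_sub_one_of_lt h6
        have h8 : 0 < z.re := h3.1
        have h9 : z'.re < 2 * Real.pi := h4.2
        nlinarith
      · have h7 : (1 : ℝ) ≤ k := by exact_mod_cast h6
        have h8 : z.re < 2 * Real.pi := h3.2
        have h9 : 0 < z'.re := h4.1
        nlinarith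
    rw [h5] at hk
    have h6 : I * z = I * z' := by simpa using hk
    exact mul_left_cancel₀ I_ne_zero h6
  have himg := mu_image hUo hVdU hSU hSm hinj
  have hsub : V '' S ⊆ Akd c g s w h m := by
    rintro _ ⟨z, hz, rfl⟩
    exact Vf_mem_Rs hB m (hSU hz)
  have hder : ∀ z ∈ S, ENNReal.ofReal (‖deriv H z‖ ^ 2) =
      ENNReal.ofReal (‖deriv V z‖ ^ 2 / ‖V z‖ ^ 2) := by
    intro z hz
    have hzU : U ∈ 𝓝 z := hUo.mem_nhds (hSU hz)
    have h1 : HasDerivAt H (deriv H z) z := (hHdU.differentiableAt hzU).hasDerivAt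
    have h2 : HasDerivAt V (V z * deriv H z) z := by
      have h3 := h1.cexp
      rw [hexp z (hSU hz)] at h3
      refine h3.congr_of_eventuallyEq ?_
      filter_upwards [hzU] with x hx
      exact (hexp x hx).symm
    have h4 : V z ≠ 0 := by rw [← hexp z (hSU hz)]; exact Complex.exp_ne_zero _
    have h5 : ‖V z‖ ≠ 0 := norm_ne_zero_iff.2 h4
    rw [h2.deriv, norm_mul]
    congr 1
    field_simp
  have hint : ∫⁻ z in S, ENNReal.ofReal (‖deriv H z‖ ^ 2) =
      ∫⁻ z in S, ENNReal.ofReal (‖deriv V z‖ ^ 2 / ‖V z‖ ^ 2) :=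
    setLIntegral_congr_fun hSm hder
  rw [hint, ← himg] at hla
  have hle : mu (V '' S) ≤ mu (Akd c g s w h m) := measure_mono hsub
  have h6 : ENNReal.ofReal ((-(g / 2) - -g) * (2 * Real.pi) ^ 2) =
      ENNReal.ofReal (2 * Real.pi) * ENNReal.ofReal (Real.pi * g) := by
    rw [← ENNReal.ofReal_mul (by positivity)]
    congr 1; ring
  rw [h6] at hla
  have h7 : ENNReal.ofReal (Real.pi * g) ≤ mu (V '' S) :=
    (ENNReal.mul_le_mul_iff_right (by simpa using by positivity) ENNReal.ofReal_ne_top).1 hla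
  exact h7.trans hle

/-- abstract form: `n g / 2 ≤ log |ρ|` -/
theorem K0_abs (hB : BD c g th E) (hS : SQ c g th E s) (hn : 1 ≤ n)
    (hw : ∀ i, w (i + n) = w i) (hK : KD c g s w n b ρ h) :
    n * g / 2 ≤ Real.log ‖ρ‖ := by
  have hp := hB.pos
  have hpi := Real.pi_pos
  have h1 := sum_Akd_le mu (B := ENNReal.ofReal (2 * Real.pi * Real.log ‖ρ‖)) hw hB hS hK
    (fun W hW hd => torus_lemma' hK.one_lt hW hd)
  have h2 : ∑ m ∈ Finset.range n, ENNReal.ofReal (Real.pi * g) ≤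
      ∑ m ∈ Finset.range n, mu (Akd c g s w h m) :=
    Finset.sum_le_sum fun m _ => le_mu_Akd hB hS hn hw hK m
  have h3 := h2.trans h1
  rw [Finset.sum_const, Finset.card_range, nsmul_eq_mul, ← ENNReal.ofReal_natCast,
    ← ENNReal.ofReal_mul (by positivity)] at h3
  have hlog : 0 ≤ 2 * Real.pi * Real.log ‖ρ‖ := by
    have := Real.log_pos hK.one_lt
    positivity
  have h4 := (ENNReal.ofReal_le_ofReal_iff hlog).1 h3
  have h5 : Real.pi * (n * g) ≤ Real.pi * (2 * Real.log ‖ρ‖) := by linarith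
  have h6 := le_of_mul_le_mul_left h5 hpi
  linarith

/-- **(K0)** `c ∉ M`, `b` of period dividing `n`: `n G_M(c) / 2 ≤ log |(f_c ^ n)'(b)|` -/
theorem K0 (hc : 0 < G c c) (hn : 0 < n) (hb : it c n b = b) :
    n * G c c / 2 ≤ Real.log ‖mult n c b‖ := by
  obtain ⟨th, hB⟩ := exists_BD hc
  obtain ⟨sq, hS⟩ := exists_SQ hB
  obtain ⟨w, -, hw, hbU, hgc, -⟩ := exists_word hB hS hn hb
  obtain ⟨hk, hK⟩ := exists_KD hB hS hn hw hbU hgc
  have := K0_abs hB hS hn hw hK
  rwa [ext_deriv_it] at this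

end Pool.Agent.Work.MLC
end

section
set_option autoImplicit false

/-! # Lower bound for the multiplier at exterior parameters  (helper65, Lemma C) -/

namespace Pool.Agent.Work.MLC.C65

open Filter Topology Metric Set Complex MeasureTheory

variable {c : ℂ} {g th : ℝ} {E s h : ℂ → ℂ} {w : ℕ → ℤ} {n : ℕ} {b ρ : ℂ}

/-- the plane minus all forward images of the ray above the critical value -/
def Y (E : ℂ → ℂ) (g th : ℝ) : Set ℂ :=
  {z | ∀ (i : ℕ) (r : ℝ), g ≤ r → z ≠ E (2 ^ i * (r + th * I))}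

/-- the part of the right half plane below the slits -/
def R (E : ℂ → ℂ) (g th : ℝ) : Set ℂ := {z | g / 2 < z.re ∧ z.re < 4 ∧ E z ∈ Y E g th}

section V

variable (hB : BD c g th E) (hS : SQ c g th E s) (hK : KD c g s w n b ρ h) (hg4 : g ≤ 4)
  {N m : ℕ} (hm : 4 ≤ 2 ^ m * g)

end V

end Pool.Agent.Work.MLC.C65
end

section
set_option autoImplicit false

/-! # The limb at a root, canonical form (helper6)

The limb of `M` at `r` is `MS \ connectedComponentIn (MS \ {r}) 0`: everything that `r` separates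
from `0` in `M`, and `r` itself. -/

namespace Pool.Agent.Work.MLC

open Filter Topology Metric Set

/-- `z ^ 2` has only cycles with multiplier `0` or of modulus `2 ^ n` -/
theorem mul_zero_norm {n : ℕ} (hn : 0 < n) {b : ℂ} (hb : ((0 : ℂ), b) ∈ Per n) :
    mul n ((0 : ℂ), b) = 0 ∨ ‖mul n ((0 : ℂ), b)‖ = 2 ^ n := by
  have hit : ∀ k, it 0 k b = b ^ 2 ^ k := by
    intro k
    induction k with
    | zero => simp
    | succ k ih => rw [it_succ, f_apply, ih, add_zero, ← pow_mul, pow_succ]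
  have h1 : b ^ 2 ^ n = b := by
    have := hb
    simp only [Per, mem_ofPred_eq] at this
    rwa [hit] at this
  have h2 : ‖b‖ ^ 2 ^ n = ‖b‖ := by rw [← norm_pow, h1]
  have h3 : ‖b‖ = 0 ∨ ‖b‖ = 1 := by
    by_cases h0 : ‖b‖ = 0
    · exact Or.inl h0
    · right
      have h4 : ‖b‖ ^ (2 ^ n - 1) = 1 := by
        have h5 : ‖b‖ ^ (2 ^ n - 1) * ‖b‖ = 1 * ‖b‖ := by
          rw [← pow_succ, Nat.sub_add_cancel Nat.one_le_two_pow, h2, one_mul]
        exact mul_right_cancel₀ h0 h5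
      have h6 : 2 ^ n - 1 ≠ 0 := by
        have : 2 ≤ 2 ^ n := by
          calc 2 = 2 ^ 1 := by norm_num
            _ ≤ 2 ^ n := Nat.pow_le_pow_right (by norm_num) hn
        omega
      exact (pow_eq_one_iff_of_nonneg (norm_nonneg _) h6).1 h4
  have h7 : ‖mul n ((0 : ℂ), b)‖ = ∏ i ∈ Finset.range n, 2 * ‖b‖ ^ 2 ^ i := by
    unfold mul
    rw [norm_prod]
    refine Finset.prod_congr rfl fun i _ => ?_
    simp only [hit, norm_mul, norm_pow]
    simp
  rcases h3 with h3 | h3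
  · left
    rw [← norm_eq_zero, h7, h3]
    exact Finset.prod_eq_zero (Finset.mem_range.2 hn) (by simp)
  · right
    rw [h7, h3]
    simp only [one_pow, mul_one, Finset.prod_const, Finset.card_range]

/-- **the limb at a root** (main case) -/
theorem limb_canon {κ : ℝ} (hI : Inputs κ) {n p q : ℕ} {r b : ℂ}
    (hn : 0 < n) (hp : 0 < p) (hpq : p < q) (hcop : Nat.Coprime p q) (hb : it r n b = b)
    (hm : mul n (r, b) = Complex.exp (2 * Real.pi * (p / q) * Complex.I)) (hq3 : 3 ≤ q)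
    (hsm : 2 * Real.log 2 * (n : ℝ) ^ 2 * q < κ * (min (p : ℝ) (q - p)) ^ 2) :
    IsCompact (MS \ connectedComponentIn (MS \ {r}) 0) ∧
    IsConnected (MS \ connectedComponentIn (MS \ {r}) 0) ∧
    (∀ z ∈ MS \ connectedComponentIn (MS \ {r}) 0, z ≠ r →
      (MS \ connectedComponentIn (MS \ {r}) 0) \ {r} ∈ 𝓝[MS] z) ∧
    r ∈ closure ((MS \ connectedComponentIn (MS \ {r}) 0) ∩ interior MS) ∧
    MS \ connectedComponentIn (MS \ {r}) 0 ⊆
      closedBall r (18 * Real.log 2 / κ * (n ^ 2 * q / (min (p : ℝ) (q - p)) ^ 2)) := by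
  have hκ := hI.κ_pos
  have hlog : 0 < Real.log 2 := Real.log_pos (by norm_num)
  obtain ⟨x, σ, T, hden, hR0, hG, hσ, hσ', hσ0, hL⟩ := limb_piece hI hn hp hpq hcop hb hm
  have hq : 0 < q := hp.trans hpq
  have hq' : (0 : ℝ) < q := by exact_mod_cast hq
  have hn' : (0 : ℝ) < n := by exact_mod_cast hn
  have hp' : (0 : ℝ) < p := by exact_mod_cast hp
  have hpq' : (p : ℝ) < q := by exact_mod_cast hpq
  set m : ℝ := min (p : ℝ) (q - p) with hmdef
  have hm0 : 0 < m := lt_min hp' (by linarith)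
  set R : ℝ := κ * m ^ 2 / (q ^ 2 * n) with hR
  have hAR : 2 * n * Real.log 2 / x.den < R := by
    rw [hden, hR, div_lt_div_iff₀ hq' (by positivity)]
    have : 2 * n * Real.log 2 * (q ^ 2 * n) = (2 * Real.log 2 * n ^ 2 * q) * q := by ring
    rw [this]
    gcongr
  have hadm : LimbData.Adm x R (2 * n * Real.log 2) x := by
    unfold LimbData.Adm
    rw [sub_self, abs_zero, mul_zero, add_zero]
    exact hAR
  have hr1 : (σ (axisPt x)).1 = r := by rw [hσ0]
  have hcen : axisPt x ∈ ball (axisPt x) R := mem_ball_self hR0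
  set K := LimbData.K (fun L => (σ L).1) T x with hK
  have hKM : K ⊆ MS := hL.K_sub hadm
  have hKc : IsCompact K := hL.isCompact_K hI.cpt.isClosed hadm
  have hKp : IsPreconnected K := hL.K_conn hI.cpt.isClosed hI.conn hadm
  have hrK : r ∈ K := Or.inl hr1.symm
  have hKo : ∀ z ∈ K, z ≠ r → K \ {r} ∈ 𝓝[MS] z := by
    intro z hz hzr
    have h1 := hL.K_open hadm hz (by rw [hr1]; exact hzr)
    rwa [hr1] at h1
  have hKs : K ⊆ closedBall r (9 * (2 * n * Real.log 2 / x.den) / R) := by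
    have h1 := limb_size hG hσ hσ' hL hAR
    rwa [hr1] at h1
  obtain ⟨W, ⟨v, hv⟩, hW⟩ := hL.main hI.cpt hI.conn hadm
  rw [hr1] at hW
  have h0M : (0 : ℂ) ∈ MS := ball_sub_MS (mem_ball_self (by norm_num))
  -- `0 ∉ K`
  have h0K : (0 : ℂ) ∉ K := by
    intro h0
    rw [hK, LimbData.K_eq] at h0
    obtain ⟨L, hLP, hL0⟩ := h0
    have hLb : L ∈ ball (axisPt x) R :=
      closedBall_subset_ball hAR (hL.P_sub x hLP)
    have hre : 0 ≤ L.re := by
      rcases hLP with h1 | h1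
      · rw [h1, LimbData.axisPt_re]
      · exact (hL.T_dom L x h1).1.le
    have hre2 : L.re ≤ 2 * n * Real.log 2 / q := by
      have h1 := hL.P_sub x hLP
      rw [mem_closedBall, dist_eq_norm, hden] at h1
      have h2 := (Complex.re_le_norm (L - axisPt x)).trans h1
      rwa [Complex.sub_re, LimbData.axisPt_re, sub_zero] at h2
    obtain ⟨h3, h4⟩ := hσ' L hLb
    have h5 : σ L = (0, (σ L).2) := Prod.ext hL0 rfl
    have h6 : ((0 : ℂ), (σ L).2) ∈ Per n := by rw [← h5]; exact h3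
    have h7 := mul_zero_norm hn h6
    rw [← h5, h4] at h7
    rcases h7 with h7 | h7
    · exact Complex.exp_ne_zero _ h7
    · rw [Complex.norm_exp] at h7
      have h8 : L.re = n * Real.log 2 := by
        have := congrArg Real.log h7
        rwa [Real.log_exp, Real.log_pow] at this
      rw [h8, le_div_iff₀ hq'] at hre2
      have h9 : (3 : ℝ) ≤ q := by exact_mod_cast hq3
      have h10 : 0 < n * Real.log 2 := by positivity
      nlinarith
  have h0r : (0 : ℂ) ∈ MS \ {r} := by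
    refine ⟨h0M, fun h3 => h0K ?_⟩
    have h4 : (0 : ℂ) = r := h3
    rw [h4]; exact hrK
  -- the component of `0` is `M \ K`
  have hcompK : ∀ z ∈ connectedComponentIn (MS \ {r}) 0, z ∉ K := by
    intro z hz hzK
    exact h0K (NV.conn_sub hI.cpt.isClosed hKc.isClosed hKo isPreconnected_connectedComponentIn
      (connectedComponentIn_subset _ _) ⟨z, hz, hzK⟩ (mem_connectedComponentIn h0r))
  have hMK : ∀ z ∈ MS, z ∉ K → z ∈ connectedComponentIn (MS \ {r}) 0 := by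
    intro z hz hzK
    have hzr : z ∈ MS \ {r} := ⟨hz, fun h1 => hzK (by rw [mem_singleton_iff.1 h1]; exact hrK)⟩
    have h1 := connectedComponentIn_eq (hW z hz hzK hv)
    have h2 := connectedComponentIn_eq (hW 0 h0M h0K hv)
    rw [h2, ← h1]
    exact mem_connectedComponentIn hzr
  have hEq : MS \ connectedComponentIn (MS \ {r}) 0 = K := by
    ext z
    constructor
    · rintro ⟨h1, h2⟩
      by_contra h3
      exact h2 (hMK z h1 h3)
    · intro h1
      exact ⟨hKM h1, fun h2 => hcompK z h2 h1⟩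
  rw [hEq]
  refine ⟨hKc, ⟨⟨r, hrK⟩, hKp⟩, hKo, ?_, ?_⟩
  · -- attracting parameters near `r`
    obtain ⟨t₀, ht₀, ht₀R, hattr⟩ := NV.attr_near hden hR0 hG hσ hσ' hL.inj
    have hnq : 0 < n * q := Nat.mul_pos hn hq
    have hint : ∀ t : ℝ, 0 < t → t < t₀ → (σ (axisPt x + t)).1 ∈ interior MS := by
      intro t h1 h2
      obtain ⟨b', hb'⟩ := hattr t h1 h2
      exact NV.attr_interior hI hnq hb'
    have htype := NV.type_segment hL ht₀ ht₀R.le (fun t h1 h2 => interior_subset (hint t h1 h2))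
    have hc : ContinuousAt (fun L => (σ L).1) (axisPt x) :=
      continuous_fst.continuousAt.comp (hσ.continuousAt (isOpen_ball.mem_nhds hcen))
    rw [mem_closure_iff_nhds]
    intro N hN
    have h1 : (fun L => (σ L).1) ⁻¹' N ∈ 𝓝 (axisPt x) := by
      refine hc.preimage_mem_nhds ?_
      show N ∈ 𝓝 (σ (axisPt x)).1
      rw [hr1]; exact hN
    obtain ⟨δ, hδ, hδN⟩ := Metric.mem_nhds_iff.1 h1
    set t : ℝ := min (t₀ / 2) (δ / 2) with ht
    have ht0 : 0 < t := lt_min (by positivity) (by positivity)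
    have htt : t < t₀ := (min_le_left _ _).trans_lt (by linarith)
    have htδ : t < δ := (min_le_right _ _).trans_lt (by linarith)
    refine ⟨(σ (axisPt x + t)).1, hδN ?_, Or.inr ⟨_, htype t ht0 htt, rfl⟩, hint t ht0 htt⟩
    rw [mem_ball, dist_eq_norm, add_sub_cancel_left, Complex.norm_real, Real.norm_eq_abs,
      abs_of_pos ht0]
    exact htδ
  · refine hKs.trans (closedBall_subset_closedBall ?_)
    rw [hden, hR]
    apply le_of_eq
    field_simp
    ring

/-- **the size of a limb**: everything that `r` separates from `0` in `M` is within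
`50 n² q / min (p, q - p)²` of `r` -/
theorem limb_dist (hI : Inputs (1 / 4)) {n p q : ℕ} {r b : ℂ}
    (hn : 0 < n) (hp : 0 < p) (hpq : p < q) (hcop : Nat.Coprime p q) (hb : it r n b = b)
    (hm : mul n (r, b) = Complex.exp (2 * Real.pi * (p / q) * Complex.I)) :
    ∀ z ∈ MS \ connectedComponentIn (MS \ {r}) 0,
      dist z r ≤ 50 * (n ^ 2 * q / (min (p : ℝ) (q - p)) ^ 2) := by
  have hlog : 0 < Real.log 2 := Real.log_pos (by norm_num)
  have hlog2 : Real.log 2 < 0.6931471808 := Real.log_two_lt_d9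
  have hq : 0 < q := hp.trans hpq
  have hq' : (0 : ℝ) < q := by exact_mod_cast hq
  have hn' : (0 : ℝ) < n := by exact_mod_cast hn
  have hn1 : (1 : ℝ) ≤ n := by exact_mod_cast hn
  have hp' : (0 : ℝ) < p := by exact_mod_cast hp
  have hpq' : (p : ℝ) < q := by exact_mod_cast hpq
  have hm0 : 0 < min (p : ℝ) (q - p) := lt_min hp' (by linarith)
  have hrM : r ∈ MS := by
    by_contra h0
    have h1 := hI.rep n hn (r, b) hb h0
    rw [hm, Complex.norm_exp] at h1
    have h2 : (2 * (Real.pi : ℂ) * (p / q) * Complex.I).re = 0 := by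
      have : (2 * (Real.pi : ℂ) * (p / q) * Complex.I) =
        ((2 * Real.pi * (p / q) : ℝ) : ℂ) * Complex.I := by push_cast; ring
      rw [this, Complex.re_ofReal_mul, Complex.I_re, mul_zero]
    rw [h2, Real.exp_zero] at h1
    exact lt_irrefl _ h1
  intro z hz
  by_cases hsm : 3 ≤ q ∧ 2 * Real.log 2 * (n : ℝ) ^ 2 * q < 1 / 4 * (min (p : ℝ) (q - p)) ^ 2
  · obtain ⟨-, -, -, -, h⟩ := limb_canon hI hn hp hpq hcop hb hm hsm.1 hsm.2
    have h1 := h hz
    rw [mem_closedBall] at h1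
    refine h1.trans ?_
    gcongr
    linarith
  · -- the trivial case
    have hbd : ∀ c ∈ MS, ‖c‖ ≤ 4 := by
      intro c hc
      have h1 := norm_it_le_of_G_zero (mem_M_iff.1 hc) 2
      have h2 : it c 2 0 = c ^ 2 + c := by
        rw [it_succ, it_one, f_apply, f_apply]; ring
      rw [h2] at h1
      have h3 : ‖c‖ ^ 2 ≤ ‖c ^ 2 + c‖ + ‖c‖ := by
        rw [← norm_pow]
        calc ‖c ^ 2‖ = ‖(c ^ 2 + c) - c‖ := by ring_nf
          _ ≤ _ := norm_sub_le _ _
      nlinarith [norm_nonneg c]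
    have h8 : dist z r ≤ 8 := by
      rw [dist_eq_norm]
      calc ‖z - r‖ ≤ ‖z‖ + ‖r‖ := norm_sub_le _ _
        _ ≤ 4 + 4 := add_le_add (hbd z hz.1) (hbd r hrM)
        _ = 8 := by norm_num
    refine h8.trans ?_
    rw [← mul_div_assoc, le_div_iff₀ (by positivity)]
    rcases not_and_or.1 hsm with h | h
    · have hq2 : q ≤ 2 := by omega
      have hm1 : min (p : ℝ) (q - p) ≤ 1 := by
        have hq2' : (q : ℝ) ≤ 2 := by exact_mod_cast hq2
        have h1 := min_le_left (p : ℝ) (q - p)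
        have h2 := min_le_right (p : ℝ) (q - p)
        linarith
      have hm2 : (min (p : ℝ) (q - p)) ^ 2 ≤ 1 := pow_le_one₀ hm0.le hm1
      have hq1 : (1 : ℝ) ≤ q := by exact_mod_cast hq
      have h3 : (1 : ℝ) ≤ n ^ 2 * q := by nlinarith
      linarith
    · push Not at h
      nlinarith
end Pool.Agent.Work.MLC
end

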