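import Mathlib
import Pool.Agent.Work.MLCM.C18

section
set_option autoImplicit false

/-! # The Cauchy integral formula for null homologous loops  (helper65, Lemma C, second version)

Dixon's proof, for smooth `2 π`-periodic loops and the winding numbers `Wd`. -/

namespace Pool.Agent.Work.MLC.C65

open Filter Topology Metric Set Complex MeasureTheory

/-- derivative of a continuous logarithm along a curve -/
lemma hasDerivAt_of_exp {F v : ℝ → ℂ} {v' : ℂ} {x : ℝ} (hF : Continuous F)
    (h : ∀ y, Complex.exp (F y) = v y) (hv : HasDerivAt v v' x) :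
    HasDerivAt F (v' / v x) x := by
  have hvx : v x ≠ 0 := by rw [← h]; exact Complex.exp_ne_zero _
  have h1 : HasDerivAt (fun y => v y / v x) (v' / v x) x := hv.div_const _
  have h2 : HasDerivAt (fun y => Complex.log (v y / v x)) (v' / v x / (v x / v x)) x :=
    h1.clog_real (by rw [div_self hvx]; exact Complex.one_mem_slitPlane)
  rw [div_self hvx, div_one] at h2
  have h3 : F =ᶠ[𝓝 x] fun y => Complex.log (v y / v x) + F x := by
    have h4 : ∀ᶠ y in 𝓝 x, ‖F y - F x‖ < 1 := by
      have := hF.continuousAt (x := x)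
      have := this.eventually (Metric.ball_mem_nhds (F x) one_pos)
      filter_upwards [this] with y hy
      rwa [dist_eq_norm] at hy
    filter_upwards [h4] with y hy
    have h5 : v y / v x = Complex.exp (F y - F x) := by rw [Complex.exp_sub, h, h]
    have h6 := (abs_im_le_norm (F y - F x)).trans_lt hy
    rw [abs_lt] at h6
    have hpi := Real.pi_gt_three
    rw [h5, Complex.log_exp (by linarith) (by linarith)]
    ring
  exact (h2.add_const (F x)).congr_of_eventuallyEq h3

/-- the integral for the winding number -/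
lemma integral_wd {γ γ' : ℝ → ℂ} (hγ : ∀ x, HasDerivAt γ (γ' x) x) (hγ' : Continuous γ') {w : ℂ}
    {k : ℤ} (h : Wd (fun x => γ x - w) k) :
    ∫ x in (0 : ℝ)..(2 * Real.pi), γ' x / (γ x - w) = k * (2 * Real.pi * I) := by
  have hγc : Continuous γ := continuous_iff_continuousAt.2 fun x => (hγ x).continuousAt
  have hne : ∀ x, γ x - w ≠ 0 := fun x => h.ne_zero x
  obtain ⟨F, hF, hF1, hF2⟩ := h
  have h1 : ∀ x ∈ uIcc (0 : ℝ) (2 * Real.pi), HasDerivAt F (γ' x / (γ x - w)) x := fun x _ =>
    hasDerivAt_of_exp hF hF1 ((hγ x).sub_const w)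
  rw [intervalIntegral.integral_eq_sub_of_hasDerivAt h1
    ((hγ'.div (hγc.sub continuous_const) hne).intervalIntegrable _ _)]
  have h2 := hF2 0
  rw [zero_add] at h2
  rw [h2]; ring

/-- holomorphic dependence on a parameter -/
lemma differentiableAt_param {U : Set ℂ} (hU : IsOpen U) {K : ℂ → ℝ → ℂ}
    (hK : ContinuousOn (fun p : ℂ × ℝ => K p.1 p.2) (U ×ˢ univ))
    (hd : ∀ x, DifferentiableOn ℂ (fun w => K w x) U) {w₀ : ℂ} (hw₀ : w₀ ∈ U) (a b : ℝ) :
    DifferentiableAt ℂ (fun w => ∫ x in a..b, K w x) w₀ := by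
  obtain ⟨R, hR, hRU⟩ := Metric.nhds_basis_closedBall.mem_iff.1 (hU.mem_nhds hw₀)
  set r := R / 2 with hr
  have hr0 : 0 < r := by positivity
  have hcx : ∀ w ∈ U, Continuous fun x => K w x := fun w hw =>
    hK.comp_continuous (f := fun x : ℝ => (w, x)) (by fun_prop) (fun x => ⟨hw, mem_univ _⟩)
  obtain ⟨M, hM⟩ := ((isCompact_closedBall w₀ R).prod (isCompact_uIcc (a := a) (b := b))).exists_bound_of_continuousOn
    (f := fun p : ℂ × ℝ => K p.1 p.2) (hK.mono (prod_mono hRU (subset_univ _)))
  have hM' : ∀ w ∈ closedBall w₀ R, ∀ x ∈ uIcc a b, ‖K w x‖ ≤ M := fun w hw x hx =>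
    hM (w, x) ⟨hw, hx⟩
  have hder : ∀ w ∈ ball w₀ r, ∀ x ∈ uIcc a b, ‖deriv (fun w => K w x) w‖ ≤ M / r := by
    intro w hw x hx
    have hsub : closedBall w r ⊆ closedBall w₀ R := by
      intro z hz
      rw [mem_closedBall] at hz ⊢
      rw [mem_ball] at hw
      have := dist_triangle z w w₀
      linarith
    refine Complex.norm_deriv_le_of_forall_mem_sphere_norm_le hr0 ?_ (fun z hz => ?_)
    · apply DifferentiableOn.diffContOnCl
      rw [closure_ball w hr0.ne']
      exact (hd x).mono (hsub.trans hRU)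
    · exact hM' z (hsub (sphere_subset_closedBall hz)) x hx
  have hder0 : ∀ x, HasDerivAt (fun w => K w x) (deriv (fun w => K w x) w₀) w₀ := fun x =>
    ((hd x).differentiableAt (hU.mem_nhds hw₀)).hasDerivAt
  have hmeas : AEStronglyMeasurable (fun x => deriv (fun w => K w x) w₀)
      (volume.restrict (uIoc a b)) := by
    -- a limit of difference quotients
    set u : ℕ → ℂ := fun k => ((r / (k + 1) : ℝ) : ℂ) with hu
    have hu0 : Tendsto u atTop (𝓝 0) := by
      have h1 : Tendsto (fun k : ℕ => r / ((k : ℝ) + 1)) atTop (𝓝 0) :=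
        tendsto_const_nhds.div_atTop (tendsto_natCast_atTop_atTop.atTop_add tendsto_const_nhds)
      exact (Complex.continuous_ofReal.tendsto' 0 0 (by simp)).comp h1
    have hune : ∀ k, u k ≠ 0 := fun k => by
      rw [hu]
      simp only [ne_eq, ofReal_eq_zero]
      positivity
    have huU : ∀ k, w₀ + u k ∈ U := fun k => by
      apply hRU
      rw [mem_closedBall, dist_eq_norm, add_sub_cancel_left, hu]
      simp only [norm_real, Real.norm_eq_abs]
      rw [abs_of_pos (by positivity), div_le_iff₀ (by positivity)]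
      have : (0 : ℝ) ≤ k := by positivity
      nlinarith
    refine aestronglyMeasurable_of_tendsto_ae (u := atTop)
      (f := fun k x => (u k)⁻¹ * (K (w₀ + u k) x - K w₀ x)) (fun k => ?_) ?_
    · exact (continuous_const.mul ((hcx _ (huU k)).sub (hcx _ hw₀))).aestronglyMeasurable
    · refine ae_of_all _ fun x => ?_
      have h1 := (hder0 x).tendsto_slope
      have h2 : Tendsto (fun k => w₀ + u k) atTop (𝓝[≠] w₀) := by
        refine tendsto_nhdsWithin_iff.2 ⟨?_, Eventually.of_forall fun k => ?_⟩
        · simpa using hu0.const_add w₀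
        · simp only [mem_compl_iff, mem_singleton_iff, add_eq_left]
          exact hune k
      refine (h1.comp h2).congr fun k => ?_
      simp only [Function.comp_apply, slope_def_field, add_sub_cancel_left]
      rw [div_eq_inv_mul]
  have hmain := intervalIntegral.hasDerivAt_integral_of_dominated_loc_of_deriv_le
    (μ := volume) (a := a) (b := b) (F := K) (F' := fun w x => deriv (fun w => K w x) w)
    (x₀ := w₀) (s := ball w₀ r) (bound := fun _ => M / r) (ball_mem_nhds _ hr0) ?_ ?_ hmeas ?_ ?_ ?_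
  · exact hmain.2.differentiableAt
  · filter_upwards [hU.mem_nhds hw₀] with w hw
    exact (hcx w hw).aestronglyMeasurable
  · exact (hcx w₀ hw₀).intervalIntegrable _ _
  · exact ae_of_all _ fun x hx w hw => hder w hw x (uIoc_subset_uIcc hx)
  · exact intervalIntegrable_const
  · refine ae_of_all _ fun x _ w hw => ?_
    have hwU : w ∈ U := hRU (ball_subset_closedBall (ball_subset_ball (by rw [hr]; linarith) hw))
    exact ((hd x).differentiableAt (hU.mem_nhds hwU)).hasDerivAt

lemma dslope_comm (q : ℂ → ℂ) (z w : ℂ) : dslope q z w = dslope q w z := by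
  by_cases h : z = w
  · subst h; rfl
  · rw [dslope_of_ne _ (Ne.symm h), dslope_of_ne _ h, slope_comm]

lemma continuousOn_dslope2 {Ω : Set ℂ} (hΩ : IsOpen Ω) {q : ℂ → ℂ} (hq : DifferentiableOn ℂ q Ω) :
    ContinuousOn (fun p : ℂ × ℂ => dslope q p.1 p.2) (Ω ×ˢ Ω) := by
  rintro ⟨a, b⟩ ⟨ha, hb⟩
  simp only at ha hb
  have hqa : ContinuousAt q a := (hq.differentiableAt (hΩ.mem_nhds ha)).continuousAt
  have hqb : ContinuousAt q b := (hq.differentiableAt (hΩ.mem_nhds hb)).continuousAt
  apply ContinuousAt.continuousWithinAt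
  by_cases hab : a = b
  · subst hab
    have hA : AnalyticAt ℂ q a := hq.analyticAt (hΩ.mem_nhds ha)
    have h1 : HasStrictDerivAt q (deriv q a) a := hA.hasStrictDerivAt
    have h2 : ContinuousAt (deriv q) a := hA.deriv.continuousAt
    rw [Metric.continuousAt_iff']
    intro ε hε
    have h3 := h1.isLittleO.def (half_pos hε)
    have h4 : ∀ᶠ p : ℂ × ℂ in 𝓝 (a, a), ‖deriv q p.1 - deriv q a‖ < ε := by
      have h40 : ContinuousAt (fun p : ℂ × ℂ => deriv q p.1) (a, a) :=
        ContinuousAt.comp (f := Prod.fst) (g := deriv q) h2 continuousAt_fst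
      rw [Metric.continuousAt_iff'] at h40
      filter_upwards [h40 ε hε] with p hp
      rwa [dist_eq_norm] at hp
    filter_upwards [h3, h4] with p h5 h6
    obtain ⟨z, w⟩ := p
    simp only at h5 h6
    rw [dslope_same, dist_eq_norm]
    by_cases hzw : z = w
    · subst hzw
      rw [dslope_same]
      exact h6
    · rw [dslope_of_ne _ (Ne.symm hzw), slope_def_field]
      have h7 : w - z ≠ 0 := sub_ne_zero.2 (Ne.symm hzw)
      have h8 : (q w - q z) / (w - z) - deriv q a
          = (q z - q w - (z - w) • deriv q a) / (z - w) := by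
        have h9 : z - w ≠ 0 := sub_ne_zero.2 hzw
        rw [smul_eq_mul]
        field_simp
        ring
      have h10 : 0 < ‖z - w‖ := norm_pos_iff.2 (sub_ne_zero.2 hzw)
      rw [h8, norm_div, div_lt_iff₀ h10]
      refine lt_of_le_of_lt (b := ε / 2 * ‖z - w‖) ?_ (by nlinarith)
      simpa [ContinuousLinearMap.toSpanSingleton_apply] using h5
  · have h1 : (fun p : ℂ × ℂ => dslope q p.1 p.2) =ᶠ[𝓝 (a, b)]
        fun p => (q p.2 - q p.1) / (p.2 - p.1) := by
      have h2 : ∀ᶠ p : ℂ × ℂ in 𝓝 (a, b), p.1 ≠ p.2 :=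
        (isOpen_ne_fun continuous_fst continuous_snd).mem_nhds hab
      filter_upwards [h2] with p hp
      rw [dslope_of_ne _ (Ne.symm hp), slope_def_field]
    refine ContinuousAt.congr ?_ h1.symm
    have hqa' : ContinuousAt (fun p : ℂ × ℂ => q p.1) (a, b) :=
      ContinuousAt.comp (f := Prod.fst) (g := q) hqa continuousAt_fst
    have hqb' : ContinuousAt (fun p : ℂ × ℂ => q p.2) (a, b) :=
      ContinuousAt.comp (f := Prod.snd) (g := q) hqb continuousAt_snd
    exact (hqb'.sub hqa').div (continuousAt_snd.sub continuousAt_fst)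
      (sub_ne_zero.2 (Ne.symm hab))

/-- far away points -/
lemma wd_far {γ : ℝ → ℂ} (hγ : Continuous γ) (hper : ∀ x, γ (x + 2 * Real.pi) = γ x) {M : ℝ}
    (hM : ∀ x, ‖γ x‖ ≤ M) {w : ℂ} (hw : M < ‖w‖) : Wd (fun x => γ x - w) 0 := by
  have hw0 : 0 < ‖w‖ := ((norm_nonneg _).trans (hM 0)).trans_lt hw
  have hw1 : w ≠ 0 := norm_pos_iff.1 hw0
  have h1 : Wd (fun x => 1 - γ x / w) 0 := by
    refine wd_near_one (by fun_prop) (fun x => by simp only [hper]) (fun x => ?_)
    have h2 : 1 - γ x / w - 1 = -(γ x / w) := by ring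
    rw [h2, norm_neg, norm_div, div_lt_one hw0]
    exact (hM x).trans_lt hw
  have h2 := (wd_const (neg_ne_zero.2 hw1)).mul h1
  rw [add_zero] at h2
  refine h2.congr fun x => ?_
  field_simp
  ring

/-- **the Cauchy integral formula** -/
theorem dixon {Ω : Set ℂ} (hΩ : IsOpen Ω) {γ γ' : ℝ → ℂ} (hγ : ∀ x, HasDerivAt γ (γ' x) x)
    (hγ' : Continuous γ') (hper : ∀ x, γ (x + 2 * Real.pi) = γ x) (hmem : ∀ x, γ x ∈ Ω)
    (hout : ∀ w, w ∉ Ω → Wd (fun x => γ x - w) 0) {q : ℂ → ℂ} (hq : DifferentiableOn ℂ q Ω)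
    {b : ℂ} (hb : b ∈ Ω) (hwb : Wd (fun x => γ x - b) 1) :
    ∫ x in (0 : ℝ)..(2 * Real.pi), q (γ x) / (γ x - b) * γ' x = 2 * Real.pi * I * q b := by
  have hpi := Real.pi_pos
  have hγc : Continuous γ := continuous_iff_continuousAt.2 fun x => (hγ x).continuousAt
  have hqγ : Continuous fun x => q (γ x) := hq.continuousOn.comp_continuous hγc hmem
  obtain ⟨M, hM⟩ : ∃ M : ℝ, ∀ x, ‖γ x‖ ≤ M := by
    obtain ⟨M, hM⟩ := (isCompact_Icc (a := (0 : ℝ)) (b := 2 * Real.pi)).exists_bound_of_continuousOn
      hγc.continuousOn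
    refine ⟨M, fun x => ?_⟩
    have hp : Function.Periodic γ (2 * Real.pi) := hper
    obtain ⟨y, hy, hxy⟩ := hp.exists_mem_Ico₀ (by positivity) x
    rw [hxy]
    exact hM y (Ico_subset_Icc_self hy)
  -- the two integrals
  set H1 : ℂ → ℂ := fun w => ∫ x in (0 : ℝ)..(2 * Real.pi), dslope q w (γ x) * γ' x with hH1
  set H2 : ℂ → ℂ := fun w => ∫ x in (0 : ℝ)..(2 * Real.pi), q (γ x) / (γ x - w) * γ' x with hH2
  have hrel : ∀ w ∈ Ω, (∀ x, γ x ≠ w) → ∀ k : ℤ, Wd (fun x => γ x - w) k →
      H1 w = H2 w - q w * (k * (2 * Real.pi * I)) := by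
    intro w hw hne k hk
    rw [hH1, hH2, ← integral_wd hγ hγ' hk]
    simp only
    have hne' : ∀ x, γ x - w ≠ 0 := fun x => sub_ne_zero.2 (hne x)
    rw [← intervalIntegral.integral_const_mul, ← intervalIntegral.integral_sub]
    · congr 1
      funext x
      rw [dslope_of_ne _ (hne x), slope_def_field]
      have := hne' x
      field_simp
    · exact ((hqγ.div (hγc.sub continuous_const) hne').mul hγ').intervalIntegrable _ _
    · exact (continuous_const.mul
        (hγ'.div (hγc.sub continuous_const) hne')).intervalIntegrable _ _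
  classical
  set H : ℂ → ℂ := fun w => if w ∈ Ω then H1 w else H2 w with hH
  have hHeq : ∀ w, Wd (fun x => γ x - w) 0 → H w = H2 w := by
    intro w hw
    rw [hH]
    simp only
    split_ifs with h
    · rw [hrel w h (fun x => sub_ne_zero.1 (hw.ne_zero x)) 0 hw]
      simp
    · rfl
  have hdiff : Differentiable ℂ H := by
    intro w
    by_cases hw : w ∈ Ω
    · have h1 : H =ᶠ[𝓝 w] H1 := by
        filter_upwards [hΩ.mem_nhds hw] with z hz
        rw [hH]; simp only [hz, if_true]
      refine DifferentiableAt.congr_of_eventuallyEq ?_ h1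
      refine differentiableAt_param hΩ (K := fun w x => dslope q w (γ x) * γ' x) ?_ ?_ hw _ _
      · refine ContinuousOn.mul ?_ (hγ'.comp continuous_snd).continuousOn
        exact (continuousOn_dslope2 hΩ hq).comp (f := fun p : ℂ × ℝ => (p.1, γ p.2))
          (by fun_prop) (fun p hp => ⟨hp.1, hmem _⟩)
      · intro x
        refine DifferentiableOn.mul_const ?_ _
        have h2 : (fun w => dslope q w (γ x)) = dslope q (γ x) := by
          funext w; exact dslope_comm q w (γ x)
        rw [h2]
        exact (differentiableOn_dslope (hΩ.mem_nhds (hmem x))).2 hq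
    · -- a ball free of the curve
      have hw0 := hout w hw
      have hcl : IsCompact (γ '' Icc 0 (2 * Real.pi)) := isCompact_Icc.image hγc
      have hnm : w ∉ γ '' Icc 0 (2 * Real.pi) := by
        rintro ⟨x, -, rfl⟩
        exact hw (hmem x)
      obtain ⟨δ, hδ, hδb⟩ := Metric.nhds_basis_ball.mem_iff.1
        (hcl.isClosed.isOpen_compl.mem_nhds hnm)
      have hdist : ∀ x, δ ≤ ‖γ x - w‖ := by
        intro x
        by_contra hcon
        push Not at hcon
        have hp : Function.Periodic γ (2 * Real.pi) := hper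
        obtain ⟨y, hy, hxy⟩ := hp.exists_mem_Ico₀ (by positivity) x
        refine hδb (a := γ x) (by rw [mem_ball, dist_eq_norm]; exact hcon) ?_
        rw [hxy]
        exact ⟨y, Ico_subset_Icc_self hy, rfl⟩
      have hwd : ∀ z ∈ ball w δ, Wd (fun x => γ x - z) 0 := by
        intro z hz
        have h1 : Wd (fun x => 1 - (z - w) / (γ x - w)) 0 := by
          refine wd_near_one ?_ (fun x => by simp only [hper]) (fun x => ?_)
          · exact continuous_const.sub (continuous_const.div (hγc.sub continuous_const)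
              (fun x => hw0.ne_zero x))
          · have h2 : 1 - (z - w) / (γ x - w) - 1 = -((z - w) / (γ x - w)) := by ring
            have h3 := hdist x
            rw [mem_ball, dist_eq_norm] at hz
            rw [h2, norm_neg, norm_div, div_lt_one (hδ.trans_le h3)]
            exact hz.trans_le h3
        have h2 := hw0.mul h1
        rw [add_zero] at h2
        refine h2.congr fun x => ?_
        have := hw0.ne_zero x
        field_simp
        ring
      have h1 : H =ᶠ[𝓝 w] H2 := by
        filter_upwards [ball_mem_nhds w hδ] with z hz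
        exact hHeq z (hwd z hz)
      refine DifferentiableAt.congr_of_eventuallyEq ?_ h1
      have hne : ∀ z ∈ ball w δ, ∀ x, γ x - z ≠ 0 := fun z hz x => (hwd z hz).ne_zero x
      refine differentiableAt_param (isOpen_ball (x := w) (ε := δ))
        (K := fun w x => q (γ x) / (γ x - w) * γ' x) ?_ ?_ (mem_ball_self hδ) _ _
      · refine ContinuousOn.mul ?_ (hγ'.comp continuous_snd).continuousOn
        refine ContinuousOn.div (hqγ.comp continuous_snd).continuousOn (by fun_prop) ?_
        exact fun p hp => hne p.1 hp.1 p.2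
      · intro x z hz
        have := hne z hz x
        exact (((differentiableAt_const _).div ((differentiableAt_const _).sub differentiableAt_id)
          this).mul_const _).differentiableWithinAt
  have hlim : Tendsto H (cocompact ℂ) (𝓝 0) := by
    obtain ⟨A, hA⟩ := (isCompact_Icc (a := (0 : ℝ)) (b := 2 * Real.pi)).exists_bound_of_continuousOn
      ((hqγ.mul hγ').continuousOn)
    have hA0 : 0 ≤ A := (norm_nonneg _).trans (hA 0 ⟨le_rfl, by positivity⟩)
    have h1 : Tendsto (fun w : ℂ => A * (2 * Real.pi) / (‖w‖ - M)) (cocompact ℂ) (𝓝 0) := by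
      refine Tendsto.div_atTop tendsto_const_nhds ?_
      exact tendsto_atTop_add_const_right _ _ (tendsto_norm_cocompact_atTop)
    refine squeeze_zero_norm' ?_ h1
    have h2 : ∀ᶠ w : ℂ in cocompact ℂ, M < ‖w‖ :=
      (tendsto_norm_cocompact_atTop (E := ℂ)).eventually (eventually_gt_atTop M)
    filter_upwards [h2] with w hw
    rw [hHeq w (wd_far hγc hper hM hw)]
    have h3 : ∀ x ∈ uIoc (0 : ℝ) (2 * Real.pi), ‖q (γ x) / (γ x - w) * γ' x‖ ≤ A / (‖w‖ - M) := by
      intro x hx
      rw [uIoc_of_le (by positivity)] at hx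
      have h4 := hA x ⟨hx.1.le, hx.2⟩
      have h5 : ‖w‖ - M ≤ ‖γ x - w‖ := by
        have := norm_sub_norm_le w (γ x)
        rw [norm_sub_rev] at this
        linarith [hM x]
      have h6 : q (γ x) / (γ x - w) * γ' x = q (γ x) * γ' x / (γ x - w) := by ring
      rw [h6, norm_div]
      exact div_le_div₀ hA0 h4 (by linarith) h5
    have h4 := intervalIntegral.norm_integral_le_of_norm_le_const h3
    rw [sub_zero, abs_of_pos (by positivity)] at h4
    refine h4.trans (le_of_eq ?_)
    ring
  have hz := hdiff.apply_eq_of_tendsto_cocompact b hlim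
  rw [hH] at hz
  simp only [hb, if_true] at hz
  rw [hrel b hb (fun x => sub_ne_zero.1 (hwb.ne_zero x)) 1 hwb, sub_eq_zero] at hz
  rw [hH2] at hz
  simp only at hz
  rw [hz]
  push_cast; ring

end Pool.Agent.Work.MLC.C65
end

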