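import Mathlib
import Pool.Agent.Work.MLCM.C09
import Pool.Agent.Work.MLCM.C12
import Pool.Agent.Work.MLCM.C13
import Pool.Agent.Work.MLCM.C15
import Pool.Agent.Work.MLCM.C16
import Pool.Agent.Work.MLCM.C23
import Pool.Agent.Work.MLCM.C24
import Pool.Agent.Work.MLCM.C25
import Pool.Agent.Work.MLCM.C28
import Pool.Agent.Work.MLCM.C29
import Pool.Agent.Work.MLCM.C37

section
set_option autoImplicit false

/-! # Rays landing at different points are unlinked (helper67) -/

namespace Pool.Agent.Work.MLC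

open Filter Topology Metric Set Complex

namespace Unl

/-- `arg (1 - exp (2 π i x)) = π x - π / 2` for `0 < x < 1`. -/
theorem arg_one_sub_pos {x : ℝ} (h0 : 0 < x) (h1 : x < 1) :
    (1 - exp (2 * Real.pi * x * I)).arg = Real.pi * x - Real.pi / 2 := by
  have hpi := Real.pi_pos
  have e : 1 - exp (2 * Real.pi * x * I) =
      ((2 * Real.sin (Real.pi * x) : ℝ) : ℂ) *
        exp (((Real.pi * x - Real.pi / 2 : ℝ) : ℂ) * I) := by
    have h2 : exp (2 * Real.pi * x * I) = exp (((Real.pi * x : ℝ) : ℂ) * I) ^ 2 := by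
      rw [← Complex.exp_nat_mul]; push_cast; ring_nf
    have h3 : exp (((Real.pi * x - Real.pi / 2 : ℝ) : ℂ) * I) =
        exp (((Real.pi * x : ℝ) : ℂ) * I) * (-I) := by
      have : ((Real.pi * x - Real.pi / 2 : ℝ) : ℂ) * I =
          ((Real.pi * x : ℝ) : ℂ) * I + (-(Real.pi / 2 * I)) := by push_cast; ring
      rw [this, Complex.exp_add, Complex.exp_neg, Complex.exp_pi_div_two_mul_I, Complex.inv_I]
    rw [h2, h3, Complex.exp_mul_I, ← Complex.ofReal_cos, ← Complex.ofReal_sin, Complex.ofReal_mul,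
      Complex.ofReal_ofNat]
    have h4 : ((Real.cos (Real.pi * x) : ℝ) : ℂ) ^ 2 + ((Real.sin (Real.pi * x) : ℝ) : ℂ) ^ 2 = 1 := by
      rw [← Complex.ofReal_pow, ← Complex.ofReal_pow, ← Complex.ofReal_add,
        Real.cos_sq_add_sin_sq, Complex.ofReal_one]
    linear_combination (-1 : ℂ) * h4 + ((Real.sin (Real.pi * x) : ℝ) : ℂ) ^ 2 * Complex.I_sq
  rw [e]
  have h5 : 0 < 2 * Real.sin (Real.pi * x) := by
    have : 0 < Real.sin (Real.pi * x) := Real.sin_pos_of_pos_of_lt_pi (by positivity) (by nlinarith)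
    linarith
  rw [Complex.arg_real_mul _ h5, Complex.arg_exp_mul_I]
  rw [toIocMod_eq_iff]
  refine ⟨⟨by nlinarith, by nlinarith⟩, 0, by simp⟩

theorem arg_one_sub_neg {x : ℝ} (h0 : -1 < x) (h1 : x < 0) :
    (1 - exp (2 * Real.pi * x * I)).arg = Real.pi * x + Real.pi / 2 := by
  have h := arg_one_sub_pos (x := x + 1) (by linarith) (by linarith)
  have e : exp (2 * Real.pi * ((x + 1 : ℝ) : ℂ) * I) = exp (2 * Real.pi * x * I) := by
    have : 2 * Real.pi * ((x + 1 : ℝ) : ℂ) * I = 2 * Real.pi * x * I + 2 * Real.pi * I := by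
      push_cast; ring
    rw [this, Complex.exp_periodic]
  rw [e] at h
  rw [h]; ring

/-- `1 - exp (2 π i x)` has positive real part if `x` is not an integer -/
theorem re_one_sub_pos {x : ℝ} (h : ∀ k : ℤ, x ≠ k) : 0 < (1 - exp (2 * Real.pi * x * I)).re := by
  have e : (2 : ℂ) * Real.pi * x * I = ((2 * Real.pi * x : ℝ) : ℂ) * I := by push_cast; ring
  rw [e, Complex.sub_re, Complex.one_re, Complex.exp_ofReal_mul_I_re]
  rcases (Real.cos_le_one (2 * Real.pi * x)).lt_or_eq with h1 | h1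
  · linarith
  · exfalso
    rw [Real.cos_eq_one_iff] at h1
    obtain ⟨k, hk⟩ := h1
    apply h k
    have h2 : (2 * Real.pi) ≠ 0 := by positivity
    have h3 : (2 * Real.pi) * x = (2 * Real.pi) * k := by linarith
    exact mul_left_cancel₀ h2 h3

/-- the curve `g`, scaled by `exp (-|s|)`, stays strictly inside a half plane -/
theorem side_bound {g : ℝ → ℂ} (hg : Continuous g) {u v w : ℂ}
    (hu : Tendsto (fun s : ℝ => g (-s) * Real.exp (-s)) atTop (𝓝 u))
    (hv : Tendsto (fun s : ℝ => g s * Real.exp (-s)) atTop (𝓝 v))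
    (hwu : (u * w).re < 1) (hwv : (v * w).re < 1) :
    ∃ δ : ℝ, 0 < δ ∧ ∀ᶠ R : ℝ in atTop, ∀ s ∈ Icc (-R) R, (g s * w).re ≤ (1 - δ) * Real.exp R := by
  obtain ⟨δ, hδ, hδ1, hδu, hδv⟩ : ∃ δ : ℝ, 0 < δ ∧ δ < 1 ∧ (u * w).re < 1 - δ ∧
      (v * w).re < 1 - δ := by
    refine ⟨min (1 / 2) (min ((1 - (u * w).re) / 2) ((1 - (v * w).re) / 2)), ?_, ?_, ?_, ?_⟩
    · refine lt_min (by norm_num) (lt_min (by linarith) (by linarith))
    · exact (min_le_left _ _).trans_lt (by norm_num)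
    · have : min (1 / 2) (min ((1 - (u * w).re) / 2) ((1 - (v * w).re) / 2)) ≤
        (1 - (u * w).re) / 2 := (min_le_right _ _).trans (min_le_left _ _)
      linarith
    · have : min (1 / 2) (min ((1 - (u * w).re) / 2) ((1 - (v * w).re) / 2)) ≤
        (1 - (v * w).re) / 2 := (min_le_right _ _).trans (min_le_right _ _)
      linarith
  refine ⟨δ, hδ, ?_⟩
  have h1 : ∀ᶠ s : ℝ in atTop, (g (-s) * w).re < (1 - δ) * Real.exp s := by
    have h2 : Tendsto (fun s : ℝ => (g (-s) * Real.exp (-s) * w).re) atTop (𝓝 (u * w).re) :=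
      (Complex.continuous_re.tendsto _).comp (hu.mul_const w)
    filter_upwards [h2.eventually (gt_mem_nhds hδu)] with s hs
    have e : g (-s) * (Real.exp (-s) : ℂ) * w = (Real.exp (-s) : ℝ) * (g (-s) * w) := by ring
    rw [e, Complex.re_ofReal_mul, Real.exp_neg] at hs
    have hp := Real.exp_pos s
    rw [inv_mul_lt_iff₀ hp] at hs
    linarith
  have h2 : ∀ᶠ s : ℝ in atTop, (g s * w).re < (1 - δ) * Real.exp s := by
    have h2 : Tendsto (fun s : ℝ => (g s * Real.exp (-s) * w).re) atTop (𝓝 (v * w).re) :=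
      (Complex.continuous_re.tendsto _).comp (hv.mul_const w)
    filter_upwards [h2.eventually (gt_mem_nhds hδv)] with s hs
    have e : g s * (Real.exp (-s) : ℂ) * w = (Real.exp (-s) : ℝ) * (g s * w) := by ring
    rw [e, Complex.re_ofReal_mul, Real.exp_neg] at hs
    have hp := Real.exp_pos s
    rw [inv_mul_lt_iff₀ hp] at hs
    linarith
  obtain ⟨S, hS⟩ := (eventually_atTop.1 (h1.and h2))
  obtain ⟨C, hC⟩ := (isCompact_Icc (a := -S) (b := S)).exists_bound_of_continuousOn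
    (f := fun s => g s * w) (by fun_prop)
  have h3 : ∀ᶠ R : ℝ in atTop, C ≤ (1 - δ) * Real.exp R := by
    have : Tendsto (fun R : ℝ => (1 - δ) * Real.exp R) atTop atTop :=
      Real.tendsto_exp_atTop.const_mul_atTop (by linarith)
    exact this.eventually_ge_atTop C
  filter_upwards [h3] with R hR s hs
  rcases le_or_gt s (-S) with h4 | h4
  · have h5 := (hS (-s) (by linarith)).1
    rw [neg_neg] at h5
    have h6 : Real.exp (-s) ≤ Real.exp R := Real.exp_le_exp.2 (by linarith [hs.1])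
    nlinarith
  · rcases le_or_gt S s with h5 | h5
    · have h6 := (hS s h5).2
      have h7 : Real.exp s ≤ Real.exp R := Real.exp_le_exp.2 hs.2
      nlinarith
    · have h6 := hC s ⟨h4.le, h5.le⟩
      exact ((le_abs_self _).trans (Complex.abs_re_le_norm _)).trans (h6.trans hR)

/-- one side of the square: the difference stays in an open half plane -/
theorem side_pos {g h : ℝ → ℂ} (hg : Continuous g) {u v w : ℂ}
    (hu : Tendsto (fun s : ℝ => g (-s) * Real.exp (-s)) atTop (𝓝 u))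
    (hv : Tendsto (fun s : ℝ => g s * Real.exp (-s)) atTop (𝓝 v))
    (hwu : (u * w).re < 1) (hwv : (v * w).re < 1)
    (hh : Tendsto (fun R : ℝ => h R * Real.exp (-R) * w) atTop (𝓝 1)) :
    ∀ᶠ R : ℝ in atTop, ∀ s ∈ Icc (-R) R, 0 < ((h R - g s) * w).re := by
  obtain ⟨δ, hδ, hb⟩ := side_bound hg hu hv hwu hwv
  have h1 : Tendsto (fun R : ℝ => (h R * Real.exp (-R) * w).re) atTop (𝓝 (1 : ℂ).re) :=
    (Complex.continuous_re.tendsto _).comp hh
  filter_upwards [hb, h1.eventually (lt_mem_nhds (show 1 - δ < (1 : ℂ).re by simp [hδ]))]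
    with R hR hR2 s hs
  have h2 := hR s hs
  have e : h R * (Real.exp (-R) : ℂ) * w = (Real.exp (-R) : ℝ) * (h R * w) := by ring
  rw [e, Complex.re_ofReal_mul, Real.exp_neg, lt_inv_mul_iff₀ (Real.exp_pos R)] at hR2
  rw [sub_mul, Complex.sub_re]
  linarith

/-- along a segment on which `k` stays in the right half plane, the continuous logarithm changes
like the principal one -/
theorem side_log {l k : ℝ → ℂ} (hl : Continuous l) (hk : Continuous k) {κ : ℂ} {x y : ℝ}
    (hxy : x ≤ y) (hexp : ∀ s, exp (l s) = κ * k s) (hpos : ∀ s ∈ Icc x y, 0 < (k s).re) :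
    (l y).im - (l x).im = (k y).arg - (k x).arg := by
  have hcont : ContinuousOn (fun s => (l s - log (k s)).im) (Icc x y) := by
    have h1 : ContinuousOn (fun s => log (k s)) (Icc x y) := by
      intro s hs
      have h2 : ContinuousAt log (k s) := continuousAt_clog (Or.inl (hpos s hs))
      exact (ContinuousAt.comp (f := k) h2 hk.continuousAt).continuousWithinAt
    exact Complex.continuous_im.comp_continuousOn (hl.continuousOn.sub h1)
  have hne : ∀ s ∈ Icc x y, k s ≠ 0 := by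
    intro s hs h0
    have := hpos s hs
    rw [h0] at this; simp at this
  have hex : ∀ s ∈ Icc x y, exp (l s - log (k s)) = κ := by
    intro s hs
    rw [Complex.exp_sub, hexp, Complex.exp_log (hne s hs), mul_div_assoc, div_self (hne s hs),
      mul_one]
  -- differences are multiples of `2 π`
  have hdiff : ∀ s ∈ Icc x y, ∃ m : ℤ, (l s - log (k s)).im - (l x - log (k x)).im =
      m * (2 * Real.pi) := by
    intro s hs
    have h1 : exp (l s - log (k s)) = exp (l x - log (k x)) := by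
      rw [hex s hs, hex x ⟨le_rfl, hxy⟩]
    obtain ⟨m, hm⟩ := Complex.exp_eq_exp_iff_exists_int.1 h1
    refine ⟨m, ?_⟩
    rw [hm]
    simp [Complex.add_im, Complex.mul_im]
  have hmain : (l y - log (k y)).im = (l x - log (k x)).im := by
    by_contra hcon
    obtain ⟨m, hm⟩ := hdiff y ⟨hxy, le_rfl⟩
    have hm0 : m ≠ 0 := by
      rintro rfl
      apply hcon
      rw [Int.cast_zero, zero_mul] at hm
      linarith
    set F : ℝ → ℝ := fun s => (l s - log (k s)).im with hF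
    have hpi := Real.pi_pos
    rcases lt_or_gt_of_ne hm0 with h | h
    · have h' : (m : ℝ) ≤ -1 := by exact_mod_cast (by omega : m ≤ -1)
      have hIVT : F x - Real.pi ∈ F '' Icc x y := by
        apply intermediate_value_Icc' hxy hcont
        constructor
        · have : F y - F x = m * (2 * Real.pi) := hm
          nlinarith
        · linarith
      obtain ⟨s, hs, hsF⟩ := hIVT
      obtain ⟨j, hj⟩ := hdiff s hs
      have h1 : F s - F x = j * (2 * Real.pi) := hj
      have h2 : (j : ℝ) * 2 = -1 := by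
        have : (j * 2 : ℝ) * Real.pi = -1 * Real.pi := by linarith
        exact mul_right_cancel₀ hpi.ne' this
      have h3 : j * 2 = -1 := by exact_mod_cast h2
      omega
    · have h' : (1 : ℝ) ≤ m := by exact_mod_cast (by omega : 1 ≤ m)
      have hIVT : F x + Real.pi ∈ F '' Icc x y := by
        apply intermediate_value_Icc hxy hcont
        constructor
        · linarith
        · have : F y - F x = m * (2 * Real.pi) := hm
          nlinarith
      obtain ⟨s, hs, hsF⟩ := hIVT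
      obtain ⟨j, hj⟩ := hdiff s hs
      have h1 : F s - F x = j * (2 * Real.pi) := hj
      have h2 : (j : ℝ) * 2 = 1 := by
        have : (j * 2 : ℝ) * Real.pi = 1 * Real.pi := by linarith
        exact mul_right_cancel₀ hpi.ne' this
      have h3 : j * 2 = 1 := by exact_mod_cast h2
      omega
  simp only [Complex.sub_im, Complex.log_im] at hmain
  linarith

/-- the argument of the scaled difference at a corner -/
theorem corner {h g : ℝ → ℂ} {x y : ℝ}
    (hh : Tendsto (fun R : ℝ => h R * Real.exp (-R)) atTop (𝓝 (exp (2 * Real.pi * x * I))))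
    (hg : Tendsto (fun R : ℝ => g R * Real.exp (-R)) atTop (𝓝 (exp (2 * Real.pi * y * I))))
    (hxy : ∀ k : ℤ, y - x ≠ k) :
    Tendsto (fun R : ℝ => ((h R - g R) * exp (-(2 * Real.pi * x * I))).arg) atTop
      (𝓝 (1 - exp (2 * Real.pi * ((y - x : ℝ) : ℂ) * I)).arg) := by
  have hlim : Tendsto (fun R : ℝ => ((Real.exp (-R) : ℝ) : ℂ) *
      ((h R - g R) * exp (-(2 * Real.pi * x * I)))) atTop
      (𝓝 (1 - exp (2 * Real.pi * ((y - x : ℝ) : ℂ) * I))) := by
    have h1 := (hh.sub hg).mul_const (exp (-(2 * Real.pi * x * I)))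
    have e1 : (exp (2 * Real.pi * x * I) - exp (2 * Real.pi * y * I)) *
        exp (-(2 * Real.pi * x * I)) = 1 - exp (2 * Real.pi * ((y - x : ℝ) : ℂ) * I) := by
      rw [sub_mul, ← Complex.exp_add, ← Complex.exp_add]
      simp only [add_neg_cancel, Complex.exp_zero]
      congr 2
      push_cast; ring
    rw [e1] at h1
    refine h1.congr fun R => ?_
    ring
  have hpos := re_one_sub_pos hxy
  have h2 : Tendsto (fun R : ℝ => (((Real.exp (-R) : ℝ) : ℂ) *
      ((h R - g R) * exp (-(2 * Real.pi * x * I)))).arg) atTop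
      (𝓝 (1 - exp (2 * Real.pi * ((y - x : ℝ) : ℂ) * I)).arg) :=
    (Complex.continuousAt_arg (Or.inl hpos)).tendsto.comp hlim
  refine h2.congr fun R => ?_
  exact Complex.arg_real_mul _ (Real.exp_pos _)

/-- **abstract unlinking lemma**: two curves whose four ends go to infinity in interlaced
directions meet. -/
theorem meet {g g' : ℝ → ℂ} (hg : Continuous g) (hg' : Continuous g') {a b a' d : ℝ}
    (h1 : a < b) (h2 : b < a') (h3 : a' < d) (h4 : d < a + 1)
    (ga : Tendsto (fun s : ℝ => g (-s) * Real.exp (-s)) atTop (𝓝 (exp (2 * Real.pi * a * I))))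
    (ga' : Tendsto (fun s : ℝ => g s * Real.exp (-s)) atTop (𝓝 (exp (2 * Real.pi * a' * I))))
    (gb : Tendsto (fun s : ℝ => g' (-s) * Real.exp (-s)) atTop (𝓝 (exp (2 * Real.pi * b * I))))
    (gd : Tendsto (fun s : ℝ => g' s * Real.exp (-s)) atTop (𝓝 (exp (2 * Real.pi * d * I)))) :
    ∃ s t, g s = g' t := by
  by_contra hcon
  push Not at hcon
  obtain ⟨l, hl, hle⟩ := exists_log_plane (D := fun p => g p.1 - g' p.2)
    (by fun_prop) (fun p => sub_ne_zero.2 (hcon _ _))
  have nint : ∀ x : ℝ, (0 < x ∧ x < 1) ∨ (-1 < x ∧ x < 0) → ∀ k : ℤ, x ≠ k := by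
    rintro x (⟨hx0, hx1⟩ | ⟨hx0, hx1⟩) k rfl
    · have e1 : 0 < k := by exact_mod_cast hx0
      have e2 : k < 1 := by exact_mod_cast hx1
      omega
    · have e1 : -1 < k := by exact_mod_cast hx0
      have e2 : k < 0 := by exact_mod_cast hx1
      omega
  have hre : ∀ x y : ℝ, ((0 < y - x ∧ y - x < 1) ∨ (-1 < y - x ∧ y - x < 0)) →
      (exp (2 * Real.pi * y * I) * exp (-(2 * Real.pi * x * I))).re < 1 := by
    intro x y hxy
    have := re_one_sub_pos (nint _ hxy)
    rw [Complex.sub_re, Complex.one_re] at this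
    rw [← Complex.exp_add]
    have e : 2 * Real.pi * (y : ℂ) * I + -(2 * Real.pi * x * I) =
        2 * Real.pi * ((y - x : ℝ) : ℂ) * I := by push_cast; ring
    rw [e]; linarith
  have hone : ∀ {h : ℝ → ℂ} {x : ℝ},
      Tendsto (fun R : ℝ => h R * Real.exp (-R)) atTop (𝓝 (exp (2 * Real.pi * x * I))) →
      Tendsto (fun R : ℝ => h R * Real.exp (-R) * exp (-(2 * Real.pi * x * I))) atTop (𝓝 1) := by
    intro h x hh
    have := hh.mul_const (exp (-(2 * Real.pi * x * I)))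
    rwa [← Complex.exp_add, add_neg_cancel, Complex.exp_zero] at this
  have hS1 := side_pos (h := fun R => g' (-R)) hg ga ga' (hre b a (Or.inr ⟨by linarith, by linarith⟩))
    (hre b a' (Or.inl ⟨by linarith, by linarith⟩)) (hone gb)
  have hS2 := side_pos (h := fun R => g R) hg' gb gd (hre a' b (Or.inr ⟨by linarith, by linarith⟩))
    (hre a' d (Or.inl ⟨by linarith, by linarith⟩)) (hone ga')
  have hS3 := side_pos (h := fun R => g' R) hg ga ga' (hre d a (Or.inr ⟨by linarith, by linarith⟩))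
    (hre d a' (Or.inr ⟨by linarith, by linarith⟩)) (hone gd)
  have hS4 := side_pos (h := fun R => g (-R)) hg' gb gd (hre a b (Or.inl ⟨by linarith, by linarith⟩))
    (hre a d (Or.inl ⟨by linarith, by linarith⟩)) (hone ga)
  -- the eight corner arguments
  have c1 := corner (h := fun R => g' (-R)) (g := g) gb ga' (nint _ (Or.inl ⟨by linarith, by linarith⟩))
  have c2 := corner (h := fun R => g' (-R)) (g := fun R => g (-R)) gb ga
    (nint _ (Or.inr ⟨by linarith, by linarith⟩))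
  have c3 := corner (h := g) (g := g') ga' gd (nint _ (Or.inl ⟨by linarith, by linarith⟩))
  have c4 := corner (h := g) (g := fun R => g' (-R)) ga' gb
    (nint _ (Or.inr ⟨by linarith, by linarith⟩))
  have c5 := corner (h := g') (g := g) gd ga' (nint _ (Or.inr ⟨by linarith, by linarith⟩))
  have c6 := corner (h := g') (g := fun R => g (-R)) gd ga (nint _ (Or.inr ⟨by linarith, by linarith⟩))
  have c7 := corner (h := fun R => g (-R)) (g := g') ga gd (nint _ (Or.inl ⟨by linarith, by linarith⟩))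
  have c8 := corner (h := fun R => g (-R)) (g := fun R => g' (-R)) ga gb
    (nint _ (Or.inl ⟨by linarith, by linarith⟩))
  rw [arg_one_sub_pos (by linarith) (by linarith)] at c1 c3 c7 c8
  rw [arg_one_sub_neg (by linarith) (by linarith)] at c2 c4 c5 c6
  have hsum := (((c1.sub c2).add (c3.sub c4)).sub (c5.sub c6)).sub (c7.sub c8)
  have hzero : ∀ᶠ R : ℝ in atTop,
      (((g' (-R) - g R) * exp (-(2 * Real.pi * b * I))).arg -
        ((g' (-R) - g (-R)) * exp (-(2 * Real.pi * b * I))).arg +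
      (((g R - g' R) * exp (-(2 * Real.pi * a' * I))).arg -
        ((g R - g' (-R)) * exp (-(2 * Real.pi * a' * I))).arg) -
      (((g' R - g R) * exp (-(2 * Real.pi * d * I))).arg -
        ((g' R - g (-R)) * exp (-(2 * Real.pi * d * I))).arg) -
      (((g (-R) - g' R) * exp (-(2 * Real.pi * a * I))).arg -
        ((g (-R) - g' (-R)) * exp (-(2 * Real.pi * a * I))).arg)) = 0 := by
    filter_upwards [hS1, hS2, hS3, hS4, eventually_ge_atTop 0] with R k1 k2 k3 k4 hR
    have hRR : -R ≤ R := by linarith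
    have q1 := side_log (l := fun s => l (s, -R))
      (k := fun s => (g' (-R) - g s) * exp (-(2 * Real.pi * b * I)))
      (κ := -exp (2 * Real.pi * b * I)) (by fun_prop) (by fun_prop) hRR
      (by
        intro s
        rw [hle]
        have : exp (2 * Real.pi * b * I) * exp (-(2 * Real.pi * b * I)) = 1 := by
          rw [← Complex.exp_add, add_neg_cancel, Complex.exp_zero]
        linear_combination (-(g s - g' (-R))) * this) k1
    have q2 := side_log (l := fun t => l (R, t))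
      (k := fun t => (g R - g' t) * exp (-(2 * Real.pi * a' * I)))
      (κ := exp (2 * Real.pi * a' * I)) (by fun_prop) (by fun_prop) hRR
      (by
        intro s
        rw [hle]
        have : exp (2 * Real.pi * a' * I) * exp (-(2 * Real.pi * a' * I)) = 1 := by
          rw [← Complex.exp_add, add_neg_cancel, Complex.exp_zero]
        linear_combination (-(g R - g' s)) * this) k2
    have q3 := side_log (l := fun s => l (s, R))
      (k := fun s => (g' R - g s) * exp (-(2 * Real.pi * d * I)))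
      (κ := -exp (2 * Real.pi * d * I)) (by fun_prop) (by fun_prop) hRR
      (by
        intro s
        rw [hle]
        have : exp (2 * Real.pi * d * I) * exp (-(2 * Real.pi * d * I)) = 1 := by
          rw [← Complex.exp_add, add_neg_cancel, Complex.exp_zero]
        linear_combination (-(g s - g' R)) * this) k3
    have q4 := side_log (l := fun t => l (-R, t))
      (k := fun t => (g (-R) - g' t) * exp (-(2 * Real.pi * a * I)))
      (κ := exp (2 * Real.pi * a * I)) (by fun_prop) (by fun_prop) hRR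
      (by
        intro s
        rw [hle]
        have : exp (2 * Real.pi * a * I) * exp (-(2 * Real.pi * a * I)) = 1 := by
          rw [← Complex.exp_add, add_neg_cancel, Complex.exp_zero]
        linear_combination (-(g (-R) - g' s)) * this) k4
    rw [← q1, ← q2, ← q3, ← q4]
    ring
  have hlim0 := tendsto_nhds_unique (hsum.congr' hzero) tendsto_const_nhds
  have hpi := Real.pi_pos
  have : -(2 * Real.pi) = 0 := by
    rw [← hlim0]; ring
  linarith

/-- the two rays of angles `a`, `a'` joined at their landing point -/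
noncomputable def join (c : ℂ) (a a' : ℝ) (z : ℂ) (s : ℝ) : ℂ :=
  if s < 0 then eta c ((-s : ℝ) + 2 * Real.pi * a * I)
  else if 0 < s then eta c ((s : ℝ) + 2 * Real.pi * a' * I) else z

theorem join_neg {c : ℂ} {a a' : ℝ} {z : ℂ} {s : ℝ} (h : s < 0) :
    join c a a' z s = eta c ((-s : ℝ) + 2 * Real.pi * a * I) := by
  unfold join; rw [if_pos h]

theorem join_pos {c : ℂ} {a a' : ℝ} {z : ℂ} {s : ℝ} (h : 0 < s) :
    join c a a' z s = eta c ((s : ℝ) + 2 * Real.pi * a' * I) := by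
  unfold join; rw [if_neg (not_lt.2 h.le), if_pos h]

theorem join_zero {c : ℂ} {a a' : ℝ} {z : ℂ} : join c a a' z 0 = z := by
  unfold join; simp

theorem ray_re (x a : ℝ) : ((x : ℂ) + 2 * Real.pi * a * I).re = x := by
  simp

theorem continuousAt_ray {c : ℂ} (hc : G c 0 = 0) (a : ℝ) {x : ℝ} (hx : 0 < x) :
    ContinuousAt (fun x : ℝ => eta c ((x : ℂ) + 2 * Real.pi * a * I)) x := by
  have h1 : ContinuousAt (eta c) ((x : ℂ) + 2 * Real.pi * a * I) :=
    (differentiableAt_eta (by rw [hc, ray_re]; exact hx)).continuousAt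
  have h2 : Continuous (fun x : ℝ => (x : ℂ) + 2 * Real.pi * a * I) := by fun_prop
  exact ContinuousAt.comp (f := fun x : ℝ => (x : ℂ) + 2 * Real.pi * a * I) h1 h2.continuousAt

theorem continuous_join {c : ℂ} (hc : G c 0 = 0) {a a' : ℝ} {z : ℂ}
    (ha : Tendsto (fun x : ℝ => eta c ((x : ℂ) + 2 * Real.pi * a * I)) (𝓝[>] 0) (𝓝 z))
    (ha' : Tendsto (fun x : ℝ => eta c ((x : ℂ) + 2 * Real.pi * a' * I)) (𝓝[>] 0) (𝓝 z)) :
    Continuous (join c a a' z) := by
  rw [continuous_iff_continuousAt]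
  intro s
  rcases lt_trichotomy s 0 with h | h | h
  · have h1 := continuousAt_ray hc a (x := -s) (by linarith)
    have h2 : ContinuousAt (fun s : ℝ => eta c ((-s : ℝ) + 2 * Real.pi * a * I)) s :=
      ContinuousAt.comp (f := fun s : ℝ => -s) h1 continuous_neg.continuousAt
    refine h2.congr ?_
    filter_upwards [gt_mem_nhds h] with t ht
    exact (join_neg ht).symm
  · subst h
    rw [continuousAt_iff_continuous_left'_right']
    constructor
    · unfold ContinuousWithinAt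
      rw [join_zero]
      have h1 : Tendsto (fun s : ℝ => -s) (𝓝[<] 0) (𝓝[>] 0) := by
        have := tendsto_neg_nhdsLT (a := (0 : ℝ))
        simpa using this
      refine (ha.comp h1).congr' ?_
      filter_upwards [self_mem_nhdsWithin] with t ht
      exact (join_neg ht).symm
    · unfold ContinuousWithinAt
      rw [join_zero]
      refine ha'.congr' ?_
      filter_upwards [self_mem_nhdsWithin] with t ht
      exact (join_pos ht).symm
  · refine (continuousAt_ray hc a' h).congr ?_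
    filter_upwards [lt_mem_nhds h] with t ht
    exact (join_pos ht).symm

/-- rays are asymptotic to straight rays -/
theorem ray_asymp (c : ℂ) (a : ℝ) :
    Tendsto (fun x : ℝ => eta c ((x : ℂ) + 2 * Real.pi * a * I) * Real.exp (-x)) atTop
      (𝓝 (exp (2 * Real.pi * a * I))) := by
  have h1 : Tendsto (fun x : ℝ => eta c ((x : ℂ) + 2 * Real.pi * a * I) /
      exp ((x : ℂ) + 2 * Real.pi * a * I)) atTop (𝓝 1) := by
    rw [Metric.tendsto_atTop]
    intro ε hε
    obtain ⟨R, hR⟩ := tendsto_eta_div_exp c ε hε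
    refine ⟨R + 1, fun x hx => ?_⟩
    rw [dist_eq_norm]
    apply hR
    rw [ray_re]; linarith
  have h2 := h1.mul_const (exp (2 * Real.pi * a * I))
  rw [one_mul] at h2
  refine h2.congr fun x => ?_
  rw [Complex.exp_add, Complex.ofReal_exp, Complex.ofReal_neg, Complex.exp_neg]
  have e1 := Complex.exp_ne_zero (x : ℂ)
  have e2 := Complex.exp_ne_zero (2 * Real.pi * a * I)
  field_simp

/-- the landing point of a ray has potential `0` -/
theorem G_land {c : ℂ} (hc : G c 0 = 0) {a : ℝ} {z : ℂ}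
    (ha : Tendsto (fun x : ℝ => eta c ((x : ℂ) + 2 * Real.pi * a * I)) (𝓝[>] 0) (𝓝 z)) :
    G c z = 0 := by
  have h1 : Tendsto (fun x : ℝ => G c (eta c ((x : ℂ) + 2 * Real.pi * a * I))) (𝓝[>] 0)
      (𝓝 (G c z)) := ((continuous_G_right c).tendsto z).comp ha
  have h2 : Tendsto (fun x : ℝ => G c (eta c ((x : ℂ) + 2 * Real.pi * a * I))) (𝓝[>] 0)
      (𝓝 0) := by
    have h3 : Tendsto (fun x : ℝ => x) (𝓝[>] (0 : ℝ)) (𝓝 0) := nhdsWithin_le_nhds
    refine h3.congr' ?_
    filter_upwards [self_mem_nhdsWithin] with x hx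
    have hx' : 0 < x := hx
    rw [G_eta (by rw [hc, ray_re]; exact hx'), ray_re]
  exact tendsto_nhds_unique h1 h2

end Unl

/-- `x ↦ eta c (x + 2 π i a)` lands at `z` -/
def ULands (c : ℂ) (a : ℝ) (z : ℂ) : Prop :=
  Tendsto (fun x : ℝ => eta c ((x : ℂ) + 2 * Real.pi * a * I)) (𝓝[>] 0) (𝓝 z)

theorem ULands.G_eq_zero {c : ℂ} (hc : c ∈ MM) {a : ℝ} {z : ℂ} (h : ULands c a z) : G c z = 0 :=
  Unl.G_land (mem_M_iff.1 hc) h

theorem ULands.unique {c : ℂ} {a : ℝ} {z z' : ℂ} (h : ULands c a z) (h' : ULands c a z') : z = z' :=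
  tendsto_nhds_unique h h'

/-- **Unlinking**: interlaced rays that land in pairs land at the same point. -/
theorem unlink {c : ℂ} (hc : c ∈ MM) {a b a' d : ℝ} (h1 : a < b) (h2 : b < a') (h3 : a' < d)
    (h4 : d < a + 1) {z z' : ℂ} (ha : ULands c a z) (ha' : ULands c a' z)
    (hb : ULands c b z') (hd : ULands c d z') : z = z' := by
  by_contra hne
  have hc0 : G c 0 = 0 := mem_M_iff.1 hc
  have ga : Tendsto (fun s : ℝ => Unl.join c a a' z (-s) * Real.exp (-s)) atTop
      (𝓝 (exp (2 * Real.pi * a * I))) := by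
    refine (Unl.ray_asymp c a).congr' ?_
    filter_upwards [eventually_gt_atTop 0] with s hs
    rw [Unl.join_neg (by linarith), neg_neg]
  have ga' : Tendsto (fun s : ℝ => Unl.join c a a' z s * Real.exp (-s)) atTop
      (𝓝 (exp (2 * Real.pi * a' * I))) := by
    refine (Unl.ray_asymp c a').congr' ?_
    filter_upwards [eventually_gt_atTop 0] with s hs
    rw [Unl.join_pos hs]
  have gb : Tendsto (fun s : ℝ => Unl.join c b d z' (-s) * Real.exp (-s)) atTop
      (𝓝 (exp (2 * Real.pi * b * I))) := by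
    refine (Unl.ray_asymp c b).congr' ?_
    filter_upwards [eventually_gt_atTop 0] with s hs
    rw [Unl.join_neg (by linarith), neg_neg]
  have gd : Tendsto (fun s : ℝ => Unl.join c b d z' s * Real.exp (-s)) atTop
      (𝓝 (exp (2 * Real.pi * d * I))) := by
    refine (Unl.ray_asymp c d).congr' ?_
    filter_upwards [eventually_gt_atTop 0] with s hs
    rw [Unl.join_pos hs]
  obtain ⟨s, t, hst⟩ := Unl.meet (Unl.continuous_join hc0 ha ha') (Unl.continuous_join hc0 hb hd)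
    h1 h2 h3 h4 ga ga' gb gd
  have hGz := ha.G_eq_zero hc
  have hGz' := hb.G_eq_zero hc
  -- every nonzero parameter gives a point `eta c (x + 2 π i α)`
  have hform : ∀ (α β : ℝ) (w : ℂ) (s : ℝ), s ≠ 0 → ∃ x : ℝ, ∃ γ : ℝ, 0 < x ∧ (γ = α ∨ γ = β) ∧
      Unl.join c α β w s = eta c ((x : ℂ) + 2 * Real.pi * γ * I) := by
    intro α β w s hs
    rcases lt_or_gt_of_ne hs with h | h
    · exact ⟨-s, α, by linarith, Or.inl rfl, Unl.join_neg h⟩
    · exact ⟨s, β, h, Or.inr rfl, Unl.join_pos h⟩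
  have hGform : ∀ (x γ : ℝ), 0 < x → G c (eta c ((x : ℂ) + 2 * Real.pi * γ * I)) = x := by
    intro x γ hx
    rw [G_eta (by rw [hc0, Unl.ray_re]; exact hx), Unl.ray_re]
  by_cases hs : s = 0
  · by_cases ht : t = 0
    · rw [hs, ht, Unl.join_zero, Unl.join_zero] at hst
      exact hne hst
    · obtain ⟨x, γ, hx, -, he⟩ := hform b d z' t ht
      rw [hs, Unl.join_zero, he] at hst
      have := hGform x γ hx
      rw [← hst, hGz] at this
      linarith
  · obtain ⟨x, γ, hx, hγ, he⟩ := hform a a' z s hs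
    by_cases ht : t = 0
    · rw [ht, Unl.join_zero, he] at hst
      have := hGform x γ hx
      rw [hst, hGz'] at this
      linarith
    · obtain ⟨y, γ', hy, hγ', he'⟩ := hform b d z' t ht
      rw [he, he'] at hst
      rw [eta_eq_iff (by rw [hc0, Unl.ray_re]; exact hx) (by rw [hc0, Unl.ray_re]; exact hy)] at hst
      obtain ⟨k, hk⟩ := hst
      have him := congrArg Complex.im hk
      simp only [Complex.add_im, Complex.ofReal_im, Complex.mul_im, Complex.mul_re, Complex.re_ofNat,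
        Complex.ofReal_re, Complex.im_ofNat, Complex.I_im, Complex.I_re, Complex.intCast_re,
        Complex.intCast_im, mul_zero, mul_one, zero_mul, sub_zero, add_zero, zero_add] at him
      have hpi := Real.pi_pos
      have h5 : γ' = γ + k := by
        have : (2 * Real.pi) * γ' = (2 * Real.pi) * (γ + k) := by linarith
        exact mul_left_cancel₀ (by positivity) this
      have h6 : ((k : ℤ) : ℝ) = γ' - γ := by linarith
      have h7 : ((0 : ℝ) < k ∧ (k : ℝ) < 1) ∨ ((-1 : ℝ) < k ∧ (k : ℝ) < 0) := by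
        rw [h6]
        rcases hγ with rfl | rfl <;> rcases hγ' with rfl | rfl
        · left; constructor <;> linarith
        · left; constructor <;> linarith
        · right; constructor <;> linarith
        · left; constructor <;> linarith
      rcases h7 with ⟨h8, h9⟩ | ⟨h8, h9⟩
      · have e1 : 0 < k := by exact_mod_cast h8
        have e2 : k < 1 := by exact_mod_cast h9
        omega
      · have e1 : -1 < k := by exact_mod_cast h8
        have e2 : k < 0 := by exact_mod_cast h9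
        omega

theorem ULands.add_int {c : ℂ} {a : ℝ} {z : ℂ} (h : ULands c a z) (k : ℤ) : ULands c (a + k) z := by
  unfold ULands at h ⊢
  refine h.congr fun x => ?_
  have e : (x : ℂ) + 2 * Real.pi * ((a + k : ℝ) : ℂ) * I =
      ((x : ℂ) + 2 * Real.pi * a * I) + 2 * Real.pi * I * k := by push_cast; ring
  rw [e, eta_add_int]

theorem ULands.half {c : ℂ} (hc : c ∈ MM) {a : ℝ} {z : ℂ} (h : ULands c a z) :
    ULands c (a + 1 / 2) (-z) := by
  unfold ULands at h ⊢
  refine h.neg.congr' ?_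
  filter_upwards [self_mem_nhdsWithin] with x hx
  have hx' : 0 < x := hx
  have e : (x : ℂ) + 2 * Real.pi * ((a + 1 / 2 : ℝ) : ℂ) * I =
      ((x : ℂ) + 2 * Real.pi * a * I) + Real.pi * I := by push_cast; ring
  rw [e, eta_add_pi (by rw [mem_M_iff.1 hc, Unl.ray_re]; exact hx')]

/-- the notion of landing of `Stab4` (valid in and out of `MM`) agrees with `ULands` on `MM` -/
theorem Lands.uLands {c : ℂ} (hc : c ∈ MM) {a : ℝ} {z : ℂ} (h : Lands c a z) : ULands c a z := by
  obtain ⟨R, hR⟩ := h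
  refine hR.lands.congr' ?_
  filter_upwards [self_mem_nhdsWithin] with x hx
  have hx' : 0 < x := hx
  rw [hR.far (by rw [mem_M_iff.1 hc]; exact hx')]
  unfold eR
  congr 1
  ring

theorem ULands.lands {c : ℂ} (hc : c ∈ MM) {a : ℝ} {z : ℂ} (h : ULands c a z) : Lands c a z := by
  refine ⟨eR c a, Ray.of_mem (mem_M_iff.1 hc) ?_⟩
  refine h.congr fun x => ?_
  unfold eR
  congr 1
  ring

theorem Lands.uniq {c : ℂ} {a : ℝ} {z z' : ℂ} (h : Lands c a z) (h' : Lands c a z') : z = z' := by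
  obtain ⟨R, hR⟩ := h
  obtain ⟨R', hR'⟩ := h'
  exact hR.b_unique hR'

theorem Lands.shift {c : ℂ} {a : ℝ} {z : ℂ} (h : Lands c a z) (k : ℤ) : Lands c (a + k) z := by
  obtain ⟨R, hR⟩ := h
  exact ⟨R, hR.add_int k⟩

theorem Lands.push {c : ℂ} {a : ℝ} {z : ℂ} (h : Lands c a z) : Lands c (2 * a) (f c z) := by
  obtain ⟨R, hR⟩ := h
  exact ⟨_, hR.push⟩

theorem Lands.half {c : ℂ} (hc : c ∈ MM) {a : ℝ} {z : ℂ} (h : Lands c a z) :
    Lands c (a + 1 / 2) (-z) := ((h.uLands hc).half hc).lands hc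

end Pool.Agent.Work.MLC
end

section
set_option autoImplicit false

/-! # From unlinked landing patterns to portraits (helper5)

`RL c a z`: the ray of angle `a` (in turns) lands at `z`; `UnlP c`: two pairs of rays landing at two
different points are not linked.  For a finite set `S` of periodic angles, invariant under doubling,
the sets `A i` of the angles of `S` whose ray lands at the `i`-th point of a cycle form a
`Portrait`. -/

namespace Pool.Agent.Work.MLC

open Filter Topology Metric Set Complex Pool.Agent.MLC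

/-- the ray of angle `a` lands at `z` -/
def RL (c : ℂ) (a : ℝ) (z : ℂ) : Prop :=
  Tendsto (fun x : ℝ => eta c ((x : ℂ) + 2 * Real.pi * a * I)) (𝓝[>] 0) (𝓝 z)

variable {c z z' : ℂ} {a : ℝ}

theorem RL.unique (h : RL c a z) (h' : RL c a z') : z = z' := tendsto_nhds_unique h h'

theorem RL.add_int (h : RL c a z) (k : ℤ) : RL c (a + k) z := by
  have e : (fun x : ℝ => eta c ((x : ℂ) + 2 * Real.pi * ((a + k : ℝ) : ℂ) * I))
      = fun x : ℝ => eta c ((x : ℂ) + 2 * Real.pi * a * I) := by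
    funext x
    rw [← eta_add_int c ((x : ℂ) + 2 * Real.pi * a * I) k]
    congr 1
    push_cast
    ring
  unfold RL
  rw [e]
  exact h

theorem RL.dbl (hc : G c 0 = 0) (h : RL c a z) : RL c (2 * a) (f c z) := by
  have hf : Continuous (f c) := by
    unfold f
    fun_prop
  have h1 : Tendsto (fun x : ℝ => f c (eta c ((x : ℂ) + 2 * Real.pi * a * I))) (𝓝[>] 0)
      (𝓝 (f c z)) := (hf.tendsto z).comp h
  have h2 : Tendsto (fun x : ℝ => x / 2) (𝓝[>] 0) (𝓝[>] 0) := by
    apply tendsto_nhdsWithin_iff.2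
    constructor
    · have h2 : Tendsto (fun s : ℝ => s / 2) (𝓝 0) (𝓝 (0 / 2)) :=
        (continuous_id.div_const 2).tendsto 0
      rw [zero_div] at h2
      exact h2.mono_left nhdsWithin_le_nhds
    · filter_upwards [self_mem_nhdsWithin] with s hs
      have : (0 : ℝ) < s := hs
      show (0 : ℝ) < _
      positivity
  refine (h1.comp h2).congr' ?_
  filter_upwards [self_mem_nhdsWithin] with x hx
  have hx0 : (0 : ℝ) < x := hx
  simp only [Function.comp_apply]
  rw [f_eta (by simp [hc]; linarith)]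
  congr 1
  push_cast
  ring

theorem RL.iter (hc : G c 0 = 0) (h : RL c a z) (j : ℕ) : RL c (2 ^ j * a) (it c j z) := by
  induction j with
  | zero => simpa [it] using h
  | succ j ih =>
    have := ih.dbl hc
    rw [← it_succ] at this
    have e : 2 * (2 ^ j * a) = 2 ^ (j + 1) * a := by ring
    rwa [e] at this

theorem RL.half (hc : G c 0 = 0) (h : RL c a z) : RL c (a + 1 / 2) (-z) := by
  have h1 : Tendsto (fun x : ℝ => - eta c ((x : ℂ) + 2 * Real.pi * a * I)) (𝓝[>] 0) (𝓝 (-z)) :=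
    Filter.Tendsto.neg h
  refine h1.congr' ?_
  filter_upwards [self_mem_nhdsWithin] with x hx
  have hx0 : (0 : ℝ) < x := hx
  rw [← eta_add_pi (by simp [hc]; linarith)]
  congr 1
  push_cast
  ring

/-- two pairs of rays landing at different points are not linked -/
def UnlP (c : ℂ) : Prop :=
  ∀ (a b a' b' : ℝ) (z z' : ℂ), a < b → b < a' → a' < b' → b' < a + 1 →
    RL c a z → RL c a' z → RL c b z' → RL c b' z' → z = z'

/-- circle lemma: `A` not linked with and disjoint from its translate by a half turn lies in an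
open half circle -/
theorem half_of_unlinked {A : Set ℝ} (hne : A.Nonempty) (hsh : ∀ a ∈ A, ∀ k : ℤ, a + k ∈ A)
    (hfin : (A ∩ Set.Ico 0 1).Finite) (hdis : ∀ a ∈ A, a + 1 / 2 ∉ A)
    (hunl : ∀ a ∈ A, ∀ b ∈ A, ∀ x ∈ A, ∀ y ∈ A, a < x + 1 / 2 → x + 1 / 2 < b → b < y + 1 / 2 →
      y + 1 / 2 < a + 1 → False) :
    ∃ s : ℝ, ∀ a ∈ A, ∃ k : ℤ, s < a + k ∧ a + k < s + 1 / 2 := by
  classical
  obtain ⟨a₀, ha₀⟩ := hne
  -- finiteness of the part in any interval of length at most 2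
  have hfinI : ∀ u v : ℝ, (A ∩ Set.Icc u v).Finite := by
    intro u v
    have h1 : A ∩ Set.Icc u v ⊆ ⋃ k ∈ Finset.Icc (⌊u⌋) (⌊v⌋),
        (fun x : ℝ => x + (k : ℤ)) '' (A ∩ Set.Ico 0 1) := by
      rintro x ⟨hx, hxu, hxv⟩
      simp only [Set.mem_iUnion, Finset.mem_Icc]
      refine ⟨⌊x⌋, ⟨Int.floor_le_floor hxu, Int.floor_le_floor hxv⟩, x - ⌊x⌋, ⟨?_, ?_, ?_⟩, by ring⟩
      · have := hsh x hx (-⌊x⌋)
        simpa [sub_eq_add_neg] using this
      · linarith [Int.floor_le x]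
      · linarith [Int.lt_floor_add_one x]
    refine Set.Finite.subset ?_ h1
    exact Set.Finite.biUnion (Finset.finite_toSet _) (fun k _ => hfin.image _)
  set p : ℝ := a₀ + 1 / 2 with hp
  have hpA : p ∉ A := hdis a₀ ha₀
  have ha₁ : a₀ + 1 ∈ A := by simpa using hsh a₀ ha₀ 1
  -- `x` = last point before `p`
  obtain ⟨x, hx⟩ := (hfinI a₀ p).exists_maximal ⟨a₀, ha₀, le_rfl, by rw [hp]; linarith⟩
  obtain ⟨y, hy⟩ := (hfinI p (a₀ + 1)).exists_minimal ⟨a₀ + 1, ha₁, by rw [hp]; linarith, le_rfl⟩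
  have hxA : x ∈ A := hx.1.1
  have hyA : y ∈ A := hy.1.1
  have hxa : a₀ ≤ x := hx.1.2.1
  have hya : y ≤ a₀ + 1 := hy.1.2.2
  have hxp : x < p := lt_of_le_of_ne hx.1.2.2 (fun h => hpA (h ▸ hxA))
  have hpy : p < y := lt_of_le_of_ne hy.1.2.1 (fun h => hpA (h ▸ hyA))
  have hxmax : ∀ u ∈ A, u < p → u ≤ x := by
    intro u hu hup
    by_contra hcon
    push Not at hcon
    have h1 : u ∈ A ∩ Set.Icc a₀ p := ⟨hu, by linarith, hup.le⟩
    have := hx.2 h1 hcon.le
    linarith
  have hymin : ∀ u ∈ A, p < u → y ≤ u := by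
    intro u hu hup
    by_contra hcon
    push Not at hcon
    have h1 : u ∈ A ∩ Set.Icc p (a₀ + 1) := ⟨hu, hup.le, by linarith⟩
    have := hy.2 h1 hcon.le
    linarith
  have hgap : x + 1 / 2 < y := by
    by_contra hcon
    push Not at hcon
    have h1 : y < x + 1 / 2 := lt_of_le_of_ne hcon (fun h => hdis x hxA (h ▸ hyA))
    exact hunl x hxA y hyA a₀ ha₀ x hxA hxp hpy h1 (by linarith)
  refine ⟨(x + 1 / 2 + y) / 2, fun a ha => ?_⟩
  -- translate `a` into `(p, p + 1]`
  set k : ℤ := ⌊p - a⌋ + 1 with hk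
  have h1 : p < a + k := by
    have := Int.lt_floor_add_one (p - a)
    rw [hk]; push_cast; linarith
  have h2 : a + k ≤ p + 1 := by
    have := Int.floor_le (p - a)
    rw [hk]; push_cast; linarith
  have h3 : y ≤ a + k := hymin _ (hsh a ha k) h1
  have h4 : a + k - 1 ∈ A := by
    have := hsh a ha (k - 1)
    push_cast at this
    rwa [← add_sub_assoc] at this
  have h5 : a + k - 1 < p := lt_of_le_of_ne (by linarith) (fun h => hpA (h ▸ h4))
  have h6 : a + k - 1 ≤ x := hxmax _ h4 h5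
  exact ⟨k, by linarith, by linarith⟩

/-- a finite (mod 1) set of periodic angles which is invariant under doubling -/
structure AngSet (S : Set ℝ) : Prop where
  shift : ∀ a ∈ S, ∀ k : ℤ, a + k ∈ S
  fin : (S ∩ Set.Ico 0 1).Finite
  dbl : ∀ a ∈ S, 2 * a ∈ S
  per : ∀ a ∈ S, ∃ m : ℕ, 0 < m ∧ ∃ k : ℤ, 2 ^ m * a = a + k

theorem AngSet.union {S T : Set ℝ} (hS : AngSet S) (hT : AngSet T) : AngSet (S ∪ T) where
  shift := fun a ha k => ha.imp (fun h => hS.shift a h k) (fun h => hT.shift a h k)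
  fin := by
    rw [Set.union_inter_distrib_right]
    exact hS.fin.union hT.fin
  dbl := fun a ha => ha.imp (hS.dbl a) (hT.dbl a)
  per := fun a ha => ha.elim (hS.per a) (hT.per a)

theorem AngSet.iter {S : Set ℝ} (hS : AngSet S) {a : ℝ} (ha : a ∈ S) (j : ℕ) : 2 ^ j * a ∈ S := by
  induction j with
  | zero => simpa using ha
  | succ j ih =>
    have := hS.dbl _ ih
    have e : 2 * (2 ^ j * a) = 2 ^ (j + 1) * a := by ring
    rwa [e] at this

lemma pow_per {a : ℝ} {m : ℕ} {k : ℤ} (h : 2 ^ m * a = a + k) (t : ℕ) :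
    ∃ l : ℤ, 2 ^ (m * t) * a = a + l := by
  induction t with
  | zero => exact ⟨0, by simp⟩
  | succ t ih =>
    obtain ⟨l, hl⟩ := ih
    refine ⟨k + 2 ^ m * l, ?_⟩
    have e : (2 : ℝ) ^ (m * (t + 1)) * a = 2 ^ m * (2 ^ (m * t) * a) := by
      rw [Nat.mul_succ, pow_add]; ring
    rw [e, hl, mul_add, h]
    push_cast
    ring

/-- the orbit of an angle -/
def orb (β : ℝ) : Set ℝ := {a | ∃ j : ℕ, ∃ k : ℤ, a = 2 ^ j * β + k}

theorem mem_orb (β : ℝ) : β ∈ orb β := ⟨0, 0, by simp⟩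

theorem angSet_orb {β : ℝ} {m : ℕ} (hm : 0 < m) {l : ℤ} (h : 2 ^ m * β = β + l) :
    AngSet (orb β) where
  shift := by
    rintro a ⟨j, k, rfl⟩ k'
    exact ⟨j, k + k', by push_cast; ring⟩
  fin := by
    have h1 : orb β ∩ Set.Ico 0 1 ⊆ (fun j : ℕ => Int.fract (2 ^ j * β)) '' (Set.Iio m) := by
      rintro a ⟨⟨j, k, rfl⟩, h0, h1⟩
      obtain ⟨l', hl'⟩ := pow_per h (j / m)
      refine ⟨j % m, Nat.mod_lt _ hm, ?_⟩
      have h2 : (2 : ℝ) ^ j * β = 2 ^ (j % m) * β + ((2 ^ (j % m) * l' : ℤ) : ℝ) := by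
        conv_lhs => rw [← Nat.div_add_mod j m, pow_add]
        have e : (2 : ℝ) ^ (m * (j / m)) * 2 ^ (j % m) * β = 2 ^ (j % m) * (2 ^ (m * (j / m)) * β) := by
          ring
        rw [e, hl']
        push_cast
        ring
      show Int.fract (2 ^ (j % m) * β) = 2 ^ j * β + k
      rw [Int.fract_eq_iff]
      refine ⟨h0, h1, -(2 ^ (j % m) * l' + k), ?_⟩
      rw [h2]
      push_cast
      ring
    exact ((Set.finite_Iio m).image _).subset h1
  dbl := by
    rintro a ⟨j, k, rfl⟩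
    exact ⟨j + 1, 2 * k, by push_cast; ring⟩
  per := by
    rintro a ⟨j, k, rfl⟩
    refine ⟨m, hm, 2 ^ j * l + 2 ^ m * k - k, ?_⟩
    have e : (2 : ℝ) ^ m * (2 ^ j * β + k) = 2 ^ j * (2 ^ m * β) + 2 ^ m * k := by ring
    rw [e, h]
    push_cast
    ring

theorem angSet_orb_of_perAngle {n q : ℕ} (hn : 0 < n) {β : ℝ} (h : PerAngle n q β) :
    AngSet (orb β) := by
  obtain ⟨hq, ⟨k, hk⟩, -⟩ := h
  exact angSet_orb (m := n * q) (l := k) (Nat.mul_pos hn hq) (by linarith)

theorem not_int_of_perAngle {n q : ℕ} {β : ℝ} (h : PerAngle n q β) (hq : 2 ≤ q) :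
    ∀ k : ℤ, (2 : ℝ) ^ n * β - β ≠ k := by
  intro k hk
  exact h.2.2 1 one_pos (by omega) ⟨k, by simpa using hk⟩

/-- the angles of `S` whose ray lands at the `i`-th point of the cycle of `b` -/
def AngP (S : Set ℝ) (c b : ℂ) (i : ℕ) : Set ℝ := {a | a ∈ S ∧ RL c a (it c i b)}

theorem it_add_mul {n : ℕ} {b : ℂ} (hb : it c n b = b) (i t : ℕ) : it c (i + n * t) b = it c i b := by
  induction t with
  | zero => simp
  | succ t ih =>
    have e : i + n * (t + 1) = (i + n * t) + n := by ring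
    rw [e, it_add, hb, ih]

/-- **the portrait** -/
theorem portrait {n : ℕ} {b : ℂ} {S : Set ℝ} (hc : G c 0 = 0) (hU : UnlP c) (hn : 0 < n)
    (hb : it c n b = b) (h0 : ∀ i, it c i b ≠ 0) (hS : AngSet S) {β : ℝ} (hβ : β ∈ S)
    (hl : RL c β b) (hq : ∀ k : ℤ, (2 : ℝ) ^ n * β - β ≠ k) : Portrait n (AngP S c b) := by
  have hshift : ∀ i, ∀ a ∈ AngP S c b i, ∀ k : ℤ, a + k ∈ AngP S c b i := fun i a ha k =>
    ⟨hS.shift a ha.1 k, ha.2.add_int k⟩
  have hfin : ∀ i, (AngP S c b i ∩ Set.Ico 0 1).Finite := fun i =>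
    hS.fin.subset (fun x hx => ⟨hx.1.1, hx.2⟩)
  have hmem : ∀ i, 2 ^ i * β ∈ AngP S c b i := fun i => ⟨hS.iter hβ i, hl.iter hc i⟩
  refine ⟨fun i => ?_, hshift, hfin, fun i a ha => ⟨hS.dbl a ha.1, ?_⟩, ?_, ?_, ?_, ?_⟩
  · unfold AngP
    have := it_add_mul hb i 1
    rw [mul_one] at this
    rw [this]
  · rw [it_succ]; exact ha.2.dbl hc
  · rintro i a ⟨haS, haL⟩
    obtain ⟨m, hm, k, hk⟩ := hS.per a haS
    obtain ⟨l, hl'⟩ := pow_per hk n
    have hmn : 0 < m * n := Nat.mul_pos hm hn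
    refine ⟨2 ^ (m * n - 1) * a, ⟨hS.iter haS _, ?_⟩, l, ?_⟩
    · have h1 := haL.iter hc (m * n - 1)
      rw [← it_add] at h1
      have e : m * n - 1 + (i + 1) = i + n * m := by
        rw [Nat.mul_comm n m]; omega
      rw [e, it_add_mul hb] at h1
      exact h1
    · have e : (2 : ℝ) * (2 ^ (m * n - 1) * a) = 2 ^ (m * n) * a := by
        rw [← mul_assoc, ← pow_succ', Nat.sub_add_cancel hmn]
      rw [e, hl']
  · intro i
    have h1 := hmem i
    have h2 : 2 ^ (i + n) * β ∈ AngP S c b i := by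
      have := hmem (i + n)
      unfold AngP at this ⊢
      have h3 := it_add_mul hb i 1
      rw [mul_one] at h3
      rwa [h3] at this
    set u : ℝ := 2 ^ i * β with hu
    set v : ℝ := 2 ^ (i + n) * β with hv
    set k : ℤ := -⌊v - u⌋ with hk
    have h3 : v + k ∈ AngP S c b i := hshift i v h2 k
    refine ⟨u, h1, v + k, h3, ?_, ?_⟩
    · have h4 : u ≤ v + k := by
        have := Int.floor_le (v - u)
        rw [hk]; push_cast; linarith
      refine lt_of_le_of_ne h4 (fun h => ?_)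
      -- then `2 ^ n β - β` is an integer
      obtain ⟨m, hm, l, hml⟩ := hS.per β hβ
      obtain ⟨l', hl'⟩ := pow_per hml (i + 1)
      have hle : i ≤ m * (i + 1) := by nlinarith
      have e1 : v - u = ((-k : ℤ) : ℝ) := by push_cast; linarith
      have e2 : (2 : ℝ) ^ (m * (i + 1)) * (2 ^ n * β - β) = 2 ^ (m * (i + 1) - i) * (v - u) := by
        have e3 : (2 : ℝ) ^ (m * (i + 1)) = 2 ^ (m * (i + 1) - i) * 2 ^ i := by
          rw [← pow_add, Nat.sub_add_cancel hle]
        rw [e3, hu, hv, pow_add]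
        ring
      have e4 : (2 : ℝ) ^ (m * (i + 1)) * (2 ^ n * β - β) = 2 ^ n * (β + l') - (β + l') := by
        rw [← hl']; ring
      have e5 : (2 : ℝ) ^ n * β - β
          = ((2 ^ (m * (i + 1) - i) * (-k) - 2 ^ n * l' + l' : ℤ) : ℝ) := by
        push_cast
        rw [e1] at e2
        push_cast at e2
        linarith
      exact hq _ e5
    · have := Int.lt_floor_add_one (v - u)
      rw [hk]; push_cast; linarith
  · intro i
    have hzz : it c i b ≠ - it c i b := by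
      intro h
      have : (2 : ℂ) * it c i b = 0 := by linear_combination h
      rcases mul_eq_zero.1 this with h | h
      · norm_num at h
      · exact h0 i h
    refine half_of_unlinked ⟨_, hmem i⟩ (hshift i) (hfin i) ?_ ?_
    · intro a ha ha'
      exact hzz (ha'.2.unique (ha.2.half hc))
    · intro a ha a' ha' x hx y hy h1 h2 h3 h4
      exact hzz (hU a (x + 1 / 2) a' (y + 1 / 2) _ _ h1 h2 h3 h4 ha.2 ha'.2 (hx.2.half hc)
        (hy.2.half hc))
  · intro i j
    by_cases hij : it c i b = it c j b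
    · left
      unfold AngP
      rw [hij]
    · right
      rintro ⟨a, ha, d, hd, a', ha', d', hd', h1, h2, h3, h4⟩
      have n1 : a ≠ d := fun h => hij (ha.2.unique (by rw [h]; exact hd.2))
      have n2 : d ≠ a' := fun h => hij (ha'.2.unique (by rw [← h]; exact hd.2))
      have n3 : a' ≠ d' := fun h => hij (ha'.2.unique (by rw [h]; exact hd'.2))
      have n4 : d' ≠ a + 1 := fun h => hij (by
        have h5 := ha.2.add_int 1
        rw [Int.cast_one, ← h] at h5
        exact h5.unique hd'.2)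
      exact hij (hU a d a' d' _ _ (lt_of_le_of_ne h1 n1) (lt_of_le_of_ne h2 n2)
        (lt_of_le_of_ne h3 n3) (lt_of_le_of_ne h4 n4) ha.2 ha'.2 hd.2 hd'.2)

theorem AngSet.biUnion {B : Set ℝ} (hB : B.Finite) {S : ℝ → Set ℝ} (h : ∀ β ∈ B, AngSet (S β)) :
    AngSet (⋃ β ∈ B, S β) where
  shift := by
    intro a ha k
    simp only [Set.mem_iUnion] at ha ⊢
    obtain ⟨β, hβ, h1⟩ := ha
    exact ⟨β, hβ, (h β hβ).shift a h1 k⟩
  fin := by
    have e : (⋃ β ∈ B, S β) ∩ Set.Ico 0 1 = ⋃ β ∈ B, (S β ∩ Set.Ico 0 1) := by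
      ext x
      simp only [Set.mem_inter_iff, Set.mem_iUnion]
      tauto
    rw [e]
    exact hB.biUnion (fun β hβ => (h β hβ).fin)
  dbl := by
    intro a ha
    simp only [Set.mem_iUnion] at ha ⊢
    obtain ⟨β, hβ, h1⟩ := ha
    exact ⟨β, hβ, (h β hβ).dbl a h1⟩
  per := by
    intro a ha
    simp only [Set.mem_iUnion] at ha
    obtain ⟨β, hβ, h1⟩ := ha
    exact (h β hβ).per a h1

theorem p5_eR_eq (c : ℂ) (a t : ℝ) : eR c a t = eta c ((t : ℂ) + 2 * Real.pi * a * I) := by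
  unfold eR
  congr 1
  ring

/-- on the Mandelbrot set the two notions of landing agree -/
theorem lands_iff_RL (hc : G c 0 = 0) : Lands c a z ↔ RL c a z := by
  constructor
  · rintro ⟨R, hR⟩
    refine hR.lands.congr' ?_
    filter_upwards [self_mem_nhdsWithin] with t ht
    have ht' : (0 : ℝ) < t := ht
    rw [hR.far (by rw [hc]; exact ht'), p5_eR_eq]
  · intro h
    refine ⟨eR c a, Ray.of_mem hc ?_⟩
    have e : eR c a = fun x : ℝ => eta c ((x : ℂ) + 2 * Real.pi * a * I) := by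
      funext t; exact p5_eR_eq c a t
    rw [e]
    exact h

theorem port_eq (hc : G c 0 = 0) (b : ℂ) (B : Set ℝ) :
    port c b B = AngP (⋃ β ∈ B, orb β) c b := by
  funext i
  ext a
  unfold port AngP orb
  simp only [Set.mem_ofPred_eq, Set.mem_iUnion, lands_iff_RL hc, exists_prop]

/-- **the portrait of a finite family of landing rays** -/
theorem portrait_of_fam' {n : ℕ} {b : ℂ} {B : Set ℝ} (hn : 0 < n) (hc : G c 0 = 0) (hU : UnlP c)
    (hb : it c n b = b) (h0 : ∀ i, it c i b ≠ 0) (hB : Fam n c b B) :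
    Portrait n (port c b B) := by
  rw [port_eq hc]
  obtain ⟨β, hβ, q, hq, hper⟩ := hB.two
  refine portrait hc hU hn hb h0 (AngSet.biUnion hB.fin fun β hβ => ?_)
    (Set.mem_biUnion hβ (mem_orb β)) ((lands_iff_RL hc).1 (hB.land β hβ))
    (not_int_of_perAngle hper hq)
  obtain ⟨q', hq'⟩ := hB.per β hβ
  exact angSet_orb_of_perAngle hn hq'

/-- unlinking (helper67) -/
theorem unlP_of_mem (hc : c ∈ MM) : UnlP c :=
  fun _ _ _ _ _ _ h1 h2 h3 h4 ha ha' hb hb' => unlink hc h1 h2 h3 h4 ha ha' hb hb'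

theorem G_zero_of_mem (hc : c ∈ MM) : G c 0 = 0 := mem_M_iff.1 hc

/-- **the portrait of a finite family of landing rays** -/
theorem portrait_of_fam {n : ℕ} {b : ℂ} {B : Set ℝ} (hn : 0 < n) (hc : c ∈ MM)
    (hb : it c n b = b) (h0 : ∀ i, it c i b ≠ 0) (hB : Fam n c b B) :
    Portrait n (port c b B) :=
  portrait_of_fam' hn (G_zero_of_mem hc) (unlP_of_mem hc) hb h0 hB

/-- the multiplier does not vanish: no point of the cycle is critical -/
theorem it_ne_zero_of_mult {n : ℕ} {b : ℂ} (hn : 0 < n) (hb : it c n b = b)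
    (h : mult n c b ≠ 0) (i : ℕ) : it c i b ≠ 0 := by
  have h1 : it c i b = it c (i % n) b := by
    conv_lhs => rw [← Nat.mod_add_div i n]
    exact it_add_mul hb _ _
  rw [h1]
  intro h0
  apply h
  unfold mult
  exact Finset.prod_eq_zero (Finset.mem_range.2 (Nat.mod_lt i hn)) (by rw [h0, mul_zero])

end Pool.Agent.Work.MLC
end

section
set_option autoImplicit false

/-! # (5) The map F on the curve over the good half disc (helper59) -/

namespace Pool.Agent.Work.MLC

open Filter Topology Metric Set Complex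
open Pool.Agent.MLC (InHalf Portrait Linked)

lemma repelling_ne_zero {n : ℕ} {c b : ℂ} (h : 1 < ‖mult n c b‖) : mult n c b ≠ 0 := by
  intro h0; rw [h0, norm_zero] at h; linarith

/-- hypothesis (5c) holds -/
theorem portHyp {n : ℕ} (hn : 0 < n) : PortHyp n := by
  intro c b B hc hb hρ hF
  exact portrait_of_fam hn (mem_M_iff.2 hc) hb
    (it_ne_zero_of_mult hn hb (repelling_ne_zero hρ)) hF

/-- helper56's linearizer satisfies helper51's structure -/
theorem lin_Lz {n : ℕ} (hn : 0 < n) {c b : ℂ} (hb : it c n b = b) (hρ : 1 < ‖mult n c b‖) :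
    Tr.Lin c b (mult n c b) n (Lz n c b) where
  hn := hn
  diff := differentiable_Lz ⟨hb, hρ⟩
  zero := Lz_zero ⟨hb, hρ⟩
  der := by rw [(hasDerivAt_Lz_zero ⟨hb, hρ⟩).deriv]; exact one_ne_zero
  eqn := Lz_mul ⟨hb, hρ⟩
  rho := hρ

/-- `x` is outside all integer PLY discs -/
def NoInt (n : ℕ) (x : ℂ × ℂ) : Prop :=
  ∀ L : ℂ, exp L = mul n x → ∀ k : ℤ, 81 * n * L.re < ‖L - 2 * Real.pi * k * I‖ ^ 2

/-- a repelling point over `MM` outside the integer discs has a good family of landing rays -/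
theorem exists_fam {n : ℕ} (hn : 0 < n) {c b : ℂ} (hc : G c 0 = 0) (hb : it c n b = b)
    (hρ : 1 < ‖mult n c b‖) (hI : NoInt n (c, b)) : ∃ B, Fam n c b B := by
  have hlin := lin_Lz hn hb hρ
  have hm0 := repelling_ne_zero hρ
  have hL : exp (Complex.log (mult n c b)) = mult n c b := Complex.exp_log hm0
  obtain ⟨β, q, p, hq, hland, -, -, hply⟩ := Tr.exists_land_rot hlin hc hL
  set L := Complex.log (mult n c b) with hLdef
  have hre : 0 < L.re := by
    rw [hLdef, Complex.log_re]; exact Real.log_pos hρ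
  have hq2 : 2 ≤ q := by
    by_contra hcon
    have hq1 : q = 1 := by omega
    subst hq1
    have h1 := hI L hL p
    have h2 : (2 * Real.pi * ((p : ℂ) / ((1 : ℕ) : ℂ)) * I) = 2 * Real.pi * p * I := by
      simp
    rw [h2] at hply
    have h3 : 2 * (n : ℝ) * Real.log 2 / ((1 : ℕ) : ℝ) * L.re ≤ 81 * n * L.re := by
      have h4 : Real.log 2 < 1 := by
        have := Real.log_two_lt_d9; linarith
      have h5 : (0 : ℝ) < n := by exact_mod_cast hn
      have h6 : 2 * (n : ℝ) * Real.log 2 / ((1 : ℕ) : ℝ) = 2 * n * Real.log 2 := by simp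
      rw [h6]
      have h7 : 2 * (n : ℝ) * Real.log 2 ≤ 81 * n := by nlinarith
      exact mul_le_mul_of_nonneg_right h7 hre.le
    linarith
  refine ⟨{β}, ⟨Set.finite_singleton β, ?_, ?_, ?_⟩⟩
  · rintro β' rfl; exact ⟨q, hland.1⟩
  · rintro β' rfl; exact hland.lands hc
  · exact ⟨β, rfl, q, hq2, hland.1⟩

/-- label of an exterior pair -/
noncomputable def extLab (n : ℕ) (x : ℂ × ℂ) : Lab n :=
  Classical.epsilon fun l => ∃ θ w, ExtP n x.1 x.2 θ w ∧ l = lab n θ w

theorem extLab_eq {n : ℕ} {x : ℂ × ℂ} {θ : ℝ} {w : ℕ → ℤ} (h : ExtP n x.1 x.2 θ w) :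
    extLab n x = lab n θ w := by
  obtain ⟨θ', w', h', he⟩ := Classical.epsilon_spec
    (p := fun l => ∃ θ w, ExtP n x.1 x.2 θ w ∧ l = lab n θ w) ⟨_, θ, w, h, rfl⟩
  have h2 : extLab n x = lab n θ' w' := he
  rw [h2]
  exact (extP_lab_unique h' h).symm

open Classical in
/-- **the map F** -/
noncomputable def FF (n : ℕ) (x : ℂ × ℂ) : Lab n :=
  if G x.1 0 = 0 then labM n x.1 x.2 else extLab n x

lemma FF_ext {n : ℕ} {x : ℂ × ℂ} {θ : ℝ} {w : ℕ → ℤ} (h : ExtP n x.1 x.2 θ w) :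
    FF n x = lab n θ w := by
  have h1 : G x.1 0 ≠ 0 := by
    have h2 := h.1
    rw [G_c_eq] at h2
    intro h3; rw [h3] at h2; simp at h2
  rw [FF, if_neg h1, extLab_eq h]

/-- `F` is locally constant at the points over `MM` -/
theorem FF_nhds_MM {n : ℕ} (hn : 0 < n) {x₀ : ℂ × ℂ} (hx₀ : x₀ ∈ Per n) (hM : G x₀.1 0 = 0)
    (hρ : 1 < ‖mul n x₀‖) (hI : NoInt n x₀) :
    ∀ᶠ x in 𝓝 x₀, x ∈ Per n → FF n x = FF n x₀ := by
  obtain ⟨c₀, b₀⟩ := x₀
  obtain ⟨B, hF⟩ := exists_fam hn hM hx₀ hρ hI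
  have h0 : FF n (c₀, b₀) = labM n c₀ b₀ := by rw [FF, if_pos hM]
  filter_upwards [labM_nhds hn (portHyp hn) hM hx₀ hρ hF, lab_ext_nhds hn (portHyp hn) hM hx₀ hρ hF]
    with x h1 h2 hx
  rw [h0]
  by_cases hG : G x.1 0 = 0
  · rw [FF, if_pos hG]; exact h1 hx hG
  · have hc : 0 < G x.1 x.1 := by
      rw [G_c_eq]
      have := lt_of_le_of_ne (G_nonneg x.1 0) (Ne.symm hG)
      linarith
    obtain ⟨θ, hθ⟩ := exists_ang hc
    obtain ⟨w, hw⟩ := exists_extP_word hn hθ hx
    rw [FF_ext hw]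
    exact h2 hx θ w hc hw.2.1 hw.2.2.2.1 hw.2.2.2.2

/-- outside the integer discs the rotation number of an exterior pair is not an integer -/
theorem nu_ne_int_ext {n : ℕ} (hn : 0 < n) {x : ℂ × ℂ} (h23 : ‖mul n x‖ < 23 / 10)
    (hI : NoInt n x) {θ : ℝ} {w : ℕ → ℤ} (h : ExtP n x.1 x.2 θ w) (k : ℤ) :
    Circ.nu w n θ ≠ k := by
  intro hk
  have hG : G x.1 x.1 ≤ 4 := G_le_four_of_mul_lt hn h.2.2.1 h23
  obtain ⟨-, L, hL, hply⟩ := extP_ply hn h hG
  have h1 := hI L hL k
  rw [hk] at hply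
  have h2 : (2 * Real.pi * (((k : ℤ) : ℝ) : ℂ) * I) = 2 * Real.pi * k * I := by push_cast; ring
  rw [h2] at hply
  linarith

/-- `F` is locally constant at exterior points -/
theorem FF_nhds_ext {n : ℕ} (hn : 0 < n) {x₀ : ℂ × ℂ} (hx₀ : x₀ ∈ Per n) (hM : G x₀.1 0 ≠ 0)
    (h23 : ‖mul n x₀‖ < 23 / 10) (hI : NoInt n x₀) :
    ∀ᶠ x in 𝓝 x₀, x ∈ Per n → FF n x = FF n x₀ := by
  obtain ⟨c₀, b₀⟩ := x₀
  have hc : 0 < G c₀ c₀ := by
    rw [G_c_eq]
    have := lt_of_le_of_ne (G_nonneg c₀ 0) (Ne.symm hM)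
    linarith
  obtain ⟨θ₀, hθ₀⟩ := exists_ang hc
  obtain ⟨w, hw⟩ := exists_extP_word hn hθ₀ hx₀
  have hG : ∀ᶠ x : ℂ × ℂ in 𝓝 (c₀, b₀), 0 < G x.1 x.1 := by
    have h1 : Continuous fun x : ℂ × ℂ => G x.1 x.1 :=
      continuous_G.comp (g := fun p : ℂ × ℂ => G p.1 p.2)
        (f := fun x : ℂ × ℂ => ((x.1, x.1) : ℂ × ℂ)) (by fun_prop)
    exact h1.continuousAt.eventually_const_lt (by exact hc)
  filter_upwards [extP_lab_nhds hn hw (nu_ne_int_ext hn h23 hI hw), hG] with x h1 h2 hx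
  obtain ⟨θ, hθ⟩ := exists_ang h2
  obtain ⟨w', hw'⟩ := exists_extP_word hn hθ hx
  rw [FF_ext hw', FF_ext (x := (c₀, b₀)) hw]
  exact h1 θ w' hw'

/-- **(5)** the map `F` is locally constant on the repelling part of the curve outside the integer
discs -/
theorem FF_nhds {n : ℕ} (hn : 0 < n) {x₀ : ℂ × ℂ} (hx₀ : x₀ ∈ Per n) (hρ : 1 < ‖mul n x₀‖)
    (h23 : ‖mul n x₀‖ < 23 / 10) (hI : NoInt n x₀) :
    ∀ᶠ x in 𝓝 x₀, x ∈ Per n → FF n x = FF n x₀ := by
  by_cases hM : G x₀.1 0 = 0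
  · exact FF_nhds_MM hn hx₀ hM hρ hI
  · exact FF_nhds_ext hn hx₀ hM h23 hI

/-- near a repelling point over `MM` all exterior pairs have rational rotation number -/
theorem nu_rat_nhds {n : ℕ} (hn : 0 < n) {x₀ : ℂ × ℂ} (hx₀ : x₀ ∈ Per n) (hM : x₀.1 ∈ MM)
    (hρ : 1 < ‖mul n x₀‖) : ∃ q : ℕ, 0 < q ∧ ∀ᶠ x in 𝓝 x₀, x ∈ Per n →
      ∀ θ w, ExtP n x.1 x.2 θ w → ∃ P : ℤ, Circ.nu w n θ = P / q := by
  obtain ⟨c₀, b₀⟩ := x₀
  have hM0 : G c₀ 0 = 0 := mem_M_iff.1 hM
  have hlin := lin_Lz hn hx₀ hρ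
  obtain ⟨β, q, p, hq, hland, -, -, -⟩ := Tr.exists_land_rot hlin hM0
    (Complex.exp_log (repelling_ne_zero hρ))
  refine ⟨q, hq, ?_⟩
  filter_upwards [land_nhds hn hM0 hx₀ hρ hland] with x h1 hx θ w hw
  have h2 := (h1 hx).2 θ w hw.1 hw.2.1 hw.2.2.2.2
  obtain ⟨P, -, hP⟩ := nu_of_compat hland.1 hw.2.2.2.1.per h2
  exact ⟨P, hP⟩

/-- a good half disc: convex and open, to the right of the imaginary axis, outside the integer
discs, `|exp L| < 2.3` -/
structure GoodB (n : ℕ) (B : Set ℂ) : Prop where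
  isOpen : IsOpen B
  conn : IsPreconnected B
  pos : ∀ L ∈ B, 0 < L.re
  lt : ∀ L ∈ B, ‖exp L‖ < 23 / 10
  noInt : ∀ L ∈ B, ∀ k : ℤ, 81 * n * L.re < ‖L - 2 * Real.pi * k * I‖ ^ 2

lemma GoodB.noInt' {n : ℕ} {B : Set ℂ} (h : GoodB n B) {x : ℂ × ℂ} {L : ℂ} (hL : L ∈ B)
    (hm : mul n x = exp L) : NoInt n x := by
  intro L' hL' k
  rw [hm, Complex.exp_eq_exp_iff_exists_int] at hL'
  obtain ⟨m, hm⟩ := hL'
  have h1 := h.noInt L hL (k - m)
  have h2 : L'.re = L.re := by
    rw [hm]; simp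
  have h3 : L' - 2 * Real.pi * k * I = L - 2 * Real.pi * ((k - m : ℤ) : ℂ) * I := by
    rw [hm]; push_cast; ring
  rw [h2, h3]
  exact h1

/-- **local injectivity over a good half disc**, from the occurrence of all labels -/
theorem locInj_of_goodB {n : ℕ} (hn : 0 < n) {B : Set ℂ} (hB : GoodB n B)
    (hall : ∀ j : Lab n, ∃ x ∈ Per n, ∃ L ∈ B, mul n x = exp L ∧ FF n x = j) :
    ∀ x ∈ Per n, ∀ L ∈ B, mul n x = exp L → LocInj n x := by
  have : NeZero n := ⟨hn.ne'⟩
  have hexp : ∀ L ∈ B, 1 < ‖exp L‖ := by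
    intro L hL
    rw [Complex.norm_exp]
    exact Real.one_lt_exp_iff.2 (hB.pos L hL)
  refine locInj_of_labels hn hB.isOpen hB.conn ?_ hB.lt (FF n) ?_ hall ?_
  · intro L hL h1
    have := hexp L hL
    rw [h1, norm_one] at this
    exact lt_irrefl _ this
  · intro x hx L hL hm
    exact FF_nhds hn hx (by rw [hm]; exact hexp L hL) (by rw [hm]; exact hB.lt L hL)
      (hB.noInt' hL hm)
  · intro S l hl hS
    rw [card_Lab]
    refine ⟨Cnt.card_le hn hl S hS, fun hcard x hx => ?_⟩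
    exact Cnt.locInj_of_card hn hl S hS hcard.ge (hS x hx).1 (hS x hx).2

end Pool.Agent.Work.MLC
end

section
set_option autoImplicit false

/-! # The map F near all pairs of non-integer rotation, without the Pommerenke-Levin-Yoccoz
inequality (helper59)

`NonInt n x`: the pair `x = (c, b)` has non-integer rotation number: over `MM` a periodic ray of
period at least two (for the return map) lands at `b`; outside `MM` the rotation number
`nu w n θ` is not an integer. -/

namespace Pool.Agent.Work.MLC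

open Filter Topology Metric Set Complex
open Pool.Agent.MLC (InHalf Portrait Linked)

/-- non-integer rotation -/
def NonInt (n : ℕ) (x : ℂ × ℂ) : Prop :=
  (G x.1 0 = 0 → ∃ β q, 2 ≤ q ∧ Land n x.1 x.2 β q) ∧
    ∀ θ w, ExtP n x.1 x.2 θ w → ∀ k : ℤ, Circ.nu w n θ ≠ k

/-- integer rotation over `MM`: a ray fixed by the return map lands -/
def IntRot (n : ℕ) (x : ℂ × ℂ) : Prop :=
  G x.1 0 = 0 ∧ ∃ β, Land n x.1 x.2 β 1

lemma Land.fam {n q : ℕ} {c b : ℂ} {β : ℝ} (hc : G c 0 = 0) (hq : 2 ≤ q)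
    (h : Land n c b β q) : Fam n c b {β} := by
  refine ⟨Set.finite_singleton β, ?_, ?_, ⟨β, rfl, q, hq, h.1⟩⟩
  · rintro β' rfl; exact ⟨q, h.1⟩
  · rintro β' rfl; exact h.lands hc

/-- the rotation number of an exterior pair is an integer for one pair of coordinates iff it is for
all -/
lemma nonInt_ext {n : ℕ} {c b : ℂ} {θ : ℝ} {w : ℕ → ℤ} (h : ExtP n c b θ w)
    (hν : ∀ k : ℤ, Circ.nu w n θ ≠ k) : NonInt n (c, b) := by
  refine ⟨fun h0 => ?_, fun θ' w' h' k hk => ?_⟩
  · have h2 := h.1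
    rw [G_c_eq] at h2
    simp only at h0
    rw [h0] at h2; simp at h2
  · obtain ⟨m, h1, h2⟩ := extP_unique h h'
    obtain ⟨j, hj⟩ := nu_parity h2 n
    have h3 := hj θ'
    have h4 : θ' + m = θ + 2 * m := by rw [h1]; ring
    rw [h4, nu_add_even] at h3
    rw [h3] at hk
    exact hν (k - j - n * m) (by push_cast; linarith)

/-- over `MM` a repelling pair is of non-integer rotation or of integer rotation -/
theorem nonInt_or_intRot {n : ℕ} (hn : 0 < n) {x : ℂ × ℂ} (hx : x ∈ Per n)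
    (hM : G x.1 0 = 0) (hρ : 1 < ‖mul n x‖) : NonInt n x ∨ IntRot n x := by
  obtain ⟨c, b⟩ := x
  obtain ⟨β, q, p, hq, hland, -, -, -⟩ := Tr.exists_land_rot (lin_Lz hn hx hρ) hM
    (Complex.exp_log (repelling_ne_zero hρ))
  rcases Nat.lt_or_ge q 2 with h | h
  · have : q = 1 := by omega
    subst this
    exact Or.inr ⟨hM, β, hland⟩
  · refine Or.inl ⟨fun _ => ⟨β, q, h, hland⟩, fun θ w h' => ?_⟩
    exfalso
    have h2 := h'.1
    rw [G_c_eq] at h2
    simp only at hM
    rw [hM] at h2; simp at h2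

/-- **`F` and the property of non-integer rotation are locally constant** on the repelling pairs -/
theorem FF_nhds_gen {n : ℕ} (hn : 0 < n) {x₀ : ℂ × ℂ} (hx₀ : x₀ ∈ Per n)
    (hρ : 1 < ‖mul n x₀‖) (hI : NonInt n x₀) :
    ∀ᶠ x in 𝓝 x₀, x ∈ Per n → FF n x = FF n x₀ ∧ NonInt n x := by
  obtain ⟨c₀, b₀⟩ := x₀
  by_cases hM : G c₀ 0 = 0
  · obtain ⟨β, q, hq, hland⟩ := hI.1 hM
    have hF := hland.fam hM hq
    have h0 : FF n (c₀, b₀) = labM n c₀ b₀ := by rw [FF, if_pos hM]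
    filter_upwards [labM_nhds hn (portHyp hn) hM hx₀ hρ hF,
      lab_ext_nhds hn (portHyp hn) hM hx₀ hρ hF, land_nhds hn hM hx₀ hρ hland]
      with x h1 h2 h3 hx
    rw [h0]
    refine ⟨?_, fun hG => ⟨β, q, hq, (h3 hx).1 hG⟩, fun θ w hw => ?_⟩
    · by_cases hG : G x.1 0 = 0
      · rw [FF, if_pos hG]; exact h1 hx hG
      · have hc : 0 < G x.1 x.1 := by
          rw [G_c_eq]
          have := lt_of_le_of_ne (G_nonneg x.1 0) (Ne.symm hG)
          linarith
        obtain ⟨θ, hθ⟩ := exists_ang hc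
        obtain ⟨w, hw⟩ := exists_extP_word hn hθ hx
        rw [FF_ext hw]
        exact h2 hx θ w hc hw.2.1 hw.2.2.2.1 hw.2.2.2.2
    · exact nu_ne_int_of_compat hq hland.1 hw.2.2.2.1.per
        ((h3 hx).2 θ w hw.1 hw.2.1 hw.2.2.2.2)
  · have hc : 0 < G c₀ c₀ := by
      rw [G_c_eq]
      have := lt_of_le_of_ne (G_nonneg c₀ 0) (Ne.symm hM)
      linarith
    obtain ⟨θ₀, hθ₀⟩ := exists_ang hc
    obtain ⟨w, hw⟩ := exists_extP_word hn hθ₀ hx₀
    have hν := hI.2 θ₀ w hw
    have hG : ∀ᶠ x : ℂ × ℂ in 𝓝 (c₀, b₀), 0 < G x.1 x.1 :=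
      continuous_G_diag'.continuousAt.eventually_const_lt (by exact hc)
    set k := ⌊Circ.nu w n θ₀⌋ with hk
    have h1 : (k : ℝ) < Circ.nu w n θ₀ :=
      lt_of_le_of_ne (Int.floor_le _) fun h => hν k h.symm
    have h2 : Circ.nu w n θ₀ < k + 1 := Int.lt_floor_add_one _
    have hcc : ∀ᶠ θ in 𝓝 θ₀, (k : ℝ) < Circ.nu w n θ ∧ Circ.nu w n θ < k + 1 :=
      ((Circ.nu_continuous w n).tendsto θ₀).eventually (Ioo_mem_nhds h1 h2)
    obtain ⟨ε, hε, hε'⟩ := Metric.eventually_nhds_iff_ball.1 hcc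
    filter_upwards [extP_lab_nhds hn hw hν, hG, extP_nhds hn hw hε] with x h1 h2 h3 hx
    obtain ⟨θ, hθ, hE⟩ := h3 hx
    refine ⟨?_, ?_⟩
    · rw [FF_ext hE, FF_ext (x := (c₀, b₀)) hw]
      exact h1 θ w hE
    · obtain ⟨h4, h5⟩ := hε' θ (by rw [mem_ball, Real.dist_eq]; exact hθ)
      refine nonInt_ext (c := x.1) (b := x.2) hE fun j hj => ?_
      rw [hj] at h4 h5
      have h6 : k < j := by exact_mod_cast h4
      have h7 : j < k + 1 := by exact_mod_cast h5
      omega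

/-- the pairs of integer rotation over `MM` are stable: nearby over `MM` the same ray lands, and
nearby exterior pairs have an integer rotation number -/
theorem intRot_nhds {n : ℕ} (hn : 0 < n) {x₀ : ℂ × ℂ} (hx₀ : x₀ ∈ Per n)
    (hρ : 1 < ‖mul n x₀‖) (hI : IntRot n x₀) : ∃ β, Land n x₀.1 x₀.2 β 1 ∧
    ∀ᶠ x in 𝓝 x₀, x ∈ Per n →
      (G x.1 0 = 0 → Land n x.1 x.2 β 1) ∧
      ∀ θ w, ExtP n x.1 x.2 θ w → Compat β θ w ∧ ∃ k : ℤ, Circ.nu w n θ = k := by
  obtain ⟨c₀, b₀⟩ := x₀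
  obtain ⟨hM, β, hland⟩ := hI
  refine ⟨β, hland, ?_⟩
  filter_upwards [land_nhds hn hM hx₀ hρ hland] with x h hx
  refine ⟨(h hx).1, fun θ w hw => ?_⟩
  have h1 := (h hx).2 θ w hw.1 hw.2.1 hw.2.2.2.2
  refine ⟨h1, ?_⟩
  obtain ⟨P, -, hP⟩ := nu_of_compat hland.1 hw.2.2.2.1.per h1
  exact ⟨P, by simpa using hP⟩

end Pool.Agent.Work.MLC
end

section
set_option autoImplicit false

/-! # The good discs at the points of the imaginary axis (helper34)

The disc of radius `m² / (4 n)`, `m = min(x, 1 - x)`, about `2 π i x` lies outside all integer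
discs; with the local injectivity on its right half (labels, count) and on its closed left half
(transversality) it is a good domain. -/

namespace Pool.Agent.Work.MLC

open Filter Topology Metric Set Complex

/-- elementary: the disc is far from the integer discs -/
theorem gd_far {n : ℕ} (hn : 0 < n) {x : ℚ} (h0 : 0 < x) (h1 : x < 1) {L : ℂ}
    (hL : L ∈ ball (axisPt x) (1 / 4 * (min (x : ℝ) (1 - x)) ^ 2 / n)) (k : ℤ) :
    81 * n * L.re < ‖L - 2 * Real.pi * k * I‖ ^ 2 ∧ 0 < ‖L - 2 * Real.pi * k * I‖ ∧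
      L.re < 1 / 4 := by
  have hn' : (1 : ℝ) ≤ n := by exact_mod_cast hn
  have hx0 : (0 : ℝ) < x := by exact_mod_cast h0
  have hx1 : (x : ℝ) < 1 := by exact_mod_cast h1
  set m : ℝ := min (x : ℝ) (1 - x) with hm
  have hm0 : 0 < m := lt_min hx0 (by linarith)
  have hmx : m ≤ x := min_le_left _ _
  have hmx' : m ≤ 1 - x := min_le_right _ _
  have hm2 : m ≤ 1 / 2 := by linarith
  set R : ℝ := 1 / 4 * m ^ 2 / n with hR
  have hRn : R * n = 1 / 4 * m ^ 2 := by
    rw [hR]
    field_simp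
  have hR0 : 0 < R := by positivity
  have hRm : R ≤ m / 8 := by
    rw [hR, div_le_iff₀ (by linarith)]
    linarith [mul_le_mul_of_nonneg_left hm2 hm0.le, mul_le_mul_of_nonneg_left hn' hm0.le]
  rw [mem_ball, dist_eq] at hL
  have hre : L.re < R := by
    have h2 := (abs_re_le_norm (L - axisPt x)).trans_lt hL
    have h3 : (L - axisPt x).re = L.re := by simp [axisPt]
    rw [h3] at h2
    exact (le_abs_self _).trans_lt h2
  have him : |L.im - 2 * Real.pi * x| < R := by
    have h2 := (abs_im_le_norm (L - axisPt x)).trans_lt hL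
    have h3 : (L - axisPt x).im = L.im - 2 * Real.pi * x := by simp [axisPt]
    rwa [h3] at h2
  have hpi : (3.14 : ℝ) < Real.pi := Real.pi_gt_d2
  have hkx : m ≤ |(x : ℝ) - k| := by
    rcases le_or_gt k 0 with hk | hk
    · have h2 : (k : ℝ) ≤ 0 := by exact_mod_cast hk
      rw [abs_of_nonneg (by linarith)]
      linarith
    · have h2 : (1 : ℝ) ≤ k := by exact_mod_cast hk
      rw [abs_of_nonpos (by linarith)]
      linarith
  have hfar : 6 * m ≤ |L.im - 2 * Real.pi * k| := by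
    have h2 : 2 * Real.pi * |(x : ℝ) - k| = |2 * Real.pi * x - 2 * Real.pi * k| := by
      rw [← mul_sub, abs_mul, abs_of_pos (by positivity : (0 : ℝ) < 2 * Real.pi)]
    have h3 : |2 * Real.pi * x - 2 * Real.pi * k| ≤ |L.im - 2 * Real.pi * x| +
        |L.im - 2 * Real.pi * k| := by
      have := abs_sub_abs_le_abs_sub (2 * Real.pi * x - 2 * Real.pi * k) (L.im - 2 * Real.pi * k)
      have h4 : (2 * Real.pi * x - 2 * Real.pi * k) - (L.im - 2 * Real.pi * k) =
          -(L.im - 2 * Real.pi * x) := by ring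
      rw [h4, abs_neg] at this
      linarith
    linarith [mul_le_mul_of_nonneg_left hkx (by positivity : (0 : ℝ) ≤ 2 * Real.pi),
      mul_lt_mul_of_pos_right hpi hm0]
  have hnorm : 6 * m ≤ ‖L - 2 * Real.pi * k * I‖ := by
    have h2 := abs_im_le_norm (L - 2 * Real.pi * k * I)
    have h3 : (L - 2 * Real.pi * k * I).im = L.im - 2 * Real.pi * k := by simp
    rw [h3] at h2
    exact hfar.trans h2
  refine ⟨?_, by linarith [hnorm], by linarith⟩
  have h5 : (6 * m) ^ 2 ≤ ‖L - 2 * Real.pi * k * I‖ ^ 2 := by gcongr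
  have h6 : 81 * (n : ℝ) * L.re < 81 * (1 / 4 * m ^ 2) := by
    rw [← hRn]
    linarith [mul_lt_mul_of_pos_right hre (by linarith : (0 : ℝ) < n)]
  linarith [sq_nonneg m]

/-- the good disc, from the occurrence of all labels over its right half -/
theorem goodDom_of_hall {n : ℕ} (hn : 0 < n) {x : ℚ} (h0 : 0 < x) (h1 : x < 1)
    (hall : ∀ j : Lab n, ∃ z ∈ Per n, ∃ L ∈ ball (axisPt x) (1 / 4 * (min (x : ℝ) (1 - x)) ^ 2 / n),
      0 < L.re ∧ mul n z = exp L ∧ FF n z = j) :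
    GoodDom n (ball (axisPt x) (1 / 4 * (min (x : ℝ) (1 - x)) ^ 2 / n)) := by
  set D := ball (axisPt x) (1 / 4 * (min (x : ℝ) (1 - x)) ^ 2 / n) with hD
  have hne : ∀ L ∈ D, exp L ≠ 1 := by
    intro L hL h
    rw [exp_eq_one_iff] at h
    obtain ⟨k, hk⟩ := h
    have h2 := (gd_far hn h0 h1 hL k).2.1
    rw [hk] at h2
    have h3 : (k : ℂ) * (2 * Real.pi * I) - 2 * Real.pi * k * I = 0 := by ring
    rw [h3, norm_zero] at h2
    exact lt_irrefl _ h2
  have hlt : ∀ L ∈ D, ‖exp L‖ < 23 / 10 := by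
    intro L hL
    rw [norm_exp]
    have h2 := (gd_far hn h0 h1 hL 0).2.2
    have h3 : Real.exp L.re < Real.exp (1 / 4) := Real.exp_lt_exp.2 h2
    have h4 : Real.exp (1 / 4) ≤ 23 / 10 := by
      have h5 : Real.exp (1 / 4) ≤ Real.exp (Real.log (23 / 10)) := by
        refine Real.exp_le_exp.2 ?_
        have := Real.one_sub_inv_le_log_of_pos (by norm_num : (0 : ℝ) < 23 / 10)
        norm_num at this ⊢
        linarith
      rwa [Real.exp_log (by norm_num)] at h5
    linarith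
  have hB : GoodB n (D ∩ {L : ℂ | 0 < L.re}) :=
    { isOpen := isOpen_ball.inter (isOpen_lt continuous_const continuous_re)
      conn := ((convex_ball _ _).inter (convex_halfSpace_re_gt 0)).isPreconnected
      pos := fun L hL => hL.2
      lt := fun L hL => hlt L hL.1
      noInt := fun L hL k => (gd_far hn h0 h1 hL.1 k).1 }
  have hinj := locInj_of_goodB hn hB (by
    intro j
    obtain ⟨z, hz, L, hL, h2, h3, h4⟩ := hall j
    exact ⟨z, hz, L, ⟨hL, h2⟩, h3, h4⟩)
  refine ⟨hn, isOpen_ball, hne, hlt, ?_⟩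
  intro z hz L hL hm
  rcases le_or_gt L.re 0 with h2 | h2
  · refine locInj_of_le hn hz ?_ ?_ ?_
    · rw [hm]
      exact hne L hL
    · rw [hm]
      exact exp_ne_zero L
    · rw [hm, norm_exp]
      exact Real.exp_le_one_iff.2 h2
  · exact hinj z hz L ⟨hL, h2⟩ hm

end Pool.Agent.Work.MLC
end

section
set_option autoImplicit false

/-! # Every label occurs near every point of the imaginary axis (helper57) -/

namespace Pool.Agent.Work.MLC

open Filter Topology Metric Set Complex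

/-- the linearizer of a repelling point (bridge `Lin.lean` - `Dyn51.lean`) -/
theorem lin_of_rep57 {n : ℕ} (hn : 0 < n) {c b : ℂ} (h : (c, b) ∈ Rep n) :
    Tr.Lin c b (mult n c b) n (Lz n c b) where
  hn := hn
  diff := differentiable_Lz h
  zero := Lz_zero h
  der := by rw [(hasDerivAt_Lz_zero h).deriv]; exact one_ne_zero
  eqn := fun x => Lz_mul h x
  rho := h.2

lemma mult_ne_zero57 {n : ℕ} {c b : ℂ} (h : 1 < ‖mult n c b‖) : mult n c b ≠ 0 := by
  intro h0
  rw [h0, norm_zero] at h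
  linarith

/-- near a repelling point of a parameter in the Mandelbrot set the rotation numbers of exterior
pairs are constant modulo one over an integer -/
theorem rational_nhds {n : ℕ} (hn : 0 < n) {c₀ b₀ : ℂ} (hM : G c₀ 0 = 0)
    (hfix : it c₀ n b₀ = b₀) (hρ : 1 < ‖mult n c₀ b₀‖) :
    ∃ q : ℕ, 0 < q ∧ ∀ᶠ x : ℂ × ℂ in 𝓝 (c₀, b₀), ∀ (θ : ℝ) (w : ℕ → ℤ),
      ExtP n x.1 x.2 θ w → ∃ P : ℤ, Circ.nu w n θ = P / q := by
  have hL : Complex.exp (Complex.log (mult n c₀ b₀)) = mult n c₀ b₀ :=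
    Complex.exp_log (mult_ne_zero57 hρ)
  obtain ⟨β, q, p, hq, hland, -⟩ := Tr.exists_land_rot (lin_of_rep57 hn ⟨hfix, hρ⟩) hM hL
  refine ⟨q, hq, ?_⟩
  filter_upwards [land_nhds hn hM hfix hρ hland] with x hx θ w hE
  obtain ⟨P, -, hP⟩ := nu_of_compat hland.1 hE.2.2.2.1.per ((hx hE.2.2.1).2 θ w hE.1 hE.2.1
    hE.2.2.2.2)
  exact ⟨P, hP⟩

lemma occur_limit {n : ℕ} {cc bb : ℕ → ℂ} {s : ℕ → ℝ} {R δ : ℝ}
    (hcR : ∀ k, ‖cc k‖ ≤ R) (hbR : ∀ k, ‖bb k‖ ≤ 1 + R) (hst : Tendsto s atTop (𝓝 0))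
    (hG : ∀ k, G (cc k) (cc k) = s k) (hfix : ∀ k, it (cc k) n (bb k) = bb k) (hδ : 1 < δ)
    (hmδ : ∀ k, δ ≤ ‖mult n (cc k) (bb k)‖) :
    ∃ (c₀ b₀ : ℂ) (φ : ℕ → ℕ), Tendsto (fun k => (cc (φ k), bb (φ k))) atTop (𝓝 (c₀, b₀)) ∧
      G c₀ c₀ = 0 ∧ it c₀ n b₀ = b₀ ∧ 1 < ‖mult n c₀ b₀‖ := by
  have hK : IsCompact (closedBall (0 : ℂ) R ×ˢ closedBall (0 : ℂ) (1 + R)) :=
    (isCompact_closedBall _ _).prod (isCompact_closedBall _ _)
  obtain ⟨⟨c₀, b₀⟩, -, φ, hφ, hφt⟩ := hK.tendsto_subseq (x := fun k => (cc k, bb k)) fun k =>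
    ⟨by simpa using hcR k, by simpa using hbR k⟩
  have hφt' : Tendsto (fun k => (cc (φ k), bb (φ k))) atTop (𝓝 (c₀, b₀)) := hφt
  have hG0 : G c₀ c₀ = 0 := by
    have h2 := (continuous_G_diag'.tendsto (c₀, b₀)).comp hφt'
    simp only [Function.comp_def] at h2
    have h3 : Tendsto (fun k => G (cc (φ k)) (cc (φ k))) atTop (𝓝 0) :=
      (hst.comp hφ.tendsto_atTop).congr fun k => (hG (φ k)).symm
    exact tendsto_nhds_unique h2 h3
  have hfix' : it c₀ n b₀ = b₀ := by
    have h2 := ((continuous_it n).tendsto (c₀, b₀)).comp hφt'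
    simp only [Function.comp_def] at h2
    have h3 := (continuous_snd.tendsto (c₀, b₀)).comp hφt'
    simp only [Function.comp_def] at h3
    have h3 := h3.congr fun k => (hfix (φ k)).symm
    exact tendsto_nhds_unique h2 h3
  have hρ : 1 < ‖mult n c₀ b₀‖ := by
    have h2 := ((continuous_mult n).norm.tendsto (c₀, b₀)).comp hφt'
    simp only [Function.comp_def] at h2
    exact lt_of_lt_of_le hδ (ge_of_tendsto' h2 fun k => hmδ (φ k))
  exact ⟨c₀, b₀, φ, hφt', hG0, hfix', hρ⟩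

/-- **every label occurs near every point of the imaginary axis** -/
theorem occur {n : ℕ} (hn : 0 < n) {τ : ℝ} (h0 : 0 < τ) (h1 : τ < 1) (hirr : Irrational τ)
    (j : Lab n) {ε : ℝ} (hε : 0 < ε) :
    ∃ (c b : ℂ) (θ : ℝ) (w : ℕ → ℤ) (L : ℂ), ExtP n c b θ w ∧ lab n θ w = j ∧
      Complex.exp L = mult n c b ∧ 0 < L.re ∧ ‖L - 2 * Real.pi * τ * I‖ < ε := by
  obtain ⟨θ, w, hw, hj, hfr⟩ := lab_surj hn j h0 h1
  set ν := Circ.nu w n θ with hν
  have hνirr : Irrational ν := by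
    have h2 : ν = τ + (⌊ν⌋ : ℤ) := by rw [← hfr]; exact (Int.fract_add_floor ν).symm
    rw [h2]
    exact hirr.add_intCast _
  set s : ℕ → ℝ := fun k => 1 / ((k : ℝ) + 1) with hs
  have hspos : ∀ k, 0 < s k := fun k => by simp only [hs]; positivity
  have hs1 : ∀ k, s k ≤ 1 := fun k => by
    simp only [hs]
    rw [div_le_one (by positivity)]
    linarith [(Nat.cast_nonneg k : (0 : ℝ) ≤ k)]
  have hst : Tendsto s atTop (𝓝 0) := tendsto_one_div_add_atTop_nhds_zero_nat
  set cc : ℕ → ℂ := fun k => cOf ((s k : ℂ) + 2 * Real.pi * θ * I) with hcc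
  have hang : ∀ k, Ang (cc k) θ ∧ G (cc k) (cc k) = s k := fun k => ang_cOf (hspos k)
  have hbex : ∀ k, ∃ b, ExtP n (cc k) b θ w := fun k => exists_extP hn (hang k).1 hw
  choose bb hbb using hbex
  have hply : ∀ k, 1 < ‖mult n (cc k) (bb k)‖ ∧ ∃ ℓ : ℂ, Complex.exp ℓ = mult n (cc k) (bb k) ∧
      ‖ℓ - 2 * Real.pi * (ν : ℝ) * I‖ ^ 2 ≤ 81 * n * ℓ.re := fun k =>
    extP_ply hn (hbb k) (by rw [(hang k).2]; linarith [hs1 k])
  have hmul := fun k => (hply k).1
  have hply2 := fun k => (hply k).2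
  choose ℓ hℓe hℓ using hply2
  have hre : ∀ k, 0 < (ℓ k).re := by
    intro k
    have h2 : ‖mult n (cc k) (bb k)‖ = Real.exp (ℓ k).re := by rw [← hℓe k, norm_exp]
    have h3 := hmul k
    rw [h2] at h3
    exact Real.one_lt_exp_iff.1 h3
  have hnpos : (0 : ℝ) < n := by exact_mod_cast hn
  -- some `ℓ k` is close to `2 π i ν`
  have hmain : ∃ k, ‖ℓ k - 2 * Real.pi * (ν : ℝ) * I‖ < ε := by
    by_contra hcon
    push Not at hcon
    set δ : ℝ := ε ^ 2 / (81 * n) with hδ
    have hδpos : 0 < δ := by positivity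
    have hreδ : ∀ k, δ ≤ (ℓ k).re := by
      intro k
      rw [hδ, div_le_iff₀ (by positivity)]
      have h2 := hℓ k
      have h3 : ε ^ 2 ≤ ‖ℓ k - 2 * Real.pi * (ν : ℝ) * I‖ ^ 2 :=
        pow_le_pow_left₀ hε.le (hcon k) 2
      nlinarith
    have hmδ : ∀ k, Real.exp δ ≤ ‖mult n (cc k) (bb k)‖ := by
      intro k
      rw [← hℓe k, norm_exp]
      exact Real.exp_le_exp.2 (hreδ k)
    -- boundedness
    set R : ℝ := 2 * Real.exp 1 + 101 with hR
    have hcR : ∀ k, ‖cc k‖ ≤ R := fun k => by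
      have h2 := norm_le_of_G_le (c := cc k) (b := 1) (by rw [(hang k).2]; exact hs1 k)
      rw [hR]; linarith
    have hbR : ∀ k, ‖bb k‖ ≤ 1 + R := fun k => by
      have h2 := norm_le_of_G_zero (G_zero_of_per hn (hbb k).2.2.1)
      linarith [hcR k]
    obtain ⟨c₀, b₀, φ, hφt, hG0, hfix, hρ⟩ := occur_limit (cc := cc) (bb := bb) hcR hbR hst
      (fun k => (hang k).2) (fun k => (hbb k).2.2.1) (Real.one_lt_exp_iff.2 hδpos) hmδ
    have hM : G c₀ 0 = 0 := by
      have h2 := G_c_eq c₀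
      linarith
    obtain ⟨q, hq, hev⟩ := rational_nhds hn hM hfix hρ
    obtain ⟨k, hk⟩ := (hφt.eventually hev).exists
    obtain ⟨P, hP⟩ := hk θ w (hbb (φ k))
    refine hνirr ⟨(P : ℚ) / q, ?_⟩
    rw [hν, hP]; push_cast; rfl
  obtain ⟨k, hk⟩ := hmain
  refine ⟨cc k, bb k, θ, w, ℓ k - (⌊ν⌋ : ℤ) * (2 * Real.pi * I), hbb k, hj, ?_, ?_, ?_⟩
  · have h2 : Complex.exp ((⌊ν⌋ : ℤ) * (2 * Real.pi * I)) = 1 :=
      Complex.exp_int_mul_two_pi_mul_I _
    rw [Complex.exp_sub, h2, div_one]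
    exact hℓe k
  · simpa using hre k
  · have h2 : ℓ k - (⌊ν⌋ : ℤ) * (2 * Real.pi * I) - 2 * Real.pi * τ * I
        = ℓ k - 2 * Real.pi * (ν : ℝ) * I := by
      have h3 : ν = τ + (⌊ν⌋ : ℤ) := by rw [← hfr]; exact (Int.fract_add_floor ν).symm
      have h4 : (ν : ℂ) = τ + (⌊ν⌋ : ℤ) := by exact_mod_cast congrArg (fun x : ℝ => (x : ℂ)) h3
      rw [h4]; ring
    rw [h2]; exact hk

/-- every label occurs over every half disc around a point of the imaginary axis -/
theorem occur_ball {n : ℕ} (hn : 0 < n) {x₀ : ℝ} (h0 : 0 < x₀) (h1 : x₀ < 1) {R : ℝ} (hR : 0 < R)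
    (j : Lab n) :
    ∃ (c b : ℂ) (θ : ℝ) (w : ℕ → ℤ) (L : ℂ), ExtP n c b θ w ∧ lab n θ w = j ∧
      Complex.exp L = mult n c b ∧ 0 < L.re ∧ L ∈ ball (2 * Real.pi * x₀ * I : ℂ) R := by
  have hpi := Real.pi_pos
  have h2 : x₀ < min 1 (x₀ + R / (4 * Real.pi)) :=
    lt_min h1 (by have : 0 < R / (4 * Real.pi) := by positivity
                  linarith)
  obtain ⟨τ, hirr, hτ1, hτ2⟩ := exists_irrational_btwn h2
  obtain ⟨c, b, θ, w, L, hE, hj, hL, hre, hd⟩ := occur hn (h0.trans hτ1)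
    (lt_of_lt_of_le hτ2 (min_le_left _ _)) hirr j (half_pos hR)
  refine ⟨c, b, θ, w, L, hE, hj, hL, hre, ?_⟩
  rw [mem_ball, dist_eq_norm]
  have h3 : L - 2 * Real.pi * x₀ * I
      = (L - 2 * Real.pi * τ * I) + ((2 * Real.pi * (τ - x₀) : ℝ) : ℂ) * I := by
    push_cast; ring
  have h4 : ‖((2 * Real.pi * (τ - x₀) : ℝ) : ℂ) * I‖ ≤ R / 2 := by
    rw [norm_mul, norm_I, mul_one, norm_real, Real.norm_eq_abs, abs_of_pos (by
      have : 0 < τ - x₀ := by linarith
      positivity)]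
    have h5 : τ - x₀ < R / (4 * Real.pi) := by
      have := lt_of_lt_of_le hτ2 (min_le_right _ _)
      linarith
    rw [lt_div_iff₀ (by positivity)] at h5
    linarith
  rw [h3]
  calc _ ≤ ‖L - 2 * Real.pi * τ * I‖ + ‖((2 * Real.pi * (τ - x₀) : ℝ) : ℂ) * I‖ := norm_add_le _ _
    _ < R / 2 + R / 2 := by linarith
    _ = R := by ring

end Pool.Agent.Work.MLC
end

section
set_option autoImplicit false

/-! # The good discs, final form (helper34) -/

namespace Pool.Agent.Work.MLC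

open Filter Topology Metric Set Complex

/-- the disc of radius `min(x, 1 - x)² / (4 n)` about `2 π i x` is a good domain -/
theorem goodDom34 {n : ℕ} (hn : 0 < n) {x : ℚ} (h0 : 0 < x) (h1 : x < 1) :
    GoodDom n (ball (axisPt x) (1 / 4 * (min (x : ℝ) (1 - x)) ^ 2 / n)) := by
  refine goodDom_of_hall hn h0 h1 fun j => ?_
  have hx0 : (0 : ℝ) < x := by exact_mod_cast h0
  have hx1 : (x : ℝ) < 1 := by exact_mod_cast h1
  have hn' : (0 : ℝ) < n := by exact_mod_cast hn
  have hm : 0 < min (x : ℝ) (1 - x) := lt_min hx0 (by linarith)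
  have hR : 0 < 1 / 4 * (min (x : ℝ) (1 - x)) ^ 2 / n := by positivity
  obtain ⟨c, b, θ, w, L, hE, hj, hL, hre, hmem⟩ := occur_ball hn hx0 hx1 hR j
  have hax : (2 * Real.pi * ((x : ℝ) : ℂ) * I : ℂ) = axisPt x := by
    unfold axisPt
    push_cast
    ring
  rw [hax] at hmem
  exact ⟨(c, b), hE.2.2.1, L, hmem, hre, hL.symm, (FF_ext (x := (c, b)) hE).trans hj⟩

end Pool.Agent.Work.MLC
end

section
set_option autoImplicit false

/-! # All cycles are repelling outside of the Mandelbrot set (helper13) -/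

namespace Pool.Agent.Work.MLC

open Filter Topology Metric Set

lemma mul_eq_mult13 (n : ℕ) (c b : ℂ) : mul n (c, b) = mult n c b := by
  unfold mul mult
  rfl

/-- outside of the Mandelbrot set all periodic points are repelling -/
theorem rep13 {n : ℕ} (hn : 0 < n) {x : ℂ × ℂ} (hx : x ∈ Per n) (hM : x.1 ∉ MS) :
    1 < ‖mul n x‖ := by
  obtain ⟨c, b⟩ := x
  have hc : 0 < G c c := by
    rcases (G_nonneg c c).eq_or_lt with h | h
    · exact absurd (mem_M_iff'.2 h.symm) hM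
    · exact h
  have h1 := K0 hc hn (show it c n b = b from hx)
  rw [mul_eq_mult13]
  have h2 : 0 < Real.log ‖mult n c b‖ := by
    refine lt_of_lt_of_le ?_ h1
    have : (0 : ℝ) < n := by exact_mod_cast hn
    positivity
  by_contra h3
  push Not at h3
  exact absurd (Real.log_nonpos (norm_nonneg _) h3) (not_le.2 h2)

end Pool.Agent.Work.MLC
end

section
set_option autoImplicit false

/-! # All inputs of the final assembly (helper34) -/

namespace Pool.Agent.Work.MLC

open Filter Topology Metric Set Complex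

/-- all inputs of the final assembly, with the constant `κ = 1 / 4` -/
theorem inputs34 : Inputs (1 / 4) where
  κ_pos := by norm_num
  good := fun _ hn _ h0 h1 => goodDom34 hn h0 h1
  rot := fun _ hn => ⟨_, Tr.rotData hn⟩
  rep := fun _ hn _ hx hM => rep13 hn hx hM
  cpt := isCompact_MM
  conn := isPreconnected_MM

end Pool.Agent.Work.MLC
end

section
set_option autoImplicit false

/-! # Satellite components: definitions and interface (manager: helper26)

The parent has a point `b` of exact period `m`; `σ L = (c L, b L)` is the section of its multiplier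
`exp L` over the good disc about `a = 2 π i x`, `0 < x < 1` rational, `Q = x.den`, `n = m Q`.
Everything happens over the punctured disc `U` of the (small) radius `r`. For `L ∈ U` with
`c L ∉ MM` there is exactly one angle `θ` with `Th L θ`. `[tm, tp]` is the plateau of the rotation
number `k₀ + x`, `u` is the word of the child (period `n`).
`RE`: exterior parameters; `RI`: inside the wake of the child; `RO`: outside the closed wake. -/

namespace Pool.Agent.Work.MLC

open Filter Topology Metric Set Complex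

namespace Sat

/-- radius of the good disc of the parent -/
noncomputable def gR (m : ℕ) (x : ℚ) : ℝ := 1 / 4 * (min (x : ℝ) (1 - x)) ^ 2 / m

/-- the small radius -/
noncomputable def sR (m : ℕ) (x : ℚ) : ℝ := 1 / (16 * m ^ 3 * x.den ^ 4)

/-- all data of the satellite situation -/
structure Dat where
  /-- period of the parent -/
  m : ℕ
  /-- rotation number at the root -/
  x : ℚ
  /-- section of the parent -/
  σ : ℂ → ℂ × ℂ
  /-- word of the parent -/
  w : ℕ → ℤ
  /-- strip of the parent -/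
  k₀ : ℤ
  /-- word of the child -/
  u : ℕ → ℤ
  /-- strip of the child -/
  k : ℤ
  /-- left end of the plateau -/
  tm : ℝ
  /-- right end of the plateau -/
  tp : ℝ

namespace Dat

variable (D : Dat)

/-- period of the child -/
def n : ℕ := D.m * D.x.den

/-- the root -/
noncomputable def a : ℂ := axisPt D.x

/-- the parameter -/
def c (L : ℂ) : ℂ := (D.σ L).1

/-- the point of the parent -/
def b (L : ℂ) : ℂ := (D.σ L).2

/-- the good disc of the parent -/
noncomputable def B : Set ℂ := ball D.a (gR D.m D.x)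

/-- the small punctured disc -/
noncomputable def U : Set ℂ := ball D.a (sR D.m D.x) \ {D.a}

/-- `θ` is the (normalised) angle of the exterior parameter `c L` -/
def Th (L : ℂ) (θ : ℝ) : Prop :=
  ExtP D.m (D.c L) (D.b L) θ D.w ∧ (D.k₀ : ℝ) < Circ.nu D.w D.m θ ∧
    Circ.nu D.w D.m θ < D.k₀ + 1

/-- the data of the parent -/
structure Par : Prop where
  m_pos : 0 < D.m
  x_pos : 0 < D.x
  x_lt : D.x < 1
  cont : ContinuousOn D.σ D.B
  sec : ∀ L ∈ D.B, D.σ L ∈ Per D.m ∧ mul D.m (D.σ L) = exp L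
  prim : ∀ L ∈ D.B, ∀ d, 0 < d → d < D.m → it (D.c L) d (D.b L) ≠ D.b L
  bits : Bits D.m D.w
  wprim : ∀ d, 0 < d → d < D.m → ∃ i, D.w (i + d) ≠ D.w i
  ang : ∀ L ∈ D.B, D.c L ∉ MM → ∃ θ, D.Th L θ
  ply : ∀ L ∈ D.B, ∀ θ, D.Th L θ →
    ‖L - 2 * Real.pi * ((Circ.nu D.w D.m θ - D.k₀ : ℝ) : ℂ) * I‖ ^ 2 ≤ 81 * D.m * L.re
  lab : ∀ L ∈ D.B, 0 < L.re → NonInt D.m (D.σ L) ∧
    ∀ θ : ℝ, (D.k₀ : ℝ) < Circ.nu D.w D.m θ → Circ.nu D.w D.m θ < D.k₀ + 1 →
      FF D.m (D.σ L) = lab D.m θ D.w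

/-- the rotation number of the parent at `θ` is close to `k₀ + x` (satisfied by the angles of all
exterior `L ∈ U`) -/
def Near (θ : ℝ) : Prop :=
  |Circ.nu D.w D.m θ - (D.k₀ + D.x)| < 1 / ((D.n : ℝ) * D.x.den)

/-- the circle data: plateau and word of the child (phase chosen such that `(tm, tp)` is the
shortest gap of the portrait of the parent) -/
structure Cir : Prop where
  ubits : Bits D.n D.u
  flip : ∀ i, D.u i = if D.n ∣ i + 1 then 1 - D.w i else D.w i
  uprim : ∀ d, 0 < d → d < D.n → ∃ i, D.u (i + d) ≠ D.u i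
  lt : D.tm < D.tp
  lt_one : D.tp < D.tm + 1
  plateau : ∀ θ, Circ.nu D.w D.m θ = D.k₀ + D.x ↔ D.tm ≤ θ ∧ θ ≤ D.tp
  nu_in : ∀ θ, D.tm < θ → θ < D.tp →
    (D.k : ℝ) < Circ.nu D.u D.n θ ∧ Circ.nu D.u D.n θ < D.k + 1
  nu_left : ∀ θ, D.Near θ → θ ≤ D.tm → Circ.nu D.u D.n θ = D.k
  nu_right : ∀ θ, D.Near θ → D.tp ≤ θ → Circ.nu D.u D.n θ = D.k + 1
  per : PerAngle D.m D.x.den D.tm
  orb : ∃ (j : ℕ) (l : ℤ), D.tp = 2 ^ (D.m * j) * D.tm + l
  orb' : ∃ (j : ℕ) (l : ℤ), D.tm = 2 ^ (D.m * j) * D.tp + l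
  avoid : ∀ (i : ℕ) (l : ℤ), ¬ (D.tm < 2 ^ i * D.tm + l ∧ 2 ^ i * D.tm + l < D.tp)
  /-- weak gap lemma -/
  gap : ∀ θ, D.Near θ → (∃ l : ℤ, (2 : ℝ) ^ D.n * θ - θ = l) → D.tm ≤ θ ∧ θ ≤ D.tp
  compat_w : ∀ θ, D.tm < θ → θ < D.tp → Compat D.tm θ D.w ∧ Compat D.tp θ D.w
  compat_w' : ∀ θ, Compat D.tm θ D.w → (D.k₀ : ℝ) < Circ.nu D.w D.m θ →
    Circ.nu D.w D.m θ < D.k₀ + 1 → D.tm < θ ∧ θ < D.tp
  compat_u_left : ∀ θ, D.Near θ → θ < D.tm → Compat D.tm θ D.u
  compat_u_right : ∀ θ, D.Near θ → D.tp < θ → Compat D.tp θ D.u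
  /-- transitivity -/
  trans : ∀ θ, D.tm ≤ θ → θ ≤ D.tp → ∀ (β : ℝ) (q : ℕ), PerAngle D.m q β → Compat β θ D.w →
    ∃ (j : ℕ) (l : ℤ), D.tm = 2 ^ (D.m * j) * β + l

/-- exterior parameters -/
def RE : Set ℂ := {L ∈ D.U | D.c L ∉ MM}

/-- the wake of the child -/
def RI : Set ℂ := {L ∈ D.U | 0 < L.re ∧ ((∃ θ, D.Th L θ ∧ D.tm < θ ∧ θ < D.tp) ∨
  (D.c L ∈ MM ∧ Land D.m (D.c L) (D.b L) D.tm D.x.den))}

/-- the complement of the closed wake -/
def RO : Set ℂ := {L ∈ D.U | L ∉ D.RI ∧ ∀ θ, D.Th L θ → θ < D.tm ∨ D.tp < θ}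

/-- the cycle with the word `u` (exterior parameters) -/
def ZE (L : ℂ) : Set ℂ :=
  {z | ∃ θ, D.Th L θ ∧ ∃ z₀, ExtP D.n (D.c L) z₀ θ D.u ∧ ∃ i, z = it (D.c L) i z₀}

/-- the label of the child -/
noncomputable def J : Lab D.n := lab D.n ((D.tm + D.tp) / 2) D.u

end Dat

/-- repelling pairs of non-integer rotation with the label `J` -/
def NJ (n : ℕ) (J : Lab n) : Set (ℂ × ℂ) :=
  {x | x ∈ Per n ∧ 1 < ‖mul n x‖ ∧ NonInt n x ∧ FF n x = J}

/-- a continuous family of cycles of period dividing `n` over `V`, with multipliers `≠ 1` -/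
structure CycFam (n : ℕ) (c : ℂ → ℂ) (V : Set ℂ) (Z : ℂ → Set ℂ) : Prop where
  ne : ∀ L ∈ V, (Z L).Nonempty
  fix : ∀ L ∈ V, ∀ z ∈ Z L, (c L, z) ∈ Per n ∧ mul n (c L, z) ≠ 1
  cyc : ∀ L ∈ V, ∀ z ∈ Z L, ∀ z', z' ∈ Z L ↔ ∃ i, z' = it (c L) i z
  cont : ∀ L ∈ V, ∀ z ∈ Z L, ∀ᶠ p : ℂ × ℂ in 𝓝 (L, z), (c p.1, p.2) ∈ Per n → p.2 ∈ Z p.1

/-- the cycles have exact period `n` -/
def Exact (n : ℕ) (c : ℂ → ℂ) (V : Set ℂ) (Z : ℂ → Set ℂ) : Prop :=
  ∀ L ∈ V, ∀ z ∈ Z L, ∀ d, 0 < d → d < n → it (c L) d z ≠ z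

/-! ## The modules: statements

Every module proves one (or several) of the following propositions. -/

/-- S0 (helper39): parent data exist -/
def S0_parent : Prop := ∀ (m : ℕ) (x : ℚ) (r₀ b₀ : ℂ), 0 < m → 0 < x → x < 1 →
  (r₀, b₀) ∈ Per m → (∀ d, 0 < d → d < m → it r₀ d b₀ ≠ b₀) → mul m (r₀, b₀) = exp (axisPt x) →
  ∃ D : Dat, D.m = m ∧ D.x = x ∧ D.σ (axisPt x) = (r₀, b₀) ∧ D.Par

/-- S0' (helper39): replacing the parent point by a point of its orbit -/
def S0_shift : Prop := ∀ (D : Dat) (i₀ : ℕ) (u : ℕ → ℤ) (k : ℤ) (tm tp : ℝ), D.Par →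
  (⟨D.m, D.x, fun L => ((D.σ L).1, it (D.σ L).1 i₀ (D.σ L).2), fun i => D.w (i + i₀), D.k₀,
    u, k, tm, tp⟩ : Dat).Par

/-- S1 (helper54): circle data exist after replacing the parent point by a point of its orbit -/
def S1_circle : Prop := ∀ (m : ℕ) (x : ℚ) (w : ℕ → ℤ) (k₀ : ℤ), 0 < m → 0 < x → x < 1 →
  Bits m w → (∀ d, 0 < d → d < m → ∃ i, w (i + d) ≠ w i) →
  ∃ (i₀ : ℕ) (u : ℕ → ℤ) (k : ℤ) (tm tp : ℝ), i₀ < m ∧ ∀ σ : ℂ → ℂ × ℂ,
    (⟨m, x, σ, fun i => w (i + i₀), k₀, u, k, tm, tp⟩ : Dat).Cir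

/-- S1' (helper54): rotation of the word does not change the rotation number -/
def S1_rot : Prop := ∀ (m : ℕ) (w : ℕ → ℤ) (i₀ : ℕ) (θ : ℝ), Bits m w →
  Circ.nu (fun i => w (i + i₀)) m θ = Circ.nu w m θ

/-- S2 (helper51): Lemma W -/
def S2_width : Prop := ∀ (n : ℕ) (w : ℕ → ℤ) (θ : ℝ) (k : ℤ), 0 < n → Bits n w →
  (k : ℝ) < Circ.nu w n θ → (k : ℝ) + 1 ≤ Circ.nu w n (θ + 1)

/-- S2' (helper51): over one exterior parameter a label belongs to at most one point -/
def S2_unique : Prop := ∀ (n : ℕ) (c z z' : ℂ), 0 < n → c ∉ MM → (c, z) ∈ Per n → (c, z') ∈ Per n →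
  NonInt n (c, z) → NonInt n (c, z') → FF n (c, z) = FF n (c, z') → z = z'

/-- S3 (helper59): over `MM` a repelling limit of `NJ` is in `NJ` -/
def S3_closed : Prop := ∀ (n : ℕ) (J : Lab n) (x : ℂ × ℂ), 0 < n → x ∈ Per n → 1 < ‖mul n x‖ →
  x.1 ∈ MM → x ∈ closure (NJ n J) → x ∈ NJ n J

/-- S3' (helper59): near a neutral pair with multiplier `exp (2 π i φ)`, `0 < φ < 1`, all repelling
pairs have one label, the rotation numbers are close to `φ` modulo one, and there are exterior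
parameters arbitrarily close -/
def S3_neutral : Prop := ∀ (n : ℕ) (x : ℂ × ℂ) (φ : ℝ), 0 < n → x ∈ Per n → 0 < φ → φ < 1 →
  mul n x = exp (2 * Real.pi * φ * I) →
  (∃ J, ∀ᶠ y in 𝓝 x, y ∈ Per n → 1 < ‖mul n y‖ → y ∈ NJ n J) ∧
  (∀ ε > 0, ∀ᶠ y in 𝓝 x, ∀ θ w, ExtP n y.1 y.2 θ w → |Int.fract (Circ.nu w n θ) - φ| < ε) ∧
  (∃ᶠ c in 𝓝 x.1, c ∉ MM)

/-- S4 (helper57): over the right half of a good disc each label has at most one pair -/
def S4_unique : Prop := ∀ (n : ℕ) (x : ℚ) (L : ℂ) (y y' : ℂ × ℂ), 0 < n → 0 < x → x < 1 →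
  L ∈ ball (axisPt x) (gR n x) → 0 < L.re → y ∈ Per n → y' ∈ Per n → mul n y = exp L →
  mul n y' = exp L → FF n y = FF n y' → y = y'

/-- S4' (helper57): both sides of the ends of the plateau accumulate at the root -/
def S4_root : Prop := ∀ D : Dat, D.Par → D.Cir →
  (∃ᶠ L in 𝓝 D.a, L ∈ D.RI ∩ D.RE) ∧ (∃ᶠ L in 𝓝 D.a, L ∈ D.RO ∩ D.RE)

/-- S5a (helper60): landing of the ray `tm` at the parent point is clopen over `MM`, and controls
the angles of the exterior parameters nearby (on the whole good disc) -/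
def S5_land : Prop := ∀ D : Dat, D.Par → D.Cir → ∀ L ∈ D.B, 0 < L.re → D.c L ∈ MM →
  (Land D.m (D.c L) (D.b L) D.tm D.x.den → ∀ᶠ L' in 𝓝 L,
    (D.c L' ∈ MM → Land D.m (D.c L') (D.b L') D.tm D.x.den) ∧
      ∀ θ, D.Th L' θ → D.tm < θ ∧ θ < D.tp) ∧
  (¬ Land D.m (D.c L) (D.b L) D.tm D.x.den → ∀ᶠ L' in 𝓝 L,
    (D.c L' ∈ MM → ¬ Land D.m (D.c L') (D.b L') D.tm D.x.den) ∧
      ∀ θ, D.Th L' θ → θ < D.tm ∨ D.tp < θ)

/-- S5b (helper13): the PLY inequality of the parent in the wake, also at interior parameters (uses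
S5a; minimum principle for `Re (1 / (L - a))` on the components of the interior of `MM`) -/
def S5_ply : Prop := ∀ D : Dat, D.Par → D.Cir → ∀ L ∈ D.RI, ‖L - D.a‖ ^ 2 ≤ 81 * D.m * L.re

/-- S5 (helper60): the three regions -/
structure Regions (D : Dat) : Prop where
  near : ∀ L ∈ D.U, ∀ θ, D.Th L θ → D.Near θ
  openE : IsOpen D.RE
  openI : IsOpen D.RI
  openO : IsOpen D.RO
  cover : D.U ⊆ D.RE ∪ D.RI ∪ D.RO
  disj : Disjoint D.RI D.RO
  clos : ∀ L ∈ D.U, D.c L ∈ MM → L ∈ closure D.RI → L ∈ D.RI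
  ply : ∀ L ∈ D.RI, ‖L - D.a‖ ^ 2 ≤ 81 * D.m * L.re
  /-- every component of `RI`, `RO` meets `RE` -/
  meetI : ∀ V ⊆ D.RI, V.Nonempty → IsOpen V → (∀ L ∈ D.RI, L ∈ closure V → L ∈ V) →
    (V ∩ D.RE).Nonempty
  meetO : ∀ V ⊆ D.RO, V.Nonempty → IsOpen V → (∀ L ∈ D.RO, L ∈ closure V → L ∈ V) →
    (V ∩ D.RE).Nonempty

def S5_regions : Prop := ∀ D : Dat, D.Par → D.Cir → Regions D

/-- S6 (helper4): the landing points of the rays of the orbit of `tm` over `RO` -/
def S6_outer : Prop := ∀ D : Dat, D.Par → D.Cir → Regions D →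
  ∃ Z, CycFam D.n D.c D.RO Z ∧ Exact D.n D.c D.RO Z ∧ (∀ L ∈ D.RO ∩ D.RE, Z L = D.ZE L) ∧
    ∀ L ∈ D.RO, ∀ z ∈ Z L, 1 < ‖mul D.n (D.c L, z)‖

/-- S7 (helper49): at most one attracting cycle -/
def S7_fatou : Prop := ∀ (c x y : ℂ) (n k : ℕ), 0 < n → 0 < k → it c n x = x →
  ‖mul n (c, x)‖ < 1 → it c k y = y → ‖mul k (c, y)‖ < 1 → ∃ i, y = it c i x

/-- S7' (helper40): a limit, with multiplier `1`, of attracting pairs is over the frontier of `MM`
(uses S7 and S3') -/
def S7_parab : Prop := ∀ (n : ℕ) (y : ℂ × ℂ), 0 < n → y ∈ Per n → mul n y = 1 →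
  (∃ᶠ s in 𝓝 y, s ∈ Per n ∧ ‖mul n s‖ < 1) → ∃ᶠ c in 𝓝 y.1, c ∉ MM

/-- S8 (helper69): no collision inside `NJ` -/
def S8_side : Prop := ∀ (n : ℕ) (J : Lab n) (x : ℂ × ℂ) (N : Set (ℂ × ℂ)), 0 < n → x ∈ Per n →
  mul n x = 1 → N ∈ 𝓝 x →
  (∀ y ∈ N, y ∈ Per n → 1 < ‖mul n y‖ → y ∈ closure (NJ n J) → y ∈ NJ n J) →
  ∀ᶠ y in 𝓝 x, y ∉ NJ n J

/-- S9 (helper26): the inner part -/
def S9_inner : Prop := ∀ D : Dat, D.Par → D.Cir → Regions D →
  ∃ Z, CycFam D.n D.c D.RI Z ∧ (∀ L ∈ D.RI ∩ D.RE, Z L = D.ZE L) ∧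
    ∀ L ∈ D.RI, ∀ z, (D.c L, z) ∈ NJ D.n D.J → z ∈ Z L

/-- the glued family -/
structure Glued (D : Dat) (Z : ℂ → Set ℂ) : Prop where
  fam : CycFam D.n D.c D.U Z
  ext : ∀ L ∈ D.RE, Z L = D.ZE L
  left : ∀ L ∈ D.RO, (∀ z ∈ Z L, 1 < ‖mul D.n (D.c L, z)‖) ∧
    ∀ z ∈ Z L, ∀ d, 0 < d → d < D.n → it (D.c L) d z ≠ z
  inner : ∀ L ∈ D.RI, ∀ z, (D.c L, z) ∈ NJ D.n D.J → z ∈ Z L

/-- S9' (helper26) -/
def S9_glue : Prop := ∀ D : Dat, D.Par → D.Cir → Regions D → ∃ Z, Glued D Z

/-- S10 (helper34): the multiplier tends to `1` at the root -/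
def S10_origin : Prop := ∀ (D : Dat) (Z : ℂ → Set ℂ) (K : ℂ → ℂ), D.Par → D.Cir → Regions D →
  Glued D Z → (∀ L ∈ D.U, ∀ z ∈ Z L, mul D.n (D.c L, z) = K L) → Tendsto K (𝓝[≠] D.a) (𝓝 1)

/-- S11 (helper15): the derivative at the root -/
def S11_deriv : Prop := ∀ (D : Dat) (Z : ℂ → Set ℂ) (K : ℂ → ℂ), D.Par → D.Cir → Regions D →
  Glued D Z → (∀ L ∈ D.U, ∀ z ∈ Z L, mul D.n (D.c L, z) = K L) →
  DifferentiableOn ℂ K (ball D.a (sR D.m D.x)) → K D.a = 1 →
  deriv K D.a = -(D.x.den : ℂ) ^ 2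

/-- the radius of the coordinate of the child -/
noncomputable def cR (n : ℕ) : ℝ := 1 / (600000 * n ^ 5)

/-- **Theorem S**: the coordinate `e` of the child -/
structure Child (D : Dat) (Z : ℂ → Set ℂ) (e : ℂ → ℂ) : Prop where
  diff : DifferentiableOn ℂ e (ball 0 (cR D.n))
  zero : e 0 = D.a
  inj : InjOn e (ball 0 (cR D.n))
  maps : ∀ ℓ ∈ ball (0 : ℂ) (cR D.n), e ℓ ∈ ball D.a (sR D.m D.x) ∧ ‖e ℓ - D.a‖ ≤ 3 * ‖ℓ‖
  mul_eq : ∀ ℓ ∈ ball (0 : ℂ) (cR D.n), ℓ ≠ 0 → ∀ z ∈ Z (e ℓ), mul D.n (D.c (e ℓ), z) = exp ℓ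
  uniq : ∃ δ > 0, ∀ L ∈ ball D.a δ, L ≠ D.a → ∀ ℓ ∈ ball (0 : ℂ) (cR D.n), ∀ z ∈ Z L,
    mul D.n (D.c L, z) = exp ℓ → L = e ℓ

/-- S13 (helper26): Theorem S -/
def S13_child : Prop := ∀ (D : Dat) (Z : ℂ → Set ℂ), D.Par → D.Cir → Regions D → Glued D Z →
  ∃ e, Child D Z e

/-- S16 (helper51): the rotation type is the same at all points of the cycle -/
def S16_rot : Prop := ∀ (n : ℕ) (c z L : ℂ) (x : ℚ) (i : ℕ), 0 < n → Tr.RotT n c z L x →
  Tr.RotT n c (it c i z) L x

end Sat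

end Pool.Agent.Work.MLC
end

section
set_option autoImplicit false

/-! # The root disc of radius `δ n`, definition (helper6) -/

namespace Pool.Agent.Work.MLC

open Filter Topology Metric Set

/-- root disc of radius `δ n`: at every boundary point of every component of period `n` with
multiplier `exp (2 π i p / q)` close to `1` there is a limb piece with radius `δ n` -/
def RootPiece (δ : ℕ → ℝ) : Prop := ∀ (n p q : ℕ) (r b : ℂ),
    PerN n r b → 0 < p → p < q → Nat.Coprime p q →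
    mult n r b = Complex.exp (2 * Real.pi * (p / q : ℂ) * Complex.I) →
    2 * Real.pi * (min (p : ℝ) (q - p) / q) ≤ δ n →
    ∃ (x : ℚ) (g : ℂ → ℂ) (T : ℂ → ℚ → Prop), x ≠ 0 ∧ x.den = q ∧
      LimbData MS x (δ n) (2 * n * Real.log 2) g T ∧ g (axisPt x) = r ∧
      DifferentiableOn ℂ g (ball (axisPt x) (δ n)) ∧
      (∀ ℓ ∈ ball (axisPt x) (δ n), ‖g ℓ‖ ≤ 4) ∧
      (∀ ℓ ∈ ball (axisPt x) (δ n), ℓ ≠ 0 →
        ∃ z, (g ℓ, z) ∈ Per n ∧ mul n (g ℓ, z) = Complex.exp ℓ)

end Pool.Agent.Work.MLC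
end

section
set_option autoImplicit false

/-! # Lemma C with a linear bound  (helper65)

`|1 / (mul n (c, b) - 1)| ≤ 128 n (1 + |log G c c|)` for `0 < G c c ≤ 4`. -/

namespace Pool.Agent.Work.MLC.C65

open Filter Topology Metric Set Complex MeasureTheory

variable {c : ℂ} {g th : ℝ} {E s h : ℂ → ℂ} {w : ℕ → ℤ} {n : ℕ} {b ρ : ℂ}

/-- the plane minus the first `n` forward images of the ray above the critical value -/
def Yn (E : ℂ → ℂ) (g th : ℝ) (n : ℕ) : Set ℂ :=
  {z | ∀ i < n, ∀ r : ℝ, g ≤ r → z ≠ E (2 ^ i * (r + th * I))}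

lemma Yn_ray {z : ℂ} (hz : z ∈ Yn E g th (n + 1)) : z ∉ ray E g th := by
  rintro ⟨r, hr, h⟩
  exact hz 0 (Nat.succ_pos n) r hr (by simpa using h)

lemma two_pow_re (i : ℕ) (r th : ℝ) : ((2 : ℂ) ^ i * (r + th * I)) =
    ((2 ^ i * r : ℝ) : ℂ) + ((2 ^ i * th : ℝ) : ℂ) * I := by
  push_cast; ring

lemma slit_re (hg : 0 < g) {i : ℕ} {r : ℝ} (hr : g ≤ r) :
    g / 2 < ((2 : ℂ) ^ i * (r + th * I)).re := by
  rw [two_pow_re, add_re, ofReal_re, re_ofReal_mul, I_re]
  have : (1 : ℝ) ≤ 2 ^ i := one_le_pow₀ (by norm_num)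
  nlinarith

lemma Yn_sb (hB : BD c g th E) (hS : SQ c g th E s) {z : ℂ} (hz : z ∈ Yn E g th (n + 1)) (e : ℤ) :
    sb s e z ∈ Yn E g th n := by
  intro i hi r hr h
  have h1 := hS.f_sb (Yn_ray hz) e
  apply hz (i + 1) (by omega) r hr
  rw [← h1, h, ← hB.dbl _ (slit_re hB.pos hr)]
  congr 1
  rw [pow_succ]; ring

lemma G_gcYn (hB : BD c g th E) (hS : SQ c g th E s) (w : ℕ → ℤ) (m : ℕ) {z : ℂ}
    (hz : z ∈ Yn E g th m) : G c (gc s w m z) = G c z / 2 ^ m := by
  induction m generalizing z with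
  | zero => simp [gc_zero]
  | succ m ih =>
    rw [gc_succ, ih (Yn_sb hB hS hz _), hS.G_sb (Yn_ray hz), pow_succ]
    field_simp

lemma it_gcYn (hB : BD c g th E) (hS : SQ c g th E s) (w : ℕ → ℤ) (m : ℕ) {z : ℂ}
    (hz : z ∈ Yn E g th m) : it c m (gc s w m z) = z := by
  induction m generalizing z with
  | zero => rfl
  | succ m ih =>
    rw [gc_succ, it_succ, ih (Yn_sb hB hS hz _), hS.f_sb (Yn_ray hz)]

lemma differentiableOn_gcYn (hB : BD c g th E) (hS : SQ c g th E s) (w : ℕ → ℤ) (m : ℕ) :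
    DifferentiableOn ℂ (gc s w m) (Yn E g th m) := by
  induction m with
  | zero => exact differentiableOn_id
  | succ m ih =>
    exact ih.comp ((hS.differentiableOn_sb _).mono fun z hz => Yn_ray hz)
      (fun z hz => Yn_sb hB hS hz _)

lemma isOpen_Yn (hB : BD c g th E) (n : ℕ) : IsOpen (Yn E g th n) := by
  have hp := hB.pos
  have hGc : Continuous (G c) := continuous_G_right c
  have h1 : Yn E g th n = ⋂ i ∈ Finset.range n,
      ({z : ℂ | 2 ^ i * g ≤ G c z} ∩ {z | z = E ((G c z : ℝ) + ((2 ^ i * th : ℝ) : ℂ) * I)})ᶜ := by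
    ext z
    simp only [Yn, mem_iInter, Finset.mem_range, mem_compl_iff, mem_inter_iff, mem_ofPred_eq,
      not_and]
    constructor
    · intro h i hi h2 h3
      refine h i hi (G c z / 2 ^ i) ?_ ?_
      · rw [le_div_iff₀ (by positivity)]; linarith
      · rw [two_pow_re, mul_div_cancel₀ _ (by positivity)]
        exact h3
    · intro h i hi r hr h2
      have h3 : G c z = 2 ^ i * r := by
        rw [h2, hB.G_E _ (slit_re hp hr), two_pow_re, add_re, ofReal_re, re_ofReal_mul, I_re]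
        ring
      have h4 : (0 : ℝ) < 2 ^ i := by positivity
      refine h i hi (by rw [h3]; nlinarith) ?_
      rw [h3, ← two_pow_re]
      exact h2
  rw [h1]
  refine isOpen_biInter_finset fun i _ => IsClosed.isOpen_compl (self := ?_)
  have hcl : IsClosed {z : ℂ | 2 ^ i * g ≤ G c z} := isClosed_le continuous_const hGc
  have hre : ∀ z ∈ {z : ℂ | 2 ^ i * g ≤ G c z},
      g / 2 < (((G c z : ℝ) : ℂ) + ((2 ^ i * th : ℝ) : ℂ) * I).re := by
    intro z hz
    rw [add_re, ofReal_re, re_ofReal_mul, I_re]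
    have h4 : (1 : ℝ) ≤ 2 ^ i := one_le_pow₀ (by norm_num)
    have h5 : 2 ^ i * g ≤ G c z := hz
    nlinarith
  have hcont : ContinuousOn (fun z : ℂ => z - E ((G c z : ℝ) + ((2 ^ i * th : ℝ) : ℂ) * I))
      {z : ℂ | 2 ^ i * g ≤ G c z} := by
    refine continuousOn_id.sub (hB.continuousOn_E.comp ?_ hre)
    fun_prop
  have h2 := hcont.preimage_isClosed_of_isClosed hcl (isClosed_singleton (x := (0 : ℂ)))
  convert h2 using 1
  ext z
  simp only [mem_inter_iff, mem_preimage, mem_singleton_iff, mem_ofPred_eq, sub_eq_zero]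

lemma Ug_Yn (hB : BD c g th E) (n : ℕ) : Ug c g ⊆ Yn E g th n := by
  intro z hz i hi r hr h
  have h1 : G c z < g := hz
  rw [h, hB.G_E _ (slit_re hB.pos hr), two_pow_re, add_re, ofReal_re, re_ofReal_mul, I_re] at h1
  have h2 : (1 : ℝ) ≤ 2 ^ i := one_le_pow₀ (by norm_num)
  have := hB.pos
  nlinarith

/-- the displacement of the inverse branch -/
noncomputable def Df (s : ℂ → ℂ) (w : ℕ → ℤ) (n : ℕ) (z : ℂ) : ℂ := z - gc s w n z

lemma Df_ne_zero (hB : BD c g th E) (hS : SQ c g th E s) (hK : KD c g s w n b ρ h) (hn : 1 ≤ n)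
    {z : ℂ} (hz : z ∈ Yn E g th n) (hzb : z ≠ b) : Df s w n z ≠ 0 := by
  intro h0
  have h1 : gc s w n z = z := (sub_eq_zero.1 h0).symm
  have h2 := G_gcYn hB hS w n hz
  rw [h1, eq_div_iff (by positivity)] at h2
  have h3 : (2 : ℝ) ≤ 2 ^ n := by
    calc (2 : ℝ) = 2 ^ 1 := by norm_num
      _ ≤ 2 ^ n := pow_le_pow_right₀ (by norm_num) hn
  have h4 := G_nonneg c z
  have h5 : G c z = 0 := by nlinarith
  have hzU : z ∈ Ug c g := by
    show G c z < g
    rw [h5]; exact hB.pos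
  have h6 := hK.koe z hzU
  rw [h1] at h6
  have hρ := hK.rho_ne
  have hρ1 : ρ ≠ 1 := by
    intro h7
    have := hK.one_lt
    rw [h7, norm_one] at this
    exact lt_irrefl _ this
  have h8 : h z * (ρ - 1) = 0 := by
    field_simp at h6
    linear_combination h6
  have h9 : h z = 0 := (mul_eq_zero.1 h8).resolve_right (sub_ne_zero.2 hρ1)
  exact hzb (hK.inj hzU hK.b_mem (h9.trans hK.zero.symm))

lemma hasDerivAt_gc_b (hB : BD c g th E) (hS : SQ c g th E s) (hK : KD c g s w n b ρ h) :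
    HasDerivAt (gc s w n) (1 / ρ) b := by
  have hY := isOpen_Yn (th := th) hB n
  have hb : b ∈ Yn E g th n := Ug_Yn hB n hK.b_mem
  have h1 : HasDerivAt (gc s w n) (deriv (gc s w n) b) b :=
    ((differentiableOn_gcYn hB hS w n).differentiableAt (hY.mem_nhds hb)).hasDerivAt
  have h2 : HasDerivAt (it c n) ρ (gc s w n b) := by
    rw [hK.fix, hK.rho, ext_deriv_it]
    exact ext_hasDerivAt_it n c b
  have h3 := h2.comp b h1
  have h4 : HasDerivAt (fun z : ℂ => z) (ρ * deriv (gc s w n) b) b := by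
    refine h3.congr_of_eventuallyEq ?_
    filter_upwards [hY.mem_nhds hb] with z hz
    exact (it_gcYn hB hS w n hz).symm
  have h5 : ρ * deriv (gc s w n) b = 1 := h4.unique (hasDerivAt_id b)
  have h6 : deriv (gc s w n) b = 1 / ρ := by
    rw [eq_div_iff hK.rho_ne, mul_comm]; exact h5
  rwa [h6] at h1

lemma differentiableOn_Df (hB : BD c g th E) (hS : SQ c g th E s) :
    DifferentiableOn ℂ (Df s w n) (Yn E g th n) :=
  differentiableOn_id.sub (differentiableOn_gcYn hB hS w n)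

lemma deriv_Df (hB : BD c g th E) (hS : SQ c g th E s) (hK : KD c g s w n b ρ h) :
    deriv (Df s w n) b = 1 - 1 / ρ :=
  ((hasDerivAt_id b).sub (hasDerivAt_gc_b hB hS hK)).deriv

lemma one_sub_inv_ne (hK : KD c g s w n b ρ h) : 1 - 1 / ρ ≠ 0 := by
  have hρ := hK.rho_ne
  intro h0
  have h1 : ρ = 1 := by
    field_simp at h0
    linear_combination h0
  have := hK.one_lt
  rw [h1, norm_one] at this
  exact lt_irrefl _ this

/-! ### the curve -/

/-- the profile point -/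
noncomputable def zt (g th : ℝ) (n : ℕ) (x : ℝ) : ℂ := ((g / 2 + rp g th n x : ℝ) : ℂ) + x * I

lemma zt_re (x : ℝ) : (zt g th n x).re = g / 2 + rp g th n x := by
  unfold zt; rw [add_re, ofReal_re, re_ofReal_mul, I_re]; ring

lemma zt_im (x : ℝ) : (zt g th n x).im = x := by
  unfold zt; rw [add_im, ofReal_im, im_ofReal_mul, I_im]; ring

lemma zt_mem (hg : 0 < g) (x : ℝ) : g / 2 < (zt g th n x).re := by
  rw [zt_re]
  have := rp_pos (th := th) hg n x
  linarith

lemma hasDerivAt_zt (hg : 0 < g) (x : ℝ) :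
    HasDerivAt (zt g th n) ((rp' g th n x : ℂ) + I) x := by
  have h1 := ((hasDerivAt_rp (th := th) hg n x).const_add (g / 2)).ofReal_comp
  have h2 := ((hasDerivAt_id x).ofReal_comp).mul_const I
  have h3 := h1.add h2
  refine (h3.congr_deriv (by simp)).congr_of_eventuallyEq (Eventually.of_forall fun y => ?_)
  simp [zt]

lemma zt_per (x : ℝ) : zt g th n (x + 2 * Real.pi) = zt g th n x + 2 * Real.pi * I := by
  unfold zt
  rw [rp_per]
  push_cast; ring

section Curve

variable (hB : BD c g th E) (hS : SQ c g th E s) (hK : KD c g s w n b ρ h)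

include hB in
lemma curve_mem (x : ℝ) : E (zt g th n x) ∈ Yn E g th n := by
  intro i hi r hr h
  have hp := hB.pos
  obtain ⟨k, hk⟩ := hB.inj _ _ (zt_mem hp x) (slit_re hp hr) h
  have e1 := congrArg Complex.re hk
  have e2 := congrArg Complex.im hk
  rw [two_pow_re, zt_re] at e1
  rw [two_pow_re, zt_im] at e2
  simp only [add_re, add_im, ofReal_re, ofReal_im, mul_re, mul_im, I_re, I_im, intCast_re,
    intCast_im, re_ofNat, im_ofNat, mul_zero, mul_one, zero_mul, sub_zero, add_zero, zero_add] at e1 e2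
  have h1 := rp_lt_slit (th := th) hp hi e2
  have h2 : (1 : ℝ) ≤ 2 ^ i := one_le_pow₀ (by norm_num)
  nlinarith

include hB in
lemma hasDerivAt_curve (x : ℝ) : HasDerivAt (fun x => E (zt g th n x))
    (deriv E (zt g th n x) * ((rp' g th n x : ℂ) + I)) x := by
  have ho : IsOpen {z : ℂ | g / 2 < z.re} := isOpen_lt continuous_const continuous_re
  have h1 : HasDerivAt E (deriv E (zt g th n x)) (zt g th n x) :=
    (hB.hol.differentiableAt (ho.mem_nhds (zt_mem hB.pos x))).hasDerivAt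
  exact HasDerivAt.comp x h1 (hasDerivAt_zt hB.pos x)

include hB in
lemma continuous_zt : Continuous (zt g th n) :=
  continuous_iff_continuousAt.2 fun x => (hasDerivAt_zt hB.pos x).continuousAt

include hB in
lemma continuous_curve' : Continuous fun x =>
    deriv E (zt g th n x) * ((rp' g th n x : ℂ) + I) := by
  have ho : IsOpen {z : ℂ | g / 2 < z.re} := isOpen_lt continuous_const continuous_re
  refine Continuous.mul ?_ ?_
  · exact (hB.hol.deriv ho).continuousOn.comp_continuous (continuous_zt hB)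
      (fun x => zt_mem hB.pos x)
  · exact (continuous_ofReal.comp (continuous_rp' hB.pos n)).add continuous_const

include hB in
lemma curve_per (x : ℝ) : E (zt g th n (x + 2 * Real.pi)) = E (zt g th n x) := by
  rw [zt_per, hB.per _ (zt_mem hB.pos x)]

include hB in
lemma continuous_curve : Continuous fun x => E (zt g th n x) :=
  continuous_iff_continuousAt.2 fun x => (hasDerivAt_curve hB x).continuousAt

include hB hS in
/-- the displacement is at least comparable to the derivative times the profile -/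
lemma deriv_le_Df (hn : 1 ≤ n) (x : ℝ) :
    ‖deriv E (zt g th n x)‖ ≤ 32 * ‖Df s w n (E (zt g th n x))‖ / rp g th n x := by
  have hp := hB.pos
  have hr := rp_pos (th := th) hp n x
  have hr4 := rp_le (th := th) hp n x
  have ho : IsOpen {z : ℂ | g / 2 < z.re} := isOpen_lt continuous_const continuous_re
  set ζ := zt g th n x with hζ
  set r := rp g th n x with hrdef
  have hre : ζ.re = g / 2 + r := zt_re x
  set v : ℂ := gc s w n (E ζ) with hv
  have hball : ∀ z ∈ ball ζ (r / 2), g / 2 + r / 2 < z.re := by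
    intro z hz
    rw [mem_ball, dist_eq_norm] at hz
    have h1 := (abs_re_le_norm _).trans_lt hz
    rw [sub_re, hre, abs_lt] at h1
    linarith [h1.1]
  have hsub : ball ζ (r / 2) ⊆ {z : ℂ | g / 2 < z.re} := fun z hz => by
    have := hball z hz
    show g / 2 < z.re
    linarith
  have hG : G c v ≤ (g / 2 + r) / 2 := by
    rw [hv, G_gcYn hB hS w n (curve_mem hB x), hB.G_E _ (zt_mem hp x), ← hζ, hre]
    have h3 : (2 : ℝ) ≤ 2 ^ n := by
      calc (2 : ℝ) = 2 ^ 1 := by norm_num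
        _ ≤ 2 ^ n := pow_le_pow_right₀ (by norm_num) hn
    exact div_le_div_of_nonneg_left (by positivity) (by norm_num) h3
  have h1 := norm_deriv_le_of_zero_free (F := fun z => E z - v) (z := ζ) (R := r / 2)
    (by positivity) ((hB.hol.mono hsub).sub_const v) ?_ ?_
  · have h2 : deriv (fun z => E z - v) ζ = deriv E ζ := by
      rw [deriv_sub_const]
    rw [h2] at h1
    refine h1.trans (le_of_eq ?_)
    unfold Df
    rw [← hv]
    field_simp
    ring
  · intro z hz z' hz' he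
    have he' : E z = E z' := sub_left_injective he
    obtain ⟨k, hk⟩ := hB.inj z z' (hsub hz) (hsub hz') he'
    have hd : ‖z - z'‖ < 4 := by
      have h4 := dist_triangle_right z z' ζ
      rw [mem_ball] at hz hz'
      rw [← dist_eq_norm]
      linarith
    have h5 : ‖z - z'‖ = |(k : ℝ)| * (2 * Real.pi) := by
      rw [hk, add_sub_cancel_left]
      simp [abs_of_pos Real.pi_pos]
    have h6 : k = 0 := by
      by_contra hk0
      have h7 : (1 : ℝ) ≤ |(k : ℝ)| := by exact_mod_cast Int.one_le_abs hk0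
      have h8 := Real.pi_gt_three
      nlinarith
    rw [hk, h6]; simp
  · intro z hz h0
    have h2 : E z = v := sub_eq_zero.1 h0
    have h3 := hB.G_E z (hsub hz)
    rw [h2] at h3
    have h4 := hball z hz
    linarith

include hB in
/-- winding number zero about the slits -/
lemma wd_out {y : ℂ} (hy : y ∉ Yn E g th n) : Wd (fun x => E (zt g th n x) - y) 0 := by
  have hp := hB.pos
  have hcc := continuous_curve (th := th) (n := n) hB
  obtain ⟨i, hi, r, hr, rfl⟩ : ∃ i < n, ∃ r : ℝ, g ≤ r ∧ y = E (2 ^ i * (r + th * I)) := by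
    unfold Yn at hy
    simp only [mem_ofPred_eq, not_forall, not_not] at hy
    obtain ⟨i, hi, r, hr, h⟩ := hy
    exact ⟨i, hi, r, hr, h⟩
  obtain ⟨M, hM⟩ : ∃ M : ℝ, ∀ x, ‖E (zt g th n x)‖ ≤ M := by
    obtain ⟨M, hM⟩ := (isCompact_Icc (a := (0 : ℝ)) (b := 2 * Real.pi)).exists_bound_of_continuousOn
      hcc.continuousOn
    refine ⟨M, fun x => ?_⟩
    have hper : Function.Periodic (fun x => E (zt g th n x)) (2 * Real.pi) := curve_per hB
    obtain ⟨y, hy, hxy⟩ := hper.exists_mem_Ico₀ (by positivity) x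
    rw [hxy]
    exact hM y (Ico_subset_Icc_self hy)
  -- a point of the ray far away
  obtain ⟨A, hA⟩ := (isCompact_closedBall (0 : ℂ) M).exists_bound_of_continuousOn
    (f := G c) (continuous_G_right c).continuousOn
  set T : ℝ := |A| + 1 with hT
  have hT0 : 0 < T := by positivity
  have h1i : (1 : ℝ) ≤ 2 ^ i := one_le_pow₀ (by norm_num)
  have hfar : M < ‖E (2 ^ i * (((r + |T| : ℝ) : ℂ) + th * I))‖ := by
    by_contra hcon
    push Not at hcon
    have h1 := hA _ (mem_closedBall_zero_iff.2 hcon)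
    rw [hB.G_E _ (slit_re hp (by rw [abs_of_pos hT0]; linarith)), two_pow_re, add_re, ofReal_re,
      re_ofReal_mul, I_re, abs_of_pos hT0, Real.norm_eq_abs] at h1
    have h2 := le_abs_self A
    have h3 := le_abs_self (2 ^ i * (r + T) + 2 ^ i * th * 0)
    nlinarith
  have hst := wd_far hcc (curve_per hB) hM hfar
  have := wd_homotopy (H := fun t x => E (zt g th n x) -
    E (2 ^ i * (((r + |t| : ℝ) : ℂ) + th * I))) (a := T) (k := 0) ?_ ?_ ?_ hst 0
  · simpa using this
  · refine (hcc.comp continuous_snd).sub ?_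
    refine hB.continuousOn_E.comp_continuous (by fun_prop) (fun p => slit_re hp ?_)
    have := abs_nonneg p.1
    linarith
  · intro t x
    exact sub_ne_zero.2 (curve_mem hB x i hi _ (by have := abs_nonneg t; linarith))
  · intro t x
    simp only [curve_per hB]

include hB in
/-- winding number one about the points of potential zero -/
lemma wd_in {y : ℂ} (hy : G c y = 0) : Wd (fun x => E (zt g th n x) - y) 1 := by
  have hp := hB.pos
  have h0 := hB.wd_sub (r := g) (by linarith) (w := y) (by rw [hy]; exact hp)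
  set τ : ℝ → ℝ := fun t => max 0 (min t 1) with hτ
  have hτ0 : ∀ t, 0 ≤ τ t := fun t => le_max_left _ _
  have hτ1 : ∀ t, τ t ≤ 1 := fun t => max_le zero_le_one (min_le_right _ _)
  have hτc : Continuous τ := by fun_prop
  set ℓ : ℝ → ℝ → ℝ := fun t x => g / 2 + ((1 - τ t) * (g / 2) + τ t * rp g th n x) with hℓ
  have hpos : ∀ t x, 0 < (1 - τ t) * (g / 2) + τ t * rp g th n x := by
    intro t x
    have h1 := rp_pos (th := th) hp n x
    rcases (hτ0 t).eq_or_lt with h2 | h2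
    · rw [← h2]; linarith
    · have h3 : 0 ≤ (1 - τ t) * (g / 2) := mul_nonneg (by linarith [hτ1 t]) (by linarith)
      have h4 : 0 < τ t * rp g th n x := mul_pos h2 h1
      linarith
  have hre : ∀ t x, g / 2 < ((ℓ t x : ℂ) + x * I).re := by
    intro t x
    rw [add_re, ofReal_re, re_ofReal_mul, I_re, hℓ]
    simp only
    linarith [hpos t x]
  have hrc := continuous_rp (th := th) hp n
  have h1 := wd_homotopy (H := fun t x => E ((ℓ t x : ℂ) + x * I) - y) (a := 0) (k := 1) ?_ ?_ ?_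
    ?_ 1
  · refine h1.congr fun x => ?_
    have h2 : τ 1 = 1 := by simp [hτ]
    have h3 : ((ℓ 1 x : ℂ) + x * I) = zt g th n x := by
      rw [hℓ]
      simp only
      rw [h2]
      unfold zt
      push_cast; ring
    rw [h3]
  · refine Continuous.sub ?_ continuous_const
    refine hB.continuousOn_E.comp_continuous ?_ (fun p => hre _ _)
    simp only [hℓ]
    fun_prop
  · intro t x h2
    have h3 := hB.G_E _ (hre t x)
    rw [sub_eq_zero.1 h2, hy] at h3
    have := hre t x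
    linarith
  · intro t x
    have h2 : ℓ t (x + 2 * Real.pi) = ℓ t x := by rw [hℓ]; simp only; rw [rp_per]
    simp only [h2]
    congr 1
    rw [← hB.per _ (hre t x)]
    congr 1
    push_cast; ring
  · refine h0.congr fun x => ?_
    have h2 : τ 0 = 0 := by simp [hτ]
    have h3 : ℓ 0 x = g := by rw [hℓ]; simp only; rw [h2]; ring
    simp only [h3]
    rfl

include hB hS hK in
/-- **the residue** -/
theorem norm_residue_le (hn : 1 ≤ n) (hb : G c b = 0) :
    ‖1 / (1 - 1 / ρ)‖ ≤ 12 + 48 * n * Real.log (1 + 2 * Real.pi / g) := by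
  have hp := hB.pos
  have hpi := Real.pi_pos
  have hY := isOpen_Yn (th := th) hB n
  have hbY : b ∈ Yn E g th n := Ug_Yn hB n hK.b_mem
  have hDd : DifferentiableOn ℂ (Df s w n) (Yn E g th n) := differentiableOn_Df hB hS
  have hDb : Df s w n b = 0 := by unfold Df; rw [hK.fix, sub_self]
  have hne : ∀ z ∈ Yn E g th n, dslope (Df s w n) b z ≠ 0 := by
    intro z hz
    by_cases hzb : z = b
    · rw [hzb, dslope_same, deriv_Df hB hS hK]
      exact one_sub_inv_ne hK
    · rw [dslope_of_ne _ hzb, slope_def_field, hDb, sub_zero]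
      exact div_ne_zero (Df_ne_zero hB hS hK hn hz hzb) (sub_ne_zero.2 hzb)
  have hq : DifferentiableOn ℂ (fun z => (dslope (Df s w n) b z)⁻¹) (Yn E g th n) :=
    ((differentiableOn_dslope (hY.mem_nhds hbY)).2 hDd).inv hne
  have hmain := dixon hY (γ := fun x => E (zt g th n x)) (hasDerivAt_curve hB)
    (continuous_curve' hB) (curve_per hB) (curve_mem hB) (fun y hy => wd_out hB hy) hq hbY
    (wd_in hB hb)
  simp only [dslope_same, deriv_Df hB hS hK] at hmain
  have hγb : ∀ x, E (zt g th n x) ≠ b := fun x => sub_ne_zero.1 ((wd_in hB hb).ne_zero x)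
  have hbound : ∀ x, ‖(dslope (Df s w n) b (E (zt g th n x)))⁻¹ / (E (zt g th n x) - b) *
      (deriv E (zt g th n x) * ((rp' g th n x : ℂ) + I))‖ ≤ 48 * (1 / rp g th n x) := by
    intro x
    have h1 := sub_ne_zero.2 (hγb x)
    have h2 := Df_ne_zero hB hS hK hn (curve_mem hB x) (hγb x)
    have h3 : (dslope (Df s w n) b (E (zt g th n x)))⁻¹ / (E (zt g th n x) - b)
        = 1 / Df s w n (E (zt g th n x)) := by
      rw [dslope_of_ne _ (hγb x), slope_def_field, hDb, sub_zero]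
      field_simp
    rw [h3, norm_mul, norm_mul, norm_div, norm_one]
    have hr := rp_pos (th := th) hp n x
    have h4 := deriv_le_Df (w := w) hB hS hn x
    have h5 : 0 < ‖Df s w n (E (zt g th n x))‖ := norm_pos_iff.2 h2
    have h6 : ‖((rp' g th n x : ℂ) + I)‖ ≤ 3 / 2 := by
      have h7 := abs_rp'_le (th := th) hp n x
      apply le_of_sq_le_sq _ (by norm_num)
      rw [Complex.sq_norm, normSq_apply]
      simp only [add_re, ofReal_re, I_re, add_zero, add_im, ofReal_im, I_im, zero_add]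
      rw [abs_le] at h7
      nlinarith
    calc 1 / ‖Df s w n (E (zt g th n x))‖ * (‖deriv E (zt g th n x)‖ * ‖((rp' g th n x : ℂ) + I)‖)
        ≤ 1 / ‖Df s w n (E (zt g th n x))‖ *
          ((32 * ‖Df s w n (E (zt g th n x))‖ / rp g th n x) * (3 / 2)) := by
          gcongr
      _ = 48 * (1 / rp g th n x) := by field_simp; norm_num
  have hcr : Continuous fun x => 48 * (1 / rp g th n x) :=
    continuous_const.mul (continuous_const.div (continuous_rp hp n)
      fun x => (rp_pos hp n x).ne')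
  have h1 : ‖2 * (Real.pi : ℂ) * I * (1 - 1 / ρ)⁻¹‖ ≤
      ∫ x in (0 : ℝ)..(2 * Real.pi), 48 * (1 / rp g th n x) := by
    rw [← hmain]
    exact intervalIntegral.norm_integral_le_of_norm_le (by positivity)
      (Eventually.of_forall fun x _ => hbound x) (hcr.intervalIntegrable _ _)
  rw [intervalIntegral.integral_const_mul] at h1
  have h2 := integral_inv_rp_le (th := th) hp n
  have h3 : ‖2 * (Real.pi : ℂ) * I * (1 - 1 / ρ)⁻¹‖ = 2 * Real.pi * ‖1 / (1 - 1 / ρ)‖ := by
    rw [norm_mul, norm_mul, norm_mul, norm_I, mul_one, one_div (1 - 1 / ρ), Complex.norm_ofNat, norm_real,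
      Real.norm_eq_abs, abs_of_pos hpi]
  rw [h3] at h1
  have h4 : 2 * Real.pi * ‖1 / (1 - 1 / ρ)‖ ≤
      2 * Real.pi * (12 + 48 * n * Real.log (1 + 2 * Real.pi / g)) := by
    calc _ ≤ 48 * ∫ x in (0 : ℝ)..(2 * Real.pi), 1 / rp g th n x := h1
      _ ≤ 48 * (Real.pi / 2 + n * (2 * Real.pi * Real.log (1 + 2 * Real.pi / g))) := by gcongr
      _ = _ := by ring
  exact le_of_mul_le_mul_left h4 (by positivity)

end Curve

lemma log_le_of {g : ℝ} (hg : 0 < g) (hg4 : g ≤ 4) :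
    Real.log (1 + 2 * Real.pi / g) ≤ 19 / 8 + |Real.log g| := by
  have hpi := Real.pi_pos
  have h1 : 1 + 2 * Real.pi / g = (g + 2 * Real.pi) / g := by field_simp
  rw [h1, Real.log_div (by positivity) hg.ne']
  have h2 : g + 2 * Real.pi ≤ 2 ^ 3 * (9 / 7) := by
    have := Real.pi_lt_d4
    norm_num
    linarith
  have h3 := Real.log_le_log (by positivity) h2
  rw [Real.log_mul (by norm_num) (by norm_num), Real.log_pow] at h3
  have h4 := Real.log_two_lt_d9
  have h5 := Real.log_le_sub_one_of_pos (x := 9 / 7) (by norm_num)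
  have h6 := neg_abs_le (Real.log g)
  norm_num at h3 h5 ⊢
  linarith

/-- **Lemma C, linear form.**  Also with any divisor of the period in the place of `n`. -/
theorem norm_inv_le_lin {n : ℕ} (hn : 0 < n) {c b : ℂ} (hc : 0 < G c c) (hc4 : G c c ≤ 4)
    (hb : it c n b = b) :
    ‖1 / (mul n (c, b) - 1)‖ ≤ 128 * n * (1 + |Real.log (G c c)|) := by
  obtain ⟨θ, hθ⟩ := exists_ang hc
  obtain ⟨w, h⟩ := exists_extP_word hn hθ hb
  have hB := h.ang.BD
  obtain ⟨sq, hS⟩ := exists_SQ hB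
  obtain ⟨hgc, hbU⟩ := h.data hn hS
  obtain ⟨hk, hK⟩ := exists_KD hB hS hn h.2.2.2.1.per hbU hgc
  have h1 := norm_residue_le hB hS hK hn (G_zero_of_per hn hb)
  rw [ext_deriv_it] at h1
  have h2 := one_lt_norm_mult_of_ext hn hc hb
  have hρ0 : mult n c b ≠ 0 := by
    intro h3
    rw [h3, norm_zero] at h2
    linarith
  have hρ1 : mult n c b - 1 ≠ 0 := by
    intro h3
    rw [sub_eq_zero.1 h3, norm_one] at h2
    exact lt_irrefl _ h2
  have h3 : 1 / (mul n (c, b) - 1) = 1 / (1 - 1 / mult n c b) - 1 := by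
    rw [← mult_eq_mul]
    have h4 : 1 - 1 / mult n c b = (mult n c b - 1) / mult n c b := by field_simp
    rw [h4]
    field_simp
    ring
  have h4 : ‖1 / (mul n (c, b) - 1)‖ ≤ 13 + 48 * n * Real.log (1 + 2 * Real.pi / G c c) := by
    rw [h3]
    refine (norm_sub_le _ _).trans ?_
    rw [norm_one]
    linarith
  refine h4.trans ?_
  have h5 := log_le_of hc hc4
  have hn1 : (1 : ℝ) ≤ n := by exact_mod_cast hn
  have h6 : 48 * (n : ℝ) * Real.log (1 + 2 * Real.pi / G c c) ≤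
      48 * n * (19 / 8 + |Real.log (G c c)|) := by gcongr
  have h7 := abs_nonneg (Real.log (G c c))
  nlinarith [mul_nonneg (by linarith : (0 : ℝ) ≤ n) h7]

end Pool.Agent.Work.MLC.C65
end

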