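import Mathlib
import Pool.Agent.Work.MLCM.C10
import Pool.Agent.Work.MLCM.C12
import Pool.Agent.Work.MLCM.C13
import Pool.Agent.Work.MLCM.C24
import Pool.Agent.Work.MLCM.C26
import Pool.Agent.Work.MLCM.C29
import Pool.Agent.Work.MLCM.C38

section
set_option autoImplicit false

/-! # One non-repelling cycle (helper49)

* `crit_near`: the critical value comes arbitrarily near to every attracting periodic point.
* `one_attracting`: two attracting periodic points of `z ^ 2 + c` are in the same cycle.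
* `one_nonrepelling`: if `x` is attracting and `y` has multiplier of modulus at most `1`, then `y` is
  in the orbit of `x` (hence it is attracting). -/

namespace Pool.Agent.Work.MLC

namespace One49

open Filter Topology Metric Set

/-! ### algebra -/

lemma mul_eq_mult (n : ℕ) (c b : ℂ) : mul n (c, b) = mult n c b := rfl

lemma mult_add (a b : ℕ) (c x : ℂ) : mult (a + b) c x = mult a c x * mult b c (it c a x) := by
  unfold mult
  rw [Finset.prod_range_add]
  congr 1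
  refine Finset.prod_congr rfl fun i _ => ?_
  rw [add_comm a i, it_add]

lemma it_mul_per {c x : ℂ} {n : ℕ} (hx : it c n x = x) (k : ℕ) : it c (n * k) x = x := by
  induction k with
  | zero => simp
  | succ k ih => rw [Nat.mul_succ, it_add, hx, ih]

lemma it_mod {c x : ℂ} {n : ℕ} (hx : it c n x = x) (i : ℕ) : it c (i % n) x = it c i x := by
  conv_rhs => rw [← Nat.mod_add_div i n]
  rw [it_add, it_mul_per hx]

lemma mult_pow {c x : ℂ} {n : ℕ} (hx : it c n x = x) (k : ℕ) :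
    mult (n * k) c x = mult n c x ^ k := by
  induction k with
  | zero => simp
  | succ k ih => rw [Nat.mul_succ, mult_add, it_mul_per hx, ih, pow_succ]

/-! ### holomorphic inverse branches along a periodic orbit -/

lemma exists_sqrt_ball {x : ℂ} {ε : ℝ} (hε : 0 < ε) {g : ℂ → ℂ}
    (hg : DifferentiableOn ℂ g (ball x ε)) (h0 : ∀ z ∈ ball x ε, g z ≠ 0) {w : ℂ}
    (hw : w ^ 2 = g x) :
    ∃ s : ℂ → ℂ, DifferentiableOn ℂ s (ball x ε) ∧ (∀ z ∈ ball x ε, s z ^ 2 = g z) ∧ s x = w := by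
  have hxb : x ∈ ball x ε := mem_ball_self hε
  obtain ⟨F, hF, hF2⟩ := Tr.exists_hol_log isOpen_ball (convex_ball x ε) ⟨x, hxb⟩ hg h0
  have hs : ∀ z ∈ ball x ε, Complex.exp (F z / 2) ^ 2 = g z := by
    intro z hz
    rw [← hF2 z hz, ← Complex.exp_nat_mul]
    congr 1
    push_cast
    ring
  have hd : DifferentiableOn ℂ (fun z => Complex.exp (F z / 2)) (ball x ε) :=
    (hF.div_const 2).cexp
  have hx2 : (Complex.exp (F x / 2) - w) * (Complex.exp (F x / 2) + w) = 0 := by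
    have := hs x hxb
    linear_combination this - hw
  rcases mul_eq_zero.1 hx2 with h | h
  · exact ⟨_, hd, hs, sub_eq_zero.1 h⟩
  · refine ⟨fun z => -Complex.exp (F z / 2), hd.neg, fun z hz => ?_, ?_⟩
    · rw [neg_sq]; exact hs z hz
    · linear_combination -h

lemma branches {c x : ℂ} {m : ℕ} (hx : it c (m + 1) x = x) {ε : ℝ} (hε : 0 < ε)
    (hav : ∀ j, it c j c ∉ ball x ε) {R : ℝ} (hR : 1 + ‖c‖ ≤ R) (hxR : ‖x‖ + ε ≤ R) :
    ∀ k : ℕ, ∃ h : ℂ → ℂ, DifferentiableOn ℂ h (ball x ε) ∧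
      (∀ z ∈ ball x ε, it c k (h z) = z) ∧ (∀ z ∈ ball x ε, ‖h z‖ ≤ R) ∧ h x = it c (m * k) x := by
  intro k
  induction k with
  | zero =>
    refine ⟨fun z => z, differentiableOn_id, fun z _ => by simp, fun z hz => ?_, by simp⟩
    have h1 : ‖z - x‖ < ε := by simpa [dist_eq_norm] using hz
    have h2 : ‖z‖ ≤ ‖z - x‖ + ‖x‖ := by
      calc ‖z‖ = ‖(z - x) + x‖ := by ring_nf
        _ ≤ _ := norm_add_le _ _
    linarith
  | succ k ih =>
    obtain ⟨h, hd, hi, hb, hv⟩ := ih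
    have h0 : ∀ z ∈ ball x ε, h z - c ≠ 0 := by
      intro z hz h0
      have h1 : h z = c := sub_eq_zero.1 h0
      have h2 := hi z hz
      rw [h1] at h2
      exact hav k (by rw [h2]; exact hz)
    have hw : (it c (m * (k + 1)) x) ^ 2 = h x - c := by
      have h1 : f c (it c (m * (k + 1)) x) = it c (m * k) x := by
        rw [← it_succ]
        have h2 : m * (k + 1) + 1 = m * k + (m + 1) := by ring
        rw [h2, it_add, hx]
      rw [hv, ← h1]
      unfold f; ring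
    obtain ⟨s, hsd, hs2, hsx⟩ := exists_sqrt_ball hε (hd.sub_const c) h0 hw
    refine ⟨s, hsd, fun z hz => ?_, fun z hz => ?_, hsx⟩
    · rw [it_succ']
      have h1 : f c (s z) = h z := by
        unfold f
        rw [hs2 z hz]; ring
      rw [h1]; exact hi z hz
    · have h1 : ‖s z‖ ^ 2 ≤ R ^ 2 := by
        rw [← norm_pow, hs2 z hz]
        have h2 : ‖h z - c‖ ≤ R + ‖c‖ := (norm_sub_le _ _).trans (by linarith [hb z hz])
        have h3 := norm_nonneg c
        nlinarith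
      exact le_of_sq_le_sq h1 (by linarith [norm_nonneg c])

/-- the critical value comes arbitrarily near to an attracting periodic point -/
theorem crit_near {c x : ℂ} {n : ℕ} (hn : 0 < n) (hx : it c n x = x) (hm : ‖mult n c x‖ < 1)
    {ε : ℝ} (hε : 0 < ε) : ∃ j, it c j c ∈ ball x ε := by
  by_contra hcon
  push Not at hcon
  obtain ⟨m, rfl⟩ : ∃ m, n = m + 1 := ⟨n - 1, by omega⟩
  by_cases h0 : mult (m + 1) c x = 0
  · unfold mult at h0
    obtain ⟨i, hi, hi0⟩ := Finset.prod_eq_zero_iff.1 h0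
    rw [Finset.mem_range] at hi
    have h1 : it c i x = 0 := by
      rcases mul_eq_zero.1 hi0 with h | h
      · norm_num at h
      · exact h
    have h2 : it c (i + 1) x = c := by
      rw [it_succ, h1]; unfold f; ring
    have h3 : it c (m - i) (it c (i + 1) x) = x := by
      rw [← it_add]
      have : m - i + (i + 1) = m + 1 := by omega
      rw [this, hx]
    rw [h2] at h3
    exact hcon (m - i) (by rw [h3]; exact mem_ball_self hε)
  · set ρ := mult (m + 1) c x with hρ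
    set R := max (1 + ‖c‖) (‖x‖ + ε) with hRdef
    have hR0 : 0 < R := lt_of_lt_of_le (by positivity) (le_max_left _ _)
    have key : ∀ k : ℕ, 1 ≤ ‖ρ‖ ^ k * (R / (ε / 2)) := by
      intro k
      obtain ⟨h, hd, hi, hb, hv⟩ := branches hx hε hcon (le_max_left _ _) (le_max_right _ _)
        ((m + 1) * k)
      have hxb : x ∈ ball x ε := mem_ball_self hε
      have hvx : h x = x := by
        rw [hv]
        have : m * ((m + 1) * k) = (m + 1) * (m * k) := by ring
        rw [this, it_mul_per hx]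
      have hdx : HasDerivAt h (deriv h x) x :=
        (hd.differentiableAt (isOpen_ball.mem_nhds hxb)).hasDerivAt
      have hit : HasDerivAt (it c ((m + 1) * k)) (mult ((m + 1) * k) c (h x)) (h x) :=
        hasDerivAt_it_mult _ _ _
      have hcomp := hit.comp x hdx
      have hid : HasDerivAt (it c ((m + 1) * k) ∘ h) 1 x := by
        refine (hasDerivAt_id' x).congr_of_eventuallyEq ?_
        filter_upwards [isOpen_ball.mem_nhds hxb] with z hz
        exact hi z hz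
      have h1 := hcomp.unique hid
      rw [hvx, mult_pow hx, ← hρ] at h1
      have hc := Complex.norm_deriv_le_of_forall_mem_sphere_norm_le (f := h) (c := x)
        (R := ε / 2) (C := R) (by positivity)
        (by
          apply DifferentiableOn.diffContOnCl
          rw [closure_ball x (by positivity : ε / 2 ≠ 0)]
          exact hd.mono (closedBall_subset_ball (by linarith)))
        (fun z hz => hb z (by
          rw [mem_sphere_iff_norm] at hz
          rw [mem_ball_iff_norm, hz]; linarith))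
      have h2 : ‖ρ‖ ^ k * ‖deriv h x‖ = 1 := by
        rw [← norm_pow, ← norm_mul, h1, norm_one]
      calc (1 : ℝ) = ‖ρ‖ ^ k * ‖deriv h x‖ := h2.symm
        _ ≤ _ := mul_le_mul_of_nonneg_left hc (by positivity)
    have ht : Tendsto (fun k : ℕ => ‖ρ‖ ^ k * (R / (ε / 2))) atTop (𝓝 (0 * (R / (ε / 2)))) :=
      (tendsto_pow_atTop_nhds_zero_of_lt_one (norm_nonneg _) hm).mul_const _
    rw [zero_mul] at ht
    obtain ⟨k, hk⟩ := ((tendsto_order.1 ht).2 1 one_pos).exists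
    linarith [key k]

/-- an attracting periodic point attracts a neighbourhood -/
theorem basin {c x : ℂ} {n : ℕ} (hx : it c n x = x) (hm : ‖mult n c x‖ < 1) :
    ∃ ε > 0, ∀ z ∈ ball x ε, Tendsto (fun k => it c (n * k) z) atTop (𝓝 x) := by
  obtain ⟨r, hr1, hr2⟩ := exists_between hm
  have hd : HasDerivAt (it c n) (mult n c x) x := hasDerivAt_it_mult _ _ _
  have h1 := (hasDerivAt_iff_isLittleO.1 hd).def (c := r - ‖mult n c x‖) (by linarith)
  obtain ⟨ε, hε, hb⟩ := Metric.mem_nhds_iff.1 h1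
  have hstep : ∀ z ∈ ball x ε, ‖it c n z - x‖ ≤ r * ‖z - x‖ := by
    intro z hz
    have h2 : ‖it c n z - it c n x - (z - x) • mult n c x‖ ≤ (r - ‖mult n c x‖) * ‖z - x‖ := hb hz
    rw [hx, smul_eq_mul] at h2
    have h3 : it c n z - x = (it c n z - x - (z - x) * mult n c x) + (z - x) * mult n c x := by
      ring
    rw [h3]
    refine (norm_add_le _ _).trans ?_
    rw [norm_mul]
    nlinarith [norm_nonneg (z - x)]
  have hr0 : 0 ≤ r := le_trans (norm_nonneg _) hr1.le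
  refine ⟨ε, hε, fun z hz => ?_⟩
  have hk : ∀ k : ℕ, it c (n * k) z ∈ ball x ε ∧ ‖it c (n * k) z - x‖ ≤ r ^ k * ‖z - x‖ := by
    intro k
    induction k with
    | zero => simp only [Nat.mul_zero, it_zero, pow_zero, one_mul, le_refl, and_true]; exact hz
    | succ k ih =>
      have h2 : it c (n * (k + 1)) z = it c n (it c (n * k) z) := by
        rw [← it_add]; congr 1; ring
      have h3 := hstep _ ih.1
      rw [h2]
      constructor
      · rw [mem_ball_iff_norm]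
        have h4 := ih.1
        rw [mem_ball_iff_norm] at h4
        nlinarith [norm_nonneg (it c (n * k) z - x)]
      · calc _ ≤ r * ‖it c (n * k) z - x‖ := h3
          _ ≤ r * (r ^ k * ‖z - x‖) := mul_le_mul_of_nonneg_left ih.2 hr0
          _ = r ^ (k + 1) * ‖z - x‖ := by ring
  rw [tendsto_iff_norm_sub_tendsto_zero]
  have ht : Tendsto (fun k : ℕ => r ^ k * ‖z - x‖) atTop (𝓝 (0 * ‖z - x‖)) :=
    (tendsto_pow_atTop_nhds_zero_of_lt_one hr0 hr2).mul_const _
  rw [zero_mul] at ht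
  exact squeeze_zero (fun _ => norm_nonneg _) (fun k => (hk k).2) ht

/-- the critical orbit converges to every attracting cycle -/
theorem crit_tendsto {c x : ℂ} {n : ℕ} (hn : 0 < n) (hx : it c n x = x)
    (hm : ‖mult n c x‖ < 1) : ∃ j, Tendsto (fun k => it c (n * k) (it c j c)) atTop (𝓝 x) := by
  obtain ⟨ε, hε, hb⟩ := basin hx hm
  obtain ⟨j, hj⟩ := crit_near hn hx hm hε
  exact ⟨j, hb _ hj⟩

lemma tendsto_sub {c x : ℂ} {n m j : ℕ} (hm : 0 < m)
    (h : Tendsto (fun k => it c (n * k) (it c j c)) atTop (𝓝 x)) (i : ℕ) :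
    Tendsto (fun k => it c (n * m * k) (it c (i + j) c)) atTop (𝓝 (it c i x)) := by
  have h1 : Tendsto (fun k : ℕ => m * k) atTop atTop :=
    tendsto_id.const_mul_atTop' hm
  have h2 := (continuous_it_right c i).continuousAt.tendsto.comp (h.comp h1)
  refine h2.congr fun k => ?_
  simp only [Function.comp_apply]
  rw [← it_add, ← it_add, ← it_add]
  congr 1; ring

/-- **Uniqueness of the attracting cycle.** -/
theorem one_attracting {c x y : ℂ} {n m : ℕ} (hn : 0 < n) (hm : 0 < m) (hx : it c n x = x)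
    (hxm : ‖mult n c x‖ < 1) (hy : it c m y = y) (hym : ‖mult m c y‖ < 1) :
    ∃ i, it c i x = y := by
  obtain ⟨j, hj⟩ := crit_tendsto hn hx hxm
  obtain ⟨j', hj'⟩ := crit_tendsto hm hy hym
  rcases le_total j j' with h | h
  · have h1 := tendsto_sub hm hj (j' - j)
    have h2 := tendsto_sub hn hj' 0
    rw [show j' - j + j = 0 + j' by omega] at h1
    rw [mul_comm m n] at h2
    exact ⟨j' - j, tendsto_nhds_unique h1 h2⟩
  · have h1 := tendsto_sub hm hj 0
    have h2 := tendsto_sub hn hj' (j - j')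
    rw [show j - j' + j' = 0 + j by omega, mul_comm m n] at h2
    have h3 : x = it c (j - j') y := tendsto_nhds_unique h1 h2
    refine ⟨m * (j - j') - (j - j'), ?_⟩
    rw [h3, ← it_add]
    have : m * (j - j') - (j - j') + (j - j') = m * (j - j') := by
      have : j - j' ≤ m * (j - j') := Nat.le_mul_of_pos_left _ hm
      omega
    rw [this, it_mul_per hy]

/-! ### perturbation -/

/-- If `x` is attracting and `y` is not in its orbit, then nearby parameters have no attracting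
point of period dividing `m` near `y`. -/
theorem no_attracting_near {c x y : ℂ} {n m : ℕ} (hn : 0 < n) (hm : 0 < m) (hx : it c n x = x)
    (hxm : ‖mult n c x‖ < 1) (hxy : ∀ i, it c i x ≠ y) :
    ∀ᶠ p : ℂ × ℂ in 𝓝 (c, y), it p.1 m p.2 = p.2 → 1 ≤ ‖mult m p.1 p.2‖ := by
  have h1 : mul n (c, x) ≠ 1 := by
    intro h0
    rw [mul_eq_mult] at h0
    rw [h0, norm_one] at hxm
    exact lt_irrefl _ hxm
  obtain ⟨β, hβ, hβ0, hβe⟩ := chart (x₀ := (c, x)) hx h1
  have ht := chart_tendsto (x₀ := (c, x)) hβ hβ0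
  have hfst : Tendsto (fun p : ℂ × ℂ => p.1) (𝓝 (c, y)) (𝓝 c) := continuous_fst.continuousAt
  have e1 : ∀ᶠ p : ℂ × ℂ in 𝓝 (c, y), ‖mult n p.1 (β p.1)‖ < 1 := by
    have hxm' : ‖mul n (c, x)‖ < 1 := by rw [mul_eq_mult]; exact hxm
    have h2 : ∀ᶠ q in 𝓝 ((c, x) : ℂ × ℂ), ‖mul n q‖ < 1 :=
      (continuous_mul' n).norm.continuousAt.eventually (gt_mem_nhds hxm')
    have h3 : ∀ᶠ c' in 𝓝 c, ‖mul n (c', β c')‖ < 1 := ht.eventually h2
    exact (hfst.eventually h3).mono fun p hp => hp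
  have e2 : ∀ᶠ p : ℂ × ℂ in 𝓝 (c, y), it p.1 n (β p.1) = β p.1 := by
    have h3 : ∀ᶠ c' in 𝓝 c, it c' n (β c') = β c' :=
      (ht.eventually hβe).mono fun c' h => h.2 rfl
    exact (hfst.eventually h3).mono fun p hp => hp
  have e3 : ∀ᶠ p : ℂ × ℂ in 𝓝 (c, y), ∀ i ∈ Finset.range n, it p.1 i (β p.1) ≠ p.2 := by
    rw [Finset.eventually_all]
    intro i _
    have hc1 : Tendsto (fun p : ℂ × ℂ => it p.1 i (β p.1)) (𝓝 (c, y)) (𝓝 (it c i x)) := by
      have h2 : Tendsto (fun c' : ℂ => (c', β c')) (𝓝 c) (𝓝 (c, x)) := ht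
      have h3 := ((continuous_it i).continuousAt (x := (c, x))).tendsto.comp (h2.comp hfst)
      exact h3
    have hc2 : Tendsto (fun p : ℂ × ℂ => p.2) (𝓝 (c, y)) (𝓝 y) := continuous_snd.continuousAt
    exact ((hc1.sub hc2).eventually_ne (sub_ne_zero.2 (hxy i))).mono fun p hp h => hp (by
      rw [h, sub_self])
  filter_upwards [e1, e2, e3] with p h2 h3 h4 h5
  by_contra hcon
  push Not at hcon
  obtain ⟨i, hi⟩ := one_attracting hn hm h3 h2 h5 hcon
  exact h4 (i % n) (Finset.mem_range.2 (Nat.mod_lt _ hn)) (by rw [it_mod h3]; exact hi)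

/-- the case of an indifferent point of multiplier different from `1` -/
theorem one_nonrepelling_ne {c x y : ℂ} {n m : ℕ} (hn : 0 < n) (hm : 0 < m) (hx : it c n x = x)
    (hxm : ‖mult n c x‖ < 1) (hy : it c m y = y) (hym : ‖mult m c y‖ ≤ 1)
    (hy1 : mult m c y ≠ 1) : ∃ i, it c i x = y := by
  by_contra hcon
  push Not at hcon
  have h1 := no_attracting_near hn hm hx hxm hcon
  have h2 := mul_open (x₀ := (c, y)) hm hy hy1 (by rw [mul_eq_mult]; linarith) h1
  have h3 : ∃ᶠ w in 𝓝 (mul m (c, y)), w ∈ ball (0 : ℂ) 1 := by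
    refine mem_closure_iff_frequently.1 ?_
    rw [closure_ball (0 : ℂ) one_ne_zero, mem_closedBall_zero_iff, mul_eq_mult]
    exact hym
  obtain ⟨w, hw, p, ⟨hp1, hp2⟩, hpw⟩ := (h3.and_eventually h2).exists
  have h5 := hp1 hp2
  have h6 : mult m p.1 p.2 = w := hpw
  rw [h6] at h5
  rw [mem_ball_zero_iff] at hw
  linarith

/-! ### the parabolic case: zeros of the multiplier polynomial move continuously -/

lemma continuous_coeff_pc (m k : ℕ) : Continuous fun c : ℂ => (Cnt.pc c m).coeff k := by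
  have h : (fun c : ℂ => (Cnt.pc c m).coeff k) = fun c => ((Cnt.Fp m).coeff k).eval c := by
    funext c
    simp [Cnt.pc, Polynomial.coeff_map]
  rw [h]
  exact Polynomial.continuous _

theorem continuous_Rp (m : ℕ) : Continuous fun p : ℂ × ℂ => (Cnt.Rp m p.1).eval p.2 := by
  have h1 : (fun p : ℂ × ℂ => (Cnt.Rp m p.1).eval p.2) = fun p : ℂ × ℂ =>
      (Polynomial.sylvester (Cnt.fx p.2 m)
        (Polynomial.C p.1 - Polynomial.derivative (Cnt.pc p.2 m)) (2 ^ m) (2 ^ m)).det := by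
    funext p
    have h1 : (Cnt.Rp m p.1).eval p.2 = Polynomial.evalRingHom p.2 (Cnt.Rp m p.1) := rfl
    rw [h1, Cnt.Rp, ← Polynomial.resultant_map_map]
    have h2 : (Cnt.Fp m - Polynomial.X).map (Polynomial.evalRingHom p.2) = Cnt.fx p.2 m := by
      simp [Cnt.fx, Cnt.pc]
    have h3 : (Polynomial.C (Polynomial.C p.1) - Polynomial.derivative (Cnt.Fp m)).map
        (Polynomial.evalRingHom p.2)
        = Polynomial.C p.1 - Polynomial.derivative (Cnt.pc p.2 m) := by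
      simp [Cnt.pc, Polynomial.derivative_map]
    rw [h2, h3]
    rfl
  rw [h1]
  refine Continuous.matrix_det ?_
  refine continuous_matrix fun i j => ?_
  have hg : ∀ k : ℕ, Continuous fun p : ℂ × ℂ =>
      (Polynomial.C p.1 - Polynomial.derivative (Cnt.pc p.2 m)).coeff k := by
    intro k
    simp only [Polynomial.coeff_sub, Polynomial.coeff_C, Polynomial.coeff_derivative]
    refine Continuous.sub ?_ (((continuous_coeff_pc m (k + 1)).comp continuous_snd).mul
      continuous_const)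
    split_ifs
    · exact continuous_fst
    · exact continuous_const
  have hf : ∀ k : ℕ, Continuous fun p : ℂ × ℂ => (Cnt.fx p.2 m).coeff k := by
    intro k
    simp only [Cnt.fx, Polynomial.coeff_sub]
    exact ((continuous_coeff_pc m k).comp continuous_snd).sub continuous_const
  simp only [Polynomial.sylvester, Matrix.of_apply]
  refine Fin.addCases (fun j₁ => ?_) (fun j₁ => ?_) j
  · simp only [Fin.addCases_left]
    split_ifs
    · exact hg _
    · exact continuous_const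
  · simp only [Fin.addCases_right]
    split_ifs
    · exact hf _
    · exact continuous_const

theorem zero_near {m : ℕ} (hm : 0 < m) {c : ℂ} (h0 : (Cnt.Rp m 1).eval c = 0) {V : Set ℂ}
    (hV : V ∈ 𝓝 c) : ∀ᶠ w in 𝓝 (1 : ℂ), ∃ c' ∈ V, (Cnt.Rp m w).eval c' = 0 := by
  have hne := Cnt.Rp_ne_zero hm (1 : ℂ)
  have hfin : ({z : ℂ | (Cnt.Rp m 1).eval z = 0} \ {c}).Finite :=
    (Polynomial.finite_setOfPred_isRoot hne).subset (by
      rintro z ⟨hz, -⟩
      exact hz)
  have h1 : ({z : ℂ | (Cnt.Rp m 1).eval z = 0} \ {c})ᶜ ∈ 𝓝 c :=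
    hfin.isClosed.isOpen_compl.mem_nhds (by simp)
  obtain ⟨d, hd, hball⟩ := Metric.mem_nhds_iff.1 (Filter.inter_mem hV h1)
  have hd2 : 0 < d / 2 := by positivity
  have hK : IsCompact (sphere c (d / 2)) := isCompact_sphere _ _
  have hKne : ∀ z ∈ sphere c (d / 2), (Cnt.Rp m 1).eval z ≠ 0 := by
    intro z hz hz0
    have hz' : z ∈ ball c d := by
      rw [mem_sphere] at hz
      rw [mem_ball, hz]; linarith
    refine (hball hz').2 ⟨hz0, ?_⟩
    rw [mem_singleton_iff]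
    rintro rfl
    rw [mem_sphere, dist_self] at hz
    linarith
  obtain ⟨μ, hμ, hμK⟩ : ∃ μ > 0, ∀ z ∈ sphere c (d / 2), μ ≤ ‖(Cnt.Rp m 1).eval z‖ := by
    have hcont : ContinuousOn (fun z : ℂ => ‖(Cnt.Rp m 1).eval z‖) (sphere c (d / 2)) :=
      (Polynomial.continuous _).norm.continuousOn
    obtain ⟨z₀, hz₀, hmin⟩ := hK.exists_isMinOn (NormedSpace.sphere_nonempty.2 hd2.le) hcont
    exact ⟨_, norm_pos_iff.2 (hKne z₀ hz₀), fun z hz => hmin hz⟩
  have e1 : ∀ᶠ w in 𝓝 (1 : ℂ), ∀ z ∈ sphere c (d / 2), μ / 2 < ‖(Cnt.Rp m w).eval z‖ := by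
    refine hK.eventually_forall_of_forall_eventually fun z hz => ?_
    have h2 : μ / 2 < ‖(Cnt.Rp m 1).eval z‖ := by linarith [hμK z hz]
    exact (continuous_Rp m).norm.continuousAt.eventually (lt_mem_nhds h2)
  have e2 : ∀ᶠ w in 𝓝 (1 : ℂ), ‖(Cnt.Rp m w).eval c‖ < μ / 2 := by
    have h2 : Continuous fun w : ℂ => (Cnt.Rp m w).eval c :=
      (continuous_Rp m).comp (continuous_id.prodMk continuous_const)
    have h3 : ‖(Cnt.Rp m (1 : ℂ)).eval c‖ < μ / 2 := by
      rw [h0, norm_zero]; positivity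
    exact h2.norm.continuousAt.eventually (gt_mem_nhds h3)
  filter_upwards [e1, e2] with w hw1 hw2
  by_contra hcon
  push Not at hcon
  have hnz : ∀ z ∈ closedBall c (d / 2), (Cnt.Rp m w).eval z ≠ 0 := by
    intro z hz
    exact hcon z (hball (closedBall_subset_ball (by linarith) hz)).1
  have hdc : DiffContOnCl ℂ (fun z : ℂ => ((Cnt.Rp m w).eval z)⁻¹) (ball c (d / 2)) := by
    apply DifferentiableOn.diffContOnCl
    rw [closure_ball c hd2.ne']
    exact ((Cnt.Rp m w).differentiable.differentiableOn).inv hnz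
  obtain ⟨z, hz, hmax⟩ := Complex.exists_mem_frontier_isMaxOn_norm isBounded_ball
    ⟨c, mem_ball_self hd2⟩ hdc
  rw [frontier_ball c hd2.ne'] at hz
  have h4 := hmax (subset_closure (mem_ball_self hd2 : c ∈ ball c (d / 2)))
  simp only [Function.comp_apply, norm_inv, mem_ofPred_eq] at h4
  have h5 := hw1 z hz
  have h6 : 0 < ‖(Cnt.Rp m w).eval c‖ := norm_pos_iff.2 (hnz c (mem_closedBall_self hd2.le))
  have h7 : 0 < ‖(Cnt.Rp m w).eval z‖ := by linarith
  have h8 := (inv_le_inv₀ h6 h7).1 h4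
  linarith

/-- a parameter with a point of multiplier `1` is a limit of parameters with a point of
multiplier `w`, as `w → 1` -/
theorem near_parabolic {m : ℕ} (hm : 0 < m) {c y : ℂ} (hy : it c m y = y)
    (hy1 : mult m c y = 1) {V : Set ℂ} (hV : V ∈ 𝓝 c) :
    ∀ᶠ w in 𝓝 (1 : ℂ), ∃ c' ∈ V, ∃ b, it c' m b = b ∧ mult m c' b = w := by
  have h0 : (Cnt.Rp m 1).eval c = 0 := by
    rw [Cnt.eval_Rp hm, Multiset.prod_eq_zero_iff]
    refine Multiset.mem_map.2 ⟨y, (Cnt.mem_roots_fx hm).2 hy, ?_⟩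
    rw [mul_eq_mult, hy1, sub_self]
  filter_upwards [zero_near hm h0 hV] with w hw
  obtain ⟨c', hc', h1⟩ := hw
  rw [Cnt.eval_Rp hm, Multiset.prod_eq_zero_iff] at h1
  obtain ⟨b, hb, hb0⟩ := Multiset.mem_map.1 h1
  exact ⟨c', hc', b, (Cnt.mem_roots_fx hm).1 hb, (sub_eq_zero.1 hb0).symm⟩

lemma mult_f {c x : ℂ} {n : ℕ} (hx : it c n x = x) : mult n c (f c x) = mult n c x := by
  have h1 : mult (n + 1) c x = mult n c x * (2 * x) := by
    rw [mult_succ, hx]
  have h2 : mult (1 + n) c x = (2 * x) * mult n c (f c x) := by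
    rw [mult_add]
    simp [mult]
  by_cases h0 : x = 0
  · -- then both products contain a zero factor, unless `n = 0`
    rcases Nat.eq_zero_or_pos n with rfl | hn
    · simp
    · have h3 : mult n c x = 0 := by
        unfold mult
        exact Finset.prod_eq_zero (Finset.mem_range.2 hn) (by simp [h0])
      have h4 : mult n c (f c x) = 0 := by
        unfold mult
        refine Finset.prod_eq_zero (Finset.mem_range.2 (by omega : n - 1 < n)) ?_
        rw [← it_succ']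
        have : n - 1 + 1 = n := by omega
        rw [this, hx, h0, mul_zero]
      rw [h3, h4]
  · rw [add_comm, h2] at h1
    have h3 : (2 * x) * (mult n c (f c x) - mult n c x) = 0 := by linear_combination h1
    rcases mul_eq_zero.1 h3 with h4 | h4
    · exact absurd h4 (mul_ne_zero two_ne_zero h0)
    · exact sub_eq_zero.1 h4

lemma mult_it_eq {c x : ℂ} {n : ℕ} (hx : it c n x = x) (i : ℕ) :
    mult n c (it c i x) = mult n c x := by
  induction i with
  | zero => simp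
  | succ i ih =>
    have h1 : it c n (it c i x) = it c i x := by
      rw [← it_add, add_comm, it_add, hx]
    rw [it_succ, mult_f h1, ih]

/-- no parabolic point of multiplier `1` besides an attracting cycle -/
theorem no_parabolic {c x y : ℂ} {n m : ℕ} (hn : 0 < n) (hm : 0 < m) (hx : it c n x = x)
    (hxm : ‖mult n c x‖ < 1) (hy : it c m y = y) : mult m c y ≠ 1 := by
  intro hy1
  obtain ⟨r, hr1, hr2⟩ := exists_between hxm
  have hr0 : 0 ≤ r := le_trans (norm_nonneg _) hr1.le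
  have h1 : mul n (c, x) ≠ 1 := by
    intro h0
    rw [mul_eq_mult] at h0
    rw [h0, norm_one] at hxm
    exact lt_irrefl _ hxm
  obtain ⟨β, hβ, hβ0, hβe⟩ := chart (x₀ := (c, x)) hx h1
  have ht := chart_tendsto (x₀ := (c, x)) hβ hβ0
  have e1 : ∀ᶠ c' in 𝓝 c, ‖mult n c' (β c')‖ < r := by
    have hxm' : ‖mul n (c, x)‖ < r := by rw [mul_eq_mult]; exact hr1
    have h2 : ∀ᶠ q in 𝓝 ((c, x) : ℂ × ℂ), ‖mul n q‖ < r :=
      (continuous_mul' n).norm.continuousAt.eventually (gt_mem_nhds hxm')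
    exact (ht.eventually h2).mono fun c' h => h
  have e2 : ∀ᶠ c' in 𝓝 c, it c' n (β c') = β c' := (ht.eventually hβe).mono fun c' h => h.2 rfl
  have h2 := near_parabolic hm hy hy1 (e1.and e2)
  have hrm : r ^ m < 1 := pow_lt_one₀ hr0 hr2 hm.ne'
  have h3 : ∀ᶠ w in 𝓝 (1 : ℂ), r ^ m < ‖w‖ ^ n := by
    have h4 : Continuous fun w : ℂ => ‖w‖ ^ n := continuous_norm.pow n
    refine h4.continuousAt.eventually (lt_mem_nhds ?_)
    show r ^ m < ‖(1 : ℂ)‖ ^ n
    rw [norm_one, one_pow]; exact hrm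
  have h4 : ∃ᶠ w in 𝓝 (1 : ℂ), w ∈ ball (0 : ℂ) 1 := by
    refine mem_closure_iff_frequently.1 ?_
    rw [closure_ball (0 : ℂ) one_ne_zero, mem_closedBall_zero_iff, norm_one]
  obtain ⟨w, hw, hw2, hw3⟩ := (h4.and_eventually (h2.and h3)).exists
  rw [mem_ball_zero_iff] at hw
  obtain ⟨c', ⟨hc1, hc2⟩, b, hb, hbw⟩ := hw2
  obtain ⟨i, hi⟩ := one_attracting hn hm hc2 (hc1.trans hr2) hb (by rw [hbw]; exact hw)
  have h5 : mult (n * m) c' b = mult n c' (β c') ^ m := by
    rw [← hi, mult_it_eq (by rw [it_mul_per hc2]), mult_pow hc2]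
  have h6 : mult (n * m) c' b = w ^ n := by
    rw [mul_comm, mult_pow hb, hbw]
  have h7 : ‖w‖ ^ n = ‖mult n c' (β c')‖ ^ m := by
    rw [← norm_pow, ← norm_pow, ← h6, h5]
  have h8 : ‖mult n c' (β c')‖ ^ m ≤ r ^ m := pow_le_pow_left₀ (norm_nonneg _) hc1.le m
  linarith

/-- **One non-repelling cycle** (in the presence of an attracting one): if `x` is attracting and
the multiplier of `y` has modulus at most `1`, then `y` is in the orbit of `x`. -/
theorem one_nonrepelling {c x y : ℂ} {n m : ℕ} (hn : 0 < n) (hm : 0 < m) (hx : it c n x = x)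
    (hxm : ‖mult n c x‖ < 1) (hy : it c m y = y) (hym : ‖mult m c y‖ ≤ 1) :
    ∃ i, it c i x = y :=
  one_nonrepelling_ne hn hm hx hxm hy hym (no_parabolic hn hm hx hxm hy)

/-- every other periodic point is repelling -/
theorem other_repelling {c x y : ℂ} {n m : ℕ} (hn : 0 < n) (hm : 0 < m) (hx : it c n x = x)
    (hxm : ‖mult n c x‖ < 1) (hy : it c m y = y) (hxy : ∀ i, it c i x ≠ y) :
    1 < ‖mult m c y‖ := by
  by_contra h
  push Not at h
  obtain ⟨i, hi⟩ := one_nonrepelling hn hm hx hxm hy h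
  exact hxy i hi

end One49

/-- S7 in the form of the satellite project -/
theorem fatou (c x y : ℂ) (n k : ℕ) (hn : 0 < n) (hk : 0 < k) (hx : it c n x = x)
    (hxm : ‖mul n (c, x)‖ < 1) (hy : it c k y = y) (hym : ‖mul k (c, y)‖ < 1) :
    ∃ i, y = it c i x := by
  obtain ⟨i, hi⟩ := One49.one_attracting hn hk hx hxm hy hym
  exact ⟨i, hi.symm⟩

end Pool.Agent.Work.MLC
end

section
set_option autoImplicit false

/-! # Theorem S: basic facts and the exterior part (helper26) -/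

namespace Pool.Agent.Work.MLC.Sat

open Filter Topology Metric Set Complex

lemma not_mem_MM_iff {c : ℂ} : c ∉ MM ↔ 0 < G c c := by
  rw [G_c_eq, mem_M_iff]
  have h := G_nonneg c 0
  constructor
  · intro h1
    have : G c 0 ≠ 0 := h1
    have := lt_of_le_of_ne h (Ne.symm this)
    linarith
  · intro h1 h2
    rw [h2] at h1
    simp at h1

lemma isClosed_MM : IsClosed MM := isCompact_MM.isClosed

lemma isOpen_compl_MM : IsOpen {c : ℂ | c ∉ MM} := isClosed_MM.isOpen_compl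

/-! ### orbits of periodic points -/

lemma it_mul_per {c z : ℂ} {n : ℕ} (h : it c n z = z) (i j : ℕ) : it c (i + n * j) z = it c i z := by
  induction j with
  | zero => simp
  | succ j ih =>
    have : i + n * (j + 1) = (i + n * j) + n := by ring
    rw [this, it_add_periodic h, ih]

lemma it_comp (c z : ℂ) (i j : ℕ) : it c i (it c j z) = it c (i + j) z := by
  rw [← it_add]

/-- going once more around -/
lemma it_back {c z : ℂ} {n : ℕ} (hn : 0 < n) (h : it c n z = z) (i : ℕ) :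
    it c (n * i - i) (it c i z) = z := by
  rw [it_comp]
  have h1 : i ≤ n * i := Nat.le_mul_of_pos_left i hn
  rw [Nat.sub_add_cancel h1]
  have := it_mul_per h 0 i
  rwa [zero_add, it_zero] at this

lemma Per_it {n : ℕ} {c z : ℂ} (h : (c, z) ∈ Per n) (i : ℕ) : (c, it c i z) ∈ Per n := by
  show it c n (it c i z) = it c i z
  exact it_it_periodic h i

lemma mul_it' {n : ℕ} {c z : ℂ} (h : (c, z) ∈ Per n) (i : ℕ) :
    mul n (c, it c i z) = mul n (c, z) := by
  induction i with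
  | zero => rw [it_zero]
  | succ i ih =>
    rw [← ih]
    have h1 : it c n (it c i z) = it c i z := it_it_periodic h i
    set y := it c i z with hy
    have h2 : it c (i + 1) z = it c 1 y := by
      rw [hy, it_comp, add_comm]
    rw [h2]
    unfold mul
    simp only
    rcases Nat.eq_zero_or_pos n with h0 | hn
    · subst h0; simp
    · obtain ⟨k, rfl⟩ : ∃ k, n = k + 1 := ⟨n - 1, by omega⟩
      have h3 : ∀ j, it c j (it c 1 y) = it c (j + 1) y := fun j => it_comp c y j 1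
      simp only [h3]
      rw [Finset.prod_range_succ, Finset.prod_range_succ', h1]
      simp

/-- openness in the curve at one point of the cycle is enough -/
lemma cont_of_branch {n : ℕ} (hn : 0 < n) {c : ℂ → ℂ} {Z : ℂ → Set ℂ} {L z₀ : ℂ} (i : ℕ)
    (hc : ContinuousAt c L) (h0 : (c L, z₀) ∈ Per n)
    (hZ : ∀ᶠ p : ℂ × ℂ in 𝓝 (L, z₀), (c p.1, p.2) ∈ Per n → p.2 ∈ Z p.1)
    (hcl : ∀ᶠ L' in 𝓝 L, ∀ z ∈ Z L', ∀ i, it (c L') i z ∈ Z L') :
    ∀ᶠ p : ℂ × ℂ in 𝓝 (L, it (c L) i z₀), (c p.1, p.2) ∈ Per n → p.2 ∈ Z p.1 := by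
  set j := n * i - i with hj
  have hcont : ContinuousAt (fun p : ℂ × ℂ => ((p.1, it (c p.1) j p.2) : ℂ × ℂ))
      (L, it (c L) i z₀) := by
    have h1 : ContinuousAt (fun p : ℂ × ℂ => ((c p.1, p.2) : ℂ × ℂ)) (L, it (c L) i z₀) := by
      refine ContinuousAt.prodMk ?_ continuousAt_snd
      exact ContinuousAt.comp (f := Prod.fst) (g := c) hc continuousAt_fst
    have h2 : ContinuousAt (fun q : ℂ × ℂ => it q.1 j q.2) (c L, it (c L) i z₀) :=
      (continuous_it j).continuousAt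
    exact continuousAt_fst.prodMk (ContinuousAt.comp (g := fun q : ℂ × ℂ => it q.1 j q.2)
      (f := fun p : ℂ × ℂ => ((c p.1, p.2) : ℂ × ℂ)) (x := (L, it (c L) i z₀)) h2 h1)
  have h3 : it (c L) j (it (c L) i z₀) = z₀ := it_back hn h0 i
  have hcont' := hcont.tendsto
  simp only [h3] at hcont'
  have h4 : ∀ᶠ p : ℂ × ℂ in 𝓝 (L, it (c L) i z₀), ∀ z ∈ Z p.1, ∀ i, it (c p.1) i z ∈ Z p.1 :=
    (continuousAt_fst (p := ((L, it (c L) i z₀) : ℂ × ℂ))).tendsto.eventually hcl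
  filter_upwards [hcont'.eventually hZ, h4] with p hp hp4 hper
  have h5 : it (c p.1) j p.2 ∈ Z p.1 := hp (Per_it hper j)
  have h6 : it (c p.1) i (it (c p.1) j p.2) = p.2 := by
    rw [it_comp]
    have h1 : i ≤ n * i := Nat.le_mul_of_pos_left i hn
    have h7 : i + j = 0 + n * i := by omega
    rw [h7, it_mul_per hper, it_zero]
  rw [← h6]
  exact hp4 _ h5 i

section

variable {D : Dat}

lemma Par_n_pos (h : D.Par) : 0 < D.n := Nat.mul_pos h.m_pos D.x.pos

lemma den_le_min (h : D.Par) : 1 / (D.x.den : ℝ) ≤ min (D.x : ℝ) (1 - D.x) := by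
  have hq : (0 : ℝ) < D.x.den := by exact_mod_cast D.x.pos
  have hx : (D.x : ℝ) = D.x.num / D.x.den := by
    have := Rat.num_div_den D.x
    exact_mod_cast this.symm
  have h1 : (1 : ℤ) ≤ D.x.num := Rat.num_pos.2 h.x_pos
  have h2 : D.x.num + 1 ≤ (D.x.den : ℤ) := by
    have h3 : (D.x.num : ℝ) / D.x.den < 1 := by
      rw [← hx]; exact_mod_cast h.x_lt
    rw [div_lt_one hq] at h3
    have h4 : D.x.num < (D.x.den : ℤ) := by exact_mod_cast h3
    omega
  refine le_min ?_ ?_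
  · rw [hx]
    have : (1 : ℝ) ≤ D.x.num := by exact_mod_cast h1
    gcongr
  · rw [hx, le_sub_iff_add_le, ← add_div, div_le_one hq]
    have : (D.x.num : ℝ) + 1 ≤ D.x.den := by exact_mod_cast h2
    linarith

lemma sR_pos (h : D.Par) : 0 < sR D.m D.x := by
  have h1 : (0 : ℝ) < D.m := by exact_mod_cast h.m_pos
  have hq : (0 : ℝ) < D.x.den := by exact_mod_cast D.x.pos
  unfold sR; positivity

lemma gR_ge (h : D.Par) : 1 / (4 * D.m * D.x.den ^ 2) ≤ gR D.m D.x := by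
  have h1 : (0 : ℝ) < D.m := by exact_mod_cast h.m_pos
  have hq : (0 : ℝ) < D.x.den := by exact_mod_cast D.x.pos
  have h2 := den_le_min h
  unfold gR
  have h3 : (1 / (D.x.den : ℝ)) ^ 2 ≤ (min (D.x : ℝ) (1 - D.x)) ^ 2 := by gcongr
  calc 1 / (4 * (D.m : ℝ) * D.x.den ^ 2) = 1 / 4 * (1 / (D.x.den : ℝ)) ^ 2 / D.m := by
        field_simp
    _ ≤ _ := by gcongr

lemma sR_le_gR (h : D.Par) : sR D.m D.x ≤ gR D.m D.x := by
  refine le_trans ?_ (gR_ge h)
  have h1 : (1 : ℝ) ≤ D.m := by exact_mod_cast h.m_pos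
  have hq : (1 : ℝ) ≤ D.x.den := by exact_mod_cast D.x.pos
  unfold sR
  apply one_div_le_one_div_of_le (by positivity)
  have h2 : (D.m : ℝ) ≤ D.m ^ 3 := by
    calc (D.m : ℝ) = D.m ^ 1 := (pow_one _).symm
      _ ≤ D.m ^ 3 := pow_le_pow_right₀ h1 (by norm_num)
  have h3 : (D.x.den : ℝ) ^ 2 ≤ D.x.den ^ 4 := pow_le_pow_right₀ hq (by norm_num)
  calc 4 * (D.m : ℝ) * D.x.den ^ 2 ≤ 16 * D.m ^ 3 * D.x.den ^ 4 := by gcongr; norm_num
    _ = _ := by ring

lemma U_sub_B (h : D.Par) : D.U ⊆ D.B := fun _ hL =>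
  ball_subset_ball (sR_le_gR h) hL.1

lemma isOpen_U : IsOpen D.U := isOpen_ball.sdiff isClosed_singleton

lemma isOpen_B : IsOpen D.B := isOpen_ball

lemma a_mem_B (h : D.Par) : D.a ∈ D.B := mem_ball_self ((sR_pos h).trans_le (sR_le_gR h))

lemma goodB (h : D.Par) : GoodDom D.m D.B := goodDom34 h.m_pos h.x_pos h.x_lt

lemma σ_contAt (h : D.Par) {L : ℂ} (hL : L ∈ D.B) : ContinuousAt D.σ L :=
  h.cont.continuousAt (isOpen_B.mem_nhds hL)

lemma c_contAt (h : D.Par) {L : ℂ} (hL : L ∈ D.B) : ContinuousAt D.c L :=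
  continuous_fst.continuousAt.comp (σ_contAt h hL)

lemma b_contAt (h : D.Par) {L : ℂ} (hL : L ∈ D.B) : ContinuousAt D.b L :=
  continuous_snd.continuousAt.comp (σ_contAt h hL)

/-- the parameter is a local homeomorphism -/
lemma c_map_nhds (h : D.Par) {L : ℂ} (hL : L ∈ D.B) : map D.c (𝓝 L) = 𝓝 (D.c L) :=
  (section_strict (goodB h) h.cont h.sec hL).map_nhds_eq
    (section_deriv_ne_zero (goodB h) h.cont h.sec hL)

/-- exterior parameters have `Re L > 0` -/
lemma re_pos_of_ext (h : D.Par) {L : ℂ} (hL : L ∈ D.B) (hM : D.c L ∉ MM) : 0 < L.re := by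
  obtain ⟨h1, h2⟩ := h.sec L hL
  have h3 := rep13 h.m_pos h1 hM
  rw [h2, Complex.norm_exp] at h3
  exact (Real.one_lt_exp_iff).1 h3

/-- the angle is unique -/
lemma Th_unique (hP : D.Par) {L θ θ'} (h : D.Th L θ) (h' : D.Th L θ') : θ = θ' := by
  obtain ⟨m, hm, he⟩ := extP_unique h.1 h'.1
  have h0 := he 0
  rw [sub_self, zero_sub, even_neg] at h0
  obtain ⟨j, hj⟩ := h0
  have h1 : θ' = θ + 2 * (j : ℤ) := by rw [hm, hj]; push_cast; ring
  have h2 : Circ.nu D.w D.m θ' = Circ.nu D.w D.m θ + D.m * j := by rw [h1, nu_add_even]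
  have h3 := h.2
  have h4 := h'.2
  rw [h2] at h4
  have hm1 : (1 : ℝ) ≤ D.m := by exact_mod_cast hP.m_pos
  have h5 : |(D.m : ℝ) * j| < 1 := by
    rw [abs_lt]; constructor <;> linarith [h3.1, h3.2, h4.1, h4.2]
  have h6 : j = 0 := by
    by_contra h7
    have h8 : (1 : ℝ) ≤ |(j : ℝ)| := by
      have := Int.one_le_abs h7
      exact_mod_cast this
    rw [abs_mul, abs_of_pos (by linarith : (0 : ℝ) < D.m)] at h5
    nlinarith
  rw [h1, h6]; simp

/-- the angle is continuous -/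
lemma Th_nhds (hP : D.Par) {L θ} (hL : L ∈ D.B) (h : D.Th L θ) {ε : ℝ} (hε : 0 < ε) :
    ∀ᶠ L' in 𝓝 L, ∃ θ', |θ' - θ| < ε ∧ D.Th L' θ' := by
  have h1 : ∀ᶠ θ' in 𝓝 θ, (D.k₀ : ℝ) < Circ.nu D.w D.m θ' ∧ Circ.nu D.w D.m θ' < D.k₀ + 1 := by
    have hc := (Circ.nu_continuous D.w D.m).continuousAt (x := θ)
    exact (hc.eventually (lt_mem_nhds h.2.1)).and (hc.eventually (gt_mem_nhds h.2.2))
  obtain ⟨δ, hδ, hδ2⟩ := Metric.eventually_nhds_iff.1 h1
  have h2 := extP_nhds hP.m_pos h.1 (lt_min hε hδ)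
  have h3 : Tendsto (fun L' => ((D.c L', D.b L') : ℂ × ℂ)) (𝓝 L) (𝓝 (D.c L, D.b L)) :=
    (c_contAt hP hL).prodMk (b_contAt hP hL)
  filter_upwards [h3.eventually h2, isOpen_B.mem_nhds hL] with L' h4 h5
  obtain ⟨θ', h6, h7⟩ := h4 (hP.sec L' h5).1
  refine ⟨θ', h6.trans_le (min_le_left _ _), h7, ?_⟩
  exact hδ2 (by rw [Real.dist_eq]; exact h6.trans_le (min_le_right _ _))

lemma Th_ext {L θ} (h : D.Th L θ) : D.c L ∉ MM := not_mem_MM_iff.2 h.1.1

lemma isOpen_RE (hP : D.Par) : IsOpen D.RE := by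
  rw [isOpen_iff_mem_nhds]
  rintro L ⟨h1, h2⟩
  have h3 := c_contAt hP (U_sub_B hP h1)
  filter_upwards [isOpen_U.mem_nhds h1, h3.eventually (isOpen_compl_MM.mem_nhds h2)] with L' h4 h5
  exact ⟨h4, h5⟩

lemma RI_th {L θ} (h : L ∈ D.RI) (hT : D.Th L θ) (hP : D.Par) : D.tm < θ ∧ θ < D.tp := by
  rcases h.2.2 with ⟨θ', h1, h2⟩ | ⟨h1, -⟩
  · rwa [Th_unique hP hT h1]
  · exact absurd h1 (Th_ext hT)

/-- the point with the word `u` -/
lemma exists_u (hP : D.Par) (hC : D.Cir) {L θ} (h : D.Th L θ) :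
    ∃ z, ExtP D.n (D.c L) z θ D.u :=
  exists_extP (Par_n_pos hP) h.1.ang hC.ubits

lemma ZE_iff (hP : D.Par) {L θ z₀} (h : D.Th L θ) (hz : ExtP D.n (D.c L) z₀ θ D.u) (z : ℂ) :
    z ∈ D.ZE L ↔ ∃ i, z = it (D.c L) i z₀ := by
  constructor
  · rintro ⟨θ', h1, z₁, h2, i, h3⟩
    have h4 := Th_unique hP h h1
    subst h4
    have h5 := extP_inj (Par_n_pos hP) hz h2
    subst h5
    exact ⟨i, h3⟩
  · rintro ⟨i, h3⟩
    exact ⟨θ, h, z₀, hz, i, h3⟩

/-- near an exterior pair with the word `u` all pairs have the word `u` (for the right angle) -/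
lemma u_nhds (hP : D.Par) {v : ℕ → ℤ} {L θ z} (hL : L ∈ D.B) (h : D.Th L θ)
    (hz : ExtP D.n (D.c L) z θ v) : ∀ᶠ p : ℂ × ℂ in 𝓝 (L, z), (D.c p.1, p.2) ∈ Per D.n →
      ∃ θ', D.Th p.1 θ' ∧ ExtP D.n (D.c p.1) p.2 θ' v := by
  have h1 := extP_nhds (Par_n_pos hP) hz (by norm_num : (0 : ℝ) < 1 / 4)
  have h2 := Th_nhds hP hL h (by norm_num : (0 : ℝ) < 1 / 4)
  have h3 : Tendsto (fun p : ℂ × ℂ => ((D.c p.1, p.2) : ℂ × ℂ)) (𝓝 (L, z)) (𝓝 (D.c L, z)) := by
    refine Tendsto.prodMk_nhds ?_ continuousAt_snd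
    exact (c_contAt hP hL).tendsto.comp continuousAt_fst
  filter_upwards [h3.eventually h1, continuousAt_fst.eventually h2] with p h4 h5 h6
  obtain ⟨θ₁, h7, h8⟩ := h4 h6
  obtain ⟨θ₂, h9, h10⟩ := h5
  obtain ⟨m, hm⟩ := h8.ang.unique h10.1.ang
  have h11 : |(m : ℝ)| < 1 := by
    have : (m : ℝ) = (θ₂ - θ) - (θ₁ - θ) := by rw [hm]; ring
    rw [this]
    calc |(θ₂ - θ) - (θ₁ - θ)| ≤ |θ₂ - θ| + |θ₁ - θ| := abs_sub _ _
      _ < 1 := by linarith
  have h12 : m = 0 := by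
    have h13 : |m| < 1 := by exact_mod_cast h11
    exact Int.abs_lt_one_iff.1 h13
  rw [h12] at hm
  simp only [Int.cast_zero, add_zero] at hm
  exact ⟨θ₂, h10, by rw [hm]; exact h8⟩

/-- **the exterior part** -/
theorem cycE (hP : D.Par) (hC : D.Cir) : CycFam D.n D.c D.RE D.ZE where
  ne := by
    rintro L ⟨h1, h2⟩
    obtain ⟨θ, h3⟩ := hP.ang L (U_sub_B hP h1) h2
    obtain ⟨z, hz⟩ := exists_u hP hC h3
    exact ⟨z, θ, h3, z, hz, 0, rfl⟩
  fix := by
    rintro L ⟨h1, h2⟩ z ⟨θ, h3, z₀, h4, i, rfl⟩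
    have h5 : (D.c L, z₀) ∈ Per D.n := h4.2.2.1
    refine ⟨Per_it h5 i, ?_⟩
    rw [mul_it' h5 i]
    intro h6
    have h7 := rep13 (Par_n_pos hP) h5 h2
    rw [h6] at h7
    simp at h7
  cyc := by
    rintro L ⟨h1, h2⟩ z ⟨θ, h3, z₀, h4, i, rfl⟩ z'
    have h5 : it (D.c L) D.n z₀ = z₀ := h4.2.2.1
    rw [ZE_iff hP h3 h4]
    constructor
    · rintro ⟨j, rfl⟩
      refine ⟨D.n * i - i + j, ?_⟩
      rw [add_comm, it_add, it_back (Par_n_pos hP) h5 i]
    · rintro ⟨j, rfl⟩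
      exact ⟨j + i, it_comp _ _ _ _⟩
  cont := by
    rintro L ⟨h1, h2⟩ z ⟨θ, h3, z₀, h4, i, rfl⟩
    have hB := U_sub_B hP h1
    refine cont_of_branch (Par_n_pos hP) i (c_contAt hP hB) h4.2.2.1 ?_ ?_
    · filter_upwards [u_nhds hP hB h3 h4] with p h5 h6
      obtain ⟨θ', h7, h8⟩ := h5 h6
      exact ⟨θ', h7, p.2, h8, 0, rfl⟩
    · refine Eventually.of_forall ?_
      rintro L' z ⟨θ', h5, z₁, h6, j, rfl⟩ l
      exact ⟨θ', h5, z₁, h6, l + j, it_comp _ _ _ _⟩

/-! ### the label of the child -/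

lemma J_eq (hC : D.Cir) {θ : ℝ} (h1 : D.tm < θ) (h2 : θ < D.tp) : lab D.n θ D.u = D.J := by
  unfold Dat.J
  refine lab_of_strip hC.ubits ?_
  have h3 : D.tm < (D.tm + D.tp) / 2 := by linarith [hC.lt]
  have h4 : (D.tm + D.tp) / 2 < D.tp := by linarith [hC.lt]
  intro t ht k' hk
  have h5 : D.tm < t := (lt_min h3 h1).trans_le ht.1
  have h6 : t < D.tp := ht.2.trans_lt (max_lt h4 h2)
  obtain ⟨h7, h8⟩ := hC.nu_in t h5 h6
  rw [hk] at h7 h8
  have h9 : D.k < k' := by exact_mod_cast h7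
  have h10 : k' < D.k + 1 := by exact_mod_cast h8
  omega

lemma nu_ne_int (hC : D.Cir) {θ : ℝ} (h1 : D.tm < θ) (h2 : θ < D.tp) (k' : ℤ) :
    Circ.nu D.u D.n θ ≠ k' := by
  intro hk
  obtain ⟨h7, h8⟩ := hC.nu_in θ h1 h2
  rw [hk] at h7 h8
  have h9 : D.k < k' := by exact_mod_cast h7
  have h10 : k' < D.k + 1 := by exact_mod_cast h8
  omega

/-- exterior pairs in the wake with the word `u` are in `NJ` -/
lemma nj_of_ext (hP : D.Par) (hC : D.Cir) {L θ z} (hL : L ∈ D.RI) (h : D.Th L θ)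
    (hz : ExtP D.n (D.c L) z θ D.u) : (D.c L, z) ∈ NJ D.n D.J := by
  obtain ⟨h1, h2⟩ := RI_th hL h hP
  have h3 : (D.c L, z) ∈ Per D.n := hz.2.2.1
  refine ⟨h3, rep13 (Par_n_pos hP) h3 (Th_ext h), nonInt_ext hz (nu_ne_int hC h1 h2), ?_⟩
  rw [FF_ext hz]
  exact J_eq hC h1 h2

/-- **limit lemma**, exterior parameters: over the wake a limit of `NJ` has the word `u` -/
lemma closure_nj_ext (h2 : S2_unique) (hP : D.Par) (hC : D.Cir) (hR : Regions D) {L θ z}
    (hL : L ∈ D.RI) (h : D.Th L θ) (hz : (D.c L, z) ∈ Per D.n)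
    (hcl : (D.c L, z) ∈ closure (NJ D.n D.J)) : ExtP D.n (D.c L) z θ D.u := by
  have hB := U_sub_B hP hL.1
  obtain ⟨v, hv⟩ := exists_extP_word (Par_n_pos hP) h.1.ang hz
  -- near `L` everything has the word `v`
  have h3 := u_nhds hP hB h hv
  -- transport to a neighbourhood of `(c L, z)`
  have h4 : ∃ᶠ y in 𝓝 (D.c L, z), y ∈ NJ D.n D.J := mem_closure_iff_frequently.1 hcl
  obtain ⟨V₁, hV₁, V₂, hV₂, hV⟩ := (mem_nhds_prod_iff.1 h3)
  have h5 : D.c '' (V₁ ∩ D.RI) ∈ 𝓝 (D.c L) := by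
    rw [← c_map_nhds hP hB]
    exact image_mem_map (inter_mem hV₁ (hR.openI.mem_nhds hL))
  have h6 : (D.c '' (V₁ ∩ D.RI)) ×ˢ V₂ ∈ 𝓝 (D.c L, z) := prod_mem_nhds h5 hV₂
  have h7 : ∀ᶠ y : ℂ × ℂ in 𝓝 (D.c L, z), y.1 ∉ MM :=
    (continuousAt_fst (p := ((D.c L, z) : ℂ × ℂ))).tendsto.eventually
      (isOpen_compl_MM.mem_nhds (Th_ext h))
  have h6' : ∀ᶠ y : ℂ × ℂ in 𝓝 (D.c L, z), y ∈ (D.c '' (V₁ ∩ D.RI)) ×ˢ V₂ := h6
  obtain ⟨y, hy, ⟨⟨L', ⟨hL'V, hL'I⟩, hL'y⟩, hyV⟩, hyM⟩ := (h4.and_eventually (h6'.and h7)).exists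
  obtain ⟨y1, y2⟩ := y
  simp only at hL'y hyV hyM
  subst hL'y
  obtain ⟨θ', h8, h9⟩ := hV (show (L', y2) ∈ V₁ ×ˢ V₂ from ⟨hL'V, hyV⟩) hy.1
  obtain ⟨z', hz'⟩ := exists_u hP hC h8
  have h10 := nj_of_ext hP hC hL'I h8 hz'
  have h11 : y2 = z' := h2 D.n (D.c L') y2 z' (Par_n_pos hP) hyM hy.1 hz'.2.2.1 hy.2.2.1
    h10.2.2.1 (by rw [hy.2.2.2, h10.2.2.2])
  subst h11
  obtain ⟨m, hm, he⟩ := extP_unique h9 hz'
  have hm0 : m = 0 := by
    have : (m : ℝ) = 0 := by linarith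
    exact_mod_cast this
  have h12 : v = D.u := by
    funext i
    have h13 := he i
    rw [hm0, sub_zero] at h13
    rcases hC.ubits.bit i with h14 | h14 <;> rcases h9.2.2.2.1.bit i with h15 | h15 <;>
      rw [h14, h15] at h13 ⊢ <;> simp at h13
  rw [← h12]; exact hv

end

end Pool.Agent.Work.MLC.Sat
end

section
set_option autoImplicit false

/-! # Theorem S, module S17: limb data of the child (helper6) -/

namespace Pool.Agent.Work.MLC.Sat

open Filter Topology Metric Set Complex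

lemma cR_pos {n : ℕ} (hn : 0 < n) : 0 < cR n := by
  have : (0 : ℝ) < n := by exact_mod_cast hn
  unfold cR; positivity

section

variable {D : Dat} {Z : ℂ → Set ℂ} {e : ℂ → ℂ}

lemma e_mem_U (hP : D.Par) (hch : Child D Z e) {ℓ : ℂ} (hℓ : ℓ ∈ ball (0 : ℂ) (cR D.n))
    (h0 : ℓ ≠ 0) : e ℓ ∈ D.U := by
  refine ⟨(hch.maps ℓ hℓ).1, fun h => h0 ?_⟩
  have h1 : e ℓ = e 0 := by rw [hch.zero]; exact h
  exact hch.inj hℓ (mem_ball_self (cR_pos (Par_n_pos hP))) h1

end

end Pool.Agent.Work.MLC.Sat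
end

section
set_option autoImplicit false

/-! # S7 of the satellite project (helper49) -/

namespace Pool.Agent.Work.MLC

/-- at most one attracting cycle -/
theorem s7_fatou : Sat.S7_fatou := fun c x y n k hn hk hx hxm hy hym =>
  fatou c x y n k hn hk hx hxm hy hym

end Pool.Agent.Work.MLC
end

section
set_option autoImplicit false

/-! # The multiplier map of a hyperbolic component is injective (helper51) -/

namespace Pool.Agent.Work.MLC.Hyp

open Filter Topology Metric Set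

/-- the multiplier of a multiple of the period -/
lemma mul_mul {g k : ℕ} {x : ℂ × ℂ} (hx : x ∈ Per g) : mul (g * k) x = mul g x ^ k := by
  have h1 : HasDerivAt (it x.1 g) (mul g x) x.2 := hasDerivAt_it x.1 g x.2
  have h2 := HasDerivAt.iterate _ h1 hx k
  have h3 : (it x.1 g)^[k] = it x.1 (g * k) := by
    unfold it
    rw [← Function.iterate_mul]
  rw [h3] at h2
  exact (hasDerivAt_it x.1 (g * k) x.2).unique h2

/-- near a pair with multiplier different from `1` the periods do not change -/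
theorem per_nhds {n : ℕ} {x₀ : ℂ × ℂ} (hx : x₀ ∈ Per n) (hm : mul n x₀ ≠ 1) (d : ℕ) :
    ∀ᶠ x in 𝓝 x₀, x ∈ Per n → (it x.1 d x.2 = x.2 ↔ it x₀.1 d x₀.2 = x₀.2) := by
  by_cases hd : it x₀.1 d x₀.2 = x₀.2
  · -- the common period
    set g := Nat.gcd d n with hg
    have hper : x₀ ∈ Per g := by
      have h1 : Function.IsPeriodicPt (f x₀.1) d x₀.2 := hd
      have h2 : Function.IsPeriodicPt (f x₀.1) n x₀.2 := hx
      exact h1.gcd h2
    obtain ⟨k, hk⟩ : g ∣ n := Nat.gcd_dvd_right d n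
    obtain ⟨l, hl⟩ : g ∣ d := Nat.gcd_dvd_left d n
    have hmg : mul g x₀ ≠ 1 := by
      intro h
      apply hm
      rw [hk, mul_mul hper, h, one_pow]
    obtain ⟨β, hβ, hβ0, hβe⟩ := chart hx hm
    obtain ⟨γ, hγ, hγ0, hγe⟩ := chart hper hmg
    have ht := chart_tendsto (x₀ := x₀) hγ hγ0
    have h1 : ∀ᶠ c in 𝓝 x₀.1, γ c = β c ∧ (c, γ c) ∈ Per g := by
      filter_upwards [ht.eventually hγe, ht.eventually hβe] with c h2 h3
      have h4 : (c, γ c) ∈ Per g := h2.2 rfl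
      have h5 : (c, γ c) ∈ Per n := by
        have h6 : Function.IsPeriodicPt (f c) g (γ c) := h4
        have h7 : Function.IsPeriodicPt (f c) n (γ c) := h6.trans_dvd ⟨k, hk⟩
        exact h7
      exact ⟨(h3.1 h5).symm, h4⟩
    filter_upwards [continuous_fst.continuousAt.eventually h1, hβe] with x h2 h3 h4
    refine ⟨fun _ => hd, fun _ => ?_⟩
    have h5 : β x.1 = x.2 := h3.1 h4
    have h6 : (x.1, x.2) ∈ Per g := by
      rw [← h5, ← h2.1]; exact h2.2
    have h7 : Function.IsPeriodicPt (f x.1) g x.2 := h6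
    have h8 : Function.IsPeriodicPt (f x.1) d x.2 := h7.trans_dvd ⟨l, hl⟩
    exact h8
  · have h1 : ∀ᶠ x : ℂ × ℂ in 𝓝 x₀, it x.1 d x.2 ≠ x.2 :=
      (isOpen_ne_fun (continuous_it d) continuous_snd).mem_nhds hd
    filter_upwards [h1] with x h2 _
    exact ⟨fun h => absurd h h2, fun h => absurd h hd⟩

/-- attracting pairs of exact period `n` -/
def Att (n : ℕ) : Set (ℂ × ℂ) :=
  {x | x ∈ Per n ∧ (∀ d, 0 < d → d < n → it x.1 d x.2 ≠ x.2) ∧ ‖mul n x‖ < 1}

lemma mem_Att_iff {n : ℕ} (hn : 0 < n) {x : ℂ × ℂ} :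
    x ∈ Att n ↔ PerN n x.1 x.2 ∧ ‖mult n x.1 x.2‖ < 1 := by
  constructor
  · rintro ⟨h1, h2, h3⟩
    refine ⟨⟨hn, ?_⟩, h3⟩
    have h4 : Function.IsPeriodicPt (f x.1) n x.2 := h1
    have h5 := h4.minimalPeriod_le hn
    rcases h5.lt_or_eq with h | h
    · exfalso
      exact h2 _ (h4.minimalPeriod_pos hn) h (Function.isPeriodicPt_minimalPeriod (f x.1) x.2)
    · exact h
  · rintro ⟨⟨h1, h2⟩, h3⟩
    refine ⟨?_, ?_, h3⟩
    · have h4 := Function.isPeriodicPt_minimalPeriod (f x.1) x.2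
      rw [h2] at h4
      exact h4
    · intro d hd hdn h4
      have h5 : Function.IsPeriodicPt (f x.1) d x.2 := h4
      have := h5.minimalPeriod_le hd
      omega

lemma Att.ne_one {n : ℕ} {x : ℂ × ℂ} (h : x ∈ Att n) : mul n x ≠ 1 := by
  intro h1
  have := h.2.2
  rw [h1, norm_one] at this
  exact lt_irrefl _ this

lemma Att.lt {n : ℕ} {x : ℂ × ℂ} (h : x ∈ Att n) : ‖mul n x‖ < 23 / 10 := by
  have := h.2.2; linarith

/-- exactness is locally constant -/
lemma exact_nhds {n : ℕ} {x₀ : ℂ × ℂ} (hx : x₀ ∈ Per n) (hm : mul n x₀ ≠ 1) :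
    ∀ᶠ x in 𝓝 x₀, x ∈ Per n → ((∀ d, 0 < d → d < n → it x.1 d x.2 ≠ x.2) ↔
      ∀ d, 0 < d → d < n → it x₀.1 d x₀.2 ≠ x₀.2) := by
  have h1 : ∀ᶠ x in 𝓝 x₀, ∀ d ∈ Finset.range n, x ∈ Per n →
      (it x.1 d x.2 = x.2 ↔ it x₀.1 d x₀.2 = x₀.2) := by
    rw [Filter.eventually_all_finset]
    intro d _
    exact per_nhds hx hm d
  filter_upwards [h1] with x h2 h3
  constructor
  · intro h4 d hd hdn h5
    exact h4 d hd hdn ((h2 d (Finset.mem_range.2 hdn) h3).2 h5)
  · intro h4 d hd hdn h5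
    exact h4 d hd hdn ((h2 d (Finset.mem_range.2 hdn) h3).1 h5)

/-- attracting pairs form an open subset of the curve -/
lemma att_nhds {n : ℕ} {x₀ : ℂ × ℂ} (hx : x₀ ∈ Att n) :
    ∀ᶠ x in 𝓝 x₀, x ∈ Per n → x ∈ Att n := by
  have h2 : ∀ᶠ x in 𝓝 x₀, ‖mul n x‖ < 1 :=
    ((continuous_mul' n).norm.continuousAt).eventually_lt continuousAt_const hx.2.2
  filter_upwards [exact_nhds hx.1 (Att.ne_one hx), h2] with x h3 h4 h5
  exact ⟨h5, (h3 h5).2 hx.2.1, h4⟩

/-- local injectivity at all attracting pairs of exact period `n` -/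
lemma Att.locInj {n : ℕ} (hn : 0 < n) {x : ℂ × ℂ} (h : x ∈ Att n) : LocInj n x := by
  by_cases h0 : mul n x = 0
  · exact locInj_center hn h.1 h.2.1 h0
  · exact locInj_of_le hn h.1 (Att.ne_one h) h0 h.2.2.le

/-- the projection to the disc of multipliers -/
noncomputable def pr (n : ℕ) (p : Att n) : ball (0 : ℂ) 1 := ⟨mul n p.1, by
  rw [mem_ball_zero_iff]; exact p.2.2.2⟩

lemma continuous_pr (n : ℕ) : Continuous (pr n) :=
  ((continuous_mul' n).comp continuous_subtype_val).subtype_mk _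

lemma pr_isOpenMap {n : ℕ} (hn : 0 < n) : IsOpenMap (pr n) := by
  rw [isOpenMap_iff_nhds_le]
  intro p U hU
  rw [mem_map] at hU
  have hU' := hU
  rw [nhds_subtype_eq_comap, mem_comap] at hU'
  obtain ⟨V, hV, hVU⟩ := hU'
  obtain ⟨x₀, hx₀⟩ := p
  simp only at hV
  have h1 := mul_open hn hx₀.1 (Att.ne_one hx₀) (Att.lt hx₀) (inter_mem hV (att_nhds hx₀))
  have ht : Tendsto (fun L : ball (0 : ℂ) 1 => (L : ℂ)) (𝓝 (pr n ⟨x₀, hx₀⟩)) (𝓝 (mul n x₀)) :=
    continuous_subtype_val.tendsto' _ _ rfl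
  filter_upwards [ht.eventually h1] with L hL
  obtain ⟨x, ⟨⟨hxV, hxA⟩, hxP⟩, hx⟩ := hL
  have h4 : (⟨x, hxA hxP⟩ : Att n) ∈ (pr n) ⁻¹' U := hVU hxV
  have h5 : pr n ⟨x, hxA hxP⟩ = L := Subtype.ext hx
  rw [mem_preimage, h5] at h4
  exact h4

lemma pr_locInj {n : ℕ} (hn : 0 < n) (p : Att n) :
    ∃ U ∈ 𝓝 p, IsOpen U ∧ InjOn (pr n) U := by
  obtain ⟨x₀, hx₀⟩ := p
  obtain ⟨N, hN, hi⟩ := Att.locInj hn hx₀
  obtain ⟨N', hN', hN'o, hx₀N⟩ := _root_.mem_nhds_iff.1 hN
  have hc : Continuous fun q : Att n => q.1 := continuous_subtype_val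
  refine ⟨{q | q.1 ∈ N'}, (hN'o.preimage hc).mem_nhds hx₀N, hN'o.preimage hc, ?_⟩
  rintro ⟨x, hx⟩ hxN ⟨x', hx'⟩ hxN' heq
  simp only [pr, Subtype.mk.injEq] at heq
  exact Subtype.ext (hi ⟨hN' hxN, hx.1⟩ ⟨hN' hxN', hx'.1⟩ heq)

lemma pr_isLocalHomeomorph {n : ℕ} (hn : 0 < n) : IsLocalHomeomorph (pr n) := by
  rw [isLocalHomeomorph_iff_isOpenEmbedding_restrict]
  intro p
  obtain ⟨U, hU, hUo, hi⟩ := pr_locInj hn p
  refine ⟨U, hU, ?_⟩
  refine Topology.IsOpenEmbedding.of_continuous_injective_isOpenMap ?_ hi.injective ?_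
  · exact (continuous_pr n).comp continuous_subtype_val
  · exact (pr_isOpenMap hn).domRestrict hUo

lemma pr_isProperMap {n : ℕ} (hn : 0 < n) : IsProperMap (pr n) := by
  have : LocallyCompactSpace (ball (0 : ℂ) 1) := isOpen_ball.locallyCompactSpace
  rw [isProperMap_iff_isCompact_preimage]
  refine ⟨continuous_pr n, fun K hK => ?_⟩
  rw [Topology.IsEmbedding.subtypeVal.isCompact_iff]
  have hKc : IsCompact ((fun L : ball (0 : ℂ) 1 => (L : ℂ)) '' K) :=
    hK.image continuous_subtype_val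
  have hKlt : ∀ L ∈ ((fun L : ball (0 : ℂ) 1 => (L : ℂ)) '' K), ‖L‖ < 1 := by
    rintro _ ⟨L, -, rfl⟩
    exact mem_ball_zero_iff.1 L.2
  have h1 : IsCompact (Per n ∩ mul n ⁻¹' ((fun L : ball (0 : ℂ) 1 => (L : ℂ)) '' K)) := by
    refine isCompact_Per hn hKc.isClosed ?_
    intro L hL
    have := hKlt L hL
    linarith
  refine h1.of_isClosed_subset ?_ ?_
  · refine isClosed_of_closure_subset ?_
    intro x₀ hx₀
    have hcl : x₀ ∈ Per n ∩ mul n ⁻¹' ((fun L : ball (0 : ℂ) 1 => (L : ℂ)) '' K) := by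
      refine h1.isClosed.closure_subset_iff.2 ?_ hx₀
      rintro _ ⟨⟨x, hx⟩, hxK, rfl⟩
      exact ⟨hx.1, ⟨pr n ⟨x, hx⟩, hxK, rfl⟩⟩
    have hlt := hKlt _ hcl.2
    have hne : mul n x₀ ≠ 1 := by
      intro h; rw [h, norm_one] at hlt; exact lt_irrefl _ hlt
    obtain ⟨x, h2, h3⟩ := mem_closure_iff_nhds.1 hx₀ _ (exact_nhds hcl.1 hne)
    obtain ⟨⟨y, hy⟩, hyK, rfl⟩ := h3
    have h4 := (h2 hy.1).1 hy.2.1
    have hx₀A : x₀ ∈ Att n := ⟨hcl.1, h4, hlt⟩
    obtain ⟨L, hL, hL2⟩ := hcl.2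
    refine ⟨⟨x₀, hx₀A⟩, ?_, rfl⟩
    have h5 : pr n ⟨x₀, hx₀A⟩ = L := Subtype.ext hL2.symm
    rw [mem_preimage, h5]
    exact hL
  · rintro _ ⟨⟨x, hx⟩, hxK, rfl⟩
    exact ⟨hx.1, ⟨pr n ⟨x, hx⟩, hxK, rfl⟩⟩

theorem pr_isCoveringMap {n : ℕ} (hn : 0 < n) : IsCoveringMap (pr n) := by
  rw [isCoveringMap_iff_isCoveringMapOn_univ]
  have hl := pr_isLocalHomeomorph hn
  have hp := pr_isProperMap hn
  refine IsClosedMap.isCoveringMapOn_of_isLocalHomeomorphOn hp.isClosedMap ?_ ?_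
  · intro L _
    have hc : IsCompact (pr n ⁻¹' {L}) := hp.isCompact_preimage isCompact_singleton
    refine hc.finite (.of_openPartialHomeomorph (pr n) subset_rfl fun e _ => ?_)
    obtain ⟨φ, h1, h2⟩ := hl e
    exact ⟨φ, h1, h2.symm⟩
  · rw [preimage_univ, ← isLocalHomeomorph_iff_isLocalHomeomorphOn_univ]
    exact hl

/-- **the inverse of the multiplier map** through an attracting pair of exact period `n` -/
theorem exists_sec {n : ℕ} (hn : 0 < n) {x₀ : ℂ × ℂ} (hx₀ : x₀ ∈ Att n) :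
    ∃ s : ℂ → ℂ × ℂ, ContinuousOn s (ball 0 1) ∧ (∀ l ∈ ball (0 : ℂ) 1, s l ∈ Att n ∧
      mul n (s l) = l) ∧ s (mul n x₀) = x₀ := by
  have : ContractibleSpace (ball (0 : ℂ) 1) :=
    (convex_ball (0 : ℂ) 1).contractibleSpace ⟨0, mem_ball_self one_pos⟩
  have : LocallyPathConnectedSpace (ball (0 : ℂ) 1) := isOpen_ball.locallyPathConnectedSpace
  have hl₀ : mul n x₀ ∈ ball (0 : ℂ) 1 := mem_ball_zero_iff.2 hx₀.2.2
  obtain ⟨F, ⟨hF0, hF⟩, -⟩ := (pr_isCoveringMap hn).existsUnique_continuousMap_lifts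
    (ContinuousMap.id (ball (0 : ℂ) 1)) ⟨mul n x₀, hl₀⟩ ⟨x₀, hx₀⟩ rfl
  classical
  refine ⟨fun L => if hL : L ∈ ball (0 : ℂ) 1 then (F ⟨L, hL⟩).1 else x₀, ?_, ?_, ?_⟩
  · rw [continuousOn_iff_continuous_domRestrict]
    have h1 : (ball (0 : ℂ) 1).domRestrict
        (fun L => if hL : L ∈ ball (0 : ℂ) 1 then (F ⟨L, hL⟩).1 else x₀) =
        fun L : ball (0 : ℂ) 1 => (F L).1 := by
      funext L
      simp [domRestrict, L.2]
    rw [h1]
    exact continuous_subtype_val.comp F.continuous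
  · intro L hL
    have h1 : pr n (F ⟨L, hL⟩) = ⟨L, hL⟩ := congrFun hF ⟨L, hL⟩
    have h2 : mul n (F ⟨L, hL⟩).1 = L := congrArg Subtype.val h1
    simp only [hL, dif_pos]
    exact ⟨(F ⟨L, hL⟩).2, h2⟩
  · simp only [hl₀, dif_pos, hF0]

/-- parameters with an attracting cycle of exact period `n` -/
def AA (n : ℕ) : Set ℂ := {c | ∃ b, PerN n c b ∧ ‖mult n c b‖ < 1}

end Pool.Agent.Work.MLC.Hyp
end

section
/-!
Arithmetic of the cut values for the all-component theorem: next to a fraction P/Q with Q at most N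
there are dyadic rationals of exact denominator 2^k on both sides, at distance at least 1/(4 N^2)
from every fraction of denominator at most N.
-/

namespace Pool.Agent.Work.MLC.Pri

/-- an odd numerator over 2^k in every interval of length 2/2^k -/
theorem exists_odd49 (k : ℕ) {a : ℝ} : ∃ m : ℤ, Odd m ∧ a < (m : ℝ) / 2 ^ k ∧
    (m : ℝ) / 2 ^ k ≤ a + 2 / 2 ^ k := by
  have h2 : (0 : ℝ) < 2 ^ k := by positivity
  obtain ⟨j, hj1, hj2⟩ : ∃ j : ℤ, a * 2 ^ k < 2 * (j : ℝ) + 1 ∧ 2 * (j : ℝ) + 1 ≤ a * 2 ^ k + 2 := by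
    refine ⟨⌊(a * 2 ^ k - 1) / 2⌋ + 1, ?_, ?_⟩
    · push_cast
      have := Int.lt_floor_add_one ((a * 2 ^ k - 1) / 2)
      linarith
    · push_cast
      have := Int.floor_le ((a * 2 ^ k - 1) / 2)
      linarith
  refine ⟨2 * j + 1, ⟨j, rfl⟩, ?_, ?_⟩
  · rw [lt_div_iff₀ h2]; push_cast; linarith
  · rw [div_le_iff₀ h2]; push_cast
    have : (a + 2 / 2 ^ k) * 2 ^ k = a * 2 ^ k + 2 := by field_simp
    linarith

end Pool.Agent.Work.MLC.Pri
end

section
set_option autoImplicit false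

/-! # Theorem S, module S18: the limb bound for satellite components (helper6) -/

namespace Pool.Agent.Work.MLC.Sat

open Filter Topology Metric Set Complex

lemma perN_it {n : ℕ} {c b : ℂ} (h : PerN n c b) : it c n b = b := by
  have h1 := Function.iterate_minimalPeriod (f := f c) (x := b)
  rw [h.2] at h1
  exact h1

lemma perN_ne {n : ℕ} {c b : ℂ} (h : PerN n c b) {d : ℕ} (hd : 0 < d) (hdn : d < n) :
    it c d b ≠ b := by
  intro h1
  have h2 : Function.IsPeriodicPt (f c) d b := h1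
  have h3 := h2.minimalPeriod_le hd
  rw [h.2] at h3
  omega

end Pool.Agent.Work.MLC.Sat
end

section
set_option autoImplicit false

/-! # Limb pieces from limb data: size, smallness, canonical form (helper6) -/

namespace Pool.Agent.Work.MLC

open Filter Topology Metric Set

theorem norm_MS {c : ℂ} (hc : c ∈ MS) : ‖c‖ ≤ 4 := by
  have h1 := norm_it_le_of_G_zero (mem_M_iff.1 hc) 2
  have h2 : it c 2 0 = c ^ 2 + c := by
    rw [it_succ, it_one, f_apply, f_apply]; ring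
  rw [h2] at h1
  have h3 : ‖c‖ ^ 2 ≤ ‖c ^ 2 + c‖ + ‖c‖ := by
    rw [← norm_pow]
    calc ‖c ^ 2‖ = ‖(c ^ 2 + c) - c‖ := by ring_nf
      _ ≤ _ := norm_sub_le _ _
  nlinarith [norm_nonneg c]

namespace LimbData

variable {x : ℚ} {R A : ℝ} {g : ℂ → ℂ} {T : ℂ → ℚ → Prop}

/-- size of a limb piece -/
theorem size (h : LimbData MS x R A g T) (hadm : A / x.den < R)
    (hd : DifferentiableOn ℂ g (ball (axisPt x) R)) (h4 : ∀ ℓ ∈ ball (axisPt x) R, ‖g ℓ‖ ≤ 4) :
    K g T x ⊆ closedBall (g (axisPt x)) (9 * (A / x.den) / R) := by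
  rw [K_eq]
  rintro _ ⟨L, hLP, rfl⟩
  have h1 := h.P_sub x hLP
  have h2 : L ∈ ball (axisPt x) R := closedBall_subset_ball hadm h1
  have hcen : axisPt x ∈ ball (axisPt x) R := mem_ball_self h.R_pos
  have hmaps : MapsTo g (ball (axisPt x) R) (closedBall (g (axisPt x)) 9) := by
    intro L hL
    rw [mem_closedBall, dist_eq_norm]
    calc ‖g L - g (axisPt x)‖ ≤ ‖g L‖ + ‖g (axisPt x)‖ := norm_sub_le _ _
      _ ≤ 4 + 4 := add_le_add (h4 _ hL) (h4 _ hcen)
      _ ≤ 9 := by norm_num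
  have h3 := Complex.dist_le_div_mul_dist_of_mapsTo_ball hd hmaps h2
  rw [mem_closedBall] at h1 ⊢
  calc dist (g L) (g (axisPt x)) ≤ 9 / R * dist L (axisPt x) := h3
    _ ≤ 9 / R * (A / x.den) := by
        have := h.R_pos
        gcongr
    _ = 9 * (A / x.den) / R := by ring

/-- smallness of a limb piece which fills at most half of the disc, when the whole disc is mapped
close to `M` -/
theorem small (hcpt : IsCompact MS) {ε : ℝ} (hε : 0 < ε) : ∃ e > 0, ∀ (x : ℚ) (R A : ℝ)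
    (g : ℂ → ℂ) (T : ℂ → ℚ → Prop), LimbData MS x R A g T → 2 * (A / x.den) ≤ R →
    DifferentiableOn ℂ g (ball (axisPt x) R) → (∀ ℓ ∈ ball (axisPt x) R, ‖g ℓ‖ ≤ 4) →
    (∀ ℓ ∈ ball (axisPt x) R, G (g ℓ) (g ℓ) ≤ e) → K g T x ⊆ closedBall (g (axisPt x)) ε := by
  obtain ⟨e, he, hT⟩ := Thr.threshold 4 hε
  refine ⟨e, he, fun x R A g T h hAR hd h4 hG => ?_⟩
  have hR0 := h.R_pos
  set u : ℂ → ℂ := fun w => g (axisPt x + R * w) with hu
  have hmapsD : ∀ w ∈ ball (0 : ℂ) 1, axisPt x + R * w ∈ ball (axisPt x) R := by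
    intro w hw
    rw [mem_ball_zero_iff] at hw
    rw [mem_ball, dist_eq_norm, add_sub_cancel_left, norm_mul, Complex.norm_real,
      Real.norm_eq_abs, abs_of_pos hR0]
    nlinarith
  have hud : DifferentiableOn ℂ u (ball 0 1) := hd.comp (by fun_prop) hmapsD
  have hu0 : u 0 = g (axisPt x) := by simp only [hu, mul_zero, add_zero]
  have hfr : u 0 ∈ frontier MS := by
    rw [hu0]; exact h.root_frontier hcpt.isClosed
  have hfr' : u 0 ∈ closure (MS)ᶜ := by
    have h3 : u 0 ∈ frontier (MS)ᶜ := by rw [frontier_compl]; exact hfr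
    exact frontier_subset_closure h3
  have hfin := hT u hud (fun w hw => h4 _ (hmapsD w hw)) (fun w hw => hG _ (hmapsD w hw)) hfr'
  rw [LimbData.K_eq]
  rintro _ ⟨L, hLP, rfl⟩
  have h1 := h.P_sub x hLP
  rw [mem_closedBall, dist_eq_norm] at h1
  have h2 : ‖(L - axisPt x) / R‖ ≤ 1 / 2 := by
    rw [norm_div, Complex.norm_real, Real.norm_eq_abs, abs_of_pos hR0, div_le_iff₀ hR0]
    linarith
  have h3 := hfin _ (mem_closedBall_zero_iff.2 h2)
  have h5 : u ((L - axisPt x) / R) = g L := by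
    simp only [hu]
    have hRc : (R : ℂ) ≠ 0 := by exact_mod_cast hR0.ne'
    rw [mul_div_cancel₀ _ hRc, add_sub_cancel]
  rw [h5, hu0] at h3
  exact h3

/-- canonical form of a limb piece which does not contain `0` -/
theorem canon (h : LimbData MS x R A g T) (hI : Inputs (1 / 4)) (hadm : A / x.den < R)
    (h0K : (0 : ℂ) ∉ K g T x) :
    MS \ connectedComponentIn (MS \ {g (axisPt x)}) 0 = K g T x := by
  have hadm' : Adm x R A x := by
    unfold Adm
    rw [sub_self, abs_zero, mul_zero, add_zero]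
    exact hadm
  set r := g (axisPt x) with hr
  have hKM : K g T x ⊆ MS := h.K_sub hadm'
  have hKc : IsCompact (K g T x) := h.isCompact_K hI.cpt.isClosed hadm'
  have hrK : r ∈ K g T x := Or.inl rfl
  have hKo : ∀ z ∈ K g T x, z ≠ r → K g T x \ {r} ∈ 𝓝[MS] z :=
    fun z hz hzr => h.K_open hadm' hz hzr
  obtain ⟨W, ⟨v, hv⟩, hW⟩ := h.main hI.cpt hI.conn hadm'
  have h0M : (0 : ℂ) ∈ MS := ball_sub_MS (mem_ball_self (by norm_num))
  have h0r : (0 : ℂ) ∈ MS \ {r} := by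
    refine ⟨h0M, fun h3 => h0K ?_⟩
    have h4 : (0 : ℂ) = r := h3
    rw [h4]; exact hrK
  have hcompK : ∀ z ∈ connectedComponentIn (MS \ {r}) 0, z ∉ K g T x := by
    intro z hz hzK
    exact h0K (NV.conn_sub hI.cpt.isClosed hKc.isClosed hKo isPreconnected_connectedComponentIn
      (connectedComponentIn_subset _ _) ⟨z, hz, hzK⟩ (mem_connectedComponentIn h0r))
  have hMK : ∀ z ∈ MS, z ∉ K g T x → z ∈ connectedComponentIn (MS \ {r}) 0 := by
    intro z hz hzK
    have hzr : z ∈ MS \ {r} := ⟨hz, fun h1 => hzK (by rw [mem_singleton_iff.1 h1]; exact hrK)⟩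
    have h1 := connectedComponentIn_eq (hW z hz hzK hv)
    have h2 := connectedComponentIn_eq (hW 0 h0M h0K hv)
    rw [h2, ← h1]
    exact mem_connectedComponentIn hzr
  ext z
  constructor
  · rintro ⟨h1, h2⟩
    by_contra h3
    exact h2 (hMK z h1 h3)
  · intro h1
    exact ⟨hKM h1, fun h2 => hcompK z h2 h1⟩

/-- `0` is not in a limb piece over `Re L < log 2` -/
theorem zero_notMem {n : ℕ} (hn : 0 < n) (h : LimbData MS x R A g T) (hadm : A / x.den < R)
    (hper : ∀ ℓ ∈ ball (axisPt x) R, ℓ ≠ 0 → ∃ z, (g ℓ, z) ∈ Per n ∧ mul n (g ℓ, z) = Complex.exp ℓ)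
    (hx : x ≠ 0) (hre : ∀ ℓ ∈ ball (axisPt x) R, ℓ.re < Real.log 2) : (0 : ℂ) ∉ K g T x := by
  intro h0
  rw [LimbData.K_eq] at h0
  obtain ⟨L, hLP, hL0⟩ := h0
  have hLb : L ∈ ball (axisPt x) R := closedBall_subset_ball hadm (h.P_sub x hLP)
  have hne : L ≠ 0 := by
    rcases hLP with h1 | h1
    · rw [h1]
      unfold axisPt
      have h2 : (2 * Real.pi * (x : ℝ) : ℝ) ≠ 0 := by
        have : (x : ℝ) ≠ 0 := by exact_mod_cast hx
        have := Real.pi_pos
        positivity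
      exact mul_ne_zero (by exact_mod_cast h2) Complex.I_ne_zero
    · rintro rfl
      have := (h.T_dom _ x h1).1
      simp at this
  have hre0 : 0 ≤ L.re := by
    rcases hLP with h1 | h1
    · rw [h1, LimbData.axisPt_re]
    · exact (h.T_dom L x h1).1.le
  obtain ⟨z, h3, h4⟩ := hper L hLb hne
  rw [hL0] at h3 h4
  have h7 := mul_zero_norm hn h3
  rw [h4] at h7
  rcases h7 with h7 | h7
  · exact Complex.exp_ne_zero _ h7
  · rw [Complex.norm_exp] at h7
    have h8 : L.re = n * Real.log 2 := by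
      have := congrArg Real.log h7
      rwa [Real.log_exp, Real.log_pow] at this
    have h9 := hre L hLb
    have h10 : (1 : ℝ) ≤ n := by exact_mod_cast hn
    have h11 : 0 < Real.log 2 := Real.log_pos (by norm_num)
    nlinarith

end LimbData

namespace Sat

open Complex

end Sat

end Pool.Agent.Work.MLC
end

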