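import Pool.Agent.Work.MLCM.C05
import Pool.Agent.Work.MLCM.C33

section
set_option autoImplicit false

/-! # Labels over one parameter are different  (helper54) -/

namespace Pool.Agent.Work.MLC

open Set Circ CircleDeg1Lift

/-- the rotation number is an integer for an integer angle (the angle `0` stays in the closed half
circles) -/
theorem nu_intAngle (w : ℕ → ℤ) (n : ℕ) (m : ℤ) : ∃ k : ℤ, nu w n m = k := by
  have key : ∀ n, ∃ k : ℤ, gw w m n 0 = k := by
    intro n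
    induction n with
    | zero => exact ⟨0, by simp⟩
    | succ n ih =>
      obtain ⟨k, hk⟩ := ih
      rw [gw_succ_apply, hk]
      rcases Int.even_or_odd (m + w n) with ⟨s, hs⟩ | ⟨s, hs⟩
      · refine ⟨k + s, ?_⟩
        have e : (m : ℝ) + w n = s + s := by exact_mod_cast hs
        rw [tdbl_lin (k - s) (by push_cast; linarith) (by push_cast; linarith)]
        push_cast; ring
      · refine ⟨k + s + 1, ?_⟩
        have e : (m : ℝ) + w n = 2 * s + 1 := by exact_mod_cast hs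
        rw [tdbl_lin (k - s - 1) (by push_cast; linarith) (by push_cast; linarith)]
        push_cast; ring
  obtain ⟨k, hk⟩ := key n
  refine ⟨k, ?_⟩
  exact translationNumber_of_eq_add_int (x := 0) _ (by rw [hk]; simp)

/-- the rotation numbers at `θ` and `θ + 1` -/
theorem floor_nu_add_one (w : ℕ → ℤ) (n : ℕ) (θ : ℝ) (h : ∀ k : ℤ, nu w n θ ≠ k)
    (h' : ∀ k : ℤ, nu w n (θ + 1) ≠ k) :
    ⌊nu w n θ⌋ < ⌊nu w n (θ + 1)⌋ ∧ ⌊nu w n (θ + 1)⌋ < ⌊nu w n θ⌋ + n := by
  obtain ⟨a, ha⟩ := nu_intAngle w n ⌈θ⌉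
  obtain ⟨b, hb⟩ := nu_intAngle w n (⌈θ⌉ + 1)
  have h1 : θ ≤ (⌈θ⌉ : ℤ) := Int.le_ceil θ
  have h2 : ((⌈θ⌉ : ℤ) : ℝ) < θ + 1 := Int.ceil_lt_add_one θ
  have m1 := nu_mono w n h1
  have m2 := nu_mono w n h2.le
  have m3 := nu_mono w n (a := θ + 1) (b := ((⌈θ⌉ + 1 : ℤ) : ℝ)) (by push_cast; linarith)
  have m4 := nu_mono w n (a := ((⌈θ⌉ + 1 : ℤ) : ℝ)) (b := θ + 2) (by push_cast; linarith)
  rw [nu_add_two] at m4
  rw [ha] at m1 m2
  rw [hb] at m3 m4
  have s1 : nu w n θ < a := lt_of_le_of_ne m1 (h a)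
  have s3 : nu w n (θ + 1) < b := lt_of_le_of_ne m3 (h' b)
  have e1 : ⌊nu w n θ⌋ < a := Int.floor_lt.2 s1
  have e2 : a ≤ ⌊nu w n (θ + 1)⌋ := Int.le_floor.2 m2
  have e3 : ⌊nu w n (θ + 1)⌋ < b := Int.floor_lt.2 s3
  have e4 : b ≤ ⌊nu w n θ⌋ + n := by
    have : b ≤ ⌊nu w n θ + ((n : ℤ) : ℝ)⌋ := Int.le_floor.2 (by push_cast; exact m4)
    rwa [Int.floor_add_intCast] at this
  exact ⟨lt_of_lt_of_le e1 e2, lt_of_lt_of_le e3 e4⟩

theorem bit_of_nw {n : ℕ} {w w' : ℕ → ℤ} (hw : Bits n w) (hw' : Bits n w') {i : ℕ}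
    (h : nw w i = nw w' i) (h0 : w 0 = w' 0) : w i = w' i := by
  unfold nw at h
  rcases hw.bit i with a | a <;> rcases hw.bit 0 with b | b <;> rcases hw'.bit i with a' | a' <;>
    rcases hw'.bit 0 with b' | b' <;>
    first
      | exact a.trans a'.symm
      | omega
      | (exfalso; rw [a, b, a', b'] at h; norm_num at h)

theorem per_mod {n : ℕ} {w : ℕ → ℤ} (hw : Bits n w) (i : ℕ) : w i = w (i % n) := by
  conv_lhs => rw [← Nat.mod_add_div i n]
  generalize i / n = q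
  induction q with
  | zero => simp
  | succ q ih =>
    rw [Nat.mul_succ, ← add_assoc, hw.per, ih]

/-- **over one angle a label belongs to at most one word** -/
theorem lab_injective {n : ℕ} (hn : 0 < n) {θ : ℝ} {w w' : ℕ → ℤ} (hw : Bits n w)
    (hw' : Bits n w') (h : ∀ k : ℤ, nu w n θ ≠ k) (h' : ∀ k : ℤ, nu w' n θ ≠ k)
    (hl : lab n θ w = lab n θ w') : w = w' := by
  classical
  -- the normalised words agree
  have hnw : nw w = nw w' := by
    have h1 : ∀ i < n, nw w i = nw w' i := by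
      intro i hi
      have h2 : (lab n θ w).1.1 ⟨i, hi⟩ = (lab n θ w').1.1 ⟨i, hi⟩ := by rw [hl]
      rw [lab_fst, lab_fst] at h2
      have h3 : nw w i = 1 ↔ nw w' i = 1 := by simpa using h2
      rcases (bits_nw hw).bit i with a | a <;> rcases (bits_nw hw').bit i with a' | a' <;>
        rw [a, a'] at h3 ⊢ <;> norm_num at h3
    funext i
    rw [per_mod (bits_nw hw) i, per_mod (bits_nw hw') i]
    exact h1 _ (Nat.mod_lt _ hn)
  have hsnd : ((⌊nu (nw w) n (θ + w 0)⌋ : ℤ) : ZMod n) = ((⌊nu (nw w') n (θ + w' 0)⌋ : ℤ) : ZMod n) := by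
    have : (lab n θ w).2 = (lab n θ w').2 := by rw [hl]
    rwa [lab_snd, lab_snd] at this
  -- the case of different first letters is impossible
  have key : ∀ v v' : ℕ → ℤ, Bits n v → Bits n v' → (∀ k : ℤ, nu v n θ ≠ k) →
      (∀ k : ℤ, nu v' n θ ≠ k) → nw v = nw v' → v 0 = 0 → v' 0 = 1 →
      ((⌊nu (nw v) n (θ + v 0)⌋ : ℤ) : ZMod n) = ((⌊nu (nw v') n (θ + v' 0)⌋ : ℤ) : ZMod n) →
      False := by
    intro v v' hv hv' a a' e b b' hz
    have c1 : ∀ k : ℤ, nu (nw v) n θ ≠ k := by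
      intro k hk
      have := nu_nw hv θ
      rw [b] at this
      push_cast at this
      rw [add_zero, hk] at this
      apply a (k - ∑ i ∈ Finset.range n, 0 * (1 - v i))
      push_cast
      linarith
    have c2 : ∀ k : ℤ, nu (nw v) n (θ + 1) ≠ k := by
      intro k hk
      have := nu_nw hv' θ
      rw [b', ← e] at this
      push_cast at this
      rw [hk] at this
      apply a' (k - ∑ i ∈ Finset.range n, 1 * (1 - v' i))
      push_cast
      linarith
    obtain ⟨d1, d2⟩ := floor_nu_add_one (nw v) n θ c1 c2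
    rw [← e, b, b'] at hz
    push_cast at hz
    rw [add_zero, ZMod.intCast_eq_intCast_iff_dvd_sub] at hz
    obtain ⟨k, hk⟩ := hz
    have hn0 : (0 : ℤ) < n := by exact_mod_cast hn
    have hk1 : 0 < k := by
      by_contra hcon
      have : (n : ℤ) * k ≤ 0 := mul_nonpos_of_nonneg_of_nonpos hn0.le (by omega)
      omega
    have : (n : ℤ) * 1 ≤ n * k := mul_le_mul_of_nonneg_left (by omega) hn0.le
    omega
  rcases hw.bit 0 with a | a <;> rcases hw'.bit 0 with a' | a'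
  · funext i; exact bit_of_nw hw hw' (by rw [hnw]) (by rw [a, a'])
  · exact (key w w' hw hw' h h' hnw a a' hsnd).elim
  · exact (key w' w hw' hw h' h hnw.symm a' a hsnd.symm).elim
  · funext i; exact bit_of_nw hw hw' (by rw [hnw]) (by rw [a, a'])

end Pool.Agent.Work.MLC
end

section
set_option autoImplicit false

/-! # Circle module for satellite components, part A (helper54)

General facts on the truncated doublings: periodic orbits in the open half circles, ends of the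
plateaus, the weak gap lemma, invariance under shifts of the word. -/

namespace Pool.Agent.Work.MLC.Circ

open Set CircleDeg1Lift Filter Topology

/-! ### reflection -/

theorem tdbl_neg (s x : ℝ) : tdbl (-s - 1) (-x) = - tdbl s x := by
  obtain ⟨k, hk1, hk2⟩ : ∃ k : ℤ, s / 2 + k ≤ x ∧ x < s / 2 + k + 1 := by
    refine ⟨⌊x - s / 2⌋, ?_, ?_⟩
    · have := Int.floor_le (x - s / 2); linarith
    · have := Int.lt_floor_add_one (x - s / 2); linarith
  rcases le_total x (s / 2 + k + 1 / 2) with h | h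
  · rw [tdbl_lin k hk1 h, tdbl_lin (-k) (by push_cast; linarith) (by push_cast; linarith)]
    push_cast; ring
  · rw [tdbl_flat k h hk2.le, tdbl_flat (-k - 1) (by push_cast; linarith) (by push_cast; linarith)]
    push_cast; ring

theorem gw_neg (w : ℕ → ℤ) (θ : ℝ) (m : ℕ) (x : ℝ) :
    gw (fun i => -w i - 1) (-θ) m (-x) = - gw w θ m x := by
  induction m with
  | zero => simp
  | succ m ih =>
    rw [gw_succ_apply, gw_succ_apply, ih, ← tdbl_neg]
    congr 2
    push_cast; ring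

/-! ### periodic orbits -/

/-- the `i`-th point of the orbit is in a closed half circle -/
def Cl (w : ℕ → ℤ) (θ x : ℝ) (i : ℕ) : Prop :=
  ∃ k : ℤ, (θ + w i) / 2 + k ≤ gw w θ i x ∧ gw w θ i x ≤ (θ + w i) / 2 + k + 1 / 2

/-- the `i`-th point of the orbit is in an open half circle -/
def Op (w : ℕ → ℤ) (θ x : ℝ) (i : ℕ) : Prop :=
  ∃ k : ℤ, (θ + w i) / 2 + k < gw w θ i x ∧ gw w θ i x < (θ + w i) / 2 + k + 1 / 2

theorem Op.cl {w : ℕ → ℤ} {θ x : ℝ} {i : ℕ} (h : Op w θ x i) : Cl w θ x i := by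
  obtain ⟨k, h1, h2⟩ := h; exact ⟨k, h1.le, h2.le⟩

/-- if the orbit of `x` at time `i` is in the half open flat arc `[end, start)` then the return map is
constant to the right of `x` -/
theorem gw_const_right {w : ℕ → ℤ} {θ x : ℝ} {i m : ℕ} (him : i < m) {k : ℤ}
    (h1 : (θ + w i) / 2 + k + 1 / 2 ≤ gw w θ i x) (h2 : gw w θ i x < (θ + w i) / 2 + k + 1) :
    ∀ᶠ t in 𝓝[>] x, gw w θ m t = gw w θ m x := by
  have hc : ∀ᶠ t in 𝓝[>] x, gw w θ i t < (θ + w i) / 2 + k + 1 :=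
    ((gw_continuous' w θ i).tendsto x).eventually (gt_mem_nhds h2) |>.filter_mono nhdsWithin_le_nhds
  filter_upwards [hc, self_mem_nhdsWithin] with t ht ht2
  have ht3 : x < t := ht2
  have h3 : gw w θ i x ≤ gw w θ i t := (gw w θ i).monotone ht3.le
  have h4 : gw w θ (i + 1) t = gw w θ (i + 1) x := by
    rw [gw_succ_apply, gw_succ_apply, tdbl_flat k (h1.trans h3) ht.le, tdbl_flat k h1 h2.le]
  obtain ⟨d, rfl⟩ : ∃ d, m = (i + 1) + d := ⟨m - (i + 1), by omega⟩
  rw [gw_add, mul_apply, mul_apply, h4]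

theorem gw_const_left {w : ℕ → ℤ} {θ x : ℝ} {i m : ℕ} (him : i < m) {k : ℤ}
    (h1 : (θ + w i) / 2 + k + 1 / 2 < gw w θ i x) (h2 : gw w θ i x ≤ (θ + w i) / 2 + k + 1) :
    ∀ᶠ t in 𝓝[<] x, gw w θ m t = gw w θ m x := by
  have hc : ∀ᶠ t in 𝓝[<] x, (θ + w i) / 2 + k + 1 / 2 < gw w θ i t :=
    ((gw_continuous' w θ i).tendsto x).eventually (lt_mem_nhds h1) |>.filter_mono nhdsWithin_le_nhds
  filter_upwards [hc, self_mem_nhdsWithin] with t ht ht2
  have ht3 : t < x := ht2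
  have h3 : gw w θ i t ≤ gw w θ i x := (gw w θ i).monotone ht3.le
  have h4 : gw w θ (i + 1) t = gw w θ (i + 1) x := by
    rw [gw_succ_apply, gw_succ_apply, tdbl_flat k ht.le (h3.trans h2), tdbl_flat k h1.le h2]
  obtain ⟨d, rfl⟩ : ∃ d, m = (i + 1) + d := ⟨m - (i + 1), by omega⟩
  rw [gw_add, mul_apply, mul_apply, h4]

/-- position of a real number with respect to the arcs of `s` -/
theorem arc_cases (s y : ℝ) : (∃ k : ℤ, s / 2 + k < y ∧ y < s / 2 + k + 1 / 2) ∨
    (∃ k : ℤ, y = s / 2 + k) ∨ ∃ k : ℤ, s / 2 + k + 1 / 2 ≤ y ∧ y < s / 2 + k + 1 := by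
  set k : ℤ := ⌊y - s / 2⌋ with hk
  have h1 : (k : ℝ) ≤ y - s / 2 := Int.floor_le _
  have h2 : y - s / 2 < k + 1 := Int.lt_floor_add_one _
  rcases h1.lt_or_eq with h | h
  · rcases lt_or_ge (y - s / 2) (k + 1 / 2) with h3 | h3
    · exact Or.inl ⟨k, by linarith, by linarith⟩
    · exact Or.inr (Or.inr ⟨k, by linarith, by linarith⟩)
  · exact Or.inr (Or.inl ⟨k, by linarith⟩)

/-- **both signs: there is a periodic orbit in the open half circles** -/
theorem exists_op {w : ℕ → ℤ} {θ : ℝ} {m : ℕ} {P : ℤ} (hneg : ∃ x, gw w θ m x < x + P)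
    (hpos : ∃ y, y + P < gw w θ m y) :
    ∃ x, gw w θ m x = x + P ∧ ∀ i < m, Op w θ x i := by
  obtain ⟨x₁, hx₁⟩ := hneg
  obtain ⟨y₀, hy₀⟩ := hpos
  -- translate `y` to the right of `x`
  obtain ⟨y₁, hxy, hy₁⟩ : ∃ y₁, x₁ < y₁ ∧ y₁ + P < gw w θ m y₁ := by
    obtain ⟨N, hN⟩ := exists_nat_gt (x₁ - y₀)
    refine ⟨y₀ + N, by linarith, ?_⟩
    rw [map_add_nat]; linarith
  have hcF : Continuous fun t => gw w θ m t - t - P :=
    ((gw_continuous' w θ m).sub continuous_id).sub continuous_const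
  set S : Set ℝ := {t | t ∈ Icc x₁ y₁ ∧ gw w θ m t < t + P} with hS
  have hxS : x₁ ∈ S := ⟨⟨le_rfl, hxy.le⟩, hx₁⟩
  have hbdd : BddAbove S := ⟨y₁, fun t ht => ht.1.2⟩
  set x₀ := sSup S with hx₀
  have hx₀1 : x₁ ≤ x₀ := le_csSup hbdd hxS
  have hx₀2 : x₀ ≤ y₁ := csSup_le ⟨x₁, hxS⟩ fun t ht => ht.1.2
  have hle : gw w θ m x₀ - x₀ - P ≤ 0 := by
    by_contra hcon
    push Not at hcon
    have h1 := (hcF.tendsto x₀).eventually (lt_mem_nhds hcon)
    have h2 : ∀ᶠ t in 𝓝[≤] x₀, 0 < gw w θ m t - t - P := h1.filter_mono nhdsWithin_le_nhds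
    obtain ⟨δ, hδ, hδ2⟩ := Metric.mem_nhdsWithin_iff.1 h2
    obtain ⟨t, htS, ht⟩ := exists_lt_of_lt_csSup ⟨x₁, hxS⟩ (show x₀ - δ < x₀ by linarith)
    have h3 : t ≤ x₀ := le_csSup hbdd htS
    have h4 : 0 < gw w θ m t - t - P := hδ2 ⟨by
      rw [Metric.mem_ball, Real.dist_eq, abs_lt]; constructor <;> linarith, h3⟩
    linarith [htS.2]
  have hlt : x₀ < y₁ := by
    rcases hx₀2.lt_or_eq with h | h
    · exact h
    · rw [h] at hle; linarith
  have hge : ∀ t, x₀ < t → t ≤ y₁ → 0 ≤ gw w θ m t - t - P := by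
    intro t ht ht2
    by_contra hcon
    push Not at hcon
    have : t ∈ S := ⟨⟨hx₀1.trans ht.le, ht2⟩, by linarith⟩
    exact absurd (le_csSup hbdd this) (not_le.2 ht)
  have h0 : gw w θ m x₀ - x₀ - P = 0 := by
    refine le_antisymm hle ?_
    by_contra hcon
    push Not at hcon
    have h1 : ∀ᶠ t in 𝓝[>] x₀, gw w θ m t - t - P < 0 :=
      ((hcF.tendsto x₀).eventually (gt_mem_nhds hcon)).filter_mono nhdsWithin_le_nhds
    have h2 : ∀ᶠ t in 𝓝[>] x₀, t < y₁ := mem_nhdsWithin_of_mem_nhds (gt_mem_nhds hlt)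
    obtain ⟨t, ht1, ht2, ht3⟩ := (h1.and (h2.and self_mem_nhdsWithin)).exists
    have := hge t ht3 ht2.le
    linarith
  -- negative values arbitrarily close to the left
  have hleft : ∃ᶠ t in 𝓝[<] x₀, gw w θ m t - t - P < 0 := by
    rw [Filter.frequently_iff]
    intro U hU
    obtain ⟨δ, hδ, hδ2⟩ := Metric.mem_nhdsWithin_iff.1 hU
    obtain ⟨t, htS, ht⟩ := exists_lt_of_lt_csSup ⟨x₁, hxS⟩ (show x₀ - δ < x₀ by linarith)
    have h3 : t ≤ x₀ := le_csSup hbdd htS
    have h4 : t < x₀ := by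
      rcases h3.lt_or_eq with h | h
      · exact h
      · exfalso; have := htS.2; rw [h] at this; linarith
    exact ⟨t, hδ2 ⟨by rw [Metric.mem_ball, Real.dist_eq, abs_lt]; constructor <;> linarith, h4⟩,
      by linarith [htS.2]⟩
  refine ⟨x₀, by linarith, fun i hi => ?_⟩
  rcases arc_cases (θ + w i) (gw w θ i x₀) with h | ⟨k, hk⟩ | ⟨k, hk1, hk2⟩
  · exact h
  · exfalso
    have h1 := gw_const_left (w := w) (θ := θ) (x := x₀) hi (k := k - 1)
      (by rw [hk]; push_cast; linarith) (by rw [hk]; push_cast; linarith)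
    obtain ⟨t, ht1, ht2, ht3⟩ := (hleft.and_eventually (h1.and self_mem_nhdsWithin)).exists
    have ht4 : t < x₀ := ht3
    linarith
  · exfalso
    have h1 := gw_const_right (w := w) (θ := θ) (x := x₀) hi (k := k) hk1 hk2
    have h2 : ∀ᶠ t in 𝓝[>] x₀, t < y₁ := mem_nhdsWithin_of_mem_nhds (gt_mem_nhds hlt)
    obtain ⟨t, ht1, ht2, ht3⟩ := (h1.and (h2.and self_mem_nhdsWithin)).exists
    have ht4 : x₀ < t := ht3
    have := hge t ht4 ht2.le
    linarith

/-- **tangential from above**: the orbit is in the half open arcs `[start, end)` and hits a start -/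
theorem tangent_above {w : ℕ → ℤ} {θ : ℝ} {m : ℕ} {P : ℤ} (hnn : ∀ x, x + P ≤ gw w θ m x) {x : ℝ}
    (hx : gw w θ m x = x + P) (hm : 0 < m) :
    (∀ i < m, ∃ k : ℤ, (θ + w i) / 2 + k ≤ gw w θ i x ∧ gw w θ i x < (θ + w i) / 2 + k + 1 / 2) ∧
      ∃ i < m, ∃ k : ℤ, gw w θ i x = (θ + w i) / 2 + k := by
  have h1 : ∀ i < m, ∃ k : ℤ, (θ + w i) / 2 + k ≤ gw w θ i x ∧
      gw w θ i x < (θ + w i) / 2 + k + 1 / 2 := by
    intro i hi
    rcases arc_cases (θ + w i) (gw w θ i x) with ⟨k, h, h'⟩ | ⟨k, hk⟩ | ⟨k, hk1, hk2⟩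
    · exact ⟨k, h.le, h'⟩
    · exact ⟨k, hk.ge, by rw [hk]; linarith⟩
    · exfalso
      have h1 := gw_const_right (w := w) (θ := θ) (x := x) hi (k := k) hk1 hk2
      obtain ⟨t, ht1, ht2⟩ := (h1.and self_mem_nhdsWithin).exists
      have ht3 : x < t := ht2
      have := hnn t
      linarith
  refine ⟨h1, ?_⟩
  by_contra hcon
  push Not at hcon
  -- all points are in the open arcs: the map is expanding at `x`
  have h2 : ∀ i ≤ m, ∀ᶠ t in 𝓝[<] x, gw w θ i t - gw w θ i x = 2 ^ i * (t - x) := by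
    intro i
    induction i with
    | zero => intro _; exact Filter.Eventually.of_forall fun t => by simp
    | succ i ih =>
      intro hi
      obtain ⟨k, hk1, hk2⟩ := h1 i (by omega)
      have hk3 : (θ + w i) / 2 + k < gw w θ i x := lt_of_le_of_ne hk1 fun h =>
        hcon i (by omega) k h.symm
      have h3 : ∀ᶠ t in 𝓝[<] x, (θ + w i) / 2 + k < gw w θ i t :=
        ((gw_continuous' w θ i).tendsto x).eventually (lt_mem_nhds hk3)
          |>.filter_mono nhdsWithin_le_nhds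
      filter_upwards [ih (by omega), h3, self_mem_nhdsWithin] with t ht1 ht2 ht3
      have ht4 : t < x := ht3
      have h5 : gw w θ i t ≤ gw w θ i x := (gw w θ i).monotone ht4.le
      rw [gw_succ_apply, gw_succ_apply, tdbl_lin k ht2.le (by linarith), tdbl_lin k hk1 hk2.le,
        pow_succ]
      linarith
  obtain ⟨t, ht1, ht2⟩ := ((h2 m le_rfl).and self_mem_nhdsWithin).exists
  have ht3 : t < x := ht2
  have h3 := hnn t
  have h4 : (2 : ℝ) ≤ 2 ^ m := by
    calc (2 : ℝ) = 2 ^ 1 := by norm_num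
      _ ≤ 2 ^ m := pow_le_pow_right₀ (by norm_num) hm
  nlinarith

/-- mirror image of `tangent_above` -/
theorem tangent_below {w : ℕ → ℤ} {θ : ℝ} {m : ℕ} {P : ℤ} (hnp : ∀ x, gw w θ m x ≤ x + P) {x : ℝ}
    (hx : gw w θ m x = x + P) (hm : 0 < m) :
    (∀ i < m, ∃ k : ℤ, (θ + w i) / 2 + k < gw w θ i x ∧ gw w θ i x ≤ (θ + w i) / 2 + k + 1 / 2) ∧
      ∃ i < m, ∃ k : ℤ, gw w θ i x = (θ + w i) / 2 + k + 1 / 2 := by
  have h1 : ∀ y, y + ((-P : ℤ) : ℝ) ≤ gw (fun i => -w i - 1) (-θ) m y := by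
    intro y
    have h2 := gw_neg w θ m (-y)
    rw [neg_neg] at h2
    rw [h2]
    have := hnp (-y)
    push_cast; linarith
  have h2 : gw (fun i => -w i - 1) (-θ) m (-x) = -x + ((-P : ℤ) : ℝ) := by
    rw [gw_neg, hx]; push_cast; ring
  obtain ⟨h3, i, hi, k, hk⟩ := tangent_above h1 h2 hm
  refine ⟨fun i hi => ?_, i, hi, -k, ?_⟩
  · obtain ⟨k, hk1, hk2⟩ := h3 i hi
    rw [gw_neg] at hk1 hk2
    push_cast at hk1 hk2
    exact ⟨-k, by push_cast; linarith, by push_cast; linarith⟩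
  · rw [gw_neg] at hk
    push_cast at hk
    push_cast; linarith

/-- an orbit in the closed half circles consists of the doublings of its angle -/
theorem gw_of_cl {w : ℕ → ℤ} {θ x : ℝ} {m : ℕ} (h : ∀ i < m, Cl w θ x i) :
    ∀ i ≤ m, ∃ a : ℤ, gw w θ i x = 2 ^ i * x + a := by
  intro i
  induction i with
  | zero => intro _; exact ⟨0, by simp⟩
  | succ i ih =>
    intro hi
    obtain ⟨a, ha⟩ := ih (by omega)
    obtain ⟨k, hk1, hk2⟩ := h i (by omega)
    refine ⟨2 * a - k, ?_⟩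
    rw [gw_succ_apply, tdbl_lin k hk1 hk2, ha, pow_succ]
    push_cast; ring

/-- rational rotation number: there is a periodic orbit in the closed half circles; if there is none
in the open half circles then `θ` is periodic -/
theorem exists_cl {w : ℕ → ℤ} {θ : ℝ} {m : ℕ} {P : ℤ} (hm : 0 < m)
    (hz : ∃ x, gw w θ m x = x + P) :
    ∃ x, gw w θ m x = x + P ∧ (∀ i < m, Cl w θ x i) ∧
      ((∀ i < m, Op w θ x i) ∨ (∃ a : ℤ, 2 ^ m * θ - θ = a)) := by
  obtain ⟨x, hx⟩ := hz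
  by_cases h1 : ∃ y, gw w θ m y < y + P
  · by_cases h2 : ∃ y, y + P < gw w θ m y
    · obtain ⟨x₀, h3, h4⟩ := exists_op h1 h2
      exact ⟨x₀, h3, fun i hi => (h4 i hi).cl, Or.inl h4⟩
    · push Not at h2
      obtain ⟨h3, i, hi, k, hk⟩ := tangent_below h2 hx hm
      have hcl : ∀ i < m, Cl w θ x i := fun i hi => by
        obtain ⟨k, hk1, hk2⟩ := h3 i hi
        exact ⟨k, hk1.le, hk2⟩
      refine ⟨x, hx, hcl, Or.inr ?_⟩
      obtain ⟨a, ha⟩ := gw_of_cl hcl i hi.le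
      obtain ⟨b, hb⟩ := gw_of_cl hcl m le_rfl
      refine ⟨2 ^ (i + 1) * (P - b) - 2 ^ m * (w i + 2 * k + 1 - 2 * a) + (w i + 2 * k + 1 - 2 * a), ?_⟩
      have e1 : (2 : ℝ) ^ m * x - x = P - b := by linarith
      have e2 : θ = 2 ^ (i + 1) * x - (w i + 2 * k + 1 - 2 * a) := by
        rw [pow_succ]; linarith
      have e3 : (2 : ℝ) ^ m * θ - θ = 2 ^ (i + 1) * (2 ^ m * x - x) -
          2 ^ m * (w i + 2 * k + 1 - 2 * a) + (w i + 2 * k + 1 - 2 * a) := by
        rw [e2]; ring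
      rw [e3, e1]; push_cast; ring
  · push Not at h1
    obtain ⟨h3, i, hi, k, hk⟩ := tangent_above h1 hx hm
    have hcl : ∀ i < m, Cl w θ x i := fun i hi => by
      obtain ⟨k, hk1, hk2⟩ := h3 i hi
      exact ⟨k, hk1, hk2.le⟩
    refine ⟨x, hx, hcl, Or.inr ?_⟩
    obtain ⟨a, ha⟩ := gw_of_cl hcl i hi.le
    obtain ⟨b, hb⟩ := gw_of_cl hcl m le_rfl
    refine ⟨2 ^ (i + 1) * (P - b) - 2 ^ m * (w i + 2 * k - 2 * a) + (w i + 2 * k - 2 * a), ?_⟩
    have e1 : (2 : ℝ) ^ m * x - x = P - b := by linarith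
    have e2 : θ = 2 ^ (i + 1) * x - (w i + 2 * k - 2 * a) := by
      rw [pow_succ]; linarith
    have e3 : (2 : ℝ) ^ m * θ - θ = 2 ^ (i + 1) * (2 ^ m * x - x) -
        2 ^ m * (w i + 2 * k - 2 * a) + (w i + 2 * k - 2 * a) := by
      rw [e2]; ring
    rw [e3, e1]; push_cast; ring

/-! ### the weak gap lemma -/

/-- **weak gap lemma**: a periodic angle of period (dividing) `n` has a rotation number with
denominator at most `n`, for every word and every return time `N` -/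
theorem weak_gap (w : ℕ → ℤ) (N n : ℕ) (hn : 0 < n) {θ : ℝ} (hθ : ∃ a : ℤ, 2 ^ n * θ - θ = a) :
    ∃ (Q : ℕ) (P : ℤ), 0 < Q ∧ Q ≤ n ∧ nu w N θ = P / Q := by
  obtain ⟨a, ha⟩ := hθ
  set S : Set ℝ := {x | ∃ j < n, ∃ m : ℤ, x = 2 ^ j * θ + m} with hS
  have hdbl : ∀ x ∈ S, ∀ k : ℤ, 2 * x - k ∈ S := by
    rintro x ⟨j, hj, m, rfl⟩ k
    rcases Nat.lt_or_ge (j + 1) n with h | h
    · exact ⟨j + 1, h, 2 * m - k, by rw [pow_succ]; push_cast; ring⟩
    · have hj' : j + 1 = n := by omega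
      refine ⟨0, hn, a + 2 * m - k, ?_⟩
      have e : (2 : ℝ) ^ n * θ = 2 * (2 ^ j * θ) := by rw [← hj', pow_succ]; ring
      push_cast
      linarith
  have hθS : ∀ k : ℤ, θ + k ∈ S := fun k => ⟨0, hn, k, by simp⟩
  have htd : ∀ b : ℤ, ∀ x ∈ S, tdbl (θ + b) x ∈ S := by
    intro b x hx
    obtain ⟨k, hk1, hk2⟩ : ∃ k : ℤ, (θ + b) / 2 + k ≤ x ∧ x < (θ + b) / 2 + k + 1 :=
      ⟨⌊x - (θ + b) / 2⌋, by linarith [Int.floor_le (x - (θ + b) / 2)],
        by linarith [Int.lt_floor_add_one (x - (θ + b) / 2)]⟩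
    rcases le_total x ((θ + b) / 2 + k + 1 / 2) with h | h
    · rw [tdbl_lin k hk1 h]; exact hdbl x hx k
    · rw [tdbl_flat k h hk2.le]
      have e : θ + (b : ℝ) + k + 1 = θ + ((b + k + 1 : ℤ) : ℝ) := by push_cast; ring
      rw [e]; exact hθS _
  have hgw : ∀ m, ∀ x ∈ S, gw w θ m x ∈ S := by
    intro m
    induction m with
    | zero => intro x hx; exact hx
    | succ m ih => intro x hx; rw [gw_succ_apply]; exact htd _ _ (ih x hx)
  have hit : ∀ i : ℕ, (gw w θ N)^[i] θ ∈ S := by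
    intro i
    induction i with
    | zero => simpa using hθS 0
    | succ i ih => rw [Function.iterate_succ_apply']; exact hgw N _ ih
  choose c hc m hm using hit
  obtain ⟨i, hi, j, hj, hij, hcc⟩ : ∃ i ∈ Finset.range (n + 1), ∃ j ∈ Finset.range (n + 1),
      i ≠ j ∧ c i = c j := by
    refine Finset.exists_ne_map_eq_of_card_lt_of_maps_to (t := Finset.range n) (by simp)
      fun i _ => ?_
    simpa using hc i
  have key : ∀ i j : ℕ, i < j → j < n + 1 → c i = c j →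
      ∃ (Q : ℕ) (P : ℤ), 0 < Q ∧ Q ≤ n ∧ nu w N θ = P / Q := by
    intro i j hij hjn hcc
    refine ⟨j - i, m j - m i, by omega, by omega, ?_⟩
    have e : (gw w θ N)^[j - i] ((gw w θ N)^[i] θ) = (gw w θ N)^[j] θ := by
      rw [← Function.iterate_add_apply]; congr 1; omega
    have h1 : (gw w θ N ^ (j - i)) ((gw w θ N)^[i] θ) =
        (gw w θ N)^[i] θ + ((m j - m i : ℤ) : ℝ) := by
      rw [coe_pow, e, hm j, hm i, hcc]; push_cast; ring
    have h2 := (nu_eq_rat_iff w N θ (j - i) (by omega) (m j - m i)).2 ⟨_, h1⟩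
    rw [h2]
  rcases lt_or_gt_of_ne hij with h | h
  · exact key i j h (Finset.mem_range.1 hj) hcc
  · exact key j i h (Finset.mem_range.1 hi) hcc.symm

/-- consequence: off the exact value no `n`-periodic angle has a rotation number within
`1 / (n q)` of `P / q` -/
theorem gap_of_near (w : ℕ → ℤ) (N n q : ℕ) (hn : 0 < n) (hq : 0 < q) {θ : ℝ} {P : ℤ}
    (hθ : ∃ a : ℤ, 2 ^ n * θ - θ = a) (hnear : |nu w N θ - P / q| < 1 / (n * q)) :
    nu w N θ = P / q := by
  obtain ⟨Q, R, hQ, hQn, hR⟩ := weak_gap w N n hn hθ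
  rw [hR] at hnear ⊢
  have hQ' : (0 : ℝ) < Q := by exact_mod_cast hQ
  have hq' : (0 : ℝ) < q := by exact_mod_cast hq
  have hn' : (0 : ℝ) < n := by exact_mod_cast hn
  have hQn' : (Q : ℝ) ≤ n := by exact_mod_cast hQn
  have e : (R : ℝ) / Q - P / q = ((R * q - P * Q : ℤ) : ℝ) / (Q * q) := by
    push_cast; field_simp
  rw [e, abs_div, abs_of_pos (by positivity : (0 : ℝ) < Q * q)] at hnear
  have h1 : |((R * q - P * Q : ℤ) : ℝ)| < 1 := by
    rw [div_lt_iff₀ (by positivity)] at hnear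
    calc |((R * q - P * Q : ℤ) : ℝ)| < 1 / (n * q) * (Q * q) := hnear
      _ = Q / n := by field_simp
      _ ≤ 1 := (div_le_one hn').2 hQn'
  have h2 : R * q - P * Q = 0 := by
    rw [← Int.cast_abs] at h1
    have h3 : |R * (q : ℤ) - P * Q| < 1 := by exact_mod_cast h1
    rw [abs_lt] at h3
    omega
  rw [div_eq_div_iff hQ'.ne' hq'.ne']
  have : (R : ℝ) * q - P * Q = 0 := by exact_mod_cast h2
  linarith

/-! ### shifts of the word -/

/-- the return map is the same for all phases, up to semiconjugacy -/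
theorem nu_shift_word (w : ℕ → ℤ) (n : ℕ) (hw : ∀ i, w (i + n) = w i) (θ : ℝ) (i : ℕ) :
    nu (fun j => w (i + j)) n θ = nu w n θ := by
  have h1 : gw w θ (i + n) = gw (fun j => w (i + j)) θ n * gw w θ i := gw_add w θ i n
  have h2 : gw w θ (n + i) = gw (fun j => w (n + j)) θ i * gw w θ n := gw_add w θ n i
  have h3 : (fun j => w (n + j)) = w := by funext j; rw [add_comm, hw]
  rw [h3, add_comm n i] at h2
  unfold nu
  symm
  refine translationNumber_eq_of_semiconj (f := gw w θ i) ?_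
  intro x
  have h4 : (gw (fun j => w (i + j)) θ n * gw w θ i) x = (gw w θ i * gw w θ n) x := by
    rw [← h1, h2]
  exact h4.symm

end Pool.Agent.Work.MLC.Circ
end

section
set_option autoImplicit false

/-! # Separation of components of the same period, part B (helper70): non integral words

`nu_ne_int`: if the orbit of `θ` is strictly compatible with `w 0, ..., w (n-1)` and the parse of `w`
started at time `1` resets at time `n`, then `nu w n θ` is not an integer. -/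

namespace Pool.Agent.Work.MLC.Sep

open Set Filter Topology Pool.Agent.Work.MLC.Circ CircleDeg1Lift

/-- an orbit in the open half circles is expanding on both sides -/
theorem op_expand {w : ℕ → ℤ} {θ x : ℝ} : ∀ n : ℕ, (∀ i < n, Op w θ x i) →
    ∀ᶠ t in 𝓝 x, gw w θ n t - gw w θ n x = 2 ^ n * (t - x) := by
  intro n
  induction n with
  | zero => intro _; exact Filter.Eventually.of_forall fun t => by simp
  | succ n ih =>
    intro h
    obtain ⟨k, hk1, hk2⟩ := h n (by omega)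
    have h3 : ∀ᶠ t in 𝓝 x, (θ + w n) / 2 + k < gw w θ n t :=
      ((gw_continuous' w θ n).tendsto x).eventually (lt_mem_nhds hk1)
    have h4 : ∀ᶠ t in 𝓝 x, gw w θ n t < (θ + w n) / 2 + k + 1 / 2 :=
      ((gw_continuous' w θ n).tendsto x).eventually (gt_mem_nhds hk2)
    filter_upwards [ih fun i hi => h i (by omega), h3, h4] with t ht1 ht2 ht3
    rw [gw_succ_apply, gw_succ_apply, tdbl_lin k ht2.le ht3.le, tdbl_lin k hk1.le hk2.le, pow_succ]
    linarith

/-- an integral rotation number: some fixed point is not in the open half circles all the time -/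
theorem exists_not_op {w : ℕ → ℤ} {θ : ℝ} {n : ℕ} (hn : 0 < n) {m : ℤ}
    (hz : ∃ x, gw w θ n x = x + m) : ∃ x, gw w θ n x = x + m ∧ ∃ i < n, ¬ Op w θ x i := by
  by_contra hcon
  push Not at hcon
  obtain ⟨x₀, hx₀⟩ := hz
  have hpow : (1 : ℝ) < 2 ^ n := one_lt_pow₀ (by norm_num) (by omega)
  have hcF : Continuous fun t => gw w θ n t - t - m :=
    ((gw_continuous' w θ n).sub continuous_id).sub continuous_const
  have hexp : ∀ x, gw w θ n x = x + m → ∀ᶠ t in 𝓝 x, gw w θ n t - t - m = (2 ^ n - 1) * (t - x) := by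
    intro x hx
    filter_upwards [op_expand n (hcon x hx)] with t ht
    rw [hx] at ht
    linarith
  -- the first zero to the right
  set S : Set ℝ := {t | x₀ < t ∧ t ≤ x₀ + 1 ∧ gw w θ n t - t - m ≤ 0} with hS
  have h1S : x₀ + 1 ∈ S := by
    refine ⟨by linarith, le_rfl, ?_⟩
    have : gw w θ n (x₀ + 1) = gw w θ n x₀ + 1 := map_add_one _ _
    rw [this, hx₀]; linarith
  have hbdd : BddBelow S := ⟨x₀, fun t ht => ht.1.le⟩
  set x₁ := sInf S with hx₁
  have hx1a : x₀ ≤ x₁ := le_csInf ⟨_, h1S⟩ fun t ht => ht.1.le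
  have hx1b : x₁ ≤ x₀ + 1 := csInf_le hbdd h1S
  -- `x₀ < x₁`
  have hx1c : x₀ < x₁ := by
    obtain ⟨δ, hδ, hδ2⟩ := Metric.eventually_nhds_iff.1 (hexp x₀ hx₀)
    refine lt_of_lt_of_le (show x₀ < x₀ + δ by linarith) (le_csInf ⟨_, h1S⟩ fun t ht => ?_)
    by_contra hlt
    push Not at hlt
    have h2 := hδ2 (y := t) (by rw [Real.dist_eq, abs_lt]; constructor <;> linarith [ht.1])
    have h3 := ht.2.2
    have h4 : 0 < (2 ^ n - 1) * (t - x₀) := mul_pos (by linarith) (by linarith [ht.1])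
    linarith
  have hpos : ∀ t, x₀ < t → t < x₁ → 0 < gw w θ n t - t - m := by
    intro t h1 h2
    by_contra hle
    push Not at hle
    exact absurd (csInf_le hbdd (show t ∈ S from ⟨h1, by linarith, hle⟩)) (not_le.2 h2)
  -- `x₁` is a zero
  have hle : gw w θ n x₁ - x₁ - m ≤ 0 := by
    by_contra hgt
    push Not at hgt
    obtain ⟨δ, hδ, hδ2⟩ := Metric.eventually_nhds_iff.1 ((hcF.tendsto x₁).eventually (lt_mem_nhds hgt))
    obtain ⟨t, htS, ht⟩ := exists_lt_of_csInf_lt ⟨_, h1S⟩ (show sInf S < x₁ + δ by rw [← hx₁]; linarith)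
    have h1 : x₁ ≤ t := csInf_le hbdd htS
    have h2 := hδ2 (y := t) (by rw [Real.dist_eq, abs_lt]; constructor <;> linarith)
    linarith [htS.2.2]
  have hge : 0 ≤ gw w θ n x₁ - x₁ - m := by
    by_contra hlt
    push Not at hlt
    obtain ⟨δ, hδ, hδ2⟩ := Metric.eventually_nhds_iff.1 ((hcF.tendsto x₁).eventually (gt_mem_nhds hlt))
    set t := max (x₁ - δ / 2) ((x₀ + x₁) / 2) with ht
    have h1 : x₀ < t := lt_of_lt_of_le (by linarith) (le_max_right _ _)
    have h2 : t < x₁ := max_lt (by linarith) (by linarith)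
    have h3 : x₁ - δ / 2 ≤ t := le_max_left _ _
    have h4 := hδ2 (y := t) (by rw [Real.dist_eq, abs_lt]; constructor <;> linarith)
    linarith [hpos t h1 h2]
  have hzero : gw w θ n x₁ = x₁ + m := by linarith
  obtain ⟨δ, hδ, hδ2⟩ := Metric.eventually_nhds_iff.1 (hexp x₁ hzero)
  set t := max (x₁ - δ / 2) ((x₀ + x₁) / 2) with ht
  have h1 : x₀ < t := lt_of_lt_of_le (by linarith) (le_max_right _ _)
  have h2 : t < x₁ := max_lt (by linarith) (by linarith)
  have h3 : x₁ - δ / 2 ≤ t := le_max_left _ _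
  have h4 := hδ2 (y := t) (by rw [Real.dist_eq, abs_lt]; constructor <;> linarith)
  have h5 : (2 ^ n - 1) * (t - x₁) < 0 := mul_neg_of_pos_of_neg (by linarith) (by linarith)
  linarith [hpos t h1 h2]

/-- an integer translate of a strictly compatible iterate of `θ`: one step with the same symbol -/
theorem tdbl_same {θ y z : ℝ} {e : ℤ} (h : InHalfO (θ + e) z) {c : ℤ} (hy : y = z + c) :
    ∃ c' : ℤ, tdbl (θ + e) y = 2 * z + c' := by
  obtain ⟨k, h1, h2⟩ := h
  refine ⟨c - k, ?_⟩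
  rw [hy, tdbl_lin (k + c) (by push_cast; linarith) (by push_cast; linarith)]
  push_cast; ring

/-- one step with the other symbol -/
theorem tdbl_other {θ y z : ℝ} {e e' : ℤ} (he : e = 0 ∨ e = 1) (he' : e' = 0 ∨ e' = 1) (hne : e ≠ e')
    (h : InHalfO (θ + e) z) {c : ℤ} (hy : y = z + c) :
    ∃ c' : ℤ, tdbl (θ + e') y = θ + c' := by
  obtain ⟨k, h1, h2⟩ := h
  rcases he with he | he <;> rcases he' with he' | he'
  · exact absurd (he.trans he'.symm) hne
  · subst he; subst he'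
    refine ⟨1 + k + c, ?_⟩
    rw [hy, tdbl_flat (k + c - 1) (by push_cast at *; linarith) (by push_cast at *; linarith)]
    push_cast; ring
  · subst he; subst he'
    refine ⟨k + c + 1, ?_⟩
    rw [hy, tdbl_flat (k + c) (by push_cast at *; linarith) (by push_cast at *; linarith)]
    push_cast; ring
  · exact absurd (he.trans he'.symm) hne

/-- strict compatibility excludes small periods -/
theorem not_per_of_strict {θ : ℝ} {e : ℤ} {a : ℕ} (h : InHalfO (θ + e) (2 ^ a * θ)) {c : ℤ}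
    (hc : 2 ^ (a + 1) * θ = θ + c) : False := by
  obtain ⟨k, h1, h2⟩ := h
  rw [pow_succ] at hc
  have f1 : ((e + 2 * k : ℤ) : ℝ) < (c : ℝ) := by push_cast; linarith
  have f2 : (c : ℝ) < ((e + 2 * k + 1 : ℤ) : ℝ) := by push_cast; linarith
  have f3 : e + 2 * k < c := by exact_mod_cast f1
  have f4 : c < e + 2 * k + 1 := by exact_mod_cast f2
  omega

/-- the parse computes the orbit -/
theorem orbit_st {w : ℕ → ℤ} {n : ℕ} {θ : ℝ} (hw : ∀ i, w i = 0 ∨ w i = 1)
    (hθ : ∀ i < n, InHalfO (θ + w i) (2 ^ i * θ)) {p : ℕ} {x : ℝ} {c₀ : ℤ}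
    (hx : gw w θ p x = θ + c₀) : ∀ d ≤ n, ∃ c : ℤ, gw w θ (p + d) x = 2 ^ st w 0 p d * θ + c := by
  intro d
  induction d with
  | zero => intro _; exact ⟨c₀, by rw [add_zero, hx]; simp [st]⟩
  | succ d ih =>
    intro hd
    obtain ⟨c, hc⟩ := ih (by omega)
    have hle := st_le w 0 p d
    rw [← add_assoc, gw_succ_apply, st_succ, stp]
    have hs := hθ (st w 0 p d) (by omega)
    by_cases h : w (st w 0 p d) = w (p + d)
    · rw [if_pos h]
      rw [h] at hs
      obtain ⟨c', hc'⟩ := tdbl_same hs hc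
      exact ⟨c', by rw [hc', pow_succ]; ring⟩
    · rw [if_neg h]
      obtain ⟨c', hc'⟩ := tdbl_other (hw _) (hw _) h hs hc
      exact ⟨c', by rw [hc']; ring⟩

/-- **non integrality** -/
theorem nu_ne_int {w : ℕ → ℤ} {n : ℕ} {θ : ℝ} (hn : 1 ≤ n) (hw : ∀ i, w i = 0 ∨ w i = 1)
    (hper : ∀ i, w (i + n) = w i) (hS : st w 0 1 (n - 1) = 0)
    (hθ : ∀ i < n, InHalfO (θ + w i) (2 ^ i * θ)) (m : ℤ) : nu w n θ ≠ m := by
  intro hm
  obtain ⟨x, hx⟩ : ∃ x, gw w θ n x = x + m := by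
    have := (nu_eq_rat_iff w n θ 1 one_pos m).1 (by rw [hm]; simp)
    simpa using this
  obtain ⟨x, hx, i, hi, hop⟩ := exists_not_op (by omega) ⟨x, hx⟩
  -- the orbit passes through `θ`
  obtain ⟨c₀, hc₀⟩ : ∃ c : ℤ, gw w θ (i + 1) x = θ + c := by
    rw [gw_succ_apply]
    rcases arc_cases (θ + w i) (gw w θ i x) with h | ⟨k, hk⟩ | ⟨k, hk1, hk2⟩
    · exact absurd h hop
    · refine ⟨w i + k, ?_⟩
      rw [tdbl_lin k hk.ge (by linarith), hk]; push_cast; ring
    · refine ⟨w i + k + 1, ?_⟩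
      rw [tdbl_flat k hk1 hk2.le]; push_cast; ring
  obtain ⟨c, hc⟩ := orbit_st hw hθ hc₀ n le_rfl
  -- periodicity
  have h1 : gw w θ (i + 1 + n) x = gw w θ (i + 1) x + m := by
    rw [add_comm (i + 1) n, gw_add, mul_apply, hx, map_add_int]
    congr 1
    exact congrArg (fun f : CircleDeg1Lift => f x) (gw_congr θ (i + 1) fun j _ => by
      show w (n + j) = w j
      rw [add_comm, hper])
  have hne := run_ne hn hw hper hS (p := i + 1) (by omega) (by omega)
  obtain ⟨a, ha⟩ : ∃ a, st w 0 (i + 1) n = a + 1 := ⟨st w 0 (i + 1) n - 1, by omega⟩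
  have hle := st_le w 0 (i + 1) n
  rw [ha] at hc hle
  refine not_per_of_strict (hθ a (by omega)) (c := c₀ + m - c) ?_
  push_cast
  linarith

/-- the flipped last symbol gives an integral rotation number -/
theorem nu_int_of_flip {w : ℕ → ℤ} {n : ℕ} {θ : ℝ} (hw : ∀ i, w i = 0 ∨ w i = 1)
    (hθ : ∀ i < n, InHalfO (θ + w i) (2 ^ i * θ)) {e : ℤ} (he : e = 0 ∨ e = 1) (hne : e ≠ w n)
    (hl : InHalfO (θ + e) (2 ^ n * θ)) : ∃ m : ℤ, nu w (n + 1) θ = m := by
  obtain ⟨c, hc⟩ := gw_lin w θ θ n fun i hi => by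
    obtain ⟨k, h1, h2⟩ := hθ i hi
    exact ⟨k, h1.le, h2.le⟩
  obtain ⟨c', hc'⟩ := tdbl_other (y := gw w θ n θ) he (hw n) hne hl (c := -c)
    (by rw [hc]; push_cast; ring)
  refine ⟨c', ?_⟩
  have := (nu_eq_rat_iff w (n + 1) θ 1 one_pos c').2 ⟨θ, by
    rw [pow_one, gw_succ_apply, hc']⟩
  rw [this]; simp

end Pool.Agent.Work.MLC.Sep
end

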