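import Pool.Agent.Work.MLCM.C43

section
set_option autoImplicit false

/-! # Circle module for satellite components, part C (helper54)

The characteristic arc `(s, t)` of a compatible angle and the flipped word. -/

namespace Pool.Agent.Work.MLC

open Set Circ CircleDeg1Lift Filter Topology

/-- `(s, t)` is the characteristic arc of the cycle of `s`, `w` the word of the cycle -/
structure CA (N q : ℕ) (w : ℕ → ℤ) (s t : ℝ) : Prop where
  pos : 0 < N
  two : 2 ≤ q
  word : Word N w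
  per : PerAngle N q s
  lt : s < t
  lt' : t < s + 1
  mem : t ∈ AA N s 0
  compat : ∀ θ, s < θ → θ < t → Compat s θ w
  nopt : ∀ j, ∀ a ∈ AA N s j, s < a → ¬ a < t

/-- **existence of the characteristic arc** around a compatible `θ` -/
theorem exists_CA {N q : ℕ} (hN : 0 < N) (hq : 2 ≤ q) {x θ : ℝ} {w : ℕ → ℤ} (hw : Word N w)
    (hx : PerAngle N q x) (hc : Compat x θ w) :
    ∃ i₀ < N, ∃ s t : ℝ, s < θ ∧ θ < t ∧ s ∈ AA N x i₀ ∧ CA N q (fun j => w (i₀ + j)) s t := by
  have hP := portrait_AA hN hq hw hx hc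
  obtain ⟨s, t, hst, hts, ⟨i, hsi, hti⟩, ⟨v, hv, hvI⟩, hall⟩ := hP.arc_word hN
  obtain ⟨k, hk1, hk2⟩ := hall θ fun i => ⟨w i, inHalf_of_compat hw.2.1 hc i⟩
  -- translate the arc
  set i₀ := i % N with hi₀
  have hsi' : s - k ∈ AA N x i₀ := by
    have := AA_shift hsi (-k)
    rw [AA_mod hx] at this
    push_cast at this
    rwa [← sub_eq_add_neg] at this
  have hti' : t - k ∈ AA N x i₀ := by
    have := AA_shift hti (-k)
    rw [AA_mod hx] at this
    push_cast at this
    rwa [← sub_eq_add_neg] at this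
  have hps := perAngle_of_mem hx hsi'
  -- the words agree
  have hhalf : ∀ θ', s - k < θ' → θ' < t - k → ∀ j, Pool.Agent.MLC.InHalf (AA N x j) θ' (w j) := by
    intro θ' h1 h2 j
    have e1 : Pool.Agent.MLC.InHalf (AA N x j) (θ + k) (v j) := hvI j _ ⟨hk1, hk2⟩
    have e2 : Pool.Agent.MLC.InHalf (AA N x j) (θ + k) (w j - k) :=
      (inHalf_of_compat hw.2.1 hc j).shift k
    obtain ⟨l, hl⟩ := Pool.Agent.MLC.InHalf.unique ⟨_, mem_AA N x j⟩ e1 e2
    have e3 : Pool.Agent.MLC.InHalf (AA N x j) (θ' + k) (v j) := hvI j _ ⟨by linarith, by linarith⟩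
    have e4 := (e3.shift (-k)).add_two l
    have e5 : θ' + (k : ℝ) + ((-k : ℤ) : ℝ) = θ' := by push_cast; ring
    have e6 : v j - -k + 2 * l = w j := by omega
    rwa [e5, e6] at e4
  have hcompat : ∀ θ', s - k < θ' → θ' < t - k → Compat (s - k) θ' (fun j => w (i₀ + j)) :=
    fun θ' h1 h2 => compat_of_inHalf hsi' hw.2.1 (hhalf θ' h1 h2)
  refine ⟨i₀, Nat.mod_lt _ hN, s - k, t - k, by linarith, by linarith, hsi', hN, hq, ?_, hps,
    by linarith, by linarith, ?_, hcompat, ?_⟩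
  · refine ⟨fun i => hw.1 _, fun i => ?_, fun d hd hdN => ?_⟩
    · show w (i₀ + (i + N)) = w (i₀ + i)
      rw [← add_assoc, hw.2.1]
    · by_contra hcon
      push Not at hcon
      have h1 := mod_eq_of_word hN hw (i := i₀ + d) (j := i₀) fun t => by
        have := hcon t
        rw [show i₀ + d + t = i₀ + (t + d) by ring]; exact this
      have h2 : i₀ % N = i₀ := Nat.mod_eq_of_lt (Nat.mod_lt _ hN)
      have h3 : i₀ < N := Nat.mod_lt _ hN
      rcases Nat.lt_or_ge (i₀ + d) N with h | h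
      · rw [Nat.mod_eq_of_lt h, h2] at h1; omega
      · rw [Nat.mod_eq_sub_mod h, Nat.mod_eq_of_lt (by omega), h2] at h1; omega
  · rw [AA_of_mem hx hsi' 0]; exact hti'
  · intro j a ha h1 h2
    rw [AA_of_mem hx hsi' j, ← AA_per hx] at ha
    have ha' : a ∈ AA N x ((i₀ + j + N - 1) + 1) := by
      rwa [show i₀ + j + N - 1 + 1 = i₀ + j + N by omega]
    obtain ⟨a', ha', m, hm⟩ := AA_sur ha'
    obtain ⟨l, hl1, hl2⟩ := hhalf a h1 h2 _ a' ha'
    have f1 : ((w (i₀ + j + N - 1) : ℤ) : ℝ) < ((m + 2 * l : ℤ) : ℝ) := by push_cast; linarith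
    have f2 : ((m + 2 * l : ℤ) : ℝ) < ((w (i₀ + j + N - 1) + 1 : ℤ) : ℝ) := by push_cast; linarith
    have f3 : w (i₀ + j + N - 1) < m + 2 * l := by exact_mod_cast f1
    have f4 : m + 2 * l < w (i₀ + j + N - 1) + 1 := by exact_mod_cast f2
    omega

namespace CA

variable {N q : ℕ} {w : ℕ → ℤ} {s t : ℝ}

theorem npos (h : CA N q w s t) : 0 < N * q := Nat.mul_pos h.pos (by have := h.two; omega)

theorem per_s (h : CA N q w s t) : ∃ a : ℤ, 2 ^ (N * q) * s - s = a := h.per.2.1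

theorem perAngle_t (h : CA N q w s t) : PerAngle N q t := perAngle_of_mem h.per h.mem

theorem per_t (h : CA N q w s t) : ∃ a : ℤ, 2 ^ (N * q) * t - t = a := h.perAngle_t.2.1

theorem AA_t (h : CA N q w s t) (j : ℕ) : AA N t j = AA N s j := by
  have := AA_of_mem h.per h.mem j
  rwa [Nat.zero_add] at this

/-- a point of some phase and its integer translates are not in the arc -/
theorem nopt' (h : CA N q w s t) {j : ℕ} {a : ℝ} (ha : a ∈ AA N s j) (m : ℤ) (h1 : s + m < a)
    (h2 : a < t + m) : False := by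
  have := h.nopt j (a + ((-m : ℤ) : ℝ)) (AA_shift ha _)
  push_cast at this
  exact this (by linarith) (by linarith)

theorem half (h : CA N q w s t) {θ : ℝ} (h1 : s < θ) (h2 : θ < t) (j : ℕ) :
    Pool.Agent.MLC.InHalf (AA N s j) θ (w j) :=
  inHalf_of_compat h.word.2.1 (h.compat θ h1 h2) j

/-- **normal form of the position of a point**: `2 a - w j - 2 k` is in `[t, s + 1]` -/
theorem pos_arc (h : CA N q w s t) {j : ℕ} {a : ℝ} (ha : a ∈ AA N s j) :
    ∃ k : ℤ, t ≤ 2 * a - w j - 2 * k ∧ 2 * a - w j - 2 * k ≤ s + 1 := by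
  have hm1 : s < (s + t) / 2 := by have := h.lt; linarith
  have hm2 : (s + t) / 2 < t := by have := h.lt; linarith
  obtain ⟨k, k1, k2⟩ := h.half hm1 hm2 j a ha
  have hst := h.lt
  refine ⟨-k, ?_, ?_⟩
  · by_contra hcon
    push Not at hcon
    push_cast at hcon
    refine h.nopt' (AA_dbl' ha (w j - 2 * k)) 0 ?_ ?_ <;> push_cast <;> linarith
  · by_contra hcon
    push Not at hcon
    push_cast at hcon
    refine h.nopt' (AA_dbl' ha (w j - 2 * k)) 1 ?_ ?_ <;> push_cast <;> linarith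

/-- points of different phases are different -/
theorem mod_of_mem (h : CA N q w s t) {i j : ℕ} {a : ℝ} (ha : a ∈ AA N s i) (hb : a ∈ AA N s j) :
    i % N = j % N := by
  by_contra hne
  have hm1 : s < (s + t) / 2 := by have := h.lt; linarith
  have hm2 : (s + t) / 2 < t := by have := h.lt; linarith
  have hc := h.compat _ hm1 hm2
  exact not_linked h.pos h.word hc hc hne ⟨a, ha, a, hb, a, ha, a, hb, le_rfl, le_rfl, le_rfl,
    by linarith⟩

/-- the period of `s` is exactly `N q` -/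
theorem dvd_of_per (h : CA N q w s t) {x : ℝ} (hx : x ∈ AA N s 0) {j : ℕ} {m : ℤ}
    (hj : 2 ^ j * x = x + m) : N * q ∣ j := by
  -- first `N ∣ j`
  have hxp := perAngle_of_mem h.per hx
  have h1 : x + m ∈ AA N s 0 := AA_shift hx m
  have h2 : x + m ∈ AA N s j := by
    rw [← hj]
    have := AA_of_mem h.per hx j
    rw [Nat.zero_add] at this
    rw [← this]
    exact mem_AA N x j
  have h3 := h.mod_of_mem h1 h2
  rw [Nat.zero_mod] at h3
  obtain ⟨c, rfl⟩ := Nat.dvd_of_mod_eq_zero h3.symm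
  refine Nat.mul_dvd_mul_left N ?_
  obtain ⟨hq, ⟨a, ha⟩, hex⟩ := hxp
  by_contra hnd
  have hr : 0 < c % q := Nat.pos_of_ne_zero fun h0 => hnd (Nat.dvd_of_mod_eq_zero h0)
  refine hex (c % q) hr (Nat.mod_lt _ hq) ?_
  obtain ⟨b, hb⟩ := pow_per_mul ha (c / q)
  have e : N * c = N * (c % q) + N * q * (c / q) := by
    conv_lhs => rw [← Nat.mod_add_div c q]
    ring
  rw [e, pow_add, mul_assoc, hb] at hj
  refine ⟨m - 2 ^ (N * (c % q)) * b, ?_⟩
  push_cast
  linear_combination hj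

theorem ne_of_lt (h : CA N q w s t) {x : ℝ} (hx : x ∈ AA N s 0) {j : ℕ} (h0 : 0 < j)
    (hj : j < N * q) (m : ℤ) : 2 ^ j * x ≠ x + m := fun he =>
  absurd (Nat.le_of_dvd h0 (h.dvd_of_per hx he)) (not_le.2 hj)

end CA

/-! ### the flipped word -/

/-- the word of the satellite: `w` with the last letter of each block of length `n` flipped -/
def flw (n : ℕ) (w : ℕ → ℤ) (j : ℕ) : ℤ := if (j + 1) % n = 0 then 1 - w j else w j

theorem flw_of_lt {n : ℕ} (w : ℕ → ℤ) {j : ℕ} (h : j + 1 < n) : flw n w j = w j := by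
  unfold flw
  rw [if_neg]
  rw [Nat.mod_eq_of_lt h]; omega

theorem flw_last {n : ℕ} (w : ℕ → ℤ) {j : ℕ} (h : j + 1 = n) : flw n w j = 1 - w j := by
  unfold flw
  rw [h, Nat.mod_self, if_pos rfl]

theorem flw_per {n : ℕ} {w : ℕ → ℤ} (hw : ∀ i, w (i + n) = w i) (i : ℕ) :
    flw n w (i + n) = flw n w i := by
  unfold flw
  rw [hw, show i + n + 1 = i + 1 + n by ring, Nat.add_mod_right]

theorem flw_bit {n : ℕ} {w : ℕ → ℤ} (hw : ∀ i, w i = 0 ∨ w i = 1) (i : ℕ) :
    flw n w i = 0 ∨ flw n w i = 1 := by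
  unfold flw
  split_ifs
  · rcases hw i with h | h <;> rw [h] <;> norm_num
  · exact hw i

theorem bits_flw {N q : ℕ} {w : ℕ → ℤ} (hw : Word N w) : Bits (N * q) (flw (N * q) w) :=
  ⟨flw_bit hw.1, flw_per fun i => word_mod hw.2.1 i q⟩

/-- abstract halving argument -/
theorem halving {X : Set ℝ} (hX2 : ∀ u ∈ X, ∀ k : ℤ, 2 * u - k ∈ X) (M : ℕ) (y z : ℕ → ℝ)
    (hstep : ∀ i < M, (∃ k : ℤ, y (i + 1) = 2 * y i - k ∧ z (i + 1) = 2 * z i - k) ∨
      ∃ u ∈ X, y (i + 1) < u ∧ u < z (i + 1))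
    (hX : ∀ u ∈ X, y M < u → ¬ u < z M) : z M - y M = 2 ^ M * (z 0 - y 0) := by
  have h1 : ∀ d i, i + d = M → ∀ u ∈ X, y i < u → ¬ u < z i := by
    intro d
    induction d with
    | zero => intro i hi u hu h1 h2; rw [add_zero] at hi; subst hi; exact hX u hu h1 h2
    | succ d ih =>
      intro i hi u hu h1 h2
      rcases hstep i (by omega) with ⟨k, e1, e2⟩ | ⟨u', hu', h3, h4⟩
      · refine ih (i + 1) (by omega) (2 * u - k) (hX2 u hu k) ?_ ?_
        · rw [e1]; linarith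
        · rw [e2]; linarith
      · exact ih (i + 1) (by omega) u' hu' h3 h4
  have h2 : ∀ i ≤ M, z i - y i = 2 ^ i * (z 0 - y 0) := by
    intro i
    induction i with
    | zero => intro _; simp
    | succ i ih =>
      intro hi
      rcases hstep i (by omega) with ⟨k, e1, e2⟩ | ⟨u', hu', h3, h4⟩
      · rw [e1, e2, pow_succ]
        have := ih (by omega)
        linarith
      · exact (h1 (M - (i + 1)) (i + 1) (by omega) u' hu' h3 h4).elim
  exact h2 M le_rfl

namespace CA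

variable {N q : ℕ} {w : ℕ → ℤ} {s t : ℝ}

/-- orbit of a point of phase `0` -/
theorem gw_pt (h : CA N q w s t) {θ : ℝ} (h1 : s < θ) (h2 : θ < t) {x : ℝ} (hx : x ∈ AA N s 0)
    (i : ℕ) : gw w θ i x ∈ AA N s i ∧ ∃ k : ℤ, gw w θ (i + 1) x = 2 * gw w θ i x - k ∧
      (θ + w i) / 2 + k < gw w θ i x ∧ gw w θ i x < (θ + w i) / 2 + k + 1 / 2 := by
  have key : gw w θ i x ∈ AA N s i := by
    induction i with
    | zero => simpa using hx
    | succ i ih =>
      obtain ⟨k, e, -, -⟩ := tdbl_of_inHalf (h.half h1 h2 i) ih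
      rw [gw_succ_apply, e]
      exact AA_dbl' ih k
  refine ⟨key, ?_⟩
  obtain ⟨k, e, e1, e2⟩ := tdbl_of_inHalf (h.half h1 h2 i) key
  exact ⟨k, by rw [gw_succ_apply, e], e1, e2⟩

/-- it is the orbit of doublings modulo `1` -/
theorem gw_pt_eq (h : CA N q w s t) {θ : ℝ} (h1 : s < θ) (h2 : θ < t) {x : ℝ} (hx : x ∈ AA N s 0)
    (i : ℕ) : ∃ m : ℤ, gw w θ i x = 2 ^ i * x + m := by
  induction i with
  | zero => exact ⟨0, by simp⟩
  | succ i ih =>
    obtain ⟨m, hm⟩ := ih
    obtain ⟨-, k, e, -, -⟩ := h.gw_pt h1 h2 hx i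
    refine ⟨2 * m - k, ?_⟩
    rw [e, hm, pow_succ]; push_cast; ring

/-- the orbit of `s` does not come back before the time `N q` -/
theorem gw_s_ne (h : CA N q w s t) {θ : ℝ} (h1 : s < θ) (h2 : θ < t) {x : ℝ} (hx : x ∈ AA N s 0)
    {i : ℕ} (h0 : 0 < i) (hi : i < N * q) (m : ℤ) : gw w θ i x ≠ x + m := by
  obtain ⟨m', hm'⟩ := h.gw_pt_eq h1 h2 hx i
  intro he
  refine h.ne_of_lt hx h0 hi (m - m') ?_
  push_cast
  linarith

/-- **the flipped word is never integral on the open arc** -/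
theorem flw_ne_int (h : CA N q w s t) {θ : ℝ} (h1 : s < θ) (h2 : θ < t) (k₀ : ℤ) :
    nu (flw (N * q) w) (N * q) θ ≠ k₀ := by
  intro hk₀
  set n := N * q with hn
  have hn0 : 0 < n := h.npos
  obtain ⟨M, hM⟩ : ∃ M, M + 1 = n := ⟨n - 1, by omega⟩
  have hst := h.lt
  have hts := h.lt'
  -- the periodic orbit of the flipped word
  obtain ⟨x, hx⟩ : ∃ x, gw (flw n w) θ n x = x + k₀ := by
    have := (nu_eq_rat_iff (flw n w) n θ 1 one_pos k₀).1 (by rw [hk₀]; simp)
    simpa using this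
  obtain ⟨z₀, hz₀, hcl, -⟩ := exists_cl hn0 ⟨x, hx⟩
  -- the points `y_M, y'_M`
  obtain ⟨hyA, k₁, hy1, hy2, hy3⟩ := h.gw_pt h1 h2 ⟨0, 0, by simp⟩ (x := s) M
  obtain ⟨hyA', k₁', hy1', hy2', hy3'⟩ := h.gw_pt h1 h2 h.mem M
  obtain ⟨hyAn, -⟩ := h.gw_pt h1 h2 (x := s) ⟨0, 0, by simp⟩ (M + 1)
  obtain ⟨hyAn', -⟩ := h.gw_pt h1 h2 h.mem (M + 1)
  set y := gw w θ M s with hy
  set y' := gw w θ M t with hy'
  have hlast : flw n w M = 1 - w M := flw_last w hM
  -- `y`
  have ey : y = (s + 1 + w M) / 2 + k₁ := by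
    -- `2 y - w - 2 k₁` is congruent to `s`
    obtain ⟨a, ha⟩ := h.gw_pt_eq h1 h2 (x := s) ⟨0, 0, by simp⟩ (M + 1)
    obtain ⟨b, hb⟩ := h.per_s
    rw [← hn, ← hM] at hb
    have e1 : 2 * y - w M - 2 * k₁ = s + ((a + b - w M - k₁ : ℤ) : ℝ) := by
      push_cast; linarith
    set c : ℤ := a + b - w M - k₁ with hc
    have f1 : ((-1 : ℤ) : ℝ) < c := by push_cast; linarith
    have f2 : (c : ℝ) < ((2 : ℤ) : ℝ) := by push_cast; linarith
    have f3 : -1 < c := by exact_mod_cast f1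
    have f4 : c < 2 := by exact_mod_cast f2
    have f5 : c = 0 ∨ c = 1 := by omega
    rcases f5 with f5 | f5
    · rw [f5] at e1; push_cast at e1; linarith
    · rw [f5] at e1; push_cast at e1; linarith
  -- `y'`
  have ey' : y' = (t + w M) / 2 + k₁' := by
    obtain ⟨a, ha⟩ := h.gw_pt_eq h1 h2 h.mem (M + 1)
    obtain ⟨b, hb⟩ := h.per_t
    rw [← hn, ← hM] at hb
    have e1 : 2 * y' - w M - 2 * k₁' = t + ((a + b - w M - k₁' : ℤ) : ℝ) := by
      push_cast; linarith
    set c : ℤ := a + b - w M - k₁' with hc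
    have f1 : ((-2 : ℤ) : ℝ) < c := by push_cast; linarith
    have f2 : (c : ℝ) < ((1 : ℤ) : ℝ) := by push_cast; linarith
    have f3 : -2 < c := by exact_mod_cast f1
    have f4 : c < 1 := by exact_mod_cast f2
    have f5 : c = -1 ∨ c = 0 := by omega
    rcases f5 with f5 | f5
    · rw [f5] at e1; push_cast at e1; linarith
    · rw [f5] at e1; push_cast at e1; linarith
  have hk₁ : k₁' = k₁ + 1 := by
    have g1 : y ≤ y' := (gw w θ M).monotone hst.le
    have g2 : y' ≤ y + 1 := by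
      rw [hy, ← map_add_one]; exact (gw w θ M).monotone hts.le
    have f1 : ((k₁ : ℤ) : ℝ) < ((k₁' : ℤ) : ℝ) := by linarith
    have f2 : ((k₁' : ℤ) : ℝ) < ((k₁ + 2 : ℤ) : ℝ) := by push_cast; linarith
    have f3 : k₁ < k₁' := by exact_mod_cast f1
    have f4 : k₁' < k₁ + 2 := by exact_mod_cast f2
    omega
  -- translate `z`
  obtain ⟨k₂, hz1, hz2⟩ := hcl M (by omega)
  rw [hlast] at hz1 hz2
  set z : ℝ := z₀ + ((k₁ - k₂ + w M : ℤ) : ℝ) with hz
  have hgz : ∀ i, gw (flw n w) θ i z = gw (flw n w) θ i z₀ + ((k₁ - k₂ + w M : ℤ) : ℝ) := fun i =>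
    map_add_int _ _ _
  have hcong : ∀ i ≤ M, gw (flw n w) θ i = gw w θ i := fun i hi =>
    gw_congr θ i fun j hj => flw_of_lt w (by omega)
  have hzn : gw (flw n w) θ n z = z + k₀ := by rw [hgz, hz₀]; ring
  have hclz : ∀ i < M, ∃ k : ℤ, gw w θ (i + 1) z = 2 * gw w θ i z - k ∧
      (θ + w i) / 2 + k ≤ gw w θ i z ∧ gw w θ i z ≤ (θ + w i) / 2 + k + 1 / 2 := by
    intro i hi
    obtain ⟨k, e1, e2⟩ := hcl i (by omega)
    rw [flw_of_lt w (by omega), hcong i hi.le] at e1 e2
    refine ⟨k + (k₁ - k₂ + w M), ?_, ?_, ?_⟩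
    · rw [← hcong (i + 1) (by omega), ← hcong i hi.le, hgz, hgz, hcong i hi.le, gw_succ_apply,
        flw_of_lt w (by omega), hcong i hi.le, tdbl_lin k e1 e2]
      push_cast; ring
    · rw [← hcong i hi.le, hgz, hcong i hi.le]; push_cast; linarith
    · rw [← hcong i hi.le, hgz, hcong i hi.le]; push_cast; linarith
  set zM := gw w θ M z with hzM
  have ezM : zM = gw (flw n w) θ M z₀ + ((k₁ - k₂ + w M : ℤ) : ℝ) := by
    rw [hzM, ← hcong M le_rfl, hgz]
  have hzM1 : (θ + w M + 1) / 2 + k₁ ≤ zM := by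
    rw [ezM]; push_cast; push_cast at hz1; linarith
  have hzM2 : zM ≤ (θ + w M + 1) / 2 + k₁ + 1 / 2 := by
    rw [ezM]; push_cast; push_cast at hz2; linarith
  have hyz : y < zM := by rw [ey]; linarith
  have hzy' : zM < y' := by
    rw [ey', hk₁]; push_cast; linarith
  -- monotonicity: the order was the same before
  have hlow : ∀ i ≤ M, gw w θ i s < gw w θ i z := by
    intro i hi
    by_contra hcon
    push Not at hcon
    obtain ⟨d, rfl⟩ : ∃ d, M = i + d := ⟨M - i, by omega⟩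
    have := (gw (fun j => w (i + j)) θ d).monotone hcon
    rw [← mul_apply, ← mul_apply, ← gw_add] at this
    exact absurd hyz (not_lt.2 this)
  have hupp : ∀ i ≤ M, gw w θ i z < gw w θ i t := by
    intro i hi
    by_contra hcon
    push Not at hcon
    obtain ⟨d, rfl⟩ : ∃ d, M = i + d := ⟨M - i, by omega⟩
    have := (gw (fun j => w (i + j)) θ d).monotone hcon
    rw [← mul_apply, ← mul_apply, ← gw_add] at this
    exact absurd hzy' (not_lt.2 this)
  have hsz : s < z := by simpa using hlow 0 (Nat.zero_le _)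
  have hzt : z < t := by simpa using hupp 0 (Nat.zero_le _)
  -- closing the orbit
  have hclose : z + k₀ = 2 * zM - k₁ - w M := by
    have e1 : gw (flw n w) θ (M + 1) z = 2 * zM - ((k₁ + w M : ℤ) : ℝ) := by
      rw [gw_succ_apply, hcong M le_rfl, hlast, ← hzM]
      exact tdbl_lin (k₁ + w M) (by push_cast; linarith) (by push_cast; linarith)
    rw [hM, hzn] at e1
    rw [e1]; push_cast; ring
  have hX2 : ∀ u ∈ {u | ∃ j, u ∈ AA N s j}, ∀ k : ℤ, 2 * u - k ∈ {u | ∃ j, u ∈ AA N s j} := by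
    rintro u ⟨j, hj⟩ k
    exact ⟨j + 1, AA_dbl' hj k⟩
  have hcase : k₀ = 1 + k₁ ∨ k₀ = 2 + k₁ := by
    have f1 : ((k₁ : ℤ) : ℝ) < ((k₀ : ℤ) : ℝ) := by linarith
    have f2 : ((k₀ : ℤ) : ℝ) < ((k₁ + 3 : ℤ) : ℝ) := by push_cast; linarith
    have f3 : k₁ < k₀ := by exact_mod_cast f1
    have f4 : k₀ < k₁ + 3 := by exact_mod_cast f2
    omega
  have hpow : (1 : ℝ) ≤ 2 ^ M := one_le_pow₀ (by norm_num)
  rcases hcase with hk | hk
  · -- close to `y`
    have hD : zM - y = (z - s) / 2 := by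
      rw [hk] at hclose; push_cast at hclose; rw [ey]; linarith
    have hh : zM - y = 2 ^ M * (z - s) :=
      halving hX2 M (fun i => gw w θ i s) (fun i => gw w θ i z) ?_ ?_
    · rw [hD] at hh
      have hp : z - s ≤ 2 ^ M * (z - s) := le_mul_of_one_le_left (by linarith) hpow
      linarith
    · intro i hi
      obtain ⟨-, k, e1, e2, e3⟩ := h.gw_pt h1 h2 (x := s) ⟨0, 0, by simp⟩ i
      obtain ⟨l, f1, f2, f3⟩ := hclz i hi
      rcases lt_trichotomy k l with hkl | hkl | hkl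
      · right
        have hkl' : (k : ℝ) + 1 ≤ l := by exact_mod_cast hkl
        obtain ⟨hA, -⟩ := h.gw_pt h1 h2 (x := s) ⟨0, 0, by simp⟩ (i + 1)
        refine ⟨s + ((w i + k + 1 : ℤ) : ℝ), ⟨0, AA_shift ⟨0, 0, by simp⟩ _⟩, ?_, ?_⟩
        · refine lt_of_le_of_ne ?_ (h.gw_s_ne h1 h2 ⟨0, 0, by simp⟩ (by omega) (by omega) _)
          by_contra hcon
          push Not at hcon
          refine h.nopt' hA (w i + k + 1) hcon ?_
          rw [e1]; push_cast; linarith
        · show _ < gw w θ (i + 1) z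
          rw [f1]; push_cast; linarith
      · left
        exact ⟨k, e1, by rw [hkl]; exact f1⟩
      · exfalso
        have hkl' : (l : ℝ) + 1 ≤ k := by exact_mod_cast hkl
        have := hlow i hi.le
        linarith
    · rintro u ⟨j, hj⟩ hu1 hu2
      refine h.nopt' (AA_dbl' hj (2 * k₁ + w M)) 1 ?_ ?_
      · push_cast
        have : y < u := hu1
        rw [ey] at this; linarith
      · push_cast
        have h3 : u < zM := hu2
        have h4 : 2 * zM = z + 1 + 2 * k₁ + w M := by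
          rw [hk] at hclose; push_cast at hclose; linarith
        linarith
  · -- close to `y'`
    have hD : y' - zM = (t - z) / 2 := by
      rw [hk] at hclose; push_cast at hclose; rw [ey', hk₁]; push_cast; linarith
    have hX2' : ∀ u ∈ {u | ∃ j, -u ∈ AA N s j}, ∀ k : ℤ, 2 * u - k ∈ {u | ∃ j, -u ∈ AA N s j} := by
      rintro u ⟨j, hj⟩ k
      refine ⟨j + 1, ?_⟩
      have := AA_dbl' hj (-k)
      have e : -(2 * u - (k : ℝ)) = 2 * -u - ((-k : ℤ) : ℝ) := by push_cast; ring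
      rw [e]; exact this
    have hh : -zM - -y' = 2 ^ M * (-z - -t) :=
      halving hX2' M (fun i => - gw w θ i t) (fun i => - gw w θ i z) ?_ ?_
    · have e : -zM - -y' = (t - z) / 2 := by linarith
      have e2 : -z - -t = t - z := by ring
      rw [e, e2] at hh
      have hp : t - z ≤ 2 ^ M * (t - z) := le_mul_of_one_le_left (by linarith) hpow
      linarith
    · intro i hi
      obtain ⟨-, k, e1, e2, e3⟩ := h.gw_pt h1 h2 h.mem i
      obtain ⟨l, f1, f2, f3⟩ := hclz i hi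
      rcases lt_trichotomy k l with hkl | hkl | hkl
      · exfalso
        have hkl' : (k : ℝ) + 1 ≤ l := by exact_mod_cast hkl
        have := hupp i hi.le
        linarith
      · left
        refine ⟨-k, ?_, ?_⟩
        · show - gw w θ (i + 1) t = 2 * - gw w θ i t - ((-k : ℤ) : ℝ)
          rw [e1]; push_cast; ring
        · show - gw w θ (i + 1) z = 2 * - gw w θ i z - ((-k : ℤ) : ℝ)
          rw [hkl, f1]; push_cast; ring
      · right
        have hkl' : (l : ℝ) + 1 ≤ k := by exact_mod_cast hkl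
        obtain ⟨hA, -⟩ := h.gw_pt h1 h2 h.mem (i + 1)
        refine ⟨-(t + ((w i + l + 1 : ℤ) : ℝ)), ⟨0, ?_⟩, ?_, ?_⟩
        · rw [neg_neg]; exact AA_shift h.mem _
        · show - gw w θ (i + 1) t < _
          rw [neg_lt_neg_iff]
          refine lt_of_le_of_ne ?_ (Ne.symm
            (h.gw_s_ne h1 h2 h.mem (by omega) (by omega) _))
          by_contra hcon
          push Not at hcon
          refine h.nopt' hA (w i + l + 1) ?_ hcon
          rw [e1]; push_cast; linarith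
        · show _ < - gw w θ (i + 1) z
          rw [neg_lt_neg_iff, f1]; push_cast; linarith
    · rintro u ⟨j, hj⟩ hu1 hu2
      refine h.nopt' (AA_dbl' hj (2 * k₁ + w M)) 2 ?_ ?_
      · push_cast
        have h3 : u < - zM := hu2
        have h4 : 2 * zM = z + 2 + 2 * k₁ + w M := by
          rw [hk] at hclose; push_cast at hclose; linarith
        linarith
      · push_cast
        have h3 : - y' < u := hu1
        rw [ey', hk₁] at h3; push_cast at h3; linarith

end CA

end Pool.Agent.Work.MLC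
end

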