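import Pool.Agent.Work.MLCM.C24
import Pool.Agent.Work.MLCM.C34
import Pool.Agent.Work.MLCM.C38
import Pool.Agent.Work.MLCM.C39
import Pool.Agent.Work.MLCM.C45

section
set_option autoImplicit false

/-! # Module S2: exterior pairs and labels, the lift of the angle along a section, injectivity
(helper51) -/

namespace Pool.Agent.Work.MLC

open Filter Topology Metric Set Complex

/-- other lifts of the angle -/
lemma Ang.add_int {c : ℂ} {θ : ℝ} (h : Ang c θ) (m : ℤ) : Ang c (θ + m) := by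
  refine ⟨h.1, ?_⟩
  have e : ((G c c : ℂ) + 2 * Real.pi * ((θ + m : ℝ) : ℂ) * I) =
      ((G c c : ℂ) + 2 * Real.pi * θ * I) + 2 * Real.pi * I * m := by push_cast; ring
  rw [e, eta_add_int]
  exact h.2

/-- change of the lift of the angle and of the word -/
theorem ExtP.move {n : ℕ} (hn : 0 < n) {c b : ℂ} {θ : ℝ} {w w' : ℕ → ℤ} (h : ExtP n c b θ w)
    (hw' : Bits n w') (m : ℤ) (hp : ∀ i, Even (w' i - w i - m)) : ExtP n c b (θ + m) w' := by
  obtain ⟨w'', hw''⟩ := exists_extP_word hn (h.ang.add_int m) h.2.2.1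
  obtain ⟨m', hm', hpar⟩ := extP_unique h hw''
  have hmm : m' = m := by
    have : (m : ℝ) = m' := by linarith
    exact_mod_cast this.symm
  subst hmm
  have e : w'' = w' := by
    funext i
    have h1 := hpar i
    have h2 := hp i
    rw [Int.even_iff] at h1 h2
    rcases hw''.2.2.2.1.bit i with a | a <;> rcases hw'.bit i with b' | b' <;> omega
  rw [← e]
  exact hw''

/-- the normalised word (first letter zero) -/
theorem ExtP.norm {n : ℕ} (hn : 0 < n) {c b : ℂ} {θ : ℝ} {w : ℕ → ℤ} (h : ExtP n c b θ w) :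
    ExtP n c b (θ + w 0) (nw w) := by
  refine h.move hn (bits_nw h.2.2.2.1) (w 0) fun i => ?_
  have h1 := nw_add h.2.2.2.1 i
  refine ⟨w 0 * (1 - w i) - w 0, ?_⟩
  linarith

/-- integer rotation numbers and the choice of the lift -/
theorem nu_int_move {n : ℕ} {c b : ℂ} {θ θ' : ℝ} {w w' : ℕ → ℤ} (h : ExtP n c b θ w)
    (h' : ExtP n c b θ' w') (hI : ∀ k : ℤ, Circ.nu w n θ ≠ k) (k : ℤ) : Circ.nu w' n θ' ≠ k := by
  obtain ⟨m, hm, hp⟩ := extP_unique h h'
  obtain ⟨j, hj⟩ := nu_parity hp n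
  intro hk
  have e : θ + m + m = θ + 2 * (m : ℤ) := by ring
  rw [hm, hj, e, nu_add_two_mul] at hk
  exact hI (k - j - n * m) (by push_cast; linarith)

/-- **over one exterior parameter a label is carried by at most one point** -/
theorem extP_eq_of_lab {n : ℕ} (hn : 0 < n) {c b b' : ℂ} {θ θ' : ℝ} {w w' : ℕ → ℤ}
    (h : ExtP n c b θ w) (h' : ExtP n c b' θ' w') (hI : ∀ k : ℤ, Circ.nu w n θ ≠ k)
    (hI' : ∀ k : ℤ, Circ.nu w' n θ' ≠ k) (hl : lab n θ w = lab n θ' w') : b = b' := by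
  obtain ⟨w'', hw''⟩ := exists_extP_word hn h.ang h'.2.2.1
  have h1 : lab n θ w'' = lab n θ' w' := (extP_lab_unique h' hw'')
  have h2 := nu_int_move h' hw'' hI'
  have h3 := lab_injective hn h.2.2.2.1 hw''.2.2.2.1 hI h2 (by rw [hl, h1])
  rw [← h3] at hw''
  exact extP_inj hn h hw''

/-- the label is constant along a section over a good half disc -/
theorem FF_const_section {n : ℕ} (hn : 0 < n) {B : Set ℂ} (hB : GoodB n B) {σ : ℂ → ℂ × ℂ}
    (hσ : ContinuousOn σ B) (hσ' : ∀ L ∈ B, σ L ∈ Per n ∧ mul n (σ L) = exp L) {L₁ L₂ : ℂ}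
    (h₁ : L₁ ∈ B) (h₂ : L₂ ∈ B) : FF n (σ L₁) = FF n (σ L₂) := by
  have hloc : ∀ L ∈ B, ∀ᶠ L' in 𝓝 L, FF n (σ L') = FF n (σ L) := by
    intro L hL
    have hn1 : 1 < ‖mul n (σ L)‖ := by
      rw [(hσ' L hL).2, Complex.norm_exp]
      exact Real.one_lt_exp_iff.2 (hB.pos L hL)
    have h1 := FF_nhds hn (hσ' L hL).1 hn1 (by rw [(hσ' L hL).2]; exact hB.lt L hL)
      (hB.noInt' hL (hσ' L hL).2)
    have hBn : B ∈ 𝓝 L := hB.isOpen.mem_nhds hL
    have hc : ContinuousAt σ L := hσ.continuousAt hBn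
    filter_upwards [hc.eventually h1, hBn] with L' h2 h3
    exact h2 (hσ' L' h3).1
  have hpre := hB.conn
  by_contra hne
  have key := hpre.subset_left_of_subset_union (u := {L | L ∈ B ∧ FF n (σ L) = FF n (σ L₁)})
    (v := {L | L ∈ B ∧ FF n (σ L) ≠ FF n (σ L₁)}) ?_ ?_ ?_ ?_ ?_
  · exact hne (key h₂).2.symm
  · rw [isOpen_iff_mem_nhds]
    rintro L ⟨h1, h2⟩
    filter_upwards [hloc L h1, hB.isOpen.mem_nhds h1] with L' h3 h4
    exact ⟨h4, h3.trans h2⟩
  · rw [isOpen_iff_mem_nhds]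
    rintro L ⟨h1, h2⟩
    filter_upwards [hloc L h1, hB.isOpen.mem_nhds h1] with L' h3 h4
    exact ⟨h4, fun h5 => h2 (h3.symm.trans h5)⟩
  · rw [Set.disjoint_left]
    rintro L ⟨-, h1⟩ ⟨-, h2⟩
    exact h2 h1
  · intro L hL
    by_cases h : FF n (σ L) = FF n (σ L₁)
    · exact Or.inl ⟨hL, h⟩
    · exact Or.inr ⟨hL, h⟩
  · exact ⟨L₁, h₁, h₁, rfl⟩

/-- the rotation number of an exterior point of a section over a good half disc is not an integer -/
theorem nu_ne_int_section {n : ℕ} (hn : 0 < n) {B : Set ℂ} (hB : GoodB n B) {σ : ℂ → ℂ × ℂ}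
    (hσ' : ∀ L ∈ B, σ L ∈ Per n ∧ mul n (σ L) = exp L) {L : ℂ} (hL : L ∈ B) {θ : ℝ} {w : ℕ → ℤ}
    (h : ExtP n (σ L).1 (σ L).2 θ w) (k : ℤ) : Circ.nu w n θ ≠ k :=
  nu_ne_int_ext hn (x := σ L) (by rw [(hσ' L hL).2]; exact hB.lt L hL)
    (hB.noInt' hL (hσ' L hL).2) h k

/-- **the lift of the external angle along a section over a good half disc**: one word `w` and one
integer `k` serve for all exterior points of the section -/
theorem exists_word_section {n : ℕ} (hn : 0 < n) {B : Set ℂ} (hB : GoodB n B) {σ : ℂ → ℂ × ℂ}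
    (hσ : ContinuousOn σ B) (hσ' : ∀ L ∈ B, σ L ∈ Per n ∧ mul n (σ L) = exp L) :
    ∃ (w : ℕ → ℤ) (k : ℤ), Bits n w ∧ w 0 = 0 ∧ ∀ L ∈ B, 0 < G (σ L).1 (σ L).1 →
      ∃ θ : ℝ, ExtP n (σ L).1 (σ L).2 θ w ∧ (k : ℝ) < Circ.nu w n θ ∧ Circ.nu w n θ < k + 1 := by
  by_cases hex : ∃ L ∈ B, 0 < G (σ L).1 (σ L).1
  swap
  · refine ⟨fun _ => 0, 0, ⟨fun _ => Or.inl rfl, fun _ => rfl⟩, rfl, fun L hL h => ?_⟩
    exact absurd ⟨L, hL, h⟩ hex
  obtain ⟨L₀, hL₀, hM₀⟩ := hex
  obtain ⟨θ₀, hθ₀⟩ := exists_ang hM₀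
  obtain ⟨w₀, hw₀⟩ := exists_extP_word hn hθ₀ (b := (σ L₀).2) (hσ' L₀ hL₀).1
  have hN₀ := hw₀.norm hn
  set w : ℕ → ℤ := nw w₀ with hw
  set k : ℤ := ⌊Circ.nu w n (θ₀ + w₀ 0)⌋ with hk
  have hwn : nw w = w := by
    funext i
    rw [hw]
    unfold nw
    rcases hw₀.2.2.2.1.bit i with a | a <;> rcases hw₀.2.2.2.1.bit 0 with b | b <;> rw [a, b] <;>
      norm_num
  have hw0 : w 0 = 0 := nw_zero w₀
  refine ⟨w, k, bits_nw hw₀.2.2.2.1, hw0, fun L hL hM => ?_⟩
  obtain ⟨θ₁, hθ₁⟩ := exists_ang hM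
  obtain ⟨w₁, hw₁⟩ := exists_extP_word hn hθ₁ (b := (σ L).2) (hσ' L hL).1
  have hN₁ := hw₁.norm hn
  have hlab : lab n (θ₁ + w₁ 0) (nw w₁) = lab n (θ₀ + w₀ 0) w := by
    have h3 := FF_const_section hn hB hσ hσ' hL hL₀
    rw [FF_ext (x := σ L) hN₁, FF_ext (x := σ L₀) hN₀] at h3
    exact h3
  have hww : nw w₁ = w := by
    have hb1 := bits_nw hw₁.2.2.2.1
    have hb0 : Bits n w := bits_nw hw₀.2.2.2.1
    have h1 : ∀ i < n, nw (nw w₁) i = nw w i := by
      intro i hi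
      have h2 : (lab n (θ₁ + w₁ 0) (nw w₁)).1.1 ⟨i, hi⟩ = (lab n (θ₀ + w₀ 0) w).1.1 ⟨i, hi⟩ := by
        rw [hlab]
      rw [lab_fst, lab_fst] at h2
      have h3 : nw (nw w₁) i = 1 ↔ nw w i = 1 := by simpa using h2
      rcases (bits_nw hb1).bit i with a | a <;> rcases (bits_nw hb0).bit i with a' | a' <;>
        rw [a, a'] at h3 ⊢ <;> norm_num at h3
    have h2 : nw (nw w₁) = nw w₁ := by
      funext i
      unfold nw
      rcases hw₁.2.2.2.1.bit i with a | a <;> rcases hw₁.2.2.2.1.bit 0 with b | b <;>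
        rw [a, b] <;> norm_num
    rw [h2, hwn] at h1
    funext i
    rw [per_mod hb1 i, per_mod hb0 i]
    exact h1 _ (Nat.mod_lt _ hn)
  rw [hww] at hN₁ hlab
  have hsnd : ((⌊Circ.nu w n (θ₁ + w₁ 0)⌋ : ℤ) : ZMod n) = ((k : ℤ) : ZMod n) := by
    have h2 : (lab n (θ₁ + w₁ 0) w).2 = (lab n (θ₀ + w₀ 0) w).2 := by rw [hlab]
    rw [lab_snd, lab_snd, hwn, hw0] at h2
    simpa using h2
  rw [ZMod.intCast_eq_intCast_iff_dvd_sub] at hsnd
  obtain ⟨j, hj⟩ := hsnd
  have hmv : ExtP n (σ L).1 (σ L).2 ((θ₁ + w₁ 0) + ((2 * j : ℤ) : ℝ)) w := by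
    refine hN₁.move hn hN₁.2.2.2.1 (2 * j) fun i => ⟨-j, by ring⟩
  refine ⟨_, hmv, ?_⟩
  have hI := nu_ne_int_section hn hB hσ' hL hmv
  have hval : Circ.nu w n ((θ₁ + w₁ 0) + ((2 * j : ℤ) : ℝ)) = Circ.nu w n (θ₁ + w₁ 0) + n * j := by
    have := nu_add_two_mul w (θ₁ + w₁ 0) n j
    push_cast
    exact this
  have hfl : ⌊Circ.nu w n ((θ₁ + w₁ 0) + ((2 * j : ℤ) : ℝ))⌋ = k := by
    rw [hval]
    have : Circ.nu w n (θ₁ + w₁ 0) + n * j = Circ.nu w n (θ₁ + w₁ 0) + ((n * j : ℤ) : ℝ) := by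
      push_cast; ring
    rw [this, Int.floor_add_intCast]
    linarith
  rw [Int.floor_eq_iff] at hfl
  exact ⟨lt_of_le_of_ne hfl.1 fun h => hI k h.symm, hfl.2⟩

/-- the external angle is an open map -/
theorem ang_open {c : ℂ} {θ : ℝ} (h : Ang c θ) {U : Set ℂ} (hU : U ∈ 𝓝 c) :
    ∀ᶠ θ' in 𝓝 θ, ∃ c' ∈ U, Ang c' θ' := by
  set L₀ : ℂ := (G c c : ℂ) + 2 * Real.pi * θ * I with hL₀
  have hre : L₀.re = G c c := by simp [hL₀]
  have hLpos : 0 < L₀.re := by rw [hre]; exact h.1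
  have hc₀ : cOf L₀ = c := by
    refine cOf_unique ?_ ?_ h.2
    · have h1 : c ∈ Mc := h.1
      exact mem_Mc_iff.1 h1
    · rw [hre, G_zero_eq]; linarith [h.1]
  have hopen : IsOpen {L : ℂ | 0 < L.re} := isOpen_lt continuous_const continuous_re
  have hcc : ContinuousAt cOf L₀ :=
    (differentiableOn_cOf.differentiableAt (hopen.mem_nhds hLpos)).continuousAt
  have hcont : Continuous fun θ' : ℝ => (G c c : ℂ) + 2 * Real.pi * θ' * I := by fun_prop
  have ht : Tendsto (fun θ' : ℝ => cOf ((G c c : ℂ) + 2 * Real.pi * θ' * I)) (𝓝 θ) (𝓝 c) := by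
    have h1 : Tendsto (fun θ' : ℝ => (G c c : ℂ) + 2 * Real.pi * θ' * I) (𝓝 θ) (𝓝 L₀) :=
      hcont.tendsto' _ _ rfl
    have h2 := hcc.tendsto.comp h1
    rw [hc₀] at h2
    exact h2
  filter_upwards [ht hU] with θ' hθ'
  exact ⟨_, hθ', (ang_cOf h.1).1⟩

/-- the lift is continuous along a section -/
theorem lift_nhds_section {n : ℕ} (hn : 0 < n) {D : Set ℂ} (hD : IsOpen D) {σ : ℂ → ℂ × ℂ}
    (hσ : ContinuousOn σ D) (hσ' : ∀ L ∈ D, σ L ∈ Per n ∧ mul n (σ L) = exp L) {L : ℂ}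
    (hL : L ∈ D) {θ : ℝ} {w : ℕ → ℤ} (h : ExtP n (σ L).1 (σ L).2 θ w) {ε : ℝ} (hε : 0 < ε) :
    ∀ᶠ L' in 𝓝 L, ∃ θ' : ℝ, |θ' - θ| < ε ∧ ExtP n (σ L').1 (σ L').2 θ' w := by
  have hDn : D ∈ 𝓝 L := hD.mem_nhds hL
  have hc : ContinuousAt σ L := hσ.continuousAt hDn
  have h1 := extP_nhds hn (c₀ := (σ L).1) (b₀ := (σ L).2) h hε
  filter_upwards [hc.eventually h1, hDn] with L' h2 h3
  exact h2 (hσ' L' h3).1

/-- the lift is an open map along a section which is an open map -/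
theorem lift_open_section {n : ℕ} (hn : 0 < n) {D : Set ℂ} (hD : IsOpen D) {σ : ℂ → ℂ × ℂ}
    (hσ : ContinuousOn σ D) (hσ' : ∀ L ∈ D, σ L ∈ Per n ∧ mul n (σ L) = exp L) {L : ℂ}
    (hL : L ∈ D) {θ : ℝ} {w : ℕ → ℤ} (h : ExtP n (σ L).1 (σ L).2 θ w)
    (hop : ∀ U ∈ 𝓝 L, (fun L => (σ L).1) '' U ∈ 𝓝 (σ L).1) {U : Set ℂ} (hU : U ∈ 𝓝 L) :
    ∀ᶠ θ' in 𝓝 θ, ∃ L' ∈ U ∩ D, ExtP n (σ L').1 (σ L').2 θ' w := by
  have h1 := lift_nhds_section hn hD hσ hσ' hL h (ε := 1 / 2) (by norm_num)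
  have hV : U ∩ D ∩ {L' | ∃ θ' : ℝ, |θ' - θ| < 1 / 2 ∧ ExtP n (σ L').1 (σ L').2 θ' w} ∈ 𝓝 L :=
    inter_mem (inter_mem hU (hD.mem_nhds hL)) h1
  have h2 := ang_open h.ang (hop _ hV)
  have h3 : ∀ᶠ θ' in 𝓝 θ, |θ' - θ| < 1 / 2 := by
    have := Metric.ball_mem_nhds θ (show (0 : ℝ) < 1 / 2 by norm_num)
    filter_upwards [this] with θ' hθ'
    rwa [mem_ball, Real.dist_eq] at hθ'
  filter_upwards [h2, h3] with θ' h4 h5
  obtain ⟨c', ⟨L', ⟨hL', θ'', h6, h7⟩, rfl⟩, h8⟩ := h4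
  refine ⟨L', hL', ?_⟩
  obtain ⟨m, hm⟩ := h7.ang.unique h8
  rw [abs_lt] at h5 h6
  have h9 : (m : ℝ) < 1 := by linarith
  have h10 : (-1 : ℝ) < m := by linarith
  have h11 : m < 1 := by exact_mod_cast h9
  have h12 : -1 < m := by exact_mod_cast h10
  have h13 : m = 0 := by omega
  rw [h13] at hm
  simp at hm
  rw [hm]
  exact h7

/-- the good half disc at `2 π i x` -/
theorem goodB_ball {n : ℕ} (hn : 0 < n) {x : ℚ} (h0 : 0 < x) (h1 : x < 1) :
    GoodB n (ball (axisPt x) (1 / 4 * (min (x : ℝ) (1 - x)) ^ 2 / n) ∩ {L : ℂ | 0 < L.re}) := by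
  refine ⟨isOpen_ball.inter (isOpen_lt continuous_const continuous_re),
    ((convex_ball _ _).inter (convex_halfSpace_re_gt 0)).isPreconnected, fun L hL => hL.2, ?_,
    fun L hL k => (gd_far hn h0 h1 hL.1 k).1⟩
  intro L hL
  rw [norm_exp]
  have h2 := (gd_far hn h0 h1 hL.1 0).2.2
  have h3 : Real.exp L.re < Real.exp (1 / 4) := Real.exp_lt_exp.2 h2
  have h4 : Real.exp (1 / 4) ≤ 23 / 10 := by
    have h5 : Real.exp (1 / 4) ≤ Real.exp (Real.log (23 / 10)) := by
      refine Real.exp_le_exp.2 ?_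
      have := Real.one_sub_inv_le_log_of_pos (by norm_num : (0 : ℝ) < 23 / 10)
      norm_num at this ⊢
      linarith
    rwa [Real.exp_log (by norm_num)] at h5
  linarith

/-- exterior points of a section have positive real part -/
theorem re_pos_of_ext {n : ℕ} (hn : 0 < n) {z : ℂ × ℂ} {L : ℂ} (hz : z ∈ Per n)
    (hm : mul n z = exp L) (hG : 0 < G z.1 z.1) : 0 < L.re := by
  have h1 : 1 < ‖mult n z.1 z.2‖ := one_lt_norm_mult_of_ext hn hG hz
  have h2 : mult n z.1 z.2 = mul n z := rfl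
  rw [h2, hm, norm_exp] at h1
  exact Real.one_lt_exp_iff.1 h1

end Pool.Agent.Work.MLC
end

section
set_option autoImplicit false

/-! # S4: uniqueness of the pair with a given label; the root (helper57) -/

namespace Pool.Agent.Work.MLC

open Filter Topology Metric Set Complex

namespace Sat

/-- every label occurs over the right half of a good disc -/
theorem hall57 {n : ℕ} (hn : 0 < n) {x : ℚ} (h0 : 0 < x) (h1 : x < 1) (j : Lab n) :
    ∃ z ∈ Per n, ∃ L ∈ ball (axisPt x) (gR n x) ∩ {L : ℂ | 0 < L.re},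
      mul n z = exp L ∧ FF n z = j := by
  have hx0 : (0 : ℝ) < x := by exact_mod_cast h0
  have hx1 : (x : ℝ) < 1 := by exact_mod_cast h1
  have hn' : (0 : ℝ) < n := by exact_mod_cast hn
  have hm : 0 < min (x : ℝ) (1 - x) := lt_min hx0 (by linarith)
  have hR : 0 < gR n x := by unfold gR; positivity
  obtain ⟨c, b, θ, w, L, hE, hj, hL, hre, hmem⟩ := occur_ball hn hx0 hx1 hR j
  have hax : (2 * Real.pi * ((x : ℝ) : ℂ) * I : ℂ) = axisPt x := by
    unfold axisPt
    push_cast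
    ring
  rw [hax] at hmem
  exact ⟨(c, b), hE.2.2.1, L, ⟨hmem, hre⟩, hL.symm, (FF_ext (x := (c, b)) hE).trans hj⟩

theorem s4_unique : S4_unique := by
  classical
  intro n x L y y' hn h0 h1 hL hre hy hy' hm hm' hF
  have : NeZero n := ⟨hn.ne'⟩
  have hB := goodB_ball hn h0 h1
  set B := ball (axisPt x) (1 / 4 * (min (x : ℝ) (1 - x)) ^ 2 / n) ∩ {L : ℂ | 0 < L.re} with hBdef
  have hLB : L ∈ B := ⟨hL, hre⟩
  have hexp : ∀ L ∈ B, 1 < ‖exp L‖ := by
    intro L hL
    rw [Complex.norm_exp]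
    exact Real.one_lt_exp_iff.2 (hB.pos L hL)
  have hne1 : ∀ L ∈ B, exp L ≠ 1 := by
    intro L hL h1
    have := hexp L hL
    rw [h1, norm_one] at this
    exact lt_irrefl _ this
  have hFF : ∀ x ∈ Per n, ∀ L ∈ B, mul n x = Complex.exp L →
      ∀ᶠ x' in 𝓝 x, x' ∈ Per n → FF n x' = FF n x := by
    intro x hx L hL hm
    exact FF_nhds hn hx (by rw [hm]; exact hexp L hL) (by rw [hm]; exact hB.lt L hL)
      (hB.noInt' hL hm)
  have h3 : ∀ j : Lab n, ∃ x ∈ Per n, mul n x = Complex.exp L ∧ FF n x = j := by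
    intro j
    obtain ⟨x₀, hx₀, L₀, hL₀, hm₀, hj⟩ := hall57 hn h0 h1 j
    exact labels_fill hn hB.isOpen hB.conn hne1 hB.lt (FF n) hFF hx₀ hL₀ hm₀ hj L hLB
  choose g hg1 hg2 hg3 using h3
  have hginj : Function.Injective g := fun i j hij => by rw [← hg3 i, ← hg3 j, hij]
  set S : Finset (ℂ × ℂ) := Finset.univ.image g with hS
  have hScard : S.card = n * 2 ^ (n - 1) := by
    rw [hS, Finset.card_image_of_injective _ hginj, Finset.card_univ, card_Lab]
  have hSmem : ∀ z ∈ S, z ∈ Per n ∧ mul n z = Complex.exp L := by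
    intro z hz
    obtain ⟨j, -, rfl⟩ := Finset.mem_image.1 hz
    exact ⟨hg1 j, hg2 j⟩
  have hin : ∀ z, z ∈ Per n → mul n z = exp L → z ∈ S := by
    intro z hz hzm
    by_contra hcon
    have h4 := Cnt.card_le hn (hne1 L hLB) (insert z S) (by
      intro z' hz'
      rcases Finset.mem_insert.1 hz' with rfl | hz'
      · exact ⟨hz, hzm⟩
      · exact hSmem z' hz')
    rw [Finset.card_insert_of_notMem hcon, hScard] at h4
    omega
  obtain ⟨j, -, rfl⟩ := Finset.mem_image.1 (hin y hy hm)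
  obtain ⟨j', -, rfl⟩ := Finset.mem_image.1 (hin y' hy' hm')
  rw [hg3, hg3] at hF
  rw [hF]

end Sat

end Pool.Agent.Work.MLC
end

section
set_option autoImplicit false

/-! # Circle module for satellite components, part D (helper54)

Rotation number of the flipped word at the ends of the arc and outside, uniqueness of the compatible
cycle (the arc is the whole plateau), final statement. -/

namespace Pool.Agent.Work.MLC

open Set Circ CircleDeg1Lift Filter Topology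

/-- integer valued on an interval means constant -/
theorem nu_const_of_int {w : ℕ → ℤ} {n : ℕ} {a b : ℝ} (hab : a ≤ b)
    (h : ∀ θ, a ≤ θ → θ ≤ b → ∃ k : ℤ, nu w n θ = k) : nu w n a = nu w n b := by
  obtain ⟨k, hk⟩ := h a le_rfl hab
  obtain ⟨l, hl⟩ := h b hab le_rfl
  have hmono := nu_mono w n hab
  by_contra hne
  have hkl : k < l := by
    have : (k : ℝ) < l := by
      rw [← hk, ← hl]; exact lt_of_le_of_ne hmono hne
    exact_mod_cast this
  have hkl' : (k : ℝ) + 1 ≤ l := by exact_mod_cast hkl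
  have hmem : (k : ℝ) + 1 / 2 ∈ Icc (nu w n a) (nu w n b) := by
    rw [hk, hl]; constructor <;> linarith
  obtain ⟨θ, hθ, he⟩ := intermediate_value_Icc hab (nu_continuous w n).continuousOn hmem
  obtain ⟨m, hm⟩ := h θ hθ.1 hθ.2
  rw [hm] at he
  have e1 : ((2 * m : ℤ) : ℝ) = ((2 * k + 1 : ℤ) : ℝ) := by push_cast; linarith
  have e2 : 2 * m = 2 * k + 1 := by exact_mod_cast e1
  omega

theorem perAngle_one {M : ℕ} {x : ℝ} {a : ℤ} (h : (2 : ℝ) ^ M * x - x = a) : PerAngle M 1 x :=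
  ⟨one_pos, ⟨a, by rw [mul_one]; exact h⟩, fun j h0 h1 => by omega⟩

namespace CA

variable {N q : ℕ} {w : ℕ → ℤ} {s t : ℝ}

/-- position of the doublings of `s` -/
theorem s_pos (h : CA N q w s t) (i : ℕ) :
    ∃ k : ℤ, t ≤ 2 ^ (i + 1) * s - w i - 2 * k ∧ 2 ^ (i + 1) * s - w i - 2 * k ≤ s + 1 ∧
      ((i + 1) % (N * q) ≠ 0 → 2 ^ (i + 1) * s - w i - 2 * k ≠ s + 1) ∧
      ((i + 1) % (N * q) = 0 → 2 ^ (i + 1) * s - w i - 2 * k = s + 1) := by
  obtain ⟨k, h1, h2⟩ := h.pos_arc (mem_AA N s i)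
  have hst := h.lt
  have hts := h.lt'
  have e : (2 : ℝ) ^ (i + 1) * s = 2 * (2 ^ i * s) := by rw [pow_succ]; ring
  refine ⟨k, by rw [e]; exact h1, by rw [e]; exact h2, fun h0 he => ?_, fun h0 => ?_⟩
  · apply h0
    refine Nat.mod_eq_zero_of_dvd (h.dvd_of_per (x := s) ⟨0, 0, by simp⟩ (m := 1 + w i + 2 * k) ?_)
    push_cast; linarith
  · obtain ⟨c, hc⟩ := Nat.dvd_of_mod_eq_zero h0
    obtain ⟨a, ha⟩ := h.per_s
    obtain ⟨b, hb⟩ := pow_per_mul ha c
    rw [← hc] at hb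
    rw [e] at hb ⊢
    have e1 : 2 * (2 ^ i * s) - w i - 2 * k = s + ((b - w i - 2 * k : ℤ) : ℝ) := by
      push_cast; linarith
    rw [e1] at h1 h2 ⊢
    have f1 : ((0 : ℤ) : ℝ) < ((b - w i - 2 * k : ℤ) : ℝ) := by push_cast at h1 ⊢; linarith
    have f2 : ((b - w i - 2 * k : ℤ) : ℝ) ≤ ((1 : ℤ) : ℝ) := by push_cast at h2 ⊢; linarith
    have f3 : 0 < b - w i - 2 * k := by exact_mod_cast f1
    have f4 : b - w i - 2 * k ≤ 1 := by exact_mod_cast f2
    have f5 : b - w i - 2 * k = 1 := by omega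
    rw [f5]; push_cast; ring

/-- position of the doublings of `t` -/
theorem t_pos (h : CA N q w s t) (i : ℕ) :
    ∃ k : ℤ, t ≤ 2 ^ (i + 1) * t - w i - 2 * k ∧ 2 ^ (i + 1) * t - w i - 2 * k ≤ s + 1 ∧
      ((i + 1) % (N * q) ≠ 0 → 2 ^ (i + 1) * t - w i - 2 * k ≠ t) ∧
      ((i + 1) % (N * q) = 0 → 2 ^ (i + 1) * t - w i - 2 * k = t) := by
  have hA : 2 ^ i * t ∈ AA N s i := by
    rw [← h.AA_t]; exact mem_AA N t i
  obtain ⟨k, h1, h2⟩ := h.pos_arc hA
  have hst := h.lt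
  have hts := h.lt'
  have e : (2 : ℝ) ^ (i + 1) * t = 2 * (2 ^ i * t) := by rw [pow_succ]; ring
  refine ⟨k, by rw [e]; exact h1, by rw [e]; exact h2, fun h0 he => ?_, fun h0 => ?_⟩
  · apply h0
    refine Nat.mod_eq_zero_of_dvd (h.dvd_of_per h.mem (m := w i + 2 * k) ?_)
    push_cast; linarith
  · obtain ⟨c, hc⟩ := Nat.dvd_of_mod_eq_zero h0
    obtain ⟨a, ha⟩ := h.per_t
    obtain ⟨b, hb⟩ := pow_per_mul ha c
    rw [← hc] at hb
    rw [e] at hb ⊢
    have e1 : 2 * (2 ^ i * t) - w i - 2 * k = t + ((b - w i - 2 * k : ℤ) : ℝ) := by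
      push_cast; linarith
    rw [e1] at h1 h2 ⊢
    have f1 : ((-1 : ℤ) : ℝ) < ((b - w i - 2 * k : ℤ) : ℝ) := by push_cast at h1 ⊢; linarith
    have f2 : ((b - w i - 2 * k : ℤ) : ℝ) < ((1 : ℤ) : ℝ) := by push_cast at h2 ⊢; linarith
    have f3 : -1 < b - w i - 2 * k := by exact_mod_cast f1
    have f4 : b - w i - 2 * k < 1 := by exact_mod_cast f2
    have f5 : b - w i - 2 * k = 0 := by omega
    rw [f5]; push_cast; ring

/-- **itinerary of `s` to the left of the arc** -/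
theorem compat_left (h : CA N q w s t) {θ : ℝ} (hθ : θ < s)
    (hno : ∀ j, ∀ a ∈ AA N s j, θ ≤ a → ¬ a < s) : Compat s θ (flw (N * q) w) := by
  have hst := h.lt
  have hθ1 : s - 1 < θ := by
    by_contra hcon
    push Not at hcon
    have := AA_shift (mem_AA N s 0) (-1)
    rw [pow_zero, one_mul] at this
    push_cast at this
    exact hno 0 _ this (by linarith) (by linarith)
  intro i
  obtain ⟨k, h1, h2, h3, h4⟩ := h.s_pos i
  have e : (2 : ℝ) ^ (i + 1) * s = 2 * (2 ^ i * s) := by rw [pow_succ]; ring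
  by_cases h0 : (i + 1) % (N * q) = 0
  · have h5 := h4 h0
    unfold flw
    rw [if_pos h0]
    refine ⟨k + w i, ?_, ?_⟩ <;> push_cast <;> rw [e] at h5 <;> linarith
  · have h5 := lt_of_le_of_ne h2 (h3 h0)
    -- the translate by `-1` is a point of the orbit to the left of `s`
    have hA : 2 * (2 ^ i * s) - ((w i + 2 * k + 1 : ℤ) : ℝ) ∈ AA N s (i + 1) :=
      AA_dbl' (mem_AA N s i) _
    have h6 : 2 * (2 ^ i * s) - ((w i + 2 * k + 1 : ℤ) : ℝ) < θ := by
      by_contra hcon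
      push Not at hcon
      refine hno _ _ hA hcon ?_
      push_cast; rw [e] at h5; linarith
    unfold flw
    rw [if_neg h0]
    push_cast at h6
    rw [e] at h1
    exact ⟨k, by linarith, by linarith⟩

/-- **itinerary of `t` to the right of the arc** -/
theorem compat_right (h : CA N q w s t) {θ : ℝ} (hθ : t < θ)
    (hno : ∀ j, ∀ a ∈ AA N s j, t < a → ¬ a ≤ θ) : Compat t θ (flw (N * q) w) := by
  have hst := h.lt
  have hts := h.lt'
  have hθ1 : θ < t + 1 := by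
    by_contra hcon
    push Not at hcon
    have := AA_shift h.mem 1
    push_cast at this
    exact hno 0 _ this (by linarith) hcon
  intro i
  obtain ⟨k, h1, h2, h3, h4⟩ := h.t_pos i
  have e : (2 : ℝ) ^ (i + 1) * t = 2 * (2 ^ i * t) := by rw [pow_succ]; ring
  have hA0 : 2 ^ i * t ∈ AA N s i := by
    rw [← h.AA_t]; exact mem_AA N t i
  by_cases h0 : (i + 1) % (N * q) = 0
  · have h5 := h4 h0
    unfold flw
    rw [if_pos h0]
    refine ⟨k + w i - 1, ?_, ?_⟩ <;> push_cast <;> rw [e] at h5 <;> linarith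
  · have h5 := lt_of_le_of_ne h1 (h3 h0).symm
    have hA : 2 * (2 ^ i * t) - ((w i + 2 * k : ℤ) : ℝ) ∈ AA N s (i + 1) := AA_dbl' hA0 _
    have h6 : θ < 2 * (2 ^ i * t) - ((w i + 2 * k : ℤ) : ℝ) := by
      by_contra hcon
      push Not at hcon
      refine hno _ _ hA ?_ hcon
      push_cast; rw [e] at h5; linarith
    unfold flw
    rw [if_neg h0]
    push_cast at h6
    rw [e] at h2
    exact ⟨k, by linarith, by linarith⟩

/-- at the left end the rotation number of the flipped word is an integer -/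
theorem nu_s (h : CA N q w s t) : ∃ k : ℤ, nu (flw (N * q) w) (N * q) s = k := by
  have hst := h.lt
  obtain ⟨a, ha⟩ := h.per_s
  obtain ⟨m, hm⟩ := gw_lin (flw (N * q) w) s s (N * q) (fun i _ => by
    obtain ⟨k, h1, h2, h3, h4⟩ := h.s_pos i
    have e : (2 : ℝ) ^ (i + 1) * s = 2 * (2 ^ i * s) := by rw [pow_succ]; ring
    rw [e] at h1 h2 h4
    by_cases h0 : (i + 1) % (N * q) = 0
    · have h5 := h4 h0
      unfold flw
      rw [if_pos h0]
      refine ⟨k + w i, ?_, ?_⟩ <;> push_cast <;> linarith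
    · unfold flw
      rw [if_neg h0]
      exact ⟨k, by linarith, by linarith⟩)
  refine ⟨a - m, ?_⟩
  refine translationNumber_of_eq_add_int (x := s) _ ?_
  rw [hm]; push_cast; linarith

theorem nu_t (h : CA N q w s t) : ∃ k : ℤ, nu (flw (N * q) w) (N * q) t = k := by
  have hst := h.lt
  have hts := h.lt'
  obtain ⟨a, ha⟩ := h.per_t
  obtain ⟨m, hm⟩ := gw_lin (flw (N * q) w) t t (N * q) (fun i _ => by
    obtain ⟨k, h1, h2, h3, h4⟩ := h.t_pos i
    have e : (2 : ℝ) ^ (i + 1) * t = 2 * (2 ^ i * t) := by rw [pow_succ]; ring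
    rw [e] at h1 h2 h4
    by_cases h0 : (i + 1) % (N * q) = 0
    · have h5 := h4 h0
      unfold flw
      rw [if_pos h0]
      refine ⟨k + w i - 1, ?_, ?_⟩ <;> push_cast <;> linarith
    · unfold flw
      rw [if_neg h0]
      exact ⟨k, by linarith, by linarith⟩)
  refine ⟨a - m, ?_⟩
  refine translationNumber_of_eq_add_int (x := t) _ ?_
  rw [hm]; push_cast; linarith

/-- **the flipped word on the closed arc** -/
theorem flw_arc (h : CA N q w s t) : ∃ k : ℤ, nu (flw (N * q) w) (N * q) s = k ∧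
    nu (flw (N * q) w) (N * q) t = k + 1 ∧
    ∀ θ, s < θ → θ < t → (k : ℝ) < nu (flw (N * q) w) (N * q) θ ∧
      nu (flw (N * q) w) (N * q) θ < k + 1 := by
  obtain ⟨k, hk⟩ := h.nu_s
  obtain ⟨l, hl⟩ := h.nu_t
  have hst := h.lt
  have hmono := nu_mono (flw (N * q) w) (N * q)
  have hin : ∀ θ, s < θ → θ < t → (k : ℝ) < nu (flw (N * q) w) (N * q) θ ∧
      nu (flw (N * q) w) (N * q) θ < l := by
    intro θ h1 h2
    constructor
    · rw [← hk]
      exact lt_of_le_of_ne (hmono h1.le) fun he => h.flw_ne_int h1 h2 k (by rw [← he, hk])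
    · rw [← hl]
      exact lt_of_le_of_ne (hmono h2.le) fun he => h.flw_ne_int h1 h2 l (by rw [he, hl])
  have hkl : l = k + 1 := by
    obtain ⟨h1, h2⟩ := hin ((s + t) / 2) (by linarith) (by linarith)
    have h3 : k < l := by exact_mod_cast h1.trans h2
    by_contra hne
    have h4 : k + 1 < l := by omega
    have h5 : ((k + 1 : ℤ) : ℝ) ∈ Icc (nu (flw (N * q) w) (N * q) s)
        (nu (flw (N * q) w) (N * q) t) := by
      rw [hk, hl]
      constructor
      · push_cast; linarith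
      · exact_mod_cast h4.le
    obtain ⟨θ, hθ, he⟩ := intermediate_value_Icc hst.le
      (nu_continuous (flw (N * q) w) (N * q)).continuousOn h5
    have h6 : s < θ := by
      rcases hθ.1.lt_or_eq with h | h
      · exact h
      · exfalso; rw [← h, hk] at he
        have : k = k + 1 := by exact_mod_cast he
        omega
    have h7 : θ < t := by
      rcases hθ.2.lt_or_eq with h | h
      · exact h
      · exfalso; rw [h, hl] at he
        have : l = k + 1 := by exact_mod_cast he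
        omega
    exact h.flw_ne_int h6 h7 _ he
  refine ⟨k, hk, by rw [hl, hkl]; push_cast; ring, fun θ h1 h2 => ?_⟩
  have := hin θ h1 h2
  rw [hkl] at this
  push_cast at this
  exact this

theorem nu_left (h : CA N q w s t) {θ : ℝ} (hθ : θ ≤ s)
    (hno : ∀ j, ∀ a ∈ AA N s j, θ ≤ a → ¬ a < s) :
    nu (flw (N * q) w) (N * q) θ = nu (flw (N * q) w) (N * q) s := by
  refine nu_const_of_int hθ fun θ' h1 h2 => ?_
  rcases h2.lt_or_eq with h2 | h2
  · obtain ⟨a, ha⟩ := h.per_s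
    have hc := h.compat_left h2 fun j a ha h3 h4 => hno j a ha (h1.trans h3) h4
    obtain ⟨P, -, hP⟩ := nu_of_compat (perAngle_one ha)
      (flw_per fun i => word_mod h.word.2.1 i q) hc
    exact ⟨P, by rw [hP]; simp⟩
  · rw [h2]; exact h.nu_s

theorem nu_right (h : CA N q w s t) {θ : ℝ} (hθ : t ≤ θ)
    (hno : ∀ j, ∀ a ∈ AA N s j, t < a → ¬ a ≤ θ) :
    nu (flw (N * q) w) (N * q) θ = nu (flw (N * q) w) (N * q) t := by
  refine (nu_const_of_int hθ fun θ' h1 h2 => ?_).symm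
  rcases h1.lt_or_eq with h1 | h1
  · obtain ⟨a, ha⟩ := h.per_t
    have hc := h.compat_right h1 fun j a ha h3 h4 => hno j a ha h3 (h4.trans h2)
    obtain ⟨P, -, hP⟩ := nu_of_compat (perAngle_one ha)
      (flw_per fun i => word_mod h.word.2.1 i q) hc
    exact ⟨P, by rw [hP]; simp⟩
  · rw [← h1]; exact h.nu_t

/-- rotation number of the word itself is constant on the arc -/
theorem nu_w (h : CA N q w s t) : ∃ P : ℤ, IsCoprime P (q : ℤ) ∧
    ∀ θ, s ≤ θ → θ ≤ t → nu w N θ = P / q := by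
  have hst := h.lt
  have hq : 0 < q := by have := h.two; omega
  have hq' : (0 : ℝ) < q := by exact_mod_cast hq
  set m := (s + t) / 2 with hm
  have hm1 : s < m := by linarith
  have hm2 : m < t := by linarith
  obtain ⟨P, hP, hPm⟩ := nu_of_compat h.per h.word.2.1 (h.compat m hm1 hm2)
  -- `q nu` is an integer on the open arc
  have hopen : ∀ θ, s < θ → θ < t → nu w N θ = P / q := by
    intro θ h1 h2
    obtain ⟨P', -, hP'⟩ := nu_of_compat h.per h.word.2.1 (h.compat θ h1 h2)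
    by_contra hne
    rw [hP'] at hne
    have hPP : P' ≠ P := fun he => hne (by rw [he])
    -- a non rational value in between
    have key : ∀ (a b : ℝ) (A B : ℤ), s < a → b < t → a ≤ b → nu w N a = A / q →
        nu w N b = B / q → A = B := by
      intro a b A B ha hb hab hA hB
      by_contra hAB
      have h3 := nu_mono w N hab
      rw [hA, hB, div_le_div_iff_of_pos_right hq'] at h3
      have h4 : A ≤ B := by exact_mod_cast h3
      have h5 : (A : ℝ) + 1 ≤ B := by exact_mod_cast (by omega : A + 1 ≤ B)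
      have hmem : ((A : ℝ) + 1 / 2) / q ∈ Icc (nu w N a) (nu w N b) := by
        rw [hA, hB]
        constructor
        · gcongr; linarith
        · gcongr; linarith
      obtain ⟨x, hx, he⟩ := intermediate_value_Icc hab (nu_continuous w N).continuousOn hmem
      obtain ⟨R, -, hR⟩ := nu_of_compat h.per h.word.2.1
        (h.compat x (ha.trans_le hx.1) (hx.2.trans_lt hb))
      rw [hR, div_left_inj' hq'.ne'] at he
      have e1 : ((2 * R : ℤ) : ℝ) = ((2 * A + 1 : ℤ) : ℝ) := by push_cast; linarith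
      have e2 : 2 * R = 2 * A + 1 := by exact_mod_cast e1
      omega
    rcases le_total θ m with h3 | h3
    · exact hPP (key θ m P' P h1 hm2 h3 hP' hPm)
    · exact hPP (key m θ P P' hm1 h2 h3 hPm hP').symm
  refine ⟨P, hP, fun θ h1 h2 => ?_⟩
  have hcl : IsClosed {θ | nu w N θ = P / q} := isClosed_eq (nu_continuous w N) continuous_const
  have hsub : Icc s t ⊆ {θ | nu w N θ = P / q} := by
    rw [← closure_Ioo hst.ne]
    exact closure_minimal (fun θ hθ => hopen θ hθ.1 hθ.2) hcl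
  exact hsub ⟨h1, h2⟩

end CA

end Pool.Agent.Work.MLC
end

section
set_option autoImplicit false

/-! # Circle module for satellite components, part E (helper54)

Uniqueness of the compatible cycle of given rotation number; the plateau of the rotation number is
the closure of the characteristic arc. -/

namespace Pool.Agent.Work.MLC

open Set Circ CircleDeg1Lift Filter Topology

/-! ### compatible periodic angles from the rotation number -/

/-- the return map of the compatible angle `a` of phase `i` -/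
theorem gw_phase {N : ℕ} {x θ : ℝ} {w : ℕ → ℤ} (hw : ∀ i, w (i + N) = w i)
    (hc : Compat x θ w) {i : ℕ} {a : ℝ} (ha : a ∈ AA N x i) (M : ℕ) :
    ∃ m : ℤ, gw (fun j => w (i + j)) θ M a = 2 ^ M * a - m := by
  refine gw_lin _ θ a M fun l _ => ?_
  have hA : 2 ^ l * a ∈ AA N x (i + l) := by
    obtain ⟨m, k, rfl⟩ := ha
    refine ⟨m, 2 ^ l * k, ?_⟩
    rw [show i + l + N * m = l + (i + N * m) by ring, pow_add]
    push_cast; ring
  obtain ⟨k, h1, h2⟩ := inHalf_of_compat hw hc (i + l) _ hA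
  exact ⟨-k, by push_cast; linarith, by push_cast; linarith⟩

theorem compat_of_mem {N : ℕ} {x θ : ℝ} {w : ℕ → ℤ} (hw : ∀ i, w (i + N) = w i)
    (hc : Compat x θ w) {i : ℕ} {a : ℝ} (ha : a ∈ AA N x i) : Compat a θ (fun j => w (i + j)) :=
  compat_of_inHalf ha hw fun j => inHalf_of_compat hw hc j

/-- from an orbit in the open half circles to a compatible periodic angle -/
theorem perAngle_of_op {N q : ℕ} (hN : 0 < N) (hq : 0 < q) {w : ℕ → ℤ}
    (hw : ∀ i, w (i + N) = w i) {θ : ℝ} {P : ℤ} (hcop : IsCoprime P (q : ℤ))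
    (hnu : nu w N θ = P / q) {x : ℝ} (hx : gw w θ (N * q) x = x + P)
    (hop : ∀ i < N * q, Op w θ x i) : PerAngle N q x ∧ Compat x θ w := by
  have hlin := gw_of_cl (w := w) (θ := θ) (x := x) (m := N * q) fun i hi => (hop i hi).cl
  obtain ⟨a, ha⟩ := hlin (N * q) le_rfl
  have hper : (2 : ℝ) ^ (N * q) * x - x = ((P - a : ℤ) : ℝ) := by push_cast; linarith
  have hcomp : Compat x θ w := by
    intro i
    have hlt : i % (N * q) < N * q := Nat.mod_lt _ (Nat.mul_pos hN hq)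
    obtain ⟨k, h1, h2⟩ := hop _ hlt
    obtain ⟨b, hb⟩ := hlin _ hlt.le
    obtain ⟨c, hc⟩ := pow_per_mul hper (i / (N * q))
    have ei : i = i % (N * q) + N * q * (i / (N * q)) := (Nat.mod_add_div i (N * q)).symm
    have e1 : (2 : ℝ) ^ i * x = 2 ^ (i % (N * q)) * x + ((2 ^ (i % (N * q)) * c : ℤ) : ℝ) := by
      conv_lhs => rw [ei, pow_add, mul_assoc, hc]
      push_cast; ring
    have e2 : w i = w (i % (N * q)) := by
      conv_lhs => rw [ei, mul_assoc]
      exact word_mod hw _ _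
    rw [e1, e2]
    rw [hb] at h1 h2
    refine ⟨k - b + 2 ^ (i % (N * q)) * c, ?_, ?_⟩ <;> push_cast <;> linarith
  refine ⟨⟨hq, ⟨_, hper⟩, ?_⟩, hcomp⟩
  intro j hj hjq ⟨l, hl⟩
  -- the rotation number has denominator `j`
  classical
  have hex : ∃ j, 0 < j ∧ ∃ l : ℤ, (2 : ℝ) ^ (N * j) * x - x = l := ⟨j, hj, l, hl⟩
  set j₀ := Nat.find hex with hj₀
  obtain ⟨hj₀0, l₀, hl₀⟩ := Nat.find_spec hex
  have hmin : ∀ i, 0 < i → i < j₀ → ¬ ∃ l : ℤ, (2 : ℝ) ^ (N * i) * x - x = l := fun i h0 h1 h2 =>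
    Nat.find_min hex h1 ⟨h0, h2⟩
  have hle : j₀ ≤ j := Nat.find_min' hex ⟨hj, l, hl⟩
  obtain ⟨P', hP', hnu'⟩ := nu_of_compat (n := N) (q := j₀) ⟨hj₀0, ⟨l₀, hl₀⟩, hmin⟩ hw hcomp
  have hj₀' : (j₀ : ℝ) ≠ 0 := Nat.cast_ne_zero.2 (show j₀ ≠ 0 from Nat.pos_iff_ne_zero.1 hj₀0)
  rw [hnu, div_eq_div_iff (by exact_mod_cast hq.ne') hj₀'] at hnu'
  have e : P * j₀ = P' * q := by exact_mod_cast hnu'
  have hdvd : (q : ℤ) ∣ j₀ := by
    have h1 : (q : ℤ) ∣ P * j₀ := ⟨P', by rw [e]; ring⟩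
    exact hcop.symm.dvd_of_dvd_mul_left h1
  have h2 : q ∣ j₀ := by exact_mod_cast hdvd
  have := Nat.le_of_dvd hj₀0 h2
  omega

/-- there are angles in every interval which are not periodic -/
theorem exists_not_per {M : ℕ} (hM : 0 < M) {a b : ℝ} (hab : a < b) :
    ∃ θ, a < θ ∧ θ < b ∧ ∀ l : ℤ, (2 : ℝ) ^ M * θ - θ ≠ l := by
  have hpow : (2 : ℝ) ≤ 2 ^ M := by
    calc (2 : ℝ) = 2 ^ 1 := by norm_num
      _ ≤ 2 ^ M := pow_le_pow_right₀ (by norm_num) hM
  set c : ℝ := 2 ^ M - 1 with hc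
  have hc1 : 1 ≤ c := by linarith
  set θ₁ := (a + b) / 2 with hθ₁
  by_cases h1 : ∀ l : ℤ, (2 : ℝ) ^ M * θ₁ - θ₁ ≠ l
  · exact ⟨θ₁, by linarith, by linarith, h1⟩
  · push Not at h1
    obtain ⟨l, hl⟩ := h1
    set δ : ℝ := min ((b - a) / 4) (1 / (2 * c)) with hδ
    have hδ0 : 0 < δ := lt_min (by linarith) (by positivity)
    have hδ1 : δ ≤ (b - a) / 4 := min_le_left _ _
    have hδ2 : c * δ ≤ 1 / 2 := by
      have := min_le_right ((b - a) / 4) (1 / (2 * c))
      calc c * δ ≤ c * (1 / (2 * c)) := by gcongr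
        _ = 1 / 2 := by field_simp
    refine ⟨θ₁ + δ, by linarith, by linarith, fun l' hl' => ?_⟩
    have e : (l' : ℝ) = l + c * δ := by
      rw [← hl', ← hl, hc]; ring
    have e1 : (l : ℝ) < l' := by rw [e]; nlinarith
    have e2 : (l' : ℝ) < ((l + 1 : ℤ) : ℝ) := by rw [e]; push_cast; linarith
    have e3 : l < l' := by exact_mod_cast e1
    have e4 : l' < l + 1 := by exact_mod_cast e2
    omega

section

variable {N q : ℕ} {w : ℕ → ℤ} {P : ℤ}

/-- zeros of the displacement from the rotation number -/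
theorem exists_zero (hq : 0 < q) (hw : ∀ i, w (i + N) = w i) {θ : ℝ} :
    nu w N θ = P / q ↔ ∃ x, gw w θ (N * q) x = x + P := by
  rw [nu_eq_rat_iff w N θ q hq P, gw_mul w θ N q hw]

theorem exists_neg (hN : 0 < N) (hq : 0 < q) (hw : ∀ i, w (i + N) = w i) {θ θ' : ℝ} (h : θ < θ')
    (h1 : nu w N θ = P / q) (h2 : nu w N θ' = P / q) : ∃ x, gw w θ (N * q) x < x + P := by
  by_contra hcon
  push Not at hcon
  obtain ⟨θ'', h3, h4, h5⟩ := exists_not_per (Nat.mul_pos hN hq) h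
  have h6 : nu w N θ'' = P / q :=
    le_antisymm (by rw [← h2]; exact nu_mono w N h4.le) (by rw [← h1]; exact nu_mono w N h3.le)
  obtain ⟨x, hx⟩ := (exists_zero hq hw).1 h6
  have hnn : ∀ y, y + P ≤ gw w θ'' (N * q) y := fun y =>
    (hcon y).trans (gw_mono w h3.le (N * q) y)
  obtain ⟨x', hx', -, h7 | ⟨a, ha⟩⟩ := exists_cl (Nat.mul_pos hN hq) ⟨x, hx⟩
  · obtain ⟨-, i, hi, k, hk⟩ := tangent_above hnn hx' (Nat.mul_pos hN hq)
    obtain ⟨l, h8, h9⟩ := h7 i hi
    rw [hk] at h8 h9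
    have e1 : ((l : ℤ) : ℝ) < k := by linarith
    have e2 : ((k : ℤ) : ℝ) < ((l + 1 : ℤ) : ℝ) := by push_cast; linarith
    have e3 : l < k := by exact_mod_cast e1
    have e4 : k < l + 1 := by exact_mod_cast e2
    omega
  · exact h5 a ha

theorem exists_pos' (hN : 0 < N) (hq : 0 < q) (hw : ∀ i, w (i + N) = w i) {θ θ' : ℝ} (h : θ' < θ)
    (h1 : nu w N θ = P / q) (h2 : nu w N θ' = P / q) : ∃ x, x + P < gw w θ (N * q) x := by
  by_contra hcon
  push Not at hcon
  obtain ⟨θ'', h3, h4, h5⟩ := exists_not_per (Nat.mul_pos hN hq) h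
  have h6 : nu w N θ'' = P / q :=
    le_antisymm (by rw [← h1]; exact nu_mono w N h4.le) (by rw [← h2]; exact nu_mono w N h3.le)
  obtain ⟨x, hx⟩ := (exists_zero hq hw).1 h6
  have hnp : ∀ y, gw w θ'' (N * q) y ≤ y + P := fun y =>
    (gw_mono w h4.le (N * q) y).trans (hcon y)
  obtain ⟨x', hx', -, h7 | ⟨a, ha⟩⟩ := exists_cl (Nat.mul_pos hN hq) ⟨x, hx⟩
  · obtain ⟨-, i, hi, k, hk⟩ := tangent_below hnp hx' (Nat.mul_pos hN hq)
    obtain ⟨l, h8, h9⟩ := h7 i hi
    rw [hk] at h8 h9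
    have e1 : ((k : ℤ) : ℝ) < l := by linarith
    have e2 : ((l : ℤ) : ℝ) < ((k + 1 : ℤ) : ℝ) := by push_cast; linarith
    have e3 : k < l := by exact_mod_cast e1
    have e4 : l < k + 1 := by exact_mod_cast e2
    omega
  · exact h5 a ha

/-- **strictly inside the plateau there is a compatible periodic angle** -/
theorem exists_compat (hN : 0 < N) (hq : 0 < q) (hw : ∀ i, w (i + N) = w i)
    (hcop : IsCoprime P (q : ℤ)) {θ₁ θ θ₂ : ℝ} (h1 : θ₁ < θ) (h2 : θ < θ₂)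
    (hn1 : nu w N θ₁ = P / q) (hn2 : nu w N θ₂ = P / q) :
    ∃ x, PerAngle N q x ∧ Compat x θ w := by
  have hn : nu w N θ = P / q :=
    le_antisymm (by rw [← hn2]; exact nu_mono w N h2.le) (by rw [← hn1]; exact nu_mono w N h1.le)
  obtain ⟨x, hx, hop⟩ := exists_op (exists_neg hN hq hw h2 hn hn2) (exists_pos' hN hq hw h1 hn hn1)
  exact ⟨x, perAngle_of_op hN hq hw hcop hn hx hop⟩

/-- the plateau is not a point -/
theorem exists_two (hN : 0 < N) (hq : 0 < q) (hw : ∀ i, w (i + N) = w i) :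
    ∃ θ₁ θ₂, θ₁ < θ₂ ∧ nu w N θ₁ = P / q ∧ nu w N θ₂ = P / q := by
  -- one point
  obtain ⟨θ₀, hθ₀⟩ : ∃ θ, nu w N θ = P / q := by
    obtain ⟨u, hu⟩ := exists_nat_ge |(P : ℝ) / q - nu w N 0|
    have hN1 : (1 : ℝ) ≤ N := by exact_mod_cast hN
    have hu0 : (0 : ℝ) ≤ u := Nat.cast_nonneg u
    have hun : (u : ℝ) ≤ N * u := by nlinarith
    have h2 := nu_add_even w N (u : ℤ) 0
    have h3 := nu_add_even w N (-(u : ℤ)) 0
    push_cast at h2 h3
    have h4 := abs_le.1 hu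
    have h5 : (P : ℝ) / q ∈ Icc (nu w N (0 + 2 * -(u : ℝ))) (nu w N (0 + 2 * (u : ℝ))) := by
      rw [h2, h3]
      constructor <;> linarith [h4.1, h4.2]
    obtain ⟨θ, -, hθ⟩ := intermediate_value_Icc (by linarith) (nu_continuous w N).continuousOn h5
    exact ⟨θ, hθ⟩
  obtain ⟨x₀, hx₀⟩ := (exists_zero hq hw).1 hθ₀
  have hcont : ∀ x, Continuous fun θ => gw w θ (N * q) x := fun x =>
    (gw_continuous w (N * q)).comp (by fun_prop : Continuous fun θ : ℝ => (θ, x))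
  -- zeros at a neighbouring angle
  have hzero : ∀ θ, (∃ x, gw w θ (N * q) x ≤ x + P) → (∃ y, y + P ≤ gw w θ (N * q) y) →
      nu w N θ = P / q := by
    rintro θ ⟨x, hx⟩ ⟨y, hy⟩
    rw [exists_zero hq hw]
    have hc : Continuous fun t => gw w θ (N * q) t - t :=
      (gw_continuous' w θ (N * q)).sub continuous_id
    have h1 : (P : ℝ) ∈ uIcc ((fun t => gw w θ (N * q) t - t) x)
        ((fun t => gw w θ (N * q) t - t) y) := by
      refine mem_uIcc.2 (Or.inl ⟨?_, ?_⟩)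
      · show gw w θ (N * q) x - x ≤ P
        linarith
      · show (P : ℝ) ≤ gw w θ (N * q) y - y
        linarith
    obtain ⟨t, -, ht⟩ := intermediate_value_uIcc hc.continuousOn h1
    have ht' : gw w θ (N * q) t - t = P := ht
    exact ⟨t, by linarith⟩
  by_cases h1 : ∃ x, gw w θ₀ (N * q) x < x + P
  · obtain ⟨x, hx⟩ := h1
    have h2 : ∀ᶠ θ in 𝓝[>] θ₀, gw w θ (N * q) x < x + P :=
      (((hcont x).tendsto θ₀).eventually (gt_mem_nhds hx)).filter_mono nhdsWithin_le_nhds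
    obtain ⟨θ, h3, h4⟩ := (h2.and self_mem_nhdsWithin).exists
    have h5 : θ₀ < θ := h4
    refine ⟨θ₀, θ, h5, hθ₀, hzero θ ⟨x, h3.le⟩ ⟨x₀, ?_⟩⟩
    rw [← hx₀]; exact gw_mono w h5.le _ x₀
  · by_cases h2 : ∃ x, x + P < gw w θ₀ (N * q) x
    · obtain ⟨x, hx⟩ := h2
      have h2 : ∀ᶠ θ in 𝓝[<] θ₀, x + P < gw w θ (N * q) x :=
        (((hcont x).tendsto θ₀).eventually (lt_mem_nhds hx)).filter_mono nhdsWithin_le_nhds
      obtain ⟨θ, h3, h4⟩ := (h2.and self_mem_nhdsWithin).exists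
      have h5 : θ < θ₀ := h4
      refine ⟨θ, θ₀, h5, hzero θ ⟨x₀, ?_⟩ ⟨x, h3.le⟩, hθ₀⟩
      rw [← hx₀]; exact gw_mono w h5.le _ x₀
    · exfalso
      push Not at h1 h2
      have hm := Nat.mul_pos hN hq
      -- the displacement vanishes identically: impossible in the flat arc
      set x : ℝ := (θ₀ + w 0) / 2 + 3 / 4 with hx
      have hxe : gw w θ₀ (N * q) x = x + P := le_antisymm (h2 x) (h1 x)
      obtain ⟨h3, -⟩ := tangent_above h1 hxe hm
      obtain ⟨k, h4, h5⟩ := h3 0 hm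
      have h4' : (θ₀ + w 0) / 2 + k ≤ x := by simpa using h4
      have h5' : x < (θ₀ + w 0) / 2 + k + 1 / 2 := by simpa using h5
      have e1 : ((0 : ℤ) : ℝ) < k := by push_cast; linarith
      have e2 : ((k : ℤ) : ℝ) < ((1 : ℤ) : ℝ) := by push_cast; linarith
      have e3 : 0 < k := by exact_mod_cast e1
      have e4 : k < 1 := by exact_mod_cast e2
      omega

/-- a compatible orbit does not contain the angle -/
theorem not_mem_of_compat {N q : ℕ} (hN : 0 < N) {w : ℕ → ℤ} {x θ : ℝ}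
    (hw : ∀ i, w (i + N) = w i) (hx : PerAngle N q x) (hc : Compat x θ w) {j : ℕ} :
    θ ∉ AA N x j := by
  intro hθ
  rw [← AA_per hx] at hθ
  have h1 : θ ∈ AA N x ((j + N - 1) + 1) := by rwa [show j + N - 1 + 1 = j + N by omega]
  obtain ⟨a, ha, m, hm⟩ := AA_sur h1
  obtain ⟨k, h2, h3⟩ := inHalf_of_compat hw hc _ a ha
  have e1 : ((w (j + N - 1) : ℤ) : ℝ) < ((m + 2 * k : ℤ) : ℝ) := by push_cast; linarith
  have e2 : ((m + 2 * k : ℤ) : ℝ) < ((w (j + N - 1) + 1 : ℤ) : ℝ) := by push_cast; linarith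
  have e3 : w (j + N - 1) < m + 2 * k := by exact_mod_cast e1
  have e4 : m + 2 * k < w (j + N - 1) + 1 := by exact_mod_cast e2
  omega

/-- **alternation**: two disjoint compatible cycles of the same rotation number alternate -/
theorem alternate (hN : 0 < N) {w : ℕ → ℤ} (hw : ∀ i, w (i + N) = w i) {x y θ : ℝ}
    (hx : PerAngle N q x) (hy : PerAngle N q y) (hcx : Compat x θ w) (hcy : Compat y θ w)
    (hdis : ∀ i, ∀ a ∈ AA N x i, a ∉ AA N y i) {i : ℕ} {a a' : ℝ} (ha : a ∈ AA N x i)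
    (ha' : a' ∈ AA N x i) (haa : a < a') : ∃ b ∈ AA N y i, a < b ∧ b < a' := by
  by_contra hcon
  push Not at hcon
  have hw' : ∀ l, (fun j => w (i + j)) (l + N) = (fun j => w (i + j)) l := fun l => by
    show w (i + (l + N)) = w (i + l)
    rw [← add_assoc, hw]
  have hq : 0 < q := hx.1
  -- the two displacements agree
  obtain ⟨A, -, hA1, hA2⟩ := gw_of_compat (perAngle_of_mem hx ha) hw' (compat_of_mem hw hcx ha)
  have hBall : ∀ b ∈ AA N y i, (gw (fun j => w (i + j)) θ N ^ q) b = b + A := by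
    intro b hb
    obtain ⟨B, -, hB1, hB2⟩ := gw_of_compat (perAngle_of_mem hy hb) hw' (compat_of_mem hw hcy hb)
    rw [hB1]
    rw [hA2, div_left_inj' (by exact_mod_cast hq.ne')] at hB2
    rw [← hB2]
  -- a power of the return map taking `a` to `a'`
  obtain ⟨j, m, hj⟩ : ∃ (j : ℕ) (m : ℤ), a' = 2 ^ (N * j) * a + m := by
    have h1 : a' ∈ AA N a 0 := by rw [AA_of_mem hx ha]; simpa using ha'
    obtain ⟨j, m, h⟩ := h1
    exact ⟨j, m, by simpa using h⟩
  set g := gw (fun j => w (i + j)) θ N with hg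
  have hgj : ∀ l, g ^ l = gw (fun j => w (i + j)) θ (N * l) := fun l => (gw_mul _ θ N l hw').symm
  obtain ⟨m₁, hm₁⟩ := gw_phase hw hcx ha (N * j)
  have hTa : (g ^ j) a + ((m + m₁ : ℤ) : ℝ) = a' := by
    rw [hgj, hm₁, hj]; push_cast; ring
  set r : ℤ := j * A + (m + m₁) * q with hr
  set T : ℝ → ℝ := fun u => (g ^ j) u + ((m + m₁ : ℤ) : ℝ) with hT
  have hTmono : Monotone T := fun u v huv => by
    show (g ^ j) u + _ ≤ (g ^ j) v + _
    have := (g ^ j).monotone huv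
    linarith
  have hTpow : ∀ (l : ℕ) (u : ℝ), T^[l] u = (g ^ (j * l)) u + ((l * (m + m₁) : ℤ) : ℝ) := by
    intro l u
    induction l with
    | zero => simp
    | succ l ih =>
      rw [Function.iterate_succ_apply', ih]
      show (g ^ j) ((g ^ (j * l)) u + ((l * (m + m₁) : ℤ) : ℝ)) + _ = _
      rw [map_add_int, ← mul_apply, ← pow_add]
      rw [show j + j * l = j * (l + 1) by ring]
      push_cast; ring
  have hgq : ∀ u, (g ^ q) u = u + A → ∀ l : ℕ, (g ^ (q * l)) u = u + ((l * A : ℤ) : ℝ) := by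
    intro u hu l
    induction l with
    | zero => simp
    | succ l ih =>
      rw [show q * (l + 1) = q + q * l by ring, pow_add, mul_apply, ih, map_add_int, hu]
      push_cast; ring
  have hTq : ∀ u, (g ^ q) u = u + A → ∀ l : ℕ, T^[q * l] u = u + ((l * r : ℤ) : ℝ) := by
    intro u hu l
    rw [hTpow, show j * (q * l) = q * (j * l) by ring, hgq u hu]
    rw [hr]; push_cast; ring
  have hTa' : T a = a' := hTa
  -- `r > 0`
  have hr0 : 0 < r := by
    have h1 : ∀ l, a' ≤ T^[l + 1] a := by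
      intro l
      induction l with
      | zero => simp [hTa']
      | succ l ih =>
        rw [Function.iterate_succ_apply']
        calc a' = T a := hTa'.symm
          _ ≤ T a' := hTmono haa.le
          _ ≤ _ := hTmono ih
    have h2 := hTq a hA1 1
    have h3 := h1 (q - 1)
    rw [show q - 1 + 1 = q * 1 by omega, h2, Nat.cast_one, one_mul] at h3
    have : (0 : ℝ) < (r : ℝ) := by linarith
    exact_mod_cast this
  -- a point of the other cycle to the left
  obtain ⟨b, hb, hba⟩ : ∃ b ∈ AA N y i, b < a := by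
    obtain ⟨M, hM⟩ := exists_nat_gt (2 ^ i * y - a)
    refine ⟨2 ^ i * y + ((-M : ℤ) : ℝ), AA_shift (mem_AA N y i) _, ?_⟩
    push_cast; linarith
  have hTB : ∀ u ∈ AA N y i, T u ∈ AA N y i := by
    intro u hu
    obtain ⟨m₂, hm₂⟩ := gw_phase hw hcy hu (N * j)
    have e : T u = 2 ^ (N * j) * u + ((m + m₁ - m₂ : ℤ) : ℝ) := by
      show (g ^ j) u + _ = _
      rw [hgj, hm₂]; push_cast; ring
    rw [e]
    refine AA_shift ?_ _
    obtain ⟨c, k, rfl⟩ := hu
    refine ⟨c + j, 2 ^ (N * j) * k, ?_⟩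
    rw [show i + N * (c + j) = N * j + (i + N * c) by ring, pow_add]
    push_cast; ring
  have hstay : ∀ l, T^[l] b ∈ AA N y i ∧ T^[l] b < a := by
    intro l
    induction l with
    | zero => exact ⟨hb, hba⟩
    | succ l ih =>
      rw [Function.iterate_succ_apply']
      have h1 := hTB _ ih.1
      refine ⟨h1, ?_⟩
      have h2 : T (T^[l] b) ≤ a' := by rw [← hTa']; exact hTmono ih.2.le
      have h3 : T (T^[l] b) ≠ a' := fun h => hdis i a' ha' (h ▸ h1)
      have h4 : T (T^[l] b) ≠ a := fun h => hdis i a ha (h ▸ h1)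
      by_contra h5
      push Not at h5
      have h6 := hcon _ h1 (lt_of_le_of_ne h5 h4.symm)
      exact h3 (le_antisymm h2 h6)
  obtain ⟨l, hl⟩ := exists_nat_gt (a - b)
  have h1 := (hstay (q * l)).2
  rw [hTq b (hBall b hb) l] at h1
  have h2 : (l : ℝ) ≤ ((l * r : ℤ) : ℝ) := by
    have : (l : ℤ) ≤ l * r := by nlinarith
    exact_mod_cast this
  linarith

/-- compatibility is an open condition on the angle -/
theorem compat_nhds {N : ℕ} (hN : 0 < N) (hq : 0 < q) {w : ℕ → ℤ} (hw : ∀ i, w (i + N) = w i)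
    {x θ : ℝ} (hx : PerAngle N q x) (hc : Compat x θ w) : ∀ᶠ θ' in 𝓝 θ, Compat x θ' w := by
  choose k h1 h2 using hc
  have h3 : ∀ᶠ θ' in 𝓝 θ, ∀ i ∈ Finset.range (N * q), (θ' + w i) / 2 + k i < 2 ^ i * x ∧
      2 ^ i * x < (θ' + w i) / 2 + k i + 1 / 2 := by
    rw [Finset.eventually_all]
    intro i _
    have c1 : Continuous fun θ' : ℝ => (θ' + w i) / 2 + k i := by fun_prop
    have c2 : Continuous fun θ' : ℝ => (θ' + w i) / 2 + k i + 1 / 2 := by fun_prop
    exact ((c1.tendsto θ).eventually (gt_mem_nhds (h1 i))).and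
      ((c2.tendsto θ).eventually (lt_mem_nhds (h2 i)))
  filter_upwards [h3] with θ' h i
  obtain ⟨-, ⟨a, ha⟩, -⟩ := id hx
  have hlt : i % (N * q) < N * q := Nat.mod_lt _ (Nat.mul_pos hN hq)
  obtain ⟨c, hc⟩ := pow_per_mul ha (i / (N * q))
  have ei : i = i % (N * q) + N * q * (i / (N * q)) := (Nat.mod_add_div i (N * q)).symm
  have e1 : (2 : ℝ) ^ i * x = 2 ^ (i % (N * q)) * x + ((2 ^ (i % (N * q)) * c : ℤ) : ℝ) := by
    conv_lhs => rw [ei, pow_add, mul_assoc, hc]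
    push_cast; ring
  have e2 : w i = w (i % (N * q)) := by
    conv_lhs => rw [ei, mul_assoc]
    exact word_mod hw _ _
  obtain ⟨h4, h5⟩ := h _ (Finset.mem_range.2 hlt)
  rw [e1, e2]
  refine ⟨k (i % (N * q)) + 2 ^ (i % (N * q)) * c, ?_, ?_⟩ <;> push_cast <;> linarith

end

namespace CA

variable {N q : ℕ} {w : ℕ → ℤ} {s t : ℝ}

/-- **uniqueness of the compatible cycle** -/
theorem unique (h : CA N q w s t) {y θ : ℝ} (hy : PerAngle N q y) (h1 : s ≤ θ) (h2 : θ ≤ t)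
    (hcy : Compat y θ w) : s ∈ AA N y 0 := by
  have hst := h.lt
  have hts := h.lt'
  have hN := h.pos
  have hq : 0 < q := by have := h.two; omega
  -- move the angle inside
  obtain ⟨θ', h3, h4, hcy'⟩ : ∃ θ', s < θ' ∧ θ' < t ∧ Compat y θ' w := by
    have ho := compat_nhds hN hq h.word.2.1 hy hcy
    have hcl : θ ∈ closure (Ioo s t) := by rw [closure_Ioo hst.ne]; exact ⟨h1, h2⟩
    obtain ⟨θ', hθ', hc'⟩ := mem_closure_iff_nhds.1 hcl _ ho
    exact ⟨θ', hc'.1, hc'.2, hθ'⟩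
  have hcx := h.compat θ' h3 h4
  by_contra hne
  -- the cycles are disjoint
  have hdis : ∀ i, ∀ a ∈ AA N s i, a ∉ AA N y i := by
    intro i a ha hb
    -- `s` is in the orbit of `a`
    obtain ⟨m, k, hk⟩ := ha
    obtain ⟨m', k', hk'⟩ := hb
    apply hne
    obtain ⟨b, hb⟩ := h.per_s
    have hpq : 0 < N * q := h.npos
    set M := i + N * m with hM
    have hle : M ≤ N * q * (M + 1) := by nlinarith
    obtain ⟨c, hc⟩ := pow_per_mul hb (M + 1)
    set R := N * q * (M + 1) - M with hR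
    have e1 : (2 : ℝ) ^ (N * q * (M + 1)) = 2 ^ R * 2 ^ M := by
      rw [← pow_add, hR, Nat.sub_add_cancel hle]
    have e2 : (2 : ℝ) ^ R * (2 ^ M * s) = s + c := by rw [← mul_assoc, ← e1, hc]
    have e3 : (2 : ℝ) ^ M * s = 2 ^ (i + N * m') * y + k' - k := by linarith
    have hRmod : N ∣ R + i := by
      have h5 : R + i + N * m = N * q * (M + 1) := by omega
      have h6 : N ∣ R + i + N * m := by rw [h5, mul_assoc]; exact Nat.dvd_mul_right N _
      exact (Nat.dvd_add_left (Nat.dvd_mul_right N m)).1 h6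
    obtain ⟨d, hd⟩ := hRmod
    refine ⟨d + m', 2 ^ R * (k' - k) - c, ?_⟩
    have e4 : (2 : ℝ) ^ R * (2 ^ (i + N * m') * y) = 2 ^ (0 + N * (d + m')) * y := by
      rw [← mul_assoc, ← pow_add]
      congr 2
      calc R + (i + N * m') = (R + i) + N * m' := by ring
        _ = 0 + N * (d + m') := by rw [hd]; ring
    rw [← e4]
    rw [e3] at e2
    push_cast
    linear_combination -e2
  have hdis' : ∀ i, ∀ a ∈ AA N y i, a ∉ AA N s i := fun i a ha hb => hdis i a hb ha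
  obtain ⟨j₀, hj₀, s', t', h5, h6, hs', hCA'⟩ := exists_CA hN h.two h.word hy hcy'
  have hst' := hCA'.lt
  have hts' := hCA'.lt'
  have hs's : AA N s' 0 = AA N y j₀ := AA_of_mem hy hs' 0
  have ht'A : t' ∈ AA N y j₀ := by rw [← hs's]; exact hCA'.mem
  have hsA : s ∈ AA N s 0 := by simpa using mem_AA N s 0
  rcases Nat.eq_zero_or_pos j₀ with hj | hj
  · -- same phase
    subst hj
    have hw0 : (fun j => w (0 + j)) = w := by funext j; rw [Nat.zero_add]
    rw [hw0] at hCA'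
    rcases lt_trichotomy s s' with h7 | h7 | h7
    · obtain ⟨k, hk⟩ := hCA'.nu_s
      exact h.flw_ne_int h7 (by linarith) k hk
    · apply hne; rw [h7]; exact hs'
    · obtain ⟨k, hk⟩ := h.nu_s
      exact hCA'.flw_ne_int h7 (by linarith) k hk
  · -- different phases are not linked
    have hmod : (0 : ℕ) % N ≠ j₀ % N := by
      rw [Nat.zero_mod, Nat.mod_eq_of_lt hj₀]; omega
    have hnl := not_linked hN h.word hcx hcy' hmod
    have hnl' := not_linked hN h.word hcy' hcx hmod.symm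
    have hnopt' : ∀ i, ∀ b ∈ AA N y i, s' < b → ¬ b < t' := by
      intro i b hb
      refine hCA'.nopt (i + (N - j₀)) b ?_
      rw [AA_of_mem hy hs', show j₀ + (i + (N - j₀)) = i + N by omega, AA_per hy]
      exact hb
    have hne1 : s ≠ s' := fun he => by
      have : s ∈ AA N y j₀ := by rw [he]; exact hs'
      exact hnl ⟨s, hsA, s, this, s, hsA, s, this, le_rfl, le_rfl, le_rfl, by linarith⟩
    have hne2 : t ≠ t' := fun he => by
      have : t ∈ AA N y j₀ := by rw [he]; exact ht'A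
      exact hnl ⟨t, h.mem, t, this, t, h.mem, t, this, le_rfl, le_rfl, le_rfl, by linarith⟩
    have hs1 : s' + 1 ∈ AA N y j₀ := by have := AA_shift hs' 1; simpa using this
    have hs2 : s + 1 ∈ AA N s 0 := by have := AA_shift hsA 1; simpa using this
    rcases lt_or_gt_of_ne hne1 with h7 | h7 <;> rcases lt_or_gt_of_ne hne2 with h8 | h8
    · -- `s < s' < t < t'`
      rcases le_or_gt t' (s + 1) with h9 | h9
      · exact hnl ⟨s, hsA, s', hs', t, h.mem, t', ht'A, h7.le, by linarith, h8.le, h9⟩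
      · obtain ⟨b, hb, hb1, hb2⟩ := alternate hN h.word.2.1 h.per hy hcx hcy' hdis h.mem hs2 hts
        exact hnopt' 0 b hb (by linarith) (by linarith)
    · -- `(s', t') ⊂ (s, t)`
      obtain ⟨b, hb, hb1, hb2⟩ := alternate hN h.word.2.1 hy h.per hcy' hcx hdis' hs' ht'A hst'
      exact h.nopt j₀ b hb (by linarith) (by linarith)
    · -- `(s, t) ⊂ (s', t')`
      obtain ⟨b, hb, hb1, hb2⟩ := alternate hN h.word.2.1 h.per hy hcx hcy' hdis hsA h.mem hst
      exact hnopt' 0 b hb (by linarith) (by linarith)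
    · -- `s' < s < t' < t`
      rcases le_or_gt t (s' + 1) with h9 | h9
      · exact hnl' ⟨s', hs', s, hsA, t', ht'A, t, h.mem, h7.le, by linarith, h8.le, h9⟩
      · obtain ⟨b, hb, hb1, hb2⟩ := alternate hN h.word.2.1 hy h.per hcy' hcx hdis' ht'A hs1 hts'
        exact h.nopt j₀ b hb (by linarith) (by linarith)

/-- **the closed arc is the whole plateau** -/
theorem plateau (h : CA N q w s t) {P : ℤ} (hcop : IsCoprime P (q : ℤ))
    (hP : ∀ θ, s ≤ θ → θ ≤ t → nu w N θ = P / q) (θ : ℝ) :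
    nu w N θ = P / q ↔ s ≤ θ ∧ θ ≤ t := by
  refine ⟨fun hθ => ?_, fun hθ => hP θ hθ.1 hθ.2⟩
  have hst := h.lt
  have hq : 0 < q := by have := h.two; omega
  by_contra hcon
  rw [not_and_or] at hcon
  push Not at hcon
  rcases hcon with h1 | h1
  · -- `θ < s`
    obtain ⟨y, hy, hcy⟩ := exists_compat h.pos hq h.word.2.1 hcop h1 hst hθ (hP t hst.le le_rfl)
    exact not_mem_of_compat h.pos h.word.2.1 hy hcy (h.unique hy le_rfl hst.le hcy)
  · -- `t < θ`
    obtain ⟨y, hy, hcy⟩ := exists_compat h.pos hq h.word.2.1 hcop hst h1 (hP s le_rfl hst.le) hθ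
    have h2 := h.unique hy hst.le le_rfl hcy
    refine not_mem_of_compat h.pos h.word.2.1 hy hcy (j := 0) ?_
    have h3 := AA_of_mem hy h2 0
    rw [Nat.zero_add] at h3
    rw [← h3]; exact h.mem

end CA

/-- **existence of the arc with a given rotation number** -/
theorem exists_arc {N q : ℕ} (hN : 0 < N) (hq : 2 ≤ q) {w : ℕ → ℤ} (hw : Word N w) {P : ℤ}
    (hcop : IsCoprime P (q : ℤ)) :
    ∃ i₀ < N, ∃ s t : ℝ, CA N q (fun j => w (i₀ + j)) s t ∧
      ∀ θ, nu (fun j => w (i₀ + j)) N θ = P / q ↔ s ≤ θ ∧ θ ≤ t := by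
  have hq0 : 0 < q := by omega
  obtain ⟨θ₁, θ₂, h12, hn1, hn2⟩ := exists_two (P := P) hN hq0 hw.2.1
  obtain ⟨x, hx, hc⟩ := exists_compat hN hq0 hw.2.1 hcop
    (show θ₁ < (θ₁ + θ₂) / 2 by linarith) (by linarith) hn1 hn2
  obtain ⟨i₀, hi₀, s, t, h1, h2, hs, hCA⟩ := exists_CA hN hq hw hx hc
  refine ⟨i₀, hi₀, s, t, hCA, hCA.plateau hcop ?_⟩
  obtain ⟨P', -, hP'⟩ := hCA.nu_w
  have hm : nu (fun j => w (i₀ + j)) N ((θ₁ + θ₂) / 2) = P / q := by
    rw [nu_shift_word w N hw.2.1]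
    exact le_antisymm (by rw [← hn2]; exact nu_mono w N (by linarith))
      (by rw [← hn1]; exact nu_mono w N (by linarith))
  rw [hP' _ h1.le h2.le] at hm
  intro θ h3 h4
  rw [hP' θ h3 h4, hm]

end Pool.Agent.Work.MLC
end

section
set_option autoImplicit false

/-! # All components (satellite and primitive): the barrier theorem, interface (manager: helper50)

Language: a component of period `m` is an exact word `w` of period `m` and a strip
`k < ν_w < k + 1`. `VD m w k δ σ`: the section `σ` of the component over the rectangle `rect m δ`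
(a restriction of helper45's `Wide`). `x₁ < x₂` are rationals next to `x = P/Q`, `θ₁ < θ₂` angles
with `ν_w (θ_j) = k + x_j`. The barrier `Bar` consists of the parameter rays of angles `θ₁`, `θ₂`,
the limbs of rotation numbers `x₁`, `x₂` and three sides of a rectangle inside the component;
`In` is the side of the `P/Q`-limb. -/

namespace Pool.Agent.Work.MLC

open Filter Topology Metric Set Complex

namespace Pri

/-! ## definitions -/

/-- `θ` lies in the strip `(w, k)` -/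
def InS (n : ℕ) (w : ℕ → ℤ) (k : ℤ) (θ : ℝ) : Prop :=
  (k : ℝ) < Circ.nu w n θ ∧ Circ.nu w n θ < k + 1

/-- exact period `n` -/
def Exa (n : ℕ) (z : ℂ × ℂ) : Prop := ∀ d, 0 < d → d < n → it z.1 d z.2 ≠ z.2

/-- `P` is locally constant along the pairs of exact period `n` with multiplier `exp L`,
`0 < ‖L‖ < η` -/
def LC (n : ℕ) (η : ℝ) (P : ℂ → Prop) : Prop :=
  ∀ z ∈ Per n, Exa n z → ∀ L : ℂ, mul n z = exp L → L ≠ 0 → ‖L‖ < η →
    ∀ᶠ c in 𝓝 z.1, (P c ↔ P z.1)

/-- the good rectangle -/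
def rect (m : ℕ) (δ : ℝ) : Set ℂ :=
  {L | L.re < δ ^ 2 / (8 * m) ∧ 2 * Real.pi * δ < L.im ∧ L.im < 2 * Real.pi * (1 - δ)}

/-- the section of the component `(w, k)` -/
structure VD (m : ℕ) (w : ℕ → ℤ) (k : ℤ) (δ : ℝ) (σ : ℂ → ℂ × ℂ) : Prop where
  pos : 0 < m
  word : Word m w
  δ_pos : 0 < δ
  δ_lt : δ < 1 / 2
  good : GoodDom m (rect m δ)
  conv : Convex ℝ (rect m δ)
  cont : ContinuousOn σ (rect m δ)
  sec : ∀ L ∈ rect m δ, σ L ∈ Per m ∧ mul m (σ L) = exp L
  prim : ∀ L ∈ rect m δ, Exa m (σ L)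
  ang : ∀ L ∈ rect m δ, (σ L).1 ∉ MM → ∃ θ, ExtP m (σ L).1 (σ L).2 θ w ∧ InS m w k θ
  ply : ∀ L ∈ rect m δ, ∀ θ, ExtP m (σ L).1 (σ L).2 θ w → InS m w k θ →
    ‖L - 2 * Real.pi * ((Circ.nu w m θ - k : ℝ) : ℂ) * I‖ ^ 2 ≤ 81 * m * L.re
  lab : ∀ L ∈ rect m δ, 0 < L.re → ∀ θ, InS m w k θ → σ L ∈ Sat.NJ m (lab m θ w)
  uniq : ∀ L ∈ rect m δ, 0 < L.re → ∀ y ∈ Per m, mul m y = exp L → ∀ θ, InS m w k θ →
    FF m y = MLC.lab m θ w → y = σ L

/-- the side of the `P/Q`-limb (parameters) -/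
def In (m : ℕ) (w : ℕ → ℤ) (k : ℤ) (σ : ℂ → ℂ × ℂ) (x₁ x₂ : ℚ) (θ₁ θ₂ h : ℝ) : Set ℂ :=
  {c | (∃ θ, θ₁ < θ ∧ θ < θ₂ ∧ Ang c θ) ∨
    (c ∈ MM ∧ ∃ a L x, (∀ θ, InS m w k θ → (c, a) ∈ Sat.NJ m (lab m θ w)) ∧
      Tr.RotT m c a L x ∧ x₁ < x ∧ x < x₂) ∨
    ∃ L, -h < L.re ∧ L.re ≤ 0 ∧ 2 * Real.pi * x₁ < L.im ∧ L.im < 2 * Real.pi * x₂ ∧
      (σ L).1 = c}

/-! ## The modules: statements -/

end Pri

end Pool.Agent.Work.MLC
end

section
set_option autoImplicit false

/-! # Modules S2 and S16 of Theorem S (helper51) -/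

namespace Pool.Agent.Work.MLC.Sat

open Filter Topology Metric Set Complex

theorem s2_width : S2_width := by
  intro n w θ k _ _ h
  obtain ⟨a, ha⟩ := nu_intAngle w n ⌈θ⌉
  have h1 := Circ.nu_mono w n (Int.le_ceil θ)
  have h2 := Circ.nu_mono w n (Int.ceil_lt_add_one θ).le
  rw [ha] at h1 h2
  have h3 : (k : ℝ) < a := lt_of_lt_of_le h h1
  have h4 : k + 1 ≤ a := by
    have : k < a := by exact_mod_cast h3
    omega
  have h5 : (k : ℝ) + 1 ≤ a := by exact_mod_cast h4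
  exact h5.trans h2

theorem s2_unique : S2_unique := by
  intro n c z z' hn hc hz hz' hI hI' hF
  have hG : 0 < G c c := by
    rw [← mem_Mc, mem_Mc_iff]
    exact hc
  obtain ⟨θ, hθ⟩ := exists_ang hG
  obtain ⟨w, hw⟩ := exists_extP_word hn hθ (b := z) hz
  obtain ⟨w', hw'⟩ := exists_extP_word hn hθ (b := z') hz'
  rw [FF_ext (x := (c, z)) hw, FF_ext (x := (c, z')) hw'] at hF
  exact extP_eq_of_lab hn hw hw' (hI.2 θ w hw) (hI'.2 θ w' hw') hF

theorem s16_rot : S16_rot := by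
  intro n c z L x i hn h
  obtain ⟨h1, h2, h3, h4, q, p, hq, hT, hx⟩ := h
  have hrep := Tr.rep_of h3 h4 h1
  have hm0 : mult n c z ≠ 0 := repelling_ne_zero hrep.2
  have h3' : (c, it c i z) ∈ Per n := it_it_periodic h3 i
  have h4' : mul n (c, it c i z) = exp L := by
    rw [← h4]
    exact mult_it hn h3 hm0 i
  have hrep' := Tr.rep_of h3' h4' h1
  have hl : Tr.Lin c z (exp L) n (Lz n c z) := Tr.lin_Lz hn hrep h4
  have hl' : Tr.Lin c (it c i z) (exp L) n (Lz n c (it c i z)) := Tr.lin_Lz hn hrep' h4'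
  have hne : ∀ j, it c j z ≠ 0 := it_ne_zero_of_mult hn h3 hm0
  have hmi : mul i (c, z) ≠ 0 := by
    unfold mul
    rw [Finset.prod_ne_zero_iff]
    intro j _
    exact mul_ne_zero two_ne_zero (hne j)
  have hli : Tr.Lin c (it c i z) (exp L) n (fun t => it c i (Lz n c z t)) := by
    refine ⟨hn, ?_, ?_, ?_, ?_, hl.rho⟩
    · exact fun t => (((hasDerivAt_it c i _).differentiableAt).comp t (hl.diff t))
    · simp only [hl.zero]
    · have hd : HasDerivAt (fun t => it c i (Lz n c z t))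
          (mul i (c, Lz n c z 0) * deriv (Lz n c z) 0) 0 :=
        (hasDerivAt_it c i _).comp (0 : ℂ) (hl.diff 0).hasDerivAt
      rw [hd.deriv, hl.zero]
      exact mul_ne_zero hmi hl.der
    · intro t
      simp only [hl.eqn]
      rw [← it_add, ← it_add, add_comm]
  have hTi : Tr.TypeL c (fun t => it c i (Lz n c z t)) L q (-p) := by
    obtain ⟨g, hg1, hg2, hg3⟩ := hT
    refine ⟨g, hg1, fun s => ?_, hg3⟩
    simp only
    rw [G_it]
    exact mul_pos (by positivity) (hg2 s)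
  exact ⟨h1, h2, h3', h4', q, p, hq, hTi.indep hli hl', hx⟩

end Pool.Agent.Work.MLC.Sat
end

section
set_option autoImplicit false

/-! # S7': a limit of attracting pairs with multiplier `1` lies over the frontier of `MM`
(helper40) -/

namespace Pool.Agent.Work.MLC

open Filter Topology Metric Set Complex

namespace Sat

/-- near a pair with multiplier `1` there are exterior parameters (only the last part of `S3_neutral`
is used) -/
theorem s7_parab_of (h3 : ∀ (n : ℕ) (x : ℂ × ℂ) (φ : ℝ), 0 < n → x ∈ Per n → 0 < φ → φ < 1 →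
    mul n x = exp (2 * Real.pi * φ * I) → ∃ᶠ c in 𝓝 x.1, c ∉ MM) (n : ℕ) (y : ℂ × ℂ) (hn : 0 < n)
    (hy : y ∈ Per n) (h1 : mul n y = 1) : ∃ᶠ c in 𝓝 y.1, c ∉ MM := by
  rw [frequently_iff]
  intro V hV
  obtain ⟨W, hWV, hWo, hyW⟩ := _root_.mem_nhds_iff.1 hV
  have hy' : it y.1 n y.2 = y.2 := hy
  have h2 := One49.near_parabolic hn hy' (by rw [← One49.mul_eq_mult]; exact h1)
    (hWo.mem_nhds hyW)
  have hcont : Continuous fun φ : ℝ => exp (2 * Real.pi * φ * I) := by fun_prop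
  have h4 : Tendsto (fun φ : ℝ => exp (2 * Real.pi * φ * I)) (𝓝[>] 0) (𝓝 1) := by
    have h5 := hcont.tendsto 0
    simp only [ofReal_zero, mul_zero, zero_mul, exp_zero] at h5
    exact h5.mono_left nhdsWithin_le_nhds
  have h6 : ∀ᶠ φ : ℝ in 𝓝[>] 0, φ ∈ Ioo (0 : ℝ) 1 := Ioo_mem_nhdsGT one_pos
  obtain ⟨φ, ⟨c', hc', b, hb, hbw⟩, hφ⟩ := ((h4.eventually h2).and h6).exists
  have h7 := h3 n (c', b) φ hn hb hφ.1 hφ.2 (by rw [One49.mul_eq_mult]; exact hbw)
  obtain ⟨c, hcM, hcW⟩ := (h7.and_eventually (hWo.mem_nhds hc')).exists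
  exact ⟨c, hWV hcW, hcM⟩

end Sat

end Pool.Agent.Work.MLC
end

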