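import Pool.Agent.Work.MLCM.C39
import Pool.Agent.Work.MLCM.C40
import Pool.Agent.Work.MLCM.C46

section
set_option autoImplicit false

/-! # Theorem S: both sides of the ends of the plateau accumulate at the root (helper51) -/

namespace Pool.Agent.Work.MLC.Sat

open Filter Topology Metric Set Complex

/-- near an exterior pair all nearby angles occur -/
theorem ext_open {n : ℕ} (hn : 0 < n) {y : ℂ × ℂ} {θ : ℝ} {w : ℕ → ℤ}
    (h : ExtP n y.1 y.2 θ w) {N : Set (ℂ × ℂ)} (hN : N ∈ 𝓝 y) :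
    ∀ᶠ θ' in 𝓝 θ, ∃ y' ∈ N, ExtP n y'.1 y'.2 θ' w := by
  have hy : y ∈ Per n := h.2.2.1
  have hne : mul n y ≠ 1 := by
    intro h1
    have h2 := rep13 hn hy (not_mem_MM_iff.2 h.1)
    rw [h1, norm_one] at h2
    exact lt_irrefl _ h2
  obtain ⟨β, hβ, hβ0, hβe⟩ := chart hy hne
  have ht := chart_tendsto (x₀ := y) hβ hβ0
  have h1 := extP_nhds hn h (by norm_num : (0 : ℝ) < 1 / 2)
  have hU : {c' | (c', β c') ∈ N ∧ ∃ θ' : ℝ, |θ' - θ| < 1 / 2 ∧ ExtP n c' (β c') θ' w} ∈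
      𝓝 y.1 := by
    filter_upwards [ht.eventually hN, ht.eventually h1, ht.eventually hβe] with c' h3 h4 h5
    exact ⟨h3, h4 (h5.2 rfl)⟩
  have h2 := ang_open h.ang hU
  have h3 : ∀ᶠ θ' in 𝓝 θ, |θ' - θ| < 1 / 2 := by
    have := Metric.ball_mem_nhds θ (show (0 : ℝ) < 1 / 2 by norm_num)
    filter_upwards [this] with θ' hθ'
    rwa [mem_ball, Real.dist_eq] at hθ'
  filter_upwards [h2, h3] with θ' h4 h5
  obtain ⟨c', ⟨hc'N, θ'', h6, h7⟩, h8⟩ := h4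
  refine ⟨(c', β c'), hc'N, ?_⟩
  obtain ⟨m, hm⟩ := h7.ang.unique h8
  rw [abs_lt] at h5 h6
  have h9 : (m : ℝ) < 1 := by linarith
  have h10 : (-1 : ℝ) < m := by linarith
  have h11 : m < 1 := by exact_mod_cast h9
  have h12 : -1 < m := by exact_mod_cast h10
  have h13 : m = 0 := by omega
  rw [h13] at hm
  simp at hm
  rw [hm]
  exact h7

/-- a sequence of exterior pairs with angle `θ` and word `w`, converging to a pair over `MM` -/
theorem exists_ray_limit {n : ℕ} (hn : 0 < n) {w : ℕ → ℤ} (hw : Bits n w) (θ : ℝ) :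
    ∃ (u : ℕ → ℂ × ℂ) (y : ℂ × ℂ), Tendsto u atTop (𝓝 y) ∧ y ∈ Per n ∧ y.1 ∈ MM ∧
      ∀ j, ExtP n (u j).1 (u j).2 θ w ∧ G (u j).1 (u j).1 ≤ 1 := by
  have hg : ∀ j : ℕ, (0 : ℝ) < 1 / ((j : ℝ) + 1) := fun j => by positivity
  have hex : ∀ j : ℕ, ∃ p : ℂ × ℂ, ExtP n p.1 p.2 θ w ∧ G p.1 p.1 = 1 / ((j : ℝ) + 1) := by
    intro j
    obtain ⟨h1, h2⟩ := ang_cOf (θ := θ) (hg j)
    obtain ⟨b, hb⟩ := exists_extP hn h1 hw
    exact ⟨(_, b), hb, h2⟩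
  choose p hp hpG using hex
  have hpG1 : ∀ j, G (p j).1 (p j).1 ≤ 1 := by
    intro j
    rw [hpG j, div_le_one (by positivity)]
    linarith [(Nat.cast_nonneg j : (0 : ℝ) ≤ j)]
  have hb1 : ∀ j, ‖(p j).1‖ ≤ 2 * Real.exp 1 + 100 := fun j => norm_le_of_G_le (hpG1 j)
  have hb2 : ∀ j, ‖(p j).2‖ ≤ 1 + (2 * Real.exp 1 + 100) := by
    intro j
    have h1 : G (p j).1 (p j).2 = 0 := G_zero_of_per hn (hp j).2.2.1
    have h2 := norm_le_of_G_zero h1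
    linarith [hb1 j]
  have hmem : ∀ j, p j ∈ closedBall (0 : ℂ) (2 * Real.exp 1 + 100) ×ˢ
      closedBall (0 : ℂ) (1 + (2 * Real.exp 1 + 100)) := fun j =>
    ⟨mem_closedBall_zero_iff.2 (hb1 j), mem_closedBall_zero_iff.2 (hb2 j)⟩
  obtain ⟨y, -, φ, hφ, hlim⟩ := ((isCompact_closedBall (0 : ℂ) (2 * Real.exp 1 + 100)).prod
    (isCompact_closedBall (0 : ℂ) (1 + (2 * Real.exp 1 + 100)))).tendsto_subseq hmem
  refine ⟨p ∘ φ, y, hlim, ?_, ?_, fun j => ⟨hp _, hpG1 _⟩⟩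
  · exact (isClosed_Per n).mem_of_tendsto hlim (Eventually.of_forall fun j => (hp (φ j)).2.2.1)
  · by_contra hM
    rw [not_mem_MM_iff] at hM
    have h1 : Tendsto (fun j => G ((p ∘ φ) j).1 ((p ∘ φ) j).1) atTop (𝓝 (G y.1 y.1)) :=
      (continuous_G_diag'.tendsto y).comp hlim
    have h2 : Tendsto (fun j => G ((p ∘ φ) j).1 ((p ∘ φ) j).1) atTop (𝓝 0) := by
      have h3 : (fun j => G ((p ∘ φ) j).1 ((p ∘ φ) j).1) = fun j => 1 / (((φ j : ℕ) : ℝ) + 1) :=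
        funext fun j => hpG (φ j)
      rw [h3]
      exact tendsto_one_div_add_atTop_nhds_zero_nat.comp hφ.tendsto_atTop
    have h4 := tendsto_nhds_unique h1 h2
    rw [h4] at hM
    exact lt_irrefl _ hM

section

variable {D : Dat}

lemma nu_tm (hC : D.Cir) : Circ.nu D.w D.m D.tm = D.k₀ + D.x :=
  (hC.plateau D.tm).2 ⟨le_rfl, hC.lt.le⟩

lemma x_pos' (hP : D.Par) : (0 : ℝ) < D.x := by exact_mod_cast hP.x_pos

lemma x_lt' (hP : D.Par) : (D.x : ℝ) < 1 := by exact_mod_cast hP.x_lt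

/-- the limits of the pairs of angle `tm` are not repelling -/
theorem limit_le_one (hP : D.Par) (hC : D.Cir) {u : ℕ → ℂ × ℂ} {y : ℂ × ℂ}
    (hu : Tendsto u atTop (𝓝 y)) (hy : y ∈ Per D.m) (hM : y.1 ∈ MM)
    (hE : ∀ j, ExtP D.m (u j).1 (u j).2 D.tm D.w) : ‖mul D.m y‖ ≤ 1 := by
  by_contra hgt
  rw [not_le] at hgt
  obtain ⟨q, hq, hev⟩ := nu_rat_nhds hP.m_pos hy hM hgt
  obtain ⟨j, hj⟩ := (hu.eventually (eventually_eventually_nhds.2 hev)).exists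
  have h1 := ext_open hP.m_pos (hE j) hj
  have hq' : (0 : ℝ) < q := by exact_mod_cast hq
  have h2 : ∀ᶠ θ' in 𝓝 D.tm, ∃ P : ℤ, Circ.nu D.w D.m θ' = P / q := by
    filter_upwards [h1] with θ' h3
    obtain ⟨y', h4, h5⟩ := h3
    exact h4 h5.2.2.1 θ' D.w h5
  obtain ⟨P₀, hP₀⟩ := h2.self_of_nhds
  have h3 : ∀ᶠ θ' in 𝓝 D.tm, |Circ.nu D.w D.m θ' - Circ.nu D.w D.m D.tm| < 1 / q := by
    have hc := (Circ.nu_continuous D.w D.m).continuousAt (x := D.tm)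
    have := hc.eventually (Metric.ball_mem_nhds _ (show (0 : ℝ) < 1 / q by positivity))
    filter_upwards [this] with θ' hθ'
    have h4 : dist (Circ.nu D.w D.m θ') (Circ.nu D.w D.m D.tm) < 1 / q := hθ'
    rwa [Real.dist_eq] at h4
  have h4 : ∀ᶠ θ' in 𝓝 D.tm, Circ.nu D.w D.m θ' = Circ.nu D.w D.m D.tm := by
    filter_upwards [h2, h3] with θ' h5 h6
    obtain ⟨P, hP'⟩ := h5
    rw [hP', hP₀, ← sub_div, abs_div, abs_of_pos hq', div_lt_div_iff_of_pos_right hq'] at h6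
    have h7 : |P - P₀| < 1 := by exact_mod_cast h6
    have h8 : P - P₀ = 0 := Int.abs_lt_one_iff.1 h7
    rw [hP', hP₀, show P = P₀ by omega]
  have h5 : ∃ᶠ θ' in 𝓝 D.tm, θ' < D.tm := by
    have h6 : D.tm ∈ closure (Iio D.tm) := by rw [closure_Iio]; exact self_mem_Iic
    exact mem_closure_iff_frequently.1 h6
  obtain ⟨θ', h6, h7⟩ := (h5.and_eventually h4).exists
  rw [nu_tm hC] at h7
  exact absurd ((hC.plateau θ').1 h7).1 (not_le.2 h6)

lemma exp_a_eq : exp D.a = exp (2 * Real.pi * (D.x : ℝ) * I) := by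
  unfold Dat.a axisPt
  push_cast
  rfl

/-- the multipliers converge in the logarithmic coordinate -/
theorem limit_log (hP : D.Par) (hC : D.Cir) {u : ℕ → ℂ × ℂ} {y : ℂ × ℂ}
    (hu : Tendsto u atTop (𝓝 y)) (hy : y ∈ Per D.m) (hM : y.1 ∈ MM)
    (hE : ∀ j, ExtP D.m (u j).1 (u j).2 D.tm D.w ∧ G (u j).1 (u j).1 ≤ 1) :
    ∃ ℓ : ℕ → ℂ, Tendsto ℓ atTop (𝓝 D.a) ∧ ∀ j, exp (ℓ j) = mul D.m (u j) := by
  have hm1 : 1 ≤ D.m := hP.m_pos
  have h1 : ∀ j, ∃ l : ℂ, Complex.exp l = mul D.m (u j) ∧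
      ‖l - 2 * Real.pi * ((D.k₀ + D.x : ℝ) : ℂ) * I‖ ^ 2 ≤ 81 * D.m * l.re := by
    intro j
    obtain ⟨-, l, h2, h3⟩ := extP_ply hm1 (hE j).1 (by linarith [(hE j).2])
    rw [nu_tm hC] at h3
    exact ⟨l, h2, h3⟩
  choose l hl hl2 using h1
  have hle := limit_le_one hP hC hu hy hM fun j => (hE j).1
  have hmt : Tendsto (fun j => ‖mul D.m (u j)‖) atTop (𝓝 ‖mul D.m y‖) :=
    ((continuous_mul' D.m).norm.tendsto y).comp hu
  have hre0 : ∀ j, 0 ≤ (l j).re := by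
    intro j
    have h2 : (0 : ℝ) ≤ 81 * D.m * (l j).re := (sq_nonneg _).trans (hl2 j)
    have h3 : (0 : ℝ) < 81 * D.m := by
      have : (0 : ℝ) < D.m := by exact_mod_cast hP.m_pos
      positivity
    exact nonneg_of_mul_nonneg_right h2 h3
  have hnorm : ∀ j, ‖mul D.m (u j)‖ = Real.exp (l j).re := by
    intro j
    rw [← hl j, Complex.norm_exp]
  have hge1 : ∀ j, 1 ≤ ‖mul D.m (u j)‖ := fun j => by
    rw [hnorm j]; exact Real.one_le_exp (hre0 j)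
  have h1y : ‖mul D.m y‖ = 1 := le_antisymm hle (ge_of_tendsto' hmt hge1)
  have hret : Tendsto (fun j => (l j).re) atTop (𝓝 0) := by
    have h2 : Tendsto (fun j => Real.log ‖mul D.m (u j)‖) atTop (𝓝 (Real.log 1)) := by
      rw [← h1y]
      exact hmt.log (by rw [h1y]; exact one_ne_zero)
    rw [Real.log_one] at h2
    refine h2.congr fun j => ?_
    rw [hnorm j, Real.log_exp]
  have hlt : Tendsto (fun j => l j - 2 * Real.pi * ((D.k₀ + D.x : ℝ) : ℂ) * I) atTop (𝓝 0) := by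
    rw [tendsto_zero_iff_norm_tendsto_zero]
    have h2 : Tendsto (fun j => Real.sqrt (81 * D.m * (l j).re)) atTop (𝓝 0) := by
      have h3 : Tendsto (fun j => 81 * (D.m : ℝ) * (l j).re) atTop (𝓝 (81 * D.m * 0)) :=
        hret.const_mul _
      rw [mul_zero] at h3
      have h4 := (Real.continuous_sqrt.tendsto 0).comp h3
      rw [Real.sqrt_zero] at h4
      exact h4
    refine squeeze_zero (fun j => norm_nonneg _) (fun j => ?_) h2
    exact Real.le_sqrt_of_sq_le (hl2 j)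
  refine ⟨fun j => l j - 2 * Real.pi * (D.k₀ : ℂ) * I, ?_, fun j => ?_⟩
  · have h2 : Tendsto (fun j => (l j - 2 * Real.pi * ((D.k₀ + D.x : ℝ) : ℂ) * I) + D.a) atTop
        (𝓝 (0 + D.a)) := hlt.add_const _
    rw [zero_add] at h2
    refine h2.congr fun j => ?_
    unfold Dat.a axisPt
    push_cast
    ring
  · rw [← hl j, Complex.exp_sub]
    have h2 : exp (2 * Real.pi * (D.k₀ : ℂ) * I) = 1 := by
      rw [Complex.exp_eq_one_iff]
      exact ⟨D.k₀, by ring⟩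
    rw [h2, div_one]

/-- the limit is the point of the section over the root -/
theorem limit_eq (h4 : S4_unique) (hP : D.Par) (hC : D.Cir) {u : ℕ → ℂ × ℂ} {y : ℂ × ℂ}
    (hu : Tendsto u atTop (𝓝 y)) (hy : y ∈ Per D.m) (hmy : mul D.m y = exp D.a)
    (hE : ∀ j, ExtP D.m (u j).1 (u j).2 D.tm D.w) : y = D.σ D.a := by
  have hx0 := x_pos' hP
  have hx1 := x_lt' hP
  obtain ⟨⟨J, hJ⟩, -, -⟩ := s3_neutral D.m y (D.x : ℝ) hP.m_pos hy hx0 hx1
    (by rw [hmy, exp_a_eq])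
  -- the label of the nearby repelling pairs
  have hJl : J = lab D.m D.tm D.w := by
    obtain ⟨j, hj⟩ := (hu.eventually hJ).exists
    have h1 : (u j) ∈ Per D.m := (hE j).2.2.1
    have h2 := hj h1 (rep13 hP.m_pos h1 (not_mem_MM_iff.2 (hE j).1))
    have h3 := FF_ext (hE j)
    rw [← h2.2.2.2, ← h3]
  by_contra hne
  obtain ⟨A, B, hA, hB, hyA, hB', hAB⟩ := t2_separation hne
  have hne1 : mul D.m y ≠ 1 := by rw [hmy]; exact (goodB hP).ne_one _ (a_mem_B hP)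
  have hlt : ‖mul D.m y‖ < 23 / 10 := by rw [hmy]; exact (goodB hP).lt _ (a_mem_B hP)
  have h1 := mul_open hP.m_pos hy hne1 hlt (inter_mem (hA.mem_nhds hyA) hJ)
  rw [hmy] at h1
  have h2 : ∀ᶠ L in 𝓝 D.a, ∃ x' ∈ (A ∩ {y | y ∈ Per D.m → 1 < ‖mul D.m y‖ → y ∈ NJ D.m J}) ∩
      Per D.m, mul D.m x' = exp L := (Complex.continuous_exp.tendsto D.a).eventually h1
  have h3 : ∀ᶠ L in 𝓝 D.a, D.σ L ∈ B := (σ_contAt hP (a_mem_B hP)).eventually (hB.mem_nhds hB')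
  have h5 : ∃ᶠ L in 𝓝 D.a, 0 < L.re := by
    have hcl : D.a ∈ closure {L : ℂ | 0 < L.re} := by
      rw [Complex.closure_setOfPred_lt_re]
      show (0 : ℝ) ≤ D.a.re
      unfold Dat.a
      rw [LimbData.axisPt_re]
    exact mem_closure_iff_frequently.1 hcl
  obtain ⟨L, hL0, ⟨x', ⟨⟨hx'A, hx'J⟩, hx'P⟩, hx'm⟩, hLB, hLD⟩ :=
    (h5.and_eventually (h2.and (h3.and (isOpen_B.mem_nhds (a_mem_B hP))))).exists
  have h6 : 1 < ‖mul D.m x'‖ := by
    rw [hx'm, Complex.norm_exp]; exact Real.one_lt_exp_iff.2 hL0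
  have h7 := hx'J hx'P h6
  obtain ⟨h8, h9⟩ := hP.sec L hLD
  have h10 : FF D.m (D.σ L) = lab D.m D.tm D.w := by
    refine (hP.lab L hLD hL0).2 D.tm ?_ ?_
    · rw [nu_tm hC]; linarith
    · rw [nu_tm hC]; linarith
  have h11 : x' = D.σ L := h4 D.m D.x L x' (D.σ L) hP.m_pos hP.x_pos hP.x_lt hLD hL0 hx'P h8
    hx'm h9 (by rw [h7.2.2.2, h10, hJl])
  rw [h11] at hx'A
  exact Set.disjoint_left.1 hAB hx'A hLB

/-- exterior parameters of angle `tm` accumulate at the root -/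
theorem root_tm (h4 : S4_unique) (hP : D.Par) (hC : D.Cir) :
    ∃ᶠ L in 𝓝 D.a, L ∈ D.B ∧ ExtP D.m (D.σ L).1 (D.σ L).2 D.tm D.w := by
  obtain ⟨u, y, hu, hy, hM, hE⟩ := exists_ray_limit hP.m_pos hP.bits D.tm
  obtain ⟨ℓ, hℓ, hℓm⟩ := limit_log hP hC hu hy hM hE
  have hmy : mul D.m y = exp D.a := by
    have h1 : Tendsto (fun j => mul D.m (u j)) atTop (𝓝 (mul D.m y)) :=
      ((continuous_mul' D.m).tendsto y).comp hu
    have h2 : Tendsto (fun j => exp (ℓ j)) atTop (𝓝 (exp D.a)) :=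
      (Complex.continuous_exp.tendsto D.a).comp hℓ
    have h3 : (fun j => exp (ℓ j)) = fun j => mul D.m (u j) := funext hℓm
    rw [h3] at h2
    exact tendsto_nhds_unique h1 h2
  have hya := limit_eq h4 hP hC hu hy hmy fun j => (hE j).1
  rw [hya] at hu
  have haB := a_mem_B hP
  obtain ⟨N, hN, hinj⟩ := (goodB hP).inj (D.σ D.a) (hP.sec D.a haB).1 D.a haB (hP.sec D.a haB).2
  have h1 : ∀ᶠ j in atTop, D.σ (ℓ j) = u j := by
    have h2 := ((σ_contAt hP haB).tendsto.comp hℓ).eventually hN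
    filter_upwards [h2, hu.eventually hN, hℓ.eventually (isOpen_B.mem_nhds haB)] with j g1 g2 g3
    refine hinj ⟨g1, (hP.sec _ g3).1⟩ ⟨g2, (hE j).1.2.2.1⟩ ?_
    show mul D.m (D.σ (ℓ j)) = mul D.m (u j)
    rw [(hP.sec _ g3).2, hℓm]
  refine hℓ.frequently ?_
  refine Eventually.frequently ?_
  filter_upwards [h1, hℓ.eventually (isOpen_B.mem_nhds haB)] with j g1 g2
  refine ⟨g2, ?_⟩
  rw [g1]
  exact (hE j).1

/-- **both sides of the plateau accumulate at the root** -/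
theorem s4_root (h4 : S4_unique) : S4_root := by
  intro D hP hC
  have hx0 := x_pos' hP
  have hx1 := x_lt' hP
  have key : ∀ T : Set ℝ, (∃ᶠ θ in 𝓝 D.tm, θ ∈ T) →
      ∃ᶠ L in 𝓝 D.a, L ∈ D.U ∧ ∃ θ ∈ T, D.Th L θ := by
    intro T hT
    rw [frequently_nhds_iff]
    intro O haO hO
    have hev : ∀ᶠ L in 𝓝 D.a, L ∈ O ∩ ball D.a (sR D.m D.x) :=
      inter_mem (hO.mem_nhds haO) (ball_mem_nhds D.a (sR_pos hP))
    obtain ⟨L, ⟨hLB, hLE⟩, hLO, hLr⟩ := ((root_tm h4 hP hC).and_eventually hev).exists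
    have hLa : L ≠ D.a := by
      rintro rfl
      have h1 := re_pos_of_ext hP (a_mem_B hP) (not_mem_MM_iff.2 hLE.1)
      unfold Dat.a at h1
      rw [LimbData.axisPt_re] at h1
      exact lt_irrefl _ h1
    have hUO : O ∩ D.U ∈ 𝓝 L := inter_mem (hO.mem_nhds hLO) (isOpen_U.mem_nhds ⟨hLr, hLa⟩)
    have hop : ∀ V ∈ 𝓝 L, (fun L => (D.σ L).1) '' V ∈ 𝓝 (D.σ L).1 := by
      intro V hV
      have h1 : D.c '' V ∈ 𝓝 (D.c L) := by
        rw [← c_map_nhds hP hLB]; exact image_mem_map hV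
      exact h1
    have h1 := lift_open_section hP.m_pos isOpen_B hP.cont hP.sec hLB hLE hop hUO
    have h2 : ∀ᶠ θ' in 𝓝 D.tm, (D.k₀ : ℝ) < Circ.nu D.w D.m θ' ∧
        Circ.nu D.w D.m θ' < D.k₀ + 1 := by
      have hc := (Circ.nu_continuous D.w D.m).continuousAt (x := D.tm)
      exact (hc.eventually (lt_mem_nhds (by rw [nu_tm hC]; linarith))).and
        (hc.eventually (gt_mem_nhds (by rw [nu_tm hC]; linarith)))
    obtain ⟨θ, hθT, ⟨L', ⟨⟨hL'O, hL'U⟩, hL'B⟩, hL'E⟩, hν⟩ := (hT.and_eventually (h1.and h2)).exists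
    exact ⟨L', hL'O, hL'U, θ, hθT, hL'E, hν.1, hν.2⟩
  constructor
  · have hT : ∃ᶠ θ in 𝓝 D.tm, θ ∈ Ioo D.tm D.tp := by
      have h6 : D.tm ∈ closure (Ioo D.tm D.tp) := by
        rw [closure_Ioo hC.lt.ne]; exact ⟨le_rfl, hC.lt.le⟩
      exact mem_closure_iff_frequently.1 h6
    refine (key _ hT).mono ?_
    rintro L ⟨hLU, θ, hθ, hTh⟩
    have hre := re_pos_of_ext hP (U_sub_B hP hLU) (Th_ext hTh)
    exact ⟨⟨hLU, hre, Or.inl ⟨θ, hTh, hθ.1, hθ.2⟩⟩, hLU, Th_ext hTh⟩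
  · have hT : ∃ᶠ θ in 𝓝 D.tm, θ ∈ Iio D.tm := by
      have h6 : D.tm ∈ closure (Iio D.tm) := by rw [closure_Iio]; exact self_mem_Iic
      exact mem_closure_iff_frequently.1 h6
    refine (key _ hT).mono ?_
    rintro L ⟨hLU, θ, hθ, hTh⟩
    refine ⟨⟨hLU, fun h => ?_, fun θ' h' => ?_⟩, hLU, Th_ext hTh⟩
    · exact absurd (RI_th h hTh hP).1 (not_lt.2 (le_of_lt hθ))
    · rw [Th_unique hP h' hTh]; exact Or.inl hθ

end

end Pool.Agent.Work.MLC.Sat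
end

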