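import Pool.Agent.Work.MLCM.C38
import Pool.Agent.Work.MLCM.C40
import Pool.Agent.Work.MLCM.C41
import Pool.Agent.Work.MLCM.C46
import Pool.Agent.Work.MLCM.C47

section
set_option autoImplicit false

/-! # The sector of a component `V`: definitions and openness (helper57)

`V` is a component of period `m`, given by the word `w` and the strip `k₀`. Its section `τ` is
defined on `Ω`, which contains the closed rectangle `-δ ≤ Re L ≤ 0`, `2 π x₁ ≤ Im L ≤ 2 π x₂`.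
`InV` is the set of the parameters between the rotation numbers `x₁` and `x₂`, `BarV` is the
barrier around it. The main result is that membership in `InV` is locally constant off `BarV`. -/

namespace Pool.Agent.Work.MLC

open Filter Topology Metric Set Complex

namespace Sat

/-- data of the sector of a component -/
structure VDat where
  /-- period -/
  m : ℕ
  /-- word -/
  w : ℕ → ℤ
  /-- strip -/
  k₀ : ℤ
  /-- section -/
  τ : ℂ → ℂ × ℂ
  /-- domain of the section -/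
  Ω : Set ℂ
  /-- lower rotation number -/
  x₁ : ℝ
  /-- upper rotation number -/
  x₂ : ℝ
  /-- lower angle -/
  θ₁ : ℝ
  /-- upper angle -/
  θ₂ : ℝ
  /-- depth of the rectangle -/
  δ : ℝ

namespace VDat

variable (V : VDat)

/-- the label -/
noncomputable def J : Lab V.m := lab V.m V.θ₁ V.w

/-- the hypotheses -/
structure Ok : Prop where
  m_pos : 0 < V.m
  bits : Bits V.m V.w
  x₁_pos : 0 < V.x₁
  lt : V.x₁ < V.x₂
  x₂_lt : V.x₂ < 1
  δ_pos : 0 < V.δ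
  nu₁ : Circ.nu V.w V.m V.θ₁ = V.k₀ + V.x₁
  nu₂ : Circ.nu V.w V.m V.θ₂ = V.k₀ + V.x₂
  good : GoodDom V.m V.Ω
  rect : ∀ L : ℂ, -V.δ ≤ L.re → L.re ≤ 0 → 2 * Real.pi * V.x₁ ≤ L.im →
    L.im ≤ 2 * Real.pi * V.x₂ → L ∈ V.Ω
  cont : ContinuousOn V.τ V.Ω
  sec : ∀ L ∈ V.Ω, V.τ L ∈ Per V.m ∧ mul V.m (V.τ L) = exp L
  lab : ∀ L ∈ V.Ω, 0 < L.re → FF V.m (V.τ L) = V.J

/-- the exterior part -/
def InE : Set ℂ := {c | ∃ θ, Ang c θ ∧ V.θ₁ < θ ∧ θ < V.θ₂}

/-- the part in the closure of `V` -/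
def InS : Set ℂ := {c | ∃ L : ℂ, -V.δ < L.re ∧ L.re ≤ 0 ∧ 2 * Real.pi * V.x₁ < L.im ∧
  L.im < 2 * Real.pi * V.x₂ ∧ (V.τ L).1 = c}

/-- the part in the limbs of `V` -/
def InM : Set ℂ := {c | c ∈ MM ∧ ∃ a r, (c, a) ∈ NJ V.m V.J ∧ Rt V.m (c, a) r ∧
  V.x₁ < r ∧ r < V.x₂}

/-- the parameters between `x₁` and `x₂` -/
def InV : Set ℂ := V.InE ∪ V.InS ∪ V.InM

/-- the barrier: the exterior part -/
def BarE : Set ℂ := {c | Ang c V.θ₁ ∨ Ang c V.θ₂}

/-- the barrier: the part in the closure of `V` -/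
def BarS : Set ℂ := {c | ∃ L : ℂ, -V.δ ≤ L.re ∧ L.re ≤ 0 ∧ 2 * Real.pi * V.x₁ ≤ L.im ∧
  L.im ≤ 2 * Real.pi * V.x₂ ∧ (L.re = -V.δ ∨ L.im = 2 * Real.pi * V.x₁ ∨
    L.im = 2 * Real.pi * V.x₂) ∧ (V.τ L).1 = c}

/-- the barrier: the part in the limbs -/
def BarM : Set ℂ := {c | c ∈ MM ∧ ∃ a, (c, a) ∈ NJ V.m V.J ∧
  (Rt V.m (c, a) V.x₁ ∨ Rt V.m (c, a) V.x₂)}

/-- the barrier -/
def BarV : Set ℂ := V.BarE ∪ V.BarS ∪ V.BarM

variable {V}

/-- angles of the strip have the label `J` -/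
lemma lab_strip (hV : V.Ok) {θ : ℝ} (h1 : (V.k₀ : ℝ) < Circ.nu V.w V.m θ)
    (h2 : Circ.nu V.w V.m θ < V.k₀ + 1) : Pool.Agent.Work.MLC.lab V.m θ V.w = V.J := by
  have hx0 := hV.x₁_pos
  have hx1 := hV.lt
  have hx2 := hV.x₂_lt
  have g1 := hV.nu₁
  refine lab_of_strip hV.bits fun θ'' hθ'' k hk => ?_
  have h3 : (V.k₀ : ℝ) < Circ.nu V.w V.m θ'' ∧ Circ.nu V.w V.m θ'' < V.k₀ + 1 := by
    rcases le_total V.θ₁ θ with h | h
    · rw [uIcc_of_le h] at hθ''
      have a1 := Circ.nu_mono V.w V.m hθ''.1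
      have a2 := Circ.nu_mono V.w V.m hθ''.2
      constructor <;> linarith
    · rw [uIcc_of_ge h] at hθ''
      have a1 := Circ.nu_mono V.w V.m hθ''.1
      have a2 := Circ.nu_mono V.w V.m hθ''.2
      constructor <;> linarith
  rw [hk] at h3
  have h4 : V.k₀ < k := by exact_mod_cast h3.1
  have h5 : k < V.k₀ + 1 := by exact_mod_cast h3.2
  omega

/-- the exterior pair with an angle of the strip -/
lemma exists_NJ (hV : V.Ok) {c : ℂ} {θ : ℝ} (h : Ang c θ) (h1 : (V.k₀ : ℝ) < Circ.nu V.w V.m θ)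
    (h2 : Circ.nu V.w V.m θ < V.k₀ + 1) : ∃ a, ExtP V.m c a θ V.w ∧ (c, a) ∈ NJ V.m V.J := by
  obtain ⟨a, ha⟩ := exists_extP hV.m_pos h hV.bits
  have hN : NonInt V.m (c, a) := nonInt_ext ha fun k hk => by
    rw [hk] at h1 h2
    have h4 : V.k₀ < k := by exact_mod_cast h1
    have h5 : k < V.k₀ + 1 := by exact_mod_cast h2
    omega
  refine ⟨a, ha, ha.2.2.1, one_lt_norm_mult_of_ext hV.m_pos ha.1 ha.2.2.1, hN, ?_⟩
  rw [FF_ext (x := (c, a)) ha, lab_strip hV h1 h2]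

/-- the angle of an exterior pair of label `J` -/
lemma exists_th (hV : V.Ok) {c a : ℂ} (h : (c, a) ∈ NJ V.m V.J) (hM : c ∉ MM) :
    ∃ θ, ExtP V.m c a θ V.w ∧ (V.k₀ : ℝ) < Circ.nu V.w V.m θ ∧
      Circ.nu V.w V.m θ < V.k₀ + 1 := by
  have hx0 := hV.x₁_pos
  have hx1 := hV.lt
  have hx2 := hV.x₂_lt
  have g1 := hV.nu₁
  obtain ⟨hper, hρ, hN, hF⟩ := h
  obtain ⟨θ', hθ'⟩ := exists_ang (not_mem_MM_iff.1 hM)
  obtain ⟨v, hv⟩ := exists_extP_word hV.m_pos hθ' hper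
  have hl : Pool.Agent.Work.MLC.lab V.m θ' v = Pool.Agent.Work.MLC.lab V.m V.θ₁ V.w := by
    rw [← FF_ext (x := (c, a)) hv, hF]; rfl
  obtain ⟨M, hM1, hM2, hM3⟩ := exists_shift_of_lab hV.m_pos hv.2.2.2.1 hV.bits (k₀ := V.k₀)
    (by linarith) (by linarith) (hN.2 θ' v hv) hl
  refine ⟨θ' + M, hv.move hV.m_pos hV.bits M fun i => ?_, hM2, hM3⟩
  have h1 := hM1 i
  rw [Int.even_iff] at h1 ⊢
  omega

/-- the fractional part of the rotation number, exterior pairs -/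
lemma fract_of {ν : ℝ} {k : ℤ} (h1 : (k : ℝ) < ν) (h2 : ν < k + 1) : Int.fract ν = ν - k := by
  have : ⌊ν⌋ = k := by
    rw [Int.floor_eq_iff]
    exact ⟨h1.le, h2⟩
  rw [Int.fract, this]

/-- pairs of label `J` with rotation number in `(x₁, x₂)` are over `InV` -/
lemma mem_of_Rt (hV : V.Ok) {c a : ℂ} {r : ℝ} (h : (c, a) ∈ NJ V.m V.J) (hr : Rt V.m (c, a) r)
    (h1 : V.x₁ < r) (h2 : r < V.x₂) : c ∈ V.InV := by
  by_cases hM : c ∈ MM
  · exact Or.inr ⟨hM, a, r, h, hr, h1, h2⟩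
  · obtain ⟨θ, hE, h3, h4⟩ := exists_th hV h hM
    have h5 : r = Circ.nu V.w V.m θ - V.k₀ := by
      have h6 : Rt V.m (c, a) (Int.fract (Circ.nu V.w V.m θ)) := Or.inl ⟨θ, V.w, hE, rfl⟩
      rw [hr.unique hV.m_pos h.1 h.2.1 h6, fract_of h3 h4]
    refine Or.inl (Or.inl ⟨θ, hE.ang, ?_, ?_⟩)
    · by_contra hcon
      rw [not_lt] at hcon
      have := Circ.nu_mono V.w V.m hcon
      rw [hV.nu₁] at this
      linarith
    · by_contra hcon
      rw [not_lt] at hcon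
      have := Circ.nu_mono V.w V.m hcon
      rw [hV.nu₂] at this
      linarith

/-- all periodic pairs near a point of the section are on the section -/
lemma near_section (hV : V.Ok) {L : ℂ} (hL : L ∈ V.Ω) {U : Set ℂ} (hU : U ∈ 𝓝 L) :
    ∀ᶠ c in 𝓝 (V.τ L).1, ∃ L' ∈ U ∩ V.Ω, (V.τ L').1 = c := by
  have h1 : map (fun L => (V.τ L).1) (𝓝 L) = 𝓝 (V.τ L).1 :=
    (section_strict hV.good hV.cont hV.sec hL).map_nhds_eq
      (section_deriv_ne_zero hV.good hV.cont hV.sec hL)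
  have h2 : (fun L => (V.τ L).1) '' (U ∩ V.Ω) ∈ 𝓝 (V.τ L).1 := by
    rw [← h1]
    exact image_mem_map (inter_mem hU (hV.good.isOpen.mem_nhds hL))
  filter_upwards [h2] with c hc
  obtain ⟨L', hL', rfl⟩ := hc
  exact ⟨L', hL', rfl⟩

/-- openness at the repelling pairs -/
lemma open_M (hV : V.Ok) {c₀ : ℂ} (h : c₀ ∈ V.InM) : ∀ᶠ c in 𝓝 c₀, c ∈ V.InV := by
  obtain ⟨hM, a, r, hNJ, hr, h1, h2⟩ := h
  have hM0 : G c₀ 0 = 0 := mem_M_iff.1 hM
  obtain ⟨hper, hρ, hN, hF⟩ := hNJ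
  have hne : mul V.m (c₀, a) ≠ 1 := by
    intro h; rw [h, norm_one] at hρ; exact lt_irrefl _ hρ
  obtain ⟨β, hβ, hβ0, hβe⟩ := chart hper hne
  have ht := chart_tendsto (x₀ := (c₀, a)) hβ hβ0
  have e1 := FF_nhds_gen hV.m_pos hper hρ hN
  have e2 := Rt_nhds hV.m_pos hper hρ hN hr one_pos
  have e3 : ∀ᶠ x in 𝓝 (c₀, a), 1 < ‖mul V.m x‖ :=
    (continuous_mul' V.m).norm.continuousAt.eventually (lt_mem_nhds hρ)
  filter_upwards [ht.eventually hβe, ht.eventually e1, ht.eventually e2, ht.eventually e3]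
    with c b1 b2 b3 b4
  have hp : (c, β c) ∈ Per V.m := b1.2 rfl
  obtain ⟨r', -, hr', hrr⟩ := b3 hp
  have hb2 := b2 hp
  refine mem_of_Rt hV (a := β c) (r := r') ⟨hp, b4, hb2.2, ?_⟩ hr' ?_ ?_
  · rw [hb2.1, hF]
  · rw [hrr hM0]; exact h1
  · rw [hrr hM0]; exact h2

/-- a rational good disc around a point of the axis -/
lemma exists_disc {m : ℕ} (hm : 0 < m) {φ : ℝ} (h0 : 0 < φ) (h1 : φ < 1) :
    ∃ x : ℚ, 0 < x ∧ x < 1 ∧ (2 * Real.pi * φ * I : ℂ) ∈ ball (axisPt x) (gR m x) := by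
  have hm' : (0 : ℝ) < m := by exact_mod_cast hm
  have hc : Continuous fun x : ℝ => 1 / 4 * (min x (1 - x)) ^ 2 / m - 2 * Real.pi * |φ - x| := by
    fun_prop
  have h2 : ∀ᶠ x in 𝓝 φ, 0 < 1 / 4 * (min x (1 - x)) ^ 2 / m - 2 * Real.pi * |φ - x| := by
    refine hc.continuousAt.eventually_const_lt ?_
    show 0 < 1 / 4 * (min φ (1 - φ)) ^ 2 / m - 2 * Real.pi * |φ - φ|
    rw [sub_self, abs_zero, mul_zero, sub_zero]
    have : 0 < min φ (1 - φ) := lt_min h0 (by linarith)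
    positivity
  obtain ⟨ε, hε, h3⟩ := Metric.eventually_nhds_iff.1
    (h2.and ((lt_mem_nhds h0).and (gt_mem_nhds h1)))
  obtain ⟨x, hx1, hx2⟩ := exists_rat_btwn (show φ < φ + ε by linarith)
  have h4 := h3 (y := (x : ℝ)) (by rw [Real.dist_eq, abs_lt]; constructor <;> linarith)
  refine ⟨x, by exact_mod_cast h4.2.1, by exact_mod_cast h4.2.2, ?_⟩
  rw [mem_ball, dist_eq_norm]
  have h5 : (2 * Real.pi * φ * I : ℂ) - axisPt x = ((2 * Real.pi * (φ - x) : ℝ) : ℂ) * I := by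
    unfold axisPt; push_cast; ring
  rw [h5, norm_mul, Complex.norm_I, mul_one, Complex.norm_real, Real.norm_eq_abs, abs_mul,
    abs_of_pos (by positivity : (0 : ℝ) < 2 * Real.pi)]
  unfold gR
  linarith [h4.1]

lemma axis_mem (hV : V.Ok) {φ : ℝ} (h1 : V.x₁ ≤ φ) (h2 : φ ≤ V.x₂) :
    (2 * Real.pi * φ * I : ℂ) ∈ V.Ω := by
  have hpi := Real.pi_pos
  refine hV.rect _ ?_ ?_ ?_ ?_
  · simp [hV.δ_pos.le]
  · simp
  · have : (2 * Real.pi * φ * I : ℂ).im = 2 * Real.pi * φ := by simp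
    rw [this]; exact mul_le_mul_of_nonneg_left h1 (by positivity)
  · have : (2 * Real.pi * φ * I : ℂ).im = 2 * Real.pi * φ := by simp
    rw [this]; exact mul_le_mul_of_nonneg_left h2 (by positivity)

lemma freq_re_pos {L₀ : ℂ} (h : L₀.re = 0) : ∃ᶠ L in 𝓝 L₀, 0 < L.re := by
  have hcl : L₀ ∈ closure {L : ℂ | 0 < L.re} := by
    rw [Complex.closure_setOfPred_lt_re]
    show (0 : ℝ) ≤ L₀.re
    rw [h]
  exact mem_closure_iff_frequently.1 hcl

/-- near a neutral point of the section all repelling pairs have the label `J` -/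
lemma axis_NJ (hV : V.Ok) {φ : ℝ} (h1 : V.x₁ ≤ φ) (h2 : φ ≤ V.x₂) :
    ∀ᶠ y in 𝓝 (V.τ (2 * Real.pi * φ * I)), y ∈ Per V.m → 1 < ‖mul V.m y‖ → y ∈ NJ V.m V.J := by
  have hx0 := hV.x₁_pos
  have hx1 := hV.x₂_lt
  set L₀ : ℂ := 2 * Real.pi * φ * I with hL₀
  have hL₀Ω : L₀ ∈ V.Ω := axis_mem hV h1 h2
  obtain ⟨hper, hmul⟩ := hV.sec L₀ hL₀Ω
  obtain ⟨⟨J', hJ'⟩, -, -⟩ := s3_neutral V.m (V.τ L₀) φ hV.m_pos hper (by linarith) (by linarith)
    hmul
  have hΩ : V.Ω ∈ 𝓝 L₀ := hV.good.isOpen.mem_nhds hL₀Ω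
  have hτ : ContinuousAt V.τ L₀ := hV.cont.continuousAt hΩ
  obtain ⟨L, a1, a2, a3⟩ := ((freq_re_pos (L₀ := L₀) (by simp [hL₀])).and_eventually
    ((hτ.eventually hJ').and hΩ)).exists
  obtain ⟨b1, b2⟩ := hV.sec L a3
  have h3 := a2 b1 (by rw [b2, Complex.norm_exp]; exact Real.one_lt_exp_iff.2 a1)
  have h4 : J' = V.J := by
    rw [← hV.lab L a3 a1]; exact h3.2.2.2.symm
  rw [h4] at hJ'
  exact hJ'

/-- a neutral limit of pairs of label `J` is a point of the section -/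
lemma neutral_eq (hV : V.Ok) {y : ℂ × ℂ} {φ : ℝ} (h1 : V.x₁ ≤ φ) (h2 : φ ≤ V.x₂)
    (hcl : y ∈ closure (NJ V.m V.J))
    (hm : mul V.m y = exp (2 * Real.pi * φ * I)) : V.τ (2 * Real.pi * φ * I) = y := by
  have hx0 := hV.x₁_pos
  have hx1 := hV.x₂_lt
  set L₀ : ℂ := 2 * Real.pi * φ * I with hL₀
  have hL₀Ω : L₀ ∈ V.Ω := axis_mem hV h1 h2
  have hΩ : V.Ω ∈ 𝓝 L₀ := hV.good.isOpen.mem_nhds hL₀Ω
  have hτ : ContinuousAt V.τ L₀ := hV.cont.continuousAt hΩ
  obtain ⟨x, hx0', hx1', hxb⟩ := exists_disc hV.m_pos (φ := φ) (by linarith) (by linarith)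
  by_contra hne
  obtain ⟨A, B, hA, hB, hA', hB', hAB⟩ := t2_separation hne
  -- the logarithm
  set ℓ : ℂ × ℂ → ℂ := fun z => L₀ + Complex.log (mul V.m z / exp L₀) with hℓ
  have hℓy : ℓ y = L₀ := by
    simp only [hℓ]
    rw [hm, div_self (exp_ne_zero _), Complex.log_one, add_zero]
  have hℓc : ContinuousAt ℓ y := by
    have h3 : mul V.m y / exp L₀ = 1 := by rw [hm, div_self (exp_ne_zero _)]
    refine continuousAt_const.add (ContinuousAt.clog ?_ ?_)
    · exact (continuous_mul' V.m).continuousAt.div_const _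
    · rw [h3]; exact Complex.one_mem_slitPlane
  have hℓt : Tendsto ℓ (𝓝 y) (𝓝 L₀) := by
    have := hℓc.tendsto; rwa [hℓy] at this
  have hev : ∀ᶠ z in 𝓝 y, z ∈ B ∧ V.τ (ℓ z) ∈ A ∧ ℓ z ∈ V.Ω ∧ ℓ z ∈ ball (axisPt x) (gR V.m x) ∧
      mul V.m z ≠ 0 := by
    refine (show ∀ᶠ z in 𝓝 y, z ∈ B from hB.mem_nhds hB').and ((hℓt.eventually (hτ.eventually (hA.mem_nhds hA'))).and
      ((hℓt.eventually hΩ).and ((hℓt.eventually (isOpen_ball.mem_nhds hxb)).and ?_)))
    refine (continuous_mul' V.m).continuousAt.eventually_ne ?_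
    rw [hm]; exact exp_ne_zero _
  rw [mem_closure_iff_frequently] at hcl
  obtain ⟨z, hz, a1, a2, a3, a4, a5⟩ := (hcl.and_eventually hev).exists
  have hexp : exp (ℓ z) = mul V.m z := by
    simp only [hℓ]
    rw [Complex.exp_add, Complex.exp_log (div_ne_zero a5 (exp_ne_zero _))]
    field_simp
  have hre : 0 < (ℓ z).re := by
    have h3 := hz.2.1
    rw [← hexp, Complex.norm_exp] at h3
    exact Real.one_lt_exp_iff.1 h3
  obtain ⟨b1, b2⟩ := hV.sec (ℓ z) a3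
  have h4 : z = V.τ (ℓ z) := s4_unique V.m x (ℓ z) z (V.τ (ℓ z)) hV.m_pos hx0' hx1' a4 hre hz.1 b1
    hexp.symm b2 (by rw [hz.2.2.2, hV.lab _ a3 hre])
  rw [← h4] at a2
  exact Set.disjoint_left.1 hAB a2 a1

/-- openness at the points of the section -/
lemma open_S (hV : V.Ok) {c₀ : ℂ} (h : c₀ ∈ V.InS) : ∀ᶠ c in 𝓝 c₀, c ∈ V.InV := by
  have hx0 := hV.x₁_pos
  have hx1 := hV.x₂_lt
  have hpi := Real.pi_pos
  obtain ⟨L₀, h1, h2, h3, h4, rfl⟩ := h
  have hL₀Ω : L₀ ∈ V.Ω := hV.rect L₀ h1.le h2 h3.le h4.le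
  have hΩ : V.Ω ∈ 𝓝 L₀ := hV.good.isOpen.mem_nhds hL₀Ω
  have hτ : ContinuousAt V.τ L₀ := hV.cont.continuousAt hΩ
  have e1 : ∀ᶠ L in 𝓝 L₀, -V.δ < L.re ∧ 2 * Real.pi * V.x₁ < L.im ∧ L.im < 2 * Real.pi * V.x₂ :=
    (Complex.continuous_re.continuousAt.eventually_const_lt h1).and
      ((Complex.continuous_im.continuousAt.eventually_const_lt h3).and
        (Complex.continuous_im.continuousAt.eventually_lt_const h4))
  have e2 : ∀ᶠ L in 𝓝 L₀, L ∈ V.Ω → 0 < L.re → V.τ L ∈ NJ V.m V.J ∧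
      ∃ r, Rt V.m (V.τ L) r ∧ V.x₁ < r ∧ r < V.x₂ := by
    rcases h2.eq_or_lt with h0 | h0
    · set φ : ℝ := L₀.im / (2 * Real.pi) with hφ
      have hφL : L₀ = 2 * Real.pi * φ * I := by
        apply Complex.ext
        · simp [h0]
        · have : (2 * Real.pi * φ * I : ℂ).im = 2 * Real.pi * φ := by simp
          rw [this, hφ]; field_simp
      have hφ1 : V.x₁ < φ := by rw [hφ, lt_div_iff₀ (by positivity)]; linarith
      have hφ2 : φ < V.x₂ := by rw [hφ, div_lt_iff₀ (by positivity)]; linarith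
      have f1 := axis_NJ hV hφ1.le hφ2.le
      have f2 := Rt_neutral hV.m_pos (x := V.τ (2 * Real.pi * φ * I)) (φ := φ)
        (by rw [← hφL]; exact (hV.sec L₀ hL₀Ω).1) (by linarith) (by linarith)
        (by rw [← hφL]; exact (hV.sec L₀ hL₀Ω).2) (isOpen_Ioo (a := V.x₁) (b := V.x₂)) ⟨hφ1, hφ2⟩
      rw [← hφL] at f1 f2
      filter_upwards [hτ.eventually f1, hτ.eventually f2] with L g1 g2 g3 g4
      obtain ⟨b1, b2⟩ := hV.sec L g3
      have hρ : 1 < ‖mul V.m (V.τ L)‖ := by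
        rw [b2, Complex.norm_exp]; exact Real.one_lt_exp_iff.2 g4
      obtain ⟨r, hr, hR⟩ := g2 b1 hρ
      exact ⟨g1 b1 hρ, r, hR, hr.1, hr.2⟩
    · filter_upwards [Complex.continuous_re.continuousAt.eventually_lt_const h0] with L g1 _ g2
      exact absurd g1 (not_lt.2 g2.le)
  filter_upwards [near_section hV hL₀Ω (e1.and e2)] with c hc
  obtain ⟨L, ⟨⟨⟨a1, a2, a3⟩, a4⟩, a5⟩, rfl⟩ := hc
  rcases le_or_gt L.re 0 with h0 | h0
  · exact Or.inl (Or.inr ⟨L, a1, h0, a2, a3, rfl⟩)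
  · obtain ⟨b1, r, b2, b3, b4⟩ := a4 a5 h0
    exact mem_of_Rt hV (a := (V.τ L).2) b1 b2 b3 b4

/-- openness at the exterior points -/
lemma open_E {c₀ : ℂ} (h : c₀ ∈ V.InE) : ∀ᶠ c in 𝓝 c₀, c ∈ V.InV := by
  obtain ⟨θ, h1, h2, h3⟩ := h
  filter_upwards [ang_nhds h1 (lt_min (sub_pos.2 h2) (sub_pos.2 h3))] with c hc
  obtain ⟨θ', h4, h5⟩ := hc
  have h6 := abs_lt.1 h4
  have h7 := min_le_left (θ - V.θ₁) (V.θ₂ - θ)
  have h8 := min_le_right (θ - V.θ₁) (V.θ₂ - θ)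
  exact Or.inl (Or.inl ⟨θ', h5, by linarith, by linarith⟩)

/-- **`InV` is open** -/
theorem isOpen_InV (hV : V.Ok) : IsOpen V.InV := by
  rw [isOpen_iff_mem_nhds]
  rintro c ((h | h) | h)
  · exact open_E h
  · exact open_S hV h
  · exact open_M hV h

/-! ### closedness -/

/-- exterior limits of `InE` -/
lemma closed_E {c₀ : ℂ} (hM : c₀ ∉ MM) (h : c₀ ∈ closure V.InE) :
    c₀ ∈ V.InE ∨ c₀ ∈ V.BarE := by
  obtain ⟨θ₀, hθ₀⟩ := exists_ang (not_mem_MM_iff.1 hM)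
  set e : ℝ → ℂ := fun θ => exp (2 * Real.pi * I * θ) with he
  have hec : Continuous e := by fun_prop
  set K : Set ℂ := e '' Icc V.θ₁ V.θ₂ with hK
  have hKc : IsClosed K := (isCompact_Icc.image hec).isClosed
  have hmem : e θ₀ ∈ K := by
    by_contra hcon
    have h1 : ∀ᶠ θ in 𝓝 θ₀, e θ ∉ K := hec.continuousAt.eventually (hKc.isOpen_compl.mem_nhds hcon)
    obtain ⟨ε, hε, h2⟩ := Metric.eventually_nhds_iff.1 h1
    rw [mem_closure_iff_frequently] at h
    obtain ⟨c, ⟨θ, a1, a2, a3⟩, θ', a4, a5⟩ := (h.and_eventually (ang_nhds hθ₀ hε)).exists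
    obtain ⟨k, hk⟩ := a1.unique a5
    refine h2 (y := θ') (by rw [Real.dist_eq]; exact a4) ⟨θ, ⟨a2.le, a3.le⟩, ?_⟩
    simp only [he]
    rw [hk, Complex.exp_eq_exp_iff_exists_int]
    exact ⟨-k, by push_cast; ring⟩
  obtain ⟨θ, hθ, hθe⟩ := hmem
  simp only [he] at hθe
  rw [Complex.exp_eq_exp_iff_exists_int] at hθe
  obtain ⟨k, hk⟩ := hθe
  have h3 : θ = θ₀ + k := by
    have hpi : (2 * Real.pi * I : ℂ) ≠ 0 := by
      simp [Real.pi_ne_zero]
    have h4 : (2 * Real.pi * I : ℂ) * θ = 2 * Real.pi * I * (θ₀ + k) := by rw [hk]; ring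
    have h5 := mul_left_cancel₀ hpi h4
    exact_mod_cast h5
  have h4 : Ang c₀ θ := by rw [h3]; exact hθ₀.add_int k
  rcases hθ.1.eq_or_lt with h5 | h5
  · exact Or.inr (Or.inl (by rw [h5]; exact h4))
  rcases hθ.2.eq_or_lt with h6 | h6
  · exact Or.inr (Or.inr (by rw [← h6]; exact h4))
  exact Or.inl ⟨θ, h4, h5, h6⟩

lemma InS_sub_MM (hV : V.Ok) : V.InS ⊆ MM := by
  rintro c ⟨L, h1, h2, h3, h4, rfl⟩
  by_contra hM
  have hL := hV.rect L h1.le h2 h3.le h4.le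
  obtain ⟨b1, b2⟩ := hV.sec L hL
  have h5 := rep13 hV.m_pos b1 hM
  rw [b2, Complex.norm_exp] at h5
  have := Real.one_lt_exp_iff.1 h5
  linarith

/-- limits of the points of the section -/
lemma closed_S (hV : V.Ok) {c₀ : ℂ} (h : c₀ ∈ closure V.InS) : c₀ ∈ V.InS ∨ c₀ ∈ V.BarS := by
  set K : Set ℂ := Icc (-V.δ) 0 ×ℂ Icc (2 * Real.pi * V.x₁) (2 * Real.pi * V.x₂) with hK
  have hKc : IsCompact K := isCompact_Icc.reProdIm isCompact_Icc
  have hKΩ : K ⊆ V.Ω := by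
    intro L hL
    rw [hK, Complex.mem_reProdIm] at hL
    exact hV.rect L hL.1.1 hL.1.2 hL.2.1 hL.2.2
  have h1 : IsClosed ((fun L => (V.τ L).1) '' K) :=
    (hKc.image_of_continuousOn (continuous_fst.comp_continuousOn (hV.cont.mono hKΩ))).isClosed
  have h2 : V.InS ⊆ (fun L => (V.τ L).1) '' K := by
    rintro c ⟨L, a1, a2, a3, a4, rfl⟩
    exact ⟨L, by rw [hK, Complex.mem_reProdIm]; exact ⟨⟨a1.le, a2⟩, a3.le, a4.le⟩, rfl⟩
  obtain ⟨L, hL, rfl⟩ := closure_minimal h2 h1 h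
  rw [hK, Complex.mem_reProdIm] at hL
  obtain ⟨⟨a1, a2⟩, a3, a4⟩ := hL
  rcases a1.eq_or_lt with b1 | b1
  · exact Or.inr ⟨L, a1, a2, a3, a4, Or.inl b1.symm, rfl⟩
  rcases a3.eq_or_lt with b2 | b2
  · exact Or.inr ⟨L, a1, a2, a3, a4, Or.inr (Or.inl b2.symm), rfl⟩
  rcases a4.eq_or_lt with b3 | b3
  · exact Or.inr ⟨L, a1, a2, a3, a4, Or.inr (Or.inr b3), rfl⟩
  exact Or.inl ⟨L, b1, a2, b2, b3, rfl⟩

/-- every point of `InE` and `InM` has a pair of label `J` with rotation number in `[x₁, x₂]` -/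
lemma pair_of_mem (hV : V.Ok) {c : ℂ} (h : c ∈ V.InE ∪ V.InM) :
    ∃ a r, (c, a) ∈ NJ V.m V.J ∧ Rt V.m (c, a) r ∧ V.x₁ ≤ r ∧ r ≤ V.x₂ := by
  have hx0 := hV.x₁_pos
  have hx1 := hV.lt
  have hx2 := hV.x₂_lt
  rcases h with ⟨θ, h1, h2, h3⟩ | ⟨-, a, r, h1, h2, h3, h4⟩
  · have g1 := Circ.nu_mono V.w V.m h2.le
    have g2 := Circ.nu_mono V.w V.m h3.le
    rw [hV.nu₁] at g1
    rw [hV.nu₂] at g2
    obtain ⟨a, ha, hJ⟩ := exists_NJ hV h1 (by linarith) (by linarith)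
    refine ⟨a, _, hJ, Or.inl ⟨θ, V.w, ha, rfl⟩, ?_, ?_⟩
    · rw [fract_of (k := V.k₀) (by linarith) (by linarith)]; linarith
    · rw [fract_of (k := V.k₀) (by linarith) (by linarith)]; linarith
  · exact ⟨a, r, h1, h2, h3.le, h4.le⟩

/-- the statement of `limit_pair` (helper69) -/
def LimitPair : Prop := ∀ (m : ℕ), 0 < m → ∀ (J : Lab m) (x₁ x₂ : ℝ), 0 < x₁ → x₂ < 1 →
  ∀ c₀ ∈ MM, (∃ᶠ c in 𝓝 c₀, ∃ a r, (c, a) ∈ NJ m J ∧ Rt m (c, a) r ∧ x₁ ≤ r ∧ r ≤ x₂) →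
  (∃ a r, (c₀, a) ∈ NJ m J ∧ Rt m (c₀, a) r ∧ x₁ ≤ r ∧ r ≤ x₂) ∨
  (∃ (a : ℂ) (φ : ℝ), (c₀, a) ∈ Per m ∧ (c₀, a) ∈ closure (NJ m J) ∧ x₁ ≤ φ ∧ φ ≤ x₂ ∧
    mul m (c₀, a) = exp (2 * Real.pi * φ * I))

/-- **the frontier of `InV` is on the barrier** -/
theorem closure_InV (hLP : LimitPair) (hV : V.Ok) {c₀ : ℂ} (h : c₀ ∈ closure V.InV) :
    c₀ ∈ V.InV ∨ c₀ ∈ V.BarV := by
  unfold InV at h
  rw [closure_union, closure_union] at h
  by_cases hM : c₀ ∈ MM
  · by_cases hS : c₀ ∈ closure V.InS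
    · rcases closed_S hV hS with h1 | h1
      · exact Or.inl (Or.inl (Or.inr h1))
      · exact Or.inr (Or.inl (Or.inr h1))
    · have h1 : c₀ ∈ closure (V.InE ∪ V.InM) := by
        rw [closure_union]
        rcases h with (h | h) | h
        · exact Or.inl h
        · exact absurd h hS
        · exact Or.inr h
      rw [mem_closure_iff_frequently] at h1
      have h2 := hLP V.m hV.m_pos V.J V.x₁ V.x₂ hV.x₁_pos hV.x₂_lt c₀ hM
        (h1.mono fun c hc => pair_of_mem hV hc)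
      rcases h2 with ⟨a, r, b1, b2, b3, b4⟩ | ⟨a, φ, b1, b2, b3, b4, b5⟩
      · rcases b3.eq_or_lt with g1 | g1
        · rw [← g1] at b2
          exact Or.inr (Or.inr ⟨hM, a, b1, Or.inl b2⟩)
        rcases b4.eq_or_lt with g2 | g2
        · rw [g2] at b2
          exact Or.inr (Or.inr ⟨hM, a, b1, Or.inr b2⟩)
        exact Or.inl (Or.inr ⟨hM, a, r, b1, b2, g1, g2⟩)
      · have h3 := neutral_eq hV b3 b4 b2 b5
        have hpi := Real.pi_pos
        have e1 : (2 * Real.pi * φ * I : ℂ).re = 0 := by simp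
        have e2 : (2 * Real.pi * φ * I : ℂ).im = 2 * Real.pi * φ := by simp
        have e3 : (V.τ (2 * Real.pi * φ * I)).1 = c₀ := by rw [h3]
        have e4 := hV.δ_pos
        rcases b3.eq_or_lt with g1 | g1
        · refine Or.inr (Or.inl (Or.inr ⟨_, by rw [e1]; linarith, e1.le, ?_, ?_,
            Or.inr (Or.inl ?_), e3⟩))
          · rw [e2]; exact mul_le_mul_of_nonneg_left b3 (by positivity)
          · rw [e2]; exact mul_le_mul_of_nonneg_left b4 (by positivity)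
          · rw [e2, g1]
        rcases b4.eq_or_lt with g2 | g2
        · refine Or.inr (Or.inl (Or.inr ⟨_, by rw [e1]; linarith, e1.le, ?_, ?_,
            Or.inr (Or.inr ?_), e3⟩))
          · rw [e2]; exact mul_le_mul_of_nonneg_left b3 (by positivity)
          · rw [e2]; exact mul_le_mul_of_nonneg_left b4 (by positivity)
          · rw [e2, g2]
        refine Or.inl (Or.inl (Or.inr ⟨_, by rw [e1]; linarith, e1.le, ?_, ?_, e3⟩))
        · rw [e2]; exact mul_lt_mul_of_pos_left g1 (by positivity)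
        · rw [e2]; exact mul_lt_mul_of_pos_left g2 (by positivity)
  · have hcl : ∀ S ⊆ MM, c₀ ∉ closure S := fun S hS hc =>
      hM (closure_minimal hS isClosed_MM hc)
    rcases h with (h | h) | h
    · rcases closed_E hM h with h1 | h1
      · exact Or.inl (Or.inl (Or.inl h1))
      · exact Or.inr (Or.inl (Or.inl h1))
    · exact absurd h (hcl _ (InS_sub_MM hV))
    · exact absurd h (hcl _ fun c hc => hc.1)

/-- **off the barrier membership in `InV` is locally constant** -/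
theorem inV_clopen (hLP : LimitPair) (hV : V.Ok) {c₀ : ℂ} (h : c₀ ∉ V.BarV) :
    ∀ᶠ c in 𝓝 c₀, (c ∈ V.InV ↔ c₀ ∈ V.InV) := by
  by_cases h0 : c₀ ∈ V.InV
  · filter_upwards [(isOpen_InV hV).mem_nhds h0] with c hc
    exact ⟨fun _ => h0, fun _ => hc⟩
  · have h1 : c₀ ∉ closure V.InV := fun h2 => by
      rcases closure_InV hLP hV h2 with h3 | h3
      · exact h0 h3
      · exact h h3
    filter_upwards [isClosed_closure.isOpen_compl.mem_nhds h1] with c hc
    exact ⟨fun h2 => absurd (subset_closure h2) hc, fun h2 => absurd h2 h0⟩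

end VDat

end Sat

end Pool.Agent.Work.MLC
end

section
set_option autoImplicit false

/-! # Circle module for satellite components, part F (helper54)

Assembly: `s1_circle`, `s1_rot`. -/

namespace Pool.Agent.Work.MLC

open Set Circ CircleDeg1Lift Filter Topology

/-- points of the orbit are `N q`-periodic -/
theorem per_of_mem {N q : ℕ} {x : ℝ} (hx : PerAngle N q x) {j : ℕ} {a : ℝ} (ha : a ∈ AA N x j) :
    ∃ l : ℤ, (2 : ℝ) ^ (N * q) * a - a = l := (perAngle_of_mem hx ha).2.1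

namespace CA

variable {N q : ℕ} {w : ℕ → ℤ} {s t : ℝ}

/-- the flipped word is primitive -/
theorem flw_prim (h : CA N q w s t) : ∀ d, 0 < d → d < N * q →
    ∃ i, flw (N * q) w (i + d) ≠ flw (N * q) w i := by
  intro d hd hdn
  by_contra hcon
  push Not at hcon
  have hN := h.pos
  have hq := h.two
  have hw := h.word
  set n := N * q with hn
  have hn2 : 2 * N ≤ n := by
    calc 2 * N = N * 2 := by ring
      _ ≤ N * q := Nat.mul_le_mul_left N hq
  -- the last letter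
  have e1 : flw n w (n - 1 + d) = flw n w (n - 1) := hcon (n - 1)
  have hl : flw n w (n - 1) = 1 - w (n - 1) := flw_last w (by omega)
  have hd1 : flw n w (n - 1 + d) = w (n - 1 + d) := by
    unfold flw
    rw [if_neg]
    rw [show n - 1 + d + 1 = d + n by omega, Nat.add_mod_right, Nat.mod_eq_of_lt hdn]
    omega
  have e2 : w (n - 1 + d) = 1 - w (n - 1) := by rw [← hd1, e1, hl]
  -- the letter `N` steps later
  have e3 : flw n w (n - 1 + N + d) = flw n w (n - 1 + N) := hcon (n - 1 + N)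
  have h4 : flw n w (n - 1 + N) = w (n - 1) := by
    unfold flw
    rw [if_neg, hw.2.1]
    rw [show n - 1 + N + 1 = N + n by omega, Nat.add_mod_right, Nat.mod_eq_of_lt (by omega)]
    omega
  rw [h4] at e3
  have hb := hw.1 (n - 1)
  by_cases h5 : (n - 1 + N + d + 1) % n = 0
  · -- `d = n - N`
    have h6 : (N + d) % n = 0 := by
      rwa [show n - 1 + N + d + 1 = N + d + n by omega, Nat.add_mod_right] at h5
    have h7 : N + d = n := by
      rcases Nat.lt_or_ge (N + d) n with h8 | h8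
      · rw [Nat.mod_eq_of_lt h8] at h6; omega
      · rw [Nat.mod_eq_sub_mod h8, Nat.mod_eq_of_lt (by omega)] at h6; omega
    have h8 : flw n w (n - 1 + N + d) = 1 - w (n - 1) := by
      rw [show n - 1 + N + d = n - 1 + n by omega, flw_per (fun i => word_mod hw.2.1 i q), hl]
    rw [h8] at e3
    omega
  · have h8 : flw n w (n - 1 + N + d) = w (n - 1 + d) := by
      unfold flw
      rw [if_neg h5, show n - 1 + N + d = n - 1 + d + N by omega, hw.2.1]
    rw [h8, e2] at e3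
    omega

/-- compatibility inside a label forces the angle to be inside the arc -/
theorem arc_of_compat (h : CA N q w s t) {P : ℤ} (hP : ∀ θ, s ≤ θ → θ ≤ t → nu w N θ = P / q)
    {k₀ : ℤ} (hk1 : (k₀ : ℝ) < (P : ℝ) / q) (hk2 : (P : ℝ) / q < k₀ + 1) {θ : ℝ}
    (hc : Compat s θ w) (h1 : (k₀ : ℝ) < nu w N θ) (h2 : nu w N θ < k₀ + 1) : s < θ ∧ θ < t := by
  have hst := h.lt
  have hts := h.lt'
  have hn0 := h.npos
  obtain ⟨M, hM⟩ : ∃ M, M + 1 = N * q := ⟨N * q - 1, by omega⟩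
  have hMn : (M + 1) % (N * q) = 0 := by rw [hM, Nat.mod_self]
  have hct : Compat t θ w := by
    have := compat_of_mem h.word.2.1 hc h.mem
    simpa using this
  obtain ⟨a, a1, a2⟩ := hc M
  obtain ⟨k, -, -, -, hk⟩ := h.s_pos M
  have hk := hk hMn
  obtain ⟨b, b1, b2⟩ := hct M
  obtain ⟨l, -, -, -, hl⟩ := h.t_pos M
  have hl := hl hMn
  rw [pow_succ] at hk hl
  -- `θ < s + 1 + 2 (k - a) < θ + 1`, `θ < t + 2 (l - b) < θ + 1`
  have c1 : θ < s + 1 + 2 * (k - a) := by linarith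
  have c2 : s + 1 + 2 * (k - a) < θ + 1 := by linarith
  have c3 : θ < t + 2 * (l - b) := by linarith
  have c4 : t + 2 * (l - b) < θ + 1 := by linarith
  have hc0 : l - b = k - a := by
    have f1 : ((-1 : ℤ) : ℝ) < ((l - b - (k - a) : ℤ) : ℝ) := by push_cast; linarith
    have f2 : ((l - b - (k - a) : ℤ) : ℝ) < ((1 : ℤ) : ℝ) := by push_cast; linarith
    have f3 : -1 < l - b - (k - a) := by exact_mod_cast f1
    have f4 : l - b - (k - a) < 1 := by exact_mod_cast f2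
    omega
  set e : ℤ := k - a with he
  have hc0' : (l : ℝ) - b = e := by
    have : ((l - b : ℤ) : ℝ) = ((e : ℤ) : ℝ) := by rw [hc0]
    push_cast at this; exact this
  have he' : (k : ℝ) - a = e := by rw [he]; push_cast; ring
  rw [he'] at c1 c2
  rw [hc0'] at c3 c4
  -- `θ - 2 e` is in the arc
  have g1 : s < θ + 2 * ((-e : ℤ) : ℝ) := by push_cast; linarith
  have g2 : θ + 2 * ((-e : ℤ) : ℝ) < t := by push_cast; linarith
  have g3 := hP _ g1.le g2.le
  rw [nu_add_even] at g3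
  have hN : (1 : ℝ) ≤ N := by exact_mod_cast h.pos
  have g4 : e = 0 := by
    have f1 : ((-1 : ℤ) : ℝ) < ((N * e : ℤ) : ℝ) := by push_cast; push_cast at g3; linarith
    have f2 : ((N * e : ℤ) : ℝ) < ((1 : ℤ) : ℝ) := by push_cast; push_cast at g3; linarith
    have f3 : -1 < (N : ℤ) * e := by exact_mod_cast f1
    have f4 : (N : ℤ) * e < 1 := by exact_mod_cast f2
    have f5 : (N : ℤ) * e = 0 := by omega
    rcases mul_eq_zero.1 f5 with f6 | f6
    · have := h.pos; omega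
    · exact f6
  rw [g4] at g1 g2
  push_cast at g1 g2
  exact ⟨by linarith, by linarith⟩

end CA

theorem isCoprime_aux (x : ℚ) (k₀ : ℤ) : IsCoprime (k₀ * x.den + x.num) (x.den : ℤ) := by
  have h : IsCoprime x.num (x.den : ℤ) := by
    rw [Int.isCoprime_iff_nat_coprime]
    simpa using x.reduced
  have := h.add_mul_left_left k₀
  rwa [add_comm, mul_comm] at this

theorem cast_aux (x : ℚ) (k₀ : ℤ) :
    ((k₀ * x.den + x.num : ℤ) : ℝ) / (x.den : ℕ) = k₀ + x := by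
  have h : (x.den : ℝ) ≠ 0 := by exact_mod_cast x.den_nz
  have h2 : (x : ℝ) = x.num / x.den := Rat.cast_def x
  rw [h2]
  push_cast
  field_simp

theorem two_le_den {x : ℚ} (h0 : 0 < x) (h1 : x < 1) : 2 ≤ x.den := by
  by_contra hcon
  have hd : x.den = 1 := by have := x.den_pos; omega
  have hx : x = x.num := ((Rat.den_eq_one_iff x).1 hd).symm
  rw [hx] at h0 h1
  have h2 : 0 < x.num := by exact_mod_cast h0
  have h3 : x.num < 1 := by exact_mod_cast h1
  omega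

namespace Sat

/-- **S1'** -/
theorem s1_rot : S1_rot := by
  intro m w i₀ θ hw
  have := nu_shift_word w m hw.per θ i₀
  rw [← this]
  congr 1
  funext i
  rw [add_comm]

/-- **S1** -/
theorem s1_circle : S1_circle := by
  intro m x w k₀ hm hx0 hx1 hbits hprim
  have hW : Word m w := ⟨hbits.bit, hbits.per, hprim⟩
  have hq := two_le_den hx0 hx1
  obtain ⟨i₀, hi₀, s, t, h, hplat⟩ := exists_arc hm hq hW (isCoprime_aux x k₀)
  obtain ⟨k, hks, hkt, hkin⟩ := h.flw_arc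
  have hcomm : (fun i => w (i₀ + i)) = fun i => w (i + i₀) := by
    funext i; rw [add_comm]
  rw [hcomm] at h hplat hks hkt hkin
  refine ⟨i₀, flw (m * x.den) (fun i => w (i + i₀)), k, s, t, hi₀, fun σ => ?_⟩
  set w' : ℕ → ℤ := fun i => w (i + i₀) with hw'
  set P : ℤ := k₀ * x.den + x.num with hP
  have hPx : ((P : ℤ) : ℝ) / (x.den : ℕ) = k₀ + x := cast_aux x k₀
  have hst := h.lt
  have hts := h.lt'
  have hq0 : 0 < x.den := by omega
  have hn0 : 0 < m * x.den := Nat.mul_pos hm hq0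
  have hx0' : (0 : ℝ) < x := by exact_mod_cast hx0
  have hx1' : (x : ℝ) < 1 := by exact_mod_cast hx1
  have hplat' : ∀ θ, s ≤ θ → θ ≤ t → nu w' m θ = (P : ℝ) / (x.den : ℕ) := fun θ h1 h2 =>
    (hplat θ).2 ⟨h1, h2⟩
  have hgap : ∀ θ, |nu w' m θ - (k₀ + x)| < 1 / (((m * x.den : ℕ) : ℝ) * x.den) →
      (∃ l : ℤ, (2 : ℝ) ^ (m * x.den) * θ - θ = l) → s ≤ θ ∧ θ ≤ t := by
    intro θ h1 h2
    rw [← hPx] at h1
    exact (hplat θ).1 (gap_of_near w' m (m * x.den) x.den hn0 hq0 h2 h1)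
  have hL : ∀ θ, |nu w' m θ - (k₀ + x)| < 1 / (((m * x.den : ℕ) : ℝ) * x.den) →
      ∀ j, ∀ a ∈ AA m s j, θ ≤ a → ¬ a < s := by
    intro θ h1 j a ha h2 h3
    have h4 : nu w' m θ ≤ nu w' m a := nu_mono w' m h2
    have h5 : nu w' m a ≤ nu w' m s := nu_mono w' m h3.le
    rw [hplat' s le_rfl hst.le, hPx] at h5
    have h6 : |nu w' m a - (k₀ + x)| < 1 / (((m * x.den : ℕ) : ℝ) * x.den) := by
      rw [abs_lt] at h1 ⊢
      constructor <;> linarith [h1.1, h1.2]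
    exact absurd (hgap a h6 (per_of_mem h.per ha)).1 (not_le.2 h3)
  have hR : ∀ θ, |nu w' m θ - (k₀ + x)| < 1 / (((m * x.den : ℕ) : ℝ) * x.den) →
      ∀ j, ∀ a ∈ AA m s j, t < a → ¬ a ≤ θ := by
    intro θ h1 j a ha h2 h3
    have h4 : nu w' m a ≤ nu w' m θ := nu_mono w' m h3
    have h5 : nu w' m t ≤ nu w' m a := nu_mono w' m h2.le
    rw [hplat' t hst.le le_rfl, hPx] at h5
    have h6 : |nu w' m a - (k₀ + x)| < 1 / (((m * x.den : ℕ) : ℝ) * x.den) := by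
      rw [abs_lt] at h1 ⊢
      constructor <;> linarith [h1.1, h1.2]
    exact absurd (hgap a h6 (per_of_mem h.per ha)).2 (not_le.2 h2)
  exact
    { ubits := bits_flw h.word
      flip := by
        intro i
        show flw (m * x.den) w' i = if m * x.den ∣ i + 1 then 1 - w' i else w' i
        unfold flw
        by_cases hd : m * x.den ∣ i + 1
        · rw [if_pos hd, if_pos (Nat.dvd_iff_mod_eq_zero.1 hd)]
        · rw [if_neg hd, if_neg fun h0 => hd (Nat.dvd_iff_mod_eq_zero.2 h0)]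
      uprim := h.flw_prim
      lt := hst
      lt_one := hts
      plateau := by
        intro θ
        show nu w' m θ = k₀ + x ↔ s ≤ θ ∧ θ ≤ t
        rw [← hPx]; exact hplat θ
      nu_in := hkin
      nu_left := fun θ h1 h2 => (h.nu_left h2 (hL θ h1)).trans hks
      nu_right := fun θ h1 h2 => (h.nu_right h2 (hR θ h1)).trans hkt
      per := h.per
      orb := by
        obtain ⟨j, l, e⟩ := h.mem
        refine ⟨j, l, ?_⟩
        show t = 2 ^ (m * j) * s + l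
        rwa [zero_add] at e
      orb' := by
        have h1 : s ∈ AA m t 0 := by
          rw [h.AA_t]; simpa using mem_AA m s 0
        obtain ⟨j, l, e⟩ := h1
        refine ⟨j, l, ?_⟩
        show s = 2 ^ (m * j) * t + l
        rwa [zero_add] at e
      avoid := by
        rintro i l ⟨h1, h2⟩
        exact h.nopt i _ (AA_shift (mem_AA m s i) l) h1 h2
      gap := hgap
      compat_w := by
        intro θ h1 h2
        refine ⟨h.compat θ h1 h2, ?_⟩
        have := compat_of_mem h.word.2.1 (h.compat θ h1 h2) h.mem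
        simpa using this
      compat_w' := by
        intro θ h1 h2 h3
        refine h.arc_of_compat hplat' (k₀ := k₀) ?_ ?_ h1 h2 h3
        · rw [hPx]; linarith
        · rw [hPx]; linarith
      compat_u_left := fun θ h1 h2 => h.compat_left h2 (hL θ h1)
      compat_u_right := fun θ h1 h2 => h.compat_right h2 (hR θ h1)
      trans := by
        intro θ h1 h2 β q' hβ hc
        obtain ⟨P', hcop', hnu'⟩ := nu_of_compat hβ h.word.2.1 hc
        have hnu := hplat' θ h1 h2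
        rw [hnu] at hnu'
        have hq'0 : 0 < q' := hβ.1
        have hqq : x.den = q' := by
          rw [div_eq_div_iff (by exact_mod_cast hq0.ne') (by exact_mod_cast hq'0.ne')] at hnu'
          have e : P * q' = P' * x.den := by exact_mod_cast hnu'
          have h3 : (x.den : ℤ) ∣ q' := by
            have : (x.den : ℤ) ∣ P * q' := ⟨P', by rw [e]; ring⟩
            exact (isCoprime_aux x k₀).symm.dvd_of_dvd_mul_left this
          have h4 : (q' : ℤ) ∣ x.den := by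
            have : (q' : ℤ) ∣ P' * x.den := ⟨P, by rw [← e]; ring⟩
            exact hcop'.symm.dvd_of_dvd_mul_left this
          exact Nat.dvd_antisymm (by exact_mod_cast h3) (by exact_mod_cast h4)
        subst hqq
        obtain ⟨j, l, e⟩ := h.unique hβ h1 h2 hc
        refine ⟨j, l, ?_⟩
        show s = 2 ^ (m * j) * β + l
        rwa [zero_add] at e }

end Sat

end Pool.Agent.Work.MLC
end

section
set_option autoImplicit false

/-! # Module K: arithmetic of the plateaus used for the barriers (helper15) -/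

namespace Pool.Agent.Work.MLC.PriK

open Set Filter Topology

/-- `[s, t]` is the plateau `nu v d = κ + y` -/
structure Plat (d : ℕ) (v : ℕ → ℤ) (κ : ℤ) (y : ℚ) (s t : ℝ) : Prop where
  lt : s < t
  lt' : t < s + 1
  len : 1 ≤ (2 ^ (d * y.den) - 1) * (t - s)
  per_s : ∃ a : ℤ, (2 : ℝ) ^ (d * y.den) * s - s = a
  per_t : ∃ a : ℤ, (2 : ℝ) ^ (d * y.den) * t - t = a
  iff : ∀ θ, Circ.nu v d θ = κ + y ↔ s ≤ θ ∧ θ ≤ t

/-- **(K1)** every rational rotation number in `(κ, κ + 1)` has a plateau -/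
theorem exists_plat {d : ℕ} (hd : 0 < d) {v : ℕ → ℤ} (hv : Word d v) (κ : ℤ) {y : ℚ} (h0 : 0 < y)
    (h1 : y < 1) : ∃ s t : ℝ, Plat d v κ y s t := by
  have hq := two_le_den h0 h1
  obtain ⟨i₀, hi₀, s, t, h, hplat⟩ := exists_arc hd hq hv (isCoprime_aux y κ)
  have hper_s := h.per_s
  have hper_t := h.per_t
  refine ⟨s, t, h.lt, h.lt', ?_, hper_s, hper_t, fun θ => ?_⟩
  · obtain ⟨a, ha⟩ := hper_s
    obtain ⟨b, hb⟩ := hper_t
    have e : (2 ^ (d * y.den) - 1) * (t - s) = ((b - a : ℤ) : ℝ) := by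
      push_cast; linarith
    have hpos : 0 < (2 ^ (d * y.den) - 1 : ℝ) * (t - s) := by
      have h2 : 0 < d * y.den := Nat.mul_pos hd (by omega)
      have h3 : (1 : ℝ) < 2 ^ (d * y.den) := one_lt_pow₀ (by norm_num) h2.ne'
      have h4 := h.lt
      exact mul_pos (by linarith) (by linarith)
    rw [e] at hpos ⊢
    have h5 : 0 < b - a := by exact_mod_cast hpos
    exact_mod_cast h5
  · rw [← hplat θ, Circ.nu_shift_word v d hv.2.1, cast_aux]

namespace Plat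

variable {d : ℕ} {v : ℕ → ℤ} {κ : ℤ} {y : ℚ} {s t : ℝ}

theorem nu_s (h : Plat d v κ y s t) : Circ.nu v d s = κ + y := (h.iff s).2 ⟨le_rfl, h.lt.le⟩

theorem lt_iff (h : Plat d v κ y s t) (θ : ℝ) : Circ.nu v d θ < κ + y ↔ θ < s := by
  constructor
  · intro h1
    by_contra hcon
    push Not at hcon
    have := Circ.nu_mono v d hcon
    rw [h.nu_s] at this
    linarith
  · intro h1
    refine lt_of_le_of_ne ?_ fun he => ?_
    · rw [← h.nu_s]; exact Circ.nu_mono v d h1.le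
    · exact absurd ((h.iff θ).1 he).1 (not_le.2 h1)

end Plat

/-- a point of the plateau, for rationals: strict monotonicity -/
theorem lt_of_nu_lt {v : ℕ → ℤ} {d : ℕ} {θ θ' : ℝ} (h : Circ.nu v d θ < Circ.nu v d θ') : θ < θ' := by
  by_contra hcon
  push Not at hcon
  exact absurd (Circ.nu_mono v d hcon) (not_le.2 h)

/-- the data of a barrier: `θ₁ < θ₂` have rotation numbers `κ + x₁ < κ + x < κ + x₂`, at distance
between `ε` and `ε'` from `κ + x` -/
structure Cut (d : ℕ) (v : ℕ → ℤ) (κ : ℤ) (x x₁ x₂ θ₁ θ₂ ε ε' : ℝ) : Prop where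
  nu₁ : Circ.nu v d θ₁ = κ + x₁
  nu₂ : Circ.nu v d θ₂ = κ + x₂
  le₁ : ε ≤ x - x₁
  le₂ : ε ≤ x₂ - x
  lt₁ : x - x₁ < ε'
  lt₂ : x₂ - x < ε'
  pos : 0 < ε

namespace Cut

variable {d : ℕ} {v : ℕ → ℤ} {κ : ℤ} {x x₁ x₂ θ₁ θ₂ ε ε' : ℝ}

theorem lt (h : Cut d v κ x x₁ x₂ θ₁ θ₂ ε ε') : θ₁ < θ₂ := by
  refine lt_of_nu_lt (v := v) (d := d) ?_
  rw [h.nu₁, h.nu₂]
  linarith [h.le₁, h.le₂, h.pos]

/-- on the interval the rotation number is near `κ + x` -/
theorem near (h : Cut d v κ x x₁ x₂ θ₁ θ₂ ε ε') {θ : ℝ} (h1 : θ₁ ≤ θ) (h2 : θ ≤ θ₂) :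
    |Circ.nu v d θ - (κ + x)| < ε' := by
  have h3 := Circ.nu_mono v d h1
  have h4 := Circ.nu_mono v d h2
  rw [h.nu₁] at h3
  rw [h.nu₂] at h4
  rw [abs_lt]
  constructor <;> linarith [h.lt₁, h.lt₂]

end Cut

/-! ### periodic angles -/

end Pool.Agent.Work.MLC.PriK
end

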