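import Pool.Agent.Work.MLCM.C34
import Pool.Agent.Work.MLCM.C38
import Pool.Agent.Work.MLCM.C39
import Pool.Agent.Work.MLCM.C40
import Pool.Agent.Work.MLCM.C46

section
set_option autoImplicit false

/-! # Module S0: the data of the parent (helper39) -/

namespace Pool.Agent.Work.MLC

open Filter Topology Metric Set Complex

namespace Sat

/-- a fixed point of `f^d` is a fixed point of `f^(d k)` -/
lemma it_mul_fix {c z : ℂ} {d : ℕ} (h : it c d z = z) (k : ℕ) : it c (d * k) z = z := by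
  have := it_mul_per h 0 k
  simpa using this

/-- the fixed points of `f^e` and `f^m` are fixed points of `f^(gcd e m)` -/
lemma it_gcd_fix {c z : ℂ} {e m : ℕ} (h1 : it c e z = z) (h2 : it c m z = z) :
    it c (Nat.gcd e m) z = z := by
  have h3 : Function.IsPeriodicPt (f c) e z := h1
  have h4 : Function.IsPeriodicPt (f c) m z := h2
  exact h3.gcd h4

/-- `mul (g k) = (mul g) ^ k` at the fixed points of `f^g` -/
lemma mul_mul_fix {g : ℕ} {x : ℂ × ℂ} (h : x ∈ Per g) (k : ℕ) : mul (g * k) x = mul g x ^ k := by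
  obtain ⟨c, z⟩ := x
  induction k with
  | zero => simp [mul]
  | succ k ih =>
    have h1 : mul (g * (k + 1)) (c, z) = mul (g * k) (c, z) * mul g (c, z) := by
      unfold mul
      rw [Nat.mul_succ, Finset.prod_range_add]
      congr 1
      refine Finset.prod_congr rfl fun i _ => ?_
      have h2 : it c (i + g * k) z = it c i z := it_mul_per h i k
      have h3 : g * k + i = i + g * k := add_comm _ _
      simp only [h3, h2]
    rw [h1, ih, pow_succ]

/-- being fixed by a divisor of the period is an open condition at multipliers `≠ 1` -/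
lemma fix_nhds {g m : ℕ} {x : ℂ × ℂ} (hg : g ∣ m) (hx : x ∈ Per g) (hm : mul m x ≠ 1) :
    ∀ᶠ y in 𝓝 x, y ∈ Per m → y ∈ Per g := by
  obtain ⟨k, rfl⟩ := hg
  have hxm : x ∈ Per (g * k) := it_mul_fix (c := x.1) (z := x.2) hx k
  have hg1 : mul g x ≠ 1 := by
    intro h
    rw [mul_mul_fix hx, h, one_pow] at hm
    exact hm rfl
  obtain ⟨β, hβ, hβ0, hβe⟩ := chart hx hg1
  obtain ⟨γ, hγ, hγ0, hγe⟩ := chart hxm hm
  have h1 : ∀ᶠ c in 𝓝 x.1, ((c, β c) : ℂ × ℂ) ∈ Per g ∧ γ c = β c := by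
    have h2 := (chart_tendsto hβ hβ0).eventually (hβe.and hγe)
    filter_upwards [h2] with c hc
    have h3 : ((c, β c) : ℂ × ℂ) ∈ Per g := hc.1.2 rfl
    have h4 : ((c, β c) : ℂ × ℂ) ∈ Per (g * k) := it_mul_fix (c := c) (z := β c) h3 k
    exact ⟨h3, hc.2.1 h4⟩
  have h5 : ∀ᶠ y : ℂ × ℂ in 𝓝 x, ((y.1, β y.1) : ℂ × ℂ) ∈ Per g ∧ γ y.1 = β y.1 :=
    (continuous_fst.tendsto x).eventually h1
  filter_upwards [h5, hγe] with y h6 h7 hy
  have h8 : y = (y.1, β y.1) := by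
    ext
    · rfl
    · simp only [← h6.2]; exact (h7.1 hy).symm
  rw [h8]
  exact h6.1

/-- the exact period is constant along a section -/
lemma prim_section {m : ℕ} {B : Set ℂ} (hB : IsPreconnected B) (hBo : IsOpen B)
    (hne : ∀ L ∈ B, exp L ≠ 1) {σ : ℂ → ℂ × ℂ} (hσ : ContinuousOn σ B)
    (hσ' : ∀ L ∈ B, σ L ∈ Per m ∧ mul m (σ L) = exp L) {a : ℂ} (ha : a ∈ B)
    (hprim : ∀ d, 0 < d → d < m → it (σ a).1 d (σ a).2 ≠ (σ a).2) :
    ∀ L ∈ B, ∀ d, 0 < d → d < m → it (σ L).1 d (σ L).2 ≠ (σ L).2 := by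
  intro L₁ hL₁ d hd hdm hfix
  set g := Nat.gcd d m with hg
  have hg0 : 0 < g := Nat.gcd_pos_of_pos_left _ hd
  have hgm : g < m := lt_of_le_of_lt (Nat.gcd_le_left _ hd) hdm
  have hgd : g ∣ m := Nat.gcd_dvd_right _ _
  have h1 : σ L₁ ∈ Per g := it_gcd_fix hfix (hσ' L₁ hL₁).1
  have key := hB.subset_left_of_subset_union (u := {L | L ∈ B ∧ σ L ∈ Per g})
    (v := {L | L ∈ B ∧ σ L ∉ Per g}) ?_ ?_ ?_ ?_ ⟨L₁, hL₁, hL₁, h1⟩
  · exact hprim g hg0 hgm (key ha).2
  · rw [isOpen_iff_mem_nhds]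
    rintro L ⟨h2, h3⟩
    have hc : ContinuousAt σ L := hσ.continuousAt (hBo.mem_nhds h2)
    have h4 := fix_nhds hgd h3 (by rw [(hσ' L h2).2]; exact hne L h2)
    filter_upwards [hc.eventually h4, hBo.mem_nhds h2] with L' h5 h6
    exact ⟨h6, h5 (hσ' L' h6).1⟩
  · rw [isOpen_iff_mem_nhds]
    rintro L ⟨h2, h3⟩
    have hc : ContinuousAt σ L := hσ.continuousAt (hBo.mem_nhds h2)
    have h4 : (Per g)ᶜ ∈ 𝓝 (σ L) := (isClosed_Per g).isOpen_compl.mem_nhds h3
    filter_upwards [hc.eventually h4, hBo.mem_nhds h2] with L' h5 h6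
    exact ⟨h6, h5⟩
  · rw [Set.disjoint_left]
    rintro L ⟨-, h2⟩ ⟨-, h3⟩
    exact h3 h2
  · intro L hL
    by_cases h : σ L ∈ Per g
    · exact Or.inl ⟨hL, h⟩
    · exact Or.inr ⟨hL, h⟩

/-- outside the integer discs a ray of return period at least two lands -/
lemma exists_land_two {n : ℕ} (hn : 0 < n) {c b : ℂ} (hc : G c 0 = 0) (hb : it c n b = b)
    (hρ : 1 < ‖mult n c b‖) (hI : NoInt n (c, b)) : ∃ β q, 2 ≤ q ∧ Land n c b β q := by
  have hlin := lin_Lz hn hb hρ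
  have hm0 := repelling_ne_zero hρ
  have hL : exp (Complex.log (mult n c b)) = mult n c b := Complex.exp_log hm0
  obtain ⟨β, q, p, hq, hland, -, -, hply⟩ := Tr.exists_land_rot hlin hc hL
  set L := Complex.log (mult n c b) with hLdef
  have hre : 0 < L.re := by
    rw [hLdef, Complex.log_re]; exact Real.log_pos hρ
  refine ⟨β, q, ?_, hland⟩
  by_contra hcon
  have hq1 : q = 1 := by omega
  subst hq1
  have h1 := hI L hL p
  have h2 : (2 * Real.pi * ((p : ℂ) / ((1 : ℕ) : ℂ)) * I) = 2 * Real.pi * p * I := by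
    simp
  rw [h2] at hply
  have h3 : 2 * (n : ℝ) * Real.log 2 / ((1 : ℕ) : ℝ) * L.re ≤ 81 * n * L.re := by
    have h4 : Real.log 2 < 1 := by
      have := Real.log_two_lt_d9; linarith
    have h5 : (0 : ℝ) < n := by exact_mod_cast hn
    have h6 : 2 * (n : ℝ) * Real.log 2 / ((1 : ℕ) : ℝ) = 2 * n * Real.log 2 := by simp
    rw [h6]
    have h7 : 2 * (n : ℝ) * Real.log 2 ≤ 81 * n := by nlinarith
    exact mul_le_mul_of_nonneg_right h7 hre.le
  linarith

lemma axisPt_eq (x : ℚ) : axisPt x = 2 * Real.pi * ((x : ℝ) : ℂ) * I := by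
  unfold axisPt
  push_cast
  ring

/-- there are exterior parameters over the right half of the good disc -/
lemma exists_exterior {m : ℕ} {x : ℚ} (hm : 0 < m) (h0 : 0 < x) (h1 : x < 1) {σ : ℂ → ℂ × ℂ}
    (hσ : ContinuousOn σ (ball (axisPt x) (gR m x)))
    (hσ' : ∀ L ∈ ball (axisPt x) (gR m x), σ L ∈ Per m ∧ mul m (σ L) = exp L) :
    ∃ L ∈ ball (axisPt x) (gR m x), 0 < L.re ∧ 0 < G (σ L).1 (σ L).1 := by
  have hR : 0 < gR m x := by
    have hm' : (0 : ℝ) < m := by exact_mod_cast hm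
    have hx0 : (0 : ℝ) < x := by exact_mod_cast h0
    have hx1 : (x : ℝ) < 1 := by exact_mod_cast h1
    have : 0 < min (x : ℝ) (1 - x) := lt_min hx0 (by linarith)
    unfold gR; positivity
  have ha : axisPt x ∈ ball (axisPt x) (gR m x) := mem_ball_self hR
  have hG : GoodDom m (ball (axisPt x) (gR m x)) := goodDom34 hm h0 h1
  have hx0 : (0 : ℝ) < x := by exact_mod_cast h0
  have hx1 : (x : ℝ) < 1 := by exact_mod_cast h1
  obtain ⟨-, -, h3⟩ := s3_neutral m (σ (axisPt x)) x hm (hσ' _ ha).1 hx0 hx1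
    (by rw [(hσ' _ ha).2, axisPt_eq])
  have hmap := (section_strict hG hσ hσ' ha).map_nhds_eq (section_deriv_ne_zero hG hσ hσ' ha)
  have h4 : ∃ᶠ L in 𝓝 (axisPt x), (σ L).1 ∉ MM := by
    rw [← hmap] at h3
    exact frequently_map.1 h3
  obtain ⟨L, h5, h6⟩ := (h4.and_eventually (isOpen_ball.mem_nhds ha)).exists
  have h7 : 0 < G (σ L).1 (σ L).1 := not_mem_MM_iff.1 h5
  exact ⟨L, h6, Pool.Agent.Work.MLC.re_pos_of_ext hm (hσ' L h6).1 (hσ' L h6).2 h7, h7⟩

/-- **the parent data**, from the section and the lift of the angle -/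
theorem par_of (D : Dat) (hm : 0 < D.m) (h0 : 0 < D.x) (h1 : D.x < 1)
    (cont : ContinuousOn D.σ D.B) (sec : ∀ L ∈ D.B, D.σ L ∈ Per D.m ∧ mul D.m (D.σ L) = exp L)
    (prim : ∀ L ∈ D.B, ∀ d, 0 < d → d < D.m → it (D.c L) d (D.b L) ≠ D.b L)
    (bits : Bits D.m D.w) (ang : ∀ L ∈ D.B, D.c L ∉ MM → ∃ θ, D.Th L θ) : D.Par := by
  have hgB := goodB_ball hm h0 h1
  set B' : Set ℂ := ball (axisPt D.x) (1 / 4 * (min (D.x : ℝ) (1 - D.x)) ^ 2 / D.m) ∩
    {L : ℂ | 0 < L.re} with hB'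
  have hBB : B' ⊆ D.B := fun L hL => hL.1
  obtain ⟨L₁, hL₁, hL₁re, hL₁G⟩ := exists_exterior hm h0 h1 cont sec
  have hL₁' : L₁ ∈ B' := ⟨hL₁, hL₁re⟩
  obtain ⟨θ₁, hθ₁⟩ := ang L₁ hL₁ (not_mem_MM_iff.2 hL₁G)
  have hm' : (1 : ℝ) ≤ D.m := by exact_mod_cast hm
  have hx0 : (0 : ℝ) < D.x := by exact_mod_cast h0
  have hx1 : (D.x : ℝ) < 1 := by exact_mod_cast h1
  refine ⟨hm, h0, h1, cont, sec, prim, bits, ?_, ang, ?_, ?_⟩
  · -- the word is primitive
    intro d hd hdm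
    by_contra hcon
    push Not at hcon
    have h2 : ExtP D.m (D.c L₁) (it (D.c L₁) d (D.b L₁)) θ₁ D.w := by
      obtain ⟨a1, a2, a3, a4, a5⟩ := hθ₁.1
      refine ⟨a1, a2, ?_, a4, fun i => ?_⟩
      · rw [it_comp, add_comm, ← it_comp, a3]
      · rw [it_comp, ← hcon i]
        exact a5 (i + d)
    exact prim L₁ hL₁ d hd hdm (extP_inj hm hθ₁.1 h2).symm
  · -- the inequality
    intro L hL θ hT
    obtain ⟨hE, hk1, hk2⟩ := hT
    have hre : 0 < L.re := Pool.Agent.Work.MLC.re_pos_of_ext hm (sec L hL).1 (sec L hL).2 hE.1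
    have hlt : ‖mul D.m (D.σ L)‖ < 23 / 10 := by
      rw [(sec L hL).2]
      exact hgB.lt L ⟨hL, hre⟩
    have hG4 : G (D.c L) (D.c L) ≤ 4 := G_le_four_of_mul_lt hm hE.2.2.1 hlt
    obtain ⟨-, ℓ, hℓ, hply⟩ := extP_ply hm hE hG4
    have h2 : exp ℓ = exp L := by rw [hℓ, ← (sec L hL).2]; rfl
    rw [Complex.exp_eq_exp_iff_exists_int] at h2
    obtain ⟨j, hj⟩ := h2
    have hℓre : ℓ.re = L.re := by rw [hj]; simp
    set ν := Circ.nu D.w D.m θ with hν
    have h3 : ℓ - 2 * Real.pi * (ν : ℝ) * I = L - 2 * Real.pi * ((ν - j : ℝ) : ℂ) * I := by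
      rw [hj]; push_cast; ring
    rw [h3, hℓre] at hply
    -- `j = k₀`
    have hjk : j = D.k₀ := by
      set μ : ℝ := min (D.x : ℝ) (1 - D.x) with hμ
      have hμ0 : 0 < μ := lt_min hx0 (by linarith)
      have hμx : μ ≤ D.x := min_le_left _ _
      have hμx' : μ ≤ 1 - D.x := min_le_right _ _
      have hR : gR D.m D.x = 1 / 4 * μ ^ 2 / D.m := rfl
      have hL' : ‖L - axisPt D.x‖ < gR D.m D.x := by
        have := hL
        rw [Dat.B, mem_ball, dist_eq] at this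
        exact this
      have hRm : gR D.m D.x * D.m = 1 / 4 * μ ^ 2 := by rw [hR]; field_simp
      have hR0 : 0 < gR D.m D.x := by rw [hR]; positivity
      have hR8 : gR D.m D.x ≤ μ / 8 := by
        rw [hR, div_le_iff₀ (by linarith)]
        nlinarith
      have hreR : L.re < gR D.m D.x := by
        have h4 := (abs_re_le_norm (L - axisPt D.x)).trans_lt hL'
        have h5 : (L - axisPt D.x).re = L.re := by simp [axisPt]
        rw [h5] at h4
        exact (le_abs_self _).trans_lt h4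
      have h6 : ‖L - 2 * Real.pi * ((ν - j : ℝ) : ℂ) * I‖ ^ 2 ≤ (9 / 2 * μ) ^ 2 := by
        refine hply.trans ?_
        have : 81 * (D.m : ℝ) * L.re ≤ 81 * (gR D.m D.x * D.m) := by nlinarith
        rw [hRm] at this
        nlinarith
      have h7 : ‖L - 2 * Real.pi * ((ν - j : ℝ) : ℂ) * I‖ ≤ 9 / 2 * μ :=
        abs_le_of_sq_le_sq' h6 (by positivity) |>.2
      have h8 : ‖axisPt D.x - 2 * Real.pi * ((ν - j : ℝ) : ℂ) * I‖ ≤ 9 / 2 * μ + μ / 8 := by
        have h9 : axisPt D.x - 2 * Real.pi * ((ν - j : ℝ) : ℂ) * I =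
            (L - 2 * Real.pi * ((ν - j : ℝ) : ℂ) * I) - (L - axisPt D.x) := by ring
        rw [h9]
        exact (norm_sub_le _ _).trans (by linarith)
      have h10 : axisPt D.x - 2 * Real.pi * ((ν - j : ℝ) : ℂ) * I =
          ((2 * Real.pi * (D.x - (ν - j)) : ℝ) : ℂ) * I := by
        rw [axisPt_eq]; push_cast; ring
      rw [h10, norm_mul, norm_I, mul_one, norm_real, Real.norm_eq_abs, abs_mul,
        abs_of_pos (by positivity : (0 : ℝ) < 2 * Real.pi)] at h8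
      have hpi : (3.14 : ℝ) < Real.pi := Real.pi_gt_d2
      have h11 : |(D.x : ℝ) - (ν - j)| < μ := by
        by_contra hcon
        push Not at hcon
        nlinarith
      rw [abs_lt] at h11
      have h12 : (j : ℝ) < ν := by linarith
      have h13 : ν < j + 1 := by linarith
      have h14 : (j : ℝ) < D.k₀ + 1 := by linarith
      have h15 : (D.k₀ : ℝ) < j + 1 := by linarith
      have h16 : j < D.k₀ + 1 := by exact_mod_cast h14
      have h17 : D.k₀ < j + 1 := by exact_mod_cast h15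
      omega
    rw [hjk] at hply
    exact hply
  · -- the label
    intro L hL hre
    have hL' : L ∈ B' := ⟨hL, hre⟩
    have hlt : ‖mul D.m (D.σ L)‖ < 23 / 10 := by
      rw [(sec L hL).2]
      exact hgB.lt L hL'
    have hNI : NoInt D.m (D.σ L) := hgB.noInt' hL' (sec L hL).2
    have hrep : 1 < ‖mult D.m (D.σ L).1 (D.σ L).2‖ := by
      have h2 : mult D.m (D.σ L).1 (D.σ L).2 = mul D.m (D.σ L) := rfl
      rw [h2, (sec L hL).2, norm_exp]
      exact Real.one_lt_exp_iff.2 hre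
    refine ⟨⟨fun hG => ?_, fun θ w' hE k => nu_ne_int_ext hm hlt hNI hE k⟩, fun θ hθ1 hθ2 => ?_⟩
    · exact exists_land_two hm hG (sec L hL).1 hrep hNI
    · have hc := FF_const_section hm hgB (cont.mono hBB) (fun L hL => sec L (hBB hL)) hL' hL₁'
      rw [hc, FF_ext (x := D.σ L₁) hθ₁.1]
      refine lab_of_strip bits fun θ'' hθ'' k hk => ?_
      obtain ⟨-, hb1, hb2⟩ := hθ₁
      have h4 : (D.k₀ : ℝ) < Circ.nu D.w D.m θ'' ∧ Circ.nu D.w D.m θ'' < D.k₀ + 1 := by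
        rcases le_total θ θ₁ with h5 | h5
        · rw [uIcc_of_le h5] at hθ''
          exact ⟨hθ1.trans_le (Circ.nu_mono D.w D.m hθ''.1),
            (Circ.nu_mono D.w D.m hθ''.2).trans_lt hb2⟩
        · rw [uIcc_of_ge h5] at hθ''
          exact ⟨hb1.trans_le (Circ.nu_mono D.w D.m hθ''.1),
            (Circ.nu_mono D.w D.m hθ''.2).trans_lt hθ2⟩
      rw [hk] at h4
      have h6 : D.k₀ < k := by exact_mod_cast h4.1
      have h7 : k < D.k₀ + 1 := by exact_mod_cast h4.2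
      omega

/-- **S0** -/
theorem s0_parent : S0_parent := by
  intro m x r₀ b₀ hm h0 h1 hP hprim hmul
  have hR : 0 < gR m x := by
    have hm' : (0 : ℝ) < m := by exact_mod_cast hm
    have hx0 : (0 : ℝ) < x := by exact_mod_cast h0
    have hx1 : (x : ℝ) < 1 := by exact_mod_cast h1
    have : 0 < min (x : ℝ) (1 - x) := lt_min hx0 (by linarith)
    unfold gR; positivity
  have ha : axisPt x ∈ ball (axisPt x) (gR m x) := mem_ball_self hR
  have hG : GoodDom m (ball (axisPt x) (gR m x)) := goodDom34 hm h0 h1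
  obtain ⟨σ, hσ, hσ', hσ0⟩ := exists_section hG (convex_ball _ _) hP ha hmul
  have hgB := goodB_ball hm h0 h1
  have hBB : (ball (axisPt x) (1 / 4 * (min (x : ℝ) (1 - x)) ^ 2 / m) ∩ {L : ℂ | 0 < L.re}) ⊆
      ball (axisPt x) (gR m x) := fun L hL => hL.1
  obtain ⟨w, k, hw, -, hwk⟩ := exists_word_section hm hgB (hσ.mono hBB)
    (fun L hL => hσ' L (hBB hL))
  have hpr : ∀ d, 0 < d → d < m → it (σ (axisPt x)).1 d (σ (axisPt x)).2 ≠ (σ (axisPt x)).2 := by
    rw [hσ0]; exact hprim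
  refine ⟨⟨m, x, σ, w, k, w, 0, 0, 0⟩, rfl, rfl, hσ0, ?_⟩
  refine par_of _ hm h0 h1 hσ hσ' ?_ hw ?_
  · exact prim_section (convex_ball _ _).isPreconnected isOpen_ball hG.ne_one hσ hσ' ha hpr
  · intro L hL hM
    have h2 : 0 < G (σ L).1 (σ L).1 := not_mem_MM_iff.1 hM
    have h3 := Pool.Agent.Work.MLC.re_pos_of_ext hm (hσ' L hL).1 (hσ' L hL).2 h2
    exact hwk L ⟨hL, h3⟩ h2

/-- **S0'** -/
theorem s0_shift : S0_shift := by
  intro D i₀ u k tm tp hP
  refine par_of _ hP.m_pos hP.x_pos hP.x_lt ?_ ?_ ?_ ?_ ?_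
  · have h1 : Continuous fun p : ℂ × ℂ => (p.1, it p.1 i₀ p.2) :=
      continuous_fst.prodMk (continuous_it i₀)
    exact h1.comp_continuousOn hP.cont
  · intro L hL
    obtain ⟨h1, h2⟩ := hP.sec L hL
    refine ⟨Per_it (c := (D.σ L).1) (z := (D.σ L).2) h1 i₀, ?_⟩
    have h3 := mul_it' (c := (D.σ L).1) (z := (D.σ L).2) h1 i₀
    exact h3.trans h2
  · intro L hL d hd hdm hfix
    have hj := it_back hP.m_pos (c := (D.σ L).1) (z := (D.σ L).2) (hP.sec L hL).1 i₀
    set j := D.m * i₀ - i₀ with hjdef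
    refine hP.prim L hL d hd hdm ?_
    have h1 : it (D.c L) j (it (D.c L) d (it (D.c L) i₀ (D.b L))) = D.b L := by
      have h2 : it (D.c L) d (it (D.c L) i₀ (D.b L)) = it (D.c L) i₀ (D.b L) := hfix
      rw [h2]; exact hj
    rw [it_comp, it_comp] at h1
    have h3 : it (D.c L) (j + d + i₀) (D.b L) = it (D.c L) (d + (j + i₀)) (D.b L) := by
      congr 1; omega
    rw [h3, ← it_comp, ← it_comp _ _ j i₀] at h1
    have h4 : it (D.c L) j (it (D.c L) i₀ (D.b L)) = D.b L := hj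
    rwa [h4] at h1
  · refine ⟨fun i => hP.bits.bit _, fun i => ?_⟩
    change D.w (i + D.m + i₀) = D.w (i + i₀)
    have h1 := hP.bits.per (i + i₀)
    have h2 : i + D.m + i₀ = i + i₀ + D.m := by omega
    rw [h2]; exact h1
  · intro L hL hM
    obtain ⟨θ, ⟨a1, a2, a3, a4, a5⟩, h2, h3⟩ := hP.ang L hL hM
    have hrot : Circ.nu (fun i => D.w (i + i₀)) D.m θ = Circ.nu D.w D.m θ := by
      have := Circ.nu_shift_word D.w D.m hP.bits.per θ i₀
      rw [← this]
      congr 1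
      funext j
      rw [add_comm]
    refine ⟨θ, ⟨a1, a2, ?_, ?_, fun i => ?_⟩, ?_, ?_⟩
    · exact Per_it (c := (D.σ L).1) (z := (D.σ L).2) a3 i₀
    · refine ⟨fun i => hP.bits.bit _, fun i => ?_⟩
      change D.w (i + D.m + i₀) = D.w (i + i₀)
      have h1 := hP.bits.per (i + i₀)
      have h2 : i + D.m + i₀ = i + i₀ + D.m := by omega
      rw [h2]; exact h1
    · have h5 := a5 (i + i₀)
      rw [← it_comp] at h5
      exact h5
    · change (D.k₀ : ℝ) < Circ.nu (fun i => D.w (i + i₀)) D.m θ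
      rw [hrot]; exact h2
    · change Circ.nu (fun i => D.w (i + i₀)) D.m θ < D.k₀ + 1
      rw [hrot]; exact h3

end Sat

end Pool.Agent.Work.MLC
end

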