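import Pool.Agent.Work.MLCM.C46
import Pool.Agent.Work.MLCM.C48
import Pool.Agent.Work.MLCM.C49

section
set_option autoImplicit false

/-! # The wide domain and its sections (helper45)

`D0 n` is the strip `0 < Im L < 2 π`, cut on the right by the graph of
`hgt n y = min (y, 2 π - y) ^ 2 / (100 n)`. It contains all good discs about `2 π i x`,
`0 < x < 1`, and the open strip `Re L < 0`. It is contractible, so through every point of the
curve over it there is a section of the multiplier. The structure `Wide` records what is known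
about such a section. -/

namespace Pool.Agent.Work.MLC

open Filter Topology Metric Set Complex

namespace Pri

/-- height of the wide domain -/
noncomputable def hgt (n : ℕ) (y : ℝ) : ℝ := (min y (2 * Real.pi - y)) ^ 2 / (100 * n)

/-- the wide domain: the part of the strip `0 < Im L < 2 π` to the left of the graph of `hgt` -/
def D0 (n : ℕ) : Set ℂ := {L | 0 < L.im ∧ L.im < 2 * Real.pi ∧ L.re < hgt n L.im}

/-- its right part -/
def RB (n : ℕ) : Set ℂ := {L | L ∈ D0 n ∧ 0 < L.re}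

lemma continuous_hgt (n : ℕ) : Continuous (hgt n) := by
  unfold hgt
  exact ((continuous_id.min (continuous_const.sub continuous_id)).pow 2).div_const _

lemma hgt_nonneg (n : ℕ) (y : ℝ) : 0 ≤ hgt n y := by unfold hgt; positivity

lemma isOpen_D0 (n : ℕ) : IsOpen (D0 n) := by
  have h1 : IsOpen {L : ℂ | 0 < L.im} := isOpen_lt continuous_const continuous_im
  have h2 : IsOpen {L : ℂ | L.im < 2 * Real.pi} := isOpen_lt continuous_im continuous_const
  have h3 : IsOpen {L : ℂ | L.re < hgt n L.im} :=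
    isOpen_lt continuous_re ((continuous_hgt n).comp continuous_im)
  exact h1.inter (h2.inter h3)

lemma isOpen_RB (n : ℕ) : IsOpen (RB n) :=
  (isOpen_D0 n).inter (isOpen_lt continuous_const continuous_re)

lemma mu_pos {y : ℝ} (h0 : 0 < y) (h1 : y < 2 * Real.pi) : 0 < min y (2 * Real.pi - y) :=
  lt_min h0 (by linarith)

lemma mu_le {y : ℝ} (h0 : 0 < y) (h1 : y < 2 * Real.pi) (k : ℤ) :
    min y (2 * Real.pi - y) ≤ |y - 2 * Real.pi * k| := by
  have hpi := Real.pi_pos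
  rcases le_or_gt k 0 with hk | hk
  · have h2 : (k : ℝ) ≤ 0 := by exact_mod_cast hk
    have h3 : 2 * Real.pi * (k : ℝ) ≤ 0 := mul_nonpos_of_nonneg_of_nonpos (by positivity) h2
    exact (min_le_left _ _).trans ((by linarith : y ≤ y - 2 * Real.pi * k).trans (le_abs_self _))
  · have h2 : (1 : ℝ) ≤ k := by exact_mod_cast hk
    have h3 : 2 * Real.pi ≤ 2 * Real.pi * (k : ℝ) := by nlinarith
    refine (min_le_right _ _).trans ((?_ : 2 * Real.pi - y ≤ -(y - 2 * Real.pi * k)).trans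
      (neg_le_abs _))
    linarith

lemma mu_le_norm {L : ℂ} (h0 : 0 < L.im) (h1 : L.im < 2 * Real.pi) (k : ℤ) :
    min L.im (2 * Real.pi - L.im) ≤ ‖L - 2 * Real.pi * k * I‖ := by
  have h2 := abs_im_le_norm (L - 2 * Real.pi * k * I)
  have h3 : (L - 2 * Real.pi * k * I).im = L.im - 2 * Real.pi * k := by simp
  rw [h3] at h2
  exact (mu_le h0 h1 k).trans h2

lemma far_D0 {n : ℕ} (hn : 0 < n) {L : ℂ} (hL : L ∈ D0 n) (k : ℤ) :
    81 * n * L.re < ‖L - 2 * Real.pi * k * I‖ ^ 2 := by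
  obtain ⟨h0, h1, h2⟩ := hL
  have hn' : (0 : ℝ) < n := by exact_mod_cast hn
  have hμ := mu_pos h0 h1
  have h3 := mu_le_norm h0 h1 k
  unfold hgt at h2
  set μ := min L.im (2 * Real.pi - L.im)
  rw [lt_div_iff₀ (by positivity)] at h2
  have h4 : μ ^ 2 ≤ ‖L - 2 * Real.pi * k * I‖ ^ 2 := by gcongr
  nlinarith [sq_nonneg μ, pow_pos hμ 2]

lemma re_lt_D0 {n : ℕ} (hn : 0 < n) {L : ℂ} (hL : L ∈ D0 n) : L.re < 1 / 4 := by
  obtain ⟨h0, h1, h2⟩ := hL
  have hn' : (1 : ℝ) ≤ n := by exact_mod_cast hn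
  have hμ := mu_pos h0 h1
  have h3 : min L.im (2 * Real.pi - L.im) ≤ Real.pi := by
    rcases le_total L.im Real.pi with h | h
    · exact (min_le_left _ _).trans h
    · exact (min_le_right _ _).trans (by linarith)
  have hpi : Real.pi < 3.15 := Real.pi_lt_d2
  unfold hgt at h2
  set μ := min L.im (2 * Real.pi - L.im)
  rw [lt_div_iff₀ (by positivity)] at h2
  have h4 : μ ^ 2 ≤ 3.15 ^ 2 := by
    have : μ ≤ 3.15 := by linarith
    gcongr
  by_contra hcon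
  push Not at hcon
  nlinarith

lemma ne_one_D0 {n : ℕ} {L : ℂ} (hL : L ∈ D0 n) : exp L ≠ 1 := by
  intro h
  rw [exp_eq_one_iff] at h
  obtain ⟨k, hk⟩ := h
  have h2 := mu_le_norm hL.1 hL.2.1 k
  have h3 := mu_pos hL.1 hL.2.1
  have h4 : L - 2 * Real.pi * k * I = 0 := by rw [hk]; ring
  rw [h4, norm_zero] at h2
  linarith

lemma lt_D0 {n : ℕ} (hn : 0 < n) {L : ℂ} (hL : L ∈ D0 n) : ‖exp L‖ < 23 / 10 := by
  rw [norm_exp]
  have h3 : Real.exp L.re < Real.exp (1 / 4) := Real.exp_lt_exp.2 (re_lt_D0 hn hL)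
  have h4 : Real.exp (1 / 4) ≤ 23 / 10 := by
    have h5 : Real.exp (1 / 4) ≤ Real.exp (Real.log (23 / 10)) := by
      refine Real.exp_le_exp.2 ?_
      have := Real.one_sub_inv_le_log_of_pos (by norm_num : (0 : ℝ) < 23 / 10)
      norm_num at this ⊢
      linarith
    rwa [Real.exp_log (by norm_num)] at h5
  linarith

lemma isPreconnected_RB {n : ℕ} (hn : 0 < n) : IsPreconnected (RB n) := by
  have hn' : (0 : ℝ) < n := by exact_mod_cast hn
  have h1 : RB n = (fun p : ℝ × ℝ => ((p.1 * hgt n p.2 : ℝ) : ℂ) + p.2 * I) ''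
      (Ioo (0 : ℝ) 1 ×ˢ Ioo (0 : ℝ) (2 * Real.pi)) := by
    ext L
    constructor
    · rintro ⟨⟨h0, h1, h2⟩, h3⟩
      have h4 : 0 < hgt n L.im := h3.trans h2
      refine ⟨(L.re / hgt n L.im, L.im), ⟨⟨by positivity, ?_⟩, h0, h1⟩, ?_⟩
      · rw [div_lt_one h4]; exact h2
      · simp only
        rw [div_mul_cancel₀ _ h4.ne']
        exact re_add_im L
    · rintro ⟨⟨s, y⟩, ⟨⟨h0, h1⟩, h2, h3⟩, rfl⟩
      simp only at h0 h1 h2 h3
      have h4 : 0 < hgt n y := by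
        have := mu_pos h2 h3
        unfold hgt; positivity
      have h5 : (((s * hgt n y : ℝ) : ℂ) + y * I).im = y := by simp
      have h6 : (((s * hgt n y : ℝ) : ℂ) + y * I).re = s * hgt n y := by simp
      refine ⟨⟨?_, ?_, ?_⟩, ?_⟩
      · rw [h5]; exact h2
      · rw [h5]; exact h3
      · rw [h5, h6]; nlinarith
      · rw [h6]; positivity
  rw [h1]
  refine IsPreconnected.image ?_ _ ?_
  · exact ((convex_Ioo _ _).prod (convex_Ioo _ _)).isPreconnected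
  · have := continuous_hgt n
    fun_prop

/-- the right part of the wide domain is a good half domain -/
theorem goodB_RB {n : ℕ} (hn : 0 < n) : GoodB n (RB n) where
  isOpen := isOpen_RB n
  conn := isPreconnected_RB hn
  pos := fun _ hL => hL.2
  lt := fun _ hL => lt_D0 hn hL.1
  noInt := fun _ hL k => far_D0 hn hL.1 k

/-- the good discs are in the wide domain -/
lemma ball_subset_D0 {n : ℕ} (hn : 0 < n) {x : ℚ} (h0 : 0 < x) (h1 : x < 1) :
    ball (axisPt x) (Sat.gR n x) ⊆ D0 n := by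
  intro L hL
  have hn' : (1 : ℝ) ≤ n := by exact_mod_cast hn
  have hx0 : (0 : ℝ) < x := by exact_mod_cast h0
  have hx1 : (x : ℝ) < 1 := by exact_mod_cast h1
  unfold Sat.gR at hL
  set m : ℝ := min (x : ℝ) (1 - x) with hm
  have hm0 : 0 < m := lt_min hx0 (by linarith)
  have hmx : m ≤ x := min_le_left _ _
  have hmx' : m ≤ 1 - x := min_le_right _ _
  have hm2 : m ≤ 1 / 2 := by linarith
  set R : ℝ := 1 / 4 * m ^ 2 / n with hR
  have hRn : R * n = 1 / 4 * m ^ 2 := by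
    rw [hR]
    field_simp
  have hR0 : 0 < R := by positivity
  have hRm : R ≤ m / 8 := by
    rw [hR, div_le_iff₀ (by linarith)]
    nlinarith
  rw [mem_ball, dist_eq] at hL
  have hre : L.re < R := by
    have h2 := (abs_re_le_norm (L - axisPt x)).trans_lt hL
    have h3 : (L - axisPt x).re = L.re := by simp [axisPt]
    rw [h3] at h2
    exact (le_abs_self _).trans_lt h2
  have him : |L.im - 2 * Real.pi * x| < R := by
    have h2 := (abs_im_le_norm (L - axisPt x)).trans_lt hL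
    have h3 : (L - axisPt x).im = L.im - 2 * Real.pi * x := by simp [axisPt]
    rwa [h3] at h2
  have hpi : (3.14 : ℝ) < Real.pi := Real.pi_gt_d2
  rw [abs_lt] at him
  have h2 : 6 * m < L.im := by nlinarith
  have h3 : 6 * m < 2 * Real.pi - L.im := by nlinarith
  refine ⟨by linarith, by linarith, hre.trans ?_⟩
  unfold hgt
  rw [lt_div_iff₀ (by positivity)]
  have h4 : 6 * m ≤ min L.im (2 * Real.pi - L.im) := le_min h2.le h3.le
  have h5 : (6 * m) ^ 2 ≤ (min L.im (2 * Real.pi - L.im)) ^ 2 := by gcongr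
  nlinarith [pow_pos hm0 2]

/-- every label occurs over the right part -/
theorem hall_RB {n : ℕ} (hn : 0 < n) (j : Lab n) :
    ∃ z ∈ Per n, ∃ L ∈ RB n, mul n z = exp L ∧ FF n z = j := by
  obtain ⟨z, hz, L, hL, h1, h2⟩ := Sat.hall57 hn (x := 1 / 2) (by norm_num) (by norm_num) j
  exact ⟨z, hz, L, ⟨ball_subset_D0 hn (by norm_num) (by norm_num) hL.1, hL.2⟩, h1, h2⟩

/-- **the wide domain is a good domain** -/
theorem goodDom_D0 {n : ℕ} (hn : 0 < n) : GoodDom n (D0 n) := by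
  refine ⟨hn, isOpen_D0 n, fun L hL => ne_one_D0 hL, fun L hL => lt_D0 hn hL, ?_⟩
  intro z hz L hL hm
  rcases le_or_gt L.re 0 with h2 | h2
  · refine locInj_of_le hn hz ?_ ?_ ?_
    · rw [hm]
      exact ne_one_D0 hL
    · rw [hm]
      exact exp_ne_zero L
    · rw [hm, norm_exp]
      exact Real.exp_le_one_iff.2 h2
  · exact locInj_of_goodB hn (goodB_RB hn) (hall_RB hn) z hz L ⟨hL, h2⟩ hm

/-- the half strip -/
def HS : Set ℂ := {L | 0 < L.im ∧ L.im < 2 * Real.pi ∧ L.re < 0}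

lemma convex_HS : Convex ℝ HS := by
  have h1 : Convex ℝ {L : ℂ | 0 < L.im} := convex_halfSpace_im_gt 0
  have h2 : Convex ℝ {L : ℂ | L.im < 2 * Real.pi} := convex_halfSpace_im_lt _
  have h3 : Convex ℝ {L : ℂ | L.re < 0} := convex_halfSpace_re_lt 0
  exact h1.inter (h2.inter h3)

/-- the shear -/
noncomputable def shear (n : ℕ) : D0 n ≃ₜ HS where
  toFun L := ⟨L.1 - (hgt n L.1.im : ℝ), by
    obtain ⟨L, h0, h1, h2⟩ := L
    refine ⟨?_, ?_, ?_⟩
    · simpa using h0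
    · simpa using h1
    · simp only [sub_re, ofReal_re]; linarith⟩
  invFun L := ⟨L.1 + (hgt n L.1.im : ℝ), by
    obtain ⟨L, h0, h1, h2⟩ := L
    have h3 : (L + (hgt n L.im : ℝ)).im = L.im := by simp
    refine ⟨?_, ?_, ?_⟩
    · rw [h3]; exact h0
    · rw [h3]; exact h1
    · rw [h3]; simp only [add_re, ofReal_re]; linarith⟩
  left_inv := by
    rintro ⟨L, hL⟩
    apply Subtype.ext
    simp
  right_inv := by
    rintro ⟨L, hL⟩
    apply Subtype.ext
    simp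
  continuous_toFun := by
    have := continuous_hgt n
    fun_prop
  continuous_invFun := by
    have := continuous_hgt n
    fun_prop

lemma contractible_D0 (n : ℕ) : ContractibleSpace (D0 n) := by
  have : ContractibleSpace HS := convex_HS.contractibleSpace
    ⟨(-1 : ℂ) + I, by
      have := Real.pi_gt_three
      refine ⟨by simp, ?_, by simp⟩
      simp
      linarith⟩
  exact (shear n).contractibleSpace

/-- **sections over the wide domain** -/
theorem exists_section_D0 {n : ℕ} (hn : 0 < n) {x₀ : ℂ × ℂ}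
    (hx₀ : x₀ ∈ Per n) {L₀ : ℂ} (hL₀ : L₀ ∈ D0 n) (hm : mul n x₀ = Complex.exp L₀) :
    ∃ σ : ℂ → ℂ × ℂ, ContinuousOn σ (D0 n) ∧
      (∀ L ∈ D0 n, σ L ∈ Per n ∧ mul n (σ L) = Complex.exp L) ∧ σ L₀ = x₀ := by
  have h := goodDom_D0 hn
  set D := D0 n with hD
  have : ContractibleSpace D := contractible_D0 n
  have : LocallyPathConnectedSpace D := h.isOpen.locallyPathConnectedSpace
  obtain ⟨F, ⟨hF0, hF⟩, -⟩ := (prj_isCoveringMap h).existsUnique_continuousMap_lifts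
    (ContinuousMap.id D) ⟨L₀, hL₀⟩ ⟨(x₀, L₀), hx₀, hL₀, hm⟩ rfl
  classical
  refine ⟨fun L => if hL : L ∈ D then (F ⟨L, hL⟩).1.1 else x₀, ?_, ?_, ?_⟩
  · rw [continuousOn_iff_continuous_domRestrict]
    have h1 : D.domRestrict (fun L => if hL : L ∈ D then (F ⟨L, hL⟩).1.1 else x₀) =
        fun L : D => (F L).1.1 := by
      funext L
      simp [domRestrict, L.2]
    rw [h1]
    exact continuous_fst.comp (continuous_subtype_val.comp F.continuous)
  · intro L hL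
    have h1 : prj n D (F ⟨L, hL⟩) = ⟨L, hL⟩ := congrFun hF ⟨L, hL⟩
    have h2 : (F ⟨L, hL⟩).1.2 = L := congrArg Subtype.val h1
    simp only [hL, dif_pos]
    refine ⟨(F ⟨L, hL⟩).2.1, ?_⟩
    rw [(F ⟨L, hL⟩).2.2.2, h2]
  · simp only [hL₀, dif_pos, hF0]

/-- over a good half domain over which all labels occur, a label belongs to one pair -/
theorem unique_of_goodB {n : ℕ} (hn : 0 < n) {B : Set ℂ} (hB : GoodB n B)
    (hall : ∀ j : Lab n, ∃ z ∈ Per n, ∃ L ∈ B, mul n z = exp L ∧ FF n z = j)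
    {L : ℂ} (hL : L ∈ B) {y y' : ℂ × ℂ} (hy : y ∈ Per n) (hy' : y' ∈ Per n)
    (hm : mul n y = exp L) (hm' : mul n y' = exp L) (hF : FF n y = FF n y') : y = y' := by
  classical
  have : NeZero n := ⟨hn.ne'⟩
  have hexp : ∀ L ∈ B, 1 < ‖exp L‖ := by
    intro L hL
    rw [Complex.norm_exp]
    exact Real.one_lt_exp_iff.2 (hB.pos L hL)
  have hne1 : ∀ L ∈ B, exp L ≠ 1 := by
    intro L hL h1
    have := hexp L hL
    rw [h1, norm_one] at this
    exact lt_irrefl _ this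
  have hFF : ∀ x ∈ Per n, ∀ L ∈ B, mul n x = Complex.exp L →
      ∀ᶠ x' in 𝓝 x, x' ∈ Per n → FF n x' = FF n x := by
    intro x hx L hL hm
    exact FF_nhds hn hx (by rw [hm]; exact hexp L hL) (by rw [hm]; exact hB.lt L hL)
      (hB.noInt' hL hm)
  have h3 : ∀ j : Lab n, ∃ x ∈ Per n, mul n x = Complex.exp L ∧ FF n x = j := by
    intro j
    obtain ⟨x₀, hx₀, L₀, hL₀, hm₀, hj⟩ := hall j
    exact labels_fill hn hB.isOpen hB.conn hne1 hB.lt (FF n) hFF hx₀ hL₀ hm₀ hj L hL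
  choose g hg1 hg2 hg3 using h3
  have hginj : Function.Injective g := fun i j hij => by rw [← hg3 i, ← hg3 j, hij]
  set S : Finset (ℂ × ℂ) := Finset.univ.image g with hS
  have hScard : S.card = n * 2 ^ (n - 1) := by
    rw [hS, Finset.card_image_of_injective _ hginj, Finset.card_univ, card_Lab]
  have hSmem : ∀ z ∈ S, z ∈ Per n ∧ mul n z = Complex.exp L := by
    intro z hz
    obtain ⟨j, -, rfl⟩ := Finset.mem_image.1 hz
    exact ⟨hg1 j, hg2 j⟩
  have hin : ∀ z, z ∈ Per n → mul n z = exp L → z ∈ S := by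
    intro z hz hzm
    by_contra hcon
    have h4 := Cnt.card_le hn (hne1 L hL) (insert z S) (by
      intro z' hz'
      rcases Finset.mem_insert.1 hz' with rfl | hz'
      · exact ⟨hz, hzm⟩
      · exact hSmem z' hz')
    rw [Finset.card_insert_of_notMem hcon, hScard] at h4
    omega
  obtain ⟨j, -, rfl⟩ := Finset.mem_image.1 (hin y hy hm)
  obtain ⟨j', -, rfl⟩ := Finset.mem_image.1 (hin y' hy' hm')
  rw [hg3, hg3] at hF
  rw [hF]

/-- the strip of the label: `θ` is the normalised angle of the exterior pair `x` -/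
def ThW (n : ℕ) (w : ℕ → ℤ) (k₀ : ℤ) (x : ℂ × ℂ) (θ : ℝ) : Prop :=
  ExtP n x.1 x.2 θ w ∧ (k₀ : ℝ) < Circ.nu w n θ ∧ Circ.nu w n θ < k₀ + 1

/-- a section of the multiplier over the wide domain, with its word and strip -/
structure Wide (n : ℕ) (w : ℕ → ℤ) (k₀ : ℤ) (σ : ℂ → ℂ × ℂ) : Prop where
  pos : 0 < n
  cont : ContinuousOn σ (D0 n)
  sec : ∀ L ∈ D0 n, σ L ∈ Per n ∧ mul n (σ L) = exp L
  bits : Bits n w
  ang : ∀ L ∈ D0 n, (σ L).1 ∉ MM → ∃ θ, ThW n w k₀ (σ L) θ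
  ply : ∀ L ∈ D0 n, ∀ θ, ThW n w k₀ (σ L) θ →
    ‖L - 2 * Real.pi * ((Circ.nu w n θ - k₀ : ℝ) : ℂ) * I‖ ^ 2 ≤ 81 * n * L.re
  lab : ∀ L ∈ D0 n, 0 < L.re → NonInt n (σ L) ∧
    ∀ θ : ℝ, (k₀ : ℝ) < Circ.nu w n θ → Circ.nu w n θ < k₀ + 1 → FF n (σ L) = lab n θ w
  uniq : ∀ L ∈ D0 n, 0 < L.re → ∀ y ∈ Per n, mul n y = exp L → FF n y = FF n (σ L) → y = σ L

/-- the inequality for exterior pairs over the wide domain -/
lemma ply_D0 {n : ℕ} (hn : 0 < n) {L : ℂ} (hL : L ∈ D0 n) {x : ℂ × ℂ} (hm : mul n x = exp L)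
    {w : ℕ → ℤ} {k₀ : ℤ} {θ : ℝ} (h : ThW n w k₀ x θ) :
    ‖L - 2 * Real.pi * ((Circ.nu w n θ - k₀ : ℝ) : ℂ) * I‖ ^ 2 ≤ 81 * n * L.re := by
  obtain ⟨hE, hk1, hk2⟩ := h
  have hlt : ‖mul n x‖ < 23 / 10 := by rw [hm]; exact lt_D0 hn hL
  have hG4 : G x.1 x.1 ≤ 4 := G_le_four_of_mul_lt hn hE.2.2.1 hlt
  obtain ⟨-, ℓ, hℓ, hply⟩ := extP_ply hn hE hG4
  have h2 : exp ℓ = exp L := by rw [hℓ, ← hm]; rfl
  rw [Complex.exp_eq_exp_iff_exists_int] at h2
  obtain ⟨j, hj⟩ := h2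
  have hℓre : ℓ.re = L.re := by rw [hj]; simp
  set ν := Circ.nu w n θ with hν
  have h3 : ℓ - 2 * Real.pi * (ν : ℝ) * I = L - 2 * Real.pi * ((ν - j : ℝ) : ℂ) * I := by
    rw [hj]; push_cast; ring
  rw [h3, hℓre] at hply
  have hjk : j = k₀ := by
    obtain ⟨h0, h1, h4⟩ := hL
    have hn' : (0 : ℝ) < n := by exact_mod_cast hn
    have hμ := mu_pos h0 h1
    have hμ1 : min L.im (2 * Real.pi - L.im) ≤ L.im := min_le_left _ _
    have hμ2 : min L.im (2 * Real.pi - L.im) ≤ 2 * Real.pi - L.im := min_le_right _ _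
    unfold hgt at h4
    set μ := min L.im (2 * Real.pi - L.im)
    rw [lt_div_iff₀ (by positivity)] at h4
    have h5 : ‖L - 2 * Real.pi * ((ν - j : ℝ) : ℂ) * I‖ ^ 2 < μ ^ 2 := by nlinarith [pow_pos hμ 2]
    have h6 : ‖L - 2 * Real.pi * ((ν - j : ℝ) : ℂ) * I‖ < μ := lt_of_pow_lt_pow_left₀ 2 hμ.le h5
    have h7 := (abs_im_le_norm (L - 2 * Real.pi * ((ν - j : ℝ) : ℂ) * I)).trans_lt h6
    have h8 : (L - 2 * Real.pi * ((ν - j : ℝ) : ℂ) * I).im = L.im - 2 * Real.pi * (ν - j) := by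
      simp
    rw [h8, abs_lt] at h7
    have hpi := Real.pi_pos
    have h9 : 0 < 2 * Real.pi * (ν - j) := by linarith
    have h10 : 2 * Real.pi * (ν - j) < 2 * Real.pi := by linarith
    have h12 : (j : ℝ) < ν := by
      by_contra hcon
      push Not at hcon
      nlinarith
    have h13 : ν < j + 1 := by nlinarith
    have h14 : (j : ℝ) < k₀ + 1 := by linarith
    have h15 : (k₀ : ℝ) < j + 1 := by linarith
    have h16 : j < k₀ + 1 := by exact_mod_cast h14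
    have h17 : k₀ < j + 1 := by exact_mod_cast h15
    omega
  rw [hjk] at hply
  exact hply

/-- a continuous section with a lift of the angle is wide -/
theorem wide_of {n : ℕ} (hn : 0 < n) {σ : ℂ → ℂ × ℂ} {w : ℕ → ℤ} {k : ℤ}
    (hσ : ContinuousOn σ (D0 n)) (hσ' : ∀ L ∈ D0 n, σ L ∈ Per n ∧ mul n (σ L) = exp L)
    (hw : Bits n w) (hang : ∀ L ∈ D0 n, (σ L).1 ∉ MM → ∃ θ, ThW n w k (σ L) θ) :
    Wide n w k σ := by
  have hgB := goodB_RB hn
  have hsub : RB n ⊆ D0 n := fun L hL => hL.1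
  have hbal := ball_subset_D0 hn (x := 1 / 2) (by norm_num) (by norm_num)
  obtain ⟨L₁, hL₁b, hL₁re, hL₁G⟩ := Sat.exists_exterior hn (x := 1 / 2) (by norm_num)
    (by norm_num) (hσ.mono hbal) (fun L hL => hσ' L (hbal hL))
  have hL₁ : L₁ ∈ RB n := ⟨hbal hL₁b, hL₁re⟩
  obtain ⟨θ₁, hθ₁⟩ := hang L₁ hL₁.1 (Sat.not_mem_MM_iff.2 hL₁G)
  refine ⟨hn, hσ, hσ', hw, hang, fun L hL θ hT => ply_D0 hn hL (hσ' L hL).2 hT, ?_, ?_⟩
  · intro L hL hre
    have hL' : L ∈ RB n := ⟨hL, hre⟩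
    have hlt : ‖mul n (σ L)‖ < 23 / 10 := by rw [(hσ' L hL).2]; exact lt_D0 hn hL
    have hNI : NoInt n (σ L) := hgB.noInt' hL' (hσ' L hL).2
    have hrep : 1 < ‖mult n (σ L).1 (σ L).2‖ := by
      have h2 : mult n (σ L).1 (σ L).2 = mul n (σ L) := rfl
      rw [h2, (hσ' L hL).2, norm_exp]
      exact Real.one_lt_exp_iff.2 hre
    refine ⟨⟨fun hG => ?_, fun θ w' hE k => nu_ne_int_ext hn hlt hNI hE k⟩, fun θ hθ1 hθ2 => ?_⟩
    · exact Sat.exists_land_two hn hG (hσ' L hL).1 hrep hNI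
    · have hc := FF_const_section hn hgB (hσ.mono hsub) (fun L hL => hσ' L (hsub hL)) hL' hL₁
      rw [hc, FF_ext (x := σ L₁) hθ₁.1]
      refine lab_of_strip hw fun θ'' hθ'' k' hk' => ?_
      obtain ⟨-, hb1, hb2⟩ := hθ₁
      have h4 : (k : ℝ) < Circ.nu w n θ'' ∧ Circ.nu w n θ'' < k + 1 := by
        rcases le_total θ θ₁ with h5 | h5
        · rw [uIcc_of_le h5] at hθ''
          exact ⟨hθ1.trans_le (Circ.nu_mono w n hθ''.1),
            (Circ.nu_mono w n hθ''.2).trans_lt hb2⟩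
        · rw [uIcc_of_ge h5] at hθ''
          exact ⟨hb1.trans_le (Circ.nu_mono w n hθ''.1),
            (Circ.nu_mono w n hθ''.2).trans_lt hθ2⟩
      rw [hk'] at h4
      have h6 : k < k' := by exact_mod_cast h4.1
      have h7 : k' < k + 1 := by exact_mod_cast h4.2
      omega
  · intro L hL hre y hy hmy hF
    exact unique_of_goodB hn hgB (hall_RB hn) ⟨hL, hre⟩ hy (hσ' L hL).1 hmy (hσ' L hL).2 hF

/-- **through every point there is a wide section** -/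
theorem exists_wide {n : ℕ} (hn : 0 < n) {x₀ : ℂ × ℂ} (hx₀ : x₀ ∈ Per n) {L₀ : ℂ}
    (hL₀ : L₀ ∈ D0 n) (hm : mul n x₀ = Complex.exp L₀) :
    ∃ (σ : ℂ → ℂ × ℂ) (w : ℕ → ℤ) (k₀ : ℤ), Wide n w k₀ σ ∧ σ L₀ = x₀ := by
  obtain ⟨σ, hσ, hσ', h0⟩ := exists_section_D0 hn hx₀ hL₀ hm
  have hgB := goodB_RB hn
  have hsub : RB n ⊆ D0 n := fun L hL => hL.1
  obtain ⟨w, k, hw, -, hwk⟩ := exists_word_section hn hgB (hσ.mono hsub)
    (fun L hL => hσ' L (hsub hL))
  refine ⟨σ, w, k, wide_of hn hσ hσ' hw ?_, h0⟩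
  intro L hL hM
  have h2 : 0 < G (σ L).1 (σ L).1 := Sat.not_mem_MM_iff.1 hM
  exact hwk L ⟨hL, Pool.Agent.Work.MLC.re_pos_of_ext hn (hσ' L hL).1 (hσ' L hL).2 h2⟩ h2

section

variable {n : ℕ} {w : ℕ → ℤ} {k₀ : ℤ} {σ : ℂ → ℂ × ℂ}

lemma isPreconnected_D0 (n : ℕ) : IsPreconnected (D0 n) := by
  have := contractible_D0 n
  exact isPreconnected_iff_preconnectedSpace.2 inferInstance

lemma axis_mem_D0 {n : ℕ} (hn : 0 < n) {y : ℝ} (h0 : 0 < y) (h1 : y < 2 * Real.pi) :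
    (y : ℂ) * I ∈ D0 n := by
  have h2 : ((y : ℂ) * I).im = y := by simp
  have h3 : ((y : ℂ) * I).re = 0 := by simp
  have hn' : (0 : ℝ) < n := by exact_mod_cast hn
  have := mu_pos h0 h1
  refine ⟨by rw [h2]; exact h0, by rw [h2]; exact h1, ?_⟩
  rw [h2, h3]
  unfold hgt; positivity

lemma half_mem_D0 {n : ℕ} (hn : 0 < n) {L : ℂ} (h0 : 0 < L.im) (h1 : L.im < 2 * Real.pi)
    (h2 : L.re ≤ 0) : L ∈ D0 n := by
  have hn' : (0 : ℝ) < n := by exact_mod_cast hn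
  have := mu_pos h0 h1
  refine ⟨h0, h1, h2.trans_lt ?_⟩
  unfold hgt; positivity

/-- there are exterior parameters near every point of the imaginary axis -/
theorem Wide.exists_ext (h : Wide n w k₀ σ) {y : ℝ} (h0 : 0 < y) (h1 : y < 2 * Real.pi) :
    ∃ᶠ L in 𝓝 ((y : ℂ) * I), L ∈ D0 n ∧ 0 < L.re ∧ (σ L).1 ∉ MM := by
  have hD := goodDom_D0 h.pos
  have ha := axis_mem_D0 h.pos h0 h1
  have hpi := Real.pi_pos
  obtain ⟨-, -, h3⟩ := Sat.s3_neutral n (σ ((y : ℂ) * I)) (y / (2 * Real.pi)) h.pos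
    (h.sec _ ha).1 (by positivity) (by rw [div_lt_one (by positivity)]; exact h1) (by
      rw [(h.sec _ ha).2]
      congr 1
      push_cast
      have : (Real.pi : ℂ) ≠ 0 := by exact_mod_cast hpi.ne'
      field_simp)
  have hmap := (section_strict hD h.cont h.sec ha).map_nhds_eq
    (section_deriv_ne_zero hD h.cont h.sec ha)
  have h4 : ∃ᶠ L in 𝓝 ((y : ℂ) * I), (σ L).1 ∉ MM := by
    rw [← hmap] at h3
    exact frequently_map.1 h3
  refine (h4.and_eventually ((isOpen_D0 n).mem_nhds ha)).mono ?_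
  rintro L ⟨h5, h6⟩
  exact ⟨h6, Pool.Agent.Work.MLC.re_pos_of_ext h.pos (h.sec L h6).1 (h.sec L h6).2
    (Sat.not_mem_MM_iff.1 h5), h5⟩

/-- near the lower end of the axis the exterior angles are close to the left end of the strip -/
theorem Wide.near_left (h : Wide n w k₀ σ) {s η : ℝ} (hη : 0 < η)
    (ht : (k₀ : ℝ) < Circ.nu w n s) :
    ∃ y, 0 < y ∧ y < η ∧ y < 2 * Real.pi ∧
      ∀ᶠ L in 𝓝 ((y : ℂ) * I), L ∈ D0 n → ∀ θ, ThW n w k₀ (σ L) θ → θ < s := by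
  have hpi := Real.pi_gt_three
  have hn' : (0 : ℝ) < n := by exact_mod_cast h.pos
  set ε : ℝ := min (Circ.nu w n s - k₀) 1 with hε
  have hε0 : 0 < ε := lt_min (by linarith) one_pos
  have hε1 : ε ≤ 1 := min_le_right _ _
  have hε2 : ε ≤ Circ.nu w n s - k₀ := min_le_left _ _
  refine ⟨min (η / 2) ε, lt_min (by linarith) hε0, (min_le_left _ _).trans_lt (by linarith),
    (min_le_right _ _).trans_lt (by linarith), ?_⟩
  set y : ℝ := min (η / 2) ε with hy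
  have hyε : y ≤ ε := min_le_right _ _
  have c1 : ∀ᶠ L : ℂ in 𝓝 ((y : ℂ) * I), 81 * n * L.re < ε ^ 2 := by
    have : ContinuousAt (fun L : ℂ => 81 * n * L.re) ((y : ℂ) * I) := by fun_prop
    refine this.eventually_lt continuousAt_const ?_
    simp only [mul_re, ofReal_re, I_re, mul_zero, ofReal_im, I_im, mul_one, sub_self]
    positivity
  have c2 : ∀ᶠ L : ℂ in 𝓝 ((y : ℂ) * I), L.im < 2 * ε := by
    have : ContinuousAt (fun L : ℂ => L.im) ((y : ℂ) * I) := by fun_prop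
    refine this.eventually_lt continuousAt_const ?_
    simp
    linarith
  filter_upwards [c1, c2] with L h1 h2 hL θ hθ
  have h3 := h.ply L hL θ hθ
  have h4 : ‖L - 2 * Real.pi * ((Circ.nu w n θ - k₀ : ℝ) : ℂ) * I‖ < ε := by
    refine lt_of_pow_lt_pow_left₀ 2 hε0.le (h3.trans_lt h1)
  have h5 := (abs_im_le_norm (L - 2 * Real.pi * ((Circ.nu w n θ - k₀ : ℝ) : ℂ) * I)).trans_lt h4
  have h6 : (L - 2 * Real.pi * ((Circ.nu w n θ - k₀ : ℝ) : ℂ) * I).im =
      L.im - 2 * Real.pi * (Circ.nu w n θ - k₀) := by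
    simp
  rw [h6, abs_lt] at h5
  have h7 : Circ.nu w n θ - k₀ < ε := by
    by_contra hcon
    push Not at hcon
    nlinarith
  by_contra hcon
  push Not at hcon
  have h8 := Circ.nu_mono w n hcon
  linarith

lemma LC.const45 {η : ℝ} {P : ℂ → Prop} (hP : LC n η P) {S : Set ℂ} (hS : IsPreconnected S)
    {τ : ℂ → ℂ × ℂ} (hτ : ContinuousOn τ S)
    (h : ∀ L ∈ S, τ L ∈ Per n ∧ mul n (τ L) = exp L) (hex : ∀ L ∈ S, Exa n (τ L))
    (h0 : ∀ L ∈ S, L ≠ 0 ∧ ‖L‖ < η) {L L' : ℂ} (hL : L ∈ S) (hL' : L' ∈ S) :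
    P (τ L).1 ↔ P (τ L').1 := by
  rw [isPreconnected_iff_preconnectedSpace] at hS
  have hf : IsLocallyConstant fun L : S => P (τ L).1 := by
    rw [IsLocallyConstant.iff_eventually_eq]
    rintro ⟨L, hL⟩
    have h1 := hP (τ L) (h L hL).1 (hex L hL) L (h L hL).2 (h0 L hL).1 (h0 L hL).2
    have h2 : ContinuousAt (fun L : S => (τ L).1) ⟨L, hL⟩ :=
      (continuous_fst.comp (continuousOn_iff_continuous_domRestrict.1 hτ)).continuousAt
    filter_upwards [h2.eventually h1] with L' h3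
    exact propext h3
  exact iff_of_eq (hf.apply_eq_of_preconnectedSpace ⟨L, hL⟩ ⟨L', hL'⟩)

lemma prim_D0 (hσ : ContinuousOn σ (D0 n))
    (hσ' : ∀ L ∈ D0 n, σ L ∈ Per n ∧ mul n (σ L) = exp L) {a : ℂ} (ha : a ∈ D0 n)
    (h : Exa n (σ a)) : ∀ L ∈ D0 n, Exa n (σ L) :=
  Sat.prim_section (isPreconnected_D0 n) (isOpen_D0 n) (fun _ hL => ne_one_D0 hL) hσ hσ' ha h

/-- **from the closed left half of the disc to the exterior, near the left end** -/
theorem Wide.reach (h : Wide n w k₀ σ) (hex : ∀ L ∈ D0 n, Exa n (σ L)) {η : ℝ} (hη : 0 < η)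
    (hη1 : η ≤ 1) {P : ℂ → Prop} (hP : LC n η P) {L : ℂ} (hL : 0 < L.im) (hre : L.re ≤ 0)
    (hLη : ‖L‖ < η) {s : ℝ} (hs : (k₀ : ℝ) < Circ.nu w n s) :
    ∃ (x : ℂ × ℂ) (θ : ℝ), x.1 ∉ MM ∧ ThW n w k₀ x θ ∧ θ < s ∧ (P (σ L).1 ↔ P x.1) := by
  have hpi := Real.pi_gt_three
  obtain ⟨y, hy0, hyη, hy2, hev⟩ := h.near_left hη hs
  set S : Set ℂ := {L | 0 < L.im ∧ L.re ≤ 0 ∧ ‖L‖ < η} with hSdef
  have hSD : S ⊆ D0 n := by
    rintro L' ⟨h1, h2, h3⟩
    have := (le_abs_self _).trans (abs_im_le_norm L')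
    exact half_mem_D0 h.pos h1 (by linarith) h2
  have hSc : IsPreconnected S := by
    have h1 : Convex ℝ {L : ℂ | 0 < L.im} := convex_halfSpace_im_gt 0
    have h2 : Convex ℝ {L : ℂ | L.re ≤ 0} := convex_halfSpace_re_le 0
    have h3 : Convex ℝ {L : ℂ | ‖L‖ < η} := by
      have : {L : ℂ | ‖L‖ < η} = ball 0 η := by ext; simp
      rw [this]; exact convex_ball _ _
    exact (h1.inter (h2.inter h3)).isPreconnected
  have hyS : (y : ℂ) * I ∈ S := by
    refine ⟨by simpa using hy0, by simp, ?_⟩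
    simp [abs_of_pos hy0, hyη]
  have hyD := hSD hyS
  have key := hP.const45 hSc (h.cont.mono hSD) (fun L hL => h.sec L (hSD hL))
    (fun L hL => hex L (hSD hL)) (fun L hL => ⟨by rintro rfl; exact lt_irrefl _ hL.1, hL.2.2⟩)
    (show L ∈ S from ⟨hL, hre, hLη⟩) hyS
  have h1 := hP _ (h.sec _ hyD).1 (hex _ hyD) _ (h.sec _ hyD).2
    (by intro h0; have := hyS.1; rw [h0] at this; exact lt_irrefl _ this) hyS.2.2
  have hc : ContinuousAt (fun L => (σ L).1) ((y : ℂ) * I) :=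
    continuous_fst.continuousAt.comp (h.cont.continuousAt ((isOpen_D0 n).mem_nhds hyD))
  obtain ⟨L', ⟨⟨h3, h4, h5⟩, h6⟩, h7⟩ := (((h.exists_ext hy0 hy2).and_eventually
    (hc.eventually h1)).and_eventually hev).exists
  obtain ⟨θ, hθ⟩ := h.ang L' h3 h5
  exact ⟨σ L', θ, h5, hθ, h7 h3 θ hθ, key.trans h6.symm⟩

/-- the half disc -/
def HD (η : ℝ) : Set ℂ := {L | L.re < 0 ∧ ‖L‖ < η}

lemma isOpen_HD (η : ℝ) : IsOpen (HD η) :=
  (isOpen_lt continuous_re continuous_const).inter (isOpen_lt continuous_norm continuous_const)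

lemma convex_HD (η : ℝ) : Convex ℝ (HD η) := by
  have h2 : Convex ℝ {L : ℂ | L.re < 0} := convex_halfSpace_re_lt 0
  have h3 : Convex ℝ {L : ℂ | ‖L‖ < η} := by
    have : {L : ℂ | ‖L‖ < η} = ball 0 η := by ext; simp
    rw [this]; exact convex_ball _ _
  exact h2.inter h3

lemma norm_exp_HD {η : ℝ} {L : ℂ} (hL : L ∈ HD η) : ‖exp L‖ < 1 := by
  rw [norm_exp]
  exact Real.exp_lt_one_iff.2 hL.1

lemma goodDom_HD (hn : 0 < n) (η : ℝ) : GoodDom n (HD η) := by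
  refine ⟨hn, isOpen_HD η, ?_, ?_, ?_⟩
  · intro L hL h1
    have := norm_exp_HD hL
    rw [h1, norm_one] at this
    exact lt_irrefl _ this
  · intro L hL
    have := norm_exp_HD hL
    linarith
  · intro x hx L hL hm
    refine locInj_of_le hn hx ?_ ?_ ?_
    · rw [hm]; intro h1
      have := norm_exp_HD hL
      rw [h1, norm_one] at this
      exact lt_irrefl _ this
    · rw [hm]; exact exp_ne_zero L
    · rw [hm]; exact (norm_exp_HD hL).le

/-- the word of a section of exact period `n` has exact period `n` -/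
theorem Wide.word (h : Wide n w k₀ σ) (hex : ∀ L ∈ D0 n, Exa n (σ L)) : Word n w := by
  refine ⟨h.bits.bit, h.bits.per, ?_⟩
  intro d hd hdm
  have hpi := Real.pi_gt_three
  obtain ⟨L₁, hL₁, -, hL₁M⟩ := (h.exists_ext (y := 1) one_pos (by linarith)).exists
  obtain ⟨θ₁, hθ₁⟩ := h.ang L₁ hL₁ hL₁M
  by_contra hcon
  push Not at hcon
  have h2 : ExtP n (σ L₁).1 (it (σ L₁).1 d (σ L₁).2) θ₁ w := by
    obtain ⟨a1, a2, a3, a4, a5⟩ := hθ₁.1
    refine ⟨a1, a2, ?_, a4, fun i => ?_⟩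
    · rw [Sat.it_comp, add_comm, ← Sat.it_comp, a3]
    · rw [Sat.it_comp, ← hcon i]
      exact a5 (i + d)
  exact hex L₁ hL₁ d hd hdm (extP_inj h.pos hθ₁.1 h2).symm

/-- replacing the point by another point of its orbit -/
theorem Wide.shift (h : Wide n w k₀ σ) (i₀ : ℕ) :
    Wide n (fun i => w (i + i₀)) k₀ (fun L => ((σ L).1, it (σ L).1 i₀ (σ L).2)) := by
  refine wide_of h.pos ?_ ?_ ?_ ?_
  · have h1 : Continuous fun p : ℂ × ℂ => (p.1, it p.1 i₀ p.2) :=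
      continuous_fst.prodMk (continuous_it i₀)
    exact h1.comp_continuousOn h.cont
  · intro L hL
    obtain ⟨h1, h2⟩ := h.sec L hL
    refine ⟨Sat.Per_it (c := (σ L).1) (z := (σ L).2) h1 i₀, ?_⟩
    have h3 := Sat.mul_it' (c := (σ L).1) (z := (σ L).2) h1 i₀
    exact h3.trans h2
  · refine ⟨fun i => h.bits.bit _, fun i => ?_⟩
    show w (i + n + i₀) = w (i + i₀)
    rw [show i + n + i₀ = (i + i₀) + n by ring]
    exact h.bits.per _
  · intro L hL hM
    obtain ⟨θ, ⟨a1, a2, a3, a4, a5⟩, hk1, hk2⟩ := h.ang L hL hM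
    have hrot := Sat.s1_rot n w i₀ θ h.bits
    refine ⟨θ, ⟨a1, a2, ?_, ?_, fun i => ?_⟩, by rw [hrot]; exact hk1, by rw [hrot]; exact hk2⟩
    · show it (σ L).1 n (it (σ L).1 i₀ (σ L).2) = it (σ L).1 i₀ (σ L).2
      rw [Sat.it_comp, add_comm, ← Sat.it_comp, a3]
    · refine ⟨fun i => h.bits.bit _, fun i => ?_⟩
      show w (i + n + i₀) = w (i + i₀)
      rw [show i + n + i₀ = (i + i₀) + n by ring]
      exact h.bits.per _
    · show Side (σ L).1 (θ + w (i + i₀)) (it (σ L).1 i (it (σ L).1 i₀ (σ L).2))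
      rw [Sat.it_comp]
      exact a5 (i + i₀)

/-- a label has only one section -/
theorem Wide.unique (h : Wide n w k₀ σ) {σ' : ℂ → ℂ × ℂ} (h' : Wide n w k₀ σ') :
    ∀ L ∈ D0 n, σ' L = σ L := by
  have hpi := Real.pi_gt_three
  obtain ⟨L₁, hL₁, hre, hL₁M⟩ := (h.exists_ext (y := 1) one_pos (by linarith)).exists
  obtain ⟨θ₁, hθ₁⟩ := h.ang L₁ hL₁ hL₁M
  have h1 : σ' L₁ = σ L₁ := by
    refine h.uniq L₁ hL₁ hre _ (h'.sec L₁ hL₁).1 (h'.sec L₁ hL₁).2 ?_
    rw [(h'.lab L₁ hL₁ hre).2 θ₁ hθ₁.2.1 hθ₁.2.2, (h.lab L₁ hL₁ hre).2 θ₁ hθ₁.2.1 hθ₁.2.2]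
  exact section_unique (goodDom_D0 h.pos) h.cont h.sec (isPreconnected_D0 n) h'.cont
    continuousOn_id (fun L hL => ⟨(h'.sec L hL).1, hL, (h'.sec L hL).2⟩) hL₁ h1

/-- change of the lift of the angle and of the word -/
theorem Wide.move (h : Wide n w k₀ σ) {w' : ℕ → ℤ} {k' : ℤ} (hw' : Bits n w') (m : ℤ)
    (hp : ∀ i, Even (w' i - w i - m))
    (hk : ∀ θ, Circ.nu w' n (θ + m) - k' = Circ.nu w n θ - k₀) : Wide n w' k' σ := by
  refine wide_of h.pos h.cont h.sec hw' fun L hL hM => ?_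
  obtain ⟨θ, hE, h1, h2⟩ := h.ang L hL hM
  refine ⟨θ + m, hE.move h.pos hw' m hp, ?_, ?_⟩
  · linarith [hk θ]
  · linarith [hk θ]

/-- the strips `(w, k)` and `(w', k')` belong to the same cycle -/
def SameCyc45 (n : ℕ) (w : ℕ → ℤ) (k : ℤ) (w' : ℕ → ℤ) (k' : ℤ) (i₀ : ℕ) : Prop :=
  ∃ m : ℤ, (∀ i, Even (w' i - w (i + i₀) - m)) ∧
    ∀ θ : ℝ, Circ.nu w' n (θ + m) - k' = Circ.nu w n θ - k

/-- labels which belong to the same cycle have the same parameters -/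
theorem Wide.same_param (h : Wide n w k₀ σ) {w' : ℕ → ℤ} {k' : ℤ} {σ' : ℂ → ℂ × ℂ}
    (h' : Wide n w' k' σ') {i₀ : ℕ} (hw : SameCyc45 n w k₀ w' k' i₀) :
    ∀ L ∈ D0 n, σ' L = ((σ L).1, it (σ L).1 i₀ (σ L).2) := by
  obtain ⟨m, h1, h2⟩ := hw
  have h3 : Wide n w' k' (fun L => ((σ L).1, it (σ L).1 i₀ (σ L).2)) := by
    refine (h.shift i₀).move h'.bits m h1 fun θ => ?_
    rw [Sat.s1_rot n w i₀ θ h.bits]
    exact h2 θ
  exact h3.unique h'

/-- a pair with its label: `τ` continues `x` over the half disc, `σ` over the wide domain -/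
structure Ident (n : ℕ) (η : ℝ) (w : ℕ → ℤ) (k₀ : ℤ) (σ τ : ℂ → ℂ × ℂ) (L : ℂ) (x : ℂ × ℂ) :
    Prop where
  wide : Wide n w k₀ σ
  exa : ∀ L ∈ D0 n, Exa n (σ L)
  cont : ContinuousOn τ (HD η)
  sec : ∀ L ∈ HD η, τ L ∈ Per n ∧ mul n (τ L) = exp L
  exaτ : ∀ L ∈ HD η, Exa n (τ L)
  eq : τ L = x
  agree : ∀ L ∈ HD η, 0 < L.im → τ L = σ L

/-- **every attracting pair near the root belongs to a label** -/
theorem exists_ident (hn : 0 < n) {η : ℝ} (hη : 0 < η) (hη1 : η ≤ 1) {x : ℂ × ℂ} {L : ℂ}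
    (hx : x ∈ Per n) (hex : Exa n x) (hm : mul n x = exp L) (hL : L ∈ HD η) :
    ∃ w k₀ σ τ, Ident n η w k₀ σ τ L x := by
  have hpi := Real.pi_gt_three
  have hG := goodDom_HD hn η
  obtain ⟨τ, hτ, hτ', hτL⟩ := exists_section hG (convex_HD η) hx hL hm
  have hexτ : ∀ L ∈ HD η, Exa n (τ L) :=
    Sat.prim_section (convex_HD η).isPreconnected (isOpen_HD η) hG.ne_one hτ hτ' hL
      (by rw [hτL]; exact hex)
  -- a point with positive imaginary part
  set L₁ : ℂ := ((-(η / 4) : ℝ) : ℂ) + ((η / 4 : ℝ) : ℂ) * I with hL₁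
  have him : L₁.im = η / 4 := by simp [hL₁]
  have hre : L₁.re = -(η / 4) := by simp [hL₁]
  have hL₁H : L₁ ∈ HD η := by
    refine ⟨by rw [hre]; linarith, ?_⟩
    have h1 := Complex.norm_le_abs_re_add_abs_im L₁
    rw [hre, him, abs_neg, abs_of_pos (by linarith : 0 < η / 4)] at h1
    linarith
  have hL₁D : L₁ ∈ D0 n := half_mem_D0 hn (by rw [him]; linarith) (by rw [him]; linarith)
    (by rw [hre]; linarith)
  obtain ⟨σ, w, k₀, hW, hσ⟩ := exists_wide hn (hτ' L₁ hL₁H).1 hL₁D (hτ' L₁ hL₁H).2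
  refine ⟨w, k₀, σ, τ, hW, ?_, hτ, hτ', hexτ, hτL, ?_⟩
  · exact prim_D0 hW.cont hW.sec hL₁D (by rw [hσ]; exact hexτ L₁ hL₁H)
  · have hsub : HD η ∩ {L : ℂ | 0 < L.im} ⊆ D0 n := by
      rintro L' ⟨⟨h1, h2⟩, h3⟩
      have := (le_abs_self _).trans (abs_im_le_norm L')
      exact half_mem_D0 hn h3 (by linarith) h1.le
    have hpre : IsPreconnected (HD η ∩ {L : ℂ | 0 < L.im}) :=
      ((convex_HD η).inter (convex_halfSpace_im_gt 0)).isPreconnected
    intro L' hL' hL'im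
    exact section_unique (goodDom_D0 hn) hW.cont hW.sec hpre (hτ.mono inter_subset_left)
      continuousOn_id (fun L hL => ⟨(hτ' L hL.1).1, hsub hL, (hτ' L hL.1).2⟩)
      (show L₁ ∈ _ from ⟨hL₁H, by show 0 < L₁.im; rw [him]; linarith⟩) hσ.symm L'
      ⟨hL', hL'im⟩

/-- locally constant predicates can be evaluated at exterior parameters whose angle is close to the
left end of the strip -/
theorem Ident.reach {η : ℝ} {τ : ℂ → ℂ × ℂ} {L : ℂ} {x : ℂ × ℂ} (h : Ident n η w k₀ σ τ L x)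
    (hη : 0 < η) (hη1 : η ≤ 1) (hL : L ∈ HD η) {P : ℂ → Prop} (hP : LC n η P) {s : ℝ}
    (hs : (k₀ : ℝ) < Circ.nu w n s) :
    ∃ (y : ℂ × ℂ) (θ : ℝ), y.1 ∉ MM ∧ ThW n w k₀ y θ ∧ θ < s ∧ (P x.1 ↔ P y.1) := by
  set L₁ : ℂ := ((-(η / 4) : ℝ) : ℂ) + ((η / 4 : ℝ) : ℂ) * I with hL₁
  have him : L₁.im = η / 4 := by simp [hL₁]
  have hre : L₁.re = -(η / 4) := by simp [hL₁]
  have hL₁H : L₁ ∈ HD η := by
    refine ⟨by rw [hre]; linarith, ?_⟩
    have h1 := Complex.norm_le_abs_re_add_abs_im L₁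
    rw [hre, him, abs_neg, abs_of_pos (by linarith : 0 < η / 4)] at h1
    linarith
  have key := hP.const45 (convex_HD η).isPreconnected h.cont h.sec h.exaτ
    (fun L hL => ⟨by rintro rfl; exact lt_irrefl _ hL.1, hL.2⟩) hL hL₁H
  obtain ⟨y, θ, h1, h2, h3, h4⟩ := h.wide.reach h.exa hη hη1 hP (L := L₁)
    (by rw [him]; linarith) (by rw [hre]; linarith) hL₁H.2 hs
  refine ⟨y, θ, h1, h2, h3, ?_⟩
  rw [← h4, ← h.agree L₁ hL₁H (by rw [him]; linarith), ← key, h.eq]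

/-- **two pairs with the same label up to a shift**: the parameter is one function on the half
disc -/
theorem Ident.same_param {η : ℝ} (hη : 0 < η) (hη1 : η ≤ 1) {τ τ' σ' : ℂ → ℂ × ℂ}
    {w' : ℕ → ℤ} {k' : ℤ} {L L' : ℂ} {x x' : ℂ × ℂ} (h : Ident n η w k₀ σ τ L x)
    (h' : Ident n η w' k' σ' τ' L' x') {i₀ : ℕ} (hw : SameCyc45 n w k₀ w' k' i₀) :
    ∀ L ∈ HD η, τ' L = ((τ L).1, it (τ L).1 i₀ (τ L).2) := by
  have hn := h.wide.pos
  set L₁ : ℂ := ((-(η / 4) : ℝ) : ℂ) + ((η / 4 : ℝ) : ℂ) * I with hL₁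
  have him : L₁.im = η / 4 := by simp [hL₁]
  have hre : L₁.re = -(η / 4) := by simp [hL₁]
  have hL₁H : L₁ ∈ HD η := by
    refine ⟨by rw [hre]; linarith, ?_⟩
    have h1 := Complex.norm_le_abs_re_add_abs_im L₁
    rw [hre, him, abs_neg, abs_of_pos (by linarith : 0 < η / 4)] at h1
    linarith
  have him0 : 0 < L₁.im := by rw [him]; linarith
  have hcs : ContinuousOn (fun L => ((τ L).1, it (τ L).1 i₀ (τ L).2)) (HD η) := by
    have h1 : Continuous fun p : ℂ × ℂ => (p.1, it p.1 i₀ p.2) :=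
      continuous_fst.prodMk (continuous_it i₀)
    exact h1.comp_continuousOn h.cont
  have hss : ∀ L ∈ HD η, ((τ L).1, it (τ L).1 i₀ (τ L).2) ∈ Per n ∧
      mul n ((τ L).1, it (τ L).1 i₀ (τ L).2) = exp L := by
    intro L hL
    obtain ⟨h1, h2⟩ := h.sec L hL
    refine ⟨Sat.Per_it (c := (τ L).1) (z := (τ L).2) h1 i₀, ?_⟩
    have h3 := Sat.mul_it' (c := (τ L).1) (z := (τ L).2) h1 i₀
    exact h3.trans h2
  refine section_unique (goodDom_HD hn η) hcs hss (convex_HD η).isPreconnected h'.cont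
    continuousOn_id (fun L hL => ⟨(h'.sec L hL).1, hL, (h'.sec L hL).2⟩) hL₁H ?_
  have hpi := Real.pi_gt_three
  have hL₁D : L₁ ∈ D0 n := half_mem_D0 hn him0 (by rw [him]; linarith) (by rw [hre]; linarith)
  rw [h'.agree L₁ hL₁H him0, h.agree L₁ hL₁H him0]
  exact h.wide.same_param h'.wide hw L₁ hL₁D

end

end Pri

end Pool.Agent.Work.MLC
end

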