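import Pool.Agent.Work.MLCM.C39

section
set_option autoImplicit false

/-! # Theorem S: the family of cycles inside the wake (helper26) -/

namespace Pool.Agent.Work.MLC.Sat

open Filter Topology Metric Set Complex

lemma norm_le_of_per {n : ℕ} (hn : 0 < n) {c z : ℂ} (h : (c, z) ∈ Per n) : ‖z‖ ≤ 1 + ‖c‖ := by
  apply norm_le_of_G_zero
  have h1 := G_it c z n
  have h2 : it c n z = z := h
  rw [h2] at h1
  have h3 : (2 : ℝ) ≤ 2 ^ n := by
    calc (2 : ℝ) = 2 ^ 1 := by norm_num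
      _ ≤ 2 ^ n := pow_le_pow_right₀ (by norm_num) hn
  nlinarith [G_nonneg c z]

/-- a closed condition on periodic points passes to the limit parameter -/
lemma cluster {n : ℕ} (hn : 0 < n) {c : ℂ → ℂ} {L : ℂ} (hc : ContinuousAt c L)
    {P : ℂ → ℂ → Prop} (h : ∃ᶠ L' in 𝓝 L, ∃ z, (c L', z) ∈ Per n ∧ P L' z) :
    ∃ z, ∃ᶠ p : ℂ × ℂ in 𝓝 (L, z), (c p.1, p.2) ∈ Per n ∧ P p.1 p.2 := by
  by_contra hcon
  push Not at hcon
  have h1 : ∀ z ∈ closedBall (0 : ℂ) (2 + ‖c L‖),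
      ∀ᶠ p : ℂ × ℂ in 𝓝 (L, z), ¬ ((c p.1, p.2) ∈ Per n ∧ P p.1 p.2) := fun z _ =>
    (hcon z).mono fun p hp hh => hp hh.1 hh.2
  have h2 := (isCompact_closedBall (0 : ℂ) (2 + ‖c L‖)).eventually_forall_of_forall_eventually
    (P := fun L' z => ¬ ((c L', z) ∈ Per n ∧ P L' z)) h1
  have h3 : ∀ᶠ L' in 𝓝 L, ‖c L'‖ < 1 + ‖c L‖ := hc.norm.eventually (gt_mem_nhds (by linarith))
  obtain ⟨L', ⟨z, h4, h5⟩, h6, h7⟩ := (h.and_eventually (h2.and h3)).exists
  refine h6 z ?_ ⟨h4, h5⟩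
  rw [mem_closedBall_zero_iff]
  have := norm_le_of_per hn h4
  linarith

section

variable {D : Dat}

lemma pair_contAt (hP : D.Par) {L : ℂ} (hL : L ∈ D.B) (z : ℂ) :
    ContinuousAt (fun p : ℂ × ℂ => ((D.c p.1, p.2) : ℂ × ℂ)) (L, z) := by
  refine ContinuousAt.prodMk ?_ continuousAt_snd
  exact ContinuousAt.comp (f := Prod.fst) (g := D.c) (x := ((L, z) : ℂ × ℂ)) (c_contAt hP hL)
    continuousAt_fst

/-- the points over `L` which are not attracting and have the label of the child -/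
def NN (D : Dat) (L : ℂ) : Set ℂ :=
  {z | (D.c L, z) ∈ Per D.n ∧ 1 ≤ ‖mul D.n (D.c L, z)‖ ∧ mul D.n (D.c L, z) ≠ 1 ∧
    (D.c L, z) ∈ closure (NJ D.n D.J)}

/-- the attracting points over `L` -/
def AA (D : Dat) (L : ℂ) : Set ℂ :=
  {z | (D.c L, z) ∈ Per D.n ∧ ‖mul D.n (D.c L, z)‖ < 1}

/-- the family inside the wake -/
def ZI (D : Dat) (L : ℂ) : Set ℂ :=
  {z | (∃ z₀ ∈ NN D L, ∃ i, z = it (D.c L) i z₀) ∨ (NN D L = ∅ ∧ z ∈ AA D L)}

/-- over the wake, repelling limits of `NJ` are in `NJ` -/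
lemma nj_of_closure (h2 : S2_unique) (h3 : S3_closed) (hP : D.Par) (hC : D.Cir)
    (hR : Regions D) {L z : ℂ} (hL : L ∈ D.RI) (h : (D.c L, z) ∈ Per D.n)
    (h1 : 1 < ‖mul D.n (D.c L, z)‖) (hcl : (D.c L, z) ∈ closure (NJ D.n D.J)) :
    (D.c L, z) ∈ NJ D.n D.J := by
  by_cases hM : D.c L ∈ MM
  · exact h3 D.n D.J _ (Par_n_pos hP) h h1 hM hcl
  · obtain ⟨θ, hθ⟩ := hP.ang L (U_sub_B hP hL.1) hM
    exact nj_of_ext hP hC hL hθ (closure_nj_ext h2 hP hC hR hL hθ h hcl)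

/-- a neighbourhood of a pair over the wake consists of pairs over the wake -/
lemma wake_nhds (hP : D.Par) (hR : Regions D) {L z : ℂ} (hL : L ∈ D.RI) :
    (D.c '' D.RI) ×ˢ (univ : Set ℂ) ∈ 𝓝 (D.c L, z) := by
  refine prod_mem_nhds ?_ univ_mem
  rw [← c_map_nhds hP (U_sub_B hP hL.1)]
  exact image_mem_map (hR.openI.mem_nhds hL)

lemma closure_per {n : ℕ} {J : Lab n} {y : ℂ × ℂ} (h : y ∈ closure (NJ n J)) :
    y ∈ Per n ∧ 1 ≤ ‖mul n y‖ := by
  have h1 : closure (NJ n J) ⊆ Per n ∩ {y | 1 ≤ ‖mul n y‖} := by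
    refine closure_minimal ?_ ((isClosed_Per n).inter ?_)
    · rintro y ⟨h1, h2, -⟩
      exact ⟨h1, h2.le⟩
    · exact isClosed_le continuous_const (continuous_mul' n).norm
  exact h1 h

/-- **limit lemma**: over the wake all limits of `NJ` are in `NN` -/
lemma closure_NN (h2 : S2_unique) (h3 : S3_closed) (h8 : S8_side) (hP : D.Par) (hC : D.Cir)
    (hR : Regions D) {L z : ℂ} (hL : L ∈ D.RI) (hcl : (D.c L, z) ∈ closure (NJ D.n D.J)) :
    z ∈ NN D L := by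
  obtain ⟨h4, h5⟩ := closure_per hcl
  refine ⟨h4, h5, ?_, hcl⟩
  intro h6
  have h7 := h8 D.n D.J (D.c L, z) _ (Par_n_pos hP) h4 h6 (wake_nhds hP hR hL) (by
    rintro ⟨y1, y2⟩ ⟨⟨L', hL', rfl⟩, -⟩ h7 h8 h9
    exact nj_of_closure h2 h3 hP hC hR hL' h7 h8 h9)
  exact (mem_closure_iff_frequently.1 hcl) h7

lemma exists_phi {μ : ℂ} (h : ‖μ‖ = 1) (h1 : μ ≠ 1) :
    ∃ φ : ℝ, 0 < φ ∧ φ < 1 ∧ μ = exp (2 * Real.pi * φ * I) := by
  have hμ : μ = exp (arg μ * I) := by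
    have := norm_mul_exp_arg_mul_I μ
    rw [h] at this
    simpa using this.symm
  have hpi := Real.pi_pos
  have ha0 : arg μ ≠ 0 := by
    intro h0
    rw [h0] at hμ
    simp at hμ
    exact h1 hμ
  rcases lt_or_gt_of_ne ha0 with h2 | h2
  · refine ⟨arg μ / (2 * Real.pi) + 1, ?_, ?_, ?_⟩
    · have h3 := neg_pi_lt_arg μ
      have : -(1 / 2) < arg μ / (2 * Real.pi) := by
        rw [lt_div_iff₀ (by positivity)]; linarith
      linarith
    · have : arg μ / (2 * Real.pi) < 0 := div_neg_of_neg_of_pos h2 (by positivity)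
      linarith
    · have h3 : (2 * Real.pi * ((arg μ / (2 * Real.pi) + 1 : ℝ) : ℂ) * I) =
          arg μ * I + 2 * Real.pi * I := by
        push_cast
        have : (Real.pi : ℂ) ≠ 0 := by exact_mod_cast hpi.ne'
        field_simp
      rw [h3, exp_periodic]
      exact hμ
  · refine ⟨arg μ / (2 * Real.pi), by positivity, ?_, ?_⟩
    · rw [div_lt_one (by positivity)]
      have h3 := arg_le_pi μ
      linarith
    · have h3 : (2 * Real.pi * ((arg μ / (2 * Real.pi) : ℝ) : ℂ) * I) = arg μ * I := by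
        push_cast
        have : (Real.pi : ℂ) ≠ 0 := by exact_mod_cast hpi.ne'
        field_simp
      rw [h3]
      exact hμ

/-- persistence of `NN` along the curve, as long as the pair is not attracting -/
lemma NN_nhds (h2 : S2_unique) (h3 : S3_closed) (h3' : S3_neutral) (hP : D.Par) (hC : D.Cir)
    (hR : Regions D) {L z : ℂ} (hL : L ∈ D.RI) (hz : z ∈ NN D L) :
    ∀ᶠ p : ℂ × ℂ in 𝓝 (L, z), (D.c p.1, p.2) ∈ Per D.n → 1 ≤ ‖mul D.n (D.c p.1, p.2)‖ →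
      p.2 ∈ NN D p.1 := by
  obtain ⟨hz1, hz2, hz3, hz4⟩ := hz
  have hn := Par_n_pos hP
  have hB := U_sub_B hP hL.1
  have hcont := pair_contAt hP hB z
  have hne : ∀ᶠ y in 𝓝 (D.c L, z), mul D.n y ≠ 1 :=
    (continuous_mul' D.n).continuousAt.eventually (isOpen_ne.mem_nhds hz3)
  have key : ∀ᶠ y in 𝓝 (D.c L, z), y ∈ Per D.n → 1 ≤ ‖mul D.n y‖ → y ∈ closure (NJ D.n D.J) := by
    rcases hz2.lt_or_eq with h1 | h1
    · have h5 := nj_of_closure h2 h3 hP hC hR hL hz1 h1 hz4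
      have h6 := FF_nhds_gen hn hz1 h1 h5.2.2.1
      have h7 : ∀ᶠ y in 𝓝 (D.c L, z), 1 < ‖mul D.n y‖ :=
        (continuous_mul' D.n).norm.continuousAt.eventually (lt_mem_nhds h1)
      filter_upwards [h6, h7] with y h8 h9 h10 _
      obtain ⟨h11, h12⟩ := h8 h10
      exact subset_closure ⟨h10, h9, h12, by rw [h11]; exact h5.2.2.2⟩
    · obtain ⟨φ, hφ0, hφ1, hφ⟩ := exists_phi h1.symm hz3
      obtain ⟨⟨J', hJ'⟩, -, -⟩ := h3' D.n (D.c L, z) φ hn hz1 hφ0 hφ1 hφ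
      have hJ : J' = D.J := by
        obtain ⟨y, h5, h6⟩ := ((mem_closure_iff_frequently.1 hz4).and_eventually hJ').exists
        have h7 := h6 h5.1 h5.2.1
        rw [← h7.2.2.2, h5.2.2.2]
      subst hJ
      have h23 : ∀ᶠ y in 𝓝 (D.c L, z), ‖mul D.n y‖ < 23 / 10 :=
        (continuous_mul' D.n).norm.continuousAt.eventually (gt_mem_nhds (by
          show ‖mul D.n (D.c L, z)‖ < 23 / 10
          rw [← h1]; norm_num))
      filter_upwards [hJ', eventually_eventually_nhds.2 hJ', hne, h23] with y h5 h6 h7 h8 h9 h10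
      rcases h10.lt_or_eq with h11 | h11
      · exact subset_closure (h5 h9 h11)
      · rw [mem_closure_iff_nhds]
        intro t ht
        have h12 := mul_open hn h9 h7 h8 (inter_mem ht h6)
        -- a repelling value close to `mul n y`
        have h13 : ∃ᶠ w in 𝓝 (mul D.n y), 1 < ‖w‖ := by
          have h14 : mul D.n y ≠ 0 := by
            intro h0; rw [h0] at h11; simp at h11
          have h15 : Tendsto (fun s : ℝ => ((1 + s : ℝ) : ℂ) * mul D.n y) (𝓝[>] 0)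
              (𝓝 (mul D.n y)) := by
            have h16 : Continuous fun s : ℝ => ((1 + s : ℝ) : ℂ) * mul D.n y := by fun_prop
            have h17 := h16.tendsto 0
            simp only [add_zero, ofReal_one, one_mul] at h17
            exact h17.mono_left nhdsWithin_le_nhds
          refine h15.frequently (Eventually.frequently ?_)
          filter_upwards [self_mem_nhdsWithin] with s hs
          have hs' : (0 : ℝ) < s := hs
          rw [norm_mul, ← h11, mul_one, norm_real, Real.norm_eq_abs, abs_of_pos (by linarith)]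
          linarith
        obtain ⟨w, h14, x', ⟨⟨hx't, hx'J⟩, hx'P⟩, hx'm⟩ := (h13.and_eventually h12).exists
        exact ⟨x', hx't, hx'J hx'P (by rw [hx'm]; exact h14)⟩
  filter_upwards [hcont.eventually key, hcont.eventually hne] with p h5 h6 h7 h8
  exact ⟨h7, h8, h6, h5 h7 h8⟩

/-- near `L` all points of `NN` are near the points of `NN D L` -/
lemma NN_limit (h2 : S2_unique) (h3 : S3_closed) (h8 : S8_side) (hP : D.Par) (hC : D.Cir)
    (hR : Regions D) {L : ℂ} (hL : L ∈ D.RI) {N : Set (ℂ × ℂ)} (hN : ∀ z ∈ NN D L, N ∈ 𝓝 (L, z)) :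
    ∀ᶠ L' in 𝓝 L, ∀ z' ∈ NN D L', (L', z') ∈ N := by
  by_contra hcon
  have h4 : ∃ᶠ L' in 𝓝 L, ∃ z', (D.c L', z') ∈ Per D.n ∧ (z' ∈ NN D L' ∧ (L', z') ∉ N) := by
    rw [not_eventually] at hcon
    refine hcon.mono fun L' h => ?_
    push Not at h
    obtain ⟨z', h5, h6⟩ := h
    exact ⟨z', h5.1, h5, h6⟩
  have hB := U_sub_B hP hL.1
  obtain ⟨z, hz⟩ := cluster (Par_n_pos hP) (c_contAt hP hB) h4
  have hzN : z ∈ NN D L := by
    refine closure_NN h2 h3 h8 hP hC hR hL ?_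
    rw [← closure_closure, mem_closure_iff_frequently]
    refine (pair_contAt hP hB z).tendsto.frequently (hz.mono ?_)
    rintro p ⟨-, h5, -⟩
    exact h5.2.2.2
  obtain ⟨p, h5, h6⟩ := (hz.and_eventually (hN z hzN)).exists
  exact h5.2.2 h6

/-- exterior parameters near a frontier parameter -/
lemma frequently_ext (hP : D.Par) {L : ℂ} (hB : L ∈ D.B) (h : ∃ᶠ c in 𝓝 (D.c L), c ∉ MM) :
    ∃ᶠ L' in 𝓝 L, D.c L' ∉ MM := by
  rw [← c_map_nhds hP hB] at h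
  exact frequently_map.1 h

/-- uniqueness at frontier parameters -/
lemma NN_unique_frontier (h2 : S2_unique) (h3 : S3_closed) (h3' : S3_neutral) (hP : D.Par)
    (hC : D.Cir) (hR : Regions D) {L z z' : ℂ} (hL : L ∈ D.RI) (hz : z ∈ NN D L)
    (hz' : z' ∈ NN D L) (hfr : ∃ᶠ L' in 𝓝 L, D.c L' ∉ MM) : z = z' := by
  by_contra hne
  have hB := U_sub_B hP hL.1
  have hn := Par_n_pos hP
  obtain ⟨β, hβa, hβ0, hβ⟩ := chart hz.1 hz.2.2.1
  obtain ⟨β', hβa', hβ0', hβ'⟩ := chart hz'.1 hz'.2.2.1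
  simp only at hβ0 hβ0' hβa hβa'
  have hc := c_contAt hP hB
  -- the continuations over `L'`
  have hcont : ∀ {γ : ℂ → ℂ} {y : ℂ}, AnalyticAt ℂ γ (D.c L) → γ (D.c L) = y →
      Tendsto (fun L' => ((L', γ (D.c L')) : ℂ × ℂ)) (𝓝 L) (𝓝 (L, y)) := by
    intro γ y hγ hγ0
    have h1 : Tendsto (fun L' => γ (D.c L')) (𝓝 L) (𝓝 (γ (D.c L))) :=
      hγ.continuousAt.tendsto.comp hc.tendsto
    rw [hγ0] at h1
    exact tendsto_id.prodMk_nhds h1
  have hcont2 : ∀ {γ : ℂ → ℂ} {y : ℂ}, AnalyticAt ℂ γ (D.c L) → γ (D.c L) = y →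
      Tendsto (fun L' => ((D.c L', γ (D.c L')) : ℂ × ℂ)) (𝓝 L) (𝓝 (D.c L, y)) := by
    intro γ y hγ hγ0
    have h1 : Tendsto (fun L' => γ (D.c L')) (𝓝 L) (𝓝 (γ (D.c L))) :=
      hγ.continuousAt.tendsto.comp hc.tendsto
    rw [hγ0] at h1
    exact hc.tendsto.prodMk_nhds h1
  have e1 := (hcont hβa hβ0).eventually (NN_nhds h2 h3 h3' hP hC hR hL hz)
  have e1' := (hcont hβa' hβ0').eventually (NN_nhds h2 h3 h3' hP hC hR hL hz')
  have e2 := (hcont2 hβa hβ0).eventually hβ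
  have e2' := (hcont2 hβa' hβ0').eventually hβ'
  have e3 : ∀ᶠ L' in 𝓝 L, β (D.c L') ≠ β' (D.c L') := by
    have h1 : Tendsto (fun L' => β (D.c L')) (𝓝 L) (𝓝 z) := by
      rw [← hβ0]; exact hβa.continuousAt.tendsto.comp hc.tendsto
    have h1' : Tendsto (fun L' => β' (D.c L')) (𝓝 L) (𝓝 z') := by
      rw [← hβ0']; exact hβa'.continuousAt.tendsto.comp hc.tendsto
    filter_upwards [(h1.sub h1').eventually_ne (sub_ne_zero.2 hne)] with L' h9
    exact sub_ne_zero.1 h9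
  obtain ⟨L', hM, h5, h5', h6, h6', h7, h8⟩ :=
    (hfr.and_eventually (e1.and (e1'.and (e2.and (e2'.and
      (e3.and (hR.openI.mem_nhds hL))))))).exists
  simp only at h5 h5'
  have p1 : (D.c L', β (D.c L')) ∈ Per D.n := h6.2 rfl
  have p1' : (D.c L', β' (D.c L')) ∈ Per D.n := h6'.2 rfl
  have r1 := rep13 hn p1 hM
  have r1' := rep13 hn p1' hM
  have n1 := nj_of_closure h2 h3 hP hC hR h8 p1 r1 (h5 p1 r1.le).2.2.2
  have n1' := nj_of_closure h2 h3 hP hC hR h8 p1' r1' (h5' p1' r1'.le).2.2.2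
  exact h7 (h2 D.n (D.c L') _ _ hn hM p1 p1' n1.2.2.1 n1'.2.2.1 (by rw [n1.2.2.2, n1'.2.2.2]))

/-- the good parameters -/
def VV (D : Dat) : Set ℂ :=
  {L ∈ D.RI | (NN D L).Subsingleton ∧ (NN D L = ∅ → (AA D L).Nonempty)}

/-- points over `L'` near an attracting point -/
lemma AA_nhds (hP : D.Par) {L z : ℂ} (hB : L ∈ D.B) (hz : z ∈ AA D L) :
    (∀ᶠ p : ℂ × ℂ in 𝓝 (L, z), (D.c p.1, p.2) ∈ Per D.n → p.2 ∈ AA D p.1) ∧
      ∀ᶠ L' in 𝓝 L, (AA D L').Nonempty := by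
  have h1 : ∀ᶠ p : ℂ × ℂ in 𝓝 (L, z), ‖mul D.n (D.c p.1, p.2)‖ < 1 :=
    (pair_contAt hP hB z).tendsto.eventually
      ((continuous_mul' D.n).norm.continuousAt.eventually (gt_mem_nhds hz.2))
  have h2 : ∀ᶠ p : ℂ × ℂ in 𝓝 (L, z), (D.c p.1, p.2) ∈ Per D.n → p.2 ∈ AA D p.1 :=
    h1.mono fun p h3 h4 => ⟨h4, h3⟩
  refine ⟨h2, ?_⟩
  have hne : mul D.n (D.c L, z) ≠ 1 := by
    intro h0
    have := hz.2
    rw [h0] at this
    simp at this
  obtain ⟨β, hβa, hβ0, hβ⟩ := chart hz.1 hne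
  simp only at hβ0 hβa
  have hc := c_contAt hP hB
  have h3 : Tendsto (fun L' => β (D.c L')) (𝓝 L) (𝓝 z) := by
    rw [← hβ0]; exact hβa.continuousAt.tendsto.comp hc.tendsto
  have h4 : Tendsto (fun L' => ((L', β (D.c L')) : ℂ × ℂ)) (𝓝 L) (𝓝 (L, z)) :=
    tendsto_id.prodMk_nhds h3
  have h5 : Tendsto (fun L' => ((D.c L', β (D.c L')) : ℂ × ℂ)) (𝓝 L) (𝓝 (D.c L, z)) :=
    hc.tendsto.prodMk_nhds h3
  filter_upwards [h4.eventually h2, h5.eventually hβ] with L' h6 h7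
  exact ⟨β (D.c L'), h6 (h7.2 rfl)⟩

/-- near a point of `NN D L` (the only one) the points of the curve are the points of `NN`, or
attracting, and then `NN` is empty -/
lemma NN_struct (h2 : S2_unique) (h3 : S3_closed) (h3' : S3_neutral) (h8 : S8_side) (hP : D.Par)
    (hC : D.Cir) (hR : Regions D) {L z : ℂ} (hL : L ∈ D.RI) (hz : z ∈ NN D L)
    (hsub : (NN D L).Subsingleton) :
    (∀ᶠ p : ℂ × ℂ in 𝓝 (L, z), (D.c p.1, p.2) ∈ Per D.n →
      (p.2 ∈ NN D p.1 ∨ (NN D p.1 = ∅ ∧ p.2 ∈ AA D p.1))) ∧ ∀ᶠ L' in 𝓝 L, L' ∈ VV D := by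
  have hB := U_sub_B hP hL.1
  obtain ⟨β, hβa, hβ0, hβ⟩ := chart hz.1 hz.2.2.1
  simp only at hβ0 hβa
  have hc := c_contAt hP hB
  -- on `N` the curve is the graph of `β`
  have h4 : ∀ᶠ p : ℂ × ℂ in 𝓝 (L, z), ((D.c p.1, p.2) ∈ Per D.n ↔ β (D.c p.1) = p.2) :=
    (pair_contAt hP hB z).tendsto.eventually hβ
  have h5 : ∀ᶠ L' in 𝓝 L, ∀ z' ∈ NN D L',
      (L', z') ∈ {p : ℂ × ℂ | (D.c p.1, p.2) ∈ Per D.n ↔ β (D.c p.1) = p.2} := by
    refine NN_limit h2 h3 h8 hP hC hR hL fun z' hz' => ?_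
    rw [hsub hz' hz]
    exact h4
  have h5' : ∀ᶠ L' in 𝓝 L, ∀ z' ∈ NN D L', z' = β (D.c L') := by
    filter_upwards [h5] with L' h6 z' hz'
    exact ((h6 z' hz').1 hz'.1).symm
  have h6 := NN_nhds h2 h3 h3' hP hC hR hL hz
  have h7 : ∀ᶠ p : ℂ × ℂ in 𝓝 (L, z), (D.c p.1, p.2) ∈ Per D.n →
      (p.2 ∈ NN D p.1 ∨ (NN D p.1 = ∅ ∧ p.2 ∈ AA D p.1)) := by
    filter_upwards [h4, h6, (continuousAt_fst (p := ((L, z) : ℂ × ℂ))).tendsto.eventually h5']
      with p h8 h9 h10 h11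
    rcases le_or_gt 1 ‖mul D.n (D.c p.1, p.2)‖ with h12 | h12
    · exact Or.inl (h9 h11 h12)
    · refine Or.inr ⟨?_, h11, h12⟩
      rw [eq_empty_iff_forall_notMem]
      intro z' hz'
      have h13 := h10 z' hz'
      rw [h8.1 h11] at h13
      subst h13
      exact absurd hz'.2.1 (not_le.2 h12)
  refine ⟨h7, ?_⟩
  have h8 : Tendsto (fun L' => β (D.c L')) (𝓝 L) (𝓝 z) := by
    rw [← hβ0]; exact hβa.continuousAt.tendsto.comp hc.tendsto
  have h9 : Tendsto (fun L' => ((L', β (D.c L')) : ℂ × ℂ)) (𝓝 L) (𝓝 (L, z)) :=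
    tendsto_id.prodMk_nhds h8
  have h10 : Tendsto (fun L' => ((D.c L', β (D.c L')) : ℂ × ℂ)) (𝓝 L) (𝓝 (D.c L, z)) :=
    hc.tendsto.prodMk_nhds h8
  filter_upwards [h9.eventually h7, h10.eventually hβ, h5', hR.openI.mem_nhds hL] with L' h11 h12
    h13 h14
  refine ⟨h14, ?_, ?_⟩
  · intro z₁ h15 z₂ h16
    rw [h13 z₁ h15, h13 z₂ h16]
  · intro h15
    rcases h11 (h12.2 rfl) with h16 | h16
    · rw [h15] at h16; exact absurd h16 (notMem_empty _)
    · exact ⟨_, h16.2⟩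

lemma NN_empty_nhds (h2 : S2_unique) (h3 : S3_closed) (h8 : S8_side) (hP : D.Par)
    (hC : D.Cir) (hR : Regions D) {L : ℂ} (hL : L ∈ D.RI) (h : NN D L = ∅) :
    ∀ᶠ L' in 𝓝 L, NN D L' = ∅ := by
  have h1 := NN_limit h2 h3 h8 hP hC hR hL (N := ∅) (by
    intro z hz; rw [h] at hz; exact absurd hz (notMem_empty _))
  filter_upwards [h1] with L' h4
  rw [eq_empty_iff_forall_notMem]
  exact fun z hz => h4 z hz

lemma NN_ext_iff (h2 : S2_unique) (hP : D.Par) (hC : D.Cir) (hR : Regions D) {L z : ℂ} {θ : ℝ}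
    (hL : L ∈ D.RI) (h : D.Th L θ) : z ∈ NN D L ↔ ExtP D.n (D.c L) z θ D.u := by
  constructor
  · rintro hz
    exact closure_nj_ext h2 hP hC hR hL h hz.1 hz.2.2.2
  · intro hz
    have h4 := nj_of_ext hP hC hL h hz
    refine ⟨h4.1, h4.2.1.le, ?_, subset_closure h4⟩
    intro h0
    have := h4.2.1
    rw [h0] at this
    simp at this

/-- **all parameters of the wake are good** -/
theorem VV_eq (h2 : S2_unique) (h3 : S3_closed) (h3' : S3_neutral) (h7 : S7_parab)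
    (h8 : S8_side) (hP : D.Par) (hC : D.Cir) (hR : Regions D) {L : ℂ} (hL : L ∈ D.RI) :
    L ∈ VV D := by
  -- `VV` is open
  have hopen : ∀ L ∈ VV D, ∀ᶠ L' in 𝓝 L, L' ∈ VV D := by
    rintro L ⟨hL, h4, h5⟩
    rcases (NN D L).eq_empty_or_nonempty with h6 | ⟨z, hz⟩
    · obtain ⟨z, hz⟩ := h5 h6
      filter_upwards [NN_empty_nhds h2 h3 h8 hP hC hR hL h6, (AA_nhds hP (U_sub_B hP hL.1) hz).2,
        hR.openI.mem_nhds hL] with L' h9 h10 h11
      refine ⟨h11, ?_, fun _ => h10⟩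
      rw [h9]; exact subsingleton_empty
    · exact (NN_struct h2 h3 h3' h8 hP hC hR hL hz h4).2
  -- and closed in the wake
  have hclosed : ∀ L ∈ D.RI, L ∈ closure (VV D) → L ∈ VV D := by
    intro L hL hcl
    have hB := U_sub_B hP hL.1
    have hn := Par_n_pos hP
    have hfreq : ∃ᶠ L' in 𝓝 L, L' ∈ VV D := mem_closure_iff_frequently.1 hcl
    have hc := c_contAt hP hB
    refine ⟨hL, ?_, ?_⟩
    · intro z hz z' hz'
      by_contra hne
      have hfr : ¬ ∃ᶠ L' in 𝓝 L, D.c L' ∉ MM := fun hfr =>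
        hne (NN_unique_frontier h2 h3 h3' hP hC hR hL hz hz' hfr)
      -- both are repelling
      have hrep : ∀ y ∈ NN D L, 1 < ‖mul D.n (D.c L, y)‖ := by
        intro y hy
        rcases hy.2.1.lt_or_eq with h9 | h9
        · exact h9
        · exfalso
          obtain ⟨φ, hφ0, hφ1, hφ⟩ := exists_phi h9.symm hy.2.2.1
          obtain ⟨-, -, h10⟩ := h3' D.n (D.c L, y) φ hn hy.1 hφ0 hφ1 hφ
          exact hfr (frequently_ext hP hB h10)
      have hpers : ∀ y ∈ NN D L, ∃ γ : ℂ → ℂ, Tendsto γ (𝓝 L) (𝓝 y) ∧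
          ∀ᶠ L' in 𝓝 L, γ L' ∈ NN D L' := by
        intro y hy
        obtain ⟨β, hβa, hβ0, hβ⟩ := chart hy.1 hy.2.2.1
        simp only at hβ0 hβa
        have h9 : Tendsto (fun L' => β (D.c L')) (𝓝 L) (𝓝 y) := by
          rw [← hβ0]; exact hβa.continuousAt.tendsto.comp hc.tendsto
        have h10 : Tendsto (fun L' => ((L', β (D.c L')) : ℂ × ℂ)) (𝓝 L) (𝓝 (L, y)) :=
          tendsto_id.prodMk_nhds h9
        have h11 : Tendsto (fun L' => ((D.c L', β (D.c L')) : ℂ × ℂ)) (𝓝 L) (𝓝 (D.c L, y)) :=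
          hc.tendsto.prodMk_nhds h9
        refine ⟨fun L' => β (D.c L'), h9, ?_⟩
        have h12 : ∀ᶠ L' in 𝓝 L, 1 < ‖mul D.n (D.c L', β (D.c L'))‖ :=
          h11.eventually ((continuous_mul' D.n).norm.continuousAt.eventually
            (lt_mem_nhds (hrep y hy)))
        filter_upwards [h10.eventually (NN_nhds h2 h3 h3' hP hC hR hL hy), h11.eventually hβ, h12]
          with L' h13 h14 h15
        exact h13 (h14.2 rfl) h15.le
      obtain ⟨γ, hγ, hγ'⟩ := hpers z hz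
      obtain ⟨γ', hγ₁, hγ₁'⟩ := hpers z' hz'
      have h9 : ∀ᶠ L' in 𝓝 L, γ L' - γ' L' ≠ 0 := (hγ.sub hγ₁).eventually_ne (sub_ne_zero.2 hne)
      obtain ⟨L', h10, h11, h12, h13⟩ :=
        (hfreq.and_eventually (hγ'.and (hγ₁'.and h9))).exists
      exact h13 (sub_eq_zero.2 (h10.2.1 h11 h12))
    · intro hem
      have h9 := NN_empty_nhds h2 h3 h8 hP hC hR hL hem
      have h10 : ∃ᶠ L' in 𝓝 L, ∃ z, (D.c L', z) ∈ Per D.n ∧ ‖mul D.n (D.c L', z)‖ < 1 := by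
        refine (hfreq.and_eventually h9).mono ?_
        rintro L' ⟨h11, h12⟩
        obtain ⟨z, hz⟩ := h11.2.2 h12
        exact ⟨z, hz.1, hz.2⟩
      obtain ⟨z, hz⟩ := cluster hn hc h10
      have hcont := pair_contAt hP hB z
      have hz' : ∃ᶠ s in 𝓝 (D.c L, z), s ∈ Per D.n ∧ ‖mul D.n s‖ < 1 :=
        hcont.tendsto.frequently hz
      have h11 : (D.c L, z) ∈ Per D.n ∩ {s | ‖mul D.n s‖ ≤ 1} := by
        have h12 : (D.c L, z) ∈ closure (Per D.n ∩ {s | ‖mul D.n s‖ ≤ 1}) :=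
          mem_closure_iff_frequently.2 (hz'.mono fun s hs => ⟨hs.1, hs.2.le⟩)
        exact ((isClosed_Per D.n).inter
          (isClosed_le (continuous_mul' D.n).norm continuous_const)).closure_eq ▸ h12
      rcases (show ‖mul D.n (D.c L, z)‖ ≤ 1 from h11.2).lt_or_eq with h12 | h12
      · exact ⟨z, h11.1, h12⟩
      · exfalso
        have hfr : ∃ᶠ c in 𝓝 (D.c L), c ∉ MM := by
          by_cases h13 : mul D.n (D.c L, z) = 1
          · exact h7 D.n (D.c L, z) hn h11.1 h13 hz'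
          · obtain ⟨φ, hφ0, hφ1, hφ⟩ := exists_phi h12 h13
            exact (h3' D.n (D.c L, z) φ hn h11.1 hφ0 hφ1 hφ).2.2
        obtain ⟨L', h13, h14, h15⟩ := ((frequently_ext hP hB hfr).and_eventually
          (h9.and (hR.openI.mem_nhds hL))).exists
        obtain ⟨θ, hθ⟩ := hP.ang L' (U_sub_B hP h15.1) h13
        obtain ⟨y, hy⟩ := exists_u hP hC hθ
        have h16 := (NN_ext_iff h2 hP hC hR h15 hθ).2 hy
        rw [h14] at h16
        exact absurd h16 (notMem_empty _)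
  by_contra hcon
  have hV'o : IsOpen (D.RI \ VV D) := by
    rw [isOpen_iff_mem_nhds]
    rintro L' ⟨h9, h10⟩
    have h11 : L' ∉ closure (VV D) := fun h => h10 (hclosed L' h9 h)
    filter_upwards [hR.openI.mem_nhds h9, isClosed_closure.isOpen_compl.mem_nhds h11] with L'' h12
      h13
    exact ⟨h12, fun h => h13 (subset_closure h)⟩
  obtain ⟨L', ⟨h9, h10⟩, h11⟩ := hR.meetI (D.RI \ VV D) sdiff_subset ⟨L, hL, hcon⟩ hV'o (by
    intro L' h9 h10
    refine ⟨h9, fun h11 => ?_⟩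
    obtain ⟨L'', h12, h13⟩ := ((mem_closure_iff_frequently.1 h10).and_eventually
      (hopen L' h11)).exists
    exact h12.2 h13)
  apply h10
  obtain ⟨θ, hθ⟩ := hP.ang L' (U_sub_B hP h9.1) h11.2
  obtain ⟨y, hy⟩ := exists_u hP hC hθ
  refine ⟨h9, ?_, ?_⟩
  · intro z₁ h12 z₂ h13
    rw [NN_ext_iff h2 hP hC hR h9 hθ] at h12 h13
    exact extP_inj (Par_n_pos hP) h12 h13
  · intro h12
    have h13 := (NN_ext_iff h2 hP hC hR h9 hθ).2 hy
    rw [h12] at h13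
    exact absurd h13 (notMem_empty _)

lemma ZI_it (_hP : D.Par) {L z : ℂ} (hz : z ∈ ZI D L) (i : ℕ) : it (D.c L) i z ∈ ZI D L := by
  rcases hz with ⟨z₀, h1, j, rfl⟩ | ⟨h1, h2⟩
  · exact Or.inl ⟨z₀, h1, i + j, it_comp _ _ _ _⟩
  · exact Or.inr ⟨h1, Per_it h2.1 i, by rw [mul_it' h2.1 i]; exact h2.2⟩

/-- **the inner part** -/
theorem cycI (h2 : S2_unique) (h3 : S3_closed) (h3' : S3_neutral) (h7 : S7_fatou)
    (h7' : S7_parab) (h8 : S8_side) (hP : D.Par) (hC : D.Cir) (hR : Regions D) :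
    CycFam D.n D.c D.RI (ZI D) where
  ne := by
    intro L hL
    obtain ⟨-, h4, h5⟩ := VV_eq h2 h3 h3' h7' h8 hP hC hR hL
    rcases (NN D L).eq_empty_or_nonempty with h6 | ⟨z, hz⟩
    · obtain ⟨z, hz⟩ := h5 h6
      exact ⟨z, Or.inr ⟨h6, hz⟩⟩
    · exact ⟨z, Or.inl ⟨z, hz, 0, rfl⟩⟩
  fix := by
    rintro L hL z (⟨z₀, h4, i, rfl⟩ | ⟨h4, h5⟩)
    · refine ⟨Per_it h4.1 i, ?_⟩
      rw [mul_it' h4.1 i]
      exact h4.2.2.1
    · refine ⟨h5.1, fun h0 => ?_⟩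
      have := h5.2
      rw [h0] at this
      simp at this
  cyc := by
    intro L hL z hz z'
    have hn := Par_n_pos hP
    obtain ⟨-, h4, h5⟩ := VV_eq h2 h3 h3' h7' h8 hP hC hR hL
    constructor
    · intro hz'
      rcases hz with ⟨z₀, h6, i, rfl⟩ | ⟨h6, h9⟩
      · rcases hz' with ⟨z₁, h10, j, rfl⟩ | ⟨h10, -⟩
        · have h11 := h4 h6 h10
          subst h11
          refine ⟨j + (D.n * i - i), ?_⟩
          rw [it_add, it_back hn h6.1 i]
        · rw [h10] at h6; exact absurd h6 (notMem_empty _)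
      · rcases hz' with ⟨z₁, h10, j, rfl⟩ | ⟨-, h10⟩
        · rw [h6] at h10; exact absurd h10 (notMem_empty _)
        · exact h7 (D.c L) z z' D.n D.n hn hn h9.1 h9.2 h10.1 h10.2
    · rintro ⟨i, rfl⟩
      exact ZI_it hP hz i
  cont := by
    intro L hL z hz
    have hn := Par_n_pos hP
    have hB := U_sub_B hP hL.1
    obtain ⟨-, h4, h5⟩ := VV_eq h2 h3 h3' h7' h8 hP hC hR hL
    rcases hz with ⟨z₀, h6, i, rfl⟩ | ⟨h6, h9⟩
    · refine cont_of_branch hn i (c_contAt hP hB) h6.1 ?_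
        (Eventually.of_forall fun L' z hz i => ZI_it hP hz i)
      filter_upwards [(NN_struct h2 h3 h3' h8 hP hC hR hL h6 h4).1] with p h10 h11
      rcases h10 h11 with h12 | h12
      · exact Or.inl ⟨p.2, h12, 0, rfl⟩
      · exact Or.inr h12
    · filter_upwards [(AA_nhds hP hB h9).1,
        (continuousAt_fst (p := ((L, z) : ℂ × ℂ))).tendsto.eventually
          (NN_empty_nhds h2 h3 h8 hP hC hR hL h6)] with p h10 h11 h12
      exact Or.inr ⟨h11, h10 h12⟩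

theorem ZI_eq_ZE (h2 : S2_unique) (hP : D.Par) (hC : D.Cir) (hR : Regions D) {L : ℂ}
    (hL : L ∈ D.RI ∩ D.RE) : ZI D L = D.ZE L := by
  obtain ⟨θ, hθ⟩ := hP.ang L (U_sub_B hP hL.1.1) hL.2.2
  obtain ⟨y, hy⟩ := exists_u hP hC hθ
  have hy' := (NN_ext_iff h2 hP hC hR hL.1 hθ).2 hy
  ext z
  rw [ZE_iff hP hθ hy]
  constructor
  · rintro (⟨z₀, h4, i, rfl⟩ | ⟨h4, -⟩)
    · rw [NN_ext_iff h2 hP hC hR hL.1 hθ] at h4
      have := extP_inj (Par_n_pos hP) h4 hy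
      subst this
      exact ⟨i, rfl⟩
    · rw [h4] at hy'; exact absurd hy' (notMem_empty _)
  · rintro ⟨i, rfl⟩
    exact Or.inl ⟨y, hy', i, rfl⟩

end

/-- **S9** -/
theorem s9_inner (h2 : S2_unique) (h3 : S3_closed) (h3' : S3_neutral) (h7 : S7_fatou)
    (h7' : S7_parab) (h8 : S8_side) : S9_inner := by
  intro D hP hC hR
  refine ⟨ZI D, cycI h2 h3 h3' h7 h7' h8 hP hC hR, fun L hL => ZI_eq_ZE h2 hP hC hR hL, ?_⟩
  intro L hL z hz
  exact Or.inl ⟨z, closure_NN h2 h3 h8 hP hC hR hL (subset_closure hz), 0, rfl⟩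

/-- **S9'**: gluing -/
theorem s9_glue (h6 : S6_outer) (h9 : S9_inner) : S9_glue := by
  classical
  intro D hP hC hR
  obtain ⟨ZO, hO1, hO2, hO3, hO4⟩ := h6 D hP hC hR
  obtain ⟨ZN, hI1, hI2, hI3⟩ := h9 D hP hC hR
  have hE := cycE hP hC
  set Z : ℂ → Set ℂ := fun L => if L ∈ D.RI then ZN L else if L ∈ D.RO then ZO L else D.ZE L
    with hZ
  have zI : ∀ L ∈ D.RI, Z L = ZN L := fun L hL => by simp [hZ, hL]
  have zO : ∀ L ∈ D.RO, Z L = ZO L := fun L hL => by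
    have : L ∉ D.RI := fun h => (disjoint_left.1 hR.disj) h hL
    simp [hZ, hL, this]
  have zE : ∀ L ∈ D.RE, Z L = D.ZE L := fun L hL => by
    by_cases h1 : L ∈ D.RI
    · rw [zI L h1, hI2 L ⟨h1, hL⟩]
    · by_cases h2 : L ∈ D.RO
      · rw [zO L h2, hO3 L ⟨h2, hL⟩]
      · simp [hZ, h1, h2]
  -- locally `Z` is one of the three families
  have hloc : ∀ L ∈ D.U, ∃ (V : Set ℂ) (Z' : ℂ → Set ℂ), IsOpen V ∧ L ∈ V ∧
      CycFam D.n D.c V Z' ∧ ∀ L' ∈ V, Z L' = Z' L' := by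
    intro L hL
    rcases hR.cover hL with (h | h) | h
    · exact ⟨D.RE, D.ZE, hR.openE, h, hE, zE⟩
    · exact ⟨D.RI, ZN, hR.openI, h, hI1, zI⟩
    · exact ⟨D.RO, ZO, hR.openO, h, hO1, zO⟩
  refine ⟨Z, ⟨?_, ?_, ?_, ?_⟩, zE, ?_, ?_⟩
  · intro L hL
    obtain ⟨V, Z', hV, hLV, hF, he⟩ := hloc L hL
    rw [he L hLV]; exact hF.ne L hLV
  · intro L hL z hz
    obtain ⟨V, Z', hV, hLV, hF, he⟩ := hloc L hL
    rw [he L hLV] at hz; exact hF.fix L hLV z hz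
  · intro L hL z hz z'
    obtain ⟨V, Z', hV, hLV, hF, he⟩ := hloc L hL
    rw [he L hLV] at hz ⊢; exact hF.cyc L hLV z hz z'
  · intro L hL z hz
    obtain ⟨V, Z', hV, hLV, hF, he⟩ := hloc L hL
    rw [he L hLV] at hz
    filter_upwards [hF.cont L hLV z hz,
      (continuousAt_fst (p := ((L, z) : ℂ × ℂ))).tendsto.eventually (hV.mem_nhds hLV)]
      with p h1 h2 h3
    rw [he p.1 h2]
    exact h1 h3
  · intro L hL
    rw [zO L hL]
    exact ⟨fun z hz => hO4 L hL z hz, fun z hz d hd hd' => hO2 L hL z hz d hd hd'⟩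
  · intro L hL z hz
    rw [zI L hL]
    exact hI3 L hL z hz

end Pool.Agent.Work.MLC.Sat
end

section
set_option autoImplicit false

/-! # Problem P: continuation of all cycles over convex sets and Harnack (helper51) -/

namespace Pool.Agent.Work.MLC.PriHar

open Filter Topology Metric Set

/-! ### continuation of periodic points -/

/-- pairs (place, periodic point) -/
def FE (n : ℕ) (c : ℂ → ℂ) (D : Set ℂ) : Set (ℂ × ℂ) := {p | p.1 ∈ D ∧ (c p.1, p.2) ∈ Per n}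

section

variable {n : ℕ} {c : ℂ → ℂ} {D : Set ℂ}

/-- the projection -/
noncomputable def fpr (n : ℕ) (c : ℂ → ℂ) (D : Set ℂ) (p : FE n c D) : D := ⟨p.1.1, p.2.1⟩

lemma continuous_fpr : Continuous (fpr n c D) :=
  (continuous_fst.comp continuous_subtype_val).subtype_mk _

/-- the local branch -/
lemma exists_branch (hD : IsOpen D) (hc : ContinuousOn c D) {p : ℂ × ℂ} (hp : p ∈ FE n c D)
    (h1 : mul n (c p.1, p.2) ≠ 1) : ∃ γ : ℂ → ℂ, ContinuousAt γ p.1 ∧ γ p.1 = p.2 ∧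
      (∀ᶠ L in 𝓝 p.1, (L, γ L) ∈ FE n c D) ∧
      ∀ᶠ q : ℂ × ℂ in 𝓝 p, q ∈ FE n c D → γ q.1 = q.2 := by
  obtain ⟨β, hβ, hβ0, hβe⟩ := chart hp.2 h1
  simp only at hβ hβ0
  have hDn : D ∈ 𝓝 p.1 := hD.mem_nhds hp.1
  have hcc : ContinuousAt c p.1 := hc.continuousAt hDn
  have h2 : ContinuousAt (fun L => β (c L)) p.1 :=
    ContinuousAt.comp (g := β) (f := c) hβ.continuousAt hcc
  have ht : Tendsto (fun L => ((c L, β (c L)) : ℂ × ℂ)) (𝓝 p.1) (𝓝 (c p.1, p.2)) := by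
    have h3 : Tendsto (fun L => β (c L)) (𝓝 p.1) (𝓝 p.2) := by
      have := h2.tendsto
      rwa [hβ0] at this
    exact hcc.tendsto.prodMk_nhds h3
  refine ⟨fun L => β (c L), h2, hβ0, ?_, ?_⟩
  · filter_upwards [hDn, ht.eventually hβe] with L h3 h4
    exact ⟨h3, h4.2 rfl⟩
  · have ht2 : Tendsto (fun q : ℂ × ℂ => ((c q.1, q.2) : ℂ × ℂ)) (𝓝 p) (𝓝 (c p.1, p.2)) :=
      (hcc.tendsto.comp continuousAt_fst).prodMk_nhds continuousAt_snd
    filter_upwards [ht2.eventually hβe] with q h3 h4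
    exact h3.1 h4.2

lemma fpr_isOpenMap (hD : IsOpen D) (hc : ContinuousOn c D)
    (h1 : ∀ p ∈ FE n c D, mul n (c p.1, p.2) ≠ 1) : IsOpenMap (fpr n c D) := by
  rw [isOpenMap_iff_nhds_le]
  intro p U hU
  rw [mem_map] at hU
  have hU' := hU
  rw [nhds_subtype_eq_comap, mem_comap] at hU'
  obtain ⟨V, hV, hVU⟩ := hU'
  obtain ⟨p₀, hp₀⟩ := p
  simp only at hV
  obtain ⟨γ, hγc, hγ0, hγ1, -⟩ := exists_branch hD hc hp₀ (h1 p₀ hp₀)
  have ht : Tendsto (fun L : ℂ => ((L, γ L) : ℂ × ℂ)) (𝓝 p₀.1) (𝓝 p₀) := by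
    have h3 : Tendsto γ (𝓝 p₀.1) (𝓝 p₀.2) := by
      have := hγc.tendsto
      rwa [hγ0] at this
    exact tendsto_id.prodMk_nhds h3
  have ht2 : Tendsto (fun L : D => (L : ℂ)) (𝓝 (fpr n c D ⟨p₀, hp₀⟩)) (𝓝 p₀.1) :=
    continuous_subtype_val.tendsto' _ _ rfl
  filter_upwards [ht2.eventually (ht hV), ht2.eventually hγ1] with L h3 h4
  have h5 : (⟨((L : ℂ), γ L), h4⟩ : FE n c D) ∈ (fpr n c D) ⁻¹' U := hVU h3
  exact h5

lemma fpr_locInj (hD : IsOpen D) (hc : ContinuousOn c D)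
    (h1 : ∀ p ∈ FE n c D, mul n (c p.1, p.2) ≠ 1) (p : FE n c D) :
    ∃ U ∈ 𝓝 p, IsOpen U ∧ InjOn (fpr n c D) U := by
  obtain ⟨p₀, hp₀⟩ := p
  obtain ⟨γ, hγc, hγ0, -, hγ2⟩ := exists_branch hD hc hp₀ (h1 p₀ hp₀)
  obtain ⟨N', hN', hN'o, hx₀N⟩ := _root_.mem_nhds_iff.1 hγ2
  have hcv : Continuous fun q : FE n c D => q.1 := continuous_subtype_val
  refine ⟨{q | q.1 ∈ N'}, (hN'o.preimage hcv).mem_nhds hx₀N, hN'o.preimage hcv, ?_⟩
  rintro ⟨q, hq⟩ hqN ⟨q', hq'⟩ hqN' heq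
  simp only [fpr, Subtype.mk.injEq] at heq
  have h3 : γ q.1 = q.2 := hN' hqN hq
  have h4 : γ q'.1 = q'.2 := hN' hqN' hq'
  refine Subtype.ext (Prod.ext heq ?_)
  show q.2 = q'.2
  rw [← h3, ← h4, heq]

lemma fpr_isLocalHomeomorph (hD : IsOpen D) (hc : ContinuousOn c D)
    (h1 : ∀ p ∈ FE n c D, mul n (c p.1, p.2) ≠ 1) : IsLocalHomeomorph (fpr n c D) := by
  rw [isLocalHomeomorph_iff_isOpenEmbedding_restrict]
  intro p
  obtain ⟨U, hU, hUo, hi⟩ := fpr_locInj hD hc h1 p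
  refine ⟨U, hU, ?_⟩
  refine Topology.IsOpenEmbedding.of_continuous_injective_isOpenMap ?_ hi.injective ?_
  · exact continuous_fpr.comp continuous_subtype_val
  · exact (fpr_isOpenMap hD hc h1).domRestrict hUo

lemma fpr_isProperMap (hn : 0 < n) (hD : IsOpen D) (hc : ContinuousOn c D) :
    IsProperMap (fpr n c D) := by
  have : LocallyCompactSpace D := hD.locallyCompactSpace
  rw [isProperMap_iff_isCompact_preimage]
  refine ⟨continuous_fpr, fun K hK => ?_⟩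
  rw [Topology.IsEmbedding.subtypeVal.isCompact_iff]
  set K' : Set ℂ := (fun L : D => (L : ℂ)) '' K with hK'
  have hKc : IsCompact K' := hK.image continuous_subtype_val
  have hKD : K' ⊆ D := by rintro _ ⟨L, -, rfl⟩; exact L.2
  have hcK : ContinuousOn c K' := hc.mono hKD
  obtain ⟨R, hR⟩ := (hKc.image_of_continuousOn hcK).isBounded.exists_norm_le
  have h2 : Subtype.val '' (fpr n c D ⁻¹' K) =
      (K' ×ˢ closedBall (0 : ℂ) (1 + R)) ∩ {p | it (c p.1) n p.2 = p.2} := by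
    ext p
    constructor
    · rintro ⟨⟨q, hq⟩, hqK, rfl⟩
      have h3 : q.1 ∈ K' := ⟨⟨q.1, hq.1⟩, hqK, rfl⟩
      refine ⟨⟨h3, ?_⟩, hq.2⟩
      rw [mem_closedBall_zero_iff]
      have h4 := norm_le_of_G_zero (G_zero_of_per hn hq.2)
      have h5 := hR (c q.1) ⟨q.1, h3, rfl⟩
      linarith
    · rintro ⟨⟨⟨L, hL, hLp⟩, -⟩, h4⟩
      have h5 : p ∈ FE n c D := ⟨by rw [← hLp]; exact L.2, h4⟩
      refine ⟨⟨p, h5⟩, ?_, rfl⟩
      have h6 : fpr n c D ⟨p, h5⟩ = L := Subtype.ext hLp.symm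
      rw [mem_preimage, h6]
      exact hL
  rw [h2]
  have h3 : IsCompact (K' ×ˢ closedBall (0 : ℂ) (1 + R)) := hKc.prod (isCompact_closedBall _ _)
  have hcont : ContinuousOn (fun p : ℂ × ℂ => it (c p.1) n p.2)
      (K' ×ˢ closedBall (0 : ℂ) (1 + R)) := by
    have h4 : ContinuousOn (fun p : ℂ × ℂ => ((c p.1, p.2) : ℂ × ℂ))
        (K' ×ˢ closedBall (0 : ℂ) (1 + R)) :=
      (hcK.comp continuousOn_fst fun p hp => hp.1).prodMk continuousOn_snd
    exact (continuous_it n).comp_continuousOn h4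
  have h5 : IsClosed ((K' ×ˢ closedBall (0 : ℂ) (1 + R)) ∩ {p | it (c p.1) n p.2 = p.2}) := by
    have h6 := (hcont.sub continuousOn_snd).preimage_isClosed_of_isClosed h3.isClosed
      (isClosed_singleton (x := (0 : ℂ)))
    convert h6 using 1
    ext p
    simp [sub_eq_zero]
  exact h3.of_isClosed_subset h5 inter_subset_left

theorem fpr_isCoveringMap (hn : 0 < n) (hD : IsOpen D) (hc : ContinuousOn c D)
    (h1 : ∀ p ∈ FE n c D, mul n (c p.1, p.2) ≠ 1) : IsCoveringMap (fpr n c D) := by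
  rw [isCoveringMap_iff_isCoveringMapOn_univ]
  have hl := fpr_isLocalHomeomorph hD hc h1
  have hp := fpr_isProperMap hn hD hc
  refine IsClosedMap.isCoveringMapOn_of_isLocalHomeomorphOn hp.isClosedMap ?_ ?_
  · intro L _
    have hc : IsCompact (fpr n c D ⁻¹' {L}) := hp.isCompact_preimage isCompact_singleton
    refine hc.finite (.of_openPartialHomeomorph (fpr n c D) subset_rfl fun e _ => ?_)
    obtain ⟨φ, h1, h2⟩ := hl e
    exact ⟨φ, h1, h2.symm⟩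
  · rw [preimage_univ, ← isLocalHomeomorph_iff_isLocalHomeomorphOn_univ]
    exact hl

/-- **continuation of a periodic point over a convex set** -/
theorem exists_cont (hn : 0 < n) (hD : IsOpen D) (hconv : Convex ℝ D) (hc : ContinuousOn c D)
    (h1 : ∀ L ∈ D, ∀ b, (c L, b) ∈ Per n → mul n (c L, b) ≠ 1) {L₀ b₀ : ℂ} (hL₀ : L₀ ∈ D)
    (hb₀ : (c L₀, b₀) ∈ Per n) : ∃ β : ℂ → ℂ, ContinuousOn β D ∧
      (∀ L ∈ D, (c L, β L) ∈ Per n) ∧ β L₀ = b₀ := by
  have h1' : ∀ p ∈ FE n c D, mul n (c p.1, p.2) ≠ 1 := fun p hp => h1 p.1 hp.1 p.2 hp.2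
  have : ContractibleSpace D := hconv.contractibleSpace ⟨L₀, hL₀⟩
  have : LocallyPathConnectedSpace D := hD.locallyPathConnectedSpace
  obtain ⟨F, ⟨hF0, hF⟩, -⟩ := (fpr_isCoveringMap hn hD hc h1').existsUnique_continuousMap_lifts
    (ContinuousMap.id D) ⟨L₀, hL₀⟩ ⟨(L₀, b₀), hL₀, hb₀⟩ rfl
  classical
  refine ⟨fun L => if hL : L ∈ D then (F ⟨L, hL⟩).1.2 else b₀, ?_, ?_, ?_⟩
  · rw [continuousOn_iff_continuous_domRestrict]
    have h2 : D.domRestrict (fun L => if hL : L ∈ D then (F ⟨L, hL⟩).1.2 else b₀) =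
        fun L : D => (F L).1.2 := by
      funext L
      simp [domRestrict, L.2]
    rw [h2]
    exact continuous_snd.comp (continuous_subtype_val.comp F.continuous)
  · intro L hL
    have h2 : fpr n c D (F ⟨L, hL⟩) = ⟨L, hL⟩ := congrFun hF ⟨L, hL⟩
    have h3 : (F ⟨L, hL⟩).1.1 = L := congrArg Subtype.val h2
    have h4 := (F ⟨L, hL⟩).2.2
    rw [h3] at h4
    simp only [hL, dif_pos]
    exact h4
  · simp only [hL₀, dif_pos, hF0]

/-- two continuations agree everywhere or nowhere -/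
theorem cont_ne (hD : IsOpen D) (hpre : IsPreconnected D) (hc : ContinuousOn c D)
    {β β' : ℂ → ℂ} (hβ : ContinuousOn β D) (hβ' : ContinuousOn β' D)
    (h : ∀ L ∈ D, (c L, β L) ∈ Per n) (h' : ∀ L ∈ D, (c L, β' L) ∈ Per n)
    (h1 : ∀ L ∈ D, ∀ b, (c L, b) ∈ Per n → mul n (c L, b) ≠ 1) {L₁ L₂ : ℂ} (hL₁ : L₁ ∈ D)
    (hL₂ : L₂ ∈ D) (he : β L₁ = β' L₁) : β L₂ = β' L₂ := by
  have h2 : D ⊆ {L | L ∈ D ∧ β L = β' L} := by
    refine hpre.subset_of_closure_inter_subset ?_ ⟨L₁, hL₁, hL₁, he⟩ ?_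
    · rw [isOpen_iff_mem_nhds]
      rintro L ⟨hL, hLe⟩
      obtain ⟨γ, hγc, hγ0, -, hγ2⟩ := exists_branch (p := (L, β L)) hD hc ⟨hL, h L hL⟩
        (h1 L hL _ (h L hL))
      have hDn : D ∈ 𝓝 L := hD.mem_nhds hL
      have ht : Tendsto (fun L' => ((L', β L') : ℂ × ℂ)) (𝓝 L) (𝓝 (L, β L)) :=
        tendsto_id.prodMk_nhds (hβ.continuousAt hDn).tendsto
      have ht' : Tendsto (fun L' => ((L', β' L') : ℂ × ℂ)) (𝓝 L) (𝓝 (L, β L)) := by
        rw [hLe]; exact tendsto_id.prodMk_nhds (hβ'.continuousAt hDn).tendsto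
      filter_upwards [ht.eventually hγ2, ht'.eventually hγ2, hDn] with L' h3 h4 h5
      exact ⟨h5, (h3 ⟨h5, h L' h5⟩).symm.trans (h4 ⟨h5, h' L' h5⟩)⟩
    · rintro L ⟨hLc, hL⟩
      refine ⟨hL, ?_⟩
      have hDn : D ∈ 𝓝 L := hD.mem_nhds hL
      by_contra hne
      have h3 : ∀ᶠ L' in 𝓝 L, β L' ≠ β' L' :=
        ((hβ.continuousAt hDn).prodMk (hβ'.continuousAt hDn)).eventually
          ((isOpen_ne_fun continuous_fst continuous_snd).mem_nhds hne)
      obtain ⟨L', h4, h5⟩ := mem_closure_iff_nhds.1 hLc _ h3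
      exact h4 h5.2
  exact (h2 hL₂).2

/-- exactness along a continuation -/
theorem cont_exact (hD : IsOpen D) (hpre : IsPreconnected D) (hc : ContinuousOn c D)
    {β : ℂ → ℂ} (hβ : ContinuousOn β D) (h : ∀ L ∈ D, (c L, β L) ∈ Per n)
    (h1 : ∀ L ∈ D, ∀ b, (c L, b) ∈ Per n → mul n (c L, b) ≠ 1) {L₁ L₂ : ℂ} (hL₁ : L₁ ∈ D)
    (hL₂ : L₂ ∈ D) (he : ∀ d, 0 < d → d < n → it (c L₁) d (β L₁) ≠ β L₁) :
    ∀ d, 0 < d → d < n → it (c L₂) d (β L₂) ≠ β L₂ := by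
  have hev : ∀ L ∈ D, ∀ᶠ L' in 𝓝 L, ((∀ d, 0 < d → d < n → it (c L') d (β L') ≠ β L') ↔
      ∀ d, 0 < d → d < n → it (c L) d (β L) ≠ β L) := by
    intro L hL
    have hDn : D ∈ 𝓝 L := hD.mem_nhds hL
    have ht : Tendsto (fun L' => ((c L', β L') : ℂ × ℂ)) (𝓝 L) (𝓝 (c L, β L)) :=
      (hc.continuousAt hDn).tendsto.prodMk_nhds (hβ.continuousAt hDn).tendsto
    filter_upwards [ht.eventually (Hyp.exact_nhds (h L hL) (h1 L hL _ (h L hL))), hDn]
      with L' h3 h4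
    exact h3 (h L' h4)
  have h2 : D ⊆ {L | L ∈ D ∧ ∀ d, 0 < d → d < n → it (c L) d (β L) ≠ β L} := by
    refine hpre.subset_of_closure_inter_subset ?_ ⟨L₁, hL₁, hL₁, he⟩ ?_
    · rw [isOpen_iff_mem_nhds]
      rintro L ⟨hL, hLe⟩
      filter_upwards [hev L hL, hD.mem_nhds hL] with L' h3 h4
      exact ⟨h4, h3.2 hLe⟩
    · rintro L ⟨hLc, hL⟩
      obtain ⟨L', h4, h5⟩ := mem_closure_iff_nhds.1 hLc _ (hev L hL)
      exact ⟨hL, h4.1 h5.2⟩
  exact (h2 hL₂).2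

/-- the multiplier along a continuation is holomorphic -/
theorem cont_mul (hD : IsOpen D) (hc : DifferentiableOn ℂ c D) {β : ℂ → ℂ}
    (hβ : ContinuousOn β D) (h : ∀ L ∈ D, (c L, β L) ∈ Per n)
    (h1 : ∀ L ∈ D, mul n (c L, β L) ≠ 1) :
    DifferentiableOn ℂ (fun L => mul n (c L, β L)) D := by
  intro L hL
  have hDn : D ∈ 𝓝 L := hD.mem_nhds hL
  obtain ⟨γ, hγ, hγ0, hγe⟩ := chart (h L hL) (h1 L hL)
  simp only at hγ hγ0
  have ht : Tendsto (fun L' => ((c L', β L') : ℂ × ℂ)) (𝓝 L) (𝓝 (c L, β L)) :=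
    (hc.continuousOn.continuousAt hDn).tendsto.prodMk_nhds (hβ.continuousAt hDn).tendsto
  have h2 : (fun L' => mul n (c L', β L')) =ᶠ[𝓝 L] fun L' => mul n (c L', γ (c L')) := by
    filter_upwards [ht.eventually hγe, hDn] with L' h3 h4
    rw [h3.1 (h L' h4)]
  have h3 : AnalyticAt ℂ (fun c' => mul n (c', γ c')) (c L) :=
    chart_mul (x₀ := (c L, β L)) hγ
  have h4 : DifferentiableAt ℂ (fun L' => mul n (c L', γ (c L'))) L :=
    DifferentiableAt.comp (g := fun c' => mul n (c', γ c')) L h3.differentiableAt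
      (hc.differentiableAt hDn)
  exact (h4.congr_of_eventuallyEq h2).differentiableWithinAt

end

/-! ### Harnack -/

/-- Harnack at the centre of a ball -/
theorem harnack_center {m : ℂ → ℂ} {a : ℂ} {r : ℝ} (hm : DifferentiableOn ℂ m (ball a r))
    (hre : ∀ z ∈ ball a r, 0 < (m z).re) {z : ℂ} (hz : z ∈ ball a r) :
    ‖m z‖ * (r - dist z a) ≤ ‖m a‖ * (r + dist z a) := by
  have hr : 0 < r := (dist_nonneg).trans_lt (mem_ball.1 hz)
  have ha : a ∈ ball a r := mem_ball_self hr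
  set A : ℂ := m a with hA
  have hA0 : 0 < A.re := hre a ha
  set B : ℂ := (starRingEnd ℂ) A with hB
  have hBre : B.re = A.re := by simp [hB]
  have hBim : B.im = -A.im := by simp [hB]
  have hden : ∀ y ∈ ball a r, m y + B ≠ 0 := by
    intro y hy h0
    have h1 := congrArg Complex.re h0
    rw [Complex.add_re, hBre, Complex.zero_re] at h1
    have := hre y hy
    linarith
  set w : ℂ → ℂ := fun y => (m y - A) / (m y + B) with hw
  have hwd : DifferentiableOn ℂ w (ball a r) :=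
    (hm.sub_const _).div (hm.add_const _) hden
  have hwa : w a = 0 := by simp [hw, hA]
  have hmaps : MapsTo w (ball a r) (closedBall (w a) 1) := by
    intro y hy
    rw [hwa, mem_closedBall_zero_iff]
    simp only [hw]
    refine le_of_lt ?_
    rw [norm_div, div_lt_one (norm_pos_iff.2 (hden y hy))]
    refine lt_of_pow_lt_pow_left₀ 2 (norm_nonneg _) ?_
    rw [← Complex.normSq_eq_norm_sq, ← Complex.normSq_eq_norm_sq, Complex.normSq_apply,
      Complex.normSq_apply]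
    simp only [Complex.sub_re, Complex.sub_im, Complex.add_re, Complex.add_im, hBre, hBim]
    have := hre y hy
    nlinarith
  have hS := Complex.dist_le_div_mul_dist_of_mapsTo_ball hwd hmaps hz
  rw [hwa, dist_zero_right] at hS
  have h1 : m z * (1 - w z) = A + w z * B := by
    have h2 : w z * (m z + B) = m z - A := by
      simp only [hw]
      exact div_mul_cancel₀ _ (hden z hz)
    linear_combination -h2
  have hBn : ‖B‖ = ‖A‖ := by rw [hB]; exact Complex.norm_conj A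
  have h3 : ‖m z‖ * (1 - ‖w z‖) ≤ ‖A‖ * (1 + ‖w z‖) := by
    calc ‖m z‖ * (1 - ‖w z‖) ≤ ‖m z‖ * ‖1 - w z‖ := by
          refine mul_le_mul_of_nonneg_left ?_ (norm_nonneg _)
          calc 1 - ‖w z‖ = ‖(1 : ℂ)‖ - ‖w z‖ := by rw [norm_one]
            _ ≤ ‖1 - w z‖ := norm_sub_norm_le _ _
      _ = ‖A + w z * B‖ := by rw [← norm_mul, h1]
      _ ≤ ‖A‖ + ‖w z * B‖ := norm_add_le _ _
      _ = ‖A‖ * (1 + ‖w z‖) := by rw [norm_mul, hBn]; ring
  have h4 : ‖w z‖ * r ≤ dist z a := by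
    have h5 : 1 / r * dist z a * r = dist z a := by field_simp
    calc ‖w z‖ * r ≤ 1 / r * dist z a * r := by gcongr
      _ = dist z a := h5
  have h5 : ‖m z‖ * (r - dist z a) ≤ ‖m z‖ * (1 - ‖w z‖) * r := by
    have : r - dist z a ≤ (1 - ‖w z‖) * r := by nlinarith
    calc ‖m z‖ * (r - dist z a) ≤ ‖m z‖ * ((1 - ‖w z‖) * r) :=
          mul_le_mul_of_nonneg_left this (norm_nonneg _)
      _ = _ := by ring
  have h6 : ‖A‖ * (1 + ‖w z‖) * r ≤ ‖A‖ * (r + dist z a) := by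
    have : (1 + ‖w z‖) * r ≤ r + dist z a := by nlinarith
    calc ‖A‖ * (1 + ‖w z‖) * r = ‖A‖ * ((1 + ‖w z‖) * r) := by ring
      _ ≤ _ := mul_le_mul_of_nonneg_left this (norm_nonneg _)
  calc ‖m z‖ * (r - dist z a) ≤ ‖m z‖ * (1 - ‖w z‖) * r := h5
    _ ≤ ‖A‖ * (1 + ‖w z‖) * r := mul_le_mul_of_nonneg_right h3 hr.le
    _ ≤ _ := h6

lemma inv_re_pos {z : ℂ} (h : 0 < z.re) : 0 < (z⁻¹).re := by
  have hz : z ≠ 0 := by rintro rfl; simp at h
  rw [Complex.inv_re]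
  exact div_pos h (Complex.normSq_pos.2 hz)

/-- Harnack at the centre of a ball, lower bound -/
theorem harnack_center' {m : ℂ → ℂ} {a : ℂ} {r : ℝ} (hm : DifferentiableOn ℂ m (ball a r))
    (hre : ∀ z ∈ ball a r, 0 < (m z).re) {z : ℂ} (hz : z ∈ ball a r) :
    ‖m a‖ * (r - dist z a) ≤ ‖m z‖ * (r + dist z a) := by
  have hne : ∀ y ∈ ball a r, m y ≠ 0 := by
    intro y hy h0
    have := hre y hy
    rw [h0] at this
    simp at this
  have hr : 0 < r := (dist_nonneg).trans_lt (mem_ball.1 hz)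
  have ha : a ∈ ball a r := mem_ball_self hr
  have h1 := harnack_center (m := fun y => (m y)⁻¹) (hm.inv hne)
    (fun y hy => inv_re_pos (hre y hy)) hz
  simp only [norm_inv] at h1
  have h2 : 0 < ‖m z‖ := norm_pos_iff.2 (hne z hz)
  have h3 : 0 < ‖m a‖ := norm_pos_iff.2 (hne a ha)
  have h4 := mul_le_mul_of_nonneg_left h1 (mul_pos h2 h3).le
  have h5 : ‖m z‖ * ‖m a‖ * (‖m z‖⁻¹ * (r - dist z a)) = ‖m a‖ * (r - dist z a) := by
    field_simp
  have h6 : ‖m z‖ * ‖m a‖ * (‖m a‖⁻¹ * (r + dist z a)) = ‖m z‖ * (r + dist z a) := by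
    field_simp
  rwa [h5, h6] at h4

/-- Harnack between two points of the half ball -/
theorem harnack_ball {m : ℂ → ℂ} {a : ℂ} {r : ℝ} (hm : DifferentiableOn ℂ m (ball a r))
    (hre : ∀ z ∈ ball a r, 0 < (m z).re) {z z' : ℂ} (hr : 0 < r) (hz : dist z a ≤ r / 2)
    (hz' : dist z' a ≤ r / 2) : ‖m z‖ ≤ 9 * ‖m z'‖ := by
  have h1 := harnack_center hm hre (mem_ball.2 (by linarith : dist z a < r))
  have h2 := harnack_center' hm hre (mem_ball.2 (by linarith : dist z' a < r))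
  have h3 : ‖m z‖ ≤ 3 * ‖m a‖ := by
    have h4 : ‖m z‖ * (r / 2) ≤ ‖m a‖ * (3 / 2 * r) := by
      calc ‖m z‖ * (r / 2) ≤ ‖m z‖ * (r - dist z a) := by gcongr; linarith
        _ ≤ ‖m a‖ * (r + dist z a) := h1
        _ ≤ _ := by gcongr; linarith
    nlinarith
  have h5 : ‖m a‖ ≤ 3 * ‖m z'‖ := by
    have h4 : ‖m a‖ * (r / 2) ≤ ‖m z'‖ * (3 / 2 * r) := by
      calc ‖m a‖ * (r / 2) ≤ ‖m a‖ * (r - dist z' a) := by gcongr; linarith
        _ ≤ ‖m z'‖ * (r + dist z' a) := h2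
        _ ≤ _ := by gcongr; linarith
    nlinarith
  linarith

/-- Harnack on the left half plane -/
theorem harnack_half {m : ℂ → ℂ} (hm : DifferentiableOn ℂ m {L | L.re < 0})
    (hre : ∀ z : ℂ, z.re < 0 → 0 < (m z).re) {L L' : ℂ} (hL : L.re < 0) (hL' : L'.re < 0) :
    ‖m L‖ * (L.re * L'.re) ≤ ‖m L'‖ * ‖L + (starRingEnd ℂ) L'‖ ^ 2 := by
  set B : ℂ := (starRingEnd ℂ) L' with hB
  have hBre : B.re = L'.re := by simp [hB]
  have hBim : B.im = -L'.im := by simp [hB]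
  set T : ℂ → ℂ := fun w => (L' + w * B) / (1 - w) with hT
  have hne : ∀ w ∈ ball (0 : ℂ) 1, (1 : ℂ) - w ≠ 0 := by
    intro w hw h0
    rw [mem_ball_zero_iff] at hw
    have : w = 1 := by linear_combination -h0
    rw [this, norm_one] at hw
    exact lt_irrefl _ hw
  have hTre : ∀ w ∈ ball (0 : ℂ) 1, (T w).re < 0 := by
    intro w hw
    have hw1 := hne w hw
    have h1 : T w = L'.re * ((1 + w) / (1 - w)) + L'.im * Complex.I := by
      simp only [hT]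
      have h2 : L' = L'.re + L'.im * Complex.I := (Complex.re_add_im L').symm
      have h3 : B = L'.re - L'.im * Complex.I := by
        apply Complex.ext <;> simp [hBre, hBim]
      rw [h3]
      field_simp
      nth_rewrite 1 [h2]
      ring
    rw [h1]
    have h4 : 0 < ((1 + w) / (1 - w)).re := by
      rw [Complex.div_re, ← add_div]
      refine div_pos ?_ (Complex.normSq_pos.2 hw1)
      simp only [Complex.add_re, Complex.one_re, Complex.sub_re, Complex.add_im, Complex.one_im,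
        Complex.sub_im, zero_add, zero_sub]
      rw [mem_ball_zero_iff] at hw
      have h5 : ‖w‖ ^ 2 < 1 := by
        have := norm_nonneg w
        nlinarith
      rw [← Complex.normSq_eq_norm_sq, Complex.normSq_apply] at h5
      nlinarith
    simp only [Complex.add_re, Complex.mul_re, Complex.ofReal_re, Complex.ofReal_im, zero_mul,
      sub_zero, Complex.I_re, mul_zero, Complex.I_im, mul_one]
    nlinarith
  have hTd : DifferentiableOn ℂ T (ball 0 1) := by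
    refine DifferentiableOn.div (by fun_prop) (by fun_prop) hne
  have hmT : DifferentiableOn ℂ (fun w => m (T w)) (ball 0 1) :=
    hm.comp hTd fun w hw => hTre w hw
  have hLB : L + B ≠ 0 := by
    intro h0
    have h1 := congrArg Complex.re h0
    rw [Complex.add_re, hBre, Complex.zero_re] at h1
    linarith
  set w₀ : ℂ := (L - L') / (L + B) with hw₀
  have hw₀n : ‖w₀‖ * ‖L + B‖ = ‖L - L'‖ := by
    rw [← norm_mul, hw₀, div_mul_cancel₀ _ hLB]
  have hsq : ‖L + B‖ ^ 2 - ‖L - L'‖ ^ 2 = 4 * (L.re * L'.re) := by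
    rw [← Complex.normSq_eq_norm_sq, ← Complex.normSq_eq_norm_sq, Complex.normSq_apply,
      Complex.normSq_apply]
    simp only [Complex.sub_re, Complex.sub_im, Complex.add_re, Complex.add_im, hBre, hBim]
    ring
  have hpos : 0 < L.re * L'.re := mul_pos_of_neg_of_neg hL hL'
  have hLBpos : 0 < ‖L + B‖ := norm_pos_iff.2 hLB
  have hw₀1 : ‖w₀‖ < 1 := by
    have h1 : ‖L - L'‖ < ‖L + B‖ := by
      refine lt_of_pow_lt_pow_left₀ 2 (norm_nonneg _) ?_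
      linarith
    rw [hw₀, norm_div, div_lt_one hLBpos]
    exact h1
  have hTw₀ : T w₀ = L := by
    have h1 : (1 : ℂ) - w₀ ≠ 0 := hne w₀ (mem_ball_zero_iff.2 hw₀1)
    have h2 : w₀ * (L + B) = L - L' := by rw [hw₀]; exact div_mul_cancel₀ _ hLB
    simp only [hT]
    rw [div_eq_iff h1]
    linear_combination h2
  have hT0 : T 0 = L' := by simp [hT]
  have hH := harnack_center (m := fun w => m (T w)) hmT (fun w hw => hre _ (hTre w hw))
    (mem_ball_zero_iff.2 hw₀1)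
  simp only [hTw₀, hT0, dist_zero_right] at hH
  -- multiply by `(1 + δ) |L + B|²`
  have h1 : ‖m L‖ * ((1 - ‖w₀‖) * (1 + ‖w₀‖) * ‖L + B‖ ^ 2) ≤
      ‖m L'‖ * ((1 + ‖w₀‖) ^ 2 * ‖L + B‖ ^ 2) := by
    have h2 : 0 ≤ (1 + ‖w₀‖) * ‖L + B‖ ^ 2 := by positivity
    calc ‖m L‖ * ((1 - ‖w₀‖) * (1 + ‖w₀‖) * ‖L + B‖ ^ 2)
        = (‖m L‖ * (1 - ‖w₀‖)) * ((1 + ‖w₀‖) * ‖L + B‖ ^ 2) := by ring
      _ ≤ (‖m L'‖ * (1 + ‖w₀‖)) * ((1 + ‖w₀‖) * ‖L + B‖ ^ 2) :=
          mul_le_mul_of_nonneg_right hH h2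
      _ = _ := by ring
  have h3 : (1 - ‖w₀‖) * (1 + ‖w₀‖) * ‖L + B‖ ^ 2 = 4 * (L.re * L'.re) := by
    calc (1 - ‖w₀‖) * (1 + ‖w₀‖) * ‖L + B‖ ^ 2
        = ‖L + B‖ ^ 2 - (‖w₀‖ * ‖L + B‖) ^ 2 := by ring
      _ = _ := by rw [hw₀n, hsq]
  have h4 : (1 + ‖w₀‖) ^ 2 ≤ 4 := by
    have := norm_nonneg w₀
    nlinarith
  rw [h3] at h1
  have h5 : ‖m L'‖ * ((1 + ‖w₀‖) ^ 2 * ‖L + B‖ ^ 2) ≤ ‖m L'‖ * (4 * ‖L + B‖ ^ 2) := by
    gcongr
  nlinarith

/-! ### transfer of lower bounds for `|ρ - 1|` -/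

/-- `b` is a point of exact period `n` over `c`, not on the cycle of `v` -/
def Oth (n : ℕ) (c v b : ℂ) : Prop :=
  (c, b) ∈ Per n ∧ (∀ d, 0 < d → d < n → it c d b ≠ b) ∧ ∀ i, b ≠ it c i v

lemma kappa_re {ρ : ℂ} (h : 1 < ‖ρ‖) : 0 < (1 / (ρ - 1) + 1 / 2).re := by
  have h0 : ρ - 1 ≠ 0 := by
    intro h1
    have : ρ = 1 := by linear_combination h1
    rw [this, norm_one] at h
    exact lt_irrefl _ h
  have h1 : 1 / (ρ - 1) + 1 / 2 = (ρ + 1) / (2 * (ρ - 1)) := by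
    field_simp
    ring
  rw [h1, Complex.div_re, ← add_div]
  refine div_pos ?_ (Complex.normSq_pos.2 (mul_ne_zero two_ne_zero h0))
  have h2 : 1 < ‖ρ‖ ^ 2 := by nlinarith
  rw [← Complex.normSq_eq_norm_sq, Complex.normSq_apply] at h2
  simp
  nlinarith

/-- **transfer**: `C` is a Harnack constant for the pair `L, L'` in the convex open set `D` -/
theorem transfer {n d : ℕ} (hn : 0 < n) (hd : 0 < d) {D : Set ℂ} (hD : IsOpen D)
    (hconv : Convex ℝ D) {c v : ℂ → ℂ} (hc : DifferentiableOn ℂ c D) (hv : ContinuousOn v D)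
    (hvp : ∀ L ∈ D, (c L, v L) ∈ Per d) (hve : ∀ L ∈ D, ∀ k, 0 < k → k < d → it (c L) k (v L) ≠ v L)
    (h1 : ∀ L ∈ D, ∀ b, (c L, b) ∈ Per n → mul n (c L, b) ≠ 1)
    (h2 : ∀ L ∈ D, ∀ b, Oth n (c L) (v L) b → 1 < ‖mul n (c L, b)‖) {L L' : ℂ} (hL : L ∈ D)
    (hL' : L' ∈ D) {C : ℝ} (hC : 0 ≤ C)
    (hH : ∀ m : ℂ → ℂ, DifferentiableOn ℂ m D → (∀ z ∈ D, 0 < (m z).re) → ‖m L‖ ≤ C * ‖m L'‖)
    {K : ℝ} (hK : ∀ b, Oth n (c L') (v L') b → ‖1 / (mul n (c L', b) - 1)‖ ≤ K) {b : ℂ}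
    (hb : Oth n (c L) (v L) b) : ‖1 / (mul n (c L, b) - 1)‖ ≤ C * (K + 1 / 2) + 1 / 2 := by
  have hpre := hconv.isPreconnected
  obtain ⟨β, hβ, hβp, hβ0⟩ := exists_cont hn hD hconv hc.continuousOn h1 hL hb.1
  have hO : ∀ z ∈ D, Oth n (c z) (v z) (β z) := by
    intro z hz
    refine ⟨hβp z hz, ?_, ?_⟩
    · exact cont_exact hD hpre hc.continuousOn hβ hβp h1 hL hz (by rw [hβ0]; exact hb.2.1)
    · intro i hi
      -- the period of `v` divides `n`
      have hdn : d ∣ n := by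
        have h3 : Function.IsPeriodicPt (f (c z)) d (v z) := hvp z hz
        have h4 : Function.minimalPeriod (f (c z)) (v z) = d := by
          have h5 := h3.minimalPeriod_le hd
          rcases h5.lt_or_eq with h | h
          · exfalso
            exact hve z hz _ (h3.minimalPeriod_pos hd) h
              (Function.isPeriodicPt_minimalPeriod (f (c z)) (v z))
          · exact h
        have h5 : (c z, it (c z) i (v z)) ∈ Per n := by rw [← hi]; exact hβp z hz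
        have h6 : (c z, v z) ∈ Per n := by
          have h7 := Sat.Per_it h5 (d * i - i)
          rwa [Sat.it_back hd (hvp z hz) i] at h7
        have h7 : Function.IsPeriodicPt (f (c z)) n (v z) := h6
        rw [← h4]
        exact h7.minimalPeriod_dvd
      obtain ⟨k, rfl⟩ := hdn
      have hvn : ∀ y ∈ D, (c y, it (c y) i (v y)) ∈ Per (d * k) := by
        intro y hy
        have h3 : Function.IsPeriodicPt (f (c y)) d (v y) := hvp y hy
        have h4 : (c y, v y) ∈ Per (d * k) := h3.trans_dvd ⟨k, rfl⟩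
        exact Sat.Per_it h4 i
      have hvc : ContinuousOn (fun y => it (c y) i (v y)) D :=
        (continuous_it i).comp_continuousOn (hc.continuousOn.prodMk hv)
      have h3 := cont_ne hD hpre hc.continuousOn hβ hvc hβp hvn h1 hz hL hi
      rw [hβ0] at h3
      exact hb.2.2 i h3
  have hrep : ∀ z ∈ D, 1 < ‖mul n (c z, β z)‖ := fun z hz => h2 z hz _ (hO z hz)
  have hne : ∀ z ∈ D, mul n (c z, β z) ≠ 1 := fun z hz => h1 z hz _ (hβp z hz)
  have hne' : ∀ z ∈ D, mul n (c z, β z) - 1 ≠ 0 := fun z hz h => hne z hz (by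
    linear_combination h)
  have hρ := cont_mul hD hc hβ hβp hne
  have hm := hH (fun z => 1 / (mul n (c z, β z) - 1) + 1 / 2)
    (((differentiableOn_const _).div (hρ.sub_const _) hne').add_const _)
    (fun z hz => kappa_re (hrep z hz))
  simp only [hβ0] at hm
  have h3 := hK (β L') (hO L' hL')
  have h4 : ‖1 / (mul n (c L', β L') - 1) + 1 / 2‖ ≤ K + 1 / 2 := by
    calc _ ≤ ‖1 / (mul n (c L', β L') - 1)‖ + ‖(1 / 2 : ℂ)‖ := norm_add_le _ _
      _ ≤ K + 1 / 2 := by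
        have : ‖(1 / 2 : ℂ)‖ = 1 / 2 := by norm_num
        rw [this]; linarith
  have h5 : ‖1 / (mul n (c L, b) - 1)‖ ≤ ‖1 / (mul n (c L, b) - 1) + 1 / 2‖ + 1 / 2 := by
    have h6 : 1 / (mul n (c L, b) - 1) = (1 / (mul n (c L, b) - 1) + 1 / 2) - 1 / 2 := by ring
    calc ‖1 / (mul n (c L, b) - 1)‖ = ‖(1 / (mul n (c L, b) - 1) + 1 / 2) - 1 / 2‖ := by
          rw [← h6]
      _ ≤ ‖1 / (mul n (c L, b) - 1) + 1 / 2‖ + ‖(1 / 2 : ℂ)‖ := norm_sub_le _ _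
      _ = _ := by norm_num
  calc ‖1 / (mul n (c L, b) - 1)‖ ≤ ‖1 / (mul n (c L, b) - 1) + 1 / 2‖ + 1 / 2 := h5
    _ ≤ C * ‖1 / (mul n (c L', β L') - 1) + 1 / 2‖ + 1 / 2 := by linarith
    _ ≤ C * (K + 1 / 2) + 1 / 2 := by
        have := mul_le_mul_of_nonneg_left h4 hC
        linarith

/-- transfer inside a ball -/
theorem transfer_ball {n d : ℕ} (hn : 0 < n) (hd : 0 < d) {a : ℂ} {r : ℝ} (hr : 0 < r)
    {c v : ℂ → ℂ} (hc : DifferentiableOn ℂ c (ball a r)) (hv : ContinuousOn v (ball a r))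
    (hvp : ∀ L ∈ ball a r, (c L, v L) ∈ Per d)
    (hve : ∀ L ∈ ball a r, ∀ k, 0 < k → k < d → it (c L) k (v L) ≠ v L)
    (h1 : ∀ L ∈ ball a r, ∀ b, (c L, b) ∈ Per n → mul n (c L, b) ≠ 1)
    (h2 : ∀ L ∈ ball a r, ∀ b, Oth n (c L) (v L) b → 1 < ‖mul n (c L, b)‖) {L L' : ℂ}
    (hL : dist L a ≤ r / 2) (hL' : dist L' a ≤ r / 2)
    {K : ℝ} (hK : ∀ b, Oth n (c L') (v L') b → ‖1 / (mul n (c L', b) - 1)‖ ≤ K) {b : ℂ}
    (hb : Oth n (c L) (v L) b) : ‖1 / (mul n (c L, b) - 1)‖ ≤ 9 * (K + 1 / 2) + 1 / 2 :=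
  transfer hn hd isOpen_ball (convex_ball a r) hc hv hvp hve h1 h2
    (mem_ball.2 (by linarith)) (mem_ball.2 (by linarith)) (by norm_num)
    (fun m hm hre => harnack_ball hm hre hr hL hL') hK hb

/-- transfer inside the left half plane -/
theorem transfer_half {n d : ℕ} (hn : 0 < n) (hd : 0 < d)
    {c v : ℂ → ℂ} (hc : DifferentiableOn ℂ c {L | L.re < 0}) (hv : ContinuousOn v {L | L.re < 0})
    (hvp : ∀ L : ℂ, L.re < 0 → (c L, v L) ∈ Per d)
    (hve : ∀ L : ℂ, L.re < 0 → ∀ k, 0 < k → k < d → it (c L) k (v L) ≠ v L)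
    (h1 : ∀ L : ℂ, L.re < 0 → ∀ b, (c L, b) ∈ Per n → mul n (c L, b) ≠ 1)
    (h2 : ∀ L : ℂ, L.re < 0 → ∀ b, Oth n (c L) (v L) b → 1 < ‖mul n (c L, b)‖) {L L' : ℂ}
    (hL : L.re < 0) (hL' : L'.re < 0)
    {K : ℝ} (hK : ∀ b, Oth n (c L') (v L') b → ‖1 / (mul n (c L', b) - 1)‖ ≤ K) {b : ℂ}
    (hb : Oth n (c L) (v L) b) : ‖1 / (mul n (c L, b) - 1)‖ ≤
      ‖L + (starRingEnd ℂ) L'‖ ^ 2 / (L.re * L'.re) * (K + 1 / 2) + 1 / 2 := by
  have hpos : 0 < L.re * L'.re := mul_pos_of_neg_of_neg hL hL'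
  refine transfer hn hd (isOpen_lt Complex.continuous_re continuous_const)
    (convex_halfSpace_re_lt 0) hc hv hvp hve h1 h2 hL hL' (by positivity) (fun m hm hre => ?_) hK hb
  have h3 := harnack_half hm hre hL hL'
  rw [div_mul_eq_mul_div, le_div_iff₀ hpos]
  linarith

end Pool.Agent.Work.MLC.PriHar
end

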