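import Pool.Agent.Work.MLCM.C12
import Pool.Agent.Work.MLCM.C16
import Pool.Agent.Work.MLCM.C34
import Pool.Agent.Work.MLCM.C38
import Pool.Agent.Work.MLCM.C39

section
set_option autoImplicit false

/-! # Circle module for satellite components, part B (helper54)

The portrait of a compatible angle, its characteristic arc, and the flipped word. -/

namespace Pool.Agent.Work.MLC

open Set Circ CircleDeg1Lift Filter Topology

/-- the angles of the portrait of `x` in phase `i` -/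
def AA (N : ℕ) (x : ℝ) (i : ℕ) : Set ℝ := {a | ∃ (m : ℕ) (k : ℤ), a = 2 ^ (i + N * m) * x + k}

theorem mem_AA (N : ℕ) (x : ℝ) (i : ℕ) : 2 ^ i * x ∈ AA N x i := ⟨0, 0, by simp⟩

theorem AA_shift {N : ℕ} {x : ℝ} {i : ℕ} {a : ℝ} (h : a ∈ AA N x i) (k : ℤ) : a + k ∈ AA N x i := by
  obtain ⟨m, l, rfl⟩ := h
  exact ⟨m, l + k, by push_cast; ring⟩

theorem AA_dbl {N : ℕ} {x : ℝ} {i : ℕ} {a : ℝ} (h : a ∈ AA N x i) : 2 * a ∈ AA N x (i + 1) := by
  obtain ⟨m, l, rfl⟩ := h
  refine ⟨m, 2 * l, ?_⟩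
  rw [show i + 1 + N * m = (i + N * m) + 1 by ring, pow_succ]
  push_cast; ring

theorem AA_dbl' {N : ℕ} {x : ℝ} {i : ℕ} {a : ℝ} (h : a ∈ AA N x i) (k : ℤ) :
    2 * a - k ∈ AA N x (i + 1) := by
  have := AA_shift (AA_dbl h) (-k)
  push_cast at this
  rwa [← sub_eq_add_neg] at this

theorem AA_sur {N : ℕ} {x : ℝ} {i : ℕ} {b : ℝ} (h : b ∈ AA N x (i + 1)) :
    ∃ a ∈ AA N x i, ∃ k : ℤ, 2 * a = b + k := by
  obtain ⟨m, l, rfl⟩ := h
  refine ⟨2 ^ (i + N * m) * x, ⟨m, 0, by simp⟩, -l, ?_⟩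
  rw [show i + 1 + N * m = (i + N * m) + 1 by ring, pow_succ]
  push_cast; ring

/-- powers of the period -/
theorem pow_per_mul {x : ℝ} {M : ℕ} {a : ℤ} (h : (2 : ℝ) ^ M * x - x = a) (l : ℕ) :
    ∃ b : ℤ, (2 : ℝ) ^ (M * l) * x = x + b := by
  induction l with
  | zero => exact ⟨0, by simp⟩
  | succ l ih =>
    obtain ⟨b, hb⟩ := ih
    refine ⟨a + 2 ^ M * b, ?_⟩
    have e : (2 : ℝ) ^ (M * (l + 1)) * x = 2 ^ M * (2 ^ (M * l) * x) := by
      rw [Nat.mul_succ, pow_add]; ring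
    rw [e, hb]
    push_cast
    linear_combination h

theorem AA_per {N q : ℕ} {x : ℝ} (hx : PerAngle N q x) (i : ℕ) : AA N x (i + N) = AA N x i := by
  obtain ⟨hq, ⟨a, ha⟩, -⟩ := hx
  ext u
  constructor
  · rintro ⟨m, k, rfl⟩
    exact ⟨m + 1, k, by rw [show i + N + N * m = i + N * (m + 1) by ring]⟩
  · rintro ⟨m, k, rfl⟩
    refine ⟨m + q - 1, k - 2 ^ (i + N * m) * a, ?_⟩
    have e : i + N + N * (m + q - 1) = (i + N * m) + N * q := by
      have : m + q - 1 + 1 = m + q := by omega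
      calc i + N + N * (m + q - 1) = i + N * (m + q - 1 + 1) := by ring
        _ = (i + N * m) + N * q := by rw [this]; ring
    have e2 : (2 : ℝ) ^ (i + N * m + N * q) * x = 2 ^ (i + N * m) * (2 ^ (N * q) * x) := by
      rw [pow_add]; ring
    rw [e, e2]
    have h3 : (2 : ℝ) ^ (N * q) * x = x + a := by linarith
    rw [h3]
    push_cast; ring

theorem AA_congr {N q : ℕ} {x : ℝ} (hx : PerAngle N q x) (i m : ℕ) :
    AA N x (i + N * m) = AA N x i := by
  induction m with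
  | zero => simp
  | succ m ih => rw [show i + N * (m + 1) = (i + N * m) + N by ring, AA_per hx, ih]

theorem AA_mod {N q : ℕ} {x : ℝ} (hx : PerAngle N q x) (i : ℕ) : AA N x i = AA N x (i % N) := by
  conv_lhs => rw [← Nat.mod_add_div i N]
  exact AA_congr hx _ _

/-- phases of another point of the orbit -/
theorem AA_of_mem {N q : ℕ} {x s : ℝ} (hx : PerAngle N q x) {i : ℕ} (hs : s ∈ AA N x i) (j : ℕ) :
    AA N s j = AA N x (i + j) := by
  obtain ⟨m₀, k₀, rfl⟩ := hs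
  obtain ⟨hq, ⟨a, ha⟩, -⟩ := id hx
  ext u
  constructor
  · rintro ⟨m, k, rfl⟩
    refine ⟨m + m₀, 2 ^ (j + N * m) * k₀ + k, ?_⟩
    rw [show i + j + N * (m + m₀) = (j + N * m) + (i + N * m₀) by ring, pow_add]
    push_cast; ring
  · intro hu
    rw [← AA_congr hx (i + j) m₀] at hu
    obtain ⟨m, k, rfl⟩ := hu
    refine ⟨m, k - 2 ^ (j + N * m) * k₀, ?_⟩
    rw [show i + j + N * m₀ + N * m = (j + N * m) + (i + N * m₀) by ring, pow_add]
    push_cast; ring

theorem perAngle_of_mem {N q : ℕ} {x s : ℝ} (hx : PerAngle N q x) {i : ℕ} (hs : s ∈ AA N x i) :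
    PerAngle N q s := by
  obtain ⟨m₀, k₀, rfl⟩ := hs
  obtain ⟨hq, ⟨a, ha⟩, hex⟩ := id hx
  set M := i + N * m₀ with hM
  refine ⟨hq, ⟨2 ^ M * a + 2 ^ (N * q) * k₀ - k₀, ?_⟩, ?_⟩
  · push_cast
    linear_combination (2 : ℝ) ^ M * ha
  · rintro j hj hjq ⟨b, hb⟩
    -- go round the cycle
    by_cases hN : N = 0
    · subst hN
      exact hex j hj hjq ⟨0, by simp⟩
    have hle : M ≤ (N * q) * (M + 1) := by
      have : 1 ≤ N * q := Nat.mul_pos (Nat.pos_of_ne_zero hN) hq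
      nlinarith
    obtain ⟨d, hd⟩ := pow_per_mul ha (M + 1)
    set R := (N * q) * (M + 1) - M with hR
    have e1 : (2 : ℝ) ^ ((N * q) * (M + 1)) = 2 ^ R * 2 ^ M := by
      rw [← pow_add, hR, Nat.sub_add_cancel hle]
    refine hex j hj hjq ⟨2 ^ R * (b - 2 ^ (N * j) * k₀ + k₀) - 2 ^ (N * j) * d + d, ?_⟩
    have e2 : (2 : ℝ) ^ R * (2 ^ M * x) = x + d := by rw [← mul_assoc, ← e1, hd]
    have e3 : (2 : ℝ) ^ (N * j) * (2 ^ M * x) - 2 ^ M * x = b - 2 ^ (N * j) * k₀ + k₀ := by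
      linear_combination hb
    push_cast
    linear_combination (2 : ℝ) ^ R * e3 - ((2 : ℝ) ^ (N * j) - 1) * e2

/-! ### compatibility and half circles -/

theorem word_mod {N : ℕ} {w : ℕ → ℤ} (hw : ∀ i, w (i + N) = w i) (i m : ℕ) :
    w (i + N * m) = w i := by
  induction m with
  | zero => simp
  | succ m ih => rw [show i + N * (m + 1) = (i + N * m) + N by ring, hw, ih]

theorem inHalf_of_compat {N : ℕ} {x θ : ℝ} {w : ℕ → ℤ} (hw : ∀ i, w (i + N) = w i)
    (h : Compat x θ w) (i : ℕ) : Pool.Agent.MLC.InHalf (AA N x i) θ (w i) := by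
  rintro a ⟨m, l, rfl⟩
  obtain ⟨k, h1, h2⟩ := h (i + N * m)
  rw [word_mod hw] at h1 h2
  refine ⟨-k - l, ?_, ?_⟩ <;> push_cast <;> linarith

theorem compat_of_inHalf {N : ℕ} {x θ : ℝ} {w : ℕ → ℤ} {i₀ : ℕ} {s : ℝ} (hs : s ∈ AA N x i₀)
    (hw : ∀ i, w (i + N) = w i) (h : ∀ i, Pool.Agent.MLC.InHalf (AA N x i) θ (w i)) :
    Compat s θ (fun j => w (i₀ + j)) := by
  obtain ⟨m₀, k₀, rfl⟩ := hs
  intro j
  obtain ⟨k, h1, h2⟩ := h (i₀ + j) (2 ^ j * (2 ^ (i₀ + N * m₀) * x + k₀)) ⟨m₀, 2 ^ j * k₀, by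
    rw [show i₀ + j + N * m₀ = j + (i₀ + N * m₀) by ring, pow_add]; push_cast; ring⟩
  refine ⟨-k, ?_, ?_⟩ <;> push_cast <;> linarith

/-- images of compatible angles under the truncated doubling -/
theorem tdbl_of_inHalf {A : Set ℝ} {θ : ℝ} {e : ℤ} (h : Pool.Agent.MLC.InHalf A θ e) {a : ℝ}
    (ha : a ∈ A) : ∃ k : ℤ, tdbl (θ + e) a = 2 * a - k ∧ (θ + e) / 2 + k < a ∧
      a < (θ + e) / 2 + k + 1 / 2 := by
  obtain ⟨k, h1, h2⟩ := h a ha
  refine ⟨-k, tdbl_lin (-k) (by push_cast; linarith) (by push_cast; linarith),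
    by push_cast; linarith, by push_cast; linarith⟩

/-- **linking propagates**: two linked phases of compatible angles have the same symbol and linked
images -/
theorem linked_step {N : ℕ} {x y θ : ℝ} {w : ℕ → ℤ} (hb : ∀ i, w i = 0 ∨ w i = 1)
    (hw : ∀ i, w (i + N) = w i) (hx : Compat x θ w) (hy : Compat y θ w) {i j : ℕ}
    (h : Pool.Agent.MLC.Linked (AA N x i) (AA N y j)) :
    w i = w j ∧ Pool.Agent.MLC.Linked (AA N x (i + 1)) (AA N y (j + 1)) := by
  obtain ⟨a, ha, b, hb', c, hc, d, hd, h1, h2, h3, h4⟩ := h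
  have hX := inHalf_of_compat hw hx i
  have hY := inHalf_of_compat hw hy j
  obtain ⟨ka, ea, a1, a2⟩ := tdbl_of_inHalf hX ha
  obtain ⟨kb, eb, b1, b2⟩ := tdbl_of_inHalf hY hb'
  obtain ⟨kc, ec, c1, c2⟩ := tdbl_of_inHalf hX hc
  obtain ⟨kd, ed, d1, d2⟩ := tdbl_of_inHalf hY hd
  have hwij : w i = w j := by
    by_contra hne
    have hcase : (w i = 0 ∧ w j = 1) ∨ (w i = 1 ∧ w j = 0) := by
      rcases hb i with h | h <;> rcases hb j with h' | h'
      · exact absurd (h.trans h'.symm) hne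
      · exact Or.inl ⟨h, h'⟩
      · exact Or.inr ⟨h, h'⟩
      · exact absurd (h.trans h'.symm) hne
    -- compare the numbers of the arcs
    have key : ∀ (u v : ℤ) (p r : ℝ) (ep er : ℤ), (ep = 0 ∨ ep = 1) → (er = 0 ∨ er = 1) →
        (θ + ep) / 2 + u < p → p < (θ + ep) / 2 + u + 1 / 2 → (θ + er) / 2 + v < r →
        r < (θ + er) / 2 + v + 1 / 2 → p ≤ r → ep + 2 * u ≤ er + 2 * v := by
      intro u v p r ep er _ _ h1 h2 h3 h4 h5
      have : ((ep + 2 * u : ℤ) : ℝ) < ((er + 2 * v + 1 : ℤ) : ℝ) := by push_cast; linarith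
      have h6 : ep + 2 * u < er + 2 * v + 1 := by exact_mod_cast this
      omega
    have k1 := key ka kb a b _ _ (hb i) (hb j) a1 a2 b1 b2 h1
    have k2 := key kb kc b c _ _ (hb j) (hb i) b1 b2 c1 c2 h2
    have k3 := key kc kd c d _ _ (hb i) (hb j) c1 c2 d1 d2 h3
    have k4 := key kd (ka + 1) d (a + 1) _ _ (hb j) (hb i) d1 d2 (by push_cast; linarith)
      (by push_cast; linarith) h4
    omega
  refine ⟨hwij, 2 * a - ka, AA_dbl' ha ka, 2 * b - kb, AA_dbl' hb' kb, 2 * c - kc, AA_dbl' hc kc,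
    2 * d - kd, AA_dbl' hd kd, ?_, ?_, ?_, ?_⟩
  · rw [← ea, ← eb, hwij]; exact (tdbl _).monotone h1
  · rw [← eb, ← ec, hwij]; exact (tdbl _).monotone h2
  · rw [← ec, ← ed, hwij]; exact (tdbl _).monotone h3
  · rw [← ed, ← ea, hwij, ← map_add_one]; exact (tdbl _).monotone h4

theorem linked_word {N : ℕ} {x y θ : ℝ} {w : ℕ → ℤ} (hb : ∀ i, w i = 0 ∨ w i = 1)
    (hw : ∀ i, w (i + N) = w i) (hx : Compat x θ w) (hy : Compat y θ w) {i j : ℕ}
    (h : Pool.Agent.MLC.Linked (AA N x i) (AA N y j)) (t : ℕ) : w (i + t) = w (j + t) := by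
  have key : ∀ t, Pool.Agent.MLC.Linked (AA N x (i + t)) (AA N y (j + t)) := by
    intro t
    induction t with
    | zero => exact h
    | succ t ih => exact (linked_step hb hw hx hy ih).2
  exact (linked_step hb hw hx hy (key t)).1

/-- a primitive word has different shifts -/
theorem mod_eq_of_word {N : ℕ} (hN : 0 < N) {w : ℕ → ℤ} (hw : Word N w) {i j : ℕ}
    (h : ∀ t, w (i + t) = w (j + t)) : i % N = j % N := by
  wlog hij : i ≤ j generalizing i j
  · exact (this (fun t => (h t).symm) (by omega)).symm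
  by_contra hne
  set d := (j - i) % N with hd
  have hd0 : 0 < d := by
    rcases Nat.eq_zero_or_pos d with h0 | h0
    · exfalso; apply hne
      obtain ⟨c, hc⟩ := Nat.dvd_of_mod_eq_zero (hd ▸ h0 : (j - i) % N = 0)
      have : j = i + N * c := by omega
      rw [this, Nat.add_mul_mod_self_left]
    · exact h0
  obtain ⟨s, hs⟩ := hw.2.2 d hd0 (Nat.mod_lt _ hN)
  apply hs
  have e1 : w (s + d) = w (s + (j - i)) := by
    have := word_mod hw.2.1 (s + d) ((j - i) / N)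
    rw [← this]
    congr 1
    have := Nat.mod_add_div (j - i) N
    omega
  have e2 : w (s + (j - i)) = w (s + (j - i) + N * i) := (word_mod hw.2.1 _ _).symm
  have hNi : i ≤ N * i := Nat.le_mul_of_pos_left i hN
  have e3 := h (s + N * i - i)
  rw [e1, e2]
  have e4 : j + (s + N * i - i) = s + (j - i) + N * i := by omega
  have e5 : i + (s + N * i - i) = s + N * i := by omega
  rw [e4, e5] at e3
  rw [← e3, word_mod hw.2.1]

theorem not_linked {N : ℕ} (hN : 0 < N) {x y θ : ℝ} {w : ℕ → ℤ} (hw : Word N w)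
    (hx : Compat x θ w) (hy : Compat y θ w) {i j : ℕ} (hij : i % N ≠ j % N) :
    ¬ Pool.Agent.MLC.Linked (AA N x i) (AA N y j) := fun h =>
  hij (mod_eq_of_word hN hw (linked_word hw.1 hw.2.1 hx hy h))

/-- **the portrait of a compatible angle** -/
theorem portrait_AA {N q : ℕ} (hN : 0 < N) (hq : 2 ≤ q) {x θ : ℝ} {w : ℕ → ℤ} (hw : Word N w)
    (hx : PerAngle N q x) (hc : Compat x θ w) : Pool.Agent.MLC.Portrait N (AA N x) where
  per := AA_per hx
  shift := fun i a ha k => AA_shift ha k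
  fin := by
    intro i
    obtain ⟨hq0, ⟨a, ha⟩, -⟩ := id hx
    have h1 : AA N x i ∩ Set.Ico 0 1 ⊆ (fun m : ℕ => Int.fract (2 ^ (i + N * m) * x)) '' (Set.Iio q) := by
      rintro u ⟨⟨m, k, rfl⟩, h0, h1⟩
      obtain ⟨b, hb⟩ := pow_per_mul ha (m / q)
      refine ⟨m % q, Nat.mod_lt _ hq0, ?_⟩
      have h2 : (2 : ℝ) ^ (i + N * m) * x = 2 ^ (i + N * (m % q)) * x +
          ((2 ^ (i + N * (m % q)) * b : ℤ) : ℝ) := by
        have e : i + N * m = (i + N * (m % q)) + N * q * (m / q) := by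
          conv_lhs => rw [← Nat.mod_add_div m q]
          ring
        rw [e, pow_add, mul_assoc, hb]
        push_cast; ring
      show Int.fract (2 ^ (i + N * (m % q)) * x) = 2 ^ (i + N * m) * x + k
      rw [Int.fract_eq_iff]
      refine ⟨h0, h1, -(2 ^ (i + N * (m % q)) * b + k), ?_⟩
      rw [h2]; push_cast; ring
    exact ((Set.finite_Iio q).image _).subset h1
  dbl := fun i a ha => AA_dbl ha
  sur := fun i b hb => AA_sur hb
  two := by
    intro i
    have hs := perAngle_of_mem hx (mem_AA N x i)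
    obtain ⟨-, -, hex⟩ := hs
    set u : ℝ := 2 ^ i * x with hu
    set v : ℝ := 2 ^ N * u with hv
    have hvA : v ∈ AA N x i := ⟨1, 0, by rw [hv, hu, mul_one, pow_add]; push_cast; ring⟩
    refine ⟨u, mem_AA N x i, v + ((-⌊v - u⌋ : ℤ) : ℝ), AA_shift hvA _, ?_, ?_⟩
    · have h1 := Int.floor_le (v - u)
      have h2 : u ≤ v + ((-⌊v - u⌋ : ℤ) : ℝ) := by push_cast; linarith
      refine lt_of_le_of_ne h2 fun h => ?_
      exact hex 1 one_pos (by omega) ⟨⌊v - u⌋, by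
        rw [mul_one]; push_cast at h; linarith⟩
    · have := Int.lt_floor_add_one (v - u)
      push_cast; linarith
  half := by
    intro i
    refine ⟨(θ + w i) / 2, fun a ha => ?_⟩
    exact inHalf_of_compat hw.2.1 hc i a ha
  unl := by
    intro i j
    by_cases h : i % N = j % N
    · left
      rw [AA_mod hx i, AA_mod hx j, h]
    · exact Or.inr (not_linked hN hw hc hc h)

end Pool.Agent.Work.MLC
end

section
set_option autoImplicit false

/-! # Theorem S, module S12: the points near the parent point are points of the family (helper49)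

`s12_child : S11_deriv → S12_child`. -/

namespace Pool.Agent.Work.MLC.Sat

open Filter Topology Metric Set Complex

variable {D : Dat}

lemma Qa49 (D : Dat) : exp ((D.x.den : ℂ) * D.a) = 1 := by
  rw [Complex.exp_eq_one_iff]
  refine ⟨D.x.num, ?_⟩
  have h1 : ((D.x.den : ℝ) : ℂ) * ((D.x : ℝ) : ℂ) = ((D.x.num : ℝ) : ℂ) := by
    rw [← ofReal_mul]
    congr 1
    have : (D.x.den : ℚ) * D.x = D.x.num := Rat.den_mul_eq_num D.x
    exact_mod_cast this
  have h2 : D.a = 2 * Real.pi * ((D.x : ℝ) : ℂ) * I := by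
    unfold Dat.a axisPt
    push_cast
    ring
  rw [h2]
  have h3 : ((D.x.den : ℝ) : ℂ) = (D.x.den : ℂ) := by push_cast; rfl
  have h4 : ((D.x.num : ℝ) : ℂ) = (D.x.num : ℂ) := by push_cast; rfl
  rw [h3, h4] at h1
  linear_combination (2 * Real.pi * I) * h1

/-- the multiplier of the parent point for the `n`-th iterate -/
lemma mul_parent49 (h : D.Par) {L : ℂ} (hL : L ∈ D.B) :
    (D.c L, D.b L) ∈ Per D.n ∧ mul D.n (D.c L, D.b L) = exp (D.x.den * (L - D.a)) := by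
  obtain ⟨h1, h2⟩ := h.sec L hL
  have h3 : it (D.c L) D.m (D.b L) = D.b L := h1
  refine ⟨One49.it_mul_per h3 _, ?_⟩
  have h4 := One49.mult_pow h3 D.x.den
  have h5 : mult D.m (D.c L) (D.b L) = exp L := h2
  rw [h5, ← Complex.exp_nat_mul] at h4
  have h6 : exp ((D.x.den : ℂ) * (L - D.a)) = exp (D.x.den * L) := by
    rw [mul_sub, Complex.exp_sub, Qa49, div_one]
  rw [h6]
  exact h4

/-- `K` is attracting on the positive side of the root -/
lemma K_attr49 {K : ℂ → ℂ} {a : ℂ} {q : ℝ} (hq : 0 < q) (hK : HasDerivAt K (-(q : ℂ)) a)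
    (h1 : K a = 1) : ∀ᶠ s : ℝ in 𝓝[>] 0, ‖K (a + s)‖ < 1 := by
  have h2 := hasDerivAt_iff_isLittleO.1 hK
  have h3 : ∀ᶠ z in 𝓝 a, ‖K z - K a - (z - a) • (-(q : ℂ))‖ ≤ q / 2 * ‖z - a‖ :=
    h2.bound (by positivity)
  have h4 : Tendsto (fun s : ℝ => a + (s : ℂ)) (𝓝[>] 0) (𝓝 a) := by
    have : Continuous fun s : ℝ => a + (s : ℂ) := by fun_prop
    have h5 := this.tendsto 0
    simp only [ofReal_zero, add_zero] at h5
    exact h5.mono_left nhdsWithin_le_nhds
  have h5 : ∀ᶠ s : ℝ in 𝓝[>] 0, s < 1 / q :=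
    mem_nhdsWithin_of_mem_nhds (gt_mem_nhds (by positivity))
  filter_upwards [h4.eventually h3, self_mem_nhdsWithin, h5] with s h6 hs h7
  rw [h1, add_sub_cancel_left] at h6
  have hs0 : 0 < s := hs
  have h8 : ‖(s : ℂ)‖ = s := by rw [Complex.norm_real, Real.norm_eq_abs, abs_of_pos hs0]
  rw [h8] at h6
  have h9 : K (a + s) = (K (a + s) - 1 - (s : ℂ) • (-(q : ℂ))) + ((1 - q * s : ℝ) : ℂ) := by
    rw [smul_eq_mul]; push_cast; ring
  have h10 : q * s < 1 := by
    rw [lt_div_iff₀ hq] at h7; linarith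
  have h11 : ‖((1 - q * s : ℝ) : ℂ)‖ = 1 - q * s := by
    rw [Complex.norm_real, Real.norm_eq_abs, abs_of_pos (by linarith)]
  rw [h9]
  refine (norm_add_le _ _).trans_lt ?_
  rw [h11]
  have : 0 < q * s := by positivity
  linarith

end Pool.Agent.Work.MLC.Sat
end

section
set_option autoImplicit false

/-! # The limb bound and local connectivity with satellite components (helper6) -/

namespace Pool.Agent.Work.MLC

open Filter Topology Metric Set

/-- a piece of `M` at `r` of size `ε` -/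
def Piece (r : ℂ) (ε : ℝ) : Prop :=
  ∃ K ⊆ MS, IsCompact K ∧ IsPreconnected K ∧ r ∈ K ∧
    (∀ z ∈ K, z ≠ r → K \ {r} ∈ 𝓝[MS] z) ∧ K ⊆ closedBall r ε ∧
    ∃ V : Set ℂ, V.Nonempty ∧ ∀ z ∈ MS, z ∉ K → V ⊆ connectedComponentIn (MS \ {r}) z

theorem Piece.of_limb {x : ℚ} {R A : ℝ} {g : ℂ → ℂ} {T : ℂ → ℚ → Prop}
    (h : LimbData MS x R A g T) (hadm : A / x.den < R) {r : ℂ} (hr : g (axisPt x) = r) {ε : ℝ}
    (hK : LimbData.K g T x ⊆ closedBall r ε) : Piece r ε := by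
  have hadm' : LimbData.Adm x R A x := by
    unfold LimbData.Adm
    rw [sub_self, abs_zero, mul_zero, add_zero]
    exact hadm
  refine ⟨_, h.K_sub hadm', h.isCompact_K inputs34.cpt.isClosed hadm',
    h.K_conn inputs34.cpt.isClosed inputs34.conn hadm', Or.inl hr.symm, ?_, hK, ?_⟩
  · intro z hz hzr
    have h1 := h.K_open hadm' hz (by rw [hr]; exact hzr)
    rwa [hr] at h1
  · have h1 := h.main inputs34.cpt inputs34.conn hadm'
    rwa [hr] at h1

/-- the trivial piece -/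
theorem Piece.trivial {r : ℂ} (hr : r ∈ MS) {ε : ℝ} (hε : 8 ≤ ε) : Piece r ε := by
  refine ⟨MS, le_rfl, inputs34.cpt, inputs34.conn, hr, ?_, ?_, {0}, singleton_nonempty _, ?_⟩
  · intro z _ hzr
    have : MS \ {r} = MS ∩ {r}ᶜ := rfl
    rw [this]
    exact inter_mem self_mem_nhdsWithin (mem_nhdsWithin_of_mem_nhds
      (isOpen_compl_singleton.mem_nhds hzr))
  · intro z hz
    rw [mem_closedBall, dist_eq_norm]
    calc ‖z - r‖ ≤ ‖z‖ + ‖r‖ := norm_sub_le _ _
      _ ≤ 4 + 4 := add_le_add (norm_MS hz) (norm_MS hr)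
      _ ≤ _ := by linarith
  · intro z hz hz2
    exact absurd hz hz2

/-- a parameter with a neutral cycle is in `M` -/
theorem mem_MS_of_norm {n : ℕ} (hn : 0 < n) {r b : ℂ} (hb : it r n b = b)
    (hm : ‖mul n (r, b)‖ = 1) : r ∈ MS := by
  by_contra h0
  have h1 := inputs34.rep n hn (r, b) hb h0
  rw [hm] at h1
  exact lt_irrefl _ h1

theorem Piece.mono {r : ℂ} {ε ε' : ℝ} (h : Piece r ε) (hε : ε ≤ ε') : Piece r ε' := by
  obtain ⟨K, h1, h2, h3, h4, h5, h6, h7⟩ := h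
  exact ⟨K, h1, h2, h3, h4, h5, h6.trans (closedBall_subset_closedBall hε), h7⟩

lemma green_le {n : ℕ} (hn : 0 < n) {c z ℓ : ℂ} (h1 : (c, z) ∈ Per n)
    (h2 : mul n (c, z) = Complex.exp ℓ) {R : ℝ} (hR : 0 ≤ R) (hℓ : ℓ.re ≤ R) :
    G c c ≤ 2 * R / n := by
  have hn' : (0 : ℝ) < n := by exact_mod_cast hn
  rcases (G_nonneg c c).eq_or_lt with h5 | h5
  · rw [← h5]; positivity
  · have h6 := K0 h5 hn h1
    have h7 : Real.log ‖mult n c z‖ = ℓ.re := by
      have : mult n c z = mul n (c, z) := rfl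
      rw [this, h2, Complex.norm_exp, Real.log_exp]
    rw [h7] at h6
    calc G c c = 2 * (n * G c c / 2) / n := by field_simp
      _ ≤ 2 * R / n := by gcongr; exact h6.trans hℓ

/-- pieces are small at large levels, condition (A) -/
theorem small_A {ε : ℝ} (hε : 0 < ε) : ∃ N : ℕ, ∀ (n p q : ℕ) (r b : ℂ), N ≤ n → 0 < n → 0 < p →
    p < q → Nat.Coprime p q → it r n b = b →
    mul n (r, b) = Complex.exp (2 * Real.pi * (p / q) * Complex.I) →
    16 * Real.log 2 * (n : ℝ) ^ 2 * q ≤ (min (p : ℝ) (q - p)) ^ 2 → Piece r ε := by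
  obtain ⟨e, he, hT⟩ := LimbData.small inputs34.cpt hε
  obtain ⟨N, hN⟩ := exists_nat_gt (1 / e)
  refine ⟨N, fun n p q r b hNn hn hp hpq hcop hb hm hsm => ?_⟩
  obtain ⟨x, σ, T, hden, hR0, hG, hσ, hσ', hσ0, hL⟩ := limb_piece inputs34 hn hp hpq hcop hb hm
  have hlog : 0 < Real.log 2 := Real.log_pos (by norm_num)
  have hq : 0 < q := hp.trans hpq
  have hq' : (0 : ℝ) < q := by exact_mod_cast hq
  have hn' : (0 : ℝ) < n := by exact_mod_cast hn
  have hn1 : (1 : ℝ) ≤ n := by exact_mod_cast hn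
  have hp' : (0 : ℝ) < p := by exact_mod_cast hp
  have hpq' : (p : ℝ) < q := by exact_mod_cast hpq
  set m : ℝ := min (p : ℝ) (q - p) with hmdef
  have hm0 : 0 < m := lt_min hp' (by linarith)
  have hmq : m ≤ q := (min_le_right _ _).trans (by linarith)
  set R : ℝ := 1 / 4 * m ^ 2 / (q ^ 2 * n) with hR
  have hAR : 2 * (2 * n * Real.log 2 / x.den) ≤ R := by
    rw [hden, hR, ← mul_div_assoc, div_le_div_iff₀ hq' (by positivity)]
    have : 2 * (2 * n * Real.log 2) * (q ^ 2 * n) = 1 / 4 * (16 * Real.log 2 * n ^ 2 * q) * q := by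
      ring
    rw [this]
    gcongr
  have hA0 : 0 < 2 * n * Real.log 2 / x.den := by rw [hden]; positivity
  have hr1 : (σ (axisPt x)).1 = r := by rw [hσ0]
  have hRn : 2 * R / n ≤ e := by
    have h1 : 1 / e < n := hN.trans_le (by exact_mod_cast hNn)
    have h2 : 1 < n * e := by rwa [div_lt_iff₀ he] at h1
    have h4 : m ^ 2 ≤ (q : ℝ) ^ 2 := by gcongr
    have h5 : R ≤ 1 / 4 := by
      rw [hR, div_le_div_iff₀ (by positivity) (by norm_num)]
      nlinarith [sq_nonneg (q : ℝ)]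
    rw [div_le_iff₀ hn']
    linarith
  have h1 := hT x R _ _ _ hL hAR (section_differentiableOn hG hσ hσ') (fun L hL' => by
    obtain ⟨h3, h4⟩ := hσ' L hL'
    exact (Per_bdd hn h3 (by rw [h4]; exact hG.lt L hL')).1) (fun L hL' => by
    obtain ⟨h3, h4⟩ := hσ' L hL'
    have h5 : L.re ≤ R := by
      rw [mem_ball, dist_eq_norm] at hL'
      have h10 := (Complex.re_le_norm (L - axisPt x)).trans hL'.le
      rwa [Complex.sub_re, LimbData.axisPt_re, sub_zero] at h10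
    exact (green_le hn h3 h4 hR0.le h5).trans hRn)
  refine Piece.of_limb hL ?_ hr1 ?_
  · linarith
  · rw [hr1] at h1
    exact h1

/-- the explicit limb bound, piece version -/
theorem piece_A {n p q : ℕ} {r b : ℂ} (hn : 0 < n) (hp : 0 < p) (hpq : p < q)
    (hcop : Nat.Coprime p q) (hb : it r n b = b)
    (hm : mul n (r, b) = Complex.exp (2 * Real.pi * (p / q) * Complex.I)) :
    Piece r (50 * ((n : ℝ) ^ 2 * q / (min (p : ℝ) (q - p)) ^ 2)) := by
  have hlog : 0 < Real.log 2 := Real.log_pos (by norm_num)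
  have hlog2 : Real.log 2 < 0.6931471808 := Real.log_two_lt_d9
  obtain ⟨x, σ, T, hden, hR0, hG, hσ, hσ', hσ0, hL⟩ := limb_piece inputs34 hn hp hpq hcop hb hm
  have hq : 0 < q := hp.trans hpq
  have hq' : (0 : ℝ) < q := by exact_mod_cast hq
  have hn' : (0 : ℝ) < n := by exact_mod_cast hn
  have hp' : (0 : ℝ) < p := by exact_mod_cast hp
  have hpq' : (p : ℝ) < q := by exact_mod_cast hpq
  set μ : ℝ := min (p : ℝ) (q - p) with hmdef
  have hm0 : 0 < μ := lt_min hp' (by linarith)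
  set R : ℝ := 1 / 4 * μ ^ 2 / (q ^ 2 * n) with hR
  have hr1 : (σ (axisPt x)).1 = r := by rw [hσ0]
  rcases lt_or_ge (2 * n * Real.log 2 / x.den) R with hAR | hAR
  · refine Piece.of_limb hL hAR hr1 ?_
    have h1 := hL.size hAR (section_differentiableOn hG hσ hσ') (fun L hL' => by
      obtain ⟨h3, h4⟩ := hσ' L hL'
      exact (Per_bdd hn h3 (by rw [h4]; exact hG.lt L hL')).1)
    rw [hr1] at h1
    refine h1.trans (closedBall_subset_closedBall ?_)
    rw [hden, hR]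
    have h2 : 9 * (2 * (n : ℝ) * Real.log 2 / q) / (1 / 4 * μ ^ 2 / (q ^ 2 * n)) =
        72 * Real.log 2 * (n ^ 2 * q / μ ^ 2) := by
      field_simp
      ring
    rw [h2]
    have h3 : 0 < (n : ℝ) ^ 2 * q / μ ^ 2 := by positivity
    nlinarith
  · refine Piece.trivial (mem_MS_of_norm hn hb ?_) ?_
    · rw [hm, Complex.norm_exp]
      simp
    · rw [hden, hR, div_le_div_iff₀ (by positivity) hq'] at hAR
      rw [← mul_div_assoc, le_div_iff₀ (by positivity)]
      have h1 : 1 / 4 * μ ^ 2 * q ≤ (2 * Real.log 2 * n ^ 2 * q) * q := by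
        calc 1 / 4 * μ ^ 2 * q ≤ 2 * n * Real.log 2 * (q ^ 2 * n) := hAR
          _ = _ := by ring
      have h2 : 1 / 4 * μ ^ 2 ≤ 2 * Real.log 2 * n ^ 2 * q := le_of_mul_le_mul_right h1 hq'
      have h3 : 0 < (n : ℝ) ^ 2 * q := by positivity
      nlinarith

namespace Sat

end Sat

end Pool.Agent.Work.MLC
end

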