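import Pool.Agent.Work.MLCM.C16
import Pool.Agent.Work.MLCM.C25
import Pool.Agent.Work.MLCM.C38
import Pool.Agent.Work.MLCM.C40
import Pool.Agent.Work.MLCM.C41
import Pool.Agent.Work.MLCM.C42
import Pool.Agent.Work.MLCM.C43

section
set_option autoImplicit false

/-! # Limits of the pairs of one label with rotation number in a compact interval (helper69)

If pairs of `NJ m J` with rotation number in `[x₁, x₂]`, `0 < x₁`, `x₂ < 1`, exist over parameters
tending to `c₀ ∈ MM`, then over `c₀` there is such a pair, or a neutral pair in the closure with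
rotation number in `[x₁, x₂]`. -/

namespace Pool.Agent.Work.MLC

open Filter Topology Metric Set Complex

namespace Sat

/-- PLY: exterior pairs with multiplier close to `1` have rotation number close to an integer -/
theorem ext_near_one {n : ℕ} (hn : 0 < n) {α : ℝ} (hα : 0 < α) :
    ∃ η > 0, ∀ (y : ℂ × ℂ) (L : ℂ) (θ : ℝ) (w : ℕ → ℤ), ExtP n y.1 y.2 θ w → mul n y = exp L →
      ‖L‖ < η → ¬ (α ≤ Int.fract (Circ.nu w n θ) ∧ Int.fract (Circ.nu w n θ) ≤ 1 - α) := by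
  have hn' : (1 : ℝ) ≤ n := by exact_mod_cast hn
  obtain ⟨ε, hε, hεb⟩ : ∃ ε : ℝ, 0 < ε ∧ ∀ L : ℂ, ‖L‖ < ε → ‖exp L‖ < 23 / 10 := by
    have h1 : ∀ᶠ L in 𝓝 (0 : ℂ), ‖exp L‖ < 23 / 10 := by
      have h3 : Continuous fun L : ℂ => ‖exp L‖ := by fun_prop
      refine h3.continuousAt.eventually (gt_mem_nhds ?_)
      simp; norm_num
    obtain ⟨ε, hε, hb⟩ := Metric.eventually_nhds_iff_ball.1 h1
    exact ⟨ε, hε, fun L hL => hb L (by rwa [mem_ball_zero_iff])⟩
  refine ⟨min ε (min α (α ^ 2 / (81 * n))), by positivity, ?_⟩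
  intro y L θ w hE hmL hL ⟨hα1, hα2⟩
  have hL1 : ‖L‖ < ε := hL.trans_le (min_le_left _ _)
  have hL2 : ‖L‖ < α := hL.trans_le ((min_le_right _ _).trans (min_le_left _ _))
  have hL3 : ‖L‖ < α ^ 2 / (81 * n) := hL.trans_le ((min_le_right _ _).trans (min_le_right _ _))
  have h23 : ‖mul n y‖ < 23 / 10 := by rw [hmL]; exact hεb L hL1
  obtain ⟨-, l, hl, hply⟩ := extP_ply hn hE (G_le_four_of_mul_lt hn hE.2.2.1 h23)
  set ν := Circ.nu w n θ with hν
  have h6 : exp l = exp L := by rw [hl, ← hmL]; rfl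
  rw [Complex.exp_eq_exp_iff_exists_int] at h6
  obtain ⟨m, hm'⟩ := h6
  have h7 : l.re = L.re := by rw [hm']; simp
  have h8 : l.im = L.im + 2 * Real.pi * m := by rw [hm']; simp; ring
  have hLre : L.re ≤ α ^ 2 / (81 * n) := (re_le_norm L).trans hL3.le
  have hLim : |L.im| < α := (abs_im_le_norm L).trans_lt hL2
  have h9 : |l.im - 2 * Real.pi * ν| ≤ α := by
    have h10 := abs_im_le_norm (l - 2 * Real.pi * (ν : ℂ) * I)
    have h11 : (l - 2 * Real.pi * (ν : ℂ) * I).im = l.im - 2 * Real.pi * ν := by simp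
    rw [h11] at h10
    refine h10.trans ?_
    refine le_of_sq_le_sq ?_ hα.le
    refine hply.trans ?_
    rw [h7]
    calc 81 * (n : ℝ) * L.re ≤ 81 * n * (α ^ 2 / (81 * n)) := by gcongr
      _ = α ^ 2 := by field_simp
  have h12 : ν = ⌊ν⌋ + Int.fract ν := (Int.floor_add_fract ν).symm
  set f := Int.fract ν with hf
  have h13 : |(⌊ν⌋ : ℝ) + f - m| < α := by
    have h14 : 2 * Real.pi * ((⌊ν⌋ : ℝ) + f - m) =
        L.im - (l.im - 2 * Real.pi * ν) := by rw [h8, ← h12]; ring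
    have h15 : 2 * Real.pi * |(⌊ν⌋ : ℝ) + f - m| ≤ |L.im| + |l.im - 2 * Real.pi * ν| := by
      have h16 := congrArg abs h14
      rw [abs_mul, abs_of_pos (by positivity)] at h16
      rw [h16]
      exact abs_sub _ _
    have := Real.pi_gt_three
    nlinarith [abs_nonneg ((⌊ν⌋ : ℝ) + f - m)]
  have h14 := abs_lt.1 h13
  have h15 : (m : ℝ) < ⌊ν⌋ + 1 := by linarith
  have h16 : (⌊ν⌋ : ℝ) < m := by linarith
  have h17 : m < ⌊ν⌋ + 1 := by exact_mod_cast h15
  have h18 : ⌊ν⌋ < m := by exact_mod_cast h16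
  omega

/-- no limit with multiplier `1` -/
theorem no_limit_one {m : ℕ} (hm : 0 < m) {J : Lab m} {x₁ x₂ : ℝ} (h1 : 0 < x₁) (h2 : x₂ < 1)
    {y₀ : ℂ × ℂ} (hy₀ : mul m y₀ = 1) :
    ¬ ∃ᶠ y in 𝓝 y₀, y ∈ NJ m J ∧ ∃ r, Rt m y r ∧ x₁ ≤ r ∧ r ≤ x₂ := by
  intro hfreq
  set α : ℝ := min (x₁ / 2) ((1 - x₂) / 2) with hα
  have hα0 : 0 < α := lt_min (by linarith) (by linarith)
  have hα1 : α ≤ x₁ / 2 := min_le_left _ _
  have hα2 : α ≤ (1 - x₂) / 2 := min_le_right _ _
  obtain ⟨η, hη, hext⟩ := ext_near_one hm hα0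
  obtain ⟨ε, hε, hε1, hεη, hεb⟩ : ∃ ε : ℝ, 0 < ε ∧ ε ≤ 1 ∧ ε ≤ η ∧
      ∀ L : ℂ, ‖L‖ < ε → ‖exp L‖ < 23 / 10 := by
    have h1 : ∀ᶠ L in 𝓝 (0 : ℂ), ‖exp L‖ < 23 / 10 := by
      have h3 : Continuous fun L : ℂ => ‖exp L‖ := by fun_prop
      refine h3.continuousAt.eventually (gt_mem_nhds ?_)
      simp; norm_num
    obtain ⟨ε, hε, hb⟩ := Metric.eventually_nhds_iff_ball.1 h1
    refine ⟨min ε (min 1 η), by positivity, (min_le_right _ _).trans (min_le_left _ _),
      (min_le_right _ _).trans (min_le_right _ _), fun L hL => hb L ?_⟩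
    rw [mem_ball_zero_iff]
    exact hL.trans_le (min_le_left _ _)
  set B : Set ℂ := ball 0 ε ∩ {L : ℂ | 0 < L.re} with hB
  have hBc : IsPreconnected B :=
    ((convex_ball _ _).inter (convex_halfSpace_re_gt 0)).isPreconnected
  have hBo : IsOpen B := isOpen_ball.inter (isOpen_lt continuous_const continuous_re)
  have hBn : ∀ L ∈ B, ‖L‖ < ε := fun L hL => mem_ball_zero_iff.1 hL.1
  have hBe : ∀ L ∈ B, 1 < ‖exp L‖ := by
    intro L hL
    rw [norm_exp]; exact Real.one_lt_exp_iff.2 hL.2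
  -- no exterior pairs
  have hnoext : ∀ (y : ℂ × ℂ) (L : ℂ), L ∈ B → mul m y = exp L → ∀ r, Rt m y r → α ≤ r →
      r ≤ 1 - α → y.1 ∈ MM := by
    intro y L hL hmL r hr h3 h4
    rcases hr with ⟨θ, w, hE, rfl⟩ | ⟨hM, -⟩
    · exact (hext y L θ w hE hmL ((hBn L hL).trans_le hεη) ⟨h3, h4⟩).elim
    · exact mem_M_iff.2 hM
  -- the logarithm
  have hlog : Tendsto (fun y => Complex.log (mul m y)) (𝓝 y₀) (𝓝 0) := by
    have h3 : ContinuousAt (fun y => Complex.log (mul m y)) y₀ :=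
      (continuous_mul' m).continuousAt.clog (by rw [hy₀]; exact one_mem_slitPlane)
    have h4 := h3.tendsto
    rwa [hy₀, log_one] at h4
  set A : Set (ℂ × ℂ) := {y | y ∈ NJ m J ∧ y.1 ∈ MM ∧ ∃ r, Rt m y r ∧ x₁ / 2 < r ∧
    r < (1 + x₂) / 2} with hA
  have hAP : A ⊆ Per m := fun y hy => hy.1.1
  have hAb : Bornology.IsBounded A := by
    obtain ⟨R, hR⟩ := isCompact_MM.isBounded.exists_norm_le
    refine isBounded_iff_forall_norm_le.2 ⟨max R (1 + R), fun y hy => ?_⟩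
    rw [Prod.norm_def]
    refine max_le_max (hR _ hy.2.1) ?_
    exact (norm_le_of_per hm (show (y.1, y.2) ∈ Per m from hy.1.1)).trans
      (by have := hR _ hy.2.1; linarith)
  have hlogB : ∀ᶠ y in 𝓝 y₀, 1 < ‖mul m y‖ → Complex.log (mul m y) ∈ B ∧
      mul m y = exp (Complex.log (mul m y)) := by
    filter_upwards [hlog.eventually (ball_mem_nhds (0 : ℂ) hε)] with y h3 h4
    have h6 : mul m y ≠ 0 := by
      intro h6
      rw [h6, norm_zero] at h4
      linarith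
    refine ⟨⟨h3, ?_⟩, (exp_log h6).symm⟩
    show 0 < (Complex.log (mul m y)).re
    rw [Complex.log_re]
    exact Real.log_pos h4
  -- a first point
  obtain ⟨y, ⟨hy1, r, hr, hr1, hr2⟩, hy2⟩ := (hfreq.and_eventually hlogB).exists
  obtain ⟨hy3, hy4⟩ := hy2 hy1.2.1
  have hyM : y.1 ∈ MM := hnoext y _ hy3 hy4 r hr (by linarith) (by linarith)
  have hyA : y ∈ A := ⟨hy1, hyM, r, hr, by linarith, by linarith⟩
  have hopen : ∀ y ∈ A, ∀ L ∈ B, mul m y = exp L → ∀ᶠ y' in 𝓝 y, y' ∈ Per m → y' ∈ A := by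
    rintro y ⟨hy1, hy2, r, hr, hr1, hr2⟩ L hL hmL
    have hG : G y.1 0 = 0 := mem_M_iff.1 hy2
    have hexpB : ∀ᶠ y' in 𝓝 y, ∃ L' ∈ B, mul m y' = exp L' := by
      have h3 : ∀ᶠ z in 𝓝 (exp L), ∃ L' ∈ B, z = exp L' := by
        have h4 : exp '' B ∈ 𝓝 (exp L) := by
          have h5 : IsOpenMap (Complex.exp) := Complex.isOpenMap_exp
          exact (h5 B hBo).mem_nhds ⟨L, hL, rfl⟩
        filter_upwards [h4] with z hz
        obtain ⟨L', h6, h7⟩ := hz
        exact ⟨L', h6, h7.symm⟩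
      rw [← hmL] at h3
      exact (continuous_mul' m).continuousAt.eventually h3
    filter_upwards [FF_nhds_gen hm hy1.1 hy1.2.1 hy1.2.2.1, hexpB,
      Rt_nhds hm hy1.1 hy1.2.1 hy1.2.2.1 hr one_pos] with y' h3 h4 h5 h6
    obtain ⟨L', h7, h8⟩ := h4
    obtain ⟨r', -, h9, h10⟩ := h5 h6
    have h11 := h10 hG
    subst h11
    have h12 : 1 < ‖mul m y'‖ := by rw [h8]; exact hBe _ h7
    exact ⟨⟨h6, h12, (h3 h6).2, by rw [(h3 h6).1]; exact hy1.2.2.2⟩,
      hnoext y' L' h7 h8 r' h9 (by linarith) (by linarith), r', h9, hr1, hr2⟩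
  have hclM : ∀ y ∈ closure A, y.1 ∈ MM := by
    intro y hy
    have h3 : IsClosed {y : ℂ × ℂ | y.1 ∈ MM} := isCompact_MM.isClosed.preimage continuous_fst
    exact closure_minimal (fun z hz => hz.2.1) h3 hy
  have hclosed : ∀ y ∈ closure A, ∀ L ∈ B, mul m y = exp L → y ∈ A := by
    intro y hy L hL hmL
    have hP : y ∈ Per m := closure_minimal hAP (isClosed_Per m) hy
    have hρ : 1 < ‖mul m y‖ := by rw [hmL]; exact hBe _ hL
    have hyJ : y ∈ NJ m J := s3_closed m J y hm hP hρ (hclM y hy)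
      (closure_mono (fun z hz => hz.1) hy)
    obtain ⟨r, hr⟩ := exists_Rt hm hyJ.1 hyJ.2.1 hyJ.2.2.1
    have hG : G y.1 0 = 0 := mem_M_iff.1 (hclM y hy)
    rw [mem_closure_iff_frequently] at hy
    obtain ⟨y', h4, h5⟩ := (hy.and_eventually
      (Rt_nhds hm hyJ.1 hyJ.2.1 hyJ.2.2.1 hr one_pos)).exists
    obtain ⟨r', -, h6, h7⟩ := h5 h4.1.1
    obtain ⟨r'', h8, h9, h10⟩ := h4.2.2
    have h11 := h6.unique hm h4.1.1 h4.1.2.1 h8
    refine ⟨hyJ, mem_M_iff.2 hG, r'', ?_, h9, h10⟩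
    rw [← h11, h7 hG]; exact hr
  have hfill := fill hm hBc (fun L hL h => by
    have := hBe L hL
    rw [h, norm_one] at this
    exact lt_irrefl _ this) (fun L hL => hεb L (hBn L hL)) hAP hAb hopen hclosed hyA hy3 hy4
  -- a neutral limit
  have hpi := Real.pi_gt_three
  set φ : ℝ := min (x₁ / 4) (min (ε / (4 * Real.pi)) (1 / 2)) with hφ
  have hφ0 : 0 < φ := by positivity
  have hφ1 : φ < 1 := (min_le_right _ _).trans_lt ((min_le_right _ _).trans_lt (by norm_num))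
  have hφ2 : 2 * Real.pi * φ < ε := by
    have h3 : φ ≤ ε / (4 * Real.pi) := (min_le_right _ _).trans (min_le_left _ _)
    calc 2 * Real.pi * φ ≤ 2 * Real.pi * (ε / (4 * Real.pi)) := by gcongr
      _ = ε / 2 := by field_simp; ring
      _ < ε := by linarith
  have hφ3 : φ < x₁ / 2 := (min_le_left _ _).trans_lt (by linarith)
  obtain ⟨z, hz, hmz⟩ : ∃ y ∈ closure A, mul m y = exp (2 * Real.pi * φ * I) := by
    have hK : IsCompact (closure A) := hAb.isCompact_closure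
    have hKm : IsClosed (mul m '' closure A) := (hK.image (continuous_mul' m)).isClosed
    set t : ℂ := 2 * Real.pi * φ * I with ht
    have htn : ‖t‖ < ε := by
      rw [ht, norm_mul, norm_I, mul_one]
      have : (2 * Real.pi * φ : ℂ) = ((2 * Real.pi * φ : ℝ) : ℂ) := by push_cast; ring
      rw [this, norm_real, Real.norm_of_nonneg (by positivity)]
      exact hφ2
    have htre : t.re = 0 := by simp [ht]
    have h1 : t ∈ closure B := by
      rw [mem_closure_iff_frequently]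
      have h2 : Tendsto (fun u : ℝ => (t + u : ℂ)) (𝓝[>] 0) (𝓝 t) := by
        have h3 : ContinuousAt (fun u : ℝ => (t + u : ℂ)) 0 := by fun_prop
        have h4 := h3.tendsto
        simp only [ofReal_zero, add_zero] at h4
        exact h4.mono_left nhdsWithin_le_nhds
      have h3 : ∀ᶠ u : ℝ in 𝓝[>] 0, (t + u : ℂ) ∈ B := by
        have h4 : t ∈ ball (0 : ℂ) ε := by rwa [mem_ball_zero_iff]
        filter_upwards [h2.eventually (isOpen_ball.mem_nhds h4), self_mem_nhdsWithin] with u h5 h6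
        refine ⟨h5, ?_⟩
        show 0 < (t + u : ℂ).re
        rw [add_re, htre, ofReal_re, zero_add]; exact h6
      exact h2.frequently h3.frequently
    have h2 : exp t ∈ closure (exp '' B) :=
      image_closure_subset_closure_image continuous_exp ⟨_, h1, rfl⟩
    have h3 : exp '' B ⊆ mul m '' closure A := by
      rintro _ ⟨L, hL, rfl⟩
      obtain ⟨y, hy, hmy⟩ := hfill L hL
      exact ⟨y, subset_closure hy, hmy⟩
    exact (closure_minimal h3 hKm) h2
  have hzP : z ∈ Per m := closure_minimal hAP (isClosed_Per m) hz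
  rw [mem_closure_iff_frequently] at hz
  obtain ⟨z', h3, h4⟩ := (hz.and_eventually
    (Rt_neutral hm hzP hφ0 hφ1 hmz (isOpen_Iio (a := x₁ / 2)) hφ3)).exists
  obtain ⟨r, hr, h5⟩ := h4 h3.1.1 h3.1.2.1
  obtain ⟨r', h6, h7, -⟩ := h3.2.2
  rw [h5.unique hm h3.1.1 h3.1.2.1 h6] at hr
  have : r' < x₁ / 2 := hr
  linarith

/-- **limits**: pairs of the label `J` with rotation number in `[x₁, x₂]` over parameters tending
to a point of `MM` have a limit which is a repelling pair of the same kind or a neutral pair with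
rotation number in `[x₁, x₂]` -/
theorem limit_pair {m : ℕ} (hm : 0 < m) {J : Lab m} {x₁ x₂ : ℝ} (h1 : 0 < x₁) (h2 : x₂ < 1)
    {c₀ : ℂ} (hM : c₀ ∈ MM)
    (h : ∃ᶠ c in 𝓝 c₀, ∃ a r, (c, a) ∈ NJ m J ∧ Rt m (c, a) r ∧ x₁ ≤ r ∧ r ≤ x₂) :
    (∃ a r, (c₀, a) ∈ NJ m J ∧ Rt m (c₀, a) r ∧ x₁ ≤ r ∧ r ≤ x₂) ∨
    (∃ (a : ℂ) (φ : ℝ), (c₀, a) ∈ Per m ∧ (c₀, a) ∈ closure (NJ m J) ∧ x₁ ≤ φ ∧ φ ≤ x₂ ∧
      mul m (c₀, a) = exp (2 * Real.pi * φ * I)) := by
  have hG : G c₀ 0 = 0 := mem_M_iff.1 hM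
  set S : Set (ℂ × ℂ) := {y | y.1 ∈ closedBall c₀ 1 ∧ y ∈ NJ m J ∧ ∃ r, Rt m y r ∧ x₁ ≤ r ∧
    r ≤ x₂} with hS
  have hSb : Bornology.IsBounded S := by
    refine isBounded_iff_forall_norm_le.2 ⟨max (‖c₀‖ + 1) (1 + (‖c₀‖ + 1)), fun y hy => ?_⟩
    have h3 : ‖y.1‖ ≤ ‖c₀‖ + 1 := by
      have h4 := hy.1
      rw [mem_closedBall, dist_eq_norm] at h4
      calc ‖y.1‖ = ‖c₀ + (y.1 - c₀)‖ := by ring_nf
        _ ≤ ‖c₀‖ + ‖y.1 - c₀‖ := norm_add_le _ _
        _ ≤ ‖c₀‖ + 1 := by linarith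
    rw [Prod.norm_def]
    refine max_le_max h3 ?_
    exact (norm_le_of_per hm (show (y.1, y.2) ∈ Per m from hy.2.1.1)).trans (by linarith)
  have hK : IsCompact (closure S) := hSb.isCompact_closure
  have hKc : IsClosed (Prod.fst '' closure S) := (hK.image continuous_fst).isClosed
  have hcl : c₀ ∈ closure (Prod.fst '' closure S) := by
    rw [mem_closure_iff_frequently]
    refine (h.and_eventually (closedBall_mem_nhds c₀ one_pos)).mono ?_
    rintro c ⟨⟨a, r, h3, h4⟩, h5⟩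
    exact ⟨(c, a), subset_closure ⟨h5, h3, r, h4⟩, rfl⟩
  rw [hKc.closure_eq] at hcl
  obtain ⟨⟨c, a⟩, hy, hc⟩ := hcl
  simp only at hc
  subst hc
  have hP : (c, a) ∈ Per m := closure_minimal (fun y hy => hy.2.1.1) (isClosed_Per m) hy
  have hJcl : (c, a) ∈ closure (NJ m J) := closure_mono (fun y hy => hy.2.1) hy
  have hfr := mem_closure_iff_frequently.1 hy
  have hρ : 1 ≤ ‖mul m (c, a)‖ := by
    have h3 : IsClosed {y : ℂ × ℂ | 1 ≤ ‖mul m y‖} :=
      isClosed_le continuous_const (continuous_mul' m).norm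
    exact closure_minimal (fun y hy => hy.2.1.2.1.le) h3 hy
  rcases hρ.lt_or_eq with hρ | hρ
  · left
    have hyJ : (c, a) ∈ NJ m J := s3_closed m J _ hm hP hρ hM hJcl
    obtain ⟨r, hr⟩ := exists_Rt hm hyJ.1 hyJ.2.1 hyJ.2.2.1
    obtain ⟨y', h4, h5⟩ := (hfr.and_eventually
      (Rt_nhds hm hyJ.1 hyJ.2.1 hyJ.2.2.1 hr one_pos)).exists
    obtain ⟨r', -, h6, h7⟩ := h5 h4.2.1.1
    obtain ⟨r'', h8, h9, h10⟩ := h4.2.2
    have h11 := h6.unique hm h4.2.1.1 h4.2.1.2.1 h8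
    rw [h7 hG] at h11
    rw [← h11] at h9 h10
    exact ⟨a, r, hyJ, hr, h9, h10⟩
  · right
    -- the argument
    obtain ⟨φ, h0, hφ1, hφ⟩ : ∃ φ : ℝ, 0 ≤ φ ∧ φ < 1 ∧ mul m (c, a) = exp (2 * Real.pi * φ * I) := by
      refine ⟨Int.fract (arg (mul m (c, a)) / (2 * Real.pi)), Int.fract_nonneg _,
        Int.fract_lt_one _, ?_⟩
      have h3 : mul m (c, a) = exp (arg (mul m (c, a)) * I) := by
        conv_lhs => rw [← norm_mul_exp_arg_mul_I (mul m (c, a))]
        rw [← hρ]; simp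
      set t := arg (mul m (c, a)) with ht
      rw [h3, Complex.exp_eq_exp_iff_exists_int]
      refine ⟨⌊t / (2 * Real.pi)⌋, ?_⟩
      have h4 := Int.floor_add_fract (t / (2 * Real.pi))
      have h5 : t = 2 * Real.pi * (⌊t / (2 * Real.pi)⌋ + Int.fract (t / (2 * Real.pi))) := by
        rw [h4]; field_simp
      have h6 : (t : ℂ) = 2 * Real.pi * (⌊t / (2 * Real.pi)⌋ +
          ((Int.fract (t / (2 * Real.pi)) : ℝ) : ℂ)) := by
        exact_mod_cast congrArg (fun z : ℝ => (z : ℂ)) h5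
      linear_combination I * h6
    rcases h0.lt_or_eq with h0 | h0
    · have hmem : φ ∈ Icc x₁ x₂ := by
        by_contra hcon
        have hU : IsOpen (Icc x₁ x₂)ᶜ := isClosed_Icc.isOpen_compl
        obtain ⟨y', h4, h5⟩ := (hfr.and_eventually
          (Rt_neutral hm hP h0 hφ1 hφ hU hcon)).exists
        obtain ⟨r, hr, h6⟩ := h5 h4.2.1.1 h4.2.1.2.1
        obtain ⟨r', h8, h9, h10⟩ := h4.2.2
        rw [h6.unique hm h4.2.1.1 h4.2.1.2.1 h8] at hr
        exact hr ⟨h9, h10⟩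
      exact ⟨a, φ, hP, hJcl, hmem.1, hmem.2, hφ⟩
    · exfalso
      have h3 : mul m (c, a) = 1 := by rw [hφ, ← h0]; simp
      exact no_limit_one hm h1 h2 h3 (hfr.mono fun y hy => ⟨hy.2.1, hy.2.2⟩)

end Sat

end Pool.Agent.Work.MLC
end

section
set_option autoImplicit false

/-! # Theorem S, module S5b: the PLY inequality of the parent in the wake (helper13) -/

namespace Pool.Agent.Work.MLC.Sat

open Filter Topology Metric Set Complex

variable {D : Dat}

lemma axisPt_re13 (x : ℚ) : (axisPt x).re = 0 := by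
  unfold axisPt; simp

lemma norm_axisPt_sub (x y : ℚ) : ‖axisPt x - axisPt y‖ = 2 * Real.pi * |(x : ℝ) - y| := by
  have h1 : axisPt x - axisPt y = ((2 * Real.pi * ((x : ℝ) - y) : ℝ) : ℂ) * I := by
    unfold axisPt; push_cast; ring
  rw [h1, norm_mul, Complex.norm_I, mul_one, Complex.norm_real, Real.norm_eq_abs, abs_mul,
    abs_of_pos (by positivity : (0 : ℝ) < 2 * Real.pi)]

end Pool.Agent.Work.MLC.Sat
end

section
set_option autoImplicit false

/-! # The main cardioid and its limbs (period 1): unconditional limb data (helper24) -/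

namespace Pool.Agent.Work.MLC.H24

open Filter Topology Metric Set
open Pool.Agent.Work.MLC Pool.Agent.Work.MLC.Tr

/-- the parameter for which `z ^ 2 + c` has a fixed point of multiplier `l` -/
noncomputable def cl (l : ℂ) : ℂ := l / 2 - l ^ 2 / 4

/-- the same with the logarithm of the multiplier -/
noncomputable def cc (L : ℂ) : ℂ := cl (Complex.exp L)

lemma differentiable_cc : Differentiable ℂ cc := by
  unfold cc cl
  fun_prop

lemma hasDerivAt_cc (L : ℂ) :
    HasDerivAt cc (Complex.exp L * (1 - Complex.exp L) / 2) L := by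
  have h1 := Complex.hasDerivAt_exp L
  have h2 := (h1.div_const 2).sub ((h1.pow 2).div_const 4)
  refine h2.congr_deriv ?_
  push_cast
  ring

lemma deriv_cc (L : ℂ) : deriv cc L = Complex.exp L * (1 - Complex.exp L) / 2 :=
  (hasDerivAt_cc L).deriv

/-- rotation numbers of the fixed point `exp L / 2` -/
def T1 (L : ℂ) (x : ℚ) : Prop := RotT 1 (cc L) (Complex.exp L / 2) L x

end Pool.Agent.Work.MLC.H24

/-! # Geometry of the main cardioid and assembly of the Hoelder theorem (helper24) -/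

namespace Pool.Agent.Work.MLC.H24

open Filter Topology Metric Set
open Pool.Agent.Work.MLC Pool.Agent.Work.MLC.Tr

/-- Lipschitz bound near the boundary of the cardioid -/
lemma cc_lip {x : ℚ} {L L' : ℂ} (h : ‖L - axisPt x‖ ≤ 0.7) (h' : ‖L' - axisPt x‖ ≤ 0.7) :
    ‖cc L - cc L'‖ ≤ 4 * ‖L - L'‖ := by
  refine (convex_closedBall (axisPt x) 0.7).norm_image_sub_le_of_norm_deriv_le (f := cc)
    (fun z _ => differentiable_cc z) ?_ ?_ ?_
  · intro z hz
    rw [mem_closedBall, dist_eq_norm] at hz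
    rw [deriv_cc, norm_div, norm_mul]
    have h1 : ‖Complex.exp z‖ ≤ 2.1 := by
      rw [Complex.norm_exp]
      have h2 : z.re ≤ 0.7 := by
        have := (Complex.re_le_norm (z - axisPt x)).trans hz
        simpa [LimbData.axisPt_re] using this
      have h3 : Real.exp z.re ≤ Real.exp 0.7 := Real.exp_le_exp.2 h2
      have h4 : Real.exp 0.7 ≤ 2.1 := by
        have h5 : Real.exp 0.7 = Real.exp 1 ^ (0.7 : ℝ) := by
          rw [← Real.exp_mul]; norm_num
        have h6 := Real.exp_bound' (x := 0.7) (by norm_num) (by norm_num) (n := 5) (by norm_num)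
        norm_num [Finset.sum_range_succ, Nat.factorial] at h6
        linarith
      linarith
    have h2 : ‖1 - Complex.exp z‖ ≤ 3.1 := by
      calc ‖1 - Complex.exp z‖ ≤ ‖(1 : ℂ)‖ + ‖Complex.exp z‖ := norm_sub_le _ _
        _ ≤ 1 + 2.1 := by gcongr; simp
        _ = 3.1 := by norm_num
    have h3 : ‖(2 : ℂ)‖ = 2 := by simp
    rw [h3]
    calc ‖Complex.exp z‖ * ‖1 - Complex.exp z‖ / 2 ≤ 2.1 * 3.1 / 2 := by gcongr
      _ ≤ 4 := by norm_num
  · rwa [mem_closedBall, dist_eq_norm]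
  · rwa [mem_closedBall, dist_eq_norm]

lemma two_le_den {x : ℚ} (hx : x.den ≠ 1) : (2 : ℝ) ≤ x.den := by
  have := x.pos
  exact_mod_cast (by omega : 2 ≤ x.den)

end Pool.Agent.Work.MLC.H24

/-! # Assembly of the Hoelder theorem from the statement near the roots (helper24) -/

namespace Pool.Agent.Work.MLC.H24

open Filter Topology Metric Set
open Pool.Agent.Work.MLC Pool.Agent.Work.MLC.Tr

end Pool.Agent.Work.MLC.H24

/-! # The statement near the roots from the data of the satellite component (helper24) -/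

namespace Pool.Agent.Work.MLC.H24

open Filter Topology Metric Set
open Pool.Agent.Work.MLC Pool.Agent.Work.MLC.Tr

/-- the data of the satellite of the main cardioid at the root of the limb `x`, in the coordinate
`L` = logarithm of the multiplier of the satellite cycle, near the root (`L = 0`): `g L` is the
shift of the logarithm of the multiplier of the parent, `T` the rotation numbers of the satellite
cycle -/
structure ChildRoot (x : ℚ) (R : ℝ) (g : ℂ → ℂ) (T : ℂ → ℚ → Prop) : Prop where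
  R_pos : 0 < R
  R_le : R ≤ 1
  diff : DifferentiableOn ℂ g (ball 0 R)
  der : ∀ L ∈ ball (0 : ℂ) R, deriv g L ≠ 0
  zero : g 0 = 0
  bd : ∀ L ∈ ball (0 : ℂ) R, ‖g L‖ ≤ 2 / (x.den : ℝ) ^ 2 * ‖L‖
  surj : ∀ e : ℂ, ‖e‖ ≤ R / (4 * (x.den : ℝ) ^ 2) → ∃ L ∈ ball (0 : ℂ) R, g L = e ∧
    ‖L‖ ≤ 2 * (x.den : ℝ) ^ 2 * ‖e‖
  left : ∀ L ∈ ball (0 : ℂ) R, L.re ≤ 0 → cc (axisPt x + g L) ∈ MS
  T_dom : ∀ L y, T L y → 0 < L.re ∧ cc (axisPt x + g L) ∈ MS
  T_ex : ∀ L ∈ ball (0 : ℂ) R, 0 < L.re → cc (axisPt x + g L) ∈ MS → ∃ y, T L y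
  T_uniq : ∀ L y y', T L y → T L y' → y = y'
  T_open : ∀ L ∈ ball (0 : ℂ) R, ∀ y, T L y → ∀ᶠ L' in 𝓝 L, cc (axisPt x + g L') ∈ MS → T L' y
  ply : ∀ L y, T L y → ‖L - axisPt y‖ ^ 2 ≤ 2 * x.den * Real.log 2 / y.den * L.re
  nonint : ∀ L ∈ ball (0 : ℂ) R, ∀ y, T1 (axisPt x + g L) x → T L y → y.den ≠ 1

lemma norm_axisPt (y : ℚ) : ‖axisPt y‖ = 2 * Real.pi * |(y : ℝ)| := by
  have := LimbData.axisPt_sub y 0
  simpa [axisPt] using this

/-- `exp` is not `1` near the root -/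
lemma exp_near_ne {x : ℚ} (hx : x.den ≠ 1) {e : ℂ} (he : ‖e‖ < 2 * Real.pi / x.den) :
    Complex.exp (axisPt x + e) ≠ 1 := by
  intro h
  rw [Complex.exp_eq_one_iff] at h
  obtain ⟨n, hn⟩ := h
  have h1 : axisPt (x - n) = - e := by
    have h2 : e = axisPt n - axisPt x := by
      have h3 : axisPt (n : ℚ) = n * (2 * Real.pi * Complex.I) := by
        simp only [axisPt]; push_cast; ring
      rw [h3, ← hn]; ring
    rw [h2]; simp only [axisPt]; push_cast; ring
  have h2 := norm_axisPt (x - n)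
  rw [h1, norm_neg] at h2
  have h3 : x ≠ (n : ℚ) := by
    intro h; apply hx; rw [h]; simp
  have h4 := LimbData.rat_apart h3
  have h5 : (((n : ℚ)).den : ℝ) = 1 := by simp
  rw [h5, mul_one] at h4
  rw [h2] at he
  have hpi : (0 : ℝ) < 2 * Real.pi := by positivity
  have h6 : (2 * Real.pi) * (1 / (x.den : ℝ)) ≤ 2 * Real.pi * |((x - n : ℚ) : ℝ)| := by
    apply mul_le_mul_of_nonneg_left _ hpi.le
    push_cast
    push_cast at h4
    exact h4
  have h7 : (2 * Real.pi) * (1 / (x.den : ℝ)) = 2 * Real.pi / x.den := by ring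
  linarith

variable {x : ℚ} {R : ℝ} {g : ℂ → ℂ} {T : ℂ → ℚ → Prop}

lemma ChildRoot.g_small (h : ChildRoot x R g T) (hx : x.den ≠ 1) {L : ℂ} (hL : L ∈ ball (0 : ℂ) R) :
    ‖g L‖ ≤ 0.5 ∧ ‖g L‖ < 2 * Real.pi / x.den := by
  have hq := two_le_den hx
  have hq0 : (0 : ℝ) < x.den := by linarith
  have h1 := h.bd L hL
  rw [mem_ball_zero_iff] at hL
  have h2 : ‖L‖ < 1 := hL.trans_le h.R_le
  have h3 : 2 / (x.den : ℝ) ^ 2 ≤ 1 / x.den := by
    rw [div_le_div_iff₀ (by positivity) hq0]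
    nlinarith
  have h4 : 2 / (x.den : ℝ) ^ 2 * ‖L‖ ≤ 1 / x.den * 1 := by gcongr
  have h5 : ‖g L‖ ≤ 1 / x.den := by linarith
  have h6 : (1 : ℝ) / x.den ≤ 1 / 2 := by gcongr
  refine ⟨by linarith, lt_of_le_of_lt h5 ?_⟩
  have := Real.pi_gt_three
  gcongr
  linarith

/-- limb data for the satellite branch -/
theorem ChildRoot.limbData (h : ChildRoot x R g T) (hx : x.den ≠ 1) {y : ℚ} {R' : ℝ} (hR' : 0 < R')
    (hsub : ball (axisPt y) R' ⊆ ball 0 R) :
    LimbData MS y R' (2 * x.den * Real.log 2) (fun L => cc (axisPt x + g L)) T := by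
  have hlog : 0 < Real.log 2 := Real.log_pos (by norm_num)
  have hq : (0 : ℝ) < x.den := by exact_mod_cast x.pos
  have hcont : ContinuousOn (fun L => cc (axisPt x + g L)) (ball 0 R) :=
    differentiable_cc.continuous.comp_continuousOn (continuousOn_const.add h.diff.continuousOn)
  have hstrict : ∀ L ∈ ball (0 : ℂ) R, ∃ d : ℂ, d ≠ 0 ∧
      HasStrictDerivAt (fun L => cc (axisPt x + g L)) d L := by
    intro L hL
    have han : AnalyticAt ℂ g L := h.diff.analyticAt (isOpen_ball.mem_nhds hL)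
    have h1 := han.hasStrictDerivAt
    have hg0 : deriv g L ≠ 0 := h.der L hL
    have h2 : HasStrictDerivAt cc (Complex.exp (axisPt x + g L) *
        (1 - Complex.exp (axisPt x + g L)) / 2) (axisPt x + g L) := by
      have := (differentiable_cc.analyticAt (axisPt x + g L)).hasStrictDerivAt
      rwa [deriv_cc] at this
    have h5 : HasStrictDerivAt (fun L => axisPt x + g L) (deriv g L) L := h1.const_add (axisPt x)
    refine ⟨_, ?_, HasStrictDerivAt.comp (h₂ := cc) (h := fun L => axisPt x + g L) L h2 h5⟩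
    have h3 := exp_near_ne hx (h.g_small hx hL).2
    have h4 : (1 : ℂ) - Complex.exp (axisPt x + g L) ≠ 0 := sub_ne_zero.2 h3.symm
    exact mul_ne_zero (div_ne_zero (mul_ne_zero (Complex.exp_ne_zero _) h4) two_ne_zero) hg0
  refine ⟨hR', by positivity, hcont.mono hsub, fun L hL => h.left L (hsub hL), ?_, ?_, h.T_dom,
    fun L hL => h.T_ex L (hsub hL), h.T_uniq, fun L hL => h.T_open L (hsub hL), h.ply⟩
  · obtain ⟨d, hd, h1⟩ := hstrict _ (hsub (mem_ball_self hR'))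
    have hs := h1.hasStrictFDerivAt_equiv hd
    have hN : (hs.toOpenPartialHomeomorph _).source ∈ 𝓝 (axisPt y) :=
      (hs.toOpenPartialHomeomorph _).open_source.mem_nhds hs.mem_toOpenPartialHomeomorph_source
    have hi : InjOn (fun L => cc (axisPt x + g L)) (hs.toOpenPartialHomeomorph _).source := by
      have := (hs.toOpenPartialHomeomorph _).injOn
      rwa [HasStrictFDerivAt.toOpenPartialHomeomorph_coe] at this
    obtain ⟨δ, hδ, hδ2⟩ := Metric.mem_nhds_iff.1 hN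
    exact ⟨δ, hδ, hi.mono hδ2⟩
  · intro L hL U hU
    obtain ⟨d, hd, h1⟩ := hstrict _ (hsub hL)
    rw [← h1.map_nhds_eq hd]
    exact image_mem_map hU

/-- sizes -/
lemma ply_sizes {n : ℝ} (hn : 2 ≤ n) {L : ℂ} {y : ℚ} (hy : y.den ≠ 1)
    (h : ‖L - axisPt y‖ ^ 2 ≤ 2 * n * Real.log 2 / y.den * L.re) :
    ‖axisPt y‖ + 2 * n * Real.log 2 / y.den ≤ n ^ 2 * ‖L‖ := by
  have hq2 := two_le_den hy
  have hq : (0 : ℝ) < y.den := by linarith
  have hlog := Real.log_two_lt_d9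
  have hlog0 : 0 < Real.log 2 := Real.log_pos (by norm_num)
  set A := 2 * n * Real.log 2 with hA
  have hA0 : 0 < A := by positivity
  have hA1 : A ≤ 1.3864 * n := by rw [hA]; nlinarith
  -- `1 / q ≤ |y|`
  have hyq : 1 / (y.den : ℝ) ≤ |(y : ℝ)| := by
    have hne : y ≠ (0 : ℚ) := by
      intro h0; apply hy; rw [h0]; simp
    have := LimbData.rat_apart hne
    simpa using this
  set Y := ‖axisPt y‖ with hY
  have hYn : Y = 2 * Real.pi * |(y : ℝ)| := norm_axisPt y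
  have hpi : 3.14 < Real.pi := Real.pi_gt_d2
  have hYq : 6.28 * (1 / (y.den : ℝ)) ≤ Y := by
    rw [hYn]
    have h1 : (6.28 : ℝ) ≤ 2 * Real.pi := by linarith
    have h0 : (0 : ℝ) ≤ 1 / y.den := by positivity
    calc 6.28 * (1 / (y.den : ℝ)) ≤ 2 * Real.pi * (1 / y.den) := by gcongr
      _ ≤ _ := by gcongr
  have hY0 : 0 ≤ Y := norm_nonneg _
  set t := ‖L - axisPt y‖ with ht
  have ht0 : 0 ≤ t := norm_nonneg _
  set l := ‖L‖ with hl
  have hl0 : 0 ≤ l := norm_nonneg _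
  have hre : L.re ≤ l := Complex.re_le_norm L
  have hYt : Y ≤ l + t := by
    have : axisPt y = L - (L - axisPt y) := by ring
    calc Y = ‖L - (L - axisPt y)‖ := by rw [hY, ← this]
      _ ≤ l + t := norm_sub_le _ _
  have hAq : A / y.den ≤ 0.2208 * n * Y := by
    have h1 : A / y.den = A * (1 / y.den) := by ring
    rw [h1]
    calc A * (1 / (y.den : ℝ)) ≤ (1.3864 * n) * (Y / 6.28) := by
          apply mul_le_mul hA1 _ (by positivity) (by positivity)
          rw [le_div_iff₀ (by norm_num)]; linarith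
      _ = 1.3864 / 6.28 * (n * Y) := by ring
      _ ≤ 0.2208 * (n * Y) := by
          apply mul_le_mul_of_nonneg_right _ (mul_nonneg (by linarith) hY0)
          norm_num
      _ = 0.2208 * n * Y := by ring
  have ht2 : t ^ 2 ≤ (0.2208 * n * l) * Y := by
    calc t ^ 2 ≤ A / y.den * L.re := h
      _ ≤ A / y.den * l := by gcongr
      _ ≤ (0.2208 * n * Y) * l := by gcongr
      _ = _ := by ring
  have ht3 : t ≤ (0.2208 * n * l + Y) / 2 := by
    apply le_of_sq_le_sq _ (by positivity)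
    nlinarith [sq_nonneg (0.2208 * n * l - Y)]
  have hY2 : Y ≤ 2 * l + 0.2208 * n * l := by linarith
  have hY3 : Y ≤ 1.2208 * n * l := by nlinarith
  have hnl : 0 ≤ n * l := by positivity
  calc Y + A / y.den ≤ 1.2208 * n * l + 0.2208 * n * (1.2208 * n * l) := by
        gcongr
        exact hAq.trans (by gcongr)
    _ ≤ n ^ 2 * l := by nlinarith

theorem ChildRoot.near (h : ChildRoot x R g T) (hx : x.den ≠ 1) {L₁ : ℂ} (hT : T1 L₁ x)
    (hL₁ : ‖L₁ - axisPt x‖ ≤ R / (4 * (x.den : ℝ) ^ 4)) :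
    ∃ K ⊆ MS, IsCompact K ∧ IsPreconnected K ∧ cc L₁ ∈ K ∧ cc (axisPt x) ∈ K ∧
      ∀ u ∈ K, ‖u - cc (axisPt x)‖ ≤ 16 * (x.den : ℝ) ^ 2 * ‖L₁ - axisPt x‖ := by
  have hq := two_le_den hx
  have hq0 : (0 : ℝ) < x.den := by linarith
  set n : ℝ := (x.den : ℝ) with hn
  set e := L₁ - axisPt x with he
  have hRpos := h.R_pos
  have h42 : R / (4 * n ^ 4) ≤ R / (4 * n ^ 2) := by
    have : n ^ 2 ≤ n ^ 4 := pow_le_pow_right₀ (by linarith) (by norm_num)
    gcongr
  obtain ⟨ℓ, hℓ, hgℓ, hℓn⟩ := h.surj e (hL₁.trans h42)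
  have hc : cc (axisPt x + g ℓ) = cc L₁ := by rw [hgℓ, he]; ring_nf
  have hc0 : cc (axisPt x + g 0) = cc (axisPt x) := by rw [h.zero, add_zero]
  have h0 : (0 : ℂ) ∈ ball (0 : ℂ) R := mem_ball_self hRpos
  have hcont : ContinuousOn (fun L => cc (axisPt x + g L)) (ball 0 R) :=
    differentiable_cc.continuous.comp_continuousOn (continuousOn_const.add h.diff.continuousOn)
  -- size of images
  have hsize : ∀ L ∈ ball (0 : ℂ) R, ‖L‖ ≤ n ^ 2 * ‖ℓ‖ →
      ‖cc (axisPt x + g L) - cc (axisPt x)‖ ≤ 16 * n ^ 2 * ‖e‖ := by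
    intro L hL hL2
    have h1 := (h.g_small hx hL).1
    have h2 := cc_lip (x := x) (L := axisPt x + g L) (L' := axisPt x)
      (by rw [add_sub_cancel_left]; linarith) (by simp; norm_num)
    rw [add_sub_cancel_left] at h2
    have h3 := h.bd L hL
    calc ‖cc (axisPt x + g L) - cc (axisPt x)‖ ≤ 4 * ‖g L‖ := h2
      _ ≤ 4 * (2 / n ^ 2 * ‖L‖) := by gcongr
      _ ≤ 4 * (2 / n ^ 2 * (n ^ 2 * ‖ℓ‖)) := by gcongr
      _ = 8 * ‖ℓ‖ := by field_simp; ring
      _ ≤ 8 * (2 * n ^ 2 * ‖e‖) := by gcongr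
      _ = _ := by ring
  have hnR : n ^ 2 * ‖ℓ‖ < R := by
    calc n ^ 2 * ‖ℓ‖ ≤ n ^ 2 * (2 * n ^ 2 * ‖e‖) := by gcongr
      _ = 2 * n ^ 4 * ‖e‖ := by ring
      _ ≤ 2 * n ^ 4 * (R / (4 * n ^ 4)) := by gcongr
      _ = R / 2 := by field_simp; norm_num
      _ < R := by linarith
  have h1n : ‖ℓ‖ ≤ n ^ 2 * ‖ℓ‖ := by
    have : (1 : ℝ) ≤ n ^ 2 := by nlinarith
    nlinarith [norm_nonneg ℓ]
  rcases le_or_gt ℓ.re 0 with hre | hre
  · -- in the closed satellite component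
    have hsegb : segment ℝ ℓ 0 ⊆ ball 0 R := (convex_ball 0 R).segment_subset hℓ h0
    have hsegre : ∀ z ∈ segment ℝ ℓ 0, z.re ≤ 0 := by
      have hcv : Convex ℝ {z : ℂ | z.re ≤ 0} := convex_halfSpace_re_le 0
      exact fun z hz => hcv.segment_subset hre (by simp) hz
    have hsegn : ∀ z ∈ segment ℝ ℓ 0, ‖z‖ ≤ ‖ℓ‖ := by
      intro z hz
      have : segment ℝ ℓ 0 ⊆ closedBall (0 : ℂ) ‖ℓ‖ :=
        (convex_closedBall 0 _).segment_subset (by simp) (by simp)
      simpa using this hz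
    refine ⟨(fun L => cc (axisPt x + g L)) '' segment ℝ ℓ 0, ?_, ?_, ?_, ?_, ?_, ?_⟩
    · rintro _ ⟨z, hz, rfl⟩
      exact h.left z (hsegb hz) (hsegre z hz)
    · have : IsCompact (segment ℝ ℓ (0 : ℂ)) := by
        rw [← Path.range_segment]; exact isCompact_range (by fun_prop)
      exact this.image_of_continuousOn (hcont.mono hsegb)
    · exact (convex_segment ℓ 0).isPreconnected.image _ (hcont.mono hsegb)
    · exact ⟨ℓ, left_mem_segment ℝ ℓ 0, hc⟩
    · exact ⟨0, right_mem_segment ℝ ℓ 0, hc0⟩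
    · rintro _ ⟨z, hz, rfl⟩
      exact hsize z (hsegb hz) ((hsegn z hz).trans h1n)
  · -- in a limb of the satellite component
    have hcM : cc (axisPt x + g ℓ) ∈ MS := by
      rw [hc]; exact ((rotData one_pos).dom _ _ _ _ hT).2
    obtain ⟨y, hy⟩ := h.T_ex ℓ hℓ hre hcM
    have hT' : T1 (axisPt x + g ℓ) x := by
      have : axisPt x + g ℓ = L₁ := by rw [hgℓ, he]; ring
      rw [this]; exact hT
    have hyd := h.nonint ℓ hℓ y hT' hy
    have hply := h.ply ℓ y hy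
    have hs := ply_sizes hq hyd hply
    set An := 2 * n * Real.log 2 with hAn
    have hlog : 0 < Real.log 2 := Real.log_pos (by norm_num)
    have hAn0 : 0 < An := by positivity
    have hyq : (0 : ℝ) < y.den := by exact_mod_cast y.pos
    have hAy : 0 < An / y.den := by positivity
    set R' := R - ‖axisPt y‖ with hR'
    have hAR : An / y.den < R' := by rw [hR']; linarith
    have hR'0 : 0 < R' := hAy.trans hAR
    have hsub : ball (axisPt y) R' ⊆ ball 0 R := by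
      intro z hz
      rw [mem_ball, dist_eq_norm] at hz
      rw [mem_ball_zero_iff]
      calc ‖z‖ = ‖(z - axisPt y) + axisPt y‖ := by ring_nf
        _ ≤ ‖z - axisPt y‖ + ‖axisPt y‖ := norm_add_le _ _
        _ < R' + ‖axisPt y‖ := by gcongr
        _ = R := by rw [hR']; ring
    have hLD := h.limbData hx hR'0 hsub
    have hadm : LimbData.Adm y R' An y := by
      unfold LimbData.Adm
      simp only [sub_self, abs_zero, mul_zero, add_zero]
      exact hAR
    have hP := hLD.P_sub y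
    set c' := fun L => cc (axisPt x + g L) with hc'
    have hyb : axisPt y ∈ ball (0 : ℂ) R := by
      rw [mem_ball_zero_iff]; linarith
    have hsegb : segment ℝ (axisPt y) 0 ⊆ ball 0 R := (convex_ball 0 R).segment_subset hyb h0
    have hsegre : ∀ z ∈ segment ℝ (axisPt y) 0, z.re ≤ 0 := by
      have hcv : Convex ℝ {z : ℂ | z.re ≤ 0} := convex_halfSpace_re_le 0
      exact fun z hz => hcv.segment_subset (by simp [LimbData.axisPt_re]) (by simp) hz
    have hsegn : ∀ z ∈ segment ℝ (axisPt y) 0, ‖z‖ ≤ ‖axisPt y‖ := by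
      intro z hz
      have : segment ℝ (axisPt y) 0 ⊆ closedBall (0 : ℂ) ‖axisPt y‖ :=
        (convex_closedBall 0 _).segment_subset (by simp) (by simp)
      simpa using this hz
    refine ⟨LimbData.K c' T y ∪ c' '' segment ℝ (axisPt y) 0, ?_, ?_, ?_, ?_, ?_, ?_⟩
    · apply union_subset (hLD.K_sub hadm)
      rintro _ ⟨z, hz, rfl⟩
      exact h.left z (hsegb hz) (hsegre z hz)
    · apply (hLD.isCompact_K isCompact_MM.isClosed hadm).union
      have : IsCompact (segment ℝ (axisPt y) (0 : ℂ)) := by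
        rw [← Path.range_segment]; exact isCompact_range (by fun_prop)
      exact this.image_of_continuousOn (hcont.mono hsegb)
    · exact (hLD.K_conn isCompact_MM.isClosed isPreconnected_MM hadm).union (c' (axisPt y))
        (Or.inl rfl) (mem_image_of_mem c' (left_mem_segment ℝ (axisPt y) 0))
        ((convex_segment (axisPt y) 0).isPreconnected.image _ (hcont.mono hsegb))
    · exact Or.inl (Or.inr ⟨ℓ, hy, hc⟩)
    · exact Or.inr ⟨0, right_mem_segment ℝ _ _, hc0⟩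
    · rintro u (hu | ⟨z, hz, rfl⟩)
      · rw [LimbData.K_eq] at hu
        obtain ⟨z, hz, rfl⟩ := hu
        have h1 := hP hz
        rw [mem_closedBall, dist_eq_norm] at h1
        have h2 : ‖z‖ ≤ n ^ 2 * ‖ℓ‖ := by
          calc ‖z‖ = ‖(z - axisPt y) + axisPt y‖ := by ring_nf
            _ ≤ ‖z - axisPt y‖ + ‖axisPt y‖ := norm_add_le _ _
            _ ≤ An / y.den + ‖axisPt y‖ := by gcongr
            _ ≤ _ := by linarith
        exact hsize z (by rw [mem_ball_zero_iff]; linarith) h2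
      · refine hsize z (hsegb hz) ((hsegn z hz).trans ?_)
        linarith

end Pool.Agent.Work.MLC.H24
end

section
set_option autoImplicit false

/-! # Consequences of a root disc of radius `δ n` for all components (helper6) -/

namespace Pool.Agent.Work.MLC

open Filter Topology Metric Set

/-- far from the root -/
lemma far_ineq' {n p q k : ℕ} {C₀ : ℝ} (hC₀ : 0 < C₀) (hn : 0 < n) (hp : 0 < p) (hpq : p < q)
    (ht : 1 / (C₀ * n ^ k) < 2 * Real.pi * (min (p : ℝ) (q - p) / q)) :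
    (n : ℝ) ^ 2 * q / (min (p : ℝ) (q - p)) ^ 2 ≤ 40 * C₀ ^ 2 * (n ^ (2 * k + 2) / q) := by
  have hn' : (0 : ℝ) < n := by exact_mod_cast hn
  have hp' : (0 : ℝ) < p := by exact_mod_cast hp
  have hpq' : (p : ℝ) < q := by exact_mod_cast hpq
  have hq' : (0 : ℝ) < q := hp'.trans hpq'
  set μ : ℝ := min (p : ℝ) (q - p) with hμ
  have hμ0 : 0 < μ := lt_min hp' (by linarith)
  have hpi : Real.pi < 3.15 := Real.pi_lt_d2
  have hpi0 := Real.pi_pos
  have h1 : (q : ℝ) < 6.3 * (C₀ * n ^ k) * μ := by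
    rw [div_lt_iff₀ (by positivity)] at ht
    have h2 : (q : ℝ) < 2 * Real.pi * μ * (C₀ * n ^ k) := by
      have h3 := mul_lt_mul_of_pos_right ht hq'
      have h4 : 2 * Real.pi * (μ / q) * (C₀ * n ^ k) * q = 2 * Real.pi * μ * (C₀ * n ^ k) := by
        field_simp
      rw [h4] at h3
      linarith
    have h6 : 0 < μ * (C₀ * (n : ℝ) ^ k) := by positivity
    nlinarith
  rw [div_le_iff₀ (by positivity), mul_div_assoc', div_mul_eq_mul_div, le_div_iff₀ hq']
  have h3 : (q : ℝ) ^ 2 ≤ (6.3 * (C₀ * n ^ k) * μ) ^ 2 := by gcongr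
  have h4 : (n : ℝ) ^ (2 * k + 2) = (n ^ k) ^ 2 * n ^ 2 := by ring
  rw [h4]
  calc (n : ℝ) ^ 2 * q * q = n ^ 2 * q ^ 2 := by ring
    _ ≤ n ^ 2 * (6.3 * (C₀ * n ^ k) * μ) ^ 2 := by gcongr
    _ = 39.69 * (C₀ ^ 2 * ((n ^ k) ^ 2 * n ^ 2) * μ ^ 2) := by ring
    _ ≤ 40 * (C₀ ^ 2 * ((n ^ k) ^ 2 * n ^ 2) * μ ^ 2) := by gcongr; norm_num
    _ = 40 * C₀ ^ 2 * ((n ^ k) ^ 2 * n ^ 2) * μ ^ 2 := by ring

section

variable {C₀ : ℝ} {k : ℕ}

lemma re_lt_of_ball {x : ℚ} {R : ℝ} {ℓ : ℂ} (h : ℓ ∈ ball (axisPt x) R) : ℓ.re < R := by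
  rw [mem_ball, dist_eq_norm] at h
  have h10 := (Complex.re_le_norm (ℓ - axisPt x)).trans_lt h
  rwa [Complex.sub_re, LimbData.axisPt_re, sub_zero] at h10

/-- **the limb bound without `p`**, exact period -/
theorem root_bound (hC₀ : 2 ≤ C₀) (hRP : RootPiece fun n => 1 / (C₀ * n ^ k)) {n p q : ℕ}
    {r b : ℂ} (hper : PerN n r b) (hp : 0 < p) (hpq : p < q) (hcop : Nat.Coprime p q)
    (hmul : mult n r b = Complex.exp (2 * Real.pi * (p / q : ℂ) * Complex.I)) :
    Piece r (2000 * C₀ ^ 2 * (n ^ (2 * k + 2) / q)) ∧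
    (∀ z ∈ MS \ connectedComponentIn (MS \ {r}) 0,
      dist z r ≤ 2000 * C₀ ^ 2 * (n ^ (2 * k + 2) / q)) := by
  have hlog : 0 < Real.log 2 := Real.log_pos (by norm_num)
  have hlog1 : 0.6931471803 < Real.log 2 := Real.log_two_gt_d9
  have hlog2 : Real.log 2 < 0.6931471808 := Real.log_two_lt_d9
  have hn : 0 < n := hper.1
  have hb : it r n b = b := Sat.perN_it hper
  have hmul' : mul n (r, b) = Complex.exp (2 * Real.pi * (p / q) * Complex.I) := hmul
  have hnorm : ‖mul n (r, b)‖ = 1 := by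
    rw [hmul', Complex.norm_exp]
    simp
  have hrM := mem_MS_of_norm hn hb hnorm
  have hq : 0 < q := hp.trans hpq
  have hq' : (0 : ℝ) < q := by exact_mod_cast hq
  have hn' : (0 : ℝ) < n := by exact_mod_cast hn
  have hn1 : (1 : ℝ) ≤ n := by exact_mod_cast hn
  have hC0 : 0 < C₀ := by linarith
  have hnk : (1 : ℝ) ≤ n ^ k := one_le_pow₀ hn1
  have hδ0 : 0 < 1 / (C₀ * (n : ℝ) ^ k) := by positivity
  have hδ1 : 1 / (C₀ * (n : ℝ) ^ k) ≤ 1 / 2 := by
    apply one_div_le_one_div_of_le (by norm_num)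
    nlinarith
  have hnn : (n : ℝ) ^ (k + 1) ≤ n ^ (2 * k + 2) := pow_le_pow_right₀ hn1 (by omega)
  have hnn0 : (0 : ℝ) < n ^ (k + 1) := by positivity
  have hC2 : C₀ ≤ C₀ ^ 2 := by nlinarith
  rcases lt_or_ge (1 / (C₀ * (n : ℝ) ^ k)) (2 * Real.pi * (min (p : ℝ) (q - p) / q)) with ht | ht
  · -- far from the root
    have h1 := far_ineq' hC0 hn hp hpq ht
    have hle : 50 * ((n : ℝ) ^ 2 * q / (min (p : ℝ) (q - p)) ^ 2) ≤
        2000 * C₀ ^ 2 * (n ^ (2 * k + 2) / q) := by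
      linarith
    exact ⟨(piece_A hn hp hpq hcop hb hmul').mono hle,
      fun z hz => (limb_dist inputs34 hn hp hpq hcop hb hmul' z hz).trans hle⟩
  · -- close to the root
    obtain ⟨x, g, T, hx, hden, hL, hgr, hgd, hg4, hgper⟩ := hRP n p q r b hper hp hpq hcop hmul ht
    rcases lt_or_ge (2 * n * Real.log 2 / x.den) (1 / (C₀ * (n : ℝ) ^ k)) with hAR | hAR
    · have hK := hL.size hAR hgd hg4
      rw [hgr] at hK
      have hle : 9 * (2 * (n : ℝ) * Real.log 2 / x.den) / (1 / (C₀ * (n : ℝ) ^ k)) ≤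
          2000 * C₀ ^ 2 * (n ^ (2 * k + 2) / q) := by
        rw [hden]
        have h2 : 9 * (2 * (n : ℝ) * Real.log 2 / q) / (1 / (C₀ * (n : ℝ) ^ k)) =
            18 * Real.log 2 * C₀ * (n ^ (k + 1) / q) := by
          field_simp
          ring
        rw [h2]
        have h3 : (n : ℝ) ^ (k + 1) / q ≤ n ^ (2 * k + 2) / q := by gcongr 1
        have h4 : 0 < (n : ℝ) ^ (k + 1) / q := by positivity
        calc 18 * Real.log 2 * C₀ * (n ^ (k + 1) / q) ≤ 2000 * C₀ * (n ^ (k + 1) / q) := by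
              gcongr; linarith
          _ ≤ 2000 * C₀ ^ 2 * (n ^ (2 * k + 2) / q) := by gcongr
      refine ⟨Piece.of_limb hL hAR hgr (hK.trans (closedBall_subset_closedBall hle)), ?_⟩
      have h0 : (0 : ℂ) ∉ LimbData.K g T x := by
        refine hL.zero_notMem hn hAR hgper hx fun ℓ hℓ => (re_lt_of_ball hℓ).trans_le ?_
        linarith
      have hcan := hL.canon inputs34 hAR h0
      rw [hgr] at hcan
      intro z hz
      rw [hcan] at hz
      exact (mem_closedBall.1 (hK hz)).trans hle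
    · -- the trivial case
      have h8 : (8 : ℝ) ≤ 2000 * C₀ ^ 2 * (n ^ (2 * k + 2) / q) := by
        rw [hden, div_le_div_iff₀ (by positivity) hq'] at hAR
        rw [← mul_div_assoc, le_div_iff₀ hq']
        have h1 : (q : ℝ) ≤ 2 * Real.log 2 * C₀ * n ^ (k + 1) := by
          calc (q : ℝ) = 1 * (q : ℝ) := (one_mul _).symm
            _ ≤ _ := hAR
            _ = _ := by ring
        have h2 : (q : ℝ) ≤ 2 * C₀ ^ 2 * n ^ (2 * k + 2) := by
          calc (q : ℝ) ≤ 2 * Real.log 2 * C₀ * n ^ (k + 1) := h1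
            _ ≤ 2 * 1 * C₀ ^ 2 * n ^ (2 * k + 2) := by gcongr; linarith
            _ = _ := by ring
        nlinarith
      refine ⟨Piece.trivial hrM h8, fun z hz => ?_⟩
      refine le_trans ?_ h8
      rw [dist_eq_norm]
      calc ‖z - r‖ ≤ ‖z‖ + ‖r‖ := norm_sub_le _ _
        _ ≤ 4 + 4 := add_le_add (norm_MS hz.1) (norm_MS hrM)
        _ = 8 := by norm_num

end

end Pool.Agent.Work.MLC
end

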