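import Pool.Agent.Work.MLCM.C46
import Pool.Agent.Work.MLCM.C47

section
set_option autoImplicit false

/-! # The parameter ray of the mid angle of a rational plateau (helper59)

At low potential the parameters on the ray of the mid angle of the plateau `{nu = k₀ + x}` are in
the image of the section of the parent, very close to the root. -/

namespace Pool.Agent.Work.MLC

open Filter Topology Metric Set Complex

namespace Sat

namespace MidRay

/-- the angle of `cOf ζ` -/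
noncomputable def tht (ζ : ℂ) : ℝ := ζ.im / (2 * Real.pi)

lemma tht_spec (ζ : ℂ) : (ζ.re : ℂ) + 2 * Real.pi * (tht ζ : ℂ) * I = ζ := by
  have h5 : (Real.pi : ℂ) ≠ 0 := by exact_mod_cast Real.pi_pos.ne'
  unfold tht
  push_cast
  have h6 : (2 : ℂ) * Real.pi * (ζ.im / (2 * Real.pi)) = ζ.im := by field_simp
  rw [h6]; exact re_add_im ζ

lemma ang_z {ζ : ℂ} (h : 0 < ζ.re) : Ang (cOf ζ) (tht ζ) := by
  have h1 := (ang_cOf (θ := tht ζ) h).1
  rwa [tht_spec] at h1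

lemma exists_bb {m : ℕ} {w : ℕ → ℤ} (hm : 0 < m) (hw : Bits m w) {ζ : ℂ} (h : 0 < ζ.re) :
    ∃ b, ExtP m (cOf ζ) b (tht ζ) w := exists_extP hm (ang_z h) hw

open Classical in
/-- the point of word `w` over `cOf ζ` -/
noncomputable def bb (m : ℕ) (w : ℕ → ℤ) (ζ : ℂ) : ℂ :=
  if h : ∃ b, ExtP m (cOf ζ) b (tht ζ) w then h.choose else 0

lemma bb_spec {m : ℕ} {w : ℕ → ℤ} (hm : 0 < m) (hw : Bits m w) {ζ : ℂ} (h : 0 < ζ.re) :
    ExtP m (cOf ζ) (bb m w ζ) (tht ζ) w := by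
  unfold bb
  rw [dif_pos (exists_bb hm hw h)]
  exact (exists_bb hm hw h).choose_spec

/-- its multiplier -/
noncomputable def ff (m : ℕ) (w : ℕ → ℤ) (ζ : ℂ) : ℂ := mult m (cOf ζ) (bb m w ζ)

lemma isOpen_rhp : IsOpen {ζ : ℂ | 0 < ζ.re} := isOpen_lt continuous_const continuous_re

lemma continuous_tht : Continuous tht := continuous_im.div_const _

lemma differentiableAt_ff {m : ℕ} {w : ℕ → ℤ} (hm : 0 < m) (hw : Bits m w) {ζ₀ : ℂ}
    (h : 0 < ζ₀.re) : DifferentiableAt ℂ (ff m w) ζ₀ := by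
  have hE := bb_spec hm hw h
  set x₀ : ℂ × ℂ := (cOf ζ₀, bb m w ζ₀) with hx₀
  have hx : x₀ ∈ Per m := hE.2.2.1
  have hne : mul m x₀ ≠ 1 := by
    intro h1
    have h2 := rep13 hm hx (not_mem_MM_iff.2 hE.1)
    rw [h1, norm_one] at h2
    exact lt_irrefl _ h2
  obtain ⟨β, hβ, hβ0, hβe⟩ := chart hx hne
  have hβ' : AnalyticAt ℂ β (cOf ζ₀) := hβ
  have hβ0' : β (cOf ζ₀) = bb m w ζ₀ := hβ0
  have hcd : DifferentiableAt ℂ cOf ζ₀ :=
    (differentiableOn_cOf ζ₀ h).differentiableAt (isOpen_rhp.mem_nhds h)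
  have hct : Tendsto cOf (𝓝 ζ₀) (𝓝 (cOf ζ₀)) := hcd.continuousAt.tendsto
  have ht : Tendsto (fun ζ => ((cOf ζ, β (cOf ζ)) : ℂ × ℂ)) (𝓝 ζ₀) (𝓝 x₀) := by
    have h1 : Tendsto (fun ζ => β (cOf ζ)) (𝓝 ζ₀) (𝓝 (bb m w ζ₀)) := by
      rw [← hβ0']
      exact hβ'.continuousAt.tendsto.comp hct
    exact hct.prodMk_nhds h1
  have hev : ∀ᶠ ζ in 𝓝 ζ₀, bb m w ζ = β (cOf ζ) := by
    have h1 := ht.eventually (extP_nhds hm hE (by norm_num : (0 : ℝ) < 1 / 2))
    have h2 := ht.eventually hβe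
    have h3 : ∀ᶠ ζ in 𝓝 ζ₀, |tht ζ - tht ζ₀| < 1 / 2 := by
      have := continuous_tht.continuousAt (x := ζ₀)
      have := this.eventually (Metric.ball_mem_nhds _ (show (0 : ℝ) < 1 / 2 by norm_num))
      filter_upwards [this] with ζ hζ
      have h4 : dist (tht ζ) (tht ζ₀) < 1 / 2 := hζ
      rwa [Real.dist_eq] at h4
    filter_upwards [h1, h2, h3, isOpen_rhp.mem_nhds h] with ζ a1 a2 a3 a4
    obtain ⟨θ', b1, b2⟩ := a1 (a2.2 rfl)
    obtain ⟨k, hk⟩ := (ang_z a4).unique b2.ang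
    have hk0 : k = 0 := by
      have h5 : |(k : ℝ)| < 1 := by
        have h6 : (k : ℝ) = (θ' - tht ζ₀) - (tht ζ - tht ζ₀) := by rw [hk]; ring
        rw [h6]
        calc |(θ' - tht ζ₀) - (tht ζ - tht ζ₀)| ≤ |θ' - tht ζ₀| + |tht ζ - tht ζ₀| := abs_sub _ _
          _ < 1 := by linarith
      have h7 : |k| < 1 := by exact_mod_cast h5
      exact Int.abs_lt_one_iff.1 h7
    rw [hk0, Int.cast_zero, add_zero] at hk
    rw [hk] at b2
    exact extP_inj hm (bb_spec hm hw a4) b2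
  have hff : ff m w =ᶠ[𝓝 ζ₀] fun ζ => mul m (cOf ζ, β (cOf ζ)) := by
    filter_upwards [hev] with ζ hζ
    show mult m (cOf ζ) (bb m w ζ) = _
    rw [hζ]; rfl
  refine DifferentiableAt.congr_of_eventuallyEq ?_ hff
  have h1 : DifferentiableAt ℂ (mul m) ((cOf ζ₀, β (cOf ζ₀)) : ℂ × ℂ) :=
    ((contDiff_mul m).differentiable (by simp)).differentiableAt
  have h2 : DifferentiableAt ℂ (fun ζ => ((cOf ζ, β (cOf ζ)) : ℂ × ℂ)) ζ₀ :=
    hcd.prodMk (hβ'.differentiableAt.comp ζ₀ hcd)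
  exact DifferentiableAt.comp (g := mul m) (f := fun ζ => ((cOf ζ, β (cOf ζ)) : ℂ × ℂ)) ζ₀ h1 h2

lemma differentiableOn_ff {m : ℕ} {w : ℕ → ℤ} (hm : 0 < m) (hw : Bits m w) :
    DifferentiableOn ℂ (ff m w) {ζ : ℂ | 0 < ζ.re} :=
  fun _ hζ => (differentiableAt_ff hm hw hζ).differentiableWithinAt

lemma re_le_of_ply {ℓ : ℂ} {t K : ℝ} (h : ‖ℓ - 2 * Real.pi * (t : ℂ) * I‖ ^ 2 ≤ K * ℓ.re)
    (h0 : 0 < ℓ.re) : ℓ.re ≤ K := by
  have h1 : |ℓ.re| ≤ ‖ℓ - 2 * Real.pi * (t : ℂ) * I‖ := by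
    have h2 := Complex.abs_re_le_norm (ℓ - 2 * Real.pi * (t : ℂ) * I)
    have h3 : (ℓ - 2 * Real.pi * (t : ℂ) * I).re = ℓ.re := by simp
    rwa [h3] at h2
  have h2 : ℓ.re ^ 2 ≤ K * ℓ.re := by
    refine le_trans ?_ h
    rw [← sq_abs]
    exact pow_le_pow_left₀ (abs_nonneg _) h1 2
  have h3 : ℓ.re * ℓ.re ≤ K * ℓ.re := by rw [← sq]; exact h2
  exact le_of_mul_le_mul_right h3 h0

lemma one_lt_ff {m : ℕ} {w : ℕ → ℤ} (hm : 0 < m) (hw : Bits m w) {ζ : ℂ} (h : 0 < ζ.re) :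
    1 < ‖ff m w ζ‖ :=
  one_lt_norm_mult_of_ext hm (bb_spec hm hw h).1 (bb_spec hm hw h).2.2.1

lemma ff_le {m : ℕ} {w : ℕ → ℤ} (hm : 0 < m) (hw : Bits m w) {ζ : ℂ} (h : 0 < ζ.re)
    (h4 : ζ.re ≤ 4) : ‖ff m w ζ‖ ≤ Real.exp (81 * m) := by
  have hE := bb_spec hm hw h
  obtain ⟨h1, ℓ, h2, h3⟩ := extP_ply hm hE (by rw [G_cOf h]; exact h4)
  have h5 : ‖ff m w ζ‖ = Real.exp ℓ.re := by
    show ‖mult m (cOf ζ) (bb m w ζ)‖ = _
    rw [← h2, Complex.norm_exp]
  have h6 : 0 < ℓ.re := by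
    have h7 := one_lt_ff hm hw h
    rw [h5, Real.one_lt_exp_iff] at h7
    exact h7
  rw [h5]
  exact Real.exp_le_exp.2 (re_le_of_ply h3 h6)

variable {D : Dat}

/-- the limits of the multipliers at the plateau -/
lemma bottom (hP : D.Par) (hC : D.Cir) {y : ℝ} (h1 : 2 * Real.pi * D.tm < y)
    (h2 : y < 2 * Real.pi * D.tp) {κ : ℝ}
    (hκ : Real.exp (2 * D.m * Real.log 2 / D.x.den) < κ) :
    ∀ᶠ ζ in 𝓝[{ζ : ℂ | 0 < ζ.re}] (y * I), ‖ff D.m D.w ζ‖ < κ := by
  have hpi := Real.pi_pos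
  have hm := hP.m_pos
  have hmr : (0 : ℝ) < D.m := by exact_mod_cast hm
  have hlog2 : 0 < Real.log 2 := Real.log_pos (by norm_num)
  have hQ : (0 : ℝ) < D.x.den := by exact_mod_cast D.x.pos
  by_contra hcon
  rw [Filter.not_eventually] at hcon
  obtain ⟨u, hu, hfu⟩ := Filter.exists_seq_forall_of_frequently hcon
  rw [tendsto_nhdsWithin_iff] at hu
  obtain ⟨hu1, hu2⟩ := hu
  -- all but finitely many points are good
  have hre0 : Tendsto (fun j => (u j).re) atTop (𝓝 0) := by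
    have := (continuous_re.tendsto ((y : ℂ) * I)).comp hu1
    have h0 : ((y : ℂ) * I).re = 0 := by simp
    rw [h0] at this
    exact this
  have him0 : Tendsto (fun j => tht (u j)) atTop (𝓝 (y / (2 * Real.pi))) := by
    have := (continuous_tht.tendsto ((y : ℂ) * I)).comp hu1
    have h3 : tht ((y : ℂ) * I) = y / (2 * Real.pi) := by simp [tht]
    rwa [h3] at this
  have hth1 : D.tm < y / (2 * Real.pi) := by
    rw [lt_div_iff₀ (by positivity)]; linarith
  have hth2 : y / (2 * Real.pi) < D.tp := by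
    rw [div_lt_iff₀ (by positivity)]; linarith
  have hev : ∀ᶠ j in atTop, 0 < (u j).re ∧ (u j).re ≤ 1 ∧ D.tm < tht (u j) ∧ tht (u j) < D.tp := by
    filter_upwards [hu2, hre0.eventually (eventually_le_nhds (show (0 : ℝ) < 1 by norm_num)),
      him0.eventually (lt_mem_nhds hth1), him0.eventually (gt_mem_nhds hth2)] with j a b c d
    exact ⟨a, b, c, d⟩
  obtain ⟨j₀, hj₀⟩ := eventually_atTop.1 hev
  set v : ℕ → ℂ := fun j => u (j + j₀) with hv
  have hv1 : Tendsto v atTop (𝓝 ((y : ℂ) * I)) := hu1.comp (tendsto_add_atTop_nat j₀)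
  have hvg : ∀ j, 0 < (v j).re ∧ (v j).re ≤ 1 ∧ D.tm < tht (v j) ∧ tht (v j) < D.tp :=
    fun j => hj₀ _ (Nat.le_add_left _ _)
  have hvf : ∀ j, κ ≤ ‖ff D.m D.w (v j)‖ := fun j => not_lt.1 (hfu (j + j₀))
  have hvre : Tendsto (fun j => (v j).re) atTop (𝓝 0) := hre0.comp (tendsto_add_atTop_nat j₀)
  set p : ℕ → ℂ × ℂ := fun j => (cOf (v j), bb D.m D.w (v j)) with hp
  have hE : ∀ j, ExtP D.m (p j).1 (p j).2 (tht (v j)) D.w := fun j =>
    bb_spec hm hP.bits (hvg j).1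
  have hG : ∀ j, G (p j).1 (p j).1 = (v j).re := fun j => G_cOf (hvg j).1
  have hb1 : ∀ j, ‖(p j).1‖ ≤ 2 * Real.exp 1 + 100 := fun j =>
    norm_le_of_G_le (by rw [hG j]; exact (hvg j).2.1)
  have hb2 : ∀ j, ‖(p j).2‖ ≤ 1 + (2 * Real.exp 1 + 100) := by
    intro j
    have h3 : G (p j).1 (p j).2 = 0 := G_zero_of_per hm (hE j).2.2.1
    have h4 := norm_le_of_G_zero h3
    linarith [hb1 j]
  have hmem : ∀ j, p j ∈ closedBall (0 : ℂ) (2 * Real.exp 1 + 100) ×ˢ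
      closedBall (0 : ℂ) (1 + (2 * Real.exp 1 + 100)) := fun j =>
    ⟨mem_closedBall_zero_iff.2 (hb1 j), mem_closedBall_zero_iff.2 (hb2 j)⟩
  obtain ⟨z, -, φ, hφ, hlim⟩ := ((isCompact_closedBall (0 : ℂ) (2 * Real.exp 1 + 100)).prod
    (isCompact_closedBall (0 : ℂ) (1 + (2 * Real.exp 1 + 100)))).tendsto_subseq hmem
  have hzP : z ∈ Per D.m :=
    (isClosed_Per D.m).mem_of_tendsto hlim (Eventually.of_forall fun j => (hE (φ j)).2.2.1)
  have hzM : z.1 ∈ MM := by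
    by_contra hM
    rw [not_mem_MM_iff] at hM
    have h3 : Tendsto (fun j => G ((p ∘ φ) j).1 ((p ∘ φ) j).1) atTop (𝓝 (G z.1 z.1)) :=
      (continuous_G_diag'.tendsto z).comp hlim
    have h4 : Tendsto (fun j => G ((p ∘ φ) j).1 ((p ∘ φ) j).1) atTop (𝓝 0) := by
      have h5 : (fun j => G ((p ∘ φ) j).1 ((p ∘ φ) j).1) = fun j => (v (φ j)).re :=
        funext fun j => hG (φ j)
      rw [h5]
      exact hvre.comp hφ.tendsto_atTop
    rw [tendsto_nhds_unique h3 h4] at hM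
    exact lt_irrefl _ hM
  have hmz : κ ≤ ‖mul D.m z‖ := by
    have h3 : Tendsto (fun j => ‖mul D.m (p (φ j))‖) atTop (𝓝 ‖mul D.m z‖) :=
      ((continuous_mul' D.m).norm.tendsto z).comp hlim
    exact ge_of_tendsto' h3 fun j => hvf (φ j)
  have hone : 1 < ‖mul D.m z‖ := by
    refine lt_of_lt_of_le ?_ hmz
    refine lt_of_le_of_lt ?_ hκ
    exact Real.one_le_exp (by positivity)
  obtain ⟨c₀, b₀⟩ := z
  have hM0 : G c₀ 0 = 0 := mem_M_iff.1 hzM
  have hρ : 1 < ‖mult D.m c₀ b₀‖ := hone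
  have hlin := lin_Lz hm hzP hρ
  obtain ⟨β, q, P, hq, hland, -, -, hply⟩ := Tr.exists_land_rot hlin hM0
    (Complex.exp_log (repelling_ne_zero hρ))
  have hqr : (0 : ℝ) < q := by exact_mod_cast hq
  obtain ⟨j, hj⟩ := (hlim.eventually (land_nhds hm hM0 hzP hρ hland)).exists
  have h3 := (hj (hE (φ j)).2.2.1).2 (tht (v (φ j))) D.w (hE (φ j)).1 (hE (φ j)).2.1
    (hE (φ j)).2.2.2.2
  obtain ⟨P', -, hP'⟩ := nu_of_compat hland.1 hP.bits.per h3
  have h4 : Circ.nu D.w D.m (tht (v (φ j))) = D.k₀ + D.x :=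
    (hC.plateau _).2 ⟨(hvg (φ j)).2.2.1.le, (hvg (φ j)).2.2.2.le⟩
  have hdvd : D.x.den ∣ q := by
    have h5 : ((D.k₀ : ℚ) + D.x) = (P' : ℚ) / (q : ℚ) := by
      have : ((D.k₀ : ℝ) + (D.x : ℝ)) = (P' : ℝ) / (q : ℝ) := by rw [← h4, hP']
      exact_mod_cast this
    have hq0 : (q : ℚ) ≠ 0 := by exact_mod_cast hq.ne'
    have h6 : D.x = ((P' - D.k₀ * q : ℤ) : ℚ) / ((q : ℤ) : ℚ) := by
      push_cast
      rw [sub_div, ← h5]
      field_simp
      ring
    have h7 := Rat.den_dvd (P' - D.k₀ * q) (q : ℤ)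
    rw [Rat.divInt_eq_div, ← h6] at h7
    exact_mod_cast h7
  have hQq : (D.x.den : ℝ) ≤ q := by exact_mod_cast Nat.le_of_dvd hq hdvd
  set L := Complex.log (mult D.m c₀ b₀) with hL
  have hre : 0 < L.re := by rw [hL, Complex.log_re]; exact Real.log_pos hρ
  have h5 : ((P : ℂ) / q) = (((P : ℝ) / q : ℝ) : ℂ) := by push_cast; rfl
  rw [h5] at hply
  have h6 := re_le_of_ply hply hre
  have h7 : L.re ≤ 2 * D.m * Real.log 2 / D.x.den := by
    refine h6.trans ?_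
    gcongr
  have h8 : ‖mult D.m c₀ b₀‖ = Real.exp L.re := by
    rw [hL, Complex.log_re, Real.exp_log (by linarith)]
  have h9 : κ ≤ Real.exp L.re := by rw [← h8]; exact hmz
  have h10 : Real.exp L.re ≤ Real.exp (2 * D.m * Real.log 2 / D.x.den) := Real.exp_le_exp.2 h7
  linarith

/-- the comparison function -/
noncomputable def VV (y₀ a : ℝ) (ζ : ℂ) : ℂ :=
  4 * (ζ - y₀ * I) / a - (ζ - y₀ * I) ^ 2 / a ^ 2

lemma VV_re (y₀ : ℝ) {a : ℝ} (ha : 0 < a) (ζ : ℂ) :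
    (VV y₀ a ζ).re = 4 * ζ.re / a - (ζ.re ^ 2 - (ζ.im - y₀) ^ 2) / a ^ 2 := by
  have h1 : VV y₀ a ζ = ((1 / a : ℝ) : ℂ) * (4 * (ζ - y₀ * I)) -
      ((1 / a ^ 2 : ℝ) : ℂ) * ((ζ - y₀ * I) ^ 2) := by
    have : (a : ℂ) ≠ 0 := by exact_mod_cast ha.ne'
    unfold VV; push_cast; field_simp
  rw [h1, Complex.sub_re, Complex.re_ofReal_mul, Complex.re_ofReal_mul]
  simp [sq]
  field_simp

lemma continuous_VV (y₀ a : ℝ) : Continuous (VV y₀ a) := by
  unfold VV; fun_prop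

/-- **maximum principle on the half square** -/
lemma max_principle {F : ℂ → ℂ} {y₀ a M K : ℝ} (ha : 0 < a) (hM : 0 < M) (hK : 0 ≤ K)
    (hF : DifferentiableOn ℂ F {ζ : ℂ | 0 < ζ.re})
    (hb : ∀ ζ : ℂ, 0 < ζ.re → ζ.re ≤ a → ‖F ζ‖ ≤ Real.exp M)
    (hbot : ∀ y : ℝ, |y - y₀| < a → ∀ κ, Real.exp K < κ →
      ∀ᶠ ζ in 𝓝[{ζ : ℂ | 0 < ζ.re}] (y * I), ‖F ζ‖ < κ)
    {x : ℝ} (hx : 0 < x) (hxa : x ≤ a / 4) :
    ‖F (x + y₀ * I)‖ ≤ Real.exp (K + 4 * M * x / a) := by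
  set g : ℂ → ℂ := fun ζ => F ζ * exp (-(M : ℂ) * VV y₀ a ζ) with hg
  have hgn : ∀ ζ, ‖g ζ‖ = ‖F ζ‖ * Real.exp (-(M * (VV y₀ a ζ).re)) := by
    intro ζ
    rw [hg]
    simp only [norm_mul, Complex.norm_exp]
    congr 2
    have h1 : (-(M : ℂ) * VV y₀ a ζ) = ((-M : ℝ) : ℂ) * VV y₀ a ζ := by push_cast; ring
    rw [h1, Complex.re_ofReal_mul]; ring
  have hgd : DifferentiableOn ℂ g {ζ : ℂ | 0 < ζ.re} := by
    refine hF.mul ?_
    have : Differentiable ℂ fun ζ => exp (-(M : ℂ) * VV y₀ a ζ) := by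
      unfold VV; fun_prop
    exact this.differentiableOn
  -- the bottom
  have hbot' : ∀ κ, Real.exp K < κ → ∀ y ∈ Icc (y₀ - a) (y₀ + a),
      ∀ᶠ ζ in 𝓝[{ζ : ℂ | 0 < ζ.re}] (y * I), ‖g ζ‖ < κ := by
    intro κ hκ y hy
    have hK1 : 1 ≤ Real.exp K := Real.one_le_exp hK
    by_cases hya : |y - y₀| < a
    · have h2 : ∀ᶠ ζ : ℂ in 𝓝[{ζ : ℂ | 0 < ζ.re}] (y * I), ζ.re < a := by
        refine nhdsWithin_le_nhds ?_
        have h3 : ((y : ℂ) * I).re < a := by simp [ha]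
        exact (isOpen_lt continuous_re continuous_const).mem_nhds h3
      filter_upwards [hbot y hya κ hκ, h2, self_mem_nhdsWithin] with ζ h3 h4 h5
      have h5' : 0 < ζ.re := h5
      rw [hgn]
      have h6 : 0 ≤ (VV y₀ a ζ).re := by
        rw [VV_re y₀ ha]
        have e1 : (ζ.re ^ 2 - (ζ.im - y₀) ^ 2) / a ^ 2 ≤ ζ.re ^ 2 / a ^ 2 := by
          gcongr; nlinarith [sq_nonneg (ζ.im - y₀)]
        have e2 : ζ.re ^ 2 / a ^ 2 ≤ 4 * ζ.re / a := by
          rw [div_le_div_iff₀ (by positivity) ha]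
          nlinarith [mul_pos h5' ha, mul_pos (mul_pos h5' ha) ha, mul_pos h5' h5']
        linarith
      calc ‖F ζ‖ * Real.exp (-(M * (VV y₀ a ζ).re)) ≤ ‖F ζ‖ * 1 := by
            refine mul_le_mul_of_nonneg_left ?_ (norm_nonneg _)
            rw [Real.exp_le_one_iff]
            nlinarith
        _ < κ := by rw [mul_one]; exact h3
    · have hya' : |y - y₀| = a := by
        refine le_antisymm ?_ (not_lt.1 hya)
        rw [abs_le]; constructor <;> linarith [hy.1, hy.2]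
      have h1 : (VV y₀ a ((y : ℂ) * I)).re = 1 := by
        rw [VV_re y₀ ha]
        have e1 : ((y : ℂ) * I).re = 0 := by simp
        have e2 : ((y : ℂ) * I).im = y := by simp
        rw [e1, e2, ← sq_abs (y - y₀), hya']
        field_simp; ring
      have h2 : Tendsto (fun ζ => Real.exp (M - M * (VV y₀ a ζ).re)) (𝓝 ((y : ℂ) * I)) (𝓝 1) := by
        have hc : Continuous fun ζ => Real.exp (M - M * (VV y₀ a ζ).re) := by
          have := continuous_VV y₀ a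
          fun_prop
        have h3 := hc.tendsto ((y : ℂ) * I)
        rw [h1, mul_one, sub_self, Real.exp_zero] at h3
        exact h3
      have h3 : ∀ᶠ ζ in 𝓝[{ζ : ℂ | 0 < ζ.re}] (y * I),
          Real.exp (M - M * (VV y₀ a ζ).re) < κ :=
        nhdsWithin_le_nhds (h2.eventually (gt_mem_nhds (lt_of_le_of_lt hK1 hκ)))
      have h4 : ∀ᶠ ζ : ℂ in 𝓝[{ζ : ℂ | 0 < ζ.re}] (y * I), ζ.re < a := by
        refine nhdsWithin_le_nhds ?_
        have h3 : ((y : ℂ) * I).re < a := by simp [ha]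
        exact (isOpen_lt continuous_re continuous_const).mem_nhds h3
      filter_upwards [h3, h4, self_mem_nhdsWithin] with ζ h5 h6 h7
      rw [hgn]
      refine lt_of_le_of_lt ?_ h5
      calc ‖F ζ‖ * Real.exp (-(M * (VV y₀ a ζ).re))
          ≤ Real.exp M * Real.exp (-(M * (VV y₀ a ζ).re)) := by
            gcongr
            exact hb ζ h7 h6.le
        _ = _ := by rw [← Real.exp_add]; congr 1
  -- the estimate of `g`
  have key : ‖g (x + y₀ * I)‖ ≤ Real.exp K := by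
    by_contra hcon
    push Not at hcon
    obtain ⟨κ, hκ1, hκ2⟩ := exists_between hcon
    have h1 := hbot' κ hκ1
    -- a uniform strip
    have hcomp : IsCompact ((fun y : ℝ => (y : ℂ) * I) '' Icc (y₀ - a) (y₀ + a)) :=
      isCompact_Icc.image (by fun_prop)
    choose! U hU using fun y (hy : y ∈ Icc (y₀ - a) (y₀ + a)) => mem_nhdsWithin.1 (h1 y hy)
    have hcov : (fun y : ℝ => (y : ℂ) * I) '' Icc (y₀ - a) (y₀ + a) ⊆
        ⋃ y ∈ Icc (y₀ - a) (y₀ + a), U y := by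
      rintro _ ⟨y, hy, rfl⟩
      exact mem_biUnion hy (hU y hy).2.1
    have hopen : IsOpen (⋃ y ∈ Icc (y₀ - a) (y₀ + a), U y) :=
      isOpen_biUnion fun y hy => (hU y hy).1
    obtain ⟨ε, hε, hεs⟩ := hcomp.exists_thickening_subset_open hopen hcov
    obtain ⟨δ, hδ0, hδ⟩ := exists_between (lt_min hε hx)
    have hδε : δ < ε := lt_of_lt_of_le hδ (min_le_left _ _)
    have hδx : δ < x := lt_of_lt_of_le hδ (min_le_right _ _)
    have hstrip : ∀ ζ : ℂ, ζ.re = δ → |ζ.im - y₀| ≤ a → ‖g ζ‖ < κ := by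
      intro ζ h2 h3
      have h4 : ζ ∈ thickening ε ((fun y : ℝ => (y : ℂ) * I) '' Icc (y₀ - a) (y₀ + a)) := by
        rw [mem_thickening_iff]
        refine ⟨(ζ.im : ℂ) * I, ⟨ζ.im, ?_, rfl⟩, ?_⟩
        · rw [abs_le] at h3; constructor <;> linarith [h3.1, h3.2]
        · have h5 : ζ - (ζ.im : ℂ) * I = (δ : ℂ) := by
            rw [← h2]
            apply Complex.ext <;> simp
          rw [dist_eq_norm, h5, Complex.norm_real, Real.norm_eq_abs, abs_of_pos hδ0]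
          exact hδε
      obtain ⟨y, hy, hζ⟩ := mem_iUnion₂.1 (hεs h4)
      exact (hU y hy).2.2 ⟨hζ, by show 0 < ζ.re; rw [h2]; exact hδ0⟩
    -- the rectangle
    set R : Set ℂ := {ζ | δ < ζ.re ∧ ζ.re < a / 2 ∧ |ζ.im - y₀| < a} with hR
    have hRb : Bornology.IsBounded R := by
      refine (Metric.isBounded_closedBall (x := (y₀ : ℂ) * I) (r := 2 * a)).subset ?_
      rintro ζ ⟨a1, a2, a3⟩
      rw [mem_closedBall, dist_eq_norm]
      refine (Complex.norm_le_abs_re_add_abs_im _).trans ?_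
      have e1 : (ζ - (y₀ : ℂ) * I).re = ζ.re := by simp
      have e2 : (ζ - (y₀ : ℂ) * I).im = ζ.im - y₀ := by simp
      rw [e1, e2, abs_of_pos (hδ0.trans a1)]
      linarith
    have hRc : closure R ⊆ {ζ : ℂ | δ ≤ ζ.re ∧ ζ.re ≤ a / 2 ∧ |ζ.im - y₀| ≤ a} := by
      refine closure_minimal ?_ ?_
      · rintro ζ ⟨a1, a2, a3⟩; exact ⟨a1.le, a2.le, a3.le⟩
      · refine (isClosed_le continuous_const continuous_re).inter
          ((isClosed_le continuous_re continuous_const).inter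
            (isClosed_le ((continuous_im.sub continuous_const).abs) continuous_const))
    have hRo : IsOpen R := by
      refine (isOpen_lt continuous_const continuous_re).inter
          ((isOpen_lt continuous_re continuous_const).inter
            (isOpen_lt ((continuous_im.sub continuous_const).abs) continuous_const))
    have hdc : DiffContOnCl ℂ g R := by
      refine DifferentiableOn.diffContOnCl ?_
      exact hgd.mono fun ζ hζ => lt_of_lt_of_le hδ0 (hRc hζ).1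
    have hmax := Complex.norm_le_of_forall_mem_frontier_norm_le hRb hdc (C := κ) (fun ζ hζ => by
      have h2 := hRc (frontier_subset_closure hζ)
      have h3 : ζ ∉ R := by
        rw [hRo.frontier_eq] at hζ; exact hζ.2
      obtain ⟨b1, b2, b3⟩ := h2
      by_cases c1 : ζ.re = δ
      · exact (hstrip ζ c1 b3).le
      have hδζ : δ < ζ.re := lt_of_le_of_ne b1 (Ne.symm c1)
      have hζ0 : 0 < ζ.re := hδ0.trans hδζ
      have h4 : 1 ≤ (VV y₀ a ζ).re := by
        rw [VV_re y₀ ha]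
        by_cases c2 : ζ.re = a / 2
        · rw [c2]
          have e1 : ((a / 2) ^ 2 - (ζ.im - y₀) ^ 2) / a ^ 2 ≤ (a / 2) ^ 2 / a ^ 2 := by
            gcongr; nlinarith [sq_nonneg (ζ.im - y₀)]
          have e2 : (a / 2) ^ 2 / a ^ 2 = 1 / 4 := by field_simp; norm_num
          have e3 : 4 * (a / 2) / a = 2 := by field_simp; norm_num
          linarith
        · have c3 : |ζ.im - y₀| = a := by
            by_contra c4
            exact h3 ⟨hδζ, lt_of_le_of_ne b2 c2, lt_of_le_of_ne b3 c4⟩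
          rw [← sq_abs (ζ.im - y₀), c3]
          have e1 : (ζ.re ^ 2 - a ^ 2) / a ^ 2 = ζ.re ^ 2 / a ^ 2 - 1 := by field_simp
          have e2 : ζ.re ^ 2 / a ^ 2 ≤ 4 * ζ.re / a := by
            rw [div_le_div_iff₀ (by positivity) ha]
            nlinarith [mul_pos hζ0 ha, mul_pos (mul_pos hζ0 ha) ha, mul_pos hζ0 hζ0]
          rw [e1]; linarith
      rw [hgn]
      have h5 := hb ζ hζ0 (by linarith)
      have h6 : Real.exp (-(M * (VV y₀ a ζ).re)) ≤ Real.exp (-M) := by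
        apply Real.exp_le_exp.2; nlinarith
      calc ‖F ζ‖ * Real.exp (-(M * (VV y₀ a ζ).re)) ≤ Real.exp M * Real.exp (-M) := by
            gcongr
        _ = 1 := by rw [← Real.exp_add, add_neg_cancel, Real.exp_zero]
        _ ≤ Real.exp K := Real.one_le_exp hK
        _ ≤ κ := hκ1.le) (z := x + y₀ * I) (subset_closure (by
          refine ⟨?_, ?_, ?_⟩
          · simpa using hδx
          · have : ((x : ℂ) + y₀ * I).re = x := by simp
            rw [this]; linarith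
          · have : ((x : ℂ) + y₀ * I).im = y₀ := by simp
            rw [this]; simpa using ha))
    linarith
  rw [hgn, VV_re y₀ ha] at key
  have e1 : ((x : ℂ) + y₀ * I).re = x := by simp
  have e2 : ((x : ℂ) + y₀ * I).im = y₀ := by simp
  rw [e1, e2, sub_self] at key
  set t : ℝ := 4 * x / a - (x ^ 2 - 0 ^ 2) / a ^ 2 with ht
  have ht2 : t ≤ 4 * x / a := by
    rw [ht]
    have : 0 ≤ (x ^ 2 - 0 ^ 2) / a ^ 2 := by
      have : x ^ 2 - 0 ^ 2 = x ^ 2 := by ring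
      rw [this]; positivity
    linarith
  have h1 : ‖F (x + y₀ * I)‖ = (‖F (x + y₀ * I)‖ * Real.exp (-(M * t))) * Real.exp (M * t) := by
    rw [mul_assoc, ← Real.exp_add]; simp
  rw [h1]
  calc (‖F (x + y₀ * I)‖ * Real.exp (-(M * t))) * Real.exp (M * t)
      ≤ Real.exp K * Real.exp (M * t) := by gcongr
    _ = Real.exp (K + M * t) := by rw [Real.exp_add]
    _ ≤ Real.exp (K + 4 * M * x / a) := by
        apply Real.exp_le_exp.2
        have : M * t ≤ M * (4 * x / a) := mul_le_mul_of_nonneg_left ht2 hM.le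
        have e : M * (4 * x / a) = 4 * M * x / a := by ring
        linarith

/-- **the multiplier of the parent on the mid ray** -/
theorem mid_mult (hP : D.Par) (hC : D.Cir) {c b : ℂ}
    (h : ExtP D.m c b ((D.tm + D.tp) / 2) D.w)
    (hG : G c c ≤ (D.tp - D.tm) / (200 * D.x.den)) :
    Real.log ‖mult D.m c b‖ ≤ 5 / 2 * D.m / D.x.den := by
  have hpi := Real.pi_gt_three
  have hm := hP.m_pos
  have hmr : (1 : ℝ) ≤ D.m := by exact_mod_cast hm
  have hQ : (1 : ℝ) ≤ D.x.den := by exact_mod_cast D.x.pos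
  have hl : 0 < D.tp - D.tm := sub_pos.2 hC.lt
  have hl1 : D.tp - D.tm < 1 := by linarith [hC.lt_one]
  have hlog2 : Real.log 2 < 0.7 := by linarith [Real.log_two_lt_d9]
  have hlog2' : 0 < Real.log 2 := Real.log_pos (by norm_num)
  set a : ℝ := Real.pi * (D.tp - D.tm) with ha
  have ha0 : 0 < a := by positivity
  have ha4 : a ≤ 4 := by
    have := Real.pi_lt_four
    nlinarith
  set y₀ : ℝ := 2 * Real.pi * ((D.tm + D.tp) / 2) with hy₀
  have hx0 : 0 < G c c := h.1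
  have hxa : G c c ≤ a / 4 := by
    refine hG.trans ?_
    rw [ha, div_le_div_iff₀ (by positivity) (by norm_num)]
    nlinarith
  set ζ : ℂ := (G c c : ℂ) + y₀ * I with hζ
  have hζre : ζ.re = G c c := by simp [hζ]
  have hζim : ζ.im = y₀ := by simp [hζ]
  have htht : tht ζ = (D.tm + D.tp) / 2 := by
    unfold tht; rw [hζim, hy₀]; field_simp
  have hc : cOf ζ = c := by
    refine cOf_unique ?_ ?_ ?_
    · exact not_mem_MM_iff.2 h.1
    · rw [hζre, G_zero_eq]; linarith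
    · have h1 := h.2.1
      have h2 : (G c c : ℂ) + 2 * Real.pi * (((D.tm + D.tp) / 2 : ℝ) : ℂ) * I = ζ := by
        rw [hζ, hy₀]; push_cast; ring
      rwa [h2] at h1
  have hbb : bb D.m D.w ζ = b := by
    have h1 := bb_spec hm hP.bits (ζ := ζ) (by rw [hζre]; exact hx0)
    rw [hc, htht] at h1
    exact extP_inj hm h1 h
  have hff : ff D.m D.w ζ = mult D.m c b := by
    unfold ff; rw [hc, hbb]
  have h1 := max_principle (F := ff D.m D.w) (y₀ := y₀) (a := a) (M := 81 * D.m)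
    (K := 2 * D.m * Real.log 2 / D.x.den) ha0 (by positivity) (by positivity)
    (differentiableOn_ff hm hP.bits)
    (fun ζ h1 h2 => ff_le hm hP.bits h1 (h2.trans ha4))
    (fun y hy κ hκ => by
      rw [abs_lt, hy₀, ha] at hy
      exact bottom hP hC (by nlinarith [hy.1]) (by nlinarith [hy.2]) hκ)
    hx0 hxa
  have h2 : ((G c c : ℝ) : ℂ) + (y₀ : ℂ) * I = ζ := rfl
  rw [h2, hff] at h1
  have hpos : 0 < ‖mult D.m c b‖ := by
    have := one_lt_norm_mult_of_ext hm h.1 h.2.2.1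
    linarith
  have h3 := Real.log_le_log hpos h1
  rw [Real.log_exp] at h3
  refine h3.trans ?_
  have h4 : 2 * D.m * Real.log 2 / D.x.den ≤ 1.4 * D.m / D.x.den := by
    have h40 : 2 * (D.m : ℝ) * Real.log 2 ≤ 1.4 * D.m := by
      have h41 : (D.m : ℝ) * Real.log 2 ≤ D.m * 0.7 := mul_le_mul_of_nonneg_left hlog2.le (by positivity)
      linarith
    gcongr
  have h5 : 4 * (81 * (D.m : ℝ)) * G c c / a ≤ 1.08 * D.m / D.x.den := by
    rw [div_le_div_iff₀ ha0 (by positivity)]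
    have h6 : G c c * (200 * D.x.den) ≤ D.tp - D.tm := by
      rwa [le_div_iff₀ (by positivity)] at hG
    have h7 : G c c * D.x.den ≤ (D.tp - D.tm) / 200 := by linarith
    have h8 : (3 : ℝ) * (D.tp - D.tm) ≤ a := by rw [ha]; nlinarith
    have h9 : 4 * (81 * (D.m : ℝ)) * G c c * D.x.den ≤ 324 * D.m * ((D.tp - D.tm) / 200) := by
      have : 324 * (D.m : ℝ) * (G c c * D.x.den) ≤ 324 * D.m * ((D.tp - D.tm) / 200) :=
        mul_le_mul_of_nonneg_left h7 (by positivity)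
      linarith
    have h10 : (1.08 * (D.m : ℝ)) * (3 * (D.tp - D.tm)) ≤ 1.08 * D.m * a :=
      mul_le_mul_of_nonneg_left h8 (by positivity)
    nlinarith
  have h6 : 5 / 2 * (D.m : ℝ) / D.x.den = 2.5 * D.m / D.x.den := by norm_num
  have h7 : 1.4 * (D.m : ℝ) / D.x.den + 1.08 * D.m / D.x.den ≤ 2.5 * D.m / D.x.den := by
    rw [← add_div]
    gcongr
    linarith
  rw [h6]; linarith

end MidRay

open MidRay in
/-- **the mid ray of the plateau near the root**: the exterior parameters of angle `(tm + tp) / 2`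
of low potential are in the image of the section of the parent, close to the root -/
theorem mid_ray (D : Dat) (hP : D.Par) (hC : D.Cir)
    (hQ : 15 * D.m / Real.sqrt D.x.den < gR D.m D.x) {c : ℂ}
    (hA : Ang c ((D.tm + D.tp) / 2)) (hG : G c c ≤ (D.tp - D.tm) / (200 * D.x.den)) :
    ∃ L ∈ D.B, D.c L = c ∧ D.Th L ((D.tm + D.tp) / 2) ∧ 0 < L.re ∧
      ‖L - D.a‖ ≤ 15 * D.m / Real.sqrt D.x.den := by
  have hm := hP.m_pos
  have hmr : (1 : ℝ) ≤ D.m := by exact_mod_cast hm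
  have hQ1 : (1 : ℝ) ≤ D.x.den := by exact_mod_cast D.x.pos
  have hl : 0 < D.tp - D.tm := sub_pos.2 hC.lt
  have hl1 : D.tp - D.tm < 1 := by linarith [hC.lt_one]
  obtain ⟨b, hb⟩ := exists_extP hm hA hP.bits
  have hlog := mid_mult hP hC hb hG
  have hG4 : G c c ≤ 4 := by
    refine hG.trans ?_
    rw [div_le_iff₀ (by positivity)]; nlinarith
  obtain ⟨h1, ℓ, h2, h3⟩ := extP_ply hm hb hG4
  have hν : Circ.nu D.w D.m ((D.tm + D.tp) / 2) = D.k₀ + D.x :=
    (hC.plateau _).2 ⟨by linarith, by linarith⟩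
  rw [hν] at h3
  have hre : ℓ.re = Real.log ‖mult D.m c b‖ := by
    rw [← h2, Complex.norm_exp, Real.log_exp]
  have hre0 : 0 < ℓ.re := by rw [hre]; exact Real.log_pos h1
  set L : ℂ := ℓ - 2 * Real.pi * (D.k₀ : ℂ) * I with hL
  have hLre : L.re = ℓ.re := by rw [hL]; simp
  have hLa : L - D.a = ℓ - 2 * Real.pi * ((D.k₀ + D.x : ℝ) : ℂ) * I := by
    rw [hL]; unfold Dat.a axisPt; push_cast; ring
  have hLe : mul D.m (c, b) = exp L := by
    rw [hL, Complex.exp_sub, h2]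
    have : exp (2 * Real.pi * (D.k₀ : ℂ) * I) = 1 := by
      have h5 : 2 * Real.pi * (D.k₀ : ℂ) * I = D.k₀ * (2 * Real.pi * I) := by ring
      rw [h5, Complex.exp_int_mul_two_pi_mul_I]
    rw [this, div_one]; rfl
  have hLn : ‖L - D.a‖ ≤ 15 * D.m / Real.sqrt D.x.den := by
    have hs : 0 < Real.sqrt D.x.den := Real.sqrt_pos.2 (by linarith)
    apply le_of_sq_le_sq _ (by positivity)
    rw [hLa]
    refine h3.trans ?_
    rw [div_pow, Real.sq_sqrt (by linarith), hre]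
    rw [le_div_iff₀ (by linarith)]
    have h5 : Real.log ‖mult D.m c b‖ * D.x.den ≤ 5 / 2 * D.m := by
      rwa [le_div_iff₀ (by linarith)] at hlog
    have h6 : 81 * (D.m : ℝ) * (Real.log ‖mult D.m c b‖ * D.x.den) ≤ 81 * D.m * (5 / 2 * D.m) :=
      mul_le_mul_of_nonneg_left h5 (by positivity)
    nlinarith
  have hLB : L ∈ D.B := by
    show L ∈ ball D.a (gR D.m D.x)
    rw [mem_ball, dist_eq_norm]
    exact lt_of_le_of_lt hLn hQ
  have hx0 := x_pos' hP
  have hx1 := x_lt' hP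
  have hn1 : (D.k₀ : ℝ) < Circ.nu D.w D.m ((D.tm + D.tp) / 2) := by rw [hν]; linarith
  have hn2 : Circ.nu D.w D.m ((D.tm + D.tp) / 2) < D.k₀ + 1 := by rw [hν]; linarith
  have hFF : FF D.m (D.σ L) = FF D.m (c, b) := by
    rw [(hP.lab L hLB (by rw [hLre]; exact hre0)).2 _ hn1 hn2]
    exact (FF_ext (x := (c, b)) hb).symm
  have hsec := hP.sec L hLB
  have heq := s4_unique D.m D.x L (D.σ L) (c, b) hm hP.x_pos hP.x_lt hLB
    (by rw [hLre]; exact hre0) hsec.1 hb.2.2.1 hsec.2 hLe hFF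
  have hc : D.c L = c := congrArg Prod.fst heq
  have hbL : D.b L = b := congrArg Prod.snd heq
  refine ⟨L, hLB, hc, ⟨?_, hn1, hn2⟩, by rw [hLre]; exact hre0, hLn⟩
  rw [hc, hbL]; exact hb

end Sat

end Pool.Agent.Work.MLC
end

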