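import Pool.Agent.Work.MLCM.C12
import Pool.Agent.Work.MLCM.C16
import Pool.Agent.Work.MLCM.C24
import Pool.Agent.Work.MLCM.C29
import Pool.Agent.Work.MLCM.C34
import Pool.Agent.Work.MLCM.C39
import Pool.Agent.Work.MLCM.C42
import Pool.Agent.Work.MLCM.C44
import Pool.Agent.Work.MLCM.C46
import Pool.Agent.Work.MLCM.C48
import Pool.Agent.Work.MLCM.C49
import Pool.Agent.Work.MLCM.C51
import Pool.Agent.Work.MLCM.C53

section
set_option autoImplicit false

/-! # The barrier theorem: glue (helper57) -/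

namespace Pool.Agent.Work.MLC

open Filter Topology Metric Set Complex

namespace Sat

namespace VDat

theorem limitPair : LimitPair := fun _ hm _ _ _ h1 h2 _ hM h => limit_pair hm h1 h2 hM h

variable {V : VDat}

/-- **off the barrier membership in `InV` is locally constant** -/
theorem Ok.clopen (hV : V.Ok) {c₀ : ℂ} (h : c₀ ∉ V.BarV) :
    ∀ᶠ c in 𝓝 c₀, (c ∈ V.InV ↔ c₀ ∈ V.InV) := inV_clopen limitPair hV h

/-- exterior parameters with rotation number close to `k₀ + x` are in `InV` -/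
lemma Ok.mem_of_nu (hV : V.Ok) {c : ℂ} {θ : ℝ} (h : Ang c θ)
    (h1 : (V.k₀ : ℝ) + V.x₁ < Circ.nu V.w V.m θ) (h2 : Circ.nu V.w V.m θ < V.k₀ + V.x₂) :
    c ∈ V.InV := by
  refine Or.inl (Or.inl ⟨θ, h, ?_, ?_⟩)
  · by_contra hcon
    have := Circ.nu_mono V.w V.m (not_lt.1 hcon)
    rw [hV.nu₁] at this
    linarith
  · by_contra hcon
    have := Circ.nu_mono V.w V.m (not_lt.1 hcon)
    rw [hV.nu₂] at this
    linarith

/-- exterior parameters of `InV` have a lift with rotation number in `[k₀ + x₁, k₀ + x₂]` -/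
lemma Ok.nu_of_mem (hV : V.Ok) {c : ℂ} {θ : ℝ} (h : Ang c θ) (hc : c ∈ V.InV) :
    ∃ m : ℤ, (V.k₀ : ℝ) + V.x₁ ≤ Circ.nu V.w V.m (θ + m) ∧
      Circ.nu V.w V.m (θ + m) ≤ V.k₀ + V.x₂ := by
  have hM : c ∉ MM := not_mem_MM_iff.2 h.1
  rcases hc with (⟨θ', h1, h2, h3⟩ | hc) | hc
  · obtain ⟨m, hm⟩ := h.unique h1
    have g1 := Circ.nu_mono V.w V.m h2.le
    have g2 := Circ.nu_mono V.w V.m h3.le
    rw [hV.nu₁] at g1
    rw [hV.nu₂] at g2
    refine ⟨m, ?_, ?_⟩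
    · rw [← hm]; exact g1
    · rw [← hm]; exact g2
  · exact absurd (InS_sub_MM hV hc) hM
  · exact absurd hc.1 hM

end VDat

end Sat

end Pool.Agent.Work.MLC
end

section
set_option autoImplicit false

/-! # The final glue of the theorem on all components (helper26)

Inputs as propositions: the barrier theorem `BTG`, the separation of labels `SEP`, the
identification `ID`. Output: two attracting points that are not distinguished by the locally
constant predicates and have the same multiplier have the same parameter. -/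

namespace Pool.Agent.Work.MLC.Pri

open Filter Topology Metric Set Complex

/-- `t` is the left end of the strip `k` of `w` -/
def LeftEnd (n : ℕ) (w : ℕ → ℤ) (k : ℤ) (t : ℝ) : Prop :=
  Circ.nu w n t = k ∧ ∀ θ, t < θ → (k : ℝ) < Circ.nu w n θ

/-- the labels belong to the same cycle -/
def SameCyc (w : ℕ → ℤ) (t : ℝ) (w' : ℕ → ℤ) (t' : ℝ) : Prop :=
  ∃ (i : ℕ) (m : ℤ), (∀ j, Even (w' j - w (i + j) - m)) ∧ t = t' + m

/-- `t` (modulo one) is in the plateau `κ + x` of `v` -/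
def InPl (d : ℕ) (v : ℕ → ℤ) (κ : ℤ) (x : ℚ) (t : ℝ) : Prop :=
  ∃ m : ℤ, Circ.nu v d (t + m) = κ + x

/-- **separation of the labels** (with barriers of periods up to `D n`) -/
def SEP (D : ℕ → ℕ) : Prop :=
  ∀ (n : ℕ) (w w' : ℕ → ℤ) (k k' : ℤ) (t t' : ℝ), 0 < n → Word n w → Word n w' →
    LeftEnd n w k t → LeftEnd n w' k' t' →
    SameCyc w t w' t' ∨ ∃ (d : ℕ) (v : ℕ → ℤ) (κ : ℤ) (x : ℚ), 0 < d ∧ d ≤ D n ∧ Word d v ∧
      0 < x ∧ x < 1 ∧ x.den ≤ D n ∧ Xor (InPl d v κ x t) (InPl d v κ x t')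

/-- the left end of a strip is `n`-periodic -/
def LEP : Prop := ∀ (n : ℕ) (w : ℕ → ℤ) (k : ℤ) (t : ℝ), 0 < n → Word n w → LeftEnd n w k t →
  ∃ a : ℤ, (2 : ℝ) ^ n * t - t = a

/-- **identification** of the attracting points -/
structure ID (n : ℕ) (η : ℝ) (Lbl : ℂ × ℂ → ℂ → (ℕ → ℤ) → ℤ → Prop) : Prop where
  ex : ∀ x L, x ∈ Per n → Exa n x → mul n x = exp L → L.re < 0 → ‖L‖ < η →
    ∃ w k, Word n w ∧ Lbl x L w k ∧ ∀ P : ℂ → Prop, LC n η P → ∀ t, LeftEnd n w k t → ∀ δ > 0,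
      ∃ c θ, Ang c θ ∧ t < θ ∧ θ < t + δ ∧ (P x.1 ↔ P c)
  same : ∀ x y L w k w' k' t t', Lbl x L w k → Lbl y L w' k' → LeftEnd n w k t →
    LeftEnd n w' k' t' → SameCyc w t w' t' → x.1 = y.1

/-- the left end of a strip exists -/
theorem exists_leftEnd {n : ℕ} (hn : 0 < n) (w : ℕ → ℤ) (k : ℤ) : ∃ t, LeftEnd n w k t := by
  have hc := Circ.nu_continuous w n
  have hmono := Circ.nu_mono w n
  have hn' : (1 : ℝ) ≤ n := by exact_mod_cast hn
  have hshift : ∀ (m : ℤ) (θ : ℝ), Circ.nu w n (θ + 2 * m) = Circ.nu w n θ + n * m :=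
    fun m θ => nu_add_even w n m θ
  -- the set where `nu ≤ k`
  set S : Set ℝ := {θ | Circ.nu w n θ ≤ k} with hS
  obtain ⟨m, hm⟩ := exists_int_lt ((k : ℝ) - |Circ.nu w n 0| - |(k : ℝ)|)
  have habs := le_abs_self (Circ.nu w n 0)
  have hSne : S.Nonempty := by
    obtain ⟨m, hm⟩ := exists_nat_gt (Circ.nu w n 0 - k)
    refine ⟨0 + 2 * ((-m : ℤ) : ℝ), ?_⟩
    have h1 : (m : ℝ) ≤ n * m := by nlinarith [(Nat.cast_nonneg m : (0 : ℝ) ≤ m)]
    show Circ.nu w n _ ≤ k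
    rw [hshift]
    push_cast
    linarith
  have hSb : BddAbove S := by
    obtain ⟨m, hm⟩ := exists_nat_gt ((k : ℝ) - Circ.nu w n 0)
    refine ⟨0 + 2 * ((m : ℤ) : ℝ), fun θ hθ => ?_⟩
    by_contra hcon
    push Not at hcon
    have h1 := hmono hcon.le
    rw [hshift] at h1
    have h2 : (m : ℝ) ≤ n * m := by nlinarith [(Nat.cast_nonneg m : (0 : ℝ) ≤ m)]
    have h3 : Circ.nu w n θ ≤ k := hθ
    push_cast at h1
    linarith
  have hScl : IsClosed S := isClosed_le hc continuous_const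
  have hmem : sSup S ∈ S := hScl.csSup_mem hSne hSb
  have hgt : ∀ θ, sSup S < θ → (k : ℝ) < Circ.nu w n θ := by
    intro θ hθ
    by_contra hcon
    push Not at hcon
    exact absurd (le_csSup hSb (show θ ∈ S from hcon)) (not_le.2 hθ)
  refine ⟨sSup S, le_antisymm hmem ?_, hgt⟩
  have h1 : Tendsto (Circ.nu w n) (𝓝[>] (sSup S)) (𝓝 (Circ.nu w n (sSup S))) :=
    (hc.tendsto _).mono_left nhdsWithin_le_nhds
  refine ge_of_tendsto h1 ?_
  filter_upwards [self_mem_nhdsWithin] with θ hθ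
  exact (hgt θ hθ).le

/-- uniform control of all translates -/
lemma exists_delta (d : ℕ) (v : ℕ → ℤ) (t : ℝ) {ε : ℝ} (hε : 0 < ε) :
    ∃ δ > 0, ∀ θ, |θ - t| < δ → ∀ m : ℤ, |Circ.nu v d (θ + m) - Circ.nu v d (t + m)| < ε := by
  have hc := Circ.nu_continuous v d
  have h0 := Metric.continuousAt_iff.1 (hc.continuousAt (x := t)) ε hε
  have h1 := Metric.continuousAt_iff.1 (hc.continuousAt (x := t + 1)) ε hε
  obtain ⟨δ₀, hδ₀, h0⟩ := h0
  obtain ⟨δ₁, hδ₁, h1⟩ := h1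
  refine ⟨min δ₀ δ₁, lt_min hδ₀ hδ₁, fun θ hθ m => ?_⟩
  rcases Int.even_or_odd' m with ⟨j, hj | hj⟩
  · have e1 : θ + m = θ + 2 * (j : ℤ) := by rw [hj]; push_cast; ring
    have e2 : t + m = t + 2 * (j : ℤ) := by rw [hj]; push_cast; ring
    rw [e1, e2, nu_add_even, nu_add_even]
    have h2 := h0 (x := θ) (by rw [Real.dist_eq]; exact hθ.trans_le (min_le_left _ _))
    rw [Real.dist_eq] at h2
    rwa [show Circ.nu v d θ + d * j - (Circ.nu v d t + d * j) = Circ.nu v d θ - Circ.nu v d t by ring]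
  · have e1 : θ + m = (θ + 1) + 2 * (j : ℤ) := by rw [hj]; push_cast; ring
    have e2 : t + m = (t + 1) + 2 * (j : ℤ) := by rw [hj]; push_cast; ring
    rw [e1, e2, nu_add_even, nu_add_even]
    have h2 := h1 (x := θ + 1) (by
      rw [Real.dist_eq]
      have : θ + 1 - (t + 1) = θ - t := by ring
      rw [this]; exact hθ.trans_le (min_le_right _ _))
    rw [Real.dist_eq] at h2
    rwa [show Circ.nu v d (θ + 1) + d * j - (Circ.nu v d (t + 1) + d * j) =
      Circ.nu v d (θ + 1) - Circ.nu v d (t + 1) by ring]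

/-- a locally constant predicate is constant on the components of the curve -/
theorem LC.const {n : ℕ} {ε : ℝ} (hε : ε ≤ 1 / 2) {P : ℂ → Prop} (hP : LC n ε P) {x₀ : ℂ × ℂ}
    (hx₀ : x₀ ∈ SA n ε) (hex : Exa n x₀) : ∀ x ∈ QC n ε x₀, (P x.1 ↔ P x₀.1) := by
  have hexQ : ∀ x ∈ QC n ε x₀, Exa n x := fun x hx d hd hdn =>
    QC_exact hε hx₀ (hex d hd hdn) x hx
  have hloc : ∀ x ∈ QC n ε x₀, ∀ᶠ y : ℂ × ℂ in 𝓝 x, (P y.1 ↔ P x.1) := by
    intro x hx
    obtain ⟨-, L, hL, he⟩ := QC_sub hx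
    exact continuous_fst.continuousAt.eventually (hP x (QC_sub hx).1 (hexQ x hx) L he hL.1 hL.2)
  intro x hx
  obtain ⟨i, hi⟩ := mem_iUnion.1 hx
  set S := connectedComponentIn (SA n ε) (x₀.1, it x₀.1 i x₀.2) with hS
  have hSQ : S ⊆ QC n ε x₀ := fun y hy => mem_iUnion.2 ⟨i, hy⟩
  have h0S : (x₀.1, it x₀.1 i x₀.2) ∈ S := mem_connectedComponentIn (SA_it hx₀ i)
  by_contra hcon
  set u : Set (ℂ × ℂ) := interior {y | P y.1} with hu
  set v : Set (ℂ × ℂ) := interior {y | ¬ P y.1} with hv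
  have hcov : S ⊆ u ∪ v := by
    intro y hy
    by_cases h : P y.1
    · left
      rw [hu, mem_interior_iff_mem_nhds]
      filter_upwards [hloc y (hSQ hy)] with z hz
      exact hz.2 h
    · right
      rw [hv, mem_interior_iff_mem_nhds]
      filter_upwards [hloc y (hSQ hy)] with z hz
      exact fun h' => h (hz.1 h')
  have key : ∀ a ∈ S, ∀ b ∈ S, P a.1 → ¬ P b.1 → False := by
    intro a ha b hb hPa hPb
    have hau : a ∈ u := by
      rcases hcov ha with h | h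
      · exact h
      · exact absurd hPa (interior_subset h)
    have hbv : b ∈ v := by
      rcases hcov hb with h | h
      · exact absurd (interior_subset h) hPb
      · exact h
    obtain ⟨z, -, hzu, hzv⟩ := isPreconnected_connectedComponentIn u v isOpen_interior
      isOpen_interior hcov ⟨a, ha, hau⟩ ⟨b, hb, hbv⟩
    have e1 : P z.1 := interior_subset (s := {y : ℂ × ℂ | P y.1}) hzu
    have e2 : ¬ P z.1 := interior_subset (s := {y : ℂ × ℂ | ¬ P y.1}) hzv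
    exact e2 e1
  by_cases h1 : P x.1
  · by_cases h2 : P x₀.1
    · exact hcon ⟨fun _ => h2, fun _ => h1⟩
    · exact key x hi _ h0S h1 h2
  · by_cases h2 : P x₀.1
    · exact key _ h0S x hi h2 h1
    · exact hcon ⟨fun h => absurd h h1, fun h => absurd h h2⟩

end Pool.Agent.Work.MLC.Pri
end

section
set_option autoImplicit false

/-! # The barrier: lower bounds for `|mul - 1|` of all cycles of period at most `N` (helper49)

`V` is given by a `Dat` (the parent data of Theorem S) at the cut value `x`. -/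

namespace Pool.Agent.Work.MLC.Pri

open Filter Topology Metric Set Complex
open PriHar (Oth)

/-- **LEMMA C** (exterior parameters) -/
def LemC (C : ℝ) (e : ℕ) : Prop := ∀ (n : ℕ) (c b : ℂ), 0 < n → 0 < G c c → G c c ≤ 4 →
  (c, b) ∈ Per n → ‖1 / (mul n (c, b) - 1)‖ ≤ C * (1 + |Real.log (G c c)|) ^ e

/-- `b` has exact period `n` over `c` -/
def Ex (n : ℕ) (c b : ℂ) : Prop := (c, b) ∈ Per n ∧ ∀ d, 0 < d → d < n → it c d b ≠ b

/-- over `D` all cycles of period at most `N`, except the cycle of `v`, are repelling -/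
def RepOn (N : ℕ) (D : Set ℂ) (c v : ℂ → ℂ) : Prop :=
  ∀ L ∈ D, ∀ m, 0 < m → m ≤ N → ∀ b, Oth m (c L) (v L) b → 1 < ‖mul m (c L, b)‖

/-! ### over a hyperbolic component all other cycles are repelling -/

/-- no exterior parameters near an attracting pair -/
lemma att_mem_MM {d : ℕ} (hd : 0 < d) {c₀ v₀ : ℂ} (hv : (c₀, v₀) ∈ Per d)
    (hv1 : ‖mul d (c₀, v₀)‖ < 1) : ∀ᶠ c in 𝓝 c₀, c ∈ MM := by
  have hne : mul d (c₀, v₀) ≠ 1 := by
    intro h; rw [h, norm_one] at hv1; exact lt_irrefl _ hv1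
  obtain ⟨β, hβ, hβ0, hβe⟩ := chart hv hne
  have ht := chart_tendsto (x₀ := (c₀, v₀)) hβ hβ0
  have h1 : ∀ᶠ x : ℂ × ℂ in 𝓝 (c₀, v₀), ‖mul d x‖ < 1 :=
    ((continuous_mul' d).norm.continuousAt).eventually (gt_mem_nhds hv1)
  filter_upwards [ht.eventually h1, ht.eventually hβe] with c h2 h3
  by_contra hc
  have h4 := one_lt_norm_mult_of_ext hd (Sat.not_mem_MM_iff.1 hc) (h3.2 rfl)
  rw [mult_eq_mul] at h4
  exact lt_asymm h2 h4

/-- near a pair with neutral multiplier there are exterior parameters -/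
lemma neutral_ext {m : ℕ} (hm : 0 < m) {x : ℂ × ℂ} (hx : x ∈ Per m) (h1 : ‖mul m x‖ = 1) :
    ∃ᶠ c in 𝓝 x.1, c ∉ MM := by
  have h3 : ∀ (n : ℕ) (x : ℂ × ℂ) (φ : ℝ), 0 < n → x ∈ Per n → 0 < φ → φ < 1 →
    mul n x = exp (2 * Real.pi * φ * I) → ∃ᶠ c in 𝓝 x.1, c ∉ MM :=
    fun n x φ hn hx h0 h1 h => (Sat.s3_neutral n x φ hn hx h0 h1 h).2.2
  by_cases h : mul m x = 1
  · exact Sat.s7_parab_of h3 m x hm hx h
  · have h2 : mul m x = exp (arg (mul m x) * I) := by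
      have h4 := Complex.norm_mul_exp_arg_mul_I (mul m x)
      rw [h1, ofReal_one, one_mul] at h4
      exact h4.symm
    set φ : ℝ := Int.fract (arg (mul m x) / (2 * Real.pi)) with hφ
    have hpi := Real.pi_pos
    have h5 : mul m x = exp (2 * Real.pi * φ * I) := by
      rw [h2, Complex.exp_eq_exp_iff_exists_int]
      refine ⟨⌊arg (mul m x) / (2 * Real.pi)⌋, ?_⟩
      have h6 : (φ : ℂ) = arg (mul m x) / (2 * Real.pi) - (⌊arg (mul m x) / (2 * Real.pi)⌋ : ℂ) := by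
        have h7 : φ = arg (mul m x) / (2 * Real.pi) - (⌊arg (mul m x) / (2 * Real.pi)⌋ : ℝ) := by
          rw [hφ, Int.fract]
        rw [h7]; push_cast; ring
      rw [h6]
      have h7 : (Real.pi : ℂ) ≠ 0 := by exact_mod_cast hpi.ne'
      field_simp
      ring
    refine h3 m x φ hm hx ?_ (Int.fract_lt_one _) h5
    refine lt_of_le_of_ne (Int.fract_nonneg _) fun h0 => h ?_
    rw [h5, ← h0]
    simp

/-- over a parameter with an attracting cycle all other cycles are repelling -/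
theorem rep_of_att {d m : ℕ} (hd : 0 < d) (hm : 0 < m) {c v b : ℂ} (hv : (c, v) ∈ Per d)
    (hv1 : ‖mul d (c, v)‖ < 1) (hb : (c, b) ∈ Per m) (hne : ∀ i, b ≠ it c i v) :
    1 < ‖mul m (c, b)‖ := by
  rcases lt_trichotomy 1 ‖mul m (c, b)‖ with h | h | h
  · exact h
  · exfalso
    obtain ⟨c', h1, h2⟩ := ((neutral_ext hm hb h.symm).and_eventually
      (att_mem_MM hd hv hv1)).exists
    exact h1 h2
  · exfalso
    obtain ⟨i, hi⟩ := s7_fatou c v b d m hd hm hv hv1 hb h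
    exact hne i hi

/-- period constraint over a half plane -/
theorem repOn_left {d N : ℕ} (hd : 0 < d) {D : Set ℂ} {τ : ℂ → ℂ × ℂ}
    (hτ : ∀ L ∈ D, τ L ∈ Per d ∧ mul d (τ L) = exp L) (hD : ∀ L ∈ D, L.re < 0) :
    RepOn N D (fun L => (τ L).1) (fun L => (τ L).2) := by
  intro L hL m hm _ b hb
  refine rep_of_att hd hm (hτ L hL).1 ?_ hb.1 hb.2.2
  have h1 : mul d ((τ L).1, (τ L).2) = exp L := (hτ L hL).2
  rw [h1, norm_exp]
  exact Real.exp_lt_one_iff.2 (hD L hL)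

/-! ### no collisions -/

/-- the exact period -/
lemma exists_exact {n : ℕ} (hn : 0 < n) {c b : ℂ} (h : (c, b) ∈ Per n) :
    ∃ m, 0 < m ∧ m ≤ n ∧ m ∣ n ∧ Ex m c b := by
  have h3 : Function.IsPeriodicPt (f c) n b := h
  refine ⟨Function.minimalPeriod (f c) b, h3.minimalPeriod_pos hn, h3.minimalPeriod_le hn,
    h3.minimalPeriod_dvd, Function.isPeriodicPt_minimalPeriod (f c) b, ?_⟩
  intro d hd hdn he
  exact absurd (Function.IsPeriodicPt.minimalPeriod_le (f := f c) hd he) (not_le.2 hdn)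

/-- exact periods are unique -/
lemma ex_unique {n m : ℕ} (hn : 0 < n) (hm : 0 < m) {c b : ℂ} (h : Ex n c b) (h' : Ex m c b) :
    n = m := by
  rcases lt_trichotomy n m with h1 | h1 | h1
  · exact absurd h.1 (h'.2 n hn h1)
  · exact h1
  · exact absurd h'.1 (h.2 m hm h1)

/-- all points of a cycle have the same exact period -/
lemma ex_it {d : ℕ} (hd : 0 < d) {c v : ℂ} (hv : Ex d c v) (i : ℕ) : Ex d c (it c i v) := by
  refine ⟨Sat.Per_it hv.1 i, fun j hj hjd he => hv.2 j hj hjd ?_⟩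
  have h2 : it c (d * i - i) (it c j (it c i v)) = it c (d * i - i) (it c i v) := by rw [he]
  have hper : it c d v = v := hv.1
  rw [Sat.it_back hd hper i, Sat.it_comp, Sat.it_comp] at h2
  have h3 : d * i - i + j + i = j + d * i := by
    have : i ≤ d * i := Nat.le_mul_of_pos_left i hd
    omega
  rw [h3, Sat.it_mul_per hper] at h2
  exact h2

/-- `(H1)` of the transfer from the period constraint -/
theorem ne_one_of_rep {N n d : ℕ} (hn : 0 < n) (hnN : n ≤ N) (hd : 0 < d) {D : Set ℂ}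
    {σ : ℂ → ℂ × ℂ} (hσ : ∀ L ∈ D, σ L ∈ Per d ∧ mul d (σ L) = exp L)
    (hex : ∀ L ∈ D, ∀ k, 0 < k → k < d → it (σ L).1 k (σ L).2 ≠ (σ L).2)
    (hR : RepOn N D (fun L => (σ L).1) (fun L => (σ L).2))
    (hE : ∀ L ∈ D, ∀ k : ℕ, 0 < k → k ≤ N → exp (k * L) ≠ 1) :
    ∀ L ∈ D, ∀ b, ((σ L).1, b) ∈ Per n → mul n ((σ L).1, b) ≠ 1 := by
  intro L hL b hb
  obtain ⟨m, hm, hmn, ⟨k, rfl⟩, hEx⟩ := exists_exact hn hb
  have hk : 0 < k := Nat.pos_of_mul_pos_left hn
  have hkN : k ≤ N := (Nat.le_mul_of_pos_left k hm).trans hnN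
  rw [Hyp.mul_mul hEx.1]
  by_cases ho : ∀ i, b ≠ it (σ L).1 i (σ L).2
  · have h1 := hR L hL m hm (hmn.trans hnN) b ⟨hEx.1, hEx.2, ho⟩
    simp only at h1
    intro h2
    have h3 : ‖mul m ((σ L).1, b)‖ ^ k = 1 := by rw [← norm_pow, h2, norm_one]
    have h4 := one_lt_pow₀ h1 hk.ne'
    linarith
  · obtain ⟨i, hi⟩ := not_forall_not.1 ho
    have h1 : Ex d (σ L).1 (it (σ L).1 i (σ L).2) :=
      ex_it hd ⟨(hσ L hL).1, hex L hL⟩ i
    rw [hi] at hEx ⊢
    have h2 := ex_unique hm hd hEx h1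
    subst h2
    rw [Sat.mul_it' (hσ L hL).1]
    have h3 : mul m ((σ L).1, (σ L).2) = exp L := (hσ L hL).2
    rw [h3, ← Complex.exp_nat_mul]
    exact hE L hL k hk hkN

/-! ### the own cycle -/

/-- the multiplier `exp L` away from the points `2 π i m` -/
lemma own_bound {L : ℂ} {δ : ℝ} (hδ : 0 < δ) (hδ1 : δ ≤ 1)
    (h : ∀ m : ℤ, δ ≤ ‖L - 2 * Real.pi * m * I‖) : ‖1 / (exp L - 1)‖ ≤ 2 / δ := by
  have h1 : δ / 2 ≤ ‖exp L - 1‖ := by
    by_contra hcon
    push Not at hcon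
    have h2 : ‖exp L - 1‖ ≤ 1 / 2 := by linarith
    have h3 : ‖Complex.log (1 + (exp L - 1))‖ ≤ 3 / 2 * ‖exp L - 1‖ :=
      Complex.norm_log_one_add_half_le_self h2
    have h4 : (1 : ℂ) + (exp L - 1) = exp L := by ring
    rw [h4] at h3
    have h5 : exp (Complex.log (exp L)) = exp L := Complex.exp_log (Complex.exp_ne_zero _)
    rw [Complex.exp_eq_exp_iff_exists_int] at h5
    obtain ⟨k, hk⟩ := h5
    have h6 := h (-k)
    have h7 : L - 2 * Real.pi * ((-k : ℤ) : ℂ) * I = Complex.log (exp L) := by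
      rw [hk]; push_cast; ring
    rw [h7] at h6
    linarith
  rw [norm_div, norm_one, div_le_div_iff₀ (by linarith) hδ]
  linarith

/-- the radius -/
noncomputable def rr (N d : ℕ) : ℝ := 1 / (64 * d * (N : ℝ) ^ 4)

/-- far from the fractions of small denominator -/
def Far (N : ℕ) (x : ℝ) : Prop := ∀ (P : ℤ) (Q : ℕ), 0 < Q → Q ≤ N →
  1 / (4 * (N : ℝ) ^ 2) ≤ |(P : ℝ) / Q - x|

section

variable {N d : ℕ} {x : ℚ}

lemma rr_pos (hN : 0 < N) (hd : 0 < d) : 0 < rr N d := by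
  unfold rr
  have h1 : (0 : ℝ) < N := by exact_mod_cast hN
  have h2 : (0 : ℝ) < d := by exact_mod_cast hd
  positivity

lemma rr_le (hN : 0 < N) (hd : 0 < d) : rr N d ≤ 1 / (64 * (N : ℝ) ^ 2) := by
  unfold rr
  have h1 : (1 : ℝ) ≤ N := by exact_mod_cast hN
  have h2 : (1 : ℝ) ≤ d := by exact_mod_cast hd
  have h3 : (N : ℝ) ^ 2 ≤ (N : ℝ) ^ 4 := pow_le_pow_right₀ h1 (by norm_num)
  have h4 : (N : ℝ) ^ 4 ≤ d * (N : ℝ) ^ 4 := le_mul_of_one_le_left (by positivity) h2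
  exact one_div_le_one_div_of_le (by positivity) (by linarith only [h3, h4])

lemma rr_le_gR (hN : 0 < N) (hd : 0 < d) (hF : Far N x) (h0 : 0 < x) (h1 : x < 1) :
    rr N d ≤ Sat.gR d x := by
  have hN1 : (1 : ℝ) ≤ N := by exact_mod_cast hN
  have hd1 : (0 : ℝ) < d := by exact_mod_cast hd
  have hx0 : (0 : ℝ) < x := by exact_mod_cast h0
  have hx1 : (x : ℝ) < 1 := by exact_mod_cast h1
  have h2 := hF 0 1 one_pos hN
  have h3 := hF 1 1 one_pos hN
  simp only [Int.cast_zero, Nat.cast_one, div_one, zero_sub, abs_neg, Int.cast_one] at h2 h3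
  rw [abs_of_pos hx0] at h2
  rw [abs_of_pos (by linarith)] at h3
  have h4 : 1 / (4 * (N : ℝ) ^ 2) ≤ min (x : ℝ) (1 - x) := le_min h2 h3
  have h5 : (1 / (4 * (N : ℝ) ^ 2)) ^ 2 ≤ (min (x : ℝ) (1 - x)) ^ 2 :=
    pow_le_pow_left₀ (by positivity) h4 2
  have h6 : rr N d = 1 / 4 * (1 / (4 * (N : ℝ) ^ 2)) ^ 2 / d := by
    unfold rr
    field_simp
    norm_num
  rw [h6]
  unfold Sat.gR
  gcongr

/-- distance from the integer multiples of `2 π i / k` -/
lemma far_dist (hN : 0 < N) (hd : 0 < d) (hF : Far N x) {L : ℂ} (hL : dist L (axisPt x) < rr N d)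
    {P : ℤ} {Q : ℕ} (hQ : 0 < Q) (hQN : Q ≤ N) :
    1 / (N : ℝ) ^ 2 ≤ ‖L - 2 * Real.pi * ((P : ℝ) / Q : ℝ) * I‖ := by
  have hN1 : (1 : ℝ) ≤ N := by exact_mod_cast hN
  have h1 := hF P Q hQ hQN
  have h2 := rr_le hN hd
  rw [dist_eq_norm] at hL
  have h3 : L - 2 * Real.pi * ((P : ℝ) / Q : ℝ) * I = (L - axisPt x) +
      ((2 * Real.pi * (x - (P : ℝ) / Q) : ℝ) : ℂ) * I := by
    unfold axisPt; push_cast; ring
  have h4 : ‖((2 * Real.pi * (x - (P : ℝ) / Q) : ℝ) : ℂ) * I‖ =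
      2 * Real.pi * |(P : ℝ) / Q - x| := by
    rw [norm_mul, norm_I, mul_one, norm_real, Real.norm_eq_abs, abs_mul,
      abs_of_pos (by positivity : (0 : ℝ) < 2 * Real.pi), abs_sub_comm]
  have h5 := norm_sub_le (L - 2 * Real.pi * ((P : ℝ) / Q : ℝ) * I) (L - axisPt x)
  rw [h3, add_sub_cancel_left, h4, ← h3] at h5
  have h6 : 2 * 3.14 * (1 / (4 * (N : ℝ) ^ 2)) ≤ 2 * Real.pi * |(P : ℝ) / Q - x| :=
    mul_le_mul (mul_le_mul_of_nonneg_left Real.pi_gt_d2.le (by norm_num)) h1 (by positivity)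
      (by positivity)
  have h7 : 2 * 3.14 * (1 / (4 * (N : ℝ) ^ 2)) = 1.57 * (1 / (N : ℝ) ^ 2) := by
    field_simp; norm_num
  have h8 : 1 / (64 * (N : ℝ) ^ 2) = 1 / 64 * (1 / (N : ℝ) ^ 2) := by field_simp
  have h9 : (0 : ℝ) < 1 / (N : ℝ) ^ 2 := by positivity
  rw [h7] at h6
  rw [h8] at h2
  linarith only [h2, h5, h6, h9, hL]

lemma exp_ne_one (hN : 0 < N) (hd : 0 < d) (hF : Far N x) {L : ℂ}
    (hL : dist L (axisPt x) < rr N d) {k : ℕ} (hk : 0 < k) (hkN : k ≤ N) : exp (k * L) ≠ 1 := by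
  intro h
  rw [exp_eq_one_iff] at h
  obtain ⟨m, hm⟩ := h
  have h1 := far_dist hN hd hF hL (P := m) hk hkN
  have hN1 : (1 : ℝ) ≤ N := by exact_mod_cast hN
  have hk0 : (k : ℂ) ≠ 0 := by exact_mod_cast hk.ne'
  have h2 : L - 2 * Real.pi * ((m : ℝ) / k : ℝ) * I = 0 := by
    have h3 : L = m * (2 * Real.pi * I) / k := by
      field_simp
      linear_combination hm
    rw [h3]; push_cast; ring
  rw [h2, norm_zero] at h1
  have : (0 : ℝ) < 1 / (N : ℝ) ^ 2 := by positivity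
  exact (not_le.2 this) h1

end

/-! ### the cut at `x` -/

/-- all the data of the cut of `V` at the value `x` -/
structure Cut (N : ℕ) (D : Sat.Dat) : Prop where
  par : D.Par
  cir : D.Cir
  le : D.m ≤ N
  far : Far N D.x
  den : 4 * 10 ^ 6 * N ^ 12 ≤ D.x.den
  rep : RepOn N (ball D.a (rr N D.m)) D.c D.b

section

variable {N : ℕ} {D : Sat.Dat}

lemma Cut.N_pos (h : Cut N D) : 0 < N := h.par.m_pos.trans_le h.le

lemma Cut.rr_pos (h : Cut N D) : 0 < rr N D.m := Pri.rr_pos h.N_pos h.par.m_pos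

lemma Cut.rr_le_gR (h : Cut N D) : rr N D.m ≤ Sat.gR D.m D.x :=
  Pri.rr_le_gR h.N_pos h.par.m_pos h.far h.par.x_pos h.par.x_lt

lemma Cut.ball_sub (h : Cut N D) : ball D.a (rr N D.m) ⊆ D.B := ball_subset_ball h.rr_le_gR

/-- transfer inside the ball, all pairs of exact period `n` -/
theorem Cut.ball_bound (h : Cut N D) {K : ℝ} (hK : 0 ≤ K) {L₀ : ℂ}
    (hL₀ : dist L₀ D.a ≤ rr N D.m / 2)
    (hK₀ : ∀ n, 0 < n → n ≤ N → ∀ b, Ex n (D.c L₀) b → ‖1 / (mul n (D.c L₀, b) - 1)‖ ≤ K)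
    {n : ℕ} (hn : 0 < n) (hnN : n ≤ N) {L b : ℂ} (hL : dist L D.a ≤ rr N D.m / 2)
    (hb : Ex n (D.c L) b) : ‖1 / (mul n (D.c L, b) - 1)‖ ≤ 9 * K + 5 + 2 * (N : ℝ) ^ 2 := by
  have hr := h.rr_pos
  have hN1 : (1 : ℝ) ≤ N := by exact_mod_cast h.N_pos
  have hsub := h.ball_sub
  have hN2 : (1 : ℝ) ≤ (N : ℝ) ^ 2 := one_le_pow₀ hN1
  by_cases ho : ∀ i, b ≠ it (D.c L) i (D.b L)
  · have hG : GoodDom D.m D.B := Sat.goodB h.par
    have hc : DifferentiableOn ℂ D.c (ball D.a (rr N D.m)) :=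
      (section_differentiableOn hG h.par.cont h.par.sec).mono hsub
    have hv : ContinuousOn D.b (ball D.a (rr N D.m)) :=
      (continuous_snd.comp_continuousOn h.par.cont).mono hsub
    have hσ : ∀ L ∈ ball D.a (rr N D.m), D.σ L ∈ Per D.m ∧ mul D.m (D.σ L) = exp L :=
      fun L hL => h.par.sec L (hsub hL)
    have h1 := ne_one_of_rep hn hnN h.par.m_pos (D := ball D.a (rr N D.m)) (σ := D.σ) hσ
      (fun L hL k hk hkd => h.par.prim L (hsub hL) k hk hkd) h.rep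
      (fun L hL k hk hkN => exp_ne_one h.N_pos h.par.m_pos h.far (mem_ball.1 hL) hk hkN)
    have h2 := PriHar.transfer_ball hn h.par.m_pos hr hc hv (fun L hL => (hσ L hL).1)
      (fun L hL k hk hkd => h.par.prim L (hsub hL) k hk hkd) h1
      (fun L hL b hb => h.rep L hL n hn hnN b hb) hL hL₀ (K := K)
      (fun b hb => hK₀ n hn hnN b ⟨hb.1, hb.2.1⟩) ⟨hb.1, hb.2, ho⟩
    linarith
  · obtain ⟨i, hi⟩ := not_forall_not.1 ho
    have hLB : L ∈ D.B := hsub (mem_ball.2 (by linarith))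
    have h1 : Ex D.m (D.c L) b := by
      rw [hi]
      exact ex_it h.par.m_pos ⟨(h.par.sec L hLB).1, h.par.prim L hLB⟩ i
    have h2 := ex_unique hn h.par.m_pos hb h1
    subst h2
    have h3 : mul D.m (D.c L, b) = exp L := by
      rw [hi]
      exact (Sat.mul_it' (h.par.sec L hLB).1 i).trans (h.par.sec L hLB).2
    rw [h3]
    have h4 := own_bound (L := L) (δ := 1 / (N : ℝ) ^ 2) (by positivity)
      (by rw [div_le_one (by positivity)]; exact hN2) (fun m => by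
        have h5 := far_dist h.N_pos h.par.m_pos h.far (L := L)
          (show dist L (axisPt D.x) < rr N D.m by
            have : dist L (axisPt D.x) ≤ rr N D.m / 2 := hL
            linarith) (P := m) one_pos h.N_pos
        simpa using h5)
    have h5 : 2 / (1 / (N : ℝ) ^ 2) = 2 * (N : ℝ) ^ 2 := by field_simp
    rw [h5] at h4
    linarith

/-! ### the reference point -/

/-- the length of the plateau -/
lemma plateau_len (hP : D.Par) (hC : D.Cir) : 1 / (2 : ℝ) ^ (D.m * D.x.den) ≤ D.tp - D.tm := by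
  obtain ⟨hq, ⟨k, hk⟩, -⟩ := hC.per
  obtain ⟨j, l, hj⟩ := hC.orb
  set M : ℝ := (2 : ℝ) ^ (D.m * D.x.den) with hM
  have hM1 : 1 < M := one_lt_pow₀ (by norm_num) (Nat.mul_pos hP.m_pos D.x.pos).ne'
  obtain ⟨z, hz⟩ : ∃ z : ℤ, (M - 1) * (D.tp - D.tm) = z := by
    refine ⟨2 ^ (D.m * j) * k + (2 ^ (D.m * D.x.den) - 1) * l - k, ?_⟩
    push_cast
    rw [← hM, ← hk, hj]
    ring
  have hl : 0 < D.tp - D.tm := sub_pos.2 hC.lt
  have h3 : (1 : ℝ) ≤ z := by
    have h4 : (0 : ℝ) < z := by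
      rw [← hz]
      exact mul_pos (by linarith) hl
    exact_mod_cast (by exact_mod_cast h4 : (0 : ℤ) < z)
  rw [div_le_iff₀ (zero_lt_one.trans hM1)]
  linarith only [h3, hz, hl]

/-- the mid angle -/
noncomputable def th (D : Sat.Dat) : ℝ := (D.tm + D.tp) / 2

/-- the reference potential -/
noncomputable def g₀ (D : Sat.Dat) : ℝ := (D.tp - D.tm) / (200 * D.x.den)

lemma den_pos' : (1 : ℝ) ≤ D.x.den := by exact_mod_cast D.x.pos

lemma g₀_pos (hC : D.Cir) : 0 < g₀ D := by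
  have := den_pos' (D := D)
  exact div_pos (sub_pos.2 hC.lt) (by linarith)

lemma g₀_lt (hC : D.Cir) : g₀ D < 1 := by
  have h1 := den_pos' (D := D)
  unfold g₀
  rw [div_lt_one (by linarith)]
  have := hC.lt_one
  linarith

/-- the size of the logarithm of the reference potential -/
lemma log_g₀ (hP : D.Par) (hC : D.Cir) (hd : 10 ≤ D.x.den) :
    3 + |Real.log (g₀ D)| ≤ 10 * D.m * D.x.den := by
  have h1 := den_pos' (D := D)
  have hm : (1 : ℝ) ≤ D.m := by exact_mod_cast hP.m_pos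
  have hd' : (10 : ℝ) ≤ D.x.den := by exact_mod_cast hd
  have hg := g₀_pos hC
  rw [abs_of_neg (Real.log_neg hg (g₀_lt hC))]
  have h2 : 1 / ((2 : ℝ) ^ (D.m * D.x.den) * (200 * D.x.den)) ≤ g₀ D := by
    unfold g₀
    rw [← div_div]
    exact div_le_div_of_nonneg_right (plateau_len hP hC) (by positivity)
  have h3 := Real.log_le_log (by positivity) h2
  rw [one_div, Real.log_inv, Real.log_mul (by positivity) (by positivity), Real.log_pow,
    Real.log_mul (by norm_num) (by positivity)] at h3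
  have h4 : Real.log 200 ≤ 6 := by
    have h5 : (200 : ℝ) ≤ 2 ^ 8 := by norm_num
    have h6 := Real.log_le_log (by norm_num) h5
    rw [Real.log_pow] at h6
    have := Real.log_two_lt_d9
    push_cast at h6
    linarith only [h6, this]
  have h5 : Real.log D.x.den ≤ D.x.den :=
    (Real.log_le_sub_one_of_pos (zero_lt_one.trans_le h1)).trans (sub_le_self _ zero_le_one)
  have h6 : ((D.m * D.x.den : ℕ) : ℝ) * Real.log 2 ≤ D.m * D.x.den := by
    push_cast
    exact mul_le_of_le_one_right (by positivity) (by linarith only [Real.log_two_lt_d9])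
  have h7 : (D.x.den : ℝ) ≤ D.m * D.x.den := le_mul_of_one_le_left (zero_le_one.trans h1) hm
  linarith only [h3, h4, h5, h6, h7, hd']

/-- the bound at the reference point -/
noncomputable def K₀ (C : ℝ) (e N : ℕ) (D : Sat.Dat) : ℝ := C * (10 * N * D.x.den) ^ e

lemma Cut.den' (h : Cut N D) : 4 * 10 ^ 6 * (N : ℝ) ^ 12 ≤ D.x.den := by exact_mod_cast h.den

lemma Cut.ten_le (h : Cut N D) : 10 ≤ D.x.den := by
  have h1 : 1 ≤ N ^ 12 := Nat.one_le_pow _ _ h.N_pos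
  have := h.den
  omega

/-- LEMMA C at potential at least `g₀` -/
lemma Cut.lemC (h : Cut N D) {C : ℝ} {e : ℕ} (hC0 : 0 ≤ C) (hC : LemC C e) {n : ℕ} (hn : 0 < n)
    {c b : ℂ} (hg : g₀ D ≤ G c c) (hg4 : G c c ≤ 4) (hb : (c, b) ∈ Per n) :
    ‖1 / (mul n (c, b) - 1)‖ ≤ K₀ C e N D := by
  have h0 := g₀_pos h.cir
  have hgp : 0 < G c c := h0.trans_le hg
  refine (hC n c b hn hgp hg4 hb).trans ?_
  unfold K₀
  have h1 := log_g₀ h.par h.cir h.ten_le
  have h2 : |Real.log (G c c)| ≤ 2 + |Real.log (g₀ D)| := by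
    rw [abs_of_neg (Real.log_neg h0 (g₀_lt h.cir))]
    have h3 := Real.log_le_log h0 hg
    have h4 := Real.log_le_log hgp hg4
    have h5 : Real.log 4 ≤ 2 := by
      have h6 : (4 : ℝ) = 2 ^ 2 := by norm_num
      rw [h6, Real.log_pow]
      have := Real.log_two_lt_d9
      push_cast; linarith
    have h6 := Real.log_neg h0 (g₀_lt h.cir)
    rw [abs_le]
    constructor <;> linarith only [h3, h4, h5, h6]
  have h3 : 1 + |Real.log (G c c)| ≤ 10 * N * D.x.den := by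
    have h4 : (D.m : ℝ) ≤ N := by exact_mod_cast h.le
    have h5 : 10 * (D.m : ℝ) * D.x.den ≤ 10 * N * D.x.den :=
      mul_le_mul_of_nonneg_right (mul_le_mul_of_nonneg_left h4 (by norm_num)) (Nat.cast_nonneg _)
    linarith only [h1, h2, h5]
  have h4 : 0 ≤ 1 + |Real.log (G c c)| := by positivity
  exact mul_le_mul_of_nonneg_left (pow_le_pow_left₀ h4 h3 e) hC0

lemma Cut.near (h : Cut N D) : 15 * D.m / Real.sqrt D.x.den ≤ rr N D.m / 2 := by
  have hN1 : (1 : ℝ) ≤ N := by exact_mod_cast h.N_pos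
  have hm : (1 : ℝ) ≤ D.m := by exact_mod_cast h.par.m_pos
  have hmN : (D.m : ℝ) ≤ N := by exact_mod_cast h.le
  have h1 := h.den'
  have h2 : 1920 * (D.m : ℝ) ^ 2 * N ^ 4 ≤ Real.sqrt D.x.den := by
    refine Real.le_sqrt_of_sq_le ?_
    calc (1920 * (D.m : ℝ) ^ 2 * N ^ 4) ^ 2 = 3686400 * (D.m : ℝ) ^ 4 * N ^ 8 := by ring
      _ ≤ 3686400 * (N : ℝ) ^ 4 * N ^ 8 :=
        mul_le_mul_of_nonneg_right (mul_le_mul_of_nonneg_left
          (pow_le_pow_left₀ (Nat.cast_nonneg _) hmN 4) (by norm_num)) (by positivity)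
      _ = 3686400 * (N : ℝ) ^ 12 := by ring
      _ ≤ 4 * 10 ^ 6 * (N : ℝ) ^ 12 :=
        mul_le_mul_of_nonneg_right (by norm_num) (by positivity)
      _ ≤ _ := h1
  have h3 : 0 < 1920 * (D.m : ℝ) ^ 2 * N ^ 4 := by positivity
  unfold rr
  rw [div_div, div_le_div_iff₀ (h3.trans_le h2) (by positivity)]
  linarith only [h2]

lemma Cut.near' (h : Cut N D) : 15 * D.m / Real.sqrt D.x.den < Sat.gR D.m D.x := by
  have h1 := h.near
  have h2 := h.rr_pos
  have h3 := h.rr_le_gR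
  linarith

/-- **(b)** over the half ball -/
theorem Cut.disc_bound (h : Cut N D) {C : ℝ} {e : ℕ} (hC0 : 0 ≤ C) (hC : LemC C e) {n : ℕ}
    (hn : 0 < n) (hnN : n ≤ N) {L b : ℂ} (hL : dist L D.a ≤ rr N D.m / 2) (hb : Ex n (D.c L) b) :
    ‖1 / (mul n (D.c L, b) - 1)‖ ≤ 9 * K₀ C e N D + 5 + 2 * (N : ℝ) ^ 2 := by
  have h0 := g₀_pos h.cir
  obtain ⟨h1, h2⟩ := ang_cOf (g := g₀ D) (θ := th D) h0
  set c₀ : ℂ := cOf ((g₀ D : ℂ) + 2 * Real.pi * th D * I) with hc₀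
  obtain ⟨L₀, h3, h4, h5, h6, h7⟩ := Sat.mid_ray D h.par h.cir h.near' h1 h2.le
  refine h.ball_bound (K := K₀ C e N D) ?_ (L₀ := L₀) ?_ ?_ hn hnN hL hb
  · unfold K₀; positivity
  · rw [dist_eq_norm]; exact h7.trans h.near
  · intro n' hn' _ b' hb'
    have h8 := g₀_lt h.cir
    refine h.lemC hC0 hC hn' (by rw [h4, h2]) (by rw [h4, h2]; linarith) hb'.1

/-- **(a)** on the ray of the mid angle, at all potentials -/
theorem Cut.ray_bound (h : Cut N D) {C : ℝ} {e : ℕ} (hC0 : 0 ≤ C) (hC : LemC C e) {n : ℕ}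
    (hn : 0 < n) (hnN : n ≤ N) {c b : ℂ} (hA : Ang c (th D)) (hb : Ex n c b) :
    ‖1 / (mul n (c, b) - 1)‖ ≤ 9 * K₀ C e N D + 5 + 2 * (N : ℝ) ^ 2 := by
  have hK : 0 ≤ K₀ C e N D := by unfold K₀; positivity
  have hN2 : (0 : ℝ) ≤ (N : ℝ) ^ 2 := by positivity
  rcases le_or_gt (G c c) (g₀ D) with hg | hg
  · obtain ⟨L₀, h3, h4, h5, h6, h7⟩ := Sat.mid_ray D h.par h.cir h.near' hA hg
    rw [← h4] at hb ⊢
    exact h.disc_bound hC0 hC hn hnN (by rw [dist_eq_norm]; exact h7.trans h.near) hb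
  · rcases le_or_gt (G c c) 4 with hg4 | hg4
    · have := h.lemC hC0 hC hn hg.le hg4 hb.1
      linarith
    · have h1 : 23 / 10 ≤ ‖mul n (c, b)‖ := by
        by_contra hcon
        push Not at hcon
        exact absurd (G_le_four_of_mul_lt hn hb.1 hcon) (not_le.2 hg4)
      have h2 : 1 ≤ ‖mul n (c, b) - 1‖ := by
        have := norm_sub_norm_le (mul n (c, b)) 1
        rw [norm_one] at this
        linarith
      have h3 : ‖1 / (mul n (c, b) - 1)‖ ≤ 1 := by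
        rw [norm_div, norm_one]
        exact (div_le_one (by linarith)).2 h2
      linarith

/-! ### over the component -/

/-- the exact period along a section -/
lemma prim_on {m : ℕ} {B : Set ℂ} (hB : IsPreconnected B) (hBo : IsOpen B)
    (hne : ∀ L ∈ B, exp L ≠ 1) {σ : ℂ → ℂ × ℂ} (hσ : ContinuousOn σ B)
    (hσ' : ∀ L ∈ B, σ L ∈ Per m ∧ mul m (σ L) = exp L) {a : ℂ} (ha : a ∈ B)
    (hprim : Ex m (σ a).1 (σ a).2) : ∀ L ∈ B, Ex m (σ L).1 (σ L).2 := fun L hL =>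
  ⟨(hσ' L hL).1, Sat.prim_section hB hBo hne hσ hσ' ha hprim.2 L hL⟩

/-- the left half plane -/
def Lft : Set ℂ := {L : ℂ | L.re < 0}

/-- the left reference point -/
noncomputable def Lp (N : ℕ) (D : Sat.Dat) : ℂ := D.a - ((rr N D.m / 4 : ℝ) : ℂ)

lemma a_re : (D.a).re = 0 := by simp [Sat.Dat.a, axisPt]

lemma Lp_re : (Lp N D).re = -(rr N D.m / 4) := by simp [Lp, a_re]

lemma Lp_dist (h : Cut N D) : dist (Lp N D) D.a = rr N D.m / 4 := by
  have := h.rr_pos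
  rw [dist_eq_norm, Lp, sub_sub_cancel_left, norm_neg, norm_real, Real.norm_eq_abs,
    abs_of_pos (by linarith)]

/-- the section over the left half plane -/
theorem Cut.exists_left (h : Cut N D) : ∃ τ : ℂ → ℂ × ℂ, ContinuousOn τ Lft ∧
    (∀ L ∈ Lft, τ L ∈ Per D.m ∧ mul D.m (τ L) = exp L) ∧
    ∀ L ∈ D.B, L.re < 0 → τ L = D.σ L := by
  have hr := h.rr_pos
  have hG : GoodDom D.m Lft := goodDom_left h.par.m_pos
  have hcv : Convex ℝ Lft := convex_halfSpace_re_lt 0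
  have hp : Lp N D ∈ Lft := by
    show (Lp N D).re < 0
    rw [Lp_re]; linarith
  have hpB : Lp N D ∈ D.B := h.ball_sub (by rw [mem_ball, Lp_dist h]; linarith)
  obtain ⟨h1, h2⟩ := h.par.sec _ hpB
  obtain ⟨τ, hτ, hτ', hτ0⟩ := exists_section hG hcv h1 hp h2
  refine ⟨τ, hτ, hτ', fun L hL hre => ?_⟩
  have hS : IsPreconnected (D.B ∩ Lft) := ((convex_ball _ _).inter hcv).isPreconnected
  have h3 := section_unique hG hτ hτ' hS (g := D.σ) (l := fun L => L)
    (h.par.cont.mono inter_subset_left) continuousOn_id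
    (fun L hL => ⟨(h.par.sec L hL.1).1, hL.2, (h.par.sec L hL.1).2⟩)
    (a₀ := Lp N D) ⟨hpB, hp⟩ hτ0.symm
  exact (h3 L ⟨hL, hre⟩).symm

/-- the final constant -/
noncomputable def KB (C : ℝ) (e N : ℕ) (D : Sat.Dat) : ℝ := 10 ^ 9 * N ^ 12 * (K₀ C e N D + 1)

/-- the numbers of `left_bound` -/
lemma left_num {N r K : ℝ} (hN1 : 1 ≤ N) (hK : 0 ≤ K) (hr : 0 < r) (hrN : 1 / r ≤ 64 * N ^ 5)
    {A B : ℝ} (hA0 : 0 ≤ A) (hA : A ≤ 18) (hB : (r / 4) ^ 2 ≤ B) :
    A ^ 2 / B * (9 * K + 5 + 2 * N ^ 2 + 1 / 2) + 1 / 2 ≤ 10 ^ 9 * N ^ 12 * (K + 1) := by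
  have h5 : A ^ 2 / B ≤ 324 * (16 * (64 * N ^ 5) ^ 2) := by
    calc A ^ 2 / B ≤ 18 ^ 2 / (r / 4) ^ 2 :=
          div_le_div₀ (by norm_num) (pow_le_pow_left₀ hA0 hA 2) (by positivity) hB
      _ = 324 * (16 * (1 / r) ^ 2) := by field_simp; norm_num
      _ ≤ _ := mul_le_mul_of_nonneg_left (mul_le_mul_of_nonneg_left
        (pow_le_pow_left₀ (by positivity) hrN 2) (by norm_num)) (by norm_num)
  have h6 : 0 ≤ 9 * K + 5 + 2 * N ^ 2 + 1 / 2 := by positivity
  have h8 : 1 ≤ N ^ 2 := one_le_pow₀ hN1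
  have h9 : 9 * K + 5 + 2 * N ^ 2 + 1 / 2 ≤ N ^ 2 * (9 * K + 15 / 2) := by
    linarith only [mul_le_mul_of_nonneg_right h8 hK, h8]
  have h10 : 1 ≤ N ^ 12 := one_le_pow₀ hN1
  calc A ^ 2 / B * (9 * K + 5 + 2 * N ^ 2 + 1 / 2) + 1 / 2
      ≤ 324 * (16 * (64 * N ^ 5) ^ 2) * (N ^ 2 * (9 * K + 15 / 2)) + 1 / 2 :=
        add_le_add (mul_le_mul h5 h9 h6 (by positivity)) le_rfl
    _ = 21233664 * (N ^ 12 * (9 * K + 15 / 2)) + 1 / 2 := by ring
    _ ≤ _ := by linarith only [mul_le_mul_of_nonneg_right h10 hK, h10, hK]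

/-- the own cycle -/
lemma left_num' {N r K : ℝ} (hN1 : 1 ≤ N) (hK : 0 ≤ K) (hr : 0 < r)
    (hrN : 1 / r ≤ 64 * N ^ 5) : 2 / (r / 4) ≤ 10 ^ 9 * N ^ 12 * (K + 1) := by
  have h5 : 2 / (r / 4) = 8 * (1 / r) := by field_simp; norm_num
  rw [h5]
  have h6 : N ^ 5 ≤ N ^ 12 := pow_le_pow_right₀ hN1 (by norm_num)
  have h7 : 1 ≤ N ^ 12 := one_le_pow₀ hN1
  linarith only [mul_le_mul_of_nonneg_right h7 hK, h6, h7, hrN, hK]

lemma Cut.norm_Lp_le (h : Cut N D) : ‖Lp N D‖ ≤ 8 := by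
  have hN1 : (1 : ℝ) ≤ N := by exact_mod_cast h.N_pos
  have h5 : ‖D.a‖ ≤ 2 * Real.pi := by
    have h6 : D.a = ((2 * Real.pi * D.x : ℝ) : ℂ) * I := by
      simp [Sat.Dat.a, axisPt]
    have hx0 : (0 : ℝ) < D.x := by exact_mod_cast h.par.x_pos
    have hx1 : (D.x : ℝ) < 1 := by exact_mod_cast h.par.x_lt
    rw [h6, norm_mul, norm_I, mul_one, norm_real, Real.norm_eq_abs,
      abs_of_pos (by positivity)]
    exact mul_le_of_le_one_right (by positivity) hx1.le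
  have h6 := rr_le h.N_pos h.par.m_pos
  have h7 : 1 / (64 * (N : ℝ) ^ 2) ≤ 1 / 64 := by
    have : (1 : ℝ) ≤ (N : ℝ) ^ 2 := one_le_pow₀ hN1
    exact one_div_le_one_div_of_le (by norm_num) (by linarith only [this])
  have h8 : ‖Lp N D‖ ≤ ‖D.a‖ + ‖Lp N D - D.a‖ := by
    have := norm_add_le D.a (Lp N D - D.a)
    rwa [add_sub_cancel] at this
  rw [← dist_eq_norm, Lp_dist h] at h8
  linarith only [h5, h6, h7, h8, Real.pi_lt_d2]

/-- **(c)** over the left half plane -/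
theorem Cut.left_bound (h : Cut N D) {C : ℝ} {e : ℕ} (hC0 : 0 ≤ C) (hC : LemC C e)
    {τ : ℂ → ℂ × ℂ} (hτ : ContinuousOn τ Lft)
    (hτ' : ∀ L ∈ Lft, τ L ∈ Per D.m ∧ mul D.m (τ L) = exp L)
    (hτσ : τ (Lp N D) = D.σ (Lp N D)) {n : ℕ} (hn : 0 < n) (hnN : n ≤ N) {L b : ℂ}
    (hL : L.re ≤ -(rr N D.m / 4)) (hL10 : ‖L‖ ≤ 10) (hb : Ex n (τ L).1 b) :
    ‖1 / (mul n ((τ L).1, b) - 1)‖ ≤ KB C e N D := by
  have hr := h.rr_pos
  have hN1 : (1 : ℝ) ≤ N := by exact_mod_cast h.N_pos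
  have hm1 : (1 : ℝ) ≤ D.m := by exact_mod_cast h.par.m_pos
  have hmN : (D.m : ℝ) ≤ N := by exact_mod_cast h.le
  have hK : 0 ≤ K₀ C e N D := by unfold K₀; positivity
  have hG : GoodDom D.m Lft := goodDom_left h.par.m_pos
  have hcv : Convex ℝ Lft := convex_halfSpace_re_lt 0
  have hLl : L ∈ Lft := by show L.re < 0; linarith
  have hp : Lp N D ∈ Lft := by
    show (Lp N D).re < 0
    rw [Lp_re]; linarith
  have hpB : Lp N D ∈ D.B := h.ball_sub (by rw [mem_ball, Lp_dist h]; linarith)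
  have hex : ∀ L ∈ Lft, Ex D.m (τ L).1 (τ L).2 := by
    refine prim_on hcv.isPreconnected hG.isOpen hG.ne_one hτ hτ' hp ?_
    rw [hτσ]
    exact ⟨(h.par.sec _ hpB).1, h.par.prim _ hpB⟩
  have hrN : 1 / rr N D.m ≤ 64 * (N : ℝ) ^ 5 := by
    unfold rr
    rw [one_div_one_div]
    have : (D.m : ℝ) * N ^ 4 ≤ N * N ^ 4 := mul_le_mul_of_nonneg_right hmN (by positivity)
    have h2 : (N : ℝ) * N ^ 4 = N ^ 5 := by ring
    rw [h2] at this
    linarith only [this]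
  by_cases ho : ∀ i, b ≠ it (τ L).1 i (τ L).2
  · have hR := repOn_left (N := N) h.par.m_pos hτ' (fun L hL => hL)
    have h1 := ne_one_of_rep hn hnN h.par.m_pos hτ' (fun L hL => (hex L hL).2) hR
      (fun L hL k hk hkN => by
        intro h0
        have h2 : ‖exp (k * L)‖ < 1 := by
          rw [norm_exp]
          refine Real.exp_lt_one_iff.2 ?_
          have h3 : ((k : ℂ) * L).re = k * L.re := by simp
          rw [h3]
          exact mul_neg_of_pos_of_neg (by exact_mod_cast hk) hL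
        rw [h0, norm_one] at h2
        exact lt_irrefl _ h2)
    have hc : DifferentiableOn ℂ (fun L => (τ L).1) {L : ℂ | L.re < 0} :=
      section_differentiableOn hG hτ hτ'
    have hv : ContinuousOn (fun L => (τ L).2) {L : ℂ | L.re < 0} :=
      continuous_snd.comp_continuousOn hτ
    have h2 := PriHar.transfer_half hn h.par.m_pos hc hv (fun L hL => (hτ' L hL).1)
      (fun L hL k hk hkd => (hex L hL).2 k hk hkd) h1
      (fun L hL b hb => hR L hL n hn hnN b hb) (L := L) (L' := Lp N D) hLl hp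
      (K := 9 * K₀ C e N D + 5 + 2 * (N : ℝ) ^ 2)
      (fun b hb => by
        have h3 : (τ (Lp N D)).1 = D.c (Lp N D) := by rw [hτσ]; rfl
        simp only [h3] at hb ⊢
        exact h.disc_bound hC0 hC hn hnN (by rw [Lp_dist h]; linarith) ⟨hb.1, hb.2.1⟩)
      (b := b) ⟨hb.1, hb.2, ho⟩
    refine h2.trans ?_
    have h3 : ‖L + (starRingEnd ℂ) (Lp N D)‖ ≤ 18 := by
      have h4 := norm_add_le L ((starRingEnd ℂ) (Lp N D))
      rw [Complex.norm_conj] at h4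
      linarith only [h4, hL10, h.norm_Lp_le]
    have h4 : (rr N D.m / 4) ^ 2 ≤ L.re * (Lp N D).re := by
      rw [Lp_re, mul_neg, ← neg_mul, sq]
      exact mul_le_mul_of_nonneg_right (by linarith only [hL]) (by linarith only [hr])
    exact left_num hN1 hK hr hrN (norm_nonneg _) h3 h4
  · obtain ⟨i, hi⟩ := not_forall_not.1 ho
    have h1 : Ex D.m (τ L).1 b := by
      rw [hi]; exact ex_it h.par.m_pos (hex L hLl) i
    have h2 := ex_unique hn h.par.m_pos hb h1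
    subst h2
    have h3 : mul D.m ((τ L).1, b) = exp L := by
      rw [hi]
      exact (Sat.mul_it' (hτ' L hLl).1 i).trans (hτ' L hLl).2
    rw [h3]
    have h4 := own_bound (L := L) (δ := rr N D.m / 4) (by positivity)
      (by
        have h6 := rr_le h.N_pos h.par.m_pos
        have h7 : 1 / (64 * (N : ℝ) ^ 2) ≤ 1 / 64 := by
          have : (1 : ℝ) ≤ (N : ℝ) ^ 2 := one_le_pow₀ hN1
          exact one_div_le_one_div_of_le (by norm_num) (by linarith)
        linarith) (fun m => by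
        have h5 := abs_re_le_norm (L - 2 * Real.pi * m * I)
        have h6 : (L - 2 * Real.pi * m * I).re = L.re := by simp
        rw [h6, abs_of_neg hLl] at h5
        linarith)
    exact h4.trans (left_num' hN1 hK hr hrN)

end

end Pool.Agent.Work.MLC.Pri
end

section
set_option autoImplicit false

/-! # G12: the Riemann map of the complement of the Mandelbrot set  (helper36)

`Psi` (Param34) is holomorphic and bijective from `{1 < |z|}` onto the complement of `MM`,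
`Psi z / z → 1`, and boundary limits of `Psi` from limits of `cOf`. -/

namespace Pool.Agent.Work.MLC

open Filter Topology Metric Set MLC34

lemma norm_Phi_bounds {c : ℂ} (hc : 1000 < ‖c‖) :
    24 / 25 * ‖c‖ ≤ ‖Phi c‖ ∧ ‖Phi c‖ ≤ 26 / 25 * ‖c‖ := by
  obtain ⟨s, hs, h⟩ := exists_sign
  have h1 := h c hc
  have h2 : ‖s * c‖ = ‖c‖ := by rw [norm_mul, hs, one_mul]
  have h3 := norm_sub_norm_le (s * c) (Phi c)
  have h4 := norm_sub_norm_le (Phi c) (s * c)
  rw [norm_sub_rev] at h3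
  rw [h2] at h3 h4
  constructor <;> linarith

lemma near_Phi_sq {c : ℂ} (hc : 1000 < ‖c‖) : Near c ((Phi c)⁻¹ ^ 2) := by
  have h1 := (norm_Phi_bounds hc).1
  have h2 : 0 < ‖Phi c‖ := by linarith
  unfold Near
  rw [norm_pow, norm_inv, inv_pow, inv_mul_lt_iff₀ (by positivity), mul_one]
  nlinarith

theorem Phi_sq_eq {c : ℂ} (hc : 1000 < ‖c‖) : Phi c ^ 2 = bo c (f c c) := by
  have hcM : c ∈ Mc := mem_Mc_of_large (by linarith)
  have h0 := G0_lt_of_mem hcM
  have h1 := f_psi (dom_phi h0)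
  rw [psi_phi h0] at h1
  have hN : Near c (Phi c ^ 2)⁻¹ := by
    have := near_Phi_sq hc
    rwa [inv_pow] at this
  have h2 : psi c (Phi c ^ 2) = Phi c ^ 2 * Eb c (Phi c ^ 2)⁻¹ := psi_near hN
  have h3 : f c c = Phi c ^ 2 * Eb c (Phi c ^ 2)⁻¹ := by rw [h1]; exact h2
  rw [h3, bo_psib hN (pow_ne_zero _ (Phi_ne_zero hcM))]

lemma div_Phi_eq {c : ℂ} (hc : c ∈ Mc) : c / Phi c = Ef (c, (Phi c)⁻¹) := by
  have h0 := G0_lt_of_mem hc
  have h1 : psi c (Phi c) = c := psi_phi h0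
  unfold psi at h1
  have h2 := Phi_ne_zero hc
  rw [div_eq_iff h2, mul_comm]
  exact h1.symm

/-- the sign is `+1` -/
theorem re_div_Phi_pos {c : ℂ} (hc : 1000 < ‖c‖) : 0 < (c / Phi c).re := by
  have hcM : c ∈ Mc := mem_Mc_of_large (by linarith)
  have h0 := G0_lt_of_mem hcM
  rw [div_Phi_eq hcM]
  set u : ℂ := (Phi c)⁻¹ with hu
  have hOm : (c, u) ∈ Om := mem_Om_of_dom (dom_phi h0)
  have hb := (norm_Phi_bounds hc).1
  have hPpos : 0 < ‖Phi c‖ := by linarith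
  have hnorm : ∀ s ∈ Icc (0 : ℝ) 1, ‖(s : ℂ) * u‖ ≤ ‖u‖ := by
    intro s hs
    rw [norm_mul, Complex.norm_real, Real.norm_of_nonneg hs.1]
    exact mul_le_of_le_one_left (norm_nonneg _) hs.2
  have hOm' : ∀ s ∈ Icc (0 : ℝ) 1, (c, (s : ℂ) * u) ∈ Om := fun s hs =>
    Om_smaller hOm (hnorm s hs)
  have hne : ∀ s ∈ Icc (0 : ℝ) 1, (Ef (c, (s : ℂ) * u)).re ≠ 0 := by
    intro s hs
    apply re_ne_zero_of_sq
    have hN : Near c (((s : ℂ) * u) ^ 2) := by
      refine (near_Phi_sq hc).mono ?_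
      rw [norm_pow, norm_pow]
      exact pow_le_pow_left₀ (norm_nonneg _) (hnorm s hs) 2
    rw [Ef_sq (hOm' s hs), Ef_near hN]
    have h1 := Eb_bound hN
    have h2 : ‖c * ((s : ℂ) * u) ^ 2‖ ≤ 1 / 500 := by
      rw [norm_mul, norm_pow]
      have h3 : ‖(s : ℂ) * u‖ ≤ ‖Phi c‖⁻¹ := by
        have := hnorm s hs
        rwa [hu, norm_inv] at this
      have h4 : ‖(s : ℂ) * u‖ ^ 2 ≤ (‖Phi c‖⁻¹) ^ 2 := pow_le_pow_left₀ (norm_nonneg _) h3 2
      have h5 : ‖c‖ * (‖Phi c‖⁻¹) ^ 2 ≤ 1 / 500 := by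
        rw [inv_pow, ← div_eq_mul_inv, div_le_div_iff₀ (by positivity) (by norm_num)]
        nlinarith
      calc ‖c‖ * ‖(s : ℂ) * u‖ ^ 2 ≤ ‖c‖ * (‖Phi c‖⁻¹) ^ 2 := by gcongr
        _ ≤ _ := h5
    have e : Eb c (((s : ℂ) * u) ^ 2) - c * ((s : ℂ) * u) ^ 2 - 1 =
        (Eb c (((s : ℂ) * u) ^ 2) - 1) - c * ((s : ℂ) * u) ^ 2 := by ring
    rw [e]
    refine (norm_sub_le _ _).trans ?_
    linarith
  have hcont : ContinuousOn (fun s : ℝ => (Ef (c, (s : ℂ) * u)).re) (Icc 0 1) := by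
    have h1 : ContinuousOn (fun s : ℝ => ((c, (s : ℂ) * u) : ℂ × ℂ)) (Icc 0 1) := by
      have : Continuous (fun s : ℝ => ((c, (s : ℂ) * u) : ℂ × ℂ)) := by fun_prop
      exact this.continuousOn
    exact Complex.continuous_re.comp_continuousOn (continuousOn_Ef.comp h1 hOm')
  by_contra hcon
  push Not at hcon
  have hmem : (0 : ℝ) ∈ Icc ((Ef (c, ((1 : ℝ) : ℂ) * u)).re) ((Ef (c, ((0 : ℝ) : ℂ) * u)).re) := by
    constructor
    · simpa using hcon
    · simp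
  obtain ⟨s, hs, hs0⟩ := intermediate_value_Icc' (by norm_num : (0 : ℝ) ≤ 1) hcont hmem
  exact hne s hs hs0

lemma re_inv_pos {x : ℂ} (h : 0 < x.re) : 0 < (x⁻¹).re := by
  rw [Complex.inv_re]
  apply div_pos h
  rw [Complex.normSq_pos]
  intro h0
  rw [h0] at h
  simp at h

/-- asymptotics of the Riemann map -/
theorem norm_Phi_div_sub_one {c : ℂ} (hc : 1000 < ‖c‖) : ‖Phi c / c - 1‖ ≤ 7 / ‖c‖ := by
  have hc0 : c ≠ 0 := by rw [← norm_pos_iff]; linarith
  have hn0 : 0 < ‖c‖ := by linarith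
  have hF := Far_f_self (c := c) (by linarith)
  have hre : 0 < (Phi c / c).re := by
    have := re_inv_pos (re_div_Phi_pos hc)
    rwa [inv_div] at this
  set y : ℂ := Phi c / c with hy
  set S : ℂ := SB c (f c c) with hS
  have h1 : y ^ 2 = (1 + c⁻¹) * Complex.exp S := by
    rw [hy, div_pow, Phi_sq_eq hc, bo, ← hS, f]
    field_simp
  have h2 : ‖S‖ ≤ 3 / 2 * (1 / ‖c‖) := by
    refine (norm_SB_le hF).trans ?_
    have h3 := norm_sq_sub_le c
    have h4 : ‖c‖ ≤ ‖f c c‖ := by nlinarith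
    have h5 : ‖c‖ / ‖f c c‖ ^ 2 ≤ 1 / ‖c‖ := by
      rw [div_le_div_iff₀ (by nlinarith) hn0]
      nlinarith
    linarith
  have h2' : 3 / 2 * (1 / ‖c‖) ≤ 1 := by
    rw [mul_one_div, div_le_one hn0]
    linarith
  have h3 : ‖Complex.exp S - 1‖ ≤ 2 * ‖S‖ := Complex.norm_exp_sub_one_le (h2.trans h2')
  have h4 : ‖c⁻¹‖ = 1 / ‖c‖ := by rw [norm_inv, inv_eq_one_div]
  have h5 : ‖(1 : ℂ) + c⁻¹‖ ≤ 2 := by
    refine (norm_add_le _ _).trans ?_
    rw [h4, norm_one]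
    have : 1 / ‖c‖ ≤ 1 := by rw [div_le_one hn0]; linarith
    linarith
  have h6 : ‖y ^ 2 - 1‖ ≤ 7 / ‖c‖ := by
    have e : y ^ 2 - 1 = (1 + c⁻¹) * (Complex.exp S - 1) + c⁻¹ := by rw [h1]; ring
    rw [e]
    calc ‖(1 + c⁻¹) * (Complex.exp S - 1) + c⁻¹‖
        ≤ ‖(1 + c⁻¹) * (Complex.exp S - 1)‖ + ‖c⁻¹‖ := norm_add_le _ _
      _ ≤ 2 * (2 * (3 / 2 * (1 / ‖c‖))) + 1 / ‖c‖ := by
        rw [norm_mul, h4]
        gcongr
        exact h3.trans (by gcongr)
      _ = 7 / ‖c‖ := by ring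
  have h7 : ‖y - 1‖ * ‖y + 1‖ = ‖y ^ 2 - 1‖ := by
    rw [← norm_mul]; congr 1; ring
  have h8 : 1 ≤ ‖y + 1‖ := by
    have h9 := Complex.re_le_norm (y + 1)
    rw [Complex.add_re, Complex.one_re] at h9
    linarith
  have h10 : ‖y - 1‖ ≤ ‖y - 1‖ * ‖y + 1‖ := le_mul_of_one_le_right (norm_nonneg _) h8
  linarith

/-! ### the map `Psi` -/

theorem differentiableOn_Psi : DifferentiableOn ℂ Psi {z | 1 < ‖z‖} := exists_Psi.choose_spec.1

theorem Psi_mem {z : ℂ} (hz : 1 < ‖z‖) : Psi z ∈ Mc := exists_Psi.choose_spec.2.1 hz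

theorem Phi_Psi {z : ℂ} (hz : 1 < ‖z‖) : Phi (Psi z) = z := exists_Psi.choose_spec.2.2.2 z hz

theorem Psi_Phi {c : ℂ} (hc : c ∈ Mc) : Psi (Phi c) = c := exists_Psi.choose_spec.2.2.1 c hc

theorem bijOn_Psi : BijOn Psi {z | 1 < ‖z‖} MMᶜ := by
  refine ⟨fun z hz => mem_Mc_iff.1 (Psi_mem hz), fun z hz w hw h => ?_, fun c hc => ?_⟩
  · rw [← Phi_Psi hz, ← Phi_Psi hw, h]
  · have hcM := mem_Mc_iff.2 hc
    exact ⟨Phi c, one_lt_norm_Phi hcM, Psi_Phi hcM⟩

theorem tendsto_Psi_div : Tendsto (fun z => Psi z / z) (Bornology.cobounded ℂ) (𝓝 1) := by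
  obtain ⟨B', hB'⟩ := (isCompact_closedBall (0 : ℂ) 1000).exists_bound_of_continuousOn
    (f := fun c => G c c) continuous_G_diag.continuousOn
  have hbig : ∀ z : ℂ, max 1 (Real.exp B') < ‖z‖ → 1000 < ‖Psi z‖ := by
    intro z hz
    have hz1 : 1 < ‖z‖ := (le_max_left _ _).trans_lt hz
    by_contra hcon
    push Not at hcon
    have h1 := hB' (Psi z) (by rwa [mem_closedBall_zero_iff])
    rw [Real.norm_eq_abs] at h1
    have h2 : ‖z‖ = Real.exp (G (Psi z) (Psi z)) := by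
      have := norm_Phi (Psi_mem hz1)
      rwa [Phi_Psi hz1] at this
    have h3 : ‖z‖ ≤ Real.exp B' := by
      rw [h2]; exact Real.exp_le_exp.2 ((le_abs_self _).trans h1)
    exact absurd ((le_max_right 1 _).trans_lt hz) (not_lt.2 h3)
  have hnorm : Tendsto (fun z : ℂ => ‖z‖) (Bornology.cobounded ℂ) atTop :=
    tendsto_norm_cobounded_atTop
  have key : Tendsto (fun z : ℂ => z / Psi z) (Bornology.cobounded ℂ) (𝓝 1) := by
    rw [tendsto_iff_norm_sub_tendsto_zero]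
    have h0 : Tendsto (fun z : ℂ => 8 / ‖z‖) (Bornology.cobounded ℂ) (𝓝 0) :=
      hnorm.const_div_atTop 8
    refine squeeze_zero' (Eventually.of_forall fun z => norm_nonneg _) ?_ h0
    filter_upwards [hnorm.eventually_gt_atTop (max 1 (Real.exp B'))] with z hz
    have hz1 : 1 < ‖z‖ := (le_max_left _ _).trans_lt hz
    have h1 := hbig z hz
    have h2 := norm_Phi_div_sub_one h1
    have h3 := (norm_Phi_bounds h1).2
    rw [Phi_Psi hz1] at h2 h3
    refine h2.trans ?_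
    rw [div_le_div_iff₀ (by linarith) (by linarith)]
    linarith
  have h4 := key.inv₀ one_ne_zero
  rw [inv_one] at h4
  refine h4.congr fun z => ?_
  rw [inv_div]

/-! ### boundary limits -/

theorem tendsto_Psi_of_cOf {L₀ c₀ : ℂ} (h : Tendsto cOf (𝓝[{L | 0 < L.re}] L₀) (𝓝 c₀))
    (hL₀ : L₀.re = 0) : Tendsto Psi (𝓝[{z | 1 < ‖z‖}] (Complex.exp L₀)) (𝓝 c₀) := by
  have h1 : Tendsto (fun z : ℂ => L₀ + Complex.log (z * Complex.exp (-L₀)))
      (𝓝[{z | 1 < ‖z‖}] (Complex.exp L₀)) (𝓝[{L | 0 < L.re}] L₀) := by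
    rw [tendsto_nhdsWithin_iff]
    constructor
    · have h2 : Tendsto (fun z : ℂ => z * Complex.exp (-L₀)) (𝓝 (Complex.exp L₀)) (𝓝 1) := by
        have h3 : Tendsto (fun z : ℂ => z * Complex.exp (-L₀)) (𝓝 (Complex.exp L₀))
            (𝓝 (Complex.exp L₀ * Complex.exp (-L₀))) := tendsto_id.mul_const _
        rwa [← Complex.exp_add, add_neg_cancel, Complex.exp_zero] at h3
      have h4 : Tendsto Complex.log (𝓝 1) (𝓝 (Complex.log 1)) :=
        (continuousAt_clog (Complex.one_mem_slitPlane)).tendsto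
      rw [Complex.log_one] at h4
      have h5 := ((h4.comp h2).const_add L₀).mono_left
        (nhdsWithin_le_nhds (s := {z : ℂ | 1 < ‖z‖}))
      rw [add_zero] at h5
      exact h5
    · filter_upwards [self_mem_nhdsWithin] with z hz
      have hz' : 1 < ‖z‖ := hz
      show 0 < (L₀ + Complex.log (z * Complex.exp (-L₀))).re
      rw [Complex.add_re, hL₀, zero_add, Complex.log_re, norm_mul, Complex.norm_exp,
        Complex.neg_re, hL₀, neg_zero, Real.exp_zero, mul_one]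
      exact Real.log_pos hz'
  refine (h.comp h1).congr' ?_
  filter_upwards [self_mem_nhdsWithin] with z hz
  have hz' : 1 < ‖z‖ := hz
  have hz0 : z * Complex.exp (-L₀) ≠ 0 := by
    apply mul_ne_zero _ (Complex.exp_ne_zero _)
    rw [← norm_pos_iff]; linarith
  show cOf (L₀ + Complex.log (z * Complex.exp (-L₀))) = Psi z
  rw [cOf, Complex.exp_add, Complex.exp_log hz0, mul_left_comm, ← Complex.exp_add, add_neg_cancel,
    Complex.exp_zero, mul_one]

lemma norm_cOf_le {L : ℂ} (hL : 0 < L.re) (hL1 : L.re ≤ 1) :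
    ‖cOf L‖ ≤ 2 * Real.exp 1 + 100 := norm_le_of_G_le (by rw [G_cOf hL]; exact hL1)

lemma eventually_re_le {L₀ : ℂ} (hL₀ : L₀.re = 0) : ∀ᶠ L in 𝓝 L₀, L.re ≤ 1 := by
  have : Tendsto Complex.re (𝓝 L₀) (𝓝 L₀.re) := Complex.continuous_re.continuousAt
  rw [hL₀] at this
  filter_upwards [this.eventually (gt_mem_nhds (by norm_num : (0 : ℝ) < 1))] with L hL
  exact le_of_lt hL

/-- if all limits along sequences agree, `cOf` has a limit -/
theorem tendsto_cOf_of_unique {L₀ c₀ : ℂ} (hL₀ : L₀.re = 0)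
    (h : ∀ (u : ℕ → ℂ) (c : ℂ), (∀ n, 0 < (u n).re) → Tendsto u atTop (𝓝 L₀) →
      Tendsto (fun n => cOf (u n)) atTop (𝓝 c) → c = c₀) :
    Tendsto cOf (𝓝[{L | 0 < L.re}] L₀) (𝓝 c₀) := by
  by_contra hcon
  rw [not_tendsto_iff_exists_frequently_notMem] at hcon
  obtain ⟨V, hV, hfr⟩ := hcon
  have hfr2 : ∃ᶠ L in 𝓝[{L | 0 < L.re}] L₀, cOf L ∉ V ∧ (0 < L.re ∧ L.re ≤ 1) := by
    apply hfr.and_eventually
    filter_upwards [self_mem_nhdsWithin, nhdsWithin_le_nhds (eventually_re_le hL₀)] with L h1 h2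
    exact ⟨h1, h2⟩
  obtain ⟨u, hu, hu2⟩ := exists_seq_forall_of_frequently hfr2
  have hu3 : Tendsto u atTop (𝓝 L₀) := hu.mono_right nhdsWithin_le_nhds
  obtain ⟨c, -, φ, hφ, hc⟩ := (isCompact_closedBall (0 : ℂ) (2 * Real.exp 1 + 100)).tendsto_subseq
    (x := fun n => cOf (u n)) (fun n => by
      rw [mem_closedBall_zero_iff]; exact norm_cOf_le (hu2 n).2.1 (hu2 n).2.2)
  have h1 := h (u ∘ φ) c (fun n => (hu2 (φ n)).2.1) (hu3.comp hφ.tendsto_atTop) hc
  rw [h1] at hc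
  obtain ⟨n, hn⟩ := (hc.eventually hV).exists
  exact (hu2 (φ n)).1 hn

/-- the limits of `cOf` at the imaginary axis are in the Mandelbrot set -/
theorem mem_MM_of_tendsto {u : ℕ → ℂ} {c : ℂ} (hu : ∀ n, 0 < (u n).re)
    (h0 : Tendsto (fun n => (u n).re) atTop (𝓝 0))
    (hc : Tendsto (fun n => cOf (u n)) atTop (𝓝 c)) : c ∈ MM := by
  rw [mem_M_iff']
  have h1 : Tendsto (fun n => G (cOf (u n)) (cOf (u n))) atTop (𝓝 (G c c)) :=
    (continuous_G_diag.tendsto c).comp hc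
  refine tendsto_nhds_unique h1 ?_
  refine h0.congr fun n => ?_
  rw [G_cOf (hu n)]

/-- there is a limit -/
theorem exists_limit_cOf {u : ℕ → ℂ} (hu : ∀ n, 0 < (u n).re) (hu1 : ∀ n, (u n).re ≤ 1) :
    ∃ c, ∃ φ : ℕ → ℕ, StrictMono φ ∧ Tendsto (fun n => cOf (u (φ n))) atTop (𝓝 c) := by
  obtain ⟨c, -, φ, hφ, hc⟩ := (isCompact_closedBall (0 : ℂ) (2 * Real.exp 1 + 100)).tendsto_subseq
    (x := fun n => cOf (u n)) (fun n => by
      rw [mem_closedBall_zero_iff]; exact norm_cOf_le (hu n) (hu1 n))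
  exact ⟨c, φ, hφ, hc⟩

/-- **G12**: boundary limits of the Riemann map -/
theorem tendsto_Psi_of_unique {θ : ℝ} {c₀ : ℂ}
    (h : ∀ (g t : ℕ → ℝ) (c : ℂ), (∀ n, 0 < g n) → Tendsto g atTop (𝓝 0) →
      Tendsto t atTop (𝓝 θ) →
      Tendsto (fun n => cOf ((g n : ℂ) + 2 * Real.pi * t n * Complex.I)) atTop (𝓝 c) → c = c₀) :
    Tendsto Psi (𝓝[{z | 1 < ‖z‖}] (Complex.exp (2 * Real.pi * θ * Complex.I))) (𝓝 c₀) := by
  have hre : (2 * Real.pi * θ * Complex.I : ℂ).re = 0 := by simp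
  have him : (2 * Real.pi * θ * Complex.I : ℂ).im = 2 * Real.pi * θ := by simp
  refine tendsto_Psi_of_cOf (tendsto_cOf_of_unique hre fun u c hu hu2 hc => ?_) hre
  refine h (fun n => (u n).re) (fun n => (u n).im / (2 * Real.pi)) c hu ?_ ?_ ?_
  · have := (Complex.continuous_re.tendsto _).comp hu2
    rwa [hre] at this
  · have h1 := ((Complex.continuous_im.tendsto _).comp hu2).div_const (2 * Real.pi)
    rw [him, mul_div_cancel_left₀ _ (by positivity)] at h1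
    exact h1
  · refine hc.congr fun n => ?_
    congr 1
    have h2 : (2 : ℂ) * Real.pi * (((u n).im / (2 * Real.pi) : ℝ) : ℂ) = ((u n).im : ℂ) := by
      have h3 : (2 : ℂ) * Real.pi * (((u n).im / (2 * Real.pi) : ℝ) : ℂ) =
          ((2 * Real.pi * ((u n).im / (2 * Real.pi)) : ℝ) : ℂ) := by push_cast; ring
      rw [h3, mul_div_cancel₀ _ (by positivity)]
    rw [h2]
    exact (Complex.re_add_im (u n)).symm

end Pool.Agent.Work.MLC
end

section
set_option autoImplicit false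

/-! # The barrier with free parameters (radius `r`, reference potential `g`) (helper49)

Same as PriCut49 with the radius, the reference potential and the mid ray property as parameters,
and a better use of the Harnack inequality. -/

namespace Pool.Agent.Work.MLC.Pri

open Filter Topology Metric Set Complex
open PriHar (Oth)

/-- `(H1)` of the transfer from the period constraint, resonances only -/
theorem ne_one_of_rep' {N n d : ℕ} (hn : 0 < n) (hnN : n ≤ N) (hd : 0 < d) {D : Set ℂ}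
    {σ : ℂ → ℂ × ℂ} (hσ : ∀ L ∈ D, σ L ∈ Per d ∧ mul d (σ L) = exp L)
    (hex : ∀ L ∈ D, ∀ k, 0 < k → k < d → it (σ L).1 k (σ L).2 ≠ (σ L).2)
    (hR : RepOn N D (fun L => (σ L).1) (fun L => (σ L).2))
    (hE : ∀ L ∈ D, ∀ k : ℕ, 0 < k → d * k ≤ N → exp (k * L) ≠ 1) :
    ∀ L ∈ D, ∀ b, ((σ L).1, b) ∈ Per n → mul n ((σ L).1, b) ≠ 1 := by
  intro L hL b hb
  obtain ⟨m, hm, hmn, ⟨k, rfl⟩, hEx⟩ := exists_exact hn hb
  have hk : 0 < k := Nat.pos_of_mul_pos_left hn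
  rw [Hyp.mul_mul hEx.1]
  by_cases ho : ∀ i, b ≠ it (σ L).1 i (σ L).2
  · have h1 := hR L hL m hm (hmn.trans hnN) b ⟨hEx.1, hEx.2, ho⟩
    simp only at h1
    intro h2
    have h3 : ‖mul m ((σ L).1, b)‖ ^ k = 1 := by rw [← norm_pow, h2, norm_one]
    have h4 := one_lt_pow₀ h1 hk.ne'
    linarith
  · obtain ⟨i, hi⟩ := not_forall_not.1 ho
    have h1 : Ex d (σ L).1 (it (σ L).1 i (σ L).2) :=
      ex_it hd ⟨(hσ L hL).1, hex L hL⟩ i
    rw [hi] at hEx ⊢
    have h2 := ex_unique hm hd hEx h1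
    subst h2
    rw [Sat.mul_it' (hσ L hL).1]
    have h3 : mul m ((σ L).1, (σ L).2) = exp L := (hσ L hL).2
    rw [h3, ← Complex.exp_nat_mul]
    exact hE L hL k hk hnN

/-- all the data of the cut of `V` at the value `x`, radius `r`, reference potential `g` -/
structure CutE (N : ℕ) (r g : ℝ) (D : Sat.Dat) : Prop where
  par : D.Par
  le : D.m ≤ N
  r_pos : 0 < r
  r_le : r ≤ Sat.gR D.m D.x
  res : ∀ L ∈ ball D.a r, ∀ k : ℕ, 0 < k → D.m * k ≤ N → exp (k * L) ≠ 1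
  rep : RepOn N (ball D.a r) D.c D.b
  g_pos : 0 < g
  g_le : g ≤ 4
  mid : ∀ c, Ang c (th D) → G c c ≤ g → ∃ L, D.c L = c ∧ dist L D.a ≤ r / 2

section

variable {N : ℕ} {r g : ℝ} {D : Sat.Dat}

lemma CutE.ball_sub (h : CutE N r g D) : ball D.a r ⊆ D.B := ball_subset_ball h.r_le

/-- the good discs are far from the integer points -/
lemma far_int {m : ℕ} (hm : 0 < m) {x : ℚ} (h0 : 0 < x) (h1 : x < 1) (hr : 0 < r)
    (hrg : r ≤ Sat.gR m x) {L : ℂ} (hL : dist L (axisPt x) ≤ r / 2) (j : ℤ) :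
    r ≤ ‖L - 2 * Real.pi * j * I‖ := by
  have hm1 : (1 : ℝ) ≤ m := by exact_mod_cast hm
  have hx0 : (0 : ℝ) < x := by exact_mod_cast h0
  have hx1 : (x : ℝ) < 1 := by exact_mod_cast h1
  set μ : ℝ := min (x : ℝ) (1 - x) with hμ
  have hμ0 : 0 < μ := lt_min hx0 (by linarith)
  have hμx : μ ≤ x := min_le_left _ _
  have hμx' : μ ≤ 1 - x := min_le_right _ _
  have hg : Sat.gR m x ≤ μ / 8 := by
    unfold Sat.gR
    rw [← hμ, div_le_iff₀ (by linarith)]
    nlinarith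
  have hkx : μ ≤ |(x : ℝ) - j| := by
    rcases le_or_gt j 0 with hk | hk
    · have h2 : (j : ℝ) ≤ 0 := by exact_mod_cast hk
      rw [abs_of_nonneg (by linarith)]
      linarith
    · have h2 : (1 : ℝ) ≤ j := by exact_mod_cast hk
      rw [abs_of_nonpos (by linarith)]
      linarith
  have h3 : axisPt x - 2 * Real.pi * j * I = ((2 * Real.pi * (x - j) : ℝ) : ℂ) * I := by
    unfold axisPt; push_cast; ring
  have h4 : ‖axisPt x - 2 * Real.pi * j * I‖ = 2 * Real.pi * |(x : ℝ) - j| := by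
    rw [h3, norm_mul, norm_I, mul_one, norm_real, Real.norm_eq_abs, abs_mul,
      abs_of_pos (by positivity : (0 : ℝ) < 2 * Real.pi)]
  rw [dist_eq_norm] at hL
  have h5 := norm_sub_le (L - 2 * Real.pi * j * I) (L - axisPt x)
  have h6 : L - 2 * Real.pi * j * I - (L - axisPt x) = axisPt x - 2 * Real.pi * j * I := by ring
  rw [h6, h4] at h5
  have hpi := Real.pi_gt_three
  have h7 : 6 * μ ≤ 2 * Real.pi * |(x : ℝ) - j| := by
    calc 6 * μ ≤ 2 * Real.pi * μ := by nlinarith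
      _ ≤ _ := by gcongr
  linarith

lemma CutE.r_lt (h : CutE N r g D) : r ≤ 1 / 16 := by
  have hm1 : (1 : ℝ) ≤ D.m := by exact_mod_cast h.par.m_pos
  have hx0 : (0 : ℝ) < D.x := by exact_mod_cast h.par.x_pos
  have hx1 : (D.x : ℝ) < 1 := by exact_mod_cast h.par.x_lt
  have h1 := h.r_le
  unfold Sat.gR at h1
  have hμ0 : 0 < min (D.x : ℝ) (1 - D.x) := lt_min hx0 (by linarith)
  have hμ : min (D.x : ℝ) (1 - D.x) ≤ 1 / 2 := by
    rcases le_total (D.x : ℝ) (1 / 2) with h | h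
    · exact (min_le_left _ _).trans h
    · exact (min_le_right _ _).trans (by linarith)
  refine h1.trans ?_
  rw [div_le_iff₀ (by linarith)]
  nlinarith

/-- no multiplier `1` over the ball -/
theorem CutE.disc_ne (h : CutE N r g D) {n : ℕ} (hn : 0 < n) (hnN : n ≤ N) {L b : ℂ}
    (hL : L ∈ ball D.a r) (hb : (D.c L, b) ∈ Per n) : mul n (D.c L, b) ≠ 1 :=
  ne_one_of_rep' hn hnN h.par.m_pos (D := ball D.a r) (σ := D.σ)
    (fun L hL => h.par.sec L (h.ball_sub hL))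
    (fun L hL k hk hkd => h.par.prim L (h.ball_sub hL) k hk hkd) h.rep h.res L hL b hb

/-- transfer inside the ball, all pairs of exact period `n` -/
theorem CutE.ball_bound (h : CutE N r g D) {K : ℝ} (hK : 0 ≤ K) {L₀ : ℂ}
    (hL₀ : dist L₀ D.a ≤ r / 2)
    (hK₀ : ∀ n, 0 < n → n ≤ N → ∀ b, Ex n (D.c L₀) b → ‖1 / (mul n (D.c L₀, b) - 1)‖ ≤ K)
    {n : ℕ} (hn : 0 < n) (hnN : n ≤ N) {L b : ℂ} (hL : dist L D.a ≤ r / 2)
    (hb : Ex n (D.c L) b) : ‖1 / (mul n (D.c L, b) - 1)‖ ≤ 9 * K + 5 + 2 / r := by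
  have hr := h.r_pos
  have hsub := h.ball_sub
  have hLr : L ∈ ball D.a r := mem_ball.2 (by linarith)
  have h2r : 0 < 2 / r := by positivity
  by_cases ho : ∀ i, b ≠ it (D.c L) i (D.b L)
  · have hG : GoodDom D.m D.B := Sat.goodB h.par
    have hc : DifferentiableOn ℂ D.c (ball D.a r) :=
      (section_differentiableOn hG h.par.cont h.par.sec).mono hsub
    have hv : ContinuousOn D.b (ball D.a r) :=
      (continuous_snd.comp_continuousOn h.par.cont).mono hsub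
    have h2 := PriHar.transfer_ball hn h.par.m_pos hr hc hv
      (fun L hL => (h.par.sec L (hsub hL)).1)
      (fun L hL k hk hkd => h.par.prim L (hsub hL) k hk hkd)
      (fun L hL b hb => h.disc_ne hn hnN hL hb)
      (fun L hL b hb => h.rep L hL n hn hnN b hb) hL hL₀ (K := K)
      (fun b hb => hK₀ n hn hnN b ⟨hb.1, hb.2.1⟩) ⟨hb.1, hb.2, ho⟩
    linarith
  · obtain ⟨i, hi⟩ := not_forall_not.1 ho
    have hLB : L ∈ D.B := hsub hLr
    have h1 : Ex D.m (D.c L) b := by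
      rw [hi]
      exact ex_it h.par.m_pos ⟨(h.par.sec L hLB).1, h.par.prim L hLB⟩ i
    have h2 := ex_unique hn h.par.m_pos hb h1
    subst h2
    have h3 : mul D.m (D.c L, b) = exp L := by
      rw [hi]
      exact (Sat.mul_it' (h.par.sec L hLB).1 i).trans (h.par.sec L hLB).2
    rw [h3]
    have h4 := own_bound (L := L) hr (by linarith [h.r_lt]) (fun m =>
      far_int h.par.m_pos h.par.x_pos h.par.x_lt hr h.r_le (L := L) hL m)
    linarith

/-- the bound at exterior parameters of potential at least `g` -/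
def RefB (N : ℕ) (g K : ℝ) : Prop := ∀ n c b, 0 < n → n ≤ N → g ≤ G c c → G c c ≤ 4 →
  (c, b) ∈ Per n → ‖1 / (mul n (c, b) - 1)‖ ≤ K

/-- **(b)** over the half ball -/
theorem CutE.disc_bound (h : CutE N r g D) {K : ℝ} (hK : 0 ≤ K) (hC : RefB N g K) {n : ℕ}
    (hn : 0 < n) (hnN : n ≤ N) {L b : ℂ} (hL : dist L D.a ≤ r / 2) (hb : Ex n (D.c L) b) :
    ‖1 / (mul n (D.c L, b) - 1)‖ ≤ 9 * K + 5 + 2 / r := by
  obtain ⟨h1, h2⟩ := ang_cOf (g := g) (θ := th D) h.g_pos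
  set c₀ : ℂ := cOf ((g : ℂ) + 2 * Real.pi * th D * I) with hc₀
  obtain ⟨L₀, h3, h4⟩ := h.mid c₀ h1 h2.le
  refine h.ball_bound hK h4 ?_ hn hnN hL hb
  intro n' hn' hnN' b' hb'
  exact hC n' (D.c L₀) b' hn' hnN' (by rw [h3, h2]) (by rw [h3, h2]; exact h.g_le) hb'.1

/-- **(a)** on the ray of the mid angle, at all potentials -/
theorem CutE.ray_bound (h : CutE N r g D) {K : ℝ} (hK : 0 ≤ K) (hC : RefB N g K) {n : ℕ}
    (hn : 0 < n) (hnN : n ≤ N) {c b : ℂ} (hA : Ang c (th D)) (hb : Ex n c b) :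
    ‖1 / (mul n (c, b) - 1)‖ ≤ 9 * K + 5 + 2 / r := by
  have h2r : 0 < 2 / r := by have := h.r_pos; positivity
  rcases le_or_gt (G c c) g with hg | hg
  · obtain ⟨L₀, h3, h4⟩ := h.mid c hA hg
    rw [← h3] at hb ⊢
    exact h.disc_bound hK hC hn hnN h4 hb
  · rcases le_or_gt (G c c) 4 with hg4 | hg4
    · have := hC n c b hn hnN hg.le hg4 hb.1
      linarith
    · have h1 : 23 / 10 ≤ ‖mul n (c, b)‖ := by
        by_contra hcon
        push Not at hcon
        exact absurd (G_le_four_of_mul_lt hn hb.1 hcon) (not_le.2 hg4)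
      have h2 : 1 ≤ ‖mul n (c, b) - 1‖ := by
        have := norm_sub_norm_le (mul n (c, b)) 1
        rw [norm_one] at this
        linarith
      have h3 : ‖1 / (mul n (c, b) - 1)‖ ≤ 1 := by
        rw [norm_div, norm_one]
        exact (div_le_one (by linarith)).2 h2
      linarith

/-! ### over the component -/

/-- the left reference point -/
noncomputable def LpE (r : ℝ) (D : Sat.Dat) : ℂ := D.a - ((r / 4 : ℝ) : ℂ)

lemma LpE_re : (LpE r D).re = -(r / 4) := by simp [LpE, a_re]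

lemma LpE_im : (LpE r D).im = 2 * Real.pi * D.x := by
  have : (D.a).im = 2 * Real.pi * D.x := LimbData.axisPt_im D.x
  rw [LpE, Complex.sub_im, Complex.ofReal_im, sub_zero, this]

lemma LpE_dist (hr : 0 < r) : dist (LpE r D) D.a = r / 4 := by
  rw [dist_eq_norm, LpE, sub_sub_cancel_left, norm_neg, norm_real, Real.norm_eq_abs,
    abs_of_pos (by linarith)]

lemma CutE.Lp_mem (h : CutE N r g D) : LpE r D ∈ D.B ∩ Lft := by
  have hr := h.r_pos
  refine ⟨h.ball_sub (by rw [mem_ball, LpE_dist hr]; linarith), ?_⟩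
  show (LpE r D).re < 0
  rw [LpE_re]; linarith

/-- the section over the left half plane -/
theorem CutE.exists_left (h : CutE N r g D) : ∃ τ : ℂ → ℂ × ℂ, ContinuousOn τ Lft ∧
    (∀ L ∈ Lft, τ L ∈ Per D.m ∧ mul D.m (τ L) = exp L) ∧
    ∀ L ∈ D.B, L.re < 0 → τ L = D.σ L := by
  have hG : GoodDom D.m Lft := goodDom_left h.par.m_pos
  have hcv : Convex ℝ Lft := convex_halfSpace_re_lt 0
  have hp := h.Lp_mem
  obtain ⟨h1, h2⟩ := h.par.sec _ hp.1
  obtain ⟨τ, hτ, hτ', hτ0⟩ := exists_section hG hcv h1 hp.2 h2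
  refine ⟨τ, hτ, hτ', fun L hL hre => ?_⟩
  have hS : IsPreconnected (D.B ∩ Lft) := ((convex_ball _ _).inter hcv).isPreconnected
  have h3 := section_unique hG hτ hτ' hS (g := D.σ) (l := fun L => L)
    (h.par.cont.mono inter_subset_left) continuousOn_id
    (fun L hL => ⟨(h.par.sec L hL.1).1, hL.2, (h.par.sec L hL.1).2⟩)
    (a₀ := LpE r D) hp hτ0.symm
  exact (h3 L ⟨hL, hre⟩).symm

section left

variable {τ : ℂ → ℂ × ℂ}

lemma CutE.exact_left (h : CutE N r g D) (hτ : ContinuousOn τ Lft)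
    (hτ' : ∀ L ∈ Lft, τ L ∈ Per D.m ∧ mul D.m (τ L) = exp L)
    (hτσ : τ (LpE r D) = D.σ (LpE r D)) : ∀ L ∈ Lft, Ex D.m (τ L).1 (τ L).2 := by
  have hG : GoodDom D.m Lft := goodDom_left h.par.m_pos
  have hcv : Convex ℝ Lft := convex_halfSpace_re_lt 0
  have hp := h.Lp_mem
  refine prim_on hcv.isPreconnected hG.isOpen hG.ne_one hτ hτ' hp.2 ?_
  rw [hτσ]
  exact ⟨(h.par.sec _ hp.1).1, h.par.prim _ hp.1⟩

/-- no multiplier `1` over the component -/
theorem CutE.left_ne (h : CutE N r g D) (hτ : ContinuousOn τ Lft)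
    (hτ' : ∀ L ∈ Lft, τ L ∈ Per D.m ∧ mul D.m (τ L) = exp L)
    (hτσ : τ (LpE r D) = D.σ (LpE r D)) {n : ℕ} (hn : 0 < n) (hnN : n ≤ N) {L b : ℂ}
    (hL : L ∈ Lft) (hb : ((τ L).1, b) ∈ Per n) : mul n ((τ L).1, b) ≠ 1 := by
  have hexτ := h.exact_left hτ hτ' hτσ
  exact ne_one_of_rep' hn hnN h.par.m_pos hτ' (fun L hL => (hexτ L hL).2)
    (repOn_left (N := N) h.par.m_pos hτ' (fun L hL => hL))
    (fun L hL k hk hkN => by
      intro h0
      have h2 : ‖exp (k * L)‖ < 1 := by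
        rw [norm_exp]
        refine Real.exp_lt_one_iff.2 ?_
        have h3 : ((k : ℂ) * L).re = k * L.re := by simp
        rw [h3]
        exact mul_neg_of_pos_of_neg (by exact_mod_cast hk) hL
      rw [h0, norm_one] at h2
      exact lt_irrefl _ h2) L hL b hb

/-- **(c)** over the left half plane, `F` = Harnack constant between `L` and the reference point -/
theorem CutE.left_bound (h : CutE N r g D) {K : ℝ} (hK : 0 ≤ K) (hC : RefB N g K)
    (hτ : ContinuousOn τ Lft)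
    (hτ' : ∀ L ∈ Lft, τ L ∈ Per D.m ∧ mul D.m (τ L) = exp L)
    (hτσ : τ (LpE r D) = D.σ (LpE r D)) {n : ℕ} (hn : 0 < n) (hnN : n ≤ N) {L b : ℂ} {F : ℝ}
    (hL : L.re ≤ -(r / 4)) (hF0 : 0 ≤ F)
    (hF : ‖L + (starRingEnd ℂ) (LpE r D)‖ ^ 2 ≤ F * (-L.re * (r / 4))) (hb : Ex n (τ L).1 b) :
    ‖1 / (mul n ((τ L).1, b) - 1)‖ ≤ F * (9 * K + 6 + 2 / r) + 1 + 8 / r := by
  have hr := h.r_pos
  have hLl : L ∈ Lft := by show L.re < 0; linarith
  have hp := h.Lp_mem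
  have hex := h.exact_left hτ hτ' hτσ
  by_cases ho : ∀ i, b ≠ it (τ L).1 i (τ L).2
  · have hc : DifferentiableOn ℂ (fun L => (τ L).1) {L : ℂ | L.re < 0} :=
      section_differentiableOn (goodDom_left h.par.m_pos) hτ hτ'
    have hv : ContinuousOn (fun L => (τ L).2) {L : ℂ | L.re < 0} :=
      continuous_snd.comp_continuousOn hτ
    have hR := repOn_left (N := N) h.par.m_pos hτ' (fun L hL => hL)
    have h2 := PriHar.transfer_half hn h.par.m_pos hc hv (fun L hL => (hτ' L hL).1)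
      (fun L hL k hk hkd => (hex L hL).2 k hk hkd)
      (fun L hL b hb => h.left_ne hτ hτ' hτσ hn hnN hL hb)
      (fun L hL b hb => hR L hL n hn hnN b hb) (L := L) (L' := LpE r D) hLl hp.2
      (K := 9 * K + 5 + 2 / r)
      (fun b hb => by
        have h3 : (τ (LpE r D)).1 = D.c (LpE r D) := by rw [hτσ]; rfl
        simp only [h3] at hb ⊢
        exact h.disc_bound hK hC hn hnN (by rw [LpE_dist hr]; linarith) ⟨hb.1, hb.2.1⟩)
      (b := b) ⟨hb.1, hb.2, ho⟩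
    refine h2.trans ?_
    have h4 : L.re * (LpE r D).re = -L.re * (r / 4) := by rw [LpE_re]; ring
    have h5 : ‖L + (starRingEnd ℂ) (LpE r D)‖ ^ 2 / (L.re * (LpE r D).re) ≤ F := by
      rw [h4, div_le_iff₀ (mul_pos (by linarith) (by linarith))]
      exact hF
    have h6 : 0 ≤ 9 * K + 5 + 2 / r + 1 / 2 := by positivity
    have h7 := mul_le_mul_of_nonneg_right h5 h6
    have h8 : 0 < 8 / r := by positivity
    nlinarith
  · obtain ⟨i, hi⟩ := not_forall_not.1 ho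
    have h1 : Ex D.m (τ L).1 b := by
      rw [hi]; exact ex_it h.par.m_pos (hex L hLl) i
    have h2 := ex_unique hn h.par.m_pos hb h1
    subst h2
    have h3 : mul D.m ((τ L).1, b) = exp L := by
      rw [hi]
      exact (Sat.mul_it' (hτ' L hLl).1 i).trans (hτ' L hLl).2
    rw [h3]
    have h4 := own_bound (L := L) (δ := r / 4) (by positivity) (by linarith [h.r_lt])
      (fun m => by
        have h5 := abs_re_le_norm (L - 2 * Real.pi * m * I)
        have h6 : (L - 2 * Real.pi * m * I).re = L.re := by simp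
        rw [h6, abs_of_neg hLl] at h5
        linarith)
    have h5 : 2 / (r / 4) = 8 / r := by field_simp; norm_num
    rw [h5] at h4
    have h6 : 0 ≤ F * (9 * K + 6 + 2 / r) := by positivity
    linarith

end left

end

end Pool.Agent.Work.MLC.Pri
end

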