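import Mathlib
import Pool.Agent.Work.MLCM.C24
import Pool.Agent.Work.MLCM.C25
import Pool.Agent.Work.MLCM.C29
import Pool.Agent.Work.MLCM.C34
import Pool.Agent.Work.MLCM.C39
import Pool.Agent.Work.MLCM.C40
import Pool.Agent.Work.MLCM.C41
import Pool.Agent.Work.MLCM.C42
import Pool.Agent.Work.MLCM.C46
import Pool.Agent.Work.MLCM.C50
import Pool.Agent.Work.MLCM.C52
import Pool.Agent.Work.MLCM.C54

section
set_option autoImplicit false

/-! # The relation `Ex` without restriction on the denominator (helper13) -/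

namespace Pool.Agent.Work.MLC

open Filter Topology Metric Set Complex

/-- an angle of period one (under `2 ^ n`) is compatible with some word -/
lemma exists_compat13 {n : ℕ} (hn : 0 < n) {β : ℝ} (hβ : PerAngle n 1 β) :
    ∃ (θ : ℝ) (w : ℕ → ℤ), Bits n w ∧ Compat β θ w := by
  obtain ⟨-, ⟨K, hK⟩, -⟩ := hβ
  rw [mul_one] at hK
  -- an angle outside the orbit
  have hfin : (⋃ i ∈ Finset.range n, {t : ℝ | Int.fract (2 ^ (i + 1) * β) = t}).Finite :=
    Set.Finite.biUnion (Finset.finite_toSet _) fun i _ => by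
      have : {t : ℝ | Int.fract (2 ^ (i + 1) * β) = t} = {Int.fract (2 ^ (i + 1) * β)} := by
        ext t; simp [eq_comm]
      rw [this]; exact Set.finite_singleton _
  obtain ⟨θ, hθ, hθn⟩ := (Set.Ioo_infinite (show (0 : ℝ) < 1 by norm_num)).exists_notMem_finite hfin
  have hne : ∀ i < n, ∀ k : ℤ, (2 : ℝ) ^ (i + 1) * β ≠ θ + k := by
    intro i hi k h
    apply hθn
    simp only [Set.mem_iUnion, Finset.mem_range, exists_prop]
    refine ⟨i, hi, ?_⟩
    show Int.fract (2 ^ (i + 1) * β) = θ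
    rw [h, Int.fract_add_intCast, Int.fract_eq_self.2 ⟨hθ.1.le, hθ.2⟩]
  have hperi : ∀ i, ∃ z : ℤ, (2 : ℝ) ^ (i + n) * β = 2 ^ i * β + z := fun i =>
    ⟨2 ^ i * K, by rw [pow_add]; push_cast; rw [← hK]; ring⟩
  have hmod : ∀ i, ∃ z : ℤ, (2 : ℝ) ^ i * β = 2 ^ (i % n) * β + z := by
    intro i
    have : ∀ m j : ℕ, ∃ z : ℤ, (2 : ℝ) ^ (j + n * m) * β = 2 ^ j * β + z := by
      intro m j
      induction m with
      | zero => exact ⟨0, by simp⟩
      | succ m ih =>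
        obtain ⟨z, hz⟩ := ih
        obtain ⟨z', hz'⟩ := hperi (j + n * m)
        refine ⟨z + z', ?_⟩
        have : j + n * (m + 1) = (j + n * m) + n := by ring
        rw [this, hz', hz]; push_cast; ring
    have h2 := this (i / n) (i % n)
    rwa [Nat.mod_add_div] at h2
  -- the floor of `2 * 2 ^ i β - θ`
  set F : ℕ → ℤ := fun i => ⌊(2 : ℝ) ^ (i + 1) * β - θ⌋ with hF
  refine ⟨θ, fun i => (F (i % n)) % 2, ⟨fun i => ?_, fun i => ?_⟩, fun i => ?_⟩
  · exact Int.emod_two_eq_zero_or_one (F (i % n))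
  · show F ((i + n) % n) % 2 = F (i % n) % 2
    rw [Nat.add_mod_right]
  · obtain ⟨z, hz⟩ := hmod i
    have hi : i % n < n := Nat.mod_lt _ hn
    set j := i % n with hj
    have h1 := Int.floor_le ((2 : ℝ) ^ (j + 1) * β - θ)
    have h2 := Int.lt_floor_add_one ((2 : ℝ) ^ (j + 1) * β - θ)
    have h3 : (2 : ℝ) ^ (j + 1) * β - θ ≠ (F j : ℝ) := by
      intro h
      exact hne j hi (F j) (by linarith)
    have h1' : (F j : ℝ) < (2 : ℝ) ^ (j + 1) * β - θ := lt_of_le_of_ne h1 (Ne.symm h3)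
    have h2' : (2 : ℝ) ^ (j + 1) * β - θ < F j + 1 := h2
    have h4 : (F j : ℝ) = ((F j % 2 : ℤ) : ℝ) + 2 * ((F j / 2 : ℤ) : ℝ) := by
      have := Int.emod_add_mul_ediv (F j) 2
      exact_mod_cast this.symm
    have h5 : (2 : ℝ) ^ (j + 1) * β = 2 * (2 ^ j * β) := by rw [pow_succ]; ring
    refine ⟨F j / 2 + z, ?_, ?_⟩
    · show (θ + ((F j % 2 : ℤ) : ℝ)) / 2 + ((F j / 2 + z : ℤ) : ℝ) < 2 ^ i * β
      rw [hz]; push_cast at h4 ⊢; linarith
    · show 2 ^ i * β < (θ + ((F j % 2 : ℤ) : ℝ)) / 2 + ((F j / 2 + z : ℤ) : ℝ) + 1 / 2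
      rw [hz]; push_cast at h4 ⊢; linarith

section

variable {n : ℕ} {x : ℚ} {c b : ℂ}

lemma eq_num_of_den {x : ℚ} (h : x.den = 1) : x = x.num := by
  rw [Rat.den_eq_one_iff] at h; exact h.symm

/-- some compatible pair exists for a landing ray -/
lemma exists_compat_of_land (hn : 0 < n) (hM : G c 0 = 0) (hfix : it c n b = b)
    (hρ : 1 < ‖mult n c b‖) {β : ℝ} {q : ℕ} (hl : Land n c b β q) :
    ∃ (θ : ℝ) (w : ℕ → ℤ), Bits n w ∧ Compat β θ w := by
  by_cases hq : 2 ≤ q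
  · have hF : Fam n c b {β} := by
      refine ⟨Set.finite_singleton _, ?_, ?_, ⟨β, by simp, q, hq, hl.1⟩⟩
      · rintro β' rfl; exact ⟨q, hl.1⟩
      · rintro β' rfl; exact hl.lands hM
    obtain ⟨θ, v, hv, hfit⟩ := exists_fits hn hF (portHyp hn c b _ hM hfix hρ hF)
    exact ⟨θ, v, hv, hfit.compat (by simp) (hl.lands hM)⟩
  · have h1 : q = 1 := by have := hl.1.1; omega
    subst h1
    exact exists_compat13 hn hl.1

/-- all rays which land at `b` have this rotation number -/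
lemma Ex.all' (h : Ex n x c b) (hn : 0 < n) (hM : G c 0 = 0)
    (hfix : it c n b = b) (hρ : 1 < ‖mult n c b‖) {β : ℝ} {q : ℕ} (hl : Land n c b β q) :
    q = x.den ∧ ∀ (θ : ℝ) (w : ℕ → ℤ), (∀ i, w (i + n) = w i) → Compat β θ w →
      ∃ k : ℤ, Circ.nu w n θ = x + k := by
  by_cases hx : 2 ≤ x.den
  · exact h.all hn hx hM hfix hρ hl
  have hx1 : x.den = 1 := by have := x.pos; omega
  have hxn := eq_num_of_den hx1
  have hxr : (x : ℝ) = (x.num : ℝ) := by exact_mod_cast congrArg (fun t : ℚ => (t : ℝ)) hxn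
  have hq1 : q = 1 := by
    by_contra hcon
    have hq2 : 2 ≤ q := by have := hl.1.1; omega
    obtain ⟨β₀, hl₀, θ₀, w₀, hw₀, hc₀, k₀, hk₀⟩ := h
    have hF : Fam n c b {β, β₀} := by
      refine ⟨(Set.finite_singleton _).insert _, ?_, ?_, ⟨β, by simp, _, hq2, hl.1⟩⟩
      · rintro β' (rfl | rfl)
        · exact ⟨q, hl.1⟩
        · exact ⟨_, hl₀.1⟩
      · rintro β' (rfl | rfl)
        · exact hl.lands hM
        · exact hl₀.lands hM
    obtain ⟨θ, v, hv, hfit⟩ := exists_fits hn hF (portHyp hn c b _ hM hfix hρ hF)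
    have c1 : Compat β θ v := hfit.compat (by simp) (hl.lands hM)
    have c2 : Compat β₀ θ v := hfit.compat (by simp) (hl₀.lands hM)
    obtain ⟨k1, hk1⟩ := numod hl₀.1 hw₀ hv.per hc₀ c2
    refine nu_ne_int_of_compat hq2 hl.1 hv.per c1 (x.num + k₀ + k1) ?_
    rw [hk1, hk₀, hxr]; push_cast; ring
  refine ⟨by rw [hq1, hx1], fun θ w hw hc => ?_⟩
  obtain ⟨P, -, hP⟩ := nu_of_compat hl.1 hw hc
  refine ⟨P - x.num, ?_⟩
  rw [hP, hq1, hxr]; push_cast; ring

/-- closedness -/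
lemma ex_closed' (hn : 0 < n) (hM : G c 0 = 0) (hfix : it c n b = b)
    (hρ : 1 < ‖mult n c b‖)
    (h : ∃ᶠ y : ℂ × ℂ in 𝓝 (c, b), y ∈ Per n ∧ G y.1 0 = 0 ∧ Ex n x y.1 y.2) : Ex n x c b := by
  have hL : Complex.exp (Complex.log (mult n c b)) = mult n c b :=
    Complex.exp_log (mult_ne_zero57 hρ)
  obtain ⟨β, q, p, hq, hland, -⟩ := Tr.exists_land_rot (lin_Lz hn hfix hρ) hM hL
  have hρ' : ∀ᶠ y : ℂ × ℂ in 𝓝 (c, b), 1 < ‖mult n y.1 y.2‖ :=
    ((continuous_mult n).norm.tendsto (c, b)).eventually (lt_mem_nhds hρ)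
  obtain ⟨y, ⟨hy, hG, hE⟩, hev, hρy⟩ :=
    (h.and_eventually ((land_nhds hn hM hfix hρ hland).and hρ')).exists
  have hl := (hev hy).1 hG
  obtain ⟨hqx, hall⟩ := hE.all' hn hG hy hρy hl
  obtain ⟨θ, v, hv, c1⟩ := exists_compat_of_land hn hM hfix hρ hland
  exact ⟨β, hqx ▸ hland, θ, v, hv.per, c1, hall θ v hv.per c1⟩

/-- every repelling point over the Mandelbrot set has a combinatorial rotation number -/
lemma exists_ex (hn : 0 < n) (hM : G c 0 = 0) (hfix : it c n b = b)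
    (hρ : 1 < ‖mult n c b‖) : ∃ x : ℚ, Ex n x c b := by
  have hL : Complex.exp (Complex.log (mult n c b)) = mult n c b :=
    Complex.exp_log (mult_ne_zero57 hρ)
  obtain ⟨β, q, p, hq, hland, -⟩ := Tr.exists_land_rot (lin_Lz hn hfix hρ) hM hL
  obtain ⟨θ, v, hv, c1⟩ := exists_compat_of_land hn hM hfix hρ hland
  obtain ⟨P, hP1, hP2⟩ := nu_of_compat hland.1 hv.per c1
  have hden : q = ((P : ℚ) / (q : ℚ)).den := den_of_eq (k := 0) hq hP1 (by push_cast; ring)
  refine ⟨(P : ℚ) / (q : ℚ), β, ?_, θ, v, hv.per, c1, 0, ?_⟩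
  · rw [← hden]; exact hland
  · rw [hP2]; push_cast; ring

/-- the combinatorial rotation number is unique modulo one -/
lemma Ex.unique {x' : ℚ} (h : Ex n x c b) (h' : Ex n x' c b) (hn : 0 < n) (hM : G c 0 = 0)
    (hfix : it c n b = b) (hρ : 1 < ‖mult n c b‖) : ∃ k : ℤ, x' = x + k := by
  obtain ⟨β, hl, θ, w, hw, hc, k, hk⟩ := h'
  obtain ⟨-, h1⟩ := h.all' hn hM hfix hρ hl
  obtain ⟨k', hk'⟩ := h1 θ w hw hc
  refine ⟨k' - k, ?_⟩
  have : (x' : ℝ) = x + ((k' - k : ℤ) : ℝ) := by push_cast; linarith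
  exact_mod_cast this

/-- the PLY inequality with the denominator `x.den`, and the rotation number -/
lemma Ex.ply' (h : Ex n x c b) (hn : 0 < n) (hM : c ∈ MM)
    (hfix : (c, b) ∈ Per n) {L : ℂ} (hL : mul n (c, b) = exp L) (hre : 0 < L.re) :
    ∃ p : ℤ, Tr.RotT n c b L ((p : ℚ) / (x.den : ℚ)) ∧
      ‖L - axisPt ((p : ℚ) / (x.den : ℚ))‖ ^ 2 ≤ 2 * n * Real.log 2 / x.den * L.re := by
  have hM0 : G c 0 = 0 := mem_M_iff.1 hM
  have hρ : 1 < ‖mult n c b‖ := by
    have : mult n c b = mul n (c, b) := rfl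
    rw [this, hL, norm_exp]; exact Real.one_lt_exp_iff.2 hre
  have hL' : exp L = mult n c b := hL.symm
  obtain ⟨β, q, p, hq, hland, -, hT, hply⟩ := Tr.exists_land_rot
    (Tr.lin_Lz hn (Tr.rep_of hfix hL hre) rfl) hM0 hL'
  obtain ⟨hqx, -⟩ := h.all' hn hM0 hfix hρ hland
  subst hqx
  refine ⟨p, ⟨hre, hM, hfix, hL, x.den, p, hq, hT, rfl⟩, ?_⟩
  have e : axisPt ((p : ℚ) / (x.den : ℚ)) = 2 * Real.pi * ((p : ℂ) / (x.den : ℂ)) * I := by
    unfold axisPt; push_cast; ring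
  rw [e]; exact hply

end

end Pool.Agent.Work.MLC
end

section
set_option autoImplicit false

/-! # Problem P: the period constraint (helper51)

If `c` has an attracting cycle of exact period `n`, then the rotation number of every repelling
periodic point has denominator at most `n`. -/

namespace Pool.Agent.Work.MLC.PriPer

open Filter Topology Metric Set Complex

/-! ### circle part -/

/-- an orbit in the open half circles is stable -/
theorem op_stable {w : ℕ → ℤ} {θ x : ℝ} {n : ℕ} (h : ∀ i < n, Circ.Op w θ x i) :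
    ∀ i ≤ n, ∀ᶠ θ' in 𝓝 θ, Circ.gw w θ' i x = Circ.gw w θ i x := by
  intro i
  induction i with
  | zero => intro _; exact Eventually.of_forall fun θ' => by simp
  | succ i ih =>
    intro hi
    obtain ⟨k, hk1, hk2⟩ := h i (by omega)
    have h1 : ∀ᶠ θ' in 𝓝 θ, (θ' + w i) / 2 + k < Circ.gw w θ i x := by
      have hc : Continuous fun θ' : ℝ => (θ' + w i) / 2 + k := by fun_prop
      exact (hc.tendsto θ).eventually (gt_mem_nhds hk1)
    have h2 : ∀ᶠ θ' in 𝓝 θ, Circ.gw w θ i x < (θ' + w i) / 2 + k + 1 / 2 := by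
      have hc : Continuous fun θ' : ℝ => (θ' + w i) / 2 + k + 1 / 2 := by fun_prop
      exact (hc.tendsto θ).eventually (lt_mem_nhds hk2)
    filter_upwards [ih (by omega), h1, h2] with θ' h3 h4 h5
    rw [Circ.gw_succ_apply, Circ.gw_succ_apply, h3, Circ.tdbl_lin k h4.le h5.le,
      Circ.tdbl_lin k hk1.le hk2.le]

/-- an end of an integer plateau is periodic -/
theorem end_periodic {w : ℕ → ℤ} {θ : ℝ} {n : ℕ} (hn : 0 < n) {k : ℤ}
    (hk : Circ.nu w n θ = k) (hfr : ∃ᶠ θ' in 𝓝 θ, Circ.nu w n θ' ≠ k) :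
    ∃ a : ℤ, (2 : ℝ) ^ n * θ - θ = a := by
  have h1 : ∃ x, (Circ.gw w θ n ^ 1) x = x + k :=
    (Circ.nu_eq_rat_iff w n θ 1 one_pos k).1 (by rw [hk]; simp)
  rw [pow_one] at h1
  obtain ⟨x, hx, -, h2 | h2⟩ := Circ.exists_cl hn h1
  · exfalso
    have h3 := op_stable h2 n le_rfl
    obtain ⟨θ', h4, h5⟩ := (hfr.and_eventually h3).exists
    apply h4
    have h6 : ∃ x, (Circ.gw w θ' n ^ 1) x = x + k := ⟨x, by rw [pow_one, h5, hx]⟩
    have h7 := (Circ.nu_eq_rat_iff w n θ' 1 one_pos k).2 h6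
    rw [h7]; simp
  · exact h2

lemma finite_bits {n : ℕ} (hn : 0 < n) : {w : ℕ → ℤ | Bits n w}.Finite := by
  refine (Set.finite_range fun v : Fin n → Bool =>
    fun i : ℕ => if v ⟨i % n, Nat.mod_lt _ hn⟩ then (1 : ℤ) else 0).subset ?_
  intro w hw
  refine ⟨fun i => decide (w i = 1), ?_⟩
  funext i
  have h1 : ∀ k j : ℕ, w (j + n * k) = w j := by
    intro k
    induction k with
    | zero => intro j; simp
    | succ k ih => intro j; rw [Nat.mul_succ, ← add_assoc, hw.per, ih]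
  have h2 : w (i % n) = w i := by
    conv_rhs => rw [← Nat.mod_add_div i n]
    exact (h1 _ _).symm
  simp only [h2]
  rcases hw.bit i with h | h <;> simp [h]

/-- pigeonhole for sequences -/
lemma pigeon {α : Type*} {S : Set α} (hS : S.Finite) {f : ℕ → α} (hf : ∀ j, f j ∈ S) :
    ∃ y ∈ S, ∃ᶠ j in atTop, f j = y := by
  by_contra hno
  have h1 : ∀ᶠ j in atTop, ∀ y ∈ S, f j ≠ y := by
    rw [hS.eventually_all]
    intro y hy
    exact not_frequently.1 fun h => hno ⟨y, hy, h⟩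
  obtain ⟨j, hj⟩ := h1.exists
  exact hj _ (hf j) rfl

/-- a convergent sequence of integers shifted by convergent numbers -/
lemma int_limit {a : ℕ → ℤ} {e : ℕ → ℝ} {A E : ℝ} (h1 : Tendsto (fun j => (a j : ℝ) + e j) atTop (𝓝 A))
    (h2 : Tendsto e atTop (𝓝 E)) : ∃ k : ℤ, A = k + E ∧ ∀ᶠ j in atTop, a j = k := by
  have h3 : Tendsto (fun j => (a j : ℝ)) atTop (𝓝 (A - E)) := by
    have := h1.sub h2
    simpa using this
  have hcl : A - E ∈ range ((↑) : ℤ → ℝ) :=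
    Int.isClosedEmbedding_coe_real.isClosed_range.mem_of_tendsto h3
      (Eventually.of_forall fun j => ⟨a j, rfl⟩)
  obtain ⟨k, hk⟩ := hcl
  refine ⟨k, by linarith, ?_⟩
  have h4 : ∀ᶠ j in atTop, |(a j : ℝ) - (A - E)| < 1 := by
    have := h3.eventually (Metric.ball_mem_nhds _ one_pos)
    filter_upwards [this] with j hj
    have h5 : dist ((a j : ℝ)) (A - E) < 1 := hj
    rwa [Real.dist_eq] at h5
  filter_upwards [h4] with j hj
  rw [← hk] at hj
  have h5 : |a j - k| < 1 := by exact_mod_cast hj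
  have := Int.abs_lt_one_iff.1 h5
  omega

/-! ### the analytic part -/

/-- a repelling pair over `MM` with combinatorial rotation number `x` -/
def RX (d : ℕ) (x : ℚ) (c v : ℂ) : Prop :=
  c ∈ MM ∧ (c, v) ∈ Per d ∧ 1 < ‖mul d (c, v)‖ ∧ Ex d x c v

/-- exact period in terms of the minimal period -/
lemma minimalPeriod_eq {d : ℕ} (hd : 0 < d) {c v : ℂ} (h : (c, v) ∈ Per d)
    (he : ∀ k, 0 < k → k < d → it c k v ≠ v) : Function.minimalPeriod (f c) v = d := by
  have h3 : Function.IsPeriodicPt (f c) d v := h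
  have h5 := h3.minimalPeriod_le hd
  rcases h5.lt_or_eq with h | h
  · exfalso
    exact he _ (h3.minimalPeriod_pos hd) h (Function.isPeriodicPt_minimalPeriod (f c) v)
  · exact h

/-- a point of the cycle of `v` fixed by the `n`-th iterate: the period divides `n` -/
lemma dvd_of_orbit {n d : ℕ} (hd : 0 < d) {c v b : ℂ} (h : (c, v) ∈ Per d)
    (he : ∀ k, 0 < k → k < d → it c k v ≠ v) {i : ℕ} (hb : b = it c i v) (hbn : (c, b) ∈ Per n) :
    d ∣ n := by
  have h6 : (c, v) ∈ Per n := by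
    have h7 := Sat.Per_it hbn (d * i - i)
    rwa [hb, Sat.it_back hd h i] at h7
  have h7 : Function.IsPeriodicPt (f c) n v := h6
  rw [← minimalPeriod_eq hd h he]
  exact h7.minimalPeriod_dvd

/-- a continuation meets the cycle of another continuation everywhere or nowhere -/
theorem orbit_const {n d : ℕ} (hd : 0 < d) {D : Set ℂ} (hD : IsOpen D)
    (hpre : IsPreconnected D) {c v β : ℂ → ℂ} (hc : ContinuousOn c D) (hv : ContinuousOn v D)
    (hvp : ∀ L ∈ D, (c L, v L) ∈ Per d) (hve : ∀ L ∈ D, ∀ k, 0 < k → k < d → it (c L) k (v L) ≠ v L)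
    (hβ : ContinuousOn β D) (hβp : ∀ L ∈ D, (c L, β L) ∈ Per n)
    (h1 : ∀ L ∈ D, ∀ b, (c L, b) ∈ Per n → mul n (c L, b) ≠ 1) {L L' : ℂ} (hL : L ∈ D)
    (hL' : L' ∈ D) {i : ℕ} (hi : β L = it (c L) i (v L)) : β L' = it (c L') i (v L') := by
  obtain ⟨k, rfl⟩ := dvd_of_orbit hd (hvp L hL) (hve L hL) hi (hβp L hL)
  have hvn : ∀ y ∈ D, (c y, it (c y) i (v y)) ∈ Per (d * k) := by
    intro y hy
    have h3 : Function.IsPeriodicPt (f (c y)) d (v y) := hvp y hy
    have h4 : (c y, v y) ∈ Per (d * k) := h3.trans_dvd ⟨k, rfl⟩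
    exact Sat.Per_it h4 i
  have hvc : ContinuousOn (fun y => it (c y) i (v y)) D :=
    (continuous_it i).comp_continuousOn (hc.prodMk hv)
  exact PriHar.cont_ne hD hpre hc hβ hvc hβp hvn h1 hL hL' hi

lemma mem_MM_of_att {n : ℕ} (hn : 0 < n) {x : ℂ × ℂ} (hx : x ∈ Per n) (hm : ‖mul n x‖ < 1) :
    x.1 ∈ MM := by
  by_contra h
  have := rep13 hn hx h
  linarith

/-- a repelling pair is not on an attracting cycle -/
lemma not_on_cycle {n d : ℕ} (hn : 0 < n) {c b v : ℂ}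
    (hA : (c, b) ∈ Hyp.Att n) (hv : (c, v) ∈ Per d) (hm : 1 < ‖mul d (c, v)‖) (i : ℕ) :
    v ≠ it c i b := by
  intro h1
  obtain ⟨k, rfl⟩ := dvd_of_orbit hn hA.1 hA.2.1 h1 hv
  have h2 : mul (n * k) (c, v) = mul n (c, b) ^ k := by
    have h3 : (c, b) ∈ Per (n * k) := by
      have h4 : Function.IsPeriodicPt (f c) n b := hA.1
      exact h4.trans_dvd ⟨k, rfl⟩
    rw [h1, Sat.mul_it' h3 i, Hyp.mul_mul hA.1]
  have h3 : ‖mul (n * k) (c, v)‖ ≤ 1 := by
    rw [h2, norm_pow]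
    exact pow_le_one₀ (norm_nonneg _) hA.2.2.le
  linarith

/-- the finitely many multipliers to avoid -/
lemma finite_bad {n m : ℕ} (hn : 0 < n) (hm : 0 < m) :
    {w : ℂ | ∃ c b v, (c, v) ∈ Per m ∧ mul m (c, v) = 1 ∧ (c, b) ∈ Per n ∧
      mul n (c, b) = w}.Finite := by
  refine ((NV.finite_par hm).biUnion fun c _ => finite_mults hn c).subset ?_
  rintro w ⟨c, b, v, h1, h2, h3, h4⟩
  exact mem_biUnion (x := c) ⟨v, h1, h2⟩ ⟨b, h3, h4⟩

lemma exp_two_pi_inj {φ φ' : ℝ} (h0 : φ ∈ Ioo (0 : ℝ) 1) (h0' : φ' ∈ Ioo (0 : ℝ) 1)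
    (h : exp (2 * Real.pi * φ * I) = exp (2 * Real.pi * φ' * I)) : φ = φ' := by
  rw [Complex.exp_eq_exp_iff_exists_int] at h
  obtain ⟨k, hk⟩ := h
  have h1 := congrArg Complex.im hk
  simp at h1
  have hpi := Real.pi_pos
  have h2 : φ = φ' + k := by
    have : (2 * Real.pi) * φ = (2 * Real.pi) * (φ' + k) := by linarith
    exact mul_left_cancel₀ (by positivity) this
  have h3 : (k : ℝ) < 1 := by linarith [h0.2, h0'.1]
  have h4 : (-1 : ℝ) < k := by linarith [h0.1, h0'.2]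
  have h5 : k < 1 := by exact_mod_cast h3
  have h6 : -1 < k := by exact_mod_cast h4
  have h7 : k = 0 := by omega
  rw [h2, h7]; simp

/-- `exp (q * 2 π i p / q) = 1` -/
lemma exp_den_mul {q : ℕ} (hq : 0 < q) (p : ℤ) :
    exp ((q : ℂ) * axisPt ((p : ℚ) / (q : ℚ))) = 1 := by
  rw [Complex.exp_eq_one_iff]
  refine ⟨p, ?_⟩
  have hqc : (q : ℂ) ≠ 0 := by exact_mod_cast hq.ne'
  unfold axisPt
  push_cast
  field_simp

/-! ### all other cycles are repelling over a ball far from the small denominators -/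

/-- no horodisc of denominator at most `N` meets `U` -/
def Far (d N : ℕ) (U : Set ℂ) : Prop := ∀ y : ℚ, y.den ≤ N → ∀ L ∈ U,
  ¬ (‖L - axisPt y‖ ^ 2 ≤ 2 * d * Real.log 2 / y.den * L.re)

section

variable {D : Sat.Dat}

/-- no resonance of the cycle of `V` -/
lemma exp_ne_one_of_far {d N : ℕ} {U : Set ℂ} (hF : Far d N U) {L : ℂ} (hL : L ∈ U) {k : ℕ}
    (hk : 0 < k) (hkN : k ≤ N) : exp ((k : ℂ) * L) ≠ 1 := by
  intro h
  rw [Complex.exp_eq_one_iff] at h
  obtain ⟨z, hz⟩ := h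
  have hkc : (k : ℂ) ≠ 0 := by exact_mod_cast hk.ne'
  have hLe : L = axisPt ((z : ℚ) / (k : ℚ)) := by
    unfold axisPt
    push_cast
    field_simp
    linear_combination hz
  have hden : ((z : ℚ) / (k : ℚ)).den ≤ k := by
    have h6 := Rat.den_dvd z (k : ℤ)
    rw [Rat.divInt_eq_div] at h6
    have h7 : ((z : ℚ) / (k : ℚ)) = (z : ℚ) / ((k : ℤ) : ℚ) := by push_cast; rfl
    rw [h7]
    exact Nat.le_of_dvd hk (by exact_mod_cast h6)
  refine hF _ (hden.trans hkN) L hL ?_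
  rw [hLe, sub_self, norm_zero, LimbData.axisPt_re]
  simp

lemma nonV_nhds (hP : D.Par) {L b : ℂ} (hL : L ∈ D.B) (hnb : ∀ i, b ≠ it (D.c L) i (D.b L)) :
    ∀ᶠ p : ℂ × ℂ in 𝓝 (L, b), p.1 ∈ D.B → ∀ i, p.2 ≠ it (D.c p.1) i (D.b p.1) := by
  have hcont : ∀ i, ContinuousAt (fun p : ℂ × ℂ => it (D.c p.1) i (D.b p.1)) (L, b) := by
    intro i
    have h1 : ContinuousAt (fun L => it (D.c L) i (D.b L)) L :=
      ContinuousAt.comp (g := fun q : ℂ × ℂ => it q.1 i q.2) (f := fun L => (D.c L, D.b L))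
        (continuous_it i).continuousAt ((Sat.c_contAt hP hL).prodMk (Sat.b_contAt hP hL))
    exact ContinuousAt.comp (g := fun L => it (D.c L) i (D.b L)) (f := Prod.fst) h1 continuousAt_fst
  have h1 : ∀ᶠ p : ℂ × ℂ in 𝓝 (L, b), ∀ i ∈ Finset.range D.m,
      p.2 ≠ it (D.c p.1) i (D.b p.1) := by
    rw [Filter.eventually_all_finset]
    intro i _
    exact (continuousAt_snd.prodMk (hcont i)).eventually
      ((isOpen_ne_fun continuous_fst continuous_snd).mem_nhds (hnb i))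
  filter_upwards [h1] with p hp hpB i
  have h2 : (D.c p.1, D.b p.1) ∈ Per D.m := (hP.sec p.1 hpB).1
  have h3 : it (D.c p.1) i (D.b p.1) = it (D.c p.1) (i % D.m) (D.b p.1) := by
    conv_lhs => rw [← Nat.mod_add_div i D.m]
    exact Sat.it_mul_per h2 _ _
  rw [h3]
  exact hp _ (Finset.mem_range.2 (Nat.mod_lt _ hP.m_pos))

end

end Pool.Agent.Work.MLC.PriPer
end

section
set_option autoImplicit false

/-! # Existence of the two cuts and lower bounds for `|mul - 1|` over them (helper49) -/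

namespace Pool.Agent.Work.MLC.Pri

open Filter Topology Metric Set Complex
open PriHar (Oth)

/-- shift along the cycle -/
noncomputable def shf (i₀ : ℕ) (s : ℂ × ℂ) : ℂ × ℂ := (s.1, it s.1 i₀ s.2)

lemma continuous_shf (i₀ : ℕ) : Continuous (shf i₀) := continuous_fst.prodMk (continuous_it i₀)

lemma shf_sec {m : ℕ} {s : ℂ × ℂ} {L : ℂ} (i₀ : ℕ) (h : s ∈ Per m ∧ mul m s = exp L) :
    shf i₀ s ∈ Per m ∧ mul m (shf i₀ s) = exp L :=
  ⟨Sat.Per_it (c := s.1) (z := s.2) h.1 i₀, (Sat.mul_it' (c := s.1) (z := s.2) h.1 i₀).trans h.2⟩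

/-! ### the constants -/

/-- the denominator -/
lemma exists_kappa (M : ℕ) (hM : 0 < M) : ∃ κ : ℕ, M ≤ 2 ^ κ ∧ 2 ^ κ ≤ 2 * M := by
  refine ⟨Nat.clog 2 M, Nat.le_pow_clog (by norm_num) _, ?_⟩
  rcases Nat.lt_or_ge 1 M with h | h
  · have h1 : 0 < Nat.clog 2 M := Nat.clog_pos (by norm_num) h
    have h2 := Nat.pow_pred_clog_lt_self (b := 2) (by norm_num) h
    have h3 : 2 ^ Nat.clog 2 M = 2 * 2 ^ (Nat.clog 2 M).pred := by
      rw [← pow_succ']
      congr 1
      exact (Nat.succ_pred_eq_of_pos h1).symm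
    omega
  · have : M = 1 := by omega
    subst this
    simp

lemma den_odd (a : ℤ) (κ : ℕ) (ha : Odd a) : ((a : ℚ) / ((2 ^ κ : ℕ) : ℚ)).den = 2 ^ κ := by
  have h1 : Nat.Coprime a.natAbs (2 ^ κ : ℕ) := by
    refine Nat.Coprime.pow_right _ ?_
    rw [Nat.coprime_comm, Nat.Prime.coprime_iff_not_dvd Nat.prime_two]
    intro h
    have h2 := Int.natAbs_odd.2 ha
    rw [← Nat.not_even_iff_odd] at h2
    exact h2 (even_iff_two_dvd.2 h)
  have h2 := Rat.den_div_eq_of_coprime (a := a) (b := ((2 ^ κ : ℕ) : ℤ)) (by positivity)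
    (by simpa using h1)
  have h3 : ((((a : ℚ) / (((2 ^ κ : ℕ) : ℤ) : ℚ)).den : ℕ) : ℤ) = ((2 ^ κ : ℕ) : ℤ) := h2
  have h4 : (((2 ^ κ : ℕ) : ℤ) : ℚ) = ((2 ^ κ : ℕ) : ℚ) := by norm_cast
  rw [h4] at h3
  exact_mod_cast h3

/-- `b` over `c`: the multiplier is not close to `1` -/
def Bd (N : ℕ) (c : ℂ) : Prop := ∀ n b, 0 < n → n ≤ N → (c, b) ∈ Per n → Exa n (c, b) →
  mul n (c, b) ≠ 1 ∧ ‖1 / (mul n (c, b) - 1)‖ ≤ 10 ^ 46 * (N : ℝ) ^ 64

lemma Bd.le {N : ℕ} (hN : 0 < N) {c : ℂ} (h : Bd N c) {n : ℕ} {b : ℂ} (hn : 0 < n) (hnN : n ≤ N)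
    (hb : (c, b) ∈ Per n) (hx : Exa n (c, b)) :
    1 / (10 ^ 46 * (N : ℝ) ^ 64) ≤ ‖mul n (c, b) - 1‖ := by
  obtain ⟨h1, h2⟩ := h n b hn hnN hb hx
  have hN1 : (1 : ℝ) ≤ N := by exact_mod_cast hN
  have h3 : 0 < ‖mul n (c, b) - 1‖ := norm_pos_iff.2 (sub_ne_zero.2 h1)
  rw [norm_div, norm_one, div_le_iff₀ h3] at h2
  rw [div_le_iff₀ (by positivity)]
  linarith

end Pool.Agent.Work.MLC.Pri
end

section
set_option autoImplicit false

/-! # Points over `MM` of large combinatorial rotation denominator are near the axis (helper59)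

`ex_near`: if a ray of combinatorial rotation number `x` lands at the repelling point `b` over `MM`
then the logarithms of the multiplier are, modulo `2 π i`, close to `2 π i x` (no label, no
smallness of the disc). `barM`: such a pair of label `J` is the point of any section of label `J`
over the half disc about `2 π i x`. -/

namespace Pool.Agent.Work.MLC

open Filter Topology Metric Set Complex

namespace BarM

lemma axisPt_re (x : ℚ) : (axisPt x).re = 0 := by unfold axisPt; simp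

lemma mem_disc {z Y : ℂ} {r : ℝ} (hY : Y.re = 0) (hr : 0 ≤ r) (h : ‖z - Y‖ ^ 2 ≤ r * z.re) :
    ‖z - Y‖ ≤ r ∧ z.re ≤ r := by
  have h1 : z.re ≤ ‖z - Y‖ := by
    have := Complex.re_le_norm (z - Y)
    rw [Complex.sub_re, hY] at this
    linarith
  have h3 : ‖z - Y‖ ≤ r := by
    by_contra hcon
    push Not at hcon
    have h2 : r * z.re ≤ r * ‖z - Y‖ := mul_le_mul_of_nonneg_left h1 hr
    nlinarith
  exact ⟨h3, h1.trans h3⟩

lemma norm_MM_le {c : ℂ} (h : c ∈ MM) : ‖c‖ ≤ 2 * Real.exp 1 + 100 := by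
  refine norm_le_of_G_le ?_
  have h1 : G c 0 = 0 := mem_M_iff.1 h
  rw [G_c_eq, h1]; norm_num

/-- the logarithm of the multiplier at the limits of exterior pairs -/
lemma near_of_frequently {n : ℕ} (hn : 0 < n) {x : ℚ} {c b z : ℂ} (hM : c ∈ MM)
    (hfix : (c, b) ∈ Per n) (hz : mul n (c, b) = exp z) (hre : 0 < z.re) (hE : Ex n x c b)
    (hf : ∃ᶠ y : ℂ × ℂ in 𝓝 (c, b), y ∈ Per n ∧ y.1 ∉ MM) {ε : ℝ} (hε : 0 < ε) :
    ∃ j : ℤ, ‖z - axisPt x - 2 * Real.pi * j * I‖ ≤ ε + 9 * Real.sqrt (n * (z.re + ε)) := by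
  have hM0 : G c 0 = 0 := mem_M_iff.1 hM
  have hρ : 1 < ‖mult n c b‖ := by
    have : mult n c b = mul n (c, b) := rfl
    rw [this, hz, norm_exp]; exact Real.one_lt_exp_iff.2 hre
  have hm0 : mul n (c, b) ≠ 0 := by rw [hz]; exact exp_ne_zero _
  -- the local logarithm
  set ℓ : ℂ × ℂ → ℂ := fun y => Complex.log (mul n y / mul n (c, b)) + z with hℓ
  have hℓc : ContinuousAt ℓ (c, b) := by
    have h2 : ContinuousAt (fun y => mul n y / mul n (c, b)) (c, b) := by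
      have := (continuous_mul' n).continuousAt (x := (c, b))
      exact this.div_const _
    have h3 : ContinuousAt (fun y => Complex.log (mul n y / mul n (c, b))) (c, b) :=
      h2.clog (by simp only [div_self hm0]; exact one_mem_slitPlane)
    exact h3.add continuousAt_const
  have hℓx : ℓ (c, b) = z := by simp [hℓ, div_self hm0]
  have h1 : ∀ᶠ y in 𝓝 (c, b), dist (ℓ y) z < ε := by
    have := hℓc.eventually (Metric.ball_mem_nhds _ hε)
    filter_upwards [this] with y hy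
    have h2 : dist (ℓ y) (ℓ (c, b)) < ε := hy
    rwa [hℓx] at h2
  have h2 : ∀ᶠ y in 𝓝 (c, b), mul n y ≠ 0 :=
    (continuous_mul' n).continuousAt.eventually_ne hm0
  have h4 : ∀ᶠ y : ℂ × ℂ in 𝓝 (c, b), G y.1 y.1 < 4 := by
    have := (continuous_G_diag'.tendsto (c, b))
    refine this.eventually (gt_mem_nhds ?_)
    show G c c < 4
    rw [G_c_eq, hM0]; norm_num
  obtain ⟨y, ⟨hy, hyM⟩, h5, h6, h7, h8⟩ := (hf.and_eventually
    (h1.and (h2.and (h4.and (hE.nhds hn hM0 hfix hρ))))).exists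
  have hG : 0 < G y.1 y.1 := Sat.not_mem_MM_iff.1 hyM
  obtain ⟨θ, hθ⟩ := exists_ang hG
  obtain ⟨w, hw⟩ := exists_extP_word hn hθ hy
  obtain ⟨k, hk⟩ := (h8 hy).2 θ w hw
  obtain ⟨-, l, hl1, hl2⟩ := extP_ply hn hw h7.le
  rw [hk] at hl2
  have h9 : exp l = exp (ℓ y) := by
    rw [hl1, hℓ]
    show mul n y = _
    rw [Complex.exp_add, Complex.exp_log (div_ne_zero h6 hm0), ← hz]
    field_simp
  rw [Complex.exp_eq_exp_iff_exists_int] at h9
  obtain ⟨i, hi⟩ := h9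
  have hlre : l.re = (ℓ y).re := by rw [hi]; simp
  have hd : ‖ℓ y - z‖ < ε := by rw [← dist_eq_norm]; exact h5
  have hre2 : l.re ≤ z.re + ε := by
    have h10 := Complex.re_le_norm (ℓ y - z)
    rw [Complex.sub_re] at h10
    linarith
  refine ⟨k - i, ?_⟩
  have e1 : z - axisPt x - 2 * Real.pi * ((k - i : ℤ) : ℂ) * I
      = (z - ℓ y) + (l - 2 * Real.pi * ((x + k : ℝ) : ℂ) * I) := by
    rw [hi]; unfold axisPt; push_cast; ring
  rw [e1]
  refine (norm_add_le _ _).trans ?_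
  have h11 : ‖z - ℓ y‖ ≤ ε := by rw [norm_sub_rev]; exact hd.le
  have h12 : ‖l - 2 * Real.pi * ((x + k : ℝ) : ℂ) * I‖ ≤ 9 * Real.sqrt (n * (z.re + ε)) := by
    have hn1 : (0 : ℝ) < n := by exact_mod_cast hn
    apply le_of_sq_le_sq _ (by positivity)
    refine hl2.trans ?_
    rw [mul_pow, Real.sq_sqrt (by positivity)]
    nlinarith
  linarith

/-- **combinatorial rotation number and multiplier over `MM`** -/
theorem ex_near {n : ℕ} (hn : 0 < n) {x : ℚ} (hr : 2 * n * Real.log 2 / x.den ≤ 1 / 2)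
    {c b L : ℂ} (hM : c ∈ MM) (hfix : (c, b) ∈ Per n) (hL : mul n (c, b) = exp L)
    (hre : 0 < L.re) (hE : Ex n x c b) :
    L.re ≤ 2 * n * Real.log 2 / x.den ∧ ∃ j : ℤ, ‖L - axisPt x - 2 * Real.pi * j * I‖ ≤
      2 * (2 * n * Real.log 2 / x.den) + 10 * Real.sqrt (n * (2 * n * Real.log 2 / x.den)) := by
  have hn0 : (0 : ℝ) < n := by exact_mod_cast hn
  have hlog0 : 0 < Real.log 2 := Real.log_pos (by norm_num)
  have hq0 : (0 : ℝ) < x.den := by exact_mod_cast x.pos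
  set r : ℝ := 2 * n * Real.log 2 / x.den with hrdef
  have hr0 : 0 < r := by rw [hrdef]; positivity
  have hR := Tr.rotData hn
  obtain ⟨p, hT, -⟩ := hE.ply' hn hM hfix hL hre
  set y : ℚ := (p : ℚ) / (x.den : ℚ) with hy
  set Y : ℂ := axisPt y with hY
  have hYre : Y.re = 0 := axisPt_re y
  set T : Set (ℂ × ℂ × ℂ) := {t | t.1 ∈ MM ∧ (t.1, t.2.1) ∈ Per n ∧
    mul n (t.1, t.2.1) = exp t.2.2 ∧ Tr.RotT n t.1 t.2.1 t.2.2 y ∧ Ex n x t.1 t.2.1} with hTdef
  have hT0 : ((c, b, L) : ℂ × ℂ × ℂ) ∈ T := ⟨hM, hfix, hL, hT, hE⟩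
  have hre' : ∀ t ∈ T, 0 < t.2.2.re := fun t ht => (hR.dom _ _ _ _ ht.2.2.2.1).1
  have hply : ∀ t ∈ T, ‖t.2.2 - Y‖ ^ 2 ≤ r * t.2.2.re := by
    intro t ht
    obtain ⟨h1, h2, h3, h4, h5⟩ := ht
    obtain ⟨p', h6, h7⟩ := h5.ply' hn h1 h2 h3 (hR.dom _ _ _ _ h4).1
    rw [hR.uniq _ _ _ _ _ h6 h4] at h7
    exact h7
  have hdisc : ∀ t ∈ T, ‖t.2.2 - Y‖ ≤ r ∧ t.2.2.re ≤ r := fun t ht =>
    mem_disc hYre hr0.le (hply t ht)
  have hrho : ∀ t ∈ T, 1 < ‖mult n t.1 t.2.1‖ := by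
    intro t ht
    have h1 : mult n t.1 t.2.1 = mul n (t.1, t.2.1) := rfl
    rw [h1, ht.2.2.1, norm_exp]; exact Real.one_lt_exp_iff.2 (hre' t ht)
  refine ⟨(hdisc _ hT0).2, ?_⟩
  -- a point of `T` is a limit of exterior pairs
  have hex : ∃ t ∈ T, ∃ᶠ s : ℂ × ℂ in 𝓝 (t.1, t.2.1), s ∈ Per n ∧ s.1 ∉ MM := by
    by_contra hcon
    push Not at hcon
    have hcon' : ∀ t ∈ T, ∀ᶠ s : ℂ × ℂ in 𝓝 (t.1, t.2.1), s ∈ Per n → s.1 ∈ MM := hcon
    set Z : Set ℂ := (fun t : ℂ × ℂ × ℂ => t.2.2) '' T with hZ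
    have hZY : ∀ z ∈ Z, ‖z - Y‖ ≤ r := by
      rintro _ ⟨t, ht, rfl⟩; exact (hdisc t ht).1
    -- open
    have hZo : IsOpen Z := by
      rw [isOpen_iff_mem_nhds]
      rintro _ ⟨t, ht, rfl⟩
      obtain ⟨c₁, b₁, z₁⟩ := t
      obtain ⟨h1, h2, h3, h4, h5⟩ := ht
      simp only at h1 h2 h3 h4 h5
      have htT : ((c₁, b₁, z₁) : ℂ × ℂ × ℂ) ∈ T := ⟨h1, h2, h3, h4, h5⟩
      have hM0 : G c₁ 0 = 0 := mem_M_iff.1 h1
      have hρ₁ : 1 < ‖mult n c₁ b₁‖ := hrho (c₁, b₁, z₁) htT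
      have hne : mul n (c₁, b₁) ≠ 1 := by
        intro h; rw [← mult_eq_mul] at h; rw [h, norm_one] at hρ₁; exact lt_irrefl _ hρ₁
      have h23 : ‖mul n (c₁, b₁)‖ < 23 / 10 := by
        rw [h3, norm_exp]
        have h6 : z₁.re ≤ 1 / 2 := (hdisc (c₁, b₁, z₁) htT).2.trans hr
        have h7 : Real.exp z₁.re ≤ Real.exp (1 / 2) := Real.exp_le_exp.2 h6
        have h8 : Real.exp (1 / 2) < 23 / 10 := by
          have h9 : Real.exp (1 / 2) ^ 2 < (23 / 10) ^ 2 := by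
            rw [← Real.exp_nat_mul]
            norm_num
            linarith [Real.exp_one_lt_d9]
          exact lt_of_pow_lt_pow_left₀ 2 (by norm_num) h9
        linarith
      -- a neighbourhood in the space of triples
      have hopn := hR.opn c₁ b₁ z₁ y h4
      have hexn := h5.nhds hn hM0 h2 hρ₁
      have hMn := hcon' (c₁, b₁, z₁) htT
      have hall : ∀ᶠ t : ℂ × ℂ × ℂ in 𝓝 (c₁, b₁, z₁), (t.1, t.2.1) ∈ Per n →
          mul n (t.1, t.2.1) = exp t.2.2 → t ∈ T := by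
        have hc : Tendsto (fun t : ℂ × ℂ × ℂ => ((t.1, t.2.1) : ℂ × ℂ)) (𝓝 (c₁, b₁, z₁))
            (𝓝 (c₁, b₁)) := by
          have : Continuous fun t : ℂ × ℂ × ℂ => ((t.1, t.2.1) : ℂ × ℂ) := by fun_prop
          exact this.tendsto _
        filter_upwards [hopn, hc.eventually hexn, hc.eventually hMn] with t a1 a2 a3 a4 a5
        have hm := a3 a4
        exact ⟨hm, a4, a5, a1 hm a4 a5, (a2 a4).1 (mem_M_iff.1 hm)⟩
      -- split as a product neighbourhood
      have hall' : ∀ᶠ q : (ℂ × ℂ) × ℂ in 𝓝 ((c₁, b₁), z₁), (q.1.1, q.1.2) ∈ Per n →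
          mul n (q.1.1, q.1.2) = exp q.2 → ((q.1.1, q.1.2, q.2) : ℂ × ℂ × ℂ) ∈ T := by
        have hc : Tendsto (fun q : (ℂ × ℂ) × ℂ => ((q.1.1, q.1.2, q.2) : ℂ × ℂ × ℂ))
            (𝓝 ((c₁, b₁), z₁)) (𝓝 (c₁, b₁, z₁)) := by
          have : Continuous fun q : (ℂ × ℂ) × ℂ => ((q.1.1, q.1.2, q.2) : ℂ × ℂ × ℂ) := by fun_prop
          exact this.tendsto _
        exact hc.eventually hall
      rw [nhds_prod_eq] at hall'
      obtain ⟨P1, hP1, P2, hP2, hPP⟩ := Filter.eventually_prod_iff.1 hall'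
      have hop := mul_open hn h2 hne h23 (N := {s | P1 s}) hP1
      rw [h3] at hop
      have hexp : Tendsto exp (𝓝 z₁) (𝓝 (exp z₁)) := continuous_exp.tendsto _
      filter_upwards [hexp.eventually hop, hP2] with z' h6 h7
      obtain ⟨s, ⟨h8, h9⟩, h10⟩ := h6
      exact ⟨(s.1, s.2, z'), hPP h8 h7 h9 h10, rfl⟩
    -- closed
    have hZc : closure Z ∩ {Y}ᶜ ⊆ Z := by
      rintro z ⟨hz, hzY⟩
      obtain ⟨u, hu, hulim⟩ := mem_closure_iff_seq_limit.1 hz
      choose t ht htu using hu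
      have hb1 : ∀ j, ‖(t j).1‖ ≤ 2 * Real.exp 1 + 100 := fun j => norm_MM_le (ht j).1
      have hb2 : ∀ j, ‖(t j).2.1‖ ≤ 1 + (2 * Real.exp 1 + 100) := by
        intro j
        have h3 : G (t j).1 (t j).2.1 = 0 := G_zero_of_per hn (ht j).2.1
        have h4 := norm_le_of_G_zero h3
        linarith [hb1 j]
      have hmem : ∀ j, ((t j).1, (t j).2.1) ∈ closedBall (0 : ℂ) (2 * Real.exp 1 + 100) ×ˢ
          closedBall (0 : ℂ) (1 + (2 * Real.exp 1 + 100)) := fun j =>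
        ⟨mem_closedBall_zero_iff.2 (hb1 j), mem_closedBall_zero_iff.2 (hb2 j)⟩
      obtain ⟨s, -, φ, hφ, hlim⟩ := ((isCompact_closedBall (0 : ℂ) (2 * Real.exp 1 + 100)).prod
        (isCompact_closedBall (0 : ℂ) (1 + (2 * Real.exp 1 + 100)))).tendsto_subseq hmem
      obtain ⟨c₁, b₁⟩ := s
      have hul : Tendsto (fun j => (t (φ j)).2.2) atTop (𝓝 z) := by
        have h1 : (fun j => (t (φ j)).2.2) = u ∘ φ := funext fun j => htu (φ j)
        rw [h1]; exact hulim.comp hφ.tendsto_atTop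
      have hsP : (c₁, b₁) ∈ Per n :=
        (isClosed_Per n).mem_of_tendsto hlim (Eventually.of_forall fun j => (ht (φ j)).2.1)
      have hc1 : Tendsto (fun j => (t (φ j)).1) atTop (𝓝 c₁) :=
        (continuous_fst.tendsto (c₁, b₁)).comp hlim
      have hsM : c₁ ∈ MM := by
        by_contra hM'
        rw [Sat.not_mem_MM_iff] at hM'
        have h3 : Tendsto (fun j => G (t (φ j)).1 (t (φ j)).1) atTop (𝓝 (G c₁ c₁)) :=
          (continuous_G_diag.tendsto c₁).comp hc1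
        have h4 : Tendsto (fun j => G (t (φ j)).1 (t (φ j)).1) atTop (𝓝 0) := by
          have h5 : (fun j => G (t (φ j)).1 (t (φ j)).1) = fun _ => 0 := funext fun j => by
            have h6 : G (t (φ j)).1 0 = 0 := mem_M_iff.1 (ht (φ j)).1
            rw [G_c_eq, h6, mul_zero]
          rw [h5]; exact tendsto_const_nhds
        rw [tendsto_nhds_unique h3 h4] at hM'
        exact lt_irrefl _ hM'
      have hsm : mul n (c₁, b₁) = exp z := by
        have h3 : Tendsto (fun j => mul n ((t (φ j)).1, (t (φ j)).2.1)) atTop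
            (𝓝 (mul n (c₁, b₁))) := ((continuous_mul' n).tendsto _).comp hlim
        have h4 : Tendsto (fun j => exp (t (φ j)).2.2) atTop (𝓝 (exp z)) :=
          (continuous_exp.tendsto _).comp hul
        have h5 : (fun j => mul n ((t (φ j)).1, (t (φ j)).2.1)) = fun j => exp (t (φ j)).2.2 :=
          funext fun j => (ht (φ j)).2.2.1
        rw [h5] at h3
        exact tendsto_nhds_unique h3 h4
      have hzp : ‖z - Y‖ ^ 2 ≤ r * z.re := by
        have h3 : Tendsto (fun j => ‖(t (φ j)).2.2 - Y‖ ^ 2) atTop (𝓝 (‖z - Y‖ ^ 2)) :=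
          ((hul.sub_const Y).norm).pow 2
        have h4 : Tendsto (fun j => r * (t (φ j)).2.2.re) atTop (𝓝 (r * z.re)) :=
          ((continuous_re.tendsto _).comp hul).const_mul r
        exact le_of_tendsto_of_tendsto' h3 h4 fun j => hply _ (ht (φ j))
      have hzre : 0 < z.re := by
        have h3 : 0 < ‖z - Y‖ := norm_pos_iff.2 (sub_ne_zero.2 hzY)
        have h4 : 0 < r * z.re := lt_of_lt_of_le (by positivity) hzp
        exact (mul_pos_iff_of_pos_left hr0).1 h4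
      obtain ⟨y', hy'⟩ := hR.ex c₁ b₁ z hsP hsm hzre hsM
      have htl : Tendsto (fun j => (((t (φ j)).1, (t (φ j)).2.1, (t (φ j)).2.2) : ℂ × ℂ × ℂ)) atTop
          (𝓝 (c₁, b₁, z)) := by
        have hb1' : Tendsto (fun j => (t (φ j)).2.1) atTop (𝓝 b₁) :=
          (continuous_snd.tendsto (c₁, b₁)).comp hlim
        exact hc1.prodMk_nhds (hb1'.prodMk_nhds hul)
      obtain ⟨j, hj⟩ := (htl.eventually (hR.opn c₁ b₁ z y' hy')).exists
      have hyy : y' = y := hR.uniq _ _ _ _ _ (hj (ht (φ j)).1 (ht (φ j)).2.1 (ht (φ j)).2.2.1)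
        (ht (φ j)).2.2.2.1
      have hρ₁ : 1 < ‖mult n c₁ b₁‖ := by
        rw [mult_eq_mul, hsm, norm_exp]; exact Real.one_lt_exp_iff.2 hzre
      have hE₁ : Ex n x c₁ b₁ := by
        have hfr : ∃ᶠ y : ℂ × ℂ in 𝓝 (c₁, b₁), y ∈ Per n ∧ G y.1 0 = 0 ∧ Ex n x y.1 y.2 := by
          refine hlim.frequently (Eventually.frequently (Eventually.of_forall fun j => ?_))
          exact ⟨(ht (φ j)).2.1, mem_M_iff.1 (ht (φ j)).1, (ht (φ j)).2.2.2.2⟩
        exact ex_closed' hn (mem_M_iff.1 hsM) hsP hρ₁ hfr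
      exact ⟨(c₁, b₁, z), ⟨hsM, hsP, hsm, hyy ▸ hy', hE₁⟩, rfl⟩
    have hpc : IsPreconnected ({Y}ᶜ : Set ℂ) := by
      refine (isConnected_compl_singleton_of_one_lt_rank ?_ Y).isPreconnected
      simp
    have hLZ : L ∈ Z := ⟨_, hT0, rfl⟩
    have hLY : L ≠ Y := by
      intro h; rw [h, hYre] at hre; exact lt_irrefl _ hre
    have hsub := hpc.subset_of_closure_inter_subset hZo ⟨L, hLY, hLZ⟩ hZc
    have h1 : Y + ((r + 1 : ℝ) : ℂ) ∈ Z := by
      apply hsub
      intro h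
      have h2 : ((r + 1 : ℝ) : ℂ) = 0 := by
        have h3 : Y + ((r + 1 : ℝ) : ℂ) = Y := h
        simpa using h3
      have h3 : (r + 1 : ℝ) = 0 := by exact_mod_cast h2
      linarith
    have h2 := hZY _ h1
    have h3 : Y + ((r + 1 : ℝ) : ℂ) - Y = ((r + 1 : ℝ) : ℂ) := by ring
    rw [h3, Complex.norm_real, Real.norm_eq_abs, abs_of_pos (by linarith)] at h2
    linarith
  obtain ⟨t, ht, hf⟩ := hex
  -- conclusion
  have hs0 : 0 < Real.sqrt (n * r) := Real.sqrt_pos.2 (by positivity)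
  obtain ⟨ε, hε0, hε⟩ : ∃ ε > 0, ε + 9 * Real.sqrt (n * (r + ε)) ≤ 10 * Real.sqrt (n * r) := by
    have hc : ContinuousAt (fun ε : ℝ => ε + 9 * Real.sqrt (n * (r + ε))) 0 := by fun_prop
    have h1 : (0 : ℝ) + 9 * Real.sqrt (n * (r + 0)) < 10 * Real.sqrt (n * r) := by
      rw [add_zero, zero_add]; linarith
    have h2 := hc.eventually (gt_mem_nhds h1)
    obtain ⟨δ, hδ, hδ2⟩ := Metric.eventually_nhds_iff.1 h2
    refine ⟨δ / 2, by positivity, (hδ2 ?_).le⟩
    rw [Real.dist_eq, sub_zero, abs_of_pos (by positivity)]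
    linarith
  obtain ⟨j, hj⟩ := near_of_frequently hn ht.1 ht.2.1 ht.2.2.1 (hre' t ht) ht.2.2.2.2 hf hε0
  refine ⟨j, ?_⟩
  have h1 := (hdisc t ht).2
  have h2 : ε + 9 * Real.sqrt (n * (t.2.2.re + ε)) ≤ 10 * Real.sqrt (n * r) := by
    refine le_trans ?_ hε
    gcongr
  have e1 : L - axisPt x - 2 * Real.pi * j * I
      = (L - Y) - (t.2.2 - Y) + (t.2.2 - axisPt x - 2 * Real.pi * j * I) := by ring
  rw [e1]
  refine (norm_add_le _ _).trans ?_
  have h3 : ‖(L - Y) - (t.2.2 - Y)‖ ≤ r + r :=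
    (norm_sub_le _ _).trans (add_le_add (hdisc _ hT0).1 (hdisc t ht).1)
  linarith

/-- `Rt` over `MM` gives `Ex` -/
lemma ex_of_rt {n : ℕ} {x : ℚ} {c a : ℂ} (hM : c ∈ MM)
    (h : Sat.Rt n (c, a) x) : Ex n x c a := by
  have hM0 : G c 0 = 0 := mem_M_iff.1 hM
  rcases h with ⟨θ, w, hE, -⟩ | ⟨-, B, θ, w, hF, hw, hfit, hfr⟩
  · exact absurd hM0 (Sat.extP_G_ne hE)
  · obtain ⟨β, hβ, q, hq, hpq⟩ := hF.two
    have hcomp : Compat β θ w := hfit.compat hβ (hF.land β hβ)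
    obtain ⟨P, hP1, hP2⟩ := nu_of_compat hpq hw.per hcomp
    have h1 : Circ.nu w n θ = x + (⌊Circ.nu w n θ⌋ : ℤ) := by
      have := Int.self_sub_floor (Circ.nu w n θ)
      rw [hfr] at this
      linarith
    have hqx : q = x.den := den_of_eq hpq.1 hP1 (hP2.symm.trans h1)
    exact ⟨β, hqx ▸ land_of_lands hM0 hpq (hF.land β hβ), θ, w, hw.per, hcomp, _, h1⟩

end BarM

end Pool.Agent.Work.MLC
end

section
set_option autoImplicit false

/-! # The identification in the form of the final glue (helper34) -/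

namespace Pool.Agent.Work.MLC.Pri

open Filter Topology Metric Set Complex

/-- the labels given by the identification -/
def LblI (n : ℕ) (η : ℝ) (x : ℂ × ℂ) (L : ℂ) (w : ℕ → ℤ) (k : ℤ) : Prop :=
  L ∈ HD η ∧ ∃ σ τ, Ident n η w k σ τ L x

/-- two descriptions of labels of the same cycle -/
theorem sameCyc45_of {n : ℕ} {w w' : ℕ → ℤ} {k k' : ℤ} {t t' : ℝ} (hw : Bits n w)
    (ht : LeftEnd n w k t) (ht' : LeftEnd n w' k' t') (h : SameCyc w t w' t') :
    ∃ i₀, SameCyc45 n w k w' k' i₀ := by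
  obtain ⟨i, m, h1, h2⟩ := h
  have h1' : ∀ j, Even (w' j - (fun j => w (j + i)) j - m) := by
    intro j
    have := h1 j
    rwa [add_comm i j] at this
  obtain ⟨K, hK⟩ := nu_parity h1' n
  have hK2 : ∀ θ, Circ.nu w' n (θ + ((-m : ℤ) : ℝ)) = Circ.nu w n θ + K := by
    intro θ
    rw [hK, Sat.s1_rot n w i _ hw]
    congr 2
    push_cast; ring
  have hkk : (k' : ℝ) = k + K := by
    rw [← ht'.1, ← ht.1, ← hK2 t]
    congr 1
    rw [h2]; push_cast; ring
  refine ⟨i, -m, fun j => ?_, fun θ => ?_⟩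
  · obtain ⟨u, hu⟩ := h1' j
    simp only at hu
    exact ⟨u + m, by omega⟩
  · rw [hK2, hkk]; ring

/-- **the identification** -/
theorem exists_ID (n : ℕ) (η : ℝ) (hn : 0 < n) (hη : 0 < η) (hη1 : η ≤ 1) :
    ∃ Lbl, ID n η Lbl := by
  refine ⟨LblI n η, ?_, ?_⟩
  · intro x L hx hex hm hre hL
    obtain ⟨w, k, σ, τ, hI⟩ := exists_ident hn hη hη1 hx hex hm ⟨hre, hL⟩
    refine ⟨w, k, hI.wide.word hI.exa, ⟨⟨hre, hL⟩, σ, τ, hI⟩, ?_⟩
    intro P hP t ht δ hδ
    obtain ⟨y, θ, -, h2, h3, h4⟩ := hI.reach hη hη1 ⟨hre, hL⟩ hP (s := t + δ)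
      (ht.2 _ (by linarith))
    refine ⟨y.1, θ, h2.1.ang, ?_, h3, h4⟩
    by_contra hcon
    push Not at hcon
    have h5 := Circ.nu_mono w n hcon
    rw [ht.1] at h5
    exact absurd h2.2.1 (not_lt.2 h5)
  · intro x y L w k w' k' t t' hl hl' ht ht' hs
    obtain ⟨hL, σ, τ, hI⟩ := hl
    obtain ⟨-, σ', τ', hI'⟩ := hl'
    obtain ⟨i₀, hc⟩ := sameCyc45_of hI.wide.bits ht ht' hs
    have h1 := Ident.same_param hη hη1 hI hI' hc L hL
    rw [hI'.eq, hI.eq] at h1
    exact (congrArg Prod.fst h1).symm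

end Pool.Agent.Work.MLC.Pri
end

section
set_option autoImplicit false

/-! # The two cuts with small exponents (helper49)

`V` has period `m`, the cycles have period `n ≤ N`, `M = N / m + 2`, `Q` is the denominator of `x`;
only fractions of denominator at most `M` are avoided; `r = 1 / (8 m Q M ^ 2)`, the denominators of
the cut values are of size `m ^ 2 Q M ^ 2`, the depth of the rectangle is `1 / (Q M)`. -/

namespace Pool.Agent.Work.MLC.Pri

open Filter Topology Metric Set Complex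
open PriHar (Oth)

/-- the order of the fractions to be avoided -/
def MM' (N m : ℕ) : ℕ := N / m + 2

lemma two_le_MM' (N m : ℕ) : 2 ≤ MM' N m := Nat.le_add_left 2 _

lemma mul_MM'_le {N m : ℕ} (hmN : m ≤ N) : m * MM' N m ≤ 3 * N := by
  have h1 : m * (N / m) ≤ N := Nat.mul_div_le N m
  unfold MM'
  rw [mul_add]
  omega

lemma MM'_le (N m : ℕ) : MM' N m ≤ N + 2 := by
  unfold MM'
  have := Nat.div_le_self N m
  omega

/-- the radius -/
noncomputable def rE (m Q M : ℕ) : ℝ := 1 / (8 * m * (Q * (M : ℝ) ^ 2))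

/-- far from the fractions of small denominator, weighted -/
def FarE (q M : ℕ) (x : ℝ) : Prop := ∀ (P : ℤ) (Q : ℕ), 0 < Q → Q ≤ M →
  1 / (16 * (q * (M : ℝ) ^ 2)) ≤ ((P : ℝ) / Q - x) ^ 2 * Q

/-- **the cut values** (arithmetic) -/
theorem exists_valuesE {M m : ℕ} (hM : 2 ≤ M) (hm : 0 < m) {x : ℚ} (h0 : 0 < x) (h1 : x < 1)
    (hx : x.den ≤ M) :
    ∃ x₁ x₂ : ℚ, 1 / (2 * (x.den : ℝ)) ≤ x₁ ∧ (x₁ : ℝ) < x ∧ (x : ℝ) < x₂ ∧
      (x₂ : ℝ) ≤ 1 - 1 / (2 * (x.den : ℝ)) ∧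
      1 / (4 * (x.den : ℝ) * M) < x - x₁ ∧ (x : ℝ) - x₁ < 1 / (2 * (x.den : ℝ) * M) ∧
      1 / (4 * (x.den : ℝ) * M) < x₂ - x ∧ (x₂ : ℝ) - x < 1 / (2 * (x.den : ℝ) * M) ∧
      FarE x.den M x₁ ∧ FarE x.den M x₂ ∧
      2 ^ 8 * (m ^ 2 * (x.den * M ^ 2)) ≤ x₁.den ∧ x₁.den ≤ 2 ^ 9 * (m ^ 2 * (x.den * M ^ 2)) ∧
      2 ^ 8 * (m ^ 2 * (x.den * M ^ 2)) ≤ x₂.den ∧
      x₂.den ≤ 2 ^ 9 * (m ^ 2 * (x.den * M ^ 2)) := by
  have hMr : (2 : ℝ) ≤ M := by exact_mod_cast hM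
  have hm1 : (1 : ℝ) ≤ m := by exact_mod_cast hm
  have hQ0 : (0 : ℝ) < x.den := by exact_mod_cast x.pos
  have hQ1 : (1 : ℝ) ≤ x.den := by exact_mod_cast x.pos
  have hQM : (x.den : ℝ) ≤ M := by exact_mod_cast hx
  obtain ⟨κ, hκ1, hκ2⟩ := exists_kappa (2 ^ 8 * (m ^ 2 * (x.den * M ^ 2)))
    (by have := x.pos; positivity)
  have hκr : 2 ^ 8 * ((m : ℝ) ^ 2 * (x.den * (M : ℝ) ^ 2)) ≤ 2 ^ κ := by exact_mod_cast hκ1
  have h2κ : (0 : ℝ) < 2 ^ κ := by positivity
  -- the spacing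
  have hsp : 2 / (2 : ℝ) ^ κ < 1 / (4 * (x.den : ℝ) * M) := by
    rw [div_lt_div_iff₀ h2κ (by positivity)]
    have e1 : (x.den : ℝ) * M ≤ x.den * (M : ℝ) ^ 2 := by
      have : (M : ℝ) ≤ (M : ℝ) ^ 2 := le_self_pow₀ (by linarith only [hMr]) two_ne_zero
      exact mul_le_mul_of_nonneg_left this hQ0.le
    have e2 : x.den * (M : ℝ) ^ 2 ≤ (m : ℝ) ^ 2 * (x.den * (M : ℝ) ^ 2) :=
      le_mul_of_one_le_left (by positivity) (one_le_pow₀ hm1)
    have e3 : (0 : ℝ) < x.den * (M : ℝ) ^ 2 := by positivity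
    linarith only [hκr, e1, e2, e3]
  set u : ℝ := 1 / (4 * (x.den : ℝ) * M) with hu
  have hu0 : 0 < u := by positivity
  have hu2 : 1 / (2 * (x.den : ℝ) * M) = 2 * u := by rw [hu]; field_simp; norm_num
  obtain ⟨a, ha, ha1, ha2⟩ := exists_odd49 κ (a := (x : ℝ) - 2 * u)
  obtain ⟨b, hb, hb1, hb2⟩ := exists_odd49 κ (a := (x : ℝ) + u)
  have e1 : (((a : ℚ) / ((2 ^ κ : ℕ) : ℚ) : ℚ) : ℝ) = (a : ℝ) / 2 ^ κ := by push_cast; rfl
  have e2 : (((b : ℚ) / ((2 ^ κ : ℕ) : ℚ) : ℚ) : ℝ) = (b : ℝ) / 2 ^ κ := by push_cast; rfl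
  have hxe : (x : ℝ) = (x.num : ℝ) / (x.den : ℝ) := Rat.cast_def x
  have hx0 : 1 / (x.den : ℝ) ≤ x := by
    have h3 : (1 : ℝ) ≤ x.num := by exact_mod_cast Rat.num_pos.2 h0
    rw [hxe]; gcongr
  have hx1 : (x : ℝ) ≤ 1 - 1 / x.den := by
    have h3 : x.num + 1 ≤ (x.den : ℤ) := by
      have h4 : x.num < x.den := by
        have h6 := (Rat.lt_iff x 1).1 h1
        simpa using h6
      omega
    have h4 : (x.num : ℝ) + 1 ≤ x.den := by exact_mod_cast h3
    rw [hxe, div_le_iff₀ hQ0, sub_mul, one_div_mul_cancel hQ0.ne']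
    linarith only [h4]
  have hinv : 2 * u ≤ 1 / (2 * x.den) := by
    rw [← hu2]
    exact one_div_le_one_div_of_le (by positivity)
      (le_mul_of_one_le_right (by positivity) (by linarith only [hMr]))
  have hinv2 : 1 / (x.den : ℝ) = 2 * (1 / (2 * x.den)) := by field_simp
  -- the general distance estimate
  have hfar : ∀ z : ℝ, u < |x - z| → |x - z| < 2 * u → FarE x.den M z := by
    intro z hz1 hz2 P Q hQ hQM'
    have hQr : (0 : ℝ) < Q := by exact_mod_cast hQ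
    have hQMr : (Q : ℝ) ≤ M := by exact_mod_cast hQM'
    by_cases he : (P : ℝ) / Q = (x : ℝ)
    · have hQx : x.den ≤ Q := by
        have h3 : x = (P : ℚ) / (Q : ℚ) := by
          have : ((x : ℚ) : ℝ) = (((P : ℚ) / (Q : ℚ) : ℚ) : ℝ) := by push_cast; exact he.symm
          exact_mod_cast this
        have h4 : (x.den : ℤ) ∣ (Q : ℤ) := by
          have h5 := Rat.den_dvd P Q
          rw [Rat.divInt_eq_div] at h5
          rw [h3]; exact_mod_cast h5
        exact Nat.le_of_dvd hQ (by exact_mod_cast h4)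
      have hQx' : (x.den : ℝ) ≤ Q := by exact_mod_cast hQx
      rw [he]
      have h5 : u ^ 2 ≤ ((x : ℝ) - z) ^ 2 := by
        rw [← sq_abs ((x : ℝ) - z)]
        exact pow_le_pow_left₀ hu0.le hz1.le 2
      calc 1 / (16 * (x.den * (M : ℝ) ^ 2)) = u ^ 2 * x.den := by
            rw [hu]; field_simp; norm_num
        _ ≤ ((x : ℝ) - z) ^ 2 * Q := mul_le_mul h5 hQx' hQ0.le (sq_nonneg _)
    · -- different fractions
      have h3 : 1 / ((x.den : ℝ) * Q) ≤ |(P : ℝ) / Q - x| := by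
        rw [hxe]
        have e3 : (P : ℝ) / Q - (x.num : ℝ) / x.den = ((P * x.den - x.num * Q : ℤ) : ℝ) / (Q * x.den) := by
          push_cast
          field_simp
        have hz : (P * x.den - x.num * Q : ℤ) ≠ 0 := by
          intro h
          apply he
          rw [hxe]
          have : (P : ℝ) / Q - (x.num : ℝ) / x.den = 0 := by rw [e3, h]; simp
          exact sub_eq_zero.1 this
        have h4 : (1 : ℝ) ≤ |((P * x.den - x.num * Q : ℤ) : ℝ)| := by
          exact_mod_cast Int.one_le_abs hz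
        rw [e3, abs_div, abs_of_pos (mul_pos hQr hQ0), mul_comm (x.den : ℝ)]
        gcongr
      have h4 : 2 * (2 * u) ≤ 1 / ((x.den : ℝ) * Q) := by
        have : 2 * (2 * u) = 1 / ((x.den : ℝ) * M) := by rw [hu]; field_simp; norm_num
        rw [this]
        exact one_div_le_one_div_of_le (by positivity) (mul_le_mul_of_nonneg_left hQMr hQ0.le)
      have h5 : 1 / (2 * ((x.den : ℝ) * Q)) ≤ |(P : ℝ) / Q - z| := by
        have h6 : |(P : ℝ) / Q - x| ≤ |(P : ℝ) / Q - z| + |x - z| := by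
          have := abs_sub_le ((P : ℝ) / Q) z x
          rwa [abs_sub_comm z x] at this
        have h7 : 1 / (2 * ((x.den : ℝ) * Q)) = 1 / ((x.den : ℝ) * Q) / 2 := by field_simp
        rw [h7]
        linarith only [h3, h4, h6, hz2]
      calc 1 / (16 * (x.den * (M : ℝ) ^ 2)) ≤ (1 / (2 * ((x.den : ℝ) * Q))) ^ 2 * Q := by
            rw [div_pow, one_pow, div_mul_eq_mul_div, one_mul,
              div_le_div_iff₀ (by positivity) (by positivity)]
            have e3 : (2 * ((x.den : ℝ) * Q)) ^ 2 = 4 * (x.den * (x.den * Q)) * Q := by ring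
            rw [e3, one_mul]
            have e4 : x.den * ((x.den : ℝ) * Q) ≤ x.den * (M * M) :=
              mul_le_mul_of_nonneg_left (mul_le_mul hQM hQMr hQr.le (by linarith only [hMr])) hQ0.le
            have e5 : 4 * (x.den * ((x.den : ℝ) * Q)) * Q ≤ 4 * (x.den * (M * M)) * Q :=
              mul_le_mul_of_nonneg_right (mul_le_mul_of_nonneg_left e4 (by norm_num)) hQr.le
            have e6 : (0 : ℝ) ≤ (x.den * (M * M)) * Q := by positivity
            linarith only [e5, e6]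
        _ ≤ |(P : ℝ) / Q - z| ^ 2 * Q :=
          mul_le_mul_of_nonneg_right (pow_le_pow_left₀ (by positivity) h5 2) hQr.le
        _ = _ := by rw [sq_abs]
  have A1 : u < (x : ℝ) - (a : ℝ) / 2 ^ κ := by linarith only [ha1, ha2, hsp]
  have A2 : (x : ℝ) - (a : ℝ) / 2 ^ κ < 2 * u := by linarith only [ha1, ha2, hsp]
  have B1 : u < (b : ℝ) / 2 ^ κ - x := by linarith only [hb1, hb2, hsp]
  have B2 : (b : ℝ) / 2 ^ κ - x < 2 * u := by linarith only [hb1, hb2, hsp]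
  refine ⟨(a : ℚ) / ((2 ^ κ : ℕ) : ℚ), (b : ℚ) / ((2 ^ κ : ℕ) : ℚ), ?_, ?_, ?_, ?_, ?_, ?_, ?_, ?_,
    ?_, ?_, ?_, ?_, ?_, ?_⟩
  · rw [e1]; linarith only [A2, hx0, hinv, hinv2]
  · rw [e1]; linarith only [A1, hu0]
  · rw [e2]; linarith only [B1, hu0]
  · rw [e2]; linarith only [B2, hx1, hinv, hinv2]
  · rw [e1]; exact A1
  · rw [e1, hu2]; exact A2
  · rw [e2]; exact B1
  · rw [e2, hu2]; exact B2
  · rw [e1]
    have A3 := abs_of_pos (hu0.trans A1)
    exact hfar _ (A1.trans_eq A3.symm) (A3.trans_lt A2)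
  · rw [e2]
    have B3 : |(x : ℝ) - (b : ℝ) / 2 ^ κ| = (b : ℝ) / 2 ^ κ - x := by
      rw [abs_sub_comm]; exact abs_of_pos (hu0.trans B1)
    exact hfar _ (B1.trans_eq B3.symm) (B3.trans_lt B2)
  · rw [den_odd a κ ha]; exact hκ1
  · rw [den_odd a κ ha]
    calc 2 ^ κ ≤ 2 * (2 ^ 8 * (m ^ 2 * (x.den * M ^ 2))) := hκ2
      _ = _ := by ring
  · rw [den_odd b κ hb]; exact hκ1
  · rw [den_odd b κ hb]
    calc 2 ^ κ ≤ 2 * (2 ^ 8 * (m ^ 2 * (x.den * M ^ 2))) := hκ2
      _ = _ := by ring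

end Pool.Agent.Work.MLC.Pri
end

section
set_option autoImplicit false

/-! # The exterior PLY inequality for a given logarithm; the centre `0` (helper13) -/

namespace Pool.Agent.Work.MLC

open Filter Topology Metric Set Complex Pool.Agent.Work.MLC.Sat

/-- the exterior PLY inequality for a given logarithm -/
lemma ply_of_ext {n : ℕ} (hn : 0 < n) {x : ℚ} {k : ℤ} {L : ℂ} {y : ℂ × ℂ} {θ : ℝ} {w : ℕ → ℤ}
    (hE : ExtP n y.1 y.2 θ w) (hν : Circ.nu w n θ = x + k) (hL : mul n y = exp L)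
    (h23 : ‖mul n y‖ < 23 / 10) (h1 : ‖L - axisPt x‖ ≤ 1) (h2 : 81 * n * L.re ≤ 1) :
    ‖L - axisPt x‖ ^ 2 ≤ 81 * n * L.re := by
  obtain ⟨-, ℓ, hℓ, hply⟩ := extP_ply hn hE (G_le_four_of_mul_lt hn hE.2.2.1 h23)
  have h3 : exp ℓ = exp L := by rw [hℓ, ← hL]; rfl
  rw [Complex.exp_eq_exp_iff_exists_int] at h3
  obtain ⟨m, hm⟩ := h3
  have hre : ℓ.re = L.re := by rw [hm]; simp
  rw [hre, hν] at hply
  have h4 : ‖ℓ - 2 * Real.pi * ((x + k : ℝ) : ℂ) * I‖ ≤ 1 := by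
    apply le_of_sq_le_sq _ (by norm_num)
    linarith
  have h5 : ℓ - 2 * Real.pi * ((x + k : ℝ) : ℂ) * I = (L - axisPt x) + ((2 * Real.pi * (m - k) : ℝ) : ℂ) * I := by
    rw [hm]; unfold axisPt; push_cast; ring
  have h6 : ‖((2 * Real.pi * (m - k) : ℝ) : ℂ) * I‖ ≤ 2 := by
    have h7 : ((2 * Real.pi * (m - k) : ℝ) : ℂ) * I
        = (ℓ - 2 * Real.pi * ((x + k : ℝ) : ℂ) * I) - (L - axisPt x) := by rw [h5]; ring
    rw [h7]
    exact (norm_sub_le _ _).trans (by linarith)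
  have hmk : m = k := by
    rw [norm_mul, Complex.norm_I, mul_one, Complex.norm_real, Real.norm_eq_abs, abs_mul,
      abs_of_pos (by positivity : (0 : ℝ) < 2 * Real.pi)] at h6
    have hpi := Real.pi_gt_three
    have h7 : |((m - k : ℤ) : ℝ)| < 1 := by
      push_cast
      by_contra hcon
      push Not at hcon
      linarith [mul_le_mul_of_nonneg_left hcon (by positivity : (0 : ℝ) ≤ 2 * Real.pi)]
    have h8 : |(m - k : ℤ)| < 1 := by exact_mod_cast h7
    have h9 := Int.abs_lt_one_iff.1 h8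
    omega
  rw [h5, hmk] at hply
  simpa using hply

/-- no point over the centre `0` has a multiplier of modulus in `(1, 2)` -/
lemma zero_mult {n : ℕ} (hn : 0 < n) {b : ℂ} (hb : it 0 n b = b) (h1 : 1 < ‖mul n (0, b)‖) :
    2 ≤ ‖mul n (0, b)‖ := by
  have hit : ∀ k, it 0 k b = b ^ 2 ^ k := by
    intro k
    induction k with
    | zero => simp [it]
    | succ k ih =>
      rw [it_succ, ih, f_apply, add_zero, ← pow_mul, pow_succ]
  have hmul : ∀ k, ‖mult k 0 b‖ = 2 ^ k * ∏ i ∈ Finset.range k, ‖b‖ ^ 2 ^ i := by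
    intro k
    induction k with
    | zero => simp [mult]
    | succ k ih =>
      have : mult (k + 1) 0 b = mult k 0 b * (2 * it 0 k b) := by
        simp [mult, Finset.prod_range_succ]
      rw [this, norm_mul, ih, hit, Finset.prod_range_succ]
      simp [pow_succ]; ring
  have hmn := hmul n
  have hb0 : b ≠ 0 := by
    rintro rfl
    have : mult n 0 0 = 0 := by
      rw [← norm_eq_zero, hmn]
      have : ∏ i ∈ Finset.range n, ‖(0 : ℂ)‖ ^ 2 ^ i = 0 :=
        Finset.prod_eq_zero (Finset.mem_range.2 hn) (by simp)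
      rw [this, mul_zero]
    have h2 : mul n (0, 0) = 0 := this
    rw [h2, norm_zero] at h1
    linarith
  have hnb : ‖b‖ = 1 := by
    have h2 : ‖b‖ ^ 2 ^ n = ‖b‖ := by rw [← norm_pow, ← hit, hb]
    have h3 : 0 < ‖b‖ := norm_pos_iff.2 hb0
    have h4 : ‖b‖ ^ (2 ^ n - 1) = 1 := by
      have h5 : 2 ^ n = (2 ^ n - 1) + 1 := (Nat.sub_add_cancel Nat.one_le_two_pow).symm
      rw [h5, pow_succ] at h2
      exact mul_right_cancel₀ h3.ne' (by rw [h2, one_mul])
    refine (pow_eq_one_iff_of_nonneg h3.le ?_).1 h4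
    have : 2 ^ 1 ≤ 2 ^ n := Nat.pow_le_pow_right (by norm_num) hn
    omega
  have : ‖mul n (0, b)‖ = 2 ^ n := by
    have : mul n (0, b) = mult n 0 b := rfl
    rw [this, hmn, hnb]; simp
  rw [this]
  calc (2 : ℝ) = 2 ^ 1 := (pow_one _).symm
    _ ≤ 2 ^ n := pow_le_pow_right₀ (by norm_num) hn

end Pool.Agent.Work.MLC
end

section
set_option autoImplicit false

/-! # Combinatorial and analytic rotation numbers agree over `MM` (helper59)

`ex_exact`: if a ray of combinatorial rotation number `x` lands at the repelling point `b` over `MM`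
and `100 n ^ 2 ≤ x.den * min (x, 1 - x) ^ 2`, then, after a shift by a multiple of `2 π i`, the
logarithm of the multiplier has (analytic) rotation number `x`, so it is in the PLY disc of `x`. -/

namespace Pool.Agent.Work.MLC

open Filter Topology Metric Set Complex Pool.Agent.Work.MLC.Sat

namespace BarM

/-- the main step: `L` near `2 π i x` -/
theorem exact_aux {n : ℕ} (hn : 0 < n) {x : ℚ} (hx0 : 0 < x) (hx1 : x < 1)
    (hQ : 100 * (n : ℝ) ^ 2 ≤ x.den * (min (x : ℝ) (1 - x)) ^ 2) {c b L : ℂ} (hM : c ∈ MM)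
    (hper : (c, b) ∈ Per n) (hmul : mul n (c, b) = exp L) (hre : 0 < L.re) (hE : Ex n x c b)
    (hLx : ‖L - axisPt x‖ ≤ 2 * (2 * n * Real.log 2 / x.den) +
      10 * Real.sqrt (n * (2 * n * Real.log 2 / x.den))) : Tr.RotT n c b L x := by
  have hn1 : (1 : ℝ) ≤ n := by exact_mod_cast hn
  have hn0 : (0 : ℝ) < n := by linarith
  have hlog0 : 0 < Real.log 2 := Real.log_pos (by norm_num)
  have hlog : Real.log 2 < 0.7 := by linarith [Real.log_two_lt_d9]
  have hR := Tr.rotData hn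
  have hx0' : (0 : ℝ) < x := by exact_mod_cast hx0
  have hx1' : (x : ℝ) < 1 := by exact_mod_cast hx1
  have hq0 : (0 : ℝ) < x.den := by exact_mod_cast x.pos
  have hpi3 := Real.pi_gt_three
  set μ : ℝ := min (x : ℝ) (1 - x) with hμ
  have hμ0 : 0 < μ := lt_min hx0' (by linarith)
  have hμ1 : μ ≤ 1 / 2 := by
    rcases le_total (x : ℝ) (1 / 2) with h | h
    · exact (min_le_left _ _).trans h
    · exact (min_le_right _ _).trans (by linarith)
  set r : ℝ := 2 * n * Real.log 2 / x.den with hr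
  have hr0 : 0 < r := by rw [hr]; positivity
  -- the size of `r`
  have hnr : n * r ≤ 0.014 * μ ^ 2 := by
    rw [hr, ← mul_div_assoc, div_le_iff₀ hq0]
    have h1 : (n : ℝ) * (2 * n * Real.log 2) = (2 * Real.log 2) * n ^ 2 := by ring
    rw [h1]
    have h2 : (2 * Real.log 2) * (n : ℝ) ^ 2 ≤ 1.4 * n ^ 2 :=
      mul_le_mul_of_nonneg_right (by linarith) (by positivity)
    linarith
  have hμ2 : μ ^ 2 ≤ 1 / 2 * μ := by rw [sq]; exact mul_le_mul_of_nonneg_right hμ1 hμ0.le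
  have hrμ : r ≤ 0.007 * μ := by
    have h1 : r ≤ n * r := le_mul_of_one_le_left hr0.le hn1
    linarith
  have hsq : Real.sqrt (n * r) ≤ 0.12 * μ := by
    rw [Real.sqrt_le_left (by positivity)]
    have h1 : (0.12 * μ) ^ 2 = 0.0144 * μ ^ 2 := by ring
    rw [h1]
    linarith [sq_nonneg μ]
  have hLx' : ‖L - axisPt x‖ ≤ 1.25 * μ := by linarith
  -- the rotation number
  obtain ⟨p, hy, -⟩ := hE.ply' hn hM hper hmul hre
  set y : ℚ := (p : ℚ) / (x.den : ℚ) with hydef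
  set Y : ℂ := axisPt y with hY
  have hYre : Y.re = 0 := axisPt_re13 y
  have ha0 : (axisPt x).re = 0 := axisPt_re13 x
  have hK : ∀ z : ℂ, ‖z - Y‖ ^ 2 ≤ r * z.re → ‖z - Y‖ ≤ r := fun z hz =>
    (mem_disc hYre hr0.le hz).1
  have hKre : ∀ z : ℂ, ‖z - Y‖ ^ 2 ≤ r * z.re → z.re ≤ r := fun z hz =>
    (mem_disc hYre hr0.le hz).2
  have hply : ∀ z c' b' : ℂ, c' ∈ MM → (c', b') ∈ Per n → mul n (c', b') = exp z → 0 < z.re →
      Tr.RotT n c' b' z y → Ex n x c' b' → ‖z - Y‖ ^ 2 ≤ r * z.re := by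
    intro z c' b' h1 h2 h3 h4 h5 h6
    obtain ⟨p', h7, h8⟩ := h6.ply' hn h1 h2 h3 h4
    rw [hR.uniq _ _ _ _ _ h7 h5] at h8
    exact h8
  have hLY := hply L c b hM hper hmul hre hy hE
  have hLY' : ‖L - Y‖ ≤ r := hK L hLY
  have hxY : ‖axisPt x - Y‖ ≤ 1.26 * μ := by
    have h1 : axisPt x - Y = (L - Y) - (L - axisPt x) := by ring
    rw [h1]
    refine (norm_sub_le _ _).trans ?_
    linarith
  have hxy : |(x : ℝ) - y| ≤ μ / 4 := by
    rw [hY, norm_axisPt_sub] at hxY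
    have h1 : 6 * |(x : ℝ) - y| ≤ 2 * Real.pi * |(x : ℝ) - y| :=
      mul_le_mul_of_nonneg_right (by linarith) (abs_nonneg _)
    linarith
  have hxy' := abs_le.1 hxy
  have hμx : μ ≤ x := min_le_left _ _
  have hμx' : μ ≤ 1 - x := min_le_right _ _
  have hy0 : 0 < y := by
    have : (0 : ℝ) < y := by linarith
    exact_mod_cast this
  have hy1 : y < 1 := by
    have : (y : ℝ) < 1 := by linarith
    exact_mod_cast this
  have hν : 3 / 4 * μ ≤ min (y : ℝ) (1 - y) := le_min (by linarith) (by linarith)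
  have hν0 : 0 < min (y : ℝ) (1 - y) := by linarith
  have hν1 : min (y : ℝ) (1 - y) ≤ 1 / 2 := by
    rcases le_total (y : ℝ) (1 / 2) with h | h
    · exact (min_le_left _ _).trans h
    · exact (min_le_right _ _).trans (by linarith)
  have hgR0 : 0 < gR n y := by unfold gR; positivity
  have hngR : n * gR n y = 1 / 4 * min (y : ℝ) (1 - y) ^ 2 := by
    unfold gR; field_simp
  have hgRr : 2 * r < gR n y := by
    have h1 : n * (2 * r) < n * gR n y := by
      rw [hngR]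
      have h2 : (3 / 4 * μ) ^ 2 ≤ min (y : ℝ) (1 - y) ^ 2 :=
        pow_le_pow_left₀ (by positivity) hν 2
      have h3 : (3 / 4 * μ) ^ 2 = 9 / 16 * μ ^ 2 := by ring
      have h4 := pow_pos hμ0 2
      linarith
    exact lt_of_mul_lt_mul_left h1 hn0.le
  have hgR1 : n * gR n y ≤ 1 / 16 := by
    rw [hngR]
    have h1 := pow_le_pow_left₀ hν0.le hν1 2
    norm_num at h1 ⊢
    linarith
  have hgR2 : gR n y ≤ 1 / 16 := (le_mul_of_one_le_left hgR0.le hn1).trans hgR1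
  -- the good disc and the section
  have hG : GoodDom n (ball (axisPt y) (gR n y)) := goodDom34 hn hy0 hy1
  have hLB : L ∈ ball (axisPt y) (gR n y) := by
    rw [mem_ball, dist_eq_norm]; linarith
  obtain ⟨σ, hσ, hσ', hσ0⟩ := exists_section hG (convex_ball _ _) hper hLB hmul
  set B := ball (axisPt y) (gR n y) with hB
  have hBo : IsOpen B := isOpen_ball
  have hσc : ∀ z ∈ B, ContinuousAt σ z := fun z hz => hσ.continuousAt (hBo.mem_nhds hz)
  have hlt : ∀ z ∈ B, ‖mul n (σ z)‖ < 23 / 10 := fun z hz => by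
    rw [(hσ' z hz).2]; exact hG.lt z hz
  have hρ : ∀ z ∈ B, 0 < z.re → 1 < ‖mult n (σ z).1 (σ z).2‖ := fun z hz h0 => by
    have : mult n (σ z).1 (σ z).2 = mul n (σ z) := rfl
    rw [this, (hσ' z hz).2, norm_exp]; exact Real.one_lt_exp_iff.2 h0
  set V : Set ℂ := {z | z ∈ B ∧ 0 < z.re ∧ (σ z).1 ∈ MM ∧ Tr.RotT n (σ z).1 (σ z).2 z y ∧
    Ex n x (σ z).1 (σ z).2} with hV
  have hLV : L ∈ V := ⟨hLB, hre, by rw [hσ0]; exact hM, by rw [hσ0]; exact hy,
    by rw [hσ0]; exact hE⟩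
  have hVply : ∀ z ∈ V, ‖z - Y‖ ^ 2 ≤ r * z.re := by
    rintro z ⟨h1, h2, h3, h4, h5⟩
    exact hply z _ _ h3 (hσ' z h1).1 (hσ' z h1).2 h2 h4 h5
  have hclK : ∀ z ∈ closure V, ‖z - Y‖ ^ 2 ≤ r * z.re := by
    intro z hz
    have hcl : IsClosed {z : ℂ | ‖z - Y‖ ^ 2 ≤ r * z.re} :=
      isClosed_le (by fun_prop) (by fun_prop)
    exact closure_minimal (show V ⊆ {z : ℂ | ‖z - Y‖ ^ 2 ≤ r * z.re} from hVply) hcl hz
  have hKB : ∀ z : ℂ, ‖z - Y‖ ^ 2 ≤ r * z.re → z ∈ B := by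
    intro z hz
    have h1 := hK z hz
    rw [hB, mem_ball, dist_eq_norm]
    show ‖z - Y‖ < _
    linarith
  -- the closure of `V`
  have hcl : ∀ z ∈ closure V, z ≠ Y → z ∈ V := by
    intro z hz hzY
    have h1 := hclK z hz
    have hzB := hKB z h1
    have hzre : 0 < z.re := by
      have h2 : 0 < ‖z - Y‖ ^ 2 := pow_pos (norm_pos_iff.2 (sub_ne_zero.2 hzY)) 2
      by_contra hcon
      push Not at hcon
      have : r * z.re ≤ 0 := mul_nonpos_of_nonneg_of_nonpos hr0.le hcon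
      linarith
    have hfreq : ∃ᶠ z' in 𝓝 z, z' ∈ V := mem_closure_iff_frequently.1 hz
    have hzM : (σ z).1 ∈ MM := by
      by_contra hcon
      have h3 : ∀ᶠ z' in 𝓝 z, (σ z').1 ∉ MM :=
        ((hσc z hzB).fst).eventually (isOpen_compl_MM.mem_nhds hcon)
      obtain ⟨z', a1, a2⟩ := (hfreq.and_eventually h3).exists
      exact a2 a1.2.2.1
    obtain ⟨y', hy'⟩ := hR.ex (σ z).1 (σ z).2 z (hσ' z hzB).1 (hσ' z hzB).2 hzre hzM
    have hyy : y' = y := by
      have h1 := hR.opn _ _ _ _ hy'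
      have h2 : Tendsto (fun z' => (((σ z').1, (σ z').2, z') : ℂ × ℂ × ℂ)) (𝓝 z)
          (𝓝 ((σ z).1, (σ z).2, z)) :=
        ((hσc z hzB).fst).prodMk (((hσc z hzB).snd).prodMk continuousAt_id)
      obtain ⟨z', a1, a2⟩ := (hfreq.and_eventually (h2.eventually h1)).exists
      exact hR.uniq _ _ _ _ _ (a2 a1.2.2.1 (hσ' z' a1.1).1 (hσ' z' a1.1).2) a1.2.2.2.1
    rw [hyy] at hy'
    refine ⟨hzB, hzre, hzM, hy', ?_⟩
    refine ex_closed' hn (mem_M_iff.1 hzM) (hσ' z hzB).1 (hρ z hzB hzre) ?_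
    have h2 : ∃ᶠ z' in 𝓝 z, (σ z') ∈ Per n ∧ G (σ z').1 0 = 0 ∧ Ex n x (σ z').1 (σ z').2 :=
      hfreq.mono fun z' a => ⟨(hσ' z' a.1).1, mem_M_iff.1 a.2.2.1, a.2.2.2.2⟩
    exact (hσc z hzB).tendsto.frequently h2
  -- neighbourhoods of the points of `V`
  have hVn : ∀ z ∈ V, ∀ᶠ z' in 𝓝 z, (z' ∈ B ∧ 0 < z'.re ∧ ((σ z').1 ∈ MM → z' ∈ V) ∧
      ∀ θ w, ExtP n (σ z').1 (σ z').2 θ w → ∃ k : ℤ, Circ.nu w n θ = x + k) := by
    rintro z ⟨h1, h2, h3, h4, h5⟩
    have e1 := (hσc z h1).tendsto.eventually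
      (h5.nhds hn (mem_M_iff.1 h3) (hσ' z h1).1 (hρ z h1 h2))
    have e2 : Tendsto (fun z' => (((σ z').1, (σ z').2, z') : ℂ × ℂ × ℂ)) (𝓝 z)
        (𝓝 ((σ z).1, (σ z).2, z)) :=
      ((hσc z h1).fst).prodMk (((hσc z h1).snd).prodMk continuousAt_id)
    filter_upwards [hBo.mem_nhds h1,
      (Complex.continuous_re.continuousAt (x := z)).eventually_const_lt h2, e1,
      e2.eventually (hR.opn _ _ _ _ h4)] with z' a1 a2 a3 a4
    have a5 := a3 (hσ' z' a1).1
    exact ⟨a1, a2, fun hM' => ⟨a1, a2, hM', a4 hM' (hσ' z' a1).1 (hσ' z' a1).2,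
      a5.1 (mem_M_iff.1 hM')⟩, a5.2⟩
  -- the PLY inequality at limits of exterior parameters
  have hnr81 : 81 * n * (2 * r) ≤ 1 := by
    have : 81 * (n : ℝ) * (2 * r) = 162 * (n * r) := by ring
    rw [this]; linarith
  have hlimP : ∀ z ∈ V, (∃ᶠ z' in 𝓝 z, (σ z').1 ∉ MM) → ‖z - axisPt x‖ ^ 2 ≤ 81 * n * z.re := by
    intro z hz hf
    have hz1 := hVply z hz
    have hrez : z.re < 2 * r := by linarith [hKre z hz1]
    have h2 : ∃ᶠ z' in 𝓝 z, ‖z' - axisPt x‖ ^ 2 - 81 * n * z'.re ≤ 0 := by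
      refine (hf.and_eventually ((hVn z hz).and
        ((Complex.continuous_re.continuousAt (x := z)).eventually_lt_const hrez))).mono ?_
      rintro z' ⟨a1, ⟨a2, a3, -, a4⟩, a5⟩
      have hg : 0 < G (σ z').1 (σ z').1 := not_mem_MM_iff.1 a1
      obtain ⟨θ, hθ⟩ := exists_ang hg
      obtain ⟨w, hw⟩ := exists_extP_word hn hθ (hσ' z' a2).1
      obtain ⟨k, hk⟩ := a4 θ w hw
      have h3 : ‖z' - axisPt x‖ ≤ 1 := by
        have h4 : ‖z' - Y‖ < gR n y := by
          rw [← dist_eq_norm]; exact a2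
        have h5 : z' - axisPt x = (z' - Y) - (axisPt x - Y) := by ring
        rw [h5]
        refine (norm_sub_le _ _).trans ?_
        linarith
      have h4 : 81 * n * z'.re ≤ 1 := by
        have : 81 * (n : ℝ) * z'.re ≤ 81 * n * (2 * r) := by gcongr
        linarith
      have := ply_of_ext hn (y := σ z') hw hk (hσ' z' a2).2 (hlt z' a2) h3 h4
      linarith
    by_contra hcon
    push Not at hcon
    have hc : ContinuousAt (fun z : ℂ => ‖z - axisPt x‖ ^ 2 - 81 * n * z.re) z := by fun_prop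
    obtain ⟨z', a1, a2⟩ := (h2.and_eventually (hc.eventually_const_lt (sub_pos.2 hcon))).exists
    linarith
  -- if `Y` is a limit of `V` then `x = y`
  have hYcl : Y ∈ closure V → x = y := by
    intro hYV
    -- points near `Y` which are limits of exterior pairs
    have hnear : ∀ δ > 0, ∃ z ∈ V, ‖z - Y‖ < δ ∧ ∃ᶠ z' in 𝓝 z, (σ z').1 ∉ MM := by
      intro δ hδ
      by_contra hcon
      push Not at hcon
      set H : Set ℂ := {z | z ∈ ball Y δ ∧ 0 < z.re} with hH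
      have hHc : Convex ℝ H := by
        have h1 : H = ball Y δ ∩ {z | 0 < z.re} := rfl
        rw [h1]
        exact (convex_ball _ _).inter (convex_halfSpace_re_gt 0)
      set V' : Set ℂ := interior V with hV'
      have hV'H : (H ∩ V').Nonempty := by
        obtain ⟨z, hz, hzd⟩ := Metric.mem_closure_iff.1 hYV δ hδ
        rw [dist_comm, dist_eq_norm] at hzd
        have h1 : ∀ᶠ z' in 𝓝 z, (σ z').1 ∈ MM := hcon z hz hzd
        refine ⟨z, ⟨by rw [mem_ball, dist_eq_norm]; exact hzd, hz.2.1⟩, ?_⟩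
        rw [hV', mem_interior_iff_mem_nhds]
        filter_upwards [hVn z hz, h1] with z' a1 a2
        exact a1.2.2.1 a2
      have hsub : H ⊆ V' := by
        have h3 : closure V' ∩ H ⊆ V' := by
          rintro z ⟨hz, hzH⟩
          have h4 : z ∈ closure V := closure_mono interior_subset hz
          have h5 : z ≠ Y := by
            rintro rfl
            have := hzH.2
            rw [hYre] at this
            exact lt_irrefl _ this
          have h6 := hcl z h4 h5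
          have h7 : ‖z - Y‖ < δ := by rw [← dist_eq_norm]; exact hzH.1
          have h1 : ∀ᶠ z' in 𝓝 z, (σ z').1 ∈ MM := hcon z h6 h7
          rw [hV', mem_interior_iff_mem_nhds]
          filter_upwards [hVn z h6, h1] with z' a1 a2
          exact a1.2.2.1 a2
        exact hHc.isPreconnected.subset_of_closure_inter_subset isOpen_interior hV'H h3
      -- a point of `H` outside the disc
      set t : ℝ := min (δ / 4) (δ ^ 2 / (8 * r)) with ht
      have ht0 : 0 < t := by rw [ht]; positivity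
      have ht1 : t ≤ δ / 4 := min_le_left _ _
      have ht2 : r * t ≤ δ ^ 2 / 8 := by
        have h1 : t ≤ δ ^ 2 / (8 * r) := min_le_right _ _
        have h2 : r * (δ ^ 2 / (8 * r)) = δ ^ 2 / 8 := by field_simp
        rw [← h2]; gcongr
      set z : ℂ := Y + ((t : ℂ) + ((δ / 2 : ℝ) : ℂ) * I) with hz
      have hzY : z - Y = (t : ℂ) + ((δ / 2 : ℝ) : ℂ) * I := by rw [hz]; ring
      have hzre : z.re = t := by rw [hz, Complex.add_re, hYre]; simp
      have hnsq : ‖z - Y‖ ^ 2 = t ^ 2 + (δ / 2) ^ 2 := by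
        rw [hzY, ← Complex.normSq_eq_norm_sq, Complex.normSq_add_mul_I]
      have hzH : z ∈ H := by
        refine ⟨?_, by rw [hzre]; exact ht0⟩
        rw [mem_ball, dist_eq_norm]
        apply lt_of_pow_lt_pow_left₀ 2 hδ.le
        rw [hnsq]
        have g1 := pow_le_pow_left₀ ht0.le ht1 2
        have g2 : (δ / 4) ^ 2 = δ ^ 2 / 16 := by ring
        have g3 : (δ / 2) ^ 2 = δ ^ 2 / 4 := by ring
        have g4 := pow_pos hδ 2
        linarith
      have h1 := hVply z (interior_subset (hsub hzH))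
      rw [hnsq, hzre] at h1
      have g3 : (δ / 2) ^ 2 = δ ^ 2 / 4 := by ring
      have g4 := pow_pos hδ 2
      have g5 := sq_nonneg t
      linarith
    have hle : ∀ δ > 0, ‖axisPt x - Y‖ ≤ δ + Real.sqrt (81 * n * δ) := by
      intro δ hδ
      obtain ⟨z, hz, hzδ, hf⟩ := hnear δ hδ
      have h1 := hlimP z hz hf
      have h2 : z.re ≤ δ := by
        have h3 := Complex.re_le_norm (z - Y)
        rw [Complex.sub_re, hYre] at h3
        linarith
      have h3 : ‖z - axisPt x‖ ≤ Real.sqrt (81 * n * δ) := by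
        apply Real.le_sqrt_of_sq_le
        refine h1.trans ?_
        gcongr
      have h4 : axisPt x - Y = (z - Y) - (z - axisPt x) := by ring
      rw [h4]
      exact (norm_sub_le _ _).trans (by linarith)
    have hlim : Tendsto (fun δ : ℝ => δ + Real.sqrt (81 * n * δ)) (𝓝[>] 0) (𝓝 0) := by
      have hc : Continuous fun δ : ℝ => δ + Real.sqrt (81 * n * δ) := by fun_prop
      have h1 := hc.tendsto 0
      simp only [mul_zero, Real.sqrt_zero, add_zero] at h1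
      exact h1.mono_left nhdsWithin_le_nhds
    have h0 : ‖axisPt x - Y‖ ≤ 0 :=
      ge_of_tendsto hlim (by filter_upwards [self_mem_nhdsWithin] with δ hδ using hle δ hδ)
    have h1 : ‖axisPt x - Y‖ = 0 := le_antisymm h0 (norm_nonneg _)
    rw [hY, norm_axisPt_sub] at h1
    have h4 : |(x : ℝ) - y| = 0 := by
      rcases mul_eq_zero.1 h1 with h5 | h5
      · have := Real.pi_pos
        linarith
      · exact h5
    exact_mod_cast sub_eq_zero.1 (abs_eq_zero.1 h4)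
  by_cases hYV : Y ∈ closure V
  · rw [hYcl hYV]; exact hy
  exfalso
  have hVcl : IsClosed V := by
    refine isClosed_of_closure_subset fun z hz => hcl z hz ?_
    rintro rfl; exact hYV hz
  have hVc : IsCompact V := by
    refine (isCompact_closedBall Y r).of_isClosed_subset hVcl fun z hz => ?_
    rw [mem_closedBall, dist_eq_norm]
    exact hK z (hVply z hz)
  -- the image is open and closed in `MM`
  set T : Set ℂ := (fun z => (σ z).1) '' V with hT
  have hVB : V ⊆ B := fun z hz => hz.1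
  have hTc : IsCompact T := hVc.image_of_continuousOn
    (continuous_fst.comp_continuousOn (hσ.mono hVB))
  have hopen : ∀ z ∈ B, map (fun L => (σ L).1) (𝓝 z) = 𝓝 (σ z).1 := fun z hz =>
    (section_strict hG hσ hσ' hz).map_nhds_eq (section_deriv_ne_zero hG hσ hσ' hz)
  have hsub : MM ⊆ T := by
    -- `T` is relatively open
    have hrel : ∀ t ∈ T, ∀ᶠ c' in 𝓝 t, c' ∈ MM → c' ∈ T := by
      rintro _ ⟨z, hz, rfl⟩
      have h1 : ∀ᶠ c' in map (fun L => (σ L).1) (𝓝 z), c' ∈ MM → c' ∈ T := by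
        rw [eventually_map]
        filter_upwards [hVn z hz] with z' a1 a2
        exact ⟨z', a1.2.2.1 a2, rfl⟩
      rwa [hopen z hz.1] at h1
    set O : Set ℂ := interior {c' | c' ∈ MM → c' ∈ T} with hO
    have hTO : T ⊆ O := fun t ht => mem_interior_iff_mem_nhds.2 (hrel t ht)
    have hOM : ∀ c' ∈ MM, c' ∈ O → c' ∈ T := fun c' h1 h2 => interior_subset h2 h1
    intro c' hc'
    by_contra hcon
    have h1 := isPreconnected_MM O Tᶜ isOpen_interior hTc.isClosed.isOpen_compl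
      (fun c'' h => by
        by_cases h' : c'' ∈ T
        · exact Or.inl (hTO h')
        · exact Or.inr h')
      ⟨(σ L).1, by rw [hσ0]; exact hM, hTO ⟨L, hLV, rfl⟩⟩ ⟨c', hc', hcon⟩
    obtain ⟨c'', a1, a2, a3⟩ := h1
    exact a3 (hOM c'' a1 a2)
  obtain ⟨z, hz, hz0⟩ := hsub zero_mem_MM
  have hz0' : (σ z).1 = 0 := hz0
  have h1 := (hσ' z hz.1).1
  have h2 := hρ z hz.1 hz.2.1
  have e : σ z = (0, (σ z).2) := by rw [← hz0']
  rw [e] at h1
  have h3 := zero_mult hn (b := (σ z).2) h1 (by rw [← e]; exact h2)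
  rw [← e, (hσ' z hz.1).2, norm_exp] at h3
  have h4 : z.re ≤ 1 / 16 := by
    have h5 := hKre z (hVply z hz)
    linarith
  have h5 : Real.exp z.re ≤ Real.exp (1 / 16) := Real.exp_le_exp.2 h4
  have h6 : Real.exp (1 / 16) < 2 := by
    have := Real.exp_bound_div_one_sub_of_interval (x := 1 / 16) (by norm_num) (by norm_num)
    linarith
  linarith

/-- **the two rotation numbers agree**: a ray of combinatorial rotation number `x` lands at `b`
over `MM`; then the logarithm of the multiplier has rotation number `x` after an integer shift -/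
theorem ex_exact {n : ℕ} (hn : 0 < n) {x : ℚ} (hx0 : 0 < x) (hx1 : x < 1)
    (hQ : 100 * (n : ℝ) ^ 2 ≤ x.den * (min (x : ℝ) (1 - x)) ^ 2) {c b L : ℂ} (hM : c ∈ MM)
    (hfix : (c, b) ∈ Per n) (hL : mul n (c, b) = exp L) (hre : 0 < L.re) (hE : Ex n x c b) :
    ∃ j : ℤ, Tr.RotT n c b (L - 2 * Real.pi * j * I) x ∧
      ‖L - axisPt x - 2 * Real.pi * j * I‖ ^ 2 ≤ 2 * n * Real.log 2 / x.den * L.re := by
  have hn1 : (1 : ℝ) ≤ n := by exact_mod_cast hn
  have hx0' : (0 : ℝ) < x := by exact_mod_cast hx0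
  have hx1' : (x : ℝ) < 1 := by exact_mod_cast hx1
  have hq0 : (0 : ℝ) < x.den := by exact_mod_cast x.pos
  have hlog : Real.log 2 < 0.7 := by linarith [Real.log_two_lt_d9]
  have hr : 2 * n * Real.log 2 / x.den ≤ 1 / 2 := by
    rw [div_le_iff₀ hq0]
    set μ : ℝ := min (x : ℝ) (1 - x) with hμ
    have hμ0 : 0 < μ := lt_min hx0' (by linarith)
    have hμ1 : μ ≤ 1 := (min_le_left _ _).trans hx1'.le
    have h1 : μ ^ 2 ≤ 1 := pow_le_one₀ hμ0.le hμ1
    have h2 : 100 * (n : ℝ) ^ 2 ≤ x.den :=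
      hQ.trans (mul_le_of_le_one_right hq0.le h1)
    have h3 : 2 * (n : ℝ) * Real.log 2 ≤ 1.4 * n := by
      have h4 := mul_le_mul_of_nonneg_left hlog.le (show (0 : ℝ) ≤ 2 * n by linarith)
      linarith
    have h5 : (n : ℝ) ≤ n ^ 2 := le_self_pow₀ hn1 (by norm_num)
    linarith
  obtain ⟨-, j, hj⟩ := ex_near hn hr hM hfix hL hre hE
  have e1 : L - 2 * Real.pi * j * I - axisPt x = L - axisPt x - 2 * Real.pi * j * I := by ring
  have hre' : (L - 2 * Real.pi * j * I).re = L.re := by simp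
  have hrot : Tr.RotT n c b (L - 2 * Real.pi * j * I) x := by
    refine exact_aux hn hx0 hx1 hQ hM hfix ?_ (by rw [hre']; exact hre) hE (by rw [e1]; exact hj)
    rw [hL, Complex.exp_sub]
    have h5 : 2 * Real.pi * (j : ℂ) * I = j * (2 * Real.pi * I) := by ring
    rw [h5, Complex.exp_int_mul_two_pi_mul_I, div_one]
  refine ⟨j, hrot, ?_⟩
  have h := (Tr.rotData hn).ply _ _ _ _ hrot
  rw [e1, hre'] at h
  exact h

/-- **(M), exact form**: a pair over `MM` of label `J` and combinatorial rotation number `x` of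
large denominator is the point of any section of label `J` over the right half of a disc about
`2 π i x`, and it is in the PLY disc -/
theorem barM_exact {n : ℕ} (hn : 0 < n) {x : ℚ} (hx0 : 0 < x) (hx1 : x < 1)
    (hQ : 100 * (n : ℝ) ^ 2 ≤ x.den * (min (x : ℝ) (1 - x)) ^ 2) {ρ : ℝ}
    (hρ : 2 * n * Real.log 2 / x.den < ρ)
    (hρ' : ρ ≤ Sat.gR n x) {J : Lab n} {τ : ℂ → ℂ × ℂ}
    (hτ : ∀ L ∈ ball (axisPt x) ρ, 0 < L.re → τ L ∈ Per n ∧ mul n (τ L) = exp L ∧
      FF n (τ L) = J) {c a : ℂ} (hM : c ∈ MM) (hJ : (c, a) ∈ Sat.NJ n J)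
    (hRt : Sat.Rt n (c, a) x) :
    ∃ L ∈ ball (axisPt x) ρ, 0 < L.re ∧ τ L = (c, a) ∧ Tr.RotT n c a L x ∧
      ‖L - axisPt x‖ ^ 2 ≤ 2 * n * Real.log 2 / x.den * L.re ∧
      ‖L - axisPt x‖ ≤ 2 * n * Real.log 2 / x.den := by
  obtain ⟨hPer, hmul, hNI, hFF⟩ := hJ
  have hρ1 : 1 < ‖mult n c a‖ := hmul
  have hlog0 : 0 < Real.log 2 := Real.log_pos (by norm_num)
  have hn0 : (0 : ℝ) < n := by exact_mod_cast hn
  have hq0 : (0 : ℝ) < x.den := by exact_mod_cast x.pos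
  have hr0 : 0 < 2 * n * Real.log 2 / x.den := by positivity
  have hL : mul n (c, a) = exp (Complex.log (mul n (c, a))) :=
    (Complex.exp_log (repelling_ne_zero hρ1)).symm
  have hre : 0 < (Complex.log (mul n (c, a))).re := by
    rw [Complex.log_re]; exact Real.log_pos hmul
  obtain ⟨j, hrot, hj⟩ := ex_exact hn hx0 hx1 hQ hM hPer hL hre (ex_of_rt hM hRt)
  set L : ℂ := Complex.log (mul n (c, a)) - 2 * Real.pi * j * I with hLdef
  have h1 : L - axisPt x = Complex.log (mul n (c, a)) - axisPt x - 2 * Real.pi * j * I := by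
    rw [hLdef]; ring
  have hLre : L.re = (Complex.log (mul n (c, a))).re := by rw [hLdef]; simp
  rw [← h1, ← hLre] at hj
  have hj' := (mem_disc (axisPt_re13 x) hr0.le hj).1
  have hLe : exp L = mul n (c, a) := by
    rw [hLdef, Complex.exp_sub, ← hL]
    have h5 : 2 * Real.pi * (j : ℂ) * I = j * (2 * Real.pi * I) := by ring
    rw [h5, Complex.exp_int_mul_two_pi_mul_I, div_one]
  have hLB : L ∈ ball (axisPt x) ρ := by
    rw [mem_ball, dist_eq_norm]; exact lt_of_le_of_lt hj' hρ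
  have hL0 : 0 < L.re := by rw [hLre]; exact hre
  obtain ⟨h2, h3, h4⟩ := hτ L hLB hL0
  refine ⟨L, hLB, hL0, ?_, hrot, hj, hj'⟩
  exact Sat.s4_unique n x L (τ L) (c, a) hn hx0 hx1 (ball_subset_ball hρ' hLB) hL0 h2 hPer h3
    hLe.symm (h4.trans hFF.symm)

end BarM

end Pool.Agent.Work.MLC
end

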