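import Pool.Agent.Work.MLCM.C48
import Pool.Agent.Work.MLCM.C52
import Pool.Agent.Work.MLCM.C53
import Pool.Agent.Work.MLCM.C59

section
set_option autoImplicit false

/-! # The period lemma (helper54, proof by helper60)

A periodic angle of period `n` on the plateau of the rotation number `p / q` of an exact word of
length `N` satisfies `(q - 2) * N < n`. -/

namespace Pool.Agent.Work.MLC

open Set Circ CircleDeg1Lift Filter Topology

namespace CA

variable {N q : ℕ} {w : ℕ → ℤ} {s t θ : ℝ}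

/-- the `j`-th image of the arc lies in one open half circle -/
def NC (w : ℕ → ℤ) (s t θ : ℝ) (j : ℕ) : Prop :=
  ∃ k : ℤ, (θ + w j) / 2 + k < gw w θ j s ∧ gw w θ j t < (θ + w j) / 2 + k + 1 / 2

/-- the `j`-th image of the arc contains a point of the orbit -/
def Occ (N : ℕ) (w : ℕ → ℤ) (s t θ : ℝ) (j : ℕ) : Prop :=
  ∃ i, ∃ u ∈ AA N s i, gw w θ j s < u ∧ u < gw w θ j t

/-- the images of the arc are gaps -/
theorem gap (h : CA N q w s t) (h1 : s < θ) (h2 : θ < t) (j : ℕ) :
    ∀ u ∈ AA N s j, gw w θ j s < u → ¬ u < gw w θ j t := by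
  induction j with
  | zero => intro u hu h3 h4; exact h.nopt 0 u hu (by simpa using h3) (by simpa using h4)
  | succ j ih =>
    intro u hu h3 h4
    obtain ⟨v, hv, k, e⟩ := AA_sur hu
    obtain ⟨k', e', -, -⟩ := tdbl_of_inHalf (h.half h1 h2 j) hv
    have e2 : tdbl (θ + w j) (v + ((k' - k : ℤ) : ℝ)) = u := by
      rw [map_add_int, e']; push_cast; linarith
    refine ih (v + ((k' - k : ℤ) : ℝ)) (AA_shift hv _) ?_ ?_
    · by_contra hcon
      push Not at hcon
      have := (tdbl (θ + w j)).monotone hcon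
      rw [e2, ← gw_succ_apply] at this
      exact absurd h3 (not_lt.2 this)
    · by_contra hcon
      push Not at hcon
      have := (tdbl (θ + w j)).monotone hcon
      rw [e2, ← gw_succ_apply] at this
      exact absurd h4 (not_lt.2 this)

theorem mem0 : s ∈ AA N s 0 := ⟨0, 0, by simp⟩

theorem gw_le (h : CA N q w s t) (j : ℕ) : gw w θ j s ≤ gw w θ j t ∧ gw w θ j t ≤ gw w θ j s + 1 := by
  refine ⟨(gw w θ j).monotone h.lt.le, ?_⟩
  rw [← map_add_one]; exact (gw w θ j).monotone h.lt'.le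

/-- data of a critical image -/
theorem crit_data (h : CA N q w s t) (h1 : s < θ) (h2 : θ < t) {j : ℕ} (hj : ¬ NC w s t θ j) :
    ∃ k : ℤ, gw w θ (j + 1) s = 2 * gw w θ j s - k ∧ gw w θ (j + 1) t = 2 * gw w θ j t - (k + 1) ∧
      gw w θ (j + 1) s < θ + ((w j + k + 1 : ℤ) : ℝ) ∧ θ + ((w j + k + 1 : ℤ) : ℝ) < gw w θ (j + 1) t := by
  obtain ⟨-, k, e1, e2, e3⟩ := h.gw_pt h1 h2 mem0 j
  obtain ⟨-, k', f1, f2, f3⟩ := h.gw_pt h1 h2 h.mem j
  obtain ⟨g1, g2⟩ := h.gw_le (θ := θ) j
  have hk1 : k ≤ k' := by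
    have : ((k : ℤ) : ℝ) < ((k' + 1 : ℤ) : ℝ) := by push_cast; linarith
    have : k < k' + 1 := by exact_mod_cast this
    omega
  have hk2 : k' ≤ k + 1 := by
    have : ((k' : ℤ) : ℝ) < ((k + 2 : ℤ) : ℝ) := by push_cast; linarith
    have : k' < k + 2 := by exact_mod_cast this
    omega
  have hk3 : k' ≠ k := by
    intro hk
    subst hk
    exact hj ⟨k', e2, f3⟩
  have hk4 : k' = k + 1 := by omega
  subst hk4
  refine ⟨k, e1, by rw [f1]; push_cast; ring, ?_, ?_⟩
  · rw [e1]; push_cast; linarith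
  · rw [f1]; push_cast at f2 ⊢; linarith

/-- an image which contains `θ` contains the arc -/
theorem cover (h : CA N q w s t) (h1 : s < θ) (h2 : θ < t) {j : ℕ} {m : ℤ}
    (e1 : gw w θ j s < θ + m) (e2 : θ + m < gw w θ j t) :
    gw w θ j s ≤ s + m ∧ t + m ≤ gw w θ j t := by
  constructor
  · by_contra hcon
    push Not at hcon
    exact h.nopt' (h.gw_pt h1 h2 mem0 j).1 m hcon (by linarith)
  · by_contra hcon
    push Not at hcon
    exact h.nopt' (h.gw_pt h1 h2 h.mem j).1 m (by linarith) hcon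

/-- no image of phase `0` except the arc itself contains `θ` -/
theorem cover_zero (h : CA N q w s t) (h1 : s < θ) (h2 : θ < t) {σ : ℕ} (h0 : 0 < σ) (hσ : σ < q)
    {m : ℤ} (e1 : gw w θ (N * σ) s < θ + m) (e2 : θ + m < gw w θ (N * σ) t) : False := by
  obtain ⟨g1, g2⟩ := h.cover h1 h2 e1 e2
  have h3 : s + m ∈ AA N s (N * σ) := by
    have := AA_congr h.per 0 σ
    rw [Nat.zero_add] at this
    rw [this]
    exact AA_shift mem0 m
  have h4 : s + m ≤ gw w θ (N * σ) s := by
    by_contra hcon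
    push Not at hcon
    exact h.gap h1 h2 _ _ h3 hcon (by linarith)
  exact h.gw_s_ne h1 h2 mem0 (Nat.mul_pos h.pos h0) (Nat.mul_lt_mul_of_pos_left hσ h.pos) m
    (le_antisymm g1 h4)

/-- the image of phase `N - 1` is not critical before the end -/
theorem nc_last (h : CA N q w s t) (h1 : s < θ) (h2 : θ < t) {σ j : ℕ} (hσ : σ + 1 < q)
    (hj : j + 1 = N * (σ + 1)) : NC w s t θ j := by
  by_contra hcon
  obtain ⟨k, -, -, e3, e4⟩ := h.crit_data h1 h2 hcon
  rw [hj] at e3 e4
  exact h.cover_zero h1 h2 (Nat.succ_pos σ) hσ e3 e4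

theorem occ_succ {j : ℕ} (h : CA N q w s t) (hj : NC w s t θ j)
    (ho : Occ N w s t θ j) : Occ N w s t θ (j + 1) := by
  obtain ⟨k, k1, k2⟩ := hj
  obtain ⟨i, u, hu, u1, u2⟩ := ho
  have hst := (h.gw_le (θ := θ) j).1
  refine ⟨i + 1, 2 * u - k, AA_dbl' hu k, ?_, ?_⟩
  · rw [gw_succ_apply, tdbl_lin k (by linarith) (by linarith)]; linarith
  · rw [gw_succ_apply, tdbl_lin k (by linarith) (by linarith)]; linarith

/-- a critical image, and the next one, are occupied -/
theorem occ_crit {j : ℕ} (h : CA N q w s t) (h1 : s < θ) (h2 : θ < t) (hj : ¬ NC w s t θ j)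
    (hm : (j + 1) % N ≠ 0) : Occ N w s t θ j ∧ Occ N w s t θ (j + 1) := by
  obtain ⟨k, e1, e2, e3, e4⟩ := h.crit_data h1 h2 hj
  obtain ⟨g1, g2⟩ := h.cover h1 h2 e3 e4
  set m : ℤ := w j + k + 1 with hmdef
  have g3 : gw w θ (j + 1) s < s + m := by
    refine lt_of_le_of_ne g1 fun he => hm ?_
    have h3 := (h.gw_pt h1 h2 (x := s) mem0 (j + 1)).1
    rw [he] at h3
    have h4 : s + m ∈ AA N s 0 := AA_shift mem0 m
    have := h.mod_of_mem h3 h4
    rwa [Nat.zero_mod] at this
  have g4 : s + m < gw w θ (j + 1) t := by linarith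
  refine ⟨?_, 0, s + m, AA_shift mem0 m, g3, g4⟩
  obtain ⟨a, ha, l, hl⟩ : ∃ a ∈ AA N s (N - 1), ∃ l : ℤ, 2 * a = s + l := by
    have h3 : s ∈ AA N s (N - 1 + 1) := by
      rw [Nat.sub_add_cancel h.pos]
      have := AA_per h.per 0
      rw [Nat.zero_add] at this
      rw [this]; exact mem0
    exact AA_sur h3
  rw [e1] at g3
  rw [e2] at g4
  rcases Int.even_or_odd (m + k - l) with ⟨r, hr⟩ | ⟨r, hr⟩
  · refine ⟨N - 1, a + r, AA_shift ha r, ?_, ?_⟩
    · have : (m : ℝ) + k - l = r + r := by exact_mod_cast hr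
      linarith
    · have : (m : ℝ) + k - l = r + r := by exact_mod_cast hr
      linarith
  · refine ⟨N - 1, a + ((r + 1 : ℤ) : ℝ), AA_shift ha _, ?_, ?_⟩
    · have : (m : ℝ) + k - l = 2 * r + 1 := by exact_mod_cast hr
      push_cast; linarith
    · have : (m : ℝ) + k - l = 2 * r + 1 := by exact_mod_cast hr
      push_cast; linarith

/-- propagation inside a block -/
theorem occ_phase (h : CA N q w s t) (h1 : s < θ) (h2 : θ < t) {σ p : ℕ} (d : ℕ) (hd : p + d < N)
    (ho : Occ N w s t θ (p + N * σ)) : Occ N w s t θ (p + d + N * σ) := by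
  induction d with
  | zero => exact ho
  | succ d ih =>
    have ih' := ih (by omega)
    rw [show p + (d + 1) + N * σ = (p + d + N * σ) + 1 by ring]
    by_cases hn : NC w s t θ (p + d + N * σ)
    · exact h.occ_succ hn ih'
    · refine (h.occ_crit h1 h2 hn ?_).2
      rw [show p + d + N * σ + 1 = (p + d + 1) + N * σ by ring, Nat.add_mul_mod_self_left,
        Nat.mod_eq_of_lt (by omega)]
      omega

/-- next block -/
theorem occ_block (h : CA N q w s t) (h1 : s < θ) (h2 : θ < t) {σ p : ℕ} (hp : p < N)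
    (hσ : σ + 1 < q) (ho : Occ N w s t θ (p + N * σ)) {k : ℕ} (hk : k < N) :
    Occ N w s t θ (k + N * (σ + 1)) := by
  have h3 := h.occ_phase h1 h2 (N - 1 - p) (by omega) ho
  have e : p + (N - 1 - p) + N * σ + 1 = N * (σ + 1) := by
    have : p + (N - 1 - p) + 1 = N := by omega
    calc p + (N - 1 - p) + N * σ + 1 = (p + (N - 1 - p) + 1) + N * σ := by ring
      _ = N * (σ + 1) := by rw [this]; ring
  have h4 := h.occ_succ (h.nc_last h1 h2 hσ e) h3
  rw [e] at h4
  have h5 := h.occ_phase h1 h2 (σ := σ + 1) (p := 0) k (by omega) (by rwa [Nat.zero_add])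
  rwa [Nat.zero_add] at h5

/-- **some phase has at most one occupied gap** -/
theorem exists_phase (h : CA N q w s t) (h1 : s < θ) (h2 : θ < t) {j : ℕ} (hj : j < N * q)
    (ho : Occ N w s t θ j) : ∃ k < N, ∀ σ, σ + 1 < q → Occ N w s t θ (k + N * σ) →
      Occ N w s t θ (k + N * (σ + 1)) → False := by
  classical
  obtain ⟨j₀, hj₀, hmin⟩ := Finset.exists_min_image ((Finset.range (N * q)).filter
    fun j => Occ N w s t θ j) (fun j => gw w θ j t - gw w θ j s)
    ⟨j, Finset.mem_filter.2 ⟨Finset.mem_range.2 hj, ho⟩⟩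
  obtain ⟨hj₀1, i, u, hu, u1, u2⟩ := Finset.mem_filter.1 hj₀
  have haA := (h.gw_pt h1 h2 (x := s) mem0 j₀).1
  have hbA := (h.gw_pt h1 h2 h.mem j₀).1
  obtain ⟨hab1, hab2⟩ := h.gw_le (θ := θ) j₀
  set a := gw w θ j₀ s with ha
  set b := gw w θ j₀ t with hb
  have hcθ := h.compat θ h1 h2
  have hik : i % N < N := Nat.mod_lt _ h.pos
  set k := i % N with hk
  have huk : u ∈ AA N s k := by rw [hk, ← AA_mod h.per]; exact hu
  have hne : k % N ≠ j₀ % N := by
    intro he
    refine h.gap h1 h2 j₀ u ?_ u1 u2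
    rw [AA_mod h.per, ← he, ← AA_mod h.per]; exact huk
  have hnl : ¬ Pool.Agent.MLC.Linked (AA N s k) (AA N s j₀) :=
    not_linked h.pos h.word hcθ hcθ hne
  have hnl' : ¬ Pool.Agent.MLC.Linked (AA N s j₀) (AA N s k) :=
    not_linked h.pos h.word hcθ hcθ (Ne.symm hne)
  have hdis : ∀ v ∈ AA N s k, v ∉ AA N s j₀ := fun v hv hv' => hne (h.mod_of_mem hv hv')
  have key : ∀ σ, σ < q → Occ N w s t θ (k + N * σ) →
      ∃ l : ℤ, gw w θ (k + N * σ) s < a + l ∧ a + l < gw w θ (k + N * σ) t := by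
    intro σ hσ hoc
    have hcA : gw w θ (k + N * σ) s ∈ AA N s k := by
      have := (h.gw_pt h1 h2 (x := s) mem0 (k + N * σ)).1
      rwa [AA_congr h.per] at this
    have hdA : gw w θ (k + N * σ) t ∈ AA N s k := by
      have := (h.gw_pt h1 h2 h.mem (k + N * σ)).1
      rwa [AA_congr h.per] at this
    have hlen : b - a ≤ gw w θ (k + N * σ) t - gw w θ (k + N * σ) s := by
      refine hmin (k + N * σ) (Finset.mem_filter.2 ⟨Finset.mem_range.2 ?_, hoc⟩)
      calc k + N * σ < N + N * σ := by omega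
        _ = N * (σ + 1) := by ring
        _ ≤ N * q := Nat.mul_le_mul_left N hσ
    obtain ⟨hcd1, hcd2⟩ := h.gw_le (θ := θ) (k + N * σ)
    set c := gw w θ (k + N * σ) s with hc
    set d := gw w θ (k + N * σ) t with hd
    -- translate `c` into `(a, a + 1)`
    set l : ℤ := -⌊c - a⌋ with hl
    have l1 : a ≤ c + l := by
      have := Int.floor_le (c - a); rw [hl]; push_cast; linarith
    have l2 : c + l < a + 1 := by
      have := Int.lt_floor_add_one (c - a); rw [hl]; push_cast; linarith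
    have hcl : c + l ∈ AA N s k := AA_shift hcA l
    have hdl : d + l ∈ AA N s k := AA_shift hdA l
    have l3 : a < c + l := lt_of_le_of_ne l1 fun he => hdis _ hcl (he ▸ haA)
    have l4 : c + l < b := by
      by_contra hcon
      push Not at hcon
      refine hnl ⟨u, huk, b, hbA, c + l, hcl, a + ((1 : ℤ) : ℝ), AA_shift haA 1, u2.le, hcon, ?_, ?_⟩
      · push_cast; linarith
      · push_cast; linarith
    refine ⟨1 - l, ?_, ?_⟩
    · push_cast; linarith
    · by_contra hcon
      push Not at hcon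
      push_cast at hcon
      have l5 : b ≤ d + l := by
        by_contra h7
        push Not at h7
        linarith
      exact hnl' ⟨a, haA, c + l, hcl, b, hbA, d + l, hdl, l3.le, l4.le, l5, by linarith⟩
  refine ⟨k, hik, fun σ hσ o1 o2 => ?_⟩
  obtain ⟨l, a1, a2⟩ := key σ (by omega) o1
  obtain ⟨l', b1, b2⟩ := key (σ + 1) hσ o2
  have hAk : ∀ σ, AA N s (k + N * σ) = AA N s k := fun σ => AA_congr h.per k σ
  have hc1 := (h.gw_pt h1 h2 (x := s) mem0 (k + N * σ)).1
  have hc2 := (h.gw_pt h1 h2 (x := s) mem0 (k + N * (σ + 1))).1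
  rw [hAk] at hc1 hc2
  have he1 : gw w θ (k + N * (σ + 1)) s + ((l - l' : ℤ) : ℝ) ≤ gw w θ (k + N * σ) s := by
    by_contra hcon
    push Not at hcon
    refine h.gap h1 h2 (k + N * σ) _ ?_ hcon ?_
    · rw [hAk]; exact AA_shift hc2 _
    · push_cast; linarith
  have he2 : gw w θ (k + N * σ) s + ((l' - l : ℤ) : ℝ) ≤ gw w θ (k + N * (σ + 1)) s := by
    by_contra hcon
    push Not at hcon
    refine h.gap h1 h2 (k + N * (σ + 1)) _ ?_ hcon ?_
    · rw [hAk]; exact AA_shift hc1 _
    · push_cast; linarith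
  obtain ⟨m, hm⟩ := h.gw_pt_eq h1 h2 (x := s) mem0 (k + N * σ)
  obtain ⟨m', hm'⟩ := h.gw_pt_eq h1 h2 (x := s) mem0 (k + N * (σ + 1))
  have he3 : (2 : ℝ) ^ (k + N * (σ + 1)) * s = 2 ^ (k + N * σ) * s + ((m - m' + l' - l : ℤ) : ℝ) := by
    rw [hm, hm'] at he1 he2
    push_cast at he1 he2 ⊢
    linarith
  have hx0 : (2 : ℝ) ^ (N * (σ + 1)) * s ∈ AA N s 0 := ⟨σ + 1, 0, by simp⟩
  have he4 : (2 : ℝ) ^ N * (2 ^ (N * (σ + 1)) * s) = 2 ^ (N * (σ + 1)) * s +
      ((2 ^ (N - k) * (m - m' + l' - l) : ℤ) : ℝ) := by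
    have e5 : (2 : ℝ) ^ N * (2 ^ (N * (σ + 1)) * s) = 2 ^ (N - k) * (2 ^ (k + N * (σ + 1)) * s) := by
      rw [← mul_assoc, ← mul_assoc, ← pow_add, ← pow_add]
      congr 2
      omega
    have e6 : (2 : ℝ) ^ (N - k) * (2 ^ (k + N * σ) * s) = 2 ^ (N * (σ + 1)) * s := by
      rw [← mul_assoc, ← pow_add]
      congr 2
      have : N - k + (k + N * σ) = N + N * σ := by omega
      rw [this]; ring
    rw [e5, he3, mul_add, e6]
    push_cast; ring
  have hdvd := h.dvd_of_per hx0 he4
  have hle := Nat.le_of_dvd h.pos hdvd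
  have : N * 2 ≤ N * q := Nat.mul_le_mul_left N h.two
  have := h.pos
  omega

/-- **the images of the arc are not critical before the time `(q - 2) N`** -/
theorem nc (h : CA N q w s t) (h1 : s < θ) (h2 : θ < t) {j : ℕ} (hj : j < (q - 2) * N) :
    NC w s t θ j := by
  by_contra hcon
  have hN := h.pos
  have hσ : j / N < q - 2 := Nat.div_lt_of_lt_mul (by rwa [mul_comm] at hj)
  have hp : j % N < N := Nat.mod_lt _ hN
  have hjd : j % N + N * (j / N) = j := Nat.mod_add_div j N
  generalize j / N = σ at hσ hjd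
  have hjq : j < N * q := by
    calc j < (q - 2) * N := hj
      _ ≤ q * N := Nat.mul_le_mul_right N (Nat.sub_le q 2)
      _ = N * q := mul_comm _ _
  by_cases hm : (j + 1) % N = 0
  · -- the last phase
    refine hcon (h.nc_last h1 h2 (σ := σ) (by omega) ?_)
    have h3 : j % N + 1 = N := by
      by_contra hne
      have h4 : (j + 1) % N = j % N + 1 := by
        conv_lhs => rw [← hjd]
        rw [show j % N + N * σ + 1 = (j % N + 1) + N * σ by ring, Nat.add_mul_mod_self_left,
          Nat.mod_eq_of_lt (by omega)]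
      omega
    calc j + 1 = (j % N + 1) + N * σ := by omega
      _ = N * (σ + 1) := by rw [h3]; ring
  · obtain ⟨ho, -⟩ := h.occ_crit h1 h2 hcon hm
    obtain ⟨k, hk, hun⟩ := h.exists_phase h1 h2 hjq ho
    rw [← hjd] at ho
    have o1 := h.occ_block h1 h2 hp (by omega) ho hk
    have o2 := h.occ_block h1 h2 hk (by omega) o1 hk
    exact hun (σ + 1) (by omega) o1 o2

/-- **the period lemma**: a periodic angle on the arc has a long period -/
theorem per_lt (h : CA N q w s t) {x : ℝ} (hx : s ≤ x) (hx' : x ≤ t) {n : ℕ} (hn : 0 < n)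
    (hper : ∃ a : ℤ, 2 ^ n * x - x = a) : (q - 2) * N < n := by
  obtain ⟨a, ha⟩ := hper
  have hq := h.two
  have hN := h.pos
  have hend : ∀ y, y ∈ AA N s 0 → y = x → (q - 2) * N < n := by
    rintro y hy rfl
    have h3 := h.dvd_of_per hy (j := n) (m := a) (by linarith)
    have h4 := Nat.le_of_dvd hn h3
    calc (q - 2) * N < q * N := Nat.mul_lt_mul_of_pos_right (by omega) hN
      _ = N * q := mul_comm _ _
      _ ≤ n := h4
  rcases hx.lt_or_eq with h1 | h1
  swap
  · exact hend s mem0 h1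
  rcases hx'.lt_or_eq with h2 | h2
  swap
  · exact hend t h.mem h2.symm
  by_contra hcon
  push Not at hcon
  have hlin : ∀ i ≤ (q - 2) * N, ∃ m : ℤ, gw w x i x = 2 ^ i * x + m := by
    intro i
    induction i with
    | zero => intro _; exact ⟨0, by simp⟩
    | succ i ih =>
      intro hi
      obtain ⟨m, hm⟩ := ih (by omega)
      obtain ⟨k, k1, k2⟩ := h.nc h1 h2 (j := i) (by omega)
      have g1 : gw w x i s ≤ gw w x i x := (gw w x i).monotone h1.le
      have g2 : gw w x i x ≤ gw w x i t := (gw w x i).monotone h2.le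
      refine ⟨2 * m - k, ?_⟩
      rw [gw_succ_apply, tdbl_lin k (by linarith) (by linarith), hm, pow_succ]
      push_cast; ring
  obtain ⟨M, rfl⟩ : ∃ M, n = M + 1 := ⟨n - 1, by omega⟩
  obtain ⟨m, hm⟩ := hlin M (by omega)
  obtain ⟨k, k1, k2⟩ := h.nc h1 h2 (j := M) (by omega)
  have g1 : gw w x M s ≤ gw w x M x := (gw w x M).monotone h1.le
  have g2 : gw w x M x ≤ gw w x M t := (gw w x M).monotone h2.le
  rw [hm] at g1 g2
  rw [pow_succ] at ha
  have e1 : ((w M + 2 * k : ℤ) : ℝ) < ((a + 2 * m : ℤ) : ℝ) := by push_cast; linarith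
  have e2 : ((a + 2 * m : ℤ) : ℝ) < ((w M + 2 * k + 1 : ℤ) : ℝ) := by push_cast; linarith
  have e3 : w M + 2 * k < a + 2 * m := by exact_mod_cast e1
  have e4 : a + 2 * m < w M + 2 * k + 1 := by exact_mod_cast e2
  omega

end CA

/-- **the period lemma for a word**: an `n`-periodic angle with rotation number `κ + y` of an exact
word of length `m` satisfies `(y.den - 2) * m < n` -/
theorem perL54 {m n : ℕ} {v : ℕ → ℤ} {κ : ℤ} {y : ℚ} {t : ℝ} (hm : 0 < m) (hv : Word m v)
    (hy0 : 0 < y) (hy1 : y < 1) (hn : 0 < n) (ht : ∃ a : ℤ, (2 : ℝ) ^ n * t - t = a)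
    (hnu : nu v m t = κ + y) : (y.den - 2) * m < n := by
  have hq := two_le_den hy0 hy1
  obtain ⟨i₀, hi₀, s, t', h, hplat⟩ := exists_arc hm hq hv (isCoprime_aux y κ)
  have hPx : ((κ * y.den + y.num : ℤ) : ℝ) / (y.den : ℕ) = κ + y := cast_aux y κ
  have h3 : nu (fun j => v (i₀ + j)) m t = ((κ * y.den + y.num : ℤ) : ℝ) / (y.den : ℕ) := by
    rw [nu_shift_word v m hv.2.1 t i₀, hnu, hPx]
  obtain ⟨h4, h5⟩ := (hplat t).1 h3
  exact h.per_lt h4 h5 hn ht

end Pool.Agent.Work.MLC
end

section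
set_option autoImplicit false

/-! # The mid ray of a rational plateau: the exact limb disc, mild hypothesis (helper13)

Everything is deduced from the statement `ExExact n x`: the limb disc inequality with the
combinatorial rotation number `x`. -/

namespace Pool.Agent.Work.MLC

open Filter Topology Metric Set Complex Pool.Agent.Work.MLC.Sat

/-- the limb disc inequality with the combinatorial rotation number -/
def ExExact (n : ℕ) (x : ℚ) : Prop := ∀ c b L : ℂ, c ∈ MM → (c, b) ∈ Per n →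
  mul n (c, b) = exp L → 0 < L.re → Ex n x c b → ∃ j : ℤ,
    ‖L - axisPt x - 2 * Real.pi * j * I‖ ^ 2 ≤ 2 * n * Real.log 2 / x.den * L.re

/-- a limit of exterior pairs with `nu = x + k` and potential tending to `0`: the multiplier is
`exp (2 π i x)` or it is in the PLY disc of `x` -/
theorem bottom_of {n : ℕ} (hn : 0 < n) {x : ℚ} (hx0 : 0 < x) (hx1 : x < 1)
    (hQ : 400 * (n : ℝ) ^ 2 ≤ x.den) (hEx : ExExact n x) {k : ℤ}
    {y : ℕ → ℂ × ℂ} {θ : ℕ → ℝ} {w : ℕ → ℤ} (hE : ∀ j, ExtP n (y j).1 (y j).2 (θ j) w)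
    (hν : ∀ j, Circ.nu w n (θ j) = x + k) {y₀ : ℂ × ℂ} (hy : Tendsto y atTop (𝓝 y₀))
    (hG : Tendsto (fun j => G (y j).1 (y j).1) atTop (𝓝 0)) :
    (mul n y₀ = exp (axisPt x)) ∨
      ∃ v : ℂ, v ≠ 0 ∧ mul n y₀ = exp (v + axisPt x) ∧
        ‖v‖ ^ 2 ≤ 2 * n * Real.log 2 / x.den * v.re := by
  obtain ⟨c₀, b₀⟩ := y₀
  have hn1 : (1 : ℝ) ≤ n := by exact_mod_cast hn
  have hn0 : (0 : ℝ) < n := by linarith
  have hq0 : (0 : ℝ) < x.den := by exact_mod_cast x.pos
  -- the limit pair
  have hper : (c₀, b₀) ∈ Per n := (isClosed_Per n).mem_of_tendsto hy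
    (Eventually.of_forall fun j => (hE j).2.2.1)
  have hG0 : G c₀ c₀ = 0 := tendsto_nhds_unique ((continuous_G_diag'.tendsto (c₀, b₀)).comp hy) hG
  have hM : c₀ ∈ MM := mem_M_iff'.2 hG0
  have hM0 : G c₀ 0 = 0 := mem_M_iff.1 hM
  have hmt : Tendsto (fun j => mul n (y j)) atTop (𝓝 (mul n (c₀, b₀))) :=
    ((continuous_mul' n).tendsto _).comp hy
  have h1j : ∀ j, 1 < ‖mul n (y j)‖ := fun j =>
    one_lt_norm_mult_of_ext hn (hE j).1 (hE j).2.2.1
  have h1 : 1 ≤ ‖mul n (c₀, b₀)‖ := ge_of_tendsto' hmt.norm fun j => (h1j j).le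
  have hm0 : mul n (c₀, b₀) ≠ 0 := by
    intro h
    rw [h, norm_zero] at h1
    linarith
  rcases h1.eq_or_lt with h | h
  · -- neutral
    left
    set S : Set ℂ := {v | ‖v‖ ≤ 1 ∧ ‖v‖ ^ 2 ≤ 81 * n * v.re} with hS
    have hSc : IsCompact S := by
      refine (isCompact_closedBall (0 : ℂ) 1).of_isClosed_subset ?_ fun v hv => by simpa using hv.1
      have h2 : IsClosed {v : ℂ | ‖v‖ ≤ 1} := isClosed_le (by fun_prop) (by fun_prop)
      have h3 : IsClosed {v : ℂ | ‖v‖ ^ 2 ≤ 81 * n * v.re} := isClosed_le (by fun_prop) (by fun_prop)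
      exact h2.inter h3
    have hS2 : IsClosed ((fun v => exp (v + axisPt x)) '' S) :=
      (hSc.image (by fun_prop)).isClosed
    have hlogt : Tendsto (fun j => Real.log ‖mul n (y j)‖) atTop (𝓝 0) := by
      have h2 := (Real.continuousAt_log (by linarith : ‖mul n (c₀, b₀)‖ ≠ 0)).tendsto.comp hmt.norm
      rw [← h, Real.log_one] at h2
      exact h2
    have hev1 : ∀ᶠ j in atTop, Real.log ‖mul n (y j)‖ < 1 / (81 * n) :=
      hlogt.eventually (gt_mem_nhds (by positivity))
    have hev2 : ∀ᶠ j in atTop, G (y j).1 (y j).1 ≤ 4 :=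
      (hG.eventually (gt_mem_nhds (by norm_num : (0 : ℝ) < 4))).mono fun _ h => h.le
    have hmem : mul n (c₀, b₀) ∈ (fun v => exp (v + axisPt x)) '' S := by
      refine hS2.mem_of_tendsto hmt ?_
      filter_upwards [hev1, hev2] with j a1 a2
      obtain ⟨-, ℓ, hℓ, hply⟩ := extP_ply hn (hE j) a2
      have hre : ℓ.re = Real.log ‖mul n (y j)‖ := by
        have : mul n (y j) = exp ℓ := hℓ.symm
        rw [this, norm_exp, Real.log_exp]
      rw [hν j] at hply
      refine ⟨ℓ - 2 * Real.pi * ((x + k : ℝ) : ℂ) * I, ⟨?_, ?_⟩, ?_⟩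
      · apply le_of_sq_le_sq _ (by norm_num)
        refine hply.trans ?_
        rw [hre]
        have h3 : 81 * (n : ℝ) * Real.log ‖mul n (y j)‖ ≤ 81 * n * (1 / (81 * n)) := by gcongr
        have h4 : 81 * (n : ℝ) * (1 / (81 * n)) = 1 := by field_simp
        rw [one_pow]
        linarith
      · have : (ℓ - 2 * Real.pi * ((x + k : ℝ) : ℂ) * I).re = ℓ.re := by simp
        rw [this]; exact hply
      · show exp (ℓ - 2 * Real.pi * ((x + k : ℝ) : ℂ) * I + axisPt x) = mul n (y j)
        have e : ℓ - 2 * Real.pi * ((x + k : ℝ) : ℂ) * I + axisPt x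
            = ℓ - ((k : ℤ) : ℂ) * (2 * Real.pi * I) := by unfold axisPt; push_cast; ring
        rw [e, exp_sub, Complex.exp_int_mul_two_pi_mul_I, div_one]
        exact hℓ
    obtain ⟨v, ⟨-, hv2⟩, hv3⟩ := hmem
    have hv3' : mul n (c₀, b₀) = exp (v + axisPt x) := hv3.symm
    have hvre : v.re = 0 := by
      have h2 : ‖mul n (c₀, b₀)‖ = Real.exp v.re := by
        rw [hv3', norm_exp, Complex.add_re, axisPt_re13, add_zero]
      rw [← h] at h2
      exact Real.exp_eq_one_iff _ |>.1 h2.symm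
    rw [hvre, mul_zero] at hv2
    have hv0 : v = 0 := by
      have h2 : ‖v‖ ^ 2 = 0 := le_antisymm hv2 (by positivity)
      have h3 : ‖v‖ = 0 := by simpa using h2
      exact norm_eq_zero.1 h3
    rw [hv3', hv0, zero_add]
  · -- repelling
    right
    have hre : 0 < (Complex.log (mul n (c₀, b₀))).re := by
      rw [Complex.log_re]; exact Real.log_pos h
    have hex : Ex n x c₀ b₀ := by
      refine ex_of_ext hn hM0 hper h ?_
      refine hy.frequently (Eventually.frequently (Eventually.of_forall fun j => ?_))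
      exact ⟨(hE j).2.2.1, θ j, w, hE j, k, hν j⟩
    obtain ⟨j, hj⟩ := hEx c₀ b₀ _ hM hper (Complex.exp_log hm0).symm hre hex
    set L : ℂ := Complex.log (mul n (c₀, b₀)) with hL
    have hvre : (L - axisPt x - 2 * Real.pi * j * I).re = L.re := by
      rw [Complex.sub_re, Complex.sub_re, axisPt_re13]
      simp
    refine ⟨L - axisPt x - 2 * Real.pi * j * I, ?_, ?_, ?_⟩
    · intro h0
      rw [h0, Complex.zero_re] at hvre
      linarith
    · have e : L - axisPt x - 2 * Real.pi * j * I + axisPt x = L - (j : ℂ) * (2 * Real.pi * I) := by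
        ring
      rw [e, exp_sub, Complex.exp_int_mul_two_pi_mul_I, div_one, hL, Complex.exp_log hm0]
    · rw [hvre]; exact hj

/-- **LOW** from the exact limb disc inequality -/
theorem low_of {n : ℕ} (hn : 0 < n) {x : ℚ} (hx0 : 0 < x) (hx1 : x < 1)
    (hQ : 400 * (n : ℝ) ^ 2 ≤ x.den) (hEx : ExExact n x) {k : ℤ}
    {w : ℕ → ℤ} (hw : Bits n w) {tm tp : ℝ} (hlt : tm < tp) (htp : tp ≤ tm + 1)
    (hν : ∀ θ, tm < θ → θ < tp → Circ.nu w n θ = x + k) {c b : ℂ} {θ : ℝ}
    (hE : ExtP n c b θ w) (hθ : |θ - (tm + tp) / 2| ≤ (tp - tm) / 4)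
    (hG : G c c ≤ (tp - tm) / 5) :
    ∃ ℓ : ℂ, exp ℓ = mul n (c, b) ∧ 0 < ℓ.re ∧ ‖ℓ - axisPt x‖ ≤ 7 * n / x.den := by
  have hn1 : (1 : ℝ) ≤ n := by exact_mod_cast hn
  have hn0 : (0 : ℝ) < n := by linarith
  have hlog : Real.log 2 < 0.7 := by linarith [Real.log_two_lt_d9]
  have hlog0 : 0 < Real.log 2 := Real.log_pos (by norm_num)
  have hx0' : (0 : ℝ) < x := by exact_mod_cast hx0
  have hx1' : (x : ℝ) < 1 := by exact_mod_cast hx1
  have hq0 : (0 : ℝ) < x.den := by exact_mod_cast x.pos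
  have hpi := Real.pi_gt_three
  set r : ℝ := 2 * n * Real.log 2 / x.den with hr
  have hr0 : 0 < r := by rw [hr]; positivity
  have hr1 : r ≤ 1 / 100 := by
    have hn4 : (n : ℝ) ≤ n ^ 2 := by
      calc (n : ℝ) = n ^ 1 := (pow_one _).symm
        _ ≤ n ^ 2 := pow_le_pow_right₀ hn1 (by norm_num)
    rw [hr, div_le_iff₀ hq0]
    linarith [mul_le_mul_of_nonneg_left hlog.le hn0.le]
  set T : ℝ := 7 / 10 / r with hT
  have hT0 : 0 < T := by rw [hT]; positivity
  set W : ℝ := 2 * Real.pi * (tp - tm) with hW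
  have hW0 : 0 < W := by rw [hW]; have := sub_pos.2 hlt; positivity
  set y0 : ℝ := 2 * Real.pi * tm with hy0
  set e0 : ℂ := exp (-axisPt x) with he0
  have he0n : ‖e0‖ = 1 := by rw [he0, norm_exp, Complex.neg_re, axisPt_re13]; simp
  -- the rectangle
  set U : Set ℂ := Ioo 0 W ×ℂ Ioo y0 (y0 + W) with hU
  have hUo : IsOpen U := isOpen_Ioo.reProdIm isOpen_Ioo
  have hUb : Bornology.IsBounded U := (Metric.isBounded_Ioo _ _).reProdIm (Metric.isBounded_Ioo _ _)
  have hUm : ∀ z, z ∈ U ↔ (0 < z.re ∧ z.re < W) ∧ (y0 < z.im ∧ z.im < y0 + W) := fun z => by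
    rw [hU, Complex.mem_reProdIm, mem_Ioo, mem_Ioo]
  have hUre : ∀ z ∈ U, 0 < z.re := fun z hz => ((hUm z).1 hz).1.1
  have hUν : ∀ z ∈ U, Circ.nu w n (z.im / (2 * Real.pi)) = x + k := fun z hz => by
    obtain ⟨-, h1, h2⟩ := (hUm z).1 hz
    refine hν _ ?_ ?_
    · rw [lt_div_iff₀ (by positivity)]; rw [hy0] at h1; linarith
    · rw [div_lt_iff₀ (by positivity)]; rw [hy0, hW] at h2; linarith
  obtain ⟨C, hC⟩ := rw_bound hn hw W
  have hUC : ∀ z ∈ U, ‖rw' n w z‖ ≤ C := fun z hz =>
    (hC z (hUre z hz) ((hUm z).1 hz).1.2.le).1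
  set u : ℂ → ℂ := fun z => rw' n w z * e0 with hu
  have hu1 : ∀ z, 0 < z.re → 1 < ‖u z‖ := fun z hz => by
    rw [hu]; simp only [norm_mul, he0n, mul_one]; exact one_lt_rw hn hw hz
  have hune : ∀ z, 0 < z.re → u z - 1 ≠ 0 := fun z hz h => by
    have := hu1 z hz
    rw [sub_eq_zero.1 h, norm_one] at this
    exact lt_irrefl _ this
  have huC : ∀ z ∈ U, ‖u z - 1‖ ≤ C + 1 := fun z hz => by
    refine (norm_sub_le _ _).trans ?_
    rw [norm_one, hu]; simp only [norm_mul, he0n, mul_one]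
    linarith [hUC z hz]
  have hud : ∀ z, 0 < z.re → DifferentiableAt ℂ u z := fun z hz =>
    (differentiableAt_rw hn hw hz).mul_const _
  -- the comparison function
  set κ : ℂ := -(Real.pi / W : ℝ) with hκ
  set H : ℂ → ℂ := fun z => I * exp (κ * (z - y0 * I)) - (Real.exp (-Real.pi) : ℝ) with hH
  have hHre : ∀ z : ℂ, (H z).re = Real.exp (-(Real.pi / W) * z.re)
      * Real.sin (Real.pi / W * (z.im - y0)) - Real.exp (-Real.pi) := by
    intro z
    have h1 : (κ * (z - y0 * I)).re = -(Real.pi / W) * z.re := by rw [hκ]; simp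
    have h2 : (κ * (z - y0 * I)).im = -(Real.pi / W * (z.im - y0)) := by rw [hκ]; simp
    have h3 : H z = I * exp (κ * (z - y0 * I)) - (Real.exp (-Real.pi) : ℝ) := rfl
    rw [h3, Complex.sub_re, Complex.ofReal_re, Complex.mul_re, Complex.I_re, Complex.I_im,
      Complex.exp_im, h1, h2, Real.sin_neg]
    ring
  have hHc : Continuous fun z : ℂ => (H z).re := by
    simp only [hHre]; fun_prop
  have hH1 : ∀ z : ℂ, 0 ≤ z.re → (H z).re ≤ 1 - Real.exp (-Real.pi) := by
    intro z hz
    rw [hHre]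
    have h1 : Real.exp (-(Real.pi / W) * z.re) ≤ 1 := by
      rw [Real.exp_le_one_iff]
      have : 0 ≤ Real.pi / W * z.re := by positivity
      linarith
    have h2 := Real.sin_le_one (Real.pi / W * (z.im - y0))
    have h3 := Real.exp_pos (-(Real.pi / W) * z.re)
    linarith [mul_le_mul_of_nonneg_left h2 h3.le]
  -- the functions
  have key : ∀ N : ℕ, ∀ z ∈ U,
      ‖exp (-(N * ((u z - 1)⁻¹ + 1 / 2)) + N * (T * H z)) * (u z - 1)‖ ≤ C + 1 := by
    intro N
    set f : ℂ → ℂ := fun z => exp (-(N * ((u z - 1)⁻¹ + 1 / 2)) + N * (T * H z)) * (u z - 1) with hf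
    have hfn : ∀ z, ‖f z‖ = Real.exp (-(N * (((u z - 1)⁻¹).re + 1 / 2)) + N * (T * (H z).re))
        * ‖u z - 1‖ := by
      intro z
      rw [hf]
      simp only [norm_mul, norm_exp]
      congr 2
      have h1 : ((N : ℂ) * ((u z - 1)⁻¹ + 1 / 2)).re = N * (((u z - 1)⁻¹).re + 1 / 2) := by
        have := Complex.re_ofReal_mul (N : ℝ) ((u z - 1)⁻¹ + 1 / 2)
        simp only [Complex.ofReal_natCast] at this
        rw [this, Complex.add_re]
        norm_num
      have h2 : ((N : ℂ) * (T * H z)).re = N * (T * (H z).re) := by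
        have := Complex.re_ofReal_mul (N : ℝ) (T * H z)
        simp only [Complex.ofReal_natCast] at this
        rw [this, Complex.re_ofReal_mul]
      rw [Complex.add_re, Complex.neg_re, h1, h2]
    have hfd : DifferentiableOn ℂ f U := by
      intro z hz
      have h0 := hud z (hUre z hz)
      have h1 : DifferentiableAt ℂ (fun z => (u z - 1)⁻¹) z :=
        (h0.sub_const 1).inv (hune z (hUre z hz))
      have h2 : DifferentiableAt ℂ H z := by rw [hH]; fun_prop
      refine DifferentiableAt.differentiableWithinAt ?_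
      refine DifferentiableAt.mul (DifferentiableAt.cexp ?_) (h0.sub_const 1)
      exact ((h1.add_const _).const_mul _).neg.add ((h2.const_mul _).const_mul _)
    intro z hz
    refine max_limsup hUo hUb hfd ?_ hz
    intro ζ hζ ε hε
    have hζcl : ζ ∈ closure U := frontier_subset_closure hζ
    have hζU : ζ ∉ U := by
      rw [hUo.frontier_eq] at hζ; exact hζ.2
    have hcl : closure U ⊆ Icc 0 W ×ℂ Icc y0 (y0 + W) := by
      rw [hU, Complex.closure_reProdIm, closure_Ioo hW0.ne, closure_Ioo (by linarith)]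
    have hζ2 := hcl hζcl
    rw [Complex.mem_reProdIm, mem_Icc, mem_Icc] at hζ2
    obtain ⟨⟨hζ0, hζW⟩, hζy, hζy'⟩ := hζ2
    rcases hζ0.eq_or_lt with hζre | hζre
    · -- the bottom
      by_contra hcon
      rw [not_eventually] at hcon
      have hcon' : ∃ᶠ z in 𝓝[U] ζ, C + 1 + ε ≤ ‖f z‖ ∧ z ∈ U :=
        (hcon.mono fun z h => not_lt.1 h).and_eventually self_mem_nhdsWithin
      obtain ⟨s, hs, hs2⟩ := exists_seq_forall_of_frequently hcon'
      have hst : Tendsto s atTop (𝓝 ζ) := hs.mono_right nhdsWithin_le_nhds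
      have hsU : ∀ j, s j ∈ U := fun j => (hs2 j).2
      -- a convergent subsequence of the pairs
      have hKc : IsCompact (closedBall (0 : ℂ) (2 * Real.exp W + 100) ×ˢ
          closedBall (0 : ℂ) (1 + (2 * Real.exp W + 100))) :=
        (isCompact_closedBall _ _).prod (isCompact_closedBall _ _)
      obtain ⟨y₀, -, φ, hφ, hφt⟩ := hKc.tendsto_subseq (x := fun j => (cOf (s j), bw n w (s j)))
        fun j => by
          have := hC (s j) (hUre _ (hsU j)) ((hUm _).1 (hsU j)).1.2.le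
          exact ⟨by simpa using this.2.1, by simpa using this.2.2⟩
      have hsφ : Tendsto (fun j => s (φ j)) atTop (𝓝 ζ) := hst.comp hφ.tendsto_atTop
      have hbot := bottom_of hn hx0 hx1 hQ hEx (k := k) (y := fun j => (cOf (s (φ j)), bw n w (s (φ j))))
        (θ := fun j => (s (φ j)).im / (2 * Real.pi)) (w := w)
        (fun j => bw_spec hn hw (hUre _ (hsU _))) (fun j => hUν _ (hsU _)) hφt (by
          have h1 : Tendsto (fun j => (s (φ j)).re) atTop (𝓝 0) := by
            have := (Complex.continuous_re.tendsto ζ).comp hsφ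
            rw [← hζre] at this
            exact this
          refine h1.congr fun j => ?_
          exact (ang_cOf' (hUre _ (hsU _))).2.symm)
      have hmt : Tendsto (fun j => u (s (φ j))) atTop (𝓝 (mul n y₀ * e0)) := by
        have h1 := (((continuous_mul' n).tendsto y₀).comp hφt).mul_const e0
        exact h1
      have hge : ∀ j, C + 1 + ε ≤ ‖f (s (φ j))‖ := fun j => (hs2 (φ j)).1
      have hexpx : exp (axisPt x) * e0 = 1 := by rw [he0, ← exp_add, add_neg_cancel, exp_zero]
      rcases hbot with hb | ⟨v, hv0, hv, hvp⟩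
      · -- the multiplier tends to the root of unity
        rw [hb, hexpx] at hmt
        have h1 : Tendsto (fun j => Real.exp (N * T) * ‖u (s (φ j)) - 1‖) atTop (𝓝 0) := by
          have h2 : Tendsto (fun j => ‖u (s (φ j)) - 1‖) atTop (𝓝 ‖(1 : ℂ) - 1‖) :=
            (hmt.sub_const 1).norm
          rw [sub_self, norm_zero] at h2
          simpa using h2.const_mul (Real.exp (N * T))
        have hC0 : 0 ≤ C := (norm_nonneg _).trans (hUC _ (hsU 0))
        obtain ⟨j, hj⟩ := (h1.eventually (gt_mem_nhds (by linarith : (0 : ℝ) < C + 1 + ε))).exists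
        have h2 := hge j
        rw [hfn] at h2
        have h3 : Real.exp (-(N * (((u (s (φ j)) - 1)⁻¹).re + 1 / 2)) + N * (T * (H (s (φ j))).re))
            ≤ Real.exp (N * T) := by
          apply Real.exp_le_exp.2
          have h4 := (re_inv_gt (hu1 _ (hUre _ (hsU (φ j))))).le
          have h5 := hH1 (s (φ j)) (hUre _ (hsU (φ j))).le
          have h6 : T * (H (s (φ j))).re ≤ T * 1 := by
            apply mul_le_mul_of_nonneg_left _ hT0.le
            linarith [Real.exp_pos (-Real.pi)]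
          have h7 : (0 : ℝ) ≤ N := Nat.cast_nonneg N
          linarith [mul_le_mul_of_nonneg_left h6 h7, mul_nonneg h7 h4]
        have h4 := mul_le_mul_of_nonneg_right h3 (norm_nonneg (u (s (φ j)) - 1))
        linarith
      · -- the multiplier is in the PLY disc
        have e1 : mul n y₀ * e0 = exp v := by rw [hv, exp_add, mul_assoc, hexpx, mul_one]
        rw [e1] at hmt
        have h2 := re_inv_exp hr0 (by linarith) hv0 hvp
        have hvne : exp v - 1 ≠ 0 := by
          intro h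
          rw [h, inv_zero, Complex.zero_re] at h2
          linarith [hT0]
        have hinv : Tendsto (fun j => ((u (s (φ j)) - 1)⁻¹).re) atTop (𝓝 ((exp v - 1)⁻¹).re) :=
          (Complex.continuous_re.tendsto _).comp ((hmt.sub_const 1).inv₀ hvne)
        have hHt : Tendsto (fun j => (H (s (φ j))).re) atTop (𝓝 (H ζ).re) :=
          (hHc.tendsto ζ).comp hsφ
        have h3 : Tendsto (fun j => ‖f (s (φ j))‖) atTop
            (𝓝 (Real.exp (-(N * (((exp v - 1)⁻¹).re + 1 / 2)) + N * (T * (H ζ).re))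
              * ‖exp v - 1‖)) := by
          have h4 : Tendsto (fun j => -(N * (((u (s (φ j)) - 1)⁻¹).re + 1 / 2))
              + N * (T * (H (s (φ j))).re)) atTop
              (𝓝 (-(N * (((exp v - 1)⁻¹).re + 1 / 2)) + N * (T * (H ζ).re))) :=
            ((hinv.add_const _).const_mul _).neg.add ((hHt.const_mul _).const_mul _)
          have h5 := ((Real.continuous_exp.tendsto _).comp h4).mul (hmt.sub_const 1).norm
          refine h5.congr fun j => ?_
          rw [hfn]; rfl
        have h6 : C + 1 + ε ≤ Real.exp (-(N * (((exp v - 1)⁻¹).re + 1 / 2)) + N * (T * (H ζ).re))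
              * ‖exp v - 1‖ := ge_of_tendsto' h3 hge
        have h7 : ‖exp v - 1‖ ≤ C + 1 :=
          le_of_tendsto' (hmt.sub_const 1).norm fun j => huC _ (hsU _)
        have h8 : Real.exp (-(N * (((exp v - 1)⁻¹).re + 1 / 2)) + N * (T * (H ζ).re)) ≤ 1 := by
          rw [Real.exp_le_one_iff]
          have h9 := hH1 ζ hζ0
          have h10 : T * (H ζ).re ≤ T * 1 := by
            apply mul_le_mul_of_nonneg_left _ hT0.le
            linarith [Real.exp_pos (-Real.pi)]
          have h11 : (0 : ℝ) ≤ N := Nat.cast_nonneg N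
          have h12 : T * (H ζ).re ≤ ((exp v - 1)⁻¹).re + 1 / 2 := by
            rw [← hT] at h2; linarith
          linarith [mul_le_mul_of_nonneg_left h12 h11]
        have h9 := mul_le_mul h8 h7 (norm_nonneg _) zero_le_one
        linarith
    · -- the other sides
      have hHζ : (H ζ).re ≤ 0 := by
        rw [hHre, sub_nonpos]
        by_cases hW' : ζ.re = W
        · have h1 : Real.exp (-(Real.pi / W) * ζ.re) = Real.exp (-Real.pi) := by
            rw [hW']; congr 1; field_simp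
          rw [h1]
          have h2 := Real.sin_le_one (Real.pi / W * (ζ.im - y0))
          linarith [mul_le_mul_of_nonneg_left h2 (Real.exp_pos (-Real.pi)).le]
        · have h3 : ζ.im = y0 ∨ ζ.im = y0 + W := by
            by_contra hcon
            push Not at hcon
            exact hζU ((hUm ζ).2 ⟨⟨hζre, lt_of_le_of_ne hζW hW'⟩,
              lt_of_le_of_ne hζy (Ne.symm hcon.1), lt_of_le_of_ne hζy' hcon.2⟩)
          have h4 : Real.sin (Real.pi / W * (ζ.im - y0)) = 0 := by
            rcases h3 with h3 | h3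
            · rw [h3]; simp
            · rw [h3]
              have : Real.pi / W * (y0 + W - y0) = Real.pi := by field_simp; ring
              rw [this, Real.sin_pi]
          rw [h4, mul_zero]
          exact (Real.exp_pos _).le
      have hC0 : 0 ≤ C := by
        obtain ⟨z', hz'⟩ := (mem_closure_iff_frequently.1 hζcl).exists
        exact (norm_nonneg _).trans (hUC _ hz')
      have h1 : Tendsto (fun z => Real.exp (N * (T * (H z).re)) * (C + 1)) (𝓝 ζ)
          (𝓝 (Real.exp (N * (T * (H ζ).re)) * (C + 1))) := by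
        have : Continuous fun z => Real.exp (N * (T * (H z).re)) * (C + 1) := by fun_prop
        exact this.tendsto ζ
      have h2 : Real.exp (N * (T * (H ζ).re)) * (C + 1) < C + 1 + ε := by
        have h3 : Real.exp (N * (T * (H ζ).re)) ≤ 1 := by
          rw [Real.exp_le_one_iff]
          exact mul_nonpos_of_nonneg_of_nonpos (Nat.cast_nonneg N)
            (mul_nonpos_of_nonneg_of_nonpos hT0.le hHζ)
        linarith [mul_le_mul_of_nonneg_right h3 (by linarith : (0 : ℝ) ≤ C + 1)]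
      filter_upwards [mem_nhdsWithin_of_mem_nhds (h1.eventually (gt_mem_nhds h2)),
        self_mem_nhdsWithin] with z' a1 a2
      rw [hfn]
      refine lt_of_le_of_lt ?_ a1
      have h4 := (re_inv_gt (hu1 _ (hUre _ a2))).le
      have h5 : Real.exp (-(N * (((u z' - 1)⁻¹).re + 1 / 2)) + N * (T * (H z').re))
          ≤ Real.exp (N * (T * (H z').re)) := by
        apply Real.exp_le_exp.2
        have : (0 : ℝ) ≤ N * (((u z' - 1)⁻¹).re + 1 / 2) := by positivity
        linarith
      exact mul_le_mul h5 (huC _ a2) (norm_nonneg _) (Real.exp_pos _).le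
  -- the point
  set z : ℂ := (G c c : ℂ) + 2 * Real.pi * θ * I with hz
  have hzre : z.re = G c c := by rw [hz]; simp
  have hzim : z.im = 2 * Real.pi * θ := by rw [hz]; simp
  have hGpos : 0 < G c c := hE.1
  have hzc : cOf z = c := by
    refine cOf_unique (fun h => ?_) ?_ hE.2.1
    · have := mem_M_iff'.1 h; linarith
    · rw [hzre]; have := G_c_eq c; linarith
  have hzθ : z.im / (2 * Real.pi) = θ := by rw [hzim]; field_simp
  have hab := abs_le.1 hθ
  have hzU : z ∈ U := by
    rw [hUm, hzre, hzim]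
    refine ⟨⟨hGpos, ?_⟩, ?_, ?_⟩
    · rw [hW]; linarith [sub_pos.2 hlt, mul_lt_mul_of_pos_right hpi (sub_pos.2 hlt)]
    · rw [hy0]
      have : tm < θ := by linarith [sub_pos.2 hlt]
      linarith [mul_lt_mul_of_pos_left this Real.pi_pos]
    · rw [hy0, hW]
      have : θ < tp := by linarith [sub_pos.2 hlt]
      linarith [mul_lt_mul_of_pos_left this Real.pi_pos]
  have hbz : bw n w z = b := bw_eq hn hw (hUre z hzU) (by rw [hzc, hzθ]; exact hE)
  have hrz : rw' n w z = mul n (c, b) := by unfold rw'; rw [hzc, hbz]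
  -- the comparison function at the point
  have hHz : 1 / 2 ≤ (H z).re := by
    rw [hHre, hzre, hzim, hW, hy0]
    have hl : 0 < tp - tm := sub_pos.2 hlt
    have h1 : 0.9 ≤ Real.exp (-(Real.pi / (2 * Real.pi * (tp - tm))) * G c c) := by
      have h2 : -(Real.pi / (2 * Real.pi * (tp - tm))) * G c c ≥ -0.1 := by
        have h3 : Real.pi / (2 * Real.pi * (tp - tm)) = 1 / (2 * (tp - tm)) := by field_simp
        rw [h3]
        have h4 : 1 / (2 * (tp - tm)) * G c c ≤ 0.1 := by
          rw [div_mul_eq_mul_div, div_le_iff₀ (by positivity)]; linarith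
        linarith
      have h3 := Real.add_one_le_exp (-(Real.pi / (2 * Real.pi * (tp - tm))) * G c c)
      linarith
    have h2 : Real.pi / (2 * Real.pi * (tp - tm)) * (2 * Real.pi * θ - 2 * Real.pi * tm)
        = Real.pi * ((θ - tm) / (tp - tm)) := by field_simp
    rw [h2]
    set s : ℝ := (θ - tm) / (tp - tm) with hs
    have hs1 : 1 / 4 ≤ s := by rw [hs, le_div_iff₀ hl]; linarith
    have hs2 : s ≤ 3 / 4 := by rw [hs, div_le_iff₀ hl]; linarith
    have h3 : 0.7 ≤ Real.sin (Real.pi * s) := by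
      have h4 : Real.sin (Real.pi / 4) ≤ Real.sin (Real.pi * s) := by
        rcases le_total s (1 / 2) with h5 | h5
        · apply Real.sin_le_sin_of_le_of_le_pi_div_two <;> linarith [mul_le_mul_of_nonneg_left h5 Real.pi_pos.le,
              mul_le_mul_of_nonneg_left hs1 Real.pi_pos.le, mul_le_mul_of_nonneg_left hs2 Real.pi_pos.le]
        · rw [← Real.sin_pi_sub (Real.pi * s)]
          apply Real.sin_le_sin_of_le_of_le_pi_div_two <;> linarith [mul_le_mul_of_nonneg_left h5 Real.pi_pos.le,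
              mul_le_mul_of_nonneg_left hs1 Real.pi_pos.le, mul_le_mul_of_nonneg_left hs2 Real.pi_pos.le]
      rw [Real.sin_pi_div_four] at h4
      have h5 : (1.4 : ℝ) ≤ Real.sqrt 2 := Real.le_sqrt_of_sq_le (by norm_num)
      linarith
    have h4 : Real.exp (-Real.pi) ≤ 0.1 := by
      have h5 : Real.exp (-Real.pi) ≤ Real.exp (-3) := Real.exp_le_exp.2 (by linarith)
      have h6 : (10 : ℝ) ≤ Real.exp 3 := by
        have h7 : Real.exp 3 = Real.exp 1 ^ 3 := by rw [← Real.exp_nat_mul]; norm_num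
        have h8 := Real.exp_one_gt_d9
        rw [h7]
        calc (10 : ℝ) ≤ 2.7 ^ 3 := by norm_num
          _ ≤ Real.exp 1 ^ 3 := by gcongr; linarith
      have h7 : Real.exp (-3) ≤ 0.1 := by
        rw [Real.exp_neg]
        rw [inv_le_comm₀ (Real.exp_pos _) (by norm_num)]
        norm_num
        linarith
      linarith
    have h5 : 0.9 * 0.7 ≤ Real.exp (-(Real.pi / (2 * Real.pi * (tp - tm))) * G c c)
        * Real.sin (Real.pi * s) := mul_le_mul h1 h3 (by norm_num) (Real.exp_pos _).le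
    linarith
  -- the conclusion
  have hmain : T / 2 ≤ ((u z - 1)⁻¹).re + 1 / 2 := by
    by_contra hcon
    push Not at hcon
    set δ : ℝ := T / 2 - (((u z - 1)⁻¹).re + 1 / 2) with hδ
    have hδ0 : 0 < δ := by rw [hδ]; linarith
    have hp : 0 < ‖u z - 1‖ := norm_pos_iff.2 (hune z (hUre z hzU))
    have h1 : Tendsto (fun N : ℕ => (N : ℝ) * δ) atTop atTop :=
      tendsto_natCast_atTop_atTop.atTop_mul_const hδ0
    have h2 := Real.tendsto_exp_atTop.comp h1
    obtain ⟨N, hN⟩ := (h2.eventually_gt_atTop ((C + 1) / ‖u z - 1‖)).exists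
    have h3 := key N z hzU
    rw [norm_mul, norm_exp] at h3
    have h4 : Real.exp (N * δ) ≤ Real.exp ((-(N * ((u z - 1)⁻¹ + 1 / 2)) + N * (T * H z) : ℂ).re) := by
      apply Real.exp_le_exp.2
      have h5 : (-(N * ((u z - 1)⁻¹ + 1 / 2)) + N * (T * H z) : ℂ).re
          = -(N * (((u z - 1)⁻¹).re + 1 / 2)) + N * (T * (H z).re) := by
        have h6 : ((N : ℂ) * ((u z - 1)⁻¹ + 1 / 2)).re = N * (((u z - 1)⁻¹).re + 1 / 2) := by
          have := Complex.re_ofReal_mul (N : ℝ) ((u z - 1)⁻¹ + 1 / 2)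
          simp only [Complex.ofReal_natCast] at this
          rw [this, Complex.add_re]
          norm_num
        have h7 : ((N : ℂ) * (T * H z)).re = N * (T * (H z).re) := by
          have := Complex.re_ofReal_mul (N : ℝ) (T * H z)
          simp only [Complex.ofReal_natCast] at this
          rw [this, Complex.re_ofReal_mul]
        rw [Complex.add_re, Complex.neg_re, h6, h7]
      rw [h5, hδ]
      have h8 : T / 2 ≤ T * (H z).re := by linarith [mul_le_mul_of_nonneg_left hHz hT0.le]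
      have h9 : (0 : ℝ) ≤ N := Nat.cast_nonneg N
      linarith [mul_le_mul_of_nonneg_left h8 h9]
    have h5 : C + 1 < Real.exp (N * δ) * ‖u z - 1‖ := by
      rw [div_lt_iff₀ hp] at hN
      exact hN
    have h6 := mul_le_mul_of_nonneg_right h4 hp.le
    linarith
  have hsmall : ‖u z - 1‖ ≤ 10 / 3 * r := by
    have h1 : 3 / 10 / r ≤ ‖(u z - 1)⁻¹‖ := by
      have h2 := Complex.re_le_norm ((u z - 1)⁻¹)
      have h3 : T / 2 = 3 / 10 / r + 1 / 20 / r := by rw [hT]; field_simp; norm_num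
      have h4 : 1 / 2 ≤ 1 / 20 / r := by rw [le_div_iff₀ hr0]; linarith
      linarith
    have hp : 0 < ‖u z - 1‖ := norm_pos_iff.2 (hune z (hUre z hzU))
    rw [norm_inv, div_div] at h1
    rw [div_le_iff₀ (by positivity), inv_mul_eq_div, le_div_iff₀ hp] at h1
    linarith
  have hl1 := Complex.norm_log_one_add_half_le_self (z := u z - 1) (by linarith)
  rw [add_sub_cancel] at hl1
  refine ⟨Complex.log (u z) + axisPt x, ?_, ?_, ?_⟩
  · have hu0 : u z ≠ 0 := by
      intro h
      have := hu1 z (hUre z hzU)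
      rw [h, norm_zero] at this
      linarith
    rw [exp_add, Complex.exp_log hu0, hu]
    simp only
    rw [mul_assoc, he0, ← exp_add, neg_add_cancel, exp_zero, mul_one, hrz]
  · rw [Complex.add_re, axisPt_re13, add_zero, Complex.log_re]
    exact Real.log_pos (hu1 z (hUre z hzU))
  · rw [add_sub_cancel_right]
    refine hl1.trans ?_
    have h1 : 3 / 2 * ‖u z - 1‖ ≤ 5 * r := by linarith
    refine h1.trans ?_
    rw [hr, ← mul_div_assoc]
    apply div_le_div_of_nonneg_right _ hq0.le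
    linarith [mul_le_mul_of_nonneg_left hlog.le hn0.le]

namespace Sat

open MidRay in
/-- the exterior parameters of angle `(tm + tp) / 2` of low potential are in the image of the
section of the parent, at distance at most `7 m / q` from the root -/
theorem mid_of (D : Dat) (hP : D.Par) (hC : D.Cir)
    (hQ : 100 * (D.m : ℝ) ^ 2 ≤ D.x.den * (min (D.x : ℝ) (1 - D.x)) ^ 2)
    (hEx : ExExact D.m D.x) {c : ℂ}
    (hA : Ang c ((D.tm + D.tp) / 2)) (hG : G c c ≤ (D.tp - D.tm) / 5) :
    ∃ L ∈ D.B, D.c L = c ∧ D.Th L ((D.tm + D.tp) / 2) ∧ 0 < L.re ∧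
      ‖L - D.a‖ ≤ 7 * D.m / D.x.den := by
  have hm := hP.m_pos
  have hmr : (1 : ℝ) ≤ D.m := by exact_mod_cast hm
  have hQ1 : (1 : ℝ) ≤ D.x.den := by exact_mod_cast D.x.pos
  have hl : 0 < D.tp - D.tm := sub_pos.2 hC.lt
  have hx0 : (0 : ℝ) < D.x := by exact_mod_cast hP.x_pos
  have hx1 : (D.x : ℝ) < 1 := by exact_mod_cast hP.x_lt
  obtain ⟨b, hb⟩ := exists_extP hm hA hP.bits
  have hν : ∀ θ, D.tm < θ → θ < D.tp → Circ.nu D.w D.m θ = D.x + D.k₀ := fun θ h1 h2 => by
    rw [(hC.plateau _).2 ⟨h1.le, h2.le⟩]; ring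
  set μ : ℝ := min (D.x : ℝ) (1 - D.x) with hμ
  have hμ0 : 0 < μ := lt_min hx0 (by linarith)
  have hμ1 : μ ≤ 1 / 2 := by
    rcases le_total (D.x : ℝ) (1 / 2) with h | h
    · exact (min_le_left _ _).trans h
    · exact (min_le_right _ _).trans (by linarith)
  have hQ' : 400 * (D.m : ℝ) ^ 2 ≤ D.x.den := by
    have h1 : μ ^ 2 ≤ 1 / 4 := (pow_le_pow_left₀ hμ0.le hμ1 2).trans (by norm_num)
    have h2 : (D.x.den : ℝ) * μ ^ 2 ≤ D.x.den * (1 / 4) := mul_le_mul_of_nonneg_left h1 (by linarith)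
    linarith
  obtain ⟨L, hLe, hLre, hLn⟩ := low_of hm hP.x_pos hP.x_lt hQ' hEx (k := D.k₀) (w := D.w) hP.bits
    hC.lt hC.lt_one.le hν hb (by rw [sub_self, abs_zero]; linarith) hG
  have hLB : L ∈ D.B := by
    show L ∈ ball D.a (gR D.m D.x)
    rw [mem_ball, dist_eq_norm]
    refine lt_of_le_of_lt hLn ?_
    have hgR : gR D.m D.x = μ ^ 2 / (4 * D.m) := by unfold gR; rw [← hμ]; field_simp
    rw [hgR, div_lt_div_iff₀ (by linarith) (by positivity)]
    have hm2 : (0 : ℝ) < (D.m : ℝ) ^ 2 := by positivity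
    linarith
  have hνm : Circ.nu D.w D.m ((D.tm + D.tp) / 2) = D.k₀ + D.x :=
    (hC.plateau _).2 ⟨by linarith, by linarith⟩
  have hn1 : (D.k₀ : ℝ) < Circ.nu D.w D.m ((D.tm + D.tp) / 2) := by rw [hνm]; linarith
  have hn2 : Circ.nu D.w D.m ((D.tm + D.tp) / 2) < D.k₀ + 1 := by rw [hνm]; linarith
  have hFF : FF D.m (D.σ L) = FF D.m (c, b) := by
    rw [(hP.lab L hLB hLre).2 _ hn1 hn2]
    exact (FF_ext (x := (c, b)) hb).symm
  have hsec := hP.sec L hLB
  have heq := s4_unique D.m D.x L (D.σ L) (c, b) hm hP.x_pos hP.x_lt hLB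
    hLre hsec.1 hb.2.2.1 hsec.2 hLe.symm hFF
  have hc : D.c L = c := congrArg Prod.fst heq
  have hbL : D.b L = b := congrArg Prod.snd heq
  refine ⟨L, hLB, hc, ⟨?_, hn1, hn2⟩, hLre, hLn⟩
  rw [hc, hbL]; exact hb

end Sat

end Pool.Agent.Work.MLC
end

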