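import Pool.Agent.Work.MLCM.C20
import Pool.Agent.Work.MLCM.C25
import Pool.Agent.Work.MLCM.C29
import Pool.Agent.Work.MLCM.C39
import Pool.Agent.Work.MLCM.C48
import Pool.Agent.Work.MLCM.C50
import Pool.Agent.Work.MLCM.C54
import Pool.Agent.Work.MLCM.C55
import Pool.Agent.Work.MLCM.C60

section
set_option autoImplicit false

/-! # The barrier theorem: assembly (helper57)

Inputs: the lower bound for `|mul - 1|` on the rays, discs and rectangles (helper49), and the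
position of the pairs with rotation number exactly `x_j` over `MM` (helper59). -/

namespace Pool.Agent.Work.MLC.Pri

open Filter Topology Metric Set Complex

/-- every label has a wide section -/
theorem exists_wide_word {m : ℕ} (hm : 0 < m) {w : ℕ → ℤ} (hw : Word m w) (k : ℤ) :
    ∃ σ, Wide m w k σ ∧ ∀ L ∈ D0 m, Exa m (σ L) := by
  have hbits : Bits m w := ⟨hw.1, hw.2.1⟩
  -- an angle of the strip
  obtain ⟨s, t, hst⟩ := PriK.exists_plat hm hw k (y := 1 / 2) (by norm_num) (by norm_num)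
  have hs := hst.nu_s
  have h1 : (k : ℝ) < Circ.nu w m s := by rw [hs]; push_cast; linarith
  have h2 : Circ.nu w m s < k + 1 := by rw [hs]; push_cast; linarith
  obtain ⟨z, hz, L, hL, hmul, hF⟩ := hall_RB hm (lab m s w)
  obtain ⟨σ, v, κ, hW, hσ⟩ := exists_wide hm hz hL.1 hmul
  obtain ⟨L₁, hL₁, hre, hL₁M⟩ := (hW.exists_ext (y := 1) one_pos
    (by linarith [Real.pi_gt_three])).exists
  obtain ⟨θ₁, hE, hk1, hk2⟩ := hW.ang L₁ hL₁ hL₁M
  have hl : lab m θ₁ v = lab m s w := by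
    rw [← (hW.lab L hL.1 hL.2).2 θ₁ hk1 hk2, hσ, hF]
  have hν : ∀ j : ℤ, Circ.nu v m θ₁ ≠ j := (hW.lab L₁ hL₁ hre).1.2 θ₁ v hE
  obtain ⟨M, hM1, hM2, hM3⟩ := Sat.exists_shift_of_lab hm hW.bits hbits h1 h2 hν hl
  have hp : ∀ i, Even (w i - v i - M) := fun i => by
    have h1 := hM1 i
    rw [Int.even_iff] at h1 ⊢
    omega
  obtain ⟨j, hj⟩ := nu_parity hp m
  have hshift : ∀ θ : ℝ, Circ.nu w m (θ + M) = Circ.nu v m θ + ((m * M + j : ℤ) : ℝ) := by
    intro θ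
    have e1 := hj (θ + M)
    have e2 : θ + M + M = θ + 2 * (M : ℤ) := by ring
    rw [e2, nu_add_two_mul] at e1
    push_cast
    linarith
  have hk : k = κ + (m * M + j) := by
    have e1 := hshift θ₁
    rw [e1] at hM2 hM3
    have e2 : (k : ℝ) < κ + 1 + ((m * M + j : ℤ) : ℝ) := by linarith
    have e3 : (κ : ℝ) + ((m * M + j : ℤ) : ℝ) < k + 1 := by linarith
    have e4 : k < κ + 1 + (m * M + j) := by exact_mod_cast e2
    have e5 : κ + (m * M + j) < k + 1 := by exact_mod_cast e3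
    omega
  have hW' : Wide m w k σ := hW.move hbits M hp fun θ => by
    rw [hshift θ, hk]; push_cast; ring
  refine ⟨σ, hW', ?_⟩
  -- exact period
  have hex₁ : ∀ d, 0 < d → d < m → it (σ L₁).1 d (σ L₁).2 ≠ (σ L₁).2 := by
    intro d hd hdm hfix
    obtain ⟨θ, hE', -, -⟩ := hW'.ang L₁ hL₁ hL₁M
    set g := Nat.gcd d m with hg
    have hg0 : 0 < g := Nat.gcd_pos_of_pos_left _ hd
    have hgm : g < m := (Nat.gcd_le_left _ hd).trans_lt hdm
    have hfg : it (σ L₁).1 g (σ L₁).2 = (σ L₁).2 := Sat.it_gcd_fix hfix hE'.2.2.1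
    obtain ⟨u, hu⟩ := exists_extP_word hg0 hE'.ang hfg
    obtain ⟨q, hq⟩ : g ∣ m := Nat.gcd_dvd_right _ _
    have hum : ∀ j i, u (i + g * j) = u i := by
      intro j
      induction j with
      | zero => intro i; simp
      | succ j ih =>
        intro i
        rw [show i + g * (j + 1) = (i + g * j) + g by ring, hu.2.2.2.1.per, ih]
    have hum' : ExtP m (σ L₁).1 (σ L₁).2 θ u := by
      refine ⟨hu.1, hu.2.1, hE'.2.2.1, ⟨hu.2.2.2.1.bit, fun i => ?_⟩, hu.2.2.2.2⟩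
      have := hum q i
      rwa [← hq] at this
    obtain ⟨a, ha, hpar⟩ := extP_unique hE' hum'
    have ha0 : a = 0 := by
      have : (a : ℝ) = 0 := by linarith
      exact_mod_cast this
    have huw : ∀ i, u i = w i := by
      intro i
      have h1 := hpar i
      rw [ha0, Int.even_iff] at h1
      rcases hw.1 i with a | a <;> rcases hu.2.2.2.1.bit i with b | b <;> rw [a, b] at h1 ⊢ <;>
        norm_num at h1
    obtain ⟨i, hi⟩ := hw.2.2 g hg0 hgm
    apply hi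
    rw [← huw, ← huw]
    exact hu.2.2.2.1.per i
  have hprim := Sat.prim_section (isPreconnected_D0 m) (isOpen_D0 m) (fun L hL => ne_one_D0 hL)
    hW'.cont hW'.sec hL₁ hex₁
  exact fun L hL => hprim L hL

lemma strip_mem_D0 {m : ℕ} (hm : 0 < m) {L : ℂ} (h1 : L.re ≤ 0) (h2 : 0 < L.im)
    (h3 : L.im < 2 * Real.pi) : L ∈ D0 m := by
  refine ⟨h2, h3, lt_of_le_of_lt h1 ?_⟩
  have h4 := mu_pos h2 h3
  have hm' : (0 : ℝ) < m := by exact_mod_cast hm
  unfold hgt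
  positivity

end Pool.Agent.Work.MLC.Pri
end

section
set_option autoImplicit false

/-! # Exterior parameters: the ray of a compatible angle is unbroken and lands (helper4) -/

namespace Pool.Agent.Work.MLC

open Filter Topology Metric Set

lemma ray0_of_mem {c : ℂ} {β : ℝ} (hM : G c 0 = 0) : Ray0 c β (eR c β) where
  cont := by
    have := continuousOn_eR_right c β
    rwa [hM] at this
  conj := fun t ht j _ => it_eR (by rw [hM]; exact ht) j
  ne := fun t ht j h0 => by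
    have h1 := congrArg (G c) (it_eR (c := c) (β := β) (t := t) (by rw [hM]; exact ht) j)
    have h2 : (0 : ℝ) < 2 ^ j * t := by positivity
    rw [h0, hM, G_eR (by rw [hM]; exact h2)] at h1
    linarith

namespace SatR

variable {c : ℂ} {θ : ℝ} {s : ℂ → ℂ}

/-- a finite stage of the extended ray -/
noncomputable def RY (c : ℂ) (s : ℂ → ℂ) (j : ℕ) (β : ℝ) (v : ℕ → ℤ) (t : ℝ) : ℂ :=
  gc s v j (eR c (2 ^ j * β) (2 ^ j * t))

lemma RY_zero (β : ℝ) (v : ℕ → ℤ) (t : ℝ) : RY c s 0 β v t = eR c β t := by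
  simp [RY, gc_zero]

lemma RY_add (m j : ℕ) (β : ℝ) (v : ℕ → ℤ) (t : ℝ) :
    RY c s (m + j) β v t = gc s v m (RY c s j (2 ^ m * β) (fun i => v (m + i)) (2 ^ m * t)) := by
  unfold RY
  rw [gc_add]
  congr 3 <;> rw [pow_add] <;> ring

lemma compat_shift {β θ : ℝ} {v : ℕ → ℤ} (h : Compat β θ v) (m : ℕ) :
    Compat (2 ^ m * β) θ (fun i => v (m + i)) := by
  intro i
  obtain ⟨k, h1, h2⟩ := h (m + i)
  refine ⟨k, ?_, ?_⟩
  · have : (2 : ℝ) ^ i * (2 ^ m * β) = 2 ^ (m + i) * β := by rw [pow_add]; ring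
    rw [this]; exact h1
  · have : (2 : ℝ) ^ i * (2 ^ m * β) = 2 ^ (m + i) * β := by rw [pow_add]; ring
    rw [this]; exact h2

lemma eR_im' (t β : ℝ) : ((t : ℂ) + 2 * Real.pi * Complex.I * (β : ℂ)).im = 2 * Real.pi * β := by
  simp

lemma RY_succ (hA : Ang c θ) (hS : SQ c (G c c) (2 * Real.pi * θ) (eta c) s) {β : ℝ} {v : ℕ → ℤ}
    (hv : Compat β θ v) {j : ℕ} {t : ℝ} (ht : G c 0 < 2 ^ j * t) :
    RY c s (j + 1) β v t = RY c s j β v t := by
  have hB := hA.BD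
  have hpi := Real.pi_pos
  obtain ⟨k, h1, h2⟩ := hv j
  unfold RY
  rw [gc_succ]
  congr 1
  have h3 : OnSide c s (v j) (eR c (2 ^ j * β) (2 ^ j * t)) := by
    refine onSide_E hB hS ?_ (v j) k ?_ ?_
    · rw [eR_re, ← G_zero_eq]; exact ht
    · rw [eR_im']
      have h4 := mul_lt_mul_of_pos_left h1 (by positivity : 0 < 2 * Real.pi)
      linarith
    · rw [eR_im']
      have h4 := mul_lt_mul_of_pos_left h2 (by positivity : 0 < 2 * Real.pi)
      linarith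
  unfold OnSide at h3
  rw [f_eR ht] at h3
  rw [h3]
  congr 2 <;> ring

/-- the extended ray -/
noncomputable def RX (c : ℂ) (s : ℂ → ℂ) (β : ℝ) (v : ℕ → ℤ) (t : ℝ) : ℂ := by
  classical exact if h : 0 < t then RY c s (Nat.find (exists_pow_gt (G c 0) h)) β v t else 0

lemma RX_eq (hA : Ang c θ) (hS : SQ c (G c c) (2 * Real.pi * θ) (eta c) s) {β : ℝ} {v : ℕ → ℤ}
    (hv : Compat β θ v) {j : ℕ} {t : ℝ} (ht : 0 < t) (hj : G c 0 < 2 ^ j * t) :
    RX c s β v t = RY c s j β v t := by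
  classical
  unfold RX
  rw [dif_pos ht]
  set N := Nat.find (exists_pow_gt (G c 0) ht) with hN
  have h1 : G c 0 < 2 ^ N * t := Nat.find_spec (exists_pow_gt (G c 0) ht)
  have h2 : N ≤ j := Nat.find_min' _ hj
  clear hj
  induction j, h2 using Nat.le_induction with
  | base => rfl
  | succ m hm ih =>
    rw [RY_succ hA hS hv, ih]
    have : (2 : ℝ) ^ N ≤ 2 ^ m := pow_le_pow_right₀ (by norm_num) hm
    nlinarith

lemma RX_add (hA : Ang c θ) (hS : SQ c (G c c) (2 * Real.pi * θ) (eta c) s) {β : ℝ} {v : ℕ → ℤ}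
    (hv : Compat β θ v) (m : ℕ) {t : ℝ} (ht : 0 < t) :
    RX c s β v t = gc s v m (RX c s (2 ^ m * β) (fun i => v (m + i)) (2 ^ m * t)) := by
  have ht2 : 0 < 2 ^ m * t := by positivity
  obtain ⟨j, hj⟩ := exists_pow_gt (G c 0) ht2
  rw [RX_eq hA hS (compat_shift hv m) ht2 hj, RX_eq (j := m + j) hA hS hv ht (by
    rw [add_comm, pow_add]; linarith [hj]), RY_add]

lemma RX_one (hA : Ang c θ) (hS : SQ c (G c c) (2 * Real.pi * θ) (eta c) s) {β : ℝ} {v : ℕ → ℤ}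
    (hv : Compat β θ v) {t : ℝ} (ht : 0 < t) :
    RX c s β v t = sb s (v 0) (RX c s (2 * β) (fun i => v (1 + i)) (2 * t)) := by
  have h := RX_add hA hS hv 1 ht
  rw [gc_succ, gc_zero, pow_one] at h
  exact h

lemma RX_far (hA : Ang c θ) (hS : SQ c (G c c) (2 * Real.pi * θ) (eta c) s) {β : ℝ} {v : ℕ → ℤ}
    (hv : Compat β θ v) {t : ℝ} (ht : G c 0 < t) : RX c s β v t = eR c β t := by
  rw [RX_eq (j := 0) hA hS hv (lt_of_le_of_lt (G_nonneg c 0) ht) (by simpa using ht), RY_zero]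

/-- `2 β` is not the angle of `c` -/
lemma ne_of_compat {β θ : ℝ} {v : ℕ → ℤ} (h : Compat β θ v) (l : ℤ) : 2 * β ≠ θ + l := by
  obtain ⟨k, h1, h2⟩ := h 0
  rw [pow_zero, one_mul] at h1 h2
  intro h3
  have h4 : ((v 0 + 2 * k : ℤ) : ℝ) < l := by push_cast; linarith
  have h5 : (l : ℝ) < ((v 0 + 2 * k + 1 : ℤ) : ℝ) := by push_cast; linarith
  have h6 : v 0 + 2 * k < l := by exact_mod_cast h4
  have h7 : l < v 0 + 2 * k + 1 := by exact_mod_cast h5
  omega

/-- points on the double of a compatible ray above `G c 0` are not on the ray of `c` -/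
lemma eR_notMem_ray (hA : Ang c θ) {β : ℝ} (hβ : ∀ l : ℤ, β ≠ θ + l) {t : ℝ}
    (ht : G c 0 < t) : eR c β t ∉ ray (eta c) (G c c) (2 * Real.pi * θ) := by
  have hB := hA.BD
  have hpi := Real.pi_pos
  rintro ⟨r, hr, he⟩
  have hpos := hB.pos
  have h0 : G c 0 < G c c := by rw [G_zero_eq]; linarith
  unfold eR at he
  obtain ⟨k, hk⟩ := hB.inj _ _ (by rw [eR_re, ← G_zero_eq]; exact ht)
    (by simp; linarith) he
  have h2 := congrArg Complex.im hk
  simp at h2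
  apply hβ k
  have h3 : 2 * Real.pi * (β - (θ + k)) = 0 := by linarith
  rcases mul_eq_zero.1 h3 with h4 | h4
  · exfalso; linarith
  · linarith

lemma RX_core (hA : Ang c θ) (hS : SQ c (G c c) (2 * Real.pi * θ) (eta c) s) (j : ℕ) :
    ∀ {β : ℝ} {v : ℕ → ℤ}, Compat β θ v → ∀ {t : ℝ}, 0 < t → G c 0 < 2 ^ j * t →
    G c (RX c s β v t) = t ∧
      RX c s (2 * β) (fun i => v (1 + i)) (2 * t) ∉ ray (eta c) (G c c) (2 * Real.pi * θ) := by
  induction j with
  | zero =>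
    intro β v hv t ht hj
    have h1 : G c 0 < t := by simpa using hj
    have hv' := compat_shift hv 1
    rw [pow_one] at hv'
    have h2 : G c 0 < 2 * t := by linarith
    refine ⟨by rw [RX_far hA hS hv h1, G_eR h1], ?_⟩
    rw [RX_far hA hS hv' h2]
    exact eR_notMem_ray hA (ne_of_compat hv) h2
  | succ j ih =>
    intro β v hv t ht hj
    have hv' := compat_shift hv 1
    rw [pow_one] at hv'
    have ht2 : 0 < 2 * t := by linarith
    obtain ⟨h1, -⟩ := ih hv' ht2 (by rw [pow_succ] at hj; linarith)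
    have hnr : RX c s (2 * β) (fun i => v (1 + i)) (2 * t) ∉
        ray (eta c) (G c c) (2 * Real.pi * θ) := by
      by_cases h2 : G c 0 < 2 * t
      · rw [RX_far hA hS hv' h2]
        exact eR_notMem_ray hA (ne_of_compat hv) h2
      · intro h3
        have h4 := hA.BD.G_ray h3
        rw [h1] at h4
        have h5 : G c 0 < G c c := by
          have := hA.1
          rw [G_zero_eq]; linarith
        linarith
    refine ⟨?_, hnr⟩
    have h3 := hS.f_sb hnr (v 0)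
    rw [← RX_one hA hS hv ht] at h3
    have h4 := congrArg (G c) h3
    rw [G_f, h1] at h4
    linarith

lemma RX_green (hA : Ang c θ) (hS : SQ c (G c c) (2 * Real.pi * θ) (eta c) s) {β : ℝ} {v : ℕ → ℤ}
    (hv : Compat β θ v) {t : ℝ} (ht : 0 < t) : G c (RX c s β v t) = t := by
  obtain ⟨j, hj⟩ := exists_pow_gt (G c 0) ht
  exact (RX_core hA hS j hv ht hj).1

lemma RX_nr (hA : Ang c θ) (hS : SQ c (G c c) (2 * Real.pi * θ) (eta c) s) {β : ℝ} {v : ℕ → ℤ}
    (hv : Compat β θ v) {t : ℝ} (ht : 0 < t) :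
    RX c s (2 * β) (fun i => v (1 + i)) (2 * t) ∉ ray (eta c) (G c c) (2 * Real.pi * θ) := by
  obtain ⟨j, hj⟩ := exists_pow_gt (G c 0) ht
  exact (RX_core hA hS j hv ht hj).2

lemma f_RX (hA : Ang c θ) (hS : SQ c (G c c) (2 * Real.pi * θ) (eta c) s) {β : ℝ} {v : ℕ → ℤ}
    (hv : Compat β θ v) {t : ℝ} (ht : 0 < t) :
    f c (RX c s β v t) = RX c s (2 * β) (fun i => v (1 + i)) (2 * t) := by
  rw [RX_one hA hS hv ht]
  exact hS.f_sb (RX_nr hA hS hv ht) (v 0)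

lemma it_RX (hA : Ang c θ) (hS : SQ c (G c c) (2 * Real.pi * θ) (eta c) s) {β : ℝ} {v : ℕ → ℤ}
    (hv : Compat β θ v) (j : ℕ) {t : ℝ} (ht : 0 < t) :
    it c j (RX c s β v t) = RX c s (2 ^ j * β) (fun i => v (j + i)) (2 ^ j * t) := by
  induction j with
  | zero => simp
  | succ j ih =>
    rw [it_succ, ih, f_RX hA hS (compat_shift hv j) (by positivity)]
    congr 1
    · rw [pow_succ]; ring
    · funext i; congr 1; ring
    · rw [pow_succ]; ring

lemma RX_ne (hA : Ang c θ) (hS : SQ c (G c c) (2 * Real.pi * θ) (eta c) s) {β : ℝ} {v : ℕ → ℤ}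
    (hv : Compat β θ v) {t : ℝ} (ht : 0 < t) : RX c s β v t ≠ 0 := by
  rw [RX_one hA hS hv ht]
  exact hS.sb_ne_zero (RX_nr hA hS hv ht) _

lemma RX_continuousOn (hA : Ang c θ) (hS : SQ c (G c c) (2 * Real.pi * θ) (eta c) s) (j : ℕ) :
    ∀ {β : ℝ} {v : ℕ → ℤ}, Compat β θ v → ContinuousOn (RX c s β v) (Ioi (G c 0 / 2 ^ j)) := by
  have h0 : 0 ≤ G c 0 := G_nonneg c 0
  induction j with
  | zero =>
    intro β v hv
    rw [pow_zero, div_one]
    exact (continuousOn_eR_right c β).congr fun t ht => RX_far hA hS hv ht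
  | succ j ih =>
    intro β v hv
    have hv' := compat_shift hv 1
    rw [pow_one] at hv'
    have hpos : ∀ t ∈ Ioi (G c 0 / 2 ^ (j + 1)), 0 < t := fun t ht =>
      lt_of_le_of_lt (by positivity) ht
    have h1 : ContinuousOn (fun t : ℝ => RX c s (2 * β) (fun i => v (1 + i)) (2 * t))
        (Ioi (G c 0 / 2 ^ (j + 1))) := by
      refine (ih hv').comp (f := fun t : ℝ => 2 * t) (by fun_prop) ?_
      intro t ht
      have ht' : G c 0 / 2 ^ (j + 1) < t := ht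
      show G c 0 / 2 ^ j < 2 * t
      have h2 : G c 0 / 2 ^ j = 2 * (G c 0 / 2 ^ (j + 1)) := by rw [pow_succ]; field_simp
      rw [h2]; linarith
    have h2 := ((hS.differentiableOn_sb (v 0)).continuousOn).comp h1
      (fun t ht => RX_nr hA hS hv (hpos t ht))
    exact h2.congr fun t ht => RX_one hA hS hv (hpos t ht)

theorem ray0_RX (hA : Ang c θ) (hS : SQ c (G c c) (2 * Real.pi * θ) (eta c) s) {β : ℝ} {v : ℕ → ℤ}
    (hv : Compat β θ v) : Ray0 c β (RX c s β v) where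
  cont := by
    intro t ht
    have ht' : (0 : ℝ) < t := ht
    obtain ⟨j, hj⟩ := exists_pow_gt (G c 0) ht'
    have h1 : G c 0 / 2 ^ j < t := by
      rw [div_lt_iff₀ (by positivity)]; linarith
    exact ((RX_continuousOn hA hS j hv).continuousAt (Ioi_mem_nhds h1)).continuousWithinAt
  conj := fun t ht j hj => by
    rw [it_RX hA hS hv j ht, RX_far hA hS (compat_shift hv j) hj]
  ne := fun t ht j => by
    rw [it_RX hA hS hv j ht]
    exact RX_ne hA hS (compat_shift hv j) (by positivity)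

/-- the ray of a compatible periodic angle lands at the point with the word -/
theorem lands_RX {n : ℕ} (hn : 0 < n) {z₀ : ℂ} {v : ℕ → ℤ} (h : ExtP n c z₀ θ v)
    (hS : SQ c (G c c) (2 * Real.pi * θ) (eta c) s) {β : ℝ} {m : ℤ} (hβ : 2 ^ n * β = β + m)
    (hv : Compat β θ v) : Ray c β z₀ (RX c s β v) := by
  have hA := h.ang
  have hB := hA.BD
  have h0 := ray0_RX hA hS hv
  have hper : ∀ i, v (n + i) = v i := fun i => by rw [add_comm]; exact h.2.2.2.1.per i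
  -- the functional equation
  have hstep : ∀ t, 0 < t → RX c s β v t = gc s v n (RX c s β v (2 ^ n * t)) := by
    intro t ht
    have ht2 : 0 < 2 ^ n * t := by positivity
    obtain ⟨j, hj⟩ := exists_pow_gt (G c 0) ht2
    rw [RX_add hA hS hv n ht]
    congr 1
    rw [RX_eq hA hS (compat_shift hv n) ht2 hj, RX_eq hA hS hv ht2 hj]
    have h1 : (fun i => v (n + i)) = v := funext hper
    rw [h1]
    unfold RY
    congr 1
    rw [hβ]
    have h2 : (2 : ℝ) ^ j * (β + m) = 2 ^ j * β + ((2 ^ j * m : ℤ) : ℝ) := by push_cast; ring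
    rw [h2, eR_add_int]
  have hiter : ∀ k : ℕ, ∀ t, 0 < t →
      RX c s β v t = (gc s v n)^[k] (RX c s β v ((2 ^ n) ^ k * t)) := by
    intro k
    induction k with
    | zero => intro t _; simp
    | succ k ih =>
      intro t ht
      rw [ih t ht, Function.iterate_succ_apply, hstep _ (by positivity)]
      congr 3
      rw [pow_succ]; ring
  obtain ⟨hgc, hbU⟩ := h.data hn hS
  have D := plySelf_gc (w := v) hB hS hn hbU hgc
  refine ⟨h0.cont, h0.conj, h0.ne, ?_⟩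
  rw [Metric.tendsto_nhds]
  intro ε hε
  obtain ⟨k₀, hk₀⟩ := D.exists_iter_ball ε hε
  have hpos := hB.pos
  have hτ : 0 < G c c / (2 ^ n) ^ k₀ := by positivity
  filter_upwards [Ioo_mem_nhdsGT hτ] with t ht
  rw [hiter k₀ t ht.1]
  refine mem_ball.1 (hk₀ k₀ le_rfl _ ?_)
  show G c _ < G c c
  have ht1 := ht.1
  rw [RX_green hA hS hv (by positivity)]
  have := ht.2
  rw [lt_div_iff₀ (by positivity)] at this
  linarith

end SatR

/-- **for exterior parameters the ray of a compatible periodic angle lands** -/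
theorem ExtP.lands {n : ℕ} (hn : 0 < n) {c z₀ : ℂ} {θ : ℝ} {v : ℕ → ℤ} (h : ExtP n c z₀ θ v)
    {β : ℝ} {m : ℤ} (hβ : 2 ^ n * β = β + m) (hv : Compat β θ v) : Lands c β z₀ := by
  obtain ⟨sq, hS⟩ := exists_SQ h.ang.BD
  exact ⟨_, SatR.lands_RX hn h hS hβ hv⟩

end Pool.Agent.Work.MLC
end

section
set_option autoImplicit false

/-! # Theorem S, module S6: the outer part (helper4) -/

namespace Pool.Agent.Work.MLC.Sat

open Filter Topology Metric Set Complex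

variable {D : Dat}

lemma pow_tm (hC : D.Cir) : ∃ k : ℤ, 2 ^ D.n * D.tm = D.tm + k := hC.per.exists_pow

lemma pow_tp (hC : D.Cir) : ∃ k : ℤ, 2 ^ D.n * D.tp = D.tp + k := by
  obtain ⟨k, hk⟩ := pow_tm hC
  obtain ⟨j, l, h⟩ := hC.orb
  refine ⟨2 ^ (D.m * j) * k + 2 ^ D.n * l - l, ?_⟩
  have h1 : (2 : ℝ) ^ D.n * D.tp = 2 ^ (D.m * j) * (2 ^ D.n * D.tm) + 2 ^ D.n * l := by
    rw [h]; ring
  rw [h1, hk]
  push_cast
  rw [h]; ring

/-- over exterior parameters outside the closed wake the ray `tm` lands at a point of the cycle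
with the word `u` -/
lemma ext_lands4 (hP : D.Par) (hC : D.Cir) {θ : ℝ} {c z₀ : ℂ} (hz : ExtP D.n c z₀ θ D.u)
    (hN : D.Near θ) (hlr : θ < D.tm ∨ D.tp < θ) : ∃ i, Lands c D.tm (it c i z₀) := by
  rcases hlr with h1 | h1
  · obtain ⟨k, hk⟩ := pow_tm hC
    exact ⟨0, hz.lands (Par_n_pos hP) hk (hC.compat_u_left θ hN h1)⟩
  · obtain ⟨k, hk⟩ := pow_tp hC
    have h2 := hz.lands (Par_n_pos hP) hk (hC.compat_u_right θ hN h1)
    obtain ⟨j, l, h⟩ := hC.orb'
    refine ⟨D.m * j, ?_⟩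
    have h3 := (h2.push59 (D.m * j)).add59 l
    rwa [← h] at h3

/-- exterior points with the word `u` have exact period `n` -/
lemma ext_exact4 (hC : D.Cir) {θ : ℝ} {c z₀ : ℂ} (hz : ExtP D.n c z₀ θ D.u) {d : ℕ}
    (hd : 0 < d) (hdn : d < D.n) : it c d z₀ ≠ z₀ := by
  intro h
  obtain ⟨i, hi⟩ := hC.uprim d hd hdn
  have hz' : ExtP D.n c z₀ θ (fun i => D.u (i + d)) := by
    refine ⟨hz.1, hz.2.1, hz.2.2.1, ⟨fun i => hz.2.2.2.1.bit _, fun i => ?_⟩, fun i => ?_⟩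
    · have := hz.2.2.2.1.per (i + d)
      rw [← this]; congr 1; ring
    · have h1 := hz.2.2.2.2 (i + d)
      rwa [it_add, h] at h1
  obtain ⟨m, hm, hev⟩ := extP_unique hz hz'
  have hm0 : m = 0 := by
    have : (m : ℝ) = 0 := by linarith
    exact_mod_cast this
  have h1 := hev i
  rw [hm0] at h1
  simp only [sub_zero] at h1
  apply hi
  rcases hz.2.2.2.1.bit i with a | a <;> rcases hz.2.2.2.1.bit (i + d) with b | b <;>
    rw [a, b] at h1 ⊢ <;> norm_num at h1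

/-- the local section over the component of a point of `RO` -/
theorem outer_section4 (hP : D.Par) (hC : D.Cir) (hR : Regions D) {L : ℂ} (hL : L ∈ D.RO) :
    ∃ V : Set ℂ, IsOpen V ∧ L ∈ V ∧ V ⊆ D.RO ∧ ∃ g : ℂ → ℂ,
      DifferentiableOn ℂ g (D.c '' V) ∧ IsOpen (D.c '' V) ∧ ∀ c ∈ D.c '' V,
        Lands c D.tm (g c) ∧ it c D.n (g c) = g c ∧ 1 < ‖mult D.n c (g c)‖ ∧
        ∀ d, 0 < d → d < D.n → it c d (g c) ≠ g c := by
  have hn := Par_n_pos hP
  set V : Set ℂ := connectedComponentIn D.RO L with hV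
  have hVo : IsOpen V := hR.openO.connectedComponentIn
  have hVc : IsPreconnected V := isPreconnected_connectedComponentIn
  have hVs : V ⊆ D.RO := connectedComponentIn_subset _ _
  have hLV : L ∈ V := mem_connectedComponentIn hL
  have hVB : V ⊆ D.B := fun x hx => U_sub_B hP (hVs hx).1
  have hcont : ContinuousOn D.c V := fun x hx => (c_contAt hP (hVB hx)).continuousWithinAt
  have himg : ∀ W ⊆ V, IsOpen W → IsOpen (D.c '' W) := by
    intro W hWV hW
    rw [isOpen_iff_mem_nhds]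
    rintro _ ⟨x, hx, rfl⟩
    rw [← c_map_nhds hP (hVB (hWV hx))]
    exact image_mem_map (hW.mem_nhds hx)
  have hUo := himg V subset_rfl hVo
  have hUc : IsPreconnected (D.c '' V) := hVc.image _ hcont
  -- exterior points
  have hmeet : (V ∩ D.RE).Nonempty := by
    refine hR.meetO V hVs ⟨L, hLV⟩ hVo fun x hx hxc => ?_
    have h1 : IsPreconnected (insert x V) :=
      hVc.subset_closure (subset_insert _ _) (insert_subset hxc subset_closure)
    exact h1.subset_connectedComponentIn (mem_insert_of_mem _ hLV)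
      (insert_subset hx hVs) (mem_insert _ _)
  have hVe : IsOpen (D.c '' (V ∩ D.RE)) := himg _ inter_subset_left (hVo.inter hR.openE)
  -- landing over exterior points
  have hext : ∀ c ∈ D.c '' (V ∩ D.RE), ∃ z₀ θ, ExtP D.n c z₀ θ D.u ∧
      ∃ i, Lands c D.tm (it c i z₀) := by
    rintro _ ⟨x, ⟨hxV, hxE⟩, rfl⟩
    obtain ⟨θ, hθ⟩ := hP.ang x (hVB hxV) hxE.2
    obtain ⟨z₀, hz₀⟩ := exists_u hP hC hθ
    exact ⟨z₀, θ, hz₀, ext_lands4 hP hC hz₀ (hR.near x hxE.1 θ hθ) ((hVs hxV).2.2 θ hθ)⟩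
  -- rays
  have hray : ∀ c ∈ D.c '' V, ∃ R, Ray0 c D.tm R := by
    rintro _ ⟨x, hx, rfl⟩
    by_cases hM : D.c x ∈ MM
    · exact ⟨_, ray0_of_mem (G_zero_of_mem hM)⟩
    · obtain ⟨z₀, θ, -, i, R, hR'⟩ := hext _ ⟨x, ⟨hx, (hVs hx).1, hM⟩, rfl⟩
      exact ⟨R, hR'.ray0⟩
  choose! R hR0 using hray
  obtain ⟨k, hk⟩ := pow_tm hC
  obtain ⟨g, hg, hgp⟩ := out_section hUo hUc hn hk hR0 hVe (image_mono inter_subset_left)
    (hmeet.image _) (by
      intro c hc
      obtain ⟨z₀, θ, hz₀, i, hi⟩ := hext c hc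
      refine ⟨_, hi, ?_⟩
      have h1 : (c, z₀) ∈ Per D.n := hz₀.2.2.1
      have h2 := mul_it' h1 i
      rw [mult_eq_mul, h2]
      exact one_lt_norm_mult_of_ext hn hz₀.1 hz₀.2.2.1)
  refine ⟨V, hVo, hLV, hVs, g, hg, hUo, fun c hc => ?_⟩
  obtain ⟨h1, h2, h3⟩ := hgp c hc
  refine ⟨⟨_, h1⟩, h2, h3, ?_⟩
  -- exactness
  intro d hd hdn hfix
  set e := Nat.gcd D.n d with he
  have he0 : 0 < e := Nat.gcd_pos_of_pos_left _ hn
  have hed : e ∣ d := Nat.gcd_dvd_right _ _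
  have hen : e ∣ D.n := Nat.gcd_dvd_left _ _
  have helt : e < D.n := lt_of_le_of_lt (Nat.le_of_dvd hd hed) hdn
  have hfe : it c e (g c) = g c := by
    have a1 : Function.IsPeriodicPt (f c) D.n (g c) := h2
    have a2 : Function.IsPeriodicPt (f c) d (g c) := hfix
    exact a1.gcd a2
  -- the multiplier of the smaller period is not one
  obtain ⟨q, hq⟩ := hen
  have hpow : ∀ (q : ℕ) (y : ℂ), it c e y = y → mul (e * q) (c, y) = mul e (c, y) ^ q := by
    intro q y hy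
    induction q with
    | zero => simp [mul]
    | succ q ih =>
      have h4 : e * (q + 1) = e * q + e := by ring
      have h5 : mul (e * q + e) (c, y) = mul (e * q) (c, y) * mul e (c, it c (e * q) y) := by
        unfold mul
        rw [Finset.prod_range_add]
        congr 1
        refine Finset.prod_congr rfl fun i _ => ?_
        simp only
        rw [it_comp, add_comm]
      have h6 : it c (e * q) y = y := by
        have := it_mul_per hy 0 q
        rwa [zero_add, it_zero] at this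
      rw [h4, h5, h6, ih, pow_succ]
  have hme : mul e (c, g c) ≠ 1 := by
    intro h4
    have h5 := hpow q (g c) hfe
    rw [← hq, h4, one_pow] at h5
    rw [mult_eq_mul, h5] at h3
    simp at h3
  have hmn : mul D.n (c, g c) ≠ 1 := by
    intro h4
    rw [mult_eq_mul, h4] at h3
    simp at h3
  -- the difference vanishes near `c`
  obtain ⟨β, hβ1, hβ2, hβ3⟩ := chart (n := D.n) (x₀ := (c, g c)) h2 hmn
  obtain ⟨γ, hγ1, hγ2, hγ3⟩ := chart (n := e) (x₀ := (c, g c)) hfe hme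
  have hgc : ContinuousAt g c := (hg.differentiableAt (hUo.mem_nhds hc)).continuousAt
  have hev : ∀ᶠ c' in 𝓝 c, it c' e (g c') = g c' := by
    have t1 : Tendsto (fun c' => ((c', g c') : ℂ × ℂ)) (𝓝 c) (𝓝 (c, g c)) :=
      continuousAt_id.prodMk hgc
    have t2 : Tendsto (fun c' => ((c', γ c') : ℂ × ℂ)) (𝓝 c) (𝓝 (c, g c)) := by
      have := (continuousAt_id (x := c)).prodMk hγ1.continuousAt
      have h4 : γ c = g c := hγ2
      rw [ContinuousAt, h4] at this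
      exact this
    filter_upwards [t1.eventually hβ3, t2.eventually hβ3, t2.eventually hγ3, hUo.mem_nhds hc]
      with c' h4 h5 h6 h7
    have h8 : (c', γ c') ∈ Per e := h6.2 rfl
    have h9 : (c', γ c') ∈ Per D.n := by
      rw [hq]
      have h10 : it c' e (γ c') = γ c' := h8
      have := it_mul_per h10 0 q
      rwa [zero_add, it_zero] at this
    have h10 : (c', g c') ∈ Per D.n := (hgp c' h7).2.1
    have h11 : β c' = g c' := h4.1 h10
    have h12 : β c' = γ c' := h5.1 h9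
    have h13 : g c' = γ c' := by rw [← h11, h12]
    rw [h13]; exact h8
  have hall : EqOn (fun c' => it c' e (g c') - g c') 0 (D.c '' V) := by
    have hd1 : DifferentiableOn ℂ (fun c' => it c' e (g c') - g c') (D.c '' V) := by
      have h4 : Differentiable ℂ fun p : ℂ × ℂ => it p.1 e p.2 :=
        (contDiff_it4 e).differentiable one_ne_zero
      exact (h4.comp_differentiableOn (differentiableOn_id.prodMk hg)).sub hg
    refine (hd1.analyticOnNhd hUo).eqOn_zero_of_preconnected_of_eventuallyEq_zero hUc hc ?_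
    filter_upwards [hev] with c' h4
    simp [h4]
  obtain ⟨x, hx⟩ := hmeet
  obtain ⟨z₀, θ, hz₀, i, hi⟩ := hext (D.c x) ⟨x, hx, rfl⟩
  have h4 := hall ⟨x, hx.1, rfl⟩
  simp only [Pi.zero_apply] at h4
  have h5 : g (D.c x) = it (D.c x) i z₀ :=
    Lands.uniq59 ⟨_, (hgp _ ⟨x, hx.1, rfl⟩).1⟩ hi
  have h6 : it (D.c x) e (it (D.c x) i z₀) = it (D.c x) i z₀ := by
    rw [← h5]; exact sub_eq_zero.1 h4
  apply ext_exact4 hC hz₀ he0 helt
  have h7 := it_back hn hz₀.2.2.1 i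
  have h8 : it (D.c x) e z₀ = it (D.c x) (D.n * i - i) (it (D.c x) e (it (D.c x) i z₀)) := by
    calc it (D.c x) e z₀ = it (D.c x) e (it (D.c x) (D.n * i - i) (it (D.c x) i z₀)) := by rw [h7]
      _ = _ := by
        rw [it_comp _ (it (D.c x) i z₀) e, it_comp _ (it (D.c x) i z₀) (D.n * i - i), add_comm]
  rw [h8, h6, h7]

/-- the cycle -/
def ZO (D : Dat) (L : ℂ) : Set ℂ := {z | ∃ z₀, Lands (D.c L) D.tm z₀ ∧ ∃ i, z = it (D.c L) i z₀}

theorem s6_outer : S6_outer := by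
  intro D hP hC hR
  have hn := Par_n_pos hP
  have key : ∀ L ∈ D.RO, ∃ z₀, Lands (D.c L) D.tm z₀ ∧ (D.c L, z₀) ∈ Per D.n ∧
      1 < ‖mul D.n (D.c L, z₀)‖ ∧ ∀ d, 0 < d → d < D.n → it (D.c L) d z₀ ≠ z₀ := by
    intro L hL
    obtain ⟨V, -, hLV, -, g, -, -, h⟩ := outer_section4 hP hC hR hL
    obtain ⟨h1, h2, h3, h4⟩ := h _ ⟨L, hLV, rfl⟩
    exact ⟨_, h1, h2, h3, h4⟩
  have hit : ∀ L, ∀ z ∈ ZO D L, ∀ i, it (D.c L) i z ∈ ZO D L := by
    rintro L z ⟨z₀, h1, j, rfl⟩ i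
    exact ⟨z₀, h1, i + j, it_comp _ _ _ _⟩
  refine ⟨ZO D, ⟨?_, ?_, ?_, ?_⟩, ?_, ?_, ?_⟩
  · intro L hL
    obtain ⟨z₀, h1, -⟩ := key L hL
    exact ⟨z₀, z₀, h1, 0, rfl⟩
  · rintro L hL z ⟨z₁, h1, i, rfl⟩
    obtain ⟨z₀, h2, h3, h4, -⟩ := key L hL
    rw [h1.uniq59 h2]
    refine ⟨Per_it h3 i, ?_⟩
    rw [mul_it' h3 i]
    intro h5
    rw [h5] at h4
    simp at h4
  · rintro L hL z ⟨z₁, h1, i, rfl⟩ z'
    obtain ⟨z₀, h2, h3, -, -⟩ := key L hL
    have h5 := h1.uniq59 h2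
    subst h5
    constructor
    · rintro ⟨z₂, h6, j, rfl⟩
      rw [h6.uniq59 h2]
      refine ⟨D.n * i - i + j, ?_⟩
      rw [add_comm, it_add, it_back hn h3 i]
    · rintro ⟨j, rfl⟩
      exact ⟨z₁, h1, j + i, it_comp _ _ _ _⟩
  · rintro L hL z ⟨z₁, h1, i, rfl⟩
    obtain ⟨V, hVo, hLV, hVs, g, hg, hUo, h⟩ := outer_section4 hP hC hR hL
    obtain ⟨h2, h3, h4, -⟩ := h _ ⟨L, hLV, rfl⟩
    have h5 := h1.uniq59 h2
    have hcc := c_contAt hP (U_sub_B hP hL.1)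
    have hcU : D.c L ∈ D.c '' V := ⟨L, hLV, rfl⟩
    rw [h5]
    refine cont_of_branch hn i hcc h3 ?_ (Eventually.of_forall fun L' => hit L')
    have hmn : mul D.n (D.c L, g (D.c L)) ≠ 1 := by
      intro h6
      rw [mult_eq_mul, h6] at h4
      simp at h4
    obtain ⟨β, hβ1, hβ2, hβ3⟩ := chart (n := D.n) (x₀ := (D.c L, g (D.c L))) h3 hmn
    have hgc : ContinuousAt g (D.c L) := (hg.differentiableAt (hUo.mem_nhds hcU)).continuousAt
    have t1 : Tendsto (fun c' => ((c', g c') : ℂ × ℂ)) (𝓝 (D.c L)) (𝓝 (D.c L, g (D.c L))) :=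
      continuousAt_id.prodMk hgc
    have t2 : Tendsto (fun p : ℂ × ℂ => ((D.c p.1, p.2) : ℂ × ℂ)) (𝓝 (L, g (D.c L)))
        (𝓝 (D.c L, g (D.c L))) := by
      refine Tendsto.prodMk_nhds ?_ continuousAt_snd
      exact hcc.tendsto.comp continuousAt_fst
    have t3 : Tendsto (fun p : ℂ × ℂ => D.c p.1) (𝓝 (L, g (D.c L))) (𝓝 (D.c L)) :=
      hcc.tendsto.comp continuousAt_fst
    filter_upwards [t2.eventually hβ3, t3.eventually (t1.eventually hβ3),
      continuousAt_fst.eventually (hVo.mem_nhds hLV)] with p h6 h7 h8 h9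
    have h10 := h (D.c p.1) ⟨p.1, h8, rfl⟩
    have h11 : β (D.c p.1) = p.2 := h6.1 h9
    have h12 : β (D.c p.1) = g (D.c p.1) := h7.1 h10.2.1
    refine ⟨g (D.c p.1), h10.1, 0, ?_⟩
    rw [it_zero, ← h12, h11]
  · rintro L hL z ⟨z₁, h1, i, rfl⟩ d hd hdn hfix
    obtain ⟨z₀, h2, h3, -, h4⟩ := key L hL
    have h5 := h1.uniq59 h2
    subst h5
    apply h4 d hd hdn
    have h7 : it (D.c L) (D.n * i - i) (it (D.c L) i z₁) = z₁ := it_back hn h3 i
    have h8 : it (D.c L) d z₁ = it (D.c L) (D.n * i - i) (it (D.c L) d (it (D.c L) i z₁)) := by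
      calc it (D.c L) d z₁ = it (D.c L) d (it (D.c L) (D.n * i - i) (it (D.c L) i z₁)) := by rw [h7]
        _ = _ := by
          rw [it_comp _ (it (D.c L) i z₁) d, it_comp _ (it (D.c L) i z₁) (D.n * i - i), add_comm]
    rw [h8, hfix, h7]
  · rintro L ⟨hL, hE⟩
    obtain ⟨θ, hθ⟩ := hP.ang L (U_sub_B hP hE.1) hE.2
    obtain ⟨z₀, hz₀⟩ := exists_u hP hC hθ
    obtain ⟨i, hi⟩ := ext_lands4 hP hC hz₀ (hR.near L hE.1 θ hθ) (hL.2.2 θ hθ)
    ext z
    rw [ZE_iff hP hθ hz₀]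
    constructor
    · rintro ⟨z₁, h1, j, rfl⟩
      rw [h1.uniq59 hi]
      exact ⟨j + i, it_comp _ _ _ _⟩
    · rintro ⟨j, rfl⟩
      refine ⟨_, hi, D.n * i - i + j, ?_⟩
      rw [add_comm, it_add, it_back hn hz₀.2.2.1 i]
  · rintro L hL z ⟨z₁, h1, i, rfl⟩
    obtain ⟨z₀, h2, h3, h4, -⟩ := key L hL
    rw [h1.uniq59 h2, mul_it' h3 i]
    exact h4

end Pool.Agent.Work.MLC.Sat
end

section
set_option autoImplicit false

/-! # The two cuts with small exponents, part 2 (helper49) -/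

namespace Pool.Agent.Work.MLC.Pri

open Filter Topology Metric Set Complex
open PriHar (Oth)

/-- the limb disc inequality with the combinatorial rotation number (helper59) -/
lemma exExact {n : ℕ} (hn : 0 < n) {x : ℚ} (hx0 : 0 < x) (hx1 : x < 1)
    (hQ : 100 * (n : ℝ) ^ 2 ≤ x.den * (min (x : ℝ) (1 - x)) ^ 2) : ExExact n x := by
  intro c b L hM hb hL hre hE
  obtain ⟨j, -, h⟩ := BarM.ex_exact hn hx0 hx1 hQ hM hb hL hre hE
  exact ⟨j, h⟩

section

variable {m Q M : ℕ}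

lemma rE_pos (hm : 0 < m) (hQ : 0 < Q) (hM : 2 ≤ M) : 0 < rE m Q M := by
  have h1 : (0 : ℝ) < m := by exact_mod_cast hm
  have h2 : (2 : ℝ) ≤ M := by exact_mod_cast hM
  have h3 : (0 : ℝ) < Q := by exact_mod_cast hQ
  unfold rE; positivity

/-- the no-disc condition -/
lemma farE (hm : 0 < m) (hQ : 0 < Q) (hQM : Q ≤ M) (hM : 2 ≤ M) {x : ℚ} (hF : FarE Q M x) :
    PriPer.Far m M (ball (axisPt x) (rE m Q M)) := by
  intro y hy L hL hcon
  have hm1 : (1 : ℝ) ≤ m := by exact_mod_cast hm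
  have hM2 : (2 : ℝ) ≤ M := by exact_mod_cast hM
  have hQ1 : (1 : ℝ) ≤ Q := by exact_mod_cast hQ
  have hQMr : (Q : ℝ) ≤ M := by exact_mod_cast hQM
  have hr := rE_pos hm hQ hM
  have hy1 : (1 : ℝ) ≤ y.den := by exact_mod_cast y.pos
  have hyM : (y.den : ℝ) ≤ M := by exact_mod_cast hy
  have h1 := hF y.num y.den y.pos hy
  have hye : (y : ℝ) = ((y.num : ℝ) / (y.den : ℝ)) := Rat.cast_def y
  rw [← hye] at h1
  set d : ℝ := |(y : ℝ) - x| with hd
  have hd0 : 0 ≤ d := abs_nonneg _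
  have h1' : 1 / (16 * (Q * (M : ℝ) ^ 2)) ≤ d ^ 2 * y.den := by rw [hd, sq_abs]; exact h1
  -- the distance is at least `1 / (4 M ^ 2)`
  have hd1 : 1 / (4 * (M : ℝ) ^ 2) ≤ d := by
    refine abs_le_of_sq_le_sq' ?_ hd0 |>.2
    have h2 : d ^ 2 * y.den ≤ d ^ 2 * M := mul_le_mul_of_nonneg_left hyM (sq_nonneg _)
    have h3 : 1 / (16 * (Q * (M : ℝ) ^ 2)) ≤ d ^ 2 * M := h1'.trans h2
    have h4 : (1 / (4 * (M : ℝ) ^ 2)) ^ 2 * M ≤ 1 / (16 * (Q * (M : ℝ) ^ 2)) := by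
      have h5 : (1 / (4 * (M : ℝ) ^ 2)) ^ 2 * M = 1 / (16 * (M * (M : ℝ) ^ 2)) := by
        field_simp; norm_num
      rw [h5]
      exact one_div_le_one_div_of_le (by positivity)
        (mul_le_mul_of_nonneg_left (mul_le_mul_of_nonneg_right hQMr (sq_nonneg _)) (by norm_num))
    exact le_of_mul_le_mul_right (h4.trans h3) (by linarith only [hM2])
  have hr1 : rE m Q M ≤ d := by
    refine le_trans ?_ hd1
    unfold rE
    refine one_div_le_one_div_of_le (by positivity) ?_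
    have h2 : (0 : ℝ) ≤ (M : ℝ) ^ 2 := sq_nonneg _
    have h3 : (M : ℝ) ^ 2 ≤ Q * (M : ℝ) ^ 2 := le_mul_of_one_le_left h2 hQ1
    have h4 : 4 * (Q * (M : ℝ) ^ 2) ≤ 8 * m * (Q * (M : ℝ) ^ 2) :=
      mul_le_mul_of_nonneg_right (by linarith only [hm1]) (h2.trans h3)
    linarith only [h3, h4]
  have hLn : ‖L - axisPt x‖ < rE m Q M := by rw [← dist_eq_norm]; exact hL
  have h4 : ‖axisPt x - axisPt y‖ = 2 * Real.pi * d := by
    have e : axisPt x - axisPt y = ((2 * Real.pi * ((x : ℝ) - y) : ℝ) : ℂ) * I := by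
      unfold axisPt; push_cast; ring
    rw [e, norm_mul, norm_I, mul_one, norm_real, Real.norm_eq_abs, abs_mul,
      abs_of_pos (by positivity : (0 : ℝ) < 2 * Real.pi), hd, abs_sub_comm]
  have h5 : 5 * d ≤ ‖L - axisPt y‖ := by
    have h6 := norm_sub_le (L - axisPt y) (L - axisPt x)
    have e : L - axisPt y - (L - axisPt x) = axisPt x - axisPt y := by ring
    rw [e, h4] at h6
    have h7 : 6 * d ≤ 2 * Real.pi * d :=
      mul_le_mul_of_nonneg_right (by linarith only [Real.pi_gt_three]) hd0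
    linarith only [h6, h7, hLn, hr1]
  have h6 : L.re < rE m Q M := by
    have h3 := (abs_re_le_norm (L - axisPt x)).trans_lt hLn
    have h4 : (L - axisPt x).re = L.re := by simp [axisPt]
    rw [h4] at h3
    exact (le_abs_self _).trans_lt h3
  have h7 : (5 * d) ^ 2 ≤ ‖L - axisPt y‖ ^ 2 := pow_le_pow_left₀ (by positivity) h5 2
  have h8 : 2 * (m : ℝ) * Real.log 2 / y.den * L.re ≤ 2 * m * 1 / y.den * rE m Q M := by
    have h9 : 0 ≤ 2 * (m : ℝ) * Real.log 2 / y.den := by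
      have := Real.log_pos (by norm_num : (1 : ℝ) < 2)
      positivity
    have h10 : 2 * (m : ℝ) * Real.log 2 / y.den ≤ 2 * m * 1 / y.den := by
      have h11 : Real.log 2 ≤ 1 := by linarith only [Real.log_two_lt_d9]
      exact div_le_div_of_nonneg_right (mul_le_mul_of_nonneg_left h11 (by positivity))
        (by positivity)
    calc _ ≤ 2 * (m : ℝ) * Real.log 2 / y.den * rE m Q M := mul_le_mul_of_nonneg_left h6.le h9
      _ ≤ _ := mul_le_mul_of_nonneg_right h10 hr.le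
  have h9 : 2 * (m : ℝ) * 1 / y.den * rE m Q M =
      4 * (1 / (16 * (Q * (M : ℝ) ^ 2))) / y.den := by
    unfold rE; field_simp; norm_num
  have h10 : 4 * (1 / (16 * (Q * (M : ℝ) ^ 2))) / y.den ≤ 4 * d ^ 2 := by
    rw [div_le_iff₀ (zero_lt_one.trans_le hy1)]
    linarith only [h1']
  have h11 : 25 * d ^ 2 ≤ 4 * d ^ 2 := by
    calc 25 * d ^ 2 = (5 * d) ^ 2 := by ring
      _ ≤ _ := h7.trans (hcon.trans (h8.trans (h9.le.trans h10)))
  have h12 : 0 < d := lt_of_lt_of_le (by positivity) hd1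
  have h13 : 0 < d ^ 2 := pow_pos h12 2
  linarith only [h11, h13]

/-- resonances -/
lemma exp_ne_one_rE (hm : 0 < m) (hQ : 0 < Q) (hQM : Q ≤ M) (hM : 2 ≤ M) {x : ℚ}
    (hF : FarE Q M x) {L : ℂ} (hL : L ∈ ball (axisPt x) (rE m Q M)) {k : ℕ} (hk : 0 < k)
    (hkM : k ≤ M) : exp ((k : ℂ) * L) ≠ 1 :=
  PriPer.exp_ne_one_of_far (farE hm hQ hQM hM hF) hL hk hkM

lemma rE_le_gR (hm : 0 < m) (hQ : 0 < Q) (hQM : Q ≤ M) (hM : 2 ≤ M) {x : ℚ}
    (h0 : 1 / (2 * (Q : ℝ)) ≤ x) (h1 : (x : ℝ) ≤ 1 - 1 / (2 * (Q : ℝ))) :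
    rE m Q M ≤ Sat.gR m x := by
  have hm1 : (1 : ℝ) ≤ m := by exact_mod_cast hm
  have hM2 : (2 : ℝ) ≤ M := by exact_mod_cast hM
  have hQ1 : (1 : ℝ) ≤ Q := by exact_mod_cast hQ
  have hQMr : (Q : ℝ) ≤ M := by exact_mod_cast hQM
  have h4 : 1 / (2 * (Q : ℝ)) ≤ min (x : ℝ) (1 - x) := le_min h0 (by linarith only [h1])
  have h5 : (1 / (2 * (Q : ℝ))) ^ 2 ≤ (min (x : ℝ) (1 - x)) ^ 2 :=
    pow_le_pow_left₀ (by positivity) h4 2
  have h6 : rE m Q M ≤ 1 / 4 * (1 / (2 * (Q : ℝ))) ^ 2 / m := by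
    have h7 : 1 / 4 * (1 / (2 * (Q : ℝ))) ^ 2 / m = 1 / (16 * m * (Q : ℝ) ^ 2) := by
      field_simp; norm_num
    rw [h7]
    unfold rE
    refine one_div_le_one_div_of_le (by positivity) ?_
    calc 16 * (m : ℝ) * (Q : ℝ) ^ 2 = 8 * m * (Q * (2 * Q)) := by ring
      _ ≤ 8 * m * (Q * (M * M)) :=
        mul_le_mul_of_nonneg_left (mul_le_mul_of_nonneg_left
          (mul_le_mul hM2 hQMr (by linarith only [hQ1]) (by linarith only [hM2]))
          (by linarith only [hQ1])) (by linarith only [hm1])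
      _ = _ := by ring
  refine h6.trans ?_
  unfold Sat.gR
  gcongr

lemma exact_hyp (hm : 0 < m) (hQ : 0 < Q) (hQM : Q ≤ M) (hM : 2 ≤ M) {x : ℚ}
    (h0 : 1 / (2 * (Q : ℝ)) ≤ x) (h1 : (x : ℝ) ≤ 1 - 1 / (2 * (Q : ℝ)))
    (hq : 2 ^ 8 * (m ^ 2 * (Q * M ^ 2)) ≤ x.den) :
    100 * (m : ℝ) ^ 2 ≤ x.den * (min (x : ℝ) (1 - x)) ^ 2 := by
  have hm1 : (1 : ℝ) ≤ m := by exact_mod_cast hm
  have hM2 : (2 : ℝ) ≤ M := by exact_mod_cast hM
  have hQ1 : (1 : ℝ) ≤ Q := by exact_mod_cast hQ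
  have hQMr : (Q : ℝ) ≤ M := by exact_mod_cast hQM
  have h4 : 1 / (2 * (Q : ℝ)) ≤ min (x : ℝ) (1 - x) := le_min h0 (by linarith only [h1])
  have h5 : (1 / (2 * (Q : ℝ))) ^ 2 ≤ (min (x : ℝ) (1 - x)) ^ 2 :=
    pow_le_pow_left₀ (by positivity) h4 2
  have hqr : 2 ^ 8 * ((m : ℝ) ^ 2 * (Q * (M : ℝ) ^ 2)) ≤ x.den := by exact_mod_cast hq
  have h6 : 0 < (m : ℝ) ^ 2 := by positivity
  have h7 : (2 : ℝ) * Q ≤ (M : ℝ) ^ 2 := by
    calc (2 : ℝ) * Q ≤ M * M :=
          mul_le_mul hM2 hQMr (by linarith only [hQ1]) (by linarith only [hM2])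
      _ = _ := by ring
  calc 100 * (m : ℝ) ^ 2 ≤ 64 * (m : ℝ) ^ 2 * ((2 * Q) / Q) := by
        rw [mul_div_assoc, div_self (by positivity)]; linarith only [h6]
    _ ≤ 64 * (m : ℝ) ^ 2 * ((M : ℝ) ^ 2 / Q) := by gcongr
    _ = 2 ^ 8 * ((m : ℝ) ^ 2 * (Q * (M : ℝ) ^ 2)) * (1 / (2 * (Q : ℝ))) ^ 2 := by
        field_simp; norm_num
    _ ≤ _ := by gcongr

lemma seven_le (hm : 0 < m) (hQ : 0 < Q) (hM : 2 ≤ M) {x : ℚ}
    (hq : 2 ^ 8 * (m ^ 2 * (Q * M ^ 2)) ≤ x.den) :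
    7 * (m : ℝ) / x.den ≤ rE m Q M / 2 := by
  have hm1 : (1 : ℝ) ≤ m := by exact_mod_cast hm
  have hM2 : (2 : ℝ) ≤ M := by exact_mod_cast hM
  have hQ1 : (1 : ℝ) ≤ Q := by exact_mod_cast hQ
  have hqr : 2 ^ 8 * ((m : ℝ) ^ 2 * (Q * (M : ℝ) ^ 2)) ≤ x.den := by exact_mod_cast hq
  have h1 : rE m Q M / 2 = 16 * m / (2 ^ 8 * ((m : ℝ) ^ 2 * (Q * (M : ℝ) ^ 2))) := by
    unfold rE; field_simp; norm_num
  rw [h1]
  calc 7 * (m : ℝ) / x.den ≤ 7 * m / (2 ^ 8 * ((m : ℝ) ^ 2 * (Q * (M : ℝ) ^ 2))) := by gcongr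
    _ ≤ _ := by gcongr; norm_num

end

/-- E3: over a set far from the fractions of denominator at most `N / m + 2` all other cycles of
period at most `N` are repelling -/
def RepE (N : ℕ) : Prop := ∀ (D : Sat.Dat) (U : Set ℂ), D.Par → D.m ≤ N → IsOpen U → U ⊆ D.B →
  PriPer.Far D.m (MM' N D.m) U → RepOn N U D.c D.b

/-- the reference potential -/
noncomputable def gE (D : Sat.Dat) : ℝ := (D.tp - D.tm) / 5

lemma gE_pos {D : Sat.Dat} (hC : D.Cir) : 0 < gE D := div_pos (sub_pos.2 hC.lt) (by norm_num)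

lemma gE_lt {D : Sat.Dat} (hC : D.Cir) : gE D < 1 := by
  have := hC.lt_one
  unfold gE
  linarith

lemma log_gE {D : Sat.Dat} (hP : D.Par) (hC : D.Cir) :
    |Real.log (gE D)| ≤ D.m * D.x.den + 2 := by
  have hg := gE_pos hC
  rw [abs_of_neg (Real.log_neg hg (gE_lt hC))]
  have h2 : 1 / ((2 : ℝ) ^ (D.m * D.x.den) * 5) ≤ gE D := by
    unfold gE
    rw [← div_div]
    exact div_le_div_of_nonneg_right (plateau_len hP hC) (by positivity)
  have h3 := Real.log_le_log (by positivity) h2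
  rw [one_div, Real.log_inv, Real.log_mul (by positivity) (by positivity), Real.log_pow] at h3
  have h4 : Real.log 5 ≤ 2 := by
    rw [Real.log_le_iff_le_exp (by norm_num)]
    have h5 : Real.exp 2 = Real.exp 1 * Real.exp 1 := by rw [← Real.exp_add]; norm_num
    have h6 := Real.exp_one_gt_d9
    have h7 : (2.7 : ℝ) * 2.7 ≤ Real.exp 1 * Real.exp 1 :=
      mul_le_mul (by linarith only [h6]) (by linarith only [h6]) (by norm_num) (Real.exp_pos 1).le
    rw [h5]; linarith only [h7]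
  have h6 : ((D.m * D.x.den : ℕ) : ℝ) * Real.log 2 ≤ D.m * D.x.den := by
    push_cast
    exact mul_le_of_le_one_right (by positivity) (by linarith only [Real.log_two_lt_d9])
  linarith only [h3, h4, h6]

/-- **the cut at `x`** -/
theorem exists_cutE {N m : ℕ} {w : ℕ → ℤ} {k : ℤ} {σ : ℂ → ℂ × ℂ} (hV : Wide m w k σ)
    (hex : ∀ L ∈ D0 m, Exa m (σ L)) (hE3 : RepE N) (hmN : m ≤ N) {Q : ℕ} (hQ : 0 < Q)
    (hQM : Q ≤ MM' N m) {x : ℚ}
    (h0 : 1 / (2 * (Q : ℝ)) ≤ x) (h1 : (x : ℝ) ≤ 1 - 1 / (2 * (Q : ℝ)))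
    (hF : FarE Q (MM' N m) x) (hden : 2 ^ 8 * (m ^ 2 * (Q * MM' N m ^ 2)) ≤ x.den) :
    ∃ D : Sat.Dat, D.Cir ∧ CutE N (rE m Q (MM' N m)) (gE D) D ∧ D.m = m ∧ D.x = x ∧
      Circ.nu w m (th D) = k + x ∧
      (∀ L, D.c L = (σ L).1) ∧
      ∃ τ : ℂ → ℂ × ℂ, ContinuousOn τ Lft ∧ (∀ L ∈ Lft, τ L ∈ Per D.m ∧ mul D.m (τ L) = exp L) ∧
        τ (LpE (rE m Q (MM' N m)) D) = D.σ (LpE (rE m Q (MM' N m)) D) ∧
        ∀ L ∈ D0 m, L.re < 0 → (σ L).1 = (τ L).1 := by
  have hm := hV.pos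
  set M := MM' N m with hMdef
  have hM : 2 ≤ M := two_le_MM' N m
  have hM2 : (2 : ℝ) ≤ M := by exact_mod_cast hM
  have hwd : Word m w := hV.word hex
  have hpi := Real.pi_pos
  have hm1 : (1 : ℝ) ≤ m := by exact_mod_cast hm
  have hQ1 : (1 : ℝ) ≤ Q := by exact_mod_cast hQ
  have hx0r : (0 : ℝ) < x := lt_of_lt_of_le (by positivity) h0
  have hx1r : (x : ℝ) < 1 := by
    have : (0 : ℝ) < 1 / (2 * (Q : ℝ)) := by positivity
    linarith only [this, h1]
  have hx0 : 0 < x := by exact_mod_cast hx0r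
  have hx1 : x < 1 := by exact_mod_cast hx1r
  set B : Set ℂ := ball (axisPt x) (Sat.gR m x) with hB
  have hBD : B ⊆ D0 m := ball_subset_D0 hm hx0 hx1
  have hrg : rE m Q M ≤ Sat.gR m x := rE_le_gR hm hQ hQM hM h0 h1
  have hrr : 0 < rE m Q M := rE_pos hm hQ hM
  have hP₀ : (⟨m, x, σ, w, k, w, 0, 0, 0⟩ : Sat.Dat).Par := by
    refine Sat.par_of _ hm hx0 hx1 (hV.cont.mono hBD) (fun L hL => hV.sec L (hBD hL)) ?_ hV.bits ?_
    · exact fun L hL => hex L (hBD hL)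
    · intro L hL hM
      obtain ⟨θ, h2, h3, h4⟩ := hV.ang L (hBD hL) hM
      exact ⟨θ, h2, h3, h4⟩
  obtain ⟨i₀, u, kk, tm, tp, -, hcir⟩ := Sat.s1_circle m x w k hm hx0 hx1 hV.bits hwd.2.2
  have hP := Sat.s0_shift _ i₀ u kk tm tp hP₀
  set D : Sat.Dat := ⟨m, x, fun L => ((σ L).1, it (σ L).1 i₀ (σ L).2), fun i => w (i + i₀), k,
    u, kk, tm, tp⟩ with hD
  have hC : D.Cir := hcir _
  have hPD : D.Par := hP
  have hDσ : ∀ L, D.σ L = shf i₀ (σ L) := fun L => rfl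
  have hcut : CutE N (rE m Q M) (gE D) D := by
    refine ⟨hPD, hmN, hrr, hrg, ?_, ?_, gE_pos hC, by linarith [gE_lt hC], ?_⟩
    · intro L hL j hj hjN
      refine exp_ne_one_rE hm hQ hQM hM hF hL hj ?_
      have h3 : j ≤ N / m := (Nat.le_div_iff_mul_le hm).2 (by rw [mul_comm]; exact hjN)
      rw [hMdef]; unfold MM'; omega
    · exact hE3 D _ hPD hmN isOpen_ball (ball_subset_ball hrg) (farE hm hQ hQM hM hF)
    · intro c hA hG
      obtain ⟨L, -, h2, -, -, h5⟩ := Sat.mid_of D hPD hC (exact_hyp hm hQ hQM hM h0 h1 hden)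
        (exExact hm hx0 hx1 (exact_hyp hm hQ hQM hM h0 h1 hden)) hA hG
      refine ⟨L, h2, ?_⟩
      rw [dist_eq_norm]
      exact h5.trans (seven_le hm hQ hM hden)
  refine ⟨D, hC, hcut, rfl, rfl, ?_, fun L => rfl, ?_⟩
  · have h2 : Circ.nu D.w D.m (th D) = D.k₀ + D.x := by
      refine (hC.plateau _).2 ?_
      have := hC.lt
      unfold th
      constructor <;> linarith
    have h3 := Sat.s1_rot m w i₀ (th D) hV.bits
    rw [← h3]
    exact h2
  · obtain ⟨τ, hτ, hτ', hτσ⟩ := hcut.exists_left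
    have hpB := hcut.Lp_mem
    have hpl : (LpE (rE m Q M) D).re < 0 := hpB.2
    have hpH : LpE (rE m Q M) D ∈ HS := by
      have h4 := hBD hpB.1
      exact ⟨h4.1, h4.2.1, hpl⟩
    have hHD : HS ⊆ D0 m := fun L hL => ⟨hL.1, hL.2.1, hL.2.2.trans_le (hgt_nonneg m _)⟩
    refine ⟨τ, hτ, hτ', hτσ _ hpB.1 hpl, ?_⟩
    intro L hL hre
    have hG2 : GoodDom m Lft := goodDom_left hm
    have h5 := section_unique hG2 hτ hτ' convex_HS.isPreconnected (g := fun L => shf i₀ (σ L))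
      (l := fun L => L)
      ((continuous_shf i₀).comp_continuousOn (hV.cont.mono hHD)) continuousOn_id
      (fun L hL => ⟨(shf_sec i₀ (hV.sec L (hHD hL))).1, hL.2.2,
        (shf_sec i₀ (hV.sec L (hHD hL))).2⟩)
      (a₀ := LpE (rE m Q M) D) hpH (by rw [hτσ _ hpB.1 hpl, hDσ])
    have h6 := h5 L ⟨hL.1, hL.2.1, hre⟩
    have h7 := congrArg Prod.fst h6
    exact h7

end Pool.Agent.Work.MLC.Pri
end

section
set_option autoImplicit false

/-! # E3: repelling cycles over balls far from the fractions of denominator at most `N / m + 2`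

The period constraint of PriPer51 with the bound `(q - 2) m < n` of PerL54 (exact period `m`). -/

namespace Pool.Agent.Work.MLC.PriPer

open Filter Topology Metric Set Complex
open Pri (Exa MM' two_le_MM' RepE)

lemma finite_word54 {n : ℕ} (hn : 0 < n) : {w : ℕ → ℤ | Word n w}.Finite :=
  (finite_bits hn).subset fun _ hw => ⟨hw.1, hw.2.1⟩

/-- exact period is an open condition -/
lemma exa_nhds54 {d : ℕ} {x₀ : ℂ × ℂ} (h : Exa d x₀) : ∀ᶠ x in 𝓝 x₀, Exa d x := by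
  have h1 : ∀ᶠ x in 𝓝 x₀, ∀ k ∈ Finset.range d, 0 < k → it x.1 k x.2 ≠ x.2 := by
    rw [Filter.eventually_all_finset]
    intro k hk
    rcases Nat.eq_zero_or_pos k with h0 | h0
    · exact Eventually.of_forall fun x hx => absurd hx (by omega)
    · have h2 : Continuous fun x : ℂ × ℂ => it x.1 k x.2 := continuous_it k
      filter_upwards [(isOpen_ne_fun h2 continuous_snd).mem_nhds
        (h k h0 (Finset.mem_range.1 hk))] with x hx _
      exact hx
  filter_upwards [h1] with x hx k hk hkd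
  exact hx k (Finset.mem_range.2 hkd) hk

/-- the word of a point of exact period `d` has exact period `d` -/
lemma word54 {d : ℕ} (hd : 0 < d) {c b : ℂ} {θ : ℝ} {w : ℕ → ℤ} (h : ExtP d c b θ w)
    (hex : Exa d (c, b)) : Word d w := by
  refine ⟨h.2.2.2.1.bit, h.2.2.2.1.per, ?_⟩
  intro k hk hkd
  by_contra hcon
  push Not at hcon
  have h2 : ExtP d c (it c k b) θ w := by
    obtain ⟨a1, a2, a3, a4, a5⟩ := h
    refine ⟨a1, a2, ?_, a4, fun i => ?_⟩
    · rw [Sat.it_comp, add_comm, ← Sat.it_comp, a3]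
    · rw [Sat.it_comp, ← hcon i]
      exact a5 (i + k)
  exact hex k hk hkd (extP_inj hd h h2).symm

/-- **circle part of the period constraint** -/
theorem circle_den54 {n d : ℕ} (hn : 0 < n) (hd : 0 < d) {y : ℚ} (hy : 2 ≤ y.den)
    (h : ∀ δ > 0, ∃ φ : ℝ, 0 < φ ∧ φ < δ ∧ ∀ ε > 0, ∃ (θ : ℝ) (w w' : ℕ → ℤ), 0 ≤ θ ∧ θ ≤ 1 ∧
      Bits n w ∧ Word d w' ∧ |Int.fract (Circ.nu w n θ) - φ| < ε ∧
      ∃ k : ℤ, Circ.nu w' d θ = y + k) : (y.den - 2) * d < n := by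
  have hex : ∀ j : ℕ, ∃ (θ : ℝ) (p : (ℕ → ℤ) × (ℕ → ℤ)), θ ∈ Icc (0 : ℝ) 1 ∧
      p ∈ {w | Bits n w} ×ˢ {w | Word d w} ∧ 0 < Int.fract (Circ.nu p.1 n θ) ∧
      Int.fract (Circ.nu p.1 n θ) < 2 * (1 / ((j : ℝ) + 1)) ∧ ∃ k : ℤ, Circ.nu p.2 d θ = y + k := by
    intro j
    obtain ⟨φ, h1, h2, h3⟩ := h (1 / ((j : ℝ) + 1)) (by positivity)
    obtain ⟨θ, w, w', h4, h5, h6, h7, h8, h9⟩ := h3 (φ / 2) (by linarith)
    rw [abs_lt] at h8
    exact ⟨θ, (w, w'), ⟨h4, h5⟩, ⟨h6, h7⟩, by simp only; linarith, by simp only; linarith, h9⟩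
  choose θ p hθ hp hf1 hf2 hk using hex
  obtain ⟨⟨w, w'⟩, hww, hfr⟩ := pigeon ((finite_bits hn).prod (finite_word54 hd)) hp
  obtain ⟨φ₁, hφ₁, hφ₁'⟩ := extraction_of_frequently_atTop hfr
  obtain ⟨θ₀, -, φ₂, hφ₂, hlim⟩ := isCompact_Icc.tendsto_subseq (fun j => hθ (φ₁ j))
  set ψ : ℕ → ℕ := fun j => φ₁ (φ₂ j) with hψ
  have hψm : StrictMono ψ := hφ₁.comp hφ₂
  have hlim' : Tendsto (fun j => θ (ψ j)) atTop (𝓝 θ₀) := hlim
  have hpe : ∀ j, p (ψ j) = (w, w') := fun j => hφ₁' (φ₂ j)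
  -- the attracting word
  have hfz : Tendsto (fun j => Int.fract (Circ.nu w n (θ (ψ j)))) atTop (𝓝 0) := by
    have h1 : Tendsto (fun j : ℕ => 2 * (1 / ((ψ j : ℝ) + 1))) atTop (𝓝 0) := by
      have := (tendsto_one_div_add_atTop_nhds_zero_nat (𝕜 := ℝ)).comp hψm.tendsto_atTop
      simpa using this.const_mul 2
    refine squeeze_zero (fun j => Int.fract_nonneg _) (fun j => ?_) h1
    have h2 := hf2 (ψ j)
    rw [hpe j] at h2
    exact h2.le
  have hnu : Tendsto (fun j => Circ.nu w n (θ (ψ j))) atTop (𝓝 (Circ.nu w n θ₀)) :=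
    ((Circ.nu_continuous w n).tendsto θ₀).comp hlim'
  have hnu' : Tendsto (fun j => ((⌊Circ.nu w n (θ (ψ j))⌋ : ℤ) : ℝ) +
      Int.fract (Circ.nu w n (θ (ψ j)))) atTop (𝓝 (Circ.nu w n θ₀)) := by
    refine hnu.congr fun j => ?_
    rw [Int.floor_add_fract]
  obtain ⟨k, hk1, hk2⟩ := int_limit hnu' hfz
  rw [add_zero] at hk1
  have hper : ∃ a : ℤ, (2 : ℝ) ^ n * θ₀ - θ₀ = a := by
    refine end_periodic hn hk1 ?_
    refine hlim'.frequently (Eventually.frequently (Eventually.of_forall fun j => ?_))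
    intro h1
    have h2 := hf1 (ψ j)
    rw [hpe j, h1] at h2
    simp at h2
  -- the repelling word
  choose κ hκ using hk
  have hnu2 : Tendsto (fun j => Circ.nu w' d (θ (ψ j))) atTop (𝓝 (Circ.nu w' d θ₀)) :=
    ((Circ.nu_continuous w' d).tendsto θ₀).comp hlim'
  have hnu2' : Tendsto (fun j => ((κ (ψ j) : ℤ) : ℝ) + (y : ℝ)) atTop (𝓝 (Circ.nu w' d θ₀)) := by
    refine hnu2.congr fun j => ?_
    have h1 := hκ (ψ j)
    rw [hpe j] at h1
    rw [h1]; ring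
  obtain ⟨k', hk', -⟩ := int_limit hnu2' tendsto_const_nhds
  have hw'W : Word d w' := hww.2
  have hden : (y - (⌊y⌋ : ℤ)).den = y.den := Rat.sub_intCast_den y ⌊y⌋
  have hfr0 : 0 < y - (⌊y⌋ : ℤ) := by
    rcases (Int.fract_nonneg y).lt_or_eq with h | h
    · exact h
    · exfalso
      have h2 : y - (⌊y⌋ : ℤ) = 0 := h.symm
      rw [h2] at hden
      simp at hden
      omega
  have hfr1 : y - (⌊y⌋ : ℤ) < 1 := Int.fract_lt_one y
  have := perL54 (κ := k' + ⌊y⌋) hd hw'W hfr0 hfr1 hn hper (by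
    rw [hk']; push_cast; ring)
  rwa [hden] at this

/-- the rotation number is constant along the attracting component: data over the unit disc -/
theorem disc_data54 {n d : ℕ} (hn : 0 < n) (hd : 0 < d) {c b v : ℂ} {x : ℚ} (hx : 2 ≤ x.den)
    (hA : (c, b) ∈ Hyp.Att n) (hR : RX d x c v) (hex : Exa d (c, v)) :
    ∃ (s : ℂ → ℂ × ℂ) (v' : ℂ → ℂ), (∀ z ∈ ball (0 : ℂ) 1, s z ∈ Hyp.Att n ∧ mul n (s z) = z) ∧
      ∀ z ∈ ball (0 : ℂ) 1, RX d x (s z).1 (v' z) ∧ Exa d ((s z).1, v' z) := by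
  obtain ⟨s, hs, hs', hs0⟩ := Hyp.exists_sec hn hA
  set z₀ := mul n (c, b) with hz₀
  have hz₀b : z₀ ∈ ball (0 : ℂ) 1 := mem_ball_zero_iff.2 hA.2.2
  obtain ⟨hcM, hvP, hvm, hE⟩ := hR
  have hc1 : ContinuousOn (fun z => (s z).1) (ball 0 1) := continuous_fst.comp_continuousOn hs
  have hb1 : ContinuousOn (fun z => (s z).2) (ball 0 1) := continuous_snd.comp_continuousOn hs
  have hsA : ∀ z ∈ ball (0 : ℂ) 1, ((s z).1, (s z).2) ∈ Hyp.Att n := fun z hz => (hs' z hz).1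
  have hH1 : ∀ z ∈ ball (0 : ℂ) 1, ∀ b', ((s z).1, b') ∈ Per d → mul d ((s z).1, b') ≠ 1 := by
    intro z hz b' hb'
    exact One49.no_parabolic hn hd (hsA z hz).1 (hsA z hz).2.2 hb'
  have hs01 : (s z₀).1 = c := by rw [hs0]
  have hs02 : (s z₀).2 = b := by rw [hs0]
  obtain ⟨v', hv', hv'p, hv'0⟩ := PriHar.exists_cont (c := fun z => (s z).1) hd isOpen_ball
    (convex_ball (0 : ℂ) 1) hc1 hH1 hz₀b (b₀ := v) (by simp only [hs01]; exact hvP)
  have hrep : ∀ z ∈ ball (0 : ℂ) 1, 1 < ‖mul d ((s z).1, v' z)‖ := by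
    intro z hz
    refine One49.other_repelling hn hd (hsA z hz).1 (hsA z hz).2.2 (hv'p z hz) fun i hi => ?_
    have h1 := orbit_const (c := fun z => (s z).1) (v := fun z => (s z).2) hn isOpen_ball
      (convex_ball (0 : ℂ) 1).isPreconnected hc1 hb1 (fun z hz => (hsA z hz).1)
      (fun z hz => (hsA z hz).2.1) hv' hv'p hH1 hz hz₀b (i := i) hi.symm
    simp only [hs01, hs02, hv'0] at h1
    exact not_on_cycle hn hA hvP hvm i h1
  have hMM : ∀ z ∈ ball (0 : ℂ) 1, (s z).1 ∈ MM := fun z hz =>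
    mem_MM_of_att hn (hsA z hz).1 (hsA z hz).2.2
  have ht : ∀ z ∈ ball (0 : ℂ) 1, Tendsto (fun z' => (((s z').1, v' z') : ℂ × ℂ)) (𝓝 z)
      (𝓝 ((s z).1, v' z)) := by
    intro z hz
    have hn' : ball (0 : ℂ) 1 ∈ 𝓝 z := isOpen_ball.mem_nhds hz
    exact (hc1.continuousAt hn').tendsto.prodMk_nhds (hv'.continuousAt hn').tendsto
  have hsub : ball (0 : ℂ) 1 ⊆ {z | z ∈ ball (0 : ℂ) 1 ∧ Ex d x (s z).1 (v' z)} := by
    refine (convex_ball (0 : ℂ) 1).isPreconnected.subset_of_closure_inter_subset ?_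
      ⟨z₀, hz₀b, hz₀b, by rw [hs01, hv'0]; exact hE⟩ ?_
    · rw [isOpen_iff_mem_nhds]
      rintro z ⟨hz, h1⟩
      filter_upwards [(ht z hz).eventually (h1.nhds hd (mem_M_iff.1 (hMM z hz)) (hv'p z hz)
        (hrep z hz)), isOpen_ball.mem_nhds hz] with z' h2 h3
      exact ⟨h3, (h2 (hv'p z' h3)).1 (mem_M_iff.1 (hMM z' h3))⟩
    · rintro z ⟨hzc, hz⟩
      refine ⟨hz, ex_closed hd hx (mem_M_iff.1 (hMM z hz)) (hv'p z hz) (hrep z hz) ?_⟩
      refine (ht z hz).frequently ?_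
      refine (mem_closure_iff_frequently.1 hzc).mono ?_
      rintro z' ⟨h2, h3⟩
      exact ⟨hv'p z' h2, mem_M_iff.1 (hMM z' h2), h3⟩
  refine ⟨s, v', hs', fun z hz => ⟨⟨hMM z hz, hv'p z hz, hrep z hz, (hsub hz).2⟩, ?_⟩⟩
  intro k hk hkd he
  refine hex k hk hkd ?_
  have hvk : ContinuousOn (fun y => it ((s y).1) k (v' y)) (ball (0 : ℂ) 1) :=
    (continuous_it k).comp_continuousOn (hc1.prodMk hv')
  have h2 := PriHar.cont_ne (c := fun z => (s z).1) isOpen_ball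
    (convex_ball (0 : ℂ) 1).isPreconnected hc1 hvk hv'
    (fun y hy => Sat.Per_it (hv'p y hy) k) hv'p hH1 hz hz₀b he
  simp only [hs01, hv'0] at h2
  exact h2

/-- the boundary point of internal angle `φ` -/
theorem boundary_point54 {n d : ℕ} (hn : 0 < n) (hd : 0 < d) {x : ℚ} (hx : 2 ≤ x.den)
    {s : ℂ → ℂ × ℂ} {v : ℂ → ℂ}
    (hs' : ∀ z ∈ ball (0 : ℂ) 1, s z ∈ Hyp.Att n ∧ mul n (s z) = z)
    (hR : ∀ z ∈ ball (0 : ℂ) 1, RX d x (s z).1 (v z))
    (hEx : ∀ z ∈ ball (0 : ℂ) 1, Exa d ((s z).1, v z)) {φ : ℝ}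
    (hφ : exp (2 * Real.pi * φ * I) ∉ {w : ℂ | ∃ c b v, (c, v) ∈ Per (d * x.den) ∧
      mul (d * x.den) (c, v) = 1 ∧ (c, b) ∈ Per n ∧ mul n (c, b) = w}) :
    ∃ c b v', (c, b) ∈ Per n ∧ mul n (c, b) = exp (2 * Real.pi * φ * I) ∧ RX d x c v' ∧
      Exa d (c, v') := by
  set ζ : ℂ := exp (2 * Real.pi * φ * I) with hζ
  have hζ1 : ‖ζ‖ = 1 := by
    rw [hζ, Complex.norm_exp]
    simp
  set t : ℕ → ℂ := fun j => ((1 - 1 / ((j : ℝ) + 2) : ℝ) : ℂ) * ζ with ht
  have ht1 : ∀ j, t j ∈ ball (0 : ℂ) 1 := by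
    intro j
    rw [mem_ball_zero_iff, ht]
    simp only
    have h1 : (0 : ℝ) < 1 / ((j : ℝ) + 2) := by positivity
    have h2 : (1 : ℝ) / ((j : ℝ) + 2) ≤ 1 := by
      rw [div_le_one (by positivity)]; linarith [(Nat.cast_nonneg j : (0 : ℝ) ≤ j)]
    rw [norm_mul, hζ1, mul_one, Complex.norm_real, Real.norm_eq_abs, abs_of_nonneg (by linarith)]
    linarith
  have htl : Tendsto t atTop (𝓝 ζ) := by
    have h1 : Tendsto (fun j : ℕ => (1 - 1 / ((j : ℝ) + 2) : ℝ)) atTop (𝓝 1) := by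
      have h2 := (tendsto_one_div_add_atTop_nhds_zero_nat (𝕜 := ℝ)).comp (tendsto_add_atTop_nat 1)
      have h3 : Tendsto (fun j : ℕ => 1 / ((j : ℝ) + 2)) atTop (𝓝 0) := by
        refine h2.congr fun j => ?_
        simp only [Function.comp_apply]
        push_cast
        ring
      simpa using h3.const_sub 1
    have h2 : Tendsto (fun j : ℕ => ((1 - 1 / ((j : ℝ) + 2) : ℝ) : ℂ)) atTop (𝓝 ((1 : ℝ) : ℂ)) :=
      (Complex.continuous_ofReal.tendsto 1).comp h1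
    have h3 := h2.mul_const ζ
    simpa [ht] using h3
  have hmem : ∀ j, ((s (t j)), v (t j)) ∈
      (closedBall (0 : ℂ) 4 ×ˢ closedBall (0 : ℂ) 3) ×ˢ closedBall (0 : ℂ) 5 := by
    intro j
    obtain ⟨h1, h2⟩ := hs' _ (ht1 j)
    obtain ⟨h3, h4⟩ := Per_bdd hn h1.1 (by have := h1.2.2; linarith)
    refine ⟨⟨mem_closedBall_zero_iff.2 h3, mem_closedBall_zero_iff.2 h4⟩, ?_⟩
    rw [mem_closedBall_zero_iff]
    have h5 : ((s (t j)).1, v (t j)) ∈ Per d := (hR _ (ht1 j)).2.1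
    have h6 := norm_le_of_G_zero (G_zero_of_per hd h5)
    linarith
  obtain ⟨⟨y, v₀⟩, -, ψ, hψ, hlim⟩ := (((isCompact_closedBall (0 : ℂ) 4).prod
    (isCompact_closedBall (0 : ℂ) 3)).prod (isCompact_closedBall (0 : ℂ) 5)).tendsto_subseq hmem
  have hl1 : Tendsto (fun j => s (t (ψ j))) atTop (𝓝 y) := (continuous_fst.tendsto _).comp hlim
  have hl2 : Tendsto (fun j => v (t (ψ j))) atTop (𝓝 v₀) := (continuous_snd.tendsto _).comp hlim
  have hl4 : Tendsto (fun j => t (ψ j)) atTop (𝓝 ζ) := htl.comp hψ.tendsto_atTop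
  have hl5 : Tendsto (fun j => (((s (t (ψ j))).1, v (t (ψ j))) : ℂ × ℂ)) atTop (𝓝 (y.1, v₀)) :=
    ((continuous_fst.tendsto y).comp hl1).prodMk_nhds hl2
  have hyP : y ∈ Per n := (isClosed_Per n).mem_of_tendsto hl1
    (Eventually.of_forall fun j => (hs' _ (ht1 (ψ j))).1.1)
  have hym : mul n y = ζ := by
    have h1 : Tendsto (fun j => mul n (s (t (ψ j)))) atTop (𝓝 (mul n y)) :=
      ((continuous_mul' n).tendsto y).comp hl1
    have h2 : (fun j => mul n (s (t (ψ j)))) = fun j => t (ψ j) :=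
      funext fun j => (hs' _ (ht1 (ψ j))).2
    rw [h2] at h1
    exact tendsto_nhds_unique h1 hl4
  have hvP : (y.1, v₀) ∈ Per d := (isClosed_Per d).mem_of_tendsto hl5
    (Eventually.of_forall fun j => (hR _ (ht1 (ψ j))).2.1)
  have hyM : y.1 ∈ MM := by
    have h1 : Tendsto (fun j => (s (t (ψ j))).1) atTop (𝓝 y.1) := (continuous_fst.tendsto y).comp hl1
    exact isCompact_MM.isClosed.mem_of_tendsto h1
      (Eventually.of_forall fun j => (hR _ (ht1 (ψ j))).1)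
  have hmt : Tendsto (fun j => mul d ((s (t (ψ j))).1, v (t (ψ j)))) atTop
      (𝓝 (mul d (y.1, v₀))) := ((continuous_mul' d).tendsto _).comp hl5
  have hre0 : 1 < ‖mul d (y.1, v₀)‖ := by
    by_contra hcon
    push Not at hcon
    have hge : 1 ≤ ‖mul d (y.1, v₀)‖ :=
      ge_of_tendsto' hmt.norm fun j => (hR _ (ht1 (ψ j))).2.2.1.le
    have h1 : ‖mul d (y.1, v₀)‖ = 1 := le_antisymm hcon hge
    -- logarithms
    set l : ℕ → ℂ := fun j => Complex.log (mul d ((s (t (ψ j))).1, v (t (ψ j)))) with hl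
    have hne : ∀ j, mul d ((s (t (ψ j))).1, v (t (ψ j))) ≠ 0 := by
      intro j h0
      have := (hR _ (ht1 (ψ j))).2.2.1
      rw [h0, norm_zero] at this
      linarith
    have hle : ∀ j, exp (l j) = mul d ((s (t (ψ j))).1, v (t (ψ j))) := fun j =>
      Complex.exp_log (hne j)
    have hlre : ∀ j, (l j).re = Real.log ‖mul d ((s (t (ψ j))).1, v (t (ψ j)))‖ := fun j =>
      Complex.log_re _
    have hlpos : ∀ j, 0 < (l j).re := fun j => by
      rw [hlre j]; exact Real.log_pos (hR _ (ht1 (ψ j))).2.2.1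
    have hlz : Tendsto (fun j => (l j).re) atTop (𝓝 0) := by
      have h2 : Tendsto (fun j => Real.log ‖mul d ((s (t (ψ j))).1, v (t (ψ j)))‖) atTop
          (𝓝 (Real.log 1)) := by
        rw [← h1]
        exact hmt.norm.log (by rw [h1]; exact one_ne_zero)
      rw [Real.log_one] at h2
      exact h2.congr fun j => (hlre j).symm
    have hpl : ∀ j, ∃ p : ℤ, ‖l j - axisPt ((p : ℚ) / (x.den : ℚ))‖ ^ 2 ≤
        2 * d * Real.log 2 / x.den * (l j).re := by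
      intro j
      obtain ⟨h3, h4, h5, h6⟩ := hR _ (ht1 (ψ j))
      obtain ⟨p, -, hp⟩ := h6.ply hd hx h3 h4 (hle j).symm (hlpos j)
      exact ⟨p, hp⟩
    choose p hp using hpl
    have hz : Tendsto (fun j => l j - axisPt ((p j : ℚ) / (x.den : ℚ))) atTop (𝓝 0) := by
      rw [tendsto_zero_iff_norm_tendsto_zero]
      have h2 : Tendsto (fun j => Real.sqrt (2 * d * Real.log 2 / x.den * (l j).re)) atTop
          (𝓝 0) := by
        have h3 : Tendsto (fun j => 2 * (d : ℝ) * Real.log 2 / x.den * (l j).re) atTop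
            (𝓝 (2 * d * Real.log 2 / x.den * 0)) := hlz.const_mul _
        rw [mul_zero] at h3
        have h4 := (Real.continuous_sqrt.tendsto 0).comp h3
        rw [Real.sqrt_zero] at h4
        exact h4
      exact squeeze_zero (fun j => norm_nonneg _) (fun j => Real.le_sqrt_of_sq_le (hp j)) h2
    have hpow : Tendsto (fun j => mul d ((s (t (ψ j))).1, v (t (ψ j))) ^ x.den) atTop (𝓝 1) := by
      have h2 : Tendsto (fun j => exp ((x.den : ℂ) * (l j - axisPt ((p j : ℚ) / (x.den : ℚ)))))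
          atTop (𝓝 (exp ((x.den : ℂ) * 0))) :=
        (Complex.continuous_exp.tendsto _).comp (hz.const_mul _)
      rw [mul_zero, Complex.exp_zero] at h2
      refine h2.congr fun j => ?_
      rw [mul_sub, Complex.exp_sub, exp_den_mul x.pos, div_one, Complex.exp_nat_mul, hle j]
    have hone : mul d (y.1, v₀) ^ x.den = 1 := tendsto_nhds_unique (hmt.pow _) hpow
    apply hφ
    refine ⟨y.1, y.2, v₀, ?_, ?_, hyP, hym⟩
    · have h4 : Function.IsPeriodicPt (f y.1) d v₀ := hvP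
      exact h4.trans_dvd ⟨x.den, rfl⟩
    · rw [Hyp.mul_mul hvP, hone]
  refine ⟨y.1, y.2, v₀, hyP, hym, ⟨hyM, hvP, hre0, ?_⟩, ?_⟩
  swap
  · intro k hk hkd he
    have hne : mul d (y.1, v₀) ≠ 1 := by
      intro h5
      rw [h5, norm_one] at hre0
      exact lt_irrefl _ hre0
    obtain ⟨β, -, -, hβe⟩ := chart hvP hne
    have hik : Tendsto (fun j => (((s (t (ψ j))).1, it (s (t (ψ j))).1 k (v (t (ψ j)))) : ℂ × ℂ))
        atTop (𝓝 (y.1, v₀)) := by
      have h6 : Tendsto (fun p : ℂ × ℂ => ((p.1, it p.1 k p.2) : ℂ × ℂ)) (𝓝 (y.1, v₀))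
          (𝓝 (y.1, it y.1 k v₀)) :=
        (continuous_fst.prodMk (continuous_it k)).tendsto (y.1, v₀)
      have h7 : it y.1 k v₀ = v₀ := he
      rw [h7] at h6
      exact h6.comp hl5
    obtain ⟨j, h8, h9⟩ := ((hl5.eventually hβe).and (hik.eventually hβe)).exists
    have hPj := (hR _ (ht1 (ψ j))).2.1
    have h10 := h8.1 hPj
    have h11 := h9.1 (Sat.Per_it hPj k)
    exact hEx _ (ht1 (ψ j)) k hk hkd (h11.symm.trans h10)
  refine ex_closed hd hx (mem_M_iff.1 hyM) hvP hre0 ?_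
  refine hl5.frequently (Eventually.frequently (Eventually.of_forall fun j => ?_))
  obtain ⟨h3, h4, h5, h6⟩ := hR _ (ht1 (ψ j))
  exact ⟨h4, mem_M_iff.1 h3, h6⟩

/-- exterior parameters near a boundary point -/
theorem exterior_near54 {n d : ℕ} (hn : 0 < n) (hd : 0 < d) {c b v : ℂ} {x : ℚ}
    {φ : ℝ} (h0 : 0 < φ) (h1 : φ < 1) (hb : (c, b) ∈ Per n)
    (hbm : mul n (c, b) = exp (2 * Real.pi * φ * I)) (hR : RX d x c v) (hex : Exa d (c, v)) {ε : ℝ}
    (hε : 0 < ε) : ∃ (θ : ℝ) (w w' : ℕ → ℤ), 0 ≤ θ ∧ θ ≤ 1 ∧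
      Bits n w ∧ Word d w' ∧ |Int.fract (Circ.nu w n θ) - φ| < ε ∧
      ∃ k : ℤ, Circ.nu w' d θ = x + k := by
  obtain ⟨-, h3, h4⟩ := Sat.s3_neutral n (c, b) φ hn hb h0 h1 hbm
  have hbne : mul n (c, b) ≠ 1 := by
    rw [hbm]
    intro h5
    rw [Complex.exp_eq_one_iff] at h5
    obtain ⟨k, hk⟩ := h5
    have h6 := congrArg Complex.im hk
    simp at h6
    have hpi := Real.pi_pos
    have h7 : φ = k := by
      have : (2 * Real.pi) * φ = (2 * Real.pi) * k := by linarith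
      exact mul_left_cancel₀ (by positivity) this
    rw [h7] at h0 h1
    have h8 : 0 < k := by exact_mod_cast h0
    have h9 : k < 1 := by exact_mod_cast h1
    omega
  obtain ⟨hcM, hvP, hvm, hE⟩ := hR
  have hvne : mul d (c, v) ≠ 1 := by
    intro h5
    rw [h5, norm_one] at hvm
    exact lt_irrefl _ hvm
  obtain ⟨β, hβ, hβ0, hβe⟩ := chart hb hbne
  obtain ⟨γ, hγ, hγ0, hγe⟩ := chart hvP hvne
  have htβ := chart_tendsto (x₀ := (c, b)) hβ hβ0
  have htγ := chart_tendsto (x₀ := (c, v)) hγ hγ0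
  have h5 := hE.nhds hd (mem_M_iff.1 hcM) hvP hvm
  obtain ⟨c', hc', g1, g2, g3, g4, g5⟩ := (h4.and_eventually ((htβ.eventually hβe).and
    ((htγ.eventually hγe).and ((htβ.eventually (h3 ε hε)).and ((htγ.eventually h5).and
      (htγ.eventually (exa_nhds54 hex))))))).exists
  have hβP : (c', β c') ∈ Per n := g1.2 rfl
  have hγP : (c', γ c') ∈ Per d := g2.2 rfl
  obtain ⟨θ, hθ⟩ := exists_ang (Sat.not_mem_MM_iff.1 hc')
  have hθ' : Ang c' (Int.fract θ) := by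
    have h6 := hθ.add_int (-⌊θ⌋)
    have h7 : θ + ((-⌊θ⌋ : ℤ) : ℝ) = Int.fract θ := by
      push_cast; unfold Int.fract; ring
    rwa [h7] at h6
  obtain ⟨w, hw⟩ := exists_extP_word hn hθ' hβP
  obtain ⟨w', hw'⟩ := exists_extP_word hd hθ' hγP
  exact ⟨Int.fract θ, w, w', Int.fract_nonneg _, (Int.fract_lt_one _).le, hw.2.2.2.1,
    word54 hd hw' g5, g3 _ _ hw, (g4 hγP).2 _ _ hw'⟩

/-- **the period constraint**: if `c` has an attracting cycle of exact period `n`, then every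
rotation number of a repelling periodic point has denominator at most `n` -/
theorem den_le54 {n d : ℕ} (hn : 0 < n) (hd : 0 < d) {c b v : ℂ} {x : ℚ} (hx : 2 ≤ x.den)
    (hA : (c, b) ∈ Hyp.Att n) (hR : RX d x c v) (hex : Exa d (c, v)) :
    (x.den - 2) * d < n := by
  obtain ⟨s, v', hs', hRE'⟩ := disc_data54 hn hd hx hA hR hex
  have hR' := fun z hz => (hRE' z hz).1
  have hE' := fun z hz => (hRE' z hz).2
  refine circle_den54 hn hd hx fun δ hδ => ?_
  have hbad := finite_bad hn (Nat.mul_pos hd x.pos) (m := d * x.den)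
  set Bad := {w : ℂ | ∃ c b v, (c, v) ∈ Per (d * x.den) ∧ mul (d * x.den) (c, v) = 1 ∧
    (c, b) ∈ Per n ∧ mul n (c, b) = w} with hBad
  have hinf : (Ioo (0 : ℝ) (min δ 1)).Infinite := Ioo_infinite (lt_min hδ one_pos)
  have hfin : (Ioo (0 : ℝ) (min δ 1) ∩ {φ : ℝ | exp (2 * Real.pi * φ * I) ∈ Bad}).Finite := by
    refine Set.Finite.of_finite_image (f := fun φ : ℝ => exp (2 * Real.pi * φ * I))
      (hbad.subset ?_) ?_
    · rintro _ ⟨φ, ⟨-, h⟩, rfl⟩; exact h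
    · rintro φ ⟨h, -⟩ φ' ⟨h', -⟩ he
      exact exp_two_pi_inj ⟨h.1, h.2.trans_le (min_le_right _ _)⟩
        ⟨h'.1, h'.2.trans_le (min_le_right _ _)⟩ he
  obtain ⟨φ, hφ, hφ'⟩ := (hinf.sdiff hfin).nonempty
  have hgood : exp (2 * Real.pi * φ * I) ∉ Bad := fun h => hφ' ⟨hφ, h⟩
  obtain ⟨c', b', v₁, h1, h2, h3, h4⟩ := boundary_point54 hn hd hx hs' hR' hE' hgood
  refine ⟨φ, hφ.1, hφ.2.trans_le (min_le_left _ _), fun ε hε => ?_⟩
  exact exterior_near54 hn hd hφ.1 (hφ.2.trans_le (min_le_right _ _)) h1 h2 h3 h4 hε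

section

variable {D : Sat.Dat}

/-- an attracting cycle over the ball is the cycle of `V` -/
theorem no_attracting54 (hP : D.Par) {N : ℕ} {U : Set ℂ} (hU : U ⊆ D.B)
    (hF : Far D.m (MM' N D.m) U) {L : ℂ}
    (hL : L ∈ U) {n : ℕ} (hn : 0 < n) (hnN : n ≤ N) {b : ℂ} (hb : (D.c L, b) ∈ Per n)
    (hm : ‖mul n (D.c L, b)‖ < 1) : ∃ i, b = it (D.c L) i (D.b L) := by
  by_contra hnb
  push Not at hnb
  have hb' : Function.IsPeriodicPt (f (D.c L)) n b := hb
  set n₂ := Function.minimalPeriod (f (D.c L)) b with hn₂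
  have hn₂0 : 0 < n₂ := hb'.minimalPeriod_pos hn
  obtain ⟨k, hk⟩ := hb'.minimalPeriod_dvd
  have hn₂n : n₂ ≤ n := hb'.minimalPeriod_le hn
  have hb₂ : (D.c L, b) ∈ Per n₂ := Function.isPeriodicPt_minimalPeriod (f (D.c L)) b
  have hA : (D.c L, b) ∈ Hyp.Att n₂ := by
    refine ⟨hb₂, fun e he hen h => ?_, ?_⟩
    · have h1 : Function.IsPeriodicPt (f (D.c L)) e b := h
      have := h1.minimalPeriod_le he
      omega
    · by_contra hge
      push Not at hge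
      have h1 : mul n (D.c L, b) = mul n₂ (D.c L, b) ^ k := by
        conv_lhs => rw [hk]
        exact Hyp.mul_mul hb₂
      rw [h1, norm_pow] at hm
      exact absurd hm (not_lt.2 (one_le_pow₀ hge))
  obtain ⟨h1, h2⟩ := hP.sec L (hU hL)
  have h1' : (D.c L, D.b L) ∈ Per D.m := h1
  have h2' : mul D.m (D.c L, D.b L) = exp L := h2
  have hrep : 1 < ‖mul D.m (D.c L, D.b L)‖ := by
    refine One49.other_repelling hn₂0 hP.m_pos hA.1 hA.2.2 h1' fun i hi => ?_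
    refine hnb (n₂ * i - i) ?_
    have hi' : it (D.c L) i b = D.b L := hi
    rw [← hi']
    exact (Sat.it_back hn₂0 hb₂ i).symm
  have hre : 0 < L.re := by
    rw [h2', Complex.norm_exp] at hrep
    exact Real.one_lt_exp_iff.1 hrep
  have hM : D.c L ∈ MM := mem_MM_of_att (x := (D.c L, b)) hn₂0 hA.1 hA.2.2
  obtain ⟨x, hx⟩ := exists_ex hP.m_pos (mem_M_iff.1 hM) h1' hrep
  have hxn : x.den ≤ MM' N D.m := by
    rcases Nat.lt_or_ge x.den 2 with h | h
    · have := two_le_MM' N D.m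
      omega
    · have h6 := den_le54 hn₂0 hP.m_pos h hA ⟨hM, h1', hrep, hx⟩
        (fun k hk hkd => hP.prim L (hU hL) k hk hkd)
      have h7 : x.den - 2 ≤ N / D.m := by
        rw [Nat.le_div_iff_mul_le hP.m_pos]
        omega
      unfold MM'
      omega
  obtain ⟨p, -, hp⟩ := hx.ply' hP.m_pos hM h1' h2' hre
  have hden : ((p : ℚ) / (x.den : ℚ)).den ≤ x.den := by
    have h6 := Rat.den_dvd p (x.den : ℤ)
    rw [Rat.divInt_eq_div] at h6
    have h7 : ((p : ℚ) / (x.den : ℚ)) = (p : ℚ) / ((x.den : ℤ) : ℚ) := by push_cast; rfl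
    rw [h7]
    exact Nat.le_of_dvd x.pos (by exact_mod_cast h6)
  refine hF _ (by omega) L hL (hp.trans ?_)
  have hy0 : (0 : ℝ) < ((p : ℚ) / (x.den : ℚ)).den := by exact_mod_cast Rat.pos _
  have hlog : 0 ≤ Real.log 2 := Real.log_nonneg (by norm_num)
  have h8 : (((p : ℚ) / (x.den : ℚ)).den : ℝ) ≤ x.den := by exact_mod_cast hden
  gcongr

/-- **over a ball far from the small denominators all cycles of small period other than the cycle
of `V` are repelling** -/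
theorem repelling_over54 (hP : D.Par) {N : ℕ} {U : Set ℂ} (hUo : IsOpen U) (hU : U ⊆ D.B)
    (hF : Far D.m (MM' N D.m) U) {L : ℂ} (hL : L ∈ U) {n : ℕ} (hn : 0 < n) (hnN : n ≤ N) {b : ℂ}
    (hb : (D.c L, b) ∈ Per n) (hnb : ∀ i, b ≠ it (D.c L) i (D.b L)) :
    1 < ‖mul n (D.c L, b)‖ := by
  by_contra hle
  push Not at hle
  obtain ⟨V₁, hV₁, V₂, hV₂, hV⟩ := mem_nhds_prod_iff.1 (nonV_nhds hP (hU hL) hnb)
  by_cases h1 : mul n (D.c L, b) = 1
  · -- parabolic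
    obtain ⟨A, hA, hAL, B, hB, hB1, hres⟩ : ∃ A : Set ℂ, IsOpen A ∧ L ∈ A ∧ ∃ B : Set ℂ, IsOpen B ∧
        (1 : ℂ) ∈ B ∧ ∀ L' ∈ A, ∀ k, n = D.m * k → exp ((k : ℂ) * L') ∉ B := by
      by_cases hdiv : D.m ∣ n
      · obtain ⟨k, hk⟩ := hdiv
        have hk0 : 0 < k := Nat.pos_of_ne_zero (by rintro rfl; rw [mul_zero] at hk; omega)
        have hkN : k ≤ MM' N D.m := by
          have h6 : k ≤ N / D.m := by
            rw [Nat.le_div_iff_mul_le hP.m_pos, mul_comm, ← hk]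
            exact hnN
          unfold MM'
          omega
        obtain ⟨A', B', hA', hB', hA1, hB1, hAB⟩ := t2_separation
          (exp_ne_one_of_far hF hL hk0 hkN)
        refine ⟨{L' | exp ((k : ℂ) * L') ∈ A'}, hA'.preimage (by fun_prop), hA1, B', hB', hB1,
          fun L' hL' k' hk' hB'' => ?_⟩
        have hkk : k' = k := by
          have h3 : D.m * k' = D.m * k := by rw [← hk', ← hk]
          exact Nat.eq_of_mul_eq_mul_left hP.m_pos h3
        rw [hkk] at hB''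
        exact Set.disjoint_left.1 hAB hL' hB''
      · exact ⟨univ, isOpen_univ, mem_univ _, univ, isOpen_univ, mem_univ _,
          fun L' _ k hk => absurd ⟨k, hk⟩ hdiv⟩
    have hW : D.c '' (A ∩ U) ∈ 𝓝 (D.c L) := by
      rw [← Sat.c_map_nhds hP (hU hL)]
      exact image_mem_map (inter_mem (hA.mem_nhds hAL) (hUo.mem_nhds hL))
    have h2 := One49.near_parabolic hn hb h1 hW
    have h3 : ∃ᶠ w in 𝓝 (1 : ℂ), w ∈ ball (0 : ℂ) 1 := by
      refine mem_closure_iff_frequently.1 ?_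
      rw [closure_ball (0 : ℂ) one_ne_zero, mem_closedBall_zero_iff, norm_one]
    obtain ⟨w, hw, ⟨c', ⟨L', ⟨hL'A, hL'U⟩, rfl⟩, b', hb', hbw⟩, hwB⟩ :=
      (h3.and_eventually (h2.and (hB.mem_nhds hB1))).exists
    rw [mem_ball_zero_iff] at hw
    have hbw' : mul n (D.c L', b') = w := hbw
    have hbP' : (D.c L', b') ∈ Per n := hb'
    obtain ⟨i, hi⟩ := no_attracting54 hP hU hF hL'U hn hnN hbP' (by rw [hbw']; exact hw)
    obtain ⟨hs1, hs2⟩ := hP.sec L' (hU hL'U)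
    have hs1' : (D.c L', D.b L') ∈ Per D.m := hs1
    have hs2' : mul D.m (D.c L', D.b L') = exp L' := hs2
    obtain ⟨k, hk⟩ := dvd_of_orbit hP.m_pos hs1' (hP.prim L' (hU hL'U)) hi hbP'
    apply hres L' hL'A k hk
    have h5 : (D.c L', D.b L') ∈ Per (D.m * k) := by
      have h4 : Function.IsPeriodicPt (f (D.c L')) D.m (D.b L') := hs1'
      exact h4.trans_dvd ⟨k, rfl⟩
    have h6 : mul n (D.c L', b') = exp ((k : ℂ) * L') := by
      rw [hk, hi, Sat.mul_it' h5 i, Hyp.mul_mul hs1', hs2', ← Complex.exp_nat_mul]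
    rw [← h6, hbw']
    exact hwB
  · -- open mapping
    have hW : (D.c '' (V₁ ∩ U)) ×ˢ V₂ ∈ 𝓝 (D.c L, b) := by
      refine prod_mem_nhds ?_ hV₂
      rw [← Sat.c_map_nhds hP (hU hL)]
      exact image_mem_map (inter_mem hV₁ (hUo.mem_nhds hL))
    have h2 := mul_open hn hb h1 (by linarith) hW
    have h3 : ∃ᶠ w in 𝓝 (mul n (D.c L, b)), w ∈ ball (0 : ℂ) 1 := by
      refine mem_closure_iff_frequently.1 ?_
      rw [closure_ball (0 : ℂ) one_ne_zero, mem_closedBall_zero_iff]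
      exact hle
    obtain ⟨w, hw, ⟨c', b'⟩, ⟨⟨⟨L', ⟨hL'V, hL'U⟩, hL'c⟩, hb'V⟩, hb'P⟩, hbw⟩ :=
      (h3.and_eventually h2).exists
    rw [mem_ball_zero_iff] at hw
    simp only at hL'c hb'V
    subst hL'c
    obtain ⟨i, hi⟩ := no_attracting54 hP hU hF hL'U hn hnN hb'P (by rw [hbw]; exact hw)
    exact hV (show (L', b') ∈ V₁ ×ˢ V₂ from ⟨hL'V, hb'V⟩) (hU hL'U) i hi

end

/-- **E3** -/
theorem repE54 (N : ℕ) : RepE N := by
  intro D U hP _ hUo hU hF L hL m hm hmN b hb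
  exact repelling_over54 hP hUo hU hF hL hm hmN hb.1 hb.2.2

end Pool.Agent.Work.MLC.PriPer
end

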