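import Pool.Agent.Work.MLCM.C24
import Pool.Agent.Work.MLCM.C38
import Pool.Agent.Work.MLCM.C39
import Pool.Agent.Work.MLCM.C40
import Pool.Agent.Work.MLCM.C43
import Pool.Agent.Work.MLCM.C56

section
set_option autoImplicit false

/-! # Theorem S, module S5: the three regions (helper60) -/

namespace Pool.Agent.Work.MLC.Sat

open Filter Topology Metric Set Complex

variable {D : Dat}

lemma a_re (D : Dat) : D.a.re = 0 := by
  unfold Dat.a axisPt; simp

lemma re_le_of_U {L : ℂ} (hL : L ∈ D.U) : L.re < sR D.m D.x := by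
  have h1 : ‖L - D.a‖ < sR D.m D.x := by
    rw [← dist_eq_norm]; exact hL.1
  have h2 := Complex.re_le_norm (L - D.a)
  rw [Complex.sub_re, a_re] at h2
  linarith

lemma near_of_th (hP : D.Par) {L : ℂ} (hL : L ∈ D.U) {θ : ℝ} (h : D.Th L θ) : D.Near θ := by
  have h1 := hP.ply L (U_sub_B hP hL) θ h
  have hm : (1 : ℝ) ≤ D.m := by exact_mod_cast hP.m_pos
  have hq : (1 : ℝ) ≤ D.x.den := by exact_mod_cast D.x.pos
  set ν : ℝ := Circ.nu D.w D.m θ with hν
  set N : ℝ := D.m * D.x.den ^ 2 with hN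
  have hN1 : 1 ≤ N := by rw [hN]; nlinarith [sq_nonneg ((D.x.den : ℝ) - 1)]
  have hs : sR D.m D.x = 1 / (16 * D.m * N ^ 2) := by
    unfold sR; rw [hN]; congr 1; ring
  have hre := re_le_of_U hL
  have h2 : ‖L - 2 * Real.pi * ((ν - D.k₀ : ℝ) : ℂ) * I‖ < 9 / (4 * N) := by
    apply lt_of_pow_lt_pow_left₀ 2 (by positivity)
    refine lt_of_le_of_lt h1 ?_
    have h3 : 81 * (D.m : ℝ) * L.re < 81 * D.m * (1 / (16 * D.m * N ^ 2)) := by
      rw [hs] at hre
      exact mul_lt_mul_of_pos_left hre (by positivity)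
    refine lt_of_lt_of_eq h3 ?_
    field_simp
    ring
  have h3 : ‖L - D.a‖ < 1 / (16 * N) := by
    have h4 : ‖L - D.a‖ < sR D.m D.x := by
      rw [← dist_eq_norm]; exact hL.1
    refine lt_of_lt_of_le h4 ?_
    rw [hs]
    apply one_div_le_one_div_of_le (by positivity)
    have : 16 * N * 1 ≤ 16 * N * (D.m * N) :=
      mul_le_mul_of_nonneg_left (by nlinarith) (by positivity)
    nlinarith
  have h4 : D.a - 2 * Real.pi * ((ν - D.k₀ : ℝ) : ℂ) * I
      = ((-(2 * Real.pi * (ν - (D.k₀ + D.x))) : ℝ) : ℂ) * I := by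
    unfold Dat.a axisPt; push_cast; ring
  have h5 : ‖D.a - 2 * Real.pi * ((ν - D.k₀ : ℝ) : ℂ) * I‖ = 2 * Real.pi * |ν - (D.k₀ + D.x)| := by
    rw [h4, norm_mul, Complex.norm_I, mul_one, Complex.norm_real, Real.norm_eq_abs, abs_neg,
      abs_mul, abs_of_pos (by positivity : (0 : ℝ) < 2 * Real.pi)]
  have h6 : ‖D.a - 2 * Real.pi * ((ν - D.k₀ : ℝ) : ℂ) * I‖ ≤
      ‖L - D.a‖ + ‖L - 2 * Real.pi * ((ν - D.k₀ : ℝ) : ℂ) * I‖ := by
    have : D.a - 2 * Real.pi * ((ν - D.k₀ : ℝ) : ℂ) * I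
        = (D.a - L) + (L - 2 * Real.pi * ((ν - D.k₀ : ℝ) : ℂ) * I) := by ring
    rw [this]
    refine (norm_add_le _ _).trans ?_
    rw [norm_sub_rev D.a L]
  rw [h5] at h6
  have h7 : 2 * Real.pi * |ν - (D.k₀ + D.x)| < 1 / (16 * N) + 9 / (4 * N) := by linarith
  have h8 : 1 / (16 * N) + 9 / (4 * N) = (37 / 16) * (1 / N) := by field_simp; ring
  have h9 : (D.n : ℝ) * D.x.den = N := by
    unfold Dat.n; rw [hN]; push_cast; ring
  unfold Dat.Near
  rw [h9]
  have hpi := Real.pi_gt_three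
  have h10 : 0 < 1 / N := by positivity
  rw [h8] at h7
  by_contra hcon
  push Not at hcon
  have h11 : 6 * (1 / N) ≤ 2 * Real.pi * |ν - (D.k₀ + D.x)| := by
    have : (6 : ℝ) ≤ 2 * Real.pi := by linarith
    exact mul_le_mul this hcon h10.le (by positivity)
  linarith

/-- the punctured disc is connected -/
lemma isPreconnected_U (hP : D.Par) : IsPreconnected D.U := by
  have hs := sR_pos hP
  have h1 : D.U = (fun z : ℂ => D.a + exp z) '' {z : ℂ | z.re < Real.log (sR D.m D.x)} := by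
    ext L
    constructor
    · rintro ⟨h1, h2⟩
      have h2' : L - D.a ≠ 0 := sub_ne_zero.2 h2
      refine ⟨Complex.log (L - D.a), ?_, ?_⟩
      · show (Complex.log (L - D.a)).re < _
        rw [Complex.log_re]
        apply Real.log_lt_log (norm_pos_iff.2 h2')
        rw [← dist_eq_norm]; exact h1
      · show D.a + exp (Complex.log (L - D.a)) = L
        rw [Complex.exp_log h2']; ring
    · rintro ⟨z, hz, rfl⟩
      refine ⟨?_, ?_⟩
      · rw [mem_ball, dist_eq_norm, add_sub_cancel_left, Complex.norm_exp]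
        exact (Real.lt_log_iff_exp_lt hs).1 hz
      · intro h
        have h' : D.a + exp z = D.a := h
        exact exp_ne_zero z (by simpa using h')
  rw [h1]
  refine IsPreconnected.image ?_ _ (by fun_prop)
  exact (convex_halfSpace_re_lt _).isPreconnected

lemma openI (hP : D.Par) (hC : D.Cir) : IsOpen D.RI := by
  rw [isOpen_iff_mem_nhds]
  rintro L ⟨hU, hre, h⟩
  have hB := U_sub_B hP hU
  have hre' := (Complex.continuous_re.continuousAt (x := L)).eventually_const_lt hre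
  rcases h with ⟨θ, hθ, h1, h2⟩ | ⟨hM, hland⟩
  · have hε : 0 < min (θ - D.tm) (D.tp - θ) := lt_min (by linarith) (by linarith)
    filter_upwards [isOpen_U.mem_nhds hU, hre', Th_nhds hP hB hθ hε] with L' a1 a2 a3
    obtain ⟨θ', b1, b2⟩ := a3
    refine ⟨a1, a2, Or.inl ⟨θ', b2, ?_, ?_⟩⟩
    · have := (abs_lt.1 b1).1
      have := min_le_left (θ - D.tm) (D.tp - θ)
      linarith
    · have := (abs_lt.1 b1).2
      have := min_le_right (θ - D.tm) (D.tp - θ)
      linarith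
  · filter_upwards [isOpen_U.mem_nhds hU, hre', (s5_land D hP hC L hB hre hM).1 hland]
      with L' a1 a2 a3
    refine ⟨a1, a2, ?_⟩
    by_cases hM' : D.c L' ∈ MM
    · exact Or.inr ⟨hM', a3.1 hM'⟩
    · obtain ⟨θ, hθ⟩ := hP.ang L' (U_sub_B hP a1) hM'
      exact Or.inl ⟨θ, hθ, a3.2 θ hθ⟩

lemma openO (hply : S5_ply) (hP : D.Par) (hC : D.Cir) : IsOpen D.RO := by
  rw [isOpen_iff_mem_nhds]
  rintro L ⟨hU, hI, h⟩
  have hB := U_sub_B hP hU
  by_cases hM : D.c L ∈ MM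
  · by_cases hre : 0 < L.re
    · have hnl : ¬ Land D.m (D.c L) (D.b L) D.tm D.x.den := fun hl =>
        hI ⟨hU, hre, Or.inr ⟨hM, hl⟩⟩
      filter_upwards [isOpen_U.mem_nhds hU, (s5_land D hP hC L hB hre hM).2 hnl] with L' a1 a2
      refine ⟨a1, ?_, a2.2⟩
      rintro ⟨-, -, ⟨θ, hθ, b1, b2⟩ | ⟨b1, b2⟩⟩
      · rcases a2.2 θ hθ with b3 | b3 <;> linarith
      · exact a2.1 b1 b2
    · have hne : 0 < ‖L - D.a‖ := norm_pos_iff.2 (sub_ne_zero.2 hU.2)
      have hc : ContinuousAt (fun z : ℂ => ‖z - D.a‖ ^ 2 - 81 * D.m * z.re) L := by fun_prop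
      have h0 : 0 < ‖L - D.a‖ ^ 2 - 81 * D.m * L.re := by
        have : 81 * (D.m : ℝ) * L.re ≤ 0 :=
          mul_nonpos_of_nonneg_of_nonpos (by positivity) (not_lt.1 hre)
        have := pow_pos hne 2
        linarith
      filter_upwards [isOpen_U.mem_nhds hU, hc.eventually_const_lt h0] with L' a1 a2
      refine ⟨a1, ?_, ?_⟩
      · intro hI'
        have := hply D hP hC L' hI'
        linarith
      · intro θ hθ
        by_contra hcon
        push Not at hcon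
        have h1 := (hC.plateau θ).2 hcon
        have h2 := hP.ply L' (U_sub_B hP a1) θ hθ
        rw [h1] at h2
        have h3 : L' - 2 * Real.pi * (((D.k₀ : ℝ) + (D.x : ℝ) - D.k₀ : ℝ) : ℂ) * I = L' - D.a := by
          unfold Dat.a axisPt; push_cast; ring
        rw [h3] at h2
        linarith
  · obtain ⟨θ, hθ⟩ := hP.ang L hB hM
    have key : ∀ᶠ L' in 𝓝 L, ∃ θ', (θ' < D.tm ∨ D.tp < θ') ∧ D.Th L' θ' := by
      rcases h θ hθ with h1 | h1
      · filter_upwards [Th_nhds hP hB hθ (sub_pos.2 h1)] with L' a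
        obtain ⟨θ', b1, b2⟩ := a
        exact ⟨θ', Or.inl (by linarith [(abs_lt.1 b1).2]), b2⟩
      · filter_upwards [Th_nhds hP hB hθ (sub_pos.2 h1)] with L' a
        obtain ⟨θ', b1, b2⟩ := a
        exact ⟨θ', Or.inr (by linarith [(abs_lt.1 b1).1]), b2⟩
    filter_upwards [isOpen_U.mem_nhds hU, key] with L' a1 a2
    obtain ⟨θ', b1, b2⟩ := a2
    refine ⟨a1, ?_, fun θ'' hθ'' => by rwa [Th_unique hP hθ'' b2]⟩
    intro hI'
    have := RI_th hI' b2 hP
    rcases b1 with b1 | b1 <;> linarith [this.1, this.2]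

lemma mem_RO_of_MM {L : ℂ} (hU : L ∈ D.U) (hM : D.c L ∈ MM) (hI : L ∉ D.RI) : L ∈ D.RO :=
  ⟨hU, hI, fun _ hθ => absurd hM (Th_ext hθ)⟩

lemma clos_RI (hply : S5_ply) (hP : D.Par) (hC : D.Cir) {L : ℂ} (hU : L ∈ D.U)
    (hM : D.c L ∈ MM) (h : L ∈ closure D.RI) : L ∈ D.RI := by
  by_contra hI
  have h1 := (openO hply hP hC).mem_nhds (mem_RO_of_MM hU hM hI)
  obtain ⟨y, hy1, hy2⟩ := mem_closure_iff_nhds.1 h _ h1
  exact hy1.2.1 hy2

/-- a set without exterior points has no exterior limit points -/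
lemma MM_of_closure (hP : D.Par) {V : Set ℂ} (hV : V ⊆ D.U) (hE : V ∩ D.RE = ∅) {L : ℂ}
    (hU : L ∈ D.U) (h : L ∈ closure V) : D.c L ∈ MM := by
  by_contra hM
  have h1 := (isOpen_RE hP).mem_nhds (show L ∈ D.RE from ⟨hU, hM⟩)
  obtain ⟨y, hy1, hy2⟩ := mem_closure_iff_nhds.1 h _ h1
  have : y ∈ V ∩ D.RE := ⟨hy2, hy1⟩
  rw [hE] at this
  exact this

/-- the points of the imaginary axis near the root -/
lemma exists_ext_U (h3 : S3_neutral) (hP : D.Par) : (D.U ∩ {L | D.c L ∉ MM}).Nonempty := by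
  have hs := sR_pos hP
  have hpi := Real.pi_gt_three
  have hm : (1 : ℝ) ≤ D.m := by exact_mod_cast hP.m_pos
  have hq : (1 : ℝ) ≤ D.x.den := by exact_mod_cast D.x.pos
  have hx0 : (0 : ℝ) < D.x := by exact_mod_cast hP.x_pos
  set s := sR D.m D.x with hsd
  set L : ℂ := D.a + ((s / 2 : ℝ) : ℂ) * I with hL
  have hLU : L ∈ D.U := by
    refine ⟨?_, ?_⟩
    · rw [mem_ball, dist_eq_norm, hL, add_sub_cancel_left, norm_mul, Complex.norm_I, mul_one,
        Complex.norm_real, Real.norm_eq_abs, abs_of_pos (by linarith)]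
      show s / 2 < s
      linarith
    · intro h
      have h' : D.a + ((s / 2 : ℝ) : ℂ) * I = D.a := h
      have h2 : ((s / 2 : ℝ) : ℂ) * I = 0 := by simpa using h'
      rcases mul_eq_zero.1 h2 with h4 | h4
      · have : s / 2 = 0 := by exact_mod_cast h4
        linarith
      · exact I_ne_zero h4
  set φ : ℝ := D.x + s / (4 * Real.pi) with hφ
  have hφ0 : 0 < φ := by rw [hφ]; positivity
  have hφ1 : φ < 1 := by
    have h1 := den_le_min hP
    have h2 := min_le_right (D.x : ℝ) (1 - D.x)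
    have h4 : s / (4 * Real.pi) < 1 / D.x.den := by
      have h5 : s ≤ 1 / D.x.den := by
        rw [hsd]; unfold sR
        apply one_div_le_one_div_of_le (by positivity)
        have e1 : (1 : ℝ) ≤ D.m ^ 3 := one_le_pow₀ hm
        have e2 : (D.x.den : ℝ) ≤ D.x.den ^ 4 := by
          calc (D.x.den : ℝ) = D.x.den ^ 1 := (pow_one _).symm
            _ ≤ D.x.den ^ 4 := pow_le_pow_right₀ hq (by norm_num)
        nlinarith
      have h6 : s / (4 * Real.pi) < s := by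
        rw [div_lt_iff₀ (by positivity)]
        nlinarith
      linarith
    rw [hφ]; linarith
  have hB := U_sub_B hP hLU
  obtain ⟨hper, hmul⟩ := hP.sec L hB
  have hmul' : mul D.m (D.σ L) = exp (2 * Real.pi * φ * I) := by
    rw [hmul]
    congr 1
    rw [hL, hφ]
    unfold Dat.a axisPt
    have : (Real.pi : ℂ) ≠ 0 := by exact_mod_cast Real.pi_ne_zero
    push_cast
    field_simp
    ring
  have h4 := (h3 D.m (D.σ L) φ hP.m_pos hper hφ0 hφ1 hmul').2.2
  have h5 : ∃ᶠ L' in 𝓝 L, D.c L' ∉ MM := by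
    have h6 : ∃ᶠ c in map D.c (𝓝 L), c ∉ MM := by
      rw [c_map_nhds hP hB]; exact h4
    exact h6
  obtain ⟨L', h7, h8⟩ := (h5.and_eventually (isOpen_U.mem_nhds hLU)).exists
  exact ⟨L', h8, h7⟩

/-- **the three regions** -/
theorem s5_regions (hply : S5_ply) (h3 : S3_neutral) : S5_regions := by
  intro D hP hC
  refine ⟨fun L hL θ h => near_of_th hP hL h, isOpen_RE hP, openI hP hC, openO hply hP hC, ?_, ?_,
    fun L hU hM h => clos_RI hply hP hC hU hM h, hply D hP hC, ?_, ?_⟩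
  · intro L hU
    by_cases hM : D.c L ∈ MM
    · by_cases hI : L ∈ D.RI
      · exact Or.inl (Or.inr hI)
      · exact Or.inr (mem_RO_of_MM hU hM hI)
    · exact Or.inl (Or.inl ⟨hU, hM⟩)
  · rw [Set.disjoint_left]
    intro L h1 h2
    exact h2.2.1 h1
  · intro V hV hne ho hcl
    by_contra hcon
    rw [Set.not_nonempty_iff_eq_empty] at hcon
    have hVU : V ⊆ D.U := fun L h => (hV h).1
    have h1 : D.U ⊆ V := by
      refine (isPreconnected_U hP).subset_of_closure_inter_subset ho ?_ ?_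
      · obtain ⟨y, hy⟩ := hne
        exact ⟨y, hVU hy, hy⟩
      · rintro L ⟨hL, hU⟩
        have hM := MM_of_closure hP hVU hcon hU hL
        exact hcl L (clos_RI hply hP hC hU hM (closure_mono hV hL)) hL
    obtain ⟨L, hL, hE⟩ := exists_ext_U h3 hP
    have : L ∈ V ∩ D.RE := ⟨h1 hL, hL, hE⟩
    rw [hcon] at this
    exact this
  · intro V hV hne ho hcl
    by_contra hcon
    rw [Set.not_nonempty_iff_eq_empty] at hcon
    have hVU : V ⊆ D.U := fun L h => (hV h).1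
    have h1 : D.U ⊆ V := by
      refine (isPreconnected_U hP).subset_of_closure_inter_subset ho ?_ ?_
      · obtain ⟨y, hy⟩ := hne
        exact ⟨y, hVU hy, hy⟩
      · rintro L ⟨hL, hU⟩
        have hM := MM_of_closure hP hVU hcon hU hL
        refine hcl L (mem_RO_of_MM hU hM fun hI => ?_) hL
        obtain ⟨y, hy1, hy2⟩ := mem_closure_iff_nhds.1 hL _ ((openI hP hC).mem_nhds hI)
        exact (hV hy2).2.1 hy1
    obtain ⟨L, hL, hE⟩ := exists_ext_U h3 hP
    have : L ∈ V ∩ D.RE := ⟨h1 hL, hL, hE⟩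
    rw [hcon] at this
    exact this

end Pool.Agent.Work.MLC.Sat
end

section
set_option autoImplicit false

/-! # Theorem S: the boundary of the child component (helper51) -/

namespace Pool.Agent.Work.MLC.Sat

open Filter Topology Metric Set Complex

section

variable {D : Dat} {Z : ℂ → Set ℂ} {e : ℂ → ℂ}

/-- the cycle over `L` has exact period `n` -/
def Ex (D : Dat) (Z : ℂ → Set ℂ) (L : ℂ) : Prop :=
  ∀ z ∈ Z L, ∀ d, 0 < d → d < D.n → it (D.c L) d z ≠ z

lemma ex_iff (hF : CycFam D.n D.c D.U Z) {L z : ℂ} (hL : L ∈ D.U) (hz : z ∈ Z L) :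
    Ex D Z L ↔ ∀ d, 0 < d → d < D.n → it (D.c L) d z ≠ z := by
  refine ⟨fun h => h z hz, fun h z' hz' d hd hdn h1 => h d hd hdn ?_⟩
  obtain ⟨i, hi⟩ := (hF.cyc L hL z' hz' z).1 hz
  rw [hi, it_comp, add_comm, ← it_comp, h1]

lemma branch_mem (hP : D.Par) (hF : CycFam D.n D.c D.U Z) {L z : ℂ} (hL : L ∈ D.U)
    (hz : z ∈ Z L) : ∃ β : ℂ → ℂ, ContinuousAt β (D.c L) ∧ β (D.c L) = z ∧
      ∀ᶠ L' in 𝓝 L, L' ∈ D.U ∧ (D.c L', β (D.c L')) ∈ Per D.n ∧ β (D.c L') ∈ Z L' := by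
  have hB := U_sub_B hP hL
  obtain ⟨h1, h2⟩ := hF.fix L hL z hz
  obtain ⟨β, hβa, hβ0, hβ⟩ := chart h1 h2
  simp only at hβ0 hβa
  have hc := c_contAt hP hB
  have h8 : Tendsto (fun L' => β (D.c L')) (𝓝 L) (𝓝 z) := by
    rw [← hβ0]; exact hβa.continuousAt.tendsto.comp hc.tendsto
  have h9 : Tendsto (fun L' => ((L', β (D.c L')) : ℂ × ℂ)) (𝓝 L) (𝓝 (L, z)) :=
    tendsto_id.prodMk_nhds h8
  have h10 : Tendsto (fun L' => ((D.c L', β (D.c L')) : ℂ × ℂ)) (𝓝 L) (𝓝 (D.c L, z)) :=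
    hc.tendsto.prodMk_nhds h8
  refine ⟨β, hβa.continuousAt, hβ0, ?_⟩
  filter_upwards [h9.eventually (hF.cont L hL z hz), h10.eventually hβ, isOpen_U.mem_nhds hL]
      with L' h12 h13 h14
  exact ⟨h14, h13.2 rfl, h12 (h13.2 rfl)⟩

/-- exactness is locally constant -/
lemma ex_nhds (hP : D.Par) (hF : CycFam D.n D.c D.U Z) {L : ℂ} (hL : L ∈ D.U) :
    ∀ᶠ L' in 𝓝 L, (Ex D Z L' ↔ Ex D Z L) := by
  obtain ⟨z, hz⟩ := hF.ne L hL
  obtain ⟨h1, h2⟩ := hF.fix L hL z hz
  obtain ⟨β, hβa, hβ0, hβ⟩ := branch_mem hP hF hL hz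
  have hc := c_contAt hP (U_sub_B hP hL)
  have h8 : Tendsto (fun L' => β (D.c L')) (𝓝 L) (𝓝 z) := by
    rw [← hβ0]; exact hβa.tendsto.comp hc.tendsto
  have h10 : Tendsto (fun L' => ((D.c L', β (D.c L')) : ℂ × ℂ)) (𝓝 L) (𝓝 (D.c L, z)) :=
    hc.tendsto.prodMk_nhds h8
  filter_upwards [hβ, h10.eventually (Hyp.exact_nhds h1 h2)] with L' h3 h6
  rw [ex_iff hF h3.1 h3.2.2, ex_iff hF hL hz]
  exact h6 h3.2.1

lemma e_contAt (hCh : Child D Z e) {ℓ : ℂ} (hℓ : ℓ ∈ ball (0 : ℂ) (cR D.n)) :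
    ContinuousAt e ℓ :=
  hCh.diff.continuousOn.continuousAt (isOpen_ball.mem_nhds hℓ)

/-- the left half of the coordinate disc -/
def HL (n : ℕ) : Set ℂ := ball (0 : ℂ) (cR n) ∩ {ℓ | ℓ.re < 0}

lemma HL_convex (n : ℕ) : Convex ℝ (HL n) :=
  (convex_ball _ _).inter (convex_halfSpace_re_lt 0)

lemma isOpen_HL (n : ℕ) : IsOpen (HL n) :=
  isOpen_ball.inter (isOpen_lt Complex.continuous_re continuous_const)

lemma HL_ne {n : ℕ} {ℓ : ℂ} (h : ℓ ∈ HL n) : ℓ ≠ 0 := by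
  rintro rfl
  have : (0 : ℂ).re < 0 := h.2
  simp at this

/-- exactness over the left half disc -/
lemma ex_half (hP : D.Par) (hG : Glued D Z) (hCh : Child D Z e) {ℓ₀ : ℂ} (h₀ : ℓ₀ ∈ HL D.n)
    (hE : Ex D Z (e ℓ₀)) {ℓ : ℂ} (hℓ : ℓ ∈ HL D.n) : Ex D Z (e ℓ) := by
  have hev : ∀ ℓ' ∈ HL D.n, ∀ᶠ ℓ'' in 𝓝 ℓ', (Ex D Z (e ℓ'') ↔ Ex D Z (e ℓ')) := fun ℓ' h' =>
    (e_contAt hCh h'.1).eventually (ex_nhds hP hG.fam (e_mem_U hP hCh h'.1 (HL_ne h')))
  have h1 : HL D.n ⊆ {ℓ' | ℓ' ∈ HL D.n ∧ Ex D Z (e ℓ')} := by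
    refine (HL_convex D.n).isPreconnected.subset_of_closure_inter_subset ?_ ⟨ℓ₀, h₀, h₀, hE⟩ ?_
    · rw [isOpen_iff_mem_nhds]
      rintro ℓ' ⟨h2, h3⟩
      filter_upwards [hev ℓ' h2, (isOpen_HL D.n).mem_nhds h2] with ℓ'' h4 h5
      exact ⟨h5, h4.2 h3⟩
    · rintro ℓ' ⟨h2, h3⟩
      obtain ⟨ℓ'', h4, h5⟩ := mem_closure_iff_nhds.1 h2 _ (hev ℓ' h3)
      exact ⟨h3, h4.1 h5.2⟩
  exact (h1 hℓ).2

/-- the norm of the multiplier at the root -/
lemma norm_mul_root (hP : D.Par) : ‖mul D.n (D.σ D.a)‖ = 1 := by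
  obtain ⟨h1, h2⟩ := hP.sec D.a (a_mem_B hP)
  have h3 : mul D.n (D.σ D.a) = mul D.m (D.σ D.a) ^ D.x.den := Hyp.mul_mul h1
  rw [h3, h2, norm_pow, Complex.norm_exp]
  have h4 : D.a.re = 0 := by unfold Dat.a; exact LimbData.axisPt_re _
  rw [h4, Real.exp_zero, one_pow]

/-- over the left half disc the family is attracting, over the child component -/
lemma half (hP : D.Par) (hG : Glued D Z) (hCh : Child D Z e) {W : Set ℂ} (hW : HypComp D.n W)
    {ℓ₀ : ℂ} (h₀ : ℓ₀ ∈ HL D.n) (hE : Ex D Z (e ℓ₀)) (hcW : D.c (e ℓ₀) ∈ W) :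
    ∀ ℓ ∈ HL D.n, D.c (e ℓ) ∈ W ∧ ∀ z ∈ Z (e ℓ), (D.c (e ℓ), z) ∈ Hyp.Att D.n := by
  have hA : ∀ ℓ ∈ HL D.n, ∀ z ∈ Z (e ℓ), (D.c (e ℓ), z) ∈ Hyp.Att D.n := by
    intro ℓ hℓ z hz
    have hU := e_mem_U hP hCh hℓ.1 (HL_ne hℓ)
    refine ⟨(hG.fam.fix _ hU z hz).1, ex_half hP hG hCh h₀ hE hℓ z hz, ?_⟩
    rw [hCh.mul_eq ℓ hℓ.1 (HL_ne hℓ) z hz, Complex.norm_exp]
    exact Real.exp_lt_one_iff.2 hℓ.2
  intro ℓ hℓ
  refine ⟨?_, hA ℓ hℓ⟩
  have hc : ContinuousOn (fun ℓ => D.c (e ℓ)) (HL D.n) := by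
    intro ℓ' h'
    have hU := e_mem_U hP hCh h'.1 (HL_ne h')
    have h1 : ContinuousAt (fun ℓ => D.c (e ℓ)) ℓ' :=
      ContinuousAt.comp (g := D.c) (c_contAt hP (U_sub_B hP hU)) (e_contAt hCh h'.1)
    exact h1.continuousWithinAt
  have hpre := (HL_convex D.n).isPreconnected.image _ hc
  have hsub : (fun ℓ => D.c (e ℓ)) '' HL D.n ⊆ Hyp.AA D.n := by
    rintro _ ⟨ℓ', h', rfl⟩
    have hU := e_mem_U hP hCh h'.1 (HL_ne h')
    obtain ⟨z, hz⟩ := hG.fam.ne _ hU
    exact ⟨z, (Hyp.mem_Att_iff (Par_n_pos hP)).1 (hA ℓ' h' z hz)⟩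
  obtain ⟨c₁, hc₁, hWe⟩ := hW
  have h2 : connectedComponentIn (Hyp.AA D.n) c₁ =
      connectedComponentIn (Hyp.AA D.n) (D.c (e ℓ₀)) := by
    refine connectedComponentIn_eq ?_
    rw [hWe] at hcW
    exact hcW
  have h3 : W = connectedComponentIn (Hyp.AA D.n) (D.c (e ℓ₀)) := by rw [← h2]; exact hWe
  rw [h3]
  exact hpre.subset_connectedComponentIn ⟨ℓ₀, h₀, rfl⟩ hsub ⟨ℓ, hℓ, rfl⟩

end

end Pool.Agent.Work.MLC.Sat
end

section
set_option autoImplicit false

/-! # Theorem S, module S11: the derivative of the multiplier at the root (helper15)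

`s11_deriv : Sat.S11_deriv`: `K'(a) = - Q ^ 2`. -/

namespace Pool.Agent.Work.MLC.Sat

open Filter Topology Metric Set Complex

/-! ### the derivative is a negative real number -/

/-- the leading coefficient -/
lemma lead15 {g g₁ : ℂ → ℂ} {p : ℕ} (hg₁ : ContinuousAt g₁ 0)
    (h : ∀ᶠ z in 𝓝 (0 : ℂ), g z = z ^ p * g₁ z)
    (hn : ∀ᶠ e : ℂ in 𝓝 0, e ≠ 0 → e.re ≤ 0 → 1 < ‖1 + g e‖) (hp : 0 < p) {ω : ℂ} (hω : ω ≠ 0)
    (hre : ω.re ≤ 0) : 0 ≤ (ω ^ p * g₁ 0).re := by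
  have h1 : Tendsto (fun s : ℝ => (s : ℂ) * ω) (𝓝[>] 0) (𝓝 0) := by
    have h2 : Continuous fun s : ℝ => (s : ℂ) * ω := by fun_prop
    have h3 := h2.tendsto 0
    simp only [ofReal_zero, zero_mul] at h3
    exact h3.mono_left nhdsWithin_le_nhds
  have h4 : Tendsto (fun s : ℝ => g₁ ((s : ℂ) * ω)) (𝓝[>] 0) (𝓝 (g₁ 0)) := hg₁.tendsto.comp h1
  have h5 : Tendsto (fun s : ℝ => (ω ^ p * g₁ ((s : ℂ) * ω)).re +
      s ^ p * ‖ω ^ p * g₁ ((s : ℂ) * ω)‖ ^ 2 / 2) (𝓝[>] 0)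
      (𝓝 ((ω ^ p * g₁ 0).re + 0 ^ p * ‖ω ^ p * g₁ 0‖ ^ 2 / 2)) := by
    have h6 : Tendsto (fun s : ℝ => ω ^ p * g₁ ((s : ℂ) * ω)) (𝓝[>] 0) (𝓝 (ω ^ p * g₁ 0)) :=
      h4.const_mul _
    have h7 : Tendsto (fun s : ℝ => s ^ p) (𝓝[>] 0) (𝓝 (0 ^ p)) := by
      have : Continuous fun s : ℝ => s ^ p := by fun_prop
      exact (this.tendsto 0).mono_left nhdsWithin_le_nhds
    exact ((continuous_re.tendsto _).comp h6).add ((h7.mul (h6.norm.pow 2)).div_const 2)
  rw [zero_pow hp.ne', zero_mul, zero_div, add_zero] at h5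
  refine ge_of_tendsto h5 ?_
  filter_upwards [h1.eventually h, h1.eventually hn, self_mem_nhdsWithin] with s h6 h7 hs
  have hs0 : (0 : ℝ) < s := hs
  have h8 : (s : ℂ) * ω ≠ 0 := mul_ne_zero (by exact_mod_cast hs0.ne') hω
  have h9 : ((s : ℂ) * ω).re ≤ 0 := by
    rw [re_ofReal_mul]; nlinarith
  have h10 := h7 h8 h9
  rw [h6, mul_pow, mul_assoc] at h10
  set v := ω ^ p * g₁ ((s : ℂ) * ω) with hv
  have h11 : (1 : ℝ) < ‖1 + (s : ℂ) ^ p * v‖ ^ 2 := by nlinarith
  have h12 : ‖1 + (s : ℂ) ^ p * v‖ ^ 2 = 1 + 2 * (s ^ p * v.re) + (s ^ p) ^ 2 * ‖v‖ ^ 2 := by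
    have h13 : (s : ℂ) ^ p = ((s ^ p : ℝ) : ℂ) := by push_cast; rfl
    rw [h13, ← Complex.normSq_eq_norm_sq, ← Complex.normSq_eq_norm_sq, Complex.normSq_apply,
      Complex.normSq_apply]
    simp only [add_re, one_re, add_im, one_im, re_ofReal_mul, im_ofReal_mul]
    ring
  rw [h12] at h11
  have h14 : 0 < s ^ p := pow_pos hs0 p
  have h15 : 0 < s ^ p * (v.re + s ^ p * ‖v‖ ^ 2 / 2) := by nlinarith
  exact ((mul_pos_iff_of_pos_left h14).1 h15).le

/-- if `K` is not attracting in a left half disc, then `K'` is negative -/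
theorem neg_deriv15 {K : ℂ → ℂ} {a : ℂ} (hK : AnalyticAt ℂ K a) (h1 : K a = 1)
    (h : ∀ᶠ e : ℂ in 𝓝 0, e ≠ 0 → e.re ≤ 0 → 1 < ‖K (a + e)‖) :
    ∃ κ : ℝ, 0 < κ ∧ HasDerivAt K (-(κ : ℂ)) a := by
  set g : ℂ → ℂ := fun e => K (a + e) - 1 with hg
  have hK' : AnalyticAt ℂ K (a + 0) := by rwa [add_zero]
  have hga : AnalyticAt ℂ g 0 := by
    have h2 : AnalyticAt ℂ (fun e : ℂ => a + e) 0 := analyticAt_const.add analyticAt_id
    exact (AnalyticAt.fun_comp (g := K) (f := fun e : ℂ => a + e) hK' h2).sub analyticAt_const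
  have hn : ∀ᶠ e : ℂ in 𝓝 0, e ≠ 0 → e.re ≤ 0 → 1 < ‖1 + g e‖ := by
    filter_upwards [h] with e he h2 h3
    have : 1 + g e = K (a + e) := by simp only [hg]; ring
    rw [this]; exact he h2 h3
  have hne : ¬ ∀ᶠ z in 𝓝 (0 : ℂ), g z = 0 := by
    intro h2
    have h3 : Tendsto (fun s : ℝ => ((-s : ℝ) : ℂ)) (𝓝[>] 0) (𝓝 0) := by
      have h4 : Continuous fun s : ℝ => ((-s : ℝ) : ℂ) := by fun_prop
      have h5 := h4.tendsto 0
      simp only [neg_zero, ofReal_zero] at h5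
      exact h5.mono_left nhdsWithin_le_nhds
    obtain ⟨s, h4, h5, h6⟩ := ((h3.eventually h2).and ((h3.eventually hn).and
      self_mem_nhdsWithin)).exists
    have hs0 : (0 : ℝ) < s := h6
    have h7 := h5 (by exact_mod_cast (neg_lt_zero.2 hs0).ne)
      (by rw [ofReal_re]; linarith)
    rw [h4] at h7
    norm_num at h7
  obtain ⟨p, g₁, hg₁, hg₁0, hgp⟩ := hga.exists_eventuallyEq_pow_smul_nonzero_iff.2 hne
  have hgp' : ∀ᶠ z in 𝓝 (0 : ℂ), g z = z ^ p * g₁ z := by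
    filter_upwards [hgp] with z hz
    rw [hz, sub_zero, smul_eq_mul]
  have hp : 0 < p := by
    rcases Nat.eq_zero_or_pos p with h0 | h0
    · exfalso
      have h2 := hgp'.self_of_nhds
      rw [h0, pow_zero, one_mul] at h2
      apply hg₁0
      rw [← h2]
      simp only [hg, add_zero, h1, sub_self]
    · exact h0
  have key : ∀ ω : ℂ, ω ≠ 0 → ω.re ≤ 0 → 0 ≤ (ω ^ p * g₁ 0).re := fun ω hω hre =>
    lead15 hg₁.continuousAt hgp' hn hp hω hre
  have hp1 : p = 1 := by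
    by_contra hp1
    have hp2 : 2 ≤ p := by omega
    have hp2' : (2 : ℝ) ≤ p := by exact_mod_cast hp2
    set ψ : ℝ := arg (g₁ 0) with hψ
    set k : ℤ := ⌈(p * (Real.pi / 2) - Real.pi + ψ) / (2 * Real.pi)⌉ with hk
    have hpi := Real.pi_pos
    have hk1 : (p * (Real.pi / 2) - Real.pi + ψ) ≤ k * (2 * Real.pi) := by
      have := Int.le_ceil ((p * (Real.pi / 2) - Real.pi + ψ) / (2 * Real.pi))
      rwa [div_le_iff₀ (by positivity)] at this
    have hk2 : k * (2 * Real.pi) < (p * (Real.pi / 2) - Real.pi + ψ) + 2 * Real.pi := by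
      have h2 := Int.ceil_lt_add_one ((p * (Real.pi / 2) - Real.pi + ψ) / (2 * Real.pi))
      have h3 : (k : ℝ) * (2 * Real.pi) < ((p * (Real.pi / 2) - Real.pi + ψ) / (2 * Real.pi) + 1) *
        (2 * Real.pi) := by gcongr
      have h4 : ((p * (Real.pi / 2) - Real.pi + ψ) / (2 * Real.pi) + 1) * (2 * Real.pi) =
        (p * (Real.pi / 2) - Real.pi + ψ) + 2 * Real.pi := by field_simp
      rwa [h4] at h3
    set φ : ℝ := (Real.pi + k * (2 * Real.pi) - ψ) / p with hφ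
    have hp0 : (0 : ℝ) < p := by linarith
    have hφ1 : Real.pi / 2 ≤ φ := by
      rw [hφ, le_div_iff₀ hp0]; nlinarith
    have hφ2 : φ ≤ Real.pi + Real.pi / 2 := by
      rw [hφ, div_le_iff₀ hp0]; nlinarith
    have h2 := key (exp (φ * I)) (exp_ne_zero _) (by
      rw [exp_ofReal_mul_I_re]
      exact Real.cos_nonpos_of_pi_div_two_le_of_le hφ1 hφ2)
    have h3 : exp (φ * I) ^ p * g₁ 0 = -(‖g₁ 0‖ : ℂ) := by
      have h4 : g₁ 0 = ‖g₁ 0‖ * exp (ψ * I) := (norm_mul_exp_arg_mul_I (g₁ 0)).symm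
      rw [h4, ← exp_nat_mul]
      have h5 : (p : ℂ) * (φ * I) = Real.pi * I + k * (2 * Real.pi * I) - ψ * I := by
        have h6 : (p : ℝ) * φ = Real.pi + k * (2 * Real.pi) - ψ := by
          rw [hφ]; field_simp
        have h7 : (p : ℂ) * (φ : ℂ) = Real.pi + k * (2 * Real.pi) - ψ := by exact_mod_cast h6
        linear_combination I * h7
      have h8 : exp ((p : ℂ) * (φ * I)) = -exp (-(ψ * I)) := by
        rw [h5, sub_eq_add_neg, exp_add, exp_add, exp_int_mul_two_pi_mul_I, exp_pi_mul_I]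
        ring
      rw [h8, exp_neg]
      have h9 := exp_ne_zero ((ψ : ℂ) * I)
      have h10 : ‖(‖g₁ 0‖ : ℂ) * exp (ψ * I)‖ = ‖g₁ 0‖ := by
        rw [norm_mul, norm_exp_ofReal_mul_I, mul_one, Complex.norm_real, norm_norm]
      rw [h10]
      field_simp
    rw [h3, neg_re, ofReal_re] at h2
    have h4 : 0 < ‖g₁ 0‖ := norm_pos_iff.2 hg₁0
    linarith
  subst hp1
  simp only [pow_one] at key hgp'
  have hre : (g₁ 0).re ≤ 0 := by
    have := key (-1) (by norm_num) (by simp)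
    simp only [neg_mul, one_mul, neg_re] at this
    linarith
  have him : (g₁ 0).im = 0 := by
    have h2 := key I I_ne_zero (by simp)
    have h3 := key (-I) (neg_ne_zero.2 I_ne_zero) (by simp)
    simp only [I_mul_re, neg_mul, neg_re] at h2 h3
    linarith
  have hval : g₁ 0 = (((g₁ 0).re : ℝ) : ℂ) := by
    apply Complex.ext
    · simp
    · simp [him]
  have hlt : (g₁ 0).re < 0 := by
    refine lt_of_le_of_ne hre fun h0 => hg₁0 ?_
    rw [hval, h0, ofReal_zero]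
  refine ⟨-(g₁ 0).re, by linarith, ?_⟩
  have hgd : HasDerivAt g (g₁ 0) 0 := by
    have h2 : HasDerivAt (fun z : ℂ => z * g₁ z) (1 * g₁ 0 + 0 * deriv g₁ 0) 0 :=
      (hasDerivAt_id (0 : ℂ)).mul hg₁.differentiableAt.hasDerivAt
    rw [one_mul, zero_mul, add_zero] at h2
    exact h2.congr_of_eventuallyEq hgp'
  have h3 : HasDerivAt (fun z : ℂ => g (z - a) + 1) (g₁ 0) a := by
    have h4 : HasDerivAt (fun z : ℂ => z - a) 1 a := (hasDerivAt_id a).sub_const a
    have h5 : HasDerivAt g (g₁ 0) (a - a) := by rwa [sub_self]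
    have h6 := HasDerivAt.comp (h₂ := g) (h := fun z : ℂ => z - a) a h5 h4
    rw [mul_one] at h6
    exact h6.add_const 1
  have h7 : (fun z : ℂ => g (z - a) + 1) = K := by
    funext z; simp only [hg, sub_add_cancel, add_sub_cancel]
  rw [h7, hval] at h3
  have h8 : (-((-(g₁ 0).re : ℝ) : ℂ)) = (((g₁ 0).re : ℝ) : ℂ) := by push_cast; ring
  rwa [h8]

/-! ### orbits -/

lemma orb_inj15 {n : ℕ} {c z : ℂ} (hz : it c n z = z)
    (h : ∀ d, 0 < d → d < n → it c d z ≠ z) :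
    Set.InjOn (fun i => it c i z) (Finset.range n : Set ℕ) := by
  have key : ∀ i j, i < j → j < n → it c i z ≠ it c j z := by
    intro i j hij hj heq
    apply h (j - i) (by omega) (by omega)
    have h1 := congrArg (it c (n - i)) heq
    rw [it_comp, it_comp] at h1
    have h2 : n - i + i = n := by omega
    have h3 : n - i + j = (j - i) + n := by omega
    rw [h2, hz, h3, it_add_periodic hz] at h1
    exact h1.symm
  intro i hi j hj heq
  simp only [Finset.coe_range, Set.mem_Iio] at hi hj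
  rcases lt_trichotomy i j with h1 | h1 | h1
  · exact absurd heq (key i j h1 hj)
  · exact h1
  · exact absurd heq.symm (key j i h1 hi)

/-- the orbit as a finset -/
noncomputable def orb15 (n : ℕ) (c z : ℂ) : Finset ℂ := (Finset.range n).image fun i => it c i z

lemma mem_orb15 {n : ℕ} (hn : 0 < n) {c z : ℂ} (hz : it c n z = z) (i : ℕ) :
    it c i z ∈ orb15 n c z := by
  unfold orb15
  rw [Finset.mem_image]
  exact ⟨i % n, Finset.mem_range.2 (Nat.mod_lt _ hn), One49.it_mod hz i⟩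

/-- the fixed point formula with two cycles singled out -/
theorem sum_le15 {n : ℕ} (hn : 0 < n) {c : ℂ} (h : ∀ b, it c n b = b → mul n (c, b) ≠ 1)
    {S T : Finset ℂ} (hS : S ⊆ NV.fixS n c) (hT : T ⊆ NV.fixS n c) (hST : Disjoint S T)
    {μ ν : ℂ} (hμ : ∀ b ∈ S, mul n (c, b) = μ) (hν : ∀ b ∈ T, mul n (c, b) = ν)
    (ho : ∀ b, it c n b = b → b ∉ S → b ∉ T → 1 ≤ ‖mul n (c, b)‖) :
    0 ≤ S.card * (1 / (1 - μ)).re + T.card * (1 / (1 - ν)).re + 2 ^ n / 2 := by
  classical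
  have h1 := congrArg Complex.re (NV.sum_inv hn h)
  rw [Complex.re_sum, Complex.zero_re] at h1
  have hU : S ∪ T ⊆ NV.fixS n c := Finset.union_subset hS hT
  rw [← Finset.sum_sdiff hU, Finset.sum_union hST] at h1
  have h2 : ∑ b ∈ S, (1 / (1 - mul n (c, b))).re = S.card * (1 / (1 - μ)).re := by
    rw [Finset.sum_congr rfl fun b hb => by rw [hμ b hb], Finset.sum_const, nsmul_eq_mul]
  have h3 : ∑ b ∈ T, (1 / (1 - mul n (c, b))).re = T.card * (1 / (1 - ν)).re := by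
    rw [Finset.sum_congr rfl fun b hb => by rw [hν b hb], Finset.sum_const, nsmul_eq_mul]
  have h4 : ∑ b ∈ NV.fixS n c \ (S ∪ T), (1 / (1 - mul n (c, b))).re ≤ 2 ^ n / 2 := by
    calc ∑ b ∈ NV.fixS n c \ (S ∪ T), (1 / (1 - mul n (c, b))).re
        ≤ ∑ _b ∈ NV.fixS n c \ (S ∪ T), (1 / 2 : ℝ) := by
          refine Finset.sum_le_sum fun b hb => NV.re_le_half ?_
          rw [Finset.mem_sdiff, Finset.mem_union, not_or] at hb
          exact ho b ((NV.mem_fixS hn).1 hb.1) hb.2.1 hb.2.2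
      _ ≤ ∑ _b ∈ NV.fixS n c, (1 / 2 : ℝ) :=
          Finset.sum_le_sum_of_subset_of_nonneg Finset.sdiff_subset fun _ _ _ => by norm_num
      _ = 2 ^ n / 2 := by
          rw [Finset.sum_const, NV.card_fixS hn h, nsmul_eq_mul]
          push_cast; ring
  rw [h2, h3] at h1
  linarith

lemma orb_sub15 {n k : ℕ} (hn : 0 < n) {c z : ℂ} (hz : (c, z) ∈ Per n) :
    orb15 k c z ⊆ NV.fixS n c ∧ ∀ b ∈ orb15 k c z, mul n (c, b) = mul n (c, z) := by
  constructor
  · intro b hb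
    obtain ⟨i, -, rfl⟩ := Finset.mem_image.1 hb
    exact (NV.mem_fixS hn).2 (it_it_periodic hz i)
  · intro b hb
    obtain ⟨i, -, rfl⟩ := Finset.mem_image.1 hb
    exact mul_it' hz i

lemma re_nonneg15 {ν : ℂ} (h : ‖ν‖ < 1) : 0 ≤ (1 / (1 - ν)).re := by
  rw [one_div, Complex.inv_re]
  refine div_nonneg ?_ (Complex.normSq_nonneg _)
  rw [sub_re, one_re]
  linarith [Complex.re_le_norm ν]

lemma lim15 {f : ℂ → ℂ} {a d : ℂ} (hf : HasDerivAt f d a) (h1 : f a = 1) (hd : d ≠ 0) :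
    Tendsto (fun s : ℝ => s * (1 / (1 - f (a + s))).re) (𝓝[≠] 0) (𝓝 ((1 / (-d)).re)) := by
  have h2 := hasDerivAt_iff_tendsto_slope_zero.1 hf
  have h3 : Tendsto (fun s : ℝ => (s : ℂ)) (𝓝[≠] 0) (𝓝[≠] 0) := by
    refine tendsto_nhdsWithin_iff.2 ⟨?_, ?_⟩
    · have := (continuous_ofReal.tendsto 0)
      rw [ofReal_zero] at this
      exact this.mono_left nhdsWithin_le_nhds
    · filter_upwards [self_mem_nhdsWithin] with s hs
      have h0 : s ≠ 0 := hs
      have h1 : (s : ℂ) ≠ 0 := by exact_mod_cast h0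
      exact h1
  have h4 := (h2.comp h3).neg.inv₀ (neg_ne_zero.2 hd)
  have h5 := (continuous_re.tendsto _).comp h4
  rw [← one_div] at h5
  refine h5.congr' ?_
  filter_upwards [self_mem_nhdsWithin] with s hs
  have hs0 : s ≠ 0 := hs
  have hs1 : (s : ℂ) ≠ 0 := by exact_mod_cast hs0
  simp only [Function.comp_apply, h1, smul_eq_mul]
  have h6 : (-((s : ℂ)⁻¹ * (f (a + s) - 1)))⁻¹ = (s : ℂ) * (1 / (1 - f (a + s))) := by
    rw [← mul_neg, neg_sub, mul_inv, inv_inv, one_div]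
  rw [h6, re_ofReal_mul]

/-- the fixed point formula at the parameters `a + s`, `s` real -/
theorem star15 {D : Dat} {Z : ℂ → Set ℂ} {K : ℂ → ℂ} (hP : D.Par) (hG : Glued D Z)
    (hK : ∀ L ∈ D.U, ∀ z ∈ Z L, mul D.n (D.c L, z) = K L) {κ : ℝ} (hκ : 0 < κ)
    (hder : HasDerivAt K (-(κ : ℂ)) D.a) (hKa : K D.a = 1)
    (hleft : ∀ L ∈ D.U, L.re ≤ 0 → L ∈ D.RO) :
    ∀ᶠ s : ℝ in 𝓝[≠] 0, 0 ≤ D.m * (1 / (1 - exp ((D.x.den : ℂ) * (D.a + s - D.a)))).re +
      D.n * (1 / (1 - K (D.a + s))).re + 2 ^ D.n / 2 := by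
  have hn := Par_n_pos hP
  have hlim : Tendsto (fun s : ℝ => D.a + (s : ℂ)) (𝓝[≠] 0) (𝓝[≠] D.a) := by
    refine tendsto_nhdsWithin_iff.2 ⟨?_, ?_⟩
    · have h2 : Continuous fun s : ℝ => D.a + (s : ℂ) := by fun_prop
      have h3 := h2.tendsto 0
      simp only [ofReal_zero, add_zero] at h3
      exact h3.mono_left nhdsWithin_le_nhds
    · filter_upwards [self_mem_nhdsWithin] with s hs
      have h2 : s ≠ 0 := hs
      simpa using h2
  have hsimple : ∀ᶠ L in 𝓝[≠] D.a, ∀ b, it (D.c L) D.n b = b → mul D.n (D.c L, b) ≠ 1 := by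
    have hfin := NV.finite_par hn
    have h2 : HasDerivAt D.c (deriv D.c D.a) D.a :=
      ((c_diff hP).differentiableAt (isOpen_B.mem_nhds (a_mem_B hP))).hasDerivAt
    have h3 : deriv D.c D.a ≠ 0 := section_deriv_ne_zero (goodB hP) hP.cont hP.sec (a_mem_B hP)
    have h4 : ∀ᶠ L in 𝓝[≠] D.a, ∀ c₁ ∈ {c : ℂ | ∃ b, it c D.n b = b ∧ mul D.n (c, b) = 1},
        D.c L ≠ c₁ := (Filter.eventually_all_finite hfin).2 fun c₁ _ => h2.eventually_ne h3
    filter_upwards [h4] with L h5 b hb hb1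
    exact h5 _ ⟨b, hb, hb1⟩ rfl
  have hattr : ∀ᶠ s : ℝ in 𝓝[≠] 0, 0 < s → ‖K (D.a + s)‖ < 1 := by
    have h2 := K_attr49 hκ hder hKa
    rw [eventually_nhdsWithin_iff] at h2 ⊢
    filter_upwards [h2] with s h3 _ h5
    exact h3 h5
  have hU : ∀ᶠ L in 𝓝[≠] D.a, L ∈ D.U := by
    have h2 : ball D.a (sR D.m D.x) ∈ 𝓝 D.a := ball_mem_nhds _ (sR_pos hP)
    filter_upwards [mem_nhdsWithin_of_mem_nhds h2, self_mem_nhdsWithin] with L h3 h4
    exact ⟨h3, h4⟩
  filter_upwards [hlim.eventually hsimple, hlim.eventually hU, hattr, self_mem_nhdsWithin]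
    with s hs1 hs2 hs3 hs4
  have hs0 : s ≠ 0 := hs4
  set L : ℂ := D.a + s with hLdef
  have hLB := U_sub_B hP hs2
  obtain ⟨hb, hbm⟩ := mul_parent49 hP hLB
  obtain ⟨z, hz⟩ := hG.fam.ne L hs2
  have hzP := (hG.fam.fix L hs2 z hz).1
  have hzK := hK L hs2 z hz
  have hQ : (0 : ℝ) < D.x.den := by exact_mod_cast D.x.pos
  have hnorm : ‖exp ((D.x.den : ℂ) * (L - D.a))‖ = Real.exp (D.x.den * s) := by
    rw [Complex.norm_exp]
    congr 1
    have : (D.x.den : ℂ) * (L - D.a) = ((D.x.den * s : ℝ) : ℂ) := by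
      rw [hLdef]; push_cast; ring
    rw [this, ofReal_re]
  have hre : L.re = s := by rw [hLdef, add_re, a_re, ofReal_re, zero_add]
  have hpar : it (D.c L) D.m (D.b L) = D.b L := (hP.sec L hLB).1
  set S := orb15 D.m (D.c L) (D.b L) with hS
  set T := orb15 D.n (D.c L) z with hT
  have hScard : S.card = D.m := by
    rw [hS, orb15, Finset.card_image_of_injOn (orb_inj15 hpar (hP.prim L hLB)), Finset.card_range]
  obtain ⟨hS1, hS2⟩ := orb_sub15 (k := D.m) hn hb
  obtain ⟨hT1, hT2⟩ := orb_sub15 (k := D.n) hn hzP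
  rw [hbm] at hS2
  rw [hzK] at hT2
  rcases lt_or_gt_of_ne hs0 with hneg | hpos
  · -- the parent is attracting
    have hRO : L ∈ D.RO := hleft L hs2 (by rw [hre]; exact hneg.le)
    obtain ⟨h1, h2⟩ := hG.left L hRO
    have hK1 : 1 < ‖K L‖ := by rw [← hzK]; exact h1 z hz
    have hpa : ‖exp ((D.x.den : ℂ) * (L - D.a))‖ < 1 := by
      rw [hnorm, Real.exp_lt_one_iff]; nlinarith
    have hTcard : T.card = D.n := by
      rw [hT, orb15, Finset.card_image_of_injOn (orb_inj15 hzP (h2 z hz)), Finset.card_range]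
    have hdis : Disjoint S T := by
      rw [Finset.disjoint_left]
      intro y hy1 hy2
      have h3 := hS2 y hy1
      rw [hT2 y hy2] at h3
      rw [← h3] at hpa
      linarith
    have h3 := sum_le15 hn hs1 hS1 hT1 hdis hS2 hT2 (by
      intro y hy hyS hyT
      by_contra hcon
      push Not at hcon
      obtain ⟨i, hi⟩ := fatou (D.c L) (D.b L) y D.n D.n hn hn hb (by rw [hbm]; exact hpa) hy hcon
      apply hyS
      rw [hi]
      exact mem_orb15 hP.m_pos hpar i)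
    rwa [hScard, hTcard] at h3
  · -- the family is attracting
    have hK1 : ‖K L‖ < 1 := hs3 hpos
    have hpa : 1 < ‖exp ((D.x.den : ℂ) * (L - D.a))‖ := by
      rw [hnorm, Real.one_lt_exp_iff]; positivity
    have hTcard : T.card ≤ D.n := by
      rw [hT, orb15]
      exact Finset.card_image_le.trans (by rw [Finset.card_range])
    have hdis : Disjoint S T := by
      rw [Finset.disjoint_left]
      intro y hy1 hy2
      have h3 := hS2 y hy1
      rw [hT2 y hy2] at h3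
      rw [← h3] at hpa
      linarith
    have h3 := sum_le15 hn hs1 hS1 hT1 hdis hS2 hT2 (by
      intro y hy hyS hyT
      by_contra hcon
      push Not at hcon
      obtain ⟨i, hi⟩ := fatou (D.c L) z y D.n D.n hn hn hzP (by rw [hzK]; exact hK1) hy hcon
      apply hyT
      rw [hi]
      exact mem_orb15 hn hzP i)
    rw [hScard] at h3
    have h4 : (T.card : ℝ) * (1 / (1 - K L)).re ≤ D.n * (1 / (1 - K L)).re :=
      mul_le_mul_of_nonneg_right (by exact_mod_cast hTcard) (re_nonneg15 hK1)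
    linarith

/-- **S11**: the derivative of the multiplier of the child at the root -/
theorem s11_deriv : S11_deriv := by
  intro D Z K hP hC hR hG hK hd hKa
  have hsR := sR_pos hP
  have hball : ball D.a (sR D.m D.x) ∈ 𝓝 D.a := ball_mem_nhds _ hsR
  have hKan : AnalyticAt ℂ K D.a := hd.analyticAt hball
  have hleft : ∀ L ∈ D.U, L.re ≤ 0 → L ∈ D.RO := by
    intro L hL hre
    refine ⟨hL, fun h => ?_, fun θ h => ?_⟩
    · linarith [h.2.1]
    · have := re_pos_of_ext hP (U_sub_B hP hL) (Th_ext h)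
      linarith
  have hrep : ∀ᶠ e : ℂ in 𝓝 0, e ≠ 0 → e.re ≤ 0 → 1 < ‖K (D.a + e)‖ := by
    have h1 : ball (0 : ℂ) (sR D.m D.x) ∈ 𝓝 (0 : ℂ) := ball_mem_nhds _ hsR
    filter_upwards [h1] with e he h0 hre
    have hU : D.a + e ∈ D.U := by
      refine ⟨?_, ?_⟩
      · rw [mem_ball, dist_eq_norm, add_sub_cancel_left]
        rwa [mem_ball, dist_zero_right] at he
      · intro h2
        apply h0
        simpa using h2
    have hRO := hleft _ hU (by rw [add_re, a_re, zero_add]; exact hre)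
    obtain ⟨z, hz⟩ := hG.fam.ne _ hU
    rw [← hK _ hU z hz]
    exact (hG.left _ hRO).1 z hz
  obtain ⟨κ, hκ, hder⟩ := neg_deriv15 hKan hKa hrep
  have hstar := star15 hP hG hK hκ hder hKa hleft
  have hQ : (0 : ℝ) < D.x.den := by exact_mod_cast D.x.pos
  have hQc : (D.x.den : ℂ) ≠ 0 := by exact_mod_cast hQ.ne'
  have hκc : (κ : ℂ) ≠ 0 := by exact_mod_cast hκ.ne'
  have hA := lim15 hder hKa (neg_ne_zero.2 hκc)
  have hE : HasDerivAt (fun L => exp ((D.x.den : ℂ) * (L - D.a))) (D.x.den : ℂ) D.a := by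
    have h1 : HasDerivAt (fun L : ℂ => (D.x.den : ℂ) * (L - D.a)) ((D.x.den : ℂ) * 1) D.a :=
      ((hasDerivAt_id D.a).sub_const D.a).const_mul _
    have h2 := h1.cexp
    simpa using h2
  have hB := lim15 hE (by simp) hQc
  have hA' : (1 / (-(-(κ : ℂ)))).re = 1 / κ := by
    rw [neg_neg, ← ofReal_one, ← ofReal_div, ofReal_re]
  have hB' : (1 / (-(D.x.den : ℂ))).re = -(1 / D.x.den) := by
    have : (1 / (-(D.x.den : ℂ))) = ((-(1 / (D.x.den : ℝ)) : ℝ) : ℂ) := by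
      push_cast
      rw [one_div, one_div, inv_neg]
    rw [this, ofReal_re]
  rw [hA'] at hA
  rw [hB'] at hB
  have hlin : Tendsto (fun s : ℝ => s * (2 ^ D.n / 2 : ℝ)) (𝓝[≠] 0) (𝓝 0) := by
    have h1 : Continuous fun s : ℝ => s * (2 ^ D.n / 2 : ℝ) := by fun_prop
    have h2 := h1.tendsto 0
    rw [zero_mul] at h2
    exact h2.mono_left nhdsWithin_le_nhds
  have hsum := ((hB.const_mul (D.m : ℝ)).add (hA.const_mul (D.n : ℝ))).add hlin
  have hpos : 0 ≤ (D.m : ℝ) * -(1 / D.x.den) + D.n * (1 / κ) + 0 := by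
    have h1 : 𝓝[>] (0 : ℝ) ≤ 𝓝[≠] 0 := nhdsWithin_mono _ fun s hs => (ne_of_gt hs)
    refine ge_of_tendsto (hsum.mono_left h1) ?_
    filter_upwards [h1 hstar, self_mem_nhdsWithin] with s hs hs'
    have hs0 : (0 : ℝ) < s := hs'
    have h2 := mul_nonneg hs0.le hs
    calc (0 : ℝ) ≤ _ := h2
      _ = _ := by ring
  have hneg : (D.m : ℝ) * -(1 / D.x.den) + D.n * (1 / κ) + 0 ≤ 0 := by
    have h1 : 𝓝[<] (0 : ℝ) ≤ 𝓝[≠] 0 := nhdsWithin_mono _ fun s hs => (ne_of_lt hs)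
    refine le_of_tendsto (hsum.mono_left h1) ?_
    filter_upwards [h1 hstar, self_mem_nhdsWithin] with s hs hs'
    have hs0 : s < (0 : ℝ) := hs'
    have h2 := mul_nonneg (neg_nonneg.2 hs0.le) hs
    have h3 : (D.m : ℝ) * (s * (1 / (1 - exp ((D.x.den : ℂ) * (D.a + s - D.a)))).re) +
        D.n * (s * (1 / (1 - K (D.a + s))).re) + s * (2 ^ D.n / 2) =
        -(-s * (D.m * (1 / (1 - exp ((D.x.den : ℂ) * (D.a + s - D.a)))).re +
          D.n * (1 / (1 - K (D.a + s))).re + 2 ^ D.n / 2)) := by ring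
    rw [h3]
    linarith
  have heq : (D.n : ℝ) * (1 / κ) = D.m * (1 / D.x.den) := by linarith
  have hm : (0 : ℝ) < D.m := by exact_mod_cast hP.m_pos
  have hnc : (D.n : ℝ) = D.m * D.x.den := by unfold Dat.n; push_cast; ring
  have hκQ : κ = (D.x.den : ℝ) ^ 2 := by
    rw [hnc] at heq
    field_simp at heq
    nlinarith
  rw [hder.deriv, hκQ]
  push_cast
  ring

end Pool.Agent.Work.MLC.Sat
end

section
set_option autoImplicit false

/-! # The ray estimate for the primitive theorem (helper15)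

At an end `t` of the plateau `nu w n = P / Q` the multiplier along the parameter ray of angle `t` is
close to `exp (2 π i P / Q)`, with an explicit rate.  Proof: PLY inequality on the boundary of a half
disc, with the rotation number of the landing rays of the limit points as a rational approximation,
reflection and the maximum principle. -/

namespace Pool.Agent.Work.MLC.Pri

open Filter Topology Metric Set Complex CircleDeg1Lift

/-! ### modulus of continuity of the rotation number -/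

theorem gw_sub_le (w : ℕ → ℤ) {θ θ' : ℝ} (h : θ ≤ θ') {x y : ℝ} (hxy : x ≤ y) (n : ℕ) :
    Circ.gw w θ' n y - Circ.gw w θ n x + (θ' - θ) ≤ 2 ^ n * (y - x + (θ' - θ)) := by
  induction n with
  | zero => simp
  | succ n ih =>
    rw [Circ.gw_succ_apply, Circ.gw_succ_apply, Circ.tdbl_apply, Circ.tdbl_apply]
    have hmono : Circ.gw w θ n x ≤ Circ.gw w θ' n y :=
      ((Circ.gw w θ n).monotone hxy).trans (Circ.gw_mono w h n y)
    have h1 : Circ.phi (Circ.gw w θ' n y - (θ' + w n) / 2) ≤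
        Circ.phi (Circ.gw w θ' n y - (θ + w n) / 2) := Circ.phi_mono (by linarith)
    have h2 := Circ.phi_lipschitz (x := Circ.gw w θ n x - (θ + w n) / 2)
      (y := Circ.gw w θ' n y - (θ + w n) / 2) (by linarith)
    rw [pow_succ]
    linarith

theorem nu_modulus {n : ℕ} {w : ℕ → ℤ} (hw : ∀ i, w (i + n) = w i) {θ θ' : ℝ} (h : θ ≤ θ') {k : ℕ}
    (hk : (2 : ℝ) ^ (n * k) * (θ' - θ) ≤ 1) :
    k * (Circ.nu w n θ' - Circ.nu w n θ) ≤ 3 := by
  have h1 := Circ.nu_sub_le w n θ 0 k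
  have h2 := Circ.nu_sub_le w n θ' 0 k
  have h3 := gw_sub_le w h (le_refl (0 : ℝ)) (n * k)
  rw [Circ.gw_mul w θ n k hw, Circ.gw_mul w θ' n k hw, coe_pow, coe_pow] at h3
  rw [abs_le] at h1 h2
  linarith [h1.1, h1.2, h2.1, h2.2]

theorem nu_log {n : ℕ} (hn : 0 < n) {w : ℕ → ℤ} (hw : ∀ i, w (i + n) = w i) {θ θ' : ℝ}
    (h : θ < θ') (hδ : θ' - θ ≤ (1 / 2) ^ n) :
    (Circ.nu w n θ' - Circ.nu w n θ) * Real.log (1 / (θ' - θ)) ≤ 5 * n := by
  have hn0 : (0 : ℝ) < n := by exact_mod_cast hn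
  have hδ0 : 0 < θ' - θ := by linarith
  have hlog2 : 0 < Real.log 2 := Real.log_pos (by norm_num)
  have hlog2' : Real.log 2 < 0.7 := by have := Real.log_two_lt_d9; linarith
  have hL : n * Real.log 2 ≤ Real.log (1 / (θ' - θ)) := by
    rw [one_div, Real.log_inv]
    have h1 := Real.log_le_log hδ0 hδ
    rw [Real.log_pow, one_div, Real.log_inv] at h1
    linarith
  set x : ℝ := Real.log (1 / (θ' - θ)) / (n * Real.log 2) with hx
  have hx1 : 1 ≤ x := by
    rw [hx, le_div_iff₀ (by positivity)]; linarith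
  set k : ℕ := ⌊x⌋₊ with hk
  have hk1 : (k : ℝ) ≤ x := Nat.floor_le (by linarith)
  have hk2 : x < k + 1 := Nat.lt_floor_add_one x
  have hk3 : (1 : ℝ) ≤ k := by
    have : 1 ≤ k := Nat.le_floor (by exact_mod_cast hx1)
    exact_mod_cast this
  have hk4 : (2 : ℝ) ^ (n * k) * (θ' - θ) ≤ 1 := by
    rw [← le_div_iff₀ hδ0, ← Real.log_le_log_iff (by positivity) (by positivity), Real.log_pow]
    have := mul_le_mul_of_nonneg_right hk1 (show 0 ≤ n * Real.log 2 by positivity)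
    rw [hx, div_mul_cancel₀ _ (by positivity)] at this
    push_cast
    linarith
  have h3 := nu_modulus hw h.le hk4
  have h4 : 0 ≤ Circ.nu w n θ' - Circ.nu w n θ := by have := Circ.nu_mono w n h.le; linarith
  have h5 : Real.log (1 / (θ' - θ)) = x * (n * Real.log 2) := by
    rw [hx, div_mul_cancel₀ _ (by positivity)]
  rw [h5]
  have h6 : x ≤ 2 * k := by linarith
  calc (Circ.nu w n θ' - Circ.nu w n θ) * (x * (n * Real.log 2))
      ≤ (Circ.nu w n θ' - Circ.nu w n θ) * (2 * k * (n * Real.log 2)) := by gcongr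
    _ = 2 * (n * Real.log 2) * (k * (Circ.nu w n θ' - Circ.nu w n θ)) := by ring
    _ ≤ 2 * (n * Real.log 2) * 3 := by gcongr
    _ ≤ 5 * n := by nlinarith

/-- symmetric form -/
theorem nu_log_abs {n : ℕ} (hn : 0 < n) {w : ℕ → ℤ} (hw : ∀ i, w (i + n) = w i) {θ t δ : ℝ}
    (hδ : |θ - t| ≤ δ) (hδ0 : 0 < δ) (hδ1 : δ ≤ (1 / 2) ^ n) :
    |Circ.nu w n θ - Circ.nu w n t| * Real.log (1 / δ) ≤ 5 * n := by
  have hn0 : (0 : ℝ) < n := by exact_mod_cast hn
  have hδ2 : δ ≤ 1 := hδ1.trans (pow_le_one₀ (by norm_num) (by norm_num))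
  have hlog : 0 ≤ Real.log (1 / δ) := Real.log_nonneg (by rw [le_div_iff₀ hδ0]; linarith)
  have key : ∀ a b : ℝ, a < b → b - a ≤ δ → |Circ.nu w n b - Circ.nu w n a| * Real.log (1 / δ) ≤ 5 * n := by
    intro a b hab hba
    have h4 : 0 ≤ Circ.nu w n b - Circ.nu w n a := by have := Circ.nu_mono w n hab.le; linarith
    rw [abs_of_nonneg h4]
    refine le_trans ?_ (nu_log hn hw hab (hba.trans hδ1))
    refine mul_le_mul_of_nonneg_left ?_ h4
    refine Real.log_le_log (by positivity) ?_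
    exact one_div_le_one_div_of_le (by linarith) hba
  rcases lt_trichotomy θ t with h | h | h
  · rw [abs_sub_comm]
    exact key θ t h (by rw [abs_of_neg (by linarith)] at hδ; linarith)
  · rw [h]; simp
  · exact key t θ h (by rw [abs_of_pos (by linarith)] at hδ; linarith)

/-! ### the point with a given word over the uniformised exterior -/

lemma ang_cOf' {ζ : ℂ} (h : 0 < ζ.re) : Ang (cOf ζ) (ζ.im / (2 * Real.pi)) := by
  have h1 := (ang_cOf (g := ζ.re) (θ := ζ.im / (2 * Real.pi)) h).1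
  have h2 : ((ζ.re : ℝ) : ℂ) + 2 * Real.pi * ((ζ.im / (2 * Real.pi) : ℝ) : ℂ) * I = ζ := by
    have h5 : (Real.pi : ℂ) ≠ 0 := by exact_mod_cast Real.pi_pos.ne'
    push_cast
    have h6 : (2 : ℂ) * Real.pi * (ζ.im / (2 * Real.pi)) = ζ.im := by field_simp
    rw [h6]; exact re_add_im ζ
  rwa [h2] at h1

/-- the point of the parameter `cOf ζ` with word `w` -/
noncomputable def aW (n : ℕ) (w : ℕ → ℤ) (ζ : ℂ) : ℂ :=
  Classical.epsilon fun a => ExtP n (cOf ζ) a (ζ.im / (2 * Real.pi)) w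

variable {n : ℕ} {w : ℕ → ℤ}

theorem aW_spec (hn : 0 < n) (hw : Bits n w) {ζ : ℂ} (h : 0 < ζ.re) :
    ExtP n (cOf ζ) (aW n w ζ) (ζ.im / (2 * Real.pi)) w :=
  Classical.epsilon_spec (exists_extP hn (ang_cOf' h) hw)

theorem aW_diff (hn : 0 < n) (hw : Bits n w) {ζ : ℂ} (h : 0 < ζ.re) :
    DifferentiableAt ℂ (aW n w) ζ := by
  have hE := aW_spec hn hw h
  set x₀ : ℂ × ℂ := (cOf ζ, aW n w ζ) with hx₀
  have hper : x₀ ∈ Per n := hE.2.2.1
  have h1 : 1 < ‖mul n x₀‖ := one_lt_norm_mult_of_ext hn hE.1 hE.2.2.1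
  have hne : mul n x₀ ≠ 1 := by intro h0; rw [h0, norm_one] at h1; exact lt_irrefl _ h1
  obtain ⟨β, hβ, hβ0, hβn⟩ := chart hper hne
  have hc : DifferentiableAt ℂ cOf ζ :=
    (differentiableOn_cOf ζ h).differentiableAt ((isOpen_lt continuous_const continuous_re).mem_nhds h)
  have ht : Tendsto (fun ξ => ((cOf ξ, β (cOf ξ)) : ℂ × ℂ)) (𝓝 ζ) (𝓝 x₀) := by
    have h2 : ContinuousAt β (cOf ζ) := hβ.continuousAt
    have h3 : Tendsto (fun ξ => β (cOf ξ)) (𝓝 ζ) (𝓝 (β (cOf ζ))) :=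
      h2.tendsto.comp hc.continuousAt.tendsto
    rw [hβ0] at h3
    exact hc.continuousAt.tendsto.prodMk_nhds h3
  have hpos : ∀ᶠ ξ in 𝓝 ζ, 0 < ξ.re := (isOpen_lt continuous_const continuous_re).mem_nhds h
  have hang : ∀ᶠ ξ : ℂ in 𝓝 ζ, |ξ.im / (2 * Real.pi) - ζ.im / (2 * Real.pi)| < 1 / 2 := by
    have hcc : Continuous fun ξ : ℂ => |ξ.im / (2 * Real.pi) - ζ.im / (2 * Real.pi)| :=
      ((continuous_im.div_const _).sub continuous_const).abs
    exact hcc.continuousAt.eventually_lt_const (by simp)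
  have heq : ∀ᶠ ξ in 𝓝 ζ, aW n w ξ = β (cOf ξ) := by
    filter_upwards [ht.eventually hβn, ht.eventually (extP_nhds hn hE (ε := 1 / 2) (by norm_num)),
      hpos, hang] with ξ h2 h3 h4 h5
    have h6 : it (cOf ξ) n (β (cOf ξ)) = β (cOf ξ) := h2.2 rfl
    obtain ⟨θ, hθ, hθE⟩ := h3 h6
    have h7 := aW_spec hn hw h4
    obtain ⟨m, hm⟩ := h7.ang.unique hθE.ang
    have hm0 : m = 0 := by
      have h8 : |(m : ℝ)| < 1 := by
        have h9 : (m : ℝ) = (θ - ζ.im / (2 * Real.pi)) -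
            (ξ.im / (2 * Real.pi) - ζ.im / (2 * Real.pi)) := by rw [hm]; ring
        rw [h9]
        refine (abs_sub _ _).trans_lt ?_
        linarith
      have h9 : |m| < 1 := by exact_mod_cast h8
      exact Int.abs_lt_one_iff.1 h9
    rw [hm0] at hm
    simp only [Int.cast_zero, add_zero] at hm
    rw [hm] at hθE
    exact extP_inj hn h7 hθE
  have hd : DifferentiableAt ℂ (fun ξ => β (cOf ξ)) ζ :=
    (hβ.differentiableAt).comp ζ hc
  exact hd.congr_of_eventuallyEq heq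

/-- the multiplier -/
noncomputable def rW (n : ℕ) (w : ℕ → ℤ) (ζ : ℂ) : ℂ := mult n (cOf ζ) (aW n w ζ)

lemma rW_eq (n : ℕ) (w : ℕ → ℤ) (ζ : ℂ) : rW n w ζ = mul n (cOf ζ, aW n w ζ) := rfl

theorem rW_diff (hn : 0 < n) (hw : Bits n w) {ζ : ℂ} (h : 0 < ζ.re) :
    DifferentiableAt ℂ (rW n w) ζ := by
  have hc : DifferentiableAt ℂ cOf ζ :=
    (differentiableOn_cOf ζ h).differentiableAt ((isOpen_lt continuous_const continuous_re).mem_nhds h)
  have h1 : DifferentiableAt ℂ (fun ξ => ((cOf ξ, aW n w ξ) : ℂ × ℂ)) ζ :=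
    hc.prodMk (aW_diff hn hw h)
  have h2 : DifferentiableAt ℂ (mul n) (cOf ζ, aW n w ζ) :=
    (contDiff_mul n).differentiable (by simp) _
  exact DifferentiableAt.comp (g := mul n) (f := fun ξ => ((cOf ξ, aW n w ξ) : ℂ × ℂ)) ζ h2 h1

theorem rW_norm (hn : 0 < n) (hw : Bits n w) {ζ : ℂ} (h : 0 < ζ.re) : 1 < ‖rW n w ζ‖ := by
  have hE := aW_spec hn hw h
  exact one_lt_norm_mult_of_ext hn hE.1 hE.2.2.1

/-- `1 - exp (2 π i x) / ρ` -/
noncomputable def vW (n : ℕ) (w : ℕ → ℤ) (x : ℝ) (ζ : ℂ) : ℂ :=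
  1 - exp (2 * Real.pi * x * I) / rW n w ζ

lemma norm_exp_turn (x : ℝ) : ‖exp (2 * Real.pi * x * I)‖ = 1 := by
  have : (2 * Real.pi * x * I : ℂ) = ((2 * Real.pi * x : ℝ) : ℂ) * I := by push_cast; ring
  rw [this, norm_exp_ofReal_mul_I]

theorem vW_diff (hn : 0 < n) (hw : Bits n w) (x : ℝ) {ζ : ℂ} (h : 0 < ζ.re) :
    DifferentiableAt ℂ (vW n w x) ζ := by
  have h1 := rW_norm hn hw h
  have h2 : rW n w ζ ≠ 0 := by intro h0; rw [h0, norm_zero] at h1; linarith
  exact (differentiableAt_const _).sub ((differentiableAt_const _).div (rW_diff hn hw h) h2)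

theorem vW_norm (hn : 0 < n) (hw : Bits n w) (x : ℝ) {ζ : ℂ} (h : 0 < ζ.re) :
    ‖vW n w x ζ‖ ≤ 2 := by
  have h1 := rW_norm hn hw h
  unfold vW
  refine (norm_sub_le _ _).trans ?_
  rw [norm_div, norm_exp_turn, norm_one]
  have : 1 / ‖rW n w ζ‖ ≤ 1 := by rw [div_le_one (by linarith)]; exact h1.le
  linarith

/-! ### boundary values -/

lemma isClosed_rat {q : ℕ} (hq : 0 < q) : IsClosed {x : ℝ | ∃ P : ℤ, x = P / q} := by
  have h1 : IsClosed (range ((↑) : ℤ → ℝ)) := Int.isClosedEmbedding_coe_real.isClosed_range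
  have h2 : {x : ℝ | ∃ P : ℤ, x = P / q} = (fun x : ℝ => x * q) ⁻¹' range ((↑) : ℤ → ℝ) := by
    have hq0 : (q : ℝ) ≠ 0 := by exact_mod_cast hq.ne'
    ext x
    constructor
    · rintro ⟨P, rfl⟩
      exact ⟨P, by field_simp⟩
    · rintro ⟨P, hP⟩
      exact ⟨P, by rw [hP]; field_simp⟩
  rw [h2]
  exact h1.preimage (by fun_prop)

lemma norm_one_sub_exp_le {z : ℂ} (h : z.re ≤ 0) : ‖1 - exp z‖ ≤ ‖z‖ := by
  have h1 := Convex.norm_image_sub_le_of_norm_deriv_le (𝕜 := ℂ) (f := exp) (C := 1)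
    (s := {z : ℂ | z.re ≤ 0}) (x := z) (y := 0) (fun x _ => Complex.differentiableAt_exp)
    (fun x hx => by
      rw [Complex.deriv_exp, Complex.norm_exp]
      exact Real.exp_le_one_iff.2 hx)
    (convex_halfSpace_re_le 0) h (by simp)
  simpa using h1

lemma rat_dist {P P' : ℤ} {Q q : ℕ} (hQ : 0 < Q) (hq : 0 < q) (h : (P' / q : ℝ) ≠ P / Q) :
    1 / (q : ℝ) ≤ Q * |(P' / q : ℝ) - P / Q| := by
  have hQ0 : (0 : ℝ) < Q := by exact_mod_cast hQ
  have hq0 : (0 : ℝ) < q := by exact_mod_cast hq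
  have h1 : (P' / q : ℝ) - P / Q = ((P' * Q - P * q : ℤ) : ℝ) / (q * Q) := by
    push_cast; field_simp
  have h2 : (P' * Q - P * q : ℤ) ≠ 0 := by
    intro h0
    rw [h0] at h1
    simp only [Int.cast_zero, zero_div] at h1
    exact h (by linarith)
  have h3 : (1 : ℝ) ≤ |((P' * Q - P * q : ℤ) : ℝ)| := by exact_mod_cast Int.one_le_abs h2
  rw [h1, abs_div, abs_of_pos (show (0 : ℝ) < q * Q by positivity)]
  rw [div_le_iff₀ hq0]
  have h4 : (Q : ℝ) * (|((P' * Q - P * q : ℤ) : ℝ)| / (q * Q)) * q = |((P' * Q - P * q : ℤ) : ℝ)| := by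
    field_simp
  rw [h4]; exact h3

/-- the limit point estimate -/
theorem limit_bound (hn : 0 < n) {P : ℤ} {Q : ℕ} (hQ : 0 < Q) {θ : ℝ}
    (hne : Circ.nu w n θ ≠ P / Q) (hle : |Circ.nu w n θ - P / Q| ≤ 1) {c b l : ℂ}
    (hc : G c 0 = 0) (hb : it c n b = b) (hl : exp l = mult n c b)
    (hply : ‖l - 2 * Real.pi * (Circ.nu w n θ : ℝ) * I‖ ^ 2 ≤ 81 * n * l.re)
    (hrat : ∀ q : ℕ, 0 < q → (∀ᶠ x : ℂ × ℂ in 𝓝 (c, b), x ∈ Per n →
      ∀ θ, ExtP n x.1 x.2 θ w → ∃ P : ℤ, Circ.nu w n θ = P / q) →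
      ∃ P : ℤ, Circ.nu w n θ = P / q) :
    ‖1 - exp (2 * Real.pi * ((P / Q : ℝ) : ℂ) * I) / exp l‖ ≤
      17 * n * √(Q * |Circ.nu w n θ - P / Q|) := by
  have hn0 : (1 : ℝ) ≤ n := by exact_mod_cast hn
  have hQ0 : (1 : ℝ) ≤ Q := by exact_mod_cast hQ
  set ν := Circ.nu w n θ with hν
  set d : ℝ := |ν - P / Q| with hd
  have hd0 : 0 ≤ d := abs_nonneg _
  set s : ℝ := √(Q * d) with hs
  have hs0 : 0 ≤ s := Real.sqrt_nonneg _
  have hs2 : s ^ 2 = Q * d := Real.sq_sqrt (by positivity)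
  have hds : d ≤ s := by
    refine Real.le_sqrt_of_sq_le ?_
    nlinarith
  have hpi := Real.pi_lt_d4
  have hpi0 := Real.pi_pos
  set z : ℂ := 2 * Real.pi * ((P / Q : ℝ) : ℂ) * I - l with hz
  have hzre : z.re = - l.re := by
    rw [hz, sub_re]
    have : (2 * Real.pi * ((P / Q : ℝ) : ℂ) * I : ℂ) = ((2 * Real.pi * (P / Q) : ℝ) : ℂ) * I := by
      push_cast; ring
    rw [this, re_ofReal_mul, I_re]; ring
  have hlre : 0 ≤ l.re := by
    by_contra hcon
    push Not at hcon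
    have h1 : 0 ≤ ‖l - 2 * Real.pi * (ν : ℝ) * I‖ ^ 2 := by positivity
    have h2 : 81 * (n : ℝ) * l.re < 0 := by
      have : (0 : ℝ) < 81 * n := by positivity
      exact mul_neg_of_pos_of_neg this hcon
    linarith
  have hv : 1 - exp (2 * Real.pi * ((P / Q : ℝ) : ℂ) * I) / exp l = 1 - exp z := by
    rw [hz, Complex.exp_sub]
  rw [hv]
  refine (norm_one_sub_exp_le (by rw [hzre]; linarith)).trans ?_
  have hz2 : ‖z‖ ≤ ‖l - 2 * Real.pi * (ν : ℝ) * I‖ + 2 * Real.pi * d := by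
    have h1 : z = -(l - 2 * Real.pi * (ν : ℝ) * I) + ((-(2 * Real.pi * (ν - P / Q)) : ℝ) : ℂ) * I := by
      rw [hz]; push_cast; ring
    rw [h1]
    refine (norm_add_le _ _).trans ?_
    rw [norm_neg, norm_mul, norm_I, mul_one, norm_real, Real.norm_eq_abs, abs_neg, abs_mul,
      abs_of_pos (show 0 < 2 * Real.pi by positivity)]
  suffices h : ‖l - 2 * Real.pi * (ν : ℝ) * I‖ ≤ 10.7 * n * s by
    have h1 : 2 * Real.pi * d ≤ 6.2832 * s := by nlinarith
    have h2 : 6.2832 * s ≤ 6.3 * n * s := by nlinarith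
    have h3 : (0 : ℝ) ≤ n * s := by positivity
    nlinarith
  rcases hlre.eq_or_lt with h0 | h0
  · rw [← h0, mul_zero] at hply
    have h1 : ‖l - 2 * Real.pi * (ν : ℝ) * I‖ = 0 := by
      have h2 := norm_nonneg (l - 2 * Real.pi * (ν : ℝ) * I)
      nlinarith
    rw [h1]; positivity
  · have hρ : 1 < ‖mult n c b‖ := by
      rw [← hl, Complex.norm_exp]; exact Real.one_lt_exp_iff.2 h0
    have hlin := lin_Lz hn hb hρ
    obtain ⟨β, q, p, hq, hland, -, -, hp⟩ := Tr.exists_land_rot hlin hc hl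
    have hq0 : (0 : ℝ) < q := by exact_mod_cast hq
    obtain ⟨P', hP'⟩ : ∃ P' : ℤ, Circ.nu w n θ = P' / q := by
      refine hrat q hq ?_
      filter_upwards [land_nhds hn hc hb hρ hland] with x h1 hx θ' hE
      obtain ⟨P', -, hP'⟩ := nu_of_compat hland.1 hE.2.2.2.1.per ((h1 hx).2 θ' w hE.1 hE.2.1 hE.2.2.2.2)
      exact ⟨P', hP'⟩
    have hq1 : 1 / (q : ℝ) ≤ Q * d := by
      rw [hd, hν, hP']
      refine rat_dist hQ hq ?_
      rw [← hP']; exact hne
    have hlog2 : Real.log 2 < 0.7 := by have := Real.log_two_lt_d9; linarith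
    have hlog20 : 0 < Real.log 2 := Real.log_pos (by norm_num)
    have h1 : l.re ≤ 2 * n * Real.log 2 / q := by
      have h2 : |(l - 2 * Real.pi * (p / q : ℂ) * I).re| ≤ ‖l - 2 * Real.pi * (p / q : ℂ) * I‖ :=
        abs_re_le_norm _
      have h3 : (l - 2 * Real.pi * (p / q : ℂ) * I).re = l.re := by
        have h4 : (2 * Real.pi * (p / q : ℂ) * I : ℂ) = ((2 * Real.pi * (p / q) : ℝ) : ℂ) * I := by
          push_cast; ring
        rw [sub_re, h4, re_ofReal_mul, I_re]; ring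
      rw [h3, abs_of_pos h0] at h2
      have h4 : l.re * l.re ≤ 2 * n * Real.log 2 / q * l.re := by nlinarith
      exact le_of_mul_le_mul_right h4 h0
    have h2 : l.re ≤ 1.4 * n * s ^ 2 := by
      refine h1.trans ?_
      rw [hs2]
      have h3 : 2 * (n : ℝ) * Real.log 2 / q = 2 * n * Real.log 2 * (1 / q) := by ring
      rw [h3]
      calc 2 * n * Real.log 2 * (1 / q) ≤ 2 * n * Real.log 2 * (Q * d) := by gcongr
        _ ≤ 1.4 * n * (Q * d) := by
          have : (0 : ℝ) ≤ n * (Q * d) := by positivity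
          nlinarith
    refine abs_le_of_sq_le_sq' ?_ (by positivity) |>.2
    refine hply.trans ?_
    have h3 : 81 * n * l.re ≤ 81 * n * (1.4 * n * s ^ 2) := by gcongr
    refine h3.trans ?_
    have h4 : (0 : ℝ) ≤ n ^ 2 * s ^ 2 := by positivity
    nlinarith

theorem vW_boundary (hn : 0 < n) (hw : Bits n w) {P : ℤ} {Q : ℕ} (hQ : 0 < Q) {θ : ℝ}
    (hne : Circ.nu w n θ ≠ P / Q) (hle : |Circ.nu w n θ - P / Q| ≤ 1) {ε : ℝ} (hε : 0 < ε) :
    ∀ᶠ ζ in 𝓝[{ζ : ℂ | 0 < ζ.re}] (2 * Real.pi * θ * I),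
      ‖vW n w (P / Q) ζ‖ ≤ 17 * n * √(Q * |Circ.nu w n θ - P / Q|) + ε := by
  by_contra hcon
  rw [Filter.not_eventually] at hcon
  have hG : NeBot (𝓝[{ζ : ℂ | 0 < ζ.re}] (2 * Real.pi * θ * I) ⊓
    𝓟 {ζ | ¬ ‖vW n w (P / Q) ζ‖ ≤ 17 * n * √(Q * |Circ.nu w n θ - P / Q|) + ε}) :=
    Filter.frequently_iff_neBot.1 hcon
  set U := Ultrafilter.of (𝓝[{ζ : ℂ | 0 < ζ.re}] (2 * Real.pi * θ * I) ⊓
    𝓟 {ζ | ¬ ‖vW n w (P / Q) ζ‖ ≤ 17 * n * √(Q * |Circ.nu w n θ - P / Q|) + ε}) with hU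
  have hUle := Ultrafilter.of_le (𝓝[{ζ : ℂ | 0 < ζ.re}] (2 * Real.pi * θ * I) ⊓
    𝓟 {ζ | ¬ ‖vW n w (P / Q) ζ‖ ≤ 17 * n * √(Q * |Circ.nu w n θ - P / Q|) + ε})
  rw [← hU] at hUle
  have hU1 : (U : Filter ℂ) ≤ 𝓝[{ζ : ℂ | 0 < ζ.re}] (2 * Real.pi * θ * I) := hUle.trans inf_le_left
  have hU2 : (U : Filter ℂ) ≤ 𝓝 (2 * Real.pi * θ * I) := hU1.trans nhdsWithin_le_nhds
  have hpos : ∀ᶠ ζ in (U : Filter ℂ), 0 < ζ.re := hU1 self_mem_nhdsWithin
  have hbig : ∀ᶠ ζ in (U : Filter ℂ), 17 * n * √(Q * |Circ.nu w n θ - P / Q|) + ε <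
      ‖vW n w (P / Q) ζ‖ := by
    have h1 : {ζ | ¬ ‖vW n w (P / Q) ζ‖ ≤ 17 * n * √(Q * |Circ.nu w n θ - P / Q|) + ε} ∈ U :=
      (hUle.trans inf_le_right) (mem_principal_self _)
    filter_upwards [h1] with ζ h2
    exact not_le.1 h2
  have hp0 : (2 * Real.pi * θ * I : ℂ) = ((2 * Real.pi * θ : ℝ) : ℂ) * I := by push_cast; ring
  have hre0 : Tendsto (fun ζ : ℂ => ζ.re) U (𝓝 0) := by
    have h1 : Tendsto (fun ζ : ℂ => ζ.re) U (𝓝 (2 * Real.pi * θ * I : ℂ).re) :=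
      (continuous_re.tendsto _).mono_left hU2
    have h2 : (2 * Real.pi * θ * I : ℂ).re = 0 := by rw [hp0, re_ofReal_mul, I_re, mul_zero]
    rwa [h2] at h1
  have him0 : Tendsto (fun ζ : ℂ => ζ.im / (2 * Real.pi)) U (𝓝 θ) := by
    have h1 : Tendsto (fun ζ : ℂ => ζ.im / (2 * Real.pi)) U
        (𝓝 ((2 * Real.pi * θ * I : ℂ).im / (2 * Real.pi))) :=
      ((continuous_im.div_const _).tendsto _).mono_left hU2
    have h2 : (2 * Real.pi * θ * I : ℂ).im / (2 * Real.pi) = θ := by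
      rw [hp0, im_ofReal_mul, I_im]
      have := Real.pi_pos.ne'
      field_simp
    rwa [h2] at h1
  have hnu0 : Tendsto (fun ζ : ℂ => Circ.nu w n (ζ.im / (2 * Real.pi))) U (𝓝 (Circ.nu w n θ)) :=
    (Circ.nu_continuous w n).continuousAt.tendsto.comp him0
  have hex : ∀ ζ : ℂ, ∃ l : ℂ, 0 < ζ.re → ζ.re ≤ 4 → exp l = rW n w ζ ∧
      ‖l - 2 * Real.pi * (Circ.nu w n (ζ.im / (2 * Real.pi)) : ℝ) * I‖ ^ 2 ≤ 81 * n * l.re := by
    intro ζ
    by_cases h1 : 0 < ζ.re ∧ ζ.re ≤ 4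
    · obtain ⟨-, l, h2, h3⟩ := extP_ply hn (aW_spec hn hw h1.1) (by rw [G_cOf h1.1]; exact h1.2)
      exact ⟨l, fun _ _ => ⟨h2, h3⟩⟩
    · exact ⟨0, fun h2 h3 => absurd ⟨h2, h3⟩ h1⟩
  choose ℓ hℓ using hex
  have hle4 : ∀ᶠ ζ in (U : Filter ℂ), ζ.re ≤ 4 :=
    hre0.eventually_le_const (by norm_num)
  have hnuB : ∀ᶠ ζ in (U : Filter ℂ), |Circ.nu w n (ζ.im / (2 * Real.pi))| ≤ |Circ.nu w n θ| + 1 :=
    hnu0.abs.eventually_le_const (by linarith)
  set K : Set (ℂ × ℂ × ℂ) := closedBall 0 (2 * Real.exp 4 + 100) ×ˢ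
    closedBall 0 (1 + (2 * Real.exp 4 + 100)) ×ˢ
    closedBall 0 (81 * n + 2 * Real.pi * (|Circ.nu w n θ| + 1)) with hK
  have hKc : IsCompact K := (isCompact_closedBall _ _).prod
    ((isCompact_closedBall _ _).prod (isCompact_closedBall _ _))
  have hn0 : (1 : ℝ) ≤ n := by exact_mod_cast hn
  have hmem : ∀ᶠ ζ in (U : Filter ℂ), (cOf ζ, aW n w ζ, ℓ ζ) ∈ K := by
    filter_upwards [hpos, hle4, hnuB] with ζ h1 h2 h3
    obtain ⟨h4, h5⟩ := hℓ ζ h1 h2
    have hE := aW_spec hn hw h1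
    have h6 : ‖cOf ζ‖ ≤ 2 * Real.exp 4 + 100 := norm_le_of_G_le (by rw [G_cOf h1]; exact h2)
    have h7 : ‖aW n w ζ‖ ≤ 1 + ‖cOf ζ‖ := norm_le_of_G_zero (G_zero_of_per hn hE.2.2.1)
    refine ⟨mem_closedBall_zero_iff.2 h6, mem_closedBall_zero_iff.2 (by linarith),
      mem_closedBall_zero_iff.2 ?_⟩
    set A : ℂ := 2 * Real.pi * (Circ.nu w n (ζ.im / (2 * Real.pi)) : ℝ) * I with hA
    have hA1 : A = ((2 * Real.pi * Circ.nu w n (ζ.im / (2 * Real.pi)) : ℝ) : ℂ) * I := by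
      rw [hA]; push_cast; ring
    have h8 : (ℓ ζ).re ≤ ‖ℓ ζ - A‖ := by
      have h9 : (ℓ ζ - A).re = (ℓ ζ).re := by rw [sub_re, hA1, re_ofReal_mul, I_re]; ring
      rw [← h9]; exact re_le_norm _
    have h10 : ‖ℓ ζ - A‖ ≤ 81 * n := by
      by_contra hcc
      push Not at hcc
      have h11 : 0 < ‖ℓ ζ - A‖ := lt_trans (by positivity) hcc
      nlinarith
    have h12 : ‖A‖ ≤ 2 * Real.pi * (|Circ.nu w n θ| + 1) := by
      rw [hA1, norm_mul, norm_I, mul_one, norm_real, Real.norm_eq_abs, abs_mul,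
        abs_of_pos (show 0 < 2 * Real.pi by positivity)]
      gcongr
    calc ‖ℓ ζ‖ = ‖(ℓ ζ - A) + A‖ := by rw [sub_add_cancel]
      _ ≤ ‖ℓ ζ - A‖ + ‖A‖ := norm_add_le _ _
      _ ≤ _ := by linarith
  obtain ⟨x, -, hx⟩ := hKc.ultrafilter_le_nhds (U.map fun ζ => (cOf ζ, aW n w ζ, ℓ ζ)) (by
    rw [Filter.le_principal_iff]; exact hmem)
  obtain ⟨c, b, l⟩ := x
  have hT : Tendsto (fun ζ => (cOf ζ, aW n w ζ, ℓ ζ)) U (𝓝 (c, b, l)) := hx
  have hTc : Tendsto cOf U (𝓝 c) := (continuous_fst.tendsto _).comp hT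
  have hTb : Tendsto (aW n w) U (𝓝 b) := ((continuous_fst.comp continuous_snd).tendsto _).comp hT
  have hTl : Tendsto ℓ U (𝓝 l) := ((continuous_snd.comp continuous_snd).tendsto _).comp hT
  have hTcb : Tendsto (fun ζ => ((cOf ζ, aW n w ζ) : ℂ × ℂ)) U (𝓝 (c, b)) := hTc.prodMk_nhds hTb
  have hb : it c n b = b := by
    have h1 : (c, b) ∈ Per n := (isClosed_Per n).mem_of_tendsto hTcb (by
      filter_upwards [hpos] with ζ h1
      exact (aW_spec hn hw h1).2.2.1)
    exact h1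
  have hc : G c 0 = 0 := by
    have h1 : Tendsto (fun ζ => G (cOf ζ) (cOf ζ)) U (𝓝 (G c c)) :=
      (continuous_G_diag.tendsto c).comp hTc
    have h2 : Tendsto (fun ζ => G (cOf ζ) (cOf ζ)) U (𝓝 0) := by
      refine hre0.congr' ?_
      filter_upwards [hpos] with ζ h1
      exact (G_cOf h1).symm
    have h3 := tendsto_nhds_unique h1 h2
    rw [G_self] at h3; linarith
  have hTr : Tendsto (rW n w) U (𝓝 (mult n c b)) := by
    have h1 : Tendsto (fun ζ => mul n (cOf ζ, aW n w ζ)) U (𝓝 (mul n (c, b))) :=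
      ((contDiff_mul n).continuous.tendsto (c, b)).comp hTcb
    rw [mult_eq_mul]
    exact h1.congr fun ζ => (rW_eq n w ζ).symm
  have hl : exp l = mult n c b := by
    have h1 : Tendsto (fun ζ => exp (ℓ ζ)) U (𝓝 (exp l)) := (continuous_exp.tendsto _).comp hTl
    refine tendsto_nhds_unique h1 (hTr.congr' ?_)
    filter_upwards [hpos, hle4] with ζ h1 h2
    exact (hℓ ζ h1 h2).1.symm
  have hply : ‖l - 2 * Real.pi * (Circ.nu w n θ : ℝ) * I‖ ^ 2 ≤ 81 * n * l.re := by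
    have h1 : Tendsto (fun ζ : ℂ =>
        ‖ℓ ζ - 2 * Real.pi * (Circ.nu w n (ζ.im / (2 * Real.pi)) : ℝ) * I‖ ^ 2) U
        (𝓝 (‖l - 2 * Real.pi * (Circ.nu w n θ : ℝ) * I‖ ^ 2)) := by
      have h2 : Tendsto (fun ζ : ℂ => ((Circ.nu w n (ζ.im / (2 * Real.pi)) : ℝ) : ℂ)) U
          (𝓝 ((Circ.nu w n θ : ℝ) : ℂ)) := (continuous_ofReal.tendsto _).comp hnu0
      exact ((hTl.sub ((tendsto_const_nhds.mul h2).mul tendsto_const_nhds)).norm).pow 2
    have h3 : Tendsto (fun ζ : ℂ => 81 * n * (ℓ ζ).re) U (𝓝 (81 * n * l.re)) :=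
      tendsto_const_nhds.mul ((continuous_re.tendsto _).comp hTl)
    refine le_of_tendsto_of_tendsto h1 h3 ?_
    filter_upwards [hpos, hle4] with ζ h1 h2
    exact (hℓ ζ h1 h2).2
  have hfin := limit_bound hn hQ hne hle hc hb hl hply (by
    intro q hq hev
    refine (isClosed_rat hq).mem_of_tendsto hnu0 ?_
    filter_upwards [hpos, hTcb.eventually hev] with ζ h1 h2
    exact h2 (aW_spec hn hw h1).2.2.1 _ (aW_spec hn hw h1))
  have hTv : Tendsto (fun ζ => ‖vW n w (P / Q) ζ‖) U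
      (𝓝 ‖1 - exp (2 * Real.pi * ((P / Q : ℝ) : ℂ) * I) / exp l‖) := by
    rw [hl]
    have hne0 : mult n c b ≠ 0 := by rw [← hl]; exact exp_ne_zero _
    have h1 : Tendsto (fun ζ => ‖1 - exp (2 * Real.pi * ((P / Q : ℝ) : ℂ) * I) / rW n w ζ‖) U
        (𝓝 ‖1 - exp (2 * Real.pi * ((P / Q : ℝ) : ℂ) * I) / mult n c b‖) :=
      ((tendsto_const_nhds (x := (1 : ℂ))).sub
        ((tendsto_const_nhds (x := exp (2 * Real.pi * ((P / Q : ℝ) : ℂ) * I))).div hTr hne0)).norm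
    exact h1.congr fun ζ => by rw [vW]
  have h1 := ge_of_tendsto hTv (hbig.mono fun _ h => h.le)
  linarith

/-! ### the maximum principle -/

theorem norm_le_of_limsup {U : Set ℂ} (hU : IsOpen U) (hb : Bornology.IsBounded U) {F : ℂ → ℂ}
    (hF : DifferentiableOn ℂ F U) {B : ℝ}
    (h : ∀ z ∈ frontier U, ∀ ε > 0, ∀ᶠ w in 𝓝[U] z, ‖F w‖ ≤ B + ε) {z : ℂ} (hz : z ∈ U) :
    ‖F z‖ ≤ B := by
  refine le_of_forall_pos_le_add fun ε hε => ?_
  by_contra hcon
  push Not at hcon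
  set V : Set ℂ := U ∩ {w | B + ε < ‖F w‖} with hV
  have hVo : IsOpen V := hF.continuousOn.norm.isOpen_inter_preimage hU isOpen_Ioi
  have hVU : V ⊆ U := inter_subset_left
  have hcl : closure V ⊆ U := by
    intro x hx
    by_contra hxU
    have hxf : x ∈ frontier U := ⟨closure_mono hVU hx, by rwa [hU.interior_eq]⟩
    have h1 := h x hxf ε hε
    have : NeBot (𝓝[V] x) := mem_closure_iff_nhdsWithin_neBot.1 hx
    have h2 : ∀ᶠ w in 𝓝[V] x, ‖F w‖ ≤ B + ε := nhdsWithin_mono x hVU h1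
    have h3 : ∀ᶠ w in 𝓝[V] x, w ∈ V := self_mem_nhdsWithin
    obtain ⟨w, h4, h5⟩ := (h2.and h3).exists
    exact absurd h4 (not_le.2 h5.2)
  have hd : DiffContOnCl ℂ F V := ⟨hF.mono hVU, hF.continuousOn.mono hcl⟩
  have hfr : ∀ x ∈ frontier V, ‖F x‖ ≤ B + ε := by
    intro x hx
    have h1 : x ∈ U := hcl hx.1
    have h2 : x ∉ V := by
      have := hx.2
      rwa [hVo.interior_eq] at this
    by_contra h3
    exact h2 ⟨h1, not_le.1 h3⟩
  have h4 := Complex.norm_le_of_forall_mem_frontier_norm_le (hb.subset hVU) hd hfr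
    (subset_closure (show z ∈ V from ⟨hz, hcon⟩))
  exact absurd h4 (not_le.2 hcon)

lemma norm_log_le {w : ℂ} (h : 0 < w.re) (h1 : ‖w‖ ≤ 1) :
    ‖Complex.log w‖ ≤ -Real.log ‖w‖ + Real.pi / 2 := by
  refine (Complex.norm_le_abs_re_add_abs_im _).trans ?_
  rw [Complex.log_re, Complex.log_im]
  have h2 : |Complex.arg w| ≤ Real.pi / 2 := Complex.abs_arg_le_pi_div_two_iff.2 h.le
  have h3 : Real.log ‖w‖ ≤ 0 := Real.log_nonpos (norm_nonneg _) h1
  rw [abs_of_nonpos h3]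
  linarith

/-- Phragmen-Lindelöf for a reflected bounded function on a half disc: `u` bounded by `2`, with
boundary values at one of each two symmetric points `± i y` bounded by `M y`, where
`4 (M y)² (log (1 / y) + π / 2) < B` -/
theorem reflect_bound {u : ℂ → ℂ} (hu : ∀ w : ℂ, 0 < w.re → DifferentiableAt ℂ u w)
    (hu2 : ∀ w : ℂ, 0 < w.re → ‖u w‖ ≤ 2) {R B : ℝ} (hR : 0 < R) (hR1 : R < 1)
    (hB : 16 * (-Real.log R + Real.pi / 2) ≤ B)
    (hbd : ∀ y : ℝ, 0 < y → y < R → ∃ M : ℝ, 0 ≤ M ∧ 4 * M ^ 2 * (-Real.log y + Real.pi / 2) < B ∧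
      ((∀ ε > 0, ∀ᶠ w in 𝓝[{w : ℂ | 0 < w.re}] ((y : ℂ) * I), ‖u w‖ ≤ M + ε) ∨
        ∀ ε > 0, ∀ᶠ w in 𝓝[{w : ℂ | 0 < w.re}] (-((y : ℂ) * I)), ‖u w‖ ≤ M + ε))
    {g : ℝ} (hg : 0 < g) (hgR : g < R) : ‖u g‖ ^ 4 * (-Real.log g) ≤ B := by
  have hpi := Real.pi_pos
  have hlogR : Real.log R < 0 := Real.log_neg hR hR1
  have hB0 : 0 < B := lt_of_lt_of_le (by nlinarith) hB
  set D : Set ℂ := {w : ℂ | ‖w‖ < R ∧ 0 < w.re} with hD
  have hDo : IsOpen D := (isOpen_lt continuous_norm continuous_const).inter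
    (isOpen_lt continuous_const continuous_re)
  have hDb : Bornology.IsBounded D := by
    refine Metric.isBounded_ball (x := (0 : ℂ)) (r := R) |>.subset ?_
    intro w hw
    exact mem_ball_zero_iff.2 hw.1
  set H : ℂ → ℂ := fun w => u w * (starRingEnd ℂ) (u ((starRingEnd ℂ) w)) with hH
  have hHd : ∀ w : ℂ, 0 < w.re → DifferentiableAt ℂ H w := by
    intro w hw
    refine (hu w hw).mul ?_
    have h1 : DifferentiableAt ℂ u ((starRingEnd ℂ) w) := hu _ (by rw [conj_re]; exact hw)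
    have h2 := h1.conj_conj
    rw [conj_conj] at h2
    exact h2
  have hHn : ∀ w : ℂ, ‖H w‖ = ‖u w‖ * ‖u ((starRingEnd ℂ) w)‖ := by
    intro w; simp only [hH]; rw [norm_mul, RCLike.norm_conj]
  have hH4 : ∀ w : ℂ, 0 < w.re → ‖H w‖ ≤ 4 := by
    intro w hw
    rw [hHn]
    have h1 := hu2 w hw
    have h2 := hu2 ((starRingEnd ℂ) w) (by rw [conj_re]; exact hw)
    nlinarith [norm_nonneg (u w), norm_nonneg (u ((starRingEnd ℂ) w))]
  -- the auxiliary function
  have key : ∀ η : ℝ, 0 < η → ∀ w ∈ D,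
      ‖H w ^ 2 * Complex.log w * exp (η * Complex.log w)‖ ≤ B := by
    intro η hη w hw
    have hnorm : ∀ w ∈ D, ‖H w ^ 2 * Complex.log w * exp (η * Complex.log w)‖ ≤
        ‖H w‖ ^ 2 * (-Real.log ‖w‖ + Real.pi / 2) * Real.exp (η * Real.log ‖w‖) := by
      intro w hw
      rw [norm_mul, norm_mul, norm_pow, Complex.norm_exp]
      have h1 : ((η : ℂ) * Complex.log w).re = η * Real.log ‖w‖ := by
        rw [re_ofReal_mul, Complex.log_re]
      rw [h1]
      gcongr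
      exact norm_log_le hw.2 (hw.1.le.trans hR1.le)
    have hexp1 : ∀ w ∈ D, Real.exp (η * Real.log ‖w‖) ≤ 1 := by
      intro w hw
      rw [Real.exp_le_one_iff]
      exact mul_nonpos_of_nonneg_of_nonpos hη.le
        (Real.log_nonpos (norm_nonneg _) (hw.1.le.trans hR1.le))
    have hlogpos : ∀ w ∈ D, 0 ≤ -Real.log ‖w‖ + Real.pi / 2 := by
      intro w hw
      have := Real.log_nonpos (norm_nonneg w) (hw.1.le.trans hR1.le)
      linarith
    refine norm_le_of_limsup hDo hDb (F := fun w => H w ^ 2 * Complex.log w *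
      exp (η * Complex.log w)) ?_ ?_ hw
    · intro w hw
      have h1 : DifferentiableAt ℂ Complex.log w :=
        (Complex.differentiableAt_log (Complex.mem_slitPlane_iff.2 (Or.inl hw.2)))
      exact ((((hHd w hw.2).pow 2).mul h1).mul ((h1.const_mul _).cexp)).differentiableWithinAt
    · intro z hz ε hε
      have hzc : ‖z‖ ≤ R ∧ 0 ≤ z.re := by
        have h1 : z ∈ closure D := hz.1
        have h2 : closure D ⊆ {w : ℂ | ‖w‖ ≤ R ∧ 0 ≤ w.re} := by
          refine closure_minimal (fun w hw => ⟨hw.1.le, hw.2.le⟩) ?_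
          exact (isClosed_le continuous_norm continuous_const).inter
            (isClosed_le continuous_const continuous_re)
        exact h2 h1
      have hznD : z ∉ D := by
        have := hz.2
        rwa [hDo.interior_eq] at this
      rcases hzc.1.eq_or_lt with hzR | hzR
      · -- on the arc
        have hcont : ContinuousAt (fun w : ℂ => 16 * (-Real.log ‖w‖ + Real.pi / 2)) z := by
          have h1 : ContinuousAt (fun w : ℂ => Real.log ‖w‖) z :=
            continuous_norm.continuousAt.log (by rw [hzR]; exact hR.ne')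
          exact continuousAt_const.mul (h1.neg.add continuousAt_const)
        have h2 : ∀ᶠ w in 𝓝 z, 16 * (-Real.log ‖w‖ + Real.pi / 2) < B + ε := by
          refine hcont.eventually_lt_const ?_
          show 16 * (-Real.log ‖z‖ + Real.pi / 2) < B + ε
          rw [hzR]; linarith
        filter_upwards [nhdsWithin_le_nhds h2, self_mem_nhdsWithin] with w h3 h4
        refine (hnorm w h4).trans (le_trans ?_ h3.le)
        have h5 := hH4 w h4.2
        have h6 := hexp1 w h4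
        have h7 := hlogpos w h4
        have h8 : ‖H w‖ ^ 2 ≤ 16 := by nlinarith [norm_nonneg (H w)]
        calc ‖H w‖ ^ 2 * (-Real.log ‖w‖ + Real.pi / 2) * Real.exp (η * Real.log ‖w‖)
            ≤ 16 * (-Real.log ‖w‖ + Real.pi / 2) * 1 := by gcongr
          _ = _ := by ring
      · have hzre : z.re = 0 := by
          by_contra hne
          exact hznD ⟨hzR, lt_of_le_of_ne hzc.2 (Ne.symm hne)⟩
        by_cases hz0 : z = 0
        · -- at the origin
          subst hz0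
          have h1 : Tendsto (fun w : ℂ => Real.log ‖w‖) (𝓝[≠] 0) atBot := by
            refine Real.tendsto_log_nhdsGT_zero.comp ?_
            exact tendsto_norm_nhdsNE_zero
          have h2 : ∀ᶠ w in 𝓝[≠] (0 : ℂ), Real.log ‖w‖ ≤ -(max 2 (64 / (η ^ 2 * B))) :=
            h1.eventually_le_atBot _
          have h3 : 𝓝[D] (0 : ℂ) ≤ 𝓝[≠] 0 := by
            refine nhdsWithin_mono _ fun w hw => ?_
            rintro rfl
            have := hw.2
            simp at this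
          filter_upwards [h3 h2, self_mem_nhdsWithin] with w h4 h5
          refine (hnorm w h5).trans ?_
          set x : ℝ := -Real.log ‖w‖ with hx
          have hx1 : 2 ≤ x := by have := le_max_left 2 (64 / (η ^ 2 * B)); linarith
          have hx2 : 64 / (η ^ 2 * B) ≤ x := by have := le_max_right 2 (64 / (η ^ 2 * B)); linarith
          have h6 : Real.exp (η * Real.log ‖w‖) = 1 / Real.exp (η * x) := by
            rw [hx, one_div, ← Real.exp_neg]; congr 1; ring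
          have h7 : (η * x) ^ 2 / 2 ≤ Real.exp (η * x) := by
            have := Real.quadratic_le_exp_of_nonneg (show 0 ≤ η * x by positivity)
            nlinarith [show 0 ≤ η * x by positivity]
          have h8 : ‖H w‖ ^ 2 ≤ 16 := by nlinarith [norm_nonneg (H w), hH4 w h5.2]
          have h9 : x + Real.pi / 2 ≤ 2 * x := by have := Real.pi_le_four; linarith
          rw [h6]
          have h10 : 64 ≤ x * (η ^ 2 * B) := by
            rwa [div_le_iff₀ (by positivity)] at hx2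
          calc ‖H w‖ ^ 2 * (x + Real.pi / 2) * (1 / Real.exp (η * x))
              ≤ 16 * (2 * x) * (1 / ((η * x) ^ 2 / 2)) := by gcongr
            _ = 64 / (x * η ^ 2) := by field_simp; ring
            _ ≤ B := by
              rw [div_le_iff₀ (by positivity)]
              nlinarith
            _ ≤ B + ε := by linarith
        · -- on the axis
          have hzim : z.im ≠ 0 := fun h0 => hz0 (Complex.ext hzre h0)
          set y : ℝ := |z.im| with hy
          have hy0 : 0 < y := abs_pos.2 hzim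
          have hzn : ‖z‖ = y := by
            have h1 : z = (z.im : ℂ) * I := by
              apply Complex.ext
              · rw [re_ofReal_mul, I_re, hzre]; ring
              · rw [im_ofReal_mul, I_im]; ring
            rw [h1, norm_mul, norm_I, mul_one, norm_real, Real.norm_eq_abs]
          obtain ⟨M, hM0, hM1, hM2⟩ := hbd y hy0 (by rw [← hzn]; exact hzR)
          -- in both cases the product is bounded by `2 (M + δ)`
          have hprod : ∀ δ > 0, ∀ᶠ w in 𝓝[D] z, ‖H w‖ ≤ 2 * (M + δ) := by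
            intro δ hδ
            have hDP : 𝓝[D] z ≤ 𝓝[{w : ℂ | 0 < w.re}] z := nhdsWithin_mono _ fun w hw => hw.2
            have hconj : Tendsto (starRingEnd ℂ) (𝓝[D] z)
                (𝓝[{w : ℂ | 0 < w.re}] ((starRingEnd ℂ) z)) := by
              refine tendsto_nhdsWithin_iff.2 ⟨?_, ?_⟩
              · exact (continuous_conj.tendsto z).mono_left nhdsWithin_le_nhds
              · filter_upwards [self_mem_nhdsWithin] with w hw
                show 0 < ((starRingEnd ℂ) w).re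
                rw [conj_re]; exact hw.2
            have hcz : (starRingEnd ℂ) z = -z := by
              apply Complex.ext
              · rw [conj_re, neg_re, hzre]; ring
              · rw [conj_im, neg_im]
            -- either at `z` or at `conj z`
            have hcase : (∀ᶠ w in 𝓝[{w : ℂ | 0 < w.re}] z, ‖u w‖ ≤ M + δ) ∨
                (∀ᶠ w in 𝓝[{w : ℂ | 0 < w.re}] ((starRingEnd ℂ) z), ‖u w‖ ≤ M + δ) := by
              have hzz : z = (z.im : ℂ) * I := by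
                apply Complex.ext
                · rw [re_ofReal_mul, I_re, hzre]; ring
                · rw [im_ofReal_mul, I_im]; ring
              rcases le_total 0 z.im with h0 | h0
              · have h1 : (y : ℂ) * I = z := by rw [hy, abs_of_nonneg h0]; exact hzz.symm
                rw [h1] at hM2
                rw [hcz]
                exact hM2.imp (fun h => h δ hδ) (fun h => h δ hδ)
              · have h1 : (y : ℂ) * I = -z := by
                  rw [hy, abs_of_nonpos h0]; push_cast; rw [neg_mul, ← hzz]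
                rw [h1, neg_neg] at hM2
                rw [hcz]
                exact (hM2.imp (fun h => h δ hδ) (fun h => h δ hδ)).symm
            rcases hcase with h | h
            · filter_upwards [hDP h, self_mem_nhdsWithin] with w h1 h2
              rw [hHn]
              have h3 := hu2 ((starRingEnd ℂ) w) (by rw [conj_re]; exact h2.2)
              nlinarith [norm_nonneg (u w), norm_nonneg (u ((starRingEnd ℂ) w))]
            · filter_upwards [hconj.eventually h, self_mem_nhdsWithin] with w h1 h2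
              rw [hHn]
              have h3 := hu2 w h2.2
              nlinarith [norm_nonneg (u w), norm_nonneg (u ((starRingEnd ℂ) w))]
          obtain ⟨δ, hδ0, hδ⟩ : ∃ δ > 0, (2 * (M + δ)) ^ 2 * (-Real.log y + δ + Real.pi / 2) < B := by
            have hcont : ContinuousAt (fun δ : ℝ => (2 * (M + δ)) ^ 2 *
              (-Real.log y + δ + Real.pi / 2)) 0 := by fun_prop
            have h1 : ∀ᶠ δ in 𝓝 (0 : ℝ), (2 * (M + δ)) ^ 2 * (-Real.log y + δ + Real.pi / 2) < B := by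
              refine hcont.eventually_lt_const ?_
              show (2 * (M + 0)) ^ 2 * (-Real.log y + 0 + Real.pi / 2) < B
              calc (2 * (M + 0)) ^ 2 * (-Real.log y + 0 + Real.pi / 2) =
                4 * M ^ 2 * (-Real.log y + Real.pi / 2) := by ring
                _ < B := hM1
            have h2 : ∀ᶠ δ in 𝓝[>] (0 : ℝ), (2 * (M + δ)) ^ 2 *
              (-Real.log y + δ + Real.pi / 2) < B := nhdsWithin_le_nhds h1
            obtain ⟨δ, h3, h4⟩ := (h2.and self_mem_nhdsWithin).exists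
            exact ⟨δ, h4, h3⟩
          have hlogc : ∀ᶠ w in 𝓝 z, -Real.log ‖w‖ < -Real.log y + δ := by
            have h1 : ContinuousAt (fun w : ℂ => -Real.log ‖w‖) z :=
              (continuous_norm.continuousAt.log (by rw [hzn]; exact hy0.ne')).neg
            refine h1.eventually_lt_const ?_
            show -Real.log ‖z‖ < -Real.log y + δ
            rw [hzn]; linarith
          filter_upwards [hprod δ hδ0, nhdsWithin_le_nhds hlogc, self_mem_nhdsWithin] with w h1 h2 h3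
          refine (hnorm w h3).trans ?_
          have h4 := hexp1 w h3
          have h5 := hlogpos w h3
          have h6 : 0 ≤ 2 * (M + δ) := by positivity
          have h7 : 0 ≤ -Real.log y + δ + Real.pi / 2 := by linarith
          have h8 : 0 ≤ (2 * (M + δ)) ^ 2 * (-Real.log y + δ + Real.pi / 2) := by positivity
          calc ‖H w‖ ^ 2 * (-Real.log ‖w‖ + Real.pi / 2) * Real.exp (η * Real.log ‖w‖)
              ≤ (2 * (M + δ)) ^ 2 * (-Real.log y + δ + Real.pi / 2) * 1 := by gcongr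
            _ ≤ B + ε := by rw [mul_one]; linarith
  -- conclusion
  have hgD : (g : ℂ) ∈ D := by
    refine ⟨?_, ?_⟩
    · rw [norm_real, Real.norm_eq_abs, abs_of_pos hg]; exact hgR
    · rw [ofReal_re]; exact hg
  have hval : ∀ η : ℝ, 0 < η → ‖u g‖ ^ 4 * (-Real.log g) * Real.exp (η * Real.log g) ≤ B := by
    intro η hη
    have h1 := key η hη g hgD
    rw [norm_mul, norm_mul, norm_pow, hHn, conj_ofReal, Complex.norm_exp, ← Complex.ofReal_log hg.le,
      norm_real, Real.norm_eq_abs, abs_of_neg (Real.log_neg hg (hgR.trans hR1)), re_ofReal_mul,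
      ofReal_re] at h1
    calc ‖u g‖ ^ 4 * (-Real.log g) * Real.exp (η * Real.log g)
        = (‖u g‖ * ‖u g‖) ^ 2 * (-Real.log g) * Real.exp (η * Real.log g) := by ring
      _ ≤ B := h1
  have hT : Tendsto (fun η : ℝ => ‖u g‖ ^ 4 * (-Real.log g) * Real.exp (η * Real.log g)) (𝓝[>] 0)
      (𝓝 (‖u g‖ ^ 4 * (-Real.log g))) := by
    have h1 : Continuous fun η : ℝ => ‖u g‖ ^ 4 * (-Real.log g) * Real.exp (η * Real.log g) := by
      fun_prop
    have h2 := (h1.tendsto 0).mono_left (nhdsWithin_le_nhds (s := Ioi (0 : ℝ)))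
    simpa using h2
  refine le_of_tendsto hT ?_
  filter_upwards [self_mem_nhdsWithin] with η hη
  exact hval η hη

/-! ### the ray estimate -/

lemma exp_neg_five_le (n : ℕ) : Real.exp (-(5 * n)) ≤ (1 / 2) ^ n := by
  have h1 : Real.exp (-(5 * (n : ℝ))) = Real.exp (-5) ^ n := by
    rw [← Real.exp_nat_mul]; congr 1; ring
  rw [h1]
  refine pow_le_pow_left₀ (Real.exp_pos _).le ?_ n
  rw [Real.exp_neg, one_div]
  refine inv_anti₀ (by norm_num) ?_
  have := Real.add_one_le_exp (5 : ℝ)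
  linarith

theorem ray_v (hn : 0 < n) (hw : Bits n w) {P : ℤ} {Q : ℕ} (hQ : 0 < Q) {t : ℝ}
    (ht : Circ.nu w n t = P / Q)
    (hend : ∀ s > 0, Circ.nu w n (t + s) ≠ P / Q ∨ Circ.nu w n (t - s) ≠ P / Q)
    {g : ℝ} (hg : 0 < g) (hg1 : g < Real.exp (-(5 * n))) :
    ‖vW n w (P / Q) (g + 2 * Real.pi * t * I)‖ ^ 4 * (-Real.log g) ≤ 8000 * n ^ 3 * Q := by
  have hn0 : (1 : ℝ) ≤ n := by exact_mod_cast hn
  have hQ0 : (1 : ℝ) ≤ Q := by exact_mod_cast hQ
  have hpi := Real.pi_pos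
  have hpi4 := Real.pi_lt_d4
  have hn3 : (n : ℝ) ≤ n ^ 3 * Q := by
    have h1 : (1 : ℝ) ≤ n ^ 2 := one_le_pow₀ hn0
    have h2 : (1 : ℝ) ≤ n ^ 2 * Q := by nlinarith
    nlinarith
  have hre : ∀ z : ℂ, (z + 2 * Real.pi * t * I).re = z.re := by
    intro z
    have : (2 * Real.pi * t * I : ℂ) = ((2 * Real.pi * t : ℝ) : ℂ) * I := by push_cast; ring
    rw [add_re, this, re_ofReal_mul, I_re]; ring
  -- transfer of the boundary estimate
  have htr : ∀ θ : ℝ, ∀ z : ℂ, z + 2 * Real.pi * t * I = 2 * Real.pi * θ * I →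
      Circ.nu w n θ ≠ P / Q → |Circ.nu w n θ - P / Q| ≤ 1 → ∀ ε > 0,
      ∀ᶠ w' in 𝓝[{w : ℂ | 0 < w.re}] z, ‖vW n w (P / Q) (w' + 2 * Real.pi * t * I)‖ ≤
        17 * n * √(Q * |Circ.nu w n θ - P / Q|) + ε := by
    intro θ z hz h1 h2 ε hε
    have h3 := vW_boundary hn hw hQ h1 h2 hε
    rw [← hz] at h3
    have h4 : Tendsto (fun w' : ℂ => w' + 2 * Real.pi * t * I) (𝓝[{w : ℂ | 0 < w.re}] z)
        (𝓝[{w : ℂ | 0 < w.re}] (z + 2 * Real.pi * t * I)) := by
      refine tendsto_nhdsWithin_iff.2 ⟨?_, ?_⟩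
      · have h5 : Continuous fun w' : ℂ => w' + 2 * Real.pi * t * I := by fun_prop
        exact (h5.tendsto z).mono_left nhdsWithin_le_nhds
      · filter_upwards [self_mem_nhdsWithin] with w' hw'
        show 0 < (w' + 2 * Real.pi * t * I).re
        rw [hre]; exact hw'
    exact h4.eventually h3
  -- size of the rotation number difference
  have hsize : ∀ y : ℝ, 0 < y → y < Real.exp (-(5 * n)) → ∀ θ : ℝ, |θ - t| ≤ y →
      |Circ.nu w n θ - P / Q| ≤ 1 ∧
      4 * (17 * n * √(Q * |Circ.nu w n θ - P / Q|)) ^ 2 * (-Real.log y + Real.pi / 2) <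
        8000 * n ^ 3 * Q := by
    intro y hy hy1 θ hθ
    have h1 := nu_log_abs hn hw.per hθ hy (hy1.le.trans (exp_neg_five_le n))
    rw [one_div, Real.log_inv, ht] at h1
    set x : ℝ := -Real.log y with hx
    have hx5 : 5 * n < x := by
      have h2 := Real.log_lt_log hy hy1
      rw [Real.log_exp] at h2
      linarith
    set d : ℝ := |Circ.nu w n θ - P / Q| with hd
    have hd0 : 0 ≤ d := abs_nonneg _
    have hd1 : d ≤ 1 := by
      by_contra hcon
      push Not at hcon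
      nlinarith
    refine ⟨hd1, ?_⟩
    rw [mul_pow, Real.sq_sqrt (by positivity)]
    have h3 : d * (x + Real.pi / 2) ≤ 6.6 * n := by nlinarith
    calc 4 * ((17 * n) ^ 2 * (Q * d)) * (x + Real.pi / 2)
        = 1156 * (n : ℝ) ^ 2 * Q * (d * (x + Real.pi / 2)) := by ring
      _ ≤ 1156 * (n : ℝ) ^ 2 * Q * (6.6 * n) := by gcongr
      _ < 8000 * (n : ℝ) ^ 3 * Q := by
        have : (0 : ℝ) < n ^ 3 * Q := by positivity
        nlinarith
  refine reflect_bound (u := fun z => vW n w (P / Q) (z + 2 * Real.pi * t * I))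
    (R := Real.exp (-(5 * n))) ?_ ?_ (Real.exp_pos _) ?_ ?_ ?_ hg hg1
  · intro z hz
    have h1 := vW_diff hn hw (P / Q) (ζ := z + 2 * Real.pi * t * I) (by rw [hre]; exact hz)
    exact DifferentiableAt.comp (g := vW n w (P / Q)) (f := fun z => z + 2 * Real.pi * t * I) z h1
      (by fun_prop)
  · intro z hz
    exact vW_norm hn hw _ (by rw [hre]; exact hz)
  · rw [Real.exp_lt_one_iff]
    linarith
  · rw [Real.log_exp]
    nlinarith
  · intro y hy hy1
    have hs : 0 < y / (2 * Real.pi) := by positivity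
    have hsy : y / (2 * Real.pi) ≤ y := by
      rw [div_le_iff₀ (by positivity)]
      have := Real.pi_gt_three
      nlinarith
    have hπ0 : (Real.pi : ℂ) ≠ 0 := by exact_mod_cast hpi.ne'
    rcases hend _ hs with h | h
    · have habs : |t + y / (2 * Real.pi) - t| ≤ y := by
        rw [add_sub_cancel_left, abs_of_pos hs]; exact hsy
      obtain ⟨h1, h2⟩ := hsize y hy hy1 (t + y / (2 * Real.pi)) habs
      refine ⟨_, by positivity, h2, Or.inl ?_⟩
      refine htr _ _ ?_ h h1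
      push_cast
      field_simp
      ring
    · have habs : |t - y / (2 * Real.pi) - t| ≤ y := by
        have h0 : t - y / (2 * Real.pi) - t = -(y / (2 * Real.pi)) := by ring
        rw [h0, abs_neg, abs_of_pos hs]; exact hsy
      obtain ⟨h1, h2⟩ := hsize y hy hy1 (t - y / (2 * Real.pi)) habs
      refine ⟨_, by positivity, h2, Or.inr ?_⟩
      refine htr _ _ ?_ h h1
      push_cast
      field_simp
      ring

/-- **the ray estimate** in terms of the multiplier -/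
theorem ray_mult (hn : 0 < n) {P : ℤ} {Q : ℕ} (hQ : 0 < Q) {t : ℝ}
    (ht : Circ.nu w n t = P / Q)
    (hend : ∀ s > 0, Circ.nu w n (t + s) ≠ P / Q ∨ Circ.nu w n (t - s) ≠ P / Q)
    {c a : ℂ} (hE : ExtP n c a t w) (hg1 : G c c < Real.exp (-(5 * n))) :
    ‖1 - exp (2 * Real.pi * ((P / Q : ℝ) : ℂ) * I) / mult n c a‖ ^ 4 * (-Real.log (G c c)) ≤
      8000 * n ^ 3 * Q := by
  have hw := hE.2.2.2.1
  have h1 := ray_v hn hw hQ ht hend hE.1 hg1
  have hpi := Real.pi_pos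
  have hA : ((G c c : ℂ) + 2 * Real.pi * t * I) =
      ((G c c : ℝ) : ℂ) + ((2 * Real.pi * t : ℝ) : ℂ) * I := by push_cast; ring
  have hre : ((G c c : ℂ) + 2 * Real.pi * t * I).re = G c c := by
    rw [hA, add_re, ofReal_re, re_ofReal_mul, I_re]; ring
  have him : ((G c c : ℂ) + 2 * Real.pi * t * I).im / (2 * Real.pi) = t := by
    rw [hA, add_im, ofReal_im, im_ofReal_mul, I_im]; field_simp; ring
  have h2 : cOf ((G c c : ℂ) + 2 * Real.pi * t * I) = c := by
    refine cOf_unique (Sat.not_mem_MM_iff.2 hE.1) ?_ hE.2.1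
    rw [hre, G_self]
    have := hE.1
    rw [G_self] at this
    linarith
  have h3 := aW_spec hn hw (ζ := (G c c : ℂ) + 2 * Real.pi * t * I) (by rw [hre]; exact hE.1)
  rw [h2, him] at h3
  have h4 := extP_inj hn h3 hE
  rw [vW, rW, h2, h4] at h1
  exact h1

end Pool.Agent.Work.MLC.Pri
end

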