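import Mathlib
import Mathlib.Topology.Baire.Lemmas
import Mathlib.Topology.GDelta.Basic
import Pool.Agent.Work.MLCM.C24
import Pool.Agent.Work.MLCM.C29
import Pool.Agent.Work.MLCM.C31
import Pool.Agent.Work.MLCM.C38
import Pool.Agent.Work.MLCM.C39
import Pool.Agent.Work.MLCM.C40
import Pool.Agent.Work.MLCM.C41
import Pool.Agent.Work.MLCM.C42
import Pool.Agent.Work.MLCM.C43
import Pool.Agent.Work.MLCM.C44
import Pool.Agent.Work.MLCM.C46
import Pool.Agent.Work.MLCM.C47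
import Pool.Agent.Work.MLCM.C48
import Pool.Agent.Work.MLCM.C49
import Pool.Agent.Work.MLCM.C56
import Pool.Agent.Work.MLCM.C57
import Pool.Agent.Work.MLCM.C58
import Pool.Agent.Work.MLCM.C60
import Pool.Agent.Work.MLCM.C61

section
set_option autoImplicit false

/-! # Theorem S: parameters with a multiplier `1` are in the frontier of `MM` (helper26) -/

namespace Pool.Agent.Work.MLC.Sat

open Filter Topology Metric Set Complex

theorem parab_frontier (h3' : S3_neutral) {n : ℕ} (hn : 0 < n) {y : ℂ × ℂ} (hy : y ∈ Per n)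
    (h1 : mul n y = 1) : ∃ᶠ c in 𝓝 y.1, c ∉ MM := by
  rw [frequently_iff]
  intro V hV
  obtain ⟨V', hV'V, hV'o, hV'y⟩ := _root_.mem_nhds_iff.1 hV
  have h2 := One49.near_parabolic hn (c := y.1) (y := y.2) hy h1 (hV'o.mem_nhds hV'y)
  -- a multiplier on the unit circle
  have h3 : Tendsto (fun φ : ℝ => exp (2 * Real.pi * φ * I)) (𝓝[>] 0) (𝓝 1) := by
    have h4 : Continuous fun φ : ℝ => exp (2 * Real.pi * φ * I) := by fun_prop
    have h5 := h4.tendsto 0
    simp only [ofReal_zero, mul_zero, zero_mul, exp_zero] at h5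
    exact h5.mono_left nhdsWithin_le_nhds
  have h4 : ∀ᶠ φ : ℝ in 𝓝[>] 0, φ < 1 := mem_nhdsWithin_of_mem_nhds (gt_mem_nhds one_pos)
  obtain ⟨φ, ⟨c', hc', b, hb, hm⟩, hφ1, hφ0⟩ :=
    ((h3.eventually h2).and (h4.and self_mem_nhdsWithin)).exists
  obtain ⟨-, -, h5⟩ := h3' n (c', b) φ hn hb hφ0 hφ1 hm
  obtain ⟨c'', h6, h7⟩ := (h5.and_eventually (hV'o.mem_nhds hc')).exists
  exact ⟨c'', hV'V h7, h6⟩

/-- **S7'** -/
theorem s7_parab (h3' : S3_neutral) : S7_parab := fun _ _ hn hy h1 _ =>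
  parab_frontier h3' hn hy h1

end Pool.Agent.Work.MLC.Sat
end

section
set_option autoImplicit false

/-! # Uncountably many parameters satisfy the hypothesis of the main theorem (helper6, after
helper13's `NV2`) -/

namespace Pool.Agent.Work.MLC

open Filter Topology Metric Set

/-- `next_root13` with a finite set to avoid -/
theorem next_root_avoid {κ : ℝ} (hI : Inputs κ) {n : ℕ} (hn : 0 < n) {c₁ b₁ : ℂ} (h : Attr n c₁ b₁)
    {F : Set ℂ} (hF : F.Finite) {B : ℝ} (hB : 0 < B) :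
    ∃ (p q : ℕ) (x : ℚ) (σ : ℂ → ℂ × ℂ) (V : Set ℂ), 0 < p ∧ p < q ∧ Nat.Coprime p q ∧
      (x : ℝ) = p / q ∧ x.den = q ∧
      B * (n : ℝ) ^ 2 * q ≤ (min (p : ℝ) (q - p)) ^ 2 ∧
      ContinuousOn σ (ball (axisPt x) (κ * (min (x : ℝ) (1 - x)) ^ 2 / n)) ∧
      (∀ L ∈ ball (axisPt x) (κ * (min (x : ℝ) (1 - x)) ^ 2 / n),
        σ L ∈ Per n ∧ mul n (σ L) = Complex.exp L) ∧
      (σ (axisPt x)).1 ∉ F ∧
      IsPreconnected V ∧ c₁ ∈ V ∧ V ⊆ interior MS ∧
      (∀ L ∈ ball (axisPt x) (κ * (min (x : ℝ) (1 - x)) ^ 2 / n), L.re < 0 → (σ L).1 ∈ V) := by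
  have hκ := hI.κ_pos
  have hn' : (0 : ℝ) < n := by exact_mod_cast hn
  obtain ⟨c₂, b₂, W, hA2, hne0, hWc, hc1W, hc2W, hWM⟩ := h.move hI hn
  have hGL := goodDom_left hn
  have hLconv : Convex ℝ {L : ℂ | L.re < 0} := convex_halfSpace_re_lt 0
  have hlogre : (Complex.log (mul n (c₂, b₂))).re < 0 := by
    rw [Complex.log_re]
    exact Real.log_neg (norm_pos_iff.2 hne0) hA2.2
  obtain ⟨σ₁, hσ₁, hσ₁', hσ₁0⟩ := exists_section hGL hLconv hA2.1 hlogre
    (Complex.exp_log hne0).symm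
  -- the rational numbers
  set x : ℕ → ℚ := fun p => (p : ℚ) / (2 * p + 1) with hx
  set R : ℕ → ℝ := fun p => κ * (min (x p : ℝ) (1 - x p)) ^ 2 / n with hR
  have hx0 : ∀ p, 0 < p → 0 < x p := by
    intro p hp
    have h1 : (0 : ℚ) < p := by exact_mod_cast hp
    simp only [hx]; positivity
  have hx1 : ∀ p, x p < 1 := by
    intro p
    simp only [hx]
    have h1 : (0 : ℚ) ≤ p := by positivity
    rw [div_lt_one (by positivity)]
    linarith
  have hR0 : ∀ p, 0 < p → 0 < R p := by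
    intro p hp
    have h1 : (0 : ℝ) < x p := by exact_mod_cast hx0 p hp
    have h2 : (x p : ℝ) < 1 := by exact_mod_cast hx1 p
    have h3 : 0 < min (x p : ℝ) (1 - x p) := lt_min h1 (by linarith)
    simp only [hR]
    positivity
  have key : ∀ p, 0 < p → ∃ σ : ℂ → ℂ × ℂ, ContinuousOn σ (ball (axisPt (x p)) (R p)) ∧
      (∀ L ∈ ball (axisPt (x p)) (R p), σ L ∈ Per n ∧ mul n (σ L) = Complex.exp L) ∧
      (∀ L ∈ ball (axisPt (x p)) (R p), L.re < 0 → σ₁ L = σ L) := by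
    intro p hp
    have hG : GoodDom n (ball (axisPt (x p)) (R p)) := hI.good n hn (x p) (hx0 p hp) (hx1 p)
    have hRp := hR0 p hp
    set L₂ : ℂ := axisPt (x p) - ((R p / 2 : ℝ) : ℂ) with hL₂
    have hL₂D : L₂ ∈ ball (axisPt (x p)) (R p) := by
      rw [mem_ball, dist_eq_norm, hL₂, sub_sub_cancel_left, norm_neg, Complex.norm_real,
        Real.norm_eq_abs, abs_of_pos (by positivity)]
      linarith
    have hL₂re : L₂.re < 0 := by
      rw [hL₂, Complex.sub_re, LimbData.axisPt_re, Complex.ofReal_re]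
      linarith
    obtain ⟨σ, hσ, hσ', hσ0⟩ := exists_section hG (convex_ball _ _) (hσ₁' L₂ hL₂re).1 hL₂D
      (hσ₁' L₂ hL₂re).2
    refine ⟨σ, hσ, hσ', fun L hL hre => ?_⟩
    have hs : IsPreconnected (ball (axisPt (x p)) (R p) ∩ {L : ℂ | L.re < 0}) :=
      ((convex_ball _ _).inter hLconv).isPreconnected
    exact section_unique hG hσ hσ' hs (g := σ₁) (l := fun L => L)
      (hσ₁.mono inter_subset_right) continuousOn_id
      (fun a ha => ⟨(hσ₁' a ha.2).1, ha.1, (hσ₁' a ha.2).2⟩) (a₀ := L₂) ⟨hL₂D, hL₂re⟩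
      hσ0.symm L ⟨hL, hre⟩
  choose! σ hσ hσ' hσe using key
  -- a good index
  obtain ⟨P, hP⟩ := exists_nat_gt (3 * B * (n : ℝ) ^ 2)
  have hP0 : 0 < P := by
    have : (0 : ℝ) < P := lt_of_le_of_lt (by positivity) hP
    exact_mod_cast this
  obtain ⟨p, hpP, hpr⟩ : ∃ p, P ≤ p ∧ (σ p (axisPt (x p))).1 ∉ F := by
    by_contra hcon
    push Not at hcon
    have hinf : (Set.Ici P).Infinite := Set.Ici_infinite P
    refine hinf ?_
    refine Set.Finite.of_finite_image (f := fun p => Complex.exp (axisPt (x p))) ?_ ?_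
    · refine (hF.biUnion fun r _ => finite_mults hn r).subset ?_
      rintro _ ⟨p, hp, rfl⟩
      have hp0 : 0 < p := lt_of_lt_of_le hP0 hp
      have h1 := hσ' p hp0 (axisPt (x p)) (mem_ball_self (hR0 p hp0))
      have h2 := hcon p hp
      refine mem_iUnion₂.2 ⟨(σ p (axisPt (x p))).1, h2, (σ p (axisPt (x p))).2, ?_, ?_⟩
      · exact h1.1
      · exact h1.2
    · intro p hp p' hp' heq
      have hp0 : 0 < p := lt_of_lt_of_le hP0 hp
      have hp0' : 0 < p' := lt_of_lt_of_le hP0 hp'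
      have h1 := exp_axisPt_inj (hx0 p hp0) (hx1 p) (hx0 p' hp0') (hx1 p') heq
      simp only [hx] at h1
      rw [div_eq_div_iff (by positivity) (by positivity)] at h1
      have h2 : (p : ℚ) = p' := by linarith
      exact_mod_cast h2
  have hp0 : 0 < p := lt_of_lt_of_le hP0 hpP
  have hp' : (0 : ℝ) < p := by exact_mod_cast hp0
  have hcop : Nat.Coprime p (2 * p + 1) := by
    rw [Nat.coprime_iff_gcd_eq_one]
    simp
  refine ⟨p, 2 * p + 1, x p, σ p, W ∪ (fun L => (σ₁ L).1) '' {L : ℂ | L.re < 0}, hp0, by omega,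
    hcop, ?_, ?_, ?_, hσ p hp0, hσ' p hp0, hpr, ?_, Or.inl hc1W, ?_, ?_⟩
  · simp only [hx]; push_cast; rfl
  · have h1 := Rat.den_div_eq_of_coprime (a := (p : ℤ)) (b := ((2 * p + 1 : ℕ) : ℤ)) (by omega)
      (by rw [Int.natAbs_natCast, Int.natAbs_natCast]; exact hcop)
    have h2 : (((p : ℤ) : ℚ) / (((2 * p + 1 : ℕ) : ℤ) : ℚ)) = x p := by
      simp only [hx]; push_cast; rfl
    rw [h2] at h1
    exact_mod_cast h1
  · have h1 : min (p : ℝ) (((2 * p + 1 : ℕ) : ℝ) - p) = p := by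
      apply min_eq_left
      push_cast
      linarith
    rw [h1]
    have h2 : 3 * B * (n : ℝ) ^ 2 ≤ p := hP.le.trans (by exact_mod_cast hpP)
    have h3 : (1 : ℝ) ≤ p := by exact_mod_cast hp0
    push_cast
    have h4 : 0 < B * (n : ℝ) ^ 2 := by positivity
    calc B * (n : ℝ) ^ 2 * (2 * p + 1) ≤ B * (n : ℝ) ^ 2 * (3 * p) := by
          gcongr; linarith
      _ = (3 * B * (n : ℝ) ^ 2) * p := by ring
      _ ≤ p * p := by gcongr
      _ = (p : ℝ) ^ 2 := by ring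
  · refine IsPreconnected.union c₂ hc2W ⟨_, hlogre, ?_⟩ hWc ?_
    · show (σ₁ _).1 = c₂
      rw [hσ₁0]
    · exact hLconv.isPreconnected.image _ (continuous_fst.comp_continuousOn hσ₁)
  · rintro z (hz | ⟨L, hL, rfl⟩)
    · exact hWM hz
    · have h1 := hσ₁' L hL
      have h2 : Attr n (σ₁ L).1 (σ₁ L).2 := by
        refine ⟨h1.1, ?_⟩
        show ‖mul n (σ₁ L)‖ < 1
        rw [h1.2, Complex.norm_exp]
        exact Real.exp_lt_one_iff.2 hL
      exact h2.interior hI hn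
  · intro L hL hre
    right
    refine ⟨L, hre, ?_⟩
    show (σ₁ L).1 = (σ p L).1
    rw [hσe p hp0 L hL hre]

namespace NV

/-- a root next to a stage gives a stage -/
theorem stage_sub {κ : ℝ} (hI : Inputs κ) {n : ℕ} {K : Set ℂ} {r : ℂ} (h : Stage κ n K r)
    {n₁ : ℕ} {c₁ : ℂ} {S : Set ℂ} (hn₁ : 0 < n₁) (hS : IsPreconnected S) (hrS : r ∈ S)
    (hcS : c₁ ∈ S) (hcK : c₁ ∈ K) (hSi : S ⊆ insert r (interior MS))
    {p q : ℕ} {x : ℚ} {σ : ℂ → ℂ × ℂ} {V : Set ℂ} (hp : 0 < p) (hpq : p < q)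
    (hcop : Nat.Coprime p q) (hx : (x : ℝ) = p / q) (hxd : x.den = q)
    (hB : 288 * Real.log 2 / κ * (n₁ : ℝ) ^ 2 * q ≤ (min (p : ℝ) (q - p)) ^ 2)
    (hσ : ContinuousOn σ (ball (axisPt x) (κ * (min (x : ℝ) (1 - x)) ^ 2 / n₁)))
    (hσ' : ∀ L ∈ ball (axisPt x) (κ * (min (x : ℝ) (1 - x)) ^ 2 / n₁),
      σ L ∈ Per n₁ ∧ mul n₁ (σ L) = Complex.exp L)
    (hne : (σ (axisPt x)).1 ≠ r) (hV : IsPreconnected V) (hcV : c₁ ∈ V) (hVi : V ⊆ interior MS)
    (hVL : ∀ L ∈ ball (axisPt x) (κ * (min (x : ℝ) (1 - x)) ^ 2 / n₁), L.re < 0 → (σ L).1 ∈ V) :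
    ∃ K' : Set ℂ, Stage κ n₁ K' (σ (axisPt x)).1 ∧ K' ⊆ K \ {r} ∧
      (∀ U : Set ℂ, IsPreconnected U → U ⊆ MS \ {(σ (axisPt x)).1} → c₁ ∈ U →
        ∀ z ∈ U, z ∉ K') ∧ IsPreconnected (insert (σ (axisPt x)).1 V) := by
  have hκ := hI.κ_pos
  have hlog : 0 < Real.log 2 := Real.log_pos (by norm_num)
  obtain ⟨K', hK', hK'2⟩ := mk_stage hI hn₁ hp hpq hcop hx hxd hB hσ hσ'
  set r' := (σ (axisPt x)).1 with hr'
  have hrM : r ∈ MS := h.sub h.root
  have hr'i : r' ∉ interior MS := hK'.front.2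
  have hri : r ∉ interior MS := h.front.2
  have hVr0 : V ⊆ MS \ {r'} := by
    intro z hz
    refine ⟨interior_subset (hVi hz), fun h0 => hr'i ?_⟩
    rw [← mem_singleton_iff.1 h0]; exact hVi hz
  -- `r ∉ K'`
  have hrK' : r ∉ K' := by
    refine hK'2 (V ∪ S) (IsPreconnected.union c₁ hcV hcS hV hS) ?_ ?_ r (Or.inr hrS)
    · rintro z (hz | hz)
      · exact hVr0 hz
      · rcases hSi hz with h0 | h0
        · rw [h0]
          exact ⟨hrM, fun h1 => hne (mem_singleton_iff.1 h1).symm⟩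
        · refine ⟨interior_subset h0, fun h1 => hr'i ?_⟩
          rw [← mem_singleton_iff.1 h1]; exact h0
    · intro L hL hre
      exact Or.inl (hVL L hL hre)
  -- `r' ∈ closure V`
  set R : ℝ := κ * (min (x : ℝ) (1 - x)) ^ 2 / n₁ with hR
  have hq : 0 < q := hp.trans hpq
  have hq' : (0 : ℝ) < q := by exact_mod_cast hq
  have hp' : (0 : ℝ) < p := by exact_mod_cast hp
  have hpq' : (p : ℝ) < q := by exact_mod_cast hpq
  have hR0 : 0 < R := by
    have h1 : (0 : ℝ) < x := by rw [hx]; positivity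
    have h2 : (x : ℝ) < 1 := by rw [hx, div_lt_one hq']; exact hpq'
    have h3 : 0 < min (x : ℝ) (1 - x) := lt_min h1 (by linarith)
    have h4 : (0 : ℝ) < n₁ := by exact_mod_cast hn₁
    positivity
  have hcen : axisPt x ∈ ball (axisPt x) R := mem_ball_self hR0
  have hr'V : r' ∈ closure V := by
    have hc : ContinuousAt (fun L => (σ L).1) (axisPt x) :=
      continuous_fst.continuousAt.comp (hσ.continuousAt (isOpen_ball.mem_nhds hcen))
    rw [mem_closure_iff_nhds]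
    intro N hN
    have h1 := hc.preimage_mem_nhds hN
    obtain ⟨δ, hδ, hδN⟩ := Metric.mem_nhds_iff.1
      (inter_mem h1 (isOpen_ball.mem_nhds hcen : ball (axisPt x) R ∈ 𝓝 (axisPt x)))
    obtain ⟨L, hLb, hLre⟩ := LimbData.left_nonempty x hδ
    exact ⟨(σ L).1, (hδN hLb).1, hVL L (hδN hLb).2 hLre⟩
  have hVr : IsPreconnected (insert r' V) :=
    hV.subset_closure (subset_insert _ _) (insert_subset hr'V subset_closure)
  have hcr : c₁ ≠ r := fun h0 => hri (h0 ▸ hVi hcV)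
  have h1 : insert r' V ⊆ K := by
    refine conn_sub hI.cpt.isClosed h.cpt.isClosed h.opn hVr ?_ ⟨c₁, Or.inr hcV, hcK⟩
    rintro z (hz | hz)
    · rw [hz]
      exact ⟨hK'.sub hK'.root, fun h0 => hne (mem_singleton_iff.1 h0)⟩
    · refine ⟨interior_subset (hVi hz), fun h0 => hri ?_⟩
      rw [← mem_singleton_iff.1 h0]; exact hVi hz
  have h2 : K' ⊆ K := by
    refine conn_sub hI.cpt.isClosed h.cpt.isClosed h.opn hK'.conn ?_
      ⟨r', hK'.root, h1 (Or.inl rfl)⟩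
    intro z hz
    exact ⟨hK'.sub hz, fun h0 => hrK' (by rw [← mem_singleton_iff.1 h0]; exact hz)⟩
  refine ⟨K', hK', fun z hz => ⟨h2 hz, fun h0 => hrK' (by rw [← mem_singleton_iff.1 h0]; exact hz)⟩,
    fun U hU hUM hcU z hz => ?_, hVr⟩
  exact hK'2 (V ∪ U) (IsPreconnected.union c₁ hcV hcU hV hU)
    (union_subset hVr0 hUM) (fun L hL hre => Or.inl (hVL L hL hre)) z (Or.inr hz)

/-- two disjoint stages below a stage -/
theorem stage_two {κ : ℝ} (hI : Inputs κ) {n : ℕ} {K : Set ℂ} {r : ℂ} (h : Stage κ n K r) :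
    ∃ (n' : ℕ) (K₁ : Set ℂ) (r₁ : ℂ) (K₂ : Set ℂ) (r₂ : ℂ), n < n' ∧ Stage κ n' K₁ r₁ ∧
      Stage κ n' K₂ r₂ ∧ K₁ ⊆ K \ {r} ∧ K₂ ⊆ K \ {r} ∧ Disjoint K₁ K₂ := by
  have hκ := hI.κ_pos
  have hlog : 0 < Real.log 2 := Real.log_pos (by norm_num)
  obtain ⟨n₁, c₁, b₁, S, hnn, hA, hS, hrS, hcS, hcK, hSi⟩ := h.next
  have hn₁ : 0 < n₁ := h.npos.trans hnn
  obtain ⟨p, q, x, σ, V, hp, hpq, hcop, hx, hxd, hB, hσ, hσ', hne, hV, hcV, hVi, hVL⟩ :=
    next_root_avoid hI hn₁ hA (finite_singleton r) (B := 288 * Real.log 2 / κ) (by positivity)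
  obtain ⟨K₁, hK₁, hK₁s, hK₁U, hK₁V⟩ := stage_sub hI h hn₁ hS hrS hcS hcK hSi hp hpq hcop hx hxd hB
    hσ hσ' (fun h0 => hne (mem_singleton_iff.2 h0)) hV hcV hVi hVL
  obtain ⟨p', q', x', σ', V', hp', hpq', hcop', hx', hxd', hB', hσ₂, hσ₂', hne', hV', hcV', hVi',
    hVL'⟩ := next_root_avoid hI hn₁ hA (F := {r, (σ (axisPt x)).1}) (by simp)
      (B := 288 * Real.log 2 / κ) (by positivity)
  have hne1 : (σ' (axisPt x')).1 ≠ r := fun h0 => hne' (by simp [h0])
  have hne2 : (σ' (axisPt x')).1 ≠ (σ (axisPt x)).1 := fun h0 => hne' (by simp [h0])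
  obtain ⟨K₂, hK₂, hK₂s, hK₂U, hK₂V⟩ := stage_sub hI h hn₁ hS hrS hcS hcK hSi hp' hpq' hcop' hx'
    hxd' hB' hσ₂ hσ₂' hne1 hV' hcV' hVi' hVL'
  set r₁ := (σ (axisPt x)).1 with hr₁
  set r₂ := (σ' (axisPt x')).1 with hr₂
  have h1 : r₁ ∉ K₂ := by
    refine hK₂U _ hK₁V ?_ (Or.inr hcV) r₁ (Or.inl rfl)
    rintro z (hz | hz)
    · rw [hz]
      exact ⟨hK₁.sub hK₁.root, fun h0 => hne2 (mem_singleton_iff.1 h0).symm⟩
    · refine ⟨interior_subset (hVi hz), fun h0 => hK₂.front.2 ?_⟩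
      rw [← mem_singleton_iff.1 h0]; exact hVi hz
  have h2 : r₂ ∉ K₁ := by
    refine hK₁U _ hK₂V ?_ (Or.inr hcV') r₂ (Or.inl rfl)
    rintro z (hz | hz)
    · rw [hz]
      exact ⟨hK₂.sub hK₂.root, fun h0 => hne2 (mem_singleton_iff.1 h0)⟩
    · refine ⟨interior_subset (hVi' hz), fun h0 => hK₁.front.2 ?_⟩
      rw [← mem_singleton_iff.1 h0]; exact hVi' hz
  refine ⟨n₁, K₁, r₁, K₂, r₂, hnn, hK₁, hK₂, hK₁s, hK₂s, ?_⟩
  rw [disjoint_iff_inter_eq_empty]
  by_contra hcon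
  obtain ⟨z, hz1, hz2⟩ := nonempty_iff_ne_empty.2 hcon
  refine h1 (conn_sub hI.cpt.isClosed hK₂.cpt.isClosed hK₂.opn hK₁.conn ?_ ⟨z, hz1, hz2⟩ hK₁.root)
  intro w hw
  exact ⟨hK₁.sub hw, fun h0 => h2 (by rw [← mem_singleton_iff.1 h0]; exact hw)⟩

/-- the property of the parameters in the main theorem -/
def Prop6 (κ : ℝ) (c₀ : ℂ) : Prop :=
  ∀ N : ℕ, ∃ (n p q : ℕ) (r b : ℂ), N ≤ n ∧ 0 < n ∧ 0 < p ∧ p < q ∧ Nat.Coprime p q ∧
      it r n b = b ∧ mul n (r, b) = Complex.exp (2 * Real.pi * (p / q) * Complex.I) ∧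
      4 * Real.log 2 * (n : ℝ) ^ 2 * q ≤ κ * (min (p : ℝ) (q - p)) ^ 2 ∧ r ≠ c₀ ∧
      c₀ ∉ connectedComponentIn (MS \ {r}) 0

/-- the intersection of a tower -/
theorem param_of_tower {κ : ℝ} (hI : Inputs κ) {n : ℕ → ℕ} {K : ℕ → Set ℂ} {r : ℕ → ℂ}
    (hs : ∀ m, Stage κ (n m) (K m) (r m)) (hn : ∀ m, n m < n (m + 1))
    (hK : ∀ m, K (m + 1) ⊆ K m \ {r m}) : ∃ c₀ ∈ MS, (∀ m, c₀ ∈ K m) ∧ Prop6 κ c₀ := by
  have hn' : ∀ m, m ≤ n m := by
    intro m
    induction m with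
    | zero => exact Nat.zero_le _
    | succ m ih =>
      have := hn m
      omega
  have hne : (⋂ m, K m).Nonempty := by
    refine IsCompact.nonempty_iInter_of_sequence_nonempty_isCompact_isClosed _ ?_ ?_ ?_ ?_
    · intro m; exact (hK m).trans sdiff_subset
    · intro m; exact ⟨_, (hs m).root⟩
    · exact (hs 0).cpt
    · intro m; exact (hs m).cpt.isClosed
  obtain ⟨c₀, hc₀⟩ := hne
  rw [mem_iInter] at hc₀
  refine ⟨c₀, (hs 0).sub (hc₀ 0), hc₀, fun N => ?_⟩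
  have hst := hs N
  obtain ⟨p, q, b, hp, hpq, hcop, hb, hm, hr⟩ := hst.data
  have hcr : c₀ ∈ K N \ {r N} := hK N (hc₀ (N + 1))
  refine ⟨n N, p, q, r N, b, hn' N, hst.npos, hp, hpq, hcop, hb, hm, hr,
    fun h0 => hcr.2 h0.symm, fun h0 => ?_⟩
  have h1 : connectedComponentIn (MS \ {r N}) 0 ⊆ K N :=
    conn_sub hI.cpt.isClosed hst.cpt.isClosed hst.opn isPreconnected_connectedComponentIn
      (connectedComponentIn_subset _ _) ⟨c₀, h0, hcr.1⟩
  have h0M : (0 : ℂ) ∈ MS := ball_sub_MS (mem_ball_self (by norm_num))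
  have h2 : (0 : ℂ) ∈ MS \ {r N} := by
    refine ⟨h0M, fun h3 => hst.zero ?_⟩
    have h4 : (0 : ℂ) = r N := h3
    rw [h4]; exact hst.root
  exact hst.zero (h1 (mem_connectedComponentIn h2))

end NV

end Pool.Agent.Work.MLC
end

section
set_option autoImplicit false

/-! # Theorem S: assembly (helper60)

Everything is proved: no hypothesis is left. -/

namespace Pool.Agent.Work.MLC.Sat

open Filter Topology Metric Set Complex

/-- the data of a parent point and its child exist (after moving the point along its orbit) -/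
theorem exists_data {m : ℕ} {x : ℚ}
    {r₀ b₀ : ℂ} (hm : 0 < m) (hx0 : 0 < x) (hx1 : x < 1) (hper : (r₀, b₀) ∈ Per m)
    (hprim : ∀ d, 0 < d → d < m → it r₀ d b₀ ≠ b₀)
    (hmul : mul m (r₀, b₀) = exp (axisPt x)) :
    ∃ (D : Dat) (i₀ : ℕ), D.m = m ∧ D.x = x ∧ D.σ D.a = (r₀, it r₀ i₀ b₀) ∧ D.Par ∧ D.Cir := by
  obtain ⟨D, rfl, rfl, hσ, hP⟩ := s0_parent m x r₀ b₀ hm hx0 hx1 hper hprim hmul
  obtain ⟨i₀, u, k, tm, tp, -, hC⟩ := s1_circle D.m D.x D.w D.k₀ hm hx0 hx1 hP.bits hP.wprim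
  refine ⟨⟨D.m, D.x, fun L => ((D.σ L).1, it (D.σ L).1 i₀ (D.σ L).2), fun i => D.w (i + i₀),
    D.k₀, u, k, tm, tp⟩, i₀, rfl, rfl, ?_, s0_shift D i₀ u k tm tp hP, hC _⟩
  show ((D.σ (axisPt D.x)).1, it (D.σ (axisPt D.x)).1 i₀ (D.σ (axisPt D.x)).2) = _
  rw [hσ]

theorem regions_all : S5_regions := s5_regions s5_ply60 s3_neutral

theorem glue_all : S9_glue :=
  s9_glue s6_outer (s9_inner s2_unique s3_closed s3_neutral s7_fatou (s7_parab s3_neutral) s8_side)

theorem root_all : S4_root := s4_root s4_unique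

theorem origin_all : S10_origin := s10_origin s2_width s3_closed s3_neutral root_all

theorem child_all : S13_child := s13_child origin_all s11_deriv

end Pool.Agent.Work.MLC.Sat
end

section
set_option autoImplicit false

/-! # The section of the multiplier over the good disc is univalent (helper60) -/

namespace Pool.Agent.Work.MLC.Sat

open Filter Topology Metric Set Complex

section

variable {n : ℕ} {J : Lab n}

/-- `NJ` is open in the set of periodic pairs -/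
lemma nj_nhds (hn : 0 < n) {y : ℂ × ℂ} (hy : y ∈ NJ n J) :
    ∀ᶠ s in 𝓝 y, s ∈ Per n → s ∈ NJ n J := by
  obtain ⟨h1, h2, h3, h4⟩ := hy
  filter_upwards [FF_nhds_gen hn h1 h2 h3,
    (continuous_mul' n).norm.continuousAt.eventually (lt_mem_nhds h2)] with s h5 h6 h7
  obtain ⟨h8, h9⟩ := h5 h7
  exact ⟨h7, h6, h9, h8.trans h4⟩

/-- near a neutral pair there are exterior parameters -/
lemma ext_of_neutral (hn : 0 < n) {y : ℂ × ℂ} (hy : y ∈ Per n) (h : ‖mul n y‖ = 1) :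
    ∃ᶠ c in 𝓝 y.1, c ∉ MM := by
  by_cases h1 : mul n y = 1
  · exact parab_frontier s3_neutral hn hy h1
  · obtain ⟨φ, h2, h3, h4⟩ := exists_phi h h1
    exact (s3_neutral n y φ hn hy h2 h3 h4).2.2

/-- near a limit of `NJ` over `MM`, with multiplier different from `1`, all repelling pairs are in
`NJ` -/
lemma closure_nj_nhds (hn : 0 < n) {y : ℂ × ℂ} (hM : y.1 ∈ MM) (hcl : y ∈ closure (NJ n J))
    (h1 : mul n y ≠ 1) : ∀ᶠ s in 𝓝 y, s ∈ Per n → 1 < ‖mul n s‖ → s ∈ NJ n J := by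
  obtain ⟨h2, h3⟩ := closure_per hcl
  rcases h3.lt_or_eq with h4 | h4
  · have h5 := s3_closed n J y hn h2 h4 hM hcl
    filter_upwards [nj_nhds hn h5] with s h6 h7 _
    exact h6 h7
  · obtain ⟨φ, h5, h6, h7⟩ := exists_phi h4.symm h1
    obtain ⟨⟨J', hJ'⟩, -, -⟩ := s3_neutral n y φ hn h2 h5 h6 h7
    have hJ : J' = J := by
      obtain ⟨s, h8, h9⟩ := ((mem_closure_iff_frequently.1 hcl).and_eventually hJ').exists
      have h10 := h9 h8.1 h8.2.1
      rw [← h10.2.2.2, h8.2.2.2]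
    subst hJ
    exact hJ'

/-- over a limit of exterior parameters at most one pair is a limit of `NJ` -/
lemma closure_unique (hn : 0 < n) {c z z' : ℂ} (hM : c ∈ MM) (hfr : ∃ᶠ c' in 𝓝 c, c' ∉ MM)
    (h : (c, z) ∈ closure (NJ n J)) (h' : (c, z') ∈ closure (NJ n J)) (h1 : mul n (c, z) ≠ 1)
    (h1' : mul n (c, z') ≠ 1) : z = z' := by
  by_contra hne
  obtain ⟨h2, -⟩ := closure_per h
  obtain ⟨h2', -⟩ := closure_per h'
  obtain ⟨β, hβa, hβ0, hβ⟩ := chart h2 h1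
  obtain ⟨β', hβa', hβ0', hβ'⟩ := chart h2' h1'
  simp only at hβ0 hβ0' hβa hβa'
  have t1 : Tendsto (fun c' => ((c', β c') : ℂ × ℂ)) (𝓝 c) (𝓝 (c, z)) := by
    have := hβa.continuousAt.tendsto
    rw [hβ0] at this
    exact tendsto_id.prodMk_nhds this
  have t1' : Tendsto (fun c' => ((c', β' c') : ℂ × ℂ)) (𝓝 c) (𝓝 (c, z')) := by
    have := hβa'.continuousAt.tendsto
    rw [hβ0'] at this
    exact tendsto_id.prodMk_nhds this
  have e3 : ∀ᶠ c' in 𝓝 c, β c' ≠ β' c' := by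
    have g1 : Tendsto β (𝓝 c) (𝓝 z) := by rw [← hβ0]; exact hβa.continuousAt
    have g1' : Tendsto β' (𝓝 c) (𝓝 z') := by rw [← hβ0']; exact hβa'.continuousAt
    filter_upwards [(g1.sub g1').eventually_ne (sub_ne_zero.2 hne)] with c' h9
    exact sub_ne_zero.1 h9
  obtain ⟨c', k0, k1, k2, k3, k4, k5⟩ := (hfr.and_eventually ((t1.eventually hβ).and
    ((t1'.eventually hβ').and ((t1.eventually (closure_nj_nhds hn hM h h1)).and
      ((t1'.eventually (closure_nj_nhds hn hM h' h1')).and e3))))).exists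
  have p1 : (c', β c') ∈ Per n := k1.2 rfl
  have p1' : (c', β' c') ∈ Per n := k2.2 rfl
  have n1 := k3 p1 (rep13 hn p1 k0)
  have n1' := k4 p1' (rep13 hn p1' k0)
  exact k5 (s2_unique n c' _ _ hn k0 p1 p1' n1.2.2.1 n1'.2.2.1 (by rw [n1.2.2.2, n1'.2.2.2]))

/-- compactness -/
lemma fst_closure {X : Type*} [PseudoMetricSpace X] [ProperSpace X] {T : Set (ℂ × X)}
    (hT : Bornology.IsBounded T) {c : ℂ} (hc : c ∈ closure (Prod.fst '' T)) :
    ∃ x, (c, x) ∈ closure T := by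
  have h1 : IsCompact (closure T) := hT.isCompact_closure
  have h2 := (h1.image continuous_fst).isClosed
  have h3 : closure (Prod.fst '' T) ⊆ Prod.fst '' closure T :=
    closure_minimal (image_mono subset_closure) h2
  obtain ⟨⟨c', x⟩, h4, rfl⟩ := h3 hc
  exact ⟨x, h4⟩

/-- two pairs over one parameter -/
def T2 (n : ℕ) (J : Lab n) (V : Set ℂ) : Set (ℂ × ℂ × ℂ) :=
  {t | t.1 ∈ V ∧ (t.1, t.2.1) ∈ NJ n J ∧ (t.1, t.2.2) ∈ NJ n J ∧ t.2.1 ≠ t.2.2}

/-- one pair -/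
def T1 (n : ℕ) (J : Lab n) (V : Set ℂ) : Set (ℂ × ℂ) := {t | t.1 ∈ V ∧ t ∈ NJ n J}

lemma MM_norm {c : ℂ} (hc : c ∈ MM) : c ∈ closedBall (0 : ℂ) 102 := by
  rw [mem_closedBall_zero_iff]
  have h1 := norm_le_of_G_le (mem_MM_iff_le.1 hc)
  rw [Real.exp_zero] at h1
  linarith

lemma T2_bdd (hn : 0 < n) {V : Set ℂ} (hV : V ⊆ MM) : Bornology.IsBounded (T2 n J V) := by
  refine (((isBounded_closedBall (x := (0 : ℂ)) (r := 102)).prod
    ((isBounded_closedBall (x := (0 : ℂ)) (r := 103)).prod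
      (isBounded_closedBall (x := (0 : ℂ)) (r := 103))))).subset ?_
  rintro ⟨c, z, z'⟩ ⟨h1, h2, h3, -⟩
  have h4 := MM_norm (hV h1)
  have h5 := norm_le_of_per hn h2.1
  have h6 := norm_le_of_per hn h3.1
  have h7 := mem_closedBall_zero_iff.1 h4
  simp only at h5 h6 h7
  exact ⟨h4, mem_closedBall_zero_iff.2 (by simp only; linarith),
    mem_closedBall_zero_iff.2 (by simp only; linarith)⟩

lemma T1_bdd (hn : 0 < n) {V : Set ℂ} (hV : V ⊆ MM) : Bornology.IsBounded (T1 n J V) := by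
  refine ((isBounded_closedBall (x := (0 : ℂ)) (r := 102)).prod
    (isBounded_closedBall (x := (0 : ℂ)) (r := 103))).subset ?_
  rintro ⟨c, z⟩ ⟨h1, h2⟩
  have h4 := MM_norm (hV h1)
  have h5 := norm_le_of_per hn h2.1
  have h7 := mem_closedBall_zero_iff.1 h4
  simp only at h5 h7
  exact ⟨h4, mem_closedBall_zero_iff.2 (by simp only; linarith)⟩

/-- limits of two different pairs are different, unless the multiplier is `1` -/
lemma T2_limit {V : Set ℂ} {c z z' : ℂ} (h : (c, z, z') ∈ closure (T2 n J V)) :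
    (c, z) ∈ closure (NJ n J) ∧ (c, z') ∈ closure (NJ n J) ∧
      (mul n (c, z) ≠ 1 → z ≠ z') := by
  have c1 : Continuous fun t : ℂ × ℂ × ℂ => ((t.1, t.2.1) : ℂ × ℂ) := by fun_prop
  have c2 : Continuous fun t : ℂ × ℂ × ℂ => ((t.1, t.2.2) : ℂ × ℂ) := by fun_prop
  have h1 : (c, z) ∈ closure (NJ n J) :=
    map_mem_closure (f := fun t : ℂ × ℂ × ℂ => ((t.1, t.2.1) : ℂ × ℂ)) c1 h fun t ht => ht.2.1
  have h2 : (c, z') ∈ closure (NJ n J) :=
    map_mem_closure (f := fun t : ℂ × ℂ × ℂ => ((t.1, t.2.2) : ℂ × ℂ)) c2 h fun t ht => ht.2.2.1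
  refine ⟨h1, h2, fun h3 h4 => ?_⟩
  subst h4
  obtain ⟨β, -, -, hβ⟩ := chart (closure_per h1).1 h3
  have t1 := c1.tendsto (c, z, z)
  have t2 := c2.tendsto (c, z, z)
  obtain ⟨t, k1, k2, k3⟩ := ((mem_closure_iff_frequently.1 h).and_eventually
    ((t1.eventually hβ).and (t2.eventually hβ))).exists
  exact k1.2.2.2 ((k2.1 k1.2.1.1).symm.trans (k3.1 k1.2.2.1.1))

lemma nj_of_interior (hn : 0 < n) {y : ℂ × ℂ} {V : Set ℂ} (hV : IsOpen V) (hVM : V ⊆ MM)
    (hy : y.1 ∈ V) (hcl : y ∈ closure (NJ n J)) : y ∈ NJ n J := by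
  obtain ⟨h2, h3⟩ := closure_per hcl
  refine s3_closed n J y hn h2 (lt_of_le_of_ne h3 fun h4 => ?_) (hVM hy) hcl
  obtain ⟨c, h5, h6⟩ := ((ext_of_neutral hn h2 h4.symm).and_eventually (hV.mem_nhds hy)).exists
  exact h5 (hVM h6)

/-- the continuation of a pair in `NJ` -/
lemma nj_cont (hn : 0 < n) {c z : ℂ} (h : (c, z) ∈ NJ n J) :
    ∃ β : ℂ → ℂ, ContinuousAt β c ∧ β c = z ∧ ∀ᶠ c' in 𝓝 c, (c', β c') ∈ NJ n J := by
  have h1 : mul n (c, z) ≠ 1 := by
    intro h0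
    have := h.2.1
    rw [h0] at this
    simp at this
  obtain ⟨β, hβa, hβ0, hβ⟩ := chart h.1 h1
  simp only at hβ0 hβa
  have t1 : Tendsto (fun c' => ((c', β c') : ℂ × ℂ)) (𝓝 c) (𝓝 (c, z)) := by
    have := hβa.continuousAt.tendsto
    rw [hβ0] at this
    exact tendsto_id.prodMk_nhds this
  refine ⟨β, hβa.continuousAt, hβ0, ?_⟩
  filter_upwards [t1.eventually hβ, t1.eventually (nj_nhds hn h)] with c' k1 k2
  exact k2 (k1.2 rfl)

/-- the existence of a pair propagates over open connected subsets of `MM` -/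
theorem propagate1 (hn : 0 < n) {V : Set ℂ} (hV : IsOpen V) (hc : IsPreconnected V) (hVM : V ⊆ MM)
    (hne : (T1 n J V).Nonempty) : V ⊆ Prod.fst '' T1 n J V := by
  refine hc.subset_of_closure_inter_subset ?_ ?_ ?_
  · rw [isOpen_iff_mem_nhds]
    rintro _ ⟨⟨c, z⟩, ⟨h1, h2⟩, rfl⟩
    obtain ⟨β, -, -, h3⟩ := nj_cont hn h2
    filter_upwards [h3, hV.mem_nhds h1] with c' h4 h5
    exact ⟨(c', β c'), ⟨h5, h4⟩, rfl⟩
  · obtain ⟨t, ht⟩ := hne
    exact ⟨t.1, ht.1, t, ht, rfl⟩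
  · rintro c ⟨h1, h2⟩
    obtain ⟨z, hz⟩ := fst_closure (T1_bdd hn hVM) h1
    have h3 : (c, z) ∈ closure (NJ n J) := closure_mono (fun t ht => ht.2) hz
    exact ⟨(c, z), ⟨h2, nj_of_interior hn hV hVM h2 h3⟩, rfl⟩

/-- the existence of two pairs propagates over open connected subsets of `MM` -/
theorem propagate2 (hn : 0 < n) {V : Set ℂ} (hV : IsOpen V) (hc : IsPreconnected V) (hVM : V ⊆ MM)
    (hne : (T2 n J V).Nonempty) : V ⊆ Prod.fst '' T2 n J V := by
  refine hc.subset_of_closure_inter_subset ?_ ?_ ?_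
  · rw [isOpen_iff_mem_nhds]
    rintro _ ⟨⟨c, z, z'⟩, ⟨h1, h2, h2', h2''⟩, rfl⟩
    obtain ⟨β, g1, g2, h3⟩ := nj_cont hn h2
    obtain ⟨β', g1', g2', h3'⟩ := nj_cont hn h2'
    have e3 : ∀ᶠ c' in 𝓝 c, β c' ≠ β' c' := by
      have g3 := g1.tendsto
      have g3' := g1'.tendsto
      rw [g2] at g3
      rw [g2'] at g3'
      filter_upwards [(g3.sub g3').eventually_ne (sub_ne_zero.2 h2'')] with c' h9
      exact sub_ne_zero.1 h9
    filter_upwards [h3, h3', e3, hV.mem_nhds h1] with c' h4 h4' h5 h6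
    exact ⟨(c', β c', β' c'), ⟨h6, h4, h4', h5⟩, rfl⟩
  · obtain ⟨t, ht⟩ := hne
    exact ⟨t.1, ht.1, t, ht, rfl⟩
  · rintro c ⟨h1, h2⟩
    obtain ⟨⟨z, z'⟩, hz⟩ := fst_closure (T2_bdd hn hVM) h1
    obtain ⟨h3, h4, h5⟩ := T2_limit hz
    have h6 := nj_of_interior (y := (c, z)) hn hV hVM h2 h3
    have h7 := nj_of_interior (y := (c, z')) hn hV hVM h2 h4
    refine ⟨(c, z, z'), ⟨h2, h6, h7, h5 fun h0 => ?_⟩, rfl⟩
    have := h6.2.1
    rw [h0] at this
    simp at this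

/-- the frontier of a bounded nonempty open set of the plane is infinite -/
lemma frontier_infinite {V : Set ℂ} (hV : IsOpen V) (hne : V.Nonempty)
    (hb : Bornology.IsBounded V) : (frontier V).Infinite := by
  intro hF
  have h1 : IsConnected (frontier V)ᶜ :=
    hF.countable.isConnected_compl_of_one_lt_rank (by simp)
  have h2 : V ∩ frontier V = ∅ := hV.inter_frontier_eq
  have h3 : (frontier V)ᶜ ⊆ V := by
    refine h1.isPreconnected.subset_of_closure_inter_subset hV ?_ ?_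
    · obtain ⟨x, hx⟩ := hne
      refine ⟨x, fun h4 => ?_, hx⟩
      have : x ∈ V ∩ frontier V := ⟨hx, h4⟩
      rw [h2] at this
      exact this
    · rintro x ⟨h4, h5⟩
      by_contra h6
      apply h5
      rw [hV.frontier_eq]
      exact ⟨h4, h6⟩
  have h4 : (univ : Set ℂ) ⊆ V ∪ frontier V := by
    intro x _
    by_cases h5 : x ∈ frontier V
    · exact Or.inr h5
    · exact Or.inl (h3 h5)
  exact NormedSpace.unbounded_univ ℝ ℂ ((hb.union hF.isBounded).subset h4)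

/-- **a label belongs to at most one pair over each parameter** -/
theorem nj_unique (hn : 0 < n) {c z z' : ℂ} (h : (c, z) ∈ NJ n J) (h' : (c, z') ∈ NJ n J) :
    z = z' := by
  by_cases hM : c ∈ MM
  swap
  · exact s2_unique n c z z' hn hM h.1 h'.1 h.2.2.1 h'.2.2.1 (by rw [h.2.2.2, h'.2.2.2])
  have hne1 : ∀ {c z : ℂ}, (c, z) ∈ NJ n J → mul n (c, z) ≠ 1 := by
    intro c z h h0
    have := h.2.1
    rw [h0] at this
    simp at this
  by_cases hfr : ∃ᶠ c' in 𝓝 c, c' ∉ MM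
  · exact closure_unique hn hM hfr (subset_closure h) (subset_closure h') (hne1 h) (hne1 h')
  by_contra hne
  have hint : c ∈ interior MM := by
    rw [mem_interior_iff_mem_nhds]
    rw [not_frequently] at hfr
    filter_upwards [hfr] with c' h1
    exact not_not.1 h1
  set V := connectedComponentIn (interior MM) c with hV
  have hVo : IsOpen V := isOpen_interior.connectedComponentIn
  have hVc : IsPreconnected V := isPreconnected_connectedComponentIn
  have hVM : V ⊆ MM := (connectedComponentIn_subset _ _).trans interior_subset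
  have hcV : c ∈ V := mem_connectedComponentIn hint
  have h1 := propagate2 hn hVo hVc hVM ⟨(c, z, z'), hcV, h, h', hne⟩
  have hVb : Bornology.IsBounded V := (isBounded_closedBall (x := (0 : ℂ)) (r := 102)).subset
    fun c' hc' => MM_norm (hVM hc')
  obtain ⟨c₁, h2, h3⟩ := (frontier_infinite hVo ⟨c, hcV⟩ hVb).exists_notMem_finite
    (NV.finite_par hn)
  have h4 : c₁ ∈ closure V := frontier_subset_closure h2
  have h5 : c₁ ∈ MM := closure_minimal hVM isClosed_MM h4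
  have h6 : c₁ ∉ V := by
    rw [hVo.frontier_eq] at h2
    exact h2.2
  have h7 : c₁ ∉ interior MM := by
    intro h8
    have h9 : IsOpen (connectedComponentIn (interior MM) c₁) :=
      isOpen_interior.connectedComponentIn
    obtain ⟨c₂, h10, h11⟩ := mem_closure_iff.1 h4 _ h9 (mem_connectedComponentIn h8)
    apply h6
    have h12 := connectedComponentIn_eq h10
    have h13 := connectedComponentIn_eq h11
    rw [hV, h13, ← h12]
    exact mem_connectedComponentIn h8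
  have h8 : ∃ᶠ c' in 𝓝 c₁, c' ∉ MM := by
    by_contra h9
    rw [not_frequently] at h9
    apply h7
    rw [mem_interior_iff_mem_nhds]
    filter_upwards [h9] with c' h10
    exact not_not.1 h10
  obtain ⟨⟨w, w'⟩, hw⟩ := fst_closure (T2_bdd hn hVM) (closure_mono h1 h4)
  obtain ⟨k1, k2, k3⟩ := T2_limit hw
  have k4 : mul n (c₁, w) ≠ 1 := fun h0 => h3 ⟨w, (closure_per k1).1, h0⟩
  have k5 : mul n (c₁, w') ≠ 1 := fun h0 => h3 ⟨w', (closure_per k2).1, h0⟩
  exact k3 k4 (closure_unique hn h5 h8 k1 k2 k4 k5)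

end

section

variable {D : Dat}

/-- the label of the parent -/
noncomputable def J0 (D : Dat) : Lab D.m := lab D.m D.tm D.w

lemma σ_mem_NJ (hP : D.Par) (hC : D.Cir) {L : ℂ} (hL : L ∈ D.B) (hre : 0 < L.re) :
    D.σ L ∈ NJ D.m (J0 D) := by
  obtain ⟨h1, h2⟩ := hP.sec L hL
  obtain ⟨h3, h4⟩ := hP.lab L hL hre
  have h5 : Circ.nu D.w D.m D.tm = D.k₀ + D.x := (hC.plateau D.tm).2 ⟨le_refl _, hC.lt.le⟩
  have hx0 : (0 : ℝ) < D.x := by exact_mod_cast hP.x_pos
  have hx1 : (D.x : ℝ) < 1 := by exact_mod_cast hP.x_lt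
  refine ⟨h1, ?_, h3, h4 D.tm (by rw [h5]; linarith) (by rw [h5]; linarith)⟩
  rw [h2, Complex.norm_exp]
  exact Real.one_lt_exp_iff.2 hre

/-- the multiplier determines the point of the good disc -/
lemma eq_of_exp_eq (hP : D.Par) {L L' : ℂ} (hL : L ∈ D.B) (hL' : L' ∈ D.B)
    (h : exp L = exp L') : L = L' := by
  rw [Complex.exp_eq_exp_iff_exists_int] at h
  obtain ⟨k, hk⟩ := h
  have h1 : ‖L - L'‖ < 2 * Real.pi := by
    have h2 := mem_ball.1 hL
    have h3 := mem_ball.1 hL'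
    rw [dist_eq_norm] at h2 h3
    have h4 : gR D.m D.x ≤ 1 / 4 := by
      unfold gR
      have hm : (1 : ℝ) ≤ D.m := by exact_mod_cast hP.m_pos
      have hx0 : (0 : ℝ) < D.x := by exact_mod_cast hP.x_pos
      have hx1 : (D.x : ℝ) < 1 := by exact_mod_cast hP.x_lt
      have h5 : 0 < min (D.x : ℝ) (1 - D.x) := lt_min hx0 (by linarith)
      have h6 : min (D.x : ℝ) (1 - D.x) ≤ 1 := (min_le_left _ _).trans hx1.le
      have h7 : (min (D.x : ℝ) (1 - D.x)) ^ 2 ≤ 1 := pow_le_one₀ h5.le h6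
      rw [div_le_iff₀ (by linarith)]
      nlinarith
    have h5 : ‖L - L'‖ ≤ ‖L - D.a‖ + ‖L' - D.a‖ := by
      have : L - L' = (L - D.a) - (L' - D.a) := by ring
      rw [this]
      exact norm_sub_le _ _
    linarith [Real.pi_gt_three]
  have h2 : L - L' = k * (2 * Real.pi * I) := by rw [hk]; ring
  rw [h2, norm_mul, norm_mul, norm_mul, Complex.norm_I, mul_one] at h1
  simp only [Complex.norm_intCast, Complex.norm_ofNat, Complex.norm_real, Real.norm_eq_abs,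
    abs_of_pos Real.pi_pos] at h1
  have h3 : |(k : ℝ)| < 1 := by
    by_contra h4
    push Not at h4
    nlinarith [Real.pi_pos]
  have h4 : k = 0 := by
    by_contra h5
    have h6 : (1 : ℝ) ≤ |(k : ℝ)| := by
      have := Int.one_le_abs h5
      exact_mod_cast this
    linarith
  rw [h4] at hk
  simpa using hk

/-- over the attracting half of the good disc no pair has the label of the parent -/
theorem no_nj_left (hP : D.Par) (hC : D.Cir) {L z : ℂ} (hL : L ∈ D.B) (hre : L.re < 0)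
    (hz : (D.c L, z) ∈ NJ D.m (J0 D)) : False := by
  have hm := hP.m_pos
  set B' : Set ℂ := {L | L ∈ D.B ∧ L.re < 0} with hB'
  have hB'o : IsOpen B' := isOpen_B.inter (isOpen_lt continuous_re continuous_const)
  have hB'c : IsPreconnected B' :=
    ((convex_ball _ _).inter (convex_halfSpace_re_lt 0)).isPreconnected
  set V : Set ℂ := D.c '' B' with hV
  have hVo : IsOpen V := by
    rw [isOpen_iff_mem_nhds]
    rintro _ ⟨L', h1, rfl⟩
    rw [← c_map_nhds hP h1.1]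
    exact image_mem_map (hB'o.mem_nhds h1)
  have hVc : IsPreconnected V :=
    hB'c.image _ fun L' h1 => (c_contAt hP h1.1).continuousWithinAt
  have hVM : V ⊆ MM := by
    rintro _ ⟨L', h1, rfl⟩
    by_contra h2
    have := re_pos_of_ext hP h1.1 h2
    linarith [h1.2]
  have hprop := propagate1 (J := J0 D) hm hVo hVc hVM ⟨(D.c L, z), ⟨L, ⟨hL, hre⟩, rfl⟩, hz⟩
  -- a point of the axis
  have hfin := NV.finite_par (m := D.m) hm
  have haB := a_mem_B hP
  have hax : ∃ L₁ ∈ D.B, L₁.re = 0 ∧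
      D.c L₁ ∉ {c : ℂ | ∃ b, it c D.m b = b ∧ Pool.Agent.Work.MLC.mul D.m (c, b) = 1} := by
    have h1 : ∀ᶠ L' in 𝓝[≠] D.a, D.c L' ∉
        {c : ℂ | ∃ b, it c D.m b = b ∧ Pool.Agent.Work.MLC.mul D.m (c, b) = 1} := by
      have h2 : ∀ c₁ ∈ {c : ℂ | ∃ b, it c D.m b = b ∧
          Pool.Agent.Work.MLC.mul D.m (c, b) = 1}, ∀ᶠ L' in 𝓝[≠] D.a, D.c L' ≠ c₁ := by
        intro c₁ _
        exact ((c_diff hP).differentiableAt (isOpen_B.mem_nhds haB)).hasDerivAt.eventually_ne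
          (section_deriv_ne_zero (goodB hP) hP.cont hP.sec haB)
      have h3 := (Filter.eventually_all_finite hfin).2 h2
      filter_upwards [h3] with L' h4 h5
      exact h4 _ h5 rfl
    have h2 : Tendsto (fun s : ℝ => D.a + (s : ℂ) * I) (𝓝[≠] 0) (𝓝[≠] D.a) := by
      refine tendsto_nhdsWithin_of_tendsto_nhds_of_eventually_within _ ?_ ?_
      · have h3 : Continuous fun s : ℝ => D.a + (s : ℂ) * I := by fun_prop
        have h4 := h3.tendsto 0
        simp only [ofReal_zero, zero_mul, add_zero] at h4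
        exact h4.mono_left nhdsWithin_le_nhds
      · filter_upwards [self_mem_nhdsWithin] with s hs h3
        have h4 : (s : ℂ) * I = 0 := by
          have h5 : D.a + (s : ℂ) * I = D.a := h3
          linear_combination h5
        rcases mul_eq_zero.1 h4 with h5 | h5
        · exact hs (by exact_mod_cast h5)
        · exact I_ne_zero h5
    have h3 : ∀ᶠ L' in 𝓝[≠] D.a, L' ∈ D.B :=
      mem_nhdsWithin_of_mem_nhds (isOpen_B.mem_nhds haB)
    obtain ⟨s, h4, h5⟩ := (h2.eventually (h1.and h3)).exists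
    refine ⟨_, h5, ?_, h4⟩
    have h6 : D.a.re = 0 := by
      show (axisPt D.x).re = 0
      exact LimbData.axisPt_re D.x
    simp [h6]
  obtain ⟨L₁, h1, h2, h3⟩ := hax
  -- the sequence
  have h4 : ∀ᶠ s : ℝ in 𝓝[>] 0, L₁ - s ∈ B' := by
    have h5 : Tendsto (fun s : ℝ => L₁ - (s : ℂ)) (𝓝[>] 0) (𝓝 L₁) := by
      have h6 : Continuous fun s : ℝ => L₁ - (s : ℂ) := by fun_prop
      have h7 := h6.tendsto 0
      simp only [ofReal_zero, sub_zero] at h7
      exact h7.mono_left nhdsWithin_le_nhds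
    filter_upwards [h5.eventually (isOpen_B.mem_nhds h1), self_mem_nhdsWithin] with s h6 h7
    refine ⟨h6, ?_⟩
    have : (0 : ℝ) < s := h7
    simp [h2, this]
  obtain ⟨ε, hε, h5⟩ := mem_nhdsGT_iff_exists_Ioo_subset.1 h4
  have hε' : (0 : ℝ) < ε := hε
  set s : ℕ → ℝ := fun k => ε / (k + 2) with hs
  have hs1 : ∀ k, L₁ - (s k : ℂ) ∈ B' := by
    intro k
    apply h5
    have hk : (0 : ℝ) ≤ k := Nat.cast_nonneg k
    refine ⟨by positivity, ?_⟩
    show ε / (k + 2) < ε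
    rw [div_lt_iff₀ (by positivity)]
    nlinarith
  have hs2 : Tendsto (fun k => L₁ - (s k : ℂ)) atTop (𝓝 L₁) := by
    have h6 : Tendsto s atTop (𝓝 0) := by
      have h7 : Tendsto (fun k : ℕ => (k : ℝ) + 2) atTop atTop :=
        tendsto_atTop_add_const_right _ _ tendsto_natCast_atTop_atTop
      exact h7.const_div_atTop ε
    have h7 : Tendsto (fun t : ℝ => L₁ - (t : ℂ)) (𝓝 0) (𝓝 (L₁ - ((0 : ℝ) : ℂ))) :=
      Continuous.tendsto (by fun_prop) 0
    rw [ofReal_zero, sub_zero] at h7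
    exact h7.comp h6
  have hz' : ∀ k, ∃ z', (D.c (L₁ - (s k : ℂ)), z') ∈ T1 D.m (J0 D) V := by
    intro k
    obtain ⟨⟨c', z'⟩, h6, h7⟩ := hprop ⟨_, hs1 k, rfl⟩
    simp only at h7
    subst h7
    exact ⟨z', h6⟩
  choose z' hz' using hz'
  have hcpt : IsCompact (closure (T1 D.m (J0 D) V)) := (T1_bdd hm hVM).isCompact_closure
  obtain ⟨⟨c₁, z₁⟩, h6, φ, h7, h8⟩ := hcpt.tendsto_subseq fun k => subset_closure (hz' k)
  have h9 : c₁ = D.c L₁ := by
    have g1 : Tendsto (fun k => D.c (L₁ - (s (φ k) : ℂ))) atTop (𝓝 (D.c L₁)) :=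
      (c_contAt hP h1).tendsto.comp (hs2.comp h7.tendsto_atTop)
    have g2 : Tendsto (fun k => D.c (L₁ - (s (φ k) : ℂ))) atTop (𝓝 c₁) :=
      (continuous_fst.tendsto _).comp h8
    exact tendsto_nhds_unique g2 g1
  subst h9
  have h10 : (D.c L₁, z₁) ∈ closure (NJ D.m (J0 D)) := closure_mono (fun t ht => ht.2) h6
  have h11 : (D.c L₁, D.b L₁) ∈ closure (NJ D.m (J0 D)) := by
    have g1 : Tendsto (fun t : ℝ => L₁ + (t : ℂ)) (𝓝[>] 0) (𝓝 L₁) := by
      have h6 : Continuous fun s : ℝ => L₁ + (s : ℂ) := by fun_prop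
      have h7 := h6.tendsto 0
      simp only [ofReal_zero, add_zero] at h7
      exact h7.mono_left nhdsWithin_le_nhds
    refine mem_closure_of_tendsto ((σ_contAt hP h1).tendsto.comp g1) ?_
    filter_upwards [g1.eventually (isOpen_B.mem_nhds h1), self_mem_nhdsWithin] with t h6 h7
    refine σ_mem_NJ hP hC h6 ?_
    have : (0 : ℝ) < t := h7
    simp [h2, this]
  have h12 : Pool.Agent.Work.MLC.mul D.m (D.c L₁, z₁) ≠ 1 := fun h0 =>
    h3 ⟨z₁, (closure_per h10).1, h0⟩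
  have h13 : Pool.Agent.Work.MLC.mul D.m (D.c L₁, D.b L₁) ≠ 1 := fun h0 =>
    h3 ⟨D.b L₁, (closure_per h11).1, h0⟩
  have h14 : D.c L₁ ∈ MM := by
    by_contra h0
    have := re_pos_of_ext hP h1 h0
    linarith
  have h15 : ∃ᶠ c' in 𝓝 (D.c L₁), c' ∉ MM := by
    refine ext_of_neutral (y := (D.c L₁, D.b L₁)) hm (hP.sec L₁ h1).1 ?_
    have := (hP.sec L₁ h1).2
    have h16 : Pool.Agent.Work.MLC.mul D.m (D.c L₁, D.b L₁) = exp L₁ := this
    rw [h16, Complex.norm_exp, h2, Real.exp_zero]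
  have h16 : z₁ = D.b L₁ := closure_unique hm h14 h15 h10 h11 h12 h13
  subst h16
  -- contradiction: near the root the pairs are the attracting ones
  obtain ⟨β, -, -, hβ⟩ := chart (closure_per h11).1 h13
  have h17 : Tendsto (fun k => D.σ (L₁ - (s (φ k) : ℂ))) atTop (𝓝 (D.c L₁, D.b L₁)) :=
    (σ_contAt hP h1).tendsto.comp (hs2.comp h7.tendsto_atTop)
  obtain ⟨k, k1, k2⟩ := ((h8.eventually hβ).and (h17.eventually hβ)).exists
  have k3 := k1.1 (hz' (φ k)).2.1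
  have hBk := (hs1 (φ k)).1
  have k4 := k2.1 (hP.sec _ hBk).1
  have k5 : z' (φ k) = D.b (L₁ - (s (φ k) : ℂ)) := by
    have g1 : β (D.c (L₁ - (s (φ k) : ℂ))) = z' (φ k) := k3
    have g2 : β (D.c (L₁ - (s (φ k) : ℂ))) = D.b (L₁ - (s (φ k) : ℂ)) := k4
    exact g1.symm.trans g2
  have k6 := (hz' (φ k)).2.2.1
  rw [k5] at k6
  have k7 : Pool.Agent.Work.MLC.mul D.m (D.c (L₁ - (s (φ k) : ℂ)), D.b (L₁ - (s (φ k) : ℂ))) =
      exp (L₁ - (s (φ k) : ℂ)) := (hP.sec _ hBk).2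
  rw [k7, Complex.norm_exp, Real.one_lt_exp_iff] at k6
  exact absurd (hs1 (φ k)).2 (not_lt.2 k6.le)

/-- **the parameter is univalent on the good disc** -/
theorem c_injOn (hP : D.Par) (hC : D.Cir) : InjOn D.c D.B := by
  have hm := hP.m_pos
  -- off the axis
  have key : ∀ L ∈ D.B, ∀ L' ∈ D.B, L.re ≠ 0 → L'.re ≠ 0 → D.c L = D.c L' → L = L' := by
    intro L hL L' hL' h1 h1' h
    have hs := (hP.sec L hL)
    have hs' := (hP.sec L' hL')
    rcases lt_or_gt_of_ne h1 with h2 | h2 <;> rcases lt_or_gt_of_ne h1' with h2' | h2'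
    · have h3 : ‖Pool.Agent.Work.MLC.mul D.m (D.c L, D.b L)‖ < 1 := by
        have : Pool.Agent.Work.MLC.mul D.m (D.c L, D.b L) = exp L := hs.2
        rw [this, Complex.norm_exp]
        exact Real.exp_lt_one_iff.2 h2
      have h3' : ‖Pool.Agent.Work.MLC.mul D.m (D.c L, D.b L')‖ < 1 := by
        have : Pool.Agent.Work.MLC.mul D.m (D.c L', D.b L') = exp L' := hs'.2
        rw [h, this, Complex.norm_exp]
        exact Real.exp_lt_one_iff.2 h2'
      have h4 : it (D.c L) D.m (D.b L) = D.b L := hs.1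
      have h4' : it (D.c L) D.m (D.b L') = D.b L' := by
        rw [h]; exact hs'.1
      obtain ⟨i, hi⟩ := s7_fatou (D.c L) (D.b L) (D.b L') D.m D.m hm hm h4 h3 h4' h3'
      refine eq_of_exp_eq hP hL hL' ?_
      have h5 : Pool.Agent.Work.MLC.mul D.m (D.c L, D.b L) = exp L := hs.2
      have h6 : Pool.Agent.Work.MLC.mul D.m (D.c L', D.b L') = exp L' := hs'.2
      rw [← h5, ← h6, ← h, hi]
      exact (mul_it' (n := D.m) (c := D.c L) (z := D.b L) h4 i).symm
    · exfalso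
      refine no_nj_left hP hC hL h2 (z := D.b L') ?_
      rw [h]
      exact σ_mem_NJ hP hC hL' h2'
    · exfalso
      refine no_nj_left hP hC hL' h2' (z := D.b L) ?_
      rw [← h]
      exact σ_mem_NJ hP hC hL h2
    · have h3 : (D.c L, D.b L) ∈ NJ D.m (J0 D) := σ_mem_NJ hP hC hL h2
      have h3' : (D.c L, D.b L') ∈ NJ D.m (J0 D) := by
        rw [h]; exact σ_mem_NJ hP hC hL' h2'
      have h4 := nj_unique hm h3 h3'
      refine eq_of_exp_eq hP hL hL' ?_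
      have h5 : Pool.Agent.Work.MLC.mul D.m (D.c L, D.b L) = exp L := hs.2
      have h6 : Pool.Agent.Work.MLC.mul D.m (D.c L', D.b L') = exp L' := hs'.2
      rw [← h5, ← h6, ← h, h4]
  -- perturbation
  have hne : ∀ L : ℂ, ∃ᶠ L' in 𝓝 L, L'.re ≠ 0 := by
    intro L
    have h1 : Tendsto (fun t : ℝ => L + (t : ℂ)) (𝓝[≠] 0) (𝓝 L) := by
      have h6 : Continuous fun s : ℝ => L + (s : ℂ) := by fun_prop
      have h7 := h6.tendsto 0
      simp only [ofReal_zero, add_zero] at h7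
      exact h7.mono_left nhdsWithin_le_nhds
    refine h1.frequently (Eventually.frequently ?_)
    by_cases h0 : L.re = 0
    · filter_upwards [self_mem_nhdsWithin] with t ht
      simpa [h0] using ht
    · have h2 : ∀ᶠ t : ℝ in 𝓝[≠] 0, t ≠ -L.re :=
        mem_nhdsWithin_of_mem_nhds (isOpen_ne.mem_nhds (by
          intro h3
          exact h0 (by linarith)))
      filter_upwards [h2] with t ht h3
      apply ht
      simp at h3
      linarith
  intro L hL L' hL' h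
  by_contra hLL
  obtain ⟨N, N', hN, hN', hLN, hLN', hd⟩ := t2_separation hLL
  have o1 : IsOpen (N ∩ D.B) := hN.inter isOpen_B
  have o1' : IsOpen (N' ∩ D.B) := hN'.inter isOpen_B
  have hne' : IsOpen {L : ℂ | L.re ≠ 0} := isOpen_ne_fun continuous_re continuous_const
  have g1 : D.c '' (N' ∩ D.B) ∈ 𝓝 (D.c L) := by
    rw [h, ← c_map_nhds hP hL']
    exact image_mem_map (o1'.mem_nhds ⟨hLN', hL'⟩)
  have e1 : ∀ᶠ x in 𝓝 L, x ∈ N ∩ D.B := o1.mem_nhds ⟨hLN, hL⟩
  have e2 : ∀ᶠ x in 𝓝 L, D.c x ∈ D.c '' (N' ∩ D.B) := (c_contAt hP hL) g1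
  obtain ⟨L₁, a1, a2, a3⟩ := ((hne L).and_eventually (e1.and e2)).exists
  obtain ⟨L₁', a4, a5⟩ := a3
  have g2 : D.c '' ((N ∩ D.B) ∩ {L : ℂ | L.re ≠ 0}) ∈ 𝓝 (D.c L₁') := by
    rw [a5, ← c_map_nhds hP a2.2]
    exact image_mem_map ((o1.inter hne').mem_nhds ⟨a2, a1⟩)
  have e3 : ∀ᶠ x in 𝓝 L₁', x ∈ N' ∩ D.B := o1'.mem_nhds a4
  have e4 : ∀ᶠ x in 𝓝 L₁', D.c x ∈ D.c '' ((N ∩ D.B) ∩ {L : ℂ | L.re ≠ 0}) :=
    (c_contAt hP a4.2) g2
  obtain ⟨L₂', b1, b2, b3⟩ := ((hne L₁').and_eventually (e3.and e4)).exists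
  obtain ⟨L₂, ⟨b4, b5⟩, b6⟩ := b3
  have b7 := key L₂ b4.2 L₂' b2.2 b5 b1 b6
  rw [← b7] at b2
  exact (Set.disjoint_left.1 hd) b4.1 b2.1

end

end Pool.Agent.Work.MLC.Sat
end

section
set_option autoImplicit false

/-! # Theorem N (square mean of the limbs): definitions and interface (manager: helper50)

For a finite set `F` of roots of level `≤ N` (the root `r` has a point of exact period `m` and
multiplier `exp (2 π i p / q)`, `m q ≤ N`), none of which separates another one from `0` in the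
Mandelbrot set, the sum of the squares of the diameters of the limbs is at most `C N ^ A`.

`D : Dat` is the data of a root (`Sat0`), `D.a = 2 π i x` its point in the coordinate `L` of the
parent, `[D.tm, D.tp]` its plateau (in turns), `cOf` the inverse of the Riemann map of the exterior
of `MM` in the logarithmic coordinate. -/

namespace Pool.Agent.Work.MLC.Cnt

open Filter Topology Metric Set Complex MeasureTheory
open Pool.Agent.Work.MLC.Sat

/-- the root -/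
noncomputable def rt (D : Dat) : ℂ := D.c D.a

/-- the label of the parent -/
noncomputable def JP (D : Dat) : Lab D.m := lab D.m D.tm D.w

/-- the limb of `D`, without the root: the parameters of `MM` over which the ray `tm` lands at a
point with the label of the parent -/
def Lm (D : Dat) : Set ℂ :=
  {c | c ∈ MM ∧ ∃ b, (c, b) ∈ NJ D.m (JP D) ∧ Land D.m c b D.tm D.x.den}

/-- the limb, topologically: the points of `MM` which are separated from `0` by `r` -/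
def Sep (r : ℂ) : Set ℂ := {z | z ∈ MM ∧ z ≠ r ∧ z ∉ connectedComponentIn (MM \ {r}) 0}

/-- the radius of the gate -/
noncomputable def sG (D : Dat) : ℝ := gR D.m D.x / 8

/-- the inner half of the gate (in the component of the parent) -/
noncomputable def Half (D : Dat) : Set ℂ := D.c '' {L | L ∈ ball D.a (sG D) ∧ L.re < 0}

/-- neighbourhood of the curve `Ray s`, roof, `Ray t` in the logarithmic coordinate (`s`, `t` in
turns) -/
def Box (s t : ℝ) : Set ℂ :=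
  {z | 0 < z.re ∧ z.re < 2 * (t - s) ∧ 2 * Real.pi * s - z.re / 4 < z.im ∧
    z.im < 2 * Real.pi * t + z.re / 4 ∧
    (z.im < 2 * Real.pi * s + z.re / 4 ∨ 2 * Real.pi * t - z.re / 4 < z.im ∨ (t - s) / 2 < z.re)}

/-- the part of the parameter ray `t` between the potentials `g` and `h` -/
noncomputable def RaySeg (t g h : ℝ) : Set ℂ :=
  (fun u : ℝ => cOf ((u : ℂ) + 2 * Real.pi * t * I)) '' Icc g h

/-! ## The modules: statements -/

/-- N2 (helper15): the ends of the two rays are in the gate (and they land at the root) -/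
def N2_ray : Prop := ∀ D : Dat, D.Par → D.Cir → ∀ s g : ℝ, 0 < s → s ≤ sG D → 0 < g →
  130000 * (D.m : ℝ) ^ 3 * D.x.den ≤ s ^ 4 * (-Real.log g) →
  cOf ((g : ℂ) + 2 * Real.pi * D.tm * I) ∈ D.c '' closedBall D.a s ∧
  cOf ((g : ℂ) + 2 * Real.pi * D.tp * I) ∈ D.c '' closedBall D.a s

/-- N4 (helper54): two roots of the same period with denominators at least `3` are not nested -/
def N4_anti : Prop := ∀ D D' : Dat, D.Par → D.Cir → D'.Par → D'.Cir → D.m = D'.m →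
  3 ≤ D.x.den → 3 ≤ D'.x.den →
  (∃ (θ : ℝ) (k : ℤ), D.tm < θ ∧ θ < D.tp ∧ D'.tm < θ + k ∧ θ + k < D'.tp) → rt D = rt D'

/-- N5a (helper60): near a point of the limb -/
def N5_open : Prop := ∀ D : Dat, D.Par → D.Cir → ∀ c ∈ Lm D, ∀ᶠ c' in 𝓝 c,
  (c' ∈ MM → c' ∈ Lm D) ∧ ∀ θ, Ang c' θ → ∃ k : ℤ, D.tm < θ + k ∧ θ + k < D.tp

/-- N5b (helper60): limits of the wake -/
def N5_closed : Prop := ∀ D : Dat, D.Par → D.Cir → ∀ c ∈ MM, c ∈ closure (Lm D ∪
  {c' | ∃ θ, Ang c' θ ∧ D.tm ≤ θ ∧ θ ≤ D.tp}) → c ∈ Lm D ∨ c = rt D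

/-- N6 (helper24): the limb is the part of `MM` separated from `0` by the root -/
def N6_sep : Prop := ∀ D : Dat, D.Par → D.Cir → Sep (rt D) = Lm D

end Pool.Agent.Work.MLC.Cnt
end

section
set_option autoImplicit false

/-! # Theorem N, module N3b: the inner halves of two gates are disjoint (helper13) -/

namespace Pool.Agent.Work.MLC.Cnt

open Filter Topology Metric Set Complex MeasureTheory
open Pool.Agent.Work.MLC.Sat

/-- the left half of the good disc -/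
def LB (D : Dat) : Set ℂ := {L | L ∈ D.B ∧ L.re < 0}

lemma sG_le {D : Dat} (hP : D.Par) : sG D ≤ gR D.m D.x := by
  have hR : 0 < gR D.m D.x := (sR_pos hP).trans_le (sR_le_gR hP)
  unfold sG; linarith

lemma Half_sub {D : Dat} (hP : D.Par) : Half D ⊆ D.c '' LB D := by
  rintro _ ⟨L, ⟨h1, h2⟩, rfl⟩
  exact ⟨L, ⟨ball_subset_ball (sG_le hP) h1, h2⟩, rfl⟩

/-- the pairs over the left half of the good disc are attracting -/
lemma att_LB {D : Dat} (hP : D.Par) {L : ℂ} (hL : L ∈ LB D) : D.σ L ∈ Hyp.Att D.m := by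
  obtain ⟨h1, h2⟩ := hP.sec L hL.1
  refine ⟨h1, hP.prim L hL.1, ?_⟩
  rw [h2, Complex.norm_exp]
  exact Real.exp_lt_one_iff.2 hL.2

end Pool.Agent.Work.MLC.Cnt
end

section
set_option autoImplicit false

/-! # Theorem N, module N3a: the size of the gate (helper70) -/

namespace Pool.Agent.Work.MLC.Cnt

open Filter Topology Metric Set Complex MeasureTheory
open Pool.Agent.Work.MLC.Sat

/-- the Mandelbrot set is contained in the disc of radius `4` -/
lemma norm_MM_le_four {c : ℂ} (hc : c ∈ MM) : ‖c‖ ≤ 4 := by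
  have h1 := norm_it_le_of_G_zero (mem_M_iff.1 hc) 2
  have h2 : it c 2 0 = c ^ 2 + c := by
    rw [it_succ, it_one, f_apply, f_apply]; ring
  rw [h2] at h1
  have h3 : ‖c‖ ^ 2 ≤ ‖c ^ 2 + c‖ + ‖c‖ := by
    rw [← norm_pow]
    calc ‖c ^ 2‖ = ‖(c ^ 2 + c) - c‖ := by ring_nf
      _ ≤ _ := norm_sub_le _ _
  nlinarith [norm_nonneg c]

/-- the inner half of the gate is in `MM` -/
lemma Half_sub_MM {D : Dat} (hP : D.Par) : Half D ⊆ MM := by
  rintro _ ⟨L, ⟨h1, h2⟩, rfl⟩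
  by_contra h3
  have hR : 0 < gR D.m D.x := (sR_pos hP).trans_le (sR_le_gR hP)
  have h4 : L ∈ D.B := by
    refine ball_subset_ball ?_ h1
    unfold sG; linarith
  have h5 := Sat.re_pos_of_ext hP h4 h3
  linarith

end Pool.Agent.Work.MLC.Cnt
end

section
set_option autoImplicit false

/-! # Theorem QE, module CAP: covers of small energy (helper90) -/

namespace Pool.Agent.Work.MLC.Shp

open Filter Topology Metric Set MeasureTheory
open scoped ENNReal

/-- binary logarithm of the inverse -/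
noncomputable def lg (g : ℝ) : ℝ := Real.logb 2 (1 / g)

end Pool.Agent.Work.MLC.Shp
end

section
set_option autoImplicit false

/-! # Reduction to the exact period, and the final statements for all components (helper6) -/

namespace Pool.Agent.Work.MLC

open Filter Topology Metric Set

lemma mul_pow_of_per {g k : ℕ} {x : ℂ × ℂ} (hx : x ∈ Per g) : mul (g * k) x = mul g x ^ k := by
  induction k with
  | zero => simp [mul]
  | succ k ih =>
    have h2 : mul (g * k + g) x = mul (g * k) x * mul g x := by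
      unfold mul
      rw [Finset.prod_range_add]
      congr 1
      refine Finset.prod_congr rfl fun i _ => ?_
      have h3 : it x.1 (g * k + i) x.2 = it x.1 i x.2 := by
        rw [add_comm]
        exact Sat.it_mul_per hx i k
      rw [h3]
    have h1 : g * (k + 1) = g * k + g := by ring
    rw [h1, h2, ih, pow_succ]

/-- reduction to the exact period -/
theorem exact_level {n p q : ℕ} {r b : ℂ} (hn : 0 < n) (hp : 0 < p) (hpq : p < q)
    (hcop : Nat.Coprime p q) (hb : it r n b = b)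
    (hm : mul n (r, b) = Complex.exp (2 * Real.pi * (p / q) * Complex.I)) :
    ∃ m p' q' : ℕ, PerN m r b ∧ m ≤ n ∧ 0 < p' ∧ p' < q' ∧ Nat.Coprime p' q' ∧ q ≤ q' ∧
      mult m r b = Complex.exp (2 * Real.pi * (p' / q' : ℂ) * Complex.I) := by
  have hq : 0 < q := hp.trans hpq
  have hper : Function.IsPeriodicPt (f r) n b := hb
  set m := Function.minimalPeriod (f r) b with hmdef
  have hm0 : 0 < m := hper.minimalPeriod_pos hn
  obtain ⟨k, hk⟩ := hper.minimalPeriod_dvd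
  have hmn : m ≤ n := hper.minimalPeriod_le hn
  have hPer : PerN m r b := ⟨hm0, rfl⟩
  set w : ℂ := mul m (r, b) with hw
  have hwk : w ^ k = Complex.exp (2 * Real.pi * Complex.I * (p / q)) := by
    have h1 := mul_pow_of_per (k := k) (show ((r, b) : ℂ × ℂ) ∈ Per m from Sat.perN_it hPer)
    rw [← hw] at h1
    rw [← h1, ← hk, hm]
    congr 1
    ring
  have hprim := Complex.isPrimitiveRoot_exp_of_coprime p q hq.ne' hcop
  rw [← hwk] at hprim
  have hq2 : 1 < q := by omega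
  have hfin : IsOfFinOrder w := by
    have h1 : w ^ (k * q) = 1 := by rw [pow_mul]; exact hprim.pow_eq_one
    have hk0 : 0 < k := by
      rcases Nat.eq_zero_or_pos k with h | h
      · rw [h] at hk; omega
      · exact h
    exact isOfFinOrder_iff_pow_eq_one.2 ⟨k * q, Nat.mul_pos hk0 hq, h1⟩
  set q' := orderOf w with hq'
  have hq'0 : 0 < q' := hfin.orderOf_pos
  have hdvd : q ∣ q' := by
    rw [hprim.eq_orderOf]
    exact orderOf_pow_dvd k
  have hle : q ≤ q' := Nat.le_of_dvd hq'0 hdvd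
  obtain ⟨i, hi, hco, hexp⟩ := (Complex.isPrimitiveRoot_iff w q' hq'0.ne').1
    (IsPrimitiveRoot.orderOf w)
  have hi0 : 0 < i := by
    rcases Nat.eq_zero_or_pos i with h | h
    · subst h
      rw [Nat.coprime_zero_left] at hco
      omega
    · exact h
  refine ⟨m, i, q', hPer, hmn, hi0, hi, hco, hle, ?_⟩
  show w = _
  rw [← hexp]
  congr 1
  ring

section

variable {C₀ : ℝ} {k : ℕ}

/-- **the limb bound without `p`** -/
theorem root_bound' (hC₀ : 2 ≤ C₀) (hRP : RootPiece fun n => 1 / (C₀ * n ^ k)) {n p q : ℕ}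
    {r b : ℂ} (hn : 0 < n) (hp : 0 < p) (hpq : p < q) (hcop : Nat.Coprime p q)
    (hb : it r n b = b)
    (hm : mul n (r, b) = Complex.exp (2 * Real.pi * (p / q) * Complex.I)) :
    Piece r (2000 * C₀ ^ 2 * (n ^ (2 * k + 2) / q)) ∧
    (∀ z ∈ MS \ connectedComponentIn (MS \ {r}) 0,
      dist z r ≤ 2000 * C₀ ^ 2 * (n ^ (2 * k + 2) / q)) := by
  obtain ⟨m, p', q', hPer, hmn, hp', hpq', hcop', hqq, hmul⟩ := exact_level hn hp hpq hcop hb hm
  have h1 := root_bound hC₀ hRP hPer hp' hpq' hcop' hmul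
  have hq : 0 < q := hp.trans hpq
  have hle : 2000 * C₀ ^ 2 * ((m : ℝ) ^ (2 * k + 2) / q') ≤
      2000 * C₀ ^ 2 * (n ^ (2 * k + 2) / q) := by
    have h2 : (0 : ℝ) < q := by exact_mod_cast hq
    gcongr
  exact ⟨h1.1.mono hle, fun z hz => (h1.2 z hz).trans hle⟩

/-- smallness at large levels, exact period -/
theorem root_small (hC₀ : 2 ≤ C₀) (hRP : RootPiece fun n => 1 / (C₀ * n ^ k)) {ε : ℝ}
    (hε : 0 < ε) : ∃ N : ℕ, ∀ (n p q : ℕ) (r b : ℂ), N ≤ n → PerN n r b → 0 < p → p < q →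
    Nat.Coprime p q → mult n r b = Complex.exp (2 * Real.pi * (p / q : ℂ) * Complex.I) →
    480 * C₀ ^ 2 * (n : ℝ) ^ (2 * k + 2) ≤ q → Piece r ε := by
  obtain ⟨e, he, hT⟩ := LimbData.small inputs34.cpt hε
  obtain ⟨N₁, hN₁⟩ := exists_nat_gt (1 / e)
  obtain ⟨N₂, hN₂⟩ := small_A hε
  refine ⟨max N₁ N₂, fun n p q r b hNn hper hp hpq hcop hmul hsm => ?_⟩
  have hlog : 0 < Real.log 2 := Real.log_pos (by norm_num)
  have hlog2 : Real.log 2 < 0.6931471808 := Real.log_two_lt_d9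
  have hn : 0 < n := hper.1
  have hb : it r n b = b := Sat.perN_it hper
  have hmul' : mul n (r, b) = Complex.exp (2 * Real.pi * (p / q) * Complex.I) := hmul
  have hq : 0 < q := hp.trans hpq
  have hq' : (0 : ℝ) < q := by exact_mod_cast hq
  have hn' : (0 : ℝ) < n := by exact_mod_cast hn
  have hn1 : (1 : ℝ) ≤ n := by exact_mod_cast hn
  have hC0 : 0 < C₀ := by linarith
  have hnk : (1 : ℝ) ≤ n ^ k := one_le_pow₀ hn1
  have hp' : (0 : ℝ) < p := by exact_mod_cast hp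
  have hpq' : (p : ℝ) < q := by exact_mod_cast hpq
  have hδ0 : 0 < 1 / (C₀ * (n : ℝ) ^ k) := by positivity
  have hδ1 : 1 / (C₀ * (n : ℝ) ^ k) ≤ 1 / 2 := by
    apply one_div_le_one_div_of_le (by norm_num)
    nlinarith
  rcases lt_or_ge (1 / (C₀ * (n : ℝ) ^ k)) (2 * Real.pi * (min (p : ℝ) (q - p) / q)) with ht | ht
  · refine hN₂ n p q r b ((le_max_right _ _).trans hNn) hn hp hpq hcop hb hmul' ?_
    have h1 := far_ineq' hC0 hn hp hpq ht
    have hm0 : 0 < min (p : ℝ) (q - p) := lt_min hp' (by linarith)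
    have h2 : 40 * C₀ ^ 2 * ((n : ℝ) ^ (2 * k + 2) / q) ≤ 1 / 12 := by
      rw [← mul_div_assoc, div_le_iff₀ hq']
      linarith
    have h3 := h1.trans h2
    rw [div_le_iff₀ (by positivity)] at h3
    have h4 : (0 : ℝ) ≤ (n : ℝ) ^ 2 * q := by positivity
    have h5 : (0 : ℝ) ≤ (min (p : ℝ) (q - p)) ^ 2 := by positivity
    nlinarith
  · obtain ⟨x, g, T, hx, hden, hL, hgr, hgd, hg4, hgper⟩ := hRP n p q r b hper hp hpq hcop hmul ht
    have hA0 : 0 < 2 * n * Real.log 2 / x.den := by rw [hden]; positivity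
    have hAR : 2 * (2 * n * Real.log 2 / x.den) ≤ 1 / (C₀ * (n : ℝ) ^ k) := by
      rw [hden, ← mul_div_assoc, div_le_div_iff₀ hq' (by positivity)]
      have h4 : (n : ℝ) ^ (k + 1) ≤ n ^ (2 * k + 2) := pow_le_pow_right₀ hn1 (by omega)
      have hC2 : C₀ ≤ C₀ ^ 2 := by nlinarith
      have h0 : (0 : ℝ) < n ^ (2 * k + 2) := by positivity
      calc 2 * (2 * n * Real.log 2) * (C₀ * n ^ k) = 4 * Real.log 2 * C₀ * n ^ (k + 1) := by ring
        _ ≤ 4 * 1 * C₀ ^ 2 * n ^ (2 * k + 2) := by gcongr; linarith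
        _ ≤ 480 * C₀ ^ 2 * n ^ (2 * k + 2) := by nlinarith [mul_pos (pow_pos hC0 2) h0]
        _ ≤ 1 * q := by linarith
    have hRn : 2 * (1 / (C₀ * (n : ℝ) ^ k)) / n ≤ e := by
      have h1 : 1 / e < n := hN₁.trans_le (by exact_mod_cast (le_max_left _ _).trans hNn)
      have h2 : 1 < n * e := by rwa [div_lt_iff₀ he] at h1
      rw [div_le_iff₀ hn']
      linarith
    have hK := hT x _ _ g T hL hAR hgd hg4 (fun ℓ hℓ => by
      by_cases h0 : ℓ = 0
      · have h1 : g ℓ ∈ MS := hL.left ℓ hℓ (by rw [h0]; simp)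
        have h2 : G (g ℓ) (g ℓ) = 0 := by
          rw [G_c_eq, mem_M_iff.1 h1, mul_zero]
        rw [h2]; exact he.le
      · obtain ⟨z, h3, h4⟩ := hgper ℓ hℓ h0
        exact (green_le hn h3 h4 hδ0.le (re_lt_of_ball hℓ).le).trans hRn)
    rw [hgr] at hK
    exact Piece.of_limb hL (by linarith) hgr hK

/-- smallness at large levels -/
theorem root_small' (hC₀ : 2 ≤ C₀) (hRP : RootPiece fun n => 1 / (C₀ * n ^ k)) {ε : ℝ}
    (hε : 0 < ε) : ∃ N : ℕ, ∀ (n p q : ℕ) (r b : ℂ), N ≤ n → 0 < n → 0 < p → p < q →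
    Nat.Coprime p q → it r n b = b →
    mul n (r, b) = Complex.exp (2 * Real.pi * (p / q) * Complex.I) →
    480 * C₀ ^ 2 * (n : ℝ) ^ (2 * k + 2) ≤ q → Piece r ε := by
  obtain ⟨N₁, hN₁⟩ := root_small hC₀ hRP hε
  obtain ⟨N₂, hN₂⟩ := exists_nat_gt (2000 * C₀ ^ 2 * (N₁ : ℝ) ^ (2 * k + 2) / ε)
  refine ⟨N₂, fun n p q r b hNn hn hp hpq hcop hb hm hsm => ?_⟩
  obtain ⟨m, p', q', hPer, hmn, hp', hpq', hcop', hqq, hmul⟩ := exact_level hn hp hpq hcop hb hm
  have hq : 0 < q := hp.trans hpq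
  have hq0 : (0 : ℝ) < q := by exact_mod_cast hq
  have hqq' : (q : ℝ) ≤ q' := by exact_mod_cast hqq
  have hmn' : (m : ℝ) ≤ n := by exact_mod_cast hmn
  have hn1 : (1 : ℝ) ≤ n := by exact_mod_cast hn
  have hC0 : 0 < C₀ := by linarith
  rcases le_or_gt N₁ m with h1 | h1
  · refine hN₁ m p' q' r b h1 hPer hp' hpq' hcop' hmul ?_
    calc 480 * C₀ ^ 2 * (m : ℝ) ^ (2 * k + 2) ≤ 480 * C₀ ^ 2 * (n : ℝ) ^ (2 * k + 2) := by gcongr
      _ ≤ (q : ℝ) := hsm
      _ ≤ (q' : ℝ) := hqq'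
  · refine (root_bound hC₀ hRP hPer hp' hpq' hcop' hmul).1.mono ?_
    have h2 : (m : ℝ) ≤ N₁ := by exact_mod_cast h1.le
    have h3 : (n : ℝ) ≤ q := by
      have h4 : (n : ℝ) ≤ n ^ (2 * k + 2) := by
        calc (n : ℝ) = n ^ 1 := (pow_one _).symm
          _ ≤ n ^ (2 * k + 2) := pow_le_pow_right₀ hn1 (by omega)
      have h5 : (1 : ℝ) ≤ 480 * C₀ ^ 2 := by nlinarith
      have h6 : (0 : ℝ) < (n : ℝ) ^ (2 * k + 2) := by positivity
      nlinarith
    have h4 : (N₂ : ℝ) ≤ n := by exact_mod_cast hNn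
    have h5 : 2000 * C₀ ^ 2 * (N₁ : ℝ) ^ (2 * k + 2) / ε < q' := by linarith
    rw [div_lt_iff₀ hε] at h5
    have hq'0 : (0 : ℝ) < q' := hq0.trans_le hqq'
    rw [← mul_div_assoc, div_le_iff₀ hq'0]
    calc 2000 * C₀ ^ 2 * (m : ℝ) ^ (2 * k + 2) ≤ 2000 * C₀ ^ 2 * (N₁ : ℝ) ^ (2 * k + 2) := by gcongr
      _ ≤ ε * q' := by linarith

end

end Pool.Agent.Work.MLC
end

section
set_option autoImplicit false

/-! # Neighbourhood bases consisting of limbs (helper6) -/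

namespace Pool.Agent.Work.MLC

open Filter Topology Metric Set NV

/-- a small piece which contains `c₀`, as the complement of the component of `0` -/
theorem piece_of_lvl (hMc : IsClosed MS) (hconn : IsPreconnected MS) {c₀ : ℂ} (hc₀ : c₀ ∈ MS)
    {ε : ℝ} (hε : ε ≤ 1 / 16)
    (h : ∃ (n : ℕ) (r b : ℂ) (K : Set ℂ), 0 < n ∧ it r n b = b ∧ ‖mul n (r, b)‖ = 1 ∧
      K ⊆ MS ∧ IsCompact K ∧ IsPreconnected K ∧ r ∈ K ∧
      (∀ z ∈ K, z ≠ r → K \ {r} ∈ 𝓝[MS] z) ∧ K ⊆ closedBall r ε ∧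
      (∃ W : Set ℂ, W.Nonempty ∧ ∀ z ∈ MS, z ∉ K → W ⊆ connectedComponentIn (MS \ {r}) z) ∧
      r ≠ c₀ ∧ connectedComponentIn (MS \ {r}) c₀ ≠ connectedComponentIn (MS \ {r}) 0) :
    ∃ (r : ℂ) (K : Set ℂ), K = MS \ connectedComponentIn (MS \ {r}) 0 ∧ IsCompact K ∧
      IsConnected K ∧ r ∈ K ∧ (∀ z ∈ K, z ≠ r → K \ {r} ∈ 𝓝[MS] z) ∧ K ⊆ closedBall r ε ∧
      c₀ ∈ K ∧ r ≠ c₀ := by
  obtain ⟨n, r, b, K, hn, hb, hm, hKM, hKc, hKp, hrK, hKo, hKs, ⟨W, ⟨v, hv⟩, hW⟩, hrc, hne⟩ := h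
  have h0M : (0 : ℂ) ∈ MS := ball_sub_MS (mem_ball_self (by norm_num))
  have h0K : (0 : ℂ) ∉ K := by
    intro h0K
    have h1 := hKs h0K
    rw [mem_closedBall, dist_zero_left] at h1
    have hr8 : ball r (1 / 8) ⊆ MS := by
      intro z hz
      apply ball_sub_MS
      rw [mem_ball] at hz
      rw [mem_ball_zero_iff]
      have h2 : ‖z‖ ≤ ‖z - r‖ + ‖r‖ := by
        have : z = (z - r) + r := by ring
        calc ‖z‖ = ‖(z - r) + r‖ := by rw [← this]
          _ ≤ _ := norm_add_le _ _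
      rw [dist_eq_norm] at hz
      linarith
    have hpre := preconn_diff_interior hconn (by norm_num : (0 : ℝ) < 1 / 8) hr8
    have hr0 : r ≠ 0 := by
      rintro rfl
      exact mul_zero_norm_ne hn (b := b) hb hm
    have h3 : (0 : ℂ) ∈ MS \ {r} := ⟨h0M, fun h => hr0 h.symm⟩
    have h4 : c₀ ∈ MS \ {r} := ⟨hc₀, fun h => hrc h.symm⟩
    apply hne
    have h5 : c₀ ∈ connectedComponentIn (MS \ {r}) 0 :=
      hpre.subset_connectedComponentIn h3 le_rfl h4
    exact (connectedComponentIn_eq h5).symm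
  have hcK : c₀ ∈ K := by
    by_contra hcon
    exact hne ((connectedComponentIn_eq (hW c₀ hc₀ hcon hv)).trans
      (connectedComponentIn_eq (hW 0 h0M h0K hv)).symm)
  have h0r : (0 : ℂ) ∈ MS \ {r} := by
    refine ⟨h0M, fun h3 => h0K ?_⟩
    have h4 : (0 : ℂ) = r := h3
    rw [h4]; exact hrK
  refine ⟨r, K, ?_, hKc, ⟨⟨r, hrK⟩, hKp⟩, hrK, hKo, hKs, hcK, hrc⟩
  ext z
  constructor
  · intro hz
    refine ⟨hKM hz, fun hz0 => h0K ?_⟩
    exact conn_sub hMc hKc.isClosed hKo isPreconnected_connectedComponentIn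
      (connectedComponentIn_subset _ _) ⟨z, hz0, hz⟩ (mem_connectedComponentIn h0r)
  · rintro ⟨hzM, hz⟩
    by_contra hzK
    apply hz
    have h1 := connectedComponentIn_eq (hW z hzM hzK hv)
    have h2 := connectedComponentIn_eq (hW 0 h0M h0K hv)
    rw [h2, ← h1]
    exact mem_connectedComponentIn ⟨hzM, fun h3 => hzK (by rw [mem_singleton_iff.1 h3]; exact hrK)⟩

/-- **a neighbourhood basis of limbs**, and `c₀` is in the boundary of `M` -/
theorem basis_of_pieces (hMc : IsClosed MS) (hconn : IsPreconnected MS) {c₀ : ℂ} (hc₀ : c₀ ∈ MS)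
    (h : ∀ ε > 0, ∃ (n : ℕ) (r b : ℂ) (K : Set ℂ), 0 < n ∧ it r n b = b ∧ ‖mul n (r, b)‖ = 1 ∧
      K ⊆ MS ∧ IsCompact K ∧ IsPreconnected K ∧ r ∈ K ∧
      (∀ z ∈ K, z ≠ r → K \ {r} ∈ 𝓝[MS] z) ∧ K ⊆ closedBall r ε ∧
      (∃ W : Set ℂ, W.Nonempty ∧ ∀ z ∈ MS, z ∉ K → W ⊆ connectedComponentIn (MS \ {r}) z) ∧
      r ≠ c₀ ∧ connectedComponentIn (MS \ {r}) c₀ ≠ connectedComponentIn (MS \ {r}) 0) :
    c₀ ∈ frontier MS ∧ ∀ U ∈ 𝓝 c₀, ∃ r : ℂ, ∃ V ⊆ U,
      V = MS \ connectedComponentIn (MS \ {r}) 0 ∧ IsCompact V ∧ IsConnected V ∧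
      V ∈ 𝓝[MS] c₀ := by
  refine ⟨?_, fun U hU => ?_⟩
  · rw [hMc.frontier_eq]
    refine ⟨hc₀, fun hint => ?_⟩
    obtain ⟨δ, hδ, hδM⟩ := Metric.isOpen_iff.1 isOpen_interior c₀ hint
    obtain ⟨r, K, -, hKc, -, hrK, hKo, hKs, hcK, hrc⟩ := piece_of_lvl hMc hconn hc₀
      (min_le_right (δ / 4) (1 / 16)) (h _ (lt_min (by positivity) (by positivity)))
    have hd1 := min_le_left (δ / 4) (1 / 16)
    set u : ℂ := c₀ - r with hu
    have hu0 : u ≠ 0 := fun h0 => hrc (sub_eq_zero.1 h0).symm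
    have hun : 0 < ‖u‖ := norm_pos_iff.2 hu0
    set γ : ℝ → ℂ := fun t => c₀ + ((t / ‖u‖ : ℝ) : ℂ) * u with hγ
    have hγc : Continuous γ := by fun_prop
    have hpre : IsPreconnected (γ '' Icc 0 (δ / 2)) :=
      isPreconnected_Icc.image _ hγc.continuousOn
    have hγ0 : γ 0 = c₀ := by simp [hγ]
    have hγr : ∀ t, γ t - r = ((1 + t / ‖u‖ : ℝ) : ℂ) * u := by
      intro t
      simp only [hγ, hu]
      push_cast
      ring
    have hγn : ∀ t, 0 ≤ t → ‖γ t - r‖ = ‖u‖ + t := by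
      intro t ht
      have h1 : 0 ≤ 1 + t / ‖u‖ := by positivity
      rw [hγr, norm_mul, Complex.norm_real, Real.norm_eq_abs, abs_of_nonneg h1]
      field_simp
    have hγd : ∀ t, 0 ≤ t → dist (γ t) c₀ = t := by
      intro t ht
      rw [dist_eq_norm]
      simp only [hγ]
      rw [add_sub_cancel_left, norm_mul, Complex.norm_real, Real.norm_eq_abs,
        abs_of_nonneg (by positivity)]
      field_simp
    have hsub : γ '' Icc 0 (δ / 2) ⊆ MS \ {r} := by
      rintro _ ⟨t, ht, rfl⟩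
      refine ⟨interior_subset (hδM ?_), fun h0 => ?_⟩
      · rw [mem_ball, hγd t ht.1]
        linarith [ht.2]
      · have h1 := hγn t ht.1
        rw [mem_singleton_iff.1 h0, sub_self, norm_zero] at h1
        linarith [ht.1]
    have hK := conn_sub hMc hKc.isClosed hKo hpre hsub
      ⟨c₀, ⟨0, ⟨le_rfl, by positivity⟩, hγ0⟩, hcK⟩
    have h1 := hKs (hK ⟨δ / 2, ⟨by positivity, le_rfl⟩, rfl⟩)
    rw [mem_closedBall, dist_eq_norm, hγn _ (by positivity)] at h1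
    linarith
  · obtain ⟨δ, hδ, hδU⟩ := Metric.mem_nhds_iff.1 hU
    obtain ⟨r, K, hKe, hKc, hKn, hrK, hKo, hKs, hcK, hrc⟩ := piece_of_lvl hMc hconn hc₀
      (min_le_right (δ / 4) (1 / 16)) (h _ (lt_min (by positivity) (by positivity)))
    have hd1 := min_le_left (δ / 4) (1 / 16)
    refine ⟨r, K, ?_, hKe, hKc, hKn, mem_of_superset (hKo c₀ hcK hrc.symm) sdiff_subset⟩
    intro z hz
    apply hδU
    have h1 := hKs hz
    have h2 := hKs hcK
    rw [mem_closedBall] at h1 h2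
    rw [mem_ball]
    calc dist z c₀ ≤ dist z r + dist c₀ r := dist_triangle_right _ _ _
      _ < δ := by linarith

end Pool.Agent.Work.MLC
end

section
set_option autoImplicit false

/-! # The parameters of the main theorem are dense in the boundary of `M` (helper6) -/

namespace Pool.Agent.Work.MLC.Dens

open Filter Topology Metric Set NV

/-- near every boundary point of `M` there is a parameter with a neutral cycle -/
theorem exists_neutral {U : Set ℂ} (hU : IsOpen U) {c : ℂ} (hc : c ∈ frontier MS) (hcU : c ∈ U) :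
    ∃ (n : ℕ) (x₀ : ℂ × ℂ), 0 < n ∧ x₀ ∈ Per n ∧ x₀.1 ∈ U ∧ ‖mul n x₀‖ = 1 := by
  obtain ⟨ε, hε, hεU⟩ := Metric.isOpen_iff.1 hU c hcU
  obtain ⟨n, hn, a, ha, had⟩ := Pool.Agent.Work.MP_c6f924_an.centers_dense hc hε
  have hn0 : 0 < n := hn
  have hc2 : c ∈ closure (MS)ᶜ := by
    have h3 : c ∈ frontier (MS)ᶜ := by rw [frontier_compl]; exact hc
    exact frontier_subset_closure h3
  obtain ⟨c₂, hc₂, hc₂d⟩ := Metric.mem_closure_iff.1 hc2 ε hε
  set γ : ℝ → ℂ := fun t => AffineMap.lineMap a c₂ t with hγ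
  have hγc : Continuous γ := by simp only [hγ]; exact AffineMap.lineMap_continuous
  have hγU : ∀ t ∈ Icc (0 : ℝ) 1, γ t ∈ U := by
    intro t ht
    apply hεU
    have h1 : a ∈ ball c ε := had
    have h2 : c₂ ∈ ball c ε := by rw [mem_ball, dist_comm]; exact hc₂d
    exact (convex_ball c ε).lineMap_mem h1 h2 ht
  have hK := isCompact_Per hn0 (K := closedBall 0 1) isClosed_closedBall (by
    intro z hz
    rw [mem_closedBall_zero_iff] at hz
    linarith)
  set A : Set ℝ := Icc 0 1 ∩ γ ⁻¹' (Prod.fst '' {x : ℂ × ℂ | x ∈ Per n ∧ mul n x ∈ closedBall 0 1})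
    with hA
  have hAc : IsCompact A := isCompact_Icc.inter_right ((hK.image continuous_fst).isClosed.preimage hγc)
  have h0 : (0 : ℝ) ∈ A := by
    refine ⟨⟨le_rfl, zero_le_one⟩, (a, 0), ⟨?_, ?_⟩, ?_⟩
    · exact ha
    · rw [mem_closedBall_zero_iff]
      have : mul n ((a, 0) : ℂ × ℂ) = 0 := by
        unfold mul
        exact Finset.prod_eq_zero (Finset.mem_range.2 hn0) (by simp)
      rw [this]; simp
    · simp [hγ]
  obtain ⟨t, htA, htmax⟩ := hAc.exists_isMaxOn ⟨0, h0⟩ continuousOn_id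
  obtain ⟨ht01, x, ⟨hxP, hxm⟩, hxt⟩ := htA
  rw [mem_closedBall_zero_iff] at hxm
  have hx1 : x.1 = γ t := hxt
  refine ⟨n, x, hn0, hxP, by rw [hx1]; exact hγU t ht01, ?_⟩
  by_contra hne
  have hlt : ‖mul n x‖ < 1 := lt_of_le_of_ne hxm hne
  have ht1 : t < 1 := by
    refine lt_of_le_of_ne ht01.2 fun h1 => hc₂ ?_
    rw [h1] at hx1
    have h2 : γ 1 = c₂ := by simp [hγ]
    rw [h2] at hx1
    by_contra h3
    have h4 := inputs34.rep n hn0 x hxP (by rw [hx1]; exact h3)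
    linarith
  have hm1 : mul n x ≠ 1 := by
    intro h1
    rw [h1, norm_one] at hlt
    exact lt_irrefl _ hlt
  obtain ⟨β, hβ, hβ0, hβe⟩ := chart hxP hm1
  have ht := chart_tendsto hβ hβ0
  have h2 : ∀ᶠ y in 𝓝 x, ‖mul n y‖ < 1 :=
    (continuous_mul' n).norm.continuousAt.eventually (gt_mem_nhds hlt)
  have h3 : ∀ᶠ c' in 𝓝 x.1, ‖mul n (c', β c')‖ < 1 ∧ (c', β c') ∈ Per n := by
    filter_upwards [ht.eventually h2, ht.eventually hβe] with c' h3 h4
    exact ⟨h3, h4.2 rfl⟩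
  rw [hx1] at h3
  have h4 : ∀ᶠ s in 𝓝 t, ‖mul n (γ s, β (γ s))‖ < 1 ∧ (γ s, β (γ s)) ∈ Per n :=
    hγc.continuousAt.eventually h3
  obtain ⟨δ, hδ, hδs⟩ := Metric.eventually_nhds_iff.1 h4
  set s : ℝ := min (t + δ / 2) 1 with hs
  have hst : t < s := lt_min (by linarith) ht1
  have hs1 : s ≤ 1 := min_le_right _ _
  have hsd : dist s t < δ := by
    rw [Real.dist_eq, abs_of_pos (by linarith)]
    have := min_le_left (t + δ / 2) 1
    linarith
  obtain ⟨h5, h6⟩ := hδs hsd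
  have hsA : s ∈ A := by
    refine ⟨⟨ht01.1.trans hst.le, hs1⟩, _, ⟨h6, ?_⟩, rfl⟩
    rw [mem_closedBall_zero_iff]; exact h5.le
  have := htmax hsA
  simp only [id_eq, mem_ofPred_eq] at this
  linarith

/-- near every boundary point of `M` there are parameters with cycles of multiplier
`exp (2 π i ψ)`, for all `ψ` in an interval -/
theorem exists_interval {U : Set ℂ} (hU : IsOpen U) {c : ℂ} (hc : c ∈ frontier MS) (hcU : c ∈ U) :
    ∃ (n : ℕ) (φ δ : ℝ), 0 < n ∧ 0 < δ ∧ 0 < φ ∧ φ < 1 ∧ ∀ ψ, |ψ - φ| < δ → ∃ x ∈ Per n,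
      x.1 ∈ U ∧ mul n x = Complex.exp ((2 * Real.pi * ψ : ℝ) * Complex.I) := by
  obtain ⟨n, x₀, hn, hx₀, hxU, hm⟩ := exists_neutral hU hc hcU
  have hcont : Continuous fun ψ : ℝ => Complex.exp ((2 * Real.pi * ψ : ℝ) * Complex.I) := by
    fun_prop
  by_cases h1 : mul n x₀ = 1
  · -- the parabolic case
    have h2 := One49.near_parabolic hn (c := x₀.1) (y := x₀.2) hx₀ h1 (hU.mem_nhds hxU)
    have h3 : ∀ᶠ ψ : ℝ in 𝓝 0, ∃ c' ∈ U, ∃ b, it c' n b = b ∧
        mult n c' b = Complex.exp ((2 * Real.pi * ψ : ℝ) * Complex.I) := by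
      have h4 : Tendsto (fun ψ : ℝ => Complex.exp ((2 * Real.pi * ψ : ℝ) * Complex.I)) (𝓝 0)
          (𝓝 1) := by
        have := hcont.tendsto 0
        simpa using this
      exact h4.eventually h2
    obtain ⟨δ, hδ, hδs⟩ := Metric.eventually_nhds_iff.1 h3
    set φ : ℝ := min (δ / 2) (1 / 2) with hφ
    have hφ0 : 0 < φ := lt_min (by positivity) (by norm_num)
    have hφ1 : φ ≤ 1 / 2 := min_le_right _ _
    have hφδ : φ ≤ δ / 2 := min_le_left _ _
    refine ⟨n, φ, δ / 2, hn, by positivity, hφ0, by linarith, fun ψ hψ => ?_⟩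
    obtain ⟨c', hc', b, hb, hbm⟩ := hδs (y := ψ) (by
      rw [Real.dist_eq, sub_zero]
      calc |ψ| = |(ψ - φ) + φ| := by ring_nf
        _ ≤ |ψ - φ| + |φ| := abs_add_le _ _
        _ < δ := by rw [abs_of_pos hφ0]; linarith)
    exact ⟨(c', b), hb, hc', hbm⟩
  · -- the other case
    have h2 : ‖mul n x₀‖ < 23 / 10 := by rw [hm]; norm_num
    have hN : {x : ℂ × ℂ | x.1 ∈ U} ∈ 𝓝 x₀ :=
      continuous_fst.continuousAt.preimage_mem_nhds (hU.mem_nhds hxU)
    have h3 := mul_open hn hx₀ h1 h2 hN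
    obtain ⟨θ, hθ⟩ : ∃ θ : ℝ, mul n x₀ = Complex.exp (θ * Complex.I) := by
      refine ⟨Complex.arg (mul n x₀), ?_⟩
      have := Complex.norm_mul_exp_arg_mul_I (mul n x₀)
      rw [hm, Complex.ofReal_one, one_mul] at this
      exact this.symm
    set φ : ℝ := Int.fract (θ / (2 * Real.pi)) with hφ
    have hpi := Real.pi_pos
    have hθφ : Complex.exp ((2 * Real.pi * φ : ℝ) * Complex.I) = mul n x₀ := by
      rw [hθ, Complex.exp_eq_exp_iff_exists_int]
      refine ⟨-⌊θ / (2 * Real.pi)⌋, ?_⟩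
      have h4 : φ = θ / (2 * Real.pi) - ⌊θ / (2 * Real.pi)⌋ := rfl
      rw [h4]
      push_cast
      have h5 : (Real.pi : ℂ) ≠ 0 := by exact_mod_cast hpi.ne'
      field_simp
      ring
    have hφ0 : 0 < φ := by
      refine lt_of_le_of_ne (Int.fract_nonneg _) fun h4 => h1 ?_
      rw [← hθφ, ← h4]; simp
    have hφ1 : φ < 1 := Int.fract_lt_one _
    have h4 : ∀ᶠ ψ : ℝ in 𝓝 φ, ∃ x ∈ {x : ℂ × ℂ | x.1 ∈ U} ∩ Per n,
        mul n x = Complex.exp ((2 * Real.pi * ψ : ℝ) * Complex.I) := by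
      have h5 := hcont.tendsto φ
      rw [hθφ] at h5
      exact h5.eventually h3
    obtain ⟨δ, hδ, hδs⟩ := Metric.eventually_nhds_iff.1 h4
    refine ⟨n, φ, δ, hn, hδ, hφ0, hφ1, fun ψ hψ => ?_⟩
    obtain ⟨x, ⟨hx1, hx2⟩, hx3⟩ := hδs (y := ψ) (by rw [Real.dist_eq]; exact hψ)
    exact ⟨x, hx2, hx1, hx3⟩

/-- good rational numbers in an interval -/
theorem exists_rat {φ δ B : ℝ} (hφ0 : 0 < φ) (hφ1 : φ < 1) (hδ : 0 < δ) (hB : 0 < B) :
    ∃ p q : ℕ, 0 < p ∧ p < q ∧ Nat.Coprime p q ∧ |(p : ℝ) / q - φ| < δ ∧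
      B * q ≤ (min (p : ℝ) (q - p)) ^ 2 := by
  set d : ℝ := min δ (min φ (1 - φ)) / 2 with hd
  have hd0 : 0 < d := by
    have : 0 < min δ (min φ (1 - φ)) := lt_min hδ (lt_min hφ0 (by linarith))
    positivity
  have hdδ : d < δ := by
    have h1 := min_le_left δ (min φ (1 - φ))
    have : 0 < min δ (min φ (1 - φ)) := lt_min hδ (lt_min hφ0 (by linarith))
    linarith
  have hdφ : 2 * d ≤ φ := by
    have h1 := (min_le_right δ (min φ (1 - φ))).trans (min_le_left φ (1 - φ))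
    linarith
  have hdφ1 : 2 * d ≤ 1 - φ := by
    have h1 := (min_le_right δ (min φ (1 - φ))).trans (min_le_right φ (1 - φ))
    linarith
  obtain ⟨N, hN⟩ := exists_nat_gt (max (1 / d) (B / d ^ 2))
  obtain ⟨q, hqN, hqp⟩ := Nat.exists_infinite_primes (N + 1)
  have hqN' : (N : ℝ) + 1 ≤ q := by exact_mod_cast hqN
  have hq0 : (0 : ℝ) < q := by exact_mod_cast hqp.pos
  have hq1 : 1 / d < q := (le_max_left _ _).trans_lt (hN.trans (by linarith))
  have hq2 : B / d ^ 2 < q := (le_max_right _ _).trans_lt (hN.trans (by linarith))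
  rw [div_lt_iff₀ hd0] at hq1
  rw [div_lt_iff₀ (by positivity)] at hq2
  set p : ℕ := ⌊φ * q⌋₊ with hp
  have hp1 : (p : ℝ) ≤ φ * q := Nat.floor_le (by positivity)
  have hp2 : φ * q < p + 1 := Nat.lt_floor_add_one _
  have hpd : d * q ≤ p := by
    have h1 : 2 * d * q ≤ φ * q := by gcongr
    nlinarith
  have hp0 : 0 < p := by
    have : (0 : ℝ) < p := lt_of_lt_of_le (by positivity) hpd
    exact_mod_cast this
  have hqpd : d * q ≤ q - p := by
    have h1 : 2 * d * q ≤ (1 - φ) * q := by gcongr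
    nlinarith
  have hpq : p < q := by
    have : (p : ℝ) < q := by
      have : 0 < d * q := by positivity
      linarith
    exact_mod_cast this
  refine ⟨p, q, hp0, hpq, ?_, ?_, ?_⟩
  · exact (hqp.coprime_iff_not_dvd.2 (Nat.not_dvd_of_pos_of_lt hp0 hpq)).symm
  · rw [abs_sub_lt_iff]
    constructor
    · rw [sub_lt_iff_lt_add, div_lt_iff₀ hq0]
      nlinarith
    · rw [sub_lt_comm, lt_div_iff₀ hq0]
      nlinarith
  · have h1 : d * q ≤ min (p : ℝ) (q - p) := le_min hpd hqpd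
    calc B * q ≤ q * d ^ 2 * q := by gcongr
      _ = (d * q) ^ 2 := by ring
      _ ≤ _ := by gcongr

/-- a stage inside a given neighbourhood of a boundary point -/
theorem stage_local {U : Set ℂ} (hU : IsOpen U) {c : ℂ} (hc : c ∈ frontier MS) (hcU : c ∈ U) :
    ∃ (n : ℕ) (K : Set ℂ) (r : ℂ), Stage (1 / 4) n K r ∧ K ⊆ U := by
  have hlog : 0 < Real.log 2 := Real.log_pos (by norm_num)
  obtain ⟨ε, hε, hεU⟩ := Metric.isOpen_iff.1 hU c hcU
  obtain ⟨n, φ, δ, hn, hδ, hφ0, hφ1, hψ⟩ := exists_interval (U := ball c (ε / 2)) isOpen_ball hc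
    (mem_ball_self (by positivity))
  have hn' : (0 : ℝ) < n := by exact_mod_cast hn
  set B : ℝ := max (288 * Real.log 2 / (1 / 4) * n ^ 2) (50 * n ^ 2 / (ε / 4)) with hB
  have hB0 : 0 < B := lt_max_of_lt_left (by positivity)
  obtain ⟨p, q, hp, hpq, hcop, hd, hBq⟩ := exists_rat hφ0 hφ1 hδ hB0
  have hq : 0 < q := hp.trans hpq
  have hq' : (0 : ℝ) < q := by exact_mod_cast hq
  have hp' : (0 : ℝ) < p := by exact_mod_cast hp
  have hpq' : (p : ℝ) < q := by exact_mod_cast hpq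
  obtain ⟨y, hyP, hyU, hym⟩ := hψ _ hd
  set x : ℚ := (p : ℚ) / q with hx
  have hxr : (x : ℝ) = p / q := by rw [hx]; push_cast; rfl
  have hx0 : 0 < x := by
    have h1 : (0 : ℚ) < p := by exact_mod_cast hp
    have h2 : (0 : ℚ) < q := by exact_mod_cast hq
    exact div_pos h1 h2
  have hx1 : x < 1 := by
    have h2 : (0 : ℚ) < q := by exact_mod_cast hq
    rw [hx, div_lt_one h2]
    exact_mod_cast hpq
  have hden : x.den = q := by
    have h1 := Rat.den_div_eq_of_coprime (a := (p : ℤ)) (b := (q : ℤ)) (by omega)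
      (by simpa using hcop)
    have h2 : (((p : ℤ) : ℚ) / ((q : ℤ) : ℚ)) = x := by rw [hx]; push_cast; rfl
    rw [h2] at h1
    exact_mod_cast h1
  have hG := inputs34.good n hn x hx0 hx1
  set R : ℝ := 1 / 4 * (min (x : ℝ) (1 - x)) ^ 2 / n with hR
  have hR0 : 0 < R := by
    have h1 : (0 : ℝ) < x := by exact_mod_cast hx0
    have h2 : (x : ℝ) < 1 := by exact_mod_cast hx1
    have h3 : 0 < min (x : ℝ) (1 - x) := lt_min h1 (by linarith)
    positivity
  have hax : axisPt x = ((2 * Real.pi * ((p : ℝ) / q) : ℝ) : ℂ) * Complex.I := by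
    unfold axisPt
    rw [hxr]
  obtain ⟨σ, hσ, hσ', hσ0⟩ := exists_section hG (convex_ball _ _) hyP (mem_ball_self hR0)
    (by rw [hym, hax])
  have hBB : 288 * Real.log 2 / (1 / 4) * (n : ℝ) ^ 2 * q ≤ (min (p : ℝ) (q - p)) ^ 2 := by
    refine le_trans ?_ hBq
    gcongr
    exact le_max_left _ _
  obtain ⟨K, hK, -⟩ := mk_stage inputs34 hn hp hpq hcop hxr hden hBB hσ hσ'
  have hr : (σ (axisPt x)).1 = y.1 := by rw [hσ0]
  rw [hr] at hK
  refine ⟨n, K, y.1, hK, fun z hz => ?_⟩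
  -- size of `K`
  have hmy : mul n (y.1, y.2) = Complex.exp (2 * Real.pi * (p / q) * Complex.I) := by
    show mul n y = _
    rw [hym]
    congr 1
    push_cast
    ring
  have hyP' : it y.1 n y.2 = y.2 := hyP
  have h1 : z ∉ connectedComponentIn (MS \ {y.1}) 0 := by
    intro h0
    have h1 : connectedComponentIn (MS \ {y.1}) 0 ⊆ K :=
      conn_sub inputs34.cpt.isClosed hK.cpt.isClosed hK.opn isPreconnected_connectedComponentIn
        (connectedComponentIn_subset _ _) ⟨z, h0, hz⟩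
    have h0M : (0 : ℂ) ∈ MS := ball_sub_MS (mem_ball_self (by norm_num))
    have h2 : (0 : ℂ) ∈ MS \ {y.1} := by
      refine ⟨h0M, fun h3 => hK.zero ?_⟩
      have h4 : (0 : ℂ) = y.1 := h3
      rw [h4]; exact hK.root
    exact hK.zero (h1 (mem_connectedComponentIn h2))
  have h2 := limb_dist inputs34 hn hp hpq hcop hyP' hmy z ⟨hK.sub hz, h1⟩
  have h3 : 50 * ((n : ℝ) ^ 2 * q / (min (p : ℝ) (q - p)) ^ 2) ≤ ε / 4 := by
    have hm0 : 0 < min (p : ℝ) (q - p) := lt_min hp' (by linarith)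
    rw [← mul_div_assoc, div_le_iff₀ (by positivity)]
    have h4 : 50 * (n : ℝ) ^ 2 / (ε / 4) * q ≤ (min (p : ℝ) (q - p)) ^ 2 := by
      refine le_trans ?_ hBq
      gcongr
      exact le_max_right _ _
    have h5 := mul_le_mul_of_nonneg_left h4 (by positivity : (0 : ℝ) ≤ ε / 4)
    have h6 : ε / 4 * (50 * (n : ℝ) ^ 2 / (ε / 4) * q) = 50 * (n ^ 2 * q) := by
      field_simp
    linarith
  apply hεU
  rw [mem_ball] at hyU ⊢
  calc dist z c ≤ dist z y.1 + dist y.1 c := dist_triangle _ _ _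
    _ < ε := by linarith

/-- **uncountably many** parameters with the property in every open set which meets the boundary
of `M` -/
theorem uncountable_local {U : Set ℂ} (hU : IsOpen U) (hne : (U ∩ frontier MS).Nonempty) :
    ¬ {c₀ ∈ MS ∩ U | Prop6 (1 / 4) c₀}.Countable := by
  classical
  intro hcount
  obtain ⟨c, hcU, hc⟩ := hne
  let X := {s : ℕ × Set ℂ × ℂ // Stage (1 / 4) s.1 s.2.1 s.2.2}
  have hstep : ∀ (s : X) (w : ℂ), ∃ s' : X, s.1.1 < s'.1.1 ∧ s'.1.2.1 ⊆ s.1.2.1 \ {s.1.2.2} ∧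
      w ∉ s'.1.2.1 := by
    rintro ⟨⟨n, K, r⟩, hs⟩ w
    obtain ⟨n', K₁, r₁, K₂, r₂, h1, h2, h3, h4, h5, h6⟩ := stage_two inputs34 hs
    by_cases hw : w ∈ K₁
    · exact ⟨⟨⟨n', K₂, r₂⟩, h3⟩, h1, h5, fun h7 => disjoint_left.1 h6 hw h7⟩
    · exact ⟨⟨⟨n', K₁, r₁⟩, h2⟩, h1, h4, hw⟩
  choose F hF1 hF2 hF3 using hstep
  obtain ⟨n₀, K₀, r₀, h₀, hK₀⟩ := stage_local hU hc hcU
  -- the tower along a sequence of points to avoid
  have tower : ∀ e : ℕ → ℂ, ∃ c₀ ∈ MS ∩ U, Prop6 (1 / 4) c₀ ∧ ∀ m, c₀ ≠ e m := by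
    intro e
    let s : ℕ → X := fun m => Nat.rec (⟨⟨n₀, K₀, r₀⟩, h₀⟩ : X) (fun k s => F s (e k)) m
    have hs : ∀ m, s (m + 1) = F (s m) (e m) := fun m => rfl
    obtain ⟨c₀, hc₀M, hc₀K, hc₀⟩ := param_of_tower inputs34 (n := fun m => (s m).1.1)
      (K := fun m => (s m).1.2.1) (r := fun m => (s m).1.2.2) (fun m => (s m).2)
      (fun m => by simp only [hs]; exact hF1 _ _) (fun m => by simp only [hs]; exact hF2 _ _)
    refine ⟨c₀, ⟨hc₀M, hK₀ (hc₀K 0)⟩, hc₀, fun m hm => ?_⟩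
    have h2 := hc₀K (m + 1)
    simp only [hs] at h2
    rw [hm] at h2
    exact hF3 _ _ h2
  have hne : {c₀ ∈ MS ∩ U | Prop6 (1 / 4) c₀}.Nonempty := by
    obtain ⟨c₀, h1, h2, -⟩ := tower fun _ => 0
    exact ⟨c₀, h1, h2⟩
  obtain ⟨e, he⟩ := hcount.exists_eq_range hne
  obtain ⟨c₀, h1, h2, h3⟩ := tower e
  have h4 : c₀ ∈ range e := by rw [← he]; exact ⟨h1, h2⟩
  obtain ⟨m, hm⟩ := h4
  exact h3 m hm.symm

end Pool.Agent.Work.MLC.Dens
end

section
set_option autoImplicit false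

/-! # The parameters of the main theorem are residual in the boundary of `M` (helper6) -/

namespace Pool.Agent.Work.MLC.Dens

open Filter Topology Metric Set NV

/-- stages of arbitrarily large period below a stage -/
theorem stage_deep {n : ℕ} {K : Set ℂ} {r : ℂ} (h : Stage (1 / 4) n K r) (N : ℕ) :
    ∃ (n' : ℕ) (K' : Set ℂ) (r' : ℂ), N ≤ n' ∧ Stage (1 / 4) n' K' r' ∧ K' ⊆ K := by
  induction N with
  | zero => exact ⟨n, K, r, Nat.zero_le _, h, subset_rfl⟩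
  | succ N ih =>
    obtain ⟨n', K', r', h1, h2, h3⟩ := ih
    obtain ⟨n'', K₁, r₁, K₂, r₂, h4, h5, h6, h7, h8, h9⟩ := stage_two inputs34 h2
    exact ⟨n'', K₁, r₁, by omega, h5, h7.trans (sdiff_subset.trans h3)⟩

/-- the points of a stage other than the root are not in the component of `0` -/
theorem not_mem_component {n : ℕ} {K : Set ℂ} {r c : ℂ} (hst : Stage (1 / 4) n K r) (hc : c ∈ K) :
    c ∉ connectedComponentIn (MS \ {r}) 0 := by
  intro h0
  have h1 : connectedComponentIn (MS \ {r}) 0 ⊆ K :=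
    conn_sub inputs34.cpt.isClosed hst.cpt.isClosed hst.opn isPreconnected_connectedComponentIn
      (connectedComponentIn_subset _ _) ⟨c, h0, hc⟩
  have h0M : (0 : ℂ) ∈ MS := ball_sub_MS (mem_ball_self (by norm_num))
  have h2 : (0 : ℂ) ∈ MS \ {r} := by
    refine ⟨h0M, fun h3 => hst.zero ?_⟩
    have h4 : (0 : ℂ) = r := h3
    rw [h4]; exact hst.root
  exact hst.zero (h1 (mem_connectedComponentIn h2))

/-- the points in stages of period at least `N` -/
def OS (N : ℕ) : Set (frontier MS) :=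
  {c | ∃ (n : ℕ) (K : Set ℂ) (r : ℂ), N ≤ n ∧ Stage (1 / 4) n K r ∧ c.1 ∈ K ∧ c.1 ≠ r}

theorem isOpen_OS (N : ℕ) : IsOpen (OS N) := by
  rw [isOpen_iff_mem_nhds]
  rintro c ⟨n, K, r, h1, h2, h3, h4⟩
  have h5 : K \ {r} ∈ 𝓝[frontier MS] c.1 :=
    nhdsWithin_mono _ inputs34.cpt.isClosed.frontier_subset (h2.opn c.1 h3 h4)
  have h6 : (Subtype.val : frontier MS → ℂ) ⁻¹' (K \ {r}) ∈ 𝓝 c := by
    rw [nhds_subtype_eq_comap_nhdsWithin]
    exact preimage_mem_comap h5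
  filter_upwards [h6] with d hd
  exact ⟨n, K, r, h1, h2, hd.1, fun h7 => hd.2 h7⟩

theorem dense_OS (N : ℕ) : Dense (OS N) := by
  rw [dense_iff_inter_open]
  rintro V hV ⟨c, hc⟩
  obtain ⟨U, hU, rfl⟩ := isOpen_induced_iff.1 hV
  obtain ⟨n, K, r, h1, h2⟩ := stage_local hU c.2 hc
  obtain ⟨n', K', r', h3, h4, h5⟩ := stage_deep h1 N
  obtain ⟨n'', K₁, r₁, K₂, r₂, h6, h7, h8, h9, h10, h11⟩ := stage_two inputs34 h4
  have hr₁ : r₁ ∈ K' \ {r'} := h9 h7.root
  exact ⟨⟨r₁, h7.front⟩, h2 (h5 hr₁.1), n', K', r', h3, h4, hr₁.1, fun h12 => hr₁.2 h12⟩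

theorem prop6_of_OS {c : frontier MS} (h : ∀ N, c ∈ OS N) : Prop6 (1 / 4) c.1 := by
  intro N
  obtain ⟨n, K, r, h1, h2, h3, h4⟩ := h N
  obtain ⟨p, q, b, hp, hpq, hcop, hb, hm, hr⟩ := h2.data
  exact ⟨n, p, q, r, b, h1, h2.npos, hp, hpq, hcop, hb, hm, hr, fun h0 => h4 h0.symm,
    not_mem_component h2 h3⟩

/-- the same, in terms of subsets of the plane -/
theorem exists_gdelta_prop6 : ∃ G : Set ℂ, IsGδ G ∧ G ⊆ frontier MS ∧ frontier MS ⊆ closure G ∧
    ∀ c ∈ G, Prop6 (1 / 4) c := by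
  have hO : ∀ N, ∃ U : Set ℂ, IsOpen U ∧ (Subtype.val : frontier MS → ℂ) ⁻¹' U = OS N :=
    fun N => isOpen_induced_iff.1 (isOpen_OS N)
  choose U hU hUO using hO
  refine ⟨frontier MS ∩ ⋂ N, U N, ?_, inter_subset_left, ?_, ?_⟩
  · exact isClosed_frontier.isGδ.inter (IsGδ.iInter fun N => (hU N).isGδ)
  · have : CompleteSpace (frontier MS) := isClosed_frontier.isComplete.completeSpace_coe
    have h1 : Dense (⋂ N, OS N) := dense_iInter_of_isOpen isOpen_OS dense_OS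
    intro c hc
    have h2 : (⟨c, hc⟩ : frontier MS) ∈ closure (⋂ N, OS N) := h1 _
    rw [closure_subtype] at h2
    refine closure_mono ?_ h2
    rintro _ ⟨d, hd, rfl⟩
    refine ⟨d.2, mem_iInter.2 fun N => ?_⟩
    have h3 : d ∈ OS N := mem_iInter.1 hd N
    rw [← hUO N] at h3
    exact h3
  · rintro c ⟨hc, h1⟩
    refine prop6_of_OS (c := ⟨c, hc⟩) fun N => ?_
    rw [← hUO N]
    exact mem_iInter.1 h1 N

end Pool.Agent.Work.MLC.Dens
end

section
set_option autoImplicit false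

/-! # Canonical form of the limbs of all components, and neighbourhood bases (helper6) -/

namespace Pool.Agent.Work.MLC

open Filter Topology Metric Set

/-- attracting parameters near the root of a limb -/
theorem attr_near' {n q : ℕ} {x : ℚ} {R : ℝ} {g : ℂ → ℂ} (hn : 0 < n) (hxq : x.den = q)
    (hR : 0 < R) (hx : x ≠ 0) (hg : ContinuousOn g (ball (axisPt x) R))
    (hper : ∀ ℓ ∈ ball (axisPt x) R, ℓ ≠ 0 →
      ∃ z, (g ℓ, z) ∈ Per n ∧ mul n (g ℓ, z) = Complex.exp ℓ)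
    (hinj : ∃ δ > 0, InjOn g (ball (axisPt x) δ)) :
    ∃ t₀ > 0, t₀ < R ∧ ∀ t : ℝ, 0 < t → t < t₀ → ∃ b', Attr (n * q) (g (axisPt x + t)) b' := by
  have hq : 0 < q := by rw [← hxq]; exact x.pos
  have hnq : 0 < n * q := Nat.mul_pos hn hq
  obtain ⟨δ, hδ, hinj⟩ := hinj
  have hcen : axisPt x ∈ ball (axisPt x) R := mem_ball_self hR
  -- parameters near the root have no multiplier `1`
  have hfin := NV.finite_par hnq
  set F : Set ℂ := {c : ℂ | ∃ b, it c (n * q) b = b ∧ mul (n * q) (c, b) = 1} with hF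
  have h1 : ∀ᶠ c in 𝓝 (g (axisPt x)), c ∉ F \ {g (axisPt x)} := by
    have : IsClosed (F \ {g (axisPt x)}) := (hfin.subset sdiff_subset).isClosed
    exact this.isOpen_compl.mem_nhds (fun h0 => h0.2 rfl)
  have hc : ContinuousAt g (axisPt x) := hg.continuousAt (isOpen_ball.mem_nhds hcen)
  obtain ⟨δ', hδ', hev⟩ := Metric.eventually_nhds_iff_ball.1 (hc.eventually h1)
  set t₀ : ℝ := min (min δ δ') (min (R / 2) (1 / (q * 2 ^ (n * q)))) with ht₀
  have hq' : (0 : ℝ) < q := by exact_mod_cast hq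
  have ht₀0 : 0 < t₀ := by
    refine lt_min (lt_min hδ hδ') (lt_min (by positivity) (by positivity))
  refine ⟨t₀, ht₀0, ?_, fun t ht0 ht => ?_⟩
  · have : t₀ ≤ R / 2 := (min_le_right _ _).trans (min_le_left _ _)
    linarith
  have htδ : t < δ := ht.trans_le ((min_le_left _ _).trans (min_le_left _ _))
  have htδ' : t < δ' := ht.trans_le ((min_le_left _ _).trans (min_le_right _ _))
  have htR : t < R := by
    have : t₀ ≤ R / 2 := (min_le_right _ _).trans (min_le_left _ _)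
    linarith
  have htq : t < 1 / (q * 2 ^ (n * q)) := ht.trans_le ((min_le_right _ _).trans (min_le_right _ _))
  have hmem : ∀ ρ : ℝ, t < ρ → axisPt x + t ∈ ball (axisPt x) ρ := by
    intro ρ hρ
    rw [mem_ball, dist_eq_norm, add_sub_cancel_left, Complex.norm_real, Real.norm_eq_abs,
      abs_of_pos ht0]
    exact hρ
  have hL := hmem R htR
  have hne : axisPt x + t ≠ 0 := by
    intro h0
    have h2 : (axisPt x + t).re = 0 := by rw [h0]; rfl
    rw [Complex.add_re, LimbData.axisPt_re, zero_add, Complex.ofReal_re] at h2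
    exact ht0.ne' h2
  obtain ⟨z, h2, h3⟩ := hper _ hL hne
  set c := g (axisPt x + t) with hcdef
  have hcF : c ∉ F := by
    intro h4
    refine hev _ (hmem δ' htδ') ⟨h4, ?_⟩
    intro h5
    have h6 := hinj (hmem δ htδ) (mem_ball_self hδ) h5
    have h7 : (t : ℂ) = 0 := by linear_combination h6
    have h8 : t = 0 := by exact_mod_cast h7
    exact ht0.ne' h8
  have hsimple : ∀ b, it c (n * q) b = b → mul (n * q) (c, b) ≠ 1 :=
    fun b hb h4 => hcF ⟨b, hb, h4⟩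
  have hbn : it c n z = z := h2
  have hmulq : mul (n * q) (c, z) = Complex.exp ((q * t : ℝ) : ℂ) := by
    rw [NV.mul_mul_period hbn q]
    rw [h3, ← Complex.exp_nat_mul]
    have h5 : (q : ℂ) * (axisPt x + t) = (x.num : ℂ) * (2 * Real.pi * Complex.I) + ((q * t : ℝ) : ℂ) := by
      have h6 : (q : ℂ) * ((x : ℝ) : ℂ) = x.num := by
        have h7 : (x : ℚ) * q = x.num := by rw [← hxq]; exact Rat.mul_den_eq_num x
        have h8 : ((x : ℝ) : ℂ) = (x : ℂ) := by push_cast; rfl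
        rw [h8, mul_comm]
        exact_mod_cast congrArg (fun y : ℚ => (y : ℂ)) h7
      unfold axisPt
      push_cast
      push_cast at h6
      linear_combination (2 * Real.pi * Complex.I) * h6
    rw [h5, Complex.exp_add]
    have h6 : Complex.exp ((x.num : ℂ) * (2 * Real.pi * Complex.I)) = 1 :=
      Complex.exp_int_mul_two_pi_mul_I x.num
    rw [h6, one_mul]
  refine NV.exists_attr hnq hsimple (NV.it_mul_period hbn q) (s := q * t) (by positivity) ?_ hmulq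
  rw [lt_div_iff₀ (by positivity)] at htq
  calc q * t * 2 ^ (n * q) = t * (q * 2 ^ (n * q)) := by ring
    _ < 1 := htq

/-- the canonical form of a limb, from its data -/
theorem canon_of_data {n : ℕ} {x : ℚ} {R : ℝ} {g : ℂ → ℂ} {T : ℂ → ℚ → Prop} (hn : 0 < n)
    (hx : x ≠ 0) (hL : LimbData MS x R (2 * n * Real.log 2) g T)
    (hgd : DifferentiableOn ℂ g (ball (axisPt x) R))
    (hper : ∀ ℓ ∈ ball (axisPt x) R, ℓ ≠ 0 →
      ∃ z, (g ℓ, z) ∈ Per n ∧ mul n (g ℓ, z) = Complex.exp ℓ)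
    (hAR : 2 * n * Real.log 2 / x.den < R) (hR : R ≤ 1 / 2) :
    IsCompact (MS \ connectedComponentIn (MS \ {g (axisPt x)}) 0) ∧
    IsConnected (MS \ connectedComponentIn (MS \ {g (axisPt x)}) 0) ∧
    g (axisPt x) ∈ closure
      ((MS \ connectedComponentIn (MS \ {g (axisPt x)}) 0) ∩ interior MS) := by
  have hlog1 : 0.6931471803 < Real.log 2 := Real.log_two_gt_d9
  have hadm : LimbData.Adm x R (2 * n * Real.log 2) x := by
    unfold LimbData.Adm
    rw [sub_self, abs_zero, mul_zero, add_zero]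
    exact hAR
  have hR0 := hL.R_pos
  have hcen : axisPt x ∈ ball (axisPt x) R := mem_ball_self hR0
  have h0K : (0 : ℂ) ∉ LimbData.K g T x := LimbData.zero_notMem hn hL hAR hper hx (by
    intro ℓ hℓ
    have := re_lt_of_ball hℓ
    linarith)
  rw [hL.canon inputs34 hAR h0K]
  refine ⟨hL.isCompact_K inputs34.cpt.isClosed hadm, ⟨⟨_, Or.inl rfl⟩,
    hL.K_conn inputs34.cpt.isClosed inputs34.conn hadm⟩, ?_⟩
  obtain ⟨t₀, ht₀, ht₀R, hattr⟩ := attr_near' (q := x.den) hn rfl hR0 hx hgd.continuousOn hper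
    hL.inj
  have hnq : 0 < n * x.den := Nat.mul_pos hn x.pos
  have hint : ∀ t : ℝ, 0 < t → t < t₀ → g (axisPt x + t) ∈ interior MS := by
    intro t h1 h2
    obtain ⟨b', hb'⟩ := hattr t h1 h2
    exact NV.attr_interior inputs34 hnq hb'
  have htype := NV.type_segment hL ht₀ ht₀R.le (fun t h1 h2 => interior_subset (hint t h1 h2))
  have hc : ContinuousAt g (axisPt x) := hgd.continuousOn.continuousAt (isOpen_ball.mem_nhds hcen)
  rw [mem_closure_iff_nhds]
  intro N hN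
  obtain ⟨δ, hδ, hδN⟩ := Metric.mem_nhds_iff.1 (hc.preimage_mem_nhds hN)
  set t : ℝ := min (t₀ / 2) (δ / 2) with ht
  have ht0 : 0 < t := lt_min (by positivity) (by positivity)
  have htt : t < t₀ := (min_le_left _ _).trans_lt (by linarith)
  have htδ : t < δ := (min_le_right _ _).trans_lt (by linarith)
  refine ⟨g (axisPt x + t), hδN ?_, Or.inr ⟨_, htype t ht0 htt, rfl⟩, hint t ht0 htt⟩
  rw [mem_ball, dist_eq_norm, add_sub_cancel_left, Complex.norm_real, Real.norm_eq_abs,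
    abs_of_pos ht0]
  exact htδ

section

variable {C₀ : ℝ} {k : ℕ}

/-- **the canonical form of the limbs**, condition without `p` -/
theorem root_canon (hC₀ : 2 ≤ C₀) (hRP : RootPiece fun n => 1 / (C₀ * n ^ k)) {n p q : ℕ}
    {r b : ℂ} (hn : 0 < n) (hp : 0 < p) (hpq : p < q) (hcop : Nat.Coprime p q)
    (hb : it r n b = b)
    (hm : mul n (r, b) = Complex.exp (2 * Real.pi * (p / q) * Complex.I))
    (hsm : 480 * C₀ ^ 2 * (n : ℝ) ^ (2 * k + 2) ≤ q) :
    IsCompact (MS \ connectedComponentIn (MS \ {r}) 0) ∧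
    IsConnected (MS \ connectedComponentIn (MS \ {r}) 0) ∧
    r ∈ closure ((MS \ connectedComponentIn (MS \ {r}) 0) ∩ interior MS) := by
  obtain ⟨m, p', q', hPer, hmn, hp', hpq', hcop', hqq, hmul⟩ := exact_level hn hp hpq hcop hb hm
  have hlog : 0 < Real.log 2 := Real.log_pos (by norm_num)
  have hlog2 : Real.log 2 < 0.6931471808 := Real.log_two_lt_d9
  have hm0 : 0 < m := hPer.1
  have hbm : it r m b = b := Sat.perN_it hPer
  have hmul' : mul m (r, b) = Complex.exp (2 * Real.pi * (p' / q') * Complex.I) := hmul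
  have hq0 : (0 : ℝ) < q := by exact_mod_cast hp.trans hpq
  have hqq' : (q : ℝ) ≤ q' := by exact_mod_cast hqq
  have hmn' : (m : ℝ) ≤ n := by exact_mod_cast hmn
  have hm1 : (1 : ℝ) ≤ m := by exact_mod_cast hm0
  have hmR : (0 : ℝ) < m := by linarith
  have hC0 : 0 < C₀ := by linarith
  have hsm' : 480 * C₀ ^ 2 * (m : ℝ) ^ (2 * k + 2) ≤ q' := by
    calc 480 * C₀ ^ 2 * (m : ℝ) ^ (2 * k + 2) ≤ 480 * C₀ ^ 2 * (n : ℝ) ^ (2 * k + 2) := by gcongr
      _ ≤ (q : ℝ) := hsm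
      _ ≤ (q' : ℝ) := hqq'
  have hq'0 : (0 : ℝ) < q' := hq0.trans_le hqq'
  have hpR : (0 : ℝ) < p' := by exact_mod_cast hp'
  have hpqR : (p' : ℝ) < q' := by exact_mod_cast hpq'
  have hmk : (1 : ℝ) ≤ m ^ k := one_le_pow₀ hm1
  have hδ1 : 1 / (C₀ * (m : ℝ) ^ k) ≤ 1 / 2 := by
    apply one_div_le_one_div_of_le (by norm_num)
    nlinarith
  have hmp : (1 : ℝ) ≤ m ^ (2 * k + 2) := one_le_pow₀ hm1
  rcases lt_or_ge (1 / (C₀ * (m : ℝ) ^ k)) (2 * Real.pi * (min (p' : ℝ) (q' - p') / q')) with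
    ht | ht
  · have h1 := far_ineq' hC0 hm0 hp' hpq' ht
    have hmin : 0 < min (p' : ℝ) (q' - p') := lt_min hpR (by linarith)
    have h2 : 40 * C₀ ^ 2 * ((m : ℝ) ^ (2 * k + 2) / q') ≤ 1 / 12 := by
      rw [← mul_div_assoc, div_le_iff₀ hq'0]
      linarith
    have h3 := h1.trans h2
    rw [div_le_iff₀ (by positivity)] at h3
    have h4 : (0 : ℝ) < (m : ℝ) ^ 2 * q' := by positivity
    have hq3 : 3 ≤ q' := by
      by_contra hcon
      have h5 : q' ≤ 2 := by omega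
      have h6 : (q' : ℝ) ≤ 2 := by exact_mod_cast h5
      nlinarith
    obtain ⟨k1, k2, -, k3, -⟩ := limb_canon inputs34 hm0 hp' hpq' hcop' hbm hmul' hq3 (by nlinarith)
    exact ⟨k1, k2, k3⟩
  · obtain ⟨x, g, T, hx, hden, hL, hgr, hgd, hg4, hgper⟩ :=
      hRP m p' q' r b hPer hp' hpq' hcop' hmul ht
    have hAR : 2 * m * Real.log 2 / x.den < 1 / (C₀ * (m : ℝ) ^ k) := by
      rw [hden, div_lt_div_iff₀ hq'0 (by positivity)]
      have h4 : (m : ℝ) ^ (k + 1) ≤ m ^ (2 * k + 2) := pow_le_pow_right₀ hm1 (by omega)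
      have hC2 : C₀ ≤ C₀ ^ 2 := by nlinarith
      have h0 : (0 : ℝ) < m ^ (2 * k + 2) := by positivity
      calc 2 * m * Real.log 2 * (C₀ * m ^ k) = 2 * Real.log 2 * C₀ * m ^ (k + 1) := by ring
        _ ≤ 2 * 1 * C₀ ^ 2 * m ^ (2 * k + 2) := by gcongr; linarith
        _ < 480 * C₀ ^ 2 * m ^ (2 * k + 2) := by nlinarith [mul_pos (pow_pos hC0 2) h0]
        _ ≤ 1 * q' := by linarith
    have h := canon_of_data hm0 hx hL hgd hgper hAR hδ1
    rw [hgr] at h
    exact h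

/-- **limbs are a neighbourhood basis**: condition (A) or `q` large -/
theorem basis_root (hC₀ : 2 ≤ C₀) (hRP : RootPiece fun n => 1 / (C₀ * n ^ k)) {c₀ : ℂ}
    (hc₀ : c₀ ∈ MS)
    (h : ∀ N : ℕ, ∃ (n p q : ℕ) (r b : ℂ), N ≤ n ∧ 0 < n ∧ 0 < p ∧ p < q ∧ Nat.Coprime p q ∧
      it r n b = b ∧ mul n (r, b) = Complex.exp (2 * Real.pi * (p / q) * Complex.I) ∧
      r ≠ c₀ ∧ connectedComponentIn (MS \ {r}) c₀ ≠ connectedComponentIn (MS \ {r}) 0 ∧
      (16 * Real.log 2 * (n : ℝ) ^ 2 * q ≤ (min (p : ℝ) (q - p)) ^ 2 ∨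
        480 * C₀ ^ 2 * (n : ℝ) ^ (2 * k + 2) ≤ q)) :
    c₀ ∈ frontier MS ∧ ∀ U ∈ 𝓝 c₀, ∃ r : ℂ, ∃ V ⊆ U,
      V = MS \ connectedComponentIn (MS \ {r}) 0 ∧ IsCompact V ∧ IsConnected V ∧
      V ∈ 𝓝[MS] c₀ := by
  refine basis_of_pieces inputs34.cpt.isClosed inputs34.conn hc₀ fun ε hε => ?_
  obtain ⟨N₁, hN₁⟩ := small_A hε
  obtain ⟨N₂, hN₂⟩ := root_small' hC₀ hRP hε
  obtain ⟨n, p, q, r, b, hN, hn, hp, hpq, hcop, hb, hm, hrc, hne, hor⟩ := h (max N₁ N₂)
  have hP : Piece r ε := by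
    rcases hor with h1 | h1
    · exact hN₁ n p q r b ((le_max_left _ _).trans hN) hn hp hpq hcop hb hm h1
    · exact hN₂ n p q r b ((le_max_right _ _).trans hN) hn hp hpq hcop hb hm h1
  obtain ⟨K, h1, h2, h3, h4, h5, h6, h7⟩ := hP
  refine ⟨n, r, b, K, hn, hb, ?_, h1, h2, h3, h4, h5, h6, h7, hrc, hne⟩
  rw [hm, Complex.norm_exp]
  simp

end

end Pool.Agent.Work.MLC
end

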