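import Pool.Agent.Work.MLCM.C21
import Pool.Agent.Work.MLCM.C61
import Pool.Agent.Work.MLCM.C62

section
set_option autoImplicit false

/-! # Theorem F: data exist for all words, strips and rotation numbers (helper54) -/

namespace Pool.Agent.Work.MLC.Cnt

open Filter Topology Metric Set Complex
open Pool.Agent.Work.MLC.Sat

/-- the data of a wide section -/
theorem exists_dat_of_wide {m : ℕ} {w : ℕ → ℤ} {k : ℤ} {σ : ℂ → ℂ × ℂ} (hV : Pri.Wide m w k σ)
    (hex : ∀ L ∈ Pri.D0 m, Pri.Exa m (σ L)) {x : ℚ} (h0 : 0 < x) (h1 : x < 1) :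
    ∃ D : Dat, D.Par ∧ D.Cir ∧ D.m = m ∧ D.x = x ∧ D.k₀ = k ∧
      (∃ i₀ : ℕ, i₀ < m ∧ (D.w = fun i => w (i + i₀)) ∧
        ∀ L, D.σ L = ((σ L).1, it (σ L).1 i₀ (σ L).2)) ∧
      ∀ θ : ℝ, Circ.nu w m θ = k + x ↔ D.tm ≤ θ ∧ θ ≤ D.tp := by
  have hm := hV.pos
  have hwd : Word m w := hV.word hex
  set B : Set ℂ := ball (axisPt x) (Sat.gR m x) with hB
  have hBD : B ⊆ Pri.D0 m := Pri.ball_subset_D0 hm h0 h1
  have hP₀ : (⟨m, x, σ, w, k, w, 0, 0, 0⟩ : Sat.Dat).Par := by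
    refine Sat.par_of _ hm h0 h1 (hV.cont.mono hBD) (fun L hL => hV.sec L (hBD hL)) ?_ hV.bits ?_
    · exact fun L hL => hex L (hBD hL)
    · intro L hL hM
      obtain ⟨θ, h2, h3, h4⟩ := hV.ang L (hBD hL) hM
      exact ⟨θ, h2, h3, h4⟩
  obtain ⟨i₀, u, kk, tm, tp, hi₀, hcir⟩ := Sat.s1_circle m x w k hm h0 h1 hV.bits hwd.2.2
  have hP := Sat.s0_shift _ i₀ u kk tm tp hP₀
  set D : Sat.Dat := ⟨m, x, fun L => ((σ L).1, it (σ L).1 i₀ (σ L).2), fun i => w (i + i₀), k,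
    u, kk, tm, tp⟩ with hD
  have hC : D.Cir := hcir _
  refine ⟨D, hP, hC, rfl, rfl, rfl, ⟨i₀, hi₀, rfl, fun L => rfl⟩, fun θ => ?_⟩
  rw [← hC.plateau θ, ← Sat.s1_rot m w i₀ θ hV.bits]

end Pool.Agent.Work.MLC.Cnt
end

section
set_option autoImplicit false

/-! # Theorem N, module N2 (helper15): the ends of the two rays are in the gate -/

namespace Pool.Agent.Work.MLC.Cnt

open Filter Topology Metric Set Complex MeasureTheory
open Pool.Agent.Work.MLC.Sat

theorem gR_pos15 {D : Dat} (hP : D.Par) : 0 < gR D.m D.x := by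
  have hx0 : (0 : ℝ) < D.x := by exact_mod_cast hP.x_pos
  have hx1 : (D.x : ℝ) < 1 := by exact_mod_cast hP.x_lt
  have hm : (0 : ℝ) < D.m := by exact_mod_cast hP.m_pos
  have h5 : 0 < min (D.x : ℝ) (1 - D.x) := lt_min hx0 (by linarith)
  unfold gR
  positivity

theorem gR_le15 {D : Dat} (hP : D.Par) : gR D.m D.x ≤ 1 / 4 := by
  have hx0 : (0 : ℝ) < D.x := by exact_mod_cast hP.x_pos
  have hx1 : (D.x : ℝ) < 1 := by exact_mod_cast hP.x_lt
  have hm : (1 : ℝ) ≤ D.m := by exact_mod_cast hP.m_pos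
  have h5 : 0 < min (D.x : ℝ) (1 - D.x) := lt_min hx0 (by linarith)
  have h6 : min (D.x : ℝ) (1 - D.x) ≤ 1 := (min_le_left _ _).trans hx1.le
  have h7 : (min (D.x : ℝ) (1 - D.x)) ^ 2 ≤ 1 := pow_le_one₀ h5.le h6
  unfold gR
  rw [div_le_iff₀ (by linarith)]
  nlinarith

/-- at an end of the plateau the point of the parameter ray at a small potential is in the image of
the disc of radius `s` -/
theorem ray_mem15 {D : Dat} (hP : D.Par) {s g t : ℝ} (hs : 0 < s) (hs' : s ≤ sG D) (hg : 0 < g)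
    (hbig : 130000 * (D.m : ℝ) ^ 3 * D.x.den ≤ s ^ 4 * (-Real.log g))
    (ht : Circ.nu D.w D.m t = D.k₀ + D.x)
    (hend : ∀ s > 0, Circ.nu D.w D.m (t + s) ≠ D.k₀ + D.x ∨
      Circ.nu D.w D.m (t - s) ≠ D.k₀ + D.x) :
    cOf ((g : ℂ) + 2 * Real.pi * t * I) ∈ D.c '' closedBall D.a s := by
  have hmn := hP.m_pos
  have hQn : 0 < D.x.den := D.x.den_pos
  have hm1 : (1 : ℝ) ≤ D.m := by exact_mod_cast hmn
  have hQ1 : (1 : ℝ) ≤ D.x.den := by exact_mod_cast hQn
  have hx0 : (0 : ℝ) < D.x := by exact_mod_cast hP.x_pos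
  have hx1 : (D.x : ℝ) < 1 := by exact_mod_cast hP.x_lt
  have hgR := gR_pos15 hP
  have hgR4 := gR_le15 hP
  have hs8 : s ≤ gR D.m D.x / 8 := hs'
  have hs1 : s ≤ 1 := by linarith
  have hs4 : s ^ 4 ≤ 1 := pow_le_one₀ hs.le hs1
  -- the rational number
  have hPQ : ((D.k₀ * D.x.den + D.x.num : ℤ) : ℝ) / D.x.den = D.k₀ + D.x := by
    have hQ0 : (D.x.den : ℝ) ≠ 0 := by positivity
    push_cast
    rw [add_div, mul_div_cancel_right₀ _ hQ0]
    congr 1
    exact (Rat.cast_def D.x).symm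
  -- the exterior point
  set ζ : ℂ := (g : ℂ) + 2 * Real.pi * t * I with hζ
  have hζ' : ζ = (g : ℂ) + ((2 * Real.pi * t : ℝ) : ℂ) * I := by rw [hζ]; push_cast; ring
  have hre : ζ.re = g := by rw [hζ', add_re, ofReal_re, re_ofReal_mul, I_re]; ring
  have him : ζ.im / (2 * Real.pi) = t := by
    have hpi := Real.pi_pos
    rw [hζ', add_im, ofReal_im, im_ofReal_mul, I_im]; field_simp; ring
  have hE := Pri.aW_spec (n := D.m) (w := D.w) hmn hP.bits (ζ := ζ) (by rw [hre]; exact hg)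
  rw [him] at hE
  set b := Pri.aW D.m D.w ζ with hb
  have hG : G (cOf ζ) (cOf ζ) = g := by rw [hζ]; exact (ang_cOf hg).2
  have hlog : 130000 * (D.m : ℝ) ^ 3 * D.x.den ≤ -Real.log g := by
    have h0 : 0 < 130000 * (D.m : ℝ) ^ 3 * D.x.den := by positivity
    have h1 : 0 < -Real.log g := by
      by_contra hcon
      push Not at hcon
      have : s ^ 4 * (-Real.log g) ≤ 0 := mul_nonpos_of_nonneg_of_nonpos (by positivity) hcon
      linarith
    have h2 : s ^ 4 * (-Real.log g) ≤ 1 * (-Real.log g) := mul_le_mul_of_nonneg_right hs4 h1.le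
    linarith
  have hm3 : (D.m : ℝ) ≤ (D.m : ℝ) ^ 3 * D.x.den := by
    have h1 : (1 : ℝ) ≤ (D.m : ℝ) ^ 2 := one_le_pow₀ hm1
    have h2 : (1 : ℝ) ≤ (D.m : ℝ) ^ 2 * D.x.den := by nlinarith
    nlinarith
  have hlogpos : 0 < -Real.log g := by
    have : (0 : ℝ) < (D.m : ℝ) ^ 3 * D.x.den := by positivity
    nlinarith
  have hlt : G (cOf ζ) (cOf ζ) < Real.exp (-(5 * D.m)) := by
    rw [hG, ← Real.log_lt_iff_lt_exp hg]
    nlinarith
  have hv := Pri.ray_mult (n := D.m) (w := D.w) hmn (P := D.k₀ * D.x.den + D.x.num) hQn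
    (t := t) (by rw [hPQ]; exact ht) (by rw [hPQ]; exact hend) hE hlt
  rw [hG, hPQ] at hv
  set v : ℂ := 1 - exp (2 * Real.pi * ((D.k₀ + D.x : ℝ) : ℂ) * I) / mult D.m (cOf ζ) b with hvdef
  have hvs : ‖v‖ ≤ s / 2 := by
    by_contra hcon
    push Not at hcon
    have h2 : (s / 2) ^ 4 < ‖v‖ ^ 4 := pow_lt_pow_left₀ hcon (by positivity) (by norm_num)
    have h3 : (s / 2) ^ 4 * (-Real.log g) < 8000 * (D.m : ℝ) ^ 3 * D.x.den :=
      lt_of_lt_of_le (mul_lt_mul_of_pos_right h2 hlogpos) hv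
    have h4 : (s / 2) ^ 4 * (-Real.log g) = (s ^ 4 * (-Real.log g)) / 16 := by ring
    rw [h4] at h3
    have h5 : (0 : ℝ) < (D.m : ℝ) ^ 3 * D.x.den := by positivity
    nlinarith
  have hv2 : ‖v‖ ≤ 1 / 2 := by linarith
  have hv1 : 1 - v ≠ 0 := by
    intro h0
    have h1 : v = 1 := by linear_combination -h0
    rw [h1, norm_one] at hv2
    linarith
  -- the point `L`
  have hmult : 1 < ‖mult D.m (cOf ζ) b‖ := one_lt_norm_mult_of_ext hmn hE.1 hE.2.2.1
  have hmult0 : mult D.m (cOf ζ) b ≠ 0 := by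
    intro h0; rw [h0, norm_zero] at hmult; linarith
  have hexpa : exp (2 * Real.pi * ((D.k₀ + D.x : ℝ) : ℂ) * I) = exp D.a := by
    have h1 : (2 * Real.pi * ((D.k₀ + D.x : ℝ) : ℂ) * I : ℂ) = D.a + D.k₀ * (2 * Real.pi * I) := by
      show _ = axisPt D.x + _
      unfold axisPt
      push_cast
      ring
    rw [h1, Complex.exp_add, Complex.exp_int_mul_two_pi_mul_I, mul_one]
  have hL : exp (D.a - log (1 - v)) = mult D.m (cOf ζ) b := by
    rw [Complex.exp_sub, Complex.exp_log hv1]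
    have h1 : 1 - v = exp D.a / mult D.m (cOf ζ) b := by rw [hvdef, hexpa]; ring
    rw [h1]
    field_simp [Complex.exp_ne_zero]
  set L : ℂ := D.a - log (1 - v) with hLdef
  have hLa : ‖L - D.a‖ ≤ s := by
    have h1 : L - D.a = -log (1 + -v) := by rw [hLdef]; ring_nf
    rw [h1, norm_neg]
    refine (norm_log_one_add_half_le_self (by rw [norm_neg]; exact hv2)).trans ?_
    rw [norm_neg]
    linarith
  have hLB : L ∈ D.B := by
    show L ∈ ball D.a (gR D.m D.x)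
    rw [mem_ball, dist_eq_norm]
    linarith
  have hLre : 0 < L.re := by
    rw [← hL, Complex.norm_exp, Real.one_lt_exp_iff] at hmult
    exact hmult
  obtain ⟨h1, h2⟩ := hP.sec L hLB
  obtain ⟨h3, h4⟩ := hP.lab L hLB hLre
  have h5 := h4 t (by rw [ht]; linarith) (by rw [ht]; linarith)
  have h6 : FF D.m (cOf ζ, b) = lab D.m t D.w := FF_ext (x := (cOf ζ, b)) hE
  have h7 := s4_unique D.m D.x L (D.σ L) (cOf ζ, b) hmn hP.x_pos hP.x_lt hLB hLre h1 hE.2.2.1
    h2 hL.symm (h5.trans h6.symm)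
  refine ⟨L, ?_, ?_⟩
  · rw [mem_closedBall, dist_eq_norm]; exact hLa
  · show (D.σ L).1 = cOf ζ
    rw [h7]

/-- **N2** -/
theorem n2_ray : N2_ray := by
  intro D hP hC s g hs hs' hg hbig
  constructor
  · refine ray_mem15 hP hs hs' hg hbig ((hC.plateau D.tm).2 ⟨le_refl _, hC.lt.le⟩) ?_
    intro r hr
    right
    intro h0
    have := ((hC.plateau _).1 h0).1
    linarith
  · refine ray_mem15 hP hs hs' hg hbig ((hC.plateau D.tp).2 ⟨hC.lt.le, le_refl _⟩) ?_
    intro r hr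
    left
    intro h0
    have := ((hC.plateau _).1 h0).2
    linarith

end Pool.Agent.Work.MLC.Cnt
end

section
set_option autoImplicit false

/-! # Module N1a of Theorem N: length and area outside the Mandelbrot set (helper78)

`n1_length`: the diameters of the two rays and of the roof over an arc are bounded by the area of
the image of `Box s t` (mean value property of the squared derivative, Tonelli, Cauchy-Schwarz).
`cOf` is two-to-one at most on `Box s t`. -/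

namespace Pool.Agent.Work.MLC.Cnt

open Filter Topology Metric Set Complex MeasureTheory
open scoped ENNReal

/-- the square of an integral -/
lemma ln_sq_lintegral_le {f : ℝ → ℝ≥0∞} (hf : Measurable f) {a b : ℝ} :
    (∫⁻ x in Icc a b, f x) ^ 2 ≤ ENNReal.ofReal (b - a) * ∫⁻ x in Icc a b, f x ^ 2 := by
  have h := ENNReal.lintegral_mul_le_Lp_mul_Lq (volume.restrict (Icc a b))
    (Real.HolderConjugate.two_two) (f := fun _ => (1 : ℝ≥0∞)) (g := f) aemeasurable_const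
    hf.aemeasurable
  simp only [Pi.mul_apply, one_mul, one_pow, lintegral_const,
    Measure.restrict_apply_univ, Real.volume_Icc, ENNReal.rpow_two] at h
  calc (∫⁻ x in Icc a b, f x) ^ 2 ≤ (ENNReal.ofReal (b - a) ^ (1 / 2 : ℝ) *
        (∫⁻ x in Icc a b, f x ^ 2) ^ (1 / 2 : ℝ)) ^ 2 := pow_le_pow_left' h 2
    _ = _ := by
        rw [mul_pow, ← ENNReal.rpow_natCast, ← ENNReal.rpow_natCast, ← ENNReal.rpow_mul,
          ← ENNReal.rpow_mul]
        norm_num

/-- Tonelli over moving balls -/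
lemma ln_tonelli {B : Set ℂ} (hB : MeasurableSet B) {F : ℂ → ℝ≥0∞} (hF : Measurable F)
    {γ : ℝ → ℂ} {ρ : ℝ → ℝ} (hγ : Continuous γ) (hρ : Continuous ρ) {a b T : ℝ}
    (hball : ∀ s ∈ Icc a b, ball (γ s) (ρ s) ⊆ B)
    (hT : ∀ w ∈ B, volume {s | s ∈ Icc a b ∧ w ∈ ball (γ s) (ρ s)} ≤ ENNReal.ofReal T) :
    ∫⁻ s in Icc a b, ∫⁻ w in ball (γ s) (ρ s), F w ≤ ENNReal.ofReal T * ∫⁻ w in B, F w := by
  have hopen : IsOpen {p : ℝ × ℂ | p.2 ∈ ball (γ p.1) (ρ p.1)} := by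
    have : {p : ℝ × ℂ | p.2 ∈ ball (γ p.1) (ρ p.1)} = {p : ℝ × ℂ | dist p.2 (γ p.1) < ρ p.1} := rfl
    rw [this]
    exact isOpen_lt (by fun_prop) (by fun_prop)
  set W : Set (ℝ × ℂ) := {p | p.2 ∈ ball (γ p.1) (ρ p.1)} with hW
  have h1 : ∀ s ∈ Icc a b, ∫⁻ w in ball (γ s) (ρ s), F w =
      ∫⁻ w in B, W.indicator (fun p => F p.2) (s, w) := by
    intro s hs
    have e1 : ∀ w, W.indicator (fun p => F p.2) (s, w) = (ball (γ s) (ρ s)).indicator F w := by
      intro w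
      rfl
    simp_rw [e1]
    rw [lintegral_indicator measurableSet_ball, Measure.restrict_restrict measurableSet_ball,
      inter_eq_left.2 (hball s hs)]
  rw [setLIntegral_congr_fun measurableSet_Icc h1]
  rw [lintegral_lintegral_swap]
  · have h2 : ∀ w ∈ B, ∫⁻ s in Icc a b, W.indicator (fun p => F p.2) (s, w) ≤
        ENNReal.ofReal T * F w := by
      intro w hw
      have e1 : ∀ s, W.indicator (fun p => F p.2) (s, w) =
          {s | w ∈ ball (γ s) (ρ s)}.indicator (fun _ => F w) s := by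
        intro s
        rfl
      simp_rw [e1]
      have hm : MeasurableSet {s | w ∈ ball (γ s) (ρ s)} := by
        have : {s | w ∈ ball (γ s) (ρ s)} = {s | dist w (γ s) < ρ s} := rfl
        rw [this]
        exact (isOpen_lt (by fun_prop) (by fun_prop)).measurableSet
      rw [lintegral_indicator hm, lintegral_const, Measure.restrict_apply_univ,
        Measure.restrict_apply hm, mul_comm]
      refine mul_le_mul_left ((measure_mono ?_).trans (hT w hw)) _
      rintro s ⟨h1, h2⟩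
      exact ⟨h2, h1⟩
    calc ∫⁻ w in B, ∫⁻ s in Icc a b, W.indicator (fun p => F p.2) (s, w)
        ≤ ∫⁻ w in B, ENNReal.ofReal T * F w := setLIntegral_mono' hB h2
      _ = _ := by rw [lintegral_const_mul' _ _ ENNReal.ofReal_ne_top]
  · apply Measurable.aemeasurable
    exact (hF.comp measurable_snd).indicator hopen.measurableSet

/-- **Length and area.** -/
theorem ln_length_sq {U B : Set ℂ} (hU : IsOpen U) {f : ℂ → ℂ} (hf : DifferentiableOn ℂ f U)
    (hBU : B ⊆ U) (hB : MeasurableSet B) {γ γ' : ℝ → ℂ} {ρ : ℝ → ℝ} {a b M T E : ℝ}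
    (hab : a ≤ b) (hT0 : 0 ≤ T)
    (hγ : ∀ s, HasDerivAt γ (γ' s) s) (hγ'c : Continuous γ') (hρc : Continuous ρ)
    (hρ : ∀ s ∈ Icc a b, 0 < ρ s) (hγρ : ∀ s ∈ Icc a b, ‖γ' s‖ ≤ M * ρ s)
    (hball : ∀ s ∈ Icc a b, ball (γ s) (ρ s) ⊆ B)
    (hT : ∀ w ∈ B, volume {s | s ∈ Icc a b ∧ w ∈ ball (γ s) (ρ s)} ≤ ENNReal.ofReal T)
    (hE0 : 0 ≤ E)
    (hE : ∫⁻ z in B, ENNReal.ofReal (‖deriv f z‖ ^ 2) ≤ ENNReal.ofReal E) :
    ‖f (γ b) - f (γ a)‖ ^ 2 ≤ (b - a) * M ^ 2 * T * E / Real.pi := by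
  have hpi := Real.pi_pos
  have hγc : Continuous γ := continuous_iff_continuousAt.2 fun s => (hγ s).continuousAt
  have hmem : ∀ s ∈ Icc a b, γ s ∈ U := fun s hs =>
    hBU (hball s hs (mem_ball_self (hρ s hs)))
  have huIcc : uIcc a b = Icc a b := uIcc_of_le hab
  have hderiv : ∀ s ∈ uIcc a b, HasDerivAt (fun x : ℝ => f (γ x)) (deriv f (γ s) * γ' s) s := by
    intro s hs
    rw [huIcc] at hs
    have h1 : HasDerivAt f (deriv f (γ s)) (γ s) :=
      (hf.differentiableAt (hU.mem_nhds (hmem s hs))).hasDerivAt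
    exact h1.comp s (hγ s)
  have hcd : ContinuousOn (fun s : ℝ => deriv f (γ s) * γ' s) (Icc a b) := by
    have h1 : ContinuousOn (deriv f) U := (hf.deriv hU).continuousOn
    exact (h1.comp hγc.continuousOn hmem).mul hγ'c.continuousOn
  have hint : ∫ s in a..b, deriv f (γ s) * γ' s = f (γ b) - f (γ a) :=
    intervalIntegral.integral_eq_sub_of_hasDerivAt hderiv (huIcc ▸ hcd).intervalIntegrable
  have h1 : ‖f (γ b) - f (γ a)‖ ≤ ∫ s in a..b, ‖deriv f (γ s) * γ' s‖ := by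
    rw [← hint]
    exact intervalIntegral.norm_integral_le_integral_norm hab
  have h2 : ENNReal.ofReal (∫ s in a..b, ‖deriv f (γ s) * γ' s‖) =
      ∫⁻ s in Icc a b, ENNReal.ofReal ‖deriv f (γ s) * γ' s‖ := by
    rw [intervalIntegral.integral_of_le hab, ← integral_Icc_eq_integral_Ioc,
      ofReal_integral_eq_lintegral_ofReal]
    · exact hcd.norm.integrableOn_Icc
    · exact ae_of_all _ (fun s => norm_nonneg _)
  have hm1 : Measurable fun s : ℝ => ENNReal.ofReal ‖deriv f (γ s) * γ' s‖ :=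
    (((measurable_deriv f).comp hγc.measurable).mul hγ'c.measurable).norm.ennreal_ofReal
  have h3 := ln_sq_lintegral_le hm1 (a := a) (b := b)
  have h4 : ∀ s ∈ Icc a b, ENNReal.ofReal ‖deriv f (γ s) * γ' s‖ ^ 2 ≤
      ENNReal.ofReal (M ^ 2 / Real.pi) *
        ∫⁻ w in ball (γ s) (ρ s), ENNReal.ofReal (‖deriv f w‖ ^ 2) := by
    intro s hs
    have e1 := area_submean (g := fun w => deriv f w ^ 2) ((measurable_deriv f).pow_const 2)
      (hρ s hs) (((hf.deriv hU).mono ((hball s hs).trans hBU)).pow 2)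
    simp only [norm_pow] at e1
    rw [← ENNReal.ofReal_pow (norm_nonneg _)]
    calc ENNReal.ofReal (‖deriv f (γ s) * γ' s‖ ^ 2)
        ≤ ENNReal.ofReal (M ^ 2 / Real.pi * (Real.pi * ρ s ^ 2 * ‖deriv f (γ s)‖ ^ 2)) := by
          apply ENNReal.ofReal_le_ofReal
          rw [norm_mul, mul_pow]
          have e2 := hγρ s hs
          have e3 : ‖γ' s‖ ^ 2 ≤ (M * ρ s) ^ 2 := pow_le_pow_left₀ (norm_nonneg _) e2 2
          have e4 : M ^ 2 / Real.pi * (Real.pi * ρ s ^ 2 * ‖deriv f (γ s)‖ ^ 2) =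
              ‖deriv f (γ s)‖ ^ 2 * (M * ρ s) ^ 2 := by
            field_simp
          rw [e4]
          exact mul_le_mul_of_nonneg_left e3 (by positivity)
      _ = ENNReal.ofReal (M ^ 2 / Real.pi) *
          ENNReal.ofReal (Real.pi * ρ s ^ 2 * ‖deriv f (γ s)‖ ^ 2) :=
          ENNReal.ofReal_mul (by positivity)
      _ ≤ _ := mul_le_mul_right e1 _
  have h5 : ∫⁻ s in Icc a b, ENNReal.ofReal ‖deriv f (γ s) * γ' s‖ ^ 2 ≤
      ENNReal.ofReal (M ^ 2 / Real.pi) * (ENNReal.ofReal T * ENNReal.ofReal E) := by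
    calc ∫⁻ s in Icc a b, ENNReal.ofReal ‖deriv f (γ s) * γ' s‖ ^ 2
        ≤ ∫⁻ s in Icc a b, ENNReal.ofReal (M ^ 2 / Real.pi) *
            ∫⁻ w in ball (γ s) (ρ s), ENNReal.ofReal (‖deriv f w‖ ^ 2) :=
          setLIntegral_mono' measurableSet_Icc h4
      _ = ENNReal.ofReal (M ^ 2 / Real.pi) * ∫⁻ s in Icc a b,
            ∫⁻ w in ball (γ s) (ρ s), ENNReal.ofReal (‖deriv f w‖ ^ 2) :=
          lintegral_const_mul' _ _ ENNReal.ofReal_ne_top
      _ ≤ _ := by
          refine mul_le_mul_right ?_ _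
          refine (ln_tonelli hB ((measurable_deriv f).norm.pow_const 2).ennreal_ofReal hγc hρc
            hball hT).trans (mul_le_mul_right hE _)
  have h6 : ENNReal.ofReal (‖f (γ b) - f (γ a)‖ ^ 2) ≤
      ENNReal.ofReal ((b - a) * M ^ 2 * T * E / Real.pi) := by
    calc ENNReal.ofReal (‖f (γ b) - f (γ a)‖ ^ 2)
        = ENNReal.ofReal ‖f (γ b) - f (γ a)‖ ^ 2 := ENNReal.ofReal_pow (norm_nonneg _) 2
      _ ≤ (∫⁻ s in Icc a b, ENNReal.ofReal ‖deriv f (γ s) * γ' s‖) ^ 2 := by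
          rw [← h2]
          exact pow_le_pow_left' (ENNReal.ofReal_le_ofReal h1) 2
      _ ≤ _ := h3
      _ ≤ ENNReal.ofReal (b - a) *
          (ENNReal.ofReal (M ^ 2 / Real.pi) * (ENNReal.ofReal T * ENNReal.ofReal E)) :=
          mul_le_mul_right h5 _
      _ = _ := by
          rw [← ENNReal.ofReal_mul hT0, ← ENNReal.ofReal_mul (by positivity),
            ← ENNReal.ofReal_mul (by linarith)]
          congr 1
          ring
  exact (ENNReal.ofReal_le_ofReal_iff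
    (by have : 0 ≤ b - a := by linarith
        positivity)).1 h6

/-! ### The maps -/

lemma ln_isOpen : IsOpen {L : ℂ | 0 < L.re} := isOpen_lt continuous_const Complex.continuous_re

end Pool.Agent.Work.MLC.Cnt
end

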