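import Pool.Agent.Work.MLCM.C30
import Pool.Agent.Work.MLCM.C39
import Pool.Agent.Work.MLCM.C40
import Pool.Agent.Work.MLCM.C41
import Pool.Agent.Work.MLCM.C42
import Pool.Agent.Work.MLCM.C44
import Pool.Agent.Work.MLCM.C46
import Pool.Agent.Work.MLCM.C47
import Pool.Agent.Work.MLCM.C48
import Pool.Agent.Work.MLCM.C49
import Pool.Agent.Work.MLCM.C55
import Pool.Agent.Work.MLCM.C56
import Pool.Agent.Work.MLCM.C57
import Pool.Agent.Work.MLCM.C58
import Pool.Agent.Work.MLCM.C61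
import Pool.Agent.Work.MLCM.C62

section
set_option autoImplicit false

/-! # Parameters of rotation number `x` near the root of the satellite are in its wake (helper24) -/

namespace Pool.Agent.Work.MLC.H24

open Filter Topology Metric Set Complex
open Pool.Agent.Work.MLC Pool.Agent.Work.MLC.Tr Pool.Agent.Work.MLC.Sat

variable {D : Dat}

/-- near a parameter of `MM` at which the parent has rotation number `x` all exterior angles are in
the plateau -/
lemma plateau_nhds (hP : D.Par) (hC : D.Cir) (hR : Regions D) {L : ℂ} (hL : L ∈ D.U)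
    (h : RotT D.m (D.c L) (D.b L) L D.x) :
    ∀ᶠ L' in 𝓝 L, ∀ θ, D.Th L' θ → D.tm ≤ θ ∧ θ ≤ D.tp := by
  have hB := U_sub_B hP hL
  obtain ⟨β, hβ⟩ := land_of_rotT hP.m_pos h
  obtain ⟨h1, h2, h3, h4, -⟩ := h
  have hM0 : G (D.c L) 0 = 0 := mem_M_iff.1 h2
  have hρ : 1 < ‖mul D.m (D.c L, D.b L)‖ := by
    rw [h4, norm_exp]; exact Real.one_lt_exp_iff.2 h1
  have e1 := (σ_contAt hP hB).tendsto.eventually (land_nhds hP.m_pos hM0 h3 hρ hβ)
  filter_upwards [e1, isOpen_U.mem_nhds hL, isOpen_B.mem_nhds hB] with L' h5 h6 h7 θ hθ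
  rw [← hC.plateau]
  have h8 := (h5 (hP.sec L' h7).1).2 θ D.w hθ.1.1 hθ.1.2.1 hθ.1.2.2.2.2
  obtain ⟨P, -, hP'⟩ := nu_of_compat hβ.1 hP.bits.per h8
  have h9 := hR.near L' h6 θ hθ
  have hq : (0 : ℝ) < D.x.den := by exact_mod_cast D.x.pos
  have hn : (1 : ℝ) ≤ D.n := by exact_mod_cast Par_n_pos hP
  unfold Dat.Near at h9
  have hx : (D.x : ℝ) = D.x.num / D.x.den := by
    have := Rat.num_div_den D.x
    exact_mod_cast this.symm
  rw [hP', hx] at h9 ⊢
  have h10 : (P : ℝ) / D.x.den - (D.k₀ + D.x.num / D.x.den) =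
      ((P - D.k₀ * D.x.den - D.x.num : ℤ) : ℝ) / D.x.den := by
    push_cast; field_simp; ring
  rw [h10, abs_div, abs_of_pos hq, div_lt_div_iff₀ hq (by positivity)] at h9
  have h11 : |((P - D.k₀ * D.x.den - D.x.num : ℤ) : ℝ)| < 1 := by
    by_contra hcon
    push Not at hcon
    have h12 : (1 : ℝ) * ((D.n : ℝ) * D.x.den) ≤
        |((P - D.k₀ * D.x.den - D.x.num : ℤ) : ℝ)| * ((D.n : ℝ) * D.x.den) := by gcongr
    nlinarith
  have h12 : P - D.k₀ * D.x.den - D.x.num = 0 := by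
    have : |P - D.k₀ * D.x.den - D.x.num| < 1 := by exact_mod_cast h11
    exact Int.abs_lt_one_iff.1 this
  have h13 : (P : ℝ) = D.k₀ * D.x.den + D.x.num := by
    have : P = D.k₀ * D.x.den + D.x.num := by omega
    rw [this]; push_cast; ring
  rw [h13]
  field_simp

/-- **the limb of rotation number `x` is inside the wake near the root** -/
theorem mem_RI_of_rotT (h5 : S5_land) (hP : D.Par) (hC : D.Cir) (hR : Regions D) {L : ℂ}
    (hL : L ∈ D.U) (h : RotT D.m (D.c L) (D.b L) L D.x) : L ∈ D.RI := by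
  have hrd := rotData hP.m_pos
  by_cases hland : Land D.m (D.c L) (D.b L) D.tm D.x.den
  · exact ⟨hL, h.1, Or.inr ⟨h.2.1, hland⟩⟩
  exfalso
  set S : Set ℂ := {L' | L' ∈ D.U ∧ RotT D.m (D.c L') (D.b L') L' D.x ∧
    ¬ Land D.m (D.c L') (D.b L') D.tm D.x.den} with hS
  set H : Set ℂ := ball D.a (sR D.m D.x) ∩ {z | 0 < z.re} with hH
  have ha0 : D.a.re = 0 := LimbData.axisPt_re D.x
  have hHU : H ⊆ D.U := by
    rintro z ⟨h1, h2⟩
    refine ⟨h1, ?_⟩
    rintro rfl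
    simp only [mem_ofPred_eq, ha0] at h2
    exact lt_irrefl _ h2
  have hHc : IsPreconnected H :=
    ((convex_ball _ _).inter (convex_halfSpace_re_gt 0)).isPreconnected
  -- rotation types near a parameter
  have hrot : ∀ L' ∈ D.U, ∀ y, RotT D.m (D.c L') (D.b L') L' y → ∀ᶠ L'' in 𝓝 L',
      D.c L'' ∈ MM → RotT D.m (D.c L'') (D.b L'') L'' y := by
    intro L' hL' y hy
    have hB := U_sub_B hP hL'
    have h1 := hrd.opn _ _ _ _ hy
    have h2 : ContinuousAt (fun L'' => ((D.c L'', D.b L'', L'') : ℂ × ℂ × ℂ)) L' :=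
      (c_contAt hP hB).prodMk ((b_contAt hP hB).prodMk continuousAt_id)
    filter_upwards [h2.tendsto.eventually h1, isOpen_B.mem_nhds hB] with L'' h3 h4 h5
    exact h3 h5 (hP.sec L'' h4).1 (hP.sec L'' h4).2
  have hopen : IsOpen S := by
    rw [isOpen_iff_mem_nhds]
    rintro L' ⟨h1, h2, h3⟩
    have hB := U_sub_B hP h1
    have e1 := plateau_nhds hP hC hR h1 h2
    have e2 := (h5 D hP hC L' hB h2.1 h2.2.1).2 h3
    filter_upwards [e1, e2, hrot L' h1 _ h2, isOpen_U.mem_nhds h1, isOpen_B.mem_nhds hB] with L''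
      g1 g2 g3 g4 g5
    have hM : D.c L'' ∈ MM := by
      by_contra hM
      obtain ⟨θ, hθ⟩ := hP.ang L'' g5 hM
      have g6 := g1 θ hθ
      rcases g2.2 θ hθ with g7 | g7 <;> linarith [g6.1, g6.2]
    exact ⟨g4, g3 hM, g2.1 hM⟩
  have hclosed : closure S ∩ H ⊆ S := by
    rintro L' ⟨h1, h2⟩
    have hU := hHU h2
    have hB := U_sub_B hP hU
    have hfr := mem_closure_iff_frequently.1 h1
    have hM : D.c L' ∈ MM := by
      have h3 : ∃ᶠ L'' in 𝓝 L', D.c L'' ∈ MM := hfr.mono fun L'' h => h.2.1.2.1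
      have h4 : ∃ᶠ c in 𝓝 (D.c L'), c ∈ MM := (c_contAt hP hB).tendsto.frequently h3
      exact isClosed_MM.closure_subset (mem_closure_iff_frequently.2 h4)
    obtain ⟨y, hy⟩ := hrd.ex _ _ _ (hP.sec L' hB).1 (hP.sec L' hB).2 h2.2 hM
    obtain ⟨L'', h3, h4⟩ := (hfr.and_eventually (hrot L' hU y hy)).exists
    have hyx : y = D.x := hrd.uniq _ _ _ _ _ (h4 h3.2.1.2.1) h3.2.1
    subst hyx
    refine ⟨hU, hy, fun hl => ?_⟩
    obtain ⟨L₃, h6, h7⟩ := (hfr.and_eventually ((h5 D hP hC L' hB h2.2 hM).1 hl)).exists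
    exact h6.2.2 (h7.1 h6.2.1.2.1)
  have hall : H ⊆ S := hHc.subset_of_closure_inter_subset hopen ⟨L, ⟨hL.1, h.1⟩, hL, h, hland⟩ hclosed
  -- contradiction with the inequality of Pommerenke, Levin and Yoccoz
  have hr := sR_pos hP
  set r := sR D.m D.x with hrdef
  set A : ℝ := 2 * D.m * Real.log 2 / D.x.den with hA
  have hA0 : 0 < A := by
    have : 0 < Real.log 2 := Real.log_pos (by norm_num)
    have h1 : (0 : ℝ) < D.m := by exact_mod_cast hP.m_pos
    have h2 : (0 : ℝ) < D.x.den := by exact_mod_cast D.x.pos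
    positivity
  obtain ⟨ε, hε, hε1, hε2⟩ : ∃ ε : ℝ, 0 < ε ∧ ε < r / 4 ∧ A * ε < (r / 2) ^ 2 := by
    refine ⟨min (r / 8) ((r / 2) ^ 2 / (2 * A)), by positivity, ?_, ?_⟩
    · exact (min_le_left _ _).trans_lt (by linarith)
    · calc A * min (r / 8) ((r / 2) ^ 2 / (2 * A)) ≤ A * ((r / 2) ^ 2 / (2 * A)) := by
            gcongr; exact min_le_right _ _
        _ = (r / 2) ^ 2 / 2 := by field_simp
        _ < (r / 2) ^ 2 := half_lt_self (by positivity)
  set z : ℂ := D.a + (ε + (r / 2 : ℝ) * I) with hz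
  have hza : z - D.a = ε + (r / 2 : ℝ) * I := by rw [hz]; ring
  have hzre : z.re = ε := by simp [hz, ha0]
  have hzH : z ∈ H := by
    refine ⟨?_, by simp only [mem_ofPred_eq]; rw [hzre]; exact hε⟩
    rw [mem_ball, dist_eq_norm, hza]
    calc ‖(ε : ℂ) + (r / 2 : ℝ) * I‖ ≤ ‖(ε : ℂ)‖ + ‖((r / 2 : ℝ) : ℂ) * I‖ := norm_add_le _ _
      _ = ε + r / 2 := by
          rw [norm_mul, norm_I, mul_one, norm_real, norm_real, Real.norm_of_nonneg hε.le,
            Real.norm_of_nonneg (by positivity)]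
      _ < r := by linarith
  have h1 := hrd.ply _ _ _ _ (hall hzH).2.1
  change ‖z - D.a‖ ^ 2 ≤ A * z.re at h1
  rw [hza, hzre] at h1
  have h2 : (r / 2) ^ 2 ≤ ‖(ε : ℂ) + (r / 2 : ℝ) * I‖ ^ 2 := by
    have h3 := abs_im_le_norm ((ε : ℂ) + (r / 2 : ℝ) * I)
    have h4 : ((ε : ℂ) + (r / 2 : ℝ) * I).im = r / 2 := by simp
    rw [h4, abs_of_pos (by positivity)] at h3
    gcongr
  linarith

end Pool.Agent.Work.MLC.H24

/-! # The child has non-integer rotation over the limb of the parent (helper24) -/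

namespace Pool.Agent.Work.MLC.H24

open Filter Topology Metric Set Complex
open Pool.Agent.Work.MLC Pool.Agent.Work.MLC.Tr Pool.Agent.Work.MLC.Sat

section fam

variable {n : ℕ} {c : ℂ → ℂ} {V : Set ℂ} {Z Z' : ℂ → Set ℂ}

lemma fam_branch (hF : CycFam n c V Z) {L z : ℂ} (hL : L ∈ V) (hc : ContinuousAt c L)
    (hz : z ∈ Z L) {β : ℂ → ℂ} (hβ : Cnt.IsBranch n (c L) z β) :
    ∀ᶠ L' in 𝓝 L, β (c L') ∈ Z L' := by
  have h1 : ContinuousAt (fun L' => ((L', β (c L')) : ℂ × ℂ)) L := by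
    refine continuousAt_id.prodMk ?_
    exact ContinuousAt.comp (g := β) (f := c) (x := L) hβ.an.continuousAt hc
  have h2 : Tendsto (fun L' => ((L', β (c L')) : ℂ × ℂ)) (𝓝 L) (𝓝 (L, z)) := by
    have := h1.tendsto
    rwa [hβ.val] at this
  filter_upwards [h2.eventually (hF.cont L hL z hz), hc.tendsto.eventually hβ.eqn] with L' h3 h4
  exact h3 h4

end fam

variable {D : Dat} {Z : ℂ → Set ℂ}

end Pool.Agent.Work.MLC.H24

/-! # Satellites of the main cardioid: from Theorem S to `ChildRoot` (helper24) -/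

namespace Pool.Agent.Work.MLC.H24

open Filter Topology Metric Set Complex
open Pool.Agent.Work.MLC Pool.Agent.Work.MLC.Tr Pool.Agent.Work.MLC.Sat

variable {D : Dat} {Z : ℂ → Set ℂ}

lemma c_diff (hP : D.Par) {L : ℂ} (hL : L ∈ D.B) : DifferentiableAt ℂ D.c L :=
  differentiableAt_of_deriv_ne_zero (section_deriv_ne_zero (goodB hP) hP.cont hP.sec hL)

/-- the multiplier of the glued family -/
theorem exists_K (h10 : S10_origin) (hP : D.Par) (hC : D.Cir) (hR : Regions D) (hG : Glued D Z) :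
    ∃ K : ℂ → ℂ, (∀ L ∈ D.U, ∀ z ∈ Z L, mul D.n (D.c L, z) = K L) ∧
      DifferentiableOn ℂ K (ball D.a (sR D.m D.x)) ∧ K D.a = 1 := by
  classical
  set K : ℂ → ℂ := fun L => if h : L ∈ D.U then mul D.n (D.c L, (hG.fam.ne L h).some) else 1
    with hK
  have h1 : ∀ L ∈ D.U, ∀ z ∈ Z L, mul D.n (D.c L, z) = K L := by
    intro L hL z hz
    have h2 := (hG.fam.ne L hL).some_mem
    obtain ⟨i, hi⟩ := (hG.fam.cyc L hL z hz _).1 h2
    simp only [hK, dif_pos hL]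
    rw [hi, mul_it' (hG.fam.fix L hL z hz).1 i]
  have ha : K D.a = 1 := by
    have : D.a ∉ D.U := fun h => h.2 rfl
    simp only [hK, dif_neg this]
  have h3 : ∀ L ∈ D.U, DifferentiableAt ℂ K L := by
    intro L hL
    have hB := U_sub_B hP hL
    obtain ⟨z, hz⟩ := hG.fam.ne L hL
    obtain ⟨β, hβ⟩ := Cnt.exists_branch (hG.fam.fix L hL z hz).1 (hG.fam.fix L hL z hz).2
    have h4 := Cnt.analyticAt_mul_branch hβ
    have h5 : DifferentiableAt ℂ (fun L' => mul D.n (D.c L', β (D.c L'))) L :=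
      DifferentiableAt.comp (g := fun c => mul D.n (c, β c)) (f := D.c) L h4.differentiableAt
        (c_diff hP hB)
    refine h5.congr_of_eventuallyEq ?_
    filter_upwards [fam_branch hG.fam hL (c_contAt hP hB) hz hβ, isOpen_U.mem_nhds hL] with L' h6 h7
    rw [h1 L' h7 _ h6]
  refine ⟨K, h1, ?_, ha⟩
  have h6 := h10 D Z K hP hC hR hG h1
  have hmem : ball D.a (sR D.m D.x) ∈ 𝓝 D.a := ball_mem_nhds _ (sR_pos hP)
  rw [← differentiableOn_compl_singleton_and_continuousAt_iff hmem]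
  refine ⟨fun L hL => (h3 L hL).differentiableWithinAt, ?_⟩
  rw [continuousAt_iff_punctured_nhds, ha]
  exact h6

end Pool.Agent.Work.MLC.H24

/-! # Hoelder local connectivity along the main cardioid, from Theorem S (helper24) -/

namespace Pool.Agent.Work.MLC.H24

open Filter Topology Metric Set Complex
open Pool.Agent.Work.MLC Pool.Agent.Work.MLC.Tr Pool.Agent.Work.MLC.Sat

variable {D : Dat} {Z : ℂ → Set ℂ}

end Pool.Agent.Work.MLC.H24
end

section
set_option autoImplicit false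

/-! # Theorem N, module N5: the limb is open and closed up to the root (helper60)

`n5_open`: near a point of the limb all parameters of `MM` are in the limb and all exterior
parameters have their angle in the plateau.
`n5_closed`: a limit of the limb and of the exterior parameters with angles in the plateau is in the
limb or is the root. -/

namespace Pool.Agent.Work.MLC.Cnt

open Filter Topology Metric Set Complex
open Pool.Agent.Work.MLC.Sat

variable {D : Dat}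

lemma nu_plateau_lt (hP : D.Par) (hC : D.Cir) {θ : ℝ} (h1 : D.tm ≤ θ) (h2 : θ ≤ D.tp) :
    (D.k₀ : ℝ) < Circ.nu D.w D.m θ ∧ Circ.nu D.w D.m θ < D.k₀ + 1 := by
  have h3 : Circ.nu D.w D.m θ = D.k₀ + D.x := (hC.plateau θ).2 ⟨h1, h2⟩
  have hx0 : (0 : ℝ) < D.x := by exact_mod_cast hP.x_pos
  have hx1 : (D.x : ℝ) < 1 := by exact_mod_cast hP.x_lt
  rw [h3]
  constructor <;> linarith

/-- the rotation numbers of the plateau are not integers -/
lemma nu_plateau_ne (hP : D.Par) (hC : D.Cir) {θ : ℝ} (h1 : D.tm ≤ θ) (h2 : θ ≤ D.tp) (k : ℤ) :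
    Circ.nu D.w D.m θ ≠ k := by
  intro h
  obtain ⟨h3, h4⟩ := nu_plateau_lt hP hC h1 h2
  rw [h] at h3 h4
  have h5 : D.k₀ < k := by exact_mod_cast h3
  have h6 : k < D.k₀ + 1 := by exact_mod_cast h4
  omega

/-- all angles of the plateau have the label of the parent -/
lemma lab_plateau (hP : D.Par) (hC : D.Cir) {θ : ℝ} (h1 : D.tm ≤ θ) (h2 : θ ≤ D.tp) :
    lab D.m θ D.w = JP D := by
  refine lab_of_strip hP.bits fun θ'' h k => ?_
  rw [uIcc_of_le h1] at h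
  exact nu_plateau_ne hP hC h.1 (h.2.trans h2) k

/-- over an exterior parameter with angle in the plateau there is a pair with the label of the
parent and the word `w` -/
lemma nj_of_ang (hP : D.Par) (hC : D.Cir) {c : ℂ} {θ : ℝ} (h : Ang c θ) (h1 : D.tm ≤ θ)
    (h2 : θ ≤ D.tp) : ∃ b, ExtP D.m c b θ D.w ∧ (c, b) ∈ NJ D.m (JP D) := by
  obtain ⟨b, hb⟩ := exists_extP hP.m_pos h hP.bits
  have hM : c ∉ MM := not_mem_MM_iff.2 h.1
  have hper : (c, b) ∈ Per D.m := hb.2.2.1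
  refine ⟨b, hb, hper, rep13 hP.m_pos hper hM, nonInt_ext hb fun k => nu_plateau_ne hP hC h1 h2 k,
    ?_⟩
  rw [FF_ext (x := (c, b)) hb]
  exact lab_plateau hP hC h1 h2

/-- a pair with the label of the parent compatible with `tm` has its angle in the plateau -/
lemma angle_of_compat (hP : D.Par) (hC : D.Cir) {c b : ℂ} (hNJ : (c, b) ∈ NJ D.m (JP D)) {θ : ℝ}
    {v : ℕ → ℤ} (hv : ExtP D.m c b θ v) (hc : Compat D.tm θ v) :
    ∃ k : ℤ, D.tm < θ + k ∧ θ + k < D.tp := by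
  obtain ⟨g0, g1⟩ := nu_plateau_lt hP hC le_rfl hC.lt.le
  have h6 : lab D.m θ v = lab D.m D.tm D.w := by
    rw [← FF_ext (x := (c, b)) hv]; exact hNJ.2.2.2
  obtain ⟨M, a1, a2, a3⟩ := exists_shift_of_lab hP.m_pos hv.2.2.2.1 hP.bits g0 g1
    (hNJ.2.2.1.2 θ v hv) h6
  exact ⟨M, hC.compat_w' _ ((compat_parity a1).1 hc) a2 a3⟩

theorem n5_open : N5_open := by
  rintro D hP hC c ⟨hM, b, hNJ, hland⟩
  have hm := hP.m_pos
  have hM0 : G c 0 = 0 := G_zero_of_mem hM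
  have hρ : 1 < ‖mult D.m c b‖ := hNJ.2.1
  obtain ⟨β, hβc, hβ0, hβ⟩ := nj_cont hm hNJ
  have t1 : Tendsto (fun c' => ((c', β c') : ℂ × ℂ)) (𝓝 c) (𝓝 (c, b)) := by
    have := hβc.tendsto
    rw [hβ0] at this
    exact tendsto_id.prodMk_nhds this
  filter_upwards [hβ, t1.eventually (land_nhds hm hM0 hNJ.1 hρ hland)] with c' h1 h2
  have h3 := h2 h1.1
  refine ⟨fun h4 => ⟨h4, β c', h1, h3.1 (G_zero_of_mem h4)⟩, fun θ hθ => ?_⟩
  obtain ⟨v, hv⟩ := exists_extP_word hm hθ h1.1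
  exact angle_of_compat hP hC h1 hv (h3.2 θ v hv.1 hv.2.1 hv.2.2.2.2)

/-- the closed wake over the exterior parameters -/
def Wk (D : Dat) : Set ℂ := {c' | ∃ θ, Ang c' θ ∧ D.tm ≤ θ ∧ θ ≤ D.tp}

/-- **landing is closed at the pairs with the label of the parent** -/
theorem land_of_limit (hP : D.Par) (hC : D.Cir) {c b : ℂ} (hM : c ∈ MM)
    (hNJ : (c, b) ∈ NJ D.m (JP D)) (h : ∃ᶠ c' in 𝓝 c, c' ∈ Lm D ∪ Wk D) :
    Land D.m c b D.tm D.x.den := by
  have hm := hP.m_pos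
  have hM0 : G c 0 = 0 := G_zero_of_mem hM
  have hper : it c D.m b = b := hNJ.1
  by_contra hnl
  obtain ⟨β, q, hq, hland⟩ := hNJ.2.2.1.1 hM0
  -- angles in the plateau are not compatible with `β`
  have key : ∀ θ, D.tm ≤ θ → θ ≤ D.tp → ¬ Compat β θ D.w := by
    intro θ h1 h2 h3
    obtain ⟨j, l, hjl⟩ := hC.trans θ h1 h2 β q hland.1 h3
    exact hnl (land_of_orb hper hM0 (hland.lands hM0) hC.per hjl)
  obtain ⟨γ, hγc, hγ0, hγ⟩ := nj_cont hm hNJ
  have t1 : Tendsto (fun c' => ((c', γ c') : ℂ × ℂ)) (𝓝 c) (𝓝 (c, b)) := by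
    have := hγc.tendsto
    rw [hγ0] at this
    exact tendsto_id.prodMk_nhds this
  obtain ⟨c', h1, h2, h3⟩ := (h.and_eventually (hγ.and
    (t1.eventually (land_nhds hm hM0 hper hNJ.2.1 hland)))).exists
  have h4 := h3 h2.1
  rcases h1 with ⟨hM', b', hb', hl'⟩ | ⟨θ, hθ, h5, h6⟩
  · have hb0 : b' = γ c' := nj_unique hm hb' h2
    subst hb0
    have hM0' := G_zero_of_mem hM'
    have hland' := h4.1 hM0'
    have hF : Fam D.m c' (γ c') {β, D.tm} := by
      refine ⟨(Set.finite_singleton _).insert _, ?_, ?_, ⟨β, by simp, q, hq, hland.1⟩⟩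
      · rintro β' (rfl | rfl)
        · exact ⟨q, hland.1⟩
        · exact ⟨_, hC.per⟩
      · rintro β' (rfl | rfl)
        · exact hland'.lands hM0'
        · exact hl'.lands hM0'
    have hPH := portHyp hm c' (γ c') _ hM0' h2.1 h2.2.1 hF
    obtain ⟨θ, v, hv, hfit⟩ := exists_fits hm hF hPH
    have c1 : Compat β θ v := hfit.compat (by simp) (hland'.lands hM0')
    have c2 : Compat D.tm θ v := hfit.compat (by simp) (hl'.lands hM0')
    have hν := nu_ne_int_of_compat hq hland.1 hv.per c1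
    have hlab : FF D.m (c', γ c') = lab D.m θ v := by
      have hM'' : G ((c', γ c') : ℂ × ℂ).1 0 = 0 := hM0'
      rw [FF, if_pos hM'']
      exact labM_eq hm hF (fun B hB => portHyp hm c' (γ c') B hM0' h2.1 h2.2.1 hB) hv hfit
    obtain ⟨g0, g1⟩ := nu_plateau_lt hP hC le_rfl hC.lt.le
    obtain ⟨M, hM1, hM2, hM3⟩ := exists_shift_of_lab hm hv hP.bits g0 g1 hν
      (hlab.symm.trans h2.2.2.2)
    have c3 : Compat D.tm (θ + M) D.w := (compat_parity hM1).1 c2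
    have c4 : Compat β (θ + M) D.w := (compat_parity hM1).1 c1
    obtain ⟨d1, d2⟩ := hC.compat_w' _ c3 hM2 hM3
    exact key _ d1.le d2.le c4
  · obtain ⟨b', hb', hn'⟩ := nj_of_ang hP hC hθ h5 h6
    have hb0 : b' = γ c' := nj_unique hm hn' h2
    subst hb0
    exact key θ h5 h6 (h4.2 θ D.w hb'.1 hb'.2.1 hb'.2.2.2.2)

/-- in the limit the inequality of Pommerenke, Levin and Yoccoz gives the multiplier -/
lemma mul_eq_of_ply {n : ℕ} {y₀ : ℂ × ℂ} (h0 : ‖mul n y₀‖ = 1) {K : ℝ} (hK : 0 < K) {z₀ : ℂ}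
    (h : ∃ᶠ y in 𝓝 y₀, ∃ ℓ, exp ℓ = mul n y ∧ ‖ℓ - z₀‖ ^ 2 ≤ K * ℓ.re) : mul n y₀ = exp z₀ := by
  rw [← sub_eq_zero, ← norm_eq_zero]
  refine le_antisymm (le_of_forall_pos_le_add fun ε hε => ?_) (norm_nonneg _)
  rw [zero_add]
  obtain ⟨δ, hδ, h1⟩ := Metric.continuousAt_iff.1 (continuous_exp.continuousAt (x := z₀)) (ε / 2)
    (by linarith)
  have h2 : ∀ᶠ y in 𝓝 y₀, ‖mul n y‖ < Real.exp (δ ^ 2 / K) := by
    refine (continuous_mul' n).norm.continuousAt.eventually_lt_const ?_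
    show ‖mul n y₀‖ < _
    rw [h0, Real.one_lt_exp_iff]
    positivity
  have h3 : ∀ᶠ y in 𝓝 y₀, dist (mul n y) (mul n y₀) < ε / 2 :=
    (continuous_mul' n).continuousAt.eventually (ball_mem_nhds _ (by linarith))
  obtain ⟨y, ⟨ℓ, h4, h5⟩, h6, h7⟩ := (h.and_eventually (h2.and h3)).exists
  rw [← h4, Complex.norm_exp, Real.exp_lt_exp, lt_div_iff₀ hK] at h6
  have h8 : ‖ℓ - z₀‖ < δ := lt_of_pow_lt_pow_left₀ 2 hδ.le (by linarith)
  have h9 := h1 (x := ℓ) (by rw [dist_eq_norm]; exact h8)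
  rw [h4, dist_eq_norm] at h9
  rw [dist_eq_norm] at h7
  have h10 : mul n y₀ - exp z₀ = (mul n y - exp z₀) - (mul n y - mul n y₀) := by ring
  rw [h10]
  exact (norm_sub_le _ _).trans (by linarith)

/-- an exterior pair with the label of the parent has exact period `m` -/
lemma prim_of_nj (hP : D.Par) (hC : D.Cir) {c b : ℂ} {θ : ℝ} {v : ℕ → ℤ}
    (hNJ : (c, b) ∈ NJ D.m (JP D)) (hv : ExtP D.m c b θ v) {g : ℕ} (hg : 0 < g) (hgm : g < D.m) :
    it c g b ≠ b := by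
  intro hfix
  have h1 : ExtP D.m c b θ fun i => v (i + g) := by
    obtain ⟨a1, a2, a3, a4, a5⟩ := hv
    refine ⟨a1, a2, a3, ⟨fun i => a4.bit (i + g), fun i => ?_⟩, fun i => ?_⟩
    · show v (i + D.m + g) = v (i + g)
      rw [← a4.per (i + g)]
      congr 1
      ring
    · have h2 := a5 (i + g)
      have h3 : it c (i + g) b = it c i b := by
        rw [← it_comp, hfix]
      rwa [h3] at h2
  obtain ⟨k, hk, hev⟩ := extP_unique hv h1
  have hk0 : k = 0 := by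
    have : (k : ℝ) = 0 := by linarith
    exact_mod_cast this
  obtain ⟨g0, g1⟩ := nu_plateau_lt hP hC le_rfl hC.lt.le
  have h6 : lab D.m θ v = lab D.m D.tm D.w := by
    rw [← FF_ext (x := (c, b)) hv]; exact hNJ.2.2.2
  obtain ⟨M, a1, -, -⟩ := exists_shift_of_lab hP.m_pos hv.2.2.2.1 hP.bits g0 g1
    (hNJ.2.2.1.2 θ v hv) h6
  obtain ⟨i, hi⟩ := hP.wprim g hg hgm
  apply hi
  have e1 := hev i
  have e2 := a1 i
  have e3 := a1 (i + g)
  simp only [hk0] at e1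
  rw [Int.even_iff] at e1 e2 e3
  rcases hP.bits.bit i with p | p <;> rcases hP.bits.bit (i + g) with p' | p' <;> rw [p, p'] <;>
    rw [p] at e2 <;> rw [p'] at e3 <;> omega

/-- limits of pairs with the label of the parent have exact period `m` -/
lemma prim_of_limit (hP : D.Par) (hC : D.Cir) {c b : ℂ} (hM : c ∈ MM)
    (hcl : (c, b) ∈ closure (NJ D.m (JP D))) (h1 : ‖mul D.m (c, b)‖ = 1)
    (hne : mul D.m (c, b) ≠ 1) : ∀ d, 0 < d → d < D.m → it c d b ≠ b := by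
  intro d hd hdm hfix
  have hm := hP.m_pos
  obtain ⟨hper, -⟩ := closure_per hcl
  have hg : (c, b) ∈ Per (Nat.gcd d D.m) := it_gcd_fix hfix hper
  have hg0 : 0 < Nat.gcd d D.m := Nat.gcd_pos_of_pos_left _ hd
  have hgm : Nat.gcd d D.m < D.m := (Nat.gcd_le_left _ hd).trans_lt hdm
  obtain ⟨β, hβa, hβ0, hβ⟩ := chart hper hne
  simp only at hβ0 hβa
  have t1 : Tendsto (fun c' => ((c', β c') : ℂ × ℂ)) (𝓝 c) (𝓝 (c, b)) := by
    have := hβa.continuousAt.tendsto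
    rw [hβ0] at this
    exact tendsto_id.prodMk_nhds this
  obtain ⟨c', h2, h3, h4, h5⟩ := ((ext_of_neutral hm hper h1).and_eventually
    ((t1.eventually hβ).and ((t1.eventually (fix_nhds (Nat.gcd_dvd_right d D.m) hg hne)).and
      (t1.eventually (closure_nj_nhds hm hM hcl hne))))).exists
  have h6 : (c', β c') ∈ Per D.m := h3.2 rfl
  have h7 := h5 h6 (rep13 hm h6 h2)
  obtain ⟨θ, hθ⟩ := exists_ang (not_mem_MM_iff.1 h2)
  obtain ⟨v, hv⟩ := exists_extP_word hm hθ h6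
  exact prim_of_nj hP hC h7 hv hg0 hgm (h4 h6)

/-- **the label and the rotation number determine the root** -/
theorem eq_root (hP : D.Par) (hC : D.Cir) {c b : ℂ} (hM : c ∈ MM)
    (hcl : (c, b) ∈ closure (NJ D.m (JP D))) (hmul : mul D.m (c, b) = exp (axisPt D.x)) :
    c = rt D := by
  have hm := hP.m_pos
  have h1 : ‖mul D.m (c, b)‖ = 1 := by
    rw [hmul, Complex.norm_exp]
    simp [axisPt]
  have hx0 : (0 : ℝ) < D.x := by exact_mod_cast hP.x_pos
  have hx1 : (D.x : ℝ) < 1 := by exact_mod_cast hP.x_lt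
  have hne : mul D.m (c, b) ≠ 1 := by
    rw [hmul]
    intro h
    rw [Complex.exp_eq_one_iff] at h
    obtain ⟨k, hk⟩ := h
    have h2 : ((D.x : ℝ) : ℂ) = ((k : ℝ) : ℂ) := by
      have h3 : (2 * Real.pi * I : ℂ) ≠ 0 := by
        simp [Real.pi_ne_zero]
      have h4 : (2 * Real.pi * I : ℂ) * ((D.x : ℝ) : ℂ) = (2 * Real.pi * I : ℂ) * ((k : ℝ) : ℂ) := by
        unfold axisPt at hk
        push_cast at hk ⊢
        linear_combination hk
      exact mul_left_cancel₀ h3 h4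
    have h3 : (D.x : ℝ) = k := by exact_mod_cast h2
    rw [h3] at hx0 hx1
    have h4 : (0 : ℤ) < k := by exact_mod_cast hx0
    have h5 : k < (1 : ℤ) := by exact_mod_cast hx1
    omega
  obtain ⟨hper, -⟩ := closure_per hcl
  obtain ⟨D₂, hm2, hx2, hσ2, hP2⟩ := s0_parent D.m D.x c b hm hP.x_pos hP.x_lt hper
    (prim_of_limit hP hC hM hcl h1 hne) hmul
  have haB := a_mem_B hP
  have haB2 := a_mem_B hP2
  have ha : D₂.a = D.a := by unfold Dat.a; rw [hx2]
  have t1 : Tendsto (fun s : ℝ => D.a + (s : ℂ)) (𝓝[>] 0) (𝓝 D.a) := by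
    have h6 : Continuous fun s : ℝ => D.a + (s : ℂ) := by fun_prop
    have h7 := h6.tendsto 0
    simp only [ofReal_zero, add_zero] at h7
    exact h7.mono_left nhdsWithin_le_nhds
  have t2 : Tendsto (fun s : ℝ => D.σ (D.a + (s : ℂ))) (𝓝[>] 0) (𝓝 (D.σ D.a)) :=
    (σ_contAt hP haB).tendsto.comp t1
  have t3 : Tendsto (fun s : ℝ => D₂.σ (D.a + (s : ℂ))) (𝓝[>] 0) (𝓝 (c, b)) := by
    have h6 := σ_contAt hP2 haB2
    rw [ha] at h6
    have h7 : D₂.σ D.a = (c, b) := hσ2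
    have h8 := h6.tendsto.comp t1
    rw [h7] at h8
    exact h8
  have e1 : ∀ᶠ s : ℝ in 𝓝[>] 0, D.σ (D.a + (s : ℂ)) = D₂.σ (D.a + (s : ℂ)) := by
    filter_upwards [t1.eventually (isOpen_B.mem_nhds haB), self_mem_nhdsWithin,
      t3.eventually (closure_nj_nhds hm hM hcl hne)] with s h2 h3 h4
    have hs : (0 : ℝ) < s := h3
    have hre : 0 < (D.a + (s : ℂ)).re := by
      rw [add_re, Sat.a_re, ofReal_re, zero_add]; exact hs
    have hB2 : D.a + (s : ℂ) ∈ D₂.B := by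
      have : D₂.B = D.B := by unfold Dat.B; rw [ha, hm2, hx2]
      rw [this]; exact h2
    have n1 := σ_mem_NJ hP hC h2 hre
    obtain ⟨p1, p2⟩ := hP2.sec _ hB2
    rw [hm2] at p1 p2
    have n2 := h4 p1 (by rw [p2, Complex.norm_exp]; exact Real.one_lt_exp_iff.2 hre)
    refine s4_unique D.m D.x (D.a + (s : ℂ)) _ _ hm hP.x_pos hP.x_lt h2 hre n1.1 p1
      (hP.sec _ h2).2 p2 ?_
    rw [n1.2.2.2, n2.2.2.2]
    rfl
  have h2 : D.σ D.a = (c, b) := tendsto_nhds_unique (t2.congr' e1) t3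
  show c = (D.σ D.a).1
  rw [h2]

/-- the ray `tm` lands: combinatorial rotation number `x`, also along the orbit -/
lemma ex_of_land (hP : D.Par) (hC : D.Cir) {c b : ℂ} (hM : G c 0 = 0)
    (hl : Land D.m c b D.tm D.x.den) (i : ℕ) : Ex D.m D.x c (it c i b) := by
  have hpa := perAngle_of_mem hC.per (mem_AA D.m D.tm i)
  refine ⟨2 ^ i * D.tm, land_of_lands hM hpa ((hl.lands hM).push59 i), (D.tm + D.tp) / 2,
    fun j => D.w (j + i), fun j => ?_, fun j => ?_, D.k₀, ?_⟩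
  · show D.w (j + D.m + i) = D.w (j + i)
    rw [← hP.bits.per (j + i)]
    congr 1
    ring
  · obtain ⟨k, h1, h2⟩ := (hC.compat_w ((D.tm + D.tp) / 2) (by linarith [hC.lt])
      (by linarith [hC.lt])).1 (j + i)
    refine ⟨k, ?_, ?_⟩
    · rw [pow_add] at h1
      linarith
    · rw [pow_add] at h2
      linarith
  · rw [s1_rot D.m D.w i _ hP.bits, (hC.plateau _).2 ⟨by linarith [hC.lt], by linarith [hC.lt]⟩]
    ring

lemma exp_axisPt_ne_one {x : ℚ} (hx0 : 0 < x) (hx1 : x < 1) : exp (axisPt x) ≠ 1 := by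
  intro h
  rw [Complex.exp_eq_one_iff] at h
  obtain ⟨k, hk⟩ := h
  have hx0' : (0 : ℝ) < x := by exact_mod_cast hx0
  have hx1' : (x : ℝ) < 1 := by exact_mod_cast hx1
  have h2 : ((x : ℝ) : ℂ) = ((k : ℝ) : ℂ) := by
    have h3 : (2 * Real.pi * I : ℂ) ≠ 0 := by
      simp [Real.pi_ne_zero]
    have h4 : (2 * Real.pi * I : ℂ) * ((x : ℝ) : ℂ) = (2 * Real.pi * I : ℂ) * ((k : ℝ) : ℂ) := by
      unfold axisPt at hk
      push_cast at hk ⊢
      linear_combination hk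
    exact mul_left_cancel₀ h3 h4
  have h3 : (x : ℝ) = k := by exact_mod_cast h2
  rw [h3] at hx0' hx1'
  have h4 : (0 : ℤ) < k := by exact_mod_cast hx0'
  have h5 : k < (1 : ℤ) := by exact_mod_cast hx1'
  omega

/-- rotation types: shift of the logarithm -/
lemma rotT_shift {n : ℕ} {c b L : ℂ} {x : ℚ} (h : Tr.RotT n c b L x) (j : ℤ) :
    Tr.RotT n c b (L - j * (2 * Real.pi * I)) (x - j) := by
  obtain ⟨h1, h2, h3, h4, q, p, hq, ⟨g, g1, g2, g3⟩, hx⟩ := h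
  refine ⟨by simpa using h1, h2, h3, ?_, q, p - q * j, hq, ⟨g, g1, g2, fun s => ?_⟩, ?_⟩
  · rw [h4, Complex.exp_sub, Complex.exp_int_mul_two_pi_mul_I, div_one]
  · rw [g3]
    push_cast
    ring
  · rw [hx]
    have : (q : ℚ) ≠ 0 := by exact_mod_cast hq.ne'
    push_cast
    field_simp

/-- the rotation type of the points of the limb -/
lemma lm_rot (hP : D.Par) (hC : D.Cir) {c b : ℂ} (hM : c ∈ MM) (hNJ : (c, b) ∈ NJ D.m (JP D))
    (hl : Land D.m c b D.tm D.x.den) :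
    ∃ (L : ℂ) (y : ℚ), Tr.RotT D.m c b L y ∧ 0 < y ∧ y < 1 ∧ y.den = D.x.den := by
  have hm := hP.m_pos
  have hM0 : G c 0 = 0 := G_zero_of_mem hM
  have h2 := two_le_den hP.x_pos hP.x_lt
  have hρ : 1 < ‖mult D.m c b‖ := hNJ.2.1
  have hL : mul D.m (c, b) = exp (Complex.log (mul D.m (c, b))) := by
    rw [Complex.exp_log]
    intro h0
    have := hNJ.2.1
    rw [h0, norm_zero] at this
    linarith
  have hre : 0 < (Complex.log (mul D.m (c, b))).re := by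
    rw [Complex.log_re]
    exact Real.log_pos hNJ.2.1
  obtain ⟨y₀, hy₀⟩ := (Tr.rotData hm).ex c b _ hNJ.1 hL hre hM
  obtain ⟨β, hβ⟩ := H24.land_of_rotT hm hy₀
  have hE := ex_of_land hP hC hM0 hl 0
  rw [it_zero] at hE
  have hden := (hE.all hm h2 hM0 hNJ.1 hρ hβ).1
  refine ⟨_, y₀ - ⌊y₀⌋, rotT_shift hy₀ ⌊y₀⌋, ?_, ?_, ?_⟩
  · have h3 : 0 ≤ y₀ - ⌊y₀⌋ := by
      have := Int.floor_le y₀
      linarith
    refine lt_of_le_of_ne h3 fun h4 => ?_
    have h5 : y₀ = ((⌊y₀⌋ : ℤ) : ℚ) := by linarith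
    have h6 : y₀.den = 1 := by rw [h5]; simp
    omega
  · have := Int.lt_floor_add_one y₀
    linarith
  · rw [← hden]
    simp

/-- **a neutral limit of the pairs of the limb has the multiplier of the root** -/
theorem mul_of_limit (hP : D.Par) (hC : D.Cir) {c b : ℂ} (hM : c ∈ MM)
    (h1 : ‖mul D.m (c, b)‖ = 1) (h : ∃ᶠ y : ℂ × ℂ in 𝓝 (c, b), y.1 ∈ MM ∧ y ∈ NJ D.m (JP D) ∧
      Land D.m y.1 y.2 D.tm D.x.den) : mul D.m (c, b) = exp (axisPt D.x) := by
  have hm := hP.m_pos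
  have hlog0 : 0 < Real.log 2 := Real.log_pos (by norm_num)
  have hm0 : (0 : ℝ) < D.m := by exact_mod_cast hm
  have hcl : (c, b) ∈ closure (NJ D.m (JP D)) :=
    mem_closure_iff_frequently.2 (h.mono fun y hy => hy.2.1)
  obtain ⟨hper, -⟩ := closure_per hcl
  -- a fixed rotation type
  have hfin : {z : ℚ | 0 < z ∧ z < 1 ∧ z.den = D.x.den}.Finite := by
    refine ((Set.finite_Icc (0 : ℤ) D.x.den).image fun p : ℤ => (p : ℚ) / (D.x.den : ℚ)).subset ?_
    rintro z ⟨h2, h3, h4⟩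
    have h5 : (0 : ℚ) < D.x.den := by exact_mod_cast D.x.pos
    have h6 : z = (z.num : ℚ) / (D.x.den : ℚ) := by
      rw [← h4]; exact (Rat.num_div_den z).symm
    refine ⟨z.num, ⟨(Rat.num_pos.2 h2).le, ?_⟩, h6.symm⟩
    rw [h6, div_lt_one h5] at h3
    exact_mod_cast h3.le
  obtain ⟨z, ⟨hz0, hz1, hzd⟩, hz⟩ : ∃ z ∈ {z : ℚ | 0 < z ∧ z < 1 ∧ z.den = D.x.den},
      ∃ᶠ y : ℂ × ℂ in 𝓝 (c, b), (y.1 ∈ MM ∧ y ∈ NJ D.m (JP D) ∧
        Land D.m y.1 y.2 D.tm D.x.den) ∧ ∃ L, Tr.RotT D.m y.1 y.2 L z := by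
    by_contra hcon
    push Not at hcon
    have h2 : ∀ᶠ y : ℂ × ℂ in 𝓝 (c, b), ∀ z ∈ {z : ℚ | 0 < z ∧ z < 1 ∧ z.den = D.x.den},
        ¬ ((y.1 ∈ MM ∧ y ∈ NJ D.m (JP D) ∧ Land D.m y.1 y.2 D.tm D.x.den) ∧
          ∃ L, Tr.RotT D.m y.1 y.2 L z) := by
      rw [Filter.eventually_all_finite hfin]
      intro z hz
      exact (hcon z hz).mono fun y hy hy2 => by
        obtain ⟨h3, L, h4⟩ := hy2
        exact hy h3 L h4
    obtain ⟨y, hy, hy2⟩ := (h.and_eventually h2).exists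
    obtain ⟨L, z, h3, h4, h5, h6⟩ := lm_rot hP hC hy.1 hy.2.1 hy.2.2
    exact hy2 z ⟨h4, h5, h6⟩ ⟨hy, L, h3⟩
  have hzd0 : (0 : ℝ) < z.den := by exact_mod_cast z.pos
  set K : ℝ := 2 * D.m * Real.log 2 / z.den with hK
  have hK0 : 0 < K := by rw [hK]; positivity
  have hmul : mul D.m (c, b) = exp (axisPt z) := by
    refine mul_eq_of_ply h1 hK0 (hz.mono ?_)
    rintro y ⟨-, L, hL⟩
    exact ⟨L, hL.2.2.2.1.symm, (Tr.rotData hm).ply _ _ _ _ hL⟩
  have hne : mul D.m (c, b) ≠ 1 := by rw [hmul]; exact exp_axisPt_ne_one hz0 hz1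
  -- the data of the root with the type `z`
  obtain ⟨D₁, i₀, hm₁, hx₁, hσ₁, hP₁, hC₁⟩ := exists_data hm hz0 hz1 hper
    (prim_of_limit hP hC hM hcl h1 hne) hmul
  have hR₁ := regions_all D₁ hP₁ hC₁
  have haB₁ := a_mem_B hP₁
  have ha₁ : D₁.a = axisPt z := by unfold Dat.a; rw [hx₁]
  -- all repelling pairs near the shifted pair have one label
  have hperi : (c, it c i₀ b) ∈ Per D.m := it_it_periodic hper i₀
  have hmult0 : mult D.m c b ≠ 0 := by
    intro h0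
    have h2 : mul D.m (c, b) = mult D.m c b := rfl
    rw [h2, h0, norm_zero] at h1
    norm_num at h1
  have hmuli : mul D.m (c, it c i₀ b) = exp (2 * Real.pi * ((z : ℝ) : ℂ) * I) := by
    have h2 : mul D.m (c, it c i₀ b) = mul D.m (c, b) := mult_it hm hper hmult0 i₀
    rw [h2, hmul, axisPt_eq]
  have hz0' : (0 : ℝ) < z := by exact_mod_cast hz0
  have hz1' : (z : ℝ) < 1 := by exact_mod_cast hz1
  obtain ⟨⟨J', hJ'⟩, -, -⟩ := s3_neutral D.m (c, it c i₀ b) z hm hperi hz0' hz1' hmuli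
  -- `δ`
  have hσt : Tendsto D₁.σ (𝓝 D₁.a) (𝓝 (c, it c i₀ b)) := by
    have := (σ_contAt hP₁ haB₁).tendsto
    rwa [hσ₁] at this
  have e1 : ∀ᶠ L in 𝓝 D₁.a, L ∈ ball D₁.a (sR D₁.m D₁.x) ∧
      (D₁.σ L ∈ Per D.m → 1 < ‖mul D.m (D₁.σ L)‖ → D₁.σ L ∈ NJ D.m J') :=
    Filter.Eventually.and (ball_mem_nhds _ (sR_pos hP₁)) (hσt.eventually hJ')
  obtain ⟨δ, hδ, hδ'⟩ := Metric.eventually_nhds_iff_ball.1 e1
  have h2 : ∀ᶠ y in 𝓝 (c, b), ‖mul D.m y‖ < Real.exp (δ ^ 2 / K) := by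
    refine (continuous_mul' D.m).norm.continuousAt.eventually_lt_const ?_
    show ‖mul D.m (c, b)‖ < _
    rw [h1, Real.one_lt_exp_iff]
    positivity
  have hcont : Tendsto (fun y : ℂ × ℂ => ((y.1, it y.1 i₀ y.2) : ℂ × ℂ)) (𝓝 (c, b))
      (𝓝 (c, it c i₀ b)) :=
    (continuous_fst.prodMk (continuous_it i₀)).tendsto (c, b)
  obtain ⟨y, ⟨⟨hyM, hyN, hyl⟩, L, hL⟩, h3, h4⟩ :=
    (hz.and_eventually (h2.and (hcont.eventually hJ'))).exists
  have hyM0 : G y.1 0 = 0 := G_zero_of_mem hyM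
  have hLre := hL.1
  have hply := (Tr.rotData hm).ply _ _ _ _ hL
  have hyL : mul D.m y = exp L := hL.2.2.2.1
  rw [hyL, Complex.norm_exp, Real.exp_lt_exp, lt_div_iff₀ hK0] at h3
  have h5 : ‖L - axisPt z‖ < δ := by
    refine lt_of_pow_lt_pow_left₀ 2 hδ.le ?_
    have h6 : ‖L - axisPt z‖ ^ 2 ≤ K * L.re := hply
    linarith
  obtain ⟨h6, h7⟩ := hδ' L (by rw [mem_ball, dist_eq_norm, ha₁]; exact h5)
  have hLU : L ∈ D₁.U := by
    refine ⟨h6, ?_⟩
    rintro rfl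
    rw [Sat.a_re] at hLre
    exact lt_irrefl _ hLre
  have hLB : L ∈ D₁.B := U_sub_B hP₁ hLU
  obtain ⟨s1, s2⟩ := hP₁.sec L hLB
  rw [hm₁] at s1 s2
  have hLn : 1 < ‖exp L‖ := by rw [Complex.norm_exp]; exact Real.one_lt_exp_iff.2 hLre
  have n1 := h7 s1 (by rw [s2]; exact hLn)
  have hyper : it y.1 D.m y.2 = y.2 := hyN.1
  have hymult : mult D.m y.1 y.2 ≠ 0 := by
    intro h0
    have h8 : mul D.m y = mult D.m y.1 y.2 := rfl
    have h9 := hyN.2.1
    rw [h8, h0, norm_zero] at h9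
    linarith
  have hyi : mul D.m (y.1, it y.1 i₀ y.2) = exp L := by
    have h8 : mul D.m (y.1, it y.1 i₀ y.2) = mul D.m y := mult_it hm hyper hymult i₀
    rw [h8, hyL]
  have hyP : (y.1, it y.1 i₀ y.2) ∈ Per D.m := it_it_periodic hyper i₀
  have n2 := h4 hyP (by rw [hyi]; exact hLn)
  have hLg : L ∈ ball (axisPt z) (gR D.m z) := by
    have : L ∈ ball (axisPt D₁.x) (gR D₁.m D₁.x) := hLB
    rwa [hm₁, hx₁] at this
  have heq : D₁.σ L = (y.1, it y.1 i₀ y.2) := s4_unique D.m z L _ _ hm hz0 hz1 hLg hLre s1 hyP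
    s2 hyi (by rw [n1.2.2.2, n2.2.2.2])
  have hc₁ : D₁.c L = y.1 := by
    show (D₁.σ L).1 = _
    rw [heq]
  have hb₁ : D₁.b L = it y.1 i₀ y.2 := by
    show (D₁.σ L).2 = _
    rw [heq]
  -- the wake of `D₁`
  have hT : Tr.RotT D₁.m (D₁.c L) (D₁.b L) L D₁.x := by
    rw [hm₁, hx₁, hc₁, hb₁]
    exact s16_rot D.m _ _ _ _ i₀ hm hL
  obtain ⟨-, -, ⟨θ, hθ, -⟩ | ⟨-, hl₁⟩⟩ := H24.mem_RI_of_rotT s5_land hP₁ hC₁ hR₁ hLU hT
  · exact absurd hyM (by rw [← hc₁]; exact Th_ext hθ)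
  have hE₁ := ex_of_land hP₁ hC₁ (by rw [hc₁]; exact hyM0) hl₁ 0
  rw [it_zero, hm₁, hx₁, hc₁, hb₁] at hE₁
  have hE := ex_of_land hP hC hyM0 hyl i₀
  obtain ⟨k, hk⟩ := hE.unique hE₁ hm hyM0 hyP (by
    have h8 : mult D.m y.1 (it y.1 i₀ y.2) = mul D.m (y.1, it y.1 i₀ y.2) := rfl
    rw [h8, hyi]; exact hLn)
  have hx0 := hP.x_pos
  have hx1 := hP.x_lt
  have hk0 : k = 0 := by
    rw [hk] at hz0 hz1
    have h8 : (-1 : ℚ) < k := by linarith
    have h9 : (k : ℚ) < 1 := by linarith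
    have h8' : (-1 : ℤ) < k := by exact_mod_cast h8
    have h9' : k < 1 := by exact_mod_cast h9
    omega
  rw [hmul, hk, hk0]
  simp

theorem n5_closed : N5_closed := by
  intro D hP hC c hM hcl
  have hm := hP.m_pos
  have hfr : ∃ᶠ c' in 𝓝 c, c' ∈ Lm D ∪ Wk D := mem_closure_iff_frequently.1 hcl
  -- it is enough to find a limit pair with the right multiplier in the neutral case
  suffices hs : ∃ b, (c, b) ∈ closure (NJ D.m (JP D)) ∧
      (‖mul D.m (c, b)‖ = 1 → mul D.m (c, b) = exp (axisPt D.x)) by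
    obtain ⟨b, h1, h2⟩ := hs
    obtain ⟨h3, h4⟩ := closure_per h1
    rcases h4.lt_or_eq with h5 | h5
    · have h6 := s3_closed D.m (JP D) (c, b) hm h3 h5 hM h1
      exact Or.inl ⟨hM, b, h6, land_of_limit hP hC hM h6 hfr⟩
    · exact Or.inr (eq_root hP hC hM h1 (h2 h5.symm))
  have hcl' : c ∈ closure (Lm D) ∪ closure (Wk D) := by
    rw [← closure_union]; exact hcl
  rcases hcl' with h1 | h1
  · set T : Set (ℂ × ℂ) := {t | t.1 ∈ MM ∧ t ∈ NJ D.m (JP D) ∧ Land D.m t.1 t.2 D.tm D.x.den}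
      with hT
    have hTb : Bornology.IsBounded T := (T1_bdd (J := JP D) hm (le_refl MM)).subset
      fun t ht => ⟨ht.1, ht.2.1⟩
    have h2 : c ∈ closure (Prod.fst '' T) := by
      refine closure_mono ?_ h1
      rintro c' ⟨h3, b, h4, h5⟩
      exact ⟨(c', b), ⟨h3, h4, h5⟩, rfl⟩
    obtain ⟨b, hb⟩ := fst_closure hTb h2
    exact ⟨b, closure_mono (fun t ht => ht.2.1) hb, fun h3 => mul_of_limit hP hC hM h3
      (mem_closure_iff_frequently.1 hb)⟩
  · set T : Set (ℂ × ℂ) := {t | t.1 ∈ ball c 1 ∧ t ∈ NJ D.m (JP D) ∧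
      ∃ θ, ExtP D.m t.1 t.2 θ D.w ∧ D.tm ≤ θ ∧ θ ≤ D.tp} with hT
    have hTb : Bornology.IsBounded T := by
      refine ((isBounded_closedBall (x := (0 : ℂ)) (r := ‖c‖ + 1)).prod
        (isBounded_closedBall (x := (0 : ℂ)) (r := ‖c‖ + 2))).subset ?_
      rintro ⟨c', z⟩ ⟨h2, h3, -⟩
      have h4 : ‖c'‖ ≤ ‖c‖ + 1 := by
        have h5 : ‖c' - c‖ < 1 := by rw [← dist_eq_norm]; exact h2
        have h6 : ‖c'‖ ≤ ‖c‖ + ‖c' - c‖ := by
          have : c' = c + (c' - c) := by ring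
          calc ‖c'‖ = ‖c + (c' - c)‖ := by rw [← this]
            _ ≤ _ := norm_add_le _ _
        linarith
      have h5 := norm_le_of_per hm h3.1
      exact ⟨mem_closedBall_zero_iff.2 h4, mem_closedBall_zero_iff.2 (by linarith)⟩
    have h2 : c ∈ closure (Prod.fst '' T) := by
      rw [mem_closure_iff_frequently] at h1 ⊢
      refine (h1.and_eventually (ball_mem_nhds c one_pos)).mono ?_
      rintro c' ⟨⟨θ, h3, h4, h5⟩, h6⟩
      obtain ⟨b, h7, h8⟩ := nj_of_ang hP hC h3 h4 h5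
      exact ⟨(c', b), ⟨h6, h8, θ, h7, h4, h5⟩, rfl⟩
    obtain ⟨b, hb⟩ := fst_closure hTb h2
    refine ⟨b, closure_mono (fun t ht => ht.2.1) hb, fun h3 => ?_⟩
    have hm0 : (0 : ℝ) < D.m := by exact_mod_cast hm
    have h4 : mul D.m (c, b) = exp (2 * Real.pi * ((D.k₀ + D.x : ℝ) : ℂ) * I) := by
      refine mul_eq_of_ply h3 (K := 81 * D.m) (by positivity) ?_
      have h5 : ∀ᶠ y : ℂ × ℂ in 𝓝 (c, b), G y.1 y.1 < 4 := by
        refine continuous_G_diag'.continuousAt.eventually_lt_const ?_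
        show G c c < 4
        rw [mem_M_iff'.1 hM]
        norm_num
      refine ((mem_closure_iff_frequently.1 hb).and_eventually h5).mono ?_
      rintro y ⟨⟨-, -, θ, h6, h7, h8⟩, h9⟩
      obtain ⟨-, ℓ, h10, h11⟩ := extP_ply hm h6 h9.le
      rw [(hC.plateau θ).2 ⟨h7, h8⟩] at h11
      exact ⟨ℓ, h10, h11⟩
    rw [h4, axisPt_eq]
    have h5 : (2 * Real.pi * ((D.k₀ + D.x : ℝ) : ℂ) * I : ℂ) =
        2 * Real.pi * ((D.x : ℝ) : ℂ) * I + D.k₀ * (2 * Real.pi * I) := by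
      push_cast; ring
    rw [h5, Complex.exp_add, Complex.exp_int_mul_two_pi_mul_I, mul_one]

end Pool.Agent.Work.MLC.Cnt
end

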