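import Mathlib
import Pool.Agent.Work.MLCM.C34
import Pool.Agent.Work.MLCM.C62
import Pool.Agent.Work.MLCM.C63
import Pool.Agent.Work.MLCM.C64

section
set_option autoImplicit false

/-! # Theorem Q (random rays): definitions and interface (manager: helper26)

For all `m ≥ 1`, `Q ≥ 3` the sum of the squares of the diameters of all limbs of type `(m, Q)` is
`≤ C n log (2 n)`, `n = m Q`. See note 2208. -/

namespace Pool.Agent.Work.MLC.Cnt

open Filter Topology Metric Set Complex MeasureTheory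
open Pool.Agent.Work.MLC.Sat

/-- a component of period `m` with its wide section -/
structure WS where
  /-- the period -/
  m : ℕ
  /-- the word -/
  w : ℕ → ℤ
  /-- the strip -/
  k : ℤ
  /-- the section over `D0 m` -/
  σ : ℂ → ℂ × ℂ

namespace WS

/-- the data are a wide section with exact periods -/
structure Ok (W : WS) : Prop where
  wide : Pri.Wide W.m W.w W.k W.σ
  ex : ∀ L ∈ Pri.D0 W.m, Pri.Exa W.m (W.σ L)

/-- the chart of the component -/
def c (W : WS) (L : ℂ) : ℂ := (W.σ L).1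

/-- the rotation number -/
noncomputable def nu (W : WS) (θ : ℝ) : ℝ := Circ.nu W.w W.m θ - W.k

open Classical in
/-- the data of the root at `y` (`0 < y < 1`) -/
noncomputable def dat (W : WS) (y : ℚ) : Dat :=
  if h : W.Ok ∧ 0 < y ∧ y < 1 then (exists_dat_of_wide h.1.wide h.1.ex h.2.1 h.2.2).choose
  else ⟨0, 0, fun _ => (0, 0), fun _ => 0, 0, fun _ => 0, 0, 0, 0⟩

variable {W : WS} {y : ℚ}

lemma dat_choose (h : W.Ok) (h0 : 0 < y) (h1 : y < 1) :
    (W.dat y).Par ∧ (W.dat y).Cir ∧ (W.dat y).m = W.m ∧ (W.dat y).x = y ∧ (W.dat y).k₀ = W.k ∧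
      (∃ i₀ : ℕ, i₀ < W.m ∧ ((W.dat y).w = fun i => W.w (i + i₀)) ∧
        ∀ L, (W.dat y).σ L = ((W.σ L).1, it (W.σ L).1 i₀ (W.σ L).2)) ∧
      ∀ θ : ℝ, Circ.nu W.w W.m θ = W.k + y ↔ (W.dat y).tm ≤ θ ∧ θ ≤ (W.dat y).tp := by
  have hh : W.Ok ∧ 0 < y ∧ y < 1 := ⟨h, h0, h1⟩
  unfold dat
  rw [dif_pos hh]
  exact (exists_dat_of_wide hh.1.wide hh.1.ex hh.2.1 hh.2.2).choose_spec

lemma dat_par (h : W.Ok) (h0 : 0 < y) (h1 : y < 1) : (W.dat y).Par := (dat_choose h h0 h1).1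

lemma dat_cir (h : W.Ok) (h0 : 0 < y) (h1 : y < 1) : (W.dat y).Cir := (dat_choose h h0 h1).2.1

lemma dat_m (h : W.Ok) (h0 : 0 < y) (h1 : y < 1) : (W.dat y).m = W.m :=
  (dat_choose h h0 h1).2.2.1

lemma dat_x (h : W.Ok) (h0 : 0 < y) (h1 : y < 1) : (W.dat y).x = y :=
  (dat_choose h h0 h1).2.2.2.1

/-- all data of `W` have the same chart -/
lemma dat_c (h : W.Ok) (h0 : 0 < y) (h1 : y < 1) (L : ℂ) : (W.dat y).c L = W.c L := by
  obtain ⟨i₀, -, -, h4⟩ := (dat_choose h h0 h1).2.2.2.2.2.1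
  show ((W.dat y).σ L).1 = (W.σ L).1
  rw [h4]

lemma dat_a (h : W.Ok) (h0 : 0 < y) (h1 : y < 1) : (W.dat y).a = axisPt y := by
  show axisPt (W.dat y).x = _
  rw [dat_x h h0 h1]

/-- the plateau of `y` -/
lemma plateau (h : W.Ok) (h0 : 0 < y) (h1 : y < 1) (θ : ℝ) :
    W.nu θ = y ↔ (W.dat y).tm ≤ θ ∧ θ ≤ (W.dat y).tp := by
  rw [← (dat_choose h h0 h1).2.2.2.2.2.2 θ]
  unfold nu
  constructor <;> intro h <;> linarith

lemma nu_mono (W : WS) : Monotone W.nu := fun a b hab => by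
  have := Circ.nu_mono W.w W.m hab
  unfold nu
  linarith

/-- the two sections belong to the same component -/
def Same (W W' : WS) : Prop := W.m = W'.m ∧ ∀ L ∈ Pri.D0 W.m, W.c L = W'.c L

/-- the gate of radius `ρ` at `y` -/
noncomputable def Gt (W : WS) (y : ℚ) (ρ : ℝ) : Set ℂ := W.c '' closedBall (axisPt y) ρ

/-- its left half -/
noncomputable def Hf (W : WS) (y : ℚ) (ρ : ℝ) : Set ℂ := W.c '' {L | L ∈ ball (axisPt y) ρ ∧ L.re < 0}

end WS

/-- the roof of height `h` over `[s, t]` -/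
noncomputable def RoofH (h s t : ℝ) : Set ℂ :=
  (fun u : ℝ => cOf ((h : ℂ) + 2 * Real.pi * u * I)) '' Icc s t

/-- a Whitney box -/
def WB (t h : ℝ) : Set ℂ := {z | h / 4 < z.re ∧ z.re < 2 * h ∧ |z.im - 2 * Real.pi * t| < h / 16}

/-! ## The modules: statements -/

/-- T (topology): the limb of `x` is surrounded by the ray of the left end of the plateau of `x₁`,
the ray of the right end of the plateau of `x₂`, the roof and the gates between `x₁` and `x₂` -/
def Q_top : Prop := ∀ W : WS, W.Ok → ∀ x x₁ x₂ : ℚ, 0 < x₁ → x₁ < x → x < x₂ → x₂ < 1 →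
  ∀ (g h : ℝ), 0 < g → g ≤ h → ∀ (κ : Type) (F : Finset κ) (P : κ → Set ℂ),
  (∀ i ∈ F, Bornology.IsBounded (P i)) →
  (∀ y : ℝ, (x₁ : ℝ) ≤ y → y ≤ x₂ → ∃ i ∈ F, W.c (2 * Real.pi * y * I) ∈ P i) →
  (∀ u : ℝ, 0 < u → u ≤ g → ∃ i ∈ F, cOf ((u : ℂ) + 2 * Real.pi * (W.dat x₁).tm * I) ∈ P i) →
  (∀ u : ℝ, 0 < u → u ≤ g → ∃ i ∈ F, cOf ((u : ℂ) + 2 * Real.pi * (W.dat x₂).tp * I) ∈ P i) →
  diam (Lm (W.dat x)) ≤ diam (RaySeg (W.dat x₁).tm g h) + diam (RaySeg (W.dat x₂).tp g h) +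
    diam (RoofH h (W.dat x₁).tm (W.dat x₂).tp) + ∑ i ∈ F, diam (P i)

/-- G1: the size of a gate -/
def Q_gate : Prop := ∀ W : WS, W.Ok → ∀ (y : ℚ) (ρ : ℝ), 0 < y → y < 1 → 0 < ρ →
  ρ ≤ gR W.m y / 8 → MeasurableSet (W.Hf y ρ) ∧ Bornology.IsBounded (W.Gt y ρ) ∧
    diam (W.Gt y ρ) ≤ 10 ^ 6 * √((volume (W.Hf y ρ)).toReal)

/-- R1: one Whitney box of a ray -/
def Q_whitney : Prop := ∀ t h : ℝ, 0 < h → h ≤ 1 →
  diam (RaySeg t (h / 2) h) ≤ 20 * √((volume (cOf '' WB t h)).toReal)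

end Pool.Agent.Work.MLC.Cnt
end

section
set_option autoImplicit false

/-! # Theorem N: the wake of a root and its frontier, and N9 (helper26) -/

namespace Pool.Agent.Work.MLC.Cnt

open Filter Topology Metric Set Complex MeasureTheory
open Pool.Agent.Work.MLC.Sat

namespace CH

/-! ### the uniformisation -/

lemma eq_cOf {c : ℂ} {θ : ℝ} (h : Ang c θ) : c = cOf ((G c c : ℂ) + 2 * Real.pi * θ * I) := by
  have hre : ((G c c : ℂ) + 2 * Real.pi * θ * I).re = G c c := by simp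
  symm
  refine cOf_unique ?_ ?_ h.2
  · have h1 : c ∈ Mc := h.1
    exact mem_Mc_iff.1 h1
  · rw [hre, G_zero_eq]; linarith [h.1]

lemma re_pt (g θ : ℝ) : ((g : ℂ) + 2 * Real.pi * θ * I).re = g := by simp

lemma im_pt (g θ : ℝ) : ((g : ℂ) + 2 * Real.pi * θ * I).im = 2 * Real.pi * θ := by simp

lemma pt_of {z : ℂ} {θ : ℝ} (h : z.im = 2 * Real.pi * θ) : z = (z.re : ℂ) + 2 * Real.pi * θ * I := by
  apply Complex.ext
  · rw [re_pt]
  · rw [im_pt, h]

lemma ang_of {z : ℂ} (h : 0 < z.re) : Ang (cOf z) (z.im / (2 * Real.pi)) := by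
  have h9 : z.im = 2 * Real.pi * (z.im / (2 * Real.pi)) := by field_simp
  have h1 := (ang_cOf (g := z.re) (θ := z.im / (2 * Real.pi)) h).1
  rwa [← pt_of h9] at h1

lemma cOf_shift (g θ : ℝ) (k : ℤ) : cOf ((g : ℂ) + 2 * Real.pi * ((θ + k : ℝ) : ℂ) * I) =
    cOf ((g : ℂ) + 2 * Real.pi * θ * I) := by
  have h : ((g : ℂ) + 2 * Real.pi * ((θ + k : ℝ) : ℂ) * I) =
      ((g : ℂ) + 2 * Real.pi * θ * I) + (k : ℂ) * (2 * Real.pi * I) := by
    push_cast; ring
  have h2 : Complex.exp ((k : ℂ) * (2 * Real.pi * I)) = 1 := Complex.exp_int_mul_two_pi_mul_I k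
  rw [h, cOf, cOf, Complex.exp_add, h2, mul_one]

lemma isOpen_image {S : Set ℂ} (hS : IsOpen S) (hp : ∀ z ∈ S, 0 < z.re) : IsOpen (cOf '' S) := by
  have h1 : cOf '' S = Mc ∩ Phi ⁻¹' (Complex.exp '' S) := by
    ext c
    constructor
    · rintro ⟨z, hz, rfl⟩
      exact ⟨cOf_mem (hp z hz), z, hz, (Phi_cOf (hp z hz)).symm⟩
    · rintro ⟨h1, z, hz, h2⟩
      refine ⟨z, hz, ?_⟩
      obtain ⟨L, -, hL, rfl⟩ := exists_cOf (mem_Mc_iff.1 h1)
      rw [Phi_cOf hL] at h2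
      rw [cOf, cOf, h2]
  rw [h1]
  exact differentiableOn_Phi.continuousOn.isOpen_inter_preimage isOpen_Mc
    (Complex.isOpenMap_exp _ hS)

/-! ### the wake -/

variable {D : Dat}

lemma a_mem (hP : D.Par) : D.a ∈ D.B := by
  refine mem_ball_self ?_
  have h1 : (0 : ℝ) < D.x := by exact_mod_cast hP.x_pos
  have h2 : (D.x : ℝ) < 1 := by exact_mod_cast hP.x_lt
  have h3 : (0 : ℝ) < D.m := by exact_mod_cast hP.m_pos
  have h4 : 0 < min (D.x : ℝ) (1 - D.x) := lt_min h1 (by linarith)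
  rw [gR]; positivity

lemma gR_pos (hP : D.Par) : 0 < gR D.m D.x := by
  have h1 : (0 : ℝ) < D.x := by exact_mod_cast hP.x_pos
  have h2 : (D.x : ℝ) < 1 := by exact_mod_cast hP.x_lt
  have h3 : (0 : ℝ) < D.m := by exact_mod_cast hP.m_pos
  have h4 : 0 < min (D.x : ℝ) (1 - D.x) := lt_min h1 (by linarith)
  rw [gR]; positivity

lemma sG_pos (hP : D.Par) : 0 < sG D := by
  have := gR_pos hP
  rw [sG]; positivity

lemma norm_exp_a (D : Dat) : ‖Complex.exp D.a‖ = 1 := by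
  rw [Complex.norm_exp]
  have : D.a.re = 0 := by simp [Dat.a, axisPt]
  rw [this, Real.exp_zero]

lemma rt_mem_MM (hP : D.Par) : rt D ∈ MM := by
  by_contra h
  have hpos : 0 < G (rt D) (rt D) := mem_Mc_iff.2 h
  obtain ⟨h1, h2⟩ := hP.sec D.a (a_mem hP)
  have h3 : it (rt D) D.m (D.b D.a) = D.b D.a := h1
  have h4 := one_lt_norm_mult_of_ext hP.m_pos hpos h3
  have h5 : mult D.m (rt D) (D.b D.a) = mul D.m (D.σ D.a) := rfl
  rw [h5, h2, norm_exp_a] at h4
  exact lt_irrefl _ h4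

/-- `limb ∪ {root}` is connected -/
lemma preconn_K (h5 : N5_open) (h5' : N5_closed) (hP : D.Par) (hC : D.Cir) :
    IsPreconnected (Lm D ∪ {rt D}) := by
  have hcl : ∀ c ∈ MM, c ∈ closure (Lm D) → c ∈ Lm D ∨ c = rt D := fun c hc h =>
    h5' D hP hC c hc (closure_mono subset_union_left h)
  have hop : ∀ c ∈ Lm D, c ∈ interior (Lm D ∪ MMᶜ) := by
    intro c hc
    rw [mem_interior_iff_mem_nhds]
    filter_upwards [h5 D hP hC c hc] with c' h
    by_cases hM : c' ∈ MM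
    · exact Or.inl (h.1 hM)
    · exact Or.inr hM
  have key : ∀ u v : Set ℂ, IsOpen u → IsOpen v → Lm D ∪ {rt D} ⊆ u ∪ v → rt D ∈ u →
      ((Lm D ∪ {rt D}) ∩ v).Nonempty → ((Lm D ∪ {rt D}) ∩ (u ∩ v)).Nonempty := by
    intro u v hu hv huv hr hvn
    by_cases hrv : rt D ∈ v
    · exact ⟨rt D, Or.inr rfl, hr, hrv⟩
    obtain ⟨y, hy, hyv⟩ := hvn
    have hyL : y ∈ Lm D := by
      rcases hy with h | h
      · exact h
      · rw [h] at hyv; exact absurd hyv hrv
    have h1 : MM ⊆ (v ∩ interior (Lm D ∪ MMᶜ)) ∪ (u ∪ (closure (Lm D))ᶜ) := by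
      intro z hz
      by_cases hzc : z ∈ closure (Lm D)
      · rcases hcl z hz hzc with h | h
        · rcases huv (Or.inl h) with h' | h'
          · exact Or.inr (Or.inl h')
          · exact Or.inl ⟨h', hop z h⟩
        · rw [h]; exact Or.inr (Or.inl hr)
      · exact Or.inr (Or.inr hzc)
    obtain ⟨z, hz, ⟨hz1, hz2⟩, hz3⟩ := isPreconnected_MM _ _ (hv.inter isOpen_interior)
      (hu.union isClosed_closure.isOpen_compl) h1 ⟨y, hyL.1, hyv, hop y hyL⟩
      ⟨rt D, rt_mem_MM hP, Or.inl hr⟩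
    have hzL : z ∈ Lm D := by
      rcases interior_subset hz2 with h | h
      · exact h
      · exact absurd hz h
    rcases hz3 with h | h
    · exact ⟨z, Or.inl hzL, h, hz1⟩
    · exact absurd (subset_closure hzL) h
  intro u v hu hv huv hun hvn
  rcases huv (Or.inr rfl : rt D ∈ Lm D ∪ {rt D}) with h | h
  · exact key u v hu hv huv h hvn
  · rw [inter_comm u v]
    exact key v u hv hu (by rwa [union_comm v u]) h hun

/-- the rays land at the root -/
lemma rt_mem_closure (h2 : N2_ray) (hP : D.Par) (hC : D.Cir) (N : Set ℂ) (hN : N ∈ 𝓝 (rt D)) :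
    ∃ g : ℝ, 0 < g ∧ cOf ((g : ℂ) + 2 * Real.pi * D.tm * I) ∈ N ∧
      cOf ((g : ℂ) + 2 * Real.pi * D.tp * I) ∈ N := by
  have hsG := sG_pos hP
  have hcont : ContinuousAt D.c D.a :=
    (continuous_fst.continuousAt).comp ((hP.cont.continuousAt (isOpen_ball.mem_nhds (a_mem hP))))
  obtain ⟨ε, hε, hεN⟩ := Metric.mem_nhds_iff.1 (hcont.preimage_mem_nhds hN)
  set s : ℝ := min (sG D) (ε / 2) with hs
  have hs0 : 0 < s := lt_min hsG (by positivity)
  have hs1 : s ≤ sG D := min_le_left _ _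
  have hs2 : s < ε := (min_le_right _ _).trans_lt (by linarith)
  have hsub : D.c '' closedBall D.a s ⊆ N := by
    rintro _ ⟨L, hL, rfl⟩
    exact hεN (closedBall_subset_ball hs2 hL)
  refine ⟨Real.exp (-(130000 * (D.m : ℝ) ^ 3 * D.x.den / s ^ 4)), Real.exp_pos _, ?_⟩
  have h := h2 D hP hC s (Real.exp (-(130000 * (D.m : ℝ) ^ 3 * D.x.den / s ^ 4))) hs0 hs1
    (Real.exp_pos _) (by
      rw [Real.log_exp, neg_neg, mul_div_cancel₀ _ (by positivity)])
  exact ⟨hsub h.1, hsub h.2⟩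

end CH

end Pool.Agent.Work.MLC.Cnt
end

section
set_option autoImplicit false

/-! # Theorem F, module G9: covering numbers

A set which for every `n ≥ 1` is covered by at most `C n ^ a` intervals of length `K 2 ^ (-n)` is
null for the Hausdorff measure with gauge `(log (1 / t)) ^ (-(a + 1))`, and has dimension `0`. -/

namespace Pool.Agent.Work.MLC.Cnt

open Filter Topology Set MeasureTheory Metric
open scoped ENNReal NNReal

/-- covering numbers: for every `n ≥ 1` the set `E` is covered by at most `C n ^ a` intervals of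
length `2 ^ (-n)` -/
def CovPoly (a : ℕ) (E : Set ℝ) : Prop :=
  ∃ C : ℝ, ∀ n : ℕ, 1 ≤ n → ∃ F : Finset ℝ, (F.card : ℝ) ≤ C * (n : ℝ) ^ a ∧
    E ⊆ ⋃ x ∈ F, Icc x (x + (1 / 2 : ℝ) ^ n)

theorem CovPoly.mono {a : ℕ} {E E' : Set ℝ} (h : CovPoly a E) (hE : E' ⊆ E) : CovPoly a E' := by
  obtain ⟨C, hC⟩ := h
  refine ⟨C, fun n hn => ?_⟩
  obtain ⟨F, hF, hEF⟩ := hC n hn
  exact ⟨F, hF, hE.trans hEF⟩

end Pool.Agent.Work.MLC.Cnt
end

section
set_option autoImplicit false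

/-! # N4: two roots of the same period with denominators at least `3` are not nested (helper54)

Also the length of the characteristic arc: `2 ^ ((q - 2) N) (t - s) ≤ 1`. -/

namespace Pool.Agent.Work.MLC

open Set Circ CircleDeg1Lift Filter Topology

namespace CA

variable {N q q' : ℕ} {w w' : ℕ → ℤ} {s t s' t' θ : ℝ}

/-- before the time `(q - 2) N` the truncated maps are linear on the arc -/
theorem lin (h : CA N q w s t) (h1 : s < θ) (h2 : θ < t) {i : ℕ} (hi : i ≤ (q - 2) * N) :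
    ∃ m : ℤ, ∀ x, s ≤ x → x ≤ t → gw w θ i x = 2 ^ i * x + m := by
  induction i with
  | zero => exact ⟨0, fun x _ _ => by simp⟩
  | succ i ih =>
    obtain ⟨m, hm⟩ := ih (by omega)
    obtain ⟨k, k1, k2⟩ := h.nc h1 h2 (j := i) (by omega)
    refine ⟨2 * m - k, fun x hx hx' => ?_⟩
    have g1 : gw w θ i s ≤ gw w θ i x := (gw w θ i).monotone hx
    have g2 : gw w θ i x ≤ gw w θ i t := (gw w θ i).monotone hx'
    rw [gw_succ_apply, tdbl_lin k (by linarith) (by linarith), hm x hx hx', pow_succ]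
    push_cast; ring

/-- **the length of the characteristic arc** -/
theorem len (h : CA N q w s t) : (2 : ℝ) ^ ((q - 2) * N) * (t - s) ≤ 1 := by
  have h1 : s < (s + t) / 2 := by linarith [h.lt]
  have h2 : (s + t) / 2 < t := by linarith [h.lt]
  obtain ⟨m, hm⟩ := h.lin h1 h2 (i := (q - 2) * N) le_rfl
  have h3 := (h.gw_le (θ := (s + t) / 2) ((q - 2) * N)).2
  rw [hm s le_rfl h.lt.le, hm t h.lt.le le_rfl] at h3
  linarith

/-- linked classes with words `w`, `w'` (with respect to the same `θ`) -/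
theorem linked_step2 {x y : ℝ} (hb : ∀ i, w i = 0 ∨ w i = 1) (hb' : ∀ i, w' i = 0 ∨ w' i = 1)
    (hw : ∀ i, w (i + N) = w i) (hw' : ∀ i, w' (i + N) = w' i) (hx : Compat x θ w)
    (hy : Compat y θ w') {i j : ℕ} (h : Pool.Agent.MLC.Linked (AA N x i) (AA N y j)) :
    w i = w' j ∧ Pool.Agent.MLC.Linked (AA N x (i + 1)) (AA N y (j + 1)) := by
  obtain ⟨a, ha, b, hb1, c, hc, d, hd, h1, h2, h3, h4⟩ := h
  have hX := inHalf_of_compat hw hx i
  have hY := inHalf_of_compat hw' hy j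
  obtain ⟨ka, ea, a1, a2⟩ := tdbl_of_inHalf hX ha
  obtain ⟨kb, eb, b1, b2⟩ := tdbl_of_inHalf hY hb1
  obtain ⟨kc, ec, c1, c2⟩ := tdbl_of_inHalf hX hc
  obtain ⟨kd, ed, d1, d2⟩ := tdbl_of_inHalf hY hd
  have hwij : w i = w' j := by
    by_contra hne
    have hcase : (w i = 0 ∧ w' j = 1) ∨ (w i = 1 ∧ w' j = 0) := by
      rcases hb i with h | h <;> rcases hb' j with h' | h'
      · exact absurd (h.trans h'.symm) hne
      · exact Or.inl ⟨h, h'⟩
      · exact Or.inr ⟨h, h'⟩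
      · exact absurd (h.trans h'.symm) hne
    have key : ∀ (u v : ℤ) (p r : ℝ) (ep er : ℤ), (ep = 0 ∨ ep = 1) → (er = 0 ∨ er = 1) →
        (θ + ep) / 2 + u < p → p < (θ + ep) / 2 + u + 1 / 2 → (θ + er) / 2 + v < r →
        r < (θ + er) / 2 + v + 1 / 2 → p ≤ r → ep + 2 * u ≤ er + 2 * v := by
      intro u v p r ep er _ _ h1 h2 h3 h4 h5
      have : ((ep + 2 * u : ℤ) : ℝ) < ((er + 2 * v + 1 : ℤ) : ℝ) := by push_cast; linarith
      have h6 : ep + 2 * u < er + 2 * v + 1 := by exact_mod_cast this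
      omega
    have k1 := key ka kb a b _ _ (hb i) (hb' j) a1 a2 b1 b2 h1
    have k2 := key kb kc b c _ _ (hb' j) (hb i) b1 b2 c1 c2 h2
    have k3 := key kc kd c d _ _ (hb i) (hb' j) c1 c2 d1 d2 h3
    have k4 := key kd (ka + 1) d (a + 1) _ _ (hb' j) (hb i) d1 d2 (by push_cast; linarith)
      (by push_cast; linarith) h4
    omega
  refine ⟨hwij, 2 * a - ka, AA_dbl' ha ka, 2 * b - kb, AA_dbl' hb1 kb, 2 * c - kc, AA_dbl' hc kc,
    2 * d - kd, AA_dbl' hd kd, ?_, ?_, ?_, ?_⟩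
  · rw [← ea, ← eb, hwij]; exact (tdbl _).monotone h1
  · rw [← eb, ← ec, hwij]; exact (tdbl _).monotone h2
  · rw [← ec, ← ed, hwij]; exact (tdbl _).monotone h3
  · rw [← ed, ← ea, hwij, ← map_add_one]; exact (tdbl _).monotone h4

theorem linked_word2 {x y : ℝ} (hb : ∀ i, w i = 0 ∨ w i = 1) (hb' : ∀ i, w' i = 0 ∨ w' i = 1)
    (hw : ∀ i, w (i + N) = w i) (hw' : ∀ i, w' (i + N) = w' i) (hx : Compat x θ w)
    (hy : Compat y θ w') (h : Pool.Agent.MLC.Linked (AA N x 0) (AA N y 0)) : w = w' := by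
  have key : ∀ t, Pool.Agent.MLC.Linked (AA N x t) (AA N y t) := by
    intro t
    induction t with
    | zero => exact h
    | succ t ih => exact (linked_step2 hb hb' hw hw' hx hy ih).2
  funext t
  exact (linked_step2 hb hb' hw hw' hx hy (key t)).1

/-- the first image of the arc is disjoint from the arc (`q ≥ 3`) -/
theorem image_out (h : CA N q w s t) (hq : 3 ≤ q) {u : ℝ} (h1 : s < u) (h2 : u < t) :
    ∃ l : ℤ, t ≤ 2 ^ N * u + l ∧ 2 ^ N * u + l ≤ s + 1 := by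
  have hN := h.pos
  have hle : N ≤ (q - 2) * N := Nat.le_mul_of_pos_left N (by omega)
  obtain ⟨m, hm⟩ := h.lin h1 h2 hle
  have hst := h.lt.le
  have es := hm s le_rfl hst
  have et := hm t hst le_rfl
  have eu := hm u h1.le h2.le
  have hp : (0 : ℝ) < 2 ^ N := by positivity
  have g1 : gw w u N s < gw w u N u := by
    rw [es, eu]; have := mul_lt_mul_of_pos_left h1 hp; linarith
  have g2 : gw w u N u < gw w u N t := by
    rw [et, eu]; have := mul_lt_mul_of_pos_left h2 hp; linarith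
  -- translate into `[s, s + 1)`
  set l : ℤ := -⌊gw w u N u - s⌋ with hl
  have l1 : s ≤ gw w u N u + l := by
    have := Int.floor_le (gw w u N u - s); rw [hl]; push_cast; linarith
  have l2 : gw w u N u + l < s + 1 := by
    have := Int.lt_floor_add_one (gw w u N u - s); rw [hl]; push_cast; linarith
  refine ⟨m + l, ?_, ?_⟩
  swap
  · rw [eu] at l2; push_cast; linarith
  have hcl : t ≤ gw w u N u + l := by
    by_contra hcon
    push Not at hcon
    have hsA : ∀ k : ℤ, s + k ∈ AA N s N := by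
      intro k
      have h5 := AA_per h.per 0
      rw [Nat.zero_add] at h5
      rw [h5]; exact AA_shift mem0 k
    -- `s ≤ gw s + l`
    have a1 : s ≤ gw w u N s + l := by
      by_contra hc
      push Not at hc
      refine h.gap h1 h2 N (s + ((-l : ℤ) : ℝ)) (hsA _) ?_ ?_
      · push_cast; linarith
      · push_cast; linarith
    have a2 : gw w u N s + l ≤ s := by
      by_contra hc
      push Not at hc
      have h6 := (h.gw_pt h1 h2 (x := s) mem0 N).1
      refine h.nopt' h6 (-l) ?_ ?_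
      · push_cast; linarith
      · push_cast; linarith
    refine h.gw_s_ne h1 h2 (x := s) mem0 hN ?_ (-l) ?_
    · calc N = N * 1 := (mul_one N).symm
        _ < N * q := Nat.mul_lt_mul_of_pos_left (by omega) hN
    · push_cast; linarith
  rw [eu] at hcl
  push_cast; linarith

/-- a point of another class in the arc: the words agree -/
theorem word_eq_of_mem (h : CA N q w s t) (h' : CA N q' w' s' t') (hq : 3 ≤ q) (h1 : s < θ)
    (h2 : θ < t) (h3 : s' < θ) (h4 : θ < t') {u : ℝ} (hu : u ∈ AA N s' 0) (u1 : s < u)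
    (u2 : u < t) : w = w' := by
  obtain ⟨l, l1, l2⟩ := h.image_out hq u1 u2
  refine linked_word2 h.word.1 h'.word.1 h.word.2.1 h'.word.2.1 (h.compat θ h1 h2)
    (h'.compat θ h3 h4) ⟨s, mem0, u, hu, t, h.mem, 2 ^ N * u + l, ?_, u1.le, u2.le, l1, l2⟩
  obtain ⟨m, k, rfl⟩ := hu
  refine ⟨m + 1, 2 ^ N * k + l, ?_⟩
  rw [Nat.zero_add, Nat.zero_add, show N * (m + 1) = N + N * m by ring, pow_add]
  push_cast
  ring

/-- the same angle: the words agree -/
theorem word_eq_of_compat {x : ℝ} (hb : ∀ i, w i = 0 ∨ w i = 1) (hb' : ∀ i, w' i = 0 ∨ w' i = 1)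
    (hx : Compat x θ w) (hy : Compat x θ w') : w = w' := by
  funext i
  obtain ⟨k, k1, k2⟩ := hx i
  obtain ⟨k', k1', k2'⟩ := hy i
  have e1 : ((w i + 2 * k : ℤ) : ℝ) < ((w' i + 2 * k' + 1 : ℤ) : ℝ) := by push_cast; linarith
  have e2 : ((w' i + 2 * k' : ℤ) : ℝ) < ((w i + 2 * k + 1 : ℤ) : ℝ) := by push_cast; linarith
  have e3 : w i + 2 * k < w' i + 2 * k' + 1 := by exact_mod_cast e1
  have e4 : w' i + 2 * k' < w i + 2 * k + 1 := by exact_mod_cast e2
  rcases hb i with h | h <;> rcases hb' i with h' | h' <;> omega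

/-- **overlapping characteristic arcs**: the words agree, and the arcs agree or the words force
the classes to agree -/
theorem overlap (h : CA N q w s t) (h' : CA N q' w' s' t') (hq : 3 ≤ q) (hq' : 3 ≤ q')
    (h1 : s < θ) (h2 : θ < t) (h3 : s' < θ) (h4 : θ < t') : w = w' := by
  by_cases c1 : s < s'
  · exact h.word_eq_of_mem h' hq h1 h2 h3 h4 mem0 c1 (by linarith)
  by_cases c2 : s' < s
  · exact (h'.word_eq_of_mem h hq' h3 h4 h1 h2 mem0 c2 (by linarith)).symm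
  have hs : s = s' := le_antisymm (not_lt.1 c2) (not_lt.1 c1)
  have e1 := h.compat θ h1 h2
  have e2 := h'.compat θ h3 h4
  rw [← hs] at e2
  exact word_eq_of_compat h.word.1 h'.word.1 e1 e2

/-- shift of the arc by an integer -/
theorem AA_add (x : ℝ) (k : ℤ) (j : ℕ) : AA N (x + k) j = AA N x j := by
  ext a
  constructor
  · rintro ⟨m, l, rfl⟩
    exact ⟨m, 2 ^ (j + N * m) * k + l, by push_cast; ring⟩
  · rintro ⟨m, l, rfl⟩
    exact ⟨m, l - 2 ^ (j + N * m) * k, by push_cast; ring⟩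

theorem shift (h : CA N q w s t) (k : ℤ) : CA N q (fun i => (w i + k) % 2) (s + k) (t + k) := by
  have hb : ∀ i, (w i + k) % 2 = 0 ∨ (w i + k) % 2 = 1 := fun i => by omega
  refine ⟨h.pos, h.two, ⟨hb, fun i => by simp only [h.word.2.1], ?_⟩, ?_, by linarith [h.lt],
    by linarith [h.lt'], ?_, ?_, ?_⟩
  · intro d hd hdN
    obtain ⟨i, hi⟩ := h.word.2.2 d hd hdN
    refine ⟨i, fun he => hi ?_⟩
    simp only at he
    rcases h.word.1 (i + d) with a | a <;> rcases h.word.1 i with b | b <;> rw [a, b] at he ⊢ <;>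
      omega
  · refine perAngle_of_mem h.per (i := 0) ?_
    exact AA_shift mem0 k
  · rw [AA_add]
    exact AA_shift h.mem k
  · intro θ h1 h2
    have hc := h.compat (θ - k) (by linarith) (by linarith)
    intro i
    obtain ⟨l, l1, l2⟩ := hc i
    obtain ⟨r, hr⟩ : ∃ r : ℤ, (w i + k) % 2 = w i + k + 2 * r := ⟨-((w i + k) / 2), by omega⟩
    refine ⟨l - k - r + 2 ^ i * k, ?_, ?_⟩
    · simp only [hr]; push_cast at l1 l2 ⊢; linarith
    · simp only [hr]; push_cast at l1 l2 ⊢; linarith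
  · intro j a ha h1 h2
    rw [AA_add] at ha
    exact h.nopt' ha k h1 h2

end CA

namespace Cnt

open Pool.Agent.Work.MLC.Sat

/-- the characteristic arc of the data -/
theorem ca_of {D : Dat} (hP : D.Par) (hC : D.Cir) : CA D.m D.x.den D.w D.tm D.tp := by
  refine ⟨hP.m_pos, two_le_den hP.x_pos hP.x_lt, ⟨hP.bits.bit, hP.bits.per, hP.wprim⟩, hC.per,
    hC.lt, hC.lt_one, ?_, fun θ h1 h2 => (hC.compat_w θ h1 h2).1, ?_⟩
  · obtain ⟨j, l, hj⟩ := hC.orb
    exact ⟨j, l, by rw [Nat.zero_add]; exact hj⟩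
  · rintro j a ⟨m, l, rfl⟩ h1 h2
    exact hC.avoid (j + D.m * m) l ⟨h1, h2⟩

/-- **the length of the plateau** -/
theorem arc_len {D : Dat} (hP : D.Par) (hC : D.Cir) :
    (2 : ℝ) ^ (D.m * (D.x.den - 2)) * (D.tp - D.tm) ≤ 1 := by
  have := (ca_of hP hC).len
  rwa [mul_comm (D.x.den - 2) D.m] at this

/-- **N4** -/
theorem n4_anti : N4_anti := by
  intro D D' hP hC hP' hC' hm hq hq' ⟨θ, k, h1, h2, h3, h4⟩
  have hA := ca_of hP hC
  have hA' := ca_of hP' hC'
  rw [← hm] at hA'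
  have hA'' := hA'.shift (-k)
  push_cast at hA''
  have hw : D.w = fun i => (D'.w i + -k) % 2 :=
    hA.overlap hA'' hq hq' h1 h2 (by linarith) (by linarith)
  -- the rotation numbers
  obtain ⟨r, hr⟩ : ∃ r : ℕ → ℤ, ∀ i, D'.w i + k = D.w i + 2 * r i :=
    ⟨fun i => (D'.w i + -k) / 2 + k, fun i => by
      have h5 : D.w i = (D'.w i + -k) % 2 := congrFun hw i
      show D'.w i + k = D.w i + 2 * ((D'.w i + -k) / 2 + k)
      omega⟩
  have hnu : Circ.nu D'.w D'.m (θ + k) = Circ.nu D.w D.m θ + ∑ i ∈ Finset.range D.m, (r i : ℝ) := by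
    rw [nu_add_theta, ← hm]
    have h5 : (fun i => D'.w i + k) = fun i => D.w i + 2 * r i := funext hr
    rw [h5, nu_shift]
  have e1 := (hC.plateau θ).2 ⟨h1.le, h2.le⟩
  have e2 := (hC'.plateau (θ + k)).2 ⟨h3.le, h4.le⟩
  have hx : D.x = D'.x := by
    have h5 : (D'.x : ℝ) - D.x = ((D.k₀ - D'.k₀ + ∑ i ∈ Finset.range D.m, r i : ℤ) : ℝ) := by
      rw [e2, e1] at hnu
      push_cast
      linarith
    have h6 : D'.x - D.x = ((D.k₀ - D'.k₀ + ∑ i ∈ Finset.range D.m, r i : ℤ) : ℚ) := by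
      exact_mod_cast h5
    have a1 := hP.x_pos
    have a2 := hP.x_lt
    have a3 := hP'.x_pos
    have a4 := hP'.x_lt
    have h7 : ((D.k₀ - D'.k₀ + ∑ i ∈ Finset.range D.m, r i : ℤ) : ℚ) < ((1 : ℤ) : ℚ) := by
      rw [← h6]; push_cast; linarith
    have h8 : ((-1 : ℤ) : ℚ) < ((D.k₀ - D'.k₀ + ∑ i ∈ Finset.range D.m, r i : ℤ) : ℚ) := by
      rw [← h6]; push_cast; linarith
    have h9 : D.k₀ - D'.k₀ + ∑ i ∈ Finset.range D.m, r i < 1 := by exact_mod_cast h7
    have h10 : -1 < D.k₀ - D'.k₀ + ∑ i ∈ Finset.range D.m, r i := by exact_mod_cast h8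
    have h11 : D.k₀ - D'.k₀ + ∑ i ∈ Finset.range D.m, r i = 0 := by omega
    rw [h11] at h6
    push_cast at h6
    linarith
  -- the labels
  have hlab : lab D.m (θ + k) D'.w = lab D.m θ D.w := by
    refine lab_congr hP.bits (hm ▸ hP'.bits) k rfl fun i => ?_
    have := hr i
    exact ⟨r i - k, by omega⟩
  have hx0 : (0 : ℝ) < D.x := by exact_mod_cast hP.x_pos
  have hx1 : (D.x : ℝ) < 1 := by exact_mod_cast hP.x_lt
  have hB : D'.B = D.B := by
    unfold Dat.B Dat.a; rw [← hm, ← hx]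
  have key : ∀ L ∈ D.B, 0 < L.re → D.σ L = D'.σ L := by
    intro L hL hre
    have hL' : L ∈ D'.B := by rw [hB]; exact hL
    obtain ⟨p1, p2⟩ := hP.sec L hL
    obtain ⟨p1', p2'⟩ := hP'.sec L hL'
    rw [← hm] at p1' p2'
    refine s4_unique D.m D.x L _ _ hP.m_pos hP.x_pos hP.x_lt hL hre p1 p1' p2 p2' ?_
    have f1 := (hP.lab L hL hre).2 θ (by rw [e1]; linarith) (by rw [e1]; linarith)
    have hx' : (D'.x : ℝ) = D.x := by rw [hx]
    have f2 := (hP'.lab L hL' hre).2 (θ + k) (by rw [e2, hx']; linarith)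
      (by rw [e2, hx']; linarith)
    rw [f1, ← hlab]
    have f3 : FF D'.m (D'.σ L) = lab D'.m (θ + k) D'.w := f2
    have : ∀ (a b : ℕ), a = b → FF a (D'.σ L) = lab a (θ + k) D'.w →
        FF b (D'.σ L) = lab b (θ + k) D'.w := by
      rintro a _ rfl h; exact h
    exact (this _ _ hm.symm f3).symm
  have ha : D'.a = D.a := by unfold Dat.a; rw [← hx]
  have hrad : 0 < gR D.m D.x := by
    unfold gR
    have : 0 < min (D.x : ℝ) (1 - D.x) := lt_min hx0 (by linarith)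
    have hm0 : (0 : ℝ) < D.m := by exact_mod_cast hP.m_pos
    positivity
  have haB : D.a ∈ D.B := Metric.mem_ball_self hrad
  have hnB : D.B ∈ 𝓝 D.a := Metric.isOpen_ball.mem_nhds haB
  have hc1 : ContinuousAt D.σ D.a := hP.cont.continuousAt hnB
  have hc2 : ContinuousAt D'.σ D.a := by
    have := hP'.cont.continuousAt (x := D.a) (by rw [hB]; exact hnB)
    exact this
  have hseq : Tendsto (fun t : ℝ => D.a + (t : ℂ)) (𝓝[>] 0) (𝓝 D.a) := by
    have h6 : Continuous fun s : ℝ => D.a + (s : ℂ) := by fun_prop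
    have h7 := h6.tendsto 0
    simp only [Complex.ofReal_zero, add_zero] at h7
    exact h7.mono_left nhdsWithin_le_nhds
  have hev : ∀ᶠ t : ℝ in 𝓝[>] 0, D.σ (D.a + t) = D'.σ (D.a + t) := by
    filter_upwards [hseq.eventually hnB, self_mem_nhdsWithin] with t ht ht0
    refine key _ ht ?_
    have : (0 : ℝ) < t := ht0
    have h8 : D.a.re = 0 := LimbData.axisPt_re _
    rw [Complex.add_re, h8, Complex.ofReal_re, zero_add]
    exact this
  have hfin : D.σ D.a = D'.σ D.a :=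
    tendsto_nhds_unique_of_eventuallyEq (hc1.tendsto.comp hseq) (hc2.tendsto.comp hseq) hev
  unfold rt Dat.c
  rw [ha, hfin]

end Cnt

end Pool.Agent.Work.MLC
end

section
set_option autoImplicit false

/-! # Theorem Q, module R5 (helper15): a short ray on each side of `x`, which ends in a small gate -/

namespace Pool.Agent.Work.MLC.Cnt

open Filter Topology Metric Set Complex MeasureTheory
open Pool.Agent.Work.MLC.Sat

theorem mpos15 {W : WS} (hW : W.Ok) : 0 < W.m := hW.wide.pos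

theorem nu_tmp15 {W : WS} (hW : W.Ok) {y : ℚ} (h0 : 0 < y) (h1 : y < 1) :
    W.nu (W.dat y).tm = y ∧ W.nu (W.dat y).tp = y := by
  have hlt := (WS.dat_cir hW h0 h1).lt
  exact ⟨(WS.plateau hW h0 h1 _).2 ⟨le_rfl, hlt.le⟩, (WS.plateau hW h0 h1 _).2 ⟨hlt.le, le_rfl⟩⟩

end Pool.Agent.Work.MLC.Cnt
end

section
set_option autoImplicit false

/-! # Theorem Q, module T: the region between two rays (helper60) -/

namespace Pool.Agent.Work.MLC.Cnt

open Filter Topology Metric Set Complex MeasureTheory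
open Pool.Agent.Work.MLC.Sat

namespace T60

/-! ### the projection lemma for two points -/

/-- A preconnected set that meets `Q` and its complement meets the frontier of `Q`. -/
theorem inter_frontier {X : Type*} [TopologicalSpace X] {s Q : Set X} (hs : IsPreconnected s)
    (h1 : (s ∩ Q).Nonempty) (h2 : (s ∩ Qᶜ).Nonempty) : (s ∩ frontier Q).Nonempty := by
  by_contra h
  rw [not_nonempty_iff_eq_empty] at h
  have hsub : s ⊆ interior Q ∪ interior Qᶜ := by
    intro x hx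
    by_contra hx'
    rw [mem_union, not_or] at hx'
    have : x ∈ s ∩ frontier Q := by
      refine ⟨hx, ?_⟩
      rw [frontier_eq_closure_inter_closure]
      refine ⟨?_, ?_⟩
      · rw [closure_eq_compl_interior_compl]; exact hx'.2
      · rw [closure_compl]; exact hx'.1
    rw [h] at this
    exact this
  obtain ⟨a, has, haQ⟩ := h1
  obtain ⟨b, hbs, hbQ⟩ := h2
  have ha : a ∈ interior Q := by
    rcases hsub has with h' | h'
    · exact h'
    · exact absurd haQ (interior_subset h')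
  have hb : b ∈ interior Qᶜ := by
    rcases hsub hbs with h' | h'
    · exact absurd (interior_subset h') hbQ
    · exact h'
  obtain ⟨x, -, hx1, hx2⟩ := hs (interior Q) (interior Qᶜ) isOpen_interior isOpen_interior hsub
    ⟨a, has, ha⟩ ⟨b, hbs, hb⟩
  exact (interior_subset hx2) (interior_subset hx1)

/-- **projection lemma for two points** -/
theorem proj {Q K : Set ℂ} {ι : Type} {F : Finset ι} {P : ι → Set ℂ}
    (hQb : Bornology.IsBounded Q) (hK : IsPreconnected K) (hKQ : K ⊆ Q ∪ ⋃ i ∈ F, P i)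
    (hPb : ∀ i ∈ F, Bornology.IsBounded (P i)) (hfr : frontier Q ⊆ ⋃ i ∈ F, P i) {z r : ℂ}
    (hz : z ∈ K) (hrK : r ∈ K) : dist z r ≤ ∑ i ∈ F, diam (P i) := by
  have hnn : 0 ≤ ∑ i ∈ F, diam (P i) := Finset.sum_nonneg fun i _ => diam_nonneg
  rcases eq_or_ne z r with h | hzr
  · rw [h, dist_self]; exact hnn
  -- the projection
  set d : ℝ := ‖z - r‖ with hd
  have hd0 : 0 < d := norm_pos_iff.2 (sub_ne_zero.2 hzr)
  set v : ℂ := (z - r) / d with hv
  have hvn : ‖v‖ = 1 := by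
    rw [hv, norm_div, Complex.norm_real, Real.norm_of_nonneg hd0.le, ← hd, div_self hd0.ne']
  let π : ℂ → ℝ := fun u => ((starRingEnd ℂ) v * u).re
  have hπc : Continuous π := by
    apply Complex.continuous_re.comp
    exact continuous_const.mul continuous_id
  have hπl : ∀ u w, |π u - π w| ≤ dist u w := by
    intro u w
    have : π u - π w = ((starRingEnd ℂ) v * (u - w)).re := by
      simp only [π, ← Complex.sub_re]; congr 1; ring
    rw [this]
    calc |((starRingEnd ℂ) v * (u - w)).re| ≤ ‖(starRingEnd ℂ) v * (u - w)‖ :=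
          Complex.abs_re_le_norm _
      _ = dist u w := by
          rw [norm_mul, RCLike.norm_conj, hvn, one_mul, dist_eq_norm]
  have hLip : LipschitzWith 1 π := LipschitzWith.of_dist_le_mul fun u w => by
    rw [Real.dist_eq, NNReal.coe_one, one_mul]; exact hπl u w
  have hπz : π z - π r = d := by
    have h1 : π z - π r = ((starRingEnd ℂ) v * (z - r)).re := by
      simp only [π, ← Complex.sub_re]; congr 1; ring
    have h2 : z - r = v * d := by
      rw [hv, div_mul_cancel₀ _ (Complex.ofReal_ne_zero.2 hd0.ne')]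
    rw [h1, h2, ← mul_assoc, ← Complex.normSq_eq_conj_mul_self, Complex.normSq_eq_norm_sq, hvn]
    simp
  -- every intermediate value is taken on the cover
  have key : Ioo (π r) (π z) ⊆ ⋃ i ∈ F, π '' (P i) := by
    intro t ht
    obtain ⟨u, huK, hut⟩ : t ∈ π '' K := by
      have := hK.intermediate_value hrK hz hπc.continuousOn
      exact this ⟨ht.1.le, ht.2.le⟩
    rcases hKQ huK with huQ | huP
    swap
    · rw [mem_iUnion₂] at huP ⊢
      obtain ⟨i, hi, hui⟩ := huP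
      exact ⟨i, hi, u, hui, hut⟩
    -- the line
    let ℓ : ℝ → ℂ := fun s => u + (s : ℂ) * (I * v)
    have hℓc : Continuous ℓ := by
      apply continuous_const.add
      exact (Complex.continuous_ofReal).mul continuous_const
    have hℓπ : ∀ s, π (ℓ s) = t := by
      intro s
      have : (starRingEnd ℂ) v * ℓ s = (starRingEnd ℂ) v * u + ((s : ℂ) * I) *
          ((starRingEnd ℂ) v * v) := by simp only [ℓ]; ring
      have h2 : (starRingEnd ℂ) v * v = 1 := by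
        rw [← Complex.normSq_eq_conj_mul_self, Complex.normSq_eq_norm_sq, hvn]; simp
      simp only [π] at hut ⊢
      rw [this, h2, mul_one, Complex.add_re, hut]
      simp
    have hconn : IsPreconnected (range ℓ) := isPreconnected_range hℓc
    have h1 : (range ℓ ∩ Q).Nonempty := ⟨u, ⟨0, by simp [ℓ]⟩, huQ⟩
    have h2 : (range ℓ ∩ Qᶜ).Nonempty := by
      obtain ⟨R, hR⟩ := hQb.subset_closedBall 0
      refine ⟨ℓ (‖u‖ + |R| + 1), ⟨_, rfl⟩, fun hmem => ?_⟩
      have h3 := hR hmem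
      rw [mem_closedBall, dist_zero_right] at h3
      have h4 : ‖((‖u‖ + |R| + 1 : ℝ) : ℂ) * (I * v)‖ = ‖u‖ + |R| + 1 := by
        rw [norm_mul, norm_mul, Complex.norm_I, hvn, Complex.norm_real, Real.norm_of_nonneg
          (by positivity)]; ring
      have h5 : ‖((‖u‖ + |R| + 1 : ℝ) : ℂ) * (I * v)‖ ≤ ‖ℓ (‖u‖ + |R| + 1)‖ + ‖u‖ := by
        have : ((‖u‖ + |R| + 1 : ℝ) : ℂ) * (I * v) = ℓ (‖u‖ + |R| + 1) - u := by
          simp only [ℓ]; ring
        rw [this]; exact norm_sub_le _ _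
      have := le_abs_self R
      rw [h4] at h5
      linarith
    obtain ⟨w, ⟨s, hs⟩, hw⟩ := inter_frontier hconn h1 h2
    have hwt : π w = t := by rw [← hs]; exact hℓπ s
    have hw' := hfr hw
    rw [mem_iUnion₂] at hw' ⊢
    obtain ⟨i, hi, hwi⟩ := hw'
    exact ⟨i, hi, w, hwi, hwt⟩
  -- measure
  have hvol : ENNReal.ofReal d ≤ ∑ i ∈ F, ENNReal.ofReal (diam (P i)) := by
    calc ENNReal.ofReal d = volume (Ioo (π r) (π z)) := by rw [Real.volume_Ioo, hπz]
      _ ≤ volume (⋃ i ∈ F, π '' (P i)) := measure_mono key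
      _ ≤ ∑ i ∈ F, volume (π '' (P i)) := measure_biUnion_finset_le _ _
      _ ≤ ∑ i ∈ F, ENNReal.ofReal (diam (P i)) := by
          refine Finset.sum_le_sum fun i hi => ?_
          calc volume (π '' (P i)) ≤ ediam (π '' (P i)) := Real.volume_le_diam _
            _ ≤ ediam (P i) := by
                have := hLip.ediam_image_le (P i)
                simpa using this
            _ = ENNReal.ofReal (diam (P i)) := by
                rw [diam, ENNReal.ofReal_toReal]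
                exact (hPb i hi).ediam_ne_top
  rw [← ENNReal.ofReal_sum_of_nonneg (fun i _ => diam_nonneg)] at hvol
  rw [dist_eq_norm]
  exact (ENNReal.ofReal_le_ofReal_iff hnn).1 hvol

/-! ### the exterior part -/

/-- the exterior part of the region -/
def Ext (s t h : ℝ) : Set ℂ :=
  cOf '' {z | 0 < z.re ∧ z.re < h ∧ 2 * Real.pi * s < z.im ∧ z.im < 2 * Real.pi * t}

lemma isOpen_Ext (s t h : ℝ) : IsOpen (Ext s t h) := by
  refine CH.isOpen_image ?_ fun z hz => hz.1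
  exact (isOpen_lt continuous_const continuous_re).inter
    ((isOpen_lt continuous_re continuous_const).inter
    ((isOpen_lt continuous_const continuous_im).inter (isOpen_lt continuous_im continuous_const)))

/-- an exterior point with an angle in the arc and small potential -/
lemma mem_Ext {s t h : ℝ} {c : ℂ} {θ : ℝ} (hθ : Ang c θ) (hh : G c c < h) {k : ℤ}
    (h1 : s < θ + k) (h2 : θ + k < t) : c ∈ Ext s t h := by
  have hpi := Real.two_pi_pos
  refine ⟨(G c c : ℂ) + 2 * Real.pi * ((θ + k : ℝ) : ℂ) * I, ⟨?_, ?_, ?_, ?_⟩, ?_⟩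
  · rw [CH.re_pt]; exact hθ.1
  · rw [CH.re_pt]; exact hh
  · rw [CH.im_pt]; exact mul_lt_mul_of_pos_left h1 hpi
  · rw [CH.im_pt]; exact mul_lt_mul_of_pos_left h2 hpi
  · rw [CH.cOf_shift]; exact (CH.eq_cOf hθ).symm

lemma ang_Ext {s t h : ℝ} {c : ℂ} (hc : c ∈ Ext s t h) : ∃ θ, Ang c θ ∧ s < θ ∧ θ < t := by
  obtain ⟨w, hw, rfl⟩ := hc
  refine ⟨w.im / (2 * Real.pi), CH.ang_of hw.1, ?_, ?_⟩
  · rw [lt_div_iff₀ Real.two_pi_pos]; linarith [hw.2.2.1]
  · rw [div_lt_iff₀ Real.two_pi_pos]; linarith [hw.2.2.2]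

/-- the exterior part of the frontier -/
lemma frontier_Ext {s t h : ℝ} {z : ℂ} (hM : z ∉ MM) (hz : z ∈ closure (Ext s t h))
    (hn : z ∉ Ext s t h) :
    (∃ u : ℝ, 0 < u ∧ u ≤ h ∧ (z = cOf ((u : ℂ) + 2 * Real.pi * s * I) ∨
      z = cOf ((u : ℂ) + 2 * Real.pi * t * I))) ∨ z ∈ RoofH h s t := by
  have hzG : 0 < G z z := mem_Mc_iff.2 hM
  set S : Set ℂ := Icc (G z z / 2) h ×ℂ Icc (2 * Real.pi * s) (2 * Real.pi * t) with hS
  have hSc : IsCompact S := isCompact_Icc.reProdIm isCompact_Icc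
  have hSpos : ∀ w ∈ S, 0 < w.re := fun w hw => by
    have h' : G z z / 2 ≤ w.re := hw.1.1
    linarith
  have hcl : IsClosed (cOf '' S) :=
    (hSc.image_of_continuousOn (continuousOn_cOf.mono hSpos)).isClosed
  have hU : {c : ℂ | G z z / 2 < G c c} ∈ 𝓝 z :=
    (isOpen_lt continuous_const continuous_G_diag).mem_nhds (by
      show G z z / 2 < G z z
      linarith)
  have h3 : z ∈ closure ({c : ℂ | G z z / 2 < G c c} ∩ Ext s t h) :=
    mem_closure_iff_nhds.2 fun N ht => by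
      obtain ⟨y, hy1, hy2⟩ := mem_closure_iff_nhds.1 hz _ (inter_mem ht hU)
      exact ⟨y, hy1.1, hy1.2, hy2⟩
  have h4 : z ∈ cOf '' S := by
    refine hcl.closure_subset_iff.2 ?_ h3
    rintro c ⟨hc1, w, hw, rfl⟩
    refine ⟨w, ⟨⟨?_, hw.2.1.le⟩, ⟨hw.2.2.1.le, hw.2.2.2.le⟩⟩, rfl⟩
    have : G z z / 2 < G (cOf w) (cOf w) := hc1
    rw [G_cOf hw.1] at this
    exact this.le
  obtain ⟨w, hw, hwz⟩ := h4
  have hw0 := hSpos w hw
  obtain ⟨⟨hr1, hr2⟩, hi1, hi2⟩ := hw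
  rcases hi1.eq_or_lt with h6 | h6
  · exact Or.inl ⟨w.re, hw0, hr2, Or.inl (by rw [← hwz]; exact congrArg cOf (CH.pt_of h6.symm))⟩
  rcases hi2.eq_or_lt with h7 | h7
  · exact Or.inl ⟨w.re, hw0, hr2, Or.inr (by rw [← hwz]; exact congrArg cOf (CH.pt_of h7))⟩
  rcases hr2.eq_or_lt with h8 | h8
  · right
    refine ⟨w.im / (2 * Real.pi), ⟨?_, ?_⟩, ?_⟩
    · rw [le_div_iff₀ Real.two_pi_pos]; linarith
    · rw [div_le_iff₀ Real.two_pi_pos]; linarith
    · have h9 : w.im = 2 * Real.pi * (w.im / (2 * Real.pi)) := by field_simp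
      have h10 := CH.pt_of h9
      show cOf ((h : ℂ) + 2 * Real.pi * ((w.im / (2 * Real.pi) : ℝ) : ℂ) * I) = z
      rw [← hwz, ← h8, ← h10]
  · exact absurd ⟨w, ⟨hw0, h8, h6, h7⟩, hwz⟩ hn

/-! ### limits of exterior points -/

variable {W : WS}

lemma axis_mem_D0 {m : ℕ} {ν : ℝ} (hm : 0 < m) (h0 : 0 < ν) (h1 : ν < 1) :
    (2 * Real.pi * ν * I : ℂ) ∈ Pri.D0 m := by
  have hpi := Real.pi_pos
  have him : (2 * Real.pi * ν * I : ℂ).im = 2 * Real.pi * ν := by simp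
  have hre : (2 * Real.pi * ν * I : ℂ).re = 0 := by simp
  have hm0 : (0 : ℝ) < m := by exact_mod_cast hm
  refine ⟨?_, ?_, ?_⟩
  · rw [him]; positivity
  · rw [him]; nlinarith
  · rw [him, hre]
    have := Pri.mu_pos (y := 2 * Real.pi * ν) (by positivity) (by nlinarith)
    unfold Pri.hgt
    positivity

/-- **limits of the exterior part**: in a limb or on the axis -/
theorem limit_Ext (hW : W.Ok) {x₁ x₂ : ℚ} (h0 : 0 < x₁) (h12 : x₁ < x₂) (h1 : x₂ < 1) {hh : ℝ}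
    {z : ℂ} (hM : z ∈ MM) (hz : z ∈ closure (Ext (W.dat x₁).tm (W.dat x₂).tp hh)) :
    (∃ y : ℚ, x₁ ≤ y ∧ y ≤ x₂ ∧ z ∈ Lm (W.dat y)) ∨
      ∃ y : ℝ, (x₁ : ℝ) ≤ y ∧ y ≤ x₂ ∧ z = W.c (2 * Real.pi * y * I) := by
  have hV := hW.wide
  have hm := hV.pos
  have hm0 : (0 : ℝ) < W.m := by exact_mod_cast hm
  have hx₁0 : (0 : ℝ) < x₁ := by exact_mod_cast h0
  have hx₂1 : (x₂ : ℝ) < 1 := by exact_mod_cast h1
  have hM0 : G z 0 = 0 := G_zero_of_mem hM
  set s : ℝ := (W.dat x₁).tm with hs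
  set t' : ℝ := (W.dat x₂).tp with ht'
  have hνs : W.nu s = x₁ := (WS.plateau hW h0 (h12.trans h1) s).2
    ⟨le_rfl, (WS.dat_cir hW h0 (h12.trans h1)).lt.le⟩
  have hνt : W.nu t' = x₂ := (WS.plateau hW (h0.trans h12) h1 t').2
    ⟨(WS.dat_cir hW (h0.trans h12) h1).lt.le, le_rfl⟩
  set T : Set (ℂ × (ℂ × ℝ)) := {p | p.1 ∈ ball z 1 ∧ ExtP W.m p.1 p.2.1 p.2.2 W.w ∧
    s ≤ p.2.2 ∧ p.2.2 ≤ t'} with hT
  have hTb : Bornology.IsBounded T := by
    refine ((isBounded_closedBall (x := (0 : ℂ)) (r := ‖z‖ + 1)).prod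
      ((isBounded_closedBall (x := (0 : ℂ)) (r := ‖z‖ + 2)).prod
        (isBounded_Icc s t'))).subset ?_
    rintro ⟨c', b', θ'⟩ ⟨h2, h3, h4, h5⟩
    have h6 : ‖c'‖ ≤ ‖z‖ + 1 := by
      have h7 : ‖c' - z‖ < 1 := by rw [← dist_eq_norm]; exact h2
      have h8 : ‖c'‖ ≤ ‖z‖ + ‖c' - z‖ := by
        have : c' = z + (c' - z) := by ring
        calc ‖c'‖ = ‖z + (c' - z)‖ := by rw [← this]
          _ ≤ _ := norm_add_le _ _
      linarith
    have h7 := norm_le_of_per hm h3.2.2.1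
    exact ⟨mem_closedBall_zero_iff.2 h6, mem_closedBall_zero_iff.2 (by
      show ‖b'‖ ≤ _
      linarith), h4, h5⟩
  have h2 : z ∈ closure (Prod.fst '' T) := by
    rw [mem_closure_iff_frequently] at hz ⊢
    refine (hz.and_eventually (ball_mem_nhds z one_pos)).mono ?_
    rintro c' ⟨h3, h4⟩
    obtain ⟨θ, h5, h6, h7⟩ := ang_Ext h3
    obtain ⟨b, hb⟩ := exists_extP hm h5 hV.bits
    exact ⟨(c', b, θ), ⟨h4, hb, h6.le, h7.le⟩, rfl⟩
  obtain ⟨⟨b, θ⟩, hbθ⟩ := fst_closure hTb h2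
  have hNe : (𝓝[T] ((z, b, θ) : ℂ × (ℂ × ℝ))).NeBot := mem_closure_iff_nhdsWithin_neBot.1 hbθ
  set F := 𝓝[T] ((z, b, θ) : ℂ × (ℂ × ℝ)) with hF
  have hFT : ∀ᶠ p in F, p ∈ T := self_mem_nhdsWithin
  have hle : F ≤ 𝓝 (z, b, θ) := nhdsWithin_le_nhds
  have t1 : Tendsto (fun p : ℂ × (ℂ × ℝ) => p.1) F (𝓝 z) := (continuous_fst.tendsto _).mono_left hle
  have t2 : Tendsto (fun p : ℂ × (ℂ × ℝ) => ((p.1, p.2.1) : ℂ × ℂ)) F (𝓝 (z, b)) :=
    ((continuous_fst.prodMk (continuous_fst.comp continuous_snd)).tendsto _).mono_left hle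
  have t3 : Tendsto (fun p : ℂ × (ℂ × ℝ) => p.2.2) F (𝓝 θ) :=
    ((continuous_snd.comp continuous_snd).tendsto _).mono_left hle
  have hνc : Continuous W.nu := by
    unfold WS.nu
    exact (Circ.nu_continuous W.w W.m).sub continuous_const
  have t4 : Tendsto (fun p : ℂ × (ℂ × ℝ) => W.nu p.2.2) F (𝓝 (W.nu θ)) :=
    (hνc.tendsto θ).comp t3
  have t5 : Tendsto (fun p : ℂ × (ℂ × ℝ) => ‖mul W.m (p.1, p.2.1)‖) F (𝓝 ‖mul W.m (z, b)‖) :=
    ((continuous_mul' W.m).norm.tendsto (z, b)).comp t2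
  have hθ1 : s ≤ θ := ge_of_tendsto t3 (hFT.mono fun p hp => hp.2.2.1)
  have hθ2 : θ ≤ t' := le_of_tendsto t3 (hFT.mono fun p hp => hp.2.2.2)
  have hν1 : (x₁ : ℝ) ≤ W.nu θ := by rw [← hνs]; exact WS.nu_mono W hθ1
  have hν2 : W.nu θ ≤ x₂ := by rw [← hνt]; exact WS.nu_mono W hθ2
  have hper : (z, b) ∈ Per W.m :=
    (isClosed_Per W.m).mem_of_tendsto t2 (hFT.mono fun p hp => hp.2.1.2.2.1)
  have hnorm : ∀ᶠ p in F, 1 < ‖mul W.m (p.1, p.2.1)‖ := hFT.mono fun p hp =>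
    one_lt_norm_mult_of_ext hm hp.2.1.1 hp.2.1.2.2.1
  have hnorm0 : 1 ≤ ‖mul W.m (z, b)‖ := ge_of_tendsto t5 (hnorm.mono fun p hp => hp.le)
  rcases hnorm0.eq_or_lt with hρ | hρ
  · -- the neutral case
    right
    refine ⟨W.nu θ, hν1, hν2, ?_⟩
    set ν₀ : ℝ := W.nu θ with hν₀
    set L₀ : ℂ := 2 * Real.pi * ν₀ * I with hL₀
    have hL₀D : L₀ ∈ Pri.D0 W.m := axis_mem_D0 hm (by linarith) (by linarith)
    have hcont : ContinuousAt W.c L₀ :=
      continuous_fst.continuousAt.comp (hV.cont.continuousAt ((Pri.isOpen_D0 W.m).mem_nhds hL₀D))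
    have hG4 : ∀ᶠ p in F, G p.1 p.1 ≤ 4 := by
      have h3 : ∀ᶠ c' in 𝓝 z, G c' c' < 4 := by
        refine continuous_G_diag.continuousAt.eventually_lt_const ?_
        show G z z < 4
        rw [mem_M_iff'.1 hM]; norm_num
      exact (t1.eventually h3).mono fun p hp => hp.le
    refine eq_of_forall_dist_le fun δ hδ => ?_
    obtain ⟨ε, hε, hεc⟩ := Metric.continuousAt_iff.1 hcont δ hδ
    obtain ⟨ε', hε', hεD⟩ := Metric.isOpen_iff.1 (Pri.isOpen_D0 W.m) L₀ hL₀D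
    set η : ℝ := min ε ε' / 2 with hη
    have hη0 : 0 < η := by rw [hη]; have := lt_min hε hε'; positivity
    have e1 : ∀ᶠ p in F, ‖mul W.m (p.1, p.2.1)‖ < Real.exp (η ^ 2 / (81 * W.m)) := by
      refine t5.eventually_lt_const ?_
      rw [← hρ, Real.one_lt_exp_iff]
      positivity
    have e2 : ∀ᶠ p in F, dist (W.nu p.2.2) ν₀ < η / (2 * Real.pi) :=
      t4.eventually (ball_mem_nhds _ (by have := Real.pi_pos; positivity))
    have e3 : ∀ᶠ p in F, dist p.1 (W.c L₀) ≤ δ := by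
      filter_upwards [hFT, hG4, e1, e2, hnorm] with p hp h4 h5 h6 h7
      obtain ⟨-, hE, h8, h9⟩ := hp
      obtain ⟨-, ℓ, hℓ, hply⟩ := extP_ply hm hE h4
      set L : ℂ := ℓ - W.k * (2 * Real.pi * I) with hL
      have hexp : exp L = mul W.m (p.1, p.2.1) := by
        rw [hL, Complex.exp_sub, Complex.exp_int_mul_two_pi_mul_I, div_one, hℓ]
        rfl
      have hre : L.re = ℓ.re := by rw [hL]; simp
      have hply' : ‖L - 2 * Real.pi * (W.nu p.2.2 : ℝ) * I‖ ^ 2 ≤ 81 * W.m * L.re := by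
        have h10 : L - 2 * Real.pi * (W.nu p.2.2 : ℝ) * I =
            ℓ - 2 * Real.pi * (Circ.nu W.w W.m p.2.2 : ℝ) * I := by
          rw [hL]; unfold WS.nu; push_cast; ring
        rw [h10, hre]; exact hply
      have hLre : 0 < L.re := by
        rw [← hexp, Complex.norm_exp, Real.one_lt_exp_iff] at h7
        exact h7
      rw [← hexp, Complex.norm_exp, Real.exp_lt_exp, lt_div_iff₀ (by positivity)] at h5
      have h11 : ‖L - 2 * Real.pi * (W.nu p.2.2 : ℝ) * I‖ < η :=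
        lt_of_pow_lt_pow_left₀ 2 hη0.le (by linarith)
      have h12' : ‖(2 * Real.pi * (W.nu p.2.2 : ℝ) * I : ℂ) - L₀‖ < η := by
        have h13 : (2 * Real.pi * (W.nu p.2.2 : ℝ) * I : ℂ) - L₀ =
            ((2 * Real.pi * (W.nu p.2.2 - ν₀) : ℝ) : ℂ) * I := by
          rw [hL₀]; push_cast; ring
        have hpi := Real.two_pi_pos
        rw [h13, norm_mul, norm_I, mul_one, norm_real, Real.norm_eq_abs, abs_mul,
          abs_of_pos hpi]
        rw [Real.dist_eq, lt_div_iff₀ hpi] at h6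
        linarith
      have h13 : dist L L₀ < min ε ε' := by
        rw [dist_eq_norm]
        have h14 : L - L₀ = (L - 2 * Real.pi * (W.nu p.2.2 : ℝ) * I) +
            ((2 * Real.pi * (W.nu p.2.2 : ℝ) * I : ℂ) - L₀) := by ring
        rw [h14]
        refine (norm_add_le _ _).trans_lt ?_
        have : η + η = min ε ε' := by rw [hη]; ring
        linarith
      have hLD : L ∈ Pri.D0 W.m := hεD (h13.trans_le (min_le_right _ _))
      have hk1 : (x₁ : ℝ) ≤ W.nu p.2.2 := by rw [← hνs]; exact WS.nu_mono W h8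
      have hk2 : W.nu p.2.2 ≤ x₂ := by rw [← hνt]; exact WS.nu_mono W h9
      have hFF : FF W.m (p.1, p.2.1) = FF W.m (W.σ L) := by
        rw [(hV.lab L hLD hLre).2 p.2.2 (by unfold WS.nu at hk1; linarith)
          (by unfold WS.nu at hk2; linarith)]
        exact FF_ext (x := (p.1, p.2.1)) hE
      have heq := hV.uniq L hLD hLre (p.1, p.2.1) hE.2.2.1 hexp.symm hFF
      have h15 : p.1 = W.c L := by
        show p.1 = (W.σ L).1
        rw [← heq]
      rw [h15]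
      exact (hεc (h13.trans_le (min_le_left _ _))).le
    exact le_of_tendsto (t1.dist tendsto_const_nhds) e3
  · -- the repelling case
    have hρ' : 1 < ‖mult W.m z b‖ := hρ
    have hρ0 : mult W.m z b ≠ 0 := by
      intro h3
      rw [h3, norm_zero] at hρ'
      linarith
    obtain ⟨β, q, p', hq, hland, -, -, -⟩ := Tr.exists_land_rot (Pool.Agent.Work.MLC.lin_Lz hm hper hρ') hM0
      (Complex.exp_log hρ0)
    have hq0 : (0 : ℝ) < q := by exact_mod_cast hq
    have e1 : ∀ᶠ p in F, ∃ P : ℤ, Circ.nu W.w W.m p.2.2 = P / q := by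
      filter_upwards [hFT, t2.eventually (land_nhds hm hM0 hper hρ' hland)] with p hp h3
      obtain ⟨P, -, hP⟩ := nu_of_compat hland.1 hp.2.1.2.2.2.1.per
        ((h3 hp.2.1.2.2.1).2 p.2.2 W.w hp.2.1.1 hp.2.1.2.1 hp.2.1.2.2.2.2)
      exact ⟨P, hP⟩
    have t6 : Tendsto (fun p : ℂ × (ℂ × ℝ) => Circ.nu W.w W.m p.2.2) F
        (𝓝 (Circ.nu W.w W.m θ)) := ((Circ.nu_continuous W.w W.m).tendsto θ).comp t3
    obtain ⟨P₀, hP₀⟩ : Circ.nu W.w W.m θ ∈ {x : ℝ | ∃ P : ℤ, x = P / q} :=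
      (Pri.isClosed_rat hq).mem_of_tendsto t6 e1
    have e2 : ∀ᶠ p in F, Circ.nu W.w W.m p.2.2 = Circ.nu W.w W.m θ := by
      filter_upwards [e1, t6.eventually (ball_mem_nhds _ (show (0 : ℝ) < 1 / q by positivity))]
        with p h3 h4
      obtain ⟨P, hP⟩ := h3
      rw [hP, hP₀, Real.dist_eq, ← sub_div, abs_div, abs_of_pos hq0,
        div_lt_div_iff_of_pos_right hq0] at h4
      have h5 : |P - P₀| < 1 := by exact_mod_cast h4
      have h6 : P = P₀ := by
        have := Int.abs_lt_one_iff.1 h5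
        omega
      rw [hP, hP₀, h6]
    set y : ℚ := (P₀ : ℚ) / q - W.k with hy
    have hyν : W.nu θ = y := by
      unfold WS.nu
      rw [hP₀, hy]
      push_cast
      ring
    have hy1 : x₁ ≤ y := by rw [hyν] at hν1; exact_mod_cast hν1
    have hy2 : y ≤ x₂ := by rw [hyν] at hν2; exact_mod_cast hν2
    have hy0 : 0 < y := h0.trans_le hy1
    have hyl : y < 1 := hy2.trans_lt h1
    have hcl : z ∈ closure (Lm (W.dat y) ∪
        {c' | ∃ θ, Ang c' θ ∧ (W.dat y).tm ≤ θ ∧ θ ≤ (W.dat y).tp}) := by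
      refine mem_closure_of_tendsto t1 ?_
      filter_upwards [hFT, e2] with p hp h3
      right
      have h4 : W.nu p.2.2 = y := by
        rw [← hyν]; unfold WS.nu; rw [h3]
      obtain ⟨h5, h6⟩ := (WS.plateau hW hy0 hyl _).1 h4
      exact ⟨p.2.2, hp.2.1.ang, h5, h6⟩
    rcases n5_closed _ (WS.dat_par hW hy0 hyl) (WS.dat_cir hW hy0 hyl) z hM hcl with h3 | h3
    · exact Or.inl ⟨y, hy1, hy2, h3⟩
    · right
      refine ⟨y, by exact_mod_cast hy1, by exact_mod_cast hy2, ?_⟩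
      rw [h3, rt, WS.dat_c hW hy0 hyl, WS.dat_a hW hy0 hyl, axisPt_eq]

/-! ### the region -/

/-- the region -/
def Reg (W : WS) (x₁ x₂ : ℚ) (h : ℝ) : Set ℂ :=
  Ext (W.dat x₁).tm (W.dat x₂).tp h ∪ {c | ∃ y : ℚ, x₁ ≤ y ∧ y ≤ x₂ ∧ c ∈ Lm (W.dat y)}

/-- the plateaus are ordered -/
lemma ends (hW : W.Ok) {x₁ x₂ y : ℚ} (h0 : 0 < x₁) (h1 : x₂ < 1) (hy1 : x₁ ≤ y) (hy2 : y ≤ x₂) :
    (W.dat x₁).tm ≤ (W.dat y).tm ∧ (W.dat y).tp ≤ (W.dat x₂).tp := by
  have hx1 : x₁ < 1 := (hy1.trans hy2).trans_lt h1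
  have hx2 : 0 < x₂ := h0.trans_le (hy1.trans hy2)
  have hy0 : 0 < y := h0.trans_le hy1
  have hyl : y < 1 := hy2.trans_lt h1
  have a1 := (WS.plateau hW h0 hx1 (W.dat x₁).tm).2 ⟨le_rfl, (WS.dat_cir hW h0 hx1).lt.le⟩
  have a2 := (WS.plateau hW hx2 h1 (W.dat x₂).tp).2 ⟨(WS.dat_cir hW hx2 h1).lt.le, le_rfl⟩
  have a3 := (WS.plateau hW hy0 hyl (W.dat y).tm).2 ⟨le_rfl, (WS.dat_cir hW hy0 hyl).lt.le⟩
  have a4 := (WS.plateau hW hy0 hyl (W.dat y).tp).2 ⟨(WS.dat_cir hW hy0 hyl).lt.le, le_rfl⟩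
  constructor
  · rcases hy1.eq_or_lt with h | h
    · rw [h]
    · by_contra hcon
      push Not at hcon
      have h2 := WS.nu_mono W hcon.le
      rw [a1, a3] at h2
      have h3 : y ≤ x₁ := by exact_mod_cast h2
      exact absurd h (not_lt.2 h3)
  · rcases hy2.eq_or_lt with h | h
    · rw [h]
    · by_contra hcon
      push Not at hcon
      have h2 := WS.nu_mono W hcon.le
      rw [a2, a4] at h2
      have h3 : x₂ ≤ y := by exact_mod_cast h2
      exact absurd h (not_lt.2 h3)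

/-- near a point of a limb -/
lemma near_Lm (hW : W.Ok) {x₁ x₂ y : ℚ} (h0 : 0 < x₁) (h1 : x₂ < 1) (hy1 : x₁ ≤ y) (hy2 : y ≤ x₂)
    {h : ℝ} (hh : 0 < h) {c : ℂ} (hc : c ∈ Lm (W.dat y)) :
    ∀ᶠ c' in 𝓝 c, c' ∈ Lm (W.dat y) ∪ Ext (W.dat x₁).tm (W.dat x₂).tp h := by
  have hy0 : 0 < y := h0.trans_le hy1
  have hyl : y < 1 := hy2.trans_lt h1
  have hcM : c ∈ MM := hc.1
  have hG : ∀ᶠ c' in 𝓝 c, G c' c' < h := by
    refine (continuous_G_diag.tendsto c).eventually (eventually_lt_nhds ?_)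
    rw [mem_M_iff'.1 hcM]; exact hh
  obtain ⟨e1, e2⟩ := ends hW h0 h1 hy1 hy2
  filter_upwards [n5_open _ (WS.dat_par hW hy0 hyl) (WS.dat_cir hW hy0 hyl) c hc, hG] with c' h2 h3
  by_cases hM : c' ∈ MM
  · exact Or.inl (h2.1 hM)
  · right
    obtain ⟨θ, hθ⟩ := exists_ang (mem_Mc_iff.2 hM)
    obtain ⟨k, hk1, hk2⟩ := h2.2 θ hθ
    exact mem_Ext hθ h3 (e1.trans_lt hk1) (hk2.trans_le e2)

lemma isOpen_Reg (hW : W.Ok) {x₁ x₂ : ℚ} (h0 : 0 < x₁) (h1 : x₂ < 1) {h : ℝ} (hh : 0 < h) :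
    IsOpen (Reg W x₁ x₂ h) := by
  rw [isOpen_iff_mem_nhds]
  rintro c (hc | ⟨y, hy1, hy2, hc⟩)
  · exact mem_of_superset ((isOpen_Ext _ _ _).mem_nhds hc) subset_union_left
  · filter_upwards [near_Lm hW h0 h1 hy1 hy2 hh hc] with c' h2
    rcases h2 with h2 | h2
    · exact Or.inr ⟨y, hy1, hy2, h2⟩
    · exact Or.inl h2

lemma bounded_Reg (W : WS) (x₁ x₂ : ℚ) (h : ℝ) : Bornology.IsBounded (Reg W x₁ x₂ h) := by
  refine isCompact_MM.isBounded.union ((isCompact_G_diag_le h).isBounded) |>.subset ?_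
  rintro c (⟨z, hz, rfl⟩ | ⟨y, -, -, hc⟩)
  · right
    show G (cOf z) (cOf z) ≤ _
    rw [G_cOf hz.1]; exact hz.2.1.le
  · exact Or.inl hc.1

/-- a point of `MM` in the closure of the region is a limit of the exterior part, or in a limb, or a
root -/
theorem limit_Reg (hW : W.Ok) {x₁ x₂ : ℚ} (h0 : 0 < x₁) (h1 : x₂ < 1) {h : ℝ} (hh : 0 < h)
    {z : ℂ} (hM : z ∈ MM) (hz : z ∈ closure (Reg W x₁ x₂ h)) :
    z ∈ closure (Ext (W.dat x₁).tm (W.dat x₂).tp h) ∨
      ∃ y : ℚ, x₁ ≤ y ∧ y ≤ x₂ ∧ (z ∈ Lm (W.dat y) ∨ z = rt (W.dat y)) := by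
  by_contra hcon
  push Not at hcon
  obtain ⟨hn1, hn2⟩ := hcon
  obtain ⟨r, hr, hball⟩ := Metric.isOpen_iff.1 isClosed_closure.isOpen_compl z hn1
  obtain ⟨c, hcb, hc⟩ := mem_closure_iff_nhds.1 hz _ (ball_mem_nhds z hr)
  rcases hc with hc | ⟨y, hy1, hy2, hc⟩
  · exact hball hcb (subset_closure hc)
  have hy0 : 0 < y := h0.trans_le hy1
  have hyl : y < 1 := hy2.trans_lt h1
  set D := W.dat y with hD
  have hP : D.Par := WS.dat_par hW hy0 hyl
  have hC : D.Cir := WS.dat_cir hW hy0 hyl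
  obtain ⟨hzL, hzr⟩ := hn2 y hy1 hy2
  -- the open set
  set V : Set ℂ := ball z r ∩ Lm D with hV
  have hVo : IsOpen V := by
    rw [isOpen_iff_mem_nhds]
    rintro u ⟨hu1, hu2⟩
    filter_upwards [near_Lm hW h0 h1 hy1 hy2 hh hu2, isOpen_ball.mem_nhds hu1] with u' h2 h3
    rcases h2 with h2 | h2
    · exact ⟨h3, h2⟩
    · exact absurd (subset_closure h2) (hball h3)
  have hfrV : ∀ u ∈ ball z r, u ∈ frontier V → u = rt D := by
    intro u hu hfr
    rw [frontier, hVo.interior_eq] at hfr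
    have h2 : u ∈ closure (Lm D) := closure_mono inter_subset_right hfr.1
    have h3 : u ∈ MM := closure_minimal (fun c hc => hc.1) isCompact_MM.isClosed h2
    rcases n5_closed D hP hC u h3 (closure_mono subset_union_left h2) with h4 | h4
    · exact absurd ⟨hu, h4⟩ hfr.2
    · exact h4
  have hzV : z ∉ closure V := by
    intro h2
    have h3 : z ∈ closure (Lm D) := closure_mono inter_subset_right h2
    rcases n5_closed D hP hC z hM (closure_mono subset_union_left h3) with h4 | h4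
    · exact hzL h4
    · exact hzr h4
  -- every segment from `V` to a point close to `z` contains the root
  have hseg : ∀ u ∈ V, ∀ v ∈ ball z r, v ∉ closure V → rt D ∈ segment ℝ u v := by
    intro u hu v hv hvV
    have hsub : segment ℝ u v ⊆ ball z r := (convex_ball z r).segment_subset hu.1 hv
    obtain ⟨w, hw1, hw2⟩ := inter_frontier (convex_segment (𝕜 := ℝ) u v).isPreconnected
      ⟨u, left_mem_segment ℝ u v, hu⟩
      ⟨v, right_mem_segment ℝ u v, fun h2 => hvV (subset_closure h2)⟩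
    rw [← hfrV w (hsub hw1) hw2]
    exact hw1
  have hcV : c ∈ V := ⟨hcb, hc⟩
  have hcz : c ≠ z := by
    rintro rfl
    exact hzV (subset_closure hcV)
  -- two parallel segments
  have e1 : ∀ᶠ ε : ℝ in 𝓝 0, c + (ε : ℂ) * (I * (c - z)) ∈ V := by
    have h2 : Continuous fun ε : ℝ => c + (ε : ℂ) * (I * (c - z)) := by fun_prop
    refine (h2.tendsto 0).eventually (hVo.mem_nhds ?_)
    simpa using hcV
  have e2 : ∀ᶠ ε : ℝ in 𝓝 0, z + (ε : ℂ) * (I * (c - z)) ∈ ball z r ∩ (closure V)ᶜ := by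
    have h2 : Continuous fun ε : ℝ => z + (ε : ℂ) * (I * (c - z)) := by fun_prop
    refine (h2.tendsto 0).eventually ((isOpen_ball.inter isClosed_closure.isOpen_compl).mem_nhds ?_)
    simpa using ⟨hr, hzV⟩
  obtain ⟨ε, ⟨h2, h3⟩, h4⟩ := (((e1.and e2).filter_mono
    (nhdsWithin_le_nhds (s := Ioi 0))).and self_mem_nhdsWithin).exists
  have h4' : (0 : ℝ) < ε := h4
  obtain ⟨a, b, -, -, hab, h5⟩ := hseg c hcV z (mem_ball_self hr) hzV
  obtain ⟨a', b', -, -, hab', h6⟩ := hseg _ h2 _ h3.1 h3.2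
  rw [← h5] at h6
  simp only [real_smul] at h6
  have hb : (b : ℂ) = 1 - a := by
    rw [eq_sub_iff_add_eq, add_comm]; exact_mod_cast hab
  have hb' : (b' : ℂ) = 1 - a' := by
    rw [eq_sub_iff_add_eq, add_comm]; exact_mod_cast hab'
  rw [hb, hb'] at h6
  have h7 : (c - z) * ((a' : ℂ) - a + ε * I) = 0 := by linear_combination h6
  rcases mul_eq_zero.1 h7 with h8 | h8
  · exact hcz (sub_eq_zero.1 h8)
  · have h9 := congrArg Complex.im h8
    simp at h9
    exact h4'.ne' h9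

/-- **the frontier of the region** -/
theorem frontier_Reg (hW : W.Ok) {x₁ x₂ : ℚ} (h0 : 0 < x₁) (h12 : x₁ < x₂) (h1 : x₂ < 1) {h : ℝ}
    (hh : 0 < h) {z : ℂ} (hz : z ∈ frontier (Reg W x₁ x₂ h)) :
    (∃ u : ℝ, 0 < u ∧ u ≤ h ∧ (z = cOf ((u : ℂ) + 2 * Real.pi * (W.dat x₁).tm * I) ∨
      z = cOf ((u : ℂ) + 2 * Real.pi * (W.dat x₂).tp * I))) ∨
      z ∈ RoofH h (W.dat x₁).tm (W.dat x₂).tp ∨
      ∃ y : ℝ, (x₁ : ℝ) ≤ y ∧ y ≤ x₂ ∧ z = W.c (2 * Real.pi * y * I) := by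
  rw [frontier, (isOpen_Reg hW h0 h1 hh).interior_eq] at hz
  obtain ⟨hzc, hzn⟩ := hz
  by_cases hM : z ∈ MM
  · right; right
    have key : ∀ y : ℚ, x₁ ≤ y → y ≤ x₂ → z = rt (W.dat y) →
        ∃ y : ℝ, (x₁ : ℝ) ≤ y ∧ y ≤ x₂ ∧ z = W.c (2 * Real.pi * y * I) := by
      intro y hy1 hy2 h3
      have hy0 : 0 < y := h0.trans_le hy1
      have hyl : y < 1 := hy2.trans_lt h1
      refine ⟨y, by exact_mod_cast hy1, by exact_mod_cast hy2, ?_⟩
      rw [h3, rt, WS.dat_c hW hy0 hyl, WS.dat_a hW hy0 hyl, axisPt_eq]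
    rcases limit_Reg hW h0 h1 hh hM hzc with h2 | ⟨y, hy1, hy2, h2 | h2⟩
    · rcases limit_Ext hW h0 h12 h1 hM h2 with ⟨y, hy1, hy2, h3⟩ | h3
      · exact absurd (Or.inr ⟨y, hy1, hy2, h3⟩) hzn
      · exact h3
    · exact absurd (Or.inr ⟨y, hy1, hy2, h2⟩) hzn
    · exact key y hy1 hy2 h2
  · have h2 : z ∈ closure (Ext (W.dat x₁).tm (W.dat x₂).tp h) := by
      rw [Reg, closure_union] at hzc
      rcases hzc with h3 | h3
      · exact h3
      · exfalso
        refine hM (closure_minimal ?_ isCompact_MM.isClosed h3)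
        rintro c ⟨y, -, -, hc⟩
        exact hc.1
    rcases frontier_Ext hM h2 (fun h3 => hzn (Or.inl h3)) with h3 | h3
    · exact Or.inl h3
    · exact Or.inr (Or.inl h3)

end T60

/-- **module T** -/
theorem q_top : Q_top := by
  intro W hW x x₁ x₂ h0 hx1 hx2 h1 g h hg hgh κ F P hPb hax hr1 hr2
  have hh : 0 < h := hg.trans_le hgh
  have h12 : x₁ < x₂ := hx1.trans hx2
  have hx0 : 0 < x := h0.trans hx1
  have hxl : x < 1 := hx2.trans h1
  set s : ℝ := (W.dat x₁).tm with hs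
  set t : ℝ := (W.dat x₂).tp with ht
  have hrayb : ∀ t : ℝ, Bornology.IsBounded (RaySeg t g h) := by
    intro t
    have hc : ContinuousOn (fun u : ℝ => cOf ((u : ℂ) + 2 * Real.pi * t * I)) (Icc g h) := by
      refine continuousOn_cOf.comp (by fun_prop) fun u hu => ?_
      show 0 < ((u : ℂ) + 2 * Real.pi * t * I).re
      rw [CH.re_pt]; exact hg.trans_le hu.1
    exact (isCompact_Icc.image_of_continuousOn hc).isBounded
  have hroofb : Bornology.IsBounded (RoofH h s t) := by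
    have hc : ContinuousOn (fun u : ℝ => cOf ((h : ℂ) + 2 * Real.pi * u * I)) (Icc s t) := by
      refine continuousOn_cOf.comp (by fun_prop) fun u hu => ?_
      show 0 < ((h : ℂ) + 2 * Real.pi * u * I).re
      rw [CH.re_pt]; exact hh
    exact (isCompact_Icc.image_of_continuousOn hc).isBounded
  set F' : Finset (κ ⊕ Fin 3) := F.disjSum Finset.univ with hF'
  set P' : κ ⊕ Fin 3 → Set ℂ :=
    Sum.elim P ![RaySeg s g h, RaySeg t g h, RoofH h s t] with hP'
  have hsum : ∑ i ∈ F', diam (P' i) = diam (RaySeg s g h) + diam (RaySeg t g h) +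
      diam (RoofH h s t) + ∑ i ∈ F, diam (P i) := by
    rw [hF', Finset.sum_disjSum, Fin.sum_univ_three]
    simp [hP']
    ring
  have hin : ∀ z : ℂ, (∃ i ∈ F, z ∈ P i) → z ∈ ⋃ i ∈ F', P' i := by
    rintro z ⟨i, hi, hz⟩
    rw [mem_iUnion₂]
    exact ⟨Sum.inl i, by simp [hF', hi], hz⟩
  have hin' : ∀ (z : ℂ) (j : Fin 3), z ∈ P' (Sum.inr j) → z ∈ ⋃ i ∈ F', P' i := by
    intro z j hz
    rw [mem_iUnion₂]
    exact ⟨Sum.inr j, by simp [hF'], hz⟩
  have hfr : frontier (T60.Reg W x₁ x₂ h) ⊆ ⋃ i ∈ F', P' i := by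
    intro z hz
    rcases T60.frontier_Reg hW h0 h12 h1 hh hz with ⟨u, hu0, huh, h3 | h3⟩ | h3 | ⟨y, hy1, hy2, h3⟩
    · rcases le_or_gt u g with h4 | h4
      · rw [h3]; exact hin _ (hr1 u hu0 h4)
      · exact hin' z 0 ⟨u, ⟨h4.le, huh⟩, h3.symm⟩
    · rcases le_or_gt u g with h4 | h4
      · rw [h3]; exact hin _ (hr2 u hu0 h4)
      · exact hin' z 1 ⟨u, ⟨h4.le, huh⟩, h3.symm⟩
    · exact hin' z 2 h3
    · rw [h3]; exact hin _ (hax y hy1 hy2)
  rw [← hsum]
  refine diam_le_of_forall_dist_le (Finset.sum_nonneg fun i _ => diam_nonneg) ?_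
  intro z hz z' hz'
  refine T60.proj (K := Lm (W.dat x) ∪ {rt (W.dat x)}) (T60.bounded_Reg W x₁ x₂ h)
    (CH.preconn_K n5_open n5_closed (WS.dat_par hW hx0 hxl) (WS.dat_cir hW hx0 hxl)) ?_ ?_ hfr
    (Or.inl hz) (Or.inl hz')
  · rintro c (hc | hc)
    · exact Or.inl (Or.inr ⟨x, hx1.le, hx2.le, hc⟩)
    · right
      rw [mem_singleton_iff.1 hc, rt, WS.dat_c hW hx0 hxl, WS.dat_a hW hx0 hxl, axisPt_eq]
      exact hin _ (hax x (by exact_mod_cast hx1.le) (by exact_mod_cast hx2.le))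
  · intro i hi
    rcases i with i | i
    · refine hPb i ?_
      simpa [hF'] using hi
    · fin_cases i
      · exact hrayb s
      · exact hrayb t
      · exact hroofb

end Pool.Agent.Work.MLC.Cnt
end

section
set_option autoImplicit false

/-! # Theorem Q, module G1: the size of a gate of any radius at most `gR / 8` (helper43) -/

namespace Pool.Agent.Work.MLC.Cnt

open Filter Topology Metric Set Complex MeasureTheory
open Pool.Agent.Work.MLC.Sat

/-- **G1** -/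
theorem q_gate : Q_gate := by
  intro W hW y ρ h0 h1 hρ hρR
  have hP := WS.dat_par hW h0 h1
  have hC := WS.dat_cir hW h0 h1
  have hm := WS.dat_m hW h0 h1
  have hx := WS.dat_x hW h0 h1
  have ha := WS.dat_a hW h0 h1
  have hc : W.c = (W.dat y).c := funext fun L => (WS.dat_c hW h0 h1 L).symm
  have hsub : ball (axisPt y) (8 * ρ) ⊆ (W.dat y).B := by
    show ball (axisPt y) (8 * ρ) ⊆ ball (W.dat y).a (gR (W.dat y).m (W.dat y).x)
    rw [ha, hm, hx]
    exact ball_subset_ball (by linarith)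
  obtain ⟨g1, g2, g3⟩ := Kb.gate_gen (f := (W.dat y).c) (z0 := axisPt y) (R := 8 * ρ)
    (by positivity) ((c_diff hP).mono hsub) ((c_injOn hP hC).mono hsub)
    (fun L hL => section_deriv_ne_zero (goodB hP) hP.cont hP.sec (hsub hL))
  have h8 : 8 * ρ / 8 = ρ := by ring
  rw [h8] at g1 g2 g3
  have hre : (axisPt y).re = 0 := LimbData.axisPt_re y
  have hH : W.Hf y ρ = (W.dat y).c '' Kb.LH (axisPt y) ρ := by
    unfold WS.Hf Kb.LH
    rw [hre, hc]
  have hG : W.Gt y ρ = (W.dat y).c '' closedBall (axisPt y) ρ := by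
    unfold WS.Gt
    rw [hc]
  rw [hH, hG]
  refine ⟨g1, g2, g3.trans ?_⟩
  have := Real.sqrt_nonneg ((volume ((W.dat y).c '' Kb.LH (axisPt y) ρ)).toReal)
  nlinarith

end Pool.Agent.Work.MLC.Cnt
end

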