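import Mathlib
import Pool.Agent.Work.MLCM.C64

section
set_option autoImplicit false

/-! # Theorem N, module N6: the limb is the part of `MM` separated from `0` by the root (helper60) -/

namespace Pool.Agent.Work.MLC

open Filter Topology Metric Set

namespace LimbData

variable {M : Set ℂ} {x₀ : ℚ} {R A : ℝ} {c : ℂ → ℂ} {T : ℂ → ℚ → Prop}

/-- variant of `main'`: `K₀` is open and closed in `M` up to the root, and contains the points of
type `x₀` near the root; then all points of `M` outside `K₀`, different from the root, are in the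
component of the left side (the proof is the one of `main'`, helper6) -/
theorem main_gen (h : LimbData M x₀ R A c T) (hM : IsCompact M) (hMc : IsPreconnected M)
    {K₀ : Set ℂ} (hKo : ∀ z ∈ K₀, ∀ᶠ w in 𝓝 z, w ∈ M → w ∈ K₀)
    (hKc : ∀ z ∈ M, z ∈ closure K₀ → z ∈ K₀ ∨ z = c (axisPt x₀))
    {δ₁ : ℝ} (hδ₁ : 0 < δ₁) (hKT : ∀ L ∈ ball (axisPt x₀) δ₁, T L x₀ → c L ∈ K₀) :
    ∃ δ : ℝ, 0 < δ ∧ δ ≤ R ∧ ∀ z ∈ M, z ∉ K₀ → z ≠ c (axisPt x₀) →
      c '' (ball (axisPt x₀) δ ∩ {L | L.re < 0}) ⊆
        connectedComponentIn (M \ {c (axisPt x₀)}) z := by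
  obtain ⟨δ₀, hδ₀, hinj₀⟩ := h.inj
  set r := c (axisPt x₀) with hr
  set δ := min (min δ₀ δ₁) R with hδdef
  have hδ : 0 < δ := lt_min (lt_min hδ₀ hδ₁) h.R_pos
  have hδR : δ ≤ R := min_le_right _ _
  have hδδ₁ : δ ≤ δ₁ := (min_le_left _ _).trans (min_le_right _ _)
  have hinj : InjOn c (ball (axisPt x₀) δ) :=
    hinj₀.mono (ball_subset_ball ((min_le_left _ _).trans (min_le_left _ _)))
  have hsubR : ball (axisPt x₀) δ ⊆ ball (axisPt x₀) R := ball_subset_ball hδR
  have hcen : axisPt x₀ ∈ ball (axisPt x₀) δ := mem_ball_self hδ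
  have hcenR : axisPt x₀ ∈ ball (axisPt x₀) R := mem_ball_self h.R_pos
  have hrM : r ∈ M := h.left _ hcenR (by rw [axisPt_re])
  set S : Set ℂ := ball (axisPt x₀) δ ∩ {L | L.re < 0} with hS
  set W : Set ℂ := c '' S with hW
  have hSconv : Convex ℝ S := (convex_ball _ _).inter (convex_halfSpace_re_lt 0)
  have hSD : S ⊆ ball (axisPt x₀) R := inter_subset_left.trans hsubR
  have hWconn : IsPreconnected W := hSconv.isPreconnected.image _ (h.cont.mono hSD)
  have hWsub : W ⊆ M \ {r} := by
    rintro _ ⟨L, hL, rfl⟩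
    refine ⟨h.left L (hSD hL) (le_of_lt hL.2), fun h0 => ?_⟩
    have h1 : L = axisPt x₀ := hinj hL.1 hcen h0
    have h2 := hL.2
    rw [h1] at h2
    simp [axisPt_re] at h2
  refine ⟨δ, hδ, hδR, ?_⟩
  -- boundary points over the imaginary axis
  have hbd : ∀ L ∈ ball (axisPt x₀) δ, L.re = 0 → L ≠ axisPt x₀ →
      IsPreconnected (insert (c L) W) ∧ insert (c L) W ⊆ M \ {r} := by
    intro L hL hre hne
    constructor
    · refine hWconn.subset_closure (subset_insert _ _) ?_
      rintro z (rfl | hz)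
      · have hLS : L ∈ closure S := by
          rw [Metric.mem_closure_iff]
          intro ε hε
          have hd : 0 < δ - dist L (axisPt x₀) := sub_pos.2 hL
          set η := min (ε / 2) ((δ - dist L (axisPt x₀)) / 2) with hη
          have hη0 : 0 < η := lt_min (by positivity) (by positivity)
          refine ⟨L - (η : ℂ), ⟨?_, ?_⟩, ?_⟩
          · rw [mem_ball]
            calc dist (L - (η : ℂ)) (axisPt x₀) ≤ dist (L - (η : ℂ)) L + dist L (axisPt x₀) :=
                  dist_triangle _ _ _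
              _ = η + dist L (axisPt x₀) := by
                  rw [dist_eq_norm]
                  have : L - (η : ℂ) - L = -(η : ℂ) := by ring
                  rw [this, norm_neg, Complex.norm_real, Real.norm_eq_abs, abs_of_pos hη0]
              _ < δ := by
                  have := min_le_right (ε / 2) ((δ - dist L (axisPt x₀)) / 2)
                  linarith
          · simp [hre, hη0]
          · rw [dist_eq_norm]
            have : L - (L - (η : ℂ)) = (η : ℂ) := by ring
            rw [this, Complex.norm_real, Real.norm_eq_abs, abs_of_pos hη0]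
            have := min_le_left (ε / 2) ((δ - dist L (axisPt x₀)) / 2)
            linarith
        exact (h.cont.continuousAt (isOpen_ball.mem_nhds (hsubR hL))).continuousWithinAt.mem_closure_image
          hLS
      · exact subset_closure hz
    · rintro z (rfl | hz)
      · refine ⟨h.left L (hsubR hL) hre.le, fun h0 => hne (hinj hL hcen h0)⟩
      · exact hWsub hz
  intro z hzM hzK hzr
  set Q := connectedComponentIn (M \ {r}) z with hQ
  have hzQ : z ∈ Q := mem_connectedComponentIn ⟨hzM, hzr⟩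
  -- it is enough that `Q` meets a connected set in `M \ {r}` containing `W`
  have hfin : ∀ V : Set ℂ, IsPreconnected V → V ⊆ M \ {r} → W ⊆ V → (Q ∩ V).Nonempty → W ⊆ Q := by
    intro V hV hVs hWV hne
    obtain ⟨w, hwQ, hwV⟩ := hne
    have h1 : V ⊆ connectedComponentIn (M \ {r}) w := hV.subset_connectedComponentIn hwV hVs
    have h2 : connectedComponentIn (M \ {r}) z = connectedComponentIn (M \ {r}) w :=
      connectedComponentIn_eq hwQ
    rw [hQ, h2]
    exact hWV.trans h1
  -- `r` is in the closure of `Q`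
  have hrQ : r ∈ closure Q := by
    have h1 := MLC34.closure_component_bumping hM hMc (isOpen_compl_singleton (x := r)) hzM
      (by simpa using hzr) (fun h0 => h0 hrM rfl)
    have h2 : M ∩ {r}ᶜ = M \ {r} := rfl
    rw [h2] at h1
    rw [not_subset] at h1
    obtain ⟨w, hw, hw2⟩ := h1
    have : w = r := by simpa using hw2
    rw [← this]; exact hw
  -- choose `δ'`
  set q : ℝ := (x₀.den : ℝ) with hq
  have hq0 : 0 < q := den_pos x₀
  obtain ⟨δ', hδ'0, hδ'δ, hδ'⟩ : ∃ δ' > 0, δ' ≤ δ ∧
      (A * q / (2 * Real.pi) + 1) * (Real.sqrt (A * δ') + δ') < δ := by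
    have hcont : ContinuousAt (fun t : ℝ => (A * q / (2 * Real.pi) + 1) * (Real.sqrt (A * t) + t))
        0 := by fun_prop
    have h0 : (A * q / (2 * Real.pi) + 1) * (Real.sqrt (A * 0) + 0) < δ := by simpa using hδ
    have hev := hcont.eventually (gt_mem_nhds h0)
    obtain ⟨ε, hε, hball⟩ := Metric.eventually_nhds_iff.1 hev
    refine ⟨min δ (ε / 2), lt_min hδ (by positivity), min_le_left _ _, ?_⟩
    apply hball
    rw [Real.dist_eq, sub_zero, abs_of_pos (lt_min hδ (by positivity))]
    exact (min_le_right _ _).trans_lt (by linarith)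
  -- a point of `Q` close to `r`
  have hnb : c '' ball (axisPt x₀) δ' ∈ 𝓝 r := h.opn _ hcenR _ (ball_mem_nhds _ hδ'0)
  obtain ⟨w, ⟨L, hL, rfl⟩, hwQ⟩ := mem_closure_iff_nhds.1 hrQ _ hnb
  have hLδ : L ∈ ball (axisPt x₀) δ := ball_subset_ball hδ'δ hL
  have hwM : c L ∈ M \ {r} := connectedComponentIn_subset _ _ hwQ
  have hLne : L ≠ axisPt x₀ := fun h0 => hwM.2 (by rw [h0]; rfl)
  rcases lt_trichotomy L.re 0 with hre | hre | hre
  · exact hfin W hWconn hWsub le_rfl ⟨c L, hwQ, L, ⟨hLδ, hre⟩, rfl⟩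
  · obtain ⟨h1, h2⟩ := hbd L hLδ hre hLne
    exact hfin _ h1 h2 (subset_insert _ _) ⟨c L, hwQ, Or.inl rfl⟩
  · obtain ⟨x, hx⟩ := h.T_ex L (hsubR hLδ) hre hwM.1
    by_cases hxx : x = x₀
    · -- then `Q` meets `K₀`, contradiction
      exfalso
      rw [hxx] at hx
      have hLK : c L ∈ K₀ := hKT L (ball_subset_ball hδδ₁ hLδ) hx
      have hQpre : IsPreconnected Q := isPreconnected_connectedComponentIn
      set O : Set ℂ := interior {w | w ∈ M → w ∈ K₀} with hO
      have hsub : Q ⊆ O ∪ (closure K₀)ᶜ := by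
        intro v hv
        have hv2 := connectedComponentIn_subset _ _ hv
        by_cases hvK : v ∈ K₀
        · exact Or.inl (mem_interior_iff_mem_nhds.2 (hKo v hvK))
        · refine Or.inr fun hvc => ?_
          rcases hKc v hv2.1 hvc with h3 | h3
          · exact hvK h3
          · exact hv2.2 h3
      obtain ⟨v, hvQ, hv1, hv2⟩ := hQpre O (closure K₀)ᶜ isOpen_interior
        isClosed_closure.isOpen_compl hsub
        ⟨c L, hwQ, mem_interior_iff_mem_nhds.2 (hKo _ hLK)⟩
        ⟨z, hzQ, fun hzc => by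
          rcases hKc z hzM hzc with h3 | h3
          · exact hzK h3
          · exact hzr h3⟩
      have hv3 := connectedComponentIn_subset _ _ hvQ
      exact hv2 (subset_closure (interior_subset hv1 hv3.1))
    · -- the limb piece of `x` is close to `r` and avoids `r`
      have hLre : L.re ≤ δ' := by
        have h1 := Complex.re_le_norm (L - axisPt x₀)
        rw [Complex.sub_re, axisPt_re, sub_zero] at h1
        have h2 : ‖L - axisPt x₀‖ < δ' := by rwa [mem_ball, dist_eq_norm] at hL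
        linarith
      have hxden := den_pos x
      have hxden1 : (1 : ℝ) ≤ x.den := by exact_mod_cast x.pos
      have hply : ‖L - axisPt x‖ ≤ Real.sqrt (A * δ') := by
        apply Real.le_sqrt_of_sq_le
        have h1 := h.ply L x hx
        have h2 : A / x.den ≤ A := div_le_self h.A_pos.le hxden1
        calc ‖L - axisPt x‖ ^ 2 ≤ A / x.den * L.re := h1
          _ ≤ A * δ' := mul_le_mul h2 hLre hre.le h.A_pos.le
      have hdist : 2 * Real.pi * |(x : ℝ) - x₀| ≤ Real.sqrt (A * δ') + δ' := by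
        rw [← axisPt_sub]
        have h1 : axisPt x - axisPt x₀ = -(L - axisPt x) + (L - axisPt x₀) := by ring
        rw [h1]
        have h2 : ‖L - axisPt x₀‖ < δ' := by rwa [mem_ball, dist_eq_norm] at hL
        calc ‖-(L - axisPt x) + (L - axisPt x₀)‖ ≤ ‖-(L - axisPt x)‖ + ‖L - axisPt x₀‖ :=
              norm_add_le _ _
          _ ≤ _ := by rw [norm_neg]; linarith
      have hAd : A / x.den ≤ A * q / (2 * Real.pi) * (Real.sqrt (A * δ') + δ') := by
        have h1 := rat_apart hxx
        have h2 : 1 / (x.den : ℝ) ≤ q * |(x : ℝ) - x₀| := by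
          have h3 : 1 / ((x.den : ℝ) * x₀.den) * x₀.den ≤ |(x : ℝ) - x₀| * x₀.den :=
            mul_le_mul_of_nonneg_right h1 hq0.le
          have h4 : 1 / ((x.den : ℝ) * x₀.den) * x₀.den = 1 / (x.den : ℝ) := by
            field_simp
          rw [h4] at h3
          calc 1 / (x.den : ℝ) ≤ |(x : ℝ) - x₀| * x₀.den := h3
            _ = q * |(x : ℝ) - x₀| := by rw [hq]; ring
        have h5 : |(x : ℝ) - x₀| ≤ (Real.sqrt (A * δ') + δ') / (2 * Real.pi) := by
          rw [le_div_iff₀ (by positivity)]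
          linarith
        calc A / x.den = A * (1 / x.den) := by ring
          _ ≤ A * (q * |(x : ℝ) - x₀|) := mul_le_mul_of_nonneg_left h2 h.A_pos.le
          _ ≤ A * (q * ((Real.sqrt (A * δ') + δ') / (2 * Real.pi))) := by
              have := h.A_pos.le
              gcongr
          _ = _ := by ring
      have hadm : Adm x₀ δ A x := by
        unfold Adm
        have : (A * q / (2 * Real.pi) + 1) * (Real.sqrt (A * δ') + δ') =
          A * q / (2 * Real.pi) * (Real.sqrt (A * δ') + δ') + (Real.sqrt (A * δ') + δ') := by ring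
        linarith
      have hadmR : Adm x₀ R A x := lt_of_lt_of_le hadm hδR
      have hPδ : P T x ⊆ ball (axisPt x₀) δ := h.P_sub_ball hadm
      have hrK : r ∉ K c T x := by
        rw [K_eq]
        rintro ⟨L', hL', h0⟩
        have h1 : L' = axisPt x₀ := hinj (hPδ hL') hcen h0
        rcases hL' with h2 | h2
        · have h3 : ‖axisPt x - axisPt x₀‖ = 0 := by rw [← h2, h1, sub_self, norm_zero]
          rw [axisPt_sub] at h3
          have h4 : |(x : ℝ) - x₀| = 0 := by
            rcases mul_eq_zero.1 h3 with h5 | h5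
            · exact absurd h5 (by positivity)
            · exact h5
          have h5 : (x : ℝ) = x₀ := by linarith [abs_eq_zero.1 h4]
          exact hxx (by exact_mod_cast h5)
        · have h3 := (h.T_dom L' x h2).1
          rw [h1, axisPt_re] at h3
          exact lt_irrefl _ h3
      have hKpre := h.K_conn hM.isClosed hMc hadmR
      have hxx' : axisPt x ≠ axisPt x₀ := by
        intro h0
        have h3 : ‖axisPt x - axisPt x₀‖ = 0 := by rw [h0, sub_self, norm_zero]
        rw [axisPt_sub] at h3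
        have h4 : |(x : ℝ) - x₀| = 0 := by
          rcases mul_eq_zero.1 h3 with h5 | h5
          · exact absurd h5 (by positivity)
          · exact h5
        have h5 : (x : ℝ) = x₀ := by linarith [abs_eq_zero.1 h4]
        exact hxx (by exact_mod_cast h5)
      obtain ⟨h1, h2⟩ := hbd (axisPt x) (hPδ (Or.inl rfl)) (axisPt_re x) hxx'
      refine hfin (K c T x ∪ insert (c (axisPt x)) W) ?_ ?_ ?_ ?_
      · exact IsPreconnected.union (c (axisPt x)) (Or.inl rfl) (Or.inl rfl) hKpre h1
      · refine union_subset (fun v hv => ⟨h.K_sub hadmR hv, fun h0 => hrK ?_⟩) h2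
        rw [mem_singleton_iff] at h0
        rw [← h0]; exact hv
      · exact (subset_insert _ _).trans subset_union_right
      · exact ⟨c L, hwQ, Or.inl (Or.inr ⟨L, hx, rfl⟩)⟩

end LimbData

namespace Cnt

open Complex Pool.Agent.Work.MLC.Sat

variable {D : Dat}

lemma rt_mem_MM (hP : D.Par) : rt D ∈ MM := by
  by_contra h
  have h1 := Sat.re_pos_of_ext hP (a_mem_B hP) h
  rw [Sat.a_re] at h1
  exact lt_irrefl _ h1

/-- the root pair is a limit of pairs with the label of the parent -/
lemma root_mem_closure (hP : D.Par) (hC : D.Cir) : (rt D, D.b D.a) ∈ closure (NJ D.m (JP D)) := by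
  have haB := a_mem_B hP
  have t1 : Tendsto (fun s : ℝ => D.a + (s : ℂ)) (𝓝[>] 0) (𝓝 D.a) := by
    have h6 : Continuous fun s : ℝ => D.a + (s : ℂ) := by fun_prop
    have h7 := h6.tendsto 0
    simp only [ofReal_zero, add_zero] at h7
    exact h7.mono_left nhdsWithin_le_nhds
  refine mem_closure_of_tendsto ((σ_contAt hP haB).tendsto.comp t1) ?_
  filter_upwards [t1.eventually (isOpen_B.mem_nhds haB), self_mem_nhdsWithin] with s h2 h3
  have hs : (0 : ℝ) < s := h3
  refine σ_mem_NJ hP hC h2 ?_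
  rw [add_re, Sat.a_re, ofReal_re, zero_add]; exact hs

lemma mul_root (hP : D.Par) : mul D.m (rt D, D.b D.a) = exp (axisPt D.x) :=
  (hP.sec D.a (a_mem_B hP)).2

lemma norm_mul_root (hP : D.Par) : ‖mul D.m (rt D, D.b D.a)‖ = 1 := by
  rw [mul_root hP, Complex.norm_exp]
  simp [axisPt]

lemma rt_notMem (hP : D.Par) (hC : D.Cir) : rt D ∉ Lm D := by
  rintro ⟨hM, b, hb, -⟩
  have hm := hP.m_pos
  have h1 := root_mem_closure hP hC
  have h2 := norm_mul_root hP
  have h3 : mul D.m (rt D, D.b D.a) ≠ 1 := by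
    rw [mul_root hP]; exact exp_axisPt_ne_one hP.x_pos hP.x_lt
  have h4 := closure_unique hm hM (ext_of_neutral hm (closure_per h1).1 h2) h1 (subset_closure hb)
    h3 (by
      intro h0
      have := hb.2.1
      rw [h0] at this
      simp at this)
  have h5 := hb.2.1
  rw [← h4, h2] at h5
  exact lt_irrefl _ h5

/-- the multipliers over the centre `0` -/
lemma mult_zero60 {n : ℕ} {b : ℂ} (hb : it 0 n b = b) (hb0 : b ≠ 0) : mul n (0, b) = 2 ^ n := by
  have hit : ∀ k, it 0 k b = b ^ 2 ^ k := by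
    intro k
    induction k with
    | zero => simp [it]
    | succ k ih =>
      rw [it_succ, ih, f_apply, add_zero, ← pow_mul, pow_succ]
  have hmul : ∀ k, mult k 0 b * b = 2 ^ k * b ^ 2 ^ k := by
    intro k
    induction k with
    | zero => simp [mult]
    | succ k ih =>
      have : mult (k + 1) 0 b = mult k 0 b * (2 * it 0 k b) := by
        simp [mult, Finset.prod_range_succ]
      rw [this, hit]
      calc mult k 0 b * (2 * b ^ 2 ^ k) * b = (mult k 0 b * b) * (2 * b ^ 2 ^ k) := by ring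
        _ = 2 ^ (k + 1) * b ^ 2 ^ (k + 1) := by rw [ih, pow_succ 2 k, pow_succ 2 k]; ring
  have h1 := hmul n
  have h2 : b ^ 2 ^ n = b := by rw [← hit, hb]
  rw [h2] at h1
  exact mul_right_cancel₀ hb0 h1

lemma zero_ne_rt (hP : D.Par) : (0 : ℂ) ≠ rt D := by
  intro h
  have hm := hP.m_pos
  have h1 := norm_mul_root hP
  have h2 : it (rt D) D.m (D.b D.a) = D.b D.a := (hP.sec D.a (a_mem_B hP)).1
  rw [← h] at h1 h2
  by_cases hb : D.b D.a = 0
  · rw [hb] at h1
    have h3 : mul D.m (0, 0) = 0 := by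
      unfold mul
      exact Finset.prod_eq_zero (Finset.mem_range.2 hm) (by simp)
    rw [h3] at h1
    simp at h1
  · rw [mult_zero60 h2 hb, norm_pow] at h1
    have h3 : (2 : ℝ) ≤ 2 ^ D.m := by
      calc (2 : ℝ) = 2 ^ 1 := (pow_one _).symm
        _ ≤ 2 ^ D.m := pow_le_pow_right₀ (by norm_num) hm
    simp at h1
    linarith

lemma zero_notMem (hP : D.Par) (hC : D.Cir) : (0 : ℂ) ∉ Lm D := by
  rintro ⟨hM, b, hb, hl⟩
  have hm := hP.m_pos
  have hM0 : G 0 0 = 0 := G_zero_of_mem hM
  have hm1 : (1 : ℝ) ≤ D.m := by exact_mod_cast hm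
  have hρ : 1 < ‖mult D.m 0 b‖ := hb.2.1
  have hfix : it 0 D.m b = b := hb.1
  have hb0 : b ≠ 0 := by
    rintro rfl
    have h3 : mul D.m (0, 0) = 0 := by
      unfold mul
      exact Finset.prod_eq_zero (Finset.mem_range.2 hm) (by simp)
    have h4 := hb.2.1
    rw [h3] at h4
    simp at h4
    linarith
  have hlog0 : 0 < Real.log 2 := Real.log_pos (by norm_num)
  have h1 : mul D.m (0, b) = exp (((D.m * Real.log 2 : ℝ) : ℂ)) := by
    rw [mult_zero60 hfix hb0, ← Complex.ofReal_exp, Real.exp_nat_mul, Real.exp_log (by norm_num)]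
    push_cast; rfl
  have h2 := two_le_den hP.x_pos hP.x_lt
  have hE := ex_of_land hP hC hM0 hl 0
  rw [it_zero] at hE
  obtain ⟨p, h3, h4⟩ := hE.ply hm h2 hM hb.1 h1 (by rw [ofReal_re]; positivity)
  obtain ⟨β, hβ⟩ := H24.land_of_rotT hm h3
  have h5 := (hE.all hm h2 hM0 hfix hρ hβ).1
  set y : ℚ := (p : ℚ) / (D.x.den : ℚ) with hy
  have hq : (2 : ℝ) ≤ D.x.den := by exact_mod_cast h2
  -- the imaginary part of the axis point vanishes
  have h6 : (2 * Real.pi * (y : ℝ)) ^ 2 ≤ 0 := by
    have h7 : ((D.m * Real.log 2 : ℝ) : ℂ) - axisPt y =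
        ((D.m * Real.log 2 : ℝ) : ℂ) + ((-(2 * Real.pi * (y : ℝ)) : ℝ) : ℂ) * I := by
      unfold axisPt; push_cast; ring
    rw [h7, ← Complex.normSq_eq_norm_sq, Complex.normSq_add_mul_I, ofReal_re] at h4
    have h8 : 2 * (D.m : ℝ) * Real.log 2 / D.x.den * (D.m * Real.log 2) ≤
        (D.m * Real.log 2) ^ 2 := by
      have h9 : 2 * (D.m : ℝ) * Real.log 2 / D.x.den ≤ D.m * Real.log 2 := by
        rw [div_le_iff₀ (by linarith)]
        have h10 : 0 < (D.m : ℝ) * Real.log 2 := by positivity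
        nlinarith
      have h10 : 0 < (D.m : ℝ) * Real.log 2 := by positivity
      calc 2 * (D.m : ℝ) * Real.log 2 / D.x.den * (D.m * Real.log 2)
          ≤ D.m * Real.log 2 * (D.m * Real.log 2) := mul_le_mul_of_nonneg_right h9 h10.le
        _ = _ := by ring
    nlinarith
  have h7 : (y : ℝ) = 0 := by
    have h8 : (2 * Real.pi * (y : ℝ)) = 0 := by
      have := sq_nonneg (2 * Real.pi * (y : ℝ))
      exact pow_eq_zero_iff two_ne_zero |>.1 (le_antisymm h6 this)
    rcases mul_eq_zero.1 h8 with h9 | h9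
    · exact absurd h9 (by positivity)
    · exact h9
  have h8 : y = 0 := by exact_mod_cast h7
  rw [h8] at h5
  have h9 : (0 : ℚ).den = 1 := rfl
  omega

/-- limb data of the parent -/
lemma limbData_par (hP : D.Par) : LimbData MM D.x (gR D.m D.x) (2 * D.m * Real.log 2)
    (fun L => (D.σ L).1) (fun L x => L ∈ ball (axisPt D.x) (gR D.m D.x) ∧
      Tr.RotT D.m (D.σ L).1 (D.σ L).2 L x) := by
  have hm0 : (0 : ℝ) < D.m := by exact_mod_cast hP.m_pos
  have hlog0 : 0 < Real.log 2 := Real.log_pos (by norm_num)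
  exact limbData_of_section ((sR_pos hP).trans_le (sR_le_gR hP)) (by positivity)
    (goodDom34 hP.m_pos hP.x_pos hP.x_lt) hP.cont hP.sec (Tr.rotData hP.m_pos)
    fun x hx hM => rep13 hP.m_pos hx hM

theorem n6_sep : N6_sep := by
  intro D hP hC
  have hm := hP.m_pos
  have hrM := rt_mem_MM hP
  have hcl : ∀ z ∈ MM, z ∈ closure (Lm D) → z ∈ Lm D ∨ z = rt D := fun z hz h =>
    n5_closed D hP hC z hz (closure_mono subset_union_left h)
  have hop : ∀ z ∈ Lm D, ∀ᶠ w in 𝓝 z, w ∈ MM → w ∈ Lm D := fun z hz =>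
    (n5_open D hP hC z hz).mono fun w hw => hw.1
  have h0 : (0 : ℂ) ∈ MM \ {rt D} := ⟨zero_mem_MM, zero_ne_rt hP⟩
  obtain ⟨δ, hδ, -, hδ'⟩ := (limbData_par hP).main_gen isCompact_MM isPreconnected_MM hop hcl
    (sR_pos hP) (by
      rintro L hL ⟨-, hT⟩
      have hLU : L ∈ D.U := by
        refine ⟨hL, ?_⟩
        rintro rfl
        have := hT.1
        rw [Sat.a_re] at this
        exact lt_irrefl _ this
      obtain ⟨-, hre, ⟨θ, hθ, -⟩ | ⟨h1, h2⟩⟩ := H24.mem_RI_of_rotT s5_land hP hC
        (regions_all D hP hC) hLU hT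
      · exact absurd hT.2.1 (Th_ext hθ)
      · exact ⟨h1, D.b L, σ_mem_NJ hP hC (U_sub_B hP hLU) hre, h2⟩)
  ext z
  constructor
  · rintro ⟨hz, hzr, hzc⟩
    by_contra hzL
    apply hzc
    have h1 := hδ' z hz hzL hzr
    have h2 := hδ' 0 zero_mem_MM (zero_notMem hP hC) (zero_ne_rt hP)
    obtain ⟨L, hL⟩ := LimbData.left_nonempty D.x hδ
    have h3 := connectedComponentIn_eq (h1 ⟨L, hL, rfl⟩)
    have h4 := connectedComponentIn_eq (h2 ⟨L, hL, rfl⟩)
    show z ∈ connectedComponentIn (MM \ {rt D}) 0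
    have h5 : z ∈ connectedComponentIn (MM \ {rt D}) z := mem_connectedComponentIn ⟨hz, hzr⟩
    have h6 : connectedComponentIn (MM \ {rt D}) z = connectedComponentIn (MM \ {rt D}) 0 :=
      h3.trans h4.symm
    rwa [h6] at h5
  · intro hz
    refine ⟨hz.1, fun h1 => rt_notMem hP hC (h1 ▸ hz), fun hzc => ?_⟩
    set Q := connectedComponentIn (MM \ {rt D}) 0 with hQ
    have hQpre : IsPreconnected Q := isPreconnected_connectedComponentIn
    set O : Set ℂ := interior {w | w ∈ MM → w ∈ Lm D} with hO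
    have hsub : Q ⊆ O ∪ (closure (Lm D))ᶜ := by
      intro v hv
      have hv2 := connectedComponentIn_subset _ _ hv
      by_cases hvK : v ∈ Lm D
      · exact Or.inl (mem_interior_iff_mem_nhds.2 (hop v hvK))
      · refine Or.inr fun hvc => ?_
        rcases hcl v hv2.1 hvc with h3 | h3
        · exact hvK h3
        · exact hv2.2 h3
    obtain ⟨v, hvQ, hv1, hv2⟩ := hQpre O (closure (Lm D))ᶜ isOpen_interior
      isClosed_closure.isOpen_compl hsub
      ⟨z, hzc, mem_interior_iff_mem_nhds.2 (hop _ hz)⟩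
      ⟨0, mem_connectedComponentIn h0, fun hzc => by
        rcases hcl 0 zero_mem_MM hzc with h3 | h3
        · exact zero_notMem hP hC h3
        · exact zero_ne_rt hP h3⟩
    have hv3 := connectedComponentIn_subset _ _ hvQ
    exact hv2 (subset_closure (interior_subset hv1 hv3.1))

end Cnt

end Pool.Agent.Work.MLC
end

section
set_option autoImplicit false

/-! # Theorem E, modules E2 and E3 (helper60)

The limb with its root is compact and connected; the angles whose impression contains a point of the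
limb are in the plateau. -/

namespace Pool.Agent.Work.MLC.Cnt

open Filter Topology Metric Set Complex
open Pool.Agent.Work.MLC.Sat

variable {D : Dat}

/-- **E3**: the angles of the impressions which contain a point of the limb -/
theorem imp_mem (hP : D.Par) (hC : D.Cir) {c₀ : ℂ} (h : c₀ ∈ Lm D) {θ : ℝ}
    (hθ : (c₀, θ) ∈ closure {p : ℂ × ℝ | Ang p.1 p.2}) :
    ∃ k : ℤ, D.tm ≤ θ + k ∧ θ + k ≤ D.tp := by
  have h1 : ∀ᶠ p : ℂ × ℝ in 𝓝 (c₀, θ), Ang p.1 p.2 → ∃ k : ℤ, D.tm < p.2 + k ∧ p.2 + k < D.tp := by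
    have h2 := (continuous_fst.tendsto (c₀, θ)).eventually (n5_open D hP hC c₀ h)
    filter_upwards [h2] with p hp hA
    exact hp.2 _ hA
  have h2 : ∀ᶠ p : ℂ × ℝ in 𝓝 (c₀, θ), |p.2 - θ| < 1 := by
    have h3 : Tendsto (fun p : ℂ × ℝ => |p.2 - θ|) (𝓝 (c₀, θ)) (𝓝 |θ - θ|) :=
      Continuous.tendsto (by fun_prop) (c₀, θ)
    rw [sub_self, abs_zero] at h3
    exact h3.eventually (gt_mem_nhds one_pos)
  -- finitely many shifts
  set F : Set ℤ := {k : ℤ | D.tm - θ - 1 < k ∧ (k : ℝ) < D.tp - θ + 1} with hF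
  have hFfin : F.Finite := by
    refine (Set.finite_Icc (⌊D.tm - θ - 1⌋) (⌈D.tp - θ + 1⌉)).subset ?_
    rintro k ⟨h3, h4⟩
    exact ⟨Int.floor_le_iff.2 (by linarith), Int.le_ceil_iff.2 (by linarith)⟩
  by_contra hcon
  push Not at hcon
  have h3 : ∀ᶠ p : ℂ × ℝ in 𝓝 (c₀, θ), ∀ k ∈ F, ¬ (D.tm < p.2 + k ∧ p.2 + k < D.tp) := by
    rw [Filter.eventually_all_finite hFfin]
    intro k _
    have h4 : Tendsto (fun p : ℂ × ℝ => p.2 + k) (𝓝 (c₀, θ)) (𝓝 (θ + k)) :=
      Continuous.tendsto (by fun_prop) (c₀, θ)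
    rcases lt_or_ge (θ + k) D.tm with h5 | h5
    · filter_upwards [h4.eventually (gt_mem_nhds h5)] with p hp h6
      linarith [h6.1]
    · filter_upwards [h4.eventually (lt_mem_nhds (hcon k h5))] with p hp h6
      linarith [h6.2]
  obtain ⟨p, hp, h4, h5, h6⟩ := ((mem_closure_iff_frequently.1 hθ).and_eventually
    (h1.and (h2.and h3))).exists
  obtain ⟨k, h7, h8⟩ := h4 hp
  have h9 := abs_lt.1 h5
  exact h6 k ⟨by linarith [h9.2], by linarith [h9.1]⟩ ⟨h7, h8⟩

/-- the limb is relatively open -/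
theorem lm_open (hP : D.Par) (hC : D.Cir) {c : ℂ} (hc : c ∈ Lm D) :
    ∀ᶠ w in 𝓝 c, w ∈ MM → w ∈ Lm D :=
  (n5_open D hP hC c hc).mono fun _ hw => hw.1

lemma lm_subset : Lm D ⊆ MM := fun _ h => h.1

/-- the limb is closed up to the root -/
theorem lm_closure (hP : D.Par) (hC : D.Cir) : closure (Lm D) ⊆ insert (rt D) (Lm D) := by
  intro z hz
  have hzM : z ∈ MM := closure_minimal lm_subset isClosed_MM hz
  rcases n5_closed D hP hC z hzM (closure_mono subset_union_left hz) with h | h
  · exact Or.inr h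
  · exact Or.inl h

lemma isClosed_limb (hP : D.Par) (hC : D.Cir) : IsClosed (insert (rt D) (Lm D)) := by
  refine isClosed_of_closure_subset ?_
  rw [insert_eq, closure_union, closure_singleton, ← insert_eq]
  exact insert_subset (Or.inl rfl) (lm_closure hP hC)

/-- **E2**: the limb is compact -/
theorem isCompact_limb (hP : D.Par) (hC : D.Cir) : IsCompact (insert (rt D) (Lm D)) :=
  isCompact_MM.of_isClosed_subset (isClosed_limb hP hC)
    (insert_subset (rt_mem_MM hP) lm_subset)

/-- a clopen piece of the limb which misses the root is empty -/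
lemma limb_piece (hP : D.Par) (hC : D.Cir) {t t' : Set ℂ} (ht : IsClosed t) (ht' : IsClosed t')
    (hsub : insert (rt D) (Lm D) ⊆ t ∪ t') (hr : rt D ∈ t)
    (hne : (insert (rt D) (Lm D) ∩ t').Nonempty) :
    (insert (rt D) (Lm D) ∩ (t ∩ t')).Nonempty := by
  by_contra hcon
  rw [not_nonempty_iff_eq_empty] at hcon
  set K := insert (rt D) (Lm D) with hK
  have hKc : IsClosed K := isClosed_limb hP hC
  have hBt : ∀ z ∈ K ∩ t', z ∉ t := fun z hz hzt => by
    have : z ∈ K ∩ (t ∩ t') := ⟨hz.1, hzt, hz.2⟩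
    rw [hcon] at this; exact this
  have hMB : IsClosed (MM \ (K ∩ t')) := by
    refine isClosed_of_closure_subset fun z hz => ?_
    have hzM : z ∈ MM := closure_minimal sdiff_subset isClosed_MM hz
    refine ⟨hzM, fun hzB => ?_⟩
    have hzL : z ∈ Lm D := by
      rcases hzB.1 with h0 | h0
      · exact absurd hr (h0 ▸ hBt z hzB)
      · exact h0
    obtain ⟨w, hw, hw1, hw2⟩ := ((mem_closure_iff_frequently.1 hz).and_eventually
      ((lm_open hP hC hzL).and (ht.isOpen_compl.mem_nhds (hBt z hzB)))).exists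
    have hwL := hw1 hw.1
    refine hw.2 ⟨Or.inr hwL, ?_⟩
    rcases hsub (Or.inr hwL) with h0 | h0
    · exact absurd h0 hw2
    · exact h0
  obtain ⟨w, hw⟩ := hne
  obtain ⟨v, -, hv, hv2⟩ := isPreconnected_closed_iff.1 isPreconnected_MM _ _ (hKc.inter ht') hMB
    (fun z hz => by
      by_cases hzB : z ∈ K ∩ t'
      · exact Or.inl hzB
      · exact Or.inr ⟨hz, hzB⟩)
    ⟨w, insert_subset (rt_mem_MM hP) lm_subset hw.1, hw⟩
    ⟨rt D, rt_mem_MM hP, rt_mem_MM hP, fun h0 => hBt _ h0 hr⟩
  exact hv2.2 hv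

/-- **E2**: the limb is connected -/
theorem isPreconnected_limb (hP : D.Par) (hC : D.Cir) :
    IsPreconnected (insert (rt D) (Lm D)) := by
  rw [isPreconnected_closed_iff]
  intro t t' ht ht' hsub hne hne'
  rcases hsub (Or.inl rfl) with h0 | h0
  · exact limb_piece hP hC ht ht' hsub h0 hne'
  · have := limb_piece hP hC ht' ht (by rwa [union_comm]) h0 hne
    rwa [inter_comm t' t] at this

end Pool.Agent.Work.MLC.Cnt
end

section
set_option autoImplicit false

/-! # Theorem F, module G7, part 1: nested limbs (helper60)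

Purely topological facts about the limbs, from `n5_open`, `n5_closed`. -/

namespace Pool.Agent.Work.MLC.Cnt

open Filter Topology Metric Set Complex
open Pool.Agent.Work.MLC.Sat

/-- removing a relatively open set which is closed up to one point of the rest keeps a continuum
connected -/
lemma conn_diff {K S : Set ℂ} {r : ℂ} (hKc : IsClosed K) (hK : IsPreconnected K)
    (hS : ∀ z ∈ S, ∀ᶠ w in 𝓝 z, w ∈ K → w ∈ S) (hSc : closure S ⊆ insert r S) (hr : r ∈ K)
    (hrS : r ∉ S) : IsPreconnected (K \ S) := by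
  have hcl : IsClosed (K \ S) := by
    refine isClosed_of_closure_subset fun z hz => ?_
    have hzK : z ∈ K := closure_minimal sdiff_subset hKc hz
    refine ⟨hzK, fun hzS => ?_⟩
    obtain ⟨w, hw, hw2⟩ := ((mem_closure_iff_frequently.1 hz).and_eventually (hS z hzS)).exists
    exact hw.2 (hw2 hw.1)
  have key : ∀ t t' : Set ℂ, IsClosed t → IsClosed t' → K \ S ⊆ t ∪ t' → r ∈ t →
      (K \ S ∩ t').Nonempty → (K \ S ∩ (t ∩ t')).Nonempty := by
    intro t t' ht ht' hsub hrt ⟨y, hy⟩
    by_contra hcon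
    rw [not_nonempty_iff_eq_empty] at hcon
    have hno : ∀ z ∈ K \ S, z ∈ t → z ∉ t' := fun z hz h1 h2 => by
      have : z ∈ K \ S ∩ (t ∩ t') := ⟨hz, h1, h2⟩
      rw [hcon] at this; exact this
    obtain ⟨v, -, hv1, hv2⟩ := isPreconnected_closed_iff.1 hK (K \ S ∩ t')
      (K \ S ∩ t ∪ closure S ∩ K) (hcl.inter ht') ((hcl.inter ht).union
        (isClosed_closure.inter hKc))
      (fun z hz => by
        by_cases hzS : z ∈ S
        · exact Or.inr (Or.inr ⟨subset_closure hzS, hz⟩)
        · rcases hsub ⟨hz, hzS⟩ with h | h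
          · exact Or.inr (Or.inl ⟨⟨hz, hzS⟩, h⟩)
          · exact Or.inl ⟨⟨hz, hzS⟩, h⟩)
      ⟨y, hy.1.1, hy⟩ ⟨r, hr, Or.inl ⟨⟨hr, hrS⟩, hrt⟩⟩
    rcases hv2 with h | h
    · exact hno v hv1.1 h.2 hv1.2
    · rcases hSc h.1 with h' | h'
      · exact hno v hv1.1 (h' ▸ hrt) hv1.2
      · exact hv1.1.2 h'
  rw [isPreconnected_closed_iff]
  intro t t' ht ht' hsub hne hne'
  rcases hsub ⟨hr, hrS⟩ with h0 | h0
  · exact key t t' ht ht' hsub h0 hne'
  · have := key t' t ht' ht (by rwa [union_comm]) h0 hne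
    rwa [inter_comm t' t] at this

section

variable {D D' : Dat}

/-- a connected subset of `MM` which misses the root and meets the limb is in the limb -/
lemma sub_lm_of_conn (hP : D.Par) (hC : D.Cir) {C : Set ℂ} (hCM : C ⊆ MM) (hCc : IsPreconnected C)
    (hr : rt D ∉ C) (hne : (C ∩ Lm D).Nonempty) : C ⊆ Lm D := by
  intro z hz
  by_contra hzL
  set O : Set ℂ := interior {w | w ∈ MM → w ∈ Lm D} with hO
  obtain ⟨y, hyC, hyL⟩ := hne
  obtain ⟨v, hvC, hv1, hv2⟩ := hCc O (closure (Lm D))ᶜ isOpen_interior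
    isClosed_closure.isOpen_compl
    (fun v hv => by
      by_cases hvL : v ∈ Lm D
      · exact Or.inl (mem_interior_iff_mem_nhds.2 (lm_open hP hC hvL))
      · refine Or.inr fun hvc => ?_
        rcases lm_closure hP hC hvc with h | h
        · exact hr (h ▸ hv)
        · exact hvL h)
    ⟨y, hyC, mem_interior_iff_mem_nhds.2 (lm_open hP hC hyL)⟩
    ⟨z, hz, fun hzc => by
      rcases lm_closure hP hC hzc with h | h
      · exact hr (h ▸ hz)
      · exact hzL h⟩
  exact hv2 (subset_closure (interior_subset hv1 (hCM hvC)))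

/-- the complement of the limb is connected -/
lemma isPreconnected_compl_lm (hP : D.Par) (hC : D.Cir) : IsPreconnected (MM \ Lm D) :=
  conn_diff isClosed_MM isPreconnected_MM (fun _ hz => lm_open hP hC hz) (lm_closure hP hC)
    (rt_mem_MM hP) (rt_notMem hP hC)

/-- two roots do not separate each other from `0` -/
lemma not_both (hP : D.Par) (hC : D.Cir) (hP' : D'.Par) (hC' : D'.Cir) (h : rt D' ∈ Lm D) :
    rt D ∉ Lm D' := by
  intro h'
  have h1 := sub_lm_of_conn hP hC (C := MM \ Lm D') sdiff_subset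
    (isPreconnected_compl_lm hP' hC') (fun h0 => h0.2 h')
    ⟨rt D', ⟨rt_mem_MM hP', rt_notMem hP' hC'⟩, h⟩
  exact zero_notMem hP hC (h1 ⟨zero_mem_MM, zero_notMem hP' hC'⟩)

/-- nested limbs -/
lemma limb_sub (hP : D.Par) (hC : D.Cir) (hP' : D'.Par) (hC' : D'.Cir) (h : rt D' ∈ Lm D) :
    insert (rt D') (Lm D') ⊆ Lm D := by
  refine sub_lm_of_conn hP hC (insert_subset (rt_mem_MM hP') lm_subset)
    (isPreconnected_limb hP' hC') ?_ ⟨rt D', Or.inl rfl, h⟩
  rintro (h0 | h0)
  · rw [← h0] at h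
    exact rt_notMem hP hC h
  · exact not_both hP hC hP' hC' h h0

/-- limbs which are not nested are disjoint -/
lemma limb_disjoint (hP : D.Par) (hC : D.Cir) (hP' : D'.Par) (hC' : D'.Cir) (hne : rt D ≠ rt D')
    (h : rt D' ∉ Lm D) (h' : rt D ∉ Lm D') :
    Disjoint (insert (rt D) (Lm D)) (insert (rt D') (Lm D')) := by
  rw [Set.disjoint_left]
  rintro z (h1 | h1) (h2 | h2)
  · exact hne (h1.symm.trans h2)
  · exact h' (h1 ▸ h2)
  · exact h (h2 ▸ h1)
  · have h3 := sub_lm_of_conn hP hC (insert_subset (rt_mem_MM hP') lm_subset)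
      (isPreconnected_limb hP' hC') (by
        rintro (h0 | h0)
        · exact hne h0
        · exact h' h0) ⟨z, Or.inr h2, h1⟩
    exact h (h3 (Or.inl rfl))

end

/-! ### the pieces -/

section

variable {ι : Type} {F : Finset ι} {D : ι → Dat}

/-- a finite family of roots -/
structure Fam60 (F : Finset ι) (D : ι → Dat) : Prop where
  par : ∀ i ∈ F, (D i).Par
  cir : ∀ i ∈ F, (D i).Cir
  inj : ∀ i ∈ F, ∀ j ∈ F, rt (D i) = rt (D j) → i = j

/-- the addresses: chains of nested limbs which contain with a limb all larger limbs -/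
structure IsAdr (F : Finset ι) (D : ι → Dat) (A : Finset ι) : Prop where
  sub : A ⊆ F
  chain : ∀ i ∈ A, ∀ j ∈ A, i ≠ j → rt (D i) ∈ Lm (D j) ∨ rt (D j) ∈ Lm (D i)
  up : ∀ i ∈ A, ∀ j ∈ F, rt (D i) ∈ Lm (D j) → j ∈ A

/-- the piece with the address `A` -/
def Pc (F : Finset ι) (D : ι → Dat) (A : Finset ι) : Set ℂ :=
  {z | z ∈ MM ∧ ∀ i ∈ F, (i ∈ A → z ∈ insert (rt (D i)) (Lm (D i))) ∧
    (i ∉ A → z ∉ Lm (D i))}

lemma isClosed_Pc (h : Fam60 F D) (A : Finset ι) : IsClosed (Pc F D A) := by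
  refine isClosed_of_closure_subset fun z hz => ?_
  have hzM : z ∈ MM := closure_minimal (fun w hw => hw.1) isClosed_MM hz
  refine ⟨hzM, fun i hi => ⟨fun hiA => ?_, fun hiA hzL => ?_⟩⟩
  · exact closure_minimal (fun w hw => (hw.2 i hi).1 hiA)
      (isClosed_limb (h.par i hi) (h.cir i hi)) hz
  · obtain ⟨w, hw, hw2⟩ := ((mem_closure_iff_frequently.1 hz).and_eventually
      (lm_open (h.par i hi) (h.cir i hi) hzL)).exists
    exact (hw.2 i hi).2 hiA (hw2 hw.1)

lemma isCompact_Pc (h : Fam60 F D) (A : Finset ι) : IsCompact (Pc F D A) :=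
  isCompact_MM.of_isClosed_subset (isClosed_Pc h A) fun _ hz => hz.1

/-- the piece is open in `MM` off the roots -/
lemma Pc_open (h : Fam60 F D) {A : Finset ι} {z : ℂ} (hz : z ∈ Pc F D A)
    (hr : ∀ i ∈ F, z ≠ rt (D i)) : ∀ᶠ w in 𝓝 z, w ∈ MM → w ∈ Pc F D A := by
  have h1 : ∀ᶠ w in 𝓝 z, ∀ i ∈ F, w ∈ MM → (i ∈ A → w ∈ insert (rt (D i)) (Lm (D i))) ∧
      (i ∉ A → w ∉ Lm (D i)) := by
    rw [Filter.eventually_all_finset]
    intro i hi
    by_cases hiA : i ∈ A
    · have hzL : z ∈ Lm (D i) := by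
        rcases (hz.2 i hi).1 hiA with h0 | h0
        · exact absurd h0 (hr i hi)
        · exact h0
      filter_upwards [lm_open (h.par i hi) (h.cir i hi) hzL] with w hw hwM
      exact ⟨fun _ => Or.inr (hw hwM), fun h0 => absurd hiA h0⟩
    · have hzc : z ∉ closure (Lm (D i)) := by
        intro hzc
        rcases lm_closure (h.par i hi) (h.cir i hi) hzc with h0 | h0
        · exact hr i hi h0
        · exact (hz.2 i hi).2 hiA h0
      filter_upwards [isClosed_closure.isOpen_compl.mem_nhds hzc] with w hw hwM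
      exact ⟨fun h0 => absurd h0 hiA, fun _ h0 => hw (subset_closure h0)⟩
  filter_upwards [h1] with w hw hwM
  exact ⟨hwM, fun i hi => hw i hi hwM⟩

/-- the innermost limb of an address -/
lemma exists_inner (h : Fam60 F D) {A : Finset ι} (hA : IsAdr F D A) (hne : A.Nonempty) :
    ∃ o ∈ A, ∀ i ∈ A, i ≠ o → rt (D o) ∈ Lm (D i) := by
  classical
  -- the number of limbs which contain `rt (D i)`
  obtain ⟨o, ho, hmax⟩ := A.exists_max_image (fun i => (A.filter fun j => rt (D i) ∈ Lm (D j)).card)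
    hne
  refine ⟨o, ho, fun i hi hio => ?_⟩
  rcases hA.chain i hi o ho hio with h1 | h1
  · exfalso
    -- `i` is inside `o`
    have hPi := h.par i (hA.sub hi)
    have hCi := h.cir i (hA.sub hi)
    have hPo := h.par o (hA.sub ho)
    have hCo := h.cir o (hA.sub ho)
    have h2 : (A.filter fun j => rt (D o) ∈ Lm (D j)) ⊂ A.filter fun j => rt (D i) ∈ Lm (D j) := by
      rw [Finset.ssubset_iff_of_subset]
      · refine ⟨o, Finset.mem_filter.2 ⟨ho, h1⟩, fun h3 => ?_⟩
        exact rt_notMem hPo hCo (Finset.mem_filter.1 h3).2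
      · intro j hj
        obtain ⟨hjA, hj⟩ := Finset.mem_filter.1 hj
        refine Finset.mem_filter.2 ⟨hjA, ?_⟩
        exact limb_sub (h.par j (hA.sub hjA)) (h.cir j (hA.sub hjA)) hPo hCo hj (Or.inr h1)
    exact absurd (Finset.card_lt_card h2) (not_lt.2 (hmax i hi))
  · exact h1

/-- the outer part of the piece -/
lemma conn_step (h : Fam60 F D) {K₀ : Set ℂ} (hK₀ : IsClosed K₀) (hK₀c : IsPreconnected K₀)
    (hK₀M : K₀ ⊆ MM) {B : Finset ι} (hB : B ⊆ F)
    (hB0 : ∀ j ∈ B, rt (D j) ∈ K₀ ∨ Disjoint K₀ (Lm (D j))) :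
    IsClosed (K₀ \ ⋃ j ∈ B, Lm (D j)) ∧ IsPreconnected (K₀ \ ⋃ j ∈ B, Lm (D j)) := by
  classical
  induction B using Finset.induction_on with
  | empty => simpa using ⟨hK₀, hK₀c⟩
  | insert j B hj ih =>
    obtain ⟨ih1, ih2⟩ := ih (fun i hi => hB (Finset.mem_insert_of_mem hi))
      (fun i hi => hB0 i (Finset.mem_insert_of_mem hi))
    have hjF := hB (Finset.mem_insert_self j B)
    have hPj := h.par j hjF
    have hCj := h.cir j hjF
    set K := K₀ \ ⋃ j ∈ B, Lm (D j) with hK
    have hKM : K ⊆ MM := sdiff_subset.trans hK₀M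
    have heq : K₀ \ ⋃ i ∈ insert j B, Lm (D i) = K \ Lm (D j) := by
      rw [Finset.set_biUnion_insert, hK, sdiff_sdiff, union_comm]
    rw [heq]
    have hop : ∀ z ∈ Lm (D j), ∀ᶠ w in 𝓝 z, w ∈ K → w ∈ Lm (D j) := fun z hz =>
      (lm_open hPj hCj hz).mono fun w hw hwK => hw (hKM hwK)
    refine ⟨?_, ?_⟩
    · refine isClosed_of_closure_subset fun z hz => ?_
      refine ⟨closure_minimal sdiff_subset ih1 hz, fun hzL => ?_⟩
      obtain ⟨w, hw, hw2⟩ := ((mem_closure_iff_frequently.1 hz).and_eventually (hop z hzL)).exists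
      exact hw.2 (hw2 hw.1)
    · by_cases hr : rt (D j) ∈ K
      · exact conn_diff ih1 ih2 hop (lm_closure hPj hCj) hr (rt_notMem hPj hCj)
      · -- nothing is removed
        have hdis : Disjoint K (Lm (D j)) := by
          rcases hB0 j (Finset.mem_insert_self j B) with h1 | h1
          · have h2 : rt (D j) ∈ ⋃ i ∈ B, Lm (D i) := by
              by_contra h2
              exact hr ⟨h1, h2⟩
            simp only [mem_iUnion, exists_prop] at h2
            obtain ⟨i, hi, h3⟩ := h2
            have hiF := hB (Finset.mem_insert_of_mem hi)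
            have h4 := limb_sub (h.par i hiF) (h.cir i hiF) hPj hCj h3
            rw [Set.disjoint_left]
            intro z hz hzL
            exact hz.2 (mem_biUnion hi (h4 (Or.inr hzL)))
          · exact h1.mono_left sdiff_subset
        rw [hdis.sdiff_eq_left]
        exact ih2

/-- **the pieces are connected** -/
theorem isPreconnected_Pc (h : Fam60 F D) {A : Finset ι} (hA : IsAdr F D A) :
    IsPreconnected (Pc F D A) := by
  classical
  rcases A.eq_empty_or_nonempty with rfl | hne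
  · have h1 := (conn_step h isClosed_MM isPreconnected_MM (le_refl MM) (B := F) (Finset.Subset.refl F)
      fun j hj => Or.inl (rt_mem_MM (h.par j hj))).2
    have h2 : Pc F D ∅ = MM \ ⋃ j ∈ F, Lm (D j) := by
      ext z
      simp [Pc]
    rw [h2]; exact h1
  · obtain ⟨o, ho, hin⟩ := exists_inner h hA hne
    have hoF := hA.sub ho
    have hPo := h.par o hoF
    have hCo := h.cir o hoF
    have h1 := (conn_step h (isClosed_limb hPo hCo) (isPreconnected_limb hPo hCo)
      (insert_subset (rt_mem_MM hPo) lm_subset) (B := F \ A) Finset.sdiff_subset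
      fun j hj => by
        obtain ⟨hjF, hjA⟩ := Finset.mem_sdiff.1 hj
        by_cases h2 : rt (D j) ∈ insert (rt (D o)) (Lm (D o))
        · exact Or.inl h2
        · refine Or.inr ?_
          have h3 : rt (D o) ∉ Lm (D j) := fun h3 => hjA (hA.up o ho j hjF h3)
          have h4 := limb_disjoint hPo hCo (h.par j hjF) (h.cir j hjF)
            (fun h5 => h2 (Or.inl h5.symm)) (fun h5 => h2 (Or.inr h5)) h3
          exact h4.mono_right (subset_insert _ _)).2
    have h2 : Pc F D A = insert (rt (D o)) (Lm (D o)) \ ⋃ j ∈ F \ A, Lm (D j) := by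
      ext z
      constructor
      · rintro ⟨hzM, hz⟩
        refine ⟨(hz o hoF).1 ho, fun hzU => ?_⟩
        simp only [mem_iUnion, exists_prop] at hzU
        obtain ⟨j, hj, hzj⟩ := hzU
        obtain ⟨hjF, hjA⟩ := Finset.mem_sdiff.1 hj
        exact (hz j hjF).2 hjA hzj
      · rintro ⟨hzo, hzU⟩
        have hzM : z ∈ MM := (insert_subset (rt_mem_MM hPo) lm_subset) hzo
        refine ⟨hzM, fun i hi => ⟨fun hiA => ?_, fun hiA hzi => hzU ?_⟩⟩
        · by_cases hio : i = o
          · rw [hio]; exact hzo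
          · have h3 := limb_sub (h.par i hi) (h.cir i hi) hPo hCo (hin i hiA hio)
            exact Or.inr (h3 hzo)
        · exact mem_biUnion (Finset.mem_sdiff.2 ⟨hi, hiA⟩) hzi
    rw [h2]; exact h1

end

end Pool.Agent.Work.MLC.Cnt
end

section
set_option autoImplicit false

/-! # Laminar families of arcs of the circle: gaps and classes (helper24), module G6

`Lam a b`: the arcs `(a i, b i)` mod 1 are nested or disjoint, without common ends (up to equality of
arcs), with finitely many ends mod 1. `IsGap`: the complementary arcs of the set of ends. Two gaps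
are in the same class (`SameCls`) if they are contained in the same arcs `i`. -/

namespace Pool.Agent.Work.MLC.Cnt

open Set

section lam

variable {ι : Type*} {a b : ι → ℝ}

/-- the ends of the arcs, with all translates -/
def ends (a b : ι → ℝ) : Set ℝ := {t | ∃ (i : ι) (k : ℤ), t = a i + k ∨ t = b i + k}

/-- the arcs `i` and `j` are equal mod 1 -/
def EqArc (a b : ι → ℝ) (i j : ι) : Prop := ∃ k : ℤ, a j = a i + k ∧ b j = b i + k

/-- a laminar family of arcs `(a i, b i)` mod 1 -/
structure Lam (a b : ι → ℝ) : Prop where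
  lt : ∀ i, a i < b i
  lt_one : ∀ i, b i < a i + 1
  lam : ∀ i j, EqArc a b i j ∨ ∀ k : ℤ, (a i < a j + k ∧ b j + k < b i) ∨
      ((a j + k < a i ∨ b i < a j + k) ∧ (b j + k < a i ∨ b i < b j + k))
  fin : (ends a b ∩ Ico 0 1).Finite

/-- the gaps, normalised -/
structure IsGap (a b : ι → ℝ) (J : ℝ × ℝ) : Prop where
  nn : 0 ≤ J.1
  lt_one : J.1 < 1
  lt : J.1 < J.2
  left : J.1 ∈ ends a b
  right : J.2 ∈ ends a b
  emp : ∀ t ∈ ends a b, J.1 < t → t < J.2 → False

/-- the gap `J` is inside of the arc `i` -/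
def InArc (a b : ι → ℝ) (i : ι) (J : ℝ × ℝ) : Prop := ∃ k : ℤ, a i + k ≤ J.1 ∧ J.2 ≤ b i + k

/-- the gaps `J`, `J'` are in the same arcs -/
def SameCls (a b : ι → ℝ) (J J' : ℝ × ℝ) : Prop := ∀ i, InArc a b i J ↔ InArc a b i J'

/-- the point `t` is in the arc `i` -/
def PtIn (a b : ι → ℝ) (i : ι) (t : ℝ) : Prop := ∃ k : ℤ, a i < t + k ∧ t + k < b i

lemma ends_add {t : ℝ} (h : t ∈ ends a b) (n : ℤ) : t + n ∈ ends a b := by
  obtain ⟨i, k, h | h⟩ := h
  · exact ⟨i, k + n, Or.inl (by rw [h]; push_cast; ring)⟩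
  · exact ⟨i, k + n, Or.inr (by rw [h]; push_cast; ring)⟩

namespace IsGap

variable {J J' : ℝ × ℝ}

/-- the length is at most one -/
lemma le_one (h : IsGap a b J) : J.2 ≤ J.1 + 1 := by
  by_contra hcon
  push Not at hcon
  have h1 := ends_add h.left 1
  push_cast at h1
  exact h.emp _ h1 (by linarith) hcon

end IsGap

/-! ### existence -/

lemma SameCls.refl (J : ℝ × ℝ) : SameCls a b J J := fun _ => Iff.rfl

lemma SameCls.symm {J J' : ℝ × ℝ} (h : SameCls a b J J') : SameCls a b J' J := fun i => (h i).symm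

lemma SameCls.trans {J J' J'' : ℝ × ℝ} (h : SameCls a b J J') (h' : SameCls a b J' J'') :
    SameCls a b J J'' := fun i => (h i).trans (h' i)

/-! ### the number of gaps of a class -/

end lam

/-! ### the labels `(m, x)` of level `N` -/

end Pool.Agent.Work.MLC.Cnt
end

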