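import Pool.Agent.Work.MLCM.C63
import Pool.Agent.Work.MLCM.C66

section
set_option autoImplicit false

/-! # Theorem F: the rays `tm`, `tp` land at the root; nested arcs and nested limbs (helper60)

`ray_tm`, `ray_tp`: landing. `nest_iff`, `nest_iff'`: `rt D'` is in the limb of `D` iff `tm'` (or
`tp'`) is in the arc of `D` modulo one. `laminar60`: the arcs of different roots are strictly nested or
disjoint. -/

namespace Pool.Agent.Work.MLC.Cnt

open Filter Topology Metric Set Complex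
open Pool.Agent.Work.MLC.Sat

/-- the angle `θ` is in the open arc of `D` modulo one -/
def InA (D : Dat) (θ : ℝ) : Prop := ∃ k : ℤ, D.tm < θ + k ∧ θ + k < D.tp

variable {D D' : Dat}

lemma sG_pos60 (hP : D.Par) : 0 < sG D := by
  unfold sG
  have := (sR_pos hP).trans_le (sR_le_gR hP)
  linarith

/-- small gates are in every neighbourhood of the root -/
lemma gate_small (hP : D.Par) {U : Set ℂ} (hU : U ∈ 𝓝 (rt D)) :
    ∃ s, 0 < s ∧ s ≤ sG D ∧ D.c '' closedBall D.a s ⊆ U := by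
  have h1 := (c_contAt hP (a_mem_B hP)).preimage_mem_nhds hU
  obtain ⟨ε, hε, h2⟩ := Metric.mem_nhds_iff.1 h1
  refine ⟨min (sG D) (ε / 2), lt_min (sG_pos60 hP) (by linarith), min_le_left _ _, ?_⟩
  rintro _ ⟨L, hL, rfl⟩
  refine h2 ?_
  rw [mem_ball]
  exact (mem_closedBall.1 hL).trans_lt ((min_le_right _ _).trans_lt (by linarith))

lemma log_small {K : ℝ} : ∀ᶠ g : ℝ in 𝓝[>] 0, K ≤ -Real.log g := by
  have h1 := Real.tendsto_log_nhdsGT_zero.eventually (eventually_le_atBot (-K))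
  filter_upwards [h1] with g hg
  linarith

/-- **the ray `tm` lands at the root** -/
theorem ray_tm (hP : D.Par) (hC : D.Cir) :
    Tendsto (fun g : ℝ => cOf ((g : ℂ) + 2 * Real.pi * D.tm * I)) (𝓝[>] 0) (𝓝 (rt D)) := by
  refine tendsto_iff_forall_eventually_mem.2 fun U hU => ?_
  obtain ⟨s, hs, hs', hsub⟩ := gate_small hP hU
  have hs8 : 0 < s ^ 4 := by positivity
  filter_upwards [log_small (K := 130000 * (D.m : ℝ) ^ 3 * D.x.den / s ^ 4), self_mem_nhdsWithin]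
    with g hg hg0
  rw [div_le_iff₀ hs8] at hg
  exact hsub (n2_ray D hP hC s g hs hs' hg0 (by linarith)).1

/-- **the ray `tp` lands at the root** -/
theorem ray_tp (hP : D.Par) (hC : D.Cir) :
    Tendsto (fun g : ℝ => cOf ((g : ℂ) + 2 * Real.pi * D.tp * I)) (𝓝[>] 0) (𝓝 (rt D)) := by
  refine tendsto_iff_forall_eventually_mem.2 fun U hU => ?_
  obtain ⟨s, hs, hs', hsub⟩ := gate_small hP hU
  have hs8 : 0 < s ^ 4 := by positivity
  filter_upwards [log_small (K := 130000 * (D.m : ℝ) ^ 3 * D.x.den / s ^ 4), self_mem_nhdsWithin]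
    with g hg hg0
  rw [div_le_iff₀ hs8] at hg
  exact hsub (n2_ray D hP hC s g hs hs' hg0 (by linarith)).2

/-- a ray with angle in the arc of `D` which lands at a point of `MM` -/
lemma mem_of_ray (hP : D.Par) (hC : D.Cir) {θ : ℝ} {r : ℂ} (hr : r ∈ MM)
    (hl : Tendsto (fun g : ℝ => cOf ((g : ℂ) + 2 * Real.pi * θ * I)) (𝓝[>] 0) (𝓝 r))
    (h : InA D θ) : r ∈ Lm D ∨ r = rt D := by
  obtain ⟨k, h1, h2⟩ := h
  refine n5_closed D hP hC r hr (mem_closure_of_tendsto hl ?_)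
  filter_upwards [self_mem_nhdsWithin] with g hg
  exact Or.inr ⟨θ + k, (ang_cOf hg).1.add_int k, h1.le, h2.le⟩

/-- a ray which lands at a point of the limb has its angle in the arc -/
lemma inA_of_ray (hP : D.Par) (hC : D.Cir) {θ : ℝ} {r : ℂ}
    (hl : Tendsto (fun g : ℝ => cOf ((g : ℂ) + 2 * Real.pi * θ * I)) (𝓝[>] 0) (𝓝 r))
    (h : r ∈ Lm D) : InA D θ := by
  obtain ⟨g, h1, h2⟩ := ((hl.eventually (n5_open D hP hC r h)).and self_mem_nhdsWithin).exists
  exact h1.2 θ (ang_cOf h2).1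

/-- **G2**, the left end -/
theorem nest_iff (hP : D.Par) (hC : D.Cir) (hP' : D'.Par) (hC' : D'.Cir) (hne : rt D' ≠ rt D) :
    rt D' ∈ Lm D ↔ InA D D'.tm :=
  ⟨fun h => inA_of_ray hP hC (ray_tm hP' hC') h, fun h =>
    (mem_of_ray hP hC (rt_mem_MM hP') (ray_tm hP' hC') h).resolve_right hne⟩

/-- **G2**, the right end -/
theorem nest_iff' (hP : D.Par) (hC : D.Cir) (hP' : D'.Par) (hC' : D'.Cir) (hne : rt D' ≠ rt D) :
    rt D' ∈ Lm D ↔ InA D D'.tp :=
  ⟨fun h => inA_of_ray hP hC (ray_tp hP' hC') h, fun h =>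
    (mem_of_ray hP hC (rt_mem_MM hP') (ray_tp hP' hC') h).resolve_right hne⟩

lemma ray_shift {θ : ℝ} {r : ℂ} (k : ℤ)
    (hl : Tendsto (fun g : ℝ => cOf ((g : ℂ) + 2 * Real.pi * θ * I)) (𝓝[>] 0) (𝓝 r)) :
    Tendsto (fun g : ℝ => cOf ((g : ℂ) + 2 * Real.pi * ((θ + k : ℝ) : ℂ) * I)) (𝓝[>] 0) (𝓝 r) := by
  refine hl.congr fun g => ?_
  have h : ((g : ℂ) + 2 * Real.pi * ((θ + k : ℝ) : ℂ) * I) =
      ((g : ℂ) + 2 * Real.pi * θ * I) + (k : ℂ) * (2 * Real.pi * I) := by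
    push_cast; ring
  have h2 : Complex.exp ((k : ℂ) * (2 * Real.pi * I)) = 1 := Complex.exp_int_mul_two_pi_mul_I k
  rw [h, cOf, cOf, Complex.exp_add _ ((k : ℂ) * (2 * Real.pi * I)), h2, mul_one]

/-- different roots have no common angles -/
theorem no_common (hP : D.Par) (hC : D.Cir) (hP' : D'.Par) (hC' : D'.Cir) (hne : rt D ≠ rt D')
    (k : ℤ) : D'.tm + k ≠ D.tm ∧ D'.tm + k ≠ D.tp ∧ D'.tp + k ≠ D.tm ∧ D'.tp + k ≠ D.tp := by
  refine ⟨fun h => ?_, fun h => ?_, fun h => ?_, fun h => ?_⟩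
  · have h1 := ray_shift k (ray_tm hP' hC')
    rw [h] at h1
    exact hne (tendsto_nhds_unique (ray_tm hP hC) h1)
  · have h1 := ray_shift k (ray_tm hP' hC')
    rw [h] at h1
    exact hne (tendsto_nhds_unique (ray_tp hP hC) h1)
  · have h1 := ray_shift k (ray_tp hP' hC')
    rw [h] at h1
    exact hne (tendsto_nhds_unique (ray_tm hP hC) h1)
  · have h1 := ray_shift k (ray_tp hP' hC')
    rw [h] at h1
    exact hne (tendsto_nhds_unique (ray_tp hP hC) h1)

/-- **G1**: the arcs of different roots are strictly nested or disjoint -/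
theorem laminar60 (hP : D.Par) (hC : D.Cir) (hP' : D'.Par) (hC' : D'.Cir) (hne : rt D ≠ rt D')
    (k : ℤ) : (D.tm < D'.tm + k ∧ D'.tp + k < D.tp) ∨
      ((D'.tm + k < D.tm ∨ D.tp < D'.tm + k) ∧ (D'.tp + k < D.tm ∨ D.tp < D'.tp + k)) := by
  obtain ⟨n1, n2, n3, n4⟩ := no_common hP hC hP' hC' hne k
  have hlt := hC'.lt
  by_cases h1 : D.tm < D'.tm + k ∧ D'.tm + k < D.tp
  · refine Or.inl ⟨h1.1, ?_⟩
    by_contra hcon
    push Not at hcon
    have h2 : D.tp < D'.tp + k := lt_of_le_of_ne hcon (Ne.symm n4)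
    have h3 : rt D' ∈ Lm D := (nest_iff hP hC hP' hC' (Ne.symm hne)).2 ⟨k, h1⟩
    have h4 : rt D ∈ Lm D' := (nest_iff' hP' hC' hP hC hne).2 ⟨-k, by
      push_cast
      constructor <;> linarith [h1.2]⟩
    exact not_both hP hC hP' hC' h3 h4
  · have h2 : D'.tm + k < D.tm ∨ D.tp < D'.tm + k := by
      by_contra hcon
      push Not at hcon
      exact h1 ⟨lt_of_le_of_ne hcon.1 (Ne.symm n1), lt_of_le_of_ne hcon.2 n2⟩
    refine Or.inr ⟨h2, ?_⟩
    by_contra hcon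
    push Not at hcon
    have h3 : D.tm < D'.tp + k := lt_of_le_of_ne hcon.1 (Ne.symm n3)
    have h4 : D'.tp + k < D.tp := lt_of_le_of_ne hcon.2 n4
    have h5 : rt D' ∈ Lm D := (nest_iff' hP hC hP' hC' (Ne.symm hne)).2 ⟨k, h3, h4⟩
    have h6 : D'.tm + k < D.tm := by
      rcases h2 with h | h
      · exact h
      · linarith
    have h7 : rt D ∈ Lm D' := (nest_iff hP' hC' hP hC hne).2 ⟨-k, by
      push_cast
      constructor <;> linarith⟩
    exact not_both hP hC hP' hC' h5 h7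

end Pool.Agent.Work.MLC.Cnt
end

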