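import Pool.Agent.Work.MLCM.C62
import Pool.Agent.Work.MLCM.C66

section
set_option autoImplicit false

/-! # Theorem F, module G11 (helper15): the pieces which contain a given root are not small -/

namespace Pool.Agent.Work.MLC.Cnt

open Filter Topology Metric Set Complex
open Pool.Agent.Work.MLC.Sat

/-- near a parameter with an attracting point there are no exterior parameters -/
lemma att_MM15 {n : ℕ} (hn : 0 < n) {c b : ℂ} (h : (c, b) ∈ Per n) (hm : ‖mul n (c, b)‖ < 1) :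
    ∀ᶠ c' in 𝓝 c, c' ∈ MM := by
  have hne : mul n (c, b) ≠ 1 := by
    intro h0
    rw [h0, norm_one] at hm
    exact lt_irrefl _ hm
  obtain ⟨β, hβa, hβ0, hβ⟩ := chart h hne
  simp only at hβ0 hβa
  have h8 : Tendsto (fun c' => ((c', β c') : ℂ × ℂ)) (𝓝 c) (𝓝 (c, b)) := by
    have h9 : Tendsto β (𝓝 c) (𝓝 b) := by
      rw [← hβ0]; exact hβa.continuousAt.tendsto
    exact tendsto_id.prodMk_nhds h9
  have h2 : ∀ᶠ x in 𝓝 ((c, b) : ℂ × ℂ), ‖mul n x‖ < 1 :=
    ((continuous_mul' n).norm.continuousAt).eventually_lt continuousAt_const hm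
  filter_upwards [h8.eventually hβ, h8.eventually h2] with c' h3 h4
  by_contra hM
  have h5 : it c' n (β c') = β c' := h3.2 rfl
  have h6 : 1 < ‖mult n c' (β c')‖ := one_lt_norm_mult_of_ext hn (not_mem_MM_iff.1 hM) h5
  have h7 : ‖mult n c' (β c')‖ < 1 := h4
  exact lt_irrefl _ (h6.trans h7)

/-- at a root there is no attracting point -/
lemma rt_ne15 {D : Dat} (hP : D.Par) {n : ℕ} (hn : 0 < n) {c b : ℂ} (h : (c, b) ∈ Per n)
    (hm : ‖mul n (c, b)‖ < 1) : rt D ≠ c := by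
  intro h0
  have h1 : ∃ᶠ c' in 𝓝 (rt D), c' ∉ MM :=
    ext_of_neutral (y := (rt D, D.b D.a)) hP.m_pos (hP.sec _ (a_mem_B hP)).1 (norm_mul_root hP)
  rw [h0] at h1
  obtain ⟨c', h2, h3⟩ := (h1.and_eventually (att_MM15 hn h hm)).exists
  exact h2 h3

section

variable {ι : Type} {F : Finset ι} {D' : ι → Dat}

/-- a connected subset of `MM` without roots, with `r` in its closure -/
lemma piece_sub15 (h : Fam60 F D') {A : Finset ι} {r : ℂ} (hr : r ∈ Pc F D' A) {S : Set ℂ}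
    (hSc : IsPreconnected S) (hSM : S ⊆ MM) (hSr : ∀ i ∈ F, rt (D' i) ∉ S) (hrS : r ∈ closure S)
    (hroot : ∀ i ∈ F, r = rt (D' i) →
      (i ∈ A → S ⊆ Lm (D' i)) ∧ (i ∉ A → Disjoint S (Lm (D' i)))) : S ⊆ Pc F D' A := by
  intro z hz
  refine ⟨hSM hz, fun i hi => ⟨fun hiA => ?_, fun hiA hzL => ?_⟩⟩
  · by_cases hri : r = rt (D' i)
    · exact Or.inr ((hroot i hi hri).1 hiA hz)
    · have hrL : r ∈ Lm (D' i) := by
        rcases (hr.2 i hi).1 hiA with h0 | h0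
        · exact absurd h0 hri
        · exact h0
      obtain ⟨w, hw, hw2⟩ := ((mem_closure_iff_frequently.1 hrS).and_eventually
        (lm_open (h.par i hi) (h.cir i hi) hrL)).exists
      exact Or.inr (sub_lm_of_conn (h.par i hi) (h.cir i hi) hSM hSc (hSr i hi)
        ⟨w, hw, hw2 (hSM hw)⟩ hz)
  · by_cases hri : r = rt (D' i)
    · exact (Set.disjoint_left.1 ((hroot i hi hri).2 hiA)) hz hzL
    · have h1 := sub_lm_of_conn (h.par i hi) (h.cir i hi) hSM hSc (hSr i hi) ⟨z, hz, hzL⟩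
      rcases lm_closure (h.par i hi) (h.cir i hi) (closure_mono h1 hrS) with h2 | h2
      · exact hri h2
      · exact (hr.2 i hi).2 hiA h2

end

/-! ### the inner side -/

section

variable {D : Dat}

lemma half_conn15 (hP : D.Par) : IsPreconnected (Half D) := by
  have h1 : Convex ℝ {L | L ∈ ball D.a (sG D) ∧ L.re < 0} :=
    (convex_ball _ _).inter (convex_halfSpace_re_lt 0)
  refine h1.isPreconnected.image _ fun L hL => ?_
  exact (c_contAt hP (ball_subset_ball (sG_le hP) hL.1)).continuousWithinAt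

lemma half_root15 (hP : D.Par) {D' : Dat} (hP' : D'.Par) : rt D' ∉ Half D := by
  intro h
  obtain ⟨L, hL, hL2⟩ := Half_sub hP h
  have h1 := att_LB hP hL
  have h2 : (D.c L, D.b L) ∈ Per D.m := h1.1
  exact rt_ne15 hP' hP.m_pos h2 h1.2.2 hL2.symm

lemma sG_pos15 (hP : D.Par) : 0 < sG D := by
  have hR : 0 < gR D.m D.x := (sR_pos hP).trans_le (sR_le_gR hP)
  unfold sG; linarith

lemma half_clos15 (hP : D.Par) : rt D ∈ closure (Half D) := by
  have h5 : Tendsto (fun s : ℝ => D.a - (s : ℂ)) (𝓝[>] 0) (𝓝 D.a) := by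
    have h6 : Continuous fun s : ℝ => D.a - (s : ℂ) := by fun_prop
    have h7 := h6.tendsto 0
    simp only [ofReal_zero, sub_zero] at h7
    exact h7.mono_left nhdsWithin_le_nhds
  refine mem_closure_of_tendsto ((c_contAt hP (a_mem_B hP)).tendsto.comp h5) ?_
  filter_upwards [h5.eventually (isOpen_ball.mem_nhds (mem_ball_self (sG_pos15 hP))),
    self_mem_nhdsWithin] with s h6 h7
  refine ⟨D.a - (s : ℂ), ⟨h6, ?_⟩, rfl⟩
  have h8 : D.a.re = 0 := by
    show (axisPt D.x).re = 0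
    exact LimbData.axisPt_re D.x
  have h9 : (0 : ℝ) < s := h7
  simp [h8, h9]

/-- the inner half is outside the limb -/
lemma half_disj15 (hP : D.Par) (hC : D.Cir) : Disjoint (Half D) (Lm D) := by
  rw [Set.disjoint_left]
  intro c hc hcL
  obtain ⟨L, hL, rfl⟩ := Half_sub hP hc
  obtain ⟨-, z, hz, -⟩ := hcL
  exact no_nj_left hP hC hL.1 hL.2 hz

lemma bdd_sub_MM15 {S : Set ℂ} (h : S ⊆ MM) : Bornology.IsBounded S :=
  (isBounded_closedBall (x := (0 : ℂ)) (r := 4)).subset fun c hc => by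
    rw [mem_closedBall_zero_iff]; exact norm_MM_le_four (h hc)

lemma half_diam15 (hP : D.Par) (hC : D.Cir) : 0 < diam (Half D) := by
  refine Metric.diam_pos ?_ (bdd_sub_MM15 (Half_sub_MM hP))
  have hs := sG_pos15 hP
  have h8 : D.a.re = 0 := by
    show (axisPt D.x).re = 0
    exact LimbData.axisPt_re D.x
  have hmem : ∀ t : ℝ, 0 < t → t < 1 → D.a - ((sG D * t : ℝ) : ℂ) ∈ ball D.a (sG D) ∧
      (D.a - ((sG D * t : ℝ) : ℂ)).re < 0 := by
    intro t h0 h1
    constructor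
    · rw [mem_ball, dist_eq_norm, sub_sub_cancel_left, norm_neg, norm_real, Real.norm_eq_abs,
        abs_of_pos (by positivity)]
      nlinarith
    · rw [sub_re, h8, ofReal_re]
      have : 0 < sG D * t := by positivity
      linarith
  have h2 := hmem (1 / 2) (by norm_num) (by norm_num)
  have h3 := hmem (1 / 4) (by norm_num) (by norm_num)
  refine ⟨_, ⟨_, h2, rfl⟩, _, ⟨_, h3, rfl⟩, fun h4 => ?_⟩
  have h5 := c_injOn hP hC (ball_subset_ball (sG_le hP) h2.1) (ball_subset_ball (sG_le hP) h3.1) h4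
  have h6 := congrArg Complex.re h5
  rw [sub_re, sub_re, ofReal_re, ofReal_re] at h6
  linarith

end

/-! ### the outer side -/

section

variable {D : Dat} {Z : ℂ → Set ℂ} {e : ℂ → ℂ}

/-- part of the child component -/
def Out15 (D : Dat) (e : ℂ → ℂ) : Set ℂ := (fun ℓ => D.c (e ℓ)) '' HL D.n

lemma out_att15 (hP : D.Par) (hG : Glued D Z) (hCh : Child D Z e) {ℓ : ℂ} (hℓ : ℓ ∈ HL D.n) :
    ∃ z ∈ Z (e ℓ), (D.c (e ℓ), z) ∈ Per D.n ∧ ‖mul D.n (D.c (e ℓ), z)‖ < 1 := by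
  have hU := e_mem_U hP hCh hℓ.1 (HL_ne hℓ)
  obtain ⟨z, hz⟩ := hG.fam.ne _ hU
  refine ⟨z, hz, (hG.fam.fix _ hU z hz).1, ?_⟩
  rw [hCh.mul_eq ℓ hℓ.1 (HL_ne hℓ) z hz, Complex.norm_exp]
  exact Real.exp_lt_one_iff.2 hℓ.2

lemma out_conn15 (hP : D.Par) (hCh : Child D Z e) : IsPreconnected (Out15 D e) := by
  refine (HL_convex D.n).isPreconnected.image _ fun ℓ' h' => ?_
  have hU := e_mem_U hP hCh h'.1 (HL_ne h')
  have h1 : ContinuousAt (fun ℓ => D.c (e ℓ)) ℓ' :=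
    ContinuousAt.comp (g := D.c) (c_contAt hP (U_sub_B hP hU)) (e_contAt hCh h'.1)
  exact h1.continuousWithinAt

lemma out_MM15 (hP : D.Par) (hG : Glued D Z) (hCh : Child D Z e) : Out15 D e ⊆ MM := by
  rintro _ ⟨ℓ, hℓ, rfl⟩
  obtain ⟨z, -, h1, h2⟩ := out_att15 hP hG hCh hℓ
  exact (att_MM15 (Par_n_pos hP) h1 h2).self_of_nhds

lemma out_root15 (hP : D.Par) (hG : Glued D Z) (hCh : Child D Z e) {D' : Dat} (hP' : D'.Par) :
    rt D' ∉ Out15 D e := by
  rintro ⟨ℓ, hℓ, h0⟩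
  obtain ⟨z, -, h1, h2⟩ := out_att15 hP hG hCh hℓ
  exact rt_ne15 hP' (Par_n_pos hP) h1 h2 h0.symm

lemma out_sub15 (hP : D.Par) (hC : D.Cir) (hR : Regions D) (hG : Glued D Z) (hCh : Child D Z e) :
    Out15 D e ⊆ Lm D := by
  rintro _ ⟨ℓ, hℓ, rfl⟩
  have hM : D.c (e ℓ) ∈ MM := out_MM15 hP hG hCh ⟨ℓ, hℓ, rfl⟩
  have hU := e_mem_U hP hCh hℓ.1 (HL_ne hℓ)
  obtain ⟨z, hz, h1, h2⟩ := out_att15 hP hG hCh hℓ
  have hRI : e ℓ ∈ D.RI := by
    rcases hR.cover hU with (h3 | h3) | h3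
    · exact absurd hM h3.2
    · exact h3
    · exact absurd h2 (not_lt.2 ((hG.left _ h3).1 z hz).le)
  obtain ⟨-, hre, h3⟩ := hRI
  refine ⟨hM, D.b (e ℓ), σ_mem_NJ hP hC (U_sub_B hP hU) hre, ?_⟩
  rcases h3 with ⟨θ, hθ, -, -⟩ | ⟨-, h3⟩
  · exact absurd hM (not_mem_MM_iff.2 hθ.1.1)
  · exact h3

lemma cR_pos15 (hP : D.Par) : 0 < cR D.n := by
  have : (0 : ℝ) < D.n := by exact_mod_cast Par_n_pos hP
  unfold cR; positivity

lemma out_clos15 (hP : D.Par) (hCh : Child D Z e) : rt D ∈ closure (Out15 D e) := by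
  have hc := cR_pos15 hP
  have h5 : Tendsto (fun s : ℝ => -(s : ℂ)) (𝓝[>] 0) (𝓝 0) := by
    have h6 : Continuous fun s : ℝ => -(s : ℂ) := by fun_prop
    have h7 := h6.tendsto 0
    simp only [ofReal_zero, neg_zero] at h7
    exact h7.mono_left nhdsWithin_le_nhds
  have h6 : ContinuousAt (fun ℓ => D.c (e ℓ)) 0 := by
    refine ContinuousAt.comp (g := D.c) ?_ (e_contAt hCh (mem_ball_self hc))
    rw [hCh.zero]
    exact c_contAt hP (a_mem_B hP)
  have h7 : Tendsto (fun s : ℝ => D.c (e (-(s : ℂ)))) (𝓝[>] 0) (𝓝 (rt D)) := by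
    have h8 := h6.tendsto.comp h5
    rw [hCh.zero] at h8
    exact h8
  refine mem_closure_of_tendsto h7 ?_
  filter_upwards [h5.eventually (isOpen_ball.mem_nhds (mem_ball_self hc)),
    self_mem_nhdsWithin] with s h8 h9
  refine ⟨-(s : ℂ), ⟨h8, ?_⟩, rfl⟩
  have h9 : (0 : ℝ) < s := h9
  simp [h9]

lemma out_diam15 (hP : D.Par) (hC : D.Cir) (hG : Glued D Z) (hCh : Child D Z e) :
    0 < diam (Out15 D e) := by
  refine Metric.diam_pos ?_ (bdd_sub_MM15 (out_MM15 hP hG hCh))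
  have hs := cR_pos15 hP
  have hmem : ∀ t : ℝ, 0 < t → t < 1 → -((cR D.n * t : ℝ) : ℂ) ∈ HL D.n := by
    intro t h0 h1
    constructor
    · rw [mem_ball_zero_iff, norm_neg, norm_real, Real.norm_eq_abs, abs_of_pos (by positivity)]
      nlinarith
    · have : 0 < cR D.n * t := by positivity
      show (-((cR D.n * t : ℝ) : ℂ)).re < 0
      rw [neg_re, ofReal_re]
      linarith
  have h2 := hmem (1 / 2) (by norm_num) (by norm_num)
  have h3 := hmem (1 / 4) (by norm_num) (by norm_num)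
  refine ⟨_, ⟨_, h2, rfl⟩, _, ⟨_, h3, rfl⟩, fun h4 => ?_⟩
  have h5 := c_injOn hP hC (U_sub_B hP (e_mem_U hP hCh h2.1 (HL_ne h2)))
    (U_sub_B hP (e_mem_U hP hCh h3.1 (HL_ne h3))) h4
  have h6 := hCh.inj h2.1 h3.1 h5
  have h7 := congrArg Complex.re h6
  rw [neg_re, neg_re, ofReal_re, ofReal_re] at h7
  linarith

end

/-- the limb depends on the root only -/
lemma lm_eq_of_rt15 {D D' : Dat} (hP : D.Par) (hC : D.Cir) (hP' : D'.Par) (hC' : D'.Cir)
    (h : rt D = rt D') : Lm D = Lm D' := by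
  rw [← n6_sep D hP hC, ← n6_sep D' hP' hC', h]

/-- **G11**: the pieces which contain a given root are not small -/
theorem piece_diam15 {D : Dat} (hP : D.Par) (hC : D.Cir) :
    ∃ η > 0, ∀ (ι : Type) (F : Finset ι) (D' : ι → Dat), Fam60 F D' → ∀ A : Finset ι,
      rt D ∈ Pc F D' A → η ≤ diam (Pc F D' A) := by
  have hR := regions_all D hP hC
  obtain ⟨Z, hG⟩ := glue_all D hP hC hR
  obtain ⟨e, hCh⟩ := child_all D Z hP hC hR hG
  refine ⟨min (diam (Half D)) (diam (Out15 D e)),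
    lt_min (half_diam15 hP hC) (out_diam15 hP hC hG hCh), fun ι F D' hF A hr => ?_⟩
  have hb : Bornology.IsBounded (Pc F D' A) := bdd_sub_MM15 fun z hz => hz.1
  by_cases hex : ∃ i ∈ F, i ∈ A ∧ rt D = rt (D' i)
  · obtain ⟨i, hi, hiA, hri⟩ := hex
    refine (min_le_right _ _).trans (diam_mono ?_ hb)
    refine piece_sub15 hF hr (out_conn15 hP hCh) (out_MM15 hP hG hCh)
      (fun j hj => out_root15 hP hG hCh (hF.par j hj)) (out_clos15 hP hCh) fun j hj hrj => ?_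
    have hij : i = j := hF.inj i hi j hj (hri.symm.trans hrj)
    subst hij
    refine ⟨fun _ => ?_, fun h0 => absurd hiA h0⟩
    rw [← lm_eq_of_rt15 hP hC (hF.par i hi) (hF.cir i hi) hri]
    exact out_sub15 hP hC hR hG hCh
  · push Not at hex
    refine (min_le_left _ _).trans (diam_mono ?_ hb)
    refine piece_sub15 hF hr (half_conn15 hP) (Half_sub_MM hP)
      (fun j hj => half_root15 hP (hF.par j hj)) (half_clos15 hP) fun j hj hrj => ?_
    refine ⟨fun h0 => absurd hrj (hex j hj h0), fun _ => ?_⟩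
    rw [← lm_eq_of_rt15 hP hC (hF.par j hj) (hF.cir j hj) hrj]
    exact half_disj15 hP hC

end Pool.Agent.Work.MLC.Cnt
end

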