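import Pool.Agent.Work.MLCM.C54
import Pool.Agent.Work.MLCM.C60
import Pool.Agent.Work.MLCM.C62
import Pool.Agent.Work.MLCM.C63
import Pool.Agent.Work.MLCM.C65
import Pool.Agent.Work.MLCM.C66
import Pool.Agent.Work.MLCM.C67
import Pool.Agent.Work.MLCM.C68

section
set_option autoImplicit false

/-! # Theorem Cap (MLC quasi-everywhere): interface of the one-piece estimates (manager: helper26)

The author of the theorem is helper90 (note 2201). `WS`, `W.dat y`, `W.Gt`, `RoofH` are in `CntQ26`.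
The components `W` and the rationals `x` are arbitrary; `m = W.m`, `q = x.den`. -/

namespace Pool.Agent.Work.MLC.Cap

open Filter Topology Metric Set Complex MeasureTheory
open Pool.Agent.Work.MLC.Sat Pool.Agent.Work.MLC.Cnt
open scoped ENNReal

/-- the weight -/
noncomputable def bet (N s : ℝ) : ℝ := (max 1 (Real.logb 2 (1 / s) / N)) ^ ((1 : ℝ) / 8)

/-- the energy of a set in the half plane `re > 0` -/
noncomputable def en (A : Set ℂ) : ℝ≥0∞ := ∫⁻ z in A, ENNReal.ofReal (‖deriv cOf z‖ ^ 2)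

/-- the region of the rays near the angle `e` -/
def RS (e D H : ℝ) : Set ℂ :=
  {z | 0 < z.re ∧ z.re ≤ 2 * H ∧ |z.im / (2 * Real.pi) - e| ≤ D + 8 * z.re}

/-- its weighted energy -/
noncomputable def rayE (N e D H : ℝ) : ℝ≥0∞ :=
  ∫⁻ z in RS e D H, ENNReal.ofReal (‖deriv cOf z‖ ^ 2 / bet N z.re)

/-- the region of the roof of height `H` over `[s, t]` -/
def Rf (s t H : ℝ) : Set ℂ :=
  {z | H / 2 < z.re ∧ z.re < 2 * H ∧ s - 2 * H < z.im / (2 * Real.pi) ∧
    z.im / (2 * Real.pi) < t + 2 * H}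

/-- the spread of the leaf angles -/
noncomputable def DD (m q : ℕ) : ℝ := 2 * (1 / 2) ^ (m * (3 * q - 1))

/-- the part of the component next to the root at `x` -/
noncomputable def HH (W : WS) (x : ℚ) : Set ℂ :=
  W.c '' {L | -1 / (200 * W.m * (x.den : ℝ) ^ 2) < L.re ∧ L.re < 0 ∧
    |L.im / (2 * Real.pi) - x| < 1 / (x.den : ℝ) ^ 2}

/-- `u < x < v` are Farey neighbours of `x` with denominators in `(2 q, 3 q]` -/
structure Nbr (x u v : ℚ) : Prop where
  ux : u < x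
  xv : x < v
  u0 : 2 / (3 * (x.den : ℚ)) ≤ u
  v1 : v ≤ 1 - 2 / (3 * (x.den : ℚ))
  detu : x.num * u.den - u.num * x.den = 1
  detv : v.num * x.den - x.num * v.den = 1
  denu : 2 * x.den < u.den ∧ u.den ≤ 3 * x.den
  denv : 2 * x.den < v.den ∧ v.den ≤ 3 * x.den

/-! ## Pure modules -/

/-- NB: the neighbours exist -/
def C_nbr : Prop := ∀ x : ℚ, 0 < x → x < 1 → ∃ u v : ℚ, Nbr x u v

/-- LV: the leaves of the 4-ary Farey tree -/
def C_leaf : Prop := ∀ u v : ℚ, u < v → v.num * u.den - u.num * v.den = 1 → ∀ n : ℕ,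
  ∃ X : Finset ℚ, X.card = 4 ^ n ∧ (∀ x ∈ X, u < x ∧ x < v ∧ x.den ≤ 3 ^ n * (u.den + v.den)) ∧
    ∀ (k : ℕ) (Z : ℝ), k ≤ n → (3 : ℝ) ^ k * (u.den + v.den) ≤ Z → ∀ S ⊆ X,
      (∀ s ∈ S, ∀ s' ∈ S, ∀ y : ℚ, s < y → y < s' → Z < y.den) → S.card ≤ 4 ^ (n - k)

/-! ## Rays and roofs -/

/-- AV: the weighted average -/
def C_average : Prop := ∀ (κ : Type) (X : Finset κ) (τ : κ → ℝ) (e D H N : ℝ) (I : ℕ)
  (M : ℕ → ℝ), X.Nonempty → 0 < H → H ≤ 1 → 1 ≤ N → 0 ≤ D → (∀ x ∈ X, |τ x - e| ≤ D) →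
  (∀ i < I, 0 ≤ M i ∧ ∀ a : ℝ, ((X.filter fun x => a ≤ τ x ∧ τ x ≤ a + H / 2 ^ i).card : ℝ) ≤
    M i * X.card) →
  ∃ x ∈ X, ENNReal.ofReal (diam (RaySeg (τ x) (H / 2 ^ I) H) ^ 2) ≤
    ENNReal.ofReal (10 ^ 5 * ∑ i ∈ Finset.range I, M i * bet N (H / 2 ^ i)) * rayE N e D H

/-- RF: roofs -/
def C_roof : Prop := ∀ s t H : ℝ, 0 < H → H ≤ 1 → s ≤ t → t ≤ s + 5 * H →
  ENNReal.ofReal (diam (RoofH H s t) ^ 2) ≤ 10 ^ 5 * en (Rf (s + H) (t - H) H)

/-- EN: the total energy -/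
def C_energy : Prop := en {z | 0 < z.re ∧ z.re ≤ 2 ∧ -20 < z.im ∧ z.im < 20} ≤ 10 ^ 6

/-- DI: the distance of the angles near `x` -/
def C_dist : Prop := ∀ W : WS, W.Ok → ∀ x u v y : ℚ, 0 < x → x < 1 → Nbr x u v →
  (u < y → y < x → (W.dat x).tm - (W.dat y).tm ≤ DD W.m x.den) ∧
  (x < y → y < v → (W.dat y).tp - (W.dat x).tp ≤ DD W.m x.den)

/-- CR: the rays of a cut (from `C_leaf`, `C_average`, `C_dist`, `n2_ray`) -/
def C_cutray (C : ℝ) : Prop := ∀ W : WS, W.Ok → ∀ x u v : ℚ, 0 < x → x < 1 → Nbr x u v →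
  ∀ H : ℝ, 0 < H → H ≤ 1 → ∃ (x₁ x₂ : ℚ) (g : ℝ), u < x₁ ∧ x₁ < x ∧ x < x₂ ∧ x₂ < v ∧
    0 < g ∧ g ≤ H ∧
    (∀ t : ℝ, 0 < t → t ≤ g → cOf ((t : ℂ) + 2 * Real.pi * (W.dat x₁).tm * I) ∈
      W.Gt x₁ (6 / (2000 * W.m * (x.den : ℝ) ^ 2))) ∧
    (∀ t : ℝ, 0 < t → t ≤ g → cOf ((t : ℂ) + 2 * Real.pi * (W.dat x₂).tp * I) ∈
      W.Gt x₂ (6 / (2000 * W.m * (x.den : ℝ) ^ 2))) ∧
    ENNReal.ofReal (diam (RaySeg (W.dat x₁).tm g H) ^ 2) ≤ ENNReal.ofReal (C * (W.m * x.den)) *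
      rayE (4 * W.m * x.den) (W.dat x).tm (DD W.m x.den) H ∧
    ENNReal.ofReal (diam (RaySeg (W.dat x₂).tp g H) ^ 2) ≤ ENNReal.ofReal (C * (W.m * x.den)) *
      rayE (4 * W.m * x.den) (W.dat x).tp (DD W.m x.den) H

/-! ## Gates -/

/-- CG: the gates of a cut (from `Q_gate`) -/
def C_cutgate (C : ℝ) : Prop := ∀ W : WS, W.Ok → ∀ x u v x₁ x₂ : ℚ, 0 < x → x < 1 → Nbr x u v →
  u < x₁ → x₁ < x → x < x₂ → x₂ < v → ∃ (F : Finset ℕ) (P : ℕ → Set ℂ),
    (∀ i ∈ F, Bornology.IsBounded (P i)) ∧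
    (∀ y : ℝ, (x₁ : ℝ) ≤ y → y ≤ x₂ → ∃ i ∈ F, W.c (2 * Real.pi * y * I) ∈ P i) ∧
    (∃ i ∈ F, W.Gt x₁ (6 / (2000 * W.m * (x.den : ℝ) ^ 2)) ⊆ P i) ∧
    (∃ i ∈ F, W.Gt x₂ (6 / (2000 * W.m * (x.den : ℝ) ^ 2)) ⊆ P i) ∧
    ENNReal.ofReal ((∑ i ∈ F, diam (P i)) ^ 2) ≤
      ENNReal.ofReal (C * W.m) * volume (HH W x)

/-- HA: the parts of the components have bounded overlap -/
def C_half : Prop := ∀ (ι : Type) (F : Finset ι) (W : ι → WS) (x : ι → ℚ),
  (∀ i ∈ F, (W i).Ok ∧ 0 < x i ∧ x i < 1) →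
  (∀ i ∈ F, ∀ G ⊆ F, (∀ j ∈ G, WS.Same (W i) (W j) ∧ x i = x j) → G.card ≤ 3) →
  ∑ i ∈ F, volume (HH (W i) (x i)) / (x i).den ≤ 10 ^ 6

/-! ## Topology of the pieces of type II -/

/-- the piece between the root of `U` and the root of `V` -/
noncomputable def KP (U V : Dat) : Set ℂ := insert (rt U) (Lm U) \ Lm V

/-! ## The results for helper90 -/

/-- the energy of one cut at height `H` -/
noncomputable def cutE (W : WS) (x : ℚ) (H : ℝ) : ℝ≥0∞ :=
  ENNReal.ofReal (W.m * x.den) * (rayE (4 * W.m * x.den) (W.dat x).tm (DD W.m x.den) H +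
    rayE (4 * W.m * x.den) (W.dat x).tp (DD W.m x.den) H) + ENNReal.ofReal W.m * volume (HH W x)

/-- ONE: type I (`H` = length of the plateau) -/
def C_one (C : ℝ) : Prop := ∀ W : WS, W.Ok → ∀ (x : ℚ) (H : ℝ), 0 < x → x < 1 →
  H ≤ 1 → (W.dat x).tp - (W.dat x).tm ≤ 3 * H → DD W.m x.den ≤ H →
  ENNReal.ofReal (diam (Lm (W.dat x)) ^ 2) ≤ ENNReal.ofReal C *
    (cutE W x H + en (Rf (W.dat x).tm (W.dat x).tp H))

end Pool.Agent.Work.MLC.Cap
end

section
set_option autoImplicit false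

/-! # Theorem F, module G7, part 2 (helper60): the open set of a class of gaps and its frontier

`ι` finite, `D : ι → Dat` with different roots (`Fam60 Finset.univ D`), `La D i = tm`, `Ra D i = tp`.
`adr D J`: the arcs which contain the gap `J`; `gapsOf D A`: the gaps with the address `A`;
`Qs D A`: the piece `Pc Finset.univ D A` without the roots and the exterior parameters over the gaps
of the class below the roofs. -/

namespace Pool.Agent.Work.MLC.Cnt

open Filter Topology Metric Set Complex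
open Pool.Agent.Work.MLC.Sat

section

variable {ι : Type} [Fintype ι] {D : ι → Dat}

/-- left ends -/
def La (D : ι → Dat) (i : ι) : ℝ := (D i).tm

/-- right ends -/
def Ra (D : ι → Dat) (i : ι) : ℝ := (D i).tp

namespace Fam60

lemma P (h : Fam60 Finset.univ D) (i : ι) : (D i).Par := h.par i (Finset.mem_univ i)

lemma C (h : Fam60 Finset.univ D) (i : ι) : (D i).Cir := h.cir i (Finset.mem_univ i)

lemma ne (h : Fam60 Finset.univ D) {i j : ι} (hij : i ≠ j) : rt (D i) ≠ rt (D j) := fun h1 =>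
  hij (h.inj i (Finset.mem_univ i) j (Finset.mem_univ j) h1)

lemma nest (h : Fam60 Finset.univ D) {i j : ι} (hij : i ≠ j) :
    rt (D i) ∈ Lm (D j) ↔ InA (D j) (D i).tm :=
  nest_iff (h.P j) (h.C j) (h.P i) (h.C i) (h.ne hij)

end Fam60

open Classical in
/-- the address of the gap -/
noncomputable def adr (D : ι → Dat) (J : ℝ × ℝ) : Finset ι :=
  Finset.univ.filter fun i => InArc (La D) (Ra D) i J

omit [Fintype ι] in
lemma inA_iff {θ : ℝ} {i : ι} : InA (D i) θ ↔ PtIn (La D) (Ra D) i θ := Iff.rfl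

/-! ### the roots in a piece -/

/-! ### the impressions -/

end

end Pool.Agent.Work.MLC.Cnt
end

section
set_option autoImplicit false

/-! # Theorem F, module G10 (helper6): from the levels to the exceptional set

`LvD N D`: the data of one level: gaps of length at most `16 / 2 ^ N`, at most `10 ^ 27 N ^ 13 / δ ^ 2`
of them belong to pieces of diameter at least `δ`. `finB`: the exceptional set. -/

namespace Pool.Agent.Work.MLC.Cnt

open Filter Topology Metric Set Complex MeasureTheory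
open Pool.Agent.Work.MLC.Sat

/-- the data of the level `N` -/
structure LvD (N : ℕ) {ι : Type} [Fintype ι] (D : ι → Dat) : Prop where
  fam : Fam60 Finset.univ D
  ne : Nonempty ι
  short : ∀ J, IsGap (La D) (Ra D) J → J.2 - J.1 ≤ 16 / 2 ^ N
  count : ∀ δ : ℝ, 0 < δ →
    ({J | IsGap (La D) (Ra D) J ∧ δ ≤ diam (Pc Finset.univ D (adr D J))}.ncard : ℝ) ≤
      10 ^ 27 * (N : ℝ) ^ 13 / δ ^ 2

/-- `M` is locally connected at `c` (with compact connected neighbourhoods) -/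
def LCat (M : Set ℂ) (c : ℂ) : Prop :=
  ∀ U ∈ 𝓝 c, ∃ K ⊆ M ∩ U, IsCompact K ∧ IsConnected K ∧ K ∈ 𝓝[M] c

end Pool.Agent.Work.MLC.Cnt
end

section
set_option autoImplicit false

/-! # Theorem Cap, stage B: two more statements (manager: helper26) -/

namespace Pool.Agent.Work.MLC.Cap

open Filter Topology Metric Set Complex MeasureTheory
open Pool.Agent.Work.MLC.Sat Pool.Agent.Work.MLC.Cnt
open scoped ENNReal

/-- PRE (helper13): the piece is connected -/
def C_pre : Prop := ∀ U V : Dat, U.Par → U.Cir → V.Par → V.Cir → Lm V ⊆ Lm U → rt V ∈ Lm U →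
  IsPreconnected (KP U V)

end Pool.Agent.Work.MLC.Cap
end

section
set_option autoImplicit false

/-! # Module R1 of Theorem Q: one Whitney box of a ray (helper78) -/

namespace Pool.Agent.Work.MLC.Cnt

open Filter Topology Metric Set Complex MeasureTheory
open scoped ENNReal

lemma qw_meas (t h : ℝ) : MeasurableSet (WB t h) := by
  have e : WB t h = {z : ℂ | h / 4 < z.re} ∩ ({z : ℂ | z.re < 2 * h} ∩
      {z : ℂ | |z.im - 2 * Real.pi * t| < h / 16}) := rfl
  rw [e]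
  exact ((isOpen_lt (by fun_prop) (by fun_prop)).inter
    ((isOpen_lt (by fun_prop) (by fun_prop)).inter
      (isOpen_lt (by fun_prop) (by fun_prop)))).measurableSet

lemma qw_sub {t h : ℝ} (hh : 0 < h) : WB t h ⊆ {L : ℂ | 0 < L.re} := by
  rintro z ⟨h1, -, -⟩
  show 0 < z.re
  linarith

/-- the image of the half plane part `re < 2` is bounded -/
lemma qw_bdd {A : Set ℂ} (hA : ∀ z ∈ A, 0 < z.re ∧ z.re ≤ 2) : cOf '' A ⊆ ball 0 200 := by
  rintro _ ⟨L, hL, rfl⟩
  obtain ⟨h0, h01⟩ := hA L hL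
  have h1 : G (cOf L) (cOf L) ≤ 2 := by
    rw [G_cOf h0]; linarith
  have h2 := norm_le_of_G_le h1
  have h3 := Real.exp_one_lt_d9
  have h4 : Real.exp 2 = Real.exp 1 * Real.exp 1 := by rw [← Real.exp_add]; norm_num
  have h5 := Real.exp_pos 1
  rw [mem_ball_zero_iff]
  have h6 : Real.exp 2 ≤ 8 := by rw [h4]; nlinarith
  linarith

/-- energy of a set of height `< 2 pi` -/
lemma qw_energy {A : Set ℂ} (hAm : MeasurableSet A) (hA : ∀ z ∈ A, 0 < z.re ∧ z.re ≤ 2)
    (hA2 : ∀ z ∈ A, ∀ w ∈ A, |z.im - w.im| < 2 * Real.pi) :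
    ∫⁻ z in A, ENNReal.ofReal (‖deriv cOf z‖ ^ 2) =
      ENNReal.ofReal ((volume (cOf '' A)).toReal) := by
  have hpi := Real.pi_gt_three
  have hinj : InjOn cOf A := by
    intro z hz w hw h
    obtain ⟨k, hk⟩ := (cOf_eq_iff (hA z hz).1 (hA w hw).1).1 h
    have h1 := congrArg Complex.im hk
    simp only [add_im, mul_im, mul_re, intCast_re, intCast_im, re_ofNat, im_ofNat, ofReal_re,
      ofReal_im, I_re, I_im, mul_zero, zero_mul, sub_zero, mul_one, add_zero, zero_add] at h1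
    have h2 := hA2 z hz w hw
    rw [abs_lt] at h2
    have hk0 : k = 0 := by
      have h3 : (k : ℝ) < 1 := by
        by_contra h3
        push Not at h3
        nlinarith
      have h4 : (-1 : ℝ) < k := by
        by_contra h4
        push Not at h4
        nlinarith
      have h5 : k < 1 := by exact_mod_cast h3
      have h6 : -1 < k := by exact_mod_cast h4
      omega
    rw [hk, hk0]; simp
  rw [Tr.lintegral_normSq_deriv ln_isOpen differentiableOn_cOf (fun z hz => (hA z hz).1) hAm hinj,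
    ENNReal.ofReal_toReal ((measure_mono (qw_bdd hA)).trans_lt measure_ball_lt_top).ne]

/-- one Whitney box of a ray, with the square -/
lemma qw_sq {t h : ℝ} (hh : 0 < h) (hh1 : h ≤ 1) {u v : ℝ} (hu : h / 2 ≤ u) (huv : u ≤ v)
    (hv : v ≤ h) :
    ‖cOf ((v : ℂ) + 2 * Real.pi * t * I) - cOf ((u : ℂ) + 2 * Real.pi * t * I)‖ ^ 2 ≤
      6 * (volume (cOf '' WB t h)).toReal := by
  have hpi := Real.pi_gt_three
  have hA : ∀ z ∈ WB t h, 0 < z.re ∧ z.re ≤ 2 := by
    rintro z ⟨h1, h2, -⟩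
    constructor <;> linarith
  have hA2 : ∀ z ∈ WB t h, ∀ w ∈ WB t h, |z.im - w.im| < 2 * Real.pi := by
    rintro z ⟨-, -, h1⟩ w ⟨-, -, h2⟩
    rw [abs_lt] at h1 h2 ⊢
    constructor <;> linarith
  have h1 := ln_length_sq (f := cOf) (B := WB t h) (γ := fun x : ℝ => (x : ℂ) +
      2 * Real.pi * t * I) (γ' := fun _ : ℝ => 1) (ρ := fun _ => h / 16)
    (a := u) (b := v) (M := 16 / h) (T := h / 8) (E := (volume (cOf '' WB t h)).toReal)
    ln_isOpen differentiableOn_cOf (qw_sub hh) (qw_meas t h) huv (by positivity) ?_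
    (by fun_prop) (by fun_prop) (fun x _ => by positivity) ?_ ?_ ?_
    ENNReal.toReal_nonneg (qw_energy (qw_meas t h) hA hA2).le
  · refine h1.trans ?_
    have hE : 0 ≤ (volume (cOf '' WB t h)).toReal := ENNReal.toReal_nonneg
    have h2 : (v - u) * (16 / h) ^ 2 * (h / 8) * (volume (cOf '' WB t h)).toReal / Real.pi =
        32 * ((volume (cOf '' WB t h)).toReal * ((v - u) / h)) / Real.pi := by
      field_simp
      ring
    rw [h2, div_le_iff₀ (by linarith)]
    have h3 : (v - u) / h ≤ 1 / 2 := by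
      rw [div_le_iff₀ hh]; linarith
    nlinarith [mul_le_mul_of_nonneg_left h3 hE]
  · intro x
    have h2 : HasDerivAt (fun y : ℝ => (y : ℂ)) 1 x := Complex.ofRealCLM.hasDerivAt
    exact h2.add_const _
  · intro x _
    rw [norm_one]
    apply le_of_eq
    field_simp
  · intro x hx z hz
    rw [mem_ball, dist_eq] at hz
    have hre := (abs_re_le_norm _).trans_lt hz
    have him := (abs_im_le_norm _).trans_lt hz
    simp only [sub_re, add_re, ofReal_re, mul_re, re_ofNat, im_ofNat, ofReal_im, I_re, I_im,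
      mul_im, mul_zero, zero_mul, sub_zero, mul_one, add_zero, zero_add, sub_im, add_im,
      sub_self] at hre him
    rw [abs_lt] at hre
    have h2 := hx.1
    have h3 := hx.2
    refine ⟨by linarith, by linarith, him⟩
  · intro w hw
    have hsub : {x | x ∈ Icc u v ∧ w ∈ ball ((x : ℂ) + 2 * Real.pi * t * I) (h / 16)} ⊆
        Icc (w.re - h / 16) (w.re + h / 16) := by
      rintro x ⟨-, hx⟩
      rw [mem_ball, dist_eq] at hx
      have hre := (abs_re_le_norm _).trans_lt hx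
      simp only [sub_re, add_re, ofReal_re, mul_re, re_ofNat, im_ofNat, ofReal_im, I_re, I_im,
        mul_im, mul_zero, zero_mul, sub_zero, mul_one, add_zero, sub_self] at hre
      rw [abs_lt] at hre
      constructor <;> linarith
    refine (measure_mono hsub).trans ?_
    rw [Real.volume_Icc]
    apply ENNReal.ofReal_le_ofReal
    apply le_of_eq
    ring

/-- **Module R1.** -/
theorem q_whitney : Q_whitney := by
  intro t h hh hh1
  have hE : 0 ≤ (volume (cOf '' WB t h)).toReal := ENNReal.toReal_nonneg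
  have key : ∀ u v : ℝ, h / 2 ≤ u → u ≤ v → v ≤ h →
      ‖cOf ((v : ℂ) + 2 * Real.pi * t * I) - cOf ((u : ℂ) + 2 * Real.pi * t * I)‖ ≤
        20 * √((volume (cOf '' WB t h)).toReal) := by
    intro u v hu huv hv
    have h2 := qw_sq (t := t) hh hh1 hu huv hv
    have h4 : ‖cOf ((v : ℂ) + 2 * Real.pi * t * I) - cOf ((u : ℂ) + 2 * Real.pi * t * I)‖ ^ 2 ≤
        (20 * √((volume (cOf '' WB t h)).toReal)) ^ 2 := by
      rw [mul_pow, Real.sq_sqrt hE]
      nlinarith
    exact (abs_le_of_sq_le_sq' h4 (by positivity)).2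
  apply diam_le_of_forall_dist_le (by positivity)
  rintro _ ⟨u, hu, rfl⟩ _ ⟨v, hv, rfl⟩
  rcases le_total u v with huv | huv
  · rw [dist_comm, dist_eq]
    exact key u v hu.1 huv hv.2
  · rw [dist_eq]
    exact key v u hv.1 huv hu.2

end Pool.Agent.Work.MLC.Cnt
end

section
set_option autoImplicit false

/-! # N1b: disjoint arcs use boundedly overlapping areas -/

namespace Pool.Agent.Work.MLC.Cnt

open Filter Topology Metric Set Complex MeasureTheory

lemma exp_aux : Real.exp (2 * 2 + 3 / 16) < 90 := by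
  have h1 := Real.add_one_le_exp (-(3 / 16 : ℝ))
  have h2 : Real.exp (3 / 16 : ℝ) * Real.exp (-(3 / 16 : ℝ)) = 1 := by
    rw [← Real.exp_add]; simp
  have h3 : Real.exp (3 / 16 : ℝ) ≤ 16 / 13 := by
    have h4 := Real.exp_pos (3 / 16 : ℝ)
    nlinarith
  have h5 : Real.exp (2 * 2 : ℝ) = Real.exp 1 ^ 4 := by
    rw [← Real.exp_nat_mul]; norm_num
  have h6 := Real.exp_one_lt_d9
  have h7 : Real.exp 1 ^ 4 ≤ (2.7182818286 : ℝ) ^ 4 :=
    pow_le_pow_left₀ (Real.exp_pos 1).le h6.le 4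
  rw [Real.exp_add, h5]
  calc Real.exp 1 ^ 4 * Real.exp (3 / 16) ≤ (2.7182818286 : ℝ) ^ 4 * (16 / 13) :=
        mul_le_mul h7 h3 (Real.exp_pos _).le (by positivity)
    _ < 90 := by norm_num

/-- the parameters of potential less than `2` have modulus at most `10` -/
lemma norm_le_ten {c : ℂ} (h : G c c ≤ 2) : ‖c‖ ≤ 10 := by
  by_contra hcon
  push Not at hcon
  have h4 := (log_norm_f_le hcon).1
  have h5 : ‖f c c‖ ≤ Real.exp (2 * 2 + 3 / 16) := by
    have h6 : Real.log ‖f c c‖ ≤ 2 * 2 + 3 / 16 := by linarith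
    rwa [Real.log_le_iff_le_exp (by have := (Far_f_self hcon).norm_gt; linarith)] at h6
  have h6 := exp_aux
  have h7 := norm_sq_sub_le c
  nlinarith

end Pool.Agent.Work.MLC.Cnt
end

section
set_option autoImplicit false

/-! # The piece of type II is connected (helper13) -/

namespace Pool.Agent.Work.MLC.Cap

open Filter Topology Metric Set Complex MeasureTheory
open Pool.Agent.Work.MLC.Sat Pool.Agent.Work.MLC.Cnt

/-- PRE: the piece is connected -/
theorem c_pre : C_pre := by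
  intro U V hU hUC hV hVC _ hr
  exact conn_diff (isClosed_limb hU hUC) (isPreconnected_limb hU hUC)
    (fun z hz => (lm_open hV hVC hz).mono fun w hw hwK =>
      hw (insert_subset (rt_mem_MM hU) lm_subset hwK))
    (lm_closure hV hVC) (Or.inr hr) (rt_notMem hV hVC)

end Pool.Agent.Work.MLC.Cap
end

section
set_option autoImplicit false

/-! # Theorem Cap, stage B: the child component with its wide section (helper60) -/

namespace Pool.Agent.Work.MLC.Cap

open Filter Topology Metric Set Complex MeasureTheory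
open Pool.Agent.Work.MLC.Sat Pool.Agent.Work.MLC.Cnt

namespace C60

/-! ### periodic angles have rational rotation numbers -/

lemma tdbl_cases (s x : ℝ) : ∃ k : ℤ, Circ.tdbl s x = 2 * x - k ∨ Circ.tdbl s x = s + k + 1 := by
  refine ⟨⌊x - s / 2⌋, ?_⟩
  have h1 := Int.floor_le (x - s / 2)
  have h2 := Int.lt_floor_add_one (x - s / 2)
  rcases le_total (x - s / 2) (⌊x - s / 2⌋ + 1 / 2) with h | h
  · exact Or.inl (Circ.tdbl_lin _ (by linarith) (by linarith))
  · exact Or.inr (Circ.tdbl_flat _ (by linarith) (by linarith))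

/-- the orbit of a periodic angle under the truncated maps is finite modulo one -/
lemma orb_finite {N : ℕ} (hN : 0 < N) {θ : ℝ} (hθ : ∃ a : ℤ, (2 : ℝ) ^ N * θ - θ = a)
    (w : ℕ → ℤ) (j : ℕ) : ∃ (i : Fin N) (l : ℤ), Circ.gw w θ j θ = 2 ^ (i : ℕ) * θ + l := by
  induction j with
  | zero => exact ⟨⟨0, hN⟩, 0, by simp⟩
  | succ j ih =>
    obtain ⟨i, l, hi⟩ := ih
    obtain ⟨a, ha⟩ := hθ
    obtain ⟨k, hk | hk⟩ := tdbl_cases (θ + w j) (Circ.gw w θ j θ)
    · rcases Nat.lt_or_ge ((i : ℕ) + 1) N with h | h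
      · refine ⟨⟨i + 1, h⟩, 2 * l - k, ?_⟩
        rw [Circ.gw_succ_apply, hk, hi]
        push_cast
        ring
      · refine ⟨⟨0, hN⟩, a + 2 * l - k, ?_⟩
        have h2 : (i : ℕ) + 1 = N := by have := i.2; omega
        have h3 : (2 : ℝ) ^ N * θ = 2 * (2 ^ (i : ℕ) * θ) := by
          have h4 : (2 : ℝ) ^ N = 2 ^ ((i : ℕ) + 1) := by rw [h2]
          rw [h4, pow_succ]; ring
        rw [Circ.gw_succ_apply, hk, hi]
        push_cast
        linear_combination ha - h3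
    · refine ⟨⟨0, hN⟩, w j + k + 1, ?_⟩
      rw [Circ.gw_succ_apply, hk]
      push_cast
      ring

/-- **a periodic angle has a rational rotation number** -/
theorem nu_rat {N n : ℕ} (hN : 0 < N) {θ : ℝ} (hθ : ∃ a : ℤ, (2 : ℝ) ^ N * θ - θ = a)
    {w : ℕ → ℤ} (hw : ∀ i, w (i + n) = w i) : ∃ z : ℚ, Circ.nu w n θ = z := by
  classical
  have h1 : ∀ r : ℕ, ∃ (i : Fin N) (l : ℤ), (Circ.gw w θ n ^ r) θ = 2 ^ (i : ℕ) * θ + l := by
    intro r
    rw [← Circ.gw_mul w θ n r hw]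
    exact orb_finite hN hθ w (n * r)
  choose i l hil using h1
  obtain ⟨r₁, r₂, hne, heq⟩ := Finite.exists_ne_map_eq_of_infinite i
  wlog hlt : r₁ < r₂ generalizing r₁ r₂
  · exact this r₂ r₁ hne.symm heq.symm (lt_of_le_of_ne (not_lt.1 hlt) hne.symm)
  obtain ⟨d, rfl⟩ := Nat.exists_eq_add_of_lt hlt
  have h2 : (Circ.gw w θ n ^ (d + 1)) ((Circ.gw w θ n ^ r₁) θ) =
      (Circ.gw w θ n ^ r₁) θ + ((l (r₁ + d + 1) - l r₁ : ℤ) : ℝ) := by
    have h3 : (Circ.gw w θ n ^ (d + 1)) ((Circ.gw w θ n ^ r₁) θ) =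
        (Circ.gw w θ n ^ (r₁ + d + 1)) θ := by
      rw [show r₁ + d + 1 = (d + 1) + r₁ by ring, pow_add (Circ.gw w θ n) (d + 1) r₁]
      rfl
    rw [h3, hil, hil r₁, ← heq]
    push_cast
    ring
  have h3 := CircleDeg1Lift.translationNumber_of_map_pow_eq_add_int _ h2 (Nat.succ_pos d)
  refine ⟨((l (r₁ + d + 1) - l r₁ : ℤ) : ℚ) / ((d + 1 : ℕ) : ℚ), ?_⟩
  unfold Circ.nu
  rw [h3]
  push_cast
  rfl

end C60

end Pool.Agent.Work.MLC.Cap
end

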