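import Pool.Agent.Work.MLCM.C34
import Pool.Agent.Work.MLCM.C46
import Pool.Agent.Work.MLCM.C54
import Pool.Agent.Work.MLCM.C62
import Pool.Prelude.Def_F_c31e40fa

section
set_option autoImplicit false

/-! # Characteristic arcs do not cross (helper60)

Two characteristic arcs (limbs in the parameter circle) are nested or disjoint, and the label
intervals of two different components are nested through a limb or disjoint. -/

namespace Pool.Agent.Work.MLC

open Set Circ CircleDeg1Lift Filter Topology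

/-- one step of `linked_pairs` -/
theorem linked_pairs_step {w w' : ℕ → ℤ} (hw : ∀ i, w i = 0 ∨ w i = 1)
    (hw' : ∀ i, w' i = 0 ∨ w' i = 1) {θ a b c d : ℝ}
    (ha : Compat a θ w) (hb : Compat b θ w') (hc : Compat c θ w) (hd : Compat d θ w') {i : ℕ}
    {ka kb kc kd : ℤ} (h1 : 2 ^ i * a + ka ≤ 2 ^ i * b + kb)
    (h2 : 2 ^ i * b + kb ≤ 2 ^ i * c + kc) (h3 : 2 ^ i * c + kc ≤ 2 ^ i * d + kd)
    (h4 : 2 ^ i * d + kd ≤ 2 ^ i * a + ka + 1) :
    w i = w' i ∧ ∃ ka kb kc kd : ℤ, 2 ^ (i + 1) * a + ka ≤ 2 ^ (i + 1) * b + kb ∧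
      2 ^ (i + 1) * b + kb ≤ 2 ^ (i + 1) * c + kc ∧ 2 ^ (i + 1) * c + kc ≤ 2 ^ (i + 1) * d + kd ∧
      2 ^ (i + 1) * d + kd ≤ 2 ^ (i + 1) * a + ka + 1 := by
  obtain ⟨ma, a1, a2⟩ := ha i
  obtain ⟨mb, b1, b2⟩ := hb i
  obtain ⟨mc, c1, c2⟩ := hc i
  obtain ⟨md, d1, d2⟩ := hd i
  have key : ∀ (u v : ℤ) (p r : ℝ) (ep er : ℤ),
      (θ + ep) / 2 + u < p → r < (θ + er) / 2 + v + 1 / 2 → p ≤ r → ep + 2 * u ≤ er + 2 * v := by
    intro u v p r ep er h1 h4 h5
    have : ((ep + 2 * u : ℤ) : ℝ) < ((er + 2 * v + 1 : ℤ) : ℝ) := by push_cast; linarith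
    have h6 : ep + 2 * u < er + 2 * v + 1 := by exact_mod_cast this
    omega
  have k1 := key (ma + ka) (mb + kb) _ _ (w i) (w' i) (by push_cast; linarith)
    (by push_cast; linarith) h1
  have k2 := key (mb + kb) (mc + kc) _ _ (w' i) (w i) (by push_cast; linarith)
    (by push_cast; linarith) h2
  have k3 := key (mc + kc) (md + kd) _ _ (w i) (w' i) (by push_cast; linarith)
    (by push_cast; linarith) h3
  have k4 := key (md + kd) (ma + ka + 1) _ (2 ^ i * a + ka + 1) (w' i) (w i)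
    (by push_cast; linarith) (by push_cast; linarith) h4
  have he : w i = w' i := by
    rcases hw i with h | h <;> rcases hw' i with h' | h' <;> omega
  refine ⟨he, ?_⟩
  have ta : tdbl (θ + w i) (2 ^ i * a + ka) = 2 * (2 ^ i * a + ka) - (ma + ka : ℤ) :=
    tdbl_lin (ma + ka) (by push_cast; linarith) (by push_cast; linarith)
  have tb : tdbl (θ + w i) (2 ^ i * b + kb) = 2 * (2 ^ i * b + kb) - (mb + kb : ℤ) := by
    rw [he]; exact tdbl_lin (mb + kb) (by push_cast; linarith) (by push_cast; linarith)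
  have tc : tdbl (θ + w i) (2 ^ i * c + kc) = 2 * (2 ^ i * c + kc) - (mc + kc : ℤ) :=
    tdbl_lin (mc + kc) (by push_cast; linarith) (by push_cast; linarith)
  have td : tdbl (θ + w i) (2 ^ i * d + kd) = 2 * (2 ^ i * d + kd) - (md + kd : ℤ) := by
    rw [he]; exact tdbl_lin (md + kd) (by push_cast; linarith) (by push_cast; linarith)
  have m1 := (tdbl (θ + w i)).monotone h1
  have m2 := (tdbl (θ + w i)).monotone h2
  have m3 := (tdbl (θ + w i)).monotone h3
  have m4 := (tdbl (θ + w i)).monotone h4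
  rw [map_add_one] at m4
  rw [ta, tb] at m1
  rw [tb, tc] at m2
  rw [tc, td] at m3
  rw [td, ta] at m4
  refine ⟨ka - ma, kb - mb, kc - mc, kd - md, ?_, ?_, ?_, ?_⟩ <;> push_cast at * <;>
    simp only [pow_succ] <;> linarith

/-- **unlinking**: (weakly) linked pairs of angles with equal itineraries have the same itinerary -/
theorem linked_pairs {w w' : ℕ → ℤ} (hw : ∀ i, w i = 0 ∨ w i = 1) (hw' : ∀ i, w' i = 0 ∨ w' i = 1)
    {θ a b c d : ℝ} (h1 : a ≤ b) (h2 : b ≤ c) (h3 : c ≤ d) (h4 : d ≤ a + 1)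
    (ha : Compat a θ w) (hb : Compat b θ w') (hc : Compat c θ w) (hd : Compat d θ w') :
    w = w' := by
  have key : ∀ i : ℕ, ∃ ka kb kc kd : ℤ, 2 ^ i * a + ka ≤ 2 ^ i * b + kb ∧
      2 ^ i * b + kb ≤ 2 ^ i * c + kc ∧ 2 ^ i * c + kc ≤ 2 ^ i * d + kd ∧
      2 ^ i * d + kd ≤ 2 ^ i * a + ka + 1 := by
    intro i
    induction i with
    | zero => exact ⟨0, 0, 0, 0, by simpa using ⟨h1, h2, h3, h4⟩⟩
    | succ i ih =>
      obtain ⟨ka, kb, kc, kd, e1, e2, e3, e4⟩ := ih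
      exact (linked_pairs_step hw hw' ha hb hc hd e1 e2 e3 e4).2
  funext i
  obtain ⟨ka, kb, kc, kd, e1, e2, e3, e4⟩ := key i
  exact (linked_pairs_step hw hw' ha hb hc hd e1 e2 e3 e4).1

/-- **two proper powers do not differ in one letter** -/
theorem proper_powers {n N N' : ℕ} {w w' : ℕ → ℤ} (hw : ∀ i, w (i + N) = w i)
    (hw' : ∀ i, w' (i + N') = w' i) (hN : 0 < N) (hN' : 0 < N') (h2 : 2 * N ≤ n) (h2' : 2 * N' ≤ n)
    (h : ∀ i, i + 1 < n → w i = w' i) : w (n - 1) = w' (n - 1) := by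
  have e1 : ∀ j, N ≤ j → w j = w (j - N) := fun j hj => by
    have := hw (j - N); rwa [Nat.sub_add_cancel hj] at this
  have e2 : ∀ j, N' ≤ j → w' j = w' (j - N') := fun j hj => by
    have := hw' (j - N'); rwa [Nat.sub_add_cancel hj] at this
  by_cases hNN : N + N' < n
  · calc w (n - 1) = w (n - 1 - N) := e1 _ (by omega)
      _ = w' (n - 1 - N) := h _ (by omega)
      _ = w' (n - 1 - N - N') := e2 _ (by omega)
      _ = w (n - 1 - N - N') := (h _ (by omega)).symm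
      _ = w (n - 1 - N' - N) := by congr 1; omega
      _ = w (n - 1 - N') := (e1 _ (by omega)).symm
      _ = w' (n - 1 - N') := h _ (by omega)
      _ = w' (n - 1) := (e2 _ (by omega)).symm
  · have h3 : N = N' := by omega
    subst h3
    rw [e1 _ (by omega), e2 _ (by omega)]
    exact h _ (by omega)

/-- exact periods of a word agree -/
theorem word_period_unique {N N' : ℕ} {w : ℕ → ℤ} (hN : 0 < N) (hN' : 0 < N') (h : Word N w)
    (h' : Word N' w) : N = N' := by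
  rcases lt_trichotomy N N' with h1 | h1 | h1
  · obtain ⟨i, hi⟩ := h'.2.2 N hN h1
    exact absurd (h.2.1 i) hi
  · exact h1
  · obtain ⟨i, hi⟩ := h.2.2 N' hN' h1
    exact absurd (h'.2.1 i) hi

namespace CA

variable {N q N' q' : ℕ} {w w' : ℕ → ℤ} {s t s' t' : ℝ}

theorem q_pos (h : CA N q w s t) : 0 < q := by have := h.two; omega

/-- rotation numbers on the arc are not integers -/
theorem nu_ne_int (h : CA N q w s t) {θ : ℝ} (h1 : s ≤ θ) (h2 : θ ≤ t) (k : ℤ) :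
    nu w N θ ≠ k := by
  obtain ⟨P, hP, hnu⟩ := h.nu_w
  rw [hnu θ h1 h2]
  intro he
  have hq : (0 : ℝ) < q := by exact_mod_cast h.q_pos
  rw [div_eq_iff hq.ne'] at he
  have h3 : P = k * (q : ℤ) := by exact_mod_cast he
  have h4 : IsUnit (q : ℤ) := hP.isUnit_of_dvd' ⟨k, by rw [h3]; ring⟩ dvd_rfl
  have h5 := Int.isUnit_iff.1 h4
  have := h.two
  omega

/-- no integer is in the closed arc -/
theorem not_int (h : CA N q w s t) {k : ℤ} (h1 : s ≤ k) (h2 : (k : ℝ) ≤ t) : False := by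
  obtain ⟨Q, P, hQ, hQ1, hnu⟩ := weak_gap w N 1 one_pos (θ := k) ⟨k, by ring⟩
  have : Q = 1 := by omega
  subst this
  exact h.nu_ne_int h1 h2 P (by rw [hnu]; simp)

theorem floor_eq (h : CA N q w s t) {x : ℝ} (h1 : s ≤ x) (h2 : x ≤ t) : ⌊x⌋ = ⌊s⌋ := by
  by_contra hne
  have h3 : ⌊s⌋ ≤ ⌊x⌋ := Int.floor_le_floor h1
  have h4 : s < ⌊x⌋ := by
    have h5 : ⌊s⌋ + 1 ≤ ⌊x⌋ := by omega
    have h6 : ((⌊s⌋ + 1 : ℤ) : ℝ) ≤ ⌊x⌋ := by exact_mod_cast h5
    push_cast at h6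
    exact (Int.lt_floor_add_one s).trans_le h6
  exact h.not_int h4.le ((Int.floor_le x).trans h2)

/-- `t` is compatible, too -/
theorem compat_t (h : CA N q w s t) {θ : ℝ} (h1 : s < θ) (h2 : θ < t) : Compat t θ w := by
  have := compat_of_mem h.word.2.1 (h.compat θ h1 h2) h.mem
  simpa using this

/-- the period of `s` -/
theorem period_dvd (h : CA N q w s t) {n : ℕ} (hn : ∃ a : ℤ, 2 ^ n * s - s = a) : N * q ∣ n := by
  obtain ⟨a, ha⟩ := hn
  exact h.dvd_of_per (x := s) ⟨0, 0, by simp⟩ (m := a) (by linarith)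

theorem period_dvd_t (h : CA N q w s t) {n : ℕ} (hn : ∃ a : ℤ, 2 ^ n * t - t = a) : N * q ∣ n := by
  obtain ⟨a, ha⟩ := hn
  exact h.dvd_of_per (x := t) h.mem (m := a) (by linarith)

/-- two arcs with the same word and a common angle are equal -/
theorem eq_of_word (h : CA N q w s t) (h' : CA N' q' w s' t') {θ : ℝ} (h1 : s ≤ θ) (h2 : θ ≤ t)
    (h3 : s' ≤ θ) (h4 : θ ≤ t') : N = N' ∧ q = q' ∧ s = s' ∧ t = t' := by
  obtain rfl := word_period_unique h.pos h'.pos h.word h'.word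
  obtain ⟨P, hP, hnu⟩ := h.nu_w
  obtain ⟨P', hP', hnu'⟩ := h'.nu_w
  have hq : (0 : ℝ) < q := by exact_mod_cast h.q_pos
  have hq' : (0 : ℝ) < q' := by exact_mod_cast h'.q_pos
  have he : (P : ℝ) / q = P' / q' := by rw [← hnu θ h1 h2, ← hnu' θ h3 h4]
  have hqq : q = q' := by
    rw [div_eq_div_iff hq.ne' hq'.ne'] at he
    have he' : P * (q' : ℤ) = P' * (q : ℤ) := by exact_mod_cast he
    have d1 : (q : ℤ) ∣ q' := by
      have : (q : ℤ) ∣ P * (q' : ℤ) := ⟨P', by rw [he']; ring⟩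
      exact hP.symm.dvd_of_dvd_mul_left this
    have d2 : (q' : ℤ) ∣ q := by
      have : (q' : ℤ) ∣ P' * (q : ℤ) := ⟨P, by rw [← he']; ring⟩
      exact hP'.symm.dvd_of_dvd_mul_left this
    exact Nat.dvd_antisymm (by exact_mod_cast d1) (by exact_mod_cast d2)
  subst hqq
  have hPP : (P : ℝ) / q = P' / q := he
  have p1 := h.plateau hP hnu
  have p2 := h'.plateau hP' hnu'
  have hset : ∀ θ, (s ≤ θ ∧ θ ≤ t) ↔ (s' ≤ θ ∧ θ ≤ t') := fun θ => by
    rw [← p1 θ, ← p2 θ, hPP]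
  have hst := h.lt
  have hst' := h'.lt
  have a1 := ((hset s).1 ⟨le_rfl, hst.le⟩)
  have a2 := ((hset t).1 ⟨hst.le, le_rfl⟩)
  have a3 := ((hset s').2 ⟨le_rfl, hst'.le⟩)
  have a4 := ((hset t').2 ⟨hst'.le, le_rfl⟩)
  exact ⟨rfl, rfl, le_antisymm a3.1 a1.1, le_antisymm a2.2 a4.2⟩

/-- **characteristic arcs are not adjacent** -/
theorem not_adjacent (h : CA N q w s t) (h' : CA N' q' w' s' t') (he : s = t') : False := by
  have hn : N * q = N' * q' := by
    apply Nat.dvd_antisymm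
    · refine h.period_dvd ?_
      rw [he]; exact h'.per_t
    · refine h'.period_dvd_t ?_
      rw [← he]; exact h.per_s
  have hst := h.lt
  have hst' := h'.lt
  have hb := h.word.1
  have hb' := h'.word.1
  have hpos := h.npos
  have h2 := h.two
  have h2' := h'.two
  -- equal letters
  have heq : ∀ i, i + 1 < N * q → w i = w' i := by
    intro i hi
    obtain ⟨k, k1, k2, k3, -⟩ := h.s_pos i
    obtain ⟨k', l1, l2, l3, -⟩ := h'.t_pos i
    have hmod : (i + 1) % (N * q) ≠ 0 := by rw [Nat.mod_eq_of_lt hi]; omega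
    have k3' := lt_of_le_of_ne k2 (k3 hmod)
    have l3' := lt_of_le_of_ne l1 (Ne.symm (l3 (by rw [← hn]; exact hmod)))
    rw [← he] at l1 l2 l3'
    have e1 : ((w' i - w i + 2 * k' - 2 * k : ℤ) : ℝ) < 1 := by push_cast; linarith
    have e2 : (-1 : ℝ) < ((w' i - w i + 2 * k' - 2 * k : ℤ) : ℝ) := by push_cast; linarith
    have e3 : w' i - w i + 2 * k' - 2 * k < 1 := by exact_mod_cast e1
    have e4 : -1 < w' i - w i + 2 * k' - 2 * k := by exact_mod_cast e2
    rcases hb i with h | h <;> rcases hb' i with h' | h' <;> omega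
  -- the last letters are different
  have hne : w (N * q - 1) ≠ w' (N * q - 1) := by
    obtain ⟨k, -, -, -, k4⟩ := h.s_pos (N * q - 1)
    obtain ⟨k', -, -, -, l4⟩ := h'.t_pos (N * q - 1)
    have e1 := k4 (by rw [Nat.sub_add_cancel hpos, Nat.mod_self])
    have e2 := l4 (by rw [Nat.sub_add_cancel hpos, ← hn, Nat.mod_self])
    rw [← he] at e2
    intro heq
    rw [← heq] at e2
    have e3 : ((2 * (k' - k) : ℤ) : ℝ) = ((1 : ℤ) : ℝ) := by push_cast; linarith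
    have e4 : 2 * (k' - k) = 1 := by exact_mod_cast e3
    omega
  exact hne (proper_powers h.word.2.1 h'.word.2.1 h.pos h'.pos
    (by rw [mul_comm]; exact Nat.mul_le_mul_left N h2)
    (by rw [hn, mul_comm]; exact Nat.mul_le_mul_left N' h2') heq)

/-- **arcs do not cross** -/
theorem cross (h : CA N q w s t) (h' : CA N' q' w' s' t') (h1 : s' ≤ s) (h2 : s ≤ t') : t ≤ t' := by
  by_contra hcon
  push Not at hcon
  rcases h2.eq_or_lt with h2 | h2
  · exact h.not_adjacent h' h2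
  have hst := h.lt
  obtain ⟨θ, h3, h4⟩ := exists_between h2
  have h5 : t ≤ s' + 1 := by
    have e1 := h.floor_eq hst.le le_rfl
    have e2 := h'.floor_eq h1 h2.le
    have e3 := Int.lt_floor_add_one t
    have e4 := Int.floor_le s'
    rw [e1, e2] at e3
    linarith
  have hww := linked_pairs h'.word.1 h.word.1 h1 h2.le hcon.le h5
    (h'.compat θ (h1.trans_lt h3) h4) (h.compat θ h3 (h4.trans hcon))
    (h'.compat_t (h1.trans_lt h3) h4) (h.compat_t h3 (h4.trans hcon))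
  subst hww
  obtain ⟨-, -, -, h6⟩ := h.eq_of_word h' h3.le (h4.trans hcon).le (h1.trans h3.le) h4.le
  exact hcon.ne' h6

/-- **arcs do not cross**, mirror image -/
theorem cross' (h : CA N q w s t) (h' : CA N' q' w' s' t') (h1 : s' ≤ t) (h2 : t ≤ t') : s' ≤ s := by
  by_contra hcon
  push Not at hcon
  rcases h1.eq_or_lt with h1 | h1
  · exact h'.not_adjacent h h1
  obtain ⟨θ, h3, h4⟩ := exists_between h1
  have hst' := h'.lt
  have h5 : t' ≤ s + 1 := by
    have e1 := h.floor_eq hcon.le h1.le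
    have e2 := h'.floor_eq hst'.le le_rfl
    have e3 := Int.lt_floor_add_one t'
    have e4 := Int.floor_le s
    rw [e2, e1] at e3
    linarith
  have hww := linked_pairs h.word.1 h'.word.1 hcon.le h1.le h2 h5
    (h.compat θ (hcon.trans h3) h4) (h'.compat θ h3 (h4.trans_le h2))
    (h.compat_t (hcon.trans h3) h4) (h'.compat_t h3 (h4.trans_le h2))
  subst hww
  obtain ⟨-, -, h6, -⟩ := h.eq_of_word h' (hcon.trans h3).le h4.le h3.le (h4.trans_le h2).le
  exact hcon.ne h6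

/-- equal arcs have equal words -/
theorem word_eq_of_eq (h : CA N q w s t) (h' : CA N' q' w' s t) : w = w' := by
  obtain ⟨θ, h3, h4⟩ := exists_between h.lt
  exact linked_pairs h.word.1 h'.word.1 le_rfl le_rfl le_rfl (by linarith)
    (h.compat θ h3 h4) (h'.compat θ h3 h4) (h.compat θ h3 h4) (h'.compat θ h3 h4)

end CA

/-- a rational number which is not an integer, in lowest terms -/
theorem lowest_terms {x : ℝ} {P : ℤ} {Q : ℕ} {κ : ℤ} (hx : x = P / Q) (h1 : κ < x)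
    (h2 : x < κ + 1) : ∃ (P' : ℤ) (q : ℕ), 2 ≤ q ∧ IsCoprime P' (q : ℤ) ∧ x = P' / q := by
  set r : ℚ := (P : ℚ) / Q with hr
  have hxr : x = (r : ℝ) := by rw [hx, hr]; push_cast; ring
  have hx2 : x = (r.num : ℝ) / (r.den : ℝ) := by
    rw [hxr]; exact_mod_cast (Rat.num_div_den r).symm
  have hd : 0 < r.den := r.den_pos
  refine ⟨r.num, r.den, ?_, ?_, hx2⟩
  · by_contra hcon
    have h3 : r.den = 1 := by omega
    rw [h3] at hx2
    simp only [Nat.cast_one, div_one] at hx2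
    rw [hx2] at h1 h2
    have h4 : κ < r.num := by exact_mod_cast h1
    have h5 : r.num < κ + 1 := by exact_mod_cast h2
    omega
  · exact Int.isCoprime_iff_gcd_eq_one.2 r.reduced

/-- the arc (limb) of a component through a periodic angle inside its label interval -/
theorem exists_arc_at {N : ℕ} (hN : 0 < N) {w : ℕ → ℤ} (hw : Word N w) {κ : ℤ} {θ : ℝ} {P : ℤ}
    {Q : ℕ} (hθ : nu w N θ = P / Q) (h1 : κ < nu w N θ) (h2 : nu w N θ < κ + 1) :
    ∃ i₀ < N, ∃ (s t : ℝ) (P : ℤ) (q : ℕ), CA N q (fun j => w (i₀ + j)) s t ∧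
      IsCoprime P (q : ℤ) ∧ nu w N θ = P / q ∧ ∀ θ', nu w N θ' = P / q ↔ s ≤ θ' ∧ θ' ≤ t := by
  obtain ⟨P', q, hq, hcop, he⟩ := lowest_terms hθ h1 h2
  obtain ⟨i₀, hi₀, s, t, hCA, hpl⟩ := exists_arc hN hq hw hcop
  refine ⟨i₀, hi₀, s, t, P', q, hCA, hcop, he, fun θ' => ?_⟩
  rw [← hpl θ', nu_shift_word w N hw.2.1]

theorem nu_at_periodic {N : ℕ} (w : ℕ → ℤ) {θ : ℝ} {n : ℕ} (hn : 0 < n)
    (h : ∃ a : ℤ, 2 ^ n * θ - θ = a) : ∃ (P : ℤ) (Q : ℕ), nu w N θ = P / Q := by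
  obtain ⟨Q, P, -, -, h3⟩ := weak_gap w N n hn h
  exact ⟨P, Q, h3⟩

/-- the same word up to a shift -/
def SameWord (N N' : ℕ) (w w' : ℕ → ℤ) : Prop := N = N' ∧ ∃ i < N, ∀ j, w' j = w (i + j)

theorem SameWord.symm {N N' : ℕ} {w w' : ℕ → ℤ} (hN : 0 < N) (hw : ∀ i, w (i + N) = w i)
    (h : SameWord N N' w w') : SameWord N' N w' w := by
  obtain ⟨rfl, i, hi, h⟩ := h
  rcases Nat.eq_zero_or_pos i with h0 | h0
  · subst h0
    exact ⟨rfl, 0, hN, fun j => by rw [h, Nat.zero_add, Nat.zero_add]⟩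
  · refine ⟨rfl, N - i, by omega, fun j => ?_⟩
    rw [h, show i + (N - i + j) = j + N by omega, hw]

theorem sameWord_of_shift {N N' : ℕ} {w w' : ℕ → ℤ} {i i' : ℕ} (hN : 0 < N) (hN' : 0 < N')
    (hi' : i' < N') (hw : Word N w) (hw' : Word N' w')
    (h : (fun j => w (i + j)) = fun j => w' (i' + j)) : SameWord N N' w w' := by
  have e : ∀ j, w (i + j) = w' (i' + j) := fun j => congrFun h j
  -- periods agree
  have hNN : N = N' := by
    have h1 : Word N (fun j => w (i + j)) := by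
      refine ⟨fun j => hw.1 _, fun j => ?_, fun d hd hdN => ?_⟩
      · show w (i + (j + N)) = w (i + j)
        rw [← add_assoc, hw.2.1]
      · by_contra hcon
        push Not at hcon
        obtain ⟨l, hl⟩ := hw.2.2 d hd hdN
        apply hl
        have h2 := hcon (l + N * i - i)
        have h3 : i ≤ N * i := Nat.le_mul_of_pos_left i hN
        have e1 : i + (l + N * i - i + d) = (l + d) + N * i := by omega
        have e2 : i + (l + N * i - i) = l + N * i := by omega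
        rw [e1, e2, word_mod hw.2.1, word_mod hw.2.1] at h2
        exact h2
    have h1' : Word N' (fun j => w' (i' + j)) := by
      refine ⟨fun j => hw'.1 _, fun j => ?_, fun d hd hdN => ?_⟩
      · show w' (i' + (j + N')) = w' (i' + j)
        rw [← add_assoc, hw'.2.1]
      · by_contra hcon
        push Not at hcon
        obtain ⟨l, hl⟩ := hw'.2.2 d hd hdN
        apply hl
        have h2 := hcon (l + N' * i' - i')
        have h3 : i' ≤ N' * i' := Nat.le_mul_of_pos_left i' hN'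
        have e1 : i' + (l + N' * i' - i' + d) = (l + d) + N' * i' := by omega
        have e2 : i' + (l + N' * i' - i') = l + N' * i' := by omega
        rw [e1, e2, word_mod hw'.2.1, word_mod hw'.2.1] at h2
        exact h2
    rw [h] at h1
    exact word_period_unique hN hN' h1 h1'
  subst hNN
  refine ⟨rfl, (i + (N - i')) % N, Nat.mod_lt _ hN, fun j => ?_⟩
  have h2 := e (N - i' + j)
  rw [show i' + (N - i' + j) = j + N by omega, hw'.2.1] at h2
  rw [← h2]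
  have h3 := word_mod hw.2.1 ((i + (N - i')) % N + j) ((i + (N - i')) / N)
  have h4 := Nat.mod_add_div (i + (N - i')) N
  rw [← h3]
  congr 1
  omega

theorem SameWord.nu_eq {N N' : ℕ} {w w' : ℕ → ℤ} (hw : ∀ i, w (i + N) = w i)
    (h : SameWord N N' w w') (θ : ℝ) : nu w' N' θ = nu w N θ := by
  obtain ⟨rfl, i, -, h⟩ := h
  have e : w' = fun j => w (i + j) := funext h
  rw [e, nu_shift_word w N hw]

/-- the key step of `nest`: the left end of the intersection belongs to the interval of `w` -/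
theorem nest_aux {N N' : ℕ} (hN : 0 < N) (hN' : 0 < N') {w w' : ℕ → ℤ} (hw : Word N w)
    (hw' : Word N' w') {κ κ' : ℤ} {a θ₀ : ℝ} (ha : nu w N a = κ)
    (h1 : κ < nu w N θ₀) (h2 : nu w N θ₀ < κ + 1)
    (h3 : ∀ θ, a < θ → θ ≤ θ₀ → κ' < nu w' N' θ) (h4 : nu w' N' θ₀ < κ' + 1) :
    SameWord N N' w w' ∨ ∃ (P : ℤ) (q : ℕ), 2 ≤ q ∧ IsCoprime P (q : ℤ) ∧
      (κ' : ℝ) < P / q ∧ (P : ℝ) / q < κ' + 1 ∧
      ∀ θ, κ < nu w N θ → nu w N θ < κ + 1 → nu w' N' θ = P / q := by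
  obtain ⟨r, hr1, hr2⟩ := exists_rat_btwn h1
  have hrr : (r : ℝ) = (r.num : ℝ) / (r.den : ℝ) := by exact_mod_cast (Rat.num_div_den r).symm
  -- the limb of this value
  obtain ⟨P, q, hq, hcop, he⟩ := lowest_terms hrr hr1 (hr2.trans h2)
  rw [he] at hr1 hr2
  obtain ⟨i₀, hi₀, s, t, hCA, hpl⟩ := exists_arc hN hq hw hcop
  have hpl' : ∀ θ', nu w N θ' = P / q ↔ s ≤ θ' ∧ θ' ≤ t := fun θ' => by
    rw [← hpl θ', nu_shift_word w N hw.2.1]
  have hst := hCA.lt
  have hs : nu w N s = P / q := (hpl' s).2 ⟨le_rfl, hst.le⟩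
  have ht : nu w N t = P / q := (hpl' t).2 ⟨hst.le, le_rfl⟩
  have has : a < s := by
    by_contra hcon
    have := nu_mono w N (not_lt.1 hcon)
    rw [ha, hs] at this
    linarith
  have htθ : t < θ₀ := by
    by_contra hcon
    have := nu_mono w N (not_lt.1 hcon)
    rw [ht] at this
    linarith
  -- the limb of `w'` which contains `s`
  obtain ⟨P₁, Q₁, hw's⟩ := nu_at_periodic (N := N') w' hCA.npos hCA.per_s
  have hs1 : κ' < nu w' N' s := h3 s has (hst.trans htθ).le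
  have hs2 : nu w' N' s < κ' + 1 := (nu_mono w' N' (hst.trans htθ).le).trans_lt h4
  obtain ⟨i₁, hi₁, s', t', P', q', hCA', hcop', hs', hpl''⟩ := exists_arc_at hN' hw' hw's hs1 hs2
  have hss : s' ≤ s ∧ s ≤ t' := (hpl'' s).1 hs'
  have htt := hCA.cross hCA' hss.1 hss.2
  by_cases hend : (κ < nu w N s' ∧ nu w N s' < κ + 1) ∨ (κ < nu w N t' ∧ nu w N t' < κ + 1)
  · -- the arcs agree
    left
    have key : s = s' ∧ t = t' := by
      rcases hend with ⟨g1, g2⟩ | ⟨g1, g2⟩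
      · obtain ⟨P₂, Q₂, hws⟩ := nu_at_periodic (N := N) w hCA'.npos hCA'.per_s
        obtain ⟨i₂, hi₂, s₂, t₂, P₂', q₂, hCA₂, hcop₂, hs₂, hpl₂⟩ := exists_arc_at hN hw hws g1 g2
        have hss₂ := (hpl₂ s').1 hs₂
        have htt₂ := hCA'.cross hCA₂ hss₂.1 hss₂.2
        have hval : nu w N s = P₂' / q₂ := (hpl₂ s).2 ⟨hss₂.1.trans hss.1,
          (hst.le.trans htt).trans htt₂⟩
        rw [hs] at hval
        have e1 := (hpl' s₂).1 (by rw [hval]; exact (hpl₂ s₂).2 ⟨le_rfl, hCA₂.lt.le⟩)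
        have e2 := (hpl' t₂).1 (by rw [hval]; exact (hpl₂ t₂).2 ⟨hCA₂.lt.le, le_rfl⟩)
        exact ⟨le_antisymm (e1.1.trans hss₂.1) hss.1, le_antisymm htt (htt₂.trans e2.2)⟩
      · obtain ⟨P₂, Q₂, hws⟩ := nu_at_periodic (N := N) w hCA'.npos hCA'.per_t
        obtain ⟨i₂, hi₂, s₂, t₂, P₂', q₂, hCA₂, hcop₂, hs₂, hpl₂⟩ := exists_arc_at hN hw hws g1 g2
        have hss₂ := (hpl₂ t').1 hs₂
        have htt₂ := hCA'.cross' hCA₂ hss₂.1 hss₂.2
        have hval : nu w N s = P₂' / q₂ := (hpl₂ s).2 ⟨htt₂.trans hss.1,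
          (hst.le.trans htt).trans hss₂.2⟩
        rw [hs] at hval
        have e1 := (hpl' s₂).1 (by rw [hval]; exact (hpl₂ s₂).2 ⟨le_rfl, hCA₂.lt.le⟩)
        have e2 := (hpl' t₂).1 (by rw [hval]; exact (hpl₂ t₂).2 ⟨hCA₂.lt.le, le_rfl⟩)
        exact ⟨le_antisymm (e1.1.trans htt₂) hss.1, le_antisymm htt (hss₂.2.trans e2.2)⟩
    obtain ⟨rfl, rfl⟩ := key
    exact sameWord_of_shift hN hN' hi₁ hw hw' (hCA.word_eq_of_eq hCA')
  · right
    push Not at hend
    obtain ⟨g1, g2⟩ := hend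
    have hsA1 : κ < nu w N s := by rw [hs]; exact hr1
    have hsA2 : nu w N s < κ + 1 := by rw [hs]; exact hr2.trans h2
    have htA1 : κ < nu w N t := by rw [ht]; exact hr1
    have htA2 : nu w N t < κ + 1 := by rw [ht]; exact hr2.trans h2
    rw [hs'] at hs1 hs2
    refine ⟨P', q', hCA'.two, hcop', hs1, hs2, fun θ hθ1 hθ2 => (hpl'' θ).2 ⟨?_, ?_⟩⟩
    · by_contra hcon
      push Not at hcon
      have e1 : κ < nu w N s' := hθ1.trans_le (nu_mono w N hcon.le)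
      have e2 : nu w N s' < κ + 1 := (nu_mono w N hss.1).trans_lt hsA2
      exact absurd e2 (not_lt.2 (g1 e1))
    · by_contra hcon
      push Not at hcon
      have e1 : κ < nu w N t' := htA1.trans_le (nu_mono w N htt)
      have e2 : nu w N t' < κ + 1 := (nu_mono w N hcon.le).trans_lt hθ2
      exact absurd e2 (not_lt.2 (g2 e1))

/-- the left end of a label interval -/
theorem exists_left_end (w : ℕ → ℤ) {N : ℕ} (hN : 0 < N) {κ : ℤ} {θ₀ : ℝ} (h : κ < nu w N θ₀) :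
    ∃ a < θ₀, nu w N a = κ ∧ ∀ θ, a < θ → κ < nu w N θ := by
  obtain ⟨m, hm⟩ : ∃ m : ℕ, nu w N θ₀ - m * N ≤ κ := by
    obtain ⟨m, hm⟩ := exists_nat_gt (nu w N θ₀ - κ)
    refine ⟨m, ?_⟩
    have h1 : (1 : ℝ) ≤ N := by exact_mod_cast hN
    nlinarith [(Nat.cast_nonneg m : (0 : ℝ) ≤ m)]
  have hlow : ∀ m : ℕ, nu w N (θ₀ - 2 * m) = nu w N θ₀ - m * N := by
    intro m
    induction m with
    | zero => simp
    | succ m ih =>
      have h1 := nu_add_two w (θ₀ - 2 * ((m + 1 : ℕ) : ℝ)) N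
      rw [show θ₀ - 2 * ((m + 1 : ℕ) : ℝ) + 2 = θ₀ - 2 * m by push_cast; ring, ih] at h1
      push_cast at h1 ⊢
      linarith
  set S : Set ℝ := {θ | nu w N θ ≤ κ} with hS
  have hne : S.Nonempty := ⟨θ₀ - 2 * m, by rw [hS]; show nu w N (θ₀ - 2 * m) ≤ κ; rw [hlow]; exact hm⟩
  have hbd : BddAbove S := ⟨θ₀, fun θ hθ => by
    by_contra hcon
    exact absurd (h.trans_le (nu_mono w N (not_le.1 hcon).le)) (not_lt.2 hθ)⟩
  have hcl : IsClosed S := isClosed_le (nu_continuous w N) continuous_const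
  have hmem : sSup S ∈ S := hcl.csSup_mem hne hbd
  have hgt : ∀ θ, sSup S < θ → κ < nu w N θ := fun θ hθ => by
    by_contra hcon
    exact absurd (le_csSup hbd (not_lt.1 hcon : θ ∈ S)) (not_le.2 hθ)
  have hval : nu w N (sSup S) = κ := by
    refine le_antisymm hmem ?_
    have h1 : Tendsto (nu w N) (𝓝[>] sSup S) (𝓝 (nu w N (sSup S))) :=
      (nu_continuous w N).continuousAt.tendsto.mono_left nhdsWithin_le_nhds
    exact ge_of_tendsto h1 (eventually_nhdsWithin_of_forall fun θ hθ => (hgt θ hθ).le)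
  refine ⟨sSup S, ?_, hval, hgt⟩
  by_contra hcon
  have := nu_mono w N (not_lt.1 hcon)
  rw [hval] at this
  linarith

/-- **nesting**: the label intervals of two different components are disjoint, or one of them lies
in a limb of the other -/
theorem nest {N N' : ℕ} (hN : 0 < N) (hN' : 0 < N') {w w' : ℕ → ℤ} (hw : Word N w)
    (hw' : Word N' w') {κ κ' : ℤ} {θ₀ : ℝ} (h1 : κ < nu w N θ₀) (h2 : nu w N θ₀ < κ + 1)
    (h3 : κ' < nu w' N' θ₀) (h4 : nu w' N' θ₀ < κ' + 1) :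
    (SameWord N N' w w' ∧ κ = κ') ∨
    (∃ (P : ℤ) (q : ℕ), 2 ≤ q ∧ IsCoprime P (q : ℤ) ∧ (κ' : ℝ) < P / q ∧ (P : ℝ) / q < κ' + 1 ∧
      ∀ θ, κ < nu w N θ → nu w N θ < κ + 1 → nu w' N' θ = P / q) ∨
    (∃ (P : ℤ) (q : ℕ), 2 ≤ q ∧ IsCoprime P (q : ℤ) ∧ (κ : ℝ) < P / q ∧ (P : ℝ) / q < κ + 1 ∧
      ∀ θ, κ' < nu w' N' θ → nu w' N' θ < κ' + 1 → nu w N θ = P / q) := by
  obtain ⟨a, haθ, ha, hgt⟩ := exists_left_end w hN h1
  obtain ⟨a', haθ', ha', hgt'⟩ := exists_left_end w' hN' h3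
  have hκ : SameWord N N' w w' → κ = κ' := fun hS => by
    have := hS.nu_eq hw.2.1 θ₀
    rw [this] at h3 h4
    have e1 : (κ : ℝ) < κ' + 1 := h1.trans h4
    have e2 : (κ' : ℝ) < κ + 1 := h3.trans h2
    have e3 : κ < κ' + 1 := by exact_mod_cast e1
    have e4 : κ' < κ + 1 := by exact_mod_cast e2
    omega
  rcases le_total a' a with hle | hle
  · rcases nest_aux hN hN' hw hw' ha h1 h2 (fun θ h5 _ => hgt' θ (hle.trans_lt h5)) h4 with h | h
    · exact Or.inl ⟨h, hκ h⟩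
    · exact Or.inr (Or.inl h)
  · rcases nest_aux hN' hN hw' hw ha' h3 h4 (fun θ h5 _ => hgt θ (hle.trans_lt h5)) h2 with h | h
    · exact Or.inl ⟨h.symm hN' hw'.2.1, hκ (h.symm hN' hw'.2.1)⟩
    · exact Or.inr (Or.inr h)

end Pool.Agent.Work.MLC
end

section
set_option autoImplicit false

/-! # The left end of a label interval (helper54)

`w` exact of length `n`, `t` the largest angle with `nu w n t = k`. After a rotation of the word
(characteristic phase) the angle `t` itself is the only fixed point of `gw w t n - k` modulo one, it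
has exact period `n`, stays in the half open half circles and hits the start of the last one. -/

namespace Pool.Agent.Work.MLC

open Set Circ CircleDeg1Lift Filter Topology

/-- the orbit of `x` stays in the half open half circles of the word at the parameter `t` -/
def HO (w : ℕ → ℤ) (t x : ℝ) : Prop :=
  ∀ j, ∃ k : ℤ, (t + w j) / 2 + k ≤ 2 ^ j * x ∧ 2 ^ j * x < (t + w j) / 2 + k + 1 / 2

theorem HO.shift {w : ℕ → ℤ} {t x : ℝ} (h : HO w t x) (d : ℕ) :
    HO (fun j => w (d + j)) t (2 ^ d * x) := by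
  intro j
  obtain ⟨k, h1, h2⟩ := h (d + j)
  refine ⟨k, ?_, ?_⟩
  · show (t + w (d + j)) / 2 + k ≤ 2 ^ j * (2 ^ d * x)
    rw [← mul_assoc, ← pow_add, add_comm j d]; exact h1
  · show 2 ^ j * (2 ^ d * x) < (t + w (d + j)) / 2 + k + 1 / 2
    rw [← mul_assoc, ← pow_add, add_comm j d]; exact h2

theorem HO.add_int {w : ℕ → ℤ} {t x : ℝ} (h : HO w t x) (l : ℤ) : HO w t (x + l) := by
  intro j
  obtain ⟨k, h1, h2⟩ := h j
  refine ⟨k + 2 ^ j * l, ?_, ?_⟩ <;> push_cast <;> linarith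

theorem HO.word_eq {w w' : ℕ → ℤ} (hw : ∀ i, w i = 0 ∨ w i = 1) (hw' : ∀ i, w' i = 0 ∨ w' i = 1)
    {t x : ℝ} (h : HO w t x) (h' : HO w' t x) : w = w' := by
  funext j
  obtain ⟨k, h1, h2⟩ := h j
  obtain ⟨k', h3, h4⟩ := h' j
  have f1 : ((w j + 2 * k : ℤ) : ℝ) < ((w' j + 2 * k' + 1 : ℤ) : ℝ) := by push_cast; linarith
  have f2 : ((w' j + 2 * k' : ℤ) : ℝ) < ((w j + 2 * k + 1 : ℤ) : ℝ) := by push_cast; linarith
  have f3 : w j + 2 * k < w' j + 2 * k' + 1 := by exact_mod_cast f1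
  have f4 : w' j + 2 * k' < w j + 2 * k + 1 := by exact_mod_cast f2
  have := hw j
  have := hw' j
  omega

/-- data at the left end `t` of a label interval, in the characteristic phase -/
structure LE (n : ℕ) (w : ℕ → ℤ) (t : ℝ) (k : ℤ) : Prop where
  pos : 0 < n
  word : Word n w
  per : ∃ a : ℤ, 2 ^ n * t - t = a
  ho : HO w t t
  fix : gw w t n t = t + k
  above : ∀ x, x + k ≤ gw w t n x
  uniq : ∀ x, gw w t n x = x + k → ∃ z : ℤ, x = t + z

theorem word_shift {N : ℕ} {w : ℕ → ℤ} (hN : 0 < N) (hw : Word N w) (i₀ : ℕ) :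
    Word N (fun j => w (i₀ + j)) := by
  refine ⟨fun i => hw.1 _, fun i => ?_, fun d hd hdN => ?_⟩
  · show w (i₀ + (i + N)) = w (i₀ + i)
    rw [← add_assoc, hw.2.1]
  · by_contra hcon
    push Not at hcon
    have h1 := mod_eq_of_word hN hw (i := i₀ + d) (j := i₀) fun t => by
      have := hcon t
      rw [show i₀ + d + t = i₀ + (t + d) by ring]; exact this
    have h2 : (i₀ + d) % N = i₀ % N := h1
    have h3 : N ∣ d := by
      have := (Nat.modEq_iff_dvd' (show i₀ ≤ i₀ + d by omega)).1 (show i₀ % N = (i₀ + d) % N from h2.symm)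
      simpa using this
    exact absurd (Nat.le_of_dvd hd h3) (by omega)

/-- the return map is above `x + k` at the left end -/
theorem above_of_left {w : ℕ → ℤ} {n : ℕ} {t : ℝ} {k : ℤ} (hgt : ∀ θ, t < θ → k < nu w n θ) (x : ℝ) :
    x + k ≤ gw w t n x := by
  have h1 : Tendsto (fun θ => gw w θ n x) (𝓝[>] t) (𝓝 (gw w t n x)) := by
    have hc : Continuous fun θ : ℝ => gw w θ n x :=
      (gw_continuous w n).comp (continuous_id.prodMk continuous_const)
    exact hc.continuousAt.tendsto.mono_left nhdsWithin_le_nhds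
  refine ge_of_tendsto h1 (eventually_nhdsWithin_of_forall fun θ hθ => ?_)
  by_contra hcon
  push Not at hcon
  have h2 : nu w n θ ≤ k := translationNumber_le_of_le_add_int _ hcon.le
  exact absurd (hgt θ hθ) (not_lt.2 h2)

/-- an `n`-periodic angle whose first `n` doublings are in half open half circles -/
theorem ho_of_lt {w : ℕ → ℤ} {n : ℕ} (hn : 0 < n) (hw : ∀ i, w (i + n) = w i) {t x : ℝ}
    (hx : ∃ a : ℤ, 2 ^ n * x - x = a)
    (h : ∀ i < n, ∃ k : ℤ, (t + w i) / 2 + k ≤ 2 ^ i * x ∧ 2 ^ i * x < (t + w i) / 2 + k + 1 / 2) :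
    HO w t x := by
  obtain ⟨a, ha⟩ := hx
  intro j
  obtain ⟨b, hb⟩ := pow_per_mul ha (j / n)
  obtain ⟨k, h1, h2⟩ := h (j % n) (Nat.mod_lt _ hn)
  have e1 : (2 : ℝ) ^ j * x = 2 ^ (j % n) * x + ((2 ^ (j % n) * b : ℤ) : ℝ) := by
    conv_lhs => rw [← Nat.mod_add_div j n]
    rw [pow_add, mul_assoc, hb]
    push_cast; ring
  have e2 : w j = w (j % n) := by
    conv_lhs => rw [← Nat.mod_add_div j n]
    exact word_mod hw _ _
  rw [e1, e2]
  refine ⟨k + 2 ^ (j % n) * b, ?_, ?_⟩ <;> push_cast <;> linarith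

/-- the orbit of a fixed point of the return map at the left end: half open, passes through `t` -/
theorem orbit_of_left {w : ℕ → ℤ} {n : ℕ} (hn : 0 < n) (hw : ∀ i, w (i + n) = w i) {t : ℝ} {k : ℤ}
    (hab : ∀ x, x + k ≤ gw w t n x) {x : ℝ} (hx : gw w t n x = x + k) :
    HO w t x ∧ (∃ a : ℤ, 2 ^ n * x - x = a) ∧ ∃ i < n, ∃ l : ℤ, t = 2 ^ (i + 1) * x + l := by
  obtain ⟨h1, i, hi, m, hm⟩ := tangent_above hab hx hn
  have hlin := gw_of_cl (w := w) (θ := t) (x := x) (m := n) fun i hi => by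
    obtain ⟨k', h2, h3⟩ := h1 i hi
    exact ⟨k', h2, h3.le⟩
  have hper : ∃ a : ℤ, 2 ^ n * x - x = a := by
    obtain ⟨a, ha⟩ := hlin n le_rfl
    exact ⟨k - a, by push_cast; linarith⟩
  refine ⟨ho_of_lt hn hw hper fun i hi => ?_, hper, i, hi, ?_⟩
  · obtain ⟨k', h2, h3⟩ := h1 i hi
    obtain ⟨a, ha⟩ := hlin i hi.le
    rw [ha] at h2 h3
    refine ⟨k' - a, ?_, ?_⟩ <;> push_cast <;> linarith
  · obtain ⟨a, ha⟩ := hlin i hi.le
    rw [ha] at hm
    refine ⟨2 * a - w i - 2 * m, ?_⟩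
    rw [pow_succ]
    push_cast
    linarith

/-- `t` is a fixed point of the return map if its orbit is in the half circles -/
theorem fix_of_ho {w : ℕ → ℤ} {n : ℕ} {t : ℝ} {k : ℤ} (hper : ∃ a : ℤ, 2 ^ n * t - t = a)
    (hho : HO w t t) (hnu : nu w n t = k) : gw w t n t = t + k := by
  obtain ⟨m, hm⟩ := gw_lin w t t n fun i _ => by
    obtain ⟨k', h1, h2⟩ := hho i
    exact ⟨k', h1, h2.le⟩
  obtain ⟨a, ha⟩ := hper
  have h1 : gw w t n t = t + ((a - m : ℤ) : ℝ) := by rw [hm]; push_cast; linarith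
  have h2 : nu w n t = ((a - m : ℤ) : ℝ) := translationNumber_of_eq_add_int _ h1
  rw [hnu] at h2
  rw [h1, h2]

/-- **the left end in the characteristic phase** -/
theorem exists_LE {n : ℕ} (hn : 0 < n) {w : ℕ → ℤ} (hw : Word n w) {t : ℝ} {k : ℤ}
    (hnu : nu w n t = k) (hgt : ∀ θ, t < θ → k < nu w n θ) :
    ∃ i₀ < n, LE n (fun j => w (i₀ + j)) t k := by
  obtain ⟨x, hx⟩ : ∃ x, gw w t n x = x + k := by
    have := (nu_eq_rat_iff w n t 1 one_pos k).1 (by rw [hnu]; simp)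
    simpa using this
  obtain ⟨hho, ⟨a, ha⟩, i, hi, l, hl⟩ := orbit_of_left hn hw.2.1 (above_of_left hgt) hx
  set i₀ := (i + 1) % n with hi₀
  have hfun : (fun j => w (i + 1 + j)) = fun j => w (i₀ + j) := by
    funext j
    conv_lhs => rw [← Nat.mod_add_div (i + 1) n]
    rw [show (i + 1) % n + n * ((i + 1) / n) + j = (i₀ + j) + n * ((i + 1) / n) by rw [hi₀]; ring,
      word_mod hw.2.1]
  set w' : ℕ → ℤ := fun j => w (i₀ + j) with hw'
  have hW : Word n w' := word_shift hn hw i₀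
  have hnu' : ∀ θ, nu w' n θ = nu w n θ := fun θ => nu_shift_word w n hw.2.1 θ i₀
  have hho' : HO w' t t := by
    have h1 := (hho.shift (i + 1)).add_int l
    rw [hfun, ← hl] at h1
    exact h1
  have hper : ∃ b : ℤ, 2 ^ n * t - t = b := by
    refine ⟨2 ^ (i + 1) * a + 2 ^ n * l - l, ?_⟩
    rw [hl]
    push_cast
    linear_combination (2 : ℝ) ^ (i + 1) * ha
  have hab : ∀ x, x + k ≤ gw w' t n x := above_of_left fun θ hθ => by rw [hnu']; exact hgt θ hθ
  refine ⟨i₀, Nat.mod_lt _ hn, hn, hW, hper, hho', fix_of_ho hper hho' (by rw [hnu', hnu]), hab, ?_⟩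
  intro y hy
  obtain ⟨hhoy, ⟨b, hb⟩, i', hi', l', hl'⟩ := orbit_of_left hn hW.2.1 hab hy
  have h1 := (hhoy.shift (i' + 1)).add_int l'
  rw [← hl'] at h1
  have h2 := HO.word_eq (fun i => hW.1 _) hW.1 h1 hho'
  have h3 : (i' + 1) % n = 0 % n := mod_eq_of_word hn hW fun j => by
    rw [Nat.zero_add]; exact congrFun h2 j
  have h4 : n ∣ i' + 1 := Nat.dvd_of_mod_eq_zero (by rw [h3, Nat.zero_mod])
  have h5 : i' + 1 = n := Nat.le_antisymm (by omega) (Nat.le_of_dvd (by omega) h4)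
  rw [h5] at hl'
  refine ⟨-l' - b, ?_⟩
  push_cast
  linarith

namespace LE

variable {n : ℕ} {w : ℕ → ℤ} {t : ℝ} {k : ℤ}

/-- `t` has exact period `n` -/
theorem dvd (h : LE n w t k) {d : ℕ} (hd : ∃ a : ℤ, 2 ^ d * t - t = a) : n ∣ d := by
  obtain ⟨a, ha⟩ := hd
  have h1 := (h.ho.shift d).add_int (-a)
  have e : (2 : ℝ) ^ d * t + ((-a : ℤ) : ℝ) = t := by push_cast; linarith
  rw [e] at h1
  have h2 := HO.word_eq (fun i => h.word.1 _) h.word.1 h1 h.ho
  have h3 : d % n = 0 % n := mod_eq_of_word h.pos h.word fun j => by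
    rw [Nat.zero_add]; exact congrFun h2 j
  exact Nat.dvd_of_mod_eq_zero (by rw [h3, Nat.zero_mod])

/-- at the times `n | j + 1` the point is at the start of the half circle -/
theorem start (h : LE n w t k) {j : ℕ} (hj : (j + 1) % n = 0) :
    ∃ m : ℤ, 2 ^ j * t = (t + w j) / 2 + m := by
  obtain ⟨m, h1, h2⟩ := h.ho j
  obtain ⟨c, hc⟩ := Nat.dvd_of_mod_eq_zero hj
  obtain ⟨a, ha⟩ := h.per
  obtain ⟨b, hb⟩ := pow_per_mul ha c
  rw [← hc, pow_succ] at hb
  have f1 : ((b : ℤ) : ℝ) < ((w j + 2 * m + 1 : ℤ) : ℝ) := by push_cast; linarith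
  have f2 : ((w j + 2 * m - 1 : ℤ) : ℝ) < ((b : ℤ) : ℝ) := by push_cast; linarith
  have f3 : b < w j + 2 * m + 1 := by exact_mod_cast f1
  have f4 : w j + 2 * m - 1 < b := by exact_mod_cast f2
  have f5 : b = w j + 2 * m := by omega
  refine ⟨m, ?_⟩
  rw [f5] at hb
  push_cast at hb
  linarith

/-- at the other times it is not -/
theorem not_start (h : LE n w t k) {j : ℕ} (hj : (j + 1) % n ≠ 0) (m : ℤ) :
    2 ^ j * t ≠ (t + w j) / 2 + m := by
  intro he
  refine hj (Nat.mod_eq_zero_of_dvd (h.dvd (d := j + 1) ⟨w j + 2 * m, ?_⟩))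
  rw [pow_succ]; push_cast; linarith

end LE

/-- no orbit point of `t` in `(t, θ]` -/
def NoPt (x t θ : ℝ) : Prop := ∀ (j : ℕ) (l : ℤ), t < 2 ^ j * x + l → ¬ 2 ^ j * x + l ≤ θ

/-- orbits of periodic angles are discrete -/
theorem eventually_noPt {n : ℕ} (hn : 0 < n) {x : ℝ} (hx : ∃ a : ℤ, 2 ^ n * x - x = a) (t : ℝ) :
    ∀ᶠ θ in 𝓝[>] t, NoPt x t θ := by
  obtain ⟨a, ha⟩ := hx
  have h1 : ∀ᶠ θ in 𝓝[>] t, ∀ j ∈ Finset.range n, θ < 2 ^ j * x - ⌈2 ^ j * x - t⌉ + 1 := by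
    rw [Finset.eventually_all]
    intro j _
    refine mem_nhdsWithin_of_mem_nhds (gt_mem_nhds ?_)
    have := Int.ceil_lt_add_one (2 ^ j * x - t)
    linarith
  filter_upwards [h1] with θ hθ j l h2 h3
  obtain ⟨b, hb⟩ := pow_per_mul ha (j / n)
  have e1 : (2 : ℝ) ^ j * x = 2 ^ (j % n) * x + ((2 ^ (j % n) * b : ℤ) : ℝ) := by
    conv_lhs => rw [← Nat.mod_add_div j n]
    rw [pow_add, mul_assoc, hb]
    push_cast; ring
  have h4 := hθ (j % n) (Finset.mem_range.2 (Nat.mod_lt _ hn))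
  rw [e1] at h2 h3
  set u := (2 : ℝ) ^ (j % n) * x with hu
  set c : ℤ := 2 ^ (j % n) * b with hc
  have h5 := Int.le_ceil (u - t)
  have h6 : ((-(c + l) : ℤ) : ℝ) < ⌈u - t⌉ := by push_cast; linarith
  have h7 : -(c + l) < ⌈u - t⌉ := by exact_mod_cast h6
  have h8 : ((-(c + l) + 1 : ℤ) : ℝ) ≤ ⌈u - t⌉ := by exact_mod_cast h7
  push_cast at h8
  linarith

/-- the lower word: `t` is compatible with it to the right of `t` -/
theorem LE.compat {n : ℕ} {w : ℕ → ℤ} {t : ℝ} {k : ℤ} (h : LE n w t k) {θ : ℝ} (h1 : t < θ)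
    (h2 : θ < t + 1) (hno : NoPt t t θ) : Compat t θ (flw n w) := by
  intro j
  unfold flw
  by_cases hj : (j + 1) % n = 0
  · rw [if_pos hj]
    obtain ⟨m, hm⟩ := h.start hj
    refine ⟨m + w j - 1, ?_, ?_⟩ <;> push_cast <;> linarith
  · rw [if_neg hj]
    obtain ⟨m, h3, h4⟩ := h.ho j
    have h5 := lt_of_le_of_ne h3 (Ne.symm (h.not_start hj m))
    refine ⟨m, ?_, by linarith⟩
    have h6 := hno (j + 1) (-w j - 2 * m)
    push_cast at h6
    rw [pow_succ] at h6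
    have h7 := h6 (by linarith)
    linarith [not_le.1 h7]

/-- minimal period of a periodic word -/
theorem exists_min_word {n : ℕ} (hn : 0 < n) {v : ℕ → ℤ} (hb : ∀ i, v i = 0 ∨ v i = 1)
    (hv : ∀ i, v (i + n) = v i) : ∃ d Q, d * Q = n ∧ 0 < d ∧ 0 < Q ∧ Word d v := by
  classical
  have hex : ∃ d, 0 < d ∧ ∀ i, v (i + d) = v i := ⟨n, hn, hv⟩
  set d := Nat.find hex with hd
  obtain ⟨hd0, hdv⟩ := Nat.find_spec hex
  have hmin : ∀ e, e < d → ¬ (0 < e ∧ ∀ i, v (i + e) = v i) := fun e he => Nat.find_min hex he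
  have hword : Word d v := by
    refine ⟨hb, hdv, fun e he hed => ?_⟩
    by_contra hcon
    push Not at hcon
    exact hmin e hed ⟨he, hcon⟩
  have hdvd : d ∣ n := by
    have h1 : n % d = 0 % d := mod_eq_of_word hd0 hword fun i => by
      rw [Nat.zero_add, add_comm]; exact hv i
    exact Nat.dvd_of_mod_eq_zero (by rw [h1, Nat.zero_mod])
  obtain ⟨Q, hQ⟩ := hdvd
  refine ⟨d, Q, hQ.symm, hd0, Nat.pos_of_ne_zero fun h => ?_, hword⟩
  rw [h, mul_zero] at hQ; omega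

/-- **dichotomy**: the lower word is exact, or the component is a satellite and `t` is the left end
of the characteristic arc of the parent cycle -/
theorem LE.cases {n : ℕ} {w : ℕ → ℤ} {t : ℝ} {k : ℤ} (h : LE n w t k) :
    Word n (flw n w) ∨ ∃ d Q t', d * Q = n ∧ CA d Q (flw n w) t t' := by
  have hn := h.pos
  have hbits : ∀ i, flw n w i = 0 ∨ flw n w i = 1 := flw_bit h.word.1
  obtain ⟨d, Q, hdQ, hd0, hQ0, hW⟩ := exists_min_word hn hbits (flw_per h.word.2.1)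
  rcases Nat.lt_or_ge 1 Q with hQ | hQ
  swap
  · left
    have : Q = 1 := by omega
    rw [this, mul_one] at hdQ
    rwa [hdQ] at hW
  right
  have hper : PerAngle d Q t := by
    refine ⟨hQ0, ?_, fun j hj hjQ hcon => ?_⟩
    · rw [hdQ]; exact h.per
    · have h1 := h.dvd hcon
      rw [← hdQ] at h1
      have h2 := Nat.dvd_of_mul_dvd_mul_left hd0 h1
      exact absurd (Nat.le_of_dvd hj h2) (by omega)
  have hlt1 : ∀ᶠ θ in 𝓝[>] t, θ < t + 1 :=
    mem_nhdsWithin_of_mem_nhds (gt_mem_nhds (show t < t + 1 by linarith))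
  obtain ⟨θ, ⟨h1, h2⟩, h3⟩ := (((eventually_noPt hn h.per t).and hlt1).and
    self_mem_nhdsWithin).exists
  have h3' : t < θ := h3
  obtain ⟨i₀, hi₀, s, t', hs, ht', hsA, hCA⟩ := exists_CA hd0 hQ hW hper (h.compat h3' h2 h1)
  -- `s = t`
  obtain ⟨m, l, hml⟩ := hsA
  have hst : s ≤ t := by
    by_contra hcon
    push Not at hcon
    rw [hml] at hcon hs
    exact h1 _ _ hcon hs.le
  have htA : ∃ j, t ∈ AA d s j := by
    have e1 := AA_of_mem hper (s := s) ⟨m, l, hml⟩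
    refine ⟨d - i₀, ?_⟩
    rw [e1, show i₀ + (d - i₀) = 0 + d by omega, AA_per hper]
    simpa using mem_AA d t 0
  have hst' : s = t := by
    rcases hst.lt_or_eq with h4 | h4
    · obtain ⟨j, hj⟩ := htA
      exact absurd (h3'.trans ht') (hCA.nopt j t hj h4)
    · exact h4
  subst hst'
  have hi0 : i₀ = 0 := by
    have h4 : n ∣ i₀ + d * m := h.dvd ⟨-l, by push_cast; linarith⟩
    have h5 : d ∣ i₀ + d * m := Dvd.dvd.trans ⟨Q, hdQ.symm⟩ h4
    have h6 : d ∣ i₀ := (Nat.dvd_add_left ⟨m, rfl⟩).1 h5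
    by_contra hcon
    exact absurd (Nat.le_of_dvd (Nat.pos_of_ne_zero hcon) h6) (by omega)
  subst hi0
  refine ⟨d, Q, t', hdQ, ?_⟩
  have e : (fun j => flw n w (0 + j)) = flw n w := by funext j; rw [Nat.zero_add]
  rwa [e] at hCA

end Pool.Agent.Work.MLC
end

section
set_option autoImplicit false

/-! # Adapters for the separation of labels (helper26) -/

namespace Pool.Agent.Work.MLC.Pri

open Filter Topology Metric Set

/-- **left ends are periodic** -/
theorem lep : LEP := by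
  intro n w k t hn hw ht
  obtain ⟨i₀, -, h⟩ := exists_LE hn hw ht.1 ht.2
  exact h.per

/-- labels with the same left end modulo one belong to the same cycle -/
theorem sameCyc_of_mod {n : ℕ} (hn : 0 < n) {w w' : ℕ → ℤ} (hw : Word n w) (hw' : Word n w')
    {k k' : ℤ} {t t' : ℝ} (ht : LeftEnd n w k t) (ht' : LeftEnd n w' k' t') {m : ℤ}
    (h : t = t' + m) : SameCyc w t w' t' := by
  obtain ⟨i₀, hi₀, h1⟩ := exists_LE hn hw ht.1 ht.2
  obtain ⟨i₁, hi₁, h2⟩ := exists_LE hn hw' ht'.1 ht'.2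
  -- the parity shift of `v'`
  have hu : ∀ j, ∃ u e : ℤ, (u = 0 ∨ u = 1) ∧ u = w' (i₁ + j) - m + 2 * e := by
    intro j
    rcases Int.even_or_odd' (w' (i₁ + j) - m) with ⟨a, ha | ha⟩
    · exact ⟨0, -a, Or.inl rfl, by omega⟩
    · exact ⟨1, -a, Or.inr rfl, by omega⟩
  choose u e hu1 hu2 using hu
  have hHO : HO u t t := by
    intro j
    obtain ⟨a, h3, h4⟩ := h2.ho j
    refine ⟨a - e j + 2 ^ j * m, ?_, ?_⟩
    · rw [hu2 j, h]; push_cast; linarith
    · rw [hu2 j, h]; push_cast; linarith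
  have h5 := HO.word_eq hu1 h1.word.1 hHO h1.ho
  refine ⟨i₀ + (n - i₁), m, fun j => ?_, h⟩
  have h6 : ∀ j, Even (w' (i₁ + j) - w (i₀ + j) - m) := by
    intro j
    have h7 := congrFun h5 j
    have h8 := hu2 j
    refine ⟨-e j, ?_⟩
    omega
  have h9 := h6 (n - i₁ + j)
  have h10 : w' (i₁ + (n - i₁ + j)) = w' j := by
    rw [show i₁ + (n - i₁ + j) = j + n by omega]; exact hw'.2.1 j
  rw [h10] at h9
  rw [show i₀ + (n - i₁) + j = i₀ + (n - i₁ + j) by ring]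
  exact h9

/-- translation of a label by an integer -/
theorem LeftEnd.trans {n : ℕ} {w : ℕ → ℤ} (hw : Word n w) {k : ℤ} {t : ℝ}
    (ht : LeftEnd n w k t) (m : ℤ) : ∃ w' k', Word n w' ∧ LeftEnd n w' k' (t - m) := by
  have hpar : ∀ i, Even ((w i + m) % 2 - w i - m) := fun i => ⟨-((w i + m) / 2), by omega⟩
  obtain ⟨K, hK⟩ := nu_parity hpar n
  refine ⟨fun i => (w i + m) % 2, k + K, ⟨fun i => by show (w i + m) % 2 = 0 ∨ (w i + m) % 2 = 1; omega, fun i => ?_, fun d hd hdn => ?_⟩,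
    ?_, fun θ hθ => ?_⟩
  · simp only [hw.2.1 i]
  · obtain ⟨i, hi⟩ := hw.2.2 d hd hdn
    refine ⟨i, fun h => hi ?_⟩
    have h1 := hw.1 i
    have h2 := hw.1 (i + d)
    simp only at h
    omega
  · rw [hK, sub_add_cancel, ht.1]; push_cast; ring
  · rw [hK]
    have := ht.2 (θ + m) (by linarith)
    push_cast
    linarith

lemma InPl.add_int_iff {d : ℕ} {v : ℕ → ℤ} {κ : ℤ} {x : ℚ} {t : ℝ} (m : ℤ) :
    InPl d v κ x (t + m) ↔ InPl d v κ x t := by
  constructor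
  · rintro ⟨l, hl⟩
    exact ⟨m + l, by push_cast; rw [← add_assoc]; exact hl⟩
  · rintro ⟨l, hl⟩
    refine ⟨l - m, ?_⟩
    rw [← hl]; congr 1; push_cast; ring

/-- the core of the separation: normalised left ends, `n ≥ 2` -/
def SEPc (D : ℕ → ℕ) : Prop :=
  ∀ (n : ℕ) (w w' : ℕ → ℤ) (k k' : ℤ) (t t' : ℝ), 2 ≤ n → Word n w → Word n w' →
    LeftEnd n w k t → LeftEnd n w' k' t' → 0 < t → t < 1 → 0 < t' → t' < 1 → t ≠ t' →
    ∃ (d : ℕ) (v : ℕ → ℤ) (κ : ℤ) (x : ℚ), 0 < d ∧ d ≤ D n ∧ Word d v ∧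
      0 < x ∧ x < 1 ∧ x.den ≤ D n ∧ Xor (InPl d v κ x t) (InPl d v κ x t')

/-- a left end of period at least two is not an integer -/
lemma leftEnd_not_int {n : ℕ} (hn : 2 ≤ n) {w : ℕ → ℤ} (hw : Word n w) {k : ℤ} {t : ℝ}
    (ht : LeftEnd n w k t) (m : ℤ) : t ≠ m := by
  intro h
  obtain ⟨i₀, -, h1⟩ := exists_LE (by omega) hw ht.1 ht.2
  have h2 := h1.dvd (d := 1) ⟨m, by rw [h]; ring⟩
  have := Nat.le_of_dvd one_pos h2
  omega

theorem sep_of_core {D : ℕ → ℕ} (h : SEPc D) : SEP D := by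
  intro n w w' k k' t t' hn hw hw' ht ht'
  rcases Nat.lt_or_ge n 2 with h2 | h2
  · -- period one
    left
    have h1 : n = 1 := by omega
    subst h1
    obtain ⟨a, ha⟩ := lep 1 w k t hn hw ht
    obtain ⟨a', ha'⟩ := lep 1 w' k' t' hn hw' ht'
    refine sameCyc_of_mod hn hw hw' ht ht' (m := a - a') ?_
    push_cast
    linarith
  · by_cases hmod : ∃ m : ℤ, t = t' + m
    · obtain ⟨m, hm⟩ := hmod
      exact Or.inl (sameCyc_of_mod hn hw hw' ht ht' hm)
    · right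
      obtain ⟨w₁, k₁, hw₁, ht₁⟩ := ht.trans hw ⌊t⌋
      obtain ⟨w₁', k₁', hw₁', ht₁'⟩ := ht'.trans hw' ⌊t'⌋
      have e1 := Int.floor_le t
      have e2 := Int.lt_floor_add_one t
      have e3 := Int.floor_le t'
      have e4 := Int.lt_floor_add_one t'
      have e5 : t ≠ ⌊t⌋ := leftEnd_not_int h2 hw ht _
      have e6 : t' ≠ ⌊t'⌋ := leftEnd_not_int h2 hw' ht' _
      obtain ⟨d, v, κ, x, h3, h4, h5, h6, h7, h8, h9⟩ := h n w₁ w₁' k₁ k₁' _ _ h2 hw₁ hw₁' ht₁ ht₁'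
        (sub_pos.2 (lt_of_le_of_ne e1 e5.symm)) (by linarith)
        (sub_pos.2 (lt_of_le_of_ne e3 e6.symm)) (by linarith)
        (fun hcon => hmod ⟨⌊t⌋ - ⌊t'⌋, by push_cast; linarith⟩)
      refine ⟨d, v, κ, x, h3, h4, h5, h6, h7, h8, ?_⟩
      have f1 : InPl d v κ x (t - ⌊t⌋) ↔ InPl d v κ x t := by
        rw [← InPl.add_int_iff (t := t - ⌊t⌋) ⌊t⌋, sub_add_cancel]
      have f2 : InPl d v κ x (t' - ⌊t'⌋) ↔ InPl d v κ x t' := by
        rw [← InPl.add_int_iff (t := t' - ⌊t'⌋) ⌊t'⌋, sub_add_cancel]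
      rw [f1, f2] at h9
      exact h9

/-- **the form of helper70** -/
def Sep70 : Prop :=
  ∀ (n : ℕ) (w w' : ℕ → ℤ) (k k' : ℤ) (t t' : ℝ), 2 ≤ n → Word n w → Word n w' →
    LeftEnd n w k t → LeftEnd n w' k' t' → 0 < t → t < 1 → 0 < t' → t' < 1 →
    (∀ S, 0 < S → S < n → ∀ u, Word S u →
      ((∀ a : ℤ, Circ.nu u S t ≠ a) ∨ (∀ a : ℤ, Circ.nu u S t' ≠ a)) →
      Circ.nu u S t = Circ.nu u S t') → t = t'

/-- two angles in `(0, 1)` with an integer translate of one in the strip of the other -/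
lemma no_trans {d : ℕ} {v : ℕ → ℤ} {κ : ℤ} {t s : ℝ} (ht : 0 < t) (ht1 : t < 1) (hs : 0 < s)
    (hs1 : s < 1) (h1 : (κ : ℝ) < Circ.nu v d t) (h2 : Circ.nu v d t < κ + 1) {m : ℤ}
    (h3 : (κ : ℝ) < Circ.nu v d (s + m)) (h4 : Circ.nu v d (s + m) < κ + 1) : m = 0 := by
  have hmono := Circ.nu_mono v d
  by_contra hm
  rcases lt_or_gt_of_ne hm with h | h
  · -- `s + m ≤ 0 < t`
    obtain ⟨a, ha⟩ := nu_intAngle v d 0
    have h5 : (m : ℝ) ≤ -1 := by exact_mod_cast (by omega : m ≤ -1)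
    have h6 := hmono (show s + m ≤ ((0 : ℤ) : ℝ) by push_cast; linarith)
    have h7 := hmono (show ((0 : ℤ) : ℝ) ≤ t by push_cast; linarith)
    rw [ha] at h6 h7
    have h8 : κ < a := by exact_mod_cast h3.trans_le h6
    have h9 : a < κ + 1 := by exact_mod_cast h7.trans_lt h2
    omega
  · obtain ⟨a, ha⟩ := nu_intAngle v d 1
    have h5 : (1 : ℝ) ≤ m := by exact_mod_cast (by omega : (1 : ℤ) ≤ m)
    have h6 := hmono (show t ≤ ((1 : ℤ) : ℝ) by push_cast; linarith)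
    have h7 := hmono (show ((1 : ℤ) : ℝ) ≤ s + m by push_cast; linarith)
    rw [ha] at h6 h7
    have h8 : κ < a := by exact_mod_cast h1.trans_le h6
    have h9 : a < κ + 1 := by exact_mod_cast h7.trans_lt h4
    omega

/-- a separating component of smaller period gives a barrier -/
lemma sep_of_ne {n S : ℕ} (hn : 0 < n) {u : ℕ → ℤ}
    {t t' : ℝ} (hper : ∃ a : ℤ, (2 : ℝ) ^ n * t - t = a) (ht : 0 < t) (ht1 : t < 1)
    (ht' : 0 < t') (ht1' : t' < 1) (hni : ∀ a : ℤ, Circ.nu u S t ≠ a)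
    (hne : Circ.nu u S t ≠ Circ.nu u S t') :
    ∃ (κ : ℤ) (x : ℚ), 0 < x ∧ x < 1 ∧ x.den ≤ n ∧ InPl S u κ x t ∧ ¬ InPl S u κ x t' := by
  obtain ⟨Q, P, hQ, hQn, hP⟩ := Circ.weak_gap u S n hn hper
  set κ := ⌊Circ.nu u S t⌋ with hκ
  have h1 : (κ : ℝ) < Circ.nu u S t := lt_of_le_of_ne (Int.floor_le _) fun h => hni κ h.symm
  have h2 : Circ.nu u S t < κ + 1 := Int.lt_floor_add_one _
  have hQ' : (0 : ℝ) < Q := by exact_mod_cast hQ
  set x : ℚ := (P : ℚ) / Q - κ with hx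
  have hxr : (x : ℝ) = Circ.nu u S t - κ := by rw [hx, hP]; push_cast; ring
  have hx' : x = ((P - κ * Q : ℤ) : ℚ) / ((Q : ℤ) : ℚ) := by
    have : (Q : ℚ) ≠ 0 := by exact_mod_cast hQ.ne'
    rw [hx]; push_cast; field_simp
  refine ⟨κ, x, ?_, ?_, ?_, ⟨0, ?_⟩, ?_⟩
  · have : (0 : ℝ) < x := by rw [hxr]; linarith
    exact_mod_cast this
  · have : (x : ℝ) < 1 := by rw [hxr]; linarith
    exact_mod_cast this
  · have h3 : (x.den : ℤ) ∣ Q := by
      rw [hx', ← Rat.divInt_eq_div]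
      exact Rat.den_dvd _ _
    exact (Nat.le_of_dvd hQ (by exact_mod_cast h3)).trans hQn
  · rw [hxr]; simp
  · rintro ⟨m, hm⟩
    rw [hxr] at hm
    have h3 : Circ.nu u S (t' + m) = Circ.nu u S t := by rw [hm]; ring
    have h4 := no_trans ht ht1 ht' ht1' h1 h2 (m := m) (by rw [h3]; exact h1) (by rw [h3]; exact h2)
    rw [h4] at h3
    simp only [Int.cast_zero, add_zero] at h3
    exact hne h3.symm

theorem sepc_of_70 (h : Sep70) : SEPc (fun n => n) := by
  intro n w w' k k' t t' hn hw hw' ht ht' h0 h1 h0' h1' hne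
  by_contra hcon
  apply hne
  have hn0 : 0 < n := by omega
  refine h n w w' k k' t t' hn hw hw' ht ht' h0 h1 h0' h1' fun S hS hSn u hu hor => ?_
  by_contra hneq
  rcases hor with h2 | h2
  · obtain ⟨κ, x, h3, h4, h5, h6, h7⟩ := sep_of_ne hn0 (lep n w k t hn0 hw ht) h0 h1
      h0' h1' h2 hneq
    exact hcon ⟨S, u, κ, x, hS, hSn.le, hu, h3, h4, h5, Or.inl ⟨h6, h7⟩⟩
  · obtain ⟨κ, x, h3, h4, h5, h6, h7⟩ := sep_of_ne hn0 (lep n w' k' t' hn0 hw' ht')
      h0' h1' h0 h1 h2 (Ne.symm hneq)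
    exact hcon ⟨S, u, κ, x, hS, hSn.le, hu, h3, h4, h5, Or.inr ⟨h6, h7⟩⟩

/-- **adapter**: the separation from helper70's form -/
theorem sep_of_70 (h : Sep70) : SEP (fun n => n) := sep_of_core (sepc_of_70 h)

end Pool.Agent.Work.MLC.Pri
end

section
set_option autoImplicit false

/-! # Separation of components of the same period, part C (helper70): the theorem

`sep`: two label intervals of exact period `n` with different left ends `t, t'` in `(0, 1)` are
separated by a cycle of smaller exact period. -/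

namespace Pool.Agent.Work.MLC.Sep

open Set Filter Topology Pool.Agent.Work.MLC Pool.Agent.Work.MLC.Circ CircleDeg1Lift

/-! ### words -/

theorem st_congr {w w' : ℕ → ℤ} {y N : ℕ} (h : ∀ i < N, w i = w' i) : ∀ d, y + d ≤ N → 0 < y →
    st w 0 y d = st w' 0 y d := by
  intro d
  induction d with
  | zero => intro _ _; rfl
  | succ d ih =>
    intro hd hy
    have h1 := ih (by omega) hy
    have h2 := st_le w 0 y d
    rw [st_succ, st_succ, ← h1, stp, stp, h _ (by omega), h (y + d) (by omega)]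

/-- the last reset -/
theorem st_back (w : ℕ → ℤ) (y : ℕ) : ∀ d, st w 0 y (d - st w 0 y d) = 0 ∧
    ∀ i < st w 0 y d, w i = w (y + (d - st w 0 y d) + i) := by
  intro d
  induction d with
  | zero => exact ⟨rfl, fun i hi => absurd hi (Nat.not_lt_zero _)⟩
  | succ d ih =>
    have hle := st_le w 0 y d
    rw [st_succ, stp]
    by_cases h : w (st w 0 y d) = w (y + d)
    · rw [if_pos h]
      refine ⟨?_, fun i hi => ?_⟩
      · rw [show d + 1 - (st w 0 y d + 1) = d - st w 0 y d by omega]; exact ih.1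
      · rw [show d + 1 - (st w 0 y d + 1) = d - st w 0 y d by omega]
        rcases Nat.lt_succ_iff_lt_or_eq.1 hi with h1 | h1
        · exact ih.2 i h1
        · rw [h1, h]; congr 1; omega
    · rw [if_neg h]
      refine ⟨?_, fun i hi => absurd hi (Nat.not_lt_zero _)⟩
      rw [Nat.sub_zero, st_succ, stp, if_neg h]

/-- periodic extension -/
def pe (w : ℕ → ℤ) (S : ℕ) (j : ℕ) : ℤ := w (j % S)

theorem pe_of_lt {w : ℕ → ℤ} {S j : ℕ} (h : j < S) : pe w S j = w j := by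
  rw [pe, Nat.mod_eq_of_lt h]

theorem pe_bit {w : ℕ → ℤ} (hw : ∀ i, w i = 0 ∨ w i = 1) (S i : ℕ) : pe w S i = 0 ∨ pe w S i = 1 :=
  hw _

theorem pe_per (w : ℕ → ℤ) (S i : ℕ) : pe w S (i + S) = pe w S i := by
  rw [pe, pe, Nat.add_mod_right]

theorem pe_word {w : ℕ → ℤ} (hw : ∀ i, w i = 0 ∨ w i = 1) {S : ℕ} (hS : 0 < S)
    (h : st w 0 1 (S - 1) = 0) : st (pe w S) 0 1 (S - 1) = 0 ∧ Word S (pe w S) := by
  have h1 : st (pe w S) 0 1 (S - 1) = 0 := by
    have h2 := st_congr (w := pe w S) (w' := w) (y := 1) (N := S) (fun i hi => pe_of_lt hi) (S - 1)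
      (by omega) one_pos
    exact h2.trans h
  exact ⟨h1, pe_bit hw S, pe_per w S, fun d hd hdS =>
    prim_of_run hS (pe_bit hw S) (pe_per w S) h1 hd hdS⟩

/-- **kneading step**: the first difference of the kneading sequences gives a separating word -/
theorem case_first {w w₁ : ℕ → ℤ} {t t₁ : ℝ} {j₀ : ℕ} (hj : 1 ≤ j₀) (hw : ∀ i, w i = 0 ∨ w i = 1)
    (hw₁ : ∀ i, w₁ i = 0 ∨ w₁ i = 1) (hag : ∀ i < j₀, w i = w₁ i) (hne : w j₀ ≠ w₁ j₀)
    (hs : ∀ i ≤ j₀, InHalfO (t + w i) (2 ^ i * t)) (hs₁ : ∀ i ≤ j₀, InHalfO (t₁ + w₁ i) (2 ^ i * t₁))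
    (hr : st w 0 1 j₀ = 0)
    (H : ∀ u, Word (j₀ + 1) u → (∀ m : ℤ, nu u (j₀ + 1) t ≠ m) →
      nu u (j₀ + 1) t = nu u (j₀ + 1) t₁) : False := by
  obtain ⟨h1, h2⟩ := pe_word hw (S := j₀ + 1) (by omega) hr
  have h3 : ∀ m : ℤ, nu (pe w (j₀ + 1)) (j₀ + 1) t ≠ m := fun m =>
    nu_ne_int (by omega) (pe_bit hw _) (pe_per w _) h1
      (fun i hi => by rw [pe_of_lt hi]; exact hs i (by omega)) m
  have h4 := H _ h2 h3
  obtain ⟨m, hm⟩ := nu_int_of_flip (w := pe w (j₀ + 1)) (n := j₀) (θ := t₁) (pe_bit hw _)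
    (fun i hi => by rw [pe_of_lt (by omega), hag i hi]; exact hs₁ i hi.le) (hw₁ j₀)
    (by rw [pe_of_lt (by omega)]; exact hne.symm) (hs₁ j₀ le_rfl)
  exact h3 m (h4.trans hm)

/-! ### the left end -/

theorem strict_of_LE {n : ℕ} {w : ℕ → ℤ} {t : ℝ} {k : ℤ} (h : LE n w t k) {i : ℕ} (hi : i + 1 < n) :
    InHalfO (t + w i) (2 ^ i * t) := by
  obtain ⟨m, h1, h2⟩ := h.ho i
  refine ⟨m, lt_of_le_of_ne h1 (Ne.symm (h.not_start ?_ m)), h2⟩
  rw [Nat.mod_eq_of_lt hi]; omega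

/-- the last step starts at the start of the half circle -/
theorem pre_last {L : ℕ} {w : ℕ → ℤ} {t : ℝ} {k : ℤ} (h : LE (L + 1) w t k) :
    gw w t L t = (t + w L) / 2 + ((k - w L : ℤ) : ℝ) := by
  obtain ⟨c, hc⟩ := gw_lin w t t L fun i _ => by
    obtain ⟨m, h1, h2⟩ := h.ho i
    exact ⟨m, h1, h2.le⟩
  obtain ⟨m, hm⟩ := h.start (j := L) (Nat.mod_self _)
  have h1 : gw w t L t = (t + w L) / 2 + ((m - c : ℤ) : ℝ) := by
    rw [hc, hm]; push_cast; ring
  have h2 := h.fix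
  rw [gw_succ_apply, h1, tdbl_lin (m - c) le_rfl (by linarith)] at h2
  have h3 : ((m - c : ℤ) : ℝ) = ((k - w L : ℤ) : ℝ) := by
    push_cast at h2 ⊢; linarith
  rw [h1, h3]

theorem sym_zero {n : ℕ} {w : ℕ → ℤ} {t : ℝ} {k : ℤ} (h : LE n w t k) (h0 : 0 < t) (h1 : t < 1) :
    w 0 = 0 := by
  obtain ⟨m, h2, h3⟩ := h.ho 0
  rcases h.word.1 0 with h4 | h4
  · exact h4
  · exfalso
    rw [h4, pow_zero, one_mul] at h2 h3
    push_cast at h2 h3
    have e1 : (m : ℝ) < ((0 : ℤ) : ℝ) := by push_cast; linarith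
    have e2 : ((-1 : ℤ) : ℝ) < (m : ℝ) := by push_cast; linarith
    have e3 : m < 0 := by exact_mod_cast e1
    have e4 : -1 < m := by exact_mod_cast e2
    omega

theorem gt_of_nu {w : ℕ → ℤ} {n : ℕ} {θ : ℝ} {k : ℤ} (h : (k : ℝ) < nu w n θ) (x : ℝ) :
    x + k < gw w θ n x := by
  by_contra hcon
  push Not at hcon
  have h2 : nu w n θ ≤ k := translationNumber_le_of_le_add_int _ hcon
  exact absurd h (not_lt.2 h2)

/-! ### the limb -/

/-- the orbit of the left end of a limb does not depend on the angle in the closed limb -/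
theorem orbit_const {S q : ℕ} {u : ℕ → ℤ} {a b : ℝ} (h : CA S q u a b) (j : ℕ) :
    ∃ z ∈ AA S a j, ∀ θ, a ≤ θ → θ ≤ b → gw u θ j a = z := by
  induction j with
  | zero => exact ⟨a, by simpa using mem_AA S a 0, fun θ _ _ => rfl⟩
  | succ j ih =>
    obtain ⟨z, hz, hz'⟩ := ih
    obtain ⟨k, h1, h2⟩ := h.pos_arc hz
    refine ⟨2 * z - k, AA_dbl' hz k, fun θ h3 h4 => ?_⟩
    rw [gw_succ_apply, hz' θ h3 h4, tdbl_lin k (by linarith) (by linarith)]

/-- three point unlinking: the phase of the limb -/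
theorem phase_eq {S q : ℕ} {u : ℕ → ℤ} {i₀ : ℕ} {a b θ : ℝ} (hu : Word S u) (hi₀ : i₀ < S)
    (h : CA S q (fun j => u (i₀ + j)) a b) (h1 : a < θ) (h2 : θ < b)
    (hθ : ∀ i < S, InHalfO (θ + u i) (2 ^ i * θ)) : (fun j => u (i₀ + j)) = u := by
  by_contra hne
  have hS : 0 < S := by omega
  -- the first difference
  have hex : ∃ k, u (i₀ + k) ≠ u k := by
    by_contra hcon
    push Not at hcon
    exact hne (funext hcon)
  classical
  set k := Nat.find hex with hk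
  have hk1 : u (i₀ + k) ≠ u k := Nat.find_spec hex
  have hk2 : ∀ j < k, u (i₀ + j) = u j := fun j hj => by
    by_contra hcon
    exact Nat.find_min hex hj hcon
  have hkS : k < S := by
    by_contra hcon
    push Not at hcon
    have h3 := hk2 (k - S) (by omega)
    apply hk1
    have e1 : u (i₀ + k) = u (i₀ + (k - S)) := by
      rw [show i₀ + k = i₀ + (k - S) + S by omega, hu.2.1]
    have e2 : u k = u (k - S) := by
      conv_lhs => rw [show k = (k - S) + S by omega, hu.2.1]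
    rw [e1, h3, e2]
  -- the ray `y` of the phase `S - i₀`
  set y₀ : ℝ := 2 ^ (S - i₀) * a with hy₀
  have hy₀A : y₀ ∈ AA S a (S - i₀) := mem_AA S a _
  set y : ℝ := y₀ - ⌈y₀ - a⌉ with hy
  have hyA : y ∈ AA S a (S - i₀) := by
    have := AA_shift hy₀A (-⌈y₀ - a⌉)
    push_cast at this
    rwa [← sub_eq_add_neg] at this
  have hya : y ≤ a := by have := Int.le_ceil (y₀ - a); linarith
  have hya' : a < y + 1 := by have := Int.ceil_lt_add_one (y₀ - a); linarith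
  have hyb : b ≤ y + 1 := by
    by_contra hcon
    push Not at hcon
    refine h.nopt' (AA_shift hyA 1) 0 ?_ ?_ <;> push_cast <;> linarith
  -- orbits up to the time `k`
  have hgu : gw (fun j => u (i₀ + j)) θ k = gw u θ k := gw_congr θ k hk2
  have hYk : ∀ j, gw u θ j y ∈ AA S a (S - i₀ + j) := by
    intro j
    induction j with
    | zero => exact hyA
    | succ j ih =>
      have h3 := h.half h1 h2 (S - i₀ + j)
      have e : u (i₀ + (S - i₀ + j)) = u j := by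
        rw [show i₀ + (S - i₀ + j) = j + S by omega, hu.2.1]
      simp only [e] at h3
      obtain ⟨c, hc, -, -⟩ := tdbl_of_inHalf h3 ih
      rw [gw_succ_apply, hc]
      exact AA_dbl' ih c
  obtain ⟨ky, -, y1, y2⟩ := tdbl_of_inHalf (h.half h1 h2 (S - i₀ + k)) (hYk k)
  have e : u (i₀ + (S - i₀ + k)) = u k := by
    rw [show i₀ + (S - i₀ + k) = k + S by omega, hu.2.1]
  simp only [e] at y1 y2
  obtain ⟨-, ka, -, a1, a2⟩ := h.gw_pt h1 h2 (x := a) (by simpa using mem_AA S a 0) k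
  obtain ⟨-, kb, -, b1, b2⟩ := h.gw_pt h1 h2 h.mem k
  rw [hgu] at a1 a2 b1 b2
  obtain ⟨c, hc⟩ := gw_lin u θ θ k fun i hi => by
    obtain ⟨m, h3, h4⟩ := hθ i (by omega)
    exact ⟨m, h3.le, h4.le⟩
  obtain ⟨kt, t1, t2⟩ := hθ k hkS
  have t1' : (θ + u k) / 2 + ((kt - c : ℤ) : ℝ) < gw u θ k θ := by rw [hc]; push_cast; linarith
  have t2' : gw u θ k θ < (θ + u k) / 2 + ((kt - c : ℤ) : ℝ) + 1 / 2 := by
    rw [hc]; push_cast; linarith
  have g1 : gw u θ k y ≤ gw u θ k a := (gw u θ k).monotone hya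
  have g2 : gw u θ k a ≤ gw u θ k θ := (gw u θ k).monotone h1.le
  have g3 : gw u θ k θ ≤ gw u θ k b := (gw u θ k).monotone h2.le
  have g4 : gw u θ k b ≤ gw u θ k y + 1 := by
    rw [← map_add_one]; exact (gw u θ k).monotone hyb
  -- compare the numbers of the arcs
  have key : ∀ (v v' : ℤ) (p r : ℝ) (ep er : ℤ),
      (θ + ep) / 2 + v < p → r < (θ + er) / 2 + v' + 1 / 2 → p ≤ r → ep + 2 * v ≤ er + 2 * v' := by
    intro v v' p r ep er h3 h4 h5
    have : ((ep + 2 * v : ℤ) : ℝ) < ((er + 2 * v' + 1 : ℤ) : ℝ) := by push_cast; linarith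
    have h6 : ep + 2 * v < er + 2 * v' + 1 := by exact_mod_cast this
    omega
  have k1 := key ky ka _ _ _ _ y1 a2 g1
  have k2 := key ka (kt - c) _ _ _ _ a1 t2' g2
  have k3 := key (kt - c) kb _ _ _ _ t1' b2 g3
  have k4 := key kb (ky + 1) (gw u θ k b) (gw u θ k y + 1) (u (i₀ + k)) (u k) b1
    (by push_cast; linarith) g4
  have hb1 := hu.1 k
  have hb2 := hu.1 (i₀ + k)
  omega

/-- **no continuation of the periodic pattern** -/
theorem last_ne {S q n : ℕ} {u w : ℕ → ℤ} {a b t : ℝ} {k : ℤ} (h : CA S q u a b) (ha : a ≤ t)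
    (hb : t < b) (hfix : gw w t n t = t + k) (hgt : ∀ θ, t < θ → (k : ℝ) < nu w n θ)
    (hag : ∀ j < n, w j = u j) : False := by
  obtain ⟨z, hz, hz'⟩ := orbit_const h n
  have h1 : gw w t n a = z := by rw [gw_congr t n hag]; exact hz' t ha hb.le
  have h2 : z ≤ t + k := by rw [← h1, ← hfix]; exact (gw w t n).monotone ha
  set θ := (t + b) / 2 with hθ
  have h3 : gw w θ n a = z := by
    rw [gw_congr θ n hag]; exact hz' θ (by linarith) (by linarith)
  have h4 := gt_of_nu (hgt θ (by linarith)) a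
  rw [h3] at h4
  exact h.nopt' hz k h4 (by linarith)

theorem last_ne_end {S q n : ℕ} {u w : ℕ → ℤ} {a b : ℝ} {k : ℤ} (h : CA S q u a b)
    (hSn : S < n) (hLE : LE n w b k) (hag : ∀ j < n, w j = u j) : False := by
  have h1 : n ∣ S * q := hLE.dvd h.per_t
  obtain ⟨c, hc⟩ := hLE.per
  have h2 : S * q ∣ n := h.dvd_of_per h.mem (j := n) (m := c) (by linarith)
  have h3 : n = S * q := Nat.dvd_antisymm h1 h2
  have hSd : S ∣ n := ⟨q, h3⟩
  have hn := hLE.pos
  have hwu : w = u := by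
    funext j
    have e1 : w j = w (j % n) := by
      conv_lhs => rw [← Nat.mod_add_div j n]
      exact word_mod hLE.word.2.1 _ _
    have e2 : u j = u (j % n) := by
      conv_lhs => rw [← Nat.mod_add_div j n]
      obtain ⟨e, he⟩ := hSd
      rw [he, mul_assoc]
      exact word_mod h.word.2.1 _ _
    rw [e1, e2]
    exact hag _ (Nat.mod_lt _ hn)
  obtain ⟨i, hi⟩ := hLE.word.2.2 S h.pos hSn
  apply hi
  rw [hwu]
  exact h.word.2.1 i

/-- **the theorem in the characteristic phase** -/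
theorem no_two {n : ℕ} {w w₁ : ℕ → ℤ} {t t₁ : ℝ} {k k₁ : ℤ} (h : LE n w t k) (h₁ : LE n w₁ t₁ k₁)
    (hgt : ∀ θ, t < θ → (k : ℝ) < nu w n θ) (hgt₁ : ∀ θ, t₁ < θ → (k₁ : ℝ) < nu w₁ n θ)
    (hnu₁ : nu w₁ n t₁ = k₁) (htt : t < t₁) (h0 : 0 < t) (h1 : t₁ < 1)
    (H : ∀ S, 0 < S → S < n → ∀ u, Word S u →
      ((∀ m : ℤ, nu u S t ≠ m) ∨ ∀ m : ℤ, nu u S t₁ ≠ m) → nu u S t = nu u S t₁) : False := by
  have hw := h.word.1
  have hw₁ := h₁.word.1
  have hn := h.pos
  -- `n ≥ 2`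
  obtain ⟨L, rfl⟩ : ∃ L, n = L + 1 := ⟨n - 1, by omega⟩
  have hL : 1 ≤ L := by
    by_contra hcon
    have hL0 : L = 0 := by omega
    subst hL0
    obtain ⟨c, hc⟩ := h.per
    rw [zero_add, pow_one] at hc
    have e1 : ((0 : ℤ) : ℝ) < (c : ℝ) := by push_cast; linarith
    have e2 : (c : ℝ) < ((1 : ℤ) : ℝ) := by push_cast; linarith
    have e3 : 0 < c := by exact_mod_cast e1
    have e4 : c < 1 := by exact_mod_cast e2
    omega
  -- step 1: the kneading sequences agree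
  have hag : ∀ j < L, w j = w₁ j := by
    by_contra hcon
    push Not at hcon
    classical
    set j₀ := Nat.find hcon with hj₀
    obtain ⟨hjL, hjne⟩ := Nat.find_spec hcon
    have hmin : ∀ j < j₀, w j = w₁ j := fun j hj => by
      by_contra hc
      exact Nat.find_min hcon hj ⟨by omega, hc⟩
    have hj1 : 1 ≤ j₀ := by
      by_contra hc
      have hz : j₀ = 0 := by omega
      rw [← hj₀, hz] at hjne
      exact hjne ((sym_zero h h0 (by linarith)).trans (sym_zero h₁ (by linarith) h1).symm)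
    rw [← hj₀] at hjL hjne
    have hs : ∀ i ≤ j₀, InHalfO (t + w i) (2 ^ i * t) := fun i hi => strict_of_LE h (by omega)
    have hs₁ : ∀ i ≤ j₀, InHalfO (t₁ + w₁ i) (2 ^ i * t₁) := fun i hi => strict_of_LE h₁ (by omega)
    obtain ⟨j, hj⟩ : ∃ j, j₀ = j + 1 := ⟨j₀ - 1, by omega⟩
    have hst : st w 0 1 j = st w₁ 0 1 j := st_congr (N := j₀) hmin j (by omega) one_pos
    have hsle := st_le w 0 1 j
    have hsym : w (st w 0 1 j) = w₁ (st w 0 1 j) := hmin _ (by omega)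
    by_cases hc : w (st w 0 1 j) = w j₀
    · -- the other word resets
      have hc1 : w₁ (st w₁ 0 1 j) ≠ w₁ (1 + j) := by
        rw [← hst, ← hsym, hc, show 1 + j = j₀ by omega]; exact hjne
      refine case_first hj1 hw₁ hw (fun i hi => (hmin i hi).symm) hjne.symm hs₁ hs ?_ ?_
      · rw [hj, st_succ, stp, if_neg hc1]
      · intro u hu hm
        exact (H _ (by omega) (by omega) u hu (Or.inr hm)).symm
    · have hc1 : w (st w 0 1 j) ≠ w (1 + j) := by
        rw [show 1 + j = j₀ by omega]; exact hc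
      refine case_first hj1 hw hw₁ hmin hjne hs hs₁ ?_ ?_
      · rw [hj, st_succ, stp, if_neg hc1]
      · intro u hu hm
        exact H _ (by omega) (by omega) u hu (Or.inl hm)
  -- step 2: the last reset
  obtain ⟨hb1, hb2⟩ := st_back w 1 (L - 1)
  have hsle := st_le w 0 1 (L - 1)
  set s := st w 0 1 (L - 1) with hs
  set S := L - s with hS
  have hS0 : 0 < S := by omega
  have hSL : S ≤ L := by omega
  have hr : st w 0 1 (S - 1) = 0 := by
    rw [show S - 1 = L - 1 - s by omega]; exact hb1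
  have hmatch : ∀ j < L, w j = pe w S j := by
    intro j
    induction j using Nat.strong_induction_on with
    | _ j ih =>
      intro hj
      rcases Nat.lt_or_ge j S with h2 | h2
      · rw [pe_of_lt h2]
      · have h3 := hb2 (j - S) (by omega)
        rw [show 1 + (L - 1 - s) + (j - S) = j by omega] at h3
        have h4 := ih (j - S) (by omega) (by omega)
        rw [← h3, h4, ← pe_per, Nat.sub_add_cancel h2]
  set u := pe w S with hu
  obtain ⟨hur, huW⟩ := pe_word hw hS0 hr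
  have hni : ∀ m : ℤ, nu u S t ≠ m := fun m =>
    nu_ne_int hS0 (pe_bit hw _) (pe_per w _) hur
      (fun i hi => by rw [pe_of_lt hi]; exact strict_of_LE h (by omega)) m
  have hEq := H S hS0 (by omega) u huW (Or.inl hni)
  -- rational
  obtain ⟨Q, P, hQ, hQn, hPQ⟩ := weak_gap u S (L + 1) (by omega) h.per
  set r : ℚ := (P : ℚ) / Q with hrdef
  have hnr : nu u S t = (r.num : ℝ) / (r.den : ℕ) := by
    have e1 : nu u S t = ((r : ℚ) : ℝ) := by rw [hPQ, hrdef]; push_cast; ring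
    rw [e1]
    exact (Rat.cast_def r)
  have hq2 : 2 ≤ r.den := by
    by_contra hc
    have hd : r.den = 1 := by have := r.den_pos; omega
    rw [hd] at hnr
    exact hni r.num (by rw [hnr]; simp)
  have hcop : IsCoprime r.num (r.den : ℤ) := by
    rw [Int.isCoprime_iff_gcd_eq_one]
    exact r.reduced
  obtain ⟨i₀, hi₀, a, b, hCA, hpl⟩ := exists_arc hS0 hq2 huW hcop
  have hat := (hpl t).1 (by rw [nu_shift_word u S huW.2.1]; exact hnr)
  have hbt := (hpl t₁).1 (by rw [nu_shift_word u S huW.2.1, ← hEq]; exact hnr)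
  have htb : t < b := by linarith [hbt.2]
  -- the phase
  have hopen : ∀ᶠ θ in 𝓝[>] t, ∀ i ∈ Finset.range S, InHalfO (θ + u i) (2 ^ i * θ) := by
    rw [Finset.eventually_all]
    intro i hi
    have hi' := Finset.mem_range.1 hi
    obtain ⟨m, h2, h3⟩ := strict_of_LE h (i := i) (by omega)
    have c1 : Continuous fun θ : ℝ => 2 ^ i * θ - ((θ + u i) / 2 + m) := by fun_prop
    have c2 : Continuous fun θ : ℝ => (θ + u i) / 2 + m + 1 / 2 - 2 ^ i * θ := by fun_prop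
    have hui : u i = w i := pe_of_lt hi'
    have e1 := (c1.tendsto t).eventually (lt_mem_nhds (show (0 : ℝ) < _ by rw [hui]; linarith))
    have e2 := (c2.tendsto t).eventually (lt_mem_nhds (show (0 : ℝ) < _ by rw [hui]; linarith))
    filter_upwards [mem_nhdsWithin_of_mem_nhds e1, mem_nhdsWithin_of_mem_nhds e2] with θ h4 h5
    exact ⟨m, by linarith, by linarith⟩
  have hltb : ∀ᶠ θ in 𝓝[>] t, θ < b := mem_nhdsWithin_of_mem_nhds (gt_mem_nhds htb)
  obtain ⟨θ, ⟨h2, h3⟩, h4⟩ := ((hopen.and hltb).and self_mem_nhdsWithin).exists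
  have h4' : t < θ := h4
  have hph := phase_eq huW hi₀ hCA (lt_of_le_of_lt hat.1 h4') h3
    fun i hi => h2 i (Finset.mem_range.2 hi)
  rw [hph] at hCA
  -- the last symbols
  have hlast : w L ≠ u L := by
    intro hc
    refine last_ne (n := L + 1) hCA hat.1 htb h.fix hgt fun j hj => ?_
    rcases Nat.lt_succ_iff_lt_or_eq.1 hj with h5 | h5
    · exact hmatch j h5
    · rw [h5]; exact hc
  have hag₁ : ∀ j < L, w₁ j = u j := fun j hj => (hag j hj).symm.trans (hmatch j hj)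
  have hlast₁ : w₁ L ≠ u L := by
    intro hc
    have hall : ∀ j < L + 1, w₁ j = u j := fun j hj => by
      rcases Nat.lt_succ_iff_lt_or_eq.1 hj with h5 | h5
      · exact hag₁ j h5
      · rw [h5]; exact hc
    rcases hbt.2.lt_or_eq with h5 | h5
    · exact last_ne (n := L + 1) hCA hbt.1 h5 h₁.fix hgt₁ hall
    · subst h5
      exact last_ne_end hCA (by omega) h₁ hall
  have hwL : w L = w₁ L := by
    have hub := pe_bit hw S L
    rw [← hu] at hub
    rcases hw L with h5 | h5 <;> rcases hw₁ L with h6 | h6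
    · rw [h5, h6]
    · exfalso
      rcases hub with h7 | h7
      · exact hlast (h5.trans h7.symm)
      · exact hlast₁ (h6.trans h7.symm)
    · exfalso
      rcases hub with h7 | h7
      · exact hlast₁ (h6.trans h7.symm)
      · exact hlast (h5.trans h7.symm)
    · rw [h5, h6]
  have hww : ∀ j < L + 1, w j = w₁ j := fun j hj => by
    rcases Nat.lt_succ_iff_lt_or_eq.1 hj with h5 | h5
    · exact hag j h5
    · rw [h5]; exact hwL
  -- step 3: `k < k₁`
  have hk : k < k₁ := by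
    have h5 := hgt t₁ htt
    have h6 : nu w (L + 1) t₁ = k₁ := by
      rw [← hnu₁]; unfold nu; rw [gw_congr t₁ (L + 1) hww]
    rw [h6] at h5
    exact_mod_cast h5
  have hk' : (k : ℝ) + 1 ≤ k₁ := by exact_mod_cast hk
  have e1 := pre_last h
  have e2 := pre_last h₁
  obtain ⟨z, -, hz⟩ := orbit_const hCA L
  have f1 : gw w t L a = z := by rw [gw_congr t L hmatch]; exact hz t hat.1 htb.le
  have f2 : gw w₁ t₁ L a = z := by rw [gw_congr t₁ L hag₁]; exact hz t₁ hbt.1 hbt.2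
  have g1 : gw w t L a ≤ gw w t L t := (gw w t L).monotone hat.1
  have g2 : gw w₁ t₁ L t₁ ≤ gw w₁ t₁ L a + 1 := by
    rw [← map_add_one]
    refine (gw w₁ t₁ L).monotone ?_
    have := hCA.lt'
    linarith [hbt.2]
  rw [e1, f1] at g1
  rw [e2, f2, ← hwL] at g2
  push_cast at g1 g2
  linarith

/-- the left end determines the label in the characteristic phase -/
theorem label_unique {n : ℕ} {w w₁ : ℕ → ℤ} {t : ℝ} {k k₁ : ℤ} (h : LE n w t k)
    (h₁ : LE n w₁ t k₁) : w = w₁ ∧ k = k₁ := by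
  have h2 := HO.word_eq h.word.1 h₁.word.1 h.ho h₁.ho
  subst h2
  have h3 := h.fix
  rw [h₁.fix] at h3
  have h4 : (k₁ : ℝ) = k := by linarith
  exact ⟨rfl, by exact_mod_cast h4.symm⟩

/-- **separation theorem**: two labels of exact period `n` whose left ends are in `(0, 1)`, and which
no cycle of smaller exact period separates, are the same -/
theorem sep {n : ℕ} (hn : 0 < n) {w w₁ : ℕ → ℤ} (hw : Word n w) (hw₁ : Word n w₁) {k k₁ : ℤ}
    {t t₁ : ℝ} (ht0 : 0 < t) (ht1 : t < 1) (ht0' : 0 < t₁) (ht1' : t₁ < 1) (hl : nu w n t = k)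
    (hgt : ∀ θ, t < θ → (k : ℝ) < nu w n θ) (hl₁ : nu w₁ n t₁ = k₁)
    (hgt₁ : ∀ θ, t₁ < θ → (k₁ : ℝ) < nu w₁ n θ)
    (H : ∀ S, 0 < S → S < n → ∀ u, Word S u →
      ((∀ m : ℤ, nu u S t ≠ m) ∨ ∀ m : ℤ, nu u S t₁ ≠ m) → nu u S t = nu u S t₁) :
    t = t₁ ∧ k = k₁ ∧ ∃ i i₁ : ℕ, i < n ∧ i₁ < n ∧ ∀ j, w (i + j) = w₁ (i₁ + j) := by
  obtain ⟨i, hi, hLE⟩ := exists_LE hn hw hl hgt
  obtain ⟨i₁, hi₁, hLE₁⟩ := exists_LE hn hw₁ hl₁ hgt₁
  have e : ∀ θ, nu (fun j => w (i + j)) n θ = nu w n θ := fun θ => nu_shift_word w n hw.2.1 θ i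
  have e₁ : ∀ θ, nu (fun j => w₁ (i₁ + j)) n θ = nu w₁ n θ := fun θ =>
    nu_shift_word w₁ n hw₁.2.1 θ i₁
  have htt : t = t₁ := by
    rcases lt_trichotomy t t₁ with h | h | h
    · exact (no_two hLE hLE₁ (fun θ hθ => by rw [e]; exact hgt θ hθ)
        (fun θ hθ => by rw [e₁]; exact hgt₁ θ hθ) (by rw [e₁]; exact hl₁) h ht0 ht1' H).elim
    · exact h
    · exact (no_two hLE₁ hLE (fun θ hθ => by rw [e₁]; exact hgt₁ θ hθ)
        (fun θ hθ => by rw [e]; exact hgt θ hθ) (by rw [e]; exact hl) h ht0' ht1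
        fun S hS hSn u hu hm => (H S hS hSn u hu hm.symm).symm).elim
  subst htt
  obtain ⟨h1, h2⟩ := label_unique hLE hLE₁
  exact ⟨rfl, h2, i, i₁, hi, hi₁, fun j => congrFun h1 j⟩

end Pool.Agent.Work.MLC.Sep
end

section
set_option autoImplicit false

/-! # The final statements, all hyperbolic components, generic constants (helper6) -/

namespace Pool.Agent.Work.MLC

open N62a1eb23 Set Filter Topology Metric

lemma deriv_eq_mulG (n : ℕ) (r b : ℂ) : deriv ((fun z : ℂ => z ^ 2 + r)^[n]) b = mul n (r, b) :=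
  (hasDerivAt_it r n b).deriv

theorem resG_limbBound {C₀ C₁ C₂ : ℝ} {k A : ℕ} (hA : A = 2 * k + 2) (hC₀ : 2 ≤ C₀)
    (hC₁ : 2000 * C₀ ^ 2 ≤ C₁) (hC₂ : 480 * C₀ ^ 2 ≤ C₂)
    (hRP : RootPiece fun n => 1 / (C₀ * n ^ k)) :
    ∀ (n p q : ℕ) (r b : ℂ), 0 < n → 0 < p → p < q →
    Nat.Coprime p q → (fun z : ℂ => z ^ 2 + r)^[n] b = b →
    deriv ((fun z : ℂ => z ^ 2 + r)^[n]) b = Complex.exp (2 * Real.pi * (p / q) * Complex.I) →
    (∀ z ∈ mandelbrotSet \ connectedComponentIn (mandelbrotSet \ {r}) 0,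
      dist z r ≤ 50 * (n ^ 2 * q / (min (p : ℝ) (q - p)) ^ 2) ∧
      dist z r ≤ C₁ * (n ^ A / q)) ∧
    (6 * (n : ℝ) ^ 2 * q ≤ (min (p : ℝ) (q - p)) ^ 2 ∨ C₂ * (n : ℝ) ^ A ≤ q →
      IsCompact (mandelbrotSet \ connectedComponentIn (mandelbrotSet \ {r}) 0) ∧
      IsConnected (mandelbrotSet \ connectedComponentIn (mandelbrotSet \ {r}) 0) ∧
      r ∈ closure ((mandelbrotSet \ connectedComponentIn (mandelbrotSet \ {r}) 0) ∩
        interior mandelbrotSet)) := by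
  subst hA
  intro n p q r b hn hp hpq hcop hb hm
  have hb' : it r n b = b := hb
  have hm' : mul n (r, b) = Complex.exp (2 * Real.pi * (p / q) * Complex.I) := by
    rw [← hm]
    exact (deriv_eq_mulG n r b).symm
  have hq : 0 < q := hp.trans hpq
  have hq' : (0 : ℝ) < q := by exact_mod_cast hq
  refine ⟨fun z hz => ⟨limb_dist inputs34 hn hp hpq hcop hb' hm' z hz, ?_⟩, ?_⟩
  · refine ((root_bound' hC₀ hRP hn hp hpq hcop hb' hm').2 z hz).trans ?_
    exact mul_le_mul_of_nonneg_right hC₁ (by positivity)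
  · rintro (hsm | hsm)
    · have hn1 : (1 : ℝ) ≤ n := by exact_mod_cast hn
      have hp' : (0 : ℝ) < p := by exact_mod_cast hp
      have hpq' : (p : ℝ) < q := by exact_mod_cast hpq
      have hm0 : 0 < min (p : ℝ) (q - p) := lt_min hp' (by linarith)
      have hlog2 : Real.log 2 < 0.6931471808 := Real.log_two_lt_d9
      have hnq : 0 < (n : ℝ) ^ 2 * q := by positivity
      have hq3 : 3 ≤ q := by
        by_contra hcon
        have h1 : q ≤ 2 := by omega
        have h2 : (q : ℝ) ≤ 2 := by exact_mod_cast h1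
        have h3 : min (p : ℝ) (q - p) ≤ 1 := by
          have h1 := min_le_left (p : ℝ) (q - p)
          have h2 := min_le_right (p : ℝ) (q - p)
          linarith
        have h4 : (min (p : ℝ) (q - p)) ^ 2 ≤ 1 := pow_le_one₀ hm0.le h3
        have h5 : (1 : ℝ) ≤ q := by exact_mod_cast hq
        nlinarith
      obtain ⟨h1, h2, -, h3, -⟩ := limb_canon inputs34 hn hp hpq hcop hb' hm' hq3 (by nlinarith)
      exact ⟨h1, h2, h3⟩
    · refine root_canon hC₀ hRP hn hp hpq hcop hb' hm' ?_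
      exact (mul_le_mul_of_nonneg_right hC₂ (by positivity)).trans hsm

theorem resG_localConn {C₀ C₁ C₂ : ℝ} {k A : ℕ} (hA : A = 2 * k + 2) (hC₀ : 2 ≤ C₀)
    (hC₁ : 2000 * C₀ ^ 2 ≤ C₁) (hC₂ : 480 * C₀ ^ 2 ≤ C₂)
    (hRP : RootPiece fun n => 1 / (C₀ * n ^ k)) :
    ∃ S ⊆ frontier mandelbrotSet,
    (∀ c₀ : ℂ, c₀ ∈ S ↔ c₀ ∈ mandelbrotSet ∧ ∀ N : ℕ, ∃ (n p q : ℕ) (r b : ℂ), N ≤ n ∧
      0 < n ∧ 0 < p ∧ p < q ∧ Nat.Coprime p q ∧ (fun z : ℂ => z ^ 2 + r)^[n] b = b ∧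
      deriv ((fun z : ℂ => z ^ 2 + r)^[n]) b = Complex.exp (2 * Real.pi * (p / q) * Complex.I) ∧
      c₀ ≠ r ∧ c₀ ∉ connectedComponentIn (mandelbrotSet \ {r}) 0 ∧
      (16 * Real.log 2 * (n : ℝ) ^ 2 * q ≤ (min (p : ℝ) (q - p)) ^ 2 ∨
        C₂ * (n : ℝ) ^ A ≤ q)) ∧
    (∃ G ⊆ S, IsGδ G ∧ frontier mandelbrotSet ⊆ closure G) ∧
    (∀ U : Set ℂ, IsOpen U → (U ∩ frontier mandelbrotSet).Nonempty → ¬ (S ∩ U).Countable) ∧
    ∀ c₀ ∈ S, ∀ U ∈ 𝓝 c₀, ∃ r : ℂ, ∃ V ⊆ U,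
      V = mandelbrotSet \ connectedComponentIn (mandelbrotSet \ {r}) 0 ∧ IsCompact V ∧
      IsConnected V ∧ V ∈ 𝓝[mandelbrotSet] c₀ := by
  subst hA
  have hlog : 0 < Real.log 2 := Real.log_pos (by norm_num)
  let S : Set ℂ := {c₀ | c₀ ∈ mandelbrotSet ∧ ∀ N : ℕ, ∃ (n p q : ℕ) (r b : ℂ), N ≤ n ∧
      0 < n ∧ 0 < p ∧ p < q ∧ Nat.Coprime p q ∧ (fun z : ℂ => z ^ 2 + r)^[n] b = b ∧
      deriv ((fun z : ℂ => z ^ 2 + r)^[n]) b = Complex.exp (2 * Real.pi * (p / q) * Complex.I) ∧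
      c₀ ≠ r ∧ c₀ ∉ connectedComponentIn (mandelbrotSet \ {r}) 0 ∧
      (16 * Real.log 2 * (n : ℝ) ^ 2 * q ≤ (min (p : ℝ) (q - p)) ^ 2 ∨
        C₂ * (n : ℝ) ^ (2 * k + 2) ≤ q)}
  have hP6 : ∀ c₀ ∈ mandelbrotSet, NV.Prop6 (1 / 4) c₀ → c₀ ∈ S := by
    intro c₀ h1 h2
    refine ⟨h1, fun N => ?_⟩
    obtain ⟨n, p, q, r, b, h3, h4, h5, h6, h7, h8, h9, h10, h11, h12⟩ := h2 N
    exact ⟨n, p, q, r, b, h3, h4, h5, h6, h7, h8, (deriv_eq_mulG n r b).trans h9,
      h11.symm, h12, Or.inl (by linarith)⟩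
  have hbasis : ∀ c₀ ∈ S, c₀ ∈ frontier mandelbrotSet ∧ ∀ U ∈ 𝓝 c₀, ∃ r : ℂ, ∃ V ⊆ U,
      V = mandelbrotSet \ connectedComponentIn (mandelbrotSet \ {r}) 0 ∧ IsCompact V ∧
      IsConnected V ∧ V ∈ 𝓝[mandelbrotSet] c₀ := by
    rintro c₀ ⟨h1, h2⟩
    refine basis_root hC₀ hRP h1 fun N => ?_
    obtain ⟨n, p, q, r, b, h3, h4, h5, h6, h7, h8, h9, h10, h11, h12⟩ := h2 N
    refine ⟨n, p, q, r, b, h3, h4, h5, h6, h7, h8, (deriv_eq_mulG n r b).symm.trans h9,
      h10.symm, fun h13 => h11 ?_, ?_⟩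
    · rw [← h13]
      exact mem_connectedComponentIn ⟨h1, h10⟩
    · rcases h12 with h12 | h12
      · exact Or.inl h12
      · right
        exact (mul_le_mul_of_nonneg_right hC₂ (by positivity)).trans h12
  refine ⟨S, fun c₀ hc₀ => (hbasis c₀ hc₀).1, fun c₀ => Iff.rfl, ?_, fun U hU hne hS => ?_,
    fun c₀ hc₀ => (hbasis c₀ hc₀).2⟩
  · obtain ⟨G, hG, hGf, hGc, hGp⟩ := Dens.exists_gdelta_prop6
    exact ⟨G, fun c hc => hP6 c (inputs34.cpt.isClosed.frontier_subset (hGf hc)) (hGp c hc),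
      hG, hGc⟩
  · refine Dens.uncountable_local hU hne (hS.mono ?_)
    rintro c₀ ⟨⟨h1, hcU⟩, h2⟩
    exact ⟨hP6 c₀ h1 h2, hcU⟩

end Pool.Agent.Work.MLC
end

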