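import Pool.Agent.Work.MLCM.C32
import Pool.Agent.Work.MLCM.C55
import Pool.Agent.Work.MLCM.C60
import Pool.Agent.Work.MLCM.C61
import Pool.Agent.Work.MLCM.C63
import Pool.Agent.Work.MLCM.C65
import Pool.Agent.Work.MLCM.C66
import Pool.Agent.Work.MLCM.C69
import Pool.Agent.Work.MLCM.C70

section
set_option autoImplicit false

/-! # Theorem F, module G4: the ends of level `N` are dense at the scale `2 ^ (-N)` (helper78)

* `gs_exact`: `k / (2 ^ N - 1)` or `(k + 1) / (2 ^ N - 1)` has exact period `N` (the cyclotomic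
  value divides the numerators of the others).
* `gs_end`: every angle `t` of exact period `N` is the left end of a strip, or `-t` is (by
  helper70's parse of the itinerary of `t`).
* `gs_nu_refl`: reflection of the rotation numbers.
* `gs_sep_dat`: two ends of the same kind are separated by a plateau of level `N` (SEP).
* `g4_short`: every interval of length `16 / 2 ^ N` contains an end of a plateau of level `N`. -/

namespace Pool.Agent.Work.MLC.Cnt

open Filter Topology Metric Set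
open Pool.Agent.Work.MLC.Circ Pool.Agent.Work.MLC.Sep CircleDeg1Lift

/-! ### Angles of exact period `N` -/

/-! ### Reflection -/

lemma gs_floor_neg (y : ℝ) : Circ.phi (1 / 2 - y) = 1 - Circ.phi y := by
  -- `y = ⌊y⌋ + fract y`
  set k := ⌊y⌋ with hk
  have h1 := Int.floor_le y
  have h2 := Int.lt_floor_add_one y
  rw [← hk] at h1 h2
  rcases le_total y (k + 1 / 2) with h | h
  · rw [phi_of_lin k h1 h, phi_of_lin (-k) (by push_cast; linarith) (by push_cast; linarith)]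
    push_cast; ring
  · rw [phi_of_flat k h h2.le, phi_of_flat (-k - 1) (by push_cast; linarith) (by push_cast; linarith)]
    push_cast; ring

lemma gs_tdbl_refl (s x : ℝ) : tdbl (1 - s) (-x) = 1 - tdbl s x := by
  rw [tdbl_apply, tdbl_apply]
  have h1 := gs_floor_neg (x - s / 2)
  have h2 : Circ.phi (-x - (1 - s) / 2) = Circ.phi (1 / 2 - (x - s / 2)) - 1 := by
    have h3 := phi_add_int (-x - (1 - s) / 2) 1
    push_cast at h3
    have h4 : -x - (1 - s) / 2 + 1 = 1 / 2 - (x - s / 2) := by ring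
    rw [h4] at h3
    linarith
  rw [h2, h1]
  ring

lemma gs_gw_refl (w : ℕ → ℤ) (θ x : ℝ) (n : ℕ) :
    gw (fun i => 1 - w i) (-θ) n (-x) = n - gw w θ n x := by
  induction n with
  | zero => simp
  | succ n ih =>
    rw [gw_succ_apply, gw_succ_apply, ih]
    have h1 : -θ + ((1 - w n : ℤ) : ℝ) = 1 - (θ + w n) := by push_cast; ring
    have h2 : (n : ℝ) - gw w θ n x = -(gw w θ n x) + ((n : ℤ) : ℝ) := by push_cast; ring
    rw [h1, h2, map_add_int, gs_tdbl_refl]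
    push_cast; ring

lemma gs_nu_refl (w : ℕ → ℤ) (θ : ℝ) (n : ℕ) : nu (fun i => 1 - w i) n (-θ) = n - nu w n θ := by
  have hit : ∀ (j : ℕ) (x : ℝ), (gw (fun i => 1 - w i) (-θ) n)^[j] (-x) =
      j * n - (gw w θ n)^[j] x := by
    intro j
    induction j with
    | zero => intro x; simp
    | succ j ih =>
      intro x
      rw [Function.iterate_succ_apply', Function.iterate_succ_apply', ih]
      have h2 : (j : ℝ) * n - (gw w θ n)^[j] x = -((gw w θ n)^[j] x) + ((j * n : ℤ) : ℝ) := by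
        push_cast; ring
      rw [h2, map_add_int, gs_gw_refl]
      push_cast; ring
  set δ := nu (fun i => 1 - w i) n (-θ) - (n - nu w n θ) with hδ
  have hb : ∀ j : ℕ, j * |δ| ≤ 2 := by
    intro j
    have h1 := nu_sub_le (fun i => 1 - w i) n (-θ) (-0) j
    have h2 := nu_sub_le w n θ 0 j
    rw [hit] at h1
    rw [abs_le] at h1 h2
    have h3 : (j : ℝ) * |δ| = |(j : ℝ) * δ| := by rw [abs_mul, Nat.abs_cast]
    rw [h3, abs_le, hδ]
    constructor <;> nlinarith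
  have h0 : |δ| = 0 := by
    by_contra hne
    have hpos : 0 < |δ| := lt_of_le_of_ne (abs_nonneg _) (Ne.symm hne)
    obtain ⟨j, hj⟩ := exists_nat_gt (2 / |δ|)
    have h1 := hb j
    rw [div_lt_iff₀ hpos] at hj
    linarith
  have h1 : δ = 0 := abs_eq_zero.1 h0
  rw [hδ] at h1
  linarith

/-! ### Every angle of exact period `n` is an end -/

/-- the left closed itinerary -/
noncomputable def wL (t : ℝ) (j : ℕ) : ℤ := ⌊2 ^ (j + 1) * t - t⌋ % 2

/-- the right closed itinerary -/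
noncomputable def wR (t : ℝ) (j : ℕ) : ℤ := (⌈2 ^ (j + 1) * t - t⌉ - 1) % 2

lemma wL_bit (t : ℝ) (j : ℕ) : wL t j = 0 ∨ wL t j = 1 := by unfold wL; omega

lemma wR_bit (t : ℝ) (j : ℕ) : wR t j = 0 ∨ wR t j = 1 := by unfold wR; omega

lemma wL_in (t : ℝ) (j : ℕ) : ∃ k : ℤ, (t + wL t j) / 2 + k ≤ 2 ^ j * t ∧
    2 ^ j * t < (t + wL t j) / 2 + k + 1 / 2 := by
  set z := ⌊2 ^ (j + 1) * t - t⌋ with hz
  refine ⟨z / 2, ?_⟩
  have h1 := Int.floor_le (2 ^ (j + 1) * t - t)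
  have h2 := Int.lt_floor_add_one (2 ^ (j + 1) * t - t)
  rw [← hz] at h1 h2
  have h3 : (wL t j : ℤ) + 2 * (z / 2) = z := by unfold wL; omega
  have h4 : (wL t j : ℝ) + 2 * ((z / 2 : ℤ) : ℝ) = z := by exact_mod_cast h3
  rw [pow_succ] at h1 h2
  constructor <;> linarith

lemma wR_in (t : ℝ) (j : ℕ) : ∃ k : ℤ, (t + wR t j) / 2 + k < 2 ^ j * t ∧
    2 ^ j * t ≤ (t + wR t j) / 2 + k + 1 / 2 := by
  set z := ⌈2 ^ (j + 1) * t - t⌉ with hz
  refine ⟨(z - 1) / 2, ?_⟩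
  have h1 := Int.le_ceil (2 ^ (j + 1) * t - t)
  have h2 := Int.ceil_lt_add_one (2 ^ (j + 1) * t - t)
  rw [← hz] at h1 h2
  have h3 : (wR t j : ℤ) + 2 * ((z - 1) / 2) = z - 1 := by unfold wR; omega
  have h4 : (wR t j : ℝ) + 2 * (((z - 1) / 2 : ℤ) : ℝ) = z - 1 := by exact_mod_cast h3
  rw [pow_succ] at h1 h2
  constructor <;> linarith

lemma wL_per {t : ℝ} {n : ℕ} {a : ℤ} (ha : (2 : ℝ) ^ n * t - t = a) (i : ℕ) :
    wL t (i + n) = wL t i := by
  have h1 : (2 : ℝ) ^ (i + n + 1) * t - t = (2 ^ (i + 1) * t - t) + ((2 ^ (i + 1) * a : ℤ) : ℝ) := by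
    have e : (2 : ℝ) ^ (i + n + 1) * t = 2 ^ (i + 1) * (2 ^ n * t) := by rw [← mul_assoc, ← pow_add]; ring_nf
    have e2 : (2 : ℝ) ^ n * t = t + a := by linarith
    rw [e, e2]; push_cast; ring
  unfold wL
  rw [h1, Int.floor_add_intCast]
  have h2 : (2 : ℤ) ^ (i + 1) * a = 2 * (2 ^ i * a) := by rw [pow_succ]; ring
  rw [h2]
  omega

lemma wR_per {t : ℝ} {n : ℕ} {a : ℤ} (ha : (2 : ℝ) ^ n * t - t = a) (i : ℕ) :
    wR t (i + n) = wR t i := by
  have h1 : (2 : ℝ) ^ (i + n + 1) * t - t = (2 ^ (i + 1) * t - t) + ((2 ^ (i + 1) * a : ℤ) : ℝ) := by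
    have e : (2 : ℝ) ^ (i + n + 1) * t = 2 ^ (i + 1) * (2 ^ n * t) := by rw [← mul_assoc, ← pow_add]; ring_nf
    have e2 : (2 : ℝ) ^ n * t = t + a := by linarith
    rw [e, e2]; push_cast; ring
  unfold wR
  rw [h1, Int.ceil_add_intCast]
  have h2 : (2 : ℤ) ^ (i + 1) * a = 2 * (2 ^ i * a) := by rw [pow_succ]; ring
  rw [h2]
  omega

/-- integral rotation number at a periodic angle which is compatible with the word -/
lemma gs_nu_int {w : ℕ → ℤ} {t : ℝ} {n : ℕ} {a : ℤ} (ha : (2 : ℝ) ^ n * t - t = a)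
    (h : ∀ i < n, ∃ k : ℤ, (t + w i) / 2 + k ≤ 2 ^ i * t ∧ 2 ^ i * t ≤ (t + w i) / 2 + k + 1 / 2) :
    ∃ K : ℤ, nu w n t = K := by
  obtain ⟨m, hm⟩ := gw_lin w t t n h
  refine ⟨a - m, ?_⟩
  have := (nu_eq_rat_iff w n t 1 one_pos (a - m)).2 ⟨t, by
    rw [pow_one, hm]; push_cast; linarith⟩
  rw [this]; simp

/-- **every angle of exact period `n` is a left end or a reflected left end** -/
theorem gs_end {n : ℕ} (hn : 2 ≤ n) {t : ℝ} {a : ℤ} (ha : (2 : ℝ) ^ n * t - t = a)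
    (hex : ∀ d, 0 < d → d < n → ¬ ∃ b : ℤ, (2 : ℝ) ^ d * t - t = b) :
    (∃ (w : ℕ → ℤ) (k : ℤ), Word n w ∧ nu w n t = k ∧ ∀ θ, t < θ → (k : ℝ) < nu w n θ) ∨
    (∃ (w : ℕ → ℤ) (k : ℤ), Word n w ∧ nu w n (-t) = k ∧ ∀ θ, -t < θ → (k : ℝ) < nu w n θ) := by
  set r := st (wL t) 0 1 (n - 2) with hr
  have hr1 : r ≤ n - 2 := by have := st_le (wL t) 0 1 (n - 2); omega
  -- the words agree below `n - 1`
  have heq : ∀ i < n - 1, wL t i = wR t i := by
    intro i hi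
    unfold wL wR
    have h1 : ¬ ∃ b : ℤ, (2 : ℝ) ^ (i + 1) * t - t = b := hex (i + 1) (by omega) (by omega)
    have h2 : ⌈(2 : ℝ) ^ (i + 1) * t - t⌉ = ⌊(2 : ℝ) ^ (i + 1) * t - t⌋ + 1 := by
      have h3 := Int.floor_le ((2 : ℝ) ^ (i + 1) * t - t)
      have h4 := Int.lt_floor_add_one ((2 : ℝ) ^ (i + 1) * t - t)
      have h5 : (⌊(2 : ℝ) ^ (i + 1) * t - t⌋ : ℝ) ≠ (2 : ℝ) ^ (i + 1) * t - t := fun h =>
        h1 ⟨_, h.symm⟩
      rw [Int.ceil_eq_iff]
      push_cast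
      constructor
      · linarith [lt_of_le_of_ne h3 h5]
      · linarith
    rw [h2]
    ring_nf
  have hne : wL t (n - 1) ≠ wR t (n - 1) := by
    unfold wL wR
    have h1 : (2 : ℝ) ^ (n - 1 + 1) * t - t = ((a : ℤ) : ℝ) := by
      rw [show n - 1 + 1 = n by omega]; exact ha
    rw [h1, Int.floor_intCast, Int.ceil_intCast]
    omega
  by_cases hc : wL t r = wL t (n - 1)
  · -- the right closed word
    right
    have hr' : st (wR t) 0 1 (n - 2) = r := by
      rw [hr]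
      exact (st_congr (N := n - 1) (fun i hi => heq i hi) (n - 2) (by omega) (by omega)).symm
    have hS : st (wR t) 0 1 (n - 1) = 0 := by
      rw [show n - 1 = (n - 2) + 1 by omega, st_succ, hr', stp, if_neg]
      rw [show 1 + (n - 2) = n - 1 by omega, ← heq r (by omega), hc]
      exact hne
    have hbit := wR_bit t
    have hper := wR_per (t := t) ha
    obtain ⟨K, hK⟩ := gs_nu_int (w := wR t) ha fun i _ => by
      obtain ⟨k, h1, h2⟩ := wR_in t i
      exact ⟨k, h1.le, h2⟩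
    have hmono := nu_mono (wR t) n
    have hlt : ∀ θ, θ < t → nu (wR t) n θ < K := by
      intro θ hθ
      refine lt_of_le_of_ne (hK ▸ hmono hθ.le) fun hcon => ?_
      have hev : ∀ᶠ s : ℝ in 𝓝[<] t, ∀ i ∈ Finset.range n, InHalfO (s + wR t i) (2 ^ i * s) := by
        rw [Filter.eventually_all_finset]
        intro i _
        obtain ⟨k, h1, h2⟩ := wR_in t i
        have h3 : ∀ᶠ s : ℝ in 𝓝 t, (s + wR t i) / 2 + k < 2 ^ i * s :=
          (isOpen_lt (f := fun s : ℝ => (s + wR t i) / 2 + k) (g := fun s : ℝ => 2 ^ i * s)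
            (by fun_prop) (by fun_prop)).mem_nhds h1
        filter_upwards [h3.filter_mono nhdsWithin_le_nhds, self_mem_nhdsWithin] with s hs hst
        refine ⟨k, hs, ?_⟩
        have h4 : (1 : ℝ) ≤ 2 ^ i := one_le_pow₀ (by norm_num)
        have h5 : s < t := hst
        nlinarith
      obtain ⟨s, hs1, hs2, hs3⟩ := (hev.and ((eventually_gt_nhds hθ).filter_mono
        nhdsWithin_le_nhds |>.and self_mem_nhdsWithin)).exists
      have h1 : nu (wR t) n s = K := le_antisymm (hK ▸ hmono (le_of_lt hs3)) (hcon ▸ hmono hs2.le)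
      exact nu_ne_int (by omega) hbit hper hS (fun i hi => hs1 i (Finset.mem_range.2 hi)) K h1
    refine ⟨fun i => 1 - wR t i, n - K, ⟨fun i => ?_, fun i => ?_, fun d hd hdn => ?_⟩, ?_, ?_⟩
    · have := hbit i; show 1 - wR t i = 0 ∨ 1 - wR t i = 1; omega
    · show 1 - wR t (i + n) = 1 - wR t i; rw [hper]
    · obtain ⟨i, hi⟩ := prim_of_run (by omega) hbit hper hS hd hdn
      exact ⟨i, fun h => hi (by have h' : 1 - wR t (i + d) = 1 - wR t i := h; omega)⟩
    · rw [gs_nu_refl, hK]; push_cast; ring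
    · intro θ hθ
      have h1 := gs_nu_refl (wR t) (-θ) n
      rw [neg_neg] at h1
      rw [h1]
      have h2 := hlt (-θ) (by linarith)
      push_cast
      linarith
  · -- the left closed word
    left
    have hS : st (wL t) 0 1 (n - 1) = 0 := by
      rw [show n - 1 = (n - 2) + 1 by omega, st_succ, ← hr, stp, if_neg]
      rw [show 1 + (n - 2) = n - 1 by omega]
      exact hc
    have hbit := wL_bit t
    have hper := wL_per (t := t) ha
    obtain ⟨K, hK⟩ := gs_nu_int (w := wL t) ha fun i _ => by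
      obtain ⟨k, h1, h2⟩ := wL_in t i
      exact ⟨k, h1, h2.le⟩
    have hmono := nu_mono (wL t) n
    refine ⟨wL t, K, ⟨hbit, hper, fun d hd hdn => prim_of_run (by omega) hbit hper hS hd hdn⟩, hK, ?_⟩
    intro θ hθ
    refine lt_of_le_of_ne (hK ▸ hmono hθ.le) fun hcon => ?_
    have hev : ∀ᶠ s : ℝ in 𝓝[>] t, ∀ i ∈ Finset.range n, InHalfO (s + wL t i) (2 ^ i * s) := by
      rw [Filter.eventually_all_finset]
      intro i _
      obtain ⟨k, h1, h2⟩ := wL_in t i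
      have h3 : ∀ᶠ s : ℝ in 𝓝 t, 2 ^ i * s < (s + wL t i) / 2 + k + 1 / 2 :=
        (isOpen_lt (f := fun s : ℝ => 2 ^ i * s) (g := fun s : ℝ => (s + wL t i) / 2 + k + 1 / 2)
          (by fun_prop) (by fun_prop)).mem_nhds h2
      filter_upwards [h3.filter_mono nhdsWithin_le_nhds, self_mem_nhdsWithin] with s hs hst
      refine ⟨k, ?_, hs⟩
      have h4 : (1 : ℝ) ≤ 2 ^ i := one_le_pow₀ (by norm_num)
      have h5 : t < s := hst
      nlinarith
    obtain ⟨s, hs1, hs2, hs3⟩ := (hev.and ((eventually_lt_nhds hθ).filter_mono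
      nhdsWithin_le_nhds |>.and self_mem_nhdsWithin)).exists
    have h1 : nu (wL t) n s = K := le_antisymm (hcon ▸ hmono hs2.le) (hK ▸ hmono (le_of_lt hs3))
    exact nu_ne_int (by omega) hbit hper hS (fun i hi => hs1 i (Finset.mem_range.2 hi)) K h1

/-! ### Separation of two angles of exact period `N` -/

end Pool.Agent.Work.MLC.Cnt
end

section
set_option autoImplicit false

/-! # Theorem CAP, module T1: the strip of a wake (helper90) -/

namespace Pool.Agent.Work.MLC.Shp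

open Filter Topology Metric Set
open Pool.Agent.Work.MLC.Circ Pool.Agent.Work.MLC.Cnt CircleDeg1Lift

variable {m : ℕ} {α β : ℝ}

lemma cast_lt_of {a b : ℤ} (h : (a : ℝ) < b) : a < b := by exact_mod_cast h

lemma cast_le_of {a b : ℤ} (h : (a : ℝ) ≤ b) : a ≤ b := by exact_mod_cast h

/-- doublings are not critical for the angles inside -/
lemma Wake.nonint (h : Wake m α β) {θ : ℝ} (h1 : α < θ) (h2 : θ < β) (i : ℕ) (n : ℤ) :
    2 ^ (i + 1) * α ≠ θ + n ∧ 2 ^ (i + 1) * β ≠ θ + n := by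
  obtain ⟨w, j, k, e1, e2, e3, e4⟩ := h.side θ h1 h2 i
  have p : ∀ x : ℝ, (2 : ℝ) ^ (i + 1) * x = 2 * (2 ^ i * x) := fun x => by rw [pow_succ]; ring
  constructor
  · intro he
    rw [p] at he
    have f1 : ((w + 2 * j : ℤ) : ℝ) < (n : ℤ) := by push_cast; linarith
    have f2 : ((n : ℤ) : ℝ) < ((w + 2 * j + 1 : ℤ) : ℝ) := by push_cast; linarith
    have f3 := cast_lt_of f1
    have f4 := cast_lt_of f2
    omega
  · intro he
    rw [p] at he
    have f1 : ((w + 2 * k : ℤ) : ℝ) < (n : ℤ) := by push_cast; linarith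
    have f2 : ((n : ℤ) : ℝ) < ((w + 2 * k + 1 : ℤ) : ℝ) := by push_cast; linarith
    have f3 := cast_lt_of f1
    have f4 := cast_lt_of f2
    omega

/-- the sides of the doublings -/
lemma Wake.side_int (h : Wake m α β) (i : ℕ) : ∃ n n' : ℤ, (n : ℝ) ≤ 2 ^ (i + 1) * α - β ∧
    2 ^ (i + 1) * α - α ≤ n + 1 ∧ (n' : ℝ) ≤ 2 ^ (i + 1) * β - β ∧ 2 ^ (i + 1) * β - α ≤ n' + 1 ∧
    ∃ l : ℤ, n' = n + 2 * l := by
  have hlt := h.lt
  set θ₀ : ℝ := (α + β) / 2 with hθ₀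
  have h1 : α < θ₀ := by linarith
  have h2 : θ₀ < β := by linarith
  obtain ⟨w, j, k, e1, e2, e3, e4⟩ := h.side θ₀ h1 h2 i
  have p : ∀ x : ℝ, (2 : ℝ) ^ (i + 1) * x = 2 * (2 ^ i * x) := fun x => by rw [pow_succ]; ring
  rw [p, p]
  refine ⟨w + 2 * j, w + 2 * k, ?_, ?_, ?_, ?_, k - j, by ring⟩
  · by_contra hcon
    push Not at hcon
    have := (h.nonint (θ := 2 * (2 ^ i * α) - ((w + 2 * j : ℤ) : ℝ)) (by push_cast; linarith)
      (by linarith) i (w + 2 * j)).1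
    rw [p] at this
    exact this (by ring)
  · by_contra hcon
    push Not at hcon
    have := (h.nonint (θ := 2 * (2 ^ i * α) - ((w + 2 * j + 1 : ℤ) : ℝ)) (by push_cast at hcon ⊢; linarith)
      (by push_cast; linarith) i (w + 2 * j + 1)).1
    rw [p] at this
    exact this (by ring)
  · by_contra hcon
    push Not at hcon
    have := (h.nonint (θ := 2 * (2 ^ i * β) - ((w + 2 * k : ℤ) : ℝ)) (by push_cast; linarith)
      (by linarith) i (w + 2 * k)).2
    rw [p] at this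
    exact this (by ring)
  · by_contra hcon
    push Not at hcon
    have := (h.nonint (θ := 2 * (2 ^ i * β) - ((w + 2 * k + 1 : ℤ) : ℝ)) (by push_cast at hcon ⊢; linarith)
      (by push_cast; linarith) i (w + 2 * k + 1)).2
    rw [p] at this
    exact this (by ring)

/-- the orbits avoid the wake -/
lemma Wake.avoid (h : Wake m α β) (j : ℕ) (l : ℤ) : ¬ (α < 2 ^ j * α + l ∧ 2 ^ j * α + l < β) := by
  rintro ⟨h1, h2⟩
  have h0 := h.nonneg
  have h3 := h.le_one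
  rcases j with _ | i
  · simp only [pow_zero, one_mul] at h1 h2
    have f1 : ((0 : ℤ) : ℝ) < l := by push_cast; linarith
    have f2 : ((l : ℤ) : ℝ) < ((1 : ℤ) : ℝ) := by push_cast; linarith
    have := cast_lt_of f1
    have := cast_lt_of f2
    omega
  · exact (h.nonint h1 h2 i (-l)).1 (by push_cast; ring)

lemma Wake.avoid' (h : Wake m α β) (j : ℕ) (l : ℤ) : ¬ (α < 2 ^ j * β + l ∧ 2 ^ j * β + l < β) := by
  rintro ⟨h1, h2⟩
  have h0 := h.nonneg
  have h3 := h.le_one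
  rcases j with _ | i
  · simp only [pow_zero, one_mul] at h1 h2
    have f1 : ((-1 : ℤ) : ℝ) < l := by push_cast; linarith
    have f2 : ((l : ℤ) : ℝ) < ((0 : ℤ) : ℝ) := by push_cast; linarith
    have := cast_lt_of f1
    have := cast_lt_of f2
    omega
  · exact (h.nonint h1 h2 i (-l)).2 (by push_cast; ring)

/-- **the windows avoid the wake** -/
lemma Wake.win (h : Wake m α β) {j : ℕ} (hj : 0 < j) (hjm : j < m) {δ : ℝ} (h0 : 0 ≤ δ)
    (h1 : δ * 2 ^ m ≤ β - α) (l : ℤ) : ¬ (α < 2 ^ j * (α + δ) + l ∧ 2 ^ j * (α + δ) + l < β) := by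
  rintro ⟨h2, h3⟩
  have hp : (0 : ℝ) < 2 ^ j := by positivity
  rcases lt_trichotomy α (2 ^ j * α + l) with h4 | h4 | h4
  · refine h.avoid j l ⟨h4, ?_⟩
    have : 0 ≤ 2 ^ j * δ := by positivity
    nlinarith
  · exact h.exact j hj hjm ⟨-l, by push_cast; linarith⟩
  · obtain ⟨A, hA⟩ := h.per
    -- the next return
    have e1 : (2 : ℝ) ^ (m - j) * 2 ^ j = 2 ^ m := by rw [← pow_add]; congr 1; omega
    have hp' : (0 : ℝ) < 2 ^ (m - j) := by positivity
    have h5 := h.avoid (m - j) (-(A + 2 ^ (m - j) * l))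
    apply h5
    have e2 : (2 : ℝ) ^ (m - j) * (2 ^ j * α + l) = α + A + 2 ^ (m - j) * l := by
      rw [mul_add, ← mul_assoc, e1]
      linarith
    have e3 : (2 : ℝ) ^ (m - j) * (2 ^ j * (α + δ) + l) = α + A + 2 ^ (m - j) * l + δ * 2 ^ m := by
      rw [← e2, ← e1]; ring
    have h6 := mul_lt_mul_of_pos_left h4 hp'
    have h7 := mul_lt_mul_of_pos_left h2 hp'
    rw [e2] at h6
    rw [e3] at h7
    push_cast
    constructor <;> linarith

lemma Wake.win' (h : Wake m α β) {j : ℕ} (hj : 0 < j) (hjm : j < m) {δ : ℝ} (h0 : 0 ≤ δ)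
    (h1 : δ * 2 ^ m ≤ β - α) (l : ℤ) : ¬ (α < 2 ^ j * (β - δ) + l ∧ 2 ^ j * (β - δ) + l < β) := by
  rintro ⟨h2, h3⟩
  have hp : (0 : ℝ) < 2 ^ j := by positivity
  rcases lt_trichotomy (2 ^ j * β + l) β with h4 | h4 | h4
  · refine h.avoid' j l ⟨?_, h4⟩
    have : 0 ≤ 2 ^ j * δ := by positivity
    nlinarith
  · exact h.exact' j hj hjm ⟨-l, by push_cast; linarith⟩
  · obtain ⟨A, hA⟩ := h.per'
    have e1 : (2 : ℝ) ^ (m - j) * 2 ^ j = 2 ^ m := by rw [← pow_add]; congr 1; omega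
    have hp' : (0 : ℝ) < 2 ^ (m - j) := by positivity
    have h5 := h.avoid' (m - j) (-(A + 2 ^ (m - j) * l))
    apply h5
    have e2 : (2 : ℝ) ^ (m - j) * (2 ^ j * β + l) = β + A + 2 ^ (m - j) * l := by
      rw [mul_add, ← mul_assoc, e1]
      linarith
    have e3 : (2 : ℝ) ^ (m - j) * (2 ^ j * (β - δ) + l) = β + A + 2 ^ (m - j) * l - δ * 2 ^ m := by
      rw [← e2, ← e1]; ring
    have h6 := mul_lt_mul_of_pos_left h4 hp'
    have h7 := mul_lt_mul_of_pos_left h3 hp'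
    rw [e2] at h6
    rw [e3] at h7
    push_cast
    constructor <;> linarith

/-! ### words -/

/-- `α` has exact period `m` -/
lemma Wake.dvd (h : Wake m α β) {e : ℕ} : (∃ a : ℤ, (2 : ℝ) ^ e * α - α = a) ↔ m ∣ e := by
  obtain ⟨A, hA⟩ := h.per
  have hA' : (2 : ℝ) ^ m * α - α = A := by linarith
  constructor
  · rintro ⟨a, ha⟩
    by_contra hcon
    obtain ⟨b, hb⟩ := pow_per_mul hA' (e / m)
    have hr := Nat.mod_lt e h.pos
    have hr0 : 0 < e % m := Nat.pos_of_ne_zero fun h0 => hcon (Nat.dvd_of_mod_eq_zero h0)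
    refine h.exact (e % m) hr0 hr ⟨a - 2 ^ (e % m) * b, ?_⟩
    have e1 : (2 : ℝ) ^ e * α = 2 ^ (e % m) * (2 ^ (m * (e / m)) * α) := by
      rw [← mul_assoc, ← pow_add, Nat.mod_add_div]
    rw [hb] at e1
    push_cast
    linarith
  · rintro ⟨c, rfl⟩
    obtain ⟨b, hb⟩ := pow_per_mul hA' c
    exact ⟨b, by linarith⟩

/-- the reflected wake -/
lemma Wake.refl (h : Wake m α β) : Wake m (1 - β) (1 - α) where
  pos := h.pos
  nonneg := by linarith [h.le_one]
  lt := by linarith [h.lt]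
  le_one := by linarith [h.nonneg]
  per := by
    obtain ⟨b, hb⟩ := h.per'
    exact ⟨2 ^ m - 1 - b, by push_cast; linarith⟩
  per' := by
    obtain ⟨b, hb⟩ := h.per
    exact ⟨2 ^ m - 1 - b, by push_cast; linarith⟩
  exact := by
    rintro d hd hdm ⟨b, hb⟩
    exact h.exact' d hd hdm ⟨2 ^ d - 1 - b, by push_cast; linarith⟩
  exact' := by
    rintro d hd hdm ⟨b, hb⟩
    exact h.exact d hd hdm ⟨2 ^ d - 1 - b, by push_cast; linarith⟩
  side := by
    intro θ h1 h2 i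
    obtain ⟨w, j, k, e1, e2, e3, e4⟩ := h.side (1 - θ) (by linarith) (by linarith) i
    refine ⟨-w, -k - 1 + 2 ^ i, -j - 1 + 2 ^ i, ?_, ?_, ?_, ?_⟩ <;> push_cast <;> linarith

lemma Wake.dvd' (h : Wake m α β) {e : ℕ} : (∃ a : ℤ, (2 : ℝ) ^ e * β - β = a) ↔ m ∣ e := by
  rw [← h.refl.dvd]
  constructor
  · rintro ⟨a, ha⟩
    exact ⟨2 ^ e - 1 - a, by push_cast; linarith⟩
  · rintro ⟨a, ha⟩
    exact ⟨2 ^ e - 1 - a, by push_cast; linarith⟩

lemma wLR_of_int {t : ℝ} {j : ℕ} {a : ℤ} (h : (2 : ℝ) ^ (j + 1) * t - t = a) :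
    wL t j = 1 - wR t j := by
  unfold wL wR
  rw [h, Int.floor_intCast, Int.ceil_intCast]
  omega

lemma wLR_of_not_int {t : ℝ} {j : ℕ} (h : ¬ ∃ a : ℤ, (2 : ℝ) ^ (j + 1) * t - t = a) :
    wL t j = wR t j := by
  unfold wL wR
  have h2 : ⌈(2 : ℝ) ^ (j + 1) * t - t⌉ = ⌊(2 : ℝ) ^ (j + 1) * t - t⌋ + 1 := by
    have h3 := Int.floor_le ((2 : ℝ) ^ (j + 1) * t - t)
    have h4 := Int.lt_floor_add_one ((2 : ℝ) ^ (j + 1) * t - t)
    have h5 : (⌊(2 : ℝ) ^ (j + 1) * t - t⌋ : ℝ) ≠ (2 : ℝ) ^ (j + 1) * t - t := fun h6 =>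
      h ⟨_, h6.symm⟩
    rw [Int.ceil_eq_iff]
    push_cast
    constructor
    · linarith [lt_of_le_of_ne h3 h5]
    · linarith
  rw [h2]
  ring_nf

/-- the right closed word of `α` is the left closed word of `β` -/
lemma Wake.wR_eq (h : Wake m α β) (j : ℕ) : wR α j = wL β j := by
  obtain ⟨n, n', h1, h2, h3, h4, l, hl⟩ := h.side_int j
  have hlt := h.lt
  have e1 : ⌈(2 : ℝ) ^ (j + 1) * α - α⌉ = n + 1 := by
    rw [Int.ceil_eq_iff]
    push_cast
    constructor <;> linarith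
  have e2 : ⌊(2 : ℝ) ^ (j + 1) * β - β⌋ = n' := by
    rw [Int.floor_eq_iff]
    constructor <;> linarith
  unfold wR wL
  rw [e1, e2, hl]
  omega

lemma Wake.wL_eq (h : Wake m α β) (j : ℕ) : wL α j = wR β j := by
  have h1 := h.wR_eq j
  by_cases hm : m ∣ j + 1
  · obtain ⟨a, ha⟩ := h.dvd.2 hm
    obtain ⟨b, hb⟩ := h.dvd'.2 hm
    have h2 := wLR_of_int ha
    have h3 := wLR_of_int hb
    omega
  · have h2 := wLR_of_not_int (t := α) (j := j) fun hc => hm (h.dvd.1 hc)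
    have h3 := wLR_of_not_int (t := β) (j := j) fun hc => hm (h.dvd'.1 hc)
    omega

lemma wL_neg (t : ℝ) (j : ℕ) : wL (-t) j = 1 - wR t j := by
  unfold wL wR
  have e : (2 : ℝ) ^ (j + 1) * -t - -t = -(2 ^ (j + 1) * t - t) := by ring
  rw [e, Int.floor_neg]
  omega

lemma wL_one_sub (t : ℝ) (j : ℕ) : wL (1 - t) j = wR t j := by
  unfold wL wR
  have e : (2 : ℝ) ^ (j + 1) * (1 - t) - (1 - t) = -(2 ^ (j + 1) * t - t) + ((2 ^ (j + 1) - 1 : ℤ) : ℝ) := by
    push_cast; ring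
  rw [e, Int.floor_add_intCast, Int.floor_neg]
  have : (2 : ℤ) ^ (j + 1) = 2 * 2 ^ j := by rw [pow_succ]; ring
  omega

lemma ho_wL (t : ℝ) : HO (wL t) t t := fun j => wL_in t j

/-- explicit linear orbits -/
lemma gw_expl (w : ℕ → ℤ) (θ x : ℝ) (k : ℕ → ℤ) (n : ℕ)
    (h : ∀ i < n, (θ + w i) / 2 + k i ≤ 2 ^ i * x ∧ 2 ^ i * x ≤ (θ + w i) / 2 + k i + 1 / 2) :
    gw w θ n x = 2 ^ n * x - ((∑ i ∈ Finset.range n, k i : ℤ) : ℝ) := by
  induction n with
  | zero => simp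
  | succ n ih =>
    obtain ⟨hk1, hk2⟩ := h n (by omega)
    rw [gw_succ_apply, ih fun i hi => h i (by omega), Finset.sum_range_succ,
      tdbl_lin (k n - ∑ i ∈ Finset.range n, k i) (by push_cast; linarith) (by push_cast; linarith)]
    push_cast; ring

/-! ### the left end -/

/-- **`α` is the left end of the strip of its left closed word** -/
theorem Wake.leftEnd (h : Wake m α β) (hm : 2 ≤ m) : ∃ k : ℤ, Word m (wL α) ∧
    nu (wL α) m α = k ∧ ∀ θ, α < θ → (k : ℝ) < nu (wL α) m θ := by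
  have hm0 : 0 < m := h.pos
  obtain ⟨A, hA⟩ := h.per
  have hA' : (2 : ℝ) ^ m * α - α = A := by linarith
  have hex : ∀ d, 0 < d → d < m → ¬ ∃ b : ℤ, (2 : ℝ) ^ d * α - α = b := by
    rintro d hd hdm ⟨b, hb⟩
    exact h.exact d hd hdm ⟨b, by linarith⟩
  rcases gs_end hm hA' hex with ⟨w', k', hw', hn, hgt⟩ | ⟨w', k', hw', hn, hgt⟩
  · obtain ⟨i₀, hi₀, hLE⟩ := exists_LE hm0 hw' hn hgt
    have hu : (fun j => w' (i₀ + j)) = wL α :=
      HO.word_eq hLE.word.1 (wL_bit α) hLE.ho (ho_wL α)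
    have hnu : ∀ θ, nu (wL α) m θ = nu w' m θ := fun θ => by
      rw [← hu]; exact nu_shift_word w' m hw'.2.1 θ i₀
    exact ⟨k', hu ▸ hLE.word, by rw [hnu]; exact hn, fun θ hθ => by rw [hnu]; exact hgt θ hθ⟩
  · exfalso
    obtain ⟨i₀, hi₀, hLE⟩ := exists_LE hm0 hw' hn hgt
    have hu : (fun j => w' (i₀ + j)) = wL (-α) :=
      HO.word_eq hLE.word.1 (wL_bit (-α)) hLE.ho (ho_wL (-α))
    have hu2 : wL (-α) = fun j => 1 - wR α j := funext fun j => wL_neg α j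
    have hnu : ∀ θ, nu w' m (-θ) = m - nu (wR α) m θ := fun θ => by
      rw [← gs_nu_refl, ← hu2, ← hu]
      exact (nu_shift_word w' m hw'.2.1 (-θ) i₀).symm
    have hword : Word m fun j => 1 - wR α j := by rw [← hu2, ← hu]; exact hLE.word
    have hlt : ∀ θ, θ < α → nu (wR α) m θ < nu (wR α) m α := by
      intro θ hθ
      have h1 := hgt (-θ) (by linarith)
      rw [hnu] at h1
      rw [hnu] at hn
      linarith
    obtain ⟨B, hB⟩ := h.per'
    by_cases hc : ∃ j, 0 < j ∧ j < m ∧ ∃ l : ℤ, (2 : ℝ) ^ j * β + l = α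
    · -- the word is not primitive
      obtain ⟨j, hj, hjm, l, hl⟩ := hc
      obtain ⟨i, hi⟩ := hword.2.2 j hj hjm
      apply hi
      show 1 - wR α (i + j) = 1 - wR α i
      obtain ⟨n, n', h1, h2, h3, h4, -⟩ := h.side_int i
      have hab := h.lt
      have e1 : ⌈(2 : ℝ) ^ (i + 1) * α - α⌉ = n + 1 := by
        rw [Int.ceil_eq_iff]
        push_cast
        constructor <;> linarith
      have e2 : ⌊(2 : ℝ) ^ (i + j + 1) * β - β⌋ = n - 2 ^ (i + 1) * l := by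
        have e3 : (2 : ℝ) ^ (i + j + 1) * β = 2 ^ (i + 1) * (α - l) := by
          rw [← hl, show i + j + 1 = (i + 1) + j by ring, pow_add]; ring
        rw [e3, Int.floor_eq_iff]
        push_cast
        constructor <;> linarith
      rw [h.wR_eq (i + j)]
      unfold wL wR
      rw [e1, e2]
      have : (2 : ℤ) ^ (i + 1) * l = 2 * (2 ^ i * l) := by rw [pow_succ]; ring
      omega
    · -- the rotation number is constant to the left of `α`
      push Not at hc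
      have hab := h.lt
      have hLm : ∀ l : ℤ, (2 : ℝ) ^ m * β + l ≠ α := by
        intro l hl
        have f0 := h.nonneg
        have f1 := h.le_one
        have f2 : ((B + l : ℤ) : ℝ) < ((0 : ℤ) : ℝ) := by push_cast; linarith
        have f3 : ((-1 : ℤ) : ℝ) ≤ ((B + l : ℤ) : ℝ) := by push_cast; linarith
        have f4 := cast_lt_of f2
        have f5 := cast_le_of f3
        have f6 : B + l = -1 := by omega
        have f7 : (B : ℝ) + l = -1 := by exact_mod_cast f6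
        -- `α = 0`
        have f8 : α = 0 := by linarith
        exact h.exact 1 one_pos (by omega) ⟨0, by rw [f8]; simp⟩
      have hne : ∀ i < m, ∀ l : ℤ, (2 : ℝ) ^ (i + 1) * β + l ≠ α := by
        intro i hi l
        rcases Nat.lt_or_ge (i + 1) m with h1 | h1
        · exact hc (i + 1) (by omega) h1 l
        · rw [show i + 1 = m by omega]; exact hLm l
      have hev : ∀ᶠ θ : ℝ in 𝓝[<] α, ∀ i ∈ Finset.range m,
          (2 : ℝ) ^ (i + 1) * β - θ < ⌊(2 : ℝ) ^ (i + 1) * β - β⌋ + 1 := by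
        rw [Filter.eventually_all_finset]
        intro i hi
        obtain ⟨n, n', h1, h2, h3, h4, -⟩ := h.side_int i
        have e2 : ⌊(2 : ℝ) ^ (i + 1) * β - β⌋ = n' := by
          rw [Int.floor_eq_iff]
          constructor <;> linarith
        have h5 : (2 : ℝ) ^ (i + 1) * β - α < n' + 1 := by
          refine lt_of_le_of_ne h4 fun hcon => hne i (Finset.mem_range.1 hi) (-(n' + 1)) ?_
          push_cast
          linarith
        rw [e2]
        exact mem_nhdsWithin_of_mem_nhds ((isOpen_lt (f := fun s : ℝ => (2 : ℝ) ^ (i + 1) * β - s)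
          (g := fun _ => (n' : ℝ) + 1) (by fun_prop) (by fun_prop)).mem_nhds h5)
      obtain ⟨θ₁, hθ₁, hθ₁α⟩ := (hev.and self_mem_nhdsWithin).exists
      have hθα : θ₁ < α := hθ₁α
      have hint : ∀ θ, θ₁ ≤ θ → θ ≤ α → ∃ k : ℤ, nu (wR α) m θ = k := by
        intro θ h1 h2
        have hw : wR α = wL β := funext fun j => h.wR_eq j
        obtain ⟨M, hM⟩ := gw_lin (wR α) θ β m fun i hi => by
          set z := ⌊(2 : ℝ) ^ (i + 1) * β - β⌋ with hz
          have e1 := Int.floor_le ((2 : ℝ) ^ (i + 1) * β - β)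
          have e2 := hθ₁ i (Finset.mem_range.2 hi)
          rw [← hz] at e1 e2
          have e3 : wR α i = z % 2 := by rw [hw]; rfl
          refine ⟨z / 2, ?_⟩
          have e4 : (wR α i : ℤ) + 2 * (z / 2) = z := by omega
          have e5 : (wR α i : ℝ) + 2 * ((z / 2 : ℤ) : ℝ) = z := by exact_mod_cast e4
          rw [pow_succ] at e1 e2
          constructor <;> linarith
        refine ⟨B - M, ?_⟩
        have h3 : gw (wR α) θ m β = β + ((B - M : ℤ) : ℝ) := by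
          rw [hM]; push_cast; linarith
        exact translationNumber_of_eq_add_int _ h3
      have h6 := nu_const_of_int hθα.le hint
      exact absurd h6 (hlt θ₁ hθα).ne

/-- reflection and translation of the rotation number -/
lemma nu_one_sub (w : ℕ → ℤ) (n : ℕ) (θ : ℝ) :
    nu w n (1 - θ) = ((n + ∑ i ∈ Finset.range n, w i : ℤ) : ℝ) - nu w n θ := by
  have h1 := nu_add_theta w (-θ) 1 n
  have h2 : (fun i => w i + 1) = fun i => (1 - w i) + 2 * w i := by funext i; ring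
  have h3 := nu_shift (fun i => 1 - w i) w (-θ) n
  have h4 := gs_nu_refl w θ n
  have e : (1 : ℝ) - θ = -θ + ((1 : ℤ) : ℝ) := by push_cast; ring
  rw [e, h1, h2, h3, h4]
  push_cast
  ring

/-- **Module T1**: the strip of a wake -/
theorem Wake.strip (h : Wake m α β) (hm : 2 ≤ m) : ∃ k : ℤ, Word m (wL α) ∧
    nu (wL α) m α = k ∧ nu (wL α) m β = k + 1 ∧
    ∀ θ, α < θ → θ < β → (k : ℝ) < nu (wL α) m θ ∧ nu (wL α) m θ < k + 1 := by
  have hab := h.lt
  obtain ⟨k, hword, hk, hgt⟩ := h.leftEnd hm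
  obtain ⟨k', -, hk', hgt'⟩ := h.refl.leftEnd hm
  set w := wL α with hw
  have hwr : wL (1 - β) = w := funext fun j => by rw [wL_one_sub, hw, h.wL_eq]
  rw [hwr] at hk' hgt'
  set c : ℤ := m + ∑ i ∈ Finset.range m, w i with hc
  have hk1 : nu w m β = ((c - k' : ℤ) : ℝ) := by
    rw [nu_one_sub] at hk'
    push_cast at hk' ⊢
    rw [hc]; push_cast; linarith
  have hlt : ∀ θ, θ < β → nu w m θ < ((c - k' : ℤ) : ℝ) := by
    intro θ hθ
    have h1 := hgt' (1 - θ) (by linarith)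
    rw [nu_one_sub] at h1
    rw [hc]; push_cast at h1 ⊢; linarith
  -- the explicit value
  have hle : c - k' ≤ k + 1 := by
    obtain ⟨A, hA⟩ := h.per
    obtain ⟨B, hB⟩ := h.per'
    have hm1 : m - 1 + 1 = m := by omega
    have hpm : (2 : ℝ) ^ m = 2 * 2 ^ (m - 1) := by
      conv_lhs => rw [← hm1]
      rw [pow_succ]; ring
    have hL1 : β ≤ α + 1 := by linarith [h.nonneg, h.le_one]
    -- the letters below `m - 1`
    have hkk : ∀ i, ∃ κ κ' : ℤ, i < m - 1 → ∀ θ, α ≤ θ → θ ≤ β →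
        ((θ + w i) / 2 + κ ≤ 2 ^ i * α ∧ 2 ^ i * α ≤ (θ + w i) / 2 + κ + 1 / 2) ∧
        ((θ + w i) / 2 + κ' ≤ 2 ^ i * β ∧ 2 ^ i * β ≤ (θ + w i) / 2 + κ' + 1 / 2) := by
      intro i
      obtain ⟨n, n', h1, h2, h3, h4, l, hl⟩ := h.side_int i
      refine ⟨n / 2, n' / 2, fun hi θ hθ1 hθ2 => ?_⟩
      have hnd : ¬ ∃ a : ℤ, (2 : ℝ) ^ (i + 1) * α - α = a := fun hcon => by
        have := Nat.le_of_dvd (by omega) (h.dvd.1 hcon)
        omega
      have e1 : ⌈(2 : ℝ) ^ (i + 1) * α - α⌉ = n + 1 := by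
        rw [Int.ceil_eq_iff]
        push_cast
        constructor <;> linarith
      have e2 : w i = n % 2 := by
        rw [hw, wLR_of_not_int hnd]
        unfold wR
        rw [e1]; ring_nf
      have e3 : w i + 2 * (n / 2) = n := by omega
      have e4 : w i + 2 * (n' / 2) = n' := by omega
      have e5 : (w i : ℝ) + 2 * ((n / 2 : ℤ) : ℝ) = n := by exact_mod_cast e3
      have e6 : (w i : ℝ) + 2 * ((n' / 2 : ℤ) : ℝ) = n' := by exact_mod_cast e4
      rw [pow_succ] at h1 h2 h3 h4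
      refine ⟨⟨?_, ?_⟩, ?_, ?_⟩ <;> linarith
    choose κ κ' hκ using hkk
    set K : ℤ := ∑ i ∈ Finset.range (m - 1), κ i with hK
    set K' : ℤ := ∑ i ∈ Finset.range (m - 1), κ' i with hK'
    have hα : ∀ θ, α ≤ θ → θ ≤ β → gw w θ (m - 1) α = 2 ^ (m - 1) * α - (K : ℝ) := fun θ h1 h2 =>
      gw_expl w θ α κ (m - 1) fun i hi => (hκ i hi θ h1 h2).1
    have hβ : ∀ θ, α ≤ θ → θ ≤ β → gw w θ (m - 1) β = 2 ^ (m - 1) * β - (K' : ℝ) := fun θ h1 h2 =>
      gw_expl w θ β κ' (m - 1) fun i hi => (hκ i hi θ h1 h2).2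
    -- the last letter
    have ew : w (m - 1) = A % 2 := by
      rw [hw]; unfold wL
      rw [hm1, show (2 : ℝ) ^ m * α - α = A by linarith, Int.floor_intCast]
    have ew' : w (m - 1) = (B - 1) % 2 := by
      rw [hw, h.wL_eq]; unfold wR
      rw [hm1, show (2 : ℝ) ^ m * β - β = B by linarith, Int.ceil_intCast]
    have eA : w (m - 1) + 2 * (A / 2) = A := by omega
    have eB : w (m - 1) + 2 * ((B - 1) / 2) = B - 1 := by omega
    have eA' : (w (m - 1) : ℝ) + 2 * ((A / 2 : ℤ) : ℝ) = A := by exact_mod_cast eA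
    have eB' : (w (m - 1) : ℝ) + 2 * (((B - 1) / 2 : ℤ) : ℝ) = B - 1 := by exact_mod_cast eB
    have pA : (2 : ℝ) ^ (m - 1) * α = (α + A) / 2 := by rw [hpm] at hA; linarith
    have pB : (2 : ℝ) ^ (m - 1) * β = (β + B) / 2 := by rw [hpm] at hB; linarith
    have gA : gw w α m α = α + ((A - K - A / 2 : ℤ) : ℝ) := by
      conv_lhs => rw [← hm1]
      rw [gw_succ_apply, hα α le_rfl hab.le, tdbl_lin (A / 2 - K) (by push_cast; linarith)
        (by push_cast; linarith)]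
      push_cast; linarith
    have gB : gw w β m β = β + ((B - K' - (B - 1) / 2 : ℤ) : ℝ) := by
      conv_lhs => rw [← hm1]
      rw [gw_succ_apply, hβ β hab.le le_rfl, tdbl_lin ((B - 1) / 2 - K') (by push_cast; linarith)
        (by push_cast; linarith)]
      push_cast; linarith
    have nA : nu w m α = ((A - K - A / 2 : ℤ) : ℝ) := translationNumber_of_eq_add_int _ gA
    have nB : nu w m β = ((B - K' - (B - 1) / 2 : ℤ) : ℝ) := translationNumber_of_eq_add_int _ gB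
    have eq1 : k = A - K - A / 2 := by exact_mod_cast hk.symm.trans nA
    have eq2 : c - k' = B - K' - (B - 1) / 2 := by exact_mod_cast hk1.symm.trans nB
    -- monotonicity
    have hmon : gw w α (m - 1) β ≤ gw w α (m - 1) (α + 1) := (gw w α (m - 1)).monotone hL1
    rw [map_add_one, hα α le_rfl hab.le, hβ α le_rfl hab.le] at hmon
    have f1 : ((B - A - 2 * (K' - K) : ℤ) : ℝ) < ((2 : ℤ) : ℝ) := by
      push_cast
      rw [hpm] at hA hB
      linarith
    have f2 := cast_lt_of f1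
    omega
  have hlt' : k < c - k' := by
    have h1 := hgt ((α + β) / 2) (by linarith)
    have h2 := hlt ((α + β) / 2) (by linarith)
    exact cast_lt_of (h1.trans h2)
  have heq : c - k' = k + 1 := by omega
  rw [heq] at hk1 hlt
  push_cast at hk1 hlt
  exact ⟨k, hword, hk, hk1, fun θ h1 h2 => ⟨hgt θ h1, hlt θ h2⟩⟩

end Pool.Agent.Work.MLC.Shp
end

section
set_option autoImplicit false

/-! # Theorem Cap: module C_top2, the enclosure of a piece of type II (helper49)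

The piece between the root of `U = W.dat x` and the root of `V` lies in the region of `W` minus the
closure of the region of `W'`; the projection lemma of `CntT60` does the rest. -/

namespace Pool.Agent.Work.MLC.Cap

open Filter Topology Metric Set Complex MeasureTheory
open Pool.Agent.Work.MLC.Sat Pool.Agent.Work.MLC.Cnt

namespace T49

/-- the root of `W.dat y` is on the axis -/
lemma rt_dat {W : WS} (hW : W.Ok) {y : ℚ} (h0 : 0 < y) (h1 : y < 1) :
    rt (W.dat y) = W.c (2 * Real.pi * y * I) := by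
  rw [rt, WS.dat_c hW h0 h1, WS.dat_a hW h0 h1, axisPt_eq]
  push_cast
  rfl

/-- the closure of the inner region meets the Mandelbrot set in the inner limb only -/
theorem closure_sub {W' : WS} (hW' : W'.Ok) {V : Dat} (hP : V.Par) (hC : V.Cir) {x₁' x₂' : ℚ}
    (h0 : 0 < x₁') (h12 : x₁' < x₂') (h1 : x₂' < 1)
    (hax : ∀ y : ℝ, 0 < y → y < 1 → W'.c (2 * Real.pi * y * I) ∈ Lm V) {h : ℝ} (hh : 0 < h) {z : ℂ}
    (hM : z ∈ MM) (hz : z ∈ closure (T60.Reg W' x₁' x₂' h)) : z ∈ Lm V := by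
  have key : ∀ y : ℚ, x₁' ≤ y → y ≤ x₂' → insert (rt (W'.dat y)) (Lm (W'.dat y)) ⊆ Lm V := by
    intro y hy1 hy2
    have hy0 : 0 < y := h0.trans_le hy1
    have hyl : y < 1 := hy2.trans_lt h1
    refine limb_sub hP hC (WS.dat_par hW' hy0 hyl) (WS.dat_cir hW' hy0 hyl) ?_
    rw [rt_dat hW' hy0 hyl]
    exact hax y (by exact_mod_cast hy0) (by exact_mod_cast hyl)
  rcases T60.limit_Reg hW' h0 h1 hh hM hz with h2 | ⟨y, hy1, hy2, h2 | h2⟩
  · rcases T60.limit_Ext hW' h0 h12 h1 hM h2 with ⟨y, hy1, hy2, h3⟩ | ⟨y, hy1, hy2, h3⟩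
    · exact key y hy1 hy2 (Or.inr h3)
    · rw [h3]
      exact hax y (lt_of_lt_of_le (by exact_mod_cast h0) hy1)
        (lt_of_le_of_lt hy2 (by exact_mod_cast h1))
  · exact key y hy1 hy2 (Or.inr h2)
  · exact key y hy1 hy2 (Or.inl h2)

/-- a point of the inner roof is not in the closure of the difference of the regions -/
theorem roof_notMem {W W' : WS} {x₁ x₂ x₁' x₂' : ℚ} {h : ℝ} (hh : 0 < h) {u : ℝ}
    (hu1 : (W'.dat x₁').tm < u) (hu2 : u < (W'.dat x₂').tp) :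
    cOf ((h : ℂ) + 2 * Real.pi * u * I) ∉
      closure (T60.Reg W x₁ x₂ h \ closure (T60.Reg W' x₁' x₂' h)) := by
  have hpi := Real.two_pi_pos
  set N : Set ℂ := cOf '' {w | 0 < w.re ∧ 2 * Real.pi * (W'.dat x₁').tm < w.im ∧
    w.im < 2 * Real.pi * (W'.dat x₂').tp} with hN
  have hNo : IsOpen N := CH.isOpen_image ((isOpen_lt continuous_const continuous_re).inter
    ((isOpen_lt continuous_const continuous_im).inter (isOpen_lt continuous_im continuous_const)))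
    fun z hz => hz.1
  have hmem : cOf ((h : ℂ) + 2 * Real.pi * u * I) ∈ N := by
    refine ⟨_, ⟨?_, ?_, ?_⟩, rfl⟩
    · rw [CH.re_pt]; exact hh
    · rw [CH.im_pt]; exact mul_lt_mul_of_pos_left hu1 hpi
    · rw [CH.im_pt]; exact mul_lt_mul_of_pos_left hu2 hpi
  intro hc
  obtain ⟨c, ⟨w, ⟨hw0, hw1, hw2⟩, rfl⟩, hcR, hcR'⟩ :=
    mem_closure_iff_nhds.1 hc N (hNo.mem_nhds hmem)
  rcases lt_or_ge w.re h with h3 | h3
  · exact hcR' (subset_closure (Or.inl ⟨w, ⟨hw0, h3, hw1, hw2⟩, rfl⟩))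
  · rcases hcR with ⟨w', hw', he⟩ | ⟨y, -, -, hy⟩
    · have h4 := congrArg (fun c => G c c) he
      rw [G_cOf hw'.1, G_cOf hw0] at h4
      linarith [hw'.2.1]
    · have h4 := mem_M_iff'.1 hy.1
      rw [G_cOf hw0] at h4
      linarith

end T49

end Pool.Agent.Work.MLC.Cap
end

section
set_option autoImplicit false

/-! # The labels `(m, x)` with `m ≤ N`, `m * x.den ≤ 3 N` (helper24) -/

namespace Pool.Agent.Work.MLC.Cnt

/-- the rational numbers in `(0, 1]` with denominator at most `K` -/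
def rats (K : ℕ) : Finset ℚ :=
  (Finset.Icc 1 K ×ˢ Finset.Icc 1 K).image fun p : ℕ × ℕ => (p.1 : ℚ) / p.2

end Pool.Agent.Work.MLC.Cnt
end

section
set_option autoImplicit false

/-! # The barrier theorem without windows, and its glue (helper57)

`BTGP`: the predicate `In` is described only next to the periodic angles. `rootPiece_of_BTGP`: it
gives the limb pieces of all components. `btgp_of_cuts`: it follows from the period lemma and a
bound on the barrier. -/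

namespace Pool.Agent.Work.MLC.Pri

open Filter Topology Metric Set Complex

/-- bound for all cycles of exact period at most `N` -/
def BdK (N : ℕ) (K : ℝ) (c : ℂ) : Prop := ∀ n b, 0 < n → n ≤ N → (c, b) ∈ Per n →
  Exa n (c, b) → mul n (c, b) ≠ 1 ∧ ‖1 / (mul n (c, b) - 1)‖ ≤ K

/-- the sector data of a wide section, depth `h` -/
def vdath (m : ℕ) (w : ℕ → ℤ) (k : ℤ) (σ : ℂ → ℂ × ℂ) (x₁ x₂ θ₁ θ₂ h : ℝ) : Sat.VDat :=
  ⟨m, w, k, σ, D0 m, x₁, x₂, θ₁, θ₂, h⟩

lemma vdath_ok {m : ℕ} {w : ℕ → ℤ} {k : ℤ} {σ : ℂ → ℂ × ℂ} (hV : Wide m w k σ)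
    {x₁ x₂ θ₁ θ₂ h : ℝ} (h0 : 0 < x₁) (h12 : x₁ < x₂) (h1 : x₂ < 1) (hh : 0 < h)
    (hn₁ : Circ.nu w m θ₁ = k + x₁) (hn₂ : Circ.nu w m θ₂ = k + x₂) :
    (vdath m w k σ x₁ x₂ θ₁ θ₂ h).Ok where
  m_pos := hV.pos
  bits := hV.bits
  x₁_pos := h0
  lt := h12
  x₂_lt := h1
  δ_pos := hh
  nu₁ := hn₁
  nu₂ := hn₂
  good := goodDom_D0 hV.pos
  rect := by
    intro L _ h3 h4 h5
    have hpi := Real.pi_pos
    have h4' : 2 * Real.pi * x₁ ≤ L.im := h4
    have h5' : L.im ≤ 2 * Real.pi * x₂ := h5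
    have : 2 * Real.pi * x₂ < 2 * Real.pi * 1 := mul_lt_mul_of_pos_left h1 (by positivity)
    exact strip_mem_D0 hV.pos h3 (lt_of_lt_of_le (by positivity) h4') (by linarith)
  cont := hV.cont
  sec := hV.sec
  lab := by
    intro L hL hre
    exact (hV.lab L hL hre).2 θ₁ (by rw [hn₁]; linarith) (by rw [hn₁]; linarith)

/-- a predicate that is locally constant off a set of bounded parameters -/
theorem lc_of_bd {N : ℕ} {K : ℝ} (hK : 1 / 2 ≤ K) {P : ℂ → Prop} {B : Set ℂ}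
    (hP : ∀ c, c ∉ B → ∀ᶠ c' in 𝓝 c, (P c' ↔ P c)) (hB : ∀ c ∈ B, BdK N K c) {n : ℕ}
    (hn : 0 < n) (hnN : n ≤ N) : LC n (1 / (2 * K)) P := by
  intro z hz hzE L hm hL0 hLη
  refine hP z.1 fun hc => ?_
  obtain ⟨h2, h3⟩ := hB z.1 hc n z.2 hn hnN hz hzE
  have hm' : mul n (z.1, z.2) = exp L := hm
  rw [hm'] at h2 h3
  have hK0 : 0 < K := by linarith
  have hL1 : ‖L‖ ≤ 1 := by
    refine hLη.le.trans ?_
    rw [div_le_one (by positivity)]
    linarith
  have h4 : ‖exp L - 1‖ ≤ 2 * ‖L‖ := Complex.norm_exp_sub_one_le hL1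
  have h5 : 0 < ‖exp L - 1‖ := norm_pos_iff.2 (sub_ne_zero.2 h2)
  rw [norm_div, norm_one, div_le_iff₀ h5] at h3
  have h6 : ‖L‖ * (2 * K) < 1 := by
    rwa [lt_div_iff₀ (by positivity)] at hLη
  nlinarith

/-- a fraction with denominator at most `n` is equal to `κ + y` or far from it -/
lemma gap_frac {n : ℕ} {Q : ℕ} {R : ℤ} (hQ : 0 < Q) (hQn : Q ≤ n) (κ : ℤ) (y : ℚ)
    (hne : (R : ℝ) / Q ≠ κ + y) : 1 / ((n : ℝ) * y.den) ≤ |(R : ℝ) / Q - (κ + y)| := by
  have hQ' : (0 : ℝ) < Q := by exact_mod_cast hQ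
  have hq' : (0 : ℝ) < y.den := by exact_mod_cast y.pos
  have hQn' : (Q : ℝ) ≤ n := by exact_mod_cast hQn
  have hy : (y : ℝ) = (y.num : ℝ) / y.den := by exact_mod_cast (Rat.num_div_den y).symm
  have e : (R : ℝ) / Q - (κ + y) =
      ((R * y.den - (κ * y.den + y.num) * Q : ℤ) : ℝ) / (Q * y.den) := by
    rw [hy]; push_cast; field_simp
  have hne' : R * y.den - (κ * y.den + y.num) * Q ≠ 0 := by
    intro h0
    apply hne
    have h1 : (R : ℝ) / Q - (κ + y) = 0 := by rw [e, h0]; simp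
    linarith
  have h1 : (1 : ℝ) ≤ |((R * y.den - (κ * y.den + y.num) * Q : ℤ) : ℝ)| := by
    exact_mod_cast Int.one_le_abs hne'
  rw [e, abs_div, abs_of_pos (mul_pos hQ' hq')]
  rw [div_le_div_iff₀ (mul_pos (by linarith) hq') (by positivity), one_mul]
  calc (Q : ℝ) * y.den ≤ n * y.den := by gcongr
    _ ≤ |((R * y.den - (κ * y.den + y.num) * Q : ℤ) : ℝ)| * (n * y.den) := by
      refine le_mul_of_one_le_left ?_ h1
      exact mul_nonneg (by linarith) hq'.le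

/-- integer translates of periodic angles -/
lemma per_add_int' {n : ℕ} {t : ℝ} (ht : ∃ a : ℤ, (2 : ℝ) ^ n * t - t = a) (m : ℤ) :
    ∃ a : ℤ, (2 : ℝ) ^ n * (t + m) - (t + m) = a := by
  obtain ⟨a, ha⟩ := ht
  exact ⟨a + (2 ^ n - 1) * m, by push_cast; rw [← ha]; ring⟩

/-- the predicate `In` next to the periodic angles -/
theorem in_near {N d : ℕ} {v : ℕ → ℤ} {κ : ℤ} {V : Sat.VDat} (hOk : V.Ok) (hVm : V.m = d)
    (hVw : V.w = v) (hVk : V.k₀ = κ) {x x₁ x₂ : ℚ} (hx₁ : V.x₁ = x₁) (hx₂ : V.x₂ = x₂)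
    (h1 : x₁ < x) (h2 : x < x₂)
    (hfar : ∀ n t, 0 < n → n ≤ N → (∃ a : ℤ, (2 : ℝ) ^ n * t - t = a) →
      (κ : ℝ) + x₁ ≤ Circ.nu v d t → Circ.nu v d t ≤ κ + x₂ → Circ.nu v d t = κ + x)
    {n : ℕ} (hn : 0 < n) (hnN : n ≤ N) {t : ℝ} (ht : ∃ a : ℤ, (2 : ℝ) ^ n * t - t = a) :
    ∃ ε > 0, ∀ θ c, t < θ → θ < t + ε → Ang c θ → (c ∈ V.InV ↔ InPl d v κ x t) := by
  have b1 : (x₁ : ℝ) < x := by exact_mod_cast h1
  have b2 : (x : ℝ) < x₂ := by exact_mod_cast h2
  by_cases hI : InPl d v κ x t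
  · obtain ⟨m, hm⟩ := hI
    obtain ⟨δ, hδ, hδ'⟩ := exists_delta d v t
      (show (0 : ℝ) < min ((x : ℝ) - x₁) ((x₂ : ℝ) - x) from lt_min (sub_pos.2 b1) (sub_pos.2 b2))
    refine ⟨δ, hδ, fun θ c g1 g2 hA => ⟨fun _ => ⟨m, hm⟩, fun _ => ?_⟩⟩
    have g3 := hδ' θ (by rw [abs_of_pos (by linarith)]; linarith) m
    rw [hm, abs_lt] at g3
    have g4 := min_le_left ((x : ℝ) - x₁) (x₂ - x)
    have g5 := min_le_right ((x : ℝ) - x₁) (x₂ - x)
    refine hOk.mem_of_nu (hA.add_int m) ?_ ?_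
    · rw [hVm, hVw, hVk, hx₁]; linarith
    · rw [hVm, hVw, hVk, hx₂]; linarith
  · set D : ℕ := max x₁.den x₂.den with hD
    have hn' : (0 : ℝ) < n := by exact_mod_cast hn
    have hD0 : (0 : ℝ) < D := by
      have : 0 < D := lt_of_lt_of_le x₁.pos (le_max_left _ _)
      exact_mod_cast this
    have hg : (0 : ℝ) < 1 / (n * D) := by positivity
    have hgap : ∀ y : ℚ, y.den ≤ D → ∀ m : ℤ, Circ.nu v d (t + m) ≠ κ + y →
        1 / ((n : ℝ) * D) ≤ |Circ.nu v d (t + m) - (κ + y)| := by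
      intro y hy m hne
      obtain ⟨Q, R, hQ, hQn, hR⟩ := Circ.weak_gap v d n hn (per_add_int' ht m)
      rw [hR] at hne ⊢
      refine le_trans ?_ (gap_frac hQ hQn κ y hne)
      have hy0 : (0 : ℝ) < y.den := by exact_mod_cast y.pos
      have hy1 : (y.den : ℝ) ≤ D := by exact_mod_cast hy
      gcongr
    have hout : ∀ m : ℤ, Circ.nu v d (t + m) ≤ κ + x₁ - 1 / (n * D) ∨
        κ + x₂ + 1 / (n * D) ≤ Circ.nu v d (t + m) := by
      intro m
      have hx : Circ.nu v d (t + m) ≠ κ + x := fun h => hI ⟨m, h⟩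
      rcases lt_or_ge (Circ.nu v d (t + m)) (κ + x₁) with g | g
      · left
        have := hgap x₁ (le_max_left _ _) m g.ne
        rw [abs_of_neg (by linarith)] at this
        linarith
      · rcases lt_or_ge (κ + (x₂ : ℝ)) (Circ.nu v d (t + m)) with g' | g'
        · right
          have := hgap x₂ (le_max_right _ _) m g'.ne'
          rw [abs_of_pos (by linarith)] at this
          linarith
        · exact absurd (hfar n _ hn hnN (per_add_int' ht m) g g') hx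
    obtain ⟨δ, hδ, hδ'⟩ := exists_delta d v t hg
    refine ⟨δ, hδ, fun θ c g1 g2 hA => ⟨fun hc => ?_, fun h => absurd h hI⟩⟩
    exfalso
    obtain ⟨m, g3, g4⟩ := hOk.nu_of_mem hA hc
    rw [hVm, hVw, hVk, hx₁] at g3
    rw [hVm, hVw, hVk, hx₂] at g4
    have g5 := hδ' θ (by rw [abs_of_pos (by linarith)]; linarith) m
    rw [abs_lt] at g5
    rcases hout m with g6 | g6 <;> linarith

/-- **the barrier theorem without windows** -/
def BTGP (C₀ : ℝ) (k : ℕ) : Prop :=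
  ∀ (N d : ℕ) (v : ℕ → ℤ) (κ : ℤ) (x : ℚ), 0 < N → 0 < d → d ≤ N → Word d v → 0 < x → x < 1 →
    ∃ In : ℂ → Prop, (∀ n, 0 < n → n ≤ N → LC n (1 / (C₀ * N ^ k)) In) ∧
      ∀ n t, 0 < n → n ≤ N → (∃ a : ℤ, (2 : ℝ) ^ n * t - t = a) →
        ∃ ε > 0, ∀ θ c, t < θ → θ < t + ε → Ang c θ → (In c ↔ InPl d v κ x t)

/-- **the period lemma** (helper54): a periodic angle of rotation number `P/Q` under a component
of period `m` has period more than `(Q - 2) m` -/
def PerL : Prop := ∀ (m n : ℕ) (v : ℕ → ℤ) (κ : ℤ) (y : ℚ) (t : ℝ), 0 < m → Word m v →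
  0 < y → y < 1 → 0 < n → (∃ a : ℤ, (2 : ℝ) ^ n * t - t = a) → Circ.nu v m t = κ + y →
  (y.den - 2) * m < n

/-- **the barrier near `x` with its bound** -/
def CutsK (K : ℕ → ℝ) : Prop := ∀ (N m : ℕ) (w : ℕ → ℤ) (k : ℤ) (σ : ℂ → ℂ × ℂ) (x : ℚ),
  Wide m w k σ → (∀ L ∈ D0 m, Exa m (σ L)) → 0 < N → m ≤ N → 0 < x → x < 1 →
  (x.den - 2) * m < N → ∃ (x₁ x₂ : ℚ) (θ₁ θ₂ h : ℝ), 0 < x₁ ∧ x₁ < x ∧ x < x₂ ∧ x₂ < 1 ∧ 0 < h ∧
    (∀ y : ℚ, x₁ ≤ y → y ≤ x₂ → (y.den - 2) * m < N → y = x) ∧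
    Circ.nu w m θ₁ = k + x₁ ∧ Circ.nu w m θ₂ = k + x₂ ∧
    ∀ c ∈ (vdath m w k σ x₁ x₂ θ₁ θ₂ h).BarV, BdK N (K N) c

/-- **the barrier theorem**, from the period lemma and the bound on the barrier -/
theorem btgp_of_cuts (hP : PerL) {C₀ : ℝ} {k : ℕ} (hC : 1 ≤ C₀)
    (hK : CutsK fun N => C₀ / 2 * (N : ℝ) ^ k) : BTGP C₀ k := by
  intro N d v κ x hN hd hdN hv h0 h1
  have hN1 : (1 : ℝ) ≤ N := by exact_mod_cast hN
  have hNk : (1 : ℝ) ≤ (N : ℝ) ^ k := one_le_pow₀ hN1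
  by_cases hx : (x.den - 2) * d < N
  · obtain ⟨σ, hV, hex⟩ := exists_wide_word hd hv κ
    obtain ⟨x₁, x₂, θ₁, θ₂, h, a1, a2, a3, a4, a5, a6, a7, a8, a9⟩ :=
      hK N d v κ σ x hV hex hN hdN h0 h1 hx
    have b1 : (0 : ℝ) < x₁ := by exact_mod_cast a1
    have b2 : (x₂ : ℝ) < 1 := by exact_mod_cast a4
    have b12 : (x₁ : ℝ) < x₂ := by exact_mod_cast a2.trans a3
    have hOk := vdath_ok hV b1 b12 b2 a5 a7 a8
    refine ⟨fun c => c ∈ (vdath d v κ σ x₁ x₂ θ₁ θ₂ h).InV, fun n hn hnN => ?_,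
      fun n t hn hnN ht => in_near (N := N) (d := d) (v := v) (κ := κ) hOk rfl rfl rfl rfl rfl a2 a3 ?_ hn hnN ht⟩
    · have h2 := lc_of_bd (K := C₀ / 2 * (N : ℝ) ^ k) (by nlinarith)
        (fun c hc => hOk.clopen hc) a9 hn hnN
      have e : 2 * (C₀ / 2 * (N : ℝ) ^ k) = C₀ * N ^ k := by ring
      rwa [e] at h2
    · intro n t hn hnN ht g1 g2
      obtain ⟨Q, R, hQ, -, hR⟩ := Circ.weak_gap v d n hn ht
      set y : ℚ := (R : ℚ) / Q - κ with hy
      have hy' : Circ.nu v d t = κ + y := by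
        rw [hR, hy]; push_cast; ring
      rw [hy'] at g1 g2 ⊢
      have g3 : x₁ ≤ y := by
        have : (x₁ : ℝ) ≤ y := by linarith
        exact_mod_cast this
      have g4 : y ≤ x₂ := by
        have : (y : ℝ) ≤ x₂ := by linarith
        exact_mod_cast this
      have g5 := hP d n v κ y t hd hv (a1.trans_le g3) (g4.trans_lt a4) hn ht hy'
      rw [a6 y g3 g4 (g5.trans_le hnN)]
  · refine ⟨fun _ => False, fun n _ _ z _ _ L _ _ _ => Eventually.of_forall fun _ => Iff.rfl,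
      fun n t hn hnN ht => ⟨1, one_pos, fun θ c _ _ _ => ⟨False.elim, ?_⟩⟩⟩
    rintro ⟨m, hm⟩
    exact hx ((hP d n v κ x (t + m) hd hv h0 h1 hn (per_add_int' ht m) hm).trans_le hnN)

/-! ### the glue -/

/-- **the glue**: attracting points with the same multiplier that are not distinguished by
locally constant predicates have the same parameter -/
theorem same_of_BTGP {C₀ : ℝ} {k : ℕ} {D : ℕ → ℕ} (hBT : BTGP C₀ k) (hSEP : SEP D) (hLEP : LEP)
    {n N : ℕ} (hn : 0 < n) (hnN : n ≤ N) (hDN : D n ≤ N) {η : ℝ} (hη : η ≤ 1 / (C₀ * N ^ k))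
    {Lbl : ℂ × ℂ → ℂ → (ℕ → ℤ) → ℤ → Prop} (hID : ID n η Lbl) {x y : ℂ × ℂ} {L : ℂ}
    (hxP : x ∈ Per n) (hyP : y ∈ Per n) (hx : Exa n x) (hy : Exa n y) (hxL : mul n x = exp L)
    (hyL : mul n y = exp L) (hre : L.re < 0) (hL : ‖L‖ < η)
    (hP : ∀ P : ℂ → Prop, LC n η P → (P x.1 ↔ P y.1)) : x.1 = y.1 := by
  obtain ⟨w, κ₁, hw, hl, hext⟩ := hID.ex x L hxP hx hxL hre hL
  obtain ⟨w', κ₂, hw', hl', hext'⟩ := hID.ex y L hyP hy hyL hre hL
  obtain ⟨t, ht⟩ := exists_leftEnd hn w κ₁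
  obtain ⟨t', ht'⟩ := exists_leftEnd hn w' κ₂
  rcases hSEP n w w' κ₁ κ₂ t t' hn hw hw' ht ht' with hs | ⟨d, v, κ, r, hd, hdD, hv, hr0, hr1,
    -, hX⟩
  · exact hID.same _ _ _ _ _ _ _ _ _ hl hl' ht ht' hs
  · exfalso
    have hN : 0 < N := hn.trans_le hnN
    obtain ⟨In, hLC, hIn⟩ := hBT N d v κ r hN hd (hdD.trans hDN) hv hr0 hr1
    have hLC' : LC n η In := fun z h0 h1 L h2 h3 h4 => hLC n hn hnN z h0 h1 L h2 h3 (h4.trans_le hη)
    have key : ∀ (x : ℂ × ℂ) (w : ℕ → ℤ) (κ₁ : ℤ) (t : ℝ), Word n w → LeftEnd n w κ₁ t →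
        (∀ P : ℂ → Prop, LC n η P → ∀ t, LeftEnd n w κ₁ t → ∀ δ > 0,
          ∃ c θ, Ang c θ ∧ t < θ ∧ θ < t + δ ∧ (P x.1 ↔ P c)) →
        (InPl d v κ r t ↔ In x.1) := by
      intro x w κ₁ t hw ht hext
      obtain ⟨ε, hε, hε'⟩ := hIn n t hn hnN (hLEP n w κ₁ t hn hw ht)
      obtain ⟨c, θ, hA, h1, h2, h3⟩ := hext In hLC' t ht ε hε
      rw [h3]
      exact (hε' θ c h1 h2 hA).symm
    have h1 := key x w κ₁ t hw ht hext
    have h2 := key y w' κ₂ t' hw' ht' hext'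
    have h3 := hP In hLC'
    rcases hX with ⟨h4, h5⟩ | ⟨h4, h5⟩
    · exact h5 (h2.2 (h3.1 (h1.1 h4)))
    · exact h5 (h1.2 (h3.2 (h2.1 h4)))

/-- **one parameter over each attracting multiplier** -/
theorem oneC_of_BTGP {C₀ : ℝ} {k : ℕ} {D : ℕ → ℕ} (hBT : BTGP C₀ k) (hSEP : SEP D) (hLEP : LEP)
    {n N : ℕ} (hn : 0 < n) (hnN : n ≤ N) (hDN : D n ≤ N) {η : ℝ} (hη : η ≤ 1 / (C₀ * N ^ k))
    (hη2 : η ≤ 1 / 2) {Lbl : ℂ × ℂ → ℂ → (ℕ → ℤ) → ℤ → Prop} (hID : ID n η Lbl) {x₀ : ℂ × ℂ}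
    (hx₀ : x₀ ∈ SA n η) (hex : Exa n x₀) : OneC n (QC n η x₀) := by
  have hexQ : ∀ x ∈ QC n η x₀, Exa n x := fun x hx d hd hdn =>
    QC_exact hη2 hx₀ (hex d hd hdn) x hx
  intro x hx y hy h1 hxy
  obtain ⟨-, L, hL, he⟩ := QC_sub hx
  have hre : L.re < 0 := by
    rwa [he, Complex.norm_exp, Real.exp_lt_one_iff] at h1
  exact same_of_BTGP hBT hSEP hLEP hn hnN hDN hη hID (QC_sub hx).1 (QC_sub hy).1 (hexQ x hx)
    (hexQ y hy) he
    (by rw [← hxy, he]) hre hL.2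
    (fun P hP => (hP.const hη2 hx₀ hex x hx).trans (hP.const hη2 hx₀ hex y hy).symm)

/-- the separation theorem of helper70 in the form of the adapter -/
theorem sep70_57 : Sep70 := by
  intro n w w' k k' t t' hn hw hw' ht ht' h0 h1 h0' h1' H
  exact (Sep.sep (by omega) hw hw' h0 h1 h0' h1' ht.1 ht.2 ht'.1 ht'.2
    (fun S hS hSn u hu hor => H S hS hSn u hu hor)).1

/-- **all components**, from the barrier theorem without windows -/
theorem rootPiece_of_BTGP {C₀ : ℝ} (hC₀ : 1 ≤ C₀) {k : ℕ} (hBT : BTGP C₀ k) :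
    RootPiece fun n => 1 / ((4 * C₀) * n ^ k) := by
  have hδ : ∀ n : ℕ, 0 < n → 0 < 1 / ((4 * C₀) * (n : ℝ) ^ k) ∧
      1 / ((4 * C₀) * (n : ℝ) ^ k) ≤ 1 / 4 := by
    intro n hn
    have hn' : (1 : ℝ) ≤ n := by exact_mod_cast hn
    have h1 : (1 : ℝ) ≤ n ^ k := one_le_pow₀ hn'
    refine ⟨by positivity, one_div_le_one_div_of_le (by norm_num) ?_⟩
    nlinarith [mul_le_mul hC₀ h1 (by norm_num) (by linarith)]
  refine rootPiece_of_clo hδ (cloAll_of_oneC hδ ?_)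
  intro n r b x hper hx0 hexp hx2
  have hn : 0 < n := hper.1
  have hn' : (1 : ℝ) ≤ n := by exact_mod_cast hn
  obtain ⟨hδ0, hδ1⟩ := hδ n hn
  have hb : it r n b = b := perN_itH4 hper
  have hnx : ‖axisPt x‖ = 2 * Real.pi * |(x : ℝ)| := by
    have h := LimbData.axisPt_sub x 0
    have h0 : axisPt 0 = 0 := by simp [axisPt]
    rw [h0, sub_zero] at h
    simpa using h
  set η : ℝ := 2 * (1 / ((4 * C₀) * (n : ℝ) ^ k)) with hη
  have hη0 : 0 < η := by positivity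
  have hη2 : η ≤ 1 / 2 := by linarith
  have hSA : (r, b) ∈ SA n η := by
    refine ⟨hb, axisPt x, ⟨?_, ?_⟩, hexp⟩
    · rw [← norm_pos_iff, hnx]
      have : (x : ℝ) ≠ 0 := by exact_mod_cast hx0
      have := Real.pi_pos
      positivity
    · rw [hnx]; linarith
  have hex : Exa n (r, b) := by
    intro d hd hdn h
    have h1 : Function.IsPeriodicPt (f r) d b := h
    have h2 := h1.minimalPeriod_le hd
    rw [hper.2] at h2
    omega
  obtain ⟨Lbl, hL⟩ := exists_ID n η hn hη0 (by linarith)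
  refine oneC_of_BTGP (N := n) hBT (sep_of_70 sep70_57) lep hn le_rfl le_rfl ?_ hη2 hL hSA hex
  rw [hη, mul_one_div, div_le_div_iff₀ (by positivity) (by positivity)]
  have : 0 < C₀ * (n : ℝ) ^ k := by positivity
  nlinarith

end Pool.Agent.Work.MLC.Pri
end

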