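import Pool.Agent.Work.MLCM.C63
import Pool.Agent.Work.MLCM.C65
import Pool.Agent.Work.MLCM.C67
import Pool.Agent.Work.MLCM.C69

section
set_option autoImplicit false

/-! # Theorem F, module G1 (and G2): the plateaus of the roots are laminar (helper54)

`D.tm' + k` in the closed plateau of `D` forces: the root of `D'` is in the limb of `D` (or it is
the root of `D`), and then the whole plateau of `D'`, moved by `k`, is inside the open plateau. -/

namespace Pool.Agent.Work.MLC.Cnt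

open Filter Topology Metric Set Complex
open Pool.Agent.Work.MLC.Sat

namespace CL

/-- one step of the binary expansion -/
lemma floor_step {e k l : ℤ} {z : ℝ} (h1 : ((k : ℝ) + e) / 2 + l < z)
    (h2 : z < ((k : ℝ) + e) / 2 + l + 1 / 2) : ⌊2 * z⌋ = k + e + 2 * l := by
  rw [Int.floor_eq_iff]
  push_cast
  constructor <;> linarith

lemma floor_two (z : ℝ) : ⌊2 * z⌋ = 2 * ⌊z⌋ ∨ ⌊2 * z⌋ = 2 * ⌊z⌋ + 1 := by
  have h1 := Int.floor_le z
  have h2 := Int.lt_floor_add_one z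
  have h3 : 2 * ⌊z⌋ ≤ ⌊2 * z⌋ := by rw [Int.le_floor]; push_cast; linarith
  have h4 : ⌊2 * z⌋ < 2 * ⌊z⌋ + 2 := by rw [Int.floor_lt]; push_cast; linarith
  omega

/-- angles with the same itinerary with respect to an integer differ by an integer -/
lemma eq_of_compat_int {w : ℕ → ℤ} {x y : ℝ} {k : ℤ} (hx : Compat x k w) (hy : Compat y k w) :
    ∃ l : ℤ, y = x + l := by
  refine ⟨⌊y⌋ - ⌊x⌋, ?_⟩
  have key : ∀ i : ℕ, ⌊2 ^ i * y⌋ - ⌊2 ^ i * x⌋ = 2 ^ i * (⌊y⌋ - ⌊x⌋) := by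
    intro i
    induction i with
    | zero => simp
    | succ i ih =>
      obtain ⟨l, l1, l2⟩ := hx i
      obtain ⟨l', l1', l2'⟩ := hy i
      have e1 := floor_step l1 l2
      have e2 := floor_step l1' l2'
      have e3 : (2 : ℝ) ^ (i + 1) * x = 2 * (2 ^ i * x) := by ring
      have e4 : (2 : ℝ) ^ (i + 1) * y = 2 * (2 ^ i * y) := by ring
      rw [e3, e4, pow_succ]
      rcases floor_two (2 ^ i * x) with a | a <;> rcases floor_two (2 ^ i * y) with b | b
      · rw [a, b]; linarith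
      · omega
      · omega
      · rw [a, b]; linarith
  have h1 : ∀ i : ℕ, |2 ^ i * (y - x - ((⌊y⌋ - ⌊x⌋ : ℤ) : ℝ))| ≤ 1 := by
    intro i
    have h2 := congrArg (fun n : ℤ => (n : ℝ)) (key i)
    push_cast at h2
    have a1 := Int.floor_le (2 ^ i * x)
    have a2 := Int.lt_floor_add_one (2 ^ i * x)
    have a3 := Int.floor_le (2 ^ i * y)
    have a4 := Int.lt_floor_add_one (2 ^ i * y)
    rw [abs_le]
    push_cast
    constructor <;> nlinarith
  by_contra hne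
  have h3 : 0 < |y - x - ((⌊y⌋ - ⌊x⌋ : ℤ) : ℝ)| := by
    rw [abs_pos]
    intro h
    exact hne (by linarith)
  obtain ⟨n, hn⟩ := pow_unbounded_of_one_lt (1 / |y - x - ((⌊y⌋ - ⌊x⌋ : ℤ) : ℝ)|) (one_lt_two)
  have h4 := h1 n
  rw [abs_mul, abs_of_pos (by positivity : (0 : ℝ) < 2 ^ n)] at h4
  rw [div_lt_iff₀ h3] at hn
  linarith

end CL

variable {D D' : Dat}

lemma tm_not_int (hP : D.Par) (hC : D.Cir) (k : ℤ) : D.tm ≠ k := by
  intro h
  refine hC.per.2.2 1 one_pos (two_le_den hP.x_pos hP.x_lt) ⟨2 ^ (D.m * 1) * k - k, ?_⟩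
  rw [h]; push_cast; ring

lemma tp_not_int (hP : D.Par) (hC : D.Cir) (k : ℤ) : D.tp ≠ k := by
  intro h
  obtain ⟨j, l, hj⟩ := hC.orb'
  refine tm_not_int hP hC (2 ^ (D.m * j) * k + l) ?_
  rw [hj, h]; push_cast; ring

/-- the plateau contains no integer -/
theorem no_int_mem (hP : D.Par) (hC : D.Cir) (k : ℤ) : ¬ (D.tm ≤ k ∧ (k : ℝ) ≤ D.tp) := by
  rintro ⟨h1, h2⟩
  have h1' : D.tm < k := lt_of_le_of_ne h1 (tm_not_int hP hC k)
  have h2' : (k : ℝ) < D.tp := lt_of_le_of_ne h2 (fun h => tp_not_int hP hC k h.symm)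
  obtain ⟨a, b⟩ := hC.compat_w k h1' h2'
  obtain ⟨l, hl⟩ := CL.eq_of_compat_int a b
  have h3 := hC.lt
  have h4 := hC.lt_one
  rw [hl] at h3 h4
  have h5 : (0 : ℝ) < l := by linarith
  have h6 : (l : ℝ) < 1 := by linarith
  have h7 : 0 < l := by exact_mod_cast h5
  have h8 : l < 1 := by exact_mod_cast h6
  omega

/-- the plateau is in one unit interval -/
lemma floor_plateau (hP : D.Par) (hC : D.Cir) : (⌊D.tm⌋ : ℝ) < D.tm ∧ D.tp < ⌊D.tm⌋ + 1 := by
  refine ⟨lt_of_le_of_ne (Int.floor_le _) (fun h => tm_not_int hP hC _ h.symm), ?_⟩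
  by_contra h
  push Not at h
  refine no_int_mem hP hC (⌊D.tm⌋ + 1) ⟨?_, ?_⟩
  · push_cast; exact (Int.lt_floor_add_one _).le
  · push_cast; exact h

/-- two plateaus: the translate is determined -/
lemma shift_unique (hP : D.Par) (hC : D.Cir) (hP' : D'.Par) (hC' : D'.Cir) {k l : ℤ} {u v : ℝ}
    (hu : D'.tm ≤ u) (hu' : u ≤ D'.tp) (hv : D'.tm ≤ v) (hv' : v ≤ D'.tp)
    (h1 : D.tm ≤ u + k) (h2 : u + k ≤ D.tp) (h3 : D.tm ≤ v + l) (h4 : v + l ≤ D.tp) : k = l := by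
  obtain ⟨a1, a2⟩ := floor_plateau hP hC
  obtain ⟨b1, b2⟩ := floor_plateau hP' hC'
  have e1 : ((⌊D.tm⌋ - ⌊D'.tm⌋ - k : ℤ) : ℝ) < 1 := by push_cast; linarith
  have e2 : ((-1 : ℤ) : ℝ) < ((⌊D.tm⌋ - ⌊D'.tm⌋ - k : ℤ) : ℝ) := by push_cast; linarith
  have e3 : ((⌊D.tm⌋ - ⌊D'.tm⌋ - l : ℤ) : ℝ) < 1 := by push_cast; linarith
  have e4 : ((-1 : ℤ) : ℝ) < ((⌊D.tm⌋ - ⌊D'.tm⌋ - l : ℤ) : ℝ) := by push_cast; linarith
  have f1 : ⌊D.tm⌋ - ⌊D'.tm⌋ - k < 1 := by exact_mod_cast e1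
  have f2 : -1 < ⌊D.tm⌋ - ⌊D'.tm⌋ - k := by exact_mod_cast e2
  have f3 : ⌊D.tm⌋ - ⌊D'.tm⌋ - l < 1 := by exact_mod_cast e3
  have f4 : -1 < ⌊D.tm⌋ - ⌊D'.tm⌋ - l := by exact_mod_cast e4
  omega

/-- an end of the plateau of `D'` in the closed plateau of `D`: the root of `D'` is in the limb -/
theorem rt_mem_Lm_of_end (h2 : N2_ray) (h5' : N5_closed) (hP : D.Par) (hC : D.Cir) (hP' : D'.Par)
    (hC' : D'.Cir) (hne : rt D ≠ rt D') {k : ℤ}
    (h : (D.tm ≤ D'.tm + k ∧ D'.tm + k ≤ D.tp) ∨ (D.tm ≤ D'.tp + k ∧ D'.tp + k ≤ D.tp)) :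
    rt D' ∈ Lm D := by
  have hcl : rt D' ∈ closure (Lm D ∪ {c' | ∃ θ, Ang c' θ ∧ D.tm ≤ θ ∧ θ ≤ D.tp}) := by
    rw [mem_closure_iff_nhds]
    intro N hN
    obtain ⟨g, hg, hg1, hg2⟩ := CH.rt_mem_closure h2 hP' hC' N hN
    rcases h with h | h
    · refine ⟨_, hg1, Or.inr ⟨D'.tm + k, ?_, h⟩⟩
      rw [← CH.cOf_shift g D'.tm k]
      exact (ang_cOf hg).1
    · refine ⟨_, hg2, Or.inr ⟨D'.tp + k, ?_, h⟩⟩
      rw [← CH.cOf_shift g D'.tp k]
      exact (ang_cOf hg).1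
  rcases h5' D hP hC _ (CH.rt_mem_MM hP') hcl with h4 | h4
  · exact h4
  · exact absurd h4.symm hne

/-- the root of `D'` in the limb of `D`: the plateau of `D'` is inside the open plateau -/
theorem plateau_of_rt_mem_Lm (h2 : N2_ray) (h5 : N5_open) (hP : D.Par) (hC : D.Cir) (hP' : D'.Par)
    (hC' : D'.Cir) (h : rt D' ∈ Lm D) : ∃ k : ℤ, D.tm < D'.tm + k ∧ D'.tp + k < D.tp := by
  obtain ⟨g, hg, hg1, hg2⟩ := CH.rt_mem_closure h2 hP' hC' _ (h5 D hP hC _ h)
  obtain ⟨k, k1, k2⟩ := hg1.2 D'.tm (ang_cOf hg).1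
  obtain ⟨l, l1, l2⟩ := hg2.2 D'.tp (ang_cOf hg).1
  have hkl : k = l := shift_unique hP hC hP' hC' le_rfl hC'.lt.le hC'.lt.le le_rfl k1.le k2.le l1.le
    l2.le
  exact ⟨k, k1, by rw [hkl]; exact l2⟩

/-- an end of the plateau of `D'` in the closed plateau of `D`: the plateau of `D'` is inside -/
theorem plateau_of_end (h2 : N2_ray) (h5 : N5_open) (h5' : N5_closed) (hP : D.Par) (hC : D.Cir)
    (hP' : D'.Par) (hC' : D'.Cir) (hne : rt D ≠ rt D') {k : ℤ}
    (h : (D.tm ≤ D'.tm + k ∧ D'.tm + k ≤ D.tp) ∨ (D.tm ≤ D'.tp + k ∧ D'.tp + k ≤ D.tp)) :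
    D.tm < D'.tm + k ∧ D'.tp + k < D.tp := by
  have h1 := rt_mem_Lm_of_end h2 h5' hP hC hP' hC' hne h
  obtain ⟨l, l1, l2⟩ := plateau_of_rt_mem_Lm h2 h5 hP hC hP' hC' h1
  have hlt := hC'.lt
  have hkl : k = l := by
    rcases h with ⟨a, b⟩ | ⟨a, b⟩
    · exact shift_unique hP hC hP' hC' le_rfl hlt.le le_rfl hlt.le a b l1.le (by linarith)
    · exact shift_unique hP hC hP' hC' hlt.le le_rfl hlt.le le_rfl a b (by linarith) l2.le
  rw [hkl]
  exact ⟨l1, l2⟩

/-- **G1**: the plateaus of different roots are disjoint or nested, without common ends -/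
theorem laminar (h2 : N2_ray) (h5 : N5_open) (h5' : N5_closed) (hP : D.Par) (hC : D.Cir)
    (hP' : D'.Par) (hC' : D'.Cir) (hne : rt D ≠ rt D') (k : ℤ) :
    (D.tm < D'.tm + k ∧ D'.tp + k < D.tp) ∨ (D'.tm + k < D.tm ∧ D.tp < D'.tp + k) ∨
      D'.tp + k < D.tm ∨ D.tp < D'.tm + k := by
  by_cases a1 : D.tm ≤ D'.tm + k ∧ D'.tm + k ≤ D.tp
  · exact Or.inl (plateau_of_end h2 h5 h5' hP hC hP' hC' hne (Or.inl a1))
  by_cases a2 : D.tm ≤ D'.tp + k ∧ D'.tp + k ≤ D.tp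
  · exact Or.inl (plateau_of_end h2 h5 h5' hP hC hP' hC' hne (Or.inr a2))
  rcases lt_or_ge (D'.tp + k) D.tm with b1 | b1
  · exact Or.inr (Or.inr (Or.inl b1))
  rcases lt_or_ge D.tp (D'.tm + k) with b2 | b2
  · exact Or.inr (Or.inr (Or.inr b2))
  right; left
  constructor
  · by_contra h
    push Not at h
    exact a1 ⟨h, b2⟩
  · by_contra h
    push Not at h
    exact a2 ⟨b1, h⟩

/-! ### rays which accumulate at the root -/

/-- a ray which accumulates at the root has its angle in the closed plateau -/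
theorem plateau_of_limit (hP : D.Par) (hC : D.Cir) {θ : ℝ}
    (h : ∀ N ∈ 𝓝 (rt D), ∃ g : ℝ, 0 < g ∧ cOf ((g : ℂ) + 2 * Real.pi * θ * I) ∈ N) :
    ∃ k : ℤ, D.tm ≤ θ + k ∧ θ + k ≤ D.tp := by
  by_contra hcon
  push Not at hcon
  have haB := CH.a_mem hP
  have hB : D.B ∈ 𝓝 D.a := isOpen_ball.mem_nhds haB
  have hmap := c_map_nhds hP haB
  have hm0 : (0 : ℝ) < D.m := by exact_mod_cast hP.m_pos
  have hpi := Real.two_pi_pos
  -- near the root the rotation number is near `x`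
  have hev : ∀ δ > 0, ∃ k : ℤ, (D.k₀ : ℝ) < Circ.nu D.w D.m (θ + k) ∧
      Circ.nu D.w D.m (θ + k) < D.k₀ + 1 ∧ |Circ.nu D.w D.m (θ + k) - D.k₀ - D.x| < δ := by
    intro δ hδ
    have hc : ∀ᶠ L in 𝓝 D.a, L ∈ D.B ∧ ‖L - D.a‖ < δ ∧ 81 * D.m * L.re < δ ^ 2 := by
      have c1 : ∀ᶠ L in 𝓝 D.a, ‖L - D.a‖ < δ := by
        have : Continuous fun L : ℂ => ‖L - D.a‖ := by fun_prop
        refine (this.tendsto D.a).eventually (eventually_lt_nhds ?_)
        rw [sub_self, norm_zero]; exact hδ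
      have c2 : ∀ᶠ L in 𝓝 D.a, 81 * D.m * L.re < δ ^ 2 := by
        have : Continuous fun L : ℂ => 81 * (D.m : ℝ) * L.re := by fun_prop
        refine (this.tendsto D.a).eventually (eventually_lt_nhds ?_)
        have h8 : D.a.re = 0 := LimbData.axisPt_re _
        rw [h8]; simpa using by positivity
      filter_upwards [hB, c1, c2] with L a b c using ⟨a, b, c⟩
    have hN : D.c '' {L | L ∈ D.B ∧ ‖L - D.a‖ < δ ∧ 81 * D.m * L.re < δ ^ 2} ∈ 𝓝 (rt D) := by
      have : rt D = D.c D.a := rfl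
      rw [this, ← hmap]
      exact image_mem_map hc
    obtain ⟨g, hg, L, ⟨hLB, hL1, hL2⟩, hLc⟩ := h _ hN
    have hA := (ang_cOf (θ := θ) hg).1
    rw [← hLc] at hA
    have hM : D.c L ∉ MM := not_mem_MM_iff.2 hA.1
    obtain ⟨θ', hθ'⟩ := hP.ang L hLB hM
    obtain ⟨k, hk⟩ := hA.unique hθ'.1.ang
    have hply := hP.ply L hLB θ' hθ'
    rw [hk] at hply hθ'
    refine ⟨k, hθ'.2.1, hθ'.2.2, ?_⟩
    have e1 : ‖L - 2 * Real.pi * ((Circ.nu D.w D.m (θ + k) - D.k₀ : ℝ) : ℂ) * I‖ < δ := by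
      refine lt_of_pow_lt_pow_left₀ 2 hδ.le (lt_of_le_of_lt hply hL2)
    have e2 : D.a - 2 * Real.pi * ((Circ.nu D.w D.m (θ + k) - D.k₀ : ℝ) : ℂ) * I =
        ((2 * Real.pi * (D.x - (Circ.nu D.w D.m (θ + k) - D.k₀)) : ℝ) : ℂ) * I := by
      rw [Dat.a, axisPt]; push_cast; ring
    have e3 : ‖D.a - 2 * Real.pi * ((Circ.nu D.w D.m (θ + k) - D.k₀ : ℝ) : ℂ) * I‖ < 2 * δ := by
      have e4 : D.a - 2 * Real.pi * ((Circ.nu D.w D.m (θ + k) - D.k₀ : ℝ) : ℂ) * I =
          (L - 2 * Real.pi * ((Circ.nu D.w D.m (θ + k) - D.k₀ : ℝ) : ℂ) * I) - (L - D.a) := by ring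
      rw [e4]
      refine lt_of_le_of_lt (norm_sub_le _ _) ?_
      linarith
    rw [e2, norm_mul, Complex.norm_I, mul_one, Complex.norm_real, Real.norm_eq_abs, abs_mul,
      abs_of_pos hpi] at e3
    have e5 : |Circ.nu D.w D.m (θ + k) - D.k₀ - D.x| =
        |(D.x : ℝ) - (Circ.nu D.w D.m (θ + k) - D.k₀)| := by
      rw [← abs_neg]; congr 1; ring
    rw [e5]
    have hpi3 := Real.pi_gt_three
    nlinarith [abs_nonneg ((D.x : ℝ) - (Circ.nu D.w D.m (θ + k) - D.k₀))]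
  -- finitely many translates are in the strip
  set S : Set ℤ := {k : ℤ | (D.k₀ : ℝ) < Circ.nu D.w D.m (θ + k) ∧
    Circ.nu D.w D.m (θ + k) < D.k₀ + 1} with hS
  have hfin : S.Finite := by
    obtain ⟨k₁, h1, h1', -⟩ := hev 1 one_pos
    refine (Set.finite_Icc (k₁ - 2) (k₁ + 2)).subset ?_
    rintro k ⟨h2, h2'⟩
    have hm1 : (1 : ℝ) ≤ D.m := by exact_mod_cast hP.m_pos
    have key : ∀ a b : ℤ, (D.k₀ : ℝ) < Circ.nu D.w D.m (θ + a) →
        Circ.nu D.w D.m (θ + b) < D.k₀ + 1 → ¬ a + 2 ≤ b := by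
      intro a b ha hb hab
      have h3 := Circ.nu_add_two D.w (θ + a) D.m
      have h4 : Circ.nu D.w D.m (θ + a + 2) ≤ Circ.nu D.w D.m (θ + b) := by
        refine Circ.nu_mono _ _ ?_
        have : ((a + 2 : ℤ) : ℝ) ≤ b := by exact_mod_cast hab
        push_cast at this
        linarith
      linarith
    have h5 := key k k₁ h2 h1'
    have h6 := key k₁ k h1 h2'
    exact ⟨by omega, by omega⟩
  have hne : ∀ k ∈ S, 0 < |Circ.nu D.w D.m (θ + k) - D.k₀ - D.x| := by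
    intro k _
    rw [abs_pos]
    intro h0
    have h1 : Circ.nu D.w D.m (θ + k) = D.k₀ + D.x := by linarith
    obtain ⟨h2, h3⟩ := (hC.plateau (θ + k)).1 h1
    exact absurd h3 (not_le.2 (hcon k h2))
  obtain ⟨δ, hδ, hδ'⟩ : ∃ δ > 0, ∀ k ∈ S, δ ≤ |Circ.nu D.w D.m (θ + k) - D.k₀ - D.x| := by
    by_cases hemp : S.Nonempty
    · obtain ⟨k, hk, hmin⟩ := hfin.exists_minimalFor
        (fun k : ℤ => |Circ.nu D.w D.m (θ + k) - D.k₀ - D.x|) S hemp
      refine ⟨_, hne k hk, fun k' hk' => ?_⟩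
      by_contra hlt
      push Not at hlt
      exact absurd (hmin hk' hlt.le) (not_le.2 hlt)
    · refine ⟨1, one_pos, fun k hk => absurd ⟨k, hk⟩ hemp⟩
  obtain ⟨k, k1, k2, k3⟩ := hev δ hδ
  exact absurd (hδ' k ⟨k1, k2⟩) (not_le.2 k3)

/-- **G1b**: the plateau is determined by the root (modulo integers) -/
theorem plateau_unique (h2 : N2_ray) (hP : D.Par) (hC : D.Cir) (hP' : D'.Par) (hC' : D'.Cir)
    (he : rt D = rt D') : ∃ k : ℤ, D.tm = D'.tm + k ∧ D.tp = D'.tp + k := by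
  have key : ∀ {D D' : Dat}, D.Par → D.Cir → D'.Par → D'.Cir → rt D = rt D' →
      ∃ k : ℤ, D.tm ≤ D'.tm + k ∧ D'.tp + k ≤ D.tp := by
    intro D D' hP hC hP' hC' he
    obtain ⟨k, k1, k2⟩ := plateau_of_limit hP hC (θ := D'.tm) fun N hN => by
      rw [he] at hN
      obtain ⟨g, hg, hg1, -⟩ := CH.rt_mem_closure h2 hP' hC' N hN
      exact ⟨g, hg, hg1⟩
    obtain ⟨l, l1, l2⟩ := plateau_of_limit hP hC (θ := D'.tp) fun N hN => by
      rw [he] at hN
      obtain ⟨g, hg, -, hg1⟩ := CH.rt_mem_closure h2 hP' hC' N hN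
      exact ⟨g, hg, hg1⟩
    have hkl : k = l := shift_unique hP hC hP' hC' le_rfl hC'.lt.le hC'.lt.le le_rfl k1 k2 l1 l2
    exact ⟨k, k1, by rw [hkl]; exact l2⟩
  obtain ⟨k, k1, k2⟩ := key hP hC hP' hC' he
  obtain ⟨l, l1, l2⟩ := key hP' hC' hP hC he.symm
  exact ⟨k, by linarith, by linarith⟩

end Pool.Agent.Work.MLC.Cnt
end

section
set_option autoImplicit false

/-! # Theorem Q, modules L and S: one limb, and the sum (helper26) -/

namespace Pool.Agent.Work.MLC.Cnt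

open Filter Topology Metric Set Complex MeasureTheory
open Pool.Agent.Work.MLC.Sat

namespace WS

variable {W : WS} {y y' : ℚ}

lemma nu_tm (h : W.Ok) (h0 : 0 < y) (h1 : y < 1) : W.nu (W.dat y).tm = y :=
  (plateau h h0 h1 _).2 ⟨le_rfl, (dat_cir h h0 h1).lt.le⟩

lemma nu_tp (h : W.Ok) (h0 : 0 < y) (h1 : y < 1) : W.nu (W.dat y).tp = y :=
  (plateau h h0 h1 _).2 ⟨(dat_cir h h0 h1).lt.le, le_rfl⟩

lemma lt_of_nu {s t : ℝ} (h : W.nu s < W.nu t) : s < t := by
  by_contra hcon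
  push Not at hcon
  exact absurd (W.nu_mono hcon) (not_le.2 h)

lemma tm_mono (h : W.Ok) (h0 : 0 < y) (hyy : y ≤ y') (h1 : y' < 1) :
    (W.dat y).tm ≤ (W.dat y').tm := by
  rcases hyy.eq_or_lt with rfl | hlt
  · exact le_rfl
  · have hlt' : (y : ℝ) < y' := by exact_mod_cast hlt
    refine (lt_of_nu (W := W) ?_).le
    rw [nu_tm h h0 (hlt.trans h1), nu_tm h (h0.trans hlt) h1]
    exact hlt'

lemma tp_mono (h : W.Ok) (h0 : 0 < y) (hyy : y ≤ y') (h1 : y' < 1) :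
    (W.dat y).tp ≤ (W.dat y').tp := by
  rcases hyy.eq_or_lt with rfl | hlt
  · exact le_rfl
  · have hlt' : (y : ℝ) < y' := by exact_mod_cast hlt
    refine (lt_of_nu (W := W) ?_).le
    rw [nu_tp h h0 (hlt.trans h1), nu_tp h (h0.trans hlt) h1]
    exact hlt'

end WS

/-! ### the interval around `x` -/

section

variable {x : ℚ}

lemma den_pos' (x : ℚ) : (0 : ℝ) < x.den := by exact_mod_cast x.den_pos

lemma one_div_den_le (h0 : 0 < x) : 1 / (x.den : ℝ) ≤ x := by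
  have h1 := den_pos' x
  rw [div_le_iff₀ h1]
  have h2 : (1 : ℤ) ≤ x.num := Rat.num_pos.2 h0
  have h3 : (x : ℝ) * x.den = x.num := by exact_mod_cast Rat.mul_den_eq_num x
  rw [h3]
  exact_mod_cast h2

lemma one_div_den_le' (h1 : x < 1) : (x : ℝ) + 1 / x.den ≤ 1 := by
  have h2 := den_pos' x
  have h3 : (x : ℝ) * x.den = x.num := by exact_mod_cast Rat.mul_den_eq_num x
  have h4 : (x : ℝ) < 1 := by exact_mod_cast h1
  have h5 : (x.num : ℝ) < x.den := by rw [← h3]; nlinarith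
  have h6 : x.num < x.den := by exact_mod_cast h5
  have h7 : (x.num : ℝ) + 1 ≤ x.den := by exact_mod_cast h6
  have h8 : ((x : ℝ) + 1 / x.den) * x.den ≤ 1 * x.den := by
    rw [add_mul, h3, one_div, inv_mul_cancel₀ h2.ne', one_mul]
    exact h7
  exact le_of_mul_le_mul_right h8 h2

end

/-! ### gates on a grid -/

/-- the grid points near `[s, t]` -/
noncomputable def grid (B : ℕ) (s t : ℝ) : Finset ℕ :=
  (Finset.range B).filter fun a => s - 1 / B ≤ (a : ℝ) / B ∧ (a : ℝ) / B ≤ t + 1 / B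

lemma mem_grid {B : ℕ} {s t : ℝ} {a : ℕ} :
    a ∈ grid B s t ↔ a < B ∧ s - 1 / B ≤ (a : ℝ) / B ∧ (a : ℝ) / B ≤ t + 1 / B := by
  unfold grid
  rw [Finset.mem_filter, Finset.mem_range]

lemma grid_near {B : ℕ} (hB : 0 < B) {s t y : ℝ} (hs : 1 / B < s) (ht : t < 1 - 1 / B)
    (h1 : s ≤ y) (h2 : y ≤ t) : ∃ a ∈ grid B s t, |y - (a : ℝ) / B| ≤ 1 / (2 * B) := by
  have hBR : (0 : ℝ) < B := by exact_mod_cast hB
  have h3 : 0 < 1 / (B : ℝ) := by positivity
  have hy0 : 0 < y := by linarith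
  have e1 : 1 / (2 * (B : ℝ)) = 1 / B / 2 := by field_simp
  have hfl := Nat.floor_le (show 0 ≤ y * B + 1 / 2 by positivity)
  have hfl2 := Nat.lt_floor_add_one (y * B + 1 / 2)
  have habs : |y - (⌊y * B + 1 / 2⌋₊ : ℝ) / B| ≤ 1 / (2 * B) := by
    have e2 : y - (⌊y * B + 1 / 2⌋₊ : ℝ) / B = (y * B - ⌊y * B + 1 / 2⌋₊) / B := by
      field_simp
    rw [e2, abs_div, abs_of_pos hBR, div_le_div_iff₀ hBR (by positivity), one_mul]
    have h4 : |y * B - (⌊y * B + 1 / 2⌋₊ : ℝ)| ≤ 1 / 2 := by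
      rw [abs_le]; constructor <;> linarith
    nlinarith
  have habs' := abs_le.1 habs
  rw [e1] at habs'
  refine ⟨⌊y * B + 1 / 2⌋₊, mem_grid.2 ⟨?_, by linarith, by linarith⟩, habs⟩
  have h5 : (⌊y * B + 1 / 2⌋₊ : ℝ) / B < 1 := by linarith
  rw [div_lt_one hBR] at h5
  exact_mod_cast h5

lemma card_grid {B : ℕ} (hB : 0 < B) {s t : ℝ} (hst : s ≤ t) (hs : 1 / B < s) :
    ((grid B s t).card : ℝ) ≤ (t - s) * B + 3 := by
  have hBR : (0 : ℝ) < B := by exact_mod_cast hB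
  have hsB : 1 < s * B := by
    have := mul_lt_mul_of_pos_right hs hBR
    rwa [one_div, inv_mul_cancel₀ hBR.ne'] at this
  have hsub : grid B s t ⊆ Finset.Icc ⌈s * B - 1⌉₊ ⌊t * B + 1⌋₊ := by
    intro a ha
    obtain ⟨-, h1, h2⟩ := mem_grid.1 ha
    rw [Finset.mem_Icc]
    have e1 : (a : ℝ) / B * B = a := by field_simp
    constructor
    · refine Nat.ceil_le.2 ?_
      have := mul_le_mul_of_nonneg_right h1 hBR.le
      rw [e1, sub_mul, one_div, inv_mul_cancel₀ hBR.ne'] at this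
      exact this
    · refine Nat.le_floor ?_
      have := mul_le_mul_of_nonneg_right h2 hBR.le
      rw [e1, add_mul, one_div, inv_mul_cancel₀ hBR.ne'] at this
      exact this
  have h1 := Finset.card_le_card hsub
  rw [Nat.card_Icc] at h1
  have h2 := Nat.le_ceil (s * B - 1)
  have h3 := Nat.floor_le (show 0 ≤ t * B + 1 by nlinarith)
  have h4 : ((⌊t * B + 1⌋₊ + 1 - ⌈s * B - 1⌉₊ : ℕ) : ℝ) ≤ (t - s) * B + 3 := by
    rcases Nat.lt_or_ge (⌊t * B + 1⌋₊ + 1) ⌈s * B - 1⌉₊ with h5 | h5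
    · rw [Nat.sub_eq_zero_of_le h5.le, Nat.cast_zero]
      nlinarith
    · rw [Nat.cast_sub h5]
      push_cast
      linarith
  refine le_trans ?_ h4
  exact_mod_cast h1

lemma axisPt_eq26 (x : ℚ) : axisPt x = 2 * Real.pi * ((x : ℝ) : ℂ) * I := by
  unfold axisPt
  push_cast
  ring

lemma dist_axis (y : ℝ) (x : ℚ) :
    dist ((2 * Real.pi * y * I : ℂ)) (axisPt x) = 2 * Real.pi * |y - x| := by
  rw [axisPt_eq26, dist_eq_norm]
  have e : (2 * Real.pi * y * I : ℂ) - 2 * Real.pi * ((x : ℝ) : ℂ) * I =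
      ((2 * Real.pi * (y - x) : ℝ) : ℂ) * I := by
    push_cast; ring
  rw [e, norm_mul, Complex.norm_I, mul_one, Complex.norm_real, Real.norm_eq_abs, abs_mul,
    abs_of_pos (by positivity)]

/-- the gates on the grid -/
theorem gates26 (hG : Q_gate) {W : WS} (hW : W.Ok) {B : ℕ} (hB : 0 < B) {s t : ℝ} (hst : s ≤ t)
    (hs : 1 / B < s) (ht : t < 1 - 1 / B)
    (hr : ∀ a ∈ grid B s t, 10 / (B : ℝ) ≤ gR W.m ((a : ℚ) / B) / 8) :
    (∀ a ∈ grid B s t, 0 < (a : ℚ) / B ∧ (a : ℚ) / B < 1 ∧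
      Bornology.IsBounded (W.Gt ((a : ℚ) / B) (10 / B))) ∧
    (∀ y : ℝ, s ≤ y → y ≤ t → ∃ a ∈ grid B s t, ∀ ρ : ℝ, ρ ≤ 6 / B →
      W.c '' closedBall (2 * Real.pi * y * I) ρ ⊆ W.Gt ((a : ℚ) / B) (10 / B)) ∧
    (∑ a ∈ grid B s t, diam (W.Gt ((a : ℚ) / B) (10 / B))) ^ 2 ≤
      ((t - s) * B + 3) * (10 ^ 12 *
        ∑ a ∈ grid B s t, (volume (W.Hf ((a : ℚ) / B) (10 / B))).toReal) := by
  have hBR : (0 : ℝ) < B := by exact_mod_cast hB
  have hcast : ∀ a : ℕ, (((a : ℚ) / B : ℚ) : ℝ) = (a : ℝ) / B := by intro a; push_cast; rfl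
  have h01 : ∀ a ∈ grid B s t, 0 < (a : ℚ) / B ∧ (a : ℚ) / B < 1 := by
    intro a ha
    obtain ⟨h1, h2, h3⟩ := mem_grid.1 ha
    have h4 : (0 : ℝ) < (a : ℝ) / B := by linarith
    have h5 : (a : ℝ) / B < 1 := by
      rw [div_lt_one hBR]
      exact_mod_cast h1
    rw [← hcast a] at h4 h5
    exact ⟨by exact_mod_cast h4, by exact_mod_cast h5⟩
  have hg := fun a (ha : a ∈ grid B s t) => hG W hW ((a : ℚ) / B) (10 / B) (h01 a ha).1
    (h01 a ha).2 (by positivity) (hr a ha)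
  refine ⟨fun a ha => ⟨(h01 a ha).1, (h01 a ha).2, (hg a ha).2.1⟩, ?_, ?_⟩
  · intro y h1 h2
    obtain ⟨a, ha, h3⟩ := grid_near hB hs ht h1 h2
    refine ⟨a, ha, fun ρ hρ => ?_⟩
    unfold WS.Gt
    refine image_mono (closedBall_subset_closedBall' ?_)
    rw [dist_axis, hcast a]
    have h4 : 2 * Real.pi * |y - (a : ℝ) / B| ≤ 2 * 4 * (1 / (2 * B)) := by
      have := Real.pi_lt_four
      gcongr
    have h5 : 2 * 4 * (1 / (2 * (B : ℝ))) = 4 / B := by field_simp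
    have h6 : 6 / (B : ℝ) + 4 / B = 10 / B := by ring
    linarith
  · have h1 : ∑ a ∈ grid B s t, diam (W.Gt ((a : ℚ) / B) (10 / B)) ≤
        ∑ a ∈ grid B s t, 10 ^ 6 * √((volume (W.Hf ((a : ℚ) / B) (10 / B))).toReal) :=
      Finset.sum_le_sum fun a ha => (hg a ha).2.2
    have h0 : 0 ≤ ∑ a ∈ grid B s t, diam (W.Gt ((a : ℚ) / B) (10 / B)) :=
      Finset.sum_nonneg fun a _ => diam_nonneg
    have h2 := pow_le_pow_left₀ h0 h1 2
    refine h2.trans ?_
    refine (sq_sum_le_card_mul_sum_sq).trans ?_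
    have h3 : ∑ a ∈ grid B s t, (10 ^ 6 * √((volume (W.Hf ((a : ℚ) / B) (10 / B))).toReal)) ^ 2 =
        10 ^ 12 * ∑ a ∈ grid B s t, (volume (W.Hf ((a : ℚ) / B) (10 / B))).toReal := by
      rw [Finset.mul_sum]
      refine Finset.sum_congr rfl fun a _ => ?_
      rw [mul_pow, Real.sq_sqrt ENNReal.toReal_nonneg]
      ring
    rw [h3]
    refine mul_le_mul_of_nonneg_right (card_grid hB hst hs) ?_
    have : 0 ≤ ∑ a ∈ grid B s t, (volume (W.Hf ((a : ℚ) / B) (10 / B))).toReal :=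
      Finset.sum_nonneg fun a _ => ENNReal.toReal_nonneg
    positivity

end Pool.Agent.Work.MLC.Cnt
end

section
set_option autoImplicit false

/-! # Theorem Cap: the energies of rays and roofs are invariant under integer shifts (helper53) -/

namespace Pool.Agent.Work.MLC.Cap

open Filter Topology Metric Set Complex MeasureTheory
open Pool.Agent.Work.MLC.Sat Pool.Agent.Work.MLC.Cnt
open scoped ENNReal

/-- `cOf` has the period `2 π i k` -/
theorem cOf_add_int (z : ℂ) (k : ℤ) : cOf (z + (k : ℂ) * (2 * Real.pi * I)) = cOf z := by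
  rw [cOf, cOf, Complex.exp_add, Complex.exp_int_mul_two_pi_mul_I, mul_one]

/-- the derivative of `cOf` has the period `2 π i k` -/
theorem deriv_cOf_add_int (z : ℂ) (k : ℤ) :
    deriv cOf (z + (k : ℂ) * (2 * Real.pi * I)) = deriv cOf z := by
  have h : (fun w : ℂ => cOf (w + (k : ℂ) * (2 * Real.pi * I))) = cOf :=
    funext fun w => cOf_add_int w k
  rw [← deriv_comp_add_const, h]

/-- change of variables: translation by `2 π i k` -/
theorem lintegral_shift (A : Set ℂ) (f : ℂ → ℝ≥0∞) (k : ℤ)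
    (hf : ∀ z : ℂ, f (z + (k : ℂ) * (2 * Real.pi * I)) = f z) :
    ∫⁻ z in (fun z : ℂ => z + (k : ℂ) * (2 * Real.pi * I)) ⁻¹' A, f z = ∫⁻ z in A, f z := by
  have h1 := (measurePreserving_add_right (volume : Measure ℂ)
    ((k : ℂ) * (2 * Real.pi * I))).setLIntegral_comp_preimage_emb
    (measurableEmbedding_addRight _) f A
  simpa only [hf] using h1

theorem im_shift (z : ℂ) (k : ℤ) :
    (z + (k : ℂ) * (2 * Real.pi * I)).im / (2 * Real.pi) = z.im / (2 * Real.pi) + k := by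
  have h1 : (z + (k : ℂ) * (2 * Real.pi * I)).im = z.im + k * (2 * Real.pi) := by
    simp
  have h2 : (2 * Real.pi : ℝ) ≠ 0 := by positivity
  rw [h1, add_div, mul_div_assoc, div_self h2, mul_one]

theorem re_shift (z : ℂ) (k : ℤ) : (z + (k : ℂ) * (2 * Real.pi * I)).re = z.re := by
  simp

theorem rayE_shift (N e D H : ℝ) (k : ℤ) : rayE N (e + k) D H = rayE N e D H := by
  have hA : (fun z : ℂ => z + (k : ℂ) * (2 * Real.pi * I)) ⁻¹' RS (e + k) D H = RS e D H := by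
    ext z
    simp only [mem_preimage, RS, mem_setOf_eq, im_shift, re_shift]
    rw [add_sub_add_right_eq_sub]
  rw [rayE, rayE, ← hA]
  refine (lintegral_shift (RS (e + k) D H)
    (fun z => ENNReal.ofReal (‖deriv cOf z‖ ^ 2 / bet N z.re)) k fun z => ?_).symm
  simp only [deriv_cOf_add_int, re_shift]

end Pool.Agent.Work.MLC.Cap
end

section
set_option autoImplicit false

/-! # Theorem Cap, stage A: from the sum over all limbs to the exceptional set (helper6)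

`C_limbsum C`: the sum over all roots of type `(m, p / q)`, `q ≥ 3`, of `diam (limb) ^ 2 / (m q)` is
at most `C`. -/

namespace Pool.Agent.Work.MLC.Cap

open Filter Topology Metric Set Complex MeasureTheory
open Pool.Agent.Work.MLC.Sat Pool.Agent.Work.MLC.Cnt
open scoped ENNReal

/-- LS: the sum over all limbs with denominators at least `3` -/
def C_limbsum (C : ℝ) : Prop := ∀ (ι : Type) (F : Finset ι) (W : ι → WS) (x : ι → ℚ),
  (∀ i ∈ F, (W i).Ok ∧ 0 < x i ∧ x i < 1 ∧ 3 ≤ (x i).den) →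
  (∀ i ∈ F, ∀ j ∈ F, i ≠ j → rt ((W i).dat (x i)) ≠ rt ((W j).dat (x j))) →
  ∑ i ∈ F, diam (Lm ((W i).dat (x i))) ^ 2 / ((W i).m * (x i).den) ≤ C

/-! ### pure lemmas -/

/-- the tail of a convergent sum -/
lemma pure_tail {α : Type} {d w : α → ℝ} (hw : ∀ a, 0 ≤ w a)
    (hs : Summable fun a => d a ^ 2 * w a) {ε : ℝ≥0∞} (hε : ε ≠ 0) :
    ∃ B : Set α, ∑' a : B, ENNReal.ofReal (w a) < ε ∧ ∀ δ > 0, {a | a ∉ B ∧ δ ≤ d a}.Finite := by
  classical
  obtain ⟨ε', hε', hsum⟩ := ENNReal.exists_pos_sum_of_countable' hε ℕ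
  set S : ℕ → Set α := fun j => {a | 1 / ((j : ℝ) + 1) ≤ d a} with hS
  set f : ℕ → α → ℝ≥0∞ := fun j => (S j).indicator fun a => ENNReal.ofReal (w a) with hf
  have hf1 : ∀ j, ∑' a, f j a ≠ ⊤ := by
    intro j
    have h1 : ∀ a, f j a ≤ ENNReal.ofReal (((j : ℝ) + 1) ^ 2 * (d a ^ 2 * w a)) := by
      intro a
      rw [hf]
      by_cases ha : a ∈ S j
      · simp only [indicator_of_mem ha]
        apply ENNReal.ofReal_le_ofReal
        have h2 : 1 / ((j : ℝ) + 1) ≤ d a := ha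
        have h3 : (0 : ℝ) < (j : ℝ) + 1 := by positivity
        have h4 : 1 ≤ ((j : ℝ) + 1) * d a := by
          rw [div_le_iff₀ h3] at h2; linarith
        have h5 : 1 ≤ (((j : ℝ) + 1) * d a) ^ 2 := one_le_pow₀ h4
        have h6 := mul_le_mul_of_nonneg_right h5 (hw a)
        nlinarith
      · simp only [indicator_of_notMem ha]
        exact bot_le
    have h2 : Summable fun a => ((j : ℝ) + 1) ^ 2 * (d a ^ 2 * w a) := hs.mul_left _
    exact ne_top_of_le_ne_top h2.tsum_ofReal_ne_top (ENNReal.tsum_le_tsum h1)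
  have hF : ∀ j, ∃ F : Finset α, ∑' a : {a // a ∉ F}, f j a < ε' j := by
    intro j
    have h1 := ENNReal.tendsto_tsum_compl_atTop_zero (hf1 j)
    exact (h1.eventually (gt_mem_nhds (hε' j))).exists
  choose F hF using hF
  refine ⟨⋃ j, {a | a ∈ S j ∧ a ∉ F j}, ?_, ?_⟩
  · refine lt_of_le_of_lt ?_ hsum
    refine (ENNReal.tsum_iUnion_le_tsum (fun a => ENNReal.ofReal (w a)) _).trans ?_
    refine ENNReal.tsum_le_tsum fun j => ?_
    refine le_trans ?_ (hF j).le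
    have h1 : ∑' a : {a | a ∈ S j ∧ a ∉ F j}, ENNReal.ofReal (w a) =
        ∑' a : {a | a ∈ S j ∧ a ∉ F j}, f j a := by
      refine tsum_congr fun a => ?_
      rw [hf]
      simp only [indicator_of_mem a.2.1]
    have h2 : ∑' a : {a | a ∈ S j ∧ a ∉ F j}, ENNReal.ofReal (w a) ≤
        ∑' a : {a | a ∉ F j}, f j a := by
      rw [h1]
      exact ENNReal.tsum_mono_subtype (f j) fun a ha => ha.2
    exact h2
  · intro δ hδ
    obtain ⟨j, hj⟩ := exists_nat_one_div_lt hδ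
    refine (F j).finite_toSet.subset ?_
    rintro a ⟨h1, h2⟩
    by_contra h3
    exact h1 (mem_iUnion.2 ⟨j, hj.le.trans h2, h3⟩)

/-- a countable infinite family of intervals as a sequence -/
lemma to_seq {β : Type} [Countable β] [Infinite β] (a l : β → ℝ) (hl : ∀ b, 0 < l b ∧ l b < 1)
    {ε : ℝ} (hs : ∑' b, ENNReal.ofReal (1 / Real.log (1 / l b)) < ENNReal.ofReal ε) :
    ∃ a' l' : ℕ → ℝ, (∀ i, 0 < l' i ∧ l' i < 1) ∧
      Summable (fun i => 1 / Real.log (1 / l' i)) ∧ ∑' i, 1 / Real.log (1 / l' i) < ε ∧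
      ∀ b, ∃ i, a' i = a b ∧ l' i = l b := by
  obtain ⟨h⟩ := nonempty_denumerable β
  have e : β ≃ ℕ := h.eqv
  have hnn : ∀ b, 0 ≤ 1 / Real.log (1 / l b) := fun b => by
    have h1 : 1 ≤ 1 / l b := by rw [le_div_iff₀ (hl b).1]; linarith [(hl b).2]
    have := Real.log_nonneg h1
    positivity
  have hsum : Summable fun b => 1 / Real.log (1 / l b) := by
    have h1 : Summable fun b => (ENNReal.ofReal (1 / Real.log (1 / l b))).toReal :=
      ENNReal.summable_toReal (ne_top_of_lt hs)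
    refine h1.congr fun b => ?_
    rw [ENNReal.toReal_ofReal (hnn b)]
  have h1 : ∑' b, 1 / Real.log (1 / l b) < ε := by
    rw [← ENNReal.ofReal_tsum_of_nonneg hnn hsum] at hs
    exact (ENNReal.ofReal_lt_ofReal_iff_of_nonneg (tsum_nonneg hnn)).1 hs
  refine ⟨fun i => a (e.symm i), fun i => l (e.symm i), fun i => hl _, ?_, ?_, fun b =>
    ⟨e b, by simp, by simp⟩⟩
  · exact (e.symm.summable_iff (f := fun b => 1 / Real.log (1 / l b))).2 hsum
  · rw [e.symm.tsum_eq (fun b => 1 / Real.log (1 / l b))]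
    exact h1

/-- tiny intervals -/
lemma exists_tiny {ε : ℝ≥0∞} (hε : ε ≠ 0) : ∃ l : ℕ → ℝ, (∀ i, 0 < l i ∧ l i < 1) ∧
    ∑' i, ENNReal.ofReal (1 / Real.log (1 / l i)) < ε := by
  obtain ⟨ε', hε', hsum⟩ := ENNReal.exists_pos_sum_of_countable hε ℕ
  refine ⟨fun i => Real.exp (-(1 / (ε' i : ℝ))), fun i => ⟨Real.exp_pos _, ?_⟩, ?_⟩
  · rw [Real.exp_lt_one_iff]
    have : (0 : ℝ) < ε' i := by exact_mod_cast hε' i
    have := one_div_pos.2 this
    linarith
  · refine lt_of_eq_of_lt (tsum_congr fun i => ?_) hsum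
    have h1 : 1 / Real.log (1 / Real.exp (-(1 / (ε' i : ℝ)))) = ε' i := by
      rw [one_div (Real.exp _), ← Real.exp_neg, Real.log_exp, neg_neg, one_div_one_div]
    show ENNReal.ofReal (1 / Real.log (1 / Real.exp (-(1 / (ε' i : ℝ))))) = _
    rw [h1]
    exact ENNReal.ofReal_coe_nnreal

/-! ### the roots -/

/-- the data of a root with denominator at least `3` -/
structure RD where
  /-- the component -/
  W : WS
  /-- the rotation number -/
  x : ℚ
  ok : W.Ok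
  x0 : 0 < x
  x1 : x < 1
  q3 : 3 ≤ x.den

namespace RD

variable (R : RD)

/-- the data -/
noncomputable def D : Dat := R.W.dat R.x

lemma par : R.D.Par := WS.dat_par R.ok R.x0 R.x1

lemma cir : R.D.Cir := WS.dat_cir R.ok R.x0 R.x1

lemma D_m : R.D.m = R.W.m := WS.dat_m R.ok R.x0 R.x1

lemma D_x : R.D.x = R.x := WS.dat_x R.ok R.x0 R.x1

/-- the weight -/
noncomputable def wt : ℝ := 1 / (R.W.m * (R.x.den : ℝ))

/-- the length of the arc -/
noncomputable def len : ℝ := R.D.tp - R.D.tm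

lemma m_pos : 0 < R.W.m := by rw [← R.D_m]; exact R.par.m_pos

lemma wt_pos : 0 < R.wt := by
  have h1 : (0 : ℝ) < R.W.m := by exact_mod_cast R.m_pos
  have h2 : (0 : ℝ) < R.x.den := by exact_mod_cast R.x.pos
  unfold wt; positivity

lemma len_pos : 0 < R.len := sub_pos.2 R.cir.lt

lemma log_len : Real.log 2 / 3 * (1 / R.wt) ≤ Real.log (1 / R.len) := by
  have h1 := arc_len R.par R.cir
  rw [R.D_m, R.D_x] at h1
  have h2 := R.len_pos
  have h3 : (2 : ℝ) ^ (R.W.m * (R.x.den - 2)) ≤ 1 / R.len := by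
    rw [le_div_iff₀ h2]; exact h1
  have h4 := Real.log_le_log (by positivity) h3
  rw [Real.log_pow] at h4
  refine le_trans ?_ h4
  have h5 : 0 < Real.log 2 := Real.log_pos (by norm_num)
  have h6 : 1 / R.wt = R.W.m * (R.x.den : ℝ) := by rw [wt, one_div_one_div]
  rw [h6]
  have h7 : R.W.m * R.x.den ≤ 3 * (R.W.m * (R.x.den - 2)) := by
    have := R.q3
    calc R.W.m * R.x.den ≤ R.W.m * (3 * (R.x.den - 2)) := Nat.mul_le_mul_left _ (by omega)
      _ = _ := by ring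
  have h8 : (R.W.m : ℝ) * R.x.den ≤ 3 * ((R.W.m * (R.x.den - 2) : ℕ) : ℝ) := by exact_mod_cast h7
  nlinarith

lemma len_lt : R.len < 1 := by
  have h1 := R.log_len
  have h2 := R.wt_pos
  have h3 : 0 < Real.log 2 := Real.log_pos (by norm_num)
  have h4 : 0 < Real.log (1 / R.len) := lt_of_lt_of_le (by positivity) h1
  by_contra hcon
  push Not at hcon
  have h5 : Real.log (1 / R.len) ≤ 0 := Real.log_nonpos (by have := R.len_pos; positivity)
    ((div_le_one R.len_pos).2 hcon)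
  linarith

lemma gauge_le : 1 / Real.log (1 / R.len) ≤ 5 * R.wt := by
  have h1 := R.log_len
  have h2 := R.wt_pos
  have h3 : 0.6931471803 < Real.log 2 := Real.log_two_gt_d9
  have h4 : 0 < Real.log 2 / 3 * (1 / R.wt) := by positivity
  refine (one_div_le_one_div_of_le h4 h1).trans ?_
  rw [one_div, mul_inv, one_div, inv_inv, inv_div]
  refine mul_le_mul_of_nonneg_right ?_ h2.le
  rw [div_le_iff₀ (by linarith)]
  linarith

end RD

/-- the roots with denominators at least `3` -/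
def RT : Set ℂ := range fun R : RD => rt R.D

/-- the data of a root -/
noncomputable def rd (r : RT) : RD := r.2.choose

lemma rt_rd (r : RT) : rt (rd r).D = r := r.2.choose_spec

/-- the diameter of the limb -/
noncomputable def dm (r : RT) : ℝ := diam (Lm (rd r).D)

lemma summable_dm {C : ℝ} (h : C_limbsum C) : Summable fun r : RT => dm r ^ 2 * (rd r).wt := by
  refine summable_of_sum_le (c := C) (fun r => mul_nonneg (sq_nonneg _) (rd r).wt_pos.le) fun F => ?_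
  have h1 := h RT F (fun r => (rd r).W) (fun r => (rd r).x)
    (fun r _ => ⟨(rd r).ok, (rd r).x0, (rd r).x1, (rd r).q3⟩) (fun r _ r' _ hne he => hne ?_)
  · refine le_trans (le_of_eq (Finset.sum_congr rfl fun r _ => ?_)) h1
    rw [dm, RD.wt, mul_one_div]
    rfl
  · have h2 : rt (rd r).D = rt (rd r').D := he
    rw [rt_rd, rt_rd] at h2
    exact Subtype.ext h2

/-- the roots are countable -/
lemma countable_RT : RT.Countable := by
  have h1 : ∀ r : RT, ∃ (N : ℕ) (k : ℤ), (rd r).D.tm = k / (2 ^ N - 1) := by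
    intro r
    obtain ⟨h1, ⟨k, hk⟩, -⟩ := (rd r).cir.per
    refine ⟨(rd r).D.m * (rd r).D.x.den, k, ?_⟩
    have h2 : (1 : ℝ) < 2 ^ ((rd r).D.m * (rd r).D.x.den) :=
      one_lt_pow₀ (by norm_num) (Nat.mul_pos (rd r).par.m_pos h1).ne'
    rw [eq_div_iff (by linarith)]
    linarith
  choose N k hNk using h1
  have h2 : Function.Injective fun r : RT => (N r, k r) := by
    intro r r' h
    have h3 := (Prod.ext_iff.1 h).1
    have h4 := (Prod.ext_iff.1 h).2
    simp only at h3 h4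
    have h5 : (rd r).D.tm = (rd r').D.tm := by rw [hNk, hNk, h3, h4]
    by_contra hne
    have h6 : rt (rd r).D ≠ rt (rd r').D := by
      rw [rt_rd, rt_rd]
      exact fun h => hne (Subtype.ext h)
    have h7 := laminar n2_ray n5_open n5_closed (rd r).par (rd r).cir (rd r').par (rd r').cir h6 0
    have h8 := (rd r).cir.lt
    have h9 := (rd r').cir.lt
    rw [Int.cast_zero, add_zero, add_zero, h5] at h7
    rcases h7 with ⟨h7, -⟩ | ⟨h7, -⟩ | h7 | h7
    · exact lt_irrefl _ h7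
    · exact lt_irrefl _ h7
    · linarith
    · linarith
  exact (Function.Injective.countable h2)

end Pool.Agent.Work.MLC.Cap
end

section
set_option autoImplicit false

/-! # The pieces of type I and II: topology, impressions, and the end of the proof (helper13)

`PK U V two` is the limb of `U` with its root, without the limb of `V` if `two`.
`PKok`: the hypotheses. `PK_compact`, `PK_conn`, `PK_nhds`, `PK_imp`, `PK_diam`, and `fin_pieces`:
pieces with diameters tending to zero at an angle give local connectivity. -/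

namespace Pool.Agent.Work.MLC.Cap

open Filter Topology Metric Set Complex MeasureTheory
open Pool.Agent.Work.MLC.Sat Pool.Agent.Work.MLC.Cnt

/-- nested arcs of two roots give nested limbs -/
lemma nest_of_arc {U V : Dat} (hU : U.Par) (hUC : U.Cir) (hV : V.Par) (hVC : V.Cir)
    (h1 : U.tm < V.tm) (h2 : V.tp < U.tp) : rt V ∈ Lm U := by
  have hlt := hVC.lt
  have hne : rt V ≠ rt U := by
    intro he
    obtain ⟨k, k1, k2⟩ := plateau_unique n2_ray hV hVC hU hUC he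
    linarith
  exact (nest_iff hU hUC hV hVC hne).2 ⟨0, by push_cast; linarith, by push_cast; linarith⟩

/-- the limb of `U` with its root, without the limb of `V` if `two` -/
def PK (U V : Dat) (two : Prop) : Set ℂ :=
  {z | z ∈ MM ∧ (z = rt U ∨ z ∈ Lm U) ∧ (two → z ∉ Lm V)}

/-- the hypotheses -/
structure PKok (U V : Dat) (two : Prop) : Prop where
  par : U.Par
  cir : U.Cir
  par' : two → V.Par
  cir' : two → V.Cir
  nest : two → rt V ∈ Lm U

variable {U V : Dat} {two : Prop}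

open Classical in
/-- the piece as a piece of a finite family -/
lemma PKok.eq_Pc (h : PKok U V two) :
    ∃ (F : Finset (Fin 2)), Fam60 F ![U, V] ∧ IsAdr F ![U, V] {0} ∧
      PK U V two = Pc F ![U, V] {0} ∧ (∀ i ∈ F, i = 0 ∨ two) := by
  by_cases h2 : two
  · refine ⟨Finset.univ, ⟨?_, ?_, ?_⟩, ⟨Finset.subset_univ _, ?_, ?_⟩, ?_, fun i _ => Or.inr h2⟩
    · intro i _
      fin_cases i
      · exact h.par
      · exact h.par' h2
    · intro i _
      fin_cases i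
      · exact h.cir
      · exact h.cir' h2
    · intro i _ j _ hij
      have hne : rt V ≠ rt U := by
        intro he
        have h3 := h.nest h2
        rw [he] at h3
        exact rt_notMem h.par h.cir h3
      fin_cases i <;> fin_cases j
      · rfl
      · exact absurd hij (Ne.symm hne)
      · exact absurd hij hne
      · rfl
    · intro i hi j hj hij
      rw [Finset.mem_singleton] at hi hj
      exact absurd (hi.trans hj.symm) hij
    · intro i hi j _ hij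
      rw [Finset.mem_singleton] at hi
      subst hi
      fin_cases j
      · exact Finset.mem_singleton_self _
      · exact absurd hij (fun h3 => not_both h.par h.cir (h.par' h2) (h.cir' h2) (h.nest h2) h3)
    · ext z
      constructor
      · rintro ⟨hM, hz, hz2⟩
        refine ⟨hM, fun i _ => ?_⟩
        fin_cases i
        · exact ⟨fun _ => hz, fun h3 => absurd (Finset.mem_singleton_self _) h3⟩
        · exact ⟨fun h3 => absurd (Finset.mem_singleton.1 h3) (by decide), fun _ => hz2 h2⟩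
      · rintro ⟨hM, hz⟩
        refine ⟨hM, (hz 0 (Finset.mem_univ _)).1 (Finset.mem_singleton_self _), fun _ => ?_⟩
        exact (hz 1 (Finset.mem_univ _)).2 (by decide)
  · refine ⟨{0}, ⟨?_, ?_, ?_⟩, ⟨subset_rfl, ?_, ?_⟩, ?_, fun i hi => Or.inl (Finset.mem_singleton.1 hi)⟩
    · intro i hi
      rw [Finset.mem_singleton] at hi
      subst hi
      exact h.par
    · intro i hi
      rw [Finset.mem_singleton] at hi
      subst hi
      exact h.cir
    · intro i hi j hj _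
      rw [Finset.mem_singleton] at hi hj
      exact hi.trans hj.symm
    · intro i hi j hj hij
      rw [Finset.mem_singleton] at hi hj
      exact absurd (hi.trans hj.symm) hij
    · intro i hi j hj _
      exact hj
    · ext z
      constructor
      · rintro ⟨hM, hz, -⟩
        refine ⟨hM, fun i hi => ?_⟩
        rw [Finset.mem_singleton] at hi
        subst hi
        exact ⟨fun _ => hz, fun h3 => absurd (Finset.mem_singleton_self _) h3⟩
      · rintro ⟨hM, hz⟩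
        exact ⟨hM, (hz 0 (Finset.mem_singleton_self _)).1 (Finset.mem_singleton_self _),
          fun h3 => absurd h3 h2⟩

theorem PKok.compact (h : PKok U V two) : IsCompact (PK U V two) := by
  obtain ⟨F, h1, -, h3, -⟩ := h.eq_Pc
  rw [h3]
  exact isCompact_Pc h1 _

lemma PKok.rt_mem (h : PKok U V two) : rt U ∈ PK U V two :=
  ⟨rt_mem_MM h.par, Or.inl rfl, fun h2 => not_both h.par h.cir (h.par' h2) (h.cir' h2) (h.nest h2)⟩

theorem PKok.conn (h : PKok U V two) : IsConnected (PK U V two) := by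
  refine ⟨⟨_, h.rt_mem⟩, ?_⟩
  obtain ⟨F, h1, h2, h3, -⟩ := h.eq_Pc
  rw [h3]
  exact isPreconnected_Pc h1 h2

/-- the piece is a neighbourhood of its points which are no roots -/
theorem PKok.nhds (h : PKok U V two) {c : ℂ} (hc : c ∈ PK U V two) (hcU : c ≠ rt U)
    (hcV : two → c ≠ rt V) : PK U V two ∈ 𝓝[MM] c := by
  obtain ⟨F, h1, -, h3, h4⟩ := h.eq_Pc
  rw [h3] at hc ⊢
  have h5 := Pc_open h1 hc fun i hi => by
    rcases h4 i hi with h6 | h6
    · subst h6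
      exact hcU
    · fin_cases i
      · exact hcU
      · exact hcV h6
  rw [mem_nhdsWithin_iff_eventually]
  filter_upwards [h5] with w hw hwM
  exact hw hwM

/-- the impression of an angle of the piece is in the piece -/
theorem PKok.imp (h : PKok U V two) {θ : ℝ} (hθ : InA U θ)
    (hθ' : two → ∀ k : ℤ, ¬ (V.tm ≤ θ + k ∧ θ + k ≤ V.tp)) {c : ℂ} (hc : c ∈ MM)
    (hcl : (c, θ) ∈ closure {p : ℂ × ℝ | Ang p.1 p.2}) : c ∈ PK U V two := by
  refine ⟨hc, ?_, fun h2 hL => ?_⟩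
  · obtain ⟨k, h1, h2⟩ := hθ
    have h3 : c ∈ closure (Lm U ∪ {c' | ∃ θ, Ang c' θ ∧ U.tm ≤ θ ∧ θ ≤ U.tp}) := by
      rw [mem_closure_iff_frequently]
      have h4 : Tendsto (fun p : ℂ × ℝ => p.2 + k) (𝓝 (c, θ)) (𝓝 (θ + k)) :=
        Continuous.tendsto (by fun_prop) (c, θ)
      have h5 := ((mem_closure_iff_frequently.1 hcl).and_eventually
        ((h4.eventually (lt_mem_nhds h1)).and (h4.eventually (gt_mem_nhds h2))))
      have h6 := (continuous_fst.tendsto (c, θ)).frequently (p := fun c' =>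
        c' ∈ Lm U ∪ {c' | ∃ θ, Ang c' θ ∧ U.tm ≤ θ ∧ θ ≤ U.tp}) (h5.mono fun p hp =>
          Or.inr ⟨p.2 + k, Ang.add_int hp.1 k, hp.2.1.le, hp.2.2.le⟩)
      exact h6
    rcases n5_closed U h.par h.cir c hc h3 with h4 | h4
    · exact Or.inr h4
    · exact Or.inl h4
  · obtain ⟨k, h1, h3⟩ := imp_mem (h.par' h2) (h.cir' h2) hL hcl
    exact hθ' h2 k ⟨h1, h3⟩

/-- the pieces which contain a given root are not small -/
theorem PK_diam {D : Dat} (hP : D.Par) (hC : D.Cir) : ∃ η > 0, ∀ (U V : Dat) (two : Prop),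
    PKok U V two → rt D ∈ PK U V two → η ≤ diam (PK U V two) := by
  obtain ⟨η, hη, h⟩ := piece_diam15 hP hC
  refine ⟨η, hη, fun U V two hok hr => ?_⟩
  obtain ⟨F, h1, h2, h3, -⟩ := hok.eq_Pc
  rw [h3] at hr ⊢
  exact h _ F _ h1 _ hr

/-- **the end of the proof**: pieces at the angle `θ` with diameters tending to zero -/
theorem fin_pieces {θ : ℝ} (U V : ℕ → Dat) (two : ℕ → Prop) (hok : ∀ n, PKok (U n) (V n) (two n))
    (hθ : ∀ n, InA (U n) θ) (hθ' : ∀ n, two n → ∀ k : ℤ, ¬ ((V n).tm ≤ θ + k ∧ θ + k ≤ (V n).tp))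
    (hd : ∀ ε : ℝ, 0 < ε → ∃ n, diam (PK (U n) (V n) (two n)) < ε) :
    ∃ c₀ ∈ MM,
      Tendsto Psi (𝓝[{z | 1 < ‖z‖}] (Complex.exp (2 * Real.pi * θ * Complex.I))) (𝓝 c₀) ∧
      LCat MM c₀ := by
  set K : ℕ → Set ℂ := fun n => PK (U n) (V n) (two n) with hK
  have hKb : ∀ j, Bornology.IsBounded (K j) := fun j => (hok j).compact.isBounded
  have himp : ∀ c ∈ MM, (c, θ) ∈ closure {p : ℂ × ℝ | Ang p.1 p.2} → ∀ j, c ∈ K j :=
    fun c hc hcl j => (hok j).imp (hθ j) (hθ' j) hc hcl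
  have huniq : ∀ c c' : ℂ, (∀ j, c ∈ K j) → (∀ j, c' ∈ K j) → c = c' := by
    intro c c' h h'
    by_contra hne
    have hdd : 0 < dist c c' := dist_pos.2 hne
    obtain ⟨j, hj⟩ := hd _ hdd
    have h1 := dist_le_diam_of_mem (hKb j) (h j) (h' j)
    linarith
  have hseq : ∀ (g t : ℕ → ℝ) (c : ℂ), (∀ n, 0 < g n) → Tendsto g atTop (𝓝 0) →
      Tendsto t atTop (𝓝 θ) →
      Tendsto (fun n => cOf ((g n : ℂ) + 2 * Real.pi * t n * Complex.I)) atTop (𝓝 c) →
      ∀ j, c ∈ K j := by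
    intro g t c hg hg0 ht hc
    refine himp c ?_ ?_
    · refine mem_MM_of_tendsto (u := fun n => (g n : ℂ) + 2 * Real.pi * t n * Complex.I)
        (fun n => ?_) ?_ hc
      · have := CH.re_pt (g n) (t n)
        rw [this]; exact hg n
      · refine hg0.congr fun n => ?_
        exact (CH.re_pt (g n) (t n)).symm
    · have h1 : Tendsto (fun n => (cOf ((g n : ℂ) + 2 * Real.pi * t n * Complex.I), t n)) atTop
          (𝓝 (c, θ)) := hc.prodMk_nhds ht
      refine mem_closure_of_tendsto h1 (Eventually.of_forall fun n => ?_)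
      exact (ang_cOf (hg n)).1
  -- a limit point
  obtain ⟨c₀, φ, hφ, hc₀⟩ := exists_limit_cOf
    (u := fun n => ((1 / ((n : ℝ) + 1) : ℝ) : ℂ) + 2 * Real.pi * θ * Complex.I)
    (fun n => by rw [CH.re_pt]; positivity)
    (fun n => by
      rw [CH.re_pt, div_le_one (by positivity)]
      linarith [(Nat.cast_nonneg n : (0 : ℝ) ≤ n)])
  have hc₀K : ∀ j, c₀ ∈ K j := by
    refine hseq (fun n => 1 / ((φ n : ℝ) + 1)) (fun _ => θ) c₀ (fun n => by positivity) ?_
      tendsto_const_nhds hc₀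
    exact tendsto_one_div_add_atTop_nhds_zero_nat.comp hφ.tendsto_atTop
  have hc₀M : c₀ ∈ MM := (hc₀K 0).1
  refine ⟨c₀, hc₀M, ?_, ?_⟩
  · refine tendsto_Psi_of_unique fun g t c hg hg0 ht hc => ?_
    exact huniq c c₀ (hseq g t c hg hg0 ht hc) hc₀K
  · -- `c₀` is no root
    have hnr : ∀ D : Dat, D.Par → D.Cir → c₀ ≠ rt D := by
      intro D hP hC hi
      obtain ⟨η, hη, hbig⟩ := PK_diam hP hC
      obtain ⟨j, hj⟩ := hd η hη
      have h1 := hbig _ _ _ (hok j) (by rw [← hi]; exact hc₀K j)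
      linarith
    intro W hW
    obtain ⟨ε, hε, hεW⟩ := Metric.mem_nhds_iff.1 hW
    obtain ⟨j, hj⟩ := hd ε hε
    refine ⟨K j, fun z hz => ⟨hz.1, hεW ?_⟩, (hok j).compact, (hok j).conn,
      (hok j).nhds (hc₀K j) (hnr _ (hok j).par (hok j).cir)
        fun h2 => hnr _ ((hok j).par' h2) ((hok j).cir' h2)⟩
    have h1 := dist_le_diam_of_mem (hKb j) hz (hc₀K j)
    rw [mem_ball]
    exact h1.trans_lt hj

end Pool.Agent.Work.MLC.Cap
end

section
set_option autoImplicit false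

/-! # Random towers of satellites: the child component and its root (helper6) -/

namespace Pool.Agent.Work.MLC.Tw

open Filter Topology Metric Set Complex
open Pool.Agent.Work.MLC.Sat Pool.Agent.Work.MLC.Cnt Pool.Agent.Work.MLC.Cap

/-- `W'` is the component attached to `W` at the root `x` -/
structure Ch (W : WS) (x : ℚ) (W' : WS) : Prop where
  ok : W'.Ok
  m : W'.m = W.m * x.den
  n : W'.m = (W.dat x).n
  w : W'.w = (W.dat x).u
  k : W'.k = (W.dat x).k
  arc : ∀ y : ℚ, 0 < y → y < 1 → (W.dat x).tm < (W'.dat y).tm ∧ (W'.dat y).tp < (W.dat x).tp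

theorem exists_ch {W : WS} (hW : W.Ok) {x : ℚ} (h0 : 0 < x) (h1 : x < 1) : ∃ W', Ch W x W' := by
  set D := W.dat x with hD
  have hP : D.Par := WS.dat_par hW h0 h1
  have hC : D.Cir := WS.dat_cir hW h0 h1
  have hn : 0 < D.n := Par_n_pos hP
  have hword : Word D.n D.u := ⟨hC.ubits.bit, hC.ubits.per, hC.uprim⟩
  obtain ⟨σ, hV, hex⟩ := Pri.exists_wide_word hn hword D.k
  set W' : WS := ⟨D.n, D.u, D.k, σ⟩ with hW'
  have hok : W'.Ok := ⟨hV, hex⟩
  have hnear : ∀ θ, Circ.nu D.w D.m θ = D.k₀ + D.x → D.Near θ := by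
    intro θ h
    have hn0 : (0 : ℝ) < D.n := by exact_mod_cast hn
    have hq0 : (0 : ℝ) < D.x.den := by exact_mod_cast D.x.pos
    unfold Dat.Near
    rw [h, sub_self, abs_zero]
    positivity
  have hum : Circ.nu D.u D.n D.tm = D.k :=
    hC.nu_left _ (hnear _ ((hC.plateau D.tm).2 ⟨le_rfl, hC.lt.le⟩)) le_rfl
  have hup : Circ.nu D.u D.n D.tp = D.k + 1 :=
    hC.nu_right _ (hnear _ ((hC.plateau D.tp).2 ⟨hC.lt.le, le_rfl⟩)) le_rfl
  have hin : ∀ θ, (D.k : ℝ) < Circ.nu D.u D.n θ → Circ.nu D.u D.n θ < D.k + 1 →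
      D.tm < θ ∧ θ < D.tp := by
    intro θ h2 h3
    constructor
    · by_contra hcon
      push Not at hcon
      have := Circ.nu_mono D.u D.n hcon
      linarith
    · by_contra hcon
      push Not at hcon
      have := Circ.nu_mono D.u D.n hcon
      linarith
  have hnu' : ∀ θ, W'.nu θ = Circ.nu D.u D.n θ - D.k := fun θ => rfl
  refine ⟨W', hok, ?_, rfl, rfl, rfl, ?_⟩
  · show D.m * D.x.den = W.m * x.den
    rw [hD, WS.dat_m hW h0 h1, WS.dat_x hW h0 h1]
  · intro y hy0 hy1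
    have hy0' : (0 : ℝ) < y := by exact_mod_cast hy0
    have hy1' : (y : ℝ) < 1 := by exact_mod_cast hy1
    have hlt := (WS.dat_cir hok hy0 hy1).lt
    have a1 := (WS.plateau hok hy0 hy1 (W'.dat y).tm).2 ⟨le_rfl, hlt.le⟩
    have a2 := (WS.plateau hok hy0 hy1 (W'.dat y).tp).2 ⟨hlt.le, le_rfl⟩
    rw [hnu'] at a1 a2
    exact ⟨(hin _ (by linarith) (by linarith)).1, (hin _ (by linarith) (by linarith)).2⟩

lemma e_le_map {D : Dat} {Z : ℂ → Set ℂ} {e : ℂ → ℂ} (hCh : Child D Z e) {ℓ : ℂ}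
    (hℓ : ℓ ∈ ball (0 : ℂ) (cR D.n)) : 𝓝 (e ℓ) ≤ map e (𝓝 ℓ) := by
  have h1 : AnalyticAt ℂ e ℓ := hCh.diff.analyticAt (isOpen_ball.mem_nhds hℓ)
  rcases h1.eventually_constant_or_nhds_le_map_nhds with h2 | h2
  · exfalso
    obtain ⟨ℓ', ⟨h3, h4⟩, h5⟩ := (((h2.and (isOpen_ball.mem_nhds hℓ)).filter_mono
      (nhdsWithin_le_nhds (s := {ℓ}ᶜ))).and self_mem_nhdsWithin).exists
    exact h5 (hCh.inj h4 hℓ h3)
  · exact h2

/-- the inequality for integer rotation fails in the wide domain -/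
lemma no_int {n : ℕ} (hn : 0 < n) {L ℓ' : ℂ} (hL : L ∈ Pri.D0 n) {j : ℤ} (h2 : exp ℓ' = exp L)
    (h : ‖ℓ' - 2 * Real.pi * ((j : ℝ) : ℂ) * I‖ ^ 2 ≤ 81 * n * ℓ'.re) : False := by
  rw [Complex.exp_eq_exp_iff_exists_int] at h2
  obtain ⟨i, hi⟩ := h2
  obtain ⟨h0, h1, h4⟩ := hL
  have hn' : (0 : ℝ) < n := by exact_mod_cast hn
  have hpi := Real.pi_pos
  have hre : ℓ'.re = L.re := by rw [hi]; simp
  have hμ : 0 < min L.im (2 * Real.pi - L.im) := lt_min h0 (by linarith)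
  have hμ1 : min L.im (2 * Real.pi - L.im) ≤ L.im := min_le_left _ _
  have hμ2 : min L.im (2 * Real.pi - L.im) ≤ 2 * Real.pi - L.im := min_le_right _ _
  unfold Pri.hgt at h4
  set μ := min L.im (2 * Real.pi - L.im)
  rw [lt_div_iff₀ (by positivity)] at h4
  rw [hre] at h
  have h5 : ‖ℓ' - 2 * Real.pi * ((j : ℝ) : ℂ) * I‖ ^ 2 < μ ^ 2 := by nlinarith [pow_pos hμ 2]
  have h6 : ‖ℓ' - 2 * Real.pi * ((j : ℝ) : ℂ) * I‖ < μ := lt_of_pow_lt_pow_left₀ 2 hμ.le h5
  have h7 := (abs_im_le_norm (ℓ' - 2 * Real.pi * ((j : ℝ) : ℂ) * I)).trans_lt h6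
  have h8 : (ℓ' - 2 * Real.pi * ((j : ℝ) : ℂ) * I).im = L.im - 2 * Real.pi * ((j - i : ℤ) : ℝ) := by
    rw [hi]
    simp
    ring
  rw [h8] at h7
  rcases lt_or_ge 0 (j - i) with h9 | h9
  · have h10 : (1 : ℝ) ≤ ((j - i : ℤ) : ℝ) := by exact_mod_cast h9
    have := (abs_lt.1 h7).1
    nlinarith
  · have h10 : ((j - i : ℤ) : ℝ) ≤ 0 := by exact_mod_cast h9
    have := (abs_lt.1 h7).2
    nlinarith

/-- near the root the child is given by the coordinate of Theorem S -/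
theorem ch_axis {W : WS} (hW : W.Ok) {x : ℚ} (h0 : 0 < x) (h1 : x < 1) {W' : WS} (h : Ch W x W')
    {Z : ℂ → Set ℂ} {e : ℂ → ℂ} (hR : Regions (W.dat x)) (hG : Glued (W.dat x) Z)
    (hCh : Child (W.dat x) Z e) {y : ℝ} (hy0 : 0 < y) (hy : 2 * Real.pi * y < cR (W.dat x).n)
    (hy1 : y < 1) :
    W'.c (2 * Real.pi * y * I) = (W.dat x).c (e (2 * Real.pi * y * I)) := by
  have hP : (W.dat x).Par := WS.dat_par hW h0 h1
  have hC : (W.dat x).Cir := WS.dat_cir hW h0 h1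
  set D := W.dat x with hD
  have hn : 0 < D.n := Par_n_pos hP
  have hn0 : (0 : ℝ) < D.n := by exact_mod_cast hn
  have hpi := Real.pi_pos
  set ℓ : ℂ := 2 * Real.pi * y * I with hℓ
  have hre : ℓ.re = 0 := by simp [hℓ]
  have him : ℓ.im = 2 * Real.pi * y := by simp [hℓ]
  have hnorm : ‖ℓ‖ = 2 * Real.pi * y := by
    rw [hℓ, norm_mul, Complex.norm_I, mul_one, norm_mul, norm_mul]
    simp [abs_of_pos hpi, abs_of_pos hy0]
  have hℓb : ℓ ∈ ball (0 : ℂ) (cR D.n) := by rw [mem_ball_zero_iff, hnorm]; exact hy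
  have hℓ0 : ℓ ≠ 0 := by
    rintro h2; rw [h2, norm_zero] at hnorm
    have : 0 < 2 * Real.pi * y := by positivity
    linarith
  have hU := e_mem_U hP hCh hℓb hℓ0
  obtain ⟨z, hz⟩ := hG.fam.ne _ hU
  have hper := (hG.fam.fix _ hU z hz).1
  have hmul : mul D.n (D.c (e ℓ), z) = exp ℓ := hCh.mul_eq ℓ hℓb hℓ0 z hz
  obtain ⟨-, -, hfr⟩ := s3_neutral D.n (D.c (e ℓ), z) y hn hper hy0 hy1 hmul
  have hV := h.ok.wide
  rw [h.n, h.w, h.k] at hV
  have hD0 : ℓ ∈ Pri.D0 D.n := T60.axis_mem_D0 hn hy0 hy1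
  -- exterior parameters near `ℓ`
  have hfr2 : ∃ᶠ L in 𝓝 ℓ, D.c (e L) ∉ MM := by
    have h2 : 𝓝 (D.c (e ℓ)) ≤ map (fun L => D.c (e L)) (𝓝 ℓ) := by
      rw [← c_map_nhds hP (U_sub_B hP hU)]
      exact map_mono (e_le_map hCh hℓb)
    exact hfr.filter_mono h2
  have hfr3 : ∃ᶠ L in 𝓝 ℓ, W'.c L = D.c (e L) := by
    have e1 : ∀ᶠ L in 𝓝 ℓ, L ∈ ball (0 : ℂ) (cR D.n) := isOpen_ball.mem_nhds hℓb
    have e2 : ∀ᶠ L in 𝓝 ℓ, L ∈ Pri.D0 D.n := (Pri.isOpen_D0 D.n).mem_nhds hD0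
    have e3 : ∀ᶠ L in 𝓝 ℓ, L ≠ 0 := isOpen_ne.mem_nhds hℓ0
    refine (hfr2.and_eventually (e1.and (e2.and e3))).mono ?_
    rintro L ⟨hL1, hLb, hLD, hL0⟩
    have hLU := e_mem_U hP hCh hLb hL0
    obtain ⟨z', hz'⟩ := hG.fam.ne _ hLU
    rw [hG.ext _ ⟨hLU, hL1⟩] at hz'
    obtain ⟨θ, hTh, z₀, hE, i, hi⟩ := hz'
    have hz₀ : z₀ ∈ Z (e L) := by
      rw [hG.ext _ ⟨hLU, hL1⟩]
      exact ⟨θ, hTh, z₀, hE, 0, rfl⟩
    have hper₀ := (hG.fam.fix _ hLU z₀ hz₀).1
    have hmul₀ : mul D.n (D.c (e L), z₀) = exp L := hCh.mul_eq L hLb hL0 z₀ hz₀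
    have hLre : 0 < L.re := by
      have h3 : 1 < ‖mult D.n (D.c (e L)) z₀‖ :=
        one_lt_norm_mult_of_ext hn (not_mem_MM_iff.1 hL1) hper₀
      have h4 : mult D.n (D.c (e L)) z₀ = exp L := hmul₀
      rw [h4, Complex.norm_exp] at h3
      exact Real.one_lt_exp_iff.1 h3
    -- the rotation number
    have hnear := hR.near _ hLU θ hTh
    have hν0 : (D.k : ℝ) ≤ Circ.nu D.u D.n θ ∧ Circ.nu D.u D.n θ ≤ D.k + 1 := by
      rcases le_or_gt θ D.tm with h3 | h3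
      · rw [hC.nu_left θ hnear h3]; constructor <;> linarith
      rcases le_or_gt D.tp θ with h4 | h4
      · rw [hC.nu_right θ hnear h4]; constructor <;> linarith
      · exact ⟨(hC.nu_in θ h3 h4).1.le, (hC.nu_in θ h3 h4).2.le⟩
    have hlt : ‖mul D.n (D.c (e L), z₀)‖ < 23 / 10 := by rw [hmul₀]; exact Pri.lt_D0 hn hLD
    have hG4 : G (D.c (e L)) (D.c (e L)) ≤ 4 := G_le_four_of_mul_lt hn hE.2.2.1 hlt
    obtain ⟨-, ℓ', hℓ', hply⟩ := extP_ply hn hE hG4
    have hnint : ∀ j : ℤ, Circ.nu D.u D.n θ ≠ j := by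
      intro j hj
      rw [hj] at hply
      exact no_int hn hLD (ℓ' := ℓ') (j := j) (by rw [hℓ', ← hmul₀]; rfl) hply
    have hk1 : (D.k : ℝ) < Circ.nu D.u D.n θ := lt_of_le_of_ne hν0.1 (hnint D.k).symm
    have hk2 : Circ.nu D.u D.n θ < D.k + 1 := by
      refine lt_of_le_of_ne hν0.2 ?_
      have := hnint (D.k + 1)
      push_cast at this
      exact this
    have hσ : (D.c (e L), z₀) = W'.σ L := by
      refine hV.uniq L hLD hLre _ hper₀ hmul₀ ?_
      rw [((hV.lab L hLD hLre).2 θ hk1 hk2)]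
      exact FF_ext (x := (D.c (e L), z₀)) hE
    show (W'.σ L).1 = _
    rw [← hσ]
  have hc1 : ContinuousAt W'.c ℓ :=
    continuous_fst.continuousAt.comp (hV.cont.continuousAt ((Pri.isOpen_D0 _).mem_nhds hD0))
  have hc2 : ContinuousAt (fun L => D.c (e L)) ℓ :=
    ContinuousAt.comp (g := D.c) (c_contAt hP (U_sub_B hP hU)) (e_contAt hCh hℓb)
  by_contra hne
  obtain ⟨A, B, hA, hB, hyA, hB', hAB⟩ := t2_separation hne
  obtain ⟨L, h3, h4, h5⟩ := (hfr3.and_eventually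
    ((hc1.eventually (hA.mem_nhds hyA)).and (hc2.eventually (hB.mem_nhds hB')))).exists
  rw [h3] at h4
  exact Set.disjoint_left.1 hAB h4 h5

/-- the left half of the wide domain -/
def LH : Set ℂ := {L | 0 < L.im ∧ L.im < 2 * Real.pi ∧ L.re < 0}

lemma LH_convex : Convex ℝ LH :=
  (convex_halfSpace_im_gt 0).inter ((convex_halfSpace_im_lt (2 * Real.pi)).inter
    (convex_halfSpace_re_lt 0))

lemma LH_sub {n : ℕ} (hn : 0 < n) : LH ⊆ Pri.D0 n := by
  rintro L ⟨h0, h1, h2⟩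
  refine ⟨h0, h1, h2.trans_le ?_⟩
  unfold Pri.hgt
  positivity

lemma ok_pos {W : WS} (hW : W.Ok) : 0 < W.m := hW.wide.pos

lemma ok_contAt {W : WS} (hW : W.Ok) {L : ℂ} (hL : L ∈ Pri.D0 W.m) : ContinuousAt W.c L :=
  continuous_fst.continuousAt.comp (hW.wide.cont.continuousAt ((Pri.isOpen_D0 _).mem_nhds hL))

/-- the hyperbolic component -/
def Hy (W : WS) : Set ℂ := connectedComponentIn (Hyp.AA W.m) (W.c (-1 + Real.pi * I))

lemma base_mem : (-1 + Real.pi * I : ℂ) ∈ LH := by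
  have := Real.pi_pos
  refine ⟨?_, ?_, ?_⟩ <;> simp <;> linarith

lemma left_AA {W : WS} (hW : W.Ok) {L : ℂ} (hL : L ∈ LH) : W.c L ∈ Hyp.AA W.m := by
  have h1 := hW.wide.sec L (LH_sub (ok_pos hW) hL)
  refine ⟨(W.σ L).2, (Hyp.mem_Att_iff (ok_pos hW)).1 ⟨h1.1, hW.ex L (LH_sub (ok_pos hW) hL), ?_⟩⟩
  show ‖mul W.m (W.σ L)‖ < 1
  rw [h1.2, Complex.norm_exp]
  exact Real.exp_lt_one_iff.2 hL.2.2

lemma left_Hy {W : WS} (hW : W.Ok) : W.c '' LH ⊆ Hy W := by
  refine (LH_convex.isPreconnected.image _ fun L hL =>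
    (ok_contAt hW (LH_sub (ok_pos hW) hL)).continuousWithinAt).subset_connectedComponentIn
    ⟨_, base_mem, rfl⟩ ?_
  rintro _ ⟨L, hL, rfl⟩
  exact left_AA hW hL

/-- the axis is in the closure of the component -/
lemma axis_closure {W : WS} (hW : W.Ok) {y : ℝ} (hy0 : 0 < y) (hy1 : y < 1) :
    W.c (2 * Real.pi * y * I) ∈ closure (Hy W) := by
  have hpi := Real.pi_pos
  have h1 : Tendsto (fun t : ℝ => (2 * Real.pi * y * I - t : ℂ)) (𝓝[>] 0)
      (𝓝 (2 * Real.pi * y * I)) := by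
    have : Tendsto (fun t : ℝ => (2 * Real.pi * y * I - t : ℂ)) (𝓝 0)
        (𝓝 (2 * Real.pi * y * I - ((0 : ℝ) : ℂ))) := Continuous.tendsto (by fun_prop) 0
    rw [Complex.ofReal_zero, sub_zero] at this
    exact this.mono_left nhdsWithin_le_nhds
  have h2 := (ok_contAt hW (T60.axis_mem_D0 (ok_pos hW) hy0 hy1)).tendsto.comp h1
  refine mem_closure_of_tendsto h2 ?_
  filter_upwards [self_mem_nhdsWithin] with t ht
  have ht' : (0 : ℝ) < t := ht
  refine left_Hy hW ⟨_, ⟨?_, ?_, ?_⟩, rfl⟩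
  · simp; positivity
  · simp; nlinarith
  · simp; exact ht'

/-- **the root is in the closure of the child component** -/
theorem ch_closure {W : WS} (hW : W.Ok) {x : ℚ} (h0 : 0 < x) (h1 : x < 1) {W' : WS}
    (h : Ch W x W') : rt (W.dat x) ∈ closure (Hy W') := by
  have hP : (W.dat x).Par := WS.dat_par hW h0 h1
  have hC : (W.dat x).Cir := WS.dat_cir hW h0 h1
  have hR := regions_all _ hP hC
  obtain ⟨Z, hG⟩ := glue_all _ hP hC hR
  obtain ⟨e, hCh⟩ := child_all _ Z hP hC hR hG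
  have hn : 0 < (W.dat x).n := Par_n_pos hP
  have hcR := cR_pos hn
  have hpi := Real.pi_pos
  have hz : (0 : ℂ) ∈ ball (0 : ℂ) (cR (W.dat x).n) := mem_ball_self hcR
  have h2 : Tendsto (fun y : ℝ => (2 * Real.pi * y * I : ℂ)) (𝓝[>] 0) (𝓝 0) := by
    have : Tendsto (fun y : ℝ => (2 * Real.pi * y * I : ℂ)) (𝓝 0)
        (𝓝 (2 * Real.pi * ((0 : ℝ) : ℂ) * I)) := Continuous.tendsto (by fun_prop) 0
    rw [Complex.ofReal_zero, mul_zero, zero_mul] at this
    exact this.mono_left nhdsWithin_le_nhds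
  have h3 : Tendsto e (𝓝 0) (𝓝 (W.dat x).a) := by
    have := (e_contAt hCh hz).tendsto
    rwa [hCh.zero] at this
  have h4 : Tendsto (fun y : ℝ => (W.dat x).c (e (2 * Real.pi * y * I))) (𝓝[>] 0)
      (𝓝 (rt (W.dat x))) := (c_contAt hP (a_mem_B hP)).tendsto.comp (h3.comp h2)
  refine closure_minimal (le_refl _) isClosed_closure (mem_closure_of_tendsto h4 ?_)
  have h5 : ∀ᶠ y : ℝ in 𝓝[>] 0, 2 * Real.pi * y < cR (W.dat x).n ∧ y < 1 := by
    have h6 : ∀ᶠ y : ℝ in 𝓝 0, y < min (cR (W.dat x).n / (2 * Real.pi)) 1 :=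
      gt_mem_nhds (lt_min (by positivity) one_pos)
    filter_upwards [h6.filter_mono nhdsWithin_le_nhds] with y hy
    refine ⟨?_, hy.trans_le (min_le_right _ _)⟩
    have := hy.trans_le (min_le_left _ _)
    rw [lt_div_iff₀ (by positivity)] at this
    linarith
  filter_upwards [h5, self_mem_nhdsWithin] with y hy hy0
  rw [← ch_axis hW h0 h1 h hR hG hCh hy0 hy.1 hy.2]
  exact axis_closure h.ok hy0 hy.2

end Pool.Agent.Work.MLC.Tw
end

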