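import Pool.Agent.Work.MLCM.C65
import Pool.Agent.Work.MLCM.C69

section
set_option autoImplicit false

/-! # Theorem Cap, the multiplicity lemma (helper26) -/

namespace Pool.Agent.Work.MLC.Cap

open Filter Topology Metric Set Complex MeasureTheory
open Pool.Agent.Work.MLC.Sat Pool.Agent.Work.MLC.Cnt
open scoped ENNReal

lemma two_thirds_pow : ((2 : ℝ) / 3) ^ ((1 : ℝ) / 8) ≤ 20 / 21 := by
  have h1 : ((2 : ℝ) / 3) ≤ (20 / 21) ^ (8 : ℕ) := by norm_num
  have h2 := Real.rpow_le_rpow (by norm_num) h1 (show (0 : ℝ) ≤ 1 / 8 by norm_num)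
  refine h2.trans ?_
  rw [← Real.rpow_natCast, ← Real.rpow_mul (by norm_num)]
  norm_num

/-- geometric sum over a set in which blocks have bounded cardinality -/
lemma block_sum {ι : Type*} [DecidableEq ι] (Λ : ι → ℝ) (C₀ : ℝ) (hC : 0 ≤ C₀) (N : ℕ) :
    ∀ S : Finset ι, S.card ≤ N → (∀ i ∈ S, 0 < Λ i) →
    (∀ T ⊆ S, (∀ i ∈ T, ∀ j ∈ T, Λ i ≤ 3 / 2 * Λ j) → (T.card : ℝ) ≤ C₀) →
    ∀ X : ℝ, (∀ i ∈ S, Λ i ≤ X) → ∑ i ∈ S, (Λ i / X) ^ ((1 : ℝ) / 8) ≤ 21 * C₀ := by
  induction N with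
  | zero =>
    intro S hS _ _ X _
    have : S = ∅ := Finset.card_eq_zero.1 (by omega)
    rw [this, Finset.sum_empty]
    positivity
  | succ N ih =>
    intro S hS hpos hb X hX
    rcases S.eq_empty_or_nonempty with rfl | hne
    · rw [Finset.sum_empty]; positivity
    obtain ⟨i₀, hi₀, hmax⟩ := S.exists_max_image Λ hne
    have hM : 0 < Λ i₀ := hpos i₀ hi₀
    have hX0 : 0 < X := hM.trans_le (hX i₀ hi₀)
    rw [← Finset.sum_filter_add_sum_filter_not S (fun i => 2 / 3 * Λ i₀ < Λ i)]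
    have h1 : ∑ i ∈ S.filter (fun i => 2 / 3 * Λ i₀ < Λ i), (Λ i / X) ^ ((1 : ℝ) / 8) ≤ C₀ := by
      refine le_trans ?_ (hb (S.filter (fun i => 2 / 3 * Λ i₀ < Λ i)) (Finset.filter_subset _ _) ?_)
      · rw [Finset.card_eq_sum_ones, Nat.cast_sum]
        refine Finset.sum_le_sum fun i hi => ?_
        have hiS := (Finset.mem_filter.1 hi).1
        rw [Nat.cast_one]
        refine Real.rpow_le_one (div_nonneg (hpos i hiS).le hX0.le) ?_ (by norm_num)
        rw [div_le_one hX0]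
        exact hX i hiS
      · intro i hi j hj
        have h2 := hmax i (Finset.mem_filter.1 hi).1
        have h3 := (Finset.mem_filter.1 hj).2
        linarith
    have h2 : ∑ i ∈ S.filter (fun i => ¬ 2 / 3 * Λ i₀ < Λ i), (Λ i / X) ^ ((1 : ℝ) / 8) ≤
        20 / 21 * (21 * C₀) := by
      have h3 := ih (S.filter (fun i => ¬ 2 / 3 * Λ i₀ < Λ i)) ?_
        (fun i hi => hpos i (Finset.mem_filter.1 hi).1)
        (fun T hT => hb T (hT.trans (Finset.filter_subset _ _))) (2 / 3 * Λ i₀)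
        (fun i hi => not_lt.1 (Finset.mem_filter.1 hi).2)
      · refine le_trans ?_ (mul_le_mul_of_nonneg_left h3 (by norm_num))
        rw [Finset.mul_sum]
        refine Finset.sum_le_sum fun i hi => ?_
        have hiS := (Finset.mem_filter.1 hi).1
        have e : Λ i / X = (2 / 3 * Λ i₀ / X) * (Λ i / (2 / 3 * Λ i₀)) := by
          field_simp
        rw [e, Real.mul_rpow (by positivity) (div_nonneg (hpos i hiS).le (by positivity))]
        refine mul_le_mul_of_nonneg_right ?_ (Real.rpow_nonneg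
          (div_nonneg (hpos i hiS).le (by positivity)) _)
        refine le_trans (Real.rpow_le_rpow (by positivity) ?_ (by norm_num)) two_thirds_pow
        rw [div_le_iff₀ hX0]
        have := hX i₀ hi₀
        nlinarith
      · have h4 : (S.filter (fun i => ¬ 2 / 3 * Λ i₀ < Λ i)).card < S.card := by
          refine Finset.card_lt_card ?_
          refine Finset.filter_ssubset.2 ⟨i₀, hi₀, ?_⟩
          push Not
          linarith
        omega
    linarith

/-- separated points in an interval -/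
lemma sep_card {ι : Type*} (T : Finset ι) (e : ι → ℝ) (A L d : ℝ) (hd : 0 < d)
    (hA : ∀ i ∈ T, A ≤ e i ∧ e i ≤ A + L)
    (hs : ∀ i ∈ T, ∀ j ∈ T, i ≠ j → d ≤ |e i - e j|) (hL : 0 ≤ L) : (T.card : ℝ) ≤ L / d + 1 := by
  have h1 : T.card ≤ (Finset.range (⌊L / d⌋₊ + 1)).card := by
    refine Finset.card_le_card_of_injOn (fun i => ⌊(e i - A) / d⌋₊) ?_ ?_
    · intro i hi
      obtain ⟨h1, h2⟩ := hA i hi
      have h3 : (e i - A) / d ≤ L / d := by gcongr; linarith
      have h4 := Nat.floor_le_floor h3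
      simp only [Finset.coe_range, mem_Iio]
      omega
    · intro i hi j hj hij
      by_contra hne
      have h3 := hs i hi j hj hne
      obtain ⟨h1, -⟩ := hA i hi
      obtain ⟨h2, -⟩ := hA j hj
      have h4 := Nat.floor_le (show 0 ≤ (e i - A) / d from div_nonneg (by linarith) hd.le)
      have h5 := Nat.lt_floor_add_one ((e i - A) / d)
      have h6 := Nat.floor_le (show 0 ≤ (e j - A) / d from div_nonneg (by linarith) hd.le)
      have h7 := Nat.lt_floor_add_one ((e j - A) / d)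
      have hij' : (⌊(e i - A) / d⌋₊ : ℝ) = ⌊(e j - A) / d⌋₊ := by exact_mod_cast hij
      have h8 : |(e i - A) / d - (e j - A) / d| < 1 := by
        rw [abs_lt]; constructor <;> linarith
      have e1 : (e i - A) / d - (e j - A) / d = (e i - e j) / d := by ring
      rw [e1, abs_div, abs_of_pos hd, div_lt_one hd] at h8
      linarith
  rw [Finset.card_range] at h1
  have h2 := Nat.floor_le (show 0 ≤ L / d by positivity)
  have h3 : (T.card : ℝ) ≤ ⌊L / d⌋₊ + 1 := by exact_mod_cast h1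
  linarith

/-- the exponent of the length -/
noncomputable def lam (l : ℝ) : ℝ := Real.logb 2 (1 / l)

lemma lam_anti {l l' : ℝ} (hl : 0 < l) (h : l ≤ l') : lam l' ≤ lam l := by
  unfold lam
  have hl' : 0 < l' := hl.trans_le h
  exact Real.logb_le_logb_of_le (by norm_num) (by positivity) (one_div_le_one_div_of_le hl h)

/-- the family of the ends -/
structure Fam {ι : Type*} (F : Finset ι) (l n D e : ι → ℝ) : Prop where
  pos : ∀ i ∈ F, 0 < l i
  big : ∀ i ∈ F, 10 ≤ lam (l i)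
  n0 : ∀ i ∈ F, 0 < n i
  n1 : ∀ i ∈ F, n i ≤ 6 * lam (l i)
  D1 : ∀ i ∈ F, D i ≤ l i ^ 2 / 2
  sep : ∀ i ∈ F, ∀ j ∈ F, i ≠ j → min (l i) (l j) ≤ |e i - e j| ∨
    9 / 5 * lam (l i) ≤ lam (l j) ∨ 9 / 5 * lam (l j) ≤ lam (l i)

variable {ι : Type*} {F : Finset ι} {l n D e : ι → ℝ}

/-- a block of the rays -/
lemma Fam.block (h : Fam F l n D e) {g t : ℝ} (hg : 0 < g) {T : Finset ι} (hT : T ⊆ F)
    (h1 : ∀ i ∈ T, g ≤ 2 * l i ∧ |t - e i| ≤ D i + 8 * g)
    (h2 : ∀ i ∈ T, ∀ j ∈ T, lam (l i) ≤ 3 / 2 * lam (l j)) : (T.card : ℝ) ≤ 38 := by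
  classical
  have hsep : ∀ i ∈ T, ∀ j ∈ T, i ≠ j → min (l i) (l j) ≤ |e i - e j| := by
    intro i hi j hj hne
    have b1 := h.big i (hT hi)
    have b2 := h.big j (hT hj)
    rcases h.sep i (hT hi) j (hT hj) hne with h3 | h3 | h3
    · exact h3
    · have := h2 j hj i hi
      linarith
    · have := h2 i hi j hj
      linarith
  have hcard := Finset.card_filter_add_card_filter_not (s := T) (fun i => D i ≤ g)
  have hnear : ((T.filter fun i => D i ≤ g).card : ℝ) ≤ 37 := by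
    have h3 := sep_card (T.filter fun i => D i ≤ g) e (t - 9 * g) (18 * g) (g / 2) (by positivity)
      ?_ ?_ (by positivity)
    · have e1 : 18 * g / (g / 2) + 1 = 37 := by field_simp; norm_num
      rwa [e1] at h3
    · intro i hi
      obtain ⟨hiT, hD⟩ := Finset.mem_filter.1 hi
      have h4 := (h1 i hiT).2
      rw [abs_le] at h4
      constructor <;> linarith
    · intro i hi j hj hne
      obtain ⟨hiT, -⟩ := Finset.mem_filter.1 hi
      obtain ⟨hjT, -⟩ := Finset.mem_filter.1 hj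
      refine le_trans (le_min ?_ ?_) (hsep i hiT j hjT hne)
      · have := (h1 i hiT).1; linarith
      · have := (h1 j hjT).1; linarith
  have hfar : (T.filter fun i => ¬ D i ≤ g).card ≤ 1 := by
    rw [Finset.card_le_one]
    intro i hi j hj
    by_contra hne
    wlog hl : l i ≤ l j generalizing i j
    · exact this j hj i hi (Ne.symm hne) (le_of_not_ge hl)
    obtain ⟨hiT, hDi⟩ := Finset.mem_filter.1 hi
    obtain ⟨hjT, hDj⟩ := Finset.mem_filter.1 hj
    push Not at hDi hDj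
    have h3 := hsep i hiT j hjT hne
    rw [min_eq_left hl] at h3
    have h4 := (h1 i hiT).2
    have h5 := (h1 j hjT).2
    have h6 : |e i - e j| ≤ 9 * D i + 9 * D j := by
      rw [abs_le] at h4 h5 ⊢
      constructor <;> linarith
    have h7 := h.D1 i (hT hiT)
    have h8 := h.D1 j (hT hjT)
    have pi := h.pos i (hT hiT)
    have pj := h.pos j (hT hjT)
    have h9 : l i ≤ 9 * l j ^ 2 := by nlinarith
    have h10 := lam_anti pi h9
    have h11 : lam (9 * l j ^ 2) = 2 * lam (l j) - Real.logb 2 9 := by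
      unfold lam
      rw [one_div, one_div, Real.logb_inv, Real.logb_inv, Real.logb_mul (by norm_num)
        (by positivity), Real.logb_pow]
      push_cast
      ring
    have h12 : Real.logb 2 9 ≤ 4 := by
      have h13 := Real.logb_le_logb_of_le (b := 2) (by norm_num) (by norm_num)
        (show (9 : ℝ) ≤ 2 ^ (4 : ℕ) by norm_num)
      rw [Real.logb_pow, Real.logb_self_eq_one (by norm_num)] at h13
      push_cast at h13
      linarith
    have h14 := h2 i hiT j hjT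
    have h15 := h.big j (hT hjT)
    linarith
  have hfar' : ((T.filter fun i => ¬ D i ≤ g).card : ℝ) ≤ 1 := by exact_mod_cast hfar
  have hc : (T.card : ℝ) = ((T.filter fun i => D i ≤ g).card : ℝ) +
      (T.filter fun i => ¬ D i ≤ g).card := by
    exact_mod_cast hcard.symm
  linarith

/-- **the multiplicity lemma** -/
theorem Fam.mult (h : Fam F l n D e) {g t : ℝ} (hg : 0 < g) {S : Finset ι} (hS : S ⊆ F)
    (h1 : ∀ i ∈ S, g ≤ 2 * l i ∧ |t - e i| ≤ D i + 8 * g) :
    ∑ i ∈ S, 1 / bet (4 * n i) g ≤ 10 ^ 4 := by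
  classical
  rcases S.eq_empty_or_nonempty with rfl | ⟨i₁, hi₁⟩
  · rw [Finset.sum_empty]; positivity
  obtain ⟨X, hX⟩ : ∃ X, X = Real.logb 2 (1 / g) + 1 := ⟨_, rfl⟩
  have hle : ∀ i ∈ S, lam (l i) ≤ X := by
    intro i hi
    have h2 := (h1 i hi).1
    have h3 : g / 2 ≤ l i := by linarith
    have h4 := lam_anti (by positivity) h3
    have h5 : lam (g / 2) = X := by
      unfold lam
      rw [hX, one_div_div, one_div, Real.logb_div (by norm_num) hg.ne', Real.logb_inv,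
        Real.logb_self_eq_one (by norm_num)]
      ring
    rw [h5] at h4
    exact h4
  have hXbig : 10 ≤ X := (h.big i₁ (hS hi₁)).trans (hle i₁ hi₁)
  have h2 := block_sum (fun i => lam (l i)) 38 (by norm_num) S.card S le_rfl
    (fun i hi => by have := h.big i (hS hi); linarith)
    (fun T hT hT2 => h.block hg (hT.trans hS) (fun i hi => h1 i (hT hi)) hT2) X hle
  have h3 : ∑ i ∈ S, 1 / bet (4 * n i) g ≤ ∑ i ∈ S, 2 * (lam (l i) / X) ^ ((1 : ℝ) / 8) := by
    refine Finset.sum_le_sum fun i hi => ?_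
    have b1 := h.big i (hS hi)
    have b2 := h.n0 i (hS hi)
    have b3 := h.n1 i (hS hi)
    have h4 : (X / (256 * lam (l i))) ^ ((1 : ℝ) / 8) ≤ bet (4 * n i) g := by
      unfold bet
      refine Real.rpow_le_rpow (by positivity) ?_ (by norm_num)
      refine le_trans ?_ (le_max_right _ _)
      have e1 : Real.logb 2 (1 / g) = X - 1 := by rw [hX]; ring
      rw [e1, div_le_div_iff₀ (by positivity) (by positivity)]
      nlinarith
    have h5 : 0 < (X / (256 * lam (l i))) ^ ((1 : ℝ) / 8) := by positivity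
    have h6 : 1 / bet (4 * n i) g ≤ 1 / (X / (256 * lam (l i))) ^ ((1 : ℝ) / 8) :=
      one_div_le_one_div_of_le h5 h4
    refine h6.trans (le_of_eq ?_)
    rw [one_div, ← Real.inv_rpow (by positivity), inv_div]
    have e2 : 256 * lam (l i) / X = (2 : ℝ) ^ (8 : ℕ) * (lam (l i) / X) := by ring
    rw [e2, Real.mul_rpow (by positivity) (by positivity), ← Real.rpow_natCast,
      ← Real.rpow_mul (by norm_num)]
    norm_num
  rw [← Finset.mul_sum] at h3
  linarith

/-- the strip -/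
def St : Set ℂ := {z | 0 < z.re ∧ z.re ≤ 2 ∧ -20 < z.im ∧ z.im < 20}

lemma meas_St : MeasurableSet St := by
  have e : St = {z : ℂ | 0 < z.re} ∩ ({z : ℂ | z.re ≤ 2} ∩ ({z : ℂ | -20 < z.im} ∩
      {z : ℂ | z.im < 20})) := rfl
  rw [e]
  exact (isOpen_lt (by fun_prop) (by fun_prop)).measurableSet.inter
    ((isClosed_le (by fun_prop) (by fun_prop)).measurableSet.inter
    ((isOpen_lt (by fun_prop) (by fun_prop)).measurableSet.inter
      (isOpen_lt (by fun_prop) (by fun_prop)).measurableSet))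

lemma meas_RS (e D H : ℝ) : MeasurableSet (RS e D H) := by
  have e : RS e D H = {z : ℂ | 0 < z.re} ∩ ({z : ℂ | z.re ≤ 2 * H} ∩
      {z : ℂ | |z.im / (2 * Real.pi) - e| ≤ D + 8 * z.re}) := rfl
  rw [e]
  exact (isOpen_lt (by fun_prop) (by fun_prop)).measurableSet.inter
    ((isClosed_le (by fun_prop) (by fun_prop)).measurableSet.inter
    (isClosed_le (by fun_prop) (by fun_prop)).measurableSet)

lemma meas_Rf (s t H : ℝ) : MeasurableSet (Rf s t H) := by
  have e : Rf s t H = {z : ℂ | H / 2 < z.re} ∩ ({z : ℂ | z.re < 2 * H} ∩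
      ({z : ℂ | s - 2 * H < z.im / (2 * Real.pi)} ∩ {z : ℂ | z.im / (2 * Real.pi) < t + 2 * H})) :=
    rfl
  rw [e]
  exact (isOpen_lt (by fun_prop) (by fun_prop)).measurableSet.inter
    ((isOpen_lt (by fun_prop) (by fun_prop)).measurableSet.inter
    ((isOpen_lt (by fun_prop) (by fun_prop)).measurableSet.inter
      (isOpen_lt (by fun_prop) (by fun_prop)).measurableSet))

lemma sum_lintegral_le {α κ : Type*} [MeasurableSpace α] (μ : Measure α) (S : Finset κ)
    (f : κ → α → ℝ≥0∞) : ∑ i ∈ S, ∫⁻ a, f i a ∂μ ≤ ∫⁻ a, ∑ i ∈ S, f i a ∂μ := by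
  classical
  induction S using Finset.induction_on with
  | empty => simp
  | insert i S hi ih =>
    rw [Finset.sum_insert hi]
    refine (add_le_add le_rfl ih).trans ((le_lintegral_add _ _).trans (le_of_eq ?_))
    refine lintegral_congr fun a => ?_
    rw [Finset.sum_insert hi]

/-- comparison of a sum of integrals with the energy of the strip -/
lemma sum_en_le {κ : Type*} (S : Finset κ) (A : κ → Set ℂ) (b : κ → ℂ → ℝ)
    (hA : ∀ i ∈ S, MeasurableSet (A i)) (hsub : ∀ i ∈ S, A i ⊆ St)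
    (hb : ∀ i ∈ S, ∀ z ∈ A i, 0 < b i z) (K : ℝ)
    (hK : ∀ z ∈ St, ∀ T ⊆ S, (∀ i ∈ T, z ∈ A i) → ∑ i ∈ T, 1 / b i z ≤ K) :
    ∑ i ∈ S, ∫⁻ z in A i, ENNReal.ofReal (‖deriv cOf z‖ ^ 2 / b i z) ≤
      ENNReal.ofReal K * en St := by
  classical
  have h1 : ∑ i ∈ S, ∫⁻ z in A i, ENNReal.ofReal (‖deriv cOf z‖ ^ 2 / b i z) =
      ∑ i ∈ S, ∫⁻ z, (A i).indicator (fun z => ENNReal.ofReal (‖deriv cOf z‖ ^ 2 / b i z)) z :=
    Finset.sum_congr rfl fun i hi => (lintegral_indicator (hA i hi) _).symm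
  rw [h1]
  refine (sum_lintegral_le _ _ _).trans ?_
  unfold en
  rw [← lintegral_const_mul' _ _ ENNReal.ofReal_ne_top, ← lintegral_indicator meas_St]
  refine lintegral_mono fun z => ?_
  show ∑ i ∈ S, (A i).indicator (fun z => ENNReal.ofReal (‖deriv cOf z‖ ^ 2 / b i z)) z ≤
    St.indicator (fun z => ENNReal.ofReal K * ENNReal.ofReal (‖deriv cOf z‖ ^ 2)) z
  by_cases hz : z ∈ St
  · rw [Set.indicator_of_mem hz]
    have h2 : ∑ i ∈ S, (A i).indicator
        (fun z => ENNReal.ofReal (‖deriv cOf z‖ ^ 2 / b i z)) z =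
        ∑ i ∈ S.filter (fun i => z ∈ A i), ENNReal.ofReal (‖deriv cOf z‖ ^ 2 / b i z) := by
      rw [Finset.sum_filter]
      rfl
    rw [h2, ← ENNReal.ofReal_sum_of_nonneg]
    · have hK' := hK z hz (S.filter fun i => z ∈ A i) (Finset.filter_subset _ _)
        (fun i hi => (Finset.mem_filter.1 hi).2)
      have hK0 : 0 ≤ K := by
        refine le_trans (Finset.sum_nonneg fun i hi => ?_) hK'
        obtain ⟨hi1, hi2⟩ := Finset.mem_filter.1 hi
        have := hb i hi1 z hi2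
        positivity
      rw [← ENNReal.ofReal_mul hK0]
      refine ENNReal.ofReal_le_ofReal ?_
      calc ∑ i ∈ S.filter (fun i => z ∈ A i), ‖deriv cOf z‖ ^ 2 / b i z =
          (∑ i ∈ S.filter (fun i => z ∈ A i), 1 / b i z) * ‖deriv cOf z‖ ^ 2 := by
            rw [Finset.sum_mul]
            refine Finset.sum_congr rfl fun i _ => ?_
            ring
        _ ≤ K * ‖deriv cOf z‖ ^ 2 := mul_le_mul_of_nonneg_right hK' (by positivity)
    · intro i hi
      obtain ⟨hi1, hi2⟩ := Finset.mem_filter.1 hi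
      have := hb i hi1 z hi2
      positivity
  · rw [Set.indicator_of_notMem hz]
    refine le_of_eq (Finset.sum_eq_zero fun i hi => ?_)
    rw [Set.indicator_of_notMem fun h => hz (hsub i hi h)]

lemma lam_small {l : ℝ} (hl : 0 < l) (h : 10 ≤ lam l) : l ≤ 1 / 1024 := by
  by_contra hcon
  push Not at hcon
  have h1 := lam_anti (by norm_num) hcon.le
  have h2 : lam (1 / 1024) = 10 := by
    unfold lam
    rw [one_div_one_div, show (1024 : ℝ) = 2 ^ (10 : ℕ) by norm_num, Real.logb_pow,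
      Real.logb_self_eq_one (by norm_num)]
    norm_num
  have h3 : lam l < 10 := by
    rw [← h2]
    unfold lam
    refine Real.logb_lt_logb (by norm_num) (by positivity) ?_
    rw [one_div_one_div, one_div, inv_lt_comm₀ hl (by norm_num)]
    rw [← one_div]
    exact hcon
  linarith

lemma bet_pos (N s : ℝ) : 0 < bet N s := by
  unfold bet
  exact Real.rpow_pos_of_pos (lt_of_lt_of_le one_pos (le_max_left _ _)) _

/-- **the sum of the ray energies** -/
theorem Fam.sum_ray (h : Fam F l n D e) (he : ∀ i ∈ F, 0 ≤ e i ∧ e i < 1) :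
    ∑ i ∈ F, rayE (4 * n i) (e i) (D i) (l i) ≤ ENNReal.ofReal (10 ^ 4) * en St := by
  unfold rayE
  refine sum_en_le F (fun i => RS (e i) (D i) (l i)) (fun i z => bet (4 * n i) z.re)
    (fun i _ => meas_RS _ _ _) ?_ (fun i _ z _ => bet_pos _ _) _ ?_
  · rintro i hi z ⟨h1, h2, h3⟩
    have h4 := lam_small (h.pos i hi) (h.big i hi)
    have h5 := h.D1 i hi
    have h6 := h.pos i hi
    have hpi := Real.pi_gt_three
    have hpi' := Real.pi_lt_four
    obtain ⟨he0, he1⟩ := he i hi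
    have h7 : D i ≤ 1 / 1024 := by nlinarith
    rw [abs_le] at h3
    have h8 : z.im / (2 * Real.pi) < 2 := by linarith
    have h9 : -1 < z.im / (2 * Real.pi) := by linarith
    rw [div_lt_iff₀ (by positivity)] at h8
    rw [lt_div_iff₀ (by positivity)] at h9
    refine ⟨h1, by linarith, by linarith, ?_⟩
    have : Real.pi < 3.15 := Real.pi_lt_d2
    linarith
  · rintro z ⟨hz, -, -, -⟩ T hT hT2
    exact h.mult (t := z.im / (2 * Real.pi)) hz hT fun i hi => ⟨(hT2 i hi).2.1, (hT2 i hi).2.2⟩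

end Pool.Agent.Work.MLC.Cap
end

section
set_option autoImplicit false

/-! # Module AV of Theorem Cap: the weighted average (helper78) -/

namespace Pool.Agent.Work.MLC.Cap

open Filter Topology Metric Set Complex MeasureTheory
open Pool.Agent.Work.MLC.Sat Pool.Agent.Work.MLC.Cnt
open scoped ENNReal

lemma av_one_le_bet (N s : ℝ) : 1 ≤ bet N s := by
  unfold bet
  exact Real.one_le_rpow (le_max_left _ _) (by norm_num)

/-- the weight does not change much on a Whitney box -/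
lemma av_bet_le {N s r : ℝ} (hN : 1 ≤ N) (hs : 0 < s) (hr : s / 4 < r) :
    bet N r ≤ 3 * bet N s := by
  have hr0 : 0 < r := by linarith
  have h0 : (0 : ℝ) < N := by linarith
  have h1 : Real.logb 2 (1 / r) ≤ Real.logb 2 (1 / s) + 2 := by
    have h2 : Real.logb 2 (1 / s) + 2 = Real.logb 2 (1 / s * 2 ^ (2 : ℕ)) := by
      rw [Real.logb_mul (by positivity) (by norm_num), Real.logb_pow, Real.logb_self_eq_one (by norm_num)]
      norm_num
    rw [h2]
    apply Real.logb_le_logb_of_le (by norm_num) (by positivity)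
    rw [div_mul_eq_mul_div, one_mul, div_le_div_iff₀ hr0 hs]
    linarith
  have h3 : max 1 (Real.logb 2 (1 / r) / N) ≤ 3 * max 1 (Real.logb 2 (1 / s) / N) := by
    have h4 := le_max_left (1 : ℝ) (Real.logb 2 (1 / s) / N)
    have h5 := le_max_right (1 : ℝ) (Real.logb 2 (1 / s) / N)
    apply max_le
    · linarith
    · have h6 : Real.logb 2 (1 / r) / N ≤ Real.logb 2 (1 / s) / N + 2 := by
        calc Real.logb 2 (1 / r) / N ≤ (Real.logb 2 (1 / s) + 2) / N :=
              div_le_div_of_nonneg_right h1 h0.le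
          _ = Real.logb 2 (1 / s) / N + 2 / N := add_div _ _ _
          _ ≤ _ := by
              have : 2 / N ≤ 2 := by
                rw [div_le_iff₀ h0]; linarith
              linarith
      linarith
  unfold bet
  calc (max 1 (Real.logb 2 (1 / r) / N)) ^ ((1 : ℝ) / 8)
      ≤ (3 * max 1 (Real.logb 2 (1 / s) / N)) ^ ((1 : ℝ) / 8) :=
        Real.rpow_le_rpow (by positivity) h3 (by norm_num)
    _ = 3 ^ ((1 : ℝ) / 8) * (max 1 (Real.logb 2 (1 / s) / N)) ^ ((1 : ℝ) / 8) :=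
        Real.mul_rpow (by norm_num) (by positivity)
    _ ≤ _ := by
        have h7 : (3 : ℝ) ^ ((1 : ℝ) / 8) ≤ 3 ^ (1 : ℝ) :=
          Real.rpow_le_rpow_of_exponent_le (by norm_num) (by norm_num)
        rw [Real.rpow_one] at h7
        exact mul_le_mul_of_nonneg_right h7 (by positivity)

/-- the ray is a union of Whitney pieces -/
lemma av_diam (t : ℝ) {H : ℝ} (hH : 0 < H) (I : ℕ) :
    diam (RaySeg t (H / 2 ^ I) H) ≤
      ∑ i ∈ Finset.range I, diam (RaySeg t (H / 2 ^ i / 2) (H / 2 ^ i)) := by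
  induction I with
  | zero =>
      simp only [pow_zero, div_one, Finset.range_zero, Finset.sum_empty]
      unfold RaySeg
      rw [Icc_self, image_singleton, diam_singleton]
  | succ I ih =>
      rw [Finset.sum_range_succ]
      have e1 : H / 2 ^ (I + 1) = H / 2 ^ I / 2 := by
        rw [pow_succ]; field_simp
      have h1 : H / 2 ^ I / 2 ≤ H / 2 ^ I := by
        have : 0 < H / 2 ^ I := by positivity
        linarith
      have h2 : H / 2 ^ I ≤ H := div_le_self hH.le (one_le_pow₀ (by norm_num))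
      have e2 : RaySeg t (H / 2 ^ (I + 1)) H =
          RaySeg t (H / 2 ^ I) H ∪ RaySeg t (H / 2 ^ I / 2) (H / 2 ^ I) := by
        unfold RaySeg
        rw [← image_union, union_comm, Icc_union_Icc_eq_Icc h1 h2, e1]
      rw [e2]
      refine (diam_union' ?_).trans (by linarith)
      exact ⟨_, ⟨H / 2 ^ I, ⟨le_rfl, h2⟩, rfl⟩, ⟨H / 2 ^ I, ⟨h1, le_rfl⟩, rfl⟩⟩

/-- at most three dyadic scales see a given height -/
lemma av_three {H r : ℝ} (hr : 0 < r) (I : ℕ) :
    ((Finset.range I).filter fun i => H / 2 ^ i / 4 < r ∧ r < 2 * (H / 2 ^ i)).card ≤ 3 := by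
  classical
  set S := (Finset.range I).filter fun i => H / 2 ^ i / 4 < r ∧ r < 2 * (H / 2 ^ i) with hS
  rcases S.eq_empty_or_nonempty with h | h
  · rw [h]; simp
  · have h1 : S ⊆ Finset.Ico (S.min' h) (S.min' h + 3) := by
      intro i hi
      rw [Finset.mem_Ico]
      refine ⟨S.min'_le i hi, ?_⟩
      by_contra hc
      push Not at hc
      have h2 := (Finset.mem_filter.1 (S.min'_mem h)).2
      have h3 := (Finset.mem_filter.1 hi).2
      have h4 : (2 : ℝ) ^ (S.min' h) * 8 ≤ 2 ^ i := by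
        calc (2 : ℝ) ^ (S.min' h) * 8 = 2 ^ (S.min' h + 3) := by rw [pow_add]; norm_num
          _ ≤ _ := pow_le_pow_right₀ (by norm_num) hc
      have h5 := h2.1
      have h6 := h3.2
      have p1 : (0 : ℝ) < 2 ^ (S.min' h) := by positivity
      have p2 : (0 : ℝ) < 2 ^ i := by positivity
      rw [div_div, div_lt_iff₀ (by positivity)] at h5
      rw [← mul_div_assoc, lt_div_iff₀ p2] at h6
      nlinarith
    calc S.card ≤ (Finset.Ico (S.min' h) (S.min' h + 3)).card := Finset.card_le_card h1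
      _ = 3 := by rw [Nat.card_Ico]; omega

/-- the pointwise bound -/
lemma av_point {κ : Type} (X : Finset κ) (τ : κ → ℝ) {e D H N : ℝ} (I : ℕ) (M : ℕ → ℝ)
    (hH : 0 < H) (hN : 1 ≤ N) (hτ : ∀ x ∈ X, |τ x - e| ≤ D) (hM0 : ∀ i < I, 0 < M i)
    (hM : ∀ i < I, ∀ a : ℝ, ((X.filter fun x => a ≤ τ x ∧ τ x ≤ a + H / 2 ^ i).card : ℝ) ≤
      M i * X.card) (z : ℂ) :
    ∑ i ∈ Finset.range I, ∑ x ∈ X, (WB (τ x) (H / 2 ^ i)).indicator
        (fun _ => ENNReal.ofReal (1 / (M i * bet N (H / 2 ^ i)))) z ≤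
      (RS e D H).indicator (fun w => ENNReal.ofReal (9 * X.card / bet N w.re)) z := by
  classical
  have hpi := Real.pi_gt_three
  by_cases hz : z ∈ RS e D H
  · rw [indicator_of_mem hz]
    have hz0 : 0 < z.re := hz.1
    have hb : 0 < bet N z.re := lt_of_lt_of_le one_pos (av_one_le_bet _ _)
    have h1 : ∀ i ∈ Finset.range I, ∑ x ∈ X, (WB (τ x) (H / 2 ^ i)).indicator
        (fun _ => ENNReal.ofReal (1 / (M i * bet N (H / 2 ^ i)))) z ≤
        if H / 2 ^ i / 4 < z.re ∧ z.re < 2 * (H / 2 ^ i) then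
          ENNReal.ofReal (3 * X.card / bet N z.re) else 0 := by
      intro i hi
      have hi' := Finset.mem_range.1 hi
      have hhi : 0 < H / 2 ^ i := by positivity
      have hMi := hM0 i hi'
      have hbi : 0 < bet N (H / 2 ^ i) := lt_of_lt_of_le one_pos (av_one_le_bet _ _)
      split_ifs with hc
      · have e1 : ∑ x ∈ X, (WB (τ x) (H / 2 ^ i)).indicator
            (fun _ => ENNReal.ofReal (1 / (M i * bet N (H / 2 ^ i)))) z =
            ∑ x ∈ X.filter (fun x => z ∈ WB (τ x) (H / 2 ^ i)),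
              ENNReal.ofReal (1 / (M i * bet N (H / 2 ^ i))) := by
          rw [Finset.sum_filter]
          rfl
        rw [e1, Finset.sum_const, nsmul_eq_mul, ← ENNReal.ofReal_natCast,
          ← ENNReal.ofReal_mul (by positivity)]
        apply ENNReal.ofReal_le_ofReal
        have h2 : ((X.filter (fun x => z ∈ WB (τ x) (H / 2 ^ i))).card : ℝ) ≤ M i * X.card := by
          refine le_trans ?_ (hM i hi' (z.im / (2 * Real.pi) - H / 2 ^ i / 2))
          have h3 : X.filter (fun x => z ∈ WB (τ x) (H / 2 ^ i)) ⊆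
              X.filter (fun x => z.im / (2 * Real.pi) - H / 2 ^ i / 2 ≤ τ x ∧
                τ x ≤ z.im / (2 * Real.pi) - H / 2 ^ i / 2 + H / 2 ^ i) := by
            intro x hx
            rw [Finset.mem_filter] at hx ⊢
            refine ⟨hx.1, ?_⟩
            have h4 := hx.2.2.2
            rw [abs_lt] at h4
            have e2 : z.im = 2 * Real.pi * (z.im / (2 * Real.pi)) := by field_simp
            set y := z.im / (2 * Real.pi)
            rw [e2] at h4
            constructor <;> nlinarith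
          exact_mod_cast Finset.card_le_card h3
        have h5 := av_bet_le hN hhi hc.1
        rw [mul_one_div, div_le_div_iff₀ (by positivity) hb]
        have h6 : (0 : ℝ) ≤ X.card := Nat.cast_nonneg _
        calc ((X.filter (fun x => z ∈ WB (τ x) (H / 2 ^ i))).card : ℝ) * bet N z.re
            ≤ (M i * X.card) * (3 * bet N (H / 2 ^ i)) :=
              mul_le_mul h2 h5 hb.le (by positivity)
          _ = _ := by ring
      · apply le_of_eq
        apply Finset.sum_eq_zero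
        intro x _
        rw [indicator_of_notMem]
        rintro ⟨h2, h3, -⟩
        exact hc ⟨h2, h3⟩
    refine (Finset.sum_le_sum h1).trans ?_
    rw [← Finset.sum_filter, Finset.sum_const, nsmul_eq_mul]
    calc (((Finset.range I).filter fun i => H / 2 ^ i / 4 < z.re ∧
          z.re < 2 * (H / 2 ^ i)).card : ℝ≥0∞) * ENNReal.ofReal (3 * X.card / bet N z.re)
        ≤ 3 * ENNReal.ofReal (3 * X.card / bet N z.re) := by
          gcongr
          exact_mod_cast av_three hz0 I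
      _ = ENNReal.ofReal 3 * ENNReal.ofReal (3 * X.card / bet N z.re) := by norm_num
      _ = ENNReal.ofReal (9 * X.card / bet N z.re) := by
          rw [← ENNReal.ofReal_mul (by norm_num)]
          congr 1
          ring
  · rw [indicator_of_notMem hz]
    apply le_of_eq
    apply Finset.sum_eq_zero
    intro i hi
    apply Finset.sum_eq_zero
    intro x hx
    rw [indicator_of_notMem]
    rintro ⟨h2, h3, h4⟩
    apply hz
    have hhi : 0 < H / 2 ^ i := by positivity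
    have hhi2 : H / 2 ^ i ≤ H := div_le_self hH.le (one_le_pow₀ (by norm_num))
    refine ⟨by linarith, by linarith, ?_⟩
    have h5 := hτ x hx
    rw [abs_lt] at h4
    rw [abs_le] at h5 ⊢
    have e2 : z.im = 2 * Real.pi * (z.im / (2 * Real.pi)) := by field_simp
    set y := z.im / (2 * Real.pi)
    rw [e2] at h4
    constructor <;> nlinarith

/-- the sum over the rays -/
lemma av_sum {κ : Type} (X : Finset κ) (τ : κ → ℝ) {e D H N : ℝ} (I : ℕ) (M : ℕ → ℝ)
    (hH : 0 < H) (hN : 1 ≤ N) (hτ : ∀ x ∈ X, |τ x - e| ≤ D) (hM0 : ∀ i < I, 0 < M i)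
    (hM : ∀ i < I, ∀ a : ℝ, ((X.filter fun x => a ≤ τ x ∧ τ x ≤ a + H / 2 ^ i).card : ℝ) ≤
      M i * X.card) :
    ∑ x ∈ X, ∑ i ∈ Finset.range I, ENNReal.ofReal (1 / (M i * bet N (H / 2 ^ i))) *
        en (WB (τ x) (H / 2 ^ i)) ≤ 9 * X.card * rayE N e D H := by
  have hRS : MeasurableSet (RS e D H) := by
    have e0 : RS e D H = {z : ℂ | 0 < z.re} ∩ ({z : ℂ | z.re ≤ 2 * H} ∩
        {z : ℂ | |z.im / (2 * Real.pi) - e| ≤ D + 8 * z.re}) := rfl
    rw [e0]
    refine (isOpen_lt (by fun_prop) (by fun_prop)).measurableSet.inter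
      ((isClosed_le (by fun_prop) (by fun_prop)).measurableSet.inter
      (isClosed_le (by fun_prop) (by fun_prop)).measurableSet)
  have hF : Measurable fun z : ℂ => ENNReal.ofReal (‖deriv cOf z‖ ^ 2) :=
    ((measurable_deriv cOf).norm.pow_const 2).ennreal_ofReal
  have h1 : ∀ (x : κ) (i : ℕ), ENNReal.ofReal (1 / (M i * bet N (H / 2 ^ i))) *
      en (WB (τ x) (H / 2 ^ i)) = ∫⁻ z, (WB (τ x) (H / 2 ^ i)).indicator
        (fun _ => ENNReal.ofReal (1 / (M i * bet N (H / 2 ^ i)))) z *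
          ENNReal.ofReal (‖deriv cOf z‖ ^ 2) := by
    intro x i
    unfold en
    rw [← lintegral_const_mul' _ _ ENNReal.ofReal_ne_top, ← lintegral_indicator (qw_meas _ _)]
    apply lintegral_congr
    intro z
    by_cases hz : z ∈ WB (τ x) (H / 2 ^ i)
    · rw [indicator_of_mem hz, indicator_of_mem hz]
    · rw [indicator_of_notMem hz, indicator_of_notMem hz, zero_mul]
  simp_rw [h1]
  have hm : ∀ (x : κ) (i : ℕ), Measurable fun z : ℂ => (WB (τ x) (H / 2 ^ i)).indicator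
        (fun _ => ENNReal.ofReal (1 / (M i * bet N (H / 2 ^ i)))) z *
          ENNReal.ofReal (‖deriv cOf z‖ ^ 2) := by
    intro x i
    exact (measurable_const.indicator (qw_meas _ _)).mul hF
  rw [Finset.sum_comm]
  have h2 : ∀ i ∈ Finset.range I, ∑ x ∈ X, ∫⁻ z, (WB (τ x) (H / 2 ^ i)).indicator
        (fun _ => ENNReal.ofReal (1 / (M i * bet N (H / 2 ^ i)))) z *
          ENNReal.ofReal (‖deriv cOf z‖ ^ 2) = ∫⁻ z, ∑ x ∈ X, (WB (τ x) (H / 2 ^ i)).indicator
        (fun _ => ENNReal.ofReal (1 / (M i * bet N (H / 2 ^ i)))) z *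
          ENNReal.ofReal (‖deriv cOf z‖ ^ 2) := by
    intro i _
    rw [lintegral_finsetSum _ (fun x _ => hm x i)]
  rw [Finset.sum_congr rfl h2, ← lintegral_finsetSum _
    (fun i _ => Finset.measurable_sum _ (fun x _ => hm x i))]
  have h3 : 9 * (X.card : ℝ≥0∞) * rayE N e D H = ∫⁻ z, (RS e D H).indicator
      (fun w => ENNReal.ofReal (9 * X.card / bet N w.re)) z *
        ENNReal.ofReal (‖deriv cOf z‖ ^ 2) := by
    unfold rayE
    rw [← lintegral_const_mul' _ _ (by finiteness), ← lintegral_indicator hRS]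
    apply lintegral_congr
    intro z
    by_cases hz : z ∈ RS e D H
    · rw [indicator_of_mem hz, indicator_of_mem hz]
      have hb : 0 < bet N z.re := lt_of_lt_of_le one_pos (av_one_le_bet _ _)
      have e1 : 9 * (X.card : ℝ≥0∞) = ENNReal.ofReal (9 * X.card) := by
        rw [ENNReal.ofReal_mul (by norm_num), ENNReal.ofReal_natCast]
        norm_num
      rw [e1, ← ENNReal.ofReal_mul (by positivity), ← ENNReal.ofReal_mul (by positivity)]
      congr 1
      ring
    · rw [indicator_of_notMem hz, indicator_of_notMem hz, zero_mul]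
  rw [h3]
  apply lintegral_mono
  intro z
  have h4 := av_point X τ I M hH hN hτ hM0 hM z
  calc ∑ i ∈ Finset.range I, ∑ x ∈ X, (WB (τ x) (H / 2 ^ i)).indicator
        (fun _ => ENNReal.ofReal (1 / (M i * bet N (H / 2 ^ i)))) z *
          ENNReal.ofReal (‖deriv cOf z‖ ^ 2)
      = (∑ i ∈ Finset.range I, ∑ x ∈ X, (WB (τ x) (H / 2 ^ i)).indicator
        (fun _ => ENNReal.ofReal (1 / (M i * bet N (H / 2 ^ i)))) z) *
          ENNReal.ofReal (‖deriv cOf z‖ ^ 2) := by
        rw [Finset.sum_mul]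
        exact Finset.sum_congr rfl fun i _ => (Finset.sum_mul _ _ _).symm
    _ ≤ _ := mul_le_mul_left h4 _

/-- **Module AV.** -/
theorem c_average : C_average := by
  intro κ X τ e D H N I M hX hH hH1 hN hD hτ hM
  classical
  have hcard : (0 : ℝ) < X.card := by exact_mod_cast hX.card_pos
  have hM0 : ∀ i < I, 0 < M i := by
    intro i hi
    obtain ⟨x, hx⟩ := hX
    have h1 := (hM i hi).2 (τ x)
    have h2 : 0 < ((X.filter fun y => τ x ≤ τ y ∧ τ y ≤ τ x + H / 2 ^ i).card : ℝ) := by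
      have : x ∈ X.filter fun y => τ x ≤ τ y ∧ τ y ≤ τ x + H / 2 ^ i := by
        rw [Finset.mem_filter]
        refine ⟨hx, le_rfl, ?_⟩
        have : 0 < H / 2 ^ i := by positivity
        linarith
      exact_mod_cast Finset.card_pos.2 ⟨x, this⟩
    exact (pos_iff_pos_of_mul_pos (h2.trans_le h1)).2 hcard
  set w : ℕ → ℝ := fun i => M i * bet N (H / 2 ^ i) with hw
  have hw0 : ∀ i < I, 0 < w i := fun i hi =>
    mul_pos (hM0 i hi) (lt_of_lt_of_le one_pos (av_one_le_bet _ _))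
  set V : κ → ℕ → ℝ := fun x i => (volume (cOf '' WB (τ x) (H / 2 ^ i))).toReal with hV
  have hV0 : ∀ x i, 0 ≤ V x i := fun x i => ENNReal.toReal_nonneg
  have hi1 : ∀ i : ℕ, H / 2 ^ i ≤ 1 := fun i =>
    (div_le_self hH.le (one_le_pow₀ (by norm_num))).trans hH1
  have hen : ∀ x i, en (WB (τ x) (H / 2 ^ i)) = ENNReal.ofReal (V x i) := by
    intro x i
    have hhi : 0 < H / 2 ^ i := by positivity
    have h1 := hi1 i
    have hpi := Real.pi_gt_three
    apply qw_energy (qw_meas _ _)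
    · rintro z ⟨h2, h3, -⟩
      constructor <;> linarith
    · rintro z ⟨-, -, h2⟩ w ⟨-, -, h3⟩
      rw [abs_lt] at h2 h3 ⊢
      constructor <;> linarith
  -- one ray
  have hray : ∀ x, diam (RaySeg (τ x) (H / 2 ^ I) H) ^ 2 ≤
      400 * (∑ i ∈ Finset.range I, w i) * ∑ i ∈ Finset.range I, V x i / w i := by
    intro x
    have h1 : diam (RaySeg (τ x) (H / 2 ^ I) H) ≤ ∑ i ∈ Finset.range I, 20 * √(V x i) := by
      refine (av_diam (τ x) hH I).trans (Finset.sum_le_sum fun i _ => ?_)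
      exact q_whitney (τ x) (H / 2 ^ i) (by positivity) (hi1 i)
    have h2 : (∑ i ∈ Finset.range I, √(V x i)) ^ 2 ≤
        (∑ i ∈ Finset.range I, w i) * ∑ i ∈ Finset.range I, V x i / w i := by
      apply Finset.sum_sq_le_sum_mul_sum_of_sq_le_mul
      · intro i hi
        exact (hw0 i (Finset.mem_range.1 hi)).le
      · intro i hi
        exact div_nonneg (hV0 x i) (hw0 i (Finset.mem_range.1 hi)).le
      · intro i hi
        rw [Real.sq_sqrt (hV0 x i), mul_div_cancel₀ _ (hw0 i (Finset.mem_range.1 hi)).ne']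
    rw [← Finset.mul_sum] at h1
    calc diam (RaySeg (τ x) (H / 2 ^ I) H) ^ 2 ≤ (20 * ∑ i ∈ Finset.range I, √(V x i)) ^ 2 :=
          pow_le_pow_left₀ diam_nonneg h1 2
      _ = 400 * (∑ i ∈ Finset.range I, √(V x i)) ^ 2 := by ring
      _ ≤ _ := by linarith
  rcases Nat.eq_zero_or_pos I with hI | hI
  · obtain ⟨x, hx⟩ := hX
    refine ⟨x, hx, ?_⟩
    have h1 := hray x
    rw [hI] at h1 ⊢
    simp only [Finset.range_zero, Finset.sum_empty, mul_zero, ENNReal.ofReal_zero, zero_mul]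
      at h1 ⊢
    rw [nonpos_iff_eq_zero, ENNReal.ofReal_eq_zero]
    exact h1
  have hSw : 0 < ∑ i ∈ Finset.range I, w i :=
    Finset.sum_pos (fun i hi => hw0 i (Finset.mem_range.1 hi)) ⟨0, Finset.mem_range.2 hI⟩
  by_cases htop : rayE N e D H = ⊤
  · obtain ⟨x, hx⟩ := hX
    refine ⟨x, hx, ?_⟩
    rw [htop, ENNReal.mul_top]
    · exact le_top
    · rw [Ne, ENNReal.ofReal_eq_zero, not_le]
      positivity
  have h1 := av_sum X τ I M hH hN hτ hM0 (fun i hi => (hM i hi).2)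
  have h2 : ∑ x ∈ X, ∑ i ∈ Finset.range I, V x i / w i ≤
      ∑ _x ∈ X, 9 * (rayE N e D H).toReal := by
    rw [Finset.sum_const, nsmul_eq_mul]
    have e1 : ∑ x ∈ X, ∑ i ∈ Finset.range I, ENNReal.ofReal (1 / (M i * bet N (H / 2 ^ i))) *
        en (WB (τ x) (H / 2 ^ i)) =
        ENNReal.ofReal (∑ x ∈ X, ∑ i ∈ Finset.range I, V x i / w i) := by
      rw [ENNReal.ofReal_sum_of_nonneg]
      · refine Finset.sum_congr rfl fun x _ => ?_
        rw [ENNReal.ofReal_sum_of_nonneg]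
        · refine Finset.sum_congr rfl fun i hi => ?_
          have h3 := hw0 i (Finset.mem_range.1 hi)
          rw [hen, ← ENNReal.ofReal_mul (by positivity)]
          congr 1
          rw [one_div_mul_eq_div]
        · intro i hi
          exact div_nonneg (hV0 x i) (hw0 i (Finset.mem_range.1 hi)).le
      · intro x _
        exact Finset.sum_nonneg fun i hi =>
          div_nonneg (hV0 x i) (hw0 i (Finset.mem_range.1 hi)).le
    have e2 : 9 * (X.card : ℝ≥0∞) * rayE N e D H =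
        ENNReal.ofReal ((X.card : ℝ) * (9 * (rayE N e D H).toReal)) := by
      rw [ENNReal.ofReal_mul (Nat.cast_nonneg _), ENNReal.ofReal_natCast,
        ENNReal.ofReal_mul (by norm_num), ENNReal.ofReal_toReal htop]
      norm_num
      ring
    rw [e1, e2] at h1
    exact (ENNReal.ofReal_le_ofReal_iff
      (mul_nonneg (Nat.cast_nonneg _) (mul_nonneg (by norm_num) ENNReal.toReal_nonneg))).1 h1
  obtain ⟨x, hx, h3⟩ := Finset.exists_le_of_sum_le hX h2
  refine ⟨x, hx, ?_⟩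
  have hR : 0 ≤ (rayE N e D H).toReal := ENNReal.toReal_nonneg
  calc ENNReal.ofReal (diam (RaySeg (τ x) (H / 2 ^ I) H) ^ 2)
      ≤ ENNReal.ofReal ((10 ^ 5 * ∑ i ∈ Finset.range I, w i) * (rayE N e D H).toReal) := by
        apply ENNReal.ofReal_le_ofReal
        refine (hray x).trans ?_
        have h4 := mul_le_mul_of_nonneg_left h3 (by positivity : 0 ≤ 400 * ∑ i ∈ Finset.range I, w i)
        refine h4.trans ?_
        have h5 : 0 ≤ (∑ i ∈ Finset.range I, w i) * (rayE N e D H).toReal :=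
          mul_nonneg hSw.le hR
        nlinarith
    _ = _ := by
        rw [ENNReal.ofReal_mul (by positivity), ENNReal.ofReal_toReal htop]

end Pool.Agent.Work.MLC.Cap
end

section
set_option autoImplicit false

/-! # Theorem Cap: leaves of the 4-ary Farey tree (helper31)

The children of the Farey interval `(u, v)` are the intervals between `u`, `2u+v`, `u+v`, `u+2v`,
`v` (mediant notation); the leaves of generation `n` are the mediants of the nodes. -/

namespace Pool.Agent.Work.MLC.Cap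

theorem leaf_rat (a b p q e : ℤ) (hb : 0 < b) (he : e = 1 ∨ e = -1) (h : p * b - a * q = e) :
    (((a : ℚ) / b).den : ℤ) = b := by
  have hc : Nat.Coprime a.natAbs b.natAbs := by
    rw [Nat.Coprime, ← Int.gcd_def, ← Int.isCoprime_iff_gcd_eq_one]
    rcases he with rfl | rfl
    · exact ⟨-q, p, by linear_combination h⟩
    · exact ⟨q, -p, by linear_combination -h⟩
  exact Rat.den_div_eq_of_coprime hb hc

theorem leaf_lt (a b c d : ℤ) (hb : 0 < b) (hd : 0 < d) (h : c * b - a * d = 1) :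
    (a : ℚ) / b < (c : ℚ) / d := by
  have hbQ : (0 : ℚ) < b := by exact_mod_cast hb
  have hdQ : (0 : ℚ) < d := by exact_mod_cast hd
  have hQ : (c : ℚ) * b - a * d = 1 := by exact_mod_cast h
  rw [div_lt_div_iff₀ hbQ hdQ]
  linarith

theorem leaf_union (A B : Finset ℚ) (y : ℚ) (hA : ∀ x ∈ A, x < y) (hB : ∀ x ∈ B, y < x) :
    (A ∪ B).card = A.card + B.card := by
  apply Finset.card_union_of_disjoint
  rw [Finset.disjoint_left]
  intro x hxA hxB
  exact lt_asymm (hA x hxA) (hB x hxB)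

theorem leaf_aux (n : ℕ) : ∀ a b c d : ℤ, 0 < b → 0 < d → c * b - a * d = 1 →
    ∃ X : Finset ℚ, X.card = 4 ^ n ∧
      (∀ x ∈ X, (a : ℚ) / b < x ∧ x < (c : ℚ) / d ∧ (x.den : ℤ) ≤ 3 ^ n * (b + d)) ∧
      ∀ (k : ℕ) (Z : ℝ), k ≤ n → (3 : ℝ) ^ k * ((b : ℝ) + d) ≤ Z → ∀ S ⊆ X,
        (∀ s ∈ S, ∀ s' ∈ S, ∀ y : ℚ, s < y → y < s' → Z < y.den) → S.card ≤ 4 ^ (n - k) := by
  induction n with
  | zero =>
    intro a b c d hb hd h
    have h1 := leaf_lt a b (a + c) (b + d) hb (by linarith) (by linear_combination h)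
    have h2 := leaf_lt (a + c) (b + d) c d (by linarith) hd (by linear_combination h)
    have h3 := leaf_rat (a + c) (b + d) a b (-1) (by linarith) (Or.inr rfl)
      (by linear_combination -h)
    refine ⟨{((a + c : ℤ) : ℚ) / ((b + d : ℤ) : ℚ)}, by simp, ?_, ?_⟩
    · intro x hx
      rw [Finset.mem_singleton] at hx
      subst hx
      exact ⟨h1, h2, by rw [h3]; simp⟩
    · intro k Z _ _ S hS _
      calc S.card ≤ _ := Finset.card_le_card hS
        _ = 1 := by simp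
        _ ≤ _ := Nat.one_le_pow _ _ (by norm_num)
  | succ n ih =>
    intro a b c d hb hd h
    have hbR : (0 : ℝ) < b := by exact_mod_cast hb
    have hdR : (0 : ℝ) < d := by exact_mod_cast hd
    obtain ⟨X1, c1, m1, f1⟩ := ih a b (2 * a + c) (2 * b + d) hb (by linarith)
      (by linear_combination h)
    obtain ⟨X2, c2, m2, f2⟩ := ih (2 * a + c) (2 * b + d) (a + c) (b + d) (by linarith)
      (by linarith) (by linear_combination h)
    obtain ⟨X3, c3, m3, f3⟩ := ih (a + c) (b + d) (a + 2 * c) (b + 2 * d) (by linarith)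
      (by linarith) (by linear_combination h)
    obtain ⟨X4, c4, m4, f4⟩ := ih (a + 2 * c) (b + 2 * d) c d (by linarith) hd
      (by linear_combination h)
    set y1 : ℚ := ((2 * a + c : ℤ) : ℚ) / ((2 * b + d : ℤ) : ℚ) with hy1
    set y2 : ℚ := ((a + c : ℤ) : ℚ) / ((b + d : ℤ) : ℚ) with hy2
    set y3 : ℚ := ((a + 2 * c : ℤ) : ℚ) / ((b + 2 * d : ℤ) : ℚ) with hy3
    have l0 : (a : ℚ) / b < y1 := leaf_lt _ _ _ _ hb (by linarith) (by linear_combination h)
    have l1 : y1 < y2 := leaf_lt _ _ _ _ (by linarith) (by linarith) (by linear_combination h)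
    have l2 : y2 < y3 := leaf_lt _ _ _ _ (by linarith) (by linarith) (by linear_combination h)
    have l3 : y3 < (c : ℚ) / d := leaf_lt _ _ _ _ (by linarith) hd (by linear_combination h)
    have e1 : (y1.den : ℤ) = 2 * b + d := leaf_rat _ _ a b (-1) (by linarith) (Or.inr rfl)
      (by linear_combination -h)
    have e2 : (y2.den : ℤ) = b + d := leaf_rat _ _ a b (-1) (by linarith) (Or.inr rfl)
      (by linear_combination -h)
    have e3 : (y3.den : ℤ) = b + 2 * d := leaf_rat _ _ c d 1 (by linarith) (Or.inl rfl)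
      (by linear_combination h)
    have hcard : (X1 ∪ X2 ∪ X3 ∪ X4).card = 4 ^ (n + 1) := by
      rw [leaf_union (X1 ∪ X2 ∪ X3) X4 y3, leaf_union (X1 ∪ X2) X3 y2, leaf_union X1 X2 y1,
        c1, c2, c3, c4]
      · ring
      · exact fun x hx => (m1 x hx).2.1
      · exact fun x hx => (m2 x hx).1
      · intro x hx
        rw [Finset.mem_union] at hx
        rcases hx with hx | hx
        · exact lt_trans (m1 x hx).2.1 l1
        · exact (m2 x hx).2.1
      · exact fun x hx => (m3 x hx).1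
      · intro x hx
        rw [Finset.mem_union, Finset.mem_union] at hx
        rcases hx with (hx | hx) | hx
        · exact lt_trans (m1 x hx).2.1 (lt_trans l1 l2)
        · exact lt_trans (m2 x hx).2.1 l2
        · exact (m3 x hx).2.1
      · exact fun x hx => (m4 x hx).1
    refine ⟨X1 ∪ X2 ∪ X3 ∪ X4, hcard, ?_, ?_⟩
    · intro x hx
      have hpow : (0 : ℤ) < 3 ^ n := by positivity
      rw [Finset.mem_union, Finset.mem_union, Finset.mem_union] at hx
      rcases hx with ((hx | hx) | hx) | hx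
      · obtain ⟨g1, g2, g3⟩ := m1 x hx
        refine ⟨g1, lt_trans g2 (lt_trans l1 (lt_trans l2 l3)), g3.trans ?_⟩
        rw [pow_succ]
        nlinarith
      · obtain ⟨g1, g2, g3⟩ := m2 x hx
        refine ⟨lt_trans l0 g1, lt_trans g2 (lt_trans l2 l3), g3.trans ?_⟩
        rw [pow_succ]
        nlinarith
      · obtain ⟨g1, g2, g3⟩ := m3 x hx
        refine ⟨lt_trans l0 (lt_trans l1 g1), lt_trans g2 l3, g3.trans ?_⟩
        rw [pow_succ]
        nlinarith
      · obtain ⟨g1, g2, g3⟩ := m4 x hx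
        refine ⟨lt_trans l0 (lt_trans l1 (lt_trans l2 g1)), g2, g3.trans ?_⟩
        rw [pow_succ]
        nlinarith
    · intro k Z hk hZ S hS hsep
      rcases Nat.eq_zero_or_pos k with rfl | hk0
      · exact (Finset.card_le_card hS).trans (le_of_eq hcard)
      obtain ⟨j, rfl⟩ : ∃ j, k = j + 1 := ⟨k - 1, by omega⟩
      rw [Nat.succ_sub_succ]
      have hj : j ≤ n := by omega
      have hpow : (1 : ℝ) ≤ 3 ^ j := one_le_pow₀ (by norm_num)
      have hZ' : 3 * ((b : ℝ) + d) ≤ Z := by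
        refine le_trans ?_ hZ
        rw [pow_succ]
        nlinarith
      have z1 : (y1.den : ℝ) ≤ Z := by
        have : (y1.den : ℝ) = 2 * b + d := by exact_mod_cast e1
        rw [this]
        linarith
      have z2 : (y2.den : ℝ) ≤ Z := by
        have : (y2.den : ℝ) = b + d := by exact_mod_cast e2
        rw [this]
        linarith
      have z3 : (y3.den : ℝ) ≤ Z := by
        have : (y3.den : ℝ) = b + 2 * d := by exact_mod_cast e3
        rw [this]
        linarith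
      rcases S.eq_empty_or_nonempty with rfl | ⟨s, hs⟩
      · simp
      have key : ∀ y : ℚ, (y.den : ℝ) ≤ Z → ∀ t ∈ S, ∀ t' ∈ S, t < y → y < t' → False := by
        intro y hy t ht t' ht' h1 h2
        exact absurd (hsep t ht t' ht' y h1 h2) (not_lt.mpr hy)
      have hsX := hS hs
      rw [Finset.mem_union, Finset.mem_union, Finset.mem_union] at hsX
      rcases hsX with ((hx | hx) | hx) | hx
      · refine f1 j Z hj ?_ S ?_ hsep
        · refine le_trans ?_ hZ
          push_cast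
          rw [pow_succ]
          nlinarith
        · intro t ht
          have htX := hS ht
          rw [Finset.mem_union, Finset.mem_union, Finset.mem_union] at htX
          rcases htX with ((hy | hy) | hy) | hy
          · exact hy
          · exact (key y1 z1 s hs t ht (m1 s hx).2.1 (m2 t hy).1).elim
          · exact (key y2 z2 s hs t ht (lt_trans (m1 s hx).2.1 l1) (m3 t hy).1).elim
          · exact (key y3 z3 s hs t ht (lt_trans (m1 s hx).2.1 (lt_trans l1 l2)) (m4 t hy).1).elim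
      · refine f2 j Z hj ?_ S ?_ hsep
        · refine le_trans ?_ hZ
          push_cast
          rw [pow_succ]
          nlinarith
        · intro t ht
          have htX := hS ht
          rw [Finset.mem_union, Finset.mem_union, Finset.mem_union] at htX
          rcases htX with ((hy | hy) | hy) | hy
          · exact (key y1 z1 t ht s hs (m1 t hy).2.1 (m2 s hx).1).elim
          · exact hy
          · exact (key y2 z2 s hs t ht (m2 s hx).2.1 (m3 t hy).1).elim
          · exact (key y3 z3 s hs t ht (lt_trans (m2 s hx).2.1 l2) (m4 t hy).1).elim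
      · refine f3 j Z hj ?_ S ?_ hsep
        · refine le_trans ?_ hZ
          push_cast
          rw [pow_succ]
          nlinarith
        · intro t ht
          have htX := hS ht
          rw [Finset.mem_union, Finset.mem_union, Finset.mem_union] at htX
          rcases htX with ((hy | hy) | hy) | hy
          · exact (key y2 z2 t ht s hs (lt_trans (m1 t hy).2.1 l1) (m3 s hx).1).elim
          · exact (key y2 z2 t ht s hs (m2 t hy).2.1 (m3 s hx).1).elim
          · exact hy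
          · exact (key y3 z3 s hs t ht (m3 s hx).2.1 (m4 t hy).1).elim
      · refine f4 j Z hj ?_ S ?_ hsep
        · refine le_trans ?_ hZ
          push_cast
          rw [pow_succ]
          nlinarith
        · intro t ht
          have htX := hS ht
          rw [Finset.mem_union, Finset.mem_union, Finset.mem_union] at htX
          rcases htX with ((hy | hy) | hy) | hy
          · exact (key y3 z3 t ht s hs (lt_trans (m1 t hy).2.1 (lt_trans l1 l2)) (m4 s hx).1).elim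
          · exact (key y3 z3 t ht s hs (lt_trans (m2 t hy).2.1 l2) (m4 s hx).1).elim
          · exact (key y3 z3 t ht s hs (m3 t hy).2.1 (m4 s hx).1).elim
          · exact hy

theorem c_leaf : C_leaf := by
  intro u v _ hdet n
  obtain ⟨X, h1, h2, h3⟩ := leaf_aux n u.num u.den v.num v.den (by exact_mod_cast u.den_pos)
    (by exact_mod_cast v.den_pos) hdet
  refine ⟨X, h1, ?_, ?_⟩
  · intro x hx
    obtain ⟨g1, g2, g3⟩ := h2 x hx
    refine ⟨?_, ?_, by exact_mod_cast g3⟩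
    · have : u = (u.num : ℚ) / ((u.den : ℤ) : ℚ) := by
        rw [Int.cast_natCast]
        exact (Rat.num_div_den u).symm
      rw [this]
      exact g1
    · have : v = (v.num : ℚ) / ((v.den : ℤ) : ℚ) := by
        rw [Int.cast_natCast]
        exact (Rat.num_div_den v).symm
      rw [this]
      exact g2
  · intro k Z hk hZ S hS hsep
    exact h3 k Z hk (by push_cast; exact hZ) S hS hsep

end Pool.Agent.Work.MLC.Cap
end

section
set_option autoImplicit false

/-! # Theorem Cap: the rays of a cut (helper15) -/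

namespace Pool.Agent.Work.MLC.Cap

open Filter Topology Metric Set Complex MeasureTheory
open Pool.Agent.Work.MLC.Sat Pool.Agent.Work.MLC.Cnt
open scoped ENNReal

/-! ### plateaus -/

/-- lower bound of the length of a plateau -/
theorem plat15 {W : WS} (hW : W.Ok) {r : ℚ} (h0 : 0 < r) (h1 : r < 1) :
    1 < (2 : ℝ) ^ (W.m * r.den) * ((W.dat r).tp - (W.dat r).tm) := by
  have hC := WS.dat_cir hW h0 h1
  have hm := mpos15 hW
  obtain ⟨-, ⟨k, hk⟩, -⟩ := hC.per
  obtain ⟨j, l, hjl⟩ := hC.orb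
  have hlt := hC.lt
  rw [WS.dat_m hW h0 h1, WS.dat_x hW h0 h1] at hk
  rw [WS.dat_m hW h0 h1] at hjl
  have hP : (1 : ℝ) < 2 ^ (W.m * r.den) :=
    one_lt_pow₀ (by norm_num) (Nat.mul_pos hm r.den_pos).ne'
  have hz : ((2 : ℝ) ^ (W.m * r.den) - 1) * ((W.dat r).tp - (W.dat r).tm) =
      ((2 ^ (W.m * j) * k + (2 ^ (W.m * r.den) - 1) * l - k : ℤ) : ℝ) := by
    push_cast
    rw [← hk, hjl]
    ring
  have hpos : 0 < ((2 : ℝ) ^ (W.m * r.den) - 1) * ((W.dat r).tp - (W.dat r).tm) :=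
    mul_pos (by linarith) (by linarith)
  have h1' : (1 : ℝ) ≤ ((2 : ℝ) ^ (W.m * r.den) - 1) * ((W.dat r).tp - (W.dat r).tm) := by
    rw [hz] at hpos ⊢
    have : 0 < 2 ^ (W.m * j) * k + (2 ^ (W.m * r.den) - 1) * l - k := by exact_mod_cast hpos
    exact_mod_cast this
  nlinarith

/-- rationals between two angles of a window have large denominators -/
theorem sep15 {W : WS} (hW : W.Ok) {τ : ℚ → ℝ} {s s' r : ℚ} (hs : W.nu (τ s) = s)
    (hs' : W.nu (τ s') = s') (h0 : 0 < r) (h1 : r < 1) (h2 : s < r) (h3 : r < s') {a l : ℝ}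
    (ha : a ≤ τ s) (ha' : τ s' ≤ a + l) : 1 < (2 : ℝ) ^ (W.m * r.den) * l := by
  obtain ⟨h4, h5⟩ := nu_tmp15 hW h0 h1
  have h2' : (s : ℝ) < r := by exact_mod_cast h2
  have h3' : (r : ℝ) < s' := by exact_mod_cast h3
  have h6 : τ s < (W.dat r).tm := by
    by_contra hcon
    push Not at hcon
    have := W.nu_mono hcon
    rw [h4, hs] at this
    linarith
  have h7 : (W.dat r).tp < τ s' := by
    by_contra hcon
    push Not at hcon
    have := W.nu_mono hcon
    rw [h5, hs'] at this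
    linarith
  have h8 := plat15 hW h0 h1
  have h9 : (0 : ℝ) < 2 ^ (W.m * r.den) := by positivity
  nlinarith

theorem logb15 {l : ℝ} (hl : 0 < l) {M : ℕ} (h : 1 < (2 : ℝ) ^ M * l) :
    Real.logb 2 (1 / l) < M := by
  rw [Real.logb_lt_iff_lt_rpow (by norm_num) (by positivity), Real.rpow_natCast,
    div_lt_iff₀ hl]
  exact h

/-- the logarithm of the scale -/
noncomputable def LL (H : ℝ) (i : ℕ) : ℝ := Real.logb 2 (1 / (H / 2 ^ i))

theorem LL_eq {H : ℝ} (hH : 0 < H) (i : ℕ) : LL H i = i + Real.logb 2 (1 / H) := by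
  unfold LL
  have h1 : 1 / (H / 2 ^ i) = 2 ^ i * (1 / H) := by field_simp
  rw [h1, Real.logb_mul (by positivity) (by positivity), Real.logb_pow,
    Real.logb_self_eq_one (by norm_num)]
  ring

theorem logb_nonneg15 {H : ℝ} (hH : 0 < H) (hH1 : H ≤ 1) : 0 ≤ Real.logb 2 (1 / H) :=
  Real.logb_nonneg (by norm_num) (by rw [le_div_iff₀ hH]; linarith)

/-! ### masses -/

theorem three15 : (3 : ℝ) ^ (5 / 4 : ℝ) ≤ 4 := by
  have h1 : ((3 : ℝ) ^ (5 / 4 : ℝ)) ^ 4 ≤ (4 : ℝ) ^ 4 := by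
    rw [← Real.rpow_natCast ((3 : ℝ) ^ (5 / 4 : ℝ)) 4, ← Real.rpow_mul (by norm_num)]
    have e : (5 / 4 : ℝ) * ((4 : ℕ) : ℝ) = ((5 : ℕ) : ℝ) := by norm_num
    rw [e, Real.rpow_natCast]
    norm_num
  exact (pow_le_pow_iff_left₀ (by positivity) (by norm_num) (by norm_num)).1 h1

theorem quarter15 {ξ : ℝ} (hξ : 1 ≤ ξ) {k : ℕ} (hk : ξ < 3 ^ (k + 1)) :
    (1 / 4 : ℝ) ^ k ≤ 4 * ξ ^ (-(5 / 4) : ℝ) := by
  have h1 : (1 / 4 : ℝ) ^ (k + 1) ≤ ((3 : ℝ) ^ (k + 1)) ^ (-(5 / 4) : ℝ) := by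
    rw [Real.rpow_neg (by positivity), ← Real.rpow_natCast 3 (k + 1), ← Real.rpow_mul (by norm_num),
      mul_comm, Real.rpow_mul (by norm_num), Real.rpow_natCast, one_div, inv_pow]
    gcongr
    exact three15
  have h2 : ((3 : ℝ) ^ (k + 1)) ^ (-(5 / 4) : ℝ) ≤ ξ ^ (-(5 / 4) : ℝ) :=
    Real.rpow_le_rpow_of_nonpos (by linarith) hk.le (by norm_num)
  have h3 : (1 / 4 : ℝ) ^ k = 4 * (1 / 4) ^ (k + 1) := by rw [pow_succ]; ring
  rw [h3]
  linarith

/-- the masses of the windows -/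
noncomputable def MC (n : ℕ) (N H : ℝ) (i : ℕ) : ℝ :=
  4 * (max 1 (LL H i / N)) ^ (-(5 / 4) : ℝ) + (1 / 4) ^ n

theorem MC_nonneg (n : ℕ) (N H : ℝ) (i : ℕ) : 0 ≤ MC n N H i := by
  unfold MC
  positivity

/-- counting of the leaves in a window -/
theorem cnt15 {W : WS} (hW : W.Ok) {n N₀ : ℕ} (hN₀ : 0 < N₀) {N : ℝ} (hN : (W.m : ℝ) * N₀ ≤ N)
    {X : Finset ℚ} (hcard : X.card = 4 ^ n)
    (hX : ∀ (k : ℕ) (Z : ℝ), k ≤ n → (3 : ℝ) ^ k * N₀ ≤ Z → ∀ S ⊆ X,
      (∀ s ∈ S, ∀ s' ∈ S, ∀ y : ℚ, s < y → y < s' → Z < y.den) → S.card ≤ 4 ^ (n - k))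
    (h0 : ∀ x ∈ X, 0 < x ∧ x < 1) {τ : ℚ → ℝ} (hτ : ∀ x ∈ X, W.nu (τ x) = x)
    {H : ℝ} (hH : 0 < H) (i : ℕ) (a : ℝ) :
    ((X.filter fun x => a ≤ τ x ∧ τ x ≤ a + H / 2 ^ i).card : ℝ) ≤ MC n N H i * X.card := by
  have hm := mpos15 hW
  have hmR : (0 : ℝ) < W.m := by exact_mod_cast hm
  have hN0R : (0 : ℝ) < N₀ := by exact_mod_cast hN₀
  have hNpos : 0 < N := lt_of_lt_of_le (by positivity) hN
  have hq0 : (0 : ℝ) ≤ (1 / 4) ^ n := by positivity
  have hl : 0 < H / 2 ^ i := by positivity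
  have hsub : (X.filter fun x => a ≤ τ x ∧ τ x ≤ a + H / 2 ^ i) ⊆ X := Finset.filter_subset _ _
  obtain ⟨S, hS⟩ : ∃ S, S = X.filter fun x => a ≤ τ x ∧ τ x ≤ a + H / 2 ^ i := ⟨_, rfl⟩
  rw [← hS] at hsub ⊢
  have hsep : ∀ s ∈ S, ∀ s' ∈ S, ∀ y : ℚ, s < y → y < s' → LL H i / W.m < y.den := by
    intro s hs s' hs' y hy hy'
    rw [hS, Finset.mem_filter] at hs hs'
    obtain ⟨hs1, hs2, hs3⟩ := hs
    obtain ⟨hs1', hs2', hs3'⟩ := hs'
    have h1 := sep15 hW (hτ s hs1) (hτ s' hs1') ((h0 s hs1).1.trans hy) (hy'.trans (h0 s' hs1').2)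
      hy hy' hs2 hs3'
    have h2 := logb15 hl h1
    rw [div_lt_iff₀ hmR]
    unfold LL
    push_cast at h2
    linarith
  rcases lt_or_ge (LL H i / N) 1 with h1 | h1
  · have h2 : MC n N H i = 4 + (1 / 4) ^ n := by
      unfold MC
      rw [max_eq_left h1.le, Real.one_rpow, mul_one]
    have h3 : (S.card : ℝ) ≤ X.card := by exact_mod_cast Finset.card_le_card hsub
    rw [h2]
    have h4 : (0 : ℝ) ≤ X.card := by positivity
    nlinarith
  · have hLN : N ≤ LL H i := by rwa [le_div_iff₀ hNpos, one_mul] at h1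
    obtain ⟨ξ, hξ⟩ : ∃ ξ : ℝ, ξ = LL H i / (W.m * N₀) := ⟨_, rfl⟩
    have hξ1 : 1 ≤ ξ := by
      rw [hξ, le_div_iff₀ (by positivity)]; linarith
    have hξN : LL H i / N ≤ ξ := by
      rw [hξ]
      exact div_le_div_of_nonneg_left (by linarith) (by positivity) hN
    have hfl : ⌊ξ⌋₊ ≠ 0 := by
      have : 1 ≤ ⌊ξ⌋₊ := Nat.le_floor (by exact_mod_cast hξ1)
      omega
    obtain ⟨k, hk⟩ : ∃ k, k = Nat.log 3 ⌊ξ⌋₊ := ⟨_, rfl⟩
    have hk1 : (3 : ℝ) ^ k ≤ ξ := by
      have h2 : 3 ^ k ≤ ⌊ξ⌋₊ := by rw [hk]; exact Nat.pow_log_le_self 3 hfl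
      have h3 : ((3 ^ k : ℕ) : ℝ) ≤ (⌊ξ⌋₊ : ℝ) := by exact_mod_cast h2
      have h4 := Nat.floor_le (show 0 ≤ ξ by linarith)
      push_cast at h3
      linarith
    have hk2 : ξ < 3 ^ (k + 1) := by
      have h2 : ⌊ξ⌋₊ < 3 ^ (k + 1) := by rw [hk]; exact Nat.lt_pow_succ_log_self (by norm_num) _
      have h3 : ((⌊ξ⌋₊ + 1 : ℕ) : ℝ) ≤ ((3 ^ (k + 1) : ℕ) : ℝ) := by exact_mod_cast h2
      have h4 := Nat.lt_floor_add_one ξ
      push_cast at h3
      linarith
    have hZ : ∀ j : ℕ, (3 : ℝ) ^ j ≤ ξ → (3 : ℝ) ^ j * N₀ ≤ LL H i / W.m := by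
      intro j hj
      rw [le_div_iff₀ hmR]
      rw [hξ, le_div_iff₀ (by positivity)] at hj
      linarith
    rcases le_or_gt k n with hkn | hkn
    · have h2 := hX k _ hkn (hZ k hk1) S hsub hsep
      have h3 : (S.card : ℝ) ≤ (4 : ℝ) ^ (n - k) := by exact_mod_cast h2
      have h4 : (4 : ℝ) ^ (n - k) = (1 / 4) ^ k * 4 ^ n := by
        rw [pow_sub₀ _ (by norm_num) hkn, one_div, inv_pow]
        ring
      have h5 := quarter15 hξ1 hk2
      have h6 : ξ ^ (-(5 / 4) : ℝ) ≤ (LL H i / N) ^ (-(5 / 4) : ℝ) :=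
        Real.rpow_le_rpow_of_nonpos (by linarith) hξN (by norm_num)
      have h7 : MC n N H i = 4 * (LL H i / N) ^ (-(5 / 4) : ℝ) + (1 / 4) ^ n := by
        unfold MC
        rw [max_eq_right h1]
      rw [h7, hcard]
      push_cast
      have h8 : (0 : ℝ) < 4 ^ n := by positivity
      calc (S.card : ℝ) ≤ (1 / 4) ^ k * 4 ^ n := by rw [← h4]; exact h3
        _ ≤ _ := by
            refine mul_le_mul_of_nonneg_right ?_ h8.le
            linarith
    · have h2 := hX n _ le_rfl (hZ n ((pow_le_pow_right₀ (by norm_num) hkn.le).trans hk1)) S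
        hsub hsep
      rw [Nat.sub_self, pow_zero] at h2
      have h3 : (S.card : ℝ) ≤ 1 := by exact_mod_cast h2
      have h4 : (1 / 4 : ℝ) ^ n ≤ MC n N H i := by
        unfold MC
        have : (0 : ℝ) ≤ 4 * (max 1 (LL H i / N)) ^ (-(5 / 4) : ℝ) := by positivity
        linarith
      have h5 : (1 / 4 : ℝ) ^ n * 4 ^ n = 1 := by
        rw [← mul_pow]; norm_num
      rw [hcard]
      push_cast
      have h8 : (0 : ℝ) < 4 ^ n := by positivity
      nlinarith

/-! ### sums -/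

theorem step15 {N : ℕ} (hN : 0 < N) {J : ℕ} (hJ : N ≤ J) :
    (((J + 1 : ℕ) : ℝ) / N) ^ (-(9 / 8) : ℝ) ≤
      8 * N * (((J : ℝ) / N) ^ (-(1 / 8) : ℝ) - (((J + 1 : ℕ) : ℝ) / N) ^ (-(1 / 8) : ℝ)) := by
  have hNR : (0 : ℝ) < N := by exact_mod_cast hN
  have hJR : (N : ℝ) ≤ J := by exact_mod_cast hJ
  obtain ⟨a, ha⟩ : ∃ a : ℝ, a = (J : ℝ) / N := ⟨_, rfl⟩
  obtain ⟨b, hb⟩ : ∃ b : ℝ, b = ((J + 1 : ℕ) : ℝ) / N := ⟨_, rfl⟩
  rw [← ha, ← hb]
  have ha1 : 1 ≤ a := by rw [ha, le_div_iff₀ hNR]; linarith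
  have hba : N * (b - a) = 1 := by
    rw [ha, hb]; push_cast; field_simp; ring
  have hab : a ≤ b := by
    have : 0 < b - a := by
      by_contra hcon
      push Not at hcon
      have := mul_nonpos_of_nonneg_of_nonpos hNR.le hcon
      linarith
    linarith
  have ha0 : 0 < a := by linarith
  have hb0 : 0 < b := by linarith
  obtain ⟨A, hA⟩ : ∃ A : ℝ, A = a ^ (-(1 / 8) : ℝ) := ⟨_, rfl⟩
  obtain ⟨B, hB⟩ : ∃ B : ℝ, B = b ^ (-(1 / 8) : ℝ) := ⟨_, rfl⟩
  rw [← hA, ← hB]
  have hA0 : 0 < A := by rw [hA]; positivity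
  have hB0 : 0 < B := by rw [hB]; positivity
  have hBA : B ≤ A := by
    rw [hA, hB]; exact Real.rpow_le_rpow_of_nonpos ha0 hab (by norm_num)
  have hA8 : a * A ^ 8 = 1 := by
    rw [hA, ← Real.rpow_natCast (a ^ (-(1 / 8) : ℝ)) 8, ← Real.rpow_mul ha0.le]
    have e : (-(1 / 8) : ℝ) * ((8 : ℕ) : ℝ) = -1 := by norm_num
    rw [e, Real.rpow_neg_one]
    exact mul_inv_cancel₀ ha0.ne'
  have hB8 : b * B ^ 8 = 1 := by
    rw [hB, ← Real.rpow_natCast (b ^ (-(1 / 8) : ℝ)) 8, ← Real.rpow_mul hb0.le]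
    have e : (-(1 / 8) : ℝ) * ((8 : ℕ) : ℝ) = -1 := by norm_num
    rw [e, Real.rpow_neg_one]
    exact mul_inv_cancel₀ hb0.ne'
  have hB9 : b ^ (-(9 / 8) : ℝ) = B ^ 9 := by
    rw [hB, ← Real.rpow_natCast (b ^ (-(1 / 8) : ℝ)) 9, ← Real.rpow_mul hb0.le]
    norm_num
  rw [hB9]
  -- `B ^ 9 = N (B - a B ^ 9)`
  have h1 : B ^ 9 = N * (B - a * B ^ 9) := by
    have : B ^ 9 = N * (b - a) * B ^ 9 := by rw [hba, one_mul]
    calc B ^ 9 = N * (b - a) * B ^ 9 := this
      _ = N * (B * (b * B ^ 8) - a * B ^ 9) := by ring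
      _ = _ := by rw [hB8, mul_one]
  obtain ⟨r, hr⟩ : ∃ r : ℝ, r = B / A := ⟨_, rfl⟩
  have hr0 : 0 < r := by rw [hr]; positivity
  have hr1 : r ≤ 1 := by rw [hr, div_le_one hA0]; exact hBA
  have hBr : B = r * A := by rw [hr]; field_simp
  have h2 : a * B ^ 9 = r ^ 9 * A := by
    rw [hBr]
    calc a * (r * A) ^ 9 = r ^ 9 * A * (a * A ^ 8) := by ring
      _ = _ := by rw [hA8, mul_one]
  have h3 := one_add_mul_le_pow (show (-2 : ℝ) ≤ r - 1 by linarith) 8
  have h4 : 1 - r ^ 8 ≤ 8 * (1 - r) := by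
    have e : 1 + (r - 1) = r := by ring
    rw [e] at h3
    push_cast at h3
    linarith
  have h5 : 0 ≤ 1 - r ^ 8 := by
    have := pow_le_one₀ (n := 8) hr0.le hr1
    linarith
  have h6 : r - r ^ 9 ≤ 8 * (1 - r) := by
    have e : r - r ^ 9 = r * (1 - r ^ 8) := by ring
    rw [e]
    nlinarith
  have h7 : B - a * B ^ 9 ≤ 8 * (A - B) := by
    rw [h2, hBr]
    have := mul_le_mul_of_nonneg_right h6 hA0.le
    nlinarith
  rw [h1]
  have := mul_le_mul_of_nonneg_left h7 hNR.le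
  linarith

theorem fsum15 {N : ℕ} (hN : 0 < N) (J : ℕ) :
    ∑ i ∈ Finset.range J, (max 1 ((i : ℝ) / N)) ^ (-(9 / 8) : ℝ) ≤ 10 * N := by
  have hNR : (0 : ℝ) < N := by exact_mod_cast hN
  have hN1 : (1 : ℝ) ≤ N := by exact_mod_cast hN
  have key : ∀ J : ℕ, ∑ i ∈ Finset.range (J + 1), (max 1 ((i : ℝ) / N)) ^ (-(9 / 8) : ℝ) ≤
      (min J N : ℕ) + 1 + 8 * N - 8 * N * (max 1 ((J : ℝ) / N)) ^ (-(1 / 8) : ℝ) := by
    intro J
    induction J with
    | zero => simp
    | succ J ih =>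
      rw [Finset.sum_range_succ]
      rcases lt_or_ge J N with hJ | hJ
      · have h1 : max 1 (((J + 1 : ℕ) : ℝ) / N) = 1 := by
          apply max_eq_left
          rw [div_le_one hNR]
          exact_mod_cast hJ
        have h2 : max 1 ((J : ℝ) / N) = 1 := by
          apply max_eq_left
          rw [div_le_one hNR]
          exact_mod_cast hJ.le
        have h3 : min (J + 1) N = J + 1 := min_eq_left hJ
        have h4 : min J N = J := min_eq_left hJ.le
        rw [h2, h4] at ih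
        rw [h1, h3]
        simp only [Real.one_rpow] at ih ⊢
        push_cast
        linarith
      · have h1 : max 1 (((J + 1 : ℕ) : ℝ) / N) = ((J + 1 : ℕ) : ℝ) / N := by
          apply max_eq_right
          rw [le_div_iff₀ hNR, one_mul]
          exact_mod_cast (by omega : N ≤ J + 1)
        have h2 : max 1 ((J : ℝ) / N) = (J : ℝ) / N := by
          apply max_eq_right
          rw [le_div_iff₀ hNR, one_mul]
          exact_mod_cast hJ
        have h3 : min (J + 1) N = N := min_eq_right (by omega)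
        have h4 : min J N = N := min_eq_right hJ
        rw [h2, h4] at ih
        rw [h1, h3]
        have h5 := step15 hN hJ
        linarith
  have hmono : ∑ i ∈ Finset.range J, (max 1 ((i : ℝ) / N)) ^ (-(9 / 8) : ℝ) ≤
      ∑ i ∈ Finset.range (J + 1), (max 1 ((i : ℝ) / N)) ^ (-(9 / 8) : ℝ) := by
    rw [Finset.sum_range_succ]
    have : (0 : ℝ) ≤ (max 1 ((J : ℝ) / N)) ^ (-(9 / 8) : ℝ) := by positivity
    linarith
  have h1 := key J
  have h2 : (0 : ℝ) ≤ 8 * N * (max 1 ((J : ℝ) / N)) ^ (-(1 / 8) : ℝ) := by positivity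
  have h3 : ((min J N : ℕ) : ℝ) ≤ N := by exact_mod_cast min_le_right J N
  linarith

/-- the sum of the masses with the weights -/
theorem msum15 {N : ℕ} (hN : 0 < N) {H : ℝ} (hH : 0 < H) (hH1 : H ≤ 1) {n I : ℕ}
    (hn : (1 / 4 : ℝ) ^ n * I * (1 + I + Real.logb 2 (1 / H)) ^ (1 / 8 : ℝ) ≤ 1) :
    ∑ i ∈ Finset.range I, MC n N H i * bet N (H / 2 ^ i) ≤ 41 * N := by
  have hNR : (0 : ℝ) < N := by exact_mod_cast hN
  have hN1 : (1 : ℝ) ≤ N := by exact_mod_cast hN
  have hΛ := logb_nonneg15 hH hH1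
  have hterm : ∀ i ∈ Finset.range I, MC n N H i * bet N (H / 2 ^ i) ≤
      4 * (max 1 ((i : ℝ) / N)) ^ (-(9 / 8) : ℝ) +
        (1 / 4) ^ n * (1 + I + Real.logb 2 (1 / H)) ^ (1 / 8 : ℝ) := by
    intro i hi
    have hi' : (i : ℝ) ≤ I := by exact_mod_cast (Finset.mem_range.1 hi).le
    obtain ⟨ζ, hζ⟩ : ∃ ζ : ℝ, ζ = max 1 (LL H i / N) := ⟨_, rfl⟩
    have hζ1 : 1 ≤ ζ := by rw [hζ]; exact le_max_left _ _
    have hζ0 : 0 < ζ := by linarith
    have hbet : bet N (H / 2 ^ i) = ζ ^ (1 / 8 : ℝ) := by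
      unfold bet
      rw [hζ]
      rfl
    have hMC : MC n N H i = 4 * ζ ^ (-(5 / 4) : ℝ) + (1 / 4) ^ n := by
      unfold MC
      rw [hζ]
    have hprod : ζ ^ (-(5 / 4) : ℝ) * ζ ^ (1 / 8 : ℝ) = ζ ^ (-(9 / 8) : ℝ) := by
      rw [← Real.rpow_add hζ0]
      norm_num
    have hLi := LL_eq hH i
    have h1 : max 1 ((i : ℝ) / N) ≤ ζ := by
      rw [hζ]
      refine max_le_max le_rfl ?_
      rw [hLi]
      exact div_le_div_of_nonneg_right (by linarith) hNR.le
    have h2 : ζ ^ (-(9 / 8) : ℝ) ≤ (max 1 ((i : ℝ) / N)) ^ (-(9 / 8) : ℝ) :=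
      Real.rpow_le_rpow_of_nonpos (lt_of_lt_of_le one_pos (le_max_left _ _)) h1 (by norm_num)
    have h3 : ζ ≤ 1 + I + Real.logb 2 (1 / H) := by
      rw [hζ]
      refine max_le (by have : (0 : ℝ) ≤ I := by positivity
                        linarith) ?_
      rw [hLi]
      refine (div_le_self (by positivity) hN1).trans ?_
      linarith
    have h4 : ζ ^ (1 / 8 : ℝ) ≤ (1 + I + Real.logb 2 (1 / H)) ^ (1 / 8 : ℝ) :=
      Real.rpow_le_rpow hζ0.le h3 (by norm_num)
    have h5 : (0 : ℝ) ≤ (1 / 4) ^ n := by positivity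
    calc MC n N H i * bet N (H / 2 ^ i)
        = 4 * (ζ ^ (-(5 / 4) : ℝ) * ζ ^ (1 / 8 : ℝ)) + (1 / 4) ^ n * ζ ^ (1 / 8 : ℝ) := by
          rw [hbet, hMC]; ring
      _ ≤ _ := by
          rw [hprod]
          have := mul_le_mul_of_nonneg_left h4 h5
          linarith
  refine (Finset.sum_le_sum hterm).trans ?_
  rw [Finset.sum_add_distrib, ← Finset.mul_sum, Finset.sum_const, Finset.card_range, nsmul_eq_mul]
  have h1 := fsum15 hN I
  have h2 : (I : ℝ) * ((1 / 4) ^ n * (1 + I + Real.logb 2 (1 / H)) ^ (1 / 8 : ℝ)) ≤ 1 := by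
    refine le_trans (le_of_eq ?_) hn
    ring
  linarith

/-! ### the number of generations -/

theorem three_eighth15 : (3 : ℝ) ^ (1 / 8 : ℝ) ≤ 6 / 5 := by
  have h1 : ((3 : ℝ) ^ (1 / 8 : ℝ)) ^ 8 ≤ (6 / 5 : ℝ) ^ 8 := by
    rw [← Real.rpow_natCast ((3 : ℝ) ^ (1 / 8 : ℝ)) 8, ← Real.rpow_mul (by norm_num)]
    have e : (1 / 8 : ℝ) * ((8 : ℕ) : ℝ) = 1 := by norm_num
    rw [e, Real.rpow_one]
    norm_num
  exact (pow_le_pow_iff_left₀ (by positivity) (by norm_num) (by norm_num)).1 h1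

theorem exists_n15 {K Λ : ℝ} (hK : 0 < K) (hΛ : 0 ≤ Λ) :
    ∃ n : ℕ, (1 / 4 : ℝ) ^ n * (K * 3 ^ n) * (1 + K * 3 ^ n + Λ) ^ (1 / 8 : ℝ) ≤ 1 := by
  obtain ⟨B, hB⟩ : ∃ B : ℝ, B = (1 + K + Λ) ^ (1 / 8 : ℝ) := ⟨_, rfl⟩
  have hB0 : 0 < B := by rw [hB]; positivity
  obtain ⟨n, hn⟩ := exists_pow_lt_of_lt_one (show (0 : ℝ) < 1 / (K * B) by positivity)
    (show (9 / 10 : ℝ) < 1 by norm_num)
  refine ⟨n, ?_⟩
  have h3 : (1 : ℝ) ≤ 3 ^ n := one_le_pow₀ (by norm_num)
  have h30 : (0 : ℝ) < 3 ^ n := by positivity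
  have h1 : 1 + K * 3 ^ n + Λ ≤ (1 + K + Λ) * 3 ^ n := by nlinarith
  have h2 : (1 + K * 3 ^ n + Λ) ^ (1 / 8 : ℝ) ≤ B * (6 / 5) ^ n := by
    have h4 : (1 + K * 3 ^ n + Λ) ^ (1 / 8 : ℝ) ≤ ((1 + K + Λ) * 3 ^ n) ^ (1 / 8 : ℝ) :=
      Real.rpow_le_rpow (by positivity) h1 (by norm_num)
    rw [Real.mul_rpow (by positivity) (by positivity), ← hB] at h4
    have h5 : ((3 : ℝ) ^ n) ^ (1 / 8 : ℝ) = ((3 : ℝ) ^ (1 / 8 : ℝ)) ^ n := by
      rw [← Real.rpow_natCast 3 n, ← Real.rpow_mul (by norm_num), mul_comm,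
        Real.rpow_mul (by norm_num), Real.rpow_natCast]
    rw [h5] at h4
    have h6 : ((3 : ℝ) ^ (1 / 8 : ℝ)) ^ n ≤ (6 / 5) ^ n :=
      pow_le_pow_left₀ (by positivity) three_eighth15 n
    exact h4.trans (mul_le_mul_of_nonneg_left h6 hB0.le)
  have h7 : (0 : ℝ) ≤ (1 / 4 : ℝ) ^ n * (K * 3 ^ n) := by positivity
  have h8 := mul_le_mul_of_nonneg_left h2 h7
  have h9 : (1 / 4 : ℝ) ^ n * (K * 3 ^ n) * (B * (6 / 5) ^ n) = (K * B) * (9 / 10) ^ n := by
    have e : (9 / 10 : ℝ) = 1 / 4 * 3 * (6 / 5) := by norm_num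
    rw [e, mul_pow, mul_pow]
    ring
  rw [h9] at h8
  have h10 : (K * B) * (9 / 10) ^ n ≤ (K * B) * (1 / (K * B)) :=
    mul_le_mul_of_nonneg_left hn.le (by positivity)
  have h11 : (K * B) * (1 / (K * B)) = 1 := by
    field_simp
  linarith

/-! ### gates -/

/-- the number of scales -/
def KC15 (m q : ℕ) : ℕ := 10 ^ 16 * m ^ 7 * q ^ 9

theorem KC15_cast (m q : ℕ) : (KC15 m q : ℝ) = 10 ^ 16 * (m : ℝ) ^ 7 * (q : ℝ) ^ 9 := by
  unfold KC15
  rw [Nat.cast_mul, Nat.cast_mul, Nat.cast_pow, Nat.cast_pow, Nat.cast_pow, Nat.cast_ofNat]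

/-- the gate condition at the leaves -/
theorem gateC15 {W : WS} (hW : W.Ok) {q : ℕ} (hq : 0 < q) {y : ℚ} (h0 : 2 / (3 * (q : ℝ)) ≤ y)
    (h1 : (y : ℝ) ≤ 1 - 2 / (3 * q)) {n : ℕ} (hden : y.den ≤ 3 ^ n * (4 * q)) {H u : ℝ}
    (hH : 0 < H) (hH1 : H ≤ 1) (hu : 0 < u) (hu' : u ≤ H / 2 ^ (KC15 W.m q * 3 ^ n)) :
    cOf ((u : ℂ) + 2 * Real.pi * (W.dat y).tm * I) ∈ W.Gt y (6 / (2000 * W.m * (q : ℝ) ^ 2)) ∧
    cOf ((u : ℂ) + 2 * Real.pi * (W.dat y).tp * I) ∈ W.Gt y (6 / (2000 * W.m * (q : ℝ) ^ 2)) := by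
  have hm := mpos15 hW
  have hm0 : (0 : ℝ) < W.m := by exact_mod_cast hm
  have hQ0 : (0 : ℝ) < q := by exact_mod_cast hq
  have hqq : 0 < 2 / (3 * (q : ℝ)) := by positivity
  have hy0 : 0 < y := by
    have : (0 : ℝ) < y := by linarith
    exact_mod_cast this
  have hy1 : y < 1 := by
    have : (y : ℝ) < 1 := by linarith
    exact_mod_cast this
  have hs : (0 : ℝ) < 6 / (2000 * W.m * (q : ℝ) ^ 2) := by positivity
  have hsG : 6 / (2000 * W.m * (q : ℝ) ^ 2) ≤ sG (W.dat y) := by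
    unfold sG gR
    rw [WS.dat_m hW hy0 hy1, WS.dat_x hW hy0 hy1]
    have h2 : 2 / (3 * (q : ℝ)) ≤ min (y : ℝ) (1 - y) := le_min h0 (by linarith)
    have h3 : (2 / (3 * (q : ℝ))) ^ 2 ≤ (min (y : ℝ) (1 - y)) ^ 2 :=
      pow_le_pow_left₀ hqq.le h2 2
    have h4 : 6 / (2000 * W.m * (q : ℝ) ^ 2) ≤ 1 / 4 * (2 / (3 * (q : ℝ))) ^ 2 / W.m / 8 := by
      have e : 1 / 4 * (2 / (3 * (q : ℝ))) ^ 2 / W.m / 8 = (1 / 72) / (W.m * (q : ℝ) ^ 2) := by
        field_simp
        norm_num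
      have e2 : 6 / (2000 * W.m * (q : ℝ) ^ 2) = (6 / 2000) / (W.m * (q : ℝ) ^ 2) := by
        field_simp
      rw [e, e2]
      exact div_le_div_of_nonneg_right (by norm_num) (by positivity)
    refine h4.trans ?_
    gcongr
  have hbig : 130000 * ((W.dat y).m : ℝ) ^ 3 * (W.dat y).x.den ≤
      (6 / (2000 * W.m * (q : ℝ) ^ 2)) ^ 4 * (-Real.log u) := by
    rw [WS.dat_m hW hy0 hy1, WS.dat_x hW hy0 hy1]
    have h2 : 0.69 * ((KC15 W.m q * 3 ^ n : ℕ) : ℝ) ≤ -Real.log u := by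
      have h3 := Real.log_le_log hu hu'
      rw [Real.log_div hH.ne' (by positivity), Real.log_pow] at h3
      have h4 : Real.log H ≤ 0 := Real.log_nonpos hH.le hH1
      have h5 := Real.log_two_gt_d9
      have h6 : (0 : ℝ) ≤ ((KC15 W.m q * 3 ^ n : ℕ) : ℝ) := by positivity
      nlinarith
    have h3 : ((y.den : ℕ) : ℝ) ≤ 3 ^ n * (4 * q) := by exact_mod_cast hden
    have h4 : 130000 * (W.m : ℝ) ^ 3 * (3 ^ n * (4 * q)) ≤
        (6 / (2000 * W.m * (q : ℝ) ^ 2)) ^ 4 * (0.69 * ((KC15 W.m q * 3 ^ n : ℕ) : ℝ)) := by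
      rw [Nat.cast_mul, KC15_cast, Nat.cast_pow, Nat.cast_ofNat]
      rw [div_pow, div_mul_eq_mul_div, le_div_iff₀ (by positivity)]
      have e1 : 130000 * (W.m : ℝ) ^ 3 * (3 ^ n * (4 * q)) * (2000 * W.m * (q : ℝ) ^ 2) ^ 4 =
          (130000 * 4 * 2000 ^ 4) * ((W.m : ℝ) ^ 7 * (q : ℝ) ^ 9 * 3 ^ n) := by ring
      have e2 : (6 : ℝ) ^ 4 * (0.69 * (10 ^ 16 * (W.m : ℝ) ^ 7 * (q : ℝ) ^ 9 * 3 ^ n)) =
          (6 ^ 4 * 0.69 * 10 ^ 16) * ((W.m : ℝ) ^ 7 * (q : ℝ) ^ 9 * 3 ^ n) := by ring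
      rw [e1, e2]
      have h5 : (0 : ℝ) ≤ (W.m : ℝ) ^ 7 * (q : ℝ) ^ 9 * 3 ^ n := by positivity
      exact mul_le_mul_of_nonneg_right (by norm_num) h5
    calc 130000 * (W.m : ℝ) ^ 3 * (y.den : ℝ) ≤ 130000 * (W.m : ℝ) ^ 3 * (3 ^ n * (4 * q)) := by
          gcongr
      _ ≤ _ := h4
      _ ≤ _ := by gcongr
  have hr := n2_ray (W.dat y) (WS.dat_par hW hy0 hy1) (WS.dat_cir hW hy0 hy1)
    (6 / (2000 * W.m * (q : ℝ) ^ 2)) u hs hsG hu hbig
  have himg : (W.dat y).c '' closedBall (W.dat y).a (6 / (2000 * W.m * (q : ℝ) ^ 2)) =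
      W.Gt y (6 / (2000 * W.m * (q : ℝ) ^ 2)) := by
    unfold WS.Gt
    rw [WS.dat_a hW hy0 hy1]
    exact image_congr fun L _ => WS.dat_c hW hy0 hy1 L
  rw [himg] at hr
  exact hr

/-! ### one side -/

theorem sideC15 (hL : C_leaf) (hA : C_average) {W : WS} (hW : W.Ok) {q : ℕ} (hq : 0 < q)
    {a b : ℚ} (hab : a < b) (hdet : b.num * a.den - a.num * b.den = 1)
    (ha : 2 / (3 * (q : ℝ)) ≤ a) (hb : (b : ℝ) ≤ 1 - 2 / (3 * q)) (hden : a.den + b.den ≤ 4 * q)
    {H : ℝ} (hH : 0 < H) (hH1 : H ≤ 1) {n : ℕ}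
    (hn : (1 / 4 : ℝ) ^ n * (KC15 W.m q * 3 ^ n) *
      (1 + KC15 W.m q * 3 ^ n + Real.logb 2 (1 / H)) ^ (1 / 8 : ℝ) ≤ 1) (τ : ℚ → ℝ)
    (hτ : ∀ y : ℚ, 0 < y → y < 1 → τ y = (W.dat y).tm ∨ τ y = (W.dat y).tp) {e D : ℝ}
    (hD : 0 ≤ D) (hdist : ∀ y : ℚ, a < y → y < b → |τ y - e| ≤ D) :
    ∃ y : ℚ, a < y ∧ y < b ∧
      (∀ t : ℝ, 0 < t → t ≤ H / 2 ^ (KC15 W.m q * 3 ^ n) →
        cOf ((t : ℂ) + 2 * Real.pi * τ y * I) ∈ W.Gt y (6 / (2000 * W.m * (q : ℝ) ^ 2))) ∧
      ENNReal.ofReal (diam (RaySeg (τ y) (H / 2 ^ (KC15 W.m q * 3 ^ n)) H) ^ 2) ≤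
        ENNReal.ofReal (2 * 10 ^ 7 * (W.m * q)) * rayE (4 * W.m * q) e D H := by
  have hm := mpos15 hW
  have hm0 : (0 : ℝ) < W.m := by exact_mod_cast hm
  have hQ0 : (0 : ℝ) < q := by exact_mod_cast hq
  have hqq : 0 < 2 / (3 * (q : ℝ)) := by positivity
  obtain ⟨X, hcard, hX1, hX2⟩ := hL a b hab hdet n
  have hy : ∀ y ∈ X, 2 / (3 * (q : ℝ)) ≤ y ∧ (y : ℝ) ≤ 1 - 2 / (3 * q) := by
    intro y hy
    obtain ⟨h1, h2, -⟩ := hX1 y hy
    have h1' : (a : ℝ) < y := by exact_mod_cast h1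
    have h2' : (y : ℝ) < b := by exact_mod_cast h2
    exact ⟨by linarith, by linarith⟩
  have h01 : ∀ y ∈ X, 0 < y ∧ y < 1 := by
    intro y hyX
    obtain ⟨h1, h2⟩ := hy y hyX
    have h3 : (0 : ℝ) < y := by linarith
    have h4 : (y : ℝ) < 1 := by linarith
    exact ⟨by exact_mod_cast h3, by exact_mod_cast h4⟩
  have hnu : ∀ y ∈ X, W.nu (τ y) = y := by
    intro y hyX
    obtain ⟨h5, h6⟩ := nu_tmp15 hW (h01 y hyX).1 (h01 y hyX).2
    rcases hτ y (h01 y hyX).1 (h01 y hyX).2 with h | h <;> rw [h] <;> assumption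
  have hne : X.Nonempty := by
    rw [← Finset.card_pos, hcard]
    positivity
  have hN0 : 0 < a.den + b.den := Nat.add_pos_left a.den_pos _
  have hNN : (W.m : ℝ) * ((a.den + b.den : ℕ) : ℝ) ≤ 4 * W.m * q := by
    have h1 : ((a.den + b.den : ℕ) : ℝ) ≤ 4 * q := by exact_mod_cast hden
    nlinarith
  have hNpos : 0 < 4 * W.m * q := by positivity
  have hN1 : (1 : ℝ) ≤ 4 * W.m * q := by exact_mod_cast hNpos
  obtain ⟨y, hyX, hyE⟩ := hA ℚ X τ e D H (4 * W.m * q) (KC15 W.m q * 3 ^ n)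
    (MC n (4 * W.m * q) H) hne hH hH1 hN1 hD (fun y hyX => hdist y (hX1 y hyX).1 (hX1 y hyX).2.1)
    (by
      intro i _
      refine ⟨MC_nonneg _ _ _ _, fun a' => ?_⟩
      refine cnt15 hW hN0 hNN hcard ?_ h01 hnu hH i a'
      intro k Z hk hZ S hS hS2
      refine hX2 k Z hk ?_ S hS hS2
      push_cast at hZ
      exact hZ)
  refine ⟨y, (hX1 y hyX).1, (hX1 y hyX).2.1, ?_, ?_⟩
  · intro t ht ht'
    have hyd : y.den ≤ 3 ^ n * (4 * q) :=
      (hX1 y hyX).2.2.trans (Nat.mul_le_mul_left _ hden)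
    have h5 := gateC15 hW hq (hy y hyX).1 (hy y hyX).2 hyd hH hH1 ht ht'
    rcases hτ y (h01 y hyX).1 (h01 y hyX).2 with h | h
    · rw [h]; exact h5.1
    · rw [h]; exact h5.2
  · refine hyE.trans ?_
    have hsum := msum15 (N := 4 * W.m * q) hNpos hH hH1 (n := n) (I := KC15 W.m q * 3 ^ n)
      (by push_cast; exact hn)
    push_cast at hsum
    have h6 : 10 ^ 5 * ∑ i ∈ Finset.range (KC15 W.m q * 3 ^ n),
        MC n (4 * W.m * q) H i * bet (4 * W.m * q) (H / 2 ^ i) ≤ 2 * 10 ^ 7 * (W.m * q) := by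
      have h7 : (0 : ℝ) ≤ W.m * q := by positivity
      nlinarith
    gcongr

/-- **CR** -/
theorem c_cutray_explicit (hL : C_leaf) (hA : C_average) (hD : C_dist) : C_cutray (2 * 10 ^ 7) := by
  intro W hW x u v hx0 hx1 hN H hH hH1
  have hm := mpos15 hW
  have hq : 0 < x.den := x.den_pos
  have hQ0 : (0 : ℝ) < x.den := by exact_mod_cast hq
  have hqq : 0 < 2 / (3 * (x.den : ℝ)) := by positivity
  have hu0 : 2 / (3 * (x.den : ℝ)) ≤ u := by
    have h := hN.u0
    have h' : ((2 / (3 * (x.den : ℚ)) : ℚ) : ℝ) ≤ u := by exact_mod_cast h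
    push_cast at h'
    exact h'
  have hv1 : (v : ℝ) ≤ 1 - 2 / (3 * (x.den : ℝ)) := by
    have h := hN.v1
    have h' : (v : ℝ) ≤ ((1 - 2 / (3 * (x.den : ℚ)) : ℚ) : ℝ) := by exact_mod_cast h
    push_cast at h'
    exact h'
  have hux : (u : ℝ) < x := by exact_mod_cast hN.ux
  have hxv : (x : ℝ) < v := by exact_mod_cast hN.xv
  have hDD : 0 ≤ DD W.m x.den := by unfold DD; positivity
  have hK : (0 : ℝ) < KC15 W.m x.den := by
    have hm0 : (0 : ℝ) < W.m := by exact_mod_cast hm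
    rw [KC15_cast]
    positivity
  obtain ⟨n, hn⟩ := exists_n15 hK (logb_nonneg15 hH hH1)
  have hnux := nu_tmp15 hW hx0 hx1
  have hu0' : 0 < u := by
    have : (0 : ℝ) < u := by linarith
    exact_mod_cast this
  have hv1' : v < 1 := by
    have : (v : ℝ) < 1 := by linarith
    exact_mod_cast this
  obtain ⟨x₁, h1, h2, h3, h4⟩ := sideC15 hL hA hW hq hN.ux hN.detu hu0 (by linarith)
    (by have := hN.denu.2; omega) hH hH1 hn (fun y => (W.dat y).tm) (fun y _ _ => Or.inl rfl)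
    (e := (W.dat x).tm) hDD (by
      intro y hy1 hy2
      have h5 := (hD W hW x u v y hx0 hx1 hN).1 hy1 hy2
      have h6 : (W.dat y).tm ≤ (W.dat x).tm := by
        by_contra hcon
        push Not at hcon
        have h7 := W.nu_mono hcon.le
        rw [hnux.1, (nu_tmp15 hW (hu0'.trans hy1) (hy2.trans hx1)).1] at h7
        have h8 : (y : ℝ) < x := by exact_mod_cast hy2
        linarith
      rw [abs_le]
      constructor <;> linarith)
  obtain ⟨x₂, h5, h6, h7, h8⟩ := sideC15 hL hA hW hq hN.xv hN.detv (by linarith) hv1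
    (by have := hN.denv.2; omega) hH hH1 hn (fun y => (W.dat y).tp) (fun y _ _ => Or.inr rfl)
    (e := (W.dat x).tp) hDD (by
      intro y hy1 hy2
      have h5 := (hD W hW x u v y hx0 hx1 hN).2 hy1 hy2
      have h6 : (W.dat x).tp ≤ (W.dat y).tp := by
        by_contra hcon
        push Not at hcon
        have h7 := W.nu_mono hcon.le
        rw [hnux.2, (nu_tmp15 hW (hx0.trans hy1) (hy2.trans hv1')).2] at h7
        have h8 : (x : ℝ) < y := by exact_mod_cast hy1
        linarith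
      rw [abs_le]
      constructor <;> linarith)
  exact ⟨x₁, x₂, H / 2 ^ (KC15 W.m x.den * 3 ^ n), h1, h2, h5, h6, by positivity,
    div_le_self hH.le (one_le_pow₀ (by norm_num)), h3, h7, h4, h8⟩

end Pool.Agent.Work.MLC.Cap
end

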