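import Pool.Agent.Work.MLCM.C69
import Pool.Agent.Work.MLCM.C72

section
set_option autoImplicit false

/-! # Theorem Cap, module CG: the gates of a cut (helper26) -/

namespace Pool.Agent.Work.MLC.Cap

open Filter Topology Metric Set Complex MeasureTheory
open Pool.Agent.Work.MLC.Sat Pool.Agent.Work.MLC.Cnt
open scoped ENNReal

/-- the chart is injective on the left half of the strip -/
lemma c_inj26 {W : WS} (hW : W.Ok) {L L' : ℂ} (h0 : 0 < L.im) (h1 : L.im < 2 * Real.pi)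
    (h2 : L.re < 0) (h0' : 0 < L'.im) (h1' : L'.im < 2 * Real.pi) (h2' : L'.re < 0)
    (h : W.c L = W.c L') : L = L' := by
  have hD : L ∈ Pri.D0 W.m := ⟨h0, h1, h2.trans_le (by unfold Pri.hgt; positivity)⟩
  have hD' : L' ∈ Pri.D0 W.m := ⟨h0', h1', h2'.trans_le (by unfold Pri.hgt; positivity)⟩
  obtain ⟨a1, a2⟩ := hW.wide.sec L hD
  obtain ⟨b1, b2⟩ := hW.wide.sec L' hD'
  have h3 : (W.σ L).1 = (W.σ L').1 := h
  have h4 : ∀ M : ℂ, M.re < 0 → ‖Complex.exp M‖ < 1 := by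
    intro M hM
    rw [Complex.norm_exp]
    exact Real.exp_lt_one_iff.2 hM
  obtain ⟨i, hi⟩ := s7_fatou (W.σ L).1 (W.σ L).2 (W.σ L').2 W.m W.m hW.wide.pos hW.wide.pos a1
    (by rw [Prod.mk.eta, a2]; exact h4 L h2) (by rw [h3]; exact b1)
    (by rw [h3, Prod.mk.eta, b2]; exact h4 L' h2')
  have h5 : mul W.m (W.σ L') = mul W.m (W.σ L) := by
    have e : W.σ L' = ((W.σ L).1, it (W.σ L).1 i (W.σ L).2) := by
      rw [← hi, h3]
    rw [e]
    exact mul_it' (c := (W.σ L).1) (z := (W.σ L).2) a1 i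
  rw [a2, b2, Complex.exp_eq_exp_iff_exists_int] at h5
  obtain ⟨n, hn⟩ := h5
  have h6 := congrArg Complex.im hn
  simp only [add_im, mul_im, mul_re, intCast_re, intCast_im, re_ofNat, im_ofNat, ofReal_re,
    ofReal_im, I_re, I_im, mul_zero, zero_mul, sub_zero, mul_one, add_zero] at h6
  have hpi := Real.pi_gt_three
  have hn0 : n = 0 := by
    have h7 : (n : ℝ) < 1 := by
      by_contra h7
      push Not at h7
      nlinarith
    have h8 : (-1 : ℝ) < n := by
      by_contra h8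
      push Not at h8
      nlinarith
    have h9 : n < 1 := by exact_mod_cast h7
    have h10 : -1 < n := by exact_mod_cast h8
    omega
  rw [hn, hn0]; simp

/-- the region of `HH` in the coordinate `L` -/
def HR (m : ℕ) (x : ℚ) : Set ℂ :=
  {L | -1 / (200 * m * (x.den : ℝ) ^ 2) < L.re ∧ L.re < 0 ∧
    |L.im / (2 * Real.pi) - x| < 1 / (x.den : ℝ) ^ 2}

lemma two_le_den {x : ℚ} (hx0 : 0 < x) (hx1 : x < 1) : 2 ≤ x.den := by
  by_contra hcon
  have h1 : x.den = 1 := by have := x.den_pos; omega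
  have h2 := Rat.den_eq_one_iff x |>.1 h1
  have h3 : (0 : ℚ) < x.num := by rw [h2]; exact hx0
  have h4 : (x.num : ℚ) < 1 := by rw [h2]; exact hx1
  have h5 : 0 < x.num := by exact_mod_cast h3
  have h6 : x.num < 1 := by exact_mod_cast h4
  omega

lemma HR_strip {m : ℕ} {x : ℚ} (hx0 : 0 < x) (hx1 : x < 1) {L : ℂ} (hL : L ∈ HR m x) :
    0 < L.im ∧ L.im < 2 * Real.pi ∧ L.re < 0 := by
  obtain ⟨-, h2, h3⟩ := hL
  have hq : (2 : ℝ) ≤ x.den := by exact_mod_cast two_le_den hx0 hx1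
  have h4 := one_div_den_le hx0
  have h5 := one_div_den_le' hx1
  have h6 : 1 / (x.den : ℝ) ^ 2 < 1 / x.den := by
    rw [one_div_lt_one_div (by positivity) (by positivity)]
    nlinarith
  rw [abs_lt] at h3
  have hpi := Real.pi_pos
  have h7 : 0 < L.im / (2 * Real.pi) := by linarith
  have h8 : L.im / (2 * Real.pi) < 1 := by linarith
  refine ⟨?_, ?_, h2⟩
  · rwa [div_pos_iff_of_pos_right (by positivity)] at h7
  · rwa [div_lt_one (by positivity)] at h8

/-- the halves of the gates on the grid fill the part `HH` of the component at most four times -/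
lemma sum_halves26 {W : WS} (hW : W.Ok) {x : ℚ} (hx0 : 0 < x) (hx1 : x < 1) {B : ℕ} (hB : 0 < B)
    (F : Finset ℕ) (hm : ∀ a ∈ F, MeasurableSet (W.Hf ((a : ℚ) / B) (10 / B)))
    (hsub : ∀ a ∈ F, {L : ℂ | L ∈ ball (axisPt ((a : ℚ) / B)) (10 / B) ∧ L.re < 0} ⊆
      HR W.m x) :
    ∑ a ∈ F, volume (W.Hf ((a : ℚ) / B) (10 / B)) ≤ 4 * volume (HH W x) := by
  have hBR : (0 : ℝ) < B := by exact_mod_cast hB
  rw [← Finset.sum_fiberwise_of_maps_to (s := F) (t := Finset.range 4) (g := fun a => a % 4)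
    (fun a _ => Finset.mem_range.2 (Nat.mod_lt _ (by norm_num)))]
  have key : ∀ r ∈ Finset.range 4, ∑ a ∈ F.filter (fun a => a % 4 = r),
      volume (W.Hf ((a : ℚ) / B) (10 / B)) ≤ volume (HH W x) := by
    intro r _
    rw [← measure_biUnion_finset]
    · refine measure_mono (iUnion₂_subset fun a ha => ?_)
      exact image_mono (hsub a (Finset.mem_filter.1 ha).1)
    · intro a ha a' ha' hne
      rw [Finset.mem_coe, Finset.mem_filter] at ha ha'
      rw [Function.onFun, Set.disjoint_left]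
      rintro _ ⟨L, hL, rfl⟩ ⟨L', hL', h⟩
      obtain ⟨s1, s2, s3⟩ := HR_strip hx0 hx1 (hsub a ha.1 hL)
      obtain ⟨t1, t2, t3⟩ := HR_strip hx0 hx1 (hsub a' ha'.1 hL')
      have he := c_inj26 hW t1 t2 t3 s1 s2 s3 h
      subst he
      have h1 := mem_ball.1 hL.1
      have h2 := mem_ball.1 hL'.1
      have h3 : dist (axisPt ((a : ℚ) / B)) (axisPt ((a' : ℚ) / B)) < 20 / B := by
        have := dist_triangle_left (axisPt ((a : ℚ) / B)) (axisPt ((a' : ℚ) / B)) L'
        have e : 20 / (B : ℝ) = 10 / B + 10 / B := by ring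
        linarith
      rw [dist_eq_norm, LimbData.axisPt_sub] at h3
      have h4 : (4 : ℝ) ≤ |(a : ℝ) - a'| := by
        rcases lt_or_gt_of_ne hne with h5 | h5
        · have h6 : a + 4 ≤ a' := by omega
          have h7 : (a : ℝ) + 4 ≤ a' := by exact_mod_cast h6
          rw [abs_sub_comm, abs_of_nonneg (by linarith)]; linarith
        · have h6 : a' + 4 ≤ a := by omega
          have h7 : (a' : ℝ) + 4 ≤ a := by exact_mod_cast h6
          rw [abs_of_nonneg (by linarith)]; linarith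
      have e2 : ((((a : ℚ) / B : ℚ) : ℝ) - (((a' : ℚ) / B : ℚ) : ℝ)) = ((a : ℝ) - a') / B := by
        push_cast; ring
      rw [e2, abs_div, abs_of_pos hBR, mul_div_assoc', div_lt_div_iff_of_pos_right hBR] at h3
      have := Real.pi_gt_three
      nlinarith
    · intro a ha
      exact hm a (Finset.mem_filter.1 ha).1
  refine (Finset.sum_le_sum key).trans ?_
  rw [Finset.sum_const, Finset.card_range, nsmul_eq_mul]
  norm_num

lemma Nbr.lt_u {x u v : ℚ} (h : Nbr x u v) : (x : ℝ) - u < 1 / (2 * (x.den : ℝ) ^ 2) := by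
  have hx := den_pos' x
  have hu := den_pos' u
  have h1 : (x : ℝ) * x.den = x.num := by exact_mod_cast Rat.mul_den_eq_num x
  have h2 : (u : ℝ) * u.den = u.num := by exact_mod_cast Rat.mul_den_eq_num u
  have h3 : (x.num : ℝ) * u.den - u.num * x.den = 1 := by exact_mod_cast h.detu
  rw [← h1, ← h2] at h3
  have h4 : ((x : ℝ) - u) * (x.den * u.den) = 1 := by linarith
  have h5 : 2 * (x.den : ℝ) < u.den := by exact_mod_cast h.denu.1
  rw [lt_div_iff₀ (by positivity), ← h4]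
  have h6 : 0 < (x : ℝ) - u := by
    have : (u : ℝ) < x := by exact_mod_cast h.ux
    linarith
  refine mul_lt_mul_of_pos_left ?_ h6
  nlinarith

lemma Nbr.lt_v {x u v : ℚ} (h : Nbr x u v) : (v : ℝ) - x < 1 / (2 * (x.den : ℝ) ^ 2) := by
  have hx := den_pos' x
  have hv := den_pos' v
  have h1 : (x : ℝ) * x.den = x.num := by exact_mod_cast Rat.mul_den_eq_num x
  have h2 : (v : ℝ) * v.den = v.num := by exact_mod_cast Rat.mul_den_eq_num v
  have h3 : (v.num : ℝ) * x.den - x.num * v.den = 1 := by exact_mod_cast h.detv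
  rw [← h1, ← h2] at h3
  have h4 : ((v : ℝ) - x) * (x.den * v.den) = 1 := by linarith
  have h5 : 2 * (x.den : ℝ) < v.den := by exact_mod_cast h.denv.1
  rw [lt_div_iff₀ (by positivity), ← h4]
  have h6 : 0 < (v : ℝ) - x := by
    have : (x : ℝ) < v := by exact_mod_cast h.xv
    linarith
  refine mul_lt_mul_of_pos_left ?_ h6
  nlinarith

/-- **CG** -/
theorem c_cutgate (hG : Q_gate) : C_cutgate (10 ^ 16) := by
  intro W hW x u v x₁ x₂ hx0 hx1 hN h1 h2 h3 h4
  have hm := hW.wide.pos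
  have hm1 : (1 : ℝ) ≤ W.m := by exact_mod_cast hm
  have hq2 : (2 : ℝ) ≤ x.den := by exact_mod_cast two_le_den hx0 hx1
  have hq0 : (0 : ℝ) < x.den := by linarith
  have hlu := hN.lt_u
  have hlv := hN.lt_v
  have hux1 : (u : ℝ) < x₁ := by exact_mod_cast h1
  have hx1x : (x₁ : ℝ) < x := by exact_mod_cast h2
  have hxx2 : (x : ℝ) < x₂ := by exact_mod_cast h3
  have hx2v : (x₂ : ℝ) < v := by exact_mod_cast h4
  have hu0 : 2 / (3 * (x.den : ℝ)) ≤ u := by
    have := hN.u0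
    have h' : ((2 / (3 * (x.den : ℚ)) : ℚ) : ℝ) ≤ u := by exact_mod_cast this
    push_cast at h'
    exact h'
  have hv1 : (v : ℝ) ≤ 1 - 2 / (3 * (x.den : ℝ)) := by
    have := hN.v1
    have h' : (v : ℝ) ≤ ((1 - 2 / (3 * (x.den : ℚ)) : ℚ) : ℝ) := by exact_mod_cast this
    push_cast at h'
    exact h'
  obtain ⟨B, hBdef⟩ : ∃ B : ℕ, B = 2000 * W.m * x.den ^ 2 := ⟨_, rfl⟩
  have hB : 0 < B := by
    rw [hBdef]
    have := x.den_pos
    positivity
  have hBR : (0 : ℝ) < B := by exact_mod_cast hB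
  have hBe : (B : ℝ) = 2000 * W.m * (x.den : ℝ) ^ 2 := by rw [hBdef]; push_cast; ring
  have hBinv : 1 / (B : ℝ) ≤ 1 / 4000 * (1 / x.den) := by
    rw [hBe, ← one_div_mul_one_div_rev, one_div_mul_one_div_rev, one_div_mul_one_div_rev]
    refine one_div_le_one_div_of_le (by positivity) ?_
    nlinarith [mul_le_mul_of_nonneg_right hm1 (show (0 : ℝ) ≤ (x.den : ℝ) ^ 2 by positivity)]
  have hBinv2 : 1 / (B : ℝ) ≤ 1 / 2000 * (1 / (x.den : ℝ) ^ 2) := by
    rw [hBe, one_div_mul_one_div_rev]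
    refine one_div_le_one_div_of_le (by positivity) ?_
    nlinarith [mul_le_mul_of_nonneg_right hm1 (show (0 : ℝ) ≤ (x.den : ℝ) ^ 2 by positivity)]
  have hqinv : 0 < 1 / (x.den : ℝ) := by positivity
  have e23 : 2 / (3 * (x.den : ℝ)) = 2 / 3 * (1 / x.den) := by field_simp
  rw [e23] at hu0 hv1
  have hqsq : 0 < 1 / (x.den : ℝ) ^ 2 := by positivity
  have e12 : 1 / (2 * (x.den : ℝ) ^ 2) = 1 / 2 * (1 / (x.den : ℝ) ^ 2) := by field_simp
  rw [e12] at hlu hlv
  have hst : (x₁ : ℝ) ≤ x₂ := by linarith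
  have hgr : ∀ a ∈ grid B x₁ x₂, 10 / (B : ℝ) ≤ gR W.m ((a : ℚ) / B) / 8 := by
    intro a ha
    obtain ⟨-, g1, g2⟩ := mem_grid.1 ha
    unfold gR
    have hc : (((a : ℚ) / B : ℚ) : ℝ) = (a : ℝ) / B := by push_cast; rfl
    rw [hc]
    have h5 : 3 / 5 * (1 / (x.den : ℝ)) ≤ min ((a : ℝ) / B) (1 - (a : ℝ) / B) :=
      le_min (by linarith) (by linarith)
    have h6 : (3 / 5 * (1 / (x.den : ℝ))) ^ 2 ≤ (min ((a : ℝ) / B) (1 - (a : ℝ) / B)) ^ 2 :=
      pow_le_pow_left₀ (by positivity) h5 2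
    have h7 : 10 / (B : ℝ) ≤ 1 / 4 * (3 / 5 * (1 / (x.den : ℝ))) ^ 2 / W.m / 8 := by
      have e : 1 / 4 * (3 / 5 * (1 / (x.den : ℝ))) ^ 2 / W.m / 8 =
          (9 / 800) / (W.m * (x.den : ℝ) ^ 2) := by
        field_simp
        norm_num
      have e2 : 10 / (B : ℝ) = (1 / 200) / (W.m * (x.den : ℝ) ^ 2) := by
        rw [hBe]
        field_simp
        norm_num
      rw [e, e2]
      exact div_le_div_of_nonneg_right (by norm_num) (by positivity)
    refine h7.trans ?_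
    gcongr
  have hs : 1 / (B : ℝ) < x₁ := by linarith
  have ht : (x₂ : ℝ) < 1 - 1 / B := by linarith
  obtain ⟨k1, k2, k3⟩ := gates26 hG hW hB hst hs ht hgr
  have e6 : 6 / (2000 * (W.m : ℝ) * (x.den : ℝ) ^ 2) = 6 / B := by rw [hBe]
  refine ⟨grid B x₁ x₂, fun a => W.Gt ((a : ℚ) / B) (10 / B), fun a ha => (k1 a ha).2.2, ?_, ?_,
    ?_, ?_⟩
  · intro y g1 g2
    obtain ⟨a, ha, h5⟩ := k2 y g1 g2
    exact ⟨a, ha, h5 0 (by positivity) ⟨_, mem_closedBall_self le_rfl, rfl⟩⟩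
  · obtain ⟨a, ha, h5⟩ := k2 x₁ le_rfl hst
    refine ⟨a, ha, ?_⟩
    have h6 := h5 (6 / B) le_rfl
    rw [e6]
    unfold WS.Gt
    rw [axisPt_eq26]
    exact h6
  · obtain ⟨a, ha, h5⟩ := k2 x₂ hst le_rfl
    refine ⟨a, ha, ?_⟩
    have h6 := h5 (6 / B) le_rfl
    rw [e6]
    unfold WS.Gt
    rw [axisPt_eq26]
    exact h6
  · have hmeas : ∀ a ∈ grid B (x₁ : ℝ) x₂, MeasurableSet (W.Hf ((a : ℚ) / B) (10 / B)) :=
      fun a ha => (hG W hW ((a : ℚ) / B) (10 / B) (k1 a ha).1 (k1 a ha).2.1 (by positivity)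
        (hgr a ha)).1
    have hsub : ∀ a ∈ grid B (x₁ : ℝ) x₂,
        {L : ℂ | L ∈ ball (axisPt ((a : ℚ) / B)) (10 / B) ∧ L.re < 0} ⊆ HR W.m x := by
      rintro a ha L ⟨g3, g4⟩
      obtain ⟨-, g1, g2⟩ := mem_grid.1 ha
      rw [mem_ball, dist_eq_norm] at g3
      have g5 := (abs_re_le_norm _).trans_lt g3
      have g6 := (abs_im_le_norm _).trans_lt g3
      rw [sub_re, LimbData.axisPt_re, sub_zero] at g5
      rw [sub_im, LimbData.axisPt_im] at g6
      have hc : (((a : ℚ) / B : ℚ) : ℝ) = (a : ℝ) / B := by push_cast; rfl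
      rw [hc] at g6
      have hpi := Real.pi_gt_three
      refine ⟨?_, g4, ?_⟩
      · have e : -1 / (200 * (W.m : ℝ) * (x.den : ℝ) ^ 2) = -(10 / B) := by
          rw [hBe]
          field_simp
          norm_num
        rw [e]
        exact (abs_lt.1 g5).1
      · have g7 : |L.im / (2 * Real.pi) - (a : ℝ) / B| < 2 * (1 / B) := by
          have e : L.im / (2 * Real.pi) - (a : ℝ) / B =
              (L.im - 2 * Real.pi * ((a : ℝ) / B)) / (2 * Real.pi) := by
            field_simp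
          rw [e, abs_div, abs_of_pos (show (0 : ℝ) < 2 * Real.pi by positivity),
            div_lt_iff₀ (by positivity)]
          have e2 : 10 / (B : ℝ) = 10 * (1 / B) := by ring
          rw [e2] at g6
          have : 0 < 1 / (B : ℝ) := by positivity
          nlinarith
        rw [abs_lt] at g7 ⊢
        constructor <;> linarith
    have h5 := sum_halves26 hW hx0 hx1 hB (grid B x₁ x₂) hmeas hsub
    have h6 : ((x₂ : ℝ) - x₁) * B + 3 ≤ 2003 * W.m := by
      have h7 : ((x₂ : ℝ) - x₁) * B ≤ (1 / (x.den : ℝ) ^ 2) * B :=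
        mul_le_mul_of_nonneg_right (by linarith) hBR.le
      have e : (1 / (x.den : ℝ) ^ 2) * (B : ℝ) = 2000 * W.m := by
        rw [hBe]
        field_simp
      linarith
    have h7 : ENNReal.ofReal (∑ a ∈ grid B (x₁ : ℝ) x₂,
        (volume (W.Hf ((a : ℚ) / B) (10 / B))).toReal) ≤ 4 * volume (HH W x) := by
      rw [ENNReal.ofReal_sum_of_nonneg fun a _ => ENNReal.toReal_nonneg]
      exact (Finset.sum_le_sum fun a _ => ENNReal.ofReal_toReal_le).trans h5
    have h0 : 0 ≤ ∑ a ∈ grid B (x₁ : ℝ) x₂, (volume (W.Hf ((a : ℚ) / B) (10 / B))).toReal :=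
      Finset.sum_nonneg fun a _ => ENNReal.toReal_nonneg
    calc ENNReal.ofReal ((∑ a ∈ grid B (x₁ : ℝ) x₂, diam (W.Gt ((a : ℚ) / B) (10 / B))) ^ 2)
        ≤ ENNReal.ofReal (2003 * W.m * 10 ^ 12 *
            ∑ a ∈ grid B (x₁ : ℝ) x₂, (volume (W.Hf ((a : ℚ) / B) (10 / B))).toReal) := by
          refine ENNReal.ofReal_le_ofReal (k3.trans ?_)
          rw [← mul_assoc]
          exact mul_le_mul_of_nonneg_right (mul_le_mul_of_nonneg_right h6 (by norm_num)) h0
      _ = ENNReal.ofReal (2003 * W.m * 10 ^ 12) * ENNReal.ofReal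
            (∑ a ∈ grid B (x₁ : ℝ) x₂, (volume (W.Hf ((a : ℚ) / B) (10 / B))).toReal) := by
          rw [ENNReal.ofReal_mul (by positivity)]
      _ ≤ ENNReal.ofReal (2003 * W.m * 10 ^ 12) * (4 * volume (HH W x)) := by gcongr
      _ = ENNReal.ofReal (2003 * W.m * 10 ^ 12) * ENNReal.ofReal 4 * volume (HH W x) := by
          rw [show (4 : ℝ≥0∞) = ENNReal.ofReal 4 by simp, ← mul_assoc]
      _ = ENNReal.ofReal (2003 * W.m * 10 ^ 12 * 4) * volume (HH W x) := by
          rw [← ENNReal.ofReal_mul (by positivity)]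
      _ ≤ ENNReal.ofReal (10 ^ 16 * W.m) * volume (HH W x) := by
          refine mul_le_mul' (ENNReal.ofReal_le_ofReal ?_) le_rfl
          linarith

end Pool.Agent.Work.MLC.Cap
end

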