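import Pool.Agent.Work.MLCM.C38
import Pool.Agent.Work.MLCM.C60
import Pool.Agent.Work.MLCM.C61
import Pool.Agent.Work.MLCM.C71
import Pool.Agent.Work.MLCM.C72

section
set_option autoImplicit false

/-! # Theorem Cap, stage A: the exceptional set (helper6) -/

namespace Pool.Agent.Work.MLC.Cap

open Filter Topology Metric Set Complex MeasureTheory
open Pool.Agent.Work.MLC.Sat Pool.Agent.Work.MLC.Cnt
open scoped ENNReal

/-- `r` separates a point of the impression of the angle `t` from `0` -/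
def ImpSep (t : ℝ) (r : ℂ) : Prop := ∃ c ∈ Sep r, (c, t) ∈ closure {p : ℂ × ℝ | Ang p.1 p.2}

/-- the impression of an angle in the open arc -/
lemma imp_in {D : Dat} (hP : D.Par) (hC : D.Cir) {c : ℂ} {t : ℝ} (hM : c ∈ MM) {k : ℤ}
    (h1 : D.tm < t + k) (h2 : t + k < D.tp) (hc : (c, t) ∈ closure {p : ℂ × ℝ | Ang p.1 p.2}) :
    c ∈ insert (rt D) (Lm D) := by
  have h3 : c ∈ closure (Lm D ∪ {c' | ∃ θ, Ang c' θ ∧ D.tm ≤ θ ∧ θ ≤ D.tp}) := by
    rw [mem_closure_iff_frequently]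
    have h4 : Tendsto (fun p : ℂ × ℝ => p.2 + k) (𝓝 (c, t)) (𝓝 (t + k)) :=
      Continuous.tendsto (by fun_prop) (c, t)
    have h5 := ((mem_closure_iff_frequently.1 hc).and_eventually
      ((h4.eventually (lt_mem_nhds h1)).and (h4.eventually (gt_mem_nhds h2))))
    exact (continuous_fst.tendsto (c, t)).frequently (p := fun c' =>
      c' ∈ Lm D ∪ {c' | ∃ θ, Ang c' θ ∧ D.tm ≤ θ ∧ θ ≤ D.tp}) (h5.mono fun p hp =>
        Or.inr ⟨p.2 + k, Ang.add_int hp.1 k, hp.2.1.le, hp.2.2.le⟩)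
  rcases n5_closed D hP hC c hM h3 with h4 | h4
  · exact Or.inr h4
  · exact Or.inl h4

/-- the diameter of the limb with its root -/
lemma diam_limb {D : Dat} (hP : D.Par) (hC : D.Cir) :
    diam (insert (rt D) (Lm D)) = diam (Lm D) := by
  have hb : Bornology.IsBounded (insert (rt D) (Lm D)) := (isCompact_limb hP hC).isBounded
  refine le_antisymm ?_ (diam_mono (subset_insert _ _) hb)
  rcases (Lm D).eq_empty_or_nonempty with h | h
  · rw [h]; simp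
  have hcl : insert (rt D) (Lm D) ⊆ closure (Lm D) := by
    refine insert_subset ?_ subset_closure
    by_contra hcon
    obtain ⟨r, hr, hr0⟩ := Metric.mem_nhds_iff.1 (isClosed_closure.isOpen_compl.mem_nhds hcon)
    obtain ⟨z, hz, h1, h2⟩ := isPreconnected_limb hP hC (ball (rt D) r) {z | z ≠ rt D}
      isOpen_ball isOpen_ne (fun z hz => by
        by_cases h0 : z = rt D
        · exact Or.inl (h0 ▸ mem_ball_self hr)
        · exact Or.inr h0) ⟨rt D, Or.inl rfl, mem_ball_self hr⟩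
      (by
        obtain ⟨y, hy⟩ := h
        exact ⟨y, Or.inr hy, fun h0 => Cnt.rt_notMem hP hC (h0 ▸ hy)⟩)
    rcases hz with h3 | h3
    · exact h2 h3
    · exact hr0 h1 (subset_closure h3)
  calc diam (insert (rt D) (Lm D)) ≤ diam (closure (Lm D)) :=
        diam_mono hcl (hb.subset (subset_insert _ _)).closure
    _ = _ := diam_closure _

/-- **the impression of an angle in infinitely many open arcs of small limbs** -/
theorem lc_of_small {t : ℝ} {S : Set RT} (hS : S.Infinite)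
    (hSt : ∀ r ∈ S, ∃ k : ℤ, (rd r).D.tm < t + k ∧ t + k < (rd r).D.tp)
    (hsm : ∀ δ > 0, {r | r ∈ S ∧ δ ≤ dm r}.Finite) : ∃ c₀ ∈ MM,
      Tendsto Psi (𝓝[{z | 1 < ‖z‖}] (Complex.exp (2 * Real.pi * t * Complex.I))) (𝓝 c₀) ∧
      LCat MM c₀ := by
  classical
  set K : RT → Set ℂ := fun r => insert (rt (rd r).D) (Lm (rd r).D) with hK
  have hKc : ∀ r, IsCompact (K r) := fun r => isCompact_limb (rd r).par (rd r).cir
  have hKb : ∀ r, Bornology.IsBounded (K r) := fun r => (hKc r).isBounded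
  have hKd : ∀ r, diam (K r) ≤ dm r := fun r => (diam_limb (rd r).par (rd r).cir).le
  have hsmall : ∀ δ > 0, ∃ r ∈ S, dm r < δ ∧ ∀ c : ℂ, ∃ r' ∈ S, dm r' < δ ∧ c ≠ rt (rd r').D := by
    intro δ hδ
    have h1 : (S \ {r | r ∈ S ∧ δ ≤ dm r}).Infinite := hS.diff (hsm δ hδ)
    obtain ⟨r, hr⟩ := h1.nonempty
    refine ⟨r, hr.1, ?_, fun c => ?_⟩
    · by_contra h2
      exact hr.2 ⟨hr.1, not_lt.1 h2⟩
    · obtain ⟨r', hr', r'', hr'', hne⟩ := h1.nontrivial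
      have key : ∀ r' ∈ S \ {r | r ∈ S ∧ δ ≤ dm r}, dm r' < δ := by
        intro r' hr'
        by_contra h2
        exact hr'.2 ⟨hr'.1, not_lt.1 h2⟩
      by_cases hc : c = rt (rd r').D
      · refine ⟨r'', hr''.1, key _ hr'', ?_⟩
        intro h3
        rw [rt_rd] at hc h3
        exact hne (Subtype.ext (hc.symm.trans h3))
      · exact ⟨r', hr'.1, key _ hr', hc⟩
  have himp : ∀ c ∈ MM, (c, t) ∈ closure {p : ℂ × ℝ | Ang p.1 p.2} → ∀ r ∈ S, c ∈ K r := by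
    intro c hc hcl r hr
    obtain ⟨k, h1, h2⟩ := hSt r hr
    exact imp_in (rd r).par (rd r).cir hc h1 h2 hcl
  have huniq : ∀ c c' : ℂ, (∀ r ∈ S, c ∈ K r) → (∀ r ∈ S, c' ∈ K r) → c = c' := by
    intro c c' h h'
    by_contra hne
    have hd : 0 < dist c c' := dist_pos.2 hne
    obtain ⟨r, hr, h1, -⟩ := hsmall _ hd
    have h2 := dist_le_diam_of_mem (hKb r) (h r hr) (h' r hr)
    linarith [hKd r]
  have hseq : ∀ (g u : ℕ → ℝ) (c : ℂ), (∀ n, 0 < g n) → Tendsto g atTop (𝓝 0) →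
      Tendsto u atTop (𝓝 t) →
      Tendsto (fun n => cOf ((g n : ℂ) + 2 * Real.pi * u n * Complex.I)) atTop (𝓝 c) →
      c ∈ MM ∧ ∀ r ∈ S, c ∈ K r := by
    intro g u c hg hg0 hu hc
    have hcM : c ∈ MM := by
      refine mem_MM_of_tendsto (u := fun n => (g n : ℂ) + 2 * Real.pi * u n * Complex.I)
        (fun n => ?_) ?_ hc
      · have := CH.re_pt (g n) (u n)
        rw [this]; exact hg n
      · refine hg0.congr fun n => ?_
        exact (CH.re_pt (g n) (u n)).symm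
    refine ⟨hcM, himp c hcM ?_⟩
    have h1 : Tendsto (fun n => (cOf ((g n : ℂ) + 2 * Real.pi * u n * Complex.I), u n)) atTop
        (𝓝 (c, t)) := hc.prodMk_nhds hu
    refine mem_closure_of_tendsto h1 (Eventually.of_forall fun n => ?_)
    exact (ang_cOf (hg n)).1
  -- a limit point
  obtain ⟨c₀, φ, hφ, hc₀⟩ := exists_limit_cOf
    (u := fun n => ((1 / ((n : ℝ) + 1) : ℝ) : ℂ) + 2 * Real.pi * t * Complex.I)
    (fun n => by rw [CH.re_pt]; positivity)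
    (fun n => by
      rw [CH.re_pt, div_le_one (by positivity)]
      linarith [(Nat.cast_nonneg n : (0 : ℝ) ≤ n)])
  obtain ⟨hc₀M, hc₀K⟩ := hseq (fun n => 1 / ((φ n : ℝ) + 1)) (fun _ => t) c₀
    (fun n => by positivity) (tendsto_one_div_add_atTop_nhds_zero_nat.comp hφ.tendsto_atTop)
    tendsto_const_nhds hc₀
  refine ⟨c₀, hc₀M, ?_, ?_⟩
  · refine tendsto_Psi_of_unique fun g u c hg hg0 hu hc => ?_
    exact huniq c c₀ (hseq g u c hg hg0 hu hc).2 hc₀K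
  · intro U hU
    obtain ⟨ε, hε, hεU⟩ := Metric.mem_nhds_iff.1 hU
    obtain ⟨-, -, -, h1⟩ := hsmall ε hε
    obtain ⟨r, hr, h2, h3⟩ := h1 c₀
    have h4 : c₀ ∈ Lm (rd r).D := by
      rcases hc₀K r hr with h | h
      · exact absurd h h3
      · exact h
    refine ⟨K r, fun z hz => ⟨?_, hεU ?_⟩, hKc r,
      ⟨⟨c₀, hc₀K r hr⟩, isPreconnected_limb (rd r).par (rd r).cir⟩, ?_⟩
    · exact insert_subset (Cnt.rt_mem_MM (rd r).par) lm_subset hz
    · have h5 := dist_le_diam_of_mem (hKb r) hz (hc₀K r hr)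
      rw [mem_ball]
      linarith [hKd r]
    · rw [mem_nhdsWithin_iff_eventually]
      filter_upwards [lm_open (rd r).par (rd r).cir h4] with w hw hwM
      exact Or.inr (hw hwM)

/-- **the exceptional set** -/
theorem cap_final {C : ℝ} (h : C_limbsum C) {ε : ℝ} (hε : 0 < ε) :
    ∃ a l : ℕ → ℝ, (∀ i, 0 < l i ∧ l i < 1) ∧ Summable (fun i => 1 / Real.log (1 / l i)) ∧
      ∑' i, 1 / Real.log (1 / l i) < ε ∧
      ∀ t ∈ Ico (0 : ℝ) 1, (∀ i, t ∉ Icc (a i) (a i + l i)) →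
        {r | r ∈ RT ∧ ImpSep t r}.Infinite → ∃ c₀ ∈ MM,
          Tendsto Psi (𝓝[{z | 1 < ‖z‖}] (Complex.exp (2 * Real.pi * t * Complex.I))) (𝓝 c₀) ∧
          LCat MM c₀ := by
  classical
  haveI : Countable RT := countable_RT.to_subtype
  have hε2 : ENNReal.ofReal (ε / 2) ≠ 0 := by
    rw [Ne, ENNReal.ofReal_eq_zero, not_le]; linarith
  have hε3 : ENNReal.ofReal (ε / 2 / 5) ≠ 0 := by
    rw [Ne, ENNReal.ofReal_eq_zero, not_le]; linarith
  obtain ⟨B, hB1, hB2⟩ := pure_tail (d := dm) (w := fun r => (rd r).wt)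
    (fun r => (rd r).wt_pos.le) (summable_dm h) hε3
  obtain ⟨l, hl, hlsum⟩ := exists_tiny hε2
  -- the ends
  set Z : Set ℝ := ⋃ (r : RT) (k : ℤ), {(rd r).D.tm + k, (rd r).D.tp + (k : ℝ)} with hZ
  have hZc : Z.Countable :=
    countable_iUnion fun r => countable_iUnion fun k => (Set.toFinite _).countable
  obtain ⟨e, he⟩ : ∃ e : ℕ → ℝ, Z ⊆ range e := by
    rcases Z.eq_empty_or_nonempty with h | h
    · exact ⟨fun _ => 0, by rw [h]; exact empty_subset _⟩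
    · obtain ⟨e, he⟩ := hZc.exists_eq_range h
      exact ⟨e, he.le⟩
  set aa : B ⊕ ℕ → ℝ := Sum.elim (fun r => Int.fract (rd r.1).D.tm) e with haa
  set ll : B ⊕ ℕ → ℝ := Sum.elim (fun r => (rd r.1).len) l with hll
  have hll1 : ∀ b, 0 < ll b ∧ ll b < 1 := by
    rintro (r | i)
    · exact ⟨(rd r.1).len_pos, (rd r.1).len_lt⟩
    · exact hl i
  have hsum : ∑' b, ENNReal.ofReal (1 / Real.log (1 / ll b)) < ENNReal.ofReal ε := by
    rw [ENNReal.summable.tsum_sum ENNReal.summable]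
    have h1 : ∑' r : B, ENNReal.ofReal (1 / Real.log (1 / ll (Sum.inl r))) ≤
        5 * ∑' r : B, ENNReal.ofReal (rd r.1).wt := by
      rw [← ENNReal.tsum_mul_left]
      refine ENNReal.tsum_le_tsum fun r => ?_
      have h2 := (rd r.1).gauge_le
      have h3 : (5 : ℝ≥0∞) = ENNReal.ofReal 5 := by simp
      rw [h3, ← ENNReal.ofReal_mul (by norm_num)]
      exact ENNReal.ofReal_le_ofReal h2
    have h2 : ∑' i : ℕ, ENNReal.ofReal (1 / Real.log (1 / ll (Sum.inr i))) <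
        ENNReal.ofReal (ε / 2) := hlsum
    have h3 : 5 * ∑' r : B, ENNReal.ofReal (rd r.1).wt ≤ ENNReal.ofReal (ε / 2) := by
      refine (mul_le_mul_right hB1.le 5).trans (le_of_eq ?_)
      have h3 : (5 : ℝ≥0∞) = ENNReal.ofReal 5 := by simp
      rw [h3, ← ENNReal.ofReal_mul (by norm_num)]
      congr 1; ring
    have h4 : ENNReal.ofReal ε = ENNReal.ofReal (ε / 2) + ENNReal.ofReal (ε / 2) := by
      rw [← ENNReal.ofReal_add (by linarith) (by linarith)]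
      congr 1; ring
    rw [h4]
    exact ENNReal.add_lt_add_of_le_of_lt (ne_top_of_le_ne_top ENNReal.ofReal_ne_top
      (h1.trans h3)) (h1.trans h3) h2
  obtain ⟨a', l', h1, h2, h3, h4⟩ := to_seq aa ll hll1 hsum
  refine ⟨a', l', h1, h2, h3, fun t ht hta hinf => ?_⟩
  have hb : ∀ b, t ∉ Icc (aa b) (aa b + ll b) := by
    intro b hb
    obtain ⟨i, hi1, hi2⟩ := h4 b
    exact hta i (by rw [hi1, hi2]; exact hb)
  have htZ : t ∉ Z := by
    intro h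
    obtain ⟨i, hi⟩ := he h
    refine hb (Sum.inr i) ⟨hi.le, ?_⟩
    show t ≤ e i + l i
    rw [hi]; linarith [(hl i).1]
  -- the roots whose open arcs contain `t`
  set S : Set RT := {r | ∃ k : ℤ, (rd r).D.tm < t + k ∧ t + k < (rd r).D.tp} with hS
  have hS1 : ∀ r : RT, (∃ k : ℤ, (rd r).D.tm ≤ t + k ∧ t + k ≤ (rd r).D.tp) → r ∈ S := by
    rintro r ⟨k, k1, k2⟩
    refine ⟨k, lt_of_le_of_ne k1 fun h5 => htZ ?_, lt_of_le_of_ne k2 fun h5 => htZ ?_⟩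
    · refine mem_iUnion₂.2 ⟨r, -k, Or.inl ?_⟩
      push_cast; linarith
    · refine mem_iUnion₂.2 ⟨r, -k, Or.inr ?_⟩
      show t = (rd r).D.tp + ((-k : ℤ) : ℝ)
      push_cast; linarith
  have hSinf : S.Infinite := by
    intro hfin
    refine hinf ((hfin.image Subtype.val).subset ?_)
    rintro r ⟨hr, c, hc, hcl⟩
    refine ⟨⟨r, hr⟩, hS1 _ ?_, rfl⟩
    have h5 : c ∈ Lm (rd ⟨r, hr⟩).D := by
      rw [← Cnt.n6_sep (rd ⟨r, hr⟩).D (rd ⟨r, hr⟩).par (rd ⟨r, hr⟩).cir, rt_rd]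
      exact hc
    exact imp_mem (rd ⟨r, hr⟩).par (rd ⟨r, hr⟩).cir h5 hcl
  have hSB : ∀ r ∈ S, r ∉ B := by
    rintro r ⟨k, k1, k2⟩ hrB
    refine hb (Sum.inl ⟨r, hrB⟩) ?_
    show Int.fract (rd r).D.tm ≤ t ∧ t ≤ Int.fract (rd r).D.tm + ((rd r).D.tp - (rd r).D.tm)
    obtain ⟨f1, f2⟩ := floor_plateau (rd r).par (rd r).cir
    have hk : k = ⌊(rd r).D.tm⌋ := by
      have e1 : (⌊(rd r).D.tm⌋ : ℝ) < k + 1 := by linarith [ht.2]
      have e2 : (k : ℝ) < ⌊(rd r).D.tm⌋ + 1 := by linarith [ht.1]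
      have e3 : ⌊(rd r).D.tm⌋ < k + 1 := by exact_mod_cast e1
      have e4 : k < ⌊(rd r).D.tm⌋ + 1 := by exact_mod_cast e2
      omega
    rw [hk] at k1 k2
    have := Int.self_sub_floor (rd r).D.tm
    constructor <;> linarith
  refine lc_of_small hSinf (fun r hr => hr) fun δ hδ => ?_
  exact (hB2 δ hδ).subset fun r hr => ⟨hSB r hr.1, hr.2⟩

end Pool.Agent.Work.MLC.Cap
end

section
set_option autoImplicit false

/-! # The two cuts with small exponents, part 3: the bound on the barrier (helper49) -/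

namespace Pool.Agent.Work.MLC.Pri

open Filter Topology Metric Set Complex
open PriHar (Oth)

/-- the multipliers over `c` are not close to `1` -/
def BdE (N : ℕ) (K : ℝ) (c : ℂ) : Prop := ∀ n b, 0 < n → n ≤ N → (c, b) ∈ Per n → Exa n (c, b) →
  mul n (c, b) ≠ 1 ∧ ‖1 / (mul n (c, b) - 1)‖ ≤ K

/-- the reference bound at all potentials of size `exp (- O (N ^ 3))` -/
def RefAll (N : ℕ) (K₀ : ℝ) : Prop := ∀ g : ℝ, 0 < g → g ≤ 4 →
  |Real.log g| ≤ 14000 * (N : ℝ) ^ 3 → RefB N g K₀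

/-- the constant of the barrier -/
noncomputable def KE (N : ℕ) (K₀ : ℝ) : ℝ :=
  4224 * (N : ℝ) * (9 * K₀ + 6 + 432 * (N : ℝ) ^ 3) + 1 + 1728 * (N : ℝ) ^ 3

/-- the sector data of a wide section, depth `δ` -/
def vdatE (m : ℕ) (w : ℕ → ℤ) (k : ℤ) (σ : ℂ → ℂ × ℂ) (x₁ x₂ θ₁ θ₂ δ : ℝ) : Sat.VDat :=
  ⟨m, w, k, σ, D0 m, x₁, x₂, θ₁, θ₂, δ⟩

lemma vdatE_ok {m : ℕ} {w : ℕ → ℤ} {k : ℤ} {σ : ℂ → ℂ × ℂ} (hV : Wide m w k σ)
    {x₁ x₂ θ₁ θ₂ δ : ℝ} (hδ : 0 < δ) (h0 : 0 < x₁) (h12 : x₁ < x₂) (h1 : x₂ < 1)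
    (hn₁ : Circ.nu w m θ₁ = k + x₁) (hn₂ : Circ.nu w m θ₂ = k + x₂) :
    (vdatE m w k σ x₁ x₂ θ₁ θ₂ δ).Ok where
  m_pos := hV.pos
  bits := hV.bits
  x₁_pos := h0
  lt := h12
  x₂_lt := h1
  δ_pos := hδ
  nu₁ := hn₁
  nu₂ := hn₂
  good := goodDom_D0 hV.pos
  rect := by
    intro L _ h3 h4 h5
    have hpi := Real.pi_pos
    have h4' : 2 * Real.pi * x₁ ≤ L.im := h4
    have h5' : L.im ≤ 2 * Real.pi * x₂ := h5
    have : 2 * Real.pi * x₂ < 2 * Real.pi * 1 := mul_lt_mul_of_pos_left h1 (by positivity)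
    exact strip_mem_D0 hV.pos h3 (lt_of_lt_of_le (by positivity) h4') (by linarith)
  cont := hV.cont
  sec := hV.sec
  lab := by
    intro L hL hre
    exact (hV.lab L hL hre).2 θ₁ (by rw [hn₁]; linarith) (by rw [hn₁]; linarith)

/-! ### the constants -/

section

variable {N m Q : ℕ}

lemma MM'_le3 (hm : 0 < m) (hmN : m ≤ N) : ((MM' N m : ℕ) : ℝ) ≤ 3 * N := by
  have h1 := MM'_le N m
  have : MM' N m ≤ 3 * N := by omega
  exact_mod_cast this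

lemma mMM'_le3 (hmN : m ≤ N) : (m : ℝ) * ((MM' N m : ℕ) : ℝ) ≤ 3 * N := by
  exact_mod_cast mul_MM'_le hmN

/-- the constants fit together -/
lemma const_le (hm : 0 < m) (hmN : m ≤ N) (hQ : 0 < Q) (hQM : Q ≤ MM' N m) {K₀ : ℝ}
    (hK : 0 ≤ K₀) :
    1408 * (m : ℝ) * ((MM' N m : ℕ) : ℝ) * (9 * K₀ + 6 + 2 / rE m Q (MM' N m)) + 1 +
      8 / rE m Q (MM' N m) ≤ KE N K₀ := by
  have hM := two_le_MM' N m
  set M := MM' N m with hMd
  have hM2 : (2 : ℝ) ≤ M := by exact_mod_cast hM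
  have hm1 : (1 : ℝ) ≤ m := by exact_mod_cast hm
  have hN1 : (1 : ℝ) ≤ N := by exact_mod_cast hm.trans_le hmN
  have hQ1 : (1 : ℝ) ≤ Q := by exact_mod_cast hQ
  have hQMr : (Q : ℝ) ≤ M := by exact_mod_cast hQM
  have h1 : (m : ℝ) * M ≤ 3 * N := mMM'_le3 hmN
  have h2 : (M : ℝ) ≤ 3 * N := MM'_le3 hm hmN
  have h3 : 2 / rE m Q M = 16 * m * (Q * (M : ℝ) ^ 2) := by unfold rE; field_simp; norm_num
  have h4 : 8 / rE m Q M = 64 * m * (Q * (M : ℝ) ^ 2) := by unfold rE; field_simp; norm_num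
  have h6 : (m : ℝ) * (Q * (M : ℝ) ^ 2) ≤ 27 * (N : ℝ) ^ 3 := by
    calc (m : ℝ) * (Q * (M : ℝ) ^ 2) ≤ (m : ℝ) * ((M : ℝ) * (M : ℝ) ^ 2) := by gcongr
      _ = ((m : ℝ) * M) * M * M := by ring
      _ ≤ (3 * (N : ℝ)) * (3 * N) * (3 * N) := by gcongr
      _ = _ := by ring
  have h7 : 2 / rE m Q M ≤ 432 * (N : ℝ) ^ 3 := by rw [h3]; linarith
  have h8 : 8 / rE m Q M ≤ 1728 * (N : ℝ) ^ 3 := by rw [h4]; linarith
  have h9 : 1408 * (m : ℝ) * M ≤ 4224 * (N : ℝ) := by linarith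
  have h10 : 0 < 2 / rE m Q M := div_pos two_pos (rE_pos hm hQ hM)
  unfold KE
  gcongr

lemma KE_ge (hm : 0 < m) (hmN : m ≤ N) (hQ : 0 < Q) (hQM : Q ≤ MM' N m) {K₀ : ℝ}
    (hK : 0 ≤ K₀) : 9 * K₀ + 5 + 2 / rE m Q (MM' N m) ≤ KE N K₀ := by
  refine le_trans ?_ (const_le hm hmN hQ hQM hK)
  have hM := two_le_MM' N m
  set M := MM' N m with hMd
  have hM2 : (2 : ℝ) ≤ M := by exact_mod_cast hM
  have hm1 : (1 : ℝ) ≤ m := by exact_mod_cast hm
  have h1 : 1 ≤ 1408 * (m : ℝ) * M := by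
    have := mul_le_mul hm1 hM2 (by norm_num) (by linarith : (0 : ℝ) ≤ m)
    linarith
  have h2 : 0 < 2 / rE m Q M := div_pos two_pos (rE_pos hm hQ hM)
  have h3 : 0 < 8 / rE m Q M := div_pos (by norm_num) (rE_pos hm hQ hM)
  have h4 : 0 ≤ 9 * K₀ + 6 + 2 / rE m Q M := by positivity
  have h5 := mul_le_mul_of_nonneg_right h1 h4
  linarith

/-- the reference bound applies -/
lemma ref_ok (hm : 0 < m) (hmN : m ≤ N) (hQM : Q ≤ MM' N m) {K₀ : ℝ} (hK : RefAll N K₀)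
    {D : Sat.Dat} (hP : D.Par)
    (hC : D.Cir) (hDm : D.m = m) (hden : D.x.den ≤ 2 ^ 9 * (m ^ 2 * (Q * MM' N m ^ 2))) :
    RefB N (gE D) K₀ := by
  refine hK _ (gE_pos hC) (by linarith [gE_lt hC]) ((log_gE hP hC).trans ?_)
  have hN1 : (1 : ℝ) ≤ N := by exact_mod_cast hm.trans_le hmN
  have h1 : (m : ℝ) * ((MM' N m : ℕ) : ℝ) ≤ 3 * N := mMM'_le3 hmN
  have hQMr : (Q : ℝ) ≤ ((MM' N m : ℕ) : ℝ) := by exact_mod_cast hQM
  have hd : (D.x.den : ℝ) ≤ 2 ^ 9 * ((m : ℝ) ^ 2 * (Q * ((MM' N m : ℕ) : ℝ) ^ 2)) := by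
    exact_mod_cast hden
  have hN3 : (1 : ℝ) ≤ (N : ℝ) ^ 3 := one_le_pow₀ hN1
  rw [hDm]
  calc (m : ℝ) * D.x.den + 2 ≤ m * (2 ^ 9 * ((m : ℝ) ^ 2 * (Q * ((MM' N m : ℕ) : ℝ) ^ 2))) + 2 := by
        gcongr
    _ ≤ m * (2 ^ 9 * ((m : ℝ) ^ 2 * (((MM' N m : ℕ) : ℝ) * ((MM' N m : ℕ) : ℝ) ^ 2))) + 2 := by
        gcongr
    _ = 2 ^ 9 * ((m : ℝ) * ((MM' N m : ℕ) : ℝ)) ^ 3 + 2 := by ring
    _ ≤ 2 ^ 9 * (3 * (N : ℝ)) ^ 3 + 2 := by gcongr
    _ ≤ _ := by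
        have e : (3 * (N : ℝ)) ^ 3 = 27 * N ^ 3 := by ring
        rw [e]
        linarith

end

/-- **one cut** -/
theorem one_cutE {N m : ℕ} {w : ℕ → ℤ} {k : ℤ} {σ : ℂ → ℂ × ℂ} (hV : Wide m w k σ)
    (hex : ∀ L ∈ D0 m, Exa m (σ L)) (hE3 : RepE N) {K₀ : ℝ} (hK0 : 0 ≤ K₀) (hK : RefAll N K₀)
    (hmN : m ≤ N) {Q : ℕ} (hQ : 0 < Q) (hQM : Q ≤ MM' N m) {x : ℚ}
    (h0 : 1 / (2 * (Q : ℝ)) ≤ x) (h1 : (x : ℝ) ≤ 1 - 1 / (2 * (Q : ℝ)))
    (hF : FarE Q (MM' N m) x) (hden : 2 ^ 8 * (m ^ 2 * (Q * MM' N m ^ 2)) ≤ x.den)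
    (hden' : x.den ≤ 2 ^ 9 * (m ^ 2 * (Q * MM' N m ^ 2))) :
    ∃ θ : ℝ, Circ.nu w m θ = k + x ∧ (∀ c, Ang c θ → BdE N (KE N K₀) c) ∧
      (∀ L, dist L (axisPt x) ≤ rE m Q (MM' N m) / 2 → L ∈ D0 m ∧ BdE N (KE N K₀) (σ L).1) ∧
      ∀ L ∈ D0 m, L.re ≤ -(rE m Q (MM' N m) / 4) →
        -(1 / ((Q : ℝ) * ((MM' N m : ℕ) : ℝ))) ≤ L.re →
        (L.im = 2 * Real.pi * x ∨ (L.re = -(1 / ((Q : ℝ) * ((MM' N m : ℕ) : ℝ))) ∧
          |L.im - 2 * Real.pi * x| ≤ 2 * Real.pi / ((Q : ℝ) * ((MM' N m : ℕ) : ℝ)))) →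
        BdE N (KE N K₀) (σ L).1 := by
  have hm := hV.pos
  obtain ⟨D, hC, hc, rfl, rfl, hnu, hσ, τ, hτ, hτ', hτσ, hστ⟩ :=
    exists_cutE hV hex hE3 hmN hQ hQM h0 h1 hF hden
  set M := MM' N D.m with hMd
  have hM : 2 ≤ M := two_le_MM' N D.m
  have hM2 : (2 : ℝ) ≤ M := by exact_mod_cast hM
  have hQ1 : (1 : ℝ) ≤ Q := by exact_mod_cast hQ
  have hm1 : (1 : ℝ) ≤ D.m := by exact_mod_cast hm
  have hr : 0 < rE D.m Q M := rE_pos hm hQ hM
  have hRef : RefB N (gE D) K₀ := ref_ok hm hmN hQM hK hc.par hC rfl hden'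
  have hge : 9 * K₀ + 5 + 2 / rE D.m Q M ≤ KE N K₀ := KE_ge hm hmN hQ hQM hK0
  refine ⟨th D, hnu, ?_, ?_, ?_⟩
  · intro c hA n b hn hnN hb hx
    refine ⟨?_, (hc.ray_bound hK0 hRef hn hnN hA ⟨hb, hx⟩).trans hge⟩
    have h3 := one_lt_norm_mult_of_ext hn hA.1 hb
    rw [mult_eq_mul] at h3
    intro h4
    rw [h4, norm_one] at h3
    exact lt_irrefl _ h3
  · intro L hL
    have hLb : L ∈ ball D.a (rE D.m Q M) := mem_ball.2 (by
      have : dist L D.a ≤ rE D.m Q M / 2 := hL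
      linarith)
    have hLB : L ∈ D.B := hc.ball_sub hLb
    refine ⟨ball_subset_D0 hc.par.m_pos hc.par.x_pos hc.par.x_lt hLB, ?_⟩
    intro n b hn hnN hb hx
    rw [← hσ L] at hb hx ⊢
    exact ⟨hc.disc_ne hn hnN hLb hb, (hc.disc_bound hK0 hRef hn hnN hL ⟨hb, hx⟩).trans hge⟩
  · intro L hL hre hreM him n b hn hnN hb hx
    have hLl : L.re < 0 := by linarith
    rw [hστ L hL hLl] at hb hx ⊢
    refine ⟨hc.left_ne hτ hτ' hτσ hn hnN hLl hb, ?_⟩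
    refine (hc.left_bound hK0 hRef hτ hτ' hτσ hn hnN (F := 1408 * (D.m : ℝ) * (M : ℝ)) hre
      (by positivity) ?_ ⟨hb, hx⟩).trans (const_le hm hmN hQ hQM hK0)
    -- the Harnack factor
    have e0 : (L + (starRingEnd ℂ) (LpE (rE D.m Q M) D)).re = -(-L.re + rE D.m Q M / 4) := by
      rw [Complex.add_re, Complex.conj_re, LpE_re]; ring
    have e1 : (L + (starRingEnd ℂ) (LpE (rE D.m Q M) D)).im = L.im - 2 * Real.pi * D.x := by
      rw [Complex.add_im, Complex.conj_im, LpE_im]; ring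
    have e2 : ‖L + (starRingEnd ℂ) (LpE (rE D.m Q M) D)‖ ^ 2 =
        (-L.re + rE D.m Q M / 4) ^ 2 + (L.im - 2 * Real.pi * D.x) ^ 2 := by
      rw [← Complex.normSq_eq_norm_sq, Complex.normSq_apply, e0, e1]; ring
    rw [e2]
    set h : ℝ := 1 / ((Q : ℝ) * (M : ℝ)) with hh
    have hh0 : 0 < h := by positivity
    have hs : rE D.m Q M / 4 ≤ -L.re := by linarith
    have hF1 : 1408 * (D.m : ℝ) * (M : ℝ) * rE D.m Q M = 176 * h := by
      rw [hh]; unfold rE; field_simp; norm_num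
    have hR : 1408 * (D.m : ℝ) * (M : ℝ) * (-L.re * (rE D.m Q M / 4)) = 44 * h * -L.re := by
      calc _ = (1408 * (D.m : ℝ) * (M : ℝ) * rE D.m Q M) * (-L.re / 4) := by ring
        _ = _ := by rw [hF1]; ring
    rw [hR]
    have hs0 : 0 < -L.re := by linarith
    have hsM : -L.re ≤ h := by linarith
    have h2 : (-L.re + rE D.m Q M / 4) ^ 2 ≤ 4 * h * -L.re := by
      have h3 : -L.re + rE D.m Q M / 4 ≤ 2 * -L.re := by linarith
      have h4 : 0 ≤ -L.re + rE D.m Q M / 4 := by linarith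
      calc (-L.re + rE D.m Q M / 4) ^ 2 ≤ (2 * -L.re) ^ 2 := pow_le_pow_left₀ h4 h3 2
        _ = 4 * -L.re * -L.re := by ring
        _ ≤ 4 * h * -L.re := by gcongr
    have h14 : 44 * h * -L.re = 4 * h * -L.re + 40 * h * -L.re := by ring
    rw [h14]
    refine add_le_add h2 ?_
    rcases him with g | ⟨g, g'⟩
    · rw [g, sub_self, zero_pow two_ne_zero]
      exact mul_nonneg (by positivity) hs0.le
    · rw [g, neg_neg, ← sq_abs]
      have hpi : Real.pi ^ 2 ≤ 10 := by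
        have := Real.pi_lt_d2
        have := Real.pi_pos
        calc Real.pi ^ 2 ≤ 3.15 ^ 2 := pow_le_pow_left₀ Real.pi_pos.le (by linarith) 2
          _ ≤ 10 := by norm_num
      have e5 : 2 * Real.pi / ((Q : ℝ) * (M : ℝ)) = 2 * Real.pi * h := by rw [hh]; ring
      rw [e5] at g'
      calc |L.im - 2 * Real.pi * D.x| ^ 2 ≤ (2 * Real.pi * h) ^ 2 :=
            pow_le_pow_left₀ (abs_nonneg _) g' 2
        _ = 4 * Real.pi ^ 2 * h * h := by ring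
        _ ≤ 4 * 10 * h * h := by gcongr
        _ = _ := by ring

/-- **the two cuts: the bound on the barrier** -/
theorem barE {N m : ℕ} {w : ℕ → ℤ} {k : ℤ} {σ : ℂ → ℂ × ℂ} (hV : Wide m w k σ)
    (hex : ∀ L ∈ D0 m, Exa m (σ L)) (hE3 : RepE N) {K₀ : ℝ} (hK0 : 0 ≤ K₀) (hK : RefAll N K₀)
    (hmN : m ≤ N) {x : ℚ} (h0 : 0 < x) (h1 : x < 1) (hx : x.den ≤ MM' N m) :
    ∃ (x₁ x₂ : ℚ) (θ₁ θ₂ : ℝ), 0 < x₁ ∧ x₁ < x ∧ x < x₂ ∧ x₂ < 1 ∧
      (x : ℝ) - x₁ < 1 / (2 * (x.den : ℝ) * ((MM' N m : ℕ) : ℝ)) ∧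
      (x₂ : ℝ) - x < 1 / (2 * (x.den : ℝ) * ((MM' N m : ℕ) : ℝ)) ∧
      (∀ y : ℚ, y.den ≤ MM' N m → (x₁ : ℝ) ≤ y → (y : ℝ) ≤ x₂ → y = x) ∧
      Circ.nu w m θ₁ = k + x₁ ∧ Circ.nu w m θ₂ = k + x₂ ∧
      ∀ c ∈ (vdatE m w k σ x₁ x₂ θ₁ θ₂ (1 / ((x.den : ℝ) * ((MM' N m : ℕ) : ℝ)))).BarV,
        BdE N (KE N K₀) c := by
  have hm := hV.pos
  have hM : 2 ≤ MM' N m := two_le_MM' N m
  obtain ⟨x₁, x₂, a1, a2, a3, a4, a5, a6, a7, a8, a9, a10, a11, a12, a13, a14⟩ :=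
    exists_valuesE hM hm h0 h1 hx
  have hQ : 0 < x.den := x.pos
  have hM2 : (2 : ℝ) ≤ ((MM' N m : ℕ) : ℝ) := by exact_mod_cast hM
  have hm1 : (1 : ℝ) ≤ m := by exact_mod_cast hm
  have hQ1 : (1 : ℝ) ≤ x.den := by exact_mod_cast hQ
  have hQMr : (x.den : ℝ) ≤ ((MM' N m : ℕ) : ℝ) := by exact_mod_cast hx
  have hpi := Real.pi_gt_three
  have hMi : (0 : ℝ) < 1 / (2 * (x.den : ℝ)) := by positivity
  have b1 : (0 : ℝ) < x₁ := lt_of_lt_of_le hMi a1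
  have b2 : (x₂ : ℝ) < 1 := by linarith
  have c1 : 1 / (2 * (x.den : ℝ)) ≤ x₂ := by linarith
  have c2 : (x₁ : ℝ) ≤ 1 - 1 / (2 * (x.den : ℝ)) := by linarith
  obtain ⟨θ₁, d1, d2, d3, d4⟩ := one_cutE hV hex hE3 hK0 hK hmN hQ hx a1 c2 a9 a11 a12
  obtain ⟨θ₂, e1, e2, e3, e4⟩ := one_cutE hV hex hE3 hK0 hK hmN hQ hx c1 a4 a10 a13 a14
  set h : ℝ := 1 / ((x.den : ℝ) * ((MM' N m : ℕ) : ℝ)) with hh
  have hh0 : 0 < h := by positivity
  have e6 : 2 * (1 / (2 * (x.den : ℝ) * ((MM' N m : ℕ) : ℝ))) = h := by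
    rw [hh]; field_simp
  have hgap : (x₂ : ℝ) - x₁ ≤ h := by linarith
  have b12 : (x₁ : ℝ) < x₂ := by linarith
  refine ⟨x₁, x₂, θ₁, θ₂, by exact_mod_cast b1, by exact_mod_cast a2, by exact_mod_cast a3,
    by exact_mod_cast b2, a6, a8, ?_, d1, e1, ?_⟩
  · intro y hy hy1 hy2
    by_contra hne
    have hy0 : (0 : ℝ) < y.den := by exact_mod_cast y.pos
    have hyM : (y.den : ℝ) ≤ ((MM' N m : ℕ) : ℝ) := by exact_mod_cast hy
    have hx0 : (0 : ℝ) < x.den := by linarith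
    have h5 : 1 / ((x.den : ℝ) * y.den) ≤ |(y : ℝ) - x| := by
      have e3 : (y : ℝ) - x = ((y.num * x.den - x.num * y.den : ℤ) : ℝ) / (y.den * x.den) := by
        rw [Rat.cast_def y, Rat.cast_def x]
        push_cast
        field_simp
      have hz : (y.num * x.den - x.num * y.den : ℤ) ≠ 0 := by
        intro h
        apply hne
        have : (y : ℝ) - x = 0 := by rw [e3, h]; simp
        have h7 : (y : ℝ) = x := by linarith
        exact_mod_cast h7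
      have h4 : (1 : ℝ) ≤ |((y.num * x.den - x.num * y.den : ℤ) : ℝ)| := by
        exact_mod_cast Int.one_le_abs hz
      rw [e3, abs_div, abs_of_pos (mul_pos hy0 hx0), mul_comm (x.den : ℝ)]
      gcongr
    have h6 : h ≤ 1 / ((x.den : ℝ) * y.den) :=
      one_div_le_one_div_of_le (by positivity) (by gcongr)
    have h8 : 0 < 1 / (2 * (x.den : ℝ) * ((MM' N m : ℕ) : ℝ)) := by positivity
    have h9 : |(y : ℝ) - x| < 1 / (2 * (x.den : ℝ) * ((MM' N m : ℕ) : ℝ)) :=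
      abs_lt.2 ⟨by linarith, by linarith⟩
    linarith
  · have hOk := vdatE_ok hV hh0 b1 b12 b2 d1 e1
    rintro c ((g | g) | g)
    · rcases g with g | g
      · exact d2 c g
      · exact e2 c g
    · obtain ⟨L, f1, f2, f3, f4, f5, rfl⟩ := g
      have f1' : -h ≤ L.re := f1
      have f3' : 2 * Real.pi * x₁ ≤ L.im := f3
      have f4' : L.im ≤ 2 * Real.pi * x₂ := f4
      have hLΩ : L ∈ D0 m := hOk.rect L f1 f2 f3 f4
      show BdE N (KE N K₀) (σ L).1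
      by_cases hl : L.re ≤ -(rE m x.den (MM' N m) / 4)
      · rcases f5 with f5 | f5 | f5
        · refine d4 L hLΩ hl f1' (Or.inr ⟨f5, ?_⟩)
          rw [abs_of_nonneg (by linarith)]
          have h6 : 2 * Real.pi / ((x.den : ℝ) * ((MM' N m : ℕ) : ℝ)) = 2 * Real.pi * h := by
            rw [hh]; ring
          rw [h6]
          have h7 : 2 * Real.pi * ((x₂ : ℝ) - x₁) ≤ 2 * Real.pi * h := by gcongr
          linarith
        · exact d4 L hLΩ hl f1' (Or.inl f5)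
        · exact e4 L hLΩ hl f1' (Or.inl f5)
      · push Not at hl
        have hax : ∀ y : ℚ, L.im = 2 * Real.pi * y →
            dist L (axisPt y) ≤ rE m x.den (MM' N m) / 2 := by
          intro y hy
          rw [dist_eq_norm]
          have g1 : L - axisPt y = (L.re : ℂ) := by
            apply Complex.ext
            · simp [axisPt]
            · simp [axisPt, hy]
          rw [g1, Complex.norm_real, Real.norm_eq_abs, abs_of_nonpos f2]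
          have := rE_pos hm hQ hM
          linarith
        rcases f5 with f5 | f5 | f5
        · exfalso
          have h5 : L.re = -h := f5
          have h6 : rE m x.den (MM' N m) ≤ h := by
            rw [hh]
            unfold rE
            refine one_div_le_one_div_of_le (by positivity) ?_
            calc (x.den : ℝ) * ((MM' N m : ℕ) : ℝ) = 1 * 1 * (x.den * (1 * ((MM' N m : ℕ) : ℝ))) := by
                  ring
              _ ≤ 8 * m * (x.den * (((MM' N m : ℕ) : ℝ) * ((MM' N m : ℕ) : ℝ))) := by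
                  gcongr
                  · norm_num
                  · linarith
              _ = _ := by ring
          linarith
        · exact (d3 L (hax x₁ f5)).2
        · exact (e3 L (hax x₂ f5)).2
    · obtain ⟨hMM, a, hNJ, hR⟩ := g
      have key : ∀ y : ℚ, 1 / (2 * (x.den : ℝ)) ≤ y →
          (y : ℝ) ≤ 1 - 1 / (2 * (x.den : ℝ)) →
          2 ^ 8 * (m ^ 2 * (x.den * MM' N m ^ 2)) ≤ y.den → Sat.Rt m (c, a) y →
          ∃ L, dist L (axisPt y) ≤ rE m x.den (MM' N m) / 2 ∧ (σ L).1 = c := by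
        intro y g0 g1 gd gR
        have g0' : (0 : ℝ) < y := lt_of_lt_of_le hMi g0
        have g1' : (y : ℝ) < 1 := by linarith
        have g0q : 0 < y := by exact_mod_cast g0'
        have g1q : y < 1 := by exact_mod_cast g1'
        have hr := rE_pos hm hQ hM
        have hgR : rE m x.den (MM' N m) / 2 ≤ Sat.gR m y := by
          have := rE_le_gR hm hQ hx hM g0 g1
          linarith
        have hΩ : ball (axisPt y) (rE m x.den (MM' N m) / 2) ⊆ D0 m :=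
          (ball_subset_ball hgR).trans (ball_subset_D0 hm g0q g1q)
        have hρ : 2 * (m : ℝ) * Real.log 2 / y.den < rE m x.den (MM' N m) / 2 := by
          refine lt_of_lt_of_le ?_ (seven_le hm hQ hM gd)
          have hy0 : (0 : ℝ) < y.den := by exact_mod_cast y.pos
          have := Real.log_two_lt_d9
          refine div_lt_div_of_pos_right ?_ hy0
          have hm0 : (0 : ℝ) < m := by exact_mod_cast hm
          have h9 := mul_lt_mul_of_pos_left this (show (0 : ℝ) < 2 * m by positivity)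
          linarith only [h9, hm0]
        obtain ⟨L, hL, -, hσ, -⟩ := BarM.barM_exact hm g0q g1q (exact_hyp hm hQ hx hM g0 g1 gd)
          hρ hgR (J := lab m θ₁ w) (τ := σ)
          (fun L hL hre => ⟨(hV.sec L (hΩ hL)).1, (hV.sec L (hΩ hL)).2,
            (hV.lab L (hΩ hL) hre).2 θ₁ (by rw [d1]; linarith) (by rw [d1]; linarith)⟩) hMM hNJ gR
        exact ⟨L, (mem_ball.1 hL).le, by rw [hσ]⟩
      rcases hR with hR | hR
      · obtain ⟨L, hL, rfl⟩ := key x₁ a1 c2 a11 hR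
        exact (d3 L hL).2
      · obtain ⟨L, hL, rfl⟩ := key x₂ c1 a4 a13 hR
        exact (e3 L hL).2

end Pool.Agent.Work.MLC.Pri
end

section
set_option autoImplicit false

/-! # The two cuts with small exponents, part 4: the constants (helper49) -/

namespace Pool.Agent.Work.MLC.Pri

open Filter Topology Metric Set Complex

/-- the reference bound (helper65, E1) -/
theorem refAll {N : ℕ} (hN : 0 < N) : RefAll N (2 * 10 ^ 6 * (N : ℝ) ^ 4) := by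
  intro g hg hg4 hlog n c b hn hnN hc hc4 hb
  have hN1 : (1 : ℝ) ≤ N := by exact_mod_cast hN
  have hn1 : (1 : ℝ) ≤ n := by exact_mod_cast hn
  have hnN' : (n : ℝ) ≤ N := by exact_mod_cast hnN
  have hG : 0 < G c c := hg.trans_le hc
  refine (C65.norm_inv_le_lin hn hG hc4 hb).trans ?_
  have h4 : Real.log 4 ≤ 2 := by
    rw [Real.log_le_iff_le_exp (by norm_num)]
    have h5 : Real.exp 2 = Real.exp 1 * Real.exp 1 := by rw [← Real.exp_add]; norm_num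
    have h6 := Real.exp_one_gt_d9
    rw [h5]; nlinarith
  have h1 : |Real.log (G c c)| ≤ 14000 * (N : ℝ) ^ 3 + 2 := by
    rw [abs_le] at hlog ⊢
    constructor
    · have := Real.log_le_log hg hc
      linarith [hlog.1]
    · have h5 := Real.log_le_log hG hc4
      have : (0 : ℝ) ≤ (N : ℝ) ^ 3 := by positivity
      linarith
  have h3 : (1 : ℝ) ≤ (N : ℝ) ^ 3 := one_le_pow₀ hN1
  calc 128 * (n : ℝ) * (1 + |Real.log (G c c)|) ≤ 128 * N * (1 + (14000 * (N : ℝ) ^ 3 + 2)) := by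
        gcongr
    _ ≤ 128 * N * (14003 * (N : ℝ) ^ 3) := by gcongr; linarith
    _ = 1792384 * (N : ℝ) ^ 4 := by ring
    _ ≤ _ := by
      have : (0 : ℝ) ≤ (N : ℝ) ^ 4 := by positivity
      linarith

/-- the constant of the barrier -/
lemma KE_le {N : ℕ} (hN : 0 < N) : KE N (2 * 10 ^ 6 * (N : ℝ) ^ 4) ≤ 10 ^ 11 * (N : ℝ) ^ 5 := by
  have hN1 : (1 : ℝ) ≤ N := by exact_mod_cast hN
  have h3 : (N : ℝ) ^ 3 ≤ (N : ℝ) ^ 4 := pow_le_pow_right₀ hN1 (by norm_num)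
  have h4 : (1 : ℝ) ≤ (N : ℝ) ^ 4 := one_le_pow₀ hN1
  have h6 : (1 : ℝ) ≤ (N : ℝ) ^ 5 := one_le_pow₀ hN1
  have h36 : (N : ℝ) ^ 3 ≤ (N : ℝ) ^ 5 := pow_le_pow_right₀ hN1 (by norm_num)
  unfold KE
  calc 4224 * (N : ℝ) * (9 * (2 * 10 ^ 6 * (N : ℝ) ^ 4) + 6 + 432 * (N : ℝ) ^ 3) + 1 +
        1728 * (N : ℝ) ^ 3
      ≤ 4224 * (N : ℝ) * (9 * (2 * 10 ^ 6 * (N : ℝ) ^ 4) + 6 * (N : ℝ) ^ 4 +
        432 * (N : ℝ) ^ 4) + (N : ℝ) ^ 5 + 1728 * (N : ℝ) ^ 5 := by gcongr; linarith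
    _ = (4224 * (18 * 10 ^ 6 + 438) + 1729) * (N : ℝ) ^ 5 := by ring
    _ ≤ _ := by
      have : (0 : ℝ) ≤ (N : ℝ) ^ 5 := by positivity
      gcongr
      norm_num

lemma den_le_MM' {N m : ℕ} (hm : 0 < m) {q : ℕ} (h : (q - 2) * m < N) : q ≤ MM' N m := by
  have h1 : q - 2 ≤ N / m := (Nat.le_div_iff_mul_le hm).2 h.le
  unfold MM'; omega

/-- **the two cuts, final form** -/
theorem cutsE {N m : ℕ} {w : ℕ → ℤ} {k : ℤ} {σ : ℂ → ℂ × ℂ} (hV : Wide m w k σ)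
    (hex : ∀ L ∈ D0 m, Exa m (σ L)) (hE3 : RepE N) (hN : 0 < N) (hmN : m ≤ N) {x : ℚ}
    (h0 : 0 < x) (h1 : x < 1) (hx : (x.den - 2) * m < N) :
    ∃ (x₁ x₂ : ℚ) (θ₁ θ₂ h : ℝ), 0 < x₁ ∧ x₁ < x ∧ x < x₂ ∧ x₂ < 1 ∧ 0 < h ∧
      (∀ y : ℚ, x₁ ≤ y → y ≤ x₂ → (y.den - 2) * m < N → y = x) ∧
      Circ.nu w m θ₁ = k + x₁ ∧ Circ.nu w m θ₂ = k + x₂ ∧
      ∀ c ∈ (vdatE m w k σ x₁ x₂ θ₁ θ₂ h).BarV, BdE N (10 ^ 11 * (N : ℝ) ^ 5) c := by
  have hm := hV.pos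
  obtain ⟨x₁, x₂, θ₁, θ₂, a1, a2, a3, a4, a5, a6, a7, a8, a9, a10⟩ :=
    barE hV hex hE3 (by positivity) (refAll hN) hmN h0 h1 (den_le_MM' hm hx)
  have hM : (0 : ℝ) < ((MM' N m : ℕ) : ℝ) := by
    have := two_le_MM' N m
    exact_mod_cast (by omega : 0 < MM' N m)
  have hQ : (0 : ℝ) < x.den := by exact_mod_cast x.pos
  refine ⟨x₁, x₂, θ₁, θ₂, 1 / ((x.den : ℝ) * ((MM' N m : ℕ) : ℝ)), a1, a2, a3, a4, by positivity,
    ?_, a8, a9, ?_⟩
  · intro y hy1 hy2 hy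
    exact a7 y (den_le_MM' hm hy) (by exact_mod_cast hy1) (by exact_mod_cast hy2)
  · intro c hc n b hn hnN hb hex
    obtain ⟨h5, h6⟩ := a10 c hc n b hn hnN hb hex
    exact ⟨h5, h6.trans (KE_le hN)⟩

end Pool.Agent.Work.MLC.Pri
end

section
set_option autoImplicit false

/-! # The limb pieces with small exponents: the assembly (helper57) -/

namespace Pool.Agent.Work.MLC.Pri

open Filter Topology Metric Set Complex

theorem perL_all : PerL := fun _ _ _ _ _ _ h1 h2 h3 h4 h5 h6 h7 => perL54 h1 h2 h3 h4 h5 h6 h7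

theorem cutsK_of_repE (hE3 : ∀ N, 0 < N → RepE N) :
    CutsK fun N => 2 * 10 ^ 11 / 2 * (N : ℝ) ^ 5 := by
  intro N m w k σ x hV hex hN hmN h0 h1 hx
  obtain ⟨x₁, x₂, θ₁, θ₂, h, a1, a2, a3, a4, a5, a6, a7, a8, a9⟩ :=
    cutsE hV hex (hE3 N hN) hN hmN h0 h1 hx
  refine ⟨x₁, x₂, θ₁, θ₂, h, a1, a2, a3, a4, a5, a6, a7, a8, fun c hc => ?_⟩
  have h2 := a9 c hc
  have e : (2 * 10 ^ 11 / 2 * (N : ℝ) ^ 5) = 10 ^ 11 * (N : ℝ) ^ 5 := by ring
  show BdK N (2 * 10 ^ 11 / 2 * (N : ℝ) ^ 5) c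
  rw [e]
  exact h2

theorem btgp_of_repE (hE3 : ∀ N, 0 < N → RepE N) : BTGP (2 * 10 ^ 11) 5 :=
  btgp_of_cuts perL_all (by norm_num) (cutsK_of_repE hE3)

/-- **all components**, exponent five -/
theorem rootPieceE_of_repE (hE3 : ∀ N, 0 < N → RepE N) :
    RootPiece fun n => 1 / ((8 * 10 ^ 11) * n ^ 5) := by
  have h := rootPiece_of_BTGP (by norm_num) (btgp_of_repE hE3)
  have e : (4 * (2 * 10 ^ 11) : ℝ) = 8 * 10 ^ 11 := by norm_num
  rwa [e] at h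

end Pool.Agent.Work.MLC.Pri
end

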