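import Pool.Agent.Work.MLCM.C48
import Pool.Agent.Work.MLCM.C71

section
set_option autoImplicit false

/-! # Theorem CAP, module T2: the plateau `1 / 2` of the real components of a copy (helper24)

The copy of the Mandelbrot set with the wake `(α, β)` of period `m`; the `n`-th component of the
spine has period `n m` and the word `uT`: the closed word of `α`, with the flipped last letter in all
blocks except those whose number is divisible by `n`. -/

namespace Pool.Agent.Work.MLC.Shp

open Filter Topology Metric Set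
open Pool.Agent.Work.MLC.Circ Pool.Agent.Work.MLC.Cnt CircleDeg1Lift

variable {m : ℕ} {α β : ℝ}

/-- the word of the `n`-th component of the spine of the copy -/
noncomputable def uT (m n : ℕ) (α : ℝ) (i : ℕ) : ℤ := if n ∣ i / m then wL α i else wR α i

lemma uT_one (m : ℕ) (α : ℝ) : uT m 1 α = wL α := by
  funext i
  unfold uT
  rw [if_pos (one_dvd _)]

lemma half_of_index {w z : ℤ} {θ x : ℝ} (hw : w = z % 2) (h1 : θ + z < 2 * x)
    (h2 : 2 * x < θ + z + 1) :
    ∃ k : ℤ, (θ + w) / 2 + k < x ∧ x < (θ + w) / 2 + k + 1 / 2 := by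
  refine ⟨z / 2, ?_⟩
  have e : w + 2 * (z / 2) = z := by omega
  have e' : (w : ℝ) + 2 * ((z / 2 : ℤ) : ℝ) = z := by exact_mod_cast e
  constructor <;> linarith

/-- the letters before the last one -/
lemma Wake.mid (h : Wake m α β) {r : ℕ} (hr : r + 1 < m) {δ θ y : ℝ} (h0 : 0 ≤ δ)
    (h1 : δ * 2 ^ m ≤ β - α) (hy : y = α + δ ∨ y = β - δ) (hθ1 : α < θ) (hθ2 : θ < β) :
    ∃ k : ℤ, (θ + wL α r) / 2 + k < 2 ^ r * y ∧ 2 ^ r * y < (θ + wL α r) / 2 + k + 1 / 2 := by
  obtain ⟨n, n', e1, e2, e3, e4, l, hl⟩ := h.side_int r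
  have hab := h.lt
  have hne : 2 ^ (r + 1) * α - α ≠ ((n + 1 : ℤ) : ℝ) := fun hcon => by
    have := Nat.le_of_dvd (by omega) (h.dvd.1 ⟨_, hcon⟩)
    omega
  have hfl : ⌊(2 : ℝ) ^ (r + 1) * α - α⌋ = n := by
    rw [Int.floor_eq_iff]
    refine ⟨by linarith, lt_of_le_of_ne e2 fun hcon => hne ?_⟩
    push_cast; exact hcon
  have hw : wL α r = n % 2 := by unfold wL; rw [hfl]
  have hδ : 2 ^ (r + 1) * δ ≤ (β - α) / 2 := by
    have f1 : (2 : ℝ) ^ (r + 1) * 2 ≤ 2 ^ m := by
      rw [← pow_succ]; exact pow_le_pow_right₀ (by norm_num) (by omega)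
    nlinarith
  have hpr : ∀ x : ℝ, (2 : ℝ) * (2 ^ r * x) = 2 ^ (r + 1) * x := fun x => by rw [pow_succ]; ring
  have hδ0 : 0 ≤ 2 ^ (r + 1) * δ := by positivity
  rcases hy with rfl | rfl
  · have h2 := h.win (j := r + 1) (by omega) (by omega) h0 h1 (-(n + 1))
    rw [not_and_or] at h2
    push_cast at h2
    have e5 : (2 : ℝ) ^ (r + 1) * (α + δ) = 2 ^ (r + 1) * α + 2 ^ (r + 1) * δ := by ring
    have h3 : (2 : ℝ) ^ (r + 1) * (α + δ) + -((n : ℝ) + 1) ≤ α := by
      rcases h2 with h2 | h2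
      · exact not_lt.1 h2
      · exfalso; apply h2; rw [e5]; linarith
    refine half_of_index hw ?_ ?_
    · rw [hpr, e5]; linarith
    · rw [hpr]; linarith
  · have h2 := h.win' (j := r + 1) (by omega) (by omega) h0 h1 (-n')
    rw [not_and_or] at h2
    push_cast at h2
    have e5 : (2 : ℝ) ^ (r + 1) * (β - δ) = 2 ^ (r + 1) * β - 2 ^ (r + 1) * δ := by ring
    have h3 : β ≤ (2 : ℝ) ^ (r + 1) * (β - δ) + -(n' : ℝ) := by
      rcases h2 with h2 | h2
      · exfalso; apply h2; rw [e5]; linarith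
      · exact not_lt.1 h2
    refine half_of_index (z := n') (by rw [hw, hl]; omega) ?_ ?_
    · rw [hpr]; linarith
    · rw [hpr, e5]; linarith

/-! ### the word -/

lemma Wake.wR_spec (h : Wake m α β) (i : ℕ) :
    wR α i = if m ∣ i + 1 then 1 - wL α i else wL α i := by
  split_ifs with hd
  · obtain ⟨a, ha⟩ := h.dvd.2 hd
    have := wLR_of_int ha
    omega
  · exact (wLR_of_not_int fun hc => hd (h.dvd.1 hc)).symm

lemma Wake.wL_add (h : Wake m α β) (i : ℕ) : wL α (i + m) = wL α i := by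
  obtain ⟨a, ha⟩ := h.per
  exact wL_per (a := a) (by linarith) i

lemma Wake.wR_add (h : Wake m α β) (i : ℕ) : wR α (i + m) = wR α i := by
  rw [h.wR_spec, h.wR_spec, h.wL_add]
  have : m ∣ i + m + 1 ↔ m ∣ i + 1 := by
    rw [show i + m + 1 = m + (i + 1) by ring]
    exact (Nat.dvd_add_right (dvd_refl m))
  simp only [this]

lemma Wake.uT_spec (h : Wake m α β) {n : ℕ} (hn : 0 < n) (i : ℕ) :
    uT m n α i = if ((n * m : ℕ) : ℤ) ∣ (i : ℤ) + 1 - m then 1 - wR α i else wR α i := by
  have hm := h.pos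
  have hkey : (((n * m : ℕ) : ℤ) ∣ (i : ℤ) + 1 - m) ↔ (n ∣ i / m ∧ m ∣ i + 1) := by
    constructor
    · rintro ⟨c, hc⟩
      have hc0 : 0 ≤ c := by
        by_contra hcon
        push Not at hcon
        have h1 : ((n * m : ℕ) : ℤ) * c ≤ ((n * m : ℕ) : ℤ) * (-1) :=
          mul_le_mul_of_nonneg_left (by omega) (by positivity)
        have h2 : m ≤ n * m := Nat.le_mul_of_pos_left m hn
        have h3 : ((m : ℕ) : ℤ) ≤ ((n * m : ℕ) : ℤ) := by exact_mod_cast h2
        omega
      obtain ⟨c', rfl⟩ := Int.eq_ofNat_of_zero_le hc0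
      have h1 : i + 1 = m * (n * c') + m := by
        have : ((i + 1 : ℕ) : ℤ) = ((m * (n * c') + m : ℕ) : ℤ) := by
          push_cast at hc ⊢
          linarith
        exact_mod_cast this
      have h2 : i = m * (n * c') + (m - 1) := by omega
      constructor
      · have h3 : i / m = n * c' := by
          rw [h2, Nat.mul_add_div hm, Nat.div_eq_of_lt (by omega), Nat.add_zero]
        rw [h3]
        exact dvd_mul_right _ _
      · rw [h1]
        exact ⟨n * c' + 1, by ring⟩
    · rintro ⟨⟨c, hc⟩, ⟨d, hd⟩⟩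
      have h1 := Nat.div_add_mod i m
      have h2 := Nat.mod_lt i hm
      have h3 : i % m = m - 1 := by
        have h4 : m ∣ i % m + 1 := by
          have : m ∣ m * (i / m) + (i % m + 1) := ⟨d, by omega⟩
          exact (Nat.dvd_add_right (dvd_mul_right m _)).1 this
        have := Nat.le_of_dvd (by omega) h4
        omega
      rw [hc, h3] at h1
      refine ⟨c, ?_⟩
      have h5 : i + 1 = m * (n * c) + m := by omega
      have h6 : (i : ℤ) + 1 = m * (n * c) + m := by exact_mod_cast h5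
      rw [h6]; push_cast; ring
  unfold uT
  by_cases hb : ((n * m : ℕ) : ℤ) ∣ (i : ℤ) + 1 - m
  · obtain ⟨h1, h2⟩ := hkey.1 hb
    rw [if_pos hb, if_pos h1, h.wR_spec, if_pos h2]
    ring
  · rw [if_neg hb]
    by_cases h1 : n ∣ i / m
    · rw [if_pos h1, h.wR_spec, if_neg fun h2 => hb (hkey.2 ⟨h1, h2⟩)]
    · rw [if_neg h1]

lemma uT_bit (m n : ℕ) (α : ℝ) (i : ℕ) : uT m n α i = 0 ∨ uT m n α i = 1 := by
  unfold uT
  split_ifs
  · exact wL_bit α i
  · exact wR_bit α i

/-- **the word of the component is primitive** -/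
theorem Wake.word_uT (h : Wake m α β) (hm : 2 ≤ m) {n : ℕ} (hn : 0 < n) :
    Word (n * m) (uT m n α) := by
  rcases Nat.lt_or_ge 1 n with hn2 | hn1
  swap
  · have : n = 1 := by omega
    subst this
    rw [uT_one, one_mul]
    obtain ⟨k, hk, -⟩ := h.strip hm
    exact hk
  have hper : ∀ q i, wR α (i + m * q) = wR α i := by
    intro q
    induction q with
    | zero => intro i; simp
    | succ q ih => intro i; rw [show i + m * (q + 1) = i + m * q + m by ring, h.wR_add, ih]
  refine ⟨uT_bit m n α, fun i => ?_, fun d hd hdN => ?_⟩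
  · rw [h.uT_spec hn, h.uT_spec hn]
    have e1 : wR α (i + n * m) = wR α i := by rw [mul_comm]; exact hper n i
    have e2 : (((n * m : ℕ) : ℤ) ∣ ((i + n * m : ℕ) : ℤ) + 1 - m) ↔
        (((n * m : ℕ) : ℤ) ∣ (i : ℤ) + 1 - m) := by
      rw [show ((i + n * m : ℕ) : ℤ) + 1 - m = ((i : ℤ) + 1 - m) + ((n * m : ℕ) : ℤ) by push_cast; ring]
      exact dvd_add_self_right
    rw [e1]
    simp only [e2]
  · by_contra hcon
    push Not at hcon
    have hN : (m : ℤ) ∣ ((n * m : ℕ) : ℤ) := ⟨n, by push_cast; ring⟩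
    have hNd : ¬ ((n * m : ℕ) : ℤ) ∣ (d : ℤ) := fun hc => by
      have := Nat.le_of_dvd hd (by exact_mod_cast hc)
      omega
    have hb0 : ((n * m : ℕ) : ℤ) ∣ ((m - 1 : ℕ) : ℤ) + 1 - m := by
      have : ((m - 1 : ℕ) : ℤ) + 1 - m = 0 := by omega
      rw [this]; exact dvd_zero _
    have hmN : m < n * m := by nlinarith
    by_cases hmd : m ∣ d
    · obtain ⟨c, rfl⟩ := hmd
      have h1 := hcon (m - 1)
      rw [h.uT_spec hn, h.uT_spec hn, if_pos hb0, hper, if_neg] at h1
      · omega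
      · intro hc
        apply hNd
        have := dvd_sub hc hb0
        have e : (((m - 1 + m * c : ℕ) : ℤ) + 1 - m) - (((m - 1 : ℕ) : ℤ) + 1 - m) =
          ((m * c : ℕ) : ℤ) := by push_cast; ring
        rwa [e] at this
    · have hmd' : ¬ (m : ℤ) ∣ (d : ℤ) := fun hc => hmd (by exact_mod_cast hc)
      -- `m` is a period
      have hmp : ∀ i, uT m n α (i + m) = uT m n α i := by
        intro i
        have good : ∀ j : ℕ, ¬ ((n * m : ℕ) : ℤ) ∣ (j : ℤ) + 1 - m →
            ¬ ((n * m : ℕ) : ℤ) ∣ (j : ℤ) + 1 → uT m n α (j + m) = uT m n α j := by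
          intro j h1 h2
          rw [h.uT_spec hn, h.uT_spec hn, if_neg h1, if_neg, h.wR_add]
          rw [show ((j + m : ℕ) : ℤ) + 1 - m = (j : ℤ) + 1 by push_cast; ring]
          exact h2
        by_cases hg : ¬ ((n * m : ℕ) : ℤ) ∣ (i : ℤ) + 1 - m ∧ ¬ ((n * m : ℕ) : ℤ) ∣ (i : ℤ) + 1
        · exact good i hg.1 hg.2
        · have hgd : uT m n α (i + d + m) = uT m n α (i + d) := by
            apply good
            · intro hc
              rw [not_and_or, not_not, not_not] at hg
              rcases hg with hg | hg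
              · apply hNd
                have := dvd_sub hc hg
                rwa [show (((i + d : ℕ) : ℤ) + 1 - m) - ((i : ℤ) + 1 - m) = (d : ℤ) by
                  push_cast; ring] at this
              · apply hmd'
                have := hN.trans (dvd_sub hc hg)
                rw [show (((i + d : ℕ) : ℤ) + 1 - m) - ((i : ℤ) + 1) = (d : ℤ) - m by
                  push_cast; ring] at this
                exact (dvd_sub_self_right).1 this
            · intro hc
              rw [not_and_or, not_not, not_not] at hg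
              rcases hg with hg | hg
              · apply hmd'
                have := hN.trans (dvd_sub hc hg)
                rw [show (((i + d : ℕ) : ℤ) + 1) - ((i : ℤ) + 1 - m) = (d : ℤ) + m by
                  push_cast; ring] at this
                exact (dvd_add_self_right).1 this
              · apply hNd
                have := dvd_sub hc hg
                rwa [show (((i + d : ℕ) : ℤ) + 1) - ((i : ℤ) + 1) = (d : ℤ) by
                  push_cast; ring] at this
          rw [← hcon i, ← hgd, ← hcon (i + m)]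
          congr 1
          ring
      have h1 := hmp (m - 1)
      rw [h.uT_spec hn, h.uT_spec hn, if_pos hb0, h.wR_add, if_neg] at h1
      · omega
      · intro hc
        have e : (((m - 1 + m : ℕ) : ℤ) + 1 - m) = (m : ℤ) := by omega
        rw [e] at hc
        have := Nat.le_of_dvd h.pos (by exact_mod_cast hc)
        omega

/-! ### the orbit -/

section orbit

variable {n : ℕ} {E : ℝ} {a b : ℤ}

/-- the points of the orbit of the left end at the multiples of `m` -/
lemma orbT (hn : 0 < n) (hE : E * (2 ^ (m * n) + 1) = β - α) (ha : (2 : ℝ) ^ m * α = α + a)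
    (hb : (2 : ℝ) ^ m * β = β + b) (t : ℕ) :
    ∃ (y : ℝ) (j : ℤ), 2 ^ (m * t) * (α + 2 ^ (m * (n - 1)) * E) = y + j ∧
      ((∃ c, t = n * c ∧ (y = α + 2 ^ (m * (n - 1)) * E ∨ y = β - 2 ^ (m * (n - 1)) * E)) ∨
      (∃ c l, l + 1 < n ∧ t = n * c + (l + 1) ∧
        (y = β - 2 ^ (m * l) * E ∨ y = α + 2 ^ (m * l) * E))) := by
  have hB : ∀ l : ℕ, (2 : ℝ) ^ m * (2 ^ (m * l) * E) = 2 ^ (m * (l + 1)) * E := fun l => by
    rw [Nat.mul_succ, pow_add]; ring
  have hn1 : n - 1 + 1 = n := by omega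
  have hE' : (2 : ℝ) ^ (m * n) * E = β - α - E := by linarith
  induction t with
  | zero => exact ⟨_, 0, by simp, Or.inl ⟨0, by simp, Or.inl rfl⟩⟩
  | succ t ih =>
    obtain ⟨y, j, hy, hc⟩ := ih
    have e1 : (2 : ℝ) ^ (m * (t + 1)) * (α + 2 ^ (m * (n - 1)) * E) =
        2 ^ m * y + 2 ^ m * j := by
      rw [← mul_add, ← hy, Nat.mul_succ, pow_add]; ring
    -- the next point
    have key : ∀ l c, l < n → t + 1 = n * c + (l + 1) → ∀ (y' : ℝ) (j' : ℤ),
        (2 : ℝ) ^ m * y = y' + j' → (y' = β - 2 ^ (m * l) * E ∨ y' = α + 2 ^ (m * l) * E) →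
        ∃ (y : ℝ) (j : ℤ), 2 ^ (m * (t + 1)) * (α + 2 ^ (m * (n - 1)) * E) = y + j ∧
      ((∃ c, t + 1 = n * c ∧ (y = α + 2 ^ (m * (n - 1)) * E ∨ y = β - 2 ^ (m * (n - 1)) * E)) ∨
      (∃ c l, l + 1 < n ∧ t + 1 = n * c + (l + 1) ∧
        (y = β - 2 ^ (m * l) * E ∨ y = α + 2 ^ (m * l) * E))) := by
      intro l c hl ht y' j' hy' hcase
      refine ⟨y', j' + 2 ^ m * j, by rw [e1, hy']; push_cast; ring, ?_⟩
      rcases Nat.lt_or_ge (l + 1) n with h1 | h1
      · exact Or.inr ⟨c, l, h1, ht, hcase⟩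
      · have h2 : l + 1 = n := by omega
        have h3 : l = n - 1 := by omega
        refine Or.inl ⟨c + 1, by rw [ht, h2]; ring, ?_⟩
        rw [← h3]
        exact hcase.symm
    rcases hc with ⟨c, ht, hc⟩ | ⟨c, l, hl, ht, hc⟩
    · rcases hc with rfl | rfl
      · refine key 0 c hn (by omega) (β - 2 ^ (m * 0) * E) a ?_ (Or.inl rfl)
        rw [mul_add, hB, hn1, hE', ha]
        simp only [Nat.mul_zero, pow_zero]; ring
      · refine key 0 c hn (by omega) (α + 2 ^ (m * 0) * E) b ?_ (Or.inr rfl)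
        rw [mul_sub, hB, hn1, hE', hb]
        simp only [Nat.mul_zero, pow_zero]; ring
    · rcases hc with rfl | rfl
      · refine key (l + 1) c hl (by omega) (β - 2 ^ (m * (l + 1)) * E) b ?_ (Or.inl rfl)
        rw [mul_sub, hB, hb]; ring
      · refine key (l + 1) c hl (by omega) (α + 2 ^ (m * (l + 1)) * E) a ?_ (Or.inr rfl)
        rw [mul_add, hB, ha]; ring

end orbit

/-- **the characteristic arc of the component** -/
theorem Wake.caT (h : Wake m α β) (hm : 2 ≤ m) {n : ℕ} (hn : 0 < n) {E : ℝ}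
    (hE : E * (2 ^ (m * n) + 1) = β - α) :
    CA (n * m) 2 (uT m n α) (α + 2 ^ (m * (n - 1)) * E) (β - 2 ^ (m * (n - 1)) * E) := by
  obtain ⟨a, ha'⟩ := h.per
  obtain ⟨b, hb'⟩ := h.per'
  have ha : (2 : ℝ) ^ m * α = α + a := by linarith
  have hb : (2 : ℝ) ^ m * β = β + b := by linarith
  have hab := h.lt
  have h0 := h.nonneg
  have h1 := h.le_one
  have hE0 : 0 < E := by
    by_contra hcon
    push Not at hcon
    have : (0 : ℝ) < 2 ^ (m * n) + 1 := by positivity
    nlinarith
  have hn1 : n - 1 + 1 = n := by omega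
  have hE' : (2 : ℝ) ^ (m * n) * E = β - α - E := by linarith
  have horb := fun t => orbT (t := t) hn hE ha hb
  have hB : ∀ l : ℕ, (2 : ℝ) ^ m * (2 ^ (m * l) * E) = 2 ^ (m * (l + 1)) * E := fun l => by
    rw [Nat.mul_succ, pow_add]; ring
  have hmono : ∀ l, l < n → (2 : ℝ) ^ (m * l) * E ≤ 2 ^ (m * (n - 1)) * E := fun l hl => by
    apply mul_le_mul_of_nonneg_right _ hE0.le
    exact pow_le_pow_right₀ (by norm_num) (Nat.mul_le_mul_left m (by omega))
  have hEle : E ≤ 2 ^ (m * (n - 1)) * E := by simpa using hmono 0 hn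
  have hpos : ∀ l : ℕ, 0 < (2 : ℝ) ^ (m * l) * E := fun l => by positivity
  have hεm : 2 ^ m * (2 ^ (m * (n - 1)) * E) = β - α - E := by rw [hB, hn1, hE']
  set ε : ℝ := 2 ^ (m * (n - 1)) * E with hε
  have hε0 : 0 < ε := by rw [hε]; positivity
  have h4 : (4 : ℝ) ≤ 2 ^ m := by
    calc (4 : ℝ) = 2 ^ 2 := by norm_num
      _ ≤ 2 ^ m := pow_le_pow_right₀ (by norm_num) hm
  have hε4 : 4 * ε ≤ β - α := by nlinarith
  -- all points are close to the ends
  have hδ : ∀ l, l < n → (2 : ℝ) ^ (m * l) * E * 2 ^ m ≤ β - α := fun l hl => by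
    have := hmono l hl
    have h5 : (0 : ℝ) < 2 ^ m := by positivity
    nlinarith
  have hεδ : ε * 2 ^ m ≤ β - α := by linarith
  -- the return
  obtain ⟨J, hJ⟩ : ∃ J : ℤ, 2 ^ (n * m) * (α + ε) = (β - ε) + J := by
    have e2 : ∀ c : ℕ, ∃ J : ℤ, (2 : ℝ) ^ (m * c) * β = β + J := by
      intro c
      obtain ⟨J, hJ⟩ := pow_per_mul (a := b) (x := β) (M := m) (by linarith) c
      exact ⟨J, hJ⟩
    obtain ⟨J, hJ⟩ := e2 (n - 1)
    refine ⟨J + 2 ^ (m * (n - 1)) * a, ?_⟩
    have e3 : (2 : ℝ) ^ (n * m) * (α + ε) = 2 ^ (m * (n - 1)) * (2 ^ m * (α + ε)) := by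
      rw [← mul_assoc, ← pow_add]
      congr 2
      rw [← Nat.mul_succ, Nat.succ_eq_add_one, hn1, mul_comm]
    rw [e3, mul_add (2 ^ m : ℝ), ha, hεm]
    have e4 : (2 : ℝ) ^ (m * (n - 1)) * (α + a + (β - α - E)) =
      2 ^ (m * (n - 1)) * β - ε + 2 ^ (m * (n - 1)) * a := by rw [hε]; ring
    rw [e4, hJ]; push_cast; ring
  obtain ⟨J', hJ'⟩ : ∃ J : ℤ, 2 ^ (n * m) * (β - ε) = (α + ε) + J := by
    obtain ⟨J, hJ⟩ := pow_per_mul (a := a) (x := α) (M := m) (by linarith) (n - 1)
    refine ⟨J + 2 ^ (m * (n - 1)) * b, ?_⟩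
    have e3 : (2 : ℝ) ^ (n * m) * (β - ε) = 2 ^ (m * (n - 1)) * (2 ^ m * (β - ε)) := by
      rw [← mul_assoc, ← pow_add]
      congr 2
      rw [← Nat.mul_succ, Nat.succ_eq_add_one, hn1, mul_comm]
    rw [e3, mul_sub (2 ^ m : ℝ), hb, hεm]
    have e4 : (2 : ℝ) ^ (m * (n - 1)) * (β + b - (β - α - E)) =
      2 ^ (m * (n - 1)) * α + ε + 2 ^ (m * (n - 1)) * b := by rw [hε]; ring
    rw [e4, hJ]; push_cast; ring
  -- nothing in the arc
  have hno : ∀ (t : ℕ) (l : ℤ), ¬ (α + ε < 2 ^ t * (α + ε) + l ∧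
      2 ^ t * (α + ε) + l < β - ε) := by
    rintro t l ⟨g1, g2⟩
    obtain ⟨y, j, hy, hc⟩ := horb (t / m)
    have e1 : (2 : ℝ) ^ t * (α + ε) + l = 2 ^ (t % m) * y + ((2 ^ (t % m) * j + l : ℤ) : ℝ) := by
      have : (2 : ℝ) ^ t * (α + ε) = 2 ^ (t % m) * (2 ^ (m * (t / m)) * (α + ε)) := by
        rw [← mul_assoc, ← pow_add, Nat.mod_add_div]
      rw [this, hy]; push_cast; ring
    rw [e1] at g1 g2
    set l' : ℤ := 2 ^ (t % m) * j + l with hl'
    have hrm := Nat.mod_lt t h.pos
    rcases Nat.eq_zero_or_pos (t % m) with hr | hr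
    · rw [hr, pow_zero, one_mul] at g1 g2
      have hb1 : ∀ v : ℝ, v + l' ≤ 1 → 0 < v → (l' : ℝ) < 1 := fun v h1 h2 => by linarith
      rcases lt_or_ge 0 l' with h5 | h5
      · have h6 : (1 : ℝ) ≤ l' := by exact_mod_cast h5
        rcases hc with ⟨c, -, rfl | rfl⟩ | ⟨c, i, hi, -, rfl | rfl⟩
        · linarith
        · linarith
        · have := hmono i (by omega); linarith
        · have := hpos i; linarith
      · rcases lt_or_ge l' 0 with h7 | h7
        · have h6 : (l' : ℝ) ≤ -1 := by exact_mod_cast (by omega : l' ≤ -1)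
          rcases hc with ⟨c, -, rfl | rfl⟩ | ⟨c, i, hi, -, rfl | rfl⟩
          · linarith
          · linarith
          · have := hpos i; linarith
          · have := hmono i (by omega); linarith
        · have h8 : (l' : ℝ) = 0 := by exact_mod_cast (by omega : l' = 0)
          rcases hc with ⟨c, -, rfl | rfl⟩ | ⟨c, i, hi, -, rfl | rfl⟩
          · linarith
          · linarith
          · have := hmono i (by omega); linarith
          · have := hmono i (by omega); linarith
    · rcases hc with ⟨c, -, rfl | rfl⟩ | ⟨c, i, hi, -, rfl | rfl⟩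
      · exact h.win hr hrm hε0.le hεδ l' ⟨by linarith, by linarith⟩
      · exact h.win' hr hrm hε0.le hεδ l' ⟨by linarith, by linarith⟩
      · exact h.win' hr hrm (hpos i).le (hδ i (by omega)) l' ⟨by linarith, by linarith⟩
      · exact h.win hr hrm (hpos i).le (hδ i (by omega)) l' ⟨by linarith, by linarith⟩
  refine ⟨Nat.mul_pos hn h.pos, le_rfl, h.word_uT hm hn, ?_, by linarith, by linarith, ?_, ?_, ?_⟩
  · refine ⟨by norm_num, ?_, ?_⟩
    · refine ⟨2 ^ (n * m) * J + J', ?_⟩
      have e5 : (2 : ℝ) ^ (n * m * 2) * (α + ε) = 2 ^ (n * m) * (2 ^ (n * m) * (α + ε)) := by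
        rw [← mul_assoc, ← pow_add]; congr 2; ring
      rw [e5, hJ, mul_add, hJ']; push_cast; ring
    · rintro j hj hj2 ⟨k, hk⟩
      have : j = 1 := by omega
      subst this
      rw [mul_one, hJ] at hk
      have f1 : ((0 : ℤ) : ℝ) < ((k - J : ℤ) : ℝ) := by push_cast; linarith
      have f2 : ((k - J : ℤ) : ℝ) < ((1 : ℤ) : ℝ) := by push_cast; linarith
      have f3 := cast_lt_of f1
      have f4 := cast_lt_of f2
      omega
  · refine ⟨1, -J, ?_⟩
    rw [Nat.zero_add, mul_one, hJ]; push_cast; ring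
  · intro θ hθ1 hθ2 i
    obtain ⟨y, j, hy, hc⟩ := horb (i / m)
    have e1 : (2 : ℝ) ^ i * (α + ε) = 2 ^ (i % m) * y + ((2 ^ (i % m) * j : ℤ) : ℝ) := by
      have : (2 : ℝ) ^ i * (α + ε) = 2 ^ (i % m) * (2 ^ (m * (i / m)) * (α + ε)) := by
        rw [← mul_assoc, ← pow_add, Nat.mod_add_div]
      rw [this, hy]; push_cast; ring
    suffices hs : ∃ k : ℤ, (θ + uT m n α i) / 2 + k < 2 ^ (i % m) * y ∧
        2 ^ (i % m) * y < (θ + uT m n α i) / 2 + k + 1 / 2 by
      obtain ⟨k, k1, k2⟩ := hs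
      refine ⟨k + 2 ^ (i % m) * j, ?_, ?_⟩
      · rw [e1]; push_cast; linarith
      · rw [e1]; push_cast; linarith
    have hrm := Nat.mod_lt i h.pos
    have hwi : wL α i = wL α (i % m) := by
      have : ∀ q r, wL α (m * q + r) = wL α r := by
        intro q
        induction q with
        | zero => intro r; simp
        | succ q ih => intro r; rw [show m * (q + 1) + r = (m * q + r) + m by ring, h.wL_add, ih]
      conv_lhs => rw [← Nat.div_add_mod i m]
      exact this _ _
    have hwi' : wR α i = wR α (i % m) := by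
      have : ∀ q r, wR α (m * q + r) = wR α r := by
        intro q
        induction q with
        | zero => intro r; simp
        | succ q ih => intro r; rw [show m * (q + 1) + r = (m * q + r) + m by ring, h.wR_add, ih]
      conv_lhs => rw [← Nat.div_add_mod i m]
      exact this _ _
    have hu1 : ∀ c, i / m = n * c → uT m n α i = wL α (i % m) := by
      intro c hc
      unfold uT
      rw [if_pos (by rw [hc]; exact dvd_mul_right _ _), hwi]
    have hu2 : ∀ c l, l + 1 < n → i / m = n * c + (l + 1) → uT m n α i = wR α (i % m) := by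
      intro c l hl hc
      unfold uT
      rw [if_neg, hwi']
      rw [hc]
      intro hd
      have := Nat.le_of_dvd (by omega) ((Nat.dvd_add_right (dvd_mul_right n c)).1 hd)
      omega
    rcases Nat.lt_or_ge (i % m + 1) m with hr | hr
    · -- the letters before the last one
      have hu : uT m n α i = wL α (i % m) := by
        rcases hc with ⟨c, hc, -⟩ | ⟨c, l, hl, hc, -⟩
        · exact hu1 c hc
        · rw [hu2 c l hl hc, h.wR_spec, if_neg]
          intro hd
          have := Nat.le_of_dvd (by omega) hd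
          omega
      rw [hu]
      rcases hc with ⟨c, -, hc⟩ | ⟨c, l, hl, -, hc⟩
      · exact h.mid hr hε0.le hεδ hc (by linarith) (by linarith)
      · exact h.mid hr (hpos l).le (hδ l (by omega)) hc.symm (by linarith) (by linarith)
    · -- the last letter
      have hr' : i % m = m - 1 := by omega
      have hm1 : m - 1 + 1 = m := by omega
      have hpr : ∀ x : ℝ, (2 : ℝ) * (2 ^ (i % m) * x) = 2 ^ m * x := fun x => by
        rw [hr', ← mul_assoc, mul_comm (2 : ℝ), ← pow_succ, hm1]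
      have wa : wL α (i % m) = a % 2 := by
        unfold wL
        rw [hr', hm1, show (2 : ℝ) ^ m * α - α = a by linarith, Int.floor_intCast]
      have wa' : wR α (i % m) = (a - 1) % 2 := by
        unfold wR
        rw [hr', hm1, show (2 : ℝ) ^ m * α - α = a by linarith, Int.ceil_intCast]
      have wb : wR α (i % m) = b % 2 := by
        rw [h.wR_eq]; unfold wL
        rw [hr', hm1, show (2 : ℝ) ^ m * β - β = b by linarith, Int.floor_intCast]
      have wb' : wL α (i % m) = (b - 1) % 2 := by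
        rw [h.wL_eq]; unfold wR
        rw [hr', hm1, show (2 : ℝ) ^ m * β - β = b by linarith, Int.ceil_intCast]
      rcases hc with ⟨c, hc, rfl | rfl⟩ | ⟨c, l, hl, hc, rfl | rfl⟩
      · rw [hu1 c hc]
        refine half_of_index wa ?_ ?_
        · rw [hpr, mul_add, ha, hεm]; linarith
        · rw [hpr, mul_add, ha, hεm]; linarith
      · rw [hu1 c hc]
        refine half_of_index wb' ?_ ?_
        · rw [hpr, mul_sub, hb, hεm]; push_cast; linarith
        · rw [hpr, mul_sub, hb, hεm]; push_cast; linarith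
      · rw [hu2 c l hl hc]
        have g1 := hmono (l + 1) hl
        have g2 := hpos (l + 1)
        refine half_of_index wb ?_ ?_
        · rw [hpr, mul_sub, hb, hB]; linarith
        · rw [hpr, mul_sub, hb, hB]; linarith
      · rw [hu2 c l hl hc]
        have g1 := hmono (l + 1) hl
        have g2 := hpos (l + 1)
        refine half_of_index wa' ?_ ?_
        · rw [hpr, mul_add, ha, hB]; push_cast; linarith
        · rw [hpr, mul_add, ha, hB]; push_cast; linarith
  · rintro j x ⟨q, k, rfl⟩ g1 g2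
    exact hno _ k ⟨g1, g2⟩

/-- **Module T2**: the plateau `1 / 2` of the components of the spine of a copy -/
theorem Wake.half (h : Wake m α β) (hm : 2 ≤ m) {n : ℕ} (hn : 0 < n) :
    ∃ (u : ℕ → ℤ) (κ : ℤ), Word (n * m) u ∧ (n = 1 → u = wL α) ∧
      ∀ θ, nu u (n * m) θ = κ + 1 / 2 ↔
        α + (β - α) * 2 ^ (m * n) / (2 ^ m * (2 ^ (m * n) + 1)) ≤ θ ∧
        θ ≤ β - (β - α) * 2 ^ (m * n) / (2 ^ m * (2 ^ (m * n) + 1)) := by
  have hM : (0 : ℝ) < 2 ^ (m * n) + 1 := by positivity
  have hca := h.caT hm hn (E := (β - α) / (2 ^ (m * n) + 1)) (by field_simp)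
  have e : (2 : ℝ) ^ (m * (n - 1)) * ((β - α) / (2 ^ (m * n) + 1)) =
      (β - α) * 2 ^ (m * n) / (2 ^ m * (2 ^ (m * n) + 1)) := by
    have e1 : (2 : ℝ) ^ (m * n) = 2 ^ m * 2 ^ (m * (n - 1)) := by
      rw [← pow_add]; congr 1
      conv_lhs => rw [show n = n - 1 + 1 by omega]
      ring
    have e2 : (2 : ℝ) ^ m ≠ 0 := by positivity
    rw [mul_div_assoc', div_eq_div_iff hM.ne' (by positivity)]
    rw [e1]; ring
  rw [e] at hca
  obtain ⟨P, hcop, hP⟩ := hca.nu_w
  have hpl := hca.plateau hcop hP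
  have hodd : P % 2 = 1 := by
    rcases Int.emod_two_eq_zero_or_one P with h0 | h0
    · exfalso
      obtain ⟨x, y, hxy⟩ := hcop
      have h1 : P = 2 * (P / 2) := by omega
      rw [h1] at hxy
      push_cast at hxy
      have h2 : 2 * (x * (P / 2) + y) = 1 := by linarith
      omega
    · exact h0
  refine ⟨uT m n α, P / 2, h.word_uT hm hn, fun hn1 => by rw [hn1]; exact uT_one m α, fun θ => ?_⟩
  rw [← hpl θ]
  have e3 : P = 2 * (P / 2) + 1 := by omega
  have e4 : (P : ℝ) = 2 * ((P / 2 : ℤ) : ℝ) + 1 := by exact_mod_cast e3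
  have e5 : ((P / 2 : ℤ) : ℝ) + 1 / 2 = (P : ℝ) / ((2 : ℕ) : ℝ) := by
    rw [e4]; push_cast; ring
  rw [e5]

end Pool.Agent.Work.MLC.Shp
end

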