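import Pool.Agent.Work.MLCM.C70

section
set_option autoImplicit false

/-! # The shortest chord and the characteristic pair of a primitive component (helper54) -/

namespace Pool.Agent.Work.MLC

open Set Circ CircleDeg1Lift Filter Topology

theorem compat_shift {w : ℕ → ℤ} {θ x : ℝ} (h : Compat x θ w) (d : ℕ) :
    Compat (2 ^ d * x) θ (fun j => w (d + j)) := by
  intro j
  obtain ⟨k, h1, h2⟩ := h (d + j)
  refine ⟨k, ?_, ?_⟩
  · show (θ + w (d + j)) / 2 + k < 2 ^ j * (2 ^ d * x)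
    rw [← mul_assoc, ← pow_add, add_comm j d]; exact h1
  · show 2 ^ j * (2 ^ d * x) < (θ + w (d + j)) / 2 + k + 1 / 2
    rw [← mul_assoc, ← pow_add, add_comm j d]; exact h2

theorem compat_add_int {w : ℕ → ℤ} {θ x : ℝ} (h : Compat x θ w) (l : ℤ) : Compat (x + l) θ w := by
  intro j
  obtain ⟨k, h1, h2⟩ := h j
  refine ⟨k + 2 ^ j * l, ?_, ?_⟩ <;> push_cast <;> linarith

theorem compat_word_eq {w w' : ℕ → ℤ} (hw : ∀ i, w i = 0 ∨ w i = 1)
    (hw' : ∀ i, w' i = 0 ∨ w' i = 1) {θ x : ℝ} (h : Compat x θ w) (h' : Compat x θ w') : w = w' :=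
  linked_pairs hw hw' le_rfl le_rfl le_rfl (by linarith) h h' h h'

/-- doublings of an `n`-periodic angle, modulo one -/
theorem pow_mod_per {n : ℕ} {x : ℝ} (hx : ∃ a : ℤ, 2 ^ n * x - x = a) (i j : ℕ)
    (h : n ∣ j) : ∃ l : ℤ, (2 : ℝ) ^ (i + j) * x = 2 ^ i * x + l := by
  obtain ⟨a, ha⟩ := hx
  obtain ⟨c, rfl⟩ := h
  obtain ⟨b, hb⟩ := pow_per_mul ha c
  refine ⟨2 ^ i * b, ?_⟩
  rw [pow_add, mul_assoc, hb]
  push_cast; ring

/-- one direction of the shortest chord -/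
def Sh (θ a b : ℝ) : Prop := ∃ (s : ℕ) (l m : ℤ), 2 ^ s * a + l < θ ∧ θ < 2 ^ s * b + m ∧
  2 ^ s * b + m - (2 ^ s * a + l) ≤ 1 / 3 ∧
  ∀ (s' : ℕ) (l' : ℤ), 2 ^ s * b + m - (2 ^ s * a + l) ≤ |2 ^ s' * (b - a) - l'|

/-- **the shortest chord**: its short arc contains the parameter -/
theorem short_chord {n : ℕ} (hn : 0 < n) {v : ℕ → ℤ} {θ a b : ℝ} (ha : Compat a θ v)
    (hb : Compat b θ v) (hpa : ∃ l : ℤ, 2 ^ n * a - a = l) (hpb : ∃ l : ℤ, 2 ^ n * b - b = l)
    (hab : ∀ l : ℤ, b - a ≠ l) : Sh θ a b ∨ Sh θ b a := by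
  have hpd : ∃ l : ℤ, 2 ^ n * (b - a) - (b - a) = l := by
    obtain ⟨l, hl⟩ := hpa
    obtain ⟨m, hm⟩ := hpb
    exact ⟨m - l, by push_cast; linarith⟩
  -- the minimum
  obtain ⟨s, hs, hmin⟩ := Finset.exists_min_image (Finset.range n)
    (fun s => |(2 : ℝ) ^ s * (b - a) - round ((2 : ℝ) ^ s * (b - a))|) ⟨0, Finset.mem_range.2 hn⟩
  set g : ℝ := |(2 : ℝ) ^ s * (b - a) - round ((2 : ℝ) ^ s * (b - a))| with hg
  have hgmin : ∀ (s' : ℕ) (l' : ℤ), g ≤ |2 ^ s' * (b - a) - l'| := by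
    intro s' l'
    obtain ⟨c, hc⟩ := pow_mod_per hpd (s' % n) (n * (s' / n)) ⟨_, rfl⟩
    rw [Nat.mod_add_div] at hc
    rw [hc]
    refine (hmin (s' % n) (Finset.mem_range.2 (Nat.mod_lt _ hn))).trans ?_
    refine (round_le _ (l' - c)).trans (le_of_eq ?_)
    congr 1
    push_cast; ring
  -- the predecessor
  set s₁ := s + n - 1 with hs₁
  have hs₁1 : s₁ + 1 = s + n := by omega
  obtain ⟨k, a1, a2⟩ := ha s₁
  obtain ⟨m, b1, b2⟩ := hb s₁
  obtain ⟨c, hc⟩ := pow_mod_per hpd s n dvd_rfl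
  rw [← hs₁1, pow_succ] at hc
  -- `x = u' - u`
  set u := (2 : ℝ) ^ s₁ * a - ((θ + v s₁) / 2 + k) with hu
  set u' := (2 : ℝ) ^ s₁ * b - ((θ + v s₁) / 2 + m) with hu'
  have hu0 : 0 < u := by linarith
  have hu1 : u < 1 / 2 := by linarith
  have hu0' : 0 < u' := by linarith
  have hu1' : u' < 1 / 2 := by linarith
  have hx : (2 : ℝ) ^ s₁ * (b - a) = (u' - u) + ((m - k : ℤ) : ℝ) := by push_cast; rw [hu, hu']; ring
  have hx0 : u' - u ≠ 0 := by
    intro h0
    rw [h0, zero_add] at hx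
    obtain ⟨d, hd⟩ := pow_mod_per hpd 0 (n * s₁) ⟨_, rfl⟩
    rw [Nat.zero_add, pow_zero, one_mul] at hd
    have e1 : n * s₁ = s₁ + (n * s₁ - s₁) := by
      have : s₁ ≤ n * s₁ := Nat.le_mul_of_pos_left _ hn
      omega
    rw [e1, add_comm, pow_add, mul_assoc, hx] at hd
    refine hab (2 ^ (n * s₁ - s₁) * (m - k) - d) ?_
    push_cast
    push_cast at hd
    linarith
  -- the value `g`
  have hgx : ∀ l : ℤ, g ≤ |2 * (u' - u) - l| := by
    intro l
    have := hgmin (s₁ + 1) (l + 2 * (m - k))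
    rw [pow_succ, mul_right_comm, hx] at this
    refine this.trans (le_of_eq ?_)
    congr 1
    push_cast; ring
  have hgeq : ∃ l : ℤ, g = |2 * (u' - u) - l| := by
    refine ⟨round ((2 : ℝ) ^ s * (b - a)) + c - 2 * (m - k), ?_⟩
    rw [hg]
    congr 1
    push_cast
    push_cast at hx
    linarith
  have hgx1 : g ≤ |u' - u| := by
    have := hgmin s₁ (m - k)
    rwa [hx, add_sub_cancel_right] at this
  obtain ⟨l, hl⟩ := hgeq
  rcases lt_or_gt_of_ne hx0 with hneg | hpos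
  · -- `u' < u`
    have hlow : 1 / 2 < -(2 * (u' - u)) := by
      by_contra hcon
      push Not at hcon
      have h1 : |2 * (u' - u)| ≤ |2 * (u' - u) - l| := by
        rcases eq_or_ne l 0 with h0 | h0
        · rw [h0]; simp
        · have h2 : (1 : ℝ) ≤ |(l : ℝ)| := by exact_mod_cast Int.one_le_abs h0
          have h3 : |2 * (u' - u)| ≤ 1 / 2 := by rw [abs_le]; constructor <;> linarith
          have h4 := abs_sub_abs_le_abs_sub (l : ℝ) (2 * (u' - u))
          rw [abs_sub_comm (l : ℝ)] at h4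
          linarith
      rw [← hl, abs_mul, abs_of_pos (by norm_num : (0 : ℝ) < 2)] at h1
      have h5 : 0 < |u' - u| := abs_pos.2 hx0
      linarith
    have hg1 : g = 1 + 2 * (u' - u) := by
      refine le_antisymm ?_ ?_
      · refine (hgx (-1)).trans (le_of_eq ?_)
        push_cast
        rw [abs_of_nonneg (by linarith)]; ring
      · rw [hl]
        rcases lt_trichotomy l (-1) with h0 | h0 | h0
        · have h2 : (l : ℝ) ≤ -2 := by exact_mod_cast (show l ≤ -2 by omega)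
          exact (by linarith : 1 + 2 * (u' - u) ≤ 2 * (u' - u) - l).trans (le_abs_self _)
        · rw [h0]; push_cast
          exact (by linarith : 1 + 2 * (u' - u) ≤ 2 * (u' - u) - -1).trans (le_abs_self _)
        · have h2 : (0 : ℝ) ≤ l := by exact_mod_cast (show 0 ≤ l by omega)
          exact (by linarith : 1 + 2 * (u' - u) ≤ -(2 * (u' - u) - l)).trans (neg_le_abs _)
    rw [abs_of_neg hneg] at hgx1
    left
    have e1 : (2 : ℝ) ^ (s₁ + 1) * a = θ + v s₁ + 2 * k + 2 * u := by rw [pow_succ, hu]; ring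
    have e2 : (2 : ℝ) ^ (s₁ + 1) * b = θ + v s₁ + 2 * m + 2 * u' := by rw [pow_succ, hu']; ring
    refine ⟨s₁ + 1, -v s₁ - 2 * k - 1, -v s₁ - 2 * m, ?_, ?_, ?_, ?_⟩
    · rw [e1]; push_cast; linarith
    · rw [e2]; push_cast; linarith
    · rw [e1, e2]; push_cast; linarith
    · intro s' l'
      refine le_trans (le_of_eq ?_) (hgmin s' l')
      rw [e1, e2, hg1]; push_cast; ring
  · -- `u < u'`
    have hlow : 1 / 2 < 2 * (u' - u) := by
      by_contra hcon
      push Not at hcon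
      have h1 : |2 * (u' - u)| ≤ |2 * (u' - u) - l| := by
        rcases eq_or_ne l 0 with h0 | h0
        · rw [h0]; simp
        · have h2 : (1 : ℝ) ≤ |(l : ℝ)| := by exact_mod_cast Int.one_le_abs h0
          have h3 : |2 * (u' - u)| ≤ 1 / 2 := by rw [abs_le]; constructor <;> linarith
          have h4 := abs_sub_abs_le_abs_sub (l : ℝ) (2 * (u' - u))
          rw [abs_sub_comm (l : ℝ)] at h4
          linarith
      rw [← hl, abs_mul, abs_of_pos (by norm_num : (0 : ℝ) < 2)] at h1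
      have h5 : 0 < |u' - u| := abs_pos.2 hx0
      linarith
    have hg1 : g = 1 - 2 * (u' - u) := by
      refine le_antisymm ?_ ?_
      · refine (hgx 1).trans (le_of_eq ?_)
        push_cast
        rw [abs_sub_comm, abs_of_nonneg (by linarith)]
      · rw [hl]
        rcases lt_trichotomy l 1 with h0 | h0 | h0
        · have h2 : (l : ℝ) ≤ 0 := by exact_mod_cast (show l ≤ 0 by omega)
          exact (by linarith : 1 - 2 * (u' - u) ≤ 2 * (u' - u) - l).trans (le_abs_self _)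
        · rw [h0]; push_cast
          exact (by linarith : 1 - 2 * (u' - u) ≤ -(2 * (u' - u) - 1)).trans (neg_le_abs _)
        · have h2 : (2 : ℝ) ≤ l := by exact_mod_cast (show 2 ≤ l by omega)
          exact (by linarith : 1 - 2 * (u' - u) ≤ -(2 * (u' - u) - l)).trans (neg_le_abs _)
    rw [abs_of_pos hpos] at hgx1
    right
    have e1 : (2 : ℝ) ^ (s₁ + 1) * a = θ + v s₁ + 2 * k + 2 * u := by rw [pow_succ, hu]; ring
    have e2 : (2 : ℝ) ^ (s₁ + 1) * b = θ + v s₁ + 2 * m + 2 * u' := by rw [pow_succ, hu']; ring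
    refine ⟨s₁ + 1, -v s₁ - 2 * m - 1, -v s₁ - 2 * k, ?_, ?_, ?_, ?_⟩
    · rw [e2]; push_cast; linarith
    · rw [e1]; push_cast; linarith
    · rw [e1, e2]; push_cast; linarith
    · intro s' l'
      have e3 : |2 ^ s' * (a - b) - l'| = |2 ^ s' * (b - a) - ((-l' : ℤ) : ℝ)| := by
        rw [← abs_neg]; congr 1; push_cast; ring
      rw [e3]
      refine le_trans (le_of_eq ?_) (hgmin s' (-l'))
      rw [e1, e2, hg1]; push_cast; ring

/-- **the characteristic pair of a primitive component** -/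
structure CP (n : ℕ) (v : ℕ → ℤ) (s t : ℝ) : Prop where
  two : 2 ≤ n
  bit : ∃ c : ℤ, ∀ i, v i = c ∨ v i = c + 1
  perw : ∀ i, v (i + n) = v i
  prim : ∀ d, 0 < d → d < n → ∃ i, v (i + d) ≠ v i
  lt : s < t
  short : t ≤ s + 1 / 3
  per_s : ∃ a : ℤ, 2 ^ n * s - s = a
  per_t : ∃ a : ℤ, 2 ^ n * t - t = a
  pos_s : ∀ j, ∃ k : ℤ, (t + v j) / 2 + k ≤ 2 ^ j * s ∧ 2 ^ j * s ≤ (s + v j) / 2 + k + 1 / 2
  pos_t : ∀ j, ∃ k : ℤ, (t + v j) / 2 + k ≤ 2 ^ j * t ∧ 2 ^ j * t ≤ (s + v j) / 2 + k + 1 / 2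
  sep_s : ∀ (j : ℕ) (l : ℤ), 0 < j → j < n → ¬ (s ≤ 2 ^ j * s + l ∧ 2 ^ j * s + l ≤ t)
  sep_t : ∀ (j : ℕ) (l : ℤ), 0 < j → j < n → ¬ (s ≤ 2 ^ j * t + l ∧ 2 ^ j * t + l ≤ t)
  uniq : ∀ θ, s < θ → θ < t → ∀ x : ℝ, (∃ a : ℤ, 2 ^ n * x - x = a) → Compat x θ v →
    ∃ z : ℤ, x = s + z ∨ x = t + z

end Pool.Agent.Work.MLC
end

section
set_option autoImplicit false

/-! # Construction of the characteristic pair (helper54) -/

namespace Pool.Agent.Work.MLC

open Set Circ CircleDeg1Lift Filter Topology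

/-- the point `t` is closed-compatible with the lower word at the parameter `t`, and the last point
is the end of its half circle -/
theorem LE.closed {n : ℕ} {w : ℕ → ℤ} {t : ℝ} {k : ℤ} (h : LE n w t k) (j : ℕ) :
    ∃ m : ℤ, (t + flw n w j) / 2 + m < 2 ^ j * t ∧ 2 ^ j * t ≤ (t + flw n w j) / 2 + m + 1 / 2 := by
  unfold flw
  by_cases hj : (j + 1) % n = 0
  · rw [if_pos hj]
    obtain ⟨m, hm⟩ := h.start hj
    refine ⟨m + w j - 1, ?_, ?_⟩ <;> push_cast <;> linarith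
  · rw [if_neg hj]
    obtain ⟨m, h3, h4⟩ := h.ho j
    exact ⟨m, lt_of_le_of_ne h3 (Ne.symm (h.not_start hj m)), h4.le⟩

theorem LE.closed_last {n : ℕ} {w : ℕ → ℤ} {t : ℝ} {k : ℤ} (h : LE n w t k) :
    ∃ m : ℤ, 2 ^ (n - 1) * t = (t + flw n w (n - 1)) / 2 + m + 1 / 2 := by
  have hn := h.pos
  have hj : (n - 1 + 1) % n = 0 := by rw [Nat.sub_add_cancel hn, Nat.mod_self]
  obtain ⟨m, hm⟩ := h.start hj
  refine ⟨m + w (n - 1) - 1, ?_⟩
  unfold flw
  rw [if_pos hj]
  push_cast; linarith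

/-- the second fixed point of the lower return map -/
theorem LE.exists_second {n : ℕ} {w : ℕ → ℤ} {t : ℝ} {k : ℤ} (h : LE n w t k) {M : ℤ}
    (hfix : gw (flw n w) t n t = t + M)
    (hnb : ∃ x, t < x ∧ x < t + 1 ∧ x + M ≤ gw (flw n w) t n x) :
    ∃ t', t < t' ∧ t' < t + 1 ∧ (∃ a : ℤ, 2 ^ n * t' - t' = a) ∧
      ∀ j, ∃ m : ℤ, (t + flw n w j) / 2 + m < 2 ^ j * t' ∧
        2 ^ j * t' ≤ (t + flw n w j) / 2 + m + 1 / 2 := by
  have hn := h.pos
  set v := flw n w with hv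
  have hvper : ∀ i, v (i + n) = v i := flw_per h.word.2.1
  obtain ⟨x₀, hx1, hx2, hx3⟩ := hnb
  -- the map is constant to the right of `t`
  have hlin := gw_lin v t t (n - 1) fun i _ => by
    obtain ⟨m, h1, h2⟩ := h.closed i
    exact ⟨m, h1.le, h2⟩
  have hflat : ∀ᶠ x in 𝓝[>] t, gw v t n x = gw v t n t := by
    obtain ⟨a, ha⟩ := hlin
    obtain ⟨m, hm⟩ := h.closed_last
    refine gw_const_right (i := n - 1) (by omega) (k := m - a) ?_ ?_
    · rw [ha, hm]; push_cast; linarith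
    · rw [ha, hm]; push_cast; linarith
  set S : Set ℝ := {x | t < x ∧ x + M ≤ gw v t n x} with hS
  have hxS : x₀ ∈ S := ⟨hx1, hx3⟩
  have hbd : BddBelow S := ⟨t, fun x hx => hx.1.le⟩
  set t' := sInf S with ht'
  have hle : t' ≤ x₀ := csInf_le hbd hxS
  have hlt : t < t' := by
    obtain ⟨ε, hε, hεf⟩ := (mem_nhdsGT_iff_exists_Ioo_subset).1 hflat
    have hε' : t < ε := hε
    have hall : ∀ x ∈ S, ε ≤ x := by
      intro x hx
      by_contra hcon
      push Not at hcon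
      have h1 : gw v t n x = gw v t n t := hεf ⟨hx.1, hcon⟩
      have h2 := hx.2
      rw [h1, hfix] at h2
      linarith [hx.1]
    exact hε'.trans_le (le_csInf ⟨x₀, hxS⟩ hall)
  have hcont := gw_continuous' v t n
  have hbelow : ∀ x, t < x → x < t' → gw v t n x < x + M := by
    intro x h1 h2
    by_contra hcon
    push Not at hcon
    exact absurd (csInf_le hbd (show x ∈ S from ⟨h1, hcon⟩)) (not_le.2 h2)
  have hcl : t' + M ≤ gw v t n t' := by
    have h1 : t' ∈ closure S := csInf_mem_closure ⟨x₀, hxS⟩ hbd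
    have h2 : IsClosed {x : ℝ | x + M ≤ gw v t n x} :=
      isClosed_le (continuous_id.add continuous_const) hcont
    exact (closure_minimal (fun x hx => hx.2) h2) h1
  have hge : gw v t n t' ≤ t' + M := by
    have h1 : Tendsto (gw v t n) (𝓝[<] t') (𝓝 (gw v t n t')) :=
      hcont.continuousAt.tendsto.mono_left nhdsWithin_le_nhds
    have h2 : Tendsto (fun x : ℝ => x + M) (𝓝[<] t') (𝓝 (t' + M)) :=
      ((continuous_id.add continuous_const).continuousAt.tendsto).mono_left nhdsWithin_le_nhds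
    refine le_of_tendsto_of_tendsto h1 h2 ?_
    have h3 : ∀ᶠ x in 𝓝[<] t', t < x := mem_nhdsWithin_of_mem_nhds (lt_mem_nhds hlt)
    filter_upwards [h3, self_mem_nhdsWithin] with x h4 h5
    exact (hbelow x h4 h5).le
  have hfix' : gw v t n t' = t' + M := le_antisymm hge hcl
  -- the orbit is in the arcs `(start, end]`
  have harc : ∀ i < n, ∃ m : ℤ, (t + v i) / 2 + m < gw v t i t' ∧
      gw v t i t' ≤ (t + v i) / 2 + m + 1 / 2 := by
    intro i hi
    rcases arc_cases (t + v i) (gw v t i t') with ⟨m, h1, h2⟩ | ⟨m, hm⟩ | ⟨m, h1, h2⟩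
    · exact ⟨m, h1, h2.le⟩
    · exfalso
      have h1 := gw_const_left (w := v) (θ := t) (x := t') hi (k := m - 1)
        (by rw [hm]; push_cast; linarith) (by rw [hm]; push_cast; linarith)
      have h3 : ∀ᶠ x in 𝓝[<] t', t < x := mem_nhdsWithin_of_mem_nhds (lt_mem_nhds hlt)
      obtain ⟨x, ⟨h4, h5⟩, h6⟩ := ((h1.and h3).and self_mem_nhdsWithin).exists
      have h6' : x < t' := h6
      have := hbelow x h5 h6'
      linarith
    · rcases h1.eq_or_lt with h1 | h1
      · exact ⟨m, by rw [← h1]; linarith, h1.ge⟩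
      · exfalso
        have h1 := gw_const_left (w := v) (θ := t) (x := t') hi (k := m) h1 h2.le
        have h3 : ∀ᶠ x in 𝓝[<] t', t < x := mem_nhdsWithin_of_mem_nhds (lt_mem_nhds hlt)
        obtain ⟨x, ⟨h4, h5⟩, h6⟩ := ((h1.and h3).and self_mem_nhdsWithin).exists
        have h6' : x < t' := h6
        have := hbelow x h5 h6'
        linarith
  have hlin' := gw_of_cl (w := v) (θ := t) (x := t') (m := n) fun i hi => by
    obtain ⟨m, h1, h2⟩ := harc i hi
    exact ⟨m, h1.le, h2⟩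
  have hper : ∃ a : ℤ, 2 ^ n * t' - t' = a := by
    obtain ⟨a, ha⟩ := hlin' n le_rfl
    exact ⟨M - a, by push_cast; linarith⟩
  refine ⟨t', hlt, hle.trans_lt hx2, hper, fun j => ?_⟩
  obtain ⟨a, ha⟩ := hper
  obtain ⟨b, hb⟩ := pow_per_mul ha (j / n)
  obtain ⟨m, h1, h2⟩ := harc (j % n) (Nat.mod_lt _ hn)
  obtain ⟨c, hc⟩ := hlin' (j % n) (Nat.mod_lt _ hn).le
  have e1 : (2 : ℝ) ^ j * t' = 2 ^ (j % n) * t' + ((2 ^ (j % n) * b : ℤ) : ℝ) := by
    conv_lhs => rw [← Nat.mod_add_div j n]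
    rw [pow_add, mul_assoc, hb]
    push_cast; ring
  have e2 : v j = v (j % n) := by
    conv_lhs => rw [← Nat.mod_add_div j n]
    exact word_mod hvper _ _
  rw [hc] at h1 h2
  rw [e1, e2]
  refine ⟨m - c + 2 ^ (j % n) * b, ?_, ?_⟩ <;> push_cast <;> linarith

/-- from `(start, end]` at the parameter `t` to `Compat` slightly to the right -/
theorem compat_of_closed {v : ℕ → ℤ} {t x θ : ℝ}
    (h : ∀ j, ∃ m : ℤ, (t + v j) / 2 + m < 2 ^ j * x ∧ 2 ^ j * x ≤ (t + v j) / 2 + m + 1 / 2)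
    (h1 : t < θ) (hno : NoPt x t θ) : Compat x θ v := by
  intro j
  obtain ⟨m, h3, h4⟩ := h j
  refine ⟨m, ?_, by linarith⟩
  have h6 := hno (j + 1) (-v j - 2 * m)
  push_cast at h6
  rw [pow_succ] at h6
  have h7 := h6 (by linarith)
  linarith [not_le.1 h7]

section

variable {n : ℕ} {v : ℕ → ℤ} {t t' θ₀ : ℝ}

/-- shift of an exact word is different -/
theorem shift_ne (hn : 0 < n) (hv : Word n v) {s : ℕ} (hs : ¬ n ∣ s) :
    (fun j => v (s + j)) ≠ v := by
  intro he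
  refine hs (Nat.dvd_of_mod_eq_zero ?_)
  have h3 : s % n = 0 % n := mod_eq_of_word hn hv fun j => by
    rw [Nat.zero_add]; exact congrFun he j
  rw [h3, Nat.zero_mod]

/-- two angles compatible with a shift of the word are on the same side of the pair `t, t'`; if one
of them is strictly between, they are close -/
theorem inside_of_inside (hn : 0 < n) (hv : Word n v) (hct : Compat t θ₀ v)
    (hct' : Compat t' θ₀ v) (htt : t < t') (htt1 : t' < t + 1) {s : ℕ} (hs : ¬ n ∣ s) {p p' : ℝ}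
    (hp : Compat p θ₀ (fun j => v (s + j))) (hp' : Compat p' θ₀ (fun j => v (s + j)))
    (h1 : t ≤ p) (h2 : p ≤ t') : ∃ l : ℤ, t < p' + l ∧ p' + l < t' := by
  have hne := shift_ne hn hv hs
  have hb' : ∀ i, (fun j => v (s + j)) i = 0 ∨ (fun j => v (s + j)) i = 1 := fun i => hv.1 _
  have hpt : ∀ q : ℝ, Compat q θ₀ (fun j => v (s + j)) → Compat q θ₀ v → False := fun q h3 h4 =>
    hne (compat_word_eq hb' hv.1 h3 h4)
  -- the lift of `p'` in `[t, t + 1)`
  set l : ℤ := -⌊p' - t⌋ with hl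
  have h3 : t ≤ p' + l := by
    have := Int.floor_le (p' - t); rw [hl]; push_cast; linarith
  have h4 : p' + l < t + 1 := by
    have := Int.lt_floor_add_one (p' - t); rw [hl]; push_cast; linarith
  have hc := compat_add_int hp' l
  refine ⟨l, lt_of_le_of_ne h3 fun he => ?_, ?_⟩
  · rw [← he] at hc
    exact hpt t hc hct
  · by_contra hcon
    push Not at hcon
    exact hne (linked_pairs hv.1 hb' h1 h2 hcon h4.le hct hp hct' hc).symm

/-- orbit points of the pair between `t` and `t'`: impossible -/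
theorem no_inside (hn : 0 < n) (hv : Word n v) (hct : Compat t θ₀ v) (hct' : Compat t' θ₀ v)
    (htt : t < t') (htt1 : t' < t + 1)
    (hmin : ∀ (s : ℕ) (l : ℤ), t' - t ≤ |2 ^ s * (t' - t) - l|) {s : ℕ} (hs : ¬ n ∣ s) :
    (∀ l : ℤ, ¬ (t ≤ 2 ^ s * t + l ∧ 2 ^ s * t + l ≤ t')) ∧
      ∀ l : ℤ, ¬ (t ≤ 2 ^ s * t' + l ∧ 2 ^ s * t' + l ≤ t') := by
  have hne := shift_ne hn hv hs
  have hb' : ∀ i, (fun j => v (s + j)) i = 0 ∨ (fun j => v (s + j)) i = 1 := fun i => hv.1 _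
  have c1 := compat_shift hct s
  have c2 := compat_shift hct' s
  have hne_t : ∀ q : ℝ, Compat q θ₀ (fun j => v (s + j)) → q ≠ t ∧ q ≠ t' := fun q h3 =>
    ⟨fun he => hne (compat_word_eq hb' hv.1 h3 (he ▸ hct)),
      fun he => hne (compat_word_eq hb' hv.1 h3 (he ▸ hct'))⟩
  constructor
  · rintro l ⟨h1, h2⟩
    have cp := compat_add_int c1 l
    obtain ⟨m, h3, h4⟩ := inside_of_inside hn hv hct hct' htt htt1 hs cp c2 h1 h2
    have h5 := hmin s (l - m)
    have h6 : (2 : ℝ) ^ s * (t' - t) - ((l - m : ℤ) : ℝ) = (2 ^ s * t' + m) - (2 ^ s * t + l) := by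
      push_cast; ring
    rw [h6] at h5
    have h7 : |(2 ^ s * t' + m) - (2 ^ s * t + l)| < t' - t := by
      have := lt_of_le_of_ne h1 (Ne.symm (hne_t _ cp).1)
      rw [abs_lt]; constructor <;> linarith
    linarith
  · rintro l ⟨h1, h2⟩
    have cp := compat_add_int c2 l
    obtain ⟨m, h3, h4⟩ := inside_of_inside hn hv hct hct' htt htt1 hs cp c1 h1 h2
    have h5 := hmin s (m - l)
    have h6 : (2 : ℝ) ^ s * (t' - t) - ((m - l : ℤ) : ℝ) = (2 ^ s * t' + l) - (2 ^ s * t + m) := by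
      push_cast; ring
    rw [h6] at h5
    have h7 : |(2 ^ s * t' + l) - (2 ^ s * t + m)| < t' - t := by
      have := lt_of_le_of_ne h1 (Ne.symm (hne_t _ cp).1)
      rw [abs_lt]; constructor <;> linarith
    linarith

/-- the pair `t, t'` is its own shortest chord -/
theorem short_self (hn : 0 < n) (hv : Word n v) (hct : Compat t θ₀ v) (hct' : Compat t' θ₀ v)
    (htt : t < t') (htt1 : t' < t + 1) (h0 : t < θ₀) (h0' : θ₀ < t')
    (hp : ∃ a : ℤ, 2 ^ n * t - t = a) (hp' : ∃ a : ℤ, 2 ^ n * t' - t' = a)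
    (hno : NoPt t t θ₀) (hno' : NoPt t' t θ₀) :
    t' ≤ t + 1 / 3 ∧ ∀ (s : ℕ) (l : ℤ), t' - t ≤ |2 ^ s * (t' - t) - l| := by
  have hint : ∀ l : ℤ, t' - t ≠ l := by
    intro l hl
    have f1 : ((0 : ℤ) : ℝ) < l := by rw [← hl]; push_cast; linarith
    have f2 : (l : ℝ) < ((1 : ℤ) : ℝ) := by rw [← hl]; push_cast; linarith
    have f3 : 0 < l := by exact_mod_cast f1
    have f4 : l < 1 := by exact_mod_cast f2
    omega
  -- common part: the phase is `0`
  have key : ∀ (s : ℕ) (α β : ℝ), Compat α θ₀ (fun j => v (s + j)) →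
      Compat β θ₀ (fun j => v (s + j)) → α ≤ t → θ₀ < β → β - α ≤ 1 / 3 →
      (∀ l' : ℤ, β - α ≤ |(t' - t) - l'|) → n ∣ s := by
    intro s α β hα hβ h1 h2 h3 h4
    by_contra hs
    have hne := shift_ne hn hv hs
    have hb' : ∀ i, (fun j => v (s + j)) i = 0 ∨ (fun j => v (s + j)) i = 1 := fun i => hv.1 _
    have hαt : α < t := lt_of_le_of_ne h1 fun he =>
      hne (compat_word_eq hb' hv.1 hα (he ▸ hct))
    rcases le_or_gt t' β with h5 | h5
    · have := h4 0
      rw [Int.cast_zero, sub_zero, abs_of_pos (by linarith)] at this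
      linarith
    · rcases le_or_gt t' (α + 1) with h6 | h6
      · exact hne (linked_pairs hb' hv.1 hαt.le (by linarith) h5.le h6 hα hct hβ hct')
      · have := h4 1
        rw [Int.cast_one, abs_of_neg (by linarith)] at this
        linarith
  have hdvd : ∀ {s : ℕ}, n ∣ s → ∀ x : ℝ, (∃ a : ℤ, 2 ^ n * x - x = a) →
      ∃ l : ℤ, (2 : ℝ) ^ s * x = x + l := by
    intro s hs x hx
    obtain ⟨l, hl⟩ := pow_mod_per hx 0 s hs
    rw [Nat.zero_add, pow_zero, one_mul] at hl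
    exact ⟨l, hl⟩
  rcases short_chord hn hct hct' hp hp' hint with ⟨s, l, m, h1, h2, h3, h4⟩ | ⟨s, l, m, h1, h2, h3, h4⟩
  · have cα := compat_add_int (compat_shift hct s) l
    have cβ := compat_add_int (compat_shift hct' s) m
    have hαt : 2 ^ s * t + l ≤ t := by
      by_contra hcon
      push Not at hcon
      exact hno s l hcon h1.le
    have hns := key s _ _ cα cβ hαt h2 h3 fun l' => by
      have := h4 0 l'
      rwa [pow_zero, one_mul] at this
    obtain ⟨a, ha⟩ := hdvd hns t hp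
    obtain ⟨b, hb⟩ := hdvd hns t' hp'
    rw [ha] at h1 h3 hαt h4
    rw [hb] at h2 h3 h4
    have hal : a + l = 0 := by
      have f1 : ((-1 : ℤ) : ℝ) < ((a + l : ℤ) : ℝ) := by push_cast; linarith
      have f2 : ((a + l : ℤ) : ℝ) < ((1 : ℤ) : ℝ) := by push_cast; linarith
      have f3 : -1 < a + l := by exact_mod_cast f1
      have f4 : a + l < 1 := by exact_mod_cast f2
      omega
    have hal' : (a : ℝ) + l = 0 := by exact_mod_cast hal
    have hbm : b + m = 0 := by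
      have f1 : ((-1 : ℤ) : ℝ) < ((b + m : ℤ) : ℝ) := by push_cast; linarith
      have f2 : ((b + m : ℤ) : ℝ) < ((1 : ℤ) : ℝ) := by push_cast; linarith
      have f3 : -1 < b + m := by exact_mod_cast f1
      have f4 : b + m < 1 := by exact_mod_cast f2
      omega
    have hbm' : (b : ℝ) + m = 0 := by exact_mod_cast hbm
    refine ⟨by linarith, fun s' l' => ?_⟩
    have := h4 s' l'
    linarith
  · exfalso
    have cα := compat_add_int (compat_shift hct' s) l
    have cβ := compat_add_int (compat_shift hct s) m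
    have hαt : 2 ^ s * t' + l ≤ t := by
      by_contra hcon
      push Not at hcon
      exact hno' s l hcon h1.le
    have hns := key s _ _ cα cβ hαt h2 h3 fun l' => by
      have := h4 0 (-l')
      rw [pow_zero, one_mul] at this
      refine this.trans (le_of_eq ?_)
      rw [← abs_neg]; congr 1; push_cast; ring
    obtain ⟨b, hb⟩ := hdvd hns t hp
    rw [hb] at h2 h3
    have f1 : ((0 : ℤ) : ℝ) < ((b + m : ℤ) : ℝ) := by push_cast; linarith
    have f2 : 0 < b + m := by exact_mod_cast f1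
    have f3 : ((1 : ℤ) : ℝ) ≤ ((b + m : ℤ) : ℝ) := by exact_mod_cast f2
    push_cast at f3
    linarith

/-- position of a compatible angle with respect to an arc without orbit points -/
theorem pos_of_compat {x : ℝ} (hx : ∃ a : ℤ, 2 ^ n * x - x = a) (h0 : t < θ₀) (h0' : θ₀ < t')
    (hc : Compat x θ₀ v)
    (hno : ∀ (j : ℕ) (l : ℤ), ¬ (t < 2 ^ j * x + l ∧ 2 ^ j * x + l < t')) (j : ℕ) :
    ∃ k : ℤ, (t' + v j) / 2 + k ≤ 2 ^ j * x ∧ 2 ^ j * x ≤ (t + v j) / 2 + k + 1 / 2 := by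
  obtain ⟨k, h1, h2⟩ := hc j
  have e : ∀ l : ℤ, (2 : ℝ) ^ (j + 1) * x + l = 2 * (2 ^ j * x) + l := fun l => by
    rw [pow_succ]; ring
  refine ⟨k, ?_, ?_⟩
  · have h3 := hno (j + 1) (-v j - 2 * k)
    rw [e] at h3
    push_cast at h3
    by_contra hcon
    push Not at hcon
    exact h3 ⟨by linarith, by linarith⟩
  · have h3 := hno (j + 1) (-v j - 2 * k - 1)
    rw [e] at h3
    push_cast at h3
    by_contra hcon
    push Not at hcon
    exact h3 ⟨by linarith, by linarith⟩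

end

end Pool.Agent.Work.MLC
end

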