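import Pool.Agent.Work.MLCM.C60
import Pool.Agent.Work.MLCM.C65
import Pool.Agent.Work.MLCM.C69
import Pool.Agent.Work.MLCM.C72
import Pool.Agent.Work.MLCM.C78
import Pool.Agent.Work.MLCM.C79

section
set_option autoImplicit false

/-! # Theorem Cap: the length of the plateaus (helper24) -/

namespace Pool.Agent.Work.MLC.Cap

open Filter Topology Metric Set Complex MeasureTheory
open Pool.Agent.Work.MLC.Sat Pool.Agent.Work.MLC.Cnt

/-- the plateau of a datum is not too short -/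
lemma dat_len_lower {D : Dat} (hC : D.Cir) :
    (1 / 2 : ℝ) ^ (D.m * D.x.den) ≤ D.tp - D.tm := by
  obtain ⟨-, ⟨k, hk⟩, -⟩ := hC.per
  obtain ⟨j, l, hj⟩ := hC.orb
  have hlt := hC.lt
  set n : ℕ := D.m * D.x.den with hn
  have h1 : ((2 : ℝ) ^ n - 1) * (D.tp - D.tm) =
      ((2 ^ (D.m * j) * k + (2 ^ n - 1) * l - k : ℤ) : ℝ) := by
    push_cast
    rw [hj]
    linear_combination (2 ^ (D.m * j) - 1) * hk
  have h2 : (0 : ℝ) < 2 ^ n := by positivity
  have h4 : (1 : ℝ) ≤ 2 ^ n := one_le_pow₀ (by norm_num)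
  have h5 : (0 : ℝ) < 2 ^ n - 1 := by
    rcases h4.lt_or_eq with h | h
    · linarith
    · exfalso
      rw [← h] at hk h1
      -- `n = 0`
      have hn0 : n = 0 := by
        by_contra hne
        have : (1 : ℝ) < 2 ^ n := one_lt_pow₀ (by norm_num) hne
        linarith
      have hq : D.x.den ≠ 0 := D.x.den_nz
      have hm0 : D.m = 0 := by
        rcases Nat.mul_eq_zero.1 hn0 with h | h
        · exact h
        · exact absurd h hq
      have hmj : D.m * j = 0 := by rw [hm0, zero_mul]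
      rw [hmj, pow_zero, one_mul] at hj
      have h6 := hC.lt_one
      have h7 : (0 : ℝ) < l := by linarith
      have h8 : (l : ℝ) < 1 := by linarith
      have h9 : 0 < l := by exact_mod_cast h7
      have h10 : l < 1 := by exact_mod_cast h8
      omega
  have h6 : (0 : ℝ) < ((2 ^ (D.m * j) * k + (2 ^ n - 1) * l - k : ℤ) : ℝ) := by
    rw [← h1]
    exact mul_pos h5 (by linarith)
  have h7 : (1 : ℝ) ≤ ((2 ^ (D.m * j) * k + (2 ^ n - 1) * l - k : ℤ) : ℝ) := by
    have : (0 : ℤ) < 2 ^ (D.m * j) * k + (2 ^ n - 1) * l - k := by exact_mod_cast h6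
    exact_mod_cast this
  rw [← h1] at h7
  rw [one_div, inv_pow, ← one_div, div_le_iff₀ h2]
  nlinarith

variable {W : WS} {x : ℚ}

/-- `2 ^ (-m q) ≤ l` -/
theorem len_lower (h : W.Ok) (h0 : 0 < x) (h1 : x < 1) :
    (1 / 2 : ℝ) ^ (W.m * x.den) ≤ (W.dat x).tp - (W.dat x).tm := by
  have h2 := dat_len_lower (WS.dat_cir h h0 h1)
  rwa [WS.dat_m h h0 h1, WS.dat_x h h0 h1] at h2

/-- `l ≤ 2 ^ (-m (q - 2))` -/
theorem len_upper (h : W.Ok) (h0 : 0 < x) (h1 : x < 1) :
    (W.dat x).tp - (W.dat x).tm ≤ (1 / 2 : ℝ) ^ (W.m * (x.den - 2)) := by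
  have h2 := arc_len (WS.dat_par h h0 h1) (WS.dat_cir h h0 h1)
  rw [WS.dat_m h h0 h1, WS.dat_x h h0 h1] at h2
  rw [one_div, inv_pow, ← one_div, le_div_iff₀ (by positivity)]
  linarith

lemma len_pos (h : W.Ok) (h0 : 0 < x) (h1 : x < 1) : 0 < (W.dat x).tp - (W.dat x).tm :=
  lt_of_lt_of_le (by positivity) (len_lower h h0 h1)

lemma two_le_den_of (h0 : 0 < x) (h1 : x < 1) : 2 ≤ x.den := by
  rcases Nat.lt_or_ge x.den 2 with h | h
  · exfalso
    have h3 : x.den = 1 := by have := x.pos; omega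
    have h4 : x = x.num := by
      conv_lhs => rw [← Rat.num_div_den x]
      rw [h3]; simp
    rw [h4] at h0 h1
    have h5 : 0 < x.num := by exact_mod_cast h0
    have h6 : x.num < 1 := by exact_mod_cast h1
    omega
  · exact h

/-- the spread of the leaf angles is at most the length of the plateau -/
theorem DD_le_len (h : W.Ok) (h0 : 0 < x) (h1 : x < 1) :
    DD W.m x.den ≤ (W.dat x).tp - (W.dat x).tm := by
  refine le_trans ?_ (len_lower h h0 h1)
  have hm : 0 < W.m := (WS.dat_m h h0 h1) ▸ (WS.dat_par h h0 h1).m_pos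
  have hq := two_le_den_of h0 h1
  unfold DD
  have h2 : W.m * x.den + 1 ≤ W.m * (3 * x.den - 1) := by
    have h3 : 3 * x.den - 1 = x.den + (2 * x.den - 1) := by omega
    rw [h3, mul_add]
    have h4 : 1 ≤ W.m * (2 * x.den - 1) := Nat.mul_pos hm (by omega)
    omega
  calc 2 * (1 / 2 : ℝ) ^ (W.m * (3 * x.den - 1)) ≤ 2 * (1 / 2) ^ (W.m * x.den + 1) := by
        refine mul_le_mul_of_nonneg_left ?_ (by norm_num)
        exact pow_le_pow_of_le_one (by norm_num) (by norm_num) h2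
    _ = (1 / 2) ^ (W.m * x.den) := by rw [pow_succ]; ring

/-- the spread of the leaf angles is at most half the square of the length of the plateau -/
theorem DD_le_sq (h : W.Ok) (h0 : 0 < x) (h1 : x < 1) (h3 : 3 ≤ x.den) :
    DD W.m x.den ≤ ((W.dat x).tp - (W.dat x).tm) ^ 2 / 2 := by
  have hm : 0 < W.m := (WS.dat_m h h0 h1) ▸ (WS.dat_par h h0 h1).m_pos
  have h4 : ((1 / 2 : ℝ) ^ (W.m * x.den)) ^ 2 ≤ ((W.dat x).tp - (W.dat x).tm) ^ 2 :=
    pow_le_pow_left₀ (by positivity) (len_lower h h0 h1) 2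
  refine le_trans ?_ (div_le_div_of_nonneg_right h4 (by norm_num))
  unfold DD
  have h2 : W.m * x.den * 2 + 2 ≤ W.m * (3 * x.den - 1) := by
    have h5 : 3 * x.den - 1 = x.den * 2 + (x.den - 1) := by omega
    rw [h5, mul_add]
    have h6 : 1 * 2 ≤ W.m * (x.den - 1) := Nat.mul_le_mul hm (by omega)
    rw [← mul_assoc]
    omega
  calc 2 * (1 / 2 : ℝ) ^ (W.m * (3 * x.den - 1)) ≤ 2 * (1 / 2) ^ (W.m * x.den * 2 + 2) := by
        refine mul_le_mul_of_nonneg_left ?_ (by norm_num)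
        exact pow_le_pow_of_le_one (by norm_num) (by norm_num) h2
    _ = ((1 / 2 : ℝ) ^ (W.m * x.den)) ^ 2 / 2 := by rw [pow_add, pow_mul]; ring

end Pool.Agent.Work.MLC.Cap
end

section
set_option autoImplicit false

/-! # Theorem Cap, module DI: the distance of the angles near a root (helper43)

Between the plateaus of two Farey neighbours `a < b` with denominators of sum `> n / m + 1` there is
no angle of period `n` (`perL54`), hence their distance is at most `1 / (2 ^ n - 1)`. -/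

namespace Pool.Agent.Work.MLC.Cap

open Filter Topology Metric Set Complex MeasureTheory
open Pool.Agent.Work.MLC.Sat Pool.Agent.Work.MLC.Cnt
open scoped ENNReal

/-- the translates of the orbit of the angle -/
def OA (θ : ℝ) : Set ℝ := {x | ∃ (j : ℕ) (k : ℤ), x = 2 ^ j * θ + k}

lemma OA_tdbl {θ x : ℝ} (w : ℤ) (hx : x ∈ OA θ) : Circ.tdbl (θ + w) x ∈ OA θ := by
  obtain ⟨j, k, rfl⟩ := hx
  obtain ⟨l, hl⟩ : ∃ l : ℤ, l = ⌊(2 ^ j * θ + k) - (θ + w) / 2⌋ := ⟨_, rfl⟩
  have h1 := Int.floor_le ((2 ^ j * θ + k) - (θ + w) / 2)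
  have h2 := Int.lt_floor_add_one ((2 ^ j * θ + k) - (θ + w) / 2)
  rw [← hl] at h1 h2
  rcases le_total (2 ^ j * θ + k) ((θ + w) / 2 + l + 1 / 2) with h | h
  · refine ⟨j + 1, 2 * k - l, ?_⟩
    rw [Circ.tdbl_lin l (by linarith) h, pow_succ]
    push_cast; ring
  · refine ⟨0, w + l + 1, ?_⟩
    rw [Circ.tdbl_flat l h (by linarith)]
    push_cast; ring

lemma OA_gw {θ x : ℝ} (w : ℕ → ℤ) (hx : x ∈ OA θ) (n : ℕ) : Circ.gw w θ n x ∈ OA θ := by
  induction n with
  | zero => exact hx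
  | succ n ih => exact OA_tdbl _ ih

lemma OA_iter {θ x : ℝ} (w : ℕ → ℤ) (m : ℕ) (hx : x ∈ OA θ) (i : ℕ) :
    ((Circ.gw w θ m) ^ i) x ∈ OA θ := by
  induction i with
  | zero => exact hx
  | succ i ih => rw [pow_succ']; exact OA_gw w ih m

lemma OA_fract {θ : ℝ} {n : ℕ} (hn : 0 < n) {a : ℤ} (ht : (2 : ℝ) ^ n * θ - θ = a) {x : ℝ}
    (hx : x ∈ OA θ) :
    Int.fract x ∈ (fun i : ℕ => Int.fract ((2 : ℝ) ^ i * θ)) '' (Finset.range n : Set ℕ) := by
  obtain ⟨j, k, rfl⟩ := hx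
  have key : ∀ j : ℕ, ∃ i < n, ∃ k : ℤ, (2 : ℝ) ^ j * θ = 2 ^ i * θ + k := by
    intro j
    induction j with
    | zero => exact ⟨0, hn, 0, by simp⟩
    | succ j ih =>
      obtain ⟨i, hi, k, hk⟩ := ih
      rcases Nat.lt_or_ge (i + 1) n with h | h
      · refine ⟨i + 1, h, 2 * k, ?_⟩
        rw [pow_succ, pow_succ]; push_cast; linarith
      · have e : i + 1 = n := by omega
        refine ⟨0, hn, 2 * k + a, ?_⟩
        have h3 : (2 : ℝ) ^ (i + 1) * θ - θ = a := by rw [e]; exact ht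
        rw [pow_succ] at h3 ⊢
        push_cast; simp only [pow_zero, one_mul]; linarith
  obtain ⟨i, hi, k', hk'⟩ := key j
  refine ⟨i, by simpa using hi, ?_⟩
  rw [hk']
  show Int.fract ((2 : ℝ) ^ i * θ) = _
  rw [Int.fract_add_intCast, Int.fract_add_intCast]

/-- **the rotation number of a periodic angle is rational** -/
theorem nu_rat43 {w : ℕ → ℤ} {m n : ℕ} {θ : ℝ} (hn : 0 < n)
    (ht : ∃ a : ℤ, (2 : ℝ) ^ n * θ - θ = a) : ∃ r : ℚ, Circ.nu w m θ = r := by
  obtain ⟨a, ha⟩ := ht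
  have h0 : θ ∈ OA θ := ⟨0, 0, by simp⟩
  obtain ⟨i, -, j, -, hij, he⟩ := Set.Infinite.exists_lt_map_eq_of_mapsTo
    (s := (Set.univ : Set ℕ)) (t := (fun i : ℕ => Int.fract ((2 : ℝ) ^ i * θ)) ''
      (Finset.range n : Set ℕ)) (f := fun i : ℕ => Int.fract (((Circ.gw w θ m) ^ i) θ))
    Set.infinite_univ (fun i _ => OA_fract hn ha (OA_iter w m h0 i))
    ((Finset.finite_toSet _).image _)
  obtain ⟨z, hz⟩ := Int.fract_eq_fract.1 he
  obtain ⟨q, rfl⟩ : ∃ q, j = q + i := ⟨j - i, by omega⟩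
  have hq : 0 < q := by omega
  have h1 : ((Circ.gw w θ m) ^ q) (((Circ.gw w θ m) ^ i) θ) =
      ((Circ.gw w θ m) ^ i) θ + ((-z : ℤ) : ℝ) := by
    have h2 : ((Circ.gw w θ m) ^ (q + i)) θ =
        ((Circ.gw w θ m) ^ q) (((Circ.gw w θ m) ^ i) θ) := by rw [pow_add]; rfl
    rw [← h2]; push_cast; linarith
  refine ⟨((-z : ℤ) : ℚ) / q, ?_⟩
  have h2 := CircleDeg1Lift.translationNumber_of_map_pow_eq_add_int _ h1 hq
  unfold Circ.nu
  rw [h2]; push_cast; rfl

/-- a fraction between Farey neighbours -/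
lemma farey_den {a b r : ℚ} (h1 : a < r) (h2 : r < b)
    (hdet : b.num * a.den - a.num * b.den = 1) : a.den + b.den ≤ r.den := by
  have ha : (a.num : ℚ) = a * a.den := (Rat.mul_den_eq_num a).symm
  have hb : (b.num : ℚ) = b * b.den := (Rat.mul_den_eq_num b).symm
  have hr : (r.num : ℚ) = r * r.den := (Rat.mul_den_eq_num r).symm
  have a0 : (0 : ℚ) < a.den := by exact_mod_cast a.den_pos
  have b0 : (0 : ℚ) < b.den := by exact_mod_cast b.den_pos
  have r0 : (0 : ℚ) < r.den := by exact_mod_cast r.den_pos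
  have k1 : 1 ≤ r.num * a.den - a.num * r.den := by
    have : (0 : ℚ) < r.num * a.den - a.num * r.den := by
      rw [ha, hr]
      have : r * r.den * a.den - a * a.den * r.den = (r - a) * (r.den * a.den) := by ring
      rw [this]
      exact mul_pos (by linarith) (by positivity)
    have : 0 < r.num * a.den - a.num * r.den := by exact_mod_cast this
    omega
  have k2 : 1 ≤ b.num * r.den - r.num * b.den := by
    have : (0 : ℚ) < b.num * r.den - r.num * b.den := by
      rw [hb, hr]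
      have : b * b.den * r.den - r * r.den * b.den = (b - r) * (b.den * r.den) := by ring
      rw [this]
      exact mul_pos (by linarith) (by positivity)
    have : 0 < b.num * r.den - r.num * b.den := by exact_mod_cast this
    omega
  have k3 : (r.den : ℤ) = (r.num * a.den - a.num * r.den) * b.den +
      (b.num * r.den - r.num * b.den) * a.den := by
    have : (r.num * a.den - a.num * r.den) * b.den + (b.num * r.den - r.num * b.den) * a.den =
      (b.num * a.den - a.num * b.den) * r.den := by ring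
    rw [this, hdet, one_mul]
  have a0' : (0 : ℤ) < a.den := by exact_mod_cast a.den_pos
  have b0' : (0 : ℤ) < b.den := by exact_mod_cast b.den_pos
  have : (a.den : ℤ) + b.den ≤ r.den := by
    rw [k3]
    nlinarith
  exact_mod_cast this

/-- **the plateaus of Farey neighbours are close** -/
theorem plateau_dist {W : WS} (hW : W.Ok) {a b : ℚ} (ha0 : 0 < a) (hb1 : b < 1)
    (hab : a < b) (hdet : b.num * a.den - a.num * b.den = 1) {K : ℕ} (hK : 0 < K)
    (hden : K + 2 ≤ a.den + b.den) :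
    (W.dat b).tm - (W.dat a).tp ≤ 2 * (1 / 2) ^ (W.m * K) := by
  have hm := hW.wide.pos
  have hn : 0 < W.m * K := Nat.mul_pos hm hK
  obtain ⟨n, hndef⟩ : ∃ n, n = W.m * K := ⟨_, rfl⟩
  rw [← hndef] at hn ⊢
  have h2n : (2 : ℝ) ≤ 2 ^ n := by
    calc (2 : ℝ) = 2 ^ 1 := by norm_num
      _ ≤ 2 ^ n := pow_le_pow_right₀ (by norm_num) hn
  by_contra hcon
  push Not at hcon
  have h3 : 1 / ((2 : ℝ) ^ n - 1) ≤ 2 * (1 / 2) ^ n := by
    rw [one_div_pow, div_le_iff₀ (by linarith), ← mul_div_assoc, mul_one, div_mul_eq_mul_div,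
      le_div_iff₀ (by positivity)]
    linarith
  have h4 : 1 / ((2 : ℝ) ^ n - 1) < (W.dat b).tm - (W.dat a).tp := lt_of_le_of_lt h3 hcon
  rw [div_lt_iff₀ (by linarith)] at h4
  -- a periodic angle in the gap
  obtain ⟨j, hj⟩ : ∃ j : ℤ, j = ⌊((2 : ℝ) ^ n - 1) * (W.dat a).tp⌋ + 1 := ⟨_, rfl⟩
  have h5 := Int.floor_le (((2 : ℝ) ^ n - 1) * (W.dat a).tp)
  have h6 := Int.lt_floor_add_one (((2 : ℝ) ^ n - 1) * (W.dat a).tp)
  have h7 : ((2 : ℝ) ^ n - 1) * (W.dat a).tp < j := by rw [hj]; push_cast; exact h6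
  have h8 : (j : ℝ) < ((2 : ℝ) ^ n - 1) * (W.dat b).tm := by
    rw [hj]; push_cast; linarith
  obtain ⟨θ, hθ⟩ : ∃ θ : ℝ, θ = j / ((2 : ℝ) ^ n - 1) := ⟨_, rfl⟩
  have hpos : (0 : ℝ) < 2 ^ n - 1 := by linarith
  have h9 : (W.dat a).tp < θ := by rw [hθ, lt_div_iff₀ hpos]; linarith
  have h10 : θ < (W.dat b).tm := by rw [hθ, div_lt_iff₀ hpos]; linarith
  have hper : ∃ i : ℤ, (2 : ℝ) ^ n * θ - θ = i := ⟨j, by rw [hθ]; field_simp⟩
  obtain ⟨r, hr⟩ := nu_rat43 (w := W.w) (m := W.m) hn hper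
  have ha1 : a < 1 := hab.trans hb1
  have hb0 : 0 < b := ha0.trans hab
  have hnu : W.nu θ = ((r - W.k : ℚ) : ℝ) := by
    unfold WS.nu; rw [hr]; push_cast; rfl
  have e1 : (a : ℝ) < ((r - W.k : ℚ) : ℝ) := by
    have h11 := W.nu_mono h9.le
    rw [WS.nu_tp hW ha0 ha1, hnu] at h11
    refine lt_of_le_of_ne h11 fun he => ?_
    have := (WS.plateau hW ha0 ha1 θ).1 (by rw [hnu, ← he])
    linarith [this.2]
  have e2 : ((r - W.k : ℚ) : ℝ) < b := by
    have h11 := W.nu_mono h10.le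
    rw [WS.nu_tm hW hb0 hb1, hnu] at h11
    refine lt_of_le_of_ne h11 fun he => ?_
    have := (WS.plateau hW hb0 hb1 θ).1 (by rw [hnu, he])
    linarith [this.1]
  have e1' : a < r - W.k := by exact_mod_cast e1
  have e2' : r - W.k < b := by exact_mod_cast e2
  have h12 := farey_den e1' e2' hdet
  have h13 := perL54 (κ := W.k) (y := r - W.k) hm (hW.wide.word hW.ex) (ha0.trans e1') (e2'.trans hb1) hn
    hper (by rw [hr]; push_cast; ring)
  rw [hndef, mul_comm W.m] at h13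
  have h14 := Nat.lt_of_mul_lt_mul_right h13
  omega

/-- **DI** -/
theorem c_dist : C_dist := by
  intro W hW x u v y hx0 hx1 hN
  have hq := x.den_pos
  have hu0 : 0 < u := by
    refine lt_of_lt_of_le ?_ hN.u0
    have : (0 : ℚ) < x.den := by exact_mod_cast x.den_pos
    positivity
  have hv1 : v < 1 := by
    refine lt_of_le_of_lt hN.v1 ?_
    have : (0 : ℚ) < x.den := by exact_mod_cast x.den_pos
    have h : (0 : ℚ) < 2 / (3 * x.den) := by positivity
    linarith
  obtain ⟨hdu, -⟩ := hN.denu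
  obtain ⟨hdv, -⟩ := hN.denv
  constructor
  · intro h1 h2
    have h3 := plateau_dist hW (K := 3 * x.den - 1) hu0 hx1 hN.ux hN.detu (by omega) (by omega)
    have h4 : (W.dat u).tp < (W.dat y).tm := by
      refine WS.lt_of_nu (W := W) ?_
      rw [WS.nu_tp hW hu0 (hN.ux.trans hx1), WS.nu_tm hW (hu0.trans h1) (h2.trans hx1)]
      exact_mod_cast h1
    unfold DD
    linarith
  · intro h1 h2
    have h3 := plateau_dist hW (K := 3 * x.den - 1) hx0 hv1 hN.xv hN.detv (by omega) (by omega)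
    have h4 : (W.dat y).tp < (W.dat v).tm := by
      refine WS.lt_of_nu (W := W) ?_
      rw [WS.nu_tp hW (hx0.trans h1) (h2.trans hv1), WS.nu_tm hW (hx0.trans hN.xv) hv1]
      exact_mod_cast h2
    unfold DD
    linarith

end Pool.Agent.Work.MLC.Cap
end

section
set_option autoImplicit false

/-! # The characteristic pair: existence, reflection, data for `Circ.cut` (helper54) -/

namespace Pool.Agent.Work.MLC

open Set Circ CircleDeg1Lift Filter Topology

section

variable {n : ℕ} {v : ℕ → ℤ} {t t' θ : ℝ}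

/-- the phase of a short chord is `0` -/
theorem phase_zero (hn : 0 < n) (hv : Word n v) (hct : Compat t θ v) (hct' : Compat t' θ v)
    (h0 : t < θ) (h0' : θ < t') (hsh : t' ≤ t + 1 / 3)
    (hno : ∀ s, ¬ n ∣ s → (∀ l : ℤ, ¬ (t ≤ 2 ^ s * t + l ∧ 2 ^ s * t + l ≤ t')) ∧
      ∀ l : ℤ, ¬ (t ≤ 2 ^ s * t' + l ∧ 2 ^ s * t' + l ≤ t'))
    {x y : ℝ} (hy : y = t ∨ y = t') (hcx : Compat x θ v) {s : ℕ} {α β : ℝ}
    (hα : Compat α θ (fun j => v (s + j))) (hβ : Compat β θ (fun j => v (s + j)))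
    (hαβ : (∃ l : ℤ, α = 2 ^ s * y + l) ∨ ∃ l : ℤ, β = 2 ^ s * y + l)
    (h1 : α < θ) (h2 : θ < β) (h3 : β - α ≤ 1 / 3) (h4 : ∀ l' : ℤ, β - α ≤ |(x - y) - l'|) :
    n ∣ s := by
  by_contra hs
  have hne := shift_ne hn hv hs
  have hb' : ∀ i, (fun j => v (s + j)) i = 0 ∨ (fun j => v (s + j)) i = 1 := fun i => hv.1 _
  obtain ⟨n1, n2⟩ := hno s hs
  have hout : ∀ p : ℝ, (∃ l : ℤ, p = 2 ^ s * y + l) → ¬ (t ≤ p ∧ p ≤ t') := by
    rintro p ⟨l, rfl⟩
    rcases hy with rfl | rfl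
    · exact n1 l
    · exact n2 l
  have hmain : α < t ∧ t' < β := by
    rcases hαβ with hα' | hβ'
    · have h5 : α < t := by
        by_contra hcon
        push Not at hcon
        exact hout α hα' ⟨hcon, by linarith⟩
      refine ⟨h5, ?_⟩
      by_contra hcon
      push Not at hcon
      exact hne (linked_pairs hb' hv.1 h5.le (by linarith) hcon (by linarith) hα hct hβ hct')
    · have h5 : t' < β := by
        by_contra hcon
        push Not at hcon
        exact hout β hβ' ⟨by linarith, hcon⟩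
      refine ⟨?_, h5⟩
      by_contra hcon
      push Not at hcon
      exact hne (linked_pairs hv.1 hb' hcon (by linarith) h5.le (by linarith) hct hα hct' hβ).symm
  have hyin : α < y ∧ y < β := by
    rcases hy with rfl | rfl
    · exact ⟨hmain.1, by linarith⟩
    · exact ⟨by linarith, hmain.2⟩
  -- the lift of `x` in `[α, α + 1)`
  set l : ℤ := -⌊x - α⌋ with hl
  have h5 : α ≤ x + l := by
    have := Int.floor_le (x - α); rw [hl]; push_cast; linarith
  have h6 : x + l < α + 1 := by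
    have := Int.lt_floor_add_one (x - α); rw [hl]; push_cast; linarith
  rcases le_or_gt (x + l) β with h7 | h7
  · have h8 := h4 (-l)
    have h9 : |(x - y) - ((-l : ℤ) : ℝ)| < β - α := by
      rw [abs_lt]; push_cast; constructor <;> linarith
    linarith
  · exact hne (linked_pairs hb' hv.1 hmain.1.le (by linarith) h7.le h6.le hα hct hβ
      (compat_add_int hcx l))

/-- at most two compatible rays -/
theorem uniq_third (hn : 0 < n) (hv : Word n v) (hct : Compat t θ v) (hct' : Compat t' θ v)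
    (h0 : t < θ) (h0' : θ < t') (hsh : t' ≤ t + 1 / 3) (hp : ∃ a : ℤ, 2 ^ n * t - t = a)
    (hp' : ∃ a : ℤ, 2 ^ n * t' - t' = a)
    (hno : ∀ s, ¬ n ∣ s → (∀ l : ℤ, ¬ (t ≤ 2 ^ s * t + l ∧ 2 ^ s * t + l ≤ t')) ∧
      ∀ l : ℤ, ¬ (t ≤ 2 ^ s * t' + l ∧ 2 ^ s * t' + l ≤ t'))
    {x : ℝ} (hpx : ∃ a : ℤ, 2 ^ n * x - x = a) (hcx : Compat x θ v) :
    ∃ z : ℤ, x = t + z ∨ x = t' + z := by
  by_contra hcon
  push Not at hcon
  have hdvd : ∀ {s : ℕ}, n ∣ s → ∀ x : ℝ, (∃ a : ℤ, 2 ^ n * x - x = a) →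
      ∃ l : ℤ, (2 : ℝ) ^ s * x = x + l := by
    intro s hs x hx
    obtain ⟨l, hl⟩ := pow_mod_per hx 0 s hs
    rw [Nat.zero_add, pow_zero, one_mul] at hl
    exact ⟨l, hl⟩
  -- the pair `t, x`
  have hA : ∃ m : ℤ, θ < x + m ∧ x + m ≤ t + 1 / 3 := by
    rcases short_chord hn hct hcx hp hpx (fun l hl => (hcon l).1 (by linarith)) with
      ⟨s, l, m, h1, h2, h3, h4⟩ | ⟨s, l, m, h1, h2, h3, h4⟩
    · have hs := phase_zero hn hv hct hct' h0 h0' hsh hno (Or.inl rfl) hcx
        (compat_add_int (compat_shift hct s) l) (compat_add_int (compat_shift hcx s) m)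
        (Or.inl ⟨l, rfl⟩) h1 h2 h3 fun l' => by
          have := h4 0 l'; rwa [pow_zero, one_mul] at this
      obtain ⟨a, ha⟩ := hdvd hs t hp
      obtain ⟨b, hb⟩ := hdvd hs x hpx
      rw [ha] at h1 h3
      rw [hb] at h2 h3
      have f1 : ((-1 : ℤ) : ℝ) < ((a + l : ℤ) : ℝ) := by push_cast; linarith
      have f2 : ((a + l : ℤ) : ℝ) < ((1 : ℤ) : ℝ) := by push_cast; linarith
      have f3 : -1 < a + l := by exact_mod_cast f1
      have f4 : a + l < 1 := by exact_mod_cast f2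
      have f5 : a + l = 0 := by omega
      have f6 : (a : ℝ) + l = 0 := by exact_mod_cast f5
      exact ⟨b + m, by push_cast; linarith, by push_cast; linarith⟩
    · exfalso
      have hs := phase_zero hn hv hct hct' h0 h0' hsh hno (Or.inl rfl) hcx
        (compat_add_int (compat_shift hcx s) l) (compat_add_int (compat_shift hct s) m)
        (Or.inr ⟨m, rfl⟩) h1 h2 h3 fun l' => by
          have := h4 0 (-l')
          rw [pow_zero, one_mul] at this
          refine this.trans (le_of_eq ?_)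
          rw [← abs_neg]; congr 1; push_cast; ring
      obtain ⟨a, ha⟩ := hdvd hs t hp
      rw [ha] at h2 h3
      have f1 : ((0 : ℤ) : ℝ) < ((a + m : ℤ) : ℝ) := by push_cast; linarith
      have f2 : 0 < a + m := by exact_mod_cast f1
      have f3 : ((1 : ℤ) : ℝ) ≤ ((a + m : ℤ) : ℝ) := by exact_mod_cast f2
      push_cast at f3
      linarith
  -- the pair `t', x`
  have hB : ∃ m : ℤ, x + m < θ ∧ t' - 1 / 3 ≤ x + m := by
    rcases short_chord hn hct' hcx hp' hpx (fun l hl => (hcon l).2 (by linarith)) with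
      ⟨s, l, m, h1, h2, h3, h4⟩ | ⟨s, l, m, h1, h2, h3, h4⟩
    · exfalso
      have hs := phase_zero hn hv hct hct' h0 h0' hsh hno (Or.inr rfl) hcx
        (compat_add_int (compat_shift hct' s) l) (compat_add_int (compat_shift hcx s) m)
        (Or.inl ⟨l, rfl⟩) h1 h2 h3 fun l' => by
          have := h4 0 l'; rwa [pow_zero, one_mul] at this
      obtain ⟨a, ha⟩ := hdvd hs t' hp'
      rw [ha] at h1 h3
      have f1 : ((a + l : ℤ) : ℝ) < ((0 : ℤ) : ℝ) := by push_cast; linarith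
      have f2 : a + l < 0 := by exact_mod_cast f1
      have f3 : ((a + l : ℤ) : ℝ) ≤ ((-1 : ℤ) : ℝ) := by exact_mod_cast (show a + l ≤ -1 by omega)
      push_cast at f3
      linarith
    · have hs := phase_zero hn hv hct hct' h0 h0' hsh hno (Or.inr rfl) hcx
        (compat_add_int (compat_shift hcx s) l) (compat_add_int (compat_shift hct' s) m)
        (Or.inr ⟨m, rfl⟩) h1 h2 h3 fun l' => by
          have := h4 0 (-l')
          rw [pow_zero, one_mul] at this
          refine this.trans (le_of_eq ?_)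
          rw [← abs_neg]; congr 1; push_cast; ring
      obtain ⟨a, ha⟩ := hdvd hs t' hp'
      obtain ⟨b, hb⟩ := hdvd hs x hpx
      rw [ha] at h2 h3
      rw [hb] at h1 h3
      have f1 : ((-1 : ℤ) : ℝ) < ((a + m : ℤ) : ℝ) := by push_cast; linarith
      have f2 : ((a + m : ℤ) : ℝ) < ((1 : ℤ) : ℝ) := by push_cast; linarith
      have f3 : -1 < a + m := by exact_mod_cast f1
      have f4 : a + m < 1 := by exact_mod_cast f2
      have f5 : a + m = 0 := by omega
      have f6 : (a : ℝ) + m = 0 := by exact_mod_cast f5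
      exact ⟨b + l, by push_cast; linarith, by push_cast; linarith⟩
  obtain ⟨m₁, h1, h2⟩ := hA
  obtain ⟨m₂, h3, h4⟩ := hB
  have f1 : ((0 : ℤ) : ℝ) < ((m₁ - m₂ : ℤ) : ℝ) := by push_cast; linarith
  have f2 : ((m₁ - m₂ : ℤ) : ℝ) < ((1 : ℤ) : ℝ) := by push_cast; linarith
  have f3 : 0 < m₁ - m₂ := by exact_mod_cast f1
  have f4 : m₁ - m₂ < 1 := by exact_mod_cast f2
  omega

end

namespace CP

variable {n : ℕ} {v : ℕ → ℤ} {s t : ℝ}

theorem compat_s (h : CP n v s t) {θ : ℝ} (h1 : s < θ) (h2 : θ < t) : Compat s θ v := by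
  intro j
  obtain ⟨k, h3, h4⟩ := h.pos_s j
  exact ⟨k, by linarith, by linarith⟩

theorem compat_t (h : CP n v s t) {θ : ℝ} (h1 : s < θ) (h2 : θ < t) : Compat t θ v := by
  intro j
  obtain ⟨k, h3, h4⟩ := h.pos_t j
  exact ⟨k, by linarith, by linarith⟩

end CP

/-- **existence of the characteristic pair** -/
theorem exists_CP {n : ℕ} {w : ℕ → ℤ} {t : ℝ} {k : ℤ} (h : LE n w t k) (hn2 : 2 ≤ n)
    (hex : Word n (flw n w)) {M : ℤ} (hfix : gw (flw n w) t n t = t + M)
    (hnb : ∃ x, t < x ∧ x < t + 1 ∧ x + M ≤ gw (flw n w) t n x) : ∃ t', CP n (flw n w) t t' := by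
  have hn := h.pos
  set v := flw n w with hv
  obtain ⟨t', htt, htt1, hp', hcl'⟩ := h.exists_second hfix hnb
  have hp := h.per
  -- an angle slightly to the right of `t`
  have hlt1 : ∀ᶠ θ in 𝓝[>] t, θ < t' := mem_nhdsWithin_of_mem_nhds (gt_mem_nhds htt)
  obtain ⟨θ₀, ⟨⟨h1, h2⟩, h3⟩, h4⟩ := ((((eventually_noPt hn hp t).and
    (eventually_noPt hn hp' t)).and hlt1).and self_mem_nhdsWithin).exists
  have h4' : t < θ₀ := h4
  have hct : Compat t θ₀ v := h.compat h4' (by linarith) h1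
  have hct' : Compat t' θ₀ v := compat_of_closed hcl' h4' h2
  obtain ⟨hsh, hmin⟩ := short_self hn hex hct hct' htt htt1 h4' h3 hp hp' h1 h2
  have hno : ∀ s, ¬ n ∣ s → (∀ l : ℤ, ¬ (t ≤ 2 ^ s * t + l ∧ 2 ^ s * t + l ≤ t')) ∧
      ∀ l : ℤ, ¬ (t ≤ 2 ^ s * t' + l ∧ 2 ^ s * t' + l ≤ t') := fun s hs =>
    no_inside hn hex hct hct' htt htt1 hmin hs
  have hnot : ∀ (j : ℕ) (l : ℤ), ¬ (t < 2 ^ j * t + l ∧ 2 ^ j * t + l < t') := by
    rintro j l ⟨h5, h6⟩
    by_cases hj : n ∣ j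
    · obtain ⟨a, ha⟩ := pow_mod_per hp 0 j hj
      rw [Nat.zero_add, pow_zero, one_mul] at ha
      rw [ha] at h5 h6
      have f1 : ((0 : ℤ) : ℝ) < ((a + l : ℤ) : ℝ) := by push_cast; linarith
      have f2 : ((a + l : ℤ) : ℝ) < ((1 : ℤ) : ℝ) := by push_cast; linarith
      have f3 : 0 < a + l := by exact_mod_cast f1
      have f4 : a + l < 1 := by exact_mod_cast f2
      omega
    · exact (hno j hj).1 l ⟨h5.le, h6.le⟩
  have hnot' : ∀ (j : ℕ) (l : ℤ), ¬ (t < 2 ^ j * t' + l ∧ 2 ^ j * t' + l < t') := by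
    rintro j l ⟨h5, h6⟩
    by_cases hj : n ∣ j
    · obtain ⟨a, ha⟩ := pow_mod_per hp' 0 j hj
      rw [Nat.zero_add, pow_zero, one_mul] at ha
      rw [ha] at h5 h6
      have f1 : ((-1 : ℤ) : ℝ) < ((a + l : ℤ) : ℝ) := by push_cast; linarith
      have f2 : ((a + l : ℤ) : ℝ) < ((0 : ℤ) : ℝ) := by push_cast; linarith
      have f3 : -1 < a + l := by exact_mod_cast f1
      have f4 : a + l < 0 := by exact_mod_cast f2
      omega
    · exact (hno j hj).2 l ⟨h5.le, h6.le⟩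
  have hpos := pos_of_compat hp h4' h3 hct hnot
  have hpos' := pos_of_compat hp' h4' h3 hct' hnot'
  refine ⟨t', hn2, ⟨0, fun i => ?_⟩, hex.2.1, hex.2.2, htt, hsh, hp, hp', hpos, hpos', ?_, ?_, ?_⟩
  · rcases hex.1 i with h5 | h5
    · exact Or.inl h5
    · exact Or.inr (by rw [h5]; norm_num)
  · intro j l hj hjn
    exact (hno j fun hd => absurd (Nat.le_of_dvd hj hd) (by omega)).1 l
  · intro j l hj hjn
    exact (hno j fun hd => absurd (Nat.le_of_dvd hj hd) (by omega)).2 l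
  · intro θ h5 h6 x hx hcx
    have c1 : Compat t θ v := fun j => by
      obtain ⟨k, h7, h8⟩ := hpos j
      exact ⟨k, by linarith, by linarith⟩
    have c2 : Compat t' θ v := fun j => by
      obtain ⟨k, h7, h8⟩ := hpos' j
      exact ⟨k, by linarith, by linarith⟩
    exact uniq_third hn hex c1 c2 h5 h6 hsh hp hp' hno hx hcx

end Pool.Agent.Work.MLC
end

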