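import Mathlib
import Pool.Agent.Work.MLCM.C41
import Pool.Agent.Work.MLCM.C58
import Pool.Agent.Work.MLCM.C61
import Pool.Agent.Work.MLCM.C62
import Pool.Agent.Work.MLCM.C63
import Pool.Agent.Work.MLCM.C64
import Pool.Agent.Work.MLCM.C65
import Pool.Agent.Work.MLCM.C67
import Pool.Agent.Work.MLCM.C68
import Pool.Agent.Work.MLCM.C69
import Pool.Agent.Work.MLCM.C70
import Pool.Agent.Work.MLCM.C71
import Pool.Agent.Work.MLCM.C72
import Pool.Agent.Work.MLCM.C73
import Pool.Agent.Work.MLCM.C74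
import Pool.Agent.Work.MLCM.C75
import Pool.Agent.Work.MLCM.C80

section
set_option autoImplicit false

/-! # Theorem CAP (the Mandelbrot set is locally connected quasi-everywhere), stage B: interface
(author: helper90; one-piece estimates: manager helper26)

Blueprint: note 2201. Definitions, and the statements of the modules as propositions.

A piece is a limb (denominator at least `3`) or (`two`) the part of the limb of `U` outside of the
limb of `V`, both of rotation number `1 / 2`. Stage A (type I: limbs) is `Cap26`, `CapS6`.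

Classes: the pieces with `L ≤ lg ℓ < 6 / 5 L` form a class. In every class we choose a minimal
subfamily with the same angles (`S_sub`, overlap at most `3`), then the sum over ALL chosen pieces of
`diam ^ 2 / lg ℓ` converges (`B_sum`) and the exceptional set is a null set for the gauge
`1 / log (1 / t)`. -/

namespace Pool.Agent.Work.MLC.Shp

open Filter Topology Metric Set Complex MeasureTheory
open Pool.Agent.Work.MLC.Sat Pool.Agent.Work.MLC.Cnt
open scoped ENNReal

/-! ## definitions -/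

/-- the weight of the potential `g` for a cut with the constant `N` -/
noncomputable def bet (N g : ℝ) : ℝ := (max 1 (lg g / N)) ^ (1 / 8 : ℝ)

/-- the region used by a cut whose angles are within `D` of `e`, from the height `H` down -/
def Sc (e D H : ℝ) : Set ℂ :=
  {z | 0 < z.re ∧ z.re ≤ 2 * H ∧ |z.im / (2 * Real.pi) - e| ≤ D + 8 * z.re}

/-- the weighted area of the region -/
noncomputable def Ray (N e D H : ℝ) : ℝ≥0∞ :=
  ∫⁻ z in Sc e D H, ENNReal.ofReal (‖deriv cOf z‖ ^ 2 / bet N z.re)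

/-- the weighted area next to the end `e` of an arc of length `ℓ` -/
noncomputable def RayE (e ℓ : ℝ) : ℝ≥0∞ := Ray (16 * lg ℓ) e (ℓ ^ (5 / 4 : ℝ)) ℓ

/-- the part of the component next to the root at `x` -/
noncomputable def Hd (W : WS) (x : ℚ) : Set ℂ := Cap.HH W x

/-- a pair of nested roots `U = W.dat (1 / 2)`, `V = W'.dat (1 / 2)` whose two arcs have the same
length `ℓ` -/
structure Two (W W' : WS) (ℓ : ℝ) : Prop where
  ok : W.Ok
  ok' : W'.Ok
  pos : 0 < ℓ
  left : (W'.dat (1 / 2)).tm = (W.dat (1 / 2)).tm + ℓ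
  right : (W.dat (1 / 2)).tp = (W'.dat (1 / 2)).tp + ℓ
  m_le : 100 ≤ W.m
  m_le' : W.m ≤ W'.m
  le : (W'.m : ℝ) ≤ lg ℓ
  gU : 2 / 2 ^ (5 * W.m) ≤ ℓ ^ (5 / 4 : ℝ)
  gV : 2 / 2 ^ (2 * W'.m) ≤ ℓ ^ (5 / 4 : ℝ)

/-- a piece: the limb of `W.dat x`, or (`two`) the part of the limb of `W.dat x`, `x = 1 / 2`,
outside of the limb of `W'.dat (1 / 2)` -/
structure Pie where
  /-- the component of the outer root -/
  W : WS
  /-- the rotation number of the outer root -/
  x : ℚ
  /-- the component of the inner root -/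
  W' : WS
  /-- is there an inner root -/
  two : Prop

namespace Pie

variable (P : Pie)

/-- the outer root -/
noncomputable def U : Dat := P.W.dat P.x

/-- the inner root -/
noncomputable def V : Dat := P.W'.dat (1 / 2)

/-- the length of the arcs -/
noncomputable def ℓ : ℝ := open Classical in if P.two then P.V.tm - P.U.tm else P.U.tp - P.U.tm

/-- the angles -/
def A : Set ℝ := {θ | InA P.U θ ∧ (P.two → ∀ k : ℤ, ¬ (P.V.tm ≤ θ + k ∧ θ + k ≤ P.V.tp))}

/-- the hypotheses -/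
structure Ok : Prop where
  ok : P.W.Ok
  x_pos : 0 < P.x
  x_lt : P.x < 1
  m_le : 100 ≤ P.W.m
  one : ¬ P.two → 3 ≤ P.x.den
  half : P.two → P.x = 1 / 2
  nest : P.two → Two P.W P.W' (P.V.tm - P.U.tm)

/-- `θ` is an end of an arc of the piece -/
def End (θ : ℝ) : Prop := ∃ k : ℤ, θ + k = P.U.tm ∨ θ + k = P.U.tp ∨
  (P.two ∧ (θ + k = P.V.tm ∨ θ + k = P.V.tp))

end Pie

/-- at most three pieces at every angle which is not an end -/
def Over {ι : Type} (F : Finset ι) (P : ι → Pie) : Prop := ∀ θ : ℝ, (∀ i ∈ F, ¬ (P i).End θ) →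
  ∀ T ⊆ F, (∀ i ∈ T, θ ∈ (P i).A) → T.card ≤ 3

/-- at most three pieces of one class at every angle which is not an end -/
def OverC {ι : Type} (F : Finset ι) (P : ι → Pie) : Prop := ∀ L θ : ℝ, 0 < L →
  (∀ i ∈ F, ¬ (P i).End θ) → ∀ T ⊆ F,
    (∀ i ∈ T, θ ∈ (P i).A ∧ L ≤ lg (P i).ℓ ∧ lg (P i).ℓ < 6 / 5 * L) → T.card ≤ 3

/-! ## pure modules -/

/-- M: the weighted areas next to the ends of arcs of overlap at most three in every class -/
def M_class : Prop := ∃ C : ℝ, ∀ (ι : Type) (F : Finset ι) (e ℓ : ι → ℝ),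
  (∀ i ∈ F, 0 < ℓ i ∧ ℓ i ≤ 1 / 2 ^ 90) →
  (∀ L x : ℝ, 0 < L → (∀ i ∈ F, ∀ k : ℤ, x + k ≠ e i ∧ x + k ≠ e i + ℓ i) → ∀ T ⊆ F,
    (∀ i ∈ T, L ≤ lg (ℓ i) ∧ lg (ℓ i) < 6 / 5 * L ∧ ∃ k : ℤ, e i < x + k ∧ x + k < e i + ℓ i) →
      T.card ≤ 3) →
  ∑ i ∈ F, RayE (e i) (ℓ i) ≤ ENNReal.ofReal C ∧
  ∑ i ∈ F, RayE (e i + ℓ i) (ℓ i) ≤ ENNReal.ofReal C

/-! ## angles and tuning (`Wake.strip` is proved in `ShpT`) -/

/-! ## one piece (manager: helper26) -/

/-! ## the theorem -/

/-- H: the sum of the areas inside the components -/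
def H_sum : Prop := ∃ C : ℝ, ∀ (ι : Type) (F : Finset ι) (W : ι → WS) (x : ι → ℚ),
  (∀ i ∈ F, (W i).Ok ∧ 0 < x i ∧ x i < 1) →
  (∀ i ∈ F, ∀ j ∈ F, WS.Same (W i) (W j) → x i = x j → i = j) →
  ∑ i ∈ F, volume (Hd (W i) (x i)) / (x i).den ≤ ENNReal.ofReal C

/-- a null set for the gauge `1 / log (1 / t)` -/
def LogNull (E : Set ℝ) : Prop := ∀ ε > 0, ∃ a b : ℕ → ℝ, (∀ i, a i < b i ∧ b i < a i + 1) ∧
  E ⊆ (⋃ i, Icc (a i) (b i)) ∧ Summable (fun i => 1 / Real.log (1 / (b i - a i))) ∧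
  ∑' i, 1 / Real.log (1 / (b i - a i)) < ε

end Pool.Agent.Work.MLC.Shp
end

section
set_option autoImplicit false

/-! # Nested characteristic arcs (helper50)

Two nested characteristic arcs of different periods with denominators at least `3`: if `(s', t')`
(period `N'`, denominator `q'`) is inside `(s, t)`, then `2 ^ ((q' - 2) N') (t' - s') ≤ t - s` and
`1 < 2 ^ (N' + 1) (t - s)`, hence `t' - s' ≤ 2 (t - s) ^ 2`. The proof is the two-cycle version of
the argument of helper54 with occupied gaps (`PerL54`). -/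

namespace Pool.Agent.Work.MLC

open Set Circ CircleDeg1Lift Filter Topology

namespace CA

variable {N q N' q' : ℕ} {w w' : ℕ → ℤ} {s t s' t' θ : ℝ}

/-- the `j`-th image of the arc contains a point of `X` -/
def OccX (X : Set ℝ) (w : ℕ → ℤ) (s t θ : ℝ) (j : ℕ) : Prop :=
  ∃ u ∈ X, gw w θ j s < u ∧ u < gw w θ j t

/-- `X` is closed under doubling modulo one and contains the cycle of `s` -/
structure XOk (N : ℕ) (s : ℝ) (X : Set ℝ) : Prop where
  dbl : ∀ u ∈ X, ∀ k : ℤ, 2 * u - k ∈ X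
  sub : ∀ i, AA N s i ⊆ X

variable {X : Set ℝ}

theorem occX_of_occ (hX : XOk N s X) {j : ℕ} (h : Occ N w s t θ j) : OccX X w s t θ j := by
  obtain ⟨i, u, hu, h1, h2⟩ := h
  exact ⟨u, hX.sub i hu, h1, h2⟩

theorem occX_succ {j : ℕ} (h : CA N q w s t) (hX : XOk N s X) (hj : NC w s t θ j)
    (ho : OccX X w s t θ j) : OccX X w s t θ (j + 1) := by
  obtain ⟨k, k1, k2⟩ := hj
  obtain ⟨u, hu, u1, u2⟩ := ho
  have hst := (h.gw_le (θ := θ) j).1
  refine ⟨2 * u - k, hX.dbl u hu k, ?_, ?_⟩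
  · rw [gw_succ_apply, tdbl_lin k (by linarith) (by linarith)]; linarith
  · rw [gw_succ_apply, tdbl_lin k (by linarith) (by linarith)]; linarith

/-- propagation inside a block -/
theorem occX_phase (h : CA N q w s t) (hX : XOk N s X) (h1 : s < θ) (h2 : θ < t) {σ p : ℕ} (d : ℕ)
    (hd : p + d < N) (ho : OccX X w s t θ (p + N * σ)) : OccX X w s t θ (p + d + N * σ) := by
  induction d with
  | zero => exact ho
  | succ d ih =>
    have ih' := ih (by omega)
    rw [show p + (d + 1) + N * σ = (p + d + N * σ) + 1 by ring]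
    by_cases hn : NC w s t θ (p + d + N * σ)
    · exact h.occX_succ hX hn ih'
    · refine occX_of_occ hX (h.occ_crit h1 h2 hn ?_).2
      rw [show p + d + N * σ + 1 = (p + d + 1) + N * σ by ring, Nat.add_mul_mod_self_left,
        Nat.mod_eq_of_lt (by omega)]
      omega

/-- next block -/
theorem occX_block (h : CA N q w s t) (hX : XOk N s X) (h1 : s < θ) (h2 : θ < t) {σ p : ℕ}
    (hp : p < N) (hσ : σ + 1 < q) (ho : OccX X w s t θ (p + N * σ)) {k : ℕ} (hk : k < N) :
    OccX X w s t θ (k + N * (σ + 1)) := by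
  have h3 := h.occX_phase hX h1 h2 (N - 1 - p) (by omega) ho
  have e : p + (N - 1 - p) + N * σ + 1 = N * (σ + 1) := by
    have : p + (N - 1 - p) + 1 = N := by omega
    calc p + (N - 1 - p) + N * σ + 1 = (p + (N - 1 - p) + 1) + N * σ := by ring
      _ = N * (σ + 1) := by rw [this]; ring
  have h4 := h.occX_succ hX (h.nc_last h1 h2 hσ e) h3
  rw [e] at h4
  have h5 := h.occX_phase hX h1 h2 (σ := σ + 1) (p := 0) k (by omega) (by rwa [Nat.zero_add])
  rwa [Nat.zero_add] at h5

/-- **a short occupied gap**: if a gap `(a, b)` of a polygon `B` contains a point of phase `k` and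
all occupied gaps of phase `k` are at least as long, then phase `k` has at most one occupied gap -/
theorem phase_of_short (h : CA N q w s t) (h1 : s < θ) (h2 : θ < t) {B : Set ℝ}
    (hB : ∀ u ∈ B, ∀ l : ℤ, u + l ∈ B) {a b u : ℝ} (ha : a ∈ B) (hb : b ∈ B) (hab2 : b ≤ a + 1)
    {k : ℕ} (hik : k < N) (huk : u ∈ AA N s k) (u1 : a < u) (u2 : u < b)
    (hnl : ¬ Pool.Agent.MLC.Linked (AA N s k) B) (hnl' : ¬ Pool.Agent.MLC.Linked B (AA N s k))
    (hmin : ∀ σ, σ < q → OccX X w s t θ (k + N * σ) →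
      b - a ≤ gw w θ (k + N * σ) t - gw w θ (k + N * σ) s) :
    ∀ σ, σ + 1 < q → OccX X w s t θ (k + N * σ) → OccX X w s t θ (k + N * (σ + 1)) → False := by
  have hdis : ∀ v ∈ AA N s k, v ∉ B := fun v hv hv' =>
    hnl ⟨v, hv, v, hv', v, hv, v, hv', le_rfl, le_rfl, le_rfl, by linarith⟩
  have key : ∀ σ, σ < q → OccX X w s t θ (k + N * σ) →
      ∃ l : ℤ, gw w θ (k + N * σ) s < a + l ∧ a + l < gw w θ (k + N * σ) t := by
    intro σ hσ hoc
    have hcA : gw w θ (k + N * σ) s ∈ AA N s k := by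
      have := (h.gw_pt h1 h2 (x := s) mem0 (k + N * σ)).1
      rwa [AA_congr h.per] at this
    have hdA : gw w θ (k + N * σ) t ∈ AA N s k := by
      have := (h.gw_pt h1 h2 h.mem (k + N * σ)).1
      rwa [AA_congr h.per] at this
    have hlen : b - a ≤ gw w θ (k + N * σ) t - gw w θ (k + N * σ) s := hmin σ hσ hoc
    obtain ⟨hcd1, hcd2⟩ := h.gw_le (θ := θ) (k + N * σ)
    set c := gw w θ (k + N * σ) s with hc
    set d := gw w θ (k + N * σ) t with hd
    set l : ℤ := -⌊c - a⌋ with hl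
    have l1 : a ≤ c + l := by
      have := Int.floor_le (c - a); rw [hl]; push_cast; linarith
    have l2 : c + l < a + 1 := by
      have := Int.lt_floor_add_one (c - a); rw [hl]; push_cast; linarith
    have hcl : c + l ∈ AA N s k := AA_shift hcA l
    have hdl : d + l ∈ AA N s k := AA_shift hdA l
    have l3 : a < c + l := lt_of_le_of_ne l1 fun he => hdis _ hcl (he ▸ ha)
    have l4 : c + l < b := by
      by_contra hcon
      push Not at hcon
      refine hnl ⟨u, huk, b, hb, c + l, hcl, a + ((1 : ℤ) : ℝ), hB a ha 1, u2.le, hcon, ?_, ?_⟩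
      · push_cast; linarith
      · push_cast; linarith
    refine ⟨1 - l, ?_, ?_⟩
    · push_cast; linarith
    · by_contra hcon
      push Not at hcon
      push_cast at hcon
      have l5 : b ≤ d + l := by
        by_contra h7
        push Not at h7
        linarith
      exact hnl' ⟨a, ha, c + l, hcl, b, hb, d + l, hdl, l3.le, l4.le, l5, by linarith⟩
  intro σ hσ o1 o2
  obtain ⟨l, a1, a2⟩ := key σ (by omega) o1
  obtain ⟨l', b1, b2⟩ := key (σ + 1) hσ o2
  have hAk : ∀ σ, AA N s (k + N * σ) = AA N s k := fun σ => AA_congr h.per k σ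
  have hc1 := (h.gw_pt h1 h2 (x := s) mem0 (k + N * σ)).1
  have hc2 := (h.gw_pt h1 h2 (x := s) mem0 (k + N * (σ + 1))).1
  rw [hAk] at hc1 hc2
  have he1 : gw w θ (k + N * (σ + 1)) s + ((l - l' : ℤ) : ℝ) ≤ gw w θ (k + N * σ) s := by
    by_contra hcon
    push Not at hcon
    refine h.gap h1 h2 (k + N * σ) _ ?_ hcon ?_
    · rw [hAk]; exact AA_shift hc2 _
    · push_cast; linarith
  have he2 : gw w θ (k + N * σ) s + ((l' - l : ℤ) : ℝ) ≤ gw w θ (k + N * (σ + 1)) s := by
    by_contra hcon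
    push Not at hcon
    refine h.gap h1 h2 (k + N * (σ + 1)) _ ?_ hcon ?_
    · rw [hAk]; exact AA_shift hc1 _
    · push_cast; linarith
  obtain ⟨m, hm⟩ := h.gw_pt_eq h1 h2 (x := s) mem0 (k + N * σ)
  obtain ⟨m', hm'⟩ := h.gw_pt_eq h1 h2 (x := s) mem0 (k + N * (σ + 1))
  have he3 : (2 : ℝ) ^ (k + N * (σ + 1)) * s = 2 ^ (k + N * σ) * s + ((m - m' + l' - l : ℤ) : ℝ) := by
    rw [hm, hm'] at he1 he2
    push_cast at he1 he2 ⊢
    linarith
  have hx0 : (2 : ℝ) ^ (N * (σ + 1)) * s ∈ AA N s 0 := ⟨σ + 1, 0, by simp⟩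
  have he4 : (2 : ℝ) ^ N * (2 ^ (N * (σ + 1)) * s) = 2 ^ (N * (σ + 1)) * s +
      ((2 ^ (N - k) * (m - m' + l' - l) : ℤ) : ℝ) := by
    have e5 : (2 : ℝ) ^ N * (2 ^ (N * (σ + 1)) * s) = 2 ^ (N - k) * (2 ^ (k + N * (σ + 1)) * s) := by
      rw [← mul_assoc, ← mul_assoc, ← pow_add, ← pow_add]
      congr 2
      omega
    have e6 : (2 : ℝ) ^ (N - k) * (2 ^ (k + N * σ) * s) = 2 ^ (N * (σ + 1)) * s := by
      rw [← mul_assoc, ← pow_add]
      congr 2
      have : N - k + (k + N * σ) = N + N * σ := by omega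
      rw [this]; ring
    rw [e5, he3, mul_add, e6]
    push_cast; ring
  have hdvd := h.dvd_of_per hx0 he4
  have hle := Nat.le_of_dvd h.pos hdvd
  have : N * 2 ≤ N * q := Nat.mul_le_mul_left N h.two
  have := h.pos
  omega

/-! ### two cycles -/

/-- linked classes of two cycles: one step -/
theorem linked_step3 {x y : ℝ} (hb : ∀ i, w i = 0 ∨ w i = 1) (hb' : ∀ i, w' i = 0 ∨ w' i = 1)
    (hw : ∀ i, w (i + N) = w i) (hw' : ∀ i, w' (i + N') = w' i) (hx : Compat x θ w)
    (hy : Compat y θ w') {i j : ℕ} (h : Pool.Agent.MLC.Linked (AA N x i) (AA N' y j)) :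
    w i = w' j ∧ Pool.Agent.MLC.Linked (AA N x (i + 1)) (AA N' y (j + 1)) := by
  obtain ⟨a, ha, b, hb1, c, hc, d, hd, h1, h2, h3, h4⟩ := h
  have hX := inHalf_of_compat hw hx i
  have hY := inHalf_of_compat hw' hy j
  obtain ⟨ka, ea, a1, a2⟩ := tdbl_of_inHalf hX ha
  obtain ⟨kb, eb, b1, b2⟩ := tdbl_of_inHalf hY hb1
  obtain ⟨kc, ec, c1, c2⟩ := tdbl_of_inHalf hX hc
  obtain ⟨kd, ed, d1, d2⟩ := tdbl_of_inHalf hY hd
  have hwij : w i = w' j := by
    by_contra hne
    have key : ∀ (u v : ℤ) (p r : ℝ) (ep er : ℤ), (ep = 0 ∨ ep = 1) → (er = 0 ∨ er = 1) →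
        (θ + ep) / 2 + u < p → p < (θ + ep) / 2 + u + 1 / 2 → (θ + er) / 2 + v < r →
        r < (θ + er) / 2 + v + 1 / 2 → p ≤ r → ep + 2 * u ≤ er + 2 * v := by
      intro u v p r ep er _ _ h1 h2 h3 h4 h5
      have : ((ep + 2 * u : ℤ) : ℝ) < ((er + 2 * v + 1 : ℤ) : ℝ) := by push_cast; linarith
      have h6 : ep + 2 * u < er + 2 * v + 1 := by exact_mod_cast this
      omega
    have hbi := hb i
    have hbj := hb' j
    have k1 := key ka kb a b _ _ (hb i) (hb' j) a1 a2 b1 b2 h1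
    have k2 := key kb kc b c _ _ (hb' j) (hb i) b1 b2 c1 c2 h2
    have k3 := key kc kd c d _ _ (hb i) (hb' j) c1 c2 d1 d2 h3
    have k4 := key kd (ka + 1) d (a + 1) _ _ (hb' j) (hb i) d1 d2 (by push_cast; linarith)
      (by push_cast; linarith) h4
    omega
  refine ⟨hwij, 2 * a - ka, AA_dbl' ha ka, 2 * b - kb, AA_dbl' hb1 kb, 2 * c - kc, AA_dbl' hc kc,
    2 * d - kd, AA_dbl' hd kd, ?_, ?_, ?_, ?_⟩
  · rw [← ea, ← eb, hwij]; exact (tdbl _).monotone h1
  · rw [← eb, ← ec, hwij]; exact (tdbl _).monotone h2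
  · rw [← ec, ← ed, hwij]; exact (tdbl _).monotone h3
  · rw [← ed, ← ea, hwij, ← map_add_one]; exact (tdbl _).monotone h4

/-- linked classes: the words agree -/
theorem linked_word3 {x y : ℝ} (hb : ∀ i, w i = 0 ∨ w i = 1) (hb' : ∀ i, w' i = 0 ∨ w' i = 1)
    (hw : ∀ i, w (i + N) = w i) (hw' : ∀ i, w' (i + N') = w' i) (hx : Compat x θ w)
    (hy : Compat y θ w') {i j : ℕ} (h : Pool.Agent.MLC.Linked (AA N x i) (AA N' y j)) (r : ℕ) :
    w (i + r) = w' (j + r) := by
  have key : ∀ r, Pool.Agent.MLC.Linked (AA N x (i + r)) (AA N' y (j + r)) := by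
    intro r
    induction r with
    | zero => exact h
    | succ r ih => exact (linked_step3 hb hb' hw hw' hx hy ih).2
  exact (linked_step3 hb hb' hw hw' hx hy (key r)).1

theorem dvd_of_words (hN : 0 < N) (hw : Word N w) (hw' : Word N' w') {i j : ℕ}
    (h : ∀ r, w (i + r) = w' (j + r)) : N ∣ N' := by
  have h1 : (i + N') % N = i % N := by
    refine mod_eq_of_word hN hw fun r => ?_
    rw [h r, show i + N' + r = i + (N' + r) by ring, h (N' + r),
      show j + (N' + r) = j + r + N' by ring, hw'.2.1]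
  have h2 : (N' + i) % N = (0 + i) % N := by rwa [add_comm N' i, Nat.zero_add]
  have h3 : N' ≡ 0 [MOD N] := Nat.ModEq.add_right_cancel' i h2
  exact (Nat.modEq_zero_iff_dvd).1 h3

/-- different periods: unlinked -/
theorem not_linked3 (hN : 0 < N) (hN' : 0 < N') (hne : N ≠ N') (hw : Word N w) (hw' : Word N' w')
    {x y : ℝ} (hx : Compat x θ w) (hy : Compat y θ w') (i j : ℕ) :
    ¬ Pool.Agent.MLC.Linked (AA N x i) (AA N' y j) := by
  intro h
  have h1 := linked_word3 hw.1 hw'.1 hw.2.1 hw'.2.1 hx hy h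
  exact hne (Nat.dvd_antisymm (dvd_of_words hN hw hw' h1)
    (dvd_of_words hN' hw' hw fun r => (h1 r).symm))

/-- the points of both cycles -/
def XX (N N' : ℕ) (s s' : ℝ) : Set ℝ := {u | ∃ i, u ∈ AA N s i} ∪ {u | ∃ i, u ∈ AA N' s' i}

theorem xOk_left : XOk N s (XX N N' s s') := by
  refine ⟨?_, fun i u hu => Or.inl ⟨i, hu⟩⟩
  rintro u (⟨i, hu⟩ | ⟨i, hu⟩) k
  · exact Or.inl ⟨i + 1, AA_dbl' hu k⟩
  · exact Or.inr ⟨i + 1, AA_dbl' hu k⟩

theorem xOk_right : XOk N' s' (XX N N' s s') := by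
  refine ⟨?_, fun i u hu => Or.inr ⟨i, hu⟩⟩
  rintro u (⟨i, hu⟩ | ⟨i, hu⟩) k
  · exact Or.inl ⟨i + 1, AA_dbl' hu k⟩
  · exact Or.inr ⟨i + 1, AA_dbl' hu k⟩

/-- the phase `k` has at most one occupied gap -/
def One (X : Set ℝ) (N q : ℕ) (w : ℕ → ℤ) (s t θ : ℝ) (k : ℕ) : Prop :=
  ∀ σ, σ + 1 < q → OccX X w s t θ (k + N * σ) → OccX X w s t θ (k + N * (σ + 1)) → False

/-- the consequences of a shortest occupied gap (of the first cycle) -/
theorem one_of_min (h : CA N q w s t) (h' : CA N' q' w' s' t') (hne : N ≠ N') (h1 : s < θ)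
    (h2 : θ < t) (h1' : s' < θ) (h2' : θ < t') {X : Set ℝ} (hX : XOk N s X) (hX' : XOk N' s' X)
    (hXs : X ⊆ XX N N' s s')
    {j₀ : ℕ} (ho : OccX X w s t θ j₀)
    (hmin : ∀ j < N * q, OccX X w s t θ j → gw w θ j₀ t - gw w θ j₀ s ≤ gw w θ j t - gw w θ j s)
    (hmin' : ∀ j < N' * q', OccX X w' s' t' θ j →
      gw w θ j₀ t - gw w θ j₀ s ≤ gw w' θ j t' - gw w' θ j s') :
    (∃ k < N, One X N q w s t θ k) ∨ (∃ k < N', One X N' q' w' s' t' θ k) := by
  obtain ⟨u, hu, u1, u2⟩ := ho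
  have haA := (h.gw_pt h1 h2 (x := s) mem0 j₀).1
  have hbA := (h.gw_pt h1 h2 h.mem j₀).1
  have hcθ := h.compat θ h1 h2
  have hcθ' := h'.compat θ h1' h2'
  have hB : ∀ v ∈ AA N s j₀, ∀ l : ℤ, v + l ∈ AA N s j₀ := fun v hv l => AA_shift hv l
  have hidx : ∀ {N q k σ : ℕ}, k < N → σ < q → k + N * σ < N * q := by
    intro N q k σ hk hσ
    calc k + N * σ < N + N * σ := by omega
      _ = N * (σ + 1) := by ring
      _ ≤ N * q := Nat.mul_le_mul_left N hσ
  rcases hXs hu with ⟨i, hi⟩ | ⟨i, hi⟩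
  · left
    have hik : i % N < N := Nat.mod_lt _ h.pos
    have huk : u ∈ AA N s (i % N) := by rw [← AA_mod h.per]; exact hi
    have hnk : (i % N) % N ≠ j₀ % N := by
      intro he
      refine h.gap h1 h2 j₀ u ?_ u1 u2
      rw [AA_mod h.per, ← he, ← AA_mod h.per]; exact huk
    refine ⟨i % N, hik, h.phase_of_short h1 h2 hB haA hbA (h.gw_le (θ := θ) j₀).2 hik huk u1 u2
      (not_linked h.pos h.word hcθ hcθ hnk) (not_linked h.pos h.word hcθ hcθ (Ne.symm hnk)) ?_⟩
    intro σ hσ hoc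
    exact hmin _ (hidx hik hσ) hoc
  · right
    have hik : i % N' < N' := Nat.mod_lt _ h'.pos
    have huk : u ∈ AA N' s' (i % N') := by rw [← AA_mod h'.per]; exact hi
    refine ⟨i % N', hik, h'.phase_of_short h1' h2' hB haA hbA (h.gw_le (θ := θ) j₀).2 hik huk
      u1 u2 (not_linked3 h'.pos h.pos (Ne.symm hne) h'.word h.word hcθ' hcθ _ _)
      (not_linked3 h.pos h'.pos hne h.word h'.word hcθ hcθ' _ _) ?_⟩
    intro σ hσ hoc
    exact hmin' _ (hidx hik hσ) hoc

theorem XX_comm : XX N N' s s' = XX N' N s' s := by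
  unfold XX
  exact Set.union_comm _ _

/-- **one of the two cycles has a phase with at most one occupied gap** -/
theorem exists_one (h : CA N q w s t) (h' : CA N' q' w' s' t') (hne : N ≠ N') (h1 : s < θ)
    (h2 : θ < t) (h1' : s' < θ) (h2' : θ < t') (ho : OccX (XX N N' s s') w s t θ 0) :
    (∃ k < N, One (XX N N' s s') N q w s t θ k) ∨
      (∃ k < N', One (XX N N' s s') N' q' w' s' t' θ k) := by
  classical
  set X := XX N N' s s' with hX
  obtain ⟨j₀, hj₀, hm₀⟩ := Finset.exists_min_image ((Finset.range (N * q)).filter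
    fun j => OccX X w s t θ j) (fun j => gw w θ j t - gw w θ j s)
    ⟨0, Finset.mem_filter.2 ⟨Finset.mem_range.2 h.npos, ho⟩⟩
  have hm : ∀ j < N * q, OccX X w s t θ j →
      gw w θ j₀ t - gw w θ j₀ s ≤ gw w θ j t - gw w θ j s := fun j hj hoj =>
    hm₀ j (Finset.mem_filter.2 ⟨Finset.mem_range.2 hj, hoj⟩)
  have ho₀ := (Finset.mem_filter.1 hj₀).2
  rcases ((Finset.range (N' * q')).filter fun j => OccX X w' s' t' θ j).eq_empty_or_nonempty with
    he | hne'
  · refine one_of_min h h' hne h1 h2 h1' h2' xOk_left xOk_right subset_rfl ho₀ hm ?_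
    intro j hj hoj
    have : j ∈ (Finset.range (N' * q')).filter fun j => OccX X w' s' t' θ j :=
      Finset.mem_filter.2 ⟨Finset.mem_range.2 hj, hoj⟩
    rw [he] at this
    exact absurd this (Finset.notMem_empty _)
  obtain ⟨j₁, hj₁, hm₁⟩ := Finset.exists_min_image _ (fun j => gw w' θ j t' - gw w' θ j s') hne'
  have hm' : ∀ j < N' * q', OccX X w' s' t' θ j →
      gw w' θ j₁ t' - gw w' θ j₁ s' ≤ gw w' θ j t' - gw w' θ j s' := fun j hj hoj =>
    hm₁ j (Finset.mem_filter.2 ⟨Finset.mem_range.2 hj, hoj⟩)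
  have ho₁ := (Finset.mem_filter.1 hj₁).2
  rcases le_total (gw w θ j₀ t - gw w θ j₀ s) (gw w' θ j₁ t' - gw w' θ j₁ s') with hle | hle
  · exact one_of_min h h' hne h1 h2 h1' h2' xOk_left xOk_right subset_rfl ho₀ hm
      fun j hj hoj => hle.trans (hm' j hj hoj)
  · have := one_of_min h' h hne.symm h1' h2' h1 h2 (X := X) xOk_right xOk_left
      (by rw [hX, XX_comm]) ho₁ hm' fun j hj hoj => hle.trans (hm j hj hoj)
    exact this.symm

/-- **nested arcs**: the relative length of the inner arc -/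
theorem nested_len (h : CA N q w s t) (h' : CA N' q' w' s' t') (hne : N ≠ N') (hq : 3 ≤ q)
    (hs : s < s') (ht : t' < t) : (2 : ℝ) ^ ((q' - 2) * N') * (t' - s') ≤ t - s := by
  have hst' := h'.lt
  set θ : ℝ := (s' + t') / 2 with hθ
  have h1' : s' < θ := by rw [hθ]; linarith
  have h2' : θ < t' := by rw [hθ]; linarith
  have h1 : s < θ := hs.trans h1'
  have h2 : θ < t := h2'.trans ht
  have ho : OccX (XX N N' s s') w s t θ 0 := by
    refine ⟨s', Or.inr ⟨0, mem0⟩, ?_, ?_⟩
    · simpa using hs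
    · simpa using hst'.trans ht
  have hq2 := h'.two
  have hcθ := h.compat θ h1 h2
  have hcθ' := h'.compat θ h1' h2'
  obtain ⟨k, hk, hone⟩ : ∃ k < N', One (XX N N' s s') N' q' w' s' t' θ k := by
    rcases exists_one h h' hne h1 h2 h1' h2' ho with ⟨k, hk, hone⟩ | h3
    · exfalso
      have o0 : OccX (XX N N' s s') w s t θ (0 + N * 0) := by simpa using ho
      have o1 := h.occX_block xOk_left h1 h2 h.pos (by omega : 0 + 1 < q) o0 hk
      have o2 := h.occX_block xOk_left h1 h2 hk (by omega : 1 + 1 < q) o1 hk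
      exact hone 1 (by omega) o1 o2
    · exact h3
  -- the gap `q' - 2` of phase `0` is not occupied
  have hno : ¬ OccX (XX N N' s s') w' s' t' θ (0 + N' * (q' - 2)) := by
    intro o0
    have o1 := h'.occX_phase xOk_right h1' h2' k (by omega) o0
    rw [Nat.zero_add] at o1
    have o2 := h'.occX_block xOk_right h1' h2' hk (by omega : q' - 2 + 1 < q') o1 hk
    exact hone (q' - 2) (by omega) o1 o2
  rw [Nat.zero_add] at hno
  obtain ⟨m, hm⟩ := h'.lin h1' h2' (i := (q' - 2) * N') le_rfl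
  have hmc : (q' - 2) * N' = N' * (q' - 2) := mul_comm _ _
  have haA : gw w' θ (N' * (q' - 2)) s' ∈ AA N' s' 0 := by
    have := (h'.gw_pt h1' h2' (x := s') mem0 (N' * (q' - 2))).1
    have e := AA_congr h'.per 0 (q' - 2)
    rw [Nat.zero_add] at e
    rwa [e] at this
  have hlen : gw w' θ (N' * (q' - 2)) t' - gw w' θ (N' * (q' - 2)) s' =
      2 ^ ((q' - 2) * N') * (t' - s') := by
    rw [← hmc, hm s' le_rfl hst'.le, hm t' hst'.le le_rfl]; ring
  have hpos : 0 < gw w' θ (N' * (q' - 2)) t' - gw w' θ (N' * (q' - 2)) s' := by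
    rw [hlen]
    exact mul_pos (by positivity) (by linarith)
  rw [← hlen]
  set a := gw w' θ (N' * (q' - 2)) s' with ha
  set b := gw w' θ (N' * (q' - 2)) t' with hb
  have hnl := not_linked3 h.pos h'.pos hne h.word h'.word hcθ hcθ' 0 0
  set l : ℤ := ⌊a - s⌋ with hl
  have l1 : s + l ≤ a := by
    have := Int.floor_le (a - s); rw [hl]; linarith
  have l2 : a < s + l + 1 := by
    have := Int.lt_floor_add_one (a - s); rw [hl]; linarith
  have htl := h.mem
  have h5 : a < t + l := by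
    by_contra hcon
    push Not at hcon
    refine hnl ⟨s, mem0, s', mem0, t, htl, a + ((-l : ℤ) : ℝ), AA_shift haA _, hs.le, ?_, ?_, ?_⟩
    · linarith
    · push_cast; linarith
    · push_cast; linarith
  have h6 : b ≤ t + l := by
    by_contra hcon
    push Not at hcon
    exact hno ⟨t + l, Or.inl ⟨0, AA_shift htl l⟩, h5, hcon⟩
  linarith

/-- **nested arcs**: the period of the inner arc is large -/
theorem nested_per (h : CA N q w s t) (h' : CA N' q' w' s' t') (hne : N ≠ N')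
    (hs : s < s') (ht : t' < t) (hl : t - s ≤ 1 / 2) : 1 < (2 : ℝ) ^ (N' + 1) * (t - s) := by
  have hst' := h'.lt
  set θ : ℝ := (s' + t') / 2 with hθ
  have h1' : s' < θ := by rw [hθ]; linarith
  have h2' : θ < t' := by rw [hθ]; linarith
  have h1 : s < θ := hs.trans h1'
  have h2 : θ < t := h2'.trans ht
  have hcθ := h.compat θ h1 h2
  have hcθ' := h'.compat θ h1' h2'
  have hnl := not_linked3 h.pos h'.pos hne h.word h'.word hcθ hcθ' 0 0
  have hlt := h.lt
  -- every point of phase `0` is in `(s, t)` modulo one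
  have hin : ∀ a ∈ AA N' s' 0, ∃ l : ℤ, s < a + l ∧ a + l < t := by
    intro a ha
    set l : ℤ := -⌊a - s⌋ with hl
    have l1 : s ≤ a + l := by
      have := Int.floor_le (a - s); rw [hl]; push_cast; linarith
    have l2 : a + l < s + 1 := by
      have := Int.lt_floor_add_one (a - s); rw [hl]; push_cast; linarith
    have hal : a + l ∈ AA N' s' 0 := AA_shift ha l
    refine ⟨l, lt_of_le_of_ne l1 fun he => ?_, ?_⟩
    · refine hnl ⟨s, mem0, a + l, hal, s, mem0, a + l, hal, l1, ?_, l1, l2.le⟩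
      exact he.symm.le
    · by_contra hcon
      push Not at hcon
      exact hnl ⟨s, mem0, s', mem0, t, h.mem, a + l, hal, hs.le, by linarith, hcon, l2.le⟩
  by_contra hcon
  push Not at hcon
  have hcon' : (2 : ℝ) ^ N' * (t - s) ≤ 1 / 2 := by
    rw [pow_succ] at hcon; linarith
  have hp0 : (0 : ℝ) < 2 ^ N' := by positivity
  -- differences grow
  have hgrow : ∀ n : ℕ, ∃ a ∈ AA N' s' 0, ∃ b ∈ AA N' s' 0, s < a ∧ a < t ∧ s < b ∧ b < t ∧
      b - a = (2 ^ N') ^ n * (t' - s') := by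
    intro n
    induction n with
    | zero =>
      exact ⟨s', mem0, t', h'.mem, hs, hst'.trans ht, hs.trans hst', ht, by simp⟩
    | succ n ih =>
      obtain ⟨a, ha, b, hb, a1, a2, b1, b2, e⟩ := ih
      have hdbl : ∀ u ∈ AA N' s' 0, 2 ^ N' * u ∈ AA N' s' 0 := by
        rintro u ⟨m, k, rfl⟩
        refine ⟨m + 1, 2 ^ N' * k, ?_⟩
        rw [Nat.zero_add, Nat.zero_add, show N' * (m + 1) = N' + N' * m by ring, pow_add]
        push_cast; ring
      obtain ⟨la, la1, la2⟩ := hin _ (hdbl a ha)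
      obtain ⟨lb, lb1, lb2⟩ := hin _ (hdbl b hb)
      have hpos : 0 ≤ b - a := by rw [e]; exact mul_nonneg (by positivity) (by linarith)
      have g1 : 0 ≤ 2 ^ N' * (b - a) := mul_nonneg hp0.le hpos
      have g2 : 2 ^ N' * (b - a) ≤ 1 / 2 := by
        have : 2 ^ N' * (b - a) ≤ 2 ^ N' * (t - s) := mul_le_mul_of_nonneg_left (by linarith) hp0.le
        linarith
      have hlab : la = lb := by
        have f1 : ((lb - la : ℤ) : ℝ) < ((1 : ℤ) : ℝ) := by push_cast; nlinarith
        have f2 : ((-1 : ℤ) : ℝ) < ((lb - la : ℤ) : ℝ) := by push_cast; nlinarith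
        have f3 : lb - la < 1 := by exact_mod_cast f1
        have f4 : -1 < lb - la := by exact_mod_cast f2
        omega
      refine ⟨_, AA_shift (hdbl a ha) la, _, AA_shift (hdbl b hb) lb, la1, la2, lb1, lb2, ?_⟩
      rw [hlab, pow_succ, mul_assoc, mul_comm (2 ^ N' : ℝ) (t' - s'), ← mul_assoc, ← e]
      ring
  obtain ⟨n, hn⟩ := pow_unbounded_of_one_lt (1 / (t' - s')) (one_lt_two (α := ℝ))
  obtain ⟨a, -, b, -, a1, a2, b1, b2, e⟩ := hgrow n
  have h3 : 1 / (t' - s') < (2 ^ N') ^ n := by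
    refine hn.trans_le ?_
    refine pow_le_pow_left₀ (by norm_num) ?_ n
    calc (2 : ℝ) = 2 ^ 1 := (pow_one _).symm
      _ ≤ 2 ^ N' := pow_le_pow_right₀ (by norm_num) h'.pos
  have h4 : 1 < (2 ^ N') ^ n * (t' - s') := by
    rwa [div_lt_iff₀ (by linarith)] at h3
  linarith

/-- **doubling** -/
theorem nested_double (h : CA N q w s t) (h' : CA N' q' w' s' t') (hne : N ≠ N') (hq : 3 ≤ q)
    (hq' : 3 ≤ q') (hs : s < s') (ht : t' < t) : t' - s' ≤ 2 * (t - s) ^ 2 ∧
      2 * (t' - s') ≤ t - s := by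
  have h1 := h.nested_len h' hne hq hs ht
  have hlt := h.lt
  have hlt' := h'.lt
  have hle : t - s ≤ 1 / 2 := by
    have h2 := h.len
    have h3 : (2 : ℝ) ^ 1 ≤ 2 ^ ((q - 2) * N) :=
      pow_le_pow_right₀ (by norm_num) (Nat.mul_pos (by omega) h.pos)
    have h4 : (2 : ℝ) ^ 1 * (t - s) ≤ 2 ^ ((q - 2) * N) * (t - s) :=
      mul_le_mul_of_nonneg_right h3 (by linarith)
    linarith
  have h2 := h.nested_per h' hne hs ht hle
  have h3 : (2 : ℝ) ^ N' ≤ 2 ^ ((q' - 2) * N') :=
    pow_le_pow_right₀ (by norm_num) (Nat.le_mul_of_pos_left N' (by omega))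
  have h4 : (2 : ℝ) ^ N' * (t' - s') ≤ t - s :=
    (mul_le_mul_of_nonneg_right h3 (by linarith)).trans h1
  have h5 : (2 : ℝ) ≤ 2 ^ N' := by
    calc (2 : ℝ) = 2 ^ 1 := (pow_one _).symm
      _ ≤ 2 ^ N' := pow_le_pow_right₀ (by norm_num) h'.pos
  rw [pow_succ] at h2
  constructor
  · nlinarith
  · nlinarith

end CA

end Pool.Agent.Work.MLC
end

section
set_option autoImplicit false

/-! # Theorem Cap: the one-piece estimates of type I and II, unconditional (helper26) -/

namespace Pool.Agent.Work.MLC.Cap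

open Pool.Agent.Work.MLC.Sat Pool.Agent.Work.MLC.Cnt

/-- one complete cut -/
theorem cut_all : C_cut (3 * (2 * 10 ^ 7 + 10 ^ 16)) :=
  c_cut c_nbr c_dist (by norm_num) (by norm_num) (c_cutray_explicit c_leaf c_average c_dist)
    (c_cutgate q_gate)

lemma one_mono {C C' : ℝ} (h : C ≤ C') (hC : C_one C) : C_one C' :=
  fun W hW x H hx0 hx1 hH1 hlen hDD => (hC W hW x H hx0 hx1 hH1 hlen hDD).trans
    (mul_le_mul' (ENNReal.ofReal_le_ofReal h) le_rfl)

/-- **the one-piece estimate for limbs** -/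
theorem one_all : C_one (10 ^ 17) :=
  one_mono (by norm_num) (c_one q_top c_roof (by norm_num) cut_all)

end Pool.Agent.Work.MLC.Cap
end

section
set_option autoImplicit false

/-! # Theorem F, module G3 (helper70): roots of the same period and the same rotation number are
separated by the arc of a root of smaller period and low level -/

namespace Pool.Agent.Work.MLC.Cnt

open Filter Topology Metric Set Complex
open Pool.Agent.Work.MLC.Sat
open Pool.Agent.Work.MLC.Pri (LeftEnd InPl)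

variable {D D' : Dat}

namespace G3

/-- the left end is periodic -/
lemma tm_per (hC : D.Cir) : ∃ a : ℤ, (2 : ℝ) ^ (D.m * D.x.den) * D.tm - D.tm = a := hC.per.2.1

end G3

end Pool.Agent.Work.MLC.Cnt
end

section
set_option autoImplicit false

/-! # Theorem Cap, stage A: the finitely many small labels (helper57)

A family of roots of labels `m q ≤ N` whose arcs are different modulo `1` has at most
`(N + 1) 2 ^ N` members. -/

namespace Pool.Agent.Work.MLC.Cap

open Pool.Agent.Work.MLC.Sat Pool.Agent.Work.MLC.Cnt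

/-- the left end of the arc of a root is periodic with the period of the child -/
lemma tm_per_dat {W : WS} {x : ℚ} (hW : W.Ok) (h0 : 0 < x) (h1 : x < 1) :
    ∃ a : ℤ, (2 : ℝ) ^ (W.m * x.den) * (W.dat x).tm - (W.dat x).tm = a := by
  have h := G3.tm_per (W.dat_cir hW h0 h1)
  rwa [W.dat_m hW h0 h1, W.dat_x hW h0 h1] at h

/-- two angles with the same period whose numerators agree modulo `2 ^ n - 1` agree modulo `1` -/
lemma eq_add_int {n : ℕ} (hn : 0 < n) {s t : ℝ} {a b : ℤ} (ha : (2 : ℝ) ^ n * s - s = a)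
    (hb : (2 : ℝ) ^ n * t - t = b) (hab : a % (2 ^ n - 1) = b % (2 ^ n - 1)) :
    ∃ k : ℤ, s = t + k := by
  have hdvd : (2 ^ n - 1 : ℤ) ∣ a - b := Int.ModEq.dvd (show b % (2 ^ n - 1) = a % (2 ^ n - 1) from hab.symm)
  obtain ⟨c, hc⟩ := hdvd
  refine ⟨c, ?_⟩
  have h2 : (1 : ℝ) < 2 ^ n := one_lt_pow₀ (by norm_num) hn.ne'
  have h3 : ((2 : ℝ) ^ n - 1) ≠ 0 := by linarith
  have h4 : (a : ℝ) - b = (2 ^ n - 1) * c := by exact_mod_cast hc
  apply mul_left_cancel₀ h3
  rw [mul_add, ← h4]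
  linarith

/-- **small labels**: a family of roots of labels `m q ≤ N` whose arcs are different modulo `1` has
at most `(N + 1) 2 ^ N` members -/
theorem small_card {ι : Type*} (N : ℕ) (s : Finset ι) (W : ι → WS) (x : ι → ℚ)
    (hok : ∀ i ∈ s, (W i).Ok ∧ 0 < x i ∧ x i < 1) (hN : ∀ i ∈ s, (W i).m * (x i).den ≤ N)
    (hne : ∀ i ∈ s, ∀ j ∈ s, i ≠ j → ∀ k : ℤ,
      ((W i).dat (x i)).tm ≠ ((W j).dat (x j)).tm + k) :
    s.card ≤ (N + 1) * 2 ^ N := by
  classical
  have hper : ∀ i ∈ s, ∃ a : ℤ, (2 : ℝ) ^ ((W i).m * (x i).den) * ((W i).dat (x i)).tm -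
      ((W i).dat (x i)).tm = a := fun i hi => tm_per_dat (hok i hi).1 (hok i hi).2.1 (hok i hi).2.2
  choose! a ha using hper
  have hpos : ∀ i ∈ s, 0 < (W i).m * (x i).den := fun i hi =>
    Nat.mul_pos (hok i hi).1.wide.pos (x i).pos
  set f : ι → ℕ × ℕ := fun i => ((W i).m * (x i).den,
    (a i % (2 ^ ((W i).m * (x i).den) - 1)).toNat) with hf
  have hmod : ∀ i ∈ s, (0 : ℤ) ≤ a i % (2 ^ ((W i).m * (x i).den) - 1) ∧
      a i % (2 ^ ((W i).m * (x i).den) - 1) < 2 ^ ((W i).m * (x i).den) - 1 := by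
    intro i hi
    have h1 : (1 : ℤ) < 2 ^ ((W i).m * (x i).den) := one_lt_pow₀ (by norm_num) (hpos i hi).ne'
    exact ⟨Int.emod_nonneg _ (by omega), Int.emod_lt_of_pos _ (by omega)⟩
  have hmaps : ∀ i ∈ s, f i ∈ Finset.range (N + 1) ×ˢ Finset.range (2 ^ N) := by
    intro i hi
    rw [Finset.mem_product]
    refine ⟨Finset.mem_range.2 (Nat.lt_succ_of_le (hN i hi)), Finset.mem_range.2 ?_⟩
    have h1 := (hmod i hi).2
    have h2 : (2 : ℤ) ^ ((W i).m * (x i).den) ≤ 2 ^ N := pow_le_pow_right₀ (by norm_num) (hN i hi)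
    have h3 := (hmod i hi).1
    show (a i % (2 ^ ((W i).m * (x i).den) - 1)).toNat < 2 ^ N
    zify
    rw [Int.toNat_of_nonneg h3]
    omega
  have hinj : Set.InjOn f s := by
    intro i hi j hj hij
    by_contra hne'
    have h1 : (W i).m * (x i).den = (W j).m * (x j).den := congrArg Prod.fst hij
    have h2 : (a i % (2 ^ ((W i).m * (x i).den) - 1)).toNat =
      (a j % (2 ^ ((W j).m * (x j).den) - 1)).toNat := congrArg Prod.snd hij
    have h3 : a i % (2 ^ ((W i).m * (x i).den) - 1) = a j % (2 ^ ((W j).m * (x j).den) - 1) := by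
      rw [← Int.toNat_of_nonneg (hmod i hi).1, h2, Int.toNat_of_nonneg (hmod j hj).1]
    rw [← h1] at h3
    have h4 := ha j hj
    rw [← h1] at h4
    obtain ⟨k, hk⟩ := eq_add_int (hpos i hi) (ha i hi) h4 h3
    exact hne i hi j hj hne' k hk
  calc s.card ≤ (Finset.range (N + 1) ×ˢ Finset.range (2 ^ N)).card :=
        Finset.card_le_card_of_injOn f hmaps hinj
    _ = (N + 1) * 2 ^ N := by rw [Finset.card_product, Finset.card_range, Finset.card_range]

/-- roots with the same angle are equal -/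
theorem rt_eq_of_tm {D D' : Dat} (hP : D.Par) (hC : D.Cir) (hP' : D'.Par) (hC' : D'.Cir) {k : ℤ}
    (h : D.tm = D'.tm + k) : rt D = rt D' := by
  have h1 := ray_tm hP hC
  have h2 := ray_tm hP' hC'
  refine tendsto_nhds_unique h1 (h2.congr fun g => ?_)
  rw [← CH.cOf_shift g D'.tm k, ← h]

/-- **small labels**, for different roots -/
theorem small_card_rt {ι : Type*} (N : ℕ) (F : Finset ι) (W : ι → WS) (x : ι → ℚ)
    (hok : ∀ i ∈ F, (W i).Ok ∧ 0 < x i ∧ x i < 1) (hN : ∀ i ∈ F, (W i).m * (x i).den ≤ N)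
    (hne : ∀ i ∈ F, ∀ j ∈ F, i ≠ j → rt ((W i).dat (x i)) ≠ rt ((W j).dat (x j))) :
    F.card ≤ (N + 1) * 2 ^ N :=
  small_card N F W x hok hN fun i hi j hj hij _ hk => hne i hi j hj hij
    (rt_eq_of_tm ((W i).dat_par (hok i hi).1 (hok i hi).2.1 (hok i hi).2.2)
      ((W i).dat_cir (hok i hi).1 (hok i hi).2.1 (hok i hi).2.2)
      ((W j).dat_par (hok j hj).1 (hok j hj).2.1 (hok j hj).2.2)
      ((W j).dat_cir (hok j hj).1 (hok j hj).2.1 (hok j hj).2.2) hk)

/-- **small labels**, existence form -/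
theorem small_card_ex (N : ℕ) : ∃ K : ℕ, ∀ (ι : Type) (F : Finset ι) (W : ι → WS) (x : ι → ℚ),
    (∀ i ∈ F, (W i).Ok ∧ 0 < x i ∧ x i < 1 ∧ 3 ≤ (x i).den ∧ (W i).m * (x i).den ≤ N) →
    (∀ i ∈ F, ∀ j ∈ F, i ≠ j → rt ((W i).dat (x i)) ≠ rt ((W j).dat (x j))) → F.card ≤ K :=
  ⟨(N + 1) * 2 ^ N, fun _ F W x h hne => small_card_rt N F W x
    (fun i hi => ⟨(h i hi).1, (h i hi).2.1, (h i hi).2.2.1⟩) (fun i hi => (h i hi).2.2.2.2) hne⟩

end Pool.Agent.Work.MLC.Cap
end

section
set_option autoImplicit false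

/-! # Theorem Cap, stage A: the sum over all roots with denominators at least `3` (helper50) -/

namespace Pool.Agent.Work.MLC.Cap

open Filter Topology Metric Set Complex MeasureTheory
open Pool.Agent.Work.MLC.Sat Pool.Agent.Work.MLC.Cnt
open scoped ENNReal

/-- the plateaus of different roots with denominators at least `3` are disjoint, or nested and then
the exponent of the length doubles (modulo integers) -/
theorem far_or_double {D D' : Dat} (hP : D.Par) (hC : D.Cir) (hP' : D'.Par) (hC' : D'.Cir)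
    (hq : 3 ≤ D.x.den) (hq' : 3 ≤ D'.x.den) (hne : rt D ≠ rt D') (k : ℤ) :
    D'.tp + k < D.tm ∨ D.tp < D'.tm + k ∨ D'.tp - D'.tm ≤ 2 * (D.tp - D.tm) ^ 2 ∨
      D.tp - D.tm ≤ 2 * (D'.tp - D'.tm) ^ 2 := by
  have hA := ca_of hP hC
  have hA' := (ca_of hP' hC').shift k
  have hlt := hC.lt
  have hlt' := hC'.lt
  rcases laminar n2_ray n5_open n5_closed hP hC hP' hC' hne k with ⟨h1, h2⟩ | ⟨h1, h2⟩ | h | h
  · right; right; left
    have hm : D.m ≠ D'.m := by
      intro hm
      refine hne (n4_anti D D' hP hC hP' hC' hm hq hq' ⟨(D'.tm + D'.tp) / 2 + k, -k, ?_, ?_, ?_, ?_⟩)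
      · linarith
      · linarith
      · push_cast; linarith
      · push_cast; linarith
    have h3 := (hA.nested_double hA' hm hq hq' h1 h2).1
    linarith
  · right; right; right
    have hm : D'.m ≠ D.m := by
      intro hm
      refine hne (n4_anti D D' hP hC hP' hC' hm.symm hq hq' ⟨(D.tm + D.tp) / 2, -k, ?_, ?_, ?_, ?_⟩)
      · linarith
      · linarith
      · push_cast; linarith
      · push_cast; linarith
    have h3 := (hA'.nested_double hA hm hq' hq h1 h2).1
    have e : D'.tp + k - (D'.tm + k) = D'.tp - D'.tm := by ring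
    rw [e] at h3
    exact h3
  · exact Or.inl h
  · exact Or.inr (Or.inl h)

/-- the exponent doubles -/
lemma lam_double {l l' : ℝ} (hl : 0 < l) (hl' : 0 < l') (h : l' ≤ 2 * l ^ 2) (h10 : 10 ≤ lam l) :
    9 / 5 * lam l ≤ lam l' := by
  have h1 : lam (2 * l ^ 2) ≤ lam l' := lam_anti hl' h
  have h2 : lam (2 * l ^ 2) = 2 * lam l - 1 := by
    unfold lam
    rw [one_div, one_div, Real.logb_inv, Real.logb_inv, Real.logb_mul (by norm_num) (by positivity),
      Real.logb_pow, Real.logb_self_eq_one (by norm_num)]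
    push_cast; ring
  linarith

lemma lam_pow {n : ℕ} {l : ℝ} (hl : 0 < l) (h : l ≤ (1 / 2) ^ n) : (n : ℝ) ≤ lam l := by
  have h1 := lam_anti hl h
  have h2 : lam ((1 / 2) ^ n) = n := by
    unfold lam
    rw [one_div, one_div, Real.logb_inv, Real.logb_pow, Real.logb_inv,
      Real.logb_self_eq_one (by norm_num)]
    ring
  rwa [h2] at h1

lemma lam_pow' {n : ℕ} {l : ℝ} (h : (1 / 2) ^ n ≤ l) : lam l ≤ n := by
  have h1 := lam_anti (by positivity) h
  have h2 : lam ((1 / 2) ^ n) = n := by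
    unfold lam
    rw [one_div, one_div, Real.logb_inv, Real.logb_pow, Real.logb_inv,
      Real.logb_self_eq_one (by norm_num)]
    ring
  rwa [h2] at h1

variable {W : WS} {x : ℚ}

/-- the roof is cheaper than the ray -/
lemma roof_le_ray {N e D l : ℝ} (hl : 0 < l) (hN : 0 < N) (hlN : lam l + 1 ≤ N) (hD : 0 ≤ D) :
    en (Rf e (e + l) l) ≤ rayE N e D l := by
  unfold en rayE
  have hsub : Rf e (e + l) l ⊆ RS e D l := by
    rintro z ⟨h1, h2, h3, h4⟩
    refine ⟨by linarith, h2.le, ?_⟩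
    rw [abs_le]
    constructor <;> linarith
  refine le_trans (le_of_eq ?_) (lintegral_mono_set hsub)
  refine setLIntegral_congr_fun (meas_Rf _ _ _) fun z hz => ?_
  obtain ⟨h1, h2, -, -⟩ := hz
  have hb : bet N z.re = 1 := by
    unfold bet
    have h3 : Real.logb 2 (1 / z.re) ≤ N := by
      refine le_trans ?_ hlN
      have h4 : Real.logb 2 (1 / z.re) ≤ Real.logb 2 (1 / l * 2) := by
        apply Real.logb_le_logb_of_le (by norm_num) (by have : 0 < z.re := by linarith
                                                        positivity)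
        rw [div_mul_eq_mul_div, one_mul, div_le_div_iff₀ (by linarith) hl]
        linarith
      rw [Real.logb_mul (by positivity) (by norm_num), Real.logb_self_eq_one (by norm_num)] at h4
      exact h4
    rw [max_eq_left (by rw [div_le_one hN]; exact h3), Real.one_rpow]
  show ENNReal.ofReal (‖deriv cOf z‖ ^ 2) = ENNReal.ofReal (‖deriv cOf z‖ ^ 2 / bet N z.re)
  rw [hb, div_one]

/-- same component and same rational: same root -/
lemma rt_eq_of_same {W W' : WS} {x x' : ℚ} (hW : W.Ok) (hW' : W'.Ok) (h : WS.Same W W')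
    (hx : x = x') (h0 : 0 < x) (h1 : x < 1) : rt (W.dat x) = rt (W'.dat x') := by
  subst hx
  unfold rt
  rw [WS.dat_c hW h0 h1, WS.dat_c hW' h0 h1, WS.dat_a hW h0 h1, WS.dat_a hW' h0 h1]
  refine h.2 _ ?_
  have hm : (0 : ℝ) < W.m := by exact_mod_cast hW.wide.pos
  have hx0 : (0 : ℝ) < x := by exact_mod_cast h0
  have hx1 : (x : ℝ) < 1 := by exact_mod_cast h1
  have hpi := Real.two_pi_pos
  refine ⟨?_, ?_, ?_⟩
  · rw [LimbData.axisPt_im]; positivity
  · rw [LimbData.axisPt_im]; nlinarith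
  · rw [LimbData.axisPt_re]
    unfold Pri.hgt
    have h3 : 0 < min (axisPt x).im (2 * Real.pi - (axisPt x).im) := by
      rw [LimbData.axisPt_im]
      exact lt_min (by positivity) (by nlinarith)
    positivity

/-- the hypotheses on a family of different roots with denominators at least `3` -/
def RFam {ι : Type} (F : Finset ι) (W : ι → WS) (x : ι → ℚ) : Prop :=
  (∀ i ∈ F, (W i).Ok ∧ 0 < x i ∧ x i < 1 ∧ 3 ≤ (x i).den) ∧
    ∀ i ∈ F, ∀ j ∈ F, i ≠ j → rt ((W i).dat (x i)) ≠ rt ((W j).dat (x j))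

/-- the length of the plateau -/
noncomputable def ln (W : WS) (x : ℚ) : ℝ := (W.dat x).tp - (W.dat x).tm

/-- the family of the left ends is admissible -/
lemma fam_left {ι : Type} {F : Finset ι} {W : ι → WS} {x : ι → ℚ} (h : RFam F W x)
    (hbig : ∀ i ∈ F, 10 ≤ lam (ln (W i) (x i))) (e : ι → ℝ)
    (he : (∀ i ∈ F, ∃ k : ℤ, ((W i).dat (x i)).tm = e i + k) ∨
      (∀ i ∈ F, ∃ k : ℤ, ((W i).dat (x i)).tp = e i + k)) :
    Fam F (fun i => ln (W i) (x i)) (fun i => ((W i).m * (x i).den : ℝ))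
      (fun i => DD (W i).m (x i).den) e where
  pos := fun i hi => len_pos (h.1 i hi).1 (h.1 i hi).2.1 (h.1 i hi).2.2.1
  big := hbig
  n0 := fun i hi => by
    have h1 : (0 : ℝ) < (W i).m := by exact_mod_cast (h.1 i hi).1.wide.pos
    have h2 : (0 : ℝ) < (x i).den := by exact_mod_cast (x i).pos
    positivity
  n1 := fun i hi => by
    obtain ⟨hW, h0, h1, h3⟩ := h.1 i hi
    have h4 := lam_pow (len_pos hW h0 h1) (len_upper hW h0 h1)
    have h5 : ((W i).m * (x i).den : ℝ) ≤ 3 * (((W i).m * ((x i).den - 2) : ℕ) : ℝ) := by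
      have : (W i).m * (x i).den ≤ 3 * ((W i).m * ((x i).den - 2)) := by
        rw [← mul_assoc, mul_comm 3, mul_assoc]
        exact Nat.mul_le_mul_left _ (by omega)
      exact_mod_cast this
    have h6 := hbig i hi
    simp only [ln] at h6 ⊢
    linarith
  D1 := fun i hi => DD_le_sq (h.1 i hi).1 (h.1 i hi).2.1 (h.1 i hi).2.2.1 (h.1 i hi).2.2.2
  sep := fun i hi j hj hij => by
    obtain ⟨hW, h0, h1, h3⟩ := h.1 i hi
    obtain ⟨hW', h0', h1', h3'⟩ := h.1 j hj
    have hP := WS.dat_par hW h0 h1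
    have hC := WS.dat_cir hW h0 h1
    have hP' := WS.dat_par hW' h0' h1'
    have hC' := WS.dat_cir hW' h0' h1'
    have hx := WS.dat_x hW h0 h1
    have hx' := WS.dat_x hW' h0' h1'
    have hl := len_pos hW h0 h1
    have hl' := len_pos hW' h0' h1'
    have key := fun k : ℤ => far_or_double hP hC hP' hC' (by rw [hx]; exact h3)
      (by rw [hx']; exact h3') (h.2 i hi j hj hij) k
    have hb := hbig i hi
    have hb' := hbig j hj
    simp only [ln] at hb hb' ⊢
    rcases he with he | he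
    · obtain ⟨a, ha⟩ := he i hi
      obtain ⟨b, hb1⟩ := he j hj
      rcases key (a - b) with h4 | h4 | h4 | h4
      · left
        refine (min_le_right _ _).trans (le_trans ?_ (le_abs_self _))
        push_cast at h4
        linarith
      · left
        refine (min_le_left _ _).trans (le_trans ?_ (neg_le_abs _))
        push_cast at h4
        linarith
      · right; left
        exact lam_double hl hl' h4 hb
      · right; right
        exact lam_double hl' hl h4 hb'
    · obtain ⟨a, ha⟩ := he i hi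
      obtain ⟨b, hb1⟩ := he j hj
      rcases key (a - b) with h4 | h4 | h4 | h4
      · left
        refine (min_le_left _ _).trans (le_trans ?_ (le_abs_self _))
        push_cast at h4
        linarith
      · left
        refine (min_le_right _ _).trans (le_trans ?_ (neg_le_abs _))
        push_cast at h4
        linarith
      · right; left
        exact lam_double hl hl' h4 hb
      · right; right
        exact lam_double hl' hl h4 hb'

/-- the sum of the ray energies of a family -/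
lemma sum_rays (hE : C_energy) {ι : Type} {F : Finset ι} {W : ι → WS} {x : ι → ℚ}
    (h : RFam F W x) (hbig : ∀ i ∈ F, 10 ≤ lam (ln (W i) (x i))) :
    ∑ i ∈ F, rayE (4 * (W i).m * (x i).den) ((W i).dat (x i)).tm (DD (W i).m (x i).den)
      (ln (W i) (x i)) ≤ ENNReal.ofReal (10 ^ 10) ∧
    ∑ i ∈ F, rayE (4 * (W i).m * (x i).den) ((W i).dat (x i)).tp (DD (W i).m (x i).den)
      (ln (W i) (x i)) ≤ ENNReal.ofReal (10 ^ 10) := by
  have hK : ENNReal.ofReal (10 ^ 4) * en St ≤ ENNReal.ofReal (10 ^ 10) := by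
    have h1 : en St ≤ 10 ^ 6 := hE
    refine (mul_le_mul' le_rfl h1).trans (le_of_eq ?_)
    have h2 : (10 : ℝ≥0∞) ^ 6 = ENNReal.ofReal (10 ^ 6) := by
      rw [ENNReal.ofReal_pow (by norm_num)]; norm_num
    rw [h2, ← ENNReal.ofReal_mul (by norm_num)]
    norm_num
  have main : ∀ e : ι → ℝ, ((∀ i ∈ F, ∃ k : ℤ, ((W i).dat (x i)).tm = e i + k) ∨
      (∀ i ∈ F, ∃ k : ℤ, ((W i).dat (x i)).tp = e i + k)) → (∀ i ∈ F, 0 ≤ e i ∧ e i < 1) →
      ∑ i ∈ F, rayE (4 * (W i).m * (x i).den) (e i) (DD (W i).m (x i).den) (ln (W i) (x i)) ≤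
        ENNReal.ofReal (10 ^ 10) := by
    intro e he he1
    have h1 := (fam_left h hbig e he).sum_ray he1
    refine le_trans (le_of_eq (Finset.sum_congr rfl fun i _ => ?_)) (h1.trans hK)
    rw [mul_assoc]
  have hfr : ∀ u : ℝ, u = Int.fract u + (⌊u⌋ : ℤ) := fun u => (Int.fract_add_floor u).symm
  constructor
  · refine le_trans (le_of_eq (Finset.sum_congr rfl fun i _ => ?_))
      (main (fun i => Int.fract ((W i).dat (x i)).tm) (Or.inl fun i _ => ⟨_, hfr _⟩)
        fun i _ => ⟨Int.fract_nonneg _, Int.fract_lt_one _⟩)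
    conv_lhs => rw [hfr ((W i).dat (x i)).tm]
    exact rayE_shift _ _ _ _ _
  · refine le_trans (le_of_eq (Finset.sum_congr rfl fun i _ => ?_))
      (main (fun i => Int.fract ((W i).dat (x i)).tp) (Or.inr fun i _ => ⟨_, hfr _⟩)
        fun i _ => ⟨Int.fract_nonneg _, Int.fract_lt_one _⟩)
    conv_lhs => rw [hfr ((W i).dat (x i)).tp]
    exact rayE_shift _ _ _ _ _

/-- one piece, normalised -/
lemma one_piece {C : ℝ} (hC : C_one C) (hW : W.Ok) (h0 : 0 < x) (h1 : x < 1) (h3 : 3 ≤ x.den) :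
    ENNReal.ofReal (diam (Lm (W.dat x)) ^ 2 / (W.m * x.den)) ≤ ENNReal.ofReal C *
      (2 * rayE (4 * W.m * x.den) (W.dat x).tm (DD W.m x.den) (ln W x) +
        rayE (4 * W.m * x.den) (W.dat x).tp (DD W.m x.den) (ln W x) +
        volume (HH W x) / x.den) := by
  have hm : (0 : ℝ) < W.m := by exact_mod_cast hW.wide.pos
  have hm1 : (1 : ℝ) ≤ W.m := by exact_mod_cast hW.wide.pos
  have hq : (0 : ℝ) < x.den := by exact_mod_cast x.pos
  have hq3 : (3 : ℝ) ≤ x.den := by exact_mod_cast h3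
  have hl := len_pos hW h0 h1
  have hle1 : ln W x ≤ 1 := by
    refine (len_upper hW h0 h1).trans (pow_le_one₀ (by norm_num) (by norm_num))
  have h4 := hC W hW x (ln W x) h0 h1 hle1 (by unfold ln; linarith) (DD_le_len hW h0 h1)
  have hlam : lam (ln W x) ≤ (W.m * x.den : ℕ) := lam_pow' (len_lower hW h0 h1)
  push_cast at hlam
  have hroof : en (Rf (W.dat x).tm (W.dat x).tp (ln W x)) ≤
      rayE (4 * W.m * x.den) (W.dat x).tm (DD W.m x.den) (ln W x) := by
    have h5 := roof_le_ray (N := 4 * W.m * x.den) (e := (W.dat x).tm) (D := DD W.m x.den)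
      (l := ln W x) hl (by positivity) (by nlinarith) (DD_pos _ _).le
    have e : (W.dat x).tm + ln W x = (W.dat x).tp := by unfold ln; ring
    rwa [e] at h5
  set R₁ := rayE (4 * W.m * x.den) (W.dat x).tm (DD W.m x.den) (ln W x) with hR₁
  set R₂ := rayE (4 * W.m * x.den) (W.dat x).tp (DD W.m x.den) (ln W x) with hR₂
  have e1 : ENNReal.ofReal (diam (Lm (W.dat x)) ^ 2 / (W.m * x.den)) =
      ENNReal.ofReal (1 / (W.m * x.den)) * ENNReal.ofReal (diam (Lm (W.dat x)) ^ 2) := by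
    rw [← ENNReal.ofReal_mul (by positivity)]
    congr 1; ring
  rw [e1]
  refine (mul_le_mul' le_rfl h4).trans ?_
  rw [mul_left_comm]
  refine mul_le_mul' le_rfl ?_
  unfold cutE
  rw [mul_add, mul_add]
  have f1 : ENNReal.ofReal (1 / (W.m * x.den)) * (ENNReal.ofReal (W.m * x.den) * (R₁ + R₂)) =
      R₁ + R₂ := by
    rw [← mul_assoc, ← ENNReal.ofReal_mul (by positivity), one_div,
      inv_mul_cancel₀ (by positivity), ENNReal.ofReal_one, one_mul]
  have f2 : ENNReal.ofReal (1 / (W.m * x.den)) * (ENNReal.ofReal W.m * volume (HH W x)) =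
      volume (HH W x) / x.den := by
    rw [← mul_assoc, ← ENNReal.ofReal_mul (by positivity)]
    have : (1 / (W.m * x.den) * W.m : ℝ) = (x.den : ℝ)⁻¹ := by field_simp
    rw [this, ENNReal.ofReal_inv_of_pos hq, ENNReal.ofReal_natCast, mul_comm, ← div_eq_mul_inv]
  have f3 : ENNReal.ofReal (1 / (W.m * x.den)) * en (Rf (W.dat x).tm (W.dat x).tp (ln W x)) ≤
      R₁ := by
    refine le_trans (mul_le_mul' ?_ hroof) (le_of_eq (one_mul _))
    rw [← ENNReal.ofReal_one]
    refine ENNReal.ofReal_le_ofReal ?_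
    rw [div_le_one (by positivity)]
    nlinarith
  rw [f1, f2]
  calc R₁ + R₂ + volume (HH W x) / x.den +
        ENNReal.ofReal (1 / (W.m * x.den)) * en (Rf (W.dat x).tm (W.dat x).tp (ln W x)) ≤
      R₁ + R₂ + volume (HH W x) / x.den + R₁ := add_le_add le_rfl f3
    _ = _ := by ring

/-- the sum over the small pieces -/
lemma sum_big (hE : C_energy) (hH : C_half) {C : ℝ} (hC0 : 0 ≤ C) (hC : C_one C)
    {ι : Type} {F : Finset ι} {W : ι → WS} {x : ι → ℚ}
    (h : RFam F W x) (hbig : ∀ i ∈ F, 10 ≤ lam (ln (W i) (x i))) :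
    ∑ i ∈ F, diam (Lm ((W i).dat (x i))) ^ 2 / ((W i).m * (x i).den) ≤ C * 10 ^ 11 := by
  have h1 : ENNReal.ofReal (∑ i ∈ F, diam (Lm ((W i).dat (x i))) ^ 2 / ((W i).m * (x i).den)) ≤
      ENNReal.ofReal (C * 10 ^ 11) := by
    rw [ENNReal.ofReal_sum_of_nonneg fun i _ => by positivity]
    refine (Finset.sum_le_sum fun i hi => one_piece hC (h.1 i hi).1 (h.1 i hi).2.1
      (h.1 i hi).2.2.1 (h.1 i hi).2.2.2).trans ?_
    rw [← Finset.mul_sum, Finset.sum_add_distrib, Finset.sum_add_distrib, ← Finset.mul_sum,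
      ENNReal.ofReal_mul hC0]
    refine mul_le_mul' le_rfl ?_
    obtain ⟨h2, h3⟩ := sum_rays hE h hbig
    have h4 := hH ι F W x (fun i hi => ⟨(h.1 i hi).1, (h.1 i hi).2.1, (h.1 i hi).2.2.1⟩) (by
      intro i hi G hG hGi
      refine le_trans ?_ (by norm_num : 1 ≤ 3)
      rw [Finset.card_le_one]
      intro a ha b hb
      by_contra hab
      obtain ⟨hWi, h0, h1, -⟩ := h.1 i hi
      have ea := rt_eq_of_same hWi (h.1 a (hG ha)).1 (hGi a ha).1 (hGi a ha).2 h0 h1
      have eb := rt_eq_of_same hWi (h.1 b (hG hb)).1 (hGi b hb).1 (hGi b hb).2 h0 h1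
      exact h.2 a (hG ha) b (hG hb) hab (ea.symm.trans eb))
    refine (add_le_add (add_le_add (mul_le_mul' le_rfl h2) h3) h4).trans ?_
    have e2 : (2 : ℝ≥0∞) = ENNReal.ofReal 2 := by norm_num
    have e6 : (10 : ℝ≥0∞) ^ 6 = ENNReal.ofReal (10 ^ 6) := by
      rw [ENNReal.ofReal_pow (by norm_num)]; norm_num
    rw [e2, e6, ← ENNReal.ofReal_mul (by norm_num), ← ENNReal.ofReal_add (by norm_num) (by norm_num),
      ← ENNReal.ofReal_add (by norm_num) (by norm_num)]
    exact ENNReal.ofReal_le_ofReal (by norm_num)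
  exact (ENNReal.ofReal_le_ofReal_iff (by positivity)).1 h1

/-- **LimbSum**: the sum over all roots with denominators at least `3` -/
theorem limbsum (hH : C_half) (hO : ∃ C : ℝ, 0 ≤ C ∧ C_one C) : ∃ C' : ℝ, C_limbsum C' := by
  classical
  obtain ⟨C, hC0, hC⟩ := hO
  obtain ⟨K, hK⟩ := small_card_ex 30
  refine ⟨C * 10 ^ 11 + K * diam MM ^ 2, fun ι F W x h h' => ?_⟩
  rw [← Finset.sum_filter_add_sum_filter_not F (fun i => 10 ≤ lam (ln (W i) (x i)))]
  refine add_le_add ?_ ?_
  · refine sum_big c_energy hH hC0 hC (F := F.filter fun i => 10 ≤ lam (ln (W i) (x i)))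
      ⟨fun i hi => h i (Finset.mem_filter.1 hi).1, fun i hi j hj hij =>
        h' i (Finset.mem_filter.1 hi).1 j (Finset.mem_filter.1 hj).1 hij⟩
      fun i hi => (Finset.mem_filter.1 hi).2
  · have hcard : (F.filter fun i => ¬ 10 ≤ lam (ln (W i) (x i))).card ≤ K := by
      refine hK ι _ W x ?_ fun i hi j hj hij =>
        h' i (Finset.mem_filter.1 hi).1 j (Finset.mem_filter.1 hj).1 hij
      intro i hi
      obtain ⟨hi1, hi2⟩ := Finset.mem_filter.1 hi
      obtain ⟨hW, h0, h1, h3⟩ := h i hi1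
      refine ⟨hW, h0, h1, h3, ?_⟩
      push Not at hi2
      have h4 := lam_pow (len_pos hW h0 h1) (len_upper hW h0 h1)
      have h5 : (((W i).m * ((x i).den - 2) : ℕ) : ℝ) < ((10 : ℕ) : ℝ) := by
        simp only [ln] at hi2
        push_cast at h4 ⊢
        linarith
      have h6 : (W i).m * ((x i).den - 2) < 10 := by exact_mod_cast h5
      have h7 : (W i).m * (x i).den ≤ 3 * ((W i).m * ((x i).den - 2)) := by
        rw [← mul_assoc, mul_comm 3, mul_assoc]
        exact Nat.mul_le_mul_left _ (by omega)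
      omega
    calc ∑ i ∈ F.filter (fun i => ¬ 10 ≤ lam (ln (W i) (x i))),
          diam (Lm ((W i).dat (x i))) ^ 2 / ((W i).m * (x i).den) ≤
        ∑ i ∈ F.filter (fun i => ¬ 10 ≤ lam (ln (W i) (x i))), diam MM ^ 2 := by
          refine Finset.sum_le_sum fun i hi => ?_
          obtain ⟨hW, h0, h1, h3⟩ := h i (Finset.mem_filter.1 hi).1
          have hm1 : (1 : ℝ) ≤ (W i).m := by exact_mod_cast hW.wide.pos
          have hq3 : (3 : ℝ) ≤ (x i).den := by exact_mod_cast h3
          refine (div_le_self (by positivity) (by nlinarith)).trans ?_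
          exact pow_le_pow_left₀ diam_nonneg (diam_mono (fun c hc => hc.1) isCompact_MM.isBounded) 2
      _ = (F.filter fun i => ¬ 10 ≤ lam (ln (W i) (x i))).card * diam MM ^ 2 := by
          rw [Finset.sum_const, nsmul_eq_mul]
      _ ≤ K * diam MM ^ 2 := by
          refine mul_le_mul_of_nonneg_right ?_ (by positivity)
          exact_mod_cast hcard

end Pool.Agent.Work.MLC.Cap
end

section
set_option autoImplicit false

/-! # Theorem Cap, stage A: the set of angles is not a null set (helper57; proof by helper6)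

The angles which are in infinitely many open wakes with denominators at least `3` are not a null set
for the gauge `1 / log (1 / t)`. -/

namespace Pool.Agent.Work.MLC.Cap

open Filter Topology Metric Set Complex
open Pool.Agent.Work.MLC.Sat Pool.Agent.Work.MLC.Cnt

namespace V57

variable {j i k : ℕ}

/-! ### the main estimate -/

/-! ### the total mass -/

end V57

end Pool.Agent.Work.MLC.Cap
end

section
set_option autoImplicit false

/-! # Theorem F: the gaps of a level and the addresses of the pieces (helper26) -/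

namespace Pool.Agent.Work.MLC.Cnt

open Filter Topology Metric Set Complex MeasureTheory
open Pool.Agent.Work.MLC.Sat

variable {ι : Type} [Fintype ι] {D : ι → Dat}

open Classical in
/-- the address of the piece behind `i`, and of the outer piece -/
noncomputable def adO (D : ι → Dat) : Option ι → Finset ι
  | none => ∅
  | some i => Finset.univ.filter fun j => j = i ∨ rt (D i) ∈ Lm (D j)

variable {N : ℕ}

end Pool.Agent.Work.MLC.Cnt
end

section
set_option autoImplicit false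

/-! # Theorem F, part (A): assembly (helper26) -/

namespace Pool.Agent.Work.MLC.Cnt

open Filter Topology Metric Set Complex MeasureTheory
open Pool.Agent.Work.MLC.Sat

/-- the topological facts about the pieces -/
structure TopFam {ι : Type} [Fintype ι] (D : ι → Dat) : Prop where
  union : (⋃ o, Pc Finset.univ D (adO D o)) = MM
  inter : ∀ o o', o ≠ o' →
    (Pc Finset.univ D (adO D o) ∩ Pc Finset.univ D (adO D o')).Subsingleton
  inj : Function.Injective fun o => Pc Finset.univ D (adO D o)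
  int : ∀ o, (interior (Pc Finset.univ D (adO D o))).Nonempty

end Pool.Agent.Work.MLC.Cnt
end

section
set_option autoImplicit false

/-! # Theorem F (A'): the canonical pieces (helper26) -/

namespace Pool.Agent.Work.MLC.Cnt

open Filter Topology Metric Set Complex MeasureTheory
open Pool.Agent.Work.MLC.Sat

lemma axis_pq {p q : ℕ} {x : ℚ} (hx : x = (p : ℚ) / q) :
    (axisPt x : ℂ) = 2 * Real.pi * (p / q) * Complex.I := by
  rw [axisPt, hx]; push_cast; ring

end Pool.Agent.Work.MLC.Cnt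
end

section
set_option autoImplicit false

/-! # Theorem CAP: a subfamily of the pieces with the same angles and overlap at most three
(helper31) -/

namespace Pool.Agent.Work.MLC.Shp

open Filter Topology Metric Set Complex MeasureTheory
open Pool.Agent.Work.MLC.Sat Pool.Agent.Work.MLC.Cnt
open scoped ENNReal

theorem chain_max {ι X : Type} (U : ι → Set X) (T : Finset ι) (hT : T.Nonempty)
    (h : ∀ i ∈ T, ∀ j ∈ T, U i ⊆ U j ∨ U j ⊆ U i) : ∃ a ∈ T, ∀ j ∈ T, U j ⊆ U a := by
  classical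
  induction hT using Finset.Nonempty.cons_induction with
  | singleton a => exact ⟨a, by simp, by simp⟩
  | cons a s ha hs ih =>
    obtain ⟨b, hb, hb'⟩ := ih fun i hi j hj => h i (Finset.mem_cons_of_mem hi) j
      (Finset.mem_cons_of_mem hj)
    rcases h a (Finset.mem_cons_self a s) b (Finset.mem_cons_of_mem hb) with hab | hab
    · refine ⟨b, Finset.mem_cons_of_mem hb, fun j hj => ?_⟩
      rcases Finset.mem_cons.mp hj with rfl | hj
      · exact hab
      · exact hb' j hj
    · refine ⟨a, Finset.mem_cons_self a s, fun j hj => ?_⟩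
      rcases Finset.mem_cons.mp hj with rfl | hj
      · exact subset_rfl
      · exact (hb' j hj).trans hab

theorem chain_min {ι X : Type} (U : ι → Set X) (T : Finset ι) (hT : T.Nonempty)
    (h : ∀ i ∈ T, ∀ j ∈ T, U i ⊆ U j ∨ U j ⊆ U i) : ∃ a ∈ T, ∀ j ∈ T, U a ⊆ U j := by
  obtain ⟨a, ha, h2⟩ := chain_max (fun i => (U i)ᶜ) T hT fun i hi j hj => by
    rcases h i hi j hj with h1 | h1
    · exact Or.inr (Set.compl_subset_compl.mpr h1)
    · exact Or.inl (Set.compl_subset_compl.mpr h1)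
  exact ⟨a, ha, fun j hj => Set.compl_subset_compl.mp (h2 j hj)⟩

/-- three of the pieces through one point cover all of them -/
theorem sub_three {ι X : Type} (T : Finset ι) (U V : ι → Set X)
    (h1 : ∀ i ∈ T, ∀ j ∈ T, U i ⊆ U j ∨ U j ⊆ U i ∨ Disjoint (U i) (U j))
    (h2 : ∀ i ∈ T, ∀ j ∈ T, U i ⊆ V j ∨ V j ⊆ U i ∨ Disjoint (U i) (V j))
    (h3 : ∀ i ∈ T, ∀ j ∈ T, V i ⊆ V j ∨ V j ⊆ V i ∨ Disjoint (V i) (V j))
    (x : X) (hx : ∀ i ∈ T, x ∈ U i ∧ x ∉ V i) :
    ∃ T0 ⊆ T, T0.card ≤ 3 ∧ ∀ j ∈ T, ∀ y, y ∈ U j → y ∉ V j → ∃ i ∈ T0, y ∈ U i ∧ y ∉ V i := by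
  classical
  rcases T.eq_empty_or_nonempty with rfl | hT
  · exact ⟨∅, by simp, by simp, by simp⟩
  obtain ⟨a, ha, hmax⟩ := chain_max U T hT fun i hi j hj => by
    rcases h1 i hi j hj with h | h | h
    · exact Or.inl h
    · exact Or.inr h
    · exact (Set.disjoint_left.mp h (hx i hi).1 (hx j hj).1).elim
  set J := T.filter fun j => ∃ y, y ∈ U j ∧ y ∉ V j ∧ y ∈ V a with hJ
  have hJT : ∀ j ∈ J, j ∈ T := fun j hj => (Finset.mem_filter.mp hj).1
  have hVU : ∀ j ∈ J, V a ⊆ U j := by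
    intro j hj
    obtain ⟨hjT, y, hy1, hy2, hy3⟩ := Finset.mem_filter.mp hj
    rcases h2 j hjT a ha with h | h | h
    · exact ((hx a ha).2 (h (hx j hjT).1)).elim
    · exact h
    · exact (Set.disjoint_left.mp h hy1 hy3).elim
  rcases J.eq_empty_or_nonempty with hJe | hJne
  · refine ⟨{a}, by simpa using ha, by simp, fun j hj y hy1 hy2 => ⟨a, by simp, hmax j hj hy1, ?_⟩⟩
    intro hy3
    have : j ∈ J := Finset.mem_filter.mpr ⟨hj, y, hy1, hy2, hy3⟩
    rw [hJe] at this
    exact absurd this (Finset.notMem_empty j)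
  · by_cases hc : ∃ b ∈ J, ∃ c ∈ J, Disjoint (V b) (V c)
    · obtain ⟨b, hb, c, hc, hbc⟩ := hc
      refine ⟨{a, b, c}, ?_, Finset.card_le_three, fun j hj y hy1 hy2 => ?_⟩
      · intro i hi
        simp only [Finset.mem_insert, Finset.mem_singleton] at hi
        rcases hi with rfl | rfl | rfl
        · exact ha
        · exact hJT _ hb
        · exact hJT _ hc
      · by_cases hya : y ∈ V a
        · by_cases hyb : y ∈ V b
          · exact ⟨c, by simp, hVU c hc hya, Set.disjoint_left.mp hbc hyb⟩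
          · exact ⟨b, by simp, hVU b hb hya, hyb⟩
        · exact ⟨a, by simp, hmax j hj hy1, hya⟩
    · push Not at hc
      obtain ⟨b, hb, hmin⟩ := chain_min V J hJne fun i hi j hj => by
        rcases h3 i (hJT i hi) j (hJT j hj) with h | h | h
        · exact Or.inl h
        · exact Or.inr h
        · exact (hc i hi j hj h).elim
      refine ⟨{a, b}, ?_, Finset.card_le_two.trans (by norm_num), fun j hj y hy1 hy2 => ?_⟩
      · intro i hi
        simp only [Finset.mem_insert, Finset.mem_singleton] at hi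
        rcases hi with rfl | rfl
        · exact ha
        · exact hJT _ hb
      · by_cases hya : y ∈ V a
        · have hjJ : j ∈ J := Finset.mem_filter.mpr ⟨hj, y, hy1, hy2, hya⟩
          exact ⟨b, by simp, hVU b hb hya, fun h => hy2 (hmin j hjJ h)⟩
        · exact ⟨a, by simp, hmax j hj hy1, hya⟩

/-- a subfamily with the same union and overlap at most three -/
theorem sub_abs {ι X : Type} (F : Finset ι) (U V : ι → Set X)
    (h1 : ∀ i ∈ F, ∀ j ∈ F, U i ⊆ U j ∨ U j ⊆ U i ∨ Disjoint (U i) (U j))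
    (h2 : ∀ i ∈ F, ∀ j ∈ F, U i ⊆ V j ∨ V j ⊆ U i ∨ Disjoint (U i) (V j))
    (h3 : ∀ i ∈ F, ∀ j ∈ F, V i ⊆ V j ∨ V j ⊆ V i ∨ Disjoint (V i) (V j)) :
    ∃ F' ⊆ F, (∀ x, ∀ i ∈ F, x ∈ U i → x ∉ V i → ∃ j ∈ F', x ∈ U j ∧ x ∉ V j) ∧
      ∀ x, ∀ T ⊆ F', (∀ i ∈ T, x ∈ U i ∧ x ∉ V i) → T.card ≤ 3 := by
  classical
  set Q := F.powerset.filter fun G =>
    ∀ x, ∀ i ∈ F, x ∈ U i → x ∉ V i → ∃ j ∈ G, x ∈ U j ∧ x ∉ V j with hQ
  have hQne : Q.Nonempty := ⟨F, Finset.mem_filter.mpr ⟨Finset.mem_powerset_self F,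
    fun x i hi h h' => ⟨i, hi, h, h'⟩⟩⟩
  obtain ⟨G, hG, hmin⟩ := Finset.exists_min_image Q Finset.card hQne
  obtain ⟨hGF, hcov⟩ := Finset.mem_filter.mp hG
  rw [Finset.mem_powerset] at hGF
  refine ⟨G, hGF, hcov, fun x T hT hx => ?_⟩
  by_contra hcard
  push Not at hcard
  have hTF : ∀ i ∈ T, i ∈ F := fun i hi => hGF (hT hi)
  obtain ⟨T0, hT0, hT0c, hT0cov⟩ := sub_three T U V
    (fun i hi j hj => h1 i (hTF i hi) j (hTF j hj))
    (fun i hi j hj => h2 i (hTF i hi) j (hTF j hj))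
    (fun i hi j hj => h3 i (hTF i hi) j (hTF j hj)) x hx
  obtain ⟨c, hcT, hcT0⟩ : ∃ c ∈ T, c ∉ T0 := by
    by_contra hcon
    push Not at hcon
    exact absurd ((Finset.card_le_card hcon).trans hT0c) (not_le.mpr hcard)
  have hcG : c ∈ G := hT hcT
  have hmem : G.erase c ∈ Q := by
    refine Finset.mem_filter.mpr ⟨Finset.mem_powerset.mpr ((Finset.erase_subset c G).trans hGF),
      fun y i hi hy1 hy2 => ?_⟩
    obtain ⟨j, hj, hj1, hj2⟩ := hcov y i hi hy1 hy2
    by_cases hjc : j = c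
    · subst hjc
      obtain ⟨k, hk, hk1, hk2⟩ := hT0cov j hcT y hj1 hj2
      exact ⟨k, Finset.mem_erase.mpr ⟨fun h => hcT0 (h ▸ hk), hT (hT0 hk)⟩, hk1, hk2⟩
    · exact ⟨j, Finset.mem_erase.mpr ⟨hjc, hj⟩, hj1, hj2⟩
  have := hmin _ hmem
  rw [Finset.card_erase_of_mem hcG] at this
  have hpos : 0 < G.card := Finset.card_pos.mpr ⟨c, hcG⟩
  omega

/-- the arcs of two roots are nested or disjoint -/
theorem inA_lam {D D' : Dat} (hP : D.Par) (hC : D.Cir) (hP' : D'.Par) (hC' : D'.Cir) :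
    (∀ θ, InA D θ → InA D' θ) ∨ (∀ θ, InA D' θ → InA D θ) ∨ ∀ θ, InA D θ → ¬ InA D' θ := by
  by_cases he : rt D = rt D'
  · obtain ⟨k, h1, h2⟩ := plateau_unique n2_ray hP hC hP' hC' he
    refine Or.inl fun θ => ?_
    rintro ⟨j, g1, g2⟩
    refine ⟨j - k, ?_, ?_⟩ <;> push_cast <;> linarith
  · by_cases hd : ∀ θ, InA D θ → ¬ InA D' θ
    · exact Or.inr (Or.inr hd)
    · push Not at hd
      obtain ⟨θ, ⟨k1, a1, a2⟩, ⟨k2, b1, b2⟩⟩ := hd
      rcases laminar60 hP hC hP' hC' he (k1 - k2) with h | h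
      · refine Or.inr (Or.inl fun φ => ?_)
        rintro ⟨j, g1, g2⟩
        refine ⟨j + (k1 - k2), ?_, ?_⟩ <;> push_cast at h ⊢ <;> linarith
      · refine Or.inl fun φ => ?_
        rintro ⟨j, g1, g2⟩
        push_cast at h
        have e1 : D'.tm + (k1 - k2) < D.tm := by
          rcases h.1 with h | h
          · exact h
          · linarith
        have e2 : D.tp < D'.tp + (k1 - k2) := by
          rcases h.2 with h | h
          · linarith
          · exact h
        refine ⟨j - (k1 - k2), ?_, ?_⟩ <;> push_cast <;> linarith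

end Pool.Agent.Work.MLC.Shp
end

section
set_option autoImplicit false

/-! # Theorem CAP, modules T_irr and T_pieces (helper60) -/

namespace Pool.Agent.Work.MLC.Shp

open Filter Topology Metric Set
open Pool.Agent.Work.MLC.Circ Pool.Agent.Work.MLC.Cnt CircleDeg1Lift

namespace P60

/-- if the orbit of `θ` leaves the half open half circles, then it comes back to `θ` -/
lemma back {w : ℕ → ℤ} {θ : ℝ} (h : ¬ HO w θ θ) : ∃ l > 0, ∃ c : ℤ, gw w θ l θ = θ + c := by
  classical
  unfold HO at h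
  push Not at h
  have h1 := Nat.find_spec h
  have h2 : ∀ i < Nat.find h, ∃ k : ℤ, (θ + w i) / 2 + k ≤ 2 ^ i * θ ∧
      2 ^ i * θ < (θ + w i) / 2 + k + 1 / 2 := by
    intro i hi
    have := Nat.find_min h hi
    push Not at this
    exact this
  generalize Nat.find h = j at h1 h2
  obtain ⟨m, hm⟩ := gw_lin w θ θ j fun i hi => by
    obtain ⟨k, h3, h4⟩ := h2 i hi
    exact ⟨k, h3, h4.le⟩
  have e1 := Int.floor_le ((2 : ℝ) ^ j * θ - (θ + w j) / 2)
  have e2 := Int.lt_floor_add_one ((2 : ℝ) ^ j * θ - (θ + w j) / 2)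
  set k := ⌊(2 : ℝ) ^ j * θ - (θ + w j) / 2⌋
  have e3 := h1 k (by linarith)
  refine ⟨j + 1, by omega, w j + (k - m) + 1, ?_⟩
  rw [gw_succ_apply, hm, tdbl_flat (k - m) (by push_cast; linarith) (by push_cast; linarith)]
  push_cast; ring

/-- **an irrational rotation number**: the orbit of `θ` has the itinerary of the word -/
lemma exists_ho {w : ℕ → ℤ} {n : ℕ} (hn : 0 < n) (hw : ∀ i, w (i + n) = w i) {θ : ℝ}
    (hirr : Irrational (nu w n θ)) : ∃ i, HO (fun j => w (i + j)) θ θ := by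
  by_contra hcon
  push Not at hcon
  choose l hl c hc using fun i => back (hcon i)
  let f : ℕ → ℕ := fun r => Nat.rec 0 (fun _ x => x + l x) r
  have hf : ∀ r, f (r + 1) = f r + l (f r) := fun r => rfl
  have hmono : StrictMono f := strictMono_nat_of_lt_succ fun r => by
    rw [hf]; have := hl (f r); omega
  have hret : ∀ r d, ∃ c : ℤ, gw (fun i => w (f r + i)) θ (f (r + d) - f r) θ = θ + c := by
    intro r d
    induction d with
    | zero => exact ⟨0, by simp⟩
    | succ d ih =>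
      obtain ⟨c1, h1⟩ := ih
      have h2 := hc (f (r + d))
      have h3 : f r ≤ f (r + d) := hmono.monotone (by omega)
      have h4 : f (r + (d + 1)) - f r = (f (r + d) - f r) + l (f (r + d)) := by
        rw [show r + (d + 1) = (r + d) + 1 by ring, hf]; omega
      have h5 : (fun i => w (f r + ((f (r + d) - f r) + i))) = fun i => w (f (r + d) + i) := by
        funext i; congr 1; omega
      refine ⟨c1 + c (f (r + d)), ?_⟩
      rw [h4, gw_add, CircleDeg1Lift.mul_apply, h1, CircleDeg1Lift.map_add_int, h5, h2]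
      push_cast; ring
  obtain ⟨r, s, hrs, hmod⟩ := Finite.exists_ne_map_eq_of_infinite
    (fun r => (⟨f r % n, Nat.mod_lt _ hn⟩ : Fin n))
  wlog hlt : r < s generalizing r s
  · exact this s r hrs.symm hmod.symm (by omega)
  have hmod' : f r % n = f s % n := congrArg Fin.val hmod
  have hfl : f r < f s := hmono hlt
  obtain ⟨q, hq⟩ : n ∣ f s - f r := (Nat.modEq_iff_dvd' hfl.le).1 hmod'
  have hq0 : 0 < q := by
    rcases Nat.eq_zero_or_pos q with h0 | h0
    · rw [h0, mul_zero] at hq; omega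
    · exact h0
  obtain ⟨e, he⟩ := hret r (s - r)
  rw [show r + (s - r) = s by omega, hq, gw_mul _ _ _ _ (fun i => by
    show w (f r + (i + n)) = w (f r + i)
    rw [← add_assoc, hw])] at he
  have h6 : nu (fun i => w (f r + i)) n θ = e / q := translationNumber_of_map_pow_eq_add_int _ he hq0
  rw [nu_shift_word w n hw] at h6
  refine hirr ⟨(e : ℚ) / q, ?_⟩
  rw [h6]; push_cast; rfl

/-- words of different lengths do not have the same orbit -/
lemma word_len {n n' : ℕ} {w w' : ℕ → ℤ} {θ : ℝ} (hn : 0 < n) (hn' : 0 < n') (hw : Word n w)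
    (hw' : Word n' w') (h : HO w θ θ) (h' : HO w' θ θ) : n = n' := by
  have he := HO.word_eq hw.1 hw'.1 h h'
  subst he
  rcases lt_trichotomy n n' with h1 | h1 | h1
  · obtain ⟨i, hi⟩ := hw'.2.2 n hn h1
    exact absurd (hw.2.1 i) hi
  · exact h1
  · obtain ⟨i, hi⟩ := hw.2.2 n' hn' h1
    exact absurd (hw'.2.1 i) hi

end P60

namespace P60

/-! ### the copy is next to the ends -/

/-! ### rational ends -/

/-- the component of a wake -/
lemma exists_ws {m : ℕ} {w : ℕ → ℤ} (hm : 0 < m) (hw : Word m w) (k : ℤ) :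
    ∃ W : WS, W.Ok ∧ W.m = m ∧ W.w = w ∧ W.k = k := by
  obtain ⟨σ, h1, h2⟩ := Pri.exists_wide_word hm hw k
  exact ⟨⟨m, w, k, σ⟩, ⟨h1, h2⟩, rfl, rfl, rfl⟩

/-! ### the ends of the plateaus `1 / 2` -/

end P60

end Pool.Agent.Work.MLC.Shp
end

section
set_option autoImplicit false

/-! # From the characteristic pair to the data of `Circ.cut` (helper54) -/

namespace Pool.Agent.Work.MLC

open Set Circ CircleDeg1Lift Filter Topology

namespace CP

variable {n : ℕ} {v : ℕ → ℤ} {s t : ℝ}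

/-- the orbit does not depend on the parameter in `[s, t]` -/
theorem lin {x : ℝ}
    (hpos : ∀ j, ∃ k : ℤ, (t + v j) / 2 + k ≤ 2 ^ j * x ∧ 2 ^ j * x ≤ (s + v j) / 2 + k + 1 / 2)
    (i : ℕ) : ∃ m : ℤ, ∀ θ, s ≤ θ → θ ≤ t → gw v θ i x = 2 ^ i * x + m := by
  induction i with
  | zero => exact ⟨0, fun θ _ _ => by simp⟩
  | succ i ih =>
    obtain ⟨m, hm⟩ := ih
    obtain ⟨k, h1, h2⟩ := hpos i
    refine ⟨m - k, fun θ h3 h4 => ?_⟩
    rw [gw_succ_apply, hm θ h3 h4, tdbl_lin (k + m) (by push_cast; linarith)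
      (by push_cast; linarith), pow_succ]
    push_cast; ring

theorem closed {x : ℝ}
    (hpos : ∀ j, ∃ k : ℤ, (t + v j) / 2 + k ≤ 2 ^ j * x ∧ 2 ^ j * x ≤ (s + v j) / 2 + k + 1 / 2)
    {θ : ℝ} (h1 : s ≤ θ) (h2 : θ ≤ t) (i : ℕ) : Circ.InHalf (θ + v i) (gw v θ i x) := by
  obtain ⟨m, hm⟩ := lin hpos i
  obtain ⟨k, h3, h4⟩ := hpos i
  rw [hm θ h1 h2]
  refine ⟨k + m, ?_, ?_⟩ <;> push_cast <;> linarith

end CP

end Pool.Agent.Work.MLC
end

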