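import Pool.Agent.Work.MLCM.C54
import Pool.Agent.Work.MLCM.C61
import Pool.Agent.Work.MLCM.C63
import Pool.Agent.Work.MLCM.C65
import Pool.Agent.Work.MLCM.C69
import Pool.Agent.Work.MLCM.C70
import Pool.Agent.Work.MLCM.C71
import Pool.Agent.Work.MLCM.C72
import Pool.Agent.Work.MLCM.C73
import Pool.Agent.Work.MLCM.C75
import Pool.Agent.Work.MLCM.C76
import Pool.Agent.Work.MLCM.C77
import Pool.Agent.Work.MLCM.C78
import Pool.Agent.Work.MLCM.C81

section
set_option autoImplicit false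

/-! # Theorem Cap, module HA: the parts of the components have bounded overlap (helper78) -/

namespace Pool.Agent.Work.MLC.Cap

open Filter Topology Metric Set Complex MeasureTheory
open Pool.Agent.Work.MLC.Sat Pool.Agent.Work.MLC.Cnt
open scoped ENNReal

lemma exp_inj78 {L L' : ℂ} (h0 : 0 < L.im) (h1 : L.im < 2 * Real.pi) (h0' : 0 < L'.im)
    (h1' : L'.im < 2 * Real.pi) (h : Complex.exp L = Complex.exp L') : L = L' := by
  rw [Complex.exp_eq_exp_iff_exists_int] at h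
  obtain ⟨n, hn⟩ := h
  have h6 := congrArg Complex.im hn
  simp only [add_im, mul_im, mul_re, intCast_re, intCast_im, re_ofNat, im_ofNat, ofReal_re,
    ofReal_im, I_re, I_im, mul_zero, zero_mul, sub_zero, mul_one, add_zero] at h6
  have hpi := Real.pi_gt_three
  have hn0 : n = 0 := by
    have h7 : (n : ℝ) < 1 := by
      by_contra h7
      push Not at h7
      nlinarith
    have h8 : (-1 : ℝ) < n := by
      by_contra h8
      push Not at h8
      nlinarith
    have h9 : n < 1 := by exact_mod_cast h7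
    have h10 : -1 < n := by exact_mod_cast h8
    omega
  rw [hn, hn0]; simp

/-- an attracting parameter belongs to one component only, at one point -/
theorem same78 {W W' : WS} (hW : W.Ok) (hW' : W'.Ok) {L L' : ℂ} (h0 : 0 < L.im)
    (h1 : L.im < 2 * Real.pi) (h2 : L.re < 0) (h0' : 0 < L'.im) (h1' : L'.im < 2 * Real.pi)
    (h2' : L'.re < 0) (h : W.c L = W'.c L') : WS.Same W W' ∧ L = L' := by
  have hD : L ∈ Pri.D0 W.m := ⟨h0, h1, h2.trans_le (by unfold Pri.hgt; positivity)⟩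
  have hD' : L' ∈ Pri.D0 W'.m := ⟨h0', h1', h2'.trans_le (by unfold Pri.hgt; positivity)⟩
  obtain ⟨a1, a2⟩ := hW.wide.sec L hD
  obtain ⟨b1, b2⟩ := hW'.wide.sec L' hD'
  have ea := hW.ex L hD
  have eb := hW'.ex L' hD'
  have h3 : (W.σ L).1 = (W'.σ L').1 := h
  have h4 : ∀ M : ℂ, M.re < 0 → ‖Complex.exp M‖ < 1 := by
    intro M hM
    rw [Complex.norm_exp]
    exact Real.exp_lt_one_iff.2 hM
  have hb1 : it (W.σ L).1 W'.m (W'.σ L').2 = (W'.σ L').2 := by rw [h3]; exact b1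
  have hb2 : ‖mul W'.m ((W.σ L).1, (W'.σ L').2)‖ < 1 := by
    rw [h3, Prod.mk.eta, b2]; exact h4 L' h2'
  have ha1 : it (W.σ L).1 W.m (W.σ L).2 = (W.σ L).2 := a1
  have ha2 : ‖mul W.m ((W.σ L).1, (W.σ L).2)‖ < 1 := by
    rw [Prod.mk.eta, a2]; exact h4 L h2
  obtain ⟨i, hi⟩ := s7_fatou (W.σ L).1 (W.σ L).2 (W'.σ L').2 W.m W'.m hW.wide.pos hW'.wide.pos ha1
    ha2 hb1 hb2
  obtain ⟨j, hj⟩ := s7_fatou (W.σ L).1 (W'.σ L').2 (W.σ L).2 W'.m W.m hW'.wide.pos hW.wide.pos hb1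
    hb2 ha1 ha2
  -- equal periods
  have hm : W.m = W'.m := by
    apply le_antisymm
    · by_contra hcon
      push Not at hcon
      refine ea W'.m hW'.wide.pos hcon ?_
      show it (W.σ L).1 W'.m (W.σ L).2 = (W.σ L).2
      have e := Sat.Per_it (c := (W.σ L).1) (z := (W'.σ L').2) (n := W'.m) hb1 j
      rw [← hj] at e
      exact e
    · by_contra hcon
      push Not at hcon
      refine eb W.m hW.wide.pos hcon ?_
      show it (W'.σ L').1 W.m (W'.σ L').2 = (W'.σ L').2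
      rw [← h3]
      have e := Sat.Per_it (c := (W.σ L).1) (z := (W.σ L).2) (n := W.m) ha1 i
      rw [← hi] at e
      exact e
  have h5 : mul W'.m (W'.σ L') = mul W.m (W.σ L) := by
    have e : W'.σ L' = ((W.σ L).1, it (W.σ L).1 i (W.σ L).2) := by
      rw [← hi, h3]
    rw [e, ← hm]
    exact mul_it' (c := (W.σ L).1) (z := (W.σ L).2) a1 i
  rw [a2, b2] at h5
  have hLL : L = L' := (exp_inj78 h0' h1' h0 h1 h5).symm
  refine ⟨⟨hm, ?_⟩, hLL⟩
  subst hLL
  have hsh := hW.wide.shift i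
  have hall := section_unique (Pri.goodDom_D0 hW.wide.pos) hsh.cont hsh.sec
    (Pri.isPreconnected_D0 W.m) (g := W'.σ) (l := id) (by rw [hm]; exact hW'.wide.cont)
    continuousOn_id (fun M hM => by
      have hM' : M ∈ Pri.D0 W'.m := by rw [← hm]; exact hM
      have := hW'.wide.sec M hM'
      rw [← hm] at this
      exact ⟨this.1, hM, this.2⟩) hD
    (by
      show W'.σ L = ((W.σ L).1, it (W.σ L).1 i (W.σ L).2)
      rw [← hi, h3])
  intro M hM
  have := hall M hM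
  show (W.σ M).1 = (W'.σ M).1
  rw [this]
  rfl

lemma isOpen_HR78 (m : ℕ) (x : ℚ) : IsOpen (HR m x) := by
  have h1 : IsOpen {L : ℂ | -1 / (200 * m * (x.den : ℝ) ^ 2) < L.re} :=
    isOpen_lt continuous_const continuous_re
  have h2 : IsOpen {L : ℂ | L.re < 0} := isOpen_lt continuous_re continuous_const
  have h3 : IsOpen {L : ℂ | |L.im / (2 * Real.pi) - x| < 1 / (x.den : ℝ) ^ 2} :=
    isOpen_lt (by fun_prop) continuous_const
  exact h1.inter (h2.inter h3)

lemma HR_D0_78 {W : WS} {x : ℚ} (hx0 : 0 < x) (hx1 : x < 1) :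
    HR W.m x ⊆ Pri.D0 W.m := fun L hL => by
  obtain ⟨h0, h1, h2⟩ := HR_strip hx0 hx1 hL
  exact ⟨h0, h1, h2.trans_le (by unfold Pri.hgt; positivity)⟩

lemma meas_HH78 {W : WS} (hW : W.Ok) {x : ℚ} (hx0 : 0 < x) (hx1 : x < 1) :
    MeasurableSet (HH W x) := by
  have hc : ContinuousOn W.c (HR W.m x) :=
    (continuous_fst.comp_continuousOn hW.wide.cont).mono (HR_D0_78 hx0 hx1)
  refine (isOpen_HR78 W.m x).measurableSet.image_of_continuousOn_injOn hc ?_
  intro L hL L' hL' h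
  obtain ⟨s1, s2, s3⟩ := HR_strip hx0 hx1 hL
  obtain ⟨t1, t2, t3⟩ := HR_strip hx0 hx1 hL'
  exact c_inj26 hW s1 s2 s3 t1 t2 t3 h

lemma bdd_HH78 {W : WS} (hW : W.Ok) {x : ℚ} (hx0 : 0 < x) (hx1 : x < 1) :
    HH W x ⊆ ball 0 5 := by
  rintro _ ⟨L, hL, rfl⟩
  have hD := HR_D0_78 hx0 hx1 hL
  obtain ⟨a1, a2⟩ := hW.wide.sec L hD
  have h1 := (Per_bdd hW.wide.pos a1 (by rw [a2]; exact Pri.lt_D0 hW.wide.pos hD)).1
  rw [mem_ball, dist_zero_right]
  show ‖(W.σ L).1‖ < 5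
  linarith

/-! ## The sum over the rationals near a number -/

/-- rationals in one dyadic block -/
lemma card_block78 (l : ℝ) (k : ℕ) (X : Finset ℚ)
    (h : ∀ x ∈ X, 2 ^ k ≤ x.den ∧ x.den < 2 ^ (k + 1) ∧ |l - x| < 1 / (x.den : ℝ) ^ 2) :
    X.card ≤ 9 := by
  have h1 : X.card ≤ (Finset.Icc (-4 : ℤ) 4).card := by
    refine Finset.card_le_card_of_injOn (fun x : ℚ => ⌊((x : ℝ) - l) * 4 ^ (k + 1)⌋) ?_ ?_
    · intro x hx
      obtain ⟨h2, h3, h4⟩ := h x hx
      have hd : (2 : ℝ) ^ k ≤ x.den := by exact_mod_cast h2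
      have hk : (0 : ℝ) < 2 ^ k := by positivity
      have h5 : |l - x| < 1 / 4 ^ k := by
        refine h4.trans_le (one_div_le_one_div_of_le (by positivity) ?_)
        have e : (4 : ℝ) ^ k = (2 ^ k) ^ 2 := by rw [← pow_mul, mul_comm, pow_mul]; norm_num
        rw [e]
        exact pow_le_pow_left₀ hk.le hd 2
      rw [abs_sub_comm] at h5
      have h4k : (0 : ℝ) < 4 ^ k := by positivity
      have h6 : |((x : ℝ) - l) * 4 ^ (k + 1)| < 4 := by
        rw [abs_mul, abs_of_pos (show (0 : ℝ) < 4 ^ (k + 1) by positivity), pow_succ]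
        calc |(x : ℝ) - l| * (4 ^ k * 4) < 1 / 4 ^ k * (4 ^ k * 4) := by
              exact mul_lt_mul_of_pos_right h5 (by positivity)
          _ = 4 := by field_simp
      rw [abs_lt] at h6
      rw [Finset.mem_coe, Finset.mem_Icc]
      constructor
      · exact Int.le_floor.2 (by push_cast; linarith)
      · have : ⌊((x : ℝ) - l) * 4 ^ (k + 1)⌋ < 5 := Int.floor_lt.2 (by push_cast; linarith)
        exact Int.lt_add_one_iff.1 this
    · intro x hx y hy hxy
      by_contra hne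
      obtain ⟨h2, h3, h4⟩ := h x hx
      obtain ⟨h2', h3', h4'⟩ := h y hy
      have hxy' : ⌊((x : ℝ) - l) * 4 ^ (k + 1)⌋ = ⌊((y : ℝ) - l) * 4 ^ (k + 1)⌋ := hxy
      have h5 := Int.abs_sub_lt_one_of_floor_eq_floor hxy'
      have e1 : ((x : ℝ) - l) * 4 ^ (k + 1) - ((y : ℝ) - l) * 4 ^ (k + 1) =
          ((x : ℝ) - y) * 4 ^ (k + 1) := by ring
      rw [e1, abs_mul, abs_of_pos (show (0 : ℝ) < 4 ^ (k + 1) by positivity)] at h5
      -- distance of two rationals
      have hxd : (0 : ℝ) < x.den := by exact_mod_cast x.den_pos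
      have hyd : (0 : ℝ) < y.den := by exact_mod_cast y.den_pos
      have e2 : (x : ℝ) * x.den = x.num := by exact_mod_cast Rat.mul_den_eq_num x
      have e3 : (y : ℝ) * y.den = y.num := by exact_mod_cast Rat.mul_den_eq_num y
      have h6 : ((x : ℝ) - y) * (x.den * y.den) = ((x.num * y.den - y.num * x.den : ℤ) : ℝ) := by
        push_cast
        rw [← e2, ← e3]
        ring
      have h7 : (x.num * y.den - y.num * x.den : ℤ) ≠ 0 := by
        intro h8
        rw [h8, Int.cast_zero, mul_eq_zero] at h6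
        rcases h6 with h6 | h6
        · apply hne
          have : (x : ℝ) = y := by linarith
          exact_mod_cast this
        · have : (0 : ℝ) < x.den * y.den := by positivity
          linarith
      have h8 : (1 : ℝ) ≤ |((x.num * y.den - y.num * x.den : ℤ) : ℝ)| := by
        rw [← Int.cast_abs]
        exact_mod_cast Int.one_le_abs h7
      rw [← h6, abs_mul, abs_of_pos (show (0 : ℝ) < x.den * y.den by positivity)] at h8
      have h9 : (x.den : ℝ) * y.den ≤ 4 ^ (k + 1) := by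
        have a1 : (x.den : ℝ) ≤ 2 ^ (k + 1) := by exact_mod_cast h3.le
        have a2 : (y.den : ℝ) ≤ 2 ^ (k + 1) := by exact_mod_cast h3'.le
        calc (x.den : ℝ) * y.den ≤ 2 ^ (k + 1) * 2 ^ (k + 1) :=
              mul_le_mul a1 a2 hyd.le (by positivity)
          _ = 4 ^ (k + 1) := by rw [← mul_pow]; norm_num
      have h10 : |(x : ℝ) - y| * (x.den * y.den) ≤ |(x : ℝ) - y| * 4 ^ (k + 1) :=
        mul_le_mul_of_nonneg_left h9 (abs_nonneg _)
      linarith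
  simpa using h1

/-- the sum of `1 / q` over the rationals at distance less than `1 / q ^ 2` -/
lemma sum_near78 (l : ℝ) (X : Finset ℚ) (h : ∀ x ∈ X, |l - x| < 1 / (x.den : ℝ) ^ 2) :
    ∑ x ∈ X, (1 : ℝ) / x.den ≤ 18 := by
  obtain ⟨K, hK⟩ : ∃ K : ℕ, ∀ x ∈ X, Nat.log 2 x.den < K := by
    refine ⟨(X.sup fun x => Nat.log 2 x.den) + 1, fun x hx => ?_⟩
    exact Nat.lt_succ_of_le (Finset.le_sup (f := fun x : ℚ => Nat.log 2 x.den) hx)
  rw [← Finset.sum_fiberwise_of_maps_to (s := X) (t := Finset.range K)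
    (g := fun x : ℚ => Nat.log 2 x.den) (fun x hx => Finset.mem_range.2 (hK x hx))]
  have key : ∀ k ∈ Finset.range K, ∑ x ∈ X.filter (fun x : ℚ => Nat.log 2 x.den = k),
      (1 : ℝ) / x.den ≤ 9 * (1 / 2) ^ k := by
    intro k _
    have hc : (X.filter (fun x : ℚ => Nat.log 2 x.den = k)).card ≤ 9 := by
      refine card_block78 l k _ fun x hx => ?_
      rw [Finset.mem_filter] at hx
      refine ⟨?_, ?_, h x hx.1⟩
      · rw [← hx.2]; exact Nat.pow_log_le_self 2 x.den_pos.ne'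
      · rw [← hx.2]; exact Nat.lt_pow_succ_log_self (by norm_num) _
    calc ∑ x ∈ X.filter (fun x : ℚ => Nat.log 2 x.den = k), (1 : ℝ) / x.den
        ≤ ∑ x ∈ X.filter (fun x : ℚ => Nat.log 2 x.den = k), (1 / 2 : ℝ) ^ k := by
          refine Finset.sum_le_sum fun x hx => ?_
          rw [Finset.mem_filter] at hx
          have h2 : 2 ^ k ≤ x.den := by rw [← hx.2]; exact Nat.pow_log_le_self 2 x.den_pos.ne'
          have h3 : (2 : ℝ) ^ k ≤ x.den := by exact_mod_cast h2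
          rw [one_div_pow]
          exact one_div_le_one_div_of_le (by positivity) h3
      _ = (X.filter (fun x : ℚ => Nat.log 2 x.den = k)).card * (1 / 2 : ℝ) ^ k := by
          rw [Finset.sum_const, nsmul_eq_mul]
      _ ≤ 9 * (1 / 2) ^ k := by
          refine mul_le_mul_of_nonneg_right ?_ (by positivity)
          exact_mod_cast hc
  refine (Finset.sum_le_sum key).trans ?_
  rw [← Finset.mul_sum, geom_sum_eq (by norm_num)]
  have : (0 : ℝ) < (1 / 2) ^ K := by positivity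
  have e : ((1 / 2 : ℝ) ^ K - 1) / (1 / 2 - 1) = 2 * (1 - (1 / 2) ^ K) := by ring
  rw [e]
  linarith

/-- **HA** -/
theorem c_half : C_half := by
  classical
  intro ι F W x hF hG
  have hpt : ∀ c : ℂ, ∑ i ∈ F, (HH (W i) (x i)).indicator
      (fun _ => ENNReal.ofReal (1 / (x i).den)) c ≤
        (ball (0 : ℂ) 5).indicator (fun _ => (54 : ℝ≥0∞)) c := by
    intro c
    by_cases hne : ∃ i₀ ∈ F, c ∈ HH (W i₀) (x i₀)
    · obtain ⟨i₀, hi₀, hci₀⟩ := hne
      have hcb : c ∈ ball (0 : ℂ) 5 := bdd_HH78 (hF i₀ hi₀).1 (hF i₀ hi₀).2.1 (hF i₀ hi₀).2.2 hci₀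
      rw [indicator_of_mem hcb]
      obtain ⟨L, hL, hLc⟩ := hci₀
      obtain ⟨s1, s2, s3⟩ := HR_strip (hF i₀ hi₀).2.1 (hF i₀ hi₀).2.2 hL
      obtain ⟨Fc, hFc⟩ : ∃ Fc : Finset ι, Fc = F.filter (fun i => c ∈ HH (W i) (x i)) := ⟨_, rfl⟩
      have hmem : ∀ i ∈ Fc, i ∈ F ∧ WS.Same (W i₀) (W i) ∧
          |L.im / (2 * Real.pi) - x i| < 1 / ((x i).den : ℝ) ^ 2 := by
        intro i hi
        rw [hFc, Finset.mem_filter] at hi
        obtain ⟨hiF, L', hL', hLc'⟩ := hi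
        obtain ⟨t1, t2, t3⟩ := HR_strip (hF i hiF).2.1 (hF i hiF).2.2 hL'
        obtain ⟨r1, r2⟩ := same78 (hF i₀ hi₀).1 (hF i hiF).1 s1 s2 s3 t1 t2 t3
          (hLc.trans hLc'.symm)
        subst r2
        exact ⟨hiF, r1, hL'.2.2⟩
      have e1 : ∑ i ∈ F, (HH (W i) (x i)).indicator
          (fun _ => ENNReal.ofReal (1 / (x i).den)) c =
          ∑ i ∈ Fc, ENNReal.ofReal (1 / (x i).den) := by
        rw [hFc, Finset.sum_filter]
        exact Finset.sum_congr rfl fun i _ => by rw [indicator_apply]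
      rw [e1, ← ENNReal.ofReal_sum_of_nonneg (fun i _ => by positivity)]
      have h54 : (54 : ℝ≥0∞) = ENNReal.ofReal 54 := by simp
      rw [h54]
      refine ENNReal.ofReal_le_ofReal ?_
      have hX := sum_near78 (L.im / (2 * Real.pi)) (Fc.image x) (by
        intro y hy
        obtain ⟨i, hi, rfl⟩ := Finset.mem_image.1 hy
        exact (hmem i hi).2.2)
      rw [← Finset.sum_fiberwise_of_maps_to (s := Fc) (t := Fc.image x) (g := x)
        (fun i hi => Finset.mem_image_of_mem x hi)]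
      calc ∑ y ∈ Fc.image x, ∑ i ∈ Fc.filter (fun i => x i = y), (1 : ℝ) / (x i).den
          ≤ ∑ y ∈ Fc.image x, 3 * ((1 : ℝ) / y.den) := by
            refine Finset.sum_le_sum fun y hy => ?_
            obtain ⟨i₁, hi₁, hi₁y⟩ := Finset.mem_image.1 hy
            have hcard : (Fc.filter (fun i => x i = y)).card ≤ 3 := by
              refine hG i₁ (hmem i₁ hi₁).1 _ ?_ ?_
              · intro i hi
                exact (hmem i (Finset.mem_filter.1 hi).1).1
              · intro j hj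
                rw [Finset.mem_filter] at hj
                refine ⟨?_, by rw [hi₁y, hj.2]⟩
                have q1 := (hmem i₁ hi₁).2.1
                have q2 := (hmem j hj.1).2.1
                refine ⟨q1.1.symm.trans q2.1, fun M hM => ?_⟩
                have hM' : M ∈ Pri.D0 (W i₀).m := by rw [q1.1]; exact hM
                exact (q1.2 M hM').symm.trans (q2.2 M hM')
            calc ∑ i ∈ Fc.filter (fun i => x i = y), (1 : ℝ) / (x i).den
                = ∑ i ∈ Fc.filter (fun i => x i = y), (1 : ℝ) / y.den :=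
                  Finset.sum_congr rfl fun i hi => by rw [(Finset.mem_filter.1 hi).2]
              _ = (Fc.filter (fun i => x i = y)).card * ((1 : ℝ) / y.den) := by
                  rw [Finset.sum_const, nsmul_eq_mul]
              _ ≤ 3 * ((1 : ℝ) / y.den) := by
                  refine mul_le_mul_of_nonneg_right ?_ (by positivity)
                  exact_mod_cast hcard
        _ ≤ 54 := by
            rw [← Finset.mul_sum]
            linarith
    · push Not at hne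
      rw [Finset.sum_eq_zero]
      · exact bot_le
      · intro i hi
        exact indicator_of_notMem (hne i hi) _
  have hterm : ∀ i ∈ F, volume (HH (W i) (x i)) / (x i).den =
      ∫⁻ c, (HH (W i) (x i)).indicator (fun _ => ENNReal.ofReal (1 / (x i).den)) c := by
    intro i hi
    rw [lintegral_indicator_const (meas_HH78 (hF i hi).1 (hF i hi).2.1 (hF i hi).2.2),
      ENNReal.div_eq_inv_mul]
    congr 1
    have hd : (0 : ℝ) < (x i).den := by exact_mod_cast (x i).den_pos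
    rw [one_div, ENNReal.ofReal_inv_of_pos hd, ENNReal.ofReal_natCast]
  rw [Finset.sum_congr rfl hterm, ← lintegral_finsetSum']
  · calc ∫⁻ c, ∑ i ∈ F, (HH (W i) (x i)).indicator (fun _ => ENNReal.ofReal (1 / (x i).den)) c
        ≤ ∫⁻ c, (ball (0 : ℂ) 5).indicator (fun _ => (54 : ℝ≥0∞)) c := lintegral_mono hpt
      _ = 54 * volume (ball (0 : ℂ) 5) := lintegral_indicator_const measurableSet_ball _
      _ ≤ 10 ^ 6 := by
          rw [Complex.volume_ball]
          have h1 : (NNReal.pi : ℝ≥0∞) ≤ 4 := by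
            have : NNReal.pi ≤ 4 := by
              rw [← NNReal.coe_le_coe]
              exact Real.pi_le_four
            exact_mod_cast this
          calc 54 * (ENNReal.ofReal 5 ^ 2 * (NNReal.pi : ℝ≥0∞))
              ≤ 54 * (ENNReal.ofReal 5 ^ 2 * 4) := by gcongr
            _ ≤ 10 ^ 6 := by
                rw [ENNReal.ofReal_ofNat]
                norm_num
  · intro i hi
    exact (measurable_const.indicator
      (meas_HH78 (hF i hi).1 (hF i hi).2.1 (hF i hi).2.2)).aemeasurable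

end Pool.Agent.Work.MLC.Cap
end

section
set_option autoImplicit false

/-! # Theorem Cap, stage A: LimbSum, unconditional (helper50) -/

namespace Pool.Agent.Work.MLC.Cap

/-- **LimbSum**: there is `C` such that the sum over any finite set of different roots of type
`(m, p / q)`, `q ≥ 3`, of `diam (limb) ^ 2 / (m q)` is at most `C` -/
theorem limb_all : ∃ C : ℝ, C_limbsum C := limbsum c_half ⟨_, by norm_num, one_all⟩

end Pool.Agent.Work.MLC.Cap
end

section
set_option autoImplicit false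

/-! # Theorem Cap, stage A: the intrinsic statements (helper6) -/

namespace Pool.Agent.Work.MLC.Cap

open Filter Topology Metric Set Complex MeasureTheory
open Pool.Agent.Work.MLC.Sat Pool.Agent.Work.MLC.Cnt
open scoped ENNReal

/-- `z ^ 2 + r` has a point of exact period `n` whose multiplier is a primitive `q`-th root of `1` -/
def IsRoot (n q : ℕ) (r : ℂ) : Prop := ∃ (p : ℕ) (b : ℂ), 0 < n ∧ 0 < p ∧ p < q ∧
  Nat.Coprime p q ∧ Function.minimalPeriod (fun z : ℂ => z ^ 2 + r) b = n ∧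
  deriv ((fun z : ℂ => z ^ 2 + r)^[n]) b = Complex.exp (2 * Real.pi * (p / q) * Complex.I)

/-- the data of a root -/
theorem exists_RD {n q : ℕ} {r : ℂ} (hq : 3 ≤ q) (h : IsRoot n q r) :
    ∃ R : RD, rt R.D = r ∧ R.W.m = n ∧ R.x.den = q := by
  obtain ⟨p, b, h1, h3, h4, h5, h7, h8⟩ := h
  have hPer : PerN n r b := ⟨h1, h7⟩
  have hq0 : 0 < q := h3.trans h4
  have hpi := Real.pi_pos
  set x : ℚ := (p : ℚ) / q with hx
  have hxd : x.den = q := by
    have h9 := Rat.den_div_eq_of_coprime (a := (p : ℤ)) (b := (q : ℤ)) (by exact_mod_cast hq0)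
      (by simpa using h5)
    rw [Int.cast_natCast, Int.cast_natCast] at h9
    rw [hx]
    exact Int.natCast_inj.1 h9
  have hx0 : 0 < x := by rw [hx]; positivity
  have hx1 : x < 1 := by
    rw [hx, div_lt_one (by exact_mod_cast hq0)]
    exact_mod_cast h4
  have hx0' : (0 : ℝ) < x := by exact_mod_cast hx0
  have hx1' : (x : ℝ) < 1 := by exact_mod_cast hx1
  have hmul : mul n (r, b) = Complex.exp (axisPt x) := by
    rw [axis_pq hx, ← h8]
    exact (Pool.Agent.Work.MLC.hasDerivAt_it r n b).deriv.symm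
  have hL₀ : axisPt x ∈ Pri.D0 n :=
    Pri.axis_mem_D0 h1 (y := 2 * Real.pi * (x : ℝ)) (by positivity) (by nlinarith)
  obtain ⟨σ, w, k, hW, hσ⟩ := Pri.exists_wide h1 (show (r, b) ∈ Per n from perN_it hPer) hL₀ hmul
  have hex : ∀ L ∈ Pri.D0 n, Pri.Exa n (σ L) := Pri.prim_D0 hW.cont hW.sec hL₀ (by
    rw [hσ]; exact fun d hd hdm => perN_ne hPer hd hdm)
  have hok : WS.Ok ⟨n, w, k, σ⟩ := ⟨hW, hex⟩
  refine ⟨⟨⟨n, w, k, σ⟩, x, hok, hx0, hx1, by rw [hxd]; exact hq⟩, ?_, rfl, hxd⟩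
  show (WS.dat ⟨n, w, k, σ⟩ x).c (WS.dat ⟨n, w, k, σ⟩ x).a = r
  rw [WS.dat_c hok hx0 hx1, WS.dat_a hok hx0 hx1]
  show (σ (axisPt x)).1 = r
  rw [hσ]

/-- the limb, intrinsically -/
lemma limb_eq {D : Dat} (hP : D.Par) (hC : D.Cir) :
    MM \ connectedComponentIn (MM \ {rt D}) 0 = insert (rt D) (Lm D) := by
  rw [← Cnt.n6_sep D hP hC]
  ext z
  constructor
  · rintro ⟨h1, h2⟩
    by_cases h3 : z = rt D
    · exact Or.inl h3
    · exact Or.inr ⟨h1, h3, h2⟩
  · rintro (h1 | ⟨h1, -, h2⟩)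
    · refine ⟨h1 ▸ Cnt.rt_mem_MM hP, fun h2 => ?_⟩
      exact (connectedComponentIn_subset _ _ h2).2 h1
    · exact ⟨h1, h2⟩

/-- **the sum over all limbs** -/
theorem capI_sum {C : ℝ} (h : C_limbsum C) (R : Finset ℂ) (N : ℂ → ℕ)
    (hR : ∀ r ∈ R, ∃ n q : ℕ, 3 ≤ q ∧ IsRoot n q r ∧ N r = n * q) :
    ∑ r ∈ R, diam (MM \ connectedComponentIn (MM \ {r}) 0) ^ 2 / N r ≤ C := by
  classical
  have h1 : ∀ r : R, ∃ S : RD, rt S.D = r ∧ N r = S.W.m * S.x.den := by
    rintro ⟨r, hr⟩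
    obtain ⟨n, q, hq, h1, h2⟩ := hR r hr
    obtain ⟨S, h3, h4, h5⟩ := exists_RD hq h1
    exact ⟨S, h3, by rw [h4, h5]; exact h2⟩
  choose S hS hN using h1
  have h2 := h R Finset.univ (fun r => (S r).W) (fun r => (S r).x)
    (fun r _ => ⟨(S r).ok, (S r).x0, (S r).x1, (S r).q3⟩) (fun r _ r' _ hne he => hne ?_)
  · rw [← Finset.sum_coe_sort]
    refine le_trans (le_of_eq (Finset.sum_congr rfl fun r _ => ?_)) h2
    have h3 : diam (MM \ connectedComponentIn (MM \ {(r : ℂ)}) 0) = diam (Lm (S r).D) := by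
      rw [← hS r, limb_eq (S r).par (S r).cir, diam_limb (S r).par (S r).cir]
    rw [h3, hN r]
    push_cast
    rfl
  · have h2 : rt (S r).D = rt (S r').D := he
    rw [hS, hS] at h2
    exact Subtype.ext h2

end Pool.Agent.Work.MLC.Cap
end

section
set_option autoImplicit false

/-! # Theorem Cap, stage A: the final statement (helper6) -/

namespace Pool.Agent.Work.MLC.Cap

open Filter Topology Metric Set Complex MeasureTheory
open Pool.Agent.Work.MLC.Sat Pool.Agent.Work.MLC.Cnt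

/-- `r` separates `c` from `0` in the Mandelbrot set -/
def Behind (r c : ℂ) : Prop := c ∈ MM ∧ c ≠ r ∧ c ∉ connectedComponentIn (MM \ {r}) 0

/-- infinitely many roots of type `(n, q)`, `q ≥ 3`, separate a limit point of `ψ` at
`exp (2 π i θ)` from `0` -/
def ManyLimbs (ψ : ℂ → ℂ) (θ : ℝ) : Prop :=
  {r : ℂ | (∃ n q : ℕ, 3 ≤ q ∧ IsRoot n q r) ∧ ∃ c, Behind r c ∧ MapClusterPt c
    (𝓝[{z | 1 < ‖z‖}] (Complex.exp (2 * Real.pi * θ * Complex.I))) ψ}.Infinite

/-- `ψ` has a limit at `exp (2 π i θ)` and the Mandelbrot set is locally connected there -/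
def Good (ψ : ℂ → ℂ) (θ : ℝ) : Prop := ∃ c ∈ MM,
  Tendsto ψ (𝓝[{z | 1 < ‖z‖}] (Complex.exp (2 * Real.pi * θ * Complex.I))) (𝓝 c) ∧
  ∀ U ∈ 𝓝 c, ∃ K ⊆ MM ∩ U, IsCompact K ∧ IsConnected K ∧ K ∈ 𝓝[MM] c

/-- zero measure for the gauge `1 / log (1 / t)` -/
def Null (E : Set ℝ) : Prop := ∀ ε > 0, ∃ a l : ℕ → ℝ, (∀ i, 0 < l i ∧ l i < 1) ∧
  E ⊆ (⋃ i, Icc (a i) (a i + l i)) ∧ Summable (fun i => 1 / Real.log (1 / l i)) ∧
  ∑' i, 1 / Real.log (1 / l i) < ε

end Pool.Agent.Work.MLC.Cap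
end

section
set_option autoImplicit false

/-! # Theorem U (MLC quasi-everywhere, no combinatorial hypothesis): interface (author: helper6)

`Uni_thm`: the set of ALL angles in `[0, 1)` at which `Psi` has no limit or `M` is not locally
connected at the limit is a null set for the gauge `1 / log (1 / t)`. No Yoccoz theorem, no
hypothesis on the angle. Blueprint: note of helper6 (Dec 3, 04:20).

Definitions, and the statements of the modules as propositions. -/

namespace Pool.Agent.Work.MLC.Uni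

open Filter Topology Metric Set Complex MeasureTheory
open Pool.Agent.Work.MLC.Sat Pool.Agent.Work.MLC.Cnt
open Pool.Agent.Work.MLC.Shp (Wake lg RayE Hd)
open scoped ENNReal

/-! ## Part I: circle combinatorics -/

/-- exactly one of `θ`, `t` is in some wake of period at most `n` -/
def Sepd (n : ℕ) (θ t : ℝ) : Prop := ∃ (m : ℕ) (α β : ℝ), m ≤ n ∧ Wake m α β ∧
  ¬ ((α < θ ∧ θ < β) ↔ (α < t ∧ t < β))

/-- U1: every periodic angle is an end of a wake -/
def U_ends : Prop := ∀ (m : ℕ) (τ : ℝ), 2 ≤ m → 0 < τ → τ < 1 →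
  (∃ a : ℤ, (2 ^ m - 1) * τ = a) → (∀ d, 0 < d → d < m → ¬ ∃ a : ℤ, (2 ^ d - 1) * τ = a) →
  ∃ α β : ℝ, Wake m α β ∧ (τ = α ∨ τ = β)

/-- U2: two wakes are equal, or disjoint or nested without common ends -/
def U_lam : Prop := ∀ (m m' : ℕ) (α β α' β' : ℝ), Wake m α β → Wake m' α' β' →
  (m = m' ∧ α = α' ∧ β = β') ∨ β < α' ∨ β' < α ∨ (α < α' ∧ β' < β) ∨ (α' < α ∧ β < β')

/-- U3: angles which are not separated have the same kneading symbols -/
def U_par : Prop := ∀ (n : ℕ) (θ t : ℝ), Irrational θ → Irrational t → 0 < θ → θ < 1 → 0 < t →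
  t < 1 → ¬ Sepd n θ t → ∀ j < n, wL θ j = wL t j

/-- U4: the logarithmic no wandering triangle lemma for `α < θ < β`: if the symbols of `θ` are those
of `α` up to the time `m - 1` and have no tail of period `p` from `i` with `i + p ≤ B`, then one side
of the triangle is short -/
def U_nwt : Prop := ∀ (m B : ℕ) (α β θ : ℝ), Wake m α β → α < θ → θ < β → Irrational θ →
  (∀ j, j + 1 < m → wL θ j = wL α j) → 2 * B < m → B + 1 < m →
  (∀ i p : ℕ, 0 < p → i + p ≤ B → ∃ k, i ≤ k ∧ k + p + 1 < m ∧ wL θ (k + p) ≠ wL θ k) →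
  min (θ - α) (β - θ) * (β - α) ≤ (1 / 2) ^ (B + 2)

/-- U5: windows without a tail period, for a sequence which is not eventually periodic -/
def U_win : Prop := ∀ w : ℕ → ℤ, (¬ ∃ l p : ℕ, 0 < p ∧ ∀ k, l ≤ k → w (k + p) = w k) →
  ∀ n₀ : ℕ, ∃ n, n₀ ≤ n ∧ ∀ N, n ≤ N → N ≤ 4 * n → ∀ l p : ℕ, 0 < p → 16 * (l + p) ≤ N →
    ∃ k, l ≤ k ∧ k + p < N ∧ w (k + p) ≠ w k

/-- the rotation number for some component is irrational -/
def IrrRot (θ : ℝ) : Prop := ∃ W : WS, W.Ok ∧ 0 < W.nu θ ∧ W.nu θ < 1 ∧ Irrational (W.nu θ)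

/-- U6: an irrational angle with an eventually periodic kneading sequence -/
def U_evp : Prop := ∀ θ : ℝ, Irrational θ →
  (∃ l p : ℕ, 0 < p ∧ ∀ k, l ≤ k → wL θ (k + p) = wL θ k) → IrrRot θ

/-- U7: the component of a wake, its roots -/
def U_ws : Prop := ∀ (m : ℕ) (α β : ℝ), Wake m α β → ∃ W : WS, W.Ok ∧ W.m = m ∧
  (∀ θ, (0 < W.nu θ ∧ W.nu θ < 1) ↔ (α < θ ∧ θ < β)) ∧
  (2 ≤ m → (W.dat (1 / 2)).tm = α + (β - α) / (2 ^ m + 1) ∧
    (W.dat (1 / 2)).tp = β - (β - α) / (2 ^ m + 1)) ∧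
  ∀ x : ℚ, 0 < x → x < 1 → Wake (m * x.den) (W.dat x).tm (W.dat x).tp

/-- a piece with one arc, level `n` -/
structure One (n : ℕ) (W : WS) : Prop where
  ok : W.Ok
  lt : 2 * n < W.m
  le : W.m ≤ 4 * n
  len : (W.dat (1 / 2)).tp - (W.dat (1 / 2)).tm ≤ (1 / 2) ^ (n / 20)

/-- a piece with two arcs, level `n` -/
structure Two (n : ℕ) (W W' : WS) : Prop where
  ok : W.Ok
  ok' : W'.Ok
  lt : 2 * n < W.m
  le : W.m ≤ 4 * n
  lt' : n ≤ 16 * W'.m
  le' : W'.m < W.m
  left : (W.dat (1 / 2)).tm < (W'.dat (1 / 2)).tm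
  right : (W'.dat (1 / 2)).tp < (W.dat (1 / 2)).tp
  len : (W'.dat (1 / 2)).tm - (W.dat (1 / 2)).tm ≤ (1 / 2) ^ (n / 20)
  len' : (W.dat (1 / 2)).tp - (W'.dat (1 / 2)).tp ≤ (1 / 2) ^ (n / 20)

/-- `θ` is in only finitely many arcs with denominators at least `3` -/
def FewLimbs (θ : ℝ) : Prop := ∃ M : ℕ, ∀ (W : WS) (x : ℚ), W.Ok → M ≤ W.m → 0 < x → x < 1 →
  3 ≤ x.den → ¬ ((W.dat x).tm < θ ∧ θ < (W.dat x).tp)

/-- U8: the combinatorial theorem -/
def U_comb : Prop := ∀ θ : ℝ, 0 < θ → θ < 1 → Irrational θ → ¬ IrrRot θ → FewLimbs θ →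
  ∀ n₀ : ℕ, ∃ n, n₀ ≤ n ∧ ∃ W : WS, 0 < (W.dat (1 / 2)).tm ∧ (W.dat (1 / 2)).tp < 1 ∧
    (W.dat (1 / 2)).tm < θ ∧ θ < (W.dat (1 / 2)).tp ∧
    (One n W ∨ ∃ W' : WS, Two n W W' ∧ ¬ ((W'.dat (1 / 2)).tm ≤ θ ∧ θ ≤ (W'.dat (1 / 2)).tp))

/-! ## Part II: irrational rotation numbers -/

/-- IR: the conclusion holds at irrational points of the boundaries of components -/
def U_irr : Prop := ∀ θ : ℝ, IrrRot θ → ∃ c₀ ∈ MM,
  Tendsto Psi (𝓝[{z | 1 < ‖z‖}] (Complex.exp (2 * Real.pi * θ * Complex.I))) (𝓝 c₀) ∧ LCat MM c₀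

/-! ## Part III: one piece -/

/-- the part of the component near the axis, away from the root -/
noncomputable def HK (W : WS) : Set ℂ :=
  W.c '' {L | -1 / (10 ^ 6 * W.m) < L.re ∧ L.re < 0 ∧
    2 * Real.pi / 200 < L.im ∧ L.im < 2 * Real.pi * (1 - 1 / 200)}

/-- GA: the axis between the roots at `1 / 100` and `99 / 100` is covered by few small gates
(compare `C_cutgate`) -/
def U_gate : Prop := ∃ C : ℝ, 0 < C ∧ ∀ W : WS, W.Ok → ∀ x₁ x₂ : ℚ, 1 / 150 < x₁ → x₁ < 1 / 100 →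
  99 / 100 < x₂ → x₂ < 1 - 1 / 150 → ∃ (F : Finset ℕ) (P : ℕ → Set ℂ),
    (∀ i ∈ F, Bornology.IsBounded (P i)) ∧
    (∀ y : ℝ, (x₁ : ℝ) ≤ y → y ≤ x₂ → ∃ i ∈ F, W.c (2 * Real.pi * y * I) ∈ P i) ∧
    (∃ i ∈ F, W.Gt x₁ (6 / (2000 * W.m * (100 : ℝ) ^ 2)) ⊆ P i) ∧
    (∃ i ∈ F, W.Gt x₂ (6 / (2000 * W.m * (100 : ℝ) ^ 2)) ⊆ P i) ∧
    ENNReal.ofReal ((∑ i ∈ F, diam (P i)) ^ 2) ≤ ENNReal.ofReal (C * W.m) * volume (HK W)

/-- T2': the enclosure of a piece with two arcs, with two heights (compare `Cap.C_top2`) -/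
def U_top : Prop := ∀ W W' : WS, W.Ok → W'.Ok → ∀ (V : Dat) (x x₁ x₂ x₁' x₂' : ℚ),
  V.Par → V.Cir → 0 < x₁ → x₁ < x → x < x₂ → x₂ < 1 → 0 < x₁' → x₁' < x₂' → x₂' < 1 →
  Lm V ⊆ Lm (W.dat x) → (∀ y : ℝ, 0 < y → y < 1 → W'.c (2 * Real.pi * y * I) ∈ Lm V) →
  (W.dat x).tm ≤ V.tm → V.tm ≤ (W'.dat x₁').tm → (W'.dat x₂').tp ≤ V.tp → V.tp ≤ (W.dat x).tp →
  IsPreconnected (Cap.KP (W.dat x) V) →
  ∀ (g₁ g₂ g₁' g₂' h₁ h₂ : ℝ), 0 < g₁ → g₁ ≤ h₁ → 0 < g₂ → g₂ ≤ h₂ → 0 < g₁' → g₁' ≤ h₁ →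
  0 < g₂' → g₂' ≤ h₂ →
  ∀ (κ : Type) (F : Finset κ) (P : κ → Set ℂ),
  (∀ i ∈ F, Bornology.IsBounded (P i)) →
  (∀ y : ℝ, (x₁ : ℝ) ≤ y → y ≤ x₂ → ∃ i ∈ F, W.c (2 * Real.pi * y * I) ∈ P i) →
  (∀ u : ℝ, 0 < u → u ≤ g₁ → ∃ i ∈ F, cOf ((u : ℂ) + 2 * Real.pi * (W.dat x₁).tm * I) ∈ P i) →
  (∀ u : ℝ, 0 < u → u ≤ g₂ → ∃ i ∈ F, cOf ((u : ℂ) + 2 * Real.pi * (W.dat x₂).tp * I) ∈ P i) →
  (∀ y : ℝ, (x₁' : ℝ) ≤ y → y ≤ x₂' → ∃ i ∈ F, W'.c (2 * Real.pi * y * I) ∈ P i) →
  (∀ u : ℝ, 0 < u → u ≤ g₁' → ∃ i ∈ F, cOf ((u : ℂ) + 2 * Real.pi * (W'.dat x₁').tm * I) ∈ P i) →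
  (∀ u : ℝ, 0 < u → u ≤ g₂' → ∃ i ∈ F, cOf ((u : ℂ) + 2 * Real.pi * (W'.dat x₂').tp * I) ∈ P i) →
  diam (Cap.KP (W.dat x) V) ≤
    diam (RaySeg (W.dat x₁).tm g₁ h₁) + diam (RaySeg (W.dat x₂).tp g₂ h₂) +
    diam (RaySeg (W'.dat x₁').tm g₁' h₁) + diam (RaySeg (W'.dat x₂').tp g₂' h₂) +
    diam (RoofH h₁ (W.dat x₁).tm (W'.dat x₁').tm) + diam (RoofH h₂ (W'.dat x₂').tp (W.dat x₂).tp) +
    ∑ i ∈ F, diam (P i)

/-- CH: the child of the root at `1 / 2`; its plateaus near `0` and `1` are close to the ends of the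
wake (compare `Cap.C_child`) -/
def U_child : Prop := ∀ W : WS, W.Ok → ∃ W' : WS, W'.Ok ∧ W'.m = 2 * W.m ∧
  (∀ y : ℝ, 0 < y → y < 1 → W'.c (2 * Real.pi * y * I) ∈ Lm (W.dat (1 / 2))) ∧
  (∀ y : ℚ, 0 < y → y < 1 → (W.dat (1 / 2)).tm < (W'.dat y).tm ∧
    (W'.dat y).tp < (W.dat (1 / 2)).tp) ∧
  (W'.dat (1 / 2)).tm - (W.dat (1 / 2)).tm ≤ 1 / (2 ^ W'.m - 1) ∧
  (∀ y : ℚ, 0 < y → y ≤ 1 / 100 →
    (W'.dat y).tm - (W.dat (1 / 2)).tm ≤ 1 / (2 ^ (99 * W'.m) - 1)) ∧
  (∀ y : ℚ, 99 / 100 ≤ y → y < 1 →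
    (W.dat (1 / 2)).tp - (W'.dat y).tp ≤ 1 / (2 ^ (99 * W'.m) - 1))

/-- E1: one piece with one arc -/
def U_one : Prop := ∃ C : ℝ, 0 < C ∧ ∀ (n : ℕ) (W : WS), 4000 ≤ n → One n W →
  ENNReal.ofReal (diam (insert (rt (W.dat (1 / 2))) (Lm (W.dat (1 / 2)))) ^ 2) ≤
    ENNReal.ofReal (C * n) * (RayE (W.dat (1 / 2)).tm ((W.dat (1 / 2)).tp - (W.dat (1 / 2)).tm) +
      RayE (W.dat (1 / 2)).tp ((W.dat (1 / 2)).tp - (W.dat (1 / 2)).tm) + volume (Hd W (1 / 2)))

/-- E2: one piece with two arcs; `W''` is the child of the inner root -/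
def U_two : Prop := ∃ C : ℝ, 0 < C ∧ ∀ (n : ℕ) (W W' : WS), 4000 ≤ n → Two n W W' →
  ∃ W'' : WS, W''.Ok ∧ W''.m = 2 * W'.m ∧ (W'.dat (1 / 2)).tm < (W''.dat (1 / 2)).tm ∧
  (W''.dat (1 / 2)).tm - (W'.dat (1 / 2)).tm ≤ 1 / (2 ^ (2 * W'.m) - 1) ∧
  ENNReal.ofReal (diam (Cap.KP (W.dat (1 / 2)) (W'.dat (1 / 2))) ^ 2) ≤ ENNReal.ofReal (C * n) *
    (RayE (W.dat (1 / 2)).tm ((W'.dat (1 / 2)).tm - (W.dat (1 / 2)).tm) +
      RayE (W'.dat (1 / 2)).tm ((W'.dat (1 / 2)).tm - (W.dat (1 / 2)).tm) +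
      RayE (W'.dat (1 / 2)).tp ((W.dat (1 / 2)).tp - (W'.dat (1 / 2)).tp) +
      RayE (W.dat (1 / 2)).tp ((W.dat (1 / 2)).tp - (W'.dat (1 / 2)).tp) +
      volume (Hd W (1 / 2)) + volume (HK W''))

/-! ## Part IV: sums and the choice of the pieces -/

/-- HS: the sum of the areas `HK` over different components -/
def U_area : Prop := ∃ C : ℝ, ∀ (ι : Type) (F : Finset ι) (W : ι → WS), (∀ i ∈ F, (W i).Ok) →
  (∀ i ∈ F, ∀ j ∈ F, WS.Same (W i) (W j) → i = j) →
  ∑ i ∈ F, volume (HK (W i)) ≤ ENNReal.ofReal C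

/-- the angles of a piece with one arc -/
def A1 (W : WS) : Set ℝ := {θ | (W.dat (1 / 2)).tm < θ ∧ θ < (W.dat (1 / 2)).tp}

/-- the angles of a piece with two arcs -/
def A2 (W W' : WS) : Set ℝ :=
  {θ | θ ∈ A1 W ∧ ¬ ((W'.dat (1 / 2)).tm ≤ θ ∧ θ ≤ (W'.dat (1 / 2)).tp)}

/-- S1: the sum over the pieces with one arc, at most three in each window `2 ^ k ≤ n < 2 ^ (k + 1)`
at every irrational angle -/
def U_sum1 : Prop := ∃ C : ℝ, ∀ (ι : Type) (F : Finset ι) (n : ι → ℕ) (W : ι → WS),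
  (∀ i ∈ F, 4000 ≤ n i ∧ One (n i) (W i) ∧ 0 < ((W i).dat (1 / 2)).tm ∧
    ((W i).dat (1 / 2)).tp < 1) →
  (∀ (k : ℕ) (θ : ℝ), Irrational θ → ∀ T ⊆ F,
    (∀ i ∈ T, 2 ^ k ≤ n i ∧ n i < 2 ^ (k + 1) ∧ θ ∈ A1 (W i)) → T.card ≤ 3) →
  ∑ i ∈ F, diam (insert (rt ((W i).dat (1 / 2))) (Lm ((W i).dat (1 / 2)))) ^ 2 / n i ≤ C

/-- S2: the sum over the pieces with two arcs -/
def U_sum2 : Prop := ∃ C : ℝ, ∀ (ι : Type) (F : Finset ι) (n : ι → ℕ) (W W' : ι → WS),
  (∀ i ∈ F, 4000 ≤ n i ∧ Two (n i) (W i) (W' i) ∧ 0 < ((W i).dat (1 / 2)).tm ∧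
    ((W i).dat (1 / 2)).tp < 1) →
  (∀ (k : ℕ) (θ : ℝ), Irrational θ → ∀ T ⊆ F,
    (∀ i ∈ T, 2 ^ k ≤ n i ∧ n i < 2 ^ (k + 1) ∧ θ ∈ A2 (W i) (W' i)) → T.card ≤ 3) →
  ∑ i ∈ F, diam (Cap.KP ((W i).dat (1 / 2)) ((W' i).dat (1 / 2))) ^ 2 / n i ≤ C

/-- N1: the null lemma for the pieces with one arc -/
def U_null1 : Prop := Cap.Null {θ | Irrational θ ∧ ¬ Cap.Good Psi θ ∧ ∀ n₀ : ℕ, ∃ n, n₀ ≤ n ∧
  ∃ W : WS, One n W ∧ 0 < (W.dat (1 / 2)).tm ∧ (W.dat (1 / 2)).tp < 1 ∧ θ ∈ A1 W}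

/-- N2: the null lemma for the pieces with two arcs -/
def U_null2 : Prop := Cap.Null {θ | Irrational θ ∧ ¬ Cap.Good Psi θ ∧ ∀ n₀ : ℕ, ∃ n, n₀ ≤ n ∧
  ∃ W W' : WS, Two n W W' ∧ 0 < (W.dat (1 / 2)).tm ∧ (W.dat (1 / 2)).tp < 1 ∧ θ ∈ A2 W W'}

/-- **Theorem U** -/
def Uni_thm : Prop := Cap.Null {θ | θ ∈ Ico (0 : ℝ) 1 ∧ ¬ Cap.Good Psi θ}

end Pool.Agent.Work.MLC.Uni
end

section
set_option autoImplicit false

/-! # Theorem CAP: the assembly (helper90)

`cap_assembly`: the sum over the limbs (stage A), the pieces of type II, the choice of the pieces give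
**Theorem CAP**: the exceptional set of infinitely renormalizable angles is a null set for the gauge
`1 / log (1 / t)`. -/

namespace Pool.Agent.Work.MLC.Shp

open Filter Topology Metric Set Complex MeasureTheory
open Pool.Agent.Work.MLC.Sat Pool.Agent.Work.MLC.Cnt
open scoped ENNReal

/-- the conclusion at the angle `θ` -/
def GoodAt (θ : ℝ) : Prop := ∃ c₀ ∈ MM,
  Tendsto Psi (𝓝[{z | 1 < ‖z‖}] (Complex.exp (2 * Real.pi * θ * Complex.I))) (𝓝 c₀) ∧
  LCat MM c₀

/-! ### null sets for the gauge -/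

/-- covers by countable families -/
lemma logNull_of {E : Set ℝ} (h : ∀ ε : ℝ, 0 < ε → ∃ (β : Type) (_ : Countable β) (a l : β → ℝ),
    (∀ b, 0 < l b ∧ l b < 1) ∧ E ⊆ (⋃ b, Icc (a b) (a b + l b)) ∧
    ∑' b, ENNReal.ofReal (1 / Real.log (1 / l b)) < ENNReal.ofReal ε) : LogNull E := by
  intro ε hε
  obtain ⟨β, _, a, l, h1, h2, h3⟩ := h (ε / 2) (by linarith)
  obtain ⟨l₀, h4, h5⟩ := Cap.exists_tiny (ε := ENNReal.ofReal (ε / 2)) (by
    rw [Ne, ENNReal.ofReal_eq_zero, not_le]; linarith)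
  have h6 : ∀ b : β ⊕ ℕ, 0 < Sum.elim l l₀ b ∧ Sum.elim l l₀ b < 1 := by
    rintro (b | i)
    · exact h1 b
    · exact h4 i
  have h7 : ∑' b : β ⊕ ℕ, ENNReal.ofReal (1 / Real.log (1 / Sum.elim l l₀ b)) <
      ENNReal.ofReal ε := by
    rw [ENNReal.summable.tsum_sum ENNReal.summable]
    have h8 : ENNReal.ofReal ε = ENNReal.ofReal (ε / 2) + ENNReal.ofReal (ε / 2) := by
      rw [← ENNReal.ofReal_add (by linarith) (by linarith)]
      congr 1; ring
    rw [h8]
    exact ENNReal.add_lt_add h3 h5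
  obtain ⟨a', l', g1, g2, g3, g4⟩ := Cap.to_seq (Sum.elim a fun _ => 0) (Sum.elim l l₀) h6 h7
  refine ⟨a', fun i => a' i + l' i, fun i => ⟨by linarith [(g1 i).1], by linarith [(g1 i).2]⟩,
    ?_, ?_, ?_⟩
  · intro x hx
    obtain ⟨b, hb⟩ := mem_iUnion.1 (h2 hx)
    obtain ⟨i, hi1, hi2⟩ := g4 (Sum.inl b)
    refine mem_iUnion.2 ⟨i, ?_⟩
    show x ∈ Icc (a' i) (a' i + l' i)
    rw [hi1, hi2]; exact hb
  · simpa only [add_sub_cancel_left] using g2
  · simpa only [add_sub_cancel_left] using g3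

lemma LogNull.mono {E E' : Set ℝ} (h : LogNull E) (h' : E' ⊆ E) : LogNull E' := by
  intro ε hε
  obtain ⟨a, b, h1, h2, h3, h4⟩ := h ε hε
  exact ⟨a, b, h1, h'.trans h2, h3, h4⟩

lemma gauge_nonneg {x : ℝ} (h0 : 0 < x) (h1 : x < 1) : 0 ≤ 1 / Real.log (1 / x) := by
  have h2 : 1 ≤ 1 / x := by rw [le_div_iff₀ h0]; linarith
  have := Real.log_nonneg h2
  positivity

/-- countable unions -/
lemma LogNull.iUnion {E : ℕ → Set ℝ} (h : ∀ n, LogNull (E n)) : LogNull (⋃ n, E n) := by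
  refine logNull_of fun ε hε => ?_
  obtain ⟨ε', hε', hsum⟩ := ENNReal.exists_pos_sum_of_countable (ε := ENNReal.ofReal ε)
    (by rw [Ne, ENNReal.ofReal_eq_zero, not_le]; linarith) ℕ
  have h1 := fun n => h n (ε' n) (by exact_mod_cast hε' n)
  choose a b h1 h2 h3 h4 using h1
  refine ⟨ℕ × ℕ, inferInstance, fun p => a p.1 p.2, fun p => b p.1 p.2 - a p.1 p.2, ?_, ?_, ?_⟩
  · intro p
    constructor <;> linarith [(h1 p.1 p.2).1, (h1 p.1 p.2).2]
  · intro x hx
    obtain ⟨n, hn⟩ := mem_iUnion.1 hx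
    obtain ⟨i, hi⟩ := mem_iUnion.1 (h2 n hn)
    refine mem_iUnion.2 ⟨(n, i), ?_⟩
    simpa using hi
  · rw [ENNReal.tsum_prod (f := fun n i => ENNReal.ofReal (1 / Real.log (1 / (b n i - a n i))))]
    refine lt_of_le_of_lt (ENNReal.tsum_le_tsum fun n => ?_) hsum
    rw [← ENNReal.ofReal_tsum_of_nonneg (fun i => gauge_nonneg (by linarith [(h1 n i).1])
      (by linarith [(h1 n i).2])) (h3 n), ← ENNReal.ofReal_coe_nnreal]
    exact ENNReal.ofReal_le_ofReal (h4 n).le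

lemma LogNull.union {E E' : Set ℝ} (h : LogNull E) (h' : LogNull E') : LogNull (E ∪ E') := by
  have h1 := LogNull.iUnion (E := fun n : ℕ => if n = 0 then E else E') (fun n => by
    by_cases hn : n = 0
    · rw [if_pos hn]; exact h
    · rw [if_neg hn]; exact h')
  refine h1.mono ?_
  rintro x (hx | hx)
  · exact mem_iUnion.2 ⟨0, by simpa using hx⟩
  · exact mem_iUnion.2 ⟨1, by simpa using hx⟩

/-- countable sets -/
lemma LogNull.countable {N : Set ℝ} (hN : N.Countable) : LogNull N := by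
  refine logNull_of fun ε hε => ?_
  obtain ⟨l₀, h4, h5⟩ := Cap.exists_tiny (ε := ENNReal.ofReal ε) (by
    rw [Ne, ENNReal.ofReal_eq_zero, not_le]; linarith)
  obtain ⟨e, he⟩ : ∃ e : ℕ → ℝ, N ⊆ range e := by
    rcases N.eq_empty_or_nonempty with h | h
    · exact ⟨fun _ => 0, by rw [h]; exact empty_subset _⟩
    · obtain ⟨e, he⟩ := hN.exists_eq_range h
      exact ⟨e, he.le⟩
  refine ⟨ℕ, inferInstance, e, l₀, h4, fun x hx => ?_, h5⟩
  obtain ⟨i, hi⟩ := he hx
  exact mem_iUnion.2 ⟨i, hi.le, by rw [← hi]; linarith [(h4 i).1]⟩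

/-! ### type I -/

/-- a point of the impression -/
lemma exists_imp (θ : ℝ) : ∃ c ∈ MM, (c, θ) ∈ closure {p : ℂ × ℝ | Ang p.1 p.2} := by
  obtain ⟨c₀, φ, hφ, hc₀⟩ := exists_limit_cOf
    (u := fun n => ((1 / ((n : ℝ) + 1) : ℝ) : ℂ) + 2 * Real.pi * θ * Complex.I)
    (fun n => by rw [CH.re_pt]; positivity)
    (fun n => by
      rw [CH.re_pt, div_le_one (by positivity)]
      linarith [(Nat.cast_nonneg n : (0 : ℝ) ≤ n)])
  have hg0 : Tendsto (fun n => 1 / ((φ n : ℝ) + 1)) atTop (𝓝 0) :=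
    tendsto_one_div_add_atTop_nhds_zero_nat.comp hφ.tendsto_atTop
  refine ⟨c₀, ?_, ?_⟩
  · refine mem_MM_of_tendsto (u := fun n => ((1 / ((φ n : ℝ) + 1) : ℝ) : ℂ) +
      2 * Real.pi * θ * Complex.I) (fun n => ?_) ?_ hc₀
    · rw [CH.re_pt]; positivity
    · refine hg0.congr fun n => ?_
      exact (CH.re_pt _ _).symm
  · have h1 : Tendsto (fun n => (cOf (((1 / ((φ n : ℝ) + 1) : ℝ) : ℂ) +
        2 * Real.pi * θ * Complex.I), θ)) atTop (𝓝 (c₀, θ)) := hc₀.prodMk_nhds tendsto_const_nhds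
    refine mem_closure_of_tendsto h1 (Eventually.of_forall fun n => ?_)
    exact (ang_cOf (by positivity)).1

/-- an angle in the arcs of infinitely many limbs -/
lemma inf_of_arcs {θ : ℝ} (h : ∀ M : ℕ, ∃ (W : WS) (x : ℚ), W.Ok ∧ M ≤ W.m ∧ 0 < x ∧ x < 1 ∧
    3 ≤ x.den ∧ (W.dat x).tm < θ ∧ θ < (W.dat x).tp) :
    {r | r ∈ Cap.RT ∧ Cap.ImpSep θ r}.Infinite := by
  classical
  obtain ⟨c₀, hc₀M, hc₀⟩ := exists_imp θ
  intro hfin
  have hfin' : (insert c₀ {r | r ∈ Cap.RT ∧ Cap.ImpSep θ r}).Finite := hfin.insert _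
  choose W x hW using h
  set R : ℕ → Cap.RD := fun M => ⟨W M, x M, (hW M).1, (hW M).2.2.1, (hW M).2.2.2.1,
    (hW M).2.2.2.2.1⟩ with hR
  have hmem : ∀ M, rt (R M).D ∈ insert c₀ {r | r ∈ Cap.RT ∧ Cap.ImpSep θ r} := by
    intro M
    by_cases hc : c₀ = rt (R M).D
    · exact Or.inl hc.symm
    · refine Or.inr ⟨⟨R M, rfl⟩, c₀, ?_, hc₀⟩
      rw [Cnt.n6_sep (R M).D (R M).par (R M).cir]
      rcases Cap.imp_in (R M).par (R M).cir hc₀M (k := 0)
        (by push_cast; rw [add_zero]; exact (hW M).2.2.2.2.2.1)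
        (by push_cast; rw [add_zero]; exact (hW M).2.2.2.2.2.2) hc₀ with h | h
      · exact absurd h hc
      · exact h
  have : Finite (insert c₀ {r | r ∈ Cap.RT ∧ Cap.ImpSep θ r} : Set ℂ) := hfin'
  obtain ⟨y, hy⟩ := Finite.exists_infinite_fiber
    (fun M => (⟨rt (R M).D, hmem M⟩ : (insert c₀ {r | r ∈ Cap.RT ∧ Cap.ImpSep θ r} : Set ℂ)))
  have hy' := Set.infinite_coe_iff.1 hy
  obtain ⟨M₁, hM₁⟩ := hy'.nonempty
  obtain ⟨M₂, hM₂, hlt⟩ := hy'.exists_gt ⌈Real.log (1 / (R M₁).len) * 2⌉₊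
  have h1 : rt (R M₁).D = rt (R M₂).D := by
    have e1 : rt (R M₁).D = y := congrArg Subtype.val hM₁
    have e2 : rt (R M₂).D = y := congrArg Subtype.val hM₂
    rw [e1, e2]
  obtain ⟨k, k1, k2⟩ := plateau_unique n2_ray (R M₁).par (R M₁).cir (R M₂).par (R M₂).cir h1
  have h2 : (R M₁).len = (R M₂).len := by
    show (R M₁).D.tp - (R M₁).D.tm = (R M₂).D.tp - (R M₂).D.tm
    rw [k1, k2]; ring
  have h3 := (R M₂).log_len
  have h4 : 1 / (R M₂).wt = (R M₂).W.m * ((R M₂).x.den : ℝ) := by rw [Cap.RD.wt, one_div_one_div]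
  have h5 : Real.log (1 / (R M₁).len) * 2 < M₂ := (Nat.le_ceil _).trans_lt (by exact_mod_cast hlt)
  have h6 : (M₂ : ℝ) ≤ (R M₂).W.m := by exact_mod_cast (hW M₂).2.1
  have h7 : (3 : ℝ) ≤ (R M₂).x.den := by exact_mod_cast (R M₂).q3
  have h8 : (M₂ : ℝ) * 3 ≤ (R M₂).W.m * ((R M₂).x.den : ℝ) :=
    mul_le_mul h6 h7 (by norm_num) (by positivity)
  have h9 : 0.6931471803 < Real.log 2 := Real.log_two_gt_d9
  rw [h4, ← h2] at h3
  have h10 : (0 : ℝ) ≤ M₂ := Nat.cast_nonneg _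
  have h11 : Real.log 2 / 3 * (M₂ * 3) ≤ Real.log 2 / 3 * ((R M₂).W.m * ((R M₂).x.den : ℝ)) := by
    gcongr
  nlinarith

/-- the exceptional set of type I -/
lemma null_A {C : ℝ} (hC : Cap.C_limbsum C) :
    LogNull {θ | θ ∈ Ico (0 : ℝ) 1 ∧ {r | r ∈ Cap.RT ∧ Cap.ImpSep θ r}.Infinite ∧ ¬ GoodAt θ} := by
  intro ε hε
  obtain ⟨a, l, h1, h2, h3, h4⟩ := Cap.cap_final hC hε
  refine ⟨a, fun i => a i + l i, fun i => ⟨by linarith [(h1 i).1], by linarith [(h1 i).2]⟩,
    ?_, ?_, ?_⟩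
  · rintro t ⟨ht, hinf, hg⟩
    by_contra hcon
    exact hg (h4 t ht (fun i hi => hcon (mem_iUnion.2 ⟨i, hi⟩)) hinf)
  · simpa only [add_sub_cancel_left] using h2
  · simpa only [add_sub_cancel_left] using h3

/-! ### type II -/

end Pool.Agent.Work.MLC.Shp
end

section
set_option autoImplicit false

/-! # Theorem CAP, stage B: the sum over the pieces of type II (helper54)

`B_sum` from the sum of the weighted areas next to the ends (`M_class`), the estimate of one piece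
(`E_two`) and the sum of the areas inside the components (`H_sum`). -/

namespace Pool.Agent.Work.MLC.Shp

open Filter Topology Metric Set Complex MeasureTheory
open Pool.Agent.Work.MLC.Sat Pool.Agent.Work.MLC.Cnt
open scoped ENNReal

namespace Z54

/-! ### pure lemmas -/

/-- representatives of the classes of a relation -/
lemma reps {ι : Type} (F : Finset ι) (r : ι → ι → Prop) (hr : ∀ i, r i i)
    (hs : ∀ i j, r i j → r j i) (ht : ∀ i j k, r i j → r j k → r i k) :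
    ∃ ρ : ι → ι, (∀ i ∈ F, ρ i ∈ F ∧ r i (ρ i)) ∧ ∀ i j, r i j → ρ i = ρ j := by
  classical
  rcases isEmpty_or_nonempty ι with h | h
  · exact ⟨id, fun i _ => (h.false i).elim, fun i => (h.false i).elim⟩
  · refine ⟨fun i => Classical.epsilon (fun j => j ∈ F ∧ r i j), fun i hi => ?_, fun i j hij => ?_⟩
    · exact Classical.epsilon_spec (p := fun j => j ∈ F ∧ r i j) ⟨i, hi, hr i⟩
    · have e : (fun k => k ∈ F ∧ r i k) = fun k => k ∈ F ∧ r j k := by
        funext k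
        exact propext ⟨fun ⟨a, b⟩ => ⟨a, ht _ _ _ (hs _ _ hij) b⟩,
          fun ⟨a, b⟩ => ⟨a, ht _ _ _ hij b⟩⟩
      simp only [e]

lemma exists_delta {ι : Type} (T : Finset ι) (f : ι → ℝ) (h : ∀ i ∈ T, 0 < f i) :
    ∃ δ > 0, ∀ i ∈ T, δ ≤ f i := by
  rcases T.eq_empty_or_nonempty with rfl | hne
  · exact ⟨1, one_pos, fun i hi => absurd hi (Finset.notMem_empty i)⟩
  · obtain ⟨i, hi, hmin⟩ := T.exists_min_image f hne
    exact ⟨f i, h i hi, hmin⟩

/-! ### the relation of being the same component -/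

lemma same_refl (W : WS) : WS.Same W W := ⟨rfl, fun _ _ => rfl⟩

lemma same_symm {W W' : WS} (h : WS.Same W W') : WS.Same W' W :=
  ⟨h.1.symm, fun L hL => (h.2 L (by rw [h.1]; exact hL)).symm⟩

lemma same_trans {W W' W'' : WS} (h : WS.Same W W') (h' : WS.Same W' W'') : WS.Same W W'' :=
  ⟨h.1.trans h'.1, fun L hL => (h.2 L hL).trans (h'.2 L (by rw [← h.1]; exact hL))⟩

lemma half_pos : (0 : ℚ) < 1 / 2 := by norm_num

lemma half_lt : (1 / 2 : ℚ) < 1 := by norm_num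

lemma hgt_nonneg (n : ℕ) (y : ℝ) : 0 ≤ Pri.hgt n y := by
  unfold Pri.hgt
  positivity

lemma hgt_pos {n : ℕ} (hn : 0 < n) {y : ℝ} (h0 : 0 < y) (h1 : y < 2 * Real.pi) :
    0 < Pri.hgt n y := by
  unfold Pri.hgt
  have h2 : 0 < min y (2 * Real.pi - y) := lt_min h0 (by linarith)
  have h3 : (0 : ℝ) < n := by exact_mod_cast hn
  positivity

lemma same_hd {W W' : WS} (h : WS.Same W W') : Hd W (1 / 2) = Hd W' (1 / 2) := by
  unfold Hd Cap.HH
  rw [← h.1]
  refine image_congr fun L hL => h.2 L ?_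
  obtain ⟨-, h2, h3⟩ := hL
  have hpi := Real.pi_pos
  have hd : (((1 / 2 : ℚ)).den : ℝ) = 2 := by norm_num
  rw [hd, abs_lt] at h3
  have hc : (((1 / 2 : ℚ)) : ℝ) = 1 / 2 := by norm_num
  rw [hc] at h3
  obtain ⟨h4, h5⟩ := h3
  have h6 : 1 / 4 < L.im / (2 * Real.pi) := by linarith
  have h7 : L.im / (2 * Real.pi) < 3 / 4 := by linarith
  rw [lt_div_iff₀ (by positivity)] at h6
  rw [div_lt_iff₀ (by positivity)] at h7
  exact ⟨by nlinarith, by nlinarith, h2.trans_le (hgt_nonneg _ _)⟩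

lemma ok_m_pos {W : WS} (h : W.Ok) : 0 < W.m := by
  have h1 := WS.dat_par h half_pos half_lt
  have h2 := h1.m_pos
  rwa [WS.dat_m h half_pos half_lt] at h2

lemma same_rt {W W' : WS} (hW : W.Ok) (hW' : W'.Ok) (h : WS.Same W W') :
    rt (W.dat (1 / 2)) = rt (W'.dat (1 / 2)) := by
  unfold rt
  rw [WS.dat_c hW half_pos half_lt, WS.dat_c hW' half_pos half_lt,
    WS.dat_a hW half_pos half_lt, WS.dat_a hW' half_pos half_lt]
  refine h.2 _ ?_
  have hpi := Real.pi_pos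
  have e1 : (axisPt (1 / 2)).im = Real.pi := by
    unfold axisPt
    simp
    ring
  have e2 : (axisPt (1 / 2)).re = 0 := by
    unfold axisPt
    simp
  refine ⟨by rw [e1]; exact hpi, by rw [e1]; linarith, ?_⟩
  rw [e1, e2]
  exact hgt_pos (ok_m_pos hW) hpi (by linarith)

/-- the roots at `1 / 2` of the same component have the same angles modulo the integers -/
lemma same_tm {W W' : WS} (hW : W.Ok) (hW' : W'.Ok) (h : WS.Same W W') :
    ∃ k : ℤ, (W.dat (1 / 2)).tm = (W'.dat (1 / 2)).tm + k := by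
  obtain ⟨k, hk, -⟩ := plateau_unique n2_ray (WS.dat_par hW half_pos half_lt)
    (WS.dat_cir hW half_pos half_lt) (WS.dat_par hW' half_pos half_lt)
    (WS.dat_cir hW' half_pos half_lt) (same_rt hW hW' h)
  exact ⟨k, hk⟩

/-! ### the sum of the areas with weights -/

/-! ### the overlap of the pieces -/

section Over

variable {ι : Type} {F : Finset ι} {P : ι → Pie}

end Over

/-! ### the ends of the inner pieces -/

lemma per_V {W : WS} (h : W.Ok) :
    ∃ a : ℤ, (2 : ℝ) ^ (2 * W.m) * (W.dat (1 / 2)).tm - (W.dat (1 / 2)).tm = a := by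
  have h1 := (WS.dat_cir h half_pos half_lt).per.2.1
  rw [WS.dat_m h half_pos half_lt, WS.dat_x h half_pos half_lt] at h1
  have e : W.m * ((1 / 2 : ℚ)).den = 2 * W.m := by
    have : ((1 / 2 : ℚ)).den = 2 := by norm_num
    rw [this, mul_comm]
  rw [e] at h1
  exact h1

lemma child_tm {W W' : WS} {t t' : ℝ} {k : ℤ} (h : W.Ok) (h' : W'.Ok) (hm : W.m = W'.m)
    (ht : t = t' + k) (h1 : (W.dat (1 / 2)).tm < t)
    (h2 : t - (W.dat (1 / 2)).tm ≤ 1 / (2 ^ (2 * W.m) - 1)) (h1' : (W'.dat (1 / 2)).tm < t')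
    (h2' : t' - (W'.dat (1 / 2)).tm ≤ 1 / (2 ^ (2 * W'.m) - 1)) :
    (W.dat (1 / 2)).tm = (W'.dat (1 / 2)).tm + k := by
  obtain ⟨a, ha⟩ := per_V h
  obtain ⟨a', ha'⟩ := per_V h'
  have hm0 := ok_m_pos h
  rw [← hm] at h2' ha'
  have hA : (1 : ℝ) < 2 ^ (2 * W.m) := one_lt_pow₀ (by norm_num) (by omega)
  obtain ⟨A, hAd⟩ : ∃ A : ℝ, A = 2 ^ (2 * W.m) - 1 := ⟨_, rfl⟩
  have hA0 : 0 < A := by linarith
  have hAi : ((2 ^ (2 * W.m) - 1 : ℤ) : ℝ) = A := by rw [hAd]; push_cast; ring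
  rw [← hAd, le_div_iff₀ hA0] at h2 h2'
  set u := (W.dat (1 / 2)).tm with hu
  set u' := (W'.dat (1 / 2)).tm with hu'
  have e1 : A * u = a := by rw [hAd, ← ha]; ring
  have e2 : A * u' = a' := by rw [hAd, ← ha']; ring
  have h3 : |((a - a' - (2 ^ (2 * W.m) - 1) * k : ℤ) : ℝ)| < 1 := by
    have e3 : ((a - a' - (2 ^ (2 * W.m) - 1) * k : ℤ) : ℝ) = A * (u - u' - k) := by
      rw [Int.cast_sub, Int.cast_sub, Int.cast_mul, hAi, ← e1, ← e2]; ring
    rw [e3, abs_lt]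
    constructor <;> nlinarith
  have h4 : |(a - a' - (2 ^ (2 * W.m) - 1) * k : ℤ)| < 1 := by exact_mod_cast h3
  rw [Int.abs_lt_one_iff] at h4
  have h5 : A * (u - u' - k) = 0 := by
    have e3 : ((a - a' - (2 ^ (2 * W.m) - 1) * k : ℤ) : ℝ) = A * (u - u' - k) := by
      rw [Int.cast_sub, Int.cast_sub, Int.cast_mul, hAi, ← e1, ← e2]; ring
    rw [← e3, h4, Int.cast_zero]
  rcases mul_eq_zero.1 h5 with h6 | h6
  · exact absurd h6 hA0.ne'
  · linarith

end Z54

open Z54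

end Pool.Agent.Work.MLC.Shp
end

section
set_option autoImplicit false

/-! # The limb pieces of all components with exponent five (helper57) -/

namespace Pool.Agent.Work.MLC.Pri

/-- **all components**, exponent five -/
theorem rootPieceE_all : RootPiece fun n => 1 / ((8 * 10 ^ 11) * n ^ 5) :=
  rootPieceE_of_repE fun N _ => PriPer.repE54 N

end Pool.Agent.Work.MLC.Pri
end

section
set_option autoImplicit false

/-! # The final statements, all hyperbolic components, exponent 5 (helper6) -/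

namespace Pool.Agent.Work.MLC

open N62a1eb23 Set Filter Topology Metric

theorem rootPiece5 : RootPiece fun n => 1 / ((8 * 10 ^ 11) * n ^ 5) := Pri.rootPieceE_all

theorem res31_limbBound : ∀ (n p q : ℕ) (r b : ℂ), 0 < n → 0 < p → p < q →
    Nat.Coprime p q → (fun z : ℂ => z ^ 2 + r)^[n] b = b →
    deriv ((fun z : ℂ => z ^ 2 + r)^[n]) b = Complex.exp (2 * Real.pi * (p / q) * Complex.I) →
    (∀ z ∈ mandelbrotSet \ connectedComponentIn (mandelbrotSet \ {r}) 0,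
      dist z r ≤ 50 * (n ^ 2 * q / (min (p : ℝ) (q - p)) ^ 2) ∧
      dist z r ≤ 2 * 10 ^ 27 * (n ^ 12 / q)) ∧
    (6 * (n : ℝ) ^ 2 * q ≤ (min (p : ℝ) (q - p)) ^ 2 ∨ 10 ^ 27 * (n : ℝ) ^ 12 ≤ q →
      IsCompact (mandelbrotSet \ connectedComponentIn (mandelbrotSet \ {r}) 0) ∧
      IsConnected (mandelbrotSet \ connectedComponentIn (mandelbrotSet \ {r}) 0) ∧
      r ∈ closure ((mandelbrotSet \ connectedComponentIn (mandelbrotSet \ {r}) 0) ∩
        interior mandelbrotSet)) :=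
  resG_limbBound (k := 5) (A := 12) rfl (by norm_num) (by norm_num) (by norm_num) rootPiece5

theorem res31_localConn : ∃ S ⊆ frontier mandelbrotSet,
    (∀ c₀ : ℂ, c₀ ∈ S ↔ c₀ ∈ mandelbrotSet ∧ ∀ N : ℕ, ∃ (n p q : ℕ) (r b : ℂ), N ≤ n ∧
      0 < n ∧ 0 < p ∧ p < q ∧ Nat.Coprime p q ∧ (fun z : ℂ => z ^ 2 + r)^[n] b = b ∧
      deriv ((fun z : ℂ => z ^ 2 + r)^[n]) b = Complex.exp (2 * Real.pi * (p / q) * Complex.I) ∧
      c₀ ≠ r ∧ c₀ ∉ connectedComponentIn (mandelbrotSet \ {r}) 0 ∧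
      (16 * Real.log 2 * (n : ℝ) ^ 2 * q ≤ (min (p : ℝ) (q - p)) ^ 2 ∨
        10 ^ 27 * (n : ℝ) ^ 12 ≤ q)) ∧
    (∃ G ⊆ S, IsGδ G ∧ frontier mandelbrotSet ⊆ closure G) ∧
    (∀ U : Set ℂ, IsOpen U → (U ∩ frontier mandelbrotSet).Nonempty → ¬ (S ∩ U).Countable) ∧
    ∀ c₀ ∈ S, ∀ U ∈ 𝓝 c₀, ∃ r : ℂ, ∃ V ⊆ U,
      V = mandelbrotSet \ connectedComponentIn (mandelbrotSet \ {r}) 0 ∧ IsCompact V ∧
      IsConnected V ∧ V ∈ 𝓝[mandelbrotSet] c₀ :=
  resG_localConn (C₁ := 2 * 10 ^ 27) (k := 5) (A := 12) rfl (by norm_num) (by norm_num) (by norm_num) rootPiece5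

end Pool.Agent.Work.MLC
end

section
set_option autoImplicit false

/-! # Theorem Cap, stage B: the estimate of a piece with two arcs (helper26) -/

namespace Pool.Agent.Work.MLC.Cap

open Filter Topology Metric Set Complex MeasureTheory
open Pool.Agent.Work.MLC.Sat Pool.Agent.Work.MLC.Cnt
open Pool.Agent.Work.MLC.Shp (lg RayE Ray Sc Two)
open scoped ENNReal

lemma meas_Sc (e D H : ℝ) : MeasurableSet (Sc e D H) := meas_RS e D H

lemma bet_eq (N g : ℝ) : Shp.bet N g = bet N g := rfl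

lemma bet_anti {N N' g : ℝ} (hN : 0 < N) (h : N ≤ N') : bet N' g ≤ bet N g := by
  unfold bet
  refine Real.rpow_le_rpow (le_trans zero_le_one (le_max_left _ _)) ?_ (by norm_num)
  rcases le_total (Real.logb 2 (1 / g)) 0 with h1 | h1
  · have h2 : Real.logb 2 (1 / g) / N' ≤ 0 := div_nonpos_of_nonpos_of_nonneg h1 (hN.le.trans h)
    rw [max_eq_left (by linarith)]
    exact le_max_left _ _
  · exact max_le_max le_rfl (div_le_div_of_nonneg_left h1 hN h)

/-- comparison of the roof energies -/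
lemma roofE_le {e s t ℓ : ℝ} (hℓ : 0 < ℓ) (hlg : 1 ≤ lg ℓ) (h1 : e ≤ s) (h2 : t ≤ e + ℓ) :
    en (Rf s t ℓ) ≤ RayE e ℓ := by
  unfold en RayE Shp.Ray
  have hsub : Rf s t ℓ ⊆ Sc e (ℓ ^ (5 / 4 : ℝ)) ℓ := by
    rintro z ⟨a1, a2, a3, a4⟩
    have : 0 < ℓ ^ (5 / 4 : ℝ) := by positivity
    refine ⟨by linarith, a2.le, ?_⟩
    rw [abs_le]
    constructor <;> linarith
  refine le_trans ?_ (lintegral_mono_set hsub)
  refine setLIntegral_mono' (meas_Rf _ _ _) fun z hz => ?_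
  refine ENNReal.ofReal_le_ofReal ?_
  rw [bet_eq]
  have hb : bet (16 * lg ℓ) z.re = 1 := by
    unfold bet
    rw [max_eq_left, Real.one_rpow]
    rw [div_le_one (by positivity)]
    have h4 : ℓ / 2 ≤ z.re := hz.1.le
    have h5 := lam_anti (by positivity) h4
    have h6 : lam (ℓ / 2) = lg ℓ + 1 := by
      unfold lam lg
      rw [one_div_div, one_div, Real.logb_div (by norm_num) hℓ.ne', Real.logb_inv,
        Real.logb_self_eq_one (by norm_num)]
      ring
    have h7 : Real.logb 2 (1 / z.re) = lam z.re := rfl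
    rw [h7]
    linarith
  rw [hb, div_one]

end Pool.Agent.Work.MLC.Cap
end

section
set_option autoImplicit false

/-! # Theorem CAP: the angles of nested satellites are infinitely renormalizable (helper24)

* `wake_of_ca`: a characteristic arc is a wake.
* `Wake.near`: the itinerary of the wake forces the returns of a point to be next to the ends.
* `ca_step`: the copy of the inner wake is in the copy of the outer wake.
* `infRen_of_chain`: the angles in a chain of arcs of satellites are infinitely renormalizable. -/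

namespace Pool.Agent.Work.MLC.Shp

open Filter Topology Metric Set
open Pool.Agent.Work.MLC.Circ Pool.Agent.Work.MLC.Cnt CircleDeg1Lift

variable {m : ℕ} {α β : ℝ}

/-! ### strict monotonicity at compatible points -/

lemma tdbl_lt {s x : ℝ} {k : ℤ} (h1 : s / 2 + k < x) (h2 : x < s / 2 + k + 1 / 2) (y : ℝ) :
    (x < y → tdbl s x < tdbl s y) ∧ (y < x → tdbl s y < tdbl s x) := by
  have e := tdbl_lin k h1.le h2.le
  constructor
  · intro h
    rcases le_total y (s / 2 + k + 1 / 2) with h3 | h3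
    · rw [e, tdbl_lin k (by linarith) h3]; linarith
    · have := (tdbl s).monotone h3
      rw [tdbl_lin k (by linarith) le_rfl] at this
      rw [e]; linarith
  · intro h
    rcases le_total (s / 2 + k) y with h3 | h3
    · rw [e, tdbl_lin k h3 (by linarith)]; linarith
    · have := (tdbl s).monotone h3
      rw [tdbl_lin k le_rfl (by linarith)] at this
      rw [e]; linarith

lemma gw_lt {w : ℕ → ℤ} {θ x : ℝ} {n : ℕ} (h : ∀ i < n, InHalfO (θ + w i) (2 ^ i * x)) (y : ℝ) :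
    (x < y → gw w θ n x < gw w θ n y) ∧ (y < x → gw w θ n y < gw w θ n x) := by
  induction n with
  | zero => exact ⟨fun h => h, fun h => h⟩
  | succ n ih =>
    obtain ⟨i1, i2⟩ := ih fun i hi => h i (by omega)
    obtain ⟨M, hM⟩ := gw_lin w θ x n fun i hi => by
      obtain ⟨k, k1, k2⟩ := h i (by omega)
      exact ⟨k, k1.le, k2.le⟩
    obtain ⟨k, k1, k2⟩ := h n (by omega)
    rw [gw_succ_apply, gw_succ_apply]
    have h3 := tdbl_lt (s := θ + w n) (x := gw w θ n x) (k := k - M)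
      (by rw [hM]; push_cast; linarith) (by rw [hM]; push_cast; linarith) (gw w θ n y)
    exact ⟨fun hxy => h3.1 (i1 hxy), fun hxy => h3.2 (i2 hxy)⟩

/-! ### the return map of a wake -/

lemma closed_half {w z : ℤ} {θ x : ℝ} (hw : w = z % 2) (h1 : θ + z ≤ 2 * x)
    (h2 : 2 * x ≤ θ + z + 1) :
    (θ + w) / 2 + ((z / 2 : ℤ) : ℝ) ≤ x ∧ x ≤ (θ + w) / 2 + ((z / 2 : ℤ) : ℝ) + 1 / 2 := by
  have e : w + 2 * (z / 2) = z := by omega
  have e' : (w : ℝ) + 2 * ((z / 2 : ℤ) : ℝ) = z := by exact_mod_cast e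
  constructor <;> linarith

/-- the letters before the last one, explicit indices -/
lemma Wake.mid2 (h : Wake m α β) {r : ℕ} (hr : r + 1 < m) : ∃ κ κ' : ℤ, ∀ θ δ : ℝ, α < θ → θ < β →
    0 ≤ δ → δ * 2 ^ m ≤ β - α →
    ((θ + wL α r) / 2 + κ ≤ 2 ^ r * (α + δ) ∧ 2 ^ r * (α + δ) ≤ (θ + wL α r) / 2 + κ + 1 / 2) ∧
    ((θ + wL α r) / 2 + κ' ≤ 2 ^ r * (β - δ) ∧
      2 ^ r * (β - δ) ≤ (θ + wL α r) / 2 + κ' + 1 / 2) := by
  obtain ⟨n, n', e1, e2, e3, e4, l, hl⟩ := h.side_int r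
  have hab := h.lt
  have hne : 2 ^ (r + 1) * α - α ≠ ((n + 1 : ℤ) : ℝ) := fun hcon => by
    have := Nat.le_of_dvd (by omega) (h.dvd.1 ⟨_, hcon⟩)
    omega
  have hfl : ⌊(2 : ℝ) ^ (r + 1) * α - α⌋ = n := by
    rw [Int.floor_eq_iff]
    refine ⟨by linarith, lt_of_le_of_ne e2 fun hcon => hne ?_⟩
    push_cast; exact hcon
  have hw : wL α r = n % 2 := by unfold wL; rw [hfl]
  refine ⟨n / 2, n' / 2, fun θ δ h1 h2 h0 hδm => ?_⟩
  have hδ : 2 ^ (r + 1) * δ ≤ (β - α) / 2 := by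
    have f1 : (2 : ℝ) ^ (r + 1) * 2 ≤ 2 ^ m := by
      rw [← pow_succ]; exact pow_le_pow_right₀ (by norm_num) (by omega)
    nlinarith
  have hpr : ∀ x : ℝ, (2 : ℝ) * (2 ^ r * x) = 2 ^ (r + 1) * x := fun x => by rw [pow_succ]; ring
  have hδ0 : 0 ≤ 2 ^ (r + 1) * δ := by positivity
  constructor
  · have h3 := h.win (j := r + 1) (by omega) (by omega) h0 hδm (-(n + 1))
    rw [not_and_or] at h3
    push_cast at h3
    have e5 : (2 : ℝ) ^ (r + 1) * (α + δ) = 2 ^ (r + 1) * α + 2 ^ (r + 1) * δ := by ring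
    have h4 : (2 : ℝ) ^ (r + 1) * (α + δ) + -((n : ℝ) + 1) ≤ α := by
      rcases h3 with h3 | h3
      · exact not_lt.1 h3
      · exfalso; apply h3; rw [e5]; linarith
    refine closed_half hw ?_ ?_
    · rw [hpr, e5]; linarith
    · rw [hpr]; linarith
  · have h3 := h.win' (j := r + 1) (by omega) (by omega) h0 hδm (-n')
    rw [not_and_or] at h3
    push_cast at h3
    have e5 : (2 : ℝ) ^ (r + 1) * (β - δ) = 2 ^ (r + 1) * β - 2 ^ (r + 1) * δ := by ring
    have h4 : β ≤ (2 : ℝ) ^ (r + 1) * (β - δ) + -(n' : ℝ) := by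
      rcases h3 with h3 | h3
      · exfalso; apply h3; rw [e5]; linarith
      · exact not_lt.1 h3
    refine closed_half (z := n') (by rw [hw, hl]; omega) ?_ ?_
    · rw [hpr]; linarith
    · rw [hpr, e5]; linarith

/-- the values of the return map next to the ends of the wake -/
theorem Wake.values (h : Wake m α β) (hm : 2 ≤ m) {θ : ℝ} (h1 : α < θ) (h2 : θ < β) :
    ∃ κ : ℤ, gw (wL α) θ m α = θ + κ ∧ gw (wL α) θ m (α + (β - α) / 2 ^ m) = β + κ ∧
      gw (wL α) θ m β = θ + κ + 1 ∧ gw (wL α) θ m (β - (β - α) / 2 ^ m) = α + κ + 1 := by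
  have hab := h.lt
  have h0 := h.nonneg
  have hb1 := h.le_one
  obtain ⟨a, ha'⟩ := h.per
  obtain ⟨b, hb'⟩ := h.per'
  have ha : (2 : ℝ) ^ m * α = α + a := by linarith
  have hb : (2 : ℝ) ^ m * β = β + b := by linarith
  have hm1 : m - 1 + 1 = m := by omega
  have hp : (0 : ℝ) < 2 ^ m := by positivity
  have hpm : (2 : ℝ) ^ m = 2 * 2 ^ (m - 1) := by
    conv_lhs => rw [← hm1]
    rw [pow_succ]; ring
  have hkk : ∀ r, ∃ κ κ' : ℤ, r + 1 < m → ∀ θ δ : ℝ, α < θ → θ < β → 0 ≤ δ → δ * 2 ^ m ≤ β - α →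
      ((θ + wL α r) / 2 + κ ≤ 2 ^ r * (α + δ) ∧ 2 ^ r * (α + δ) ≤ (θ + wL α r) / 2 + κ + 1 / 2) ∧
      ((θ + wL α r) / 2 + κ' ≤ 2 ^ r * (β - δ) ∧
        2 ^ r * (β - δ) ≤ (θ + wL α r) / 2 + κ' + 1 / 2) := by
    intro r
    by_cases hr : r + 1 < m
    · obtain ⟨κ, κ', hκ⟩ := h.mid2 hr
      exact ⟨κ, κ', fun _ => hκ⟩
    · exact ⟨0, 0, fun hcon => absurd hcon hr⟩
  choose κ κ' hκ using hkk
  set K : ℤ := ∑ i ∈ Finset.range (m - 1), κ i with hK
  set K' : ℤ := ∑ i ∈ Finset.range (m - 1), κ' i with hK'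
  have hA : ∀ δ : ℝ, 0 ≤ δ → δ * 2 ^ m ≤ β - α →
      gw (wL α) θ (m - 1) (α + δ) = 2 ^ (m - 1) * (α + δ) - (K : ℝ) := fun δ d0 d1 =>
    gw_expl _ θ _ κ (m - 1) fun i hi => (hκ i (by omega) θ δ h1 h2 d0 d1).1
  have hB : ∀ δ : ℝ, 0 ≤ δ → δ * 2 ^ m ≤ β - α →
      gw (wL α) θ (m - 1) (β - δ) = 2 ^ (m - 1) * (β - δ) - (K' : ℝ) := fun δ d0 d1 =>
    gw_expl _ θ _ κ' (m - 1) fun i hi => (hκ i (by omega) θ δ h1 h2 d0 d1).2
  have wa : wL α (m - 1) = a % 2 := by
    unfold wL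
    rw [hm1, show (2 : ℝ) ^ m * α - α = a by linarith, Int.floor_intCast]
  have wb : wL α (m - 1) = (b - 1) % 2 := by
    rw [h.wL_eq]; unfold wR
    rw [hm1, show (2 : ℝ) ^ m * β - β = b by linarith, Int.ceil_intCast]
  have ea : wL α (m - 1) + 2 * (a / 2) = a := by omega
  have eb : wL α (m - 1) + 2 * ((b - 1) / 2) = b - 1 := by omega
  have ea' : (wL α (m - 1) : ℝ) + 2 * ((a / 2 : ℤ) : ℝ) = a := by exact_mod_cast ea
  have eb' : (wL α (m - 1) : ℝ) + 2 * (((b - 1) / 2 : ℤ) : ℝ) = b - 1 := by exact_mod_cast eb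
  have hsucc : ∀ x : ℝ, gw (wL α) θ m x = tdbl (θ + wL α (m - 1)) (gw (wL α) θ (m - 1) x) :=
    fun x => by
      conv_lhs => rw [← hm1]
      rfl
  have hδ0 : 0 ≤ (β - α) / 2 ^ m := div_nonneg (by linarith) hp.le
  have hδ1 : (β - α) / 2 ^ m * 2 ^ m ≤ β - α := by rw [div_mul_cancel₀ _ hp.ne']
  have hδ2 : (2 : ℝ) * 2 ^ (m - 1) * ((β - α) / 2 ^ m) = β - α := by
    rw [← hpm, mul_div_cancel₀ _ hp.ne']
  rw [hpm] at ha hb
  have vA0 : gw (wL α) θ m α = θ + ((a - K - a / 2 : ℤ) : ℝ) := by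
    have h3 := hA 0 le_rfl (by rw [zero_mul]; linarith)
    rw [add_zero] at h3
    rw [hsucc, h3, tdbl_flat (a / 2 - K - 1) (by push_cast; linarith) (by push_cast; linarith)]
    push_cast; linarith
  have vA1 : gw (wL α) θ m (α + (β - α) / 2 ^ m) = β + ((a - K - a / 2 : ℤ) : ℝ) := by
    have e : (2 : ℝ) ^ (m - 1) * (α + (β - α) / 2 ^ m) = (β + a) / 2 := by
      linarith
    rw [hsucc, hA _ hδ0 hδ1, e, tdbl_lin (a / 2 - K) (by push_cast; linarith)
      (by push_cast; linarith)]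
    push_cast; linarith
  have vB0 : gw (wL α) θ m β = θ + ((b - K' - (b - 1) / 2 : ℤ) : ℝ) := by
    have h3 := hB 0 le_rfl (by rw [zero_mul]; linarith)
    rw [sub_zero] at h3
    rw [hsucc, h3, tdbl_flat ((b - 1) / 2 - K') (by push_cast; linarith) (by push_cast; linarith)]
    push_cast; linarith
  have vB1 : gw (wL α) θ m (β - (β - α) / 2 ^ m) = α + ((b - K' - (b - 1) / 2 : ℤ) : ℝ) := by
    have e : (2 : ℝ) ^ (m - 1) * (β - (β - α) / 2 ^ m) = (α + b) / 2 := by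
      linarith
    rw [hsucc, hB _ hδ0 hδ1, e, tdbl_lin ((b - 1) / 2 - K') (by push_cast; linarith)
      (by push_cast; linarith)]
    push_cast; linarith
  obtain ⟨k, -, -, -, hs⟩ := h.strip hm
  obtain ⟨s1, s2⟩ := hs θ h1 h2
  have s2' : nu (wL α) m θ < ((k + 1 : ℤ) : ℝ) := by push_cast; exact s2
  have t1 := lt_map_of_int_lt_translationNumber (f := gw (wL α) θ m) s1 α
  have t2 := map_lt_of_translationNumber_lt_int (f := gw (wL α) θ m) s2' α
  have t3 := lt_map_of_int_lt_translationNumber (f := gw (wL α) θ m) s1 β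
  have t4 := map_lt_of_translationNumber_lt_int (f := gw (wL α) θ m) s2' β
  rw [vA0] at t1 t2
  rw [vB0] at t3 t4
  push_cast at t1 t2 t3 t4
  have f1 : ((a - K - a / 2 : ℤ) : ℝ) < ((k + 1 : ℤ) : ℝ) := by push_cast; linarith
  have f2 : ((k - 1 : ℤ) : ℝ) < ((a - K - a / 2 : ℤ) : ℝ) := by push_cast; linarith
  have f3 : ((b - K' - (b - 1) / 2 : ℤ) : ℝ) < ((k + 2 : ℤ) : ℝ) := by push_cast; linarith
  have f4 : ((k : ℤ) : ℝ) < ((b - K' - (b - 1) / 2 : ℤ) : ℝ) := by push_cast; linarith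
  have g1 := cast_lt_of f1
  have g2 := cast_lt_of f2
  have g3 := cast_lt_of f3
  have g4 := cast_lt_of f4
  have e1 : a - K - a / 2 = k := by omega
  have e2 : b - K' - (b - 1) / 2 = k + 1 := by omega
  rw [e1] at vA0 vA1
  rw [e2] at vB0 vB1
  refine ⟨k, vA0, vA1, ?_, ?_⟩
  · rw [vB0]; push_cast; ring
  · rw [vB1]; push_cast; ring

/-- **the returns of a point with the itinerary of the wake are next to the ends** -/
theorem Wake.near (h : Wake m α β) (hm : 2 ≤ m) {θ x : ℝ} (h1 : α < θ) (h2 : θ < β)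
    (hx : Circ.Compat (wL α) θ x) (i : ℕ) : ∃ l : ℤ, α < 2 ^ (m * i) * x - l ∧
      2 ^ (m * i) * x - l < β ∧ (2 ^ (m * i) * x - l < α + (β - α) / 2 ^ m ∨
        β - (β - α) / 2 ^ m < 2 ^ (m * i) * x - l) := by
  obtain ⟨κ, vA0, vA1, vB0, vB1⟩ := h.values hm h1 h2
  have hab := h.lt
  have hα0 : 0 < α := by
    refine lt_of_le_of_ne h.nonneg fun hcon => ?_
    exact h.exact 1 one_pos (by omega) ⟨0, by rw [← hcon]; simp⟩
  have hb1 := h.le_one
  have hper : ∀ i j, wL α (j + m * i) = wL α j := by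
    intro i
    induction i with
    | zero => intro j; simp
    | succ i ih => intro j; rw [show j + m * (i + 1) = j + m * i + m by ring, h.wL_add, ih]
  -- all points of the orbit are compatible
  have hcomp : ∀ (i : ℕ) (l : ℤ), Circ.Compat (wL α) θ (2 ^ (m * i) * x - l) := by
    intro i l j
    obtain ⟨k, k1, k2⟩ := hx (j + m * i)
    rw [hper] at k1 k2
    have e : (2 : ℝ) ^ j * (2 ^ (m * i) * x - l) = 2 ^ (j + m * i) * x - 2 ^ j * l := by
      rw [pow_add]; ring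
    refine ⟨k - 2 ^ j * l, ?_, ?_⟩
    · rw [e]; push_cast; linarith
    · rw [e]; push_cast; linarith
  -- claim 1
  have claim : ∀ i : ℕ, ∃ l : ℤ, α < 2 ^ (m * i) * x - l ∧ 2 ^ (m * i) * x - l < β := by
    intro i
    set y₀ : ℝ := 2 ^ (m * i) * x with hy₀
    set l : ℤ := ⌊y₀ - (β - 1)⌋ with hl
    have f1 := Int.floor_le (y₀ - (β - 1))
    have f2 := Int.lt_floor_add_one (y₀ - (β - 1))
    rw [← hl] at f1 f2
    refine ⟨l, ?_, by linarith⟩
    by_contra hcon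
    push Not at hcon
    have hc := hcomp i l
    rw [← hy₀] at hc
    have hlt := gw_lt (n := m) (w := wL α) (θ := θ) (x := y₀ - l) fun j _ => hc j
    have hb2 : gw (wL α) θ m (β - 1) = θ + κ := by
      have e := map_add_one (gw (wL α) θ m) (β - 1)
      rw [sub_add_cancel, vB0] at e
      linarith
    have g1 : gw (wL α) θ m (β - 1) ≤ gw (wL α) θ m (y₀ - l) :=
      (gw (wL α) θ m).monotone (by linarith)
    have g2 : gw (wL α) θ m (y₀ - l) ≤ gw (wL α) θ m α := (gw (wL α) θ m).monotone hcon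
    rcases hcon.lt_or_eq with h3 | h3
    · have := (hlt α).1 h3
      linarith
    · have := (hlt (β - 1)).2 (by linarith)
      rw [h3] at this
      linarith
  obtain ⟨l, l1, l2⟩ := claim i
  obtain ⟨l', l3, l4⟩ := claim (i + 1)
  refine ⟨l, l1, l2, ?_⟩
  set y : ℝ := 2 ^ (m * i) * x - l with hy
  obtain ⟨M, hM⟩ := gw_lin (wL α) θ y m fun j _ => by
    obtain ⟨k, k1, k2⟩ := hcomp i l j
    exact ⟨k, k1.le, k2.le⟩
  -- the value is an orbit point
  have e1 : gw (wL α) θ m y = (2 ^ (m * (i + 1)) * x - l') +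
      ((l' - 2 ^ m * l - M : ℤ) : ℝ) := by
    rw [hM, hy, Nat.mul_succ, pow_add]
    push_cast; ring
  set c : ℝ := 2 ^ (m * (i + 1)) * x - l' with hc
  set z : ℤ := l' - 2 ^ m * l - M with hz
  have g1 : gw (wL α) θ m α ≤ gw (wL α) θ m y := (gw (wL α) θ m).monotone l1.le
  have g2 : gw (wL α) θ m y ≤ gw (wL α) θ m β := (gw (wL α) θ m).monotone l2.le
  rw [vA0, e1] at g1
  rw [vB0, e1] at g2
  have f1 : ((κ - 1 : ℤ) : ℝ) < ((z : ℤ) : ℝ) := by push_cast; linarith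
  have f2 : ((z : ℤ) : ℝ) < ((κ + 2 : ℤ) : ℝ) := by push_cast; linarith
  have f3 := cast_lt_of f1
  have f4 := cast_lt_of f2
  rcases (by omega : z = κ ∨ z = κ + 1) with h3 | h3
  · left
    by_contra hcon
    push Not at hcon
    have g3 := (gw (wL α) θ m).monotone hcon
    rw [vA1, e1, h3] at g3
    linarith
  · right
    by_contra hcon
    push Not at hcon
    have g3 := (gw (wL α) θ m).monotone hcon
    rw [vB1, e1, h3] at g3
    push_cast at g3
    linarith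

end Pool.Agent.Work.MLC.Shp
end

section
set_option autoImplicit false

/-! # Theorem CAP: chains of satellites (helper24) -/

namespace Pool.Agent.Work.MLC.Shp

open Filter Topology Metric Set
open Pool.Agent.Work.MLC.Circ Pool.Agent.Work.MLC.Cnt CircleDeg1Lift

variable {N q q' : ℕ} {w w' : ℕ → ℤ} {s t s' t' : ℝ}

/-- a characteristic arc is a wake -/
theorem wake_of_ca (h : CA N q w s t) (h0 : 0 ≤ s) (h1 : t ≤ 1) : Wake (N * q) s t where
  pos := h.npos
  nonneg := h0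
  lt := h.lt
  le_one := h1
  per := by
    obtain ⟨a, ha⟩ := h.per_s
    exact ⟨a, by linarith⟩
  per' := by
    obtain ⟨a, ha⟩ := h.per_t
    exact ⟨a, by linarith⟩
  exact := by
    rintro d hd hdn ⟨a, ha⟩
    have := Nat.le_of_dvd hd (h.dvd_of_per (x := s) ⟨0, 0, by simp⟩ (m := a) (by linarith))
    omega
  exact' := by
    rintro d hd hdn ⟨a, ha⟩
    have := Nat.le_of_dvd hd (h.dvd_of_per (x := t) h.mem (m := a) (by linarith))
    omega
  side := by
    intro θ h1 h2 i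
    obtain ⟨k, k1, k2⟩ := h.compat θ h1 h2 i
    obtain ⟨l, l1, l2⟩ := h.compat_t h1 h2 i
    exact ⟨w i, k, l, k1, k2, l1, l2⟩

end Pool.Agent.Work.MLC.Shp
end

section
set_option autoImplicit false

/-! # One-ended separation of the labels (helper54)

Input `NB` (NotBoth73): a left end of an exact label with exact lower word, `n ≥ 2`, is not a right
end of the lower word. Output: `Pri.SEP (fun n => 5 * n ^ 2)`, `Pri.LEP`. -/

namespace Pool.Agent.Work.MLC

open Set Circ CircleDeg1Lift Filter Topology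

/-- the statement of `NotBoth73` used here -/
def NB : Prop := ∀ (n : ℕ) (w : ℕ → ℤ) (t : ℝ) (k M : ℤ), LE n w t k → 2 ≤ n →
  Word n (flw n w) → gw (flw n w) t n t = t + M →
  ∃ x, t < x ∧ x < t + 1 ∧ x + M ≤ gw (flw n w) t n x

/-- the characteristic arc is short -/
theorem CA.short {N q : ℕ} {w : ℕ → ℤ} {s t : ℝ} (h : CA N q w s t) : t ≤ s + 1 / 3 := by
  have hst := h.lt
  have hts := h.lt'
  have h1 : s < (s + t) / 2 := by linarith
  have h2 : (s + t) / 2 < t := by linarith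
  have hn := h.npos
  have hw : ∀ i, w (i + N * q) = w i := fun i => word_mod h.word.2.1 i q
  have hint : ∀ l : ℤ, t - s ≠ l := by
    intro l hl
    have f1 : ((0 : ℤ) : ℝ) < l := by rw [← hl]; push_cast; linarith
    have f2 : (l : ℝ) < ((1 : ℤ) : ℝ) := by rw [← hl]; push_cast; linarith
    have f3 : 0 < l := by exact_mod_cast f1
    have f4 : l < 1 := by exact_mod_cast f2
    omega
  have hmem_s : ∀ (a : ℕ) (l : ℤ), 2 ^ a * s + l ∈ AA N s a := fun a l => AA_shift (mem_AA N s a) l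
  have hmem_t : ∀ (a : ℕ) (l : ℤ), 2 ^ a * t + l ∈ AA N s a := fun a l => by
    rw [← h.AA_t]; exact AA_shift (mem_AA N t a) l
  have key : ∀ (a : ℕ) (α β : ℝ), α ∈ AA N s a → β ∈ AA N s a → α < (s + t) / 2 →
      (s + t) / 2 < β → β - α ≤ 1 / 3 → t ≤ s + 1 / 3 := by
    intro a α β hα hβ h3 h4 h5
    have h6 : α ≤ s := by
      by_contra hcon
      push Not at hcon
      exact h.nopt a α hα hcon (by linarith)
    have h7 : t ≤ β := by
      by_contra hcon
      push Not at hcon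
      exact h.nopt a β hβ (by linarith) hcon
    linarith
  rcases short_chord hn (h.compat _ h1 h2) (h.compat_t h1 h2) h.per_s h.per_t hint with
    ⟨a, l, m, h3, h4, h5, -⟩ | ⟨a, l, m, h3, h4, h5, -⟩
  · exact key a _ _ (hmem_s a l) (hmem_t a m) h3 h4 h5
  · exact key a _ _ (hmem_t a l) (hmem_s a m) h3 h4 h5

end Pool.Agent.Work.MLC
end

section
set_option autoImplicit false

/-! # One-ended separation, unconditional (helper54) -/

namespace Pool.Agent.Work.MLC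

open Set Circ CircleDeg1Lift Filter Topology

/-- `NB` from `Circ.not_both` -/
theorem nb : NB := by
  intro n w t k M h hn2 _ hM
  have hn := h.pos
  refine not_both (v := w) (w := flw n w) (N := k) hn2 ?_ ?_ ?_ ?_ h.fix hM ?_
  · obtain ⟨a, ha⟩ := h.per
    exact ⟨a, by linarith⟩
  · intro i hi
    obtain ⟨m, hm⟩ := gw_lin w t t i fun j _ => by
      obtain ⟨l, h1, h2⟩ := h.ho j
      exact ⟨l, h1, h2.le⟩
    obtain ⟨l, h1, h2⟩ := h.ho i
    have h3 := lt_of_le_of_ne h1 (Ne.symm (h.not_start (by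
      rw [Nat.mod_eq_of_lt hi]; omega) l))
    rw [hm]
    refine ⟨l - m, ?_, ?_⟩ <;> push_cast <;> linarith
  · intro i hi
    exact flw_of_lt w hi
  · rw [flw_last w (show n - 1 + 1 = n by omega)]
    exact ⟨-w (n - 1), by ring⟩
  · intro x h1 h2
    refine lt_of_le_of_ne (h.above x) fun he => ?_
    obtain ⟨z, hz⟩ := h.uniq x he.symm
    have f1 : ((0 : ℤ) : ℝ) < z := by push_cast; linarith
    have f2 : (z : ℝ) < ((1 : ℤ) : ℝ) := by push_cast; linarith
    have f3 : 0 < z := by exact_mod_cast f1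
    have f4 : z < 1 := by exact_mod_cast f2
    omega

end Pool.Agent.Work.MLC
end

section
set_option autoImplicit false

/-! # Theorem V: the measure form of the sum over the limbs (helper6)

For every measure `μ`, for almost every `c` with `∑ 1 / (N r * μ (L r)) = ∞` (the sum over the roots
`r` with `c` in the limb `L r`), the Mandelbrot set is locally connected at `c`. -/

namespace Pool.Agent.Work.MLC.Cap

open Filter Topology Metric Set Complex MeasureTheory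
open Pool.Agent.Work.MLC.Sat Pool.Agent.Work.MLC.Cnt
open scoped ENNReal

/-- the measure form of a convergent sum -/
lemma pure_measure {α X : Type} [MeasurableSpace X] [Countable α] (μ : Measure X) (A : α → Set X)
    (hA : ∀ a, MeasurableSet (A a)) (d N : α → ℝ≥0∞) (hN : ∀ a, N a ≠ 0)
    (hs : ∑' a, d a / N a ≠ ⊤) :
    ∀ᵐ x ∂μ, ∀ δ : ℝ≥0∞, δ ≠ 0 → δ ≠ ⊤ → {a | x ∈ A a ∧ d a < δ}.Finite →
      ∑' a : {a // x ∈ A a}, 1 / (N a * μ (A a)) ≠ ⊤ := by
  classical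
  set h : X → ℝ≥0∞ := fun x => ∑' a, (A a).indicator (fun _ => d a / (N a * μ (A a))) x with hh
  have h1 : ∫⁻ x, h x ∂μ ≤ ∑' a, d a / N a := by
    rw [hh]
    simp only
    rw [lintegral_tsum fun a => (measurable_const.indicator (hA a)).aemeasurable]
    refine ENNReal.tsum_le_tsum fun a => ?_
    rw [lintegral_indicator (hA a), lintegral_const, Measure.restrict_apply_univ]
    rcases eq_or_ne (μ (A a)) 0 with h0 | h0
    · rw [h0]; simp
    rcases eq_or_ne (μ (A a)) ⊤ with h2 | h2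
    · rw [h2, ENNReal.mul_top (hN a), ENNReal.div_top, zero_mul]
      exact zero_le
    · rw [ENNReal.div_eq_inv_mul, ENNReal.div_eq_inv_mul,
        ENNReal.mul_inv (Or.inl (hN a)) (Or.inr h0)]
      have h3 : (N a)⁻¹ * (μ (A a))⁻¹ * d a * μ (A a) = (N a)⁻¹ * d a * ((μ (A a))⁻¹ * μ (A a)) := by
        ring
      rw [h3, ENNReal.inv_mul_cancel h0 h2, mul_one]
  have hmeas : Measurable h := Measurable.tsum fun a => measurable_const.indicator (hA a)
  have h2 : ∀ᵐ x ∂μ, h x < ⊤ := ae_lt_top hmeas (ne_top_of_le_ne_top hs h1)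
  have h3 : ∀ᵐ x ∂μ, ∀ a, x ∈ A a → μ (A a) ≠ 0 := by
    rw [ae_all_iff]
    intro a
    rcases eq_or_ne (μ (A a)) 0 with h0 | h0
    · have : ∀ᵐ x ∂μ, x ∉ A a := measure_eq_zero_iff_ae_notMem.1 h0
      filter_upwards [this] with x hx hxa
      exact absurd hxa hx
    · exact Eventually.of_forall fun x _ => h0
  filter_upwards [h2, h3] with x hx hx0 δ hδ hδt hfin
  set f : α → ℝ≥0∞ := fun a => (A a).indicator (fun _ => 1 / (N a * μ (A a))) x with hf
  have h4 : ∑' a : {a // x ∈ A a}, 1 / (N a * μ (A a)) = ∑' a, f a := by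
    have h5 := tsum_subtype {a | x ∈ A a} fun a => 1 / (N a * μ (A a))
    refine (h5.trans (tsum_congr fun a => ?_) :)
    rw [hf]
    by_cases hxa : x ∈ A a
    · simp [indicator, hxa]
    · simp [indicator, hxa]
  have hft : ∀ a, f a ≠ ⊤ := by
    intro a
    rw [hf]
    by_cases hxa : x ∈ A a
    · simp only [indicator_of_mem hxa]
      exact ENNReal.div_ne_top ENNReal.one_ne_top (mul_ne_zero (hN a) (hx0 a hxa))
    · simp only [indicator_of_notMem hxa]
      exact ENNReal.zero_ne_top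
  have hle : ∀ a, f a ≤ (if a ∈ hfin.toFinset then f a else 0) +
      δ⁻¹ * (A a).indicator (fun _ => d a / (N a * μ (A a))) x := by
    intro a
    by_cases haF : a ∈ hfin.toFinset
    · rw [if_pos haF]; exact le_self_add
    · rw [if_neg haF, zero_add, hf]
      by_cases hxa : x ∈ A a
      · simp only [indicator_of_mem hxa]
        have h5 : δ ≤ d a := by
          by_contra hcon
          exact haF (hfin.mem_toFinset.2 ⟨hxa, not_le.1 hcon⟩)
        calc 1 / (N a * μ (A a)) = δ⁻¹ * (δ / (N a * μ (A a))) := by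
              rw [ENNReal.div_eq_inv_mul, ENNReal.div_eq_inv_mul, mul_one, mul_left_comm,
                ENNReal.inv_mul_cancel hδ hδt, mul_one]
          _ ≤ _ := mul_le_mul_right (ENNReal.div_le_div_right h5 _) _
      · simp only [indicator_of_notMem hxa]
        exact zero_le
  rw [h4]
  refine ne_top_of_le_ne_top ?_ (ENNReal.tsum_le_tsum hle)
  rw [ENNReal.tsum_add, ENNReal.tsum_mul_left]
  refine ENNReal.add_ne_top.2 ⟨?_, ENNReal.mul_ne_top (ENNReal.inv_ne_top.2 hδ) hx.ne⟩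
  rw [tsum_eq_sum (s := hfin.toFinset) fun a ha => if_neg ha]
  refine (ENNReal.sum_lt_top.2 fun a ha => ?_).ne
  rw [if_pos ha]
  exact (hft a).lt_top

/-- a root with denominator at least `3`; `N` is the period of the root times the denominator -/
def IsRt (N : ℕ) (r : ℂ) : Prop := ∃ n q : ℕ, 3 ≤ q ∧ IsRoot n q r ∧ N = n * q

/-- the limb -/
def LimS (r : ℂ) : Set ℂ := MM \ connectedComponentIn (MM \ {r}) 0

lemma IsRt.pos {N : ℕ} {r : ℂ} (h : IsRt N r) : 0 < N := by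
  obtain ⟨n, q, hq, ⟨p, b, h1, -⟩, rfl⟩ := h
  exact Nat.mul_pos h1 (by omega)

end Pool.Agent.Work.MLC.Cap
end

section
set_option autoImplicit false

/-! # Random towers, the measure part: the sum over cylinders (helper78)

For a measure on sequences, a sum over prefixes which converges becomes, along almost every
sequence, the convergence of the sum of the terms divided by the measures of the cylinders. -/

namespace Pool.Agent.Work.MLC.Tow

open Filter Topology Metric Set Complex MeasureTheory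
open Pool.Agent.Work.MLC.Sat Pool.Agent.Work.MLC.Cnt Pool.Agent.Work.MLC.Cap
open scoped ENNReal

/-- the prefix of length `k` of a sequence, the most recent entry first -/
def pre {α : Type} (x : ℕ → α) : ℕ → List α
  | 0 => []
  | k + 1 => x k :: pre x k

lemma pre_zero {α : Type} (x : ℕ → α) : pre x 0 = [] := rfl

lemma pre_succ {α : Type} (x : ℕ → α) (k : ℕ) : pre x (k + 1) = x k :: pre x k := rfl

lemma pre_length {α : Type} (x : ℕ → α) (k : ℕ) : (pre x k).length = k := by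
  induction k with
  | zero => rfl
  | succ k ih => rw [pre_succ, List.length_cons, ih]

lemma mem_pre {α : Type} {x : ℕ → α} {k : ℕ} {a : α} (h : a ∈ pre x k) : ∃ i < k, x i = a := by
  induction k with
  | zero => simp [pre_zero] at h
  | succ k ih =>
    rw [pre_succ, List.mem_cons] at h
    rcases h with h | h
    · exact ⟨k, by omega, h.symm⟩
    · obtain ⟨i, hi, h1⟩ := ih h
      exact ⟨i, by omega, h1⟩

lemma pre_eq_iff {α : Type} {x y : ℕ → α} {k : ℕ} : pre x k = pre y k ↔ ∀ i < k, x i = y i := by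
  induction k with
  | zero => simp [pre_zero]
  | succ k ih =>
    rw [pre_succ, pre_succ, List.cons.injEq, ih]
    constructor
    · rintro ⟨h1, h2⟩ i hi
      rcases Nat.lt_succ_iff_lt_or_eq.1 hi with h | rfl
      · exact h2 i h
      · exact h1
    · intro h
      exact ⟨h k (by omega), fun i hi => h i (by omega)⟩

/-- the sequences with the prefix `p` -/
def cyl {α : Type} (p : List α) : Set (ℕ → α) := {x | pre x p.length = p}

lemma mem_cyl {α : Type} {x : ℕ → α} {p : List α} : x ∈ cyl p ↔ pre x p.length = p := Iff.rfl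

lemma cyl_pre {α : Type} (x : ℕ → α) (k : ℕ) : cyl (pre x k) = {y | ∀ i < k, y i = x i} := by
  ext y
  rw [mem_cyl, pre_length, pre_eq_iff]
  rfl

lemma measurableSet_cyl {α : Type} [MeasurableSpace α] [MeasurableSingletonClass α] (p : List α) :
    MeasurableSet (cyl p) := by
  induction p with
  | nil =>
    have h : cyl ([] : List α) = univ := by
      ext x
      rw [mem_cyl]
      simp [pre_zero]
    rw [h]
    exact MeasurableSet.univ
  | cons a l ih =>
    have h : cyl (a :: l) = (fun x : ℕ → α => x l.length) ⁻¹' {a} ∩ cyl l := by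
      ext x
      rw [mem_cyl, List.length_cons, pre_succ, List.cons.injEq]
      rfl
    rw [h]
    exact (measurable_pi_apply _ (measurableSet_singleton a)).inter ih

/-- **the abstract statement**: `G` is a set of prefixes, `d` and `N` are functions of the prefix
with `∑ d / N` finite over `G`; for almost every sequence `x` such that the sum of
`1 / (N * μ (cylinder))` over the prefixes of `x` in `G` is infinite, `d` is arbitrarily small on
these prefixes, infinitely often -/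
theorem pure_tower {α : Type} [Countable α] [MeasurableSpace α] [MeasurableSingletonClass α]
    (μ : Measure (ℕ → α)) (G : Set (List α)) (d N : List α → ℝ≥0∞) (hN : ∀ p ∈ G, N p ≠ 0)
    (hs : ∑' p : G, d p / N p ≠ ⊤) :
    ∀ᵐ x ∂μ, ∑' k : {k : ℕ // pre x k ∈ G}, 1 / (N (pre x k) * μ (cyl (pre x k))) = ⊤ →
      ∀ δ : ℝ≥0∞, δ ≠ 0 → δ ≠ ⊤ → {k | pre x k ∈ G ∧ d (pre x k) < δ}.Infinite := by
  have key := pure_measure μ (fun p : G => cyl (p : List α)) (fun p => measurableSet_cyl _)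
    (fun p => d p) (fun p => N p) (fun p => hN p p.2) hs
  filter_upwards [key] with x hx htop δ hδ hδt
  by_contra hfin
  rw [Set.not_infinite] at hfin
  refine hx δ hδ hδt ?_ ?_
  · have h1 : {a : G | x ∈ cyl (a : List α) ∧ d a < δ} ⊆
        (fun a : G => (a : List α)) ⁻¹' (pre x '' {k | pre x k ∈ G ∧ d (pre x k) < δ}) := by
      rintro ⟨p, hp⟩ ⟨h2, h3⟩
      have h4 : pre x p.length = p := h2
      refine ⟨p.length, ⟨?_, ?_⟩, h4⟩
      · rw [h4]; exact hp
      · rw [h4]; exact h3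
    exact ((hfin.image _).preimage Subtype.val_injective.injOn).subset h1
  · rw [← htop]
    let e : {k : ℕ // pre x k ∈ G} ≃ {a : G // x ∈ cyl (a : List α)} :=
      { toFun := fun k => ⟨⟨pre x k, k.2⟩, by
          show pre x (pre x (k : ℕ)).length = pre x k
          rw [pre_length]⟩
        invFun := fun a => ⟨(a : G).1.length, by
          have h4 : pre x (a : G).1.length = (a : G).1 := a.2
          rw [h4]; exact (a : G).2⟩
        left_inv := fun k => Subtype.ext (pre_length x k)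
        right_inv := fun a => Subtype.ext (Subtype.ext a.2) }
    exact (e.tsum_eq fun a => 1 / (N (a : G) * μ (cyl ((a : G) : List α)))).symm

/-- admissible prefixes -/
def Adm (p : List ℚ) : Prop := ∀ y ∈ p, 0 < y ∧ y < 1

/-- product of the denominators -/
def dens (p : List ℚ) : ℕ := (p.map Rat.den).prod

lemma dens_cons (p : List ℚ) (x : ℚ) : dens (x :: p) = dens p * x.den := by
  simp [dens, mul_comm]

lemma dens_pos (p : List ℚ) : 0 < dens p := by
  induction p with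
  | nil => simp [dens]
  | cons a l ih => rw [dens_cons]; exact Nat.mul_pos ih a.pos

lemma dens_pre (x : ℕ → ℚ) (k : ℕ) : dens (pre x k) = ∏ i ∈ Finset.range k, (x i).den := by
  induction k with
  | zero => simp [dens, pre_zero]
  | succ k ih => rw [pre_succ, dens_cons, ih, Finset.prod_range_succ]

/-- **the sum over cylinders**: `ρ` assigns a root to each nonempty admissible prefix, injectively,
with period the product of the denominators of the earlier entries; along almost every sequence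
with infinite sum the diameters of the limbs are arbitrarily small, infinitely often -/
theorem tower_cyl {C : ℝ} (h : C_limbsum C) (μ : Measure (ℕ → ℚ)) (ρ : List ℚ → ℂ)
    (hroot : ∀ (p : List ℚ) (y : ℚ), Adm (y :: p) → 3 ≤ y.den →
      IsRoot (dens p) y.den (ρ (y :: p)))
    (hinj : ∀ (p p' : List ℚ) (y y' : ℚ), Adm (y :: p) → Adm (y' :: p') →
      ρ (y :: p) = ρ (y' :: p') → y = y' ∧ p = p') :
    ∀ᵐ x ∂μ, (∀ k, 0 < x k ∧ x k < 1) →
      ∑' k, (if 3 ≤ (x k).den then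
        1 / (((∏ i ∈ Finset.range (k + 1), (x i).den : ℕ) : ℝ≥0∞) *
          μ {y | ∀ i < k + 1, y i = x i}) else 0) = ⊤ →
      ∀ ε > 0, {k | 3 ≤ (x k).den ∧ diam (LimS (ρ (pre x (k + 1)))) < ε}.Infinite := by
  classical
  set G : Set (List ℚ) := {p | Adm p ∧ ∃ y p', p = y :: p' ∧ 3 ≤ y.den} with hG
  have hGe : ∀ p ∈ G, ∃ y p', p = y :: p' ∧ 3 ≤ y.den ∧ Adm (y :: p') := by
    rintro p ⟨h1, y, p', rfl, h2⟩
    exact ⟨y, p', rfl, h2, h1⟩
  have hsum : ∑' p : G, ENNReal.ofReal (diam (LimS (ρ p)) ^ 2) / ((dens p : ℕ) : ℝ≥0∞) ≠ ⊤ := by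
    refine ne_top_of_le_ne_top (b := ENNReal.ofReal C) ENNReal.ofReal_ne_top ?_
    rw [ENNReal.tsum_eq_iSup_sum]
    refine iSup_le fun F => ?_
    have hρ : Set.InjOn (fun p : G => ρ p) (F : Set G) := by
      rintro ⟨p, hp⟩ - ⟨p', hp'⟩ - heq
      obtain ⟨y, a, rfl, h1, h2⟩ := hGe p hp
      obtain ⟨y', a', rfl, h1', h2'⟩ := hGe p' hp'
      obtain ⟨h3, h4⟩ := hinj a a' y y' h2 h2' heq
      subst h3 h4
      rfl
    -- a function of the root with the product of the denominators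
    set N : ℂ → ℕ := fun r => if hr : ∃ p : G, p ∈ F ∧ ρ p = r then dens hr.choose else 1 with hNdef
    have hN : ∀ p ∈ F, N (ρ p) = dens p := by
      intro p hp
      have hr : ∃ q : G, q ∈ F ∧ ρ q = ρ p := ⟨p, hp, rfl⟩
      rw [hNdef]
      simp only [dif_pos hr]
      rw [hρ hr.choose_spec.1 hp hr.choose_spec.2]
    have h1 := capI_sum h (F.image fun p : G => ρ p) N fun r hr => by
      obtain ⟨p, hp, rfl⟩ := Finset.mem_image.1 hr
      obtain ⟨y, a, h2, h3, h4⟩ := hGe p p.2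
      refine ⟨dens a, y.den, h3, ?_, ?_⟩
      · have := hroot a y h4 h3
        rwa [← h2] at this
      · rw [hN p hp, h2, dens_cons]
    rw [Finset.sum_image hρ] at h1
    refine le_trans (le_of_eq ?_) (ENNReal.ofReal_le_ofReal h1)
    rw [ENNReal.ofReal_sum_of_nonneg fun r _ => by positivity]
    refine Finset.sum_congr rfl fun p hp => ?_
    rw [hN p hp, ENNReal.ofReal_div_of_pos (by exact_mod_cast dens_pos _), ENNReal.ofReal_natCast]
    rfl
  have key := pure_tower μ G (fun p => ENNReal.ofReal (diam (LimS (ρ p)) ^ 2))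
    (fun p => ((dens p : ℕ) : ℝ≥0∞)) (fun p _ => by exact_mod_cast (dens_pos p).ne') hsum
  filter_upwards [key] with x hx hx01 htop ε hε
  have hAdm : ∀ k, Adm (pre x k) := by
    intro k y hy
    obtain ⟨i, -, rfl⟩ := mem_pre hy
    exact hx01 i
  have hmem : ∀ k, pre x (k + 1) ∈ G ↔ 3 ≤ (x k).den := by
    intro k
    constructor
    · rintro ⟨-, y, p', h1, h2⟩
      rw [pre_succ, List.cons.injEq] at h1
      rw [h1.1]; exact h2
    · intro h1
      exact ⟨hAdm _, x k, pre x k, pre_succ x k, h1⟩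
  have hzero : pre x 0 ∉ G := by
    rintro ⟨-, y, p', h1, -⟩
    simp [pre_zero] at h1
  have h1 : ∑' k : {k : ℕ // pre x k ∈ G},
      1 / (((dens (pre x k) : ℕ) : ℝ≥0∞) * μ (cyl (pre x k))) = ⊤ := by
    rw [← htop]
    have h2 := tsum_subtype {k : ℕ | pre x k ∈ G} fun k =>
      1 / (((dens (pre x k) : ℕ) : ℝ≥0∞) * μ (cyl (pre x k)))
    refine h2.trans ?_
    rw [tsum_eq_zero_add' ENNReal.summable]
    have h3 : (0 : ℕ) ∉ {k : ℕ | pre x k ∈ G} := hzero
    rw [indicator_of_notMem h3, zero_add]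
    refine tsum_congr fun k => ?_
    by_cases h4 : 3 ≤ (x k).den
    · have h5 : k + 1 ∈ {k : ℕ | pre x k ∈ G} := (hmem k).2 h4
      rw [indicator_of_mem h5, if_pos h4, dens_pre, cyl_pre]
    · have h5 : k + 1 ∉ {k : ℕ | pre x k ∈ G} := fun h6 => h4 ((hmem k).1 h6)
      rw [indicator_of_notMem h5, if_neg h4]
  have h2 := hx h1 (ENNReal.ofReal (ε ^ 2)) (ENNReal.ofReal_pos.2 (by positivity)).ne'
    ENNReal.ofReal_ne_top
  intro hfin
  refine h2 ((hfin.image fun k => k + 1).subset ?_)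
  rintro k ⟨h3, h4⟩
  rcases k with _ | k
  · exact absurd h3 hzero
  · refine ⟨k, ⟨(hmem k).1 h3, ?_⟩, rfl⟩
    have h5 : diam (LimS (ρ (pre x (k + 1)))) ^ 2 < ε ^ 2 := by
      rwa [ENNReal.ofReal_lt_ofReal_iff (by positivity)] at h4
    exact lt_of_pow_lt_pow_left₀ 2 hε.le h5

end Pool.Agent.Work.MLC.Tow
end

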