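import Pool.Agent.Work.MLCM.C77
import Pool.Agent.Work.MLCM.C78
import Pool.Agent.Work.MLCM.C82
import Pool.Agent.Work.MLCM.C90
import Pool.Agent.Work.MLCM.C91

section
set_option autoImplicit false

/-! # Theorem U, module U_ws: the component of a wake and its roots (helper24) -/

namespace Pool.Agent.Work.MLC.Uni

open Filter Topology Metric Set Complex
open Pool.Agent.Work.MLC.Circ Pool.Agent.Work.MLC.Sat Pool.Agent.Work.MLC.Cnt
open Pool.Agent.Work.MLC.Shp CircleDeg1Lift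

/-- the roots of a component with the strip `(α, β)` -/
lemma wake_roots {W : WS} (hW : W.Ok) {α β : ℝ} (h0 : 0 ≤ α) (h1 : β ≤ 1)
    (hs : ∀ θ, (0 < W.nu θ ∧ W.nu θ < 1) ↔ (α < θ ∧ θ < β)) {x : ℚ} (hx0 : 0 < x) (hx1 : x < 1) :
    Wake (W.m * x.den) (W.dat x).tm (W.dat x).tp := by
  have hlt := (WS.dat_cir hW hx0 hx1).lt
  have h0' : (0 : ℝ) < x := by exact_mod_cast hx0
  have h1' : (x : ℝ) < 1 := by exact_mod_cast hx1
  have a1 := (WS.plateau hW hx0 hx1 (W.dat x).tm).2 ⟨le_rfl, hlt.le⟩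
  have a2 := (WS.plateau hW hx0 hx1 (W.dat x).tp).2 ⟨hlt.le, le_rfl⟩
  have b1 := (hs (W.dat x).tm).1 ⟨by rw [a1]; exact h0', by rw [a1]; exact h1'⟩
  have b2 := (hs (W.dat x).tp).1 ⟨by rw [a2]; exact h0', by rw [a2]; exact h1'⟩
  have h2 := ca_of (WS.dat_par hW hx0 hx1) (WS.dat_cir hW hx0 hx1)
  rw [WS.dat_m hW hx0 hx1, WS.dat_x hW hx0 hx1] at h2
  exact wake_of_ca h2 (by linarith [b1.1]) (by linarith [b2.2])

lemma word_zero : Word 1 (fun _ => (0 : ℤ)) :=
  ⟨fun _ => Or.inl rfl, fun _ => rfl, fun d h1 h2 => by omega⟩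

lemma gw_zero_one (θ x : ℝ) : gw (fun _ => (0 : ℤ)) θ 1 x = tdbl θ x := by
  rw [gw_succ_apply, gw_zero]
  simp

/-- the strip of the main component -/
lemma nu_main (θ : ℝ) : (0 < nu (fun _ => (0 : ℤ)) 1 θ ∧ nu (fun _ => (0 : ℤ)) 1 θ < 1) ↔
    (0 < θ ∧ θ < 1) := by
  have hc := gw_continuous' (fun _ => (0 : ℤ)) θ 1
  constructor
  · rintro ⟨h1, h2⟩
    constructor
    · by_contra hcon
      push Not at hcon
      have h3 := nu_mono (fun _ => (0 : ℤ)) 1 hcon
      have h4 : nu (fun _ => (0 : ℤ)) 1 0 = ((0 : ℤ) : ℝ) := by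
        refine translationNumber_of_eq_add_int (x := 0) _ ?_
        rw [gw_zero_one, tdbl_lin 0 (by norm_num) (by norm_num)]
        norm_num
      rw [h4] at h3
      push_cast at h3
      linarith
    · by_contra hcon
      push Not at hcon
      have h3 := nu_mono (fun _ => (0 : ℤ)) 1 hcon
      have h4 : nu (fun _ => (0 : ℤ)) 1 1 = ((1 : ℤ) : ℝ) := by
        refine translationNumber_of_eq_add_int (x := 1) _ ?_
        rw [gw_zero_one, tdbl_lin 0 (by norm_num) (by norm_num)]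
        norm_num
      rw [h4] at h3
      push_cast at h3
      linarith
  · rintro ⟨h1, h2⟩
    constructor
    · refine lt_translationNumber_of_forall_add_lt _ hc fun x => ?_
      rw [gw_zero_one]
      linarith [(tdbl_bound θ x).1]
    · refine translationNumber_lt_of_forall_lt_add _ hc fun x => ?_
      rw [gw_zero_one]
      linarith [(tdbl_bound θ x).2]

/-- **U7** -/
theorem u_ws : U_ws := by
  intro m α β h
  have hab := h.lt
  have h0 := h.nonneg
  have h1 := h.le_one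
  rcases Nat.lt_or_ge m 2 with hm | hm
  · -- the main component
    have hm1 : m = 1 := by have := h.pos; omega
    subst hm1
    obtain ⟨a, ha⟩ := h.per
    obtain ⟨b, hb⟩ := h.per'
    have ha' : α = a := by linarith
    have hb' : β = b := by linarith
    have e1 : a < b := by rw [ha', hb'] at hab; exact_mod_cast hab
    have e2 : 0 ≤ a := by rw [ha'] at h0; exact_mod_cast h0
    have e3 : b ≤ 1 := by rw [hb'] at h1; exact_mod_cast h1
    have hα : α = 0 := by rw [ha', show a = 0 by omega]; simp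
    have hβ : β = 1 := by rw [hb', show b = 1 by omega]; simp
    obtain ⟨σ, g1, g2⟩ := Pri.exists_wide_word (by norm_num) word_zero 0
    have hok : WS.Ok ⟨1, fun _ => 0, 0, σ⟩ := ⟨g1, g2⟩
    have hs : ∀ θ, (0 < WS.nu ⟨1, fun _ => 0, 0, σ⟩ θ ∧ WS.nu ⟨1, fun _ => 0, 0, σ⟩ θ < 1) ↔
        (α < θ ∧ θ < β) := by
      intro θ
      rw [hα, hβ, ← nu_main θ]
      simp [WS.nu]
    exact ⟨_, hok, rfl, hs, fun h2 => absurd h2 (by norm_num),
      fun x hx0 hx1 => wake_roots hok h0 h1 hs hx0 hx1⟩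
  · obtain ⟨k, hw, hka, hkb, hin⟩ := h.strip hm
    obtain ⟨σ, g1, g2⟩ := Pri.exists_wide_word (by omega) hw k
    set W : WS := ⟨m, wL α, k, σ⟩ with hWdef
    have hok : W.Ok := ⟨g1, g2⟩
    have hnu : ∀ θ, W.nu θ = nu (wL α) m θ - k := fun θ => rfl
    have hs : ∀ θ, (0 < W.nu θ ∧ W.nu θ < 1) ↔ (α < θ ∧ θ < β) := by
      intro θ
      rw [hnu]
      constructor
      · rintro ⟨e1, e2⟩
        constructor
        · by_contra hcon
          push Not at hcon
          have := nu_mono (wL α) m hcon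
          linarith
        · by_contra hcon
          push Not at hcon
          have := nu_mono (wL α) m hcon
          linarith
      · rintro ⟨e1, e2⟩
        have := hin θ e1 e2
        exact ⟨by linarith, by linarith⟩
    refine ⟨W, hok, rfl, hs, fun _ => ?_, fun x hx0 hx1 => wake_roots hok h0 h1 hs hx0 hx1⟩
    obtain ⟨u, κ, -, hu, hpl⟩ := h.half hm (n := 1) (by norm_num)
    rw [hu rfl, mul_one, one_mul] at hpl
    have hM : (0 : ℝ) < 2 ^ m := by positivity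
    have e0 : (β - α) * 2 ^ m / (2 ^ m * (2 ^ m + 1)) = (β - α) / (2 ^ m + 1) := by
      field_simp
    rw [e0] at hpl
    have hd : 0 < (β - α) / (2 ^ m + 1) := div_pos (by linarith) (by positivity)
    have hd2 : (β - α) / (2 ^ m + 1) ≤ (β - α) / 5 := by
      have : (4 : ℝ) ≤ 2 ^ m := by
        calc (4 : ℝ) = 2 ^ 2 := by norm_num
          _ ≤ 2 ^ m := pow_le_pow_right₀ (by norm_num) hm
      exact div_le_div_of_nonneg_left (by linarith) (by norm_num) (by linarith)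
    set E := (β - α) / (2 ^ m + 1) with hE
    -- the two intervals
    have hκ : κ = k := by
      have e1 := (hpl (α + E)).2 ⟨le_rfl, by linarith⟩
      have e2 := hin (α + E) (by linarith) (by linarith)
      rw [e1] at e2
      have e3 : (k : ℝ) < κ + 1 := by linarith [e2.1]
      have e4 : (κ : ℝ) < k + 1 := by linarith [e2.2]
      have e3' : k < κ + 1 := by exact_mod_cast e3
      have e4' : κ < k + 1 := by exact_mod_cast e4
      omega
    have hhalf0 : (0 : ℚ) < 1 / 2 := by norm_num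
    have hhalf1 : (1 / 2 : ℚ) < 1 := by norm_num
    have hpl' : ∀ θ, (α + E ≤ θ ∧ θ ≤ β - E) ↔ ((W.dat (1 / 2)).tm ≤ θ ∧ θ ≤ (W.dat (1 / 2)).tp) := by
      intro θ
      rw [← hpl θ, ← WS.plateau hok hhalf0 hhalf1 θ, hnu, hκ]
      push_cast
      constructor <;> intro h <;> linarith
    have hlt := (WS.dat_cir hok hhalf0 hhalf1).lt
    have c1 := (hpl' (α + E)).1 ⟨le_rfl, by linarith⟩
    have c2 := (hpl' (β - E)).1 ⟨by linarith, le_rfl⟩
    have c3 := (hpl' (W.dat (1 / 2)).tm).2 ⟨le_rfl, hlt.le⟩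
    have c4 := (hpl' (W.dat (1 / 2)).tp).2 ⟨hlt.le, le_rfl⟩
    exact ⟨le_antisymm c1.1 c3.1, le_antisymm c4.2 c2.2⟩

end Pool.Agent.Work.MLC.Uni
end

section
set_option autoImplicit false

/-! # Tuning of wakes (helper6)

`wake_tun`: the tuned angles of a wake of period `m` are the wake of period `n * m` in the copy. -/

namespace Pool.Agent.Work.MLC.Shp

open Filter Topology Set
open Pool.Agent.Work.MLC.Sat Pool.Agent.Work.MLC.Cnt

variable {n m : ℕ} {α β : ℝ}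

/-- the binary digits -/
noncomputable def dg (x : ℝ) (i : ℕ) : ℤ := ⌊2 ^ (i + 1) * x⌋ - 2 * ⌊2 ^ i * x⌋

lemma dg_or (x : ℝ) (i : ℕ) : dg x i = 0 ∨ dg x i = 1 := by
  unfold dg
  have e : (2 : ℝ) ^ (i + 1) * x = 2 * (2 ^ i * x) := by rw [pow_succ]; ring
  rw [e]
  set y := (2 : ℝ) ^ i * x
  have h1 := Int.floor_le y
  have h2 := Int.lt_floor_add_one y
  have h3 : 2 * ⌊y⌋ ≤ ⌊2 * y⌋ := by
    rw [Int.le_floor]; push_cast; linarith
  have h4 : ⌊2 * y⌋ < 2 * ⌊y⌋ + 2 := by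
    rw [Int.floor_lt]; push_cast; linarith
  omega

lemma dg_fract (x : ℝ) (i : ℕ) : dg (Int.fract (2 * x)) i = dg x (i + 1) := by
  unfold dg
  have e1 : (2 : ℝ) ^ (i + 1) * Int.fract (2 * x) = 2 ^ (i + 1 + 1) * x -
      ((2 ^ (i + 1) * ⌊2 * x⌋ : ℤ) : ℝ) := by
    unfold Int.fract; push_cast; ring
  have e2 : (2 : ℝ) ^ i * Int.fract (2 * x) = 2 ^ (i + 1) * x - ((2 ^ i * ⌊2 * x⌋ : ℤ) : ℝ) := by
    unfold Int.fract; push_cast; ring
  rw [e1, e2, Int.floor_sub_intCast, Int.floor_sub_intCast]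
  ring

lemma dg_zero {x : ℝ} (h0 : 0 ≤ x) (h1 : x < 1) : dg x 0 = ⌊2 * x⌋ := by
  unfold dg
  have : ⌊x⌋ = 0 := by rw [Int.floor_eq_iff]; constructor <;> push_cast <;> linarith
  simp only [zero_add, pow_one, pow_zero, one_mul, this]
  ring

/-- the angle for a digit -/
noncomputable def ee (α β : ℝ) (d : ℤ) : ℝ := if d = 1 then β else α

/-- replace the digits by the periods -/
noncomputable def TT (n : ℕ) (α β x : ℝ) : ℝ :=
  ∑' i : ℕ, (2 ^ n - 1) * ee α β (dg x i) / 2 ^ (n * (i + 1))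

lemma ee_or (α β : ℝ) (d : ℤ) : ee α β d = α ∨ ee α β d = β := by
  unfold ee; split_ifs
  · exact Or.inr rfl
  · exact Or.inl rfl

lemma hasSum_cst (hn : 0 < n) (e : ℝ) :
    HasSum (fun i : ℕ => (2 ^ n - 1) * e / 2 ^ (n * (i + 1))) e := by
  have hp : (0 : ℝ) < 2 ^ n := by positivity
  have h1 : (1 : ℝ) < 2 ^ n := one_lt_pow₀ (by norm_num) hn.ne'
  have h2 := (hasSum_geometric_of_lt_one (r := 1 / (2 : ℝ) ^ n) (by positivity)
    ((div_lt_one hp).2 h1)).mul_left ((2 ^ n - 1) * e / 2 ^ n)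
  have h3 : (2 ^ n - 1) * e / 2 ^ n * (1 - 1 / (2 : ℝ) ^ n)⁻¹ = e := by
    have h6 : (2 : ℝ) ^ n - 1 ≠ 0 := by linarith
    have h7 : (1 - 1 / 2 ^ n : ℝ) = (2 ^ n - 1) / 2 ^ n := by field_simp
    rw [h7, inv_div]
    field_simp
  rw [h3] at h2
  have h5 : (fun i : ℕ => (2 ^ n - 1) * e / (2 : ℝ) ^ (n * (i + 1))) =
      fun i => (2 ^ n - 1) * e / 2 ^ n * (1 / 2 ^ n) ^ i := by
    funext i
    have h4 : (2 : ℝ) ^ (n * (i + 1)) = 2 ^ n * (2 ^ n) ^ i := by
      rw [← pow_mul, ← pow_add, Nat.mul_succ, add_comm]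
    rw [h4, div_pow, one_pow, div_mul_div_comm, mul_one]
  rw [h5]
  exact h2

lemma summable_TT (hn : 0 < n) (α β x : ℝ) :
    Summable (fun i : ℕ => (2 ^ n - 1) * ee α β (dg x i) / 2 ^ (n * (i + 1))) := by
  have h1 : (1 : ℝ) < 2 ^ n := one_lt_pow₀ (by norm_num) hn.ne'
  refine Summable.of_norm_bounded (hasSum_cst hn (|α| + |β|)).summable fun i => ?_
  rw [Real.norm_eq_abs, abs_div, abs_mul, abs_of_pos (show (0 : ℝ) < 2 ^ n - 1 by linarith),
    abs_of_pos (show (0 : ℝ) < 2 ^ (n * (i + 1)) by positivity)]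
  refine div_le_div_of_nonneg_right (mul_le_mul_of_nonneg_left ?_ (by linarith)) (by positivity)
  rcases ee_or α β (dg x i) with h | h <;> rw [h]
  · linarith [abs_nonneg β]
  · linarith [abs_nonneg α]

lemma TT_mem (hn : 0 < n) (α β x : ℝ) : TT n α β x ∈ Tuned n α β :=
  ⟨fun i => ee α β (dg x i), fun i => ee_or _ _ _, (summable_TT hn α β x).hasSum⟩

lemma TT_bounds (hn : 0 < n) (hab : α < β) (x : ℝ) : α ≤ TT n α β x ∧ TT n α β x ≤ β := by
  have h1 : (1 : ℝ) < 2 ^ n := one_lt_pow₀ (by norm_num) hn.ne'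
  have hs := (summable_TT hn α β x).hasSum
  constructor
  · refine hasSum_le (fun i => ?_) (hasSum_cst hn α) hs
    refine div_le_div_of_nonneg_right (mul_le_mul_of_nonneg_left ?_ (by linarith)) (by positivity)
    rcases ee_or α β (dg x i) with h | h <;> rw [h]
    exact hab.le
  · refine hasSum_le (fun i => ?_) hs (hasSum_cst hn β)
    refine div_le_div_of_nonneg_right (mul_le_mul_of_nonneg_left ?_ (by linarith)) (by positivity)
    rcases ee_or α β (dg x i) with h | h <;> rw [h]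
    exact hab.le

/-- the functional equation -/
lemma TT_step (hn : 0 < n) {x : ℝ} (h0 : 0 ≤ x) (h1 : x < 1) :
    2 ^ n * TT n α β x = (2 ^ n - 1) * ee α β ⌊2 * x⌋ + TT n α β (Int.fract (2 * x)) := by
  have hs := summable_TT hn α β x
  have hp : (0 : ℝ) < 2 ^ n := by positivity
  unfold TT
  rw [hs.tsum_eq_zero_add, mul_add, zero_add, mul_one, dg_zero h0 h1, mul_div_cancel₀ _ hp.ne',
    ← tsum_mul_left]
  congr 1
  refine tsum_congr fun i => ?_
  rw [dg_fract]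
  have h2 : (2 : ℝ) ^ (n * (i + 1 + 1)) = 2 ^ n * 2 ^ (n * (i + 1)) := by
    rw [← pow_add]; congr 1; ring
  rw [h2, mul_div_assoc', mul_div_mul_left _ _ hp.ne']

lemma fl_or {x : ℝ} (h0 : 0 ≤ x) (h1 : x < 1) : ⌊2 * x⌋ = 0 ∨ ⌊2 * x⌋ = 1 := by
  rw [← dg_zero h0 h1]; exact dg_or x 0

/-- the point is next to an end -/
lemma TT_near (hn : 0 < n) (hab : α < β) {x : ℝ} (h0 : 0 ≤ x) (h1 : x < 1) :
    ∃ δ : ℝ, 0 ≤ δ ∧ δ * 2 ^ n ≤ β - α ∧
      ((⌊2 * x⌋ = 0 ∧ TT n α β x = α + δ) ∨ (⌊2 * x⌋ = 1 ∧ TT n α β x = β - δ)) := by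
  have hp : (0 : ℝ) < 2 ^ n := by positivity
  have h2 := TT_step (α := α) (β := β) hn h0 h1
  obtain ⟨h3, h4⟩ := TT_bounds hn hab (Int.fract (2 * x))
  rcases fl_or h0 h1 with h | h
  · rw [h] at h2
    have h5 : ee α β 0 = α := by unfold ee; simp
    rw [h5] at h2
    refine ⟨TT n α β x - α, ?_, ?_, Or.inl ⟨h, by ring⟩⟩
    · have : 0 ≤ 2 ^ n * (TT n α β x - α) := by nlinarith
      exact nonneg_of_mul_nonneg_right this hp
    · nlinarith
  · rw [h] at h2
    have h5 : ee α β 1 = β := by unfold ee; simp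
    rw [h5] at h2
    refine ⟨β - TT n α β x, ?_, ?_, Or.inr ⟨h, by ring⟩⟩
    · have : 0 ≤ 2 ^ n * (β - TT n α β x) := by nlinarith
      exact nonneg_of_mul_nonneg_right this hp
    · nlinarith

/-- **separation** -/
lemma TT_sep (hn : 2 ≤ n) (hab : α < β) : ∀ (N : ℕ) {x y : ℝ}, 0 ≤ x → x < y → y < 1 →
    1 ≤ 2 ^ N * (y - x) → (β - α) / 2 * (1 / 2 ^ n) ^ (N - 1) ≤ TT n α β y - TT n α β x := by
  have hn0 : 0 < n := by omega
  have hp : (0 : ℝ) < 2 ^ n := by positivity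
  have h4n : (4 : ℝ) ≤ 2 ^ n := by
    calc (4 : ℝ) = 2 ^ 2 := by norm_num
      _ ≤ 2 ^ n := pow_le_pow_right₀ (by norm_num) hn
  intro N
  induction N with
  | zero =>
    intro x y h0 hxy h1 h
    exfalso
    simp only [pow_zero, one_mul] at h
    linarith
  | succ N ih =>
    intro x y h0 hxy h1 h
    have sx := TT_step (α := α) (β := β) hn0 h0 (hxy.trans h1)
    have sy := TT_step (α := α) (β := β) hn0 (h0.trans hxy.le) h1
    obtain ⟨x1, x2⟩ := TT_bounds hn0 hab (Int.fract (2 * x))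
    obtain ⟨y1, y2⟩ := TT_bounds hn0 hab (Int.fract (2 * y))
    have hxe : (⌊2 * x⌋ : ℝ) + Int.fract (2 * x) = 2 * x := Int.floor_add_fract _
    have hye : (⌊2 * y⌋ : ℝ) + Int.fract (2 * y) = 2 * y := Int.floor_add_fract _
    have hr0 : (0 : ℝ) < 1 / 2 ^ n := by positivity
    have hr1 : (1 : ℝ) / 2 ^ n ≤ 1 := by rw [div_le_one hp]; linarith
    rcases fl_or h0 (hxy.trans h1) with hx | hx <;> rcases fl_or (h0.trans hxy.le) h1 with hy | hy
    · rw [hx] at sx hxe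
      rw [hy] at sy hye
      push_cast at hxe hye
      have hlt : Int.fract (2 * x) < Int.fract (2 * y) := by linarith
      have h2 : 1 ≤ 2 ^ N * (Int.fract (2 * y) - Int.fract (2 * x)) := by
        have e : (2 : ℝ) ^ (N + 1) * (y - x) = 2 ^ N * (2 * y - 2 * x) := by rw [pow_succ]; ring
        rw [e] at h
        have e2 : 2 * y - 2 * x = Int.fract (2 * y) - Int.fract (2 * x) := by linarith
        rwa [e2] at h
      have h3 := ih (Int.fract_nonneg _) hlt (Int.fract_lt_one _) h2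
      have hN : 0 < N := by
        rcases Nat.eq_zero_or_pos N with h5 | h5
        · exfalso
          rw [h5, pow_zero, one_mul] at h2
          linarith [Int.fract_lt_one (2 * y), Int.fract_nonneg (2 * x)]
        · exact h5
      have e3 : (N + 1 - 1 : ℕ) = (N - 1) + 1 := by omega
      rw [e3, pow_succ, ← mul_assoc]
      have e4 : TT n α β y - TT n α β x =
          (TT n α β (Int.fract (2 * y)) - TT n α β (Int.fract (2 * x))) * (1 / 2 ^ n) := by
        field_simp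
        linarith
      rw [e4]
      exact mul_le_mul_of_nonneg_right h3 hr0.le
    · rw [hx] at sx
      rw [hy] at sy
      have a0 : ee α β 0 = α := by unfold ee; simp
      have a1 : ee α β 1 = β := by unfold ee; simp
      rw [a0] at sx
      rw [a1] at sy
      have h5 : (β - α) / 2 ≤ TT n α β y - TT n α β x := by
        have : 2 ^ n * ((β - α) / 2) ≤ 2 ^ n * (TT n α β y - TT n α β x) := by nlinarith
        exact le_of_mul_le_mul_left this hp
      refine le_trans ?_ h5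
      exact mul_le_of_le_one_right (by linarith) (pow_le_one₀ hr0.le hr1)
    · exfalso
      rw [hx] at hxe
      rw [hy] at hye
      push_cast at hxe hye
      linarith [Int.fract_lt_one (2 * y), Int.fract_nonneg (2 * x)]
    · rw [hx] at sx hxe
      rw [hy] at sy hye
      push_cast at hxe hye
      have hlt : Int.fract (2 * x) < Int.fract (2 * y) := by linarith
      have h2 : 1 ≤ 2 ^ N * (Int.fract (2 * y) - Int.fract (2 * x)) := by
        have e : (2 : ℝ) ^ (N + 1) * (y - x) = 2 ^ N * (2 * y - 2 * x) := by rw [pow_succ]; ring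
        rw [e] at h
        have e2 : 2 * y - 2 * x = Int.fract (2 * y) - Int.fract (2 * x) := by linarith
        rwa [e2] at h
      have h3 := ih (Int.fract_nonneg _) hlt (Int.fract_lt_one _) h2
      have hN : 0 < N := by
        rcases Nat.eq_zero_or_pos N with h5 | h5
        · exfalso
          rw [h5, pow_zero, one_mul] at h2
          linarith [Int.fract_lt_one (2 * y), Int.fract_nonneg (2 * x)]
        · exact h5
      have e3 : (N + 1 - 1 : ℕ) = (N - 1) + 1 := by omega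
      rw [e3, pow_succ, ← mul_assoc]
      have e4 : TT n α β y - TT n α β x =
          (TT n α β (Int.fract (2 * y)) - TT n α β (Int.fract (2 * x))) * (1 / 2 ^ n) := by
        field_simp
        linarith
      rw [e4]
      exact mul_le_mul_of_nonneg_right h3 hr0.le

lemma TT_lt (hn : 2 ≤ n) (hab : α < β) {x y : ℝ} (h0 : 0 ≤ x) (hxy : x < y) (h1 : y < 1) :
    TT n α β x < TT n α β y := by
  obtain ⟨N, hN⟩ := pow_unbounded_of_one_lt (1 / (y - x)) (one_lt_two : (1 : ℝ) < 2)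
  have h2 : 1 ≤ 2 ^ N * (y - x) := by
    rw [div_lt_iff₀ (by linarith)] at hN
    exact hN.le
  have h3 := TT_sep hn hab N h0 hxy h1 h2
  have h4 : 0 < (β - α) / 2 * (1 / 2 ^ n : ℝ) ^ (N - 1) := by
    have : 0 < β - α := by linarith
    positivity
  linarith

lemma TT_le (hn : 2 ≤ n) (hab : α < β) {x y : ℝ} (h0 : 0 ≤ x) (hxy : x ≤ y) (h1 : y < 1) :
    TT n α β x ≤ TT n α β y := by
  rcases hxy.eq_or_lt with h | h
  · rw [h]
  · exact (TT_lt hn hab h0 h h1).le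

lemma fract_two_mul_fract (x : ℝ) (j : ℕ) :
    Int.fract (2 * Int.fract (2 ^ j * x)) = Int.fract (2 ^ (j + 1) * x) := by
  rw [Int.fract_eq_fract]
  refine ⟨-(2 * ⌊2 ^ j * x⌋), ?_⟩
  unfold Int.fract
  push_cast
  rw [pow_succ]
  ring

/-- returns -/
lemma TT_iter (hn : 0 < n) {A B : ℤ} (hA : (2 ^ n - 1) * α = A) (hB : (2 ^ n - 1) * β = B)
    {x : ℝ} (h0 : 0 ≤ x) (h1 : x < 1) (j : ℕ) :
    ∃ l : ℤ, 2 ^ (n * j) * TT n α β x = TT n α β (Int.fract (2 ^ j * x)) + l := by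
  induction j with
  | zero =>
    refine ⟨0, ?_⟩
    have : Int.fract x = x := Int.fract_eq_self.2 ⟨h0, h1⟩
    simp [this]
  | succ j ih =>
    obtain ⟨l, hl⟩ := ih
    have h2 := TT_step (α := α) (β := β) hn (Int.fract_nonneg (2 ^ j * x))
      (Int.fract_lt_one (2 ^ j * x))
    rw [fract_two_mul_fract] at h2
    have h3 : ∃ D : ℤ, (2 ^ n - 1) * ee α β ⌊2 * Int.fract (2 ^ j * x)⌋ = D := by
      rcases ee_or α β ⌊2 * Int.fract (2 ^ j * x)⌋ with h | h <;> rw [h]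
      · exact ⟨A, hA⟩
      · exact ⟨B, hB⟩
    obtain ⟨D, hD⟩ := h3
    refine ⟨D + 2 ^ n * l, ?_⟩
    have e : (2 : ℝ) ^ (n * (j + 1)) = 2 ^ n * 2 ^ (n * j) := by
      rw [← pow_add]; congr 1; ring
    rw [e, mul_assoc, hl, mul_add, h2, hD]
    push_cast
    ring

/-- the two words end with different digits -/
lemma Wake.parity (h : Wake n α β) {A B : ℤ} (hA : (2 ^ n - 1) * α = A)
    (hB : (2 ^ n - 1) * β = B) : ∃ l : ℤ, B = A + 1 + 2 * l := by
  obtain ⟨a, b, e1, e2, e3, e4, l, hl⟩ := h.side_int (n - 1)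
  have hn : n - 1 + 1 = n := Nat.sub_add_cancel h.pos
  rw [hn] at e1 e2 e3 e4
  have hab := h.lt
  have h0 := h.nonneg
  have h1 := h.le_one
  have f1 : ((a : ℤ) : ℝ) < ((A : ℤ) : ℝ) := by linarith
  have f2 : ((A : ℤ) : ℝ) ≤ ((a + 1 : ℤ) : ℝ) := by push_cast; linarith
  have f3 : ((b : ℤ) : ℝ) ≤ ((B : ℤ) : ℝ) := by linarith
  have f4 : ((B : ℤ) : ℝ) < ((b + 1 : ℤ) : ℝ) := by push_cast; linarith
  have g1 := cast_lt_of f1
  have g2 := cast_le_of f2
  have g3 := cast_le_of f3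
  have g4 := cast_lt_of f4
  exact ⟨l - 1, by omega⟩

lemma SameSide.of_half {θ x y : ℝ} {w : ℤ}
    (hx : ∃ k : ℤ, (θ + w) / 2 + k < x ∧ x < (θ + w) / 2 + k + 1 / 2)
    (hy : ∃ k : ℤ, (θ + w) / 2 + k < y ∧ y < (θ + w) / 2 + k + 1 / 2) : SameSide θ x y := by
  obtain ⟨j, h1, h2⟩ := hx
  obtain ⟨k, h3, h4⟩ := hy
  exact ⟨w, j, k, h1, h2, h3, h4⟩

lemma half_add_int {θ x : ℝ} {w : ℤ} (l : ℤ)
    (hx : ∃ k : ℤ, (θ + w) / 2 + k < x ∧ x < (θ + w) / 2 + k + 1 / 2) :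
    ∃ k : ℤ, (θ + w) / 2 + k < x + l ∧ x + l < (θ + w) / 2 + k + 1 / 2 := by
  obtain ⟨k, h1, h2⟩ := hx
  exact ⟨k + l, by push_cast; linarith, by push_cast; linarith⟩

/-- the wake is short -/
lemma Wake.third (h : Wake m α β) (hm : 2 ≤ m) : 3 * (β - α) ≤ 1 := by
  have h0 : α ≠ 0 := fun h0 => h.exact 1 one_pos (by omega) ⟨0, by rw [h0]; simp⟩
  have h1 : β ≠ 1 := fun h1 => h.exact' 1 one_pos (by omega) ⟨1, by rw [h1]; norm_num⟩
  have h0' : 0 < α := lt_of_le_of_ne h.nonneg (Ne.symm h0)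
  have h1' : β < 1 := lt_of_le_of_ne h.le_one h1
  have h2 := h.avoid 1 0
  have h3 := h.avoid' 1 (-1)
  simp only [pow_one, not_and_or, not_lt] at h2 h3
  push_cast at h2 h3
  have h4 : β ≤ 2 * α := by
    rcases h2 with h2 | h2 <;> linarith
  have h5 : 2 * β - 1 ≤ α := by
    rcases h3 with h3 | h3 <;> linarith
  linarith

lemma Wake.pos_lt (h : Wake m α β) (hm : 2 ≤ m) : 0 < α ∧ β < 1 := by
  have h0 : α ≠ 0 := fun h0 => h.exact 1 one_pos (by omega) ⟨0, by rw [h0]; simp⟩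
  have h1 : β ≠ 1 := fun h1 => h.exact' 1 one_pos (by omega) ⟨1, by rw [h1]; norm_num⟩
  exact ⟨lt_of_le_of_ne h.nonneg (Ne.symm h0), lt_of_le_of_ne h.le_one h1⟩

/-- the period of a tuned angle -/
lemma TT_per (h : Wake n α β) (hn : 2 ≤ n) {x : ℝ} (hx0 : 0 < x) (hx1 : x < 1)
    (hper : ∃ a : ℤ, (2 ^ m - 1) * x = a) :
    ∃ a : ℤ, (2 ^ (n * m) - 1) * TT n α β x = a := by
  obtain ⟨A, hA⟩ := h.per
  obtain ⟨B, hB⟩ := h.per'
  obtain ⟨l, hl⟩ := TT_iter h.pos hA hB hx0.le hx1 m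
  obtain ⟨a, ha⟩ := hper
  have h1 : Int.fract (2 ^ m * x) = x := by
    have h2 : (2 : ℝ) ^ m * x = x + a := by linarith
    rw [h2, Int.fract_add_intCast, Int.fract_eq_self.2 ⟨hx0.le, hx1⟩]
  rw [h1] at hl
  exact ⟨l, by linarith⟩

lemma TT_inside (h : Wake n α β) (hn : 2 ≤ n) {x : ℝ} (hx0 : 0 < x) (hx1 : x < 1) :
    α < TT n α β x ∧ TT n α β x < β := by
  have hab := h.lt
  constructor
  · exact lt_of_le_of_lt (TT_bounds h.pos hab 0).1 (TT_lt hn hab le_rfl hx0 hx1)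
  · exact lt_of_lt_of_le (TT_lt hn hab hx0.le (show x < (x + 1) / 2 by linarith) (by linarith))
      (TT_bounds h.pos hab _).2

lemma TT_exact (h : Wake n α β) (hn : 2 ≤ n) {x : ℝ} (hx0 : 0 < x) (hx1 : x < 1)
    (hex : ∀ d, 0 < d → d < m → ¬ ∃ a : ℤ, (2 ^ d - 1) * x = a) :
    ∀ d, 0 < d → d < n * m → ¬ ∃ a : ℤ, (2 ^ d - 1) * TT n α β x = a := by
  rintro d hd hdm ⟨a, ha⟩
  obtain ⟨A, hA⟩ := h.per
  obtain ⟨B, hB⟩ := h.per'
  have hab := h.lt
  have hn0 := h.pos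
  obtain ⟨i1, i2⟩ := TT_inside h hn hx0 hx1
  obtain ⟨l, hl⟩ := TT_iter h.pos hA hB hx0.le hx1 (d / n)
  set u := Int.fract (2 ^ (d / n) * x) with hu
  have hu0 : 0 ≤ u := Int.fract_nonneg _
  have hu1 : u < 1 := Int.fract_lt_one _
  have hd2 : (2 : ℝ) ^ d = 2 ^ (d % n) * 2 ^ (n * (d / n)) := by
    rw [← pow_add, Nat.mod_add_div]
  have key : 2 ^ (d % n) * TT n α β u + ((2 ^ (d % n) * l - a : ℤ) : ℝ) = TT n α β x := by
    push_cast
    have h1 : (2 : ℝ) ^ d * TT n α β x = 2 ^ (d % n) * (TT n α β u + l) := by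
      rw [hd2, mul_assoc, hl]
    linarith
  rcases Nat.eq_zero_or_pos (d % n) with hr | hr
  · rw [hr] at key
    simp only [pow_zero, one_mul] at key
    obtain ⟨b1, b2⟩ := TT_bounds hn0 hab u
    have h0 := h.nonneg
    have h1 := h.le_one
    have g1 : ((-1 : ℤ) : ℝ) < ((l - a : ℤ) : ℝ) := by push_cast at key ⊢; linarith
    have g2 : ((l - a : ℤ) : ℝ) < ((1 : ℤ) : ℝ) := by push_cast at key ⊢; linarith
    have g3 := cast_lt_of g1
    have g4 := cast_lt_of g2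
    have g5 : l - a = 0 := by omega
    rw [g5, Int.cast_zero, add_zero] at key
    have hux : u = x := by
      rcases lt_trichotomy u x with h2 | h2 | h2
      · have := TT_lt hn hab hu0 h2 hx1
        linarith
      · exact h2
      · have := TT_lt hn hab hx0.le h2 hu1
        linarith
    have hdn : 0 < d / n := by
      rcases Nat.eq_zero_or_pos (d / n) with h2 | h2
      · have := Nat.mod_add_div d n
        rw [hr, h2] at this
        omega
      · exact h2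
    have hdm' : d / n < m := Nat.div_lt_of_lt_mul hdm
    refine hex _ hdn hdm' ⟨⌊2 ^ (d / n) * x⌋, ?_⟩
    have : u = 2 ^ (d / n) * x - ⌊2 ^ (d / n) * x⌋ := rfl
    linarith
  · have hrn := Nat.mod_lt d hn0
    obtain ⟨δ, d1, d2, d3⟩ := TT_near (α := α) (β := β) hn0 hab hu0 hu1
    rcases d3 with ⟨-, d3⟩ | ⟨-, d3⟩
    · refine h.win hr hrn d1 d2 (2 ^ (d % n) * l - a) ?_
      rw [← d3, key]
      exact ⟨i1, i2⟩
    · refine h.win' hr hrn d1 d2 (2 ^ (d % n) * l - a) ?_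
      rw [← d3, key]
      exact ⟨i1, i2⟩

/-- the side of the last letter -/
lemma TT_last (h : Wake n α β) {A B : ℤ} (hA : (2 ^ n - 1) * α = A) (hB : (2 ^ n - 1) * β = B)
    {θ u : ℝ} (hθ1 : α < θ) (hθ2 : θ < β) (hu0 : 0 ≤ u) (hu1 : u < 1)
    (hne : TT n α β (Int.fract (2 * u)) ≠ θ) {z : ℤ}
    (hz : z = A + ⌊2 * u⌋ - (if TT n α β (Int.fract (2 * u)) < θ then 1 else 0)) :
    ∃ k : ℤ, (θ + (z % 2 : ℤ)) / 2 + k < 2 ^ (n - 1) * TT n α β u ∧
      2 ^ (n - 1) * TT n α β u < (θ + (z % 2 : ℤ)) / 2 + k + 1 / 2 := by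
  obtain ⟨l, hl⟩ := h.parity hA hB
  have hab := h.lt
  have hn0 := h.pos
  have h0 := h.nonneg
  have h1 := h.le_one
  obtain ⟨b1, b2⟩ := TT_bounds hn0 hab (Int.fract (2 * u))
  have hst := TT_step (α := α) (β := β) hn0 hu0 hu1
  have hp : (2 : ℝ) * (2 ^ (n - 1) * TT n α β u) = 2 ^ n * TT n α β u := by
    rw [← mul_assoc, ← pow_succ', Nat.sub_add_cancel hn0]
  have hE : ∃ e : ℤ, (2 ^ n - 1) * ee α β ⌊2 * u⌋ = ((A + ⌊2 * u⌋ + 2 * e : ℤ) : ℝ) := by
    rcases fl_or hu0 hu1 with h2 | h2 <;> rw [h2]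
    · refine ⟨0, ?_⟩
      have : ee α β 0 = α := by unfold ee; simp
      rw [this, hA]; push_cast; ring
    · refine ⟨l, ?_⟩
      have : ee α β 1 = β := by unfold ee; simp
      rw [this, hB, hl]
  obtain ⟨e, he⟩ := hE
  rw [he] at hst
  have hw : z % 2 = (z + 2 * e) % 2 := by omega
  refine half_of_index (z := z + 2 * e) hw ?_ ?_
  · rw [hp, hst, hz]
    split_ifs with h3
    · push_cast; linarith
    · push_cast
      have := lt_of_le_of_ne (not_lt.1 h3) (Ne.symm hne)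
      linarith
  · rw [hp, hst, hz]
    split_ifs with h3
    · push_cast; linarith
    · push_cast
      have := lt_of_le_of_ne (not_lt.1 h3) (Ne.symm hne)
      linarith

/-- **tuning of wakes** -/
theorem wake_tun {α' β' : ℝ} (h : Wake n α β) (hn : 2 ≤ n) (h' : Wake m α' β') (hm : 2 ≤ m) :
    Wake (n * m) (TT n α β α') (TT n α β β') := by
  obtain ⟨A, hA⟩ := h.per
  obtain ⟨B, hB⟩ := h.per'
  have hab := h.lt
  have hn0 := h.pos
  obtain ⟨p1, p2⟩ := h'.pos_lt hm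
  have hlt' := h'.lt
  have hα1 : α' < 1 := by linarith
  have hβ0 : 0 < β' := by linarith
  obtain ⟨i1, i2⟩ := TT_inside h hn p1 hα1
  obtain ⟨j1, j2⟩ := TT_inside h hn hβ0 p2
  have hlt := TT_lt hn hab p1.le hlt' p2
  refine ⟨Nat.mul_pos h.pos h'.pos, h.nonneg.trans i1.le, hlt, j2.le.trans h.le_one,
    TT_per h hn p1 hα1 h'.per, TT_per h hn hβ0 p2 h'.per', TT_exact h hn p1 hα1 h'.exact,
    TT_exact h hn hβ0 p2 h'.exact', ?_⟩
  intro θ h1 h2 i
  have hθ1 : α < θ := by linarith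
  have hθ2 : θ < β := by linarith
  obtain ⟨la, hla⟩ := TT_iter h.pos hA hB p1.le hα1 (i / n)
  obtain ⟨lb, hlb⟩ := TT_iter h.pos hA hB hβ0.le p2 (i / n)
  have hi2 : (2 : ℝ) ^ i = 2 ^ (i % n) * 2 ^ (n * (i / n)) := by
    rw [← pow_add, Nat.mod_add_div]
  set u := Int.fract (2 ^ (i / n) * α') with hu
  set v := Int.fract (2 ^ (i / n) * β') with hv
  have hu0 : 0 ≤ u := Int.fract_nonneg _
  have hu1 : u < 1 := Int.fract_lt_one _
  have hv0 : 0 ≤ v := Int.fract_nonneg _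
  have hv1 : v < 1 := Int.fract_lt_one _
  have ea : (2 : ℝ) ^ i * TT n α β α' = 2 ^ (i % n) * TT n α β u + ((2 ^ (i % n) * la : ℤ) : ℝ) := by
    rw [hi2, mul_assoc, hla]; push_cast; ring
  have eb : (2 : ℝ) ^ i * TT n α β β' = 2 ^ (i % n) * TT n α β v + ((2 ^ (i % n) * lb : ℤ) : ℝ) := by
    rw [hi2, mul_assoc, hlb]; push_cast; ring
  rw [ea, eb]
  have hrn := Nat.mod_lt i hn0
  rcases Nat.lt_or_ge (i % n + 1) n with hr | hr
  · obtain ⟨δ, d1, d2, d3⟩ := TT_near (α := α) (β := β) hn0 hab hu0 hu1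
    obtain ⟨δ', d1', d2', d3'⟩ := TT_near (α := α) (β := β) hn0 hab hv0 hv1
    refine SameSide.of_half (w := wL α (i % n)) (half_add_int _ (h.mid hr d1 d2 ?_ hθ1 hθ2))
      (half_add_int _ (h.mid hr d1' d2' ?_ hθ1 hθ2))
    · rcases d3 with ⟨-, d3⟩ | ⟨-, d3⟩
      · exact Or.inl d3
      · exact Or.inr d3
    · rcases d3' with ⟨-, d3'⟩ | ⟨-, d3'⟩
      · exact Or.inl d3'
      · exact Or.inr d3'
  · have hr' : i % n = n - 1 := by omega
    -- the angle `θ'`
    set θ' : ℝ := (α' + β') / 2 with hθ'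
    have t1 : α' < θ' := by linarith
    have t2 : θ' < β' := by linarith
    set u' := Int.fract (2 * u) with hu'
    set v' := Int.fract (2 * v) with hv'
    have hu'e : u' = Int.fract (2 ^ (i / n + 1) * α') := fract_two_mul_fract _ _
    have hv'e : v' = Int.fract (2 ^ (i / n + 1) * β') := fract_two_mul_fract _ _
    have hu'0 : 0 ≤ u' := Int.fract_nonneg _
    have hu'1 : u' < 1 := Int.fract_lt_one _
    have hv'0 : 0 ≤ v' := Int.fract_nonneg _
    have hv'1 : v' < 1 := Int.fract_lt_one _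
    have av : u' ≤ α' ∨ β' ≤ u' := by
      by_contra hcon
      push Not at hcon
      refine h'.avoid (i / n + 1) (-⌊2 ^ (i / n + 1) * α'⌋) ?_
      rw [hu'e] at hcon
      unfold Int.fract at hcon
      push_cast
      exact ⟨by linarith [hcon.1], by linarith [hcon.2]⟩
    have av' : v' ≤ α' ∨ β' ≤ v' := by
      by_contra hcon
      push Not at hcon
      refine h'.avoid' (i / n + 1) (-⌊2 ^ (i / n + 1) * β'⌋) ?_
      rw [hv'e] at hcon
      unfold Int.fract at hcon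
      push_cast
      exact ⟨by linarith [hcon.1], by linarith [hcon.2]⟩
    have cu : (u' < θ' ∧ TT n α β u' < θ) ∨ (θ' < u' ∧ θ < TT n α β u') := by
      rcases av with h3 | h3
      · exact Or.inl ⟨by linarith, lt_of_le_of_lt (TT_le hn hab hu'0 h3 hα1) h1⟩
      · exact Or.inr ⟨by linarith, lt_of_lt_of_le h2 (TT_le hn hab hβ0.le h3 hu'1)⟩
    have cv : (v' < θ' ∧ TT n α β v' < θ) ∨ (θ' < v' ∧ θ < TT n α β v') := by
      rcases av' with h3 | h3
      · exact Or.inl ⟨by linarith, lt_of_le_of_lt (TT_le hn hab hv'0 h3 hα1) h1⟩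
      · exact Or.inr ⟨by linarith, lt_of_lt_of_le h2 (TT_le hn hab hβ0.le h3 hv'1)⟩
    obtain ⟨w, j, k, s1, s2, s3, s4⟩ := h'.side θ' t1 t2 (i / n)
    have fu : (⌊2 * u⌋ : ℝ) + u' = 2 * u := Int.floor_add_fract _
    have fv : (⌊2 * v⌋ : ℝ) + v' = 2 * v := Int.floor_add_fract _
    have gu : (⌊2 ^ (i / n) * α'⌋ : ℝ) + u = 2 ^ (i / n) * α' := Int.floor_add_fract _
    have gv : (⌊2 ^ (i / n) * β'⌋ : ℝ) + v = 2 ^ (i / n) * β' := Int.floor_add_fract _
    set fa := ⌊(2 : ℝ) ^ (i / n) * α'⌋ with hfa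
    set fb := ⌊(2 : ℝ) ^ (i / n) * β'⌋ with hfb
    -- parity
    have hpar : ∃ e : ℤ, (⌊2 * u⌋ - (if TT n α β u' < θ then 1 else 0)) =
        (⌊2 * v⌋ - (if TT n α β v' < θ then 1 else 0)) + 2 * e := by
      have qa : ⌊2 * u⌋ - (if TT n α β u' < θ then 1 else 0) = w + 2 * j - 2 * fa := by
        rcases cu with ⟨c1, c2⟩ | ⟨c1, c2⟩
        · rw [if_pos c2]
          have g1 : ((w + 2 * j - 2 * fa : ℤ) : ℝ) < ((⌊2 * u⌋ : ℤ) : ℝ) := by
            push_cast; linarith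
          have g2 : ((⌊2 * u⌋ : ℤ) : ℝ) < ((w + 2 * j - 2 * fa + 2 : ℤ) : ℝ) := by
            push_cast; linarith
          have g3 := cast_lt_of g1
          have g4 := cast_lt_of g2
          omega
        · rw [if_neg (not_lt.2 c2.le)]
          have g1 : ((w + 2 * j - 2 * fa - 1 : ℤ) : ℝ) < ((⌊2 * u⌋ : ℤ) : ℝ) := by
            push_cast; linarith
          have g2 : ((⌊2 * u⌋ : ℤ) : ℝ) < ((w + 2 * j - 2 * fa + 1 : ℤ) : ℝ) := by
            push_cast; linarith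
          have g3 := cast_lt_of g1
          have g4 := cast_lt_of g2
          omega
      have qb : ⌊2 * v⌋ - (if TT n α β v' < θ then 1 else 0) = w + 2 * k - 2 * fb := by
        rcases cv with ⟨c1, c2⟩ | ⟨c1, c2⟩
        · rw [if_pos c2]
          have g1 : ((w + 2 * k - 2 * fb : ℤ) : ℝ) < ((⌊2 * v⌋ : ℤ) : ℝ) := by
            push_cast; linarith
          have g2 : ((⌊2 * v⌋ : ℤ) : ℝ) < ((w + 2 * k - 2 * fb + 2 : ℤ) : ℝ) := by
            push_cast; linarith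
          have g3 := cast_lt_of g1
          have g4 := cast_lt_of g2
          omega
        · rw [if_neg (not_lt.2 c2.le)]
          have g1 : ((w + 2 * k - 2 * fb - 1 : ℤ) : ℝ) < ((⌊2 * v⌋ : ℤ) : ℝ) := by
            push_cast; linarith
          have g2 : ((⌊2 * v⌋ : ℤ) : ℝ) < ((w + 2 * k - 2 * fb + 1 : ℤ) : ℝ) := by
            push_cast; linarith
          have g3 := cast_lt_of g1
          have g4 := cast_lt_of g2
          omega
      exact ⟨j - fa - k + fb, by rw [qa, qb]; ring⟩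
    obtain ⟨e, he⟩ := hpar
    have hu3 := TT_last h hA hB hθ1 hθ2 hu0 hu1 (fun hc => by
      rcases cu with ⟨-, c2⟩ | ⟨-, c2⟩
      · exact absurd hc c2.ne
      · exact absurd hc c2.ne') rfl
    have hv3 := TT_last h hA hB hθ1 hθ2 hv0 hv1 (fun hc => by
      rcases cv with ⟨-, c2⟩ | ⟨-, c2⟩
      · exact absurd hc c2.ne
      · exact absurd hc c2.ne') rfl
    have hww : (A + ⌊2 * u⌋ - (if TT n α β (Int.fract (2 * u)) < θ then 1 else 0)) % 2 =
        (A + ⌊2 * v⌋ - (if TT n α β (Int.fract (2 * v)) < θ then 1 else 0)) % 2 := by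
      have he' : (⌊2 * u⌋ - (if TT n α β (Int.fract (2 * u)) < θ then 1 else 0)) =
        (⌊2 * v⌋ - (if TT n α β (Int.fract (2 * v)) < θ then 1 else 0)) + 2 * e := he
      omega
    rw [hr']
    refine SameSide.of_half (half_add_int _ hu3) (half_add_int _ ?_)
    rw [hww]
    exact hv3

end Pool.Agent.Work.MLC.Shp
end

section
set_option autoImplicit false

/-! # The infinitely renormalizable angles are not a null set for any power of the gauge (helper6) -/

namespace Pool.Agent.Work.MLC.Uni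

open Filter Topology Set
open Pool.Agent.Work.MLC Pool.Agent.Work.MLC.Shp

variable {S : Type} {m : ℕ} {a b : S → ℝ}

/-- the composed wakes -/
noncomputable def st (m : ℕ) (a b : S → ℝ) (w : ℕ → S) : ℕ → ℕ × ℝ × ℝ
  | 0 => (m, a (w 0), b (w 0))
  | k + 1 => ((st m a b w k).1 * m,
      TT (st m a b w k).1 (st m a b w k).2.1 (st m a b w k).2.2 (a (w (k + 1))),
      TT (st m a b w k).1 (st m a b w k).2.1 (st m a b w k).2.2 (b (w (k + 1))))

lemma st_n (w : ℕ → S) (k : ℕ) : (st m a b w k).1 = m ^ (k + 1) := by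
  induction k with
  | zero => simp [st]
  | succ k ih => rw [pow_succ, ← ih]; rfl

lemma st_wake (hm : 2 ≤ m) (hW : ∀ s, Wake m (a s) (b s)) (w : ℕ → S) (k : ℕ) :
    Wake (st m a b w k).1 (st m a b w k).2.1 (st m a b w k).2.2 := by
  induction k with
  | zero => exact hW _
  | succ k ih =>
    refine wake_tun ih ?_ (hW _) hm
    rw [st_n]
    calc 2 ≤ m := hm
      _ = m ^ 1 := (pow_one m).symm
      _ ≤ m ^ (k + 1) := Nat.pow_le_pow_right (by omega) (by omega)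

lemma two_le_pow (hm : 2 ≤ m) (k : ℕ) : 2 ≤ m ^ (k + 1) := by
  calc 2 ≤ m := hm
    _ = m ^ 1 := (pow_one m).symm
    _ ≤ m ^ (k + 1) := Nat.pow_le_pow_right (by omega) (by omega)

/-- the left ends -/
lemma st_step (hm : 2 ≤ m) (hW : ∀ s, Wake m (a s) (b s)) (hh : ∀ s, a s < 1 / 2) (w : ℕ → S)
    (k : ℕ) : (st m a b w k).2.1 ≤ (st m a b w (k + 1)).2.1 ∧
    (st m a b w (k + 1)).2.1 ≤ (st m a b w k).2.1 + 1 / 3 * (1 / 2) ^ (m ^ (k + 1)) := by
  have hw := st_wake hm hW w k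
  have hn : 2 ≤ (st m a b w k).1 := by rw [st_n]; exact two_le_pow hm k
  have h0 := ((hW (w (k + 1))).pos_lt hm).1
  have h1 := hh (w (k + 1))
  obtain ⟨δ, d1, d2, d3⟩ := TT_near (n := (st m a b w k).1) hw.pos hw.lt h0.le
    (show a (w (k + 1)) < 1 by linarith)
  have hfl : ⌊2 * a (w (k + 1))⌋ = 0 := by
    rw [Int.floor_eq_iff]; constructor <;> push_cast <;> linarith
  have h3 := hw.third hn
  rcases d3 with ⟨-, d3⟩ | ⟨d4, -⟩
  · have e : (st m a b w (k + 1)).2.1 = (st m a b w k).2.1 + δ := d3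
    rw [e]
    refine ⟨by linarith, ?_⟩
    have hp : (0 : ℝ) < 2 ^ (m ^ (k + 1)) := by positivity
    have h4 : δ * 2 ^ (m ^ (k + 1)) ≤ 1 / 3 := by
      rw [st_n] at d2
      linarith
    have h5 : (1 / 2 : ℝ) ^ (m ^ (k + 1)) = 1 / 2 ^ (m ^ (k + 1)) := by rw [div_pow, one_pow]
    rw [h5, mul_one_div]
    have : δ ≤ 1 / 3 / 2 ^ (m ^ (k + 1)) := by rw [le_div_iff₀ hp]; exact h4
    linarith
  · rw [hfl] at d4
    exact absurd d4 (by norm_num)

lemma st_mono (hm : 2 ≤ m) (hW : ∀ s, Wake m (a s) (b s)) (hh : ∀ s, a s < 1 / 2) (w : ℕ → S) :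
    Monotone fun k => (st m a b w k).2.1 :=
  monotone_nat_of_le_succ fun k => (st_step hm hW hh w k).1

lemma st_up (hm : 2 ≤ m) (hW : ∀ s, Wake m (a s) (b s)) (hh : ∀ s, a s < 1 / 2) (w : ℕ → S)
    (j : ℕ) : ∀ k, (st m a b w (k + j)).2.1 ≤
      (st m a b w k).2.1 + 4 / 9 * (1 / 2) ^ (m ^ (k + 1)) := by
  induction j with
  | zero => intro k; rw [add_zero]; linarith [show (0 : ℝ) < (1 / 2) ^ (m ^ (k + 1)) by positivity]
  | succ j ih =>
    intro k
    have h1 := ih (k + 1)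
    have h2 := (st_step hm hW hh w k).2
    have e : k + 1 + j = k + (j + 1) := by ring
    rw [e] at h1
    have h3 : (1 / 2 : ℝ) ^ (m ^ (k + 1 + 1)) ≤ 1 / 4 * (1 / 2) ^ (m ^ (k + 1)) := by
      have h4 : 2 + m ^ (k + 1) ≤ m ^ (k + 1 + 1) := by
        have h5 := two_le_pow hm k
        rw [pow_succ m (k + 1)]
        nlinarith
      calc (1 / 2 : ℝ) ^ (m ^ (k + 1 + 1)) ≤ (1 / 2) ^ (2 + m ^ (k + 1)) :=
            pow_le_pow_of_le_one (by norm_num) (by norm_num) h4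
        _ = 1 / 4 * (1 / 2) ^ (m ^ (k + 1)) := by rw [pow_add]; norm_num
    linarith

/-- the limit -/
noncomputable def th (m : ℕ) (a b : S → ℝ) (w : ℕ → S) : ℝ := ⨆ k, (st m a b w k).2.1

lemma bdd_st (hm : 2 ≤ m) (hW : ∀ s, Wake m (a s) (b s)) (w : ℕ → S) :
    BddAbove (range fun k => (st m a b w k).2.1) := by
  refine ⟨1, ?_⟩
  rintro _ ⟨k, rfl⟩
  have := st_wake hm hW w k
  exact this.lt.le.trans this.le_one

lemma tendsto_th (hm : 2 ≤ m) (hW : ∀ s, Wake m (a s) (b s)) (hh : ∀ s, a s < 1 / 2) (w : ℕ → S) :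
    Tendsto (fun k => (st m a b w k).2.1) atTop (𝓝 (th m a b w)) :=
  tendsto_atTop_ciSup (st_mono hm hW hh w) (bdd_st hm hW w)

lemma th_bounds (hm : 2 ≤ m) (hW : ∀ s, Wake m (a s) (b s)) (hh : ∀ s, a s < 1 / 2) (w : ℕ → S)
    (k : ℕ) : (st m a b w k).2.1 ≤ th m a b w ∧
    th m a b w ≤ (st m a b w k).2.1 + 4 / 9 * (1 / 2) ^ (m ^ (k + 1)) := by
  have ht := tendsto_th hm hW hh w
  constructor
  · exact ge_of_tendsto ht (eventually_atTop.2 ⟨k, fun j hj => st_mono hm hW hh w hj⟩)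
  · refine le_of_tendsto ht (eventually_atTop.2 ⟨k, fun j hj => ?_⟩)
    obtain ⟨i, rfl⟩ := Nat.exists_eq_add_of_le hj
    exact st_up hm hW hh w i k

lemma st_congr {w w' : ℕ → S} {k : ℕ} (h : ∀ j < k + 1, w j = w' j) :
    st m a b w k = st m a b w' k := by
  induction k with
  | zero => simp only [st, h 0 (by omega)]
  | succ k ih =>
    have h1 := ih fun j hj => h j (by omega)
    simp only [st, h1, h (k + 1) (by omega)]

/-- a copy in a copy -/
lemma st_tuned (hm : 2 ≤ m) (hW : ∀ s, Wake m (a s) (b s)) (w : ℕ → S) (k : ℕ) :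
    Tuned (st m a b w (k + 1)).1 (st m a b w (k + 1)).2.1 (st m a b w (k + 1)).2.2 ⊆
      Tuned (st m a b w k).1 (st m a b w k).2.1 (st m a b w k).2.2 := by
  have hw := st_wake hm hW w k
  set n := (st m a b w k).1 with hn
  set α := (st m a b w k).2.1 with hα
  set β := (st m a b w k).2.2 with hβ
  have hs := hW (w (k + 1))
  obtain ⟨p1, p2⟩ := hs.pos_lt hm
  have hlt := hs.lt
  have key : ∀ x : ℝ, 0 < x → x < 1 → (∃ z : ℤ, (2 ^ m - 1) * x = z) →
      ∃ y : ℕ → ℝ, y 0 = TT n α β x ∧ y m = TT n α β x ∧ (∀ i, |y i| ≤ 1) ∧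
        ∀ i, ∃ e, (e = α ∨ e = β) ∧ y (i + 1) = 2 ^ n * y i - (2 ^ n - 1) * e := by
    intro x h0 h1 ⟨z, hz⟩
    have hfr : Int.fract x = x := Int.fract_eq_self.2 ⟨h0.le, h1⟩
    refine ⟨fun i => TT n α β (Int.fract (2 ^ i * x)), ?_, ?_, fun i => ?_, fun i => ?_⟩
    · show TT n α β (Int.fract (2 ^ 0 * x)) = _
      rw [pow_zero, one_mul, hfr]
    · show TT n α β (Int.fract (2 ^ m * x)) = _
      have h2 : (2 : ℝ) ^ m * x = x + z := by linarith
      rw [h2, Int.fract_add_intCast, hfr]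
    · obtain ⟨b1, b2⟩ := TT_bounds hw.pos hw.lt (Int.fract (2 ^ i * x))
      show |TT n α β (Int.fract (2 ^ i * x))| ≤ 1
      rw [abs_le]
      have := hw.nonneg
      have := hw.le_one
      constructor <;> linarith
    · have h2 := TT_step (α := α) (β := β) hw.pos (Int.fract_nonneg (2 ^ i * x))
        (Int.fract_lt_one (2 ^ i * x))
      rw [fract_two_mul_fract] at h2
      exact ⟨_, ee_or α β ⌊2 * Int.fract (2 ^ i * x)⌋, by
        show TT n α β (Int.fract (2 ^ (i + 1) * x)) = 2 ^ n * TT n α β (Int.fract (2 ^ i * x)) - _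
        linarith⟩
  obtain ⟨ya, a0, aq, ab, as⟩ := key _ p1 (by linarith) hs.per
  obtain ⟨yb, b0, bq, bb, bs⟩ := key _ (by linarith) p2 hs.per'
  exact tuned_trans hw.pos (by omega) a0 aq ab as b0 bq bb bs

/-- the limit is infinitely renormalizable -/
lemma th_infRen (hm : 2 ≤ m) (hW : ∀ s, Wake m (a s) (b s)) (hh : ∀ s, a s < 1 / 2) (w : ℕ → S) :
    InfRen (th m a b w) := by
  intro N
  have hN : N ≤ m ^ (N + 1) := (Nat.lt_pow_self (by omega : 1 < m)).le.trans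
    (Nat.pow_le_pow_right (by omega) (by omega))
  refine ⟨(st m a b w N).1, by rw [st_n]; exact hN, (st m a b w N).2.1, (st m a b w N).2.2,
    st_wake hm hW w N, ?_⟩
  have hsub : ∀ j, Tuned (st m a b w (N + j)).1 (st m a b w (N + j)).2.1 (st m a b w (N + j)).2.2 ⊆
      Tuned (st m a b w N).1 (st m a b w N).2.1 (st m a b w N).2.2 := by
    intro j
    induction j with
    | zero => exact Subset.rfl
    | succ j ih => exact (st_tuned hm hW w (N + j)).trans ih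
  refine (isClosed_tuned (st_wake hm hW w N).pos _ _).mem_of_tendsto (tendsto_th hm hW hh w)
    (eventually_atTop.2 ⟨N + 1, fun j hj => ?_⟩)
  obtain ⟨i, rfl⟩ := Nat.exists_eq_add_of_le hj
  have h1 : N + 1 + i = (N + i) + 1 := by ring
  rw [h1]
  exact hsub i (TT_mem (st_wake hm hW w (N + i)).pos _ _ _)

lemma gap_of_per {x y : ℝ} (hm : 0 < m) (hxy : x < y) (hx : ∃ z : ℤ, (2 ^ m - 1) * x = z)
    (hy : ∃ z : ℤ, (2 ^ m - 1) * y = z) : 1 ≤ (2 ^ m - 1) * (y - x) := by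
  obtain ⟨u, hu⟩ := hx
  obtain ⟨v, hv⟩ := hy
  have h1 : (1 : ℝ) < 2 ^ m := one_lt_pow₀ (by norm_num) hm.ne'
  have h2 : (u : ℝ) < v := by
    rw [← hu, ← hv]
    exact mul_lt_mul_of_pos_left hxy (by linarith)
  have h3 : u + 1 ≤ v := by
    have : u < v := by exact_mod_cast h2
    omega
  have h4 : (u : ℝ) + 1 ≤ v := by exact_mod_cast h3
  linarith [mul_sub ((2 : ℝ) ^ m - 1) y x]

lemma th_lt_half (hm : 2 ≤ m) (hW : ∀ s, Wake m (a s) (b s)) (hh : ∀ s, a s < 1 / 2) (w : ℕ → S) :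
    0 < th m a b w ∧ th m a b w < 1 / 2 := by
  obtain ⟨h1, h2⟩ := th_bounds hm hW hh w 0
  have e : (st m a b w 0).2.1 = a (w 0) := rfl
  rw [e] at h1 h2
  refine ⟨lt_of_lt_of_le ((hW (w 0)).pos_lt hm).1 h1, lt_of_le_of_lt h2 ?_⟩
  obtain ⟨z, hz⟩ := (hW (w 0)).per
  have hp : (1 : ℝ) < 2 ^ m := one_lt_pow₀ (by norm_num) (by omega)
  have h3 : (2 * z : ℝ) < 2 ^ m - 1 := by
    rw [← hz]
    have := hh (w 0)
    nlinarith
  have h4 : 2 * z ≤ 2 ^ m - 2 := by
    have h5 : 2 * z < 2 ^ m - 1 := by exact_mod_cast h3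
    omega
  have h5 : (2 * z : ℝ) ≤ 2 ^ m - 2 := by exact_mod_cast h4
  have h6 : (1 / 2 : ℝ) ^ (m ^ (0 + 1)) = 1 / 2 ^ m := by
    rw [zero_add, pow_one, div_pow, one_pow]
  rw [h6]
  have hp0 : (0 : ℝ) < 2 ^ m := by positivity
  have h7 : a (w 0) ≤ 1 / 2 - 1 / 2 * (1 / 2 ^ m) := by
    have h8 : (2 ^ m - 1) * a (w 0) ≤ (2 ^ m - 1) * (1 / 2 - 1 / 2 * (1 / 2 ^ m)) := by
      rw [hz]
      have h9 : (2 ^ m - 1) * (1 / 2 - 1 / 2 * (1 / 2 ^ m : ℝ)) =
          1 / 2 * (2 ^ m - 2) + 1 / 2 * (1 / 2 ^ m) := by field_simp; ring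
      rw [h9]
      have : (0 : ℝ) < 1 / 2 ^ m := by positivity
      linarith
    exact le_of_mul_le_mul_left h8 (by linarith)
  have : (0 : ℝ) < 1 / 2 ^ m := by positivity
  linarith

/-- closeness -/
lemma th_close (hm : 2 ≤ m) (hW : ∀ s, Wake m (a s) (b s)) (hh : ∀ s, a s < 1 / 2)
    (w w' : ℕ → S) (k : ℕ) (h : ∀ j < k, w j = w' j) :
    |th m a b w - th m a b w'| ≤ (1 / 2) ^ (m ^ k) := by
  rcases Nat.eq_zero_or_pos k with hk | hk
  · subst hk
    rw [pow_zero, pow_one, abs_le]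
    have h1 := th_lt_half hm hW hh w
    have h2 := th_lt_half hm hW hh w'
    constructor <;> linarith [h1.1, h1.2, h2.1, h2.2]
  · obtain ⟨i, rfl⟩ : ∃ i, k = i + 1 := ⟨k - 1, by omega⟩
    obtain ⟨h1, h2⟩ := th_bounds hm hW hh w i
    obtain ⟨h3, h4⟩ := th_bounds hm hW hh w' i
    rw [st_congr h] at h1 h2
    have h5 : (0 : ℝ) < (1 / 2) ^ (m ^ (i + 1)) := by positivity
    rw [abs_le]
    constructor <;> linarith

/-- separation, ordered form -/
lemma th_sep_aux (hm : 2 ≤ m) (hW : ∀ s, Wake m (a s) (b s)) (hh : ∀ s, a s < 1 / 2)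
    (w w' : ℕ → S) (k : ℕ) (h : ∀ j < k, w j = w' j) (hlt : a (w k) < a (w' k)) :
    (1 / 2) ^ (4 * m ^ (k + 1)) ≤ th m a b w' - th m a b w := by
  have hm0 : 0 < m := by omega
  have hP : (1 / 2 : ℝ) ^ (4 * m ^ (k + 1)) ≤ 1 / 18 * (1 / 2) ^ (m ^ (k + 1)) := by
    have h5 := two_le_pow hm k
    calc (1 / 2 : ℝ) ^ (4 * m ^ (k + 1)) ≤ (1 / 2) ^ (5 + m ^ (k + 1)) :=
          pow_le_pow_of_le_one (by norm_num) (by norm_num) (by omega)
      _ = 1 / 32 * (1 / 2) ^ (m ^ (k + 1)) := by rw [pow_add]; norm_num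
      _ ≤ 1 / 18 * (1 / 2) ^ (m ^ (k + 1)) :=
          mul_le_mul_of_nonneg_right (by norm_num) (by positivity)
  have hpos : (0 : ℝ) < (1 / 2) ^ (m ^ (k + 1)) := by positivity
  have hgap := gap_of_per hm0 hlt (hW (w k)).per (hW (w' k)).per
  obtain ⟨-, h2⟩ := th_bounds hm hW hh w k
  obtain ⟨h3, -⟩ := th_bounds hm hW hh w' k
  have hmain : (st m a b w k).2.1 + 1 / 2 * (1 / 2) ^ (m ^ (k + 1)) ≤ (st m a b w' k).2.1 := by
    rcases Nat.eq_zero_or_pos k with hk | hk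
    · subst hk
      show a (w 0) + _ ≤ a (w' 0)
      have hp0 : (0 : ℝ) < 2 ^ m := by positivity
      have h6 : (1 / 2 : ℝ) ^ (m ^ (0 + 1)) = 1 / 2 ^ m := by
        rw [zero_add, pow_one, div_pow, one_pow]
      rw [h6]
      have h7 : 1 / 2 ^ m ≤ a (w' 0) - a (w 0) := by
        rw [div_le_iff₀ hp0]
        nlinarith
      have : (0 : ℝ) < 1 / 2 ^ m := by positivity
      linarith
    · obtain ⟨i, rfl⟩ : ∃ i, k = i + 1 := ⟨k - 1, by omega⟩
      have hst := st_congr (m := m) (a := a) (b := b) h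
      have hw := st_wake hm hW w' i
      have hn : 2 ≤ (st m a b w' i).1 := by rw [st_n]; exact two_le_pow hm i
      have e1 : (st m a b w (i + 1)).2.1 = TT (st m a b w' i).1 (st m a b w' i).2.1
          (st m a b w' i).2.2 (a (w (i + 1))) := by
        simp only [st, hst]
      have e2 : (st m a b w' (i + 1)).2.1 = TT (st m a b w' i).1 (st m a b w' i).2.1
          (st m a b w' i).2.2 (a (w' (i + 1))) := rfl
      have h0 := ((hW (w (i + 1))).pos_lt hm).1
      have h1 := hh (w' (i + 1))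
      have hsep := TT_sep hn hw.lt m h0.le hlt (by linarith) (by
        nlinarith)
      rw [← e1, ← e2] at hsep
      have hg2 := gap_of_per (m := (st m a b w' i).1) hw.pos hw.lt hw.per hw.per'
      have hp1 : (0 : ℝ) < 2 ^ (st m a b w' i).1 := by positivity
      have h8 : 1 / 2 ^ (st m a b w' i).1 ≤ (st m a b w' i).2.2 - (st m a b w' i).2.1 := by
        rw [div_le_iff₀ hp1]
        have := hw.lt
        nlinarith
      have h9 : (1 / 2 : ℝ) ^ (m ^ (i + 1 + 1)) =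
          (1 / 2 ^ (st m a b w' i).1) * (1 / 2 ^ (st m a b w' i).1) ^ (m - 1) := by
        rw [← pow_succ', Nat.sub_add_cancel hm0, st_n, ← one_div_pow, ← pow_mul, ← pow_succ]
      have h10 : (0 : ℝ) < (1 / 2 ^ (st m a b w' i).1) ^ (m - 1) := by positivity
      rw [h9]
      have h11 : 1 / 2 * ((1 / 2 ^ (st m a b w' i).1) * (1 / 2 ^ (st m a b w' i).1) ^ (m - 1)) ≤
          ((st m a b w' i).2.2 - (st m a b w' i).2.1) / 2 *
            (1 / 2 ^ (st m a b w' i).1) ^ (m - 1) := by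
        have := mul_le_mul_of_nonneg_right h8 h10.le
        linarith
      linarith
  linarith

lemma th_sep (hm : 2 ≤ m) (hW : ∀ s, Wake m (a s) (b s)) (hh : ∀ s, a s < 1 / 2)
    (hinj : Function.Injective a) (w w' : ℕ → S) (k : ℕ) (h : ∀ j < k, w j = w' j)
    (hne : w k ≠ w' k) : (1 / 2) ^ (4 * m ^ (k + 1)) ≤ |th m a b w - th m a b w'| := by
  rcases lt_trichotomy (a (w k)) (a (w' k)) with h1 | h1 | h1
  · rw [abs_sub_comm]
    exact (th_sep_aux hm hW hh w w' k h h1).trans (le_abs_self _)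
  · exact absurd (hinj h1) hne
  · exact (th_sep_aux hm hW hh w' w k (fun j hj => (h j hj).symm) h1).trans (le_abs_self _)

/-- **from many wakes of one period** -/
theorem not_nullS_of_wakes {s m : ℕ} (hm : 2 ≤ m) {S : Finset (ℝ × ℝ)}
    (hS : (4 * m) ^ s ≤ S.card) (hW : ∀ p ∈ S, Wake m p.1 p.2) (hh : ∀ p ∈ S, p.1 < 1 / 2)
    (hinj : ∀ p ∈ S, ∀ q ∈ S, p.1 = q.1 → p = q) :
    ¬ NullS s {θ | θ ∈ Ico (0 : ℝ) 1 ∧ InfRen θ} := by
  intro hN
  have hcard : (4 * m) ^ s ≤ Fintype.card S := by rw [Fintype.card_coe]; exact hS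
  have hW' : ∀ p : S, Wake m p.1.1 p.1.2 := fun p => hW p.1 p.2
  have hh' : ∀ p : S, p.1.1 < 1 / 2 := fun p => hh p.1 p.2
  refine not_null_tree s m hm hcard (th m (fun p : S => p.1.1) fun p => p.1.2)
    (fun w w' k h => th_close hm hW' hh' w w' k h)
    (fun w w' k h hne => th_sep hm hW' hh' (fun p q h => Subtype.ext (hinj _ p.2 _ q.2 h))
      w w' k h hne) (NullS.mono ?_ hN)
  rintro _ ⟨w, rfl⟩
  have h1 := th_lt_half hm hW' hh' w
  exact ⟨⟨h1.1.le, by linarith [h1.2]⟩, th_infRen hm hW' hh' w⟩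

end Pool.Agent.Work.MLC.Uni
end

section
set_option autoImplicit false

/-! # The infinitely renormalizable angles are not a null set for any power of the gauge (helper6)
-/

namespace Pool.Agent.Work.MLC.Uni

open Set
open Pool.Agent.Work.MLC.Shp

/-- **the infinitely renormalizable angles have positive measure for every gauge
`(1 / log (1 / t)) ^ s`** -/
theorem not_nullS_infRen (s : ℕ) : ¬ NullS s {θ | θ ∈ Ico (0 : ℝ) 1 ∧ InfRen θ} := by
  obtain ⟨m, hm, S, h1, h2, h3⟩ := UniB.many_wakes' s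
  refine not_nullS_of_wakes hm (S := S) ?_ (fun p hp => (h2 p hp).1) (fun p hp => (h2 p hp).2)
    (fun p hp q hq h => h3 p hp q hq h)
  exact le_trans (Nat.le_mul_of_pos_left _ (by norm_num)) h1

end Pool.Agent.Work.MLC.Uni
end

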