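import Pool.Agent.Work.MLCM.C72
import Pool.Agent.Work.MLCM.C82

section
set_option autoImplicit false

/-! # Theorem U: the combinatorial theorem `U_comb` (helper6) -/

namespace Pool.Agent.Work.MLC.Uni

open Filter Topology Metric Set
open Pool.Agent.Work.MLC.Cnt
open Pool.Agent.Work.MLC.Shp (Wake)

/-! ### the smallest wake of an angle -/

/-- the trivial wake -/
lemma wake_one : Wake 1 0 1 where
  pos := one_pos
  nonneg := le_rfl
  lt := one_pos
  le_one := le_rfl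
  per := ⟨0, by norm_num⟩
  per' := ⟨1, by norm_num⟩
  exact := fun d h1 h2 => by omega
  exact' := fun d h1 h2 => by omega
  side := by
    intro θ h0 h1 i
    refine ⟨1, -1, 2 ^ i - 1, ?_, ?_, ?_, ?_⟩ <;> push_cast <;> linarith

lemma pow_sub_pos {m : ℕ} (hm : 0 < m) : (0 : ℝ) < 2 ^ m - 1 := by
  have : (1 : ℝ) < 2 ^ m := one_lt_pow₀ (by norm_num) hm.ne'
  linarith

lemma wake_num {m : ℕ} {α β : ℝ} (h : Wake m α β) : ∃ a b : ℕ, a ≤ 2 ^ m ∧ b ≤ 2 ^ m ∧
    α = a / (2 ^ m - 1) ∧ β = b / (2 ^ m - 1) := by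
  obtain ⟨a, ha⟩ := h.per
  obtain ⟨b, hb⟩ := h.per'
  have hp := pow_sub_pos h.pos
  have h0 := h.nonneg
  have h1 := h.le_one
  have hlt := h.lt
  have key : ∀ (x : ℝ) (c : ℤ), 0 ≤ x → x ≤ 1 → (2 ^ m - 1) * x = c →
      ∃ n : ℕ, n ≤ 2 ^ m ∧ x = n / (2 ^ m - 1) := by
    intro x c hx0 hx1 hc
    have hc0 : (0 : ℤ) ≤ c := by
      have : (0 : ℝ) ≤ c := by rw [← hc]; positivity
      exact_mod_cast this
    obtain ⟨n, rfl⟩ := Int.eq_ofNat_of_zero_le hc0
    refine ⟨n, ?_, ?_⟩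
    · have : (n : ℝ) ≤ 2 ^ m := by
        have h2 : (2 ^ m - 1) * x ≤ (2 ^ m - 1) * 1 := mul_le_mul_of_nonneg_left hx1 hp.le
        rw [hc] at h2
        push_cast at h2
        linarith
      exact_mod_cast this
    · rw [eq_div_iff hp.ne', mul_comm, hc]
      push_cast
      rfl
  obtain ⟨n, h2, h3⟩ := key α a h0 (by linarith) ha
  obtain ⟨n', h4, h5⟩ := key β b (by linarith) h1 hb
  exact ⟨n, n', h2, h4, h3, h5⟩

/-- there are finitely many wakes of bounded period -/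
lemma finite_wakes (n : ℕ) : {p : ℕ × ℝ × ℝ | p.1 ≤ n ∧ Wake p.1 p.2.1 p.2.2}.Finite := by
  have hfin : ((Set.Iic n) ×ˢ ((Set.Iic (2 ^ n)) ×ˢ (Set.Iic (2 ^ n))) : Set (ℕ × ℕ × ℕ)).Finite :=
    (Set.finite_Iic n).prod ((Set.finite_Iic _).prod (Set.finite_Iic _))
  refine (hfin.image fun q : ℕ × ℕ × ℕ =>
    ((q.1, (q.2.1 : ℝ) / (2 ^ q.1 - 1), (q.2.2 : ℝ) / (2 ^ q.1 - 1)) : ℕ × ℝ × ℝ)).subset ?_
  rintro ⟨m, α, β⟩ ⟨hm, hw⟩
  obtain ⟨a, b, h1, h2, h3, h4⟩ := wake_num hw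
  have hle : 2 ^ m ≤ 2 ^ n := Nat.pow_le_pow_right (by norm_num) hm
  refine ⟨(m, a, b), ⟨hm, h1.trans hle, h2.trans hle⟩, ?_⟩
  simp only
  rw [← h3, ← h4]

/-- `(m, α, β)` is the smallest wake of period at most `n` around `θ` -/
structure Sm (n : ℕ) (θ : ℝ) (m : ℕ) (α β : ℝ) : Prop where
  wake : Wake m α β
  le : m ≤ n
  lo : α < θ
  hi : θ < β
  min : ∀ (m' : ℕ) (α' β' : ℝ), m' ≤ n → Wake m' α' β' → α' < θ → θ < β' →
    (m' = m ∧ α' = α ∧ β' = β) ∨ (α' < α ∧ β < β')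

lemma exists_sm (hlam : U_lam) {n : ℕ} (hn : 1 ≤ n) {θ : ℝ} (h0 : 0 < θ) (h1 : θ < 1) :
    ∃ m α β, Sm n θ m α β := by
  have hfin : {p : ℕ × ℝ × ℝ | (p.1 ≤ n ∧ Wake p.1 p.2.1 p.2.2) ∧
    p.2.1 < θ ∧ θ < p.2.2}.Finite := (finite_wakes n).subset fun p hp => hp.1
  have hne : {p : ℕ × ℝ × ℝ | (p.1 ≤ n ∧ Wake p.1 p.2.1 p.2.2) ∧
    p.2.1 < θ ∧ θ < p.2.2}.Nonempty := ⟨(1, 0, 1), ⟨hn, wake_one⟩, h0, h1⟩
  obtain ⟨⟨m, α, β⟩, ⟨⟨hm, hw⟩, hlo, hhi⟩, hmin⟩ :=
    Set.exists_min_image _ (fun p : ℕ × ℝ × ℝ => p.2.2 - p.2.1) hfin hne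
  refine ⟨m, α, β, hw, hm, hlo, hhi, ?_⟩
  intro m' α' β' hm' hw' hlo' hhi'
  have h2 := hmin (m', α', β') ⟨⟨hm', hw'⟩, hlo', hhi'⟩
  simp only at h2 hlo hhi
  rcases hlam m' m α' β' α β hw' hw with h | h | h | h | h
  · exact Or.inl h
  · linarith
  · linarith
  · exact Or.inr h
  · linarith [h.1, h.2]

/-- the next wake -/
lemma next_wake (hws : U_ws) {θ : ℝ} (hir : Irrational θ) (hno : ¬ IrrRot θ)
    {m : ℕ} {α β : ℝ} (hw : Wake m α β) (hlo : α < θ) (hhi : θ < β) :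
    ∃ (W : WS) (x : ℚ), W.Ok ∧ W.m = m ∧ 0 < x ∧ x < 1 ∧ (W.dat x).tm < θ ∧ θ < (W.dat x).tp ∧
      α < (W.dat x).tm ∧ (W.dat x).tp < β ∧ Wake (m * x.den) (W.dat x).tm (W.dat x).tp ∧
      (2 ≤ m → (W.dat (1 / 2)).tm = α + (β - α) / (2 ^ m + 1) ∧
        (W.dat (1 / 2)).tp = β - (β - α) / (2 ^ m + 1)) := by
  obtain ⟨W, hok, hm, hstrip, hhalf, hsat⟩ := hws m α β hw
  have h1 := (hstrip θ).2 ⟨hlo, hhi⟩
  have h2 : ¬ Irrational (W.nu θ) := fun h => hno ⟨W, hok, h1.1, h1.2, h⟩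
  rw [Irrational, not_not] at h2
  obtain ⟨x, hx⟩ := h2
  have hx0 : 0 < x := by
    have : (0 : ℝ) < x := by rw [hx]; exact h1.1
    exact_mod_cast this
  have hx1 : x < 1 := by
    have : (x : ℝ) < 1 := by rw [hx]; exact h1.2
    exact_mod_cast this
  obtain ⟨h3, h4⟩ := (WS.plateau hok hx0 hx1 θ).1 hx.symm
  have hsx := hsat x hx0 hx1
  obtain ⟨a, b, -, -, ha, hb⟩ := wake_num hsx
  have hne : (W.dat x).tm ≠ θ := by
    intro h
    refine hir ⟨(a : ℚ) / (2 ^ (m * x.den) - 1), ?_⟩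
    rw [← h, ha]
    push_cast
    rfl
  have hne' : θ ≠ (W.dat x).tp := by
    intro h
    refine hir ⟨(b : ℚ) / (2 ^ (m * x.den) - 1), ?_⟩
    rw [h, hb]
    push_cast
    rfl
  have h5 := lt_of_le_of_ne h3 hne
  have h6 := lt_of_le_of_ne h4 hne'
  have hlt := (WS.dat_cir hok hx0 hx1).lt
  have h7 : W.nu (W.dat x).tm = x := (WS.plateau hok hx0 hx1 _).2 ⟨le_rfl, hlt.le⟩
  have h8 : W.nu (W.dat x).tp = x := (WS.plateau hok hx0 hx1 _).2 ⟨hlt.le, le_rfl⟩
  have hx0' : (0 : ℝ) < x := by exact_mod_cast hx0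
  have hx1' : (x : ℝ) < 1 := by exact_mod_cast hx1
  have h9 := (hstrip (W.dat x).tm).1 ⟨by rw [h7]; exact hx0', by rw [h7]; exact hx1'⟩
  have h10 := (hstrip (W.dat x).tp).1 ⟨by rw [h8]; exact hx0', by rw [h8]; exact hx1'⟩
  exact ⟨W, x, hok, hm, hx0, hx1, h5, h6, h9.1, h10.2, hsx, hhalf⟩

lemma den_two {x : ℚ} (h0 : 0 < x) (h1 : x < 1) : 2 ≤ x.den := by
  have hp := x.den_pos
  by_contra hcon
  have h2 : x.den = 1 := by omega
  have h3 : x = x.num := by
    rw [← Rat.coe_int_num_of_den_eq_one h2]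
    simp
  rw [h3] at h0 h1
  have h4 : (0 : ℤ) < x.num := by exact_mod_cast h0
  have h5 : x.num < (1 : ℤ) := by exact_mod_cast h1
  omega

lemma eq_half {x : ℚ} (h0 : 0 < x) (h1 : x < 1) (h2 : x.den = 2) : x = 1 / 2 := by
  have h3 : x = x.num / x.den := (Rat.num_div_den x).symm
  rw [h2] at h3
  have h4 : (0 : ℤ) < x.num := Rat.num_pos.2 h0
  have h5 : x.num < 2 := by
    have : (x.num : ℚ) < 2 := by
      rw [h3] at h1
      push_cast at h1
      rw [div_lt_one (by norm_num)] at h1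
      exact h1
    exact_mod_cast this
  have h6 : x.num = 1 := by omega
  rw [h3, h6]
  norm_num

/-- the smallest wakes have large period -/
lemma sm_large (hlam : U_lam) (hws : U_ws) {θ : ℝ} (h0 : 0 < θ) (h1 : θ < 1) (hir : Irrational θ)
    (hno : ¬ IrrRot θ) (K : ℕ) : ∃ n₁, ∀ n, n₁ ≤ n → ∀ m α β, Sm n θ m α β → K < m := by
  obtain ⟨m₁, α₁, β₁, hS⟩ := exists_sm hlam (n := K + 1) (by omega) h0 h1
  obtain ⟨W, x, hok, hm, hx0, hx1, h3, h4, h5, h6, h7, -⟩ := next_wake hws hir hno hS.wake hS.lo hS.hi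
  refine ⟨m₁ * x.den, fun n hn m α β hs => ?_⟩
  by_contra hcon
  push Not at hcon
  -- the smallest wake is inside of the next wake
  rcases hs.min _ _ _ hn h7 h3 h4 with ⟨-, h8, h9⟩ | ⟨h8, h9⟩
  · rcases hS.min _ _ _ (by omega) hs.wake hs.lo hs.hi with ⟨-, h10, h11⟩ | ⟨h10, h11⟩ <;> linarith
  · rcases hS.min _ _ _ (by omega) hs.wake hs.lo hs.hi with ⟨-, h10, h11⟩ | ⟨h10, h11⟩ <;> linarith

/-! ### one-sided limits of the symbols -/

lemma exists_irr_right {y : ℝ} {P : ℝ → Prop} (h : ∀ᶠ t in 𝓝[>] y, P t) :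
    ∃ t, Irrational t ∧ y < t ∧ P t := by
  rw [eventually_nhdsWithin_iff, Metric.eventually_nhds_iff] at h
  obtain ⟨ε, hε, h⟩ := h
  obtain ⟨t, ht, h1, h2⟩ := exists_irrational_btwn (show y < y + ε by linarith)
  refine ⟨t, ht, h1, h ?_ h1⟩
  rw [Real.dist_eq, abs_of_pos (by linarith)]
  linarith

lemma exists_irr_left {y : ℝ} {P : ℝ → Prop} (h : ∀ᶠ t in 𝓝[<] y, P t) :
    ∃ t, Irrational t ∧ t < y ∧ P t := by
  rw [eventually_nhdsWithin_iff, Metric.eventually_nhds_iff] at h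
  obtain ⟨ε, hε, h⟩ := h
  obtain ⟨t, ht, h1, h2⟩ := exists_irrational_btwn (show y - ε < y by linarith)
  refine ⟨t, ht, h2, h ?_ h2⟩
  rw [Real.dist_eq, abs_of_neg (by linarith)]
  linarith

lemma wL_right (y : ℝ) (j : ℕ) : ∀ᶠ t in 𝓝[>] y, wL t j = wL y j := by
  have hc : (0 : ℝ) < 2 ^ (j + 1) - 1 := pow_sub_pos (by omega)
  rw [eventually_nhdsWithin_iff]
  have h1 : ∀ᶠ t in 𝓝 y, 2 ^ (j + 1) * t - t < (⌊2 ^ (j + 1) * y - y⌋ : ℝ) + 1 := by
    have hcont : Continuous fun t : ℝ => 2 ^ (j + 1) * t - t := by fun_prop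
    exact (hcont.tendsto y).eventually (gt_mem_nhds (Int.lt_floor_add_one _))
  filter_upwards [h1] with t ht hty
  have h2 : ⌊2 ^ (j + 1) * t - t⌋ = ⌊2 ^ (j + 1) * y - y⌋ := by
    rw [Int.floor_eq_iff]
    refine ⟨?_, ht⟩
    have h3 := Int.floor_le (2 ^ (j + 1) * y - y)
    have h4 : (2 ^ (j + 1) - 1) * y ≤ (2 ^ (j + 1) - 1) * t :=
      mul_le_mul_of_nonneg_left (le_of_lt hty) hc.le
    linarith
  unfold wL
  rw [h2]

lemma wL_left (y : ℝ) (j : ℕ) : ∀ᶠ t in 𝓝[<] y, wL t j = wR y j := by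
  have hc : (0 : ℝ) < 2 ^ (j + 1) - 1 := pow_sub_pos (by omega)
  rw [eventually_nhdsWithin_iff]
  have h1 : ∀ᶠ t in 𝓝 y, (⌈2 ^ (j + 1) * y - y⌉ : ℝ) - 1 < 2 ^ (j + 1) * t - t := by
    have hcont : Continuous fun t : ℝ => 2 ^ (j + 1) * t - t := by fun_prop
    refine (hcont.tendsto y).eventually (lt_mem_nhds ?_)
    have := Int.ceil_lt_add_one (2 ^ (j + 1) * y - y)
    linarith
  filter_upwards [h1] with t ht hty
  have h2 : ⌊2 ^ (j + 1) * t - t⌋ = ⌈2 ^ (j + 1) * y - y⌉ - 1 := by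
    rw [Int.floor_eq_iff]
    refine ⟨by push_cast; exact ht.le, ?_⟩
    have h3 := Int.le_ceil (2 ^ (j + 1) * y - y)
    have h4 : (2 ^ (j + 1) - 1) * t < (2 ^ (j + 1) - 1) * y :=
      mul_lt_mul_of_pos_left hty hc
    push_cast
    linarith
  unfold wL wR
  rw [h2]

/-! ### angles which are not separated -/

/-- no wake of period less than `m` around `t` is inside of `(α, β)` -/
def NS (m : ℕ) (α β t : ℝ) : Prop := ∀ (m' : ℕ) (α' β' : ℝ), m' < m → Wake m' α' β' → α' < t →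
  t < β' → α' < α ∧ β < β'

lemma Sm.ns {n m : ℕ} {θ α β : ℝ} (h : Sm n θ m α β) : NS m α β θ := by
  intro m' α' β' hm' hw' h1 h2
  rcases h.min m' α' β' (by have := h.le; omega) hw' h1 h2 with h3 | h3
  · omega
  · exact h3

lemma word_eq (hpar : U_par) {m : ℕ} {α β θ t : ℝ} (hw : Wake m α β) (hθ : Irrational θ)
    (ht : Irrational t) (h1 : α < θ) (h2 : θ < β) (h3 : α < t) (h4 : t < β) (hn : NS m α β θ)
    (hn' : NS m α β t) : ∀ j, j + 1 < m → wL θ j = wL t j := by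
  have hpos := hw.pos
  have h0 := hw.nonneg
  have h1' := hw.le_one
  intro j hj
  refine hpar (m - 1) θ t hθ ht (by linarith) (by linarith) (by linarith) (by linarith) ?_ j
    (by omega)
  rintro ⟨m', α', β', hle, hw', hiff⟩
  apply hiff
  constructor
  · rintro ⟨a1, a2⟩
    obtain ⟨b1, b2⟩ := hn m' α' β' (by omega) hw' a1 a2
    exact ⟨by linarith, by linarith⟩
  · rintro ⟨a1, a2⟩
    obtain ⟨b1, b2⟩ := hn' m' α' β' (by omega) hw' a1 a2
    exact ⟨by linarith, by linarith⟩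

lemma eventually_wakes {m : ℕ} {l : Filter ℝ} {P : ℕ → ℝ → ℝ → ℝ → Prop}
    (h : ∀ (m' : ℕ) (α' β' : ℝ), m' < m → Wake m' α' β' → ∀ᶠ t in l, P m' α' β' t) :
    ∀ᶠ t in l, ∀ (m' : ℕ) (α' β' : ℝ), m' < m → Wake m' α' β' → P m' α' β' t := by
  have hfin : {p : ℕ × ℝ × ℝ | p.1 ≤ m ∧ Wake p.1 p.2.1 p.2.2}.Finite := finite_wakes m
  have h1 : ∀ᶠ t in l, ∀ p ∈ {p : ℕ × ℝ × ℝ | p.1 ≤ m ∧ Wake p.1 p.2.1 p.2.2},
      p.1 < m → P p.1 p.2.1 p.2.2 t := by
    rw [Filter.eventually_all_finite hfin]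
    rintro ⟨m', α', β'⟩ ⟨-, hw⟩
    by_cases hm : m' < m
    · filter_upwards [h m' α' β' hm hw] with t ht _
      exact ht
    · exact Filter.Eventually.of_forall fun t h2 => absurd h2 hm
  filter_upwards [h1] with t ht m' α' β' hm hw
  exact ht (m', α', β') ⟨hm.le, hw⟩ hm

/-- the symbols of the left end -/
lemma word_left (hlam : U_lam) (hpar : U_par) {m : ℕ} {α β θ : ℝ} (hw : Wake m α β)
    (hθ : Irrational θ) (h1 : α < θ) (h2 : θ < β) (hn : NS m α β θ) :
    ∀ j, j + 1 < m → wL θ j = wL α j := by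
  have hab := hw.lt
  have e1 : ∀ᶠ t in 𝓝[>] α, NS m α β t := by
    refine eventually_wakes fun m' α' β' hm' hw' => ?_
    rcases hlam m' m α' β' α β hw' hw with h | h | h | h | h
    · omega
    · filter_upwards [self_mem_nhdsWithin] with t ht _ h4
      have : α < t := ht
      linarith
    · have : ∀ᶠ t in 𝓝[>] α, t < β := (gt_mem_nhds hab).filter_mono nhdsWithin_le_nhds
      filter_upwards [this] with t ht h3 _
      linarith
    · exact Filter.Eventually.of_forall fun t _ _ => h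
    · have : ∀ᶠ t in 𝓝[>] α, t < α' := (gt_mem_nhds h.1).filter_mono nhdsWithin_le_nhds
      filter_upwards [this] with t ht h3 _
      linarith
  have e2 : ∀ᶠ t in 𝓝[>] α, t < β := (gt_mem_nhds hab).filter_mono nhdsWithin_le_nhds
  have e3 : ∀ᶠ t in 𝓝[>] α, ∀ j ∈ Finset.range m, wL t j = wL α j := by
    rw [Filter.eventually_all_finset]
    exact fun j _ => wL_right α j
  obtain ⟨t, ht, h3, h4, h5, h6⟩ := exists_irr_right (e1.and (e2.and e3))
  intro j hj
  rw [word_eq hpar hw hθ ht h1 h2 h3 h5 hn h4 j hj]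
  exact h6 j (Finset.mem_range.2 (by omega))

/-! ### the wake which covers the middle -/

/-- if no angle of the middle part is unseparated, one wake inside covers the middle part -/
theorem exists_inner (hlam : U_lam) {m : ℕ} {α β θ δ : ℝ} (hw : Wake m α β) (hδ : 0 < δ)
    (hd : 2 * δ < β - α) (hn : NS m α β θ)
    (hmid : ∀ t, Irrational t → α + δ < t → t < β - δ → ¬ NS m α β t) :
    ∃ (m₁ : ℕ) (α₁ β₁ : ℝ), m₁ < m ∧ Wake m₁ α₁ β₁ ∧ α < α₁ ∧ β₁ < β ∧ α₁ ≤ α + δ ∧ β - δ ≤ β₁ ∧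
      ¬ (α₁ < θ ∧ θ < β₁) ∧ ∀ᶠ t in 𝓝[<] α₁, α < t ∧ NS m α β t := by
  have hfin : {p : ℕ × ℝ × ℝ | (p.1 < m ∧ Wake p.1 p.2.1 p.2.2) ∧ α < p.2.1 ∧ p.2.2 < β}.Finite :=
    (finite_wakes m).subset fun p hp => ⟨hp.1.1.le, hp.1.2⟩
  -- cover
  have hcov : ∀ t, Irrational t → α + δ < t → t < β - δ → ∃ (m' : ℕ) (α' β' : ℝ), m' < m ∧
      Wake m' α' β' ∧ α < α' ∧ β' < β ∧ α' < t ∧ t < β' := by
    intro t ht h1 h2
    have h3 := hmid t ht h1 h2
    unfold NS at h3
    push Not at h3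
    obtain ⟨m', α', β', h4, h5, h6, h7, h8⟩ := h3
    rcases hlam m' m α' β' α β h5 hw with h | h | h | h | h
    · omega
    · linarith
    · linarith
    · exact absurd (h8 h.1) (not_le.2 h.2)
    · exact ⟨m', α', β', h4, h5, h.1, h.2, h6, h7⟩
  obtain ⟨t₀, ht₀, h1, h2⟩ := exists_irrational_btwn (show α + δ < β - δ by linarith)
  obtain ⟨m', α', β', a1, a2, a3, a4, a5, a6⟩ := hcov t₀ ht₀ h1 h2
  have hfin' : {p : ℕ × ℝ × ℝ | ((p.1 < m ∧ Wake p.1 p.2.1 p.2.2) ∧ α < p.2.1 ∧ p.2.2 < β) ∧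
      p.2.1 < t₀ ∧ t₀ < p.2.2}.Finite := hfin.subset fun p hp => hp.1
  obtain ⟨⟨m₁, α₁, β₁⟩, ⟨⟨⟨b1, b2⟩, b3, b4⟩, b5, b6⟩, hmax⟩ :=
    Set.exists_max_image _ (fun p : ℕ × ℝ × ℝ => p.2.2 - p.2.1) hfin'
      ⟨(m', α', β'), ⟨⟨a1, a2⟩, a3, a4⟩, a5, a6⟩
  simp only at b1 b2 b3 b4 b5 b6
  have hmax' : ∀ (m' : ℕ) (α' β' : ℝ), m' < m → Wake m' α' β' → α < α' → β' < β →
      ¬ (α' < α₁ ∧ β₁ < β') := by
    rintro m' α' β' c1 c2 c3 c4 ⟨c5, c6⟩
    have := hmax (m', α', β') ⟨⟨⟨c1, c2⟩, c3, c4⟩, by simp only; linarith, by simp only; linarith⟩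
    simp only at this
    linarith
  refine ⟨m₁, α₁, β₁, b1, b2, b3, b4, ?_, ?_, ?_, ?_⟩
  · by_contra hcon
    push Not at hcon
    have e1 : ∀ᶠ t in 𝓝[<] α₁, ∀ (m' : ℕ) (α' β' : ℝ), m' < m → Wake m' α' β' → α < α' → β' < β →
        ¬ (α' < t ∧ t < β') := by
      refine eventually_wakes fun m' α' β' hm' hw' => ?_
      rcases hlam m' m₁ α' β' α₁ β₁ hw' b2 with h | h | h | h | h
      · filter_upwards [self_mem_nhdsWithin] with t ht _ _ h4
        have : t < α₁ := ht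
        linarith [h.2.1, h4.1]
      · have : ∀ᶠ t in 𝓝[<] α₁, β' < t := (lt_mem_nhds h).filter_mono nhdsWithin_le_nhds
        filter_upwards [this] with t ht _ _ h4
        linarith [h4.2]
      · filter_upwards [self_mem_nhdsWithin] with t ht _ _ h4
        have : t < α₁ := ht
        linarith [h4.1]
      · exact Filter.Eventually.of_forall fun t h3 h4 => absurd h (hmax' m' α' β' hm' hw' h3 h4)
      · filter_upwards [self_mem_nhdsWithin] with t ht _ _ h4
        have : t < α₁ := ht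
        linarith [h.1, h4.1]
    have e2 : ∀ᶠ t in 𝓝[<] α₁, α + δ < t := (lt_mem_nhds hcon).filter_mono nhdsWithin_le_nhds
    obtain ⟨t, ht, c1, c2, c3⟩ := exists_irr_left (e1.and e2)
    obtain ⟨m', α', β', d1, d2, d3, d4, d5, d6⟩ := hcov t ht c3 (by linarith)
    exact c2 m' α' β' d1 d2 d3 d4 ⟨d5, d6⟩
  · by_contra hcon
    push Not at hcon
    have e1 : ∀ᶠ t in 𝓝[>] β₁, ∀ (m' : ℕ) (α' β' : ℝ), m' < m → Wake m' α' β' → α < α' → β' < β →
        ¬ (α' < t ∧ t < β') := by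
      refine eventually_wakes fun m' α' β' hm' hw' => ?_
      rcases hlam m' m₁ α' β' α₁ β₁ hw' b2 with h | h | h | h | h
      · filter_upwards [self_mem_nhdsWithin] with t ht _ _ h4
        have : β₁ < t := ht
        linarith [h.2.2, h4.2]
      · filter_upwards [self_mem_nhdsWithin] with t ht _ _ h4
        have : β₁ < t := ht
        linarith [h4.2]
      · have : ∀ᶠ t in 𝓝[>] β₁, t < α' := (gt_mem_nhds h).filter_mono nhdsWithin_le_nhds
        filter_upwards [this] with t ht _ _ h4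
        linarith [h4.1]
      · exact Filter.Eventually.of_forall fun t h3 h4 => absurd h (hmax' m' α' β' hm' hw' h3 h4)
      · filter_upwards [self_mem_nhdsWithin] with t ht _ _ h4
        have : β₁ < t := ht
        linarith [h.2, h4.2]
    have e2 : ∀ᶠ t in 𝓝[>] β₁, t < β - δ := (gt_mem_nhds hcon).filter_mono nhdsWithin_le_nhds
    obtain ⟨t, ht, c1, c2, c3⟩ := exists_irr_right (e1.and e2)
    obtain ⟨m', α', β', d1, d2, d3, d4, d5, d6⟩ := hcov t ht (by linarith) c3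
    exact c2 m' α' β' d1 d2 d3 d4 ⟨d5, d6⟩
  · rintro ⟨c1, c2⟩
    have := (hn m₁ α₁ β₁ b1 b2 c1 c2).1
    linarith
  · have e2 : ∀ᶠ t in 𝓝[<] α₁, α < t := (lt_mem_nhds b3).filter_mono nhdsWithin_le_nhds
    refine e2.and (eventually_wakes fun m' α' β' hm' hw' => ?_)
    rcases hlam m' m α' β' α β hw' hw with h | h | h | h | h
    · omega
    · filter_upwards [e2] with t ht _ h4
      linarith
    · filter_upwards [self_mem_nhdsWithin] with t ht h3 _
      have h5 : t < α₁ := ht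
      have h6 := b2.lt
      linarith
    · exact Filter.Eventually.of_forall fun t _ _ => h
    · rcases hlam m' m₁ α' β' α₁ β₁ hw' b2 with g | g | g | g | g
      · filter_upwards [self_mem_nhdsWithin] with t ht h3 _
        have : t < α₁ := ht
        linarith [g.2.1]
      · have : ∀ᶠ t in 𝓝[<] α₁, β' < t := (lt_mem_nhds g).filter_mono nhdsWithin_le_nhds
        filter_upwards [this] with t ht _ h4
        linarith
      · filter_upwards [self_mem_nhdsWithin] with t ht h3 _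
        have h5 : t < α₁ := ht
        have h6 := b2.lt
        linarith
      · exact absurd g (hmax' m' α' β' hm' hw' h.1 h.2)
      · filter_upwards [self_mem_nhdsWithin] with t ht h3 _
        have : t < α₁ := ht
        linarith [g.1]

/-- **the combinatorial theorem** -/
theorem u_comb (hlam : U_lam) (hpar : U_par) (hnwt : U_nwt) (hwin : U_win) (hevp : U_evp)
    (hws : U_ws) : U_comb := by
  intro θ h0 h1 hir hno ⟨M, hM⟩ n₀
  obtain ⟨n₁, hn₁⟩ := sm_large hlam hws h0 h1 hir hno (max M 2)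
  have hnper : ¬ ∃ l p : ℕ, 0 < p ∧ ∀ k, l ≤ k → wL θ (k + p) = wL θ k :=
    fun h => hno (hevp θ hir h)
  obtain ⟨n, hn, hwn⟩ := hwin (wL θ) hnper (max n₀ (max n₁ 160))
  have hn0 : n₀ ≤ n := (le_max_left _ _).trans hn
  have hn1 : n₁ ≤ n := ((le_max_left _ _).trans (le_max_right _ _)).trans hn
  have hn2 : 160 ≤ n := ((le_max_right _ _).trans (le_max_right _ _)).trans hn
  refine ⟨n, hn0, ?_⟩
  obtain ⟨m, α, β, hS⟩ := exists_sm hlam (n := 4 * n) (by omega) h0 h1
  have hmM := hn₁ (4 * n) (by omega) m α β hS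
  have hmM1 : M ≤ m := (le_max_left M 2).trans hmM.le
  have hm2 : 2 ≤ m := (le_max_right M 2).trans hmM.le
  have hw := hS.wake
  have hab := hw.lt
  have hα0 := hw.nonneg
  have hβ1 := hw.le_one
  -- the component
  obtain ⟨W, x, hok, hWm, hx0, hx1, c1, c2, c3, c4, c5, c6⟩ :=
    next_wake hws hir hno hw hS.lo hS.hi
  have hx2 : x.den = 2 := by
    have hd := den_two hx0 hx1
    by_contra hcon
    exact hM W x hok (by omega) hx0 hx1 (by omega) ⟨c1, c2⟩
  have hx : x = 1 / 2 := eq_half hx0 hx1 hx2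
  rw [hx2] at c5
  rw [hx] at c1 c2 c3 c4 c5
  obtain ⟨c7, c8⟩ := c6 hm2
  have hm2n : 2 * n < m := by
    by_contra hcon
    push Not at hcon
    rcases hS.min _ _ _ (by omega) c5 c1 c2 with h | h
    · linarith [h.2.1]
    · linarith [h.1]
  have hm4n := hS.le
  have hns := hS.ns
  have hwα := word_left hlam hpar hw hir hS.lo hS.hi hns
  set B := n / 8 with hB
  set b := B / 2 with hb
  have hn20 : n / 20 ≤ b := by omega
  -- the key estimate
  have key : ∀ t, Irrational t → α < t → t < β → NS m α β t →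
      min (t - α) (β - t) * (β - α) ≤ (1 / 2) ^ (B + 2) := by
    intro t ht h2 h3 h4
    have hwt := word_eq hpar hw hir ht hS.lo hS.hi h2 h3 hns h4
    refine hnwt m B α β t hw h2 h3 ht ?_ (by omega) (by omega) ?_
    · intro j hj
      rw [← hwt j hj, hwα j hj]
    · intro i p hp hip
      obtain ⟨k, k1, k2, k3⟩ := hwn (m - 1) (by omega) (by omega) i p hp (by omega)
      refine ⟨k, k1, by omega, ?_⟩
      rw [← hwt (k + p) (by omega), ← hwt k (by omega)]
      exact k3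
  refine ⟨W, by linarith, by linarith, c1, c2, ?_⟩
  rcases lt_or_ge (β - α) ((1 / 2) ^ b) with hA | hA
  · left
    refine ⟨hok, by omega, by omega, ?_⟩
    have : ((1 : ℝ) / 2) ^ b ≤ (1 / 2) ^ (n / 20) :=
      pow_le_pow_of_le_one (by norm_num) (by norm_num) hn20
    linarith
  · right
    set δ : ℝ := (1 / 2) ^ (b + 2) with hδ
    have hδ0 : 0 < δ := by positivity
    have hδb : ((1 : ℝ) / 2) ^ b = 4 * δ := by rw [hδ, pow_add]; ring
    have hmid : ∀ t, Irrational t → α + δ < t → t < β - δ → ¬ NS m α β t := by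
      intro t ht h2 h3 h4
      have h5 := key t ht (by linarith) (by linarith) h4
      have h6 : δ < min (t - α) (β - t) := lt_min (by linarith) (by linarith)
      have h7 : ((1 : ℝ) / 2) ^ (B + 2) ≤ δ * (1 / 2) ^ b := by
        rw [hδ, ← pow_add]
        exact pow_le_pow_of_le_one (by norm_num) (by norm_num) (by omega)
      have h8 : δ * (1 / 2) ^ b < min (t - α) (β - t) * (β - α) := by
        have h9 : (0 : ℝ) < (1 / 2) ^ b := by positivity
        calc δ * (1 / 2) ^ b < min (t - α) (β - t) * (1 / 2) ^ b :=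
              mul_lt_mul_of_pos_right h6 h9
          _ ≤ min (t - α) (β - t) * (β - α) := mul_le_mul_of_nonneg_left hA (by linarith)
      linarith
    obtain ⟨m₁, α₁, β₁, d1, d2, d3, d4, d5, d6, d7, d8⟩ :=
      exists_inner hlam hw hδ0 (by linarith) hns hmid
    -- the period of the inner wake
    have hm₁ : m - 1 < 16 * m₁ := by
      by_contra hcon
      push Not at hcon
      obtain ⟨k, -, k2, k3⟩ := hwn (m - 1) (by omega) (by omega) 0 m₁ d2.pos (by omega)
      have e3 : ∀ᶠ t in 𝓝[<] α₁, ∀ j ∈ Finset.range m, wL t j = wR α₁ j := by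
        rw [Filter.eventually_all_finset]
        exact fun j _ => wL_left α₁ j
      obtain ⟨t, ht, g1, ⟨g2, g3⟩, g4⟩ := exists_irr_left (d8.and e3)
      have hwt := word_eq hpar hw hir ht hS.lo hS.hi g2 (by linarith [d2.lt]) hns g3
      obtain ⟨a, ha⟩ := d2.per
      have hper := wR_per (t := α₁) (n := m₁) (a := a) (by rw [← ha]; ring) k
      apply k3
      rw [hwt (k + m₁) (by omega), hwt k (by omega), g4 _ (Finset.mem_range.2 (by omega)),
        g4 _ (Finset.mem_range.2 (by omega)), hper]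
    have hm₁2 : 2 ≤ m₁ := by omega
    obtain ⟨W₁, hok₁, hWm₁, -, hhalf, hsat⟩ := hws m₁ α₁ β₁ d2
    obtain ⟨f1, f2⟩ := hhalf hm₁2
    have hlt₁ := d2.lt
    have hp₁ : (0 : ℝ) < 2 ^ m₁ + 1 := by positivity
    have hp : (0 : ℝ) < 2 ^ m + 1 := by positivity
    have hq₁ : 0 < (β₁ - α₁) / (2 ^ m₁ + 1) := div_pos (by linarith) hp₁
    have hq₂ : (β₁ - α₁) / (2 ^ m₁ + 1) ≤ (1 / 2) ^ (b + 1) := by
      have g1 : ((1 : ℝ) / 2) ^ m₁ ≤ (1 / 2) ^ (b + 1) :=
        pow_le_pow_of_le_one (by norm_num) (by norm_num) (by omega)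
      refine le_trans ?_ g1
      rw [div_le_iff₀ hp₁, one_div, inv_pow]
      have g2 : (0 : ℝ) < 2 ^ m₁ := by positivity
      have g3 : ((2 : ℝ) ^ m₁)⁻¹ * (2 ^ m₁ + 1) = 1 + ((2 : ℝ) ^ m₁)⁻¹ := by
        field_simp
      rw [g3]
      have g4 : 0 < ((2 : ℝ) ^ m₁)⁻¹ := by positivity
      linarith
    have hb1 : ((1 : ℝ) / 2) ^ (b + 1) = 2 * δ := by rw [hδ, pow_add, pow_add]; norm_num; ring
    -- nested arcs
    have hnest : (W.dat (1 / 2)).tm < α₁ ∧ β₁ < (W.dat (1 / 2)).tp := by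
      have hmid0 : (W.dat (1 / 2)).tm < (α + β) / 2 ∧ (α + β) / 2 < (W.dat (1 / 2)).tp := by
        rw [c7, c8]
        have g1 : (β - α) / (2 ^ m + 1) < (β - α) / 2 := by
          apply div_lt_div_of_pos_left (by linarith) (by norm_num)
          have : (2 : ℝ) ^ 1 ≤ 2 ^ m := pow_le_pow_right₀ (by norm_num) (by omega)
          linarith
        constructor <;> linarith
      rcases hlam _ _ _ _ _ _ c5 d2 with h | h | h | h | h
      · omega
      · linarith [hmid0.2]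
      · linarith [hmid0.1]
      · exact h
      · exact absurd ⟨by linarith [h.1], by linarith [h.2]⟩ d7
    refine ⟨W₁, ⟨hok, hok₁, by omega, by omega, by omega, by omega, ?_, ?_, ?_, ?_⟩, ?_⟩
    · rw [f1]; linarith [hnest.1]
    · rw [f2]; linarith [hnest.2]
    · have : ((1 : ℝ) / 2) ^ b ≤ (1 / 2) ^ (n / 20) :=
        pow_le_pow_of_le_one (by norm_num) (by norm_num) hn20
      rw [f1]
      linarith
    · have : ((1 : ℝ) / 2) ^ b ≤ (1 / 2) ^ (n / 20) :=
        pow_le_pow_of_le_one (by norm_num) (by norm_num) hn20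
      rw [f2]
      linarith
    · rintro ⟨g1, g2⟩
      exact d7 ⟨by linarith, by linarith⟩

end Pool.Agent.Work.MLC.Uni
end

section
set_option autoImplicit false

/-! # Theorem U: module `U_par` (helper31)

Angles which are not separated by a wake of period at most `n` have the same first `n` symbols. -/

namespace Pool.Agent.Work.MLC.Uni

open Pool.Agent.Work.MLC.Sat Pool.Agent.Work.MLC.Cnt
open Pool.Agent.Work.MLC.Shp (Wake lg RayE Hd)

namespace P31

/-- the set of periods is closed under subtraction -/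
lemma per_sub {τ : ℝ} {d e : ℕ} (hde : d ≤ e) (hd : ∃ a : ℤ, ((2 : ℝ) ^ d - 1) * τ = a)
    (he : ∃ a : ℤ, ((2 : ℝ) ^ e - 1) * τ = a) : ∃ a : ℤ, ((2 : ℝ) ^ (e - d) - 1) * τ = a := by
  obtain ⟨a, ha⟩ := hd
  obtain ⟨b, hb⟩ := he
  refine ⟨b - 2 ^ (e - d) * a, ?_⟩
  have h1 : (2 : ℝ) ^ e = 2 ^ (e - d) * 2 ^ d := by rw [← pow_add]; congr 1; omega
  push_cast
  rw [← ha, ← hb, h1]
  ring

/-- multiples of a period -/
lemma per_mul {τ : ℝ} {d : ℕ} (hd : ∃ a : ℤ, ((2 : ℝ) ^ d - 1) * τ = a) (k : ℕ) :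
    ∃ a : ℤ, ((2 : ℝ) ^ (d * k) - 1) * τ = a := by
  obtain ⟨a, ha⟩ := hd
  induction k with
  | zero => exact ⟨0, by simp⟩
  | succ k ih =>
    obtain ⟨b, hb⟩ := ih
    refine ⟨b + 2 ^ (d * k) * a, ?_⟩
    have h1 : (2 : ℝ) ^ (d * (k + 1)) = 2 ^ (d * k) * 2 ^ d := by rw [← pow_add]; ring_nf
    push_cast
    rw [← ha, ← hb, h1]
    ring

/-- the exact period -/
lemma exists_exact {τ : ℝ} {N : ℕ} (hN : 0 < N) (h : ∃ a : ℤ, ((2 : ℝ) ^ N - 1) * τ = a) :
    ∃ d, 0 < d ∧ d ∣ N ∧ (∃ a : ℤ, ((2 : ℝ) ^ d - 1) * τ = a) ∧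
      ∀ e, 0 < e → e < d → ¬ ∃ a : ℤ, ((2 : ℝ) ^ e - 1) * τ = a := by
  classical
  have hex : ∃ d, 0 < d ∧ ∃ a : ℤ, ((2 : ℝ) ^ d - 1) * τ = a := ⟨N, hN, h⟩
  obtain ⟨hd0, hd1⟩ := Nat.find_spec hex
  set d := Nat.find hex with hd
  have hmin : ∀ e, 0 < e → e < d → ¬ ∃ a : ℤ, ((2 : ℝ) ^ e - 1) * τ = a := fun e he hed hh =>
    Nat.find_min hex hed ⟨he, hh⟩
  refine ⟨d, hd0, ?_, hd1, hmin⟩
  by_contra hdvd
  have h1 : 0 < N % d := Nat.pos_of_ne_zero fun h0 => hdvd (Nat.dvd_of_mod_eq_zero h0)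
  have h2 : N % d < d := Nat.mod_lt _ hd0
  apply hmin _ h1 h2
  have h3 : N - d * (N / d) = N % d := by
    have := Nat.div_add_mod N d
    omega
  rw [← h3]
  exact per_sub (Nat.mul_div_le N d) (per_mul hd1 _) h

/-- `τ`, `τ'` are the two ends of a wake -/
def Pair (τ τ' : ℝ) : Prop := ∃ (m : ℕ) (α β : ℝ), Wake m α β ∧
  ((τ = α ∧ τ' = β) ∨ (τ = β ∧ τ' = α))

lemma Pair.symm {τ τ' : ℝ} (h : Pair τ τ') : Pair τ' τ := by
  obtain ⟨m, α, β, hW, h | h⟩ := h
  · exact ⟨m, α, β, hW, Or.inr ⟨h.2, h.1⟩⟩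
  · exact ⟨m, α, β, hW, Or.inl ⟨h.2, h.1⟩⟩

lemma Pair.ne {τ τ' : ℝ} (h : Pair τ τ') : τ' ≠ τ := by
  obtain ⟨m, α, β, hW, h | h⟩ := h
  · rw [h.1, h.2]; exact ne_of_gt hW.lt
  · rw [h.1, h.2]; exact ne_of_lt hW.lt

lemma Pair.unique (hL : U_lam) {τ τ' τ'' : ℝ} (h : Pair τ τ') (h' : Pair τ τ'') : τ' = τ'' := by
  obtain ⟨m, α, β, hW, h⟩ := h
  obtain ⟨m', α', β', hW', h'⟩ := h'
  have h1 := hW.lt
  have h2 := hW'.lt
  rcases hL m m' α β α' β' hW hW' with ⟨-, ea, eb⟩ | h3 | h3 | h3 | h3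
  · rcases h with ⟨h, k⟩ | ⟨h, k⟩ <;> rcases h' with ⟨h', k'⟩ | ⟨h', k'⟩
    · rw [k, k', eb]
    · exfalso; linarith
    · exfalso; linarith
    · rw [k, k', ea]
  all_goals
    exfalso
    rcases h with ⟨h, k⟩ | ⟨h, k⟩ <;> rcases h' with ⟨h', k'⟩ | ⟨h', k'⟩ <;> linarith

/-- the partner of a periodic angle between two angles which are not separated -/
lemma partner (hE : U_ends) {n N : ℕ} (hN : 0 < N) (hNn : N ≤ n) {θ t : ℝ} (hθi : Irrational θ)
    (hti : Irrational t) (h0 : 0 < θ) (h1 : t < 1) (hS : ¬ Sepd n θ t) {τ : ℝ} (hτ : θ < τ)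
    (hτ' : τ < t) (hp : ∃ a : ℤ, ((2 : ℝ) ^ N - 1) * τ = a) :
    ∃ τ', Pair τ τ' ∧ θ < τ' ∧ τ' < t ∧ ∃ a : ℤ, ((2 : ℝ) ^ N - 1) * τ' = a := by
  obtain ⟨d, hd0, hdN, hd1, hd2⟩ := exists_exact hN hp
  have hd : 2 ≤ d := by
    by_contra hlt
    have hd' : d = 1 := by omega
    obtain ⟨a, ha⟩ := hd1
    rw [hd'] at ha
    have h3 : τ = a := by linarith
    have h4 : (0 : ℝ) < a := by linarith
    have h5 : (a : ℝ) < 1 := by linarith
    have h6 : 0 < a := by exact_mod_cast h4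
    have h7 : a < 1 := by exact_mod_cast h5
    omega
  obtain ⟨α, β, hW, hab⟩ := hE d τ hd (by linarith) (by linarith) hd1 hd2
  have hns : (α < θ ∧ θ < β) ↔ (α < t ∧ t < β) := by
    by_contra hc
    exact hS ⟨d, α, β, (Nat.le_of_dvd hN hdN).trans hNn, hW, hc⟩
  have hlt := hW.lt
  obtain ⟨k, hk⟩ := hdN
  have hrat : ∀ x : ℝ, (∃ a : ℤ, ((2 : ℝ) ^ d - 1) * x = a) → ¬ Irrational x := by
    rintro x ⟨a, ha⟩ hx
    have h3 : (0 : ℝ) < 2 ^ d - 1 := by
      have : (1 : ℝ) < 2 ^ d := one_lt_pow₀ (by norm_num) (by omega)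
      linarith
    apply hx
    refine ⟨(a : ℚ) / (2 ^ d - 1), ?_⟩
    push_cast
    rw [← ha]
    field_simp
  rcases hab with hab | hab
  · refine ⟨β, ⟨d, α, β, hW, Or.inl ⟨hab, rfl⟩⟩, by linarith, ?_, hk ▸ per_mul hW.per' k⟩
    by_contra hc
    have h3 : t ≠ β := fun h => hrat β hW.per' (h ▸ hti)
    have h4 : t < β := lt_of_le_of_ne (not_lt.1 hc) h3
    have h5 := hns.2 ⟨by linarith, h4⟩
    linarith [h5.1]
  · refine ⟨α, ⟨d, α, β, hW, Or.inr ⟨hab, rfl⟩⟩, ?_, by linarith, hk ▸ per_mul hW.per k⟩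
    by_contra hc
    have h3 : α ≠ θ := fun h => hrat α hW.per (h ▸ hθi)
    have h4 : α < θ := lt_of_le_of_ne (not_lt.1 hc) h3
    have h5 := hns.1 ⟨h4, by linarith⟩
    linarith [h5.2]

lemma main (hE : U_ends) (hL : U_lam) {n j : ℕ} (hj : j < n) {θ t : ℝ} (hθi : Irrational θ)
    (hti : Irrational t) (h0 : 0 < θ) (hlt : θ < t) (h1 : t < 1) (hS : ¬ Sepd n θ t) :
    wL θ j = wL t j := by
  classical
  set N := j + 1 with hN
  have hQ : (0 : ℝ) < 2 ^ N - 1 := by
    have : (1 : ℝ) < 2 ^ N := one_lt_pow₀ (by norm_num) (by omega)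
    linarith
  set Q : ℝ := 2 ^ N - 1 with hQd
  set S : Finset ℤ := Finset.Ioc ⌊Q * θ⌋ ⌊Q * t⌋ with hSd
  have hmem : ∀ a : ℤ, a ∈ S ↔ θ < a / Q ∧ (a : ℝ) / Q < t := by
    intro a
    rw [hSd, Finset.mem_Ioc, Int.floor_lt, Int.le_floor, lt_div_iff₀ hQ, div_lt_iff₀ hQ, mul_comm θ,
      mul_comm t]
    constructor
    · rintro ⟨h2, h3⟩
      refine ⟨h2, lt_of_le_of_ne h3 ?_⟩
      intro h4
      apply hti
      refine ⟨(a : ℚ) / (2 ^ N - 1), ?_⟩
      push_cast
      rw [h4, ← hQd]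
      field_simp
    · rintro ⟨h2, h3⟩
      exact ⟨h2, h3.le⟩
  have hpart : ∀ a ∈ S, ∃ b ∈ S, Pair (a / Q) ((b : ℤ) / Q) := by
    intro a ha
    obtain ⟨h2, h3⟩ := (hmem a).1 ha
    obtain ⟨τ', h4, h5, h6, b, hb⟩ := partner hE (by omega : 0 < N) (by omega : N ≤ n) hθi hti h0 h1
      hS h2 h3 ⟨a, by rw [← hQd]; field_simp⟩
    have h7 : τ' = b / Q := by
      rw [eq_div_iff hQ.ne', ← hb]; ring
    rw [h7] at h4 h5 h6
    exact ⟨b, (hmem b).2 ⟨h5, h6⟩, h4⟩
  choose! g hg1 hg2 using hpart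
  have hinj : ∀ a b : ℤ, (a : ℝ) / Q = b / Q → a = b := by
    intro a b h
    rw [div_left_inj' hQ.ne'] at h
    exact_mod_cast h
  have hsum : ∑ x ∈ S, (1 : ZMod 2) = 0 := by
    apply Finset.sum_involution (fun a _ => g a)
    · intro a _; decide
    · intro a ha _ h2
      exact (hg2 a ha).ne (by rw [h2])
    · intro a ha; exact hg1 a ha
    · intro a ha
      apply hinj
      exact Pair.unique hL (hg2 (g a) (hg1 a ha)) (hg2 a ha).symm
  have hcard : ((S.card : ℕ) : ZMod 2) = 0 := by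
    rw [← hsum]; simp
  have hev : 2 ∣ S.card := (ZMod.natCast_eq_zero_iff _ _).1 hcard
  have hle : ⌊Q * θ⌋ ≤ ⌊Q * t⌋ := Int.floor_le_floor (by nlinarith)
  have hc : (S.card : ℤ) = ⌊Q * t⌋ - ⌊Q * θ⌋ := by
    rw [hSd, Int.card_Ioc]
    exact Int.toNat_of_nonneg (by omega)
  have e1 : ∀ x : ℝ, (2 : ℝ) ^ (j + 1) * x - x = Q * x := by
    intro x; rw [hQd, hN]; ring
  unfold wL
  rw [e1, e1]
  obtain ⟨k, hk⟩ := hev
  have h5 : ⌊Q * t⌋ = ⌊Q * θ⌋ + 2 * k := by
    have : (S.card : ℤ) = 2 * k := by exact_mod_cast hk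
    omega
  rw [h5]
  omega

end P31

/-- U3 -/
theorem u_par (hE : U_ends) (hL : U_lam) : U_par := by
  intro n θ t hθi hti h0 h1 h2 h3 hS j hj
  rcases lt_trichotomy θ t with h | h | h
  · exact P31.main hE hL hj hθi hti h0 h h3 hS
  · rw [h]
  · refine (P31.main hE hL hj hti hθi h2 h h1 ?_).symm
    rintro ⟨m, α, β, hm, hW, hc⟩
    exact hS ⟨m, α, β, hm, hW, fun hh => hc hh.symm⟩

end Pool.Agent.Work.MLC.Uni
end

section
set_option autoImplicit false

/-! # Theorem U, module U_win: windows without a tail period (helper24) -/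

namespace Pool.Agent.Work.MLC.Uni

/-- a sequence all of whose windows have a short tail period is eventually periodic -/
lemma evp_of_windows {w : ℕ → ℤ} {n₁ : ℕ} (h : ∀ n, n₁ ≤ n → ∃ l p : ℕ, 0 < p ∧
    4 * (l + p) ≤ n ∧ ∀ k, l ≤ k → k + p < n → w (k + p) = w k) :
    ∃ l p : ℕ, 0 < p ∧ ∀ k, l ≤ k → w (k + p) = w k := by
  obtain ⟨l, p, hp, h1, h2⟩ := h n₁ le_rfl
  refine ⟨l, p, hp, ?_⟩
  have h3 : ∀ n, n₁ ≤ n → ∀ k, l ≤ k → k + p < n → w (k + p) = w k := by
    intro n hn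
    induction n, hn using Nat.le_induction with
    | base => exact h2
    | succ n hn ih =>
      intro k hk1 hk2
      rcases Nat.lt_or_ge (k + p) n with hk3 | hk3
      · exact ih k hk1 hk3
      · obtain ⟨l', p', hp', g1, g2⟩ := h (n + 1) (by omega)
        have hk : k + p = n := by omega
        obtain ⟨i, hi⟩ : ∃ i, n = i + p' + p := ⟨n - p' - p, by omega⟩
        have e1 := g2 (i + p) (by omega) (by omega)
        have e2 := ih i (by omega) (by omega)
        have e3 := g2 i (by omega) (by omega)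
        have e4 : k + p = i + p + p' := by omega
        have e5 : k = i + p' := by omega
        rw [e4, e1, e2, e5, e3]
  intro k hk
  exact h3 (n₁ + k + p + 1) (by omega) k hk (by omega)

/-- **U5** -/
theorem u_win : U_win := by
  intro w hw n₀
  by_contra hcon
  push Not at hcon
  refine hw (evp_of_windows (n₁ := n₀) fun n hn => ?_)
  obtain ⟨N, g1, g2, l, p, g3, g4, g5⟩ := hcon n hn
  exact ⟨l, p, g3, by omega, fun k hk1 hk2 => g5 k hk1 (by omega)⟩

end Pool.Agent.Work.MLC.Uni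
end

section
set_option autoImplicit false

/-! # Random towers of satellites: the tower (helper6)

`tow l` is the component of the list `l` of rationals in `(0, 1)` (most recent first): `tow []` is
the main cardioid, `tow (x :: l)` is attached to `tow l` at the root of internal angle `x`. -/

namespace Pool.Agent.Work.MLC.Tw

open Filter Topology Metric Set Complex
open Pool.Agent.Work.MLC.Sat Pool.Agent.Work.MLC.Cnt Pool.Agent.Work.MLC.Cap

/-- all elements are in `(0, 1)` -/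
def Val (l : List ℚ) : Prop := ∀ x ∈ l, 0 < x ∧ x < 1

lemma val_cons {x : ℚ} {l : List ℚ} : Val (x :: l) ↔ (0 < x ∧ x < 1) ∧ Val l := by
  constructor
  · intro h
    exact ⟨h x (by simp), fun y hy => h y (by simp [hy])⟩
  · rintro ⟨h1, h2⟩ y hy
    rcases List.mem_cons.1 hy with rfl | h3
    · exact h1
    · exact h2 y h3

lemma exists_W0 : ∃ W : WS, W.Ok ∧ W.m = 1 := by
  have hw : Word 1 (fun _ : ℕ => (0 : ℤ)) :=
    ⟨fun _ => Or.inl rfl, fun _ => rfl, fun d h0 h1 => absurd h1 (by omega)⟩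
  obtain ⟨σ, hV, hex⟩ := Pri.exists_wide_word one_pos hw 0
  exact ⟨⟨1, fun _ => 0, 0, σ⟩, ⟨hV, hex⟩, rfl⟩

open Classical in
/-- the component of the list -/
noncomputable def tow : List ℚ → WS
  | [] => exists_W0.choose
  | x :: l => if h : (tow l).Ok ∧ 0 < x ∧ x < 1 then (exists_ch h.1 h.2.1 h.2.2).choose else tow l

lemma tow_nil : (tow []).Ok ∧ (tow []).m = 1 := by
  have := exists_W0.choose_spec
  unfold tow
  exact this

lemma tow_ok {l : List ℚ} (h : Val l) : (tow l).Ok := by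
  induction l with
  | nil => exact tow_nil.1
  | cons x l ih =>
    obtain ⟨⟨h0, h1⟩, h2⟩ := val_cons.1 h
    have hh : (tow l).Ok ∧ 0 < x ∧ x < 1 := ⟨ih h2, h0, h1⟩
    rw [tow, dif_pos hh]
    exact (exists_ch hh.1 hh.2.1 hh.2.2).choose_spec.ok

lemma tow_ch {x : ℚ} {l : List ℚ} (h : Val (x :: l)) : Ch (tow l) x (tow (x :: l)) := by
  obtain ⟨⟨h0, h1⟩, h2⟩ := val_cons.1 h
  have hh : (tow l).Ok ∧ 0 < x ∧ x < 1 := ⟨tow_ok h2, h0, h1⟩
  rw [tow, dif_pos hh]
  exact (exists_ch hh.1 hh.2.1 hh.2.2).choose_spec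

/-- the period -/
def per (l : List ℚ) : ℕ := (l.map fun x => x.den).prod

lemma tow_m {l : List ℚ} (h : Val l) : (tow l).m = per l := by
  induction l with
  | nil => exact tow_nil.2
  | cons x l ih =>
    rw [(tow_ch h).m, ih (val_cons.1 h).2, per, per, List.map_cons, List.prod_cons, mul_comm]

/-- the datum of a nonempty list -/
noncomputable def dt (x : ℚ) (l : List ℚ) : Dat := (tow l).dat x

section

variable {x : ℚ} {l : List ℚ}

lemma dt_par (h : Val (x :: l)) : (dt x l).Par :=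
  WS.dat_par (tow_ok (val_cons.1 h).2) (val_cons.1 h).1.1 (val_cons.1 h).1.2

lemma dt_cir (h : Val (x :: l)) : (dt x l).Cir :=
  WS.dat_cir (tow_ok (val_cons.1 h).2) (val_cons.1 h).1.1 (val_cons.1 h).1.2

/-- the arcs are nested -/
lemma dt_arc {y : ℚ} (h : Val (y :: x :: l)) :
    (dt x l).tm < (dt y (x :: l)).tm ∧ (dt y (x :: l)).tp < (dt x l).tp :=
  (tow_ch (val_cons.1 h).2).arc y (val_cons.1 h).1.1 (val_cons.1 h).1.2

/-- the roots are nested -/
lemma rt_nest {y : ℚ} (h : Val (y :: x :: l)) : rt (dt y (x :: l)) ∈ Lm (dt x l) := by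
  have h2 := (val_cons.1 h).2
  exact nest_of_arc (dt_par h2) (dt_cir h2) (dt_par h) (dt_cir h) (dt_arc h).1 (dt_arc h).2

/-- the arcs are in the strip of the main cardioid -/
lemma dt_strip (h : Val (x :: l)) : 0 < (tow []).nu (dt x l).tm ∧ (tow []).nu (dt x l).tp < 1 := by
  induction l generalizing x with
  | nil =>
    obtain ⟨⟨h0, h1⟩, -⟩ := val_cons.1 h
    have hlt := (dt_cir h).lt
    have a1 := (WS.plateau tow_nil.1 h0 h1 (dt x []).tm).2 ⟨le_rfl, hlt.le⟩
    have a2 := (WS.plateau tow_nil.1 h0 h1 (dt x []).tp).2 ⟨hlt.le, le_rfl⟩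
    rw [a1, a2]
    exact ⟨by exact_mod_cast h0, by exact_mod_cast h1⟩
  | cons y l ih =>
    have h2 := (val_cons.1 h).2
    have h3 := ih h2
    have h4 := dt_arc h
    exact ⟨h3.1.trans_le ((tow []).nu_mono h4.1.le), ((tow []).nu_mono h4.2.le).trans_lt h3.2⟩

/-- two arcs with the same root are equal -/
lemma dt_same {x' : ℚ} {l' : List ℚ} (h : Val (x :: l)) (h' : Val (x' :: l'))
    (he : rt (dt x l) = rt (dt x' l')) :
    (dt x l).tm = (dt x' l').tm ∧ (dt x l).tp = (dt x' l').tp := by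
  obtain ⟨k, h1, h2⟩ := plateau_unique n2_ray (dt_par h) (dt_cir h) (dt_par h') (dt_cir h') he
  have a := dt_strip h
  have a' := dt_strip h'
  have b := (dt_cir h).lt
  have b' := (dt_cir h').lt
  have c1 := (tow []).nu_mono b.le
  have c2 := (tow []).nu_mono b'.le
  have hk : k = 0 := by
    have hw := tow_nil.1.wide
    have key : ∀ (t : ℝ), 0 < (tow []).nu t → (tow []).nu (t + 1) < 1 → False := by
      intro t ht ht1
      have h3 : ((tow []).k : ℝ) < Circ.nu (tow []).w (tow []).m t := by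
        unfold WS.nu at ht; linarith
      have h4 := s2_width (tow []).m (tow []).w t (tow []).k hw.pos hw.bits h3
      unfold WS.nu at ht1; linarith
    rcases lt_trichotomy k 0 with h3 | h3 | h3
    · exfalso
      have h4 : (k : ℝ) ≤ -1 := by exact_mod_cast Int.le_sub_one_of_lt h3
      refine key (dt x l).tm a.1 ?_
      have h5 : (dt x l).tm + 1 ≤ (dt x' l').tm := by linarith
      exact (((tow []).nu_mono h5).trans c2).trans_lt a'.2
    · exact h3
    · exfalso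
      have h4 : (1 : ℝ) ≤ k := by exact_mod_cast h3
      refine key (dt x' l').tm a'.1 ?_
      have h5 : (dt x' l').tm + 1 ≤ (dt x l).tm := by linarith
      exact (((tow []).nu_mono h5).trans c1).trans_lt a.2
  rw [hk, Int.cast_zero, add_zero] at h1 h2
  exact ⟨h1, h2⟩

/-- different rationals on one component: disjoint arcs -/
lemma dt_sib {x' : ℚ} (h : Val (x :: l)) (h' : Val (x' :: l)) (hne : x ≠ x') :
    (dt x l).tp < (dt x' l).tm ∨ (dt x' l).tp < (dt x l).tm := by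
  have key : ∀ {x x' : ℚ}, Val (x :: l) → Val (x' :: l) → x < x' →
      (dt x l).tp < (dt x' l).tm := by
    intro x x' h h' hlt
    obtain ⟨⟨h0, h1⟩, h2⟩ := val_cons.1 h
    obtain ⟨⟨h0', h1'⟩, -⟩ := val_cons.1 h'
    have a1 := (WS.plateau (tow_ok h2) h0 h1 (dt x l).tp).2 ⟨(dt_cir h).lt.le, le_rfl⟩
    have a2 := (WS.plateau (tow_ok h2) h0' h1' (dt x' l).tm).2 ⟨le_rfl, (dt_cir h').lt.le⟩
    by_contra hcon
    push Not at hcon
    have h3 := (tow l).nu_mono hcon
    rw [a1, a2] at h3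
    have h4 : x' ≤ x := by exact_mod_cast h3
    exact absurd hlt (not_lt.2 h4)
  rcases lt_or_gt_of_ne hne with h1 | h1
  · exact Or.inl (key h h' h1)
  · exact Or.inr (key h' h h1)

/-- lists of the same length: disjoint arcs -/
lemma dt_disj {x' : ℚ} {l' : List ℚ} (hl : l.length = l'.length) (h : Val (x :: l))
    (h' : Val (x' :: l')) (hne : x :: l ≠ x' :: l') :
    (dt x l).tp < (dt x' l').tm ∨ (dt x' l').tp < (dt x l).tm := by
  induction l generalizing x x' l' with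
  | nil =>
    obtain rfl : l' = [] := List.length_eq_zero_iff.1 hl.symm
    exact dt_sib h h' fun he => hne (by rw [he])
  | cons y l ih =>
    obtain _ | ⟨y', l'⟩ := l'
    · simp at hl
    by_cases he : y :: l = y' :: l'
    · rw [← he] at h' hne ⊢
      exact dt_sib h h' fun he2 => hne (by rw [he2])
    · have h1 := ih (by simpa using hl) (val_cons.1 h).2 (val_cons.1 h').2 he
      have h2 := dt_arc h
      have h3 := dt_arc h'
      rcases h1 with h1 | h1
      · left; linarith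
      · right; linarith

/-- arcs along a list -/
lemma dt_sub {s : List ℚ} {y : ℚ} (h : Val (y :: (s ++ x :: l))) :
    (dt x l).tm < (dt y (s ++ x :: l)).tm ∧ (dt y (s ++ x :: l)).tp < (dt x l).tp := by
  induction s generalizing y with
  | nil => exact dt_arc h
  | cons z s ih =>
    have h1 : Val (y :: z :: (s ++ x :: l)) := h
    have h2 := dt_arc h1
    have h3 := ih (val_cons.1 h1).2
    exact ⟨h3.1.trans h2.1, h2.2.trans h3.2⟩

/-- **the root determines the list** -/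
theorem dt_inj {x' : ℚ} {l' : List ℚ} (h : Val (x :: l)) (h' : Val (x' :: l'))
    (he : rt (dt x l) = rt (dt x' l')) : x :: l = x' :: l' := by
  have key : ∀ {x x' : ℚ} {l l' : List ℚ}, Val (x :: l) → Val (x' :: l') →
      rt (dt x l) = rt (dt x' l') → l.length ≤ l'.length → x :: l = x' :: l' := by
    intro x x' l l' h h' he hle
    obtain ⟨h1, h2⟩ := dt_same h h' he
    have hlt := (dt_cir h).lt
    have hlt' := (dt_cir h').lt
    rcases hle.eq_or_lt with h3 | h3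
    · by_contra hne
      rcases dt_disj h3 h h' hne with h4 | h4 <;> linarith
    · exfalso
      -- the suffix of the same length
      set n := l'.length - (l.length + 1) with hn
      obtain ⟨u, v, huv⟩ : ∃ u v, l'.drop n = u :: v := by
        have h4 : (l'.drop n).length = l.length + 1 := by
          rw [List.length_drop]; omega
        cases hd : l'.drop n with
        | nil => rw [hd] at h4; simp at h4
        | cons u v => exact ⟨u, v, rfl⟩
      have hlen : v.length = l.length := by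
        have h4 : (l'.drop n).length = l.length + 1 := by
          rw [List.length_drop]; omega
        rw [huv] at h4
        simpa using h4
      have hl' : l' = l'.take n ++ u :: v := by rw [← huv, List.take_append_drop]
      rw [hl'] at h' h1 h2
      have h5 := dt_sub h'
      have hv : Val (u :: v) := fun z hz => h' z (by
        rw [List.mem_cons, List.mem_append]
        exact Or.inr (Or.inr hz))
      by_cases heq : x :: l = u :: v
      · obtain ⟨e1, e2⟩ := List.cons_eq_cons.1 heq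
        subst e1 e2
        linarith
      · rcases dt_disj hlen.symm h hv heq with h6 | h6 <;> linarith
  rcases le_total l.length l'.length with h1 | h1
  · exact key h h' he h1
  · exact (key h' h he.symm h1).symm

end

end Pool.Agent.Work.MLC.Tw
end

section
set_option autoImplicit false

/-! # Random towers of satellites: the theorem (helper6)

For every measure on the sequences of rationals in `(0, 1)`, the Mandelbrot set is locally connected
at the infinitely satellite renormalizable parameter with internal angles `x 0, x 1, ...` for almost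
every `x` such that the sum of `1 / (q 0 ... q k * μ [x 0, ..., x k])` over the `k` with `q k ≥ 3`
is infinite. -/

namespace Pool.Agent.Work.MLC.Tw

open Filter Topology Metric Set Complex MeasureTheory
open Pool.Agent.Work.MLC.Sat Pool.Agent.Work.MLC.Cnt Pool.Agent.Work.MLC.Cap
open scoped ENNReal

/-- `z ^ 2 + c` has a point of exact period `n` and multiplier `ρ` -/
def HasPoint (n : ℕ) (c ρ : ℂ) : Prop := ∃ b, 0 < n ∧
  Function.minimalPeriod (fun z : ℂ => z ^ 2 + c) b = n ∧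
  deriv ((fun z : ℂ => z ^ 2 + c)^[n]) b = ρ

/-- `z ^ 2 + c` has an attracting point of exact period `n` -/
def AttPer (n : ℕ) : Set ℂ := {c | ∃ ρ, HasPoint n c ρ ∧ ‖ρ‖ < 1}

lemma attPer_eq (n : ℕ) : AttPer n = Hyp.AA n := by
  ext c
  constructor
  · rintro ⟨ρ, ⟨b, h1, h2, h3⟩, h4⟩
    refine ⟨b, ⟨h1, h2⟩, ?_⟩
    have h5 := (Pool.Agent.Work.MLC.hasDerivAt_it c n b).deriv
    have h6 : deriv ((fun z : ℂ => z ^ 2 + c)^[n]) b = mult n c b := h5
    rw [← h6, h3]; exact h4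
  · rintro ⟨b, ⟨h1, h2⟩, h3⟩
    exact ⟨_, ⟨b, h1, h2, rfl⟩, by
      have h5 := (Pool.Agent.Work.MLC.hasDerivAt_it c n b).deriv
      have h6 : deriv ((fun z : ℂ => z ^ 2 + c)^[n]) b = mult n c b := h5
      rw [h6]; exact h3⟩

/-- exact period -/
lemma perN_of' {n : ℕ} {c z : ℂ} (hn : 0 < n) (h1 : it c n z = z)
    (h2 : ∀ d, 0 < d → d < n → it c d z ≠ z) : PerN n c z := by
  refine ⟨hn, ?_⟩
  have h3 : Function.IsPeriodicPt (f c) n z := h1
  have h4 := h3.minimalPeriod_le hn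
  have h5 := h3.minimalPeriod_pos hn
  have h6 : it c (Function.minimalPeriod (f c) z) z = z := Function.iterate_minimalPeriod
  by_contra hne
  exact h2 _ h5 (lt_of_le_of_ne h4 hne) h6

/-- the root of a nonempty list -/
noncomputable def rl : List ℚ → ℂ
  | [] => 0
  | x :: l => rt (dt x l)

/-- the cycle of the root -/
lemma rl_point {x : ℚ} {l : List ℚ} (h : Val (x :: l)) :
    ∃ b, 0 < per l ∧ Function.minimalPeriod (fun z : ℂ => z ^ 2 + rl (x :: l)) b = per l ∧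
      deriv ((fun z : ℂ => z ^ 2 + rl (x :: l))^[per l]) b = exp (axisPt x) := by
  obtain ⟨⟨h0, h1⟩, h2⟩ := val_cons.1 h
  have hok := tow_ok h2
  have h0' : (0 : ℝ) < x := by exact_mod_cast h0
  have h1' : (x : ℝ) < 1 := by exact_mod_cast h1
  have hD : axisPt x ∈ Pri.D0 (tow l).m := by
    have := T60.axis_mem_D0 (ok_pos hok) h0' h1'
    have e : axisPt x = 2 * Real.pi * (x : ℝ) * I := by unfold axisPt; push_cast; ring
    rw [e]; exact this
  have h3 := hok.wide.sec _ hD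
  have h4 := hok.ex _ hD
  have h5 : rl (x :: l) = ((tow l).σ (axisPt x)).1 := by
    show (WS.dat (tow l) x).c (WS.dat (tow l) x).a = _
    rw [WS.dat_c hok h0 h1, WS.dat_a hok h0 h1]
    rfl
  have h6 : PerN (per l) (rl (x :: l)) ((tow l).σ (axisPt x)).2 := by
    rw [← tow_m h2, h5]
    exact perN_of' (ok_pos hok) h3.1 h4
  refine ⟨((tow l).σ (axisPt x)).2, h6.1, h6.2, ?_⟩
  have h7 := (Pool.Agent.Work.MLC.hasDerivAt_it (rl (x :: l)) (per l) ((tow l).σ (axisPt x)).2).deriv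
  have h8 : deriv ((fun z : ℂ => z ^ 2 + rl (x :: l))^[per l]) ((tow l).σ (axisPt x)).2 =
      mult (per l) (rl (x :: l)) ((tow l).σ (axisPt x)).2 := h7
  rw [h8, h5, ← tow_m h2]
  exact h3.2

lemma rl_isRoot {x : ℚ} {l : List ℚ} (h : Val (x :: l)) : IsRoot (per l) x.den (rl (x :: l)) := by
  obtain ⟨⟨h0, h1⟩, h2⟩ := val_cons.1 h
  obtain ⟨b, h3, h4, h5⟩ := rl_point h
  have hnum : 0 < x.num := Rat.num_pos.2 h0
  obtain ⟨p, hp⟩ := Int.eq_ofNat_of_zero_le hnum.le
  have hx : x = (p : ℚ) / x.den := by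
    conv_lhs => rw [← Rat.num_div_den x, hp]
    simp
  have hpq : p < x.den := by
    have h6 : (0 : ℚ) < x.den := by exact_mod_cast x.pos
    rw [hx, div_lt_one (by simpa using x.pos)] at h1
    exact_mod_cast h1
  refine ⟨p, b, h3, by omega, hpq, ?_, h4, ?_⟩
  · have := x.reduced
    rwa [hp, Int.natAbs_natCast] at this
  · rw [h5, axis_pq hx]

/-- the limb of the root -/
lemma LimS_rl {x : ℚ} {l : List ℚ} (h : Val (x :: l)) :
    LimS (rl (x :: l)) = insert (rt (dt x l)) (Lm (dt x l)) := limb_eq (dt_par h) (dt_cir h)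

/-- nested limbs -/
lemma LimS_nest {x y : ℚ} {l : List ℚ} (h : Val (y :: x :: l)) :
    LimS (rl (y :: x :: l)) ⊆ Lm (dt x l) := by
  have h2 := (val_cons.1 h).2
  rw [LimS_rl h]
  exact limb_sub (dt_par h2) (dt_cir h2) (dt_par h) (dt_cir h) (rt_nest h)

/-- both roots are in the closure of the component -/
lemma rl_closure {x y : ℚ} {l : List ℚ} (h : Val (y :: x :: l)) :
    rl (x :: l) ∈ closure (Hy (tow (x :: l))) ∧ rl (y :: x :: l) ∈ closure (Hy (tow (x :: l))) := by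
  have h2 := (val_cons.1 h).2
  have h3 := val_cons.1 h2
  obtain ⟨hy0, hy1⟩ := (val_cons.1 h).1
  refine ⟨ch_closure (tow_ok h3.2) h3.1.1 h3.1.2 (tow_ch h2), ?_⟩
  have h4 := axis_closure (tow_ok h2) (y := (y : ℝ)) (by exact_mod_cast hy0) (by exact_mod_cast hy1)
  have h5 : rl (y :: x :: l) = (tow (x :: l)).c (2 * Real.pi * (y : ℝ) * I) := by
    show (WS.dat (tow (x :: l)) y).c (WS.dat (tow (x :: l)) y).a = _
    rw [WS.dat_c (tow_ok h2) hy0 hy1, WS.dat_a (tow_ok h2) hy0 hy1]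
    congr 1
    unfold axisPt; push_cast; ring
  rw [h5]
  exact h4

open Pool.Agent.Work.MLC.Tow in
/-- **Theorem M**: for every measure on the sequences of internal angles, the Mandelbrot set is
locally connected at almost every infinitely satellite renormalizable parameter with infinite sum
of `1 / (q 0 ... q k * μ [x 0, ..., x k])` -/
theorem tower_all {C : ℝ} (hC : C_limbsum C) (μ : Measure (ℕ → ℚ)) :
    ∀ᵐ x ∂μ, (∀ k, 0 < x k ∧ x k < 1) →
      ∑' k, (if 3 ≤ (x k).den then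
        1 / (((∏ i ∈ Finset.range (k + 1), (x i).den : ℕ) : ℝ≥0∞) *
          μ {y | ∀ i < k + 1, y i = x i}) else 0) = ⊤ →
      ∃ r : ℕ → ℂ,
        (∀ k, HasPoint (∏ i ∈ Finset.range k, (x i).den) (r k)
          (exp (2 * Real.pi * (x k : ℝ) * I))) ∧
        (∀ k, ∃ c ∈ AttPer (∏ i ∈ Finset.range (k + 1), (x i).den),
          r k ∈ closure (connectedComponentIn
            (AttPer (∏ i ∈ Finset.range (k + 1), (x i).den)) c) ∧
          r (k + 1) ∈ closure (connectedComponentIn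
            (AttPer (∏ i ∈ Finset.range (k + 1), (x i).den)) c)) ∧
        Tendsto (fun k => diam (LimS (r k))) atTop (𝓝 0) ∧
        ∃ c, (⋂ k, LimS (r k)) = {c} ∧ LCat MM c := by
  have key := tower_cyl hC μ rl
    (fun p y h _ => by
      have h1 := rl_isRoot (x := y) (l := p) h
      have e : per p = dens p := rfl
      rw [← e]; exact h1)
    (fun p p' y y' h h' he => by
      have := dt_inj (x := y) (l := p) (x' := y') (l' := p') h h' he
      exact List.cons_eq_cons.1 this)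
  filter_upwards [key] with x hx hx01 htop
  have hinf := hx hx01 htop
  have hval : ∀ k, Val (pre x k) := by
    intro k y hy
    obtain ⟨i, -, rfl⟩ := mem_pre hy
    exact hx01 i
  have hper : ∀ k, per (pre x k) = ∏ i ∈ Finset.range k, (x i).den := fun k => dens_pre x k
  set r : ℕ → ℂ := fun k => rl (x k :: pre x k) with hr
  have hval' : ∀ k, Val (x k :: pre x k) := fun k => hval (k + 1)
  have hval'' : ∀ k, Val (x (k + 1) :: x k :: pre x k) := fun k => hval (k + 2)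
  have hcpt : ∀ k, IsCompact (LimS (r k)) := fun k => by
    rw [hr]
    simp only
    rw [LimS_rl (hval' k)]
    exact isCompact_limb (dt_par (hval' k)) (dt_cir (hval' k))
  have hnest : ∀ k, LimS (r (k + 1)) ⊆ Lm (dt (x k) (pre x k)) := fun k => LimS_nest (hval'' k)
  have hLm : ∀ k, Lm (dt (x k) (pre x k)) ⊆ LimS (r k) := fun k => by
    rw [hr]
    simp only
    rw [LimS_rl (hval' k)]
    exact subset_insert _ _
  have hanti : Antitone fun k => LimS (r k) :=
    antitone_nat_of_succ_le fun k => (hnest k).trans (hLm k)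
  have hdiam : Tendsto (fun k => diam (LimS (r k))) atTop (𝓝 0) := by
    rw [Metric.tendsto_atTop]
    intro ε hε
    obtain ⟨k, -, hk⟩ := (hinf ε hε).nonempty
    refine ⟨k, fun n hn => ?_⟩
    rw [Real.dist_eq, sub_zero, abs_of_nonneg diam_nonneg]
    exact (diam_mono (hanti hn) (hcpt k).isBounded).trans_lt hk
  refine ⟨r, fun k => ?_, fun k => ?_, hdiam, ?_⟩
  · obtain ⟨b, h1, h2, h3⟩ := rl_point (hval' k)
    rw [hper] at h1 h2 h3
    refine ⟨b, h1, h2, h3.trans ?_⟩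
    congr 1
    unfold axisPt; push_cast; ring
  · have h1 := tow_ok (hval' k)
    have hm : (tow (x k :: pre x k)).m = ∏ i ∈ Finset.range (k + 1), (x i).den := by
      rw [tow_m (hval' k)]
      exact hper (k + 1)
    rw [← hm, attPer_eq]
    exact ⟨_, left_AA h1 base_mem, (rl_closure (hval'' k)).1, (rl_closure (hval'' k)).2⟩
  · have hne : (⋂ k, LimS (r k)).Nonempty :=
      IsCompact.nonempty_iInter_of_sequence_nonempty_isCompact_isClosed (fun k => LimS (r k))
        (fun k => hanti (Nat.le_succ k))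
        (fun k => by
          rw [hr]
          simp only
          rw [LimS_rl (hval' k)]
          exact insert_nonempty _ _)
        (hcpt 0) (fun k => (hcpt k).isClosed)
    obtain ⟨c, hc⟩ := hne
    have hck : ∀ k, c ∈ LimS (r k) := mem_iInter.1 hc
    refine ⟨c, ?_, ?_⟩
    · refine (subset_antisymm (fun c' hc' => ?_) (singleton_subset_iff.2 hc))
      have hck' : ∀ k, c' ∈ LimS (r k) := mem_iInter.1 hc'
      have h1 : dist c' c ≤ 0 := ge_of_tendsto' hdiam fun k =>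
        dist_le_diam_of_mem (hcpt k).isBounded (hck' k) (hck k)
      exact dist_le_zero.1 h1
    · intro U hU
      obtain ⟨ε, hε, hεU⟩ := Metric.mem_nhds_iff.1 hU
      obtain ⟨k, hk⟩ := ((Metric.tendsto_atTop.1 hdiam ε hε).imp fun k h => h k le_rfl)
      rw [Real.dist_eq, sub_zero, abs_of_nonneg diam_nonneg] at hk
      have h3 : c ∈ Lm (dt (x k) (pre x k)) := hnest k (hck (k + 1))
      refine ⟨LimS (r k), fun z hz => ⟨hz.1, hεU ?_⟩, hcpt k, ⟨⟨c, hck k⟩, ?_⟩, ?_⟩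
      · rw [mem_ball]
        exact (dist_le_diam_of_mem (hcpt k).isBounded hz (hck k)).trans_lt hk
      · rw [hr]
        simp only
        rw [LimS_rl (hval' k)]
        exact isPreconnected_limb (dt_par (hval' k)) (dt_cir (hval' k))
      · rw [mem_nhdsWithin_iff_eventually]
        filter_upwards [lm_open (dt_par (hval' k)) (dt_cir (hval' k)) h3] with w hw hwM
        exact hLm k (hw hwM)

end Pool.Agent.Work.MLC.Tw
end

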