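import Mathlib

section
/-!
# Boundary bumping and separation in compact sets
-/

set_option autoImplicit false

open Set Topology Filter

namespace MLC34

/-- Separation: in a compact set `K`, a closed set disjoint from the component of `x` can be
separated from `x` by a splitting of `K` into two disjoint compact pieces. -/
theorem exists_clopen_sep {E : Type*} [TopologicalSpace E] [T2Space E] {K F : Set E}
    (hK : IsCompact K) (hF : IsClosed F) {x : E} (hx : x ∈ K)
    (h : ∀ y ∈ connectedComponentIn K x, y ∉ F) :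
    ∃ V ⊆ K, x ∈ V ∧ IsCompact V ∧ IsCompact (K \ V) ∧ Disjoint V F := by
  have : CompactSpace K := isCompact_iff_compactSpace.1 hK
  set x' : K := ⟨x, hx⟩
  have hcomp : connectedComponentIn K x = Subtype.val '' connectedComponent x' :=
    connectedComponentIn_eq_image hx
  set F' : Set K := Subtype.val ⁻¹' F with hF'
  have hFc : IsCompact F' := (hF.preimage continuous_subtype_val).isCompact
  have hdisj : F' ∩ (⋂ s : { s : Set K // IsClopen s ∧ x' ∈ s }, (s : Set K)) = ∅ := by
    rw [← connectedComponent_eq_iInter_isClopen]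
    ext y
    simp only [mem_inter_iff, mem_empty_iff_false, iff_false, not_and]
    intro hyF hy
    refine h y ?_ hyF
    rw [hcomp]
    exact ⟨y, hy, rfl⟩
  have hdir : Directed (· ⊇ ·)
      (fun s : { s : Set K // IsClopen s ∧ x' ∈ s } => (s : Set K)) := by
    intro a b
    exact ⟨⟨a.1 ∩ b.1, a.2.1.inter b.2.1, a.2.2, b.2.2⟩, inter_subset_left, inter_subset_right⟩
  have : Nonempty { s : Set K // IsClopen s ∧ x' ∈ s } := ⟨⟨univ, isClopen_univ, mem_univ _⟩⟩
  obtain ⟨⟨V, hV, hxV⟩, hVF⟩ := hFc.elim_directed_family_closed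
    (fun s : { s : Set K // IsClopen s ∧ x' ∈ s } => (s : Set K))
    (fun s => s.2.1.isClosed) hdisj hdir
  refine ⟨Subtype.val '' V, ?_, ⟨x', hxV, rfl⟩, hV.isClosed.isCompact.image continuous_subtype_val,
    ?_, ?_⟩
  · rintro _ ⟨y, -, rfl⟩
    exact y.2
  · have : K \ Subtype.val '' V = Subtype.val '' Vᶜ := by
      ext y
      constructor
      · rintro ⟨hy, hyV⟩
        exact ⟨⟨y, hy⟩, fun hc => hyV ⟨_, hc, rfl⟩, rfl⟩
      · rintro ⟨z, hz, rfl⟩
        refine ⟨z.2, ?_⟩
        rintro ⟨w, hw, hwz⟩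
        exact hz (Subtype.ext hwz ▸ hw)
    rw [this]
    exact hV.compl.isClosed.isCompact.image continuous_subtype_val
  · rw [disjoint_left]
    rintro _ ⟨y, hy, rfl⟩ hyF
    have : y ∈ F' ∩ V := ⟨hyF, hy⟩
    rw [hVF] at this
    exact this

/-- Boundary bumping in a compact connected set `M`: the component of `x` in `M ∩ closure U` is
not contained in `U`, unless `M ⊆ U`. -/
theorem boundary_bumping {E : Type*} [TopologicalSpace E] [T2Space E] {M U : Set E}
    (hM : IsCompact M) (hMc : IsPreconnected M) (hU : IsOpen U) {x : E} (hxM : x ∈ M)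
    (hxU : x ∈ U) (hne : ¬ M ⊆ U) :
    ∃ y ∈ connectedComponentIn (M ∩ closure U) x, y ∉ U := by
  by_contra hcon
  push Not at hcon
  have hK : IsCompact (M ∩ closure U) := hM.inter_right isClosed_closure
  obtain ⟨V, hVK, hxV, hVc, hWc, hVF⟩ := exists_clopen_sep (F := Uᶜ) hK hU.isClosed_compl
    (x := x) ⟨hxM, subset_closure hxU⟩ (fun y hy hyF => hyF (hcon y hy))
  have hVU : V ⊆ U := fun y hy => by
    by_contra hyU
    exact (disjoint_left.1 hVF) hy hyU
  -- `M` is the union of the closed sets `V` and `(K \ V) ∪ (M \ U)`, disjoint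
  have hMU : IsCompact (M \ U) := hM.diff hU
  obtain ⟨z, hzM, hzU⟩ := not_subset.1 hne
  have h1 := isPreconnected_closed_iff.1 hMc V ((M ∩ closure U) \ V ∪ M \ U) hVc.isClosed
    (hWc.union hMU).isClosed
    (by
      intro y hy
      by_cases hyV : y ∈ V
      · exact Or.inl hyV
      · by_cases hyU : y ∈ U
        · exact Or.inr (Or.inl ⟨⟨hy, subset_closure hyU⟩, hyV⟩)
        · exact Or.inr (Or.inr ⟨hy, hyU⟩))
    ⟨x, hxM, hxV⟩ ⟨z, hzM, Or.inr ⟨hzM, hzU⟩⟩
  obtain ⟨y, -, hyV, hy | hy⟩ := h1
  · exact hy.2 hyV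
  · exact hy.2 (hVU hyV)

/-- Version of boundary bumping with the component in `M ∩ V` for an open set `V`: it is not
relatively compact in `V`, i.e. its closure leaves `V`. -/
theorem closure_component_bumping {E : Type*} [TopologicalSpace E] [T2Space E] {M V : Set E}
    (hM : IsCompact M) (hMc : IsPreconnected M) (hV : IsOpen V) {x : E} (hxM : x ∈ M)
    (hxV : x ∈ V) (hne : ¬ M ⊆ V) :
    ¬ closure (connectedComponentIn (M ∩ V) x) ⊆ V := by
  intro hcon
  set C := connectedComponentIn (M ∩ V) x with hC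
  have hCM : closure C ⊆ M := closure_minimal
    ((connectedComponentIn_subset _ _).trans inter_subset_left) hM.isClosed
  have hCcl : closure C = C := by
    refine (subset_closure).antisymm' ?_
    exact (isPreconnected_connectedComponentIn.closure).subset_connectedComponentIn
      (subset_closure (mem_connectedComponentIn ⟨hxM, hxV⟩)) (subset_inter hCM hcon)
  have hCc : IsCompact C := by
    rw [← hCcl]; exact hM.of_isClosed_subset isClosed_closure hCM
  -- a compact neighbourhood of `C` inside `V` relative to `M`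
  obtain ⟨U, hUo, hCU, hUV⟩ : ∃ U : Set E, IsOpen U ∧ C ⊆ U ∧ M ∩ closure U ⊆ V := by
    have hdis : Disjoint C (M \ V) := by
      rw [disjoint_left]; intro y hy hy2
      exact hy2.2 ((connectedComponentIn_subset _ _ hy).2)
    obtain ⟨A, B, hA, hB, hCA, hMB, hAB⟩ :=
      SeparatedNhds.of_isCompact_isCompact hCc (hM.diff hV) hdis
    refine ⟨A, hA, hCA, fun y hy => ?_⟩
    by_contra hyV
    have hyB : y ∈ B := hMB ⟨hy.1, hyV⟩
    obtain ⟨w, hwB, hwA⟩ := mem_closure_iff.1 hy.2 B hB hyB
    exact (disjoint_left.1 hAB) hwA hwB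
  have hxU : x ∈ U := hCU (mem_connectedComponentIn ⟨hxM, hxV⟩)
  have hneU : ¬ M ⊆ U := fun h => hne fun y hy => hUV ⟨hy, subset_closure (h hy)⟩
  obtain ⟨y, hy, hyU⟩ := boundary_bumping hM hMc hUo hxM hxU hneU
  exact hyU (hCU (connectedComponentIn_mono x
    (fun z hz => ⟨hz.1, hUV hz⟩ : M ∩ closure U ⊆ M ∩ V) hy))

end MLC34
end

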