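import Pool.Agent.Work.MLCM.C69
import Pool.Agent.Work.MLCM.C72

section
set_option autoImplicit false

/-! # Theorem Cap, modules ONE and TWO: the one-piece estimates (helper26) -/

namespace Pool.Agent.Work.MLC.Cap

open Filter Topology Metric Set Complex MeasureTheory
open Pool.Agent.Work.MLC.Sat Pool.Agent.Work.MLC.Cnt
open scoped ENNReal

lemma DD_pos (m q : ℕ) : 0 < DD m q := by unfold DD; positivity

lemma ofReal_sq_add {a b : ℝ} :
    ENNReal.ofReal ((a + b) ^ 2) ≤ 2 * (ENNReal.ofReal (a ^ 2) + ENNReal.ofReal (b ^ 2)) := by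
  rw [← ENNReal.ofReal_add (by positivity) (by positivity),
    show (2 : ℝ≥0∞) = ENNReal.ofReal 2 by simp, ← ENNReal.ofReal_mul (by norm_num)]
  refine ENNReal.ofReal_le_ofReal ?_
  nlinarith [sq_nonneg (a - b)]

lemma ofReal_sq_add3 {a b c : ℝ} :
    ENNReal.ofReal ((a + b + c) ^ 2) ≤
      3 * (ENNReal.ofReal (a ^ 2) + ENNReal.ofReal (b ^ 2) + ENNReal.ofReal (c ^ 2)) := by
  rw [← ENNReal.ofReal_add (by positivity) (by positivity),
    ← ENNReal.ofReal_add (by positivity) (by positivity),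
    show (3 : ℝ≥0∞) = ENNReal.ofReal 3 by simp, ← ENNReal.ofReal_mul (by norm_num)]
  refine ENNReal.ofReal_le_ofReal ?_
  nlinarith [sq_nonneg (a - b), sq_nonneg (a - c), sq_nonneg (b - c)]

/-- a complete cut -/
def C_cut (C : ℝ) : Prop := ∀ W : WS, W.Ok → ∀ (x : ℚ) (H : ℝ), 0 < x → x < 1 → 0 < H → H ≤ 1 →
  ∃ (x₁ x₂ : ℚ) (g : ℝ) (F : Finset ℕ) (P : ℕ → Set ℂ), 0 < x₁ ∧ x₁ < x ∧ x < x₂ ∧ x₂ < 1 ∧
    0 < g ∧ g ≤ H ∧ (∀ i ∈ F, Bornology.IsBounded (P i)) ∧
    (∀ y : ℝ, (x₁ : ℝ) ≤ y → y ≤ x₂ → ∃ i ∈ F, W.c (2 * Real.pi * y * I) ∈ P i) ∧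
    (∀ t : ℝ, 0 < t → t ≤ g → ∃ i ∈ F,
      cOf ((t : ℂ) + 2 * Real.pi * (W.dat x₁).tm * I) ∈ P i) ∧
    (∀ t : ℝ, 0 < t → t ≤ g → ∃ i ∈ F,
      cOf ((t : ℂ) + 2 * Real.pi * (W.dat x₂).tp * I) ∈ P i) ∧
    (W.dat x).tm - (W.dat x₁).tm ≤ DD W.m x.den ∧ (W.dat x₂).tp - (W.dat x).tp ≤ DD W.m x.den ∧
    ENNReal.ofReal ((diam (RaySeg (W.dat x₁).tm g H) + diam (RaySeg (W.dat x₂).tp g H) +
      ∑ i ∈ F, diam (P i)) ^ 2) ≤ ENNReal.ofReal C * cutE W x H

theorem c_cut (hN : C_nbr) (hD : C_dist) {C C' : ℝ} (hC0 : 0 ≤ C) (hC0' : 0 ≤ C')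
    (hC : C_cutray C) (hG : C_cutgate C') : C_cut (3 * (C + C')) := by
  intro W hW x H hx0 hx1 hH0 hH1
  have hm := hW.wide.pos
  have hm1 : (1 : ℝ) ≤ W.m := by exact_mod_cast hm
  have hq0 := den_pos' x
  obtain ⟨u, v, hn⟩ := hN x hx0 hx1
  obtain ⟨x₁, x₂, g, h1, h2, h3, h4, h5, h6, h7, h8, h9, h10⟩ :=
    hC W hW x u v hx0 hx1 hn H hH0 hH1
  obtain ⟨F, P, k1, k2, ⟨i₁, hi₁, k3⟩, ⟨i₂, hi₂, k4⟩, k5⟩ :=
    hG W hW x u v x₁ x₂ hx0 hx1 hn h1 h2 h3 h4
  obtain ⟨d1, -⟩ := hD W hW x u v x₁ hx0 hx1 hn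
  obtain ⟨-, d2⟩ := hD W hW x u v x₂ hx0 hx1 hn
  have hu0 : 0 < u := by
    refine lt_of_lt_of_le ?_ hn.u0
    have : (0 : ℚ) < x.den := by exact_mod_cast x.den_pos
    positivity
  have hv1 : v < 1 := by
    refine lt_of_le_of_lt hn.v1 ?_
    have : (0 : ℚ) < x.den := by exact_mod_cast x.den_pos
    have h : (0 : ℚ) < 2 / (3 * x.den) := by positivity
    linarith
  refine ⟨x₁, x₂, g, F, P, hu0.trans h1, h2, h3, h4.trans hv1, h5, h6, k1, k2,
    fun t ht ht' => ⟨i₁, hi₁, k3 (h7 t ht ht')⟩, fun t ht ht' => ⟨i₂, hi₂, k4 (h8 t ht ht')⟩,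
    d1 h1 h2, d2 h3 h4, ?_⟩
  refine ofReal_sq_add3.trans ?_
  unfold cutE
  have e1 : ENNReal.ofReal (C * (W.m * x.den)) =
      ENNReal.ofReal C * ENNReal.ofReal (W.m * x.den) := ENNReal.ofReal_mul hC0
  have e2 : ENNReal.ofReal (C' * W.m) = ENNReal.ofReal C' * ENNReal.ofReal W.m :=
    ENNReal.ofReal_mul hC0'
  rw [e1] at h9 h10
  rw [e2] at k5
  have e3 : ENNReal.ofReal (3 * (C + C')) = 3 * (ENNReal.ofReal C + ENNReal.ofReal C') := by
    rw [ENNReal.ofReal_mul (by norm_num), ENNReal.ofReal_add hC0 hC0']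
    norm_num
  rw [e3, mul_assoc]
  refine mul_le_mul' le_rfl ?_
  refine (add_le_add (add_le_add h9 h10) k5).trans ?_
  have key : ∀ a a' n k r₁ r₂ v : ℝ≥0∞, a * n * r₁ + a * n * r₂ + a' * k * v ≤
      (a + a') * (n * (r₁ + r₂) + k * v) := by
    intro a a' n k r₁ r₂ v
    calc a * n * r₁ + a * n * r₂ + a' * k * v = a * (n * (r₁ + r₂)) + a' * (k * v) := by ring
      _ ≤ a * (n * (r₁ + r₂) + k * v) + a' * (n * (r₁ + r₂) + k * v) :=
          add_le_add (mul_le_mul' le_rfl le_self_add) (mul_le_mul' le_rfl le_add_self)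
      _ = _ := by ring
  exact key _ _ _ _ _ _ _

/-- monotonicity of the energy of a roof -/
lemma en_mono {A B : Set ℂ} (h : A ⊆ B) : en A ≤ en B := lintegral_mono_set h

/-- **ONE** -/
theorem c_one (hT : Q_top) (hR : C_roof) {C : ℝ} (hC0 : 0 ≤ C) (hC : C_cut C) :
    C_one (2 * (C + 10 ^ 5)) := by
  intro W hW x H hx0 hx1 hH1 hlen hDD
  have hH0 : 0 < H := (DD_pos _ _).trans_le hDD
  obtain ⟨x₁, x₂, g, F, P, a1, a2, a3, a4, a5, a6, a7, a8, a9, a10, a11, a12, a13⟩ :=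
    hC W hW x H hx0 hx1 hH0 hH1
  have h1 := hT W hW x x₁ x₂ a1 a2 a3 a4 g H a5 a6 ℕ F P a7 a8 a9 a10
  have hlt : (W.dat x).tm < (W.dat x).tp := (WS.dat_cir hW hx0 hx1).lt
  have b1 : (W.dat x₁).tm ≤ (W.dat x).tm := WS.tm_mono hW a1 a2.le hx1
  have b2 : (W.dat x).tp ≤ (W.dat x₂).tp := WS.tp_mono hW hx0 a3.le a4
  have h2 := hR (W.dat x₁).tm (W.dat x₂).tp H hH0 hH1 (by linarith) (by linarith)
  have h3 : en (Rf ((W.dat x₁).tm + H) ((W.dat x₂).tp - H) H) ≤
      en (Rf (W.dat x).tm (W.dat x).tp H) := by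
    refine en_mono fun z hz => ?_
    obtain ⟨z1, z2, z3, z4⟩ := hz
    exact ⟨z1, z2, by linarith, by linarith⟩
  have h4 : ENNReal.ofReal (diam (Lm (W.dat x)) ^ 2) ≤ ENNReal.ofReal
      (((diam (RaySeg (W.dat x₁).tm g H) + diam (RaySeg (W.dat x₂).tp g H) +
      ∑ i ∈ F, diam (P i)) + diam (RoofH H (W.dat x₁).tm (W.dat x₂).tp)) ^ 2) := by
    refine ENNReal.ofReal_le_ofReal (pow_le_pow_left₀ diam_nonneg ?_ 2)
    linarith
  refine (h4.trans ofReal_sq_add).trans ?_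
  have e3 : ENNReal.ofReal (2 * (C + 10 ^ 5)) = 2 * (ENNReal.ofReal C + 10 ^ 5) := by
    rw [ENNReal.ofReal_mul (by norm_num), ENNReal.ofReal_add hC0 (by norm_num)]
    norm_num
  rw [e3, mul_assoc]
  refine mul_le_mul' le_rfl ((add_le_add a13 (h2.trans (mul_le_mul' le_rfl h3))).trans ?_)
  rw [add_mul]
  exact add_le_add (mul_le_mul' le_rfl le_self_add) (mul_le_mul' le_rfl le_add_self)

end Pool.Agent.Work.MLC.Cap
end

section
set_option autoImplicit false

/-! # Theorem Cap: the roof and the total energy (helper24) -/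

namespace Pool.Agent.Work.MLC.Cap

open Filter Topology Metric Set Complex MeasureTheory
open Pool.Agent.Work.MLC.Sat Pool.Agent.Work.MLC.Cnt
open scoped ENNReal

lemma isOpen_Rf (s t H : ℝ) : IsOpen (Rf s t H) := by
  have e : Rf s t H = {z : ℂ | H / 2 < z.re} ∩ ({z : ℂ | z.re < 2 * H} ∩
      ({z : ℂ | s - 2 * H < z.im / (2 * Real.pi)} ∩
        {z : ℂ | z.im / (2 * Real.pi) < t + 2 * H})) := rfl
  rw [e]
  have h1 : Continuous fun z : ℂ => z.im / (2 * Real.pi) := Complex.continuous_im.div_const _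
  exact (isOpen_lt (by fun_prop) (by fun_prop)).inter
    ((isOpen_lt (by fun_prop) (by fun_prop)).inter
      ((isOpen_lt (by fun_prop) h1).inter (isOpen_lt h1 (by fun_prop))))

/-- the roof, with the square -/
lemma roof_sq {s t H E : ℝ} (hH : 0 < H) (hst : t ≤ s + 5 * H) (hE0 : 0 ≤ E)
    (hE : en (Rf (s + H) (t - H) H) ≤ ENNReal.ofReal E) {u v : ℝ} (hu : s ≤ u) (huv : u ≤ v)
    (hv : v ≤ t) :
    ‖cOf ((H : ℂ) + 2 * Real.pi * v * I) - cOf ((H : ℂ) + 2 * Real.pi * u * I)‖ ^ 2 ≤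
      100 * E := by
  have hpi := Real.pi_gt_three
  have hpi2 := Real.pi_lt_four
  have hpi0 := Real.pi_pos
  have h1 := ln_length_sq (f := cOf) (B := Rf (s + H) (t - H) H) (γ := fun x : ℝ => (H : ℂ) +
      2 * Real.pi * x * I) (γ' := fun x : ℝ => 2 * Real.pi * I) (ρ := fun x => H / 5)
    (a := u) (b := v) (M := 10 * Real.pi / H) (T := H / (5 * Real.pi)) (E := E)
    ln_isOpen differentiableOn_cOf (fun z hz => by
      have := hz.1
      show 0 < z.re
      linarith) (isOpen_Rf _ _ _).measurableSet huv (by positivity) ?_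
    (by fun_prop) (by fun_prop) (fun x _ => by positivity) ?_ ?_ ?_ hE0 hE
  · refine h1.trans ?_
    have h2 : (v - u) * (10 * Real.pi / H) ^ 2 * (H / (5 * Real.pi)) * E / Real.pi =
        20 * (E * ((v - u) / H)) := by
      field_simp
      ring
    rw [h2]
    have h3 : (v - u) / H ≤ 5 := by
      rw [div_le_iff₀ hH]; linarith
    nlinarith [mul_le_mul_of_nonneg_left h3 hE0]
  · intro x
    have h2 : HasDerivAt (fun y : ℝ => (y : ℂ)) 1 x := Complex.ofRealCLM.hasDerivAt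
    have h3 := ((h2.const_mul (2 * Real.pi : ℂ)).mul_const I).const_add (H : ℂ)
    simpa using h3
  · intro x _
    have e1 : ‖(2 * Real.pi * I : ℂ)‖ = 2 * Real.pi := by
      simp [abs_of_pos Real.pi_pos]
    rw [e1]
    apply le_of_eq
    field_simp
    ring
  · intro x hx z hz
    rw [mem_ball, dist_eq] at hz
    have hre := (abs_re_le_norm _).trans_lt hz
    have him := (abs_im_le_norm _).trans_lt hz
    simp only [sub_re, add_re, ofReal_re, mul_re, re_ofNat, im_ofNat, ofReal_im, I_re, I_im,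
      mul_im, mul_zero, zero_mul, sub_zero, mul_one, add_zero, zero_add, sub_im, add_im,
      sub_self] at hre him
    rw [abs_lt] at hre him
    have h2 : s ≤ x := hu.trans hx.1
    have h3 : x ≤ t := hx.2.trans hv
    refine ⟨by linarith, by linarith, ?_, ?_⟩
    · rw [lt_div_iff₀ (by positivity)]
      nlinarith
    · rw [div_lt_iff₀ (by positivity)]
      nlinarith
  · intro w hw
    have hsub : {x | x ∈ Icc u v ∧ w ∈ ball ((H : ℂ) + 2 * Real.pi * x * I) (H / 5)} ⊆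
        Icc ((w.im - H / 5) / (2 * Real.pi)) ((w.im + H / 5) / (2 * Real.pi)) := by
      rintro x ⟨-, hx⟩
      rw [mem_ball, dist_eq] at hx
      have him := (abs_im_le_norm _).trans_lt hx
      simp only [ofReal_re, mul_re, re_ofNat, im_ofNat, ofReal_im, I_re, I_im,
        mul_im, mul_zero, zero_mul, sub_zero, mul_one, add_zero, zero_add, sub_im, add_im] at him
      rw [abs_lt] at him
      constructor
      · rw [div_le_iff₀ (by positivity)]; linarith
      · rw [le_div_iff₀ (by positivity)]; linarith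
    refine (measure_mono hsub).trans ?_
    rw [Real.volume_Icc]
    apply ENNReal.ofReal_le_ofReal
    apply le_of_eq
    field_simp
    ring

/-- **RF: roofs** -/
theorem c_roof : C_roof := by
  intro s t H hH _ _ hst
  rcases eq_or_ne (en (Rf (s + H) (t - H) H)) ⊤ with h | h
  · rw [h, ENNReal.mul_top (by norm_num)]
    exact le_top
  set E : ℝ := (en (Rf (s + H) (t - H) H)).toReal with hE
  have hE0 : 0 ≤ E := ENNReal.toReal_nonneg
  have hE1 : en (Rf (s + H) (t - H) H) = ENNReal.ofReal E := (ENNReal.ofReal_toReal h).symm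
  have key : ∀ u v : ℝ, s ≤ u → u ≤ v → v ≤ t →
      ‖cOf ((H : ℂ) + 2 * Real.pi * v * I) - cOf ((H : ℂ) + 2 * Real.pi * u * I)‖ ≤
        10 * √E := by
    intro u v hu huv hv
    have h2 := roof_sq hH hst hE0 hE1.le hu huv hv
    have h4 : ‖cOf ((H : ℂ) + 2 * Real.pi * v * I) - cOf ((H : ℂ) + 2 * Real.pi * u * I)‖ ^ 2 ≤
        (10 * √E) ^ 2 := by
      rw [mul_pow, Real.sq_sqrt hE0]
      linarith
    exact (abs_le_of_sq_le_sq' h4 (by positivity)).2
  have hd : diam (RoofH H s t) ≤ 10 * √E := by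
    apply diam_le_of_forall_dist_le (by positivity)
    rintro _ ⟨u, hu, rfl⟩ _ ⟨v, hv, rfl⟩
    rcases le_total u v with huv | huv
    · rw [dist_comm, dist_eq]
      exact key u v hu.1 huv hv.2
    · rw [dist_eq]
      exact key v u hv.1 huv hu.2
  have hd2 : diam (RoofH H s t) ^ 2 ≤ 10 ^ 5 * E := by
    calc diam (RoofH H s t) ^ 2 ≤ (10 * √E) ^ 2 := pow_le_pow_left₀ diam_nonneg hd 2
      _ = 100 * E := by rw [mul_pow, Real.sq_sqrt hE0]; norm_num
      _ ≤ 10 ^ 5 * E := by nlinarith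
  refine (ENNReal.ofReal_le_ofReal hd2).trans (le_of_eq ?_)
  rw [hE1, ENNReal.ofReal_mul (by norm_num)]
  congr 1
  norm_num

/-- a strip of height `2 π` -/
lemma en_strip {A : Set ℂ} (hAm : MeasurableSet A) (hA : ∀ z ∈ A, 0 < z.re ∧ z.re ≤ 2)
    (hA2 : ∀ z ∈ A, ∀ w ∈ A, |z.im - w.im| < 2 * Real.pi) : en A ≤ 400 := by
  unfold en
  rw [qw_energy hAm hA hA2]
  have hsub : cOf '' A ⊆ closedBall (0 : ℂ) 10 := by
    rintro _ ⟨z, hz, rfl⟩
    rw [mem_closedBall_zero_iff]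
    apply norm_le_ten
    rw [G_cOf (hA z hz).1]
    linarith [(hA z hz).2]
  have h1 : (volume (cOf '' A)).toReal ≤ 400 := by
    refine (ENNReal.toReal_mono measure_closedBall_lt_top.ne (measure_mono hsub)).trans ?_
    rw [Complex.volume_closedBall]
    have hpi : Real.pi < 3.15 := Real.pi_lt_d2
    have h3 : (ENNReal.ofReal 10 ^ 2 * (NNReal.pi : ENNReal)).toReal = 100 * Real.pi := by
      rw [ENNReal.toReal_mul, ENNReal.toReal_pow, ENNReal.toReal_ofReal (by norm_num)]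
      norm_num
    rw [h3]
    linarith
  refine (ENNReal.ofReal_le_ofReal h1).trans ?_
  norm_num

/-- **EN: the total energy** -/
theorem c_energy : C_energy := by
  have hpi := Real.pi_gt_three
  have hpi0 := Real.pi_pos
  set A : Fin 7 → Set ℂ := fun j => {z | 0 < z.re ∧ z.re ≤ 2 ∧
    -20 + 2 * Real.pi * (j : ℕ) ≤ z.im ∧ z.im < -20 + 2 * Real.pi * ((j : ℕ) + 1)} with hA
  have hm : ∀ j, MeasurableSet (A j) := by
    intro j
    exact (measurableSet_lt measurable_const measurable_re).inter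
      ((measurableSet_le measurable_re measurable_const).inter
        ((measurableSet_le measurable_const measurable_im).inter
          (measurableSet_lt measurable_im measurable_const)))
  have hsub : {z : ℂ | 0 < z.re ∧ z.re ≤ 2 ∧ -20 < z.im ∧ z.im < 20} ⊆ ⋃ j, A j := by
    rintro z ⟨h1, h2, h3, h4⟩
    have h5 : 0 ≤ (z.im + 20) / (2 * Real.pi) := by
      have : 0 < z.im + 20 := by linarith
      positivity
    have h6 : ⌊(z.im + 20) / (2 * Real.pi)⌋₊ < 7 := by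
      rw [Nat.floor_lt h5, div_lt_iff₀ (by positivity)]
      push_cast
      linarith
    refine mem_iUnion.2 ⟨⟨_, h6⟩, h1, h2, ?_, ?_⟩
    · have h7 := Nat.floor_le h5
      rw [le_div_iff₀ (by positivity)] at h7
      show -20 + 2 * Real.pi * ((⌊(z.im + 20) / (2 * Real.pi)⌋₊ : ℕ) : ℝ) ≤ z.im
      linarith
    · have h7 := Nat.lt_floor_add_one ((z.im + 20) / (2 * Real.pi))
      rw [div_lt_iff₀ (by positivity)] at h7
      show z.im < -20 + 2 * Real.pi * (((⌊(z.im + 20) / (2 * Real.pi)⌋₊ : ℕ) : ℝ) + 1)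
      linarith
  have h1 : en {z : ℂ | 0 < z.re ∧ z.re ≤ 2 ∧ -20 < z.im ∧ z.im < 20} ≤ ∑ j, en (A j) := by
    calc en {z : ℂ | 0 < z.re ∧ z.re ≤ 2 ∧ -20 < z.im ∧ z.im < 20} ≤ en (⋃ j, A j) :=
          lintegral_mono_set hsub
      _ ≤ ∑' j, en (A j) := lintegral_iUnion_le _ _
      _ = ∑ j, en (A j) := tsum_fintype _
  refine h1.trans ?_
  calc ∑ j, en (A j) ≤ ∑ _j : Fin 7, (400 : ℝ≥0∞) := by
        refine Finset.sum_le_sum fun j _ => en_strip (hm j) (fun z hz => ⟨hz.1, hz.2.1⟩) ?_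
        rintro z ⟨-, -, h3, h4⟩ w ⟨-, -, h5, h6⟩
        rw [abs_lt]
        constructor <;> nlinarith
    _ ≤ 10 ^ 6 := by
        rw [Finset.sum_const, Finset.card_univ, Fintype.card_fin]
        norm_num

end Pool.Agent.Work.MLC.Cap
end

section
set_option autoImplicit false

/-! # Theorem Cap: Farey neighbours with denominators in `(2 q, 3 q]` (helper31) -/

namespace Pool.Agent.Work.MLC.Cap

theorem nbr_aux (p q e : ℤ) (hq : 0 < q) (h : IsCoprime p q) :
    ∃ a b : ℤ, 2 * q < b ∧ b ≤ 3 * q ∧ p * b - a * q = e := by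
  obtain ⟨s, t, hst⟩ := h
  refine ⟨p * ((3 * q - e * s) / q) - e * t, e * s + q * ((3 * q - e * s) / q), ?_, ?_, ?_⟩
  · have h1 := Int.emod_add_mul_ediv (3 * q - e * s) q
    have h2 := Int.emod_lt_of_pos (3 * q - e * s) hq
    linarith
  · have h1 := Int.emod_add_mul_ediv (3 * q - e * s) q
    have h2 := Int.emod_nonneg (3 * q - e * s) hq.ne'
    linarith
  · linear_combination e * hst

theorem nbr_rat (a b p q e : ℤ) (hb : 0 < b) (he : e = 1 ∨ e = -1) (h : p * b - a * q = e) :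
    ((a : ℚ) / b).num = a ∧ (((a : ℚ) / b).den : ℤ) = b := by
  have hc : Nat.Coprime a.natAbs b.natAbs := by
    rw [Nat.Coprime, ← Int.gcd_def, ← Int.isCoprime_iff_gcd_eq_one]
    rcases he with rfl | rfl
    · exact ⟨-q, p, by linear_combination h⟩
    · exact ⟨q, -p, by linear_combination -h⟩
  exact ⟨Rat.num_div_eq_of_coprime hb hc, Rat.den_div_eq_of_coprime hb hc⟩

theorem c_nbr : C_nbr := by
  intro x hx0 hx1
  have hq : (0 : ℤ) < x.den := by exact_mod_cast x.den_pos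
  have hp : 0 < x.num := Rat.num_pos.mpr hx0
  have hpq : x.num < x.den := by
    have := hx1
    rw [Rat.lt_iff] at this
    simpa using this
  have hcop : IsCoprime x.num (x.den : ℤ) := by
    rw [Int.isCoprime_iff_gcd_eq_one]
    exact x.reduced
  obtain ⟨a, b, hb1, hb2, hab⟩ := nbr_aux x.num x.den 1 hq hcop
  obtain ⟨c, d, hd1, hd2, hcd⟩ := nbr_aux x.num x.den (-1) hq hcop
  have hb0 : 0 < b := by linarith
  have hd0 : 0 < d := by linarith
  obtain ⟨hun, hud⟩ := nbr_rat a b x.num x.den 1 hb0 (Or.inl rfl) hab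
  obtain ⟨hvn, hvd⟩ := nbr_rat c d x.num x.den (-1) hd0 (Or.inr rfl) hcd
  have hxe : x = (x.num : ℚ) / x.den := (Rat.num_div_den x).symm
  have hqQ : (0 : ℚ) < x.den := by exact_mod_cast hq
  have hbQ : (0 : ℚ) < b := by exact_mod_cast hb0
  have hdQ : (0 : ℚ) < d := by exact_mod_cast hd0
  have habQ : (x.num : ℚ) * b - a * x.den = 1 := by exact_mod_cast hab
  have hcdQ : (x.num : ℚ) * d - c * x.den = -1 := by exact_mod_cast hcd
  have h5b : (3 : ℚ) ≤ b := by
    have : (3 : ℤ) ≤ b := by linarith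
    exact_mod_cast this
  have h5d : (3 : ℚ) ≤ d := by
    have : (3 : ℤ) ≤ d := by linarith
    exact_mod_cast this
  have hp1 : (1 : ℚ) ≤ x.num := by exact_mod_cast hp
  have hpq1 : (x.num : ℚ) + 1 ≤ x.den := by exact_mod_cast hpq
  have hu : (a : ℚ) / b = (x.num - 1 / b) / x.den := by
    field_simp
    linarith
  have hv : (c : ℚ) / d = (x.num + 1 / d) / x.den := by
    field_simp
    linarith
  have h3b : 1 / (b : ℚ) ≤ 1 / 3 := one_div_le_one_div_of_le (by norm_num) h5b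
  have h3d : 1 / (d : ℚ) ≤ 1 / 3 := one_div_le_one_div_of_le (by norm_num) h5d
  refine ⟨(a : ℚ) / b, (c : ℚ) / d, ?_, ?_, ?_, ?_, ?_, ?_, ?_, ?_⟩
  · rw [hu]
    conv_rhs => rw [hxe]
    gcongr
    have : 0 < 1 / (b : ℚ) := by positivity
    linarith
  · rw [hv]
    conv_lhs => rw [hxe]
    gcongr
    have : 0 < 1 / (d : ℚ) := by positivity
    linarith
  · rw [hu, div_le_div_iff₀ (by positivity) hqQ]
    nlinarith
  · rw [hv, div_le_iff₀ hqQ]
    have : (1 - 2 / (3 * (x.den : ℚ))) * x.den = x.den - 2 / 3 := by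
      field_simp
    rw [this]
    linarith
  · rw [hun, hud]
    linarith
  · rw [hvn, hvd]
    linarith
  · constructor
    · have : (2 : ℤ) * x.den < (((a : ℚ) / b).den : ℤ) := by rw [hud]; exact hb1
      exact_mod_cast this
    · have : (((a : ℚ) / b).den : ℤ) ≤ 3 * x.den := by rw [hud]; exact hb2
      exact_mod_cast this
  · constructor
    · have : (2 : ℤ) * x.den < (((c : ℚ) / d).den : ℤ) := by rw [hvd]; exact hd1
      exact_mod_cast this
    · have : (((c : ℚ) / d).den : ℤ) ≤ 3 * x.den := by rw [hvd]; exact hd2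
      exact_mod_cast this

end Pool.Agent.Work.MLC.Cap
end

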