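import Pool.Agent.Work.MLCM.C71
import Pool.Agent.Work.MLCM.C81
import Pool.Agent.Work.MLCM.C82

section
set_option autoImplicit false

/-! # Theorem U: the null lemmas (helper90)

`u_null1 (h : U_sum1) : U_null1`, `u_null2 (h : U_sum2) : U_null2`. -/

namespace Pool.Agent.Work.MLC.Uni

open Filter Topology Metric Set Complex MeasureTheory
open Pool.Agent.Work.MLC.Sat Pool.Agent.Work.MLC.Cnt
open Pool.Agent.Work.MLC.Shp (Wake lg)
open scoped ENNReal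

namespace N90

/-- the root at `1 / 2` -/
noncomputable abbrev Hf (W : WS) : Dat := W.dat (1 / 2)

lemma par {W : WS} (h : W.Ok) : (Hf W).Par := WS.dat_par h (by norm_num) (by norm_num)

lemma cir {W : WS} (h : W.Ok) : (Hf W).Cir := WS.dat_cir h (by norm_num) (by norm_num)

/-- the angles of a piece -/
def AA (two : Prop) (W W' : WS) : Set ℝ :=
  {θ | (Hf W).tm < θ ∧ θ < (Hf W).tp ∧ (two → ¬ ((Hf W').tm ≤ θ ∧ θ ≤ (Hf W').tp))}

/-- the hypotheses on a relation that describes pieces -/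
structure Rel (two : Prop) (R : ℕ → WS → WS → Prop) : Prop where
  ok : ∀ {n W W'}, R n W W' → W.Ok ∧ W'.Ok ∧ 4000 ≤ n ∧ W.m ≤ 4 * n ∧ W'.m ≤ 4 * n
  dom : ∀ {n W W'}, R n W W' → 0 < (Hf W).tm ∧ (Hf W).tp < 1 ∧ 0 < (Hf W').tm ∧ (Hf W').tp < 1
  nest : ∀ {n W W'}, R n W W' → two → (Hf W).tm < (Hf W').tm ∧ (Hf W').tp < (Hf W).tp
  len1 : ∀ {n W W'}, R n W W' → ¬ two → (Hf W).tp - (Hf W).tm ≤ (1 / 2) ^ (n / 20)
  len2 : ∀ {n W W'}, R n W W' → two → (Hf W').tm - (Hf W).tm ≤ (1 / 2) ^ (n / 20) ∧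
    (Hf W).tp - (Hf W').tp ≤ (1 / 2) ^ (n / 20)
  sum : ∃ C : ℝ, ∀ (ι : Type) (F : Finset ι) (n : ι → ℕ) (W W' : ι → WS),
    (∀ i ∈ F, R (n i) (W i) (W' i)) →
    (∀ (k : ℕ) (θ : ℝ), Irrational θ → ∀ T ⊆ F,
      (∀ i ∈ T, 2 ^ k ≤ n i ∧ n i < 2 ^ (k + 1) ∧ θ ∈ AA two (W i) (W' i)) → T.card ≤ 3) →
    ∑ i ∈ F, diam (Cap.PK (Hf (W i)) (Hf (W' i)) two) ^ 2 / n i ≤ C

/-- the key of a piece -/
noncomputable def key (n : ℕ) (W W' : WS) : ℕ × (ℝ × ℝ) × (ℝ × ℝ) :=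
  (n, ((Hf W).tm, (Hf W).tp), ((Hf W').tm, (Hf W').tp))

/-- the ends are periodic -/
lemma per {W : WS} (h : W.Ok) : (∃ a : ℤ, (2 ^ (W.m * 2) - 1) * (Hf W).tm = a) ∧
    ∃ b : ℤ, (2 ^ (W.m * 2) - 1) * (Hf W).tp = b := by
  obtain ⟨-, ⟨k, hk⟩, -⟩ := (cir h).per
  have hm : (Hf W).m = W.m := WS.dat_m h (by norm_num) (by norm_num)
  have hx : (Hf W).x = 1 / 2 := WS.dat_x h (by norm_num) (by norm_num)
  have hden : (Hf W).x.den = 2 := by rw [hx]; norm_num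
  rw [hm, hden] at hk
  obtain ⟨j, l, hj⟩ := (cir h).orb
  rw [hm] at hj
  refine ⟨⟨k, by linarith⟩, 2 ^ (W.m * j) * k + (2 ^ (W.m * 2) - 1) * l, ?_⟩
  rw [hj]
  push_cast
  rw [← hk]
  ring

/-- the possible ends -/
def Pe (M : ℕ) : Set ℝ := {x | 0 < x ∧ x < 1 ∧ ∃ N, 0 < N ∧ N ≤ M ∧ ∃ a : ℤ, (2 ^ N - 1) * x = a}

lemma finite_Pe (M : ℕ) : (Pe M).Finite := by
  refine Set.Finite.subset ((Set.finite_Iic M).biUnion fun N _ =>
    ((Set.finite_Icc (0 : ℤ) (2 ^ N)).image fun a : ℤ => (a : ℝ) / (2 ^ N - 1))) ?_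
  rintro x ⟨h0, h1, N, hN0, hN, a, ha⟩
  have h2 : (1 : ℝ) < 2 ^ N := one_lt_pow₀ (by norm_num) hN0.ne'
  have h3 : (0 : ℝ) < 2 ^ N - 1 := by linarith
  refine mem_iUnion₂.2 ⟨N, hN, a, ⟨?_, ?_⟩, ?_⟩
  · have : (0 : ℝ) < a := by rw [← ha]; positivity
    exact_mod_cast this.le
  · have : (a : ℝ) ≤ 2 ^ N := by rw [← ha]; nlinarith
    exact_mod_cast this
  · show (a : ℝ) / (2 ^ N - 1) = x
    rw [div_eq_iff h3.ne', ← ha]; ring

lemma mem_Pe {W : WS} (h : W.Ok) {M : ℕ} (hm : W.m ≤ M) (h0 : 0 < (Hf W).tm) (h1 : (Hf W).tp < 1) :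
    (Hf W).tm ∈ Pe (2 * M) ∧ (Hf W).tp ∈ Pe (2 * M) := by
  have hm0 : 0 < W.m := by
    have h2 := (par h).m_pos
    rwa [WS.dat_m h (by norm_num) (by norm_num)] at h2
  have hlt := (cir h).lt
  obtain ⟨h2, h3⟩ := per h
  exact ⟨⟨h0, by linarith, W.m * 2, by omega, by omega, h2⟩,
    ⟨by linarith, h1, W.m * 2, by omega, by omega, h3⟩⟩

/-- inside of `(0, 1)` -/
lemma inA_iff {D : Dat} (h0 : 0 < D.tm) (h1 : D.tp < 1) {θ : ℝ} (hθ : 0 < θ) (hθ' : θ < 1) :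
    InA D θ ↔ D.tm < θ ∧ θ < D.tp := by
  constructor
  · rintro ⟨k, k1, k2⟩
    have e1 : (k : ℝ) < 1 := by linarith
    have e2 : (-1 : ℝ) < k := by linarith
    have e3 : k < 1 := by exact_mod_cast e1
    have e4 : -1 < k := by exact_mod_cast e2
    have hk : k = 0 := by omega
    rw [hk] at k1 k2
    push_cast at k1 k2
    exact ⟨by linarith, by linarith⟩
  · rintro ⟨k1, k2⟩
    exact ⟨0, by push_cast; linarith, by push_cast; linarith⟩

/-- the arcs inside of `(0, 1)` are nested or disjoint -/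
lemma lam {D D' : Dat} (hP : D.Par) (hC : D.Cir) (hP' : D'.Par) (hC' : D'.Cir) (h0 : 0 < D.tm)
    (h1 : D.tp < 1) (h0' : 0 < D'.tm) (h1' : D'.tp < 1) :
    (∀ θ, D.tm < θ ∧ θ < D.tp → D'.tm < θ ∧ θ < D'.tp) ∨
    (∀ θ, D'.tm < θ ∧ θ < D'.tp → D.tm < θ ∧ θ < D.tp) ∨
    ∀ θ, D.tm < θ ∧ θ < D.tp → ¬ (D'.tm < θ ∧ θ < D'.tp) := by
  rcases Shp.inA_lam hP hC hP' hC' with h | h | h
  · refine Or.inl fun θ hθ => ?_
    exact (inA_iff h0' h1' (by linarith [hθ.1]) (by linarith [hθ.2])).1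
      (h θ ((inA_iff h0 h1 (by linarith [hθ.1]) (by linarith [hθ.2])).2 hθ))
  · refine Or.inr (Or.inl fun θ hθ => ?_)
    exact (inA_iff h0 h1 (by linarith [hθ.1]) (by linarith [hθ.2])).1
      (h θ ((inA_iff h0' h1' (by linarith [hθ.1]) (by linarith [hθ.2])).2 hθ))
  · refine Or.inr (Or.inr fun θ hθ hθ' => ?_)
    exact h θ ((inA_iff h0 h1 (by linarith [hθ.1]) (by linarith [hθ.2])).2 hθ)
      ((inA_iff h0' h1' (by linarith [hθ.1]) (by linarith [hθ.2])).2 hθ')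

/-- the gauge of an arc of level `n` -/
lemma gauge_le {x : ℝ} {n : ℕ} (hn : 4000 ≤ n) (h0 : 0 < x) (h : x ≤ (1 / 2) ^ (n / 20)) :
    x < 1 ∧ 1 / Real.log (1 / x) ≤ 31 * (1 / n) := by
  have hn' : (4000 : ℝ) ≤ n := by exact_mod_cast hn
  have h1 : 200 ≤ n / 20 := by omega
  have h2 : ((1 : ℝ) / 2) ^ (n / 20) < 1 := pow_lt_one₀ (by norm_num) (by norm_num) (by omega)
  refine ⟨by linarith, ?_⟩
  have h3 : (2 : ℝ) ^ (n / 20) ≤ 1 / x := by
    rw [le_div_iff₀ h0]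
    calc (2 : ℝ) ^ (n / 20) * x ≤ 2 ^ (n / 20) * (1 / 2) ^ (n / 20) := by gcongr
      _ = 1 := by rw [← mul_pow]; norm_num
  have h4 := Real.log_le_log (by positivity) h3
  rw [Real.log_pow] at h4
  have h5 : 0.6931471803 < Real.log 2 := Real.log_two_gt_d9
  have h6 : (n : ℝ) ≤ 21 * ((n / 20 : ℕ) : ℝ) := by
    have : n ≤ 21 * (n / 20) := by omega
    exact_mod_cast this
  have h7 : (n : ℝ) / 31 ≤ Real.log (1 / x) := by
    refine le_trans ?_ h4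
    nlinarith
  calc 1 / Real.log (1 / x) ≤ 1 / ((n : ℝ) / 31) :=
        one_div_le_one_div_of_le (by positivity) h7
    _ = 31 * (1 / n) := by field_simp

/-- the two intervals of a piece: first coordinates -/
lemma null_of_logNull {E : Set ℝ} (h : Shp.LogNull E) : Cap.Null E := by
  intro ε hε
  obtain ⟨a, b, h1, h2, h3, h4⟩ := h ε hε
  refine ⟨a, fun i => b i - a i, fun i => ⟨by linarith [(h1 i).1], by linarith [(h1 i).2]⟩,
    fun θ hθ => ?_, h3, h4⟩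
  obtain ⟨i, hi⟩ := mem_iUnion.1 (h2 hθ)
  refine mem_iUnion.2 ⟨i, ?_⟩
  show θ ∈ Icc (a i) (a i + (b i - a i))
  rw [add_sub_cancel]
  exact hi

open Classical in
/-- a piece with the given key -/
noncomputable def rep (R : ℕ → WS → WS → Prop) (κ : ℕ × (ℝ × ℝ) × (ℝ × ℝ)) : WS × WS :=
  if h : ∃ p : WS × WS, R κ.1 p.1 p.2 ∧ key κ.1 p.1 p.2 = κ then h.choose else
    (⟨0, fun _ => 0, 0, fun _ => (0, 0)⟩, ⟨0, fun _ => 0, 0, fun _ => (0, 0)⟩)

lemma rep_spec {R : ℕ → WS → WS → Prop} {κ : ℕ × (ℝ × ℝ) × (ℝ × ℝ)}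
    (h : ∃ p : WS × WS, R κ.1 p.1 p.2 ∧ key κ.1 p.1 p.2 = κ) :
    R κ.1 (rep R κ).1 (rep R κ).2 ∧ key κ.1 (rep R κ).1 (rep R κ).2 = κ := by
  rw [rep, dif_pos h]
  exact h.choose_spec

/-- membership in terms of the key -/
lemma mem_AA_iff {two : Prop} {W W' : WS} {κ : ℕ × (ℝ × ℝ) × (ℝ × ℝ)}
    (h : key κ.1 W W' = κ) {θ : ℝ} : θ ∈ AA two W W' ↔ κ.2.1.1 < θ ∧ θ < κ.2.1.2 ∧
      (two → ¬ (κ.2.2.1 ≤ θ ∧ θ ≤ κ.2.2.2)) := by
  rw [← h]
  exact Iff.rfl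

/-- the chosen pieces -/
theorem choose90 {two : Prop} {R : ℕ → WS → WS → Prop} (hR : Rel two R) :
    ∃ G : Set (ℕ × (ℝ × ℝ) × (ℝ × ℝ)),
      (∀ κ ∈ G, ∃ p : WS × WS, R κ.1 p.1 p.2 ∧ key κ.1 p.1 p.2 = κ) ∧
      Summable (fun κ : G => diam (Cap.PK (Hf (rep R κ).1) (Hf (rep R κ).2) two) ^ 2 / (κ.1.1 : ℝ)) ∧
      ∀ θ : ℝ, Irrational θ → (∀ n₀ : ℕ, ∃ n, n₀ ≤ n ∧ ∃ W W' : WS, R n W W' ∧
        θ ∈ AA two W W') → ∀ n₀ : ℕ, ∃ κ ∈ G, n₀ ≤ κ.1 ∧ θ ∈ AA two (rep R κ).1 (rep R κ).2 := by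
  classical
  obtain ⟨C, hC⟩ := hR.sum
  set Q : ℕ → Set (ℕ × (ℝ × ℝ) × (ℝ × ℝ)) := fun k => {κ | 2 ^ k ≤ κ.1 ∧ κ.1 < 2 ^ (k + 1) ∧
    ∃ p : WS × WS, R κ.1 p.1 p.2 ∧ key κ.1 p.1 p.2 = κ} with hQ
  have hfin : ∀ k, (Q k).Finite := by
    intro k
    set P := Pe (2 * (4 * 2 ^ (k + 1))) with hP
    refine Set.Finite.subset ((Set.finite_Iio (2 ^ (k + 1))).prod
      (((finite_Pe _).prod (finite_Pe _)).prod ((finite_Pe _).prod (finite_Pe _))) :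
        (Iio (2 ^ (k + 1)) ×ˢ ((P ×ˢ P) ×ˢ (P ×ˢ P))).Finite) ?_
    rintro κ ⟨h1, h2, ⟨W, W'⟩, h3, h4⟩
    obtain ⟨o1, o2, o3, o4, o5⟩ := hR.ok h3
    obtain ⟨d1, d2, d3, d4⟩ := hR.dom h3
    have hm := mem_Pe o1 (M := 4 * 2 ^ (k + 1)) (by omega) d1 d2
    have hm' := mem_Pe o2 (M := 4 * 2 ^ (k + 1)) (by omega) d3 d4
    rw [← h4]
    exact ⟨h2, ⟨hm.1, hm.2⟩, ⟨hm'.1, hm'.2⟩⟩
  have hQm : ∀ (k : ℕ) κ, κ ∈ (hfin k).toFinset ↔ κ ∈ Q k := fun k κ => (hfin k).mem_toFinset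
  set U : ℕ × (ℝ × ℝ) × (ℝ × ℝ) → Set ℝ := fun κ =>
    {θ | Irrational θ ∧ κ.2.1.1 < θ ∧ θ < κ.2.1.2} with hU
  set V : ℕ × (ℝ × ℝ) × (ℝ × ℝ) → Set ℝ := fun κ =>
    {θ | Irrational θ ∧ two ∧ κ.2.2.1 < θ ∧ θ < κ.2.2.2} with hV
  -- data of a key
  have dat : ∀ κ, (∃ p : WS × WS, R κ.1 p.1 p.2 ∧ key κ.1 p.1 p.2 = κ) → ∃ D D' : Dat,
      D.Par ∧ D.Cir ∧ D'.Par ∧ D'.Cir ∧ 0 < D.tm ∧ D.tp < 1 ∧ 0 < D'.tm ∧ D'.tp < 1 ∧
      κ.2.1.1 = D.tm ∧ κ.2.1.2 = D.tp ∧ κ.2.2.1 = D'.tm ∧ κ.2.2.2 = D'.tp := by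
    rintro κ ⟨⟨W, W'⟩, h3, h4⟩
    obtain ⟨o1, o2, -⟩ := hR.ok h3
    obtain ⟨d1, d2, d3, d4⟩ := hR.dom h3
    refine ⟨Hf W, Hf W', par o1, cir o1, par o2, cir o2, d1, d2, d3, d4, ?_, ?_, ?_, ?_⟩ <;>
      rw [← h4] <;> rfl
  have hperiod : ∀ κ, (∃ p : WS × WS, R κ.1 p.1 p.2 ∧ key κ.1 p.1 p.2 = κ) → ∀ θ : ℝ,
      Irrational θ → θ ≠ κ.2.2.1 ∧ θ ≠ κ.2.2.2 := by
    rintro κ ⟨⟨W, W'⟩, h3, h4⟩ θ hθ
    obtain ⟨o1, o2, -⟩ := hR.ok h3
    obtain ⟨⟨a, ha⟩, b, hb⟩ := per o2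
    have hm0 : 0 < W'.m := by
      have h2 := (par o2).m_pos
      rwa [WS.dat_m o2 (by norm_num) (by norm_num)] at h2
    have h1 : (1 : ℝ) < 2 ^ (W'.m * 2) := one_lt_pow₀ (by norm_num) (by omega)
    have h1' : (2 : ℝ) ^ (W'.m * 2) - 1 ≠ 0 := by linarith
    have e1 : κ.2.2.1 = (Hf W').tm := by rw [← h4]; rfl
    have e2 : κ.2.2.2 = (Hf W').tp := by rw [← h4]; rfl
    constructor
    · intro he
      refine hθ ⟨(a : ℚ) / (2 ^ (W'.m * 2) - 1), ?_⟩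
      push_cast
      rw [he, e1, ← ha, mul_div_cancel_left₀ _ h1']
    · intro he
      refine hθ ⟨(b : ℚ) / (2 ^ (W'.m * 2) - 1), ?_⟩
      push_cast
      rw [he, e2, ← hb, mul_div_cancel_left₀ _ h1']
  have hsub := fun k => Shp.sub_abs (hfin k).toFinset U V
    (by
      intro i hi j hj
      obtain ⟨D, -, p1, p2, -, -, p3, p4, -, -, e1, e2, -⟩ := dat i ((hQm k i).1 hi).2.2
      obtain ⟨D', -, q1, q2, -, -, q3, q4, -, -, f1, f2, -⟩ := dat j ((hQm k j).1 hj).2.2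
      simp only [hU, e1, e2, f1, f2]
      rcases lam p1 p2 q1 q2 p3 p4 q3 q4 with h | h | h
      · exact Or.inl fun θ hθ => ⟨hθ.1, h θ hθ.2⟩
      · exact Or.inr (Or.inl fun θ hθ => ⟨hθ.1, h θ hθ.2⟩)
      · exact Or.inr (Or.inr (Set.disjoint_left.mpr fun θ h1 h2 => h θ h1.2 h2.2)))
    (by
      intro i hi j hj
      obtain ⟨D, -, p1, p2, -, -, p3, p4, -, -, e1, e2, -⟩ := dat i ((hQm k i).1 hi).2.2
      obtain ⟨-, D', -, -, q1, q2, -, -, q3, q4, -, -, f1, f2⟩ := dat j ((hQm k j).1 hj).2.2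
      by_cases h2 : two
      · simp only [hU, hV, e1, e2, f1, f2]
        rcases lam p1 p2 q1 q2 p3 p4 q3 q4 with h | h | h
        · exact Or.inl fun θ hθ => ⟨hθ.1, h2, h θ hθ.2⟩
        · exact Or.inr (Or.inl fun θ hθ => ⟨hθ.1, h θ hθ.2.2⟩)
        · exact Or.inr (Or.inr (Set.disjoint_left.mpr fun θ h1 h3 => h θ h1.2 h3.2.2))
      · exact Or.inr (Or.inl fun θ hθ => absurd hθ.2.1 h2))
    (by
      intro i hi j hj
      obtain ⟨-, D, -, -, p1, p2, -, -, p3, p4, -, -, e1, e2⟩ := dat i ((hQm k i).1 hi).2.2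
      obtain ⟨-, D', -, -, q1, q2, -, -, q3, q4, -, -, f1, f2⟩ := dat j ((hQm k j).1 hj).2.2
      by_cases h2 : two
      · simp only [hV, e1, e2, f1, f2]
        rcases lam p1 p2 q1 q2 p3 p4 q3 q4 with h | h | h
        · exact Or.inl fun θ hθ => ⟨hθ.1, h2, h θ hθ.2.2⟩
        · exact Or.inr (Or.inl fun θ hθ => ⟨hθ.1, h2, h θ hθ.2.2⟩)
        · exact Or.inr (Or.inr (Set.disjoint_left.mpr fun θ h1 h3 => h θ h1.2.2 h3.2.2))
      · exact Or.inl fun θ hθ => absurd hθ.2.1 h2)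
  choose F hFK hFc hFO using hsub
  have hF : ∀ {k κ}, κ ∈ F k → κ ∈ Q k := fun {k κ} h => (hQm k κ).1 (hFK k h)
  -- membership
  have hmem : ∀ κ, (∃ p : WS × WS, R κ.1 p.1 p.2 ∧ key κ.1 p.1 p.2 = κ) → ∀ θ : ℝ,
      Irrational θ → ∀ W W', key κ.1 W W' = κ → (θ ∈ AA two W W' ↔ θ ∈ U κ ∧ θ ∉ V κ) := by
    intro κ hκ θ hθ W W' hkey
    obtain ⟨n1, n2⟩ := hperiod κ hκ θ hθ
    rw [mem_AA_iff hkey]
    constructor
    · rintro ⟨h1, h2, h3⟩
      exact ⟨⟨hθ, h1, h2⟩, fun h => h3 h.2.1 ⟨h.2.2.1.le, h.2.2.2.le⟩⟩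
    · rintro ⟨⟨-, h1, h2⟩, h3⟩
      exact ⟨h1, h2, fun h4 h5 => h3 ⟨hθ, h4, lt_of_le_of_ne h5.1 n1.symm,
        lt_of_le_of_ne h5.2 n2⟩⟩
  refine ⟨{κ | ∃ k, κ ∈ F k}, fun κ ⟨k, hk⟩ => (hF hk).2.2, ?_, ?_⟩
  · refine summable_of_sum_le (c := C) (fun κ => by positivity) fun s => ?_
    have h1 := hC _ (s.map (Function.Embedding.subtype _)) (fun κ => κ.1)
      (fun κ => (rep R κ).1) (fun κ => (rep R κ).2) (fun κ hκ => ?_) ?_
    · refine le_trans (le_of_eq ?_) h1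
      rw [Finset.sum_map]
      rfl
    · obtain ⟨κ', -, rfl⟩ := Finset.mem_map.1 hκ
      obtain ⟨k, hk⟩ := κ'.2
      exact (rep_spec (hF hk).2.2).1
    · intro k θ hθ T hT hTA
      refine hFO k θ T (fun κ hκ => ?_) fun κ hκ => ?_
      · obtain ⟨κ', -, rfl⟩ := Finset.mem_map.1 (hT hκ)
        obtain ⟨j, hj⟩ := κ'.2
        obtain ⟨a1, a2, -⟩ := hTA _ hκ
        obtain ⟨b1, b2, -⟩ := hF hj
        have hjk : j = k := by
          have c1 : 2 ^ j < 2 ^ (k + 1) := b1.trans_lt a2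
          have c2 : 2 ^ k < 2 ^ (j + 1) := a1.trans_lt b2
          have c3 := (Nat.pow_lt_pow_iff_right (by norm_num : 1 < 2)).1 c1
          have c4 := (Nat.pow_lt_pow_iff_right (by norm_num : 1 < 2)).1 c2
          omega
        rw [← hjk]
        exact hj
      · obtain ⟨κ', -, rfl⟩ := Finset.mem_map.1 (hT hκ)
        obtain ⟨j, hj⟩ := κ'.2
        have hex := (hF hj).2.2
        exact (hmem _ hex θ hθ _ _ (rep_spec hex).2).1 (hTA _ hκ).2.2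
  · intro θ hθ hinf n₀
    obtain ⟨n, hn, W, W', hRn, hA⟩ := hinf (2 * n₀ + 1)
    have hn0 : n ≠ 0 := by omega
    set k := Nat.log 2 n with hk
    have h1 : 2 ^ k ≤ n := Nat.pow_log_le_self 2 hn0
    have h2 : n < 2 ^ (k + 1) := Nat.lt_pow_succ_log_self (by norm_num) n
    have hex : ∃ p : WS × WS, R (key n W W').1 p.1 p.2 ∧
        key (key n W W').1 p.1 p.2 = key n W W' := ⟨(W, W'), hRn, rfl⟩
    have hq : key n W W' ∈ Q k := ⟨h1, h2, hex⟩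
    obtain ⟨h3, h4⟩ := (hmem _ hex θ hθ W W' rfl).1 hA
    obtain ⟨κ, hκ, h5, h6⟩ := hFc k θ _ ((hQm k _).2 hq) h3 h4
    have hexκ := (hF hκ).2.2
    refine ⟨κ, ⟨k, hκ⟩, ?_, (hmem κ hexκ θ hθ _ _ (rep_spec hexκ).2).2 ⟨h5, h6⟩⟩
    have h7 := (hF hκ).1
    have h8 : n < 2 * 2 ^ k := by rw [pow_succ] at h2; omega
    omega

/-- **the null lemma** -/
theorem null {two : Prop} {R : ℕ → WS → WS → Prop} (hR : Rel two R) :
    Cap.Null {θ | Irrational θ ∧ ¬ Cap.Good Psi θ ∧ ∀ n₀ : ℕ, ∃ n, n₀ ≤ n ∧ ∃ W W' : WS,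
      R n W W' ∧ θ ∈ AA two W W'} := by
  classical
  obtain ⟨G, hG1, hG2, hG3⟩ := choose90 hR
  have hsp : ∀ κ : G, R κ.1.1 (rep R κ).1 (rep R κ).2 := fun κ => (rep_spec (hG1 κ κ.2)).1
  have hn : ∀ κ : G, 4000 ≤ κ.1.1 := fun κ => (hR.ok (hsp κ)).2.2.1
  have hcir : ∀ κ : G, (Hf (rep R κ).1).tm < (Hf (rep R κ).1).tp := fun κ =>
    (cir (hR.ok (hsp κ)).1).lt
  have hcir' : ∀ κ : G, (Hf (rep R κ).2).tm < (Hf (rep R κ).2).tp := fun κ =>
    (cir (hR.ok (hsp κ)).2.1).lt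
  refine null_of_logNull (Shp.logNull_of fun ε hε => ?_)
  obtain ⟨B, hB1, hB2⟩ := Cap.pure_tail (α := G)
    (d := fun κ => diam (Cap.PK (Hf (rep R κ).1) (Hf (rep R κ).2) two))
    (w := fun κ => 1 / (κ.1.1 : ℝ)) (fun κ => by positivity)
    (by simpa only [mul_one_div] using hG2) (ε := ENNReal.ofReal (ε / 62))
    (by rw [Ne, ENNReal.ofReal_eq_zero, not_le]; linarith)
  -- the intervals
  set a₁ : G → ℝ := fun κ => (Hf (rep R κ).1).tm with ha₁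
  set l₁ : G → ℝ := fun κ => if two then (Hf (rep R κ).2).tm - (Hf (rep R κ).1).tm else
    (Hf (rep R κ).1).tp - (Hf (rep R κ).1).tm with hl₁
  set a₂ : G → ℝ := fun κ => if two then (Hf (rep R κ).2).tp else (Hf (rep R κ).1).tm with ha₂
  set l₂ : G → ℝ := fun κ => if two then (Hf (rep R κ).1).tp - (Hf (rep R κ).2).tp else
    (Hf (rep R κ).1).tp - (Hf (rep R κ).1).tm with hl₂
  have hlen : ∀ κ : G, (0 < l₁ κ ∧ l₁ κ ≤ (1 / 2) ^ (κ.1.1 / 20)) ∧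
      (0 < l₂ κ ∧ l₂ κ ≤ (1 / 2) ^ (κ.1.1 / 20)) := by
    intro κ
    by_cases h2 : two
    · simp only [hl₁, hl₂, if_pos h2]
      have h3 := hR.nest (hsp κ) h2
      have h4 := hR.len2 (hsp κ) h2
      exact ⟨⟨by linarith [h3.1], h4.1⟩, ⟨by linarith [h3.2], h4.2⟩⟩
    · simp only [hl₁, hl₂, if_neg h2]
      have h4 := hR.len1 (hsp κ) h2
      exact ⟨⟨by linarith [hcir κ], h4⟩, ⟨by linarith [hcir κ], h4⟩⟩
  have : Countable G := by
    have hinj : G.Countable := by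
      have h1 : G ⊆ ⋃ M : ℕ, (univ : Set ℕ) ×ˢ ((Pe M ×ˢ Pe M) ×ˢ (Pe M ×ˢ Pe M)) := by
        intro κ hκ
        obtain ⟨⟨W, W'⟩, h3, h4⟩ := hG1 κ hκ
        obtain ⟨o1, o2, o3, o4, o5⟩ := hR.ok h3
        obtain ⟨d1, d2, d3, d4⟩ := hR.dom h3
        have hm := mem_Pe o1 o4 d1 d2
        have hm' := mem_Pe o2 o5 d3 d4
        refine mem_iUnion.2 ⟨2 * (4 * κ.1), mem_univ _, ?_⟩
        rw [← h4]
        exact ⟨⟨hm.1, hm.2⟩, ⟨hm'.1, hm'.2⟩⟩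
      refine (countable_iUnion fun M => ?_).mono h1
      have h2 := (finite_Pe M).countable
      exact (countable_univ).prod ((h2.prod h2).prod (h2.prod h2))
    exact hinj.to_subtype
  refine ⟨B ⊕ B, inferInstance, Sum.elim (fun κ => a₁ κ.1) (fun κ => a₂ κ.1),
    Sum.elim (fun κ => l₁ κ.1) (fun κ => l₂ κ.1), ?_, ?_, ?_⟩
  · rintro (κ | κ)
    · exact ⟨(hlen κ.1).1.1, (gauge_le (hn κ.1) (hlen κ.1).1.1 (hlen κ.1).1.2).1⟩
    · exact ⟨(hlen κ.1).2.1, (gauge_le (hn κ.1) (hlen κ.1).2.1 (hlen κ.1).2.2).1⟩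
  · rintro θ ⟨hθ, hng, hinf⟩
    by_contra hcon
    have key : ∀ κ : G, θ ∈ AA two (rep R κ).1 (rep R κ).2 → κ ∉ B := by
      rintro κ ⟨h1, h2, h3⟩ hκB
      by_cases h4 : two
      · by_cases h5 : (Hf (rep R κ).2).tm ≤ θ
        · have h6 : (Hf (rep R κ).2).tp < θ := by
            by_contra h6
            exact h3 h4 ⟨h5, not_lt.1 h6⟩
          refine hcon (mem_iUnion.2 ⟨Sum.inr ⟨κ, hκB⟩, ?_⟩)
          show a₂ κ ≤ θ ∧ θ ≤ a₂ κ + l₂ κ
          simp only [ha₂, hl₂, if_pos h4]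
          constructor <;> linarith
        · refine hcon (mem_iUnion.2 ⟨Sum.inl ⟨κ, hκB⟩, ?_⟩)
          show a₁ κ ≤ θ ∧ θ ≤ a₁ κ + l₁ κ
          simp only [ha₁, hl₁, if_pos h4]
          push Not at h5
          constructor <;> linarith
      · refine hcon (mem_iUnion.2 ⟨Sum.inl ⟨κ, hκB⟩, ?_⟩)
        show a₁ κ ≤ θ ∧ θ ≤ a₁ κ + l₁ κ
        simp only [ha₁, hl₁, if_neg h4]
        constructor <;> linarith
    have hsmall : ∀ δ : ℝ, 0 < δ → ∃ κ : G, θ ∈ AA two (rep R κ).1 (rep R κ).2 ∧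
        diam (Cap.PK (Hf (rep R κ).1) (Hf (rep R κ).2) two) < δ := by
      intro δ hδ
      by_contra hc
      push Not at hc
      obtain ⟨K, hK⟩ := ((hB2 δ hδ).image fun κ : G => κ.1.1).bddAbove
      obtain ⟨κ, hκ, h1, h2⟩ := hG3 θ hθ hinf (K + 1)
      have h3 : κ.1 ≤ K := hK ⟨⟨κ, hκ⟩, ⟨key ⟨κ, hκ⟩ h2, hc ⟨κ, hκ⟩ h2⟩, rfl⟩
      omega
    choose i hiA hid using hsmall
    refine hng (Cap.fin_pieces
      (fun n : ℕ => Hf (rep R (i (1 / ((n : ℝ) + 1)) (by positivity))).1)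
      (fun n => Hf (rep R (i (1 / ((n : ℝ) + 1)) (by positivity))).2)
      (fun _ => two) (fun n => ?_) (fun n => ?_) (fun n h2 k hk => ?_) fun δ hδ => ?_)
    · set κ := i (1 / ((n : ℝ) + 1)) (by positivity)
      obtain ⟨o1, o2, -⟩ := hR.ok (hsp κ)
      refine ⟨par o1, cir o1, fun _ => par o2, fun _ => cir o2, fun h2 => ?_⟩
      obtain ⟨h3, h4⟩ := hR.nest (hsp κ) h2
      exact Cap.nest_of_arc (par o1) (cir o1) (par o2) (cir o2) h3 h4
    · obtain ⟨h1, h2, -⟩ := hiA (1 / ((n : ℝ) + 1)) (by positivity)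
      exact ⟨0, by push_cast; linarith, by push_cast; linarith⟩
    · set κ := i (1 / ((n : ℝ) + 1)) (by positivity) with hκ
      obtain ⟨h3, h4, h5⟩ := hiA (1 / ((n : ℝ) + 1)) (by positivity)
      obtain ⟨d1, d2, d3, d4⟩ := hR.dom (hsp κ)
      have e1 : (k : ℝ) < 1 := by linarith [hk.2]
      have e2 : (-1 : ℝ) < k := by linarith [hk.1]
      have e3 : k < 1 := by exact_mod_cast e1
      have e4 : -1 < k := by exact_mod_cast e2
      have hk0 : k = 0 := by omega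
      rw [hk0] at hk
      refine h5 h2 ⟨?_, ?_⟩
      · have := hk.1; push_cast at this; linarith
      · have := hk.2; push_cast at this; linarith
    · obtain ⟨n, hn⟩ := exists_nat_one_div_lt hδ
      exact ⟨n, (hid _ (by positivity)).trans hn⟩
  · rw [ENNReal.summable.tsum_sum ENNReal.summable]
    have hb : ∀ l : G → ℝ, (∀ κ, 0 < l κ ∧ l κ ≤ (1 / 2) ^ (κ.1.1 / 20)) →
        ∑' κ : B, ENNReal.ofReal (1 / Real.log (1 / l κ.1)) < ENNReal.ofReal (ε / 2) := by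
      intro l hl
      have h1 : ∑' κ : B, ENNReal.ofReal (1 / Real.log (1 / l κ.1)) ≤
          ENNReal.ofReal 31 * ∑' κ : B, ENNReal.ofReal (1 / (κ.1.1.1 : ℝ)) := by
        rw [← ENNReal.tsum_mul_left]
        refine ENNReal.tsum_le_tsum fun κ => ?_
        rw [← ENNReal.ofReal_mul (by norm_num)]
        exact ENNReal.ofReal_le_ofReal (gauge_le (hn κ.1) (hl κ.1).1 (hl κ.1).2).2
      refine h1.trans_lt ?_
      have h3 : ENNReal.ofReal (ε / 2) = ENNReal.ofReal 31 * ENNReal.ofReal (ε / 62) := by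
        rw [← ENNReal.ofReal_mul (by norm_num)]
        congr 1; ring
      rw [h3]
      exact ENNReal.mul_lt_mul_right (by
        rw [Ne, ENNReal.ofReal_eq_zero, not_le]; norm_num) ENNReal.ofReal_ne_top hB1
    have h4 : ENNReal.ofReal ε = ENNReal.ofReal (ε / 2) + ENNReal.ofReal (ε / 2) := by
      rw [← ENNReal.ofReal_add (by linarith) (by linarith)]
      congr 1; ring
    rw [h4]
    exact ENNReal.add_lt_add (hb l₁ fun κ => (hlen κ).1) (hb l₂ fun κ => (hlen κ).2)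

end N90

open N90

/-- **U_null1** -/
theorem u_null1 (h : U_sum1) : U_null1 := by
  have hR : Rel False fun n W W' => 4000 ≤ n ∧ One n W ∧ 0 < (Hf W).tm ∧ (Hf W).tp < 1 ∧
      W' = W := by
    refine ⟨?_, ?_, fun _ h => h.elim, ?_, fun _ h => h.elim, ?_⟩
    · rintro n W W' ⟨h1, h2, h3, h4, rfl⟩
      exact ⟨h2.ok, h2.ok, h1, h2.le, h2.le⟩
    · rintro n W W' ⟨h1, h2, h3, h4, rfl⟩
      exact ⟨h3, h4, h3, h4⟩
    · rintro n W W' ⟨h1, h2, h3, h4, rfl⟩ -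
      exact h2.len
    · obtain ⟨C, hC⟩ := h
      refine ⟨C, fun ι F n W W' h1 h2 => ?_⟩
      have h3 := hC ι F n W (fun i hi => ⟨(h1 i hi).1, (h1 i hi).2.1, (h1 i hi).2.2.1,
        (h1 i hi).2.2.2.1⟩) (fun k θ hθ T hT hTA => h2 k θ hθ T hT fun i hi => ?_)
      · refine le_trans (le_of_eq (Finset.sum_congr rfl fun i hi => ?_)) h3
        have e : Cap.PK (Hf (W i)) (Hf (W' i)) False =
            insert (rt ((W i).dat (1 / 2))) (Lm ((W i).dat (1 / 2))) := by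
          ext z
          constructor
          · rintro ⟨-, hz | hz, -⟩
            · exact Or.inl hz
            · exact Or.inr hz
          · rintro (hz | hz)
            · exact ⟨by rw [hz]; exact rt_mem_MM (par (h1 i hi).2.1.ok), Or.inl hz,
                fun h => h.elim⟩
            · exact ⟨lm_subset hz, Or.inr hz, fun h => h.elim⟩
        rw [e]
      · obtain ⟨a1, a2, a3⟩ := hTA i hi
        exact ⟨a1, a2, a3.1, a3.2, fun h => h.elim⟩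
  intro ε hε
  obtain ⟨a, l, h1, h2, h3, h4⟩ := null hR ε hε
  refine ⟨a, l, h1, Set.Subset.trans ?_ h2, h3, h4⟩
  rintro θ ⟨hθ, hg, hinf⟩
  refine ⟨hθ, hg, fun n₀ => ?_⟩
  obtain ⟨n, hn, W, hW, h0, h1, hA⟩ := hinf (max n₀ 4000)
  exact ⟨n, (le_max_left _ _).trans hn, W, W, ⟨(le_max_right _ _).trans hn, hW, h0, h1, rfl⟩,
    hA.1, hA.2, fun h => h.elim⟩

/-- **U_null2** -/
theorem u_null2 (h : U_sum2) : U_null2 := by
  have hR : Rel True fun n W W' => 4000 ≤ n ∧ Two n W W' ∧ 0 < (Hf W).tm ∧ (Hf W).tp < 1 := by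
    refine ⟨?_, ?_, ?_, fun _ h => absurd trivial h, ?_, ?_⟩
    · rintro n W W' ⟨h1, h2, h3, h4⟩
      exact ⟨h2.ok, h2.ok', h1, h2.le, h2.le'.le.trans h2.le⟩
    · rintro n W W' ⟨h1, h2, h3, h4⟩
      have h5 := h2.left
      have h6 := h2.right
      exact ⟨h3, h4, by linarith, by linarith⟩
    · rintro n W W' ⟨h1, h2, h3, h4⟩ -
      exact ⟨h2.left, h2.right⟩
    · rintro n W W' ⟨h1, h2, h3, h4⟩ -
      exact ⟨h2.len, h2.len'⟩
    · obtain ⟨C, hC⟩ := h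
      refine ⟨C, fun ι F n W W' h1 h2 => ?_⟩
      have h3 := hC ι F n W W' (fun i hi => ⟨(h1 i hi).1, (h1 i hi).2.1, (h1 i hi).2.2.1,
        (h1 i hi).2.2.2⟩) (fun k θ hθ T hT hTA => h2 k θ hθ T hT fun i hi => ?_)
      · refine le_trans (le_of_eq (Finset.sum_congr rfl fun i hi => ?_)) h3
        have e : Cap.PK (Hf (W i)) (Hf (W' i)) True =
            Cap.KP ((W i).dat (1 / 2)) ((W' i).dat (1 / 2)) := by
          ext z
          constructor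
          · rintro ⟨-, hz | hz, hz2⟩
            · exact ⟨Or.inl hz, hz2 trivial⟩
            · exact ⟨Or.inr hz, hz2 trivial⟩
          · rintro ⟨hz | hz, hz2⟩
            · exact ⟨by rw [hz]; exact rt_mem_MM (par (h1 i hi).2.1.ok), Or.inl hz,
                fun _ => hz2⟩
            · exact ⟨lm_subset hz, Or.inr hz, fun _ => hz2⟩
        rw [e]
      · obtain ⟨a1, a2, a3⟩ := hTA i hi
        exact ⟨a1, a2, a3.1.1, a3.1.2, fun _ => a3.2⟩
  intro ε hε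
  obtain ⟨a, l, h1, h2, h3, h4⟩ := null hR ε hε
  refine ⟨a, l, h1, Set.Subset.trans ?_ h2, h3, h4⟩
  rintro θ ⟨hθ, hg, hinf⟩
  refine ⟨hθ, hg, fun n₀ => ?_⟩
  obtain ⟨n, hn, W, W', hW, h0, h1, hA⟩ := hinf (max n₀ 4000)
  exact ⟨n, (le_max_left _ _).trans hn, W, W', ⟨(le_max_right _ _).trans hn, hW, h0, h1⟩,
    hA.1.1, hA.1.2, fun _ => hA.2⟩

end Pool.Agent.Work.MLC.Uni
end

section
set_option autoImplicit false

/-! # Theorem U, module U1: every periodic angle is an end of a wake (helper78) -/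

namespace Pool.Agent.Work.MLC.Uni

open Filter Topology Metric Set
open Pool.Agent.Work.MLC.Circ Pool.Agent.Work.MLC.Cnt CircleDeg1Lift
open Pool.Agent.Work.MLC.Shp (Wake SameSide cast_lt_of cast_le_of nu_one_sub wake_of_ca)

/-- the pair does not contain the angle `1` -/
lemma le_one_of_side {s t : ℝ} (h0 : 0 ≤ s) (h1 : s < 1) (hst : s < t) (hlt : t < s + 1)
    (h : ∀ θ, s < θ → θ < t → ∀ i : ℕ, SameSide θ (2 ^ i * s) (2 ^ i * t)) : t ≤ 1 := by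
  by_contra hcon
  push Not at hcon
  have hside := h 1 h1 hcon
  choose w j k hjk using hside
  -- the differences of the indices double
  have hstep : ∀ i, k (i + 1) - j (i + 1) = 2 * (k i - j i) := by
    intro i
    obtain ⟨a1, a2, a3, a4⟩ := hjk i
    obtain ⟨b1, b2, b3, b4⟩ := hjk (i + 1)
    have es : (2 : ℝ) ^ (i + 1) * s = 2 * (2 ^ i * s) := by rw [pow_succ]; ring
    have et : (2 : ℝ) ^ (i + 1) * t = 2 * (2 ^ i * t) := by rw [pow_succ]; ring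
    rw [es] at b1 b2
    rw [et] at b3 b4
    have f1 : ((1 + w (i + 1) + 2 * j (i + 1) : ℤ) : ℝ) < ((2 * (1 + w i + 2 * j i + 1) : ℤ) : ℝ) := by
      push_cast; linarith
    have f2 : ((2 * (1 + w i + 2 * j i) : ℤ) : ℝ) < ((1 + w (i + 1) + 2 * j (i + 1) + 1 : ℤ) : ℝ) := by
      push_cast; linarith
    have f3 : ((1 + w (i + 1) + 2 * k (i + 1) : ℤ) : ℝ) < ((2 * (1 + w i + 2 * k i + 1) : ℤ) : ℝ) := by
      push_cast; linarith
    have f4 : ((2 * (1 + w i + 2 * k i) : ℤ) : ℝ) < ((1 + w (i + 1) + 2 * k (i + 1) + 1 : ℤ) : ℝ) := by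
      push_cast; linarith
    have := cast_lt_of f1
    have := cast_lt_of f2
    have := cast_lt_of f3
    have := cast_lt_of f4
    omega
  have hD : ∀ i, k i - j i = 2 ^ i * (k 0 - j 0) := by
    intro i
    induction i with
    | zero => simp
    | succ i ih => rw [hstep, ih]; ring
  have hclose : ∀ i : ℕ, |(t - s) - ((k 0 - j 0 : ℤ) : ℝ)| * 2 ^ i < 1 := by
    intro i
    obtain ⟨a1, a2, a3, a4⟩ := hjk i
    have hp : (0 : ℝ) < 2 ^ i := by positivity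
    have h2 : ((k i - j i : ℤ) : ℝ) = 2 ^ i * ((k 0 - j 0 : ℤ) : ℝ) := by
      rw [hD i]; push_cast; ring
    rw [← abs_of_pos hp, ← abs_mul, abs_lt]
    push_cast at h2 ⊢
    constructor <;> nlinarith
  have hz : t - s = ((k 0 - j 0 : ℤ) : ℝ) := by
    by_contra hne
    have hpos : 0 < |(t - s) - ((k 0 - j 0 : ℤ) : ℝ)| := abs_pos.2 (sub_ne_zero.2 hne)
    obtain ⟨i, hi⟩ := pow_unbounded_of_one_lt (1 / |(t - s) - ((k 0 - j 0 : ℤ) : ℝ)|)
      (by norm_num : (1 : ℝ) < 2)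
    rw [div_lt_iff₀ hpos] at hi
    have := hclose i
    linarith
  have f1 : ((0 : ℤ) : ℝ) < ((k 0 - j 0 : ℤ) : ℝ) := by rw [← hz]; push_cast; linarith
  have f2 : ((k 0 - j 0 : ℤ) : ℝ) < ((1 : ℤ) : ℝ) := by rw [← hz]; push_cast; linarith
  have := cast_lt_of f1
  have := cast_lt_of f2
  omega

/-- a characteristic pair is a wake -/
theorem wake_of_cp {n : ℕ} {v : ℕ → ℤ} {s t : ℝ} (h : CP n v s t) (h0 : 0 ≤ s) (h1 : s < 1) :
    Wake n s t := by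
  have hside : ∀ θ, s < θ → θ < t → ∀ i : ℕ, SameSide θ (2 ^ i * s) (2 ^ i * t) := by
    intro θ h2 h3 i
    obtain ⟨k, k1, k2⟩ := h.compat_s h2 h3 i
    obtain ⟨l, l1, l2⟩ := h.compat_t h2 h3 i
    exact ⟨v i, k, l, k1, k2, l1, l2⟩
  exact
    { pos := by have := h.two; omega
      nonneg := h0
      lt := h.lt
      le_one := le_one_of_side h0 h1 h.lt (by linarith [h.short]) hside
      per := by
        obtain ⟨a, ha⟩ := h.per_s
        exact ⟨a, by linarith⟩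
      per' := by
        obtain ⟨a, ha⟩ := h.per_t
        exact ⟨a, by linarith⟩
      exact := by
        rintro d hd hdn ⟨a, ha⟩
        refine h.sep_s d (-a) hd hdn ⟨?_, ?_⟩
        · push_cast; linarith
        · push_cast; linarith [h.lt]
      exact' := by
        rintro d hd hdn ⟨a, ha⟩
        refine h.sep_t d (-a) hd hdn ⟨?_, ?_⟩
        · push_cast; linarith [h.lt]
        · push_cast; linarith
      side := hside }

/-- a left end is the left end of a wake -/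
theorem wake_of_left {n : ℕ} (hn : 2 ≤ n) {t : ℝ} (h0 : 0 < t) (h1 : t < 1) {w : ℕ → ℤ} {k : ℤ}
    (hw : Word n w) (hnu : nu w n t = k) (hgt : ∀ θ, t < θ → (k : ℝ) < nu w n θ) :
    ∃ β, Wake n t β := by
  obtain ⟨i₀, -, h⟩ := exists_LE (by omega : 0 < n) hw hnu hgt
  set w' : ℕ → ℤ := fun j => w (i₀ + j) with hw'
  rcases h.cases with hex | ⟨d, Q, t', hdQ, hCA⟩
  · obtain ⟨M, hM⟩ : ∃ M : ℤ, gw (flw n w') t n t = t + M := by
      obtain ⟨m, hm⟩ := gw_lin (flw n w') t t n fun i _ => by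
        obtain ⟨m, h1, h2⟩ := h.closed i
        exact ⟨m, h1.le, h2⟩
      obtain ⟨a, ha⟩ := h.per
      exact ⟨a - m, by rw [hm]; push_cast; linarith⟩
    obtain ⟨t', hCP⟩ := exists_CP h hn hex hM (nb n w' t k M h hn hex hM)
    exact ⟨t', wake_of_cp hCP h0.le h1⟩
  · have hside : ∀ θ, t < θ → θ < t' → ∀ i : ℕ, SameSide θ (2 ^ i * t) (2 ^ i * t') := by
      intro θ h2 h3 i
      obtain ⟨k, k1, k2⟩ := hCA.compat θ h2 h3 i
      obtain ⟨l, l1, l2⟩ := hCA.compat_t h2 h3 i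
      exact ⟨flw n w' i, k, l, k1, k2, l1, l2⟩
    have hle := le_one_of_side h0.le h1 hCA.lt hCA.lt' hside
    have := wake_of_ca hCA h0.le hle
    rw [hdQ] at this
    exact ⟨t', this⟩

/-- **Module U1**: every periodic angle is an end of a wake -/
theorem u_ends : U_ends := by
  intro m τ hm h0 h1 hper hex
  obtain ⟨a, ha⟩ := hper
  have ha' : (2 : ℝ) ^ m * τ - τ = a := by linarith
  have hex' : ∀ d, 0 < d → d < m → ¬ ∃ b : ℤ, (2 : ℝ) ^ d * τ - τ = b := by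
    rintro d hd hdm ⟨b, hb⟩
    exact hex d hd hdm ⟨b, by linarith⟩
  rcases gs_end hm ha' hex' with ⟨w, k, hw, hnu, hgt⟩ | ⟨w, k, hw, hnu, hgt⟩
  · obtain ⟨β, hβ⟩ := wake_of_left hm h0 h1 hw hnu hgt
    exact ⟨τ, β, hβ, Or.inl rfl⟩
  · -- the reflection
    set v : ℕ → ℤ := fun i => 1 - w i with hv
    have hvw : (fun i => 1 - v i) = w := by funext i; rw [hv]; ring
    have hW : Word m v := by
      refine ⟨fun i => ?_, fun i => ?_, fun d hd hdm => ?_⟩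
      · have := hw.1 i
        show 1 - w i = 0 ∨ 1 - w i = 1
        omega
      · show 1 - w (i + m) = 1 - w i
        rw [hw.2.1]
      · obtain ⟨i, hi⟩ := hw.2.2 d hd hdm
        exact ⟨i, fun h => hi (by have h' : 1 - w (i + d) = 1 - w i := h; omega)⟩
    set c : ℤ := m + ∑ i ∈ Finset.range m, v i with hc
    have hnu' : ∀ x, nu v m (1 + x) = ((c - m : ℤ) : ℝ) + nu w m x := by
      intro x
      have e1 := nu_one_sub v m (-x)
      have e2 := gs_nu_refl v (-x) m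
      rw [neg_neg, hvw] at e2
      have e3 : (1 : ℝ) + x = 1 - -x := by ring
      rw [e3, e1, ← hc]
      push_cast
      linarith
    have hL : nu v m (1 - τ) = ((c - m + k : ℤ) : ℝ) := by
      have := hnu' (-τ)
      rw [hnu] at this
      rw [show (1 : ℝ) - τ = 1 + -τ by ring, this]
      push_cast; ring
    have hG : ∀ θ, 1 - τ < θ → ((c - m + k : ℤ) : ℝ) < nu v m θ := by
      intro θ hθ
      have h3 := hnu' (θ - 1)
      rw [show 1 + (θ - 1) = θ by ring] at h3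
      have h4 := hgt (θ - 1) (by linarith)
      rw [h3]
      push_cast
      linarith
    obtain ⟨β, hβ⟩ := wake_of_left hm (t := 1 - τ) (by linarith) (by linarith) hW hL hG
    have h5 := hβ.refl
    rw [show 1 - (1 - τ) = τ by ring] at h5
    exact ⟨1 - β, τ, h5, Or.inr rfl⟩

end Pool.Agent.Work.MLC.Uni
end

section
set_option autoImplicit false

/-! # Theorem U, module HS: the areas `HK` of different components (helper53) -/

namespace Pool.Agent.Work.MLC.Uni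

open Filter Topology Metric Set Complex MeasureTheory
open Pool.Agent.Work.MLC.Sat Pool.Agent.Work.MLC.Cnt
open scoped ENNReal

/-- the rectangle of `HK` -/
def RK (m : ℕ) : Set ℂ := {L | -1 / (10 ^ 6 * (m : ℝ)) < L.re ∧ L.re < 0 ∧
    2 * Real.pi / 200 < L.im ∧ L.im < 2 * Real.pi * (1 - 1 / 200)}

lemma RK_strip {m : ℕ} {L : ℂ} (h : L ∈ RK m) : 0 < L.im ∧ L.im < 2 * Real.pi ∧ L.re < 0 := by
  obtain ⟨_, h2, h3, h4⟩ := h
  have hpi := Real.pi_gt_three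
  refine ⟨?_, ?_, h2⟩
  · have : (0 : ℝ) < 2 * Real.pi / 200 := by positivity
    linarith
  · nlinarith

lemma RK_D0 (W : WS) : RK W.m ⊆ Pri.D0 W.m := fun L hL => by
  obtain ⟨h0, h1, h2⟩ := RK_strip hL
  exact ⟨h0, h1, h2.trans_le (by unfold Pri.hgt; positivity)⟩

lemma isOpen_RK (m : ℕ) : IsOpen (RK m) := by
  have h1 : IsOpen {L : ℂ | -1 / (10 ^ 6 * (m : ℝ)) < L.re} := isOpen_lt continuous_const continuous_re
  have h2 : IsOpen {L : ℂ | L.re < 0} := isOpen_lt continuous_re continuous_const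
  have h3 : IsOpen {L : ℂ | 2 * Real.pi / 200 < L.im} := isOpen_lt continuous_const continuous_im
  have h4 : IsOpen {L : ℂ | L.im < 2 * Real.pi * (1 - 1 / 200)} := isOpen_lt continuous_im continuous_const
  exact h1.inter (h2.inter (h3.inter h4))

lemma meas_HK {W : WS} (hW : W.Ok) : MeasurableSet (HK W) := by
  have hc : ContinuousOn W.c (RK W.m) :=
    (continuous_fst.comp_continuousOn hW.wide.cont).mono (RK_D0 W)
  refine (isOpen_RK W.m).measurableSet.image_of_continuousOn_injOn hc ?_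
  intro L hL L' hL' h
  obtain ⟨s1, s2, s3⟩ := RK_strip hL
  obtain ⟨t1, t2, t3⟩ := RK_strip hL'
  exact (Cap.same78 hW hW s1 s2 s3 t1 t2 t3 h).2

lemma bdd_HK {W : WS} (hW : W.Ok) : HK W ⊆ ball 0 5 := by
  rintro _ ⟨L, hL, rfl⟩
  have hD := RK_D0 W hL
  obtain ⟨a1, a2⟩ := hW.wide.sec L hD
  have h1 := (Per_bdd hW.wide.pos a1 (by rw [a2]; exact Pri.lt_D0 hW.wide.pos hD)).1
  rw [mem_ball, dist_zero_right]
  show ‖(W.σ L).1‖ < 5
  linarith

/-- **HS** -/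
theorem u_area : U_area := by
  refine ⟨(volume (ball (0 : ℂ) 5)).toReal, ?_⟩
  intro ι F W hF hS
  rw [ENNReal.ofReal_toReal measure_ball_lt_top.ne]
  rw [← measure_biUnion_finset ?_ (fun i hi => meas_HK (hF i hi))]
  · refine measure_mono ?_
    intro c hc
    simp only [mem_iUnion] at hc
    obtain ⟨i, hi, hc⟩ := hc
    exact bdd_HK (hF i hi) hc
  · intro i hi j hj hij
    rw [Function.onFun, Set.disjoint_left]
    rintro c ⟨L, hL, hLc⟩ ⟨L', hL', hLc'⟩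
    obtain ⟨s1, s2, s3⟩ := RK_strip hL
    obtain ⟨t1, t2, t3⟩ := RK_strip hL'
    exact hij (hS i hi j hj
      (Cap.same78 (hF i hi) (hF j hj) s1 s2 s3 t1 t2 t3 (hLc.trans hLc'.symm)).1)

end Pool.Agent.Work.MLC.Uni
end

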