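import Pool.Agent.Work.MLCM.C54
import Pool.Agent.Work.MLCM.C65
import Pool.Agent.Work.MLCM.C66
import Pool.Agent.Work.MLCM.C69
import Pool.Agent.Work.MLCM.C81
import Pool.Agent.Work.MLCM.C82

section
set_option autoImplicit false

/-! # Theorem U, module U_irr: irrational rotation numbers (helper60) -/

namespace Pool.Agent.Work.MLC.Uni

open Filter Topology Metric Set Complex MeasureTheory
open Pool.Agent.Work.MLC.Sat Pool.Agent.Work.MLC.Cnt

namespace I60

variable {W : WS}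

lemma rt_eq (hW : W.Ok) {y : ℚ} (h0 : 0 < y) (h1 : y < 1) :
    rt (W.dat y) = W.c (2 * Real.pi * ((y : ℝ) : ℂ) * I) := by
  rw [rt, WS.dat_c hW h0 h1, WS.dat_a hW h0 h1, axisPt_eq]

/-- **the size of a limb** -/
lemma limb_dist (hW : W.Ok) {y : ℚ} (h0 : 0 < y) (h1 : y < 1) {z : ℂ} (hz : z ∈ Lm (W.dat y)) :
    dist z (rt (W.dat y)) ≤ 2 * 10 ^ 27 * ((W.m : ℝ) ^ 12 / y.den) := by
  set D := W.dat y with hD
  have hP : D.Par := WS.dat_par hW h0 h1
  have hC : D.Cir := WS.dat_cir hW h0 h1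
  have hDm : D.m = W.m := WS.dat_m hW h0 h1
  have hDx : D.x = y := WS.dat_x hW h0 h1
  have haB := CH.a_mem hP
  have h3 := hP.sec D.a haB
  have h4 : mul D.m (rt D, D.b D.a) = Complex.exp (axisPt D.x) := h3.2
  have h5 : it (rt D) D.m (D.b D.a) = D.b D.a := h3.1
  have hnum : 0 < y.num := Rat.num_pos.2 h0
  have hlt : y.num < y.den := Rat.num_lt_denom_iff.2 h1
  have hnn : ((y.num.toNat : ℕ) : ℤ) = y.num := Int.toNat_of_nonneg hnum.le
  have hcop : Nat.Coprime y.num.toNat y.den := by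
    have h7 := y.reduced
    have h8 : y.num.natAbs = y.num.toNat := by omega
    rwa [h8] at h7
  have hx : y = ((y.num.toNat : ℕ) : ℚ) / (y.den : ℚ) := by
    have h9 : ((y.num.toNat : ℕ) : ℚ) = (y.num : ℚ) := by
      have : (((y.num.toNat : ℕ) : ℤ) : ℚ) = (y.num : ℚ) := by rw [hnn]
      exact_mod_cast this
    rw [h9, Rat.num_div_den]
  rw [hDx, hDm] at h4
  rw [hDm] at h5
  have h6 := (res31_limbBound W.m y.num.toNat y.den (rt D) (D.b D.a) hW.wide.pos (by omega)
    (by omega) hcop h5 (by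
      rw [← axis_pq hx, ← h4]
      exact (Pool.Agent.Work.MLC.hasDerivAt_it (rt D) W.m (D.b D.a)).deriv)).1 z ?_
  · exact h6.2
  · have h7 : z ∈ Sep (rt D) := by rw [n6_sep D hP hC]; exact hz
    exact ⟨h7.1, h7.2.2⟩

/-- a point with a multiplier of modulus at most one is in `MM` -/
lemma c_mem_MM (hW : W.Ok) {L : ℂ} (hL : L ∈ Pri.D0 W.m) (hre : L.re ≤ 0) : W.c L ∈ MM := by
  by_contra hM
  have h2 := hW.wide.sec L hL
  have h3 : 1 < ‖mult W.m (W.σ L).1 (W.σ L).2‖ :=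
    one_lt_norm_mult_of_ext hW.wide.pos (not_mem_MM_iff.1 hM) h2.1
  have h4 : mult W.m (W.σ L).1 (W.σ L).2 = exp L := h2.2
  rw [h4, Complex.norm_exp, Real.one_lt_exp_iff] at h3
  linarith

lemma c_contAt (hW : W.Ok) {L : ℂ} (hL : L ∈ Pri.D0 W.m) : ContinuousAt W.c L :=
  continuous_fst.continuousAt.comp (hW.wide.cont.continuousAt ((Pri.isOpen_D0 _).mem_nhds hL))

lemma c_map (hW : W.Ok) {L : ℂ} (hL : L ∈ Pri.D0 W.m) : Filter.map W.c (𝓝 L) = 𝓝 (W.c L) :=
  (section_strict (Pri.goodDom_D0 hW.wide.pos) hW.wide.cont hW.wide.sec hL).map_nhds_eq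
    (section_deriv_ne_zero (Pri.goodDom_D0 hW.wide.pos) hW.wide.cont hW.wide.sec hL)

/-- the chart is injective near every point -/
lemma c_inj (hW : W.Ok) {L : ℂ} (hL : L ∈ Pri.D0 W.m) : ∃ r : ℝ, 0 < r ∧
    ball L r ⊆ Pri.D0 W.m ∧ InjOn W.c (ball L r) := by
  have h1 := section_strict (Pri.goodDom_D0 hW.wide.pos) hW.wide.cont hW.wide.sec hL
  have h2 := section_deriv_ne_zero (Pri.goodDom_D0 hW.wide.pos) hW.wide.cont hW.wide.sec hL
  have hs := h1.hasStrictFDerivAt_equiv h2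
  have hS : (hs.toOpenPartialHomeomorph _).source ∈ 𝓝 L :=
    (hs.toOpenPartialHomeomorph _).open_source.mem_nhds hs.mem_toOpenPartialHomeomorph_source
  have hinj : InjOn W.c (hs.toOpenPartialHomeomorph _).source := by
    have := (hs.toOpenPartialHomeomorph _).injOn
    rwa [HasStrictFDerivAt.toOpenPartialHomeomorph_coe] at this
  obtain ⟨r, hr, hsub⟩ := Metric.mem_nhds_iff.1 (inter_mem hS ((Pri.isOpen_D0 W.m).mem_nhds hL))
  exact ⟨r, hr, hsub.trans inter_subset_right, hinj.mono (hsub.trans inter_subset_left)⟩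

/-- the limbs and the axis near an irrational point of the axis -/
lemma small (hW : W.Ok) {ν : ℝ} (h0 : 0 < ν) (h1 : ν < 1) (hν : Irrational ν) {ε : ℝ}
    (hε : 0 < ε) : ∃ δ : ℝ, 0 < δ ∧
      (∀ y : ℝ, |y - ν| < δ → dist (W.c (2 * Real.pi * y * I)) (W.c (2 * Real.pi * ν * I)) < ε) ∧
      ∀ y : ℚ, 0 < y → y < 1 → |(y : ℝ) - ν| < δ → ∀ z ∈ Lm (W.dat y),
        dist z (W.c (2 * Real.pi * ν * I)) < ε := by
  have hL := T60.axis_mem_D0 hW.wide.pos h0 h1
  have hc : ContinuousAt (fun y : ℝ => W.c (2 * Real.pi * y * I)) ν := by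
    have h2 : ContinuousAt (fun y : ℝ => (2 * Real.pi * y * I : ℂ)) ν := by
      have : Continuous fun y : ℝ => (2 * Real.pi * y * I : ℂ) := by fun_prop
      exact this.continuousAt
    exact ContinuousAt.comp (f := fun y : ℝ => (2 * Real.pi * y * I : ℂ)) (c_contAt hW hL) h2
  obtain ⟨δ₁, hδ₁, h2⟩ := Metric.continuousAt_iff.1 hc (ε / 2) (by positivity)
  obtain ⟨N, hN⟩ := exists_nat_gt (2 * 10 ^ 27 * (W.m : ℝ) ^ 12 / (ε / 2))
  have h3 := hν.eventually_forall_le_dist_cast_rat_of_den_le N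
  obtain ⟨δ₂, h4, h5⟩ := ((h3.filter_mono (nhdsWithin_le_nhds (s := Ioi 0))).and
    self_mem_nhdsWithin).exists
  have hδ₂ : 0 < δ₂ := h5
  refine ⟨min δ₁ δ₂, lt_min hδ₁ hδ₂, ?_, ?_⟩
  · intro y hy
    have := h2 (x := y) (by rw [Real.dist_eq]; exact hy.trans_le (min_le_left _ _))
    linarith
  · intro y hy0 hy1 hy z hz
    have h6 := h2 (x := (y : ℝ)) (by rw [Real.dist_eq]; exact hy.trans_le (min_le_left _ _))
    have h7 := limb_dist hW hy0 hy1 hz
    rw [rt_eq hW hy0 hy1] at h7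
    have h8 : N < y.den := by
      by_contra hcon
      push Not at hcon
      have h9 := h4 y hcon
      rw [Real.dist_eq, abs_sub_comm] at h9
      exact absurd (hy.trans_le (min_le_right _ _)) (not_lt.2 h9)
    have hd : (0 : ℝ) < y.den := by exact_mod_cast y.pos
    have h9 : 2 * 10 ^ 27 * ((W.m : ℝ) ^ 12 / y.den) < ε / 2 := by
      have h10 : 2 * 10 ^ 27 * (W.m : ℝ) ^ 12 / (ε / 2) < y.den := by
        have : (N : ℝ) < y.den := by exact_mod_cast h8
        linarith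
      rw [div_lt_iff₀ (by positivity)] at h10
      rw [← mul_div_assoc, div_lt_iff₀ hd]
      linarith
    calc dist z (W.c (2 * Real.pi * ν * I)) ≤ dist z (W.c (2 * Real.pi * ((y : ℝ) : ℂ) * I)) +
          dist (W.c (2 * Real.pi * ((y : ℝ) : ℂ) * I)) (W.c (2 * Real.pi * ν * I)) :=
            dist_triangle _ _ _
      _ < ε := by linarith

/-- rationals on both sides -/
lemma rats {ν δ : ℝ} (h0 : 0 < ν) (h1 : ν < 1) (hδ : 0 < δ) : ∃ x₁ x₂ : ℚ, 0 < x₁ ∧ x₂ < 1 ∧
    (x₁ : ℝ) < ν ∧ ν < x₂ ∧ x₁ < x₂ ∧ ν - δ < x₁ ∧ (x₂ : ℝ) < ν + δ := by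
  obtain ⟨x₁, h2, h3⟩ := exists_rat_btwn (show max 0 (ν - δ) < ν from max_lt h0 (by linarith))
  obtain ⟨x₂, h4, h5⟩ := exists_rat_btwn (show ν < min 1 (ν + δ) from lt_min h1 (by linarith))
  refine ⟨x₁, x₂, ?_, ?_, h3, h4, ?_, (le_max_right _ _).trans_lt h2, h5.trans_le (min_le_right _ _)⟩
  · have : (0 : ℝ) < x₁ := (le_max_left _ _).trans_lt h2
    exact_mod_cast this
  · have : (x₂ : ℝ) < 1 := h5.trans_le (min_le_left _ _)
    exact_mod_cast this
  · have : (x₁ : ℝ) < x₂ := h3.trans h4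
    exact_mod_cast this

/-- the angle is between the plateaus -/
lemma between (hW : W.Ok) {θ : ℝ} {x₁ x₂ : ℚ} (h0 : 0 < x₁) (h1 : x₂ < 1) (h12 : x₁ < x₂)
    (h2 : (x₁ : ℝ) < W.nu θ) (h3 : W.nu θ < x₂) : (W.dat x₁).tm < θ ∧ θ < (W.dat x₂).tp := by
  have hx1 : x₁ < 1 := h12.trans h1
  have hx2 : 0 < x₂ := h0.trans h12
  have a1 := (WS.plateau hW h0 hx1 (W.dat x₁).tm).2 ⟨le_rfl, (WS.dat_cir hW h0 hx1).lt.le⟩
  have a2 := (WS.plateau hW hx2 h1 (W.dat x₂).tp).2 ⟨(WS.dat_cir hW hx2 h1).lt.le, le_rfl⟩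
  constructor
  · by_contra hcon
    push Not at hcon
    have := WS.nu_mono W hcon
    linarith
  · by_contra hcon
    push Not at hcon
    have := WS.nu_mono W hcon
    linarith

/-- **the ends of the rays are away from the other points** -/
lemma ray_away (hW : W.Ok) {y : ℚ} (h0 : 0 < y) (h1 : y < 1) {c₀ : ℂ} (hM : c₀ ∈ MM)
    (hc : c₀ ≠ rt (W.dat y)) {t : ℝ} (ht : t = (W.dat y).tm ∨ t = (W.dat y).tp) :
    ∀ᶠ c in 𝓝 c₀, ∀ u : ℝ, 0 < u → c ≠ cOf ((u : ℂ) + 2 * Real.pi * t * I) := by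
  set D := W.dat y with hD
  have hP : D.Par := WS.dat_par hW h0 h1
  have hC : D.Cir := WS.dat_cir hW h0 h1
  have hd : 0 < dist (rt D) c₀ := dist_pos.2 hc.symm
  set η : ℝ := dist (rt D) c₀ / 2 with hη
  have hη0 : 0 < η := by rw [hη]; linarith
  have hmD : D.a ∈ Pri.D0 W.m := by
    rw [WS.dat_a hW h0 h1, axisPt_eq]
    exact T60.axis_mem_D0 hW.wide.pos (by exact_mod_cast h0) (by exact_mod_cast h1)
  have hca : ContinuousAt W.c D.a := c_contAt hW hmD
  obtain ⟨s₀, hs₀, hs⟩ := Metric.continuousAt_iff.1 hca η hη0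
  set s : ℝ := min (s₀ / 2) (sG D) with hs'
  have hs0 : 0 < s := lt_min (by linarith) (CH.sG_pos hP)
  have hsub : D.c '' closedBall D.a s ⊆ ball (rt D) η := by
    rintro _ ⟨L, hL, rfl⟩
    have h3 : dist L D.a < s₀ := by
      have h4 : dist L D.a ≤ s := hL
      have h5 : s ≤ s₀ / 2 := min_le_left _ _
      linarith
    have h4 := hs h3
    show dist (D.c L) (rt D) < η
    rw [rt, WS.dat_c hW h0 h1, WS.dat_c hW h0 h1]
    exact h4
  -- the potential below which the ray is in the gate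
  set g₀ : ℝ := Real.exp (-(130000 * (D.m : ℝ) ^ 3 * D.x.den / s ^ 4)) with hg₀
  have hg₀0 : 0 < g₀ := Real.exp_pos _
  have hray : ∀ g : ℝ, 0 < g → g ≤ g₀ → cOf ((g : ℂ) + 2 * Real.pi * t * I) ∈ ball (rt D) η := by
    intro g hg hgg
    have h3 : 130000 * (D.m : ℝ) ^ 3 * D.x.den ≤ s ^ 4 * (-Real.log g) := by
      have h4 : Real.log g ≤ -(130000 * (D.m : ℝ) ^ 3 * D.x.den / s ^ 4) := by
        rw [Real.log_le_iff_le_exp hg]; exact hgg
      have h5 : 130000 * (D.m : ℝ) ^ 3 * D.x.den / s ^ 4 ≤ -Real.log g := by linarith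
      rw [div_le_iff₀ (by positivity)] at h5
      linarith
    have h4 := n2_ray D hP hC s g hs0 (min_le_right _ _) hg h3
    rcases ht with rfl | rfl
    · exact hsub h4.1
    · exact hsub h4.2
  have e1 : ∀ᶠ c in 𝓝 c₀, c ∈ ball c₀ η := ball_mem_nhds _ hη0
  have e2 : ∀ᶠ c in 𝓝 c₀, G c c < g₀ := by
    refine (continuous_G_diag.tendsto c₀).eventually (eventually_lt_nhds ?_)
    rw [mem_M_iff'.1 hM]; exact hg₀0
  filter_upwards [e1, e2] with c h3 h4 u hu hcu
  have h5 : G c c = u := by rw [hcu, G_cOf (by rw [CH.re_pt]; exact hu), CH.re_pt]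
  have h6 := hray u hu (by rw [← h5]; exact h4.le)
  rw [← hcu] at h6
  have h7 : dist (rt D) c₀ ≤ dist c (rt D) + dist c c₀ := by
    have := dist_triangle (rt D) c c₀
    rwa [dist_comm (rt D) c] at this
  have h8 : dist c (rt D) < η := h6
  have h9 : dist c c₀ < η := h3
  rw [hη] at h8 h9
  linarith

end I60

/-- **module U_irr** -/
theorem u_irr : U_irr := by
  rintro θ ⟨W, hW, hν0, hν1, hνi⟩
  set ν : ℝ := W.nu θ with hν
  set L₀ : ℂ := 2 * Real.pi * ν * I with hL₀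
  have hm := hW.wide.pos
  have hm0 : (0 : ℝ) < W.m := by exact_mod_cast hm
  have hpi := Real.pi_pos
  have hL₀D : L₀ ∈ Pri.D0 W.m := T60.axis_mem_D0 hm hν0 hν1
  have hL₀re : L₀.re = 0 := by simp [hL₀]
  have hcM : W.c L₀ ∈ MM := I60.c_mem_MM hW hL₀D hL₀re.le
  refine ⟨W.c L₀, hcM, ?_, ?_⟩
  · -- the limit
    refine tendsto_Psi_of_unique fun g t c hg hg0 ht hc => ?_
    have hM : c ∈ MM := by
      refine mem_MM_of_tendsto (u := fun n => (g n : ℂ) + 2 * Real.pi * t n * I) ?_ ?_ hc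
      · intro n
        rw [CH.re_pt]; exact hg n
      · refine hg0.congr fun n => ?_
        rw [CH.re_pt]
    refine eq_of_forall_dist_le fun ε hε => ?_
    obtain ⟨δ, hδ, h2, h3⟩ := I60.small hW hν0 hν1 hνi hε
    obtain ⟨x₁, x₂, hx0, hx1, hx3, hx4, hx5, hx6, hx7⟩ := I60.rats hν0 hν1 hδ
    obtain ⟨h4, h5⟩ := I60.between hW hx0 hx1 hx5 hx3 hx4
    have hcl : c ∈ closure (T60.Ext (W.dat x₁).tm (W.dat x₂).tp 1) := by
      refine mem_closure_of_tendsto hc ?_
      filter_upwards [hg0.eventually_lt_const one_pos, ht.eventually_const_lt h4,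
        ht.eventually_lt_const h5] with n h6 h7 h8
      refine ⟨_, ⟨?_, ?_, ?_, ?_⟩, rfl⟩
      · rw [CH.re_pt]; exact hg n
      · rw [CH.re_pt]; exact h6
      · rw [CH.im_pt]; exact mul_lt_mul_of_pos_left h7 (by positivity)
      · rw [CH.im_pt]; exact mul_lt_mul_of_pos_left h8 (by positivity)
    rcases T60.limit_Ext hW hx0 hx5 hx1 hM hcl with ⟨y, hy1, hy2, hy⟩ | ⟨y, hy1, hy2, hy⟩
    · have hy1' : (x₁ : ℝ) ≤ y := by exact_mod_cast hy1
      have hy2' : (y : ℝ) ≤ x₂ := by exact_mod_cast hy2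
      exact (h3 y (hx0.trans_le hy1) (hy2.trans_lt hx1)
        (abs_lt.2 ⟨by linarith, by linarith⟩) c hy).le
    · rw [hy]
      exact (h2 y (abs_lt.2 ⟨by linarith, by linarith⟩)).le
  · -- local connectivity
    intro U hU
    obtain ⟨ε₀, hε₀, hεU⟩ := Metric.mem_nhds_iff.1 hU
    set ε : ℝ := ε₀ / 2 with hε
    have hε0 : 0 < ε := by rw [hε]; linarith
    obtain ⟨δ, hδ, h2, h3⟩ := I60.small hW hν0 hν1 hνi hε0
    obtain ⟨r, hr, hrD, hinj⟩ := I60.c_inj hW hL₀D
    have hcc := I60.c_contAt hW hL₀D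
    obtain ⟨r', hr', hrε⟩ := Metric.continuousAt_iff.1 hcc ε hε0
    set ρ₁ : ℝ := min r r' / 2 with hρ₁
    have hρ₁0 : 0 < ρ₁ := by rw [hρ₁]; have := lt_min hr hr'; positivity
    have hρ₁r : ρ₁ < r := by
      have := min_le_left r r'
      rw [hρ₁]; have := lt_min hr hr'; linarith
    have hρ₁r' : ρ₁ < r' := by
      have := min_le_right r r'
      rw [hρ₁]; have := lt_min hr hr'; linarith
    obtain ⟨x₁, x₂, hx0, hx1, hx3, hx4, hx5, hx6, hx7⟩ := I60.rats hν0 hν1
      (lt_min hδ (show 0 < ρ₁ / (2 * Real.pi) by positivity))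
    have hxa : ∀ y : ℝ, (x₁ : ℝ) ≤ y → y ≤ x₂ → |y - ν| < δ := fun y hy1 hy2 => by
      have := min_le_left δ (ρ₁ / (2 * Real.pi))
      exact abs_lt.2 ⟨by linarith, by linarith⟩
    have hxb : ∀ y : ℝ, (x₁ : ℝ) ≤ y → y ≤ x₂ → (2 * Real.pi * y * I : ℂ) ∈ ball L₀ ρ₁ := by
      intro y hy1 hy2
      have h4 : |y - ν| < ρ₁ / (2 * Real.pi) := by
        have := min_le_right δ (ρ₁ / (2 * Real.pi))
        exact abs_lt.2 ⟨by linarith, by linarith⟩
      have h5 : (2 * Real.pi * y * I : ℂ) - L₀ = ((2 * Real.pi * (y - ν) : ℝ) : ℂ) * I := by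
        rw [hL₀]; push_cast; ring
      rw [mem_ball, dist_eq_norm, h5, norm_mul, norm_I, mul_one, norm_real, Real.norm_eq_abs,
        abs_mul, abs_of_pos Real.two_pi_pos]
      rw [lt_div_iff₀ Real.two_pi_pos] at h4
      linarith
    -- the sets
    set A : Set ℂ := W.c '' (closedBall L₀ ρ₁ ∩ {L | L.re ≤ 0}) with hA
    set K' : Set ℂ := A ∪ ⋃ y ∈ {y : ℚ | x₁ ≤ y ∧ y ≤ x₂}, (Lm (W.dat y) ∪ {rt (W.dat y)}) with hK'
    have hballr : closedBall L₀ ρ₁ ⊆ ball L₀ r := closedBall_subset_ball hρ₁r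
    have hAc : IsPreconnected A := by
      refine (((convex_closedBall L₀ ρ₁).inter ?_).isPreconnected).image _ ?_
      · have := convex_halfSpace_re_le 0
        exact this
      · intro L hL
        exact (I60.c_contAt hW (hrD (hballr hL.1))).continuousWithinAt
    have hcA : W.c L₀ ∈ A := ⟨L₀, ⟨mem_closedBall_self hρ₁0.le, hL₀re.le⟩, rfl⟩
    have hrtA : ∀ y : ℚ, x₁ ≤ y → y ≤ x₂ → rt (W.dat y) ∈ A := by
      intro y hy1 hy2
      rw [I60.rt_eq hW (hx0.trans_le hy1) (hy2.trans_lt hx1)]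
      refine ⟨_, ⟨ball_subset_closedBall (hxb y (by exact_mod_cast hy1) (by exact_mod_cast hy2)),
        ?_⟩, rfl⟩
      show (2 * Real.pi * ((y : ℝ) : ℂ) * I : ℂ).re ≤ 0
      simp
    have hAM : A ⊆ MM := by
      rintro _ ⟨L, ⟨hL1, hL2⟩, rfl⟩
      exact I60.c_mem_MM hW (hrD (hballr hL1)) hL2
    have hAε : A ⊆ ball (W.c L₀) ε := by
      rintro _ ⟨L, ⟨hL1, hL2⟩, rfl⟩
      have hL3 : dist L L₀ ≤ ρ₁ := hL1
      exact hrε (by linarith)
    have hK'M : K' ⊆ MM := by
      rintro z (hz | hz)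
      · exact hAM hz
      · rw [mem_iUnion₂] at hz
        obtain ⟨y, ⟨hy1, hy2⟩, hz | hz⟩ := hz
        · exact hz.1
        · rw [mem_singleton_iff.1 hz]
          exact hAM (hrtA y hy1 hy2)
    have hK'ε : K' ⊆ ball (W.c L₀) ε := by
      rintro z (hz | hz)
      · exact hAε hz
      · rw [mem_iUnion₂] at hz
        obtain ⟨y, ⟨hy1, hy2⟩, hz | hz⟩ := hz
        · exact h3 y (hx0.trans_le hy1) (hy2.trans_lt hx1) (hxa y (by exact_mod_cast hy1)
            (by exact_mod_cast hy2)) z hz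
        · rw [mem_singleton_iff.1 hz]
          exact hAε (hrtA y hy1 hy2)
    have hK'c : IsPreconnected K' := by
      refine isPreconnected_of_forall (W.c L₀) fun z hz => ?_
      rcases hz with hz | hz
      · exact ⟨A, subset_union_left, hcA, hz, hAc⟩
      · rw [mem_iUnion₂] at hz
        obtain ⟨y, ⟨hy1, hy2⟩, hz⟩ := hz
        have hy0 := hx0.trans_le hy1
        have hyl := hy2.trans_lt hx1
        refine ⟨A ∪ (Lm (W.dat y) ∪ {rt (W.dat y)}), ?_, Or.inl hcA, Or.inr hz, ?_⟩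
        · refine union_subset_union_right _ fun z hz => ?_
          rw [mem_iUnion₂]
          exact ⟨y, ⟨hy1, hy2⟩, hz⟩
        · exact IsPreconnected.union (rt (W.dat y)) (hrtA y hy1 hy2) (Or.inr rfl) hAc
            (CH.preconn_K n5_open n5_closed (WS.dat_par hW hy0 hyl) (WS.dat_cir hW hy0 hyl))
    refine ⟨closure K', ?_, ?_, ?_, ?_⟩
    · refine subset_inter (closure_minimal hK'M isCompact_MM.isClosed) ?_
      refine (closure_mono hK'ε).trans (closure_ball_subset_closedBall.trans ?_)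
      refine Subset.trans ?_ hεU
      exact closedBall_subset_ball (by rw [hε]; linarith)
    · exact isCompact_MM.of_isClosed_subset isClosed_closure
        (closure_minimal hK'M isCompact_MM.isClosed)
    · exact ⟨⟨_, subset_closure (Or.inl hcA)⟩, hK'c.closure⟩
    · -- the neighbourhood
      have hne : ∀ y : ℚ, x₁ ≤ y → y ≤ x₂ → W.c L₀ ≠ rt (W.dat y) := by
        intro y hy1 hy2 hcon
        rw [I60.rt_eq hW (hx0.trans_le hy1) (hy2.trans_lt hx1)] at hcon
        have h4 := hinj (mem_ball_self hr) (hballr (ball_subset_closedBall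
          (hxb y (by exact_mod_cast hy1) (by exact_mod_cast hy2)))) hcon
        have h5 := congrArg Complex.im h4
        rw [hL₀] at h5
        simp at h5
        exact hνi ⟨y, h5.symm⟩
      have e1 := I60.ray_away hW hx0 (hx5.trans hx1) hcM (hne x₁ le_rfl hx5.le) (Or.inl rfl)
      have e2 := I60.ray_away hW (hx0.trans hx5) hx1 hcM (hne x₂ hx5.le le_rfl) (Or.inr rfl)
      have e3 : ∀ᶠ c in 𝓝 (W.c L₀), G c c < 1 := by
        refine (continuous_G_diag.tendsto _).eventually (eventually_lt_nhds ?_)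
        rw [mem_M_iff'.1 hcM]; exact one_pos
      obtain ⟨ρ₂, hρ₂, hN⟩ := Metric.mem_nhds_iff.1 (hcc.eventually ((e1.and e2).and e3))
      -- the radius for the exterior points
      set x₀ : ℝ := min (ν - x₁) (x₂ - ν) with hx₀
      have hx₀0 : 0 < x₀ := lt_min (by linarith) (by linarith)
      set η : ℝ := min 1 (x₀ ^ 2 / (81 * W.m)) with hη
      have hη0 : 0 < η := lt_min one_pos (by positivity)
      set ρ : ℝ := min (min ρ₁ ρ₂) (min x₀ η) with hρ
      have hρ0 : 0 < ρ := lt_min (lt_min hρ₁0 hρ₂) (lt_min hx₀0 hη0)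
      have hρ1 : ρ ≤ ρ₁ := (min_le_left _ _).trans (min_le_left _ _)
      have hρ2 : ρ ≤ ρ₂ := (min_le_left _ _).trans (min_le_right _ _)
      have hρ3 : ρ ≤ x₀ := (min_le_right _ _).trans (min_le_left _ _)
      have hρ4 : ρ ≤ x₀ ^ 2 / (81 * W.m) :=
        ((min_le_right _ _).trans (min_le_right _ _)).trans (min_le_right _ _)
      set B : Set ℂ := ball L₀ ρ ∩ {L | 0 < L.re} with hB
      have hBD : B ⊆ Pri.D0 W.m := fun L hL => hrD (hballr (ball_subset_closedBall
        (ball_subset_ball hρ1 hL.1)))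
      set R : Set ℂ := T60.Reg W x₁ x₂ 1 with hR
      have hBc : IsPreconnected (W.c '' B) := by
        refine (((convex_ball L₀ ρ).inter (convex_halfSpace_re_gt 0)).isPreconnected).image _ ?_
        intro L hL
        exact (I60.c_contAt hW (hBD hL)).continuousWithinAt
      have hBR : (W.c '' B ∩ R).Nonempty := by
        have h4 := hW.wide.exists_ext (y := 2 * Real.pi * ν) (by positivity) (by nlinarith)
        have h5 : ((2 * Real.pi * ν : ℝ) : ℂ) * I = L₀ := by rw [hL₀]; push_cast; ring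
        rw [h5] at h4
        obtain ⟨L, ⟨hLD, hLre, hLM⟩, hLb⟩ := (h4.and_eventually (ball_mem_nhds L₀ hρ0)).exists
        refine ⟨W.c L, ⟨L, ⟨hLb, hLre⟩, rfl⟩, Or.inl ?_⟩
        obtain ⟨θ', hT⟩ := hW.wide.ang L hLD hLM
        have h6 := hW.wide.ply L hLD θ' hT
        have h7 : (2 * Real.pi * ((Circ.nu W.w W.m θ' - W.k : ℝ) : ℂ) * I : ℂ) =
          2 * Real.pi * ((W.nu θ' : ℝ) : ℂ) * I := rfl
        rw [h7] at h6
        have hb : ‖L - L₀‖ < ρ := by rw [← dist_eq_norm]; exact hLb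
        have h8 : L.re < ρ := by
          have h9 := Complex.abs_re_le_norm (L - L₀)
          rw [Complex.sub_re, hL₀re, sub_zero, abs_of_pos hLre] at h9
          linarith
        have h9 : ‖L - 2 * Real.pi * ((W.nu θ' : ℝ) : ℂ) * I‖ < x₀ := by
          refine lt_of_pow_lt_pow_left₀ 2 hx₀0.le (h6.trans_lt ?_)
          have h10 : L.re < x₀ ^ 2 / (81 * W.m) := h8.trans_le hρ4
          rw [lt_div_iff₀ (by positivity)] at h10
          linarith
        have h10 : |W.nu θ' - ν| < x₀ := by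
          have h11 : (2 * Real.pi * (W.nu θ' - ν) : ℝ) =
              ((L - L₀) - (L - 2 * Real.pi * ((W.nu θ' : ℝ) : ℂ) * I)).im := by
            rw [hL₀]; simp; ring
          have h12 := Complex.abs_im_le_norm
            ((L - L₀) - (L - 2 * Real.pi * ((W.nu θ' : ℝ) : ℂ) * I))
          rw [← h11, abs_mul, abs_of_pos Real.two_pi_pos] at h12
          have h13 := norm_sub_le (L - L₀) (L - 2 * Real.pi * ((W.nu θ' : ℝ) : ℂ) * I)
          have h14 : 2 * Real.pi * |W.nu θ' - ν| < 2 * x₀ := by linarith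
          have h15 : 2 * |W.nu θ' - ν| ≤ 2 * Real.pi * |W.nu θ' - ν| := by
            have := Real.pi_gt_three
            nlinarith [abs_nonneg (W.nu θ' - ν)]
          linarith
        obtain ⟨h11, h12⟩ := abs_lt.1 h10
        have h13 : x₀ ≤ ν - x₁ := min_le_left _ _
        have h14 : x₀ ≤ x₂ - ν := min_le_right _ _
        obtain ⟨h15, h16⟩ := I60.between hW hx0 hx1 hx5 (show (x₁ : ℝ) < W.nu θ' by linarith)
          (show W.nu θ' < x₂ by linarith)
        have h17 := hN (ball_subset_ball hρ2 hLb)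
        exact T60.mem_Ext (k := 0) hT.1.ang h17.2 (by simpa using h15) (by simpa using h16)
      have hBfr : ∀ z ∈ W.c '' B, z ∉ frontier R := by
        rintro _ ⟨L, ⟨hLb, hLre⟩, rfl⟩ hfr
        obtain ⟨⟨h4, h5⟩, h6⟩ := hN (ball_subset_ball hρ2 hLb)
        rcases T60.frontier_Reg hW hx0 hx5 hx1 one_pos hfr with ⟨u, hu0, huh, h7 | h7⟩ | h7 |
          ⟨y, hy1, hy2, h7⟩
        · exact h4 u hu0 h7
        · exact h5 u hu0 h7
        · obtain ⟨u, -, h8⟩ := h7
          have h9 : G (W.c L) (W.c L) = 1 := by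
            rw [← h8]
            show G (cOf (((1 : ℝ) : ℂ) + 2 * Real.pi * u * I))
              (cOf (((1 : ℝ) : ℂ) + 2 * Real.pi * u * I)) = 1
            rw [G_cOf (by rw [CH.re_pt]; exact one_pos), CH.re_pt]
          rw [h9] at h6
          exact lt_irrefl _ h6
        · have h8 := hinj (hballr (ball_subset_closedBall (ball_subset_ball hρ1 hLb)))
            (hballr (ball_subset_closedBall (hxb y hy1 hy2))) h7
          rw [h8] at hLre
          simp at hLre
      have hBsub : W.c '' B ⊆ R := by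
        intro z hz
        by_contra hzR
        obtain ⟨w, hw1, hw2⟩ := T60.inter_frontier hBc hBR ⟨z, hz, hzR⟩
        exact hBfr w hw1 hw2
      have hNb : W.c '' (ball L₀ ρ) ∈ 𝓝 (W.c L₀) := by
        rw [← I60.c_map hW hL₀D]
        exact image_mem_map (ball_mem_nhds _ hρ0)
      refine mem_of_superset (inter_mem self_mem_nhdsWithin (mem_nhdsWithin_of_mem_nhds hNb)) ?_
      rintro _ ⟨hzM, L, hL, rfl⟩
      refine subset_closure ?_
      rcases le_or_gt L.re 0 with h4 | h4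
      · exact Or.inl ⟨L, ⟨ball_subset_closedBall (ball_subset_ball hρ1 hL), h4⟩, rfl⟩
      · rcases hBsub ⟨L, ⟨hL, h4⟩, rfl⟩ with h5 | ⟨y, hy1, hy2, h5⟩
        · obtain ⟨θ', h6, -, -⟩ := T60.ang_Ext h5
          exact absurd hzM (not_mem_MM_iff.2 h6.1)
        · right
          rw [mem_iUnion₂]
          exact ⟨y, ⟨hy1, hy2⟩, Or.inl h5⟩

end Pool.Agent.Work.MLC.Uni
end

section
set_option autoImplicit false

/-! # Theorem U: the child of the root at one half (helper26, after CapC60 of helper60) -/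

namespace Pool.Agent.Work.MLC.Uni

open Filter Topology Metric Set Complex MeasureTheory
open Pool.Agent.Work.MLC.Sat Pool.Agent.Work.MLC.Cnt

/-- **CH** -/
theorem u_child : U_child := by
  intro W hW
  have h0 : (0 : ℚ) < 1 / 2 := by norm_num
  have h1 : (1 / 2 : ℚ) < 1 := by norm_num
  have hd : ((1 / 2 : ℚ)).den = 2 := by norm_num
  set D := W.dat (1 / 2) with hD
  have hP : D.Par := WS.dat_par hW h0 h1
  have hC : D.Cir := WS.dat_cir hW h0 h1
  have hR := regions_all D hP hC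
  obtain ⟨Z, hG⟩ := glue_all D hP hC hR
  have hn : 0 < D.n := Par_n_pos hP
  have hword : Word D.n D.u := ⟨hC.ubits.bit, hC.ubits.per, hC.uprim⟩
  obtain ⟨σ, hV, hex⟩ := Pri.exists_wide_word hn hword D.k
  set W' : WS := ⟨D.n, D.u, D.k, σ⟩ with hW'
  have hok : W'.Ok := ⟨hV, hex⟩
  have hn0 : (0 : ℝ) < D.n := by exact_mod_cast hn
  have hq0 : (0 : ℝ) < D.x.den := by exact_mod_cast D.x.pos
  have hnear : ∀ θ, Circ.nu D.w D.m θ = D.k₀ + D.x → D.Near θ := by
    intro θ h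
    unfold Dat.Near
    rw [h, sub_self, abs_zero]
    positivity
  have hum : Circ.nu D.u D.n D.tm = D.k :=
    hC.nu_left _ (hnear _ ((hC.plateau D.tm).2 ⟨le_rfl, hC.lt.le⟩)) le_rfl
  have hup : Circ.nu D.u D.n D.tp = D.k + 1 :=
    hC.nu_right _ (hnear _ ((hC.plateau D.tp).2 ⟨hC.lt.le, le_rfl⟩)) le_rfl
  have hin : ∀ θ, (D.k : ℝ) < Circ.nu D.u D.n θ → Circ.nu D.u D.n θ < D.k + 1 →
      D.tm < θ ∧ θ < D.tp := by
    intro θ h2 h3
    constructor
    · by_contra hcon
      push Not at hcon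
      have := Circ.nu_mono D.u D.n hcon
      linarith
    · by_contra hcon
      push Not at hcon
      have := Circ.nu_mono D.u D.n hcon
      linarith
  have hnu' : ∀ θ, W'.nu θ = Circ.nu D.u D.n θ - D.k := fun θ => rfl
  have harc : ∀ y : ℚ, 0 < y → y < 1 → D.tm < (W'.dat y).tm ∧ (W'.dat y).tp < D.tp := by
    intro y hy0 hy1
    have hy0' : (0 : ℝ) < y := by exact_mod_cast hy0
    have hy1' : (y : ℝ) < 1 := by exact_mod_cast hy1
    have hlt := (WS.dat_cir hok hy0 hy1).lt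
    have a1 := (WS.plateau hok hy0 hy1 (W'.dat y).tm).2 ⟨le_rfl, hlt.le⟩
    have a2 := (WS.plateau hok hy0 hy1 (W'.dat y).tp).2 ⟨hlt.le, le_rfl⟩
    rw [hnu'] at a1 a2
    exact ⟨(hin _ (by linarith) (by linarith)).1, (hin _ (by linarith) (by linarith)).2⟩
  -- no `n`-periodic angle between the ends and the plateau of `1 / 2`
  have hper99 : ∀ (θ : ℝ) (y : ℚ), (∃ a : ℤ, (2 : ℝ) ^ (99 * D.n) * θ - θ = a) → D.tm < θ →
      θ < D.tp → W'.nu θ = y → 1 / 100 ≤ y ∧ y ≤ 99 / 100 := by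
    intro θ y hθ h2 h3 hy
    obtain ⟨h4, h5⟩ := hC.nu_in θ h2 h3
    have hzy : Circ.nu D.u D.n θ = D.k + y := by rw [hnu'] at hy; linarith
    have hy0 : 0 < y := by
      have : (0 : ℝ) < y := by linarith
      exact_mod_cast this
    have hy1 : y < 1 := by
      have : (y : ℝ) < 1 := by linarith
      exact_mod_cast this
    have h6 := perL54 hn hword hy0 hy1 (show 0 < 99 * D.n by omega) hθ hzy
    have h7 : y.den ≤ 100 := by
      by_contra hne
      have h9 : 99 ≤ y.den - 2 := by omega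
      have : 99 * D.n ≤ (y.den - 2) * D.n := Nat.mul_le_mul_right _ h9
      omega
    have hdq : (0 : ℚ) < y.den := by exact_mod_cast y.den_pos
    have h8 : (y.den : ℚ) ≤ 100 := by exact_mod_cast h7
    have h10 : y = (y.num : ℚ) / y.den := (Rat.num_div_den y).symm
    have h11 : (1 : ℚ) ≤ y.num := by
      have : 0 < y.num := Rat.num_pos.2 hy0
      exact_mod_cast this
    have h12 : (y.num : ℚ) + 1 ≤ y.den := by
      have h13 : (y.num : ℚ) < y.den := by
        rw [h10] at hy1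
        rwa [div_lt_one hdq] at hy1
      have h14 : y.num < y.den := by exact_mod_cast h13
      exact_mod_cast h14
    constructor
    · rw [h10, le_div_iff₀ hdq]
      linarith
    · rw [h10, div_le_iff₀ hdq]
      linarith
  have hrat99 : ∀ θ : ℝ, (∃ a : ℤ, (2 : ℝ) ^ (99 * D.n) * θ - θ = a) → ∃ y : ℚ, W'.nu θ = y := by
    intro θ hθ
    obtain ⟨z, hz⟩ := Cap.C60.nu_rat (n := D.n) (show 0 < 99 * D.n by omega) hθ hC.ubits.per
    exact ⟨z - D.k, by rw [hnu', hz]; push_cast; ring⟩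
  have hperiod : ∀ θ : ℝ, (∃ a : ℤ, (2 : ℝ) ^ D.n * θ - θ = a) → D.tm < θ → θ < D.tp →
      (W'.dat (1 / 2)).tm ≤ θ ∧ θ ≤ (W'.dat (1 / 2)).tp := by
    intro θ hθ h2 h3
    obtain ⟨h4, h5⟩ := hC.nu_in θ h2 h3
    obtain ⟨z, hz⟩ := Cap.C60.nu_rat hn hθ hC.ubits.per
    set y : ℚ := z - D.k with hy
    have hzy : Circ.nu D.u D.n θ = D.k + y := by rw [hz, hy]; push_cast; ring
    have hy0 : 0 < y := by
      have : (0 : ℝ) < y := by linarith
      exact_mod_cast this
    have hy1 : y < 1 := by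
      have : (y : ℝ) < 1 := by linarith
      exact_mod_cast this
    have h6 := perL54 hn hword hy0 hy1 hn hθ hzy
    have h7 := two_le_den hy0 hy1
    have h8 : y.den = 2 := by
      by_contra hne
      have h9 : 1 ≤ y.den - 2 := by omega
      have : D.n ≤ (y.den - 2) * D.n := Nat.le_mul_of_pos_left _ h9
      omega
    have h9 : y = 1 / 2 := by
      have h10 : y = (y.num : ℚ) / 2 := by
        conv_lhs => rw [← Rat.num_div_den y, h8]
        norm_num
      have h11 : 0 < y.num := Rat.num_pos.2 hy0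
      have h12 : y.num < 2 := by
        rw [h10] at hy1
        rw [div_lt_one (by norm_num)] at hy1
        exact_mod_cast hy1
      have h13 : y.num = 1 := by omega
      rw [h10, h13]; norm_num
    refine (WS.plateau hok (by norm_num) (by norm_num) θ).1 ?_
    rw [hnu', hzy, h9]
    ring
  have h2n : (1 : ℝ) < 2 ^ D.n := one_lt_pow₀ (by norm_num) hn.ne'
  have hδ : (0 : ℝ) < 1 / (2 ^ D.n - 1) := by
    have : (0 : ℝ) < 2 ^ D.n - 1 := by linarith
    positivity
  have hδ1 : ((2 : ℝ) ^ D.n - 1) * (1 / (2 ^ D.n - 1)) = 1 := by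
    have : (0 : ℝ) < 2 ^ D.n - 1 := by linarith
    field_simp
  have hpm : ∃ a : ℤ, (2 : ℝ) ^ D.n * D.tm - D.tm = a := hC.per.2.1
  have hpp : ∃ a : ℤ, (2 : ℝ) ^ D.n * D.tp - D.tp = a := by
    obtain ⟨a, ha⟩ := hpm
    obtain ⟨j, l, hj⟩ := hC.orb
    refine ⟨2 ^ (D.m * j) * a + (2 ^ D.n - 1) * l, ?_⟩
    rw [hj]
    push_cast
    linear_combination 2 ^ (D.m * j) * ha
  have hpow99 : (2 : ℝ) ≤ 2 ^ (99 * D.n) := by
    calc (2 : ℝ) = 2 ^ 1 := by norm_num
      _ ≤ 2 ^ (99 * D.n) := pow_le_pow_right₀ (by norm_num) (by omega)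
  have h99 : ∀ t : ℝ, (∃ a : ℤ, (2 : ℝ) ^ D.n * t - t = a) →
      ∃ a : ℤ, (2 : ℝ) ^ (99 * D.n) * t - t = a := by
    rintro t ⟨a, ha⟩
    have key : ∀ k : ℕ, ∃ a : ℤ, (2 : ℝ) ^ (k * D.n) * t - t = a := by
      intro k
      induction k with
      | zero => exact ⟨0, by simp⟩
      | succ k ih =>
        obtain ⟨b, hb⟩ := ih
        refine ⟨2 ^ D.n * b + a, ?_⟩
        push_cast
        rw [add_mul, one_mul, pow_add, ← hb]
        linear_combination ha
    exact key 99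
  have hε0 : (0 : ℝ) < 1 / (2 ^ (99 * D.n) - 1) := by
    have : (0 : ℝ) < 2 ^ (99 * D.n) - 1 := by linarith
    positivity
  have hε1 : ((2 : ℝ) ^ (99 * D.n) - 1) * (1 / (2 ^ (99 * D.n) - 1)) = 1 := by
    have : (0 : ℝ) < 2 ^ (99 * D.n) - 1 := by linarith
    field_simp
  have hmW : D.n = 2 * W.m := by
    show D.m * D.x.den = 2 * W.m
    rw [hD, WS.dat_m hW h0 h1, WS.dat_x hW h0 h1, hd, mul_comm]
  refine ⟨W', hok, hmW, ?_, harc, ?_, ?_, ?_⟩
  · -- the axis of the child is in the limb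
    intro y hy0 hy1
    set L₀ : ℂ := 2 * Real.pi * y * I with hL₀
    have hL₀D : L₀ ∈ Pri.D0 D.n := T60.axis_mem_D0 hn hy0 hy1
    have hpi := Real.pi_pos
    have hfreq : ∃ᶠ L in 𝓝 L₀, L ∈ Pri.D0 D.n ∧ 0 < L.re ∧ (σ L).1 ∉ MM := by
      have h2 := hV.exists_ext (y := 2 * Real.pi * y) (by positivity) (by nlinarith)
      have h3 : ((2 * Real.pi * y : ℝ) : ℂ) * I = L₀ := by rw [hL₀]; push_cast; ring
      rwa [h3] at h2
    have hcσ : ContinuousAt σ L₀ := hV.cont.continuousAt ((Pri.isOpen_D0 _).mem_nhds hL₀D)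
    have hcc : ContinuousAt W'.c L₀ := continuous_fst.continuousAt.comp hcσ
    have hM : W'.c L₀ ∈ MM := by
      by_contra hM
      have h2 := hV.sec L₀ hL₀D
      have h3 : 1 < ‖mult D.n (σ L₀).1 (σ L₀).2‖ :=
        one_lt_norm_mult_of_ext hn (not_mem_MM_iff.1 hM) h2.1
      have h4 : mult D.n (σ L₀).1 (σ L₀).2 = exp L₀ := h2.2
      rw [h4, Complex.norm_exp] at h3
      have h5 : L₀.re = 0 := by simp [hL₀]
      rw [h5, Real.exp_zero] at h3
      exact lt_irrefl _ h3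
    have hcl : W'.c L₀ ∈ closure (Lm D ∪ {c' | ∃ θ, Ang c' θ ∧ D.tm ≤ θ ∧ θ ≤ D.tp}) := by
      rw [mem_closure_iff_frequently]
      refine hcc.tendsto.frequently (hfreq.mono ?_)
      rintro L ⟨hL, -, hLM⟩
      right
      obtain ⟨θ, hθ, hk1, hk2⟩ := hV.ang L hL hLM
      obtain ⟨h3, h4⟩ := hin θ hk1 hk2
      exact ⟨θ, hθ.ang, h3.le, h4.le⟩
    rcases n5_closed D hP hC _ hM hcl with h2 | h2
    · exact h2
    · exfalso
      obtain ⟨K, hK1, hK2, hK3⟩ := H24.exists_K origin_all hP hC hR hG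
      have ha : D.a ∈ ball D.a (sR D.m D.x) := mem_ball_self (sR_pos hP)
      have hKc : ContinuousAt K D.a := (hK2 D.a ha).continuousWithinAt.continuousAt
        (isOpen_ball.mem_nhds ha)
      have hne : exp L₀ ≠ 1 := Pri.ne_one_D0 hL₀D
      set ε : ℝ := ‖exp L₀ - 1‖ / 2 with hε
      have hε0 : 0 < ε := by
        have : 0 < ‖exp L₀ - 1‖ := norm_pos_iff.2 (sub_ne_zero.2 hne)
        rw [hε]; linarith
      have hN : {L | L ∈ ball D.a (sR D.m D.x) ∧ dist (K L) (K D.a) < ε} ∈ 𝓝 D.a :=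
        inter_mem (isOpen_ball.mem_nhds ha) (hKc (ball_mem_nhds _ hε0))
      have hmap := (section_strict (goodB hP) hP.cont hP.sec (a_mem_B hP)).map_nhds_eq
        (section_deriv_ne_zero (goodB hP) hP.cont hP.sec (a_mem_B hP))
      have hN' : D.c '' {L | L ∈ ball D.a (sR D.m D.x) ∧ dist (K L) (K D.a) < ε} ∈
          𝓝 (W'.c L₀) := by
        rw [h2]
        show _ ∈ 𝓝 (D.c D.a)
        have h3 : 𝓝 (D.c D.a) = Filter.map D.c (𝓝 D.a) := hmap.symm
        rw [h3]
        exact image_mem_map hN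
      have hexp : ∀ᶠ L in 𝓝 L₀, dist (exp L) (exp L₀) < ε :=
        continuous_exp.continuousAt (ball_mem_nhds _ hε0)
      obtain ⟨L, ⟨⟨hL, hLre, hLM⟩, hLN⟩, hLe⟩ :=
        ((hfreq.and_eventually (hcc hN')).and_eventually hexp).exists
      obtain ⟨L₂, ⟨hL₂b, hL₂K⟩, hL₂c⟩ := hLN
      have hL₂M : D.c L₂ ∉ MM := by rw [hL₂c]; exact hLM
      have hL₂a : L₂ ≠ D.a := by
        rintro rfl
        exact hL₂M (CH.rt_mem_MM hP)
      have hL₂U : L₂ ∈ D.U := ⟨hL₂b, hL₂a⟩
      obtain ⟨θ, hθ, hk1, hk2⟩ := hV.ang L hL hLM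
      obtain ⟨ht1, ht2⟩ := hin θ hk1 hk2
      obtain ⟨θ₀, hθ₀, hk3, hk4⟩ := hP.ang L₂ (U_sub_B hP hL₂U) hL₂M
      have hang : Ang (D.c L₂) θ := by
        rw [hL₂c]; exact hθ.ang
      obtain ⟨j, hj⟩ := hang.unique hθ₀.ang
      have hνθ : Circ.nu D.w D.m θ = D.k₀ + D.x := (hC.plateau θ).2 ⟨ht1.le, ht2.le⟩
      have hx0 : (0 : ℝ) < D.x := by exact_mod_cast hP.x_pos
      have hx1 : (D.x : ℝ) < 1 := by exact_mod_cast hP.x_lt
      have hj0 : j = 0 := by
        rcases lt_trichotomy j 0 with h3 | h3 | h3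
        · exfalso
          have h4 : (j : ℝ) ≤ -1 := by exact_mod_cast Int.le_sub_one_of_lt h3
          have h5 := s2_width D.m D.w θ₀ D.k₀ hP.m_pos hP.bits hk3
          have h6 := Circ.nu_mono D.w D.m (show θ₀ + 1 ≤ θ by rw [hj]; linarith)
          linarith
        · exact h3
        · exfalso
          have h4 : (1 : ℝ) ≤ j := by exact_mod_cast h3
          have h5 := s2_width D.m D.w θ D.k₀ hP.m_pos hP.bits (by rw [hνθ]; linarith)
          have h6 := Circ.nu_mono D.w D.m (show θ + 1 ≤ θ₀ by rw [hj]; linarith)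
          linarith
      rw [hj0] at hj
      simp only [Int.cast_zero, add_zero] at hj
      rw [hj] at hθ₀ hk3 hk4
      have hZ : (σ L).2 ∈ Z L₂ := by
        rw [hG.ext L₂ ⟨hL₂U, hL₂M⟩]
        refine ⟨θ, ⟨hθ₀, hk3, hk4⟩, (σ L).2, ?_, 0, by simp⟩
        rw [hL₂c]
        exact hθ
      have h3 := hK1 L₂ hL₂U _ hZ
      have h4 : mul D.n (D.c L₂, (σ L).2) = exp L := by
        rw [hL₂c]
        exact (hV.sec L hL).2
      rw [h4] at h3
      rw [← h3, hK3, dist_eq_norm] at hL₂K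
      rw [dist_eq_norm] at hLe
      have h5 : exp L₀ - 1 = (exp L - 1) - (exp L - exp L₀) := by ring
      have h6 : ‖exp L₀ - 1‖ < ε + ε := by
        rw [h5]
        exact (norm_sub_le _ _).trans_lt (add_lt_add hL₂K hLe)
      rw [hε] at h6
      linarith
  · show (W'.dat (1 / 2)).tm - D.tm ≤ 1 / (2 ^ D.n - 1)
    by_contra hcon
    push Not at hcon
    have ha := harc (1 / 2) (by norm_num) (by norm_num)
    have hlt := (WS.dat_cir hok (y := 1 / 2) (by norm_num) (by norm_num)).lt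
    have h2 := hperiod (D.tm + 1 / (2 ^ D.n - 1)) ?_ (by linarith) (by linarith)
    · linarith [h2.1]
    · obtain ⟨a, ha⟩ := hpm
      refine ⟨a + 1, ?_⟩
      push_cast
      linear_combination ha + hδ1
  · intro y hy0 hy1
    show (W'.dat y).tm - D.tm ≤ 1 / (2 ^ (99 * D.n) - 1)
    by_contra hcon
    push Not at hcon
    have hy1' : y < 1 := by linarith
    have ha := harc y hy0 hy1'
    have hlt := (WS.dat_cir hok hy0 hy1').lt
    obtain ⟨a, ham⟩ := h99 _ hpm
    have hθ : ∃ a : ℤ, (2 : ℝ) ^ (99 * D.n) * (D.tm + 1 / (2 ^ (99 * D.n) - 1)) -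
        (D.tm + 1 / (2 ^ (99 * D.n) - 1)) = a := by
      refine ⟨a + 1, ?_⟩
      push_cast
      linear_combination ham + hε1
    obtain ⟨z, hz⟩ := hrat99 _ hθ
    have h2 := (hper99 _ z hθ (by linarith) (by linarith) hz).1
    have h3 := W'.nu_mono (show D.tm + 1 / (2 ^ (99 * D.n) - 1) ≤ (W'.dat y).tm by linarith)
    rw [hz, (WS.plateau hok hy0 hy1' (W'.dat y).tm).2 ⟨le_rfl, hlt.le⟩] at h3
    have h4 : z ≤ y := by exact_mod_cast h3
    have h5 : z = y := le_antisymm h4 (hy1.trans h2)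
    have h6 := (WS.plateau hok hy0 hy1' _).1 (hz.trans (by rw [h5]))
    linarith [h6.1]
  · intro y hy0 hy1
    show D.tp - (W'.dat y).tp ≤ 1 / (2 ^ (99 * D.n) - 1)
    by_contra hcon
    push Not at hcon
    have hy0' : 0 < y := by linarith
    have ha := harc y hy0' hy1
    have hlt := (WS.dat_cir hok hy0' hy1).lt
    obtain ⟨a, ham⟩ := h99 _ hpp
    have hθ : ∃ a : ℤ, (2 : ℝ) ^ (99 * D.n) * (D.tp - 1 / (2 ^ (99 * D.n) - 1)) -
        (D.tp - 1 / (2 ^ (99 * D.n) - 1)) = a := by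
      refine ⟨a - 1, ?_⟩
      push_cast
      linear_combination ham - hε1
    obtain ⟨z, hz⟩ := hrat99 _ hθ
    have h2 := (hper99 _ z hθ (by linarith) (by linarith) hz).2
    have h3 := W'.nu_mono (show (W'.dat y).tp ≤ D.tp - 1 / (2 ^ (99 * D.n) - 1) by linarith)
    rw [hz, (WS.plateau hok hy0' hy1 (W'.dat y).tp).2 ⟨hlt.le, le_rfl⟩] at h3
    have h4 : y ≤ z := by exact_mod_cast h3
    have h5 : z = y := le_antisymm (h2.trans hy0) h4
    have h6 := (WS.plateau hok hy0' hy1 _).1 (hz.trans (by rw [h5]))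
    linarith [h6.2]

end Pool.Agent.Work.MLC.Uni
end

section
set_option autoImplicit false

/-! # Theorem U, module U6 (`U_evp`): an irrational angle with an eventually periodic kneading
sequence has an irrational rotation number for some component (helper43) -/

namespace Pool.Agent.Work.MLC.Uni

open Filter Topology Metric Set
open Pool.Agent.Work.MLC.Circ Pool.Agent.Work.MLC.Cnt CircleDeg1Lift

namespace E43

/-- the orbit of a point which stays in the half circles, after `N` steps -/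
lemma step {v : ℕ → ℤ} {N : ℕ} (hv : ∀ i, v (i + N) = v i) {θ x : ℝ} (hx : HO v θ x) (j : ℕ) :
    ∃ m : ℤ, gw v θ N (2 ^ (N * j) * x) = 2 ^ (N * (j + 1)) * x - m := by
  have hper : ∀ j i, v (N * j + i) = v i := by
    intro j
    induction j with
    | zero => intro i; simp
    | succ j ih =>
      intro i
      rw [show N * (j + 1) + i = (N * j + i) + N by ring, hv, ih]
  have h1 := hx.shift (N * j)
  have h2 : (fun i => v (N * j + i)) = v := funext fun i => hper j i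
  rw [h2] at h1
  obtain ⟨m, hm⟩ := gw_lin v θ (2 ^ (N * j) * x) N fun i _ => by
    obtain ⟨k, h3, h4⟩ := h1 i
    exact ⟨k, h3, h4.le⟩
  refine ⟨m, ?_⟩
  rw [hm, ← mul_assoc, ← pow_add, show N + N * j = N * (j + 1) by ring]

/-- a point which stays in the half circles of a periodic word is rational if the rotation number
is rational -/
lemma rat_of_nu {v : ℕ → ℤ} {p : ℕ} (hp : 0 < p) (hv : ∀ i, v (i + p) = v i) {θ x : ℝ}
    (hx : HO v θ x) {P : ℤ} {q : ℕ} (hq : 0 < q) (hnu : nu v p θ = P / q) : ∃ r : ℚ, x = r := by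
  obtain ⟨z, hz⟩ := (nu_eq_rat_iff v p θ q hq P).1 hnu
  have hvN : ∀ i, v (i + p * q) = v i := by
    intro i
    induction q with
    | zero => simp
    | succ q ih =>
      rcases Nat.eq_zero_or_pos q with h0 | h0
      · subst h0; simpa using hv i
      · have : ∀ q : ℕ, v (i + p * q) = v i := by
          intro q
          induction q with
          | zero => simp
          | succ q ih => rw [show i + p * (q + 1) = (i + p * q) + p by ring, hv, ih]
        exact this _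
  rw [← gw_mul v θ p q hv] at hz
  have hN0 : 0 < p * q := Nat.mul_pos hp hq
  generalize p * q = N at hz hvN hN0
  let H : ℝ → ℝ := fun y => gw v θ N y - P
  have hHm : Monotone H := fun a b h => sub_le_sub_right ((gw v θ N).monotone h) _
  have hHint : ∀ (y : ℝ) (k : ℤ), H (y + k) = H y + k := fun y k => by
    show gw v θ N (y + k) - P = gw v θ N y - P + k
    rw [map_add_int]; ring
  have hHz : ∀ k : ℤ, H (z + k) = z + k := fun k => by
    rw [hHint]
    show gw v θ N z - P + k = z + k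
    rw [hz]; ring
  -- the orbit of `x`
  have hlin : ∀ j, ∃ m : ℤ, H^[j] x = 2 ^ (N * j) * x - m := by
    intro j
    induction j with
    | zero => exact ⟨0, by simp⟩
    | succ j ih =>
      obtain ⟨m, hm⟩ := ih
      obtain ⟨m', hm'⟩ := step hvN hx j
      refine ⟨m' + P + m, ?_⟩
      rw [Function.iterate_succ_apply', hm, show (2 : ℝ) ^ (N * j) * x - m =
        2 ^ (N * j) * x + ((-m : ℤ) : ℝ) by push_cast; ring, hHint]
      show gw v θ N (2 ^ (N * j) * x) - P + ((-m : ℤ) : ℝ) = _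
      rw [hm']
      push_cast; ring
  choose m hm using hlin
  -- bounds
  set k := ⌊x - z⌋ with hk
  have hk1 : z + k ≤ x := by have := Int.floor_le (x - z); linarith
  have hk2 : x ≤ z + k + 1 := by have := (Int.lt_floor_add_one (x - z)).le; linarith
  have hbd : ∀ j, z + k ≤ H^[j] x ∧ H^[j] x ≤ z + k + 1 := by
    intro j
    induction j with
    | zero => exact ⟨hk1, hk2⟩
    | succ j ih =>
      rw [Function.iterate_succ_apply']
      constructor
      · calc z + k = H (z + k) := (hHz k).symm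
          _ ≤ _ := hHm ih.1
      · have h1 := hHz (k + 1)
        push_cast at h1
        calc H (H^[j] x) ≤ H (z + (k + 1)) := hHm (by linarith [ih.2])
          _ = z + k + 1 := by rw [h1]; ring
  -- convergence
  obtain ⟨l, hl⟩ : ∃ l, Tendsto (fun j => H^[j] x) atTop (𝓝 l) := by
    rcases le_total x (H x) with h | h
    · exact ⟨_, tendsto_atTop_ciSup (hHm.monotone_iterate_of_le_map h)
        ⟨z + k + 1, by rintro _ ⟨j, rfl⟩; exact (hbd j).2⟩⟩
    · exact ⟨_, tendsto_atTop_ciInf (hHm.antitone_iterate_of_map_le h)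
        ⟨z + k, by rintro _ ⟨j, rfl⟩; exact (hbd j).1⟩⟩
  have hd : Tendsto (fun j => H^[j + 1] x - H^[j] x) atTop (𝓝 0) := by
    have := ((tendsto_add_atTop_iff_nat 1).2 hl).sub hl
    rwa [sub_self] at this
  -- the difference of consecutive differences is an integer
  have he : Tendsto (fun j => (H^[j + 1 + 1] x - H^[j + 1] x) - 2 ^ N * (H^[j + 1] x - H^[j] x))
      atTop (𝓝 0) := by
    have := ((tendsto_add_atTop_iff_nat 1).2 hd).sub (hd.const_mul ((2 : ℝ) ^ N))
    rwa [mul_zero, sub_zero] at this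
  have hint : ∀ j, (H^[j + 1 + 1] x - H^[j + 1] x) - 2 ^ N * (H^[j + 1] x - H^[j] x) =
      ((-m (j + 1 + 1) + m (j + 1) + 2 ^ N * m (j + 1) - 2 ^ N * m j : ℤ) : ℝ) := by
    intro j
    rw [hm, hm, hm, show N * (j + 1 + 1) = N * j + N + N by ring, show N * (j + 1) = N * j + N by ring,
      pow_add, pow_add]
    push_cast; ring
  have hev : ∀ᶠ j in atTop, (H^[j + 1 + 1] x - H^[j + 1] x) - 2 ^ N * (H^[j + 1] x - H^[j] x) = 0 := by
    have h1 : ∀ᶠ j in atTop, |(H^[j + 1 + 1] x - H^[j + 1] x) -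
        2 ^ N * (H^[j + 1] x - H^[j] x)| < 1 := by
      have := (Metric.tendsto_nhds.1 he) 1 one_pos
      simpa [Real.dist_eq] using this
    filter_upwards [h1] with j hj
    rw [hint] at hj ⊢
    have h2 : |(-m (j + 1 + 1) + m (j + 1) + 2 ^ N * m (j + 1) - 2 ^ N * m j : ℤ)| < 1 := by
      exact_mod_cast hj
    rw [Int.abs_lt_one_iff] at h2
    rw [h2]; simp
  obtain ⟨J, hJ⟩ := eventually_atTop.1 hev
  have hpow : ∀ i, H^[J + i + 1] x - H^[J + i] x = 2 ^ (N * i) * (H^[J + 1] x - H^[J] x) := by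
    intro i
    induction i with
    | zero => simp
    | succ i ih =>
      have h1 := hJ (J + i) (by omega)
      have h2 : H^[J + (i + 1) + 1] x - H^[J + (i + 1)] x = 2 ^ N * (H^[J + i + 1] x - H^[J + i] x) := by
        have e : J + (i + 1) = J + i + 1 := by ring
        rw [e]; linarith
      rw [h2, ih, show N * (i + 1) = N * i + N by ring, pow_add]; ring
  have hzero : H^[J + 1] x - H^[J] x = 0 := by
    by_contra hne
    have hpos : 0 < |H^[J + 1] x - H^[J] x| := abs_pos.2 hne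
    obtain ⟨i, hi⟩ := pow_unbounded_of_one_lt (1 / |H^[J + 1] x - H^[J] x|) (one_lt_two (α := ℝ))
    have h1 : |H^[J + i + 1] x - H^[J + i] x| ≤ 1 := by
      rw [abs_le]
      constructor <;> linarith [(hbd (J + i + 1)).1, (hbd (J + i + 1)).2, (hbd (J + i)).1,
        (hbd (J + i)).2]
    rw [hpow, abs_mul, abs_of_pos (by positivity)] at h1
    rw [div_lt_iff₀ hpos] at hi
    have h2 : (2 : ℝ) ^ i ≤ 2 ^ (N * i) := pow_le_pow_right₀ (by norm_num)
      (Nat.le_mul_of_pos_left i hN0)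
    nlinarith
  rw [hm, hm] at hzero
  have h3 : (2 : ℝ) ^ (N * J) < 2 ^ (N * (J + 1)) := pow_lt_pow_right₀ (by norm_num) (by
    rw [mul_add, mul_one]; omega)
  refine ⟨((m (J + 1) - m J : ℤ) : ℚ) / (2 ^ (N * (J + 1)) - 2 ^ (N * J)), ?_⟩
  push_cast
  rw [eq_div_iff (by linarith)]
  linarith

end E43

/-- **U6** -/
theorem u_evp : U_evp := by
  rintro θ hθ ⟨l₀, p₀, hp₀, h₀⟩
  classical
  have hex : ∃ p, 0 < p ∧ ∃ l, ∀ k, l ≤ k → wL θ (k + p) = wL θ k := ⟨p₀, hp₀, l₀, h₀⟩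
  obtain ⟨hp, l, hl⟩ := Nat.find_spec hex
  have hmin := fun d => Nat.find_min hex (m := d)
  generalize Nat.find hex = p at hp hl hmin
  let v : ℕ → ℤ := fun i => wL θ (l + i)
  have hword : Word p v := by
    refine ⟨fun i => wL_bit _ _, fun i => ?_, fun d hd hdp => ?_⟩
    · show wL θ (l + (i + p)) = wL θ (l + i)
      rw [← add_assoc]; exact hl _ (by omega)
    · by_contra hcon
      push Not at hcon
      refine hmin d hdp ⟨hd, l, fun k hk => ?_⟩
      have h1 : wL θ (l + (k - l + d)) = wL θ (l + (k - l)) := hcon (k - l)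
      rwa [show l + (k - l + d) = k + d by omega, show l + (k - l) = k by omega] at h1
  have hHO : HO v θ (2 ^ l * θ) := HO.shift (w := wL θ) (fun j => wL_in θ j) l
  by_cases hirr : Irrational (Circ.nu v p θ)
  · obtain ⟨W, hOk, hm, hw, hk⟩ := Shp.P60.exists_ws hp hword ⌊Circ.nu v p θ⌋
    have e : W.nu θ = Circ.nu v p θ - ⌊Circ.nu v p θ⌋ := by unfold WS.nu; rw [hm, hw, hk]
    refine ⟨W, hOk, ?_, ?_, ?_⟩
    · rw [e]
      have h1 := Int.floor_le (Circ.nu v p θ)
      have h2 := hirr.ne_int ⌊Circ.nu v p θ⌋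
      have h3 := lt_of_le_of_ne h1 (Ne.symm h2)
      linarith
    · rw [e]
      have := Int.lt_floor_add_one (Circ.nu v p θ)
      linarith
    · rw [e]; exact hirr.sub_intCast _
  · exfalso
    unfold Irrational at hirr
    push Not at hirr
    obtain ⟨r, hr⟩ := hirr
    obtain ⟨s, hs⟩ := E43.rat_of_nu hp hword.2.1 hHO r.den_pos (P := r.num) (by
      rw [← hr]; exact Rat.cast_def r)
    refine hθ ⟨s / 2 ^ l, ?_⟩
    push_cast
    rw [← hs]
    field_simp

end Pool.Agent.Work.MLC.Uni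
end

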