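import Pool.Agent.Work.MLCM.C71
import Pool.Agent.Work.MLCM.C76
import Pool.Agent.Work.MLCM.C80
import Pool.Agent.Work.MLCM.C81
import Pool.Agent.Work.MLCM.C82

section
set_option autoImplicit false

/-! # Theorem U: the estimates of one piece (helper26) -/

namespace Pool.Agent.Work.MLC.Uni

open Filter Topology Metric Set Complex MeasureTheory
open Pool.Agent.Work.MLC.Sat Pool.Agent.Work.MLC.Cnt
open Pool.Agent.Work.MLC.Shp (Wake lg RayE Hd)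
open scoped ENNReal

/-! ### comparison of weights -/

lemma bet_cmp26 {N N' g : ℝ} (hN' : 0 < N') (h : N' ≤ 6561 * N) :
    Cap.bet N g ≤ 3 * Cap.bet N' g := by
  have h1 : Cap.bet (6561 * N) g ≤ Cap.bet N' g := Cap.bet_anti hN' h
  have h2 : Cap.bet N g ≤ 3 * Cap.bet (6561 * N) g := by
    unfold Cap.bet
    have h3 : (3 : ℝ) = 6561 ^ ((1 : ℝ) / 8) := by
      rw [show (6561 : ℝ) = 3 ^ (8 : ℕ) by norm_num, ← Real.rpow_natCast,
        ← Real.rpow_mul (by norm_num)]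
      norm_num
    rw [h3, ← Real.mul_rpow (by norm_num) (le_trans zero_le_one (le_max_left _ _))]
    refine Real.rpow_le_rpow (le_trans zero_le_one (le_max_left _ _)) ?_ (by norm_num)
    refine max_le ?_ ?_
    · have := le_max_left (1 : ℝ) (Real.logb 2 (1 / g) / (6561 * N))
      linarith
    · have h4 := le_max_right (1 : ℝ) (Real.logb 2 (1 / g) / (6561 * N))
      have e : Real.logb 2 (1 / g) / (6561 * N) = Real.logb 2 (1 / g) / N / 6561 := by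
        rw [div_div, mul_comm N]
      rw [e] at h4 ⊢
      linarith
  linarith

/-- comparison of the ray energies -/
lemma rayE_le26 {N e e' D ℓ : ℝ} (hN0 : 0 < N) (hN : N ≤ 100000 * lg ℓ)
    (hD : D + |e - e'| ≤ ℓ ^ (5 / 4 : ℝ)) : Cap.rayE N e D ℓ ≤ 3 * RayE e' ℓ := by
  unfold Cap.rayE RayE Shp.Ray
  have hsub : Cap.RS e D ℓ ⊆ Shp.Sc e' (ℓ ^ (5 / 4 : ℝ)) ℓ := by
    rintro z ⟨h1, h2, h3⟩
    refine ⟨h1, h2, ?_⟩
    have := abs_sub_le (z.im / (2 * Real.pi)) e e'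
    linarith
  have hlg : 0 < lg ℓ := by linarith
  rw [← lintegral_const_mul' _ _ (by norm_num : (3 : ℝ≥0∞) ≠ ⊤)]
  refine (lintegral_mono_set hsub).trans (setLIntegral_mono' (Cap.meas_Sc _ _ _) fun z _ => ?_)
  rw [show (3 : ℝ≥0∞) = ENNReal.ofReal 3 by simp, ← ENNReal.ofReal_mul (by norm_num)]
  refine ENNReal.ofReal_le_ofReal ?_
  rw [Cap.bet_eq, ← mul_div_assoc]
  have h1 := bet_cmp26 (N := 16 * lg ℓ) (g := z.re) hN0 (by linarith)
  have h2 := Cap.bet_pos N z.re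
  have h3 := Cap.bet_pos (16 * lg ℓ) z.re
  rw [div_le_div_iff₀ h2 h3]
  have h4 : 0 ≤ ‖deriv cOf z‖ ^ 2 := by positivity
  nlinarith [mul_le_mul_of_nonneg_left h1 h4]

/-! ### lengths of arcs -/

/-- the ends of the plateau at `1 / 2` are periodic -/
lemma per26 {W : WS} (hW : W.Ok) : (∃ k : ℤ, ((2 : ℝ) ^ (2 * W.m) - 1) * (W.dat (1 / 2)).tm = k) ∧
    ∃ k : ℤ, ((2 : ℝ) ^ (2 * W.m) - 1) * (W.dat (1 / 2)).tp = k := by
  have h0 : (0 : ℚ) < 1 / 2 := by norm_num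
  have h1 : (1 / 2 : ℚ) < 1 := by norm_num
  have hd : ((1 / 2 : ℚ)).den = 2 := by norm_num
  have hC := WS.dat_cir hW h0 h1
  obtain ⟨-, ⟨k, hk⟩, -⟩ := hC.per
  obtain ⟨j, l, hjl⟩ := hC.orb
  rw [WS.dat_m hW h0 h1, WS.dat_x hW h0 h1, hd, mul_comm W.m 2] at hk
  rw [WS.dat_m hW h0 h1] at hjl
  refine ⟨⟨k, by linarith⟩, ⟨2 ^ (W.m * j) * k + (2 ^ (2 * W.m) - 1) * l, ?_⟩⟩
  push_cast
  rw [hjl, ← hk]
  ring

lemma arc26 {a b : ℕ} (ha : 0 < a) (hb : 0 < b) {s t : ℝ} (hs : ∃ k : ℤ, ((2 : ℝ) ^ a - 1) * s = k)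
    (ht : ∃ k : ℤ, ((2 : ℝ) ^ b - 1) * t = k) (h : s < t) : (1 / 2) ^ (a + b) ≤ t - s := by
  obtain ⟨k, hk⟩ := hs
  obtain ⟨l, hl⟩ := ht
  have ha1 : (1 : ℝ) < 2 ^ a := one_lt_pow₀ (by norm_num) ha.ne'
  have hb1 : (1 : ℝ) < 2 ^ b := one_lt_pow₀ (by norm_num) hb.ne'
  have hz : ((2 : ℝ) ^ a - 1) * ((2 : ℝ) ^ b - 1) * (t - s) =
      (((2 ^ a - 1) * l - (2 ^ b - 1) * k : ℤ) : ℝ) := by
    push_cast
    rw [← hk, ← hl]
    ring
  have hpos : 0 < ((2 : ℝ) ^ a - 1) * ((2 : ℝ) ^ b - 1) * (t - s) :=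
    mul_pos (mul_pos (by linarith) (by linarith)) (by linarith)
  have h1 : (1 : ℝ) ≤ ((2 : ℝ) ^ a - 1) * ((2 : ℝ) ^ b - 1) * (t - s) := by
    rw [hz] at hpos ⊢
    have : 0 < (2 ^ a - 1) * l - (2 ^ b - 1) * k := by exact_mod_cast hpos
    exact_mod_cast this
  have h2 : ((2 : ℝ) ^ a - 1) * ((2 : ℝ) ^ b - 1) ≤ 2 ^ (a + b) := by
    rw [pow_add]
    nlinarith
  have h3 : (1 : ℝ) ≤ 2 ^ (a + b) * (t - s) :=
    h1.trans (mul_le_mul_of_nonneg_right h2 (by linarith))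
  rw [one_div, inv_pow, inv_le_iff_one_le_mul₀ (by positivity)]
  linarith

/-- powers of one half -/
lemma pow26 {ℓ : ℝ} {a b : ℕ} (h : (1 / 2) ^ a ≤ ℓ) (hab : 5 * a + 4 ≤ 4 * b) :
    2 * (1 / 2) ^ b ≤ ℓ ^ (5 / 4 : ℝ) := by
  have h1 : ((1 / 2 : ℝ) ^ a) ^ (5 / 4 : ℝ) ≤ ℓ ^ (5 / 4 : ℝ) :=
    Real.rpow_le_rpow (by positivity) h (by norm_num)
  refine le_trans ?_ h1
  rw [← Real.rpow_natCast (1 / 2) a, ← Real.rpow_mul (by norm_num)]
  have h2 : (2 : ℝ) * (1 / 2) ^ b = (1 / 2 : ℝ) ^ ((b : ℝ) - 1) := by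
    rw [Real.rpow_sub (by norm_num), Real.rpow_one, Real.rpow_natCast]
    ring
  rw [h2]
  refine Real.rpow_le_rpow_of_exponent_ge (by norm_num) (by norm_num) ?_
  have h3 : (5 * (a : ℝ) + 4) ≤ 4 * b := by exact_mod_cast hab
  linarith

lemma lg26 {ℓ : ℝ} {n : ℕ} (h0 : 0 < ℓ) (hn : 4000 ≤ n) (h : ℓ ≤ (1 / 2) ^ (n / 20)) :
    (n : ℝ) / 21 ≤ lg ℓ := by
  have h1 : ((n / 20 : ℕ) : ℝ) ≤ lg ℓ := by
    unfold lg
    rw [Real.le_logb_iff_rpow_le (by norm_num) (by positivity), Real.rpow_natCast,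
      le_div_iff₀ h0]
    calc (2 : ℝ) ^ (n / 20) * ℓ ≤ 2 ^ (n / 20) * (1 / 2) ^ (n / 20) := by gcongr
      _ = 1 := by rw [← mul_pow]; norm_num
  have h2 : n ≤ 21 * (n / 20) := by omega
  have h3 : (n : ℝ) ≤ 21 * ((n / 20 : ℕ) : ℝ) := by exact_mod_cast h2
  linarith

lemma le_one26 {ℓ : ℝ} {k : ℕ} (h : ℓ ≤ (1 / 2) ^ k) : ℓ ≤ 1 :=
  h.trans (pow_le_one₀ (by norm_num) (by norm_num))

lemma rpow_le26 {ℓ : ℝ} (h0 : 0 < ℓ) (h : ℓ ≤ 1) : ℓ ^ (5 / 4 : ℝ) ≤ ℓ := by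
  have := Real.rpow_le_rpow_of_exponent_ge h0 h (show (1 : ℝ) ≤ 5 / 4 by norm_num)
  rwa [Real.rpow_one] at this

lemma DD26 (m : ℕ) : Cap.DD m 2 = 2 * (1 / 2) ^ (5 * m) := by
  unfold Cap.DD
  rw [show m * (3 * 2 - 1) = 5 * m by ring]

/-! ### one arc -/

/-- **E1** -/
theorem u_one : U_one := by
  refine ⟨25 * 10 ^ 17, by norm_num, fun n W hn hT => ?_⟩
  have h0 : (0 : ℚ) < 1 / 2 := by norm_num
  have h1 : (1 / 2 : ℚ) < 1 := by norm_num
  have hd : ((1 / 2 : ℚ)).den = 2 := by norm_num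
  have hP := WS.dat_par hT.ok h0 h1
  have hC := WS.dat_cir hT.ok h0 h1
  have hm := hT.ok.wide.pos
  rw [Cap.diam_limb hP hC]
  obtain ⟨p1, p2⟩ := per26 hT.ok
  obtain ⟨ℓ, hℓ⟩ : ∃ ℓ, ℓ = (W.dat (1 / 2)).tp - (W.dat (1 / 2)).tm := ⟨_, rfl⟩
  have hlt := hC.lt
  have hpos : 0 < ℓ := by rw [hℓ]; linarith
  have hlen := hT.len
  rw [← hℓ] at hlen ⊢
  have hℓ1 := le_one26 hlen
  have hlg := lg26 hpos hn hlen
  have hnR : (4000 : ℝ) ≤ n := by exact_mod_cast hn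
  have hmn : (W.m : ℝ) ≤ 4 * n := by exact_mod_cast hT.le
  have hm1 : (1 : ℝ) ≤ W.m := by exact_mod_cast hm
  -- the length is at least `2 ^ (- 2 m)`
  have hlow : (1 / 2) ^ (2 * W.m) ≤ ℓ := by
    have h2 := Cap.plat15 hT.ok h0 h1
    rw [hd, ← hℓ, mul_comm W.m 2] at h2
    rw [one_div, inv_pow, inv_le_iff_one_le_mul₀ (by positivity)]
    linarith
  have hDD : Cap.DD W.m 2 ≤ ℓ ^ (5 / 4 : ℝ) := by
    rw [DD26]
    exact pow26 hlow (by omega)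
  have hkey := Cap.one_all W hT.ok (1 / 2) ℓ h0 h1 hℓ1 (by rw [← hℓ]; linarith)
    (by rw [hd]; exact hDD.trans (rpow_le26 hpos hℓ1))
  refine hkey.trans ?_
  have r1 : Cap.rayE (4 * W.m * ((1 / 2 : ℚ)).den) (W.dat (1 / 2)).tm
      (Cap.DD W.m ((1 / 2 : ℚ)).den) ℓ ≤ 3 * RayE (W.dat (1 / 2)).tm ℓ := by
    rw [hd]
    refine rayE_le26 (by positivity) (by push_cast; linarith) ?_
    rw [sub_self, abs_zero, add_zero]
    exact hDD
  have r2 : Cap.rayE (4 * W.m * ((1 / 2 : ℚ)).den) (W.dat (1 / 2)).tp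
      (Cap.DD W.m ((1 / 2 : ℚ)).den) ℓ ≤ 3 * RayE (W.dat (1 / 2)).tp ℓ := by
    rw [hd]
    refine rayE_le26 (by positivity) (by push_cast; linarith) ?_
    rw [sub_self, abs_zero, add_zero]
    exact hDD
  have f1 : Cap.en (Cap.Rf (W.dat (1 / 2)).tm (W.dat (1 / 2)).tp ℓ) ≤ RayE (W.dat (1 / 2)).tm ℓ :=
    Cap.roofE_le hpos (by linarith) le_rfl (by linarith)
  unfold Cap.cutE
  obtain ⟨a, ha⟩ : ∃ a, a = RayE (W.dat (1 / 2)).tm ℓ := ⟨_, rfl⟩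
  obtain ⟨b, hb⟩ : ∃ b, b = RayE (W.dat (1 / 2)).tp ℓ := ⟨_, rfl⟩
  obtain ⟨v, hv⟩ : ∃ v, v = volume (Hd W (1 / 2)) := ⟨_, rfl⟩
  have hv' : volume (Cap.HH W (1 / 2)) = v := by rw [hv]; rfl
  rw [← ha] at r1 f1
  rw [← hb] at r2
  rw [← ha, ← hb, ← hv, hv']
  have g1 : ENNReal.ofReal (W.m * ((1 / 2 : ℚ)).den) ≤ 8 * ENNReal.ofReal n := by
    rw [show (8 : ℝ≥0∞) = ENNReal.ofReal 8 by simp, ← ENNReal.ofReal_mul (by norm_num), hd]
    refine ENNReal.ofReal_le_ofReal ?_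
    push_cast
    linarith
  have g2 : ENNReal.ofReal (W.m : ℝ) ≤ 4 * ENNReal.ofReal n := by
    rw [show (4 : ℝ≥0∞) = ENNReal.ofReal 4 by simp, ← ENNReal.ofReal_mul (by norm_num)]
    exact ENNReal.ofReal_le_ofReal hmn
  have g3 : (1 : ℝ≥0∞) ≤ ENNReal.ofReal n := by
    rw [← ENNReal.ofReal_one]
    exact ENNReal.ofReal_le_ofReal (by linarith)
  have e1 : ENNReal.ofReal (25 * 10 ^ 17 * n) * (a + b + v) =
      ENNReal.ofReal (10 ^ 17) * (25 * ENNReal.ofReal n * (a + b + v)) := by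
    rw [← mul_assoc]
    congr 1
    rw [show (25 : ℝ≥0∞) = ENNReal.ofReal 25 by simp, ← ENNReal.ofReal_mul (by norm_num),
      ← ENNReal.ofReal_mul (by norm_num)]
    congr 1
    ring
  rw [e1]
  refine mul_le_mul' le_rfl ?_
  obtain ⟨L, hL⟩ : ∃ L, L = ENNReal.ofReal (n : ℝ) := ⟨_, rfl⟩
  rw [← hL] at g1 g2 g3 ⊢
  have k1 := mul_le_mul' g1 (add_le_add r1 r2)
  have k2 := mul_le_mul' g2 (le_refl v)
  have k3 : Cap.en (Cap.Rf (W.dat (1 / 2)).tm (W.dat (1 / 2)).tp ℓ) ≤ L * a := f1.trans (by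
    calc a = 1 * a := (one_mul a).symm
      _ ≤ L * a := mul_le_mul' g3 le_rfl)
  refine (add_le_add (add_le_add k1 k2) k3).trans ?_
  have e2 : 8 * L * (3 * a + 3 * b) + 4 * L * v + L * a =
      25 * (L * a) + 24 * (L * b) + 4 * (L * v) := by ring
  have e3 : 25 * L * (a + b + v) = 25 * (L * a) + 25 * (L * b) + 25 * (L * v) := by ring
  rw [e2, e3]
  gcongr <;> norm_num

/-! ### the cuts with two heights -/

/-- the outer cut -/
lemma outer26 {W : WS} (hW : W.Ok) {x : ℚ} (hx0 : 0 < x) (hx1 : x < 1) {h₁ h₂ : ℝ} (h10 : 0 < h₁)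
    (h11 : h₁ ≤ 1) (h20 : 0 < h₂) (h21 : h₂ ≤ 1) :
    ∃ (x₁ x₂ : ℚ) (g₁ g₂ : ℝ) (F : Finset ℕ) (P : ℕ → Set ℂ), 0 < x₁ ∧ x₁ < x ∧ x < x₂ ∧ x₂ < 1 ∧
      0 < g₁ ∧ g₁ ≤ h₁ ∧ 0 < g₂ ∧ g₂ ≤ h₂ ∧ (∀ i ∈ F, Bornology.IsBounded (P i)) ∧
      (∀ y : ℝ, (x₁ : ℝ) ≤ y → y ≤ x₂ → ∃ i ∈ F, W.c (2 * Real.pi * y * I) ∈ P i) ∧
      (∀ t : ℝ, 0 < t → t ≤ g₁ → ∃ i ∈ F,
        cOf ((t : ℂ) + 2 * Real.pi * (W.dat x₁).tm * I) ∈ P i) ∧
      (∀ t : ℝ, 0 < t → t ≤ g₂ → ∃ i ∈ F,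
        cOf ((t : ℂ) + 2 * Real.pi * (W.dat x₂).tp * I) ∈ P i) ∧
      (W.dat x).tm - (W.dat x₁).tm ≤ Cap.DD W.m x.den ∧
      (W.dat x₂).tp - (W.dat x).tp ≤ Cap.DD W.m x.den ∧
      ENNReal.ofReal (diam (RaySeg (W.dat x₁).tm g₁ h₁) ^ 2) ≤
        ENNReal.ofReal (2 * 10 ^ 7 * (W.m * x.den)) *
          Cap.rayE (4 * W.m * x.den) (W.dat x).tm (Cap.DD W.m x.den) h₁ ∧
      ENNReal.ofReal (diam (RaySeg (W.dat x₂).tp g₂ h₂) ^ 2) ≤
        ENNReal.ofReal (2 * 10 ^ 7 * (W.m * x.den)) *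
          Cap.rayE (4 * W.m * x.den) (W.dat x).tp (Cap.DD W.m x.den) h₂ ∧
      ENNReal.ofReal ((∑ i ∈ F, diam (P i)) ^ 2) ≤
        ENNReal.ofReal (10 ^ 16 * W.m) * volume (Cap.HH W x) := by
  obtain ⟨u, v, hn⟩ := Cap.c_nbr x hx0 hx1
  have hray := Cap.c_cutray_explicit Cap.c_leaf Cap.c_average Cap.c_dist
  obtain ⟨x₁, -, g₁, a1, a2, -, -, a3, a4, a5, -, a6, -⟩ :=
    hray W hW x u v hx0 hx1 hn h₁ h10 h11
  obtain ⟨-, x₂, g₂, -, -, b1, b2, b3, b4, -, b5, -, b6⟩ :=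
    hray W hW x u v hx0 hx1 hn h₂ h20 h21
  obtain ⟨F, P, k1, k2, ⟨i₁, hi₁, k3⟩, ⟨i₂, hi₂, k4⟩, k5⟩ :=
    Cap.c_cutgate q_gate W hW x u v x₁ x₂ hx0 hx1 hn a1 a2 b1 b2
  have hu0 : 0 < u := by
    refine lt_of_lt_of_le ?_ hn.u0
    have : (0 : ℚ) < x.den := by exact_mod_cast x.den_pos
    positivity
  have hv1 : v < 1 := by
    refine lt_of_le_of_lt hn.v1 ?_
    have : (0 : ℚ) < x.den := by exact_mod_cast x.den_pos
    have h : (0 : ℚ) < 2 / (3 * x.den) := by positivity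
    linarith
  exact ⟨x₁, x₂, g₁, g₂, F, P, hu0.trans a1, a2, b1, b2.trans hv1, a3, a4, b3, b4, k1, k2,
    fun t ht ht' => ⟨i₁, hi₁, k3 (a5 t ht ht')⟩, fun t ht ht' => ⟨i₂, hi₂, k4 (b5 t ht ht')⟩,
    (Cap.c_dist W hW x u v x₁ hx0 hx1 hn).1 a1 a2, (Cap.c_dist W hW x u v x₂ hx0 hx1 hn).2 b1 b2,
    a6, b6, k5⟩

/-- the inner cut -/
lemma inner26 {C : ℝ} (hG : ∀ W : WS, W.Ok → ∀ x₁ x₂ : ℚ, 1 / 150 < x₁ → x₁ < 1 / 100 →
      99 / 100 < x₂ → x₂ < 1 - 1 / 150 → ∃ (F : Finset ℕ) (P : ℕ → Set ℂ),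
      (∀ i ∈ F, Bornology.IsBounded (P i)) ∧
      (∀ y : ℝ, (x₁ : ℝ) ≤ y → y ≤ x₂ → ∃ i ∈ F, W.c (2 * Real.pi * y * I) ∈ P i) ∧
      (∃ i ∈ F, W.Gt x₁ (6 / (2000 * W.m * (100 : ℝ) ^ 2)) ⊆ P i) ∧
      (∃ i ∈ F, W.Gt x₂ (6 / (2000 * W.m * (100 : ℝ) ^ 2)) ⊆ P i) ∧
      ENNReal.ofReal ((∑ i ∈ F, diam (P i)) ^ 2) ≤ ENNReal.ofReal (C * W.m) * volume (HK W))
    {W : WS} (hW : W.Ok) {e e' D h₁ h₂ : ℝ} (hD : 0 ≤ D)
    (hl : ∀ y : ℚ, 0 < y → y ≤ 1 / 100 → |(W.dat y).tm - e| ≤ D)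
    (hr : ∀ y : ℚ, 99 / 100 ≤ y → y < 1 → |(W.dat y).tp - e'| ≤ D) (h10 : 0 < h₁)
    (h11 : h₁ ≤ 1) (h20 : 0 < h₂) (h21 : h₂ ≤ 1) :
    ∃ (x₁ x₂ : ℚ) (g₁ g₂ : ℝ) (F : Finset ℕ) (P : ℕ → Set ℂ), 0 < x₁ ∧ x₁ ≤ 1 / 100 ∧
      99 / 100 ≤ x₂ ∧ x₂ < 1 ∧
      0 < g₁ ∧ g₁ ≤ h₁ ∧ 0 < g₂ ∧ g₂ ≤ h₂ ∧ (∀ i ∈ F, Bornology.IsBounded (P i)) ∧
      (∀ y : ℝ, (x₁ : ℝ) ≤ y → y ≤ x₂ → ∃ i ∈ F, W.c (2 * Real.pi * y * I) ∈ P i) ∧
      (∀ t : ℝ, 0 < t → t ≤ g₁ → ∃ i ∈ F,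
        cOf ((t : ℂ) + 2 * Real.pi * (W.dat x₁).tm * I) ∈ P i) ∧
      (∀ t : ℝ, 0 < t → t ≤ g₂ → ∃ i ∈ F,
        cOf ((t : ℂ) + 2 * Real.pi * (W.dat x₂).tp * I) ∈ P i) ∧
      ENNReal.ofReal (diam (RaySeg (W.dat x₁).tm g₁ h₁) ^ 2) ≤
        ENNReal.ofReal (2 * 10 ^ 9 * W.m) * Cap.rayE (400 * W.m) e D h₁ ∧
      ENNReal.ofReal (diam (RaySeg (W.dat x₂).tp g₂ h₂) ^ 2) ≤
        ENNReal.ofReal (2 * 10 ^ 9 * W.m) * Cap.rayE (400 * W.m) e' D h₂ ∧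
      ENNReal.ofReal ((∑ i ∈ F, diam (P i)) ^ 2) ≤
        ENNReal.ofReal (C * W.m) * volume (HK W) := by
  have hm := Cnt.mpos15 hW
  have hm0 : (0 : ℝ) < W.m := by exact_mod_cast hm
  have hK : (0 : ℝ) < Cap.KC15 W.m 100 := by
    rw [Cap.KC15_cast]
    positivity
  obtain ⟨n₁, hn₁⟩ := Cap.exists_n15 hK (Cap.logb_nonneg15 h10 h11)
  obtain ⟨n₂, hn₂⟩ := Cap.exists_n15 hK (Cap.logb_nonneg15 h20 h21)
  have num1 : ((1 / 101 : ℚ)).num = 1 := by norm_num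
  have den1 : ((1 / 101 : ℚ)).den = 101 := by norm_num
  have num2 : ((1 / 102 : ℚ)).num = 1 := by norm_num
  have den2 : ((1 / 102 : ℚ)).den = 102 := by norm_num
  have num3 : ((100 / 101 : ℚ)).num = 100 := by norm_num
  have den3 : ((100 / 101 : ℚ)).den = 101 := by norm_num
  have num4 : ((101 / 102 : ℚ)).num = 101 := by norm_num
  have den4 : ((101 / 102 : ℚ)).den = 102 := by norm_num
  obtain ⟨x₁, a1, a2, a3, a4⟩ := Cap.sideC15 Cap.c_leaf Cap.c_average hW (q := 100) (by norm_num)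
    (a := 1 / 102) (b := 1 / 101) (by norm_num) (by rw [num1, num2, den1, den2]; norm_num)
    (by norm_num) (by norm_num) (by rw [den1, den2]; norm_num) h10 h11 hn₁
    (fun y => (W.dat y).tm) (fun y _ _ => Or.inl rfl) (e := e) hD
    (fun y hy1 hy2 => hl y (by linarith) (by linarith))
  obtain ⟨x₂, b1, b2, b3, b4⟩ := Cap.sideC15 Cap.c_leaf Cap.c_average hW (q := 100) (by norm_num)
    (a := 100 / 101) (b := 101 / 102) (by norm_num) (by rw [num3, num4, den3, den4]; norm_num)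
    (by norm_num) (by norm_num) (by rw [den3, den4]; norm_num) h20 h21 hn₂
    (fun y => (W.dat y).tp) (fun y _ _ => Or.inr rfl) (e := e') hD
    (fun y hy1 hy2 => hr y (by linarith) (by linarith))
  obtain ⟨F, P, k1, k2, ⟨i₁, hi₁, k3⟩, ⟨i₂, hi₂, k4⟩, k5⟩ :=
    hG W hW x₁ x₂ (by linarith) (by linarith) (by linarith) (by linarith)
  simp only [Nat.cast_ofNat] at a3 a4 b3 b4
  have e1 : (2 : ℝ) * 10 ^ 7 * (W.m * 100) = 2 * 10 ^ 9 * W.m := by ring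
  have e2 : (4 : ℝ) * W.m * 100 = 400 * W.m := by ring
  rw [e1, e2] at a4 b4
  exact ⟨x₁, x₂, h₁ / 2 ^ (Cap.KC15 W.m 100 * 3 ^ n₁), h₂ / 2 ^ (Cap.KC15 W.m 100 * 3 ^ n₂), F, P,
    by linarith, by linarith, by linarith, by linarith, by positivity,
    div_le_self h10.le (one_le_pow₀ (by norm_num)), by positivity,
    div_le_self h20.le (one_le_pow₀ (by norm_num)), k1, k2,
    fun t ht ht' => ⟨i₁, hi₁, k3 (a3 t ht ht')⟩, fun t ht ht' => ⟨i₂, hi₂, k4 (b3 t ht ht')⟩,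
    a4, b4, k5⟩

/-- the square of a sum of eight numbers -/
lemma sq8_26 {E : ℝ≥0∞} {t : Fin 8 → ℝ} {X : ℝ} (hX0 : 0 ≤ X) (hX : X ≤ ∑ i, t i)
    (ht : ∀ i, ENNReal.ofReal (t i ^ 2) ≤ E) : ENNReal.ofReal (X ^ 2) ≤ 64 * E := by
  rcases eq_or_ne E ⊤ with h | h
  · rw [h, ENNReal.mul_top (by norm_num)]
    exact le_top
  have hE : E = ENNReal.ofReal E.toReal := (ENNReal.ofReal_toReal h).symm
  have he0 : 0 ≤ E.toReal := ENNReal.toReal_nonneg
  obtain ⟨e, he⟩ : ∃ e, e = E.toReal := ⟨_, rfl⟩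
  rw [← he] at hE he0
  have h1 : ∀ i, t i ≤ √e := fun i => by
    have h2 := ht i
    rw [hE, ENNReal.ofReal_le_ofReal_iff he0] at h2
    exact Real.le_sqrt_of_sq_le h2
  have h2 : X ≤ 8 * √e := by
    refine hX.trans ((Finset.sum_le_sum fun i _ => h1 i).trans ?_)
    simp
  rw [hE, show (64 : ℝ≥0∞) = ENNReal.ofReal 64 by simp, ← ENNReal.ofReal_mul (by norm_num)]
  refine ENNReal.ofReal_le_ofReal ?_
  calc X ^ 2 ≤ (8 * √e) ^ 2 := pow_le_pow_left₀ hX0 h2 2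
    _ = 64 * e := by rw [mul_pow, Real.sq_sqrt he0]; norm_num

/-- a ray -/
lemma ray26 {N e e' D ℓ A K n : ℝ} {r : ℝ} {R T : ℝ≥0∞} (hAK : 3 * A ≤ K * n)
    (h : ENNReal.ofReal (r ^ 2) ≤ ENNReal.ofReal A * Cap.rayE N e D ℓ) (hN0 : 0 < N)
    (hN : N ≤ 100000 * lg ℓ) (hD : D + |e - e'| ≤ ℓ ^ (5 / 4 : ℝ)) (hR : R = RayE e' ℓ)
    (hT : R ≤ T) : ENNReal.ofReal (r ^ 2) ≤ ENNReal.ofReal (K * n) * T := by
  have h1 := rayE_le26 hN0 hN hD
  rw [← hR] at h1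
  calc ENNReal.ofReal (r ^ 2) ≤ ENNReal.ofReal A * Cap.rayE N e D ℓ := h
    _ ≤ ENNReal.ofReal A * (3 * T) := mul_le_mul' le_rfl (h1.trans (mul_le_mul' le_rfl hT))
    _ = ENNReal.ofReal (3 * A) * T := by
        rw [ENNReal.ofReal_mul (by norm_num), show ENNReal.ofReal 3 = 3 by simp]
        ring
    _ ≤ _ := mul_le_mul' (ENNReal.ofReal_le_ofReal hAK) le_rfl

/-- **E2** -/
theorem u_two (hG : U_gate) (hT : U_top) (hCh : U_child) : U_two := by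
  obtain ⟨C, hC0, hG⟩ := hG
  obtain ⟨K, hK⟩ : ∃ K : ℝ, K = 10 ^ 17 + 8 * C := ⟨_, rfl⟩
  refine ⟨64 * K, by rw [hK]; positivity, fun n W W' hn hTw => ?_⟩
  have h0 : (0 : ℚ) < 1 / 2 := by norm_num
  have h1 : (1 / 2 : ℚ) < 1 := by norm_num
  have hd : ((1 / 2 : ℚ)).den = 2 := by norm_num
  obtain ⟨W'', hW'', hm'', hax, hang, hchl, hdl, hdr⟩ := hCh W' hTw.ok'
  obtain ⟨U, hU⟩ : ∃ U, U = W.dat (1 / 2) := ⟨_, rfl⟩
  obtain ⟨V, hV⟩ : ∃ V, V = W'.dat (1 / 2) := ⟨_, rfl⟩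
  have hUP : U.Par := hU ▸ WS.dat_par hTw.ok h0 h1
  have hUC : U.Cir := hU ▸ WS.dat_cir hTw.ok h0 h1
  have hVP : V.Par := hV ▸ WS.dat_par hTw.ok' h0 h1
  have hVC : V.Cir := hV ▸ WS.dat_cir hTw.ok' h0 h1
  have hUV1 := hTw.left
  have hUV2 := hTw.right
  rw [← hU, ← hV] at hUV1 hUV2
  have hmem := Cap.nest_of_arc hUP hUC hVP hVC hUV1 hUV2
  have hsub : Lm V ⊆ Lm U := (subset_insert _ _).trans (limb_sub hUP hUC hVP hVC hmem)
  have hpre := Cap.c_pre U V hUP hUC hVP hVC hsub hmem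
  -- numbers
  have hmn := hTw.le
  have hmn' := hTw.lt'
  have hmm := hTw.le'
  have hmn2 := hTw.lt
  have hnR : (4000 : ℝ) ≤ n := by exact_mod_cast hn
  have hmnR : (W.m : ℝ) ≤ 4 * n := by exact_mod_cast hmn
  have hmmR : (W'.m : ℝ) ≤ W.m := by exact_mod_cast hmm.le
  have hm1 : 1 ≤ W'.m := by omega
  have hm1R : (1 : ℝ) ≤ W'.m := by exact_mod_cast hm1
  have hm2R : (W''.m : ℝ) = 2 * W'.m := by rw [hm'']; push_cast; ring
  -- the two lengths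
  obtain ⟨p1, p2⟩ := per26 hTw.ok
  obtain ⟨q1, q2⟩ := per26 hTw.ok'
  rw [← hU] at p1 p2
  rw [← hV] at q1 q2
  obtain ⟨l₁, hl₁⟩ : ∃ l, l = V.tm - U.tm := ⟨_, rfl⟩
  obtain ⟨l₂, hl₂⟩ : ∃ l, l = U.tp - V.tp := ⟨_, rfl⟩
  have hlen1 := hTw.len
  have hlen2 := hTw.len'
  rw [← hU, ← hV, ← hl₁] at hlen1
  rw [← hU, ← hV, ← hl₂] at hlen2
  have hpos1 : 0 < l₁ := by rw [hl₁]; linarith
  have hpos2 : 0 < l₂ := by rw [hl₂]; linarith
  have h11 := le_one26 hlen1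
  have h21 := le_one26 hlen2
  have hlg1 := lg26 hpos1 hn hlen1
  have hlg2 := lg26 hpos2 hn hlen2
  have hlow1 : (1 / 2) ^ (2 * W.m + 2 * W'.m) ≤ l₁ := by
    rw [hl₁]
    exact arc26 (by omega) (by omega) p1 q1 hUV1
  have hlow2 : (1 / 2) ^ (2 * W.m + 2 * W'.m) ≤ l₂ := by
    rw [hl₂, add_comm]
    exact arc26 (by omega) (by omega) q2 p2 hUV2
  have hDD1 : Cap.DD W.m 2 ≤ l₁ ^ (5 / 4 : ℝ) := by
    rw [DD26]
    exact pow26 hlow1 (by omega)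
  have hDD2 : Cap.DD W.m 2 ≤ l₂ ^ (5 / 4 : ℝ) := by
    rw [DD26]
    exact pow26 hlow2 (by omega)
  -- the distance of the inner cut
  obtain ⟨D, hDdef⟩ : ∃ D : ℝ, D = 1 / (2 ^ (99 * W''.m) - 1) := ⟨_, rfl⟩
  have hD2 : D ≤ 2 * (1 / 2) ^ (99 * W''.m) := by
    have h2 : (2 : ℝ) ≤ 2 ^ (99 * W''.m) := by
      calc (2 : ℝ) = 2 ^ 1 := by norm_num
        _ ≤ 2 ^ (99 * W''.m) := pow_le_pow_right₀ (by norm_num) (by omega)
    rw [hDdef, one_div_pow, div_le_iff₀ (by linarith), ← mul_div_assoc, mul_one,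
      div_mul_eq_mul_div, le_div_iff₀ (by positivity)]
    linarith
  have hD0 : 0 ≤ D := by
    have h2 : (1 : ℝ) < 2 ^ (99 * W''.m) := one_lt_pow₀ (by norm_num) (by omega)
    rw [hDdef]
    have : (0 : ℝ) < 2 ^ (99 * W''.m) - 1 := by linarith
    positivity
  have hDl1 : D ≤ l₁ ^ (5 / 4 : ℝ) := hD2.trans (pow26 hlow1 (by omega))
  have hDl2 : D ≤ l₂ ^ (5 / 4 : ℝ) := hD2.trans (pow26 hlow2 (by omega))
  have hr1 := rpow_le26 hpos1 h11
  have hr2 := rpow_le26 hpos2 h21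
  rw [← hV, ← hDdef] at hdl hdr
  rw [← hV] at hax hang hchl
  -- the cuts
  obtain ⟨x₁, x₂, g₁, g₂, F, P, a1, a2, a3, a4, a5, a6, a7, a8, a9, a10, a11, a12, a13, a14, a15,
    a16, a17⟩ := outer26 hTw.ok h0 h1 hpos1 h11 hpos2 h21
  obtain ⟨y₁, y₂, k₁, k₂, F', P', b1, b2, b3, b4, b5, b6, b7, b8, b9, b10, b11, b12, b13, b14,
    b15⟩ := inner26 hG hW'' (e := V.tm) (e' := V.tp) hD0
      (fun y hy0 hy1 => by
        have h2 := (hang y hy0 (by linarith)).1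
        rw [abs_of_pos (by linarith)]
        exact hdl y hy0 hy1)
      (fun y hy0 hy1 => by
        have h2 := (hang y (by linarith) hy1).2
        rw [abs_sub_comm, abs_of_pos (by linarith)]
        exact hdr y hy0 hy1) hpos1 h11 hpos2 h21
  rw [hd, ← hU] at a13 a14 a15 a16
  have hy1 : y₁ < 1 := by linarith
  have hy2 : 0 < y₂ := by linarith
  have c1 := (hang y₁ b1 hy1).1
  have c2 := (hang y₂ hy2 b4).2
  have c3 := hdl y₁ b1 b2
  have c4 := hdr y₂ b3 b4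
  have c5 : (W.dat x₁).tm ≤ U.tm := hU ▸ WS.tm_mono hTw.ok a1 a2.le h1
  have c6 : U.tp ≤ (W.dat x₂).tp := hU ▸ WS.tp_mono hTw.ok h0 a3.le a4
  -- the topology
  have h2 := hT W W'' hTw.ok hW'' V (1 / 2) x₁ x₂ y₁ y₂ hVP hVC a1 a2 a3 a4 b1 (by linarith) b4
    (by rw [← hU]; exact hsub) hax (by rw [← hU]; exact hUV1.le) c1.le c2.le
    (by rw [← hU]; exact hUV2.le) (by rw [← hU]; exact hpre) g₁ g₂ k₁ k₂ l₁ l₂ a5 a6 a7 a8 b5 b6
    b7 b8 (ℕ ⊕ ℕ) (F.disjSum F') (Sum.elim P P') ?_ ?_ ?_ ?_ ?_ ?_ ?_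
  rotate_left
  · intro i hi
    rcases i with i | i
    · exact a9 i (Finset.inl_mem_disjSum.1 hi)
    · exact b9 i (Finset.inr_mem_disjSum.1 hi)
  · intro y h1 h2
    obtain ⟨i, hi, h3⟩ := a10 y h1 h2
    exact ⟨Sum.inl i, Finset.inl_mem_disjSum.2 hi, h3⟩
  · intro y h1 h2
    obtain ⟨i, hi, h3⟩ := a11 y h1 h2
    exact ⟨Sum.inl i, Finset.inl_mem_disjSum.2 hi, h3⟩
  · intro y h1 h2
    obtain ⟨i, hi, h3⟩ := a12 y h1 h2
    exact ⟨Sum.inl i, Finset.inl_mem_disjSum.2 hi, h3⟩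
  · intro y h1 h2
    obtain ⟨i, hi, h3⟩ := b10 y h1 h2
    exact ⟨Sum.inr i, Finset.inr_mem_disjSum.2 hi, h3⟩
  · intro y h1 h2
    obtain ⟨i, hi, h3⟩ := b11 y h1 h2
    exact ⟨Sum.inr i, Finset.inr_mem_disjSum.2 hi, h3⟩
  · intro y h1 h2
    obtain ⟨i, hi, h3⟩ := b12 y h1 h2
    exact ⟨Sum.inr i, Finset.inr_mem_disjSum.2 hi, h3⟩
  have hsum : ∑ i ∈ F.disjSum F', diam ((Sum.elim P P') i) =
      ∑ i ∈ F, diam (P i) + ∑ i ∈ F', diam (P' i) := by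
    rw [Finset.sum_disjSum]
    rfl
  rw [hsum] at h2
  -- the roofs
  have r1 := Cap.c_roof (W.dat x₁).tm (W''.dat y₁).tm l₁ hpos1 h11 (by linarith) (by linarith)
  have r2 := Cap.c_roof (W''.dat y₂).tp (W.dat x₂).tp l₂ hpos2 h21 (by linarith) (by linarith)
  have r3 : Cap.en (Cap.Rf ((W.dat x₁).tm + l₁) ((W''.dat y₁).tm - l₁) l₁) ≤ RayE U.tm l₁ := by
    refine (Cap.en_mono fun z hz => ?_).trans
      (Cap.roofE_le (s := U.tm) (t := V.tm) hpos1 (by linarith) le_rfl (by linarith))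
    obtain ⟨z1, z2, z3, z4⟩ := hz
    exact ⟨z1, z2, by linarith, by linarith⟩
  have r4 : Cap.en (Cap.Rf ((W''.dat y₂).tp + l₂) ((W.dat x₂).tp - l₂) l₂) ≤ RayE V.tp l₂ := by
    refine (Cap.en_mono fun z hz => ?_).trans
      (Cap.roofE_le (s := V.tp) (t := U.tp) hpos2 (by linarith) le_rfl (by linarith))
    obtain ⟨z1, z2, z3, z4⟩ := hz
    exact ⟨z1, z2, by linarith, by linarith⟩
  refine ⟨W'', hW'', hm'', by rw [← hV]; exact (hang _ h0 h1).1, by rw [← hV, ← hm'']; exact hchl,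
    ?_⟩
  rw [← hU, ← hV, ← hl₁, ← hl₂]
  obtain ⟨R₁, hR₁⟩ : ∃ a, a = RayE U.tm l₁ := ⟨_, rfl⟩
  obtain ⟨R₂, hR₂⟩ : ∃ a, a = RayE V.tm l₁ := ⟨_, rfl⟩
  obtain ⟨R₃, hR₃⟩ : ∃ a, a = RayE V.tp l₂ := ⟨_, rfl⟩
  obtain ⟨R₄, hR₄⟩ : ∃ a, a = RayE U.tp l₂ := ⟨_, rfl⟩
  obtain ⟨v, hv⟩ : ∃ v, v = volume (Hd W (1 / 2)) := ⟨_, rfl⟩
  obtain ⟨v', hv'⟩ : ∃ v, v = volume (HK W'') := ⟨_, rfl⟩
  have hvH : volume (Cap.HH W (1 / 2)) = v := by rw [hv]; rfl
  rw [← hR₁, ← hR₂, ← hR₃, ← hR₄, ← hv, ← hv']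
  rw [hvH] at a17
  rw [← hv'] at b15
  rw [← hR₁] at r3
  rw [← hR₃] at r4
  obtain ⟨T, hTd⟩ : ∃ T, T = R₁ + R₂ + R₃ + R₄ + v + v' := ⟨_, rfl⟩
  rw [← hTd]
  have t1 : R₁ ≤ T := by rw [hTd]; simp only [add_assoc]; exact le_self_add
  have t2 : R₂ ≤ T := by
    rw [hTd]
    calc R₂ ≤ R₂ + (R₁ + R₃ + R₄ + v + v') := le_self_add
      _ = _ := by ring
  have t3 : R₃ ≤ T := by
    rw [hTd]
    calc R₃ ≤ R₃ + (R₁ + R₂ + R₄ + v + v') := le_self_add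
      _ = _ := by ring
  have t4 : R₄ ≤ T := by
    rw [hTd]
    calc R₄ ≤ R₄ + (R₁ + R₂ + R₃ + v + v') := le_self_add
      _ = _ := by ring
  have t5 : v ≤ T := by
    rw [hTd]
    calc v ≤ v + (R₁ + R₂ + R₃ + R₄ + v') := le_self_add
      _ = _ := by ring
  have t6 : v' ≤ T := by
    rw [hTd]
    calc v' ≤ v' + (R₁ + R₂ + R₃ + R₄ + v) := le_self_add
      _ = _ := by ring
  have hKn : (10 : ℝ) ^ 17 * n + 8 * C * n = K * n := by rw [hK]; ring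
  have hCn : 0 ≤ C * n := by positivity
  have hfin : ENNReal.ofReal (64 * K * n) * T = 64 * (ENNReal.ofReal (K * n) * T) := by
    rw [mul_assoc, ENNReal.ofReal_mul (by norm_num), mul_assoc]
    congr 1
    simp
  rw [hfin]
  refine sq8_26 (t := ![diam (RaySeg (W.dat x₁).tm g₁ l₁), diam (RaySeg (W.dat x₂).tp g₂ l₂),
    diam (RaySeg (W''.dat y₁).tm k₁ l₁), diam (RaySeg (W''.dat y₂).tp k₂ l₂),
    diam (RoofH l₁ (W.dat x₁).tm (W''.dat y₁).tm), diam (RoofH l₂ (W''.dat y₂).tp (W.dat x₂).tp),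
    ∑ i ∈ F, diam (P i), ∑ i ∈ F', diam (P' i)]) diam_nonneg ?_ ?_
  · rw [hU]
    refine h2.trans (le_of_eq ?_)
    simp [Fin.sum_univ_succ]
    ring
  · have hroof : ∀ R : ℝ≥0∞, R ≤ T → (10 : ℝ≥0∞) ^ 5 * R ≤ ENNReal.ofReal (K * n) * T := by
      intro R hR
      refine mul_le_mul' ?_ hR
      rw [show (10 : ℝ≥0∞) ^ 5 = ENNReal.ofReal (10 ^ 5) by norm_num]
      refine ENNReal.ofReal_le_ofReal ?_
      linarith
    intro i
    fin_cases i
    · refine ray26 (e' := U.tm) ?_ a15 (by push_cast; linarith) ?_ ?_ hR₁ t1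
      · push_cast
        linarith
      · push_cast
        linarith
      · rw [sub_self, abs_zero, add_zero]
        exact hDD1
    · refine ray26 (e' := U.tp) ?_ a16 (by push_cast; linarith) ?_ ?_ hR₄ t4
      · push_cast
        linarith
      · push_cast
        linarith
      · rw [sub_self, abs_zero, add_zero]
        exact hDD2
    · refine ray26 (e' := V.tm) ?_ b13 (by rw [hm2R]; linarith) ?_ ?_ hR₂ t2
      · rw [hm2R]
        linarith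
      · rw [hm2R]
        linarith
      · rw [sub_self, abs_zero, add_zero]
        exact hDl1
    · refine ray26 (e' := V.tp) ?_ b14 (by rw [hm2R]; linarith) ?_ ?_ hR₃ t3
      · rw [hm2R]
        linarith
      · rw [hm2R]
        linarith
      · rw [sub_self, abs_zero, add_zero]
        exact hDl2
    · exact r1.trans (hroof _ (r3.trans t1))
    · exact r2.trans (hroof _ (r4.trans t3))
    · refine a17.trans (mul_le_mul' (ENNReal.ofReal_le_ofReal ?_) t5)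
      linarith
    · refine b15.trans (mul_le_mul' (ENNReal.ofReal_le_ofReal ?_) t6)
      rw [hm2R]
      have h3 : C * W'.m ≤ C * (4 * n) := mul_le_mul_of_nonneg_left (by linarith) hC0.le
      linarith

end Pool.Agent.Work.MLC.Uni
end

section
set_option autoImplicit false

/-! # Theorem U: the enclosure of a piece with two arcs, with two heights (helper26, after CapT49 of
helper49)

The region is the one of `CapT49` at the height `min h₁ h₂` together with the exterior parts over the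
left arc up to `h₁` and over the right arc up to `h₂`. -/

namespace Pool.Agent.Work.MLC.Uni

open Filter Topology Metric Set Complex MeasureTheory
open Pool.Agent.Work.MLC.Sat Pool.Agent.Work.MLC.Cnt
open Pool.Agent.Work.MLC.Cap (KP)
open Pool.Agent.Work.MLC.Cap.T49

namespace X26

/-- exterior parts over different arcs are disjoint -/
lemma disj_Ext {a b c d h h' : ℝ} (hbc : b ≤ c) (had : d ≤ a + 1) {z : ℂ}
    (h1 : z ∈ T60.Ext a b h) (h2 : z ∈ T60.Ext c d h') : False := by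
  obtain ⟨θ, hθ, h3, h4⟩ := T60.ang_Ext h1
  obtain ⟨θ', hθ', h5, h6⟩ := T60.ang_Ext h2
  obtain ⟨k, hk⟩ := hθ.unique hθ'
  have h7 : (0 : ℝ) < k := by linarith
  have h8 : (k : ℝ) < 1 := by linarith
  have h9 : 0 < k := by exact_mod_cast h7
  have h10 : k < 1 := by exact_mod_cast h8
  omega

/-- a point of `MM` in the closure of the exterior part is a limit of points of small potential -/
lemma low_Ext {s t h h' : ℝ} (hh : 0 < h) {z : ℂ} (hM : z ∈ MM)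
    (hz : z ∈ closure (T60.Ext s t h')) : z ∈ closure (T60.Ext s t h) := by
  rw [mem_closure_iff_frequently] at hz ⊢
  have hG : ∀ᶠ c in 𝓝 z, G c c < h := by
    refine (continuous_G_diag.tendsto z).eventually (eventually_lt_nhds ?_)
    rw [mem_M_iff'.1 hM]; exact hh
  refine (hz.and_eventually hG).mono ?_
  rintro c ⟨⟨w, hw, rfl⟩, h2⟩
  rw [G_cOf hw.1] at h2
  exact ⟨w, ⟨hw.1, h2, hw.2.2.1, hw.2.2.2⟩, rfl⟩

lemma bounded_Ext (s t h : ℝ) : Bornology.IsBounded (T60.Ext s t h) := by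
  refine ((isCompact_G_diag_le h).isBounded).subset ?_
  rintro c ⟨z, hz, rfl⟩
  show G (cOf z) (cOf z) ≤ _
  rw [G_cOf hz.1]; exact hz.2.1.le

lemma mono_Ext {s t s' t' h h' : ℝ} (hs : s' ≤ s) (ht : t ≤ t') (hh : h ≤ h') :
    T60.Ext s t h ⊆ T60.Ext s' t' h' := by
  have hpi := Real.two_pi_pos
  rintro c ⟨w, hw, rfl⟩
  refine ⟨w, ⟨hw.1, hw.2.1.trans_le hh, lt_of_le_of_lt ?_ hw.2.2.1, lt_of_lt_of_le hw.2.2.2 ?_⟩,
    rfl⟩
  · exact mul_le_mul_of_nonneg_left hs hpi.le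
  · exact mul_le_mul_of_nonneg_left ht hpi.le

/-- the frontier of the difference of the regions (from `Cap.c_top2`) -/
theorem frontier_diff {W W' : WS} (hW : W.Ok) (hW' : W'.Ok) {x₁ x₂ x₁' x₂' : ℚ} (h0 : 0 < x₁)
    (h12 : x₁ < x₂) (h1 : x₂ < 1) (h0' : 0 < x₁') (h12' : x₁' < x₂') (h1' : x₂' < 1) {h : ℝ}
    (hh : 0 < h) {z : ℂ}
    (hz : z ∈ frontier (T60.Reg W x₁ x₂ h \ closure (T60.Reg W' x₁' x₂' h))) :
    (∃ u : ℝ, 0 < u ∧ u ≤ h ∧ (z = cOf ((u : ℂ) + 2 * Real.pi * (W.dat x₁).tm * I) ∨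
      z = cOf ((u : ℂ) + 2 * Real.pi * (W.dat x₂).tp * I) ∨
      z = cOf ((u : ℂ) + 2 * Real.pi * (W'.dat x₁').tm * I) ∨
      z = cOf ((u : ℂ) + 2 * Real.pi * (W'.dat x₂').tp * I))) ∨
    z ∈ RoofH h (W.dat x₁).tm (W'.dat x₁').tm ∨ z ∈ RoofH h (W'.dat x₂').tp (W.dat x₂).tp ∨
    (∃ y : ℝ, (x₁ : ℝ) ≤ y ∧ y ≤ x₂ ∧ z = W.c (2 * Real.pi * y * I)) ∨
    ∃ y : ℝ, (x₁' : ℝ) ≤ y ∧ y ≤ x₂' ∧ z = W'.c (2 * Real.pi * y * I) := by
  set A : Set ℂ := T60.Reg W x₁ x₂ h with hA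
  set B : Set ℂ := T60.Reg W' x₁' x₂' h with hB
  set s : ℝ := (W.dat x₁).tm with hs
  set t : ℝ := (W.dat x₂).tp with ht
  set s' : ℝ := (W'.dat x₁').tm with hs'
  set t' : ℝ := (W'.dat x₂').tp with ht'
  have hzc : z ∈ closure (A \ closure B) := frontier_subset_closure hz
  have hz2 : z ∈ frontier A ∨ z ∈ frontier B := by
    rw [sdiff_eq] at hz
    rcases frontier_inter_subset _ _ hz with h2 | h2
    · exact Or.inl h2.1
    · right
      rw [frontier_compl] at h2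
      exact frontier_closure_subset h2.2
  rcases hz2 with hz2 | hz2
  · rcases T60.frontier_Reg hW h0 h12 h1 hh hz2 with ⟨u, hu0, huh, h3 | h3⟩ | h3 | h3
    · exact Or.inl ⟨u, hu0, huh, Or.inl h3⟩
    · exact Or.inl ⟨u, hu0, huh, Or.inr (Or.inl h3)⟩
    · obtain ⟨u, ⟨hu1, hu2⟩, h3⟩ := h3
      rcases le_or_gt u s' with h4 | h4
      · exact Or.inr (Or.inl ⟨u, ⟨hu1, h4⟩, h3⟩)
      rcases le_or_gt t' u with h5 | h5
      · exact Or.inr (Or.inr (Or.inl ⟨u, ⟨h5, hu2⟩, h3⟩))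
      rw [← h3] at hzc
      exact absurd hzc (roof_notMem hh h4 h5)
    · exact Or.inr (Or.inr (Or.inr (Or.inl h3)))
  · rcases T60.frontier_Reg hW' h0' h12' h1' hh hz2 with ⟨u, hu0, huh, h3 | h3⟩ | h3 | h3
    · exact Or.inl ⟨u, hu0, huh, Or.inr (Or.inr (Or.inl h3))⟩
    · exact Or.inl ⟨u, hu0, huh, Or.inr (Or.inr (Or.inr h3))⟩
    · obtain ⟨u, ⟨hu1, hu2⟩, h3⟩ := h3
      rcases hu1.eq_or_lt with h4 | h4
      · exact Or.inl ⟨h, hh, le_rfl, Or.inr (Or.inr (Or.inl (by rw [← h3, ← h4])))⟩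
      rcases hu2.eq_or_lt with h5 | h5
      · exact Or.inl ⟨h, hh, le_rfl, Or.inr (Or.inr (Or.inr (by rw [← h3, h5])))⟩
      rw [← h3] at hzc
      exact absurd hzc (roof_notMem hh h4 h5)
    · exact Or.inr (Or.inr (Or.inr (Or.inr h3)))

/-- the arc between two plateaus is shorter than one -/
lemma lt_one {W : WS} (hW : W.Ok) {x₁ x₂ : ℚ} (h0 : 0 < x₁) (h11 : x₁ < 1) (h20 : 0 < x₂)
    (h1 : x₂ < 1) : (W.dat x₂).tp < (W.dat x₁).tm + 1 := by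
  by_contra hcon
  push Not at hcon
  have a1 := (WS.plateau hW h0 h11 (W.dat x₁).tm).2 ⟨le_rfl, (WS.dat_cir hW h0 h11).lt.le⟩
  have a2 := (WS.plateau hW h20 h1 (W.dat x₂).tp).2 ⟨(WS.dat_cir hW h20 h1).lt.le, le_rfl⟩
  unfold WS.nu at a1 a2
  have b1 : (0 : ℝ) < x₁ := by exact_mod_cast h0
  have b2 : (x₂ : ℝ) < 1 := by exact_mod_cast h1
  have h3 := s2_width W.m W.w (W.dat x₁).tm W.k hW.wide.pos hW.wide.bits (by linarith)
  have h4 := Circ.nu_mono W.w W.m hcon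
  linarith

end X26

open X26 in
/-- **T2'** -/
theorem u_top : U_top := by
  intro W W' hW hW' V x x₁ x₂ x₁' x₂' hVP hVC h0 hx1 hx2 h1 h0' h12' h1' hsub hax' hU1 hU2 hU3 hU4
    hK g₁ g₂ g₁' g₂' h₁ h₂ hg₁ hgh₁ hg₂ hgh₂ hg₁' hgh₁' hg₂' hgh₂' κ F P hPb hax hr1 hr2 haxI hr1'
    hr2'
  have hh₁ : 0 < h₁ := hg₁.trans_le hgh₁
  have hh₂ : 0 < h₂ := hg₂.trans_le hgh₂
  have h12 : x₁ < x₂ := hx1.trans hx2
  have hx0 : 0 < x := h0.trans hx1
  have hxl : x < 1 := hx2.trans h1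
  obtain ⟨h, hhd⟩ : ∃ h, h = min h₁ h₂ := ⟨_, rfl⟩
  have hh : 0 < h := hhd ▸ lt_min hh₁ hh₂
  have hl1 : h ≤ h₁ := hhd ▸ min_le_left _ _
  have hl2 : h ≤ h₂ := hhd ▸ min_le_right _ _
  have hst1 := lt_one hW h0 (hx1.trans hxl) (hx0.trans hx2) h1
  have hss := (T60.ends hW h0 h1 hx1.le hx2.le).1
  have htt := (T60.ends hW h0 h1 hx1.le hx2.le).2
  have hst' : (W'.dat x₁').tm < (W'.dat x₂').tp :=
    lt_of_le_of_lt (T60.ends hW' h0' h1' le_rfl h12'.le).1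
      (lt_of_lt_of_le (WS.dat_cir hW' h0' (h12'.trans h1')).lt
        (T60.ends hW' h0' h1' le_rfl h12'.le).2)
  set s : ℝ := (W.dat x₁).tm with hs
  set t : ℝ := (W.dat x₂).tp with ht
  set s' : ℝ := (W'.dat x₁').tm with hs'
  set t' : ℝ := (W'.dat x₂').tp with ht'
  have hss' : s ≤ s' := by linarith
  have htt' : t' ≤ t := by linarith
  have hrayb : ∀ t g h : ℝ, 0 < g → Bornology.IsBounded (RaySeg t g h) := by
    intro t g h hg
    have hc : ContinuousOn (fun u : ℝ => cOf ((u : ℂ) + 2 * Real.pi * t * I)) (Icc g h) := by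
      refine continuousOn_cOf.comp (by fun_prop) fun u hu => ?_
      show 0 < ((u : ℂ) + 2 * Real.pi * t * I).re
      rw [CH.re_pt]; exact hg.trans_le hu.1
    exact (isCompact_Icc.image_of_continuousOn hc).isBounded
  have hroofb : ∀ h s t : ℝ, 0 < h → Bornology.IsBounded (RoofH h s t) := by
    intro h s t hh
    have hc : ContinuousOn (fun u : ℝ => cOf ((h : ℂ) + 2 * Real.pi * u * I)) (Icc s t) := by
      refine continuousOn_cOf.comp (by fun_prop) fun u hu => ?_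
      show 0 < ((h : ℂ) + 2 * Real.pi * u * I).re
      rw [CH.re_pt]; exact hh
    exact (isCompact_Icc.image_of_continuousOn hc).isBounded
  set F' : Finset (κ ⊕ Fin 6) := F.disjSum Finset.univ with hF'
  set P' : κ ⊕ Fin 6 → Set ℂ :=
    Sum.elim P ![RaySeg s g₁ h₁, RaySeg t g₂ h₂, RaySeg s' g₁' h₁, RaySeg t' g₂' h₂,
      RoofH h₁ s s', RoofH h₂ t' t] with hP'
  have hsum : ∑ i ∈ F', diam (P' i) = diam (RaySeg s g₁ h₁) + diam (RaySeg t g₂ h₂) +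
      diam (RaySeg s' g₁' h₁) + diam (RaySeg t' g₂' h₂) +
      diam (RoofH h₁ s s') + diam (RoofH h₂ t' t) + ∑ i ∈ F, diam (P i) := by
    rw [hF', Finset.sum_disjSum, Fin.sum_univ_six]
    simp [hP']
    ring
  have hin : ∀ z : ℂ, (∃ i ∈ F, z ∈ P i) → z ∈ ⋃ i ∈ F', P' i := by
    rintro z ⟨i, hi, hz⟩
    rw [mem_iUnion₂]
    exact ⟨Sum.inl i, by simp [hF', hi], hz⟩
  have hin' : ∀ (z : ℂ) (j : Fin 6), z ∈ P' (Sum.inr j) → z ∈ ⋃ i ∈ F', P' i := by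
    intro z j hz
    rw [mem_iUnion₂]
    exact ⟨Sum.inr j, by simp [hF'], hz⟩
  -- the rays
  have ray1 : ∀ u : ℝ, 0 < u → u ≤ h₁ → cOf ((u : ℂ) + 2 * Real.pi * s * I) ∈ ⋃ i ∈ F', P' i := by
    intro u hu0 huh
    rcases le_or_gt u g₁ with h4 | h4
    · exact hin _ (hr1 u hu0 h4)
    · exact hin' _ 0 ⟨u, ⟨h4.le, huh⟩, rfl⟩
  have ray2 : ∀ u : ℝ, 0 < u → u ≤ h₂ → cOf ((u : ℂ) + 2 * Real.pi * t * I) ∈ ⋃ i ∈ F', P' i := by
    intro u hu0 huh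
    rcases le_or_gt u g₂ with h4 | h4
    · exact hin _ (hr2 u hu0 h4)
    · exact hin' _ 1 ⟨u, ⟨h4.le, huh⟩, rfl⟩
  have ray3 : ∀ u : ℝ, 0 < u → u ≤ h₁ → cOf ((u : ℂ) + 2 * Real.pi * s' * I) ∈ ⋃ i ∈ F', P' i := by
    intro u hu0 huh
    rcases le_or_gt u g₁' with h4 | h4
    · exact hin _ (hr1' u hu0 h4)
    · exact hin' _ 2 ⟨u, ⟨h4.le, huh⟩, rfl⟩
  have ray4 : ∀ u : ℝ, 0 < u → u ≤ h₂ → cOf ((u : ℂ) + 2 * Real.pi * t' * I) ∈ ⋃ i ∈ F', P' i := by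
    intro u hu0 huh
    rcases le_or_gt u g₂' with h4 | h4
    · exact hin _ (hr2' u hu0 h4)
    · exact hin' _ 3 ⟨u, ⟨h4.le, huh⟩, rfl⟩
  set A : Set ℂ := T60.Reg W x₁ x₂ h with hA
  set B : Set ℂ := T60.Reg W' x₁' x₂' h with hB
  set E₁ : Set ℂ := T60.Ext s s' h₁ with hE₁
  set E₂ : Set ℂ := T60.Ext t' t h₂ with hE₂
  set Q : Set ℂ := (A \ closure B) ∪ E₁ ∪ E₂ with hQ
  -- the exterior parts of low height are in the difference
  have hlow : ∀ a b : ℝ, s ≤ a → b ≤ t → (b ≤ s' ∨ t' ≤ a) →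
      T60.Ext a b h ⊆ A \ closure B := by
    intro a b ha hb hab c hc
    refine ⟨Or.inl (mono_Ext ha hb le_rfl hc), fun hcB => ?_⟩
    obtain ⟨d, hd1, hd2⟩ := mem_closure_iff_nhds.1 hcB _ ((T60.isOpen_Ext a b h).mem_nhds hc)
    rcases hd2 with hd2 | ⟨y, -, -, hy⟩
    · rcases hab with h2 | h2
      · exact disj_Ext h2 (by linarith) hd1 hd2
      · exact disj_Ext h2 (by linarith) hd2 hd1
    · obtain ⟨w, hw, rfl⟩ := hd1
      have h4 := mem_M_iff'.1 hy.1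
      rw [G_cOf hw.1] at h4
      linarith [hw.1]
  have hfr : frontier Q ⊆ ⋃ i ∈ F', P' i := by
    intro z hz
    have hzc : z ∈ closure Q := frontier_subset_closure hz
    have hzi : z ∉ interior Q := hz.2
    have n1 : z ∉ interior (A \ closure B) := fun h2 =>
      hzi (interior_mono (subset_union_left.trans subset_union_left) h2)
    have n2 : z ∉ E₁ := fun h2 => hzi (interior_maximal
      (subset_union_right.trans subset_union_left) (T60.isOpen_Ext _ _ _) h2)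
    have n3 : z ∉ E₂ := fun h2 => hzi (interior_maximal
      subset_union_right (T60.isOpen_Ext _ _ _) h2)
    have key : z ∈ closure (A \ closure B) → z ∈ ⋃ i ∈ F', P' i := by
      intro h2
      rcases frontier_diff hW hW' h0 h12 h1 h0' h12' h1' hh ⟨h2, n1⟩ with
        ⟨u, hu0, huh, h3 | h3 | h3 | h3⟩ | ⟨u, ⟨hu1, hu2⟩, h3⟩ | ⟨u, ⟨hu1, hu2⟩, h3⟩ |
        ⟨y, hy1, hy2, h3⟩ | ⟨y, hy1, hy2, h3⟩
      · rw [h3]; exact ray1 u hu0 (huh.trans hl1)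
      · rw [h3]; exact ray2 u hu0 (huh.trans hl2)
      · rw [h3]; exact ray3 u hu0 (huh.trans hl1)
      · rw [h3]; exact ray4 u hu0 (huh.trans hl2)
      · rcases hu1.eq_or_lt with h4 | h4
        · rw [← h3, ← h4]; exact ray1 h hh hl1
        rcases hu2.eq_or_lt with h5 | h5
        · rw [← h3, h5]; exact ray3 h hh hl1
        rcases hl1.eq_or_lt with h6 | h6
        · exact hin' z 4 ⟨u, ⟨hu1, hu2⟩, by rw [← h6]; exact h3⟩
        · exfalso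
          refine n2 ⟨(h : ℂ) + 2 * Real.pi * u * I, ⟨?_, ?_, ?_, ?_⟩, h3⟩
          · rw [CH.re_pt]; exact hh
          · rw [CH.re_pt]; exact h6
          · rw [CH.im_pt]; exact mul_lt_mul_of_pos_left h4 Real.two_pi_pos
          · rw [CH.im_pt]; exact mul_lt_mul_of_pos_left h5 Real.two_pi_pos
      · rcases hu1.eq_or_lt with h4 | h4
        · rw [← h3, ← h4]; exact ray4 h hh hl2
        rcases hu2.eq_or_lt with h5 | h5
        · rw [← h3, h5]; exact ray2 h hh hl2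
        rcases hl2.eq_or_lt with h6 | h6
        · exact hin' z 5 ⟨u, ⟨hu1, hu2⟩, by rw [← h6]; exact h3⟩
        · exfalso
          refine n3 ⟨(h : ℂ) + 2 * Real.pi * u * I, ⟨?_, ?_, ?_, ?_⟩, h3⟩
          · rw [CH.re_pt]; exact hh
          · rw [CH.re_pt]; exact h6
          · rw [CH.im_pt]; exact mul_lt_mul_of_pos_left h4 Real.two_pi_pos
          · rw [CH.im_pt]; exact mul_lt_mul_of_pos_left h5 Real.two_pi_pos
      · rw [h3]; exact hin _ (hax y hy1 hy2)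
      · rw [h3]; exact hin _ (haxI y hy1 hy2)
    rw [hQ, closure_union, closure_union] at hzc
    by_cases hM : z ∈ MM
    · rcases hzc with (h2 | h2) | h2
      · exact key h2
      · exact key (closure_mono (hlow s s' le_rfl (by linarith) (Or.inl le_rfl))
          (low_Ext hh hM h2))
      · exact key (closure_mono (hlow t' t (by linarith) le_rfl (Or.inr le_rfl))
          (low_Ext hh hM h2))
    · rcases hzc with (h2 | h2) | h2
      · exact key h2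
      · rcases T60.frontier_Ext hM h2 n2 with ⟨u, hu0, huh, h3 | h3⟩ | h3
        · rw [h3]; exact ray1 u hu0 huh
        · rw [h3]; exact ray3 u hu0 huh
        · exact hin' z 4 h3
      · rcases T60.frontier_Ext hM h2 n3 with ⟨u, hu0, huh, h3 | h3⟩ | h3
        · rw [h3]; exact ray4 u hu0 huh
        · rw [h3]; exact ray2 u hu0 huh
        · exact hin' z 5 h3
  rw [← hsum]
  refine diam_le_of_forall_dist_le (Finset.sum_nonneg fun i _ => diam_nonneg) ?_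
  intro z hz z' hz'
  refine T60.proj (Q := Q) ?_ hK ?_ ?_ hfr hz hz'
  · exact (((T60.bounded_Reg W x₁ x₂ h).subset sdiff_subset).union (bounded_Ext _ _ _)).union
      (bounded_Ext _ _ _)
  · rintro c ⟨hc | hc, hcV⟩
    · right
      rw [hc, rt_dat hW hx0 hxl]
      exact hin _ (hax x (by exact_mod_cast hx1.le) (by exact_mod_cast hx2.le))
    · left
      refine Or.inl (Or.inl ⟨Or.inr ⟨x, hx1.le, hx2.le, hc⟩, fun hcB => hcV ?_⟩)
      exact closure_sub hW' hVP hVC h0' h12' h1' hax' hh hc.1 hcB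
  · intro i hi
    rcases i with i | i
    · refine hPb i ?_
      simpa [hF'] using hi
    · fin_cases i
      · exact hrayb s g₁ h₁ hg₁
      · exact hrayb t g₂ h₂ hg₂
      · exact hrayb s' g₁' h₁ hg₁'
      · exact hrayb t' g₂' h₂ hg₂'
      · exact hroofb h₁ s s' hh₁
      · exact hroofb h₂ t' t hh₂

end Pool.Agent.Work.MLC.Uni
end

section
set_option autoImplicit false

/-! # Theorem U, module `U_lam`: wakes are nested or disjoint, without common ends (helper57)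

The separation of adjacent wakes is the argument of helper90 in `ShpT`. -/

namespace Pool.Agent.Work.MLC.Uni

open Filter Topology Metric Set
open Pool.Agent.Work.MLC.Sat Pool.Agent.Work.MLC.Cnt Pool.Agent.Work.MLC.Circ CircleDeg1Lift
open Pool.Agent.Work.MLC.Shp

namespace L57

variable {m m' : ℕ} {α β α' β' : ℝ}

/-- the left end of a wake is not the right end of a strip (helper90) -/
lemma not_right (h : Wake m α β) (hm : 2 ≤ m) (hword : Word m (wR α))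
    (hlt : ∀ θ, θ < α → nu (wR α) m θ < nu (wR α) m α) : False := by
  have hm0 : 0 < m := h.pos
  obtain ⟨B, hB⟩ := h.per'
  by_cases hc : ∃ j, 0 < j ∧ j < m ∧ ∃ l : ℤ, (2 : ℝ) ^ j * β + l = α
  · obtain ⟨j, hj, hjm, l, hl⟩ := hc
    obtain ⟨i, hi⟩ := hword.2.2 j hj hjm
    apply hi
    obtain ⟨n, n', h1, h2, h3, h4, -⟩ := h.side_int i
    have hab := h.lt
    have e1 : ⌈(2 : ℝ) ^ (i + 1) * α - α⌉ = n + 1 := by
      rw [Int.ceil_eq_iff]
      push_cast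
      constructor <;> linarith
    have e2 : ⌊(2 : ℝ) ^ (i + j + 1) * β - β⌋ = n - 2 ^ (i + 1) * l := by
      have e3 : (2 : ℝ) ^ (i + j + 1) * β = 2 ^ (i + 1) * (α - l) := by
        rw [← hl, show i + j + 1 = (i + 1) + j by ring, pow_add]; ring
      rw [e3, Int.floor_eq_iff]
      push_cast
      constructor <;> linarith
    rw [h.wR_eq (i + j)]
    unfold wL wR
    rw [e1, e2]
    have : (2 : ℤ) ^ (i + 1) * l = 2 * (2 ^ i * l) := by rw [pow_succ]; ring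
    omega
  · push Not at hc
    have hab := h.lt
    have hLm : ∀ l : ℤ, (2 : ℝ) ^ m * β + l ≠ α := by
      intro l hl
      have f0 := h.nonneg
      have f1 := h.le_one
      have f2 : ((B + l : ℤ) : ℝ) < ((0 : ℤ) : ℝ) := by push_cast; linarith
      have f3 : ((-1 : ℤ) : ℝ) ≤ ((B + l : ℤ) : ℝ) := by push_cast; linarith
      have f4 := cast_lt_of f2
      have f5 := cast_le_of f3
      have f6 : B + l = -1 := by omega
      have f7 : (B : ℝ) + l = -1 := by exact_mod_cast f6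
      have f8 : α = 0 := by linarith
      exact h.exact 1 one_pos (by omega) ⟨0, by rw [f8]; simp⟩
    have hne : ∀ i < m, ∀ l : ℤ, (2 : ℝ) ^ (i + 1) * β + l ≠ α := by
      intro i hi l
      rcases Nat.lt_or_ge (i + 1) m with h1 | h1
      · exact hc (i + 1) (by omega) h1 l
      · rw [show i + 1 = m by omega]; exact hLm l
    have hev : ∀ᶠ θ : ℝ in 𝓝[<] α, ∀ i ∈ Finset.range m,
        (2 : ℝ) ^ (i + 1) * β - θ < ⌊(2 : ℝ) ^ (i + 1) * β - β⌋ + 1 := by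
      rw [Filter.eventually_all_finset]
      intro i hi
      obtain ⟨n, n', h1, h2, h3, h4, -⟩ := h.side_int i
      have e2 : ⌊(2 : ℝ) ^ (i + 1) * β - β⌋ = n' := by
        rw [Int.floor_eq_iff]
        constructor <;> linarith
      have h5 : (2 : ℝ) ^ (i + 1) * β - α < n' + 1 := by
        refine lt_of_le_of_ne h4 fun hcon => hne i (Finset.mem_range.1 hi) (-(n' + 1)) ?_
        push_cast
        linarith
      rw [e2]
      exact mem_nhdsWithin_of_mem_nhds ((isOpen_lt (f := fun s : ℝ => (2 : ℝ) ^ (i + 1) * β - s)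
        (g := fun _ => (n' : ℝ) + 1) (by fun_prop) (by fun_prop)).mem_nhds h5)
    obtain ⟨θ₁, hθ₁, hθ₁α⟩ := (hev.and self_mem_nhdsWithin).exists
    have hθα : θ₁ < α := hθ₁α
    have hint : ∀ θ, θ₁ ≤ θ → θ ≤ α → ∃ k : ℤ, nu (wR α) m θ = k := by
      intro θ h1 h2
      have hw : wR α = wL β := funext fun j => h.wR_eq j
      obtain ⟨M, hM⟩ := gw_lin (wR α) θ β m fun i hi => by
        set z := ⌊(2 : ℝ) ^ (i + 1) * β - β⌋ with hz
        have e1 := Int.floor_le ((2 : ℝ) ^ (i + 1) * β - β)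
        have e2 := hθ₁ i (Finset.mem_range.2 hi)
        rw [← hz] at e1 e2
        have e3 : wR α i = z % 2 := by rw [hw]; rfl
        refine ⟨z / 2, ?_⟩
        have e4 : (wR α i : ℤ) + 2 * (z / 2) = z := by omega
        have e5 : (wR α i : ℝ) + 2 * ((z / 2 : ℤ) : ℝ) = z := by exact_mod_cast e4
        rw [pow_succ] at e1 e2
        constructor <;> linarith
      refine ⟨B - M, ?_⟩
      have h3 : gw (wR α) θ m β = β + ((B - M : ℤ) : ℝ) := by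
        rw [hM]; push_cast; linarith
      exact translationNumber_of_eq_add_int _ h3
    have h6 := nu_const_of_int hθα.le hint
    exact absurd h6 (hlt θ₁ hθα).ne

/-- the component of a wake with the ends of its strip -/
lemma ws (h : Wake m α β) (hm : 2 ≤ m) : ∃ W : WS, W.Ok ∧ W.m = m ∧ W.w = wL α ∧
    W.nu α = 0 ∧ W.nu β = 1 ∧ ∀ θ, α < θ → θ < β → 0 < W.nu θ ∧ W.nu θ < 1 := by
  obtain ⟨k, hw, ha, hb, hk⟩ := h.strip hm
  obtain ⟨σ, hσ, hex⟩ := Pri.exists_wide_word h.pos hw k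
  refine ⟨⟨m, wL α, k, σ⟩, ⟨hσ, hex⟩, rfl, rfl, ?_, ?_, fun θ h1 h2 => ?_⟩
  · unfold WS.nu; simp only; rw [ha]; ring
  · unfold WS.nu; simp only; rw [hb]; ring
  · obtain ⟨h3, h4⟩ := hk θ h1 h2
    unfold WS.nu
    constructor <;> simp only <;> linarith

lemma nu_cont (W : WS) : Continuous W.nu := by
  unfold WS.nu
  exact (nu_continuous W.w W.m).sub continuous_const

/-- different wakes are not adjacent -/
lemma ne_adj (h : Wake m α β) (hm : 2 ≤ m) (h' : Wake m' α' β') (hm' : 2 ≤ m') : β ≠ α' := by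
  intro he
  subst he
  have hmm : m = m' := by
    have h1 : m ∣ m' := by
      rw [← h.dvd']
      obtain ⟨a, ha⟩ := h'.per
      exact ⟨a, by linarith⟩
    have h2 : m' ∣ m := by
      rw [← h'.dvd]
      obtain ⟨a, ha⟩ := h.per'
      exact ⟨a, by linarith⟩
    exact Nat.dvd_antisymm h1 h2
  subst hmm
  obtain ⟨k, hw, ha, hb, hk⟩ := h.strip hm
  have e : wR β = wL α := funext fun j => (h.wL_eq j).symm
  refine not_right h' hm (by rw [e]; exact hw) fun θ hθ => ?_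
  rw [e, hb]
  rcases lt_or_ge α θ with h1 | h1
  · exact (hk θ h1 hθ).2
  · have h2 := nu_mono (wL α) m h1
    rw [ha] at h2
    linarith

/-- one angle with two irrational rotation numbers -/
lemma same_of_irr (h : Wake m α β) (h' : Wake m' α' β') {W W' : WS} (hW : W.Ok) (hW' : W'.Ok)
    (hm : W.m = m) (hm' : W'.m = m') (h0 : W.nu α = 0) (h1 : W.nu β = 1)
    (hin : ∀ θ, α < θ → θ < β → 0 < W.nu θ ∧ W.nu θ < 1) (h0' : W'.nu α' = 0) (h1' : W'.nu β' = 1)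
    (hin' : ∀ θ, α' < θ → θ < β' → 0 < W'.nu θ ∧ W'.nu θ < 1)
    {θ : ℝ} (a1 : α < θ) (a2 : θ < β) (b1 : α' < θ) (b2 : θ < β')
    (hi : Irrational (W.nu θ)) (hi' : Irrational (W'.nu θ)) : m = m' ∧ α = α' ∧ β = β' := by
  have hwd : Word W.m W.w := hW.wide.word hW.ex
  have hwd' : Word W'.m W'.w := hW'.wide.word hW'.ex
  have e1 : Irrational (nu W.w W.m θ) := by
    unfold WS.nu at hi
    exact (irrational_sub_intCast_iff).1 hi
  have e2 : Irrational (nu W'.w W'.m θ) := by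
    unfold WS.nu at hi'
    exact (irrational_sub_intCast_iff).1 hi'
  have hn := hW.wide.pos
  have hn' := hW'.wide.pos
  obtain ⟨i, hoi⟩ := P60.exists_ho hn hwd.2.1 e1
  obtain ⟨i', hoi'⟩ := P60.exists_ho hn' hwd'.2.1 e2
  have hs := word_shift hn hwd i
  have hs' := word_shift hn' hwd' i'
  have hmm : W.m = W'.m := P60.word_len hn hn' hs hs' hoi hoi'
  have hww := HO.word_eq hs.1 hs'.1 hoi hoi'
  have hnn : ∀ t, nu W.w W.m t = nu W'.w W'.m t := by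
    intro t
    rw [← nu_shift_word W.w W.m hwd.2.1 t i, ← nu_shift_word W'.w W'.m hwd'.2.1 t i', hww, hmm]
  have hdiff : ∀ t, W.nu t = W'.nu t + ((W'.k - W.k : ℤ) : ℝ) := by
    intro t
    unfold WS.nu
    rw [hnn]
    push_cast
    ring
  have hk : W'.k - W.k = 0 := by
    have c1 := hin θ a1 a2
    have c2 := hin' θ b1 b2
    have c3 := hdiff θ
    have c4 : ((W'.k - W.k : ℤ) : ℝ) < ((1 : ℤ) : ℝ) := by push_cast; push_cast at c3; linarith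
    have c5 : ((-1 : ℤ) : ℝ) < ((W'.k - W.k : ℤ) : ℝ) := by push_cast; push_cast at c3; linarith
    have c6 := cast_lt_of c4
    have c7 := cast_lt_of c5
    omega
  have heq : ∀ t, W.nu t = W'.nu t := fun t => by rw [hdiff t, hk]; simp
  have hab := h.lt
  have hab' := h'.lt
  refine ⟨by omega, ?_, ?_⟩
  · rcases lt_trichotomy α α' with h2 | h2 | h2
    · have := (hin α' h2 (by linarith)).1
      rw [heq, h0'] at this
      exact absurd this (lt_irrefl _)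
    · exact h2
    · have := (hin' α h2 (by linarith)).1
      rw [← heq, h0] at this
      exact absurd this (lt_irrefl _)
  · rcases lt_trichotomy β β' with h2 | h2 | h2
    · have := (hin' β (by linarith) h2).2
      rw [← heq, h1] at this
      exact absurd this (lt_irrefl _)
    · exact h2
    · have := (hin β' (by linarith) h2).2
      rw [heq, h1'] at this
      exact absurd this (lt_irrefl _)

/-- the ends of a wake are periodic, so their rotation numbers are rational -/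
lemma rat_of_per {W : WS} {n : ℕ} (hn : 0 < n) {t : ℝ} (ht : ∃ a : ℤ, (2 : ℝ) ^ n * t - t = a) :
    ∃ r : ℚ, W.nu t = r := by
  obtain ⟨r, hr⟩ := Cap.nu_rat43 (w := W.w) (m := W.m) hn ht
  refine ⟨r - W.k, ?_⟩
  unfold WS.nu
  rw [hr]
  push_cast
  ring

/-- the ends of a plateau have rational rotation numbers -/
lemma rat_ends {W W' : WS} (hW' : W'.Ok) {y : ℚ} (y0 : 0 < y) (y1 : y < 1) :
    (∃ r : ℚ, W.nu (W'.dat y).tm = r) ∧ ∃ r : ℚ, W.nu (W'.dat y).tp = r := by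
  have hC := WS.dat_cir hW' y0 y1
  have hm := WS.dat_m hW' y0 y1
  have hn := hW'.wide.pos
  obtain ⟨hq, ⟨k, hk⟩, -⟩ := hC.per
  have hpos : 0 < (W'.dat y).m * (W'.dat y).x.den := by
    rw [hm]; exact Nat.mul_pos hn hq
  refine ⟨rat_of_per hpos ⟨k, hk⟩, rat_of_per hpos ?_⟩
  obtain ⟨j, l, hl⟩ := hC.orb
  refine ⟨2 ^ ((W'.dat y).m * j) * k + (2 ^ ((W'.dat y).m * (W'.dat y).x.den) - 1) * l, ?_⟩
  push_cast
  rw [hl, ← hk]
  ring

/-- an end of a plateau of `W'` around `θ₀` is not inside the wake of `W`, if the rotation number of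
`θ₀` is irrational for `W` -/
lemma not_mem {W W' : WS} (hW : W.Ok) (hW' : W'.Ok) {y : ℚ} (y0 : 0 < y) (y1 : y < 1) {θ₀ : ℝ}
    (hy : W'.nu θ₀ = y) (hirr : Irrational (W.nu θ₀)) {a : ℝ}
    (ha : a = (W'.dat y).tm ∨ a = (W'.dat y).tp) (h0 : 0 < W.nu a) (h1 : W.nu a < 1) : False := by
  have hP' := WS.dat_par hW' y0 y1
  have hC' := WS.dat_cir hW' y0 y1
  obtain ⟨p1, p2⟩ := (WS.plateau hW' y0 y1 θ₀).1 hy
  obtain ⟨x, hx⟩ : ∃ r : ℚ, W.nu a = r := by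
    rcases ha with ha | ha
    · rw [ha]; exact (rat_ends hW' y0 y1).1
    · rw [ha]; exact (rat_ends hW' y0 y1).2
  rw [hx] at h0 h1
  have x0 : 0 < x := by exact_mod_cast h0
  have x1 : x < 1 := by exact_mod_cast h1
  have hP := WS.dat_par hW x0 x1
  have hC := WS.dat_cir hW x0 x1
  obtain ⟨q1, q2⟩ := (WS.plateau hW x0 x1 a).1 hx
  have hout : ¬ ((W.dat x).tm ≤ θ₀ ∧ θ₀ ≤ (W.dat x).tp) := fun hc =>
    hirr ⟨x, ((WS.plateau hW x0 x1 θ₀).2 hc).symm⟩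
  have l1 := hC'.lt
  have l2 := hC'.lt_one
  have l3 := hC.lt
  have l4 := hC.lt_one
  by_cases he : rt (W.dat x) = rt (W'.dat y)
  · obtain ⟨k, k1, k2⟩ := plateau_unique n2_ray hP hC hP' hC' he
    have f1 : ((-1 : ℤ) : ℝ) < (k : ℤ) := by
      push_cast
      rcases ha with ha | ha <;> rw [ha] at q1 q2 <;> linarith
    have f2 : ((k : ℤ) : ℝ) < ((1 : ℤ) : ℝ) := by
      push_cast
      rcases ha with ha | ha <;> rw [ha] at q1 q2 <;> linarith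
    have g1 := cast_lt_of f1
    have g2 := cast_lt_of f2
    have g3 : k = 0 := by omega
    rw [g3, Int.cast_zero, add_zero] at k1 k2
    exact hout ⟨by rw [k1]; exact p1, by rw [k2]; exact p2⟩
  · rcases laminar60 hP hC hP' hC' he 0 with h | h
    · rw [Int.cast_zero, add_zero, add_zero] at h
      exact hout ⟨by linarith [h.1], by linarith [h.2]⟩
    · rw [Int.cast_zero, add_zero, add_zero] at h
      rcases ha with ha | ha
      · rw [ha] at q1 q2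
        rcases h.1 with h2 | h2 <;> linarith
      · rw [ha] at q1 q2
        rcases h.2 with h2 | h2 <;> linarith

/-- **nested wakes** -/
lemma nest {W W' : WS} (hW : W.Ok) (hW' : W'.Ok)
    (hin : ∀ θ, α < θ → θ < β → 0 < W.nu θ ∧ W.nu θ < 1)
    (h0' : W'.nu α' = 0) (h1' : W'.nu β' = 1) {y : ℚ} (y0 : 0 < y) (y1 : y < 1) {θ₀ : ℝ}
    (a1 : α < θ₀) (a2 : θ₀ < β) (hy : W'.nu θ₀ = y) (hirr : Irrational (W.nu θ₀)) :
    α' < α ∧ β < β' := by
  obtain ⟨p1, p2⟩ := (WS.plateau hW' y0 y1 θ₀).1 hy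
  obtain ⟨⟨r, hr⟩, s, hs⟩ := rat_ends (W := W) hW' y0 y1
  have hC' := WS.dat_cir hW' y0 y1
  have p1' : (W'.dat y).tm < θ₀ := lt_of_le_of_ne p1 fun h => hirr ⟨r, by rw [← hr, h]⟩
  have p2' : θ₀ < (W'.dat y).tp := lt_of_le_of_ne p2 fun h => hirr ⟨s, by rw [← hs, h]⟩
  have v1 : W'.nu (W'.dat y).tm = y := (WS.plateau hW' y0 y1 _).2 ⟨le_rfl, hC'.lt.le⟩
  have v2 : W'.nu (W'.dat y).tp = y := (WS.plateau hW' y0 y1 _).2 ⟨hC'.lt.le, le_rfl⟩
  have y0' : (0 : ℝ) < y := by exact_mod_cast y0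
  have y1' : (y : ℝ) < 1 := by exact_mod_cast y1
  have b1 : α' < (W'.dat y).tm := by
    by_contra hcon
    have := W'.nu_mono (not_lt.1 hcon)
    rw [v1, h0'] at this
    linarith
  have b2 : (W'.dat y).tp < β' := by
    by_contra hcon
    have := W'.nu_mono (not_lt.1 hcon)
    rw [v2, h1'] at this
    linarith
  have c1 : (W'.dat y).tm ≤ α := by
    by_contra hcon
    push Not at hcon
    obtain ⟨d1, d2⟩ := hin _ hcon (p1'.trans a2)
    exact not_mem hW hW' y0 y1 hy hirr (Or.inl rfl) d1 d2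
  have c2 : β ≤ (W'.dat y).tp := by
    by_contra hcon
    push Not at hcon
    obtain ⟨d1, d2⟩ := hin _ (a1.trans p2') hcon
    exact not_mem hW hW' y0 y1 hy hirr (Or.inr rfl) d1 d2
  exact ⟨by linarith, by linarith⟩

/-- an irrational value on an interval on which a continuous function is not constant -/
lemma exists_irr {f : ℝ → ℝ} (hf : Continuous f) {a b : ℝ} (hab : a < b) (hne : f a ≠ f b) :
    ∃ t, a < t ∧ t < b ∧ Irrational (f t) := by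
  rcases lt_or_gt_of_ne hne with h | h
  · obtain ⟨c, hc, h1, h2⟩ := exists_irrational_btwn h
    obtain ⟨t, ht, rfl⟩ := intermediate_value_Ioo hab.le hf.continuousOn ⟨h1, h2⟩
    exact ⟨t, ht.1, ht.2, hc⟩
  · obtain ⟨c, hc, h1, h2⟩ := exists_irrational_btwn h
    obtain ⟨t, ht, rfl⟩ := intermediate_value_Ioo' hab.le hf.continuousOn ⟨h1, h2⟩
    exact ⟨t, ht.1, ht.2, hc⟩

/-- the overlapping case, periods at least `2`, `α' ≤ α` -/
lemma overlap (h : Wake m α β) (h' : Wake m' α' β') (hm : 2 ≤ m) (hm' : 2 ≤ m') (hle : α' ≤ α)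
    (hlt : α < β') : (m = m' ∧ α = α' ∧ β = β') ∨ (α < α' ∧ β' < β) ∨ (α' < α ∧ β < β') := by
  obtain ⟨W, hW, e1, -, n0, n1, hin⟩ := ws h hm
  obtain ⟨W', hW', e1', -, n0', n1', hin'⟩ := ws h' hm'
  have hab := h.lt
  have hab' := h'.lt
  have hmin : α < min β β' := lt_min hab hlt
  -- a point with an irrational rotation number for `W`
  obtain ⟨b, hb1, hb2⟩ := exists_between hmin
  have hbβ : b < β := hb2.trans_le (min_le_left _ _)
  have hbβ' : b < β' := hb2.trans_le (min_le_right _ _)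
  obtain ⟨t, ht1, ht2, hti⟩ := exists_irr (nu_cont W) hb1 (by rw [n0]; exact (hin b hb1 hbβ).1.ne)
  by_cases hi : Irrational (W'.nu t)
  · exact Or.inl (same_of_irr h h' hW hW' e1 e1' n0 n1 hin n0' n1' hin' ht1 (ht2.trans hbβ)
      (hle.trans_lt ht1) (ht2.trans hbβ') hti hi)
  · unfold Irrational at hi
    push Not at hi
    obtain ⟨y, hy⟩ := hi
    have hy2 := hin' t (hle.trans_lt ht1) (ht2.trans hbβ')
    rw [← hy] at hy2
    exact Or.inr (Or.inr (nest hW hW' hin n0' n1' (by exact_mod_cast hy2.1)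
      (by exact_mod_cast hy2.2) ht1 (ht2.trans hbβ) hy.symm hti))

lemma lam2 (h : Wake m α β) (h' : Wake m' α' β') (hm : 2 ≤ m) (hm' : 2 ≤ m') :
    (m = m' ∧ α = α' ∧ β = β') ∨ β < α' ∨ β' < α ∨ (α < α' ∧ β' < β) ∨ (α' < α ∧ β < β') := by
  rcases lt_or_ge β α' with c1 | c1
  · exact Or.inr (Or.inl c1)
  rcases lt_or_ge β' α with c2 | c2
  · exact Or.inr (Or.inr (Or.inl c2))
  have d1 : α' < β := lt_of_le_of_ne c1 (Ne.symm (ne_adj h hm h' hm'))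
  have d2 : α < β' := lt_of_le_of_ne c2 (Ne.symm (ne_adj h' hm' h hm))
  rcases le_total α' α with h1 | h1
  · rcases overlap h h' hm hm' h1 d2 with h2 | h2 | h2
    · exact Or.inl h2
    · exact Or.inr (Or.inr (Or.inr (Or.inl h2)))
    · exact Or.inr (Or.inr (Or.inr (Or.inr h2)))
  · rcases overlap h' h hm' hm h1 d1 with h2 | h2 | h2
    · exact Or.inl ⟨h2.1.symm, h2.2.1.symm, h2.2.2.symm⟩
    · exact Or.inr (Or.inr (Or.inr (Or.inr h2)))
    · exact Or.inr (Or.inr (Or.inr (Or.inl h2)))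

/-- the wake of period one -/
lemma one (h : Wake 1 α β) : α = 0 ∧ β = 1 := by
  obtain ⟨a, ha⟩ := h.per
  obtain ⟨b, hb⟩ := h.per'
  have h1 := h.nonneg
  have h2 := h.lt
  have h3 := h.le_one
  norm_num at ha hb
  rw [ha] at h1 h2
  rw [hb] at h2 h3
  have g1 : (0 : ℤ) ≤ a := by exact_mod_cast h1
  have g2 : a < b := by exact_mod_cast h2
  have g3 : b ≤ (1 : ℤ) := by exact_mod_cast h3
  have g4 : a = 0 := by omega
  have g5 : b = 1 := by omega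
  rw [ha, hb, g4, g5]
  simp

/-- the wakes of larger periods are inside -/
lemma big (h : Wake m α β) (hm : 2 ≤ m) : 0 < α ∧ β < 1 := by
  refine ⟨lt_of_le_of_ne h.nonneg fun h0 => ?_, lt_of_le_of_ne h.le_one fun h0 => ?_⟩
  · exact h.exact 1 one_pos (by omega) ⟨0, by rw [← h0]; simp⟩
  · exact h.exact' 1 one_pos (by omega) ⟨1, by rw [h0]; norm_num⟩

end L57

/-- **Module `U_lam`** -/
theorem u_lam : U_lam := by
  intro m m' α β α' β' h h'
  have hp := h.pos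
  have hp' := h'.pos
  rcases Nat.lt_or_ge m 2 with h1 | h1
  · have e : m = 1 := by omega
    subst e
    obtain ⟨a1, a2⟩ := L57.one h
    rcases Nat.lt_or_ge m' 2 with h2 | h2
    · have e' : m' = 1 := by omega
      subst e'
      obtain ⟨b1, b2⟩ := L57.one h'
      exact Or.inl ⟨rfl, by rw [a1, b1], by rw [a2, b2]⟩
    · obtain ⟨b1, b2⟩ := L57.big h' h2
      exact Or.inr (Or.inr (Or.inr (Or.inl ⟨by rw [a1]; exact b1, by rw [a2]; exact b2⟩)))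
  · rcases Nat.lt_or_ge m' 2 with h2 | h2
    · have e' : m' = 1 := by omega
      subst e'
      obtain ⟨b1, b2⟩ := L57.one h'
      obtain ⟨a1, a2⟩ := L57.big h h1
      exact Or.inr (Or.inr (Or.inr (Or.inr ⟨by rw [b1]; exact a1, by rw [b2]; exact a2⟩)))
    · exact L57.lam2 h h' h1 h2

end Pool.Agent.Work.MLC.Uni
end

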