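import Pool.Agent.Work.MLCM.C72
import Pool.Agent.Work.MLCM.C73
import Pool.Agent.Work.MLCM.C74
import Pool.Agent.Work.MLCM.C77
import Pool.Agent.Work.MLCM.C81
import Pool.Agent.Work.MLCM.C82

section
set_option autoImplicit false

/-! # Theorem U, module U4: the logarithmic no wandering triangle lemma (helper70) -/

namespace Pool.Agent.Work.MLC.Uni

open Finset
open Pool.Agent.Work.MLC.Cnt
open Pool.Agent.Work.MLC.Shp (Wake)

/-! ### products over disjoint intervals -/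

theorem n70_prod (e H : ℕ → ℝ) (S : Finset ℕ) {A : ℝ} (hA : 0 < A)
    (h1 : ∀ u ∈ S, A ≤ e u ∧ e u < H u)
    (h2 : ∀ u ∈ S, ∀ v ∈ S, u ≠ v → H u ≤ e v ∨ H v ≤ e u) :
    ∀ E : ℝ, A ≤ E → (∀ u ∈ S, H u ≤ E) → A / E ≤ ∏ u ∈ S, e u / H u := by
  induction S using Finset.induction_on_max_value e with
  | empty =>
    intro E hE _
    rw [Finset.prod_empty]
    exact (div_le_one (by linarith)).2 hE
  | insert a s ha hmax ih =>
    intro E hE hHE
    have h3 := ih (fun u hu => h1 u (Finset.mem_insert_of_mem hu))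
      (fun u hu v hv => h2 u (Finset.mem_insert_of_mem hu) v (Finset.mem_insert_of_mem hv))
      (e a) (h1 a (Finset.mem_insert_self _ _)).1 (by
        intro u hu
        have hua : u ≠ a := fun h => ha (h ▸ hu)
        rcases h2 u (Finset.mem_insert_of_mem hu) a (Finset.mem_insert_self _ _) hua with h | h
        · exact h
        · have h4 := hmax u hu
          have h5 := (h1 a (Finset.mem_insert_self _ _)).2
          linarith)
    rw [Finset.prod_insert ha]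
    have ha1 := h1 a (Finset.mem_insert_self _ _)
    have hea : 0 < e a := by linarith [ha1.1]
    have hHa : 0 < H a := by linarith [ha1.2]
    have h6 := hHE a (Finset.mem_insert_self _ _)
    calc A / E ≤ A / H a := div_le_div_of_nonneg_left hA.le hHa h6
      _ = e a / H a * (A / e a) := by field_simp
      _ ≤ e a / H a * ∏ u ∈ s, e u / H u := mul_le_mul_of_nonneg_left h3 (by positivity)

/-! ### crossing -/

open Classical in
/-- the sign of an ordered pair -/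
noncomputable def sg (x y : ℝ) : ZMod 2 := if x < y then 1 else 0

theorem sg_lt {x y : ℝ} (h : x < y) : sg x y = 1 := by unfold sg; rw [if_pos h]

theorem sg_le {x y : ℝ} (h : y ≤ x) : sg x y = 0 := by unfold sg; rw [if_neg (not_lt.2 h)]

theorem sg_dbl (x y w : ℝ) : sg (2 * x - w) (2 * y - w) = sg x y := by
  rcases lt_or_ge x y with h | h
  · rw [sg_lt h, sg_lt (by linarith)]
  · rw [sg_le h, sg_le (by linarith)]

/-- `1` if the pairs cross -/
noncomputable def Cr (x x' y y' : ℝ) : ZMod 2 := sg x y + sg x' y + sg x y' + sg x' y'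

theorem cr_chain {x x' y y' : ℝ} (h1 : x < y) (h2 : y < x') (h3 : x' < y') : Cr x x' y y' = 1 := by
  unfold Cr
  rw [sg_lt h1, sg_le h2.le, sg_lt (by linarith : x < y'), sg_lt h3]
  decide

theorem cr_chain' {x x' y y' : ℝ} (h1 : y < x) (h2 : x < y') (h3 : y' < x') : Cr x x' y y' = 1 := by
  unfold Cr
  rw [sg_le h1.le, sg_le (by linarith : y ≤ x'), sg_lt h2, sg_le h3.le]
  decide

/-- position of a point of the next time -/
def Pos (θ : ℝ) (w d : ℤ) (Y : ℝ) : Prop :=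
  (w = 1 ∧ d = 0 ∧ (θ + 1) / 2 < Y ∧ Y < (θ + 2) / 2) ∨
  (w = 0 ∧ d = 0 ∧ θ < Y ∧ Y < (θ + 1) / 2) ∨ (w = 0 ∧ d = 1 ∧ (θ + 2) / 2 < Y ∧ Y < θ + 1)

theorem pos_of {θ x x' : ℝ} {w w' d : ℤ} (h0 : 0 < θ) (h1 : θ < 1) (hw' : w' = 0 ∨ w' = 1)
    (hx : (θ + w) / 2 < x ∧ x < (θ + w) / 2 + 1 / 2)
    (hx' : (θ + w') / 2 < x' ∧ x' < (θ + w') / 2 + 1 / 2) (hd : x' = 2 * x - w - d) :
    Pos θ w' d (2 * x - w) := by
  obtain ⟨a1, a2⟩ := hx
  obtain ⟨b1, b2⟩ := hx'
  rcases hw' with rfl | rfl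
  · have c1 : (-1 : ℝ) < d := by push_cast at b1 b2; linarith
    have c2 : (d : ℝ) < 2 := by push_cast at b1 b2; linarith
    have c3 : -1 < d := by exact_mod_cast c1
    have c4 : d < 2 := by exact_mod_cast c2
    have c5 : d = 0 ∨ d = 1 := by omega
    rcases c5 with rfl | rfl
    · right; left
      push_cast at a1 a2 b1 b2 hd
      refine ⟨rfl, rfl, ?_, ?_⟩ <;> push_cast <;> linarith
    · right; right
      push_cast at a1 a2 b1 b2 hd
      refine ⟨rfl, rfl, ?_, ?_⟩ <;> push_cast <;> linarith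
  · have c1 : (-1 : ℝ) < d := by push_cast at b1 b2; linarith
    have c2 : (d : ℝ) < 1 := by push_cast at b1 b2; linarith
    have c3 : -1 < d := by exact_mod_cast c1
    have c4 : d < 1 := by exact_mod_cast c2
    have c5 : d = 0 := by omega
    subst c5
    left
    push_cast at a1 a2 b1 b2 hd
    refine ⟨rfl, rfl, ?_, ?_⟩ <;> push_cast <;> linarith

theorem sg_shift {θ x y : ℝ} {w d d' : ℤ} (hx : Pos θ w d x) (hy : Pos θ w d' y) :
    sg (x - d) (y - d') = sg x y + d + d' := by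
  rcases hx with ⟨_, rfl, a1, a2⟩ | ⟨e1, rfl, a1, a2⟩ | ⟨e1, rfl, a1, a2⟩
  · rcases hy with ⟨_, rfl, b1, b2⟩ | ⟨e2, _⟩ | ⟨e2, _⟩
    · simp
    · omega
    · omega
  · rcases hy with ⟨e2, _⟩ | ⟨_, rfl, b1, b2⟩ | ⟨_, rfl, b1, b2⟩
    · omega
    · simp
    · rw [sg_lt (by linarith : x < y), sg_le (by push_cast; linarith)]
      push_cast
      decide
  · rcases hy with ⟨e2, _⟩ | ⟨_, rfl, b1, b2⟩ | ⟨_, rfl, b1, b2⟩
    · omega
    · rw [sg_le (by linarith : y ≤ x), sg_lt (by push_cast; linarith)]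
      push_cast
      decide
    · have : sg (x - ((1 : ℤ) : ℝ)) (y - ((1 : ℤ) : ℝ)) = sg x y := by
        rcases lt_or_ge x y with h | h
        · rw [sg_lt h, sg_lt (by linarith)]
        · rw [sg_le h, sg_le (by linarith)]
      rw [this]
      have h2 : ((1 : ℤ) : ZMod 2) + ((1 : ℤ) : ZMod 2) = 0 := by decide
      rw [add_assoc, h2, add_zero]

theorem sg_mid {θ x x' y : ℝ} {w w' d e d' : ℤ} (h0 : 0 < θ) (h1 : θ < 1)
    (hx : Pos θ w d x) (hx' : Pos θ w e x') (hy : Pos θ w' d' y)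
    (h : w ≠ w') (hw : w = 1) : sg x y = sg x' y := by
  subst hw
  have X : (θ + 1) / 2 < x ∧ x < (θ + 2) / 2 := by
    rcases hx with ⟨_, _, a1, a2⟩ | ⟨e, _⟩ | ⟨e, _⟩
    · exact ⟨a1, a2⟩
    · omega
    · omega
  have X' : (θ + 1) / 2 < x' ∧ x' < (θ + 2) / 2 := by
    rcases hx' with ⟨_, _, a1, a2⟩ | ⟨e, _⟩ | ⟨e, _⟩
    · exact ⟨a1, a2⟩
    · omega
    · omega
  rcases hy with ⟨e, _⟩ | ⟨_, _, b1, b2⟩ | ⟨_, _, b1, b2⟩
  · omega
  · rw [sg_le (by linarith : y ≤ x), sg_le (by linarith : y ≤ x')]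
  · rw [sg_lt (by linarith : x < y), sg_lt (by linarith : x' < y)]

theorem sg_mid' {θ x x' y : ℝ} {w w' d e d' : ℤ} (h0 : 0 < θ) (h1 : θ < 1)
    (hx : Pos θ w d x) (hx' : Pos θ w e x') (hy : Pos θ w' d' y)
    (h : w ≠ w') (hw : w = 1) : sg y x = sg y x' := by
  subst hw
  have X : (θ + 1) / 2 < x ∧ x < (θ + 2) / 2 := by
    rcases hx with ⟨_, _, a1, a2⟩ | ⟨e, _⟩ | ⟨e, _⟩
    · exact ⟨a1, a2⟩
    · omega
    · omega
  have X' : (θ + 1) / 2 < x' ∧ x' < (θ + 2) / 2 := by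
    rcases hx' with ⟨_, _, a1, a2⟩ | ⟨e, _⟩ | ⟨e, _⟩
    · exact ⟨a1, a2⟩
    · omega
    · omega
  rcases hy with ⟨e, _⟩ | ⟨_, _, b1, b2⟩ | ⟨_, _, b1, b2⟩
  · omega
  · rw [sg_lt (by linarith : y < x), sg_lt (by linarith : y < x')]
  · rw [sg_le (by linarith : x ≤ y), sg_le (by linarith : x' ≤ y)]

/-- crossing persists -/
theorem cr_step {θ : ℝ} (h0 : 0 < θ) (h1 : θ < 1) {x x' y y' v v' z z' : ℝ} {w s t : ℤ}
    (hs : s = 0 ∨ s = 1) (ht : t = 0 ∨ t = 1) {a a' b b' : ℤ}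
    (hx : (θ + w) / 2 < x ∧ x < (θ + w) / 2 + 1 / 2)
    (hx' : (θ + w) / 2 < x' ∧ x' < (θ + w) / 2 + 1 / 2)
    (hy : (θ + w) / 2 < y ∧ y < (θ + w) / 2 + 1 / 2)
    (hy' : (θ + w) / 2 < y' ∧ y' < (θ + w) / 2 + 1 / 2)
    (hv : (θ + s) / 2 < v ∧ v < (θ + s) / 2 + 1 / 2)
    (hv' : (θ + s) / 2 < v' ∧ v' < (θ + s) / 2 + 1 / 2)
    (hz : (θ + t) / 2 < z ∧ z < (θ + t) / 2 + 1 / 2)
    (hz' : (θ + t) / 2 < z' ∧ z' < (θ + t) / 2 + 1 / 2)
    (ev : v = 2 * x - w - a) (ev' : v' = 2 * x' - w - a')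
    (ez : z = 2 * y - w - b) (ez' : z' = 2 * y' - w - b') (hc : Cr x x' y y' = 1) :
    s = t ∧ Cr v v' z z' = 1 := by
  have p1 := pos_of h0 h1 hs hx hv ev
  have p2 := pos_of h0 h1 hs hx' hv' ev'
  have p3 := pos_of h0 h1 ht hy hz ez
  have p4 := pos_of h0 h1 ht hy' hz' ez'
  have hc' : Cr (2 * x - w) (2 * x' - w) (2 * y - w) (2 * y' - w) = 1 := by
    unfold Cr at hc ⊢
    rw [sg_dbl, sg_dbl, sg_dbl, sg_dbl]
    exact hc
  by_cases hst : s = t
  · refine ⟨hst, ?_⟩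
    subst hst
    unfold Cr at hc' ⊢
    rw [ev, ev', ez, ez', sg_shift p1 p3, sg_shift p2 p3, sg_shift p1 p4, sg_shift p2 p4]
    have e : ∀ A B C D p q r u : ZMod 2, A + p + r + (B + q + r) + (C + p + u) + (D + q + u) =
        A + B + C + D := by decide
    rw [e]
    exact hc'
  · exfalso
    have hz0 : Cr (2 * x - w) (2 * x' - w) (2 * y - w) (2 * y' - w) = 0 := by
      unfold Cr
      rcases hs with hs | hs
      · have ht1 : t = 1 := by omega
        rw [sg_mid' h0 h1 p3 p4 p1 (Ne.symm hst) ht1, sg_mid' h0 h1 p3 p4 p2 (Ne.symm hst) ht1]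
        have e : ∀ A B : ZMod 2, A + B + A + B = 0 := by decide
        exact e _ _
      · rw [sg_mid h0 h1 p1 p2 p3 hst hs, sg_mid h0 h1 p1 p2 p4 hst hs]
        have e : ∀ A B : ZMod 2, A + A + B + B = 0 := by decide
        exact e _ _
    rw [hz0] at hc'
    exact absurd hc' (by decide)

/-! ### triangles -/

/-- the images of a triangle up to the time `N` -/
structure Tri (θ : ℝ) (w : ℕ → ℤ) (N : ℕ) (X : Fin 3 → ℕ → ℝ) : Prop where
  bit : ∀ t, w t = 0 ∨ w t = 1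
  chart : ∀ k, ∀ t ≤ N, (θ + w t) / 2 < X k t ∧ X k t < (θ + w t) / 2 + 1 / 2
  step : ∀ k, ∀ t, t + 1 ≤ N → ∃ d : ℤ, X k (t + 1) = 2 * X k t - w t - d

section
variable {θ : ℝ} {w : ℕ → ℤ} {N B : ℕ} {X : Fin 3 → ℕ → ℝ}

theorem Tri.persist (T : Tri θ w N X) (h0 : 0 < θ) (h1 : θ < 1) {i j : ℕ} (a a' b b' : Fin 3)
    (hw : w i = w j) (hc : Cr (X a i) (X a' i) (X b j) (X b' j) = 1) :
    ∀ s, i + s ≤ N → j + s ≤ N → w (i + s) = w (j + s) ∧
      Cr (X a (i + s)) (X a' (i + s)) (X b (j + s)) (X b' (j + s)) = 1 := by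
  intro s
  induction s with
  | zero => intro _ _; exact ⟨hw, hc⟩
  | succ s ih =>
    intro hi hj
    obtain ⟨e1, e2⟩ := ih (by omega) (by omega)
    obtain ⟨d1, f1⟩ := T.step a (i + s) hi
    obtain ⟨d2, f2⟩ := T.step a' (i + s) hi
    obtain ⟨d3, f3⟩ := T.step b (j + s) hj
    obtain ⟨d4, f4⟩ := T.step b' (j + s) hj
    have c3 := T.chart b (j + s) (by omega)
    have c4 := T.chart b' (j + s) (by omega)
    rw [← e1] at f3 f4 c3 c4
    exact cr_step h0 h1 (T.bit (i + s + 1)) (T.bit (j + s + 1)) (T.chart a (i + s) (by omega))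
      (T.chart a' (i + s) (by omega)) c3 c4 (T.chart a (i + s + 1) hi)
      (T.chart a' (i + s + 1) hi) (T.chart b (j + s + 1) hj) (T.chart b' (j + s + 1) hj)
      f1 f2 f3 f4 e2

theorem Tri.nc (T : Tri θ w N X) (h0 : 0 < θ) (h1 : θ < 1)
    (htail : ∀ i p : ℕ, 0 < p → i + p ≤ B → ∃ k, i ≤ k ∧ k + p ≤ N ∧ w (k + p) ≠ w k)
    {i j : ℕ} (hij : i < j) (hj : j ≤ B) (hw : w i = w j) (a a' b b' : Fin 3) :
    Cr (X a i) (X a' i) (X b j) (X b' j) ≠ 1 := by
  intro hc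
  obtain ⟨k, k1, k2, k3⟩ := htail i (j - i) (by omega) (by omega)
  have h := (T.persist h0 h1 a a' b b' hw hc (k - i) (by omega) (by omega)).1
  have e1 : i + (k - i) = k := by omega
  have e2 : j + (k - i) = k + (j - i) := by omega
  rw [e1, e2] at h
  exact k3 h.symm

theorem Tri.nc' (T : Tri θ w N X) (h0 : 0 < θ) (h1 : θ < 1)
    (htail : ∀ i p : ℕ, 0 < p → i + p ≤ B → ∃ k, i ≤ k ∧ k + p ≤ N ∧ w (k + p) ≠ w k)
    {i j : ℕ} (hij : i < j) (hj : j ≤ B) (hw : w i = w j) (a a' b b' : Fin 3) :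
    ¬ (X a i < X b j ∧ X b j < X a' i ∧ X a' i < X b' j) ∧
    ¬ (X b j < X a i ∧ X a i < X b' j ∧ X b' j < X a' i) :=
  ⟨fun h => T.nc h0 h1 htail hij hj hw a a' b b' (cr_chain h.1 h.2.1 h.2.2),
    fun h => T.nc h0 h1 htail hij hj hw a a' b b' (cr_chain' h.1 h.2.1 h.2.2)⟩

/-- distances of the next time -/
theorem Tri.next (T : Tri θ w N X) (h0 : 0 < θ) (h1 : θ < 1) {t : ℕ} (ht : t + 1 ≤ N)
    (a b : Fin 3) :
    (X a (t + 1) < θ ∧ X b (t + 1) < θ ∧ X b (t + 1) - X a (t + 1) = 2 * (X b t - X a t)) ∨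
    (θ < X a (t + 1) ∧ θ < X b (t + 1) ∧ X b (t + 1) - X a (t + 1) = 2 * (X b t - X a t)) ∨
    (w (t + 1) = 0 ∧ X a (t + 1) < θ ∧ θ < X b (t + 1)) ∨
    (w (t + 1) = 0 ∧ θ < X a (t + 1) ∧ X b (t + 1) < θ) := by
  obtain ⟨d1, f1⟩ := T.step a t ht
  obtain ⟨d2, f2⟩ := T.step b t ht
  have p1 := pos_of h0 h1 (T.bit (t + 1)) (T.chart a t (by omega)) (T.chart a (t + 1) ht) f1
  have p2 := pos_of h0 h1 (T.bit (t + 1)) (T.chart b t (by omega)) (T.chart b (t + 1) ht) f2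
  rcases p1 with ⟨u1, u2, u3, u4⟩ | ⟨u1, u2, u3, u4⟩ | ⟨u1, u2, u3, u4⟩ <;>
    rcases p2 with ⟨v1, v2, v3, v4⟩ | ⟨v1, v2, v3, v4⟩ | ⟨v1, v2, v3, v4⟩ <;>
    first
    | omega
    | (subst u2; subst v2; push_cast at f1 f2
       first
       | (left; refine ⟨?_, ?_, ?_⟩ <;> linarith)
       | (right; left; refine ⟨?_, ?_, ?_⟩ <;> linarith)
       | (right; right; left; refine ⟨u1, ?_, ?_⟩ <;> linarith)
       | (right; right; right; refine ⟨u1, ?_, ?_⟩ <;> linarith))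

theorem Tri.ne (T : Tri θ w N X) (h0 : 0 < θ) (h1 : θ < 1) {a b : Fin 3} (hab : X a 0 ≠ X b 0) :
    ∀ t ≤ N, X a t ≠ X b t := by
  intro t
  induction t with
  | zero => intro _; exact hab
  | succ t ih =>
    intro ht
    have h2 := ih (by omega)
    rcases T.next h0 h1 ht a b with ⟨_, _, h⟩ | ⟨_, _, h⟩ | ⟨_, h, h'⟩ | ⟨_, h, h'⟩
    · intro he; apply h2; linarith
    · intro he; apply h2; linarith
    · exact (h.trans h').ne
    · exact (h'.trans h).ne'

end

/-- nested triangles -/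
theorem n70_nest {θ p q o p' q' o' : ℝ} (hp : p < θ) (hq : θ < q) (ho : o < p ∨ q < o)
    (hp' : p' < θ) (hq' : θ < q') (ho' : o' < p' ∨ q' < o')
    (nc : ∀ x x' y y', (x = p ∨ x = q ∨ x = o) → (x' = p ∨ x' = q ∨ x' = o) →
      (y = p' ∨ y = q' ∨ y = o') → (y' = p' ∨ y' = q' ∨ y' = o') →
      ¬ (x < y ∧ y < x' ∧ x' < y') ∧ ¬ (y < x ∧ x < y' ∧ y' < x')) :
    (p = p' ∧ q = q' ∧ o = o') ∨ (p ≤ p' ∧ q' ≤ q ∧ p ≤ o' ∧ o' ≤ q) ∨
      (p' ≤ p ∧ q ≤ q' ∧ p' ≤ o ∧ o ≤ q') := by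
  have A1 : ∀ x x' y y', (x = p ∨ x = q ∨ x = o) → (x' = p ∨ x' = q ∨ x' = o) →
      (y = p' ∨ y = q' ∨ y = o') → (y' = p' ∨ y' = q' ∨ y' = o') →
      x < y → y < x' → y' ≤ x' := fun x x' y y' a b c d e f =>
    not_lt.1 fun g => (nc x x' y y' a b c d).1 ⟨e, f, g⟩
  have A2 : ∀ x x' y y', (x = p ∨ x = q ∨ x = o) → (x' = p ∨ x' = q ∨ x' = o) →
      (y = p' ∨ y = q' ∨ y = o') → (y' = p' ∨ y' = q' ∨ y' = o') →
      y < x → x < y' → x' ≤ y' := fun x x' y y' a b c d e f =>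
    not_lt.1 fun g => (nc x x' y y' a b c d).2 ⟨e, f, g⟩
  have Tp : p = p ∨ p = q ∨ p = o := Or.inl rfl
  have Tq : q = p ∨ q = q ∨ q = o := Or.inr (Or.inl rfl)
  have To : o = p ∨ o = q ∨ o = o := Or.inr (Or.inr rfl)
  have Tp' : p' = p' ∨ p' = q' ∨ p' = o' := Or.inl rfl
  have Tq' : q' = p' ∨ q' = q' ∨ q' = o' := Or.inr (Or.inl rfl)
  have To' : o' = p' ∨ o' = q' ∨ o' = o' := Or.inr (Or.inr rfl)
  rcases lt_trichotomy p p' with h | h | h
  · -- p < p' : T' in [p, q]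
    right; left
    have b1 : q' ≤ q := A1 p q p' q' Tp Tq Tp' Tq' h (by linarith)
    have b2 : o' ≤ q := A1 p q p' o' Tp Tq Tp' To' h (by linarith)
    refine ⟨h.le, b1, ?_, b2⟩
    by_contra hcon
    push Not at hcon
    have := A2 p q o' p' Tp Tq To' Tp' hcon h
    linarith
  · subst h
    rcases lt_trichotomy q q' with g | g | g
    · right; right
      refine ⟨le_rfl, g.le, ?_, ?_⟩
      · rcases ho with ho | ho
        · exfalso
          have := A1 o q p q' To Tq Tp' Tq' ho (by linarith)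
          linarith
        · linarith
      · rcases ho with ho | ho
        · linarith
        · exact A2 q o p q' Tq To Tp' Tq' (by linarith) g
    · subst g
      left
      refine ⟨rfl, rfl, ?_⟩
      rcases ho with ho | ho
      · rcases ho' with ho' | ho'
        · apply le_antisymm
          · by_contra hcon
            push Not at hcon
            have := A2 o q o' p To Tq To' Tp' hcon ho
            linarith
          · by_contra hcon
            push Not at hcon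
            have := A1 o p o' q To Tp To' Tq' hcon ho'
            linarith
        · exfalso
          have := A1 o q p o' To Tq Tp' To' ho (by linarith)
          linarith
      · rcases ho' with ho' | ho'
        · exfalso
          have := A2 p o o' q Tp To To' Tq' ho' (by linarith)
          linarith
        · apply le_antisymm
          · by_contra hcon
            push Not at hcon
            have := A2 q o p o' Tq To Tp' To' (by linarith) ho'
            linarith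
          · by_contra hcon
            push Not at hcon
            have := A1 p o q o' Tp To Tq' To' (by linarith) ho
            linarith
    · right; left
      refine ⟨le_rfl, g.le, ?_, ?_⟩
      · rcases ho' with ho' | ho'
        · exfalso
          have := A2 p q o' q' Tp Tq To' Tq' ho' (by linarith)
          linarith
        · linarith
      · rcases ho' with ho' | ho'
        · linarith
        · exact A1 p q q' o' Tp Tq Tq' To' (by linarith) g
  · right; right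
    have b1 : q ≤ q' := A2 p q p' q' Tp Tq Tp' Tq' h (by linarith)
    have b2 : o ≤ q' := A2 p o p' q' Tp To Tp' Tq' h (by linarith)
    refine ⟨h.le, b1, ?_, b2⟩
    by_contra hcon
    push Not at hcon
    have := A1 o p p' q' To Tp Tp' Tq' hcon h
    linarith

/-- the two points next to `θ` and the third point -/
structure Gap (θ : ℝ) (x : Fin 3 → ℝ) (k l r : Fin 3) : Prop where
  all : ∀ c, c = k ∨ c = l ∨ c = r
  hk : x k < θ
  hl : θ < x l
  hr : x r < x k ∨ x l < x r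

theorem n70_gap {θ : ℝ} {x : Fin 3 → ℝ} (hinj : ∀ a b, a ≠ b → x a ≠ x b) (hθ : ∀ a, x a ≠ θ)
    (h1 : ∃ a, x a < θ) (h2 : ∃ b, θ < x b) : ∃ k l r : Fin 3, Gap θ x k l r := by
  obtain ⟨a, ha⟩ := h1
  obtain ⟨b, hb⟩ := h2
  have hab : a ≠ b := by
    rintro rfl
    exact absurd (ha.trans hb) (lt_irrefl _)
  have h3 : ∀ a b : Fin 3, a ≠ b → ∃ c, c ≠ a ∧ c ≠ b ∧ (∀ d, d = a ∨ d = b ∨ d = c) := by decide
  obtain ⟨c, ca, cb, hc⟩ := h3 a b hab
  rcases lt_or_gt_of_ne (hθ c) with h | h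
  · rcases lt_or_gt_of_ne (hinj c a ca) with g | g
    · exact ⟨a, b, c, hc, ha, hb, Or.inl g⟩
    · refine ⟨c, b, a, fun d => ?_, h, hb, Or.inl g⟩
      rcases hc d with e | e | e <;> simp [e]
  · rcases lt_or_gt_of_ne (hinj c b cb) with g | g
    · refine ⟨a, c, b, fun d => ?_, ha, h, Or.inr g⟩
      rcases hc d with e | e | e <;> simp [e]
    · exact ⟨a, b, c, hc, ha, hb, Or.inr g⟩

section
variable {θ : ℝ} {w : ℕ → ℤ} {N B : ℕ} {X : Fin 3 → ℕ → ℝ}

theorem Gap.eH {x : Fin 3 → ℝ} {k l r : Fin 3} (G : Gap θ x k l r) :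
    x l - x k < max (x l) (x r) - min (x k) (x r) := by
  have hk := G.hk
  have hl := G.hl
  rcases G.hr with h | h
  · rw [max_eq_left (by linarith), min_eq_right h.le]
    linarith
  · rw [max_eq_right h.le, min_eq_left (by linarith)]
    linarith

theorem Gap.H_lt {x : Fin 3 → ℝ} {k l r : Fin 3} {c : ℝ}
    (hc : ∀ a, c < x a ∧ x a < c + 1 / 2) : max (x l) (x r) - min (x k) (x r) < 1 / 2 := by
  have h1 : max (x l) (x r) < c + 1 / 2 := max_lt (hc l).2 (hc r).2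
  have h2 : c < min (x k) (x r) := lt_min (hc k).1 (hc r).1
  linarith

theorem Tri.split_next (T : Tri θ w N X) (h0 : 0 < θ) (h1 : θ < 1) {t : ℕ} (ht : t + 1 ≤ N) {V : ℝ}
    (hV0 : 0 ≤ V) (hV : ∀ a b, X a t < X b t → V ≤ X b t - X a t) {k l r : Fin 3}
    (G : Gap θ (fun a => X a (t + 1)) k l r) {a b : Fin 3} (hab : X a (t + 1) < X b (t + 1)) :
    2 * V * ((X l (t + 1) - X k (t + 1)) / (max (X l (t + 1)) (X r (t + 1)) -
      min (X k (t + 1)) (X r (t + 1)))) ≤ X b (t + 1) - X a (t + 1) := by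
  have hk : X k (t + 1) < θ := G.hk
  have hl : θ < X l (t + 1) := G.hl
  have hr : X r (t + 1) < X k (t + 1) ∨ X l (t + 1) < X r (t + 1) := G.hr
  have heH : X l (t + 1) - X k (t + 1) <
    max (X l (t + 1)) (X r (t + 1)) - min (X k (t + 1)) (X r (t + 1)) := G.eH
  set e := X l (t + 1) - X k (t + 1) with he
  set H := max (X l (t + 1)) (X r (t + 1)) - min (X k (t + 1)) (X r (t + 1)) with hH
  have he0 : 0 < e := by linarith
  have hH0 : 0 < H := by linarith
  have hq : e / H ≤ 1 := (div_le_one hH0).2 heH.le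
  have hq0 : 0 < e / H := by positivity
  have hsame : ∀ {a b : Fin 3}, X a (t + 1) < X b (t + 1) →
      X b (t + 1) - X a (t + 1) = 2 * (X b t - X a t) → 2 * V ≤ X b (t + 1) - X a (t + 1) := by
    intro a b h1 h2
    have := hV a b (by linarith)
    linarith
  have hVH : 2 * V ≤ H := by
    rcases hr with hr | hr
    · have hH2 : H = X l (t + 1) - X r (t + 1) := by
        rw [hH, max_eq_left (by linarith), min_eq_right hr.le]
      rcases T.next h0 h1 ht r k with ⟨_, _, h⟩ | ⟨_, _, h⟩ | ⟨_, _, h⟩ | ⟨_, h, _⟩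
      · have := hsame hr h
        linarith
      · have := hsame hr h
        linarith
      · linarith
      · linarith
    · have hH2 : H = X r (t + 1) - X k (t + 1) := by
        rw [hH, max_eq_right hr.le, min_eq_left (by linarith)]
      rcases T.next h0 h1 ht l r with ⟨_, _, h⟩ | ⟨_, _, h⟩ | ⟨_, h, _⟩ | ⟨_, _, h⟩
      · have := hsame hr h
        linarith
      · have := hsame hr h
        linarith
      · linarith
      · linarith
  rcases T.next h0 h1 ht a b with ⟨_, _, h⟩ | ⟨_, _, h⟩ | ⟨_, ha, hb⟩ | ⟨_, h, h'⟩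
  · calc 2 * V * (e / H) ≤ 2 * V * 1 := mul_le_mul_of_nonneg_left hq (by linarith)
      _ ≤ _ := by rw [mul_one]; exact hsame hab h
  · calc 2 * V * (e / H) ≤ 2 * V * 1 := mul_le_mul_of_nonneg_left hq (by linarith)
      _ ≤ _ := by rw [mul_one]; exact hsame hab h
  · have ha' : X a (t + 1) ≤ X k (t + 1) := by
      rcases G.all a with rfl | rfl | rfl
      · exact le_rfl
      · linarith
      · rcases hr with hr | hr
        · exact hr.le
        · linarith
    have hb' : X l (t + 1) ≤ X b (t + 1) := by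
      rcases G.all b with rfl | rfl | rfl
      · linarith
      · exact le_rfl
      · rcases hr with hr | hr
        · linarith
        · exact hr.le
    calc 2 * V * (e / H) ≤ H * (e / H) := mul_le_mul_of_nonneg_right hVH hq0.le
      _ = e := by field_simp
      _ ≤ _ := by linarith
  · linarith

theorem Tri.off (T : Tri θ w N X) (h0 : 0 < θ) (h1 : θ < 1) {t : ℕ} (ht : t + 1 ≤ N) (a : Fin 3) :
    X a (t + 1) ≠ θ := by
  rcases T.next h0 h1 ht a a with ⟨h, _⟩ | ⟨h, _⟩ | ⟨_, h, _⟩ | ⟨_, h, _⟩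
  · exact h.ne
  · exact h.ne'
  · exact h.ne
  · exact h.ne'

open Classical in
theorem Tri.main (T : Tri θ w N X) (h0 : 0 < θ) (h1 : θ < 1) (hB : B ≤ N)
    (htail : ∀ i p : ℕ, 0 < p → i + p ≤ B → ∃ k, i ≤ k ∧ k + p ≤ N ∧ w (k + p) ≠ w k)
    (hw0 : w 0 = 0) (hX0 : X 0 0 < θ) (hX1 : X 1 0 = θ) (hX2 : θ < X 2 0)
    (hirr : ∀ t t' k, t < t' → t' ≤ B → X 1 t ≠ X k t') :
    min (θ - X 0 0) (X 2 0 - θ) * (X 2 0 - X 0 0) ≤ (1 / 2) ^ (B + 2) := by
  have hd0 : ∀ a b : Fin 3, a ≠ b → X a 0 ≠ X b 0 := by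
    intro a b hab
    fin_cases a <;> fin_cases b <;> simp at hab ⊢ <;> intro h <;> linarith
  have hd : ∀ t ≤ N, ∀ a b, a ≠ b → X a t ≠ X b t := fun t ht a b hab =>
    T.ne h0 h1 (hd0 a b hab) t ht
  set Spl : ℕ → Prop := fun t => (∃ a, X a t < θ) ∧ (∃ b, θ < X b t) with hSpl
  have key : ∀ t, (t + 1 ≤ B ∧ Spl (t + 1)) → ∃ k l r, Gap θ (fun a => X a (t + 1)) k l r := by
    rintro t ⟨ht, hs⟩
    exact n70_gap (hd (t + 1) (by omega)) (fun a => T.off h0 h1 (by omega) a) hs.1 hs.2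
  choose! k l r hG using key
  set e : ℕ → ℝ := fun t => X (l t) (t + 1) - X (k t) (t + 1) with he
  set H : ℕ → ℝ := fun t => max (X (l t) (t + 1)) (X (r t) (t + 1)) -
    min (X (k t) (t + 1)) (X (r t) (t + 1)) with hH
  set v := min (θ - X 0 0) (X 2 0 - θ) with hv
  have hv0 : 0 < v := lt_min (by linarith) (by linarith)
  have hv1 : v ≤ θ - X 0 0 := min_le_left _ _
  have hv2 : v ≤ X 2 0 - θ := min_le_right _ _
  set f : ℕ → ℝ := fun t => if Spl (t + 1) then e t / H t else 1 with hf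
  have hfpos : ∀ t, t + 1 ≤ B → 0 < f t := by
    intro t ht
    rw [hf]
    by_cases hs : Spl (t + 1)
    · simp only [if_pos hs]
      have G := hG t ⟨ht, hs⟩
      have g1 : e t < H t := G.eH
      have g3 : X (k t) (t + 1) < θ := G.hk
      have g4 : θ < X (l t) (t + 1) := G.hl
      have g2 : 0 < e t := by
        rw [he]
        simp only
        linarith
      exact div_pos g2 (by linarith)
    · simp only [if_neg hs]
      norm_num
  have hrec : ∀ t ≤ B, 0 < v * 2 ^ t * ∏ u ∈ range t, f u ∧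
      ∀ a b, X a t < X b t → v * 2 ^ t * ∏ u ∈ range t, f u ≤ X b t - X a t := by
    intro t
    induction t with
    | zero =>
      intro _
      refine ⟨by simpa using hv0, ?_⟩
      intro a b hab
      simp only [pow_zero, mul_one, range_zero, prod_empty]
      fin_cases a <;> fin_cases b <;> simp at hab ⊢ <;> linarith
    | succ t ih =>
      intro ht
      obtain ⟨i1, i2⟩ := ih (by omega)
      set V := v * 2 ^ t * ∏ u ∈ range t, f u with hV
      have e1 : v * 2 ^ (t + 1) * ∏ u ∈ range (t + 1), f u = 2 * V * f t := by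
        rw [prod_range_succ, hV, pow_succ]; ring
      rw [e1]
      have hft := hfpos t ht
      refine ⟨by positivity, ?_⟩
      intro a b hab
      by_cases hs : Spl (t + 1)
      · have G := hG t ⟨ht, hs⟩
        have := T.split_next h0 h1 (by omega) i1.le i2 G hab
        rw [hf]
        simp only [if_pos hs]
        exact this
      · rw [hf]
        simp only [if_neg hs, mul_one]
        rcases T.next h0 h1 (by omega : t + 1 ≤ N) a b with
          ⟨_, _, h⟩ | ⟨_, _, h⟩ | ⟨_, ha, hb⟩ | ⟨_, ha, hb⟩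
        · have := i2 a b (by linarith)
          linarith
        · have := i2 a b (by linarith)
          linarith
        · exact absurd ⟨⟨a, ha⟩, ⟨b, hb⟩⟩ hs
        · exact absurd ⟨⟨b, hb⟩, ⟨a, ha⟩⟩ hs
  -- the bound at the time `B`
  have hfin : v * 2 ^ B * ∏ u ∈ range B, f u ≤ 1 / 4 := by
    obtain ⟨_, i2⟩ := hrec B le_rfl
    set V := v * 2 ^ B * ∏ u ∈ range B, f u with hV
    have c0 := T.chart 0 B hB
    have c1 := T.chart 1 B hB
    have c2 := T.chart 2 B hB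
    rcases lt_or_gt_of_ne (hd B hB 0 1 (by decide)) with a1 | a1 <;>
      rcases lt_or_gt_of_ne (hd B hB 1 2 (by decide)) with a2 | a2 <;>
      rcases lt_or_gt_of_ne (hd B hB 0 2 (by decide)) with a3 | a3 <;>
      · have b1 := i2 _ _ a1
        have b2 := i2 _ _ a2
        have b3 := i2 _ _ a3
        linarith
  -- the product
  set S := (range B).filter (fun t => Spl (t + 1)) with hS
  have hprod : ∏ u ∈ range B, f u = ∏ u ∈ S, e u / H u := by
    rw [hS, prod_filter]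
  have hS1 : ∀ t ∈ S, t + 1 ≤ B ∧ Spl (t + 1) := by
    intro t ht
    rw [hS, mem_filter, mem_range] at ht
    exact ⟨by omega, ht.2⟩
  have hwt : ∀ t ∈ S, w (t + 1) = 0 := by
    intro t ht
    have G := hG t (hS1 t ht)
    have g1 : X (k t) (t + 1) < θ := G.hk
    have g2 : θ < X (l t) (t + 1) := G.hl
    have hb := (hS1 t ht).1
    rcases T.next h0 h1 (by omega : t + 1 ≤ N) (k t) (l t) with
      ⟨_, h, _⟩ | ⟨h, _, _⟩ | ⟨h, _, _⟩ | ⟨h, _, _⟩
    · linarith
    · linarith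
    · exact h
    · exact h
  have hA : 0 < X 2 0 - X 0 0 := by linarith
  have hp1 : ∀ u ∈ S, X 2 0 - X 0 0 ≤ e u ∧ e u < H u := by
    intro t ht
    have G := hG t (hS1 t ht)
    refine ⟨?_, G.eH⟩
    have g1 : X (k t) (t + 1) < θ := G.hk
    have g2 : θ < X (l t) (t + 1) := G.hl
    have n1 := (T.nc' h0 h1 htail (Nat.succ_pos t) (hS1 t ht).1 (hw0.trans (hwt t ht).symm)
      0 1 (k t) (l t)).1
    have n2 := (T.nc' h0 h1 htail (Nat.succ_pos t) (hS1 t ht).1 (hw0.trans (hwt t ht).symm)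
      1 2 (k t) (l t)).2
    have m1 : X (k t) (t + 1) ≤ X 0 0 := by
      by_contra hcon
      push Not at hcon
      exact n1 ⟨hcon, by rw [hX1]; exact g1, by rw [hX1]; exact g2⟩
    have m2 : X 2 0 ≤ X (l t) (t + 1) := by
      by_contra hcon
      push Not at hcon
      exact n2 ⟨by rw [hX1]; exact g1, by rw [hX1]; exact g2, hcon⟩
    rw [he]
    simp only
    linarith
  have hp2' : ∀ u ∈ S, ∀ v ∈ S, u < v → H u ≤ e v ∨ H v ≤ e u := by
    intro s hs t ht hst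
    have G := hG s (hS1 s hs)
    have G' := hG t (hS1 t ht)
    have hall : ∀ (s : ℕ) (k l r : Fin 3) (x : ℝ), (x = X k s ∨ x = X l s ∨ x = X r s) →
        ∃ a, x = X a s := by
      rintro s k l r x (h | h | h)
      exacts [⟨_, h⟩, ⟨_, h⟩, ⟨_, h⟩]
    have hn := n70_nest G.hk G.hl G.hr G'.hk G'.hl G'.hr (by
      intro x x' y y' a1 a2 a3 a4
      obtain ⟨a, rfl⟩ := hall _ _ _ _ _ a1
      obtain ⟨a', rfl⟩ := hall _ _ _ _ _ a2
      obtain ⟨b, rfl⟩ := hall _ _ _ _ _ a3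
      obtain ⟨b', rfl⟩ := hall _ _ _ _ _ a4
      exact T.nc' h0 h1 htail (Nat.succ_lt_succ hst) (hS1 t ht).1
        ((hwt s hs).trans (hwt t ht).symm) a a' b b')
    rcases hn with ⟨n1, n2, n3⟩ | ⟨n1, n2, n3, n4⟩ | ⟨n1, n2, n3, n4⟩
    · exfalso
      rcases G.all 1 with h | h | h
      · exact hirr (s + 1) (t + 1) (k t) (by omega) (hS1 t ht).1 (by rw [h]; exact n1)
      · exact hirr (s + 1) (t + 1) (l t) (by omega) (hS1 t ht).1 (by rw [h]; exact n2)
      · exact hirr (s + 1) (t + 1) (r t) (by omega) (hS1 t ht).1 (by rw [h]; exact n3)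
    · right
      rw [he, hH]
      simp only at *
      have m1 : max (X (l t) (t + 1)) (X (r t) (t + 1)) ≤ X (l s) (s + 1) := max_le n2 n4
      have m2 : X (k s) (s + 1) ≤ min (X (k t) (t + 1)) (X (r t) (t + 1)) := le_min n1 n3
      linarith
    · left
      rw [he, hH]
      simp only at *
      have m1 : max (X (l s) (s + 1)) (X (r s) (s + 1)) ≤ X (l t) (t + 1) := max_le n2 n4
      have m2 : X (k t) (t + 1) ≤ min (X (k s) (s + 1)) (X (r s) (s + 1)) := le_min n1 n3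
      linarith
  have hp2 : ∀ u ∈ S, ∀ v ∈ S, u ≠ v → H u ≤ e v ∨ H v ≤ e u := by
    intro s hs t ht hst
    rcases lt_or_gt_of_ne hst with h | h
    · exact hp2' s hs t ht h
    · exact (hp2' t ht s hs h).symm
  have hE : X 2 0 - X 0 0 ≤ 1 / 2 := by
    have c0 := T.chart 0 0 (by omega)
    have c2 := T.chart 2 0 (by omega)
    linarith
  have hHE : ∀ u ∈ S, H u ≤ 1 / 2 := by
    intro t ht
    have hb := (hS1 t ht).1
    exact (Gap.H_lt (x := fun a => X a (t + 1)) (fun a => T.chart a (t + 1) (by omega))).le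
  have hP := n70_prod e H S hA hp1 hp2 (1 / 2) hE hHE
  rw [← hprod] at hP
  set P := ∏ u ∈ range B, f u with hPdef
  have h2 : (0 : ℝ) < 2 ^ B := by positivity
  have h3 : v * 2 ^ B * ((X 2 0 - X 0 0) / (1 / 2)) ≤ 1 / 4 :=
    le_trans (mul_le_mul_of_nonneg_left hP (by positivity)) hfin
  have h4 : ((1 : ℝ) / 2) ^ (B + 2) = 1 / (4 * 2 ^ B) := by
    rw [one_div_pow, pow_add]; norm_num; ring
  rw [h4, le_div_iff₀ (by positivity)]
  have h5 : v * (X 2 0 - X 0 0) * (4 * 2 ^ B) = 2 * (v * 2 ^ B * ((X 2 0 - X 0 0) / (1 / 2))) := by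
    ring
  rw [h5]
  linarith

end

theorem n70_fin : ∀ k : Fin 3, k = 0 ∨ k = 1 ∨ k = 2 := by decide

theorem n70_irr {θ : ℝ} (h : Irrational θ) (a b : ℤ) (ha : a ≠ 0) : (a : ℝ) * θ ≠ b := by
  intro he
  apply h
  have ha' : (a : ℝ) ≠ 0 := by exact_mod_cast ha
  refine ⟨(b : ℚ) / a, ?_⟩
  push_cast
  rw [← he]
  field_simp

/-- the logarithmic no wandering triangle lemma -/
theorem u_nwt : U_nwt := by
  intro m B α β θ hW h1 h2 hirr hw hBm hB htail
  have hm : 2 ≤ m := by omega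
  have hα0 := hW.nonneg
  have hβ1 := hW.le_one
  have hθ0 : 0 < θ := by linarith
  have hθ1 : θ < 1 := by linarith
  have hw0 : wL θ 0 = 0 := by
    unfold wL
    have : (2 : ℝ) ^ (0 + 1) * θ - θ = θ := by ring
    rw [this, Int.floor_eq_zero_iff.2 ⟨hθ0.le, hθ1⟩]
    rfl
  have hn : ∀ k : Fin 3, ∀ t : ℕ, ∃ n : ℤ, t + 2 ≤ m →
      (θ + wL θ t) / 2 + n < 2 ^ t * (![α, θ, β] : Fin 3 → ℝ) k ∧
        2 ^ t * (![α, θ, β] : Fin 3 → ℝ) k < (θ + wL θ t) / 2 + n + 1 / 2 := by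
    intro k t
    by_cases ht : t + 2 ≤ m
    swap
    · exact ⟨0, fun h => absurd h ht⟩
    have hab := hW.lt
    fin_cases k
    · obtain ⟨n, n1, n2⟩ := hW.mid (by omega : t + 1 < m) (δ := 0) (y := α) le_rfl
        (by linarith) (Or.inl (by ring)) h1 h2
      rw [← hw t (by omega)] at n1 n2
      exact ⟨n, fun _ => ⟨n1, n2⟩⟩
    · obtain ⟨n, n1, n2⟩ := wL_in θ t
      refine ⟨n, fun _ => ⟨lt_of_le_of_ne n1 ?_, n2⟩⟩
      intro he
      have h3 : (2 : ℤ) ^ (t + 1) - 1 ≠ 0 := by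
        have : (2 : ℤ) ≤ 2 ^ (t + 1) := by
          calc (2 : ℤ) = 2 ^ 1 := by norm_num
            _ ≤ 2 ^ (t + 1) := pow_le_pow_right₀ (by norm_num) (by omega)
        omega
      apply n70_irr hirr ((2 : ℤ) ^ (t + 1) - 1) (wL θ t + 2 * n) h3
      push_cast
      rw [pow_succ]
      simp at he
      linarith
    · obtain ⟨n, n1, n2⟩ := hW.mid (by omega : t + 1 < m) (δ := 0) (y := β) le_rfl
        (by linarith) (Or.inr (by ring)) h1 h2
      rw [← hw t (by omega)] at n1 n2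
      exact ⟨n, fun _ => ⟨n1, n2⟩⟩
  choose n hn using hn
  have hn0 : ∀ k, n k 0 = 0 := by
    intro k
    obtain ⟨c1, c2⟩ := hn k 0 (by omega)
    rw [hw0] at c1 c2
    have hy : 0 ≤ (![α, θ, β] : Fin 3 → ℝ) k ∧ (![α, θ, β] : Fin 3 → ℝ) k ≤ 1 := by
      fin_cases k
      · exact ⟨by simp; linarith, by simp; linarith⟩
      · exact ⟨by simp; linarith, by simp; linarith⟩
      · exact ⟨by simp; linarith, by simp; linarith⟩
    have e1 : (n k 0 : ℝ) < 1 := by push_cast at *; linarith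
    have e2 : (-1 : ℝ) < n k 0 := by push_cast at *; linarith
    have e3 : n k 0 < 1 := by exact_mod_cast e1
    have e4 : -1 < n k 0 := by exact_mod_cast e2
    omega
  set X : Fin 3 → ℕ → ℝ := fun k t => 2 ^ t * (![α, θ, β] : Fin 3 → ℝ) k - n k t with hX
  have T : Tri θ (wL θ) (m - 2) X := by
    refine ⟨wL_bit θ, ?_, ?_⟩
    · intro k t ht
      obtain ⟨c1, c2⟩ := hn k t (by omega)
      rw [hX]
      simp only
      constructor <;> linarith
    · intro k t ht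
      refine ⟨n k (t + 1) - 2 * n k t - wL θ t, ?_⟩
      rw [hX]
      simp only
      push_cast
      rw [pow_succ]
      ring
  have x0 : X 0 0 = α := by rw [hX]; simp [hn0]
  have x1 : X 1 0 = θ := by rw [hX]; simp [hn0]
  have x2 : X 2 0 = β := by rw [hX]; simp [hn0]
  have hmain := T.main (B := B) hθ0 hθ1 (by omega)
    (by
      intro i p hp hip
      obtain ⟨k, k1, k2, k3⟩ := htail i p hp hip
      exact ⟨k, k1, by omega, k3⟩) hw0 (by rw [x0]; exact h1) x1 (by rw [x2]; exact h2)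
    (by
      intro t t' k htt ht' he
      rw [hX] at he
      simp only at he
      have hpos : (2 : ℤ) ^ t < 2 ^ t' := pow_lt_pow_right₀ (by norm_num) htt
      have hmm : (2 : ℤ) ^ m - 1 ≠ 0 := by
        have : (2 : ℤ) ≤ 2 ^ m := by
          calc (2 : ℤ) = 2 ^ 1 := by norm_num
            _ ≤ 2 ^ m := pow_le_pow_right₀ (by norm_num) (by omega)
        omega
      have hθθ : (![α, θ, β] : Fin 3 → ℝ) 1 = θ := rfl
      rw [hθθ] at he
      have hrat : ∀ y : ℝ, (∃ a : ℤ, (2 ^ m - 1) * y = a) →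
          2 ^ t * θ - n 1 t ≠ 2 ^ t' * y - n k t' := by
        rintro y ⟨a, ha⟩ h
        apply n70_irr hirr ((2 ^ m - 1) * 2 ^ t) ((2 ^ m - 1) * (n 1 t - n k t') + 2 ^ t' * a)
          (mul_ne_zero hmm (by positivity))
        push_cast
        rw [← ha]
        have : 2 ^ t * θ = n 1 t - n k t' + 2 ^ t' * y := by linarith
        rw [mul_assoc, this]
        ring
      have hk : k = 0 ∨ k = 1 ∨ k = 2 := n70_fin k
      rcases hk with rfl | rfl | rfl
      · exact hrat α hW.per he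
      · apply n70_irr hirr (2 ^ t' - 2 ^ t) (n 1 t' - n 1 t) (by omega)
        rw [hθθ] at he
        push_cast
        linarith
      · exact hrat β hW.per' he)
  rw [x0, x2] at hmain
  exact hmain

end Pool.Agent.Work.MLC.Uni
end

section
set_option autoImplicit false

/-! # Theorem Cap, stage B, module M: multiplicity with overlap at most three in every class
(helper26) -/

namespace Pool.Agent.Work.MLC.Shp

open Filter Topology Metric Set Complex MeasureTheory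
open Pool.Agent.Work.MLC.Sat Pool.Agent.Work.MLC.Cnt
open Pool.Agent.Work.MLC.Cap (lam lam_anti sum_en_le bet_pos block_sum)
open scoped ENNReal

lemma eq_rpow_lam {l : ℝ} (hl : 0 < l) : l = (2 : ℝ) ^ (-lam l) := by
  unfold lam
  rw [one_div, Real.logb_inv, neg_neg, Real.rpow_logb (by norm_num) (by norm_num) hl]

/-- the family of arcs `(e i, e i + l i)` -/
structure Cls {ι : Type*} (N : Set ℝ) (F : Finset ι) (l e : ι → ℝ) : Prop where
  ct : N.Countable
  pos : ∀ i ∈ F, 0 < l i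
  big : ∀ i ∈ F, 90 ≤ lam (l i)
  ov : ∀ L x : ℝ, 0 < L → x ∉ N → ∀ T ⊆ F,
    (∀ i ∈ T, L ≤ lam (l i) ∧ lam (l i) < 6 / 5 * L ∧ e i < x ∧ x < e i + l i) → T.card ≤ 3

variable {ι : Type*} {N : Set ℝ} {F : Finset ι} {l e : ι → ℝ}

/-- arcs of a class with ends in a window -/
lemma Cls.near (h : Cls N F l e) {L g A B : ℝ} (hL : 0 < L) (hg : 0 < g) (hAB : A ≤ B) {T : Finset ι}
    (hT : T ⊆ F) (h1 : ∀ i ∈ T, L ≤ lam (l i) ∧ lam (l i) < 6 / 5 * L ∧ g / 2 ≤ l i ∧
      A ≤ e i ∧ e i ≤ B) : (T.card : ℝ) * (g / 2) ≤ 3 * (B - A + g / 2) := by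
  classical
  have hae : ∀ᵐ x : ℝ, ∑ i ∈ T, (Ioo (e i) (e i + g / 2)).indicator (fun _ => (1 : ℝ≥0∞)) x ≤
      (Ioo A (B + g / 2)).indicator (fun _ => (3 : ℝ≥0∞)) x := by
    have h0 : ∀ᵐ x : ℝ, x ∉ N := (measure_eq_zero_iff_ae_notMem).1 (h.ct.measure_zero volume)
    filter_upwards [h0] with x hx
    have h2 : ∑ i ∈ T, (Ioo (e i) (e i + g / 2)).indicator (fun _ => (1 : ℝ≥0∞)) x =
        ((T.filter fun i => x ∈ Ioo (e i) (e i + g / 2)).card : ℝ≥0∞) := by
      rw [Finset.card_eq_sum_ones, Nat.cast_sum, Finset.sum_filter]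
      refine Finset.sum_congr rfl fun i _ => ?_
      by_cases hi : x ∈ Ioo (e i) (e i + g / 2)
      · rw [Set.indicator_of_mem hi, if_pos hi, Nat.cast_one]
      · rw [Set.indicator_of_notMem hi, if_neg hi]
    rw [h2]
    by_cases hxw : x ∈ Ioo A (B + g / 2)
    · rw [Set.indicator_of_mem hxw]
      have h3 := h.ov L x hL hx (T.filter fun i => x ∈ Ioo (e i) (e i + g / 2))
        ((Finset.filter_subset _ _).trans hT) (by
          intro i hi
          obtain ⟨hi1, hi2⟩ := Finset.mem_filter.1 hi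
          obtain ⟨a1, a2, a3, -, -⟩ := h1 i hi1
          exact ⟨a1, a2, hi2.1, by linarith [hi2.2]⟩)
      exact_mod_cast h3
    · rw [Set.indicator_of_notMem hxw]
      have h3 : (T.filter fun i => x ∈ Ioo (e i) (e i + g / 2)) = ∅ := by
        rw [Finset.filter_eq_empty_iff]
        intro i hi hx2
        obtain ⟨-, -, -, a4, a5⟩ := h1 i hi
        exact hxw ⟨by linarith [hx2.1], by linarith [hx2.2]⟩
      rw [h3]
      simp
  have h4 := lintegral_mono_ae hae
  rw [lintegral_indicator measurableSet_Ioo, lintegral_finsetSum _ (fun i _ =>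
    (measurable_const.indicator measurableSet_Ioo))] at h4
  have h5 : ∑ i ∈ T, ∫⁻ x, (Ioo (e i) (e i + g / 2)).indicator (fun _ => (1 : ℝ≥0∞)) x =
      ENNReal.ofReal (T.card * (g / 2)) := by
    have : ∀ i ∈ T, ∫⁻ x, (Ioo (e i) (e i + g / 2)).indicator (fun _ => (1 : ℝ≥0∞)) x =
        ENNReal.ofReal (g / 2) := by
      intro i _
      rw [lintegral_indicator measurableSet_Ioo, setLIntegral_one, Real.volume_Ioo]
      congr 1
      ring
    rw [Finset.sum_congr rfl this, Finset.sum_const, nsmul_eq_mul,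
      ENNReal.ofReal_mul (by positivity), ENNReal.ofReal_natCast]
  rw [h5, setLIntegral_const, Real.volume_Ioo, show (3 : ℝ≥0∞) = ENNReal.ofReal 3 by simp,
    ← ENNReal.ofReal_mul (by norm_num)] at h4
  have h6 := (ENNReal.ofReal_le_ofReal_iff (by nlinarith)).1 h4
  linarith

/-- a class of the rays, left ends -/
lemma Cls.cls (h : Cls N F l e) {L g t : ℝ} (hL : 0 < L) (hg : 0 < g) {T : Finset ι} (hT : T ⊆ F)
    (h1 : ∀ i ∈ T, g ≤ 2 * l i ∧ |t - e i| ≤ l i ^ (5 / 4 : ℝ) + 8 * g)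
    (h2 : ∀ i ∈ T, L ≤ lam (l i) ∧ lam (l i) < 6 / 5 * L) : (T.card : ℝ) ≤ 114 := by
  classical
  have hcard := Finset.card_filter_add_card_filter_not (s := T) (fun i => l i ^ (5 / 4 : ℝ) ≤ g)
  have hnear : ((T.filter fun i => l i ^ (5 / 4 : ℝ) ≤ g).card : ℝ) ≤ 111 := by
    have h3 := h.near (T := T.filter fun i => l i ^ (5 / 4 : ℝ) ≤ g) (A := t - 9 * g)
      (B := t + 9 * g) hL hg (by linarith) ((Finset.filter_subset _ _).trans hT) (by
        intro i hi
        obtain ⟨hi1, hi2⟩ := Finset.mem_filter.1 hi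
        have h4 := (h1 i hi1).2
        rw [abs_le] at h4
        exact ⟨(h2 i hi1).1, (h2 i hi1).2, by linarith [(h1 i hi1).1], by linarith, by linarith⟩)
    have h4 : ((T.filter fun i => l i ^ (5 / 4 : ℝ) ≤ g).card : ℝ) * (g / 2) ≤ 111 * (g / 2) := by
      linarith
    exact le_of_mul_le_mul_right h4 (by positivity)
  have hfar : (T.filter fun i => ¬ l i ^ (5 / 4 : ℝ) ≤ g).card ≤ 3 := by
    rcases (T.filter fun i => ¬ l i ^ (5 / 4 : ℝ) ≤ g).eq_empty_or_nonempty with h3 | h3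
    · rw [h3]; simp
    obtain ⟨i₀, hi₀, hmin⟩ := Finset.exists_min_image _ (fun i => lam (l i)) h3
    obtain ⟨hi₀T, -⟩ := Finset.mem_filter.1 hi₀
    obtain ⟨Λ, hΛ⟩ : ∃ Λ, Λ = lam (l i₀) := ⟨_, rfl⟩
    rw [← hΛ] at hmin
    have hΛ90 : 90 ≤ Λ := by rw [hΛ]; exact h.big i₀ (hT hi₀T)
    have hΛL : L ≤ Λ := by rw [hΛ]; exact (h2 i₀ hi₀T).1
    obtain ⟨D, hD⟩ : ∃ D : ℝ, D = (2 : ℝ) ^ (-(5 / 4 * Λ)) := ⟨_, rfl⟩
    obtain ⟨b, hb⟩ : ∃ b : ℝ, b = (2 : ℝ) ^ (-(6 / 5 * Λ)) := ⟨_, rfl⟩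
    have hD0 : 0 < D := by rw [hD]; positivity
    have hDb : 18 * D < b := by
      have e1 : b = D * (2 : ℝ) ^ (Λ / 20) := by
        rw [hb, hD, ← Real.rpow_add (by norm_num)]
        congr 1
        ring
      have e2 : (18 : ℝ) < (2 : ℝ) ^ (Λ / 20) := by
        have e3 : (2 : ℝ) ^ (9 / 2 : ℝ) ≤ (2 : ℝ) ^ (Λ / 20) :=
          Real.rpow_le_rpow_of_exponent_le (by norm_num) (by linarith)
        refine lt_of_lt_of_le ?_ e3
        have e4 : (18 : ℝ) ^ (2 : ℕ) < ((2 : ℝ) ^ (9 / 2 : ℝ)) ^ (2 : ℕ) := by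
          rw [← Real.rpow_natCast ((2 : ℝ) ^ (9 / 2 : ℝ)), ← Real.rpow_mul (by norm_num)]
          norm_num
        exact lt_of_pow_lt_pow_left₀ 2 (by positivity) e4
      rw [e1]
      nlinarith
    have hmem : ∀ i ∈ T.filter (fun i => ¬ l i ^ (5 / 4 : ℝ) ≤ g), l i ^ (5 / 4 : ℝ) ≤ D ∧
        b < l i ∧ |t - e i| ≤ 9 * D := by
      intro i hi
      obtain ⟨hi1, hi2⟩ := Finset.mem_filter.1 hi
      push Not at hi2
      have p1 := h.pos i (hT hi1)
      have q1 := hmin i hi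
      have q2 := (h2 i hi1).2
      have r1 : l i ^ (5 / 4 : ℝ) ≤ D := by
        rw [hD]
        conv_lhs => rw [eq_rpow_lam p1]
        rw [← Real.rpow_mul (by norm_num)]
        exact Real.rpow_le_rpow_of_exponent_le (by norm_num) (by linarith)
      have r2 : b < l i := by
        rw [hb]
        conv_rhs => rw [eq_rpow_lam p1]
        exact Real.rpow_lt_rpow_of_exponent_lt (by norm_num) (by linarith)
      have r3 := (h1 i hi1).2
      exact ⟨r1, r2, by linarith⟩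
    obtain ⟨x, hx1, hx2⟩ : ∃ x ∈ Ioo (t + 9 * D) (t - 9 * D + b), x ∉ N := by
      by_contra hcon
      push Not at hcon
      have h4 : (Ioo (t + 9 * D) (t - 9 * D + b)).Countable := h.ct.mono hcon
      exact (Cardinal.Real.Ioo_countable_iff.not.2 (by linarith)) h4
    refine h.ov Λ x (by linarith) hx2 _ ((Finset.filter_subset _ _).trans hT) ?_
    intro i hi
    obtain ⟨r1, r2, r3⟩ := hmem i hi
    obtain ⟨hi1, -⟩ := Finset.mem_filter.1 hi
    have q2 := (h2 i hi1).2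
    rw [abs_le] at r3
    exact ⟨hmin i hi, by linarith, by linarith [hx1.1], by linarith [hx1.2]⟩
  have hfar' : ((T.filter fun i => ¬ l i ^ (5 / 4 : ℝ) ≤ g).card : ℝ) ≤ 3 := by
    exact_mod_cast hfar
  have hc : (T.card : ℝ) = ((T.filter fun i => l i ^ (5 / 4 : ℝ) ≤ g).card : ℝ) +
      (T.filter fun i => ¬ l i ^ (5 / 4 : ℝ) ≤ g).card := by
    exact_mod_cast hcard.symm
  linarith

/-- a block of the rays, left ends -/
lemma Cls.block (h : Cls N F l e) {g t : ℝ} (hg : 0 < g) {T : Finset ι} (hT : T ⊆ F)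
    (h1 : ∀ i ∈ T, g ≤ 2 * l i ∧ |t - e i| ≤ l i ^ (5 / 4 : ℝ) + 8 * g)
    (h2 : ∀ i ∈ T, ∀ j ∈ T, lam (l i) ≤ 3 / 2 * lam (l j)) : (T.card : ℝ) ≤ 342 := by
  classical
  rcases T.eq_empty_or_nonempty with rfl | h3
  · simp
  obtain ⟨i₀, hi₀, hmin⟩ := Finset.exists_min_image _ (fun i => lam (l i)) h3
  obtain ⟨Λ, hΛ⟩ : ∃ Λ, Λ = lam (l i₀) := ⟨_, rfl⟩
  have hΛ90 : 90 ≤ Λ := by rw [hΛ]; exact h.big i₀ (hT hi₀)
  have key : ∀ L : ℝ, 0 < L →
      ((T.filter fun i => L ≤ lam (l i) ∧ lam (l i) < 6 / 5 * L).card : ℝ) ≤ 114 := by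
    intro L hL
    exact h.cls hL hg ((Finset.filter_subset _ _).trans hT)
      (fun i hi => h1 i (Finset.mem_filter.1 hi).1) (fun i hi => (Finset.mem_filter.1 hi).2)
  have hsub : T ⊆ (T.filter fun i => Λ ≤ lam (l i) ∧ lam (l i) < 6 / 5 * Λ) ∪
      ((T.filter fun i => 6 / 5 * Λ ≤ lam (l i) ∧ lam (l i) < 6 / 5 * (6 / 5 * Λ)) ∪
      (T.filter fun i => 36 / 25 * Λ ≤ lam (l i) ∧ lam (l i) < 6 / 5 * (36 / 25 * Λ))) := by
    intro i hi
    have a1 := hmin i hi
    have a2 := h2 i hi i₀ hi₀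
    rw [← hΛ] at a1 a2
    simp only [Finset.mem_union, Finset.mem_filter]
    rcases lt_or_ge (lam (l i)) (6 / 5 * Λ) with b1 | b1
    · exact Or.inl ⟨hi, a1, b1⟩
    rcases lt_or_ge (lam (l i)) (36 / 25 * Λ) with b2 | b2
    · exact Or.inr (Or.inl ⟨hi, b1, by linarith⟩)
    · exact Or.inr (Or.inr ⟨hi, b2, by linarith⟩)
  have h4 : (T.card : ℝ) ≤ ((T.filter fun i => Λ ≤ lam (l i) ∧ lam (l i) < 6 / 5 * Λ).card : ℝ) +
      (((T.filter fun i => 6 / 5 * Λ ≤ lam (l i) ∧ lam (l i) < 6 / 5 * (6 / 5 * Λ)).card : ℝ) +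
      ((T.filter fun i => 36 / 25 * Λ ≤ lam (l i) ∧ lam (l i) < 6 / 5 * (36 / 25 * Λ)).card : ℝ)) := by
    exact_mod_cast (Finset.card_le_card hsub).trans ((Finset.card_union_le _ _).trans
      (Nat.add_le_add_left (Finset.card_union_le _ _) _))
  have k1 := key Λ (by linarith)
  have k2 := key (6 / 5 * Λ) (by linarith)
  have k3 := key (36 / 25 * Λ) (by linarith)
  linarith

/-- the multiplicity, left ends -/
theorem Cls.mult (h : Cls N F l e) {g t : ℝ} (hg : 0 < g) {S : Finset ι} (hS : S ⊆ F)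
    (h1 : ∀ i ∈ S, g ≤ 2 * l i ∧ |t - e i| ≤ l i ^ (5 / 4 : ℝ) + 8 * g) :
    ∑ i ∈ S, 1 / Cap.bet (16 * lam (l i)) g ≤ 10 ^ 5 := by
  classical
  rcases S.eq_empty_or_nonempty with rfl | ⟨i₁, hi₁⟩
  · rw [Finset.sum_empty]; positivity
  obtain ⟨X, hX⟩ : ∃ X, X = Real.logb 2 (1 / g) + 1 := ⟨_, rfl⟩
  have hle : ∀ i ∈ S, lam (l i) ≤ X := by
    intro i hi
    have h2 := (h1 i hi).1
    have h3 : g / 2 ≤ l i := by linarith
    have h4 := lam_anti (by positivity) h3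
    have h5 : lam (g / 2) = X := by
      unfold lam
      rw [hX, one_div_div, one_div, Real.logb_div (by norm_num) hg.ne', Real.logb_inv,
        Real.logb_self_eq_one (by norm_num)]
      ring
    rw [h5] at h4
    exact h4
  have hXbig : 90 ≤ X := (h.big i₁ (hS hi₁)).trans (hle i₁ hi₁)
  have h2 := block_sum (fun i => lam (l i)) 342 (by norm_num) S.card S le_rfl
    (fun i hi => by have := h.big i (hS hi); linarith)
    (fun T hT hT2 => h.block hg (hT.trans hS) (fun i hi => h1 i (hT hi)) hT2) X hle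
  have h3 : ∑ i ∈ S, 1 / Cap.bet (16 * lam (l i)) g ≤
      ∑ i ∈ S, 2 * (lam (l i) / X) ^ ((1 : ℝ) / 8) := by
    refine Finset.sum_le_sum fun i hi => ?_
    have b1 := h.big i (hS hi)
    have h4 : (X / (256 * lam (l i))) ^ ((1 : ℝ) / 8) ≤ Cap.bet (16 * lam (l i)) g := by
      unfold Cap.bet
      refine Real.rpow_le_rpow (by positivity) ?_ (by norm_num)
      refine le_trans ?_ (le_max_right _ _)
      have e1 : Real.logb 2 (1 / g) = X - 1 := by rw [hX]; ring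
      rw [e1, div_le_div_iff₀ (by positivity) (by positivity)]
      nlinarith
    have h5 : 0 < (X / (256 * lam (l i))) ^ ((1 : ℝ) / 8) := by positivity
    have h6 : 1 / Cap.bet (16 * lam (l i)) g ≤ 1 / (X / (256 * lam (l i))) ^ ((1 : ℝ) / 8) :=
      one_div_le_one_div_of_le h5 h4
    refine h6.trans (le_of_eq ?_)
    rw [one_div, ← Real.inv_rpow (by positivity), inv_div]
    have e2 : 256 * lam (l i) / X = (2 : ℝ) ^ (8 : ℕ) * (lam (l i) / X) := by ring
    rw [e2, Real.mul_rpow (by positivity) (by positivity), ← Real.rpow_natCast,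
      ← Real.rpow_mul (by norm_num)]
    norm_num
  rw [← Finset.mul_sum] at h3
  linarith

/-- the reflected family -/
lemma Cls.refl (h : Cls N F l e) : Cls ((fun x => -x) ⁻¹' N) F l (fun i => -(e i + l i)) where
  ct := by
    have : (fun x : ℝ => -x) ⁻¹' N = (fun x => -x) '' N := by
      ext x
      constructor
      · intro hx
        exact ⟨-x, hx, neg_neg x⟩
      · rintro ⟨y, hy, rfl⟩
        show -(-y) ∈ N
        rwa [neg_neg]
    rw [this]
    exact h.ct.image _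
  pos := h.pos
  big := h.big
  ov := by
    intro L x hL hx T hT hT2
    refine h.ov L (-x) hL hx T hT fun i hi => ?_
    obtain ⟨a1, a2, a3, a4⟩ := hT2 i hi
    exact ⟨a1, a2, by linarith, by linarith⟩

/-- the multiplicity, right ends -/
theorem Cls.mult' (h : Cls N F l e) {g t : ℝ} (hg : 0 < g) {S : Finset ι} (hS : S ⊆ F)
    (h1 : ∀ i ∈ S, g ≤ 2 * l i ∧ |t - (e i + l i)| ≤ l i ^ (5 / 4 : ℝ) + 8 * g) :
    ∑ i ∈ S, 1 / Cap.bet (16 * lam (l i)) g ≤ 10 ^ 5 := by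
  refine h.refl.mult (t := -t) hg hS fun i hi => ⟨(h1 i hi).1, ?_⟩
  have := (h1 i hi).2
  rw [← abs_neg] at this
  refine le_trans (le_of_eq ?_) this
  congr 1
  ring

lemma RayE_eq (e l : ℝ) : RayE e l = Cap.rayE (16 * lam l) e (l ^ (5 / 4 : ℝ)) l := rfl

lemma RayE_shift (e l : ℝ) (k : ℤ) : RayE (e + k) l = RayE e l := by
  rw [RayE_eq, RayE_eq]
  exact Cap.rayE_shift _ _ _ _ _

lemma lam_big {l : ℝ} (h0 : 0 < l) (h1 : l ≤ 1 / 2 ^ 90) : 90 ≤ lam l := by
  have h2 := lam_anti h0 h1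
  have h3 : lam (1 / 2 ^ 90) = 90 := by
    unfold lam
    rw [one_div_one_div, Real.logb_pow, Real.logb_self_eq_one (by norm_num)]
    norm_num
  rwa [h3] at h2

/-- **M** -/
theorem m_class : M_class := by
  classical
  refine ⟨10 ^ 11, fun ι F e ℓ hℓ hov => ?_⟩
  obtain ⟨N, hN⟩ : ∃ N : Set ℝ, N = ⋃ i ∈ F, ⋃ k : ℤ, {e i - k, e i + ℓ i - k} := ⟨_, rfl⟩
  have hNc : N.Countable := by
    rw [hN]
    exact F.countable_toSet.biUnion fun i _ => countable_iUnion fun k =>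
      (Set.toFinite _).countable
  -- every choice of shifts
  have hcls : ∀ κ : ι → ℤ, Cls N F ℓ (fun i => e i - κ i) := by
    intro κ
    refine ⟨hNc, fun i hi => (hℓ i hi).1, fun i hi => lam_big (hℓ i hi).1 (hℓ i hi).2, ?_⟩
    intro L x hL hx T hT hT2
    refine hov L x hL ?_ T hT fun i hi => ?_
    · intro i hi k
      constructor
      · intro he
        refine hx ?_
        rw [hN]
        refine mem_iUnion₂.2 ⟨i, hi, mem_iUnion.2 ⟨k, Or.inl ?_⟩⟩
        linarith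
      · intro he
        refine hx ?_
        rw [hN]
        refine mem_iUnion₂.2 ⟨i, hi, mem_iUnion.2 ⟨k, Or.inr ?_⟩⟩
        show x = e i + ℓ i - k
        linarith
    · obtain ⟨a1, a2, a3, a4⟩ := hT2 i hi
      exact ⟨a1, a2, κ i, by linarith, by linarith⟩
  have hsm : ∀ i ∈ F, ℓ i ≤ 1 / 1000 ∧ ℓ i ^ (5 / 4 : ℝ) ≤ 1 / 1000 := by
    intro i hi
    obtain ⟨h1, h2⟩ := hℓ i hi
    have h3 : ℓ i ≤ 1 / 1000 := h2.trans (by norm_num)
    refine ⟨h3, le_trans ?_ h3⟩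
    have := Real.rpow_le_rpow_of_exponent_ge h1 (by linarith) (show (1 : ℝ) ≤ 5 / 4 by norm_num)
    rwa [Real.rpow_one] at this
  have hStrip : ∀ i ∈ F, ∀ f : ℝ, 0 ≤ f → f < 1 → Cap.RS f (ℓ i ^ (5 / 4 : ℝ)) (ℓ i) ⊆ Cap.St := by
    rintro i hi f hf0 hf1 z ⟨h1, h2, h3⟩
    obtain ⟨h4, h5⟩ := hsm i hi
    have h6 := (hℓ i hi).1
    have hpi := Real.pi_gt_three
    rw [abs_le] at h3
    have h8 : z.im / (2 * Real.pi) < 2 := by linarith
    have h9 : -1 < z.im / (2 * Real.pi) := by linarith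
    rw [div_lt_iff₀ (by positivity)] at h8
    rw [lt_div_iff₀ (by positivity)] at h9
    have : Real.pi < 3.15 := Real.pi_lt_d2
    exact ⟨h1, by linarith, by linarith, by linarith⟩
  have hfin : ENNReal.ofReal (10 ^ 5) * Cap.en Cap.St ≤ ENNReal.ofReal (10 ^ 11) := by
    have h1 : Cap.en Cap.St ≤ 10 ^ 6 := Cap.c_energy
    calc ENNReal.ofReal (10 ^ 5) * Cap.en Cap.St ≤ ENNReal.ofReal (10 ^ 5) * 10 ^ 6 :=
          mul_le_mul' le_rfl h1
      _ = ENNReal.ofReal (10 ^ 5) * ENNReal.ofReal (10 ^ 6) := by norm_num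
      _ = ENNReal.ofReal (10 ^ 11) := by
          rw [← ENNReal.ofReal_mul (by norm_num)]
          norm_num
  constructor
  · have hc := hcls fun i => ⌊e i⌋
    have h1 : ∀ i ∈ F, RayE (e i) (ℓ i) = ∫⁻ z in Cap.RS (Int.fract (e i)) (ℓ i ^ (5 / 4 : ℝ)) (ℓ i),
        ENNReal.ofReal (‖deriv cOf z‖ ^ 2 / Cap.bet (16 * lam (ℓ i)) z.re) := by
      intro i _
      have h2 : e i = Int.fract (e i) + (⌊e i⌋ : ℤ) := (Int.fract_add_floor (e i)).symm
      conv_lhs => rw [h2]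
      rw [RayE_shift]
      rfl
    rw [Finset.sum_congr rfl h1]
    refine le_trans (sum_en_le F _ _ (fun i _ => Cap.meas_RS _ _ _) (fun i hi => hStrip i hi _
      (Int.fract_nonneg _) (Int.fract_lt_one _)) (fun i _ z _ => bet_pos _ _) (10 ^ 5) ?_) hfin
    rintro z ⟨hz, -, -, -⟩ T hT hT2
    refine hc.mult (t := z.im / (2 * Real.pi)) hz hT fun i hi => ?_
    obtain ⟨-, b2, b3⟩ := hT2 i hi
    exact ⟨b2, b3⟩
  · have hc := hcls fun i => ⌊e i + ℓ i⌋
    have h1 : ∀ i ∈ F, RayE (e i + ℓ i) (ℓ i) =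
        ∫⁻ z in Cap.RS (Int.fract (e i + ℓ i)) (ℓ i ^ (5 / 4 : ℝ)) (ℓ i),
        ENNReal.ofReal (‖deriv cOf z‖ ^ 2 / Cap.bet (16 * lam (ℓ i)) z.re) := by
      intro i _
      have h2 : e i + ℓ i = Int.fract (e i + ℓ i) + (⌊e i + ℓ i⌋ : ℤ) :=
        (Int.fract_add_floor (e i + ℓ i)).symm
      conv_lhs => rw [h2]
      rw [RayE_shift]
      rfl
    rw [Finset.sum_congr rfl h1]
    refine le_trans (sum_en_le F _ _ (fun i _ => Cap.meas_RS _ _ _) (fun i hi => hStrip i hi _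
      (Int.fract_nonneg _) (Int.fract_lt_one _)) (fun i _ z _ => bet_pos _ _) (10 ^ 5) ?_) hfin
    rintro z ⟨hz, -, -, -⟩ T hT hT2
    refine hc.mult' (t := z.im / (2 * Real.pi)) hz hT fun i hi => ?_
    obtain ⟨-, b2, b3⟩ := hT2 i hi
    refine ⟨b2, ?_⟩
    have e1 : e i - (⌊e i + ℓ i⌋ : ℤ) + ℓ i = Int.fract (e i + ℓ i) := by
      rw [Int.fract]
      ring
    show |z.im / (2 * Real.pi) - (e i - (⌊e i + ℓ i⌋ : ℤ) + ℓ i)| ≤ _
    rw [e1]
    exact b3

end Pool.Agent.Work.MLC.Shp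
end

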