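import Pool.Agent.Work.MLCM.C81
import Pool.Agent.Work.MLCM.C82
import Pool.Agent.Work.MLCM.C83
import Pool.Agent.Work.MLCM.C84
import Pool.Agent.Work.MLCM.C85
import Pool.Agent.Work.MLCM.C86
import Pool.Agent.Work.MLCM.C87
import Pool.Agent.Work.MLCM.C88
import Pool.Agent.Work.MLCM.C89
import Pool.Agent.Work.MLCM.C92

section
set_option autoImplicit false

/-! # Theorem U: the final assembly (helper6) -/

namespace Pool.Agent.Work.MLC.Uni

open Filter Topology Metric Set Complex MeasureTheory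
open Pool.Agent.Work.MLC.Sat Pool.Agent.Work.MLC.Cnt
open scoped ENNReal

lemma logNull_of_null {E : Set ℝ} (h : Cap.Null E) : Shp.LogNull E := by
  intro ε hε
  obtain ⟨a, l, h1, h2, h3, h4⟩ := h ε hε
  refine ⟨a, fun i => a i + l i, fun i => ⟨by linarith [(h1 i).1], by linarith [(h1 i).2]⟩,
    h2, ?_, ?_⟩
  · simpa only [add_sub_cancel_left] using h3
  · simpa only [add_sub_cancel_left] using h4

lemma null_of_logNull {E : Set ℝ} (h : Shp.LogNull E) : Cap.Null E := by
  intro ε hε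
  obtain ⟨a, b, h1, h2, h3, h4⟩ := h ε hε
  refine ⟨a, fun i => b i - a i, fun i => ⟨by linarith [(h1 i).1], by linarith [(h1 i).2]⟩,
    ?_, h3, h4⟩
  simpa only [add_sub_cancel] using h2

lemma null_union {E F : Set ℝ} (hE : Cap.Null E) (hF : Cap.Null F) : Cap.Null (E ∪ F) :=
  null_of_logNull ((logNull_of_null hE).union (logNull_of_null hF))

lemma null_mono {E F : Set ℝ} (hF : Cap.Null F) (h : E ⊆ F) : Cap.Null E :=
  null_of_logNull ((logNull_of_null hF).mono h)

lemma null_rat : Cap.Null {θ : ℝ | ¬ Irrational θ} := by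
  refine null_of_logNull (Shp.LogNull.countable ((Set.countable_range ((↑) : ℚ → ℝ)).mono ?_))
  intro θ hθ
  rw [mem_ofPred_eq, Irrational, not_not] at hθ
  exact hθ

/-- **Theorem U from its modules** -/
theorem uni_thm (hcomb : U_comb) (hirr : U_irr) (hn1 : U_null1) (hn2 : U_null2) : Uni_thm := by
  obtain ⟨C, hC⟩ := Cap.limb_all
  refine null_mono (null_union (null_union (null_of_logNull (Shp.null_A hC)) null_rat)
    (null_union hn1 hn2)) ?_
  rintro θ ⟨hθ, hbad⟩
  by_cases hθi : Irrational θ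
  swap
  · exact Or.inl (Or.inr hθi)
  by_cases hF : FewLimbs θ
  swap
  · refine Or.inl (Or.inl ⟨hθ, Shp.inf_of_arcs fun M => ?_, hbad⟩)
    by_contra hcon
    refine hF ⟨M, fun W x h1 h2 h3 h4 h5 h6 => hcon ⟨W, x, h1, h2, h3, h4, h5, h6⟩⟩
  by_cases hR : IrrRot θ
  · exact absurd (hirr θ hR) hbad
  refine Or.inr ?_
  have h0 : 0 < θ := lt_of_le_of_ne hθ.1 fun h => hθi.ne_nat 0 (by rw [← h]; norm_num)
  have hc := hcomb θ h0 hθ.2 hθi hR hF
  by_cases h1 : ∀ n₀ : ℕ, ∃ n, n₀ ≤ n ∧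
      ∃ W : WS, One n W ∧ 0 < (W.dat (1 / 2)).tm ∧ (W.dat (1 / 2)).tp < 1 ∧ θ ∈ A1 W
  · exact Or.inl ⟨hθi, hbad, h1⟩
  · right
    push Not at h1
    obtain ⟨n₁, hn₁⟩ := h1
    refine ⟨hθi, hbad, fun n₀ => ?_⟩
    obtain ⟨n, hn, W, w1, w2, w3, w4, w5⟩ := hc (max n₀ n₁)
    rcases w5 with w5 | ⟨W', w5, w6⟩
    · exact absurd ⟨w3, w4⟩ (hn₁ n ((le_max_right _ _).trans hn) W w5 w1 w2)
    · exact ⟨n, (le_max_left _ _).trans hn, W, W', w5, w1, w2, ⟨w3, w4⟩, w6⟩

end Pool.Agent.Work.MLC.Uni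
end

section
set_option autoImplicit false

/-! # Theorem CAP, module H_sum: the areas inside the components (helper60; from `Cap.c_half`) -/

namespace Pool.Agent.Work.MLC.Shp

open Filter Topology Metric Set Complex MeasureTheory
open Pool.Agent.Work.MLC.Sat Pool.Agent.Work.MLC.Cnt
open scoped ENNReal

/-- **H** -/
theorem h_sum : H_sum := by
  classical
  refine ⟨10 ^ 6, fun ι F W x hF hne => ?_⟩
  have h := Cap.c_half ι F W x hF fun i hi G hG hG2 => by
    have h1 : G.card ≤ 1 := by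
      rw [Finset.card_le_one]
      intro a ha b hb
      obtain ⟨a1, a2⟩ := hG2 a ha
      obtain ⟨b1, b2⟩ := hG2 b hb
      refine hne a (hG ha) b (hG hb) ⟨a1.1.symm.trans b1.1, fun L hL => ?_⟩ (a2.symm.trans b2)
      have hL' : L ∈ Pri.D0 (W i).m := by rw [a1.1]; exact hL
      rw [← a1.2 L hL', b1.2 L hL']
    omega
  have e : ENNReal.ofReal (10 ^ 6) = 10 ^ 6 := by
    rw [ENNReal.ofReal_pow (by norm_num)]
    norm_num
  rw [e]
  exact h

end Pool.Agent.Work.MLC.Shp
end

section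
set_option autoImplicit false

/-! # Theorem U: all modules together -/

namespace Pool.Agent.Work.MLC.Uni

open Pool.Agent.Work.MLC

/-- **Theorem U**: the set of all angles in `[0, 1)` at which the Riemann map has no limit, or the
Mandelbrot set is not locally connected at the limit, is a null set for the gauge
`1 / log (1 / t)` -/
theorem uni_all : Uni_thm :=
  uni_thm (u_comb u_lam (u_par u_ends u_lam) u_nwt u_win u_evp u_ws) u_irr
    (u_null1 (u_sum1 Shp.m_class u_one Shp.h_sum))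
    (u_null2 (u_sum2 Shp.m_class (u_two u_gate u_top u_child) Shp.h_sum u_area))

end Pool.Agent.Work.MLC.Uni
end

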